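import Mathlib

set_option autoImplicit false

namespace H10ac

open Finset

set_option linter.unusedSectionVars false

variable {V : Type} [DecidableEq V]

open Classical in
/-- The independent subsets of `U`. -/
noncomputable def indS (H : SimpleGraph V) (U : Finset V) : Finset (Finset V) :=
  U.powerset.filter (fun S => ∀ x ∈ S, ∀ y ∈ S, ¬ H.Adj x y)

/-- The number of independent subsets of `U`. -/
noncomputable def ind (H : SimpleGraph V) (U : Finset V) : ℕ := (indS H U).card

lemma mem_indS (H : SimpleGraph V) (U S : Finset V) :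
    S ∈ indS H U ↔ S ⊆ U ∧ ∀ x ∈ S, ∀ y ∈ S, ¬ H.Adj x y := by
  classical
  unfold indS
  rw [Finset.mem_filter, Finset.mem_powerset]

open Classical in
/-- vertices of `R` not adjacent to `I` -/
noncomputable def away (H : SimpleGraph V) (I R : Finset V) : Finset V :=
  R.filter (fun v => ∀ b ∈ I, ¬ H.Adj b v)

lemma mem_away (H : SimpleGraph V) (I R : Finset V) (v : V) :
    v ∈ away H I R ↔ v ∈ R ∧ ∀ b ∈ I, ¬ H.Adj b v := by
  classical
  unfold away
  rw [Finset.mem_filter]

lemma away_subset (H : SimpleGraph V) (I R : Finset V) : away H I R ⊆ R := by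
  intro v hv
  exact ((mem_away H I R v).1 hv).1

lemma away_empty (H : SimpleGraph V) (R : Finset V) : away H ∅ R = R := by
  ext v
  rw [mem_away]
  simp

lemma ind_union (H : SimpleGraph V) (B R : Finset V) (hd : Disjoint B R) :
    ind H (B ∪ R) = ∑ I ∈ indS H B, ind H (away H I R) := by
  classical
  unfold ind
  rw [Finset.card_eq_sum_card_fiberwise (f := fun S => S ∩ B) (t := indS H B)]
  · apply Finset.sum_congr rfl
    intro I hI
    rw [mem_indS] at hI
    have hdis : ∀ x, x ∈ R → x ∉ B := fun x hx hb => (Finset.disjoint_left.mp hd) hb hx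
    refine Finset.card_bij' (fun S _ => S \ B) (fun T _ => I ∪ T) ?_ ?_ ?_ ?_
    · intro S hS
      rw [Finset.mem_filter, mem_indS] at hS
      obtain ⟨⟨h1, h2⟩, h3⟩ := hS
      rw [mem_indS]
      refine ⟨?_, ?_⟩
      · intro v hv
        rw [Finset.mem_sdiff] at hv
        rw [mem_away]
        refine ⟨?_, ?_⟩
        · rcases Finset.mem_union.1 (h1 hv.1) with h | h
          · exact absurd h hv.2
          · exact h
        · intro b hb
          rw [← h3, Finset.mem_inter] at hb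
          exact h2 b hb.1 v hv.1
      · intro x hx y hy
        exact h2 x (Finset.mem_sdiff.1 hx).1 y (Finset.mem_sdiff.1 hy).1
    · intro T hT
      rw [mem_indS] at hT
      obtain ⟨h1, h2⟩ := hT
      rw [Finset.mem_filter, mem_indS]
      refine ⟨⟨?_, ?_⟩, ?_⟩
      · apply Finset.union_subset
        · exact hI.1.trans Finset.subset_union_left
        · exact (h1.trans (away_subset H I R)).trans Finset.subset_union_right
      · intro x hx y hy
        rw [Finset.mem_union] at hx hy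
        rcases hx with hx | hx <;> rcases hy with hy | hy
        · exact hI.2 x hx y hy
        · exact ((mem_away H I R y).1 (h1 hy)).2 x hx
        · intro h
          exact ((mem_away H I R x).1 (h1 hx)).2 y hy h.symm
        · exact h2 x hx y hy
      · ext x
        rw [Finset.mem_inter, Finset.mem_union]
        constructor
        · rintro ⟨h | h, hb⟩
          · exact h
          · exact absurd hb (hdis x (away_subset H I R (h1 h)))
        · intro h
          exact ⟨Or.inl h, hI.1 h⟩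
    · intro S hS
      rw [Finset.mem_filter, mem_indS] at hS
      obtain ⟨⟨h1, h2⟩, h3⟩ := hS
      show I ∪ S \ B = S
      rw [← h3]
      ext x
      simp only [Finset.mem_union, Finset.mem_inter, Finset.mem_sdiff]
      tauto
    · intro T hT
      rw [mem_indS] at hT
      obtain ⟨h1, h2⟩ := hT
      show (I ∪ T) \ B = T
      ext x
      simp only [Finset.mem_union, Finset.mem_sdiff]
      constructor
      · rintro ⟨h | h, hb⟩
        · exact absurd (hI.1 h) hb
        · exact h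
      · intro h
        exact ⟨Or.inr h, hdis x (away_subset H I R (h1 h))⟩
  · intro S hS
    have hS' : S ∈ indS H (B ∪ R) := hS
    rw [mem_indS] at hS'
    show S ∩ B ∈ indS H B
    rw [mem_indS]
    refine ⟨Finset.inter_subset_right, ?_⟩
    intro x hx y hy
    exact hS'.2 x (Finset.mem_inter.1 hx).1 y (Finset.mem_inter.1 hy).1

lemma ind_le (H : SimpleGraph V) (U : Finset V) : ind H U ≤ 2 ^ U.card := by
  classical
  unfold ind indS
  refine (Finset.card_filter_le _ _).trans ?_
  rw [Finset.card_powerset]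

lemma ind_mono (H : SimpleGraph V) {U U' : Finset V} (h : U ⊆ U') : ind H U ≤ ind H U' := by
  classical
  apply Finset.card_le_card
  intro S hS
  rw [mem_indS] at hS ⊢
  exact ⟨hS.1.trans h, hS.2⟩

lemma ind_of_indep (H : SimpleGraph V) (U : Finset V) (h : ∀ x ∈ U, ∀ y ∈ U, ¬ H.Adj x y) :
    ind H U = 2 ^ U.card := by
  classical
  unfold ind indS
  rw [Finset.filter_true_of_mem, Finset.card_powerset]
  intro S hS x hx y hy
  rw [Finset.mem_powerset] at hS
  exact h x (hS hx) y (hS hy)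

lemma indS_card_le (H : SimpleGraph V) (B : Finset V) : (indS H B).card ≤ 2 ^ B.card := ind_le H B

lemma ind_insert (H : SimpleGraph V) (v : V) (R : Finset V) (hv : v ∉ R) :
    ind H (insert v R) = ind H R + ind H (away H {v} R) := by
  classical
  have h1 : insert v R = {v} ∪ R := by rw [Finset.insert_eq]
  rw [h1, ind_union H {v} R (by rw [Finset.disjoint_singleton_left]; exact hv)]
  have h2 : indS H {v} = {∅, {v}} := by
    ext S
    rw [mem_indS]
    simp only [Finset.mem_insert, Finset.mem_singleton, Finset.subset_singleton_iff]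
    constructor
    · rintro ⟨h, _⟩
      exact h
    · rintro (rfl | rfl)
      · exact ⟨Or.inl rfl, by simp⟩
      · refine ⟨Or.inr rfl, ?_⟩
        intro x hx y hy
        rw [Finset.mem_singleton] at hx hy
        rw [hx, hy]
        exact H.irrefl
  rw [h2, Finset.sum_pair (by
    intro h
    exact absurd h.symm (Finset.singleton_ne_empty v))]
  rw [away_empty]

lemma ind_prod (H : SimpleGraph V) (R O : Finset V) (hd : Disjoint R O)
    (hO : ∀ x ∈ O, ∀ y ∈ O, ¬ H.Adj x y) (hRO : ∀ x ∈ R, ∀ y ∈ O, ¬ H.Adj x y) :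
    ind H (R ∪ O) = ind H R * 2 ^ O.card := by
  rw [ind_union H R O hd]
  have : ∀ I ∈ indS H R, ind H (away H I O) = 2 ^ O.card := by
    intro I hI
    rw [mem_indS] at hI
    have h : away H I O = O := by
      ext v
      rw [mem_away]
      constructor
      · exact fun h => h.1
      · exact fun h => ⟨h, fun b hb => hRO b (hI.1 hb) v h⟩
    rw [h, ind_of_indep H O hO]
  rw [Finset.sum_congr rfl this, Finset.sum_const, smul_eq_mul]
  rfl

lemma edge_bound (H : SimpleGraph V) (U : Finset V) (u v : V) (hu : u ∈ U) (hv : v ∈ U)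
    (huv : H.Adj u v) : ind H U ≤ 3 * ind H (U \ {u, v}) := by
  classical
  have hne : u ≠ v := huv.ne
  have h1 : U = {u, v} ∪ (U \ {u, v}) := by
    rw [Finset.union_sdiff_of_subset]
    intro x hx
    rw [Finset.mem_insert, Finset.mem_singleton] at hx
    rcases hx with rfl | rfl <;> assumption
  have h2 : ind H U = ∑ I ∈ indS H {u, v}, ind H (away H I (U \ {u, v})) := by
    conv_lhs => rw [h1]
    exact ind_union H _ _ Finset.disjoint_sdiff
  rw [h2]
  have h3 : ∀ I ∈ indS H {u, v}, ind H (away H I (U \ {u, v})) ≤ ind H (U \ {u, v}) :=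
    fun I _ => ind_mono H (away_subset H I _)
  refine (Finset.sum_le_sum h3).trans ?_
  rw [Finset.sum_const, smul_eq_mul]
  apply Nat.mul_le_mul_right
  have h4 : indS H {u, v} ⊆ ({u, v} : Finset V).powerset.erase {u, v} := by
    intro S hS
    rw [mem_indS] at hS
    rw [Finset.mem_erase, Finset.mem_powerset]
    refine ⟨?_, hS.1⟩
    rintro rfl
    exact hS.2 u (by simp) v (by simp) huv
  refine (Finset.card_le_card h4).trans ?_
  rw [Finset.card_erase_of_mem (by simp), Finset.card_powerset, Finset.card_pair hne]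
  norm_num

open Classical in
lemma greedy (H : SimpleGraph V) (j : ℕ) : ∀ U : Finset V,
    (∀ v ∈ U, (U.filter (fun w => H.Adj v w)).card ≤ 6) →
    12 * j < (U.filter (fun v => ∃ w ∈ U, H.Adj v w)).card →
    4 ^ (j + 1) * ind H U ≤ 3 ^ (j + 1) * 2 ^ U.card := by
  induction j with
  | zero =>
    intro U hdeg hcard
    obtain ⟨u, hu⟩ := Finset.card_pos.1 (by omega : 0 < (U.filter (fun v => ∃ w ∈ U, H.Adj v w)).card)
    rw [Finset.mem_filter] at hu
    obtain ⟨huU, v, hvU, huv⟩ := hu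
    have h1 := edge_bound H U u v huU hvU huv
    have h2 := ind_le H (U \ {u, v})
    have h3 : (U \ {u, v}).card + 2 = U.card := by
      have hsub : ({u, v} : Finset V) ⊆ U := by
        intro x hx
        rw [Finset.mem_insert, Finset.mem_singleton] at hx
        rcases hx with rfl | rfl <;> assumption
      have := Finset.card_sdiff_add_card_eq_card hsub
      rw [Finset.card_pair huv.ne] at this
      exact this
    have h4 : 2 ^ U.card = 2 ^ (U \ {u, v}).card * 4 := by
      rw [← h3, pow_add]; norm_num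
    rw [h4]
    norm_num
    omega
  | succ j ih =>
    intro U hdeg hcard
    obtain ⟨u, hu⟩ := Finset.card_pos.1 (by omega : 0 < (U.filter (fun v => ∃ w ∈ U, H.Adj v w)).card)
    rw [Finset.mem_filter] at hu
    obtain ⟨huU, v, hvU, huv⟩ := hu
    have h1 := edge_bound H U u v huU hvU huv
    have h3 : (U \ {u, v}).card + 2 = U.card := by
      have hsub : ({u, v} : Finset V) ⊆ U := by
        intro x hx
        rw [Finset.mem_insert, Finset.mem_singleton] at hx
        rcases hx with rfl | rfl <;> assumption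
      have := Finset.card_sdiff_add_card_eq_card hsub
      rw [Finset.card_pair huv.ne] at this
      exact this
    set U1 := U \ {u, v} with hU1
    have hU1U : U1 ⊆ U := Finset.sdiff_subset
    have hih := ih U1 (by
      intro x hx
      refine le_trans (Finset.card_le_card ?_) (hdeg x (hU1U hx))
      exact Finset.filter_subset_filter _ hU1U) (by
      have hsub : (U.filter (fun v => ∃ w ∈ U, H.Adj v w)) ⊆
          (U1.filter (fun v => ∃ w ∈ U1, H.Adj v w)) ∪
          ((U.filter (fun w => H.Adj u w)) ∪ (U.filter (fun w => H.Adj v w))) := by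
        intro x hx
        rw [Finset.mem_filter] at hx
        obtain ⟨hxU, w, hwU, hxw⟩ := hx
        simp only [Finset.mem_union, Finset.mem_filter]
        by_cases hx1 : H.Adj u x
        · exact Or.inr (Or.inl ⟨hxU, hx1⟩)
        · by_cases hx2 : H.Adj v x
          · exact Or.inr (Or.inr ⟨hxU, hx2⟩)
          · left
            have hxu : x ≠ u := by
              rintro rfl
              exact hx2 huv.symm
            have hxv : x ≠ v := by
              rintro rfl
              exact hx1 huv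
            have hwu : w ≠ u := by
              rintro rfl
              exact hx1 hxw.symm
            have hwv : w ≠ v := by
              rintro rfl
              exact hx2 hxw.symm
            refine ⟨?_, w, ?_, hxw⟩
            · rw [hU1, Finset.mem_sdiff]
              exact ⟨hxU, by simp [hxu, hxv]⟩
            · rw [hU1, Finset.mem_sdiff]
              exact ⟨hwU, by simp [hwu, hwv]⟩
      have hc := Finset.card_le_card hsub
      have hc2 := Finset.card_union_le (U1.filter (fun v => ∃ w ∈ U1, H.Adj v w))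
          ((U.filter (fun w => H.Adj u w)) ∪ (U.filter (fun w => H.Adj v w)))
      have hc3 := Finset.card_union_le (U.filter (fun w => H.Adj u w)) (U.filter (fun w => H.Adj v w))
      have hd1 := hdeg u huU
      have hd2 := hdeg v hvU
      omega)
    have h4 : 2 ^ U.card = 2 ^ U1.card * 2 ^ 2 := by
      rw [← h3, pow_add]
    rw [h4]
    calc 4 ^ (j + 1 + 1) * ind H U ≤ 4 ^ (j + 1 + 1) * (3 * ind H U1) := Nat.mul_le_mul_left _ h1
      _ = 12 * (4 ^ (j + 1) * ind H U1) := by ring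
      _ ≤ 12 * (3 ^ (j + 1) * 2 ^ U1.card) := Nat.mul_le_mul_left _ hih
      _ = 3 ^ (j + 1 + 1) * (2 ^ U1.card * 2 ^ 2) := by ring

open Classical in
lemma cover_bound (H : SimpleGraph V) (B R : Finset V) (hd : Disjoint B R) (d : ℕ)
    (h : ∀ v ∈ B, d ≤ (R.filter (fun w => H.Adj v w)).card) :
    ind H (B ∪ R) ≤ ind H R + (2 ^ B.card - 1) * 2 ^ (R.card - d) := by
  rw [ind_union H B R hd]
  have hmem : ∅ ∈ indS H B := by
    rw [mem_indS]
    simp
  rw [← Finset.add_sum_erase _ _ hmem, away_empty]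
  apply Nat.add_le_add_left
  have h1 : ∀ I ∈ (indS H B).erase ∅, ind H (away H I R) ≤ 2 ^ (R.card - d) := by
    intro I hI
    rw [Finset.mem_erase, mem_indS] at hI
    obtain ⟨hne, hIB, _⟩ := hI
    obtain ⟨v, hv⟩ := Finset.nonempty_iff_ne_empty.2 hne
    refine (ind_le H _).trans ?_
    apply Nat.pow_le_pow_right (by norm_num)
    have hsub : away H I R ⊆ R \ (R.filter (fun w => H.Adj v w)) := by
      intro w hw
      rw [mem_away] at hw
      rw [Finset.mem_sdiff, Finset.mem_filter]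
      exact ⟨hw.1, fun hc => hw.2 v hv hc.2⟩
    refine (Finset.card_le_card hsub).trans ?_
    have h2 := Finset.card_sdiff_add_card_eq_card (Finset.filter_subset (fun w => H.Adj v w) R)
    have h3 := h v (hIB hv)
    omega
  refine (Finset.sum_le_sum h1).trans ?_
  rw [Finset.sum_const, smul_eq_mul]
  apply Nat.mul_le_mul_right
  rw [Finset.card_erase_of_mem hmem]
  have := indS_card_le H B
  omega

end H10ac




namespace H10ac

open Finset

/-- A clean cut `g`: every term either is divisible by `2^g` or is tiny compared with `2^g`. -/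
lemma clean_mod {ι : Type} [DecidableEq ι] (s : Finset ι) (x f : ι → ℕ) (q g : ℕ)
    (hs : s.card ≤ 8) (hx : ∀ j ∈ s, 2 ^ f j ∣ x j) (hx2 : ∀ j ∈ s, x j < 2 ^ (f j + q))
    (hclean : ∀ j ∈ s, g ≤ f j ∨ f j + q + 3 ≤ g) :
    (∑ j ∈ s, x j) % 2 ^ g = ∑ j ∈ s.filter (fun j => f j < g), x j := by
  have h1 : ∑ j ∈ s, x j = ∑ j ∈ s.filter (fun j => f j < g), x j
      + ∑ j ∈ s.filter (fun j => ¬ f j < g), x j :=
    (Finset.sum_filter_add_sum_filter_not s (fun j => f j < g) x).symm
  have h2 : 2 ^ g ∣ ∑ j ∈ s.filter (fun j => ¬ f j < g), x j := by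
    apply Finset.dvd_sum
    intro j hj
    rw [Finset.mem_filter, not_lt] at hj
    exact (pow_dvd_pow 2 hj.2).trans (hx j hj.1)
  have h3 : ∑ j ∈ s.filter (fun j => f j < g), x j < 2 ^ g := by
    by_cases hg : g < 3
    · have : s.filter (fun j => f j < g) = ∅ := by
        apply Finset.filter_false_of_mem
        intro j hj hlt
        rcases hclean j hj with h | h <;> omega
      rw [this]
      simp
    · have h4 : ∀ j ∈ s.filter (fun j => f j < g), x j ≤ 2 ^ (g - 3) - 1 := by
        intro j hj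
        rw [Finset.mem_filter] at hj
        have h5 := hx2 j hj.1
        have h6 : f j + q ≤ g - 3 := by
          rcases hclean j hj.1 with h | h <;> omega
        have h7 : (2 : ℕ) ^ (f j + q) ≤ 2 ^ (g - 3) := Nat.pow_le_pow_right (by norm_num) h6
        omega
      have h8 : (s.filter (fun j => f j < g)).card ≤ 8 :=
        (Finset.card_filter_le _ _).trans hs
      have h9 : ∑ j ∈ s.filter (fun j => f j < g), x j ≤
          (s.filter (fun j => f j < g)).card * (2 ^ (g - 3) - 1) := by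
        have := Finset.sum_le_card_nsmul _ _ _ h4
        rw [smul_eq_mul] at this
        exact this
      have h10 : (2 : ℕ) ^ g = 8 * 2 ^ (g - 3) := by
        have : g = 3 + (g - 3) := by omega
        conv_lhs => rw [this, pow_add]
        norm_num
      have h11 : 0 < (2 : ℕ) ^ (g - 3) := by positivity
      have h12 : (s.filter (fun j => f j < g)).card * (2 ^ (g - 3) - 1) ≤ 8 * (2 ^ (g - 3) - 1) :=
        Nat.mul_le_mul_right _ h8
      omega
  rw [h1]
  obtain ⟨c, hc⟩ := h2
  rw [hc, Nat.add_mul_mod_self_left, Nat.mod_eq_of_lt h3]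

/-- In every long gap there is a clean cut. -/
lemma clean_exists {ι : Type} [DecidableEq ι] (s : Finset ι) (f : ι → ℕ) (q lo : ℕ) :
    ∃ g, lo < g ∧ g ≤ lo + (s.card + 1) * (q + 3) ∧ ∀ j ∈ s, g ≤ f j ∨ f j + q + 3 ≤ g := by
  by_contra hcon
  push Not at hcon
  have hdirty : ∀ i : Fin (s.card + 1), ∃ j ∈ s, f j < lo + (i.val + 1) * (q + 3) ∧
      lo + (i.val + 1) * (q + 3) < f j + q + 3 := by
    intro i
    have h1 : lo < lo + (i.val + 1) * (q + 3) := by
      have : 0 < (i.val + 1) * (q + 3) := by positivity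
      omega
    have h2 : lo + (i.val + 1) * (q + 3) ≤ lo + (s.card + 1) * (q + 3) := by
      have := i.2
      have : (i.val + 1) * (q + 3) ≤ (s.card + 1) * (q + 3) := Nat.mul_le_mul_right _ (by omega)
      omega
    obtain ⟨j, hj, h3, h4⟩ := hcon _ h1 h2
    exact ⟨j, hj, h3, h4⟩
  choose jj hjs hj1 hj2 using hdirty
  have hinj : Function.Injective jj := by
    intro i i' h
    by_contra hne
    have hne' : i.val ≠ i'.val := fun h => hne (Fin.ext h)
    rcases Nat.lt_or_gt_of_ne hne' with hlt | hlt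
    · have h1 := hj1 i
      have h2 := hj2 i'
      rw [← h] at h2
      have h3 : (i.val + 1) * (q + 3) + (q + 3) ≤ (i'.val + 1) * (q + 3) := by
        have : (i.val + 1 + 1) * (q + 3) ≤ (i'.val + 1) * (q + 3) := Nat.mul_le_mul_right _ (by omega)
        have h5 : (i.val + 1 + 1) * (q + 3) = (i.val + 1) * (q + 3) + (q + 3) := by ring
        omega
      omega
    · have h1 := hj1 i'
      have h2 := hj2 i
      rw [h] at h2
      have h3 : (i'.val + 1) * (q + 3) + (q + 3) ≤ (i.val + 1) * (q + 3) := by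
        have : (i'.val + 1 + 1) * (q + 3) ≤ (i.val + 1) * (q + 3) := Nat.mul_le_mul_right _ (by omega)
        have h5 : (i'.val + 1 + 1) * (q + 3) = (i'.val + 1) * (q + 3) + (q + 3) := by ring
        omega
      omega
  have hc := Finset.card_le_card_of_injOn (s := (Finset.univ : Finset (Fin (s.card + 1)))) (t := s)
    jj (fun i _ => hjs i) (fun i _ i' _ h => hinj h)
  simp at hc

lemma card_lt_of_sum_lt {ι : Type} [DecidableEq ι] (s t : Finset ι) (x : ι → ℕ) (hst : s ⊆ t)
    (h : ∑ j ∈ s, x j < ∑ j ∈ t, x j) : s.card + 1 ≤ t.card := by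
  have hne : s ≠ t := by
    rintro rfl
    exact lt_irrefl _ h
  exact Finset.card_lt_card (Finset.ssubset_iff_subset_ne.2 ⟨hst, hne⟩)

lemma modpow (a b c r : ℕ) (h1 : b < 2 ^ r) (h2 : a = 2 ^ r * c + b) : a % 2 ^ r = b := by
  rw [h2, Nat.mul_add_mod, Nat.mod_eq_of_lt h1]

/-- `k` is not a sum of at most five terms with short mantissa. -/
lemma no_five {ι : Type} [DecidableEq ι] (s : Finset ι) (x f : ι → ℕ) (q e0 e1 e2 e3 e4 : ℕ)
    (hs : s.card ≤ 5) (hx : ∀ j ∈ s, 2 ^ f j ∣ x j) (hx2 : ∀ j ∈ s, x j < 2 ^ (f j + q))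
    (h4 : 6 * (q + 3) ≤ e4) (h3 : e4 + 6 * (q + 3) ≤ e3) (h2 : e3 + 6 * (q + 3) ≤ e2)
    (h1 : e2 + 6 * (q + 3) ≤ e1) (h0 : e1 + 6 * (q + 3) ≤ e0)
    (hsum : ∑ j ∈ s, x j = 2 ^ e0 + 2 ^ e1 + 2 ^ e2 + 2 ^ e3 + 2 ^ e4 + 1) : False := by
  have hcl : ∀ lo, ∃ g, lo < g ∧ g ≤ lo + 6 * (q + 3) ∧ ∀ j ∈ s, g ≤ f j ∨ f j + q + 3 ≤ g := by
    intro lo
    obtain ⟨g, hg1, hg2, hg3⟩ := clean_exists s f q lo
    refine ⟨g, hg1, hg2.trans ?_, hg3⟩
    have : (s.card + 1) * (q + 3) ≤ 6 * (q + 3) := Nat.mul_le_mul_right _ (by omega)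
    omega
  obtain ⟨g5, a5, b5, c5⟩ := hcl 0
  obtain ⟨g4, a4, b4, c4⟩ := hcl e4
  obtain ⟨g3, a3, b3, c3⟩ := hcl e3
  obtain ⟨g2, a2, b2, c2⟩ := hcl e2
  obtain ⟨g1, a1, b1, c1⟩ := hcl e1
  have m5 := clean_mod s x f q g5 (by omega) hx hx2 c5
  have m4 := clean_mod s x f q g4 (by omega) hx hx2 c4
  have m3 := clean_mod s x f q g3 (by omega) hx hx2 c3
  have m2 := clean_mod s x f q g2 (by omega) hx hx2 c2
  have m1 := clean_mod s x f q g1 (by omega) hx hx2 c1
  have pdvd : ∀ a b : ℕ, a ≤ b → ∃ c, 2 ^ b = 2 ^ a * c := fun a b h => by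
    obtain ⟨c, hc⟩ := pow_dvd_pow 2 h
    exact ⟨c, hc⟩
  have plt : ∀ a b : ℕ, a < b → 2 * 2 ^ a ≤ 2 ^ b := fun a b h => by
    calc 2 * 2 ^ a = 2 ^ (a + 1) := by ring
      _ ≤ 2 ^ b := Nat.pow_le_pow_right (by norm_num) h
  have ppos : ∀ a : ℕ, 1 ≤ 2 ^ a := fun a => Nat.one_le_two_pow
  -- values of the residues
  have r5 : (∑ j ∈ s, x j) % 2 ^ g5 = 1 := by
    obtain ⟨d0, hd0⟩ := pdvd g5 e0 (by omega)
    obtain ⟨d1, hd1⟩ := pdvd g5 e1 (by omega)
    obtain ⟨d2, hd2⟩ := pdvd g5 e2 (by omega)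
    obtain ⟨d3, hd3⟩ := pdvd g5 e3 (by omega)
    obtain ⟨d4, hd4⟩ := pdvd g5 e4 (by omega)
    refine modpow _ _ (d0 + d1 + d2 + d3 + d4) g5 ?_ ?_
    · have := plt 0 g5 (by omega)
      norm_num at this ⊢
      omega
    · rw [hsum, hd0, hd1, hd2, hd3, hd4]; ring
  have r4 : (∑ j ∈ s, x j) % 2 ^ g4 = 2 ^ e4 + 1 := by
    obtain ⟨d0, hd0⟩ := pdvd g4 e0 (by omega)
    obtain ⟨d1, hd1⟩ := pdvd g4 e1 (by omega)
    obtain ⟨d2, hd2⟩ := pdvd g4 e2 (by omega)
    obtain ⟨d3, hd3⟩ := pdvd g4 e3 (by omega)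
    refine modpow _ _ (d0 + d1 + d2 + d3) g4 ?_ ?_
    · have h5 := plt e4 g4 (by omega)
      have h6 := plt 0 e4 (by omega)
      norm_num at h6
      omega
    · rw [hsum, hd0, hd1, hd2, hd3]; ring
  have r3 : (∑ j ∈ s, x j) % 2 ^ g3 = 2 ^ e3 + 2 ^ e4 + 1 := by
    obtain ⟨d0, hd0⟩ := pdvd g3 e0 (by omega)
    obtain ⟨d1, hd1⟩ := pdvd g3 e1 (by omega)
    obtain ⟨d2, hd2⟩ := pdvd g3 e2 (by omega)
    refine modpow _ _ (d0 + d1 + d2) g3 ?_ ?_
    · have h5 := plt e3 g3 (by omega)
      have h6 := plt e4 e3 (by omega)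
      have h7 := plt 0 e4 (by omega)
      norm_num at h7
      omega
    · rw [hsum, hd0, hd1, hd2]; ring
  have r2 : (∑ j ∈ s, x j) % 2 ^ g2 = 2 ^ e2 + 2 ^ e3 + 2 ^ e4 + 1 := by
    obtain ⟨d0, hd0⟩ := pdvd g2 e0 (by omega)
    obtain ⟨d1, hd1⟩ := pdvd g2 e1 (by omega)
    refine modpow _ _ (d0 + d1) g2 ?_ ?_
    · have h5 := plt e2 g2 (by omega)
      have h6 := plt e3 e2 (by omega)
      have h7 := plt e4 e3 (by omega)
      have h8 := plt 0 e4 (by omega)
      norm_num at h8
      omega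
    · rw [hsum, hd0, hd1]; ring
  have r1 : (∑ j ∈ s, x j) % 2 ^ g1 = 2 ^ e1 + 2 ^ e2 + 2 ^ e3 + 2 ^ e4 + 1 := by
    obtain ⟨d0, hd0⟩ := pdvd g1 e0 (by omega)
    refine modpow _ _ d0 g1 ?_ ?_
    · have h5 := plt e1 g1 (by omega)
      have h6 := plt e2 e1 (by omega)
      have h7 := plt e3 e2 (by omega)
      have h8 := plt e4 e3 (by omega)
      have h9 := plt 0 e4 (by omega)
      norm_num at h9
      omega
    · rw [hsum, hd0]; ring
  rw [m5] at r5
  rw [m4] at r4
  rw [m3] at r3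
  rw [m2] at r2
  rw [m1] at r1
  have hsub : ∀ g g' : ℕ, g ≤ g' → s.filter (fun j => f j < g) ⊆ s.filter (fun j => f j < g') := by
    intro g g' hgg j hj
    rw [Finset.mem_filter] at hj ⊢
    exact ⟨hj.1, by omega⟩
  have k1 := card_lt_of_sum_lt _ _ x (Finset.filter_subset (fun j => f j < g1) s) (by
    rw [r1, hsum]; have := ppos e0; omega)
  have k2 := card_lt_of_sum_lt _ _ x (hsub g2 g1 (by omega)) (by
    rw [r1, r2]; have := ppos e1; omega)
  have k3 := card_lt_of_sum_lt _ _ x (hsub g3 g2 (by omega)) (by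
    rw [r2, r3]; have := ppos e2; omega)
  have k4 := card_lt_of_sum_lt _ _ x (hsub g4 g3 (by omega)) (by
    rw [r3, r4]; have := ppos e3; omega)
  have k5 := card_lt_of_sum_lt _ _ x (hsub g5 g4 (by omega)) (by
    rw [r4, r5]; have := ppos e4; omega)
  have k6 : 1 ≤ (s.filter (fun j => f j < g5)).card := by
    rw [Nat.one_le_iff_ne_zero]
    intro h0
    rw [Finset.card_eq_zero] at h0
    rw [h0] at r5
    simp at r5
  omega

end H10ac



set_option linter.unusedVariables false

namespace H10ac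

lemma plt (a b : ℕ) (h : a < b) : 2 * 2 ^ a ≤ 2 ^ b := by
  calc 2 * 2 ^ a = 2 ^ (a + 1) := by ring
    _ ≤ 2 ^ b := Nat.pow_le_pow_right (by norm_num) h

lemma ple (a b : ℕ) (h : a ≤ b) : 2 ^ a ≤ 2 ^ b := Nat.pow_le_pow_right (by norm_num) h

lemma ple3 (a b : ℕ) (h : a + 3 ≤ b) : 8 * 2 ^ a ≤ 2 ^ b := by
  calc 8 * 2 ^ a = 2 ^ (a + 3) := by ring
    _ ≤ 2 ^ b := Nat.pow_le_pow_right (by norm_num) h

lemma pdvd (a b : ℕ) (h : a ≤ b) : ∃ c, 2 ^ b = 2 ^ a * c := by
  obtain ⟨c, hc⟩ := pow_dvd_pow 2 h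
  exact ⟨c, hc⟩

lemma peven (a : ℕ) (h : 1 ≤ a) : ∃ c, 2 ^ a = 2 * c := by
  obtain ⟨c, hc⟩ := pdvd 1 a h
  exact ⟨c, by rw [hc]; norm_num⟩

lemma pair (x y u v : ℕ) (hyx : y ≤ x) (hvu : v < u) (h : 2 ^ x + 2 ^ y = 2 ^ u + 2 ^ v) :
    x = u ∧ y = v := by
  have hy : 1 ≤ 2 ^ y := Nat.one_le_two_pow
  have hv : 1 ≤ 2 ^ v := Nat.one_le_two_pow
  have h1 := plt v u hvu
  have h2 := ple y x hyx
  have hxu : x ≤ u := by
    by_contra hc
    have := plt u x (by omega)
    omega
  have hux : u ≤ x := by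
    by_contra hc
    have := plt x u (by omega)
    omega
  have hx : x = u := le_antisymm hxu hux
  subst hx
  refine ⟨rfl, ?_⟩
  have : 2 ^ y = 2 ^ v := by omega
  exact Nat.pow_right_injective (le_refl 2) this

lemma splitG (G a b r s : ℕ) (hr : r < G) (hs : s < G) (h : G * a + r = G * b + s) :
    a = b ∧ r = s := by
  have h1 : (G * a + r) % G = r := by rw [Nat.mul_add_mod, Nat.mod_eq_of_lt hr]
  have h2 : (G * b + s) % G = s := by rw [Nat.mul_add_mod, Nat.mod_eq_of_lt hs]
  have h3 : r = s := by rw [← h1, ← h2, h]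
  refine ⟨?_, h3⟩
  have h4 : G * a = G * b := by omega
  have hG : 0 < G := by omega
  exact Nat.eq_of_mul_eq_mul_left hG h4

lemma num3_aux (L ma mb mc fac fbc : ℕ) (hL : 20 ≤ L)
    (hsum : 2 ^ ma + 2 ^ mb + 2 ^ mc + 2 ^ fac + 2 ^ fbc
      = 2 ^ (14 * L) + 2 ^ (13 * L) + 2 ^ (3 * L) + 2 ^ (2 * L) + 1)
    (h1 : fac ≤ ma) (h2 : fac ≤ mc) (h3 : fbc ≤ mb) (h4 : fbc ≤ mc)
    (h5 : ma + mc ≤ 17 * L + 1 + fac) (h6 : mb + mc ≤ 17 * L + 1 + fbc)
    (ha : 13 * L - 2 ≤ ma) (hc : 13 * L - 2 ≤ mc) : False := by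
  have o14 := peven (14 * L) (by omega)
  have o13 := peven (13 * L) (by omega)
  have o3 := peven (3 * L) (by omega)
  have o2 := peven (2 * L) (by omega)
  have oa := peven ma (by omega)
  have oc := peven mc (by omega)
  have oac := peven fac (by omega)
  have hbc0 : fbc = 0 := by
    by_contra hne
    have ob := peven mb (by omega)
    have obc := peven fbc (by omega)
    obtain ⟨c1, e1⟩ := o14
    obtain ⟨c2, e2⟩ := o13
    obtain ⟨c3, e3⟩ := o3
    obtain ⟨c4, e4⟩ := o2
    obtain ⟨c5, e5⟩ := oa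
    obtain ⟨c6, e6⟩ := oc
    obtain ⟨c7, e7⟩ := oac
    obtain ⟨c8, e8⟩ := ob
    obtain ⟨c9, e9⟩ := obc
    omega
  subst hbc0
  have hmb : mb ≤ 4 * L + 3 := by omega
  obtain ⟨c1, d1⟩ := pdvd (9 * L - 5) (14 * L) (by omega)
  obtain ⟨c2, d2⟩ := pdvd (9 * L - 5) (13 * L) (by omega)
  obtain ⟨c3, d3⟩ := pdvd (9 * L - 5) ma (by omega)
  obtain ⟨c4, d4⟩ := pdvd (9 * L - 5) mc (by omega)
  obtain ⟨c5, d5⟩ := pdvd (9 * L - 5) fac (by omega)
  have q1 := ple mb (4 * L + 3) hmb
  have q2 := ple3 (4 * L + 3) (9 * L - 5) (by omega)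
  have q3 := ple3 (3 * L) (9 * L - 5) (by omega)
  have q4 := plt (2 * L) (3 * L) (by omega)
  have q5 := plt 0 (2 * L) (by omega)
  have q6 : 1 ≤ 2 ^ (4 * L + 3) := Nat.one_le_two_pow
  norm_num at q5
  have hs := splitG (2 ^ (9 * L - 5)) (c3 + c4 + c5) (c1 + c2) (2 ^ mb + 1)
    (2 ^ (3 * L) + 2 ^ (2 * L) + 1) (by omega) (by omega) (by
      rw [d1, d2, d3, d4, d5] at hsum
      rw [Nat.mul_add, Nat.mul_add, Nat.mul_add]
      norm_num at hsum
      omega)
  obtain ⟨_, hs2⟩ := hs
  rcases Nat.lt_or_ge (3 * L) mb with h | h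
  · have := plt (3 * L) mb h
    omega
  · have := ple mb (3 * L) h
    omega

lemma num3 (L ma mb mc fac fbc : ℕ) (hL : 20 ≤ L)
    (hsum : 2 ^ ma + 2 ^ mb + 2 ^ mc + 2 ^ fac + 2 ^ fbc
      = 2 ^ (14 * L) + 2 ^ (13 * L) + 2 ^ (3 * L) + 2 ^ (2 * L) + 1)
    (h1 : fac ≤ ma) (h2 : fac ≤ mc) (h3 : fbc ≤ mb) (h4 : fbc ≤ mc)
    (h5 : ma + mc ≤ 17 * L + 1 + fac) (h6 : mb + mc ≤ 17 * L + 1 + fbc) :
    mc = 3 * L ∧ ((fac = 0 ∧ fbc = 2 * L) ∨ (fac = 2 * L ∧ fbc = 0)) ∧
      ((ma = 14 * L ∧ mb = 13 * L) ∨ (ma = 13 * L ∧ mb = 14 * L)) := by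
  have z1 : 1 ≤ 2 ^ ma := Nat.one_le_two_pow
  have z2 : 1 ≤ 2 ^ mb := Nat.one_le_two_pow
  have z3 : 1 ≤ 2 ^ mc := Nat.one_le_two_pow
  have z4 : 1 ≤ 2 ^ fac := Nat.one_le_two_pow
  have z5 : 1 ≤ 2 ^ fbc := Nat.one_le_two_pow
  have p14 := plt (13 * L) (14 * L) (by omega)
  have p13 := plt (3 * L) (13 * L) (by omega)
  have p3 := plt (2 * L) (3 * L) (by omega)
  have p2 := plt 0 (2 * L) (by omega)
  norm_num at p2
  have hma : ma ≤ 14 * L := by
    by_contra hc
    have := plt (14 * L) ma (by omega)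
    omega
  have hmb : mb ≤ 14 * L := by
    by_contra hc
    have := plt (14 * L) mb (by omega)
    omega
  have hmc : mc ≤ 14 * L := by
    by_contra hc
    have := plt (14 * L) mc (by omega)
    omega
  have qa := ple ma (14 * L) hma
  have qb := ple mb (14 * L) hmb
  have qc := ple mc (14 * L) hmc
  have qfa := ple fac ma h1
  have qfc := ple fac mc h2
  have qfb := ple fbc mb h3
  have qfc' := ple fbc mc h4
  have hlarge_a : 13 * L - 2 ≤ ma := by
    by_contra hc
    have ra := ple3 ma (13 * L) (by omega)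
    by_cases hb : 13 * L - 2 ≤ mb
    · by_cases hc' : 13 * L - 2 ≤ mc
      · exact num3_aux L mb ma mc fbc fac hL (by omega) h3 h4 h1 h2 h6 h5 hb hc'
      · have rc := ple3 mc (13 * L) (by omega)
        omega
    · have rb := ple3 mb (13 * L) (by omega)
      omega
  have hlarge_b : 13 * L - 2 ≤ mb := by
    by_contra hc
    have rb := ple3 mb (13 * L) (by omega)
    by_cases hc' : 13 * L - 2 ≤ mc
    · exact num3_aux L ma mb mc fac fbc hL hsum h1 h2 h3 h4 h5 h6 hlarge_a hc'
    · have rc := ple3 mc (13 * L) (by omega)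
      omega
  have hsmall_c : mc ≤ 13 * L - 3 := by
    by_contra hc
    exact num3_aux L ma mb mc fac fbc hL hsum h1 h2 h3 h4 h5 h6 hlarge_a (by omega)
  have h0 : fac = 0 ∨ fbc = 0 := by
    by_contra hne
    push Not at hne
    obtain ⟨c1, e1⟩ := peven (14 * L) (by omega)
    obtain ⟨c2, e2⟩ := peven (13 * L) (by omega)
    obtain ⟨c3, e3⟩ := peven (3 * L) (by omega)
    obtain ⟨c4, e4⟩ := peven (2 * L) (by omega)
    obtain ⟨c5, e5⟩ := peven ma (by omega)
    obtain ⟨c6, e6⟩ := peven mb (by omega)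
    obtain ⟨c7, e7⟩ := peven mc (by omega)
    obtain ⟨c8, e8⟩ := peven fac (by omega)
    obtain ⟨c9, e9⟩ := peven fbc (by omega)
    omega
  have hmc4 : mc ≤ 4 * L + 3 := by omega
  obtain ⟨c1, d1⟩ := pdvd (9 * L - 5) (14 * L) (by omega)
  obtain ⟨c2, d2⟩ := pdvd (9 * L - 5) (13 * L) (by omega)
  obtain ⟨c3, d3⟩ := pdvd (9 * L - 5) ma (by omega)
  obtain ⟨c4, d4⟩ := pdvd (9 * L - 5) mb (by omega)
  have q1 := ple mc (4 * L + 3) hmc4
  have q2 := ple3 (4 * L + 3) (9 * L - 5) (by omega)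
  have q3 := ple3 (3 * L) (9 * L - 5) (by omega)
  have q6 : 1 ≤ 2 ^ (4 * L + 3) := Nat.one_le_two_pow
  have hs := splitG (2 ^ (9 * L - 5)) (c3 + c4) (c1 + c2) (2 ^ mc + 2 ^ fac + 2 ^ fbc)
    (2 ^ (3 * L) + 2 ^ (2 * L) + 1) (by omega) (by omega) (by
      rw [Nat.mul_add, Nat.mul_add]
      omega)
  obtain ⟨hs1, hs2⟩ := hs
  have hs3 : 2 ^ ma + 2 ^ mb = 2 ^ (14 * L) + 2 ^ (13 * L) := by
    rw [d1, d2, d3, d4, ← Nat.mul_add, ← Nat.mul_add, hs1]
  have hab : ((ma = 14 * L ∧ mb = 13 * L) ∨ (ma = 13 * L ∧ mb = 14 * L)) := by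
    rcases Nat.le_total mb ma with h | h
    · exact Or.inl (pair ma mb (14 * L) (13 * L) h (by omega) hs3)
    · have := pair mb ma (14 * L) (13 * L) h (by omega) (by omega)
      exact Or.inr ⟨this.2, this.1⟩
  rcases h0 with h0 | h0
  · subst h0
    have := pair mc fbc (3 * L) (2 * L) h4 (by omega) (by
      norm_num at hs2
      omega)
    exact ⟨this.1, Or.inl ⟨rfl, this.2⟩, hab⟩
  · subst h0
    have := pair mc fac (3 * L) (2 * L) h2 (by omega) (by
      norm_num at hs2
      omega)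
    exact ⟨this.1, Or.inr ⟨this.2, rfl⟩, hab⟩

lemma num4 (L ma mb mc fab fac fbc fabc : ℕ) (hL : 20 ≤ L)
    (hsum : 2 ^ ma + 2 ^ mb + 2 ^ mc + 2 ^ fab + 2 ^ fac + 2 ^ fbc + 2 ^ fabc
      = 2 ^ (14 * L) + 2 ^ (13 * L) + 2 ^ (3 * L) + 2 ^ (2 * L) + 1)
    (hba : mb ≤ ma) (hcb : mc ≤ mb)
    (h1 : fab ≤ mb) (h2 : fac ≤ mc) (h3 : fbc ≤ mc) (g1 : fabc ≤ fab) (g2 : fabc ≤ fac)
    (g3 : fabc ≤ fbc)
    (h4 : ma + mb ≤ 17 * L + 1 + fab) (h5 : ma + mc ≤ 17 * L + 1 + fac)
    (h6 : mb + mc ≤ 17 * L + 1 + fbc) (h7 : fac + fbc ≤ mc + fabc) : False := by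
  have z1 : 1 ≤ 2 ^ ma := Nat.one_le_two_pow
  have z2 : 1 ≤ 2 ^ mb := Nat.one_le_two_pow
  have z3 : 1 ≤ 2 ^ mc := Nat.one_le_two_pow
  have z4 : 1 ≤ 2 ^ fac := Nat.one_le_two_pow
  have z5 : 1 ≤ 2 ^ fbc := Nat.one_le_two_pow
  have z6 : 1 ≤ 2 ^ fab := Nat.one_le_two_pow
  have z7 : 1 ≤ 2 ^ fabc := Nat.one_le_two_pow
  have p14 := plt (13 * L) (14 * L) (by omega)
  have p13 := plt (3 * L) (13 * L) (by omega)
  have p3 := plt (2 * L) (3 * L) (by omega)
  have p2 := plt 0 (2 * L) (by omega)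
  norm_num at p2
  have h0 : fabc = 0 := by
    by_contra hne
    obtain ⟨c1, e1⟩ := peven (14 * L) (by omega)
    obtain ⟨c2, e2⟩ := peven (13 * L) (by omega)
    obtain ⟨c3, e3⟩ := peven (3 * L) (by omega)
    obtain ⟨c4, e4⟩ := peven (2 * L) (by omega)
    obtain ⟨c5, e5⟩ := peven ma (by omega)
    obtain ⟨c6, e6⟩ := peven mb (by omega)
    obtain ⟨c7, e7⟩ := peven mc (by omega)
    obtain ⟨c8, e8⟩ := peven fac (by omega)
    obtain ⟨c9, e9⟩ := peven fbc (by omega)
    obtain ⟨c10, e10⟩ := peven fab (by omega)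
    obtain ⟨c11, e11⟩ := peven fabc (by omega)
    omega
  subst h0
  have hma : ma ≤ 14 * L := by
    by_contra hc
    have := plt (14 * L) ma (by omega)
    omega
  have qa := ple ma (14 * L) hma
  have qfab := ple fab mb h1
  have qfac := ple fac mc h2
  have qfbc := ple fbc mc h3
  have qcb := ple mc mb hcb
  have hmb : 13 * L - 2 ≤ mb := by
    by_contra hc
    have rb := ple3 mb (13 * L) (by omega)
    have : 1 ≤ 2 ^ mb := Nat.one_le_two_pow
    norm_num at hsum
    omega
  have hmc : mc ≤ 8 * L + 6 := by omega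
  obtain ⟨c1, d1⟩ := pdvd (9 * L - 5) (14 * L) (by omega)
  obtain ⟨c2, d2⟩ := pdvd (9 * L - 5) (13 * L) (by omega)
  obtain ⟨c3, d3⟩ := pdvd (9 * L - 5) ma (by omega)
  obtain ⟨c4, d4⟩ := pdvd (9 * L - 5) mb (by omega)
  obtain ⟨c5, d5⟩ := pdvd (9 * L - 5) fab (by omega)
  have q1 := ple mc (8 * L + 6) hmc
  have q2 := ple3 (8 * L + 6) (9 * L - 5) (by omega)
  have q3 := ple3 (3 * L) (9 * L - 5) (by omega)
  have q6 : 1 ≤ 2 ^ (8 * L + 6) := Nat.one_le_two_pow
  have hs := splitG (2 ^ (9 * L - 5)) (c3 + c4 + c5) (c1 + c2) (2 ^ mc + 2 ^ fac + 2 ^ fbc + 1)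
    (2 ^ (3 * L) + 2 ^ (2 * L) + 1) (by omega) (by omega) (by
      rw [Nat.mul_add, Nat.mul_add, Nat.mul_add]
      norm_num at hsum
      omega)
  obtain ⟨_, hs2⟩ := hs
  have hmc3 : mc ≤ 3 * L := by
    by_contra hc
    have := plt (3 * L) mc (by omega)
    omega
  have p31 : 2 * 2 ^ (3 * L - 1) = 2 ^ (3 * L) := by
    have : 3 * L = (3 * L - 1) + 1 := by omega
    conv_rhs => rw [this, pow_succ]
    ring
  have p21 : 2 * 2 ^ (2 * L - 1) = 2 ^ (2 * L) := by
    have : 2 * L = (2 * L - 1) + 1 := by omega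
    conv_rhs => rw [this, pow_succ]
    ring
  have pp : 1 ≤ 2 ^ fac := Nat.one_le_two_pow
  have pp' : 1 ≤ 2 ^ fbc := Nat.one_le_two_pow
  rcases Nat.eq_or_lt_of_le hmc3 with h | h
  · -- mc = 3L
    subst h
    have e : 2 ^ fac + 2 ^ fbc = 2 ^ (2 * L) := by omega
    have b1 : fac ≤ 2 * L - 1 := by
      by_contra hc
      have := ple (2 * L) fac (by omega)
      omega
    have b2 : fbc ≤ 2 * L - 1 := by
      by_contra hc
      have := ple (2 * L) fbc (by omega)
      omega
    have b3 : 2 * L - 1 ≤ fac := by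
      by_contra hc
      have := plt fac (2 * L - 1) (by omega)
      have := ple fbc (2 * L - 1) b2
      omega
    have b4 : 2 * L - 1 ≤ fbc := by
      by_contra hc
      have := plt fbc (2 * L - 1) (by omega)
      have := ple fac (2 * L - 1) b1
      omega
    omega
  · have q7 := ple mc (3 * L - 1) (by omega)
    have e : 2 ^ fac + 2 ^ fbc ≥ 2 ^ (3 * L - 1) + 2 ^ (2 * L) := by omega
    rcases Nat.le_total fac fbc with hf | hf
    · have b1 : 3 * L - 1 ≤ fbc := by
        by_contra hc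
        have := plt fbc (3 * L - 1) (by omega)
        have := ple fac fbc hf
        omega
      have b2 : fbc = 3 * L - 1 := by omega
      have b3 : fac = 0 := by omega
      subst b3
      rw [b2] at e
      norm_num at e
      omega
    · have b1 : 3 * L - 1 ≤ fac := by
        by_contra hc
        have := plt fac (3 * L - 1) (by omega)
        have := ple fbc fac hf
        omega
      have b2 : fac = 3 * L - 1 := by omega
      have b3 : fbc = 0 := by omega
      subst b3
      rw [b2] at e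
      norm_num at e
      omega

end H10ac

namespace H10ac

open Finset

lemma obs1 {P : Type} [PartialOrder P] {a b y c x : P}
    (hab : a < b ∨ b < a) (hby : b < y ∨ y < b) (hyc : y < c ∨ c < y) (hcx : c < x ∨ x < c)
    (hxa : x < a ∨ a < x)
    (nay : ¬ (a < y ∨ y < a)) (nac : ¬ (a < c ∨ c < a)) (nbc : ¬ (b < c ∨ c < b))
    (nbx : ¬ (b < x ∨ x < b)) (nxy : ¬ (x < y ∨ y < x)) : False := by
  rcases hab with h1 | h1 <;> rcases hby with h2 | h2 <;> rcases hyc with h3 | h3 <;>
    rcases hcx with h4 | h4 <;> rcases hxa with h5 | h5 <;>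
  first
    | exact nay (Or.inl (h1.trans h2))
    | exact nay (Or.inr (h2.trans h1))
    | exact nbc (Or.inl (h2.trans h3))
    | exact nbc (Or.inr (h3.trans h2))
    | exact nxy (Or.inr (h3.trans h4))
    | exact nxy (Or.inl (h4.trans h3))
    | exact nac (Or.inr (h4.trans h5))
    | exact nac (Or.inl (h5.trans h4))
    | exact nbx (Or.inr (h5.trans h1))
    | exact nbx (Or.inl (h1.trans h5))

lemma obs2 {P : Type} [PartialOrder P] {a b z x y c : P}
    (hab : a < b ∨ b < a) (haz : a < z ∨ z < a) (hbz : b < z ∨ z < b)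
    (hxa : x < a ∨ a < x) (hyb : y < b ∨ b < y) (hcz : c < z ∨ z < c)
    (nxb : ¬ (x < b ∨ b < x)) (nxz : ¬ (x < z ∨ z < x))
    (nya : ¬ (y < a ∨ a < y)) (nyz : ¬ (y < z ∨ z < y))
    (nca : ¬ (c < a ∨ a < c)) (ncb : ¬ (c < b ∨ b < c)) : False := by
  rcases hab with h1 | h1 <;> rcases haz with h2 | h2 <;> rcases hbz with h3 | h3 <;>
    rcases hxa with h4 | h4 <;> rcases hyb with h5 | h5 <;> rcases hcz with h6 | h6 <;>
  first
    | exact nxb (Or.inl (h4.trans h1))
    | exact nxb (Or.inr (h1.trans h4))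
    | exact nxz (Or.inl (h4.trans h2))
    | exact nxz (Or.inr (h2.trans h4))
    | exact nya (Or.inl (h5.trans h1))
    | exact nya (Or.inr (h1.trans h5))
    | exact nyz (Or.inl (h5.trans h3))
    | exact nyz (Or.inr (h3.trans h5))
    | exact nca (Or.inl (h6.trans h2))
    | exact nca (Or.inr (h2.trans h6))
    | exact ncb (Or.inl (h6.trans h3))
    | exact ncb (Or.inr (h3.trans h6))

lemma num4' (L ma mb mc fab fac fbc fabc : ℕ) (hL : 20 ≤ L)
    (hsum : 2 ^ ma + 2 ^ mb + 2 ^ mc + 2 ^ fab + 2 ^ fac + 2 ^ fbc + 2 ^ fabc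
      = 2 ^ (14 * L) + 2 ^ (13 * L) + 2 ^ (3 * L) + 2 ^ (2 * L) + 1)
    (i1 : fab ≤ ma) (i2 : fab ≤ mb) (i3 : fac ≤ ma) (i4 : fac ≤ mc) (i5 : fbc ≤ mb) (i6 : fbc ≤ mc)
    (g1 : fabc ≤ fab) (g2 : fabc ≤ fac) (g3 : fabc ≤ fbc)
    (h4 : ma + mb ≤ 17 * L + 1 + fab) (h5 : ma + mc ≤ 17 * L + 1 + fac)
    (h6 : mb + mc ≤ 17 * L + 1 + fbc) (j1 : fab + fac ≤ ma + fabc) (j2 : fab + fbc ≤ mb + fabc)
    (j3 : fac + fbc ≤ mc + fabc) : False := by
  rcases Nat.le_total ma mb with o1 | o1 <;> rcases Nat.le_total mb mc with o2 | o2 <;>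
    rcases Nat.le_total ma mc with o3 | o3
  · exact num4 L mc mb ma fbc fac fab fabc hL (by omega) o2 o1 i5 i3 i1 g3 g2 g1 (by omega)
      (by omega) (by omega) (by omega)
  · exact num4 L mc mb ma fbc fac fab fabc hL (by omega) o2 o1 i5 i3 i1 g3 g2 g1 (by omega)
      (by omega) (by omega) (by omega)
  · -- ma ≤ mb, mc ≤ mb, ma ≤ mc : b ≥ c ≥ a
    exact num4 L mb mc ma fbc fab fac fabc hL (by omega) o2 o3 i6 i1 i3 g3 g1 g2 (by omega)
      (by omega) (by omega) (by omega)
  · -- b ≥ a ≥ c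
    exact num4 L mb ma mc fab fbc fac fabc hL (by omega) o1 o3 i1 i6 i4 g1 g3 g2 (by omega)
      (by omega) (by omega) (by omega)
  · -- mb ≤ ma, mb ≤ mc, ma ≤ mc : c ≥ a ≥ b
    exact num4 L mc ma mb fac fbc fab fabc hL (by omega) o3 o1 i3 i5 i2 g2 g3 g1 (by omega)
      (by omega) (by omega) (by omega)
  · -- a ≥ c ≥ b
    exact num4 L ma mc mb fac fab fbc fabc hL (by omega) o3 o2 i4 i2 i5 g2 g1 g3 (by omega)
      (by omega) (by omega) (by omega)
  · exact num4 L ma mb mc fab fac fbc fabc hL (by omega) o1 o2 i2 i4 i6 g1 g2 g3 (by omega)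
      (by omega) (by omega) (by omega)
  · exact num4 L ma mb mc fab fac fbc fabc hL (by omega) o1 o2 i2 i4 i6 g1 g2 g3 (by omega)
      (by omega) (by omega) (by omega)

variable {V : Type} [DecidableEq V]

lemma away_insert_adj (H : SimpleGraph V) (v w : V) (U : Finset V) (h : H.Adj v w) :
    away H {v} (insert w U) = away H {v} U := by
  ext x
  rw [mem_away, mem_away, Finset.mem_insert]
  constructor
  · rintro ⟨rfl | h1, h2⟩
    · exact absurd h (h2 v (Finset.mem_singleton_self v))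
    · exact ⟨h1, h2⟩
  · rintro ⟨h1, h2⟩
    exact ⟨Or.inr h1, h2⟩

lemma away_insert_nadj (H : SimpleGraph V) (v w : V) (U : Finset V) (h : ¬ H.Adj v w) :
    away H {v} (insert w U) = insert w (away H {v} U) := by
  ext x
  rw [mem_away, Finset.mem_insert, Finset.mem_insert, mem_away]
  constructor
  · rintro ⟨rfl | h1, h2⟩
    · exact Or.inl rfl
    · exact Or.inr ⟨h1, h2⟩
  · rintro (rfl | ⟨h1, h2⟩)
    · refine ⟨Or.inl rfl, ?_⟩
      intro b hb
      rw [Finset.mem_singleton] at hb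
      rw [hb]; exact h
    · exact ⟨Or.inr h1, h2⟩

lemma mem_away1 (H : SimpleGraph V) (a v : V) (R : Finset V) :
    v ∈ away H {a} R ↔ v ∈ R ∧ ¬ H.Adj a v := by
  rw [mem_away]
  simp

lemma away_away (H : SimpleGraph V) (a c : V) (R : Finset V) :
    away H {c} (away H {a} R) = away H {a} R ∩ away H {c} R := by
  ext v
  rw [mem_away1, Finset.mem_inter, mem_away1, mem_away1]
  tauto

lemma ind_away (H : SimpleGraph V) (I O : Finset V) (hO : ∀ x ∈ O, ∀ y ∈ O, ¬ H.Adj x y) :
    ind H (away H I O) = 2 ^ (away H I O).card := by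
  apply ind_of_indep
  intro x hx y hy
  exact hO x (away_subset H I O hx) y (away_subset H I O hy)

/-- expansion, one edge -/
lemma expand1 (H : SimpleGraph V) (a b c : V) (O : Finset V) (hab : a ≠ b) (hac : a ≠ c) (hbc : b ≠ c)
    (haO : a ∉ O) (hbO : b ∉ O) (hcO : c ∉ O) (hO : ∀ x ∈ O, ∀ y ∈ O, ¬ H.Adj x y)
    (eab : H.Adj a b) (eac : ¬ H.Adj a c) (ebc : ¬ H.Adj b c) :
    ind H (insert a (insert b (insert c O))) = 2 ^ O.card + 2 ^ (away H {a} O).card
      + 2 ^ (away H {b} O).card + 2 ^ (away H {c} O).card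
      + 2 ^ (away H {a} O ∩ away H {c} O).card + 2 ^ (away H {b} O ∩ away H {c} O).card := by
  rw [ind_insert H a _ (by simp [hab, hac, haO]), ind_insert H b _ (by simp [hbc, hbO]),
    ind_insert H c _ hcO, away_insert_nadj H b c O ebc,
    ind_insert H c _ (fun h => hcO (away_subset H _ _ h)),
    away_insert_adj H a b _ eab, away_insert_nadj H a c O eac,
    ind_insert H c _ (fun h => hcO (away_subset H _ _ h)), ind_of_indep H O hO,
    ind_away H _ O hO, ind_away H _ O hO, ind_away H _ O hO, away_away, away_away]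
  have h1 : ind H (away H {b} O ∩ away H {c} O) = 2 ^ (away H {b} O ∩ away H {c} O).card := by
    apply ind_of_indep
    intro x hx y hy
    rw [Finset.mem_inter] at hx hy
    exact hO x (away_subset H _ O hx.1) y (away_subset H _ O hy.1)
  have h2 : ind H (away H {a} O ∩ away H {c} O) = 2 ^ (away H {a} O ∩ away H {c} O).card := by
    apply ind_of_indep
    intro x hx y hy
    rw [Finset.mem_inter] at hx hy
    exact hO x (away_subset H _ O hx.1) y (away_subset H _ O hy.1)
  rw [h1, h2]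
  ring

/-- expansion, no edge -/
lemma expand0 (H : SimpleGraph V) (a b c : V) (O : Finset V) (hab : a ≠ b) (hac : a ≠ c) (hbc : b ≠ c)
    (haO : a ∉ O) (hbO : b ∉ O) (hcO : c ∉ O) (hO : ∀ x ∈ O, ∀ y ∈ O, ¬ H.Adj x y)
    (eab : ¬ H.Adj a b) (eac : ¬ H.Adj a c) (ebc : ¬ H.Adj b c) :
    ind H (insert a (insert b (insert c O))) = 2 ^ O.card + 2 ^ (away H {a} O).card
      + 2 ^ (away H {b} O).card + 2 ^ (away H {c} O).card
      + 2 ^ (away H {a} O ∩ away H {b} O).card
      + 2 ^ (away H {a} O ∩ away H {c} O).card + 2 ^ (away H {b} O ∩ away H {c} O).card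
      + 2 ^ ((away H {a} O ∩ away H {b} O) ∩ away H {c} O).card := by
  have hcaw : ∀ I U : Finset V, U ⊆ O → c ∉ away H I U := fun I U hU h => hcO (hU (away_subset H I U h))
  have hind : ∀ U : Finset V, U ⊆ O → ind H U = 2 ^ U.card := fun U hU =>
    ind_of_indep H U (fun x hx y hy => hO x (hU hx) y (hU hy))
  have hsub : ∀ I, away H I O ⊆ O := fun I => away_subset H I O
  rw [ind_insert H a _ (by simp [hab, hac, haO]), ind_insert H b _ (by simp [hbc, hbO]),
    ind_insert H c _ hcO, away_insert_nadj H b c O ebc,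
    ind_insert H c _ (hcaw _ _ (Finset.Subset.refl O)),
    away_insert_nadj H a b _ eab, away_insert_nadj H a c O eac,
    ind_insert H b _ (by
      rw [Finset.mem_insert]
      rintro (h | h)
      · exact hbc h
      · exact hbO (hsub _ h)),
    ind_insert H c _ (hcaw _ _ (Finset.Subset.refl O)),
    away_insert_nadj H b c _ ebc,
    ind_insert H c _ (hcaw _ _ (hsub _))]
  rw [hind O (Finset.Subset.refl O), hind _ (hsub {c}), hind _ (hsub {b}), hind _ (hsub {a}),
    hind _ ((away_subset H {c} _).trans (hsub {b})), hind _ ((away_subset H {c} _).trans (hsub {a})),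
    hind _ ((away_subset H {b} _).trans (hsub {a})),
    hind _ ((away_subset H {c} _).trans ((away_subset H {b} _).trans (hsub {a})))]
  have e1 : away H {c} (away H {b} (away H {a} O)) = (away H {a} O ∩ away H {b} O) ∩ away H {c} O := by
    ext v
    simp only [mem_away1, Finset.mem_inter]
    tauto
  rw [e1, away_away, away_away, away_away]
  ring

end H10ac

namespace H10ac

open Finset

variable {V : Type} [Fintype V] [DecidableEq V]

lemma two_edges (H : SimpleGraph V) (p q r : V) (hpq : p ≠ q) (hpr : p ≠ r) (hqr : q ≠ r)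
    (e1 : H.Adj p q) (e2 : H.Adj p r) : (indS H {p, q, r}).card ≤ 5 := by
  have hsub : indS H {p, q, r} ⊆ ((({p, q, r} : Finset V).powerset.erase {p, q}).erase {p, r}).erase {p, q, r} := by
    intro S hS
    rw [mem_indS] at hS
    rw [Finset.mem_erase, Finset.mem_erase, Finset.mem_erase, Finset.mem_powerset]
    refine ⟨?_, ?_, ?_, hS.1⟩
    · rintro rfl
      exact hS.2 p (by simp) q (by simp) e1
    · rintro rfl
      exact hS.2 p (by simp) r (by simp) e2
    · rintro rfl
      exact hS.2 p (by simp) q (by simp) e1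
  have hc := Finset.card_le_card hsub
  have h3 : ({p, q, r} : Finset V).card = 3 := by
    rw [Finset.card_eq_three]
    exact ⟨p, q, r, hpq, hpr, hqr, rfl⟩
  have n1 : ({p, r} : Finset V) ≠ {p, q} := by
    intro h
    have : q ∈ ({p, r} : Finset V) := by rw [h]; simp
    simp [hpq.symm, hqr] at this
  have n2 : ({p, q, r} : Finset V) ≠ {p, q} := by
    intro h
    have : r ∈ ({p, q} : Finset V) := by rw [← h]; simp
    simp [hpr.symm, hqr.symm] at this
  have n3 : ({p, q, r} : Finset V) ≠ {p, r} := by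
    intro h
    have : q ∈ ({p, r} : Finset V) := by rw [← h]; simp
    simp [hpq.symm, hqr] at this
  have m1 : ({p, q} : Finset V) ∈ ({p, q, r} : Finset V).powerset := by
    rw [Finset.mem_powerset]
    intro x hx
    simp only [Finset.mem_insert, Finset.mem_singleton] at hx ⊢
    tauto
  have m2 : ({p, r} : Finset V) ∈ ({p, q, r} : Finset V).powerset.erase {p, q} := by
    rw [Finset.mem_erase, Finset.mem_powerset]
    refine ⟨n1, ?_⟩
    intro x hx
    simp only [Finset.mem_insert, Finset.mem_singleton] at hx ⊢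
    tauto
  have m3 : ({p, q, r} : Finset V) ∈ (({p, q, r} : Finset V).powerset.erase {p, q}).erase {p, r} := by
    rw [Finset.mem_erase, Finset.mem_erase, Finset.mem_powerset]
    exact ⟨n3, n2, Finset.Subset.refl _⟩
  rw [Finset.card_erase_of_mem m3, Finset.card_erase_of_mem m2, Finset.card_erase_of_mem m1,
    Finset.card_powerset, h3] at hc
  omega

open Classical in
theorem graph_structure (L : ℕ) (hL : 600 ≤ L) (H : SimpleGraph V)
    (hcard : Fintype.card V = 17 * L + 4)
    (hk : ind H Finset.univ = 2 ^ (17 * L + 1) + 2 ^ (14 * L) + 2 ^ (13 * L) + 2 ^ (3 * L)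
      + 2 ^ (2 * L) + 1) :
    ∃ (a b c : V) (O : Finset V), a ≠ b ∧ a ≠ c ∧ b ≠ c ∧ a ∉ O ∧ b ∉ O ∧ c ∉ O ∧
      (∀ x ∈ O, ∀ y ∈ O, ¬ H.Adj x y) ∧ Finset.univ = insert a (insert b (insert c O)) ∧
      ¬ H.Adj a c ∧ ¬ H.Adj b c := by
  set B : Finset V := Finset.univ.filter
    (fun v => 7 ≤ (Finset.univ.filter (fun w => H.Adj v w)).card) with hB
  have hpow : 2 ^ (17 * L + 1) = 32 * 2 ^ (17 * L - 4) := by
    have : 17 * L + 1 = 5 + (17 * L - 4) := by omega
    rw [this, pow_add]; norm_num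
  have hkgt : 2 ^ (17 * L + 1) < ind H Finset.univ := by
    rw [hk]
    have := Nat.one_le_two_pow (n := 14 * L)
    have := Nat.one_le_two_pow (n := 13 * L)
    have := Nat.one_le_two_pow (n := 3 * L)
    have := Nat.one_le_two_pow (n := 2 * L)
    omega
  -- neighbours outside a small set of big vertices
  have hnb : ∀ B' : Finset V, B' ⊆ B → ∀ v ∈ B',
      8 ≤ ((Finset.univ \ B').filter (fun w => H.Adj v w)).card + B'.card := by
    intro B' hB' v hv
    have hv' := hB' hv
    rw [hB, Finset.mem_filter] at hv'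
    have hsub : Finset.univ.filter (fun w => H.Adj v w) ⊆
        ((Finset.univ \ B').filter (fun w => H.Adj v w)) ∪ (B'.erase v) := by
      intro w hw
      rw [Finset.mem_filter] at hw
      rw [Finset.mem_union, Finset.mem_filter, Finset.mem_sdiff, Finset.mem_erase]
      by_cases hwB : w ∈ B'
      · right
        exact ⟨fun h => hw.2.ne h.symm, hwB⟩
      · left
        exact ⟨⟨Finset.mem_univ _, hwB⟩, hw.2⟩
    have h1 := Finset.card_le_card hsub
    have h2 := Finset.card_union_le ((Finset.univ \ B').filter (fun w => H.Adj v w)) (B'.erase v)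
    have h3 := Finset.card_erase_of_mem hv
    have h4 : 0 < B'.card := Finset.card_pos.2 ⟨v, hv⟩
    omega
  have hsplit : ∀ B' : Finset V, (Finset.univ : Finset V) = B' ∪ (Finset.univ \ B') := by
    intro B'
    rw [Finset.union_sdiff_of_subset (Finset.subset_univ _)]
  have hcompl : ∀ B' : Finset V, (Finset.univ \ B').card + B'.card = 17 * L + 4 := by
    intro B'
    rw [Finset.card_sdiff_add_card_eq_card (Finset.subset_univ _), Finset.card_univ, hcard]
  -- at most three big vertices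
  have hB3 : B.card ≤ 3 := by
    by_contra hc
    obtain ⟨B', hB', hB'c⟩ := Finset.exists_subset_card_eq (show 4 ≤ B.card by omega)
    have h1 := cover_bound H B' (Finset.univ \ B') Finset.disjoint_sdiff 4 (by
      intro v hv
      have := hnb B' hB' v hv
      omega)
    rw [← hsplit B'] at h1
    have h2 := ind_le H (Finset.univ \ B')
    have h3 := hcompl B'
    have h4 : (Finset.univ \ B').card = 17 * L := by omega
    rw [h4] at h1 h2
    rw [hB'c] at h1
    have h5 : 2 ^ (17 * L) = 16 * 2 ^ (17 * L - 4) := by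
      have : 17 * L = 4 + (17 * L - 4) := by omega
      conv_lhs => rw [this, pow_add]
      norm_num
    have h6 : 1 ≤ 2 ^ (17 * L - 4) := Nat.one_le_two_pow
    norm_num at h1
    omega
  set R := Finset.univ \ B with hR
  have hdegR : ∀ v ∈ R, (R.filter (fun w => H.Adj v w)).card ≤ 6 := by
    intro v hv
    have hvB : v ∉ B := (Finset.mem_sdiff.1 hv).2
    rw [hB, Finset.mem_filter] at hvB
    have h1 : ¬ 7 ≤ (Finset.univ.filter (fun w => H.Adj v w)).card := fun h =>
      hvB ⟨Finset.mem_univ _, h⟩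
    have h2 : (R.filter (fun w => H.Adj v w)).card ≤ (Finset.univ.filter (fun w => H.Adj v w)).card :=
      Finset.card_le_card (Finset.filter_subset_filter _ (Finset.subset_univ _))
    omega
  set Rn := R.filter (fun v => ∃ w ∈ R, H.Adj v w) with hRn
  set O := R.filter (fun v => ¬ ∃ w ∈ R, H.Adj v w) with hO
  have hRsplit : R = Rn ∪ O := by
    rw [hRn, hO, Finset.filter_union_filter_not_eq]
  have hRdisj : Disjoint Rn O := by
    rw [hRn, hO]
    exact Finset.disjoint_filter_filter_not _ _ _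
  have hindR : ind H Finset.univ ≤ 2 ^ B.card * ind H R := by
    rw [hsplit B, ind_union H B _ Finset.disjoint_sdiff]
    calc ∑ I ∈ indS H B, ind H (away H I (Finset.univ \ B)) ≤ ∑ _I ∈ indS H B, ind H R :=
          Finset.sum_le_sum (fun I _ => ind_mono H (away_subset H I _))
      _ = (indS H B).card * ind H R := by rw [Finset.sum_const, smul_eq_mul]
      _ ≤ 2 ^ B.card * ind H R := Nat.mul_le_mul_right _ (indS_card_le H B)
  have hRn84 : Rn.card ≤ 84 := by
    by_contra hc
    have h1 := greedy H 7 R hdegR (by rw [← hRn]; omega)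
    have h2 := hcompl B
    have h3 : 4 ^ 8 * ind H Finset.univ ≤ 3 ^ 8 * 2 ^ (17 * L + 4) := by
      calc 4 ^ 8 * ind H Finset.univ ≤ 4 ^ 8 * (2 ^ B.card * ind H R) := Nat.mul_le_mul_left _ hindR
        _ = 2 ^ B.card * (4 ^ (7 + 1) * ind H R) := by ring
        _ ≤ 2 ^ B.card * (3 ^ (7 + 1) * 2 ^ R.card) := Nat.mul_le_mul_left _ h1
        _ = 3 ^ 8 * 2 ^ (R.card + B.card) := by rw [pow_add]; ring
        _ = 3 ^ 8 * 2 ^ (17 * L + 4) := by rw [h2]
    have h4 : 2 ^ (17 * L + 4) = 8 * 2 ^ (17 * L + 1) := by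
      have : 17 * L + 4 = 3 + (17 * L + 1) := by omega
      rw [this, pow_add]; norm_num
    rw [h4] at h3
    norm_num at h3
    omega
  -- six independent subsets of B at least
  have hOind : ∀ x ∈ O, ∀ y ∈ O, ¬ H.Adj x y := by
    intro x hx y hy hxy
    rw [hO, Finset.mem_filter] at hx hy
    exact hx.2 ⟨y, hy.1, hxy⟩
  have hRnO : ∀ x ∈ Rn, ∀ y ∈ O, ¬ H.Adj x y := by
    intro x hx y hy hxy
    rw [hO, Finset.mem_filter] at hy
    rw [hRn, Finset.mem_filter] at hx
    exact hy.2 ⟨x, hx.1, hxy.symm⟩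
  have hsix : 6 ≤ (indS H B).card := by
    by_contra hc
    have hterm : ∀ I, ind H (away H I R) = ind H (away H I Rn) * 2 ^ (away H I O).card := by
      intro I
      have h1 : away H I R = away H I Rn ∪ away H I O := by
        rw [hRsplit]
        ext v
        simp only [mem_away, Finset.mem_union]
        tauto
      rw [h1]
      apply ind_prod
      · exact Finset.disjoint_of_subset_left (away_subset H I Rn)
          (Finset.disjoint_of_subset_right (away_subset H I O) hRdisj)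
      · intro x hx y hy
        exact hOind x (away_subset H I O hx) y (away_subset H I O hy)
      · intro x hx y hy
        exact hRnO x (away_subset H I Rn hx) y (away_subset H I O hy)
    have hsum : ∑ I ∈ indS H B, ind H (away H I R) = 2 ^ (17 * L + 1) + 2 ^ (14 * L) + 2 ^ (13 * L)
        + 2 ^ (3 * L) + 2 ^ (2 * L) + 1 := by
      rw [← hk]
      conv_rhs => rw [hsplit B]
      rw [ind_union H B _ Finset.disjoint_sdiff]
    refine no_five (indS H B) (fun I => ind H (away H I R)) (fun I => (away H I O).card) 85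
      (17 * L + 1) (14 * L) (13 * L) (3 * L) (2 * L) (by omega) ?_ ?_ (by omega) (by omega)
      (by omega) (by omega) (by omega) hsum
    · intro I _
      show 2 ^ (away H I O).card ∣ ind H (away H I R)
      rw [hterm I]
      exact Dvd.intro_left _ rfl
    · intro I _
      show ind H (away H I R) < 2 ^ ((away H I O).card + 85)
      rw [hterm I, pow_add, mul_comm]
      apply Nat.mul_lt_mul_of_pos_left _ (by positivity)
      refine lt_of_le_of_lt (ind_le H _) ?_
      apply Nat.pow_lt_pow_right (by norm_num)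
      have := Finset.card_le_card (away_subset H I Rn)
      omega
  have hB3' : B.card = 3 := by
    have h1 := indS_card_le H B
    have : ¬ B.card ≤ 2 := by
      intro h2
      have h3 : (indS H B).card ≤ 2 ^ 2 := h1.trans (Nat.pow_le_pow_right (by norm_num) h2)
      norm_num at h3
      omega
    exact le_antisymm hB3 (by omega)
  have hRcard : R.card = 17 * L + 1 := by
    have := hcompl B
    rw [← hR] at this
    omega
  have hRind : ∀ x ∈ R, ∀ y ∈ R, ¬ H.Adj x y := by
    intro x hx y hy hxy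
    have h1 := edge_bound H R x y hx hy hxy
    have h2 := ind_le H (R \ {x, y})
    have h3 : (R \ {x, y}).card + 2 = R.card := by
      have hsub : ({x, y} : Finset V) ⊆ R := by
        intro z hz
        rw [Finset.mem_insert, Finset.mem_singleton] at hz
        rcases hz with rfl | rfl <;> assumption
      have := Finset.card_sdiff_add_card_eq_card hsub
      rw [Finset.card_pair hxy.ne] at this
      exact this
    have h4 := cover_bound H B R Finset.disjoint_sdiff 5 (by
      intro v hv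
      have h := hnb B (Finset.Subset.refl B) v hv
      rw [← hR] at h
      omega)
    rw [hB3', hRcard] at h4
    rw [← hsplit B] at h4
    have h5 : (R \ {x, y}).card = 17 * L - 1 := by omega
    rw [h5] at h2
    have h6 : 2 ^ (17 * L - 1) = 8 * 2 ^ (17 * L - 4) := by
      have : 17 * L - 1 = 3 + (17 * L - 4) := by omega
      rw [this, pow_add]; norm_num
    have h7 : 17 * L + 1 - 5 = 17 * L - 4 := by omega
    rw [h7] at h4
    have h8 : 1 ≤ 2 ^ (17 * L - 4) := Nat.one_le_two_pow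
    norm_num at h4
    omega
  obtain ⟨a, b, c, hab, hac, hbc, hBabc⟩ := Finset.card_eq_three.1 hB3'
  have haR : a ∉ R := by
    rw [hR, Finset.mem_sdiff, hBabc]; simp
  have hbR : b ∉ R := by
    rw [hR, Finset.mem_sdiff, hBabc]; simp
  have hcR : c ∉ R := by
    rw [hR, Finset.mem_sdiff, hBabc]; simp
  have huniv : (Finset.univ : Finset V) = insert a (insert b (insert c R)) := by
    ext x
    simp only [Finset.mem_univ, Finset.mem_insert, true_iff]
    by_cases hx : x ∈ B
    · rw [hBabc] at hx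
      simp only [Finset.mem_insert, Finset.mem_singleton] at hx
      tauto
    · right; right; right
      rw [hR, Finset.mem_sdiff]
      exact ⟨Finset.mem_univ _, hx⟩
  have h2e : ∀ p q r : V, p ≠ q → p ≠ r → q ≠ r → B = {p, q, r} → H.Adj p q → H.Adj p r → False := by
    intro p q r hpq hpr hqr hBe e1 e2
    have := two_edges H p q r hpq hpr hqr e1 e2
    rw [← hBe] at this
    omega
  have perm1 : B = {b, a, c} := by
    rw [hBabc]; ext x; simp only [Finset.mem_insert, Finset.mem_singleton]; tauto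
  have perm2 : B = {c, a, b} := by
    rw [hBabc]; ext x; simp only [Finset.mem_insert, Finset.mem_singleton]; tauto
  by_cases eac : H.Adj a c
  · -- relabel (a, c, b)
    have n1 : ¬ H.Adj a b := fun e => h2e a b c hab hac hbc hBabc e eac
    have n2 : ¬ H.Adj c b := fun e => h2e c a b hac.symm hbc.symm hab perm2 eac.symm e
    refine ⟨a, c, b, R, hac, hab, hbc.symm, haR, hcR, hbR, hRind, ?_, n1, n2⟩
    rw [huniv]
    ext x; simp only [Finset.mem_insert]; tauto
  · by_cases ebc : H.Adj b c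
    · have n1 : ¬ H.Adj b a := fun e => h2e b a c hab.symm hbc hac perm1 e ebc
      refine ⟨b, c, a, R, hbc, hab.symm, hac.symm, hbR, hcR, haR, hRind, ?_, n1, fun e => eac e.symm⟩
      rw [huniv]
      ext x; simp only [Finset.mem_insert]; tauto
    · exact ⟨a, b, c, R, hab, hac, hbc, haR, hbR, hcR, hRind, huniv, eac, ebc⟩

end H10ac

namespace H10ac

open Finset

/-- comparability graph -/
def comp (P : Type) [PartialOrder P] : SimpleGraph P where
  Adj x y := x < y ∨ y < x
  symm := ⟨fun _ _ h => h.symm⟩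
  loopless := ⟨fun x h => by rcases h with h | h <;> exact lt_irrefl x h⟩

lemma comp_adj {P : Type} [PartialOrder P] (x y : P) : (comp P).Adj x y ↔ x < y ∨ y < x := Iff.rfl

/-- core contradiction in the one-edge case -/
lemma core {P : Type} [PartialOrder P] [DecidableEq P] (L : ℕ) (hL : 600 ≤ L) (a b c : P)
    (O : Finset P) (hO : ∀ x ∈ O, ∀ y ∈ O, ¬ (comp P).Adj x y) (hOc : O.card = 17 * L + 1)
    (eab : (comp P).Adj a b) (eac : ¬ (comp P).Adj a c) (ebc : ¬ (comp P).Adj b c)
    (hc : (away (comp P) {c} O).card = 3 * L)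
    (hac : (away (comp P) {a} O ∩ away (comp P) {c} O).card = 0)
    (hbc : (away (comp P) {b} O ∩ away (comp P) {c} O).card = 2 * L)
    (hab : ((away (comp P) {a} O).card = 14 * L ∧ (away (comp P) {b} O).card = 13 * L) ∨
      ((away (comp P) {a} O).card = 13 * L ∧ (away (comp P) {b} O).card = 14 * L)) : False := by
  set H := comp P with hH
  set Xa := away H {a} O with hXa
  set Xb := away H {b} O with hXb
  set Xc := away H {c} O with hXc
  have sXa : Xa ⊆ O := away_subset H _ O
  have sXb : Xb ⊆ O := away_subset H _ O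
  have sXc : Xc ⊆ O := away_subset H _ O
  have ma : ∀ v, v ∈ O → v ∉ Xa → H.Adj a v := by
    intro v hv h
    by_contra hc
    exact h (by rw [hXa, mem_away1]; exact ⟨hv, hc⟩)
  have mb : ∀ v, v ∈ O → v ∉ Xb → H.Adj b v := by
    intro v hv h
    by_contra hc
    exact h (by rw [hXb, mem_away1]; exact ⟨hv, hc⟩)
  have mc : ∀ v, v ∈ O → v ∉ Xc → H.Adj c v := by
    intro v hv h
    by_contra hc
    exact h (by rw [hXc, mem_away1]; exact ⟨hv, hc⟩)
  have na : ∀ v, v ∈ Xa → ¬ H.Adj a v := fun v hv => ((mem_away1 H a v O).1 hv).2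
  have nb : ∀ v, v ∈ Xb → ¬ H.Adj b v := fun v hv => ((mem_away1 H b v O).1 hv).2
  have nc : ∀ v, v ∈ Xc → ¬ H.Adj c v := fun v hv => ((mem_away1 H c v O).1 hv).2
  have iac := Finset.card_union_add_card_inter Xa Xc
  have ibc := Finset.card_union_add_card_inter Xb Xc
  -- x adjacent to a and c
  have hx : ∃ x ∈ O, x ∉ Xa ∧ x ∉ Xc := by
    by_contra hcon
    push Not at hcon
    have hsub : O ⊆ Xa ∪ Xc := by
      intro v hv
      rw [Finset.mem_union]
      by_cases h : v ∈ Xa
      · exact Or.inl h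
      · exact Or.inr (hcon v hv h)
    have := Finset.card_le_card hsub
    omega
  have hy : ∃ y ∈ O, y ∉ Xb ∧ y ∉ Xc := by
    by_contra hcon
    push Not at hcon
    have hsub : O ⊆ Xb ∪ Xc := by
      intro v hv
      rw [Finset.mem_union]
      by_cases h : v ∈ Xb
      · exact Or.inl h
      · exact Or.inr (hcon v hv h)
    have := Finset.card_le_card hsub
    omega
  by_cases hz : ∃ z ∈ O, z ∉ Xa ∧ z ∉ Xb ∧ z ∉ Xc
  · obtain ⟨z, hzO, hza, hzb, hzc⟩ := hz
    -- x' in Xb \ Xa
    have hx' : ∃ x ∈ Xb, x ∉ Xa := by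
      by_contra hcon
      push Not at hcon
      have hsub : Xb ∩ Xc ⊆ Xa ∩ Xc := by
        intro v hv
        rw [Finset.mem_inter] at hv ⊢
        exact ⟨hcon v hv.1, hv.2⟩
      have := Finset.card_le_card hsub
      omega
    have hy' : ∃ y ∈ Xa, y ∉ Xb := by
      by_contra hcon
      push Not at hcon
      have hdisj : Disjoint Xa (Xb ∩ Xc) := by
        rw [Finset.disjoint_left]
        intro v hv hv2
        rw [Finset.mem_inter] at hv2
        have : v ∈ Xa ∩ Xc := Finset.mem_inter.2 ⟨hv, hv2.2⟩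
        rw [Finset.card_eq_zero] at hac
        rw [hac] at this
        exact absurd this (Finset.notMem_empty v)
      have hsub : Xa ∪ (Xb ∩ Xc) ⊆ Xb := by
        intro v hv
        rw [Finset.mem_union, Finset.mem_inter] at hv
        rcases hv with h | h
        · exact hcon v h
        · exact h.1
      have h1 := Finset.card_le_card hsub
      rw [Finset.card_union_of_disjoint hdisj] at h1
      omega
    obtain ⟨x, hxb, hxa⟩ := hx'
    obtain ⟨y, hya, hyb⟩ := hy'
    have hxO := sXb hxb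
    have hyO := sXa hya
    refine obs2 (a := a) (b := b) (z := z) (x := x) (y := y) (c := c) eab (ma z hzO hza)
      (mb z hzO hzb) ?_ ?_ ?_ ?_ ?_ ?_ ?_ ?_ ?_
    · exact (ma x hxO hxa).symm
    · exact (mb y hyO hyb).symm
    · exact mc z hzO hzc
    · exact fun h => nb x hxb (Or.symm h)
    · exact hO x hxO z hzO
    · exact fun h => na y hya (Or.symm h)
    · exact hO y hyO z hzO
    · exact fun h => eac (Or.symm h)
    · exact fun h => ebc (Or.symm h)
  · push Not at hz
    obtain ⟨x, hxO, hxa, hxc⟩ := hx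
    obtain ⟨y, hyO, hyb, hyc⟩ := hy
    have hxb : x ∈ Xb := by
      by_contra h
      exact hxc (hz x hxO hxa h)
    have hya : y ∈ Xa := by
      by_contra h
      exact hyc (hz y hyO h hyb)
    refine obs1 (a := a) (b := b) (y := y) (c := c) (x := x) eab (mb y hyO hyb) ?_ ?_ ?_
      ?_ ?_ ?_ ?_ ?_
    · exact (mc y hyO hyc).symm
    · exact mc x hxO hxc
    · exact (ma x hxO hxa).symm
    · exact na y hya
    · exact eac
    · exact ebc
    · exact nb x hxb
    · exact hO x hxO y hyO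

lemma noedge {P : Type} [DecidableEq P] (L : ℕ) (hL : 600 ≤ L) (O Xa Xb Xc : Finset P)
    (sXa : Xa ⊆ O) (sXb : Xb ⊆ O) (sXc : Xc ⊆ O) (hOc : O.card = 17 * L + 1)
    (hsum : 2 ^ Xa.card + 2 ^ Xb.card + 2 ^ Xc.card + 2 ^ (Xa ∩ Xb).card + 2 ^ (Xa ∩ Xc).card
      + 2 ^ (Xb ∩ Xc).card + 2 ^ ((Xa ∩ Xb) ∩ Xc).card
      = 2 ^ (14 * L) + 2 ^ (13 * L) + 2 ^ (3 * L) + 2 ^ (2 * L) + 1) : False := by
  have iab := Finset.card_union_add_card_inter Xa Xb
  have iac := Finset.card_union_add_card_inter Xa Xc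
  have ibc := Finset.card_union_add_card_inter Xb Xc
  have uab := Finset.card_le_card (Finset.union_subset sXa sXb)
  have uac := Finset.card_le_card (Finset.union_subset sXa sXc)
  have ubc := Finset.card_le_card (Finset.union_subset sXb sXc)
  have l1 : (Xa ∩ Xb).card ≤ Xa.card := Finset.card_le_card Finset.inter_subset_left
  have l2 : (Xa ∩ Xb).card ≤ Xb.card := Finset.card_le_card Finset.inter_subset_right
  have l3 : (Xa ∩ Xc).card ≤ Xa.card := Finset.card_le_card Finset.inter_subset_left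
  have l4 : (Xa ∩ Xc).card ≤ Xc.card := Finset.card_le_card Finset.inter_subset_right
  have l5 : (Xb ∩ Xc).card ≤ Xb.card := Finset.card_le_card Finset.inter_subset_left
  have l6 : (Xb ∩ Xc).card ≤ Xc.card := Finset.card_le_card Finset.inter_subset_right
  have t1 : ((Xa ∩ Xb) ∩ Xc).card ≤ (Xa ∩ Xb).card := Finset.card_le_card Finset.inter_subset_left
  have t2 : ((Xa ∩ Xb) ∩ Xc).card ≤ (Xa ∩ Xc).card := Finset.card_le_card (by
    intro v hv
    simp only [Finset.mem_inter] at hv ⊢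
    exact ⟨hv.1.1, hv.2⟩)
  have t3 : ((Xa ∩ Xb) ∩ Xc).card ≤ (Xb ∩ Xc).card := Finset.card_le_card (by
    intro v hv
    simp only [Finset.mem_inter] at hv ⊢
    exact ⟨hv.1.2, hv.2⟩)
  have j1 : (Xa ∩ Xb).card + (Xa ∩ Xc).card ≤ Xa.card + ((Xa ∩ Xb) ∩ Xc).card := by
    have h1 := Finset.card_union_add_card_inter (Xa ∩ Xb) (Xa ∩ Xc)
    have h2 : (Xa ∩ Xb) ∩ (Xa ∩ Xc) = (Xa ∩ Xb) ∩ Xc := by
      ext v; simp only [Finset.mem_inter]; tauto
    have h3 : ((Xa ∩ Xb) ∪ (Xa ∩ Xc)).card ≤ Xa.card := Finset.card_le_card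
      (Finset.union_subset Finset.inter_subset_left Finset.inter_subset_left)
    rw [h2] at h1
    clear hsum
    omega
  have j2 : (Xa ∩ Xb).card + (Xb ∩ Xc).card ≤ Xb.card + ((Xa ∩ Xb) ∩ Xc).card := by
    have h1 := Finset.card_union_add_card_inter (Xa ∩ Xb) (Xb ∩ Xc)
    have h2 : (Xa ∩ Xb) ∩ (Xb ∩ Xc) = (Xa ∩ Xb) ∩ Xc := by
      ext v; simp only [Finset.mem_inter]; tauto
    have h3 : ((Xa ∩ Xb) ∪ (Xb ∩ Xc)).card ≤ Xb.card := Finset.card_le_card
      (Finset.union_subset Finset.inter_subset_right Finset.inter_subset_left)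
    rw [h2] at h1
    clear hsum
    omega
  have j3 : (Xa ∩ Xc).card + (Xb ∩ Xc).card ≤ Xc.card + ((Xa ∩ Xb) ∩ Xc).card := by
    have h1 := Finset.card_union_add_card_inter (Xa ∩ Xc) (Xb ∩ Xc)
    have h2 : (Xa ∩ Xc) ∩ (Xb ∩ Xc) = (Xa ∩ Xb) ∩ Xc := by
      ext v; simp only [Finset.mem_inter]; tauto
    have h3 : ((Xa ∩ Xc) ∪ (Xb ∩ Xc)).card ≤ Xc.card := Finset.card_le_card
      (Finset.union_subset Finset.inter_subset_right Finset.inter_subset_right)
    rw [h2] at h1
    clear hsum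
    omega
  have q1 : Xa.card + Xb.card ≤ 17 * L + 1 + (Xa ∩ Xb).card := by clear hsum; omega
  have q2 : Xa.card + Xc.card ≤ 17 * L + 1 + (Xa ∩ Xc).card := by clear hsum; omega
  have q3 : Xb.card + Xc.card ≤ 17 * L + 1 + (Xb ∩ Xc).card := by clear hsum; omega
  exact num4' L Xa.card Xb.card Xc.card (Xa ∩ Xb).card (Xa ∩ Xc).card (Xb ∩ Xc).card
    ((Xa ∩ Xb) ∩ Xc).card (by omega) hsum l1 l2 l3 l4 l5 l6 t1 t2 t3 q1 q2 q3 j1 j2 j3

theorem no_poset (L : ℕ) (hL : 600 ≤ L) (P : Type) [Fintype P] [PartialOrder P]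
    (hcard : Fintype.card P = 17 * L + 4)
    (hk : {s : Finset P | IsAntichain (· ≤ ·) (s : Set P)}.ncard =
      2 ^ (17 * L + 1) + 2 ^ (14 * L) + 2 ^ (13 * L) + 2 ^ (3 * L) + 2 ^ (2 * L) + 1) : False := by
  classical
  have hset : {s : Finset P | IsAntichain (· ≤ ·) (s : Set P)} =
      ((indS (comp P) Finset.univ : Finset (Finset P)) : Set (Finset P)) := by
    ext s
    rw [Set.mem_ofPred_eq, Finset.mem_coe, mem_indS]
    constructor
    · intro h
      refine ⟨Finset.subset_univ _, ?_⟩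
      intro x hx y hy hxy
      rw [comp_adj] at hxy
      rcases hxy with hlt | hlt
      · exact h (Finset.mem_coe.2 hx) (Finset.mem_coe.2 hy) hlt.ne hlt.le
      · exact h (Finset.mem_coe.2 hy) (Finset.mem_coe.2 hx) hlt.ne hlt.le
    · rintro ⟨_, h⟩ x hx y hy hne hle
      exact h x (Finset.mem_coe.1 hx) y (Finset.mem_coe.1 hy) (Or.inl (lt_of_le_of_ne hle hne))
  rw [hset, Set.ncard_coe_finset] at hk
  change ind (comp P) Finset.univ = _ at hk
  obtain ⟨a, b, c, O, hab, hac, hbc, haO, hbO, hcO, hO, huniv, eac, ebc⟩ :=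
    graph_structure L hL (comp P) hcard hk
  have hOc : O.card = 17 * L + 1 := by
    have h1 : (Finset.univ : Finset P).card = 17 * L + 4 := by rw [Finset.card_univ, hcard]
    rw [huniv, Finset.card_insert_of_notMem (by simp [hab, hac, haO]),
      Finset.card_insert_of_notMem (by simp [hbc, hbO]), Finset.card_insert_of_notMem hcO] at h1
    omega
  set H := comp P with hH
  have sXa : away H {a} O ⊆ O := away_subset H _ O
  have sXb : away H {b} O ⊆ O := away_subset H _ O
  have sXc : away H {c} O ⊆ O := away_subset H _ O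
  have iab := Finset.card_union_add_card_inter (away H {a} O) (away H {b} O)
  have iac := Finset.card_union_add_card_inter (away H {a} O) (away H {c} O)
  have ibc := Finset.card_union_add_card_inter (away H {b} O) (away H {c} O)
  have uab := Finset.card_le_card (Finset.union_subset sXa sXb)
  have uac := Finset.card_le_card (Finset.union_subset sXa sXc)
  have ubc := Finset.card_le_card (Finset.union_subset sXb sXc)
  have l1 := Finset.card_le_card (Finset.inter_subset_left (s₁ := away H {a} O) (s₂ := away H {b} O))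
  have l2 := Finset.card_le_card (Finset.inter_subset_right (s₁ := away H {a} O) (s₂ := away H {b} O))
  have l3 := Finset.card_le_card (Finset.inter_subset_left (s₁ := away H {a} O) (s₂ := away H {c} O))
  have l4 := Finset.card_le_card (Finset.inter_subset_right (s₁ := away H {a} O) (s₂ := away H {c} O))
  have l5 := Finset.card_le_card (Finset.inter_subset_left (s₁ := away H {b} O) (s₂ := away H {c} O))
  have l6 := Finset.card_le_card (Finset.inter_subset_right (s₁ := away H {b} O) (s₂ := away H {c} O))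
  by_cases eab : H.Adj a b
  · -- one edge
    rw [huniv, expand1 H a b c O hab hac hbc haO hbO hcO hO eab eac ebc, hOc] at hk
    have h3 := num3 L (away H {a} O).card (away H {b} O).card (away H {c} O).card
      (away H {a} O ∩ away H {c} O).card (away H {b} O ∩ away H {c} O).card
      (by omega) (by omega) l3 l4 l5 l6 (by omega) (by omega)
    obtain ⟨hc3, hf, hmm⟩ := h3
    rcases hf with ⟨f1, f2⟩ | ⟨f1, f2⟩
    · exact core L hL a b c O hO hOc eab eac ebc hc3 f1 f2 hmm
    · exact core L hL b a c O hO hOc eab.symm ebc eac hc3 f2 f1 (by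
        rcases hmm with h | h
        · exact Or.inr ⟨h.2, h.1⟩
        · exact Or.inl ⟨h.2, h.1⟩)
  · -- no edge
    rw [huniv, expand0 H a b c O hab hac hbc haO hbO hcO hO eab eac ebc, hOc] at hk
    exact noedge L hL O _ _ _ sXa sXb sXc hOc (by omega)

end H10ac

namespace H10ac

open Finset

/-- edge relation (smaller endpoint first) -/
def E (L i j : ℕ) : Prop :=
  (i = 0 ∧ j = 1) ∨ (i = 0 ∧ 3 ≤ j ∧ j < 3 * L + 4) ∨
  (i = 1 ∧ 2 * L + 3 ≤ j ∧ j < 6 * L + 4) ∨ (i = 2 ∧ 3 * L + 3 ≤ j)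

def H0 (L : ℕ) : SimpleGraph (Fin (17 * L + 4)) where
  Adj u v := E L u.val v.val ∨ E L v.val u.val
  symm := ⟨fun _ _ h => h.symm⟩
  loopless := ⟨fun u h => by
    rcases h with h | h <;> (unfold E at h; omega)⟩

lemma cardfin (n lo hi : ℕ) (S : Finset (Fin n)) (h : ∀ v : Fin n, v ∈ S ↔ lo ≤ v.val ∧ v.val < hi)
    (hhi : hi ≤ n) : S.card = hi - lo := by
  rw [← Finset.card_map Fin.valEmbedding, ← Nat.card_Ico lo hi]
  congr 1
  ext x
  rw [Finset.mem_map, Finset.mem_Ico]
  constructor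
  · rintro ⟨v, hv, rfl⟩
    exact (h v).1 hv
  · rintro ⟨h1, h2⟩
    exact ⟨⟨x, by omega⟩, (h _).2 ⟨h1, h2⟩, rfl⟩

open Classical in
lemma ind_H0 (L : ℕ) (hL : 1 ≤ L) : ind (H0 L) Finset.univ =
    2 ^ (17 * L + 1) + 2 ^ (14 * L) + 2 ^ (13 * L) + 2 ^ (3 * L) + 2 ^ (2 * L) + 1 := by
  let a : Fin (17 * L + 4) := ⟨0, by omega⟩
  let b : Fin (17 * L + 4) := ⟨1, by omega⟩
  let c : Fin (17 * L + 4) := ⟨2, by omega⟩
  let O : Finset (Fin (17 * L + 4)) := Finset.univ.filter (fun v => 3 ≤ v.val)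
  have hmO : ∀ v, v ∈ O ↔ 3 ≤ v.val := by
    intro v
    simp [O]
  have huniv : (Finset.univ : Finset (Fin (17 * L + 4))) = insert a (insert b (insert c O)) := by
    ext v
    simp only [Finset.mem_univ, Finset.mem_insert, true_iff, hmO]
    simp only [a, b, c, Fin.ext_iff]
    omega
  have hab : a ≠ b := by simp [a, b]
  have hac : a ≠ c := by simp [a, c]
  have hbc : b ≠ c := by simp [b, c]
  have haO : a ∉ O := by rw [hmO]; simp [a]
  have hbO : b ∉ O := by rw [hmO]; simp [b]
  have hcO : c ∉ O := by rw [hmO]; simp [c]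
  have hO : ∀ x ∈ O, ∀ y ∈ O, ¬ (H0 L).Adj x y := by
    intro x hx y hy h
    rw [hmO] at hx hy
    change E L x.val y.val ∨ E L y.val x.val at h
    unfold E at h
    omega
  have eab : (H0 L).Adj a b := Or.inl (Or.inl ⟨rfl, rfl⟩)
  have eac : ¬ (H0 L).Adj a c := by
    intro h
    change E L 0 2 ∨ E L 2 0 at h
    unfold E at h
    omega
  have ebc : ¬ (H0 L).Adj b c := by
    intro h
    change E L 1 2 ∨ E L 2 1 at h
    unfold E at h
    omega
  rw [huniv, expand1 (H0 L) a b c O hab hac hbc haO hbO hcO hO eab eac ebc]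
  have mA : ∀ v, v ∈ away (H0 L) {a} O ↔ 3 * L + 4 ≤ v.val ∧ v.val < 17 * L + 4 := by
    intro v
    rw [mem_away1, hmO]
    have h1 : (H0 L).Adj a v ↔ (E L 0 v.val ∨ E L v.val 0) := Iff.rfl
    rw [h1]
    unfold E
    have := v.2
    omega
  have mB : ∀ v, v ∈ away (H0 L) {b} O ↔ 3 ≤ v.val ∧ ¬ (2 * L + 3 ≤ v.val ∧ v.val < 6 * L + 4) := by
    intro v
    rw [mem_away1, hmO]
    have h1 : (H0 L).Adj b v ↔ (E L 1 v.val ∨ E L v.val 1) := Iff.rfl
    rw [h1]
    unfold E
    have := v.2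
    omega
  have mC : ∀ v, v ∈ away (H0 L) {c} O ↔ 3 ≤ v.val ∧ v.val < 3 * L + 3 := by
    intro v
    rw [mem_away1, hmO]
    have h1 : (H0 L).Adj c v ↔ (E L 2 v.val ∨ E L v.val 2) := Iff.rfl
    rw [h1]
    unfold E
    have := v.2
    omega
  have cO : O.card = 17 * L + 1 := by
    rw [cardfin _ 3 (17 * L + 4) O (by
      intro v; rw [hmO]; have := v.2; omega) le_rfl]
    omega
  have cA : (away (H0 L) {a} O).card = 14 * L := by
    rw [cardfin _ (3 * L + 4) (17 * L + 4) _ mA le_rfl]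
    omega
  have cC : (away (H0 L) {c} O).card = 3 * L := by
    rw [cardfin _ 3 (3 * L + 3) _ mC (by omega)]
    omega
  have cB : (away (H0 L) {b} O).card = 13 * L := by
    rw [← Finset.card_filter_add_card_filter_not (fun v : Fin (17 * L + 4) => v.val < 2 * L + 3)]
    rw [cardfin _ 3 (2 * L + 3) _ (by
        intro v
        rw [Finset.mem_filter, mB]
        omega) (by omega),
      cardfin _ (6 * L + 4) (17 * L + 4) _ (by
        intro v
        rw [Finset.mem_filter, mB]
        have := v.2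
        omega) le_rfl]
    omega
  have cAC : (away (H0 L) {a} O ∩ away (H0 L) {c} O).card = 0 := by
    rw [Finset.card_eq_zero]
    ext v
    rw [Finset.mem_inter, mA, mC]
    simp only [Finset.notMem_empty, iff_false]
    omega
  have cBC : (away (H0 L) {b} O ∩ away (H0 L) {c} O).card = 2 * L := by
    rw [cardfin _ 3 (2 * L + 3) _ (by
      intro v
      rw [Finset.mem_inter, mB, mC]
      omega) (by omega)]
    omega
  rw [cO, cA, cB, cC, cAC, cBC]
  ring

theorem exists_graph (L : ℕ) (hL : 1 ≤ L) : ∃ G : SimpleGraph (Fin (17 * L + 4)),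
    {s : Finset (Fin (17 * L + 4)) | G.IsClique (s : Set (Fin (17 * L + 4)))}.ncard =
    2 ^ (17 * L + 1) + 2 ^ (14 * L) + 2 ^ (13 * L) + 2 ^ (3 * L) + 2 ^ (2 * L) + 1 := by
  classical
  refine ⟨(H0 L)ᶜ, ?_⟩
  have hset : {s : Finset (Fin (17 * L + 4)) | (H0 L)ᶜ.IsClique (s : Set (Fin (17 * L + 4)))} =
      ((indS (H0 L) Finset.univ : Finset (Finset (Fin (17 * L + 4)))) :
        Set (Finset (Fin (17 * L + 4)))) := by
    ext s
    rw [Set.mem_ofPred_eq, Finset.mem_coe, mem_indS]
    constructor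
    · intro h
      refine ⟨Finset.subset_univ _, ?_⟩
      intro x hx y hy hxy
      have := h (Finset.mem_coe.2 hx) (Finset.mem_coe.2 hy) hxy.ne
      rw [SimpleGraph.compl_adj] at this
      exact this.2 hxy
    · rintro ⟨_, h⟩ x hx y hy hne
      rw [SimpleGraph.compl_adj]
      exact ⟨hne, h x (Finset.mem_coe.1 hx) y (Finset.mem_coe.1 hy)⟩
  rw [hset, Set.ncard_coe_finset]
  exact ind_H0 L hL

end H10ac
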