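import Mathlib

set_option autoImplicit false

namespace Pool.Agent.H10Block

open Finset

lemma half {α : Type*} [DecidableEq α] (V : Finset α) (p : ℕ) (h : p ≤ 2 * V.card) :
    2 ^ V.card ≤ 2 * (V.powerset.filter (fun U => p ≤ 4 * U.card)).card := by
  have h1 := Finset.card_filter_add_card_filter_not (s := V.powerset)
    (fun U : Finset α => p ≤ 4 * U.card)
  rw [Finset.card_powerset] at h1
  have h2 : (V.powerset.filter (fun U => ¬ p ≤ 4 * U.card)).card ≤
      (V.powerset.filter (fun U => p ≤ 4 * U.card)).card := by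
    apply Finset.card_le_card_of_injOn (fun U => V \ U)
    · intro U hU
      simp only [Finset.coe_filter, Finset.mem_powerset, Set.mem_setOf_eq] at hU ⊢
      refine ⟨Finset.sdiff_subset, ?_⟩
      have := Finset.card_sdiff_add_card_eq_card hU.1
      omega
    · intro U hU U' hU' he
      simp only [Finset.coe_filter, Finset.mem_powerset, Set.mem_setOf_eq] at hU hU' he
      have e1 : V \ (V \ U) = U := Finset.sdiff_sdiff_eq_self hU.1
      have e2 : V \ (V \ U') = U' := Finset.sdiff_sdiff_eq_self hU'.1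
      rw [← e1, ← e2, he]
  omega

lemma key {α : Type*} [Fintype α] [DecidableEq α] (C : ℕ)
    (hp : 2 * C + 2 ≤ Fintype.card α) (S : Finset α) :
    2 ^ (Fintype.card α - C - 2) ≤
      (univ.filter (fun T : Finset α => Fintype.card α ≤ 4 * T.card ∧
        ¬ (1 ≤ (T ∩ S).card ∧ (T ∩ S).card ≤ C))).card := by
  by_cases hS : S.card ≤ C
  · have hc : Sᶜ.card = Fintype.card α - S.card := Finset.card_compl S
    have h1 := half Sᶜ (Fintype.card α) (by omega)
    have h2 : (Sᶜ.powerset.filter (fun U => Fintype.card α ≤ 4 * U.card)).card ≤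
        (univ.filter (fun T : Finset α => Fintype.card α ≤ 4 * T.card ∧
        ¬ (1 ≤ (T ∩ S).card ∧ (T ∩ S).card ≤ C))).card := by
      apply Finset.card_le_card
      intro U hU
      simp only [Finset.mem_filter, Finset.mem_powerset, Finset.mem_univ, true_and] at hU ⊢
      refine ⟨hU.2, ?_⟩
      have : U ∩ S = ∅ := by
        ext x
        simp only [Finset.mem_inter, Finset.notMem_empty, iff_false, not_and]
        intro hx
        have := hU.1 hx
        simpa using this
      rw [this]
      simp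
    have h3 : 2 * 2 ^ (Fintype.card α - C - 2) ≤ 2 ^ Sᶜ.card := by
      rw [← pow_succ']
      exact Nat.pow_le_pow_right (by norm_num) (by omega)
    omega
  · push Not at hS
    obtain ⟨R, hRS, hR⟩ := Finset.exists_subset_card_eq (show C + 1 ≤ S.card from hS)
    have hc : Rᶜ.card = Fintype.card α - R.card := Finset.card_compl R
    have h1 := half Rᶜ (Fintype.card α) (by omega)
    have h2 : (Rᶜ.powerset.filter (fun U => Fintype.card α ≤ 4 * U.card)).card ≤
        (univ.filter (fun T : Finset α => Fintype.card α ≤ 4 * T.card ∧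
        ¬ (1 ≤ (T ∩ S).card ∧ (T ∩ S).card ≤ C))).card := by
      apply Finset.card_le_card_of_injOn (fun U => R ∪ U)
      · intro U hU
        simp only [Finset.coe_filter, Finset.mem_powerset, Finset.mem_univ, true_and,
          Set.mem_setOf_eq] at hU ⊢
        refine ⟨?_, ?_⟩
        · have : U.card ≤ (R ∪ U).card := Finset.card_le_card Finset.subset_union_right
          omega
        · rintro ⟨-, h⟩
          have : R.card ≤ ((R ∪ U) ∩ S).card := by
            apply Finset.card_le_card
            intro x hx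
            simp only [Finset.mem_inter, Finset.mem_union]
            exact ⟨Or.inl hx, hRS hx⟩
          omega
      · intro U hU U' hU' he
        simp only [Finset.coe_filter, Finset.mem_powerset, Set.mem_setOf_eq] at hU hU' he
        have e1 : ∀ W : Finset α, W ⊆ Rᶜ → (R ∪ W) \ R = W := by
          intro W hW
          ext x
          simp only [Finset.mem_sdiff, Finset.mem_union]
          constructor
          · rintro ⟨h1 | h1, h2⟩
            · exact absurd h1 h2
            · exact h1
          · intro h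
            exact ⟨Or.inr h, by simpa using hW h⟩
        rw [← e1 U hU.1, ← e1 U' hU'.1, he]
    have h3 : 2 * 2 ^ (Fintype.card α - C - 2) ≤ 2 ^ Rᶜ.card := by
      rw [← pow_succ']
      exact Nat.pow_le_pow_right (by norm_num) (by omega)
    omega

lemma exists_T {α L W : Type} [Fintype α] [DecidableEq α] [Fintype L] [DecidableEq L]
    [Fintype W] (C : ℕ) (hp : 2 * C + 2 ≤ Fintype.card α) (S : W → L → Finset α)
    (hM : (Fintype.card W : ℝ) * (1 - 1 / 2 ^ (C + 2)) ^ (Fintype.card L) < 1) :
    ∃ T : L → Finset α, (∀ l, Fintype.card α ≤ 4 * (T l).card) ∧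
      ∀ w, ∃ l, ¬ (1 ≤ (T l ∩ S w l).card ∧ (T l ∩ S w l).card ≤ C) := by
  classical
  by_contra hcon
  have h : ∀ T : L → Finset α, (∀ l, Fintype.card α ≤ 4 * (T l).card) →
      ∃ w, ∀ l, (1 ≤ (T l ∩ S w l).card ∧ (T l ∩ S w l).card ≤ C) := by
    intro T hT
    by_contra h'
    apply hcon
    refine ⟨T, hT, ?_⟩
    intro w
    by_contra h''
    apply h'
    refine ⟨w, ?_⟩
    intro l
    by_contra h'''
    exact h'' ⟨l, h'''⟩
  set G : Finset (Finset α) := univ.filter (fun T : Finset α => Fintype.card α ≤ 4 * T.card)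
    with hG
  set H : W → Finset (L → Finset α) := fun w => Fintype.piFinset (fun l =>
    G.filter (fun T => 1 ≤ (T ∩ S w l).card ∧ (T ∩ S w l).card ≤ C)) with hH
  have hcov : Fintype.piFinset (fun _ : L => G) ⊆ univ.biUnion H := by
    intro T hT
    rw [Fintype.mem_piFinset] at hT
    obtain ⟨w, hw⟩ := h T (fun l => by simpa [hG] using hT l)
    rw [Finset.mem_biUnion]
    refine ⟨w, Finset.mem_univ _, ?_⟩
    rw [hH]
    simp only [Fintype.mem_piFinset, Finset.mem_filter]
    exact fun l => ⟨hT l, hw l⟩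
  have hcard : (G.card : ℝ) ^ (Fintype.card L) ≤ ∑ w : W, ((H w).card : ℝ) := by
    have h1 : (Fintype.piFinset (fun _ : L => G)).card ≤ ∑ w : W, (H w).card :=
      (Finset.card_le_card hcov).trans Finset.card_biUnion_le
    rw [Fintype.card_piFinset] at h1
    simp only [Finset.prod_const, Finset.card_univ] at h1
    exact_mod_cast h1
  set r : ℝ := 1 - 1 / 2 ^ (C + 2) with hr
  have hr0 : 0 ≤ r := by
    rw [hr, sub_nonneg]
    apply div_le_one_of_le₀ _ (by positivity)
    exact one_le_pow₀ (by norm_num)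
  have hGpos : 0 < (G.card : ℝ) := by
    have : (univ : Finset α) ∈ G := by
      rw [hG, Finset.mem_filter]
      refine ⟨Finset.mem_univ _, ?_⟩
      rw [Finset.card_univ]; omega
    exact_mod_cast Finset.card_pos.mpr ⟨_, this⟩
  have hGle : (G.card : ℝ) ≤ 2 ^ (Fintype.card α) := by
    have : G.card ≤ 2 ^ (Fintype.card α) := by
      calc G.card ≤ (univ : Finset (Finset α)).card := Finset.card_le_card (Finset.subset_univ _)
        _ = 2 ^ (Fintype.card α) := by rw [Finset.card_univ, Fintype.card_finset]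
    exact_mod_cast this
  have hone : ∀ S' : Finset α, ((G.filter (fun T => 1 ≤ (T ∩ S').card ∧ (T ∩ S').card ≤ C)).card : ℝ)
      ≤ G.card * r := by
    intro S'
    have k := key C hp S'
    have e := Finset.card_filter_add_card_filter_not (s := G)
      (fun T : Finset α => 1 ≤ (T ∩ S').card ∧ (T ∩ S').card ≤ C)
    have e2 : (G.filter (fun T : Finset α => ¬ (1 ≤ (T ∩ S').card ∧ (T ∩ S').card ≤ C))) =
        (univ.filter (fun T : Finset α => Fintype.card α ≤ 4 * T.card ∧
        ¬ (1 ≤ (T ∩ S').card ∧ (T ∩ S').card ≤ C))) := by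
      rw [hG, Finset.filter_filter]
    rw [e2] at e
    have k' : (2 : ℝ) ^ (Fintype.card α) / 2 ^ (C + 2) ≤ ((univ.filter (fun T : Finset α => Fintype.card α ≤ 4 * T.card ∧
        ¬ (1 ≤ (T ∩ S').card ∧ (T ∩ S').card ≤ C))).card : ℝ) := by
      have k2 : ((2 ^ (Fintype.card α - C - 2) : ℕ) : ℝ) ≤ ((univ.filter (fun T : Finset α => Fintype.card α ≤ 4 * T.card ∧
        ¬ (1 ≤ (T ∩ S').card ∧ (T ∩ S').card ≤ C))).card : ℝ) := by exact_mod_cast k
      refine le_trans (le_of_eq ?_) k2
      push_cast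
      rw [div_eq_iff (by positivity), ← pow_add]
      congr 1
      omega
    have e' : ((G.filter (fun T => 1 ≤ (T ∩ S').card ∧ (T ∩ S').card ≤ C)).card : ℝ) +
        ((univ.filter (fun T : Finset α => Fintype.card α ≤ 4 * T.card ∧
        ¬ (1 ≤ (T ∩ S').card ∧ (T ∩ S').card ≤ C))).card : ℝ) = (G.card : ℝ) := by
      exact_mod_cast e
    have h5 : (G.card : ℝ) / 2 ^ (C + 2) ≤ (2 : ℝ) ^ (Fintype.card α) / 2 ^ (C + 2) := by
      gcongr
    have h6 : (G.card : ℝ) * r = G.card - (G.card : ℝ) / 2 ^ (C + 2) := by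
      rw [hr]; ring
    rw [h6]
    linarith
  have hHw : ∀ w, ((H w).card : ℝ) ≤ (G.card * r) ^ (Fintype.card L) := by
    intro w
    rw [hH]
    simp only [Fintype.card_piFinset]
    push_cast
    calc _ ≤ ∏ _l : L, ((G.card : ℝ) * r) := by
          apply Finset.prod_le_prod
          · intro l _; positivity
          · intro l _; exact hone (S w l)
      _ = (G.card * r) ^ (Fintype.card L) := by
          simp [Finset.prod_const, Finset.card_univ]
  have hsum : ∑ w : W, ((H w).card : ℝ) ≤ Fintype.card W * (G.card * r) ^ (Fintype.card L) := by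
    calc ∑ w : W, ((H w).card : ℝ) ≤ ∑ _w : W, (G.card * r) ^ (Fintype.card L) :=
          Finset.sum_le_sum (fun w _ => hHw w)
      _ = Fintype.card W * (G.card * r) ^ (Fintype.card L) := by
          rw [Finset.sum_const, Finset.card_univ, nsmul_eq_mul]
  have hfin : (G.card : ℝ) ^ (Fintype.card L) ≤
      (Fintype.card W * r ^ (Fintype.card L)) * (G.card : ℝ) ^ (Fintype.card L) := by
    calc (G.card : ℝ) ^ (Fintype.card L) ≤ _ := hcard.trans hsum
      _ = _ := by rw [mul_pow]; ring
  have hGN : 0 < (G.card : ℝ) ^ (Fintype.card L) := by positivity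
  nlinarith

lemma transfer {P : Type} [Fintype P] [DecidableEq P] (c : ℝ) (C : ℕ)
    (h : ∀ n : ℕ, ∀ F : Finset (Finset (Fin n)),
      (∀ A ∈ F, c * Real.sqrt (n : ℝ) < ((A.card : ℕ) : ℝ)) →
      (∀ A ∈ F, ∀ A' ∈ F, A ≠ A' → (A ∩ A').card < 2) →
      ∃ B : Finset (Fin n), ∀ A ∈ F, 1 ≤ (A ∩ B).card ∧ (A ∩ B).card ≤ C)
    (F : Finset (Finset P))
    (h1 : ∀ A ∈ F, c * Real.sqrt (Fintype.card P : ℝ) < ((A.card : ℕ) : ℝ))
    (h2 : ∀ A ∈ F, ∀ A' ∈ F, A ≠ A' → (A ∩ A').card < 2) :
    ∃ B : Finset P, ∀ A ∈ F, 1 ≤ (A ∩ B).card ∧ (A ∩ B).card ≤ C := by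
  classical
  set e := Fintype.equivFin P with he
  obtain ⟨B, hB⟩ := h (Fintype.card P) (F.image (fun A => A.map e.toEmbedding))
    (by
      intro A hA
      rw [Finset.mem_image] at hA
      obtain ⟨A0, hA0, rfl⟩ := hA
      rw [Finset.card_map]
      exact h1 A0 hA0)
    (by
      intro A hA A' hA' hne
      rw [Finset.mem_image] at hA hA'
      obtain ⟨A0, hA0, rfl⟩ := hA
      obtain ⟨A1, hA1, rfl⟩ := hA'
      rw [← Finset.map_inter, Finset.card_map]
      refine h2 A0 hA0 A1 hA1 ?_
      rintro rfl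
      exact hne rfl)
  refine ⟨B.map e.symm.toEmbedding, ?_⟩
  intro A hA
  have hk := hB (A.map e.toEmbedding) (Finset.mem_image_of_mem _ hA)
  have hB' : B = (B.map e.symm.toEmbedding).map e.toEmbedding := by
    rw [Finset.map_map]
    ext x
    simp
  rw [hB', ← Finset.map_inter, Finset.card_map] at hk
  exact hk

end Pool.Agent.H10Block
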