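import Mathlib
import Pool.Agent.H10Block

set_option autoImplicit false

namespace Pool.Agent.H10Block

open Finset

/-- decode a bounded-columns set -/
def dec {K : Type} [Fintype K] [DecidableEq K] {C : ℕ} (f : K → Fin C → Option K) : Finset (K × K) :=
  univ.filter (fun q : K × K => ∃ i : Fin C, f q.1 i = some q.2)

lemma dec_surj {K : Type} [Fintype K] [DecidableEq K] {C : ℕ} (B : Finset (K × K))
    (hB : ∀ x : K, (univ.filter (fun y : K => (x, y) ∈ B)).card ≤ C) :
    ∃ f : K → Fin C → Option K, dec f = B := by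
  refine ⟨fun x i => (univ.filter (fun y : K => (x, y) ∈ B)).toList[(i : ℕ)]?, ?_⟩
  ext ⟨x, y⟩
  simp only [dec, Finset.mem_filter, Finset.mem_univ, true_and]
  constructor
  · rintro ⟨i, hi⟩
    have := List.mem_of_getElem? hi
    rw [Finset.mem_toList] at this
    simpa using this
  · intro h
    have hm : y ∈ (univ.filter (fun y : K => (x, y) ∈ B)).toList := by
      rw [Finset.mem_toList]; simpa using h
    obtain ⟨i, hi, hi2⟩ := List.mem_iff_getElem.mp hm
    have hl : (univ.filter (fun y : K => (x, y) ∈ B)).toList.length ≤ C := by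
      rw [Finset.length_toList]; exact hB x
    refine ⟨⟨i, by omega⟩, ?_⟩
    rw [List.getElem?_eq_getElem hi, hi2]

lemma large_prime (C : ℕ) : ∃ p : ℕ, p.Prime ∧ 2 * C + 2 ≤ p ∧
    (((p : ℝ) + 1) ^ C * (1 - 1 / 2 ^ (C + 2)) ^ p) < 1 := by
  set r : ℝ := 1 - 1 / 2 ^ (C + 2) with hr
  have h2 : (1 : ℝ) / 2 ^ (C + 2) ≤ 1 / 2 := by
    apply one_div_le_one_div_of_le (by norm_num)
    calc (2 : ℝ) = 2 ^ 1 := by norm_num
      _ ≤ 2 ^ (C + 2) := pow_le_pow_right₀ (by norm_num) (by omega)
  have h3 : (0 : ℝ) < 1 / 2 ^ (C + 2) := by positivity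
  have hr0 : 0 < r := by rw [hr]; linarith
  have hr1 : r < 1 := by rw [hr]; linarith
  have ht := tendsto_pow_const_mul_const_pow_of_abs_lt_one C (r := r)
    (by rw [abs_of_pos hr0]; exact hr1)
  have hev := ht.eventually (gt_mem_nhds hr0)
  rw [Filter.eventually_atTop] at hev
  obtain ⟨N, hN⟩ := hev
  obtain ⟨p, hp1, hp2⟩ := Nat.exists_infinite_primes (max N (2 * C + 2))
  refine ⟨p, hp2, le_trans (le_max_right _ _) hp1, ?_⟩
  have h5 := hN (p + 1) (by have := le_trans (le_max_left _ _) hp1; omega)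
  push_cast at h5
  rw [pow_succ, ← mul_assoc] at h5
  have : (((p : ℝ) + 1) ^ C * r ^ p) * r < 1 * r := by linarith
  exact lt_of_mul_lt_mul_right this hr0.le

theorem main (C : ℕ) (h : ∀ n : ℕ, ∀ F : Finset (Finset (Fin n)),
      (∀ A ∈ F, (1 / 5 : ℝ) * Real.sqrt (n : ℝ) < ((A.card : ℕ) : ℝ)) →
      (∀ A ∈ F, ∀ A' ∈ F, A ≠ A' → (A ∩ A').card < 2) →
      ∃ B : Finset (Fin n), ∀ A ∈ F, 1 ≤ (A ∩ B).card ∧ (A ∩ B).card ≤ C) : False := by
  classical
  obtain ⟨p, hp, hpC, hlt⟩ := large_prime C
  haveI : Fact p.Prime := ⟨hp⟩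
  have hcardK : Fintype.card (ZMod p) = p := ZMod.card p
  have hcardW : Fintype.card (ZMod p → Fin C → Option (ZMod p)) = ((p + 1) ^ C) ^ p := by
    simp [hcardK]
  have hcardL : Fintype.card (ZMod p × ZMod p) = p * p := by
    rw [Fintype.card_prod, hcardK]
  have hr0 : (0 : ℝ) ≤ 1 - 1 / 2 ^ (C + 2) := by
    rw [sub_nonneg]
    apply div_le_one_of_le₀ _ (by positivity)
    exact one_le_pow₀ (by norm_num)
  obtain ⟨T, hT1, hT2⟩ := exists_T (α := ZMod p) (L := ZMod p × ZMod p)
    (W := ZMod p → Fin C → Option (ZMod p)) C (by rw [hcardK]; exact hpC)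
    (fun w l => univ.filter (fun x : ZMod p => (x, l.1 * x + l.2) ∈ dec w))
    (by
      rw [hcardW, hcardL, pow_mul]
      push_cast
      rw [← mul_pow]
      exact pow_lt_one₀ (by positivity) hlt hp.ne_zero)
  rw [hcardK] at hT1
  -- embedding of a line
  let A : ZMod p × ZMod p → Finset (ZMod p × ZMod p) := fun l =>
    (T l).image (fun x => (x, l.1 * x + l.2))
  let D : ZMod p → Finset (ZMod p × ZMod p) := fun x => univ.image (fun y => (x, y))
  have hinj : ∀ l : ZMod p × ZMod p, Function.Injective (fun x : ZMod p => (x, l.1 * x + l.2)) := by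
    intro l x y hxy
    exact (Prod.mk.inj hxy).1
  have hA : ∀ l, (A l).card = (T l).card := fun l =>
    Finset.card_image_of_injective _ (hinj l)
  have hD : ∀ x, (D x).card = p := by
    intro x
    have : (D x).card = (univ : Finset (ZMod p)).card :=
      Finset.card_image_of_injective _ (fun y z hyz => (Prod.mk.inj hyz).2)
    rw [this, Finset.card_univ, hcardK]
  have hmemA : ∀ l q, q ∈ A l → q.2 = l.1 * q.1 + l.2 := by
    intro l q hq
    simp only [A, Finset.mem_image] at hq
    obtain ⟨x, -, rfl⟩ := hq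
    rfl
  have hmemD : ∀ x q, q ∈ D x → q.1 = x := by
    intro x q hq
    simp only [D, Finset.mem_image, Finset.mem_univ, true_and] at hq
    obtain ⟨y, rfl⟩ := hq
    rfl
  have hp0 : (0 : ℝ) < p := by exact_mod_cast hp.pos
  have hsq : Real.sqrt ((Fintype.card (ZMod p × ZMod p) : ℕ) : ℝ) = p := by
    rw [hcardL]; push_cast; exact Real.sqrt_mul_self hp0.le
  obtain ⟨B, hB⟩ := transfer (P := ZMod p × ZMod p) (1 / 5) C h
    (univ.image A ∪ univ.image D)
    (by
      intro X hX
      rw [hsq]
      rw [Finset.mem_union, Finset.mem_image, Finset.mem_image] at hX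
      rcases hX with ⟨l, -, rfl⟩ | ⟨x, -, rfl⟩
      · rw [hA]
        have : (p : ℝ) ≤ 4 * (T l).card := by exact_mod_cast hT1 l
        linarith
      · rw [hD]
        linarith)
    (by
      intro X hX Y hY hne
      have hone : ∀ Z : Finset (ZMod p × ZMod p), (∀ a ∈ Z, ∀ b ∈ Z, a = b) → Z.card < 2 := by
        intro Z hZ
        have := Finset.card_le_one.mpr hZ
        omega
      rw [Finset.mem_union, Finset.mem_image, Finset.mem_image] at hX hY
      apply hone
      intro a ha b hb
      rw [Finset.mem_inter] at ha hb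
      rcases hX with ⟨l, -, rfl⟩ | ⟨x, -, rfl⟩
      · rcases hY with ⟨m, -, rfl⟩ | ⟨y, -, rfl⟩
        · have a1 := hmemA _ _ ha.1
          have a2 := hmemA _ _ ha.2
          have b1 := hmemA _ _ hb.1
          have b2 := hmemA _ _ hb.2
          have h1 : (l.1 - m.1) * (a.1 - b.1) = 0 := by linear_combination a2 - a1 + b1 - b2
          rcases mul_eq_zero.mp h1 with h2 | h2
          · exfalso
            apply hne
            have e1 : l.1 = m.1 := sub_eq_zero.mp h2
            have e2 : l.2 = m.2 := by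
              have : l.1 * a.1 + l.2 = m.1 * a.1 + m.2 := by rw [← a1, ← a2]
              rw [e1] at this
              exact add_left_cancel this
            have : l = m := Prod.ext e1 e2
            rw [this]
          · have e1 : a.1 = b.1 := sub_eq_zero.mp h2
            refine Prod.ext e1 ?_
            rw [a1, b1, e1]
        · have a1 := hmemA _ _ ha.1
          have b1 := hmemA _ _ hb.1
          have e1 : a.1 = b.1 := by rw [hmemD _ _ ha.2, hmemD _ _ hb.2]
          refine Prod.ext e1 ?_
          rw [a1, b1, e1]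
      · rcases hY with ⟨m, -, rfl⟩ | ⟨y, -, rfl⟩
        · have a1 := hmemA _ _ ha.2
          have b1 := hmemA _ _ hb.2
          have e1 : a.1 = b.1 := by rw [hmemD _ _ ha.1, hmemD _ _ hb.1]
          refine Prod.ext e1 ?_
          rw [a1, b1, e1]
        · exfalso
          apply hne
          have : x = y := by rw [← hmemD _ _ ha.1, ← hmemD _ _ ha.2]
          rw [this])
  obtain ⟨f, hf⟩ := dec_surj (C := C) B (by
    intro x
    have h1 := (hB (D x) (by
      rw [Finset.mem_union]; right
      exact Finset.mem_image_of_mem _ (Finset.mem_univ _))).2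
    refine le_trans ?_ h1
    apply Finset.card_le_card_of_injOn (fun y => (x, y))
    · intro y hy
      simp only [Finset.coe_filter, Finset.mem_univ, true_and] at hy
      simp only [Finset.coe_inter, Set.mem_inter_iff, Finset.mem_coe]
      refine ⟨?_, hy⟩
      simp only [D, Finset.mem_image, Finset.mem_univ, true_and]
      exact ⟨y, rfl⟩
    · intro y _ z _ hyz
      exact (Prod.mk.inj hyz).2)
  obtain ⟨l, hl⟩ := hT2 f
  apply hl
  have h1 := hB (A l) (by
      rw [Finset.mem_union]; left
      exact Finset.mem_image_of_mem _ (Finset.mem_univ _))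
  have h2 : A l ∩ B = (T l ∩ univ.filter (fun x : ZMod p => (x, l.1 * x + l.2) ∈ dec f)).image
      (fun x => (x, l.1 * x + l.2)) := by
    rw [hf]
    ext q
    simp only [A, Finset.mem_inter, Finset.mem_image, Finset.mem_filter, Finset.mem_univ, true_and]
    constructor
    · rintro ⟨⟨x, hx, rfl⟩, hq⟩
      exact ⟨x, ⟨hx, hq⟩, rfl⟩
    · rintro ⟨x, ⟨hx, hq⟩, rfl⟩
      exact ⟨⟨x, hx, rfl⟩, hq⟩
  rw [h2, Finset.card_image_of_injective _ (hinj l)] at h1
  exact h1

end Pool.Agent.H10Block
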