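import Mathlib

set_option autoImplicit false

/-! The circulant graph `C_18(1,6)`: it is vertex domination-critical with domination number 5 and
minimum degree 4, and deleting the four edges 12, 34, 56, 78 raises the domination number. -/

namespace Pool.Agent.H10Bond

/-- closed neighbourhoods (bit masks) of `C_18(1,6)` -/
def M : List ℕ := [135235,8327,16654,33308,66616,133232,4321,8642,17284,34568,69136,138272,14401,
  28802,57604,115208,230416,198689]

/-- closed neighbourhoods after deleting the four edges -/
def M' : List ℕ := [135235,8323,16652,33292,66608,133168,4289,8386,17156,34568,69136,138272,14401,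
  28802,57604,115208,230416,198689]

def noDom (M : List ℕ) : ℕ → ℕ → Bool
  | 0, cur => (List.range 18).any (fun w => !cur.testBit w)
  | k + 1, cur =>
    match (List.range 18).find? (fun w => !cur.testBit w) with
    | none => false
    | some w => (List.range 18).all
        (fun u => !((M.getD w 0).testBit u) || noDom M k (cur ||| M.getD u 0))

theorem noDom_sound (M : List ℕ) (H : SimpleGraph (Fin 18))
    (hM : ∀ u v : Fin 18, (u = v ∨ H.Adj u v) → (M.getD u.1 0).testBit v.1 = true) :
    ∀ (k cur : ℕ), noDom M k cur = true → ¬ ∃ D : Finset (Fin 18), D.card ≤ k ∧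
      ∀ v : Fin 18, cur.testBit v.1 = false → (v ∈ D ∨ ∃ u ∈ D, H.Adj u v) := by
  intro k
  induction k with
  | zero =>
    rintro cur h ⟨D, hD, hdom⟩
    have hD0 : D = ∅ := by
      rw [← Finset.card_eq_zero]; omega
    subst hD0
    simp only [noDom, List.any_eq_true, List.mem_range] at h
    obtain ⟨w, hw, hb⟩ := h
    have := hdom ⟨w, hw⟩ (by simpa using hb)
    simp at this
  | succ k ih =>
    rintro cur h ⟨D, hD, hdom⟩
    simp only [noDom] at h
    split at h
    · exact absurd h (by simp)
    · rename_i w hfind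
      have hw1 := List.find?_some hfind
      have hw2 := List.mem_of_find?_eq_some hfind
      rw [List.mem_range] at hw2
      have hcw : cur.testBit w = false := by simpa using hw1
      rw [List.all_eq_true] at h
      have hdw := hdom ⟨w, hw2⟩ hcw
      have hex : ∃ u ∈ D, (⟨w, hw2⟩ : Fin 18) = u ∨ H.Adj ⟨w, hw2⟩ u := by
        rcases hdw with h1 | ⟨u, hu, h1⟩
        · exact ⟨_, h1, Or.inl rfl⟩
        · exact ⟨u, hu, Or.inr h1.symm⟩
      obtain ⟨u, hu, huw⟩ := hex
      have hb := hM _ _ huw
      have h2 := h u.1 (List.mem_range.2 u.2)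
      simp only at hb
      rw [hb] at h2
      simp only [Bool.not_true, Bool.false_or] at h2
      apply ih _ h2
      refine ⟨D.erase u, ?_, ?_⟩
      · rw [Finset.card_erase_of_mem hu]; omega
      · intro x hx
        rw [Nat.testBit_or, Bool.or_eq_false_iff] at hx
        have hxu : x ≠ u := by
          rintro rfl
          have := hM x x (Or.inl rfl)
          rw [this] at hx
          exact absurd hx.2 (by simp)
        have hnadj : ¬ H.Adj u x := by
          intro hadj
          have := hM u x (Or.inr hadj)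
          rw [this] at hx
          exact absurd hx.2 (by simp)
        rcases hdom x hx.1 with h1 | ⟨y, hy, h1⟩
        · exact Or.inl (Finset.mem_erase.2 ⟨hxu, h1⟩)
        · refine Or.inr ⟨y, Finset.mem_erase.2 ⟨?_, hy⟩, h1⟩
          rintro rfl
          exact hnadj h1

theorem no4 : noDom M 4 0 = true := by decide +kernel

theorem no5 : noDom M' 5 0 = true := by decide +kernel

theorem Msymm : ∀ u v : Fin 18, (u ≠ v ∧ (M.getD u.1 0).testBit v.1 = true) →
    (v ≠ u ∧ (M.getD v.1 0).testBit u.1 = true) := by decide +kernel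

def G : SimpleGraph (Fin 18) where
  Adj u v := u ≠ v ∧ (M.getD u.1 0).testBit v.1 = true
  symm := ⟨fun u v h => Msymm u v h⟩
  loopless := ⟨fun _ h => h.1 rfl⟩

instance : DecidableRel G.Adj := fun u v =>
  inferInstanceAs (Decidable (u ≠ v ∧ (M.getD u.1 0).testBit v.1 = true))

def E' : Finset (Sym2 (Fin 18)) := {s(3, 4), s(1, 2), s(5, 6), s(7, 8)}

theorem hM_G : ∀ u v : Fin 18, (u = v ∨ G.Adj u v) → (M.getD u.1 0).testBit v.1 = true := by
  have : ∀ u : Fin 18, (M.getD u.1 0).testBit u.1 = true := by decide +kernel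
  rintro u v (rfl | h)
  · exact this u
  · exact h.2

theorem hM_aux : ∀ u v : Fin 18, (u = v ∨ ((u ≠ v ∧ (M.getD u.1 0).testBit v.1 = true) ∧
    s(u, v) ∉ E')) → (M'.getD u.1 0).testBit v.1 = true := by decide +kernel

theorem hM_G' : ∀ u v : Fin 18, (u = v ∨ (G.deleteEdges (↑E' : Set (Sym2 (Fin 18)))).Adj u v) →
    (M'.getD u.1 0).testBit v.1 = true := by
  intro u v h
  apply hM_aux
  rcases h with h | h
  · exact Or.inl h
  · rw [SimpleGraph.deleteEdges_adj] at h
    exact Or.inr ⟨h.1, fun hm => h.2 (Finset.mem_coe.2 hm)⟩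

theorem E'_sub : ∀ e ∈ E', e ∈ G.edgeSet := by
  intro e he
  simp only [E', Finset.mem_insert, Finset.mem_singleton] at he
  rcases he with rfl | rfl | rfl | rfl <;> rw [SimpleGraph.mem_edgeSet] <;> decide +kernel

theorem minDeg : 4 ≤ G.minDegree := by
  apply SimpleGraph.le_minDegree_of_forall_le_degree
  intro v
  have : ∀ v : Fin 18, 4 ≤ (Finset.univ.filter (fun w => G.Adj v w)).card := by decide +kernel
  have h := this v
  rw [← SimpleGraph.card_neighborFinset_eq_degree, SimpleGraph.neighborFinset_eq_filter]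
  exact h

/-- 4-sets dominating everything but `v`. -/
def Dv (v : Fin 18) : Finset (Fin 18) := {v + 3, v + 7, v + 11, v + 15}

theorem Dv_card : ∀ v : Fin 18, (Dv v).card = 4 := by decide +kernel

theorem Dv_dom : ∀ v w : Fin 18, w ≠ v → (w ∈ Dv v ∨ ∃ u ∈ Dv v, G.Adj u w) := by decide +kernel

theorem Dv_not : ∀ v : Fin 18, v ∉ Dv v := by decide +kernel

def D5 : Finset (Fin 18) := {0, 1, 4, 10, 14}

theorem D5_dom : ∀ w : Fin 18, (w ∈ D5 ∨ ∃ u ∈ D5, G.Adj u w) := by decide +kernel

end Pool.Agent.H10Bond
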