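import Mathlib

set_option autoImplicit false
set_option linter.unusedSectionVars false

namespace Pool.Agent.H10Chrom

open Finset

noncomputable section
open Classical

/-! ### Weighted Shearer inequality -/

section Shearer

lemma prod_le_aux {ι : Type} (I : Finset ι) (J : ι → Prop) (w x : ι → ℝ)
    (hw : ∀ i ∈ I, 0 ≤ w i) (hJ : ∑ i ∈ I.filter J, w i = 1)
    (hx : ∀ i ∈ I, 0 ≤ x i) (hx1 : ∀ i ∈ I, x i ≤ 1) :
    ∏ i ∈ I, x i ^ w i ≤ ∑ i ∈ I.filter J, w i * x i := by
  rw [← Finset.prod_filter_mul_prod_filter_not I J]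
  have h1 : ∏ i ∈ I.filter (fun i => ¬ J i), x i ^ w i ≤ 1 := by
    apply Finset.prod_le_one
    · intro i hi
      exact Real.rpow_nonneg (hx i (mem_of_mem_filter i hi)) _
    · intro i hi
      exact Real.rpow_le_one (hx i (mem_of_mem_filter i hi)) (hx1 i (mem_of_mem_filter i hi))
        (hw i (mem_of_mem_filter i hi))
  have h0 : 0 ≤ ∏ i ∈ I.filter J, x i ^ w i := by
    apply Finset.prod_nonneg
    intro i hi
    exact Real.rpow_nonneg (hx i (mem_of_mem_filter i hi)) _
  have h2 : ∏ i ∈ I.filter J, x i ^ w i ≤ ∑ i ∈ I.filter J, w i * x i :=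
    Real.geom_mean_le_arith_mean_weighted (I.filter J) w x
      (fun i hi => hw i (mem_of_mem_filter i hi)) hJ
      (fun i hi => hx i (mem_of_mem_filter i hi))
  calc (∏ i ∈ I.filter J, x i ^ w i) * ∏ i ∈ I.filter (fun i => ¬ J i), x i ^ w i
      ≤ (∏ i ∈ I.filter J, x i ^ w i) * 1 := mul_le_mul_of_nonneg_left h1 h0
    _ = ∏ i ∈ I.filter J, x i ^ w i := mul_one _
    _ ≤ _ := h2

lemma numeric {ι : Type} (I : Finset ι) (J : ι → Prop) (w a b c : ι → ℝ)
    (hw : ∀ i ∈ I, 0 ≤ w i) (hJ : ∑ i ∈ I.filter J, w i = 1)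
    (ha : ∀ i ∈ I, 0 ≤ a i) (hb : ∀ i ∈ I, 0 ≤ b i) (hc : ∀ i ∈ I, 0 < c i)
    (hac : ∀ i ∈ I, a i ≤ c i) (hbc : ∀ i ∈ I, b i ≤ c i)
    (habc : ∀ i ∈ I, J i → a i + b i ≤ c i) :
    ∏ i ∈ I, a i ^ w i + ∏ i ∈ I, b i ^ w i ≤ ∏ i ∈ I, c i ^ w i := by
  have key : ∀ z : ι → ℝ, (∀ i ∈ I, 0 ≤ z i) →
      ∏ i ∈ I, z i ^ w i = (∏ i ∈ I, c i ^ w i) * ∏ i ∈ I, (z i / c i) ^ w i := by
    intro z hz
    rw [← Finset.prod_mul_distrib]
    apply Finset.prod_congr rfl
    intro i hi
    rw [← Real.mul_rpow (hc i hi).le (div_nonneg (hz i hi) (hc i hi).le),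
      mul_div_cancel₀ _ (hc i hi).ne']
  rw [key a ha, key b hb, ← mul_add]
  have hC : 0 ≤ ∏ i ∈ I, c i ^ w i :=
    Finset.prod_nonneg (fun i hi => Real.rpow_nonneg (hc i hi).le _)
  have h1 := prod_le_aux I J w (fun i => a i / c i) hw hJ
    (fun i hi => div_nonneg (ha i hi) (hc i hi).le)
    (fun i hi => by rw [div_le_one (hc i hi)]; exact hac i hi)
  have h2 := prod_le_aux I J w (fun i => b i / c i) hw hJ
    (fun i hi => div_nonneg (hb i hi) (hc i hi).le)
    (fun i hi => by rw [div_le_one (hc i hi)]; exact hbc i hi)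
  have h3 : ∑ i ∈ I.filter J, w i * (a i / c i) + ∑ i ∈ I.filter J, w i * (b i / c i) ≤ 1 := by
    rw [← Finset.sum_add_distrib, ← hJ]
    apply Finset.sum_le_sum
    intro i hi
    have hiI := mem_of_mem_filter i hi
    have hiJ := (mem_filter.1 hi).2
    rw [← mul_add, ← add_div]
    have : (a i + b i) / c i ≤ 1 := by rw [div_le_one (hc i hiI)]; exact habc i hiI hiJ
    calc w i * ((a i + b i) / c i) ≤ w i * 1 := mul_le_mul_of_nonneg_left this (hw i hiI)
      _ = w i := mul_one _
  calc (∏ i ∈ I, c i ^ w i) * (∏ i ∈ I, (a i / c i) ^ w i + ∏ i ∈ I, (b i / c i) ^ w i)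
      ≤ (∏ i ∈ I, c i ^ w i) * 1 := by
        apply mul_le_mul_of_nonneg_left _ hC
        linarith
    _ = _ := mul_one _

variable {E : Type} [DecidableEq E]

def tr (F : Finset (Finset E)) (S : Finset E) : Finset (Finset E) := F.image (fun A => A ∩ S)

lemma tr_member_add (e : E) (F : Finset (Finset E)) (S : Finset E) (he : e ∈ S) :
    (tr (F.memberSubfamily e) S).card + (tr (F.nonMemberSubfamily e) S).card ≤ (tr F S).card := by
  rw [← card_memberSubfamily_add_card_nonMemberSubfamily e (tr F S)]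
  apply Nat.add_le_add
  · apply Finset.card_le_card
    intro B hB
    simp only [tr, mem_image, mem_memberSubfamily] at hB ⊢
    obtain ⟨A, ⟨hA, heA⟩, rfl⟩ := hB
    refine ⟨⟨insert e A, hA, ?_⟩, ?_⟩
    · rw [Finset.insert_inter_of_mem he]
    · intro h
      exact heA (mem_of_mem_inter_left h)
  · apply Finset.card_le_card
    intro B hB
    simp only [tr, mem_image, mem_nonMemberSubfamily] at hB ⊢
    obtain ⟨A, ⟨hA, heA⟩, rfl⟩ := hB
    refine ⟨⟨A, hA, rfl⟩, ?_⟩
    intro h
    exact heA (mem_of_mem_inter_left h)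

lemma tr_member_le (e : E) (F : Finset (Finset E)) (S : Finset E) :
    (tr (F.memberSubfamily e) S).card ≤ (tr F S).card := by
  by_cases he : e ∈ S
  · have := tr_member_add e F S he
    omega
  · apply Finset.card_le_card
    intro B hB
    simp only [tr, mem_image, mem_memberSubfamily] at hB ⊢
    obtain ⟨A, ⟨hA, heA⟩, rfl⟩ := hB
    exact ⟨insert e A, hA, by rw [Finset.insert_inter_of_notMem he]⟩

lemma tr_nonmember_le (e : E) (F : Finset (Finset E)) (S : Finset E) :
    (tr (F.nonMemberSubfamily e) S).card ≤ (tr F S).card := by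
  apply Finset.card_le_card
  intro B hB
  simp only [tr, mem_image, mem_nonMemberSubfamily] at hB ⊢
  obtain ⟨A, ⟨hA, heA⟩, rfl⟩ := hB
  exact ⟨A, hA, rfl⟩

theorem shearer {ι : Type} (I : Finset ι) (S : ι → Finset E) (w : ι → ℝ)
    (hw : ∀ i ∈ I, 0 ≤ w i) (U : Finset E) :
    (∀ e ∈ U, ∑ i ∈ I.filter (fun i => e ∈ S i), w i = 1) →
    ∀ F : Finset (Finset E), (∀ A ∈ F, A ⊆ U) →
      (F.card : ℝ) ≤ ∏ i ∈ I, ((tr F (S i)).card : ℝ) ^ w i := by
  induction U using Finset.induction_on with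
  | empty =>
    intro _ F hF
    by_cases hne : F.Nonempty
    · have hF1 : F = {∅} := by
        ext A
        constructor
        · intro hA
          simpa using hF A hA
        · intro hA
          obtain ⟨B, hB⟩ := hne
          have h1 : B = ∅ := by simpa using hF B hB
          rw [mem_singleton] at hA
          rw [hA, ← h1]; exact hB
      subst hF1
      have : ∀ i ∈ I, ((tr ({∅} : Finset (Finset E)) (S i)).card : ℝ) ^ w i = 1 := by
        intro i _
        simp [tr]
      rw [Finset.prod_congr rfl this]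
      simp
    · rw [not_nonempty_iff_eq_empty] at hne
      subst hne
      simp only [card_empty, Nat.cast_zero]
      apply Finset.prod_nonneg
      intro i _
      exact Real.rpow_nonneg (Nat.cast_nonneg _) _
  | insert e U' heU ih =>
    intro hcov F hF
    by_cases hne : F.Nonempty
    swap
    · rw [not_nonempty_iff_eq_empty] at hne
      subst hne
      simp only [card_empty, Nat.cast_zero]
      apply Finset.prod_nonneg
      intro i _
      exact Real.rpow_nonneg (Nat.cast_nonneg _) _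
    have ih' := ih (fun e' he' => hcov e' (mem_insert_of_mem he'))
    have h1 := ih' (F.memberSubfamily e) (by
      intro A hA
      rw [mem_memberSubfamily] at hA
      have := hF _ hA.1
      intro x hx
      have hx2 := this (mem_insert_of_mem hx)
      rw [mem_insert] at hx2
      rcases hx2 with rfl | hx2
      · exact absurd hx hA.2
      · exact hx2)
    have h0 := ih' (F.nonMemberSubfamily e) (by
      intro A hA
      rw [mem_nonMemberSubfamily] at hA
      have := hF _ hA.1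
      intro x hx
      have hx2 := this hx
      rw [mem_insert] at hx2
      rcases hx2 with rfl | hx2
      · exact absurd hx hA.2
      · exact hx2)
    rw [← card_memberSubfamily_add_card_nonMemberSubfamily e F]
    push_cast
    refine (add_le_add h1 h0).trans ?_
    apply numeric I (fun i => e ∈ S i) w _ _ _ hw (by convert hcov e (mem_insert_self _ _))
    · intro i _; exact Nat.cast_nonneg _
    · intro i _; exact Nat.cast_nonneg _
    · intro i _
      rw [Nat.cast_pos, Finset.card_pos]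
      exact hne.image _
    · intro i _; exact_mod_cast tr_member_le e F (S i)
    · intro i _; exact_mod_cast tr_nonmember_le e F (S i)
    · intro i _ hi; exact_mod_cast tr_member_add e F (S i) hi

end Shearer

/-! ### The single factor inequality -/

section Single

variable {α : Type}

lemma sum_sqrt (X : Finset α) (f : α → ℝ) (B : ℝ) :
    (∀ x ∈ X, 0 ≤ f x) →
    (∀ x ∈ X, f x * Real.sqrt ((X.filter (fun y => f x ≤ f y)).card : ℝ) ≤ B) →
    0 ≤ B → ∑ x ∈ X, f x ≤ 2 * B * Real.sqrt (X.card : ℝ) := by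
  induction X using Finset.induction_on_min_value f with
  | empty =>
    intro _ _ _
    simp
  | insert a s has hmin ih =>
    intro hf hB hB0
    have ih' := ih (fun x hx => hf x (mem_insert_of_mem hx)) (by
      intro x hx
      refine le_trans ?_ (hB x (mem_insert_of_mem hx))
      apply mul_le_mul_of_nonneg_left _ (hf x (mem_insert_of_mem hx))
      apply Real.sqrt_le_sqrt
      have : (s.filter (fun y => f x ≤ f y)).card ≤ ((insert a s).filter (fun y => f x ≤ f y)).card := by
        apply card_le_card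
        apply filter_subset_filter
        exact subset_insert _ _
      exact_mod_cast this) hB0
    have ha := hB a (mem_insert_self _ _)
    have hall : (insert a s).filter (fun y => f a ≤ f y) = insert a s := by
      apply filter_true_of_mem
      intro y hy
      rw [mem_insert] at hy
      rcases hy with rfl | hy
      · exact le_refl _
      · exact hmin y hy
    rw [hall] at ha
    rw [sum_insert has]
    have hcard : ((insert a s).card : ℝ) = (s.card : ℝ) + 1 := by
      rw [card_insert_of_notMem has]; push_cast; ring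
    rw [hcard] at ha ⊢
    set n : ℝ := (s.card : ℝ) with hn
    have hn0 : 0 ≤ n := Nat.cast_nonneg _
    have hs1 : 0 < Real.sqrt (n + 1) := Real.sqrt_pos.2 (by linarith)
    have hfa : f a ≤ B / Real.sqrt (n + 1) := by
      rw [le_div_iff₀ hs1]; exact ha
    have hsq1 : Real.sqrt (n + 1) * Real.sqrt (n + 1) = n + 1 := Real.mul_self_sqrt (by linarith)
    have hsq0 : Real.sqrt n * Real.sqrt n = n := Real.mul_self_sqrt hn0
    have hkey : 1 / Real.sqrt (n + 1) + 2 * Real.sqrt n ≤ 2 * Real.sqrt (n + 1) := by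
      rw [div_add' _ _ _ hs1.ne', div_le_iff₀ hs1]
      nlinarith [sq_nonneg (Real.sqrt (n + 1) - Real.sqrt n)]
    have hle : B * (1 / Real.sqrt (n + 1) + 2 * Real.sqrt n) ≤ B * (2 * Real.sqrt (n + 1)) :=
      mul_le_mul_of_nonneg_left hkey hB0
    calc f a + ∑ x ∈ s, f x ≤ B / Real.sqrt (n + 1) + 2 * B * Real.sqrt n := add_le_add hfa ih'
      _ = B * (1 / Real.sqrt (n + 1) + 2 * Real.sqrt n) := by ring
      _ ≤ B * (2 * Real.sqrt (n + 1)) := hle
      _ = 2 * B * Real.sqrt (n + 1) := by ring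

lemma exists_level (m N : ℕ) (hm : 0 < m) (hmN : m ≤ N) :
    ∃ j : ℕ, m * 4 ^ j ≤ N ∧ N < m * 4 ^ (j + 1) := by
  have hex : ∃ j : ℕ, N < m * 4 ^ j := by
    refine ⟨N, ?_⟩
    calc N < 4 ^ N := Nat.lt_pow_self (by norm_num)
      _ = 1 * 4 ^ N := (one_mul _).symm
      _ ≤ m * 4 ^ N := Nat.mul_le_mul_right _ hm
  have h0 := Nat.find_spec hex
  have hne : Nat.find hex ≠ 0 := by
    intro h
    rw [h] at h0
    simp at h0
    omega
  obtain ⟨j, hj⟩ := Nat.exists_eq_succ_of_ne_zero hne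
  refine ⟨j, ?_, ?_⟩
  · have := Nat.find_min hex (m := j) (by omega)
    omega
  · rw [hj] at h0; exact h0

theorem single (X : Finset α) (h : α → α → ℕ)
    (hyp : ∀ j : ℕ, ∀ P Q : Finset α, P ⊆ X → Q ⊆ X → (∀ x ∈ P, ∀ y ∈ Q, j < h x y) →
      P.card * Q.card * 4 ^ j ≤ X.card ^ 2)
    (f g : α → ℝ) (C : ℝ) (hf : ∀ x ∈ X, 0 ≤ f x) (hg : ∀ x ∈ X, 0 ≤ g x) (hC : 0 ≤ C)
    (hfg : ∀ x ∈ X, ∀ y ∈ X, f x * g y ≤ C * 2 ^ (h x y)) :
    (∑ x ∈ X, f x) * (∑ y ∈ X, g y) ≤ 8 * C * (X.card : ℝ) ^ 2 := by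
  by_cases hne : X.Nonempty
  swap
  · rw [not_nonempty_iff_eq_empty] at hne
    subst hne
    simp
  obtain ⟨x, hx, hxm⟩ := exists_max_image X
    (fun x => f x * Real.sqrt ((X.filter (fun y => f x ≤ f y)).card : ℝ)) hne
  obtain ⟨y, hy, hym⟩ := exists_max_image X
    (fun x => g x * Real.sqrt ((X.filter (fun y => g x ≤ g y)).card : ℝ)) hne
  set P := X.filter (fun z => f x ≤ f z) with hP
  set Q := X.filter (fun z => g y ≤ g z) with hQ
  set N : ℝ := (X.card : ℝ) with hN
  have hN0 : 0 ≤ N := Nat.cast_nonneg _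
  have hB1 : 0 ≤ f x * Real.sqrt (P.card : ℝ) := mul_nonneg (hf x hx) (Real.sqrt_nonneg _)
  have hB2 : 0 ≤ g y * Real.sqrt (Q.card : ℝ) := mul_nonneg (hg y hy) (Real.sqrt_nonneg _)
  have h1 := sum_sqrt X f _ hf hxm hB1
  have h2 := sum_sqrt X g _ hg hym hB2
  have hxP : x ∈ P := by rw [hP, mem_filter]; exact ⟨hx, le_refl _⟩
  have hyQ : y ∈ Q := by rw [hQ, mem_filter]; exact ⟨hy, le_refl _⟩
  have hPX : P ⊆ X := filter_subset _ _
  have hQX : Q ⊆ X := filter_subset _ _
  have hPQpos : 0 < P.card * Q.card := Nat.mul_pos (card_pos.2 ⟨x, hxP⟩) (card_pos.2 ⟨y, hyQ⟩)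
  have hPQle : P.card * Q.card ≤ X.card ^ 2 := by
    rw [sq]; exact Nat.mul_le_mul (card_le_card hPX) (card_le_card hQX)
  obtain ⟨j, hj1, hj2⟩ := exists_level _ _ hPQpos hPQle
  have hnot : ¬ (∀ x ∈ P, ∀ y ∈ Q, j + 1 < h x y) := by
    intro hall
    have := hyp (j + 1) P Q hPX hQX hall
    omega
  push Not at hnot
  obtain ⟨x', hx', y', hy', hh⟩ := hnot
  have hfx' : f x ≤ f x' := (mem_filter.1 hx').2
  have hgy' : g y ≤ g y' := (mem_filter.1 hy').2
  have hprod : f x * g y ≤ C * 2 ^ (j + 1) := by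
    calc f x * g y ≤ f x' * g y' := mul_le_mul hfx' hgy' (hg y hy) (hf x' (hPX hx'))
      _ ≤ C * 2 ^ (h x' y') := hfg x' (hPX hx') y' (hQX hy')
      _ ≤ C * 2 ^ (j + 1) := by
        apply mul_le_mul_of_nonneg_left _ hC
        exact pow_le_pow_right₀ (by norm_num) hh
  have hsqrt : Real.sqrt (P.card : ℝ) * Real.sqrt (Q.card : ℝ) * 2 ^ j ≤ N := by
    have h3 : ((P.card : ℝ) * (Q.card : ℝ)) * 4 ^ j ≤ N ^ 2 := by
      rw [hN]; exact_mod_cast hj1
    rw [← Real.sqrt_mul (Nat.cast_nonneg _)]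
    have h4 : (2 : ℝ) ^ j = Real.sqrt (4 ^ j) := by
      rw [show (4 : ℝ) ^ j = (2 ^ j) ^ 2 by rw [← pow_mul, mul_comm, pow_mul]; norm_num]
      rw [Real.sqrt_sq (by positivity)]
    rw [h4, ← Real.sqrt_mul (by positivity)]
    calc Real.sqrt ((P.card : ℝ) * (Q.card : ℝ) * 4 ^ j) ≤ Real.sqrt (N ^ 2) := Real.sqrt_le_sqrt h3
      _ = N := Real.sqrt_sq hN0
  have hBB : (f x * Real.sqrt (P.card : ℝ)) * (g y * Real.sqrt (Q.card : ℝ)) ≤ 2 * C * N := by
    calc (f x * Real.sqrt (P.card : ℝ)) * (g y * Real.sqrt (Q.card : ℝ))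
        = (f x * g y) * (Real.sqrt (P.card : ℝ) * Real.sqrt (Q.card : ℝ)) := by ring
      _ ≤ (C * 2 ^ (j + 1)) * (Real.sqrt (P.card : ℝ) * Real.sqrt (Q.card : ℝ)) := by
        apply mul_le_mul_of_nonneg_right hprod (by positivity)
      _ = 2 * C * (Real.sqrt (P.card : ℝ) * Real.sqrt (Q.card : ℝ) * 2 ^ j) := by ring
      _ ≤ 2 * C * N := mul_le_mul_of_nonneg_left hsqrt (by positivity)
  have hsumf : 0 ≤ ∑ y ∈ X, g y := sum_nonneg hg
  have hNN : Real.sqrt N * Real.sqrt N = N := Real.mul_self_sqrt hN0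
  calc (∑ x ∈ X, f x) * (∑ y ∈ X, g y)
      ≤ (2 * (f x * Real.sqrt (P.card : ℝ)) * Real.sqrt N) *
        (2 * (g y * Real.sqrt (Q.card : ℝ)) * Real.sqrt N) := by
        apply mul_le_mul h1 h2 hsumf (by positivity)
    _ = 4 * ((f x * Real.sqrt (P.card : ℝ)) * (g y * Real.sqrt (Q.card : ℝ))) *
        (Real.sqrt N * Real.sqrt N) := by ring
    _ = 4 * ((f x * Real.sqrt (P.card : ℝ)) * (g y * Real.sqrt (Q.card : ℝ))) * N := by rw [hNN]
    _ ≤ 4 * (2 * C * N) * N := by
        apply mul_le_mul_of_nonneg_right _ hN0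
        exact mul_le_mul_of_nonneg_left hBB (by norm_num)
    _ = 8 * C * N ^ 2 := by ring

end Single

/-! ### Tensorisation -/

section Tens

variable {E : Type} [DecidableEq E]

lemma sum_powerset_union' (U W : Finset E) (hUW : Disjoint U W) (f : Finset E → ℝ) :
    ∑ A ∈ (U ∪ W).powerset, f A = ∑ A ∈ U.powerset, ∑ B ∈ W.powerset, f (A ∪ B) := by
  rw [← Finset.sum_product']
  symm
  apply Finset.sum_nbij' (fun p => p.1 ∪ p.2) (fun A => (A ∩ U, A ∩ W))
  · intro p hp
    rw [mem_product, mem_powerset, mem_powerset] at hp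
    rw [mem_powerset]
    exact union_subset_union hp.1 hp.2
  · intro A _
    rw [mem_product, mem_powerset, mem_powerset]
    exact ⟨inter_subset_right, inter_subset_right⟩
  · intro p hp
    rw [mem_product, mem_powerset, mem_powerset] at hp
    have hd := Finset.disjoint_left.1 hUW
    apply Prod.ext
    · ext x
      simp only [mem_inter, mem_union]
      constructor
      · rintro ⟨h1 | h1, h2⟩
        · exact h1
        · exact absurd (hp.2 h1) (hd h2)
      · intro h1
        exact ⟨Or.inl h1, hp.1 h1⟩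
    · ext x
      simp only [mem_inter, mem_union]
      constructor
      · rintro ⟨h1 | h1, h2⟩
        · exact absurd h2 (hd (hp.1 h1))
        · exact h1
      · intro h1
        exact ⟨Or.inr h1, hp.2 h1⟩
  · intro A hA
    rw [mem_powerset] at hA
    rw [← inter_union_distrib_left]
    exact inter_eq_left.2 hA
  · intro p _
    rfl

def SF (U : Finset E) (h : Finset E → ℕ) : Prop :=
  ∀ f g : Finset E → ℝ, (∀ A, 0 ≤ f A) → (∀ A, 0 ≤ g A) → ∀ C : ℝ, 0 ≤ C →
    (∀ A, A ⊆ U → ∀ B, B ⊆ U → f A * g B ≤ C * 2 ^ (h (A ∩ B))) →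
    (∑ A ∈ U.powerset, f A) * (∑ B ∈ U.powerset, g B) ≤ 8 * C * 4 ^ U.card

theorem tens {ι : Type} [DecidableEq ι] (I : Finset ι) (U : ι → Finset E)
    (h : ι → Finset E → ℕ) (hdisj : ∀ i ∈ I, ∀ j ∈ I, i ≠ j → Disjoint (U i) (U j))
    (hSF : ∀ i ∈ I, SF (U i) (h i)) :
    ∀ f g : Finset E → ℝ, (∀ A, 0 ≤ f A) → (∀ A, 0 ≤ g A) → ∀ C : ℝ, 0 ≤ C →
    (∀ A, A ⊆ I.biUnion U → ∀ B, B ⊆ I.biUnion U →
      f A * g B ≤ C * 2 ^ (∑ i ∈ I, h i (A ∩ B ∩ U i))) →
    (∑ A ∈ (I.biUnion U).powerset, f A) * (∑ B ∈ (I.biUnion U).powerset, g B) ≤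
      8 ^ I.card * C * 4 ^ (I.biUnion U).card := by
  induction I using Finset.induction_on with
  | empty =>
    intro f g hf hg C hC hfg
    have := hfg ∅ (by simp) ∅ (by simp)
    simpa using this
  | insert i I' hi ih =>
    intro f g hf hg C hC hfg
    have ih' := ih (fun a ha b hb => hdisj a (mem_insert_of_mem ha) b (mem_insert_of_mem hb))
      (fun a ha => hSF a (mem_insert_of_mem ha))
    have hSFi := hSF i (mem_insert_self _ _)
    have hdU : Disjoint (U i) (I'.biUnion U) := by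
      rw [Finset.disjoint_biUnion_right]
      intro j hj
      apply hdisj i (mem_insert_self _ _) j (mem_insert_of_mem hj)
      rintro rfl
      exact hi hj
    rw [biUnion_insert] at hfg ⊢
    rw [sum_powerset_union' _ _ hdU, sum_powerset_union' _ _ hdU]
    have hcard : (U i ∪ I'.biUnion U).card = (U i).card + (I'.biUnion U).card :=
      card_union_of_disjoint hdU
    rw [hcard, card_insert_of_notMem hi]
    have hd := Finset.disjoint_left.1 hdU
    have := hSFi (fun A => ∑ A' ∈ (I'.biUnion U).powerset, f (A ∪ A'))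
      (fun B => ∑ B' ∈ (I'.biUnion U).powerset, g (B ∪ B'))
      (fun A => sum_nonneg (fun _ _ => hf _)) (fun A => sum_nonneg (fun _ _ => hg _))
      (8 ^ I'.card * C * 4 ^ (I'.biUnion U).card) (by positivity) ?_
    · refine this.trans (le_of_eq ?_)
      rw [pow_add, pow_add]; ring
    · intro A hA B hB
      have h2 := ih' (fun A' => f (A ∪ A')) (fun B' => g (B ∪ B')) (fun _ => hf _) (fun _ => hg _)
        (C * 2 ^ (h i (A ∩ B))) (by positivity) ?_
      · refine h2.trans (le_of_eq ?_)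
        ring
      · intro A' hA' B' hB'
        have h3 := hfg (A ∪ A') (union_subset_union hA hA') (B ∪ B') (union_subset_union hB hB')
        refine h3.trans (le_of_eq ?_)
        rw [sum_insert hi, pow_add, mul_assoc]
        have e1 : (A ∪ A') ∩ (B ∪ B') ∩ U i = A ∩ B := by
          ext x
          simp only [mem_inter, mem_union]
          constructor
          · rintro ⟨⟨h1 | h1, h2 | h2⟩, h3⟩
            · exact ⟨h1, h2⟩
            · exact absurd (hB' h2) (hd h3)
            · exact absurd (hA' h1) (hd h3)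
            · exact absurd (hA' h1) (hd h3)
          · rintro ⟨h1, h2⟩
            exact ⟨⟨Or.inl h1, Or.inl h2⟩, hA h1⟩
        have e2 : ∀ j ∈ I', (A ∪ A') ∩ (B ∪ B') ∩ U j = A' ∩ B' ∩ U j := by
          intro j hj
          ext x
          simp only [mem_inter, mem_union]
          have hx : x ∈ U j → x ∈ I'.biUnion U := fun hx => mem_biUnion.2 ⟨j, hj, hx⟩
          constructor
          · rintro ⟨⟨h1 | h1, h2 | h2⟩, h3⟩
            · exact absurd (hx h3) (hd (hA h1))
            · exact absurd (hx h3) (hd (hA h1))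
            · exact absurd (hx h3) (hd (hB h2))
            · exact ⟨⟨h1, h2⟩, h3⟩
          · rintro ⟨⟨h1, h2⟩, h3⟩
            exact ⟨⟨Or.inr h1, Or.inr h2⟩, h3⟩
        rw [e1]
        rw [Finset.sum_congr rfl (fun j hj => by rw [e2 j hj])]

end Tens

/-! ### Intersecting families -/

section Inter

variable {E : Type} [DecidableEq E]

lemma inter_card (U : Finset E) (P Q : Finset (Finset E)) (hP : ∀ A ∈ P, A ⊆ U)
    (hQ : ∀ A ∈ Q, A ⊆ U) (h : ∀ A ∈ P, ∀ B ∈ Q, (A ∩ B).Nonempty) :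
    (P.card : ℝ) * (Q.card : ℝ) ≤ (1 / 4) * 4 ^ U.card := by
  have h1 : P.card + Q.card ≤ 2 ^ U.card := by
    have hQ' : (Q.image (fun B => U \ B)).card = Q.card := by
      apply card_image_of_injOn
      intro B hB B' hB' hBB
      simp only at hBB
      have e1 : U \ (U \ B) = B := by
        rw [Finset.sdiff_sdiff_eq_self (hQ B hB)]
      have e2 : U \ (U \ B') = B' := by
        rw [Finset.sdiff_sdiff_eq_self (hQ B' hB')]
      rw [← e1, ← e2, hBB]
    rw [← hQ', ← card_powerset]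
    have hd : Disjoint P (Q.image (fun B => U \ B)) := by
      rw [Finset.disjoint_left]
      intro A hA hA'
      rw [mem_image] at hA'
      obtain ⟨B, hB, rfl⟩ := hA'
      obtain ⟨x, hx⟩ := h _ hA B hB
      rw [mem_inter, mem_sdiff] at hx
      exact hx.1.2 hx.2
    rw [← card_union_of_disjoint hd]
    apply card_le_card
    intro A hA
    rw [mem_union, mem_image] at hA
    rw [mem_powerset]
    rcases hA with hA | ⟨B, _, rfl⟩
    · exact hP A hA
    · exact sdiff_subset
  have h2 : (P.card : ℝ) + (Q.card : ℝ) ≤ 2 ^ U.card := by exact_mod_cast h1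
  have h3 : (4 : ℝ) ^ U.card = (2 ^ U.card) * (2 ^ U.card) := by
    rw [← mul_pow]; norm_num
  rw [h3]
  have hp : (0 : ℝ) ≤ P.card := Nat.cast_nonneg _
  have hq : (0 : ℝ) ≤ Q.card := Nat.cast_nonneg _
  nlinarith [sq_nonneg ((P.card : ℝ) - Q.card), mul_le_mul h2 h2 (by positivity) (by positivity)]

end Inter

/-! ### Graphs -/

section Graph

variable {V : Type} [Fintype V] [DecidableEq V]

def K (W : Finset V) : Finset (Sym2 V) := univ.filter (fun e => ¬ e.IsDiag ∧ ∀ v ∈ e, v ∈ W)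

lemma mem_K {W : Finset V} {u v : V} : s(u, v) ∈ K W ↔ u ≠ v ∧ u ∈ W ∧ v ∈ W := by
  simp [K]

lemma K_not_diag {W : Finset V} {e : Sym2 V} (he : e ∈ K W) : ¬ e.IsDiag := by
  simp only [K, mem_filter] at he
  exact he.2.1

def S {s : ℕ} (κ : V → Fin s) : Finset (Sym2 V) := univ.filter (fun e => (e.map κ).IsDiag)

lemma mem_S {s : ℕ} {κ : V → Fin s} {u v : V} : s(u, v) ∈ S κ ↔ κ u = κ v := by
  simp [S]

lemma count_mono {s : ℕ} (u v : V) (huv : u ≠ v) :
    (univ.filter (fun κ : V → Fin s => κ u = κ v)).card * s = s ^ (Fintype.card V) := by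
  have h1 : (univ : Finset (V → Fin s)).card = s ^ Fintype.card V := by simp
  have h2 : ((univ.filter (fun κ : V → Fin s => κ u = κ v)) ×ˢ (univ : Finset (Fin s))).card =
      (univ.filter (fun κ : V → Fin s => κ u = κ v)).card * s := by
    rw [card_product]; simp
  rw [← h1, ← h2]
  apply Finset.card_nbij' (fun p => Function.update p.1 u p.2)
    (fun κ => (Function.update κ u (κ v), κ u))
  · intro p _
    simp
  · intro κ _
    simp [huv.symm]
  · intro p hp
    have hp1 : p.1 u = p.1 v := by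
      have := hp
      simp only [coe_product, Set.mem_prod, mem_coe, mem_filter, mem_univ, true_and, and_true] at this
      exact this
    apply Prod.ext
    · funext x
      by_cases hx : x = u
      · subst hx
        simp [Function.update_of_ne huv.symm, hp1]
      · simp [hx]
    · simp
  · intro κ _
    funext x
    by_cases hx : x = u
    · subst hx; simp
    · simp [hx]

def Col (W : Finset V) (k : ℕ) (A : Finset (Sym2 V)) : Prop :=
  ∃ c : {v // v ∈ W} → Fin k, ∀ u v : {v // v ∈ W}, s(u.1, v.1) ∈ A → c u ≠ c v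

def chi (W : Finset V) (A : Finset (Sym2 V)) : ℕ := sInf {k | Col W k A}

lemma col_mono {W : Finset V} {k k' : ℕ} {A : Finset (Sym2 V)} (h : k ≤ k') (hc : Col W k A) :
    Col W k' A := by
  obtain ⟨c, hc⟩ := hc
  refine ⟨fun v => Fin.castLE h (c v), fun u v huv heq => hc u v huv ?_⟩
  exact Fin.castLE_injective h heq

lemma col_card (W : Finset V) (A : Finset (Sym2 V)) (hA : ∀ e ∈ A, ¬ e.IsDiag) :
    Col W W.card A := by
  refine ⟨fun v => W.equivFin v, fun u v huv heq => ?_⟩
  have : u = v := W.equivFin.injective heq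
  subst this
  exact hA _ huv (by simp)

lemma col_chi (W : Finset V) (A : Finset (Sym2 V)) (hA : ∀ e ∈ A, ¬ e.IsDiag) :
    Col W (chi W A) A :=
  Nat.sInf_mem (s := {k | Col W k A}) ⟨_, col_card W A hA⟩

lemma not_col_of_lt {W : Finset V} {k : ℕ} {A : Finset (Sym2 V)} (h : k < chi W A) :
    ¬ Col W k A := Nat.notMem_of_lt_sInf h

lemma col_glue {s : ℕ} (κ : V → Fin s) (A : Finset (Sym2 V)) (hA : ∀ e ∈ A, ¬ e.IsDiag)
    (k : Fin s → ℕ)
    (hcol : ∀ i, Col (univ.filter (fun v => κ v = i)) (k i)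
      (A ∩ K (univ.filter (fun v => κ v = i)))) :
    Col univ (∑ i, k i) A := by
  choose c hc using hcol
  let mk : ∀ v : V, {x // x ∈ univ.filter (fun x => κ x = κ v)} := fun v => ⟨v, by simp⟩
  refine ⟨fun v => finSigmaFinEquiv ⟨κ v.1, c (κ v.1) (mk v.1)⟩, ?_⟩
  rintro ⟨u, hu⟩ ⟨v, hv⟩ huv heq
  simp only at huv heq
  have h1 := finSigmaFinEquiv.injective heq
  have huv' : u ≠ v := by
    rintro rfl
    exact hA _ huv (by simp)
  have gen : ∀ (i j : Fin s) (hu : u ∈ univ.filter (fun x => κ x = i))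
      (hv : v ∈ univ.filter (fun x => κ x = j)),
      (⟨i, c i ⟨u, hu⟩⟩ : Σ i : Fin s, Fin (k i)) = ⟨j, c j ⟨v, hv⟩⟩ → False := by
    intro i j hu hv h
    have hij : i = j := congrArg Sigma.fst h
    subst hij
    have h2 : c i ⟨u, hu⟩ = c i ⟨v, hv⟩ := by simpa using h
    refine hc i ⟨u, hu⟩ ⟨v, hv⟩ ?_ h2
    rw [mem_inter, mem_K]
    exact ⟨huv, huv', hu, hv⟩
  exact gen (κ u) (κ v) (by simp) (by simp) h1

theorem shcol (W : Finset V) (s : ℕ) (hs : 0 < s) (δ : ℝ) (hδ : 0 ≤ δ)
    (P Q : Finset (Finset (Sym2 V))) (hP : ∀ A ∈ P, A ⊆ K W) (hQ : ∀ A ∈ Q, A ⊆ K W)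
    (hκ : ∀ κ : V → Fin s, ((tr P (S κ)).card : ℝ) * ((tr Q (S κ)).card : ℝ) ≤
      δ * 4 ^ (K W ∩ S κ).card) :
    (P.card : ℝ) * (Q.card : ℝ) ≤ δ ^ s * 4 ^ (K W).card := by
  set w : ℝ := (s : ℝ) / (s : ℝ) ^ (Fintype.card V) with hw
  have hs' : (0 : ℝ) < (s : ℝ) := by exact_mod_cast hs
  have hspow : (0 : ℝ) < (s : ℝ) ^ (Fintype.card V) := by positivity
  have hw0 : 0 ≤ w := by positivity
  have hcount : ∀ e ∈ K W,
      ((univ.filter (fun κ : V → Fin s => e ∈ S κ)).card : ℝ) * w = 1 := by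
    intro e he
    induction e using Sym2.ind with
    | _ u v =>
      rw [mem_K] at he
      have h1 : (univ.filter (fun κ : V → Fin s => s(u, v) ∈ S κ)) =
          (univ.filter (fun κ : V → Fin s => κ u = κ v)) := by
        apply filter_congr
        intro κ _
        exact mem_S
      rw [h1]
      have h2 := count_mono (s := s) u v he.1
      have h3 : ((univ.filter (fun κ : V → Fin s => κ u = κ v)).card : ℝ) * (s : ℝ) =
          (s : ℝ) ^ (Fintype.card V) := by exact_mod_cast h2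
      rw [hw, ← mul_div_assoc, h3]
      exact div_self hspow.ne'
  have hcov : ∀ e ∈ K W, ∑ κ ∈ (univ : Finset (V → Fin s)).filter (fun κ => e ∈ S κ), w = 1 := by
    intro e he
    rw [sum_const, nsmul_eq_mul]
    exact hcount e he
  have hSP := shearer (univ : Finset (V → Fin s)) S (fun _ => w) (fun _ _ => hw0) (K W) hcov P hP
  have hSQ := shearer (univ : Finset (V → Fin s)) S (fun _ => w) (fun _ _ => hw0) (K W) hcov Q hQ
  rw [Real.finsetProd_rpow _ _ (fun _ _ => Nat.cast_nonneg _)] at hSP hSQ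
  have hprodP : 0 ≤ ∏ κ : V → Fin s, ((tr P (S κ)).card : ℝ) := prod_nonneg (fun _ _ => Nat.cast_nonneg _)
  have hprodQ : 0 ≤ ∏ κ : V → Fin s, ((tr Q (S κ)).card : ℝ) := prod_nonneg (fun _ _ => Nat.cast_nonneg _)
  have hsum : (∑ κ : V → Fin s, ((K W ∩ S κ).card : ℝ)) * w = ((K W).card : ℝ) := by
    have h1 : ∀ κ : V → Fin s, ((K W ∩ S κ).card : ℝ) = ∑ e ∈ K W, if e ∈ S κ then (1 : ℝ) else 0 := by
      intro κ
      rw [← filter_mem_eq_inter, card_filter]
      push_cast
      rfl
    rw [Finset.sum_congr rfl (fun κ _ => h1 κ), Finset.sum_comm, Finset.sum_mul]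
    have h2 : ∀ e ∈ K W, (∑ κ : V → Fin s, if e ∈ S κ then (1 : ℝ) else 0) * w = 1 := by
      intro e he
      have h3 := hcount e he
      rw [card_filter] at h3
      push_cast at h3
      exact h3
    rw [Finset.sum_congr rfl h2]
    simp
  have hN : ((univ : Finset (V → Fin s)).card : ℝ) * w = s := by
    have : ((univ : Finset (V → Fin s)).card : ℝ) = (s : ℝ) ^ (Fintype.card V) := by
      simp
    rw [this, hw, mul_div_assoc', mul_div_right_comm, div_self hspow.ne', one_mul]
  calc (P.card : ℝ) * (Q.card : ℝ)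
      ≤ (∏ κ : V → Fin s, ((tr P (S κ)).card : ℝ)) ^ w *
        (∏ κ : V → Fin s, ((tr Q (S κ)).card : ℝ)) ^ w :=
        mul_le_mul hSP hSQ (Nat.cast_nonneg _) (Real.rpow_nonneg hprodP _)
    _ = (∏ κ : V → Fin s, (((tr P (S κ)).card : ℝ) * ((tr Q (S κ)).card : ℝ))) ^ w := by
        rw [← Real.mul_rpow hprodP hprodQ, Finset.prod_mul_distrib]
    _ ≤ (∏ κ : V → Fin s, (δ * 4 ^ (K W ∩ S κ).card)) ^ w := by
        apply Real.rpow_le_rpow
        · apply prod_nonneg
          intro κ _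
          positivity
        · apply prod_le_prod
          · intro κ _
            positivity
          · intro κ _
            exact hκ κ
        · exact hw0
    _ = (δ ^ (univ : Finset (V → Fin s)).card * 4 ^ (∑ κ : V → Fin s, (K W ∩ S κ).card)) ^ w := by
        rw [Finset.prod_mul_distrib, Finset.prod_const, Finset.prod_pow_eq_pow_sum]
    _ = δ ^ s * 4 ^ (K W).card := by
        rw [Real.mul_rpow (by positivity) (by positivity)]
        congr 1
        · rw [← Real.rpow_natCast, ← Real.rpow_mul hδ, hN, Real.rpow_natCast]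
        · rw [← Real.rpow_natCast, ← Real.rpow_mul (by norm_num)]
          push_cast
          rw [hsum, Real.rpow_natCast]

theorem base (W : Finset V) (s : ℕ) (hs : 0 < s) (P Q : Finset (Finset (Sym2 V)))
    (hP : ∀ A ∈ P, A ⊆ K W) (hQ : ∀ A ∈ Q, A ⊆ K W)
    (h : ∀ A ∈ P, ∀ B ∈ Q, ¬ Col W s (A ∩ B)) :
    (P.card : ℝ) * (Q.card : ℝ) ≤ (1 / 4) ^ s * 4 ^ (K W).card := by
  apply shcol W s hs (1 / 4) (by norm_num) P Q hP hQ
  intro κ
  apply inter_card
  · intro A hA
    simp only [tr, mem_image] at hA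
    obtain ⟨A', hA', rfl⟩ := hA
    exact inter_subset_inter_right (hP A' hA')
  · intro A hA
    simp only [tr, mem_image] at hA
    obtain ⟨A', hA', rfl⟩ := hA
    exact inter_subset_inter_right (hQ A' hA')
  · intro A hA B hB
    simp only [tr, mem_image] at hA hB
    obtain ⟨A', hA', rfl⟩ := hA
    obtain ⟨B', hB', rfl⟩ := hB
    by_contra hne
    apply h A' hA' B' hB'
    refine ⟨fun v => κ v.1, fun u v huv heq => hne ⟨s(u.1, v.1), ?_⟩⟩
    simp only at heq
    rw [mem_inter] at huv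
    rw [mem_inter, mem_inter, mem_inter]
    exact ⟨⟨huv.1, mem_S.2 heq⟩, ⟨huv.2, mem_S.2 heq⟩⟩

lemma SF_K (W : Finset V) : SF (K W) (chi W) := by
  intro f g hf hg C hC hfg
  have hcard : (((K W).powerset).card : ℝ) ^ 2 = 4 ^ (K W).card := by
    rw [card_powerset]
    push_cast
    rw [← pow_mul, mul_comm, pow_mul]; norm_num
  have := single (K W).powerset (fun A B => chi W (A ∩ B)) ?_ f g C (fun A _ => hf A)
    (fun A _ => hg A) hC (fun A hA B hB => hfg A (mem_powerset.1 hA) B (mem_powerset.1 hB))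
  · rw [hcard] at this
    exact this
  · intro j P Q hP hQ h
    rcases Nat.eq_zero_or_pos j with rfl | hj
    · rw [pow_zero, mul_one, sq]
      exact Nat.mul_le_mul (card_le_card hP) (card_le_card hQ)
    · have hb := base W j hj P Q (fun A hA => mem_powerset.1 (hP hA))
        (fun A hA => mem_powerset.1 (hQ hA)) (fun A hA B hB => not_col_of_lt (h A hA B hB))
      have h4 : (P.card : ℝ) * (Q.card : ℝ) * 4 ^ j ≤ (((K W).powerset).card : ℝ) ^ 2 := by
        rw [hcard]
        calc (P.card : ℝ) * (Q.card : ℝ) * 4 ^ j ≤ ((1 / 4) ^ j * 4 ^ (K W).card) * 4 ^ j :=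
              mul_le_mul_of_nonneg_right hb (by positivity)
          _ = ((1 / 4) * 4) ^ j * 4 ^ (K W).card := by rw [mul_pow]; ring
          _ = 4 ^ (K W).card := by norm_num
      exact_mod_cast h4

theorem main_card (s t : ℕ) (hs : 0 < s) (hst : 4 * s ≤ t) (F : Finset (Finset (Sym2 V)))
    (hF : ∀ A ∈ F, A ⊆ K (univ : Finset V))
    (h : ∀ A ∈ F, ∀ B ∈ F, ∀ k < t, ¬ Col (univ : Finset V) k (A ∩ B)) :
    (F.card : ℝ) * (F.card : ℝ) ≤ ((1 / 2) ^ s) ^ s * 4 ^ (K (univ : Finset V)).card := by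
  apply shcol univ s hs ((1 / 2) ^ s) (by positivity) F F hF hF
  intro κ
  set U : Fin s → Finset (Sym2 V) := fun i => K (univ.filter (fun v => κ v = i)) with hU
  have hbi : (univ : Finset (Fin s)).biUnion U = K univ ∩ S κ := by
    ext e
    induction e using Sym2.ind with
    | _ u v =>
      rw [mem_biUnion, mem_inter, mem_K, mem_S]
      constructor
      · rintro ⟨i, _, hi⟩
        rw [hU, mem_K] at hi
        simp only [mem_filter, mem_univ, true_and] at hi
        exact ⟨⟨hi.1, mem_univ _, mem_univ _⟩, by rw [hi.2.1, hi.2.2]⟩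
      · rintro ⟨⟨h1, _, _⟩, h2⟩
        refine ⟨κ u, mem_univ _, ?_⟩
        rw [hU, mem_K]
        simp only [mem_filter, mem_univ, true_and]
        exact ⟨h1, h2.symm⟩
  have hdisj : ∀ i ∈ (univ : Finset (Fin s)), ∀ j ∈ (univ : Finset (Fin s)), i ≠ j →
      Disjoint (U i) (U j) := by
    intro i _ j _ hij
    rw [Finset.disjoint_left]
    intro e he he'
    induction e using Sym2.ind with
    | _ u v =>
      rw [hU, mem_K] at he he'
      simp only [mem_filter, mem_univ, true_and] at he he'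
      exact hij (he.2.1.symm.trans he'.2.1)
  have hT := tens (univ : Finset (Fin s)) U (fun i => chi (univ.filter (fun v => κ v = i))) hdisj
    (fun i _ => SF_K _) (fun A => if A ∈ tr F (S κ) then 1 else 0)
    (fun A => if A ∈ tr F (S κ) then 1 else 0)
    (fun A => by positivity) (fun A => by positivity) ((1 / 2) ^ t) (by positivity) ?_
  · have hsub : tr F (S κ) ⊆ ((univ : Finset (Fin s)).biUnion U).powerset := by
      intro A hA
      simp only [tr, mem_image] at hA
      obtain ⟨A', hA', rfl⟩ := hA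
      rw [mem_powerset, hbi]
      exact inter_subset_inter_right (hF A' hA')
    have hsum : (∑ A ∈ ((univ : Finset (Fin s)).biUnion U).powerset,
        if A ∈ tr F (S κ) then (1 : ℝ) else 0) = ((tr F (S κ)).card : ℝ) := by
      rw [Finset.sum_ite_mem, inter_eq_right.2 hsub]
      simp
    rw [hsum, hbi, card_univ, Fintype.card_fin] at hT
    refine hT.trans ?_
    apply mul_le_mul_of_nonneg_right _ (by positivity)
    calc (8 : ℝ) ^ s * (1 / 2) ^ t ≤ 8 ^ s * (1 / 2) ^ (4 * s) := by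
          apply mul_le_mul_of_nonneg_left _ (by positivity)
          exact pow_le_pow_of_le_one (by norm_num) (by norm_num) hst
      _ = (8 * (1 / 2) ^ 4) ^ s := by rw [pow_mul, mul_pow]
      _ = (1 / 2) ^ s := by norm_num
  · intro A _ B _
    by_cases hA : A ∈ tr F (S κ)
    swap
    · rw [if_neg hA, zero_mul]; positivity
    by_cases hB : B ∈ tr F (S κ)
    swap
    · rw [if_neg hB, mul_zero]; positivity
    rw [if_pos hA, if_pos hB, one_mul]
    simp only [tr, mem_image] at hA hB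
    obtain ⟨A', hA', rfl⟩ := hA
    obtain ⟨B', hB', rfl⟩ := hB
    have hle : t ≤ ∑ i : Fin s, chi (univ.filter (fun v => κ v = i))
        (A' ∩ S κ ∩ (B' ∩ S κ) ∩ U i) := by
      by_contra hlt
      push Not at hlt
      apply h A' hA' B' hB' _ hlt
      have hnd : ∀ e ∈ A' ∩ B', ¬ e.IsDiag := by
        intro e he
        exact K_not_diag (hF A' hA' (mem_of_mem_inter_left he))
      apply col_glue κ (A' ∩ B') hnd
      intro i
      have heq : A' ∩ S κ ∩ (B' ∩ S κ) ∩ U i = A' ∩ B' ∩ K (univ.filter (fun v => κ v = i)) := by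
        have hUS : U i ⊆ S κ := by
          intro e he
          have : e ∈ (univ : Finset (Fin s)).biUnion U := mem_biUnion.2 ⟨i, mem_univ _, he⟩
          rw [hbi] at this
          exact mem_of_mem_inter_right this
        ext e
        simp only [mem_inter]
        constructor
        · rintro ⟨⟨⟨h1, _⟩, h2, _⟩, h3⟩
          exact ⟨⟨h1, h2⟩, h3⟩
        · rintro ⟨⟨h1, h2⟩, h3⟩
          exact ⟨⟨⟨h1, hUS h3⟩, h2, hUS h3⟩, h3⟩
      rw [heq]
      apply col_chi
      intro e he
      exact hnd e (mem_of_mem_inter_left he)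
    calc (1 : ℝ) = (1 / 2) ^ t * 2 ^ t := by rw [← mul_pow]; norm_num
      _ ≤ (1 / 2) ^ t * 2 ^ (∑ i : Fin s, chi (univ.filter (fun v => κ v = i))
        (A' ∩ S κ ∩ (B' ∩ S κ) ∩ U i)) := by
        apply mul_le_mul_of_nonneg_left _ (by positivity)
        exact pow_le_pow_right₀ (by norm_num) hle

/-! ### Transfer to simple graphs -/

def ed (G : SimpleGraph V) : Finset (Sym2 V) := univ.filter (fun e => e ∈ G.edgeSet)

lemma mem_ed {G : SimpleGraph V} {e : Sym2 V} : e ∈ ed G ↔ e ∈ G.edgeSet := by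
  simp [ed]

lemma ed_inj : Function.Injective (ed : SimpleGraph V → Finset (Sym2 V)) := by
  intro G H h
  rw [← SimpleGraph.edgeSet_inj]
  ext e
  rw [← mem_ed, ← mem_ed, h]

lemma ed_sub (G : SimpleGraph V) : ed G ⊆ K univ := by
  intro e he
  rw [mem_ed] at he
  simp only [K, mem_filter, mem_univ, true_and, implies_true, and_true]
  exact G.not_isDiag_of_mem_edgeSet he

lemma col_ed {G H : SimpleGraph V} {t : ℕ} (h : (t : ℕ∞) ≤ (G ⊓ H).chromaticNumber) :
    ∀ k < t, ¬ Col (univ : Finset V) k (ed G ∩ ed H) := by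
  intro k hk hcol
  obtain ⟨c, hc⟩ := hcol
  have hcolor : (G ⊓ H).Colorable k := by
    refine ⟨SimpleGraph.Coloring.mk (fun v => c ⟨v, mem_univ v⟩) ?_⟩
    intro u v huv
    apply hc ⟨u, mem_univ u⟩ ⟨v, mem_univ v⟩
    rw [mem_inter, mem_ed, mem_ed, SimpleGraph.mem_edgeSet, SimpleGraph.mem_edgeSet]
    exact ⟨huv.1, huv.2⟩
  have h1 := h.trans hcolor.chromaticNumber_le
  have h2 : t ≤ k := by exact_mod_cast h1
  omega

lemma card_K : (K (univ : Finset V)).card = (Fintype.card V).choose 2 := by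
  rw [← Sym2.card_subtype_not_diag, Fintype.card_subtype]
  congr 1
  ext e
  simp [K]

theorem final (t : ℕ) (ht : 3 ≤ t) (F : Finset (SimpleGraph V))
    (hF : ∀ G ∈ F, ∀ H ∈ F, (t : ℕ∞) ≤ (G ⊓ H).chromaticNumber) :
    (F.card : ℝ) ≤ (2 : ℝ) ^ (((Fintype.card V).choose 2 : ℝ) - (1 / 128) * (t : ℝ) ^ 2) := by
  set FF : Finset (Finset (Sym2 V)) := F.image ed with hFF
  have hcard : FF.card = F.card := card_image_of_injective F ed_inj
  set m := (Fintype.card V).choose 2 with hm
  have hsub : ∀ A ∈ FF, A ⊆ K (univ : Finset V) := by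
    intro A hA
    rw [hFF, mem_image] at hA
    obtain ⟨G, _, rfl⟩ := hA
    exact ed_sub G
  have hcol : ∀ A ∈ FF, ∀ B ∈ FF, ∀ k < t, ¬ Col (univ : Finset V) k (A ∩ B) := by
    intro A hA B hB
    rw [hFF, mem_image] at hA hB
    obtain ⟨G, hG, rfl⟩ := hA
    obtain ⟨H, hH, rfl⟩ := hB
    exact col_ed (hF G hG H hH)
  have ht0 : (3 : ℝ) ≤ (t : ℝ) := by exact_mod_cast ht
  -- it suffices to bound the square
  have key : (F.card : ℝ) * (F.card : ℝ) ≤
      (2 : ℝ) ^ ((m : ℝ) - (1 / 128) * (t : ℝ) ^ 2) * (2 : ℝ) ^ ((m : ℝ) - (1 / 128) * (t : ℝ) ^ 2) := by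
    rw [← Real.rpow_add (by norm_num)]
    have h4 : (4 : ℝ) ^ m = (2 : ℝ) ^ ((2 : ℝ) * m) := by
      rw [Real.rpow_mul (by norm_num), Real.rpow_natCast]
      norm_num
    rcases Nat.lt_or_ge t 4 with h3 | h3
    · have h1 := base (univ : Finset V) 1 one_pos FF FF hsub hsub
        (fun A hA B hB => hcol A hA B hB 1 (by omega))
      rw [hcard, card_K, ← hm, h4] at h1
      refine h1.trans ?_
      have h14 : ((1 : ℝ) / 4) ^ 1 = (2 : ℝ) ^ (-2 : ℝ) := by
        rw [Real.rpow_neg (by norm_num)]; norm_num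
      rw [h14, ← Real.rpow_add (by norm_num)]
      apply Real.rpow_le_rpow_of_exponent_le (by norm_num)
      have : (t : ℝ) < 4 := by exact_mod_cast h3
      nlinarith
    · set s := t / 4 with hs
      have hs0 : 0 < s := by omega
      have hs4 : 4 * s ≤ t := by omega
      have hs8 : t ≤ 8 * s := by omega
      have h1 := main_card s t hs0 hs4 FF hsub hcol
      rw [hcard, card_K, ← hm, h4] at h1
      refine h1.trans ?_
      have h12 : (((1 : ℝ) / 2) ^ s) ^ s = (2 : ℝ) ^ (-((s : ℝ) * s)) := by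
        rw [← pow_mul, Real.rpow_neg (by norm_num), one_div, inv_pow]
        congr 1
        rw [← Nat.cast_mul, Real.rpow_natCast]
      rw [h12, ← Real.rpow_add (by norm_num)]
      apply Real.rpow_le_rpow_of_exponent_le (by norm_num)
      have h8 : (t : ℝ) ≤ 8 * s := by exact_mod_cast hs8
      nlinarith
  exact (mul_self_le_mul_self_iff (by positivity) (by positivity)).2 key

end Graph

end

end Pool.Agent.H10Chrom
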