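import Mathlib

set_option autoImplicit false

namespace Pool.Agent.H10Core

open Finset

abbrev E := EuclideanSpace ℝ (Fin 2)

lemma inner2 (a x : E) : inner ℝ a x = a 0 * x 0 + a 1 * x 1 := by
  simp [PiLp.inner_apply, Fin.sum_univ_two, mul_comm]

/-- a pentagon `q 0, …, q 4` and its centre `q 5 = 0` -/
noncomputable def q : Fin 6 → E :=
  ![!₂[0, 3], !₂[-3, 1], !₂[-2, -3], !₂[2, -3], !₂[3, 1], !₂[0, 0]]

lemma q_inj : Function.Injective q := by
  intro i j h
  have h0 : q i 0 = q j 0 := by rw [h]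
  have h1 : q i 1 = q j 1 := by rw [h]
  fin_cases i <;> fin_cases j <;> simp [q] at h0 h1 ⊢ <;>
    first | (exfalso; linarith) | (norm_num at h0) | (norm_num at h1)

noncomputable def S : Finset E := univ.map ⟨q, q_inj⟩

lemma card_filter_S (P : E → Prop) [DecidablePred P] :
    (S.filter P).card = (univ.filter (fun k : Fin 6 => P (q k))).card := by
  rw [S, Finset.filter_map, Finset.card_map]
  rfl

lemma three {P : Fin 6 → Prop} [DecidablePred P] (i j : Fin 6)
    (hij : ({5, i, j} : Finset (Fin 6)).card = 3) (h5 : P 5) (hi : P i) (hj : P j) :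
    3 ≤ (univ.filter P).card := by
  rw [← hij]
  apply Finset.card_le_card
  intro k hk
  simp only [Finset.mem_insert, Finset.mem_singleton] at hk
  rw [Finset.mem_filter]
  refine ⟨Finset.mem_univ _, ?_⟩
  rcases hk with rfl | rfl | rfl
  · exact h5
  · exact hi
  · exact hj

def core : Set E := {z : E | ∀ (a : E) (b : ℝ), a ≠ 0 → inner ℝ a z ≤ b →
              3 ≤ (S.filter (fun x => inner ℝ a x ≤ b)).card}

lemma zero_mem : (0 : E) ∈ core := by
  intro a b _ hb
  rw [inner_zero_right] at hb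
  rw [card_filter_S]
  have e0 : inner ℝ a (q 0) = 3 * a 1 := by rw [inner2]; simp [q]; ring
  have e1 : inner ℝ a (q 1) = -3 * a 0 + a 1 := by rw [inner2]; simp [q]; ring
  have e2 : inner ℝ a (q 2) = -2 * a 0 - 3 * a 1 := by rw [inner2]; simp [q]; ring
  have e3 : inner ℝ a (q 3) = 2 * a 0 - 3 * a 1 := by rw [inner2]; simp [q]; ring
  have e4 : inner ℝ a (q 4) = 3 * a 0 + a 1 := by rw [inner2]; simp [q]; ring
  have e5 : inner ℝ a (q 5) = 0 := by rw [inner2]; simp [q]
  have h5 : inner ℝ a (q 5) ≤ b := by rw [e5]; exact hb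
  by_cases h0 : inner ℝ a (q 0) ≤ b <;> by_cases h1 : inner ℝ a (q 1) ≤ b <;>
    by_cases h2 : inner ℝ a (q 2) ≤ b <;> by_cases h3 : inner ℝ a (q 3) ≤ b <;>
    by_cases h4 : inner ℝ a (q 4) ≤ b <;>
    first
    | exact three 0 1 (by decide) h5 h0 h1
    | exact three 0 2 (by decide) h5 h0 h2
    | exact three 0 3 (by decide) h5 h0 h3
    | exact three 0 4 (by decide) h5 h0 h4
    | exact three 1 2 (by decide) h5 h1 h2
    | exact three 1 3 (by decide) h5 h1 h3
    | exact three 1 4 (by decide) h5 h1 h4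
    | exact three 2 3 (by decide) h5 h2 h3
    | exact three 2 4 (by decide) h5 h2 h4
    | exact three 3 4 (by decide) h5 h3 h4
    | (exfalso; rw [e0] at h0; rw [e1] at h1; rw [e2] at h2; rw [e3] at h3; rw [e4] at h4;
       linarith)

/-- the five directions -/
noncomputable def u : Fin 5 → E := ![!₂[1, -1], !₂[2, 1], !₂[0, 1], !₂[-2, 1], !₂[-1, -1]]

/-- the `j`-th direction is positive on the points other than `q j`, `q (j+1)`, `q 5` -/
lemma u_pos (j : Fin 5) (k : Fin 6) (h1 : k ≠ j.castSucc) (h2 : k ≠ (j + 1).castSucc)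
    (h5 : k ≠ 5) : 0 < inner ℝ (u j) (q k) := by
  rw [inner2]
  fin_cases j <;> fin_cases k <;>
    first
    | (exact absurd rfl h1)
    | (exact absurd rfl h2)
    | (exact absurd rfl h5)
    | (simp [u, q] <;> norm_num)

lemma u_core (z : E) (hz : z ∈ core) (j : Fin 5) : 0 ≤ inner ℝ (u j) z := by
  by_contra hlt
  push Not at hlt
  have hne : u j ≠ 0 := by
    intro h
    rw [h, inner_zero_left] at hlt
    exact lt_irrefl _ hlt
  have h := hz (u j) (inner ℝ (u j) z) hne le_rfl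
  rw [card_filter_S] at h
  have hsub : (univ.filter (fun k : Fin 6 => inner ℝ (u j) (q k) ≤ inner ℝ (u j) z)) ⊆
      {j.castSucc, (j + 1).castSucc} := by
    intro k hk
    rw [Finset.mem_filter] at hk
    simp only [Finset.mem_insert, Finset.mem_singleton]
    by_contra hcon
    push Not at hcon
    by_cases h5 : k = 5
    · subst h5
      have e5 : inner ℝ (u j) (q 5) = 0 := by rw [inner2]; simp [q]
      rw [e5] at hk
      linarith [hk.2]
    · have := u_pos j k hcon.1 hcon.2 h5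
      linarith [hk.2]
  have := (Finset.card_le_card hsub).trans Finset.card_le_two
  omega

lemma core_zero (z : E) (hz : z ∈ core) : z = 0 := by
  have h0 := u_core z hz 0
  have h2 := u_core z hz 2
  have h4 := u_core z hz 4
  rw [inner2] at h0 h2 h4
  simp [u] at h0 h2 h4
  ext i
  fin_cases i
  · simp; linarith
  · simp; linarith

lemma extreme : (0 : E) ∈ Set.extremePoints ℝ core := by
  rw [mem_extremePoints]
  refine ⟨zero_mem, ?_⟩
  intro x hx y hy _
  exact ⟨core_zero x hx, core_zero y hy⟩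

lemma class_hit (f : E → Fin 3) (c : Fin 3) (hc : c ≠ f (q 5))
    (h : (0 : E) ∈ convexHull ℝ ((S.filter (fun x => f x = c) : Finset E) : Set E)) (j : Fin 5) :
    f (q j.castSucc) = c ∨ f (q (j + 1).castSucc) = c := by
  by_contra hcon
  push Not at hcon
  have hsub : ((S.filter (fun x => f x = c) : Finset E) : Set E) ⊆ {x | 0 < inner ℝ (u j) x} := by
    intro x hx
    rw [Finset.mem_coe, Finset.mem_filter] at hx
    obtain ⟨hx1, hx2⟩ := hx
    rw [S, Finset.mem_map] at hx1
    obtain ⟨k, -, rfl⟩ := hx1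
    simp only [Function.Embedding.coeFn_mk] at hx2 ⊢
    apply u_pos j k
    · rintro rfl; exact hcon.1 hx2
    · rintro rfl; exact hcon.2 hx2
    · rintro rfl; exact hc hx2.symm
  have hconv : Convex ℝ {x : E | 0 < inner ℝ (u j) x} :=
    convex_halfSpace_gt (f := fun x : E => inner ℝ (u j) x)
      ⟨fun x y => inner_add_right _ _ _, fun c x => inner_smul_right _ _ _⟩ 0
  have := convexHull_min hsub hconv h
  simp at this

lemma comb : ∀ c1 c2 g0 g1 g2 g3 g4 : Fin 3, c1 ≠ c2 →
    (g0 = c1 ∨ g1 = c1) → (g1 = c1 ∨ g2 = c1) → (g2 = c1 ∨ g3 = c1) → (g3 = c1 ∨ g4 = c1) →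
    (g4 = c1 ∨ g0 = c1) →
    (g0 = c2 ∨ g1 = c2) → (g1 = c2 ∨ g2 = c2) → (g2 = c2 ∨ g3 = c2) → (g3 = c2 ∨ g4 = c2) →
    (g4 = c2 ∨ g0 = c2) → False := by
  decide +kernel

theorem not_div (f : E → Fin 3)
    (h : ∀ i : Fin 3, (0 : E) ∈ convexHull ℝ ((S.filter (fun x => f x = i) : Finset E) : Set E)) :
    False := by
  obtain ⟨c1, c2, h1, h2, h12⟩ : ∃ c1 c2 : Fin 3, c1 ≠ f (q 5) ∧ c2 ≠ f (q 5) ∧ c1 ≠ c2 := by
    generalize f (q 5) = i0
    revert i0
    decide
  have k1 := class_hit f c1 h1 (h c1)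
  have k2 := class_hit f c2 h2 (h c2)
  exact comb c1 c2 (f (q 0)) (f (q 1)) (f (q 2)) (f (q 3)) (f (q 4)) h12
    (k1 0) (k1 1) (k1 2) (k1 3) (k1 4) (k2 0) (k2 1) (k2 2) (k2 3) (k2 4)

end Pool.Agent.H10Core
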