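import Mathlib

set_option autoImplicit false

namespace Pool.Agent.H10CoreB

open Finset

/-- the `m`-core of `S`: the points all of whose closed half-spaces contain at least `m` points
of `S` -/
def mcore (d m : ℕ) (S : Finset (EuclideanSpace ℝ (Fin d))) : Set (EuclideanSpace ℝ (Fin d)) :=
  {z | ∀ (a : EuclideanSpace ℝ (Fin d)) (b : ℝ), a ≠ 0 → inner ℝ a z ≤ b →
    m ≤ (S.filter (fun x => inner ℝ a x ≤ b)).card}

/-- `y` is an `m`-divisible point of `S` -/
def MDivisible (d m : ℕ) (S : Finset (EuclideanSpace ℝ (Fin d))) (y : EuclideanSpace ℝ (Fin d)) :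
    Prop :=
  ∃ f : EuclideanSpace ℝ (Fin d) → Fin m, ∀ i : Fin m,
    y ∈ convexHull ℝ ((S.filter (fun x => f x = i) : Finset (EuclideanSpace ℝ (Fin d))) :
      Set (EuclideanSpace ℝ (Fin d)))

abbrev E := EuclideanSpace ℝ (Fin 3)

lemma inner3 (a x : E) : inner ℝ a x = a 0 * x 0 + a 1 * x 1 + a 2 * x 2 := by
  simp [PiLp.inner_apply, Fin.sum_univ_three, mul_comm]

noncomputable def px : Fin 5 → ℝ := ![0, -3, -2, 2, 3]
noncomputable def py : Fin 5 → ℝ := ![3, 1, -3, -3, 1]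
noncomputable def ux : Fin 5 → ℝ := ![1, 2, 0, -2, -1]
noncomputable def uy : Fin 5 → ℝ := ![-1, 1, 1, 1, -1]

lemma planar (x y : ℝ) : ∃ i j : Fin 5, i ≠ j ∧ x * px i + y * py i ≤ 0 ∧
    x * px j + y * py j ≤ 0 := by
  by_cases h0 : x * px 0 + y * py 0 ≤ 0 <;> by_cases h1 : x * px 1 + y * py 1 ≤ 0 <;>
    by_cases h2 : x * px 2 + y * py 2 ≤ 0 <;> by_cases h3 : x * px 3 + y * py 3 ≤ 0 <;>
    by_cases h4 : x * px 4 + y * py 4 ≤ 0 <;>
    first
    | exact ⟨0, 1, by decide, h0, h1⟩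
    | exact ⟨0, 2, by decide, h0, h2⟩
    | exact ⟨0, 3, by decide, h0, h3⟩
    | exact ⟨0, 4, by decide, h0, h4⟩
    | exact ⟨1, 2, by decide, h1, h2⟩
    | exact ⟨1, 3, by decide, h1, h3⟩
    | exact ⟨1, 4, by decide, h1, h4⟩
    | exact ⟨2, 3, by decide, h2, h3⟩
    | exact ⟨2, 4, by decide, h2, h4⟩
    | exact ⟨3, 4, by decide, h3, h4⟩
    | (exfalso; simp [px, py] at h0 h1 h2 h3 h4; linarith)

/-- the pentagon at height `-1` -/
noncomputable def P (k : Fin 5) : E := !₂[px k, py k, -1]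
/-- the points on the positive vertical axis -/
noncomputable def W (j : ℕ) : E := !₂[0, 0, (j : ℝ) + 1]

open Classical in
noncomputable def S (N : ℕ) : Finset E :=
  insert 0 ((univ.image P) ∪ ((range (N + 2)).image W))

lemma P_inj : Function.Injective P := by
  intro i j h
  have h0 : P i 0 = P j 0 := by rw [h]
  have h1 : P i 1 = P j 1 := by rw [h]
  fin_cases i <;> fin_cases j <;> simp [P, px, py] at h0 h1 ⊢ <;>
    (exfalso; linarith)

lemma W_inj : Function.Injective W := by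
  intro i j h
  have h0 : W i 2 = W j 2 := by rw [h]
  simp [W] at h0
  exact h0

lemma P_ne (k : Fin 5) : P k ≠ 0 := by
  intro h
  have h0 : P k 2 = (0 : E) 2 := by rw [h]
  simp [P] at h0

lemma W_ne (j : ℕ) : W j ≠ 0 := by
  intro h
  have h0 : W j 2 = (0 : E) 2 := by rw [h]
  simp [W] at h0
  have : (0 : ℝ) ≤ j := Nat.cast_nonneg j
  linarith

lemma mem_S (N : ℕ) (x : E) : x ∈ S N ↔ x = 0 ∨ (∃ k, x = P k) ∨ ∃ j, j < N + 2 ∧ x = W j := by
  simp only [S, Finset.mem_insert, Finset.mem_union, Finset.mem_image, Finset.mem_univ, true_and,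
    Finset.mem_range]
  constructor
  · rintro (h | ⟨k, h⟩ | ⟨j, hj, h⟩)
    · exact Or.inl h
    · exact Or.inr (Or.inl ⟨k, h.symm⟩)
    · exact Or.inr (Or.inr ⟨j, hj, h.symm⟩)
  · rintro (h | ⟨k, h⟩ | ⟨j, hj, h⟩)
    · exact Or.inl h
    · exact Or.inr (Or.inl ⟨k, h.symm⟩)
    · exact Or.inr (Or.inr ⟨j, hj, h.symm⟩)

lemma card_S (N : ℕ) : N ≤ (S N).card := by
  classical
  have h : ((range (N + 2)).image W).card ≤ (S N).card := by
    apply Finset.card_le_card
    intro x hx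
    rw [Finset.mem_image] at hx
    obtain ⟨j, hj, rfl⟩ := hx
    rw [mem_S]
    exact Or.inr (Or.inr ⟨j, Finset.mem_range.mp hj, rfl⟩)
  rw [Finset.card_image_of_injective _ W_inj, Finset.card_range] at h
  omega

lemma three {T : Finset E} (x y z : E) (hxy : x ≠ y) (hxz : x ≠ z) (hyz : y ≠ z)
    (hx : x ∈ T) (hy : y ∈ T) (hz : z ∈ T) : 3 ≤ T.card := by
  classical
  have : ({x, y, z} : Finset E).card = 3 := Finset.card_eq_three.mpr ⟨x, y, z, hxy, hxz, hyz, rfl⟩
  rw [← this]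
  apply Finset.card_le_card
  intro w hw
  simp only [Finset.mem_insert, Finset.mem_singleton] at hw
  rcases hw with rfl | rfl | rfl
  · exact hx
  · exact hy
  · exact hz

lemma inner_P (a : E) (k : Fin 5) : inner ℝ a (P k) = (a 0 * px k + a 1 * py k) - a 2 := by
  rw [inner3]; simp [P]; ring

lemma inner_W (a : E) (j : ℕ) : inner ℝ a (W j) = a 2 * ((j : ℝ) + 1) := by
  rw [inner3]; simp [W]

lemma zero_mem (N : ℕ) : (0 : E) ∈ mcore 3 3 (S N) := by
  intro a b _ hb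
  rw [inner_zero_right] at hb
  have m0 : (0 : E) ∈ (S N).filter (fun x => inner ℝ a x ≤ b) := by
    rw [Finset.mem_filter, inner_zero_right]
    exact ⟨(mem_S N 0).mpr (Or.inl rfl), hb⟩
  by_cases h2 : a 2 ≤ 0
  · have mw : ∀ j : ℕ, j < N + 2 → W j ∈ (S N).filter (fun x => inner ℝ a x ≤ b) := by
      intro j hj
      rw [Finset.mem_filter, inner_W]
      refine ⟨(mem_S N _).mpr (Or.inr (Or.inr ⟨j, hj, rfl⟩)), ?_⟩
      have : (0 : ℝ) ≤ j := Nat.cast_nonneg j
      nlinarith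
    refine three 0 (W 0) (W 1) (W_ne 0).symm (W_ne 1).symm ?_ m0 (mw 0 (by omega)) (mw 1 (by omega))
    intro h
    exact absurd (W_inj h) (by norm_num)
  · push Not at h2
    obtain ⟨i, j, hij, hi, hj⟩ := planar (a 0) (a 1)
    have mp : ∀ k : Fin 5, a 0 * px k + a 1 * py k ≤ 0 →
        P k ∈ (S N).filter (fun x => inner ℝ a x ≤ b) := by
      intro k hk
      rw [Finset.mem_filter, inner_P]
      exact ⟨(mem_S N _).mpr (Or.inr (Or.inl ⟨k, rfl⟩)), by linarith⟩
    refine three 0 (P i) (P j) (P_ne i).symm (P_ne j).symm ?_ m0 (mp i hi) (mp j hj)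
    intro h
    exact hij (P_inj h)

/-- the test directions -/
noncomputable def u (j : Fin 5) (h : ℝ) : E := !₂[ux j, uy j, h]

lemma u_val (j : Fin 5) (k : Fin 5) (h1 : k ≠ j) (h2 : k ≠ j + 1) :
    1 ≤ ux j * px k + uy j * py k := by
  fin_cases j <;> fin_cases k <;>
    first
    | (exact absurd rfl h1)
    | (exact absurd rfl h2)
    | (simp [ux, uy, px, py] <;> norm_num)

lemma u_core (N : ℕ) (z : E) (hz : z ∈ mcore 3 3 (S N)) (j : Fin 5) (h : ℝ) (h0 : 0 ≤ h)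
    (h1 : h ≤ 1 / 2) : 0 ≤ inner ℝ (u j h) z := by
  classical
  by_contra hlt
  push Not at hlt
  have hne : u j h ≠ 0 := by
    intro h'
    rw [h', inner_zero_left] at hlt
    exact lt_irrefl _ hlt
  have hc := hz (u j h) (inner ℝ (u j h) z) hne le_rfl
  have hsub : ((S N).filter (fun x => inner ℝ (u j h) x ≤ inner ℝ (u j h) z)) ⊆
      {P j, P (j + 1)} := by
    intro x hx
    rw [Finset.mem_filter, mem_S] at hx
    obtain ⟨hx1, hx2⟩ := hx
    simp only [Finset.mem_insert, Finset.mem_singleton]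
    rcases hx1 with rfl | ⟨k, rfl⟩ | ⟨i, hi, rfl⟩
    · rw [inner_zero_right] at hx2
      linarith
    · by_contra hcon
      push Not at hcon
      have hk1 : k ≠ j := by rintro rfl; exact hcon.1 rfl
      have hk2 : k ≠ j + 1 := by rintro rfl; exact hcon.2 rfl
      have := u_val j k hk1 hk2
      rw [inner_P] at hx2
      simp [u] at hx2 hlt
      linarith
    · rw [inner_W] at hx2
      have hi0 : (0 : ℝ) ≤ i := Nat.cast_nonneg i
      have : 0 ≤ (u j h) 2 * ((i : ℝ) + 1) := by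
        simp [u]; positivity
      linarith
  have h5 := (Finset.card_le_card hsub).trans Finset.card_le_two
  have h6 : 3 ≤ 2 := hc.trans (le_trans (le_of_eq (by congr)) h5)
  omega

lemma core_axis (N : ℕ) (z : E) (hz : z ∈ mcore 3 3 (S N)) : z 0 = 0 ∧ z 1 = 0 ∧ 0 ≤ z 2 := by
  have h0 := u_core N z hz 0 0 le_rfl (by norm_num)
  have h2 := u_core N z hz 2 0 le_rfl (by norm_num)
  have h4 := u_core N z hz 4 0 le_rfl (by norm_num)
  have k2 := u_core N z hz 2 (1 / 2) (by norm_num) le_rfl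
  rw [inner3] at h0 h2 h4 k2
  simp [u, ux, uy] at h0 h2 h4 k2
  refine ⟨by linarith, by linarith, by linarith⟩

lemma extreme (N : ℕ) : (0 : E) ∈ Set.extremePoints ℝ (mcore 3 3 (S N)) := by
  rw [mem_extremePoints]
  refine ⟨zero_mem N, ?_⟩
  intro x hx y hy hxy
  obtain ⟨x0, x1, x2⟩ := core_axis N x hx
  obtain ⟨y0, y1, y2⟩ := core_axis N y hy
  obtain ⟨s, t, hs, ht, hst, he⟩ := hxy
  have e2 : s * x 2 + t * y 2 = 0 := by
    have := congrArg (fun v : E => v 2) he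
    simpa using this
  have hx2 : x 2 = 0 := by nlinarith [mul_nonneg hs.le x2, mul_nonneg ht.le y2]
  have hy2 : y 2 = 0 := by nlinarith [mul_nonneg hs.le x2, mul_nonneg ht.le y2]
  constructor
  · ext i
    fin_cases i
    · simpa using x0
    · simpa using x1
    · simpa using hx2
  · ext i
    fin_cases i
    · simpa using y0
    · simpa using y1
    · simpa using hy2

lemma class_hit (N : ℕ) (f : E → Fin 3) (c : Fin 3) (hc : c ≠ f 0)
    (h : (0 : E) ∈ convexHull ℝ (((S N).filter (fun x => f x = c) : Finset E) : Set E))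
    (j : Fin 5) : f (P j) = c ∨ f (P (j + 1)) = c := by
  by_contra hcon
  push Not at hcon
  have hsub : (((S N).filter (fun x => f x = c) : Finset E) : Set E) ⊆
      {x | 0 < inner ℝ (u j (1 / 2)) x} := by
    intro x hx
    rw [Finset.mem_coe, Finset.mem_filter, mem_S] at hx
    obtain ⟨hx1, hx2⟩ := hx
    show 0 < inner ℝ (u j (1 / 2)) x
    rcases hx1 with rfl | ⟨k, rfl⟩ | ⟨i, hi, rfl⟩
    · exact absurd hx2.symm hc
    · have hk1 : k ≠ j := by rintro rfl; exact hcon.1 hx2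
      have hk2 : k ≠ j + 1 := by rintro rfl; exact hcon.2 hx2
      have := u_val j k hk1 hk2
      rw [inner_P]
      simp [u]
      linarith
    · rw [inner_W]
      simp [u]
      positivity
  have hconv : Convex ℝ {x : E | 0 < inner ℝ (u j (1 / 2)) x} :=
    convex_halfSpace_gt (f := fun x : E => inner ℝ (u j (1 / 2)) x)
      ⟨fun x y => inner_add_right _ _ _, fun c x => inner_smul_right _ _ _⟩ 0
  have := convexHull_min hsub hconv h
  simp at this

lemma comb : ∀ c1 c2 g0 g1 g2 g3 g4 : Fin 3, c1 ≠ c2 →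
    (g0 = c1 ∨ g1 = c1) → (g1 = c1 ∨ g2 = c1) → (g2 = c1 ∨ g3 = c1) → (g3 = c1 ∨ g4 = c1) →
    (g4 = c1 ∨ g0 = c1) →
    (g0 = c2 ∨ g1 = c2) → (g1 = c2 ∨ g2 = c2) → (g2 = c2 ∨ g3 = c2) → (g3 = c2 ∨ g4 = c2) →
    (g4 = c2 ∨ g0 = c2) → False := by
  decide +kernel

theorem not_div (N : ℕ) : ¬ MDivisible 3 3 (S N) 0 := by
  rintro ⟨f, h⟩
  obtain ⟨c1, c2, h1, h2, h12⟩ : ∃ c1 c2 : Fin 3, c1 ≠ f 0 ∧ c2 ≠ f 0 ∧ c1 ≠ c2 := by
    generalize f 0 = i0
    revert i0
    decide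
  have k1 := class_hit N f c1 h1 (h c1)
  have k2 := class_hit N f c2 h2 (h c2)
  exact comb c1 c2 (f (P 0)) (f (P 1)) (f (P 2)) (f (P 3)) (f (P 4)) h12
    (k1 0) (k1 1) (k1 2) (k1 3) (k1 4) (k2 0) (k2 1) (k2 2) (k2 3) (k2 4)

theorem main (N : ℕ) : ∃ S : Finset (EuclideanSpace ℝ (Fin 3)), N ≤ S.card ∧
    ∃ y ∈ Set.extremePoints ℝ (mcore 3 3 S), ¬ MDivisible 3 3 S y :=
  ⟨S N, card_S N, 0, extreme N, not_div N⟩

end Pool.Agent.H10CoreB
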