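import Mathlib

set_option autoImplicit false

namespace H10cut

/-- `K_24 □ P_t` on `Fin (24 t)`. -/
def G (t : ℕ) : SimpleGraph (Fin (24 * t)) where
  Adj x y := x ≠ y ∧ (x.val / 24 = y.val / 24 ∨ y.val = x.val + 24 ∨ x.val = y.val + 24)
  symm := ⟨by
    rintro x y ⟨h1, h2⟩
    refine ⟨h1.symm, ?_⟩
    rcases h2 with h | h | h
    · exact Or.inl h.symm
    · exact Or.inr (Or.inr h)
    · exact Or.inr (Or.inl h)⟩
  loopless := ⟨by
    rintro x ⟨h, _⟩
    exact h rfl⟩

lemma column (t : ℕ) (S : Finset (Fin (24 * t))) (hS : S.card < 24) (b : ℕ) (hb : b + 1 < t) :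
    ∃ x y : Fin (24 * t), x ∉ S ∧ y ∉ S ∧ x.val / 24 = b ∧ y.val / 24 = b + 1 ∧ y.val = x.val + 24 := by
  classical
  by_contra hcon
  push Not at hcon
  let g : Fin 24 → Fin (24 * t) := fun i => ⟨24 * b + i.val, by have := i.2; omega⟩
  let h : Fin 24 → Fin (24 * t) := fun i => ⟨24 * (b + 1) + i.val, by have := i.2; omega⟩
  let f : Fin 24 → Fin (24 * t) := fun i => if g i ∈ S then g i else h i
  have hf : ∀ i, f i ∈ S := by
    intro i
    by_cases hg : g i ∈ S
    · simp only [f, if_pos hg]; exact hg
    · simp only [f, if_neg hg]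
      by_contra hh
      have h1 : (g i).val / 24 = b := by
        show (24 * b + i.val) / 24 = b
        have := i.2; omega
      have h2 : (h i).val / 24 = b + 1 := by
        show (24 * (b + 1) + i.val) / 24 = b + 1
        have := i.2; omega
      apply hcon (g i) (h i) hg hh h1 h2
      show 24 * (b + 1) + i.val = 24 * b + i.val + 24
      omega
  have hmod : ∀ i, (f i).val % 24 = i.val := by
    intro i
    by_cases hg : g i ∈ S
    · simp only [f, if_pos hg]
      show (24 * b + i.val) % 24 = i.val
      have := i.2; omega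
    · simp only [f, if_neg hg]
      show (24 * (b + 1) + i.val) % 24 = i.val
      have := i.2; omega
  have hinj : Function.Injective f := by
    intro i j hij
    apply Fin.ext
    rw [← hmod i, ← hmod j, hij]
  have hle := Finset.card_le_card_of_injOn (s := (Finset.univ : Finset (Fin 24))) (t := S) f
    (fun i _ => hf i) (fun i _ j _ hij => hinj hij)
  simp at hle
  omega

lemma first (t : ℕ) (ht : 0 < t) (S : Finset (Fin (24 * t))) (hS : S.card < 24) :
    ∃ x : Fin (24 * t), x ∉ S ∧ x.val / 24 = 0 := by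
  classical
  by_contra hcon
  push Not at hcon
  let f : Fin 24 → Fin (24 * t) := fun i => ⟨i.val, by have := i.2; omega⟩
  have hf : ∀ i, f i ∈ S := by
    intro i
    by_contra h
    apply hcon (f i) h
    show i.val / 24 = 0
    have := i.2; omega
  have hle := Finset.card_le_card_of_injOn (s := (Finset.univ : Finset (Fin 24))) (t := S) f
    (fun i _ => hf i) (fun i _ j _ hij => by
      have : (f i).val = (f j).val := by rw [hij]
      exact Fin.ext this)
  simp at hle
  omega

lemma conn (t : ℕ) (ht : 0 < t) (S : Finset (Fin (24 * t))) (hS : S.card < 24) :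
    ((G t).induce ((S : Set (Fin (24 * t)))ᶜ)).Connected := by
  classical
  obtain ⟨r, hr, hr0⟩ := first t ht S hS
  have hrm : r ∈ ((S : Set (Fin (24 * t)))ᶜ) := by simpa using hr
  have key : ∀ b : ℕ, b < t → ∀ x : ((S : Set (Fin (24 * t)))ᶜ : Set _), x.1.val / 24 = b →
      ((G t).induce ((S : Set (Fin (24 * t)))ᶜ)).Reachable ⟨r, hrm⟩ x := by
    intro b
    induction b with
    | zero =>
      intro _ x hx
      by_cases hxr : (⟨r, hrm⟩ : ((S : Set (Fin (24 * t)))ᶜ : Set _)) = x
      · rw [hxr]
      · apply SimpleGraph.Adj.reachable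
        rw [SimpleGraph.induce_adj]
        refine ⟨fun h => hxr (Subtype.ext h), Or.inl ?_⟩
        rw [hr0, hx]
    | succ b ih =>
      intro hb x hx
      obtain ⟨u, w, hu, hw, hub, hwb, huw⟩ := column t S hS b hb
      have hum : u ∈ ((S : Set (Fin (24 * t)))ᶜ) := by simpa using hu
      have hwm : w ∈ ((S : Set (Fin (24 * t)))ᶜ) := by simpa using hw
      have h1 := ih (by omega) ⟨u, hum⟩ hub
      have h2 : ((G t).induce ((S : Set (Fin (24 * t)))ᶜ)).Reachable ⟨u, hum⟩ ⟨w, hwm⟩ := by
        apply SimpleGraph.Adj.reachable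
        rw [SimpleGraph.induce_adj]
        refine ⟨?_, Or.inr (Or.inl huw)⟩
        intro h
        have h' : u = w := h
        rw [h'] at huw
        omega
      have h3 : ((G t).induce ((S : Set (Fin (24 * t)))ᶜ)).Reachable ⟨w, hwm⟩ x := by
        by_cases hxr : (⟨w, hwm⟩ : ((S : Set (Fin (24 * t)))ᶜ : Set _)) = x
        · rw [hxr]
        · apply SimpleGraph.Adj.reachable
          rw [SimpleGraph.induce_adj]
          refine ⟨fun h => hxr (Subtype.ext h), Or.inl ?_⟩
          rw [hwb, hx]
      exact h1.trans (h2.trans h3)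
  have : Nonempty ((S : Set (Fin (24 * t)))ᶜ : Set _) := ⟨⟨r, hrm⟩⟩
  refine SimpleGraph.Connected.mk ?_
  intro x y
  have hx := key (x.1.val / 24) (by have := x.1.2; omega) x rfl
  have hy := key (y.1.val / 24) (by have := y.1.2; omega) y rfl
  exact hx.symm.trans hy

/-- colliding ordered pairs -/
lemma collide {V κ : Type*} [Fintype V] [DecidableEq V] [Fintype κ] [DecidableEq κ] (f : V → κ) :
    2 * Fintype.card V ≤
      (Finset.univ.filter (fun p : V × V => p.1 ≠ p.2 ∧ f p.1 = f p.2)).card
        + 2 * Fintype.card κ := by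
  have h1 : (Finset.univ.filter (fun p : V × V => f p.1 = f p.2)).card
      = ∑ k : κ, (Finset.univ.filter (fun x => f x = k)).card ^ 2 := by
    rw [Finset.card_eq_sum_card_fiberwise (f := fun p : V × V => f p.1) (t := Finset.univ)
      (fun _ _ => by simp)]
    apply Finset.sum_congr rfl
    intro k _
    rw [sq, ← Finset.card_product]
    congr 1
    ext ⟨x, y⟩
    simp only [Finset.mem_filter, Finset.mem_univ, true_and, Finset.mem_product]
    constructor
    · rintro ⟨h1, h2⟩; exact ⟨h2, by rw [← h1, h2]⟩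
    · rintro ⟨h1, h2⟩; exact ⟨by rw [h1, h2], h1⟩
  have h2 : (Finset.univ.filter (fun p : V × V => f p.1 = f p.2)).card
      = (Finset.univ.filter (fun p : V × V => p.1 ≠ p.2 ∧ f p.1 = f p.2)).card + Fintype.card V := by
    rw [← Finset.card_filter_add_card_filter_not
      (s := Finset.univ.filter (fun p : V × V => f p.1 = f p.2)) (fun p : V × V => p.1 ≠ p.2)]
    congr 1
    · congr 1
      ext p
      simp only [Finset.mem_filter, Finset.mem_univ, true_and]
      tauto
    · rw [← Finset.card_univ]
      symm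
      refine Finset.card_bij (fun x _ => (x, x)) ?_ ?_ ?_
      · intro x _
        simp
      · intro x _ y _ h
        exact (Prod.mk.inj h).1
      · rintro ⟨x, y⟩ h
        simp only [Finset.mem_filter, Finset.mem_univ, true_and, not_not] at h
        refine ⟨x, Finset.mem_univ _, ?_⟩
        rw [h.2]
  have h3 : Fintype.card V = ∑ k : κ, (Finset.univ.filter (fun x => f x = k)).card := by
    rw [← Finset.card_univ]
    exact Finset.card_eq_sum_card_fiberwise (fun _ _ => by simp)
  have h4 : ∑ k : κ, 3 * (Finset.univ.filter (fun x => f x = k)).card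
      ≤ ∑ k : κ, ((Finset.univ.filter (fun x => f x = k)).card ^ 2 + 2) := by
    apply Finset.sum_le_sum
    intro k _
    generalize (Finset.univ.filter (fun x => f x = k)).card = n
    rcases n with _ | _ | n
    · norm_num
    · norm_num
    · nlinarith
  rw [← Finset.mul_sum, ← h3, Finset.sum_add_distrib, ← h1] at h4
  simp only [Finset.sum_const, Finset.card_univ, smul_eq_mul] at h4
  omega

open Classical in
lemma degree_le (t : ℕ) (x : Fin (24 * t)) :
    (Finset.univ.filter (fun y => (G t).Adj x y)).card ≤ 25 := by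
  have hle := Finset.card_le_card_of_injOn
    (s := (Finset.univ.filter (fun y => (G t).Adj x y)))
    (t := ((Finset.Ico (24 * (x.val / 24)) (24 * (x.val / 24) + 24)).erase x.val
      ∪ {x.val + 24, x.val - 24})) (fun y => y.val) (by
      intro y hy
      simp only [Finset.coe_filter, Finset.mem_univ, true_and, Set.mem_ofPred_eq] at hy
      obtain ⟨h1, h2⟩ := hy
      simp only [Finset.coe_union, Set.mem_union, Finset.mem_coe, Finset.mem_erase, Finset.mem_Ico,
        Finset.mem_insert, Finset.mem_singleton]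
      rcases h2 with h | h | h
      · left
        refine ⟨fun h' => h1 (Fin.ext h'.symm), ?_, ?_⟩ <;> omega
      · right; left; exact h
      · right; right; omega)
      (fun y _ z _ h => Fin.ext h)
  refine hle.trans ?_
  refine (Finset.card_union_le _ _).trans ?_
  have h1 : ((Finset.Ico (24 * (x.val / 24)) (24 * (x.val / 24) + 24)).erase x.val).card = 23 := by
    rw [Finset.card_erase_of_mem]
    · simp
    · rw [Finset.mem_Ico]; omega
  have h2 : ({x.val + 24, x.val - 24} : Finset ℕ).card ≤ 2 := Finset.card_le_two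
  omega

open Classical in
lemma pairs_le (t : ℕ) :
    (Finset.univ.filter (fun p : Fin (24 * t) × Fin (24 * t) => (G t).Adj p.1 p.2)).card
      ≤ 600 * t := by
  rw [Finset.card_eq_sum_card_fiberwise (f := fun p => p.1) (t := Finset.univ) (fun _ _ => by simp)]
  have : ∀ x ∈ (Finset.univ : Finset (Fin (24 * t))),
      ((Finset.univ.filter (fun p : Fin (24 * t) × Fin (24 * t) => (G t).Adj p.1 p.2)).filter
        (fun p => p.1 = x)).card ≤ 25 := by
    intro x _
    refine le_trans ?_ (degree_le t x)
    apply Finset.card_le_card_of_injOn (fun p => p.2)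
    · rintro ⟨a, b⟩ h
      simp only [Finset.coe_filter, Finset.mem_filter, Finset.mem_univ, true_and, Set.mem_ofPred_eq] at h ⊢
      rw [← h.2]; exact h.1
    · rintro ⟨a, b⟩ h ⟨a', b'⟩ h' hb
      simp only [Finset.coe_filter, Finset.mem_filter, Finset.mem_univ, true_and, Set.mem_ofPred_eq] at h h'
      simp only at hb
      rw [h.2, h'.2, hb]
  calc _ ≤ ∑ _x : Fin (24 * t), 25 := Finset.sum_le_sum this
    _ = 600 * t := by simp; ring

open Classical in
lemma pairs_eq {n : ℕ} (H : SimpleGraph (Fin n)) :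
    (Finset.univ.filter (fun p : Fin n × Fin n => H.Adj p.1 p.2)).card = 2 * H.edgeSet.ncard := by
  have h1 := H.sum_degrees_eq_twice_card_edges
  rw [Set.ncard_eq_toFinset_card']
  have h2 : H.edgeSet.toFinset = H.edgeFinset := rfl
  rw [h2, ← h1]
  rw [Finset.card_eq_sum_card_fiberwise (f := fun p => p.1) (t := Finset.univ) (fun _ _ => by simp)]
  apply Finset.sum_congr rfl
  intro x _
  rw [← SimpleGraph.card_neighborFinset_eq_degree]
  apply Finset.card_bij (fun p _ => p.2)
  · rintro ⟨a, b⟩ h
    simp only [Finset.mem_filter, Finset.mem_univ, true_and] at h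
    rw [SimpleGraph.mem_neighborFinset, ← h.2]
    exact h.1
  · rintro ⟨a, b⟩ h ⟨a', b'⟩ h' hb
    simp only [Finset.mem_filter, Finset.mem_univ, true_and] at h h'
    simp only at hb
    rw [h.2, h'.2, hb]
  · intro y hy
    rw [SimpleGraph.mem_neighborFinset] at hy
    exact ⟨(x, y), by simp [hy], rfl⟩

open Classical in
lemma cut_le (t : ℕ) (c : Fin (24 * t) → Fin 16) :
    {p : Fin (24 * t) × Fin (24 * t) | (G t).Adj p.1 p.2 ∧ c p.1 ≠ c p.2}.ncard + 16 * t
      ≤ 2 * (G t).edgeSet.ncard := by
  have h0 : {p : Fin (24 * t) × Fin (24 * t) | (G t).Adj p.1 p.2 ∧ c p.1 ≠ c p.2}.ncard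
      = (Finset.univ.filter (fun p : Fin (24 * t) × Fin (24 * t) =>
          (G t).Adj p.1 p.2 ∧ c p.1 ≠ c p.2)).card := by
    rw [Set.ncard_eq_toFinset_card']
    congr 1
    ext p
    simp
  rw [h0, ← pairs_eq]
  let f : Fin (24 * t) → Fin t × Fin 16 := fun x => (⟨x.val / 24, by have := x.2; omega⟩, c x)
  have h1 := collide f
  simp only [Fintype.card_fin, Fintype.card_prod] at h1
  have h2 := Finset.card_filter_add_card_filter_not
    (s := (Finset.univ.filter (fun p : Fin (24 * t) × Fin (24 * t) => (G t).Adj p.1 p.2)))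
    (fun p => c p.1 = c p.2)
  rw [Finset.filter_filter, Finset.filter_filter] at h2
  have h2' : (Finset.univ.filter (fun p : Fin (24 * t) × Fin (24 * t) =>
          (G t).Adj p.1 p.2 ∧ c p.1 = c p.2)).card + (Finset.univ.filter (fun p : Fin (24 * t) × Fin (24 * t) =>
          (G t).Adj p.1 p.2 ∧ c p.1 ≠ c p.2)).card =
      (Finset.univ.filter (fun p : Fin (24 * t) × Fin (24 * t) => (G t).Adj p.1 p.2)).card := by
    rw [← h2]
  have h3 : (Finset.univ.filter (fun p : Fin (24 * t) × Fin (24 * t) => p.1 ≠ p.2 ∧ f p.1 = f p.2)).card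
      ≤ (Finset.univ.filter (fun p : Fin (24 * t) × Fin (24 * t) =>
          (G t).Adj p.1 p.2 ∧ c p.1 = c p.2)).card := by
    apply Finset.card_le_card
    rintro ⟨x, y⟩ h
    simp only [Finset.mem_filter, Finset.mem_univ, true_and, f, Prod.mk.injEq, Fin.mk.injEq] at h ⊢
    exact ⟨⟨h.1, Or.inl h.2.1⟩, h.2.2⟩
  omega

end H10cut
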