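import Mathlib

set_option autoImplicit false

namespace Pool.Agent.H10Fano

open Finset

section defs

variable {V E : Type} [Fintype V] [DecidableEq V] [Fintype E] [DecidableEq E]

/-- For a loopless multigraph with vertex type `V`, edge type `E`, the edge `e` joining `s e` and
`t e`: the number of edges of the edge set `C` incident with the vertex `v`. -/
def deg (s t : E → V) (C : Finset E) (v : V) : ℕ := (C.filter (fun e => s e = v ∨ t e = v)).card

/-- every vertex has degree `3` -/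
def IsCubic (s t : E → V) : Prop := ∀ v, deg s t univ v = 3

/-- `C` is (the edge set of) a 2-factor -/
def IsTwoFactor (s t : E → V) (C : Finset E) : Prop := ∀ v, deg s t C v = 2

/-- `C` is an even subgraph -/
def IsEvenSub (s t : E → V) (C : Finset E) : Prop := ∀ v, Even (deg s t C v)

/-- The cubic graph has an `F_k`-flow: a nowhere-zero flow with values in `Z_2^3` such that the set
of lines (sets of the values on the edges at a vertex) has at most `k` elements. -/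
def HasFanoFlow (s t : E → V) (k : ℕ) : Prop :=
  ∃ f : E → (Fin 3 → ZMod 2), (∀ e, f e ≠ 0) ∧
    (∀ v, ∑ e ∈ univ.filter (fun e => s e = v ∨ t e = v), f e = 0) ∧
    (univ.image (fun v : V => (univ.filter (fun e => s e = v ∨ t e = v)).image f)).card ≤ k

end defs

/-! ### the truncated Petersen graph -/

def sL : List (Fin 30) := [0, 3, 6, 9, 1, 2, 5, 8, 11, 14, 16, 19, 22, 17, 20, 1, 2, 0, 4, 5, 3, 7, 8, 6, 10, 11, 9, 13, 14, 12, 16, 17, 15, 19, 20, 18, 22, 23, 21, 25, 26, 24, 28, 29, 27]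
def tL : List (Fin 30) := [4, 7, 10, 13, 12, 15, 18, 21, 24, 27, 23, 26, 29, 25, 28, 2, 0, 1, 5, 3, 4, 8, 6, 7, 11, 9, 10, 14, 12, 13, 17, 15, 16, 20, 18, 19, 23, 21, 22, 26, 24, 25, 29, 27, 28]
def aL : List (Fin 45) := [0, 4, 5, 1, 0, 6, 2, 1, 7, 3, 2, 8, 4, 3, 9, 5, 10, 13, 6, 11, 14, 7, 12, 10, 8, 13, 11, 9, 14, 12]
def bL : List (Fin 45) := [16, 17, 15, 19, 20, 18, 22, 23, 21, 25, 26, 24, 28, 29, 27, 31, 32, 30, 34, 35, 33, 37, 38, 36, 40, 41, 39, 43, 44, 42]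
def cL : List (Fin 45) := [17, 15, 16, 20, 18, 19, 23, 21, 22, 26, 24, 25, 29, 27, 28, 32, 30, 31, 35, 33, 34, 38, 36, 37, 41, 39, 40, 44, 42, 43]
def codeL : List ℕ := [4, 3, 6, 1, 7, 3, 7, 5, 7, 6, 6, 2, 3, 5, 5, 4, 7, 3, 3, 4, 7, 6, 3, 5, 1, 6, 7, 7, 1, 6, 3, 6, 5, 7, 2, 5, 5, 3, 6, 7, 5, 2, 6, 5, 3]

def s (e : Fin 45) : Fin 30 := sL.getD e.val 0
def t (e : Fin 45) : Fin 30 := tL.getD e.val 0
def a (w : Fin 30) : Fin 45 := aL.getD w.val 0
def b (w : Fin 30) : Fin 45 := bL.getD w.val 0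
def c (w : Fin 30) : Fin 45 := cL.getD w.val 0
def f (e : Fin 45) : Fin 3 → ZMod 2 := fun i => if (codeL.getD e.val 0).testBit i.val then 1 else 0

lemma loopless : ∀ e, s e ≠ t e := by decide +kernel

lemma inc_iff : ∀ (w : Fin 30) (e : Fin 45), (s e = w ∨ t e = w) ↔ (e = a w ∨ e = b w ∨ e = c w) := by
  decide +kernel

lemma abc : ∀ w : Fin 30, a w ≠ b w ∧ a w ≠ c w ∧ b w ≠ c w := by decide +kernel

lemma inc_set (w : Fin 30) :
    univ.filter (fun e : Fin 45 => s e = w ∨ t e = w) = {a w, b w, c w} := by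
  ext e
  simp only [Finset.mem_filter, Finset.mem_univ, true_and, inc_iff, Finset.mem_insert,
    Finset.mem_singleton]

def B2 (C : Finset (Fin 45)) (e : Fin 45) : Bool := decide (e ∈ C)

lemma deg_eq (C : Finset (Fin 45)) (w : Fin 30) :
    deg s t C w = (B2 C (a w)).toNat + (B2 C (b w)).toNat + (B2 C (c w)).toNat := by
  obtain ⟨h1, h2, h3⟩ := abc w
  have e1 : C.filter (fun e => s e = w ∨ t e = w) =
      ({a w, b w, c w} : Finset (Fin 45)).filter (fun e => e ∈ C) := by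
    rw [← inc_set w]
    ext e
    simp only [Finset.mem_filter, Finset.mem_univ, true_and]
    tauto
  rw [deg, e1, Finset.card_filter, Finset.sum_insert, Finset.sum_insert, Finset.sum_singleton]
  · simp only [B2]
    have hh : ∀ e : Fin 45, (if e ∈ C then 1 else 0) = (decide (e ∈ C)).toNat := by
      intro e
      by_cases h : e ∈ C <;> simp [h]
    rw [hh, hh, hh, add_assoc]
  · simpa using h3
  · simp only [Finset.mem_insert, Finset.mem_singleton, not_or]
    exact ⟨h1, h2⟩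

lemma cubic : IsCubic s t := by
  intro v
  rw [deg_eq]
  simp [B2]

lemma f_ne : ∀ e, f e ≠ 0 := by decide +kernel

lemma f_sum : ∀ w, f (a w) + (f (b w) + f (c w)) = 0 := by decide +kernel

lemma f_lines : (univ.image (fun w : Fin 30 =>
    ({f (a w), f (b w), f (c w)} : Finset (Fin 3 → ZMod 2)))).card ≤ 4 := by
  decide +kernel

lemma flow4 : HasFanoFlow s t 4 := by
  refine ⟨f, f_ne, ?_, ?_⟩
  · intro w
    obtain ⟨h1, h2, h3⟩ := abc w
    rw [inc_set, Finset.sum_insert, Finset.sum_insert, Finset.sum_singleton]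
    · exact f_sum w
    · simpa using h3
    · simp only [Finset.mem_insert, Finset.mem_singleton, not_or]
      exact ⟨h1, h2⟩
  · have : (fun v : Fin 30 => (univ.filter (fun e => s e = v ∨ t e = v)).image f) =
        fun w : Fin 30 => ({f (a w), f (b w), f (c w)} : Finset (Fin 3 → ZMod 2)) := by
      funext w
      rw [inc_set]
      simp [Finset.image_insert, Finset.image_singleton]
    rw [this]
    exact f_lines

def C0 : Finset (Fin 45) := univ.filter (fun e => 15 ≤ e.val)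

lemma mem_C0 (e : Fin 45) : e ∈ C0 ↔ 15 ≤ e.val := by simp [C0]

lemma C0_two : IsTwoFactor s t C0 := by
  intro v
  rw [deg_eq]
  have : ∀ w : Fin 30, (a w).val < 15 ∧ 15 ≤ (b w).val ∧ 15 ≤ (c w).val := by decide +kernel
  obtain ⟨h1, h2, h3⟩ := this v
  simp [B2, mem_C0, h1, h2, h3]

/-- the vertex `i` of the `v`-th triangle -/
def vx (v : Fin 10) (i : Fin 3) : Fin 30 := ⟨3 * v.val + i.val, by omega⟩
/-- the triangle edge opposite to it -/
def te (v : Fin 10) (i : Fin 3) : Fin 45 := ⟨15 + 3 * v.val + i.val, by omega⟩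

lemma tri : ∀ v : Fin 10, b (vx v 0) = te v 1 ∧ c (vx v 0) = te v 2 ∧
    b (vx v 1) = te v 2 ∧ c (vx v 1) = te v 0 ∧ b (vx v 2) = te v 0 ∧ c (vx v 2) = te v 1 := by
  decide +kernel

def st (x X : Bool) : Fin 3 := if x = false then 2 else if X = true then 1 else 0

def Dst (x y z : Fin 3) : Prop := x ≠ y ∧ y ≠ z ∧ x ≠ z

instance (x y z : Fin 3) : Decidable (Dst x y z) := by unfold Dst; infer_instance

lemma loc : ∀ x0 x1 x2 y0 y1 y2 : Bool,
    x0.toNat + y1.toNat + y2.toNat = 2 → x1.toNat + y2.toNat + y0.toNat = 2 →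
    x2.toNat + y0.toNat + y1.toNat = 2 → ∀ X0 X1 X2 Y0 Y1 Y2 : Bool,
    Even (X0.toNat + Y1.toNat + Y2.toNat) → Even (X1.toNat + Y2.toNat + Y0.toNat) →
    Even (X2.toNat + Y0.toNat + Y1.toNat) →
    (x0 = true ∨ X0 = true) → (x1 = true ∨ X1 = true) → (x2 = true ∨ X2 = true) →
    Dst (st x0 X0) (st x1 X1) (st x2 X2) := by
  decide +kernel

lemma petersen : ∀ o0 o4 s0 : Fin 3, Dst o0 o4 s0 → ∀ o1 s1 : Fin 3, Dst o1 o0 s1 →
    ∀ o2 s2 : Fin 3, Dst o2 o1 s2 → ∀ o3 s3 : Fin 3, Dst o3 o2 s3 → ∀ s4 : Fin 3, Dst o4 o3 s4 →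
    ∀ n0 n3 : Fin 3, Dst s0 n0 n3 → ∀ n1 n4 : Fin 3, Dst s1 n1 n4 → ∀ n2 : Fin 3, Dst s2 n2 n0 →
    Dst s3 n3 n1 → Dst s4 n4 n2 → False := by
  decide +kernel

theorem no_cover (C1 C2 : Finset (Fin 45)) (h1 : IsTwoFactor s t C1) (h2 : IsEvenSub s t C2)
    (h : C0 ∪ C1 ∪ C2 = univ) : False := by
  have hcov : ∀ e : Fin 45, e.val < 15 → (B2 C1 e = true ∨ B2 C2 e = true) := by
    intro e he
    have : e ∈ C0 ∪ C1 ∪ C2 := by rw [h]; exact Finset.mem_univ _
    simp only [Finset.mem_union, mem_C0] at this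
    simp only [B2, decide_eq_true_eq]
    rcases this with (h' | h') | h'
    · omega
    · exact Or.inl h'
    · exact Or.inr h'
  have ha : ∀ w : Fin 30, (a w).val < 15 := by decide +kernel
  have key : ∀ v : Fin 10, Dst (st (B2 C1 (a (vx v 0))) (B2 C2 (a (vx v 0))))
      (st (B2 C1 (a (vx v 1))) (B2 C2 (a (vx v 1))))
      (st (B2 C1 (a (vx v 2))) (B2 C2 (a (vx v 2)))) := by
    intro v
    obtain ⟨t1, t2, t3, t4, t5, t6⟩ := tri v
    have p0 := h1 (vx v 0)
    have p1 := h1 (vx v 1)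
    have p2 := h1 (vx v 2)
    have q0 := h2 (vx v 0)
    have q1 := h2 (vx v 1)
    have q2 := h2 (vx v 2)
    rw [deg_eq] at p0 p1 p2 q0 q1 q2
    rw [t1, t2] at p0 q0
    rw [t3, t4] at p1 q1
    rw [t5, t6] at p2 q2
    exact loc _ _ _ _ _ _ p0 p1 p2 _ _ _ _ _ _ q0 q1 q2
      (hcov _ (ha _)) (hcov _ (ha _)) (hcov _ (ha _))
  set g : Fin 45 → Fin 3 := fun e => st (B2 C1 e) (B2 C2 e) with hg
  have k0 : Dst (g 0) (g 4) (g 5) := key 0
  have k1 : Dst (g 1) (g 0) (g 6) := key 1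
  have k2 : Dst (g 2) (g 1) (g 7) := key 2
  have k3 : Dst (g 3) (g 2) (g 8) := key 3
  have k4 : Dst (g 4) (g 3) (g 9) := key 4
  have k5 : Dst (g 5) (g 10) (g 13) := key 5
  have k6 : Dst (g 6) (g 11) (g 14) := key 6
  have k7 : Dst (g 7) (g 12) (g 10) := key 7
  have k8 : Dst (g 8) (g 13) (g 11) := key 8
  have k9 : Dst (g 9) (g 14) (g 12) := key 9
  exact petersen _ _ _ k0 _ _ k1 _ _ k2 _ _ k3 _ k4 _ _ k5 _ _ k6 _ k7 k8 k9

end Pool.Agent.H10Fano
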