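import Mathlib

set_option autoImplicit false

namespace Pool.Agent.H10Net

/-- The edge boundary of a finite vertex set `A`: the set of edges of `H` with exactly one
endpoint in `A`. -/
def edgeBoundary {V : Type} (H : SimpleGraph V) (A : Finset V) : Set (Sym2 V) :=
  {e | ∃ u v, H.Adj u v ∧ u ∈ A ∧ v ∉ A ∧ e = s(u, v)}

/-- The Cheeger constant: infimum of `|∂A| / |A|` over finite nonempty vertex sets `A`. -/
noncomputable def cheeger {V : Type} (H : SimpleGraph V) : ℝ :=
  ⨅ A : {A : Finset V // A.Nonempty}, ((edgeBoundary H A.1).ncard : ℝ) / (A.1.card : ℝ)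

/-- `S` is a `k`-net of `G`: maximal under inclusion subject to `d(u,v) ≥ k` for all distinct
`u, v ∈ S`. -/
def IsNet {V : Type} (G : SimpleGraph V) (k : ℕ) (S : Set V) : Prop :=
  Maximal (fun S : Set V => ∀ u ∈ S, ∀ v ∈ S, u ≠ v → k ≤ G.dist u v) S

/-- The net graph: vertex set `S`, distinct `u, v ∈ S` adjacent iff `d(u,v) ≤ 2k`. -/
def netGraph {V : Type} (G : SimpleGraph V) (k : ℕ) (S : Set V) : SimpleGraph S where
  Adj u v := u ≠ v ∧ G.dist u.1 v.1 ≤ 2 * k
  symm := ⟨fun u v h => ⟨h.1.symm, by rw [SimpleGraph.dist_comm]; exact h.2⟩⟩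
  loopless := ⟨fun _ h => h.1 rfl⟩

/-! ### the base tree -/

abbrev V0 := ℤ × ℕ

def par (v : V0) : V0 := (v.1 - 1, v.2 / 2)

def ch (b : Bool) (v : V0) : V0 := (v.1 + 1, 2 * v.2 + (if b then 1 else 0))

lemma par_ch (b : Bool) (v : V0) : par (ch b v) = v := by
  obtain ⟨n, x⟩ := v
  cases b <;> simp [par, ch] <;> omega

lemma ch_inj {b b' : Bool} {v v' : V0} (h : ch b v = ch b' v') : b = b' ∧ v = v' := by
  have h1 : v = v' := by rw [← par_ch b v, h, par_ch]
  refine ⟨?_, h1⟩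
  subst h1
  have := congrArg Prod.snd h
  cases b <;> cases b' <;> simp [ch] at this ⊢

lemma eq_ch (u v : V0) (h : par u = v) : ∃ b, u = ch b v := by
  obtain ⟨n, x⟩ := u
  subst h
  rcases Nat.mod_two_eq_zero_or_one x with h | h
  · refine ⟨false, ?_⟩
    simp only [par, ch]
    refine Prod.ext (by simp) (by simp; omega)
  · refine ⟨true, ?_⟩
    simp only [par, ch]
    refine Prod.ext (by simp) (by simp; omega)

lemma par_ne (v : V0) : par v ≠ v := by
  intro h
  have := congrArg Prod.fst h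
  simp [par] at this

/-- the blow-up of the base tree by complete graphs on `m + 1` vertices -/
def G (m : ℕ) : SimpleGraph (V0 × Fin (m + 1)) where
  Adj a b := (par a.1 = b.1 ∨ par b.1 = a.1) ∨ (a.1 = b.1 ∧ a.2 ≠ b.2)
  symm := ⟨fun a b h => by
    rcases h with (h | h) | ⟨h1, h2⟩
    · exact Or.inl (Or.inr h)
    · exact Or.inl (Or.inl h)
    · exact Or.inr ⟨h1.symm, h2.symm⟩⟩
  loopless := ⟨fun a h => by
    rcases h with (h | h) | ⟨h1, h2⟩
    · exact par_ne _ h
    · exact par_ne _ h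
    · exact h2 rfl⟩

/-- neighbours in the base tree (including the vertex itself) -/
def nb (v : V0) : Finset V0 := {v, par v, ch false v, ch true v}

lemma adj_nb (m : ℕ) (a b : V0 × Fin (m + 1)) (h : (G m).Adj a b) : b.1 ∈ nb a.1 := by
  rcases h with (h | h) | ⟨h1, h2⟩
  · simp [nb, h]
  · obtain ⟨c, hc⟩ := eq_ch _ _ h
    rw [hc]
    cases c <;> simp [nb]
  · simp [nb, h1]

lemma locFin (m : ℕ) (a : V0 × Fin (m + 1)) : {b | (G m).Adj a b}.Finite := by
  refine Set.Finite.subset ((nb a.1 ×ˢ (Finset.univ : Finset (Fin (m + 1)))).finite_toSet) ?_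
  intro b hb
  simp only [Finset.coe_product, Finset.coe_univ, Set.mem_prod, Finset.mem_coe, Set.mem_univ,
    and_true]
  exact adj_nb m a b hb

def ball : ℕ → V0 → Finset V0
  | 0, v => {v}
  | r + 1, v => (nb v).biUnion (ball r)

lemma nb_card (v : V0) : (nb v).card ≤ 4 := Finset.card_le_four

lemma ball_card (r : ℕ) (v : V0) : (ball r v).card ≤ 4 ^ r := by
  induction r generalizing v with
  | zero => simp [ball]
  | succ r ih =>
    rw [ball, pow_succ']
    calc _ ≤ (nb v).card * 4 ^ r := Finset.card_biUnion_le_card_mul _ _ _ (fun w _ => ih w)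
      _ ≤ 4 * 4 ^ r := Nat.mul_le_mul_right _ (nb_card v)

lemma ball_succ (r : ℕ) (v : V0) : ball r v ⊆ ball (r + 1) v := by
  intro w hw
  rw [ball, Finset.mem_biUnion]
  exact ⟨v, by simp [nb], hw⟩

lemma ball_mono {r s : ℕ} (h : r ≤ s) (v : V0) : ball r v ⊆ ball s v := by
  induction h with
  | refl => exact subset_rfl
  | step _ ih => exact ih.trans (ball_succ _ v)

lemma walk_ball (m : ℕ) {a b : V0 × Fin (m + 1)} (p : (G m).Walk a b) :
    b.1 ∈ ball p.length a.1 := by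
  induction p with
  | nil => simp [ball]
  | cons h p ih =>
    rw [SimpleGraph.Walk.length_cons, ball, Finset.mem_biUnion]
    exact ⟨_, adj_nb m _ _ h, ih⟩

lemma reach_same (m : ℕ) (v : V0) (i j : Fin (m + 1)) : (G m).Reachable (v, i) (v, j) := by
  by_cases h : i = j
  · rw [h]
  · exact SimpleGraph.Adj.reachable (Or.inr ⟨rfl, h⟩)

lemma reach_up (m : ℕ) (K : ℕ) (n : ℤ) (x : ℕ) (i : Fin (m + 1)) :
    (G m).Reachable ((n, x), i) ((n - K, x / 2 ^ K), i) := by
  induction K with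
  | zero => simp
  | succ K ih =>
    refine ih.trans (SimpleGraph.Adj.reachable (Or.inl (Or.inl ?_)))
    refine Prod.ext ?_ ?_
    · simp only [par]; push_cast; ring
    · simp only [par]; rw [Nat.div_div_eq_div_mul, pow_succ]

lemma reach_zero (m : ℕ) (L n : ℤ) (x : ℕ) (i : Fin (m + 1)) (h : L ≤ n - x) :
    (G m).Reachable ((n, x), i) ((L, 0), i) := by
  have := reach_up m (n - L).toNat n x i
  have h1 : n - ((n - L).toNat : ℤ) = L := by
    rw [Int.toNat_of_nonneg (by omega)]; ring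
  have h2 : x / 2 ^ (n - L).toNat = 0 := by
    apply Nat.div_eq_of_lt
    calc x < 2 ^ x := Nat.lt_two_pow_self
      _ ≤ 2 ^ (n - L).toNat := Nat.pow_le_pow_right (by norm_num) (by omega)
  rw [h1, h2] at this
  exact this

lemma conn (m : ℕ) : (G m).Connected := by
  rw [SimpleGraph.connected_iff]
  refine ⟨?_, ⟨((0, 0), 0)⟩⟩
  rintro ⟨⟨n, x⟩, i⟩ ⟨⟨n', x'⟩, j⟩
  have h1 := reach_zero m (min (n - x) (n' - x')) n x i (min_le_left _ _)
  have h2 := reach_zero m (min (n - x) (n' - x')) n' x' j (min_le_right _ _)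
  exact (h1.trans (reach_same m _ i j)).trans h2.symm

/-! ### transitivity -/

def mkIso (m : ℕ) (e : V0 ≃ V0) (he : ∀ v, par (e v) = e (par v)) (π : Equiv.Perm (Fin (m + 1))) :
    G m ≃g G m where
  toEquiv := e.prodCongr π
  map_rel_iff' := by
    intro a b
    simp only [G, Equiv.prodCongr_apply, Prod.map_fst, Prod.map_snd, he, EmbeddingLike.apply_eq_iff_eq,
      ne_eq]

def seqY (n0 : ℤ) (x0 : ℕ) (n : ℤ) : ℕ := (x0 <<< (n - n0).toNat) >>> (n0 - n).toNat

lemma seqY_self (n0 : ℤ) (x0 : ℕ) : seqY n0 x0 n0 = x0 := by simp [seqY]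

lemma seqY_par (n0 : ℤ) (x0 : ℕ) (n : ℤ) : seqY n0 x0 (n - 1) = seqY n0 x0 n / 2 := by
  unfold seqY
  by_cases h : n ≤ n0
  · have h1 : (n - 1 - n0).toNat = 0 := by omega
    have h2 : (n - n0).toNat = 0 := by omega
    have h3 : (n0 - (n - 1)).toNat = (n0 - n).toNat + 1 := by omega
    rw [h1, h2, h3, Nat.shiftRight_succ]
  · have h1 : (n0 - n).toNat = 0 := by omega
    have h2 : (n0 - (n - 1)).toNat = 0 := by omega
    have h3 : (n - n0).toNat = (n - 1 - n0).toNat + 1 := by omega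
    rw [h1, h2, h3, Nat.shiftLeft_succ]
    simp

def tau (n0 : ℤ) (x0 : ℕ) : V0 ≃ V0 where
  toFun v := (v.1, v.2 ^^^ seqY n0 x0 v.1)
  invFun v := (v.1, v.2 ^^^ seqY n0 x0 v.1)
  left_inv v := by
    refine Prod.ext rfl ?_
    simp
  right_inv v := by
    refine Prod.ext rfl ?_
    simp

lemma tau_par (n0 : ℤ) (x0 : ℕ) (v : V0) : par (tau n0 x0 v) = tau n0 x0 (par v) := by
  obtain ⟨n, x⟩ := v
  simp only [par, tau, Equiv.coe_fn_mk]
  refine Prod.ext rfl ?_
  simp only
  rw [seqY_par]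
  have := @Nat.shiftRight_xor_distrib 1 x (seqY n0 x0 n)
  simpa [Nat.shiftRight_succ] using this

def shf (k : ℤ) : V0 ≃ V0 where
  toFun v := (v.1 + k, v.2)
  invFun v := (v.1 - k, v.2)
  left_inv v := by simp
  right_inv v := by simp

lemma shf_par (k : ℤ) (v : V0) : par (shf k v) = shf k (par v) := by
  simp only [par, shf, Equiv.coe_fn_mk]
  refine Prod.ext ?_ rfl
  simp only; ring

lemma trans (m : ℕ) (a b : V0 × Fin (m + 1)) : ∃ φ : G m ≃g G m, φ a = b := by
  obtain ⟨⟨n, x⟩, i⟩ := a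
  obtain ⟨⟨n', x'⟩, j⟩ := b
  refine ⟨((mkIso m (tau n x) (tau_par n x) (Equiv.swap i j)).trans
    (mkIso m (shf (n' - n)) (shf_par _) (Equiv.refl _))).trans
    (mkIso m (tau n' x') (tau_par n' x') (Equiv.refl _)), ?_⟩
  simp only [RelIso.trans_apply]
  refine Prod.ext ?_ ?_
  · show tau n' x' (shf (n' - n) (tau n x (n, x))) = (n', x')
    simp only [tau, shf, Equiv.coe_fn_mk, seqY_self]
    refine Prod.ext (by simp) ?_
    simp [seqY_self]
  · exact Equiv.swap_apply_left i j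

/-! ### Cheeger constants -/

lemma boundary_finite {V : Type} (H : SimpleGraph V) (hf : ∀ v, {w | H.Adj v w}.Finite)
    (A : Finset V) : (edgeBoundary H A).Finite := by
  refine Set.Finite.subset (Set.Finite.biUnion A.finite_toSet
    (fun u _ => (hf u).image (fun v => s(u, v)))) ?_
  rintro e ⟨u, v, h, hu, hv, rfl⟩
  simp only [Set.mem_iUnion]
  exact ⟨u, hu, v, h, rfl⟩

lemma boundary_lower (m : ℕ) (A : Finset (V0 × Fin (m + 1))) :
    (m + 1) * A.card ≤ (edgeBoundary (G m) A).ncard := by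
  classical
  set Q : Finset ((V0 × Fin (m + 1)) × (Bool × Fin (m + 1))) := A ×ˢ Finset.univ with hQ
  have hQc : Q.card = A.card * (2 * (m + 1)) := by
    rw [hQ, Finset.card_product]; simp
  let P : (V0 × Fin (m + 1)) × (Bool × Fin (m + 1)) → Prop :=
    fun q => ((ch q.2.1 q.1.1, q.2.2) : V0 × Fin (m + 1)) ∈ A
  have hsplit := Finset.card_filter_add_card_filter_not (s := Q) P
  have h1 : (Q.filter P).card ≤ A.card * (m + 1) := by
    have : (Q.filter P).card ≤ (A ×ˢ (Finset.univ : Finset (Fin (m + 1)))).card := by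
      apply Finset.card_le_card_of_injOn
        (fun q => (((ch q.2.1 q.1.1, q.2.2) : V0 × Fin (m + 1)), q.1.2))
      · intro q hq
        simp only [Finset.coe_filter] at hq
        simp only [Finset.coe_product, Finset.coe_univ, Set.mem_prod, Finset.mem_coe,
          Set.mem_univ, and_true]
        exact hq.2
      · rintro ⟨⟨v, i⟩, ⟨b, j⟩⟩ _ ⟨⟨v', i'⟩, ⟨b', j'⟩⟩ _ h
        simp only [Prod.mk.injEq] at h
        obtain ⟨⟨h1, h2⟩, h3⟩ := h
        obtain ⟨e1, e2⟩ := ch_inj h1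
        subst e1 e2 h2 h3
        rfl
    rw [Finset.card_product, Finset.card_univ, Fintype.card_fin] at this
    exact this
  have h2 : (Q.filter (fun q => ¬ P q)).card ≤ (edgeBoundary (G m) A).ncard := by
    rw [← Set.ncard_coe_finset]
    refine Set.ncard_le_ncard_of_injOn
      (fun q => s(q.1, ((ch q.2.1 q.1.1, q.2.2) : V0 × Fin (m + 1)))) ?_ ?_
      (boundary_finite _ (locFin m) A)
    · intro q hq
      simp only [Finset.coe_filter] at hq
      have hqA : q.1 ∈ A := by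
        have := hq.1
        rw [hQ, Finset.mem_product] at this
        exact this.1
      refine ⟨q.1, (ch q.2.1 q.1.1, q.2.2), ?_, hqA, hq.2, rfl⟩
      exact Or.inl (Or.inr (par_ch _ _))
    · rintro ⟨⟨v, i⟩, ⟨b, j⟩⟩ hq ⟨⟨v', i'⟩, ⟨b', j'⟩⟩ hq' h
      simp only [Finset.coe_filter] at hq hq'
      have hA : (v, i) ∈ A := by
        have := hq.1
        rw [hQ, Finset.mem_product] at this
        exact this.1
      have hA' : (v', i') ∈ A := by
        have := hq'.1
        rw [hQ, Finset.mem_product] at this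
        exact this.1
      have hB : ((ch b v, j) : V0 × Fin (m + 1)) ∉ A := hq.2
      have hB' : ((ch b' v', j') : V0 × Fin (m + 1)) ∉ A := hq'.2
      simp only [Sym2.eq_iff] at h
      rcases h with ⟨h1, h2⟩ | ⟨h1, h2⟩
      · obtain ⟨e1, e2⟩ := Prod.mk.inj h1
        obtain ⟨e3, e4⟩ := Prod.mk.inj h2
        obtain ⟨e5, -⟩ := ch_inj e3
        subst e1 e2 e4 e5
        rfl
      · exfalso
        rw [h1] at hA
        exact hB' hA
  have h3 : (m + 1) * A.card + A.card * (m + 1) = A.card * (2 * (m + 1)) := by ring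
  omega

lemma cheeger_lower (m : ℕ) : ((m + 1 : ℕ) : ℝ) ≤ cheeger (G m) := by
  haveI : Nonempty {A : Finset (V0 × Fin (m + 1)) // A.Nonempty} :=
    ⟨⟨{((0, 0), 0)}, Finset.singleton_nonempty _⟩⟩
  apply le_ciInf
  rintro ⟨A, hA⟩
  have hpos : (0 : ℝ) < (A.card : ℝ) := by exact_mod_cast Finset.card_pos.mpr hA
  rw [le_div_iff₀ hpos]
  exact_mod_cast boundary_lower m A

lemma net_nonempty (m k : ℕ) (S : Set (V0 × Fin (m + 1))) (hS : IsNet (G m) k S) : S.Nonempty := by
  by_contra h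
  rw [Set.not_nonempty_iff_eq_empty] at h
  have := hS.2 (y := {((0, 0), 0)}) (by
    intro u hu v hv huv
    rw [Set.mem_singleton_iff] at hu hv
    exact absurd (hu.trans hv.symm) huv) (by rw [h]; exact Set.empty_subset _)
  rw [h] at this
  exact this (Set.mem_singleton _)

lemma fst_inj (m k : ℕ) (hk : 2 ≤ k) (S : Set (V0 × Fin (m + 1))) (hS : IsNet (G m) k S)
    (u v : V0 × Fin (m + 1)) (hu : u ∈ S) (hv : v ∈ S) (h : u.1 = v.1) : u = v := by
  by_contra hne
  have h1 := hS.1 u hu v hv hne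
  have hadj : (G m).Adj u v := by
    refine Or.inr ⟨h, ?_⟩
    intro h2
    exact hne (Prod.ext h h2)
  have h2 : (G m).dist u v = 1 := SimpleGraph.dist_eq_one_iff_adj.mpr hadj
  omega

lemma dist_ball (m r : ℕ) (a b : V0 × Fin (m + 1)) (h : (G m).dist a b ≤ r) :
    b.1 ∈ ball r a.1 := by
  obtain ⟨p, hp⟩ := (conn m).exists_walk_length_eq_dist a b
  have := walk_ball m p
  rw [hp] at this
  exact ball_mono h _ this

lemma net_locFin (m k : ℕ) (hk : 2 ≤ k) (S : Set (V0 × Fin (m + 1))) (hS : IsNet (G m) k S)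
    (u : S) : {w | (netGraph (G m) k S).Adj u w}.Finite ∧
      {w | (netGraph (G m) k S).Adj u w}.ncard ≤ 4 ^ (2 * k) := by
  have hmap : Set.MapsTo (fun w : S => w.1.1) {w | (netGraph (G m) k S).Adj u w}
      (ball (2 * k) u.1.1 : Set V0) := by
    intro w hw
    exact dist_ball m (2 * k) u.1 w.1 hw.2
  have hinj : Set.InjOn (fun w : S => w.1.1) {w | (netGraph (G m) k S).Adj u w} := by
    intro w _ w' _ h
    exact Subtype.ext (fst_inj m k hk S hS _ _ w.2 w'.2 h)
  refine ⟨Set.Finite.of_injOn hmap hinj (Finset.finite_toSet _), ?_⟩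
  calc _ ≤ (ball (2 * k) u.1.1 : Set V0).ncard :=
        Set.ncard_le_ncard_of_injOn _ hmap hinj (Finset.finite_toSet _)
    _ = (ball (2 * k) u.1.1).card := Set.ncard_coe_finset _
    _ ≤ 4 ^ (2 * k) := ball_card _ _

lemma cheeger_upper (m k : ℕ) (hk : 2 ≤ k) (S : Set (V0 × Fin (m + 1))) (hS : IsNet (G m) k S) :
    cheeger (netGraph (G m) k S) ≤ 4 ^ (2 * k) := by
  obtain ⟨u, hu⟩ := net_nonempty m k S hS
  have hb : BddBelow (Set.range (fun A : {A : Finset S // A.Nonempty} =>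
      ((edgeBoundary (netGraph (G m) k S) A.1).ncard : ℝ) / (A.1.card : ℝ))) := by
    refine ⟨0, ?_⟩
    rintro x ⟨A, rfl⟩
    positivity
  refine (ciInf_le hb ⟨{⟨u, hu⟩}, Finset.singleton_nonempty _⟩).trans ?_
  simp only [Finset.card_singleton, Nat.cast_one, div_one]
  obtain ⟨h1, h2⟩ := net_locFin m k hk S hS ⟨u, hu⟩
  have h3 : (edgeBoundary (netGraph (G m) k S) {⟨u, hu⟩}).ncard ≤
      {w | (netGraph (G m) k S).Adj ⟨u, hu⟩ w}.ncard := by
    have : edgeBoundary (netGraph (G m) k S) {⟨u, hu⟩} ⊆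
        (fun w => s(⟨u, hu⟩, w)) '' {w | (netGraph (G m) k S).Adj ⟨u, hu⟩ w} := by
      rintro e ⟨a, b, hab, ha, hb, rfl⟩
      rw [Finset.mem_singleton] at ha
      subst ha
      exact ⟨b, hab, rfl⟩
    exact (Set.ncard_le_ncard this (h1.image _)).trans (Set.ncard_image_le h1)
  exact_mod_cast h3.trans h2

lemma exists_net {V : Type} (H : SimpleGraph V) (k : ℕ) : ∃ S, IsNet H k S := by
  obtain ⟨S, hS⟩ := zorn_subset {S : Set V | ∀ u ∈ S, ∀ v ∈ S, u ≠ v → k ≤ H.dist u v} (by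
    intro c hc hchain
    refine ⟨⋃₀ c, ?_, fun s hs => Set.subset_sUnion_of_mem hs⟩
    rintro u ⟨s, hs, hus⟩ v ⟨t, ht, hvt⟩ huv
    rcases hchain.total hs ht with h | h
    · exact hc ht u (h hus) v hvt huv
    · exact hc hs u hus v (h hvt) huv)
  exact ⟨S, hS⟩

theorem main : ∀ k : ℕ, 2 ≤ k → ∀ ε : ℝ, 0 < ε → ∃ (V : Type) (H : SimpleGraph V),
    Infinite V ∧ H.Connected ∧ (∀ v, {w | H.Adj v w}.Finite) ∧
    (∀ u v, ∃ φ : H ≃g H, φ u = v) ∧
    (∃ S, IsNet H k S) ∧
    ∀ S, IsNet H k S → (∀ v, {w | (netGraph H k S).Adj v w}.Finite) ∧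
      cheeger (netGraph H k S) < ε * cheeger H := by
  intro k hk ε hε
  obtain ⟨m, hm⟩ := exists_nat_gt ((4 : ℝ) ^ (2 * k) / ε)
  refine ⟨V0 × Fin (m + 1), G m, inferInstance, conn m, locFin m, trans m, exists_net _ _, ?_⟩
  intro S hS
  refine ⟨fun v => (net_locFin m k hk S hS v).1, ?_⟩
  have h1 := cheeger_upper m k hk S hS
  have h2 := cheeger_lower m
  rw [div_lt_iff₀ hε] at hm
  push_cast at h2
  nlinarith

end Pool.Agent.H10Net
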