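import Mathlib

set_option autoImplicit false

namespace H10sub

/-- kernel count -/
lemma ker_card {k : ℕ} (φ : Fin k → ZMod 2) (hφ : φ ≠ 0) :
    (Finset.univ.filter (fun x : Fin k → ZMod 2 => ∑ j, φ j * x j = 0)).card * 2
      = Fintype.card (Fin k → ZMod 2) := by
  classical
  obtain ⟨j0, hj0⟩ : ∃ j, φ j ≠ 0 := by
    by_contra h
    push Not at h
    exact hφ (funext h)
  have h1 : φ j0 = 1 := by
    have : ∀ z : ZMod 2, z ≠ 0 → z = 1 := by decide
    exact this _ hj0
  have hbij : (Finset.univ.filter (fun x : Fin k → ZMod 2 => ∑ j, φ j * x j = 0)).card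
      = (Finset.univ.filter (fun x : Fin k → ZMod 2 => ¬ ∑ j, φ j * x j = 0)).card := by
    have key : ∀ x : Fin k → ZMod 2, ∑ j, φ j * (x + (Pi.single j0 1 : Fin k → ZMod 2)) j = ∑ j, φ j * x j + 1 := by
      intro x
      simp only [Pi.add_apply, mul_add, Finset.sum_add_distrib]
      congr 1
      rw [Finset.sum_eq_single j0]
      · simp [h1]
      · intro b _ hb
        simp [Pi.single_eq_of_ne hb]
      · simp
    have h2 : ∀ z : ZMod 2, z + 1 + 1 = z := by decide
    have h3 : ∀ z : ZMod 2, z = 0 → ¬ z + 1 = 0 := by decide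
    have h4 : ∀ z : ZMod 2, ¬ z = 0 → z + 1 = 0 := by decide
    refine Finset.card_bij' (fun x _ => x + Pi.single j0 1) (fun x _ => x + Pi.single j0 1) ?_ ?_ ?_ ?_
    · intro x hx
      simp only [Finset.mem_filter, Finset.mem_univ, true_and] at hx ⊢
      rw [key]
      exact h3 _ hx
    · intro x hx
      simp only [Finset.mem_filter, Finset.mem_univ, true_and] at hx ⊢
      rw [key]
      exact h4 _ hx
    · intro x _
      have : (Pi.single j0 (1 : ZMod 2) + Pi.single j0 1 : Fin k → ZMod 2) = 0 := by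
        rw [← Pi.single_add]
        have : (1 + 1 : ZMod 2) = 0 := by decide
        rw [this]; simp
      rw [add_assoc, this, add_zero]
    · intro x _
      have : (Pi.single j0 (1 : ZMod 2) + Pi.single j0 1 : Fin k → ZMod 2) = 0 := by
        rw [← Pi.single_add]
        have : (1 + 1 : ZMod 2) = 0 := by decide
        rw [this]; simp
      rw [add_assoc, this, add_zero]
  have := Finset.card_filter_add_card_filter_not (s := (Finset.univ : Finset (Fin k → ZMod 2)))
    (fun x : Fin k → ZMod 2 => ∑ j, φ j * x j = 0)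
  rw [Finset.card_univ] at this
  omega

lemma tuple_card {n k : ℕ} (φ : Fin k → ZMod 2) (hφ : φ ≠ 0) (S : Finset (Fin n)) :
    (Finset.univ.filter (fun v : Fin n → Fin k → ZMod 2 => ∀ i ∈ S, ∑ j, φ j * v i j = 0)).card
      * 2 ^ S.card = Fintype.card (Fin n → Fin k → ZMod 2) := by
  classical
  have h1 : (Finset.univ.filter (fun v : Fin n → Fin k → ZMod 2 => ∀ i ∈ S, ∑ j, φ j * v i j = 0))
      = Fintype.piFinset (fun i => if i ∈ S then
          (Finset.univ.filter (fun x : Fin k → ZMod 2 => ∑ j, φ j * x j = 0)) else Finset.univ) := by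
    ext v
    simp only [Finset.mem_filter, Finset.mem_univ, true_and, Fintype.mem_piFinset]
    constructor
    · intro h i
      by_cases hi : i ∈ S
      · simp [hi, h i hi]
      · simp [hi]
    · intro h i hi
      have := h i
      simpa [hi] using this
  rw [h1, Fintype.card_piFinset]
  have h2 : (2 : ℕ) ^ S.card = ∏ i : Fin n, if i ∈ S then 2 else 1 := by
    rw [Finset.prod_ite]
    simp
  rw [h2, ← Finset.prod_mul_distrib]
  have h3 : ∀ i : Fin n, (if i ∈ S then
          (Finset.univ.filter (fun x : Fin k → ZMod 2 => ∑ j, φ j * x j = 0)) else Finset.univ).card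
          * (if i ∈ S then 2 else 1) = Fintype.card (Fin k → ZMod 2) := by
    intro i
    by_cases hi : i ∈ S
    · simp only [hi, if_true]
      exact ker_card φ hφ
    · simp [hi]
  rw [Finset.prod_congr rfl (fun i _ => h3 i)]
  simp

lemma averaging {α : Type*} {n : ℕ} (k ℓ : ℕ) (Q : Finset α) (S : α → Finset (Fin n))
    (hS : ∀ D ∈ Q, (S D).card = ℓ) :
    ∃ v : Fin n → Fin k → ZMod 2,
      (Q.filter (fun D => ∃ φ : Fin k → ZMod 2, φ ≠ 0 ∧ ∀ i ∈ S D, ∑ j, φ j * v i j = 0)).card
        * 2 ^ ℓ ≤ Q.card * 2 ^ k := by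
  classical
  by_contra hcon
  push Not at hcon
  have hsum : ∑ v : Fin n → Fin k → ZMod 2, Q.card * 2 ^ k <
      ∑ v : Fin n → Fin k → ZMod 2,
      (Q.filter (fun D => ∃ φ : Fin k → ZMod 2, φ ≠ 0 ∧ ∀ i ∈ S D, ∑ j, φ j * v i j = 0)).card
        * 2 ^ ℓ := by
    apply Finset.sum_lt_sum_of_nonempty
    · exact Finset.univ_nonempty
    · intro v _
      exact hcon v
  have hle : ∀ v : Fin n → Fin k → ZMod 2,
      (Q.filter (fun D => ∃ φ : Fin k → ZMod 2, φ ≠ 0 ∧ ∀ i ∈ S D, ∑ j, φ j * v i j = 0)).card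
      ≤ ∑ D ∈ Q, ∑ φ ∈ (Finset.univ.filter (fun φ : Fin k → ZMod 2 => φ ≠ 0)),
          if (∀ i ∈ S D, ∑ j, φ j * v i j = 0) then 1 else 0 := by
    intro v
    rw [Finset.card_filter]
    apply Finset.sum_le_sum
    intro D _
    split_ifs with h
    · obtain ⟨φ, hφ0, hφ⟩ := h
      have : (if (∀ i ∈ S D, ∑ j, φ j * v i j = 0) then 1 else 0) = 1 := by
        rw [if_pos hφ]
      calc 1 = (if (∀ i ∈ S D, ∑ j, φ j * v i j = 0) then 1 else 0) := this.symm
        _ ≤ _ := Finset.single_le_sum (f := fun φ : Fin k → ZMod 2 =>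
            if (∀ i ∈ S D, ∑ j, φ j * v i j = 0) then 1 else 0) (fun _ _ => Nat.zero_le _)
            (by simp [hφ0])
    · exact Nat.zero_le _
  have hdouble : ∑ v : Fin n → Fin k → ZMod 2,
      (∑ D ∈ Q, ∑ φ ∈ (Finset.univ.filter (fun φ : Fin k → ZMod 2 => φ ≠ 0)),
          if (∀ i ∈ S D, ∑ j, φ j * v i j = 0) then 1 else 0) * 2 ^ ℓ
      ≤ ∑ v : Fin n → Fin k → ZMod 2, Q.card * 2 ^ k := by
    rw [← Finset.sum_mul, Finset.sum_comm]
    have : ∀ D ∈ Q, (∑ v : Fin n → Fin k → ZMod 2,
        ∑ φ ∈ (Finset.univ.filter (fun φ : Fin k → ZMod 2 => φ ≠ 0)),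
          if (∀ i ∈ S D, ∑ j, φ j * v i j = 0) then 1 else 0) * 2 ^ ℓ
          ≤ Fintype.card (Fin n → Fin k → ZMod 2) * 2 ^ k := by
      intro D hD
      rw [Finset.sum_comm, Finset.sum_mul]
      have h5 : ∀ φ ∈ (Finset.univ.filter (fun φ : Fin k → ZMod 2 => φ ≠ 0)),
          (∑ v : Fin n → Fin k → ZMod 2, if (∀ i ∈ S D, ∑ j, φ j * v i j = 0) then 1 else 0) * 2 ^ ℓ
          = Fintype.card (Fin n → Fin k → ZMod 2) := by
        intro φ hφ
        rw [Finset.mem_filter] at hφ
        rw [← Finset.card_filter, ← hS D hD]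
        exact tuple_card φ hφ.2 (S D)
      rw [Finset.sum_congr rfl h5, Finset.sum_const, smul_eq_mul, mul_comm]
      apply Nat.mul_le_mul_left
      calc (Finset.univ.filter (fun φ : Fin k → ZMod 2 => φ ≠ 0)).card
          ≤ (Finset.univ : Finset (Fin k → ZMod 2)).card := Finset.card_filter_le _ _
        _ = 2 ^ k := by simp
    calc (∑ D ∈ Q, ∑ v : Fin n → Fin k → ZMod 2,
        ∑ φ ∈ (Finset.univ.filter (fun φ : Fin k → ZMod 2 => φ ≠ 0)),
          if (∀ i ∈ S D, ∑ j, φ j * v i j = 0) then 1 else 0) * 2 ^ ℓ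
        = ∑ D ∈ Q, (∑ v : Fin n → Fin k → ZMod 2,
        ∑ φ ∈ (Finset.univ.filter (fun φ : Fin k → ZMod 2 => φ ≠ 0)),
          if (∀ i ∈ S D, ∑ j, φ j * v i j = 0) then 1 else 0) * 2 ^ ℓ := by rw [Finset.sum_mul]
      _ ≤ ∑ D ∈ Q, Fintype.card (Fin n → Fin k → ZMod 2) * 2 ^ k := Finset.sum_le_sum this
      _ = ∑ v : Fin n → Fin k → ZMod 2, Q.card * 2 ^ k := by
        simp only [Finset.sum_const, smul_eq_mul, Finset.card_univ]
        ring
  have hle2 : ∑ v : Fin n → Fin k → ZMod 2,
      (Q.filter (fun D => ∃ φ : Fin k → ZMod 2, φ ≠ 0 ∧ ∀ i ∈ S D, ∑ j, φ j * v i j = 0)).card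
        * 2 ^ ℓ ≤ ∑ v : Fin n → Fin k → ZMod 2,
      (∑ D ∈ Q, ∑ φ ∈ (Finset.univ.filter (fun φ : Fin k → ZMod 2 => φ ≠ 0)),
          if (∀ i ∈ S D, ∑ j, φ j * v i j = 0) then 1 else 0) * 2 ^ ℓ :=
    Finset.sum_le_sum (fun v _ => Nat.mul_le_mul_right _ (hle v))
  omega

/-- Two distinct nonzero functionals killing `U`. -/
lemma two_functionals {n : ℕ} (k : ℕ) (U : Finset (Fin n)) (hk : U.card + 2 ≤ k)
    (v : Fin n → Fin k → ZMod 2) :
    ∃ φ₁ φ₂ : Fin k → ZMod 2, φ₁ ≠ 0 ∧ φ₂ ≠ 0 ∧ φ₁ + φ₂ ≠ 0 ∧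
      (∀ i ∈ U, ∑ j, φ₁ j * v i j = 0) ∧ (∀ i ∈ U, ∑ j, φ₂ j * v i j = 0) := by
  classical
  -- pigeonhole
  let f : (Fin k → ZMod 2) → (U → ZMod 2) := fun φ i => ∑ j, φ j * v i.1 j
  have hcard : Fintype.card (U → ZMod 2) * 2 < Fintype.card (Fin k → ZMod 2) := by
    simp only [Fintype.card_fun, ZMod.card, Fintype.card_coe, Fintype.card_fin]
    calc 2 ^ U.card * 2 = 2 ^ (U.card + 1) := by ring
      _ < 2 ^ k := Nat.pow_lt_pow_right (by norm_num) (by omega)
  obtain ⟨y, hy⟩ := Fintype.exists_lt_card_fiber_of_mul_lt_card f hcard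
  rw [Finset.two_lt_card] at hy
  obtain ⟨a, ha, b, hb, c, hc, hab, hac, hbc⟩ := hy
  simp only [Finset.mem_filter, Finset.mem_univ, true_and] at ha hb hc
  have hself : ∀ x : Fin k → ZMod 2, x + x = 0 := by
    intro x
    funext j
    have : ∀ z : ZMod 2, z + z = 0 := by decide
    exact this _
  refine ⟨a + b, a + c, ?_, ?_, ?_, ?_, ?_⟩
  · intro h
    apply hab
    calc a = a + b + b := by rw [add_assoc, hself, add_zero]
      _ = b := by rw [h, zero_add]
  · intro h
    apply hac
    calc a = a + c + c := by rw [add_assoc, hself, add_zero]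
      _ = c := by rw [h, zero_add]
  · intro h
    apply hbc
    have h2 : a + b + (a + c) = b + c := by
      calc a + b + (a + c) = (a + a) + (b + c) := by abel
        _ = b + c := by rw [hself, zero_add]
    rw [h2] at h
    calc b = b + c + c := by rw [add_assoc, hself, add_zero]
      _ = c := by rw [h, zero_add]
  · intro i hi
    have h1 := congrFun (ha.trans hb.symm) ⟨i, hi⟩
    simp only [f] at h1
    simp only [Pi.add_apply, add_mul, Finset.sum_add_distrib]
    rw [h1]
    have : ∀ z : ZMod 2, z + z = 0 := by decide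
    exact this _
  · intro i hi
    have h1 := congrFun (ha.trans hc.symm) ⟨i, hi⟩
    simp only [f] at h1
    simp only [Pi.add_apply, add_mul, Finset.sum_add_distrib]
    rw [h1]
    have : ∀ z : ZMod 2, z + z = 0 := by decide
    exact this _

/-- One functional kills `U` and at least a third of `D`. -/
lemma third {n : ℕ} (k m : ℕ) (U D : Finset (Fin n)) (hk : U.card + 2 ≤ k)
    (hD : 3 * m < D.card)
    (v : Fin n → Fin k → ZMod 2) :
    ∃ φ : Fin k → ZMod 2, φ ≠ 0 ∧ (∀ i ∈ U, ∑ j, φ j * v i j = 0) ∧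
      m < (D.filter (fun i => ∑ j, φ j * v i j = 0)).card := by
  classical
  obtain ⟨φ₁, φ₂, h1, h2, h3, hU1, hU2⟩ := two_functionals k U hk v
  by_contra hcon
  push Not at hcon
  have c1 := hcon φ₁ h1 hU1
  have c2 := hcon φ₂ h2 hU2
  have c3 := hcon (φ₁ + φ₂) h3 (by
    intro i hi
    simp only [Pi.add_apply, add_mul, Finset.sum_add_distrib]
    rw [hU1 i hi, hU2 i hi, add_zero])
  have hsub : D ⊆ (D.filter (fun i => ∑ j, φ₁ j * v i j = 0)) ∪
      (D.filter (fun i => ∑ j, φ₂ j * v i j = 0)) ∪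
      (D.filter (fun i => ∑ j, (φ₁ + φ₂) j * v i j = 0)) := by
    intro i hi
    simp only [Finset.mem_union, Finset.mem_filter, hi, true_and]
    simp only [Pi.add_apply, add_mul, Finset.sum_add_distrib]
    have : ∀ x y : ZMod 2, (x = 0 ∨ y = 0) ∨ x + y = 0 := by decide
    exact this _ _
  have hc := Finset.card_le_card hsub
  have hc2 := Finset.card_union_le ((D.filter (fun i => ∑ j, φ₁ j * v i j = 0)) ∪
      (D.filter (fun i => ∑ j, φ₂ j * v i j = 0))) (D.filter (fun i => ∑ j, (φ₁ + φ₂) j * v i j = 0))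
  have hc3 := Finset.card_union_le (D.filter (fun i => ∑ j, φ₁ j * v i j = 0))
      (D.filter (fun i => ∑ j, φ₂ j * v i j = 0))
  omega

end H10sub

namespace H10sub

open Classical in
/-- The construction. -/
lemma construction (n m : ℕ) (hm : 1 ≤ m) :
    ∃ F : Finset (Fin n → Option Bool),
      (∀ x ∈ F, (Finset.univ.filter (fun i => x i = none)).card = 2) ∧
      (∀ C : Fin n → Option Bool,
        (Finset.univ.filter (fun i => C i = none)).card = 3 * m + 2 →
        ¬ (∀ D : Fin n → Option Bool,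
            (Finset.univ.filter (fun i => D i = none)).card = 2 →
            (∀ (i : Fin n) (b : Bool), C i = some b → D i = some b) → D ∈ F)) ∧
      2 ^ (m - 1) * ((Finset.univ : Finset (Fin n → Option Bool)).filter
              (fun D => (Finset.univ.filter (fun i => D i = none)).card = 2)).card ≤
        2 ^ (m - 1) * F.card + ((Finset.univ : Finset (Fin n → Option Bool)).filter
              (fun D => (Finset.univ.filter (fun i => D i = none)).card = 2)).card := by
  set Q := ((Finset.univ : Finset (Fin n → Option Bool)).filter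
              (fun D => (Finset.univ.filter (fun i => D i = none)).card = 2)) with hQ
  let ones : (Fin n → Option Bool) → Finset (Fin n) :=
    fun D => Finset.univ.filter (fun i => D i = some true)
  have hav : ∀ ℓ : ℕ, ∃ v : Fin n → Fin (ℓ - (m - 1)) → ZMod 2,
      ((Q.filter (fun D => (ones D).card = ℓ)).filter
        (fun D => ∃ φ : Fin (ℓ - (m - 1)) → ZMod 2, φ ≠ 0 ∧
          ∀ i ∈ ones D, ∑ j, φ j * v i j = 0)).card * 2 ^ ℓ
        ≤ (Q.filter (fun D => (ones D).card = ℓ)).card * 2 ^ (ℓ - (m - 1)) := by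
    intro ℓ
    obtain ⟨v, hv⟩ := averaging (ℓ - (m - 1)) ℓ (Q.filter (fun D => (ones D).card = ℓ)) ones
      (by intro D hD; exact (Finset.mem_filter.mp hD).2)
    refine ⟨v, ?_⟩
    convert hv
  choose v hv using hav
  let P : ℕ → (Fin n → Option Bool) → Prop := fun ℓ D =>
    ∃ φ : Fin (ℓ - (m - 1)) → ZMod 2, φ ≠ 0 ∧ ∀ i ∈ ones D, ∑ j, φ j * v ℓ i j = 0
  let bad : (Fin n → Option Bool) → Prop := fun D => P (ones D).card D
  have hbadP : ∀ ℓ D, (ones D).card = ℓ → (bad D ↔ P ℓ D) := by
    rintro ℓ D rfl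
    exact Iff.rfl
  have hlayer : ∀ ℓ, ((Q.filter bad).filter (fun D => (ones D).card = ℓ)).card * 2 ^ (m - 1)
      ≤ (Q.filter (fun D => (ones D).card = ℓ)).card := by
    intro ℓ
    have heq : (Q.filter bad).filter (fun D => (ones D).card = ℓ)
        = (Q.filter (fun D => (ones D).card = ℓ)).filter (P ℓ) := by
      ext D
      simp only [Finset.mem_filter]
      constructor
      · rintro ⟨⟨h1, h2⟩, h3⟩
        exact ⟨⟨h1, h3⟩, (hbadP ℓ D h3).1 h2⟩
      · rintro ⟨⟨h1, h3⟩, h2⟩
        exact ⟨⟨h1, (hbadP ℓ D h3).2 h2⟩, h3⟩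
    rw [heq]
    by_cases hℓ : m - 1 ≤ ℓ
    · have h1 := hv ℓ
      have h2 : (2 : ℕ) ^ ℓ = 2 ^ (m - 1) * 2 ^ (ℓ - (m - 1)) := by
        rw [← pow_add]; congr 1; omega
      rw [h2, ← mul_assoc] at h1
      exact Nat.le_of_mul_le_mul_right h1 (by positivity)
    · have h0 : ℓ - (m - 1) = 0 := by omega
      have : (Q.filter (fun D => (ones D).card = ℓ)).filter (P ℓ) = ∅ := by
        apply Finset.filter_false_of_mem
        rintro D _ ⟨φ, hφ, _⟩
        apply hφ
        funext j
        exact absurd j.2 (by omega)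
      rw [this]; simp
  have hbadcard : (Q.filter bad).card * 2 ^ (m - 1) ≤ Q.card := by
    have hmaps : ∀ (s : Finset (Fin n → Option Bool)), ∀ D ∈ s, (ones D).card ∈ Finset.range (n + 1) := by
      intro s D _
      rw [Finset.mem_range]
      have := Finset.card_le_univ (ones D)
      simp at this
      omega
    have e1 := Finset.card_eq_sum_card_fiberwise (f := fun D => (ones D).card) (s := Q.filter bad)
      (t := Finset.range (n + 1)) (fun D hD => by exact_mod_cast hmaps _ D hD)
    have e2 := Finset.card_eq_sum_card_fiberwise (f := fun D => (ones D).card) (s := Q)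
      (t := Finset.range (n + 1)) (fun D hD => by exact_mod_cast hmaps _ D hD)
    rw [e1, e2, Finset.sum_mul]
    exact Finset.sum_le_sum (fun ℓ _ => hlayer ℓ)
  refine ⟨Q.filter (fun D => ¬ bad D), ?_, ?_, ?_⟩
  · intro x hx
    have := (Finset.mem_filter.mp hx).1
    rw [hQ, Finset.mem_filter] at this
    exact this.2
  · intro C hC hall
    set U := ones C with hU
    set Ds := Finset.univ.filter (fun i => C i = none) with hDs
    obtain ⟨φ, hφ0, hφU, hφD⟩ := third (U.card + (m + 1) - (m - 1)) m U Ds (by omega) (by omega)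
      (v (U.card + (m + 1)))
    obtain ⟨X, hX, hXc⟩ := Finset.exists_subset_card_eq (show m + 1 ≤ _ from hφD)
    have hXD : X ⊆ Ds := hX.trans (Finset.filter_subset _ _)
    have hcard : 2 ≤ (Ds \ X).card := by
      rw [Finset.card_sdiff_of_subset hXD]; omega
    obtain ⟨Y, hY, hYc⟩ := Finset.exists_subset_card_eq hcard
    let D : Fin n → Option Bool := fun i =>
      if i ∈ Y then none else if i ∈ X then some true else some ((C i).getD false)
    have hYD : ∀ i ∈ Y, C i = none ∧ i ∉ X := by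
      intro i hi
      have := hY hi
      rw [Finset.mem_sdiff, hDs, Finset.mem_filter] at this
      exact ⟨this.1.2, this.2⟩
    have hXn : ∀ i ∈ X, C i = none := by
      intro i hi
      have := hXD hi
      rw [hDs, Finset.mem_filter] at this
      exact this.2
    have hDnone : (Finset.univ.filter (fun i => D i = none)) = Y := by
      ext i
      simp only [Finset.mem_filter, Finset.mem_univ, true_and, D]
      by_cases hi : i ∈ Y
      · simp [hi]
      · by_cases hi2 : i ∈ X <;> simp [hi, hi2]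
    have hones : ones D = U ∪ X := by
      ext i
      simp only [ones, hU, Finset.mem_filter, Finset.mem_univ, true_and, D, Finset.mem_union]
      by_cases hi : i ∈ Y
      · have := hYD i hi
        simp [hi, this.1, this.2]
      · by_cases hi2 : i ∈ X
        · simp [hi, hi2]
        · simp only [hi, hi2, if_false, or_false]
          cases h : C i with
          | none => simp
          | some b => simp
    have hdisj : Disjoint U X := by
      rw [Finset.disjoint_left]
      intro i hi hi2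
      have h1 := hXn i hi2
      have h2 := (Finset.mem_filter.mp hi).2
      rw [h1] at h2
      exact absurd h2 (by simp)
    have hDcard : (ones D).card = U.card + (m + 1) := by
      rw [hones, Finset.card_union_of_disjoint hdisj, hXc]
    have hDF := hall D (by rw [hDnone]; exact hYc) (by
      intro i b hb
      have h1 : i ∉ Y := fun h => by
        have := (hYD i h).1
        rw [hb] at this
        exact absurd this (by simp)
      have h2 : i ∉ X := fun h => by
        have := hXn i h
        rw [hb] at this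
        exact absurd this (by simp)
      simp [D, h1, h2, hb])
    rw [Finset.mem_filter] at hDF
    apply hDF.2
    rw [hbadP _ D hDcard]
    refine ⟨φ, hφ0, ?_⟩
    intro i hi
    rw [hones, Finset.mem_union] at hi
    rcases hi with hi | hi
    · exact hφU i hi
    · exact (Finset.mem_filter.mp (hX hi)).2
  · have := Finset.card_filter_add_card_filter_not (s := Q) bad
    calc 2 ^ (m - 1) * Q.card = 2 ^ (m - 1) * ((Q.filter bad).card
          + (Q.filter (fun D => ¬ bad D)).card) := by rw [this]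
      _ = (Q.filter bad).card * 2 ^ (m - 1) + 2 ^ (m - 1) * (Q.filter (fun D => ¬ bad D)).card := by ring
      _ ≤ Q.card + 2 ^ (m - 1) * (Q.filter (fun D => ¬ bad D)).card := by omega
      _ = _ := by ring

lemma Qpos (n : ℕ) (hn : 2 ≤ n) : 0 < ((Finset.univ : Finset (Fin n → Option Bool)).filter
              (fun D => (Finset.univ.filter (fun i => D i = none)).card = 2)).card := by
  rw [Finset.card_pos]
  obtain ⟨Y, _, hYc⟩ := Finset.exists_subset_card_eq
    (show 2 ≤ (Finset.univ : Finset (Fin n)).card by simpa using hn)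
  refine ⟨fun i => if i ∈ Y then none else some false, ?_⟩
  simp only [Finset.mem_filter, Finset.mem_univ, true_and]
  rw [← hYc]
  congr 1
  ext i
  simp
end H10sub
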