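import Mathlib

set_option autoImplicit false

namespace Pool.Agent.H12Free

abbrev A := Fin 2 × Bool

def inv (a : A) : A := (a.1, !a.2)

theorem inv_inv (a : A) : inv (inv a) = a := by
  revert a; decide

theorem inv_ne (a : A) : a ≠ inv a := by
  revert a; decide

/-- the pattern of length `N` at `p` -/
def pat (N : ℕ) (f : ℤ → A) (p : ℤ) : Fin N → A := fun j => f (p + ((j : ℕ) : ℤ))

noncomputable def code {N : ℕ} (t : Fin N → A) : ℕ := (Fintype.equivFin (Fin N → A) t : ℕ)

theorem code_lt {N : ℕ} (t : Fin N → A) : code t < Fintype.card (Fin N → A) :=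
  (Fintype.equivFin (Fin N → A) t).2

theorem code_inj {N : ℕ} {t t' : Fin N → A} (h : code t = code t') : t = t' :=
  (Fintype.equivFin (Fin N → A)).injective (Fin.ext h)

theorem pat_eq {N : ℕ} {f g : ℤ → A} {p q : ℤ} :
    pat N f p = pat N g q ↔ ∀ j : ℤ, 0 ≤ j → j < N → f (p + j) = g (q + j) := by
  constructor
  · intro h j hj hjN
    have := congrFun h ⟨j.toNat, by omega⟩
    unfold pat at this
    simp only at this
    have e : ((j.toNat : ℕ) : ℤ) = j := Int.toNat_of_nonneg hj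
    rwa [e] at this
  · intro h
    funext j
    exact h _ (by omega) (by have := j.2; omega)

/-- the window `[p, p + N)` has a period `≤ D` -/
def Per (D N : ℕ) (f : ℤ → A) (p : ℤ) : Prop :=
  ∃ s : ℤ, 1 ≤ s ∧ s ≤ D ∧ ∀ i, p ≤ i → i + s < p + N → f i = f (i + s)

/-- greedy marks -/
def mk (D N : ℕ) : ℕ → (ℤ → A) → ℤ → Prop
  | 0 => fun _ _ => False
  | j + 1 => fun f p => mk D N j f p ∨
      (code (pat N f p) = j ∧ ¬ Per D N f p ∧ ∀ q, |q - p| ≤ D → ¬ mk D N j f q)

theorem mk_local (D N : ℕ) (j : ℕ) : ∀ (f g : ℤ → A) (p t : ℤ),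
    (∀ i, |i - p| ≤ (j : ℤ) * D + N → f i = g (i + t)) → (mk D N j f p ↔ mk D N j g (p + t)) := by
  induction j with
  | zero => intro f g p t _; exact Iff.rfl
  | succ j ih =>
    intro f g p t h
    have hDj : (0 : ℤ) ≤ (j : ℤ) * D := by positivity
    have hD : (0 : ℤ) ≤ D := by positivity
    have hsucc : ((j + 1 : ℕ) : ℤ) * D = (j : ℤ) * D + D := by push_cast; ring
    rw [hsucc] at h
    have hq : ∀ q, |q - p| ≤ D → (mk D N j f q ↔ mk D N j g (q + t)) := by
      intro q hq
      refine ih f g q t fun i hi => h i ?_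
      rw [abs_le] at *
      constructor <;> linarith [hi.1, hi.2, hq.1, hq.2]
    have hpat : pat N f p = pat N g (p + t) := by
      rw [pat_eq]
      intro k hk hkN
      rw [h (p + k) (by rw [abs_le]; constructor <;> linarith)]
      congr 1
      ring
    have hper : Per D N f p ↔ Per D N g (p + t) := by
      constructor
      · rintro ⟨s, hs1, hs2, hs⟩
        refine ⟨s, hs1, hs2, fun i hi his => ?_⟩
        have := hs (i - t) (by linarith) (by linarith)
        rw [h (i - t) (by rw [abs_le]; constructor <;> linarith),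
          h (i - t + s) (by rw [abs_le]; constructor <;> linarith)] at this
        have e1 : i - t + t = i := by ring
        have e2 : i - t + s + t = i + s := by ring
        rwa [e1, e2] at this
      · rintro ⟨s, hs1, hs2, hs⟩
        refine ⟨s, hs1, hs2, fun i hi his => ?_⟩
        rw [h i (by rw [abs_le]; constructor <;> linarith),
          h (i + s) (by rw [abs_le]; constructor <;> linarith)]
        have := hs (i + t) (by linarith) (by linarith)
        rw [this]
        congr 1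
        ring
    show (mk D N j f p ∨ _) ↔ (mk D N j g (p + t) ∨ _)
    rw [hq p (by simp), hpat, hper]
    refine or_congr Iff.rfl (and_congr Iff.rfl (and_congr Iff.rfl ?_))
    constructor
    · intro h1 q hqp
      have := h1 (q - t) (by
        have : q - t - p = q - (p + t) := by ring
        rwa [this])
      rw [hq (q - t) (by
        have : q - t - p = q - (p + t) := by ring
        rwa [this])] at this
      have e : q - t + t = q := by ring
      rwa [e] at this
    · intro h1 q hqp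
      rw [hq q hqp]
      exact h1 (q + t) (by
        have : q + t - (p + t) = q - p := by ring
        rwa [this])

theorem mk_sep (D N : ℕ) (j : ℕ) : ∀ (f : ℤ → A) (p q : ℤ), mk D N j f p → mk D N j f q →
    p ≠ q → (D : ℤ) < |p - q| := by
  induction j with
  | zero => intro f p q h; exact absurd h id
  | succ j ih =>
    intro f p q hp hq hne
    by_contra hcon
    push Not at hcon
    rcases hp with hp | ⟨hp1, hp2, hp3⟩ <;> rcases hq with hq | ⟨hq1, hq2, hq3⟩
    · exact absurd (ih f p q hp hq hne) (not_lt.2 hcon)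
    · exact hq3 p hcon hp
    · exact hp3 q (by rwa [abs_sub_comm]) hq
    · have hpat := code_inj (hp1.trans hq1.symm)
      rw [pat_eq] at hpat
      rcases lt_or_gt_of_ne hne with h | h
      · rw [abs_of_neg (by linarith)] at hcon
        refine hp2 ⟨q - p, by omega, by linarith, fun i hi his => ?_⟩
        have := hpat (i - p) (by linarith) (by linarith)
        have e1 : p + (i - p) = i := by ring
        have e2 : q + (i - p) = i + (q - p) := by ring
        rwa [e1, e2] at this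
      · rw [abs_of_pos (by linarith)] at hcon
        refine hq2 ⟨p - q, by omega, by linarith, fun i hi his => ?_⟩
        have := hpat (i - q) (by linarith) (by linarith)
        have e1 : p + (i - q) = i + (p - q) := by ring
        have e2 : q + (i - q) = i := by ring
        rw [e1, e2] at this
        exact this.symm

theorem mk_mono (D N : ℕ) {j k : ℕ} (hjk : j ≤ k) (f : ℤ → A) (p : ℤ) (h : mk D N j f p) :
    mk D N k f p := by
  induction k, hjk using Nat.le_induction with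
  | base => exact h
  | succ k _ ih => exact Or.inl ih

theorem exists_marks (D N : ℕ) : ∃ (Λ : ℤ) (M : (ℤ → A) → ℤ → Prop), 0 ≤ Λ ∧
    (∀ (f g : ℤ → A) (p t : ℤ), (∀ i, |i - p| ≤ Λ → f i = g (i + t)) → (M f p ↔ M g (p + t))) ∧
    (∀ (f : ℤ → A) (p q : ℤ), M f p → M f q → p ≠ q → (D : ℤ) < |p - q|) ∧
    (∀ (f : ℤ → A) (p : ℤ), ¬ Per D N f p → ∃ q, |q - p| ≤ D ∧ M f q) := by
  refine ⟨((Fintype.card (Fin N → A) : ℕ) : ℤ) * D + N, mk D N (Fintype.card (Fin N → A)),
    by positivity, fun f g p t h => mk_local D N _ f g p t h, mk_sep D N _, fun f p hp => ?_⟩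
  by_cases h : ∃ q, |q - p| ≤ D ∧ mk D N (code (pat N f p)) f q
  · obtain ⟨q, hq1, hq2⟩ := h
    exact ⟨q, hq1, mk_mono D N (code_lt _).le f q hq2⟩
  · push Not at h
    refine ⟨p, by simp, ?_⟩
    refine mk_mono D N (Nat.succ_le_of_lt (code_lt (pat N f p))) f p ?_
    exact Or.inr ⟨rfl, hp, h⟩

section Scale

/-- reducedness of the word `f` on `[0, n)` -/
def Red (n : ℤ) (f : ℤ → A) : Prop := ∀ i, 0 ≤ i → i + 1 < n → f i ≠ inv (f (i + 1))

def rho (f : ℤ → A) : ℤ → A := fun x => inv (f (-x))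

/-- `f'` (length `n'`) is, up to `r` letters at both ends, the inverse of `f` (length `n`) -/
def Edge (r : ℤ) (n : ℤ) (f : ℤ → A) (n' : ℤ) (f' : ℤ → A) (e : ℤ) : Prop :=
  |e - (n - 1)| ≤ r ∧ |e - (n' - 1)| ≤ r ∧ ∀ i, r ≤ i → i ≤ e - r → f' i = inv (f (e - i))

def cA (a : A) : ℕ := 2 * a.1.val + (if a.2 then 1 else 0)

theorem cA_inj : ∀ a b : A, cA a = cA b → a = b := by decide

/-- orientation at the centre `σ/2` -/
def Om (f : ℤ → A) (σ : ℤ) : Prop := cA (f (σ / 2)) < cA (inv (f (σ - σ / 2)))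

theorem Om_flip {f f' : ℤ → A} {e σ : ℤ} (h1 : f' (e - (σ - σ / 2)) = inv (f (σ - σ / 2)))
    (h2 : f' (e - σ / 2) = inv (f (σ / 2))) (h3 : f (σ / 2) ≠ inv (f (σ - σ / 2))) :
    Om f' (2 * e - σ) ↔ ¬ Om f σ := by
  have e1 : (2 * e - σ) / 2 = e - (σ - σ / 2) := by omega
  have e2 : 2 * e - σ - (2 * e - σ) / 2 = e - σ / 2 := by omega
  unfold Om
  rw [e2, e1, h1, h2, inv_inv]
  have : cA (f (σ / 2)) ≠ cA (inv (f (σ - σ / 2))) := fun h => h3 (cA_inj _ _ h)
  omega

theorem per_cong_aux {f : ℤ → A} {b s : ℤ} (hs : 1 ≤ s) {x : ℤ}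
    (h : ∀ i, x ≤ i → i + s ≤ b → f i = f (i + s)) (m : ℕ) (hm : x + s * m ≤ b) :
    f x = f (x + s * m) := by
  induction m with
  | zero => simp
  | succ m ih =>
    have hsm : 0 ≤ s * (m : ℤ) := by positivity
    have e1 : x + s * ((m + 1 : ℕ) : ℤ) = x + s * m + s := by push_cast; ring
    rw [e1] at hm ⊢
    rw [ih (by linarith), h _ (by linarith) hm]

theorem per_cong {f : ℤ → A} {a b s : ℤ} (hs : 1 ≤ s)
    (h : ∀ i, a ≤ i → i + s ≤ b → f i = f (i + s)) {x y : ℤ} (hax : a ≤ x) (hxb : x ≤ b)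
    (hay : a ≤ y) (hyb : y ≤ b) (hd : s ∣ y - x) : f x = f y := by
  obtain ⟨m, hm⟩ := hd
  rcases le_total 0 m with h0 | h0
  · have := per_cong_aux hs (x := x) (fun i hi => h i (by linarith)) m.toNat (by
      rw [Int.toNat_of_nonneg h0, ← hm]; linarith)
    rw [this, Int.toNat_of_nonneg h0, ← hm]
    congr 1
    ring
  · have := per_cong_aux hs (x := y) (fun i hi => h i (by linarith)) (-m).toNat (by
      rw [Int.toNat_of_nonneg (by linarith)]
      have : s * -m = -(s * m) := by ring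
      rw [this, ← hm]; linarith)
    rw [this, Int.toNat_of_nonneg (by linarith)]
    have e : s * -m = -(s * m) := by ring
    rw [e, ← hm]
    congr 1
    ring

theorem global_period {D N : ℕ} (hN : N = 2 * D + 1) {f : ℤ → A} {a b : ℤ} (hab : a ≤ b)
    (h : ∀ p, a ≤ p → p ≤ b → Per D N f p) :
    ∃ s : ℤ, 1 ≤ s ∧ s ≤ D ∧ ∀ i, a ≤ i → i + s < b + N → f i = f (i + s) := by
  obtain ⟨s, hs1, hs2, hs⟩ := h a le_rfl hab
  refine ⟨s, hs1, hs2, ?_⟩
  have key : ∀ c, a ≤ c → c ≤ b → ∀ i, a ≤ i → i + s < c + N → f i = f (i + s) := by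
    intro c hc
    induction c, hc using Int.leInduction with
    | base => intro _; exact hs
    | succ c hc ih =>
      intro hcb i hi his
      by_cases hlt : i + s < c + N
      · exact ih (by linarith) i hi hlt
      · have hi' : i = c + N - s := by omega
        obtain ⟨s', hs1', hs2', hs'⟩ := h (c + 1) (by linarith) hcb
        have e1 := hs' (c + N - s') (by omega) (by omega)
        have e2 := ih (by linarith) (c + N - s' - s) (by omega) (by omega)
        have e3 := hs' (c + N - s' - s) (by omega) (by omega)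
        have w1 : c + (N : ℤ) - s' + s' = c + N := by ring
        have w2 : c + (N : ℤ) - s' - s + s = c + N - s' := by ring
        have w3 : c + (N : ℤ) - s' - s + s' = c + N - s := by ring
        rw [w1] at e1
        rw [w2] at e2
        rw [w3] at e3
        have w4 : i + s = c + N := by omega
        rw [w4, hi', ← e3, e2, e1]
  exact key b hab le_rfl

/-- codes of the patterns at positions of `[lo, hi]` -/
def TT (N : ℕ) (f : ℤ → A) (lo hi : ℤ) : Set ℕ := {c | ∃ p, lo ≤ p ∧ p ≤ hi ∧ code (pat N f p) = c}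

theorem TT_subset {N : ℕ} {f : ℤ → A} {a b s lo hi lo' hi' : ℤ} (hs : 1 ≤ s)
    (h : ∀ i, a ≤ i → i + s ≤ b → f i = f (i + s)) (h1 : a ≤ lo) (h2 : hi + N ≤ b)
    (h1' : a ≤ lo') (h2' : hi' + N ≤ b) (h3 : lo' + s ≤ hi') :
    TT N f lo hi ⊆ TT N f lo' hi' := by
  rintro c ⟨p, hp1, hp2, rfl⟩
  have hm1 := Int.emod_nonneg (p - lo') (by omega : s ≠ 0)
  have hm2 := Int.emod_lt_of_pos (p - lo') (by omega : 0 < s)
  refine ⟨lo' + (p - lo') % s, by linarith, by linarith, ?_⟩
  congr 1
  rw [pat_eq]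
  intro j hj hjN
  refine per_cong hs h (by linarith) (by linarith) (by linarith) (by linarith) ?_
  have := Int.emod_add_mul_ediv (p - lo') s
  refine ⟨(p - lo') / s, ?_⟩
  linarith

theorem TT_eq {N : ℕ} {f : ℤ → A} {a b s lo hi lo' hi' : ℤ} (hs : 1 ≤ s)
    (h : ∀ i, a ≤ i → i + s ≤ b → f i = f (i + s)) (h1 : a ≤ lo) (h2 : hi + N ≤ b)
    (h1' : a ≤ lo') (h2' : hi' + N ≤ b) (h3 : lo' + s ≤ hi') (h3' : lo + s ≤ hi) :
    TT N f lo hi = TT N f lo' hi' :=
  Set.Subset.antisymm (TT_subset hs h h1 h2 h1' h2' h3) (TT_subset hs h h1' h2' h1 h2 h3')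

theorem TT_shift {N : ℕ} {f g : ℤ → A} {lo hi t : ℤ}
    (h : ∀ i, lo ≤ i → i < hi + N → f i = g (i + t)) :
    TT N f lo hi = TT N g (lo + t) (hi + t) := by
  ext c
  constructor
  · rintro ⟨p, hp1, hp2, rfl⟩
    refine ⟨p + t, by linarith, by linarith, ?_⟩
    congr 1
    rw [pat_eq]
    intro j hj hjN
    rw [h (p + j) (by linarith) (by linarith)]
    congr 1
    ring
  · rintro ⟨p, hp1, hp2, rfl⟩
    refine ⟨p - t, by linarith, by linarith, ?_⟩
    congr 1
    rw [pat_eq]
    intro j hj hjN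
    rw [h (p - t + j) (by linarith) (by linarith)]
    congr 1
    ring

theorem five (P1 P2 P3 P4 : Fin 5 → Prop) (h1 : ∀ k k', P1 k → P1 k' → k = k')
    (h2 : ∀ k k', P2 k → P2 k' → k = k') (h3 : ∀ k k', P3 k → P3 k' → k = k')
    (h4 : ∀ k k', P4 k → P4 k' → k = k') : ∃ k, ¬ P1 k ∧ ¬ P2 k ∧ ¬ P3 k ∧ ¬ P4 k := by
  classical
  by_contra hcon
  push Not at hcon
  have hc : ∀ P : Fin 5 → Prop, (∀ k k', P k → P k' → k = k') →
      (Finset.univ.filter P).card ≤ 1 := by
    intro P hP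
    rw [Finset.card_le_one]
    intro a ha b hb
    exact hP a b (Finset.mem_filter.1 ha).2 (Finset.mem_filter.1 hb).2
  have hsub : (Finset.univ : Finset (Fin 5)) ⊆ Finset.univ.filter P1 ∪ (Finset.univ.filter P2 ∪
      (Finset.univ.filter P3 ∪ Finset.univ.filter P4)) := by
    intro k _
    simp only [Finset.mem_union, Finset.mem_filter, Finset.mem_univ, true_and]
    by_contra hk
    push Not at hk
    exact hk.2.2.2 (hcon k hk.1 hk.2.1 hk.2.2.1)
  have h5 := Finset.card_le_card hsub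
  have h6 := Finset.card_union_le (Finset.univ.filter P1) (Finset.univ.filter P2 ∪
      (Finset.univ.filter P3 ∪ Finset.univ.filter P4))
  have h7 := Finset.card_union_le (Finset.univ.filter P2) 
      (Finset.univ.filter P3 ∪ Finset.univ.filter P4)
  have h8 := Finset.card_union_le (Finset.univ.filter P3) (Finset.univ.filter P4)
  have g1 := hc P1 h1
  have g2 := hc P2 h2
  have g3 := hc P3 h3
  have g4 := hc P4 h4
  have g5 : (Finset.univ : Finset (Fin 5)).card = 5 := by simp
  omega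

/-- forward marks in the `L`-interior -/
def FM (M : (ℤ → A) → ℤ → Prop) (f : ℤ → A) (L n : ℤ) : Set ℤ :=
  {p | L ≤ p ∧ p ≤ n - 1 - L ∧ M f p}

/-- backward marks in the `L`-interior -/
def BM (M : (ℤ → A) → ℤ → Prop) (f : ℤ → A) (L n : ℤ) : Set ℤ :=
  {p | L ≤ p ∧ p ≤ n - 1 - L ∧ M (rho f) (-p)}

abbrev Color := (Fin 5 → Prop × Prop × Prop) × Prop

noncomputable def col (M : (ℤ → A) → ℤ → Prop) (L : Fin 5 → ℤ) (Y : ℤ) (N : ℕ) (n : ℤ)
    (f : ℤ → A) : Color :=
  (fun k => ((FM M f (L k) n).Nonempty, (BM M f (L k) n).Nonempty,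
    ∃ α β, IsLeast (FM M f (L k) n) α ∧ IsGreatest (BM M f (L k) n) β ∧ Om f (α + β)),
   sInf (TT N f Y (n - 1 - Y)) < sInf (TT N (rho f) (-(n - 1 - Y)) (-Y)))

end Scale

section Scale2

theorem no_common {N : ℕ} {f : ℤ → A} {a b s n p q : ℤ} (hs : 1 ≤ s) (hsN : s ≤ N)
    (h : ∀ i, a ≤ i → i + s ≤ b → f i = f (i + s)) (hred : Red n f) (ha : 0 ≤ a) (hb : b < n)
    (hp : a ≤ p) (hp' : p + N ≤ b) (hq : a + N ≤ q) (hq' : q ≤ b)
    (heq : code (pat N f p) = code (pat N (rho f) (-q))) : False := by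
  have hpat := pat_eq.1 (code_inj heq)
  set c := (p + q) / 2 with hc
  set j := (c - p) % s with hj
  have hm1 : 0 ≤ j := Int.emod_nonneg (c - p) (by omega : s ≠ 0)
  have hm2 : j < s := Int.emod_lt_of_pos (c - p) (by omega : 0 < s)
  have hdiv : s ∣ (c - p) - j := Int.dvd_self_sub_emod
  have h1 : f (p + j) = inv (f (q - j)) := by
    have := hpat j hm1 (by omega)
    unfold rho at this
    have e : -(-q + j) = q - j := by ring
    rwa [e] at this
  have h2 : f (q - j) = f (p + j + (p + q) % 2) := by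
    have hmod := Int.emod_two_eq_zero_or_one (p + q)
    refine per_cong hs h (by omega) (by omega) (by omega) (by omega) ?_
    have e : p + j + (p + q) % 2 - (q - j) = -(2 * ((c - p) - j)) := by omega
    rw [e]
    exact (Dvd.dvd.mul_left hdiv 2).neg_right
  rw [h2] at h1
  rcases Int.emod_two_eq_zero_or_one (p + q) with h0 | h0
  · rw [h0, add_zero] at h1
    exact inv_ne _ h1
  · rw [h0] at h1
    exact hred (p + j) (by omega) (by omega) h1

variable {M : (ℤ → A) → ℤ → Prop} {Λ r n n' e L : ℤ} {f f' : ℤ → A}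

theorem mark_fb
    (hloc : ∀ (f g : ℤ → A) (p t : ℤ), (∀ i, |i - p| ≤ Λ → f i = g (i + t)) →
      (M f p ↔ M g (p + t))) (hE : Edge r n f n' f' e) (p : ℤ) (h1 : r + Λ ≤ p)
    (h2 : p + Λ ≤ e - r) : M f' p ↔ M (rho f) (-(e - p)) := by
  have := hloc f' (rho f) p (-e) (by
    intro i hi
    rw [abs_le] at hi
    rw [hE.2.2 i (by linarith) (by linarith)]
    unfold rho
    congr 2
    ring)
  have e1 : -(e - p) = p + -e := by ring
  rw [e1]
  exact this

theorem mark_bf
    (hloc : ∀ (f g : ℤ → A) (p t : ℤ), (∀ i, |i - p| ≤ Λ → f i = g (i + t)) →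
      (M f p ↔ M g (p + t))) (hE : Edge r n f n' f' e) (p : ℤ) (h1 : r + Λ ≤ p)
    (h2 : p + Λ ≤ e - r) : M (rho f') (-p) ↔ M f (e - p) := by
  have := hloc (rho f') f (-p) e (by
    intro i hi
    rw [abs_le] at hi
    unfold rho
    rw [hE.2.2 (-i) (by linarith) (by linarith), inv_inv]
    congr 1
    ring)
  have e1 : e - p = -p + e := by ring
  rw [e1]
  exact this

theorem FM_iff
    (hloc : ∀ (f g : ℤ → A) (p t : ℤ), (∀ i, |i - p| ≤ Λ → f i = g (i + t)) →
      (M f p ↔ M g (p + t))) (hE : Edge r n f n' f' e) (hr : 0 ≤ r)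
    (hL : Λ + 2 * r + 1 ≤ L)
    (hc1 : ∀ p, |p - L| ≤ r → ¬ M (rho f) (-p))
    (hc2 : ∀ p, |p - (n - 1 - L)| ≤ r → ¬ M (rho f) (-p)) (p : ℤ) :
    p ∈ FM M f' L n' ↔ e - p ∈ BM M f L n := by
  have hE1 := abs_le.1 hE.1
  have hE2 := abs_le.1 hE.2.1
  constructor
  · rintro ⟨h1, h2, h3⟩
    have h4 := (mark_fb hloc hE p (by linarith) (by linarith)).1 h3
    refine ⟨?_, ?_, h4⟩
    · by_contra hcon
      push Not at hcon
      exact hc1 _ (by rw [abs_le]; constructor <;> linarith) h4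
    · by_contra hcon
      push Not at hcon
      exact hc2 _ (by rw [abs_le]; constructor <;> linarith) h4
  · rintro ⟨h1, h2, h3⟩
    have h4 := (mark_fb hloc hE p (by linarith) (by linarith)).2 h3
    refine ⟨?_, ?_, h4⟩
    · by_contra hcon
      push Not at hcon
      exact hc2 (e - p) (by rw [abs_le]; constructor <;> linarith) h3
    · by_contra hcon
      push Not at hcon
      exact hc1 (e - p) (by rw [abs_le]; constructor <;> linarith) h3

theorem BM_iff
    (hloc : ∀ (f g : ℤ → A) (p t : ℤ), (∀ i, |i - p| ≤ Λ → f i = g (i + t)) →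
      (M f p ↔ M g (p + t))) (hE : Edge r n f n' f' e) (hr : 0 ≤ r)
    (hL : Λ + 2 * r + 1 ≤ L)
    (hc1 : ∀ p, |p - L| ≤ r → ¬ M f p)
    (hc2 : ∀ p, |p - (n - 1 - L)| ≤ r → ¬ M f p) (p : ℤ) :
    p ∈ BM M f' L n' ↔ e - p ∈ FM M f L n := by
  have hE1 := abs_le.1 hE.1
  have hE2 := abs_le.1 hE.2.1
  constructor
  · rintro ⟨h1, h2, h3⟩
    have h4 := (mark_bf hloc hE p (by linarith) (by linarith)).1 h3
    refine ⟨?_, ?_, h4⟩
    · by_contra hcon
      push Not at hcon
      exact hc1 _ (by rw [abs_le]; constructor <;> linarith) h4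
    · by_contra hcon
      push Not at hcon
      exact hc2 _ (by rw [abs_le]; constructor <;> linarith) h4
  · rintro ⟨h1, h2, h3⟩
    have h4 := (mark_bf hloc hE p (by linarith) (by linarith)).2 h3
    refine ⟨?_, ?_, h4⟩
    · by_contra hcon
      push Not at hcon
      exact hc2 (e - p) (by rw [abs_le]; constructor <;> linarith) h3
    · by_contra hcon
      push Not at hcon
      exact hc1 (e - p) (by rw [abs_le]; constructor <;> linarith) h3

/-- at most one of the five levels is close to a mark -/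
theorem kill {P : ℤ → Prop} {D : ℕ} {r c : ℤ} (hr : 0 ≤ r) (hD : 10 * r + 10 ≤ D)
    (hsep : ∀ p q, P p → P q → p ≠ q → (D : ℤ) < |p - q|) (σ : ℤ) (hσ : σ = 1 ∨ σ = -1)
    (k k' : Fin 5) (h : ∃ p, |p - (c + σ * ((2 * r + 1) * ((k : ℕ) : ℤ)))| ≤ r ∧ P p)
    (h' : ∃ p, |p - (c + σ * ((2 * r + 1) * ((k' : ℕ) : ℤ)))| ≤ r ∧ P p) : k = k' := by
  obtain ⟨p, hp1, hp2⟩ := h
  obtain ⟨q, hq1, hq2⟩ := h'
  by_contra hne
  have hk := k.2
  have hk' := k'.2
  have hne' : (k : ℕ) ≠ (k' : ℕ) := fun h => hne (Fin.ext h)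
  rw [abs_le] at hp1 hq1
  have hd : 1 ≤ |((k : ℕ) : ℤ) - ((k' : ℕ) : ℤ)| := by
    rcases abs_cases (((k : ℕ) : ℤ) - ((k' : ℕ) : ℤ)) with h | h <;> omega
  have hlow : (2 * r + 1) ≤ |(2 * r + 1) * ((k : ℕ) : ℤ) - (2 * r + 1) * ((k' : ℕ) : ℤ)| := by
    rw [← mul_sub, abs_mul, abs_of_pos (by linarith : (0 : ℤ) < 2 * r + 1)]
    nlinarith
  have hupp : |(2 * r + 1) * ((k : ℕ) : ℤ) - (2 * r + 1) * ((k' : ℕ) : ℤ)| ≤ 4 * (2 * r + 1) := by
    rw [← mul_sub, abs_mul, abs_of_pos (by linarith : (0 : ℤ) < 2 * r + 1)]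
    have : |((k : ℕ) : ℤ) - ((k' : ℕ) : ℤ)| ≤ 4 := by
      rw [abs_le]
      constructor <;> omega
    nlinarith
  set x := (2 * r + 1) * ((k : ℕ) : ℤ) with hx
  set y := (2 * r + 1) * ((k' : ℕ) : ℤ) with hy
  have hpq : p ≠ q := by
    rintro rfl
    rcases hσ with rfl | rfl
    · rcases abs_cases (x - y) with h | h <;> omega
    · rcases abs_cases (x - y) with h | h <;> omega
  have := hsep p q hp2 hq2 hpq
  rcases hσ with rfl | rfl
  · rcases abs_cases (x - y) with h | h <;> rcases abs_cases (p - q) with h' | h' <;> omega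
  · rcases abs_cases (x - y) with h | h <;> rcases abs_cases (p - q) with h' | h' <;> omega

end Scale2

section Scale3

theorem exists_isLeast {S : Set ℤ} (hne : S.Nonempty) (b : ℤ) (hb : ∀ x ∈ S, b ≤ x) :
    ∃ α, IsLeast S α := by
  obtain ⟨lb, h1, h2⟩ := Int.exists_least_of_bdd (P := fun z => z ∈ S) ⟨b, hb⟩ hne
  exact ⟨lb, h1, fun x hx => h2 x hx⟩

theorem exists_isGreatest {S : Set ℤ} (hne : S.Nonempty) (b : ℤ) (hb : ∀ x ∈ S, x ≤ b) :
    ∃ α, IsGreatest S α := by
  obtain ⟨ub, h1, h2⟩ := Int.exists_greatest_of_bdd (P := fun z => z ∈ S) ⟨b, hb⟩ hne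
  exact ⟨ub, h1, fun x hx => h2 x hx⟩

theorem scale (r : ℕ) : ∃ (χ : ℤ → (ℤ → A) → Color) (N0 : ℤ), ∀ (n : ℤ) (f : ℤ → A) (n' : ℤ)
    (f' : ℤ → A) (e : ℤ), N0 ≤ n → Red n f → Edge r n f n' f' e → χ n f ≠ χ n' f' := by
  obtain ⟨Λ, M, hΛ, hloc, hsep, hden⟩ := exists_marks (10 * r + 10) (2 * (10 * r + 10) + 1)
  set D : ℕ := 10 * r + 10 with hD
  set N : ℕ := 2 * D + 1 with hN
  have hDz : (D : ℤ) = 10 * r + 10 := by rw [hD]; push_cast; ring
  have hNz : (N : ℤ) = 2 * D + 1 := by rw [hN]; push_cast; ring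
  have hr : (0 : ℤ) ≤ r := Int.natCast_nonneg r
  set L : Fin 5 → ℤ := fun k => Λ + 2 * r + 1 + (2 * r + 1) * ((k : ℕ) : ℤ) with hL
  set a : ℤ := Λ + 2 * r + 1 + (2 * r + 1) * 4 + D with ha
  set Y : ℤ := a + N + 2 * r + 1 with hY
  have hLlow : ∀ k, Λ + 2 * r + 1 ≤ L k := by
    intro k
    rw [hL]
    simp only
    have : (0 : ℤ) ≤ (2 * r + 1) * ((k : ℕ) : ℤ) := by positivity
    linarith
  have hLup : ∀ k, L k + D ≤ a := by
    intro k
    rw [hL, ha]
    simp only
    have h1 : ((k : ℕ) : ℤ) ≤ 4 := by have := k.2; omega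
    have : (2 * (r : ℤ) + 1) * ((k : ℕ) : ℤ) ≤ (2 * r + 1) * 4 :=
      mul_le_mul_of_nonneg_left h1 (by linarith)
    linarith
  refine ⟨col M L Y N, 2 * Y + 2 * D + 10 * r + 10, ?_⟩
  intro n f n' f' e hn hred hE hcol
  have hE1 := abs_le.1 hE.1
  have hE2 := abs_le.1 hE.2.1
  have hsep' : ∀ p q : ℤ, M (rho f) (-p) → M (rho f) (-q) → p ≠ q → (D : ℤ) < |p - q| := by
    intro p q hp hq hne
    have := hsep (rho f) (-p) (-q) hp hq (by omega)
    rwa [show -p - -q = -(p - q) by ring, abs_neg] at this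
  obtain ⟨k, hk1, hk2, hk3, hk4⟩ := five
    (fun k => ∃ p, |p - ((Λ + 2 * r + 1) + 1 * ((2 * r + 1) * ((k : ℕ) : ℤ)))| ≤ (r : ℤ) ∧ M f p)
    (fun k => ∃ p, |p - ((n - 1 - (Λ + 2 * r + 1)) + (-1) * ((2 * r + 1) * ((k : ℕ) : ℤ)))| ≤
      (r : ℤ) ∧ M f p)
    (fun k => ∃ p, |p - ((Λ + 2 * r + 1) + 1 * ((2 * r + 1) * ((k : ℕ) : ℤ)))| ≤ (r : ℤ) ∧
      M (rho f) (-p))
    (fun k => ∃ p, |p - ((n - 1 - (Λ + 2 * r + 1)) + (-1) * ((2 * r + 1) * ((k : ℕ) : ℤ)))| ≤
      (r : ℤ) ∧ M (rho f) (-p))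
    (fun k k' => kill hr hDz.ge (hsep f) 1 (Or.inl rfl) k k')
    (fun k k' => kill hr hDz.ge (hsep f) (-1) (Or.inr rfl) k k')
    (fun k k' => kill hr hDz.ge hsep' 1 (Or.inl rfl) k k')
    (fun k k' => kill hr hDz.ge hsep' (-1) (Or.inr rfl) k k')
  push Not at hk1 hk2 hk3 hk4
  have el1 : (Λ + 2 * r + 1) + 1 * ((2 * r + 1) * ((k : ℕ) : ℤ)) = L k := by
    rw [hL]; ring
  have el2 : (n - 1 - (Λ + 2 * r + 1)) + (-1) * ((2 * r + 1) * ((k : ℕ) : ℤ)) = n - 1 - L k := by
    rw [hL]; ring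
  rw [el1] at hk1 hk3
  rw [el2] at hk2 hk4
  have hFB := FM_iff hloc hE hr (hLlow k) hk3 hk4
  have hBF := BM_iff hloc hE hr (hLlow k) hk1 hk2
  have hLk := hLlow k
  have hLk' := hLup k
  have hc1 := congrFun (congrArg Prod.fst hcol) k
  have hc2 := congrArg Prod.snd hcol
  simp only [col, Prod.mk.injEq] at hc1
  obtain ⟨g1, g2, g3⟩ := hc1
  have hc2' : (sInf (TT N f Y (n - 1 - Y)) < sInf (TT N (rho f) (-(n - 1 - Y)) (-Y))) ↔
      (sInf (TT N f' Y (n' - 1 - Y)) < sInf (TT N (rho f') (-(n' - 1 - Y)) (-Y))) :=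
    iff_of_eq hc2
  by_cases hFne : (FM M f (L k) n).Nonempty
  · have hFne' : (FM M f' (L k) n').Nonempty := (iff_of_eq g1).1 hFne
    have hBne : (BM M f (L k) n).Nonempty := by
      obtain ⟨p, hp⟩ := hFne'
      exact ⟨e - p, (hFB p).1 hp⟩
    obtain ⟨α, hα⟩ := exists_isLeast hFne (L k) (fun x hx => hx.1)
    obtain ⟨β, hβ⟩ := exists_isGreatest hBne (n - 1 - L k) (fun x hx => hx.2.1)
    have hα' : IsGreatest (BM M f' (L k) n') (e - α) := by
      refine ⟨?_, fun x hx => ?_⟩
      · rw [hBF]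
        have : e - (e - α) = α := by ring
        rw [this]
        exact hα.1
      · have := hα.2 ((hBF x).1 hx)
        linarith
    have hβ' : IsLeast (FM M f' (L k) n') (e - β) := by
      refine ⟨?_, fun x hx => ?_⟩
      · rw [hFB]
        have : e - (e - β) = β := by ring
        rw [this]
        exact hβ.1
      · have := hβ.2 ((hFB x).1 hx)
        linarith
    have hα1 := hα.1.1
    have hα2 := hα.1.2.1
    have hβ1 := hβ.1.1
    have hβ2 := hβ.1.2.1
    have g3' := iff_of_eq g3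
    have q1 : (∃ α β, IsLeast (FM M f (L k) n) α ∧ IsGreatest (BM M f (L k) n) β ∧
        Om f (α + β)) ↔ Om f (α + β) := by
      constructor
      · rintro ⟨α', β', h1, h2, h3⟩
        rwa [h1.unique hα, h2.unique hβ] at h3
      · intro h
        exact ⟨α, β, hα, hβ, h⟩
    have q2 : (∃ α β, IsLeast (FM M f' (L k) n') α ∧ IsGreatest (BM M f' (L k) n') β ∧
        Om f' (α + β)) ↔ Om f' (2 * e - (α + β)) := by
      have e1 : 2 * e - (α + β) = (e - β) + (e - α) := by ring
      rw [e1]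
      constructor
      · rintro ⟨α', β', h1, h2, h3⟩
        rwa [h1.unique hβ', h2.unique hα'] at h3
      · intro h
        exact ⟨e - β, e - α, hβ', hα', h⟩
    rw [q1, q2] at g3'
    have hflip : Om f' (2 * e - (α + β)) ↔ ¬ Om f (α + β) := by
      apply Om_flip
      · rw [hE.2.2 _ (by omega) (by omega)]
        congr 2
        ring
      · rw [hE.2.2 _ (by omega) (by omega)]
        congr 2
        ring
      · by_cases hpar : (α + β) - (α + β) / 2 = (α + β) / 2
        · rw [hpar]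
          exact inv_ne _
        · have : (α + β) - (α + β) / 2 = (α + β) / 2 + 1 := by omega
          rw [this]
          exact hred _ (by omega) (by omega)
    rw [hflip] at g3'
    tauto
  · -- the periodic case
    have hper : ∀ p, a ≤ p → p ≤ n - 1 - a → Per D N f p := by
      intro p hp1 hp2
      by_contra hcon
      obtain ⟨q, hq1, hq2⟩ := hden f p hcon
      rw [abs_le] at hq1
      exact hFne ⟨q, by linarith [hq1.1], by linarith [hq1.2], hq2⟩
    obtain ⟨s, hs1, hs2, hs⟩ := global_period hN (by omega) hper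
    have hs' : ∀ i, a ≤ i → i + s ≤ n - 1 - a → f i = f (i + s) := fun i h1 h2 =>
      hs i h1 (by omega)
    have hsr : ∀ i, -(n - 1 - a) ≤ i → i + s ≤ -a → rho f i = rho f (i + s) := by
      intro i h1 h2
      unfold rho
      have := hs' (-(i + s)) (by omega) (by omega)
      rw [this]
      congr 2
      ring
    have hT1 : TT N f' Y (n' - 1 - Y) = TT N (rho f) (-(n - 1 - Y)) (-Y) := by
      rw [TT_shift (g := rho f) (t := -e) (by
        intro i h1 h2
        rw [hE.2.2 i (by omega) (by omega)]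
        unfold rho
        congr 2
        ring)]
      exact TT_eq hs1 hsr (by omega) (by omega) (by omega) (by omega) (by omega) (by omega)
    have hT2 : TT N (rho f') (-(n' - 1 - Y)) (-Y) = TT N f Y (n - 1 - Y) := by
      rw [TT_shift (g := f) (t := e) (by
        intro i h1 h2
        unfold rho
        rw [hE.2.2 (-i) (by omega) (by omega), inv_inv]
        congr 1
        ring)]
      exact TT_eq hs1 hs' (by omega) (by omega) (by omega) (by omega) (by omega) (by omega)
    rw [hT1, hT2] at hc2'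
    have hne1 : (TT N f Y (n - 1 - Y)).Nonempty := ⟨_, Y, le_rfl, by omega, rfl⟩
    have hne2 : (TT N (rho f) (-(n - 1 - Y)) (-Y)).Nonempty := ⟨_, -Y, by omega, le_rfl, rfl⟩
    obtain ⟨p, hp1, hp2, hp3⟩ := Nat.sInf_mem hne1
    obtain ⟨q, hq1, hq2, hq3⟩ := Nat.sInf_mem hne2
    have hneq : sInf (TT N f Y (n - 1 - Y)) ≠ sInf (TT N (rho f) (-(n - 1 - Y)) (-Y)) := by
      intro heq
      rw [← hp3, ← hq3] at heq
      have hqq : q = -(-q) := by ring
      rw [hqq] at heq
      exact no_common (a := a) (b := n - 1 - a) (s := s) (n := n) hs1 (by omega) hs' hred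
        (by omega) (by omega) (by omega) (by omega) (by omega) (by omega) heq
    omega

end Scale3

section Words

/-- the letters of `v`, as a function on `ℤ` -/
def wf (v : FreeGroup (Fin 2)) : ℤ → A := fun i => v.toWord.getD i.toNat (0, true)

/-- the length -/
def len (v : FreeGroup (Fin 2)) : ℤ := v.toWord.length

theorem len_nonneg (v : FreeGroup (Fin 2)) : 0 ≤ len v := Int.natCast_nonneg _

theorem wf_eq (v : FreeGroup (Fin 2)) (i : ℤ) (h0 : 0 ≤ i) (h1 : i < len v) :
    wf v i = v.toWord[i.toNat]'(by unfold len at h1; omega) := by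
  unfold wf
  rw [List.getD_eq_getElem]

theorem red_wf (v : FreeGroup (Fin 2)) : Red (len v) (wf v) := by
  intro i h0 h1
  rw [wf_eq v i h0 (by omega), wf_eq v (i + 1) (by omega) h1]
  have hred : FreeGroup.IsReduced v.toWord := FreeGroup.isReduced_toWord
  unfold FreeGroup.IsReduced at hred
  rw [List.isChain_iff_getElem] at hred
  have h2 := hred i.toNat (by unfold len at h1; omega)
  have e : (i + 1).toNat = i.toNat + 1 := by omega
  simp only [e]
  intro heq
  unfold inv at heq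
  have h3 := congrArg Prod.fst heq
  have h4 := congrArg Prod.snd heq
  simp only at h3 h4
  have h5 := h2 h3
  rw [h5] at h4
  revert h4
  cases (v.toWord[i.toNat + 1]'(by unfold len at h1; omega)).2 <;> simp

/-- two lists agree after dropping at most `R` letters from each -/
def Sh (R : ℕ) (x y : List A) : Prop :=
  ∃ i j, i ≤ R ∧ j ≤ R ∧ i ≤ x.length ∧ j ≤ y.length ∧ x.drop i = y.drop j

theorem Sh_step {R : ℕ} {x x' y : List A} (h : Sh R x y)
    (hx : (∃ c, x' = c :: x) ∨ (∃ c, x = c :: x')) : Sh (R + 1) x' y := by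
  obtain ⟨i, j, hi, hj, hil, hjl, h⟩ := h
  rcases hx with ⟨c, rfl⟩ | ⟨c, rfl⟩
  · refine ⟨i + 1, j, by omega, by omega, by simp; omega, hjl, ?_⟩
    simpa using h
  · rcases Nat.eq_zero_or_pos i with rfl | hi0
    · refine ⟨0, j + 1, by omega, by omega, by omega, ?_, ?_⟩
      · have := congrArg List.length h
        simp at this
        omega
      · rw [List.drop_zero] at h ⊢
        rw [← List.drop_drop, ← h]
        simp
    · obtain ⟨i', rfl⟩ : ∃ i', i = i' + 1 := ⟨i - 1, by omega⟩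
      refine ⟨i', j, by omega, by omega, by simp at hil; omega, hjl, ?_⟩
      simpa using h

theorem step_mul (a : A) (u : FreeGroup (Fin 2)) :
    (∃ c, (FreeGroup.mk [a] * u).toWord = c :: u.toWord) ∨
    (∃ c, u.toWord = c :: (FreeGroup.mk [a] * u).toWord) := by
  have h1 : (FreeGroup.mk [a] * u).toWord = FreeGroup.reduce (a :: u.toWord) := by
    conv_lhs => rw [← FreeGroup.mk_toWord (x := u)]
    rw [FreeGroup.mul_mk, FreeGroup.toWord_mk]
    rfl
  rw [h1, FreeGroup.reduce.cons, FreeGroup.reduce_toWord]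
  cases hu : u.toWord with
  | nil => left; exact ⟨a, rfl⟩
  | cons b l =>
    simp only
    by_cases hc : a.1 = b.1 ∧ a.2 = !b.2
    · right
      rw [if_pos hc]
      exact ⟨b, rfl⟩
    · left
      rw [if_neg hc]
      exact ⟨a, rfl⟩

theorem Sh_mul (w : List A) (u : FreeGroup (Fin 2)) :
    Sh w.length (FreeGroup.mk w * u).toWord u.toWord := by
  induction w with
  | nil =>
    refine ⟨0, 0, le_rfl, le_rfl, Nat.zero_le _, Nat.zero_le _, ?_⟩
    have : (FreeGroup.mk ([] : List A) : FreeGroup (Fin 2)) = 1 := rfl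
    rw [this, one_mul]
  | cons a w ih =>
    have e : FreeGroup.mk (a :: w) * u = FreeGroup.mk [a] * (FreeGroup.mk w * u) := by
      rw [← mul_assoc, FreeGroup.mul_mk]
      rfl
    rw [e]
    exact Sh_step ih (step_mul a (FreeGroup.mk w * u))

theorem left_mul (g u : FreeGroup (Fin 2)) : ∃ t : ℤ, |t| ≤ len g ∧ len (g * u) = len u + t ∧
    ∀ m, len g ≤ m → m < len (g * u) → wf (g * u) m = wf u (m - t) := by
  have h := Sh_mul g.toWord u
  rw [FreeGroup.mk_toWord] at h
  obtain ⟨i, j, hi, hj, hil, hjl, h⟩ := h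
  have hlen := congrArg List.length h
  rw [List.length_drop, List.length_drop] at hlen
  have hl : len (g * u) = len u + ((i : ℤ) - j) := by
    unfold len
    omega
  refine ⟨(i : ℤ) - j, ?_, hl, ?_⟩
  · unfold len
    rw [abs_le]
    constructor <;> omega
  · intro m hm1 hm2
    have hmi : (i : ℤ) ≤ m := by unfold len at hm1; omega
    rw [wf_eq _ m (by omega) hm2, wf_eq u (m - ((i : ℤ) - j)) (by omega) (by omega)]
    have e1 : m.toNat = i + (m.toNat - i) := by omega
    have e2 : (m - ((i : ℤ) - j)).toNat = j + (m.toNat - i) := by omega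
    have h3 := congrArg (fun l : List A => l[m.toNat - i]?) h
    simp only [List.getElem?_drop] at h3
    rw [← e1, ← e2] at h3
    rw [List.getElem?_eq_getElem (by unfold len at hm2; omega),
      List.getElem?_eq_getElem (by unfold len at hl hm2; omega)] at h3
    exact Option.some.inj h3

theorem len_inv (u : FreeGroup (Fin 2)) : len u⁻¹ = len u := by
  unfold len
  rw [FreeGroup.toWord_inv, FreeGroup.invRev_length]

theorem wf_inv (u : FreeGroup (Fin 2)) (m : ℤ) (h0 : 0 ≤ m) (h1 : m < len u) :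
    wf u⁻¹ m = inv (wf u (len u - 1 - m)) := by
  rw [wf_eq _ m h0 (by rw [len_inv]; exact h1), wf_eq u _ (by omega) (by omega)]
  have h2 : u⁻¹.toWord = (u.toWord.map inv).reverse := by
    rw [FreeGroup.toWord_inv]
    rfl
  simp only [h2, List.getElem_reverse, List.getElem_map]
  congr 2
  unfold len
  simp only [List.length_map]
  omega

theorem right_mul (g u : FreeGroup (Fin 2)) : ∃ t : ℤ, |t| ≤ len g ∧ len (u * g) = len u + t ∧
    ∀ m, 0 ≤ m → m ≤ len (u * g) - 1 - len g → wf (u * g) m = wf u m := by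
  obtain ⟨t, ht1, ht2, ht3⟩ := left_mul g⁻¹ u⁻¹
  have e : u * g = (g⁻¹ * u⁻¹)⁻¹ := by group
  rw [len_inv] at ht1 ht2 ht3
  have hg := len_nonneg g
  have hl : len (u * g) = len u + t := by rw [e, len_inv, ht2]
  have ht1' := abs_le.1 ht1
  refine ⟨t, ht1, hl, fun m hm0 hm1 => ?_⟩
  rw [hl] at hm1
  rw [e, wf_inv _ m hm0 (by rw [ht2]; omega), ht2, ht3 _ (by omega) (by rw [ht2]; omega),
    wf_inv _ _ (by omega) (by omega), inv_inv]
  congr 1
  omega

theorem edge_mul (g v : FreeGroup (Fin 2)) : ∃ e : ℤ,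
    Edge (2 * len g) (len v) (wf v) (len (g * v⁻¹ * g)) (wf (g * v⁻¹ * g)) e := by
  obtain ⟨t', h1', h2', h3'⟩ := right_mul g v⁻¹
  obtain ⟨t, h1, h2, h3⟩ := left_mul g (v⁻¹ * g)
  rw [len_inv] at h2'
  have hg := len_nonneg g
  have h1a := abs_le.1 h1
  have h1b := abs_le.1 h1'
  rw [← mul_assoc] at h2 h3
  refine ⟨len v - 1 + t, ?_, ?_, ?_⟩
  · rw [abs_le]; constructor <;> omega
  · rw [abs_le, h2, h2']; constructor <;> omega
  · intro i hi1 hi2
    rw [h3 i (by omega) (by rw [h2, h2']; omega), h3' _ (by omega) (by rw [h2']; omega),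
      wf_inv _ _ (by omega) (by omega)]
    congr 2
    ring

theorem finite_len (T : ℤ) : {v : FreeGroup (Fin 2) | len v < T}.Finite := by
  have h1 : {l : List A | l.length ≤ T.toNat}.Finite := List.finite_length_le A T.toNat
  refine (h1.preimage (f := FreeGroup.toWord) FreeGroup.toWord_injective.injOn).subset ?_
  intro v hv
  have : len v < T := hv
  unfold len at this
  show v.toWord.length ≤ T.toNat
  omega

end Words

section Final

theorem exists_coloring : ∃ c : FreeGroup (Fin 2) → Prop × Color,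
    ∀ g : FreeGroup (Fin 2), ∃ T : ℤ, ∀ v, T ≤ len v → c v ≠ c (g * v⁻¹ * g) := by
  classical
  choose χ N0 hχ using scale
  let B : ℕ → ℤ := fun r => ∑ i ∈ Finset.range (r + 1), (|N0 i| + 4 * (i : ℤ) + 4)
  have hB1 : ∀ r, B (r + 1) = B r + (|N0 (r + 1)| + 4 * ((r + 1 : ℕ) : ℤ) + 4) := fun r =>
    Finset.sum_range_succ _ _
  have hBpos : ∀ r, 0 ≤ B r := fun r => Finset.sum_nonneg fun i _ => by positivity
  have hB2 : ∀ r, N0 r ≤ B r := by
    intro r
    cases r with
    | zero =>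
      have : B 0 = |N0 0| + 4 * ((0 : ℕ) : ℤ) + 4 := by simp [B]
      rw [this]
      have := le_abs_self (N0 0)
      push_cast
      linarith
    | succ r =>
      rw [hB1]
      have := le_abs_self (N0 (r + 1))
      have := hBpos r
      push_cast
      linarith
  have hB3 : ∀ r : ℕ, (r : ℤ) ≤ B r := by
    intro r
    induction r with
    | zero => simpa using hBpos 0
    | succ r ih =>
      rw [hB1]
      have := abs_nonneg (N0 (r + 1))
      have := hBpos r
      push_cast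
      linarith
  have hBmono : Monotone B := monotone_nat_of_le_succ fun r => by
    rw [hB1]
    have := abs_nonneg (N0 (r + 1))
    have : (0 : ℤ) ≤ ((r + 1 : ℕ) : ℤ) := by positivity
    linarith
  let ρ : ℤ → ℕ := fun n => Nat.findGreatest (fun r => B r ≤ n) n.toNat
  have hρ1 : ∀ n r, B r ≤ n → r ≤ ρ n := by
    intro n r h
    refine Nat.le_findGreatest ?_ h
    have := hB3 r
    omega
  have hρ2 : ∀ n r, B r ≤ n → B (ρ n) ≤ n := by
    intro n r h
    exact Nat.findGreatest_spec (P := fun r => B r ≤ n) (m := r) (by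
      have := hB3 r
      omega) h
  have hρ3 : ∀ n, n < B (ρ n + 1) := by
    intro n
    by_contra hcon
    push Not at hcon
    have := hρ1 n _ hcon
    omega
  refine ⟨fun v => (Even (ρ (len v)), χ (ρ (len v)) (len v) (wf v)), fun g => ?_⟩
  set r : ℕ := (2 * len g).toNat with hr
  have hrz : (r : ℤ) = 2 * len g := Int.toNat_of_nonneg (by have := len_nonneg g; omega)
  refine ⟨B r + 2 * r, fun v hv heq => ?_⟩
  obtain ⟨e, hE⟩ := edge_mul g v
  rw [← hrz] at hE
  have hE1 := abs_le.1 hE.1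
  have hE2 := abs_le.1 hE.2.1
  set n := len v with hn
  set n' := len (g * v⁻¹ * g) with hn'
  have hr0 : (0 : ℤ) ≤ r := Int.natCast_nonneg r
  have h1 : B r ≤ n := by linarith
  have h1' : B r ≤ n' := by linarith
  have h2 := hρ1 n r h1
  have h2' := hρ1 n' r h1'
  have h3 := hρ2 n r h1
  have h3' := hρ2 n' r h1'
  have h4 := hρ3 n
  have h4' := hρ3 n'
  have heq1 := congrArg Prod.fst heq
  have heq2 := congrArg Prod.snd heq
  simp only at heq1 heq2
  have heven : Even (ρ n) ↔ Even (ρ n') := iff_of_eq heq1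
  by_cases hρ : ρ n = ρ n'
  · have hE' : Edge (ρ n) n (wf v) n' (wf (g * v⁻¹ * g)) e := by
      have hle : (r : ℤ) ≤ (ρ n : ℕ) := by exact_mod_cast h2
      refine ⟨hE.1.trans hle, hE.2.1.trans hle, fun i hi1 hi2 => hE.2.2 i ?_ ?_⟩
      · linarith
      · linarith
    refine hχ (ρ n) n (wf v) n' (wf (g * v⁻¹ * g)) e ((hB2 _).trans h3) (red_wf v) hE' ?_
    rw [← hρ] at heq2
    exact heq2
  · -- the levels differ by exactly one
    have hstep : ∀ x y : ℤ, ∀ s t : ℕ, |x - y| ≤ 2 * r → B r ≤ x → x < B (s + 1) → B t ≤ y →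
        r ≤ s → t ≤ s + 1 := by
      intro x y s t hxy _ hxs hty hrs
      by_contra hcon
      push Not at hcon
      have h5 : B (s + 2) ≤ B t := hBmono (by omega)
      have h6 := hB1 (s + 1)
      have h7 := abs_nonneg (N0 (s + 1 + 1))
      have h8 : (r : ℤ) ≤ s := by exact_mod_cast hrs
      rw [abs_le] at hxy
      push_cast at h6
      have h9 : B (s + 1 + 1) = B (s + 2) := rfl
      linarith [hxy.1]
    have hd : |n - n'| ≤ 2 * r := by
      rw [abs_le]
      constructor <;> linarith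
    have k1 := hstep n n' (ρ n) (ρ n') hd h1 h4 h3' h2
    have k2 := hstep n' n (ρ n') (ρ n) (by rwa [abs_sub_comm]) h1' h4' h3 h2'
    have : ρ n' = ρ n + 1 ∨ ρ n = ρ n' + 1 := by omega
    rcases this with h | h
    · rw [h, Nat.even_add_one] at heven
      tauto
    · rw [h, Nat.even_add_one] at heven
      tauto

theorem main : ∃ k : ℕ, ∃ c : FreeGroup (Fin 2) → Fin k,
      ∀ A : Set (FreeGroup (Fin 2)), A.Infinite →
        (∃ g : FreeGroup (Fin 2), A = (fun a => g * a⁻¹ * g) '' A) →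
          ¬ ∃ i : Fin k, ∀ a ∈ A, c a = i := by
  classical
  obtain ⟨c, hc⟩ := exists_coloring
  refine ⟨Fintype.card (Prop × Color), fun v => Fintype.equivFin (Prop × Color) (c v), ?_⟩
  rintro S hS ⟨g, hg⟩ ⟨i, hi⟩
  obtain ⟨T, hT⟩ := hc g
  obtain ⟨v, hvS, hvT⟩ : ∃ v ∈ S, T ≤ len v := by
    by_contra hcon
    push Not at hcon
    exact hS ((finite_len T).subset fun v hv => hcon v hv)
  have h2 : g * v⁻¹ * g ∈ S := by
    rw [hg]
    exact ⟨v, hvS, rfl⟩
  apply hT v hvT
  apply (Fintype.equivFin (Prop × Color)).injective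
  have e1 := hi v hvS
  have e2 := hi _ h2
  simp only at e1 e2
  rw [e1, e2]

end Final

end Pool.Agent.H12Free
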