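import Mathlib

set_option autoImplicit false

universe u

namespace Pool.Agent.H12Homog

/-- A representation `(V, G)` over `K`: a group `G` and a `K`-module `V` on which `G` acts
`K`-linearly on the right (`act v g` is `v g`), i.e. a right `KG`-module. -/
structure Rep (K : Type u) [CommRing K] where
  V : Type u
  G : Type u
  [addV : AddCommGroup V]
  [modV : Module K V]
  [grpG : Group G]
  act : V → G → V
  act_add : ∀ (v w : V) (g : G), act (v + w) g = act v g + act w g
  act_smul : ∀ (k : K) (v : V) (g : G), act (k • v) g = k • act v g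
  act_one : ∀ v : V, act v 1 = v
  act_mul : ∀ (v : V) (g h : G), act v (g * h) = act (act v g) h

attribute [instance] Rep.addV Rep.modV Rep.grpG

variable {K : Type u} [CommRing K]

/-- An embedding of representations: a morphism with both components injective. -/
structure Emb (R S : Rep K) where
  f : R.V →ₗ[K] S.V
  φ : R.G →* S.G
  f_inj : Function.Injective f
  φ_inj : Function.Injective φ
  comm : ∀ (v : R.V) (g : R.G), f (R.act v g) = S.act (f v) (φ g)

/-- `(W, H)` is a subrepresentation of `(V, G)`. -/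
def IsSub (R : Rep K) (W : Submodule K R.V) (H : Subgroup R.G) : Prop :=
  ∀ w ∈ W, ∀ h ∈ H, R.act w h ∈ W

/-- `(W, H)` is finitely generated: `H` is a finitely generated group and `W` is generated as a
`KH`-module by finitely many elements. -/
def IsFG (R : Rep K) (W : Submodule K R.V) (H : Subgroup R.G) : Prop :=
  (∃ S : Finset R.G, Subgroup.closure (S : Set R.G) = H) ∧
    ∃ S : Finset R.V, W = Submodule.span K {x | ∃ s ∈ S, ∃ h ∈ H, x = R.act s h}

/-- `α : W₁ → W₂` is bijective and `K`-linear. -/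
def IsLinIso (R : Rep K) (W₁ W₂ : Submodule K R.V) (α : W₁ → W₂) : Prop :=
  Function.Bijective α ∧ (∀ x y : W₁, α (x + y) = α x + α y) ∧
    ∀ (k : K) (x : W₁), α (k • x) = k • α x

/-- `β : H₁ → H₂` is bijective and multiplicative. -/
def IsGrpIso (R : Rep K) (H₁ H₂ : Subgroup R.G) (β : H₁ → H₂) : Prop :=
  Function.Bijective β ∧ ∀ x y : H₁, β (x * y) = β x * β y

/-- `α (w h) = α w · β h` for `w ∈ W₁`, `h ∈ H₁` (here `w' = w h`, which lies in `W₁`). -/
def IsMor (R : Rep K) (W₁ W₂ : Submodule K R.V) (H₁ H₂ : Subgroup R.G)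
    (α : W₁ → W₂) (β : H₁ → H₂) : Prop :=
  ∀ (w w' : W₁) (h : H₁), w'.1 = R.act w.1 h.1 → (α w').1 = R.act (α w).1 (β h).1

/-- `(a, b)` is an automorphism of `(V, G)`. -/
def IsAut (R : Rep K) (a : R.V ≃ₗ[K] R.V) (b : R.G ≃* R.G) : Prop :=
  ∀ (v : R.V) (g : R.G), a (R.act v g) = R.act (a v) (b g)

/-- `(a, b)` extends `(α, β)`. -/
def Extends (R : Rep K) (W₁ W₂ : Submodule K R.V) (H₁ H₂ : Subgroup R.G)
    (α : W₁ → W₂) (β : H₁ → H₂) (a : R.V ≃ₗ[K] R.V) (b : R.G ≃* R.G) : Prop :=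
  (∀ w : W₁, a w.1 = (α w).1) ∧ (∀ h : H₁, b h.1 = (β h).1)

/-- `(V, G)` is homogeneous: every isomorphism between finitely generated subrepresentations
extends to an automorphism. -/
def Homogeneous (R : Rep K) : Prop :=
  ∀ (W₁ W₂ : Submodule K R.V) (H₁ H₂ : Subgroup R.G),
    IsSub R W₁ H₁ → IsSub R W₂ H₂ → IsFG R W₁ H₁ → IsFG R W₂ H₂ →
    ∀ (α : W₁ → W₂) (β : H₁ → H₂),
      IsLinIso R W₁ W₂ α → IsGrpIso R H₁ H₂ β → IsMor R W₁ W₂ H₁ H₂ α β →
      ∃ (a : R.V ≃ₗ[K] R.V) (b : R.G ≃* R.G), IsAut R a b ∧ Extends R W₁ W₂ H₁ H₂ α β a b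

end Pool.Agent.H12Homog
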