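import Mathlib
import Pool.Agent.H12HomogDefs

set_option autoImplicit false

universe u

namespace Pool.Agent.H12Homog

variable {K : Type u} [CommRing K]

section Orb

variable {G : Type u} [Group G] {H : Type u} [Group H]

/-- orbit relation of `H` on `G` through `j`, left multiplication -/
def orbS (j : H →* G) : Setoid G where
  r x y := ∃ h : H, y = j h * x
  iseqv := ⟨fun x => ⟨1, by simp⟩, fun {x y} ⟨h, e⟩ => ⟨h⁻¹, by rw [e]; simp⟩,
    fun {x y z} ⟨h, e⟩ ⟨h', e'⟩ => ⟨h' * h, by rw [e', e, map_mul, mul_assoc]⟩⟩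

theorem orb_ex (j : H →* G) (x : G) :
    ∃ h : H, x = j h * (Quotient.out (Quotient.mk (orbS j) x)) := by
  have : (orbS j).r (Quotient.out (Quotient.mk (orbS j) x)) x := by
    have := Quotient.exact (Quotient.out_eq (Quotient.mk (orbS j) x))
    exact this
  exact this

noncomputable def kk (j : H →* G) (x : G) : H := (orb_ex j x).choose

theorem kk_spec (j : H →* G) (x : G) :
    x = j (kk j x) * (Quotient.out (Quotient.mk (orbS j) x)) := (orb_ex j x).choose_spec

theorem mk_mul (j : H →* G) (h : H) (x : G) :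
    Quotient.mk (orbS j) (j h * x) = Quotient.mk (orbS j) x := by
  symm
  exact Quotient.sound ⟨h, rfl⟩

theorem kk_mul (j : H →* G) (hj : Function.Injective j) (h : H) (x : G) :
    kk j (j h * x) = h * kk j x := by
  apply hj
  have h1 := kk_spec j (j h * x)
  rw [mk_mul] at h1
  have h2 := kk_spec j x
  rw [map_mul]
  have h3 : j (kk j (j h * x)) * (Quotient.out (Quotient.mk (orbS j) x)) =
      (j h * j (kk j x)) * (Quotient.out (Quotient.mk (orbS j) x)) := by
    rw [← h1, mul_assoc, ← h2]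
  exact mul_right_cancel h3

noncomputable def eq1 (j : H →* G) (hj : Function.Injective j) :
    G ≃ (Quotient (orbS j)) × H where
  toFun x := (Quotient.mk _ x, kk j x)
  invFun p := j p.2 * p.1.out
  left_inv x := (kk_spec j x).symm
  right_inv p := by
    obtain ⟨q, h⟩ := p
    have h1 : Quotient.mk (orbS j) (j h * q.out) = q := by rw [mk_mul, Quotient.out_eq]
    have h2 : kk j (j h * q.out) = h := by
      have h3 := kk_spec j (j h * q.out)
      rw [h1] at h3
      exact (hj (mul_right_cancel h3)).symm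
    simp only [h1, h2]

/-- left translation on `T × G` -/
def Lh (T G : Type u) [Group G] : G →* Equiv.Perm (T × G) where
  toFun g := ⟨fun s => (s.1, g * s.2), fun s => (s.1, g⁻¹ * s.2), fun s => by simp,
    fun s => by simp⟩
  map_one' := by ext s <;> simp
  map_mul' g h := by ext s <;> simp [mul_assoc]

theorem Lh_apply (T G : Type u) [Group G] (g : G) (s : T × G) :
    Lh T G g s = (s.1, g * s.2) := rfl

theorem exists_sigma (j₁ j₂ : H →* G) :
    Nonempty (((G × ℕ) × Quotient (orbS j₁)) ≃ ((G × ℕ) × Quotient (orbS j₂))) := by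
  have key : ∀ j : H →* G, Cardinal.mk ((G × ℕ) × Quotient (orbS j)) = Cardinal.mk (G × ℕ) := by
    intro j
    rw [Cardinal.mk_prod, Cardinal.lift_id, Cardinal.lift_id]
    have hinf : Cardinal.aleph0 ≤ Cardinal.mk (G × ℕ) := by
      have : Nonempty G := ⟨1⟩
      exact Cardinal.aleph0_le_mk (G × ℕ)
    have hle : Cardinal.mk (Quotient (orbS j)) ≤ Cardinal.mk (G × ℕ) := by
      refine le_trans Cardinal.mk_quotient_le ?_
      exact Cardinal.mk_le_of_injective (f := fun g : G => ((g, 0) : G × ℕ)) (by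
        intro a b h; simpa using h)
    apply Cardinal.mul_eq_left hinf hle
    have : Nonempty (Quotient (orbS j)) := ⟨Quotient.mk _ 1⟩
    exact Cardinal.mk_ne_zero _
  rw [← Cardinal.eq, key, key]

theorem exists_phi (j₁ j₂ : H →* G) (h₁ : Function.Injective j₁) (h₂ : Function.Injective j₂) :
    ∃ F : Equiv.Perm ((G × ℕ) × G), ∀ h s, F (Lh _ G (j₁ h) s) = Lh _ G (j₂ h) (F s) := by
  obtain ⟨σ⟩ := exists_sigma j₁ j₂
  let F : Equiv.Perm ((G × ℕ) × G) :=
    ((Equiv.refl (G × ℕ)).prodCongr (eq1 j₁ h₁)).trans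
      ((Equiv.prodAssoc _ _ _).symm.trans ((σ.prodCongr (Equiv.refl H)).trans
        ((Equiv.prodAssoc _ _ _).trans ((Equiv.refl (G × ℕ)).prodCongr (eq1 j₂ h₂).symm))))
  refine ⟨F, ?_⟩
  intro h s
  obtain ⟨t, x⟩ := s
  simp only [F, Lh_apply, Equiv.trans_apply, Equiv.prodCongr_apply, Prod.map, Equiv.refl_apply,
    Equiv.prodAssoc_symm_apply, Equiv.prodAssoc_apply]
  have e1 : eq1 j₁ h₁ (j₁ h * x) = ((eq1 j₁ h₁ x).1, h * (eq1 j₁ h₁ x).2) := by
    show (Quotient.mk _ (j₁ h * x), kk j₁ (j₁ h * x)) = (Quotient.mk _ x, h * kk j₁ x)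
    rw [mk_mul, kk_mul j₁ h₁]
  have e2 : ∀ q k, (eq1 j₂ h₂).symm (q, h * k) = j₂ h * (eq1 j₂ h₂).symm (q, k) := by
    intro q k
    show j₂ (h * k) * q.out = j₂ h * (j₂ k * q.out)
    rw [map_mul, mul_assoc]
  rw [e1, e2]

end Orb

section Coind

variable {G : Type u} [Group G] {E : Type u} [AddCommGroup E] [Module K E] {T : Type u}

/-- extension of equivariant maps into a coinduced module -/
theorem ext_lemma [Module.Injective K E] {H : Type u} [Group H] (j j' : H →* G)
    (hj : Function.Injective j) {W : Type u} [AddCommGroup W] [Module K W]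
    (w : W →ₗ[K] (T × G → E)) (hw : Function.Injective w) (c : W →ₗ[K] (T × G → E))
    (hc : ∀ x h, ∃ x', (w x' = fun s => w x (Lh T G (j' h) s)) ∧
      (c x' = fun s => c x (Lh T G (j h) s))) :
    ∃ c' : (T × G → E) →ₗ[K] (T × G → E), (∀ x, c' (w x) = c x) ∧
      ∀ (m : T × G → E) (h : H), c' (fun s => m (Lh T G (j' h) s)) =
        fun s => c' m (Lh T G (j h) s) := by
  have hex : ∀ s : T × G, ∃ d : (T × G → E) →ₗ[K] E, ∀ x, d (w x) = c x s := by
    intro s
    obtain ⟨d, hd⟩ := Module.Injective.out (R := K) (Q := E) w hw ((LinearMap.proj s).comp c)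
    exact ⟨d, fun x => by rw [hd]; rfl⟩
  choose d hd using hex
  let rr : G → G := fun x => (Quotient.out (Quotient.mk (orbS j) x))
  have hrr : ∀ (h : H) x, rr (j h * x) = rr x := by
    intro h x
    show (Quotient.out (Quotient.mk (orbS j) (j h * x))) = _
    rw [mk_mul]
  refine ⟨LinearMap.pi fun s =>
    (d (s.1, rr s.2)).comp (LinearMap.funLeft K E (Lh T G (j' (kk j s.2)))), ?_, ?_⟩
  · intro x
    funext s
    rw [LinearMap.pi_apply, LinearMap.comp_apply]
    obtain ⟨x', h1, h2⟩ := hc x (kk j s.2)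
    have h3 : (LinearMap.funLeft K E (Lh T G (j' (kk j s.2)))) (w x) = w x' := by
      rw [h1]; rfl
    rw [h3, hd, h2]
    show c x (Lh T G (j (kk j s.2)) (s.1, rr s.2)) = c x s
    have h4 : Lh T G (j (kk j s.2)) (s.1, rr s.2) = s := by
      rw [Lh_apply]
      show (s.1, j (kk j s.2) * rr s.2) = s
      rw [← kk_spec j s.2]
    rw [h4]
  · intro m h
    funext s
    rw [LinearMap.pi_apply, LinearMap.comp_apply, LinearMap.pi_apply, LinearMap.comp_apply]
    have e1 : (Lh T G (j h) s).1 = s.1 := rfl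
    have e2 : (Lh T G (j h) s).2 = j h * s.2 := rfl
    rw [e1, e2, hrr, kk_mul j hj]
    congr 1
    funext t
    show m (Lh T G (j' h) (Lh T G (j' (kk j s.2)) t)) = m (Lh T G (j' (h * kk j s.2)) t)
    rw [map_mul, map_mul]
    rfl

/-- permutations of `S` acting on `(S → E)²` -/
def glHom (S : Type u) : Equiv.Perm S →* (((S → E) × (S → E)) ≃ₗ[K] ((S → E) × (S → E))) where
  toFun σ :=
    { toFun := fun p => (fun s => p.1 (σ.symm s), fun s => p.2 (σ.symm s))
      invFun := fun p => (fun s => p.1 (σ s), fun s => p.2 (σ s))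
      map_add' := fun p q => rfl
      map_smul' := fun k p => rfl
      left_inv := fun p => by simp
      right_inv := fun p => by simp }
  map_one' := by ext <;> rfl
  map_mul' σ τ := by ext <;> rfl

theorem glHom_apply (S : Type u) (σ : Equiv.Perm S) (p : (S → E) × (S → E)) :
    (glHom (K := K) S σ) p = (fun s => p.1 (σ.symm s), fun s => p.2 (σ.symm s)) := rfl

theorem glHom_symm_apply (S : Type u) (σ : Equiv.Perm S) (p : (S → E) × (S → E)) :
    (glHom (K := K) S σ).symm p = (fun s => p.1 (σ s), fun s => p.2 (σ s)) := rfl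

/-- the target of one step -/
def stepRep (K : Type u) [CommRing K] (E : Type u) [AddCommGroup E] [Module K E] (S : Type u) :
    Rep K where
  V := (S → E) × (S → E)
  G := (((S → E) × (S → E)) ≃ₗ[K] ((S → E) × (S → E))) × Equiv.Perm S
  act := fun p g => g.1.symm p
  act_add := fun _ _ _ => map_add _ _ _
  act_smul := fun _ _ _ => map_smul _ _ _
  act_one := fun _ => rfl
  act_mul := fun _ _ _ => rfl

theorem step (R : Rep K) : ∃ (R' : Rep K) (e : Emb R R'),
    ∀ (W H : Type u) [AddCommGroup W] [Module K W] [Group H] (w₁ w₂ : W →ₗ[K] R.V)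
      (j₁ j₂ : H →* R.G), Function.Injective w₁ → Function.Injective w₂ →
      Function.Injective j₁ → Function.Injective j₂ →
      (∀ x h, ∃ x', w₁ x' = R.act (w₁ x) (j₁ h) ∧ w₂ x' = R.act (w₂ x) (j₂ h)) →
      ∃ t : R'.G, (∀ x, R'.act (e.f (w₁ x)) t = e.f (w₂ x)) ∧
        ∀ h, e.φ (j₂ h) = t⁻¹ * e.φ (j₁ h) * t := by
  obtain ⟨E, instE, instM, hinj, ι, hι⟩ : ∃ (E : Type u) (_ : AddCommGroup E) (_ : Module K E)
      (_ : Module.Injective K E) (ι : R.V →ₗ[K] E), Function.Injective ι := by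
    obtain ⟨⟨J, hJ, f, hf⟩⟩ := (ModuleCat.enoughInjectives.{u, u} K).presentation
      (ModuleCat.of K R.V)
    refine ⟨J, inferInstance, inferInstance, ?_, f.hom, ?_⟩
    · exact Module.injective_module_of_injective_object K J
    · exact (ModuleCat.mono_iff_injective f).1 hf
  set T : Type u := R.G × ℕ with hT
  let S : Type u := T × R.G
  -- the embedding `V → (S → E)`
  let κ : R.V →ₗ[K] (S → E) :=
    { toFun := fun v s => ι (R.act v s.2)
      map_add' := fun v w => by funext s; simp [R.act_add]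
      map_smul' := fun k v => by funext s; simp [R.act_smul] }
  have hκ : Function.Injective κ := by
    intro v w h
    have h1 := congrFun h ((1, 0), 1)
    have h2 : ι (R.act v 1) = ι (R.act w 1) := h1
    rw [R.act_one, R.act_one] at h2
    exact hι h2
  have hκact : ∀ v g, κ (R.act v g) = fun s => κ v (Lh T R.G g s) := by
    intro v g
    funext s
    show ι (R.act (R.act v g) s.2) = ι (R.act v (g * s.2))
    rw [R.act_mul]
  let e : Emb R (stepRep K E S) :=
    { f := LinearMap.inl K (S → E) (S → E) ∘ₗ κ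
      φ := ((glHom (K := K) (E := E) S).prod (MonoidHom.id _)).comp (Lh T R.G)
      f_inj := by
        intro v w h
        apply hκ
        exact congrArg Prod.fst h
      φ_inj := by
        intro g h hgh
        have h1 : Lh T R.G g = Lh T R.G h := congrArg Prod.snd hgh
        have h2 := congrArg (fun σ : Equiv.Perm (T × R.G) => (σ ((1, 0), 1)).2) h1
        simpa [Lh_apply] using h2
      comm := by
        intro v g
        show ((κ (R.act v g), 0) : (S → E) × (S → E)) =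
          ((glHom (K := K) S (Lh T R.G g)).symm (κ v, 0))
        rw [glHom_symm_apply, hκact]
        rfl }
  refine ⟨stepRep K E S, e, ?_⟩
  intro W H _ _ _ w₁ w₂ j₁ j₂ hw₁ hw₂ hj₁ hj₂ hcomp
  obtain ⟨F, hF⟩ := exists_phi j₁ j₂ hj₁ hj₂
  have hF' : ∀ h s, F.symm (Lh _ R.G (j₂ h) s) = Lh _ R.G (j₁ h) (F.symm s) := by
    intro h s
    rw [Equiv.symm_apply_eq, hF, Equiv.apply_symm_apply]
  obtain ⟨a, ha1, ha2⟩ := ext_lemma (K := K) (E := E) (T := T) j₂ j₁ hj₂ (κ.comp w₁)
    (hκ.comp hw₁) (κ.comp w₂) (by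
      intro x h
      obtain ⟨x', h1, h2⟩ := hcomp x h
      refine ⟨x', ?_, ?_⟩
      · rw [LinearMap.comp_apply, h1, hκact]; rfl
      · rw [LinearMap.comp_apply, h2, hκact]; rfl)
  obtain ⟨b, hb1, hb2⟩ := ext_lemma (K := K) (E := E) (T := T) j₁ j₂ hj₁ (κ.comp w₂)
    (hκ.comp hw₂) (κ.comp w₁) (by
      intro x h
      obtain ⟨x', h1, h2⟩ := hcomp x h
      refine ⟨x', ?_, ?_⟩
      · rw [LinearMap.comp_apply, h2, hκact]; rfl
      · rw [LinearMap.comp_apply, h1, hκact]; rfl)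
  let P : (S → E) →ₗ[K] (S → E) := LinearMap.funLeft K E F.symm
  let Q : (S → E) →ₗ[K] (S → E) := LinearMap.funLeft K E F
  have hQP : ∀ m, Q (P m) = m := by
    intro m; funext s; show m (F.symm (F s)) = m s; rw [Equiv.symm_apply_apply]
  have hPQ : ∀ m, P (Q m) = m := by
    intro m; funext s; show m (F (F.symm s)) = m s; rw [Equiv.apply_symm_apply]
  have hP : ∀ (m : S → E) (h : H), P (fun s => m (Lh T R.G (j₁ h) s)) =
      fun s => P m (Lh T R.G (j₂ h) s) := by
    intro m h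
    funext s
    show m (Lh T R.G (j₁ h) (F.symm s)) = m (F.symm (Lh T R.G (j₂ h) s))
    rw [hF']
  let θ : ((S → E) × (S → E)) ≃ₗ[K] ((S → E) × (S → E)) :=
    { toFun := fun p => (P p.2 + a p.1, P (p.1 - b (P p.2 + a p.1)))
      map_add' := by
        intro p q
        simp only [Prod.fst_add, Prod.snd_add, map_add, map_sub, Prod.mk_add_mk, Prod.mk.injEq]
        constructor <;> abel
      map_smul' := by
        intro k p
        simp only [Prod.smul_fst, Prod.smul_snd, map_smul, map_sub, map_add, RingHom.id_apply,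
          Prod.smul_mk, smul_add, smul_sub]
      invFun := fun p => (Q p.2 + b p.1, Q (p.1 - a (Q p.2 + b p.1)))
      left_inv := by
        intro p
        obtain ⟨x, y⟩ := p
        simp only [hQP]
        have e1 : x - b (P y + a x) + b (P y + a x) = x := by abel
        rw [e1]
        have e2 : P y + a x - a x = P y := by abel
        rw [e2, hQP]
      right_inv := by
        intro p
        obtain ⟨x, y⟩ := p
        simp only [hPQ]
        have e1 : x - a (Q y + b x) + a (Q y + b x) = x := by abel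
        rw [e1]
        have e2 : Q y + b x - b x = Q y := by abel
        rw [e2, hPQ] }
  have hθ : ∀ p, θ p = (P p.2 + a p.1, P (p.1 - b (P p.2 + a p.1))) := fun p => rfl
  have hLs : ∀ g, (Lh T R.G g).symm = Lh T R.G g⁻¹ := by
    intro g; rw [map_inv]; rfl
  refine ⟨(θ⁻¹, F⁻¹), ?_, ?_⟩
  · intro x
    show θ (κ (w₁ x), 0) = (κ (w₂ x), 0)
    rw [hθ]
    simp only [map_zero, zero_add]
    have e1 : a (κ (w₁ x)) = κ (w₂ x) := ha1 x
    have e2 : b (κ (w₂ x)) = κ (w₁ x) := hb1 x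
    rw [e1, e2, sub_self, map_zero]
  · intro h
    apply Prod.ext
    · show glHom (K := K) (E := E) S (Lh T R.G (j₂ h)) =
        (θ⁻¹)⁻¹ * glHom (K := K) (E := E) S (Lh T R.G (j₁ h)) * θ⁻¹
      rw [inv_inv, eq_mul_inv_iff_mul_eq]
      apply LinearEquiv.ext
      intro p
      show glHom (K := K) (E := E) S (Lh T R.G (j₂ h)) (θ p) =
        θ (glHom (K := K) (E := E) S (Lh T R.G (j₁ h)) p)
      rw [glHom_apply, glHom_apply, hθ, hθ]
      simp only [hLs, ← map_inv]
      rw [hP, ha2]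
      have e1 : ((fun s => P p.2 (Lh T R.G (j₂ h⁻¹) s)) + fun s => a p.1 (Lh T R.G (j₂ h⁻¹) s)) =
        fun s => (P p.2 + a p.1) (Lh T R.G (j₂ h⁻¹) s) := rfl
      rw [e1, hb2]
      have e2 : ((fun s => p.1 (Lh T R.G (j₁ h⁻¹) s)) -
        fun s => b (P p.2 + a p.1) (Lh T R.G (j₁ h⁻¹) s)) =
        fun s => (p.1 - b (P p.2 + a p.1)) (Lh T R.G (j₁ h⁻¹) s) := rfl
      rw [e2, hP]
    · show Lh T R.G (j₂ h) = (F⁻¹)⁻¹ * Lh T R.G (j₁ h) * F⁻¹
      rw [inv_inv, eq_mul_inv_iff_mul_eq]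
      apply Equiv.ext
      intro s
      exact (hF h s).symm

end Coind

section Limit

noncomputable def nx (R : Rep K) : Rep K := (step R).choose

noncomputable def nxE (R : Rep K) : Emb R (nx R) := (step R).choose_spec.choose

theorem nx_spec (R : Rep K) :
    ∀ (W H : Type u) [AddCommGroup W] [Module K W] [Group H] (w₁ w₂ : W →ₗ[K] R.V)
      (j₁ j₂ : H →* R.G), Function.Injective w₁ → Function.Injective w₂ →
      Function.Injective j₁ → Function.Injective j₂ →
      (∀ x h, ∃ x', w₁ x' = R.act (w₁ x) (j₁ h) ∧ w₂ x' = R.act (w₂ x) (j₂ h)) →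
      ∃ t : (nx R).G, (∀ x, (nx R).act ((nxE R).f (w₁ x)) t = (nxE R).f (w₂ x)) ∧
        ∀ h, (nxE R).φ (j₂ h) = t⁻¹ * (nxE R).φ (j₁ h) * t :=
  (step R).choose_spec.choose_spec

noncomputable def sq (R : Rep K) : ℕ → Rep K
  | 0 => R
  | n + 1 => nx (sq R n)

def Emb.refl (R : Rep K) : Emb R R where
  f := LinearMap.id
  φ := MonoidHom.id _
  f_inj := fun _ _ h => h
  φ_inj := fun _ _ h => h
  comm := fun _ _ => rfl

def Emb.trans {R S T : Rep K} (e : Emb R S) (e' : Emb S T) : Emb R T where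
  f := e'.f.comp e.f
  φ := e'.φ.comp e.φ
  f_inj := e'.f_inj.comp e.f_inj
  φ_inj := e'.φ_inj.comp e.φ_inj
  comm := fun v g => by
    show e'.f (e.f (R.act v g)) = T.act (e'.f (e.f v)) (e'.φ (e.φ g))
    rw [e.comm, e'.comm]

noncomputable def tr (R : Rep K) (i j : ℕ) (h : i ≤ j) : Emb (sq R i) (sq R j) :=
  Nat.leRecOn (C := fun k => Emb (sq R i) (sq R k)) h (fun {k} e => e.trans (nxE (sq R k)))
    (Emb.refl _)

theorem tr_self (R : Rep K) (i : ℕ) : tr R i i le_rfl = Emb.refl _ := Nat.leRecOn_self _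

theorem tr_succ (R : Rep K) (i j : ℕ) (h : i ≤ j) :
    tr R i (j + 1) (h.trans (Nat.le_succ j)) = (tr R i j h).trans (nxE (sq R j)) :=
  Nat.leRecOn_succ (C := fun k => Emb (sq R i) (sq R k)) h _

theorem tr_trans (R : Rep K) (i j k : ℕ) (h : i ≤ j) (h' : j ≤ k) :
    (tr R i j h).trans (tr R j k h') = tr R i k (h.trans h') := by
  induction k, h' using Nat.le_induction with
  | base => rw [tr_self]; rfl
  | succ k hk ih =>
    rw [tr_succ R j k hk, tr_succ R i k (h.trans hk), ← ih]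
    rfl

instance dsV (R : Rep K) : DirectedSystem (fun i => (sq R i).V) (fun i j h => ⇑(tr R i j h).f) where
  map_self i x := by rw [tr_self]; rfl
  map_map i j k h h' x := by rw [← tr_trans R _ _ _ h h']; rfl

instance dsG (R : Rep K) : DirectedSystem (fun i => (sq R i).G) (fun i j h => ⇑(tr R i j h).φ) where
  map_self i x := by rw [tr_self]; rfl
  map_map i j k h h' x := by rw [← tr_trans R _ _ _ h h']; rfl

abbrev LV (R : Rep K) : Type u := DirectLimit (fun i => (sq R i).V) (fun i j h => (tr R i j h).f)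

abbrev LG (R : Rep K) : Type u := DirectLimit (fun i => (sq R i).G) (fun i j h => (tr R i j h).φ)

noncomputable def ιV (R : Rep K) (n : ℕ) : (sq R n).V →ₗ[K] LV R where
  toFun x := ⟦⟨n, x⟩⟧
  map_add' x y := (DirectLimit.add_def (f := fun i j h => (tr R i j h).f) n x y).symm
  map_smul' _ _ := rfl

noncomputable def ιG (R : Rep K) (n : ℕ) : (sq R n).G →* LG R where
  toFun x := ⟦⟨n, x⟩⟧
  map_one' := (DirectLimit.one_def (f := fun i j h => (tr R i j h).φ) n).symm
  map_mul' x y := (DirectLimit.mul_def (f := fun i j h => (tr R i j h).φ) n x y).symm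

theorem ιV_inj (R : Rep K) (n : ℕ) : Function.Injective (ιV R n) :=
  DirectLimit.mk_injective _ (fun i j h => (tr R i j h).f_inj) n

theorem ιG_inj (R : Rep K) (n : ℕ) : Function.Injective (ιG R n) :=
  DirectLimit.mk_injective _ (fun i j h => (tr R i j h).φ_inj) n

theorem ιV_tr (R : Rep K) (i j : ℕ) (h : i ≤ j) (x : (sq R i).V) :
    ιV R j ((tr R i j h).f x) = ιV R i x :=
  DirectLimit.mk_apply (F := fun i => (sq R i).V) (f := fun i j h => (tr R i j h).f) i j x h

theorem ιG_tr (R : Rep K) (i j : ℕ) (h : i ≤ j) (x : (sq R i).G) :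
    ιG R j ((tr R i j h).φ x) = ιG R i x :=
  DirectLimit.mk_apply (F := fun i => (sq R i).G) (f := fun i j h => (tr R i j h).φ) i j x h

theorem LV_rep (R : Rep K) (z : LV R) : ∃ n₀, ∀ n ≥ n₀, ∃ x, z = ιV R n x := by
  obtain ⟨i, x, hx⟩ := DirectLimit.exists_eq_mk _ z
  exact ⟨i, fun n hn => ⟨(tr R i n hn).f x, by rw [ιV_tr]; exact hx⟩⟩

theorem LG_rep (R : Rep K) (z : LG R) : ∃ n₀, ∀ n ≥ n₀, ∃ x, z = ιG R n x := by
  obtain ⟨i, x, hx⟩ := DirectLimit.exists_eq_mk _ z
  exact ⟨i, fun n hn => ⟨(tr R i n hn).φ x, by rw [ιG_tr]; exact hx⟩⟩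

noncomputable def actL (R : Rep K) : LV R → LG R → LV R :=
  DirectLimit.map₂ _ _ _ (fun i v g => (sq R i).act v g) (fun i j h v g => (tr R i j h).comm v g)

theorem actL_def (R : Rep K) (n : ℕ) (v : (sq R n).V) (g : (sq R n).G) :
    actL R (ιV R n v) (ιG R n g) = ιV R n ((sq R n).act v g) :=
  DirectLimit.map₂_def (F₁ := fun i => (sq R i).V) (F₂ := fun i => (sq R i).G)
    (F := fun i => (sq R i).V) (fun i j h => (tr R i j h).f) (fun i j h => (tr R i j h).φ)
    (fun i j h => (tr R i j h).f) (fun i v g => (sq R i).act v g)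
    (fun i j h v g => (tr R i j h).comm v g) n v g

noncomputable def limRep (R : Rep K) : Rep K where
  V := LV R
  G := LG R
  act := actL R
  act_add v w g := by
    obtain ⟨a, ha⟩ := LV_rep R v
    obtain ⟨b, hb⟩ := LV_rep R w
    obtain ⟨c, hc⟩ := LG_rep R g
    obtain ⟨v, rfl⟩ := ha (max a (max b c)) (le_max_left _ _)
    obtain ⟨w, rfl⟩ := hb (max a (max b c)) ((le_max_left _ _).trans (le_max_right _ _))
    obtain ⟨g, rfl⟩ := hc (max a (max b c)) ((le_max_right _ _).trans (le_max_right _ _))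
    rw [← map_add, actL_def, actL_def, actL_def, (sq R _).act_add, map_add]
  act_smul k v g := by
    obtain ⟨a, ha⟩ := LV_rep R v
    obtain ⟨c, hc⟩ := LG_rep R g
    obtain ⟨v, rfl⟩ := ha (max a c) (le_max_left _ _)
    obtain ⟨g, rfl⟩ := hc (max a c) (le_max_right _ _)
    rw [← map_smul, actL_def, actL_def, (sq R _).act_smul, map_smul]
  act_one v := by
    obtain ⟨a, ha⟩ := LV_rep R v
    obtain ⟨v, rfl⟩ := ha a le_rfl
    rw [← map_one (ιG R a), actL_def, (sq R _).act_one]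
  act_mul v g h := by
    obtain ⟨a, ha⟩ := LV_rep R v
    obtain ⟨b, hb⟩ := LG_rep R g
    obtain ⟨c, hc⟩ := LG_rep R h
    obtain ⟨v, rfl⟩ := ha (max a (max b c)) (le_max_left _ _)
    obtain ⟨g, rfl⟩ := hb (max a (max b c)) ((le_max_left _ _).trans (le_max_right _ _))
    obtain ⟨h, rfl⟩ := hc (max a (max b c)) ((le_max_right _ _).trans (le_max_right _ _))
    rw [← map_mul, actL_def, actL_def, actL_def, (sq R _).act_mul]

theorem limRep_act (R : Rep K) (n : ℕ) (v : (sq R n).V) (g : (sq R n).G) :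
    (limRep R).act (ιV R n v) (ιG R n g) = ιV R n ((sq R n).act v g) := actL_def R n v g

theorem ιV_nx (R : Rep K) (n : ℕ) (x : (sq R n).V) :
    ιV R (n + 1) ((nxE (sq R n)).f x) = ιV R n x := by
  rw [← ιV_tr R n (n + 1) (Nat.le_succ n) x, tr_succ R n n le_rfl, tr_self]
  rfl

theorem ιG_nx (R : Rep K) (n : ℕ) (x : (sq R n).G) :
    ιG R (n + 1) ((nxE (sq R n)).φ x) = ιG R n x := by
  rw [← ιG_tr R n (n + 1) (Nat.le_succ n) x, tr_succ R n n le_rfl, tr_self]
  rfl

theorem stageV (R : Rep K) (S : Finset (LV R)) :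
    ∃ n₀, ∀ n ≥ n₀, ∀ s ∈ S, ∃ x, s = ιV R n x := by
  choose f hf using LV_rep R
  exact ⟨S.sup f, fun n hn s hs => hf s n ((Finset.le_sup hs).trans hn)⟩

theorem stageG (R : Rep K) (S : Finset (LG R)) :
    ∃ n₀, ∀ n ≥ n₀, ∀ s ∈ S, ∃ x, s = ιG R n x := by
  choose f hf using LG_rep R
  exact ⟨S.sup f, fun n hn s hs => hf s n ((Finset.le_sup hs).trans hn)⟩

theorem liftV (R : Rep K) (n : ℕ) {W : Type u} [AddCommGroup W] [Module K W]
    (g : W →ₗ[K] LV R) (hg : ∀ x, ∃ y, g x = ιV R n y) :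
    ∃ g' : W →ₗ[K] (sq R n).V, ∀ x, ιV R n (g' x) = g x := by
  choose y hy using hg
  refine ⟨{ toFun := y, map_add' := ?_, map_smul' := ?_ }, fun x => (hy x).symm⟩
  · intro a b
    apply ιV_inj R n
    rw [← hy, map_add, map_add, hy, hy]
  · intro k a
    apply ιV_inj R n
    rw [← hy, map_smul, RingHom.id_apply, map_smul, hy]

theorem liftG (R : Rep K) (n : ℕ) {H : Type u} [Group H]
    (g : H →* LG R) (hg : ∀ x, ∃ y, g x = ιG R n y) :
    ∃ g' : H →* (sq R n).G, ∀ x, ιG R n (g' x) = g x := by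
  choose y hy using hg
  refine ⟨{ toFun := y, map_one' := ?_, map_mul' := ?_ }, fun x => (hy x).symm⟩
  · apply ιG_inj R n
    rw [← hy, map_one, map_one]
  · intro a b
    apply ιG_inj R n
    rw [← hy, map_mul, map_mul, hy, hy]

theorem fg_stage (R : Rep K) (W : Submodule K (limRep R).V) (H : Subgroup (limRep R).G)
    (fg : IsFG (limRep R) W H) : ∃ n₀, ∀ n ≥ n₀,
      (∀ w ∈ W, ∃ x, w = ιV R n x) ∧ (∀ h ∈ H, ∃ x, h = ιG R n x) := by
  obtain ⟨⟨SG, hSG⟩, SV, hSV⟩ := fg
  obtain ⟨n₁, h₁⟩ := stageV R SV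
  obtain ⟨n₂, h₂⟩ := stageG R SG
  refine ⟨max n₁ n₂, fun n hn => ?_⟩
  have hG : ∀ h ∈ H, ∃ x, h = ιG R n x := by
    have : H ≤ (ιG R n).range := by
      rw [← hSG, Subgroup.closure_le]
      intro s hs
      obtain ⟨x, hx⟩ := h₂ n ((le_max_right _ _).trans hn) s hs
      exact ⟨x, hx.symm⟩
    intro h hh
    obtain ⟨x, hx⟩ := this hh
    exact ⟨x, hx.symm⟩
  refine ⟨?_, hG⟩
  have : W ≤ LinearMap.range (ιV R n) := by
    rw [hSV, Submodule.span_le]
    rintro z ⟨s, hs, h, hh, rfl⟩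
    obtain ⟨x, hx⟩ := h₁ n ((le_max_left _ _).trans hn) s hs
    obtain ⟨y, hy⟩ := hG h hh
    refine ⟨(sq R n).act x y, ?_⟩
    rw [hx, hy]
    exact (limRep_act R n x y).symm
  intro w hw
  obtain ⟨x, hx⟩ := this hw
  exact ⟨x, hx.symm⟩

/-- inner automorphisms of a representation -/
theorem inner (R : Rep K) (τ : R.G) : ∃ (a : R.V ≃ₗ[K] R.V) (b : R.G ≃* R.G),
    (∀ (v : R.V) (g : R.G), a (R.act v g) = R.act (a v) (b g)) ∧
    (∀ v, a v = R.act v τ) ∧ (∀ g, b g = τ⁻¹ * g * τ) := by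
  refine ⟨{ toFun := fun v => R.act v τ, invFun := fun v => R.act v τ⁻¹,
            map_add' := fun v w => R.act_add v w τ, map_smul' := fun k v => R.act_smul k v τ,
            left_inv := fun v => by
              show R.act (R.act v τ) τ⁻¹ = v
              rw [← R.act_mul, mul_inv_cancel, R.act_one]
            right_inv := fun v => by
              show R.act (R.act v τ⁻¹) τ = v
              rw [← R.act_mul, inv_mul_cancel, R.act_one] }, MulAut.conj τ⁻¹, ?_, ?_, ?_⟩
  · intro v g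
    show R.act (R.act v g) τ = R.act (R.act v τ) (MulAut.conj τ⁻¹ g)
    rw [← R.act_mul, ← R.act_mul]
    congr 1
    simp [mul_assoc]
  · intro v; rfl
  · intro g; simp

theorem conj_lem {A B : Type u} [Group A] [Group B] (φ : A →* B) (t x : A) :
    φ (t⁻¹ * x * t) = (φ t)⁻¹ * φ x * φ t := by
  rw [map_mul, map_mul, map_inv]

theorem limRep_homog (R : Rep K) : Homogeneous (limRep R) := by
  intro W₁ W₂ H₁ H₂ s₁ s₂ fg₁ fg₂ α β hα hβ hαβ
  let α' : W₁ →ₗ[K] W₂ := { toFun := α, map_add' := hα.2.1, map_smul' := hα.2.2 }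
  let β' : H₁ →* H₂ := MonoidHom.mk' β hβ.2
  obtain ⟨m₁, hm₁⟩ := fg_stage R W₁ H₁ fg₁
  obtain ⟨m₂, hm₂⟩ := fg_stage R W₂ H₂ fg₂
  obtain ⟨n, hn₁, hn₂⟩ : ∃ n, m₁ ≤ n ∧ m₂ ≤ n := ⟨max m₁ m₂, le_max_left _ _, le_max_right _ _⟩
  obtain ⟨hV₁, hG₁⟩ := hm₁ n hn₁
  obtain ⟨hV₂, hG₂⟩ := hm₂ n hn₂
  obtain ⟨w₁, hw₁⟩ := liftV R n (W := W₁) W₁.subtype (fun x => hV₁ x x.2)
  obtain ⟨w₂, hw₂⟩ := liftV R n (W := W₁) (W₂.subtype ∘ₗ α') (fun x => hV₂ _ (α x).2)
  obtain ⟨j₁, hj₁⟩ := liftG R n (H := H₁) H₁.subtype (fun x => hG₁ x x.2)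
  obtain ⟨j₂, hj₂⟩ := liftG R n (H := H₁) (H₂.subtype.comp β') (fun x => hG₂ _ (β x).2)
  have hw₁i : Function.Injective w₁ := by
    intro x y h
    have := congrArg (ιV R n) h
    rw [hw₁, hw₁] at this
    exact Subtype.ext this
  have hw₂i : Function.Injective w₂ := by
    intro x y h
    have := congrArg (ιV R n) h
    rw [hw₂, hw₂] at this
    exact hα.1.1 (Subtype.ext this)
  have hj₁i : Function.Injective j₁ := by
    intro x y h
    have := congrArg (ιG R n) h
    rw [hj₁, hj₁] at this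
    exact Subtype.ext this
  have hj₂i : Function.Injective j₂ := by
    intro x y h
    have := congrArg (ιG R n) h
    rw [hj₂, hj₂] at this
    exact hβ.1.1 (Subtype.ext this)
  obtain ⟨t, ht₁, ht₂⟩ := nx_spec (sq R n) W₁ H₁ w₁ w₂ j₁ j₂ hw₁i hw₂i hj₁i hj₂i (by
    intro x h
    refine ⟨⟨(limRep R).act x.1 h.1, s₁ x.1 x.2 h.1 h.2⟩, ?_, ?_⟩
    · apply ιV_inj R n
      rw [hw₁, ← limRep_act, hw₁, hj₁]
      rfl
    · apply ιV_inj R n
      rw [hw₂, ← limRep_act, hw₂, hj₂]
      exact hαβ x _ h rfl)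
  obtain ⟨a, b, hab, ha, hb⟩ := inner (limRep R) (ιG R (n + 1) t)
  refine ⟨a, b, hab, ?_, ?_⟩
  · intro w
    rw [ha]
    have e1 : (w : (limRep R).V) = ιV R (n + 1) ((nxE (sq R n)).f (w₁ w)) := by
      rw [ιV_nx, hw₁]; rfl
    have e2 : ((α w : W₂) : (limRep R).V) = ιV R (n + 1) ((nxE (sq R n)).f (w₂ w)) := by
      rw [ιV_nx, hw₂]; rfl
    rw [e1, e2, ← ht₁ w]
    exact limRep_act R (n + 1) _ t
  · intro h
    rw [hb]
    have e1 : (h : (limRep R).G) = ιG R (n + 1) ((nxE (sq R n)).φ (j₁ h)) := by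
      rw [ιG_nx, hj₁]; rfl
    have e2 : ((β h : H₂) : (limRep R).G) = ιG R (n + 1) ((nxE (sq R n)).φ (j₂ h)) := by
      rw [ιG_nx, hj₂]; rfl
    rw [e1, e2, ht₂ h]
    exact (conj_lem (ιG R (n + 1)) t ((nxE (sq R n)).φ (j₁ h))).symm

end Limit

theorem main (K : Type u) [CommRing K] (R : Rep K) :
    ∃ R' : Rep K, Homogeneous R' ∧ Nonempty (Emb R R') :=
  ⟨limRep R, limRep_homog R, ⟨{
    f := ιV R 0
    φ := ιG R 0
    f_inj := ιV_inj R 0
    φ_inj := ιG_inj R 0
    comm := fun v g => (limRep_act R 0 v g).symm }⟩⟩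

end Pool.Agent.H12Homog
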