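import Mathlib

set_option autoImplicit false

open Classical

namespace Pool.Agent.H12KernelA

variable {k c : ℕ}

/-- functions that are injective on the pairs of `S` -/
noncomputable def X (c : ℕ) (S : Finset (Fin k × Fin k)) : Finset (Fin k → Fin c) :=
  Finset.univ.filter (fun φ => ∀ p ∈ S, φ p.1 ≠ φ p.2)

noncomputable def Y (c : ℕ) (p : Fin k × Fin k) : Finset (Fin k → Fin c) :=
  Finset.univ.filter (fun φ => φ p.1 = φ p.2)

lemma card_Y (p : Fin k × Fin k) (hp : p.1 ≠ p.2) : (Y c p).card * c = c ^ k := by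
  have h1 : (Y c p ×ˢ (Finset.univ : Finset (Fin c))).card =
      (Finset.univ : Finset (Fin k → Fin c)).card := by
    refine Finset.card_bij' (fun x _ => Function.update x.1 p.2 x.2)
      (fun ψ _ => (Function.update ψ p.2 (ψ p.1), ψ p.2)) ?_ ?_ ?_ ?_
    · intro a _; exact Finset.mem_univ _
    · intro ψ _
      simp only [Y, Finset.mem_product, Finset.mem_filter, Finset.mem_univ, true_and, and_true]
      rw [Function.update_of_ne hp, Function.update_self]
    · rintro ⟨φ, t⟩ h
      simp only [Y, Finset.mem_product, Finset.mem_filter, Finset.mem_univ, true_and, and_true] at h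
      simp only [Function.update_self, Function.update_idem, Prod.mk.injEq, and_true]
      rw [Function.update_of_ne hp, h, Function.update_eq_self]
    · intro ψ _
      simp only [Function.update_idem, Function.update_eq_self]
  rw [Finset.card_product, Finset.card_univ, Fintype.card_fin] at h1
  rw [h1]
  simp

lemma card_YY_aux (a b w w' : Fin k) (hab : a ≠ b) (hwa : w ≠ a) (hwb : w ≠ b) (hww : w' ≠ w) :
    ((Finset.univ : Finset (Fin k → Fin c)).filter (fun φ => φ a = φ b ∧ φ w' = φ w)).card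
      * (c * c) ≤ c ^ k := by
  set Z := (Finset.univ : Finset (Fin k → Fin c)).filter (fun φ => φ a = φ b ∧ φ w' = φ w) with hZ
  have h1 : (Z ×ˢ (Finset.univ : Finset (Fin c × Fin c))).card ≤
      (Finset.univ : Finset (Fin k → Fin c)).card := by
    apply Finset.card_le_card_of_injOn
      (fun x => Function.update (Function.update x.1 b x.2.1) w x.2.2)
    · intro x _; exact Finset.mem_coe.2 (Finset.mem_univ _)
    · rintro ⟨φ, s, t⟩ h ⟨φ', s', t'⟩ h' he
      simp only [hZ, Finset.coe_product, Set.mem_prod, Finset.mem_coe, Finset.mem_filter,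
        Finset.mem_univ, true_and, and_true] at h h'
      simp only at he
      have e1 := congrFun he w
      rw [Function.update_self, Function.update_self] at e1
      have e2 := congrFun he b
      rw [Function.update_of_ne hwb.symm, Function.update_of_ne hwb.symm, Function.update_self,
        Function.update_self] at e2
      have e3 : ∀ v, v ≠ w → v ≠ b → φ v = φ' v := by
        intro v hv1 hv2
        have := congrFun he v
        rw [Function.update_of_ne hv1, Function.update_of_ne hv1, Function.update_of_ne hv2,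
          Function.update_of_ne hv2] at this
        exact this
      have ea : φ a = φ' a := e3 a hwa.symm hab
      have eb : φ b = φ' b := by rw [← h.1, ← h'.1, ea]
      have ew' : φ w' = φ' w' := by
        by_cases hb : w' = b
        · rw [hb]; exact eb
        · exact e3 w' hww hb
      have ew : φ w = φ' w := by rw [← h.2, ← h'.2, ew']
      have : φ = φ' := by
        funext v
        by_cases h1 : v = w
        · rw [h1]; exact ew
        · by_cases h2 : v = b
          · rw [h2]; exact eb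
          · exact e3 v h1 h2
      rw [this, e1, e2]
  rw [Finset.card_product, Finset.card_univ, Finset.card_univ, Fintype.card_prod,
    Fintype.card_fin] at h1
  simpa using h1

lemma card_YY (p r : Fin k × Fin k) (hp : p.1 < p.2) (hr : r.1 < r.2) (hpr : p ≠ r) :
    (Y c p ∩ Y c r).card * (c * c) ≤ c ^ k := by
  have hY : Y c p ∩ Y c r = (Finset.univ : Finset (Fin k → Fin c)).filter
      (fun φ => φ p.1 = φ p.2 ∧ φ r.1 = φ r.2) := by
    ext φ
    simp [Y]
  have hY' : Y c p ∩ Y c r = (Finset.univ : Finset (Fin k → Fin c)).filter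
      (fun φ => φ p.1 = φ p.2 ∧ φ r.2 = φ r.1) := by
    rw [hY]
    ext φ
    simp only [Finset.mem_filter, Finset.mem_univ, true_and]
    constructor
    · rintro ⟨h1, h2⟩; exact ⟨h1, h2.symm⟩
    · rintro ⟨h1, h2⟩; exact ⟨h1, h2.symm⟩
  by_cases h : r.2 ≠ p.1 ∧ r.2 ≠ p.2
  · rw [hY]
    exact card_YY_aux p.1 p.2 r.2 r.1 hp.ne h.1 h.2 hr.ne
  · have h' : r.1 ≠ p.1 ∧ r.1 ≠ p.2 := by
      rw [not_and_or, not_not, not_not] at h
      rcases h with h | h
      · constructor
        · intro h1; rw [h, h1] at hr; exact lt_irrefl _ hr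
        · intro h1; rw [h, h1] at hr; exact lt_asymm hr hp
      · constructor
        · intro h1; exact hpr (Prod.ext h1.symm h.symm)
        · intro h1; rw [h, h1] at hr; exact lt_irrefl _ hr
    rw [hY']
    exact card_YY_aux p.1 p.2 r.1 r.2 hp.ne h'.1 h'.2 hr.ne'

/-- Bonferroni -/
lemma bonf (hc : 0 < c) (S : Finset (Fin k × Fin k)) (hS : ∀ p ∈ S, p.1 < p.2) :
    ((X c S).card : ℝ) ≤ (c : ℝ) ^ k * (1 - S.card / c + (S.card : ℝ) ^ 2 / (2 * (c : ℝ) ^ 2)) := by
  have hc' : (0 : ℝ) < c := by exact_mod_cast hc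
  induction S using Finset.induction_on with
  | empty =>
    have h0 : ((X c (∅ : Finset (Fin k × Fin k))).card : ℝ) = (c : ℝ) ^ k := by
      have : X c (∅ : Finset (Fin k × Fin k)) = Finset.univ := by
        ext φ; simp [X]
      rw [this, Finset.card_univ]
      simp
    rw [h0]
    simp
  | insert p S hpS ih =>
    have ih' := ih (fun r hr => hS r (Finset.mem_insert_of_mem hr))
    have hp : p.1 < p.2 := hS p (Finset.mem_insert_self _ _)
    -- X (insert p S) = X S \ Y p
    have h1 : (X c (insert p S)).card + (X c S ∩ Y c p).card = (X c S).card := by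
      have e1 : X c (insert p S) = X c S \ Y c p := by
        ext φ
        simp only [X, Y, Finset.mem_filter, Finset.mem_univ, true_and, Finset.mem_insert,
          Finset.mem_sdiff]
        constructor
        · intro h; exact ⟨fun r hr => h r (Or.inr hr), h p (Or.inl rfl)⟩
        · rintro ⟨h1, h2⟩ r (rfl | hr)
          · exact h2
          · exact h1 r hr
      rw [e1]
      exact Finset.card_sdiff_add_card_inter _ _
    have h2 : (Y c p).card ≤ (X c S ∩ Y c p).card + ∑ r ∈ S, (Y c p ∩ Y c r).card := by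
      have e1 : Y c p ⊆ (X c S ∩ Y c p) ∪ S.biUnion (fun r => Y c p ∩ Y c r) := by
        intro φ hφ
        by_cases hX : φ ∈ X c S
        · exact Finset.mem_union_left _ (Finset.mem_inter.2 ⟨hX, hφ⟩)
        · apply Finset.mem_union_right
          simp only [X, Finset.mem_filter, Finset.mem_univ, true_and] at hX
          push Not at hX
          obtain ⟨r, hr, hr'⟩ := hX
          rw [Finset.mem_biUnion]
          exact ⟨r, hr, Finset.mem_inter.2 ⟨hφ, by simp [Y, hr']⟩⟩
      calc (Y c p).card ≤ ((X c S ∩ Y c p) ∪ S.biUnion (fun r => Y c p ∩ Y c r)).card :=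
            Finset.card_le_card e1
        _ ≤ (X c S ∩ Y c p).card + (S.biUnion (fun r => Y c p ∩ Y c r)).card :=
            Finset.card_union_le _ _
        _ ≤ _ := by gcongr; exact Finset.card_biUnion_le
    have h3 : ((Y c p).card : ℝ) * c = (c : ℝ) ^ k := by exact_mod_cast card_Y p hp.ne
    have h4 : ∀ r ∈ S, ((Y c p ∩ Y c r).card : ℝ) * ((c : ℝ) * c) ≤ (c : ℝ) ^ k := by
      intro r hr
      have hne : p ≠ r := fun h => hpS (h ▸ hr)
      exact_mod_cast card_YY p r hp (hS r (Finset.mem_insert_of_mem hr)) hne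
    have h5 : (∑ r ∈ S, ((Y c p ∩ Y c r).card : ℝ)) * ((c : ℝ) * c) ≤ S.card * (c : ℝ) ^ k := by
      rw [Finset.sum_mul]
      calc _ ≤ ∑ r ∈ S, (c : ℝ) ^ k := Finset.sum_le_sum h4
        _ = _ := by rw [Finset.sum_const, nsmul_eq_mul]
    have h1' : ((X c (insert p S)).card : ℝ) + (X c S ∩ Y c p).card = (X c S).card := by
      exact_mod_cast h1
    have h2' : ((Y c p).card : ℝ) ≤ (X c S ∩ Y c p).card + ∑ r ∈ S, ((Y c p ∩ Y c r).card : ℝ) := by
      exact_mod_cast h2
    rw [Finset.card_insert_of_notMem hpS]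
    push_cast
    have e3 : ((Y c p).card : ℝ) = (c : ℝ) ^ k / c := by
      rw [eq_div_iff hc'.ne']; exact h3
    have e5 : (∑ r ∈ S, ((Y c p ∩ Y c r).card : ℝ)) ≤ S.card * (c : ℝ) ^ k / ((c : ℝ) * c) := by
      rw [le_div_iff₀ (by positivity)]; exact h5
    have hck : (0 : ℝ) < (c : ℝ) ^ k := by positivity
    calc ((X c (insert p S)).card : ℝ) = (X c S).card - (X c S ∩ Y c p).card := by linarith
      _ ≤ (c : ℝ) ^ k * (1 - S.card / c + (S.card : ℝ) ^ 2 / (2 * (c : ℝ) ^ 2)) -
          ((c : ℝ) ^ k / c - S.card * (c : ℝ) ^ k / ((c : ℝ) * c)) := by linarith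
      _ = (c : ℝ) ^ k * (1 - (S.card + 1) / c + ((S.card : ℝ) ^ 2 + 2 * S.card) / (2 * (c : ℝ) ^ 2)) := by
          field_simp
          ring
      _ ≤ (c : ℝ) ^ k * (1 - (S.card + 1) / c + ((S.card : ℝ) + 1) ^ 2 / (2 * (c : ℝ) ^ 2)) := by
          gcongr
          nlinarith

/-- bound on the normalised count -/
lemma norm_bound (m : ℕ) (S : Finset (Fin k × Fin k)) (hS : ∀ p ∈ S, p.1 < p.2)
    (hm : 2 * S.card ≤ m) (hm1 : 1 ≤ m) :
    (((X (m + 1) S).card : ℝ) / (((m : ℝ) + 1) ^ k * ((m : ℝ) / (m + 1)) ^ S.card)) ^ (m ^ 2) ≤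
      Real.exp ((S.card : ℝ) ^ 2) := by
  have hm0 : (0 : ℝ) < m := by exact_mod_cast hm1
  set e : ℝ := (S.card : ℝ) with he
  have he0 : 0 ≤ e := Nat.cast_nonneg _
  have h2e : 2 * e ≤ m := by rw [he]; exact_mod_cast hm
  set x : ℝ := 1 / ((m : ℝ) + 1) with hx
  have hx0 : 0 < x := by positivity
  have hex : e * x ≤ 1 / 2 := by
    rw [hx, mul_one_div, div_le_iff₀ (by positivity)]
    linarith
  have hb := bonf (c := m + 1) (by omega) S hS
  push_cast at hb
  have hxm : (m : ℝ) / (m + 1) = 1 - x := by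
    rw [hx]; field_simp; ring
  have hpow : 1 - e * x ≤ (1 - x) ^ S.card := by
    have hx1 : x ≤ 1 := by
      rw [hx, div_le_one (by positivity)]; linarith
    have := one_add_mul_le_pow (a := -x) (by linarith) S.card
    calc 1 - e * x = 1 + (S.card : ℝ) * (-x) := by rw [he]; ring
      _ ≤ (1 + -x) ^ S.card := this
      _ = (1 - x) ^ S.card := by rw [← sub_eq_add_neg]
  have hA : ((X (m + 1) S).card : ℝ) / (((m : ℝ) + 1) ^ k * ((m : ℝ) / (m + 1)) ^ S.card) ≤
      1 + e ^ 2 / (m : ℝ) ^ 2 := by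
    rw [hxm, div_le_iff₀ (by
      apply mul_pos (by positivity)
      apply pow_pos
      rw [← hxm]; positivity)]
    calc ((X (m + 1) S).card : ℝ) ≤ ((m : ℝ) + 1) ^ k * (1 - e / (m + 1) + e ^ 2 / (2 * ((m : ℝ) + 1) ^ 2)) := hb
      _ = ((m : ℝ) + 1) ^ k * (1 - e * x + e ^ 2 * x ^ 2 / 2) := by
          rw [hx]; field_simp
      _ ≤ ((m : ℝ) + 1) ^ k * ((1 + e ^ 2 * x ^ 2) * (1 - e * x)) := by
          gcongr
          nlinarith [mul_nonneg (mul_nonneg he0 he0) (mul_nonneg hx0.le hx0.le)]
      _ ≤ ((m : ℝ) + 1) ^ k * ((1 + e ^ 2 / (m : ℝ) ^ 2) * (1 - x) ^ S.card) := by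
          have h1 : x ^ 2 ≤ 1 / (m : ℝ) ^ 2 := by
            rw [hx, div_pow, one_pow]
            apply one_div_le_one_div_of_le (by positivity)
            gcongr
            linarith
          have h2 : 1 + e ^ 2 * x ^ 2 ≤ 1 + e ^ 2 / (m : ℝ) ^ 2 := by
            have : e ^ 2 * x ^ 2 ≤ e ^ 2 * (1 / (m : ℝ) ^ 2) := by gcongr
            rw [mul_one_div] at this
            linarith
          apply mul_le_mul_of_nonneg_left _ (by positivity)
          apply mul_le_mul h2 hpow (by linarith) (by positivity)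
      _ = (1 + e ^ 2 / (m : ℝ) ^ 2) * (((m : ℝ) + 1) ^ k * (1 - x) ^ S.card) := by ring
  have hnn : 0 ≤ ((X (m + 1) S).card : ℝ) / (((m : ℝ) + 1) ^ k * ((m : ℝ) / (m + 1)) ^ S.card) := by
    positivity
  calc _ ≤ (1 + e ^ 2 / (m : ℝ) ^ 2) ^ (m ^ 2) := pow_le_pow_left₀ hnn hA _
    _ ≤ (Real.exp (e ^ 2 / (m : ℝ) ^ 2)) ^ (m ^ 2) := by
        apply pow_le_pow_left₀ (by positivity)
        rw [add_comm]
        exact Real.add_one_le_exp _
    _ = Real.exp (e ^ 2) := by
        rw [← Real.exp_nat_mul]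
        congr 1
        push_cast
        field_simp

end Pool.Agent.H12KernelA
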