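import Pool.Agent.H12KernelA

set_option autoImplicit false

open Classical Filter Topology

namespace Pool.Agent.H12KernelB

open Pool.Agent.H12KernelA

/-- base vertex set -/
abbrev Bs (m : ℕ) := Fin (m ^ 2) → Fin (m + 1)

noncomputable def M (m : ℕ) : ℕ := Fintype.card (Bs m)

lemma M_pos (m : ℕ) : 0 < M m := Fintype.card_pos

lemma M_eq (m : ℕ) : M m = (m + 1) ^ (m ^ 2) := by
  unfold M; simp

noncomputable def dec (m : ℕ) (u : ℕ) : Bs m :=
  (Fintype.equivFin (Bs m)).symm ⟨u % M m, Nat.mod_lt _ (M_pos m)⟩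

/-- the graph on `n` vertices -/
noncomputable def GG (m n : ℕ) : SimpleGraph (Fin n) where
  Adj u v := u ≠ v ∧ ∀ i, dec m u i ≠ dec m v i
  symm := ⟨fun _ _ h => ⟨h.1.symm, fun i => (h.2 i).symm⟩⟩
  loopless := ⟨fun _ h => h.1 rfl⟩

/-- edges as ordered pairs -/
noncomputable def ES {k : ℕ} (F : SimpleGraph (Fin k)) : Finset (Fin k × Fin k) :=
  Finset.univ.filter (fun p => p.1 < p.2 ∧ F.Adj p.1 p.2)

lemma ES_lt {k : ℕ} (F : SimpleGraph (Fin k)) : ∀ p ∈ ES F, p.1 < p.2 := by
  intro p hp
  simp only [ES, Finset.mem_filter, Finset.mem_univ, true_and] at hp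
  exact hp.1

variable {k : ℕ} (F : SimpleGraph (Fin k)) (m n : ℕ)

noncomputable def HB : Finset (Fin k → Bs m) :=
  Finset.univ.filter (fun h => ∀ p ∈ ES F, ∀ i, h p.1 i ≠ h p.2 i)

noncomputable def HG : Finset (Fin k → Fin n) :=
  Finset.univ.filter (fun f => ∀ p ∈ ES F, ∀ i, dec m (f p.1) i ≠ dec m (f p.2) i)

lemma card_HB : (HB F m).card = (X (m + 1) (ES F)).card ^ (m ^ 2) := by
  have h1 : (HB F m).card = (Fintype.piFinset (fun _ : Fin (m ^ 2) => X (m + 1) (ES F))).card := by
    refine Finset.card_bij' (fun h _ => fun i a => h a i) (fun g _ => fun a i => g i a) ?_ ?_ ?_ ?_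
    · intro h hh
      simp only [HB, Finset.mem_filter, Finset.mem_univ, true_and] at hh
      simp only [Fintype.mem_piFinset, X, Finset.mem_filter, Finset.mem_univ, true_and]
      intro i p hp
      exact hh p hp i
    · intro g hg
      simp only [Fintype.mem_piFinset, X, Finset.mem_filter, Finset.mem_univ, true_and] at hg
      simp only [HB, Finset.mem_filter, Finset.mem_univ, true_and]
      intro p hp i
      exact hg i p hp
    · intro _ _; rfl
    · intro _ _; rfl
  rw [h1, Fintype.card_piFinset]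
  simp

noncomputable def cnt (b : Bs m) : ℕ :=
  (Finset.univ.filter (fun u : Fin n => dec m u.val = b)).card

lemma card_HG : (HG F m n).card = ∑ h ∈ HB F m, ∏ a, cnt m n (h a) := by
  rw [Finset.card_eq_sum_card_fiberwise (f := fun f : Fin k → Fin n => fun a => dec m (f a).val)
    (t := HB F m)]
  · apply Finset.sum_congr rfl
    intro h hh
    have h1 : (HG F m n).filter (fun f => (fun a => dec m (f a).val) = h) =
        Fintype.piFinset (fun a => Finset.univ.filter (fun u : Fin n => dec m u.val = h a)) := by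
      ext f
      simp only [HG, HB, Finset.mem_filter, Finset.mem_univ, true_and, Fintype.mem_piFinset] at hh ⊢
      constructor
      · rintro ⟨_, h2⟩ a
        exact congrFun h2 a
      · intro h2
        refine ⟨?_, funext h2⟩
        intro p hp i
        rw [h2 p.1, h2 p.2]
        exact hh p hp i
    rw [h1, Fintype.card_piFinset]
    rfl
  · intro f hf
    simp only [HG, HB, Finset.mem_filter, Finset.mem_univ, true_and, Finset.coe_filter,
      Set.mem_ofPred_eq] at hf ⊢
    exact hf

lemma cnt_eq (b : Bs m) : cnt m n b =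
    n / M m + if ((Fintype.equivFin (Bs m)) b).val < n % M m then 1 else 0 := by
  have h1 : cnt m n b = Nat.count (fun u => u ≡ ((Fintype.equivFin (Bs m)) b).val [MOD M m]) n := by
    rw [Nat.count_eq_card_filter_range]
    unfold cnt
    refine Finset.card_bij' (fun u _ => u.val) (fun u hu => ⟨u, by
      simp only [Finset.mem_filter, Finset.mem_range] at hu; exact hu.1⟩) ?_ ?_ ?_ ?_
    · intro u hu
      simp only [Finset.mem_filter, Finset.mem_univ, true_and, Finset.mem_range] at hu ⊢
      refine ⟨u.isLt, ?_⟩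
      rw [← hu]
      unfold dec
      rw [Equiv.apply_symm_apply]
      exact (Nat.mod_modEq _ _).symm
    · intro u hu
      simp only [Finset.mem_filter, Finset.mem_univ, true_and, Finset.mem_range] at hu ⊢
      have h2 : u % M m = ((Fintype.equivFin (Bs m)) b).val := by
        have := hu.2
        unfold Nat.ModEq at this
        rw [this]
        exact Nat.mod_eq_of_lt ((Fintype.equivFin (Bs m)) b).isLt
      unfold dec
      rw [Equiv.symm_apply_eq]
      exact Fin.ext h2
    · intro _ _; rfl
    · intro _ _; rfl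
  rw [h1, Nat.count_modEq_card _ (M_pos m)]
  have h3 : ((Fintype.equivFin (Bs m)) b).val % M m = ((Fintype.equivFin (Bs m)) b).val :=
    Nat.mod_eq_of_lt ((Fintype.equivFin (Bs m)) b).isLt
  rw [h3]

lemma cnt_tendsto (b : Bs m) : Tendsto (fun n : ℕ => (cnt m n b : ℝ) / n) atTop
    (𝓝 (1 / (M m : ℝ))) := by
  have hM : (0 : ℝ) < M m := by exact_mod_cast M_pos m
  have hb : ∀ n : ℕ, (n : ℝ) / M m - 1 ≤ cnt m n b ∧ (cnt m n b : ℝ) ≤ (n : ℝ) / M m + 1 := by
    intro n
    have h1 : (((n / M m : ℕ) : ℝ)) ≤ (n : ℝ) / M m := Nat.cast_div_le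
    have h2 : (n : ℝ) / M m - 1 ≤ ((n / M m : ℕ) : ℝ) := by
      have := Nat.lt_div_mul_add (a := n) (M_pos m)
      have h3 : (n : ℝ) < ((n / M m : ℕ) : ℝ) * M m + M m := by exact_mod_cast this
      rw [sub_le_iff_le_add, div_le_iff₀ hM]
      nlinarith
    rw [cnt_eq]
    push_cast
    split_ifs <;> constructor <;> linarith
  have hlim : ∀ s : ℝ, Tendsto (fun n : ℕ => 1 / (M m : ℝ) + s * (1 / (n : ℝ))) atTop
      (𝓝 (1 / (M m : ℝ))) := by
    intro s
    have := (tendsto_one_div_atTop_nhds_zero_nat (𝕜 := ℝ)).const_mul s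
    have h2 := this.const_add (1 / (M m : ℝ))
    simpa using h2
  apply tendsto_of_tendsto_of_tendsto_of_le_of_le' (hlim (-1)) (hlim 1)
  · filter_upwards [eventually_gt_atTop 0] with n hn
    have hn' : (0 : ℝ) < n := by exact_mod_cast hn
    rw [le_div_iff₀ hn']
    have := (hb n).1
    calc (1 / (M m : ℝ) + -1 * (1 / (n : ℝ))) * n = (n : ℝ) / M m - 1 := by field_simp; ring
      _ ≤ _ := this
  · filter_upwards [eventually_gt_atTop 0] with n hn
    have hn' : (0 : ℝ) < n := by exact_mod_cast hn
    rw [div_le_iff₀ hn']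
    have := (hb n).2
    calc _ ≤ (n : ℝ) / M m + 1 := this
      _ = (1 / (M m : ℝ) + 1 * (1 / (n : ℝ))) * n := by field_simp

lemma HG_tendsto : Tendsto (fun n : ℕ => ((HG F m n).card : ℝ) / (n : ℝ) ^ k) atTop
    (𝓝 (((HB F m).card : ℝ) / (M m : ℝ) ^ k)) := by
  have h1 : ∀ n : ℕ, ((HG F m n).card : ℝ) / (n : ℝ) ^ k =
      ∑ h ∈ HB F m, ∏ a : Fin k, ((cnt m n (h a) : ℝ) / n) := by
    intro n
    rw [card_HG]
    push_cast
    rw [Finset.sum_div]
    apply Finset.sum_congr rfl
    intro h _
    rw [Finset.prod_div_distrib]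
    simp
  have h2 : ((HB F m).card : ℝ) / (M m : ℝ) ^ k = ∑ h ∈ HB F m, ∏ _a : Fin k, (1 / (M m : ℝ)) := by
    simp [div_eq_mul_inv]
  simp only [h1, h2]
  apply tendsto_finsetSum
  intro h _
  apply tendsto_finsetProd
  intro a _
  exact cnt_tendsto m (h a)

/-- injective homs as a finset -/
noncomputable def EG : Finset (Fin k → Fin n) := (HG F m n).filter (fun f => Function.Injective f)

lemma card_EG :
    Nat.card {f : F →g GG m n // Function.Injective f} = (EG F m n).card := by
  have e : {f : F →g GG m n // Function.Injective f} ≃ {f : Fin k → Fin n // f ∈ EG F m n} :=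
    { toFun := fun f => ⟨f.1, by
        simp only [EG, HG, ES, Finset.mem_filter, Finset.mem_univ, true_and]
        exact ⟨fun p hp i => (f.1.map_rel hp.2).2 i, f.2⟩⟩
      invFun := fun f => ⟨⟨f.1, by
        have hf := f.2
        simp only [EG, HG, ES, Finset.mem_filter, Finset.mem_univ, true_and] at hf
        intro a b hab
        rcases lt_or_gt_of_ne hab.ne with h | h
        · exact ⟨fun h' => hab.ne (hf.2 h'), hf.1 (a, b) ⟨h, hab⟩⟩
        · exact ⟨fun h' => hab.ne (hf.2 h'), fun i => (hf.1 (b, a) ⟨h, hab.symm⟩ i).symm⟩⟩, by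
        have hf := f.2
        simp only [EG, HG, ES, Finset.mem_filter, Finset.mem_univ, true_and] at hf
        exact hf.2⟩
      left_inv := fun f => rfl
      right_inv := fun f => rfl }
  rw [Nat.card_congr e]
  simp

lemma EG_le : (EG F m n).card ≤ (HG F m n).card := Finset.card_filter_le _ _

lemma HG_le : (HG F m n).card + n.descFactorial k ≤ (EG F m n).card + n ^ k := by
  have h1 : (HG F m n).card = (EG F m n).card +
      ((HG F m n).filter (fun f => ¬ Function.Injective f)).card :=
    (Finset.card_filter_add_card_filter_not _).symm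
  have h2 : ((HG F m n).filter (fun f => ¬ Function.Injective f)).card ≤
      ((Finset.univ : Finset (Fin k → Fin n)).filter (fun f => ¬ Function.Injective f)).card := by
    apply Finset.card_le_card
    apply Finset.filter_subset_filter
    exact Finset.subset_univ _
  have h3 : ((Finset.univ : Finset (Fin k → Fin n)).filter (fun f => Function.Injective f)).card +
      ((Finset.univ : Finset (Fin k → Fin n)).filter (fun f => ¬ Function.Injective f)).card =
      n ^ k := by
    rw [Finset.card_filter_add_card_filter_not]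
    simp
  have h4 : ((Finset.univ : Finset (Fin k → Fin n)).filter (fun f => Function.Injective f)).card =
      n.descFactorial k := by
    have h5 := Fintype.card_embedding_eq (α := Fin k) (β := Fin n)
    rw [Fintype.card_fin, Fintype.card_fin] at h5
    rw [← h5, ← Fintype.card_subtype]
    exact Fintype.card_congr (Equiv.subtypeInjectiveEquivEmbedding _ _)
  omega

lemma desc_tendsto (k : ℕ) : Tendsto (fun n : ℕ => ((n.descFactorial k : ℕ) : ℝ) / (n : ℝ) ^ k)
    atTop (𝓝 1) := by
  have h := isEquivalent_descFactorial k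
  rw [Asymptotics.isEquivalent_iff_tendsto_one] at h
  · exact h
  · filter_upwards [eventually_gt_atTop 0] with n hn
    have hn' : (0 : ℝ) < n := by exact_mod_cast hn
    exact (pow_pos hn' k).ne'

/-- limit value -/
noncomputable def bb : ℝ :=
  (((X (m + 1) (ES F)).card : ℝ) / (((m : ℝ) + 1) ^ k * ((m : ℝ) / (m + 1)) ^ (ES F).card)) ^ (m ^ 2)

noncomputable def pp (m : ℕ) : ℝ := ((m : ℝ) / (m + 1)) ^ (m ^ 2)

theorem emb_tendsto :
    Tendsto (fun n : ℕ => (Nat.card {f : F →g GG m n // Function.Injective f} : ℝ) /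
      (pp m ^ (ES F).card * (n : ℝ) ^ k)) atTop (𝓝 (bb F m)) := by
  have h1 : Tendsto (fun n : ℕ => ((EG F m n).card : ℝ) / (n : ℝ) ^ k) atTop
      (𝓝 (((HB F m).card : ℝ) / (M m : ℝ) ^ k)) := by
    have hlow : Tendsto (fun n : ℕ => ((HG F m n).card : ℝ) / (n : ℝ) ^ k +
        ((n.descFactorial k : ℕ) : ℝ) / (n : ℝ) ^ k - 1) atTop
        (𝓝 (((HB F m).card : ℝ) / (M m : ℝ) ^ k)) := by
      have := ((HG_tendsto F m).add (desc_tendsto k)).sub_const 1
      simpa using this
    apply tendsto_of_tendsto_of_tendsto_of_le_of_le' hlow (HG_tendsto F m)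
    · filter_upwards [eventually_gt_atTop 0] with n hn
      have hn' : (0 : ℝ) < (n : ℝ) ^ k := by
        have : (0 : ℝ) < n := by exact_mod_cast hn
        positivity
      rw [← add_div, sub_le_iff_le_add, div_add_one hn'.ne']
      apply div_le_div_of_nonneg_right _ hn'.le
      have := HG_le F m n
      exact_mod_cast this
    · filter_upwards with n
      apply div_le_div_of_nonneg_right _ (by positivity)
      exact_mod_cast EG_le F m n
  have h2 := h1.div_const (pp m ^ (ES F).card)
  have h3 : ((HB F m).card : ℝ) / (M m : ℝ) ^ k / pp m ^ (ES F).card = bb F m := by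
    have h4 : ∀ (A c r : ℝ) (q k e : ℕ), A ^ q / (c ^ q) ^ k / (r ^ q) ^ e =
        (A / (c ^ k * r ^ e)) ^ q := by
      intro A c r q k e
      rw [div_pow, mul_pow, div_div, ← pow_mul, ← pow_mul, ← pow_mul, ← pow_mul, mul_comm q k,
        mul_comm q e]
    rw [card_HB, M_eq]
    unfold bb pp
    push_cast
    exact h4 _ _ _ _ _ _
  rw [h3] at h2
  refine h2.congr (fun n => ?_)
  rw [card_EG F m n, div_div, mul_comm ((n : ℝ) ^ k)]

end Pool.Agent.H12KernelB
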