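import Mathlib

set_option autoImplicit false

open MeasureTheory ENNReal

namespace Pool.Agent.H12KernelD

noncomputable abbrev mu : Measure ℝ := (volume : Measure ℝ).restrict (Set.Icc (0 : ℝ) 1)

instance : IsProbabilityMeasure mu := ⟨by simp [mu]⟩

lemma pi_restrict (k : ℕ) : (volume : Measure (Fin k → ℝ)).restrict
    (Set.univ.pi (fun _ : Fin k => Set.Icc (0 : ℝ) 1)) = Measure.pi (fun _ : Fin k => mu) := by
  rw [volume_pi, Measure.restrict_pi_pi]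

lemma lint_succ {k : ℕ} (f : (Fin (k + 1) → ℝ) → ℝ≥0∞) (hf : Measurable f) :
    ∫⁻ x, f x ∂(Measure.pi (fun _ : Fin (k + 1) => mu)) =
      ∫⁻ a, ∫⁻ y, f (Fin.cons a y) ∂(Measure.pi (fun _ : Fin k => mu)) ∂mu := by
  have h := (measurePreserving_piFinSuccAbove (fun _ : Fin (k + 1) => mu) 0).symm
  rw [← h.lintegral_comp hf]
  rw [lintegral_prod _ (by
    apply Measurable.aemeasurable
    exact hf.comp (MeasurableEquiv.measurable _))]
  apply lintegral_congr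
  intro a
  apply lintegral_congr
  intro y
  congr 1
  exact Fin.insertNth_zero' a y

lemma lint_zero (c : ℝ≥0∞) : ∫⁻ _x : Fin 0 → ℝ, c ∂(Measure.pi (fun _ : Fin 0 => mu)) = c := by
  rw [lintegral_const, measure_univ, mul_one]

lemma amgm (a : ℝ≥0∞) : 2 * a ≤ a ^ 2 + 1 := by
  by_cases ha : a = ∞
  · subst ha; simp
  · lift a to NNReal using ha
    norm_cast
    have : (0 : ℝ) ≤ ((a : ℝ) - 1) ^ 2 := sq_nonneg _
    have h : (2 : ℝ) * a ≤ (a : ℝ) ^ 2 + 1 := by nlinarith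
    exact_mod_cast h

lemma amgm_eq (a : ℝ≥0∞) (ha : a ≠ ∞) (h : 2 * a = a ^ 2 + 1) : a = 1 := by
  lift a to NNReal using ha
  norm_cast at h ⊢
  have h' : (2 : ℝ) * a = (a : ℝ) ^ 2 + 1 := by exact_mod_cast h
  have : ((a : ℝ) - 1) ^ 2 = 0 := by nlinarith
  have h2 : (a : ℝ) - 1 = 0 := by
    exact pow_eq_zero_iff (two_ne_zero) |>.1 this
  have h3 : (a : ℝ) = 1 := by linarith
  exact_mod_cast h3

theorem key (K : ℝ → ℝ → ℝ≥0∞) (hK : Measurable (Function.uncurry K)) (hs : ∀ x y, K x y = K y x)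
    (h2 : ∫⁻ x, ∫⁻ y, K x y ∂mu ∂mu = 1)
    (h4 : ∫⁻ x, ∫⁻ y, (∫⁻ z, K x z * K y z ∂mu) ^ 2 ∂mu ∂mu ≤ 1) :
    ∫⁻ x, ∫⁻ y, K x y * (∫⁻ z, K x z * K y z ∂mu) ∂mu ∂mu = 1 := by
  set f : ℝ → ℝ≥0∞ := fun z => ∫⁻ x, K x z ∂mu with hf
  have hfm : Measurable f :=
    Measurable.lintegral_prod_left' (f := Function.uncurry K) hK
  set g : ℝ × ℝ → ℝ≥0∞ := fun q => ∫⁻ z, K q.1 z * K q.2 z ∂mu with hg
  have hm3 : Measurable (fun r : (ℝ × ℝ) × ℝ => K r.1.1 r.2 * K r.1.2 r.2) := by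
    apply Measurable.mul
    · exact hK.comp ((measurable_fst.comp measurable_fst).prodMk measurable_snd)
    · exact hK.comp ((measurable_snd.comp measurable_fst).prodMk measurable_snd)
  have hgm : Measurable g :=
    Measurable.lintegral_prod_right' (f := fun r : (ℝ × ℝ) × ℝ => K r.1.1 r.2 * K r.1.2 r.2) hm3
  have hKm : ∀ x, Measurable (K x) := fun x => hK.comp (measurable_prodMk_left)
  have hKm' : ∀ z, Measurable (fun x => K x z) := fun z => hK.comp (measurable_prodMk_right)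
  -- ∫ g = ∫ f^2
  have hgf : ∫⁻ q, g q ∂(mu.prod mu) = ∫⁻ z, f z ^ 2 ∂mu := by
    rw [lintegral_lintegral_swap (by exact hm3.aemeasurable)]
    apply lintegral_congr
    intro z
    rw [lintegral_prod _ (by
      apply Measurable.aemeasurable
      exact ((hKm' z).comp measurable_fst).mul ((hKm' z).comp measurable_snd))]
    have : ∀ x, ∫⁻ y, K x z * K y z ∂mu = K x z * f z := by
      intro x
      rw [lintegral_const_mul _ (hKm' z)]
    simp only [this]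
    rw [lintegral_mul_const _ (hKm' z), sq]
  have hf1 : ∫⁻ z, f z ∂mu = 1 := by
    rw [← h2]
    rw [lintegral_lintegral_swap (by exact (hK.comp measurable_swap).aemeasurable)]
  have hf2 : 1 ≤ ∫⁻ z, f z ^ 2 ∂mu := by
    have h5 : ∫⁻ z, 2 * f z ∂mu ≤ ∫⁻ z, (f z ^ 2 + 1) ∂mu := lintegral_mono (fun z => amgm _)
    rw [lintegral_const_mul _ hfm, hf1, lintegral_add_right _ measurable_const, lintegral_const,
      measure_univ, mul_one, mul_one] at h5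
    have h6 : (1 : ℝ≥0∞) + 1 ≤ ∫⁻ z, f z ^ 2 ∂mu + 1 := by
      rw [one_add_one_eq_two]; exact h5
    exact (ENNReal.add_le_add_iff_right one_ne_top).1 h6
  have hg2 : ∫⁻ q, g q ^ 2 ∂(mu.prod mu) ≤ 1 := by
    rw [lintegral_prod _ (hgm.pow_const 2).aemeasurable]
    exact h4
  have hg1 : ∫⁻ q, 2 * g q ∂(mu.prod mu) ≤ ∫⁻ q, (g q ^ 2 + 1) ∂(mu.prod mu) :=
    lintegral_mono (fun z => amgm _)
  have hR : ∫⁻ q, (g q ^ 2 + 1) ∂(mu.prod mu) ≤ 2 := by
    rw [lintegral_add_right _ measurable_const, lintegral_const, measure_univ, mul_one]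
    calc _ ≤ (1 : ℝ≥0∞) + 1 := add_le_add hg2 le_rfl
      _ = 2 := one_add_one_eq_two
  have hL : 2 ≤ ∫⁻ q, 2 * g q ∂(mu.prod mu) := by
    rw [lintegral_const_mul _ hgm, hgf]
    calc (2 : ℝ≥0∞) = 2 * 1 := by rw [mul_one]
      _ ≤ 2 * ∫⁻ z, f z ^ 2 ∂mu := by gcongr
  have hne : ∫⁻ q, 2 * g q ∂(mu.prod mu) ≠ ∞ :=
    ne_top_of_le_ne_top (by norm_num : (2 : ℝ≥0∞) ≠ ∞) (hg1.trans hR)
  have hae : (fun q => 2 * g q) =ᵐ[mu.prod mu] (fun q => g q ^ 2 + 1) := by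
    apply ae_eq_of_ae_le_of_lintegral_le (Filter.Eventually.of_forall (fun q => amgm _)) hne
    · exact ((hgm.pow_const 2).add_const 1).aemeasurable
    · exact hR.trans hL
  have hfin : ∀ᵐ q ∂(mu.prod mu), 2 * g q < ∞ :=
    ae_lt_top (hgm.const_mul 2) hne
  have hg_one : ∀ᵐ q ∂(mu.prod mu), g q = 1 := by
    filter_upwards [hae, hfin] with q h1 h2
    apply amgm_eq _ _ h1
    intro h
    rw [h] at h2
    simp at h2
  have h6 : ∫⁻ x, ∫⁻ y, K x y * (∫⁻ z, K x z * K y z ∂mu) ∂mu ∂mu =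
      ∫⁻ q, K q.1 q.2 * g q ∂(mu.prod mu) := by
    rw [lintegral_prod (fun q : ℝ × ℝ => K q.1 q.2 * g q) (by exact (hK.mul hgm).aemeasurable)]
  rw [h6]
  have h7 : ∫⁻ q, K q.1 q.2 * g q ∂(mu.prod mu) = ∫⁻ q, K q.1 q.2 ∂(mu.prod mu) := by
    apply lintegral_congr_ae
    filter_upwards [hg_one] with q hq
    rw [hq, mul_one]
  rw [h7, lintegral_prod (fun q : ℝ × ℝ => K q.1 q.2) (by exact hK.aemeasurable)]
  exact h2

end Pool.Agent.H12KernelD
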