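import Pool.Agent.H12KernelB
import Pool.Agent.H12KernelD

set_option autoImplicit false

open Classical Filter Topology

namespace Pool.Agent.H12KernelC

open Pool.Agent.H12KernelA Pool.Agent.H12KernelB

lemma diag (P : ℕ → ℕ → Prop) (h : ∀ j, ∀ᶠ n in atTop, P j n) :
    ∃ J : ℕ → ℕ, Tendsto J atTop atTop ∧ ∀ᶠ n in atTop, P (J n) n := by
  have h1 : ∀ j, ∃ N, ∀ n ≥ N, P j n := fun j => eventually_atTop.1 (h j)
  choose N hN using h1
  let N' : ℕ → ℕ := fun j => (∑ i ∈ Finset.range (j + 1), N i) + j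
  have hN' : ∀ j, N j ≤ N' j := by
    intro j
    have : N j ≤ ∑ i ∈ Finset.range (j + 1), N i :=
      Finset.single_le_sum (fun _ _ => Nat.zero_le _) (Finset.mem_range.2 (Nat.lt_succ_self j))
    show N j ≤ (∑ i ∈ Finset.range (j + 1), N i) + j
    omega
  refine ⟨fun n => Nat.findGreatest (fun j => N' j ≤ n) n, ?_, ?_⟩
  · rw [tendsto_atTop]
    intro j
    filter_upwards [eventually_ge_atTop (N' j)] with n hn
    have h2 : j ≤ N' j := Nat.le_add_left _ _
    exact Nat.le_findGreatest (P := fun j => N' j ≤ n) (by omega) hn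
  · filter_upwards [eventually_ge_atTop (N' 0)] with n hn
    have hs : N' (Nat.findGreatest (fun j => N' j ≤ n) n) ≤ n :=
      Nat.findGreatest_spec (P := fun j => N' j ≤ n) (Nat.zero_le n) hn
    exact hN _ n (le_trans (hN' _) hs)

lemma ES_card {k : ℕ} (F : SimpleGraph (Fin k)) [DecidableRel F.Adj] :
    F.edgeFinset.card = (ES F).card := by
  symm
  refine Finset.card_bij (fun p _ => s(p.1, p.2)) ?_ ?_ ?_
  · intro p hp
    simp only [ES, Finset.mem_filter, Finset.mem_univ, true_and] at hp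
    simpa using hp.2
  · intro p hp r hr h
    simp only [ES, Finset.mem_filter, Finset.mem_univ, true_and] at hp hr
    rw [Sym2.eq_iff] at h
    rcases h with ⟨h1, h2⟩ | ⟨h1, h2⟩
    · exact Prod.ext h1 h2
    · exfalso
      have := hp.1
      rw [h1, h2] at this
      exact lt_asymm this hr.1
  · intro e he
    induction e using Sym2.ind with
    | _ a b =>
      have hab : F.Adj a b := by simpa using he
      rcases lt_or_gt_of_ne hab.ne with h | h
      · exact ⟨(a, b), by simp [ES, h, hab], rfl⟩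
      · exact ⟨(b, a), by simp [ES, h, hab.symm], Sym2.eq_swap⟩

lemma mem_X {k c : ℕ} (F : SimpleGraph (Fin k)) (φ : Fin k → Fin c) :
    φ ∈ X c (ES F) ↔ ∀ a b, a < b → F.Adj a b → φ a ≠ φ b := by
  simp only [X, ES, Finset.mem_filter, Finset.mem_univ, true_and]
  constructor
  · intro h a b hab hF
    exact h (a, b) ⟨hab, hF⟩
  · intro h p hp
    exact h p.1 p.2 hp.1 hp.2

lemma bb_nonneg {k : ℕ} (F : SimpleGraph (Fin k)) (m : ℕ) : 0 ≤ bb F m := by
  unfold bb; positivity

lemma bb_bdd {k : ℕ} (F : SimpleGraph (Fin k)) : ∃ C : ℝ, ∀ m, bb F m ≤ C := by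
  have h1 : IsBoundedUnder (· ≤ ·) atTop (fun m => bb F m) := by
    refine ⟨Real.exp (((ES F).card : ℝ) ^ 2), ?_⟩
    rw [eventually_map]
    filter_upwards [eventually_ge_atTop (2 * (ES F).card), eventually_ge_atTop 1] with m h1 h2
    exact norm_bound m (ES F) (ES_lt F) h1 h2
  obtain ⟨C, hC⟩ := h1.bddAbove_range
  exact ⟨C, fun m => hC ⟨m, rfl⟩⟩

/-! ### special graphs -/

lemma bb_K2 (m : ℕ) (hm : 1 ≤ m) : bb (⊤ : SimpleGraph (Fin 2)) m = 1 := by
  have hm0 : (0 : ℝ) < m := by exact_mod_cast hm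
  have hc : (X (m + 1) (ES (⊤ : SimpleGraph (Fin 2)))).card = (m + 1) * m := by
    have h1 : X (m + 1) (ES (⊤ : SimpleGraph (Fin 2))) =
        Finset.univ.filter (fun φ : Fin 2 → Fin (m + 1) => Function.Injective φ) := by
      ext φ
      rw [mem_X]
      simp only [Finset.mem_filter, Finset.mem_univ, true_and]
      constructor
      · intro h a b hab
        by_contra hne
        rcases lt_or_gt_of_ne hne with h' | h'
        · exact h a b h' hne hab
        · exact h b a h' (Ne.symm hne) hab.symm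
      · intro h a b hab _ he
        exact hab.ne (h he)
    have h5 := Fintype.card_embedding_eq (α := Fin 2) (β := Fin (m + 1))
    rw [Fintype.card_fin, Fintype.card_fin] at h5
    rw [h1, ← Fintype.card_subtype,
      Fintype.card_congr (Equiv.subtypeInjectiveEquivEmbedding (Fin 2) (Fin (m + 1))), h5]
    simp [Nat.descFactorial]
    ring
  have he : (ES (⊤ : SimpleGraph (Fin 2))).card = 1 := by
    rw [← ES_card]; rfl
  unfold bb
  rw [hc, he]
  push_cast
  have : ((m : ℝ) + 1) * m / (((m : ℝ) + 1) ^ 2 * ((m : ℝ) / (m + 1)) ^ 1) = 1 := by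
    field_simp
  rw [this, one_pow]

lemma bb_K3 (m : ℕ) (hm : 1 ≤ m) : bb (⊤ : SimpleGraph (Fin 3)) m ≤ Real.exp (-1) := by
  have hm0 : (0 : ℝ) < m := by exact_mod_cast hm
  have hm1 : (1 : ℝ) ≤ m := by exact_mod_cast hm
  have hc : (X (m + 1) (ES (⊤ : SimpleGraph (Fin 3)))).card = (m + 1) * (m * (m - 1)) := by
    have h1 : X (m + 1) (ES (⊤ : SimpleGraph (Fin 3))) =
        Finset.univ.filter (fun φ : Fin 3 → Fin (m + 1) => Function.Injective φ) := by
      ext φ
      rw [mem_X]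
      simp only [Finset.mem_filter, Finset.mem_univ, true_and]
      constructor
      · intro h a b hab
        by_contra hne
        rcases lt_or_gt_of_ne hne with h' | h'
        · exact h a b h' hne hab
        · exact h b a h' (Ne.symm hne) hab.symm
      · intro h a b hab _ he
        exact hab.ne (h he)
    have h5 := Fintype.card_embedding_eq (α := Fin 3) (β := Fin (m + 1))
    rw [Fintype.card_fin, Fintype.card_fin] at h5
    rw [h1, ← Fintype.card_subtype,
      Fintype.card_congr (Equiv.subtypeInjectiveEquivEmbedding (Fin 3) (Fin (m + 1))), h5]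
    rw [Nat.succ_descFactorial_succ, show m.descFactorial 2 = (m - 1) * m by
      simp [Nat.descFactorial]]
    ring
  have he : (ES (⊤ : SimpleGraph (Fin 3))).card = 3 := by
    rw [← ES_card]; rfl
  unfold bb
  rw [hc, he]
  have hcast : (((m + 1) * (m * (m - 1)) : ℕ) : ℝ) = ((m : ℝ) + 1) * (m * (m - 1)) := by
    rw [Nat.cast_mul, Nat.cast_mul, Nat.cast_sub hm]
    push_cast
    ring
  rw [hcast]
  have h2 : ((m : ℝ) + 1) * (m * (m - 1)) / (((m : ℝ) + 1) ^ 3 * ((m : ℝ) / (m + 1)) ^ 3) =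
      1 + -(1 / (m : ℝ) ^ 2) := by
    field_simp
    ring
  rw [h2]
  have h3 : 0 ≤ 1 + -(1 / (m : ℝ) ^ 2) := by
    have : 1 / (m : ℝ) ^ 2 ≤ 1 := by
      rw [div_le_one (by positivity)]
      nlinarith
    linarith
  calc (1 + -(1 / (m : ℝ) ^ 2)) ^ (m ^ 2) ≤ (Real.exp (-(1 / (m : ℝ) ^ 2))) ^ (m ^ 2) := by
        apply pow_le_pow_left₀ h3
        rw [add_comm]
        exact Real.add_one_le_exp _
    _ = Real.exp (-1) := by
        rw [← Real.exp_nat_mul]
        congr 1
        push_cast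
        field_simp

/-- the 4-cycle with parts `{0,1}` and `{2,3}` -/
def C4 : SimpleGraph (Fin 4) := SimpleGraph.fromRel (fun a b => a.val < 2 ∧ 2 ≤ b.val)

instance : DecidableRel C4.Adj := fun a b => by
  unfold C4
  rw [SimpleGraph.fromRel_adj]
  infer_instance

lemma mem_X_C4 {c : ℕ} (φ : Fin 4 → Fin c) : φ ∈ X c (ES C4) ↔
    φ 0 ≠ φ 2 ∧ φ 0 ≠ φ 3 ∧ φ 1 ≠ φ 2 ∧ φ 1 ≠ φ 3 := by
  rw [mem_X]
  constructor
  · intro h
    exact ⟨h 0 2 (by decide) (by decide), h 0 3 (by decide) (by decide),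
      h 1 2 (by decide) (by decide), h 1 3 (by decide) (by decide)⟩
  · rintro ⟨h1, h2, h3, h4⟩ a b hab hF
    have key : ∀ a b : Fin 4, a < b → C4.Adj a b →
        (a = 0 ∧ b = 2) ∨ (a = 0 ∧ b = 3) ∨ (a = 1 ∧ b = 2) ∨ (a = 1 ∧ b = 3) := by decide
    rcases key a b hab hF with ⟨rfl, rfl⟩ | ⟨rfl, rfl⟩ | ⟨rfl, rfl⟩ | ⟨rfl, rfl⟩ <;> assumption

lemma card_C4 (m : ℕ) : ((X (m + 1) (ES C4)).card : ℝ) = m * ((m : ℝ) ^ 3 + 1) := by
  have h1 : (X (m + 1) (ES C4)).card = ∑ ab : Fin (m + 1) × Fin (m + 1),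
      ((({ab.1, ab.2} : Finset (Fin (m + 1)))ᶜ).card) ^ 2 := by
    rw [Finset.card_eq_sum_card_fiberwise (f := fun φ : Fin 4 → Fin (m + 1) => (φ 0, φ 1))
      (t := Finset.univ) (by intro x _; exact Finset.mem_coe.2 (Finset.mem_univ _))]
    apply Finset.sum_congr rfl
    rintro ⟨a, b⟩ _
    have h2 : (X (m + 1) (ES C4)).filter (fun φ => (φ 0, φ 1) = (a, b)) =
        Fintype.piFinset (![{a}, {b}, {a, b}ᶜ, {a, b}ᶜ] : Fin 4 → Finset (Fin (m + 1))) := by
      ext φ
      rw [Finset.mem_filter, mem_X_C4, Fintype.mem_piFinset, Prod.mk.injEq]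
      constructor
      · rintro ⟨⟨h1, h2, h3, h4⟩, rfl, rfl⟩ i
        fin_cases i
        · simp
        · simp
        · simp [h1.symm, h3.symm]
        · simp [h2.symm, h4.symm]
      · intro h
        have e0 := h 0
        have e1 := h 1
        have e2 := h 2
        have e3 := h 3
        simp at e0 e1 e2 e3
        rw [e0, e1]
        exact ⟨⟨Ne.symm e2.1, Ne.symm e3.1, Ne.symm e2.2, Ne.symm e3.2⟩, rfl, rfl⟩
    rw [h2, Fintype.card_piFinset, Fin.prod_univ_four]
    simp [sq]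
  have h3 : ∀ a b : Fin (m + 1), (((({a, b} : Finset (Fin (m + 1)))ᶜ).card : ℕ) : ℝ) =
      (m : ℝ) - 1 + (if a = b then 1 else 0) := by
    intro a b
    rw [Finset.card_compl, Fintype.card_fin]
    by_cases hab : a = b
    · subst hab; simp
    · rw [Finset.card_pair hab, if_neg hab]
      have : 2 ≤ m + 1 := by
        have := a.isLt; have := b.isLt
        have : a.val ≠ b.val := fun h => hab (Fin.ext h)
        omega
      rw [Nat.cast_sub this]
      push_cast; ring
  rw [h1, Fintype.sum_prod_type]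
  push_cast
  simp only [h3]
  have h4 : ∀ a : Fin (m + 1), ∑ b : Fin (m + 1), ((m : ℝ) - 1 + (if a = b then 1 else 0)) ^ 2 =
      (m + 1) * ((m : ℝ) - 1) ^ 2 + (2 * ((m : ℝ) - 1) + 1) := by
    intro a
    have : ∀ b : Fin (m + 1), ((m : ℝ) - 1 + (if a = b then 1 else 0)) ^ 2 =
        ((m : ℝ) - 1) ^ 2 + (if a = b then 2 * ((m : ℝ) - 1) + 1 else 0) := by
      intro b; split_ifs <;> ring
    simp only [this, Finset.sum_add_distrib, Finset.sum_const, Finset.card_univ, Fintype.card_fin,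
      nsmul_eq_mul]
    simp
  simp only [h4, Finset.sum_const, Finset.card_univ, Fintype.card_fin, nsmul_eq_mul]
  push_cast
  ring

lemma bb_C4 (m : ℕ) (hm : 1 ≤ m) : bb C4 m ≤ Real.exp (1 / (m : ℝ)) := by
  have hm0 : (0 : ℝ) < m := by exact_mod_cast hm
  have he : (ES C4).card = 4 := by
    rw [← ES_card]; decide
  unfold bb
  rw [card_C4, he]
  have h2 : (m : ℝ) * ((m : ℝ) ^ 3 + 1) / (((m : ℝ) + 1) ^ 4 * ((m : ℝ) / (m + 1)) ^ 4) =
      1 + 1 / (m : ℝ) ^ 3 := by
    field_simp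
  rw [h2]
  calc (1 + 1 / (m : ℝ) ^ 3) ^ (m ^ 2) ≤ (Real.exp (1 / (m : ℝ) ^ 3)) ^ (m ^ 2) := by
        apply pow_le_pow_left₀ (by positivity)
        rw [add_comm]
        exact Real.add_one_le_exp _
    _ = Real.exp (1 / (m : ℝ)) := by
        rw [← Real.exp_nat_mul]
        congr 1
        push_cast
        field_simp

lemma pp_pos (m : ℕ) : 0 < pp m := by
  unfold pp
  rcases Nat.eq_zero_or_pos m with h | h
  · subst h; simp
  · have : (0 : ℝ) < m := by exact_mod_cast h
    positivity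

lemma pp_le (m : ℕ) : pp m ≤ 1 := by
  unfold pp
  apply pow_le_one₀ (by positivity)
  rw [div_le_one (by positivity)]
  linarith

end Pool.Agent.H12KernelC
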