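import Mathlib
set_option autoImplicit false
set_option linter.unusedSimpArgs false
namespace Pool.Agent.H12Shadow

open Set

/-- exposed vertex -/
theorem extreme_of_functional {E : Type*} [AddCommGroup E] [Module ℝ E] {ι : Type*} [Fintype ι]
    (g : ι → E) (l : E →ₗ[ℝ] ℝ) (v : ι) (h : ∀ w, w ≠ v → l (g w) < l (g v)) :
    g v ∈ extremePoints ℝ (convexHull ℝ (range g)) := by
  classical
  have hrep : ∀ p ∈ convexHull ℝ (range g), ∃ w : ι → ℝ, (∀ i, 0 ≤ w i) ∧ ∑ i, w i = 1 ∧
      ∑ i, w i • g i = p := by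
    intro p hp
    rw [convexHull_range_eq_exists_affineCombination] at hp
    obtain ⟨s, w, hw0, hw1, rfl⟩ := hp
    refine ⟨fun i => if i ∈ s then w i else 0, ?_, ?_, ?_⟩
    · intro i
      by_cases hi : i ∈ s
      · simp [hi, hw0 i hi]
      · simp [hi]
    · simpa using hw1
    · rw [Finset.affineCombination_eq_linear_combination _ _ _ hw1]
      simp
  have hle : ∀ p ∈ convexHull ℝ (range g), l p ≤ l (g v) ∧ (l p = l (g v) → p = g v) := by
    intro p hp
    obtain ⟨w, hw0, hw1, rfl⟩ := hrep p hp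
    have hl : l (∑ i, w i • g i) = ∑ i, w i * l (g i) := by
      rw [map_sum]; simp
    have hle' : ∀ i ∈ Finset.univ, w i * l (g i) ≤ w i * l (g v) := by
      intro i _
      by_cases hi : i = v
      · rw [hi]
      · exact mul_le_mul_of_nonneg_left (h i hi).le (hw0 i)
    have hsum : ∑ i, w i * l (g v) = l (g v) := by rw [← Finset.sum_mul, hw1, one_mul]
    refine ⟨by rw [hl, ← hsum]; exact Finset.sum_le_sum hle', ?_⟩
    intro heq
    rw [hl] at heq
    have hz : ∀ i, i ≠ v → w i = 0 := by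
      intro i hi
      by_contra hne
      have hpos : 0 < w i := lt_of_le_of_ne (hw0 i) (Ne.symm hne)
      have : ∑ i, w i * l (g i) < ∑ i, w i * l (g v) :=
        Finset.sum_lt_sum hle' ⟨i, Finset.mem_univ _, mul_lt_mul_of_pos_left (h i hi) hpos⟩
      rw [heq, hsum] at this
      exact lt_irrefl _ this
    have hv1 : w v = 1 := by
      rw [← hw1, Finset.sum_eq_single v (fun i _ hi => hz i hi) (by simp)]
    rw [Finset.sum_eq_single v (fun i _ hi => by rw [hz i hi, zero_smul]) (by simp), hv1, one_smul]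
  refine ⟨subset_convexHull ℝ _ (mem_range_self v), ?_⟩
  intro x1 hx1 x2 hx2 hx
  obtain ⟨a, b, ha, hb, hab, hxe⟩ := hx
  have h1 := hle x1 hx1
  have h2 := hle x2 hx2
  apply h1.2
  have hl : a * l x1 + b * l x2 = l (g v) := by
    rw [← hxe]; simp
  refine le_antisymm h1.1 ?_
  by_contra hlt
  push Not at hlt
  have e1 : a * l x1 < a * l (g v) := mul_lt_mul_of_pos_left hlt ha
  have e2 : b * l x2 ≤ b * l (g v) := mul_le_mul_of_nonneg_left h2.1 hb.le
  have e3 : a * l (g v) + b * l (g v) = l (g v) := by rw [← add_mul, hab, one_mul]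
  linarith

/-- exposed edge -/
theorem edge_of_functional {E : Type*} [AddCommGroup E] [Module ℝ E] {ι : Type*} [Fintype ι]
    (g : ι → E) (l : E →ₗ[ℝ] ℝ) (u v : ι) (huv : u ≠ v) (he : l (g u) = l (g v))
    (h : ∀ w, w ≠ u → w ≠ v → l (g w) < l (g v)) :
    IsExtreme ℝ (convexHull ℝ (range g)) (segment ℝ (g u) (g v)) := by
  classical
  have hrep : ∀ p ∈ convexHull ℝ (range g), ∃ w : ι → ℝ, (∀ i, 0 ≤ w i) ∧ ∑ i, w i = 1 ∧
      ∑ i, w i • g i = p := by
    intro p hp
    rw [convexHull_range_eq_exists_affineCombination] at hp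
    obtain ⟨s, w, hw0, hw1, rfl⟩ := hp
    refine ⟨fun i => if i ∈ s then w i else 0, ?_, ?_, ?_⟩
    · intro i
      by_cases hi : i ∈ s
      · simp [hi, hw0 i hi]
      · simp [hi]
    · simpa using hw1
    · rw [Finset.affineCombination_eq_linear_combination _ _ _ hw1]
      simp
  have hle : ∀ p ∈ convexHull ℝ (range g), l p ≤ l (g v) ∧
      (l p = l (g v) → p ∈ segment ℝ (g u) (g v)) := by
    intro p hp
    obtain ⟨w, hw0, hw1, rfl⟩ := hrep p hp
    have hl : l (∑ i, w i • g i) = ∑ i, w i * l (g i) := by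
      rw [map_sum]; simp
    have hle' : ∀ i ∈ Finset.univ, w i * l (g i) ≤ w i * l (g v) := by
      intro i _
      by_cases hi : i = v
      · rw [hi]
      · by_cases hi' : i = u
        · rw [hi', he]
        · exact mul_le_mul_of_nonneg_left (h i hi' hi).le (hw0 i)
    have hsum : ∑ i, w i * l (g v) = l (g v) := by rw [← Finset.sum_mul, hw1, one_mul]
    refine ⟨by rw [hl, ← hsum]; exact Finset.sum_le_sum hle', ?_⟩
    intro heq
    rw [hl] at heq
    have hz : ∀ i, i ≠ u → i ≠ v → w i = 0 := by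
      intro i hi' hi
      by_contra hne
      have hpos : 0 < w i := lt_of_le_of_ne (hw0 i) (Ne.symm hne)
      have : ∑ i, w i * l (g i) < ∑ i, w i * l (g v) :=
        Finset.sum_lt_sum hle' ⟨i, Finset.mem_univ _, mul_lt_mul_of_pos_left (h i hi' hi) hpos⟩
      rw [heq, hsum] at this
      exact lt_irrefl _ this
    have hs1 : w u + w v = 1 := by
      rw [← hw1, ← Finset.sum_subset (Finset.subset_univ {u, v}), Finset.sum_pair huv]
      intro i _ hi
      simp only [Finset.mem_insert, Finset.mem_singleton, not_or] at hi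
      exact hz i hi.1 hi.2
    have hs2 : ∑ i, w i • g i = w u • g u + w v • g v := by
      rw [← Finset.sum_subset (Finset.subset_univ {u, v}), Finset.sum_pair huv]
      intro i _ hi
      simp only [Finset.mem_insert, Finset.mem_singleton, not_or] at hi
      rw [hz i hi.1 hi.2, zero_smul]
    rw [hs2]
    exact ⟨w u, w v, hw0 u, hw0 v, hs1, rfl⟩
  have hmemu : g u ∈ convexHull ℝ (range g) := subset_convexHull ℝ _ (mem_range_self u)
  have hmemv : g v ∈ convexHull ℝ (range g) := subset_convexHull ℝ _ (mem_range_self v)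
  refine ⟨(convex_convexHull ℝ _).segment_subset hmemu hmemv, ?_⟩
  intro x1 hx1 x2 hx2 z hz hx
  obtain ⟨a, b, ha, hb, hab, hxe⟩ := hx
  have h1 := hle x1 hx1
  have h2 := hle x2 hx2
  apply h1.2
  have hlz : l z = l (g v) := by
    obtain ⟨c, d, hc, hd, hcd, rfl⟩ := hz
    simp only [map_add, map_smul, smul_eq_mul, he]
    rw [← add_mul, hcd, one_mul]
  have hl : a * l x1 + b * l x2 = l (g v) := by
    rw [← hlz, ← hxe]; simp
  refine le_antisymm h1.1 ?_
  by_contra hlt
  push Not at hlt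
  have e1 : a * l x1 < a * l (g v) := mul_lt_mul_of_pos_left hlt ha
  have e2 : b * l x2 ≤ b * l (g v) := mul_le_mul_of_nonneg_left h2.1 hb.le
  have e3 : a * l (g v) + b * l (g v) = l (g v) := by rw [← add_mul, hab, one_mul]
  linarith

theorem funext3 {x y : Fin 3 → ℝ} (h0 : x 0 = y 0) (h1 : x 1 = y 1) (h2 : x 2 = y 2) : x = y := by
  funext i
  fin_cases i
  · exact h0
  · exact h1
  · exact h2

/-- An edge of a convex set cannot be passed weakly above and weakly below. -/
theorem edge_core {P : Set (Fin 3 → ℝ)} {u v k l k' l' p p' x x' : Fin 3 → ℝ}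
    (hE : IsExtreme ℝ P (segment ℝ u v)) (hP : Convex ℝ P)
    (hk : k ∈ P) (hl : l ∈ P) (hk' : k' ∈ P) (hl' : l' ∈ P)
    (hkn : k ∉ segment ℝ u v) (hkn' : k' ∉ segment ℝ u v)
    (hp : p ∈ openSegment ℝ k l) (hp' : p' ∈ openSegment ℝ k' l')
    (hx : x ∈ segment ℝ u v) (hx' : x' ∈ segment ℝ u v)
    (e0 : p 0 = x 0) (e1 : p 1 = x 1) (e0' : p' 0 = x' 0) (e1' : p' 1 = x' 1)
    (h1 : x 2 ≤ p 2) (h2 : p' 2 ≤ x' 2) : False := by
  have key : p ∉ segment ℝ u v := fun h => hkn (hE.left_mem_of_mem_openSegment hk hl h hp)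
  have key' : p' ∉ segment ℝ u v := fun h => hkn' (hE.left_mem_of_mem_openSegment hk' hl' h hp')
  have hpP : p ∈ P := hP.segment_subset hk hl (openSegment_subset_segment _ _ _ hp)
  have hpP' : p' ∈ P := hP.segment_subset hk' hl' (openSegment_subset_segment _ _ _ hp')
  rcases eq_or_lt_of_le h1 with h1 | h1
  · exact key ((funext3 e0 e1 h1.symm) ▸ hx)
  rcases eq_or_lt_of_le h2 with h2 | h2
  · exact key' ((funext3 e0' e1' h2) ▸ hx')
  set α := p 2 - x 2 with hα
  set β := x' 2 - p' 2 with hβ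
  have hα0 : 0 < α := by rw [hα]; linarith
  have hβ0 : 0 < β := by rw [hβ]; linarith
  have hs : 0 < α + β := by linarith
  have hsne : α + β ≠ 0 := hs.ne'
  have ha : 0 < β / (α + β) := div_pos hβ0 hs
  have hb : 0 < α / (α + β) := div_pos hα0 hs
  have hab : β / (α + β) + α / (α + β) = 1 := by
    field_simp; ring
  have hz1 : (β / (α + β)) • p + (α / (α + β)) • p' ∈ openSegment ℝ p p' :=
    ⟨_, _, ha, hb, hab, rfl⟩
  have hz2 : (β / (α + β)) • x + (α / (α + β)) • x' ∈ segment ℝ u v :=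
    (convex_segment u v) hx hx' ha.le hb.le hab
  have heq : (β / (α + β)) • p + (α / (α + β)) • p' = (β / (α + β)) • x + (α / (α + β)) • x' := by
    refine funext3 ?_ ?_ ?_
    · simp [e0, e0']
    · simp [e1, e1']
    · simp only [Pi.add_apply, Pi.smul_apply, smul_eq_mul]
      have hp2 : p 2 = x 2 + α := by rw [hα]; ring
      have hp2' : p' 2 = x' 2 - β := by rw [hβ]; ring
      rw [hp2, hp2']
      field_simp
      ring
  rw [← heq] at hz2
  exact key (hE.left_mem_of_mem_openSegment hpP hpP' hz2 hz1)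

/-- the edge `u v` passes above all crossing chords -/
def Up (X h : Fin 7 → ℝ) (u v : Fin 7) : Prop :=
  ∀ (k l : Fin 7), k ≠ u → k ≠ v → ∀ p q r s : ℝ, 0 < p → 0 < q → 0 < r → 0 < s →
    p + q = r + s → p * X u + q * X v = r * X k + s * X l →
    p * (X u)^2 + q * (X v)^2 = r * (X k)^2 + s * (X l)^2 →
    r * h k + s * h l < p * h u + q * h v

/-- the edge `u v` passes below all crossing chords -/
def Dn (X h : Fin 7 → ℝ) (u v : Fin 7) : Prop :=
  ∀ (k l : Fin 7), k ≠ u → k ≠ v → ∀ p q r s : ℝ, 0 < p → 0 < q → 0 < r → 0 < s →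
    p + q = r + s → p * X u + q * X v = r * X k + s * X l →
    p * (X u)^2 + q * (X v)^2 = r * (X k)^2 + s * (X l)^2 →
    p * h u + q * h v < r * h k + s * h l

theorem up_or_dn {P : Set (Fin 3 → ℝ)} (hP : Convex ℝ P) (F : Fin 7 → Fin 3 → ℝ)
    (X h : Fin 7 → ℝ) (h0 : ∀ j, F j 0 = X j) (h1 : ∀ j, F j 1 = (X j)^2) (h2 : ∀ j, F j 2 = h j)
    (hinj : Function.Injective F) (hext : ∀ j, F j ∈ extremePoints ℝ P) (u v : Fin 7)
    (hE : IsExtreme ℝ P (segment ℝ (F u) (F v))) : Up X h u v ∨ Dn X h u v := by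
  have hmem : ∀ j, F j ∈ P := fun j => (hext j).1
  have hnot : ∀ k, k ≠ u → k ≠ v → F k ∉ segment ℝ (F u) (F v) := by
    intro k hku hkv hk
    have := (mem_extremePoints_iff_forall_segment.1 (hext k)).2 (F u) (hmem u) (F v) (hmem v) hk
    rcases this with h | h
    · exact hku (hinj h.symm)
    · exact hkv (hinj h.symm)
  by_contra hcon
  rw [not_or] at hcon
  obtain ⟨hU, hD⟩ := hcon
  unfold Up at hU
  unfold Dn at hD
  push Not at hU hD
  obtain ⟨k, l, hku, hkv, p, q, r, s, hp, hq, hr, hs, e0, e1, e2, hle⟩ := hU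
  obtain ⟨k', l', hku', hkv', p', q', r', s', hp', hq', hr', hs', e0', e1', e2', hle'⟩ := hD
  have hΛ : 0 < p + q := by linarith
  have hΛ' : 0 < p' + q' := by linarith
  have hd : ∀ a b : ℝ, 0 < a → 0 < b → a / (a + b) + b / (a + b) = 1 := by
    intro a b ha hb
    have : a + b ≠ 0 := by linarith
    field_simp
  refine edge_core (u := F u) (v := F v) (k := F k) (l := F l) (k' := F k') (l' := F l')
    (p := (r / (r + s)) • F k + (s / (r + s)) • F l)
    (p' := (r' / (r' + s')) • F k' + (s' / (r' + s')) • F l')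
    (x := (p / (p + q)) • F u + (q / (p + q)) • F v)
    (x' := (p' / (p' + q')) • F u + (q' / (p' + q')) • F v)
    hE hP (hmem k) (hmem l) (hmem k') (hmem l') (hnot k hku hkv) (hnot k' hku' hkv')
    ⟨_, _, div_pos hr (by linarith), div_pos hs (by linarith), hd r s hr hs, rfl⟩
    ⟨_, _, div_pos hr' (by linarith), div_pos hs' (by linarith), hd r' s' hr' hs', rfl⟩
    ⟨_, _, (div_pos hp (by linarith)).le, (div_pos hq (by linarith)).le, hd p q hp hq, rfl⟩
    ⟨_, _, (div_pos hp' (by linarith)).le, (div_pos hq' (by linarith)).le, hd p' q' hp' hq', rfl⟩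
    ?_ ?_ ?_ ?_ ?_ ?_
  · simp only [Pi.add_apply, Pi.smul_apply, smul_eq_mul, h0]
    rw [← e0]
    have : p + q ≠ 0 := hΛ.ne'
    field_simp
    linarith
  · simp only [Pi.add_apply, Pi.smul_apply, smul_eq_mul, h1]
    rw [← e0]
    have : p + q ≠ 0 := hΛ.ne'
    field_simp
    linarith
  · simp only [Pi.add_apply, Pi.smul_apply, smul_eq_mul, h0]
    rw [← e0']
    have : p' + q' ≠ 0 := hΛ'.ne'
    field_simp
    linarith
  · simp only [Pi.add_apply, Pi.smul_apply, smul_eq_mul, h1]
    rw [← e0']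
    have : p' + q' ≠ 0 := hΛ'.ne'
    field_simp
    linarith
  · simp only [Pi.add_apply, Pi.smul_apply, smul_eq_mul, h2]
    rw [← e0]
    have : p + q ≠ 0 := hΛ.ne'
    have e : ∀ a b : ℝ, a / (p + q) * b = (a * b) / (p + q) := fun a b => by ring
    rw [e, e, e, e, ← add_div, ← add_div]
    exact div_le_div_of_nonneg_right hle hΛ.le
  · simp only [Pi.add_apply, Pi.smul_apply, smul_eq_mul, h2]
    rw [← e0']
    have : p' + q' ≠ 0 := hΛ'.ne'
    have e : ∀ a b : ℝ, a / (p' + q') * b = (a * b) / (p' + q') := fun a b => by ring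
    rw [e, e, e, e, ← add_div, ← add_div]
    exact div_le_div_of_nonneg_right hle' hΛ'.le

def W (X h : Fin 7 → ℝ) (i j k l : Fin 7) : ℝ :=
  (X k - X j) * (X l - X j) * (X l - X k) * h i - (X k - X i) * (X l - X i) * (X l - X k) * h j
  + (X j - X i) * (X l - X i) * (X l - X j) * h k - (X j - X i) * (X k - X i) * (X k - X j) * h l

theorem up13 {X h : Fin 7 → ℝ} {i j k l : Fin 7} (hu : Up X h i k) (h1 : X i < X j)
    (h2 : X j < X k) (h3 : X k < X l) : 0 < W X h i j k l := by
  have a1 := sub_pos.2 h1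
  have a2 := sub_pos.2 h2
  have a3 := sub_pos.2 h3
  have a4 : 0 < X k - X i := by linarith
  have a5 : 0 < X l - X i := by linarith
  have a6 : 0 < X l - X j := by linarith
  have := hu j l (by rintro rfl; linarith) (by rintro rfl; linarith)
    ((X k - X j) * (X l - X j) * (X l - X k)) ((X j - X i) * (X l - X i) * (X l - X j))
    ((X k - X i) * (X l - X i) * (X l - X k)) ((X j - X i) * (X k - X i) * (X k - X j))
    (by positivity) (by positivity) (by positivity) (by positivity) (by ring) (by ring) (by ring)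
  unfold W
  linarith

theorem dn13 {X h : Fin 7 → ℝ} {i j k l : Fin 7} (hu : Dn X h i k) (h1 : X i < X j)
    (h2 : X j < X k) (h3 : X k < X l) : W X h i j k l < 0 := by
  have a1 := sub_pos.2 h1
  have a2 := sub_pos.2 h2
  have a3 := sub_pos.2 h3
  have a4 : 0 < X k - X i := by linarith
  have a5 : 0 < X l - X i := by linarith
  have a6 : 0 < X l - X j := by linarith
  have := hu j l (by rintro rfl; linarith) (by rintro rfl; linarith)
    ((X k - X j) * (X l - X j) * (X l - X k)) ((X j - X i) * (X l - X i) * (X l - X j))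
    ((X k - X i) * (X l - X i) * (X l - X k)) ((X j - X i) * (X k - X i) * (X k - X j))
    (by positivity) (by positivity) (by positivity) (by positivity) (by ring) (by ring) (by ring)
  unfold W
  linarith

theorem up24 {X h : Fin 7 → ℝ} {i j k l : Fin 7} (hu : Up X h j l) (h1 : X i < X j)
    (h2 : X j < X k) (h3 : X k < X l) : W X h i j k l < 0 := by
  have a1 := sub_pos.2 h1
  have a2 := sub_pos.2 h2
  have a3 := sub_pos.2 h3
  have a4 : 0 < X k - X i := by linarith
  have a5 : 0 < X l - X i := by linarith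
  have a6 : 0 < X l - X j := by linarith
  have := hu i k (by rintro rfl; linarith) (by rintro rfl; linarith)
    ((X k - X i) * (X l - X i) * (X l - X k)) ((X j - X i) * (X k - X i) * (X k - X j))
    ((X k - X j) * (X l - X j) * (X l - X k)) ((X j - X i) * (X l - X i) * (X l - X j))
    (by positivity) (by positivity) (by positivity) (by positivity) (by ring) (by ring) (by ring)
  unfold W
  linarith

theorem dn24 {X h : Fin 7 → ℝ} {i j k l : Fin 7} (hu : Dn X h j l) (h1 : X i < X j)
    (h2 : X j < X k) (h3 : X k < X l) : 0 < W X h i j k l := by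
  have a1 := sub_pos.2 h1
  have a2 := sub_pos.2 h2
  have a3 := sub_pos.2 h3
  have a4 : 0 < X k - X i := by linarith
  have a5 : 0 < X l - X i := by linarith
  have a6 : 0 < X l - X j := by linarith
  have := hu i k (by rintro rfl; linarith) (by rintro rfl; linarith)
    ((X k - X i) * (X l - X i) * (X l - X k)) ((X j - X i) * (X k - X i) * (X k - X j))
    ((X k - X j) * (X l - X j) * (X l - X k)) ((X j - X i) * (X l - X i) * (X l - X j))
    (by positivity) (by positivity) (by positivity) (by positivity) (by ring) (by ring) (by ring)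
  unfold W
  linarith


/-- the abscissas of the heptagon -/
def X : Fin 7 → ℝ := ![0,1,2,3,4,6,7]

@[simp] theorem X0 : X 0 = 0 := rfl
@[simp] theorem X1 : X 1 = 1 := rfl
@[simp] theorem X2 : X 2 = 2 := rfl
@[simp] theorem X3 : X 3 = 3 := rfl
@[simp] theorem X4 : X 4 = 4 := rfl
@[simp] theorem X5 : X 5 = 6 := rfl
@[simp] theorem X6 : X 6 = 7 := rfl

theorem no_real_0 (h : Fin 7 → ℝ)
    (e03 : Up X h 0 3 ∨ Dn X h 0 3)
    (e04 : Up X h 0 4 ∨ Dn X h 0 4)
    (e13 : Up X h 1 3 ∨ Dn X h 1 3)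
    (e46 : Up X h 4 6 ∨ Dn X h 4 6)
    (e02 : Up X h 0 2 ∨ Dn X h 0 2)
    (e26 : Up X h 2 6 ∨ Dn X h 2 6)
    (e35 : Up X h 3 5 ∨ Dn X h 3 5)
    (e36 : Up X h 3 6 ∨ Dn X h 3 6)
    : False := by
  rcases e26 with h26 | h26
  · have h03 : Dn X h 0 3 := by
      rcases e03 with H | H
      · exact absurd (up24 (i:=0) (j:=2) (k:=3) (l:=6) h26 (by norm_num) (by norm_num) (by norm_num)) (not_lt.2 (le_of_lt (up13 (i:=0) (j:=2) (k:=3) (l:=6) H (by norm_num) (by norm_num) (by norm_num))))
      · exact H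
    have h04 : Dn X h 0 4 := by
      rcases e04 with H | H
      · exact absurd (up24 (i:=0) (j:=2) (k:=4) (l:=6) h26 (by norm_num) (by norm_num) (by norm_num)) (not_lt.2 (le_of_lt (up13 (i:=0) (j:=2) (k:=4) (l:=6) H (by norm_num) (by norm_num) (by norm_num))))
      · exact H
    have h13 : Dn X h 1 3 := by
      rcases e13 with H | H
      · exact absurd (up24 (i:=1) (j:=2) (k:=3) (l:=6) h26 (by norm_num) (by norm_num) (by norm_num)) (not_lt.2 (le_of_lt (up13 (i:=1) (j:=2) (k:=3) (l:=6) H (by norm_num) (by norm_num) (by norm_num))))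
      · exact H
    have h35 : Up X h 3 5 := by
      rcases e35 with H | H
      · exact H
      · exact absurd (dn13 (i:=0) (j:=3) (k:=4) (l:=5) h04 (by norm_num) (by norm_num) (by norm_num)) (not_lt.2 (le_of_lt (dn24 (i:=0) (j:=3) (k:=4) (l:=5) H (by norm_num) (by norm_num) (by norm_num))))
    have h36 : Up X h 3 6 := by
      rcases e36 with H | H
      · exact H
      · exact absurd (dn13 (i:=0) (j:=3) (k:=4) (l:=6) h04 (by norm_num) (by norm_num) (by norm_num)) (not_lt.2 (le_of_lt (dn24 (i:=0) (j:=3) (k:=4) (l:=6) H (by norm_num) (by norm_num) (by norm_num))))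
    have h02 : Up X h 0 2 := by
      rcases e02 with H | H
      · exact H
      · exact absurd (dn24 (i:=0) (j:=1) (k:=2) (l:=3) h13 (by norm_num) (by norm_num) (by norm_num)) (not_lt.2 (le_of_lt (dn13 (i:=0) (j:=1) (k:=2) (l:=3) H (by norm_num) (by norm_num) (by norm_num))))
    have h46 : Dn X h 4 6 := by
      rcases e46 with H | H
      · exact absurd (up13 (i:=3) (j:=4) (k:=5) (l:=6) h35 (by norm_num) (by norm_num) (by norm_num)) (not_lt.2 (le_of_lt (up24 (i:=3) (j:=4) (k:=5) (l:=6) H (by norm_num) (by norm_num) (by norm_num))))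
      · exact H
    have w0 := dn13 (i:=0) (j:=1) (k:=3) (l:=4) h03 (by norm_num) (by norm_num) (by norm_num)
    have w1 := dn13 (i:=0) (j:=3) (k:=4) (l:=6) h04 (by norm_num) (by norm_num) (by norm_num)
    have w2 := dn24 (i:=0) (j:=1) (k:=2) (l:=3) h13 (by norm_num) (by norm_num) (by norm_num)
    have w3 := dn24 (i:=0) (j:=4) (k:=5) (l:=6) h46 (by norm_num) (by norm_num) (by norm_num)
    have w4 := up13 (i:=0) (j:=1) (k:=2) (l:=6) h02 (by norm_num) (by norm_num) (by norm_num)
    have w5 := up24 (i:=0) (j:=2) (k:=3) (l:=6) h26 (by norm_num) (by norm_num) (by norm_num)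
    have w6 := up13 (i:=3) (j:=4) (k:=5) (l:=6) h35 (by norm_num) (by norm_num) (by norm_num)
    have w7 := up24 (i:=2) (j:=3) (k:=5) (l:=6) h36 (by norm_num) (by norm_num) (by norm_num)
    simp only [W, X0, X1, X2, X3, X4, X5, X6] at w0 w1 w2 w3 w4 w5 w6 w7
    linarith
  · have h03 : Up X h 0 3 := by
      rcases e03 with H | H
      · exact H
      · exact absurd (dn24 (i:=0) (j:=2) (k:=3) (l:=6) h26 (by norm_num) (by norm_num) (by norm_num)) (not_lt.2 (le_of_lt (dn13 (i:=0) (j:=2) (k:=3) (l:=6) H (by norm_num) (by norm_num) (by norm_num))))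
    have h04 : Up X h 0 4 := by
      rcases e04 with H | H
      · exact H
      · exact absurd (dn24 (i:=0) (j:=2) (k:=4) (l:=6) h26 (by norm_num) (by norm_num) (by norm_num)) (not_lt.2 (le_of_lt (dn13 (i:=0) (j:=2) (k:=4) (l:=6) H (by norm_num) (by norm_num) (by norm_num))))
    have h13 : Up X h 1 3 := by
      rcases e13 with H | H
      · exact H
      · exact absurd (dn24 (i:=1) (j:=2) (k:=3) (l:=6) h26 (by norm_num) (by norm_num) (by norm_num)) (not_lt.2 (le_of_lt (dn13 (i:=1) (j:=2) (k:=3) (l:=6) H (by norm_num) (by norm_num) (by norm_num))))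
    have h35 : Dn X h 3 5 := by
      rcases e35 with H | H
      · exact absurd (up13 (i:=0) (j:=3) (k:=4) (l:=5) h04 (by norm_num) (by norm_num) (by norm_num)) (not_lt.2 (le_of_lt (up24 (i:=0) (j:=3) (k:=4) (l:=5) H (by norm_num) (by norm_num) (by norm_num))))
      · exact H
    have h36 : Dn X h 3 6 := by
      rcases e36 with H | H
      · exact absurd (up13 (i:=0) (j:=3) (k:=4) (l:=6) h04 (by norm_num) (by norm_num) (by norm_num)) (not_lt.2 (le_of_lt (up24 (i:=0) (j:=3) (k:=4) (l:=6) H (by norm_num) (by norm_num) (by norm_num))))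
      · exact H
    have h02 : Dn X h 0 2 := by
      rcases e02 with H | H
      · exact absurd (up24 (i:=0) (j:=1) (k:=2) (l:=3) h13 (by norm_num) (by norm_num) (by norm_num)) (not_lt.2 (le_of_lt (up13 (i:=0) (j:=1) (k:=2) (l:=3) H (by norm_num) (by norm_num) (by norm_num))))
      · exact H
    have h46 : Up X h 4 6 := by
      rcases e46 with H | H
      · exact H
      · exact absurd (dn13 (i:=3) (j:=4) (k:=5) (l:=6) h35 (by norm_num) (by norm_num) (by norm_num)) (not_lt.2 (le_of_lt (dn24 (i:=3) (j:=4) (k:=5) (l:=6) H (by norm_num) (by norm_num) (by norm_num))))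
    have w0 := up13 (i:=0) (j:=1) (k:=3) (l:=4) h03 (by norm_num) (by norm_num) (by norm_num)
    have w1 := up13 (i:=0) (j:=3) (k:=4) (l:=6) h04 (by norm_num) (by norm_num) (by norm_num)
    have w2 := up24 (i:=0) (j:=1) (k:=2) (l:=3) h13 (by norm_num) (by norm_num) (by norm_num)
    have w3 := up24 (i:=0) (j:=4) (k:=5) (l:=6) h46 (by norm_num) (by norm_num) (by norm_num)
    have w4 := dn13 (i:=0) (j:=1) (k:=2) (l:=6) h02 (by norm_num) (by norm_num) (by norm_num)
    have w5 := dn24 (i:=0) (j:=2) (k:=3) (l:=6) h26 (by norm_num) (by norm_num) (by norm_num)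
    have w6 := dn13 (i:=3) (j:=4) (k:=5) (l:=6) h35 (by norm_num) (by norm_num) (by norm_num)
    have w7 := dn24 (i:=2) (j:=3) (k:=5) (l:=6) h36 (by norm_num) (by norm_num) (by norm_num)
    simp only [W, X0, X1, X2, X3, X4, X5, X6] at w0 w1 w2 w3 w4 w5 w6 w7
    linarith

theorem no_real_1 (h : Fin 7 → ℝ)
    (e14 : Up X h 1 4 ∨ Dn X h 1 4)
    (e15 : Up X h 1 5 ∨ Dn X h 1 5)
    (e24 : Up X h 2 4 ∨ Dn X h 2 4)
    (e05 : Up X h 0 5 ∨ Dn X h 0 5)
    (e13 : Up X h 1 3 ∨ Dn X h 1 3)
    (e03 : Up X h 0 3 ∨ Dn X h 0 3)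
    (e46 : Up X h 4 6 ∨ Dn X h 4 6)
    (e04 : Up X h 0 4 ∨ Dn X h 0 4)
    : False := by
  rcases e03 with h03 | h03
  · have h14 : Dn X h 1 4 := by
      rcases e14 with H | H
      · exact absurd (up13 (i:=0) (j:=1) (k:=3) (l:=4) h03 (by norm_num) (by norm_num) (by norm_num)) (not_lt.2 (le_of_lt (up24 (i:=0) (j:=1) (k:=3) (l:=4) H (by norm_num) (by norm_num) (by norm_num))))
      · exact H
    have h15 : Dn X h 1 5 := by
      rcases e15 with H | H
      · exact absurd (up13 (i:=0) (j:=1) (k:=3) (l:=5) h03 (by norm_num) (by norm_num) (by norm_num)) (not_lt.2 (le_of_lt (up24 (i:=0) (j:=1) (k:=3) (l:=5) H (by norm_num) (by norm_num) (by norm_num))))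
      · exact H
    have h24 : Dn X h 2 4 := by
      rcases e24 with H | H
      · exact absurd (up13 (i:=0) (j:=2) (k:=3) (l:=4) h03 (by norm_num) (by norm_num) (by norm_num)) (not_lt.2 (le_of_lt (up24 (i:=0) (j:=2) (k:=3) (l:=4) H (by norm_num) (by norm_num) (by norm_num))))
      · exact H
    have h46 : Up X h 4 6 := by
      rcases e46 with H | H
      · exact H
      · exact absurd (dn13 (i:=1) (j:=4) (k:=5) (l:=6) h15 (by norm_num) (by norm_num) (by norm_num)) (not_lt.2 (le_of_lt (dn24 (i:=1) (j:=4) (k:=5) (l:=6) H (by norm_num) (by norm_num) (by norm_num))))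
    have h04 : Up X h 0 4 := by
      rcases e04 with H | H
      · exact H
      · exact absurd (dn24 (i:=0) (j:=1) (k:=4) (l:=5) h15 (by norm_num) (by norm_num) (by norm_num)) (not_lt.2 (le_of_lt (dn13 (i:=0) (j:=1) (k:=4) (l:=5) H (by norm_num) (by norm_num) (by norm_num))))
    have h13 : Up X h 1 3 := by
      rcases e13 with H | H
      · exact H
      · exact absurd (dn24 (i:=1) (j:=2) (k:=3) (l:=4) h24 (by norm_num) (by norm_num) (by norm_num)) (not_lt.2 (le_of_lt (dn13 (i:=1) (j:=2) (k:=3) (l:=4) H (by norm_num) (by norm_num) (by norm_num))))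
    have h05 : Dn X h 0 5 := by
      rcases e05 with H | H
      · exact absurd (up24 (i:=0) (j:=4) (k:=5) (l:=6) h46 (by norm_num) (by norm_num) (by norm_num)) (not_lt.2 (le_of_lt (up13 (i:=0) (j:=4) (k:=5) (l:=6) H (by norm_num) (by norm_num) (by norm_num))))
      · exact H
    have w0 := dn13 (i:=1) (j:=2) (k:=4) (l:=5) h14 (by norm_num) (by norm_num) (by norm_num)
    have w1 := dn24 (i:=0) (j:=1) (k:=4) (l:=5) h15 (by norm_num) (by norm_num) (by norm_num)
    have w2 := dn24 (i:=1) (j:=2) (k:=3) (l:=4) h24 (by norm_num) (by norm_num) (by norm_num)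
    have w3 := dn13 (i:=0) (j:=1) (k:=5) (l:=6) h05 (by norm_num) (by norm_num) (by norm_num)
    have w4 := up24 (i:=0) (j:=1) (k:=2) (l:=3) h13 (by norm_num) (by norm_num) (by norm_num)
    have w5 := up13 (i:=0) (j:=1) (k:=3) (l:=4) h03 (by norm_num) (by norm_num) (by norm_num)
    have w6 := up24 (i:=0) (j:=4) (k:=5) (l:=6) h46 (by norm_num) (by norm_num) (by norm_num)
    have w7 := up13 (i:=0) (j:=3) (k:=4) (l:=6) h04 (by norm_num) (by norm_num) (by norm_num)
    simp only [W, X0, X1, X2, X3, X4, X5, X6] at w0 w1 w2 w3 w4 w5 w6 w7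
    linarith
  · have h14 : Up X h 1 4 := by
      rcases e14 with H | H
      · exact H
      · exact absurd (dn13 (i:=0) (j:=1) (k:=3) (l:=4) h03 (by norm_num) (by norm_num) (by norm_num)) (not_lt.2 (le_of_lt (dn24 (i:=0) (j:=1) (k:=3) (l:=4) H (by norm_num) (by norm_num) (by norm_num))))
    have h15 : Up X h 1 5 := by
      rcases e15 with H | H
      · exact H
      · exact absurd (dn13 (i:=0) (j:=1) (k:=3) (l:=5) h03 (by norm_num) (by norm_num) (by norm_num)) (not_lt.2 (le_of_lt (dn24 (i:=0) (j:=1) (k:=3) (l:=5) H (by norm_num) (by norm_num) (by norm_num))))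
    have h24 : Up X h 2 4 := by
      rcases e24 with H | H
      · exact H
      · exact absurd (dn13 (i:=0) (j:=2) (k:=3) (l:=4) h03 (by norm_num) (by norm_num) (by norm_num)) (not_lt.2 (le_of_lt (dn24 (i:=0) (j:=2) (k:=3) (l:=4) H (by norm_num) (by norm_num) (by norm_num))))
    have h46 : Dn X h 4 6 := by
      rcases e46 with H | H
      · exact absurd (up13 (i:=1) (j:=4) (k:=5) (l:=6) h15 (by norm_num) (by norm_num) (by norm_num)) (not_lt.2 (le_of_lt (up24 (i:=1) (j:=4) (k:=5) (l:=6) H (by norm_num) (by norm_num) (by norm_num))))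
      · exact H
    have h04 : Dn X h 0 4 := by
      rcases e04 with H | H
      · exact absurd (up24 (i:=0) (j:=1) (k:=4) (l:=5) h15 (by norm_num) (by norm_num) (by norm_num)) (not_lt.2 (le_of_lt (up13 (i:=0) (j:=1) (k:=4) (l:=5) H (by norm_num) (by norm_num) (by norm_num))))
      · exact H
    have h13 : Dn X h 1 3 := by
      rcases e13 with H | H
      · exact absurd (up24 (i:=1) (j:=2) (k:=3) (l:=4) h24 (by norm_num) (by norm_num) (by norm_num)) (not_lt.2 (le_of_lt (up13 (i:=1) (j:=2) (k:=3) (l:=4) H (by norm_num) (by norm_num) (by norm_num))))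
      · exact H
    have h05 : Up X h 0 5 := by
      rcases e05 with H | H
      · exact H
      · exact absurd (dn24 (i:=0) (j:=4) (k:=5) (l:=6) h46 (by norm_num) (by norm_num) (by norm_num)) (not_lt.2 (le_of_lt (dn13 (i:=0) (j:=4) (k:=5) (l:=6) H (by norm_num) (by norm_num) (by norm_num))))
    have w0 := up13 (i:=1) (j:=2) (k:=4) (l:=5) h14 (by norm_num) (by norm_num) (by norm_num)
    have w1 := up24 (i:=0) (j:=1) (k:=4) (l:=5) h15 (by norm_num) (by norm_num) (by norm_num)
    have w2 := up24 (i:=1) (j:=2) (k:=3) (l:=4) h24 (by norm_num) (by norm_num) (by norm_num)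
    have w3 := up13 (i:=0) (j:=1) (k:=5) (l:=6) h05 (by norm_num) (by norm_num) (by norm_num)
    have w4 := dn24 (i:=0) (j:=1) (k:=2) (l:=3) h13 (by norm_num) (by norm_num) (by norm_num)
    have w5 := dn13 (i:=0) (j:=1) (k:=3) (l:=4) h03 (by norm_num) (by norm_num) (by norm_num)
    have w6 := dn24 (i:=0) (j:=4) (k:=5) (l:=6) h46 (by norm_num) (by norm_num) (by norm_num)
    have w7 := dn13 (i:=0) (j:=3) (k:=4) (l:=6) h04 (by norm_num) (by norm_num) (by norm_num)
    simp only [W, X0, X1, X2, X3, X4, X5, X6] at w0 w1 w2 w3 w4 w5 w6 w7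
    linarith

theorem no_real_2 (h : Fin 7 → ℝ)
    (e25 : Up X h 2 5 ∨ Dn X h 2 5)
    (e26 : Up X h 2 6 ∨ Dn X h 2 6)
    (e35 : Up X h 3 5 ∨ Dn X h 3 5)
    (e16 : Up X h 1 6 ∨ Dn X h 1 6)
    (e24 : Up X h 2 4 ∨ Dn X h 2 4)
    (e14 : Up X h 1 4 ∨ Dn X h 1 4)
    (e05 : Up X h 0 5 ∨ Dn X h 0 5)
    (e15 : Up X h 1 5 ∨ Dn X h 1 5)
    : False := by
  rcases e14 with h14 | h14
  · have h25 : Dn X h 2 5 := by
      rcases e25 with H | H
      · exact absurd (up13 (i:=1) (j:=2) (k:=4) (l:=5) h14 (by norm_num) (by norm_num) (by norm_num)) (not_lt.2 (le_of_lt (up24 (i:=1) (j:=2) (k:=4) (l:=5) H (by norm_num) (by norm_num) (by norm_num))))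
      · exact H
    have h26 : Dn X h 2 6 := by
      rcases e26 with H | H
      · exact absurd (up13 (i:=1) (j:=2) (k:=4) (l:=6) h14 (by norm_num) (by norm_num) (by norm_num)) (not_lt.2 (le_of_lt (up24 (i:=1) (j:=2) (k:=4) (l:=6) H (by norm_num) (by norm_num) (by norm_num))))
      · exact H
    have h35 : Dn X h 3 5 := by
      rcases e35 with H | H
      · exact absurd (up13 (i:=1) (j:=3) (k:=4) (l:=5) h14 (by norm_num) (by norm_num) (by norm_num)) (not_lt.2 (le_of_lt (up24 (i:=1) (j:=3) (k:=4) (l:=5) H (by norm_num) (by norm_num) (by norm_num))))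
      · exact H
    have h05 : Up X h 0 5 := by
      rcases e05 with H | H
      · exact H
      · exact absurd (dn24 (i:=0) (j:=2) (k:=5) (l:=6) h26 (by norm_num) (by norm_num) (by norm_num)) (not_lt.2 (le_of_lt (dn13 (i:=0) (j:=2) (k:=5) (l:=6) H (by norm_num) (by norm_num) (by norm_num))))
    have h15 : Up X h 1 5 := by
      rcases e15 with H | H
      · exact H
      · exact absurd (dn24 (i:=1) (j:=2) (k:=5) (l:=6) h26 (by norm_num) (by norm_num) (by norm_num)) (not_lt.2 (le_of_lt (dn13 (i:=1) (j:=2) (k:=5) (l:=6) H (by norm_num) (by norm_num) (by norm_num))))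
    have h24 : Up X h 2 4 := by
      rcases e24 with H | H
      · exact H
      · exact absurd (dn24 (i:=2) (j:=3) (k:=4) (l:=5) h35 (by norm_num) (by norm_num) (by norm_num)) (not_lt.2 (le_of_lt (dn13 (i:=2) (j:=3) (k:=4) (l:=5) H (by norm_num) (by norm_num) (by norm_num))))
    have h16 : Dn X h 1 6 := by
      rcases e16 with H | H
      · exact absurd (up13 (i:=0) (j:=1) (k:=5) (l:=6) h05 (by norm_num) (by norm_num) (by norm_num)) (not_lt.2 (le_of_lt (up24 (i:=0) (j:=1) (k:=5) (l:=6) H (by norm_num) (by norm_num) (by norm_num))))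
      · exact H
    have w0 := dn13 (i:=2) (j:=3) (k:=5) (l:=6) h25 (by norm_num) (by norm_num) (by norm_num)
    have w1 := dn24 (i:=1) (j:=2) (k:=5) (l:=6) h26 (by norm_num) (by norm_num) (by norm_num)
    have w2 := dn24 (i:=2) (j:=3) (k:=4) (l:=5) h35 (by norm_num) (by norm_num) (by norm_num)
    have w3 := dn24 (i:=0) (j:=1) (k:=2) (l:=6) h16 (by norm_num) (by norm_num) (by norm_num)
    have w4 := up24 (i:=1) (j:=2) (k:=3) (l:=4) h24 (by norm_num) (by norm_num) (by norm_num)
    have w5 := up13 (i:=1) (j:=2) (k:=4) (l:=5) h14 (by norm_num) (by norm_num) (by norm_num)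
    have w6 := up13 (i:=0) (j:=1) (k:=5) (l:=6) h05 (by norm_num) (by norm_num) (by norm_num)
    have w7 := up24 (i:=0) (j:=1) (k:=4) (l:=5) h15 (by norm_num) (by norm_num) (by norm_num)
    simp only [W, X0, X1, X2, X3, X4, X5, X6] at w0 w1 w2 w3 w4 w5 w6 w7
    linarith
  · have h25 : Up X h 2 5 := by
      rcases e25 with H | H
      · exact H
      · exact absurd (dn13 (i:=1) (j:=2) (k:=4) (l:=5) h14 (by norm_num) (by norm_num) (by norm_num)) (not_lt.2 (le_of_lt (dn24 (i:=1) (j:=2) (k:=4) (l:=5) H (by norm_num) (by norm_num) (by norm_num))))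
    have h26 : Up X h 2 6 := by
      rcases e26 with H | H
      · exact H
      · exact absurd (dn13 (i:=1) (j:=2) (k:=4) (l:=6) h14 (by norm_num) (by norm_num) (by norm_num)) (not_lt.2 (le_of_lt (dn24 (i:=1) (j:=2) (k:=4) (l:=6) H (by norm_num) (by norm_num) (by norm_num))))
    have h35 : Up X h 3 5 := by
      rcases e35 with H | H
      · exact H
      · exact absurd (dn13 (i:=1) (j:=3) (k:=4) (l:=5) h14 (by norm_num) (by norm_num) (by norm_num)) (not_lt.2 (le_of_lt (dn24 (i:=1) (j:=3) (k:=4) (l:=5) H (by norm_num) (by norm_num) (by norm_num))))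
    have h05 : Dn X h 0 5 := by
      rcases e05 with H | H
      · exact absurd (up24 (i:=0) (j:=2) (k:=5) (l:=6) h26 (by norm_num) (by norm_num) (by norm_num)) (not_lt.2 (le_of_lt (up13 (i:=0) (j:=2) (k:=5) (l:=6) H (by norm_num) (by norm_num) (by norm_num))))
      · exact H
    have h15 : Dn X h 1 5 := by
      rcases e15 with H | H
      · exact absurd (up24 (i:=1) (j:=2) (k:=5) (l:=6) h26 (by norm_num) (by norm_num) (by norm_num)) (not_lt.2 (le_of_lt (up13 (i:=1) (j:=2) (k:=5) (l:=6) H (by norm_num) (by norm_num) (by norm_num))))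
      · exact H
    have h24 : Dn X h 2 4 := by
      rcases e24 with H | H
      · exact absurd (up24 (i:=2) (j:=3) (k:=4) (l:=5) h35 (by norm_num) (by norm_num) (by norm_num)) (not_lt.2 (le_of_lt (up13 (i:=2) (j:=3) (k:=4) (l:=5) H (by norm_num) (by norm_num) (by norm_num))))
      · exact H
    have h16 : Up X h 1 6 := by
      rcases e16 with H | H
      · exact H
      · exact absurd (dn13 (i:=0) (j:=1) (k:=5) (l:=6) h05 (by norm_num) (by norm_num) (by norm_num)) (not_lt.2 (le_of_lt (dn24 (i:=0) (j:=1) (k:=5) (l:=6) H (by norm_num) (by norm_num) (by norm_num))))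
    have w0 := up13 (i:=2) (j:=3) (k:=5) (l:=6) h25 (by norm_num) (by norm_num) (by norm_num)
    have w1 := up24 (i:=1) (j:=2) (k:=5) (l:=6) h26 (by norm_num) (by norm_num) (by norm_num)
    have w2 := up24 (i:=2) (j:=3) (k:=4) (l:=5) h35 (by norm_num) (by norm_num) (by norm_num)
    have w3 := up24 (i:=0) (j:=1) (k:=2) (l:=6) h16 (by norm_num) (by norm_num) (by norm_num)
    have w4 := dn24 (i:=1) (j:=2) (k:=3) (l:=4) h24 (by norm_num) (by norm_num) (by norm_num)
    have w5 := dn13 (i:=1) (j:=2) (k:=4) (l:=5) h14 (by norm_num) (by norm_num) (by norm_num)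
    have w6 := dn13 (i:=0) (j:=1) (k:=5) (l:=6) h05 (by norm_num) (by norm_num) (by norm_num)
    have w7 := dn24 (i:=0) (j:=1) (k:=4) (l:=5) h15 (by norm_num) (by norm_num) (by norm_num)
    simp only [W, X0, X1, X2, X3, X4, X5, X6] at w0 w1 w2 w3 w4 w5 w6 w7
    linarith

theorem no_real_3 (h : Fin 7 → ℝ)
    (e36 : Up X h 3 6 ∨ Dn X h 3 6)
    (e03 : Up X h 0 3 ∨ Dn X h 0 3)
    (e46 : Up X h 4 6 ∨ Dn X h 4 6)
    (e02 : Up X h 0 2 ∨ Dn X h 0 2)
    (e35 : Up X h 3 5 ∨ Dn X h 3 5)
    (e25 : Up X h 2 5 ∨ Dn X h 2 5)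
    (e16 : Up X h 1 6 ∨ Dn X h 1 6)
    (e26 : Up X h 2 6 ∨ Dn X h 2 6)
    : False := by
  rcases e25 with h25 | h25
  · have h36 : Dn X h 3 6 := by
      rcases e36 with H | H
      · exact absurd (up13 (i:=2) (j:=3) (k:=5) (l:=6) h25 (by norm_num) (by norm_num) (by norm_num)) (not_lt.2 (le_of_lt (up24 (i:=2) (j:=3) (k:=5) (l:=6) H (by norm_num) (by norm_num) (by norm_num))))
      · exact H
    have h03 : Dn X h 0 3 := by
      rcases e03 with H | H
      · exact absurd (up24 (i:=0) (j:=2) (k:=3) (l:=5) h25 (by norm_num) (by norm_num) (by norm_num)) (not_lt.2 (le_of_lt (up13 (i:=0) (j:=2) (k:=3) (l:=5) H (by norm_num) (by norm_num) (by norm_num))))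
      · exact H
    have h46 : Dn X h 4 6 := by
      rcases e46 with H | H
      · exact absurd (up13 (i:=2) (j:=4) (k:=5) (l:=6) h25 (by norm_num) (by norm_num) (by norm_num)) (not_lt.2 (le_of_lt (up24 (i:=2) (j:=4) (k:=5) (l:=6) H (by norm_num) (by norm_num) (by norm_num))))
      · exact H
    have h16 : Up X h 1 6 := by
      rcases e16 with H | H
      · exact H
      · exact absurd (dn13 (i:=0) (j:=1) (k:=3) (l:=6) h03 (by norm_num) (by norm_num) (by norm_num)) (not_lt.2 (le_of_lt (dn24 (i:=0) (j:=1) (k:=3) (l:=6) H (by norm_num) (by norm_num) (by norm_num))))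
    have h26 : Up X h 2 6 := by
      rcases e26 with H | H
      · exact H
      · exact absurd (dn13 (i:=0) (j:=2) (k:=3) (l:=6) h03 (by norm_num) (by norm_num) (by norm_num)) (not_lt.2 (le_of_lt (dn24 (i:=0) (j:=2) (k:=3) (l:=6) H (by norm_num) (by norm_num) (by norm_num))))
    have h35 : Up X h 3 5 := by
      rcases e35 with H | H
      · exact H
      · exact absurd (dn24 (i:=3) (j:=4) (k:=5) (l:=6) h46 (by norm_num) (by norm_num) (by norm_num)) (not_lt.2 (le_of_lt (dn13 (i:=3) (j:=4) (k:=5) (l:=6) H (by norm_num) (by norm_num) (by norm_num))))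
    have h02 : Dn X h 0 2 := by
      rcases e02 with H | H
      · exact absurd (up24 (i:=0) (j:=1) (k:=2) (l:=6) h16 (by norm_num) (by norm_num) (by norm_num)) (not_lt.2 (le_of_lt (up13 (i:=0) (j:=1) (k:=2) (l:=6) H (by norm_num) (by norm_num) (by norm_num))))
      · exact H
    have w0 := dn24 (i:=0) (j:=3) (k:=4) (l:=6) h36 (by norm_num) (by norm_num) (by norm_num)
    have w1 := dn13 (i:=0) (j:=2) (k:=3) (l:=6) h03 (by norm_num) (by norm_num) (by norm_num)
    have w2 := dn24 (i:=3) (j:=4) (k:=5) (l:=6) h46 (by norm_num) (by norm_num) (by norm_num)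
    have w3 := dn13 (i:=0) (j:=1) (k:=2) (l:=3) h02 (by norm_num) (by norm_num) (by norm_num)
    have w4 := up24 (i:=2) (j:=3) (k:=4) (l:=5) h35 (by norm_num) (by norm_num) (by norm_num)
    have w5 := up13 (i:=2) (j:=3) (k:=5) (l:=6) h25 (by norm_num) (by norm_num) (by norm_num)
    have w6 := up24 (i:=0) (j:=1) (k:=2) (l:=6) h16 (by norm_num) (by norm_num) (by norm_num)
    have w7 := up24 (i:=1) (j:=2) (k:=5) (l:=6) h26 (by norm_num) (by norm_num) (by norm_num)
    simp only [W, X0, X1, X2, X3, X4, X5, X6] at w0 w1 w2 w3 w4 w5 w6 w7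
    linarith
  · have h36 : Up X h 3 6 := by
      rcases e36 with H | H
      · exact H
      · exact absurd (dn13 (i:=2) (j:=3) (k:=5) (l:=6) h25 (by norm_num) (by norm_num) (by norm_num)) (not_lt.2 (le_of_lt (dn24 (i:=2) (j:=3) (k:=5) (l:=6) H (by norm_num) (by norm_num) (by norm_num))))
    have h03 : Up X h 0 3 := by
      rcases e03 with H | H
      · exact H
      · exact absurd (dn24 (i:=0) (j:=2) (k:=3) (l:=5) h25 (by norm_num) (by norm_num) (by norm_num)) (not_lt.2 (le_of_lt (dn13 (i:=0) (j:=2) (k:=3) (l:=5) H (by norm_num) (by norm_num) (by norm_num))))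
    have h46 : Up X h 4 6 := by
      rcases e46 with H | H
      · exact H
      · exact absurd (dn13 (i:=2) (j:=4) (k:=5) (l:=6) h25 (by norm_num) (by norm_num) (by norm_num)) (not_lt.2 (le_of_lt (dn24 (i:=2) (j:=4) (k:=5) (l:=6) H (by norm_num) (by norm_num) (by norm_num))))
    have h16 : Dn X h 1 6 := by
      rcases e16 with H | H
      · exact absurd (up13 (i:=0) (j:=1) (k:=3) (l:=6) h03 (by norm_num) (by norm_num) (by norm_num)) (not_lt.2 (le_of_lt (up24 (i:=0) (j:=1) (k:=3) (l:=6) H (by norm_num) (by norm_num) (by norm_num))))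
      · exact H
    have h26 : Dn X h 2 6 := by
      rcases e26 with H | H
      · exact absurd (up13 (i:=0) (j:=2) (k:=3) (l:=6) h03 (by norm_num) (by norm_num) (by norm_num)) (not_lt.2 (le_of_lt (up24 (i:=0) (j:=2) (k:=3) (l:=6) H (by norm_num) (by norm_num) (by norm_num))))
      · exact H
    have h35 : Dn X h 3 5 := by
      rcases e35 with H | H
      · exact absurd (up24 (i:=3) (j:=4) (k:=5) (l:=6) h46 (by norm_num) (by norm_num) (by norm_num)) (not_lt.2 (le_of_lt (up13 (i:=3) (j:=4) (k:=5) (l:=6) H (by norm_num) (by norm_num) (by norm_num))))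
      · exact H
    have h02 : Up X h 0 2 := by
      rcases e02 with H | H
      · exact H
      · exact absurd (dn24 (i:=0) (j:=1) (k:=2) (l:=6) h16 (by norm_num) (by norm_num) (by norm_num)) (not_lt.2 (le_of_lt (dn13 (i:=0) (j:=1) (k:=2) (l:=6) H (by norm_num) (by norm_num) (by norm_num))))
    have w0 := up24 (i:=0) (j:=3) (k:=4) (l:=6) h36 (by norm_num) (by norm_num) (by norm_num)
    have w1 := up13 (i:=0) (j:=2) (k:=3) (l:=6) h03 (by norm_num) (by norm_num) (by norm_num)
    have w2 := up24 (i:=3) (j:=4) (k:=5) (l:=6) h46 (by norm_num) (by norm_num) (by norm_num)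
    have w3 := up13 (i:=0) (j:=1) (k:=2) (l:=3) h02 (by norm_num) (by norm_num) (by norm_num)
    have w4 := dn24 (i:=2) (j:=3) (k:=4) (l:=5) h35 (by norm_num) (by norm_num) (by norm_num)
    have w5 := dn13 (i:=2) (j:=3) (k:=5) (l:=6) h25 (by norm_num) (by norm_num) (by norm_num)
    have w6 := dn24 (i:=0) (j:=1) (k:=2) (l:=6) h16 (by norm_num) (by norm_num) (by norm_num)
    have w7 := dn24 (i:=1) (j:=2) (k:=5) (l:=6) h26 (by norm_num) (by norm_num) (by norm_num)
    simp only [W, X0, X1, X2, X3, X4, X5, X6] at w0 w1 w2 w3 w4 w5 w6 w7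
    linarith

theorem no_real_4 (h : Fin 7 → ℝ)
    (e04 : Up X h 0 4 ∨ Dn X h 0 4)
    (e14 : Up X h 1 4 ∨ Dn X h 1 4)
    (e05 : Up X h 0 5 ∨ Dn X h 0 5)
    (e13 : Up X h 1 3 ∨ Dn X h 1 3)
    (e46 : Up X h 4 6 ∨ Dn X h 4 6)
    (e36 : Up X h 3 6 ∨ Dn X h 3 6)
    (e02 : Up X h 0 2 ∨ Dn X h 0 2)
    (e03 : Up X h 0 3 ∨ Dn X h 0 3)
    : False := by
  rcases e36 with h36 | h36
  · have h04 : Dn X h 0 4 := by
      rcases e04 with H | H
      · exact absurd (up24 (i:=0) (j:=3) (k:=4) (l:=6) h36 (by norm_num) (by norm_num) (by norm_num)) (not_lt.2 (le_of_lt (up13 (i:=0) (j:=3) (k:=4) (l:=6) H (by norm_num) (by norm_num) (by norm_num))))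
      · exact H
    have h14 : Dn X h 1 4 := by
      rcases e14 with H | H
      · exact absurd (up24 (i:=1) (j:=3) (k:=4) (l:=6) h36 (by norm_num) (by norm_num) (by norm_num)) (not_lt.2 (le_of_lt (up13 (i:=1) (j:=3) (k:=4) (l:=6) H (by norm_num) (by norm_num) (by norm_num))))
      · exact H
    have h05 : Dn X h 0 5 := by
      rcases e05 with H | H
      · exact absurd (up24 (i:=0) (j:=3) (k:=5) (l:=6) h36 (by norm_num) (by norm_num) (by norm_num)) (not_lt.2 (le_of_lt (up13 (i:=0) (j:=3) (k:=5) (l:=6) H (by norm_num) (by norm_num) (by norm_num))))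
      · exact H
    have h02 : Up X h 0 2 := by
      rcases e02 with H | H
      · exact H
      · exact absurd (dn24 (i:=0) (j:=1) (k:=2) (l:=4) h14 (by norm_num) (by norm_num) (by norm_num)) (not_lt.2 (le_of_lt (dn13 (i:=0) (j:=1) (k:=2) (l:=4) H (by norm_num) (by norm_num) (by norm_num))))
    have h03 : Up X h 0 3 := by
      rcases e03 with H | H
      · exact H
      · exact absurd (dn24 (i:=0) (j:=1) (k:=3) (l:=4) h14 (by norm_num) (by norm_num) (by norm_num)) (not_lt.2 (le_of_lt (dn13 (i:=0) (j:=1) (k:=3) (l:=4) H (by norm_num) (by norm_num) (by norm_num))))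
    have h46 : Up X h 4 6 := by
      rcases e46 with H | H
      · exact H
      · exact absurd (dn13 (i:=0) (j:=4) (k:=5) (l:=6) h05 (by norm_num) (by norm_num) (by norm_num)) (not_lt.2 (le_of_lt (dn24 (i:=0) (j:=4) (k:=5) (l:=6) H (by norm_num) (by norm_num) (by norm_num))))
    have h13 : Dn X h 1 3 := by
      rcases e13 with H | H
      · exact absurd (up13 (i:=0) (j:=1) (k:=2) (l:=3) h02 (by norm_num) (by norm_num) (by norm_num)) (not_lt.2 (le_of_lt (up24 (i:=0) (j:=1) (k:=2) (l:=3) H (by norm_num) (by norm_num) (by norm_num))))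
      · exact H
    have w0 := dn13 (i:=0) (j:=1) (k:=4) (l:=5) h04 (by norm_num) (by norm_num) (by norm_num)
    have w1 := dn24 (i:=0) (j:=1) (k:=3) (l:=4) h14 (by norm_num) (by norm_num) (by norm_num)
    have w2 := dn13 (i:=0) (j:=4) (k:=5) (l:=6) h05 (by norm_num) (by norm_num) (by norm_num)
    have w3 := dn13 (i:=1) (j:=2) (k:=3) (l:=4) h13 (by norm_num) (by norm_num) (by norm_num)
    have w4 := up24 (i:=3) (j:=4) (k:=5) (l:=6) h46 (by norm_num) (by norm_num) (by norm_num)
    have w5 := up24 (i:=0) (j:=3) (k:=4) (l:=6) h36 (by norm_num) (by norm_num) (by norm_num)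
    have w6 := up13 (i:=0) (j:=1) (k:=2) (l:=3) h02 (by norm_num) (by norm_num) (by norm_num)
    have w7 := up13 (i:=0) (j:=2) (k:=3) (l:=6) h03 (by norm_num) (by norm_num) (by norm_num)
    simp only [W, X0, X1, X2, X3, X4, X5, X6] at w0 w1 w2 w3 w4 w5 w6 w7
    linarith
  · have h04 : Up X h 0 4 := by
      rcases e04 with H | H
      · exact H
      · exact absurd (dn24 (i:=0) (j:=3) (k:=4) (l:=6) h36 (by norm_num) (by norm_num) (by norm_num)) (not_lt.2 (le_of_lt (dn13 (i:=0) (j:=3) (k:=4) (l:=6) H (by norm_num) (by norm_num) (by norm_num))))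
    have h14 : Up X h 1 4 := by
      rcases e14 with H | H
      · exact H
      · exact absurd (dn24 (i:=1) (j:=3) (k:=4) (l:=6) h36 (by norm_num) (by norm_num) (by norm_num)) (not_lt.2 (le_of_lt (dn13 (i:=1) (j:=3) (k:=4) (l:=6) H (by norm_num) (by norm_num) (by norm_num))))
    have h05 : Up X h 0 5 := by
      rcases e05 with H | H
      · exact H
      · exact absurd (dn24 (i:=0) (j:=3) (k:=5) (l:=6) h36 (by norm_num) (by norm_num) (by norm_num)) (not_lt.2 (le_of_lt (dn13 (i:=0) (j:=3) (k:=5) (l:=6) H (by norm_num) (by norm_num) (by norm_num))))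
    have h02 : Dn X h 0 2 := by
      rcases e02 with H | H
      · exact absurd (up24 (i:=0) (j:=1) (k:=2) (l:=4) h14 (by norm_num) (by norm_num) (by norm_num)) (not_lt.2 (le_of_lt (up13 (i:=0) (j:=1) (k:=2) (l:=4) H (by norm_num) (by norm_num) (by norm_num))))
      · exact H
    have h03 : Dn X h 0 3 := by
      rcases e03 with H | H
      · exact absurd (up24 (i:=0) (j:=1) (k:=3) (l:=4) h14 (by norm_num) (by norm_num) (by norm_num)) (not_lt.2 (le_of_lt (up13 (i:=0) (j:=1) (k:=3) (l:=4) H (by norm_num) (by norm_num) (by norm_num))))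
      · exact H
    have h46 : Dn X h 4 6 := by
      rcases e46 with H | H
      · exact absurd (up13 (i:=0) (j:=4) (k:=5) (l:=6) h05 (by norm_num) (by norm_num) (by norm_num)) (not_lt.2 (le_of_lt (up24 (i:=0) (j:=4) (k:=5) (l:=6) H (by norm_num) (by norm_num) (by norm_num))))
      · exact H
    have h13 : Up X h 1 3 := by
      rcases e13 with H | H
      · exact H
      · exact absurd (dn13 (i:=0) (j:=1) (k:=2) (l:=3) h02 (by norm_num) (by norm_num) (by norm_num)) (not_lt.2 (le_of_lt (dn24 (i:=0) (j:=1) (k:=2) (l:=3) H (by norm_num) (by norm_num) (by norm_num))))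
    have w0 := up13 (i:=0) (j:=1) (k:=4) (l:=5) h04 (by norm_num) (by norm_num) (by norm_num)
    have w1 := up24 (i:=0) (j:=1) (k:=3) (l:=4) h14 (by norm_num) (by norm_num) (by norm_num)
    have w2 := up13 (i:=0) (j:=4) (k:=5) (l:=6) h05 (by norm_num) (by norm_num) (by norm_num)
    have w3 := up13 (i:=1) (j:=2) (k:=3) (l:=4) h13 (by norm_num) (by norm_num) (by norm_num)
    have w4 := dn24 (i:=3) (j:=4) (k:=5) (l:=6) h46 (by norm_num) (by norm_num) (by norm_num)
    have w5 := dn24 (i:=0) (j:=3) (k:=4) (l:=6) h36 (by norm_num) (by norm_num) (by norm_num)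
    have w6 := dn13 (i:=0) (j:=1) (k:=2) (l:=3) h02 (by norm_num) (by norm_num) (by norm_num)
    have w7 := dn13 (i:=0) (j:=2) (k:=3) (l:=6) h03 (by norm_num) (by norm_num) (by norm_num)
    simp only [W, X0, X1, X2, X3, X4, X5, X6] at w0 w1 w2 w3 w4 w5 w6 w7
    linarith

theorem no_real_5 (h : Fin 7 → ℝ)
    (e15 : Up X h 1 5 ∨ Dn X h 1 5)
    (e25 : Up X h 2 5 ∨ Dn X h 2 5)
    (e16 : Up X h 1 6 ∨ Dn X h 1 6)
    (e24 : Up X h 2 4 ∨ Dn X h 2 4)
    (e05 : Up X h 0 5 ∨ Dn X h 0 5)
    (e04 : Up X h 0 4 ∨ Dn X h 0 4)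
    (e13 : Up X h 1 3 ∨ Dn X h 1 3)
    (e14 : Up X h 1 4 ∨ Dn X h 1 4)
    : False := by
  rcases e04 with h04 | h04
  · have h15 : Dn X h 1 5 := by
      rcases e15 with H | H
      · exact absurd (up13 (i:=0) (j:=1) (k:=4) (l:=5) h04 (by norm_num) (by norm_num) (by norm_num)) (not_lt.2 (le_of_lt (up24 (i:=0) (j:=1) (k:=4) (l:=5) H (by norm_num) (by norm_num) (by norm_num))))
      · exact H
    have h25 : Dn X h 2 5 := by
      rcases e25 with H | H
      · exact absurd (up13 (i:=0) (j:=2) (k:=4) (l:=5) h04 (by norm_num) (by norm_num) (by norm_num)) (not_lt.2 (le_of_lt (up24 (i:=0) (j:=2) (k:=4) (l:=5) H (by norm_num) (by norm_num) (by norm_num))))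
      · exact H
    have h16 : Dn X h 1 6 := by
      rcases e16 with H | H
      · exact absurd (up13 (i:=0) (j:=1) (k:=4) (l:=6) h04 (by norm_num) (by norm_num) (by norm_num)) (not_lt.2 (le_of_lt (up24 (i:=0) (j:=1) (k:=4) (l:=6) H (by norm_num) (by norm_num) (by norm_num))))
      · exact H
    have h13 : Up X h 1 3 := by
      rcases e13 with H | H
      · exact H
      · exact absurd (dn24 (i:=1) (j:=2) (k:=3) (l:=5) h25 (by norm_num) (by norm_num) (by norm_num)) (not_lt.2 (le_of_lt (dn13 (i:=1) (j:=2) (k:=3) (l:=5) H (by norm_num) (by norm_num) (by norm_num))))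
    have h14 : Up X h 1 4 := by
      rcases e14 with H | H
      · exact H
      · exact absurd (dn24 (i:=1) (j:=2) (k:=4) (l:=5) h25 (by norm_num) (by norm_num) (by norm_num)) (not_lt.2 (le_of_lt (dn13 (i:=1) (j:=2) (k:=4) (l:=5) H (by norm_num) (by norm_num) (by norm_num))))
    have h05 : Up X h 0 5 := by
      rcases e05 with H | H
      · exact H
      · exact absurd (dn24 (i:=0) (j:=1) (k:=5) (l:=6) h16 (by norm_num) (by norm_num) (by norm_num)) (not_lt.2 (le_of_lt (dn13 (i:=0) (j:=1) (k:=5) (l:=6) H (by norm_num) (by norm_num) (by norm_num))))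
    have h24 : Dn X h 2 4 := by
      rcases e24 with H | H
      · exact absurd (up13 (i:=1) (j:=2) (k:=3) (l:=4) h13 (by norm_num) (by norm_num) (by norm_num)) (not_lt.2 (le_of_lt (up24 (i:=1) (j:=2) (k:=3) (l:=4) H (by norm_num) (by norm_num) (by norm_num))))
      · exact H
    have w0 := dn13 (i:=1) (j:=2) (k:=5) (l:=6) h15 (by norm_num) (by norm_num) (by norm_num)
    have w1 := dn24 (i:=1) (j:=2) (k:=4) (l:=5) h25 (by norm_num) (by norm_num) (by norm_num)
    have w2 := dn24 (i:=0) (j:=1) (k:=5) (l:=6) h16 (by norm_num) (by norm_num) (by norm_num)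
    have w3 := dn13 (i:=2) (j:=3) (k:=4) (l:=5) h24 (by norm_num) (by norm_num) (by norm_num)
    have w4 := up13 (i:=0) (j:=4) (k:=5) (l:=6) h05 (by norm_num) (by norm_num) (by norm_num)
    have w5 := up13 (i:=0) (j:=1) (k:=4) (l:=5) h04 (by norm_num) (by norm_num) (by norm_num)
    have w6 := up13 (i:=1) (j:=2) (k:=3) (l:=4) h13 (by norm_num) (by norm_num) (by norm_num)
    have w7 := up24 (i:=0) (j:=1) (k:=3) (l:=4) h14 (by norm_num) (by norm_num) (by norm_num)
    simp only [W, X0, X1, X2, X3, X4, X5, X6] at w0 w1 w2 w3 w4 w5 w6 w7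
    linarith
  · have h15 : Up X h 1 5 := by
      rcases e15 with H | H
      · exact H
      · exact absurd (dn13 (i:=0) (j:=1) (k:=4) (l:=5) h04 (by norm_num) (by norm_num) (by norm_num)) (not_lt.2 (le_of_lt (dn24 (i:=0) (j:=1) (k:=4) (l:=5) H (by norm_num) (by norm_num) (by norm_num))))
    have h25 : Up X h 2 5 := by
      rcases e25 with H | H
      · exact H
      · exact absurd (dn13 (i:=0) (j:=2) (k:=4) (l:=5) h04 (by norm_num) (by norm_num) (by norm_num)) (not_lt.2 (le_of_lt (dn24 (i:=0) (j:=2) (k:=4) (l:=5) H (by norm_num) (by norm_num) (by norm_num))))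
    have h16 : Up X h 1 6 := by
      rcases e16 with H | H
      · exact H
      · exact absurd (dn13 (i:=0) (j:=1) (k:=4) (l:=6) h04 (by norm_num) (by norm_num) (by norm_num)) (not_lt.2 (le_of_lt (dn24 (i:=0) (j:=1) (k:=4) (l:=6) H (by norm_num) (by norm_num) (by norm_num))))
    have h13 : Dn X h 1 3 := by
      rcases e13 with H | H
      · exact absurd (up24 (i:=1) (j:=2) (k:=3) (l:=5) h25 (by norm_num) (by norm_num) (by norm_num)) (not_lt.2 (le_of_lt (up13 (i:=1) (j:=2) (k:=3) (l:=5) H (by norm_num) (by norm_num) (by norm_num))))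
      · exact H
    have h14 : Dn X h 1 4 := by
      rcases e14 with H | H
      · exact absurd (up24 (i:=1) (j:=2) (k:=4) (l:=5) h25 (by norm_num) (by norm_num) (by norm_num)) (not_lt.2 (le_of_lt (up13 (i:=1) (j:=2) (k:=4) (l:=5) H (by norm_num) (by norm_num) (by norm_num))))
      · exact H
    have h05 : Dn X h 0 5 := by
      rcases e05 with H | H
      · exact absurd (up24 (i:=0) (j:=1) (k:=5) (l:=6) h16 (by norm_num) (by norm_num) (by norm_num)) (not_lt.2 (le_of_lt (up13 (i:=0) (j:=1) (k:=5) (l:=6) H (by norm_num) (by norm_num) (by norm_num))))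
      · exact H
    have h24 : Up X h 2 4 := by
      rcases e24 with H | H
      · exact H
      · exact absurd (dn13 (i:=1) (j:=2) (k:=3) (l:=4) h13 (by norm_num) (by norm_num) (by norm_num)) (not_lt.2 (le_of_lt (dn24 (i:=1) (j:=2) (k:=3) (l:=4) H (by norm_num) (by norm_num) (by norm_num))))
    have w0 := up13 (i:=1) (j:=2) (k:=5) (l:=6) h15 (by norm_num) (by norm_num) (by norm_num)
    have w1 := up24 (i:=1) (j:=2) (k:=4) (l:=5) h25 (by norm_num) (by norm_num) (by norm_num)
    have w2 := up24 (i:=0) (j:=1) (k:=5) (l:=6) h16 (by norm_num) (by norm_num) (by norm_num)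
    have w3 := up13 (i:=2) (j:=3) (k:=4) (l:=5) h24 (by norm_num) (by norm_num) (by norm_num)
    have w4 := dn13 (i:=0) (j:=4) (k:=5) (l:=6) h05 (by norm_num) (by norm_num) (by norm_num)
    have w5 := dn13 (i:=0) (j:=1) (k:=4) (l:=5) h04 (by norm_num) (by norm_num) (by norm_num)
    have w6 := dn13 (i:=1) (j:=2) (k:=3) (l:=4) h13 (by norm_num) (by norm_num) (by norm_num)
    have w7 := dn24 (i:=0) (j:=1) (k:=3) (l:=4) h14 (by norm_num) (by norm_num) (by norm_num)
    simp only [W, X0, X1, X2, X3, X4, X5, X6] at w0 w1 w2 w3 w4 w5 w6 w7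
    linarith

theorem no_real_6 (h : Fin 7 → ℝ)
    (e26 : Up X h 2 6 ∨ Dn X h 2 6)
    (e36 : Up X h 3 6 ∨ Dn X h 3 6)
    (e02 : Up X h 0 2 ∨ Dn X h 0 2)
    (e35 : Up X h 3 5 ∨ Dn X h 3 5)
    (e16 : Up X h 1 6 ∨ Dn X h 1 6)
    (e15 : Up X h 1 5 ∨ Dn X h 1 5)
    (e24 : Up X h 2 4 ∨ Dn X h 2 4)
    (e25 : Up X h 2 5 ∨ Dn X h 2 5)
    : False := by
  rcases e15 with h15 | h15
  · have h26 : Dn X h 2 6 := by
      rcases e26 with H | H
      · exact absurd (up13 (i:=1) (j:=2) (k:=5) (l:=6) h15 (by norm_num) (by norm_num) (by norm_num)) (not_lt.2 (le_of_lt (up24 (i:=1) (j:=2) (k:=5) (l:=6) H (by norm_num) (by norm_num) (by norm_num))))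
      · exact H
    have h36 : Dn X h 3 6 := by
      rcases e36 with H | H
      · exact absurd (up13 (i:=1) (j:=3) (k:=5) (l:=6) h15 (by norm_num) (by norm_num) (by norm_num)) (not_lt.2 (le_of_lt (up24 (i:=1) (j:=3) (k:=5) (l:=6) H (by norm_num) (by norm_num) (by norm_num))))
      · exact H
    have h02 : Dn X h 0 2 := by
      rcases e02 with H | H
      · exact absurd (up24 (i:=0) (j:=1) (k:=2) (l:=5) h15 (by norm_num) (by norm_num) (by norm_num)) (not_lt.2 (le_of_lt (up13 (i:=0) (j:=1) (k:=2) (l:=5) H (by norm_num) (by norm_num) (by norm_num))))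
      · exact H
    have h24 : Up X h 2 4 := by
      rcases e24 with H | H
      · exact H
      · exact absurd (dn24 (i:=2) (j:=3) (k:=4) (l:=6) h36 (by norm_num) (by norm_num) (by norm_num)) (not_lt.2 (le_of_lt (dn13 (i:=2) (j:=3) (k:=4) (l:=6) H (by norm_num) (by norm_num) (by norm_num))))
    have h25 : Up X h 2 5 := by
      rcases e25 with H | H
      · exact H
      · exact absurd (dn24 (i:=2) (j:=3) (k:=5) (l:=6) h36 (by norm_num) (by norm_num) (by norm_num)) (not_lt.2 (le_of_lt (dn13 (i:=2) (j:=3) (k:=5) (l:=6) H (by norm_num) (by norm_num) (by norm_num))))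
    have h16 : Up X h 1 6 := by
      rcases e16 with H | H
      · exact H
      · exact absurd (dn13 (i:=0) (j:=1) (k:=2) (l:=6) h02 (by norm_num) (by norm_num) (by norm_num)) (not_lt.2 (le_of_lt (dn24 (i:=0) (j:=1) (k:=2) (l:=6) H (by norm_num) (by norm_num) (by norm_num))))
    have h35 : Dn X h 3 5 := by
      rcases e35 with H | H
      · exact absurd (up13 (i:=2) (j:=3) (k:=4) (l:=5) h24 (by norm_num) (by norm_num) (by norm_num)) (not_lt.2 (le_of_lt (up24 (i:=2) (j:=3) (k:=4) (l:=5) H (by norm_num) (by norm_num) (by norm_num))))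
      · exact H
    have w0 := dn24 (i:=0) (j:=2) (k:=3) (l:=6) h26 (by norm_num) (by norm_num) (by norm_num)
    have w1 := dn24 (i:=2) (j:=3) (k:=5) (l:=6) h36 (by norm_num) (by norm_num) (by norm_num)
    have w2 := dn13 (i:=0) (j:=1) (k:=2) (l:=6) h02 (by norm_num) (by norm_num) (by norm_num)
    have w3 := dn13 (i:=3) (j:=4) (k:=5) (l:=6) h35 (by norm_num) (by norm_num) (by norm_num)
    have w4 := up24 (i:=0) (j:=1) (k:=5) (l:=6) h16 (by norm_num) (by norm_num) (by norm_num)
    have w5 := up13 (i:=1) (j:=2) (k:=5) (l:=6) h15 (by norm_num) (by norm_num) (by norm_num)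
    have w6 := up13 (i:=2) (j:=3) (k:=4) (l:=5) h24 (by norm_num) (by norm_num) (by norm_num)
    have w7 := up24 (i:=1) (j:=2) (k:=4) (l:=5) h25 (by norm_num) (by norm_num) (by norm_num)
    simp only [W, X0, X1, X2, X3, X4, X5, X6] at w0 w1 w2 w3 w4 w5 w6 w7
    linarith
  · have h26 : Up X h 2 6 := by
      rcases e26 with H | H
      · exact H
      · exact absurd (dn13 (i:=1) (j:=2) (k:=5) (l:=6) h15 (by norm_num) (by norm_num) (by norm_num)) (not_lt.2 (le_of_lt (dn24 (i:=1) (j:=2) (k:=5) (l:=6) H (by norm_num) (by norm_num) (by norm_num))))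
    have h36 : Up X h 3 6 := by
      rcases e36 with H | H
      · exact H
      · exact absurd (dn13 (i:=1) (j:=3) (k:=5) (l:=6) h15 (by norm_num) (by norm_num) (by norm_num)) (not_lt.2 (le_of_lt (dn24 (i:=1) (j:=3) (k:=5) (l:=6) H (by norm_num) (by norm_num) (by norm_num))))
    have h02 : Up X h 0 2 := by
      rcases e02 with H | H
      · exact H
      · exact absurd (dn24 (i:=0) (j:=1) (k:=2) (l:=5) h15 (by norm_num) (by norm_num) (by norm_num)) (not_lt.2 (le_of_lt (dn13 (i:=0) (j:=1) (k:=2) (l:=5) H (by norm_num) (by norm_num) (by norm_num))))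
    have h24 : Dn X h 2 4 := by
      rcases e24 with H | H
      · exact absurd (up24 (i:=2) (j:=3) (k:=4) (l:=6) h36 (by norm_num) (by norm_num) (by norm_num)) (not_lt.2 (le_of_lt (up13 (i:=2) (j:=3) (k:=4) (l:=6) H (by norm_num) (by norm_num) (by norm_num))))
      · exact H
    have h25 : Dn X h 2 5 := by
      rcases e25 with H | H
      · exact absurd (up24 (i:=2) (j:=3) (k:=5) (l:=6) h36 (by norm_num) (by norm_num) (by norm_num)) (not_lt.2 (le_of_lt (up13 (i:=2) (j:=3) (k:=5) (l:=6) H (by norm_num) (by norm_num) (by norm_num))))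
      · exact H
    have h16 : Dn X h 1 6 := by
      rcases e16 with H | H
      · exact absurd (up13 (i:=0) (j:=1) (k:=2) (l:=6) h02 (by norm_num) (by norm_num) (by norm_num)) (not_lt.2 (le_of_lt (up24 (i:=0) (j:=1) (k:=2) (l:=6) H (by norm_num) (by norm_num) (by norm_num))))
      · exact H
    have h35 : Up X h 3 5 := by
      rcases e35 with H | H
      · exact H
      · exact absurd (dn13 (i:=2) (j:=3) (k:=4) (l:=5) h24 (by norm_num) (by norm_num) (by norm_num)) (not_lt.2 (le_of_lt (dn24 (i:=2) (j:=3) (k:=4) (l:=5) H (by norm_num) (by norm_num) (by norm_num))))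
    have w0 := up24 (i:=0) (j:=2) (k:=3) (l:=6) h26 (by norm_num) (by norm_num) (by norm_num)
    have w1 := up24 (i:=2) (j:=3) (k:=5) (l:=6) h36 (by norm_num) (by norm_num) (by norm_num)
    have w2 := up13 (i:=0) (j:=1) (k:=2) (l:=6) h02 (by norm_num) (by norm_num) (by norm_num)
    have w3 := up13 (i:=3) (j:=4) (k:=5) (l:=6) h35 (by norm_num) (by norm_num) (by norm_num)
    have w4 := dn24 (i:=0) (j:=1) (k:=5) (l:=6) h16 (by norm_num) (by norm_num) (by norm_num)
    have w5 := dn13 (i:=1) (j:=2) (k:=5) (l:=6) h15 (by norm_num) (by norm_num) (by norm_num)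
    have w6 := dn13 (i:=2) (j:=3) (k:=4) (l:=5) h24 (by norm_num) (by norm_num) (by norm_num)
    have w7 := dn24 (i:=1) (j:=2) (k:=4) (l:=5) h25 (by norm_num) (by norm_num) (by norm_num)
    simp only [W, X0, X1, X2, X3, X4, X5, X6] at w0 w1 w2 w3 w4 w5 w6 w7
    linarith


/-! ### The heptagon -/

/-- the vertices of the heptagon -/
def t (j : Fin 7) : Fin 2 → ℝ := ![X j, (X j) ^ 2]

theorem X_inj : Function.Injective X := by
  intro a b h
  fin_cases a <;> fin_cases b <;> simp_all [X]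

theorem t_inj : Function.Injective t := by
  intro a b h
  apply X_inj
  have := congrFun h 0
  simpa [t] using this

def fn (j : Fin 7) : (Fin 2 → ℝ) →ₗ[ℝ] ℝ :=
  (2 * X j) • LinearMap.proj 0 - LinearMap.proj 1

theorem fn_lt (j w : Fin 7) (h : w ≠ j) : fn j (t w) < fn j (t j) := by
  have hX : X w ≠ X j := fun e => h (X_inj e)
  have : 0 < (X j - X w) ^ 2 := by
    have : X j - X w ≠ 0 := sub_ne_zero.2 (Ne.symm hX)
    positivity
  simp only [fn, t, LinearMap.sub_apply, LinearMap.smul_apply, LinearMap.proj_apply,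
    Matrix.cons_val_zero, Matrix.cons_val_one, smul_eq_mul]
  nlinarith

theorem t_extreme (j : Fin 7) : t j ∈ extremePoints ℝ (convexHull ℝ (range t)) :=
  extreme_of_functional t (fn j) j (fun w hw => fn_lt j w hw)

theorem span_t : vectorSpan ℝ (range t) = ⊤ := by
  rw [eq_top_iff]
  intro x _
  have h1 : t 1 -ᵥ t 0 ∈ vectorSpan ℝ (range t) :=
    vsub_mem_vectorSpan ℝ (mem_range_self _) (mem_range_self _)
  have h2 : t 2 -ᵥ t 0 ∈ vectorSpan ℝ (range t) :=
    vsub_mem_vectorSpan ℝ (mem_range_self _) (mem_range_self _)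
  have : x = (2 * x 0 - x 1) • (t 1 -ᵥ t 0) + ((x 1 - x 0) / 2) • (t 2 -ᵥ t 0) := by
    funext i
    fin_cases i
    · simp [t]; ring
    · simp [t]; ring
  rw [this]
  exact Submodule.add_mem _ (Submodule.smul_mem _ _ h1) (Submodule.smul_mem _ _ h2)

theorem interior_T : (interior (convexHull ℝ (range t))).Nonempty := by
  rw [interior_convexHull_nonempty_iff_affineSpan_eq_top,
    AffineSubspace.affineSpan_eq_top_iff_vectorSpan_eq_top_of_nonempty ℝ _ _ (range_nonempty t)]
  exact span_t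

theorem mid_not_frontier (a c : Fin 7) (h0 : c ≠ a) (h1 : c ≠ a + 1) (h2 : a ≠ c + 1) :
    (1/2 : ℝ) • t a + (1/2 : ℝ) • t c ∉ frontier (convexHull ℝ (range t)) := by
  intro hfr
  set S := convexHull ℝ (range t) with hS
  have hconv : Convex ℝ S := convex_convexHull ℝ _
  have hnot : (1/2 : ℝ) • t a + (1/2 : ℝ) • t c ∉ interior S := hfr.2
  obtain ⟨l, hl⟩ := geometric_hahn_banach_open_point hconv.interior isOpen_interior hnot
  have hcl : ∀ y ∈ S, l y ≤ l ((1/2 : ℝ) • t a + (1/2 : ℝ) • t c) := by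
    intro y hy
    have hy' : y ∈ closure (interior S) := by
      rw [hconv.closure_interior_eq_closure_of_nonempty_interior interior_T]
      exact subset_closure hy
    exact closure_minimal (fun z hz => (hl z hz).le) (isClosed_le l.continuous continuous_const) hy'
  obtain ⟨y0, hy0⟩ := interior_T
  have hstrict := hl y0 hy0
  have hrep : ∀ p : Fin 2 → ℝ, l p = p 0 * l ![1, 0] + p 1 * l ![0, 1] := by
    intro p
    have : p = p 0 • ![1, 0] + p 1 • ![0, 1] := by
      funext i; fin_cases i <;> simp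
    conv_lhs => rw [this]
    rw [map_add, map_smul, map_smul, smul_eq_mul, smul_eq_mul]
  have hj : ∀ j, l (t j) ≤ l ((1/2 : ℝ) • t a + (1/2 : ℝ) • t c) := fun j =>
    hcl _ (subset_convexHull ℝ _ (mem_range_self j))
  generalize hα : l ![1, 0] = α at hrep
  generalize hβ : l ![0, 1] = β at hrep
  have hm : l ((1/2 : ℝ) • t a + (1/2 : ℝ) • t c) = (1/2) * l (t a) + (1/2) * l (t c) := by
    rw [map_add, map_smul, map_smul, smul_eq_mul, smul_eq_mul]
  rw [hm] at hj hstrict
  have ht : ∀ j, l (t j) = X j * α + (X j) ^ 2 * β := by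
    intro j
    rw [hrep]; simp [t]
  have ha := hj a
  have hc := hj c
  have k0 := hj 0
  have k1 := hj 1
  have k2 := hj 2
  have k3 := hj 3
  have k4 := hj 4
  have k5 := hj 5
  have k6 := hj 6
  rw [hrep y0] at hstrict
  simp only [ht] at ha hc k0 k1 k2 k3 k4 k5 k6 hstrict
  have hz : β = 0 ∧ α = 0 := by
    clear hstrict hl hcl hj hm hrep ht hα hβ hfr hnot hy0
    fin_cases a <;> fin_cases c <;>
      first
      | (exfalso; revert h0 h1 h2; decide)
      | (simp only [Fin.zero_eta, Fin.mk_one, Fin.reduceFinMk, X0, X1, X2, X3, X4, X5, X6] at *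
         constructor <;> linarith)
  rw [hz.1, hz.2] at hstrict
  simp at hstrict

/-! ### The graph and a polytope realising it -/

/-- adjacency -/
def adjB (u v : Fin 7) : Bool :=
  decide ((u, v) ∈ [((0 : Fin 7), (1 : Fin 7)), (1,2), (2,3), (3,4), (4,5), (5,6), (6,0),
    (0,3), (0,4), (1,3), (4,6), (0,2), (2,6), (3,5), (3,6)]) ||
  decide ((v, u) ∈ [((0 : Fin 7), (1 : Fin 7)), (1,2), (2,3), (3,4), (4,5), (5,6), (6,0),
    (0,3), (0,4), (1,3), (4,6), (0,2), (2,6), (3,5), (3,6)])

def G : SimpleGraph (Fin 7) where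
  Adj u v := adjB u v = true
  symm := ⟨by decide⟩
  loopless := ⟨by decide⟩

instance : DecidableRel G.Adj := fun u v => inferInstanceAs (Decidable (adjB u v = true))


theorem no_f (f : Fin 7 → Fin 3 → ℝ) (hinj : Function.Injective f)
    (hext : ∀ w, f w ∈ extremePoints ℝ (convexHull ℝ (range f)))
    (hadj : ∀ u w, G.Adj u w → IsExtreme ℝ (convexHull ℝ (range f)) (segment ℝ (f u) (f w)))
    (hproj : (fun p : Fin 3 → ℝ => ![p 0, p 1]) '' convexHull ℝ (range f) = convexHull ℝ (range t))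
    (hfr : ∀ i : Fin 7, segment ℝ (f i) (f (i + 1)) ⊆
      (fun p : Fin 3 → ℝ => ![p 0, p 1]) ⁻¹' frontier (convexHull ℝ (range t))) : False := by
  let π : (Fin 3 → ℝ) →ₗ[ℝ] (Fin 2 → ℝ) :=
    { toFun := fun p => ![p 0, p 1]
      map_add' := by intro x y; funext i; fin_cases i <;> simp
      map_smul' := by intro c x; funext i; fin_cases i <;> simp }
  have hπ : ∀ p, π p = ![p 0, p 1] := fun _ => rfl
  have hproj' : convexHull ℝ (π '' range f) = convexHull ℝ (range t) := by
    rw [← LinearMap.image_convexHull]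
    exact hproj
  have hex : ∀ j, ∃ w, f w 0 = X j ∧ f w 1 = (X j) ^ 2 := by
    intro j
    have h1 := t_extreme j
    rw [← hproj'] at h1
    have h2 := extremePoints_convexHull_subset h1
    obtain ⟨p, ⟨w, rfl⟩, hw⟩ := h2
    refine ⟨w, ?_, ?_⟩
    · have := congrFun hw 0
      simpa [hπ, t] using this
    · have := congrFun hw 1
      simpa [hπ, t] using this
  choose τ hτ0 hτ1 using hex
  have hτinj : Function.Injective τ := by
    intro a b h
    apply X_inj
    rw [← hτ0 a, ← hτ0 b, h]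
  have hτbij := (Finite.injective_iff_bijective).1 hτinj
  have hτsurj := hτbij.2
  have key : ∀ j k : Fin 7, G.Adj (τ j) (τ k) →
      Up X (fun j => f (τ j) 2) j k ∨ Dn X (fun j => f (τ j) 2) j k := by
    intro j k h
    exact up_or_dn (convex_convexHull ℝ (range f)) (fun j => f (τ j)) X (fun j => f (τ j) 2)
      hτ0 hτ1 (fun _ => rfl) (hinj.comp hτinj) (fun j => hext _) j k (hadj _ _ h)
  choose σ hσ using hτsurj
  have hσ' : ∀ j, σ (τ j) = j := fun j => hτinj (hσ _)
  have hσinj : Function.Injective σ := by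
    intro a b h
    rw [← hσ a, ← hσ b, h]
  have hstep : ∀ i : Fin 7, σ (i + 1) = σ i + 1 ∨ σ i = σ (i + 1) + 1 := by
    intro i
    by_contra hcon
    rw [not_or] at hcon
    have hne : σ (i + 1) ≠ σ i := by
      intro h
      have := hσinj h
      revert this
      clear * -
      revert i
      decide
    refine mid_not_frontier (σ i) (σ (i + 1)) hne hcon.1 hcon.2 ?_
    have hmem : (1/2 : ℝ) • f i + (1/2 : ℝ) • f (i + 1) ∈ segment ℝ (f i) (f (i + 1)) :=
      ⟨1/2, 1/2, by norm_num, by norm_num, by norm_num, rfl⟩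
    have h1 := hfr i hmem
    have e : (fun p : Fin 3 → ℝ => ![p 0, p 1]) ((1/2 : ℝ) • f i + (1/2 : ℝ) • f (i + 1))
        = (1/2 : ℝ) • t (σ i) + (1/2 : ℝ) • t (σ (i + 1)) := by
      funext k
      fin_cases k
      · simp only [t, Pi.add_apply, Pi.smul_apply, smul_eq_mul, Fin.zero_eta,
          Matrix.cons_val_zero]
        rw [← hτ0 (σ i), ← hτ0 (σ (i+1)), hσ, hσ]
      · simp only [t, Pi.add_apply, Pi.smul_apply, smul_eq_mul, Fin.mk_one,
          Matrix.cons_val_one, Matrix.cons_val_zero]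
        rw [← hτ1 (σ i), ← hτ1 (σ (i+1)), hσ, hσ]
    rw [mem_preimage] at h1
    rw [← e]
    exact h1
  have s0 := hstep 0
  have s1 := hstep 1
  have s2 := hstep 2
  have s3 := hstep 3
  have s4 := hstep 4
  have s5 := hstep 5
  have n0 : σ 2 ≠ σ 0 := fun h => absurd (hσinj h) (by decide)
  have n1 : σ 3 ≠ σ 1 := fun h => absurd (hσinj h) (by decide)
  have n2 : σ 4 ≠ σ 2 := fun h => absurd (hσinj h) (by decide)
  have n3 : σ 5 ≠ σ 3 := fun h => absurd (hσinj h) (by decide)
  have n4 : σ 6 ≠ σ 4 := fun h => absurd (hσinj h) (by decide)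
  rw [show (0 : Fin 7) + 1 = 1 from rfl] at s0
  rw [show (1 : Fin 7) + 1 = 2 from rfl] at s1
  rw [show (2 : Fin 7) + 1 = 3 from rfl] at s2
  rw [show (3 : Fin 7) + 1 = 4 from rfl] at s3
  rw [show (4 : Fin 7) + 1 = 5 from rfl] at s4
  rw [show (5 : Fin 7) + 1 = 6 from rfl] at s5
  have hdir : (∀ i, σ i = σ 0 + i) ∨ (∀ i, σ i = σ 0 - i) := by
    rcases s0 with s0 | s0
    · left
      have r2 : σ 2 = σ 1 + 1 := by
        rcases s1 with h | h
        · exact h
        · exact absurd (add_right_cancel (h.symm.trans s0)) n0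
      have r3 : σ 3 = σ 2 + 1 := by
        rcases s2 with h | h
        · exact h
        · exact absurd (add_right_cancel (h.symm.trans r2)) n1
      have r4 : σ 4 = σ 3 + 1 := by
        rcases s3 with h | h
        · exact h
        · exact absurd (add_right_cancel (h.symm.trans r3)) n2
      have r5 : σ 5 = σ 4 + 1 := by
        rcases s4 with h | h
        · exact h
        · exact absurd (add_right_cancel (h.symm.trans r4)) n3
      have r6 : σ 6 = σ 5 + 1 := by
        rcases s5 with h | h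
        · exact h
        · exact absurd (add_right_cancel (h.symm.trans r5)) n4
      intro i
      fin_cases i
      · simp
      · simp only [Fin.mk_one]; rw [s0]
      · simp only [Fin.reduceFinMk]; rw [r2, s0, add_assoc]; rfl
      · simp only [Fin.reduceFinMk]; rw [r3, r2, s0, add_assoc, add_assoc]; rfl
      · simp only [Fin.reduceFinMk]; rw [r4, r3, r2, s0, add_assoc, add_assoc, add_assoc]; rfl
      · simp only [Fin.reduceFinMk]
        rw [r5, r4, r3, r2, s0, add_assoc, add_assoc, add_assoc, add_assoc]; rfl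
      · simp only [Fin.reduceFinMk]
        rw [r6, r5, r4, r3, r2, s0, add_assoc, add_assoc, add_assoc, add_assoc, add_assoc]; rfl
    · right
      have r2 : σ 1 = σ 2 + 1 := by
        rcases s1 with h | h
        · exact absurd (h.trans s0.symm) n0
        · exact h
      have r3 : σ 2 = σ 3 + 1 := by
        rcases s2 with h | h
        · exact absurd (h.trans r2.symm) n1
        · exact h
      have r4 : σ 3 = σ 4 + 1 := by
        rcases s3 with h | h
        · exact absurd (h.trans r3.symm) n2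
        · exact h
      have r5 : σ 4 = σ 5 + 1 := by
        rcases s4 with h | h
        · exact absurd (h.trans r4.symm) n3
        · exact h
      have r6 : σ 5 = σ 6 + 1 := by
        rcases s5 with h | h
        · exact absurd (h.trans r5.symm) n4
        · exact h
      have q : ∀ a b : Fin 7, a = b + 1 → b = a - 1 := by decide
      intro i
      fin_cases i
      · simp
      · simp only [Fin.mk_one]; exact q _ _ s0
      · simp only [Fin.reduceFinMk]; rw [q _ _ r2, q _ _ s0, sub_sub]; rfl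
      · simp only [Fin.reduceFinMk]; rw [q _ _ r3, q _ _ r2, q _ _ s0, sub_sub, sub_sub]; rfl
      · simp only [Fin.reduceFinMk]
        rw [q _ _ r4, q _ _ r3, q _ _ r2, q _ _ s0, sub_sub, sub_sub, sub_sub]; rfl
      · simp only [Fin.reduceFinMk]
        rw [q _ _ r5, q _ _ r4, q _ _ r3, q _ _ r2, q _ _ s0, sub_sub, sub_sub, sub_sub, sub_sub]; rfl
      · simp only [Fin.reduceFinMk]
        rw [q _ _ r6, q _ _ r5, q _ _ r4, q _ _ r3, q _ _ r2, q _ _ s0, sub_sub, sub_sub, sub_sub,
          sub_sub, sub_sub]; rfl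
  rcases hdir with hdir | hdir
  · have hτ : ∀ j, τ j = j - σ 0 := by
      intro j
      have := hdir (τ j)
      rw [hσ'] at this
      have q : ∀ a b c : Fin 7, c = a + b → b = c - a := by decide
      exact q _ _ _ this
    generalize σ 0 = a at hτ
    fin_cases a
    · exact no_real_0 (fun j => f (τ j) 2)
        (key 0 3 (by rw [hτ, hτ]; decide))
        (key 0 4 (by rw [hτ, hτ]; decide))
        (key 1 3 (by rw [hτ, hτ]; decide))
        (key 4 6 (by rw [hτ, hτ]; decide))
        (key 0 2 (by rw [hτ, hτ]; decide))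
        (key 2 6 (by rw [hτ, hτ]; decide))
        (key 3 5 (by rw [hτ, hτ]; decide))
        (key 3 6 (by rw [hτ, hτ]; decide))
    · exact no_real_1 (fun j => f (τ j) 2)
        (key 1 4 (by rw [hτ, hτ]; decide))
        (key 1 5 (by rw [hτ, hτ]; decide))
        (key 2 4 (by rw [hτ, hτ]; decide))
        (key 0 5 (by rw [hτ, hτ]; decide))
        (key 1 3 (by rw [hτ, hτ]; decide))
        (key 0 3 (by rw [hτ, hτ]; decide))
        (key 4 6 (by rw [hτ, hτ]; decide))
        (key 0 4 (by rw [hτ, hτ]; decide))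
    · exact no_real_2 (fun j => f (τ j) 2)
        (key 2 5 (by rw [hτ, hτ]; decide))
        (key 2 6 (by rw [hτ, hτ]; decide))
        (key 3 5 (by rw [hτ, hτ]; decide))
        (key 1 6 (by rw [hτ, hτ]; decide))
        (key 2 4 (by rw [hτ, hτ]; decide))
        (key 1 4 (by rw [hτ, hτ]; decide))
        (key 0 5 (by rw [hτ, hτ]; decide))
        (key 1 5 (by rw [hτ, hτ]; decide))
    · exact no_real_3 (fun j => f (τ j) 2)
        (key 3 6 (by rw [hτ, hτ]; decide))
        (key 0 3 (by rw [hτ, hτ]; decide))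
        (key 4 6 (by rw [hτ, hτ]; decide))
        (key 0 2 (by rw [hτ, hτ]; decide))
        (key 3 5 (by rw [hτ, hτ]; decide))
        (key 2 5 (by rw [hτ, hτ]; decide))
        (key 1 6 (by rw [hτ, hτ]; decide))
        (key 2 6 (by rw [hτ, hτ]; decide))
    · exact no_real_4 (fun j => f (τ j) 2)
        (key 0 4 (by rw [hτ, hτ]; decide))
        (key 1 4 (by rw [hτ, hτ]; decide))
        (key 0 5 (by rw [hτ, hτ]; decide))
        (key 1 3 (by rw [hτ, hτ]; decide))
        (key 4 6 (by rw [hτ, hτ]; decide))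
        (key 3 6 (by rw [hτ, hτ]; decide))
        (key 0 2 (by rw [hτ, hτ]; decide))
        (key 0 3 (by rw [hτ, hτ]; decide))
    · exact no_real_5 (fun j => f (τ j) 2)
        (key 1 5 (by rw [hτ, hτ]; decide))
        (key 2 5 (by rw [hτ, hτ]; decide))
        (key 1 6 (by rw [hτ, hτ]; decide))
        (key 2 4 (by rw [hτ, hτ]; decide))
        (key 0 5 (by rw [hτ, hτ]; decide))
        (key 0 4 (by rw [hτ, hτ]; decide))
        (key 1 3 (by rw [hτ, hτ]; decide))
        (key 1 4 (by rw [hτ, hτ]; decide))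
    · exact no_real_6 (fun j => f (τ j) 2)
        (key 2 6 (by rw [hτ, hτ]; decide))
        (key 3 6 (by rw [hτ, hτ]; decide))
        (key 0 2 (by rw [hτ, hτ]; decide))
        (key 3 5 (by rw [hτ, hτ]; decide))
        (key 1 6 (by rw [hτ, hτ]; decide))
        (key 1 5 (by rw [hτ, hτ]; decide))
        (key 2 4 (by rw [hτ, hτ]; decide))
        (key 2 5 (by rw [hτ, hτ]; decide))
  · have hτ : ∀ j, τ j = σ 0 - j := by
      intro j
      have := hdir (τ j)
      rw [hσ'] at this
      have q : ∀ a b c : Fin 7, c = a - b → b = a - c := by decide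
      exact q _ _ _ this
    generalize σ 0 = a at hτ
    fin_cases a
    · exact no_real_1 (fun j => f (τ j) 2)
        (key 1 4 (by rw [hτ, hτ]; decide))
        (key 1 5 (by rw [hτ, hτ]; decide))
        (key 2 4 (by rw [hτ, hτ]; decide))
        (key 0 5 (by rw [hτ, hτ]; decide))
        (key 1 3 (by rw [hτ, hτ]; decide))
        (key 0 3 (by rw [hτ, hτ]; decide))
        (key 4 6 (by rw [hτ, hτ]; decide))
        (key 0 4 (by rw [hτ, hτ]; decide))
    · exact no_real_2 (fun j => f (τ j) 2)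
        (key 2 5 (by rw [hτ, hτ]; decide))
        (key 2 6 (by rw [hτ, hτ]; decide))
        (key 3 5 (by rw [hτ, hτ]; decide))
        (key 1 6 (by rw [hτ, hτ]; decide))
        (key 2 4 (by rw [hτ, hτ]; decide))
        (key 1 4 (by rw [hτ, hτ]; decide))
        (key 0 5 (by rw [hτ, hτ]; decide))
        (key 1 5 (by rw [hτ, hτ]; decide))
    · exact no_real_3 (fun j => f (τ j) 2)
        (key 3 6 (by rw [hτ, hτ]; decide))
        (key 0 3 (by rw [hτ, hτ]; decide))
        (key 4 6 (by rw [hτ, hτ]; decide))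
        (key 0 2 (by rw [hτ, hτ]; decide))
        (key 3 5 (by rw [hτ, hτ]; decide))
        (key 2 5 (by rw [hτ, hτ]; decide))
        (key 1 6 (by rw [hτ, hτ]; decide))
        (key 2 6 (by rw [hτ, hτ]; decide))
    · exact no_real_4 (fun j => f (τ j) 2)
        (key 0 4 (by rw [hτ, hτ]; decide))
        (key 1 4 (by rw [hτ, hτ]; decide))
        (key 0 5 (by rw [hτ, hτ]; decide))
        (key 1 3 (by rw [hτ, hτ]; decide))
        (key 4 6 (by rw [hτ, hτ]; decide))
        (key 3 6 (by rw [hτ, hτ]; decide))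
        (key 0 2 (by rw [hτ, hτ]; decide))
        (key 0 3 (by rw [hτ, hτ]; decide))
    · exact no_real_5 (fun j => f (τ j) 2)
        (key 1 5 (by rw [hτ, hτ]; decide))
        (key 2 5 (by rw [hτ, hτ]; decide))
        (key 1 6 (by rw [hτ, hτ]; decide))
        (key 2 4 (by rw [hτ, hτ]; decide))
        (key 0 5 (by rw [hτ, hτ]; decide))
        (key 0 4 (by rw [hτ, hτ]; decide))
        (key 1 3 (by rw [hτ, hτ]; decide))
        (key 1 4 (by rw [hτ, hτ]; decide))
    · exact no_real_6 (fun j => f (τ j) 2)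
        (key 2 6 (by rw [hτ, hτ]; decide))
        (key 3 6 (by rw [hτ, hτ]; decide))
        (key 0 2 (by rw [hτ, hτ]; decide))
        (key 3 5 (by rw [hτ, hτ]; decide))
        (key 1 6 (by rw [hτ, hτ]; decide))
        (key 1 5 (by rw [hτ, hτ]; decide))
        (key 2 4 (by rw [hτ, hτ]; decide))
        (key 2 5 (by rw [hτ, hτ]; decide))
    · exact no_real_0 (fun j => f (τ j) 2)
        (key 0 3 (by rw [hτ, hτ]; decide))
        (key 0 4 (by rw [hτ, hτ]; decide))
        (key 1 3 (by rw [hτ, hτ]; decide))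
        (key 4 6 (by rw [hτ, hτ]; decide))
        (key 0 2 (by rw [hτ, hτ]; decide))
        (key 2 6 (by rw [hτ, hτ]; decide))
        (key 3 5 (by rw [hτ, hτ]; decide))
        (key 3 6 (by rw [hτ, hτ]; decide))

def Xg : Fin 7 → ℝ := ![0,1,2,3,4,5,6]
def hg : Fin 7 → ℝ := ![0,0,0,5,9,6,1]
@[simp] theorem Xg0 : Xg 0 = 0 := rfl
@[simp] theorem Xg1 : Xg 1 = 1 := rfl
@[simp] theorem Xg2 : Xg 2 = 2 := rfl
@[simp] theorem Xg3 : Xg 3 = 3 := rfl
@[simp] theorem Xg4 : Xg 4 = 4 := rfl
@[simp] theorem Xg5 : Xg 5 = 5 := rfl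
@[simp] theorem Xg6 : Xg 6 = 6 := rfl
@[simp] theorem hg0 : hg 0 = 0 := rfl
@[simp] theorem hg1 : hg 1 = 0 := rfl
@[simp] theorem hg2 : hg 2 = 0 := rfl
@[simp] theorem hg3 : hg 3 = 5 := rfl
@[simp] theorem hg4 : hg 4 = 9 := rfl
@[simp] theorem hg5 : hg 5 = 6 := rfl
@[simp] theorem hg6 : hg 6 = 1 := rfl

def g (i : Fin 7) : Fin 3 → ℝ := ![Xg i, (Xg i) ^ 2, hg i]

theorem Xg_inj : Function.Injective Xg := by
  intro a b h
  fin_cases a <;> fin_cases b <;> simp_all [Xg]

theorem g_inj : Function.Injective g := by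
  intro a b h
  apply Xg_inj
  have := congrFun h 0
  simpa [g] using this

def fl (a b c : ℝ) : (Fin 3 → ℝ) →ₗ[ℝ] ℝ :=
  a • LinearMap.proj 0 + b • LinearMap.proj 1 + c • LinearMap.proj 2

theorem fl_g (a b c : ℝ) (i : Fin 7) : fl a b c (g i) = a * Xg i + b * (Xg i) ^ 2 + c * hg i := by
  simp [fl, g]

theorem g_extreme (v : Fin 7) : g v ∈ extremePoints ℝ (convexHull ℝ (range g)) := by
  refine extreme_of_functional g (fl (2 * Xg v) (-1) 0) v ?_
  intro w hw
  rw [fl_g, fl_g]
  have hX : Xg w ≠ Xg v := fun e => hw (Xg_inj e)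
  have : 0 < (Xg v - Xg w) ^ 2 := by
    have : Xg v - Xg w ≠ 0 := sub_ne_zero.2 (Ne.symm hX)
    positivity
  nlinarith

theorem span_g : vectorSpan ℝ (range g) = ⊤ := by
  rw [eq_top_iff]
  intro x _
  have h1 : g 1 -ᵥ g 0 ∈ vectorSpan ℝ (range g) :=
    vsub_mem_vectorSpan ℝ (mem_range_self _) (mem_range_self _)
  have h2 : g 2 -ᵥ g 0 ∈ vectorSpan ℝ (range g) :=
    vsub_mem_vectorSpan ℝ (mem_range_self _) (mem_range_self _)
  have h3 : g 3 -ᵥ g 0 ∈ vectorSpan ℝ (range g) :=
    vsub_mem_vectorSpan ℝ (mem_range_self _) (mem_range_self _)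
  have : x = (2 * x 0 - x 1 + 3 * x 2 / 5) • (g 1 -ᵥ g 0) +
      ((x 1 - x 0) / 2 - 3 * x 2 / 5) • (g 2 -ᵥ g 0) + (x 2 / 5) • (g 3 -ᵥ g 0) := by
    funext i
    fin_cases i
    · simp [g]; ring
    · simp [g]; ring
    · simp [g]
  rw [this]
  exact Submodule.add_mem _ (Submodule.add_mem _ (Submodule.smul_mem _ _ h1)
    (Submodule.smul_mem _ _ h2)) (Submodule.smul_mem _ _ h3)

theorem interior_g : (interior (convexHull ℝ (range g))).Nonempty := by
  rw [interior_convexHull_nonempty_iff_affineSpan_eq_top,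
    AffineSubspace.affineSpan_eq_top_iff_vectorSpan_eq_top_of_nonempty ℝ _ _ (range_nonempty g)]
  exact span_g

theorem g_edge (u v : Fin 7) (a b c : ℝ) (huv : u ≠ v)
    (he : a * Xg u + b * (Xg u) ^ 2 + c * hg u = a * Xg v + b * (Xg v) ^ 2 + c * hg v)
    (h : ∀ w, w ≠ u → w ≠ v → a * Xg w + b * (Xg w) ^ 2 + c * hg w <
      a * Xg v + b * (Xg v) ^ 2 + c * hg v) :
    IsExtreme ℝ (convexHull ℝ (range g)) (segment ℝ (g u) (g v)) := by
  refine edge_of_functional g (fl a b c) u v huv (by rw [fl_g, fl_g]; exact he) ?_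
  intro w h1 h2
  rw [fl_g, fl_g]
  exact h w h1 h2

theorem g_updn (u v : Fin 7) (hE : IsExtreme ℝ (convexHull ℝ (range g)) (segment ℝ (g u) (g v))) :
    Up Xg hg u v ∨ Dn Xg hg u v :=
  up_or_dn (convex_convexHull ℝ (range g)) g Xg hg (fun _ => rfl) (fun _ => rfl) (fun _ => rfl)
    g_inj g_extreme u v hE

theorem edge01 : IsExtreme ℝ (convexHull ℝ (range g)) (segment ℝ (g 0) (g 1)) := by
  refine g_edge 0 1 (1) (-1) (1) (by decide) (by norm_num) ?_
  intro w h1 h2
  fin_cases w <;> first | (exfalso; revert h1 h2; decide) | (simp only [Fin.zero_eta, Fin.mk_one, Fin.reduceFinMk, Xg0, Xg1, Xg2, Xg3, Xg4, Xg5, Xg6, hg0, hg1, hg2, hg3, hg4, hg5, hg6]; norm_num)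

theorem edge02 : IsExtreme ℝ (convexHull ℝ (range g)) (segment ℝ (g 0) (g 2)) := by
  refine g_edge 0 2 (-2) (1) (-25) (by decide) (by norm_num) ?_
  intro w h1 h2
  fin_cases w <;> first | (exfalso; revert h1 h2; decide) | (simp only [Fin.zero_eta, Fin.mk_one, Fin.reduceFinMk, Xg0, Xg1, Xg2, Xg3, Xg4, Xg5, Xg6, hg0, hg1, hg2, hg3, hg4, hg5, hg6]; norm_num)

theorem edge03 : IsExtreme ℝ (convexHull ℝ (range g)) (segment ℝ (g 0) (g 3)) := by
  refine g_edge 0 3 (1) (-2) (3) (by decide) (by norm_num) ?_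
  intro w h1 h2
  fin_cases w <;> first | (exfalso; revert h1 h2; decide) | (simp only [Fin.zero_eta, Fin.mk_one, Fin.reduceFinMk, Xg0, Xg1, Xg2, Xg3, Xg4, Xg5, Xg6, hg0, hg1, hg2, hg3, hg4, hg5, hg6]; norm_num)

theorem edge04 : IsExtreme ℝ (convexHull ℝ (range g)) (segment ℝ (g 0) (g 4)) := by
  refine g_edge 0 4 (-17) (2) (4) (by decide) (by norm_num) ?_
  intro w h1 h2
  fin_cases w <;> first | (exfalso; revert h1 h2; decide) | (simp only [Fin.zero_eta, Fin.mk_one, Fin.reduceFinMk, Xg0, Xg1, Xg2, Xg3, Xg4, Xg5, Xg6, hg0, hg1, hg2, hg3, hg4, hg5, hg6]; norm_num)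

theorem edge06 : IsExtreme ℝ (convexHull ℝ (range g)) (segment ℝ (g 0) (g 6)) := by
  refine g_edge 0 6 (-6) (1) (0) (by decide) (by norm_num) ?_
  intro w h1 h2
  fin_cases w <;> first | (exfalso; revert h1 h2; decide) | (simp only [Fin.zero_eta, Fin.mk_one, Fin.reduceFinMk, Xg0, Xg1, Xg2, Xg3, Xg4, Xg5, Xg6, hg0, hg1, hg2, hg3, hg4, hg5, hg6]; norm_num)

theorem edge12 : IsExtreme ℝ (convexHull ℝ (range g)) (segment ℝ (g 1) (g 2)) := by
  refine g_edge 1 2 (3) (-1) (0) (by decide) (by norm_num) ?_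
  intro w h1 h2
  fin_cases w <;> first | (exfalso; revert h1 h2; decide) | (simp only [Fin.zero_eta, Fin.mk_one, Fin.reduceFinMk, Xg0, Xg1, Xg2, Xg3, Xg4, Xg5, Xg6, hg0, hg1, hg2, hg3, hg4, hg5, hg6]; norm_num)

theorem edge13 : IsExtreme ℝ (convexHull ℝ (range g)) (segment ℝ (g 1) (g 3)) := by
  refine g_edge 1 3 (3) (-2) (2) (by decide) (by norm_num) ?_
  intro w h1 h2
  fin_cases w <;> first | (exfalso; revert h1 h2; decide) | (simp only [Fin.zero_eta, Fin.mk_one, Fin.reduceFinMk, Xg0, Xg1, Xg2, Xg3, Xg4, Xg5, Xg6, hg0, hg1, hg2, hg3, hg4, hg5, hg6]; norm_num)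

theorem edge23 : IsExtreme ℝ (convexHull ℝ (range g)) (segment ℝ (g 2) (g 3)) := by
  refine g_edge 2 3 (5) (-1) (0) (by decide) (by norm_num) ?_
  intro w h1 h2
  fin_cases w <;> first | (exfalso; revert h1 h2; decide) | (simp only [Fin.zero_eta, Fin.mk_one, Fin.reduceFinMk, Xg0, Xg1, Xg2, Xg3, Xg4, Xg5, Xg6, hg0, hg1, hg2, hg3, hg4, hg5, hg6]; norm_num)

theorem edge26 : IsExtreme ℝ (convexHull ℝ (range g)) (segment ℝ (g 2) (g 6)) := by
  refine g_edge 2 6 (11) (-1) (-12) (by decide) (by norm_num) ?_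
  intro w h1 h2
  fin_cases w <;> first | (exfalso; revert h1 h2; decide) | (simp only [Fin.zero_eta, Fin.mk_one, Fin.reduceFinMk, Xg0, Xg1, Xg2, Xg3, Xg4, Xg5, Xg6, hg0, hg1, hg2, hg3, hg4, hg5, hg6]; norm_num)

theorem edge34 : IsExtreme ℝ (convexHull ℝ (range g)) (segment ℝ (g 3) (g 4)) := by
  refine g_edge 3 4 (7) (-1) (0) (by decide) (by norm_num) ?_
  intro w h1 h2
  fin_cases w <;> first | (exfalso; revert h1 h2; decide) | (simp only [Fin.zero_eta, Fin.mk_one, Fin.reduceFinMk, Xg0, Xg1, Xg2, Xg3, Xg4, Xg5, Xg6, hg0, hg1, hg2, hg3, hg4, hg5, hg6]; norm_num)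

theorem edge35 : IsExtreme ℝ (convexHull ℝ (range g)) (segment ℝ (g 3) (g 5)) := by
  refine g_edge 3 5 (33) (-4) (-2) (by decide) (by norm_num) ?_
  intro w h1 h2
  fin_cases w <;> first | (exfalso; revert h1 h2; decide) | (simp only [Fin.zero_eta, Fin.mk_one, Fin.reduceFinMk, Xg0, Xg1, Xg2, Xg3, Xg4, Xg5, Xg6, hg0, hg1, hg2, hg3, hg4, hg5, hg6]; norm_num)

theorem edge36 : IsExtreme ℝ (convexHull ℝ (range g)) (segment ℝ (g 3) (g 6)) := by
  refine g_edge 3 6 (41) (-5) (-3) (by decide) (by norm_num) ?_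
  intro w h1 h2
  fin_cases w <;> first | (exfalso; revert h1 h2; decide) | (simp only [Fin.zero_eta, Fin.mk_one, Fin.reduceFinMk, Xg0, Xg1, Xg2, Xg3, Xg4, Xg5, Xg6, hg0, hg1, hg2, hg3, hg4, hg5, hg6]; norm_num)

theorem edge45 : IsExtreme ℝ (convexHull ℝ (range g)) (segment ℝ (g 4) (g 5)) := by
  refine g_edge 4 5 (-3) (1) (2) (by decide) (by norm_num) ?_
  intro w h1 h2
  fin_cases w <;> first | (exfalso; revert h1 h2; decide) | (simp only [Fin.zero_eta, Fin.mk_one, Fin.reduceFinMk, Xg0, Xg1, Xg2, Xg3, Xg4, Xg5, Xg6, hg0, hg1, hg2, hg3, hg4, hg5, hg6]; norm_num)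

theorem edge46 : IsExtreme ℝ (convexHull ℝ (range g)) (segment ℝ (g 4) (g 6)) := by
  refine g_edge 4 6 (-160) (26) (25) (by decide) (by norm_num) ?_
  intro w h1 h2
  fin_cases w <;> first | (exfalso; revert h1 h2; decide) | (simp only [Fin.zero_eta, Fin.mk_one, Fin.reduceFinMk, Xg0, Xg1, Xg2, Xg3, Xg4, Xg5, Xg6, hg0, hg1, hg2, hg3, hg4, hg5, hg6]; norm_num)

theorem edge56 : IsExtreme ℝ (convexHull ℝ (range g)) (segment ℝ (g 5) (g 6)) := by
  refine g_edge 5 6 (7) (3) (8) (by decide) (by norm_num) ?_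
  intro w h1 h2
  fin_cases w <;> first | (exfalso; revert h1 h2; decide) | (simp only [Fin.zero_eta, Fin.mk_one, Fin.reduceFinMk, Xg0, Xg1, Xg2, Xg3, Xg4, Xg5, Xg6, hg0, hg1, hg2, hg3, hg4, hg5, hg6]; norm_num)

theorem nonedge05 : ¬ IsExtreme ℝ (convexHull ℝ (range g)) (segment ℝ (g 0) (g 5)) := by
  intro hE
  rcases g_updn _ _ hE with h | h
  · have := up13 (i:=0) (j:=4) (k:=5) (l:=6) h (by norm_num) (by norm_num) (by norm_num)
    norm_num [W] at this
  · have := dn13 (i:=0) (j:=1) (k:=5) (l:=6) h (by norm_num) (by norm_num) (by norm_num)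
    norm_num [W] at this

theorem nonedge14 : ¬ IsExtreme ℝ (convexHull ℝ (range g)) (segment ℝ (g 1) (g 4)) := by
  intro hE
  rcases g_updn _ _ hE with h | h
  · have := up24 (i:=0) (j:=1) (k:=3) (l:=4) h (by norm_num) (by norm_num) (by norm_num)
    norm_num [W] at this
  · have := dn24 (i:=0) (j:=1) (k:=2) (l:=4) h (by norm_num) (by norm_num) (by norm_num)
    norm_num [W] at this

theorem nonedge15 : ¬ IsExtreme ℝ (convexHull ℝ (range g)) (segment ℝ (g 1) (g 5)) := by
  intro hE
  rcases g_updn _ _ hE with h | h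
  · have := up24 (i:=0) (j:=1) (k:=3) (l:=5) h (by norm_num) (by norm_num) (by norm_num)
    norm_num [W] at this
  · have := dn24 (i:=0) (j:=1) (k:=2) (l:=5) h (by norm_num) (by norm_num) (by norm_num)
    norm_num [W] at this

theorem nonedge16 : ¬ IsExtreme ℝ (convexHull ℝ (range g)) (segment ℝ (g 1) (g 6)) := by
  intro hE
  rcases g_updn _ _ hE with h | h
  · have := up24 (i:=0) (j:=1) (k:=3) (l:=6) h (by norm_num) (by norm_num) (by norm_num)
    norm_num [W] at this
  · have := dn24 (i:=0) (j:=1) (k:=2) (l:=6) h (by norm_num) (by norm_num) (by norm_num)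
    norm_num [W] at this

theorem nonedge24 : ¬ IsExtreme ℝ (convexHull ℝ (range g)) (segment ℝ (g 2) (g 4)) := by
  intro hE
  rcases g_updn _ _ hE with h | h
  · have := up24 (i:=0) (j:=2) (k:=3) (l:=4) h (by norm_num) (by norm_num) (by norm_num)
    norm_num [W] at this
  · have := dn13 (i:=2) (j:=3) (k:=4) (l:=5) h (by norm_num) (by norm_num) (by norm_num)
    norm_num [W] at this

theorem nonedge25 : ¬ IsExtreme ℝ (convexHull ℝ (range g)) (segment ℝ (g 2) (g 5)) := by
  intro hE
  rcases g_updn _ _ hE with h | h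
  · have := up24 (i:=0) (j:=2) (k:=3) (l:=5) h (by norm_num) (by norm_num) (by norm_num)
    norm_num [W] at this
  · have := dn13 (i:=2) (j:=3) (k:=5) (l:=6) h (by norm_num) (by norm_num) (by norm_num)
    norm_num [W] at this


theorem g_adj (u v : Fin 7) : G.Adj u v ↔
    (u ≠ v ∧ IsExtreme ℝ (convexHull ℝ (range g)) (segment ℝ (g u) (g v))) := by
  have hlt : ∀ u v : Fin 7, u < v → (G.Adj u v ↔
      IsExtreme ℝ (convexHull ℝ (range g)) (segment ℝ (g u) (g v))) := by
    intro u v huv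
    fin_cases u <;> fin_cases v <;>
      first
      | (exfalso; revert huv; decide)
      | exact iff_of_true (by decide) edge01
      | exact iff_of_true (by decide) edge02
      | exact iff_of_true (by decide) edge03
      | exact iff_of_true (by decide) edge04
      | exact iff_of_true (by decide) edge06
      | exact iff_of_true (by decide) edge12
      | exact iff_of_true (by decide) edge13
      | exact iff_of_true (by decide) edge23
      | exact iff_of_true (by decide) edge26
      | exact iff_of_true (by decide) edge34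
      | exact iff_of_true (by decide) edge35
      | exact iff_of_true (by decide) edge36
      | exact iff_of_true (by decide) edge45
      | exact iff_of_true (by decide) edge46
      | exact iff_of_true (by decide) edge56
      | exact iff_of_false (by decide) nonedge05
      | exact iff_of_false (by decide) nonedge14
      | exact iff_of_false (by decide) nonedge15
      | exact iff_of_false (by decide) nonedge16
      | exact iff_of_false (by decide) nonedge24
      | exact iff_of_false (by decide) nonedge25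
  rcases lt_trichotomy u v with h | h | h
  · rw [hlt u v h]
    exact ⟨fun H => ⟨h.ne, H⟩, fun H => H.2⟩
  · subst h
    simp
  · rw [G.adj_comm, hlt v u h, segment_symm]
    exact ⟨fun H => ⟨h.ne', H⟩, fun H => H.2⟩

/-- the Hamiltonian cycle -/
def c : G.Walk 0 0 :=
  .cons (show G.Adj 0 1 by decide) <| .cons (show G.Adj 1 2 by decide) <|
  .cons (show G.Adj 2 3 by decide) <| .cons (show G.Adj 3 4 by decide) <|
  .cons (show G.Adj 4 5 by decide) <| .cons (show G.Adj 5 6 by decide) <|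
  .cons (show G.Adj 6 0 by decide) .nil

theorem c_cycle : c.IsCycle := by
  rw [SimpleGraph.Walk.isCycle_def]
  refine ⟨?_, ?_, ?_⟩
  · rw [SimpleGraph.Walk.isTrail_def]
    simp only [c, SimpleGraph.Walk.edges_cons, SimpleGraph.Walk.edges_nil]
    decide
  · intro h
    have := congrArg SimpleGraph.Walk.length h
    simp [c] at this
  · simp only [c, SimpleGraph.Walk.support_cons, SimpleGraph.Walk.support_nil, List.tail_cons]
    decide

theorem c_darts (i : Fin 7) : ∃ d ∈ c.darts, d.fst = i ∧ d.snd = i + 1 := by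
  fin_cases i <;> simp [c]

theorem main : ¬ (∀ (V : Type) [Fintype V] [DecidableEq V] (G : SimpleGraph V),
      (∃ g : V → (Fin 3 → ℝ), Function.Injective g ∧
        (interior (convexHull ℝ (Set.range g))).Nonempty ∧
        (∀ v, g v ∈ Set.extremePoints ℝ (convexHull ℝ (Set.range g))) ∧
        (∀ u v, G.Adj u v ↔
          (u ≠ v ∧ IsExtreme ℝ (convexHull ℝ (Set.range g)) (segment ℝ (g u) (g v))))) →
      ∀ (v : V) (c : G.Walk v v), c.IsCycle →
      ∀ (T : Finset (Fin 2 → ℝ)), T.card = c.length →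
        (∀ t ∈ T, t ∉ convexHull ℝ ((T : Set (Fin 2 → ℝ)) \ {t})) →
        ∃ f : V → (Fin 3 → ℝ), Function.Injective f ∧
          (interior (convexHull ℝ (Set.range f))).Nonempty ∧
          (∀ w, f w ∈ Set.extremePoints ℝ (convexHull ℝ (Set.range f))) ∧
          (∀ u w, G.Adj u w ↔
            (u ≠ w ∧ IsExtreme ℝ (convexHull ℝ (Set.range f)) (segment ℝ (f u) (f w)))) ∧
          (fun p : Fin 3 → ℝ => ![p 0, p 1]) '' convexHull ℝ (Set.range f)
            = convexHull ℝ (T : Set (Fin 2 → ℝ)) ∧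
          ((fun p : Fin 3 → ℝ => ![p 0, p 1]) ⁻¹' frontier (convexHull ℝ (T : Set (Fin 2 → ℝ))))
              ∩ convexHull ℝ (Set.range f)
            = ⋃ d ∈ c.darts, segment ℝ (f d.fst) (f d.snd)) := by
  classical
  intro H
  have hT : ((Finset.univ.image t : Finset (Fin 2 → ℝ)) : Set (Fin 2 → ℝ)) = range t := by
    simp
  obtain ⟨f, hinj, _, hext, hadj, hproj, hfr⟩ := H (Fin 7) G
    ⟨g, g_inj, interior_g, g_extreme, g_adj⟩ 0 c c_cycle (Finset.univ.image t)
    (by rw [Finset.card_image_of_injective _ t_inj]; rfl)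
    (by
      intro x hx
      obtain ⟨j, _, rfl⟩ := Finset.mem_image.1 hx
      intro hmem
      rw [hT] at hmem
      have hsub : convexHull ℝ (range t \ {t j}) ⊆ {p | fn j p < fn j (t j)} := by
        refine convexHull_min ?_ (convex_halfSpace_lt (fn j).isLinear _)
        rintro _ ⟨⟨w, rfl⟩, hw⟩
        have : w ≠ j := fun h => hw (by rw [h]; rfl)
        exact fn_lt j w this
      have hcon : fn j (t j) < fn j (t j) := hsub hmem
      exact lt_irrefl _ hcon)
  rw [hT] at hproj hfr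
  refine no_f f hinj hext (fun u w h => ((hadj u w).1 h).2) hproj ?_
  intro i x hx
  obtain ⟨d, hd, h1, h2⟩ := c_darts i
  have : x ∈ ⋃ d ∈ c.darts, segment ℝ (f d.fst) (f d.snd) := by
    simp only [mem_iUnion]
    exact ⟨d, hd, by rw [h1, h2]; exact hx⟩
  rw [← hfr] at this
  exact this.1

end Pool.Agent.H12Shadow
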