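import Pool.Agent.H12TensorDefs

set_option autoImplicit false
set_option linter.unusedSectionVars false

open Finset

namespace Pool.Agent.H12Tensor

/-! ### The bias of a 4-tensor -/

section Bias

variable {ι : Type} [Fintype ι] [DecidableEq ι] {F : Type} [Field F]

/-- coefficients of the linear form in the last variable -/
def sl (T : (Fin 4 → ι) → F) (x y z : ι → F) (l : ι) : F :=
  ∑ i, ∑ j, ∑ k, T ![i, j, k, l] * x i * y j * z k

/-- number of triples killing the last variable -/
def Z [Fintype F] [DecidableEq F] (T : (Fin 4 → ι) → F) : ℕ :=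
  ((Finset.univ : Finset ((ι → F) × (ι → F) × (ι → F))).filter
    (fun q => ∀ l, sl T q.1 q.2.1 q.2.2 l = 0)).card

def e4 (β : Type) : β × β × β × β ≃ (Fin 4 → β) where
  toFun q := ![q.1, q.2.1, q.2.2.1, q.2.2.2]
  invFun f := (f 0, f 1, f 2, f 3)
  left_inv q := rfl
  right_inv f := by
    funext i
    fin_cases i <;> rfl

theorem form_eq (A : (Fin 4 → ι) → F) (x y z w : ι → F) :
    form A ![x, y, z, w] = ∑ l, w l * sl A x y z l := by
  unfold form
  rw [← (e4 ι).sum_comp]
  rw [Fintype.sum_prod_type]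
  simp only [Fintype.sum_prod_type]
  have h1 : ∀ i j k l : ι, A ((e4 ι) (i, j, k, l)) * ∏ k_1 : Fin 4, ![x, y, z, w] k_1
      ((e4 ι) (i, j, k, l) k_1) = w l * (A ![i, j, k, l] * x i * y j * z k) := by
    intro i j k l
    rw [Fin.prod_univ_four]
    simp only [e4, Equiv.coe_fn_mk, Matrix.cons_val_zero, Matrix.cons_val_one, Matrix.cons_val]
    ring
  simp only [h1]
  unfold sl
  simp only [Finset.mul_sum]
  -- move the outer sum over `l` inside
  rw [Finset.sum_comm' (s := (Finset.univ : Finset ι)) (t := fun _ => (Finset.univ : Finset ι))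
    (t' := Finset.univ) (s' := fun _ => Finset.univ)
    (f := fun l i => ∑ j, ∑ k, w l * (A ![i, j, k, l] * x i * y j * z k)) (by simp)]
  refine Finset.sum_congr rfl fun i _ => ?_
  rw [Finset.sum_comm (s := (Finset.univ : Finset ι)) (t := (Finset.univ : Finset ι))
    (f := fun l j => ∑ k, w l * (A ![i, j, k, l] * x i * y j * z k))]
  refine Finset.sum_congr rfl fun j _ => ?_
  rw [Finset.sum_comm]

theorem ac_sum {R : Type} [AddCommMonoid R] (ψ : AddChar R ℂ) (s : Finset ι) (f : ι → R) :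
    ψ (∑ i ∈ s, f i) = ∏ i ∈ s, ψ (f i) := by
  induction s using Finset.induction_on with
  | empty => simp
  | insert a s ha ih => rw [Finset.sum_insert ha, Finset.prod_insert ha, AddChar.map_add_eq_mul, ih]

theorem char_sum {p : ℕ} [Fact p.Prime] (c : ι → ZMod p) [Decidable (c = 0)] :
    ∑ w : ι → ZMod p, ZMod.stdAddChar (∑ l, w l * c l) =
      if c = 0 then (Fintype.card (ι → ZMod p) : ℂ) else 0 := by
  have h1 : ∀ w : ι → ZMod p, (ZMod.stdAddChar (∑ l, w l * c l) : ℂ) =
      ∏ l, ZMod.stdAddChar (w l * c l) := by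
    intro w
    exact ac_sum _ _ _
  simp only [h1]
  have h2 := Finset.prod_univ_sum (t := fun _ : ι => (Finset.univ : Finset (ZMod p)))
    (f := fun l (t : ZMod p) => (ZMod.stdAddChar (t * c l) : ℂ))
  rw [Fintype.piFinset_univ] at h2
  rw [← h2]
  have h3 : ∀ l, ∑ t : ZMod p, (ZMod.stdAddChar (t * c l) : ℂ) =
      if c l = 0 then (Fintype.card (ZMod p) : ℂ) else 0 := fun l => by
    have := AddChar.sum_mulShift (c l) (ZMod.isPrimitive_stdAddChar p)
    rw [this]
    split_ifs <;> simp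
  simp only [h3]
  by_cases hc : c = 0
  · rw [if_pos hc, hc]
    simp
  · rw [if_neg hc]
    obtain ⟨l, hl⟩ := Function.ne_iff.1 hc
    refine Finset.prod_eq_zero (Finset.mem_univ l) ?_
    exact if_neg hl

theorem bias_eq {p : ℕ} [Fact p.Prime] (A : (Fin 4 → ι) → ZMod p) :
    bias A = (Z A : ℝ) / (Fintype.card (ι → ZMod p) : ℝ) ^ 3 := by
  classical
  unfold bias
  have hexp : ∀ a : ZMod p, Complex.exp (2 * Real.pi * Complex.I * (a.val : ℂ) / p) =
      ZMod.stdAddChar a := by
    intro a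
    rw [ZMod.stdAddChar_apply, ZMod.toCircle_apply]
  simp only [hexp]
  rw [← (e4 (ι → ZMod p)).sum_comp]
  have h1 : ∀ q : (ι → ZMod p) × (ι → ZMod p) × (ι → ZMod p) × (ι → ZMod p),
      (ZMod.stdAddChar (form A ((e4 (ι → ZMod p)) q)) : ℂ) =
      ZMod.stdAddChar (∑ l, q.2.2.2 l * sl A q.1 q.2.1 q.2.2.1 l) := by
    intro q
    rw [← form_eq]
    rfl
  simp only [h1, Fintype.sum_prod_type]
  have h2 : ∀ x y z : ι → ZMod p,
      ∑ w : ι → ZMod p, (ZMod.stdAddChar (∑ l, w l * sl A x y z l) : ℂ) =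
      if ∀ l, sl A x y z l = 0 then (Fintype.card (ι → ZMod p) : ℂ) else 0 := by
    intro x y z
    rw [char_sum (sl A x y z)]
    refine if_congr ?_ rfl rfl
    exact ⟨fun h l => congrFun h l, fun h => funext h⟩
  simp only [h2]
  have h3 : ∑ x : ι → ZMod p, ∑ y : ι → ZMod p, ∑ z : ι → ZMod p,
      (if ∀ l, sl A x y z l = 0 then (Fintype.card (ι → ZMod p) : ℂ) else 0) =
      (Z A : ℂ) * (Fintype.card (ι → ZMod p) : ℂ) := by
    unfold Z
    rw [Finset.card_filter]
    push_cast
    rw [Finset.sum_mul, Fintype.sum_prod_type]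
    simp only [Fintype.sum_prod_type]
    refine Finset.sum_congr rfl fun x _ => Finset.sum_congr rfl fun y _ =>
      Finset.sum_congr rfl fun z _ => ?_
    split_ifs <;> simp
  rw [h3]
  have hV : (Fintype.card (ι → ZMod p) : ℝ) ≠ 0 := by
    exact_mod_cast Fintype.card_ne_zero
  have h4 : (Fintype.card (Fin 4 → ι → ZMod p) : ℂ) = (Fintype.card (ι → ZMod p) : ℂ) ^ 4 := by
    rw [Fintype.card_fun (α := Fin 4)]
    simp
  rw [h4]
  have h5 : ((Z A : ℂ) * (Fintype.card (ι → ZMod p) : ℂ)) / (Fintype.card (ι → ZMod p) : ℂ) ^ 4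
      = (((Z A : ℝ) / (Fintype.card (ι → ZMod p) : ℝ) ^ 3 : ℝ) : ℂ) := by
    push_cast
    have hV' : (Fintype.card (ι → ZMod p) : ℂ) ≠ 0 := by
      exact_mod_cast Fintype.card_ne_zero
    field_simp
  rw [h5, Complex.ofReal_re]

end Bias

/-! ### Partition rank bounds analytic rank -/

section Part

variable {ι : Type} [Fintype ι] [DecidableEq ι] {F : Type} [Field F]

/-- the three possible types of a term -/
theorem part_types {B : (Fin 4 → ι) → F} (h : IsPartTerm B) (o : ι) :
    (∃ c : ι → F, ∀ x y z : ι → F, ∑ i, x i * c i = 0 → ∀ l, sl B x y z l = 0) ∨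
    (∃ c : (ι → F) → ι → F, ∀ x y z : ι → F, ∑ j, y j * c x j = 0 → ∀ l, sl B x y z l = 0) ∨
    (∃ c : (ι → F) → (ι → F) → ι → F, ∀ x y z : ι → F, ∑ k, z k * c x y k = 0 →
      ∀ l, sl B x y z l = 0) := by
  classical
  -- we may assume that `3 ∉ S`
  obtain ⟨S, G, H, hS1, h3, hG, hH, hB⟩ : ∃ (S : Finset (Fin 4)) (G H : (Fin 4 → ι) → F),
      S.Nonempty ∧ (3 : Fin 4) ∉ S ∧
      (∀ I I', (∀ k ∈ S, I k = I' k) → G I = G I') ∧
      (∀ I I', (∀ k, k ∉ S → I k = I' k) → H I = H I') ∧ ∀ I, B I = G I * H I := by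
    obtain ⟨S, G, H, hS1, hS2, hG, hH, hB⟩ := h
    by_cases h3 : (3 : Fin 4) ∈ S
    · refine ⟨Sᶜ, H, G, ?_, by simpa using h3, ?_, ?_, fun I => by rw [hB, mul_comm]⟩
      · rw [Finset.nonempty_iff_ne_empty, Ne, Finset.compl_eq_empty_iff]
        exact hS2
      · intro I I' hI
        exact hH I I' fun k hk => hI k (Finset.mem_compl.2 hk)
      · intro I I' hI
        exact hG I I' fun k hk => hI k (by simpa using hk)
    · exact ⟨S, G, H, hS1, h3, hG, hH, hB⟩
  by_cases h0 : (0 : Fin 4) ∈ S <;> by_cases h1 : (1 : Fin 4) ∈ S <;>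
    by_cases h2 : (2 : Fin 4) ∈ S
  · -- {0,1,2}
    right; right
    have eG : ∀ i j k l, G ![i, j, k, l] = G ![i, j, k, o] := by
      intro i j k l
      apply hG
      intro t ht
      fin_cases t <;> first | rfl | exact absurd ht h3
    have eH : ∀ i j k l, H ![i, j, k, l] = H ![o, o, o, l] := by
      intro i j k l
      apply hH
      intro t ht
      fin_cases t <;> first | rfl | exact absurd h0 ht | exact absurd h1 ht | exact absurd h2 ht
    refine ⟨fun x y k => ∑ i, ∑ j, G ![i, j, k, o] * x i * y j, fun x y z hc l => ?_⟩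
    unfold sl
    have e1 : ∀ i j k, B ![i, j, k, l] * x i * y j * z k =
        H ![o, o, o, l] * (z k * (G ![i, j, k, o] * x i * y j)) := by
      intro i j k
      rw [hB, eG, eH]
      ring
    simp only [e1, ← Finset.mul_sum]
    simp only [Finset.mul_sum] at hc ⊢
    have e2 : ∑ i, ∑ j, ∑ k, H ![o, o, o, l] * (z k * (G ![i, j, k, o] * x i * y j)) =
        H ![o, o, o, l] * ∑ k, ∑ i, ∑ j, z k * (G ![i, j, k, o] * x i * y j) := by
      rw [Finset.sum_comm (s := (Finset.univ : Finset ι)) (t := (Finset.univ : Finset ι))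
        (f := fun k i => ∑ j, z k * (G ![i, j, k, o] * x i * y j))]
      simp only [Finset.mul_sum]
      refine Finset.sum_congr rfl fun i _ => ?_
      rw [Finset.sum_comm]
    rw [e2, hc, mul_zero]
  · -- {0,1}
    right; left
    have eG : ∀ i j k l, G ![i, j, k, l] = G ![i, j, o, o] := by
      intro i j k l
      apply hG
      intro t ht
      fin_cases t <;> first | rfl | exact absurd ht h3 | exact absurd ht h2
    have eH : ∀ i j k l, H ![i, j, k, l] = H ![o, o, k, l] := by
      intro i j k l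
      apply hH
      intro t ht
      fin_cases t <;> first | rfl | exact absurd h0 ht | exact absurd h1 ht
    refine ⟨fun x j => ∑ i, G ![i, j, o, o] * x i, fun x y z hc l => ?_⟩
    unfold sl
    have e1 : ∀ i j k, B ![i, j, k, l] * x i * y j * z k =
        (y j * (G ![i, j, o, o] * x i)) * (H ![o, o, k, l] * z k) := by
      intro i j k
      rw [hB, eG, eH]
      ring
    simp only [e1, ← Finset.mul_sum, ← Finset.sum_mul]
    simp only [Finset.mul_sum] at hc
    rw [Finset.sum_comm] at hc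
    rw [hc, zero_mul]
  · -- {0,2}
    right; right
    have eG : ∀ i j k l, G ![i, j, k, l] = G ![i, o, k, o] := by
      intro i j k l
      apply hG
      intro t ht
      fin_cases t <;> first | rfl | exact absurd ht h3 | exact absurd ht h1
    have eH : ∀ i j k l, H ![i, j, k, l] = H ![o, j, o, l] := by
      intro i j k l
      apply hH
      intro t ht
      fin_cases t <;> first | rfl | exact absurd h0 ht | exact absurd h2 ht
    refine ⟨fun x y k => ∑ i, G ![i, o, k, o] * x i, fun x y z hc l => ?_⟩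
    unfold sl
    have e1 : ∀ i j k, B ![i, j, k, l] * x i * y j * z k =
        (H ![o, j, o, l] * y j) * (z k * (G ![i, o, k, o] * x i)) := by
      intro i j k
      rw [hB, eG, eH]
      ring
    simp only [e1]
    simp only [Finset.mul_sum] at hc
    rw [Finset.sum_comm] at hc
    rw [Finset.sum_comm]
    refine Finset.sum_eq_zero fun j _ => ?_
    simp only [← Finset.mul_sum]
    rw [hc, mul_zero]
  · -- {0}
    left
    have eG : ∀ i j k l, G ![i, j, k, l] = G ![i, o, o, o] := by
      intro i j k l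
      apply hG
      intro t ht
      fin_cases t <;> first | rfl | exact absurd ht h3 | exact absurd ht h1 | exact absurd ht h2
    have eH : ∀ i j k l, H ![i, j, k, l] = H ![o, j, k, l] := by
      intro i j k l
      apply hH
      intro t ht
      fin_cases t <;> first | rfl | exact absurd h0 ht
    refine ⟨fun i => G ![i, o, o, o], fun x y z hc l => ?_⟩
    unfold sl
    have e1 : ∀ i j k, B ![i, j, k, l] * x i * y j * z k =
        (x i * G ![i, o, o, o]) * (H ![o, j, k, l] * y j * z k) := by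
      intro i j k
      rw [hB, eG, eH]
      ring
    simp only [e1, ← Finset.mul_sum, ← Finset.sum_mul]
    rw [hc, zero_mul]
  · -- {1,2}
    right; right
    have eG : ∀ i j k l, G ![i, j, k, l] = G ![o, j, k, o] := by
      intro i j k l
      apply hG
      intro t ht
      fin_cases t <;> first | rfl | exact absurd ht h3 | exact absurd ht h0
    have eH : ∀ i j k l, H ![i, j, k, l] = H ![i, o, o, l] := by
      intro i j k l
      apply hH
      intro t ht
      fin_cases t <;> first | rfl | exact absurd h1 ht | exact absurd h2 ht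
    refine ⟨fun x y k => ∑ j, G ![o, j, k, o] * y j, fun x y z hc l => ?_⟩
    unfold sl
    have e1 : ∀ i j k, B ![i, j, k, l] * x i * y j * z k =
        (H ![i, o, o, l] * x i) * (z k * (G ![o, j, k, o] * y j)) := by
      intro i j k
      rw [hB, eG, eH]
      ring
    simp only [e1, ← Finset.mul_sum]
    simp only [Finset.mul_sum] at hc
    rw [Finset.sum_comm] at hc
    refine Finset.sum_eq_zero fun i _ => ?_
    have e2 : ∑ j, ∑ k, z k * (G ![o, j, k, o] * y j) = 0 := hc
    rw [e2, mul_zero]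
  · -- {1}
    right; left
    have eG : ∀ i j k l, G ![i, j, k, l] = G ![o, j, o, o] := by
      intro i j k l
      apply hG
      intro t ht
      fin_cases t <;> first | rfl | exact absurd ht h3 | exact absurd ht h0 | exact absurd ht h2
    have eH : ∀ i j k l, H ![i, j, k, l] = H ![i, o, k, l] := by
      intro i j k l
      apply hH
      intro t ht
      fin_cases t <;> first | rfl | exact absurd h1 ht
    refine ⟨fun x j => G ![o, j, o, o], fun x y z hc l => ?_⟩
    unfold sl
    have e1 : ∀ i j k, B ![i, j, k, l] * x i * y j * z k =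
        (y j * G ![o, j, o, o]) * (H ![i, o, k, l] * x i * z k) := by
      intro i j k
      rw [hB, eG, eH]
      ring
    simp only [e1, ← Finset.mul_sum]
    refine Finset.sum_eq_zero fun i _ => ?_
    rw [← Finset.sum_mul, hc, zero_mul]
  · -- {2}
    right; right
    have eG : ∀ i j k l, G ![i, j, k, l] = G ![o, o, k, o] := by
      intro i j k l
      apply hG
      intro t ht
      fin_cases t <;> first | rfl | exact absurd ht h3 | exact absurd ht h0 | exact absurd ht h1
    have eH : ∀ i j k l, H ![i, j, k, l] = H ![i, j, o, l] := by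
      intro i j k l
      apply hH
      intro t ht
      fin_cases t <;> first | rfl | exact absurd h2 ht
    refine ⟨fun x y k => G ![o, o, k, o], fun x y z hc l => ?_⟩
    unfold sl
    have e1 : ∀ i j k, B ![i, j, k, l] * x i * y j * z k =
        (H ![i, j, o, l] * x i * y j) * (z k * G ![o, o, k, o]) := by
      intro i j k
      rw [hB, eG, eH]
      ring
    simp only [e1, ← Finset.mul_sum]
    rw [hc]
    simp
  · -- empty
    exfalso
    obtain ⟨t, ht⟩ := hS1
    fin_cases t
    · exact h0 ht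
    · exact h1 ht
    · exact h2 ht
    · exact h3 ht

end Part

section Count

variable {ι : Type} [Fintype ι] [DecidableEq ι] {F : Type} [Field F] [Fintype F] [DecidableEq F]

/-- common zeros of `|J|` linear functionals -/
theorem lin_count {κ : Type} [DecidableEq κ] (J : Finset κ) (c : κ → ι → F) :
    Fintype.card (ι → F) ≤ Fintype.card F ^ J.card *
      (Finset.univ.filter (fun x : ι → F => ∀ j ∈ J, ∑ i, x i * c j i = 0)).card := by
  classical
  set K := Finset.univ.filter (fun x : ι → F => ∀ j ∈ J, ∑ i, x i * c j i = 0) with hK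
  let Φ : (ι → F) → (J → F) := fun x j => ∑ i, x i * c j i
  have hfib : ∀ t : J → F, (Finset.univ.filter (fun x => Φ x = t)).card ≤ K.card := by
    intro t
    by_cases hne : (Finset.univ.filter (fun x => Φ x = t)).Nonempty
    · obtain ⟨x0, hx0⟩ := hne
      have hx0' : Φ x0 = t := (Finset.mem_filter.1 hx0).2
      refine Finset.card_le_card_of_injOn (fun x => x - x0) ?_ ?_
      · intro x hx
        have hx' : Φ x = t := (Finset.mem_filter.1 (Finset.mem_coe.1 hx)).2
        refine Finset.mem_coe.2 (Finset.mem_filter.2 ⟨Finset.mem_univ _, fun j hj => ?_⟩)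
        have h1 := congrFun hx' ⟨j, hj⟩
        have h2 := congrFun hx0' ⟨j, hj⟩
        simp only [Φ] at h1 h2
        simp only [Pi.sub_apply, sub_mul, Finset.sum_sub_distrib]
        rw [h1, h2, sub_self]
      · intro x _ y _ hxy
        exact sub_left_injective hxy
    · rw [Finset.not_nonempty_iff_eq_empty.1 hne]
      simp
  have h1 : Fintype.card (ι → F) = ∑ t : J → F, (Finset.univ.filter (fun x => Φ x = t)).card := by
    rw [← Finset.card_univ]
    exact Finset.card_eq_sum_card_fiberwise (fun x _ => Finset.mem_coe.2 (Finset.mem_univ (Φ x)))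
  rw [h1]
  calc ∑ t : J → F, (Finset.univ.filter (fun x => Φ x = t)).card ≤ ∑ _t : J → F, K.card :=
        Finset.sum_le_sum fun t _ => hfib t
    _ = Fintype.card F ^ J.card * K.card := by
        rw [Finset.sum_const, Finset.card_univ, Fintype.card_fun, Fintype.card_coe, smul_eq_mul]

theorem Z_lower (T : (Fin 4 → ι) → F) (o : ι) (r : ℕ) (B : Fin r → (Fin 4 → ι) → F)
    (hB : ∀ j, IsPartTerm (B j)) (hT : ∀ I, T I = ∑ j, B j I) :
    Fintype.card (ι → F) ^ 3 ≤ Fintype.card F ^ r * Z T := by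
  classical
  let PX : Fin r → Prop := fun j => ∃ c : ι → F, ∀ x y z : ι → F, ∑ i, x i * c i = 0 →
    ∀ l, sl (B j) x y z l = 0
  let PY : Fin r → Prop := fun j => ∃ c : (ι → F) → ι → F, ∀ x y z : ι → F,
    ∑ i, y i * c x i = 0 → ∀ l, sl (B j) x y z l = 0
  let PZ : Fin r → Prop := fun j => ∃ c : (ι → F) → (ι → F) → ι → F, ∀ x y z : ι → F,
    ∑ k, z k * c x y k = 0 → ∀ l, sl (B j) x y z l = 0
  have htype : ∀ j, PX j ∨ PY j ∨ PZ j := fun j => part_types (hB j) o
  let cX : Fin r → ι → F := fun j => if h : PX j then h.choose else 0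
  let cY : Fin r → (ι → F) → ι → F := fun j => if h : PY j then h.choose else 0
  let cZ : Fin r → (ι → F) → (ι → F) → ι → F := fun j => if h : PZ j then h.choose else 0
  set JX := Finset.univ.filter PX with hJX
  set JY := Finset.univ.filter (fun j => ¬ PX j ∧ PY j) with hJY
  set JZ := Finset.univ.filter (fun j => ¬ PX j ∧ ¬ PY j) with hJZ
  have hcard : JX.card + (JY.card + JZ.card) = r := by
    have h1 : JX.card + (Finset.univ.filter (fun j => ¬ PX j)).card = (Finset.univ : Finset (Fin r)).card :=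
      Finset.card_filter_add_card_filter_not _
    have h2 : JY.card + JZ.card = (Finset.univ.filter (fun j => ¬ PX j)).card := by
      rw [hJY, hJZ, ← Finset.filter_filter, ← Finset.filter_filter]
      exact Finset.card_filter_add_card_filter_not _
    rw [h2, h1, Finset.card_univ, Fintype.card_fin]
  set SX := Finset.univ.filter (fun x : ι → F => ∀ j ∈ JX, ∑ i, x i * cX j i = 0) with hSX
  let SY : (ι → F) → Finset (ι → F) := fun x =>
    Finset.univ.filter (fun y : ι → F => ∀ j ∈ JY, ∑ i, y i * cY j x i = 0)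
  let SZ : (ι → F) → (ι → F) → Finset (ι → F) := fun x y =>
    Finset.univ.filter (fun z : ι → F => ∀ j ∈ JZ, ∑ i, z i * cZ j x y i = 0)
  have hZ : ∑ x ∈ SX, ∑ y ∈ SY x, (SZ x y).card ≤ Z T := by
    have h1 : ∑ x ∈ SX, ∑ y ∈ SY x, (SZ x y).card =
        (SX.sigma (fun x => (SY x).sigma (fun y => SZ x y))).card := by
      rw [Finset.card_sigma]
      refine Finset.sum_congr rfl fun x _ => ?_
      rw [Finset.card_sigma]
    rw [h1]
    unfold Z
    refine Finset.card_le_card_of_injOn (fun q => (q.1, q.2.1, q.2.2)) ?_ ?_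
    · rintro ⟨x, y, z⟩ hq
      rw [Finset.mem_coe, Finset.mem_sigma] at hq
      obtain ⟨hx, hq⟩ := hq
      rw [Finset.mem_sigma] at hq
      obtain ⟨hy, hz⟩ := hq
      simp only at hx hy hz
      refine Finset.mem_coe.2 (Finset.mem_filter.2 ⟨Finset.mem_univ _, fun l => ?_⟩)
      simp only
      have hsum : sl T x y z l = ∑ j, sl (B j) x y z l := by
        unfold sl
        simp only [hT, Finset.sum_mul]
        rw [Finset.sum_comm' (s := (Finset.univ : Finset (Fin r)))
          (t := fun _ => (Finset.univ : Finset ι)) (t' := Finset.univ)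
          (s' := fun _ => Finset.univ)
          (f := fun q i => ∑ j, ∑ k, B q ![i, j, k, l] * x i * y j * z k) (by simp)]
        refine Finset.sum_congr rfl fun i _ => ?_
        rw [Finset.sum_comm (s := (Finset.univ : Finset (Fin r))) (t := (Finset.univ : Finset ι))
          (f := fun q j => ∑ k, B q ![i, j, k, l] * x i * y j * z k)]
        refine Finset.sum_congr rfl fun j _ => ?_
        rw [Finset.sum_comm]
      rw [hsum]
      refine Finset.sum_eq_zero fun j _ => ?_
      by_cases hX : PX j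
      · have h2 := (Finset.mem_filter.1 hx).2 j (Finset.mem_filter.2 ⟨Finset.mem_univ _, hX⟩)
        simp only [cX, dif_pos hX] at h2
        exact hX.choose_spec x y z h2 l
      · by_cases hY : PY j
        · have h2 := (Finset.mem_filter.1 hy).2 j (Finset.mem_filter.2 ⟨Finset.mem_univ _, hX, hY⟩)
          simp only [cY, dif_pos hY] at h2
          exact hY.choose_spec x y z h2 l
        · have hZ' : PZ j := by
            rcases htype j with h | h | h
            · exact absurd h hX
            · exact absurd h hY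
            · exact h
          have h2 := (Finset.mem_filter.1 hz).2 j (Finset.mem_filter.2 ⟨Finset.mem_univ _, hX, hY⟩)
          simp only [cZ, dif_pos hZ'] at h2
          exact hZ'.choose_spec x y z h2 l
    · rintro ⟨x, y, z⟩ _ ⟨x', y', z'⟩ _ h
      simp only [Prod.mk.injEq] at h
      obtain ⟨rfl, rfl, rfl⟩ := h
      rfl
  set V := Fintype.card (ι → F) with hV
  set Q := Fintype.card F with hQ
  have k1 : V ≤ Q ^ JX.card * SX.card := by convert lin_count JX cX
  have k2 : ∀ x, V ≤ Q ^ JY.card * (SY x).card := fun x => by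
    convert lin_count JY (fun j => cY j x)
  have k3 : ∀ x y, V ≤ Q ^ JZ.card * (SZ x y).card := fun x y => by
    convert lin_count JZ (fun j => cZ j x y)
  calc V ^ 3 = V * V * V := by ring
    _ ≤ (Q ^ JX.card * SX.card) * V * V :=
        Nat.mul_le_mul_right _ (Nat.mul_le_mul_right _ k1)
    _ = Q ^ JX.card * ∑ _x ∈ SX, V * V := by
        rw [Finset.sum_const, smul_eq_mul]; ring
    _ ≤ Q ^ JX.card * ∑ x ∈ SX, (Q ^ JY.card * (SY x).card) * V :=
        Nat.mul_le_mul_left _ (Finset.sum_le_sum fun x _ => Nat.mul_le_mul_right _ (k2 x))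
    _ = Q ^ JX.card * (Q ^ JY.card * ∑ x ∈ SX, ∑ _y ∈ SY x, V) := by
        congr 1
        rw [Finset.mul_sum]
        refine Finset.sum_congr rfl fun x _ => ?_
        rw [Finset.sum_const, smul_eq_mul]; ring
    _ ≤ Q ^ JX.card * (Q ^ JY.card * ∑ x ∈ SX, ∑ y ∈ SY x, Q ^ JZ.card * (SZ x y).card) :=
        Nat.mul_le_mul_left _ (Nat.mul_le_mul_left _ (Finset.sum_le_sum fun x _ =>
          Finset.sum_le_sum fun y _ => k3 x y))
    _ = Q ^ r * ∑ x ∈ SX, ∑ y ∈ SY x, (SZ x y).card := by
        have hQr : Q ^ r = Q ^ JX.card * (Q ^ JY.card * Q ^ JZ.card) := by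
          rw [← pow_add, ← pow_add, hcard]
        rw [hQr]
        simp only [← Finset.mul_sum]
        ring
    _ ≤ Q ^ r * Z T := Nat.mul_le_mul_left _ hZ

end Count

section Cyc

variable {R C : Type} [Fintype R] [DecidableEq R] [Fintype C] [DecidableEq C]
  {F : Type} [Field F] [Fintype F] [DecidableEq F]

open Classical in
/-- matrices without `ρ` independent rows -/
noncomputable def low (R C F : Type) [Fintype R] [DecidableEq R] [Fintype C] [DecidableEq C]
    [Field F] [Fintype F] (ρ : ℕ) : Finset (R × C → F) :=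
  Finset.univ.filter (fun y => ¬ ∃ e : Fin ρ → R, LinearIndependent F (fun i c => y (e i, c)))

theorem low_count (ρ : ℕ) : (low R C F ρ).card ≤
    Fintype.card F ^ (Fintype.card R * ρ + ρ * Fintype.card C) := by
  classical
  have hsub : low R C F ρ ⊆ Finset.univ.image
      (fun q : (R → Fin ρ → F) × (Fin ρ → C → F) => fun rc : R × C => ∑ i, q.1 rc.1 i * q.2 i rc.2) := by
    intro y hy
    have hy' := (Finset.mem_filter.1 hy).2
    set s : Set (C → F) := Set.range (fun r c => y (r, c)) with hs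
    obtain ⟨f, hf1, hf2, hf3⟩ := Submodule.exists_fun_fin_finrank_span_eq F s
    have hlt : Module.finrank F (Submodule.span F s) < ρ := by
      by_contra hcon
      push Not at hcon
      apply hy'
      choose g hg using hf1
      refine ⟨fun i => g (Fin.castLE hcon i), ?_⟩
      have h1 : (fun (i : Fin ρ) c => y (g (Fin.castLE hcon i), c)) = f ∘ Fin.castLE hcon := by
        funext i
        exact hg _
      rw [h1]
      exact hf3.comp _ (Fin.castLE_injective hcon)
    let D : Fin ρ → C → F := fun i => if h : i.1 < Module.finrank F (Submodule.span F s) then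
      f ⟨i.1, h⟩ else 0
    have hD : ∀ r, (fun c => y (r, c)) ∈ Submodule.span F (Set.range D) := by
      intro r
      have h1 : (fun c => y (r, c)) ∈ Submodule.span F s := Submodule.subset_span ⟨r, rfl⟩
      rw [← hf2] at h1
      refine Submodule.span_mono ?_ h1
      rintro _ ⟨i, rfl⟩
      refine ⟨⟨i.1, i.2.trans hlt⟩, ?_⟩
      simp only [D, dif_pos i.2]
    have hc : ∀ r, ∃ c : Fin ρ → F, ∑ i, c i • D i = fun c => y (r, c) := fun r =>
      (Submodule.mem_span_range_iff_exists_fun F).1 (hD r)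
    choose B hB using hc
    refine Finset.mem_image.2 ⟨(B, D), Finset.mem_univ _, ?_⟩
    funext rc
    have h1 := congrFun (hB rc.1) rc.2
    simp only [Finset.sum_apply, Pi.smul_apply, smul_eq_mul] at h1
    exact h1
  refine (Finset.card_le_card hsub).trans (Finset.card_image_le.trans ?_)
  rw [Finset.card_univ, Fintype.card_prod, Fintype.card_fun, Fintype.card_fun, Fintype.card_fun,
    Fintype.card_fun, Fintype.card_fin, ← pow_mul, ← pow_mul, ← pow_add]
  refine Nat.pow_le_pow_right Fintype.card_pos ?_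
  rw [mul_comm (Fintype.card R) ρ, mul_comm ρ (Fintype.card C)]

/-- `z xᵀ y`, as a function -/
def Phi (x y z : R × C → F) (r4 : R) (c4 : C) : F :=
  ∑ c, ∑ r, z (r4, c) * x (r, c) * y (r, c4)

theorem Phi_sub (x x' y z : R × C → F) (r4 : R) (c4 : C) :
    Phi (x - x') y z r4 c4 = Phi x y z r4 c4 - Phi x' y z r4 c4 := by
  unfold Phi
  rw [← Finset.sum_sub_distrib]
  refine Finset.sum_congr rfl fun c _ => ?_
  rw [← Finset.sum_sub_distrib]
  refine Finset.sum_congr rfl fun r _ => ?_
  rw [Pi.sub_apply]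
  ring

theorem ker_count (ρ : ℕ) (y z : R × C → F) (hy : y ∉ low R C F ρ)
    (hz : (fun q : C × R => z q.swap) ∉ low C R F ρ) :
    Fintype.card F ^ (ρ * ρ) *
      (Finset.univ.filter (fun x : R × C → F => ∀ r c, Phi x y z r c = 0)).card ≤
      Fintype.card (R × C → F) := by
  classical
  have hy' : ∃ e : Fin ρ → R, LinearIndependent F (fun i c => y (e i, c)) := by
    by_contra h
    exact hy (Finset.mem_filter.2 ⟨Finset.mem_univ _, h⟩)
  have hz' : ∃ e : Fin ρ → C, LinearIndependent F (fun i r => z (r, e i)) := by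
    by_contra h
    exact hz (Finset.mem_filter.2 ⟨Finset.mem_univ _, h⟩)
  obtain ⟨e', he'⟩ := hy'
  obtain ⟨e, he⟩ := hz'
  let inc : (Fin ρ → Fin ρ → F) → (R × C → F) := fun w rc =>
    ∑ i, ∑ j, w i j * ((if rc.1 = e' i then 1 else 0) * (if rc.2 = e j then 1 else 0))
  have hinc_sub : ∀ w w', inc (w - w') = inc w - inc w' := by
    intro w w'
    funext rc
    simp only [inc, Pi.sub_apply, sub_mul, Finset.sum_sub_distrib]
  have hPhi : ∀ w r4 c4, Phi (inc w) y z r4 c4 = ∑ i, (∑ j, w i j * z (r4, e j)) * y (e' i, c4) := by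
    intro w r4 c4
    unfold Phi
    have h1 : ∀ c r, z (r4, c) * inc w (r, c) * y (r, c4) = ∑ i, ∑ j,
        (if r = e' i then (if c = e j then w i j * z (r4, c) * y (r, c4) else 0) else 0) := by
      intro c r
      simp only [inc, Finset.mul_sum, Finset.sum_mul]
      refine Finset.sum_congr rfl fun i _ => Finset.sum_congr rfl fun j _ => ?_
      split_ifs <;> ring
    simp only [h1]
    rw [Finset.sum_comm]
    have h2 : ∀ r, ∑ c, ∑ i, ∑ j, (if r = e' i then (if c = e j then
        w i j * z (r4, c) * y (r, c4) else 0) else 0) = ∑ i, ∑ j, (if r = e' i then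
        w i j * z (r4, e j) * y (r, c4) else 0) := by
      intro r
      rw [Finset.sum_comm]
      refine Finset.sum_congr rfl fun i _ => ?_
      rw [Finset.sum_comm]
      refine Finset.sum_congr rfl fun j _ => ?_
      by_cases hr : r = e' i
      · simp only [if_pos hr]
        rw [Finset.sum_ite_eq' Finset.univ (e j) (fun c => w i j * z (r4, c) * y (r, c4))]
        simp
      · simp only [if_neg hr, Finset.sum_const_zero]
    simp only [h2]
    rw [Finset.sum_comm]
    refine Finset.sum_congr rfl fun i _ => ?_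
    rw [Finset.sum_comm, Finset.sum_mul]
    refine Finset.sum_congr rfl fun j _ => ?_
    rw [Finset.sum_ite_eq' Finset.univ (e' i) (fun r => w i j * z (r4, e j) * y (r, c4))]
    simp
  have hkey : ∀ w, (∀ r c, Phi (inc w) y z r c = 0) → w = 0 := by
    intro w hw
    have h1 : ∀ r4 i, ∑ j, w i j * z (r4, e j) = 0 := by
      intro r4
      rw [Fintype.linearIndependent_iff] at he'
      apply he' (fun i => ∑ j, w i j * z (r4, e j))
      funext c4
      have := hw r4 c4
      rw [hPhi] at this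
      simpa only [Finset.sum_apply, Pi.smul_apply, smul_eq_mul, Pi.zero_apply] using this
    funext i
    rw [Fintype.linearIndependent_iff] at he
    funext j
    refine he (fun j => w i j) ?_ j
    funext r4
    simpa only [Finset.sum_apply, Pi.smul_apply, smul_eq_mul, Pi.zero_apply] using h1 r4 i
  set K := Finset.univ.filter (fun x : R × C → F => ∀ r c, Phi x y z r c = 0) with hK
  have hinj : Function.Injective (fun q : (Fin ρ → Fin ρ → F) × K => inc q.1 + q.2.1) := by
    rintro ⟨w, x, hx⟩ ⟨w', x', hx'⟩ h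
    simp only at h
    have h1 : inc (w - w') = x' - x := by
      rw [hinc_sub, sub_eq_sub_iff_add_eq_add, h, add_comm]
    have h2 : w - w' = 0 := by
      apply hkey
      intro r c
      rw [h1, Phi_sub, (Finset.mem_filter.1 hx).2, (Finset.mem_filter.1 hx').2, sub_zero]
    have h3 : w = w' := sub_eq_zero.1 h2
    subst h3
    have h4 : x = x' := by
      have : inc w + x = inc w + x' := h
      exact add_left_cancel this
    subst h4
    rfl
  have := Fintype.card_le_of_injective _ hinj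
  rw [Fintype.card_prod, Fintype.card_coe, Fintype.card_fun, Fintype.card_fun, Fintype.card_fin,
    ← pow_mul] at this
  exact this

theorem cyc_count (ρ : ℕ) (hρ : 1 ≤ ρ) (hR : Fintype.card R = 4 * ρ) (hC : Fintype.card C = 4 * ρ) :
    Fintype.card F ^ (ρ * ρ) * (Finset.univ.filter
      (fun q : (R × C → F) × (R × C → F) × (R × C → F) =>
        ∀ r c, Phi q.1 q.2.1 q.2.2 r c = 0)).card ≤
      Fintype.card F * Fintype.card (R × C → F) ^ 3 := by
  classical
  set Q := Fintype.card F with hQ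
  set V := Fintype.card (R × C → F) with hV
  have hQ2 : 2 ≤ Q := Fintype.one_lt_card
  have hVQ : V = Q ^ (16 * (ρ * ρ)) := by
    rw [hV, Fintype.card_fun, Fintype.card_prod, hR, hC]
    congr 1
    ring
  have hlow1 : (low R C F ρ).card ≤ Q ^ (8 * (ρ * ρ)) := by
    refine (low_count ρ).trans_eq ?_
    rw [hR, hC]
    congr 1
    ring
  have hlow2' : (low C R F ρ).card ≤ Q ^ (8 * (ρ * ρ)) := by
    refine (low_count ρ).trans_eq ?_
    rw [hR, hC]
    congr 1
    ring
  set low2 : Finset (R × C → F) := Finset.univ.filter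
    (fun z => (fun q : C × R => z q.swap) ∈ low C R F ρ) with hl2
  have hlow2 : low2.card ≤ Q ^ (8 * (ρ * ρ)) := by
    refine le_trans ?_ hlow2'
    refine Finset.card_le_card_of_injOn (fun z q => z q.swap) ?_ ?_
    · intro z hz
      exact (Finset.mem_filter.1 (Finset.mem_coe.1 hz)).2
    · intro z _ z' _ h
      funext q
      exact congrFun h q.swap
  -- rewrite the count as a sum
  have hsum : (Finset.univ.filter (fun q : (R × C → F) × (R × C → F) × (R × C → F) =>
        ∀ r c, Phi q.1 q.2.1 q.2.2 r c = 0)).card =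
      ∑ y : R × C → F, ∑ z : R × C → F,
        (Finset.univ.filter (fun x : R × C → F => ∀ r c, Phi x y z r c = 0)).card := by
    rw [Finset.card_filter, Fintype.sum_prod_type]
    simp only [Fintype.sum_prod_type, Finset.card_filter]
    rw [Finset.sum_comm]
    refine Finset.sum_congr rfl fun y _ => ?_
    rw [Finset.sum_comm]
  rw [hsum, Finset.mul_sum]
  have hterm : ∀ y z : R × C → F, Q ^ (ρ * ρ) *
      (Finset.univ.filter (fun x : R × C → F => ∀ r c, Phi x y z r c = 0)).card ≤
      V + ((if y ∈ low R C F ρ then Q ^ (ρ * ρ) * V else 0) +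
        (if z ∈ low2 then Q ^ (ρ * ρ) * V else 0)) := by
    intro y z
    have hV' : (Finset.univ.filter (fun x : R × C → F => ∀ r c, Phi x y z r c = 0)).card ≤ V :=
      Finset.card_le_univ _
    by_cases hy : y ∈ low R C F ρ
    · rw [if_pos hy]
      have := Nat.mul_le_mul_left (Q ^ (ρ * ρ)) hV'
      omega
    · by_cases hz : z ∈ low2
      · rw [if_pos hz]
        have := Nat.mul_le_mul_left (Q ^ (ρ * ρ)) hV'
        omega
      · have h1 := ker_count ρ y z hy (fun h => hz (Finset.mem_filter.2 ⟨Finset.mem_univ _, h⟩))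
        exact h1.trans (Nat.le_add_right _ _)
  calc ∑ y : R × C → F, Q ^ (ρ * ρ) * ∑ z : R × C → F,
        (Finset.univ.filter (fun x : R × C → F => ∀ r c, Phi x y z r c = 0)).card
      ≤ ∑ y : R × C → F, ∑ z : R × C → F,
        (V + ((if y ∈ low R C F ρ then Q ^ (ρ * ρ) * V else 0) +
        (if z ∈ low2 then Q ^ (ρ * ρ) * V else 0))) := by
        refine Finset.sum_le_sum fun y _ => ?_
        rw [Finset.mul_sum]
        exact Finset.sum_le_sum fun z _ => hterm y z
    _ = V ^ 3 + ((low R C F ρ).card * (Q ^ (ρ * ρ) * V) * V +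
        low2.card * (Q ^ (ρ * ρ) * V) * V) := by
        simp only [Finset.sum_add_distrib, Finset.sum_const, Finset.card_univ, smul_eq_mul]
        rw [← Finset.mul_sum, ← Finset.sum_filter, ← Finset.sum_filter]
        simp only [Finset.filter_mem_eq_inter, Finset.univ_inter, Finset.sum_const, smul_eq_mul]
        ring
    _ ≤ V ^ 3 + (Q ^ (8 * (ρ * ρ)) * (Q ^ (ρ * ρ) * V) * V +
        Q ^ (8 * (ρ * ρ)) * (Q ^ (ρ * ρ) * V) * V) := by gcongr
    _ = V ^ 3 + 2 * Q ^ (9 * (ρ * ρ)) * V ^ 2 := by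
        rw [show 9 * (ρ * ρ) = 8 * (ρ * ρ) + ρ * ρ by ring, pow_add]
        ring
    _ ≤ V ^ 3 + V * V ^ 2 := by
        refine Nat.add_le_add_left (Nat.mul_le_mul_right _ ?_) _
        calc 2 * Q ^ (9 * (ρ * ρ)) ≤ Q * Q ^ (9 * (ρ * ρ)) := Nat.mul_le_mul_right _ hQ2
          _ = Q ^ (9 * (ρ * ρ) + 1) := by rw [pow_succ]; ring
          _ ≤ Q ^ (16 * (ρ * ρ)) := by
              refine Nat.pow_le_pow_right (by omega) ?_
              have : 1 ≤ ρ * ρ := Nat.one_le_iff_ne_zero.2 (by positivity)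
              omega
          _ = V := hVQ.symm
    _ = 2 * V ^ 3 := by ring
    _ ≤ Q * V ^ 3 := Nat.mul_le_mul_right _ hQ2

end Cyc

section Ten

set_option synthInstance.maxSize 1000

variable {ι : Type} [Fintype ι] [DecidableEq ι] {a : ℕ} (e : ι ≃ Bool × Fin a)
  (F : Type) [Field F] [Fintype F] [DecidableEq F]

/-- the first block: `[i₀ = i₁][i₂ = i₃]` on the indices of type `true` -/
def TA1 : (Fin 4 → ι) → F := fun I =>
  if ((e (I 0)).1 = true ∧ (e (I 1)).1 = true ∧ (e (I 0)).2 = (e (I 1)).2) ∧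
    ((e (I 2)).1 = true ∧ (e (I 3)).1 = true ∧ (e (I 2)).2 = (e (I 3)).2) then 1 else 0

/-- the second block: `[i₀ = i₂][i₁ = i₃]` on the indices of type `false` -/
def TA2 : (Fin 4 → ι) → F := fun I =>
  if ((e (I 0)).1 = false ∧ (e (I 2)).1 = false ∧ (e (I 0)).2 = (e (I 2)).2) ∧
    ((e (I 1)).1 = false ∧ (e (I 3)).1 = false ∧ (e (I 1)).2 = (e (I 3)).2) then 1 else 0

/-- the tensor `A = A₁ ⊕ A₂` -/
def TA : (Fin 4 → ι) → F := fun I => TA1 e F I + TA2 e F I

variable {m : ℕ} (U : Fin m → Bool)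

abbrev RU (a : ℕ) {m : ℕ} (U : Fin m → Bool) := {t // U t = true} → Fin a
abbrev CU (a : ℕ) {m : ℕ} (U : Fin m → Bool) := {t // ¬ (U t = true)} → Fin a

/-- merging -/
def mg (q : RU a U × CU a U) : Fin m → ι := fun t =>
  e.symm (U t, if h : U t = true then q.1 ⟨t, h⟩ else q.2 ⟨t, h⟩)

theorem mg_fst (q : RU a U × CU a U) (t : Fin m) : (e (mg e U q t)).1 = U t := by
  simp [mg]

theorem mg_snd_true (q : RU a U × CU a U) (t : Fin m) (h : U t = true) :
    (e (mg e U q t)).2 = q.1 ⟨t, h⟩ := by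
  simp [mg, h]

theorem mg_snd_false (q : RU a U × CU a U) (t : Fin m) (h : ¬ U t = true) :
    (e (mg e U q t)).2 = q.2 ⟨t, h⟩ := by
  simp only [mg, Equiv.apply_symm_apply, dif_neg h]

theorem mg_inj : Function.Injective (mg e U : RU a U × CU a U → (Fin m → ι)) := by
  intro q q' h
  refine Prod.ext (funext fun t => ?_) (funext fun t => ?_)
  · rw [← mg_snd_true e U q t.1 t.2, ← mg_snd_true e U q' t.1 t.2, h]
  · rw [← mg_snd_false e U q t.1 t.2, ← mg_snd_false e U q' t.1 t.2, h]

theorem tpow_ne {I J K : Fin m → ι} {q4 : RU a U × CU a U}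
    (h : tpow (TA e F) m ![I, J, K, mg e U q4] ≠ 0) :
    ∃ r : RU a U, ∃ c : CU a U, I = mg e U (r, c) ∧ J = mg e U (r, q4.2) ∧ K = mg e U (q4.1, c) := by
  unfold tpow at h
  rw [Finset.prod_ne_zero_iff] at h
  have hL : ∀ t, (e (mg e U q4 t)).1 = U t := mg_fst e U q4
  have h' : ∀ t, ((e (I t)).1 = true ∧ (e (J t)).1 = true ∧ (e (I t)).2 = (e (J t)).2 ∧
      (e (K t)).1 = true ∧ U t = true ∧ (e (K t)).2 = (e (mg e U q4 t)).2) ∨
      ((e (I t)).1 = false ∧ (e (K t)).1 = false ∧ (e (I t)).2 = (e (K t)).2 ∧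
      (e (J t)).1 = false ∧ U t = false ∧ (e (J t)).2 = (e (mg e U q4 t)).2) := by
    intro t
    have ht := h t (Finset.mem_univ t)
    by_contra hcon
    push Not at hcon
    apply ht
    unfold TA TA1 TA2
    rw [if_neg, if_neg, add_zero]
    · rintro ⟨⟨h1, h2, h3⟩, h4, h5, h6⟩
      have h5' : U t = false := by rw [← hL t]; exact h5
      exact hcon.2 h1 h2 h3 h4 h5' h6
    · rintro ⟨⟨h1, h2, h3⟩, h4, h5, h6⟩
      have h5' : U t = true := by rw [← hL t]; exact h5
      exact hcon.1 h1 h2 h3 h4 h5' h6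
  refine ⟨fun t => (e (I t.1)).2, fun t => (e (I t.1)).2, ?_, ?_, ?_⟩
  · funext t
    apply e.injective
    refine Prod.ext ?_ ?_
    · rw [mg_fst]
      rcases h' t with h1 | h1
      · rw [h1.1, h1.2.2.2.2.1]
      · rw [h1.1, h1.2.2.2.2.1]
    · by_cases hU : U t = true
      · rw [mg_snd_true e U _ t hU]
      · rw [mg_snd_false e U _ t hU]
  · funext t
    apply e.injective
    refine Prod.ext ?_ ?_
    · rw [mg_fst]
      rcases h' t with h1 | h1
      · rw [h1.2.1, h1.2.2.2.2.1]
      · rw [h1.2.2.2.1, h1.2.2.2.2.1]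
    · by_cases hU : U t = true
      · rw [mg_snd_true e U _ t hU]
        rcases h' t with h1 | h1
        · exact h1.2.2.1.symm
        · rw [h1.2.2.2.2.1] at hU
          exact absurd hU (by decide)
      · rw [mg_snd_false e U _ t hU]
        rcases h' t with h1 | h1
        · exact absurd h1.2.2.2.2.1 hU
        · rw [h1.2.2.2.2.2, mg_snd_false e U _ t hU]
  · funext t
    apply e.injective
    refine Prod.ext ?_ ?_
    · rw [mg_fst]
      rcases h' t with h1 | h1
      · rw [h1.2.2.2.1, h1.2.2.2.2.1]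
      · rw [h1.2.1, h1.2.2.2.2.1]
    · by_cases hU : U t = true
      · rw [mg_snd_true e U _ t hU]
        rcases h' t with h1 | h1
        · rw [h1.2.2.2.2.2, mg_snd_true e U _ t hU]
        · rw [h1.2.2.2.2.1] at hU
          exact absurd hU (by decide)
      · rw [mg_snd_false e U _ t hU]
        rcases h' t with h1 | h1
        · exact absurd h1.2.2.2.2.1 hU
        · exact h1.2.2.1.symm

theorem tpow_one (r4 : RU a U) (c4 : CU a U) (r : RU a U) (c : CU a U) :
    tpow (TA e F) m ![mg e U (r, c), mg e U (r, c4), mg e U (r4, c), mg e U (r4, c4)] = 1 := by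
  unfold tpow
  refine Finset.prod_eq_one fun t _ => ?_
  unfold TA TA1 TA2
  simp only [Matrix.cons_val_zero, Matrix.cons_val_one, Matrix.cons_val]
  simp only [mg_fst]
  by_cases hU : U t = true
  · simp only [mg_snd_true e U _ t hU, hU]
    simp
  · have hU' : U t = false := by
      cases h : U t
      · rfl
      · exact absurd h hU
    simp only [mg_snd_false e U _ t hU, hU']
    simp

theorem sl_tpow (x y z : (Fin m → ι) → F) (r4 : RU a U) (c4 : CU a U) :
    sl (tpow (TA e F) m) x y z (mg e U (r4, c4)) =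
      Phi (fun q => x (mg e U q)) (fun q => y (mg e U q)) (fun q => z (mg e U q)) r4 c4 := by
  unfold sl Phi
  have h1 : ∑ I, ∑ J, ∑ K, tpow (TA e F) m ![I, J, K, mg e U (r4, c4)] * x I * y J * z K =
      ∑ T : (Fin m → ι) × (Fin m → ι) × (Fin m → ι),
        tpow (TA e F) m ![T.1, T.2.1, T.2.2, mg e U (r4, c4)] * x T.1 * y T.2.1 * z T.2.2 := by
    rw [Fintype.sum_prod_type]
    simp only [Fintype.sum_prod_type]
  have h2 : ∑ c : CU a U, ∑ r : RU a U, z (mg e U (r4, c)) * x (mg e U (r, c)) * y (mg e U (r, c4)) =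
      ∑ q : CU a U × RU a U, z (mg e U (r4, q.1)) * x (mg e U (q.2, q.1)) * y (mg e U (q.2, c4)) := by
    rw [Fintype.sum_prod_type]
  rw [h1, h2]
  symm
  refine Fintype.sum_of_injective
    (fun q : CU a U × RU a U => (mg e U (q.2, q.1), mg e U (q.2, c4), mg e U (r4, q.1))) ?_ _ _ ?_ ?_
  · rintro ⟨c, r⟩ ⟨c', r'⟩ h
    simp only [Prod.mk.injEq] at h
    have := mg_inj e U h.1
    simp only [Prod.mk.injEq] at this
    rw [this.1, this.2]
  · rintro ⟨I, J, K⟩ hnot
    by_contra hne
    have h3 : tpow (TA e F) m ![I, J, K, mg e U (r4, c4)] ≠ 0 := by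
      intro h0
      apply hne
      simp only [h0, zero_mul]
    obtain ⟨r, c, rfl, rfl, rfl⟩ := tpow_ne e F U h3
    exact hnot ⟨(c, r), rfl⟩
  · rintro ⟨c, r⟩
    simp only
    rw [tpow_one]
    ring

/-- number of zero triples of the block `U` -/
def ZU : ℕ := (Finset.univ.filter
      (fun q : (RU a U × CU a U → F) × (RU a U × CU a U → F) × (RU a U × CU a U → F) =>
        ∀ r c, Phi q.1 q.2.1 q.2.2 r c = 0)).card

theorem Z_le_prod : Z (tpow (TA e F) m) ≤ ∏ U : Fin m → Bool, ZU (a := a) F U := by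
  classical
  unfold Z ZU
  rw [← Fintype.card_piFinset]
  refine Finset.card_le_card_of_injOn (fun q => fun U : Fin m → Bool =>
    ((fun s => q.1 (mg e U s)), (fun s => q.2.1 (mg e U s)), (fun s => q.2.2 (mg e U s)))) ?_ ?_
  · intro q hq
    have hq' := (Finset.mem_filter.1 (Finset.mem_coe.1 hq)).2
    refine Finset.mem_coe.2 (Fintype.mem_piFinset.2 fun U => ?_)
    refine Finset.mem_filter.2 ⟨Finset.mem_univ _, fun r c => ?_⟩
    rw [← sl_tpow e F U]
    exact hq' _
  · rintro ⟨x, y, z⟩ _ ⟨x', y', z'⟩ _ h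
    have hall : ∀ L : Fin m → ι, ∃ (U : Fin m → Bool) (q : RU a U × CU a U), L = mg e U q := by
      intro L
      refine ⟨fun t => (e (L t)).1, (fun t => (e (L t.1)).2, fun t => (e (L t.1)).2), ?_⟩
      funext t
      apply e.injective
      refine Prod.ext ?_ ?_
      · rw [mg_fst]
      · by_cases hU : (fun t => (e (L t)).1) t = true
        · rw [mg_snd_true e _ _ t hU]
        · rw [mg_snd_false e _ _ t hU]
    have hx : x = x' := by
      funext L
      obtain ⟨U, q, rfl⟩ := hall L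
      exact congrFun (congrArg Prod.fst (congrFun h U)) q
    have hy : y = y' := by
      funext L
      obtain ⟨U, q, rfl⟩ := hall L
      exact congrFun (congrArg (fun w => w.2.1) (congrFun h U)) q
    have hz : z = z' := by
      funext L
      obtain ⟨U, q, rfl⟩ := hall L
      exact congrFun (congrArg (fun w => w.2.2) (congrFun h U)) q
    rw [hx, hy, hz]

theorem card_RU : Fintype.card (RU a U) = a ^ (Finset.univ.filter (fun t => U t = true)).card := by
  rw [Fintype.card_fun, Fintype.card_fin, Fintype.card_subtype]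

theorem card_CU : Fintype.card (CU a U) =
    a ^ (m - (Finset.univ.filter (fun t => U t = true)).card) := by
  rw [Fintype.card_fun, Fintype.card_fin, Fintype.card_subtype_compl, Fintype.card_fin,
    Fintype.card_subtype]

theorem card_VU : Fintype.card (RU a U × CU a U → F) = Fintype.card F ^ (a ^ m) := by
  rw [Fintype.card_fun, Fintype.card_prod, card_RU, card_CU, ← pow_add]
  congr 2
  have : (Finset.univ.filter (fun t => U t = true)).card ≤ m := by
    refine (Finset.card_le_univ _).trans_eq (Fintype.card_fin m)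
  omega

theorem ZU_le : ZU (a := a) F U ≤ (Fintype.card F ^ (a ^ m)) ^ 3 := by
  unfold ZU
  refine (Finset.card_le_univ _).trans_eq ?_
  rw [Fintype.card_prod, Fintype.card_prod, card_VU]
  ring

theorem ZU_bal {b k : ℕ} (hb : 1 ≤ b) (hk : 1 ≤ k) (ha : a = 4 * b) (hm : m = 2 * k)
    (hU : (Finset.univ.filter (fun t => U t = true)).card = k) :
    Fintype.card F ^ ((b * a ^ (k - 1)) * (b * a ^ (k - 1)) - 1) * ZU (a := a) F U ≤
      (Fintype.card F ^ (a ^ m)) ^ 3 := by
  set ρ := b * a ^ (k - 1) with hρ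
  have ha0 : 1 ≤ a := by omega
  have hρ1 : 1 ≤ ρ := Nat.one_le_iff_ne_zero.2 (by positivity)
  have hak : a ^ k = 4 * ρ := by
    obtain ⟨k', rfl⟩ : ∃ k', k = k' + 1 := ⟨k - 1, by omega⟩
    rw [hρ, Nat.add_sub_cancel, pow_succ, ha]
    ring
  have hR : Fintype.card (RU a U) = 4 * ρ := by rw [card_RU, hU, hak]
  have hC : Fintype.card (CU a U) = 4 * ρ := by
    rw [card_CU, hU, hm]
    have : 2 * k - k = k := by omega
    rw [this, hak]
  have h := cyc_count (F := F) ρ hρ1 hR hC
  rw [card_VU] at h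
  have hρρ : 1 ≤ ρ * ρ := Nat.one_le_iff_ne_zero.2 (by positivity)
  have hQ : 0 < Fintype.card F := Fintype.card_pos
  obtain ⟨s, hs⟩ : ∃ s, ρ * ρ = s + 1 := ⟨ρ * ρ - 1, by omega⟩
  rw [hs, pow_succ] at h
  rw [hs, Nat.add_sub_cancel]
  refine Nat.le_of_mul_le_mul_left ?_ hQ
  unfold ZU
  refine le_trans (le_of_eq ?_) h
  rw [← mul_assoc, mul_comm (Fintype.card F)]

theorem Z_upper {b k : ℕ} (hb : 1 ≤ b) (hk : 1 ≤ k) (ha : a = 4 * b) (hm : m = 2 * k) :
    Fintype.card F ^ ((2 * k).choose k * ((b * a ^ (k - 1)) * (b * a ^ (k - 1)) - 1)) *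
      Z (tpow (TA e F) m) ≤ Fintype.card ((Fin m → ι) → F) ^ 3 := by
  classical
  set Q := Fintype.card F with hQ
  set s := (b * a ^ (k - 1)) * (b * a ^ (k - 1)) - 1 with hs
  set Bal := Finset.univ.filter (fun U : Fin m → Bool =>
    (Finset.univ.filter (fun t => U t = true)).card = k) with hBal
  have hcardBal : (2 * k).choose k ≤ Bal.card := by
    have h1 : (Finset.powersetCard k (Finset.univ : Finset (Fin m))).card = (2 * k).choose k := by
      rw [Finset.card_powersetCard, Finset.card_univ, Fintype.card_fin, hm]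
    rw [← h1]
    refine Finset.card_le_card_of_injOn (fun s t => decide (t ∈ s)) ?_ ?_
    · intro s hs
      have hs' := (Finset.mem_powersetCard.1 (Finset.mem_coe.1 hs)).2
      refine Finset.mem_coe.2 (Finset.mem_filter.2 ⟨Finset.mem_univ _, ?_⟩)
      have : Finset.univ.filter (fun t => decide (t ∈ s) = true) = s := by
        ext t
        simp
      rw [this, hs']
    · intro s _ s' _ h
      ext t
      have := congrFun h t
      simpa using this
  have hVcard : Fintype.card ((Fin m → ι) → F) = ∏ _U : Fin m → Bool, Q ^ (a ^ m) := by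
    rw [Finset.prod_const, Finset.card_univ, Fintype.card_fun, Fintype.card_fun, Fintype.card_fun,
      Fintype.card_congr e, Fintype.card_prod, Fintype.card_bool, Fintype.card_fin,
      Fintype.card_fin, ← pow_mul, mul_pow, mul_comm]
  have hprod : Q ^ (Bal.card * s) = ∏ U : Fin m → Bool, (if U ∈ Bal then Q ^ s else 1) := by
    rw [Finset.prod_ite, Finset.prod_const, Finset.prod_const_one, mul_one]
    have : Finset.univ.filter (fun U => U ∈ Bal) = Bal := by
      ext U
      simp
    rw [this, ← pow_mul, mul_comm]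
  calc Q ^ ((2 * k).choose k * s) * Z (tpow (TA e F) m)
      ≤ Q ^ (Bal.card * s) * Z (tpow (TA e F) m) := by
        refine Nat.mul_le_mul_right _ (Nat.pow_le_pow_right Fintype.card_pos ?_)
        exact Nat.mul_le_mul_right _ hcardBal
    _ ≤ (∏ U : Fin m → Bool, (if U ∈ Bal then Q ^ s else 1)) * ∏ U : Fin m → Bool, ZU F U := by
        rw [hprod]
        exact Nat.mul_le_mul_left _ (Z_le_prod e F)
    _ = ∏ U : Fin m → Bool, (if U ∈ Bal then Q ^ s else 1) * ZU F U := by
        rw [Finset.prod_mul_distrib]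
    _ ≤ ∏ _U : Fin m → Bool, (Q ^ (a ^ m)) ^ 3 := by
        refine Finset.prod_le_prod' fun U _ => ?_
        by_cases hU : U ∈ Bal
        · rw [if_pos hU]
          exact ZU_bal F U hb hk ha hm (Finset.mem_filter.1 hU).2
        · rw [if_neg hU, one_mul]
          exact ZU_le F U
    _ = Fintype.card ((Fin m → ι) → F) ^ 3 := by
        rw [hVcard, Finset.prod_pow]

end Ten

section Final

variable {p : ℕ} [Fact p.Prime] {ι : Type} [Fintype ι] [DecidableEq ι]

theorem Z_pos (T : (Fin 4 → ι) → ZMod p) : 0 < Z T := by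
  unfold Z
  refine Finset.card_pos.2 ⟨(0, 0, 0), Finset.mem_filter.2 ⟨Finset.mem_univ _, fun l => ?_⟩⟩
  simp [sl]

theorem V_pos : (0 : ℝ) < (Fintype.card (ι → ZMod p) : ℝ) := by
  exact_mod_cast Fintype.card_pos

theorem p_gt : (1 : ℝ) < (p : ℝ) := by
  exact_mod_cast (Fact.out : p.Prime).one_lt

theorem arank_ge {T : (Fin 4 → ι) → ZMod p} {E : ℕ}
    (h : p ^ E * Z T ≤ Fintype.card (ι → ZMod p) ^ 3) : (E : ℝ) ≤ arank T := by
  unfold arank
  rw [bias_eq, le_neg]
  have hV : (0 : ℝ) < (Fintype.card (ι → ZMod p) : ℝ) ^ 3 := pow_pos V_pos 3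
  have hZ : (0 : ℝ) < (Z T : ℝ) := by exact_mod_cast Z_pos T
  have hp : (0 : ℝ) < (p : ℝ) ^ E := pow_pos (one_pos.trans p_gt) E
  rw [Real.logb_le_iff_le_rpow p_gt (div_pos hZ hV), Real.rpow_neg (one_pos.trans p_gt).le,
    Real.rpow_natCast, div_le_iff₀ hV, inv_mul_eq_div, le_div_iff₀ hp]
  have h' : ((p ^ E * Z T : ℕ) : ℝ) ≤ ((Fintype.card (ι → ZMod p) ^ 3 : ℕ) : ℝ) := by
    exact_mod_cast h
  push_cast at h'
  linarith

theorem arank_gt {T : (Fin 4 → ι) → ZMod p} {E : ℕ}
    (h : p ^ E * Z T < Fintype.card (ι → ZMod p) ^ 3) : (E : ℝ) < arank T := by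
  unfold arank
  rw [bias_eq, lt_neg]
  have hV : (0 : ℝ) < (Fintype.card (ι → ZMod p) : ℝ) ^ 3 := pow_pos V_pos 3
  have hZ : (0 : ℝ) < (Z T : ℝ) := by exact_mod_cast Z_pos T
  have hp : (0 : ℝ) < (p : ℝ) ^ E := pow_pos (one_pos.trans p_gt) E
  rw [Real.logb_lt_iff_lt_rpow p_gt (div_pos hZ hV), Real.rpow_neg (one_pos.trans p_gt).le,
    Real.rpow_natCast, div_lt_iff₀ hV, inv_mul_eq_div, lt_div_iff₀ hp]
  have h' : ((p ^ E * Z T : ℕ) : ℝ) < ((Fintype.card (ι → ZMod p) ^ 3 : ℕ) : ℝ) := by
    exact_mod_cast h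
  push_cast at h'
  linarith

theorem arank_le {T : (Fin 4 → ι) → ZMod p} {r : ℕ}
    (h : Fintype.card (ι → ZMod p) ^ 3 ≤ p ^ r * Z T) : arank T ≤ r := by
  unfold arank
  rw [bias_eq, neg_le]
  have hV : (0 : ℝ) < (Fintype.card (ι → ZMod p) : ℝ) ^ 3 := pow_pos V_pos 3
  have hZ : (0 : ℝ) < (Z T : ℝ) := by exact_mod_cast Z_pos T
  have hp : (0 : ℝ) < (p : ℝ) ^ r := pow_pos (one_pos.trans p_gt) r
  rw [Real.le_logb_iff_rpow_le p_gt (div_pos hZ hV), Real.rpow_neg (one_pos.trans p_gt).le,
    Real.rpow_natCast, le_div_iff₀ hV, inv_mul_eq_div, div_le_iff₀ hp]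
  have h' : ((Fintype.card (ι → ZMod p) ^ 3 : ℕ) : ℝ) ≤ ((p ^ r * Z T : ℕ) : ℝ) := by
    exact_mod_cast h
  push_cast at h'
  linarith

theorem arank_nonneg (T : (Fin 4 → ι) → ZMod p) : 0 ≤ arank T := by
  have : ((0 : ℕ) : ℝ) ≤ arank T := by
    apply arank_ge
    rw [pow_zero, one_mul]
    unfold Z
    refine (Finset.card_le_univ _).trans_eq ?_
    rw [Fintype.card_prod, Fintype.card_prod]
    ring
  simpa using this

/-- indicators of points are terms -/
theorem point_term {F : Type} [Field F] (c : F) (I0 : Fin 4 → ι) :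
    IsPartTerm (fun I : Fin 4 → ι => if I = I0 then c else 0) := by
  refine ⟨{0}, fun I => if I 0 = I0 0 then c else 0,
    fun I => if I 1 = I0 1 ∧ I 2 = I0 2 ∧ I 3 = I0 3 then 1 else 0, Finset.singleton_nonempty _,
    by decide, ?_, ?_, ?_⟩
  · intro I I' h
    simp only [h 0 (Finset.mem_singleton_self _)]
  · intro I I' h
    simp only [h 1 (by decide), h 2 (by decide), h 3 (by decide)]
  · intro I
    have h1 : I = I0 ↔ I 0 = I0 0 ∧ (I 1 = I0 1 ∧ I 2 = I0 2 ∧ I 3 = I0 3) := by
      constructor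
      · rintro rfl
        exact ⟨rfl, rfl, rfl, rfl⟩
      · rintro ⟨h0, h1, h2, h3⟩
        funext t
        fin_cases t
        · exact h0
        · exact h1
        · exact h2
        · exact h3
    by_cases ha : I 0 = I0 0
    · by_cases hb : I 1 = I0 1 ∧ I 2 = I0 2 ∧ I 3 = I0 3
      · simp only [if_pos ha, if_pos hb, if_pos (h1.2 ⟨ha, hb⟩), mul_one]
      · simp only [if_pos ha, if_neg hb, if_neg (fun h => hb (h1.1 h).2), mul_zero]
    · simp only [if_neg ha, if_neg (fun h => ha (h1.1 h).1), zero_mul]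

theorem prank_mem {F : Type} [Field F] (T : (Fin 4 → ι) → F) :
    ∃ B : Fin (prank T) → (Fin 4 → ι) → F, (∀ j, IsPartTerm (B j)) ∧ ∀ I, T I = ∑ j, B j I := by
  have hne : {r | ∃ B : Fin r → (Fin 4 → ι) → F, (∀ j, IsPartTerm (B j)) ∧
      ∀ I, T I = ∑ j, B j I}.Nonempty := by
    refine ⟨Fintype.card (Fin 4 → ι), fun j I =>
      if I = (Fintype.equivFin (Fin 4 → ι)).symm j then
        T ((Fintype.equivFin (Fin 4 → ι)).symm j) else 0, fun j => point_term _ _, fun I => ?_⟩
    rw [(Fintype.equivFin (Fin 4 → ι)).symm.sum_comp (fun J => if I = J then T J else 0)]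
    simp
  exact Nat.sInf_mem hne

theorem arank_le_prank (T : (Fin 4 → ι) → ZMod p) (o : ι) : arank T ≤ prank T := by
  obtain ⟨B, hB1, hB2⟩ := prank_mem T
  apply arank_le
  have := Z_lower T o (prank T) B hB1 hB2
  rwa [ZMod.card p] at this

theorem prank_id_le {F : Type} [Field F] : prank (idT F 4 ι) ≤ Fintype.card ι := by
  apply Nat.sInf_le
  refine ⟨fun j I => if I = (fun _ => (Fintype.equivFin ι).symm j) then 1 else 0,
    fun j => point_term _ _, fun I => ?_⟩
  rw [(Fintype.equivFin ι).symm.sum_comp (fun x => if I = (fun _ => x) then (1 : F) else 0)]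
  unfold idT
  by_cases h : ∀ k l, I k = I l
  · rw [if_pos h, Finset.sum_eq_single (I 0)]
    · rw [if_pos]
      funext k
      exact h k 0
    · intro x _ hx
      rw [if_neg]
      intro hI
      exact hx (by rw [hI])
    · intro h'
      exact absurd (Finset.mem_univ _) h'
  · rw [if_neg h]
    symm
    refine Finset.sum_eq_zero fun x _ => ?_
    rw [if_neg]
    intro hI
    apply h
    intro k l
    rw [hI]

theorem ite_and_mul {F : Type} [Field F] (P Q : Prop) [Decidable P] [Decidable Q] :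
    (if P ∧ Q then (1 : F) else 0) = (if P then 1 else 0) * (if Q then 1 else 0) := by
  by_cases hP : P <;> by_cases hQ : Q <;> simp [hP, hQ]

theorem prank_TA_le {a : ℕ} (e : ι ≃ Bool × Fin a) {F : Type} [Field F] :
    prank (TA e F) ≤ 2 := by
  apply Nat.sInf_le
  refine ⟨![TA1 e F, TA2 e F], ?_, fun I => ?_⟩
  · intro j
    fin_cases j
    · refine ⟨{0, 1}, fun I => if (e (I 0)).1 = true ∧ (e (I 1)).1 = true ∧
        (e (I 0)).2 = (e (I 1)).2 then 1 else 0, fun I => if (e (I 2)).1 = true ∧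
        (e (I 3)).1 = true ∧ (e (I 2)).2 = (e (I 3)).2 then 1 else 0, by decide, by decide,
        ?_, ?_, ?_⟩
      · intro I I' h
        simp only [h 0 (by decide), h 1 (by decide)]
      · intro I I' h
        simp only [h 2 (by decide), h 3 (by decide)]
      · intro I
        exact ite_and_mul _ _
    · refine ⟨{0, 2}, fun I => if (e (I 0)).1 = false ∧ (e (I 2)).1 = false ∧
        (e (I 0)).2 = (e (I 2)).2 then 1 else 0, fun I => if (e (I 1)).1 = false ∧
        (e (I 3)).1 = false ∧ (e (I 1)).2 = (e (I 3)).2 then 1 else 0, by decide, by decide,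
        ?_, ?_, ?_⟩
      · intro I I' h
        simp only [h 0 (by decide), h 2 (by decide)]
      · intro I I' h
        simp only [h 1 (by decide), h 3 (by decide)]
      · intro I
        exact ite_and_mul _ _
  · rw [Fin.sum_univ_two]
    rfl

theorem tpow_id {F : Type} [Field F] (m : ℕ) : tpow (idT F 4 ι) m = idT F 4 (Fin m → ι) := by
  funext I
  unfold tpow idT
  by_cases h : ∀ k l, I k = I l
  · rw [if_pos h]
    refine Finset.prod_eq_one fun t _ => ?_
    rw [if_pos]
    intro k l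
    show I k t = I l t
    rw [h k l]
  · rw [if_neg h]
    push Not at h
    obtain ⟨k, l, hkl⟩ := h
    obtain ⟨t, ht⟩ := Function.ne_iff.1 hkl
    refine Finset.prod_eq_zero (Finset.mem_univ t) ?_
    rw [if_neg]
    intro hall
    exact ht (hall k l)

theorem sl_id {F : Type} [Field F] (x y z : ι → F) (l : ι) :
    sl (idT F 4 ι) x y z l = x l * y l * z l := by
  have hid : ∀ i j k : ι, idT F 4 ι ![i, j, k, l] = if i = l ∧ j = l ∧ k = l then 1 else 0 := by
    intro i j k
    unfold idT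
    by_cases h : i = l ∧ j = l ∧ k = l
    · rw [if_pos h, if_pos]
      obtain ⟨rfl, rfl, rfl⟩ := h
      intro s t
      fin_cases s <;> fin_cases t <;> rfl
    · rw [if_neg h, if_neg]
      intro h'
      exact h ⟨h' 0 3, h' 1 3, h' 2 3⟩
  unfold sl
  simp only [hid]
  rw [Finset.sum_eq_single l]
  · rw [Finset.sum_eq_single l]
    · rw [Finset.sum_eq_single l]
      · simp
      · intro k _ hk
        rw [if_neg (fun h => hk h.2.2)]
        simp
      · intro h
        exact absurd (Finset.mem_univ _) h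
    · intro j _ hj
      refine Finset.sum_eq_zero fun k _ => ?_
      rw [if_neg (fun h => hj h.2.1)]
      simp
    · intro h
      exact absurd (Finset.mem_univ _) h
  · intro i _ hi
    refine Finset.sum_eq_zero fun j _ => Finset.sum_eq_zero fun k _ => ?_
    rw [if_neg (fun h => hi h.1)]
    simp
  · intro h
    exact absurd (Finset.mem_univ _) h

theorem Z_id_le : Z (idT (ZMod p) 4 ι) ≤ (p ^ 3 - 1) ^ Fintype.card ι := by
  classical
  set N0 : Finset (ZMod p × ZMod p × ZMod p) :=
    Finset.univ.filter (fun q => q.1 * q.2.1 * q.2.2 = 0) with hN0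
  have hN0card : N0.card ≤ p ^ 3 - 1 := by
    have h1 : N0 ⊆ Finset.univ.erase (1, 1, 1) := by
      intro q hq
      refine Finset.mem_erase.2 ⟨?_, Finset.mem_univ _⟩
      rintro rfl
      have := (Finset.mem_filter.1 hq).2
      simp at this
    refine (Finset.card_le_card h1).trans_eq ?_
    rw [Finset.card_erase_of_mem (Finset.mem_univ _), Finset.card_univ, Fintype.card_prod,
      Fintype.card_prod, ZMod.card p]
    congr 1
    ring
  have h2 : Z (idT (ZMod p) 4 ι) ≤ (Fintype.piFinset (fun _ : ι => N0)).card := by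
    unfold Z
    refine Finset.card_le_card_of_injOn (fun q l => (q.1 l, q.2.1 l, q.2.2 l)) ?_ ?_
    · intro q hq
      have hq' := (Finset.mem_filter.1 (Finset.mem_coe.1 hq)).2
      refine Finset.mem_coe.2 (Fintype.mem_piFinset.2 fun l => ?_)
      refine Finset.mem_filter.2 ⟨Finset.mem_univ _, ?_⟩
      have := hq' l
      rwa [sl_id] at this
    · rintro ⟨x, y, z⟩ _ ⟨x', y', z'⟩ _ h
      have h' : ∀ l, x l = x' l ∧ y l = y' l ∧ z l = z' l := by
        intro l
        have := congrFun h l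
        simpa only [Prod.mk.injEq] using this
      refine Prod.ext (funext fun l => (h' l).1) (Prod.ext (funext fun l => (h' l).2.1)
        (funext fun l => (h' l).2.2))
  refine h2.trans ?_
  rw [Fintype.card_piFinset, Finset.prod_const, Finset.card_univ]
  exact Nat.pow_le_pow_left hN0card _

theorem id_gt : ∃ n0 : ℕ, ∀ (ι : Type) [Fintype ι] [DecidableEq ι], n0 ≤ Fintype.card ι →
    (2 : ℝ) < arank (idT (ZMod p) 4 ι) := by
  have hp1 : (1 : ℝ) < p := p_gt
  have hp3 : (0 : ℝ) < (p : ℝ) ^ 3 := by positivity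
  have hy : ((p : ℝ) ^ 3 - 1) / (p : ℝ) ^ 3 < 1 := by
    rw [div_lt_one hp3]
    linarith
  have hy0 : 0 ≤ ((p : ℝ) ^ 3 - 1) / (p : ℝ) ^ 3 := by
    refine div_nonneg ?_ hp3.le
    have : (1 : ℝ) ≤ (p : ℝ) ^ 3 := one_le_pow₀ hp1.le
    linarith
  obtain ⟨n0, hn0⟩ := exists_pow_lt_of_lt_one (show (0 : ℝ) < ((p : ℝ) ^ 2)⁻¹ by positivity) hy
  refine ⟨n0, fun ι _ _ hn => ?_⟩
  have h1 : (((p : ℝ) ^ 3 - 1) / (p : ℝ) ^ 3) ^ Fintype.card ι < ((p : ℝ) ^ 2)⁻¹ :=
    (pow_le_pow_of_le_one hy0 hy.le hn).trans_lt hn0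
  have h2 : p ^ 2 * Z (idT (ZMod p) 4 ι) < Fintype.card (ι → ZMod p) ^ 3 := by
    refine (Nat.mul_le_mul_left _ Z_id_le).trans_lt ?_
    rw [Fintype.card_fun, ZMod.card p]
    have hp3' : 1 ≤ p ^ 3 := Nat.one_le_pow _ _ (Fact.out : p.Prime).pos
    have h3 : (((p ^ 2 * (p ^ 3 - 1) ^ Fintype.card ι : ℕ)) : ℝ) <
        (((p ^ Fintype.card ι) ^ 3 : ℕ) : ℝ) := by
      push_cast [Nat.cast_sub hp3']
      rw [div_pow, div_lt_iff₀ (by positivity), inv_mul_eq_div, lt_div_iff₀ (by positivity)] at h1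
      calc (p : ℝ) ^ 2 * ((p : ℝ) ^ 3 - 1) ^ Fintype.card ι
          = ((p : ℝ) ^ 3 - 1) ^ Fintype.card ι * (p : ℝ) ^ 2 := by ring
        _ < ((p : ℝ) ^ 3) ^ Fintype.card ι := h1
        _ = ((p : ℝ) ^ Fintype.card ι) ^ 3 := by rw [← pow_mul, ← pow_mul, mul_comm]
    exact_mod_cast h3
  have := arank_gt h2
  exact_mod_cast this

/-- the key estimate -/
theorem growth (b : ℕ) (hb : 1 ≤ b) (c : ℝ) (hc0 : 0 < c) (hc1 : c < 1) :
    ∃ k : ℕ, 1 ≤ k ∧ c ^ (2 * k) * ((2 * (4 * b) : ℕ) : ℝ) ^ (2 * k) ≤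
      (((2 * k).choose k * ((b * (4 * b) ^ (k - 1)) * (b * (4 * b) ^ (k - 1)) - 1) : ℕ) : ℝ) := by
  have hc2 : c ^ 2 < 1 := pow_lt_one₀ hc0.le hc1 two_ne_zero
  have ht := tendsto_self_mul_const_pow_of_lt_one (sq_nonneg c) hc2
  have hev := (ht.eventually_lt_const (show (0 : ℝ) < 1 / 64 by norm_num)).and
    (Filter.eventually_ge_atTop 2)
  obtain ⟨k, hk1, hk2⟩ := hev.exists
  refine ⟨k, by omega, ?_⟩
  set ρ : ℕ := b * (4 * b) ^ (k - 1) with hρ
  have hρ2 : 2 ≤ ρ * ρ := by
    have h1 : 4 ≤ (4 * b) ^ (k - 1) := by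
      calc 4 ≤ 4 * b := by omega
        _ = (4 * b) ^ 1 := (pow_one _).symm
        _ ≤ (4 * b) ^ (k - 1) := Nat.pow_le_pow_right (by omega) (by omega)
    have h2 : 4 ≤ ρ := by
      calc 4 = 1 * 4 := by norm_num
        _ ≤ b * (4 * b) ^ (k - 1) := Nat.mul_le_mul hb h1
    nlinarith
  have hak : (4 * b) ^ k = 4 * ρ := by
    obtain ⟨k', rfl⟩ : ∃ k', k = k' + 1 := ⟨k - 1, by omega⟩
    rw [hρ, Nat.add_sub_cancel, pow_succ]
    ring
  have hakR : ((4 * b : ℕ) : ℝ) ^ k = 4 * (ρ : ℝ) := by exact_mod_cast hak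
  have hcb := Nat.four_pow_le_two_mul_self_mul_centralBinom k (by omega)
  rw [Nat.centralBinom_eq_two_mul_choose] at hcb
  have hcbR : (4 : ℝ) ^ k ≤ 2 * k * ((2 * k).choose k : ℝ) := by exact_mod_cast hcb
  set C : ℝ := ((2 * k).choose k : ℝ) with hC
  have hC0 : 0 ≤ C := Nat.cast_nonneg _
  have hcast : (((2 * k).choose k * (ρ * ρ - 1) : ℕ) : ℝ) = C * ((ρ : ℝ) * ρ - 1) := by
    rw [Nat.cast_mul, Nat.cast_sub (by omega)]
    push_cast
    rfl
  rw [hcast]
  have hρR : (2 : ℝ) ≤ (ρ : ℝ) * ρ := by exact_mod_cast hρ2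
  have hpow : c ^ (2 * k) * ((2 * (4 * b) : ℕ) : ℝ) ^ (2 * k) =
      (c ^ 2) ^ k * ((4 : ℝ) ^ k * (16 * ((ρ : ℝ) * ρ))) := by
    have h1 : ((2 * (4 * b) : ℕ) : ℝ) ^ (2 * k) = (4 : ℝ) ^ k * (((4 * b : ℕ) : ℝ) ^ k) ^ 2 := by
      have e1 : (2 : ℝ) ^ (2 * k) = 4 ^ k := by
        rw [pow_mul]
        norm_num
      have e2 : ((4 * b : ℕ) : ℝ) ^ (2 * k) = (((4 * b : ℕ) : ℝ) ^ k) ^ 2 := by
        rw [← pow_mul, mul_comm 2 k]
      rw [← e1, ← e2, ← mul_pow]
      congr 1
      push_cast
      ring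
    rw [h1, hakR, pow_mul c 2 k]
    ring
  rw [hpow]
  have hck : 0 ≤ (c ^ 2) ^ k := by positivity
  calc (c ^ 2) ^ k * ((4 : ℝ) ^ k * (16 * ((ρ : ℝ) * ρ)))
      ≤ (c ^ 2) ^ k * ((2 * k * C) * (16 * ((ρ : ℝ) * ρ))) := by gcongr
    _ = (64 * (k * (c ^ 2) ^ k)) * (C * ((ρ : ℝ) * ρ / 2)) := by ring
    _ ≤ 1 * (C * ((ρ : ℝ) * ρ / 2)) := by
        refine mul_le_mul_of_nonneg_right ?_ (by positivity)
        linarith
    _ = C * ((ρ : ℝ) * ρ / 2) := one_mul _
    _ ≤ C * ((ρ : ℝ) * ρ - 1) := by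
        refine mul_le_mul_of_nonneg_left ?_ hC0
        linarith

/-- **Main theorem.** For every prime `p` there are `n` and a 4-dimensional tensor `A` of side `n`
over `𝔽_p` with `r(A) < r(Id)` such that for every `c < 1` there is `m ≥ 1` with
`r(A^{⊗m}) ≥ c^m r(Id^{⊗m})`; here `r` is the partition rank or the analytic rank (the same `A`
serves for both). -/
theorem main (p : ℕ) [Fact p.Prime] : ∃ (n : ℕ) (A : (Fin 4 → Fin n) → ZMod p),
    (prank A < prank (idT (ZMod p) 4 (Fin n)) ∧
      ∀ c : ℝ, c < 1 → ∃ m : ℕ, 1 ≤ m ∧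
        c ^ m * prank (tpow (idT (ZMod p) 4 (Fin n)) m) ≤ prank (tpow A m)) ∧
    (arank A < arank (idT (ZMod p) 4 (Fin n)) ∧
      ∀ c : ℝ, c < 1 → ∃ m : ℕ, 1 ≤ m ∧
        c ^ m * arank (tpow (idT (ZMod p) 4 (Fin n)) m) ≤ arank (tpow A m)) := by
  obtain ⟨n0, hn0⟩ := id_gt (p := p)
  set b := n0 + 1 with hb
  set a := 4 * b with ha
  set n := Fintype.card (Bool × Fin a) with hn
  have hna : n = 2 * a := by
    rw [hn, Fintype.card_prod, Fintype.card_bool, Fintype.card_fin]
  let e : Fin n ≃ Bool × Fin a := (Fintype.equivFin (Bool × Fin a)).symm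
  have hn1 : 0 < n := by omega
  let o : Fin n := ⟨0, hn1⟩
  have hid : (2 : ℝ) < arank (idT (ZMod p) 4 (Fin n)) := hn0 (Fin n) (by
    rw [Fintype.card_fin]
    omega)
  have hTA : prank (TA e (ZMod p)) ≤ 2 := prank_TA_le e
  have hTAr : (prank (TA e (ZMod p)) : ℝ) ≤ 2 := by exact_mod_cast hTA
  have hidp := arank_le_prank (idT (ZMod p) 4 (Fin n)) o
  have hmain : ∀ c : ℝ, c < 1 → ∃ m : ℕ, 1 ≤ m ∧
      c ^ m * prank (tpow (idT (ZMod p) 4 (Fin n)) m) ≤ arank (tpow (TA e (ZMod p)) m) ∧
      c ^ m * arank (tpow (idT (ZMod p) 4 (Fin n)) m) ≤ arank (tpow (TA e (ZMod p)) m) := by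
    intro c hc
    rcases le_or_gt c 0 with hc0 | hc0
    · refine ⟨1, le_rfl, ?_, ?_⟩
      · refine le_trans ?_ (arank_nonneg _)
        rw [pow_one]
        exact mul_nonpos_of_nonpos_of_nonneg hc0 (Nat.cast_nonneg _)
      · refine le_trans ?_ (arank_nonneg _)
        rw [pow_one]
        exact mul_nonpos_of_nonpos_of_nonneg hc0 (arank_nonneg _)
    · obtain ⟨k, hk1, hk⟩ := growth b (by omega) c hc0 hc
      have hZ := Z_upper e (ZMod p) (m := 2 * k) (b := b) (k := k) (by omega) hk1 ha rfl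
      rw [ZMod.card p] at hZ
      have hE := arank_ge hZ
      have hle : c ^ (2 * k) * ((n : ℕ) : ℝ) ^ (2 * k) ≤ arank (tpow (TA e (ZMod p)) (2 * k)) := by
        have hnR : ((n : ℕ) : ℝ) = ((2 * (4 * b) : ℕ) : ℝ) := by
          exact_mod_cast hna.trans (by rw [ha])
        rw [hnR]
        exact hk.trans hE
      have hcp : 0 ≤ c ^ (2 * k) := pow_nonneg hc0.le _
      have hpr : (prank (tpow (idT (ZMod p) 4 (Fin n)) (2 * k)) : ℝ) ≤ ((n : ℕ) : ℝ) ^ (2 * k) := by
        rw [tpow_id]
        have := prank_id_le (ι := Fin (2 * k) → Fin n) (F := ZMod p)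
        rw [Fintype.card_fun, Fintype.card_fin, Fintype.card_fin] at this
        exact_mod_cast this
      have har : arank (tpow (idT (ZMod p) 4 (Fin n)) (2 * k)) ≤
          prank (tpow (idT (ZMod p) 4 (Fin n)) (2 * k)) := arank_le_prank _ (fun _ => o)
      refine ⟨2 * k, by omega, ?_, ?_⟩
      · exact (mul_le_mul_of_nonneg_left hpr hcp).trans hle
      · exact (mul_le_mul_of_nonneg_left (har.trans hpr) hcp).trans hle
  refine ⟨n, TA e (ZMod p), ⟨?_, ?_⟩, ?_, ?_⟩
  · have h1 : (prank (TA e (ZMod p)) : ℝ) < prank (idT (ZMod p) 4 (Fin n)) :=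
      hTAr.trans_lt (hid.trans_le hidp)
    exact_mod_cast h1
  · intro c hc
    obtain ⟨m, hm, h1, -⟩ := hmain c hc
    exact ⟨m, hm, h1.trans (arank_le_prank _ (fun _ => o))⟩
  · exact ((arank_le_prank (TA e (ZMod p)) o).trans hTAr).trans_lt hid
  · intro c hc
    obtain ⟨m, hm, -, h2⟩ := hmain c hc
    exact ⟨m, hm, h2⟩

end Final

end Pool.Agent.H12Tensor

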