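import Mathlib

set_option autoImplicit false

open Finset

namespace Pool.Agent.H12Tensor

/-! ### Definitions -/

/-- the multilinear form `f_A` of the `d`-dimensional tensor `A` (sides indexed by `ι`) -/
def form {F : Type} [Field F] {d : ℕ} {ι : Type} [Fintype ι] (A : (Fin d → ι) → F)
    (X : Fin d → ι → F) : F := ∑ I : Fin d → ι, A I * ∏ k, X k (I k)

/-- `B` is a product `g h` where `g` depends only on the coordinates in a set `S`, `h` only on the
coordinates outside `S`, and `∅ ≠ S ≠ [d]`. -/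
def IsPartTerm {F : Type} [Field F] {d : ℕ} {ι : Type} (B : (Fin d → ι) → F) : Prop :=
  ∃ (S : Finset (Fin d)) (G H : (Fin d → ι) → F), S.Nonempty ∧ S ≠ Finset.univ ∧
    (∀ I I', (∀ k ∈ S, I k = I' k) → G I = G I') ∧
    (∀ I I', (∀ k, k ∉ S → I k = I' k) → H I = H I') ∧ ∀ I, B I = G I * H I

/-- partition rank -/
noncomputable def prank {F : Type} [Field F] {d : ℕ} {ι : Type} (A : (Fin d → ι) → F) : ℕ :=
  sInf {r | ∃ B : Fin r → (Fin d → ι) → F, (∀ j, IsPartTerm (B j)) ∧ ∀ I, A I = ∑ j, B j I}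

/-- the bias `E ω^{f_A(X)}` -/
noncomputable def bias {p : ℕ} [Fact p.Prime] {d : ℕ} {ι : Type} [Fintype ι] [DecidableEq ι]
    (A : (Fin d → ι) → ZMod p) : ℝ :=
  ((∑ X : Fin d → ι → ZMod p, Complex.exp (2 * Real.pi * Complex.I * ((form A X).val : ℂ) / p)) /
    (Fintype.card (Fin d → ι → ZMod p) : ℂ)).re

/-- analytic rank -/
noncomputable def arank {p : ℕ} [Fact p.Prime] {d : ℕ} {ι : Type} [Fintype ι] [DecidableEq ι]
    (A : (Fin d → ι) → ZMod p) : ℝ := - Real.logb p (bias A)

open Classical in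
/-- the identity tensor -/
noncomputable def idT (F : Type) [Field F] (d : ℕ) (ι : Type) : (Fin d → ι) → F :=
  fun I => if ∀ k l, I k = I l then 1 else 0

/-- the tensor power `A^{⊗m}`, with side indexed by `ι^m` -/
def tpow {F : Type} [Field F] {d : ℕ} {ι : Type} (A : (Fin d → ι) → F) (m : ℕ) :
    (Fin d → (Fin m → ι)) → F := fun I => ∏ t, A (fun k => I k t)

end Pool.Agent.H12Tensor
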