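import Mathlib
set_option autoImplicit false

/-!
Averaging over rotations: among all packings of caps of angular radius `π/6` on the unit sphere, the
density `δ` is maximised by the packings with the maximum number of caps.
-/
namespace Pool.Agent.H15Cap

open MeasureTheory Set
open scoped ENNReal

/-- Euclidean 3-space. -/
abbrev E3 := EuclideanSpace ℝ (Fin 3)

/-- Surface area on the unit sphere: three times the volume of the cone (with apex `0`, inside the unit ball)
over a set. It is concentrated on the unit sphere. -/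
noncomputable def sarea : Measure E3 :=
  (3 : ℝ≥0∞) • Measure.map (fun x : E3 => ‖x‖⁻¹ • x) (volume.restrict (Metric.ball (0 : E3) 1))

/-- The open spherical cap with centre `u` and angular radius `ρ`. -/
def cap (u : E3) (ρ : ℝ) : Set E3 := {x | ‖x‖ = 1 ∧ InnerProductGeometry.angle u x < ρ}

/-- A finite set of unit vectors, any two distinct ones at angular distance at least `π/3`. -/
def IsPacking (U : Finset E3) : Prop :=
  (∀ u ∈ U, ‖u‖ = 1) ∧ ∀ u ∈ U, ∀ v ∈ U, u ≠ v → Real.pi / 3 ≤ InnerProductGeometry.angle u v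

/-- The density `δ(U)`: total area of the caps of radius `π/6` divided by the area of the union of the
caps of radius `π/3`. -/
noncomputable def delta (U : Finset E3) : ℝ :=
  (∑ u ∈ U, (sarea (cap u (Real.pi / 6))).toReal) / (sarea (⋃ u ∈ U, cap u (Real.pi / 3))).toReal

/-- The orthogonal group, as unitary operators. -/
noncomputable abbrev G3 := unitary (E3 →L[ℝ] E3)

instance : ContinuousStar (E3 →L[ℝ] E3) := ⟨(ContinuousLinearMap.adjoint (𝕜 := ℝ) (E := E3) (F := E3)).continuous⟩

/-- The action of the orthogonal group. -/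
noncomputable def act (g : G3) (x : E3) : E3 := (g : E3 →L[ℝ] E3) x

theorem act_mul (g h : G3) (x : E3) : act (g * h) x = act g (act h x) := by
  unfold act
  simp

theorem act_one (x : E3) : act 1 x = x := by
  unfold act; simp

theorem act_norm (g : G3) (x : E3) : ‖act g x‖ = ‖x‖ := g.val.norm_map_of_mem_unitary g.property x

theorem act_angle (g : G3) (x y : E3) :
    InnerProductGeometry.angle (act g x) (act g y) = InnerProductGeometry.angle x y := by
  have := (Unitary.linearIsometryEquiv g).toLinearIsometry.angle_map x y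
  exact this

instance : CompactSpace G3 := by
  apply isCompact_iff_compactSpace.mp
  apply Metric.isCompact_of_isClosed_isBounded
  · exact isClosed_unitary
  · rw [Metric.isBounded_iff_subset_closedBall 0]
    refine ⟨1, ?_⟩
    intro u hu
    rw [mem_closedBall_zero_iff]
    exact (CStarRing.norm_of_mem_unitary hu).le

theorem act_cont : Continuous (fun p : G3 × E3 => act p.1 p.2) := by
  unfold act
  exact (continuous_subtype_val.comp continuous_fst).clm_apply continuous_snd

theorem act_trans (x y : E3) (h : ‖x‖ = ‖y‖) : ∃ g : G3, act g x = y := by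
  refine ⟨Unitary.linearIsometryEquiv.symm (Submodule.reflection (ℝ ∙ (x - y))ᗮ), ?_⟩
  exact Submodule.reflection_sub h

theorem nrm_meas : Measurable (fun x : E3 => ‖x‖⁻¹ • x) := by
  fun_prop

theorem act_meas (g : G3) : Measurable (act g) := by
  unfold act
  exact (g : E3 →L[ℝ] E3).continuous.measurable

theorem sarea_map (g : G3) : Measure.map (act g) sarea = sarea := by
  unfold sarea
  rw [Measure.map_smul, Measure.map_map (act_meas g) nrm_meas]
  congr 1
  have h1 : (act g ∘ fun x : E3 => ‖x‖⁻¹ • x) = (fun x : E3 => ‖x‖⁻¹ • x) ∘ act g := by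
    funext x
    simp only [Function.comp]
    rw [act_norm]
    unfold act
    rw [map_smul]
  rw [h1, ← Measure.map_map nrm_meas (act_meas g)]
  congr 1
  have h2 : MeasurePreserving (act g) (volume : Measure E3) volume :=
    (Unitary.linearIsometryEquiv g).measurePreserving
  have h3 : act g ⁻¹' (Metric.ball (0 : E3) 1) = Metric.ball (0 : E3) 1 := by
    ext x
    simp only [Set.mem_preimage, mem_ball_zero_iff, act_norm]
  have h4 := (h2.restrict_preimage (s := Metric.ball (0 : E3) 1) Metric.isOpen_ball.measurableSet).map_eq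
  rw [h3] at h4
  exact h4

theorem sarea_ae : ∀ᵐ x ∂sarea, ‖x‖ = 1 := by
  unfold sarea
  refine Measure.ae_smul_measure ?_ _
  rw [ae_map_iff nrm_meas.aemeasurable (measurableSet_eq_fun measurable_norm measurable_const)]
  apply ae_restrict_of_ae
  have : ∀ᵐ x : E3 ∂volume, x ≠ 0 := by
    rw [ae_iff]
    simp
  filter_upwards [this] with x hx
  rw [norm_smul, norm_inv, norm_norm]
  exact inv_mul_cancel₀ (norm_ne_zero_iff.mpr hx)

instance : IsFiniteMeasure (volume.restrict (Metric.ball (0 : E3) 1)) :=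
  ⟨by rw [Measure.restrict_apply_univ]; exact measure_ball_lt_top⟩

instance : IsFiniteMeasure sarea := by
  unfold sarea
  exact Measure.smul_finite _ (by norm_num)

theorem sarea_univ_ne : sarea univ ≠ 0 := by
  unfold sarea
  rw [Measure.smul_apply, Measure.map_apply nrm_meas MeasurableSet.univ, preimage_univ, Measure.restrict_apply_univ]
  simp only [smul_eq_mul, ne_eq, mul_eq_zero, not_or]
  exact ⟨by norm_num, (Metric.measure_ball_pos volume _ one_pos).ne'⟩

/-- Haar measure. -/
noncomputable def mu : Measure G3 := Measure.haar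

instance : mu.IsMulLeftInvariant := by unfold mu; infer_instance
instance : IsFiniteMeasure mu := by unfold mu; infer_instance

theorem mu_univ_ne : mu univ ≠ 0 := by
  unfold mu
  exact (isOpen_univ.measure_pos _ ⟨1, mem_univ _⟩).ne'

theorem ind_meas (R : Set E3) (hR : MeasurableSet R) :
    Measurable (fun p : E3 × G3 => R.indicator (1 : E3 → ℝ≥0∞) (act p.2⁻¹ p.1)) := by
  have h1 : Continuous (fun p : E3 × G3 => act p.2⁻¹ p.1) :=
    act_cont.comp ((continuous_snd.inv).prodMk continuous_fst)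
  exact (measurable_one.indicator hR).comp h1.measurable

theorem h_const (R : Set E3) (x y : E3) (hxy : ‖x‖ = ‖y‖) :
    ∫⁻ g, R.indicator (1 : E3 → ℝ≥0∞) (act g⁻¹ x) ∂mu = ∫⁻ g, R.indicator (1 : E3 → ℝ≥0∞) (act g⁻¹ y) ∂mu := by
  obtain ⟨k, rfl⟩ := act_trans x y hxy
  have h := lintegral_mul_left_eq_self (μ := mu) (fun g => R.indicator (1 : E3 → ℝ≥0∞) (act g⁻¹ x)) k⁻¹
  rw [← h]
  apply lintegral_congr
  intro g
  rw [mul_inv_rev, inv_inv, act_mul]

theorem avg (R : Set E3) (hR : MeasurableSet R) :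
    ∫⁻ x, (∫⁻ g, R.indicator (1 : E3 → ℝ≥0∞) (act g⁻¹ x) ∂mu) ∂sarea = sarea R * mu univ := by
  rw [lintegral_lintegral_swap (ind_meas R hR).aemeasurable]
  have : ∀ g : G3, ∫⁻ x, R.indicator (1 : E3 → ℝ≥0∞) (act g⁻¹ x) ∂sarea = sarea R := by
    intro g
    have h1 : ∫⁻ x, R.indicator (1 : E3 → ℝ≥0∞) (act g⁻¹ x) ∂sarea =
        ∫⁻ x, R.indicator (1 : E3 → ℝ≥0∞) x ∂(Measure.map (act g⁻¹) sarea) := by
      rw [lintegral_map (measurable_one.indicator hR) (act_meas _)]
    rw [h1, sarea_map, lintegral_indicator_one hR]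
  rw [lintegral_congr this, lintegral_const]

theorem avg' (R : Set E3) (hR : MeasurableSet R) (v : E3) (hv : ‖v‖ = 1) :
    (∫⁻ g, R.indicator (1 : E3 → ℝ≥0∞) (act g⁻¹ v) ∂mu) * sarea univ = sarea R * mu univ := by
  rw [← avg R hR, ← lintegral_const]
  apply lintegral_congr_ae
  filter_upwards [sarea_ae] with x hx
  exact h_const R v x (by rw [hv, hx])

/-- The part of the sphere not covered by the caps of radius `π/3`. -/
def rest (U : Finset E3) : Set E3 :=
  {x | ‖x‖ = 1 ∧ ∀ u ∈ U, Real.pi / 3 ≤ InnerProductGeometry.angle u x}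

theorem angle_meas (u : E3) : Measurable (fun x : E3 => InnerProductGeometry.angle u x) := by
  unfold InnerProductGeometry.angle
  fun_prop

theorem cap_meas (u : E3) (ρ : ℝ) : MeasurableSet (cap u ρ) := by
  unfold cap
  exact (measurableSet_eq_fun measurable_norm measurable_const).inter
    (measurableSet_lt (angle_meas u) measurable_const)

theorem rest_meas (U : Finset E3) : MeasurableSet (rest U) := by
  have : rest U = {x | ‖x‖ = 1} ∩ ⋂ u ∈ U, {x | Real.pi / 3 ≤ InnerProductGeometry.angle u x} := by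
    ext x
    simp [rest]
  rw [this]
  refine (measurableSet_eq_fun measurable_norm measurable_const).inter ?_
  exact Finset.measurableSet_biInter _ (fun u _ => measurableSet_le measurable_const (angle_meas u))

/-- Any rotated copy of a packing `V` meets the uncovered region of `U` in few points. -/
theorem count (U V : Finset E3) (hU : IsPacking U) (hV : IsPacking V) (N : ℕ)
    (hN : ∀ W : Finset E3, IsPacking W → W.card ≤ N) (g : G3) :
    (∑ v ∈ V, (rest U).indicator (1 : E3 → ℝ≥0∞) (act g⁻¹ v)) + U.card ≤ N := by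
  classical
  have h1 : (∑ v ∈ V, (rest U).indicator (1 : E3 → ℝ≥0∞) (act g⁻¹ v)) =
      ((V.filter (fun v => act g⁻¹ v ∈ rest U)).card : ℝ≥0∞) := by
    rw [Finset.card_filter]
    push_cast
    apply Finset.sum_congr rfl
    intro v _
    rw [indicator_apply]
    split_ifs <;> simp
  rw [h1]
  have hinj : Function.Injective (act g⁻¹) := by
    intro x y hxy
    have h2 : act g (act g⁻¹ x) = act g (act g⁻¹ y) := by rw [hxy]
    rw [← act_mul, ← act_mul, mul_inv_cancel, act_one, act_one] at h2
    exact h2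
  set A := (V.filter (fun v => act g⁻¹ v ∈ rest U)).image (act g⁻¹) with hA
  have hAcard : A.card = (V.filter (fun v => act g⁻¹ v ∈ rest U)).card :=
    Finset.card_image_of_injective _ hinj
  have hmemA : ∀ x ∈ A, x ∈ rest U ∧ ∃ v ∈ V, act g⁻¹ v = x := by
    intro x hx
    rw [hA, Finset.mem_image] at hx
    obtain ⟨v, hv, rfl⟩ := hx
    rw [Finset.mem_filter] at hv
    exact ⟨hv.2, v, hv.1, rfl⟩
  have hdisj : Disjoint A U := by
    rw [Finset.disjoint_left]
    intro x hx hxU
    obtain ⟨hr, -⟩ := hmemA x hx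
    have h3 := hr.2 x hxU
    have h4 : x ≠ 0 := by
      intro h0
      have := hr.1
      rw [h0, norm_zero] at this
      exact zero_ne_one this
    rw [InnerProductGeometry.angle_self h4] at h3
    have := Real.pi_pos
    linarith
  have hpack : IsPacking (A ∪ U) := by
    constructor
    · intro x hx
      rcases Finset.mem_union.mp hx with h | h
      · exact (hmemA x h).1.1
      · exact hU.1 x h
    · intro x hx y hy hxy
      rcases Finset.mem_union.mp hx with h | h <;> rcases Finset.mem_union.mp hy with h' | h'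
      · obtain ⟨-, v, hv, rfl⟩ := hmemA x h
        obtain ⟨-, w, hw, rfl⟩ := hmemA y h'
        rw [act_angle]
        exact hV.2 v hv w hw (fun h5 => hxy (by rw [h5]))
      · rw [InnerProductGeometry.angle_comm]
        exact (hmemA x h).1.2 y h'
      · exact (hmemA y h').1.2 x h
      · exact hU.2 x h y h' hxy
  have h6 := hN _ hpack
  rw [Finset.card_union_of_disjoint hdisj, hAcard] at h6
  exact_mod_cast h6

/-- The key inequality: the uncovered region is small. -/
theorem key (U V : Finset E3) (hU : IsPacking U) (hV : IsPacking V)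
    (hmax : ∀ W : Finset E3, IsPacking W → W.card ≤ V.card) :
    (V.card : ℝ≥0∞) * sarea (rest U) + U.card * sarea univ ≤ V.card * sarea univ := by
  have h1 : ∀ v ∈ V, (∫⁻ g, (rest U).indicator (1 : E3 → ℝ≥0∞) (act g⁻¹ v) ∂mu) * sarea univ =
      sarea (rest U) * mu univ := fun v hv => avg' _ (rest_meas U) v (hV.1 v hv)
  have h2 : (∑ v ∈ V, (∫⁻ g, (rest U).indicator (1 : E3 → ℝ≥0∞) (act g⁻¹ v) ∂mu)) + U.card * mu univ ≤
      V.card * mu univ := by
    rw [← lintegral_finsetSum]
    · rw [← lintegral_const, ← lintegral_const, ← lintegral_add_right _ measurable_const]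
      exact lintegral_mono (fun g => count U V hU hV V.card hmax g)
    · intro v _
      have := (ind_meas (rest U) (rest_meas U)).comp (measurable_const.prodMk measurable_id : Measurable (fun g : G3 => ((v : E3), g)))
      exact this
  have h3 : (∑ v ∈ V, (∫⁻ g, (rest U).indicator (1 : E3 → ℝ≥0∞) (act g⁻¹ v) ∂mu)) * sarea univ =
      V.card * (sarea (rest U) * mu univ) := by
    rw [Finset.sum_mul, Finset.sum_congr rfl h1, Finset.sum_const, nsmul_eq_mul]
  have h4 := mul_le_mul_left h2 (sarea univ)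
  rw [add_mul, h3] at h4
  have h5 : ((V.card : ℝ≥0∞) * sarea (rest U) + U.card * sarea univ) * mu univ ≤
      (V.card * sarea univ) * mu univ := by
    calc _ = V.card * (sarea (rest U) * mu univ) + U.card * mu univ * sarea univ := by ring
      _ ≤ _ := h4
      _ = _ := by ring
  exact (ENNReal.mul_le_mul_iff_left mu_univ_ne (measure_ne_top _ _)).mp h5

theorem cap_eq (u v : E3) (hu : ‖u‖ = 1) (hv : ‖v‖ = 1) (ρ : ℝ) : sarea (cap u ρ) = sarea (cap v ρ) := by
  obtain ⟨g, rfl⟩ := act_trans u v (by rw [hu, hv])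
  have h : (Measure.map (act g) sarea) (cap (act g u) ρ) = sarea (cap (act g u) ρ) := by rw [sarea_map]
  rw [Measure.map_apply (act_meas g) (cap_meas _ _)] at h
  rw [← h]
  congr 1
  ext x
  simp only [cap, mem_ofPred_eq, mem_preimage, act_norm, act_angle]

theorem sphere_area : sarea {x : E3 | ‖x‖ = 1} = sarea univ :=
  measure_congr (Filter.eventuallyEq_univ.mpr sarea_ae)

theorem union_rest (U : Finset E3) :
    sarea (⋃ u ∈ U, cap u (Real.pi / 3)) + sarea (rest U) = sarea univ := by
  rw [← measure_union _ (rest_meas U), ← sphere_area]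
  · congr 1
    ext x
    simp only [mem_union, mem_iUnion, cap, rest, mem_ofPred_eq, exists_prop]
    constructor
    · rintro (⟨u, -, h, -⟩ | ⟨h, -⟩) <;> exact h
    · intro h
      by_cases h' : ∀ u ∈ U, Real.pi / 3 ≤ InnerProductGeometry.angle u x
      · exact Or.inr ⟨h, h'⟩
      · push Not at h'
        obtain ⟨u, hu, hlt⟩ := h'
        exact Or.inl ⟨u, hu, h, hlt⟩
  · rw [Set.disjoint_left]
    intro x hx hr
    simp only [mem_iUnion, cap, mem_ofPred_eq, exists_prop] at hx
    obtain ⟨u, hu, -, hlt⟩ := hx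
    exact absurd (hr.2 u hu) (not_le.mpr hlt)

theorem S_pos : 0 < (sarea univ).toReal :=
  ENNReal.toReal_pos sarea_univ_ne (measure_ne_top _ _)

/-- The union of the caps of radius `π/3` covers at least the fraction `|U| / N` of the sphere. -/
theorem cover_real (U V : Finset E3) (hU : IsPacking U) (hV : IsPacking V)
    (hmax : ∀ W : Finset E3, IsPacking W → W.card ≤ V.card) :
    (U.card : ℝ) * (sarea univ).toReal ≤ V.card * (sarea (⋃ u ∈ U, cap u (Real.pi / 3))).toReal := by
  have h1 := key U V hU hV hmax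
  have h2 := union_rest U
  have h3 : (sarea (⋃ u ∈ U, cap u (Real.pi / 3))).toReal + (sarea (rest U)).toReal = (sarea univ).toReal := by
    rw [← ENNReal.toReal_add (measure_ne_top _ _) (measure_ne_top _ _), h2]
  have h4 : (V.card : ℝ) * (sarea (rest U)).toReal + U.card * (sarea univ).toReal ≤
      V.card * (sarea univ).toReal := by
    have h5 := ENNReal.toReal_mono (ENNReal.mul_ne_top (ENNReal.natCast_ne_top _) (measure_ne_top _ _)) h1
    rw [ENNReal.toReal_add (ENNReal.mul_ne_top (ENNReal.natCast_ne_top _) (measure_ne_top _ _))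
      (ENNReal.mul_ne_top (ENNReal.natCast_ne_top _) (measure_ne_top _ _)), ENNReal.toReal_mul,
      ENNReal.toReal_mul, ENNReal.toReal_mul, ENNReal.toReal_natCast, ENNReal.toReal_natCast] at h5
    exact h5
  nlinarith [h3, h4]

theorem sum_caps (U : Finset E3) (hU : IsPacking U) (v : E3) (hv : ‖v‖ = 1) :
    ∑ u ∈ U, (sarea (cap u (Real.pi / 6))).toReal = U.card * (sarea (cap v (Real.pi / 6))).toReal := by
  rw [Finset.sum_congr rfl (fun u hu => by rw [cap_eq u v (hU.1 u hu) hv]), Finset.sum_const, nsmul_eq_mul]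

/-- A packing of maximum cardinality: its caps of radius `π/3` cover the sphere. -/
theorem rest_max (V : Finset E3) (hV : IsPacking V)
    (hmax : ∀ W : Finset E3, IsPacking W → W.card ≤ V.card) : rest V = ∅ := by
  classical
  rw [Set.eq_empty_iff_forall_notMem]
  intro x hx
  have hxV : x ∉ V := by
    intro h
    have h3 := hx.2 x h
    have h4 : x ≠ 0 := by
      intro h0
      have := hx.1
      rw [h0, norm_zero] at this
      exact zero_ne_one this
    rw [InnerProductGeometry.angle_self h4] at h3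
    have := Real.pi_pos
    linarith
  have hp : IsPacking (insert x V) := by
    constructor
    · intro u hu
      rcases Finset.mem_insert.mp hu with rfl | h
      · exact hx.1
      · exact hV.1 u h
    · intro u hu w hw huw
      rcases Finset.mem_insert.mp hu with rfl | h <;> rcases Finset.mem_insert.mp hw with rfl | h'
      · exact absurd rfl huw
      · rw [InnerProductGeometry.angle_comm]; exact hx.2 w h'
      · exact hx.2 u h
      · exact hV.2 u h w h' huw
  have := hmax _ hp
  rw [Finset.card_insert_of_notMem hxV] at this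
  omega

theorem disc (s : ℝ) : volume {y : Fin 2 → ℝ | y 0 ^ 2 + y 1 ^ 2 < s} = ENNReal.ofReal (Real.pi * s) := by
  have h1 : {y : Fin 2 → ℝ | y 0 ^ 2 + y 1 ^ 2 < s} =
      (WithLp.toLp 2 : (Fin 2 → ℝ) → EuclideanSpace ℝ (Fin 2)) ⁻¹' (Metric.ball 0 (Real.sqrt s)) := by
    ext y
    simp only [mem_ofPred_eq, mem_preimage, mem_ball_zero_iff, EuclideanSpace.norm_eq, Fin.sum_univ_two,
      Real.norm_eq_abs, sq_abs]
    by_cases hs : 0 ≤ s
    · rw [Real.sqrt_lt_sqrt_iff (by positivity)]
    · push Not at hs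
      rw [Real.sqrt_eq_zero_of_nonpos hs.le]
      constructor
      · intro h
        have := add_nonneg (sq_nonneg (y 0)) (sq_nonneg (y 1))
        linarith
      · intro h
        exact absurd h (not_lt.mpr (Real.sqrt_nonneg _))
  rw [h1, (PiLp.volume_preserving_toLp (Fin 2)).measure_preimage Metric.isOpen_ball.measurableSet.nullMeasurableSet,
    EuclideanSpace.volume_ball_fin_two]
  by_cases hs : 0 ≤ s
  · rw [← ENNReal.ofReal_pow (Real.sqrt_nonneg _), Real.sq_sqrt hs, ← ENNReal.ofReal_mul hs, mul_comm]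
  · push Not at hs
    have h0 : Real.pi * s ≤ 0 := mul_nonpos_of_nonneg_of_nonpos Real.pi_pos.le hs.le
    rw [Real.sqrt_eq_zero_of_nonpos hs.le, ENNReal.ofReal_of_nonpos h0]
    simp

/-- The cone over the cap. -/
def K : Set (ℝ × (Fin 2 → ℝ)) :=
  {p | 0 < p.1 ∧ 3 * (p.2 0 ^ 2 + p.2 1 ^ 2) < p.1 ^ 2 ∧ p.1 ^ 2 + (p.2 0 ^ 2 + p.2 1 ^ 2) < 1}

theorem K_meas : MeasurableSet K := by
  have h : K = {p : ℝ × (Fin 2 → ℝ) | 0 < p.1} ∩ ({p | 3 * (p.2 0 ^ 2 + p.2 1 ^ 2) < p.1 ^ 2} ∩
      {p | p.1 ^ 2 + (p.2 0 ^ 2 + p.2 1 ^ 2) < 1}) := rfl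
  rw [h]
  refine (measurableSet_lt measurable_const measurable_fst).inter
    ((measurableSet_lt ?_ ?_).inter (measurableSet_lt ?_ measurable_const))
  all_goals fun_prop

theorem slice (x : ℝ) : volume (Prod.mk x ⁻¹' K) =
    (Ioc (0 : ℝ) 1).indicator (fun x => ENNReal.ofReal (Real.pi * min (x ^ 2 / 3) (1 - x ^ 2))) x := by
  by_cases hx : 0 < x
  · have h1 : Prod.mk x ⁻¹' K = {y : Fin 2 → ℝ | y 0 ^ 2 + y 1 ^ 2 < min (x ^ 2 / 3) (1 - x ^ 2)} := by
      ext y
      simp only [K, mem_preimage, mem_ofPred_eq, lt_min_iff]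
      constructor
      · rintro ⟨-, h2, h3⟩
        constructor <;> linarith
      · rintro ⟨h2, h3⟩
        refine ⟨hx, ?_, ?_⟩ <;> linarith
    rw [h1, disc]
    by_cases h2 : x ≤ 1
    · rw [indicator_of_mem (by exact ⟨hx, h2⟩)]
    · rw [indicator_of_notMem (fun h => h2 h.2)]
      apply ENNReal.ofReal_of_nonpos
      apply mul_nonpos_of_nonneg_of_nonpos Real.pi_pos.le
      push Not at h2
      exact (min_le_right _ _).trans (by nlinarith)
  · rw [indicator_of_notMem (fun h => hx h.1)]
    have : Prod.mk x ⁻¹' K = ∅ := by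
      ext y
      simp only [K, mem_preimage, mem_ofPred_eq, mem_empty_iff_false, iff_false]
      exact fun h => hx h.1
    rw [this, measure_empty]

theorem integ : ∫ x in (0 : ℝ)..1, Real.pi * min (x ^ 2 / 3) (1 - x ^ 2) =
    2 * Real.pi / 3 * (1 - Real.sqrt 3 / 2) := by
  have hc2 : (Real.sqrt 3 / 2) ^ 2 = 3 / 4 := by
    rw [div_pow, Real.sq_sqrt (by norm_num)]; norm_num
  have hc0 : 0 ≤ Real.sqrt 3 / 2 := by positivity
  have hc1 : Real.sqrt 3 / 2 ≤ 1 := by nlinarith
  have hcont : Continuous (fun x : ℝ => Real.pi * min (x ^ 2 / 3) (1 - x ^ 2)) := by fun_prop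
  rw [← intervalIntegral.integral_add_adjacent_intervals (hcont.intervalIntegrable 0 (Real.sqrt 3 / 2))
    (hcont.intervalIntegrable (Real.sqrt 3 / 2) 1)]
  have i1 : ∫ x in (0 : ℝ)..(Real.sqrt 3 / 2), Real.pi * min (x ^ 2 / 3) (1 - x ^ 2) =
      ∫ x in (0 : ℝ)..(Real.sqrt 3 / 2), Real.pi / 3 * x ^ 2 := by
    apply intervalIntegral.integral_congr
    intro x hx
    rw [uIcc_of_le hc0] at hx
    have : x ^ 2 ≤ 3 / 4 := by rw [← hc2]; exact pow_le_pow_left₀ hx.1 hx.2 2
    simp only
    rw [min_eq_left (by linarith)]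
    ring
  have i2 : ∫ x in (Real.sqrt 3 / 2)..1, Real.pi * min (x ^ 2 / 3) (1 - x ^ 2) =
      ∫ x in (Real.sqrt 3 / 2)..1, Real.pi * (1 - x ^ 2) := by
    apply intervalIntegral.integral_congr
    intro x hx
    rw [uIcc_of_le hc1] at hx
    have : 3 / 4 ≤ x ^ 2 := by rw [← hc2]; exact pow_le_pow_left₀ hc0 hx.1 2
    simp only
    rw [min_eq_right (by linarith)]
  rw [i1, i2, intervalIntegral.integral_const_mul, intervalIntegral.integral_const_mul, integral_pow,
    intervalIntegral.integral_sub (by simp) (by simp), integral_pow, intervalIntegral.integral_const]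
  have hc3 : (Real.sqrt 3 / 2) ^ 3 = 3 / 4 * (Real.sqrt 3 / 2) := by
    rw [pow_succ, hc2]
  norm_num only [smul_eq_mul]
  rw [hc3]
  ring

theorem volK : (volume : Measure (ℝ × (Fin 2 → ℝ))) K = ENNReal.ofReal (2 * Real.pi / 3 * (1 - Real.sqrt 3 / 2)) := by
  rw [Measure.volume_eq_prod, Measure.prod_apply K_meas, lintegral_congr slice,
    lintegral_indicator measurableSet_Ioc, ← integ, intervalIntegral.integral_of_le zero_le_one]
  rw [ofReal_integral_eq_lintegral_ofReal]
  · have hcont : Continuous (fun x : ℝ => Real.pi * min (x ^ 2 / 3) (1 - x ^ 2)) := by fun_prop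
    exact hcont.integrableOn_Ioc
  · rw [Filter.EventuallyLE, ae_restrict_iff' measurableSet_Ioc]
    refine Filter.Eventually.of_forall (fun x hx => ?_)
    have : 0 ≤ min (x ^ 2 / 3) (1 - x ^ 2) := le_min (by positivity) (by nlinarith [hx.1, hx.2])
    exact mul_nonneg Real.pi_pos.le this

theorem volCone : volume {x : E3 | ‖x‖ < 1 ∧ 0 < x 0 ∧ 3 * (x 1 ^ 2 + x 2 ^ 2) < x 0 ^ 2} =
    ENNReal.ofReal (2 * Real.pi / 3 * (1 - Real.sqrt 3 / 2)) := by
  have h1 := (volume_preserving_piFinSuccAbove (fun _ : Fin 3 => ℝ) 0).comp (PiLp.volume_preserving_ofLp (Fin 3))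
  rw [← volK, ← h1.measure_preimage K_meas.nullMeasurableSet]
  congr 1
  ext x
  have hn : ‖x‖ < 1 ↔ x 0 ^ 2 + (x 1 ^ 2 + x 2 ^ 2) < 1 := by
    rw [EuclideanSpace.norm_eq, Fin.sum_univ_three]
    simp only [Real.norm_eq_abs, sq_abs]
    rw [Real.sqrt_lt' one_pos, one_pow, add_assoc]
  simp only [mem_ofPred_eq, mem_preimage, K, Function.comp, hn]
  constructor
  · rintro ⟨a, b, c⟩
    exact ⟨b, c, a⟩
  · rintro ⟨b, c, a⟩
    exact ⟨a, b, c⟩

theorem cone_set : (fun x : E3 => ‖x‖⁻¹ • x) ⁻¹' (cap (EuclideanSpace.single 0 1) (Real.pi / 6)) ∩ Metric.ball (0 : E3) 1 =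
    {x : E3 | ‖x‖ < 1 ∧ 0 < x 0 ∧ 3 * (x 1 ^ 2 + x 2 ^ 2) < x 0 ^ 2} := by
  ext x
  simp only [mem_inter_iff, mem_preimage, cap, mem_ofPred_eq, mem_ball_zero_iff]
  have hnsq : ‖x‖ ^ 2 = x 0 ^ 2 + x 1 ^ 2 + x 2 ^ 2 := by
    rw [EuclideanSpace.norm_sq_eq, Fin.sum_univ_three]
    simp only [Real.norm_eq_abs, sq_abs]
  by_cases hx : x = 0
  · subst hx
    simp
  · have hn : 0 < ‖x‖ := norm_pos_iff.mpr hx
    have h1 : ‖‖x‖⁻¹ • x‖ = 1 := by
      rw [norm_smul, norm_inv, norm_norm]
      exact inv_mul_cancel₀ hn.ne'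
    rw [InnerProductGeometry.angle_smul_right_of_pos _ _ (inv_pos.mpr hn)]
    have h2 : InnerProductGeometry.angle (EuclideanSpace.single 0 1 : E3) x < Real.pi / 6 ↔
        Real.sqrt 3 / 2 * ‖x‖ < x 0 := by
      rw [← Real.cos_pi_div_six, ← Real.strictAntiOn_cos.lt_iff_gt (a := Real.pi / 6)
        (b := InnerProductGeometry.angle (EuclideanSpace.single 0 1 : E3) x)
        ⟨by positivity, by linarith [Real.pi_pos]⟩
        ⟨InnerProductGeometry.angle_nonneg _ _, InnerProductGeometry.angle_le_pi _ _⟩,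
        InnerProductGeometry.cos_angle]
      have h3 : inner ℝ (EuclideanSpace.single 0 1 : E3) x = x 0 := by
        rw [EuclideanSpace.inner_single_left]; simp
      rw [h3]
      have h4 : ‖(EuclideanSpace.single 0 1 : E3)‖ = 1 := by simp
      rw [h4, one_mul, lt_div_iff₀ hn]
    rw [h2]
    have hs3 : Real.sqrt 3 ^ 2 = 3 := Real.sq_sqrt (by norm_num)
    have hs0 : 0 < Real.sqrt 3 := Real.sqrt_pos.mpr (by norm_num)
    constructor
    · rintro ⟨⟨-, h5⟩, h6⟩
      have h7 : 0 < Real.sqrt 3 / 2 * ‖x‖ := by positivity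
      refine ⟨h6, h7.trans h5, ?_⟩
      have h8 : (Real.sqrt 3 / 2 * ‖x‖) ^ 2 < x 0 ^ 2 := pow_lt_pow_left₀ h5 h7.le (by norm_num)
      rw [mul_pow, div_pow, hs3, hnsq] at h8
      linarith
    · rintro ⟨h5, h6, h7⟩
      refine ⟨⟨h1, ?_⟩, h5⟩
      apply lt_of_pow_lt_pow_left₀ 2 h6.le
      rw [mul_pow, div_pow, hs3, hnsq]
      linarith

theorem cap_area (v : E3) (hv : ‖v‖ = 1) :
    (sarea (cap v (Real.pi / 6))).toReal = 2 * Real.pi * (1 - Real.sqrt 3 / 2) := by
  rw [cap_eq v (EuclideanSpace.single 0 1) hv (by simp)]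
  unfold sarea
  rw [Measure.smul_apply, Measure.map_apply nrm_meas (cap_meas _ _), Measure.restrict_apply (nrm_meas (cap_meas _ _)),
    cone_set, volCone]
  have h1 : 0 ≤ 1 - Real.sqrt 3 / 2 := by
    have : Real.sqrt 3 ≤ 2 := by
      rw [Real.sqrt_le_left (by norm_num)]; norm_num
    linarith
  rw [smul_eq_mul, ENNReal.toReal_mul, ENNReal.toReal_ofReal (by positivity)]
  norm_num
  ring

theorem univ_area : (sarea univ).toReal = 4 * Real.pi := by
  unfold sarea
  rw [Measure.smul_apply, Measure.map_apply nrm_meas MeasurableSet.univ, preimage_univ, Measure.restrict_apply_univ,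
    EuclideanSpace.volume_ball_fin_three]
  rw [smul_eq_mul, ENNReal.toReal_mul, ENNReal.toReal_mul, ENNReal.toReal_ofReal (by positivity)]
  simp
  ring

/-- The density bound in terms of the maximum cardinality. -/
theorem delta_le (V : Finset E3) (hV : IsPacking V) (hmax : ∀ W : Finset E3, IsPacking W → W.card ≤ V.card) :
    (∀ U : Finset E3, IsPacking U → delta U ≤ delta V) ∧
    delta V = V.card / 2 * (1 - Real.sqrt 3 / 2) := by
  have hd : delta V = V.card / 2 * (1 - Real.sqrt 3 / 2) := by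
    have hv : ‖(EuclideanSpace.single 0 1 : E3)‖ = 1 := by simp
    unfold delta
    rw [sum_caps V hV _ hv]
    have h := union_rest V
    rw [rest_max V hV hmax, measure_empty, add_zero] at h
    rw [h, cap_area _ hv, univ_area]
    field_simp
    ring
  refine ⟨fun U hU => ?_, hd⟩
  have hv : ‖(EuclideanSpace.single 0 1 : E3)‖ = 1 := by simp
  rw [hd]
  unfold delta
  rw [sum_caps U hU _ hv, cap_area _ hv]
  have hc := cover_real U V hU hV hmax
  rw [univ_area] at hc
  have hpi := Real.pi_pos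
  have h1 : 0 ≤ 1 - Real.sqrt 3 / 2 := by
    have : Real.sqrt 3 ≤ 2 := by
      rw [Real.sqrt_le_left (by norm_num)]; norm_num
    linarith
  rcases Nat.eq_zero_or_pos U.card with h0 | h0
  · rw [h0]
    simp only [Nat.cast_zero, zero_mul, zero_div]
    positivity
  · have h0' : (0 : ℝ) < U.card := by exact_mod_cast h0
    have hW : 0 < (sarea (⋃ u ∈ U, cap u (Real.pi / 3))).toReal := by
      by_contra hcon
      have hW0 : (sarea (⋃ u ∈ U, cap u (Real.pi / 3))).toReal = 0 :=
        le_antisymm (not_lt.mp hcon) ENNReal.toReal_nonneg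
      rw [hW0, mul_zero] at hc
      have := mul_pos h0' (mul_pos (by norm_num : (0:ℝ) < 4) hpi)
      linarith
    rw [div_le_iff₀ hW]
    nlinarith [mul_le_mul_of_nonneg_right hc h1]

theorem exists_max (N : ℕ) (hN : ∀ W : Finset E3, IsPacking W → W.card ≤ N) :
    ∃ V : Finset E3, IsPacking V ∧ ∀ W : Finset E3, IsPacking W → W.card ≤ V.card := by
  by_contra hcon
  push Not at hcon
  have : ∀ k : ℕ, ∃ V : Finset E3, IsPacking V ∧ k ≤ V.card := by
    intro k
    induction k with
    | zero => exact ⟨∅, ⟨by simp, by simp⟩, by simp⟩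
    | succ k ih =>
      obtain ⟨V, hV, hk⟩ := ih
      obtain ⟨W, hW, hlt⟩ := hcon V hV
      exact ⟨W, hW, by omega⟩
  obtain ⟨V, hV, hk⟩ := this (N + 1)
  have := hN V hV
  omega

/-- If every packing has at most `N` points then `δ(U) ≤ (N/2)(1 - √3/2)`. -/
theorem delta_le_of_bound (N : ℕ) (hN : ∀ W : Finset E3, IsPacking W → W.card ≤ N) (U : Finset E3)
    (hU : IsPacking U) : delta U ≤ N / 2 * (1 - Real.sqrt 3 / 2) := by
  obtain ⟨V, hV, hmax⟩ := exists_max N hN
  obtain ⟨h1, h2⟩ := delta_le V hV hmax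
  have h3 := h1 U hU
  rw [h2] at h3
  have h4 : (V.card : ℝ) ≤ N := by exact_mod_cast hN V hV
  have h5 : 0 ≤ 1 - Real.sqrt 3 / 2 := by
    have : Real.sqrt 3 ≤ 2 := by
      rw [Real.sqrt_le_left (by norm_num)]; norm_num
    linarith
  nlinarith

end Pool.Agent.H15Cap
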