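import Pool.Agent.H15Kiss
set_option autoImplicit false

/-!
The 12-point packing given by the vertices of the cuboctahedron.
-/
namespace Pool.Agent.H15Cubo

open Pool.Agent.H15Cap

def a : Fin 12 → Fin 3 → ℤ := ![![1, 1, 0], ![1, -1, 0], ![-1, 1, 0], ![-1, -1, 0], ![1, 0, 1], ![1, 0, -1],
  ![-1, 0, 1], ![-1, 0, -1], ![0, 1, 1], ![0, 1, -1], ![0, -1, 1], ![0, -1, -1]]

theorem a_sq : ∀ i, a i 0 * a i 0 + a i 1 * a i 1 + a i 2 * a i 2 = 2 := by decide

theorem a_ne : ∀ i j, i ≠ j → a i 0 * a j 0 + a i 1 * a j 1 + a i 2 * a j 2 ≤ 1 := by decide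

noncomputable def p (i : Fin 12) : E3 := WithLp.toLp 2 (fun j => (a i j : ℝ) / Real.sqrt 2)

theorem p_inner (i j : Fin 12) : inner ℝ (p i) (p j) =
    ((a i 0 * a j 0 + a i 1 * a j 1 + a i 2 * a j 2 : ℤ) : ℝ) / 2 := by
  rw [H15Kiss.inner_eq]
  unfold p
  simp only
  have h2 : Real.sqrt 2 * Real.sqrt 2 = 2 := Real.mul_self_sqrt (by norm_num)
  push_cast
  rw [div_mul_div_comm, div_mul_div_comm, div_mul_div_comm, h2]
  ring

theorem p_norm (i : Fin 12) : ‖p i‖ = 1 := by
  have h : ‖p i‖ ^ 2 = 1 := by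
    rw [← real_inner_self_eq_norm_sq, p_inner, a_sq]
    norm_num
  have h0 := norm_nonneg (p i)
  nlinarith

theorem p_angle (i j : Fin 12) (hij : i ≠ j) : Real.pi / 3 ≤ InnerProductGeometry.angle (p i) (p j) := by
  have h1 : inner ℝ (p i) (p j) ≤ 1 / 2 := by
    rw [p_inner]
    have : ((a i 0 * a j 0 + a i 1 * a j 1 + a i 2 * a j 2 : ℤ) : ℝ) ≤ 1 := by exact_mod_cast a_ne i j hij
    linarith
  unfold InnerProductGeometry.angle
  rw [p_norm, p_norm, mul_one, div_one, ← Real.arccos_cos (x := Real.pi / 3) (by positivity) (by linarith [Real.pi_pos]),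
    Real.cos_pi_div_three]
  exact Real.arccos_le_arccos h1

theorem p_inj : Function.Injective p := by
  intro i j hij
  by_contra hne
  have h1 := p_angle i j hne
  rw [hij, InnerProductGeometry.angle_self (by
    intro h0
    have := p_norm j
    rw [h0, norm_zero] at this
    exact zero_ne_one this)] at h1
  linarith [Real.pi_pos]

noncomputable def cubo : Finset E3 := Finset.univ.map ⟨p, p_inj⟩

theorem cubo_card : cubo.card = 12 := by
  unfold cubo; rw [Finset.card_map]; rfl

theorem cubo_packing : IsPacking cubo := by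
  constructor
  · intro u hu
    unfold cubo at hu
    rw [Finset.mem_map] at hu
    obtain ⟨i, -, rfl⟩ := hu
    exact p_norm i
  · intro u hu v hv huv
    unfold cubo at hu hv
    rw [Finset.mem_map] at hu hv
    obtain ⟨i, -, rfl⟩ := hu
    obtain ⟨j, -, rfl⟩ := hv
    exact p_angle i j (fun h => huv (by rw [h]))

end Pool.Agent.H15Cubo
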