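import Pool.Agent.H15Cap
set_option autoImplicit false

/-!
Delsarte's linear programming bound in degree 6: at most 13 points at mutual angular distance `≥ π/3` on the
unit sphere of 3-space.
-/
namespace Pool.Agent.H15Kiss

open Pool.Agent.H15Cap

noncomputable def P1 (t : ℝ) : ℝ := (1 : ℝ) * t
noncomputable def P2 (t : ℝ) : ℝ := (-1 / 2 : ℝ) + (3 / 2 : ℝ) * t ^ 2
noncomputable def P3 (t : ℝ) : ℝ := (-3 / 2 : ℝ) * t + (5 / 2 : ℝ) * t ^ 3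
noncomputable def P4 (t : ℝ) : ℝ := (3 / 8 : ℝ) + (-15 / 4 : ℝ) * t ^ 2 + (35 / 8 : ℝ) * t ^ 4
noncomputable def P5 (t : ℝ) : ℝ := (15 / 8 : ℝ) * t + (-35 / 4 : ℝ) * t ^ 3 + (63 / 8 : ℝ) * t ^ 5
noncomputable def P6 (t : ℝ) : ℝ := (-5 / 16 : ℝ) + (105 / 16 : ℝ) * t ^ 2 + (-315 / 16 : ℝ) * t ^ 4 + (231 / 16 : ℝ) * t ^ 6
noncomputable def C1 (x y : ℝ) : ℝ := (1 : ℝ) * x ^ 1 * y ^ 0
noncomputable def S1 (x y : ℝ) : ℝ := (1 : ℝ) * x ^ 0 * y ^ 1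
noncomputable def T1 (A r : ℝ) : ℝ := (1 : ℝ) * A ^ 1 * (r - A ^ 2) ^ 0
theorem cs1 (x y x' y' : ℝ) : C1 x y * C1 x' y' + S1 x y * S1 x' y' =
    T1 (x * x' + y * y') ((x ^ 2 + y ^ 2) * (x' ^ 2 + y' ^ 2)) := by
  unfold C1 S1 T1; ring

noncomputable def C2 (x y : ℝ) : ℝ := (1 : ℝ) * x ^ 2 * y ^ 0 + (-1 : ℝ) * x ^ 0 * y ^ 2
noncomputable def S2 (x y : ℝ) : ℝ := (2 : ℝ) * x ^ 1 * y ^ 1
noncomputable def T2 (A r : ℝ) : ℝ := (1 : ℝ) * A ^ 2 * (r - A ^ 2) ^ 0 + (-1 : ℝ) * A ^ 0 * (r - A ^ 2) ^ 1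
theorem cs2 (x y x' y' : ℝ) : C2 x y * C2 x' y' + S2 x y * S2 x' y' =
    T2 (x * x' + y * y') ((x ^ 2 + y ^ 2) * (x' ^ 2 + y' ^ 2)) := by
  unfold C2 S2 T2; ring

noncomputable def C3 (x y : ℝ) : ℝ := (1 : ℝ) * x ^ 3 * y ^ 0 + (-3 : ℝ) * x ^ 1 * y ^ 2
noncomputable def S3 (x y : ℝ) : ℝ := (3 : ℝ) * x ^ 2 * y ^ 1 + (-1 : ℝ) * x ^ 0 * y ^ 3
noncomputable def T3 (A r : ℝ) : ℝ := (1 : ℝ) * A ^ 3 * (r - A ^ 2) ^ 0 + (-3 : ℝ) * A ^ 1 * (r - A ^ 2) ^ 1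
theorem cs3 (x y x' y' : ℝ) : C3 x y * C3 x' y' + S3 x y * S3 x' y' =
    T3 (x * x' + y * y') ((x ^ 2 + y ^ 2) * (x' ^ 2 + y' ^ 2)) := by
  unfold C3 S3 T3; ring

noncomputable def C4 (x y : ℝ) : ℝ := (1 : ℝ) * x ^ 4 * y ^ 0 + (-6 : ℝ) * x ^ 2 * y ^ 2 + (1 : ℝ) * x ^ 0 * y ^ 4
noncomputable def S4 (x y : ℝ) : ℝ := (4 : ℝ) * x ^ 3 * y ^ 1 + (-4 : ℝ) * x ^ 1 * y ^ 3
noncomputable def T4 (A r : ℝ) : ℝ := (1 : ℝ) * A ^ 4 * (r - A ^ 2) ^ 0 + (-6 : ℝ) * A ^ 2 * (r - A ^ 2) ^ 1 + (1 : ℝ) * A ^ 0 * (r - A ^ 2) ^ 2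
theorem cs4 (x y x' y' : ℝ) : C4 x y * C4 x' y' + S4 x y * S4 x' y' =
    T4 (x * x' + y * y') ((x ^ 2 + y ^ 2) * (x' ^ 2 + y' ^ 2)) := by
  unfold C4 S4 T4; ring

noncomputable def C5 (x y : ℝ) : ℝ := (1 : ℝ) * x ^ 5 * y ^ 0 + (-10 : ℝ) * x ^ 3 * y ^ 2 + (5 : ℝ) * x ^ 1 * y ^ 4
noncomputable def S5 (x y : ℝ) : ℝ := (5 : ℝ) * x ^ 4 * y ^ 1 + (-10 : ℝ) * x ^ 2 * y ^ 3 + (1 : ℝ) * x ^ 0 * y ^ 5
noncomputable def T5 (A r : ℝ) : ℝ := (1 : ℝ) * A ^ 5 * (r - A ^ 2) ^ 0 + (-10 : ℝ) * A ^ 3 * (r - A ^ 2) ^ 1 + (5 : ℝ) * A ^ 1 * (r - A ^ 2) ^ 2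
theorem cs5 (x y x' y' : ℝ) : C5 x y * C5 x' y' + S5 x y * S5 x' y' =
    T5 (x * x' + y * y') ((x ^ 2 + y ^ 2) * (x' ^ 2 + y' ^ 2)) := by
  unfold C5 S5 T5; ring

noncomputable def C6 (x y : ℝ) : ℝ := (1 : ℝ) * x ^ 6 * y ^ 0 + (-15 : ℝ) * x ^ 4 * y ^ 2 + (15 : ℝ) * x ^ 2 * y ^ 4 + (-1 : ℝ) * x ^ 0 * y ^ 6
noncomputable def S6 (x y : ℝ) : ℝ := (6 : ℝ) * x ^ 5 * y ^ 1 + (-20 : ℝ) * x ^ 3 * y ^ 3 + (6 : ℝ) * x ^ 1 * y ^ 5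
noncomputable def T6 (A r : ℝ) : ℝ := (1 : ℝ) * A ^ 6 * (r - A ^ 2) ^ 0 + (-15 : ℝ) * A ^ 4 * (r - A ^ 2) ^ 1 + (15 : ℝ) * A ^ 2 * (r - A ^ 2) ^ 2 + (-1 : ℝ) * A ^ 0 * (r - A ^ 2) ^ 3
theorem cs6 (x y x' y' : ℝ) : C6 x y * C6 x' y' + S6 x y * S6 x' y' =
    T6 (x * x' + y * y') ((x ^ 2 + y ^ 2) * (x' ^ 2 + y' ^ 2)) := by
  unfold C6 S6 T6; ring

noncomputable def D1_0 (z : ℝ) : ℝ := (1 : ℝ) * z
noncomputable def D1_1 (z : ℝ) : ℝ := (1 : ℝ)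
theorem add1 (A z z' : ℝ) : P1 (A + z * z') =
      D1_0 z * D1_0 z' +
      (1 / 1 : ℝ) * (D1_1 z * D1_1 z' * T1 A ((1 - z ^ 2) * (1 - z' ^ 2))) := by
  unfold P1 D1_0 D1_1 T1
  ring

noncomputable def D2_0 (z : ℝ) : ℝ := (-1 / 2 : ℝ) + (3 / 2 : ℝ) * z ^ 2
noncomputable def D2_1 (z : ℝ) : ℝ := (3 : ℝ) * z
noncomputable def D2_2 (z : ℝ) : ℝ := (3 : ℝ)
theorem add2 (A z z' : ℝ) : P2 (A + z * z') =
      D2_0 z * D2_0 z' +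
      (1 / 3 : ℝ) * (D2_1 z * D2_1 z' * T1 A ((1 - z ^ 2) * (1 - z' ^ 2))) +
      (1 / 12 : ℝ) * (D2_2 z * D2_2 z' * T2 A ((1 - z ^ 2) * (1 - z' ^ 2))) := by
  unfold P2 D2_0 D2_1 D2_2 T1 T2
  ring

noncomputable def D3_0 (z : ℝ) : ℝ := (-3 / 2 : ℝ) * z + (5 / 2 : ℝ) * z ^ 3
noncomputable def D3_1 (z : ℝ) : ℝ := (-3 / 2 : ℝ) + (15 / 2 : ℝ) * z ^ 2
noncomputable def D3_2 (z : ℝ) : ℝ := (15 : ℝ) * z
noncomputable def D3_3 (z : ℝ) : ℝ := (15 : ℝ)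
theorem add3 (A z z' : ℝ) : P3 (A + z * z') =
      D3_0 z * D3_0 z' +
      (1 / 6 : ℝ) * (D3_1 z * D3_1 z' * T1 A ((1 - z ^ 2) * (1 - z' ^ 2))) +
      (1 / 60 : ℝ) * (D3_2 z * D3_2 z' * T2 A ((1 - z ^ 2) * (1 - z' ^ 2))) +
      (1 / 360 : ℝ) * (D3_3 z * D3_3 z' * T3 A ((1 - z ^ 2) * (1 - z' ^ 2))) := by
  unfold P3 D3_0 D3_1 D3_2 D3_3 T1 T2 T3
  ring

noncomputable def D4_0 (z : ℝ) : ℝ := (3 / 8 : ℝ) + (-15 / 4 : ℝ) * z ^ 2 + (35 / 8 : ℝ) * z ^ 4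
noncomputable def D4_1 (z : ℝ) : ℝ := (-15 / 2 : ℝ) * z + (35 / 2 : ℝ) * z ^ 3
noncomputable def D4_2 (z : ℝ) : ℝ := (-15 / 2 : ℝ) + (105 / 2 : ℝ) * z ^ 2
noncomputable def D4_3 (z : ℝ) : ℝ := (105 : ℝ) * z
noncomputable def D4_4 (z : ℝ) : ℝ := (105 : ℝ)
theorem add4 (A z z' : ℝ) : P4 (A + z * z') =
      D4_0 z * D4_0 z' +
      (1 / 10 : ℝ) * (D4_1 z * D4_1 z' * T1 A ((1 - z ^ 2) * (1 - z' ^ 2))) +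
      (1 / 180 : ℝ) * (D4_2 z * D4_2 z' * T2 A ((1 - z ^ 2) * (1 - z' ^ 2))) +
      (1 / 2520 : ℝ) * (D4_3 z * D4_3 z' * T3 A ((1 - z ^ 2) * (1 - z' ^ 2))) +
      (1 / 20160 : ℝ) * (D4_4 z * D4_4 z' * T4 A ((1 - z ^ 2) * (1 - z' ^ 2))) := by
  unfold P4 D4_0 D4_1 D4_2 D4_3 D4_4 T1 T2 T3 T4
  ring

noncomputable def D5_0 (z : ℝ) : ℝ := (15 / 8 : ℝ) * z + (-35 / 4 : ℝ) * z ^ 3 + (63 / 8 : ℝ) * z ^ 5
noncomputable def D5_1 (z : ℝ) : ℝ := (15 / 8 : ℝ) + (-105 / 4 : ℝ) * z ^ 2 + (315 / 8 : ℝ) * z ^ 4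
noncomputable def D5_2 (z : ℝ) : ℝ := (-105 / 2 : ℝ) * z + (315 / 2 : ℝ) * z ^ 3
noncomputable def D5_3 (z : ℝ) : ℝ := (-105 / 2 : ℝ) + (945 / 2 : ℝ) * z ^ 2
noncomputable def D5_4 (z : ℝ) : ℝ := (945 : ℝ) * z
noncomputable def D5_5 (z : ℝ) : ℝ := (945 : ℝ)
theorem add5 (A z z' : ℝ) : P5 (A + z * z') =
      D5_0 z * D5_0 z' +
      (1 / 15 : ℝ) * (D5_1 z * D5_1 z' * T1 A ((1 - z ^ 2) * (1 - z' ^ 2))) +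
      (1 / 420 : ℝ) * (D5_2 z * D5_2 z' * T2 A ((1 - z ^ 2) * (1 - z' ^ 2))) +
      (1 / 10080 : ℝ) * (D5_3 z * D5_3 z' * T3 A ((1 - z ^ 2) * (1 - z' ^ 2))) +
      (1 / 181440 : ℝ) * (D5_4 z * D5_4 z' * T4 A ((1 - z ^ 2) * (1 - z' ^ 2))) +
      (1 / 1814400 : ℝ) * (D5_5 z * D5_5 z' * T5 A ((1 - z ^ 2) * (1 - z' ^ 2))) := by
  unfold P5 D5_0 D5_1 D5_2 D5_3 D5_4 D5_5 T1 T2 T3 T4 T5
  ring

noncomputable def D6_0 (z : ℝ) : ℝ := (-5 / 16 : ℝ) + (105 / 16 : ℝ) * z ^ 2 + (-315 / 16 : ℝ) * z ^ 4 + (231 / 16 : ℝ) * z ^ 6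
noncomputable def D6_1 (z : ℝ) : ℝ := (105 / 8 : ℝ) * z + (-315 / 4 : ℝ) * z ^ 3 + (693 / 8 : ℝ) * z ^ 5
noncomputable def D6_2 (z : ℝ) : ℝ := (105 / 8 : ℝ) + (-945 / 4 : ℝ) * z ^ 2 + (3465 / 8 : ℝ) * z ^ 4
noncomputable def D6_3 (z : ℝ) : ℝ := (-945 / 2 : ℝ) * z + (3465 / 2 : ℝ) * z ^ 3
noncomputable def D6_4 (z : ℝ) : ℝ := (-945 / 2 : ℝ) + (10395 / 2 : ℝ) * z ^ 2
noncomputable def D6_5 (z : ℝ) : ℝ := (10395 : ℝ) * z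
noncomputable def D6_6 (z : ℝ) : ℝ := (10395 : ℝ)
theorem add6 (A z z' : ℝ) : P6 (A + z * z') =
      D6_0 z * D6_0 z' +
      (1 / 21 : ℝ) * (D6_1 z * D6_1 z' * T1 A ((1 - z ^ 2) * (1 - z' ^ 2))) +
      (1 / 840 : ℝ) * (D6_2 z * D6_2 z' * T2 A ((1 - z ^ 2) * (1 - z' ^ 2))) +
      (1 / 30240 : ℝ) * (D6_3 z * D6_3 z' * T3 A ((1 - z ^ 2) * (1 - z' ^ 2))) +
      (1 / 907200 : ℝ) * (D6_4 z * D6_4 z' * T4 A ((1 - z ^ 2) * (1 - z' ^ 2))) +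
      (1 / 19958400 : ℝ) * (D6_5 z * D6_5 z' * T5 A ((1 - z ^ 2) * (1 - z' ^ 2))) +
      (1 / 239500800 : ℝ) * (D6_6 z * D6_6 z' * T6 A ((1 - z ^ 2) * (1 - z' ^ 2))) := by
  unfold P6 D6_0 D6_1 D6_2 D6_3 D6_4 D6_5 D6_6 T1 T2 T3 T4 T5 T6
  ring

theorem sq_nonneg' (U : Finset E3) (φ : E3 → ℝ) : 0 ≤ ∑ u ∈ U, ∑ v ∈ U, φ u * φ v := by
  rw [← Finset.sum_mul_sum]
  exact mul_self_nonneg _

theorem inner_eq (u v : E3) : inner ℝ u v = u 0 * v 0 + u 1 * v 1 + u 2 * v 2 := by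
  rw [PiLp.inner_apply, Fin.sum_univ_three]
  simp only [RCLike.inner_apply, conj_trivial]
  ring

theorem unit_eq (u : E3) (hu : ‖u‖ = 1) : u 0 ^ 2 + u 1 ^ 2 = 1 - u 2 ^ 2 := by
  have h : ‖u‖ ^ 2 = u 0 ^ 2 + u 1 ^ 2 + u 2 ^ 2 := by
    rw [EuclideanSpace.norm_sq_eq, Fin.sum_univ_three]
    simp only [Real.norm_eq_abs, sq_abs]
  rw [hu] at h
  linarith

theorem feat1 (u v : E3) (hu : ‖u‖ = 1) (hv : ‖v‖ = 1) : P1 (inner ℝ u v) =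
      D1_0 (u 2) * D1_0 (v 2) +
      ((1 / 1 : ℝ) * ((D1_1 (u 2) * C1 (u 0) (u 1)) * (D1_1 (v 2) * C1 (v 0) (v 1))) +
      (1 / 1 : ℝ) * ((D1_1 (u 2) * S1 (u 0) (u 1)) * (D1_1 (v 2) * S1 (v 0) (v 1)))) := by
  rw [inner_eq, add1]
  have e1 := cs1 (u 0) (u 1) (v 0) (v 1)
  rw [unit_eq u hu, unit_eq v hv] at e1
  rw [← e1]
  ring

theorem psd1 (U : Finset E3) (hU : ∀ u ∈ U, ‖u‖ = 1) : 0 ≤ ∑ u ∈ U, ∑ v ∈ U, P1 (inner ℝ u v) := by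
  rw [Finset.sum_congr rfl (fun u hu => Finset.sum_congr rfl (fun v hv => feat1 u v (hU u hu) (hU v hv)))]
  simp only [Finset.sum_add_distrib, ← Finset.mul_sum]
  have h0 := sq_nonneg' U (fun u => D1_0 (u 2))
  have c1 := sq_nonneg' U (fun u => D1_1 (u 2) * C1 (u 0) (u 1))
  have s1 := sq_nonneg' U (fun u => D1_1 (u 2) * S1 (u 0) (u 1))
  simp only at h0 c1 s1
  simp only [← Finset.mul_sum] at h0 c1 s1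
  positivity

theorem feat2 (u v : E3) (hu : ‖u‖ = 1) (hv : ‖v‖ = 1) : P2 (inner ℝ u v) =
      D2_0 (u 2) * D2_0 (v 2) +
      ((1 / 3 : ℝ) * ((D2_1 (u 2) * C1 (u 0) (u 1)) * (D2_1 (v 2) * C1 (v 0) (v 1))) +
      (1 / 3 : ℝ) * ((D2_1 (u 2) * S1 (u 0) (u 1)) * (D2_1 (v 2) * S1 (v 0) (v 1)))) +
      ((1 / 12 : ℝ) * ((D2_2 (u 2) * C2 (u 0) (u 1)) * (D2_2 (v 2) * C2 (v 0) (v 1))) +
      (1 / 12 : ℝ) * ((D2_2 (u 2) * S2 (u 0) (u 1)) * (D2_2 (v 2) * S2 (v 0) (v 1)))) := by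
  rw [inner_eq, add2]
  have e1 := cs1 (u 0) (u 1) (v 0) (v 1)
  rw [unit_eq u hu, unit_eq v hv] at e1
  rw [← e1]
  have e2 := cs2 (u 0) (u 1) (v 0) (v 1)
  rw [unit_eq u hu, unit_eq v hv] at e2
  rw [← e2]
  ring

theorem psd2 (U : Finset E3) (hU : ∀ u ∈ U, ‖u‖ = 1) : 0 ≤ ∑ u ∈ U, ∑ v ∈ U, P2 (inner ℝ u v) := by
  rw [Finset.sum_congr rfl (fun u hu => Finset.sum_congr rfl (fun v hv => feat2 u v (hU u hu) (hU v hv)))]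
  simp only [Finset.sum_add_distrib, ← Finset.mul_sum]
  have h0 := sq_nonneg' U (fun u => D2_0 (u 2))
  have c1 := sq_nonneg' U (fun u => D2_1 (u 2) * C1 (u 0) (u 1))
  have s1 := sq_nonneg' U (fun u => D2_1 (u 2) * S1 (u 0) (u 1))
  have c2 := sq_nonneg' U (fun u => D2_2 (u 2) * C2 (u 0) (u 1))
  have s2 := sq_nonneg' U (fun u => D2_2 (u 2) * S2 (u 0) (u 1))
  simp only at h0 c1 s1 c2 s2
  simp only [← Finset.mul_sum] at h0 c1 s1 c2 s2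
  positivity

theorem feat3 (u v : E3) (hu : ‖u‖ = 1) (hv : ‖v‖ = 1) : P3 (inner ℝ u v) =
      D3_0 (u 2) * D3_0 (v 2) +
      ((1 / 6 : ℝ) * ((D3_1 (u 2) * C1 (u 0) (u 1)) * (D3_1 (v 2) * C1 (v 0) (v 1))) +
      (1 / 6 : ℝ) * ((D3_1 (u 2) * S1 (u 0) (u 1)) * (D3_1 (v 2) * S1 (v 0) (v 1)))) +
      ((1 / 60 : ℝ) * ((D3_2 (u 2) * C2 (u 0) (u 1)) * (D3_2 (v 2) * C2 (v 0) (v 1))) +
      (1 / 60 : ℝ) * ((D3_2 (u 2) * S2 (u 0) (u 1)) * (D3_2 (v 2) * S2 (v 0) (v 1)))) +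
      ((1 / 360 : ℝ) * ((D3_3 (u 2) * C3 (u 0) (u 1)) * (D3_3 (v 2) * C3 (v 0) (v 1))) +
      (1 / 360 : ℝ) * ((D3_3 (u 2) * S3 (u 0) (u 1)) * (D3_3 (v 2) * S3 (v 0) (v 1)))) := by
  rw [inner_eq, add3]
  have e1 := cs1 (u 0) (u 1) (v 0) (v 1)
  rw [unit_eq u hu, unit_eq v hv] at e1
  rw [← e1]
  have e2 := cs2 (u 0) (u 1) (v 0) (v 1)
  rw [unit_eq u hu, unit_eq v hv] at e2
  rw [← e2]
  have e3 := cs3 (u 0) (u 1) (v 0) (v 1)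
  rw [unit_eq u hu, unit_eq v hv] at e3
  rw [← e3]
  ring

theorem psd3 (U : Finset E3) (hU : ∀ u ∈ U, ‖u‖ = 1) : 0 ≤ ∑ u ∈ U, ∑ v ∈ U, P3 (inner ℝ u v) := by
  rw [Finset.sum_congr rfl (fun u hu => Finset.sum_congr rfl (fun v hv => feat3 u v (hU u hu) (hU v hv)))]
  simp only [Finset.sum_add_distrib, ← Finset.mul_sum]
  have h0 := sq_nonneg' U (fun u => D3_0 (u 2))
  have c1 := sq_nonneg' U (fun u => D3_1 (u 2) * C1 (u 0) (u 1))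
  have s1 := sq_nonneg' U (fun u => D3_1 (u 2) * S1 (u 0) (u 1))
  have c2 := sq_nonneg' U (fun u => D3_2 (u 2) * C2 (u 0) (u 1))
  have s2 := sq_nonneg' U (fun u => D3_2 (u 2) * S2 (u 0) (u 1))
  have c3 := sq_nonneg' U (fun u => D3_3 (u 2) * C3 (u 0) (u 1))
  have s3 := sq_nonneg' U (fun u => D3_3 (u 2) * S3 (u 0) (u 1))
  simp only at h0 c1 s1 c2 s2 c3 s3
  simp only [← Finset.mul_sum] at h0 c1 s1 c2 s2 c3 s3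
  positivity

theorem feat4 (u v : E3) (hu : ‖u‖ = 1) (hv : ‖v‖ = 1) : P4 (inner ℝ u v) =
      D4_0 (u 2) * D4_0 (v 2) +
      ((1 / 10 : ℝ) * ((D4_1 (u 2) * C1 (u 0) (u 1)) * (D4_1 (v 2) * C1 (v 0) (v 1))) +
      (1 / 10 : ℝ) * ((D4_1 (u 2) * S1 (u 0) (u 1)) * (D4_1 (v 2) * S1 (v 0) (v 1)))) +
      ((1 / 180 : ℝ) * ((D4_2 (u 2) * C2 (u 0) (u 1)) * (D4_2 (v 2) * C2 (v 0) (v 1))) +
      (1 / 180 : ℝ) * ((D4_2 (u 2) * S2 (u 0) (u 1)) * (D4_2 (v 2) * S2 (v 0) (v 1)))) +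
      ((1 / 2520 : ℝ) * ((D4_3 (u 2) * C3 (u 0) (u 1)) * (D4_3 (v 2) * C3 (v 0) (v 1))) +
      (1 / 2520 : ℝ) * ((D4_3 (u 2) * S3 (u 0) (u 1)) * (D4_3 (v 2) * S3 (v 0) (v 1)))) +
      ((1 / 20160 : ℝ) * ((D4_4 (u 2) * C4 (u 0) (u 1)) * (D4_4 (v 2) * C4 (v 0) (v 1))) +
      (1 / 20160 : ℝ) * ((D4_4 (u 2) * S4 (u 0) (u 1)) * (D4_4 (v 2) * S4 (v 0) (v 1)))) := by
  rw [inner_eq, add4]
  have e1 := cs1 (u 0) (u 1) (v 0) (v 1)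
  rw [unit_eq u hu, unit_eq v hv] at e1
  rw [← e1]
  have e2 := cs2 (u 0) (u 1) (v 0) (v 1)
  rw [unit_eq u hu, unit_eq v hv] at e2
  rw [← e2]
  have e3 := cs3 (u 0) (u 1) (v 0) (v 1)
  rw [unit_eq u hu, unit_eq v hv] at e3
  rw [← e3]
  have e4 := cs4 (u 0) (u 1) (v 0) (v 1)
  rw [unit_eq u hu, unit_eq v hv] at e4
  rw [← e4]
  ring

theorem psd4 (U : Finset E3) (hU : ∀ u ∈ U, ‖u‖ = 1) : 0 ≤ ∑ u ∈ U, ∑ v ∈ U, P4 (inner ℝ u v) := by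
  rw [Finset.sum_congr rfl (fun u hu => Finset.sum_congr rfl (fun v hv => feat4 u v (hU u hu) (hU v hv)))]
  simp only [Finset.sum_add_distrib, ← Finset.mul_sum]
  have h0 := sq_nonneg' U (fun u => D4_0 (u 2))
  have c1 := sq_nonneg' U (fun u => D4_1 (u 2) * C1 (u 0) (u 1))
  have s1 := sq_nonneg' U (fun u => D4_1 (u 2) * S1 (u 0) (u 1))
  have c2 := sq_nonneg' U (fun u => D4_2 (u 2) * C2 (u 0) (u 1))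
  have s2 := sq_nonneg' U (fun u => D4_2 (u 2) * S2 (u 0) (u 1))
  have c3 := sq_nonneg' U (fun u => D4_3 (u 2) * C3 (u 0) (u 1))
  have s3 := sq_nonneg' U (fun u => D4_3 (u 2) * S3 (u 0) (u 1))
  have c4 := sq_nonneg' U (fun u => D4_4 (u 2) * C4 (u 0) (u 1))
  have s4 := sq_nonneg' U (fun u => D4_4 (u 2) * S4 (u 0) (u 1))
  simp only at h0 c1 s1 c2 s2 c3 s3 c4 s4
  simp only [← Finset.mul_sum] at h0 c1 s1 c2 s2 c3 s3 c4 s4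
  positivity

theorem feat5 (u v : E3) (hu : ‖u‖ = 1) (hv : ‖v‖ = 1) : P5 (inner ℝ u v) =
      D5_0 (u 2) * D5_0 (v 2) +
      ((1 / 15 : ℝ) * ((D5_1 (u 2) * C1 (u 0) (u 1)) * (D5_1 (v 2) * C1 (v 0) (v 1))) +
      (1 / 15 : ℝ) * ((D5_1 (u 2) * S1 (u 0) (u 1)) * (D5_1 (v 2) * S1 (v 0) (v 1)))) +
      ((1 / 420 : ℝ) * ((D5_2 (u 2) * C2 (u 0) (u 1)) * (D5_2 (v 2) * C2 (v 0) (v 1))) +
      (1 / 420 : ℝ) * ((D5_2 (u 2) * S2 (u 0) (u 1)) * (D5_2 (v 2) * S2 (v 0) (v 1)))) +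
      ((1 / 10080 : ℝ) * ((D5_3 (u 2) * C3 (u 0) (u 1)) * (D5_3 (v 2) * C3 (v 0) (v 1))) +
      (1 / 10080 : ℝ) * ((D5_3 (u 2) * S3 (u 0) (u 1)) * (D5_3 (v 2) * S3 (v 0) (v 1)))) +
      ((1 / 181440 : ℝ) * ((D5_4 (u 2) * C4 (u 0) (u 1)) * (D5_4 (v 2) * C4 (v 0) (v 1))) +
      (1 / 181440 : ℝ) * ((D5_4 (u 2) * S4 (u 0) (u 1)) * (D5_4 (v 2) * S4 (v 0) (v 1)))) +
      ((1 / 1814400 : ℝ) * ((D5_5 (u 2) * C5 (u 0) (u 1)) * (D5_5 (v 2) * C5 (v 0) (v 1))) +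
      (1 / 1814400 : ℝ) * ((D5_5 (u 2) * S5 (u 0) (u 1)) * (D5_5 (v 2) * S5 (v 0) (v 1)))) := by
  rw [inner_eq, add5]
  have e1 := cs1 (u 0) (u 1) (v 0) (v 1)
  rw [unit_eq u hu, unit_eq v hv] at e1
  rw [← e1]
  have e2 := cs2 (u 0) (u 1) (v 0) (v 1)
  rw [unit_eq u hu, unit_eq v hv] at e2
  rw [← e2]
  have e3 := cs3 (u 0) (u 1) (v 0) (v 1)
  rw [unit_eq u hu, unit_eq v hv] at e3
  rw [← e3]
  have e4 := cs4 (u 0) (u 1) (v 0) (v 1)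
  rw [unit_eq u hu, unit_eq v hv] at e4
  rw [← e4]
  have e5 := cs5 (u 0) (u 1) (v 0) (v 1)
  rw [unit_eq u hu, unit_eq v hv] at e5
  rw [← e5]
  ring

theorem psd5 (U : Finset E3) (hU : ∀ u ∈ U, ‖u‖ = 1) : 0 ≤ ∑ u ∈ U, ∑ v ∈ U, P5 (inner ℝ u v) := by
  rw [Finset.sum_congr rfl (fun u hu => Finset.sum_congr rfl (fun v hv => feat5 u v (hU u hu) (hU v hv)))]
  simp only [Finset.sum_add_distrib, ← Finset.mul_sum]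
  have h0 := sq_nonneg' U (fun u => D5_0 (u 2))
  have c1 := sq_nonneg' U (fun u => D5_1 (u 2) * C1 (u 0) (u 1))
  have s1 := sq_nonneg' U (fun u => D5_1 (u 2) * S1 (u 0) (u 1))
  have c2 := sq_nonneg' U (fun u => D5_2 (u 2) * C2 (u 0) (u 1))
  have s2 := sq_nonneg' U (fun u => D5_2 (u 2) * S2 (u 0) (u 1))
  have c3 := sq_nonneg' U (fun u => D5_3 (u 2) * C3 (u 0) (u 1))
  have s3 := sq_nonneg' U (fun u => D5_3 (u 2) * S3 (u 0) (u 1))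
  have c4 := sq_nonneg' U (fun u => D5_4 (u 2) * C4 (u 0) (u 1))
  have s4 := sq_nonneg' U (fun u => D5_4 (u 2) * S4 (u 0) (u 1))
  have c5 := sq_nonneg' U (fun u => D5_5 (u 2) * C5 (u 0) (u 1))
  have s5 := sq_nonneg' U (fun u => D5_5 (u 2) * S5 (u 0) (u 1))
  simp only at h0 c1 s1 c2 s2 c3 s3 c4 s4 c5 s5
  simp only [← Finset.mul_sum] at h0 c1 s1 c2 s2 c3 s3 c4 s4 c5 s5
  positivity

theorem feat6 (u v : E3) (hu : ‖u‖ = 1) (hv : ‖v‖ = 1) : P6 (inner ℝ u v) =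
      D6_0 (u 2) * D6_0 (v 2) +
      ((1 / 21 : ℝ) * ((D6_1 (u 2) * C1 (u 0) (u 1)) * (D6_1 (v 2) * C1 (v 0) (v 1))) +
      (1 / 21 : ℝ) * ((D6_1 (u 2) * S1 (u 0) (u 1)) * (D6_1 (v 2) * S1 (v 0) (v 1)))) +
      ((1 / 840 : ℝ) * ((D6_2 (u 2) * C2 (u 0) (u 1)) * (D6_2 (v 2) * C2 (v 0) (v 1))) +
      (1 / 840 : ℝ) * ((D6_2 (u 2) * S2 (u 0) (u 1)) * (D6_2 (v 2) * S2 (v 0) (v 1)))) +
      ((1 / 30240 : ℝ) * ((D6_3 (u 2) * C3 (u 0) (u 1)) * (D6_3 (v 2) * C3 (v 0) (v 1))) +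
      (1 / 30240 : ℝ) * ((D6_3 (u 2) * S3 (u 0) (u 1)) * (D6_3 (v 2) * S3 (v 0) (v 1)))) +
      ((1 / 907200 : ℝ) * ((D6_4 (u 2) * C4 (u 0) (u 1)) * (D6_4 (v 2) * C4 (v 0) (v 1))) +
      (1 / 907200 : ℝ) * ((D6_4 (u 2) * S4 (u 0) (u 1)) * (D6_4 (v 2) * S4 (v 0) (v 1)))) +
      ((1 / 19958400 : ℝ) * ((D6_5 (u 2) * C5 (u 0) (u 1)) * (D6_5 (v 2) * C5 (v 0) (v 1))) +
      (1 / 19958400 : ℝ) * ((D6_5 (u 2) * S5 (u 0) (u 1)) * (D6_5 (v 2) * S5 (v 0) (v 1)))) +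
      ((1 / 239500800 : ℝ) * ((D6_6 (u 2) * C6 (u 0) (u 1)) * (D6_6 (v 2) * C6 (v 0) (v 1))) +
      (1 / 239500800 : ℝ) * ((D6_6 (u 2) * S6 (u 0) (u 1)) * (D6_6 (v 2) * S6 (v 0) (v 1)))) := by
  rw [inner_eq, add6]
  have e1 := cs1 (u 0) (u 1) (v 0) (v 1)
  rw [unit_eq u hu, unit_eq v hv] at e1
  rw [← e1]
  have e2 := cs2 (u 0) (u 1) (v 0) (v 1)
  rw [unit_eq u hu, unit_eq v hv] at e2
  rw [← e2]
  have e3 := cs3 (u 0) (u 1) (v 0) (v 1)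
  rw [unit_eq u hu, unit_eq v hv] at e3
  rw [← e3]
  have e4 := cs4 (u 0) (u 1) (v 0) (v 1)
  rw [unit_eq u hu, unit_eq v hv] at e4
  rw [← e4]
  have e5 := cs5 (u 0) (u 1) (v 0) (v 1)
  rw [unit_eq u hu, unit_eq v hv] at e5
  rw [← e5]
  have e6 := cs6 (u 0) (u 1) (v 0) (v 1)
  rw [unit_eq u hu, unit_eq v hv] at e6
  rw [← e6]
  ring

theorem psd6 (U : Finset E3) (hU : ∀ u ∈ U, ‖u‖ = 1) : 0 ≤ ∑ u ∈ U, ∑ v ∈ U, P6 (inner ℝ u v) := by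
  rw [Finset.sum_congr rfl (fun u hu => Finset.sum_congr rfl (fun v hv => feat6 u v (hU u hu) (hU v hv)))]
  simp only [Finset.sum_add_distrib, ← Finset.mul_sum]
  have h0 := sq_nonneg' U (fun u => D6_0 (u 2))
  have c1 := sq_nonneg' U (fun u => D6_1 (u 2) * C1 (u 0) (u 1))
  have s1 := sq_nonneg' U (fun u => D6_1 (u 2) * S1 (u 0) (u 1))
  have c2 := sq_nonneg' U (fun u => D6_2 (u 2) * C2 (u 0) (u 1))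
  have s2 := sq_nonneg' U (fun u => D6_2 (u 2) * S2 (u 0) (u 1))
  have c3 := sq_nonneg' U (fun u => D6_3 (u 2) * C3 (u 0) (u 1))
  have s3 := sq_nonneg' U (fun u => D6_3 (u 2) * S3 (u 0) (u 1))
  have c4 := sq_nonneg' U (fun u => D6_4 (u 2) * C4 (u 0) (u 1))
  have s4 := sq_nonneg' U (fun u => D6_4 (u 2) * S4 (u 0) (u 1))
  have c5 := sq_nonneg' U (fun u => D6_5 (u 2) * C5 (u 0) (u 1))
  have s5 := sq_nonneg' U (fun u => D6_5 (u 2) * S5 (u 0) (u 1))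
  have c6 := sq_nonneg' U (fun u => D6_6 (u 2) * C6 (u 0) (u 1))
  have s6 := sq_nonneg' U (fun u => D6_6 (u 2) * S6 (u 0) (u 1))
  simp only at h0 c1 s1 c2 s2 c3 s3 c4 s4 c5 s5 c6 s6
  simp only [← Finset.mul_sum] at h0 c1 s1 c2 s2 c3 s3 c4 s4 c5 s5 c6 s6
  positivity

noncomputable def f (t : ℝ) : ℝ := (t + 1) * (t - 1 / 2) * (t ^ 2 + 2 * t + 1 / 2) ^ 2

theorem f_expand (t : ℝ) : f t = (757 / 840 : ℝ) + (143 / 56 : ℝ) * P1 t + (47 / 14 : ℝ) * P2 t + (3 / 1 : ℝ) * P3 t + (692 / 385 : ℝ) * P4 t + (4 / 7 : ℝ) * P5 t + (16 / 231 : ℝ) * P6 t := by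
  unfold f P1 P2 P3 P4 P5 P6
  ring

theorem f_nonpos (t : ℝ) (h1 : -1 ≤ t) (h2 : t ≤ 1 / 2) : f t ≤ 0 := by
  unfold f
  have h3 : (t + 1) * (t - 1 / 2) ≤ 0 := mul_nonpos_of_nonneg_of_nonpos (by linarith) (by linarith)
  exact mul_nonpos_of_nonpos_of_nonneg h3 (sq_nonneg _)

theorem card_le_13 (U : Finset E3) (hU : IsPacking U) : U.card ≤ 13 := by
  have hlow : (757 / 840 : ℝ) * (U.card : ℝ) ^ 2 ≤ ∑ u ∈ U, ∑ v ∈ U, f (inner ℝ u v) := by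
    simp only [f_expand, Finset.sum_add_distrib, ← Finset.mul_sum, Finset.sum_const, nsmul_eq_mul]

    have h1 := psd1 U hU.1
    have h2 := psd2 U hU.1
    have h3 := psd3 U hU.1
    have h4 := psd4 U hU.1
    have h5 := psd5 U hU.1
    have h6 := psd6 U hU.1
    have g1 := mul_nonneg (by norm_num : (0 : ℝ) ≤ (143 / 56 : ℝ)) h1
    have g2 := mul_nonneg (by norm_num : (0 : ℝ) ≤ (47 / 14 : ℝ)) h2
    have g3 := mul_nonneg (by norm_num : (0 : ℝ) ≤ (3 / 1 : ℝ)) h3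
    have g4 := mul_nonneg (by norm_num : (0 : ℝ) ≤ (692 / 385 : ℝ)) h4
    have g5 := mul_nonneg (by norm_num : (0 : ℝ) ≤ (4 / 7 : ℝ)) h5
    have g6 := mul_nonneg (by norm_num : (0 : ℝ) ≤ (16 / 231 : ℝ)) h6
    linarith
  have hup : ∑ u ∈ U, ∑ v ∈ U, f (inner ℝ u v) ≤ ∑ u ∈ U, (49 / 4 : ℝ) := by
    apply Finset.sum_le_sum
    intro u hu
    classical
    rw [← Finset.add_sum_erase U _ hu]
    have h1 : f (inner ℝ u u) = 49 / 4 := by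
      rw [real_inner_self_eq_norm_sq, hU.1 u hu]
      unfold f; norm_num
    have h2 : ∑ v ∈ U.erase u, f (inner ℝ u v) ≤ 0 := by
      apply Finset.sum_nonpos
      intro v hv
      rw [Finset.mem_erase] at hv
      obtain ⟨hne, hv⟩ := hv
      have h3 := hU.2 u hu v hv (Ne.symm hne)
      have h4 : Real.cos (InnerProductGeometry.angle u v) = inner ℝ u v := by
        rw [InnerProductGeometry.cos_angle, hU.1 u hu, hU.1 v hv]; norm_num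
      apply f_nonpos
      · rw [← h4]; exact Real.neg_one_le_cos _
      · rw [← h4, ← Real.cos_pi_div_three]
        exact Real.cos_le_cos_of_nonneg_of_le_pi (by positivity) (InnerProductGeometry.angle_le_pi _ _) h3
    linarith
  rw [Finset.sum_const, nsmul_eq_mul] at hup
  by_contra hcon
  have h5 : (14 : ℝ) ≤ U.card := by
    have : 14 ≤ U.card := by omega
    exact_mod_cast this
  nlinarith

end Pool.Agent.H15Kiss
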