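import Pool.Agent.H15Kiss
set_option autoImplicit false
set_option maxRecDepth 100000

/-! Higher Legendre polynomials: addition theorem and positivity. -/
namespace Pool.Agent.H15Kiss

open Pool.Agent.H15Cap

noncomputable def P9 (t : ℝ) : ℝ := (315 / 128 : ℝ) * t + (-1155 / 32 : ℝ) * t ^ 3 + (9009 / 64 : ℝ) * t ^ 5 + (-6435 / 32 : ℝ) * t ^ 7 + (12155 / 128 : ℝ) * t ^ 9
noncomputable def C7 (x y : ℝ) : ℝ := (1 : ℝ) * x ^ 7 * y ^ 0 + (-21 : ℝ) * x ^ 5 * y ^ 2 + (35 : ℝ) * x ^ 3 * y ^ 4 + (-7 : ℝ) * x ^ 1 * y ^ 6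
noncomputable def S7 (x y : ℝ) : ℝ := (7 : ℝ) * x ^ 6 * y ^ 1 + (-35 : ℝ) * x ^ 4 * y ^ 3 + (21 : ℝ) * x ^ 2 * y ^ 5 + (-1 : ℝ) * x ^ 0 * y ^ 7
noncomputable def T7 (A r : ℝ) : ℝ := (1 : ℝ) * A ^ 7 * (r - A ^ 2) ^ 0 + (-21 : ℝ) * A ^ 5 * (r - A ^ 2) ^ 1 + (35 : ℝ) * A ^ 3 * (r - A ^ 2) ^ 2 + (-7 : ℝ) * A ^ 1 * (r - A ^ 2) ^ 3
theorem cs7 (x y x' y' : ℝ) : C7 x y * C7 x' y' + S7 x y * S7 x' y' =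
    T7 (x * x' + y * y') ((x ^ 2 + y ^ 2) * (x' ^ 2 + y' ^ 2)) := by
  unfold C7 S7 T7; ring

noncomputable def C8 (x y : ℝ) : ℝ := (1 : ℝ) * x ^ 8 * y ^ 0 + (-28 : ℝ) * x ^ 6 * y ^ 2 + (70 : ℝ) * x ^ 4 * y ^ 4 + (-28 : ℝ) * x ^ 2 * y ^ 6 + (1 : ℝ) * x ^ 0 * y ^ 8
noncomputable def S8 (x y : ℝ) : ℝ := (8 : ℝ) * x ^ 7 * y ^ 1 + (-56 : ℝ) * x ^ 5 * y ^ 3 + (56 : ℝ) * x ^ 3 * y ^ 5 + (-8 : ℝ) * x ^ 1 * y ^ 7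
noncomputable def T8 (A r : ℝ) : ℝ := (1 : ℝ) * A ^ 8 * (r - A ^ 2) ^ 0 + (-28 : ℝ) * A ^ 6 * (r - A ^ 2) ^ 1 + (70 : ℝ) * A ^ 4 * (r - A ^ 2) ^ 2 + (-28 : ℝ) * A ^ 2 * (r - A ^ 2) ^ 3 + (1 : ℝ) * A ^ 0 * (r - A ^ 2) ^ 4
theorem cs8 (x y x' y' : ℝ) : C8 x y * C8 x' y' + S8 x y * S8 x' y' =
    T8 (x * x' + y * y') ((x ^ 2 + y ^ 2) * (x' ^ 2 + y' ^ 2)) := by
  unfold C8 S8 T8; ring

noncomputable def C9 (x y : ℝ) : ℝ := (1 : ℝ) * x ^ 9 * y ^ 0 + (-36 : ℝ) * x ^ 7 * y ^ 2 + (126 : ℝ) * x ^ 5 * y ^ 4 + (-84 : ℝ) * x ^ 3 * y ^ 6 + (9 : ℝ) * x ^ 1 * y ^ 8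
noncomputable def S9 (x y : ℝ) : ℝ := (9 : ℝ) * x ^ 8 * y ^ 1 + (-84 : ℝ) * x ^ 6 * y ^ 3 + (126 : ℝ) * x ^ 4 * y ^ 5 + (-36 : ℝ) * x ^ 2 * y ^ 7 + (1 : ℝ) * x ^ 0 * y ^ 9
noncomputable def T9 (A r : ℝ) : ℝ := (1 : ℝ) * A ^ 9 * (r - A ^ 2) ^ 0 + (-36 : ℝ) * A ^ 7 * (r - A ^ 2) ^ 1 + (126 : ℝ) * A ^ 5 * (r - A ^ 2) ^ 2 + (-84 : ℝ) * A ^ 3 * (r - A ^ 2) ^ 3 + (9 : ℝ) * A ^ 1 * (r - A ^ 2) ^ 4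
theorem cs9 (x y x' y' : ℝ) : C9 x y * C9 x' y' + S9 x y * S9 x' y' =
    T9 (x * x' + y * y') ((x ^ 2 + y ^ 2) * (x' ^ 2 + y' ^ 2)) := by
  unfold C9 S9 T9; ring

noncomputable def D9_0 (z : ℝ) : ℝ := (315 / 128 : ℝ) * z + (-1155 / 32 : ℝ) * z ^ 3 + (9009 / 64 : ℝ) * z ^ 5 + (-6435 / 32 : ℝ) * z ^ 7 + (12155 / 128 : ℝ) * z ^ 9
noncomputable def D9_1 (z : ℝ) : ℝ := (315 / 128 : ℝ) + (-3465 / 32 : ℝ) * z ^ 2 + (45045 / 64 : ℝ) * z ^ 4 + (-45045 / 32 : ℝ) * z ^ 6 + (109395 / 128 : ℝ) * z ^ 8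
noncomputable def D9_2 (z : ℝ) : ℝ := (-3465 / 16 : ℝ) * z + (45045 / 16 : ℝ) * z ^ 3 + (-135135 / 16 : ℝ) * z ^ 5 + (109395 / 16 : ℝ) * z ^ 7
noncomputable def D9_3 (z : ℝ) : ℝ := (-3465 / 16 : ℝ) + (135135 / 16 : ℝ) * z ^ 2 + (-675675 / 16 : ℝ) * z ^ 4 + (765765 / 16 : ℝ) * z ^ 6
noncomputable def D9_4 (z : ℝ) : ℝ := (135135 / 8 : ℝ) * z + (-675675 / 4 : ℝ) * z ^ 3 + (2297295 / 8 : ℝ) * z ^ 5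
noncomputable def D9_5 (z : ℝ) : ℝ := (135135 / 8 : ℝ) + (-2027025 / 4 : ℝ) * z ^ 2 + (11486475 / 8 : ℝ) * z ^ 4
noncomputable def D9_6 (z : ℝ) : ℝ := (-2027025 / 2 : ℝ) * z + (11486475 / 2 : ℝ) * z ^ 3
noncomputable def D9_7 (z : ℝ) : ℝ := (-2027025 / 2 : ℝ) + (34459425 / 2 : ℝ) * z ^ 2
noncomputable def D9_8 (z : ℝ) : ℝ := (34459425 : ℝ) * z
noncomputable def D9_9 (z : ℝ) : ℝ := (34459425 : ℝ)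
theorem add9 (A z z' : ℝ) : P9 (A + z * z') =
      D9_0 z * D9_0 z' +
      (1 / 45 : ℝ) * (D9_1 z * D9_1 z' * T1 A ((1 - z ^ 2) * (1 - z' ^ 2))) +
      (1 / 3960 : ℝ) * (D9_2 z * D9_2 z' * T2 A ((1 - z ^ 2) * (1 - z' ^ 2))) +
      (1 / 332640 : ℝ) * (D9_3 z * D9_3 z' * T3 A ((1 - z ^ 2) * (1 - z' ^ 2))) +
      (1 / 25945920 : ℝ) * (D9_4 z * D9_4 z' * T4 A ((1 - z ^ 2) * (1 - z' ^ 2))) +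
      (1 / 1816214400 : ℝ) * (D9_5 z * D9_5 z' * T5 A ((1 - z ^ 2) * (1 - z' ^ 2))) +
      (1 / 108972864000 : ℝ) * (D9_6 z * D9_6 z' * T6 A ((1 - z ^ 2) * (1 - z' ^ 2))) +
      (1 / 5230697472000 : ℝ) * (D9_7 z * D9_7 z' * T7 A ((1 - z ^ 2) * (1 - z' ^ 2))) +
      (1 / 177843714048000 : ℝ) * (D9_8 z * D9_8 z' * T8 A ((1 - z ^ 2) * (1 - z' ^ 2))) +
      (1 / 3201186852864000 : ℝ) * (D9_9 z * D9_9 z' * T9 A ((1 - z ^ 2) * (1 - z' ^ 2))) := by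
  unfold P9 D9_0 D9_1 D9_2 D9_3 D9_4 D9_5 D9_6 D9_7 D9_8 D9_9 T1 T2 T3 T4 T5 T6 T7 T8 T9
  ring

theorem feat9 (u v : E3) (hu : ‖u‖ = 1) (hv : ‖v‖ = 1) : P9 (inner ℝ u v) =
      D9_0 (u 2) * D9_0 (v 2) +
      ((1 / 45 : ℝ) * ((D9_1 (u 2) * C1 (u 0) (u 1)) * (D9_1 (v 2) * C1 (v 0) (v 1))) +
      (1 / 45 : ℝ) * ((D9_1 (u 2) * S1 (u 0) (u 1)) * (D9_1 (v 2) * S1 (v 0) (v 1)))) +
      ((1 / 3960 : ℝ) * ((D9_2 (u 2) * C2 (u 0) (u 1)) * (D9_2 (v 2) * C2 (v 0) (v 1))) +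
      (1 / 3960 : ℝ) * ((D9_2 (u 2) * S2 (u 0) (u 1)) * (D9_2 (v 2) * S2 (v 0) (v 1)))) +
      ((1 / 332640 : ℝ) * ((D9_3 (u 2) * C3 (u 0) (u 1)) * (D9_3 (v 2) * C3 (v 0) (v 1))) +
      (1 / 332640 : ℝ) * ((D9_3 (u 2) * S3 (u 0) (u 1)) * (D9_3 (v 2) * S3 (v 0) (v 1)))) +
      ((1 / 25945920 : ℝ) * ((D9_4 (u 2) * C4 (u 0) (u 1)) * (D9_4 (v 2) * C4 (v 0) (v 1))) +
      (1 / 25945920 : ℝ) * ((D9_4 (u 2) * S4 (u 0) (u 1)) * (D9_4 (v 2) * S4 (v 0) (v 1)))) +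
      ((1 / 1816214400 : ℝ) * ((D9_5 (u 2) * C5 (u 0) (u 1)) * (D9_5 (v 2) * C5 (v 0) (v 1))) +
      (1 / 1816214400 : ℝ) * ((D9_5 (u 2) * S5 (u 0) (u 1)) * (D9_5 (v 2) * S5 (v 0) (v 1)))) +
      ((1 / 108972864000 : ℝ) * ((D9_6 (u 2) * C6 (u 0) (u 1)) * (D9_6 (v 2) * C6 (v 0) (v 1))) +
      (1 / 108972864000 : ℝ) * ((D9_6 (u 2) * S6 (u 0) (u 1)) * (D9_6 (v 2) * S6 (v 0) (v 1)))) +
      ((1 / 5230697472000 : ℝ) * ((D9_7 (u 2) * C7 (u 0) (u 1)) * (D9_7 (v 2) * C7 (v 0) (v 1))) +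
      (1 / 5230697472000 : ℝ) * ((D9_7 (u 2) * S7 (u 0) (u 1)) * (D9_7 (v 2) * S7 (v 0) (v 1)))) +
      ((1 / 177843714048000 : ℝ) * ((D9_8 (u 2) * C8 (u 0) (u 1)) * (D9_8 (v 2) * C8 (v 0) (v 1))) +
      (1 / 177843714048000 : ℝ) * ((D9_8 (u 2) * S8 (u 0) (u 1)) * (D9_8 (v 2) * S8 (v 0) (v 1)))) +
      ((1 / 3201186852864000 : ℝ) * ((D9_9 (u 2) * C9 (u 0) (u 1)) * (D9_9 (v 2) * C9 (v 0) (v 1))) +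
      (1 / 3201186852864000 : ℝ) * ((D9_9 (u 2) * S9 (u 0) (u 1)) * (D9_9 (v 2) * S9 (v 0) (v 1)))) := by
  rw [inner_eq, add9]
  have e1 := cs1 (u 0) (u 1) (v 0) (v 1)
  rw [unit_eq u hu, unit_eq v hv] at e1
  rw [← e1]
  have e2 := cs2 (u 0) (u 1) (v 0) (v 1)
  rw [unit_eq u hu, unit_eq v hv] at e2
  rw [← e2]
  have e3 := cs3 (u 0) (u 1) (v 0) (v 1)
  rw [unit_eq u hu, unit_eq v hv] at e3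
  rw [← e3]
  have e4 := cs4 (u 0) (u 1) (v 0) (v 1)
  rw [unit_eq u hu, unit_eq v hv] at e4
  rw [← e4]
  have e5 := cs5 (u 0) (u 1) (v 0) (v 1)
  rw [unit_eq u hu, unit_eq v hv] at e5
  rw [← e5]
  have e6 := cs6 (u 0) (u 1) (v 0) (v 1)
  rw [unit_eq u hu, unit_eq v hv] at e6
  rw [← e6]
  have e7 := cs7 (u 0) (u 1) (v 0) (v 1)
  rw [unit_eq u hu, unit_eq v hv] at e7
  rw [← e7]
  have e8 := cs8 (u 0) (u 1) (v 0) (v 1)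
  rw [unit_eq u hu, unit_eq v hv] at e8
  rw [← e8]
  have e9 := cs9 (u 0) (u 1) (v 0) (v 1)
  rw [unit_eq u hu, unit_eq v hv] at e9
  rw [← e9]
  ring

theorem psd9 (U : Finset E3) (hU : ∀ u ∈ U, ‖u‖ = 1) : 0 ≤ ∑ u ∈ U, ∑ v ∈ U, P9 (inner ℝ u v) := by
  rw [Finset.sum_congr rfl (fun u hu => Finset.sum_congr rfl (fun v hv => feat9 u v (hU u hu) (hU v hv)))]
  simp only [Finset.sum_add_distrib, ← Finset.mul_sum]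
  have h0 := sq_nonneg' U (fun u => D9_0 (u 2))
  have c1 := sq_nonneg' U (fun u => D9_1 (u 2) * C1 (u 0) (u 1))
  have s1 := sq_nonneg' U (fun u => D9_1 (u 2) * S1 (u 0) (u 1))
  have c2 := sq_nonneg' U (fun u => D9_2 (u 2) * C2 (u 0) (u 1))
  have s2 := sq_nonneg' U (fun u => D9_2 (u 2) * S2 (u 0) (u 1))
  have c3 := sq_nonneg' U (fun u => D9_3 (u 2) * C3 (u 0) (u 1))
  have s3 := sq_nonneg' U (fun u => D9_3 (u 2) * S3 (u 0) (u 1))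
  have c4 := sq_nonneg' U (fun u => D9_4 (u 2) * C4 (u 0) (u 1))
  have s4 := sq_nonneg' U (fun u => D9_4 (u 2) * S4 (u 0) (u 1))
  have c5 := sq_nonneg' U (fun u => D9_5 (u 2) * C5 (u 0) (u 1))
  have s5 := sq_nonneg' U (fun u => D9_5 (u 2) * S5 (u 0) (u 1))
  have c6 := sq_nonneg' U (fun u => D9_6 (u 2) * C6 (u 0) (u 1))
  have s6 := sq_nonneg' U (fun u => D9_6 (u 2) * S6 (u 0) (u 1))
  have c7 := sq_nonneg' U (fun u => D9_7 (u 2) * C7 (u 0) (u 1))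
  have s7 := sq_nonneg' U (fun u => D9_7 (u 2) * S7 (u 0) (u 1))
  have c8 := sq_nonneg' U (fun u => D9_8 (u 2) * C8 (u 0) (u 1))
  have s8 := sq_nonneg' U (fun u => D9_8 (u 2) * S8 (u 0) (u 1))
  have c9 := sq_nonneg' U (fun u => D9_9 (u 2) * C9 (u 0) (u 1))
  have s9 := sq_nonneg' U (fun u => D9_9 (u 2) * S9 (u 0) (u 1))
  simp only at h0 c1 s1 c2 s2 c3 s3 c4 s4 c5 s5 c6 s6 c7 s7 c8 s8 c9 s9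
  simp only [← Finset.mul_sum] at h0 c1 s1 c2 s2 c3 s3 c4 s4 c5 s5 c6 s6 c7 s7 c8 s8 c9 s9
  positivity

end Pool.Agent.H15Kiss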