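import Pool.Agent.H15K12b
set_option autoImplicit false

/-! Two-dimensional Hausdorff measure on the unit sphere of 3-space. -/
namespace Pool.Agent.H15Meas

open MeasureTheory Set Pool.Agent.H15Cap
open scoped ENNReal NNReal

theorem avg_gen (ν : Measure E3) [IsFiniteMeasure ν] (hinv : ∀ g : G3, Measure.map (act g) ν = ν)
    (hae : ∀ᵐ x ∂ν, ‖x‖ = 1) (R : Set E3) (hR : MeasurableSet R) (v : E3) (hv : ‖v‖ = 1) :
    (∫⁻ g, R.indicator (1 : E3 → ℝ≥0∞) (act g⁻¹ v) ∂mu) * ν univ = ν R * mu univ := by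
  have havg : ∫⁻ x, (∫⁻ g, R.indicator (1 : E3 → ℝ≥0∞) (act g⁻¹ x) ∂mu) ∂ν = ν R * mu univ := by
    rw [lintegral_lintegral_swap (ind_meas R hR).aemeasurable]
    have : ∀ g : G3, ∫⁻ x, R.indicator (1 : E3 → ℝ≥0∞) (act g⁻¹ x) ∂ν = ν R := by
      intro g
      have h1 : ∫⁻ x, R.indicator (1 : E3 → ℝ≥0∞) (act g⁻¹ x) ∂ν =
          ∫⁻ x, R.indicator (1 : E3 → ℝ≥0∞) x ∂(Measure.map (act g⁻¹) ν) := by
        rw [lintegral_map (measurable_one.indicator hR) (act_meas _)]
      rw [h1, hinv, lintegral_indicator_one hR]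
    rw [lintegral_congr this, lintegral_const]
  rw [← havg, ← lintegral_const]
  apply lintegral_congr_ae
  filter_upwards [hae] with x hx
  exact h_const R v x (by rw [hv, hx])

theorem prop (ν : Measure E3) [IsFiniteMeasure ν] (hinv : ∀ g : G3, Measure.map (act g) ν = ν)
    (hae : ∀ᵐ x ∂ν, ‖x‖ = 1) (R : Set E3) (hR : MeasurableSet R) :
    ν R * sarea univ = sarea R * ν univ := by
  have hv : ‖(EuclideanSpace.single 0 1 : E3)‖ = 1 := by simp
  have h1 := avg_gen ν hinv hae R hR _ hv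
  have h2 := avg_gen sarea sarea_map sarea_ae R hR _ hv
  have h3 : (ν R * sarea univ) * mu univ = (sarea R * ν univ) * mu univ := by
    calc (ν R * sarea univ) * mu univ = (ν R * mu univ) * sarea univ := by ring
      _ = _ := by rw [← h1]
      _ = ((∫⁻ g, R.indicator (1 : E3 → ℝ≥0∞) (act g⁻¹ (EuclideanSpace.single 0 1)) ∂mu) * sarea univ) * ν univ := by ring
      _ = _ := by rw [h2]; ring
  exact (ENNReal.mul_left_inj mu_univ_ne (measure_ne_top _ _)).mp h3

def Sph : Set E3 := {x | ‖x‖ = 1}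

theorem Sph_meas : MeasurableSet Sph := measurableSet_eq_fun measurable_norm measurable_const

noncomputable def nu : Measure E3 := (μH[2] : Measure E3).restrict Sph

theorem nu_ae : ∀ᵐ x ∂nu, ‖x‖ = 1 := by
  unfold nu
  exact ae_restrict_mem Sph_meas

theorem nu_map (g : G3) : Measure.map (act g) nu = nu := by
  unfold nu
  have h2 : MeasurePreserving (act g) (μH[2] : Measure E3) μH[2] :=
    (Unitary.linearIsometryEquiv g).toIsometryEquiv.measurePreserving_hausdorffMeasure 2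
  have h3 : act g ⁻¹' Sph = Sph := by
    ext x
    simp only [Sph, Set.mem_preimage, mem_ofPred_eq, act_norm]
  have h4 := (h2.restrict_preimage (s := Sph) Sph_meas).map_eq
  rw [h3] at h4
  exact h4

/-- spherical coordinates -/
noncomputable def phi (p : Fin 2 → ℝ) : E3 :=
  WithLp.toLp 2 ![Real.sin (p 0) * Real.cos (p 1), Real.sin (p 0) * Real.sin (p 1), Real.cos (p 0)]

theorem sin_lip (a b : ℝ) : |Real.sin a - Real.sin b| ≤ |a - b| := by
  rw [Real.sin_sub_sin, abs_mul, abs_mul]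
  have h1 : |Real.sin ((a - b) / 2)| ≤ |(a - b) / 2| := Real.abs_sin_le_abs
  have h2 := Real.abs_cos_le_one ((a + b) / 2)
  have h3 : |(2 : ℝ)| = 2 := by norm_num
  rw [h3]
  rw [abs_div, abs_two] at h1
  have := abs_nonneg (Real.sin ((a - b) / 2))
  nlinarith [abs_nonneg (Real.cos ((a + b) / 2))]

theorem cos_lip (a b : ℝ) : |Real.cos a - Real.cos b| ≤ |a - b| := by
  have h := sin_lip (a + Real.pi / 2) (b + Real.pi / 2)
  rw [Real.sin_add_pi_div_two, Real.sin_add_pi_div_two] at h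
  have : a + Real.pi / 2 - (b + Real.pi / 2) = a - b := by ring
  rwa [this] at h

theorem prod_lip (a b c d δ : ℝ) (ha : |a| ≤ 1) (hd : |d| ≤ 1) (h1 : |a - c| ≤ δ) (h2 : |b - d| ≤ δ) :
    |a * b - c * d| ≤ 2 * δ := by
  have : a * b - c * d = a * (b - d) + (a - c) * d := by ring
  rw [this]
  refine (abs_add_le _ _).trans ?_
  rw [abs_mul, abs_mul]
  have := abs_nonneg (b - d)
  have := abs_nonneg (a - c)
  nlinarith [abs_nonneg a, abs_nonneg d]

theorem phi_lip : LipschitzWith 4 phi := by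
  apply LipschitzWith.of_dist_le_mul
  intro p q
  have h0 : |p 0 - q 0| ≤ dist p q := by
    have := dist_le_pi_dist p q 0
    rwa [Real.dist_eq] at this
  have h1 : |p 1 - q 1| ≤ dist p q := by
    have := dist_le_pi_dist p q 1
    rwa [Real.dist_eq] at this
  have hδ : 0 ≤ dist p q := dist_nonneg
  have e0 : |Real.sin (p 0) * Real.cos (p 1) - Real.sin (q 0) * Real.cos (q 1)| ≤ 2 * dist p q :=
    prod_lip _ _ _ _ _ (Real.abs_sin_le_one _) (Real.abs_cos_le_one _) ((sin_lip _ _).trans h0) ((cos_lip _ _).trans h1)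
  have e1 : |Real.sin (p 0) * Real.sin (p 1) - Real.sin (q 0) * Real.sin (q 1)| ≤ 2 * dist p q :=
    prod_lip _ _ _ _ _ (Real.abs_sin_le_one _) (Real.abs_sin_le_one _) ((sin_lip _ _).trans h0) ((sin_lip _ _).trans h1)
  have e2 : |Real.cos (p 0) - Real.cos (q 0)| ≤ 2 * dist p q := ((cos_lip _ _).trans h0).trans (by linarith)
  rw [EuclideanSpace.dist_eq, Fin.sum_univ_three]
  rw [Real.sqrt_le_left (by positivity)]
  simp only [phi, Real.dist_eq, sq_abs, Matrix.cons_val_zero, Matrix.cons_val_one, Matrix.cons_val]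
  have s0 := sq_le_sq' (neg_le_of_abs_le e0) (le_of_abs_le e0)
  have s1 := sq_le_sq' (neg_le_of_abs_le e1) (le_of_abs_le e1)
  have s2 := sq_le_sq' (neg_le_of_abs_le e2) (le_of_abs_le e2)
  have hc : ((4 : ℝ≥0) : ℝ) = 4 := by norm_num
  rw [hc]
  nlinarith [sq_nonneg (dist p q)]

theorem Sph_sub : Sph ⊆ phi '' (Metric.closedBall 0 4) := by
  intro x hx
  have hx' : ‖x‖ = 1 := hx
  have hu := Pool.Agent.H15Kiss.unit_eq x hx'
  have hn : ‖x‖ ^ 2 = x 0 ^ 2 + x 1 ^ 2 + x 2 ^ 2 := by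
    rw [EuclideanSpace.norm_sq_eq, Fin.sum_univ_three]
    simp only [Real.norm_eq_abs, sq_abs]
  have hx2 : -1 ≤ x 2 ∧ x 2 ≤ 1 := by
    rw [hx'] at hn
    constructor <;> nlinarith [sq_nonneg (x 0), sq_nonneg (x 1)]
  refine ⟨![Real.arccos (x 2), Complex.arg ⟨x 0, x 1⟩], ?_, ?_⟩
  · rw [mem_closedBall_zero_iff, pi_norm_le_iff_of_nonneg (by norm_num)]
    have hpi := Real.pi_le_four
    intro i
    fin_cases i
    · simp only [Fin.zero_eta, Matrix.cons_val_zero, Real.norm_eq_abs]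
      rw [abs_of_nonneg (Real.arccos_nonneg _)]
      exact (Real.arccos_le_pi _).trans hpi
    · simp only [Fin.mk_one, Matrix.cons_val_one, Real.norm_eq_abs]
      exact (Complex.abs_arg_le_pi _).trans hpi
  · have hs : Real.sin (Real.arccos (x 2)) = ‖(⟨x 0, x 1⟩ : ℂ)‖ := by
      rw [Real.sin_arccos, Complex.norm_def, Complex.normSq_mk, ← hu]
      congr 1
      ring
    unfold phi
    ext i
    fin_cases i
    · simp only [Fin.zero_eta, Matrix.cons_val_zero, Matrix.cons_val_one]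
      rw [hs, Complex.norm_mul_cos_arg]
    · simp only [Fin.mk_one, Matrix.cons_val_zero, Matrix.cons_val_one]
      rw [hs, Complex.norm_mul_sin_arg]
    · simp only [Fin.reduceFinMk, Matrix.cons_val, Matrix.cons_val_zero]
      exact Real.cos_arccos hx2.1 hx2.2

theorem Sph_fin : (μH[2] : Measure E3) Sph < ∞ := by
  refine (measure_mono Sph_sub).trans_lt ?_
  refine (phi_lip.hausdorffMeasure_image_le (by norm_num : (0 : ℝ) ≤ 2) _).trans_lt ?_
  have h : (μH[2] : Measure (Fin 2 → ℝ)) = volume := by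
    have := hausdorffMeasure_pi_real (ι := Fin 2)
    simpa using this
  rw [h]
  refine ENNReal.mul_lt_top ?_ measure_closedBall_lt_top
  exact ENNReal.rpow_lt_top_of_nonneg (by norm_num) (by simp)

instance : IsFiniteMeasure nu := ⟨by unfold nu; rw [Measure.restrict_apply_univ]; exact Sph_fin⟩

theorem haus_cap (u : E3) (ρ : ℝ) : (μH[2] : Measure E3) (cap u ρ) = nu (cap u ρ) := by
  unfold nu
  rw [Measure.restrict_apply (cap_meas u ρ)]
  congr 1
  ext x
  simp only [cap, Sph, mem_inter_iff, mem_ofPred_eq]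
  tauto

theorem union_meas (T : Finset E3) (ρ : ℝ) : MeasurableSet (⋃ u ∈ T, cap u ρ) :=
  Finset.measurableSet_biUnion _ (fun u _ => cap_meas u ρ)

theorem haus_union (T : Finset E3) (ρ : ℝ) : (μH[2] : Measure E3) (⋃ u ∈ T, cap u ρ) = nu (⋃ u ∈ T, cap u ρ) := by
  unfold nu
  rw [Measure.restrict_apply (union_meas T ρ)]
  congr 1
  ext x
  simp only [cap, Sph, mem_inter_iff, mem_iUnion, mem_ofPred_eq, exists_prop]
  constructor
  · rintro ⟨u, hu, h1, h2⟩
    exact ⟨⟨u, hu, h1, h2⟩, h1⟩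
  · rintro ⟨h, -⟩
    exact h

theorem real_prop (R : Set E3) (hR : MeasurableSet R) :
    (nu R).toReal = (sarea R).toReal * ((nu univ).toReal / (sarea univ).toReal) := by
  have h := congrArg ENNReal.toReal (prop nu nu_map nu_ae R hR)
  rw [ENNReal.toReal_mul, ENNReal.toReal_mul] at h
  have h2 := S_pos
  field_simp
  linarith

theorem angle_of_disjoint (u v : E3) (hu : ‖u‖ = 1) (hv : ‖v‖ = 1)
    (h : Disjoint (cap u (Real.pi / 6)) (cap v (Real.pi / 6))) :
    Real.pi / 3 ≤ InnerProductGeometry.angle u v := by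
  by_contra hcon
  push Not at hcon
  have hpi := Real.pi_pos
  set θ := InnerProductGeometry.angle u v with hθ
  have hθ0 : 0 ≤ θ := InnerProductGeometry.angle_nonneg _ _
  have hin : inner ℝ u v = Real.cos θ := by
    rw [hθ, InnerProductGeometry.cos_angle, hu, hv]; norm_num
  have hc : 1 / 2 < Real.cos θ := by
    rw [← Real.cos_pi_div_three]
    exact Real.cos_lt_cos_of_nonneg_of_le_pi hθ0 (by linarith) hcon
  have huu : inner ℝ u u = (1 : ℝ) := by rw [real_inner_self_eq_norm_sq, hu]; norm_num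
  have hvv : inner ℝ v v = (1 : ℝ) := by rw [real_inner_self_eq_norm_sq, hv]; norm_num
  have hnsq : ‖u + v‖ ^ 2 = 2 * (1 + Real.cos θ) := by
    rw [norm_add_sq_real, hu, hv, hin]; ring
  have hnpos : 0 < ‖u + v‖ := by
    by_contra h0
    have : ‖u + v‖ = 0 := le_antisymm (not_lt.mp h0) (norm_nonneg _)
    rw [this] at hnsq
    nlinarith
  have hhalf : ‖u + v‖ = 2 * Real.cos (θ / 2) := by
    rw [Real.cos_half (by linarith) (by linarith)]
    rw [← Real.sqrt_sq (norm_nonneg (u + v)), hnsq]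
    rw [show (2 * (1 + Real.cos θ) : ℝ) = 2 ^ 2 * ((1 + Real.cos θ) / 2) by ring, Real.sqrt_mul (by norm_num),
      Real.sqrt_sq (by norm_num)]
  have hangle : ∀ w : E3, ‖w‖ = 1 → inner ℝ w (u + v) = 1 + Real.cos θ →
      InnerProductGeometry.angle w (‖u + v‖⁻¹ • (u + v)) < Real.pi / 6 := by
    intro w hw hwi
    rw [InnerProductGeometry.angle_smul_right_of_pos _ _ (inv_pos.mpr hnpos)]
    have h1 : Real.cos (InnerProductGeometry.angle w (u + v)) = Real.cos (θ / 2) := by
      rw [InnerProductGeometry.cos_angle, hw, one_mul, hwi, div_eq_iff hnpos.ne', hhalf]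
      have := Real.cos_sq (θ / 2)
      have h2 : 2 * (θ / 2) = θ := by ring
      rw [h2] at this
      nlinarith
    have h2 : InnerProductGeometry.angle w (u + v) = θ / 2 :=
      Real.injOn_cos ⟨InnerProductGeometry.angle_nonneg _ _, InnerProductGeometry.angle_le_pi _ _⟩
        ⟨by linarith, by linarith⟩ h1
    rw [h2]
    linarith
  have hm : ‖‖u + v‖⁻¹ • (u + v)‖ = 1 := by
    rw [norm_smul, norm_inv, norm_norm]
    exact inv_mul_cancel₀ hnpos.ne'
  have m1 : ‖u + v‖⁻¹ • (u + v) ∈ cap u (Real.pi / 6) := ⟨hm, hangle u hu (by rw [inner_add_right, huu, hin])⟩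
  have m2 : ‖u + v‖⁻¹ • (u + v) ∈ cap v (Real.pi / 6) :=
    ⟨hm, hangle v hv (by rw [inner_add_right, hvv, real_inner_comm, hin]; ring)⟩
  exact (Set.disjoint_left.mp h) m1 m2

theorem main (T : Finset E3) (hT : ∀ u ∈ T, ‖u‖ = 1)
    (hd : (↑T : Set E3).PairwiseDisjoint (fun u => cap u (Real.pi / 6))) :
    (∑ u ∈ T, ((μH[2] : Measure E3) (cap u (Real.pi / 6))).toReal) /
      ((μH[2] : Measure E3) (⋃ u ∈ T, cap u (Real.pi / 3))).toReal ≤ 6 * (1 - Real.sqrt 3 / 2) := by
  have hpack : IsPacking T := by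
    refine ⟨hT, fun u hu v hv huv => ?_⟩
    exact angle_of_disjoint u v (hT u hu) (hT v hv) (hd hu hv huv)
  have h12 := delta_le_of_bound 12 Pool.Agent.H15Kiss.card_le_12 T hpack
  have h5 : 0 ≤ 1 - Real.sqrt 3 / 2 := by
    have : Real.sqrt 3 ≤ 2 := by
      rw [Real.sqrt_le_left (by norm_num)]; norm_num
    linarith
  rw [haus_union, real_prop _ (union_meas _ _)]
  have hs : ∑ u ∈ T, ((μH[2] : Measure E3) (cap u (Real.pi / 6))).toReal =
      (∑ u ∈ T, (sarea (cap u (Real.pi / 6))).toReal) * ((nu univ).toReal / (sarea univ).toReal) := by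
    rw [Finset.sum_mul]
    apply Finset.sum_congr rfl
    intro u _
    rw [haus_cap, real_prop _ (cap_meas _ _)]
  rw [hs]
  by_cases h0 : ((nu univ).toReal / (sarea univ).toReal) = 0
  · rw [h0, mul_zero, zero_div]
    positivity
  · rw [mul_div_mul_right _ _ h0]
    unfold delta at h12
    refine h12.trans (le_of_eq ?_)
    norm_num

end Pool.Agent.H15Meas
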