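import Pool.Agent.H15R13a
import Pool.Agent.H15K12b
set_option autoImplicit false

/-! Robust version: at most 12 unit vectors of 3-space with pairwise inner products `≤ 501/1000`. -/
namespace Pool.Agent.H15R13

open Pool.Agent.H15Cap
open Pool.Agent.H15Kiss (det3 unit3 gram abs1 pl inner_eq psd1 psd2 psd3 psd4 psd5 psd9)

theorem prod_gt (a b c : ℝ) (ha : a ≤ -(177 / 250 : ℝ)) (hb : b ≤ -(177 / 250 : ℝ)) (hc : c ≤ 501 / 1000) : c - a * b < 0 := by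
  nlinarith [mul_nonneg (by linarith : 0 ≤ -(177 / 250 : ℝ) - a) (by linarith : 0 ≤ -(177 / 250 : ℝ) - b)]

theorem no4 (e y1 y2 y3 w : E3) (he : ‖e‖ = 1) (hw : ‖w‖ = 1)
    (a1 : inner ℝ e y1 ≤ -(177 / 250 : ℝ)) (a2 : inner ℝ e y2 ≤ -(177 / 250 : ℝ))
    (a3 : inner ℝ e y3 ≤ -(177 / 250 : ℝ)) (a4 : inner ℝ e w ≤ -(177 / 250 : ℝ))
    (h12 : inner ℝ y1 y2 ≤ (501 / 1000 : ℝ)) (h13 : inner ℝ y1 y3 ≤ (501 / 1000 : ℝ)) (h23 : inner ℝ y2 y3 ≤ (501 / 1000 : ℝ))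
    (h1 : inner ℝ y1 w ≤ (501 / 1000 : ℝ)) (h2 : inner ℝ y2 w ≤ (501 / 1000 : ℝ)) (h3 : inner ℝ y3 w ≤ (501 / 1000 : ℝ)) : False := by
  have p12 := pl e y1 y2 w he hw (prod_gt _ _ _ a1 a2 h12) (prod_gt _ _ _ a1 a4 h1) (prod_gt _ _ _ a2 a4 h2)
  have p13 := pl e y1 y3 w he hw (prod_gt _ _ _ a1 a3 h13) (prod_gt _ _ _ a1 a4 h1) (prod_gt _ _ _ a3 a4 h3)
  have p23 := pl e y2 y3 w he hw (prod_gt _ _ _ a2 a3 h23) (prod_gt _ _ _ a2 a4 h2) (prod_gt _ _ _ a3 a4 h3)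
  rcases le_total 0 (det3 e y1 w) with s1 | s1 <;> rcases le_total 0 (det3 e y2 w) with s2 | s2 <;>
    rcases le_total 0 (det3 e y3 w) with s3 | s3
  · exact p12 (mul_nonneg s1 s2)
  · exact p12 (mul_nonneg s1 s2)
  · exact p13 (mul_nonneg s1 s3)
  · exact p23 (mul_nonneg_of_nonpos_of_nonpos s2 s3)
  · exact p23 (mul_nonneg s2 s3)
  · exact p13 (mul_nonneg_of_nonpos_of_nonpos s1 s3)
  · exact p12 (mul_nonneg_of_nonpos_of_nonpos s1 s2)
  · exact p12 (mul_nonneg_of_nonpos_of_nonpos s1 s2)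

theorem two (e y z : E3) (he : ‖e‖ = 1) (hy : ‖y‖ = 1) (hz : ‖z‖ = 1) (a b : ℝ)
    (hay : inner ℝ e y = -a) (hbz : inner ℝ e z = -b) (ha : (177 / 250 : ℝ) ≤ a) (hb : (177 / 250 : ℝ) ≤ b)
    (ha1 : a ≤ 1) (hb1 : b ≤ 1) (h : inner ℝ y z ≤ (501 / 1000 : ℝ)) : a ^ 2 + b ^ 2 - (501 / 500 : ℝ) * (a * b) ≤ (748999 / 1000000 : ℝ) := by
  have hE := unit3 e he
  have hY := unit3 y hy
  have hZ := unit3 z hz
  obtain ⟨l, hl⟩ : ∃ l : ℝ, l = (a - 501 / 1000 * b) / (748999 / 1000000) := ⟨_, rfl⟩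
  obtain ⟨m, hm⟩ : ∃ m : ℝ, m = (b - 501 / 1000 * a) / (748999 / 1000000) := ⟨_, rfl⟩
  have hl0 : 0 ≤ l := by rw [hl]; exact div_nonneg (by linarith) (by norm_num)
  have hm0 : 0 ≤ m := by rw [hm]; exact div_nonneg (by linarith) (by norm_num)
  have h1 : 0 ≤ (e 0 + l * y 0 + m * z 0) ^ 2 + (e 1 + l * y 1 + m * z 1) ^ 2 + (e 2 + l * y 2 + m * z 2) ^ 2 := by
    positivity
  have h2 : (e 0 + l * y 0 + m * z 0) ^ 2 + (e 1 + l * y 1 + m * z 1) ^ 2 + (e 2 + l * y 2 + m * z 2) ^ 2 =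
      1 + l ^ 2 + m ^ 2 - 2 * l * a - 2 * m * b + 2 * (l * m * inner ℝ y z) := by
    rw [inner_eq] at hay hbz ⊢
    linear_combination hE + l ^ 2 * hY + m ^ 2 * hZ + 2 * l * hay + 2 * m * hbz
  have h3 := mul_le_mul_of_nonneg_left h (mul_nonneg hl0 hm0)
  rw [h2] at h1
  have h4 : 0 ≤ 1 + l ^ 2 + m ^ 2 - 2 * l * a - 2 * m * b + 501 / 500 * (l * m) := by linarith
  rw [hl, hm] at h4
  nlinarith

theorem three (e y z w : E3) (he : ‖e‖ = 1) (hy : ‖y‖ = 1) (hz : ‖z‖ = 1) (hw : ‖w‖ = 1) (a b c : ℝ)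
    (hay : inner ℝ e y = -a) (hbz : inner ℝ e z = -b) (hcw : inner ℝ e w = -c)
    (ha : (177 / 250 : ℝ) ≤ a) (hb : (177 / 250 : ℝ) ≤ b) (hc : (177 / 250 : ℝ) ≤ c)
    (ha1 : a ≤ 1) (hb1 : b ≤ 1) (hc1 : c ≤ 1) (h : inner ℝ y z ≤ (501 / 1000 : ℝ)) (h' : inner ℝ y w ≤ (501 / 1000 : ℝ))
    (h'' : inner ℝ z w ≤ (501 / 1000 : ℝ)) :
    a ^ 2 + b ^ 2 + c ^ 2 ≤ (499 / 1000 : ℝ) + (501 / 2002 : ℝ) * (a + b + c) ^ 2 := by
  have hE := unit3 e he
  have hY := unit3 y hy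
  have hZ := unit3 z hz
  have hW := unit3 w hw
  obtain ⟨l, hl⟩ : ∃ l : ℝ, l = (a - 501 / 2002 * (a + b + c)) / (499 / 1000) := ⟨_, rfl⟩
  obtain ⟨m, hm⟩ : ∃ m : ℝ, m = (b - 501 / 2002 * (a + b + c)) / (499 / 1000) := ⟨_, rfl⟩
  obtain ⟨n, hn⟩ : ∃ n : ℝ, n = (c - 501 / 2002 * (a + b + c)) / (499 / 1000) := ⟨_, rfl⟩
  have hl0 : 0 ≤ l := by rw [hl]; exact div_nonneg (by linarith) (by norm_num)
  have hm0 : 0 ≤ m := by rw [hm]; exact div_nonneg (by linarith) (by norm_num)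
  have hn0 : 0 ≤ n := by rw [hn]; exact div_nonneg (by linarith) (by norm_num)
  have h1 : 0 ≤ (e 0 + l * y 0 + m * z 0 + n * w 0) ^ 2 + (e 1 + l * y 1 + m * z 1 + n * w 1) ^ 2 +
      (e 2 + l * y 2 + m * z 2 + n * w 2) ^ 2 := by
    positivity
  have h2 : (e 0 + l * y 0 + m * z 0 + n * w 0) ^ 2 + (e 1 + l * y 1 + m * z 1 + n * w 1) ^ 2 +
      (e 2 + l * y 2 + m * z 2 + n * w 2) ^ 2 =
      1 + l ^ 2 + m ^ 2 + n ^ 2 - 2 * l * a - 2 * m * b - 2 * n * c + 2 * (l * m * inner ℝ y z) +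
        2 * (l * n * inner ℝ y w) + 2 * (m * n * inner ℝ z w) := by
    rw [inner_eq] at hay hbz hcw
    rw [inner_eq, inner_eq, inner_eq]
    linear_combination hE + l ^ 2 * hY + m ^ 2 * hZ + n ^ 2 * hW + 2 * l * hay + 2 * m * hbz + 2 * n * hcw
  have h3 := mul_le_mul_of_nonneg_left h (mul_nonneg hl0 hm0)
  have h5 := mul_le_mul_of_nonneg_left h' (mul_nonneg hl0 hn0)
  have h6 := mul_le_mul_of_nonneg_left h'' (mul_nonneg hm0 hn0)
  rw [h2] at h1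
  have h4 : 0 ≤ 1 + l ^ 2 + m ^ 2 + n ^ 2 - 2 * l * a - 2 * m * b - 2 * n * c + 501 / 500 * (l * m) + 501 / 500 * (l * n) + 501 / 500 * (m * n) := by linarith
  rw [hl, hm, hn] at h4
  nlinarith

theorem local_bound (u : E3) (hu : ‖u‖ = 1) (W : Finset E3) (hW : ∀ v ∈ W, ‖v‖ = 1)
    (hWu : ∀ v ∈ W, inner ℝ u v ≤ -(177 / 250 : ℝ)) (hWW : ∀ v ∈ W, ∀ w ∈ W, v ≠ w → inner ℝ v w ≤ (501 / 1000 : ℝ)) :
    ∑ v ∈ W, F (inner ℝ u v) ≤ 3903 / 2000 := by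
  classical
  have hcard : W.card ≤ 3 := by
    by_contra hcon
    push Not at hcon
    obtain ⟨w, hw⟩ : W.Nonempty := Finset.card_pos.mp (by omega)
    have h1 : 2 < (W.erase w).card := by
      rw [Finset.card_erase_of_mem hw]; omega
    obtain ⟨a, b, c, ha, hb, hc, hab, hac, hbc⟩ := Finset.two_lt_card_iff.mp h1
    rw [Finset.mem_erase] at ha hb hc
    exact no4 u a b c w hu (hW w hw) (hWu a ha.2) (hWu b hb.2) (hWu c hc.2) (hWu w hw)
      (hWW a ha.2 b hb.2 hab) (hWW a ha.2 c hc.2 hac) (hWW b hb.2 c hc.2 hbc)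
      (hWW a ha.2 w hw ha.1) (hWW b hb.2 w hw hb.1) (hWW c hc.2 w hw hc.1)
  have hub : ∀ v ∈ W, -inner ℝ u v ≤ (1 : ℝ) := fun v hv => by
    have := (abs1 u v hu (hW v hv)).1
    linarith
  have hlb : ∀ v ∈ W, (177 / 250 : ℝ) ≤ -inner ℝ u v := fun v hv => by
    have := hWu v hv
    linarith
  have hcases : W.card = 0 ∨ W.card = 1 ∨ W.card = 2 ∨ W.card = 3 := by omega
  rcases hcases with h | h | h | h
  · rw [Finset.card_eq_zero.mp h, Finset.sum_empty]; norm_num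
  · obtain ⟨a, rfl⟩ := Finset.card_eq_one.mp h
    rw [Finset.sum_singleton, F_G]
    have ha := Finset.mem_singleton_self a
    exact G_le _ (hlb a ha) (hub a ha)
  · obtain ⟨a, b, hab, rfl⟩ := Finset.card_eq_two.mp h
    rw [Finset.sum_pair hab, F_G, F_G]
    have ha : a ∈ ({a, b} : Finset E3) := by simp
    have hb : b ∈ ({a, b} : Finset E3) := by simp
    have h2 := two u a b hu (hW a ha) (hW b hb) (-inner ℝ u a) (-inner ℝ u b) (by ring) (by ring)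
      (hlb a ha) (hlb b hb) (hub a ha) (hub b hb) (hWW a ha b hb hab)
    rcases le_total (-inner ℝ u b) (-inner ℝ u a : ℝ) with h3 | h3
    · exact pair _ _ (hub a ha) (hlb b hb) h3 h2
    · rw [add_comm]
      exact pair _ _ (hub b hb) (hlb a ha) h3 (by linarith)
  · obtain ⟨a, b, c, hab, hac, hbc, rfl⟩ := Finset.card_eq_three.mp h
    have ha : a ∈ ({a, b, c} : Finset E3) := by simp
    have hb : b ∈ ({a, b, c} : Finset E3) := by simp
    have hc : c ∈ ({a, b, c} : Finset E3) := by simp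
    have h2 := three u a b c hu (hW a ha) (hW b hb) (hW c hc) (-inner ℝ u a) (-inner ℝ u b) (-inner ℝ u c)
      (by ring) (by ring) (by ring)
      (hlb a ha) (hlb b hb) (hlb c hc) (hub a ha) (hub b hb) (hub c hc) (hWW a ha b hb hab) (hWW a ha c hc hac)
      (hWW b hb c hc hbc)
    have h3 := triple _ _ _ (hlb a ha) (hlb b hb) (hlb c hc) (hub a ha) (hub b hb) (hub c hc) h2
    rw [Finset.sum_insert (by simp [hab, hac]), Finset.sum_pair hbc, F_G, F_G, F_G]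
    linarith

theorem card_le_12 (U : Finset E3) (hU1 : ∀ u ∈ U, ‖u‖ = 1)
    (hin : ∀ v ∈ U, ∀ w ∈ U, v ≠ w → inner ℝ v w ≤ (501 / 1000 : ℝ)) : U.card ≤ 12 := by
  classical
  have hlow : (1 : ℝ) * (U.card : ℝ) ^ 2 ≤ ∑ u ∈ U, ∑ v ∈ U, F (inner ℝ u v) := by
    simp only [F_expand, Finset.sum_add_distrib, ← Finset.mul_sum, Finset.sum_const, nsmul_eq_mul]
    have h1 := psd1 U hU1
    have h2 := psd2 U hU1
    have h3 := psd3 U hU1
    have h4 := psd4 U hU1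
    have h5 := psd5 U hU1
    have h9 := psd9 U hU1
    nlinarith [h1, h2, h3, h4, h5, h9]
  have hup : ∑ u ∈ U, ∑ v ∈ U, F (inner ℝ u v) ≤ ∑ u ∈ U, (27621 / 2500 + 3903 / 2000 : ℝ) := by
    apply Finset.sum_le_sum
    intro u hu
    rw [← Finset.add_sum_erase U _ hu]
    have h1 : F (inner ℝ u u) = 27621 / 2500 := by
      rw [real_inner_self_eq_norm_sq, hU1 u hu]
      unfold F; norm_num
    have h2 : ∑ v ∈ U.erase u, F (inner ℝ u v) ≤ 3903 / 2000 := by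
      rw [← Finset.sum_filter_add_sum_filter_not (U.erase u) (fun v => inner ℝ u v ≤ -(177 / 250 : ℝ))]
      have h3 := local_bound u (hU1 u hu) ((U.erase u).filter (fun v => inner ℝ u v ≤ -(177 / 250 : ℝ)))
        (fun v hv => hU1 v (Finset.mem_of_mem_erase (Finset.mem_filter.mp hv).1))
        (fun v hv => (Finset.mem_filter.mp hv).2)
        (fun v hv w hw hne => hin v (Finset.mem_of_mem_erase (Finset.mem_filter.mp hv).1) w
          (Finset.mem_of_mem_erase (Finset.mem_filter.mp hw).1) hne)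
      have h4 : ∑ v ∈ (U.erase u).filter (fun v => ¬ inner ℝ u v ≤ -(177 / 250 : ℝ)), F (inner ℝ u v) ≤ 0 := by
        apply Finset.sum_nonpos
        intro v hv
        rw [Finset.mem_filter, Finset.mem_erase] at hv
        obtain ⟨⟨hne, hv⟩, hgt⟩ := hv
        have h5 := hin u hu v hv (Ne.symm hne)
        exact F_nonpos _ (by linarith) h5
      linarith
    linarith
  rw [Finset.sum_const, nsmul_eq_mul] at hup
  by_contra hcon
  have h5 : (13 : ℝ) ≤ U.card := by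
    have : 13 ≤ U.card := by omega
    exact_mod_cast this
  nlinarith

end Pool.Agent.H15R13
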