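import Mathlib
set_option autoImplicit false
namespace Pool.Agent.H25A
open Filter Topology

noncomputable def σ (x : ℝ) : ℝ := |x| ^ ((3/2:ℝ) - 2) * x

lemma abs_σ (x : ℝ) : |σ x| = Real.sqrt |x| := by
  by_cases hx : x = 0
  · simp [σ, hx]
  · have hx' : 0 < |x| := abs_pos.mpr hx
    rw [σ, abs_mul, abs_of_nonneg (Real.rpow_nonneg (abs_nonneg x) _), Real.sqrt_eq_rpow]
    nth_rewrite 2 [← Real.rpow_one |x|]
    rw [← Real.rpow_add hx']
    norm_num

lemma σ_of_pos {x : ℝ} (hx : 0 < x) : σ x = Real.sqrt x := by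
  have h := abs_σ x
  have h2 : 0 ≤ σ x := by
    rw [σ]; positivity
  rw [abs_of_nonneg h2, abs_of_pos hx] at h
  exact h

lemma σ_neg (x : ℝ) : σ (-x) = - σ x := by
  simp [σ]

lemma σ_of_neg {x : ℝ} (hx : x < 0) : σ x = - Real.sqrt (-x) := by
  have := σ_of_pos (x := -x) (by linarith)
  rw [σ_neg] at this
  linarith

lemma sqrt_le_div {m u : ℝ} (hm : 0 < m) (hu : m ≤ u) : Real.sqrt u ≤ u / Real.sqrt m := by
  rw [le_div_iff₀ (Real.sqrt_pos.mpr hm)]
  calc Real.sqrt u * Real.sqrt m ≤ Real.sqrt u * Real.sqrt u :=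
        mul_le_mul_of_nonneg_left (Real.sqrt_le_sqrt hu) (Real.sqrt_nonneg _)
    _ = u := Real.mul_self_sqrt (by linarith)

lemma sqrt_sub_le {m u v : ℝ} (hm : 0 < m) (hu : m ≤ u) (hv : m ≤ v) :
    |Real.sqrt u - Real.sqrt v| ≤ |u - v| / Real.sqrt m := by
  rw [le_div_iff₀ (Real.sqrt_pos.mpr hm)]
  have e : u - v = (Real.sqrt u - Real.sqrt v) * (Real.sqrt u + Real.sqrt v) := by
    have h1 := Real.mul_self_sqrt (show (0:ℝ) ≤ u by linarith)
    have h2 := Real.mul_self_sqrt (show (0:ℝ) ≤ v by linarith)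
    nlinarith
  rw [e, abs_mul]
  refine mul_le_mul_of_nonneg_left ?_ (abs_nonneg _)
  rw [abs_of_nonneg (by positivity)]
  have := Real.sqrt_le_sqrt hu
  have := Real.sqrt_nonneg v
  linarith

lemma σ_lip {m u v : ℝ} (hm : 0 < m) (hu : m ≤ |u|) (hv : m ≤ |v|) :
    |σ u - σ v| ≤ |u - v| / Real.sqrt m := by
  have hu0 : u ≠ 0 := by rintro rfl; simp at hu; linarith
  have hv0 : v ≠ 0 := by rintro rfl; simp at hv; linarith
  rcases lt_or_gt_of_ne hu0 with hu1 | hu1 <;> rcases lt_or_gt_of_ne hv0 with hv1 | hv1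
  · rw [σ_of_neg hu1, σ_of_neg hv1]
    rw [abs_of_neg hu1] at hu; rw [abs_of_neg hv1] at hv
    have := sqrt_sub_le hm hu hv
    have e1 : |-Real.sqrt (-u) - -Real.sqrt (-v)| = |Real.sqrt (-u) - Real.sqrt (-v)| := by
      rw [← abs_neg]; congr 1; ring
    have e2 : |-u - -v| = |u - v| := by rw [← abs_neg]; congr 1; ring
    rw [e1]; rw [e2] at this; exact this
  · rw [σ_of_neg hu1, σ_of_pos hv1]
    rw [abs_of_neg hu1] at hu; rw [abs_of_pos hv1] at hv
    have h1 := sqrt_le_div hm hu
    have h2 := sqrt_le_div hm hv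
    have e1 : |-Real.sqrt (-u) - Real.sqrt v| = Real.sqrt (-u) + Real.sqrt v := by
      rw [← abs_neg, abs_of_nonneg (by have := Real.sqrt_nonneg (-u); have := Real.sqrt_nonneg v; linarith)]; ring
    have e2 : |u - v| = -u + v := by rw [← abs_neg, abs_of_nonneg (by linarith)]; ring
    rw [e1, e2, add_div]; linarith
  · rw [σ_of_pos hu1, σ_of_neg hv1]
    rw [abs_of_pos hu1] at hu; rw [abs_of_neg hv1] at hv
    have h1 := sqrt_le_div hm hu
    have h2 := sqrt_le_div hm hv
    have e1 : |Real.sqrt u - -Real.sqrt (-v)| = Real.sqrt u + Real.sqrt (-v) := by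
      rw [abs_of_nonneg (by have := Real.sqrt_nonneg (-v); have := Real.sqrt_nonneg u; linarith)]; ring
    have e2 : |u - v| = u + -v := by rw [abs_of_nonneg (by linarith)]; ring
    rw [e1, e2, add_div]; linarith
  · rw [σ_of_pos hu1, σ_of_pos hv1]
    rw [abs_of_pos hu1] at hu; rw [abs_of_pos hv1] at hv
    exact sqrt_sub_le hm hu hv

lemma no_cancel (A B w : ℕ → ℝ) (r : ℝ → ℝ) (k : ℕ) (hBk : B k ≠ 0) (hwk : w k ≠ 0)
    (δ : ℝ) (hδ : 0 < δ)
    (hsep : ∀ j, j ≠ k → B j ≠ 0 → δ ≤ |(-A j / B j) - (-A k / B k)|)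
    (hsum : Summable fun j => |w j| * Real.sqrt |B j|)
    (hr : DifferentiableAt ℝ r (-A k / B k))
    (hs : ∀ s, Summable fun j => w j * σ (A j + s * B j))
    (hf : ∀ s, r s + ∑' j, w j * σ (A j + s * B j) = 0) : False := by
  classical
  set s0 := -A k / B k with hs0
  have hAk : A k + s0 * B k = 0 := by rw [hs0]; field_simp; ring
  set M : ℝ := (∑' j, |w j| * Real.sqrt |B j|) / Real.sqrt (δ / 2) with hM
  have key : ∀ h : ℝ, |h| ≤ δ / 2 →
      |w k| * (Real.sqrt |B k| * Real.sqrt |h|) ≤ M * |h| + |r (s0 + h) - r s0| := by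
    intro h hh
    have h1 := hf (s0 + h)
    have h2 := hf s0
    have hd : Summable fun j => w j * σ (A j + (s0 + h) * B j) - w j * σ (A j + s0 * B j) :=
      (hs _).sub (hs _)
    have h3 : ∑' j, (w j * σ (A j + (s0 + h) * B j) - w j * σ (A j + s0 * B j))
        = -(r (s0 + h) - r s0) := by
      rw [(hs _).tsum_sub (hs _)]; linarith
    rw [hd.tsum_eq_add_tsum_ite k] at h3
    have h4 : w k * σ (A k + (s0 + h) * B k) - w k * σ (A k + s0 * B k) = w k * σ (h * B k) := by
      rw [hAk]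
      have : A k + (s0 + h) * B k = h * B k := by linear_combination hAk
      rw [this]; simp [σ]
    rw [h4] at h3
    have h5 : ‖∑' j, (if j = k then 0 else
        (w j * σ (A j + (s0 + h) * B j) - w j * σ (A j + s0 * B j)))‖
        ≤ ∑' j, (|w j| * Real.sqrt |B j|) / Real.sqrt (δ / 2) * |h| := by
      refine tsum_of_norm_bounded (((hsum.div_const _).mul_right _).hasSum) ?_
      intro j
      by_cases hj : j = k
      · simp only [hj, if_true, norm_zero]; positivity
      · rw [if_neg hj, ← mul_sub, Real.norm_eq_abs, abs_mul]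
        by_cases hB : B j = 0
        · simp [hB]
        · have hBp : 0 < |B j| := abs_pos.mpr hB
          have hsj := hsep j hj hB
          have e1 : A j + s0 * B j = B j * (s0 - (-A j / B j)) := by field_simp; ring
          have e2 : A j + (s0 + h) * B j = B j * (s0 + h - (-A j / B j)) := by field_simp; ring
          have m1 : |B j| * (δ / 2) ≤ |A j + s0 * B j| := by
            rw [e1, abs_mul]
            refine mul_le_mul_of_nonneg_left ?_ hBp.le
            rw [abs_sub_comm] at hsj; linarith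
          have m2 : |B j| * (δ / 2) ≤ |A j + (s0 + h) * B j| := by
            rw [e2, abs_mul]
            refine mul_le_mul_of_nonneg_left ?_ hBp.le
            rw [abs_sub_comm] at hsj
            have := abs_sub_abs_le_abs_sub (s0 - (-A j / B j)) (-h)
            rw [abs_neg] at this
            have e3 : s0 - (-A j / B j) - -h = s0 + h - (-A j / B j) := by ring
            rw [e3] at this
            linarith
          have hl := σ_lip (by positivity) m2 m1
          have e4 : A j + (s0 + h) * B j - (A j + s0 * B j) = h * B j := by ring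
          rw [e4, abs_mul, Real.sqrt_mul hBp.le] at hl
          have e5 : |h| * |B j| / (Real.sqrt |B j| * Real.sqrt (δ / 2))
              = Real.sqrt |B j| / Real.sqrt (δ / 2) * |h| := by
            have hq : 0 < Real.sqrt |B j| := Real.sqrt_pos.mpr hBp
            have hq2 : |B j| = Real.sqrt |B j| * Real.sqrt |B j| := (Real.mul_self_sqrt hBp.le).symm
            have hq3 : 0 < Real.sqrt (δ / 2) := Real.sqrt_pos.mpr (by positivity)
            rw [div_mul_eq_mul_div, div_eq_div_iff (by positivity) (by positivity)]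
            nth_rewrite 1 [hq2]
            ring
          rw [e5] at hl
          calc |w j| * |σ (A j + (s0 + h) * B j) - σ (A j + s0 * B j)|
              ≤ |w j| * (Real.sqrt |B j| / Real.sqrt (δ / 2) * |h|) :=
                mul_le_mul_of_nonneg_left hl (abs_nonneg _)
            _ = _ := by ring
    have h6 : ∑' j, (|w j| * Real.sqrt |B j|) / Real.sqrt (δ / 2) * |h| = M * |h| := by
      rw [tsum_mul_right, tsum_div_const]
    rw [h6, Real.norm_eq_abs] at h5
    have h7 : |w k * σ (h * B k)| = |w k| * (Real.sqrt |B k| * Real.sqrt |h|) := by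
      rw [abs_mul, abs_σ, abs_mul, Real.sqrt_mul (abs_nonneg _)]; ring
    rw [← h7]
    have h8 : w k * σ (h * B k) = -(r (s0 + h) - r s0) - ∑' j, (if j = k then 0 else
        (w j * σ (A j + (s0 + h) * B j) - w j * σ (A j + s0 * B j))) := by linarith
    rw [h8]
    calc _ ≤ |-(r (s0 + h) - r s0)| + |∑' j, (if j = k then 0 else
        (w j * σ (A j + (s0 + h) * B j) - w j * σ (A j + s0 * B j)))| := abs_sub _ _
      _ ≤ _ := by rw [abs_neg]; linarith
  -- differentiability gives a linear bound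
  have hO := hr.hasDerivAt.isBigO_sub
  obtain ⟨C, hC⟩ := hO.bound
  have hC' : ∀ᶠ h in 𝓝 (0:ℝ), |r (s0 + h) - r s0| ≤ C * |h| := by
    have ht : Tendsto (fun h : ℝ => s0 + h) (𝓝 0) (𝓝 s0) := by
      have : Tendsto (fun h : ℝ => s0 + h) (𝓝 0) (𝓝 (s0 + 0)) := tendsto_const_nhds.add tendsto_id
      simpa using this
    filter_upwards [ht.eventually hC] with h hh
    simpa [Real.norm_eq_abs] using hh
  set κ := |w k| * Real.sqrt |B k| with hκ
  have hκpos : 0 < κ := by
    have : 0 < |w k| := abs_pos.mpr hwk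
    have : 0 < Real.sqrt |B k| := Real.sqrt_pos.mpr (abs_pos.mpr hBk)
    positivity
  have hfin : ∀ᶠ h in 𝓝[>] (0:ℝ), κ ≤ (M + C) * Real.sqrt h := by
    have hsmall : ∀ᶠ h in 𝓝[>] (0:ℝ), |h| ≤ δ / 2 := by
      have : ∀ᶠ h in 𝓝 (0:ℝ), |h| < δ / 2 := by
        have : Tendsto (fun h : ℝ => |h|) (𝓝 0) (𝓝 0) := by simpa using (continuous_abs.tendsto (0:ℝ))
        exact this.eventually (gt_mem_nhds (by positivity))
      exact (this.filter_mono nhdsWithin_le_nhds).mono fun h hh => hh.le
    filter_upwards [hsmall, hC'.filter_mono nhdsWithin_le_nhds, self_mem_nhdsWithin] with h h1 h2 h3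
    have h3' : (0:ℝ) < h := h3
    have hk := key h h1
    rw [abs_of_pos h3'] at hk h2
    have hq : h = Real.sqrt h * Real.sqrt h := (Real.mul_self_sqrt h3'.le).symm
    have hqp : 0 < Real.sqrt h := Real.sqrt_pos.mpr h3'
    have : κ * Real.sqrt h ≤ ((M + C) * Real.sqrt h) * Real.sqrt h := by
      have e : ((M + C) * Real.sqrt h) * Real.sqrt h = (M + C) * h := by
        rw [mul_assoc, ← hq]
      rw [e, hκ]
      nlinarith
    exact le_of_mul_le_mul_right this hqp
  have hlim : Tendsto (fun h : ℝ => (M + C) * Real.sqrt h) (𝓝[>] 0) (𝓝 0) := by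
    have : Tendsto (fun h : ℝ => (M + C) * Real.sqrt h) (𝓝 0) (𝓝 ((M + C) * Real.sqrt 0)) :=
      (continuous_const.mul Real.continuous_sqrt).tendsto 0
    simp only [Real.sqrt_zero, mul_zero] at this
    exact this.mono_left nhdsWithin_le_nhds
  have := ge_of_tendsto hlim hfin
  linarith

lemma sep (s : ℕ → ℝ) (h0 : Tendsto s atTop (𝓝 0))
    (hr : ∀ᶠ k in atTop, |s (k+1)| ≤ |s k| / 2) :
    ∀ᶠ k in atTop, ∀ j, j ≠ k → |s k| / 2 ≤ |s j - s k| := by
  obtain ⟨K, hK⟩ := eventually_atTop.mp hr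
  have hdec : ∀ k ≥ K, ∀ d : ℕ, |s (k + d + 1)| ≤ |s k| / 2 := by
    intro k hk d
    induction d with
    | zero => exact hK k hk
    | succ d ih =>
      have h1 := hK (k + d + 1) (by omega)
      have h2 := abs_nonneg (s (k + d + 1))
      have : k + (d + 1) + 1 = k + d + 1 + 1 := by ring
      rw [this]; linarith
  have hsm : ∀ j, ∀ᶠ k in atTop, s j = 0 ∨ |s k| ≤ |s j| / 2 := by
    intro j
    by_cases hj : s j = 0
    · exact Eventually.of_forall fun _ => Or.inl hj
    · have hp : 0 < |s j| / 2 := by have := abs_pos.mpr hj; positivity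
      have h1 : Tendsto (fun k => |s k|) atTop (𝓝 0) := by simpa using h0.abs
      filter_upwards [h1.eventually (gt_mem_nhds hp)] with k hk
      exact Or.inr hk.le
  have hall : ∀ᶠ k in atTop, ∀ j < K, s j = 0 ∨ |s k| ≤ |s j| / 2 := by
    have : ∀ᶠ k in atTop, ∀ j ∈ Finset.range K, s j = 0 ∨ |s k| ≤ |s j| / 2 :=
      (Finset.eventually_all (Finset.range K)).mpr fun j _ => hsm j
    filter_upwards [this] with k hk j hj
    exact hk j (Finset.mem_range.mpr hj)
  filter_upwards [hall, eventually_ge_atTop K] with k hk hkK j hj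
  have t1 := abs_sub_abs_le_abs_sub (s j) (s k)
  have t2 := abs_sub_abs_le_abs_sub (s k) (s j)
  rw [abs_sub_comm] at t2
  have p1 := abs_nonneg (s k)
  have p2 := abs_nonneg (s j)
  rcases lt_or_ge j K with hjK | hjK
  · rcases hk j hjK with h | h
    · rw [h, abs_zero] at t2; rw [h]; linarith
    · linarith
  · rcases lt_or_gt_of_ne hj with h | h
    · obtain ⟨d, rfl⟩ : ∃ d, k = j + d + 1 := ⟨k - j - 1, by omega⟩
      have := hdec j hjK d
      linarith
    · obtain ⟨d, rfl⟩ : ∃ d, j = k + d + 1 := ⟨j - k - 1, by omega⟩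
      have := hdec k hkK d
      linarith

end Pool.Agent.H25A
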