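import Mathlib
set_option autoImplicit false
namespace Pool.Agent.H25B
open Filter Topology

abbrev H := lp (fun _ : ℕ => ℝ) 2

noncomputable def tt (k : ℕ) : ℝ := 1 / ((k+2).factorial : ℝ)

lemma tt_pos (k : ℕ) : 0 < tt k := by unfold tt; positivity

lemma tt_succ (k : ℕ) : tt (k+1) = tt k / (k + 3) := by
  unfold tt
  have : (k + 1 + 2).factorial = (k+3) * (k+2).factorial := by
    rw [show k + 1 + 2 = (k + 2) + 1 by ring, Nat.factorial_succ]
  rw [this]
  push_cast
  field_simp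

lemma tt_le (k : ℕ) : tt k ≤ 1 / 2 := by
  unfold tt
  apply one_div_le_one_div_of_le (by norm_num)
  have : 2 ≤ (k+2).factorial := le_trans (by omega) (Nat.self_le_factorial (k+2))
  exact_mod_cast this

lemma tt_lim : Tendsto tt atTop (𝓝 0) := by
  have h : ∀ k, tt k ≤ 1 / ((k:ℝ) + 1) := by
    intro k
    unfold tt
    apply one_div_le_one_div_of_le (by positivity)
    have : k + 1 ≤ (k+2).factorial := le_trans (by omega) (Nat.self_le_factorial (k+2))
    exact_mod_cast this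
  exact squeeze_zero (fun k => (tt_pos k).le) h tendsto_one_div_add_atTop_nhds_zero_nat

noncomputable def τ (k : ℕ) : H := ⟨fun n => tt k ^ n, memℓp_gen (by
  have h1 : (tt k) ^ 2 < 1 := by
    have := tt_pos k; have := tt_le k; nlinarith
  have : (fun n : ℕ => ‖tt k ^ n‖ ^ (2 : ENNReal).toReal) = fun n => ((tt k) ^ 2) ^ n := by
    funext n
    rw [Real.norm_eq_abs, abs_of_nonneg (pow_nonneg (tt_pos k).le n)]
    simp only [ENNReal.toReal_ofNat, Real.rpow_ofNat]
    rw [← pow_mul, ← pow_mul, mul_comm]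
  rw [this]
  exact summable_geometric_of_lt_one (by positivity) h1)⟩

lemma τ_apply (k n : ℕ) : (τ k : ℕ → ℝ) n = tt k ^ n := rfl

lemma hasSum_τ (k : ℕ) (y : H) : HasSum (fun n => y n * tt k ^ n) (inner ℝ (τ k) y) := by
  have h := lp.hasSum_inner (𝕜 := ℝ) (τ k) y
  simpa [τ_apply, mul_comm] using h

lemma asymp (y : H) (m : ℕ) (hm : ∀ i < m, y i = 0) :
    Tendsto (fun k => inner ℝ (τ k) y / tt k ^ m) atTop (𝓝 (y m)) := by
  have h1 : ∀ k, inner ℝ (τ k) y / tt k ^ m = ∑' n, y (n + m) * tt k ^ n := by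
    intro k
    have hs := hasSum_τ k y
    rw [← hs.tsum_eq, ← hs.summable.sum_add_tsum_nat_add m]
    have h0 : ∑ i ∈ Finset.range m, y i * tt k ^ i = 0 :=
      Finset.sum_eq_zero fun i hi => by rw [hm i (Finset.mem_range.mp hi), zero_mul]
    rw [h0, zero_add, ← tsum_div_const]
    refine tsum_congr fun n => ?_
    have := (tt_pos k).ne'
    rw [pow_add]; field_simp
  have h2 : y m = ∑' n : ℕ, (if n = 0 then y m else 0) := by
    rw [tsum_ite_eq]
  rw [funext h1, h2]
  refine tendsto_tsum_of_dominated_convergence (bound := fun n => ‖y‖ * (1/2:ℝ) ^ n) ?_ ?_ ?_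
  · exact (summable_geometric_of_lt_one (by norm_num) (by norm_num)).mul_left _
  · intro n
    by_cases hn : n = 0
    · subst hn; simp
    · rw [if_neg hn]
      have := (tt_lim.pow n).const_mul (y (n + m))
      simpa [hn] using this
  · refine Eventually.of_forall fun k n => ?_
    rw [norm_mul, norm_pow]
    refine mul_le_mul (lp.norm_apply_le_norm (by norm_num) y _) ?_ (by positivity) (norm_nonneg _)
    rw [Real.norm_eq_abs, abs_of_pos (tt_pos k)]
    exact pow_le_pow_left₀ (tt_pos k).le (tt_le k) n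

lemma lead (x : H) (hx : x ≠ 0) : ∃ m, x m ≠ 0 ∧ ∀ i < m, x i = 0 := by
  classical
  have h : ∃ m, x m ≠ 0 := by
    by_contra hc
    push Not at hc
    exact hx (lp.ext (funext hc))
  exact ⟨Nat.find h, Nat.find_spec h, fun i hi => by
    have := Nat.find_min h hi
    push Not at this
    exact this⟩

lemma ev_ne (x : H) (hx : x ≠ 0) : ∀ᶠ k in atTop, inner ℝ (τ k) x ≠ (0:ℝ) := by
  obtain ⟨m, h1, h2⟩ := lead x hx
  have h := (asymp x m h2).eventually_ne h1
  filter_upwards [h] with k hk h0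
  rw [h0, zero_div] at hk
  exact hk rfl

lemma ratio (a b : H) (m l : ℕ) (hlm : l < m) (ha : ∀ i < m, a i = 0) (ham : a m ≠ 0)
    (hb : ∀ i < l, b i = 0) (hbl : b l ≠ 0) (s : ℕ → ℝ)
    (hs : ∀ k, s k = -inner ℝ (τ k) a / inner ℝ (τ k) b) :
    Tendsto s atTop (𝓝 0) ∧ (∀ᶠ k in atTop, |s (k+1)| ≤ |s k| / 2) ∧ ∀ᶠ k in atTop, s k ≠ 0 := by
  obtain ⟨q, rfl⟩ : ∃ q, m = l + q + 1 := ⟨m - l - 1, by omega⟩
  set u : ℕ → ℝ := fun k => -(inner ℝ (τ k) a / tt k ^ (l + q + 1)) / (inner ℝ (τ k) b / tt k ^ l) with hu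
  have hul : Tendsto u atTop (𝓝 (-(a (l+q+1)) / b l)) := (asymp a _ ha).neg.div (asymp b _ hb) hbl
  set c : ℝ := -(a (l+q+1)) / b l with hc
  have hc0 : 0 < |c| := abs_pos.mpr (div_ne_zero (neg_ne_zero.mpr ham) hbl)
  have hsu : ∀ k, s k = u k * tt k ^ (q + 1) := by
    intro k
    have ht := (tt_pos k).ne'
    rw [hs, hu]
    simp only
    by_cases hB : inner ℝ (τ k) b = (0:ℝ)
    · simp [hB]
    · have e : tt k ^ (l + q + 1) = tt k ^ l * tt k ^ (q+1) := by ring
      rw [e]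
      field_simp
  have habs : Tendsto (fun k => |u k|) atTop (𝓝 |c|) := hul.abs
  have hub : ∀ᶠ k in atTop, |u k| < 2 * |c| := habs.eventually (gt_mem_nhds (by linarith))
  have hlb : ∀ᶠ k in atTop, |c| / 2 < |u k| := habs.eventually (lt_mem_nhds (by linarith))
  refine ⟨?_, ?_, ?_⟩
  · have h1 := hul.mul (tt_lim.pow (q+1))
    rw [zero_pow (by omega), mul_zero] at h1
    exact h1.congr fun k => (hsu k).symm
  · have hub' : ∀ᶠ k in atTop, |u (k+1)| < 2 * |c| := (tendsto_add_atTop_nat 1).eventually hub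
    filter_upwards [hub', hlb, eventually_ge_atTop 5] with k h1 h2 h3
    rw [hsu, hsu, abs_mul, abs_mul, abs_of_pos (pow_pos (tt_pos _) _), abs_of_pos (pow_pos (tt_pos _) _)]
    have ht := tt_pos k
    have h4 : tt (k+1) ^ (q+1) ≤ tt k ^ (q+1) / 8 := by
      rw [tt_succ]
      have h5 : (0:ℝ) < (k:ℝ) + 3 := by positivity
      have h6 : (8:ℝ) ≤ (k:ℝ) + 3 := by
        have : (5:ℝ) ≤ k := by exact_mod_cast h3
        linarith
      rw [div_pow]
      refine div_le_div_of_nonneg_left (by positivity) (by norm_num) ?_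
      calc (8:ℝ) ≤ (k:ℝ) + 3 := h6
        _ = ((k:ℝ) + 3) ^ 1 := (pow_one _).symm
        _ ≤ ((k:ℝ) + 3) ^ (q+1) := pow_le_pow_right₀ (by linarith) (by omega)
    have h7 : 0 < tt k ^ (q+1) := by positivity
    have h8 : |u (k+1)| * tt (k+1) ^ (q+1) ≤ (2 * |c|) * (tt k ^ (q+1) / 8) :=
      mul_le_mul h1.le h4 (pow_nonneg (tt_pos _).le _) (by positivity)
    nlinarith
  · filter_upwards [hlb] with k h2
    rw [hsu]
    have : u k ≠ 0 := by
      intro h; rw [h, abs_zero] at h2; linarith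
    exact mul_ne_zero this (pow_pos (tt_pos _) _).ne'

end Pool.Agent.H25B
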