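import Pool.Agent.H25A
import Pool.Agent.H25B
set_option autoImplicit false
namespace Pool.Agent.H25C
open Filter Topology Pool.Agent.H25A Pool.Agent.H25B

noncomputable def L (k : ℕ) : H →L[ℝ] ℝ := ((1/2:ℝ)^k / (1 + ‖τ k‖)) • innerSL ℝ (τ k)

lemma L_apply (k : ℕ) (y : H) : L k y = (1/2:ℝ)^k / (1 + ‖τ k‖) * inner ℝ (τ k) y := rfl

lemma L_bound (k : ℕ) (y : H) : |L k y| ≤ (1/2:ℝ)^k * ‖y‖ := by
  rw [L_apply, abs_mul, abs_of_nonneg (by positivity)]
  have h1 := abs_real_inner_le_norm (τ k) y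
  have h2 : 0 < 1 + ‖τ k‖ := by positivity
  rw [div_mul_eq_mul_div, div_le_iff₀ h2]
  have h3 : (0:ℝ) ≤ (1/2:ℝ)^k := by positivity
  calc (1/2:ℝ)^k * |inner ℝ (τ k) y| ≤ (1/2:ℝ)^k * (‖τ k‖ * ‖y‖) := mul_le_mul_of_nonneg_left h1 h3
    _ ≤ (1/2:ℝ)^k * ‖y‖ * (1 + ‖τ k‖) := by nlinarith [mul_nonneg h3 (norm_nonneg y)]

lemma L_le (k : ℕ) (y : H) : |L k y| ≤ ‖y‖ := by
  refine (L_bound k y).trans ?_
  have : (1/2:ℝ)^k ≤ 1 := pow_le_one₀ (by norm_num) (by norm_num)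
  nlinarith [norm_nonneg y]

lemma summable_L (y : H) : Summable fun k => |L k y| ^ (3/2:ℝ) := by
  refine Summable.of_nonneg_of_le (fun k => by positivity)
    (fun k => Real.rpow_le_rpow (abs_nonneg _) (L_bound k y) (by norm_num)) ?_
  have : (fun k : ℕ => ((1/2:ℝ)^k * ‖y‖) ^ (3/2:ℝ))
      = fun k => ((1/2:ℝ) ^ (3/2:ℝ)) ^ k * ‖y‖ ^ (3/2:ℝ) := by
    funext k
    rw [Real.mul_rpow (by positivity) (norm_nonneg _)]
    congr 1
    rw [← Real.rpow_natCast, ← Real.rpow_natCast, ← Real.rpow_mul (by norm_num),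
      ← Real.rpow_mul (by norm_num), mul_comm]
  rw [this]
  refine (summable_geometric_of_lt_one (by positivity) ?_).mul_right _
  exact Real.rpow_lt_one (by norm_num) (by norm_num) (by norm_num)

noncomputable def P (y : H) : ℝ := ‖y‖ ^ (3/2:ℝ) + ∑' k, |L k y| ^ (3/2:ℝ)

lemma norm_pow_eq (Y X : H) (α : ℝ) : ‖Y + α • X‖ ^ (3/2:ℝ)
    = (‖Y‖^2 + 2 * α * inner ℝ Y X + α^2 * ‖X‖^2) ^ (3/4:ℝ) := by
  have h : ‖Y‖^2 + 2 * α * inner ℝ Y X + α^2 * ‖X‖^2 = ‖Y + α • X‖ ^ 2 := by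
    rw [norm_add_sq_real, inner_smul_right, norm_smul, mul_pow, Real.norm_eq_abs, sq_abs]; ring
  rw [h, ← Real.rpow_natCast, ← Real.rpow_mul (norm_nonneg _)]
  norm_num

lemma deriv_P (Y X : H) (hY : Y ≠ 0) :
    HasDerivAt (fun α : ℝ => P (Y + α • X))
      ((2 * inner ℝ Y X) * (3/4) * (‖Y‖^2) ^ ((3/4:ℝ) - 1)
        + ∑' k, (3/2) * (L k X * σ (L k Y))) 0 := by
  unfold P
  refine HasDerivAt.add ?_ ?_
  · simp only [norm_pow_eq]
    have h1 : HasDerivAt (fun α : ℝ => ‖Y‖^2 + 2 * α * inner ℝ Y X + α^2 * ‖X‖^2)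
        (2 * inner ℝ Y X) 0 := by
      have e1 : HasDerivAt (fun α : ℝ => 2 * α * inner ℝ Y X) (2 * 1 * inner ℝ Y X) 0 :=
        ((hasDerivAt_id (0:ℝ)).const_mul 2).mul_const _
      have e2 : HasDerivAt (fun α : ℝ => α^2 * ‖X‖^2) (((2:ℕ) * (0:ℝ)^(2-1)) * ‖X‖^2) 0 :=
        (hasDerivAt_pow 2 (0:ℝ)).mul_const _
      have e3 := ((hasDerivAt_const (0:ℝ) (‖Y‖^2)).add e1).add e2
      have e4 : 2 * inner ℝ Y X = 0 + 2 * 1 * inner ℝ Y X + ((2:ℕ) * (0:ℝ)^(2-1)) * ‖X‖^2 := by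
        norm_num
      rw [e4]
      exact e3
    have hne0 : (‖Y‖^2 + 2 * (0:ℝ) * inner ℝ Y X + (0:ℝ)^2 * ‖X‖^2) ≠ 0 := by
      have : 0 < ‖Y‖ := norm_pos_iff.mpr hY
      have h3 : ‖Y‖^2 + 2 * (0:ℝ) * inner ℝ Y X + (0:ℝ)^2 * ‖X‖^2 = ‖Y‖^2 := by ring
      rw [h3]; positivity
    have h2 := h1.rpow_const (p := (3/4:ℝ)) (Or.inl hne0)
    have h3 : ‖Y‖^2 + 2 * (0:ℝ) * inner ℝ Y X + (0:ℝ)^2 * ‖X‖^2 = ‖Y‖^2 := by ring
    rw [h3] at h2
    exact h2
  · have hterm : ∀ (n : ℕ) (α : ℝ), α ∈ Metric.ball (0:ℝ) 1 →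
        HasDerivAt (fun α : ℝ => |L n (Y + α • X)| ^ (3/2:ℝ))
          ((3/2) * (L n X * σ (L n (Y + α • X)))) α := by
      intro n α _
      have h1 : HasDerivAt (fun α : ℝ => L n (Y + α • X)) (L n X) α := by
        have : (fun α : ℝ => L n (Y + α • X)) = fun α => L n Y + α * L n X := by
          funext α; rw [map_add, map_smul, smul_eq_mul]
        rw [this]
        have := ((hasDerivAt_id α).mul_const (L n X)).const_add (L n Y)
        simpa using this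
      have h2 := (hasDerivAt_abs_rpow (L n (Y + α • X)) (p := (3/2:ℝ)) (by norm_num)).comp α h1
      have e : (3/2:ℝ) * |L n (Y + α • X)| ^ ((3/2:ℝ) - 2) * L n (Y + α • X) * L n X
          = (3/2) * (L n X * σ (L n (Y + α • X))) := by
        unfold σ; ring
      rw [e] at h2
      exact h2
    have hb : ∀ (n : ℕ) (α : ℝ), α ∈ Metric.ball (0:ℝ) 1 →
        ‖(3/2) * (L n X * σ (L n (Y + α • X)))‖
          ≤ (3/2) * Real.sqrt (‖Y‖ + ‖X‖) * ‖X‖ * (1/2:ℝ)^n := by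
      intro n α hα
      rw [Metric.mem_ball, dist_zero_right, Real.norm_eq_abs] at hα
      rw [Real.norm_eq_abs, abs_mul, abs_mul, abs_σ, abs_of_pos (by norm_num : (0:ℝ) < 3/2)]
      have h1 := L_bound n X
      have h2 : Real.sqrt |L n (Y + α • X)| ≤ Real.sqrt (‖Y‖ + ‖X‖) := by
        apply Real.sqrt_le_sqrt
        refine (L_le n _).trans ((norm_add_le _ _).trans ?_)
        rw [norm_smul, Real.norm_eq_abs]
        nlinarith [norm_nonneg X]
      have h3 : |L n X| * Real.sqrt |L n (Y + α • X)| ≤ ((1/2:ℝ)^n * ‖X‖) * Real.sqrt (‖Y‖ + ‖X‖) :=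
        mul_le_mul h1 h2 (Real.sqrt_nonneg _) (by positivity)
      nlinarith
    have h := hasDerivAt_tsum_of_isPreconnected
      (u := fun n : ℕ => (3/2) * Real.sqrt (‖Y‖ + ‖X‖) * ‖X‖ * (1/2:ℝ)^n)
      ((summable_geometric_of_lt_one (by norm_num) (by norm_num)).mul_left _)
      Metric.isOpen_ball (convex_ball (0:ℝ) 1).isPreconnected hterm hb
      (Metric.mem_ball_self one_pos) (by simpa using summable_L Y) (Metric.mem_ball_self one_pos)
    simpa using h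

lemma crit (Y X : H) (hY : Y ≠ 0) (hmin : ∀ α : ℝ, P Y ≤ P (Y + α • X)) :
    (2/3) * ((2 * inner ℝ Y X) * (3/4) * (‖Y‖^2) ^ ((3/4:ℝ) - 1)) + ∑' k, L k X * σ (L k Y) = 0 := by
  have h := deriv_P Y X hY
  have hm : IsLocalMin (fun α : ℝ => P (Y + α • X)) 0 := by
    refine Eventually.of_forall fun α => ?_
    simpa using hmin α
  have h0 := hm.hasDerivAt_eq_zero h
  rw [tsum_mul_left] at h0
  linarith

lemma summ_w (X Y : H) : Summable fun j => L j X * σ (L j Y) := by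
  refine Summable.of_norm_bounded (g := fun j => ‖X‖ * Real.sqrt ‖Y‖ * (1/2:ℝ)^j)
    ((summable_geometric_of_lt_one (by norm_num) (by norm_num)).mul_left _) fun j => ?_
  rw [Real.norm_eq_abs, abs_mul, abs_σ]
  have h1 := L_bound j X
  have h2 : Real.sqrt |L j Y| ≤ Real.sqrt ‖Y‖ := Real.sqrt_le_sqrt (L_le j Y)
  have h3 := mul_le_mul h1 h2 (Real.sqrt_nonneg _) (by positivity)
  nlinarith

lemma summ_w2 (X Y : H) : Summable fun j => |L j X| * Real.sqrt |L j Y| := by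
  refine Summable.of_norm_bounded (g := fun j => ‖X‖ * Real.sqrt ‖Y‖ * (1/2:ℝ)^j)
    ((summable_geometric_of_lt_one (by norm_num) (by norm_num)).mul_left _) fun j => ?_
  rw [Real.norm_eq_abs, abs_mul, abs_abs, abs_of_nonneg (Real.sqrt_nonneg _)]
  have h1 := L_bound j X
  have h2 : Real.sqrt |L j Y| ≤ Real.sqrt ‖Y‖ := Real.sqrt_le_sqrt (L_le j Y)
  have h3 := mul_le_mul h1 h2 (Real.sqrt_nonneg _) (by positivity)
  nlinarith

/-- no two-dimensional family: the core contradiction -/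
lemma core (a b X : H) (hX : X ≠ 0) (m l : ℕ) (hlm : l < m) (ha : ∀ i < m, a i = 0) (ham : a m ≠ 0)
    (hb : ∀ i < l, b i = 0) (hbl : b l ≠ 0)
    (hmin : ∀ s α : ℝ, P (a + s • b) ≤ P ((a + s • b) + α • X)) : False := by
  have ha0 : a ≠ 0 := by rintro rfl; exact ham rfl
  have hb0 : b ≠ 0 := by rintro rfl; exact hbl rfl
  have hne : ∀ s : ℝ, a + s • b ≠ 0 := by
    intro s h
    have h1 : (a + s • b) l = 0 := by rw [h]; rfl
    have h2 : a l + s * b l = 0 := h1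
    rw [ha l hlm, zero_add] at h2
    rcases mul_eq_zero.mp h2 with h3 | h3
    · rw [h3, zero_smul, add_zero] at h; exact ha0 h
    · exact hbl h3
  set s : ℕ → ℝ := fun k => -inner ℝ (τ k) a / inner ℝ (τ k) b with hs
  obtain ⟨h1, h2, h3⟩ := ratio a b m l hlm ha ham hb hbl s (fun k => rfl)
  have h4 := sep s h1 h2
  obtain ⟨k, hk3, hk4, hk5, hk6⟩ := (h3.and (h4.and ((ev_ne X hX).and (ev_ne b hb0)))).exists
  have hcp : ∀ j, ((1/2:ℝ)^j / (1 + ‖τ j‖)) ≠ 0 := fun j => by positivity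
  have hsL : ∀ j, -L j a / L j b = s j := by
    intro j
    rw [L_apply, L_apply, hs]
    simp only
    rw [← mul_neg, mul_div_mul_left _ _ (hcp j)]
  refine no_cancel (fun j => L j a) (fun j => L j b) (fun j => L j X)
    (fun t => (2/3) * ((2 * (inner ℝ a X + t * inner ℝ b X)) * (3/4) *
      (‖a‖^2 + 2 * t * inner ℝ a b + t^2 * ‖b‖^2) ^ ((3/4:ℝ) - 1))) k
    ?_ ?_ (|s k| / 2) (by have := abs_pos.mpr hk3; positivity) ?_ (summ_w2 X b) ?_ ?_ ?_
  · rw [L_apply]; exact mul_ne_zero (hcp k) hk6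
  · rw [L_apply]; exact mul_ne_zero (hcp k) hk5
  · intro j hj _
    have := hk4 j hj
    simp only [hsL]
    exact this
  · have hpos : ‖a‖^2 + 2 * (-L k a / L k b) * inner ℝ a b + (-L k a / L k b)^2 * ‖b‖^2 ≠ 0 := by
      have h : ‖a‖^2 + 2 * (-L k a / L k b) * inner ℝ a b + (-L k a / L k b)^2 * ‖b‖^2
          = ‖a + (-L k a / L k b) • b‖ ^ 2 := by
        rw [norm_add_sq_real, inner_smul_right, norm_smul, mul_pow, Real.norm_eq_abs, sq_abs]; ring
      rw [h]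
      exact pow_ne_zero 2 (norm_ne_zero_iff.mpr (hne _))
    refine DifferentiableAt.const_mul ?_ _
    refine DifferentiableAt.mul (by fun_prop) ?_
    refine DifferentiableAt.rpow_const (by fun_prop) (Or.inl hpos)
  · intro t
    have := summ_w X (a + t • b)
    simpa [map_add, map_smul] using this
  · intro t
    have := crit (a + t • b) X (hne t) (fun α => hmin t α)
    have h : ‖a‖^2 + 2 * t * inner ℝ a b + t^2 * ‖b‖^2 = ‖a + t • b‖ ^ 2 := by
      rw [norm_add_sq_real, inner_smul_right, norm_smul, mul_pow, Real.norm_eq_abs, sq_abs]; ring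
    simp only [h]
    have e : inner ℝ (a + t • b) X = inner ℝ a X + t * inner ℝ b X := by
      rw [inner_add_left, real_inner_smul_left]
    rw [e] at this
    simpa [map_add, map_smul] using this

end Pool.Agent.H25C
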