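import Pool.Agent.H25C

set_option autoImplicit false

namespace Pool.Agent.H25D

open Filter Topology Pool.Agent.H25A Pool.Agent.H25B Pool.Agent.H25C

noncomputable abbrev pp : ENNReal := ENNReal.ofReal (3/2)

instance fact32 : Fact ((1:ENNReal) ≤ pp) := ⟨ENNReal.one_le_ofReal.mpr (by norm_num)⟩

lemma pp_toReal : pp.toReal = 3/2 := ENNReal.toReal_ofReal (by norm_num)

lemma pp_ne : pp ≠ 0 := by
  intro h
  have := pp_toReal
  rw [h] at this
  norm_num at this

lemma pp_pos : 0 < pp.toReal := by rw [pp_toReal]; norm_num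

noncomputable abbrev Z := lp (fun _ : ℕ => H) pp

noncomputable def u : H := (‖τ 0‖)⁻¹ • τ 0

lemma tau_ne : τ 0 ≠ 0 := by
  intro h
  have h1 : (τ 0 : ℕ → ℝ) 0 = 1 := by rw [τ_apply, pow_zero]
  rw [h] at h1
  have h2 : ((0 : H) : ℕ → ℝ) 0 = 0 := rfl
  rw [h2] at h1
  exact zero_ne_one h1

lemma norm_u : ‖u‖ = 1 := by
  unfold u
  rw [norm_smul, norm_inv, norm_norm]
  exact inv_mul_cancel₀ (norm_ne_zero_iff.mpr tau_ne)

noncomputable def E : Submodule ℝ Z where
  carrier := {z | ∀ k : ℕ, z (k+1) = (L k (z 0)) • u}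
  add_mem' := by
    intro a b ha hb k
    have h1 : (a + b) (k+1) = a (k+1) + b (k+1) := rfl
    have h2 : (a + b) 0 = a 0 + b 0 := rfl
    rw [h1, h2, ha k, hb k, map_add, add_smul]
  zero_mem' := by
    intro k
    have h1 : (0 : Z) (k+1) = 0 := rfl
    have h2 : (0 : Z) 0 = 0 := rfl
    rw [h1, h2, map_zero, zero_smul]
  smul_mem' := by
    intro c a ha k
    have h1 : (c • a) (k+1) = c • a (k+1) := rfl
    have h2 : (c • a) 0 = c • a 0 := rfl
    rw [h1, h2, ha k, map_smul, smul_smul, smul_eq_mul]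

lemma cont_ev (i : ℕ) : Continuous fun z : Z => z i := by
  refine (LipschitzWith.mk_one fun z w => ?_).continuous
  rw [dist_eq_norm, dist_eq_norm]
  exact lp.norm_apply_le_norm pp_ne (z - w) i

lemma E_closed : IsClosed (E : Set Z) := by
  have : (E : Set Z) = ⋂ k : ℕ, {z : Z | z (k+1) = (L k (z 0)) • u} := by
    ext z
    simp only [Set.mem_iInter]
    rfl
  rw [this]
  refine isClosed_iInter fun k => ?_
  exact isClosed_eq (cont_ev _) (((L k).continuous.comp (cont_ev 0)).smul continuous_const)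

noncomputable def Tfun (y : H) : ℕ → H
  | 0 => y
  | (k+1) => (L k y) • u

lemma T_mem (y : H) : Memℓp (Tfun y) pp := by
  refine memℓp_gen ?_
  rw [← summable_nat_add_iff 1]
  refine (summable_L y).congr fun k => ?_
  rw [pp_toReal]
  change _ = ‖(L k y) • u‖ ^ (3/2:ℝ)
  rw [norm_smul, norm_u, mul_one, Real.norm_eq_abs]

noncomputable def T (y : H) : E := ⟨⟨Tfun y, T_mem y⟩, fun _ => rfl⟩

lemma norm_E (z : E) : ‖z‖ ^ (3/2:ℝ) = P ((z : Z) 0) := by
  have h := lp.norm_rpow_eq_tsum pp_pos (z : Z)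
  have hs := (lp.memℓp (z : Z)).summable pp_pos
  rw [hs.tsum_eq_zero_add, pp_toReal] at h
  have h1 : ‖z‖ = ‖(z : Z)‖ := rfl
  rw [h1, h, P]
  congr 1
  refine tsum_congr fun k => ?_
  have hz := z.2 k
  rw [hz, norm_smul, norm_u, mul_one, Real.norm_eq_abs]

lemma ev_inj (z : E) (h : (z : Z) 0 = 0) : z = 0 := by
  apply Subtype.ext
  apply lp.ext
  funext i
  cases i with
  | zero => exact h
  | succ k =>
    have hz := z.2 k
    rw [h, map_zero, zero_smul] at hz
    exact hz

noncomputable def ev0 : E →ₗ[ℝ] H where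
  toFun z := (z : Z) 0
  map_add' _ _ := rfl
  map_smul' _ _ := rfl

lemma ev0_surj : Function.Surjective ev0 := fun y => ⟨T y, rfl⟩

lemma H_inf : ¬ FiniteDimensional ℝ H := by
  intro hfd
  have hli : LinearIndependent ℝ (fun n : ℕ => (lp.single 2 n (1:ℝ) : H)) := by
    rw [linearIndependent_iff']
    intro s g hg i hi
    let φ : H →ₗ[ℝ] ℝ := { toFun := fun y => y i, map_add' := fun _ _ => rfl, map_smul' := fun _ _ => rfl }
    have h1 := congrArg φ hg
    rw [map_sum, map_zero] at h1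
    have h2 : ∀ j ∈ s, φ (g j • (lp.single 2 j (1:ℝ) : H)) = if i = j then g j else 0 := by
      intro j _
      rw [map_smul, smul_eq_mul]
      change g j * (lp.single 2 j (1:ℝ) : H) i = _
      by_cases hij : i = j
      · subst hij
        rw [lp.single_apply_self]; simp
      · rw [lp.single_apply_ne _ _ _ hij]; simp [hij]
    rw [Finset.sum_congr rfl h2, Finset.sum_ite_eq s i, if_pos hi] at h1
    exact h1
  have := hli.finite
  exact not_finite ℕ

lemma no_strong (G : Submodule ℝ E) (hG : 2 ≤ Module.rank ℝ G) (x : E) (hx : x ≠ 0)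
    (hmin : ∀ g ∈ G, ∀ α : ℝ, ‖g‖ ≤ ‖g + α • x‖) : False := by
  classical
  -- minimal index
  have hex : ∃ l : ℕ, ∃ g ∈ G, (ev0 g : ℕ → ℝ) l ≠ 0 := by
    by_contra hc
    push Not at hc
    have hbot : G ≤ Submodule.span ℝ {(0 : E)} := by
      intro g hg
      have : g = 0 := ev_inj g (lp.ext (funext fun l => hc l g hg))
      rw [this]; exact Submodule.zero_mem _
    have := rank_submodule_le_one_iff G |>.mpr ⟨0, G.zero_mem, hbot⟩
    have h2 := hG.trans this
    exact absurd h2 (by norm_num)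
  obtain ⟨b, hbG, hbl⟩ := Nat.find_spec hex
  set l := Nat.find hex with hl
  have hlow : ∀ g ∈ G, ∀ i < l, (ev0 g : ℕ → ℝ) i = 0 := by
    intro g hg i hi
    have := Nat.find_min hex hi
    push Not at this
    exact this g hg
  have hnot : ¬ (G ≤ Submodule.span ℝ {b}) := by
    intro h
    have := rank_submodule_le_one_iff G |>.mpr ⟨b, hbG, h⟩
    have h2 := hG.trans this
    exact absurd h2 (by norm_num)
  obtain ⟨g, hgG, hgb⟩ := Set.not_subset.mp hnot
  set c : ℝ := (ev0 g : ℕ → ℝ) l / (ev0 b : ℕ → ℝ) l with hc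
  set a : E := g - c • b with ha
  have haG : a ∈ G := G.sub_mem hgG (G.smul_mem c hbG)
  have ha0 : a ≠ 0 := by
    intro h
    have : g = c • b := sub_eq_zero.mp h
    apply hgb
    rw [this]
    exact Submodule.smul_mem _ _ (Submodule.mem_span_singleton_self b)
  have hal : (ev0 a : ℕ → ℝ) l = 0 := by
    have h1 : ev0 a = ev0 g - c • ev0 b := by rw [ha, map_sub, map_smul]
    rw [h1]
    change (ev0 g : ℕ → ℝ) l - c * (ev0 b : ℕ → ℝ) l = 0
    rw [hc]; field_simp; ring
  have hev : ∀ z : E, z ≠ 0 → ev0 z ≠ 0 := fun z hz h => hz (ev_inj z h)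
  obtain ⟨m, ham, hami⟩ := lead (ev0 a) (hev a ha0)
  have hlm : l < m := by
    rcases lt_trichotomy l m with h | h | h
    · exact h
    · rw [← h] at ham; exact absurd hal ham
    · exact absurd (hlow a haG m h) ham
  refine core (ev0 a) (ev0 b) (ev0 x) (hev x hx) m l hlm hami ham (hlow b hbG) hbl ?_
  intro s α
  have h1 := hmin (a + s • b) (G.add_mem haG (G.smul_mem s hbG)) α
  have h2 : ‖a + s • b‖ ^ (3/2:ℝ) ≤ ‖a + s • b + α • x‖ ^ (3/2:ℝ) :=
    Real.rpow_le_rpow (norm_nonneg _) h1 (by norm_num)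
  rw [norm_E, norm_E] at h2
  exact h2

end Pool.Agent.H25D
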