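import Mathlib

/-! Block construction of asymptotic bases of order `g + 2` with prescribed critical numbers. -/

namespace Pool.Agent.H28Bases

/-- A rule choosing, at stage `i`, a subset of the part of the set built so far. -/
def Pick : Type := {f : ℕ → Finset ℕ → Finset ℕ // ∀ i F, f i F ⊆ F}

variable {pick : Pick}


/-- starts of the blocks inside a stage beginning at `K` (order `h = g + 2`) -/
def kk (g K : ℕ) : ℕ → ℕ
  | 0 => K
  | j + 1 => ((g + 1) * ((g + 2) * kk g K j + 1) + 1) + kk g K j + 1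

def LL (g K j : ℕ) : ℕ := (g + 2) * kk g K j + 1

def ww (g K j : ℕ) : ℕ := (g + 1) * LL g K j + 1

def om (g K : ℕ) : ℕ → ℕ
  | 0 => 0
  | j + 1 => om g K j + ww g K j

def kq (g K : ℕ) : ℕ := LL g K g + (g + 1) * kk g K g + 1

def NN (g K : ℕ) : ℕ := (g + 2) * kq g K + (g + 1)

lemma kk_zero (g K : ℕ) : kk g K 0 = K := rfl

lemma kk_succ (g K j : ℕ) : kk g K (j + 1) = ww g K j + kk g K j + 1 := rfl

lemma om_succ (g K j : ℕ) : om g K (j + 1) = om g K j + ww g K j := rfl

lemma kk_le_LL (g K j : ℕ) : kk g K j ≤ LL g K j := by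
  unfold LL; nlinarith [Nat.zero_le (g * kk g K j)]

lemma LL_lt_ww (g K j : ℕ) : LL g K j < ww g K j := by
  unfold ww; nlinarith [Nat.zero_le (g * LL g K j)]

lemma ww_lt_kk (g K j : ℕ) : ww g K j < kk g K (j + 1) := by
  rw [kk_succ]; omega

lemma kk_mono (g K : ℕ) : Monotone (kk g K) :=
  monotone_nat_of_le_succ (fun j => by rw [kk_succ]; omega)

lemma LL_mono (g K : ℕ) {i j : ℕ} (h : i ≤ j) : LL g K i ≤ LL g K j := by
  unfold LL
  have := kk_mono g K h
  have := Nat.mul_le_mul_left (g + 2) this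
  omega

lemma K_le_kk (g K j : ℕ) : K ≤ kk g K j := kk_mono g K (Nat.zero_le j)

lemma sum_lt (g K s : ℕ) (hs : s < K) (j : ℕ) : s + om g K j < kk g K j := by
  induction j with
  | zero => simpa [om, kk] using hs
  | succ j ih => rw [om_succ, kk_succ]; omega

lemma LL_le_kq (g K : ℕ) : LL g K g ≤ kq g K := by
  unfold kq; omega

lemma kk_le_kq (g K : ℕ) : kk g K g ≤ kq g K := (kk_le_LL g K g).trans (LL_le_kq g K)

lemma kq_le_NN (g K : ℕ) : 2 * kq g K + 1 ≤ NN g K := by
  unfold NN; nlinarith [Nat.zero_le (g * kq g K)]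

/-- the elements added in a stage beginning at `K` with exceptional set `S` -/
def New (g K : ℕ) (S : Finset ℕ) (x : ℕ) : Prop :=
  (∃ j, j ≤ g ∧ kk g K j ≤ x ∧ x ≤ LL g K j) ∨ (∃ j, j < g ∧ x = ww g K j) ∨
  (kq g K + 1 ≤ x ∧ x ≤ kq g K + 1 + kk g K g) ∨ (∃ s ∈ S, x + s + om g K g = NN g K)

lemma u_gt {g K : ℕ} {S : Finset ℕ} (hS : ∀ s ∈ S, s < K) {x s : ℕ} (hs : s ∈ S)
    (hx : x + s + om g K g = NN g K) : kq g K < x := by
  have h1 := sum_lt g K s (hS s hs) g
  have h2 := kq_le_NN g K
  have h3 := kk_le_kq g K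
  omega

lemma New_ge {g K : ℕ} {S : Finset ℕ} (hS : ∀ s ∈ S, s < K) {x : ℕ} (hx : New g K S x) :
    K ≤ x := by
  rcases hx with ⟨j, _, h, _⟩ | ⟨j, _, rfl⟩ | ⟨h, _⟩ | ⟨s, hs, h⟩
  · exact (K_le_kk g K j).trans h
  · exact (K_le_kk g K j).trans ((kk_le_LL g K j).trans (LL_lt_ww g K j).le)
  · have := K_le_kk g K g
    have := kk_le_kq g K
    omega
  · have := u_gt hS hs h
    have := K_le_kk g K g
    have := kk_le_kq g K
    omega

lemma New_le {g K : ℕ} {S : Finset ℕ} {x : ℕ} (hx : New g K S x) :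
    x ≤ NN g K := by
  have h2 := kq_le_NN g K
  have h3 := kk_le_kq g K
  have h4 := LL_le_kq g K
  rcases hx with ⟨j, hj, _, h⟩ | ⟨j, hj, rfl⟩ | ⟨_, h⟩ | ⟨s, hs, h⟩
  · have := LL_mono g K hj
    omega
  · have := ww_lt_kk g K j
    have := kk_mono g K (show j + 1 ≤ g by omega)
    omega
  · omega
  · omega

/-- starting points of the stages -/
def Kst (g r : ℕ) : ℕ → ℕ
  | 0 => r + 1
  | i + 1 => NN g (Kst g r i) + 1

open Classical in
noncomputable def FF (pick : Pick) (g r : ℕ) : ℕ → Finset ℕ
  | 0 => Finset.range (r + 1)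
  | i + 1 => FF pick g r i ∪ (Finset.range (Kst g r (i + 1))).filter
      (fun x => New g (Kst g r i) (pick.1 i (FF pick g r i)) x)

/-- the exceptional set of stage `i` -/
noncomputable def SS (pick : Pick) (g r i : ℕ) : Finset ℕ :=
  pick.1 i (FF pick g r i)

def AA (pick : Pick) (g r : ℕ) : Set ℕ := {x | ∃ i, x ∈ FF pick g r i}

lemma Kst_lt (g r i : ℕ) : Kst g r i < Kst g r (i + 1) := by
  show Kst g r i < NN g (Kst g r i) + 1
  have h1 := K_le_kk g (Kst g r i) g
  have h2 := kk_le_kq g (Kst g r i)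
  have h3 := kq_le_NN g (Kst g r i)
  omega

lemma Kst_strictMono (g r : ℕ) : StrictMono (Kst g r) := strictMono_nat_of_lt_succ (Kst_lt g r)

lemma le_Kst (g r i : ℕ) : i ≤ Kst g r i := (Kst_strictMono g r).le_apply

lemma FF_sub (g r : ℕ) : ∀ i, FF pick g r i ⊆ Finset.range (Kst g r i)
  | 0 => by intro x hx; simpa [FF, Kst] using hx
  | i + 1 => by
    intro x hx
    simp only [FF, Finset.mem_union, Finset.mem_filter] at hx
    rcases hx with hx | hx
    · have := FF_sub g r i hx
      rw [Finset.mem_range] at this ⊢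
      exact this.trans (Kst_lt g r i)
    · exact hx.1

lemma FF_mono (g r : ℕ) : Monotone (FF pick g r) :=
  monotone_nat_of_le_succ (fun i => by
    intro x hx
    simp only [FF, Finset.mem_union]
    exact Or.inl hx)

lemma range_sub (g r i : ℕ) : Finset.range (r + 1) ⊆ FF pick g r i := by
  have := FF_mono (pick := pick) g r (Nat.zero_le i)
  simpa [FF] using this

lemma SS_sub (g r i : ℕ) : SS pick g r i ⊆ FF pick g r i := pick.2 i _

lemma SS_lt (g r i : ℕ) : ∀ s ∈ SS pick g r i, s < Kst g r i := fun s hs =>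
  Finset.mem_range.1 (FF_sub g r i (SS_sub g r i hs))

lemma SS_mem (g r i : ℕ) : ∀ s ∈ SS pick g r i, s ∈ AA pick g r := fun s hs => ⟨i, SS_sub g r i hs⟩

lemma class_aux (g r : ℕ) : ∀ j x, x ∈ FF pick g r j → ∀ i, Kst g r i ≤ x → x < Kst g r (i + 1) →
    New g (Kst g r i) (SS pick g r i) x := by
  intro j
  induction j with
  | zero =>
    intro x hx i h1 _
    exfalso
    have h3 := FF_sub g r 0 hx
    rw [Finset.mem_range] at h3
    have h4 := (Kst_strictMono g r).monotone (Nat.zero_le i)
    omega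
  | succ j ih =>
    intro x hx i h1 h2
    simp only [FF, Finset.mem_union, Finset.mem_filter, Finset.mem_range] at hx
    rcases hx with hx | hx
    · exact ih x hx i h1 h2
    · obtain ⟨hlt, hnew⟩ := hx
      have hge := New_ge (SS_lt g r j) hnew
      have hij : i = j := by
        rcases lt_trichotomy i j with h | h | h
        · have := (Kst_strictMono g r).monotone (show i + 1 ≤ j by omega)
          omega
        · exact h
        · have := (Kst_strictMono g r).monotone (show j + 1 ≤ i by omega)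
          omega
      rw [hij]
      exact hnew

lemma class_A {g r i x : ℕ} (hx : x ∈ AA pick g r) (h1 : Kst g r i ≤ x) (h2 : x ≤ NN g (Kst g r i)) :
    New g (Kst g r i) (SS pick g r i) x := by
  obtain ⟨j, hj⟩ := hx
  exact class_aux g r j x hj i h1 (Nat.lt_succ_of_le h2)

lemma New_mem {g r i x : ℕ} (hx : New g (Kst g r i) (SS pick g r i) x) : x ∈ AA pick g r := by
  refine ⟨i + 1, ?_⟩
  simp only [FF, Finset.mem_union, Finset.mem_filter, Finset.mem_range]
  right
  exact ⟨Nat.lt_succ_of_le (New_le hx), hx⟩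

/-- Between the top of block `j` and the start of block `j + 1` the only element is `ww j`. -/
lemma class_w {g r i j x : ℕ} (hj : j < g) (hx : x ∈ AA pick g r)
    (h1 : LL g (Kst g r i) j < x) (h2 : x < kk g (Kst g r i) (j + 1)) :
    x = ww g (Kst g r i) j := by
  set K := Kst g r i with hK
  have a1 := K_le_kk g K j
  have a2 := kk_le_LL g K j
  have a3 := kk_mono g K (show j + 1 ≤ g by omega)
  have a4 := kk_le_kq g K
  have a5 := kq_le_NN g K
  have hnew := class_A (i := i) hx (by omega) (by rw [← hK]; omega)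
  rw [← hK] at hnew
  rcases hnew with ⟨j', hj', h3, h4⟩ | ⟨j', hj', h3⟩ | ⟨h3, _⟩ | ⟨s, hs, h3⟩
  · exfalso
    rcases Nat.lt_or_ge j j' with h | h
    · have := kk_mono g K (show j + 1 ≤ j' by omega)
      omega
    · have := LL_mono g K h
      omega
  · rcases lt_trichotomy j j' with h | h | h
    · exfalso
      have b1 := kk_mono g K (show j + 1 ≤ j' by omega)
      have b2 := kk_le_LL g K j'
      have b3 := LL_lt_ww g K j'
      omega
    · rw [h]; exact h3
    · exfalso
      have b1 := kk_mono g K (show j' + 1 ≤ j by omega)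
      have b3 := ww_lt_kk g K j'
      omega
  · exfalso; omega
  · exfalso
    have := u_gt (SS_lt g r i) hs h3
    rw [← hK] at this
    omega

lemma sum_le_card_mul (M : Multiset ℕ) (b : ℕ) (h : ∀ x ∈ M, x ≤ b) :
    M.sum ≤ Multiset.card M * b := by
  have := Multiset.sum_le_card_nsmul M b h
  simpa using this

lemma card_mul_le_sum (M : Multiset ℕ) (b : ℕ) (h : ∀ x ∈ M, b ≤ x) :
    Multiset.card M * b ≤ M.sum := by
  have := Multiset.card_nsmul_le_sum (s := M) (a := b) h
  simpa using this

/-- Uniqueness: every way of writing `s + om j` as a sum of `j + 1` elements of `A`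
contains `s`. -/
lemma uniq (g r i s : ℕ) (hs : s ∈ SS pick g r i) : ∀ j, j ≤ g → ∀ M : Multiset ℕ,
    Multiset.card M = j + 1 → (∀ x ∈ M, x ∈ AA pick g r) → M.sum = s + om g (Kst g r i) j → s ∈ M := by
  intro j
  induction j with
  | zero =>
    intro _ M hc _ hsum
    obtain ⟨a, rfl⟩ := Multiset.card_eq_one.1 hc
    simp only [Multiset.sum_singleton, om, add_zero] at hsum
    simp [hsum]
  | succ j ih =>
    intro hj M hc hA hsum
    set K := Kst g r i with hK
    have hlt := sum_lt g K s (SS_lt g r i s hs) (j + 1)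
    have hmem : ww g K j ∈ M := by
      by_contra hno
      have hall : ∀ x ∈ M, x ≤ LL g K j := by
        intro x hx
        by_contra hgt
        push Not at hgt
        have hxs : x ≤ M.sum := Multiset.single_le_sum (fun _ _ => Nat.zero_le _) x hx
        have hxk : x < kk g K (j + 1) := by omega
        have := class_w (i := i) (show j < g by omega) (hA x hx) hgt hxk
        rw [← hK] at this
        exact hno (this ▸ hx)
      have h1 := sum_le_card_mul M _ hall
      rw [hc, hsum, om_succ] at h1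
      have h2 : (j + 1 + 1) * LL g K j ≤ (g + 1) * LL g K j :=
        Nat.mul_le_mul_right _ (by omega)
      have h3 : ww g K j = (g + 1) * LL g K j + 1 := rfl
      omega
    obtain ⟨M', rfl⟩ := Multiset.exists_cons_of_mem hmem
    rw [Multiset.card_cons] at hc
    rw [Multiset.sum_cons, om_succ] at hsum
    have := ih (by omega) M' (by omega) (fun x hx => hA x (Multiset.mem_cons_of_mem hx))
      (by omega)
    exact Multiset.mem_cons_of_mem this

/-- Every representation of the critical number of stage `i` uses an element of `SS i`. -/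
lemma avoid (g r i : ℕ) (M : Multiset ℕ) (hc : Multiset.card M = g + 2)
    (hA : ∀ x ∈ M, x ∈ AA pick g r) (hsum : M.sum = NN g (Kst g r i)) : ∃ s ∈ SS pick g r i, s ∈ M := by
  set K := Kst g r i with hK
  by_cases hu : ∃ x ∈ M, ∃ s ∈ SS pick g r i, x + s + om g K g = NN g K
  · obtain ⟨x, hx, s, hs, hxs⟩ := hu
    obtain ⟨M', rfl⟩ := Multiset.exists_cons_of_mem hx
    rw [Multiset.card_cons] at hc
    rw [Multiset.sum_cons] at hsum
    refine ⟨s, hs, Multiset.mem_cons_of_mem ?_⟩
    refine uniq g r i s hs g le_rfl M' (by omega)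
      (fun y hy => hA y (Multiset.mem_cons_of_mem hy)) ?_
    rw [← hK]; omega
  · exfalso
    push Not at hu
    have hcl : ∀ x ∈ M, x ≤ LL g K g ∨ (kq g K + 1 ≤ x ∧ x ≤ kq g K + 1 + kk g K g) := by
      intro x hx
      have hxs : x ≤ M.sum := Multiset.single_le_sum (fun _ _ => Nat.zero_le _) x hx
      rcases Nat.lt_or_ge x K with h | h
      · left
        have a1 := K_le_kk g K g
        have a2 := kk_le_LL g K g
        omega
      · rcases class_A (i := i) (hA x hx) h (by rw [← hK]; omega) with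
          ⟨j, hj, _, h4⟩ | ⟨j, hj, h3⟩ | h3 | ⟨s, hs, h3⟩
        · left
          exact h4.trans (LL_mono g K hj)
        · left
          have b1 := ww_lt_kk g K j
          have b2 := kk_mono g K (show j + 1 ≤ g by omega)
          have b3 := kk_le_LL g K g
          rw [← hK] at h3
          omega
        · right; exact h3
        · exact absurd h3 (hu x hx s hs)
    have hL := LL_le_kq g K
    by_cases hy : ∃ y ∈ M, y ≤ LL g K g
    · obtain ⟨y, hy, hyL⟩ := hy
      obtain ⟨M', rfl⟩ := Multiset.exists_cons_of_mem hy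
      rw [Multiset.card_cons] at hc
      rw [Multiset.sum_cons] at hsum
      have hb : ∀ x ∈ M', x ≤ kq g K + 1 + kk g K g := by
        intro x hx
        rcases hcl x (Multiset.mem_cons_of_mem hx) with h | h
        · omega
        · exact h.2
      have h1 := sum_le_card_mul M' _ hb
      have hc' : Multiset.card M' = g + 1 := by omega
      rw [hc'] at h1
      have h2 : kq g K = LL g K g + (g + 1) * kk g K g + 1 := rfl
      have h3 : NN g K = (g + 2) * kq g K + (g + 1) := rfl
      have h4 : (g + 1) * (kq g K + 1 + kk g K g) =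
          (g + 2) * kq g K + (g + 1) + (g + 1) * kk g K g - kq g K := by
        have : (g + 1) * (kq g K + 1 + kk g K g) + kq g K =
          (g + 2) * kq g K + (g + 1) + (g + 1) * kk g K g := by ring
        omega
      have h5 : kq g K ≤ (g + 2) * kq g K := by nlinarith [Nat.zero_le (g * kq g K)]
      omega
    · push Not at hy
      have hb : ∀ x ∈ M, kq g K + 1 ≤ x := by
        intro x hx
        rcases hcl x hx with h | h
        · exact absurd h (not_le.2 (hy x hx))
        · exact h.1
      have h1 := card_mul_le_sum M _ hb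
      rw [hc, hsum] at h1
      have h3 : NN g K = (g + 2) * kq g K + (g + 1) := rfl
      have h4 : (g + 2) * (kq g K + 1) = (g + 2) * kq g K + (g + 2) := by ring
      omega

/-- sums of `h` elements of an interval -/
lemma cover (h a b n : ℕ) (h1 : h * a ≤ n) (h2 : n ≤ h * b) :
    ∃ M : Multiset ℕ, Multiset.card M = h ∧ (∀ x ∈ M, a ≤ x ∧ x ≤ b) ∧ M.sum = n := by
  rcases Nat.eq_zero_or_pos h with rfl | hh
  · refine ⟨0, by simp, by simp, ?_⟩
    simp at h2
    simp [h2]
  · have hd := Nat.div_add_mod n h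
    have hm := Nat.mod_lt n hh
    set q := n / h
    set t := n % h
    have hqa : a ≤ q := (Nat.le_div_iff_mul_le hh).2 (by rw [mul_comm]; exact h1)
    have hqb : q ≤ b := by
      have : h * q ≤ h * b := by omega
      exact Nat.le_of_mul_le_mul_left this hh
    refine ⟨Multiset.replicate t (q + 1) + Multiset.replicate (h - t) q, ?_, ?_, ?_⟩
    · simp; omega
    · intro x hx
      rcases Multiset.mem_add.1 hx with hx | hx
      · obtain ⟨ht, rfl⟩ := Multiset.mem_replicate.1 hx
        refine ⟨by omega, ?_⟩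
        have : h * q < h * b := by omega
        exact Nat.lt_of_mul_lt_mul_left this
      · obtain ⟨_, rfl⟩ := Multiset.mem_replicate.1 hx
        exact ⟨hqa, hqb⟩
    · simp only [Multiset.sum_add, Multiset.sum_replicate, smul_eq_mul]
      obtain ⟨c, hc⟩ := Nat.exists_eq_add_of_le hm.le
      have hc' : h - t = c := by omega
      rw [hc', ← hd]
      have : h * q = (t + c) * q := by rw [← hc]
      rw [this]; ring

/-- `n` is a sum of `g + 2` elements of `A`, all at least `K`. -/
def Big (pick : Pick) (g r K n : ℕ) : Prop :=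
  ∃ M : Multiset ℕ, Multiset.card M = g + 2 ∧ (∀ x ∈ M, x ∈ AA pick g r ∧ K ≤ x) ∧ M.sum = n

lemma block_mem {g r i j x : ℕ} (hj : j ≤ g) (h1 : kk g (Kst g r i) j ≤ x)
    (h2 : x ≤ LL g (Kst g r i) j) : x ∈ AA pick g r ∧ Kst g r i ≤ x :=
  ⟨New_mem (Or.inl ⟨j, hj, h1, h2⟩), (K_le_kk g _ j).trans h1⟩

lemma cover12 (g r i : ℕ) : ∀ j, j ≤ g → ∀ n, (g + 2) * Kst g r i ≤ n →
    n ≤ (g + 2) * LL g (Kst g r i) j → Big pick g r (Kst g r i) n := by
  intro j
  induction j with
  | zero =>
    intro _ n h1 h2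
    obtain ⟨M, hc, hb, hs⟩ := cover (g + 2) (kk g (Kst g r i) 0) (LL g (Kst g r i) 0) n h1 h2
    exact ⟨M, hc, fun x hx => block_mem (Nat.zero_le _) (hb x hx).1 (hb x hx).2, hs⟩
  | succ j ih =>
    intro hj n h1 h2
    set K := Kst g r i with hK
    rcases Nat.lt_or_ge ((g + 2) * LL g K j) n with h | h
    · rcases Nat.lt_or_ge n ((g + 2) * kk g K (j + 1)) with h3 | h3
      · have e1 : kk g K (j + 1) = (g + 1) * LL g K j + 1 + kk g K j + 1 := rfl
        have e2 : LL g K j = (g + 2) * kk g K j + 1 := rfl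
        have e3 : (g + 2) * LL g K j = (g + 1) * LL g K j + LL g K j := by ring
        have e4 : (g + 2) * kk g K j = (g + 1) * kk g K j + kk g K j := by ring
        have e5 : LL g K (j + 1) = (g + 2) * kk g K (j + 1) + 1 := rfl
        refine ⟨(n - (g + 1) * kk g K j) ::ₘ Multiset.replicate (g + 1) (kk g K j), ?_, ?_, ?_⟩
        · simp
        · intro x hx
          rcases Multiset.mem_cons.1 hx with rfl | hx
          · exact block_mem (j := j + 1) hj (by rw [← hK]; omega) (by rw [← hK]; omega)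
          · obtain ⟨_, rfl⟩ := Multiset.mem_replicate.1 hx
            exact block_mem (j := j) (by omega) le_rfl (kk_le_LL _ _ _)
        · simp only [Multiset.sum_cons, Multiset.sum_replicate, smul_eq_mul]
          omega
      · obtain ⟨M, hc, hb, hs⟩ := cover (g + 2) (kk g K (j + 1)) (LL g K (j + 1)) n h3 h2
        exact ⟨M, hc, fun x hx => block_mem hj (hb x hx).1 (hb x hx).2, hs⟩
    · exact ih (by omega) n h1 h

lemma split (a b c d n : ℕ) (h1 : a + c ≤ n) (h2 : n ≤ b + d) (hab : a ≤ b) (hcd : c ≤ d) :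
    ∃ n1 n2, a ≤ n1 ∧ n1 ≤ b ∧ c ≤ n2 ∧ n2 ≤ d ∧ n1 + n2 = n := by
  refine ⟨min b (n - c), n - min b (n - c), ?_, ?_, ?_, ?_, ?_⟩ <;> omega

lemma cover3 (g r i : ℕ) : ∀ t, t ≤ g + 1 → ∀ n,
    (g + 2) * LL g (Kst g r i) g < n →
    n ≤ (g + 2 - t) * LL g (Kst g r i) g + t * (kq g (Kst g r i) + 1 + kk g (Kst g r i) g) →
    Big pick g r (Kst g r i) n := by
  intro t
  induction t with
  | zero => intro _ n h1 h2; exfalso; simp at h2; omega
  | succ t ih =>
    intro ht n h1 h2
    set K := Kst g r i with hK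
    rcases Nat.lt_or_ge ((g + 2 - t) * LL g K g + t * (kq g K + 1 + kk g K g)) n with h | h
    · obtain ⟨m, hm⟩ : ∃ m, g = t + m := ⟨g - t, by omega⟩
      have hm1 : g + 2 - t = m + 2 := by omega
      have hm2 : g + 2 - (t + 1) = m + 1 := by omega
      rw [hm1] at h
      rw [hm2] at h2
      have e1 : kq g K = LL g K g + (g + 1) * kk g K g + 1 := rfl
      have e2 : LL g K g = (g + 2) * kk g K g + 1 := rfl
      have key : (m + 1) * kk g K g + (t + 1) * (kq g K + 1) ≤ n := by
        have hg : (g : ℕ) = t + m := hm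
        have e1' : kq g K = LL g K g + (t + m + 1) * kk g K g + 1 := by rw [e1]; rw [← hg]
        have e2' : LL g K g = (t + m + 2) * kk g K g + 1 := by rw [e2]; rw [← hg]
        have : (m + 1) * kk g K g + (t + 1) * (kq g K + 1) ≤
            (m + 2) * LL g K g + t * (kq g K + 1 + kk g K g) + 1 := by
          rw [e1', e2']
          nlinarith [Nat.zero_le (m * kk g K g), Nat.zero_le (t * kk g K g),
            Nat.zero_le (m * (m * kk g K g)), Nat.zero_le (m * (t * kk g K g))]
        omega
      have hk1 := kk_le_LL g K g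
      obtain ⟨n1, n2, a1, a2, a3, a4, a5⟩ := split ((m + 1) * kk g K g) ((m + 1) * LL g K g)
        ((t + 1) * (kq g K + 1)) ((t + 1) * (kq g K + 1 + kk g K g)) n key h2
        (Nat.mul_le_mul_left _ hk1) (Nat.mul_le_mul_left _ (by omega))
      obtain ⟨M1, c1, b1, s1⟩ := cover (m + 1) _ _ n1 a1 a2
      obtain ⟨M2, c2, b2, s2⟩ := cover (t + 1) _ _ n2 a3 a4
      refine ⟨M1 + M2, ?_, ?_, ?_⟩
      · rw [Multiset.card_add, c1, c2]; omega
      · intro x hx
        rcases Multiset.mem_add.1 hx with hx | hx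
        · exact block_mem le_rfl (b1 x hx).1 (b1 x hx).2
        · refine ⟨New_mem (i := i) (Or.inr (Or.inr (Or.inl (b2 x hx)))), ?_⟩
          have := (b2 x hx).1
          have := K_le_kk g K g
          have := kk_le_kq g K
          omega
      · rw [Multiset.sum_add, s1, s2, a5]
    · exact ih (by omega) n h1 h

lemma coverAll (g r i n : ℕ) (h1 : (g + 2) * Kst g r i ≤ n)
    (h2 : n ≤ (g + 2) * Kst g r (i + 1)) (h3 : n ≠ NN g (Kst g r i)) :
    Big pick g r (Kst g r i) n := by
  set K := Kst g r i with hK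
  have hK' : Kst g r (i + 1) = NN g K + 1 := rfl
  have e3 : NN g K = (g + 2) * kq g K + (g + 1) := rfl
  have e1 : kq g K = LL g K g + (g + 1) * kk g K g + 1 := rfl
  rcases Nat.lt_or_ge ((g + 2) * LL g K g) n with h | h
  · rcases Nat.lt_or_ge n (NN g K) with h4 | h4
    · refine cover3 g r i (g + 1) le_rfl n h ?_
      rw [← hK]
      have : g + 2 - (g + 1) = 1 := by omega
      rw [this]
      have e4 : 1 * LL g K g + (g + 1) * (kq g K + 1 + kk g K g) + 1 =
          (g + 2) * kq g K + (g + 1) := by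
        have : (g + 2) * kq g K = (g + 1) * kq g K + kq g K := by ring
        rw [this]
        nth_rw 3 [e1]
        ring
      omega
    · have h5 : NN g K + 1 ≤ n := by omega
      have e5 : (g + 2) * (kq g K + 1) = NN g K + 1 := by rw [e3]; ring
      rcases Nat.lt_or_ge ((g + 2) * (kq g K + 1 + kk g K g)) n with h6 | h6
      · have e6 : (g + 2) * (kq g K + 1 + kk g K g) = NN g K + 1 + (g + 1) * kk g K g + kk g K g := by
          rw [e3]; ring
        refine ⟨(n - (g + 1) * kk g K g) ::ₘ Multiset.replicate (g + 1) (kk g K g), ?_, ?_, ?_⟩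
        · simp
        · intro x hx
          rcases Multiset.mem_cons.1 hx with rfl | hx
          · have hb := block_mem (pick := pick) (g := g) (r := r) (i := i + 1) (j := 0)
              (x := n - (g + 1) * kk g K g) (Nat.zero_le _)
              (by rw [kk_zero]; omega)
              (by
                have : LL g (Kst g r (i + 1)) 0 = (g + 2) * Kst g r (i + 1) + 1 := rfl
                omega)
            exact ⟨hb.1, (Kst_lt g r i).le.trans hb.2⟩
          · obtain ⟨_, rfl⟩ := Multiset.mem_replicate.1 hx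
            exact block_mem (j := g) le_rfl le_rfl (kk_le_LL _ _ _)
        · simp only [Multiset.sum_cons, Multiset.sum_replicate, smul_eq_mul]
          omega
      · obtain ⟨M, hc, hb, hs⟩ := cover (g + 2) (kq g K + 1) (kq g K + 1 + kk g K g) n
          (by omega) h6
        refine ⟨M, hc, fun x hx => ⟨New_mem (i := i) (Or.inr (Or.inr (Or.inl (hb x hx)))), ?_⟩, hs⟩
        have := (hb x hx).1
        have := K_le_kk g K g
        have := kk_le_kq g K
        omega
  · exact cover12 g r i g le_rfl n h1 h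

/-- The multiset of the isolated elements. -/
def WW (g K : ℕ) : ℕ → Multiset ℕ
  | 0 => 0
  | j + 1 => ww g K j ::ₘ WW g K j

lemma WW_card (g K : ℕ) : ∀ j, Multiset.card (WW g K j) = j
  | 0 => rfl
  | j + 1 => by simp [WW, WW_card g K j]

lemma WW_sum (g K : ℕ) : ∀ j, (WW g K j).sum = om g K j
  | 0 => rfl
  | j + 1 => by simp [WW, om, WW_sum g K j, add_comm]

lemma WW_mem (g K : ℕ) : ∀ j x, x ∈ WW g K j → ∃ t, t < j ∧ x = ww g K t
  | 0, x, h => by simp [WW] at h
  | j + 1, x, h => by
    simp only [WW, Multiset.mem_cons] at h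
    rcases h with h | h
    · exact ⟨j, by omega, h⟩
    · obtain ⟨t, ht, hx⟩ := WW_mem g K j x h
      exact ⟨t, by omega, hx⟩

/-- The critical number of stage `i` is a sum of `s` and `g + 1` elements `≥ Kst i`. -/
lemma critical (g r i s : ℕ) (hs : s ∈ SS pick g r i) :
    ∃ M : Multiset ℕ, Multiset.card M = g + 1 ∧ (∀ x ∈ M, x ∈ AA pick g r ∧ Kst g r i ≤ x) ∧
      s + M.sum = NN g (Kst g r i) := by
  set K := Kst g r i with hK
  have h1 := sum_lt g K s (SS_lt g r i s hs) g
  have h2 := kk_le_kq g K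
  have h3 := kq_le_NN g K
  have hnew : New g K (SS pick g r i) (NN g K - s - om g K g) :=
    Or.inr (Or.inr (Or.inr ⟨s, hs, by omega⟩))
  refine ⟨(NN g K - s - om g K g) ::ₘ WW g K g, ?_, ?_, ?_⟩
  · simp [WW_card]
  · intro x hx
    rcases Multiset.mem_cons.1 hx with rfl | hx
    · exact ⟨New_mem hnew, New_ge (SS_lt g r i) hnew⟩
    · obtain ⟨t, ht, rfl⟩ := WW_mem g K g x hx
      have hw : New g K (SS pick g r i) (ww g K t) := Or.inr (Or.inl ⟨t, ht, rfl⟩)
      exact ⟨New_mem hw, New_ge (SS_lt g r i) hw⟩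
  · rw [Multiset.sum_cons, WW_sum]; omega

lemma exists_stage (g r i0 n : ℕ) (h : (g + 2) * Kst g r i0 ≤ n) :
    ∃ i, i0 ≤ i ∧ (g + 2) * Kst g r i ≤ n ∧ n ≤ (g + 2) * Kst g r (i + 1) := by
  have hex : ∃ k, n < (g + 2) * Kst g r (i0 + k + 1) := by
    refine ⟨n, ?_⟩
    have := le_Kst g r (i0 + n + 1)
    nlinarith [Nat.zero_le (g * Kst g r (i0 + n + 1))]
  classical
  refine ⟨i0 + Nat.find hex, by omega, ?_, (Nat.find_spec hex).le⟩
  rcases Nat.eq_zero_or_pos (Nat.find hex) with h0 | h0
  · rw [h0]; exact h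
  · obtain ⟨k, hk⟩ : ∃ k, Nat.find hex = k + 1 := ⟨Nat.find hex - 1, by omega⟩
    have hmin := Nat.find_min hex (m := k) (by omega)
    rw [hk]
    push Not at hmin
    exact hmin

/-- conversion between multisets and functions on `Fin k` -/
lemma conv (k : ℕ) (A : Set ℕ) (n : ℕ) :
    (∃ f : Fin k → ℕ, (∀ i, f i ∈ A) ∧ ∑ i, f i = n) ↔
      ∃ M : Multiset ℕ, Multiset.card M = k ∧ (∀ x ∈ M, x ∈ A) ∧ M.sum = n := by
  constructor
  · rintro ⟨f, hf, hs⟩
    refine ⟨Finset.univ.val.map f, by simp, ?_, hs⟩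
    intro x hx
    simp only [Multiset.mem_map] at hx
    obtain ⟨i, _, rfl⟩ := hx
    exact hf i
  · rintro ⟨M, hc, hM, hs⟩
    have hl : M.toList.length = k := by simpa using hc
    refine ⟨fun i => M.toList.get (Fin.cast hl.symm i), ?_, ?_⟩
    · intro i
      apply hM
      rw [← Multiset.mem_toList]
      exact List.get_mem _ _
    · have h1 : ∑ i : Fin k, M.toList.get (Fin.cast hl.symm i) =
          ∑ i : Fin M.toList.length, M.toList.get i :=
        Fintype.sum_equiv (finCongr hl.symm) _ _ (fun i => rfl)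
      rw [h1]
      have h2 : ∑ i : Fin M.toList.length, M.toList.get i = M.toList.sum := by
        conv_rhs => rw [← List.ofFn_get M.toList]
        rw [List.sum_ofFn]
      rw [h2, Multiset.sum_toList, hs]

/-- elements of the set below `Kst i` are in `FF i` -/
lemma mem_FF_of_lt (g r : ℕ) : ∀ j x, x ∈ FF pick g r j → ∀ i, x < Kst g r i → x ∈ FF pick g r i := by
  intro j
  induction j with
  | zero => intro x hx i _; exact FF_mono g r (Nat.zero_le i) hx
  | succ j ih =>
    intro x hx i hi
    rcases Nat.lt_or_ge i (j + 1) with h | h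
    · have hx' := hx
      simp only [FF, Finset.mem_union, Finset.mem_filter, Finset.mem_range] at hx
      rcases hx with hx | hx
      · exact ih x hx i hi
      · exfalso
        have hge := New_ge (SS_lt g r j) hx.2
        have := (Kst_strictMono g r).monotone (show i ≤ j by omega)
        omega
    · exact FF_mono g r h hx

end Pool.Agent.H28Bases
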