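import Mathlib

set_option autoImplicit false

namespace Pool.Agent.H28Sieve

open Finset

/-! ### Bonferroni inequalities -/

/-- Truncated alternating sum. -/
noncomputable def T (S : Finset ℕ) (t : ℕ) (x : ℕ → ℝ) : ℝ :=
  ∑ s ∈ S.powerset, if s.card ≤ t then (-1) ^ s.card * ∏ i ∈ s, x i else 0

/-- Elementary symmetric sum. -/
noncomputable def E (S : Finset ℕ) (t : ℕ) (x : ℕ → ℝ) : ℝ :=
  ∑ s ∈ S.powerset, if s.card = t then ∏ i ∈ s, x i else 0

theorem T_succ (S : Finset ℕ) (t : ℕ) (x : ℕ → ℝ) :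
    T S (t + 1) x = T S t x + (-1) ^ (t + 1) * E S (t + 1) x := by
  unfold T E
  rw [Finset.mul_sum, ← Finset.sum_add_distrib]
  apply Finset.sum_congr rfl
  intro s _
  by_cases h : s.card ≤ t
  · rw [if_pos h, if_pos (by omega), if_neg (by omega)]; ring
  · by_cases h2 : s.card = t + 1
    · rw [if_neg h, if_pos h2, if_pos h2.le, h2]; ring
    · rw [if_neg h, if_neg h2, if_neg (by omega)]; ring

theorem T_insert (S : Finset ℕ) (t : ℕ) (x : ℕ → ℝ) (a : ℕ) (ha : a ∉ S) :
    T (insert a S) (t + 1) x = T S (t + 1) x - x a * T S t x := by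
  unfold T
  rw [Finset.sum_powerset_insert ha, Finset.mul_sum, sub_eq_add_neg, ← Finset.sum_neg_distrib]
  congr 1
  apply Finset.sum_congr rfl
  intro s hs
  have has : a ∉ s := fun h => ha (Finset.mem_powerset.1 hs h)
  rw [Finset.card_insert_of_notMem has, Finset.prod_insert has]
  by_cases h : s.card ≤ t
  · rw [if_pos h, if_pos (by omega)]; ring
  · rw [if_neg h, if_neg (by omega)]; ring

theorem T_zero (S : Finset ℕ) (x : ℕ → ℝ) : T S 0 x = 1 := by
  unfold T
  rw [Finset.sum_eq_single ∅]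
  · simp
  · intro s _ hs
    rw [if_neg]
    intro h
    exact hs (Finset.card_eq_zero.1 (by omega))
  · intro h
    exact absurd (Finset.empty_mem_powerset S) h

theorem T_empty (t : ℕ) (x : ℕ → ℝ) : T ∅ t x = 1 := by
  unfold T; simp

theorem bonferroni (x : ℕ → ℝ) (S : Finset ℕ) (hx : ∀ i ∈ S, 0 ≤ x i ∧ x i ≤ 1) :
    (∀ t, Even t → ∏ i ∈ S, (1 - x i) ≤ T S t x) ∧
      (∀ t, Odd t → T S t x ≤ ∏ i ∈ S, (1 - x i)) := by
  induction S using Finset.induction_on with
  | empty =>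
    constructor
    · intro t _; rw [T_empty]; simp
    · intro t _; rw [T_empty]; simp
  | insert a S ha ih =>
    have hx' : ∀ i ∈ S, 0 ≤ x i ∧ x i ≤ 1 := fun i hi => hx i (Finset.mem_insert_of_mem hi)
    obtain ⟨h1, h2⟩ := ih hx'
    have ha1 := hx a (Finset.mem_insert_self a S)
    have hP0 : 0 ≤ ∏ i ∈ S, (1 - x i) :=
      Finset.prod_nonneg fun i hi => by have := hx' i hi; linarith
    have hP1 : ∏ i ∈ S, (1 - x i) ≤ 1 :=
      Finset.prod_le_one (fun i hi => by have := hx' i hi; linarith)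
        fun i hi => by have := hx' i hi; linarith
    rw [Finset.prod_insert ha]
    constructor
    · intro t ht
      rcases t with _ | t
      · rw [T_zero]
        nlinarith
      · rw [T_insert _ _ _ _ ha]
        have h3 := h1 (t + 1) ht
        have h4 := h2 t (by
          rcases Nat.even_or_odd t with h5 | h5
          · exfalso; exact (Nat.not_even_iff_odd.2 h5.add_one) ht
          · exact h5)
        nlinarith [mul_le_mul_of_nonneg_left h4 ha1.1]
    · intro t ht
      rcases t with _ | t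
      · exfalso; exact absurd ht (by decide)
      · rw [T_insert _ _ _ _ ha]
        have h3 := h2 (t + 1) ht
        have h4 := h1 t (by
          rcases Nat.even_or_odd t with h5 | h5
          · exact h5
          · exfalso; exact (Nat.not_odd_iff_even.2 h5.add_one) ht)
        nlinarith [mul_le_mul_of_nonneg_left h4 ha1.1]

theorem T_sub_le (x : ℕ → ℝ) (S : Finset ℕ) (hx : ∀ i ∈ S, 0 ≤ x i ∧ x i ≤ 1) (t : ℕ)
    (ht : Even t) : T S t x - ∏ i ∈ S, (1 - x i) ≤ E S (t + 1) x := by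
  have h1 := (bonferroni x S hx).2 (t + 1) ht.add_one
  rw [T_succ, ht.add_one.neg_one_pow] at h1
  linarith

theorem E_nonneg (x : ℕ → ℝ) (S : Finset ℕ) (hx : ∀ i ∈ S, 0 ≤ x i) (t : ℕ) : 0 ≤ E S t x := by
  unfold E
  apply Finset.sum_nonneg
  intro s hs
  split_ifs
  · exact Finset.prod_nonneg fun i hi => hx i (Finset.mem_powerset.1 hs hi)
  · exact le_rfl

theorem E_le (x : ℕ → ℝ) (S : Finset ℕ) (hx : ∀ i ∈ S, 0 ≤ x i) (t : ℕ) :
    8 ^ t * E S t x ≤ Real.exp (8 * ∑ i ∈ S, x i) := by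
  have h1 : ∏ i ∈ S, (1 + 8 * x i) ≤ Real.exp (8 * ∑ i ∈ S, x i) := by
    rw [Finset.mul_sum, Real.exp_sum]
    apply Finset.prod_le_prod
    · intro i hi; have := hx i hi; positivity
    · intro i _
      have := Real.add_one_le_exp (8 * x i)
      linarith
  refine le_trans ?_ h1
  rw [Finset.prod_one_add]
  unfold E
  rw [Finset.mul_sum]
  apply Finset.sum_le_sum
  intro s hs
  have hs' : ∀ i ∈ s, 0 ≤ x i := fun i hi => hx i (Finset.mem_powerset.1 hs hi)
  split_ifs with h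
  · rw [Finset.prod_mul_distrib, Finset.prod_const, h]
  · rw [mul_zero]
    exact Finset.prod_nonneg fun i hi => by have := hs' i hi; positivity

/-! ### Hooley's inequality -/

theorem hooley (K : ℕ) (x y e : ℕ → ℝ) (hy : ∀ j, 0 ≤ y j) (hxy : ∀ j, y j ≤ x j)
    (he : ∀ j, x j - y j ≤ e j) :
    ∏ j ∈ range K, x j - ∑ i ∈ range K, ∏ j ∈ range K, (if j = i then e j else x j) ≤
      ∏ j ∈ range K, y j := by
  induction K with
  | zero => simp
  | succ K ih =>
    have hx : ∀ j, 0 ≤ x j := fun j => (hy j).trans (hxy j)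
    rw [Finset.prod_range_succ, Finset.sum_range_succ, Finset.prod_range_succ (fun j => y j)]
    have h1 : ∀ i ∈ range K, ∏ j ∈ range (K + 1), (if j = i then e j else x j) =
        (∏ j ∈ range K, (if j = i then e j else x j)) * x K := by
      intro i hi
      rw [Finset.prod_range_succ, if_neg]
      have := Finset.mem_range.1 hi
      omega
    rw [Finset.sum_congr rfl h1, ← Finset.sum_mul]
    have h2 : ∏ j ∈ range (K + 1), (if j = K then e j else x j) = (∏ j ∈ range K, x j) * e K := by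
      rw [Finset.prod_range_succ, if_pos rfl]
      congr 1
      apply Finset.prod_congr rfl
      intro j hj
      rw [if_neg]
      have := Finset.mem_range.1 hj
      omega
    rw [h2]
    set X := ∏ j ∈ range K, x j
    set Y := ∏ j ∈ range K, y j
    set W := ∑ i ∈ range K, ∏ j ∈ range K, (if j = i then e j else x j)
    have hX : 0 ≤ X := Finset.prod_nonneg fun j _ => hx j
    have h3 : X * (x K - y K) ≤ X * e K := mul_le_mul_of_nonneg_left (he K) hX
    have h4 : (X - Y) * y K ≤ W * x K := by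
      have hYX : Y ≤ X := Finset.prod_le_prod (fun j _ => hy j) fun j _ => hxy j
      calc (X - Y) * y K ≤ (X - Y) * x K := by
            apply mul_le_mul_of_nonneg_left (hxy K); linarith
        _ ≤ W * x K := by
            apply mul_le_mul_of_nonneg_right _ (hx K); linarith
    nlinarith

/-! ### Equidistribution -/

theorem count_mult (m k d : ℕ) (hd : 0 < d) :
    |(((Ioc m (m + k)).filter (fun n => d ∣ n)).card : ℝ) - (k : ℝ) / d| ≤ 1 := by
  have h1 : ((Ioc 0 (m + k)).filter (fun n => d ∣ n)).card =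
      ((Ioc 0 m).filter (fun n => d ∣ n)).card + ((Ioc m (m + k)).filter (fun n => d ∣ n)).card := by
    rw [← Finset.card_union_of_disjoint, ← Finset.filter_union]
    · congr 2
      ext n
      simp only [Finset.mem_union, Finset.mem_Ioc]
      omega
    · apply Finset.disjoint_filter_filter
      rw [Finset.disjoint_left]
      intro n hn hn'
      rw [Finset.mem_Ioc] at hn hn'
      omega
  rw [Nat.Ioc_filter_dvd_card_eq_div, Nat.Ioc_filter_dvd_card_eq_div] at h1
  have hd' : (0 : ℝ) < d := by exact_mod_cast hd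
  have h2 : (((m + k) / d : ℕ) : ℝ) ≤ ((m : ℝ) + k) / d := by
    have := @Nat.cast_div_le ℝ _ _ _ (m + k) d
    push_cast at this ⊢
    exact this
  have h3 : ((m / d : ℕ) : ℝ) ≤ (m : ℝ) / d := Nat.cast_div_le
  have h4 : ((m : ℝ) + k) / d < (((m + k) / d : ℕ) : ℝ) + 1 := by
    rw [div_lt_iff₀ hd']
    have := Nat.lt_mul_div_succ (m + k) hd
    have h5 : ((m + k : ℕ) : ℝ) < ((d * ((m + k) / d + 1) : ℕ) : ℝ) := by exact_mod_cast this
    push_cast at h5 ⊢
    linarith
  have h5 : (m : ℝ) / d < ((m / d : ℕ) : ℝ) + 1 := by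
    rw [div_lt_iff₀ hd']
    have := Nat.lt_mul_div_succ m hd
    have h5 : ((m : ℕ) : ℝ) < ((d * (m / d + 1) : ℕ) : ℝ) := by exact_mod_cast this
    push_cast at h5 ⊢
    linarith
  have h6 : (((m + k) / d : ℕ) : ℝ) = ((m / d : ℕ) : ℝ) +
      (((Ioc m (m + k)).filter (fun n => d ∣ n)).card : ℝ) := by exact_mod_cast h1
  rw [add_div] at h2 h4
  rw [abs_le]
  constructor <;> linarith

theorem good (B : ℕ → Finset ℕ) (hB : ∀ j, ∀ p ∈ B j, p.Prime)
    (hdisj : ∀ i j, i ≠ j → Disjoint (B i) (B j))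
    (c : ℕ → Finset ℕ → ℝ) (hc : ∀ j s, |c j s| ≤ 1) (F : ℕ → Finset (Finset ℕ))
    (hF : ∀ j, ∀ s ∈ F j, s ⊆ B j) (m k : ℕ) :
    ∀ J d : ℕ, 0 < d → (∀ j < J, ∀ p ∈ B j, Nat.Coprime d p) →
    |∑ n ∈ Ioc m (m + k), (if d ∣ n then
        ∏ j ∈ range J, ∑ s ∈ F j, c j s * (if ∏ p ∈ s, p ∣ n then 1 else 0) else 0) -
      (k : ℝ) / d * ∏ j ∈ range J, ∑ s ∈ F j, c j s / ((∏ p ∈ s, p : ℕ) : ℝ)| ≤
      ∏ j ∈ range J, ((F j).card : ℝ) := by
  intro J
  induction J with
  | zero =>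
    intro d hd _
    simp only [Finset.range_zero, Finset.prod_empty, mul_one]
    have h1 := count_mult m k d hd
    rw [Finset.card_filter] at h1
    push_cast at h1
    exact h1
  | succ J ih =>
    intro d hd hcop
    have hDpos : ∀ s ∈ F J, 0 < ∏ p ∈ s, p := fun s hs =>
      Finset.prod_pos fun p hp => (hB J p (hF J s hs hp)).pos
    have hdD : ∀ s ∈ F J, Nat.Coprime d (∏ p ∈ s, p) := fun s hs =>
      Nat.Coprime.prod_right fun p hp => hcop J (Nat.lt_succ_self J) p (hF J s hs hp)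
    have key : ∀ s ∈ F J,
        |∑ n ∈ Ioc m (m + k), (if d * (∏ p ∈ s, p) ∣ n then
          ∏ j ∈ range J, ∑ s ∈ F j, c j s * (if ∏ p ∈ s, p ∣ n then 1 else 0) else 0) -
        (k : ℝ) / ((d * ∏ p ∈ s, p : ℕ) : ℝ) *
          ∏ j ∈ range J, ∑ s ∈ F j, c j s / ((∏ p ∈ s, p : ℕ) : ℝ)| ≤
        ∏ j ∈ range J, ((F j).card : ℝ) := by
      intro s hs
      apply ih _ (Nat.mul_pos hd (hDpos s hs))
      intro j hj p hp
      apply Nat.Coprime.mul_left (hcop j (by omega) p hp)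
      apply Nat.Coprime.prod_left
      intro q hq
      apply (Nat.coprime_primes (hB J q (hF J s hs hq)) (hB j p hp)).2
      rintro rfl
      exact (Finset.disjoint_left.1 (hdisj J j (by omega))) (hF J s hs hq) hp
    have e1 : ∑ n ∈ Ioc m (m + k), (if d ∣ n then
        ∏ j ∈ range (J + 1), ∑ s ∈ F j, c j s * (if ∏ p ∈ s, p ∣ n then 1 else 0) else 0) =
        ∑ s ∈ F J, c J s * ∑ n ∈ Ioc m (m + k), (if d * (∏ p ∈ s, p) ∣ n then
          ∏ j ∈ range J, ∑ s ∈ F j, c j s * (if ∏ p ∈ s, p ∣ n then 1 else 0) else 0) := by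
      simp_rw [Finset.mul_sum]
      rw [Finset.sum_comm]
      apply Finset.sum_congr rfl
      intro n _
      by_cases hdn : d ∣ n
      · rw [if_pos hdn, Finset.prod_range_succ, Finset.mul_sum]
        apply Finset.sum_congr rfl
        intro s hs
        by_cases hsn : ∏ p ∈ s, p ∣ n
        · rw [if_pos hsn, if_pos ((hdD s hs).mul_dvd_of_dvd_of_dvd hdn hsn)]
          ring
        · rw [if_neg hsn, if_neg (fun h => hsn ((Dvd.intro_left d rfl).trans h))]
          ring
      · rw [if_neg hdn]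
        symm
        apply Finset.sum_eq_zero
        intro s _
        rw [if_neg (fun h => hdn ((Dvd.intro _ rfl).trans h)), mul_zero]
    have e2 : (k : ℝ) / d * ∏ j ∈ range (J + 1), ∑ s ∈ F j, c j s / ((∏ p ∈ s, p : ℕ) : ℝ) =
        ∑ s ∈ F J, c J s * ((k : ℝ) / ((d * ∏ p ∈ s, p : ℕ) : ℝ) *
          ∏ j ∈ range J, ∑ s ∈ F j, c j s / ((∏ p ∈ s, p : ℕ) : ℝ)) := by
      rw [Finset.prod_range_succ, ← mul_assoc, Finset.mul_sum]
      apply Finset.sum_congr rfl
      intro s hs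
      have h1 : (((∏ p ∈ s, p : ℕ)) : ℝ) ≠ 0 := by
        have := hDpos s hs
        exact_mod_cast this.ne'
      have h2 : (d : ℝ) ≠ 0 := by exact_mod_cast hd.ne'
      rw [Nat.cast_mul]
      field_simp
    rw [e1, e2, ← Finset.sum_sub_distrib]
    calc _ ≤ ∑ s ∈ F J, |c J s * ∑ n ∈ Ioc m (m + k), (if d * (∏ p ∈ s, p) ∣ n then
            ∏ j ∈ range J, ∑ s ∈ F j, c j s * (if ∏ p ∈ s, p ∣ n then 1 else 0) else 0) -
          c J s * ((k : ℝ) / ((d * ∏ p ∈ s, p : ℕ) : ℝ) *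
            ∏ j ∈ range J, ∑ s ∈ F j, c j s / ((∏ p ∈ s, p : ℕ) : ℝ))| :=
          Finset.abs_sum_le_sum_abs _ _
      _ ≤ ∑ s ∈ F J, ∏ j ∈ range J, ((F j).card : ℝ) := by
          apply Finset.sum_le_sum
          intro s hs
          rw [← mul_sub, abs_mul]
          calc _ ≤ 1 * _ := mul_le_mul_of_nonneg_right (hc J s) (abs_nonneg _)
            _ = _ := one_mul _
            _ ≤ _ := key s hs
      _ = ∏ j ∈ range (J + 1), ((F j).card : ℝ) := by
          rw [Finset.sum_const, nsmul_eq_mul, Finset.prod_range_succ, mul_comm]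

/-! ### The sieve -/

/-- Indicator of divisibility. -/
noncomputable def ind (n i : ℕ) : ℝ := if i ∣ n then 1 else 0

theorem ind_nonneg (n i : ℕ) : 0 ≤ ind n i := by unfold ind; split_ifs <;> norm_num
theorem ind_le_one (n i : ℕ) : ind n i ≤ 1 := by unfold ind; split_ifs <;> norm_num

theorem ind_prod (s : Finset ℕ) (hs : ∀ p ∈ s, p.Prime) (n : ℕ) :
    ∏ i ∈ s, ind n i = if ∏ p ∈ s, p ∣ n then 1 else 0 := by
  by_cases h : ∀ p ∈ s, p ∣ n
  · rw [if_pos (Finset.prod_primes_dvd n (fun a ha => (hs a ha).prime) h)]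
    apply Finset.prod_eq_one
    intro i hi
    unfold ind
    rw [if_pos (h i hi)]
  · push Not at h
    obtain ⟨p, hp, hpn⟩ := h
    rw [if_neg (fun h' => hpn ((Finset.dvd_prod_of_mem _ hp).trans h'))]
    apply Finset.prod_eq_zero hp
    unfold ind
    rw [if_neg hpn]

/-- The family of small subsets. -/
def Fam (S : Finset ℕ) (t : ℕ) : Finset (Finset ℕ) := S.powerset.filter (fun s => s.card ≤ t + 1)

/-- Coefficients of `T`. -/
noncomputable def cT (t : ℕ) (s : Finset ℕ) : ℝ := if s.card ≤ t then (-1) ^ s.card else 0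

/-- Coefficients of `E`. -/
noncomputable def cE (t : ℕ) (s : Finset ℕ) : ℝ := if s.card = t + 1 then 1 else 0

theorem T_eq (S : Finset ℕ) (t : ℕ) (x : ℕ → ℝ) :
    T S t x = ∑ s ∈ Fam S t, cT t s * ∏ i ∈ s, x i := by
  unfold T Fam cT
  rw [Finset.sum_filter]
  apply Finset.sum_congr rfl
  intro s _
  by_cases h : s.card ≤ t
  · rw [if_pos h, if_pos h, if_pos (by omega)]
  · rw [if_neg h, if_neg h, zero_mul]; simp

theorem E_eq (S : Finset ℕ) (t : ℕ) (x : ℕ → ℝ) :
    E S (t + 1) x = ∑ s ∈ Fam S t, cE t s * ∏ i ∈ s, x i := by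
  unfold E Fam cE
  rw [Finset.sum_filter]
  apply Finset.sum_congr rfl
  intro s _
  by_cases h : s.card = t + 1
  · rw [if_pos h, if_pos h, if_pos (by omega), one_mul]
  · rw [if_neg h, if_neg h, zero_mul]; simp

theorem card_Fam (S : Finset ℕ) (t : ℕ) : (Fam S t).card ≤ (S.card + 1) ^ (t + 1) := by
  have h1 : Fam S t ⊆ (range (t + 2)).biUnion (fun i => S.powersetCard i) := by
    intro s hs
    unfold Fam at hs
    rw [Finset.mem_filter, Finset.mem_powerset] at hs
    rw [Finset.mem_biUnion]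
    exact ⟨s.card, Finset.mem_range.2 (by omega), Finset.mem_powersetCard.2 ⟨hs.1, rfl⟩⟩
  refine (Finset.card_le_card h1).trans (Finset.card_biUnion_le.trans ?_)
  rw [add_pow]
  apply Finset.sum_le_sum
  intro i hi
  rw [Finset.card_powersetCard, one_pow, mul_one]
  have h2 : S.card.choose i ≤ S.card ^ i := Nat.choose_le_pow _ _
  have h3 : 1 ≤ (t + 1).choose i := Nat.choose_pos (by have := Finset.mem_range.1 hi; omega)
  calc S.card.choose i ≤ S.card ^ i * 1 := by rw [mul_one]; exact h2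
    _ ≤ _ := Nat.mul_le_mul_left _ h3

theorem sieve_lower (B : ℕ → Finset ℕ) (hB : ∀ j, ∀ p ∈ B j, p.Prime)
    (hdisj : ∀ i j, i ≠ j → Disjoint (B i) (B j)) (t : ℕ → ℕ) (ht : ∀ j, Even (t j))
    (K m k : ℕ) (ε : ℕ → ℝ)
    (hε : ∀ j < K, E (B j) (t j + 1) (fun p => 1 / (p : ℝ)) ≤
      ε j * T (B j) (t j) (fun p => 1 / (p : ℝ))) :
    (k : ℝ) * (∏ j ∈ range K, T (B j) (t j) (fun p => 1 / (p : ℝ))) * (1 - ∑ i ∈ range K, ε i) -
      (K + 1) * ∏ j ∈ range K, (((B j).card + 1 : ℕ) : ℝ) ^ (t j + 1) ≤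
    (((Ioc m (m + k)).filter (fun n => ∀ j < K, ∀ p ∈ B j, ¬ p ∣ n)).card : ℝ) := by
  classical
  set MT : ℕ → ℝ := fun j => T (B j) (t j) (fun p => 1 / (p : ℝ)) with hMT
  set ME : ℕ → ℝ := fun j => E (B j) (t j + 1) (fun p => 1 / (p : ℝ)) with hME
  set G : ℝ := ∏ j ∈ range K, (((B j).card + 1 : ℕ) : ℝ) ^ (t j + 1) with hG
  have hx01 : ∀ j, ∀ i ∈ B j, 0 ≤ (1 / (i : ℝ)) ∧ (1 / (i : ℝ)) ≤ 1 := by
    intro j i hi
    have h1 : (1 : ℝ) ≤ i := by exact_mod_cast (hB j i hi).one_le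
    constructor
    · positivity
    · rw [div_le_one (by linarith)]; exact h1
  have hMTnn : ∀ j, 0 ≤ MT j := by
    intro j
    refine le_trans ?_ ((bonferroni _ (B j) (hx01 j)).1 (t j) (ht j))
    apply Finset.prod_nonneg
    intro i hi
    have := hx01 j i hi
    linarith
  have hMEnn : ∀ j, 0 ≤ ME j := fun j => E_nonneg _ _ (fun i hi => (hx01 j i hi).1) _
  -- rewriting the two kinds of factors
  have hgT : ∀ j n, T (B j) (t j) (ind n) =
      ∑ s ∈ Fam (B j) (t j), cT (t j) s * (if ∏ p ∈ s, p ∣ n then 1 else 0) := by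
    intro j n
    rw [T_eq]
    apply Finset.sum_congr rfl
    intro s hs
    rw [ind_prod]
    intro p hp
    unfold Fam at hs
    rw [Finset.mem_filter, Finset.mem_powerset] at hs
    exact hB j p (hs.1 hp)
  have hgE : ∀ j n, E (B j) (t j + 1) (ind n) =
      ∑ s ∈ Fam (B j) (t j), cE (t j) s * (if ∏ p ∈ s, p ∣ n then 1 else 0) := by
    intro j n
    rw [E_eq]
    apply Finset.sum_congr rfl
    intro s hs
    rw [ind_prod]
    intro p hp
    unfold Fam at hs
    rw [Finset.mem_filter, Finset.mem_powerset] at hs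
    exact hB j p (hs.1 hp)
  have hmT : ∀ j, MT j = ∑ s ∈ Fam (B j) (t j), cT (t j) s / ((∏ p ∈ s, p : ℕ) : ℝ) := by
    intro j
    simp only [hMT]
    rw [T_eq]
    apply Finset.sum_congr rfl
    intro s _
    rw [Nat.cast_prod, Finset.prod_div_distrib, Finset.prod_const_one, mul_one_div]
  have hmE : ∀ j, ME j = ∑ s ∈ Fam (B j) (t j), cE (t j) s / ((∏ p ∈ s, p : ℕ) : ℝ) := by
    intro j
    simp only [hME]
    rw [E_eq]
    apply Finset.sum_congr rfl
    intro s _
    rw [Nat.cast_prod, Finset.prod_div_distrib, Finset.prod_const_one, mul_one_div]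
  have hcT : ∀ j s, |cT j s| ≤ 1 := by
    intro j s
    unfold cT
    split_ifs
    · rw [abs_pow, abs_neg, abs_one, one_pow]
    · simp
  have hcE : ∀ j s, |cE j s| ≤ 1 := by
    intro j s
    unfold cE
    split_ifs <;> simp
  have hFs : ∀ j, ∀ s ∈ Fam (B j) (t j), s ⊆ B j := by
    intro j s hs
    unfold Fam at hs
    rw [Finset.mem_filter, Finset.mem_powerset] at hs
    exact hs.1
  have hGF : ∏ j ∈ range K, ((Fam (B j) (t j)).card : ℝ) ≤ G := by
    apply Finset.prod_le_prod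
    · intro j _; positivity
    · intro j _
      have := card_Fam (B j) (t j)
      exact_mod_cast this
  -- main term
  have main1 : (k : ℝ) * ∏ j ∈ range K, MT j - G ≤
      ∑ n ∈ Ioc m (m + k), ∏ j ∈ range K, T (B j) (t j) (ind n) := by
    have h1 := good B hB hdisj (fun j s => cT (t j) s) (fun j s => hcT (t j) s)
      (fun j => Fam (B j) (t j)) hFs m k K 1 one_pos (fun j _ p _ => Nat.coprime_one_left p)
    simp only [one_dvd, if_true, Nat.cast_one, div_one] at h1
    have h2 : ∑ n ∈ Ioc m (m + k), ∏ j ∈ range K, T (B j) (t j) (ind n) =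
        ∑ n ∈ Ioc m (m + k), ∏ j ∈ range K, ∑ s ∈ Fam (B j) (t j),
          cT (t j) s * (if ∏ p ∈ s, p ∣ n then 1 else 0) := by
      apply Finset.sum_congr rfl
      intro n _
      apply Finset.prod_congr rfl
      intro j _
      exact hgT j n
    have h3 : ∏ j ∈ range K, MT j =
        ∏ j ∈ range K, ∑ s ∈ Fam (B j) (t j), cT (t j) s / ((∏ p ∈ s, p : ℕ) : ℝ) :=
      Finset.prod_congr rfl fun j _ => hmT j
    rw [h2, h3]
    have h4 := (abs_le.1 h1).1
    linarith
  have main2 : ∀ i ∈ range K,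
      ∑ n ∈ Ioc m (m + k), ∏ j ∈ range K,
        (if j = i then E (B j) (t j + 1) (ind n) else T (B j) (t j) (ind n)) ≤
      (k : ℝ) * (ε i * ∏ j ∈ range K, MT j) + G := by
    intro i hi
    have h1 := good B hB hdisj (fun j s => if j = i then cE (t j) s else cT (t j) s)
      (fun j s => by
        by_cases h : j = i
        · simp only [h, if_true]; exact hcE _ s
        · simp only [h, if_false]; exact hcT _ s)
      (fun j => Fam (B j) (t j)) hFs m k K 1 one_pos (fun j _ p _ => Nat.coprime_one_left p)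
    simp only [one_dvd, if_true, Nat.cast_one, div_one] at h1
    have h2 : ∑ n ∈ Ioc m (m + k), ∏ j ∈ range K,
        (if j = i then E (B j) (t j + 1) (ind n) else T (B j) (t j) (ind n)) =
        ∑ n ∈ Ioc m (m + k), ∏ j ∈ range K, ∑ s ∈ Fam (B j) (t j),
          (if j = i then cE (t j) s else cT (t j) s) * (if ∏ p ∈ s, p ∣ n then 1 else 0) := by
      apply Finset.sum_congr rfl
      intro n _
      apply Finset.prod_congr rfl
      intro j _
      by_cases h : j = i
      · simp only [if_pos h]; exact hgE j n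
      · simp only [if_neg h]; exact hgT j n
    have h3 : ∏ j ∈ range K, (if j = i then ME j else MT j) =
        ∏ j ∈ range K, ∑ s ∈ Fam (B j) (t j),
          (if j = i then cE (t j) s else cT (t j) s) / ((∏ p ∈ s, p : ℕ) : ℝ) := by
      apply Finset.prod_congr rfl
      intro j _
      by_cases h : j = i
      · simp only [if_pos h]; exact hmE j
      · simp only [if_neg h]; exact hmT j
    have h4 : ∏ j ∈ range K, (if j = i then ME j else MT j) ≤ ε i * ∏ j ∈ range K, MT j := by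
      rw [← Finset.mul_prod_erase (range K) _ hi, ← Finset.mul_prod_erase (range K) MT hi,
        if_pos rfl, ← mul_assoc]
      have h5 : ∏ x ∈ (range K).erase i, (if x = i then ME x else MT x) =
          ∏ x ∈ (range K).erase i, MT x := by
        apply Finset.prod_congr rfl
        intro x hx
        rw [if_neg (Finset.ne_of_mem_erase hx)]
      rw [h5]
      apply mul_le_mul_of_nonneg_right (hε i (Finset.mem_range.1 hi))
      exact Finset.prod_nonneg fun x _ => hMTnn x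
    rw [h2]
    have h6 := (abs_le.1 h1).2
    rw [← h3] at h6
    have h7 : (k : ℝ) * ∏ j ∈ range K, (if j = i then ME j else MT j) ≤
        (k : ℝ) * (ε i * ∏ j ∈ range K, MT j) := mul_le_mul_of_nonneg_left h4 (Nat.cast_nonneg k)
    linarith
  -- pointwise inequality
  have hpt : ∀ n, ∏ j ∈ range K, T (B j) (t j) (ind n) - ∑ i ∈ range K, ∏ j ∈ range K,
        (if j = i then E (B j) (t j + 1) (ind n) else T (B j) (t j) (ind n)) ≤
      if (∀ j < K, ∀ p ∈ B j, ¬ p ∣ n) then 1 else 0 := by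
    intro n
    have h1 := hooley K (fun j => T (B j) (t j) (ind n)) (fun j => ∏ i ∈ B j, (1 - ind n i))
      (fun j => E (B j) (t j + 1) (ind n))
      (fun j => Finset.prod_nonneg fun i _ => by have := ind_le_one n i; linarith)
      (fun j => (bonferroni (ind n) (B j) (fun i _ => ⟨ind_nonneg n i, ind_le_one n i⟩)).1 _ (ht j))
      (fun j => T_sub_le (ind n) (B j) (fun i _ => ⟨ind_nonneg n i, ind_le_one n i⟩) _ (ht j))
    refine le_trans h1 ?_
    split_ifs with h
    · apply Finset.prod_le_one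
      · intro j _
        exact Finset.prod_nonneg fun i _ => by have := ind_le_one n i; linarith
      · intro j _
        apply Finset.prod_le_one
        · intro i _; have := ind_le_one n i; linarith
        · intro i _; have := ind_nonneg n i; linarith
    · push Not at h
      obtain ⟨j, hj, p, hp, hpn⟩ := h
      apply le_of_eq
      apply Finset.prod_eq_zero (Finset.mem_range.2 hj)
      apply Finset.prod_eq_zero hp
      unfold ind
      rw [if_pos hpn]; ring
  have hsum := Finset.sum_le_sum fun n (_ : n ∈ Ioc m (m + k)) => hpt n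
  rw [Finset.sum_sub_distrib, Finset.sum_comm (s := Ioc m (m + k)) (t := range K)] at hsum
  have h8 := Finset.sum_le_sum main2
  rw [Finset.sum_add_distrib, Finset.sum_const, Finset.card_range, nsmul_eq_mul,
    ← Finset.mul_sum, ← Finset.sum_mul] at h8
  rw [Finset.card_filter]
  push_cast
  have h9 : (k : ℝ) * (∏ j ∈ range K, MT j) * (1 - ∑ i ∈ range K, ε i) =
      (k : ℝ) * ∏ j ∈ range K, MT j - (k : ℝ) * ((∑ i ∈ range K, ε i) * ∏ j ∈ range K, MT j) := by
    ring
  rw [h9]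
  linarith

/-! ### Prime blocks -/

/-- Primes in `[2^i, 2^(i+1))`. -/
def Pr (i : ℕ) : Finset ℕ := (range (2 ^ (i + 1))).filter (fun p => p.Prime ∧ 2 ^ i ≤ p)

theorem Pr_card (i : ℕ) : i * (Pr i).card ≤ 2 ^ (i + 2) := by
  have h1 : (2 ^ i) ^ (Pr i).card ≤ ∏ p ∈ Pr i, p := by
    rw [← Finset.prod_const]
    apply Finset.prod_le_prod'
    intro p hp
    unfold Pr at hp
    rw [Finset.mem_filter] at hp
    exact hp.2.2
  have h2 : ∏ p ∈ Pr i, p ≤ primorial (2 ^ (i + 1)) := by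
    rw [primorial]
    apply Finset.prod_le_prod_of_subset_of_one_le'
    · intro p hp
      unfold Pr at hp
      rw [Finset.mem_filter, Finset.mem_range] at hp
      rw [Finset.mem_filter, Finset.mem_range]
      exact ⟨by omega, hp.2.1⟩
    · intro p hp _
      rw [Finset.mem_filter] at hp
      exact hp.2.one_le
  have h3 := primorial_le_four_pow (2 ^ (i + 1))
  have h4 : (4 : ℕ) ^ 2 ^ (i + 1) = 2 ^ 2 ^ (i + 2) := by
    rw [show (4 : ℕ) = 2 ^ 2 by norm_num, ← pow_mul]
    congr 1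
    ring
  have h5 : 2 ^ (i * (Pr i).card) ≤ 2 ^ 2 ^ (i + 2) := by
    rw [pow_mul]
    calc _ ≤ _ := h1
      _ ≤ _ := h2
      _ ≤ _ := h3
      _ = _ := h4
  exact (Nat.pow_le_pow_iff_right (by norm_num)).1 h5

theorem Pr_sum (i : ℕ) (hi : 0 < i) : ∑ p ∈ Pr i, 1 / (p : ℝ) ≤ 4 / i := by
  have h1 : ∑ p ∈ Pr i, 1 / (p : ℝ) ≤ ∑ p ∈ Pr i, 1 / (2 ^ i : ℝ) := by
    apply Finset.sum_le_sum
    intro p hp
    unfold Pr at hp
    rw [Finset.mem_filter] at hp
    apply one_div_le_one_div_of_le (by positivity)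
    exact_mod_cast hp.2.2
  refine h1.trans ?_
  rw [Finset.sum_const, nsmul_eq_mul, mul_one_div, div_le_div_iff₀ (by positivity)
    (by exact_mod_cast hi)]
  have h2 := Pr_card i
  have h3 : ((i * (Pr i).card : ℕ) : ℝ) ≤ ((2 ^ (i + 2) : ℕ) : ℝ) := by exact_mod_cast h2
  push_cast at h3
  rw [pow_add] at h3
  linarith

/-- Primes in `[2^(2^j), 2^(2^(j+1)))`. -/
def Bk (j : ℕ) : Finset ℕ := (range (2 ^ 2 ^ (j + 1))).filter (fun p => p.Prime ∧ 2 ^ 2 ^ j ≤ p)

theorem Bk_prime (j : ℕ) : ∀ p ∈ Bk j, p.Prime := by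
  intro p hp
  unfold Bk at hp
  rw [Finset.mem_filter] at hp
  exact hp.2.1

theorem Bk_sum (j : ℕ) : ∑ p ∈ Bk j, 1 / (p : ℝ) ≤ 4 := by
  have hmaps : ∀ p ∈ Bk j, Nat.log 2 p ∈ Ico (2 ^ j) (2 ^ (j + 1)) := by
    intro p hp
    unfold Bk at hp
    rw [Finset.mem_filter, Finset.mem_range] at hp
    have hp0 : p ≠ 0 := hp.2.1.ne_zero
    rw [Finset.mem_Ico]
    constructor
    · exact Nat.le_log_of_pow_le (by norm_num) hp.2.2
    · exact Nat.log_lt_of_lt_pow hp0 hp.1
  rw [← Finset.sum_fiberwise_of_maps_to hmaps]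
  have h1 : ∀ i ∈ Ico (2 ^ j) (2 ^ (j + 1)),
      ∑ p ∈ (Bk j).filter (fun p => Nat.log 2 p = i), 1 / (p : ℝ) ≤ 4 / 2 ^ j := by
    intro i hi
    rw [Finset.mem_Ico] at hi
    have hi0 : 0 < i := lt_of_lt_of_le (by positivity) hi.1
    have h2 : ∑ p ∈ (Bk j).filter (fun p => Nat.log 2 p = i), 1 / (p : ℝ) ≤
        ∑ p ∈ Pr i, 1 / (p : ℝ) := by
      apply Finset.sum_le_sum_of_subset_of_nonneg
      · intro p hp
        rw [Finset.mem_filter] at hp
        have hpp := Bk_prime j p hp.1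
        unfold Pr
        rw [Finset.mem_filter, Finset.mem_range]
        refine ⟨?_, hpp, ?_⟩
        · rw [← hp.2]; exact Nat.lt_pow_succ_log_self (by norm_num) p
        · rw [← hp.2]; exact Nat.pow_log_le_self 2 hpp.ne_zero
      · intro p _ _; positivity
    refine h2.trans ((Pr_sum i hi0).trans ?_)
    apply div_le_div_of_nonneg_left (by norm_num) (by positivity)
    exact_mod_cast hi.1
  refine (Finset.sum_le_sum h1).trans ?_
  rw [Finset.sum_const, Nat.card_Ico, nsmul_eq_mul]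
  have h3 : 2 ^ (j + 1) - 2 ^ j = 2 ^ j := by rw [pow_succ]; omega
  rw [h3]
  push_cast
  rw [mul_div_cancel₀ _ (by positivity)]

theorem Bk_card (j : ℕ) : (Bk j).card + 1 ≤ 2 ^ 2 ^ (j + 1) := by
  have h1 : Bk j ⊆ (range (2 ^ 2 ^ (j + 1))).erase 0 := by
    intro p hp
    have := (Bk_prime j p hp).ne_zero
    unfold Bk at hp
    rw [Finset.mem_filter] at hp
    exact Finset.mem_erase.2 ⟨this, hp.1⟩
  have h2 := Finset.card_le_card h1
  rw [Finset.card_erase_of_mem (Finset.mem_range.2 (by positivity)), Finset.card_range] at h2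
  have : 0 < 2 ^ 2 ^ (j + 1) := by positivity
  omega

theorem Bk_disj (i j : ℕ) (h : i ≠ j) : Disjoint (Bk i) (Bk j) := by
  rw [Finset.disjoint_left]
  intro p hp hp'
  unfold Bk at hp hp'
  rw [Finset.mem_filter, Finset.mem_range] at hp hp'
  have h1 : 2 ^ 2 ^ j < 2 ^ 2 ^ (i + 1) := lt_of_le_of_lt hp'.2.2 hp.1
  have h2 : 2 ^ 2 ^ i < 2 ^ 2 ^ (j + 1) := lt_of_le_of_lt hp.2.2 hp'.1
  rw [Nat.pow_lt_pow_iff_right (by norm_num), Nat.pow_lt_pow_iff_right (by norm_num)] at h1 h2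
  omega

theorem exp_bound (x : ℝ) (h0 : 0 ≤ x) (h1 : x ≤ 1 / 2) : Real.exp (-(2 * x)) ≤ 1 - x := by
  have h2 : 0 < 1 - x := by linarith
  have h3 := Real.one_sub_inv_le_log_of_pos h2
  have h4 : -(2 * x) ≤ 1 - (1 - x)⁻¹ := by
    have h5 : (1 - x)⁻¹ ≤ 1 + 2 * x := by
      rw [inv_le_iff_one_le_mul₀ h2]
      nlinarith
    linarith
  calc Real.exp (-(2 * x)) ≤ Real.exp (Real.log (1 - x)) := Real.exp_le_exp.2 (h4.trans h3)
    _ = 1 - x := Real.exp_log h2

theorem Bk_x (j : ℕ) : ∀ i ∈ Bk j, 0 ≤ (1 / (i : ℝ)) ∧ (1 / (i : ℝ)) ≤ 1 / 2 := by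
  intro i hi
  have h1 : (2 : ℝ) ≤ i := by exact_mod_cast (Bk_prime j i hi).two_le
  exact ⟨by positivity, one_div_le_one_div_of_le (by norm_num) h1⟩

theorem T_Bk (j t : ℕ) (ht : Even t) : Real.exp (-8) ≤ T (Bk j) t (fun p => 1 / (p : ℝ)) := by
  refine le_trans ?_ ((bonferroni _ (Bk j) (fun i hi => ⟨(Bk_x j i hi).1,
    (Bk_x j i hi).2.trans (by norm_num)⟩)).1 t ht)
  have h1 : Real.exp (-8) ≤ Real.exp (∑ i ∈ Bk j, -(2 * (1 / (i : ℝ)))) := by
    apply Real.exp_le_exp.2
    rw [Finset.sum_neg_distrib, ← Finset.mul_sum]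
    have := Bk_sum j
    linarith
  refine h1.trans ?_
  rw [Real.exp_sum]
  apply Finset.prod_le_prod
  · intro i _; positivity
  · intro i hi
    exact exp_bound _ (Bk_x j i hi).1 (Bk_x j i hi).2

theorem E_Bk (j t : ℕ) : 8 ^ t * E (Bk j) t (fun p => 1 / (p : ℝ)) ≤ Real.exp 32 := by
  refine (E_le _ (Bk j) (fun i hi => (Bk_x j i hi).1) t).trans ?_
  apply Real.exp_le_exp.2
  have := Bk_sum j
  linarith

theorem fsum (K : ℕ) : ∑ j ∈ range K, 2 ^ (j + 1) * (23 + 2 * (K - 1 - j)) + 50 + 4 * K =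
    50 * 2 ^ K := by
  induction K with
  | zero => simp
  | succ K ih =>
    rw [Finset.sum_range_succ]
    have h1 : ∑ j ∈ range K, 2 ^ (j + 1) * (23 + 2 * (K + 1 - 1 - j)) =
        ∑ j ∈ range K, 2 ^ (j + 1) * (23 + 2 * (K - 1 - j)) + ∑ j ∈ range K, 2 ^ (j + 1) * 2 := by
      rw [← Finset.sum_add_distrib]
      apply Finset.sum_congr rfl
      intro j hj
      have := Finset.mem_range.1 hj
      have h2 : K + 1 - 1 - j = (K - 1 - j) + 1 := by omega
      rw [h2]
      ring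
    have h3 : ∑ j ∈ range K, 2 ^ (j + 1) * 2 + 4 = 4 * 2 ^ K := by
      clear ih h1
      induction K with
      | zero => simp
      | succ K ih => rw [Finset.sum_range_succ]; rw [pow_succ (n := K)]; omega
    rw [h1]
    have h4 : K + 1 - 1 - K = 0 := by omega
    rw [h4, pow_succ]
    omega

theorem sieve_final (K m k : ℕ) :
    ∃ R ⊆ Ioc m (m + k), (∀ n ∈ R, ∀ p, p.Prime → p < 2 ^ 2 ^ K → ¬ p ∣ n) ∧
      (k : ℝ) * Real.exp (-(8 * K)) / 2 - (K + 1) * 2 ^ (50 * 2 ^ K) ≤ (R.card : ℝ) := by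
  set t : ℕ → ℕ := fun j => 22 + 2 * (K - 1 - j) with ht
  have hte : ∀ j, Even (t j) := fun j => ⟨11 + (K - 1 - j), by simp only [ht]; omega⟩
  set ε : ℕ → ℝ := fun j => Real.exp 40 / 8 ^ (t j + 1) with hεd
  have hε : ∀ j < K, E (Bk j) (t j + 1) (fun p => 1 / (p : ℝ)) ≤
      ε j * T (Bk j) (t j) (fun p => 1 / (p : ℝ)) := by
    intro j _
    have h1 := E_Bk j (t j + 1)
    have h2 := T_Bk j (t j) (hte j)
    have h3 : Real.exp 40 * Real.exp (-8) = Real.exp 32 := by
      rw [← Real.exp_add]; norm_num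
    have h4 : E (Bk j) (t j + 1) (fun p => 1 / (p : ℝ)) ≤ Real.exp 32 / 8 ^ (t j + 1) := by
      rw [le_div_iff₀ (by positivity), mul_comm]
      exact h1
    refine h4.trans ?_
    rw [← h3]
    simp only [hεd]
    rw [mul_div_right_comm]
    apply mul_le_mul_of_nonneg_left h2
    positivity
  have h1 := sieve_lower Bk Bk_prime Bk_disj t hte K m k ε hε
  have hεs : ∑ i ∈ range K, ε i ≤ 1 / 2 := by
    have hr : ∑ i ∈ range K, ε i = ∑ s ∈ range K, Real.exp 40 / 8 ^ 23 * (1 / 64) ^ s := by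
      rw [← Finset.sum_range_reflect]
      apply Finset.sum_congr rfl
      intro s hs
      have := Finset.mem_range.1 hs
      simp only [hεd, ht]
      have h2 : K - 1 - (K - 1 - s) = s := by omega
      rw [h2]
      have h3 : 22 + 2 * s + 1 = 23 + 2 * s := by ring
      rw [h3, pow_add, pow_mul]
      rw [one_div, inv_pow]
      norm_num
      field_simp
    rw [hr, ← Finset.mul_sum]
    have hg : ∑ s ∈ range K, (1 / 64 : ℝ) ^ s ≤ 2 := by
      rw [geom_sum_eq (by norm_num)]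
      have : (0 : ℝ) ≤ (1 / 64 : ℝ) ^ K := by positivity
      rw [div_le_iff_of_neg (by norm_num)]
      linarith
    have he : Real.exp 40 / 8 ^ 23 ≤ 1 / 4 := by
      have h3 : Real.exp 40 ≤ 3 ^ 40 := by
        have h4 : Real.exp 40 = Real.exp 1 ^ 40 := by rw [← Real.exp_nat_mul]; norm_num
        rw [h4]
        exact pow_le_pow_left₀ (Real.exp_pos 1).le Real.exp_one_lt_three.le 40
      rw [div_le_iff₀ (by positivity)]
      refine h3.trans ?_
      norm_num
    have he0 : 0 ≤ Real.exp 40 / 8 ^ 23 := by positivity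
    have h9 : (0 : ℝ) ≤ ∑ s ∈ range K, (1 / 64 : ℝ) ^ s :=
      Finset.sum_nonneg fun s _ => by positivity
    nlinarith
  have hPi : Real.exp (-(8 * K)) ≤ ∏ j ∈ range K, T (Bk j) (t j) (fun p => 1 / (p : ℝ)) := by
    have h2 : Real.exp (-(8 * K)) = ∏ j ∈ range K, Real.exp (-8) := by
      rw [Finset.prod_const, Finset.card_range, ← Real.exp_nat_mul]
      congr 1; ring
    rw [h2]
    apply Finset.prod_le_prod
    · intro j _; positivity
    · intro j _; exact T_Bk j (t j) (hte j)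
  have hG : ∏ j ∈ range K, (((Bk j).card + 1 : ℕ) : ℝ) ^ (t j + 1) ≤ 2 ^ (50 * 2 ^ K) := by
    have h2 : ∏ j ∈ range K, ((Bk j).card + 1) ^ (t j + 1) ≤ 2 ^ (50 * 2 ^ K) := by
      calc ∏ j ∈ range K, ((Bk j).card + 1) ^ (t j + 1)
          ≤ ∏ j ∈ range K, 2 ^ (2 ^ (j + 1) * (23 + 2 * (K - 1 - j))) := by
            apply Finset.prod_le_prod'
            intro j _
            rw [pow_mul]
            have h3 : t j + 1 = 23 + 2 * (K - 1 - j) := by simp only [ht]; omega
            rw [h3]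
            exact Nat.pow_le_pow_left (Bk_card j) _
        _ = 2 ^ (∑ j ∈ range K, 2 ^ (j + 1) * (23 + 2 * (K - 1 - j))) := by
            rw [Finset.prod_pow_eq_pow_sum]
        _ ≤ 2 ^ (50 * 2 ^ K) := by
            apply Nat.pow_le_pow_right (by norm_num)
            have := fsum K
            omega
    exact_mod_cast h2
  refine ⟨(Ioc m (m + k)).filter (fun n => ∀ j < K, ∀ p ∈ Bk j, ¬ p ∣ n),
    Finset.filter_subset _ _, ?_, ?_⟩
  · intro n hn p hp hpK
    rw [Finset.mem_filter] at hn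
    have hlp : 0 < Nat.log 2 p := Nat.log_pos (by norm_num) hp.two_le
    have e1 : 2 ^ Nat.log 2 p ≤ p := Nat.pow_log_le_self 2 hp.ne_zero
    have e2 : p < 2 ^ (Nat.log 2 p + 1) := Nat.lt_pow_succ_log_self (by norm_num) p
    have e3 : 2 ^ Nat.log 2 (Nat.log 2 p) ≤ Nat.log 2 p := Nat.pow_log_le_self 2 hlp.ne'
    have e4 : Nat.log 2 p < 2 ^ (Nat.log 2 (Nat.log 2 p) + 1) :=
      Nat.lt_pow_succ_log_self (by norm_num) _
    have e5 : Nat.log 2 p < 2 ^ K := Nat.log_lt_of_lt_pow hp.ne_zero hpK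
    apply hn.2 (Nat.log 2 (Nat.log 2 p))
    · exact (Nat.pow_lt_pow_iff_right (by norm_num : 1 < 2)).1 (lt_of_le_of_lt e3 e5)
    · unfold Bk
      rw [Finset.mem_filter, Finset.mem_range]
      refine ⟨lt_of_lt_of_le e2 (Nat.pow_le_pow_right (by norm_num) e4), hp, ?_⟩
      exact (Nat.pow_le_pow_right (by norm_num) e3).trans e1
  refine le_trans ?_ h1
  have h5 : (k : ℝ) * Real.exp (-(8 * K)) / 2 ≤
      (k : ℝ) * (∏ j ∈ range K, T (Bk j) (t j) (fun p => 1 / (p : ℝ))) *
        (1 - ∑ i ∈ range K, ε i) := by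
    have h6 : (k : ℝ) * Real.exp (-(8 * K)) ≤
        (k : ℝ) * (∏ j ∈ range K, T (Bk j) (t j) (fun p => 1 / (p : ℝ))) :=
      mul_le_mul_of_nonneg_left hPi (Nat.cast_nonneg k)
    have h7 : (0 : ℝ) ≤ (k : ℝ) * Real.exp (-(8 * K)) := by positivity
    nlinarith
  have h8 : ((K : ℝ) + 1) * ∏ j ∈ range K, (((Bk j).card + 1 : ℕ) : ℝ) ^ (t j + 1) ≤
      (K + 1) * 2 ^ (50 * 2 ^ K) := mul_le_mul_of_nonneg_left hG (by positivity)
  linarith

end Pool.Agent.H28Sieve
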