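import Mathlib
set_option autoImplicit false
open Filter Topology Metric

namespace Pool.Agent.H7Cls

/-- the closed bidisc -/
def KD : Set (ℂ × ℂ) := closedBall 0 2 ×ˢ closedBall 0 1

lemma mem_KD {z w : ℂ} : (z, w) ∈ KD ↔ ‖z‖ ≤ 2 ∧ ‖w‖ ≤ 1 := by
  simp [KD, Set.mem_prod]

lemma KD_compact : IsCompact KD := (isCompact_closedBall _ _).prod (isCompact_closedBall _ _)

/-- the function class -/
structure Cls (F : ℂ × ℂ → ℂ) : Prop where
  cont : ContinuousOn F KD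
  hz : ∀ w : ℂ, ‖w‖ ≤ 1 → DifferentiableOn ℂ (fun z => F (z, w)) (ball 0 2)
  hw : ∀ z : ℂ, ‖z‖ = 2 → DifferentiableOn ℂ (fun w => F (z, w)) (ball 0 1)

lemma Cls.const (c : ℂ) : Cls (fun _ => c) :=
  ⟨continuousOn_const, fun _ _ => differentiableOn_const _, fun _ _ => differentiableOn_const _⟩

lemma Cls.add {F G : ℂ × ℂ → ℂ} (hF : Cls F) (hG : Cls G) : Cls (fun p => F p + G p) :=
  ⟨hF.cont.add hG.cont, fun w hw => (hF.hz w hw).add (hG.hz w hw),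
    fun z hz => (hF.hw z hz).add (hG.hw z hz)⟩

lemma Cls.sub {F G : ℂ × ℂ → ℂ} (hF : Cls F) (hG : Cls G) : Cls (fun p => F p - G p) :=
  ⟨hF.cont.sub hG.cont, fun w hw => (hF.hz w hw).sub (hG.hz w hw),
    fun z hz => (hF.hw z hz).sub (hG.hw z hz)⟩

lemma Cls.mul {F G : ℂ × ℂ → ℂ} (hF : Cls F) (hG : Cls G) : Cls (fun p => F p * G p) :=
  ⟨hF.cont.mul hG.cont, fun w hw => (hF.hz w hw).mul (hG.hz w hw),
    fun z hz => (hF.hw z hz).mul (hG.hw z hz)⟩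

lemma Cls.fst : Cls (fun p => p.1) :=
  ⟨continuous_fst.continuousOn, fun _ _ => differentiableOn_id, fun _ _ => differentiableOn_const _⟩

lemma Cls.snd : Cls (fun p => p.2) :=
  ⟨continuous_snd.continuousOn, fun _ _ => differentiableOn_const _, fun _ _ => differentiableOn_id⟩

lemma Cls.rot {F : ℂ × ℂ → ℂ} (hF : Cls F) {c : ℂ} (hc : ‖c‖ = 1) :
    Cls (fun p => F (p.1, c * p.2)) := by
  refine ⟨?_, ?_, ?_⟩
  · apply hF.cont.comp (by fun_prop)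
    rintro ⟨z, w⟩ h
    rw [mem_KD] at h ⊢
    refine ⟨h.1, ?_⟩
    rw [norm_mul, hc, one_mul]; exact h.2
  · intro w hw
    exact hF.hz (c * w) (by rw [norm_mul, hc, one_mul]; exact hw)
  · intro z hz
    apply (hF.hw z hz).comp (by fun_prop)
    intro w hw
    rw [mem_ball_zero_iff] at hw ⊢
    rw [norm_mul, hc, one_mul]; exact hw

lemma Cls.diffz {F : ℂ × ℂ → ℂ} (hF : Cls F) {w : ℂ} (hw : ‖w‖ ≤ 1) :
    DiffContOnCl ℂ (fun z => F (z, w)) (ball 0 2) := by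
  refine ⟨hF.hz w hw, ?_⟩
  rw [closure_ball _ (by norm_num)]
  apply hF.cont.comp (by fun_prop)
  intro z hz
  rw [mem_closedBall_zero_iff] at hz
  exact mem_KD.mpr ⟨hz, hw⟩

lemma Cls.diffw {F : ℂ × ℂ → ℂ} (hF : Cls F) {z : ℂ} (hz : ‖z‖ = 2) :
    DiffContOnCl ℂ (fun w => F (z, w)) (ball 0 1) := by
  refine ⟨hF.hw z hz, ?_⟩
  rw [closure_ball _ (by norm_num)]
  apply hF.cont.comp (by fun_prop)
  intro w hw
  rw [mem_closedBall_zero_iff] at hw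
  exact mem_KD.mpr ⟨hz.le, hw⟩

lemma Cls.maxz {F : ℂ × ℂ → ℂ} (hF : Cls F) {w : ℂ} (hw : ‖w‖ ≤ 1) {C : ℝ}
    (h : ∀ z, ‖z‖ = 2 → ‖F (z, w)‖ ≤ C) {z : ℂ} (hz : ‖z‖ ≤ 2) : ‖F (z, w)‖ ≤ C := by
  refine Complex.norm_le_of_forall_mem_frontier_norm_le (U := ball (0:ℂ) 2) isBounded_ball
    (hF.diffz hw) (fun z hz => ?_) ?_
  · rw [frontier_ball _ (by norm_num), mem_sphere_zero_iff_norm] at hz
    exact h z hz
  · rw [closure_ball _ (by norm_num), mem_closedBall_zero_iff]; exact hz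

lemma Cls.maxw {F : ℂ × ℂ → ℂ} (hF : Cls F) {z : ℂ} (hz : ‖z‖ = 2) {C : ℝ}
    (h : ∀ w, ‖w‖ = 1 → ‖F (z, w)‖ ≤ C) {w : ℂ} (hw : ‖w‖ ≤ 1) : ‖F (z, w)‖ ≤ C := by
  refine Complex.norm_le_of_forall_mem_frontier_norm_le (U := ball (0:ℂ) 1) isBounded_ball
    (hF.diffw hz) (fun w hw => ?_) ?_
  · rw [frontier_ball _ (by norm_num), mem_sphere_zero_iff_norm] at hw
    exact h w hw
  · rw [closure_ball _ (by norm_num), mem_closedBall_zero_iff]; exact hw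

lemma Cls.max_torus {F : ℂ × ℂ → ℂ} (hF : Cls F) {C : ℝ}
    (h : ∀ z w, ‖z‖ = 2 → ‖w‖ = 1 → ‖F (z, w)‖ ≤ C) {z w : ℂ} (hz : ‖z‖ ≤ 2) (hw : ‖w‖ ≤ 1) :
    ‖F (z, w)‖ ≤ C :=
  hF.maxz hw (fun z' hz' => hF.maxw hz' (fun w' hw' => h z' w' hz' hw') hw) hz

lemma Cls.limit {F : ℕ → ℂ × ℂ → ℂ} {G : ℂ × ℂ → ℂ} (hF : ∀ n, Cls (F n))
    (h : TendstoUniformlyOn F G atTop KD) : Cls G := by
  refine ⟨h.continuousOn (Eventually.frequently (Eventually.of_forall fun n => (hF n).cont)), ?_, ?_⟩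
  · intro w hw
    have h1 : TendstoUniformlyOn (fun n z => F n (z, w)) (fun z => G (z, w)) atTop (ball 0 2) := by
      rw [Metric.tendstoUniformlyOn_iff] at h ⊢
      intro ε hε
      filter_upwards [h ε hε] with n hn z hz
      exact hn (z, w) (mem_KD.mpr ⟨(mem_ball_zero_iff.mp hz).le, hw⟩)
    exact h1.tendstoLocallyUniformlyOn.differentiableOn
      (Eventually.of_forall fun n => (hF n).hz w hw) isOpen_ball
  · intro z hz
    have h1 : TendstoUniformlyOn (fun n w => F n (z, w)) (fun w => G (z, w)) atTop (ball 0 1) := by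
      rw [Metric.tendstoUniformlyOn_iff] at h ⊢
      intro ε hε
      filter_upwards [h ε hε] with n hn w hw
      exact hn (z, w) (mem_KD.mpr ⟨hz.le, (mem_ball_zero_iff.mp hw).le⟩)
    exact h1.tendstoLocallyUniformlyOn.differentiableOn
      (Eventually.of_forall fun n => (hF n).hw z hz) isOpen_ball

/-- zero-freeness propagates. -/
lemma Cls.lower {F : ℂ × ℂ → ℂ} (hF : Cls F) {c : ℝ} (hc : 0 < c)
    (h1 : ∀ z w, ‖z‖ = 2 → ‖w‖ ≤ 1 → c ≤ ‖F (z, w)‖)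
    (h2 : ∀ z, ‖z‖ ≤ 2 → c ≤ ‖F (z, 0)‖) :
    ∀ z w, ‖z‖ ≤ 2 → ‖w‖ ≤ 1 → c ≤ ‖F (z, w)‖ := by
  set t : Set ℂ := {w | ‖w‖ ≤ 1 ∧ ∀ z, ‖z‖ ≤ 2 → c ≤ ‖F (z, w)‖} with ht
  set Z : Set (ℂ × ℂ) := {p | p ∈ KD ∧ F p = 0} with hZ
  set t' : Set ℂ := Prod.snd '' Z with ht'
  have hZc : IsCompact Z := by
    have : Z = KD ∩ F ⁻¹' {0} := by ext p; simp [hZ]
    rw [this]
    obtain ⟨u, hu, hu2⟩ := (continuousOn_iff_isClosed.mp hF.cont) {0} isClosed_singleton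
    rw [Set.inter_comm, hu2]
    exact KD_compact.inter_left hu
  have ht'c : IsClosed t' := (hZc.image continuous_snd).isClosed
  have htc : IsClosed t := by
    rw [← isSeqClosed_iff_isClosed]
    intro s w hs hsw
    have hw : ‖w‖ ≤ 1 := le_of_tendsto hsw.norm (Eventually.of_forall fun n => (hs n).1)
    refine ⟨hw, fun z hz => ?_⟩
    have h3 : Tendsto (fun n => F (z, s n)) atTop (𝓝 (F (z, w))) := by
      have h4 : Tendsto (fun n => (z, s n)) atTop (𝓝[KD] (z, w)) := by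
        rw [tendsto_nhdsWithin_iff]
        exact ⟨tendsto_const_nhds.prodMk_nhds hsw, Eventually.of_forall fun n => mem_KD.mpr ⟨hz, (hs n).1⟩⟩
      exact (hF.cont (z, w) (mem_KD.mpr ⟨hz, hw⟩)).tendsto.comp h4
    exact ge_of_tendsto h3.norm (Eventually.of_forall fun n => (hs n).2 z hz)
  have hcov : closedBall (0:ℂ) 1 ⊆ t ∪ t' := by
    intro w hw
    rw [mem_closedBall_zero_iff] at hw
    by_cases hzf : ∃ z, ‖z‖ ≤ 2 ∧ F (z, w) = 0
    · right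
      obtain ⟨z, hz, hFz⟩ := hzf
      exact ⟨(z, w), ⟨mem_KD.mpr ⟨hz, hw⟩, hFz⟩, rfl⟩
    · left
      push Not at hzf
      refine ⟨hw, fun z hz => ?_⟩
      have hd : DiffContOnCl ℂ (fun z => (F (z, w))⁻¹) (ball 0 2) := by
        apply (hF.diffz hw).inv
        intro z hz
        rw [closure_ball _ (by norm_num), mem_closedBall_zero_iff] at hz
        exact hzf z hz
      have h5 : ‖(F (z, w))⁻¹‖ ≤ c⁻¹ := by
        refine Complex.norm_le_of_forall_mem_frontier_norm_le (U := ball (0:ℂ) 2) isBounded_ball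
          hd (fun z hz => ?_) ?_
        · rw [frontier_ball _ (by norm_num), mem_sphere_zero_iff_norm] at hz
          rw [norm_inv]
          exact inv_anti₀ hc (h1 z w hz hw)
        · rw [closure_ball _ (by norm_num), mem_closedBall_zero_iff]; exact hz
      rw [norm_inv] at h5
      have h6 : 0 < ‖F (z, w)‖ := norm_pos_iff.mpr (hzf z hz)
      exact (inv_le_inv₀ h6 hc).mp h5
  have hpre : IsPreconnected (closedBall (0:ℂ) 1) := (convex_closedBall _ _).isPreconnected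
  intro z w hz hw
  by_contra hcon
  push Not at hcon
  have h0 : (closedBall (0:ℂ) 1 ∩ t).Nonempty :=
    ⟨0, by simp, by simp, h2⟩
  have hw' : w ∈ closedBall (0:ℂ) 1 := by simpa using hw
  have h1' : (closedBall (0:ℂ) 1 ∩ t').Nonempty := by
    refine ⟨w, hw', ?_⟩
    rcases hcov hw' with h | h
    · exact absurd (h.2 z hz) (not_le.mpr hcon)
    · exact h
  obtain ⟨v, _, hv1, hv2⟩ := (isPreconnected_closed_iff.mp hpre) t t' htc ht'c hcov h0 h1'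
  obtain ⟨⟨z', w'⟩, ⟨hz1, hz2⟩, rfl⟩ := hv2
  have := hv1.2 z' (mem_KD.mp hz1).1
  simp only at this
  rw [hz2, norm_zero] at this
  linarith

lemma Cls.inv {F : ℂ × ℂ → ℂ} (hF : Cls F) (h : ∀ p ∈ KD, F p ≠ 0) : Cls (fun p => (F p)⁻¹) := by
  refine ⟨hF.cont.inv₀ h, ?_, ?_⟩
  · intro w hw
    exact (hF.hz w hw).inv (fun z hz => h _ (mem_KD.mpr ⟨(mem_ball_zero_iff.mp hz).le, hw⟩))
  · intro z hz
    exact (hF.hw z hz).inv (fun w hw => h _ (mem_KD.mpr ⟨hz.le, (mem_ball_zero_iff.mp hw).le⟩))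

end Pool.Agent.H7Cls
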