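import Mathlib
set_option autoImplicit false
open Filter Topology TopologicalSpace

namespace Pool.Agent.H7Conway

section proj
variable {K : Type*} [NormedAddCommGroup K] [InnerProductSpace ℂ K] [CompleteSpace K]

/-- projections onto a decreasing sequence of closed subspaces converge strongly -/
lemma proj_antitone (S : ℕ → ClosedSubmodule ℂ K) (hS : Antitone S) (T : ClosedSubmodule ℂ K)
    (hT : ⨅ k, S k = T) (x : K) :
    Tendsto (fun k => (S k).toSubmodule.starProjection x) atTop (𝓝 (T.toSubmodule.starProjection x)) := by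
  have hmono : Monotone (fun k => ((S k).toSubmodule)ᗮ) := by
    intro i j hij
    exact Submodule.orthogonal_le (hS hij)
  have hcl : (⨆ k, ((S k).toSubmodule)ᗮ).topologicalClosure = (T.toSubmodule)ᗮ := by
    rw [← Submodule.orthogonal_orthogonal_eq_closure, ← Submodule.iInf_orthogonal]
    congr 1
    have : ∀ k, ((S k).toSubmodule)ᗮᗮ = (S k).toSubmodule := fun k =>
      Submodule.orthogonal_orthogonal _
    simp only [this]
    rw [← hT]
    ext y
    simp
  have h1 := Submodule.starProjection_tendsto_closure_iSup (fun k => ((S k).toSubmodule)ᗮ) hmono x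
  have h2 : Tendsto (fun k => x - ((S k).toSubmodule)ᗮ.starProjection x) atTop
      (𝓝 (x - (⨆ k, ((S k).toSubmodule)ᗮ).topologicalClosure.starProjection x)) :=
    tendsto_const_nhds.sub h1
  have h3 : ∀ (M : Submodule ℂ K) [M.HasOrthogonalProjection], x - Mᗮ.starProjection x = M.starProjection x := by
    intro M _
    rw [Submodule.starProjection_orthogonal']
    simp
  simp only [h3] at h2
  convert h2 using 2
  have h4 : ∀ (M N : Submodule ℂ K) [M.HasOrthogonalProjection] [N.HasOrthogonalProjection],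
      M = N → x - M.starProjection x = x - N.starProjection x := by
    intro M N _ _ h
    subst h
    rfl
  rw [h4 _ _ hcl, h3]

end proj

/-- the Baire space -/
abbrev B := ℕ → ℕ

/-- the open set `{x | k < x n}` -/
def u (n k : ℕ) : Opens B := ⟨{x | k < x n}, by
  have : {x : B | k < x n} = (fun x : B => x n) ⁻¹' (Set.Ioi k) := rfl
  rw [this]
  exact (isOpen_discrete _).preimage (continuous_apply n)⟩

lemma u_closed (n k : ℕ) : IsClosed (u n k : Set B) := by
  have : (u n k : Set B) = (fun x : B => x n) ⁻¹' (Set.Ioi k) := rfl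
  rw [this]
  exact (isClosed_discrete _).preimage (continuous_apply n)

/-- order relation on open sets -/
def Le (U W : Opens B) : Prop := (U : Set B) ∩ (closure (W : Set B))ᶜ = ∅

theorem core {K : Type*} [NormedAddCommGroup K] [InnerProductSpace ℂ K] [CompleteSpace K]
    (F : Set (ClosedSubmodule ℂ K))
    (hinf : ∀ f : ℕ → ClosedSubmodule ℂ K, (∀ n, f n ∈ F) → ⨅ n, f n ∈ F)
    (hsup : ∀ f : ℕ → ClosedSubmodule ℂ K, (∀ n, f n ∈ F) → ⨆ n, f n ∈ F)
    (hbot : ⊥ ∈ F) (htop : ⊤ ∈ F)
    (G : Opens B → ClosedSubmodule ℂ K) (hG : ∀ U, G U ∈ F) (hsurj : ∀ M ∈ F, ∃ U, G U = M)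
    (hord : ∀ U W, G U ≤ G W ↔ Le U W) : False := by
  have hle : ∀ {U W : Opens B}, U ≤ W → G U ≤ G W := by
    intro U W h
    rw [hord]
    unfold Le
    rw [← Set.subset_empty_iff]
    rintro x ⟨hx1, hx2⟩
    exact hx2 (subset_closure (h hx1))
  have hGbot : G ⊥ = ⊥ := by
    obtain ⟨W, hW⟩ := hsurj ⊥ hbot
    rw [eq_bot_iff, ← hW]
    exact hle bot_le
  have hGtop : G ⊤ = ⊤ := by
    obtain ⟨W, hW⟩ := hsurj ⊤ htop
    rw [eq_top_iff, ← hW]
    exact hle le_top
  -- a nonzero vector
  have hne : ∃ x : K, x ≠ 0 := by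
    by_contra hcon
    push Not at hcon
    have h1 : G ⊤ ≤ G ⊥ := by
      rw [hGbot]
      intro x _
      rw [hcon x]
      exact Submodule.zero_mem _
    rw [hord] at h1
    unfold Le at h1
    simp at h1
  obtain ⟨x, hx⟩ := hne
  -- the selection claim
  have claim : ∀ (c : Opens B) (n : ℕ) (δ : ℝ), 0 < δ → ∃ k,
      ‖(G (c ⊔ u n k)).toSubmodule.starProjection x - (G c).toSubmodule.starProjection x‖ < δ := by
    intro c n δ hδ
    have hanti : Antitone (fun k => G (c ⊔ u n k)) := by
      intro i j hij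
      apply hle
      apply sup_le_sup le_rfl
      intro y hy
      exact lt_of_le_of_lt hij hy
    have hinf' : ⨅ k, G (c ⊔ u n k) = G c := by
      apply le_antisymm
      · obtain ⟨W, hW⟩ := hsurj _ (hinf (fun k => G (c ⊔ u n k)) (fun k => hG _))
        rw [← hW, hord]
        unfold Le
        rw [← Set.not_nonempty_iff_eq_empty]
        rintro ⟨y, hy1, hy2⟩
        have h1 : G W ≤ G (c ⊔ u n (y n)) := by
          rw [hW]; exact iInf_le _ _
        rw [hord] at h1
        unfold Le at h1
        have h2 : y ∈ (W : Set B) ∩ (closure ((c ⊔ u n (y n) : Opens B) : Set B))ᶜ := by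
          refine ⟨hy1, ?_⟩
          rw [Opens.coe_sup, closure_union, Set.compl_union]
          refine ⟨hy2, ?_⟩
          rw [(u_closed n (y n)).closure_eq]
          intro h3
          exact lt_irrefl (y n) (show y n < y n from h3)
        rw [h1] at h2
        exact h2
      · apply le_iInf
        intro k
        exact hle le_sup_left
    have h1 := proj_antitone (fun k => G (c ⊔ u n k)) hanti (G c) hinf' x
    rw [Metric.tendsto_atTop] at h1
    obtain ⟨N, hN⟩ := h1 δ hδ
    refine ⟨N, ?_⟩
    have := hN N le_rfl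
    rwa [dist_eq_norm] at this
  -- build the sequence
  have hxn : 0 < ‖x‖ := norm_pos_iff.mpr hx
  choose kk hkk using fun (c : Opens B) (n : ℕ) => claim c n (‖x‖ / 2 * (1 / 2) ^ (n + 1)) (by positivity)
  obtain ⟨c, hc0, hcs⟩ : ∃ c : ℕ → Opens B, c 0 = ⊥ ∧ ∀ n, c (n + 1) = c n ⊔ u n (kk (c n) n) :=
    ⟨fun n => Nat.rec ⊥ (fun m cm => cm ⊔ u m (kk cm m)) n, rfl, fun n => rfl⟩
  have hbound : ∀ n, ‖(G (c n)).toSubmodule.starProjection x‖ ≤ ‖x‖ / 2 * (1 - (1 / 2) ^ n) := by
    intro n
    induction n with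
    | zero =>
      rw [hc0, hGbot]
      simp
    | succ n ih =>
      have h1 := hkk (c n) n
      rw [← hcs] at h1
      have h2 : ‖(G (c (n + 1))).toSubmodule.starProjection x‖ ≤
          ‖(G (c n)).toSubmodule.starProjection x‖ +
          ‖(G (c (n + 1))).toSubmodule.starProjection x - (G (c n)).toSubmodule.starProjection x‖ := by
        have := norm_add_le ((G (c n)).toSubmodule.starProjection x)
          ((G (c (n + 1))).toSubmodule.starProjection x - (G (c n)).toSubmodule.starProjection x)
        rwa [add_sub_cancel] at this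
      have h3 : ‖x‖ / 2 * (1 - (1 / 2 : ℝ) ^ n) + ‖x‖ / 2 * (1 / 2) ^ (n + 1) =
          ‖x‖ / 2 * (1 - (1 / 2) ^ (n + 1)) := by
        rw [pow_succ]; ring
      linarith
  have hbound2 : ∀ n, ‖(G (c n)).toSubmodule.starProjection x‖ ≤ ‖x‖ / 2 := by
    intro n
    refine (hbound n).trans ?_
    have : (0:ℝ) ≤ (1 / 2) ^ n := by positivity
    nlinarith
  have hcmono : Monotone c := by
    apply monotone_nat_of_le_succ
    intro n
    rw [hcs]
    exact le_sup_left
  have hdense : Dense (⋃ n, ((c n : Opens B) : Set B)) := by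
    rw [dense_iff_inter_open]
    intro O hO ⟨y, hy⟩
    -- find a basic neighbourhood
    obtain ⟨I, t, ht, hsub⟩ := isOpen_pi_iff.mp hO y hy
    obtain ⟨m, hm⟩ : ∃ m, m ∉ I := Infinite.exists_notMem_finset I
    refine ⟨Function.update y m (kk (c m) m + 1), hsub ?_, ?_⟩
    · intro i hi
      have : i ≠ m := fun h => hm (h ▸ hi)
      rw [Function.update_of_ne this]
      exact (ht i hi).2
    · rw [Set.mem_iUnion]
      refine ⟨m + 1, ?_⟩
      rw [hcs]
      right
      change kk (c m) m < Function.update y m (kk (c m) m + 1) m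
      rw [Function.update_self]
      exact Nat.lt_succ_self _
  have hsupG : ⨆ n, G (c n) = ⊤ := by
    obtain ⟨W, hW⟩ := hsurj _ (hsup (fun n => G (c n)) (fun n => hG _))
    rw [eq_top_iff, ← hW, ← hGtop, hord]
    unfold Le
    rw [Opens.coe_top, Set.univ_inter]
    by_contra hcon
    have hne := Set.nonempty_iff_ne_empty.mpr hcon
    obtain ⟨y, hy1, hy2⟩ := hdense.inter_open_nonempty _ isClosed_closure.isOpen_compl hne
    rw [Set.mem_iUnion] at hy2
    obtain ⟨n, hn⟩ := hy2
    have h1 : G (c n) ≤ G W := by rw [hW]; exact le_iSup (fun n => G (c n)) n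
    rw [hord] at h1
    have h2 : y ∈ ((c n : Opens B) : Set B) ∩ (closure (W : Set B))ᶜ := ⟨hn, hy1⟩
    unfold Le at h1
    rw [h1] at h2
    exact h2
  have hlim : Tendsto (fun n => (G (c n)).toSubmodule.starProjection x) atTop (𝓝 x) := by
    apply Submodule.starProjection_tendsto_self (fun n => (G (c n)).toSubmodule)
    · intro i j hij
      exact hle (hcmono hij)
    · intro y _
      have h1 : y ∈ ⨆ n, G (c n) := by rw [hsupG]; trivial
      rw [ClosedSubmodule.mem_iSup] at h1
      exact h1
  have h1 : ‖x‖ ≤ ‖x‖ / 2 := le_of_tendsto hlim.norm (Eventually.of_forall hbound2)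
  linarith

end Pool.Agent.H7Conway
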