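import Pool.Agent.H7Conway
set_option autoImplicit false
open Filter Topology TopologicalSpace

namespace Pool.Agent.H7Conway2
open Pool.Agent.H7Conway

/-- the Hilbert space `ℓ²(ℕ)` -/
noncomputable abbrev L2 := lp (fun _ : ℕ => ℂ) 2

lemma eval_cont (n : ℕ) : Continuous (fun x : L2 => x n) := by
  have h1 : LipschitzWith 1 (fun x : L2 => x n) := by
    apply LipschitzWith.of_dist_le_mul
    intro x y
    rw [dist_eq_norm, dist_eq_norm, NNReal.coe_one, one_mul]
    exact lp.norm_apply_le_norm (by norm_num) (x - y) n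
  exact h1.continuous

/-- coordinate subspace -/
noncomputable def coord (S : Set ℕ) : ClosedSubmodule ℂ L2 where
  carrier := {x | ∀ n, n ∉ S → x n = 0}
  add_mem' := by
    intro x y hx hy n hn
    change x n + y n = 0
    rw [hx n hn, hy n hn, add_zero]
  zero_mem' := by intro n _; rfl
  smul_mem' := by
    intro c x hx n hn
    change c • x n = 0
    rw [hx n hn, smul_zero]
  isClosed' := by
    have : {x : L2 | ∀ n, n ∉ S → x n = 0} = ⋂ (n : ℕ) (_ : n ∉ S), {x | x n = 0} := by
      ext x; simp
    change IsClosed {x : L2 | ∀ n, n ∉ S → x n = 0}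
    rw [this]
    exact isClosed_iInter fun n => isClosed_iInter fun _ => isClosed_eq (eval_cont n) continuous_const

lemma mem_coord {S : Set ℕ} {x : L2} : x ∈ coord S ↔ ∀ n, n ∉ S → x n = 0 := Iff.rfl

lemma single_mem {S : Set ℕ} {n : ℕ} (hn : n ∈ S) (a : ℂ) : lp.single 2 n a ∈ coord S := by
  rw [mem_coord]
  intro m hm
  apply lp.single_apply_ne
  rintro rfl
  exact hm hn

lemma coord_le {S T : Set ℕ} : coord S ≤ coord T ↔ S ⊆ T := by
  constructor
  · intro h n hn
    by_contra hnT
    have h1 := h (single_mem hn (1 : ℂ))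
    have h2 := (mem_coord.mp h1) n hnT
    rw [lp.single_apply_self] at h2
    exact one_ne_zero h2
  · intro h x hx n hn
    exact hx n (fun hnS => hn (h hnS))

lemma coord_inj {S T : Set ℕ} (h : coord S = coord T) : S = T :=
  Set.Subset.antisymm (coord_le.mp h.le) (coord_le.mp h.ge)

lemma coord_inf (S T : Set ℕ) : coord S ⊓ coord T = coord (S ∩ T) := by
  apply le_antisymm
  · intro x hx n hn
    rw [ClosedSubmodule.mem_inf] at hx
    by_cases h : n ∈ S
    · exact hx.2 n (fun h' => hn ⟨h, h'⟩)
    · exact hx.1 n h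
  · exact le_inf (coord_le.mpr Set.inter_subset_left) (coord_le.mpr Set.inter_subset_right)

lemma coord_sup (S T : Set ℕ) : coord S ⊔ coord T = coord (S ∪ T) := by
  apply le_antisymm
  · exact sup_le (coord_le.mpr Set.subset_union_left) (coord_le.mpr Set.subset_union_right)
  · intro x hx
    have h1 : HasSum (fun i : ℕ => lp.single 2 i (x i)) x := lp.hasSum_single (by norm_num) x
    have hcl : IsClosed ((coord S ⊔ coord T : ClosedSubmodule ℂ L2) : Set L2) :=
      (coord S ⊔ coord T).isClosed
    refine hcl.mem_of_tendsto h1 (Eventually.of_forall fun s => ?_)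
    refine Submodule.sum_mem (coord S ⊔ coord T).toSubmodule (fun i _ => ?_)
    by_cases hS : i ∈ S
    · exact (le_sup_left : coord S ≤ coord S ⊔ coord T) (single_mem hS _)
    · by_cases hT : i ∈ T
      · exact (le_sup_right : coord T ≤ coord S ⊔ coord T) (single_mem hT _)
      · have : x i = 0 := hx i (fun h => h.elim hS hT)
        rw [this]
        have h0 : lp.single 2 i (0 : ℂ) = (0 : L2) := by
          ext j
          by_cases hj : j = i
          · subst hj; rw [lp.single_apply_self]; rfl
          · rw [lp.single_apply_ne _ _ _ hj]; rfl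
        rw [h0]
        exact Submodule.zero_mem _

lemma coord_empty : coord ∅ = ⊥ := by
  rw [eq_bot_iff]
  intro x hx
  rw [ClosedSubmodule.mem_bot]
  ext n
  exact hx n (fun h => h)

lemma coord_univ : coord Set.univ = ⊤ := by
  rw [eq_top_iff]
  intro x _ n hn
  exact absurd trivial hn

/-- the embedding of open sets modulo nowhere dense sets into subsets of `ℕ` -/
lemma exists_A : ∃ A : Opens B → Set ℕ,
    (∀ U W, A (U ⊓ W) = A U ∩ A W) ∧ (∀ U W, A (U ⊔ W) = A U ∪ A W) ∧ A ⊥ = ∅ ∧
    A ⊤ = Set.univ ∧ (∀ U, ∃ U', A U' = (A U)ᶜ) ∧ (∀ U W, A U ⊆ A W ↔ Le U W) := by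
  obtain ⟨b, hbc, hbe, hb⟩ := TopologicalSpace.exists_countable_basis B
  have hbne : b.Nonempty := by
    by_contra hcon
    rw [Set.not_nonempty_iff_eq_empty] at hcon
    have := hb.sUnion_eq
    rw [hcon, Set.sUnion_empty] at this
    exact absurd (this ▸ (Set.mem_univ (fun _ => 0 : B))) (Set.notMem_empty _)
  obtain ⟨V, hV⟩ := hbc.exists_eq_range hbne
  have hVo : ∀ n, IsOpen (V n) := fun n => hb.isOpen (by rw [hV]; exact ⟨n, rfl⟩)
  have hVne : ∀ n, (V n).Nonempty := by
    intro n
    rw [Set.nonempty_iff_ne_empty]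
    intro h
    exact hbe (by rw [hV]; exact ⟨n, h⟩)
  have hNB : ∀ n, (residual B ⊓ 𝓟 (V n)).NeBot := by
    intro n
    rw [Filter.inf_principal_neBot_iff]
    intro U hU
    have h1 : Dense U := dense_of_mem_residual hU
    obtain ⟨y, hy1, hy2⟩ := h1.inter_open_nonempty _ (hVo n) (hVne n)
    exact ⟨y, hy2, hy1⟩
  choose uf huf using fun n => (⟨@Ultrafilter.of _ _ (hNB n), @Ultrafilter.of_le _ _ (hNB n)⟩ :
    ∃ uf : Ultrafilter B, (uf : Filter B) ≤ residual B ⊓ 𝓟 (V n))
  have hufV : ∀ n, V n ∈ uf n := fun n => huf n (mem_inf_of_right (mem_principal_self _))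
  have hufR : ∀ n D, IsOpen D → Dense D → D ∈ uf n := fun n D h1 h2 =>
    huf n (mem_inf_of_left (residual_of_dense_open h1 h2))
  let A : Opens B → Set ℕ := fun U => {n | (U : Set B) ∈ uf n}
  let ext : Opens B → Opens B := fun U => ⟨(closure (U : Set B))ᶜ, isClosed_closure.isOpen_compl⟩
  have hcompl : ∀ U, A (ext U) = (A U)ᶜ := by
    intro U
    ext n
    have hd : Dense ((U : Set B) ∪ (closure (U : Set B))ᶜ) := by
      intro y
      by_cases hy : y ∈ closure (U : Set B)
      · exact closure_mono Set.subset_union_left hy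
      · exact subset_closure (Or.inr hy)
    have h1 : (U : Set B) ∪ (closure (U : Set B))ᶜ ∈ uf n :=
      hufR n _ (U.isOpen.union isClosed_closure.isOpen_compl) hd
    rw [Ultrafilter.union_mem_iff] at h1
    constructor
    · intro h2 h3
      have h4 : (U : Set B) ∩ (closure (U : Set B))ᶜ ∈ uf n := (uf n).inter_sets h3 h2
      have h5 : (U : Set B) ∩ (closure (U : Set B))ᶜ = ∅ := by
        rw [← Set.subset_empty_iff]
        rintro y ⟨hy1, hy2⟩
        exact hy2 (subset_closure hy1)
      rw [h5] at h4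
      exact (uf n).empty_notMem h4
    · intro h2
      exact h1.resolve_left h2
  refine ⟨A, ?_, ?_, ?_, ?_, fun U => ⟨ext U, hcompl U⟩, ?_⟩
  · intro U W
    ext n
    exact Filter.inter_mem_iff
  · intro U W
    ext n
    exact Ultrafilter.union_mem_iff
  · ext n
    constructor
    · intro h
      exact absurd h (uf n).empty_notMem
    · intro h; exact absurd h (Set.notMem_empty n)
  · ext n
    constructor
    · intro _; trivial
    · intro _; exact Filter.univ_mem
  · intro U W
    constructor
    · intro h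
      unfold Le
      by_contra hcon
      obtain ⟨y, hy⟩ := Set.nonempty_iff_ne_empty.mpr hcon
      obtain ⟨v, hv, _, hvsub⟩ := hb.exists_subset_of_mem_open hy (U.isOpen.inter isClosed_closure.isOpen_compl)
      rw [hV] at hv
      obtain ⟨n, rfl⟩ := hv
      have h1 : (U : Set B) ∈ uf n := Filter.mem_of_superset (hufV n) (hvsub.trans Set.inter_subset_left)
      have h2 : n ∈ A (ext W) := Filter.mem_of_superset (hufV n) (hvsub.trans Set.inter_subset_right)
      rw [hcompl] at h2
      exact h2 (h h1)
    · intro h n hn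
      by_contra hcon
      have h2 : n ∈ A (ext W) := by rw [hcompl]; exact hcon
      have h3 : (U : Set B) ∩ (closure (W : Set B))ᶜ ∈ uf n := (uf n).inter_sets hn h2
      unfold Le at h
      rw [h] at h3
      exact (uf n).empty_notMem h3

end Pool.Agent.H7Conway2
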