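import Mathlib
set_option autoImplicit false
open scoped ComplexConjugate Topology
open Filter

namespace Pool.Agent.H7GNS

/-- A real function on `ℤ` which is the Gram function of a family of vectors. -/
def Gram (φ : ℤ → ℝ) : Prop :=
  ∃ (H : Type) (_ : NormedAddCommGroup H) (_ : InnerProductSpace ℂ H) (x : ℤ → H),
    ∀ m n, inner ℂ (x m) (x n) = (φ (n - m) : ℂ)

lemma Gram.symm {φ : ℤ → ℝ} (h : Gram φ) (n : ℤ) : φ (-n) = φ n := by
  obtain ⟨H, _, _, x, hx⟩ := h
  have h1 := hx 0 n
  have h2 := hx n 0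
  have h3 : inner ℂ (x n) (x 0) = conj (inner ℂ (x 0) (x n)) := (inner_conj_symm _ _).symm
  rw [h1, h2, Complex.conj_ofReal] at h3
  have := Complex.ofReal_injective h3
  simpa using this

/-- the recursion step -/
noncomputable def step (φ : ℤ → ℝ) (n : ℤ) : ℝ :=
  if n % 4 = 0 then φ (n / 4) else if n % 4 = 1 then φ (n / 4) / 2
    else if n % 4 = 3 then φ (n / 4 + 1) / 2 else 0

/-- lift to `4ℤ`. -/
noncomputable def lift4 (φ : ℤ → ℝ) (n : ℤ) : ℝ := if n % 4 = 0 then φ (n / 4) else 0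

lemma step_eq (φ : ℤ → ℝ) (n : ℤ) :
    step φ n = lift4 φ n + (lift4 φ (n + 1) + lift4 φ (n - 1)) / 2 := by
  unfold step lift4
  have h4 : n % 4 = 0 ∨ n % 4 = 1 ∨ n % 4 = 2 ∨ n % 4 = 3 := by omega
  rcases h4 with h | h | h | h
  · have h1 : (n + 1) % 4 = 1 := by omega
    have h2 : (n - 1) % 4 = 3 := by omega
    simp [h, h1, h2]
  · have h1 : (n + 1) % 4 = 2 := by omega
    have h2 : (n - 1) % 4 = 0 := by omega
    have h3 : (n - 1) / 4 = n / 4 := by omega
    simp [h, h1, h2, h3]
  · have h1 : (n + 1) % 4 = 3 := by omega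
    have h2 : (n - 1) % 4 = 1 := by omega
    simp [h, h1, h2]
  · have h1 : (n + 1) % 4 = 0 := by omega
    have h2 : (n - 1) % 4 = 2 := by omega
    have h3 : (n + 1) / 4 = n / 4 + 1 := by omega
    simp [h, h1, h2, h3]

lemma Gram.lift4 {φ : ℤ → ℝ} (h : Gram φ) : Gram (lift4 φ) := by
  obtain ⟨H, _, _, x, hx⟩ := h
  refine ⟨PiLp 2 (fun _ : Fin 4 => H), inferInstance, inferInstance,
    fun n => WithLp.toLp 2 (fun r : Fin 4 => if (r : ℤ) = n % 4 then x (n / 4) else 0), ?_⟩
  intro m n
  rw [PiLp.inner_apply]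
  simp only [Fin.sum_univ_four]
  unfold H7GNS.lift4
  have hm : m % 4 = 0 ∨ m % 4 = 1 ∨ m % 4 = 2 ∨ m % 4 = 3 := by omega
  have hn : n % 4 = 0 ∨ n % 4 = 1 ∨ n % 4 = 2 ∨ n % 4 = 3 := by omega
  have key : n % 4 = m % 4 → (n - m) / 4 = n / 4 - m / 4 := by intro h; omega
  have key2 : n % 4 ≠ m % 4 → (n - m) % 4 ≠ 0 := by intro h; omega
  have key3 : n % 4 = m % 4 → (n - m) % 4 = 0 := by intro h; omega
  rcases hm with hm | hm | hm | hm <;> rcases hn with hn | hn | hn | hn <;>
    simp [hm, hn, hx] at key key2 key3 ⊢ <;> simp_all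

lemma Gram.step {φ : ℤ → ℝ} (h : Gram φ) : Gram (step φ) := by
  obtain ⟨H, _, _, y, hy⟩ := h.lift4
  refine ⟨H, inferInstance, inferInstance, fun n => ((1 / Real.sqrt 2 : ℝ) : ℂ) • (y n + y (n + 1)), ?_⟩
  intro m n
  have h2 : (Real.sqrt 2 : ℝ) * Real.sqrt 2 = 2 := Real.mul_self_sqrt (by norm_num)
  have hs : ((1 / Real.sqrt 2 : ℝ) : ℂ) * ((1 / Real.sqrt 2 : ℝ) : ℂ) = 1 / 2 := by
    rw [← Complex.ofReal_mul]
    have : (1 / Real.sqrt 2) * (1 / Real.sqrt 2) = (1 / 2 : ℝ) := by
      rw [div_mul_div_comm, h2]; norm_num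
    rw [this]; norm_num
  rw [inner_smul_left, inner_smul_right, inner_add_left, inner_add_right, inner_add_right,
    hy, hy, hy, hy, step_eq, Complex.conj_ofReal]
  have e1 : n + 1 - m = n - m + 1 := by ring
  have e2 : n - (m + 1) = n - m - 1 := by ring
  have e3 : n + 1 - (m + 1) = n - m := by ring
  rw [e1, e2, e3, ← mul_assoc, hs]
  push_cast
  ring

/-- approximants -/
noncomputable def ph : ℕ → ℤ → ℝ
  | 0 => fun _ => 1
  | N + 1 => step (ph N)

lemma gram_ph (N : ℕ) : Gram (ph N) := by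
  induction N with
  | zero =>
    refine ⟨ℂ, inferInstance, inferInstance, fun _ => 1, ?_⟩
    intro m n
    simp [ph]
  | succ N ih => exact ih.step

lemma ph_zero (N : ℕ) : ph N 0 = 1 := by
  induction N with
  | zero => rfl
  | succ N ih => simp [ph, step, ih]

lemma ph_stable (N : ℕ) : ∀ n : ℤ, n.natAbs ≤ N → ph (N + 1) n = ph N n := by
  induction N with
  | zero =>
    intro n hn
    have : n = 0 := by omega
    subst this
    rw [ph_zero, ph_zero]
  | succ N ih =>
    intro n hn
    change step (ph (N + 1)) n = step (ph N) n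
    by_cases h0 : n = 0
    · subst h0; simp [step, ph_zero]
    unfold step
    by_cases h : n % 4 = 0
    · rw [if_pos h, if_pos h, ih _ (by omega)]
    rw [if_neg h, if_neg h]
    by_cases h1 : n % 4 = 1
    · rw [if_pos h1, if_pos h1, ih _ (by omega)]
    rw [if_neg h1, if_neg h1]
    by_cases h3 : n % 4 = 3
    · rw [if_pos h3, if_pos h3, ih _ (by omega)]
    rw [if_neg h3, if_neg h3]

/-- the Riesz product coefficient function -/
noncomputable def phi (n : ℤ) : ℝ := ph n.natAbs n

lemma ph_eq_phi (N : ℕ) (n : ℤ) (h : n.natAbs ≤ N) : ph N n = phi n := by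
  induction N, h using Nat.le_induction with
  | base => rfl
  | succ N hN ih => rw [ph_stable N n hN, ih]

lemma phi_zero : phi 0 = 1 := ph_zero _

lemma phi_eq_step (n : ℤ) : phi n = step phi n := by
  have h1 : phi n = ph (n.natAbs + 2 + 1) n := (ph_eq_phi _ _ (by omega)).symm
  rw [h1]
  change step (ph (n.natAbs + 2)) n = step phi n
  unfold step
  rw [ph_eq_phi _ (n / 4) (by omega), ph_eq_phi _ (n / 4 + 1) (by omega)]

lemma phi_four_mul (q : ℤ) : phi (4 * q) = phi q := by
  rw [phi_eq_step]; unfold step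
  rw [if_pos (by omega)]
  congr 1; omega

lemma phi_four_mul_one (q : ℤ) : phi (4 * q + 1) = phi q / 2 := by
  rw [phi_eq_step]; unfold step
  rw [if_neg (by omega), if_pos (by omega)]
  congr 2; omega

lemma phi_four_mul_two (q : ℤ) : phi (4 * q + 2) = 0 := by
  rw [phi_eq_step]; unfold step
  rw [if_neg (by omega), if_neg (by omega), if_neg (by omega)]

lemma phi_four_mul_neg_one (q : ℤ) : phi (4 * q - 1) = phi q / 2 := by
  rw [phi_eq_step]; unfold step
  rw [if_neg (by omega), if_neg (by omega), if_pos (by omega)]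
  congr 2; omega

lemma four_cases (n : ℤ) : (∃ q, n = 4 * q ∧ (n ≠ 0 → q.natAbs < n.natAbs)) ∨
    (∃ q, n = 4 * q + 1 ∧ q.natAbs < n.natAbs) ∨
    (∃ q, n = 4 * q + 2 ∧ q.natAbs < n.natAbs) ∨
    (∃ q, n = 4 * q - 1 ∧ q.natAbs < n.natAbs) := by
  have h4 : n % 4 = 0 ∨ n % 4 = 1 ∨ n % 4 = 2 ∨ n % 4 = 3 := by omega
  rcases h4 with h | h | h | h
  · left; exact ⟨n / 4, by omega, by omega⟩
  · right; left; exact ⟨n / 4, by omega, by omega⟩
  · right; right; left; exact ⟨n / 4, by omega, by omega⟩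
  · right; right; right; exact ⟨n / 4 + 1, by omega, by omega⟩

lemma phi_nonneg_le (n : ℤ) : 0 ≤ phi n ∧ phi n ≤ 1 ∧ (n ≠ 0 → phi n ≤ 1 / 2) := by
  induction h : n.natAbs using Nat.strong_induction_on generalizing n with
  | _ k ih =>
    by_cases h0 : n = 0
    · subst h0; rw [phi_zero]; norm_num
    rcases four_cases n with ⟨q, hq, hlt⟩ | ⟨q, hq, hlt⟩ | ⟨q, hq, hlt⟩ | ⟨q, hq, hlt⟩
    · have := ih _ (by have := hlt h0; omega) q rfl
      have hq0 : q ≠ 0 := by rintro rfl; simp at hq; exact h0 hq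
      rw [hq, phi_four_mul]
      refine ⟨this.1, this.2.1, fun _ => this.2.2 hq0⟩
    · have := ih _ (by omega) q rfl
      rw [hq, phi_four_mul_one]
      refine ⟨by linarith, by linarith, fun _ => by linarith⟩
    · rw [hq, phi_four_mul_two]
      norm_num
    · have := ih _ (by omega) q rfl
      rw [hq, phi_four_mul_neg_one]
      refine ⟨by linarith, by linarith, fun _ => by linarith⟩

lemma phi_pow (k : ℕ) : phi (4 ^ k) = 1 / 2 := by
  induction k with
  | zero => have := phi_four_mul_one 0; rw [phi_zero] at this; simpa using this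
  | succ k ih => rw [pow_succ, mul_comm, phi_four_mul, ih]

lemma phi_shift (n : ℤ) : ∃ K : ℕ, ∀ k ≥ K, phi (n + 4 ^ k) = phi n / 2 := by
  induction h : n.natAbs using Nat.strong_induction_on generalizing n with
  | _ k ih =>
    by_cases h0 : n = 0
    · subst h0; refine ⟨0, fun k _ => ?_⟩; rw [zero_add, phi_pow, phi_zero]
    rcases four_cases n with ⟨q, hq, hlt⟩ | ⟨q, hq, hlt⟩ | ⟨q, hq, hlt⟩ | ⟨q, hq, hlt⟩
    · obtain ⟨K, hK⟩ := ih _ (by have := hlt h0; omega) q rfl
      refine ⟨K + 1, fun k hk => ?_⟩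
      obtain ⟨j, rfl⟩ : ∃ j, k = j + 1 := ⟨k - 1, by omega⟩
      have : n + 4 ^ (j + 1) = 4 * (q + 4 ^ j) := by rw [hq]; ring
      rw [this, phi_four_mul, hK j (by omega), hq, phi_four_mul]
    · obtain ⟨K, hK⟩ := ih _ (by omega) q rfl
      refine ⟨K + 1, fun k hk => ?_⟩
      obtain ⟨j, rfl⟩ : ∃ j, k = j + 1 := ⟨k - 1, by omega⟩
      have : n + 4 ^ (j + 1) = 4 * (q + 4 ^ j) + 1 := by rw [hq]; ring
      rw [this, phi_four_mul_one, hK j (by omega), hq, phi_four_mul_one]
    · refine ⟨1, fun k hk => ?_⟩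
      obtain ⟨j, rfl⟩ : ∃ j, k = j + 1 := ⟨k - 1, by omega⟩
      have : n + 4 ^ (j + 1) = 4 * (q + 4 ^ j) + 2 := by rw [hq]; ring
      rw [this, phi_four_mul_two, hq, phi_four_mul_two]; simp
    · obtain ⟨K, hK⟩ := ih _ (by omega) q rfl
      refine ⟨K + 1, fun k hk => ?_⟩
      obtain ⟨j, rfl⟩ : ∃ j, k = j + 1 := ⟨k - 1, by omega⟩
      have : n + 4 ^ (j + 1) = 4 * (q + 4 ^ j) - 1 := by rw [hq]; ring
      rw [this, phi_four_mul_neg_one, hK j (by omega), hq, phi_four_mul_neg_one]

lemma phi_neg (n : ℤ) : phi (-n) = phi n := by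
  rw [← ph_eq_phi n.natAbs (-n) (by omega), ← ph_eq_phi n.natAbs n le_rfl]
  exact (gram_ph _).symm n

lemma Gram.nonneg {φ : ℤ → ℝ} (h : Gram φ) (c : ℤ →₀ ℂ) :
    0 ≤ (c.sum fun m a => c.sum fun n b => conj a * b * (φ (n - m) : ℂ)).re := by
  obtain ⟨H, _, _, x, hx⟩ := h
  have : (c.sum fun m a => c.sum fun n b => conj a * b * (φ (n - m) : ℂ)) =
      inner ℂ (c.sum fun m a => a • x m) (c.sum fun m a => a • x m) := by
    rw [Finsupp.sum_inner]
    apply Finsupp.sum_congr
    intro m _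
    rw [Finsupp.inner_sum]
    apply Finsupp.sum_congr
    intro n _
    rw [inner_smul_left, inner_smul_right, hx]
    ring
  rw [this]
  exact inner_self_nonneg (𝕜 := ℂ)

lemma phi_pd (c : ℤ →₀ ℂ) :
    0 ≤ (c.sum fun m a => c.sum fun n b => conj a * b * (phi (n - m) : ℂ)).re := by
  obtain ⟨N, hN⟩ : ∃ N : ℕ, ∀ m ∈ c.support, ∀ n ∈ c.support, (n - m).natAbs ≤ N := by
    refine ⟨c.support.sup (fun m => c.support.sup fun n => (n - m).natAbs), ?_⟩
    intro m hm n hn
    exact (Finset.le_sup (f := fun n => (n - m).natAbs) hn).trans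
      (Finset.le_sup (f := fun m => c.support.sup fun n => (n - m).natAbs) hm)
  have : (c.sum fun m a => c.sum fun n b => conj a * b * (phi (n - m) : ℂ)) =
      (c.sum fun m a => c.sum fun n b => conj a * b * (ph N (n - m) : ℂ)) := by
    apply Finset.sum_congr rfl
    intro m hm
    apply Finset.sum_congr rfl
    intro n hn
    beta_reduce
    rw [ph_eq_phi N _ (hN m hm n hn)]
  rw [this]
  exact (gram_ph N).nonneg c

open UniformSpace in
lemma extend_iso {E : Type} [SeminormedAddCommGroup E] [NormedSpace ℂ E] (σ : E ≃ₗᵢ[ℂ] E) :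
    ∃ U : Completion E ≃ₗᵢ[ℂ] Completion E, ∀ x : E, U (x : Completion E) = ((σ x : E) : Completion E) := by
  have hu : UniformContinuous (σ : E → E) := σ.isometry.uniformContinuous
  have hu' : UniformContinuous (σ.symm : E → E) := σ.symm.isometry.uniformContinuous
  have hc : ∀ x : E, Completion.map σ (x : Completion E) = ((σ x : E) : Completion E) :=
    fun x => Completion.map_coe hu x
  have hc' : ∀ x : E, Completion.map σ.symm (x : Completion E) = ((σ.symm x : E) : Completion E) :=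
    fun x => Completion.map_coe hu' x
  have hcont : Continuous (Completion.map (σ : E → E)) := Completion.continuous_map
  have hcont' : Continuous (Completion.map (σ.symm : E → E)) := Completion.continuous_map
  refine ⟨{ toFun := Completion.map σ
            invFun := Completion.map σ.symm
            map_add' := ?_
            map_smul' := ?_
            left_inv := ?_
            right_inv := ?_
            norm_map' := ?_ }, hc⟩
  · intro x y
    refine Completion.induction_on₂ x y (isClosed_eq (by fun_prop) (by fun_prop)) ?_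
    intro a b
    rw [← Completion.coe_add, hc, hc, hc, map_add, Completion.coe_add]
  · intro c x
    refine Completion.induction_on x (isClosed_eq ?_ ?_) ?_
    · exact hcont.comp (continuous_const_smul c)
    · exact (continuous_const_smul (RingHom.id ℂ c)).comp hcont
    intro a
    rw [← Completion.coe_smul, hc, hc, map_smul, Completion.coe_smul]
    rfl
  · intro x
    refine Completion.induction_on x (isClosed_eq (by fun_prop) (by fun_prop)) ?_
    intro a
    rw [hc, hc', σ.symm_apply_apply]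
  · intro x
    refine Completion.induction_on x (isClosed_eq (by fun_prop) (by fun_prop)) ?_
    intro a
    rw [hc', hc, σ.apply_symm_apply]
  · intro x
    change ‖Completion.map σ x‖ = ‖x‖
    refine Completion.induction_on x (isClosed_eq (by fun_prop) (by fun_prop)) ?_
    intro a
    rw [hc, Completion.norm_coe, Completion.norm_coe, σ.norm_map]

/-- sesquilinear form of `phi` -/
noncomputable def sq (c d : ℤ →₀ ℂ) : ℂ :=
  c.sum fun m a => d.sum fun n b => conj a * b * (phi (n - m) : ℂ)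

/-- the GNS core -/
@[reducible] noncomputable def core : PreInnerProductSpace.Core ℂ (ℤ →₀ ℂ) where
  inner := sq
  conj_inner_symm f g := by
    unfold sq
    rw [Finsupp.sum_comm]
    simp only [map_finsuppSum]
    apply Finsupp.sum_congr
    intro m _
    apply Finsupp.sum_congr
    intro n _
    rw [map_mul, map_mul, Complex.conj_conj, Complex.conj_ofReal, ← phi_neg, neg_sub]
    ring
  add_left f g h := by
    unfold sq
    rw [Finsupp.sum_add_index']
    · simp
    · intro a b c
      simp [← Finsupp.sum_add, add_mul]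
  smul_left f g r := by
    unfold sq
    rw [Finsupp.sum_smul_index]
    · rw [Finsupp.mul_sum]
      apply Finsupp.sum_congr
      intro m _
      rw [Finsupp.mul_sum]
      apply Finsupp.sum_congr
      intro n _
      rw [map_mul]; ring
    · simp
  re_inner_nonneg := phi_pd

lemma sq_single (m n : ℤ) : sq (Finsupp.single m 1) (Finsupp.single n 1) = (phi (n - m) : ℂ) := by
  unfold sq
  rw [Finsupp.sum_single_index, Finsupp.sum_single_index] <;> simp

open UniformSpace in
theorem gns : ∃ (H : Type) (_ : NormedAddCommGroup H) (_ : InnerProductSpace ℂ H)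
    (_ : CompleteSpace H) (U : H ≃ₗᵢ[ℂ] H) (x : ℤ → H),
    (∀ n, U (x n) = x (n + 1)) ∧ (∀ m n, inner ℂ (x m) (x n) = (phi (n - m) : ℂ)) ∧
    Dense ((Submodule.span ℂ (Set.range x) : Submodule ℂ H) : Set H) := by
  let := core
  let i1 : SeminormedAddCommGroup (ℤ →₀ ℂ) := InnerProductSpace.Core.toSeminormedAddCommGroup (𝕜 := ℂ)
  let i2 : InnerProductSpace ℂ (ℤ →₀ ℂ) := InnerProductSpace.ofCore _
  have hin : ∀ c d : ℤ →₀ ℂ, inner ℂ c d = sq c d := fun _ _ => rfl
  let e : (ℤ →₀ ℂ) ≃ₗ[ℂ] (ℤ →₀ ℂ) := Finsupp.domLCongr (Equiv.addRight (1 : ℤ))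
  have he : ∀ n (a : ℂ), e (Finsupp.single n a) = Finsupp.single (n + 1) a := by
    intro n a
    simp [e]
  have hsq : ∀ c d : ℤ →₀ ℂ, sq (e c) (e d) = sq c d := by
    intro c d
    unfold sq
    simp only [e, Finsupp.domLCongr_apply, Finsupp.domCongr_apply, Finsupp.equivMapDomain_eq_mapDomain]
    rw [Finsupp.sum_mapDomain_index_inj (Equiv.injective _)]
    apply Finsupp.sum_congr
    intro m _
    rw [Finsupp.sum_mapDomain_index_inj (Equiv.injective _)]
    apply Finsupp.sum_congr
    intro n _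
    simp
  let σ : (ℤ →₀ ℂ) ≃ₗᵢ[ℂ] (ℤ →₀ ℂ) :=
    { e with
      norm_map' := by
        intro c
        have h1 : ‖e c‖ ^ 2 = ‖c‖ ^ 2 := by
          rw [← inner_self_eq_norm_sq (𝕜 := ℂ), ← inner_self_eq_norm_sq (𝕜 := ℂ), hin, hin, hsq]
        exact (sq_eq_sq₀ (norm_nonneg _) (norm_nonneg _)).mp h1 }
  obtain ⟨U, hU⟩ := extend_iso σ
  refine ⟨Completion (ℤ →₀ ℂ), inferInstance, inferInstance, inferInstance, U,
    fun n => ((Finsupp.single n (1 : ℂ) : ℤ →₀ ℂ) : Completion (ℤ →₀ ℂ)), ?_, ?_, ?_⟩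
  · intro n
    rw [hU]
    change ((e (Finsupp.single n 1) : ℤ →₀ ℂ) : Completion (ℤ →₀ ℂ)) = _
    rw [he]
  · intro m n
    rw [Completion.inner_coe, hin, sq_single]
  · have hd : DenseRange ((↑) : (ℤ →₀ ℂ) → Completion (ℤ →₀ ℂ)) := Completion.denseRange_coe
    refine hd.mono ?_
    rintro _ ⟨c, rfl⟩
    induction c using Finsupp.induction_linear with
    | zero => exact Submodule.zero_mem _
    | add f g hf hg => rw [Completion.coe_add]; exact Submodule.add_mem _ hf hg
    | single a b =>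
      have : (Finsupp.single a b : ℤ →₀ ℂ) = b • Finsupp.single a 1 := by simp
      rw [this, Completion.coe_smul]
      exact Submodule.smul_mem _ _ (Submodule.subset_span ⟨a, rfl⟩)

end Pool.Agent.H7GNS
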