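import Mathlib
set_option autoImplicit false
open Polynomial Complex

namespace Pool.Agent.H7Lem

/-- monic Chebyshev polynomials -/
noncomputable def P : ℕ → Polynomial ℂ
  | 0 => C 2
  | 1 => X
  | n + 2 => X * P (n + 1) - C (1 / 4) * P n

lemma P_deg : ∀ n, (P (n + 1)).Monic ∧ (P (n + 1)).natDegree = n + 1 ∧ (P n).natDegree ≤ n := by
  intro n
  induction n with
  | zero => exact ⟨monic_X, natDegree_X, by simp [P]⟩
  | succ n ih =>
    obtain ⟨h1, h2, h3⟩ := ih
    have hX : (X * P (n + 1)).Monic := monic_X.mul h1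
    have hXd : (X * P (n + 1)).natDegree = n + 2 := by
      rw [natDegree_mul X_ne_zero h1.ne_zero, natDegree_X, h2]; ring
    have hCd : (C (1 / 4 : ℂ) * P n).natDegree ≤ n := (natDegree_C_mul_le _ _).trans h3
    have hlt : (C (1 / 4 : ℂ) * P n).degree < (X * P (n + 1)).degree := by
      rw [degree_eq_natDegree hX.ne_zero, hXd]
      exact lt_of_le_of_lt degree_le_natDegree (by exact_mod_cast lt_of_le_of_lt hCd (by omega))
    refine ⟨hX.sub_of_left hlt, ?_, h2.le⟩
    change (X * P (n + 1) - C (1 / 4) * P n).natDegree = n + 2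
    rw [natDegree_sub_eq_left_of_natDegree_lt (by omega), hXd]

lemma P_eval (u : ℂ) (hu : u ≠ 0) (n : ℕ) :
    (P n).eval (u + 1 / (4 * u)) = u ^ n + (1 / (4 * u)) ^ n := by
  induction n using Nat.strong_induction_on with
  | _ n ih =>
    match n with
    | 0 => simp [P]; norm_num
    | 1 => simp [P]
    | n + 2 =>
      have h1 := ih (n + 1) (by omega)
      have h2 := ih n (by omega)
      change (X * P (n + 1) - C (1 / 4) * P n).eval _ = _
      rw [eval_sub, eval_mul, eval_mul, eval_X, eval_C, h1, h2]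
      have h3 : u * (1 / (4 * u)) = 1 / 4 := by field_simp
      have h4 : ∀ a b : ℂ, a * b = 1 / 4 → (a + b) * (a ^ (n + 1) + b ^ (n + 1)) - 1 / 4 * (a ^ n + b ^ n) =
          a ^ (n + 2) + b ^ (n + 2) := by
        intro a b hab
        have : (a + b) * (a ^ (n + 1) + b ^ (n + 1)) = a ^ (n + 2) + b ^ (n + 2) + (a * b) * (a ^ n + b ^ n) := by
          ring
        rw [this, hab]; ring
      exact h4 _ _ h3

/-- the polynomial -/
noncomputable def f (n : ℕ) : Polynomial ℂ := P n + 1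

lemma f_monic (n : ℕ) (hn : 0 < n) : (f n).Monic ∧ (f n).natDegree = n := by
  obtain ⟨m, rfl⟩ : ∃ m, n = m + 1 := ⟨n - 1, by omega⟩
  obtain ⟨h1, h2, _⟩ := P_deg m
  have hlt : (1 : Polynomial ℂ).degree < (P (m + 1)).degree := by
    rw [degree_one, degree_eq_natDegree h1.ne_zero, h2]
    exact_mod_cast Nat.succ_pos m
  refine ⟨h1.add_of_left hlt, ?_⟩
  unfold f
  rw [natDegree_add_eq_left_of_natDegree_lt (by rw [natDegree_one, h2]; omega), h2]

/-- the sublevel set -/
def E (n : ℕ) : Set ℂ := {w : ℂ | ‖(f n).eval w‖ ≤ 1}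

lemma E_bounded (n : ℕ) (hn : 0 < n) : Bornology.IsBounded (E n) := by
  have hdeg : 0 < (f n).degree := by
    rw [degree_eq_natDegree (f_monic n hn).1.ne_zero, (f_monic n hn).2]
    exact_mod_cast hn
  have h1 : Filter.Tendsto (fun z : ℂ => ‖(f n).eval z‖) (Filter.cocompact ℂ) Filter.atTop :=
    Polynomial.tendsto_norm_atTop _ hdeg tendsto_norm_cocompact_atTop
  have h2 := h1.eventually (Filter.eventually_gt_atTop 1)
  rw [← Metric.cobounded_eq_cocompact, Filter.Eventually] at h2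
  have h3 : {x | 1 < ‖(f n).eval x‖} = (E n)ᶜ := by
    ext x; simp [E]
  rw [h3] at h2
  rw [Bornology.isBounded_def]
  exact h2

/-- the separating function -/
noncomputable def H (z : ℂ) : ℝ := ‖z + 1‖ - ‖z - 1‖

lemma H_cont : Continuous H := by unfold H; fun_prop

lemma H_eval (u : ℂ) (hu : u ≠ 0) : H (u + 1 / (4 * u)) = 2 * u.re / ‖u‖ := by
  unfold H
  have e1 : u + 1 / (4 * u) + 1 = (2 * u + 1) ^ 2 / (4 * u) := by field_simp; ring
  have e2 : u + 1 / (4 * u) - 1 = (2 * u - 1) ^ 2 / (4 * u) := by field_simp; ring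
  have hn : 0 < ‖u‖ := norm_pos_iff.mpr hu
  rw [e1, e2, norm_div, norm_div, norm_pow, norm_pow, norm_mul]
  have h4 : ‖(4 : ℂ)‖ = 4 := by simp
  rw [h4, ← Complex.normSq_eq_norm_sq, ← Complex.normSq_eq_norm_sq, Complex.normSq_apply, Complex.normSq_apply]
  simp
  field_simp
  ring

/-- every complex number is of the form `u + 1/(4u)` -/
lemma exists_u (z : ℂ) : ∃ u : ℂ, u ≠ 0 ∧ z = u + 1 / (4 * u) := by
  obtain ⟨θ, hθ⟩ := Complex.cos_surjective z
  refine ⟨Complex.exp (θ * I) / 2, div_ne_zero (Complex.exp_ne_zero _) two_ne_zero, ?_⟩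
  rw [← hθ, Complex.cos]
  have h1 : Complex.exp (-θ * I) = (Complex.exp (θ * I))⁻¹ := by
    rw [neg_mul, Complex.exp_neg]
  rw [h1]
  have := Complex.exp_ne_zero (θ * I)
  field_simp
  ring

/-- points on the separating hyperbolas are not in `E n` -/
lemma not_mem_E (n : ℕ) (hn : 0 < n) (m : ℕ) (z : ℂ) (hz : H z = 2 * Real.cos (2 * Real.pi * m / n)) :
    z ∉ E n := by
  obtain ⟨u, hu, rfl⟩ := exists_u z
  rw [H_eval u hu] at hz
  set θ : ℝ := 2 * Real.pi * m / n with hθ
  have hr : 0 < ‖u‖ := norm_pos_iff.mpr hu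
  have hre : u.re = ‖u‖ * Real.cos θ := by
    field_simp at hz
    linarith
  have him : u.im ^ 2 = (‖u‖ * Real.sin θ) ^ 2 := by
    have h1 : ‖u‖ ^ 2 = u.re ^ 2 + u.im ^ 2 := by
      rw [← Complex.normSq_eq_norm_sq, Complex.normSq_apply]; ring
    have h2 := Real.sin_sq_add_cos_sq θ
    rw [hre] at h1
    nlinarith
  have hexp : ∀ t : ℝ, (t = θ ∨ t = -θ) → Complex.exp (t * I) ^ n = 1 := by
    intro t ht
    rw [← Complex.exp_nat_mul]
    have hn' : (n : ℂ) ≠ 0 := by exact_mod_cast hn.ne'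
    rw [Complex.exp_eq_one_iff]
    rcases ht with rfl | rfl
    · refine ⟨m, ?_⟩
      rw [hθ]; push_cast; field_simp
    · refine ⟨-m, ?_⟩
      rw [hθ]; push_cast; field_simp
  obtain ⟨t, ht, hut⟩ : ∃ t : ℝ, (t = θ ∨ t = -θ) ∧ u = ‖u‖ * Complex.exp (t * I) := by
    rcases sq_eq_sq_iff_eq_or_eq_neg.mp him with h | h
    · refine ⟨θ, Or.inl rfl, ?_⟩
      apply Complex.ext
      · rw [Complex.re_ofReal_mul, Complex.exp_ofReal_mul_I_re]; exact hre
      · rw [Complex.im_ofReal_mul, Complex.exp_ofReal_mul_I_im]; exact h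
    · refine ⟨-θ, Or.inr rfl, ?_⟩
      apply Complex.ext
      · rw [Complex.re_ofReal_mul, Complex.exp_ofReal_mul_I_re, Real.cos_neg]; exact hre
      · rw [Complex.im_ofReal_mul, Complex.exp_ofReal_mul_I_im, Real.sin_neg, h]; ring
  have hun : u ^ n = (‖u‖ : ℂ) ^ n := by
    rw [hut, mul_pow, hexp t ht, mul_one]
    simp
  intro hmem
  have hval : (f n).eval (u + 1 / (4 * u)) = ((1 + ‖u‖ ^ n + (1 / (4 * ‖u‖)) ^ n : ℝ) : ℂ) := by
    unfold f
    rw [eval_add, eval_one, P_eval u hu, one_div_pow, mul_pow, hun]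
    push_cast
    rw [one_div_pow, mul_pow]
    ring
  unfold E at hmem
  rw [Set.mem_ofPred_eq, hval, Complex.norm_real, Real.norm_of_nonneg (by positivity)] at hmem
  have h1 : 0 < ‖u‖ ^ n := by positivity
  have h2 : 0 < (1 / (4 * ‖u‖)) ^ n := by positivity
  linarith

/-- the arc -/
noncomputable def arc (α : ℝ) (r : ℝ) : ℂ :=
  r * Complex.exp (α * I) + 1 / (4 * (r * Complex.exp (α * I)))

lemma arc_cont (α : ℝ) : ContinuousOn (arc α) (Set.Icc (1 / 4) 1) := by
  unfold arc
  apply ContinuousOn.add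
  · fun_prop
  · apply ContinuousOn.div continuousOn_const (by fun_prop)
    intro r hr
    have : (r : ℂ) ≠ 0 := by
      have : r ≠ 0 := by have := hr.1; linarith
      exact_mod_cast this
    have h2 := Complex.exp_ne_zero (α * I)
    exact mul_ne_zero (by norm_num) (mul_ne_zero this h2)

lemma arc_mem (n j : ℕ) (hn : 0 < n) (r : ℝ) (hr : r ∈ Set.Icc (1 / 4 : ℝ) 1) :
    arc ((2 * j + 1) * Real.pi / n) r ∈ E n := by
  set α : ℝ := (2 * j + 1) * Real.pi / n with hα
  have hr0 : 0 < r := by have := hr.1; linarith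
  have hrc : (r : ℂ) ≠ 0 := by exact_mod_cast hr0.ne'
  have he := Complex.exp_ne_zero (α * I)
  have hexp : Complex.exp (α * I) ^ n = -1 := by
    rw [← Complex.exp_nat_mul]
    have hn' : (n : ℂ) ≠ 0 := by exact_mod_cast hn.ne'
    have h1 : (n : ℂ) * (α * I) = j * (2 * Real.pi * I) + Real.pi * I := by
      rw [hα]; push_cast; field_simp
    rw [h1, Complex.exp_add, Complex.exp_nat_mul_two_pi_mul_I, Complex.exp_pi_mul_I, one_mul]
  unfold E arc
  rw [Set.mem_ofPred_eq]
  unfold f
  rw [eval_add, eval_one, P_eval _ (mul_ne_zero hrc he), one_div_pow, mul_pow, mul_pow, mul_pow, hexp]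
  have h1 : (r : ℂ) ^ n * -1 + 1 / (4 ^ n * ((r : ℂ) ^ n * -1)) + 1 =
      ((1 - r ^ n - 1 / (4 * r) ^ n : ℝ) : ℂ) := by
    push_cast
    rw [mul_pow]
    have h4 : (r : ℂ) ^ n ≠ 0 := pow_ne_zero _ hrc
    field_simp
    ring
  rw [h1, Complex.norm_real, Real.norm_eq_abs, abs_le]
  have h2 : r ^ n ≤ 1 := pow_le_one₀ hr0.le hr.2
  have h3 : 0 < r ^ n := by positivity
  have h4 : 1 ≤ (4 * r) ^ n := one_le_pow₀ (by have := hr.1; linarith)
  have h5 : 1 / (4 * r) ^ n ≤ 1 := by
    rw [div_le_one (by positivity)]; exact h4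
  have h6 : 0 < 1 / (4 * r) ^ n := by positivity
  constructor <;> linarith

lemma H_arc (α r : ℝ) (hr : 0 < r) : H (arc α r) = 2 * Real.cos α := by
  unfold arc
  have hrc : (r : ℂ) ≠ 0 := by exact_mod_cast hr.ne'
  rw [H_eval _ (mul_ne_zero hrc (Complex.exp_ne_zero _)), Complex.re_ofReal_mul,
    Complex.exp_ofReal_mul_I_re, norm_mul, Complex.norm_exp_ofReal_mul_I, Complex.norm_real,
    Real.norm_of_nonneg hr.le]
  field_simp

lemma arc_dist (α : ℝ) : dist (arc α 1) (arc α (1 / 4)) = |3 / 2 * Real.sin α| := by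
  have h1 : arc α 1 - arc α (1 / 4) = ((3 / 2 * Real.sin α : ℝ) : ℂ) * I := by
    have hinv : ∀ t : ℝ, 1 / Complex.exp (t * I) = Complex.exp (-t * I) := by
      intro t
      rw [neg_mul, Complex.exp_neg, one_div]
    have e1 : arc α 1 = Complex.exp (α * I) + (1 / 4) * Complex.exp (-α * I) := by
      unfold arc
      rw [← hinv]
      push_cast
      have := Complex.exp_ne_zero (α * I)
      field_simp
    have e2 : arc α (1 / 4) = (1 / 4) * Complex.exp (α * I) + Complex.exp (-α * I) := by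
      unfold arc
      rw [← hinv]
      push_cast
      have := Complex.exp_ne_zero (α * I)
      field_simp
    rw [e1, e2]
    push_cast
    have h2 : Complex.exp (α * I) = Complex.cos α + Complex.sin α * I := Complex.exp_mul_I _
    have h3 : Complex.exp (-α * I) = Complex.cos α - Complex.sin α * I := by
      rw [Complex.exp_mul_I, Complex.cos_neg, Complex.sin_neg]; ring
    rw [h2, h3]
    ring
  rw [dist_eq_norm, h1, norm_mul, Complex.norm_I, mul_one, Complex.norm_real, Real.norm_eq_abs]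

/-- angle -/
noncomputable def al (n j : ℕ) : ℝ := (2 * j + 1) * Real.pi / n

/-- the component containing the `j`-th arc -/
def comp (n j : ℕ) : Set ℂ := connectedComponentIn (E n) (arc (al n j) 1)

lemma comp_inj (k : ℕ) (hk : 0 < k) (i j : ℕ) (hj : j < 3 * k) (hij : i < j) :
    comp (6 * k) i ≠ comp (6 * k) j := by
  intro h
  have hn : 0 < 6 * k := by omega
  have hmi : arc (al (6 * k) i) 1 ∈ comp (6 * k) i :=
    mem_connectedComponentIn (arc_mem _ i hn 1 (by norm_num))
  have hmj : arc (al (6 * k) j) 1 ∈ comp (6 * k) i := by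
    rw [h]
    exact mem_connectedComponentIn (arc_mem _ j hn 1 (by norm_num))
  have hpre : IsPreconnected (comp (6 * k) i) := isPreconnected_connectedComponentIn
  have h1 := hpre.intermediate_value hmj hmi H_cont.continuousOn
  rw [H_arc _ _ one_pos, H_arc _ _ one_pos] at h1
  have hkR : (0:ℝ) < k := by exact_mod_cast hk
  have hjR : (j:ℝ) + 1 ≤ 3 * k := by exact_mod_cast hj
  have hijR : (i:ℝ) + 1 ≤ j := by exact_mod_cast hij
  have hpi := Real.pi_pos
  have hcos1 : Real.cos (2 * Real.pi * ((i + 1 : ℕ) : ℝ) / ((6 * k : ℕ) : ℝ)) ≤ Real.cos (al (6 * k) i) := by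
    apply Real.cos_le_cos_of_nonneg_of_le_pi
    · unfold al; positivity
    · push_cast
      rw [div_le_iff₀ (by positivity)]
      nlinarith
    · unfold al
      push_cast
      apply div_le_div_of_nonneg_right _ (by positivity)
      nlinarith
  have hcos2 : Real.cos (al (6 * k) j) ≤ Real.cos (2 * Real.pi * ((i + 1 : ℕ) : ℝ) / ((6 * k : ℕ) : ℝ)) := by
    apply Real.cos_le_cos_of_nonneg_of_le_pi
    · positivity
    · unfold al
      push_cast
      rw [div_le_iff₀ (by positivity)]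
      nlinarith
    · unfold al
      push_cast
      apply div_le_div_of_nonneg_right _ (by positivity)
      nlinarith
  obtain ⟨z, hz1, hz2⟩ := h1 ⟨mul_le_mul_of_nonneg_left hcos2 zero_le_two,
    mul_le_mul_of_nonneg_left hcos1 zero_le_two⟩
  exact not_mem_E (6 * k) hn (i + 1) z hz2 (connectedComponentIn_subset _ _ hz1)

lemma comp_diam (k : ℕ) (hk : 0 < k) (j : ℕ) (h1 : k ≤ j) (h2 : j < 2 * k) :
    1 + 1 / 10 < Metric.diam (comp (6 * k) j) := by
  have hn : 0 < 6 * k := by omega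
  have hkR : (0:ℝ) < k := by exact_mod_cast hk
  have h1R : (k:ℝ) ≤ j := by exact_mod_cast h1
  have h2R : (j:ℝ) + 1 ≤ 2 * k := by exact_mod_cast h2
  have hpi := Real.pi_pos
  have hsub : arc (al (6 * k) j) '' (Set.Icc (1 / 4) 1) ⊆ comp (6 * k) j := by
    apply IsPreconnected.subset_connectedComponentIn
    · exact isPreconnected_Icc.image _ (arc_cont _)
    · exact ⟨1, by norm_num, rfl⟩
    · rintro _ ⟨r, hr, rfl⟩
      exact arc_mem _ j hn r hr
  have hb : Bornology.IsBounded (comp (6 * k) j) :=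
    (E_bounded _ hn).subset (connectedComponentIn_subset _ _)
  have hd := Metric.dist_le_diam_of_mem hb (hsub ⟨1, by norm_num, rfl⟩) (hsub ⟨1 / 4, by norm_num, rfl⟩)
  rw [arc_dist] at hd
  have hsin : Real.sqrt 3 / 2 ≤ Real.sin (al (6 * k) j) := by
    have hA : Real.pi / 3 ≤ al (6 * k) j := by
      unfold al
      push_cast
      rw [div_le_div_iff₀ (by norm_num) (by positivity)]
      nlinarith
    have hB : al (6 * k) j ≤ 2 * Real.pi / 3 := by
      unfold al
      push_cast
      rw [div_le_div_iff₀ (by positivity) (by norm_num)]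
      nlinarith
    rw [← Real.sin_pi_div_three]
    rcases le_total (al (6 * k) j) (Real.pi / 2) with h | h
    · exact Real.sin_le_sin_of_le_of_le_pi_div_two (by linarith) h hA
    · rw [← Real.sin_pi_sub (al (6 * k) j)]
      exact Real.sin_le_sin_of_le_of_le_pi_div_two (by linarith) (by linarith) (by linarith)
  have h3 : (1.7 : ℝ) < Real.sqrt 3 := by
    apply Real.lt_sqrt_of_sq_lt
    norm_num
  have h4 : 3 / 2 * Real.sin (al (6 * k) j) ≤ |3 / 2 * Real.sin (al (6 * k) j)| := le_abs_self _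
  linarith

end Pool.Agent.H7Lem
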