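import Mathlib
set_option autoImplicit false

namespace Pool.Agent.H7Order

lemma list_sum_nonpos (l : List ℝ) (h : ∀ x ∈ l, x ≤ 0) : l.sum ≤ 0 := by
  induction l with
  | nil => simp
  | cons a l ih =>
    rw [List.sum_cons]
    have h1 := h a List.mem_cons_self
    have h2 := ih (fun x hx => h x (List.mem_cons_of_mem _ hx))
    linarith

lemma norm_le_re_im {𝕜 : Type*} [RCLike 𝕜] (z : 𝕜) : ‖z‖ ≤ |RCLike.re z| + |RCLike.im z| := by
  have h : ‖z‖ ^ 2 = RCLike.re z * RCLike.re z + RCLike.im z * RCLike.im z := by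
    rw [← RCLike.normSq_eq_def', RCLike.normSq_apply]
  have h2 : ‖z‖ ^ 2 ≤ (|RCLike.re z| + |RCLike.im z|) ^ 2 := by
    rw [h]
    nlinarith [abs_mul_abs_self (RCLike.re z), abs_mul_abs_self (RCLike.im z),
      mul_nonneg (abs_nonneg (RCLike.re z)) (abs_nonneg (RCLike.im z))]
  exact (pow_le_pow_iff_left₀ (norm_nonneg _) (by positivity) two_ne_zero).mp h2

/-- one-dimensional greedy ordering -/
lemma greedy1 {ι : Type*} [DecidableEq ι] (v : ι → ℝ) (δ lo hi T : ℝ)
    (hlo : lo ≤ T - δ) (hhi : T + δ ≤ hi) :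
    ∀ (n : ℕ) (s : Finset ι) (c : ℝ), s.card = n → (∀ i ∈ s, |v i| ≤ δ) → c + ∑ i ∈ s, v i = T →
      lo ≤ c → c ≤ hi →
      ∃ l : List ι, l.Nodup ∧ l.toFinset = s ∧
        ∀ k, lo ≤ c + ((l.take k).map v).sum ∧ c + ((l.take k).map v).sum ≤ hi := by
  intro n
  induction n with
  | zero =>
    intro s c hs hv hsum h1 h2
    have : s = ∅ := Finset.card_eq_zero.mp hs
    subst this
    refine ⟨[], by simp, by simp, ?_⟩
    intro k
    simp [h1, h2]
  | succ n ih =>
    intro s c hs hv hsum h1 h2
    have hne : s.Nonempty := by rw [← Finset.card_pos]; omega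
    -- choose the element
    obtain ⟨a, ha, hca⟩ : ∃ a ∈ s, lo ≤ c + v a ∧ c + v a ≤ hi := by
      rcases le_total 0 (∑ i ∈ s, v i) with hr | hr
      · obtain ⟨a, ha, hva⟩ : ∃ a ∈ s, 0 ≤ v a := by
          by_contra hcon
          push Not at hcon
          have := Finset.sum_neg hcon hne
          linarith
        refine ⟨a, ha, by linarith, ?_⟩
        have := (abs_le.mp (hv a ha)).2
        linarith
      · obtain ⟨a, ha, hva⟩ : ∃ a ∈ s, v a ≤ 0 := by
          by_contra hcon
          push Not at hcon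
          have := Finset.sum_pos hcon hne
          linarith
        refine ⟨a, ha, ?_, by linarith⟩
        have := (abs_le.mp (hv a ha)).1
        linarith
    obtain ⟨l, hl1, hl2, hl3⟩ := ih (s.erase a) (c + v a)
      (by rw [Finset.card_erase_of_mem ha, hs]; rfl)
      (fun i hi => hv i (Finset.mem_of_mem_erase hi))
      (by rw [add_assoc, Finset.add_sum_erase _ _ ha, hsum]) hca.1 hca.2
    refine ⟨a :: l, ?_, ?_, ?_⟩
    · refine List.nodup_cons.mpr ⟨?_, hl1⟩
      intro h
      have : a ∈ l.toFinset := List.mem_toFinset.mpr h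
      rw [hl2] at this
      exact Finset.notMem_erase _ _ this
    · rw [List.toFinset_cons, hl2, Finset.insert_erase ha]
    · intro k
      rcases k with _ | k
      · simp [h1, h2]
      · have := hl3 k
        simp only [List.take_succ_cons, List.map_cons, List.sum_cons]
        rw [← add_assoc]
        exact this

/-- merging lemma -/
lemma merge {ι : Type*} (u : ι → ℝ) (δ lo hi T : ℝ)
    (hlo : lo ≤ T - δ) (hhi : T + δ ≤ hi) (hδ : 0 ≤ δ) :
    ∀ (n : ℕ) (A B : List ι) (c : ℝ), A.length + B.length = n → (∀ i ∈ A, 0 ≤ u i ∧ u i ≤ δ) →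
      (∀ i ∈ B, -δ ≤ u i ∧ u i ≤ 0) → c + (A.map u).sum + (B.map u).sum = T →
      lo ≤ c → c ≤ hi →
      ∃ l : List ι, l.Perm (A ++ B) ∧
        ∀ k, ∃ i j, (l.take k).Perm (A.take i ++ B.take j) ∧
          lo ≤ c + ((l.take k).map u).sum ∧ c + ((l.take k).map u).sum ≤ hi := by
  intro n
  induction n with
  | zero =>
    intro A B c hn hA hB hsum h1 h2
    have hA0 : A = [] := List.length_eq_zero_iff.mp (by omega)
    have hB0 : B = [] := List.length_eq_zero_iff.mp (by omega)
    subst hA0 hB0
    refine ⟨[], by simp, ?_⟩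
    intro k
    exact ⟨0, 0, by simp, by simpa using h1, by simpa using h2⟩
  | succ n ih =>
    intro A B c hn hA hB hsum h1 h2
    have hBnonpos : (B.map u).sum ≤ 0 := by
      apply list_sum_nonpos
      intro x hx
      obtain ⟨i, hi, rfl⟩ := List.mem_map.mp hx
      exact (hB i hi).2
    have hAnonneg : 0 ≤ (A.map u).sum := by
      apply List.sum_nonneg
      intro x hx
      obtain ⟨i, hi, rfl⟩ := List.mem_map.mp hx
      exact (hA i hi).1
    -- pick from A
    have pickA : ∀ (a : ι) (A' : List ι), A = a :: A' → c + u a ≤ hi →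
        ∃ l : List ι, l.Perm (A ++ B) ∧
        ∀ k, ∃ i j, (l.take k).Perm (A.take i ++ B.take j) ∧
          lo ≤ c + ((l.take k).map u).sum ∧ c + ((l.take k).map u).sum ≤ hi := by
      intro a A' hAA hc
      subst hAA
      obtain ⟨l, hl1, hl2⟩ := ih A' B (c + u a) (by simp at hn; omega)
        (fun i hi => hA i (List.mem_cons_of_mem _ hi)) hB
        (by rw [List.map_cons, List.sum_cons] at hsum; linarith)
        (by have := (hA a List.mem_cons_self).1; linarith) hc
      refine ⟨a :: l, ?_, ?_⟩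
      · rw [List.cons_append]; exact hl1.cons a
      · intro k
        rcases k with _ | k
        · exact ⟨0, 0, by simp, by simpa using h1, by simpa using h2⟩
        · obtain ⟨i, j, hp, hb1, hb2⟩ := hl2 k
          refine ⟨i + 1, j, ?_, ?_, ?_⟩
          · simp only [List.take_succ_cons, List.cons_append]
            exact hp.cons a
          · simp only [List.take_succ_cons, List.map_cons, List.sum_cons]
            linarith
          · simp only [List.take_succ_cons, List.map_cons, List.sum_cons]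
            linarith
    have pickB : ∀ (b : ι) (B' : List ι), B = b :: B' → lo ≤ c + u b →
        ∃ l : List ι, l.Perm (A ++ B) ∧
        ∀ k, ∃ i j, (l.take k).Perm (A.take i ++ B.take j) ∧
          lo ≤ c + ((l.take k).map u).sum ∧ c + ((l.take k).map u).sum ≤ hi := by
      intro b B' hBB hc
      subst hBB
      obtain ⟨l, hl1, hl2⟩ := ih A B' (c + u b) (by simp at hn; omega) hA
        (fun i hi => hB i (List.mem_cons_of_mem _ hi))
        (by rw [List.map_cons, List.sum_cons] at hsum; linarith) hc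
        (by have := (hB b List.mem_cons_self).2; linarith)
      refine ⟨b :: l, ?_, ?_⟩
      · exact (hl1.cons b).trans List.perm_middle.symm
      · intro k
        rcases k with _ | k
        · exact ⟨0, 0, by simp, by simpa using h1, by simpa using h2⟩
        · obtain ⟨i, j, hp, hb1, hb2⟩ := hl2 k
          refine ⟨i, j + 1, ?_, ?_, ?_⟩
          · simp only [List.take_succ_cons]
            exact (hp.cons b).trans List.perm_middle.symm
          · simp only [List.take_succ_cons, List.map_cons, List.sum_cons]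
            linarith
          · simp only [List.take_succ_cons, List.map_cons, List.sum_cons]
            linarith
    rcases A with _ | ⟨a, A'⟩
    · rcases B with _ | ⟨b, B'⟩
      · simp at hn
      · apply pickB b B' rfl
        rw [List.map_nil, List.sum_nil, List.map_cons, List.sum_cons] at hsum
        have : (B'.map u).sum ≤ 0 := by
          apply list_sum_nonpos
          intro x hx
          obtain ⟨i, hi, rfl⟩ := List.mem_map.mp hx
          exact (hB i (List.mem_cons_of_mem _ hi)).2
        linarith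
    · rcases B with _ | ⟨b, B'⟩
      · apply pickA a A' rfl
        rw [List.map_nil, List.sum_nil, List.map_cons, List.sum_cons] at hsum
        have : 0 ≤ (A'.map u).sum := by
          apply List.sum_nonneg
          intro x hx
          obtain ⟨i, hi, rfl⟩ := List.mem_map.mp hx
          exact (hA i (List.mem_cons_of_mem _ hi)).1
        linarith
      · rcases le_total c T with hcT | hcT
        · apply pickA a A' rfl
          have := (hA a List.mem_cons_self).2
          linarith
        · apply pickB b B' rfl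
          have := (hB b List.mem_cons_self).1
          linarith

/-- two-dimensional (Steinitz) ordering lemma -/
lemma order2 {𝕜 : Type*} [RCLike 𝕜] {ι : Type*} [DecidableEq ι] (v : ι → 𝕜) (s : Finset ι) (δ : ℝ)
    (hδ : 0 ≤ δ) (hv : ∀ i ∈ s, ‖v i‖ ≤ δ) :
    ∃ l : List ι, l.Nodup ∧ l.toFinset = s ∧
      ∀ k, ‖((l.take k).map v).sum‖ ≤ 3 * δ + 2 * ‖∑ i ∈ s, v i‖ := by
  obtain ⟨A, hA, hmax⟩ := Finset.exists_max_image s.powerset (fun A => ‖∑ i ∈ A, v i‖)
    ⟨∅, Finset.empty_mem_powerset s⟩
  rw [Finset.mem_powerset] at hA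
  set L := ∑ i ∈ A, v i with hL
  set S := ∑ i ∈ s, v i with hS
  by_cases hL0 : L = 0
  · have hz : ∀ i ∈ s, v i = 0 := by
      intro i hi
      have := hmax {i} (by simpa using hi)
      rw [Finset.sum_singleton, hL0, norm_zero] at this
      exact norm_le_zero_iff.mp this
    refine ⟨s.toList, s.nodup_toList, by simp, ?_⟩
    intro k
    have : ((s.toList.take k).map v).sum = 0 := by
      apply List.sum_eq_zero
      intro x hx
      obtain ⟨i, hi, rfl⟩ := List.mem_map.mp hx
      exact hz i (by simpa using List.mem_of_mem_take hi)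
    rw [this, norm_zero]
    positivity
  have hLn : 0 < ‖L‖ := norm_pos_iff.mpr hL0
  set e : 𝕜 := (starRingEnd 𝕜 L) / (‖L‖ : 𝕜) with he
  have hen : ‖e‖ = 1 := by
    rw [he, norm_div, RCLike.norm_conj, RCLike.norm_ofReal, abs_of_pos hLn, div_self hLn.ne']
  have heL : e * L = (‖L‖ : 𝕜) := by
    have hne : ((‖L‖ : ℝ) : 𝕜) ≠ 0 := by exact_mod_cast hLn.ne'
    rw [he, div_mul_eq_mul_div, RCLike.conj_mul, sq, mul_div_assoc, div_self hne, mul_one]
  set u : ι → ℝ := fun i => RCLike.re (e * v i) with hu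
  set t : ι → ℝ := fun i => RCLike.im (e * v i) with ht
  have hnv : ∀ i, ‖e * v i‖ = ‖v i‖ := by intro i; rw [norm_mul, hen, one_mul]
  have hu_le : ∀ i ∈ s, |u i| ≤ δ := fun i hi =>
    (RCLike.abs_re_le_norm _).trans (by rw [hnv]; exact hv i hi)
  have ht_le : ∀ i ∈ s, |t i| ≤ δ := fun i hi =>
    (RCLike.abs_im_le_norm _).trans (by rw [hnv]; exact hv i hi)
  have hkey : ∀ z : 𝕜, ‖L + z‖ ≤ ‖L‖ → RCLike.re (e * z) ≤ 0 := by
    intro z hz
    have h1 : ‖e * (L + z)‖ ≤ ‖L‖ := by rwa [norm_mul, hen, one_mul]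
    rw [mul_add, heL] at h1
    have h2 : ‖(‖L‖ : 𝕜) + e * z‖ ^ 2 ≤ ‖L‖ ^ 2 := by
      exact pow_le_pow_left₀ (norm_nonneg _) h1 2
    rw [← RCLike.normSq_eq_def', RCLike.normSq_apply] at h2
    simp only [map_add, RCLike.ofReal_re, RCLike.ofReal_im, zero_add] at h2
    nlinarith [sq_nonneg (RCLike.re (e * z)), sq_nonneg (RCLike.im (e * z))]
  have huA : ∀ i ∈ A, 0 ≤ u i := by
    intro i hi
    have h1 := hmax (A.erase i) (by
      rw [Finset.mem_powerset]; exact (Finset.erase_subset _ _).trans hA)
    have h2 : ∑ j ∈ A.erase i, v j = L + (- v i) := by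
      rw [hL, ← Finset.add_sum_erase _ _ hi]; ring
    rw [h2] at h1
    have h3 := hkey _ h1
    rw [mul_neg, map_neg] at h3
    simp only [hu]; linarith
  have huB : ∀ i ∈ s \ A, u i ≤ 0 := by
    intro i hi
    rw [Finset.mem_sdiff] at hi
    have h1 := hmax (insert i A) (by
      rw [Finset.mem_powerset]; exact Finset.insert_subset hi.1 hA)
    rw [Finset.sum_insert hi.2, add_comm] at h1
    exact hkey _ h1
  have htA : ∑ i ∈ A, t i = 0 := by
    simp only [ht]
    rw [← map_sum, ← Finset.mul_sum, ← hL, heL, RCLike.ofReal_im]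
  have hsd : ∀ f : ι → ℝ, ∑ i ∈ s \ A, f i + ∑ i ∈ A, f i = ∑ i ∈ s, f i :=
    fun f => Finset.sum_sdiff hA
  have htS : ∑ i ∈ s \ A, t i = RCLike.im (e * S) := by
    have := hsd t
    rw [htA, add_zero] at this
    rw [this]
    simp only [ht]
    rw [← map_sum, ← Finset.mul_sum]
  have huS : ∑ i ∈ s, u i = RCLike.re (e * S) := by
    simp only [hu]
    rw [← map_sum, ← Finset.mul_sum]
  have hSim : |RCLike.im (e * S)| ≤ ‖S‖ := (RCLike.abs_im_le_norm _).trans
    (by rw [norm_mul, hen, one_mul])
  have hSre : |RCLike.re (e * S)| ≤ ‖S‖ := (RCLike.abs_re_le_norm _).trans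
    (by rw [norm_mul, hen, one_mul])
  obtain ⟨lA, hlA1, hlA2, hlA3⟩ := greedy1 t δ (-δ) δ 0 (by linarith) (by linarith) A.card A 0 rfl
    (fun i hi => ht_le i (hA hi)) (by rw [htA, add_zero]) (by linarith) hδ
  obtain ⟨lB, hlB1, hlB2, hlB3⟩ := greedy1 t δ (-δ - ‖S‖) (δ + ‖S‖) (RCLike.im (e * S))
    (by have := (abs_le.mp hSim).1; linarith) (by have := (abs_le.mp hSim).2; linarith)
    (s \ A).card (s \ A) 0 rfl
    (fun i hi => ht_le i (Finset.mem_sdiff.mp hi).1) (by rw [htS, zero_add])
    (by have := norm_nonneg S; linarith) (by have := norm_nonneg S; linarith)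
  have hsumlist : ∀ (l : List ι) (s : Finset ι) (f : ι → ℝ), l.Nodup → l.toFinset = s →
      (l.map f).sum = ∑ i ∈ s, f i := by
    intro l s f h1 h2
    rw [← h2, List.sum_toFinset _ h1]
  obtain ⟨l, hl1, hl2⟩ := merge u δ (-δ - ‖S‖) (δ + ‖S‖) (RCLike.re (e * S))
    (by have := (abs_le.mp hSre).1; linarith) (by have := (abs_le.mp hSre).2; linarith) hδ
    (lA.length + lB.length) lA lB 0 rfl
    (by
      intro i hi
      have hi' : i ∈ A := by rw [← hlA2]; exact List.mem_toFinset.mpr hi
      exact ⟨huA i hi', (abs_le.mp (hu_le i (hA hi'))).2⟩)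
    (by
      intro i hi
      have hi' : i ∈ s \ A := by rw [← hlB2]; exact List.mem_toFinset.mpr hi
      exact ⟨(abs_le.mp (hu_le i (Finset.mem_sdiff.mp hi').1)).1, huB i hi'⟩)
    (by
      rw [hsumlist lA A u hlA1 hlA2, hsumlist lB _ u hlB1 hlB2, ← huS, ← hsd u]; ring)
    (by have := norm_nonneg S; linarith) (by have := norm_nonneg S; linarith)
  refine ⟨l, ?_, ?_, ?_⟩
  · rw [hl1.nodup_iff, List.nodup_append']
    refine ⟨hlA1, hlB1, ?_⟩
    intro i hi1 hi2
    have h1 : i ∈ A := by rw [← hlA2]; exact List.mem_toFinset.mpr hi1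
    have h2 : i ∈ s \ A := by rw [← hlB2]; exact List.mem_toFinset.mpr hi2
    exact (Finset.mem_sdiff.mp h2).2 h1
  · rw [List.toFinset_eq_of_perm _ _ hl1, List.toFinset_append, hlA2, hlB2,
      Finset.union_sdiff_of_subset hA]
  · intro k
    obtain ⟨i, j, hp, hb1, hb2⟩ := hl2 k
    have h1 : ‖((l.take k).map v).sum‖ = ‖e * ((l.take k).map v).sum‖ := by
      rw [norm_mul, hen, one_mul]
    have hre : RCLike.re (e * ((l.take k).map v).sum) = ((l.take k).map u).sum := by
      rw [← List.sum_map_mul_left, map_list_sum, List.map_map]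
      rfl
    have him : RCLike.im (e * ((l.take k).map v).sum) = ((l.take k).map t).sum := by
      rw [← List.sum_map_mul_left, map_list_sum, List.map_map]
      rfl
    have hperm : ((l.take k).map t).sum = ((lA.take i).map t).sum + ((lB.take j).map t).sum := by
      rw [(hp.map t).sum_eq, List.map_append, List.sum_append]
    have hA3 := hlA3 i
    have hB3 := hlB3 j
    rw [zero_add] at hA3 hB3 hb1 hb2
    have h2 : ‖e * ((l.take k).map v).sum‖ ≤ |((l.take k).map u).sum| + |((l.take k).map t).sum| := by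
      rw [← hre, ← him]
      exact norm_le_re_im _
    rw [h1]
    refine h2.trans ?_
    have h3 : |((l.take k).map u).sum| ≤ δ + ‖S‖ := abs_le.mpr ⟨by linarith, by linarith⟩
    have h4 : |((l.take k).map t).sum| ≤ 2 * δ + ‖S‖ := by
      rw [hperm]
      exact abs_le.mpr ⟨by linarith [hA3.1, hB3.1], by linarith [hA3.2, hB3.2]⟩
    linarith

end Pool.Agent.H7Order
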