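import Pool.Agent.H7Order
set_option autoImplicit false
open Filter Topology BoundedContinuousFunction

namespace Pool.Agent.H7Perm

/-- dyadic block index -/
def blk (n : ℕ) : ℕ := Nat.log 2 (n + 1)

/-- dyadic block -/
def B (m : ℕ) : Finset ℕ := Finset.Ico (2 ^ m - 1) (2 ^ (m + 1) - 1)

lemma blk_eq_iff (n m : ℕ) : blk n = m ↔ 2 ^ m - 1 ≤ n ∧ n < 2 ^ (m + 1) - 1 := by
  unfold blk
  rw [Nat.log_eq_iff (by right; omega)]
  have : 0 < 2 ^ m := by positivity
  omega

lemma mem_B {n m : ℕ} : n ∈ B m ↔ blk n = m := by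
  rw [blk_eq_iff, B, Finset.mem_Ico]

lemma card_B (m : ℕ) : (B m).card = 2 ^ m := by
  rw [B, Nat.card_Ico, pow_succ]
  have : 0 < 2 ^ m := by positivity
  omega

lemma B_nonempty (m : ℕ) : (B m).Nonempty := by
  rw [← Finset.card_pos, card_B]; positivity

lemma blk_mono {a b : ℕ} (h : a ≤ b) : blk a ≤ blk b := Nat.log_mono_right (by omega)

lemma lt_of_blk_lt {a b : ℕ} (h : blk a < blk b) : a < b := by
  by_contra hc
  push Not at hc
  exact absurd (blk_mono hc) (not_le.mpr h)

lemma le_blk (M n : ℕ) (h : 2 ^ M ≤ n) : M ≤ blk n := by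
  unfold blk
  exact Nat.le_log_of_pow_le (by norm_num) (by omega)

section
variable {𝕜 : Type*} [RCLike 𝕜]

variable (𝕜) in
/-- the ambient space -/
abbrev V := (ℕ ⊕ ℕ) →ᵇ 𝕜

variable (𝕜) in
/-- the vectors -/
noncomputable def x (n : ℕ) : V 𝕜 :=
  BoundedContinuousFunction.ofNormedAddCommGroupDiscrete
    (Sum.elim (fun j => if j = n then (1 : 𝕜) else 0) (fun m => if m = blk n then (1 : 𝕜) else 0)) 1
    (by
      rintro (j | m)
      · simp only [Sum.elim_inl]; split_ifs <;> simp
      · simp only [Sum.elim_inr]; split_ifs <;> simp)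

lemma x_inl (n j : ℕ) : x 𝕜 n (Sum.inl j) = if j = n then 1 else 0 := rfl
lemma x_inr (n m : ℕ) : x 𝕜 n (Sum.inr m) = if m = blk n then 1 else 0 := rfl

lemma ps_inl (β : ℕ → 𝕜) (π : Equiv.Perm ℕ) (N j : ℕ) :
    (∑ i ∈ Finset.range N, β (π i) • x 𝕜 (π i)) (Sum.inl j) = if π.symm j < N then β j else 0 := by
  rw [BoundedContinuousFunction.sum_apply]
  have : ∀ i ∈ Finset.range N, (β (π i) • x 𝕜 (π i)) (Sum.inl j) =
      if i = π.symm j then β j else 0 := by
    intro i _
    rw [BoundedContinuousFunction.smul_apply, x_inl, smul_eq_mul]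
    by_cases h : i = π.symm j
    · subst h; simp
    · rw [if_neg h, if_neg, mul_zero]
      intro h2; apply h; rw [h2]; simp
  rw [Finset.sum_congr rfl this, Finset.sum_ite_eq']
  simp

lemma ps_inr (β : ℕ → 𝕜) (π : Equiv.Perm ℕ) (N m : ℕ) :
    (∑ i ∈ Finset.range N, β (π i) • x 𝕜 (π i)) (Sum.inr m) =
      ∑ i ∈ (Finset.range N).filter (fun i => blk (π i) = m), β (π i) := by
  rw [BoundedContinuousFunction.sum_apply, Finset.sum_filter]
  apply Finset.sum_congr rfl
  intro i _
  rw [BoundedContinuousFunction.smul_apply, x_inr, smul_eq_mul]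
  by_cases h : blk (π i) = m
  · rw [if_pos h, if_pos h.symm, mul_one]
  · rw [if_neg h, if_neg (fun h2 => h h2.symm), mul_zero]

lemma coord (β : ℕ → 𝕜) (π : Equiv.Perm ℕ) (y : V 𝕜)
    (h : Tendsto (fun N => ∑ i ∈ Finset.range N, β (π i) • x 𝕜 (π i)) atTop (𝓝 y)) (j : ℕ) :
    β j = y (Sum.inl j) := by
  have h1 := ((BoundedContinuousFunction.evalCLM 𝕜 (Sum.inl j : ℕ ⊕ ℕ) :
    V 𝕜 →L[𝕜] 𝕜).continuous.tendsto y).comp h
  have h2 : Tendsto (fun N : ℕ => (∑ i ∈ Finset.range N, β (π i) • x 𝕜 (π i)) (Sum.inl j)) atTop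
      (𝓝 (y (Sum.inl j))) := h1
  have h3 : Tendsto (fun N : ℕ => (∑ i ∈ Finset.range N, β (π i) • x 𝕜 (π i)) (Sum.inl j)) atTop
      (𝓝 (β j)) := by
    apply tendsto_const_nhds.congr'
    filter_upwards [eventually_gt_atTop (π.symm j)] with N hN
    rw [ps_inl, if_pos hN]
  exact tendsto_nhds_unique h3 h2

/-- the conditions describing the closed span -/
def P (y : V 𝕜) : Prop :=
  (∀ m, y (Sum.inr m) = ∑ n ∈ B m, y (Sum.inl n)) ∧
  (∀ ε > 0, ∃ M, ∀ m ≥ M, ‖y (Sum.inr m)‖ ≤ ε ∧ ∀ n ∈ B m, ‖y (Sum.inl n)‖ ≤ ε)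

lemma P_closure (y : V 𝕜) (hy : y ∈ (Submodule.span 𝕜 (Set.range (x 𝕜))).topologicalClosure) :
    P y := by
  have hy' : y ∈ closure ((Submodule.span 𝕜 (Set.range (x 𝕜)) : Submodule 𝕜 (V 𝕜)) : Set (V 𝕜)) := hy
  have hcont : ∀ j : ℕ ⊕ ℕ, Continuous (fun y : V 𝕜 => y j) := fun j =>
    (BoundedContinuousFunction.evalCLM 𝕜 j : V 𝕜 →L[𝕜] 𝕜).continuous
  constructor
  · intro m
    have hcl : IsClosed {y : V 𝕜 | y (Sum.inr m) = ∑ n ∈ B m, y (Sum.inl n)} :=
      isClosed_eq (hcont _) (continuous_finsetSum _ (fun n _ => hcont _))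
    refine closure_minimal ?_ hcl hy'
    intro z hz
    induction hz using Submodule.span_induction with
    | mem z hz =>
      obtain ⟨k, rfl⟩ := hz
      simp only [Set.mem_ofPred_eq, x_inr, x_inl]
      rw [Finset.sum_ite_eq']
      by_cases h : m = blk k
      · rw [if_pos h, if_pos (mem_B.mpr h.symm)]
      · rw [if_neg h, if_neg (fun h2 => h (mem_B.mp h2).symm)]
    | zero => simp
    | add a b _ _ ha hb =>
      simp only [Set.mem_ofPred_eq, BoundedContinuousFunction.add_apply] at *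
      rw [ha, hb, Finset.sum_add_distrib]
    | smul c a _ ha =>
      simp only [Set.mem_ofPred_eq, BoundedContinuousFunction.smul_apply] at *
      rw [ha, Finset.smul_sum]
  · intro ε hε
    obtain ⟨z, hz, hyz⟩ := Metric.mem_closure_iff.mp hy' ε hε
    have hfin : ∃ M, ∀ m ≥ M, z (Sum.inr m) = 0 ∧ ∀ n ∈ B m, z (Sum.inl n) = 0 := by
      clear hyz
      induction hz using Submodule.span_induction with
      | mem z hz =>
        obtain ⟨k, rfl⟩ := hz
        refine ⟨blk k + 1, fun m hm => ⟨?_, fun n hn => ?_⟩⟩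
        · rw [x_inr, if_neg (by omega)]
        · rw [x_inl, if_neg]
          rintro rfl
          have := mem_B.mp hn
          omega
      | zero => exact ⟨0, fun m _ => ⟨rfl, fun _ _ => rfl⟩⟩
      | add a b _ _ ha hb =>
        obtain ⟨M1, h1⟩ := ha
        obtain ⟨M2, h2⟩ := hb
        refine ⟨max M1 M2, fun m hm => ⟨?_, fun n hn => ?_⟩⟩
        · rw [BoundedContinuousFunction.add_apply, (h1 m (by omega)).1, (h2 m (by omega)).1, add_zero]
        · rw [BoundedContinuousFunction.add_apply, (h1 m (by omega)).2 n hn,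
            (h2 m (by omega)).2 n hn, add_zero]
      | smul c a _ ha =>
        obtain ⟨M1, h1⟩ := ha
        refine ⟨M1, fun m hm => ⟨?_, fun n hn => ?_⟩⟩
        · rw [BoundedContinuousFunction.smul_apply, (h1 m (by omega)).1, smul_zero]
        · rw [BoundedContinuousFunction.smul_apply, (h1 m (by omega)).2 n hn, smul_zero]
    obtain ⟨M, hM⟩ := hfin
    have hb : ∀ j : ℕ ⊕ ℕ, z j = 0 → ‖y j‖ ≤ ε := by
      intro j hj
      have h1 : ‖(y - z) j‖ ≤ ‖y - z‖ := BoundedContinuousFunction.norm_coe_le_norm _ _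
      rw [BoundedContinuousFunction.sub_apply, hj, sub_zero] at h1
      rw [dist_eq_norm] at hyz
      linarith
    exact ⟨M, fun m hm => ⟨hb _ (hM m hm).1, fun n hn => hb _ ((hM m hm).2 n hn)⟩⟩

lemma sum_take (a : ℕ → 𝕜) (l : List ℕ) (p : ℕ) (hp : p ≤ l.length) :
    ∑ k ∈ Finset.range p, a (l.getD k 0) = ((l.take p).map a).sum := by
  induction p with
  | zero => simp
  | succ p ih =>
    rw [Finset.sum_range_succ, ih (by omega), List.take_succ_eq_append_getElem (by omega)]
    rw [List.map_append, List.sum_append, List.getD_eq_getElem _ _ (by omega)]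
    simp

/-- existence of a good order for every vector in the closed span -/
lemma main_conv (y : V 𝕜) (hy : P y) : ∃ σ : Equiv.Perm ℕ,
    Tendsto (fun N => ∑ i ∈ Finset.range N, y (Sum.inl (σ i)) • x 𝕜 (σ i)) atTop (𝓝 y) := by
  obtain ⟨hsum, hdecay⟩ := hy
  let δ : ℕ → ℝ := fun m => (B m).sup' (B_nonempty m) (fun n => ‖y (Sum.inl n)‖)
  have hδ : ∀ m, ∀ n ∈ B m, ‖y (Sum.inl n)‖ ≤ δ m := fun m n hn =>
    Finset.le_sup' (fun n => ‖y (Sum.inl n)‖) hn
  have hδ0 : ∀ m, 0 ≤ δ m := fun m => by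
    obtain ⟨n, hn⟩ := B_nonempty m
    exact (norm_nonneg _).trans (hδ m n hn)
  have hl : ∀ m, ∃ l : List ℕ, l.Nodup ∧ l.toFinset = B m ∧
      ∀ k, ‖((l.take k).map fun n => y (Sum.inl n)).sum‖ ≤ 3 * δ m + 2 * ‖∑ n ∈ B m, y (Sum.inl n)‖ :=
    fun m => H7Order.order2 (fun n => y (Sum.inl n)) (B m) (δ m) (hδ0 m) (hδ m)
  choose l hl1 hl2 hl3 using hl
  have hlen : ∀ m, (l m).length = 2 ^ m := by
    intro m
    rw [← List.toFinset_card_of_nodup (hl1 m), hl2, card_B]
  let pos : ℕ → ℕ := fun n => n - (2 ^ blk n - 1)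
  have hpos : ∀ n, pos n < (l (blk n)).length := by
    intro n
    have h1 := (blk_eq_iff n (blk n)).mp rfl
    have h2 : 0 < 2 ^ blk n := by positivity
    rw [hlen]
    simp only [pos]
    rw [pow_succ] at h1
    omega
  let σf : ℕ → ℕ := fun n => (l (blk n)).getD (pos n) 0
  have hσget : ∀ n, σf n = (l (blk n))[pos n]'(hpos n) := by
    intro n
    simp only [σf]
    rw [List.getD_eq_getElem _ _ (hpos n)]
  have hσB : ∀ n, blk (σf n) = blk n := by
    intro n
    rw [← mem_B, ← hl2, List.mem_toFinset, hσget]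
    exact List.getElem_mem _
  have hinj : Function.Injective σf := by
    intro a b hab
    have h1 : blk a = blk b := by rw [← hσB a, ← hσB b, hab]
    rw [hσget, hσget] at hab
    have h2 : pos a = pos b := by
      have hb' : pos b < (l (blk a)).length := by rw [h1]; exact hpos b
      have h3 : (l (blk b))[pos b]'(hpos b) = (l (blk a))[pos b]'hb' := by
        congr 1; rw [h1]
      rw [h3] at hab
      exact (List.Nodup.getElem_inj_iff (hl1 _)).mp hab
    simp only [pos] at h2
    have h4 := ((blk_eq_iff a (blk a)).mp rfl).1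
    have h5 := ((blk_eq_iff b (blk b)).mp rfl).1
    rw [h1] at h2 h4
    omega
  have hsurj : Function.Surjective σf := by
    intro k
    have hk : k ∈ l (blk k) := by
      rw [← List.mem_toFinset, hl2, mem_B]
    obtain ⟨i, hi, hik⟩ := List.getElem_of_mem hk
    refine ⟨2 ^ blk k - 1 + i, ?_⟩
    have h2 : 0 < 2 ^ blk k := by positivity
    have hb : blk (2 ^ blk k - 1 + i) = blk k := by
      rw [blk_eq_iff, pow_succ]
      rw [hlen] at hi
      omega
    simp only [σf, pos, hb]
    rw [Nat.add_sub_cancel_left, List.getD_eq_getElem _ _ hi, hik]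
  let σ : Equiv.Perm ℕ := Equiv.ofBijective σf ⟨hinj, hsurj⟩
  have hσ : ∀ n, σ n = σf n := fun n => rfl
  refine ⟨σ, ?_⟩
  rw [Metric.tendsto_atTop]
  intro ε hε
  obtain ⟨M, hM⟩ := hdecay (ε / 8) (by positivity)
  refine ⟨2 ^ M, fun N hN => ?_⟩
  have hMN : M ≤ blk N := le_blk M N hN
  rw [dist_comm, dist_eq_norm]
  refine lt_of_le_of_lt ?_ (show 6 * (ε / 8) < ε by linarith)
  rw [BoundedContinuousFunction.norm_le (by positivity)]
  rintro (j | m)
  · rw [BoundedContinuousFunction.sub_apply, ps_inl (fun n => y (Sum.inl n))]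
    by_cases h : σ.symm j < N
    · rw [if_pos h, sub_self, norm_zero]; positivity
    · rw [if_neg h, sub_zero]
      push Not at h
      have h1 : blk j = blk (σ.symm j) := by
        have := hσB (σ.symm j)
        rw [← hσ, Equiv.apply_symm_apply] at this
        exact this
      have h2 : M ≤ blk j := by rw [h1]; exact hMN.trans (blk_mono h)
      have := (hM _ h2).2 j (mem_B.mpr rfl)
      linarith
  · rw [BoundedContinuousFunction.sub_apply, ps_inr (fun n => y (Sum.inl n))]
    have hfil : (Finset.range N).filter (fun i => blk (σ i) = m) =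
        (Finset.range N).filter (fun i => blk i = m) := by
      apply Finset.filter_congr
      intro i _
      rw [hσ, hσB]
    rw [hfil]
    rcases lt_trichotomy m (blk N) with h | h | h
    · have h1 : (Finset.range N).filter (fun i => blk i = m) = B m := by
        ext i
        rw [Finset.mem_filter, Finset.mem_range, mem_B]
        refine ⟨fun h => h.2, fun h2 => ⟨?_, h2⟩⟩
        apply lt_of_blk_lt
        rw [h2]; exact h
      have h2 : ∑ i ∈ B m, y (Sum.inl (σ i)) = ∑ i ∈ B m, y (Sum.inl i) := by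
        apply Finset.sum_equiv σ
        · intro i
          rw [mem_B, mem_B, hσ, hσB]
        · intro i _; rfl
      rw [h1, h2, ← hsum, sub_self, norm_zero]
      positivity
    · have h1 : (Finset.range N).filter (fun i => blk i = m) = Finset.Ico (2 ^ m - 1) N := by
        ext i
        rw [Finset.mem_filter, Finset.mem_range, Finset.mem_Ico]
        constructor
        · rintro ⟨h1, h2⟩
          exact ⟨((blk_eq_iff _ _).mp h2).1, h1⟩
        · rintro ⟨h1, h2⟩
          refine ⟨h2, ?_⟩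
          rw [blk_eq_iff]
          have := ((blk_eq_iff N m).mp h.symm).2
          omega
      have h2 : 2 ^ m - 1 ≤ N := ((blk_eq_iff N m).mp h.symm).1
      have h3 : ∑ i ∈ Finset.Ico (2 ^ m - 1) N, y (Sum.inl (σ i)) =
          (((l m).take (N - (2 ^ m - 1))).map fun n => y (Sum.inl n)).sum := by
        have hle : N - (2 ^ m - 1) ≤ (l m).length := by
          have := hpos N
          simp only [pos] at this
          rw [h]; omega
        rw [Finset.sum_Ico_eq_sum_range, ← sum_take (fun n => y (Sum.inl n)) (l m) _ hle]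
        apply Finset.sum_congr rfl
        intro k hk
        have hk' := Finset.mem_range.mp hk
        have hb : blk (2 ^ m - 1 + k) = m := by
          rw [blk_eq_iff]
          have := ((blk_eq_iff N m).mp h.symm).2
          omega
        rw [hσ]
        simp only [σf, pos, hb]
        rw [Nat.add_sub_cancel_left]
      rw [h1, h3]
      have h4 := hl3 m (N - (2 ^ m - 1))
      rw [← hsum m] at h4
      have h5 := hM m (by omega)
      have h6 : δ m ≤ ε / 8 := Finset.sup'_le _ _ (fun n hn => h5.2 n hn)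
      calc _ ≤ ‖y (Sum.inr m)‖ + ‖(((l m).take (N - (2 ^ m - 1))).map fun n => y (Sum.inl n)).sum‖ :=
            norm_sub_le _ _
        _ ≤ 6 * (ε / 8) := by linarith [h5.1]
    · have h1 : (Finset.range N).filter (fun i => blk i = m) = ∅ := by
        apply Finset.filter_false_of_mem
        intro i hi
        have := blk_mono (Finset.mem_range.mp hi).le
        omega
      rw [h1, Finset.sum_empty, sub_zero]
      have := (hM m (by omega)).1
      linarith

/-- the space -/
noncomputable abbrev E (𝕜 : Type*) [RCLike 𝕜] : Submodule 𝕜 (V 𝕜) :=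
  (Submodule.span 𝕜 (Set.range (x 𝕜))).topologicalClosure

/-- the vectors in the space -/
noncomputable def xE (𝕜 : Type*) [RCLike 𝕜] (n : ℕ) : E 𝕜 :=
  ⟨x 𝕜 n, Submodule.le_topologicalClosure _ (Submodule.subset_span ⟨n, rfl⟩)⟩

lemma tendsto_E_iff (β : ℕ → 𝕜) (π : Equiv.Perm ℕ) (y : E 𝕜) :
    Tendsto (fun N => ∑ i ∈ Finset.range N, β (π i) • xE 𝕜 (π i)) atTop (𝓝 y) ↔
    Tendsto (fun N => ∑ i ∈ Finset.range N, β (π i) • x 𝕜 (π i)) atTop (𝓝 y.1) := by
  rw [tendsto_subtype_rng]
  simp only [Submodule.coe_sum, Submodule.coe_smul]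
  rfl

/-- the separability of the space -/
lemma sepE : TopologicalSpace.SeparableSpace (E 𝕜) := by
  have h1 : TopologicalSpace.IsSeparable (Set.range (x 𝕜)) :=
    (Set.countable_range _).isSeparable
  have h2 : TopologicalSpace.IsSeparable
    ((Submodule.span 𝕜 (Set.range (x 𝕜)) : Submodule 𝕜 (V 𝕜)) : Set (V 𝕜)) := h1.span
  exact h2.closure.separableSpace

lemma minimalE (m : ℕ) :
    xE 𝕜 m ∉ closure ((Submodule.span 𝕜 {z | ∃ n, n ≠ m ∧ z = xE 𝕜 n} : Submodule 𝕜 (E 𝕜)) : Set (E 𝕜)) := by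
  intro h
  have hcont : Continuous (fun y : E 𝕜 => y.1 (Sum.inl m)) :=
    (BoundedContinuousFunction.evalCLM 𝕜 (Sum.inl m : ℕ ⊕ ℕ) : V 𝕜 →L[𝕜] 𝕜).continuous.comp
      continuous_subtype_val
  have hcl : IsClosed {y : E 𝕜 | y.1 (Sum.inl m) = 0} := isClosed_eq hcont continuous_const
  have hsub : ((Submodule.span 𝕜 {z | ∃ n, n ≠ m ∧ z = xE 𝕜 n} : Submodule 𝕜 (E 𝕜)) : Set (E 𝕜)) ⊆
      {y : E 𝕜 | y.1 (Sum.inl m) = 0} := by
    intro z hz
    induction hz using Submodule.span_induction with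
    | mem z hz =>
      obtain ⟨n, hn, rfl⟩ := hz
      change x 𝕜 n (Sum.inl m) = 0
      rw [x_inl, if_neg hn.symm]
    | zero => rfl
    | add a b _ _ ha hb =>
      change a.1 (Sum.inl m) + b.1 (Sum.inl m) = 0
      rw [show a.1 (Sum.inl m) = 0 from ha, show b.1 (Sum.inl m) = 0 from hb, add_zero]
    | smul c a _ ha =>
      change c • a.1 (Sum.inl m) = 0
      rw [show a.1 (Sum.inl m) = 0 from ha, smul_zero]
  have := closure_minimal hsub hcl h
  have h2 : x 𝕜 m (Sum.inl m) = 0 := this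
  rw [x_inl, if_pos rfl] at h2
  exact one_ne_zero h2

/-- no fixed order works -/
lemma not_conv (τ : Equiv.Perm ℕ) : ∃ y : V 𝕜, P y ∧
    ¬ Tendsto (fun N => ∑ i ∈ Finset.range N, y (Sum.inl (τ i)) • x 𝕜 (τ i)) atTop (𝓝 y) := by
  -- the times
  have hex : ∀ m, ∃ N, ((Finset.range N).filter (fun i => blk (τ i) = m)).card = 2 ^ m / 2 := by
    intro m
    have hfin : {i | blk (τ i) = m}.Finite := by
      have : {i | blk (τ i) = m} = τ ⁻¹' (B m) := by
        ext i; simp [mem_B]
      rw [this]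
      exact (B m).finite_toSet.preimage τ.injective.injOn
    have hcard : hfin.toFinset.card = 2 ^ m := by
      rw [← card_B m]
      apply Finset.card_equiv τ
      intro i
      simp [mem_B]
    refine ⟨Nat.nth (fun i => blk (τ i) = m) (2 ^ m / 2), ?_⟩
    rw [← Nat.count_eq_card_filter_range]
    apply Nat.count_nth
    intro hf
    have : 0 < 2 ^ m := by positivity
    rw [hcard]; omega
  choose T hT using hex
  let sgn : ℕ → 𝕜 := fun j => if blk j = 0 then 0 else
    (if τ.symm j < T (blk j) then 1 else -1) * (2 / 2 ^ blk j)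
  have hsgn : ∀ j, ‖sgn j‖ ≤ 2 / 2 ^ blk j := by
    intro j
    simp only [sgn]
    split_ifs
    · rw [norm_zero]; positivity
    · rw [one_mul, norm_div, norm_pow, RCLike.norm_ofNat]
    · rw [neg_one_mul, norm_neg, norm_div, norm_pow, RCLike.norm_ofNat]
  have hsgn2 : ∀ j, ‖sgn j‖ ≤ 2 := by
    intro j
    refine (hsgn j).trans ?_
    apply div_le_self (by norm_num)
    exact one_le_pow₀ (by norm_num)
  let y : V 𝕜 := BoundedContinuousFunction.ofNormedAddCommGroupDiscrete
    (Sum.elim sgn (fun _ => 0)) 2 (by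
      rintro (j | m)
      · exact hsgn2 j
      · simp)
  have hy1 : ∀ j, y (Sum.inl j) = sgn j := fun _ => rfl
  have hy2 : ∀ m, y (Sum.inr m) = 0 := fun _ => rfl
  have hval : ∀ m, 1 ≤ m → ∀ j ∈ B m, sgn j = (if τ.symm j < T m then 1 else -1) * (2 / 2 ^ m) := by
    intro m hm j hj
    rw [mem_B] at hj
    simp only [sgn]
    rw [if_neg (by omega), hj]
  -- half sums
  have hhalf : ∀ m, 1 ≤ m → ∑ i ∈ (Finset.range (T m)).filter (fun i => blk (τ i) = m), sgn (τ i) = 1 := by
    intro m hm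
    have h1 : ∀ i ∈ (Finset.range (T m)).filter (fun i => blk (τ i) = m), sgn (τ i) = 2 / 2 ^ m := by
      intro i hi
      rw [Finset.mem_filter, Finset.mem_range] at hi
      rw [hval m hm _ (mem_B.mpr hi.2), Equiv.symm_apply_apply, if_pos hi.1, one_mul]
    rw [Finset.sum_congr rfl h1, Finset.sum_const, hT, nsmul_eq_mul]
    obtain ⟨k, rfl⟩ : ∃ k, m = k + 1 := ⟨m - 1, by omega⟩
    rw [pow_succ, Nat.mul_div_cancel _ (by norm_num)]
    have h2 : (2 : 𝕜) ^ k ≠ 0 := pow_ne_zero _ two_ne_zero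
    push_cast
    rw [pow_succ]
    field_simp
  have hzero : ∀ m, ∑ j ∈ B m, sgn j = 0 := by
    intro m
    rcases Nat.eq_zero_or_pos m with h0 | h0
    · apply Finset.sum_eq_zero
      intro j hj
      rw [mem_B] at hj
      simp only [sgn]
      rw [if_pos (by omega)]
    · rw [← Finset.sum_filter_add_sum_filter_not (B m) (fun j => τ.symm j < T m)]
      have h1 : ∑ j ∈ (B m).filter (fun j => τ.symm j < T m), sgn j = 1 := by
        rw [← hhalf m h0]
        symm
        apply Finset.sum_equiv τ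
        · intro i
          rw [Finset.mem_filter, Finset.mem_filter, Finset.mem_range, mem_B, Equiv.symm_apply_apply]
          exact and_comm
        · intro i _; rfl
      have h2 : ((B m).filter (fun j => τ.symm j < T m)).card = 2 ^ m / 2 := by
        rw [← hT m]
        symm
        apply Finset.card_equiv τ
        intro i
        rw [Finset.mem_filter, Finset.mem_filter, Finset.mem_range, mem_B, Equiv.symm_apply_apply]
        exact and_comm
      have h3 := Finset.card_filter_add_card_filter_not (s := B m) (fun j => τ.symm j < T m)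
      rw [h2, card_B] at h3
      rw [h1]
      have h4 : ∀ j ∈ (B m).filter (fun j => ¬ τ.symm j < T m), sgn j = - (2 / 2 ^ m) := by
        intro j hj
        rw [Finset.mem_filter] at hj
        rw [hval m h0 _ hj.1, if_neg hj.2, neg_one_mul]
      rw [Finset.sum_congr rfl h4, Finset.sum_const]
      obtain ⟨k, rfl⟩ : ∃ k, m = k + 1 := ⟨m - 1, by omega⟩
      rw [pow_succ, Nat.mul_div_cancel _ (by norm_num)] at h3
      have h5 : ((B (k + 1)).filter (fun j => ¬ τ.symm j < T (k + 1))).card = 2 ^ k := by omega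
      rw [h5, nsmul_eq_mul]
      have h2 : (2 : 𝕜) ^ k ≠ 0 := pow_ne_zero _ two_ne_zero
      push_cast
      rw [pow_succ]
      field_simp
      ring
  refine ⟨y, ⟨?_, ?_⟩, ?_⟩
  · intro m
    rw [hy2]
    exact (hzero m).symm
  · intro ε hε
    have hlim : Tendsto (fun m : ℕ => (2 : ℝ) / 2 ^ m) atTop (𝓝 0) := by
      have := (tendsto_pow_atTop_nhds_zero_of_lt_one (show (0:ℝ) ≤ 1 / 2 by norm_num)
        (by norm_num)).const_mul 2
      rw [mul_zero] at this
      refine this.congr ?_
      intro m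
      rw [one_div, inv_pow]
      rfl
    obtain ⟨M, hM⟩ := (hlim.eventually (ge_mem_nhds hε)).exists_forall_of_atTop
    refine ⟨M, fun m hm => ⟨?_, fun n hn => ?_⟩⟩
    · rw [hy2, norm_zero]; exact hε.le
    · rw [hy1]
      refine (hsgn n).trans ?_
      rw [mem_B] at hn
      rw [hn]
      exact hM m hm
  · intro hconv
    rw [Metric.tendsto_atTop] at hconv
    obtain ⟨N0, hN0⟩ := hconv 1 one_pos
    -- choose m with T m ≥ N0
    have hTge : ∀ m, 2 ^ m / 2 ≤ T m := by
      intro m
      rw [← hT m]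
      exact (Finset.card_filter_le _ _).trans (by simp)
    have h1 : N0 ≤ T (N0 + 1) := by
      have h2 := hTge (N0 + 1)
      rw [pow_succ, Nat.mul_div_cancel _ (by norm_num)] at h2
      exact (Nat.lt_two_pow_self (n := N0)).le.trans h2
    have h2 := hN0 _ h1
    rw [dist_eq_norm] at h2
    have h3 : ‖(∑ i ∈ Finset.range (T (N0 + 1)), y (Sum.inl (τ i)) • x 𝕜 (τ i) - y) (Sum.inr (N0 + 1))‖ < 1 :=
      lt_of_le_of_lt (BoundedContinuousFunction.norm_coe_le_norm _ _) h2
    rw [BoundedContinuousFunction.sub_apply, ps_inr (fun n => y (Sum.inl n)), hy2, sub_zero] at h3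
    have h4 := hhalf (N0 + 1) (by omega)
    simp only [hy1] at h3
    rw [h4, norm_one] at h3
    exact lt_irrefl _ h3

end

end Pool.Agent.H7Perm
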