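import Pool.Agent.H7Cls
set_option autoImplicit false
open Filter Topology Metric BoundedContinuousFunction
open scoped ComplexConjugate

namespace Pool.Agent.H7Shift
open Pool.Agent.H7Cls

/-- the point set, with the discrete topology -/
structure Om : Type where
  z : ℂ
  w : ℂ
  hz : ‖z‖ ≤ 2
  hw : ‖w‖ ≤ 1
  h : ‖z‖ = 2 ∨ w = 0

instance : TopologicalSpace Om := ⊥
instance : DiscreteTopology Om := ⟨rfl⟩

@[ext] lemma Om.ext' {p q : Om} (h1 : p.z = q.z) (h2 : p.w = q.w) : p = q := by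
  cases p; cases q; simp_all

/-- pair -/
def Om.pt (p : Om) : ℂ × ℂ := (p.z, p.w)

/-- the rotation number -/
noncomputable def c0 : ℂ := Complex.exp Complex.I

lemma c0_norm : ‖c0‖ = 1 := by
  unfold c0
  have := Complex.norm_exp_ofReal_mul_I 1
  simpa using this

lemma c0_ne : c0 ≠ 0 := Complex.exp_ne_zero _

lemma c0_inv_norm : ‖c0⁻¹‖ = 1 := by rw [norm_inv, c0_norm, inv_one]

lemma c0_pow (n : ℕ) (hn : 0 < n) : c0 ^ n ≠ 1 := by
  intro h
  unfold c0 at h
  rw [← Complex.exp_nat_mul, Complex.exp_eq_one_iff] at h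
  obtain ⟨k, hk⟩ := h
  have h1 := congrArg Complex.im hk
  simp at h1
  have hk0 : (k : ℝ) ≠ 0 := by
    intro h0
    rw [h0, zero_mul] at h1
    have : (n : ℝ) ≠ 0 := by exact_mod_cast hn.ne'
    exact this h1
  apply irrational_pi
  refine ⟨(n : ℚ) / (2 * k), ?_⟩
  push_cast
  rw [h1]
  field_simp

/-- rotation of the second variable -/
noncomputable def rot (c : ℂ) (hc : ‖c‖ = 1) (p : Om) : Om where
  z := p.z
  w := c * p.w
  hz := p.hz
  hw := by rw [norm_mul, hc, one_mul]; exact p.hw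
  h := by rcases p.h with h | h
          · left; exact h
          · right; rw [h, mul_zero]

/-- the space -/
abbrev X := Om →ᵇ ℂ

/-- weighted composition operator -/
noncomputable def wc (v : Om → ℂ) (hv : ∀ p, ‖v p‖ ≤ 1) (ψ : Om → Om) : X →L[ℂ] X :=
  LinearMap.mkContinuous
    { toFun := fun f => BoundedContinuousFunction.ofNormedAddCommGroupDiscrete
        (fun p => v p * f (ψ p)) ‖f‖ (fun p => by
          rw [norm_mul]
          calc ‖v p‖ * ‖f (ψ p)‖ ≤ 1 * ‖f‖ :=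
                mul_le_mul (hv p) (f.norm_coe_le_norm _) (norm_nonneg _) zero_le_one
            _ = ‖f‖ := one_mul _)
      map_add' := fun f g => by
        ext p
        change v p * (f (ψ p) + g (ψ p)) = v p * f (ψ p) + v p * g (ψ p)
        ring
      map_smul' := fun c f => by
        ext p
        change v p * (c * f (ψ p)) = c * (v p * f (ψ p))
        ring } 1
    (fun f => by
      rw [one_mul]
      refine (BoundedContinuousFunction.norm_le (norm_nonneg _)).mpr ?_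
      intro p
      change ‖v p * f (ψ p)‖ ≤ ‖f‖
      rw [norm_mul]
      calc ‖v p‖ * ‖f (ψ p)‖ ≤ 1 * ‖f‖ :=
            mul_le_mul (hv p) (f.norm_coe_le_norm _) (norm_nonneg _) zero_le_one
        _ = ‖f‖ := one_mul _)

lemma wc_apply (v : Om → ℂ) (hv : ∀ p, ‖v p‖ ≤ 1) (ψ : Om → Om) (f : X) (p : Om) :
    wc v hv ψ f p = v p * f (ψ p) := rfl

lemma wc_norm (v : Om → ℂ) (hv : ∀ p, ‖v p‖ ≤ 1) (ψ : Om → Om) : ‖wc v hv ψ‖ ≤ 1 :=
  LinearMap.mkContinuous_norm_le _ zero_le_one _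

/-- the weight -/
noncomputable def u (p : Om) : ℂ := if p.z = 0 then 1 else -(conj p.z) / ‖p.z‖

lemma u_norm (p : Om) : ‖u p‖ = 1 := by
  unfold u
  split_ifs with h
  · exact norm_one
  · rw [norm_div, norm_neg, RCLike.norm_conj, Complex.norm_real, norm_norm,
      div_self (norm_ne_zero_iff.mpr h)]

lemma z_mul_u (p : Om) : p.z * u p = -(‖p.z‖ : ℂ) := by
  unfold u
  split_ifs with h
  · rw [h]; simp
  · have h1 : ((‖p.z‖ : ℝ) : ℂ) ≠ 0 := by exact_mod_cast norm_ne_zero_iff.mpr h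
    rw [neg_div, mul_neg, ← mul_div_assoc, Complex.mul_conj, Complex.normSq_eq_norm_sq]
    push_cast
    rw [sq, mul_div_assoc, div_self h1, mul_one]

/-- the shift operator -/
noncomputable def Uop : X →L[ℂ] X := wc u (fun p => (u_norm p).le) (rot c0 c0_norm)

/-- its inverse -/
noncomputable def Uinv : X →L[ℂ] X :=
  wc (fun p => conj (u p)) (fun p => by rw [RCLike.norm_conj, u_norm]) (rot c0⁻¹ c0_inv_norm)

lemma u_rot (c : ℂ) (hc : ‖c‖ = 1) (p : Om) : u (rot c hc p) = u p := rfl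

lemma rot_rot (p : Om) : rot c0⁻¹ c0_inv_norm (rot c0 c0_norm p) = p := by
  ext
  · rfl
  · change c0⁻¹ * (c0 * p.w) = p.w
    rw [← mul_assoc, inv_mul_cancel₀ c0_ne, one_mul]

lemma rot_rot' (p : Om) : rot c0 c0_norm (rot c0⁻¹ c0_inv_norm p) = p := by
  ext
  · rfl
  · change c0 * (c0⁻¹ * p.w) = p.w
    rw [← mul_assoc, mul_inv_cancel₀ c0_ne, one_mul]

lemma u_conj (p : Om) : u p * conj (u p) = 1 := by
  rw [Complex.mul_conj, Complex.normSq_eq_norm_sq, u_norm]; simp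

/-- the unit -/
noncomputable def U : (X →L[ℂ] X)ˣ where
  val := Uop
  inv := Uinv
  val_inv := by
    ext f p
    change u p * (conj (u (rot c0 c0_norm p)) * f (rot c0⁻¹ c0_inv_norm (rot c0 c0_norm p))) = f p
    rw [rot_rot, u_rot, ← mul_assoc, u_conj, one_mul]
  inv_val := by
    ext f p
    change conj (u p) * (u (rot c0⁻¹ c0_inv_norm p) * f (rot c0 c0_norm (rot c0⁻¹ c0_inv_norm p))) = f p
    rw [rot_rot', u_rot, ← mul_assoc, mul_comm (conj (u p)), u_conj, one_mul]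

/-- multiplication operator -/
noncomputable def Mop (f : X) : X →L[ℂ] X := ContinuousLinearMap.mul ℂ X f

lemma Mop_apply (f g : X) : Mop f g = f * g := rfl

lemma Mop_one (f : X) : Mop f 1 = f := mul_one f

lemma one_norm_le : ‖(1 : X)‖ ≤ 1 := by
  refine (BoundedContinuousFunction.norm_le zero_le_one).mpr ?_
  intro p
  change ‖(1 : ℂ)‖ ≤ 1
  rw [norm_one]

lemma Mop_norm (f : X) : ‖Mop f‖ = ‖f‖ := by
  apply le_antisymm (ContinuousLinearMap.opNorm_mul_apply_le ℂ X f)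
  have h := (Mop f).le_opNorm 1
  rw [Mop_one] at h
  exact h.trans (by
    have := mul_le_mul_of_nonneg_left one_norm_le (norm_nonneg (Mop f))
    rwa [mul_one] at this)

instance : Nontrivial X := ⟨⟨0, 1, fun h => by
  have := congrArg (fun f : X => f ⟨0, 0, by norm_num, by norm_num, Or.inr rfl⟩) h
  simp at this⟩⟩

/-- `f` is the restriction of a class function -/
def isR (f : X) : Prop := ∃ F : ℂ × ℂ → ℂ, Cls F ∧ ∀ p : Om, f p = F p.pt

/-- restriction of a bounded function -/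
noncomputable def res (F : ℂ × ℂ → ℂ) (hF : Cls F) : X :=
  have hb : ∃ C : ℝ, ∀ p ∈ KD, ‖F p‖ ≤ C := KD_compact.exists_bound_of_continuousOn hF.cont
  BoundedContinuousFunction.ofNormedAddCommGroupDiscrete (fun p => F p.pt) hb.choose
    (fun p => hb.choose_spec _ (mem_KD.mpr ⟨p.hz, p.hw⟩))

lemma res_apply (F : ℂ × ℂ → ℂ) (hF : Cls F) (p : Om) : res F hF p = F p.pt := rfl

lemma res_isR (F : ℂ × ℂ → ℂ) (hF : Cls F) : isR (res F hF) := ⟨F, hF, fun _ => rfl⟩

/-- the algebra -/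
noncomputable def A : Subalgebra ℂ (X →L[ℂ] X) where
  carrier := {M | ∃ f : X, isR f ∧ M = Mop f}
  mul_mem' := by
    rintro _ _ ⟨f, ⟨F, hF, hf⟩, rfl⟩ ⟨g, ⟨G, hG, hg⟩, rfl⟩
    refine ⟨f * g, ⟨_, hF.mul hG, fun p => ?_⟩, ?_⟩
    · change f p * g p = _
      rw [hf, hg]
    · ext h p
      change f p * (g p * h p) = f p * g p * h p
      ring
  add_mem' := by
    rintro _ _ ⟨f, ⟨F, hF, hf⟩, rfl⟩ ⟨g, ⟨G, hG, hg⟩, rfl⟩
    refine ⟨f + g, ⟨_, hF.add hG, fun p => ?_⟩, ?_⟩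
    · change f p + g p = _
      rw [hf, hg]
    · ext h p
      change f p * h p + (g p * h p) = (f p + g p) * h p
      ring
  algebraMap_mem' := by
    intro r
    refine ⟨algebraMap ℂ X r, ⟨_, Cls.const r, fun p => ?_⟩, ?_⟩
    · rw [BoundedContinuousFunction.algebraMap_apply]; simp
    · ext h p
      rw [Mop_apply, Algebra.algebraMap_eq_smul_one]
      change r • (h p) = (algebraMap ℂ X r) p * h p
      rw [BoundedContinuousFunction.algebraMap_apply]
      simp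

lemma mem_A {M : X →L[ℂ] X} : M ∈ A ↔ ∃ f : X, isR f ∧ M = Mop f := Iff.rfl

lemma res_mem (F : ℂ × ℂ → ℂ) (hF : Cls F) : Mop (res F hF) ∈ A := ⟨_, res_isR F hF, rfl⟩

/-- sup over the bidisc bounded by the norm -/
lemma bound_KD {f : X} {F : ℂ × ℂ → ℂ} (hF : Cls F) (hf : ∀ p : Om, f p = F p.pt) {z w : ℂ}
    (hz : ‖z‖ ≤ 2) (hw : ‖w‖ ≤ 1) : ‖F (z, w)‖ ≤ ‖f‖ := by
  refine hF.max_torus (fun z w hz hw => ?_) hz hw
  have := hf ⟨z, w, hz.le, hw.le, Or.inl hz⟩
  have h2 : F (z, w) = f ⟨z, w, hz.le, hw.le, Or.inl hz⟩ := this.symm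
  rw [h2]
  exact f.norm_coe_le_norm _

lemma isR_closed : IsClosed {f : X | isR f} := by
  rw [← isSeqClosed_iff_isClosed]
  intro s f hs hsf
  choose F hF hsF using hs
  have hdiff : ∀ n m z w, ‖z‖ ≤ 2 → ‖w‖ ≤ 1 → ‖F n (z, w) - F m (z, w)‖ ≤ ‖s n - s m‖ := by
    intro n m z w hz hw
    exact bound_KD ((hF n).sub (hF m)) (f := s n - s m) (fun p => by
      rw [BoundedContinuousFunction.sub_apply, hsF, hsF]) hz hw
  have hc : CauchySeq s := hsf.cauchySeq
  have hcau : ∀ p ∈ KD, CauchySeq (fun n => F n p) := by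
    rintro ⟨z, w⟩ hp
    rw [mem_KD] at hp
    rw [Metric.cauchySeq_iff] at hc ⊢
    intro ε hε
    obtain ⟨N, hN⟩ := hc ε hε
    refine ⟨N, fun m hm n hn => ?_⟩
    have := hN m hm n hn
    rw [dist_eq_norm] at this ⊢
    exact lt_of_le_of_lt (hdiff m n z w hp.1 hp.2) this
  have hlim : ∀ p, ∃ l, p ∈ KD → Tendsto (fun n => F n p) atTop (𝓝 l) := by
    intro p
    by_cases hp : p ∈ KD
    · obtain ⟨l, hl⟩ := cauchySeq_tendsto_of_complete (hcau p hp)
      exact ⟨l, fun _ => hl⟩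
    · exact ⟨0, fun h => absurd h hp⟩
  choose G hG using hlim
  have hunif : TendstoUniformlyOn F G atTop KD := by
    apply UniformCauchySeqOn.tendstoUniformlyOn_of_tendsto
    · rw [Metric.uniformCauchySeqOn_iff]
      intro ε hε
      rw [Metric.cauchySeq_iff] at hc
      obtain ⟨N, hN⟩ := hc ε hε
      refine ⟨N, fun m hm n hn p hp => ?_⟩
      have := hN m hm n hn
      rw [dist_eq_norm] at this ⊢
      exact lt_of_le_of_lt (hdiff m n p.1 p.2 (mem_KD.mp hp).1 (mem_KD.mp hp).2) this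
    · exact fun p hp => hG p hp
  refine ⟨G, Cls.limit hF hunif, fun p => ?_⟩
  have h1 : Tendsto (fun n => F n p.pt) atTop (𝓝 (G p.pt)) := hG p.pt (mem_KD.mpr ⟨p.hz, p.hw⟩)
  have h2 : Tendsto (fun n => s n p) atTop (𝓝 (f p)) :=
    ((BoundedContinuousFunction.evalCLM ℂ p : X →L[ℂ] ℂ).continuous.tendsto f).comp hsf
  refine tendsto_nhds_unique h2 (h1.congr ?_)
  intro n
  rw [hsF]

lemma A_closed : IsClosed (A : Set (X →L[ℂ] X)) := by
  have h1 : (A : Set (X →L[ℂ] X)) = {M | isR (M 1)} ∩ {M | ∀ g, M g = M 1 * g} := by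
    ext M
    constructor
    · rintro ⟨f, hf, rfl⟩
      refine ⟨?_, fun g => ?_⟩
      · change isR (Mop f 1)
        rw [Mop_one]; exact hf
      · change Mop f g = Mop f 1 * g
        rw [Mop_one]; rfl
    · rintro ⟨h1, h2⟩
      refine ⟨M 1, h1, ?_⟩
      ext g p
      rw [h2 g]
      rfl
  rw [h1]
  have hev : ∀ g : X, Continuous (fun M : X →L[ℂ] X => M g) := fun g =>
    (ContinuousLinearMap.apply ℂ X g).continuous
  refine IsClosed.inter (isR_closed.preimage (hev 1)) ?_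
  have : {M : X →L[ℂ] X | ∀ g, M g = M 1 * g} = ⋂ g, {M | M g = M 1 * g} := by
    ext M; simp
  rw [this]
  exact isClosed_iInter fun g => isClosed_eq (hev g) ((hev 1).mul continuous_const)

lemma A_comm (a : X →L[ℂ] X) (ha : a ∈ A) (b : X →L[ℂ] X) (hb : b ∈ A) : a * b = b * a := by
  obtain ⟨f, _, rfl⟩ := ha
  obtain ⟨g, _, rfl⟩ := hb
  ext h p
  change f p * (g p * h p) = g p * (f p * h p)
  ring

lemma Mop_mul (f g : X) : Mop f * Mop g = Mop (f * g) := by
  ext h p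
  change f p * (g p * h p) = f p * g p * h p
  ring

lemma A_sq (a : X →L[ℂ] X) (ha : a ∈ A) : ‖a * a‖ = ‖a‖ ^ 2 := by
  obtain ⟨f, _, rfl⟩ := ha
  rw [Mop_mul, Mop_norm, Mop_norm]
  apply le_antisymm
  · rw [sq]; exact norm_mul_le f f
  · have h1 : ‖f‖ ≤ Real.sqrt ‖f * f‖ := by
      rw [BoundedContinuousFunction.norm_le (Real.sqrt_nonneg _)]
      intro p
      apply Real.le_sqrt_of_sq_le
      have := (f * f).norm_coe_le_norm p
      rw [BoundedContinuousFunction.mul_apply, norm_mul, ← sq] at this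
      exact this
    calc ‖f‖ ^ 2 ≤ (Real.sqrt ‖f * f‖) ^ 2 := pow_le_pow_left₀ (norm_nonneg _) h1 2
      _ = ‖f * f‖ := Real.sq_sqrt (norm_nonneg _)

/-- conjugation by `U` on multiplication operators -/
lemma conj_Mop (f g : X) (h : ∀ p, g p = f (rot c0 c0_norm p)) : U.val * Mop f * U.inv = Mop g := by
  ext k p
  change u p * (f (rot c0 c0_norm p) * (conj (u (rot c0 c0_norm p)) *
    k (rot c0⁻¹ c0_inv_norm (rot c0 c0_norm p)))) = g p * k p
  rw [rot_rot, u_rot, h]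
  calc _ = (u p * conj (u p)) * (f (rot c0 c0_norm p) * k p) := by ring
    _ = _ := by rw [u_conj, one_mul]

lemma conj_Mop' (f g : X) (h : ∀ p, g p = f (rot c0⁻¹ c0_inv_norm p)) :
    U.inv * Mop f * U.val = Mop g := by
  ext k p
  change conj (u p) * (f (rot c0⁻¹ c0_inv_norm p) * (u (rot c0⁻¹ c0_inv_norm p) *
    k (rot c0 c0_norm (rot c0⁻¹ c0_inv_norm p)))) = g p * k p
  rw [rot_rot', u_rot, h]
  calc _ = (u p * conj (u p)) * (f (rot c0⁻¹ c0_inv_norm p) * k p) := by ring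
    _ = _ := by rw [u_conj, one_mul]

lemma A_conj (a : X →L[ℂ] X) (ha : a ∈ A) : U.val * a * U.inv ∈ A := by
  obtain ⟨f, ⟨F, hF, hf⟩, rfl⟩ := ha
  rw [conj_Mop f (res _ (hF.rot c0_norm)) (fun p => by rw [res_apply, hf]; rfl)]
  exact res_mem _ _

lemma A_conj' (a : X →L[ℂ] X) (ha : a ∈ A) : U.inv * a * U.val ∈ A := by
  obtain ⟨f, ⟨F, hF, hf⟩, rfl⟩ := ha
  rw [conj_Mop' f (res _ (hF.rot c0_inv_norm)) (fun p => by rw [res_apply, hf]; rfl)]
  exact res_mem _ _

lemma spec_iso {E : Type} [NormedAddCommGroup E] [NormedSpace ℂ E] [CompleteSpace E] [Nontrivial E]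
    (V : (E →L[ℂ] E)ˣ) (h0 : ‖V.val‖ ≤ 1) (h0' : ‖V.inv‖ ≤ 1) :
    spectrum ℂ V.val ⊆ Metric.sphere (0 : ℂ) 1 := by
  intro k hk
  rw [mem_sphere_zero_iff_norm]
  have h1 : ‖k‖ ≤ 1 := (spectrum.norm_le_norm_of_mem hk).trans h0
  have h2 : k⁻¹ ∈ spectrum ℂ (V⁻¹ : (E →L[ℂ] E)ˣ).val := by
    rw [spectrum.inv₀_mem_inv_iff]; exact hk
  have h3 : ‖k⁻¹‖ ≤ 1 := (spectrum.norm_le_norm_of_mem h2).trans h0'
  have hk0 : k ≠ 0 := by
    rintro rfl
    exact (spectrum.zero_notMem_iff (R := ℂ)).mpr V.isUnit hk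
  rw [norm_inv] at h3
  have h4 : 0 < ‖k‖ := norm_pos_iff.mpr hk0
  have h5 : 1 ≤ ‖k‖ := by
    rw [inv_le_one₀ h4] at h3; exact h3
  linarith

lemma U_val : U.val = Uop := rfl
lemma U_inv : U.inv = Uinv := rfl

lemma spec_U : spectrum ℂ U.val ⊆ Metric.sphere (0 : ℂ) 1 := by
  apply spec_iso
  · rw [U_val]; exact wc_norm u (fun p => (u_norm p).le) (rot c0 c0_norm)
  · rw [U_inv]; exact wc_norm (fun p => conj (u p)) (fun p => by rw [RCLike.norm_conj, u_norm]) (rot c0⁻¹ c0_inv_norm)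

/-- inverse closedness -/
lemma inv_closed (a : X →L[ℂ] X) (ha : a ∈ A) (hu : IsUnit a) : IsUnit (⟨a, ha⟩ : A) := by
  obtain ⟨f, ⟨F, hF, hf⟩, rfl⟩ := ha
  obtain ⟨V, hV⟩ := hu
  set g : X := V.inv 1 with hg
  have hfg : ∀ p, f p * g p = 1 := by
    intro p
    have h1 : V.val * V.inv = 1 := V.val_inv
    rw [hV] at h1
    have h2 := congrArg (fun M : X →L[ℂ] X => (M 1) p) h1
    exact h2
  have hg0 : 0 < ‖g‖ := by
    rw [norm_pos_iff]
    intro h0
    have := hfg ⟨0, 0, by norm_num, by norm_num, Or.inr rfl⟩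
    rw [h0] at this
    simp at this
  have hlow : ∀ p, ‖g‖⁻¹ ≤ ‖f p‖ := by
    intro p
    have h1 := g.norm_coe_le_norm p
    have h2 : ‖f p‖ * ‖g p‖ = 1 := by rw [← norm_mul, hfg, norm_one]
    have h3 : 1 ≤ ‖f p‖ * ‖g‖ := by
      rw [← h2]; exact mul_le_mul_of_nonneg_left h1 (norm_nonneg _)
    rw [inv_le_iff_one_le_mul₀ hg0]
    exact h3
  have hlowF := hF.lower (inv_pos.mpr hg0)
    (fun z w hz hw => by
      have := hlow ⟨z, w, hz.le, hw, Or.inl hz⟩
      rw [hf] at this; exact this)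
    (fun z hz => by
      have := hlow ⟨z, 0, hz, by norm_num, Or.inr rfl⟩
      rw [hf] at this; exact this)
  have hne : ∀ p ∈ KD, F p ≠ 0 := by
    rintro ⟨z, w⟩ hp h0
    rw [mem_KD] at hp
    have := hlowF z w hp.1 hp.2
    rw [h0, norm_zero] at this
    exact absurd (inv_pos.mpr hg0) (not_lt.mpr this)
  have hm : Mop (res _ (hF.inv hne)) ∈ A := res_mem _ _
  rw [isUnit_iff_exists]
  refine ⟨⟨_, hm⟩, ?_, ?_⟩
  · apply Subtype.ext
    change Mop f * Mop (res _ (hF.inv hne)) = 1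
    ext k p
    change f p * ((F p.pt)⁻¹ * k p) = k p
    rw [hf, ← mul_assoc, mul_inv_cancel₀ (hne p.pt (mem_KD.mpr ⟨p.hz, p.hw⟩)), one_mul]
  · apply Subtype.ext
    change Mop (res _ (hF.inv hne)) * Mop f = 1
    ext k p
    change (F p.pt)⁻¹ * (f p * k p) = k p
    rw [hf, ← mul_assoc, inv_mul_cancel₀ (hne p.pt (mem_KD.mpr ⟨p.hz, p.hw⟩)), one_mul]

end Pool.Agent.H7Shift
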