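import Pool.Agent.H7Shift
set_option autoImplicit false
open Filter Topology Metric BoundedContinuousFunction
open scoped ComplexConjugate

namespace Pool.Agent.H7Shift2
open Pool.Agent.H7Cls Pool.Agent.H7Shift

lemma unit_abs {E : Type} [NormedAddCommGroup E] [NormedSpace ℂ E] [CompleteSpace E]
    (V : (E →L[ℂ] E)ˣ) (h0' : ‖V.inv‖ ≤ 1) : IsUnit (1 + (2 : ℂ) • V.val) := by
  have h1 : ‖-((1 / 2 : ℂ) • V.inv)‖ < 1 := by
    rw [norm_neg, norm_smul]
    have : ‖(1 / 2 : ℂ)‖ = 1 / 2 := by simp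
    rw [this]
    linarith
  have h2 := isUnit_one_sub_of_norm_lt_one h1
  have h3 : 1 + (2 : ℂ) • V.val = ((2 : ℂ) • V.val) * (1 - -((1 / 2 : ℂ) • V.inv)) := by
    rw [sub_neg_eq_add, mul_add, mul_one, smul_mul_smul_comm, V.val_inv]
    norm_num
    rw [add_comm]
  rw [h3]
  refine IsUnit.mul ?_ h2
  rw [isUnit_iff_exists]
  refine ⟨(1 / 2 : ℂ) • V.inv, ?_, ?_⟩
  · rw [smul_mul_smul_comm, V.val_inv]; norm_num
  · rw [smul_mul_smul_comm, V.inv_val]; norm_num

/-- the unweighted composition operator -/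
noncomputable def C : (X →L[ℂ] X)ˣ where
  val := wc (fun _ => 1) (fun _ => by simp) (rot c0 c0_norm)
  inv := wc (fun _ => 1) (fun _ => by simp) (rot c0⁻¹ c0_inv_norm)
  val_inv := by
    ext f p
    change 1 * (1 * f (rot c0⁻¹ c0_inv_norm (rot c0 c0_norm p))) = f p
    rw [rot_rot, one_mul, one_mul]
  inv_val := by
    ext f p
    change 1 * (1 * f (rot c0 c0_norm (rot c0⁻¹ c0_inv_norm p))) = f p
    rw [rot_rot', one_mul, one_mul]

lemma C_inv : C.inv = wc (fun _ => 1) (fun _ => by simp) (rot c0⁻¹ c0_inv_norm) := rfl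

lemma C_unit : IsUnit (1 + (2 : ℂ) • C.val) := by
  apply unit_abs
  rw [C_inv]
  exact wc_norm _ (fun _ => by simp) (rot c0⁻¹ c0_inv_norm)

lemma C_app (f : X) (p : Om) : (1 + (2 : ℂ) • C.val : X →L[ℂ] X) f p = f p + 2 * f (rot c0 c0_norm p) := by
  change f p + 2 * (1 * f (rot c0 c0_norm p)) = _
  rw [one_mul]

/-- `M_z` -/
noncomputable def Mz : X →L[ℂ] X := Mop (res _ Cls.fst)

lemma Mz_mem : Mz ∈ A := res_mem _ _

lemma L_app (f : X) (p : Om) : (1 - Mz * U.val : X →L[ℂ] X) f p = f p + ‖p.z‖ * f (rot c0 c0_norm p) := by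
  change f p - p.z * (u p * f (rot c0 c0_norm p)) = _
  rw [← mul_assoc, z_mul_u]
  ring

lemma rot_fix (p : Om) (h : p.w = 0) : rot c0 c0_norm p = p := by
  ext
  · rfl
  · change c0 * p.w = p.w
    rw [h, mul_zero]

/-- cut off to the part `|z| = 2` -/
noncomputable def cut (f : X) : X :=
  BoundedContinuousFunction.ofNormedAddCommGroupDiscrete
    (fun p => if ‖p.z‖ = 2 then f p else 0) ‖f‖ (fun p => by
      split_ifs
      · exact f.norm_coe_le_norm p
      · rw [norm_zero]; exact norm_nonneg _)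

lemma cut_app (f : X) (p : Om) : cut f p = if ‖p.z‖ = 2 then f p else 0 := rfl

lemma L_bij : Function.Bijective (1 - Mz * U.val : X →L[ℂ] X) := by
  obtain ⟨R, hR1, hR2⟩ := isUnit_iff_exists.mp C_unit
  constructor
  · intro f g hfg
    have hL : ∀ p, (f - g) p + ‖p.z‖ * (f - g) (rot c0 c0_norm p) = 0 := by
      intro p
      have h1 := congrArg (fun k : X => k p) hfg
      beta_reduce at h1
      rw [L_app, L_app] at h1
      rw [BoundedContinuousFunction.sub_apply, BoundedContinuousFunction.sub_apply]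
      linear_combination h1
    have hcut : (1 + (2 : ℂ) • C.val : X →L[ℂ] X) (cut (f - g)) = 0 := by
      ext p
      rw [C_app, cut_app, cut_app]
      by_cases h : ‖p.z‖ = 2
      · have h' : ‖(rot c0 c0_norm p).z‖ = 2 := h
        rw [if_pos h, if_pos h']
        have := hL p
        rw [h] at this
        push_cast at this
        rw [this]; rfl
      · have h' : ¬ ‖(rot c0 c0_norm p).z‖ = 2 := h
        rw [if_neg h, if_neg h', mul_zero, add_zero]; rfl
    have hcut0 : cut (f - g) = 0 := by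
      have h1 : R ((1 + (2 : ℂ) • C.val : X →L[ℂ] X) (cut (f - g))) = (R * (1 + (2 : ℂ) • C.val)) (cut (f - g)) := rfl
      rw [hR2, hcut, map_zero] at h1
      exact h1.symm
    rw [← sub_eq_zero]
    ext p
    by_cases h : ‖p.z‖ = 2
    · have h1 := congrArg (fun k : X => k p) hcut0
      beta_reduce at h1
      rw [cut_app, if_pos h] at h1
      exact h1
    · have hw : p.w = 0 := by rcases p.h with h' | h'; exacts [absurd h' h, h']
      have h1 := hL p
      rw [rot_fix p hw] at h1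
      have h2 : (1 + (‖p.z‖ : ℂ)) * (f - g) p = 0 := by linear_combination h1
      have h3 : (1 + (‖p.z‖ : ℂ)) ≠ 0 := by
        intro h0
        have := congrArg Complex.re h0
        simp at this
        have hn := norm_nonneg p.z
        linarith
      exact (mul_eq_zero.mp h2).resolve_left h3
  · intro h
    let f : X := BoundedContinuousFunction.ofNormedAddCommGroupDiscrete
      (fun p => if ‖p.z‖ = 2 then (R h) p else h p / (1 + ‖p.z‖)) (‖R h‖ + ‖h‖) (fun p => by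
        split_ifs
        · have := (R h).norm_coe_le_norm p
          have := norm_nonneg h
          linarith
        · rw [norm_div]
          have h1 : 1 ≤ ‖(1 : ℂ) + ‖p.z‖‖ := by
            have : ((1 : ℂ) + ‖p.z‖) = ((1 + ‖p.z‖ : ℝ) : ℂ) := by push_cast; rfl
            rw [this, Complex.norm_real]
            have hn := norm_nonneg p.z
            rw [Real.norm_of_nonneg (by linarith)]
            linarith
          have h2 : ‖h p‖ / ‖(1 : ℂ) + ‖p.z‖‖ ≤ ‖h p‖ := div_le_self (norm_nonneg _) h1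
          have h3 := h.norm_coe_le_norm p
          have h4 := norm_nonneg (R h)
          linarith)
    have hf : ∀ p, f p = if ‖p.z‖ = 2 then (R h) p else h p / (1 + ‖p.z‖) := fun _ => rfl
    refine ⟨f, ?_⟩
    ext p
    rw [L_app, hf, hf]
    by_cases hp : ‖p.z‖ = 2
    · have h' : ‖(rot c0 c0_norm p).z‖ = 2 := hp
      rw [if_pos hp, if_pos h', hp]
      have h1 := C_app (R h) p
      have h2 : (1 + (2 : ℂ) • C.val : X →L[ℂ] X) (R h) = ((1 + (2 : ℂ) • C.val) * R) h := rfl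
      rw [h2, hR1] at h1
      push_cast
      exact h1.symm
    · have hw : p.w = 0 := by rcases p.h with h' | h'; exacts [absurd h' hp, h']
      rw [rot_fix p hw, if_neg hp]
      have h3 : (1 + (‖p.z‖ : ℂ)) ≠ 0 := by
        intro h0
        have := congrArg Complex.re h0
        simp at this
        have hn := norm_nonneg p.z
        linarith
      field_simp

lemma L_unit : IsUnit (1 - Mz * U.val : X →L[ℂ] X) :=
  ContinuousLinearMap.isUnit_iff_bijective.mpr L_bij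

lemma one_not_mem : (1 : ℂ) ∉ spectrum ℂ (Mz * U.val) := by
  rw [spectrum.notMem_iff, map_one]
  exact L_unit

/-- evaluation characters -/
noncomputable def evL (p : Om) : A →L[ℂ] ℂ where
  toFun M := (M.1 1) p
  map_add' M N := rfl
  map_smul' c M := rfl
  cont := by
    have h1 : Continuous (fun M : A => M.1 (1 : X)) :=
      (ContinuousLinearMap.apply ℂ X (1 : X)).continuous.comp continuous_subtype_val
    exact (BoundedContinuousFunction.evalCLM ℂ p : X →L[ℂ] ℂ).continuous.comp h1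

lemma evL_app (p : Om) (M : A) : evL p M = (M.1 1) p := rfl

noncomputable def ev (p : Om) : WeakDual.characterSpace ℂ A :=
  ⟨StrongDual.toWeakDual (evL p), by
    constructor
    · intro h
      have h1 : evL p 1 = 0 := by
        have := congrArg (fun φ : WeakDual ℂ A => φ 1) h
        exact this
      rw [evL_app] at h1
      have h2 : ((1 : A).1 (1 : X)) p = (1 : ℂ) := rfl
      rw [h2] at h1
      exact one_ne_zero h1
    · rintro ⟨M, f, hf, rfl⟩ ⟨N, g, hg, rfl⟩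
      change (f * (g * 1)) p = (f * 1) p * (g * 1) p
      rw [mul_one, mul_one]; rfl⟩

lemma ev_app (p : Om) (M : A) : ev p M = (M.1 1) p := rfl

/-- the torus -/
def T : Set (ℂ × ℂ) := sphere 0 2 ×ˢ sphere 0 1

lemma mem_T {p : ℂ × ℂ} : p ∈ T ↔ ‖p.1‖ = 2 ∧ ‖p.2‖ = 1 := by simp [T, Set.mem_prod]

lemma T_compact : IsCompact T := (isCompact_sphere _ _).prod (isCompact_sphere _ _)

/-- torus point -/
def tp (t : T) : Om := ⟨t.1.1, t.1.2, (mem_T.mp t.2).1.le, (mem_T.mp t.2).2.le, Or.inl (mem_T.mp t.2).1⟩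

/-- closed boundary -/
def KB : Set (WeakDual.characterSpace ℂ A) := Set.range (fun t : T => ev (tp t))

lemma KB_closed : IsClosed KB := by
  have : CompactSpace T := isCompact_iff_compactSpace.mp T_compact
  have hc : Continuous (fun t : T => ev (tp t)) := by
    apply Continuous.subtype_mk
    apply WeakDual.continuous_of_continuous_eval
    rintro ⟨M, f, ⟨F, hF, hf⟩, rfl⟩
    have h1 : ∀ t : T, (StrongDual.toWeakDual (evL (tp t))) (⟨Mop f, ⟨f, ⟨F, hF, hf⟩, rfl⟩⟩ : A) = F t.1 := by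
      intro t
      change (Mop f 1) (tp t) = F t.1
      rw [Mop_one, hf]; rfl
    simp only [h1]
    have h2 : ContinuousOn F T := hF.cont.mono (fun p hp => by
      rw [mem_T] at hp
      exact mem_KD.mpr ⟨hp.1.le, hp.2.le⟩)
    exact continuousOn_iff_continuous_domRestrict.mp h2
  exact (isCompact_range hc).isClosed

lemma norm_one_A : ‖(1 : A)‖ ≤ 1 := ContinuousLinearMap.norm_id_le

lemma KB_boundary (a : A) : ∃ χ ∈ KB, ∀ ψ : WeakDual.characterSpace ℂ A, ‖ψ a‖ ≤ ‖χ a‖ := by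
  have : CompleteSpace A := A_closed.completeSpace_coe
  obtain ⟨M, f, ⟨F, hF, hf⟩, rfl⟩ := a
  have hcT : ContinuousOn (fun p => ‖F p‖) T := (hF.cont.mono (fun p hp => by
      rw [mem_T] at hp
      exact mem_KD.mpr ⟨hp.1.le, hp.2.le⟩)).norm
  have hne : T.Nonempty := ⟨(2, 1), by rw [mem_T]; simp⟩
  obtain ⟨t, htT, ht⟩ := T_compact.exists_isMaxOn hne hcT
  refine ⟨ev (tp ⟨t, htT⟩), ⟨⟨t, htT⟩, rfl⟩, fun ψ => ?_⟩
  have h1 : ev (tp ⟨t, htT⟩) (⟨Mop f, ⟨f, ⟨F, hF, hf⟩, rfl⟩⟩ : A) = F t := by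
    rw [ev_app]
    change (Mop f 1) (tp ⟨t, htT⟩) = F t
    rw [Mop_one, hf]; rfl
  rw [h1]
  have h2 : ‖f‖ ≤ ‖F t‖ := by
    rw [BoundedContinuousFunction.norm_le (norm_nonneg _)]
    intro p
    rw [hf]
    exact hF.max_torus (fun z w hz hw => ht (show (z, w) ∈ T from mem_T.mpr ⟨hz, hw⟩)) p.hz p.hw
  have h3 : ‖ψ (⟨Mop f, ⟨f, ⟨F, hF, hf⟩, rfl⟩⟩ : A)‖ ≤ ‖(⟨Mop f, ⟨f, ⟨F, hF, hf⟩, rfl⟩⟩ : A)‖ * ‖(1 : A)‖ :=
    AlgHom.norm_apply_le_self_mul_norm_one ψ _
  have h4 : ‖(⟨Mop f, ⟨f, ⟨F, hF, hf⟩, rfl⟩⟩ : A)‖ = ‖f‖ := Mop_norm f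
  rw [h4] at h3
  calc _ ≤ ‖f‖ * ‖(1 : A)‖ := h3
    _ ≤ ‖f‖ * 1 := mul_le_mul_of_nonneg_left norm_one_A (norm_nonneg _)
    _ ≤ ‖F t‖ := by rw [mul_one]; exact h2

/-- `M_w` -/
noncomputable def Mw : X →L[ℂ] X := Mop (res _ Cls.snd)

lemma Mw_mem : Mw ∈ A := res_mem _ _

lemma U_Mw : U.val * Mw = c0 • (Mw * U.val) := by
  ext f p
  change u p * ((c0 * p.w) * f (rot c0 c0_norm p)) = c0 * (p.w * (u p * f (rot c0 c0_norm p)))
  ring

lemma conj_abs {R : Type} [Ring R] [Algebra ℂ R] (V : Rˣ) (M : R) (c : ℂ)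
    (h : V.val * M = c • (M * V.val)) (n : ℕ) : (V ^ n).val * M * (V ^ n).inv = c ^ n • M := by
  have h1 : (V ^ n).val * M = c ^ n • (M * (V ^ n).val) := by
    induction n with
    | zero => simp
    | succ n ih =>
      rw [pow_succ V, Units.val_mul, mul_assoc, h, mul_smul_comm, ← mul_assoc, ih,
        smul_mul_assoc, smul_smul, mul_assoc, pow_succ c, mul_comm c]
  rw [h1, smul_mul_assoc, mul_assoc]
  have : (V ^ n).val * (V ^ n).inv = 1 := (V ^ n).val_inv
  rw [this, mul_one]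

lemma conj_Mw (n : ℕ) : (U ^ n).val * Mw * (U ^ n).inv = c0 ^ n • Mw :=
  conj_abs U Mw c0 U_Mw n

lemma not_periodic (t : T) (n : ℕ) (hn : 0 < n)
    (h : ∀ (a : X →L[ℂ] X) (ha : a ∈ A) (b : X →L[ℂ] X) (hb : b ∈ A),
            b = (U ^ n).val * a * (U ^ n).inv → (ev (tp t)) (⟨b, hb⟩ : A) = (ev (tp t)) (⟨a, ha⟩ : A)) :
    False := by
  have h1 := h Mw Mw_mem (c0 ^ n • Mw) (A.smul_mem Mw_mem _) (conj_Mw n).symm
  rw [ev_app, ev_app] at h1
  have h2 : c0 ^ n * ((tp t).w * 1) = (tp t).w * 1 := h1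
  have h3 : (tp t).w ≠ 0 := by
    intro h0
    have h4 : ‖(tp t).w‖ = 1 := (mem_T.mp t.2).2
    rw [h0, norm_zero] at h4
    exact zero_ne_one h4
  rw [mul_one] at h2
  have h5 : c0 ^ n = 1 := mul_right_cancel₀ h3 (by rw [h2, one_mul])
  exact c0_pow n hn h5

lemma no_solution (b : X →L[ℂ] X) (hb : b ∈ A) : (1 : X →L[ℂ] X) ≠ (1 : ℂ) • b - Mz * (U.val * b * U.inv) := by
  obtain ⟨f, ⟨F, hF, hf⟩, rfl⟩ := hb
  intro h
  rw [conj_Mop f (res _ (hF.rot c0_norm)) (fun p => by rw [res_apply, hf]; rfl)] at h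
  have h1 := congrArg (fun M : X →L[ℂ] X => (M 1) ⟨1, 0, by norm_num, by norm_num, Or.inr rfl⟩) h
  have h2 : (1 : ℂ) = 1 * (f ⟨1, 0, by norm_num, by norm_num, Or.inr rfl⟩ * 1) - 1 * (F (1, c0 * 0) * 1) := h1
  rw [hf] at h2
  have h3 : Om.pt ⟨1, 0, by norm_num, by norm_num, Or.inr rfl⟩ = (1, c0 * 0) := by
    rw [mul_zero]; rfl
  rw [h3] at h2
  simp at h2

end Pool.Agent.H7Shift2
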