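import Pool.Agent.H7GNS
set_option autoImplicit false
open scoped ComplexConjugate Topology
open Filter

namespace Pool.Agent.H7Sys
open Pool.Agent.H7GNS

/-- the shift homeomorphism of `ℤ → ℝ`. -/
def shift : (ℤ → ℝ) ≃ₜ (ℤ → ℝ) where
  toFun x n := x (n + 1)
  invFun x n := x (n - 1)
  left_inv x := by ext n; simp
  right_inv x := by ext n; simp
  continuous_toFun := by fun_prop
  continuous_invFun := by fun_prop

@[simp] lemma shift_apply (x : ℤ → ℝ) (n : ℤ) : shift x n = x (n + 1) := rfl
@[simp] lemma shift_symm_apply (x : ℤ → ℝ) (n : ℤ) : shift.symm x n = x (n - 1) := rfl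

/-- the orbit of `phi` -/
def orb : Set (ℤ → ℝ) := Set.range (fun (k : ℤ) (n : ℤ) => phi (n + k))

/-- the orbit closure of `phi` -/
def XS : Set (ℤ → ℝ) := closure orb

lemma phi_mem : phi ∈ XS := subset_closure ⟨0, by ext n; simp⟩

lemma orb_shift : shift '' orb = orb := by
  ext y
  constructor
  · rintro ⟨_, ⟨k, rfl⟩, rfl⟩
    refine ⟨k + 1, ?_⟩
    ext n
    simp only [shift_apply]
    congr 1; ring
  · rintro ⟨k, rfl⟩
    refine ⟨fun n => phi (n + (k - 1)), ⟨k - 1, rfl⟩, ?_⟩
    ext n
    simp only [shift_apply]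
    congr 1; ring

lemma XS_shift : shift '' XS = XS := by
  unfold XS
  rw [Homeomorph.image_closure, orb_shift]

lemma mem_XS_iff (x : ℤ → ℝ) : x ∈ XS ↔ shift x ∈ XS := by
  conv_rhs => rw [← XS_shift]
  exact (shift.injective.mem_set_image).symm

lemma XS_compact : IsCompact XS := by
  have h1 : IsCompact (Set.pi Set.univ (fun _ : ℤ => Set.Icc (0:ℝ) 1)) :=
    isCompact_univ_pi (fun _ => isCompact_Icc)
  refine h1.of_isClosed_subset isClosed_closure ?_
  refine closure_minimal ?_ h1.isClosed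
  rintro _ ⟨k, rfl⟩
  intro n _
  exact ⟨(phi_nonneg_le _).1, (phi_nonneg_le _).2.1⟩

section rep
variable {H : Type} [NormedAddCommGroup H] [InnerProductSpace ℂ H] [CompleteSpace H]
  (U : H ≃ₗᵢ[ℂ] H) (x : ℤ → H)

/-- the set of real sequences represented by the unit ball -/
def KS : Set (ℤ → ℝ) := {y | ∃ h : H, ‖h‖ ≤ 1 ∧ ∀ m : ℤ, inner ℂ (x (-m)) h = (y m : ℂ)}

lemma KS_closed : IsClosed (KS x) := by
  let Ψ : WeakDual ℂ H → (ℤ → ℂ) := fun ψ m => conj (ψ (x (-m)))
  have hΨ : Continuous Ψ := by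
    apply continuous_pi
    intro m
    exact Complex.continuous_conj.comp (WeakDual.eval_continuous _)
  have hc : IsCompact (Ψ '' (WeakDual.toStrongDual ⁻¹' Metric.closedBall (0 : StrongDual ℂ H) 1)) :=
    (WeakDual.isCompact_closedBall _ _).image hΨ
  have hcont : Continuous (fun (y : ℤ → ℝ) (m : ℤ) => (y m : ℂ)) := by fun_prop
  have := hc.isClosed.preimage hcont
  convert this using 1
  ext y
  constructor
  · rintro ⟨h, hn, hy⟩
    refine ⟨StrongDual.toWeakDual (InnerProductSpace.toDual ℂ H h), ?_, ?_⟩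
    · rw [Set.mem_preimage, mem_closedBall_zero_iff]
      change ‖InnerProductSpace.toDual ℂ H h‖ ≤ 1
      rwa [LinearIsometryEquiv.norm_map]
    · ext m
      change conj (InnerProductSpace.toDual ℂ H h (x (-m))) = _
      rw [InnerProductSpace.toDual_apply_apply, inner_conj_symm, hy]
  · rintro ⟨ψ, hψ, hy⟩
    refine ⟨(InnerProductSpace.toDual ℂ H).symm (WeakDual.toStrongDual ψ), ?_, ?_⟩
    · rw [LinearIsometryEquiv.norm_map]
      rwa [Set.mem_preimage, mem_closedBall_zero_iff] at hψ
    · intro m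
      have := congrFun hy m
      simp only [Ψ] at this
      rw [← this, ← inner_conj_symm, InnerProductSpace.toDual_symm_apply]
      rfl

variable {x}

lemma XS_sub (hx : ∀ m n, inner ℂ (x m) (x n) = (phi (n - m) : ℂ)) : XS ⊆ KS x := by
  refine closure_minimal ?_ (KS_closed x)
  rintro _ ⟨k, rfl⟩
  refine ⟨x k, ?_, ?_⟩
  · have h1 : ‖x k‖ ^ 2 = 1 := by
      rw [← inner_self_eq_norm_sq (𝕜 := ℂ), hx, sub_self, phi_zero]; simp
    have h2 : ‖x k‖ = 1 := by
      have h3 := norm_nonneg (x k)
      nlinarith [sq_nonneg (‖x k‖ - 1), sq_nonneg (‖x k‖ + 1)]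
    rw [h2]
  · intro m
    rw [hx]
    congr 2
    ring

end rep

/-- Representation of `XS`. -/
theorem XS_rep : ∃ (H : Type) (_ : NormedAddCommGroup H) (_ : InnerProductSpace ℂ H) (_ : CompleteSpace H)
          (U : H ≃ₗᵢ[ℂ] H) (f : XS → H),
          Function.Injective f ∧ (∀ x, ‖f x‖ ≤ 1) ∧
          (∀ x y : XS, y.1 = shift x.1 → f y = U (f x)) ∧
          ∀ v : H, Continuous (fun x => inner ℂ v (f x)) := by
  obtain ⟨H, _, _, _, U, x, hU, hx, hd⟩ := gns
  have hex : ∀ y : XS, ∃ h : H, ‖h‖ ≤ 1 ∧ ∀ m : ℤ, inner ℂ (x (-m)) h = (y.1 m : ℂ) :=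
    fun y => XS_sub hx y.2
  choose f hf1 hf2 using hex
  refine ⟨H, inferInstance, inferInstance, inferInstance, U, f, ?_, hf1, ?_, ?_⟩
  · intro y z hyz
    ext m
    have h1 := hf2 y m
    have h2 := hf2 z m
    rw [hyz, h2] at h1
    exact (Complex.ofReal_injective h1).symm
  · intro y z hyz
    refine hd.eq_of_inner_right ℂ ?_
    intro v hv
    induction hv using Submodule.span_induction with
    | mem v hv =>
      obtain ⟨n, rfl⟩ := hv
      have h1 := hf2 z (-n)
      have h2 := hf2 y (-n + 1)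
      rw [hyz, shift_apply] at h1
      rw [neg_neg] at h1
      rw [h1, ← h2]
      have : x n = U (x (-(-n + 1))) := by
        rw [hU]; congr 1; ring
      rw [this, LinearIsometryEquiv.inner_map_map]
    | zero => simp
    | add a b _ _ ha hb => rw [inner_add_left, inner_add_left, ha, hb]
    | smul c a _ ha => rw [inner_smul_left, inner_smul_left, ha]
  · intro v
    rw [continuous_iff_continuousAt]
    -- uniform approximation
    have hspan : ∀ w ∈ Submodule.span ℂ (Set.range x), Continuous (fun y => inner ℂ w (f y)) := by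
      intro w hw
      induction hw using Submodule.span_induction with
      | mem w hw =>
        obtain ⟨n, rfl⟩ := hw
        have : (fun y => inner ℂ (x n) (f y)) = fun y : XS => (y.1 (-n) : ℂ) := by
          ext y
          have := hf2 y (-n)
          rwa [neg_neg] at this
        rw [this]
        exact Complex.continuous_ofReal.comp ((continuous_apply _).comp continuous_subtype_val)
      | zero => simp only [inner_zero_left]; exact continuous_const
      | add a b _ _ ha hb => simp only [inner_add_left]; exact ha.add hb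
      | smul c a _ ha => simp only [inner_smul_left]; exact continuous_const.mul ha
    have hcont : Continuous (fun y => inner ℂ v (f y)) := by
      refine continuous_of_uniform_approx_of_continuous ?_
      intro u hu
      obtain ⟨ε, hε, hεu⟩ := Metric.mem_uniformity_dist.mp hu
      obtain ⟨w, hw, hwv⟩ := Metric.dense_iff.mp hd v ε hε
      refine ⟨fun y => inner ℂ w (f y), hspan w hwv, ?_⟩
      intro y
      apply hεu
      rw [dist_eq_norm, ← inner_sub_left]
      calc ‖inner ℂ (v - w) (f y)‖ ≤ ‖v - w‖ * ‖f y‖ := norm_inner_le_norm _ _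
        _ ≤ ‖v - w‖ * 1 := by
          apply mul_le_mul_of_nonneg_left (hf1 y) (norm_nonneg _)
        _ < ε := by
          rw [mul_one, ← dist_eq_norm, dist_comm]
          exact hw
    intro y
    exact hcont.continuousAt

/-- cutoff -/
noncomputable def th (t : ℝ) : ℝ := max 0 (1 - 4 * |t - 1 / 2|)

lemma th_cont : Continuous th := by unfold th; fun_prop

lemma th_half : th (1 / 2) = 1 := by unfold th; norm_num

lemma th_le {t : ℝ} (h : t ≤ 1 / 4) : th t = 0 := by
  unfold th
  apply max_eq_left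
  rw [abs_of_nonpos (by linarith)]
  linarith

lemma th_one : th 1 = 0 := by
  unfold th
  apply max_eq_left
  rw [abs_of_nonneg (by norm_num)]
  norm_num

/-- the code map -/
noncomputable def Th (x : ℤ → ℝ) (n : ℤ) : ℝ := th (x n)

lemma Th_cont : Continuous Th := by
  unfold Th
  exact continuous_pi fun n => th_cont.comp (continuous_apply n)

lemma Th_shift (x : ℤ → ℝ) : Th (shift x) = shift (Th x) := rfl

/-- the factor -/
noncomputable def YS : Set (ℤ → ℝ) := Th '' XS

lemma YS_compact : IsCompact YS := XS_compact.image Th_cont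

lemma YS_shift : shift '' YS = YS := by
  unfold YS
  rw [Set.image_image]
  conv_rhs => rw [← XS_shift, Set.image_image]
  rfl

lemma mem_YS_iff (x : ℤ → ℝ) : x ∈ YS ↔ shift x ∈ YS := by
  conv_rhs => rw [← YS_shift]
  exact (shift.injective.mem_set_image).symm

/-- iterated shift -/
def sh (k : ℤ) (x : ℤ → ℝ) : ℤ → ℝ := fun n => x (n + k)

lemma sh_mem {x : ℤ → ℝ} (hx : x ∈ YS) (k : ℤ) : sh k x ∈ YS := by
  induction k using Int.induction_on with
  | zero =>
    have : sh 0 x = x := by ext n; simp [sh]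
    rw [this]; exact hx
  | succ k ih =>
    rw [mem_YS_iff] at ih
    convert ih using 1
    ext n
    simp only [sh, shift_apply]
    congr 1; ring
  | pred k ih =>
    rw [mem_YS_iff]
    convert ih using 1
    ext n
    simp only [sh, shift_apply]
    congr 1; ring

/-- delta function -/
def del (n : ℤ) : ℝ := if n = 0 then 1 else 0

lemma tendsto_del : Tendsto (fun k : ℕ => sh (4 ^ k) (Th phi)) atTop (𝓝 del) := by
  rw [tendsto_pi_nhds]
  intro n
  obtain ⟨K, hK⟩ := phi_shift n
  apply tendsto_const_nhds.congr'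
  filter_upwards [eventually_ge_atTop K] with k hk
  simp only [sh, Th, del]
  rw [hK k hk]
  by_cases h0 : n = 0
  · subst h0; rw [phi_zero, th_half]; simp
  · rw [if_neg h0, th_le]
    have := (phi_nonneg_le n).2.2 h0
    linarith

lemma tendsto_zero : Tendsto (fun k : ℕ => sh (-(4 ^ k)) del) atTop (𝓝 0) := by
  rw [tendsto_pi_nhds]
  intro n
  apply tendsto_const_nhds.congr'
  filter_upwards [eventually_gt_atTop n.natAbs] with k hk
  simp only [sh, del, Pi.zero_apply]
  have h1 : k < 4 ^ k := Nat.lt_pow_self (by norm_num)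
  have h2 : (n : ℤ) < (4 : ℤ) ^ k := by
    have h3 : (n.natAbs : ℤ) < ((4 ^ k : ℕ) : ℤ) := by exact_mod_cast hk.trans h1
    rw [Nat.cast_pow, Nat.cast_ofNat] at h3
    have h4 : n ≤ (n.natAbs : ℤ) := by omega
    exact lt_of_le_of_lt h4 h3
  rw [if_neg (by omega)]

lemma Thphi_mem : Th phi ∈ YS := ⟨phi, phi_mem, rfl⟩

lemma del_mem : del ∈ YS :=
  YS_compact.isClosed.mem_of_tendsto tendsto_del (Eventually.of_forall fun _ => sh_mem Thphi_mem _)

lemma zero_mem : (0 : ℤ → ℝ) ∈ YS :=
  YS_compact.isClosed.mem_of_tendsto tendsto_zero (Eventually.of_forall fun _ => sh_mem del_mem _)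

/-- Non representability, for any universe of Hilbert spaces and any topologically
equivalent model. -/
theorem YS_not_rep {H : Type*} [NormedAddCommGroup H] [InnerProductSpace ℂ H]
    (U : H ≃ₗᵢ[ℂ] H) (g : YS → H) (hg : Function.Injective g)
    (heq : ∀ x y : YS, y.1 = shift x.1 → g y = U (g x))
    (hc : ∀ v : H, Continuous (fun x => inner ℂ v (g x))) : False := by
  -- iterates
  have hUk : ∀ (k : ℤ) (x y : YS), y.1 = sh k x.1 → g y = (U ^ k) (g x) := by
    intro k
    induction k using Int.induction_on with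
    | zero =>
      intro x y hxy
      have : y = x := Subtype.ext (by rw [hxy]; ext n; simp [sh])
      rw [this]; simp
    | succ k ih =>
      intro x y hxy
      have h1 := ih x ⟨sh k x.1, sh_mem x.2 _⟩ rfl
      have h2 := heq ⟨sh k x.1, sh_mem x.2 _⟩ y (by
        rw [hxy]; ext n; simp only [sh, shift_apply]; ring_nf)
      rw [h2, h1, add_comm, zpow_add, zpow_one]
      rfl
    | pred k ih =>
      intro x y hxy
      have h1 := ih x ⟨sh (-(k:ℤ)) x.1, sh_mem x.2 _⟩ rfl
      have h2 := heq y ⟨sh (-(k:ℤ)) x.1, sh_mem x.2 _⟩ (by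
        rw [hxy]; ext n; simp only [sh, shift_apply]; ring_nf)
      have h3 : g y = U⁻¹ (g ⟨sh (-(k:ℤ)) x.1, sh_mem x.2 _⟩) := by
        rw [h2]; exact (U.symm_apply_apply (g y)).symm
      rw [h3, h1]
      have : (-(k:ℤ) - 1) = (-1) + (-(k:ℤ)) := by ring
      rw [this, zpow_add, zpow_neg_one]
      rfl
  set a := g ⟨Th phi, Thphi_mem⟩ with ha
  set b := g ⟨del, del_mem⟩ with hb
  set z := g ⟨0, zero_mem⟩ with hz
  have hUz : ∀ k : ℤ, (U ^ k) z = z := by
    intro k
    exact (hUk k ⟨0, zero_mem⟩ ⟨0, zero_mem⟩ (by ext n; simp [sh])).symm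
  have h1 : ∀ v : H, Tendsto (fun k : ℕ => inner ℂ v ((U ^ ((4:ℤ) ^ k)) a)) atTop (𝓝 (inner ℂ v b)) := by
    intro v
    have h2 : Tendsto (fun k : ℕ => (⟨sh (4 ^ k) (Th phi), sh_mem Thphi_mem _⟩ : YS)) atTop
        (𝓝 ⟨del, del_mem⟩) := by
      rw [tendsto_subtype_rng]; exact tendsto_del
    have h3 := ((hc v).tendsto _).comp h2
    refine h3.congr ?_
    intro k
    simp only [Function.comp_apply]
    rw [hUk (4 ^ k) ⟨Th phi, Thphi_mem⟩ _ rfl]
  have h2 : ∀ v : H, Tendsto (fun k : ℕ => inner ℂ v ((U ^ (-(4:ℤ) ^ k)) b)) atTop (𝓝 (inner ℂ v z)) := by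
    intro v
    have h2 : Tendsto (fun k : ℕ => (⟨sh (-(4 ^ k)) del, sh_mem del_mem _⟩ : YS)) atTop
        (𝓝 ⟨0, zero_mem⟩) := by
      rw [tendsto_subtype_rng]; exact tendsto_zero
    have h3 := ((hc v).tendsto _).comp h2
    refine h3.congr ?_
    intro k
    simp only [Function.comp_apply]
    rw [hUk (-(4 ^ k)) ⟨del, del_mem⟩ _ rfl]
  -- main identity
  have h3 : Tendsto (fun k : ℕ => inner ℂ (b - z) ((U ^ ((4:ℤ) ^ k)) (a - z))) atTop
      (𝓝 (inner ℂ (b - z) (b - z))) := by
    have := (h1 (b - z)).sub (tendsto_const_nhds (x := inner ℂ (b - z) z))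
    rw [← inner_sub_right] at this
    refine this.congr ?_
    intro k
    rw [map_sub, inner_sub_right _ (_ : H), hUz]
  have h4 : Tendsto (fun k : ℕ => inner ℂ (b - z) ((U ^ ((4:ℤ) ^ k)) (a - z))) atTop (𝓝 0) := by
    have h5 := (h2 (a - z)).sub (tendsto_const_nhds (x := inner ℂ (a - z) z))
    rw [sub_self] at h5
    have h6 := (Complex.continuous_conj.tendsto _).comp h5
    rw [map_zero] at h6
    refine h6.congr ?_
    intro k
    simp only [Function.comp_apply]
    rw [← inner_sub_right, inner_conj_symm]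
    have h7 : (U ^ (-(4:ℤ) ^ k)) b - z = (U ^ (-(4:ℤ) ^ k)) (b - z) := by
      rw [map_sub, hUz]
    rw [h7, ← LinearIsometryEquiv.inner_map_map (U ^ ((4:ℤ) ^ k))]
    congr 1
    change ((U ^ ((4:ℤ) ^ k)) * (U ^ (-(4:ℤ) ^ k))) (b - z) = b - z
    rw [← zpow_add]
    simp
  have h5 : inner ℂ (b - z) (b - z) = 0 := tendsto_nhds_unique h3 h4
  have h6 : b = z := sub_eq_zero.mp (inner_self_eq_zero.mp h5)
  have h7 := hg h6
  have h8 := congrFun (congrArg Subtype.val h7) 0
  simp [del] at h8

/-- The set `{±4^k}`. -/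
def DD : Set ℤ := {n | ∃ k : ℕ, n = 4 ^ k ∨ n = -4 ^ k}

lemma DD_four (q : ℤ) : 4 * q ∈ DD ↔ q ∈ DD := by
  constructor
  · rintro ⟨k, hk⟩
    rcases k with _ | k
    · simp at hk; omega
    · refine ⟨k, ?_⟩
      rw [pow_succ] at hk
      rcases hk with hk | hk
      · left; linarith
      · right; linarith
  · rintro ⟨k, hk⟩
    refine ⟨k + 1, ?_⟩
    rw [pow_succ]
    rcases hk with hk | hk
    · left; linarith
    · right; linarith

lemma DD_not_four (n : ℤ) (h : n ∈ DD) (h4 : n % 4 ≠ 0) : n = 1 ∨ n = -1 := by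
  obtain ⟨k, hk⟩ := h
  rcases k with _ | k
  · simpa using hk
  · exfalso
    rw [pow_succ] at hk
    omega

lemma phi_DD (n : ℤ) : (n ∈ DD → phi n = 1 / 2) ∧ (n ∉ DD → n ≠ 0 → phi n ≤ 1 / 4) := by
  induction h : n.natAbs using Nat.strong_induction_on generalizing n with
  | _ k ih =>
    by_cases h0 : n = 0
    · subst h0
      refine ⟨?_, fun _ h => absurd rfl h⟩
      rintro ⟨k, hk⟩
      have : (4:ℤ) ^ k ≠ 0 := by positivity
      omega
    rcases four_cases n with ⟨q, hq, hlt⟩ | ⟨q, hq, hlt⟩ | ⟨q, hq, hlt⟩ | ⟨q, hq, hlt⟩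
    · have h1 := ih _ (by have := hlt h0; omega) q rfl
      have hq0 : q ≠ 0 := by rintro rfl; simp at hq; exact h0 hq
      rw [hq, phi_four_mul, DD_four]
      exact ⟨h1.1, fun h _ => h1.2 h hq0⟩
    · rw [hq, phi_four_mul_one]
      by_cases hq0 : q = 0
      · subst hq0
        rw [phi_zero]
        refine ⟨fun _ => rfl, fun h => absurd ⟨0, by simp⟩ h⟩
      · refine ⟨fun h => ?_, fun _ _ => ?_⟩
        · rcases DD_not_four _ h (by omega) with h | h <;> omega
        · have := (phi_nonneg_le q).2.2 hq0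
          linarith
    · rw [hq, phi_four_mul_two]
      refine ⟨fun h => ?_, fun _ _ => by norm_num⟩
      rcases DD_not_four _ h (by omega) with h | h <;> omega
    · rw [hq, phi_four_mul_neg_one]
      by_cases hq0 : q = 0
      · subst hq0
        rw [phi_zero]
        refine ⟨fun _ => rfl, fun h => absurd ⟨0, by simp⟩ h⟩
      · refine ⟨fun h => ?_, fun _ _ => ?_⟩
        · rcases DD_not_four _ h (by omega) with h | h <;> omega
        · have := (phi_nonneg_le q).2.2 hq0
          linarith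

lemma Th_phi_DD (n : ℤ) : Th phi n = Set.indicator DD (fun _ => (1 : ℝ)) n := by
  unfold Th
  by_cases h : n ∈ DD
  · rw [(phi_DD n).1 h, th_half, Set.indicator_of_mem h]
  · rw [Set.indicator_of_notMem h]
    by_cases h0 : n = 0
    · subst h0; rw [phi_zero, th_one]
    · exact th_le ((phi_DD n).2 h h0)

lemma YS_eq : YS = closure (Set.range (fun (k : ℤ) (n : ℤ) => Th phi (n + k))) := by
  unfold YS XS
  rw [image_closure_of_isCompact XS_compact Th_cont.continuousOn]
  unfold orb
  rw [← Set.range_comp]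
  rfl

end Pool.Agent.H7Sys
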