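import Mathlib

set_option autoImplicit false

/-! A depth-first search certificate for the absence of directed Hamilton cycles. -/

namespace Pool.Agent.HamCheck

/-- depth-first search for a Hamiltonian completion of a directed path which started at `0`,
ends at `v`, has visited the vertices in the bit set `used`, and has `k` vertices to go. -/
def srch (nb : ℕ → List ℕ) : ℕ → ℕ → ℕ → Bool
  | 0, v, _ => (nb v).any fun w => w == 0
  | k + 1, v, used => (nb v).any fun w => !(used.testBit w) && srch nb k w (used ||| 2 ^ w)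

theorem srch_true (nb : ℕ → List ℕ) (n : ℕ) (g : ℕ → ℕ)
    (hg : ∀ j, g (j + 1) ∈ nb (g j)) (hinj : ∀ i j, i ≤ n → j ≤ n → g i = g j → i = j)
    (hclose : g (n + 1) = 0) :
    ∀ m j used, j + m = n → (∀ w, used.testBit w = true → ∃ i, i ≤ j ∧ g i = w) →
      srch nb m (g j) used = true := by
  intro m
  induction m with
  | zero =>
    intro j used hj _
    have hjn : j = n := by omega
    subst hjn
    simp only [srch, List.any_eq_true]
    refine ⟨g (j + 1), hg j, ?_⟩
    simp [hclose]
  | succ m ih =>
    intro j used hj hused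
    simp only [srch, List.any_eq_true]
    refine ⟨g (j + 1), hg j, ?_⟩
    have h1 : used.testBit (g (j + 1)) = false := by
      by_contra hcon
      have hcon' : used.testBit (g (j + 1)) = true := by simpa using hcon
      obtain ⟨i, hi, hgi⟩ := hused _ hcon'
      have := hinj i (j + 1) (by omega) (by omega) hgi
      omega
    rw [h1]
    simp only [Bool.not_false, Bool.true_and]
    refine ih (j + 1) _ (by omega) ?_
    intro w hw
    rw [Nat.testBit_or, Bool.or_eq_true] at hw
    rcases hw with hw | hw
    · obtain ⟨i, hi, hgi⟩ := hused _ hw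
      exact ⟨i, by omega, hgi⟩
    · rw [Nat.testBit_two_pow] at hw
      exact ⟨j + 1, le_refl _, by simpa using hw⟩

theorem no_ham (n : ℕ) (nb : ℕ → List ℕ) (h : srch nb n 0 1 = false)
    (f : Fin (n + 1) ≃ Fin (n + 1)) :
    ¬ ∀ i, ((f (finRotate (n + 1) i) : Fin (n + 1)) : ℕ) ∈ nb (f i) := by
  intro hf
  set i0 := f.symm 0 with hi0
  let G : ℕ → Fin (n + 1) := fun j => Nat.rec i0 (fun _ x => finRotate (n + 1) x) j
  have hG0 : G 0 = i0 := rfl
  have hGs : ∀ j, G (j + 1) = finRotate (n + 1) (G j) := fun j => rfl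
  have hval : ∀ j, (G j).val = (i0.val + j) % (n + 1) := by
    intro j
    induction j with
    | zero => exact (Nat.mod_eq_of_lt i0.2).symm
    | succ j ih =>
      rw [hGs, finRotate_apply, Fin.val_add, ih]
      rcases Nat.eq_zero_or_pos n with h0 | h0
      · subst h0; simp [Nat.mod_one]
      · have h1 : ((1 : Fin (n + 1)) : ℕ) = 1 := by
          rw [Fin.val_one', Nat.mod_eq_of_lt (by omega)]
        rw [h1]
        simp [← Nat.add_assoc]
  let g : ℕ → ℕ := fun j => (f (G j)).val
  have hg : ∀ j, g (j + 1) ∈ nb (g j) := by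
    intro j
    have := hf (G j)
    rw [← hGs] at this
    exact this
  have hg0 : g 0 = 0 := by simp [g, hG0, hi0]
  have hclose : g (n + 1) = 0 := by
    have : G (n + 1) = G 0 := by
      apply Fin.ext
      have e1 := hval (n + 1)
      have e2 := hval 0
      rw [e1, e2]
      simp
    simp only [g]
    rw [this]
    exact hg0
  have hinj : ∀ i j, i ≤ n → j ≤ n → g i = g j → i = j := by
    intro i j hi hj hij
    have h1 : f (G i) = f (G j) := Fin.ext hij
    have h2 := congrArg Fin.val (f.injective h1)
    rw [hval, hval] at h2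
    have h3 : i0.val < n + 1 := i0.2
    rcases Nat.lt_or_ge (i0.val + i) (n + 1) with hA | hA <;>
    rcases Nat.lt_or_ge (i0.val + j) (n + 1) with hB | hB
    · rw [Nat.mod_eq_of_lt hA, Nat.mod_eq_of_lt hB] at h2; omega
    · rw [Nat.mod_eq_of_lt hA, Nat.mod_eq_sub_mod hB, Nat.mod_eq_of_lt (by omega)] at h2; omega
    · rw [Nat.mod_eq_of_lt hB, Nat.mod_eq_sub_mod hA, Nat.mod_eq_of_lt (by omega)] at h2; omega
    · rw [Nat.mod_eq_sub_mod hB, Nat.mod_eq_sub_mod hA, Nat.mod_eq_of_lt (by omega),
        Nat.mod_eq_of_lt (by omega)] at h2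
      omega
  have := srch_true nb n g hg hinj hclose n 0 1 (by omega) (by
    intro w hw
    refine ⟨0, le_refl _, ?_⟩
    rw [hg0]
    rw [show (1 : ℕ) = 2 ^ 0 by norm_num, Nat.testBit_two_pow] at hw
    simpa using hw)
  rw [hg0] at this
  rw [this] at h
  exact absurd h (by simp)

end Pool.Agent.HamCheck
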