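import Mathlib

namespace Pool.Agent.KM25

open Matrix

/-- strictly upper triangular with square zero -/
def Good {F ι : Type} [Field F] [Fintype ι] [LinearOrder ι] (Y : Matrix ι ι F) : Prop :=
  (∀ i j, j ≤ i → Y i j = 0) ∧ Y * Y = 0

variable {F : Type} [Field F] [Fintype F]

/-- number of good matrices killing v -/
noncomputable def c {ι : Type} [Fintype ι] [LinearOrder ι] (v : ι → F) : ℕ :=
  Nat.card {Y : Matrix ι ι F // Good Y ∧ Y *ᵥ v = 0}

open Classical in
noncomputable def V (F : Type) [Field F] [Fintype F] {ι : Type} [Fintype ι] (U : Finset ι) : Finset (ι → F) :=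
  Fintype.piFinset (fun i => if i ∈ U then Finset.univ else {0})

lemma mem_V {ι : Type} [Fintype ι] (U : Finset ι) (v : ι → F) :
    v ∈ V F U ↔ ∀ i, i ∉ U → v i = 0 := by
  classical
  unfold V
  rw [Fintype.mem_piFinset]
  constructor
  · intro h i hi
    have := h i
    rw [if_neg hi] at this
    simpa using this
  · intro h i
    by_cases hi : i ∈ U
    · simp [hi]
    · simp [hi, h i hi]

lemma card_V {ι : Type} [Fintype ι] (U : Finset ι) :
    (V F U).card = Fintype.card F ^ U.card := by
  classical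
  unfold V
  rw [Fintype.card_piFinset]
  have : ∀ i, (if i ∈ U then (Finset.univ : Finset F) else {0}).card = if i ∈ U then Fintype.card F else 1 := by
    intro i; split_ifs <;> simp
  simp_rw [this]
  rw [Finset.prod_ite_mem]
  simp

noncomputable def N (F : Type) [Field F] [Fintype F] {ι : Type} [Fintype ι] [LinearOrder ι] (U : Finset ι) : ℕ :=
  ∑ v ∈ V F U, c v

omit [Fintype F] in
lemma strict_conj {ι : Type} [Fintype ι] [LinearOrder ι] (A Y B : Matrix ι ι F)
    (hA : A.BlockTriangular id) (hB : B.BlockTriangular id) (hY : ∀ i j, j ≤ i → Y i j = 0) :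
    ∀ i j, j ≤ i → (A * Y * B) i j = 0 := by
  intro i j hij
  rw [Matrix.mul_apply]
  apply Finset.sum_eq_zero
  intro l _
  by_cases hl : j < l
  · rw [hB hl, mul_zero]
  · rw [Matrix.mul_apply]
    have : ∑ k, A i k * Y k l = 0 := by
      apply Finset.sum_eq_zero
      intro k _
      by_cases hk : k < i
      · rw [hA hk, zero_mul]
      · rw [hY k l (by push Not at hl hk; exact hl.trans (hij.trans hk)), mul_zero]
    rw [this, zero_mul]

lemma c_conj {ι : Type} [Fintype ι] [LinearOrder ι] (a : ι) (v : ι → F) (hva : v a ≠ 0)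
    (hv : ∀ j, a < j → v j = 0) : c v = c (Pi.single a (1 : F)) := by
  classical
  set P : Matrix ι ι F := (1 : Matrix ι ι F).updateCol a v with hP
  have hPa : ∀ i j, P i j = if j = a then v i else (1 : Matrix ι ι F) i j := by
    intro i j
    rw [hP, Matrix.updateCol_apply]
  have hPt : P.BlockTriangular id := by
    intro i j hij
    simp only [id] at hij
    rw [hPa]
    split_ifs with h
    · subst h; exact hv _ hij
    · exact Matrix.one_apply_ne hij.ne'
  have hdet : P.det = v a := by
    rw [Matrix.det_of_isUpperTriangular hPt]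
    have : ∀ i, P i i = if i = a then v a else 1 := by
      intro i
      rw [hPa]
      split_ifs with h
      · rw [h]
      · simp
    simp_rw [this]
    simp
  have hdu : IsUnit P.det := by rw [hdet]; exact isUnit_iff_ne_zero.mpr hva
  have : Invertible P := Matrix.invertibleOfIsUnitDet P hdu
  have hQt : (P⁻¹).BlockTriangular id := Matrix.blockTriangular_inv_of_blockTriangular hPt
  have hPQ : P * P⁻¹ = 1 := Matrix.mul_nonsing_inv P hdu
  have hQP : P⁻¹ * P = 1 := Matrix.nonsing_inv_mul P hdu
  have hPe : P *ᵥ (Pi.single a (1 : F)) = v := by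
    ext i
    rw [Matrix.mulVec_single_one]
    simp [hPa, Matrix.col]
  have hQv : P⁻¹ *ᵥ v = Pi.single a (1 : F) := by
    rw [← hPe, Matrix.mulVec_mulVec, hQP, Matrix.one_mulVec]
  unfold c
  refine Nat.card_congr
    { toFun := fun Y => ⟨P⁻¹ * Y.1 * P, ⟨strict_conj _ _ _ hQt hPt Y.2.1.1, ?_⟩, ?_⟩
      invFun := fun Y => ⟨P * Y.1 * P⁻¹, ⟨strict_conj _ _ _ hPt hQt Y.2.1.1, ?_⟩, ?_⟩
      left_inv := ?_
      right_inv := ?_ }
  · have h := Y.2.1.2
    calc P⁻¹ * Y.1 * P * (P⁻¹ * Y.1 * P) = P⁻¹ * Y.1 * (P * P⁻¹) * Y.1 * P := by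
          simp only [Matrix.mul_assoc]
      _ = P⁻¹ * (Y.1 * Y.1) * P := by rw [hPQ, Matrix.mul_one]; simp only [Matrix.mul_assoc]
      _ = 0 := by rw [h]; simp
  · have h := Y.2.2
    rw [← Matrix.mulVec_mulVec, hPe, ← Matrix.mulVec_mulVec, h, Matrix.mulVec_zero]
  · have h := Y.2.1.2
    calc P * Y.1 * P⁻¹ * (P * Y.1 * P⁻¹) = P * Y.1 * (P⁻¹ * P) * Y.1 * P⁻¹ := by
          simp only [Matrix.mul_assoc]
      _ = P * (Y.1 * Y.1) * P⁻¹ := by rw [hQP, Matrix.mul_one]; simp only [Matrix.mul_assoc]
      _ = 0 := by rw [h]; simp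
  · have h := Y.2.2
    rw [← Matrix.mulVec_mulVec, hQv, ← Matrix.mulVec_mulVec, h, Matrix.mulVec_zero]
  · intro Y
    apply Subtype.ext
    show P * (P⁻¹ * Y.1 * P) * P⁻¹ = Y.1
    calc P * (P⁻¹ * Y.1 * P) * P⁻¹ = (P * P⁻¹) * Y.1 * (P * P⁻¹) := by simp only [Matrix.mul_assoc]
      _ = Y.1 := by rw [hPQ]; simp
  · intro Y
    apply Subtype.ext
    show P⁻¹ * (P * Y.1 * P⁻¹) * P = Y.1
    calc P⁻¹ * (P * Y.1 * P⁻¹) * P = (P⁻¹ * P) * Y.1 * (P⁻¹ * P) := by simp only [Matrix.mul_assoc]
      _ = Y.1 := by rw [hQP]; simp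

lemma N_erase {ι : Type} [Fintype ι] [LinearOrder ι] (U : Finset ι) (a : ι) (ha : a ∈ U)
    (hmax : ∀ i ∈ U, i ≤ a) :
    (N F U : ℚ) = N F (U.erase a) + ((Fintype.card F : ℚ) ^ U.card - (Fintype.card F : ℚ) ^ (U.card - 1)) *
      c (Pi.single a (1 : F)) := by
  classical
  have hsub : V F (U.erase a) ⊆ V F U := by
    intro v hv
    rw [mem_V] at hv ⊢
    intro i hi
    exact hv i (fun h => hi (Finset.mem_of_mem_erase h))
  unfold N
  rw [← Finset.sum_sdiff hsub]
  have h1 : ∑ v ∈ V F U \ V F (U.erase a), c v = ∑ v ∈ V F U \ V F (U.erase a), c (Pi.single a (1 : F)) := by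
    apply Finset.sum_congr rfl
    intro v hv
    rw [Finset.mem_sdiff, mem_V, mem_V] at hv
    obtain ⟨h1, h2⟩ := hv
    have hva : v a ≠ 0 := by
      intro h0
      apply h2
      intro i hi
      by_cases hia : i = a
      · rw [hia]; exact h0
      · exact h1 i (fun h => hi (Finset.mem_erase.mpr ⟨hia, h⟩))
    apply c_conj a v hva
    intro j hj
    apply h1
    intro hjU
    exact absurd (hmax j hjU) (not_le.mpr hj)
  rw [h1, Finset.sum_const, Finset.card_sdiff_of_subset hsub, card_V, card_V, Finset.card_erase_of_mem ha]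
  have hle : Fintype.card F ^ (U.card - 1) ≤ Fintype.card F ^ U.card :=
    Nat.pow_le_pow_right (Fintype.card_pos) (Nat.sub_le _ _)
  rw [smul_eq_mul]
  push_cast [Nat.cast_sub hle]
  ring


/-- deleting row and column a and transposing -/
abbrev Del {ι : Type} [LinearOrder ι] (a : ι) : Type := ({j : ι // j ≠ a})ᵒᵈ

/-- the elements above a -/
def Ab {ι : Type} [Fintype ι] [LinearOrder ι] (a : ι) : Finset (Del a) :=
  Finset.univ.filter (fun j => a < (OrderDual.ofDual j).1)

lemma sum_del {ι : Type} [Fintype ι] [LinearOrder ι] {M : Type} [AddCommMonoid M] (a : ι) (f : ι → M) :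
    ∑ i, f i = f a + ∑ j : Del a, f (OrderDual.ofDual j).1 := by
  classical
  exact Fintype.sum_eq_add_sum_subtype_ne f a

/-- reinsert -/
noncomputable def up {ι : Type} [LinearOrder ι] (a : ι) (Z : Matrix (Del a) (Del a) F) (ρ : Del a → F) :
    Matrix ι ι F :=
  Matrix.of fun i j => if hj : j = a then 0 else if hi : i = a then ρ (OrderDual.toDual ⟨j, hj⟩)
      else Z (OrderDual.toDual ⟨j, hj⟩) (OrderDual.toDual ⟨i, hi⟩)

omit [Fintype F] in
lemma up_col {ι : Type} [LinearOrder ι] (a : ι) (Z : Matrix (Del a) (Del a) F) (ρ : Del a → F) (i : ι) :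
    up a Z ρ i a = 0 := by
  simp [up]

omit [Fintype F] in
lemma up_row {ι : Type} [LinearOrder ι] (a : ι) (Z : Matrix (Del a) (Del a) F) (ρ : Del a → F) (j : Del a) :
    up a Z ρ a (OrderDual.ofDual j).1 = ρ j := by
  have hk' : (OrderDual.ofDual j).1 ≠ a := (OrderDual.ofDual j).2
  simp [up, hk']

omit [Fintype F] in
lemma up_other {ι : Type} [LinearOrder ι] (a : ι) (Z : Matrix (Del a) (Del a) F) (ρ : Del a → F) (i j : Del a) :
    up a Z ρ (OrderDual.ofDual i).1 (OrderDual.ofDual j).1 = Z j i := by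
  have hk' : (OrderDual.ofDual j).1 ≠ a := (OrderDual.ofDual j).2
  have hk'' : (OrderDual.ofDual i).1 ≠ a := (OrderDual.ofDual i).2
  simp [up, hk', hk'']

omit [Fintype F] in
lemma up_good {ι : Type} [Fintype ι] [LinearOrder ι] (a : ι) (Z : Matrix (Del a) (Del a) F) (ρ : Del a → F)
    (hZ : Good Z) (hk : Z *ᵥ ρ = 0) (hV : ∀ j ∉ Ab a, ρ j = 0) : Good (up a Z ρ) := by
  obtain ⟨hs, hsq⟩ := hZ
  have key : ∀ i : ι, i = a ∨ ∃ j : Del a, i = (OrderDual.ofDual j).1 := by
    intro i
    by_cases hi : i = a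
    · exact Or.inl hi
    · exact Or.inr ⟨OrderDual.toDual ⟨i, hi⟩, rfl⟩
  constructor
  · intro i j hij
    rcases key j with hj | ⟨j', hj⟩
    · rw [hj, up_col]
    · rcases key i with hi | ⟨i', hi⟩
      · rw [hi, hj, up_row]
        apply hV
        simp only [Ab, Finset.mem_filter, Finset.mem_univ, true_and, not_lt]
        rw [← hj, ← hi]
        exact hij
      · rw [hi, hj, up_other]
        apply hs
        rw [hi, hj] at hij
        exact hij
  · ext i j
    rw [Matrix.mul_apply, sum_del a, up_col, zero_mul, zero_add, Matrix.zero_apply]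
    rcases key j with hj | ⟨j', hj⟩
    · rw [hj]
      apply Finset.sum_eq_zero
      intro k _
      rw [up_col, mul_zero]
    · rcases key i with hi | ⟨i', hi⟩
      · rw [hi, hj]
        have h := congrFun hk j'
        simp only [Matrix.mulVec, dotProduct, Pi.zero_apply] at h
        rw [← h]
        apply Finset.sum_congr rfl
        intro k _
        rw [up_row, up_other, mul_comm]
      · rw [hi, hj]
        have h := congrFun (congrFun hsq j') i'
        rw [Matrix.mul_apply] at h
        rw [Matrix.zero_apply] at h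
        rw [← h]
        apply Finset.sum_congr rfl
        intro k _
        rw [up_other, up_other, mul_comm]

/-- the deletion data of a matrix with zero column a -/
noncomputable def delEquiv {ι : Type} [Fintype ι] [LinearOrder ι] (a : ι) :
    {Y : Matrix ι ι F // Good Y ∧ Y *ᵥ (Pi.single a (1 : F)) = 0} ≃
    {p : Matrix (Del a) (Del a) F × (Del a → F) // Good p.1 ∧ p.1 *ᵥ p.2 = 0 ∧ p.2 ∈ V F (Ab a)} where
  toFun Y := ⟨(Matrix.of fun i j => Y.1 (OrderDual.ofDual j).1 (OrderDual.ofDual i).1,
      fun j => Y.1 a (OrderDual.ofDual j).1), by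
    obtain ⟨Y, ⟨hs, hsq⟩, hc⟩ := Y
    have hc' : ∀ i, Y i a = 0 := by
      intro i
      have := congrFun hc i
      rw [Matrix.mulVec_single_one] at this
      simpa using this
    refine ⟨⟨?_, ?_⟩, ?_, ?_⟩
    · intro i j hij
      exact hs _ _ hij
    · ext i j
      have h := congrFun (congrFun hsq (OrderDual.ofDual j).1) (OrderDual.ofDual i).1
      rw [Matrix.mul_apply, sum_del a] at h
      rw [hc', zero_mul, zero_add] at h
      rw [Matrix.mul_apply]
      simp only [Matrix.zero_apply, Matrix.of_apply] at h ⊢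
      rw [← h]
      apply Finset.sum_congr rfl
      intro k _
      ring
    · ext i
      have h := congrFun (congrFun hsq a) (OrderDual.ofDual i).1
      rw [Matrix.mul_apply, sum_del a] at h
      rw [hc', zero_mul, zero_add] at h
      simp only [Matrix.mulVec, dotProduct]
      simp only [Matrix.zero_apply, Pi.zero_apply, Matrix.of_apply] at h ⊢
      rw [← h]
      apply Finset.sum_congr rfl
      intro k _
      ring
    · rw [mem_V]
      intro j hj
      apply hs
      simp only [Ab, Finset.mem_filter, Finset.mem_univ, true_and, not_lt] at hj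
      exact hj⟩
  invFun p := ⟨up a p.1.1 p.1.2, up_good a _ _ p.2.1 p.2.2.1 ((mem_V _ _).mp p.2.2.2), by
    ext i
    rw [Matrix.mulVec_single_one]
    simp [Matrix.col, up_col]⟩
  left_inv Y := by
    obtain ⟨Y, ⟨hs, hsq⟩, hc⟩ := Y
    have hc' : ∀ i, Y i a = 0 := by
      intro i
      have := congrFun hc i
      rw [Matrix.mulVec_single_one] at this
      simpa using this
    apply Subtype.ext
    ext i j
    by_cases hj : j = a
    · simp [up, hj, hc']
    · by_cases hi : i = a
      · simp [up, hj, hi]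
      · simp [up, hj, hi]
  right_inv p := by
    obtain ⟨⟨Z, ρ⟩, ⟨hs, hsq⟩, hk, hV⟩ := p
    apply Subtype.ext
    apply Prod.ext
    · ext i j
      simp only [Matrix.of_apply, up_other]
    · ext j
      simp only [up_row]

lemma c_single {ι : Type} [Fintype ι] [LinearOrder ι] (a : ι) :
    c (Pi.single a (1 : F)) = N F (Ab a) := by
  classical
  unfold c N
  rw [Nat.card_congr (delEquiv a)]
  have e : {p : Matrix (Del a) (Del a) F × (Del a → F) // Good p.1 ∧ p.1 *ᵥ p.2 = 0 ∧ p.2 ∈ V F (Ab a)} ≃
      (Σ v : {v : Del a → F // v ∈ V F (Ab a)}, {Y : Matrix (Del a) (Del a) F // Good Y ∧ Y *ᵥ v.1 = 0}) :=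
    { toFun := fun p => ⟨⟨p.1.2, p.2.2.2⟩, ⟨p.1.1, p.2.1, p.2.2.1⟩⟩
      invFun := fun s => ⟨(s.2.1, s.1.1), s.2.2.1, s.2.2.2, s.1.2⟩
      left_inv := fun p => rfl
      right_inv := fun s => rfl }
  rw [Nat.card_congr e, Nat.card_sigma]
  exact Finset.sum_coe_sort (V F (Ab a)) (fun v => Nat.card {Y : Matrix (Del a) (Del a) F // Good Y ∧ Y *ᵥ v = 0})


/-- the normalised triangle -/
def be (q : ℚ) : ℕ → ℕ → ℚ
  | 0, _ => 1
  | m + 1, 0 => be q m m
  | m + 1, k + 1 => be q (m + 1) k + (q ^ (k + 1) - q ^ k) * be q m (m - k)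
termination_by m k => (m, k)

lemma N_empty {ι : Type} [Fintype ι] [LinearOrder ι] :
    N F (∅ : Finset ι) = Nat.card {Y : Matrix ι ι F // Good Y} := by
  classical
  have hV : V F (∅ : Finset ι) = {0} := by
    ext v
    rw [mem_V, Finset.mem_singleton]
    constructor
    · intro h
      ext i
      exact h i (Finset.notMem_empty i)
    · intro h i _
      rw [h]; rfl
  unfold N
  rw [hV, Finset.sum_singleton]
  unfold c
  apply Nat.card_congr
  apply Equiv.subtypeEquivRight
  intro Y
  simp

lemma card_Ab_le {ι : Type} [Fintype ι] [LinearOrder ι] (a : ι) (U : Finset ι) (ha : a ∈ U)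
    (hmax : ∀ i ∈ U, i ≤ a) (hlow : ∀ i ∈ U, ∀ j, j ≤ i → j ∈ U) :
    (Ab a).card = Fintype.card ι - U.card := by
  classical
  rw [← Finset.card_compl]
  apply Finset.card_bij (fun (j : Del a) _ => (OrderDual.ofDual j).1)
  · intro j hj
    simp only [Ab, Finset.mem_filter, Finset.mem_univ, true_and] at hj
    rw [Finset.mem_compl]
    intro h
    exact absurd (hmax _ h) (not_le.mpr hj)
  · intro j _ j' _ h
    exact OrderDual.ofDual.injective (Subtype.ext h)
  · intro i hi
    rw [Finset.mem_compl] at hi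
    have hai : a < i := by
      by_contra h
      exact hi (hlow a ha i (not_lt.mp h))
    exact ⟨OrderDual.toDual ⟨i, hai.ne'⟩, by simp [Ab, hai], rfl⟩

theorem N_eq (F : Type) [Field F] [Fintype F] : ∀ (m : ℕ) (ι : Type) [Fintype ι] [LinearOrder ι], Fintype.card ι = m →
    ∀ U : Finset ι, (∀ i ∈ U, ∀ j, j ≤ i → j ∈ U) →
      (N F U : ℚ) = be (Fintype.card F) m U.card := by
  intro m
  induction m with
  | zero =>
    intro ι _ _ hι U hU
    have hem : IsEmpty ι := Fintype.card_eq_zero_iff.mp hι
    have hU0 : U = ∅ := Finset.eq_empty_of_isEmpty U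
    rw [hU0, N_empty, be]
    have : Nat.card {Y : Matrix ι ι F // Good Y} = 1 := by
      rw [Nat.card_eq_one_iff_unique]
      refine ⟨⟨?_⟩, ⟨0, ?_⟩⟩
      · intro x y
        apply Subtype.ext
        ext i
        exact hem.elim i
      · exact ⟨fun i => hem.elim i, by simp⟩
    rw [this]; norm_num
  | succ m ih =>
    intro ι _ _ hι U
    -- the induction step through deletion
    have hdel : ∀ a : ι, (c (Pi.single a (1 : F)) : ℚ) = be (Fintype.card F) m (Ab a).card := by
      intro a
      rw [c_single]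
      apply ih
      · have : Fintype.card (Del a) = Fintype.card ι - 1 := by
          have h1 : Fintype.card (Del a) = Fintype.card {j : ι // j ≠ a} := Fintype.card_congr (OrderDual.ofDual)
          rw [h1]
          have := Fintype.card_subtype_compl (fun j : ι => j = a)
          rw [Fintype.card_subtype_eq] at this
          exact this
        rw [this, hι]; rfl
      · intro i hi j hij
        simp only [Ab, Finset.mem_filter, Finset.mem_univ, true_and] at hi ⊢
        exact lt_of_lt_of_le hi hij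
    induction hk : U.card generalizing U with
    | zero =>
      intro hU
      have hU0 : U = ∅ := Finset.card_eq_zero.mp hk
      rw [hU0, N_empty, be]
      have hne : (Finset.univ : Finset ι).Nonempty := by
        rw [← Finset.card_pos, Finset.card_univ, hι]; omega
      obtain ⟨a, _, ha⟩ := Finset.exists_min_image Finset.univ (fun i : ι => i) hne
      have h1 : Nat.card {Y : Matrix ι ι F // Good Y} = c (Pi.single a (1 : F)) := by
        unfold c
        apply Nat.card_congr
        apply Equiv.subtypeEquivRight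
        intro Y
        constructor
        · intro h
          refine ⟨h, ?_⟩
          ext i
          rw [Matrix.mulVec_single_one]
          exact h.1 i a (ha i (Finset.mem_univ i))
        · intro h; exact h.1
      rw [h1, hdel]
      congr 1
      have := card_Ab_le a {a} (Finset.mem_singleton_self a) (by intro i hi; rw [Finset.mem_singleton.mp hi])
        (by
          intro i hi j hj
          rw [Finset.mem_singleton] at hi ⊢
          rw [hi] at hj
          exact le_antisymm hj (ha j (Finset.mem_univ j)))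
      rw [this, hι]
      simp
    | succ k ihk =>
      intro hU
      have hne : U.Nonempty := by rw [← Finset.card_pos]; omega
      obtain ⟨a, haU, ha⟩ := Finset.exists_max_image U (fun i : ι => i) hne
      have hcard : (U.erase a).card = k := by rw [Finset.card_erase_of_mem haU, hk]; rfl
      rw [N_erase U a haU ha, ihk (U.erase a) hcard, hdel, card_Ab_le a U haU ha hU, hk, hι, be]
      · congr 3
        omega
      · intro i hi j hj
        rw [Finset.mem_erase] at hi ⊢
        refine ⟨?_, hU i hi.2 j hj⟩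
        rintro rfl
        exact hi.1 (le_antisymm (ha i hi.2) hj)

theorem card_good (F : Type) [Field F] [Fintype F] (n : ℕ) :
    (Nat.card {Y : Matrix (Fin (n + 1)) (Fin (n + 1)) F // Good Y} : ℚ) = be (Fintype.card F) n n := by
  rw [← N_empty, N_eq F (n + 1) (Fin (n + 1)) (by simp) ∅ (by simp)]
  simp [be]


/-- extension by zero -/
def ext0 {ι : Type} [LinearOrder ι] (a : ι) : (Del a → F) →ₗ[F] (ι → F) where
  toFun w := fun i => if hi : i = a then 0 else w (OrderDual.toDual ⟨i, hi⟩)
  map_add' x y := by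
    ext i
    by_cases hi : i = a
    · simp [hi]
    · simp [hi]
  map_smul' x y := by
    ext i
    by_cases hi : i = a
    · simp [hi]
    · simp [hi]

omit [Fintype F] in
lemma ext0_inj {ι : Type} [LinearOrder ι] (a : ι) : Function.Injective (ext0 (F := F) a) := by
  intro x y h
  ext j
  have := congrFun h (OrderDual.ofDual j).1
  have hk' : (OrderDual.ofDual j).1 ≠ a := (OrderDual.ofDual j).2
  simpa [ext0, hk'] using this

omit [Fintype F] in
lemma rank_up_aux {ι : Type} [Fintype ι] [LinearOrder ι] (a : ι) (Z : Matrix (Del a) (Del a) F) (ρ : Del a → F) :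
    (up a Z ρ).rank = Module.finrank F ↥(Submodule.span F {ρ} ⊔ LinearMap.range Z.mulVecLin) := by
  classical
  rw [Matrix.rank_eq_finrank_span_row]
  have h1 : Submodule.span F (Set.range (up a Z ρ).row) =
      Submodule.map (ext0 a) (Submodule.span F {ρ} ⊔ LinearMap.range Z.mulVecLin) := by
    rw [Matrix.range_mulVecLin, ← Submodule.span_union, Submodule.map_span]
    congr 1
    ext w
    simp only [Set.mem_range, Set.mem_image, Set.mem_union, Set.mem_singleton_iff]
    constructor
    · rintro ⟨i, rfl⟩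
      by_cases hi : i = a
      · refine ⟨ρ, Or.inl rfl, ?_⟩
        ext j
        by_cases hj : j = a
        · simp [ext0, up, hi, hj, Matrix.row]
        · simp [ext0, up, hi, hj, Matrix.row]
      · refine ⟨fun j => Z j (OrderDual.toDual ⟨i, hi⟩), Or.inr ⟨OrderDual.toDual ⟨i, hi⟩, rfl⟩, ?_⟩
        ext j
        by_cases hj : j = a
        · simp [ext0, up, hi, hj, Matrix.row]
        · simp [ext0, up, hi, hj, Matrix.row]
    · rintro ⟨x, hx | ⟨i, rfl⟩, rfl⟩
      · refine ⟨a, ?_⟩
        ext j
        by_cases hj : j = a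
        · simp [ext0, up, hj, Matrix.row]
        · simp [ext0, up, hj, hx, Matrix.row]
      · refine ⟨(OrderDual.ofDual i).1, ?_⟩
        have hk' : (OrderDual.ofDual i).1 ≠ a := (OrderDual.ofDual i).2
        ext j
        by_cases hj : j = a
        · simp [ext0, up, hj, Matrix.row]
        · simp [ext0, up, hj, hk', Matrix.row]
  rw [h1]
  exact (Submodule.equivMapOfInjective (ext0 a) (ext0_inj a) _).finrank_eq.symm

omit [Fintype F] in
open Classical in
lemma rank_up {ι : Type} [Fintype ι] [LinearOrder ι] (a : ι) (Z : Matrix (Del a) (Del a) F) (ρ : Del a → F) :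
    (up a Z ρ).rank = if ρ ∈ LinearMap.range Z.mulVecLin then Z.rank else Z.rank + 1 := by
  rw [rank_up_aux]
  split_ifs with h
  · have : Submodule.span F {ρ} ≤ LinearMap.range Z.mulVecLin := by
      rw [Submodule.span_singleton_le_iff_mem]; exact h
    rw [sup_eq_right.mpr this]
    rfl
  · rw [sup_comm, Submodule.finrank_sup_span_singleton h]
    rfl

/-- number of vectors extending Z to rank s -/
lemma card_ext {κ : Type} [Fintype κ] [LinearOrder κ] (Z : Matrix κ κ F) (hZ : Z * Z = 0) (s : ℕ) :
    open Classical in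
    (Nat.card {ρ : κ → F // Z *ᵥ ρ = 0 ∧
      (if ρ ∈ LinearMap.range Z.mulVecLin then Z.rank else Z.rank + 1) = s} : ℚ) =
    (if Z.rank = s then (Fintype.card F : ℚ) ^ s else 0) +
    (if Z.rank + 1 = s then (Fintype.card F : ℚ) ^ (Fintype.card κ - (s - 1)) - (Fintype.card F : ℚ) ^ (s - 1) else 0) := by
  classical
  have hsub : ∀ ρ : κ → F, ρ ∈ LinearMap.range Z.mulVecLin → Z *ᵥ ρ = 0 := by
    rintro ρ ⟨x, rfl⟩
    rw [Matrix.mulVecLin_apply, Matrix.mulVec_mulVec, hZ, Matrix.zero_mulVec]
  have hr : Nat.card (LinearMap.range Z.mulVecLin) = Fintype.card F ^ Z.rank := by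
    rw [Module.natCard_eq_pow_finrank (K := F), Nat.card_eq_fintype_card]
    rfl
  have hkr : Z.rank + Module.finrank F (LinearMap.ker Z.mulVecLin) = Fintype.card κ := by
    have := LinearMap.finrank_range_add_finrank_ker Z.mulVecLin
    rw [Module.finrank_fintype_fun_eq_card] at this
    exact this
  have hk : Nat.card (LinearMap.ker Z.mulVecLin) = Fintype.card F ^ (Fintype.card κ - Z.rank) := by
    rw [Module.natCard_eq_pow_finrank (K := F), Nat.card_eq_fintype_card]
    congr 1
    omega
  rw [Nat.card_eq_fintype_card, Fintype.card_subtype] at *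
  set Sr : Finset (κ → F) := Finset.univ.filter (fun ρ => ρ ∈ LinearMap.range Z.mulVecLin) with hSr
  set Sk : Finset (κ → F) := Finset.univ.filter (fun ρ => ρ ∈ LinearMap.ker Z.mulVecLin) with hSk
  have hrc : Sr.card = Fintype.card F ^ Z.rank := hr
  have hkc : Sk.card = Fintype.card F ^ (Fintype.card κ - Z.rank) := hk
  have hss : Sr ⊆ Sk := by
    intro ρ hρ
    simp only [hSr, hSk, Finset.mem_filter, Finset.mem_univ, true_and, LinearMap.mem_ker, Matrix.mulVecLin_apply] at hρ ⊢
    exact hsub ρ hρ
  by_cases h1 : Z.rank = s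
  · have h2 : ¬ (Z.rank + 1 = s) := by omega
    rw [if_pos h1, if_neg h2, add_zero]
    have : (Finset.univ.filter fun ρ : κ → F => Z *ᵥ ρ = 0 ∧
      (if ρ ∈ LinearMap.range Z.mulVecLin then Z.rank else Z.rank + 1) = s) = Sr := by
      ext ρ
      simp only [hSr, Finset.mem_filter, Finset.mem_univ, true_and]
      constructor
      · rintro ⟨_, h⟩
        by_contra hc
        rw [if_neg hc] at h
        exact h2 h
      · intro h
        exact ⟨hsub ρ h, by rw [if_pos h]; exact h1⟩
    rw [this, hrc, h1]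
    push_cast
    rfl
  · rw [if_neg h1, zero_add]
    by_cases h2 : Z.rank + 1 = s
    · rw [if_pos h2]
      have : (Finset.univ.filter fun ρ : κ → F => Z *ᵥ ρ = 0 ∧
        (if ρ ∈ LinearMap.range Z.mulVecLin then Z.rank else Z.rank + 1) = s) = Sk \ Sr := by
        ext ρ
        simp only [hSr, hSk, Finset.mem_filter, Finset.mem_univ, true_and, Finset.mem_sdiff, LinearMap.mem_ker,
          Matrix.mulVecLin_apply]
        constructor
        · rintro ⟨h0, h⟩
          refine ⟨h0, fun hc => ?_⟩
          rw [if_pos hc] at h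
          exact h1 h
        · rintro ⟨h0, h⟩
          exact ⟨h0, by rw [if_neg h]; exact h2⟩
      have hle := Finset.card_le_card hss
      rw [this, Finset.card_sdiff_of_subset hss, Nat.cast_sub hle, hrc, hkc]
      have h3 : Z.rank = s - 1 := by omega
      rw [h3]
      push_cast
      rfl
    · rw [if_neg h2]
      have : (Finset.univ.filter fun ρ : κ → F => Z *ᵥ ρ = 0 ∧
        (if ρ ∈ LinearMap.range Z.mulVecLin then Z.rank else Z.rank + 1) = s) = ∅ := by
        ext ρ
        simp only [Finset.mem_filter, Finset.mem_univ, true_and, Finset.notMem_empty, iff_false, not_and]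
        intro _
        split_ifs
        · exact h1
        · exact h2
      rw [this]
      simp


/-- number of good matrices of rank s -/
noncomputable def R (F : Type) [Field F] [Fintype F] (ι : Type) [Fintype ι] [LinearOrder ι] (s : ℕ) : ℕ :=
  Nat.card {Y : Matrix ι ι F // Good Y ∧ Y.rank = s}

lemma card_Del {ι : Type} [Fintype ι] [LinearOrder ι] (a : ι) :
    Fintype.card (Del a) = Fintype.card ι - 1 := by
  have h1 : Fintype.card (Del a) = Fintype.card {j : ι // j ≠ a} := Fintype.card_congr (OrderDual.ofDual)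
  rw [h1]
  have := Fintype.card_subtype_compl (fun j : ι => j = a)
  rw [Fintype.card_subtype_eq] at this
  exact this

lemma R_rec {ι : Type} [Fintype ι] [LinearOrder ι] (a : ι) (ha : ∀ i, a ≤ i) (s : ℕ) :
    (R F ι s : ℚ) = (Fintype.card F : ℚ) ^ s * R F (Del a) s +
      (if s = 0 then 0 else ((Fintype.card F : ℚ) ^ (Fintype.card ι - 1 - (s - 1)) - (Fintype.card F : ℚ) ^ (s - 1)) *
        R F (Del a) (s - 1)) := by
  classical
  have hV : ∀ ρ : Del a → F, ρ ∈ V F (Ab a) := by
    intro ρ
    rw [mem_V]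
    intro i hi
    exfalso
    apply hi
    simp only [Ab, Finset.mem_filter, Finset.mem_univ, true_and]
    exact lt_of_le_of_ne (ha _) (OrderDual.ofDual i).2.symm
  have e : {Y : Matrix ι ι F // Good Y ∧ Y.rank = s} ≃
      (Σ Z : {Z : Matrix (Del a) (Del a) F // Good Z}, {ρ : Del a → F // Z.1 *ᵥ ρ = 0 ∧
      (if ρ ∈ LinearMap.range Z.1.mulVecLin then Z.1.rank else Z.1.rank + 1) = s}) := by
    have hcol : ∀ Y : Matrix ι ι F, Good Y → Y *ᵥ (Pi.single a (1 : F)) = 0 := by
      intro Y hY
      ext i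
      rw [Matrix.mulVec_single_one]
      exact hY.1 i a (ha i)
    let e1 : {Y : Matrix ι ι F // Good Y ∧ Y.rank = s} ≃
        {y : {Y : Matrix ι ι F // Good Y ∧ Y *ᵥ (Pi.single a (1 : F)) = 0} // y.1.rank = s} :=
      { toFun := fun Y => ⟨⟨Y.1, Y.2.1, hcol _ Y.2.1⟩, Y.2.2⟩
        invFun := fun y => ⟨y.1.1, y.1.2.1, y.2⟩
        left_inv := fun _ => rfl
        right_inv := fun _ => rfl }
    let e2 : {y : {Y : Matrix ι ι F // Good Y ∧ Y *ᵥ (Pi.single a (1 : F)) = 0} // y.1.rank = s} ≃
        {p : {p : Matrix (Del a) (Del a) F × (Del a → F) // Good p.1 ∧ p.1 *ᵥ p.2 = 0 ∧ p.2 ∈ V F (Ab a)} //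
          (if p.1.2 ∈ LinearMap.range p.1.1.mulVecLin then p.1.1.rank else p.1.1.rank + 1) = s} :=
      Equiv.subtypeEquiv (delEquiv a) (by
        intro y
        have h : up a (delEquiv a y).1.1 (delEquiv a y).1.2 = y.1 :=
          congrArg Subtype.val ((delEquiv a).symm_apply_apply y)
        rw [← rank_up, h])
    let e3 : {p : {p : Matrix (Del a) (Del a) F × (Del a → F) // Good p.1 ∧ p.1 *ᵥ p.2 = 0 ∧ p.2 ∈ V F (Ab a)} //
          (if p.1.2 ∈ LinearMap.range p.1.1.mulVecLin then p.1.1.rank else p.1.1.rank + 1) = s} ≃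
      (Σ Z : {Z : Matrix (Del a) (Del a) F // Good Z}, {ρ : Del a → F // Z.1 *ᵥ ρ = 0 ∧
      (if ρ ∈ LinearMap.range Z.1.mulVecLin then Z.1.rank else Z.1.rank + 1) = s}) :=
      { toFun := fun p => ⟨⟨p.1.1.1, p.1.2.1⟩, ⟨p.1.1.2, p.1.2.2.1, p.2⟩⟩
        invFun := fun t => ⟨⟨(t.1.1, t.2.1), t.1.2, t.2.2.1, hV _⟩, t.2.2.2⟩
        left_inv := fun _ => rfl
        right_inv := fun _ => rfl }
    exact (e1.trans e2).trans e3
  unfold R
  rw [Nat.card_congr e, Nat.card_sigma]
  push_cast
  have h1 : ∀ Z : {Z : Matrix (Del a) (Del a) F // Good Z}, (Nat.card {ρ : Del a → F // Z.1 *ᵥ ρ = 0 ∧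
      (if ρ ∈ LinearMap.range Z.1.mulVecLin then Z.1.rank else Z.1.rank + 1) = s} : ℚ) =
      (if Z.1.rank = s then (Fintype.card F : ℚ) ^ s else 0) +
    (if Z.1.rank + 1 = s then (Fintype.card F : ℚ) ^ (Fintype.card ι - 1 - (s - 1)) - (Fintype.card F : ℚ) ^ (s - 1) else 0) := by
    intro Z
    rw [card_ext Z.1 Z.2.2 s, card_Del]
  simp_rw [h1]
  rw [Finset.sum_add_distrib]
  congr 1
  · rw [← Finset.sum_filter, Finset.sum_const, nsmul_eq_mul, mul_comm]
    congr 2
    rw [← Fintype.card_subtype, ← Nat.card_eq_fintype_card]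
    apply Nat.card_congr
    exact Equiv.subtypeSubtypeEquivSubtypeInter (fun Z : Matrix (Del a) (Del a) F => Good Z) (fun Z => Z.rank = s)
  · split_ifs with hs
    · apply Finset.sum_eq_zero
      intro Z _
      rw [if_neg (by omega)]
    · rw [← Finset.sum_filter, Finset.sum_const, nsmul_eq_mul, mul_comm]
      congr 2
      rw [← Fintype.card_subtype, ← Nat.card_eq_fintype_card]
      apply Nat.card_congr
      refine (Equiv.subtypeSubtypeEquivSubtypeInter (fun Z : Matrix (Del a) (Del a) F => Good Z) (fun Z => Z.rank + 1 = s)).trans ?_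
      apply Equiv.subtypeEquivRight
      intro Z
      constructor
      · rintro ⟨h, h'⟩
        exact ⟨h, by omega⟩
      · rintro ⟨h, h'⟩
        exact ⟨h, by omega⟩


/-- the refined recursion at a rational number -/
noncomputable def Ae (q : ℚ) : ℕ → ℕ → ℚ
  | 0, 0 => 1
  | 0, _ + 1 => 0
  | n + 1, 0 => Ae q n 0
  | n + 1, r + 1 => q ^ ((r : ℤ) + 1) * Ae q n (r + 1) + (q ^ ((n : ℤ) - (r : ℤ)) - q ^ (r : ℤ)) * Ae q n r

lemma R_big {ι : Type} [Fintype ι] [LinearOrder ι] (s : ℕ) (hs : Fintype.card ι < s) : R F ι s = 0 := by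
  unfold R
  rw [Nat.card_eq_zero]
  left
  constructor
  rintro ⟨Y, _, hY⟩
  have := Y.rank_le_card_width
  omega

theorem R_eq (F : Type) [Field F] [Fintype F] : ∀ (n : ℕ) (ι : Type) [Fintype ι] [LinearOrder ι], Fintype.card ι = n →
    ∀ r : ℕ, (R F ι r : ℚ) = Ae (Fintype.card F) n r := by
  intro n
  induction n with
  | zero =>
    intro ι _ _ hι r
    have hem : IsEmpty ι := Fintype.card_eq_zero_iff.mp hι
    cases r with
    | zero =>
      rw [Ae]
      have : R F ι 0 = 1 := by
        unfold R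
        rw [Nat.card_eq_one_iff_unique]
        refine ⟨⟨?_⟩, ⟨0, ?_⟩⟩
        · intro x y
          apply Subtype.ext
          ext i
          exact hem.elim i
        · exact ⟨⟨fun i => hem.elim i, by simp⟩, by simp⟩
      rw [this]; norm_num
    | succ r =>
      rw [R_big (r + 1) (by omega), Ae]; norm_num
  | succ n ih =>
    intro ι _ _ hι r
    have hne : (Finset.univ : Finset ι).Nonempty := by
      rw [← Finset.card_pos, Finset.card_univ, hι]; omega
    obtain ⟨a, _, ha⟩ := Finset.exists_min_image Finset.univ (fun i : ι => i) hne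
    have hD : Fintype.card (Del a) = n := by rw [card_Del, hι]; rfl
    rw [R_rec a (fun i => ha i (Finset.mem_univ i))]
    cases r with
    | zero =>
      rw [if_pos rfl, ih (Del a) hD, Ae]; simp
    | succ r =>
      rw [if_neg (by omega), ih (Del a) hD, hι]
      simp only [Nat.add_sub_cancel]
      rw [Ae]
      have h0 : (q : ℕ) → (q : ℚ) ^ (r + 1) = (q : ℚ) ^ ((r : ℤ) + 1) := by
        intro q
        rw [← zpow_natCast]; push_cast; rfl
      rw [h0, zpow_natCast (Fintype.card F : ℚ) r]
      congr 1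
      by_cases hr : r ≤ n
      · rw [ih (Del a) hD, ← zpow_natCast _ (n - r), Nat.cast_sub hr]
      · rw [R_big r (by omega), ← ih (Del a) hD, R_big r (by omega)]
        simp

lemma sum_R (n : ℕ) : ∑ r ∈ Finset.range (n + 1), R F (Fin n) r = Nat.card {Y : Matrix (Fin n) (Fin n) F // Good Y} := by
  classical
  have h1 : Nat.card {Y : Matrix (Fin n) (Fin n) F // Good Y} =
      (Finset.univ.filter (fun Y : Matrix (Fin n) (Fin n) F => Good Y)).card := by
    rw [Nat.card_eq_fintype_card, Fintype.card_subtype]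
  rw [h1, Finset.card_eq_sum_card_fiberwise (f := fun Y : Matrix (Fin n) (Fin n) F => Y.rank)
    (t := Finset.range (n + 1))]
  · apply Finset.sum_congr rfl
    intro r _
    unfold R
    rw [Nat.card_eq_fintype_card, Fintype.card_subtype, Finset.filter_filter]
  · intro Y _
    have := Y.rank_le_card_width
    rw [Fintype.card_fin] at this
    simp
    omega

end Pool.Agent.KM25
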