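import Mathlib

set_option autoImplicit false

namespace Pool.Agent.Opening25

open Cardinal

section core

variable {E : Type*} [NormedAddCommGroup E] [NormedSpace ℝ E]

/-- functional killing a subspace and norming the distance -/
lemma exists_functional (V : Submodule ℝ E) (η : E) :
    ∃ φ : E →L[ℝ] ℝ, (∀ x, |φ x| ≤ ‖x‖) ∧ (∀ v ∈ V, φ v = 0) ∧
      φ η = Metric.infDist η (V : Set E) := by
  obtain ⟨g, hg1, hg2⟩ := exists_dual_vector'' ℝ (Submodule.Quotient.mk η : E ⧸ V)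
  have hb : ∀ x : E, |g (Submodule.Quotient.mk x : E ⧸ V)| ≤ ‖x‖ := by
    intro x
    have h1 : ‖g (Submodule.Quotient.mk x : E ⧸ V)‖ ≤ ‖g‖ * ‖(Submodule.Quotient.mk x : E ⧸ V)‖ :=
      g.le_opNorm _
    have h2 : ‖(Submodule.Quotient.mk x : E ⧸ V)‖ ≤ ‖x‖ := Submodule.Quotient.norm_mk_le _ x
    rw [Real.norm_eq_abs] at h1
    calc _ ≤ ‖g‖ * ‖(Submodule.Quotient.mk x : E ⧸ V)‖ := h1
      _ ≤ 1 * ‖x‖ := by gcongr
      _ = ‖x‖ := one_mul _
  let φ : E →L[ℝ] ℝ := LinearMap.mkContinuous (g.toLinearMap.comp V.mkQ) 1 (by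
    intro x
    rw [one_mul]
    exact hb x)
  refine ⟨φ, hb, ?_, ?_⟩
  · intro v hv
    show g (Submodule.Quotient.mk v : E ⧸ V) = 0
    rw [(Submodule.Quotient.mk_eq_zero V).mpr hv, map_zero]
  · show g (Submodule.Quotient.mk η : E ⧸ V) = _
    rw [hg2]
    exact QuotientAddGroup.norm_mk (S := V.toAddSubgroup) η

/-- the key lemma: three vectors with the same colours are impossible -/
lemma key (G1 G2 V : Submodule ℝ E) (θ : ℝ) (hθ0 : 0 ≤ θ) (hθ : θ < 51/100)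
    (hA : ∀ y ∈ G2, Metric.infDist y (G1 : Set E) ≤ θ * ‖y‖)
    (D : Set E) (hD1 : D ⊆ G1) (hD2 : (G1 : Set E) ⊆ closure D)
    (z : E → E) (hz : ∀ g ∈ D, z g ∈ V ∧ ‖g - z g‖ ≤ (51/100) * ‖g‖)
    (y1 : E → E) (hy1 : ∀ g ∈ D, y1 g ∈ V ∧ y1 g ∈ G2)
    (hy1' : ∀ g ∈ D, (∃ y ∈ G2, ‖y‖ = 1 ∧ ‖y - g‖ < 51/100) → ‖y1 g - g‖ < 51/100)
    (y2 : E → E → E) (hy2 : ∀ g ∈ D, ∀ p ∈ D, y2 g p ∈ V ∧ y2 g p ∈ G2)
    (hy2' : ∀ g ∈ D, ∀ p ∈ D,
      (∃ y ∈ G2, ‖y‖ = 1 ∧ ‖y - g‖ < 51/100 ∧ ‖y1 g - y - p‖ < 2 * (51/100)^2) →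
      (‖y2 g p - g‖ < 51/100 ∧ ‖y1 g - y2 g p - p‖ < 2 * (51/100)^2))
    (η : E) (hη2 : η ∈ G2) (hη1 : ‖η‖ = 1) (hη : 99/100 ≤ Metric.infDist η (V : Set E)) :
    False := by
  have hDne : D.Nonempty := by
    have h0 : (0:E) ∈ closure D := hD2 G1.zero_mem
    exact closure_nonempty_iff.mp ⟨0, h0⟩
  obtain ⟨φ, hφ1, hφV, hφη⟩ := exists_functional V η
  have hG1ne : (G1 : Set E).Nonempty := ⟨0, G1.zero_mem⟩
  -- approximation from D
  have happ : ∀ y ∈ G2, ∀ ε : ℝ, θ * ‖y‖ < ε → ∃ g ∈ D, ‖y - g‖ < ε := by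
    intro y hy ε hε
    have h1 : Metric.infDist y (G1 : Set E) < ε := lt_of_le_of_lt (hA y hy) hε
    obtain ⟨g0, hg0, hg0'⟩ := (Metric.infDist_lt_iff hG1ne).mp h1
    have h2 : g0 ∈ closure D := hD2 hg0
    rw [Metric.mem_closure_iff] at h2
    obtain ⟨g, hg, hgd⟩ := h2 (ε - dist y g0) (by linarith)
    refine ⟨g, hg, ?_⟩
    rw [← dist_eq_norm]
    linarith [dist_triangle y g0 g]
  -- phi is small on G1
  have hφG : ∀ x ∈ G1, |φ x| ≤ (51/100) * ‖x‖ := by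
    have hcl : IsClosed {x : E | |φ x| ≤ (51/100) * ‖x‖} :=
      isClosed_le (by fun_prop) (by fun_prop)
    have hDs : D ⊆ {x : E | |φ x| ≤ (51/100) * ‖x‖} := by
      intro g hg
      obtain ⟨hz1, hz2⟩ := hz g hg
      have e : φ g = φ (g - z g) := by rw [map_sub, hφV _ hz1, sub_zero]
      show |φ g| ≤ _
      rw [e]
      exact le_trans (hφ1 _) hz2
    intro x hx
    exact (closure_minimal hDs hcl) (hD2 hx)
  -- psi
  let f0 : G1 →L[ℝ] ℝ := (100/51 : ℝ) • (φ.comp G1.subtypeL)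
  obtain ⟨ψ, hψ1, hψ2⟩ := exists_extension_norm_eq G1 f0
  have hf0 : ‖f0‖ ≤ 1 := by
    refine ContinuousLinearMap.opNorm_le_bound _ zero_le_one ?_
    intro x
    show ‖(100/51 : ℝ) * φ x‖ ≤ 1 * ‖(x : E)‖
    rw [norm_mul, Real.norm_eq_abs (φ x), one_mul]
    have := hφG x x.2
    rw [show ‖(100/51 : ℝ)‖ = 100/51 by norm_num]
    linarith
  have hψb : ∀ x : E, |ψ x| ≤ ‖x‖ := by
    intro x
    have := ψ.le_opNorm x
    rw [hψ2, Real.norm_eq_abs] at this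
    calc _ ≤ ‖f0‖ * ‖x‖ := this
      _ ≤ 1 * ‖x‖ := by gcongr
      _ = ‖x‖ := one_mul _
  have hψG : ∀ x ∈ G1, ψ x = (100/51) * φ x := fun x hx => hψ1 ⟨x, hx⟩
  -- eta
  have hφη' : 99/100 ≤ φ η := by rw [hφη]; exact hη
  obtain ⟨g, hgD, hg⟩ := happ η hη2 (51/100) (by rw [hη1]; linarith)
  have hγ := hy1' g hgD ⟨η, hη2, hη1, hg⟩
  obtain ⟨hγV, hγ2⟩ := hy1 g hgD
  set γ := y1 g with hγdef
  have hγη : ‖γ - η‖ ≤ 2 * (51/100) := by
    have : γ - η = (γ - g) - (η - g) := by abel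
    rw [this]
    linarith [norm_sub_le (γ - g) (η - g)]
  obtain ⟨p, hpD, hp⟩ := happ (γ - η) (G2.sub_mem hγ2 hη2) (2 * (51/100)^2) (by
    have : θ * ‖γ - η‖ ≤ θ * (2 * (51/100)) := by gcongr
    nlinarith)
  obtain ⟨hδg, hδp⟩ := hy2' g hgD p hpD ⟨η, hη2, hη1, hg, hp⟩
  obtain ⟨hδV, hδ2⟩ := hy2 g hgD p hpD
  set δ := y2 g p with hδdef
  have hδη : ‖δ - η‖ ≤ 2 * (51/100) := by
    have : δ - η = (δ - g) - (η - g) := by abel
    rw [this]
    linarith [norm_sub_le (δ - g) (η - g)]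
  obtain ⟨q, hqD, hq⟩ := happ (δ - η) (G2.sub_mem hδ2 hη2) (2 * (51/100)^2) (by
    have : θ * ‖δ - η‖ ≤ θ * (2 * (51/100)) := by gcongr
    nlinarith)
  -- numeric facts
  have a1 := (abs_le.mp (le_trans (hφ1 (η - g)) hg.le))
  have a2 := (abs_le.mp (le_trans (hψb (γ - g)) hγ.le))
  have a3 := (abs_le.mp (le_trans (hφ1 (γ - η - p)) hp.le))
  have a4 := (abs_le.mp (le_trans (hψb (γ - δ - p)) hδp.le))
  have a5 := (abs_le.mp (le_trans (hφ1 (δ - η - q)) hq.le))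
  have a6 := (abs_le.mp (le_trans (hψb (δ - η - q)) hq.le))
  have a7 := (abs_le.mp (le_trans (hψb η) hη1.le))
  have b1 := hψG g (hD1 hgD)
  have b2 := hψG p (hD1 hpD)
  have b3 := hψG q (hD1 hqD)
  have c1 := hφV γ hγV
  have c2 := hφV δ hδV
  simp only [map_sub] at a1 a2 a3 a4 a5 a6
  norm_num at a1 a2 a3 a4 a5 a6
  linarith [a1.1, a1.2, a2.1, a2.2, a3.1, a3.2, a4.1, a4.2, a5.1, a5.2, a6.1, a6.2, a7.1, a7.2]

/-- if `V` is a closed subspace not containing `G2`, there is a unit vector of `G2` almost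
at distance one from it -/
lemma riesz_in (G2 W : Submodule ℝ E) (hW : W ≤ G2)
    (h : ¬ ((G2 : Set E) ⊆ (W.topologicalClosure : Set E))) :
    ∃ η ∈ G2, ‖η‖ = 1 ∧ 99/100 ≤ Metric.infDist η (W.topologicalClosure : Set E) := by
  set V := W.topologicalClosure with hV
  rw [Set.not_subset] at h
  obtain ⟨x, hxG, hxV⟩ := h
  have hVc : IsClosed (V : Set E) := W.isClosed_topologicalClosure
  have hVne : (V : Set E).Nonempty := ⟨0, V.zero_mem⟩
  have hWne : (W : Set E).Nonempty := ⟨0, W.zero_mem⟩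
  have hd : 0 < Metric.infDist x (V : Set E) := (hVc.notMem_iff_infDist_pos hVne).mp hxV
  set d := Metric.infDist x (V : Set E) with hdd
  have hdW : Metric.infDist x (W : Set E) = d := by
    rw [hdd, hV, Submodule.topologicalClosure_coe, Metric.infDist_closure]
  have h1 : Metric.infDist x (W : Set E) < (100/99) * d := by rw [hdW]; linarith
  obtain ⟨v, hv, hxv⟩ := (Metric.infDist_lt_iff hWne).mp h1
  have hvV : v ∈ V := W.le_topologicalClosure hv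
  have hη0 : x - v ∈ G2 := G2.sub_mem hxG (hW hv)
  have hlow : ∀ w ∈ V, d ≤ ‖x - v - w‖ := by
    intro w hw
    have := Metric.infDist_le_dist_of_mem (x := x) (V.add_mem hvV hw)
    rw [dist_eq_norm] at this
    rw [sub_sub]
    exact this
  have hn : 0 < ‖x - v‖ := by
    have := hlow 0 V.zero_mem
    rw [sub_zero] at this
    linarith
  have hn2 : ‖x - v‖ < (100/99) * d := by rw [← dist_eq_norm]; exact hxv
  refine ⟨‖x - v‖⁻¹ • (x - v), G2.smul_mem _ hη0, ?_, ?_⟩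
  · rw [norm_smul, norm_inv, norm_norm, inv_mul_cancel₀ hn.ne']
  · rw [Metric.le_infDist hVne]
    intro w hw
    have h2 := hlow (‖x - v‖ • w) (V.smul_mem _ hw)
    have e : ‖x - v‖⁻¹ • (x - v) - w = ‖x - v‖⁻¹ • (x - v - ‖x - v‖ • w) := by
      rw [smul_sub (‖x - v‖⁻¹) (x - v) (‖x - v‖ • w), smul_smul, inv_mul_cancel₀ hn.ne', one_smul]
    rw [dist_eq_norm, e, norm_smul, norm_inv, norm_norm]
    rw [← div_eq_inv_mul, le_div_iff₀ hn]
    linarith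

/-- rational combinations are dense in the span -/
lemma span_subset_closure (S : Set E) :
    (Submodule.span ℝ S : Set E) ⊆
      closure (Set.range (fun c : S →₀ ℚ => c.sum (fun s q => (q : ℝ) • (s : E)))) := by
  classical
  set Q : Set E := Set.range (fun c : S →₀ ℚ => c.sum (fun s q => (q : ℝ) • (s : E))) with hQ
  have hadd : ∀ a ∈ Q, ∀ b ∈ Q, a + b ∈ Q := by
    rintro _ ⟨c, rfl⟩ _ ⟨d, rfl⟩
    refine ⟨c + d, ?_⟩
    simp only
    rw [Finsupp.sum_add_index']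
    · intro s; simp
    · intro s q r; push_cast; rw [add_smul]
  have hsm : ∀ (r : ℚ), ∀ a ∈ Q, (r : ℝ) • a ∈ Q := by
    rintro r _ ⟨c, rfl⟩
    refine ⟨r • c, ?_⟩
    simp only
    rw [Finsupp.sum_smul_index' (by intro s; simp), Finsupp.smul_sum]
    apply Finsupp.sum_congr
    intro s _
    rw [smul_smul, smul_eq_mul, Rat.cast_mul]
  intro x hx
  induction hx using Submodule.span_induction with
  | mem x hx =>
    apply subset_closure
    refine ⟨Finsupp.single ⟨x, hx⟩ 1, ?_⟩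
    simp
  | zero => exact subset_closure ⟨0, by simp⟩
  | add x y _ _ hx hy => exact map_mem_closure₂ continuous_add hx hy hadd
  | smul a x _ hx =>
    have ha : a ∈ closure (Set.range ((↑) : ℚ → ℝ)) := by
      rw [Rat.denseRange_cast.closure_range]; trivial
    refine map_mem_closure₂ (f := fun (a : ℝ) (x : E) => a • x) continuous_smul ha hx ?_
    rintro _ ⟨r, rfl⟩ b hb
    exact hsm r b hb

universe u in
lemma card_range {E : Type u} [NormedAddCommGroup E] [NormedSpace ℝ E] (S : Set E) :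
    #(Set.range (fun c : S →₀ ℚ => c.sum (fun s q => (q : ℝ) • (s : E)))) ≤ max #S ℵ₀ := by
  refine le_trans Cardinal.mk_range_le ?_
  rcases isEmpty_or_nonempty S with h | h
  · have : Subsingleton (S →₀ ℚ) := inferInstance
    exact le_trans (le_trans (Cardinal.le_one_iff_subsingleton.mpr this) Cardinal.one_le_aleph0)
      (le_max_right _ _)
  · rw [Cardinal.mk_finsupp_lift_of_infinite']
    simp

universe u in
lemma cover {E : Type u} [NormedAddCommGroup E] [NormedSpace ℝ E]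
    (G1 G2 : Submodule ℝ E) (θ : ℝ) (hθ0 : 0 ≤ θ) (hθ : θ < 51/100)
    (hA : ∀ y ∈ G2, Metric.infDist y (G1 : Set E) ≤ θ * ‖y‖)
    (hB : ∀ x ∈ G1, Metric.infDist x (G2 : Set E) ≤ θ * ‖x‖)
    (D : Set E) (hD1 : D ⊆ G1) (hD2 : (G1 : Set E) ⊆ closure D) :
    ∃ T : Set E, T ⊆ G2 ∧ (G2 : Set E) ⊆ closure T ∧ #T ≤ max #D ℵ₀ := by
  classical
  have hG2ne : (G2 : Set E).Nonempty := ⟨0, G2.zero_mem⟩
  have hzex : ∀ g : E, ∃ z ∈ G2, g ∈ D → ‖g - z‖ ≤ (51/100) * ‖g‖ := by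
    intro g
    by_cases hg : g ∈ D
    · by_cases h0 : g = 0
      · exact ⟨0, G2.zero_mem, fun _ => by simp [h0]⟩
      · have hpos : 0 < ‖g‖ := norm_pos_iff.mpr h0
        have h1 : Metric.infDist g (G2 : Set E) < (51/100) * ‖g‖ :=
          lt_of_le_of_lt (hB g (hD1 hg)) (by gcongr)
        obtain ⟨z, hz, hz'⟩ := (Metric.infDist_lt_iff hG2ne).mp h1
        exact ⟨z, hz, fun _ => by rw [← dist_eq_norm]; exact hz'.le⟩
    · exact ⟨0, G2.zero_mem, fun h => absurd h hg⟩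
  choose z hz1 hz2 using hzex
  have hy1ex : ∀ g : E, ∃ y ∈ G2,
      (∃ y ∈ G2, ‖y‖ = 1 ∧ ‖y - g‖ < 51/100) → ‖y - g‖ < 51/100 := by
    intro g
    by_cases h : ∃ y ∈ G2, ‖y‖ = 1 ∧ ‖y - g‖ < 51/100
    · obtain ⟨y, hy, _, hy'⟩ := h
      exact ⟨y, hy, fun _ => hy'⟩
    · exact ⟨0, G2.zero_mem, fun h' => absurd h' h⟩
  choose y1 hy1 hy1' using hy1ex
  have hy2ex : ∀ g p : E, ∃ y ∈ G2, (∃ y ∈ G2, ‖y‖ = 1 ∧ ‖y - g‖ < 51/100 ∧
      ‖y1 g - y - p‖ < 2 * (51/100)^2) →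
      (‖y - g‖ < 51/100 ∧ ‖y1 g - y - p‖ < 2 * (51/100)^2) := by
    intro g p
    by_cases h : ∃ y ∈ G2, ‖y‖ = 1 ∧ ‖y - g‖ < 51/100 ∧ ‖y1 g - y - p‖ < 2 * (51/100)^2
    · obtain ⟨y, hy, _, hy'⟩ := h
      exact ⟨y, hy, fun _ => hy'⟩
    · exact ⟨0, G2.zero_mem, fun h' => absurd h' h⟩
  choose y2 hy2 hy2' using hy2ex
  set S : Set E := (z '' D ∪ y1 '' D) ∪ (fun q : E × E => y2 q.1 q.2) '' (D ×ˢ D) with hS
  have hSG : S ⊆ G2 := by
    rintro x ((⟨g, _, rfl⟩ | ⟨g, _, rfl⟩) | ⟨q, _, rfl⟩)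
    · exact hz1 g
    · exact hy1 g
    · exact hy2 q.1 q.2
  set W : Submodule ℝ E := Submodule.span ℝ S with hW
  have hWG : W ≤ G2 := Submodule.span_le.mpr hSG
  have hSV : ∀ x ∈ S, x ∈ W.topologicalClosure :=
    fun x hx => W.le_topologicalClosure (Submodule.subset_span hx)
  have hcov : (G2 : Set E) ⊆ (W.topologicalClosure : Set E) := by
    by_contra hcon
    obtain ⟨η, hη2, hη1, hη⟩ := riesz_in G2 W hWG hcon
    refine key G1 G2 W.topologicalClosure θ hθ0 hθ hA D hD1 hD2 z ?_ y1 ?_ ?_ y2 ?_ ?_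
      η hη2 hη1 hη
    · intro g hg
      exact ⟨hSV _ (Or.inl (Or.inl ⟨g, hg, rfl⟩)), hz2 g hg⟩
    · intro g hg
      exact ⟨hSV _ (Or.inl (Or.inr ⟨g, hg, rfl⟩)), hy1 g⟩
    · intro g _; exact hy1' g
    · intro g hg p hp
      exact ⟨hSV _ (Or.inr ⟨(g, p), ⟨hg, hp⟩, rfl⟩), hy2 g p⟩
    · intro g _ p _; exact hy2' g p
  refine ⟨Set.range (fun c : S →₀ ℚ => c.sum (fun s q => (q : ℝ) • (s : E))), ?_, ?_, ?_⟩
  · rintro _ ⟨c, rfl⟩
    exact G2.sum_mem (fun s _ => G2.smul_mem _ (hSG s.2))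
  · refine hcov.trans ?_
    rw [Submodule.topologicalClosure_coe]
    exact closure_minimal (span_subset_closure S) isClosed_closure
  · refine le_trans (card_range S) (max_le ?_ (le_max_right _ _))
    have h1 : #S ≤ #D + #D + #D * #D := by
      refine le_trans (Cardinal.mk_union_le _ _) ?_
      gcongr
      · refine le_trans (Cardinal.mk_union_le _ _) ?_
        gcongr
        · exact Cardinal.mk_image_le
        · exact Cardinal.mk_image_le
      · refine le_trans Cardinal.mk_image_le ?_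
        rw [Cardinal.mk_setProd]
    refine le_trans h1 ?_
    set κ := max #D ℵ₀ with hκ
    have hk : ℵ₀ ≤ κ := le_max_right _ _
    have hD : #D ≤ κ := le_max_left _ _
    calc #D + #D + #D * #D ≤ κ + κ + κ * κ := by gcongr
      _ = κ := by
        rw [Cardinal.mul_eq_self hk, Cardinal.add_eq_self hk, Cardinal.add_eq_self hk]

end core

end Pool.Agent.Opening25
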