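import Mathlib

set_option autoImplicit false

namespace Pool.Agent.OrthSys

open scoped InnerProductSpace

section abstractPart

variable {X : Type*} [NormedAddCommGroup X] [InnerProductSpace ℝ X]

/-- small vectors orthogonal to `W` with `ev = 1` -/
lemma exists_small_orth (ev : X →ₗ[ℝ] ℝ)
    (hev : ∀ δ : ℝ, 0 < δ → ∃ σ : X, ev σ = 1 ∧ ‖σ‖ < δ)
    (W : Submodule ℝ X) [FiniteDimensional ℝ W] (δ : ℝ) (hδ : 0 < δ) :
    ∃ s : X, s ∈ Wᗮ ∧ ev s = 1 ∧ ‖s‖ < δ := by
  -- evaluation on W is continuous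
  have hc : Continuous (ev.comp W.subtype) := LinearMap.continuous_of_finiteDimensional _
  have hc0 : Filter.Tendsto (ev.comp W.subtype) (nhds 0) (nhds 0) := by
    have := hc.tendsto 0
    simpa using this
  rw [Metric.tendsto_nhds_nhds] at hc0
  obtain ⟨η, hη, hη2⟩ := hc0 (1/2) (by norm_num)
  obtain ⟨σ, hσ1, hσ2⟩ := hev (min η (δ/4)) (lt_min hη (by linarith))
  have hpn : ‖W.starProjection σ‖ ≤ ‖σ‖ := W.norm_starProjection_apply_le σ
  have hmem : W.starProjection σ ∈ W := W.starProjection_apply_mem σ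
  have hevp : |ev (W.starProjection σ)| < 1/2 := by
    have h1 : dist (⟨W.starProjection σ, hmem⟩ : W) 0 < η := by
      rw [dist_zero_right]
      exact lt_of_le_of_lt hpn (lt_of_lt_of_le hσ2 (min_le_left _ _))
    have h2 := hη2 h1
    simpa [dist_zero_right] using h2
  set s0 : X := σ - W.starProjection σ with hs0
  have hs0W : s0 ∈ Wᗮ := W.sub_starProjection_mem_orthogonal σ
  have hs0n : ‖s0‖ ≤ 2 * ‖σ‖ := by
    have := norm_sub_le σ (W.starProjection σ)
    rw [hs0]; linarith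
  have hevs : ev s0 = 1 - ev (W.starProjection σ) := by
    rw [hs0, map_sub, hσ1]
  have habs := abs_lt.mp hevp
  have hpos : (1:ℝ)/2 < ev s0 := by rw [hevs]; linarith [habs.2]
  have hpos0 : 0 < ev s0 := by linarith
  refine ⟨(ev s0)⁻¹ • s0, Submodule.smul_mem _ _ hs0W, ?_, ?_⟩
  · rw [map_smul, smul_eq_mul, inv_mul_cancel₀ hpos0.ne']
  · rw [norm_smul, norm_inv, Real.norm_of_nonneg hpos0.le]
    have h4 : ‖σ‖ < δ/4 := lt_of_lt_of_le hσ2 (min_le_right _ _)
    rw [inv_mul_lt_iff₀ hpos0]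
    nlinarith [norm_nonneg s0]

/-- key lemma -/
lemma exists_split (ev : X →ₗ[ℝ] ℝ)
    (hev : ∀ δ : ℝ, 0 < δ → ∃ σ : X, ev σ = 1 ∧ ‖σ‖ < δ)
    (W : Submodule ℝ X) [FiniteDimensional ℝ W] (h : X) (hh : h ∉ W) :
    ∃ v : X, v ∈ Wᗮ ∧ ev v = ev h ∧ ⟪h, v⟫_ℝ = ⟪v, v⟫_ℝ := by
  set g : X := h - W.starProjection h with hg
  have hgW : g ∈ Wᗮ := W.sub_starProjection_mem_orthogonal h
  have hmem : W.starProjection h ∈ W := W.starProjection_apply_mem h
  have hg0 : g ≠ 0 := by
    intro h0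
    rw [hg, sub_eq_zero] at h0
    exact hh (h0 ▸ hmem)
  have hgn : 0 < ‖g‖ := norm_pos_iff.mpr hg0
  have hhg : ⟪h, g⟫_ℝ = ‖g‖^2 := by
    have h1 : h = g + W.starProjection h := by rw [hg]; abel
    have h2 : ⟪W.starProjection h, g⟫_ℝ = 0 := hgW _ hmem
    calc ⟪h, g⟫_ℝ = ⟪g + W.starProjection h, g⟫_ℝ := by rw [← h1]
      _ = ‖g‖^2 := by rw [inner_add_left, h2, add_zero, real_inner_self_eq_norm_sq]
  set c : ℝ := ev h
  set γ : ℝ := ev g
  -- discriminant function
  let a : X → ℝ := fun s => ‖g - γ • s‖^2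
  let b : X → ℝ := fun s => ⟪h, g - γ • s⟫_ℝ - 2 * c * ⟪s, g - γ • s⟫_ℝ
  let d : X → ℝ := fun s => c * ⟪h, s⟫_ℝ - c^2 * ‖s‖^2
  have ha : Continuous a := by fun_prop
  have hb : Continuous b := by fun_prop
  have hd : Continuous d := by fun_prop
  have hF : Continuous (fun s => (b s)^2 + 4 * a s * d s) := by fun_prop
  have hF0 : 0 < (b 0)^2 + 4 * a 0 * d 0 := by
    simp only [a, b, d, smul_zero, sub_zero, inner_zero_left, inner_zero_right, norm_zero, hhg]
    have : 0 < ‖g‖^2 := by positivity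
    nlinarith [this]
  have hopen : IsOpen {s : X | 0 < (b s)^2 + 4 * a s * d s} := isOpen_lt continuous_const hF
  have hopen2 : IsOpen {s : X | 0 < a s} := isOpen_lt continuous_const ha
  have ha0 : 0 < a 0 := by
    simp only [a, smul_zero, sub_zero]; positivity
  obtain ⟨δ1, hδ1, hb1⟩ := Metric.isOpen_iff.mp hopen 0 hF0
  obtain ⟨δ2, hδ2, hb2⟩ := Metric.isOpen_iff.mp hopen2 0 ha0
  obtain ⟨s, hsW, hs1, hsn⟩ := exists_small_orth ev hev W (min δ1 δ2) (lt_min hδ1 hδ2)
  have hsF : 0 < (b s)^2 + 4 * a s * d s :=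
    hb1 (by rw [Metric.mem_ball, dist_zero_right]; exact lt_of_lt_of_le hsn (min_le_left _ _))
  have hsa : 0 < a s :=
    hb2 (by rw [Metric.mem_ball, dist_zero_right]; exact lt_of_lt_of_le hsn (min_le_right _ _))
  -- solve the quadratic  -a τ² + b τ + d = 0
  have hroot : ∃ τ : ℝ, (-(a s)) * (τ * τ) + b s * τ + d s = 0 := by
    have hne : -(a s) ≠ 0 := neg_ne_zero.mpr hsa.ne'
    refine exists_quadratic_eq_zero hne ⟨Real.sqrt ((b s)^2 + 4 * a s * d s), ?_⟩
    rw [Real.mul_self_sqrt hsF.le, discrim]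
    ring
  obtain ⟨τ, hτ⟩ := hroot
  refine ⟨τ • (g - γ • s) + c • s, ?_, ?_, ?_⟩
  · exact Submodule.add_mem _ (Submodule.smul_mem _ _ (Submodule.sub_mem _ hgW
      (Submodule.smul_mem _ _ hsW))) (Submodule.smul_mem _ _ hsW)
  · rw [map_add, map_smul, map_sub, map_smul, map_smul, hs1]
    simp only [smul_eq_mul, mul_one]
    show τ * (γ - γ) + c = c
    ring
  · have e1 : ⟪h, τ • (g - γ • s) + c • s⟫_ℝ = τ * ⟪h, g - γ • s⟫_ℝ + c * ⟪h, s⟫_ℝ := by
      rw [inner_add_right, inner_smul_right, inner_smul_right]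
    have e2 : ⟪τ • (g - γ • s) + c • s, τ • (g - γ • s) + c • s⟫_ℝ
        = τ^2 * ‖g - γ • s‖^2 + 2 * τ * c * ⟪s, g - γ • s⟫_ℝ + c^2 * ‖s‖^2 := by
      rw [inner_add_left, inner_add_right, inner_add_right]
      simp only [inner_smul_left, inner_smul_right, real_inner_self_eq_norm_sq,
        conj_trivial]
      rw [real_inner_comm s (g - γ • s)]
      ring
    rw [e1, e2]
    simp only [a, b, d] at hτ
    linarith

/-- property of finite orthogonal sets -/
def Good (ev : X →ₗ[ℝ] ℝ) (one : X) (F : Finset X) : Prop :=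
  (∀ x ∈ F, x ≠ 0) ∧ (∀ x ∈ F, ∀ y ∈ F, x ≠ y → ⟪x, y⟫_ℝ = 0) ∧
    (∀ x ∈ F, ev x = 0 ∨ ⟪one, x⟫_ℝ = 0)

lemma step (ev : X →ₗ[ℝ] ℝ)
    (hev : ∀ δ : ℝ, 0 < δ → ∃ σ : X, ev σ = 1 ∧ ‖σ‖ < δ) (one : X)
    (U : Set X) (hU : ∀ W : Submodule ℝ X, FiniteDimensional ℝ W → ∃ h ∈ U, h ∉ W)
    (F : Finset X) (hF : Good ev one F) :
    ∃ F' : Finset X, Good ev one F' ∧ F ⊂ F' ∧
      ∃ h ∈ U, h ∈ Submodule.span ℝ (F' : Set X) := by
  classical
  obtain ⟨hF1, hF2, hF3⟩ := hF
  set V : Submodule ℝ X := Submodule.span ℝ (F : Set X) with hV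
  set W : Submodule ℝ X := Submodule.span ℝ ((insert one F : Finset X) : Set X) with hW
  have : FiniteDimensional ℝ V := FiniteDimensional.span_finset ℝ F
  have : FiniteDimensional ℝ W := FiniteDimensional.span_finset ℝ (insert one F)
  have hVW : V ≤ W := Submodule.span_mono (by simp)
  obtain ⟨h0, h0U, h0W⟩ := hU W inferInstance
  set h : X := h0 - V.starProjection h0 with hh
  have hpV : V.starProjection h0 ∈ V := V.starProjection_apply_mem h0
  have hhV : h ∈ Vᗮ := V.sub_starProjection_mem_orthogonal h0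
  have hhW : h ∉ W := by
    intro hc
    apply h0W
    have : h0 = h + V.starProjection h0 := by rw [hh]; abel
    rw [this]
    exact W.add_mem hc (hVW hpV)
  obtain ⟨v, hvW, hvev, hvin⟩ := exists_split ev hev W h hhW
  set u : X := h - v with hu
  have huev : ev u = 0 := by rw [hu, map_sub, hvev, sub_self]
  have huv : ⟪u, v⟫_ℝ = 0 := by rw [hu, inner_sub_left, hvin, sub_self]
  have hvF : ∀ x ∈ F, ⟪x, v⟫_ℝ = 0 := fun x hx =>
    hvW x (Submodule.subset_span (by simp [hx]))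
  have huF : ∀ x ∈ F, ⟪x, u⟫_ℝ = 0 := fun x hx => by
    rw [hu, inner_sub_right, hvF x hx, sub_zero]
    exact hhV x (Submodule.subset_span (by simpa using hx))
  have hone : ⟪one, v⟫_ℝ = 0 := hvW one (Submodule.subset_span (by simp))
  set F' : Finset X := (insert u (insert v F)).filter (fun x => x ≠ 0) with hF'
  have hmemF' : ∀ x, x ∈ F' ↔ (x = u ∨ x = v ∨ x ∈ F) ∧ x ≠ 0 := by
    intro x; simp [hF']
  have hsub : F ⊆ F' := fun x hx => (hmemF' x).mpr ⟨Or.inr (Or.inr hx), hF1 x hx⟩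
  have hspan : h0 ∈ Submodule.span ℝ (F' : Set X) := by
    have e : h0 = V.starProjection h0 + u + v := by rw [hu, hh]; abel
    have m1 : V.starProjection h0 ∈ Submodule.span ℝ (F' : Set X) :=
      Submodule.span_mono (by exact_mod_cast hsub) hpV
    have m2 : ∀ x, (x = u ∨ x = v) → x ∈ Submodule.span ℝ (F' : Set X) := by
      intro x hx
      by_cases hx0 : x = 0
      · rw [hx0]; exact Submodule.zero_mem _
      · apply Submodule.subset_span
        have : x ∈ F' := (hmemF' x).mpr ⟨by tauto, hx0⟩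
        exact_mod_cast this
    rw [e]
    exact Submodule.add_mem _ (Submodule.add_mem _ m1 (m2 u (Or.inl rfl))) (m2 v (Or.inr rfl))
  refine ⟨F', ⟨?_, ?_, ?_⟩, ?_, h0, h0U, hspan⟩
  · intro x hx; exact ((hmemF' x).mp hx).2
  · intro x hx y hy hxy
    obtain ⟨hx1, hx0⟩ := (hmemF' x).mp hx
    obtain ⟨hy1, hy0⟩ := (hmemF' y).mp hy
    rcases hx1 with hx1 | hx1 | hx1 <;> rcases hy1 with hy1 | hy1 | hy1
    · exact absurd (hx1.trans hy1.symm) hxy
    · rw [hx1, hy1]; exact huv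
    · rw [hx1, real_inner_comm]; exact huF y hy1
    · rw [hx1, hy1, real_inner_comm]; exact huv
    · exact absurd (hx1.trans hy1.symm) hxy
    · rw [hx1, real_inner_comm]; exact hvF y hy1
    · rw [hy1]; exact huF x hx1
    · rw [hy1]; exact hvF x hx1
    · exact hF2 x hx1 y hy1 hxy
  · intro x hx
    obtain ⟨hx1, hx0⟩ := (hmemF' x).mp hx
    rcases hx1 with hx1 | hx1 | hx1
    · left; rw [hx1]; exact huev
    · right; rw [hx1]; exact hone
    · exact hF3 x hx1
  · refine ⟨hsub, fun hc => ?_⟩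
    have hsp : Submodule.span ℝ (F' : Set X) ≤ W :=
      le_trans (Submodule.span_mono (by exact_mod_cast hc)) hVW
    exact h0W (hsp hspan)

theorem exists_system (ev : X →ₗ[ℝ] ℝ)
    (hev : ∀ δ : ℝ, 0 < δ → ∃ σ : X, ev σ = 1 ∧ ‖σ‖ < δ) (one : X)
    (U : ℕ → Set X)
    (hU : ∀ k, ∀ W : Submodule ℝ X, FiniteDimensional ℝ W → ∃ h ∈ U k, h ∉ W) :
    ∃ φ : ℕ → X, (∀ n, φ n ≠ 0) ∧ (∀ m n, m ≠ n → ⟪φ m, φ n⟫_ℝ = 0) ∧
      (∀ n, ev (φ n) = 0 ∨ ⟪one, φ n⟫_ℝ = 0) ∧
      (∀ k, ∃ h ∈ U k, h ∈ Submodule.span ℝ (Set.range φ)) := by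
  classical
  choose! G hG1 hG2 hG3 using fun (k : ℕ) (F : Finset X) (hF : Good ev one F) =>
    step ev hev one (U k) (hU k) F hF
  obtain ⟨S, hS0, hSs⟩ : ∃ S : ℕ → Finset X, S 0 = ∅ ∧ ∀ k, S (k+1) = G k (S k) :=
    ⟨fun k => Nat.rec ∅ (fun k F => G k F) k, rfl, fun k => rfl⟩
  have hgood : ∀ k, Good ev one (S k) := by
    intro k
    induction k with
    | zero => rw [hS0]; exact ⟨by simp, by simp, by simp⟩
    | succ k ih => rw [hSs]; exact hG1 k _ ih
  have hlt : ∀ k, S k ⊂ S (k+1) := fun k => by rw [hSs]; exact hG2 k _ (hgood k)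
  have hmono : Monotone S := monotone_nat_of_le_succ (fun k => (hlt k).1)
  have hcard : ∀ k, k ≤ (S k).card := by
    intro k
    induction k with
    | zero => simp
    | succ k ih =>
      have := Finset.card_lt_card (hlt k)
      omega
  set T : Set X := ⋃ k : ℕ, ((S k : Finset X) : Set X) with hT
  have hTc : T.Countable := Set.countable_iUnion (fun k => (S k).countable_toSet)
  have hTi : T.Infinite := by
    intro hfin
    have h1 : ∀ k, (S k) ⊆ hfin.toFinset := by
      intro k x hx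
      rw [Set.Finite.mem_toFinset]
      exact Set.mem_iUnion.mpr ⟨k, by exact_mod_cast hx⟩
    have h2 := Finset.card_le_card (h1 (hfin.toFinset.card + 1))
    have h3 := hcard (hfin.toFinset.card + 1)
    omega
  have : Countable T := hTc.to_subtype
  have : Infinite T := hTi.to_subtype
  obtain ⟨hD⟩ := nonempty_denumerable T
  let e : T ≃ ℕ := Denumerable.eqv T
  refine ⟨fun n => (e.symm n : X), ?_, ?_, ?_, ?_⟩
  · intro n
    obtain ⟨k, hk⟩ := Set.mem_iUnion.mp (e.symm n).2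
    exact (hgood k).1 _ (by exact_mod_cast hk)
  · intro m n hmn
    obtain ⟨k, hk⟩ := Set.mem_iUnion.mp (e.symm m).2
    obtain ⟨l, hl⟩ := Set.mem_iUnion.mp (e.symm n).2
    have hk' : (e.symm m : X) ∈ S (max k l) := hmono (le_max_left k l) (by exact_mod_cast hk)
    have hl' : (e.symm n : X) ∈ S (max k l) := hmono (le_max_right k l) (by exact_mod_cast hl)
    refine (hgood _).2.1 _ hk' _ hl' ?_
    intro h
    exact hmn (e.symm.injective (Subtype.ext h))
  · intro n
    obtain ⟨k, hk⟩ := Set.mem_iUnion.mp (e.symm n).2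
    exact (hgood k).2.2 _ (by exact_mod_cast hk)
  · intro k
    obtain ⟨h, hhU, hhs⟩ := hG3 k _ (hgood k)
    refine ⟨h, hhU, ?_⟩
    have hr : Set.range (fun n => (e.symm n : X)) = T := by
      ext x
      constructor
      · rintro ⟨n, rfl⟩; exact (e.symm n).2
      · intro hx; exact ⟨e ⟨x, hx⟩, by simp⟩
    rw [hr]
    refine Submodule.span_mono ?_ hhs
    intro x hx
    exact Set.mem_iUnion.mpr ⟨k+1, by rw [hSs]; exact hx⟩

end abstractPart

section concrete

/-- continuous functions on the unit interval, to be given the L2 inner product -/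
def XX : Type := C(Set.Icc (0:ℝ) 1, ℝ)

noncomputable instance : AddCommGroup XX := inferInstanceAs (AddCommGroup C(Set.Icc (0:ℝ) 1, ℝ))
noncomputable instance : Module ℝ XX := inferInstanceAs (Module ℝ C(Set.Icc (0:ℝ) 1, ℝ))

/-- extension to the line -/
noncomputable def ext (f : XX) (t : ℝ) : ℝ :=
  (show C(Set.Icc (0:ℝ) 1, ℝ) from f) (Set.projIcc 0 1 zero_le_one t)

lemma ext_cont (f : XX) : Continuous (ext f) :=
  (show C(Set.Icc (0:ℝ) 1, ℝ) from f).continuous.comp continuous_projIcc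

lemma ext_add (f g : XX) (t : ℝ) : ext (f + g) t = ext f t + ext g t := rfl
lemma ext_smul (c : ℝ) (f : XX) (t : ℝ) : ext (c • f) t = c * ext f t := rfl
lemma ext_sub (f g : XX) (t : ℝ) : ext (f - g) t = ext f t - ext g t := rfl

lemma ext_zero (t : ℝ) : ext 0 t = 0 := rfl

lemma eq_zero_of_ext (f : XX) (h : ∀ t ∈ Set.Icc (0:ℝ) 1, ext f t = 0) : f = 0 := by
  refine ContinuousMap.ext (fun x => ?_)
  have := h x.1 x.2
  unfold ext at this
  rw [Set.projIcc_of_mem zero_le_one x.2] at this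
  exact this

noncomputable instance core : InnerProductSpace.Core ℝ XX where
  inner f g := ∫ t in (0:ℝ)..1, ext f t * ext g t
  conj_inner_symm f g := by simp [mul_comm]
  re_inner_nonneg f := by
    simp only [RCLike.re_to_real]
    exact intervalIntegral.integral_nonneg zero_le_one (fun t _ => mul_self_nonneg _)
  add_left f g h := by
    simp only [ext_add, add_mul]
    exact intervalIntegral.integral_add
      (((ext_cont f).mul (ext_cont h)).intervalIntegrable _ _)
      (((ext_cont g).mul (ext_cont h)).intervalIntegrable _ _)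
  smul_left f g r := by
    simp only [ext_smul, mul_assoc, conj_trivial]
    exact intervalIntegral.integral_const_mul _ _
  definite f hf := by
    by_contra hne
    have : ∃ t ∈ Set.Icc (0:ℝ) 1, ext f t ≠ 0 := by
      by_contra hc
      push Not at hc
      exact hne (eq_zero_of_ext f hc)
    obtain ⟨t, ht, ht0⟩ := this
    have hpos : 0 < ∫ t in (0:ℝ)..1, ext f t * ext f t :=
      intervalIntegral.integral_pos zero_lt_one
        ((ext_cont f).mul (ext_cont f)).continuousOn (fun x _ => mul_self_nonneg _)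
        ⟨t, ht, mul_self_pos.mpr ht0⟩
    exact hpos.ne' hf

noncomputable instance : NormedAddCommGroup XX := InnerProductSpace.Core.toNormedAddCommGroup (𝕜 := ℝ)
noncomputable instance : InnerProductSpace ℝ XX := InnerProductSpace.ofCore _

lemma inner_def (f g : XX) : ⟪f, g⟫_ℝ = ∫ t in (0:ℝ)..1, ext f t * ext g t := rfl

/-- evaluation at zero -/
noncomputable def ev : XX →ₗ[ℝ] ℝ where
  toFun f := ext f 0
  map_add' f g := ext_add f g 0
  map_smul' c f := ext_smul c f 0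

lemma spikes (δ : ℝ) (hδ : 0 < δ) : ∃ σ : XX, ev σ = 1 ∧ ‖σ‖ < δ := by
  obtain ⟨n, hn⟩ := exists_nat_gt (1/δ^2)
  let σ : XX := (⟨fun x => (1 - (x:ℝ))^n, by fun_prop⟩ : C(Set.Icc (0:ℝ) 1, ℝ))
  have hσ : ∀ t ∈ Set.Icc (0:ℝ) 1, ext σ t = (1 - t)^n := by
    intro t ht
    show (1 - ((Set.projIcc 0 1 zero_le_one t : Set.Icc (0:ℝ) 1) : ℝ))^n = _
    rw [Set.projIcc_of_mem zero_le_one ht]
  refine ⟨σ, ?_, ?_⟩
  · show ext σ 0 = 1
    rw [hσ 0 (by simp)]; simp
  · have h1 : ‖σ‖^2 = 1/(2*n+1) := by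
      rw [← real_inner_self_eq_norm_sq, inner_def]
      have : ∫ t in (0:ℝ)..1, ext σ t * ext σ t = ∫ t in (0:ℝ)..1, (1 - t)^(2*n) := by
        apply intervalIntegral.integral_congr
        intro t ht
        rw [Set.uIcc_of_le zero_le_one] at ht
        simp only [hσ t ht]
        ring
      rw [this, intervalIntegral.integral_comp_sub_left (fun x => x^(2*n)) 1]
      simp [integral_pow]
    have h2 : ‖σ‖^2 < δ^2 := by
      rw [h1]
      have hδ2 : 0 < δ^2 := by positivity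
      rw [div_lt_iff₀ (by positivity)]
      rw [div_lt_iff₀ hδ2] at hn
      nlinarith
    exact lt_of_pow_lt_pow_left₀ 2 hδ.le h2

end concrete

end Pool.Agent.OrthSys
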