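import Pool.Agent.OrthSys

set_option autoImplicit false

namespace Pool.Agent.OrthSysReal

open Pool.Agent.OrthSys
open scoped InnerProductSpace

/-- evaluation at a point as a linear map -/
noncomputable def evt (t : ℝ) : XX →ₗ[ℝ] ℝ where
  toFun f := ext f t
  map_add' f g := ext_add f g t
  map_smul' c f := ext_smul c f t

/-- the constant function one -/
noncomputable def one : XX := (ContinuousMap.const _ (1:ℝ) : C(Set.Icc (0:ℝ) 1, ℝ))

lemma ext_one (t : ℝ) : ext one t = 1 := rfl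

/-- the target sets -/
def U (d : ℕ → XX) (k : ℕ) : Set XX :=
  {h | ∀ t ∈ Set.Icc (0:ℝ) 1, |ext h t - ext (d (Nat.unpair k).1) t| < 1 / (((Nat.unpair k).2 : ℝ) + 1)}

lemma hU (d : ℕ → XX) (k : ℕ) (W : Submodule ℝ XX) (hW : FiniteDimensional ℝ W) :
    ∃ h ∈ U d k, h ∉ W := by
  obtain ⟨s, hsW, hs1, -⟩ := exists_small_orth ev spikes W 1 one_pos
  have hsn : s ∉ W := by
    intro hs
    have h0 : ⟪s, s⟫_ℝ = 0 := hsW s hs
    rw [inner_self_eq_zero] at h0
    rw [h0, map_zero] at hs1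
    exact zero_ne_one hs1
  set D : XX := d (Nat.unpair k).1 with hD
  set r : ℝ := ((Nat.unpair k).2 : ℝ) + 1 with hr
  have hrpos : 0 < r := by positivity
  by_cases hDW : D ∈ W
  · obtain ⟨M, hM⟩ := isCompact_Icc.exists_bound_of_continuousOn
      (s := Set.Icc (0:ℝ) 1) (ext_cont s).continuousOn
    have hM0 : 0 ≤ M := le_trans (norm_nonneg _) (hM 0 (by simp))
    set δ : ℝ := 1 / (r * (M + 1)) with hδ
    have hδ0 : 0 < δ := by positivity
    refine ⟨D + δ • s, ?_, ?_⟩
    · intro t ht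
      rw [ext_add, ext_smul, ← hD, add_sub_cancel_left, abs_mul, abs_of_pos hδ0]
      have h1 : |ext s t| ≤ M := hM t ht
      calc δ * |ext s t| ≤ δ * M := by gcongr
        _ < δ * (M + 1) := by gcongr; linarith
        _ = 1 / r := by rw [hδ]; field_simp
    · intro hc
      have h1 : δ • s ∈ W := by
        have := W.sub_mem hc hDW
        rwa [add_sub_cancel_left] at this
      have h2 := W.smul_mem δ⁻¹ h1
      rw [smul_smul, inv_mul_cancel₀ hδ0.ne', one_smul] at h2
      exact hsn h2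
  · refine ⟨D, ?_, hDW⟩
    intro t ht
    rw [← hD, sub_self, abs_zero]
    positivity


/-- An orthogonal system of continuous functions, closed in the sup norm, all of whose members
vanish at `0` or have mean zero. -/
theorem exists_closed_system :
    ∃ φ : ℕ → ℝ → ℝ, (∀ n, Continuous (φ n)) ∧
      (∀ n, ∃ t ∈ Set.Icc (0:ℝ) 1, φ n t ≠ 0) ∧
      (∀ m n : ℕ, m ≠ n → ∫ t in (0:ℝ)..1, φ m t * φ n t = 0) ∧
      (∀ g : ℝ → ℝ, ContinuousOn g (Set.Icc (0:ℝ) 1) → ∀ ε : ℝ, ε > 0 →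
        ∃ s : Finset ℕ, ∃ c : ℕ → ℝ,
          ∀ t ∈ Set.Icc (0:ℝ) 1, |g t - ∑ i ∈ s, c i * φ i t| < ε) ∧
      (∀ n, φ n 0 = 0 ∨ ∫ t in (0:ℝ)..1, φ n t = 0) := by
  obtain ⟨d0, hd0⟩ := TopologicalSpace.exists_dense_seq C(Set.Icc (0:ℝ) 1, ℝ)
  let d : ℕ → XX := d0
  obtain ⟨φ, h1, h2, h3, h4⟩ := exists_system ev spikes one (U d) (hU d)
  refine ⟨fun n => ext (φ n), fun n => ext_cont (φ n), ?_, ?_, ?_, ?_⟩
  · intro n
    by_contra hc
    push Not at hc
    exact h1 n (eq_zero_of_ext _ hc)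
  · intro m n hmn
    have := h2 m n hmn
    rwa [inner_def] at this
  · intro g hg ε hε
    let G : C(Set.Icc (0:ℝ) 1, ℝ) :=
      ⟨Set.restrict (Set.Icc (0:ℝ) 1) g, continuousOn_iff_continuous_restrict.mp hg⟩
    obtain ⟨i, hi⟩ := hd0.exists_dist_lt G (half_pos hε)
    obtain ⟨j, hj⟩ := exists_nat_one_div_lt (half_pos hε)
    obtain ⟨h, hhU, hhs⟩ := h4 (Nat.pair i j)
    rw [Finsupp.mem_span_range_iff_exists_finsupp] at hhs
    obtain ⟨c, hc⟩ := hhs
    refine ⟨c.support, c, ?_⟩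
    intro t ht
    have hsum : ∑ i ∈ c.support, c i * ext (φ i) t = ext h t := by
      have : evt t h = ∑ i ∈ c.support, c i * ext (φ i) t := by
        rw [← hc, Finsupp.sum, map_sum]
        apply Finset.sum_congr rfl
        intro i _
        rw [map_smul]; rfl
      exact this.symm
    rw [hsum]
    have hU1 := hhU t ht
    rw [Nat.unpair_pair] at hU1
    have hG : |g t - ext (d i) t| < ε/2 := by
      have e1 := ContinuousMap.dist_apply_le_dist (f := G) (g := d0 i) ⟨t, ht⟩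
      have e2 : ext (d i) t = d0 i ⟨t, ht⟩ := by
        show d0 i (Set.projIcc 0 1 zero_le_one t) = _
        rw [Set.projIcc_of_mem zero_le_one ht]
      rw [e2]
      have e3 : dist (G ⟨t, ht⟩) (d0 i ⟨t, ht⟩) = |g t - d0 i ⟨t, ht⟩| := rfl
      rw [← e3]
      exact lt_of_le_of_lt e1 hi
    have hh : |ext h t - ext (d i) t| < ε/2 := lt_trans hU1 hj
    calc |g t - ext h t| = |(g t - ext (d i) t) - (ext h t - ext (d i) t)| := by ring_nf
      _ ≤ |g t - ext (d i) t| + |ext h t - ext (d i) t| := abs_sub _ _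
      _ < ε := by linarith
  · intro n
    rcases h3 n with h | h
    · left; exact h
    · right
      rw [inner_def] at h
      simpa [ext_one] using h

end Pool.Agent.OrthSysReal
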