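import Mathlib

set_option autoImplicit false
set_option linter.unusedSectionVars false
set_option linter.style.haveILetI false
open MeasureTheory Metric Set Filter Topology
open scoped NNReal RealInnerProductSpace

namespace Pool.Agent.P092

/-- Convex hulls of compact sets in finite dimension are compact. -/
theorem isCompact_convexHull' {V : Type} [NormedAddCommGroup V] [NormedSpace ℝ V]
    [FiniteDimensional ℝ V] {s : Set V} (hs : IsCompact s) : IsCompact (convexHull ℝ s) := by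
  have key : convexHull ℝ s = ⋃ k ∈ Finset.range (Module.finrank ℝ V + 2),
      (fun p : (Fin k → ℝ) × (Fin k → V) => ∑ i, p.1 i • p.2 i) ''
        (stdSimplex ℝ (Fin k) ×ˢ Set.univ.pi (fun _ => s)) := by
    ext x
    constructor
    · intro hx
      obtain ⟨ι, hι, z, w, hz, haff, hw, hw1, hx⟩ := eq_pos_convex_span_of_mem_convexHull hx
      have hcard : Fintype.card ι ≤ Module.finrank ℝ V + 1 := haff.card_le_finrank_succ.trans
        (by gcongr; exact Submodule.finrank_le _)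
      let e := Fintype.equivFin ι
      simp only [mem_iUnion]
      refine ⟨Fintype.card ι, by simp; omega, ⟨(w ∘ e.symm, z ∘ e.symm), ⟨⟨?_, ?_⟩, ?_⟩, ?_⟩⟩
      · intro i
        exact (hw _).le
      · rw [← hw1]
        exact Equiv.sum_comp e.symm w
      · intro i _
        exact hz ⟨_, rfl⟩
      · rw [← hx]
        exact Equiv.sum_comp e.symm (fun i => w i • z i)
    · intro hx
      simp only [mem_iUnion] at hx
      obtain ⟨k, _, ⟨p, ⟨hp1, hp2⟩, rfl⟩⟩ := hx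
      refine (convex_convexHull ℝ s).sum_mem (fun i _ => hp1.1 i) hp1.2 (fun i _ => ?_)
      exact subset_convexHull ℝ s (hp2 i (mem_univ i))
  rw [key]
  refine (Finset.range _).isCompact_biUnion (fun k _ => ?_)
  refine IsCompact.image ((isCompact_stdSimplex ℝ (Fin k)).prod (isCompact_univ_pi (fun _ => hs))) ?_
  fun_prop

/-- limiting gradients -/
def limGrad {E F : Type} [NormedAddCommGroup E] [NormedSpace ℝ E] [NormedAddCommGroup F]
    [NormedSpace ℝ F] (g : E → F) (x₀ : E) : Set (E →L[ℝ] F) :=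
  {B | ∀ ε : ℝ, 0 < ε → ∀ δ : ℝ, 0 < δ →
              ∃ x : E, dist x x₀ < δ ∧ DifferentiableAt ℝ g x ∧
                ‖fderiv ℝ g x - B‖ < ε}

section
variable {E F : Type} [NormedAddCommGroup E] [InnerProductSpace ℝ E] [FiniteDimensional ℝ E]
  [NormedAddCommGroup F] [InnerProductSpace ℝ F] [FiniteDimensional ℝ F]

theorem limGrad_bound {g : E → F} {L : ℝ≥0} (hg : LipschitzWith L g) {x₀ : E} {B : E →L[ℝ] F}
    (hB : B ∈ limGrad g x₀) : ‖B‖ ≤ L := by
  refine le_of_forall_pos_le_add (fun ε hε => ?_)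
  obtain ⟨x, _, _, hx⟩ := hB ε hε 1 one_pos
  have h1 : ‖fderiv ℝ g x‖ ≤ L := norm_fderiv_le_of_lipschitz ℝ hg
  have h2 : ‖B‖ ≤ ‖fderiv ℝ g x‖ + ‖fderiv ℝ g x - B‖ := by
    have : B = fderiv ℝ g x - (fderiv ℝ g x - B) := by abel
    calc ‖B‖ = ‖fderiv ℝ g x - (fderiv ℝ g x - B)‖ := by rw [← this]
      _ ≤ _ := norm_sub_le _ _
  linarith

theorem limGrad_compact {g : E → F} {L : ℝ≥0} (hg : LipschitzWith L g) (x₀ : E) :
    IsCompact (limGrad g x₀) := by
  haveI : ProperSpace (E →L[ℝ] F) := FiniteDimensional.proper ℝ _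
  refine Metric.isCompact_of_isClosed_isBounded ?_ ?_
  · refine isClosed_of_closure_subset (fun B hB => ?_)
    intro ε hε δ hδ
    obtain ⟨B', hB', hd⟩ := Metric.mem_closure_iff.1 hB (ε / 2) (by positivity)
    obtain ⟨x, hx1, hx2, hx3⟩ := hB' (ε / 2) (by positivity) δ hδ
    refine ⟨x, hx1, hx2, ?_⟩
    calc ‖fderiv ℝ g x - B‖ = ‖(fderiv ℝ g x - B') + (B' - B)‖ := by congr 1; abel
      _ ≤ ‖fderiv ℝ g x - B'‖ + ‖B' - B‖ := norm_add_le _ _
      _ < ε / 2 + ε / 2 := by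
          refine add_lt_add hx3 ?_
          rw [← dist_eq_norm, dist_comm]
          exact hd
      _ = ε := by ring
  · refine (Metric.isBounded_closedBall (x := (0 : E →L[ℝ] F)) (r := L)).subset (fun B hB => ?_)
    rw [mem_closedBall_zero_iff]
    exact limGrad_bound hg hB

theorem clarke_sep {g : E → F} {L : ℝ≥0} (hg : LipschitzWith L g) (x₀ : E)
    (hsurj : ∀ A ∈ convexHull ℝ (limGrad g x₀), Function.Surjective A) {r : F} (hr : r ≠ 0) :
    ∃ v : E, ∃ κ > (0 : ℝ), ∃ δ > (0 : ℝ), ∀ z ∈ ball x₀ δ, DifferentiableAt ℝ g z →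
      κ ≤ ⟪r, fderiv ℝ g z v⟫ := by
  haveI : ProperSpace (E →L[ℝ] F) := FiniteDimensional.proper ℝ _
  have hcK := isCompact_convexHull' (limGrad_compact hg x₀)
  set C : Set E := (fun A : E →L[ℝ] F => ContinuousLinearMap.adjoint A r) ''
    convexHull ℝ (limGrad g x₀) with hC
  have hCc : IsCompact C := by
    refine hcK.image ?_
    have : Continuous (fun A : E →L[ℝ] F => ContinuousLinearMap.adjoint A) :=
      ContinuousLinearMap.adjoint.continuous
    fun_prop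
  have hCconv : Convex ℝ C := by
    rintro _ ⟨A1, h1, rfl⟩ _ ⟨A2, h2, rfl⟩ a b ha hb hab
    refine ⟨a • A1 + b • A2, convex_convexHull ℝ _ h1 h2 ha hb hab, ?_⟩
    simp [map_add]
  have h0 : (0 : E) ∉ C := by
    rintro ⟨A, hA, hA0⟩
    obtain ⟨x, hx⟩ := hsurj A hA r
    apply hr
    have : ⟪ContinuousLinearMap.adjoint A r, x⟫ = ⟪r, A x⟫ := ContinuousLinearMap.adjoint_inner_left A x r
    simp only at hA0
    rw [hA0, hx, inner_zero_left] at this
    exact inner_self_eq_zero.1 this.symm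
  obtain ⟨φ, u, hu0, hu⟩ := geometric_hahn_banach_point_closed hCconv hCc.isClosed h0
  rw [map_zero] at hu0
  set v : E := (InnerProductSpace.toDual ℝ E).symm φ with hv
  have hφ : ∀ x, φ x = ⟪v, x⟫ := fun x => (InnerProductSpace.toDual_symm_apply).symm
  have hsep : ∀ A ∈ limGrad g x₀, u < ⟪r, A v⟫ := by
    intro A hA
    have h1 := hu _ ⟨A, subset_convexHull ℝ _ hA, rfl⟩
    rw [hφ] at h1
    simp only at h1
    rw [ContinuousLinearMap.adjoint_inner_right, real_inner_comm] at h1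
    exact h1
  refine ⟨v, u / 2, by positivity, ?_⟩
  by_contra hcon
  push Not at hcon
  have hcon' : ∀ k : ℕ, ∃ z ∈ ball x₀ (1 / ((k : ℝ) + 1)), DifferentiableAt ℝ g z ∧
      ⟪r, fderiv ℝ g z v⟫ < u / 2 := fun k => hcon _ (by positivity)
  choose z hz1 hz2 hz3 using hcon'
  obtain ⟨B, _, φ', hφ', hlim⟩ := tendsto_subseq_of_bounded (x := fun k => fderiv ℝ g (z k))
    (Metric.isBounded_closedBall (x := (0 : E →L[ℝ] F)) (r := L))
    (fun k => by rw [mem_closedBall_zero_iff]; exact norm_fderiv_le_of_lipschitz ℝ hg)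
  have hB : B ∈ limGrad g x₀ := by
    intro ε hε δ hδ
    have e1 : ∀ᶠ k in atTop, ‖fderiv ℝ g (z (φ' k)) - B‖ < ε := by
      have := (Metric.tendsto_nhds.1 hlim) ε hε
      filter_upwards [this] with k hk
      rw [dist_eq_norm] at hk
      exact hk
    have e2 : ∀ᶠ k in atTop, (1 / (((φ' k : ℕ) : ℝ) + 1)) < δ :=
      ((tendsto_one_div_add_atTop_nhds_zero_nat (𝕜 := ℝ)).comp hφ'.tendsto_atTop).eventually_lt_const hδ
    obtain ⟨k, hk1, hk2⟩ := (e1.and e2).exists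
    exact ⟨z (φ' k), lt_trans (mem_ball.1 (hz1 (φ' k))) hk2, hz2 _, hk1⟩
  have h1 := hsep B hB
  have h2 : Tendsto (fun k => ⟪r, fderiv ℝ g (z (φ' k)) v⟫) atTop (𝓝 ⟪r, B v⟫) := by
    have hc : Continuous (fun A : E →L[ℝ] F => ⟪r, A v⟫) := by fun_prop
    exact (hc.tendsto B).comp hlim
  have h3 : ⟪r, B v⟫ ≤ u / 2 := le_of_tendsto' h2 (fun k => (hz3 (φ' k)).le)
  linarith

theorem clarke_unif {g : E → F} {L : ℝ≥0} (hg : LipschitzWith L g) (x₀ : E)
    (hsurj : ∀ A ∈ convexHull ℝ (limGrad g x₀), Function.Surjective A) :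
    ∃ κ > (0 : ℝ), ∃ δ > (0 : ℝ), ∀ r : F, ‖r‖ = 1 → ∃ v : E, ‖v‖ ≤ 1 ∧
      ∀ z ∈ ball x₀ δ, DifferentiableAt ℝ g z → κ ≤ ⟪r, fderiv ℝ g z v⟫ := by
  haveI : ProperSpace F := FiniteDimensional.proper ℝ _
  have hcomp : IsCompact (sphere (0 : F) 1) := isCompact_sphere _ _
  suffices h : ∃ κ > (0 : ℝ), ∃ δ > (0 : ℝ), ∀ r ∈ sphere (0 : F) 1, ∃ v : E, ‖v‖ ≤ 1 ∧
      ∀ z ∈ ball x₀ δ, DifferentiableAt ℝ g z → κ ≤ ⟪r, fderiv ℝ g z v⟫ by
    obtain ⟨κ, hκ, δ, hδ, h⟩ := h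
    exact ⟨κ, hκ, δ, hδ, fun r hr => h r (by simpa using hr)⟩
  refine hcomp.induction_on (p := fun S => ∃ κ > (0 : ℝ), ∃ δ > (0 : ℝ), ∀ r ∈ S, ∃ v : E, ‖v‖ ≤ 1 ∧
      ∀ z ∈ ball x₀ δ, DifferentiableAt ℝ g z → κ ≤ ⟪r, fderiv ℝ g z v⟫) ?_ ?_ ?_ ?_
  · exact ⟨1, one_pos, 1, one_pos, fun r hr => absurd hr (Set.notMem_empty _)⟩
  · rintro s t hst ⟨κ, hκ, δ, hδ, h⟩
    exact ⟨κ, hκ, δ, hδ, fun r hr => h r (hst hr)⟩
  · rintro s t ⟨κ, hκ, δ, hδ, h⟩ ⟨κ', hκ', δ', hδ', h'⟩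
    refine ⟨min κ κ', lt_min hκ hκ', min δ δ', lt_min hδ hδ', ?_⟩
    rintro r (hr | hr)
    · obtain ⟨v, hv, hv'⟩ := h r hr
      exact ⟨v, hv, fun z hz hd => (min_le_left _ _).trans
        (hv' z (ball_subset_ball (min_le_left _ _) hz) hd)⟩
    · obtain ⟨v, hv, hv'⟩ := h' r hr
      exact ⟨v, hv, fun z hz hd => (min_le_right _ _).trans
        (hv' z (ball_subset_ball (min_le_right _ _) hz) hd)⟩
  · intro r hr
    have hr0 : r ≠ 0 := by
      rintro rfl
      simp at hr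
    obtain ⟨v, κ, hκ, δ, hδ, h⟩ := clarke_sep hg x₀ hsurj hr0
    have hvp : 0 < ‖v‖ + 1 := by positivity
    set v' : E := (‖v‖ + 1)⁻¹ • v with hv'
    set κ' : ℝ := κ / (‖v‖ + 1) with hκ'
    have hκ'pos : 0 < κ' := by positivity
    have hv'n : ‖v'‖ ≤ 1 := by
      rw [hv', norm_smul, norm_inv, Real.norm_eq_abs, abs_of_pos hvp, inv_mul_le_iff₀ hvp]
      linarith
    have h' : ∀ z ∈ ball x₀ δ, DifferentiableAt ℝ g z → κ' ≤ ⟪r, fderiv ℝ g z v'⟫ := by
      intro z hz hd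
      rw [hv', map_smul, real_inner_smul_right, hκ', div_eq_inv_mul]
      exact mul_le_mul_of_nonneg_left (h z hz hd) (by positivity)
    have hLp : (0 : ℝ) < L + 1 := by positivity
    refine ⟨ball r (κ' / (2 * (L + 1))), mem_nhdsWithin_of_mem_nhds (ball_mem_nhds _ (by positivity)),
      κ' / 2, by positivity, δ, hδ, ?_⟩
    intro r' hr'
    refine ⟨v', hv'n, fun z hz hd => ?_⟩
    have h1 := h' z hz hd
    have h2 : |⟪r - r', fderiv ℝ g z v'⟫| ≤ κ' / (2 * (L + 1)) * L := by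
      refine (abs_real_inner_le_norm _ _).trans ?_
      have h3 : ‖r - r'‖ ≤ κ' / (2 * (L + 1)) := by
        rw [← dist_eq_norm, dist_comm]
        exact (mem_ball.1 hr').le
      have h4 : ‖fderiv ℝ g z v'‖ ≤ L := by
        calc ‖fderiv ℝ g z v'‖ ≤ ‖fderiv ℝ g z‖ * ‖v'‖ := ContinuousLinearMap.le_opNorm _ _
          _ ≤ L * 1 := by gcongr; exact norm_fderiv_le_of_lipschitz ℝ hg
          _ = L := mul_one _
      exact mul_le_mul h3 h4 (norm_nonneg _) (by positivity)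
    have h5 : κ' / (2 * (L + 1)) * L ≤ κ' / 2 := by
      rw [div_mul_eq_mul_div, div_le_div_iff₀ (by positivity) (by positivity)]
      nlinarith [hκ'pos, L.coe_nonneg]
    have h6 := abs_le.1 h2
    rw [inner_sub_left] at h6
    linarith [h6.1, h6.2]

end

end Pool.Agent.P092
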