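import Mathlib

set_option autoImplicit false
set_option linter.unusedSectionVars false
set_option linter.style.haveILetI false
open MeasureTheory Metric Set Filter Topology
open scoped NNReal RealInnerProductSpace

namespace Pool.Agent.P092

section
variable {E F : Type} [NormedAddCommGroup E] [InnerProductSpace ℝ E] [FiniteDimensional ℝ E]
  [MeasurableSpace E] [BorelSpace E]
  [NormedAddCommGroup F] [InnerProductSpace ℝ F] [FiniteDimensional ℝ F]

structure Moll (μ : Measure E) (ρ : E → ℝ) : Prop where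
  smooth : ContDiff ℝ 2 ρ
  nonneg : ∀ u, 0 ≤ ρ u
  int_one : ∫ u, ρ u ∂μ = 1
  supp : ∀ u, 1 < ‖u‖ → ρ u = 0

theorem exists_moll (μ : Measure E) [μ.IsAddHaarMeasure] : ∃ ρ : E → ℝ, Moll μ ρ := by
  let φ : ContDiffBump (0 : E) := ⟨1 / 2, 1, by norm_num, by norm_num⟩
  refine ⟨φ.normed μ, ⟨φ.contDiff_normed, φ.nonneg_normed, φ.integral_normed, ?_⟩⟩
  intro u hu
  by_contra h
  have h1 : u ∈ Function.support (φ.normed μ) := h
  rw [φ.support_normed_eq] at h1
  have h2 : ‖u‖ < 1 := by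
    have := mem_ball_zero_iff.1 h1
    exact this
  linarith

variable {μ : Measure E} [μ.IsAddHaarMeasure] {ρ : E → ℝ} {g : E → F}

theorem Moll.compactSupp (h : Moll μ ρ) : HasCompactSupport ρ := by
  haveI : ProperSpace E := FiniteDimensional.proper ℝ _
  refine HasCompactSupport.intro (isCompact_closedBall (0 : E) 1) (fun u hu => h.supp u ?_)
  rw [mem_closedBall_zero_iff] at hu
  linarith [not_le.1 hu]

theorem Moll.cont (h : Moll μ ρ) : Continuous ρ := h.smooth.continuous

theorem Moll.fderiv_zero (h : Moll μ ρ) {u : E} (hu : 1 < ‖u‖) : fderiv ℝ ρ u = 0 := by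
  have h1 : ρ =ᶠ[𝓝 u] fun _ => 0 := by
    have : {w : E | 1 < ‖w‖} ∈ 𝓝 u := (isOpen_lt continuous_const continuous_norm).mem_nhds hu
    filter_upwards [this] with w hw
    exact h.supp w hw
  rw [h1.fderiv_eq]
  simp

theorem Moll.fderiv_cont (h : Moll μ ρ) : Continuous (fderiv ℝ ρ) :=
  h.smooth.continuous_fderiv (by norm_num)

theorem Moll.fderiv_compactSupp (h : Moll μ ρ) : HasCompactSupport (fderiv ℝ ρ) :=
  h.compactSupp.fderiv (𝕜 := ℝ)

variable (μ ρ g)

noncomputable def G (p : E × ℝ) : F := ∫ u, ρ u • g (p.1 - p.2 • u) ∂μ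

noncomputable def D (p : E × ℝ) : E →L[ℝ] F :=
  ∫ u, (fderiv ℝ ρ u).smulRight (g (p.1 - p.2 • u) - g p.1) ∂μ

variable {μ ρ g}

theorem intG (h : Moll μ ρ) {f : E → F} (hf : Continuous f) :
    Integrable (fun u => ρ u • f u) μ :=
  (h.cont.smul hf).integrable_of_hasCompactSupport h.compactSupp.smul_right

theorem intD (h : Moll μ ρ) {f : E → F} (hf : Continuous f) :
    Integrable (fun u => (fderiv ℝ ρ u).smulRight (f u)) μ := by
  refine Continuous.integrable_of_hasCompactSupport ?_ ?_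
  · have := h.fderiv_cont
    exact (ContinuousLinearMap.smulRightL ℝ E F).continuous₂.comp (this.prodMk hf)
  · refine h.fderiv_compactSupp.mono' (fun u hu => ?_)
    apply subset_tsupport
    intro h0
    apply hu
    simp only
    rw [h0]
    ext x
    simp

theorem cont_aux {L : ℝ≥0} (hg : LipschitzWith L g) (p : E × ℝ) :
    Continuous (fun u => g (p.1 - p.2 • u)) := by
  have := hg.continuous
  fun_prop

theorem lip_aux {L : ℝ≥0} (hg : LipschitzWith L g) (p p' : E × ℝ) {u : E} (hu : ‖u‖ ≤ 1) :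
    ‖g (p.1 - p.2 • u) - g (p'.1 - p'.2 • u)‖ ≤ L * (‖p.1 - p'.1‖ + |p.2 - p'.2|) := by
  have h1 : ‖g (p.1 - p.2 • u) - g (p'.1 - p'.2 • u)‖ ≤
      L * ‖(p.1 - p.2 • u) - (p'.1 - p'.2 • u)‖ := by
    rw [← dist_eq_norm, ← dist_eq_norm]
    exact hg.dist_le_mul _ _
  refine h1.trans ?_
  gcongr
  calc ‖(p.1 - p.2 • u) - (p'.1 - p'.2 • u)‖ = ‖(p.1 - p'.1) - (p.2 - p'.2) • u‖ := by
        congr 1; rw [sub_smul]; abel
    _ ≤ ‖p.1 - p'.1‖ + ‖(p.2 - p'.2) • u‖ := norm_sub_le _ _
    _ ≤ ‖p.1 - p'.1‖ + |p.2 - p'.2| := by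
        rw [norm_smul, Real.norm_eq_abs]
        nlinarith [abs_nonneg (p.2 - p'.2), norm_nonneg u]

theorem G_lip (h : Moll μ ρ) {L : ℝ≥0} (hg : LipschitzWith L g) (p p' : E × ℝ) :
    ‖G μ ρ g p - G μ ρ g p'‖ ≤ L * (‖p.1 - p'.1‖ + |p.2 - p'.2|) := by
  have e : G μ ρ g p - G μ ρ g p' =
      ∫ u, ρ u • (g (p.1 - p.2 • u) - g (p'.1 - p'.2 • u)) ∂μ := by
    simp only [G, smul_sub]
    rw [integral_sub (intG h (cont_aux hg p)) (intG h (cont_aux hg p'))]
  rw [e]
  have hb : ∀ u, ‖ρ u • (g (p.1 - p.2 • u) - g (p'.1 - p'.2 • u))‖ ≤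
      ρ u * (L * (‖p.1 - p'.1‖ + |p.2 - p'.2|)) := by
    intro u
    rw [norm_smul, Real.norm_eq_abs, abs_of_nonneg (h.nonneg u)]
    rcases le_or_gt ‖u‖ 1 with hu | hu
    · exact mul_le_mul_of_nonneg_left (lip_aux hg p p' hu) (h.nonneg u)
    · rw [h.supp u hu]; simp
  have hi : Integrable (fun u => ρ u * (L * (‖p.1 - p'.1‖ + |p.2 - p'.2|))) μ :=
    (h.cont.integrable_of_hasCompactSupport h.compactSupp).mul_const _
  refine (norm_integral_le_of_norm_le hi (ae_of_all _ hb)).trans ?_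
  rw [integral_mul_const, h.int_one, one_mul]

theorem G_zero (h : Moll μ ρ) (x : E) : G μ ρ g (x, 0) = g x := by
  simp only [G, zero_smul, sub_zero]
  rw [integral_smul_const, h.int_one, one_smul]

theorem G_cont (h : Moll μ ρ) {L : ℝ≥0} (hg : LipschitzWith L g) : Continuous (G μ ρ g) := by
  refine LipschitzWith.continuous (K := 2 * L) (LipschitzWith.of_dist_le_mul (fun p p' => ?_))
  rw [dist_eq_norm]
  refine (G_lip h hg p p').trans ?_
  have h1 : ‖p.1 - p'.1‖ ≤ dist p p' := by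
    rw [← dist_eq_norm]; exact le_max_left _ _
  have h2 : |p.2 - p'.2| ≤ dist p p' := by
    rw [← Real.dist_eq]; exact le_max_right _ _
  push_cast
  nlinarith [L.coe_nonneg]

theorem norm_smulRight_sub (c : E →L[ℝ] ℝ) (a b : F) :
    c.smulRight a - c.smulRight b = c.smulRight (a - b) := by
  ext x
  simp [smul_sub]

theorem D_lip (h : Moll μ ρ) {L : ℝ≥0} (hg : LipschitzWith L g) (p p' : E × ℝ) :
    ‖D μ ρ g p - D μ ρ g p'‖ ≤
      (∫ u, ‖fderiv ℝ ρ u‖ ∂μ) * (L * (2 * ‖p.1 - p'.1‖ + |p.2 - p'.2|)) := by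
  have hc1 : Continuous (fun u => g (p.1 - p.2 • u) - g p.1) := (cont_aux hg p).sub continuous_const
  have hc2 : Continuous (fun u => g (p'.1 - p'.2 • u) - g p'.1) :=
    (cont_aux hg p').sub continuous_const
  have e : D μ ρ g p - D μ ρ g p' =
      ∫ u, (fderiv ℝ ρ u).smulRight ((g (p.1 - p.2 • u) - g p.1) -
        (g (p'.1 - p'.2 • u) - g p'.1)) ∂μ := by
    simp only [D]
    rw [← integral_sub (intD h hc1) (intD h hc2)]
    simp only [norm_smulRight_sub]
  rw [e]
  have hb : ∀ u, ‖(fderiv ℝ ρ u).smulRight ((g (p.1 - p.2 • u) - g p.1) -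
        (g (p'.1 - p'.2 • u) - g p'.1))‖ ≤
      ‖fderiv ℝ ρ u‖ * (L * (2 * ‖p.1 - p'.1‖ + |p.2 - p'.2|)) := by
    intro u
    rw [ContinuousLinearMap.norm_smulRight_apply]
    rcases le_or_gt ‖u‖ 1 with hu | hu
    · refine mul_le_mul_of_nonneg_left ?_ (norm_nonneg _)
      have h1 := lip_aux hg p p' hu
      have h2 : ‖g p.1 - g p'.1‖ ≤ L * ‖p.1 - p'.1‖ := by
        rw [← dist_eq_norm, ← dist_eq_norm]; exact hg.dist_le_mul _ _
      calc ‖(g (p.1 - p.2 • u) - g p.1) - (g (p'.1 - p'.2 • u) - g p'.1)‖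
          = ‖(g (p.1 - p.2 • u) - g (p'.1 - p'.2 • u)) - (g p.1 - g p'.1)‖ := by congr 1; abel
        _ ≤ _ := norm_sub_le _ _
        _ ≤ L * (‖p.1 - p'.1‖ + |p.2 - p'.2|) + L * ‖p.1 - p'.1‖ := add_le_add h1 h2
        _ = _ := by ring
    · rw [h.fderiv_zero hu]; simp
  have hi : Integrable (fun u => ‖fderiv ℝ ρ u‖ * (L * (2 * ‖p.1 - p'.1‖ + |p.2 - p'.2|))) μ :=
    (h.fderiv_cont.integrable_of_hasCompactSupport h.fderiv_compactSupp).norm.mul_const _
  refine (norm_integral_le_of_norm_le hi (ae_of_all _ hb)).trans ?_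
  rw [integral_mul_const]

theorem D_cont (h : Moll μ ρ) {L : ℝ≥0} (hg : LipschitzWith L g) : Continuous (D μ ρ g) := by
  set I : ℝ := ∫ u, ‖fderiv ℝ ρ u‖ ∂μ with hI
  have hI0 : 0 ≤ I := integral_nonneg (fun u => norm_nonneg _)
  refine LipschitzWith.continuous (K := I.toNNReal * (3 * L))
    (LipschitzWith.of_dist_le_mul (fun p p' => ?_))
  rw [dist_eq_norm]
  refine (D_lip h hg p p').trans ?_
  have h1 : ‖p.1 - p'.1‖ ≤ dist p p' := by
    rw [← dist_eq_norm]; exact le_max_left _ _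
  have h2 : |p.2 - p'.2| ≤ dist p p' := by
    rw [← Real.dist_eq]; exact le_max_right _ _
  rw [← hI]
  push_cast
  rw [Real.coe_toNNReal I hI0, mul_assoc I]
  refine mul_le_mul_of_nonneg_left ?_ hI0
  nlinarith [L.coe_nonneg]

theorem D_bound (h : Moll μ ρ) {L : ℝ≥0} (hg : LipschitzWith L g) (x : E) {ε : ℝ} (hε : 0 ≤ ε) :
    ‖D μ ρ g (x, ε)‖ ≤ (∫ u, ‖fderiv ℝ ρ u‖ ∂μ) * (L * ε) := by
  have h1 := D_lip h hg (x, ε) (x, 0)
  have h2 : D μ ρ g (x, 0) = 0 := by
    simp only [D, zero_smul, sub_zero, sub_self]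
    have : ∀ u, (fderiv ℝ ρ u).smulRight (0 : F) = 0 := by
      intro u; ext y; simp
    simp [this]
  rw [h2, sub_zero] at h1
  simpa [abs_of_nonneg hε] using h1

theorem taylor (h : Moll μ ρ) {L : ℝ≥0} (hg : LipschitzWith L g) :
    ∃ C : ℝ, 0 ≤ C ∧ ∀ (x : E) (ε : ℝ) (k : E), 0 < ε → ‖k‖ ≤ 1 →
      ‖G μ ρ g (x + ε • k, ε) - G μ ρ g (x, ε) - D μ ρ g (x, ε) k‖ ≤ C * ε * ‖k‖ ^ 2 := by
  haveI : ProperSpace E := FiniteDimensional.proper ℝ _
  obtain ⟨C₂, hC₂⟩ := ContDiff.lipschitzWith_of_hasCompactSupport (𝕂 := ℝ) (n := 1)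
    h.fderiv_compactSupp (h.smooth.fderiv_right (m := 1) (by norm_num)) (by norm_num)
  have htay : ∀ u k : E, |ρ (u + k) - ρ u - fderiv ℝ ρ u k| ≤ C₂ * ‖k‖ ^ 2 := by
    intro u k
    have h1 := Convex.norm_image_sub_le_of_norm_fderiv_le' (𝕜 := ℝ) (f := ρ) (C := C₂ * ‖k‖)
      (s := closedBall u ‖k‖) (x := u) (y := u + k) (φ := fderiv ℝ ρ u)
      (fun z _ => h.smooth.differentiable (by norm_num) z) (fun z hz => by
        rw [← dist_eq_norm]
        refine (hC₂.dist_le_mul _ _).trans ?_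
        gcongr
        exact mem_closedBall.1 hz) (convex_closedBall _ _) (mem_closedBall_self (norm_nonneg _))
      (by simp [dist_eq_norm])
    rw [add_sub_cancel_left, Real.norm_eq_abs] at h1
    calc _ ≤ _ := h1
      _ = _ := by ring
  set V : ℝ := μ.real (closedBall (0 : E) 2) with hV
  refine ⟨C₂ * (2 * L) * V, by positivity, ?_⟩
  intro x ε k hε hk
  set ω : E → F := fun u => g (x - ε • u) - g x with hω
  have hωc : Continuous ω := (cont_aux hg (x, ε)).sub continuous_const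
  have e1 : G μ ρ g (x + ε • k, ε) - g x = ∫ u, ρ (u + k) • ω u ∂μ := by
    have a1 : G μ ρ g (x + ε • k, ε) = ∫ u, ρ (u + k) • g (x - ε • u) ∂μ := by
      simp only [G]
      rw [← integral_add_right_eq_self (fun u => ρ u • g (x + ε • k - ε • u)) k]
      congr 1
      ext1 u
      congr 2
      rw [smul_add]; abel
    have a2 : g x = ∫ u, ρ (u + k) • g x ∂μ := by
      rw [integral_smul_const, integral_add_right_eq_self ρ k, h.int_one, one_smul]
    have i1 : Integrable (fun u => ρ (u + k) • g (x - ε • u)) μ := by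
      have := (intG h (f := fun u => g (x + ε • k - ε • u)) (cont_aux hg (x + ε • k, ε))).comp_add_right k
      refine this.congr (ae_of_all _ (fun u => ?_))
      simp only
      congr 2
      rw [smul_add]; abel
    have i2 : Integrable (fun u => ρ (u + k) • g x) μ :=
      ((h.cont.integrable_of_hasCompactSupport h.compactSupp).comp_add_right k).smul_const _
    conv_lhs => rw [a1, a2]
    rw [← integral_sub i1 i2]
    congr 1
    ext1 u
    rw [hω, smul_sub]
  have e2 : G μ ρ g (x, ε) - g x = ∫ u, ρ u • ω u ∂μ := by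
    have a2 : g x = ∫ u, ρ u • g x ∂μ := by
      rw [integral_smul_const, h.int_one, one_smul]
    have i2 : Integrable (fun u => ρ u • g x) μ := intG h continuous_const
    conv_lhs => rw [a2]
    simp only [G]
    rw [← integral_sub (intG h (cont_aux hg (x, ε))) i2]
    congr 1
    ext1 u
    rw [hω, smul_sub]
  have e3 : D μ ρ g (x, ε) k = ∫ u, (fderiv ℝ ρ u k) • ω u ∂μ := by
    simp only [D]
    rw [ContinuousLinearMap.integral_apply (intD h hωc)]
    simp [hω]
  have i1 : Integrable (fun u => ρ (u + k) • ω u) μ := by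
    have h1 := (intG h (f := fun u => ω (u - k)) (by fun_prop)).comp_add_right k
    refine h1.congr (ae_of_all _ (fun u => ?_))
    simp
  have i2 : Integrable (fun u => ρ u • ω u) μ := intG h hωc
  have i3 : Integrable (fun u => (fderiv ℝ ρ u k) • ω u) μ := by
    have := (intD h hωc).apply_continuousLinearMap k
    simpa using this
  have e4 : G μ ρ g (x + ε • k, ε) - G μ ρ g (x, ε) - D μ ρ g (x, ε) k =
      ∫ u, (ρ (u + k) - ρ u - fderiv ℝ ρ u k) • ω u ∂μ := by
    have : G μ ρ g (x + ε • k, ε) - G μ ρ g (x, ε) - D μ ρ g (x, ε) k =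
      (G μ ρ g (x + ε • k, ε) - g x) - (G μ ρ g (x, ε) - g x) - D μ ρ g (x, ε) k := by abel
    have i12 : Integrable (fun u => ρ (u + k) • ω u - ρ u • ω u) μ := i1.sub i2
    rw [this, e1, e2, e3, ← integral_sub i1 i2, ← integral_sub i12 i3]
    congr 1
    ext1 u
    simp only [sub_smul]
  rw [e4]
  have hb : ∀ u, ‖(ρ (u + k) - ρ u - fderiv ℝ ρ u k) • ω u‖ ≤
      (closedBall (0 : E) 2).indicator (fun _ => C₂ * ‖k‖ ^ 2 * (2 * L * ε)) u := by
    intro u
    by_cases hu : u ∈ closedBall (0 : E) 2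
    · rw [indicator_of_mem hu, norm_smul, Real.norm_eq_abs]
      refine mul_le_mul (htay u k) ?_ (norm_nonneg _) (by positivity)
      rw [hω]
      simp only
      rw [← dist_eq_norm]
      refine (hg.dist_le_mul _ _).trans ?_
      rw [dist_eq_norm, sub_sub_cancel_left, norm_neg, norm_smul, Real.norm_eq_abs, abs_of_pos hε]
      rw [mem_closedBall_zero_iff] at hu
      nlinarith [mul_nonneg L.coe_nonneg hε.le]
    · rw [indicator_of_notMem hu]
      rw [mem_closedBall_zero_iff, not_le] at hu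
      have h1 : 1 < ‖u + k‖ := by
        have := norm_sub_norm_le u (-k)
        rw [norm_neg, sub_neg_eq_add] at this
        linarith
      rw [h.supp _ h1, h.supp _ (by linarith), h.fderiv_zero (by linarith)]
      simp
  have hi : Integrable ((closedBall (0 : E) 2).indicator
      (fun _ => C₂ * ‖k‖ ^ 2 * (2 * L * ε))) μ := by
    rw [integrable_indicator_iff measurableSet_closedBall]
    exact integrableOn_const (by exact (isCompact_closedBall _ _).measure_lt_top.ne)
  refine (norm_integral_le_of_norm_le hi (ae_of_all _ hb)).trans ?_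
  rw [integral_indicator measurableSet_closedBall, setIntegral_const, smul_eq_mul, ← hV]
  exact le_of_eq (by ring)

theorem D_inner (h : Moll μ ρ) {L : ℝ≥0} (hg : LipschitzWith L g) {x₀ : E} {κ δ : ℝ}
    {r : F} {v : E} (hv : ∀ z ∈ ball x₀ δ, DifferentiableAt ℝ g z → κ ≤ ⟪r, fderiv ℝ g z v⟫)
    {x : E} {ε : ℝ} (hε : 0 < ε) (hx : dist x x₀ + ε < δ) :
    κ * ε ≤ ⟪r, D μ ρ g (x, ε) v⟫ := by
  set Ψ : E → ℝ := fun u => ⟪r, g (x - ε • u) - g x⟫ with hΨ
  have hc : Continuous (fun u => g (x - ε • u) - g x) := (cont_aux hg (x, ε)).sub continuous_const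
  have e1 : ⟪r, D μ ρ g (x, ε) v⟫ = ∫ u, fderiv ℝ ρ u v * Ψ u ∂μ := by
    have h1 : D μ ρ g (x, ε) v = ∫ u, (fderiv ℝ ρ u v) • (g (x - ε • u) - g x) ∂μ := by
      simp only [D]
      rw [ContinuousLinearMap.integral_apply (intD h hc)]
      simp
    have h2 : Integrable (fun u => (fderiv ℝ ρ u v) • (g (x - ε • u) - g x)) μ := by
      have := (intD h hc).apply_continuousLinearMap v
      simpa using this
    rw [h1]
    have h3 := (innerSL ℝ r).integral_comp_comm h2
    simp only [innerSL_apply_apply] at h3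
    rw [← h3]
    congr 1
    ext1 u
    rw [real_inner_smul_right]
  obtain ⟨Cρ, hCρ⟩ := ContDiff.lipschitzWith_of_hasCompactSupport (𝕂 := ℝ) (n := 2)
    h.compactSupp h.smooth (by norm_num)
  have hh : LipschitzWith (L * ε.toNNReal) (fun u : E => g (x - ε • u)) := by
    refine LipschitzWith.of_dist_le_mul (fun u u' => ?_)
    refine (hg.dist_le_mul _ _).trans ?_
    rw [dist_sub_left, dist_smul₀, Real.norm_eq_abs, abs_of_pos hε]
    rw [NNReal.coe_mul, Real.coe_toNNReal ε hε.le]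
    exact le_of_eq (by ring)
  have hΨl : LipschitzWith (‖r‖₊ * (L * ε.toNNReal)) Ψ := by
    refine LipschitzWith.of_dist_le_mul (fun u u' => ?_)
    rw [Real.dist_eq, hΨ]
    simp only
    rw [← inner_sub_right]
    refine (abs_real_inner_le_norm _ _).trans ?_
    have := hh.dist_le_mul u u'
    rw [dist_eq_norm] at this
    have e : g (x - ε • u) - g x - (g (x - ε • u') - g x) = g (x - ε • u) - g (x - ε • u') := by abel
    rw [e]
    simp only [NNReal.coe_mul, coe_nnnorm] at this ⊢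
    rw [mul_assoc]
    exact mul_le_mul_of_nonneg_left this (norm_nonneg _)
  have ibp := hΨl.integral_lineDeriv_mul_eq (μ := μ) hCρ h.compactSupp (-v)
  have e2 : ∫ u, fderiv ℝ ρ u v * Ψ u ∂μ = ∫ u, lineDeriv ℝ Ψ u (-v) * ρ u ∂μ := by
    rw [ibp]
    congr 1
    ext1 u
    rw [neg_neg, (h.smooth.differentiable (by norm_num) u).lineDeriv_eq_fderiv]
  have hint : Integrable (fun u => lineDeriv ℝ Ψ u (-v) * ρ u) μ := by
    have := (hΨl.locallyIntegrable_lineDeriv (μ := μ) (-v)).integrable_smul_left_of_hasCompactSupport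
      h.cont h.compactSupp
    refine this.congr (ae_of_all _ (fun u => ?_))
    simp [mul_comm]
  have hae := hh.ae_differentiableAt (μ := μ)
  have hmono : ∫ u, κ * ε * ρ u ∂μ ≤ ∫ u, lineDeriv ℝ Ψ u (-v) * ρ u ∂μ := by
    refine integral_mono_ae ((h.cont.integrable_of_hasCompactSupport h.compactSupp).const_mul _)
      hint ?_
    filter_upwards [hae] with u hu
    rcases le_or_gt ‖u‖ 1 with hu1 | hu1
    · refine mul_le_mul_of_nonneg_right ?_ (h.nonneg u)
      set z := x - ε • u with hz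
      have hzb : z ∈ ball x₀ δ := by
        rw [mem_ball]
        have : dist z x₀ ≤ dist z x + dist x x₀ := dist_triangle _ _ _
        have h2 : dist z x ≤ ε := by
          rw [hz, dist_eq_norm, sub_sub_cancel_left, norm_neg, norm_smul, Real.norm_eq_abs,
            abs_of_pos hε]
          nlinarith
        linarith
      have hgz : DifferentiableAt ℝ g z := by
        have h1 : g = (fun u : E => g (x - ε • u)) ∘ (fun z' : E => ε⁻¹ • (x - z')) := by
          ext1 z'
          simp only [Function.comp]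
          rw [smul_smul, mul_inv_cancel₀ hε.ne', one_smul, sub_sub_cancel]
        rw [h1]
        refine DifferentiableAt.comp z ?_ (by fun_prop)
        have h3 : ε⁻¹ • (x - z) = u := by
          rw [hz, sub_sub_cancel, smul_smul, inv_mul_cancel₀ hε.ne', one_smul]
        rw [h3]
        exact hu
      have hder : HasFDerivAt Ψ ((innerSL ℝ r).comp ((fderiv ℝ g z).comp
          (-(ε • ContinuousLinearMap.id ℝ E)))) u := by
        have h1 : HasFDerivAt (fun u : E => x - ε • u) (-(ε • ContinuousLinearMap.id ℝ E)) u := by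
          have := ((hasFDerivAt_id (𝕜 := ℝ) u).const_smul ε).const_sub x
          exact this
        have h2 : HasFDerivAt (fun u : E => g (x - ε • u) - g x) ((fderiv ℝ g z).comp
          (-(ε • ContinuousLinearMap.id ℝ E))) u :=
          (HasFDerivAt.comp u hgz.hasFDerivAt h1).sub_const _
        exact (innerSL ℝ r).hasFDerivAt.comp u h2
      have hl : lineDeriv ℝ Ψ u (-v) = ε * ⟪r, fderiv ℝ g z v⟫ := by
        rw [(hder.differentiableAt).lineDeriv_eq_fderiv, hder.fderiv]
        simp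
      rw [hl]
      have := hv z hzb hgz
      nlinarith
    · rw [h.supp u hu1]; simp
  rw [integral_const_mul, h.int_one, mul_one] at hmono
  rw [e1, e2]
  exact hmono

end

end Pool.Agent.P092
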