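import Pool.Agent.P092a
import Pool.Agent.P092b

set_option autoImplicit false
set_option linter.unusedSectionVars false
set_option linter.style.haveILetI false
open MeasureTheory Metric Set Filter Topology
open scoped NNReal RealInnerProductSpace

namespace Pool.Agent.P092

section
variable {E F : Type} [NormedAddCommGroup E] [InnerProductSpace ℝ E] [FiniteDimensional ℝ E]
  [MeasurableSpace E] [BorelSpace E]
  [NormedAddCommGroup F] [InnerProductSpace ℝ F] [FiniteDimensional ℝ F]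

/-- One damped Gauss step for a linear map. -/
theorem lin_step (T : E →L[ℝ] F) (r : F) {ε h κ Λ : ℝ} (hε : 0 < ε) (hh : 0 < h) (hκ : 0 < κ)
    (_hΛ : 0 ≤ Λ) (hT : ‖T‖ ≤ Λ * ε) (hlow : κ * ε * ‖r‖ ≤ ‖ContinuousLinearMap.adjoint T r‖)
    (h1 : h * Λ ^ 2 ≤ 1) (h2 : h * κ ^ 2 ≤ 1) :
    ‖r + T (-((h / ε ^ 2) • ContinuousLinearMap.adjoint T r))‖ ≤ (1 - h * κ ^ 2 / 2) * ‖r‖ := by
  set w := ContinuousLinearMap.adjoint T r with hw
  set c := h / ε ^ 2 with hc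
  have hcpos : 0 < c := by positivity
  have e1 : ‖r + T (-(c • w))‖ ^ 2 = ‖r‖ ^ 2 - 2 * c * ‖w‖ ^ 2 + c ^ 2 * ‖T w‖ ^ 2 := by
    rw [map_neg, map_smul, ← sub_eq_add_neg, norm_sub_sq_real, real_inner_smul_right, norm_smul,
      Real.norm_eq_abs, abs_of_pos hcpos]
    have : ⟪r, T w⟫ = ‖w‖ ^ 2 := by
      rw [← ContinuousLinearMap.adjoint_inner_left, ← hw, real_inner_self_eq_norm_sq]
    rw [this]
    ring
  have e2 : ‖T w‖ ≤ Λ * ε * ‖w‖ := (T.le_opNorm w).trans (by gcongr)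
  have e3 : c ^ 2 * ‖T w‖ ^ 2 ≤ c * ‖w‖ ^ 2 := by
    have h3 : ‖T w‖ ^ 2 ≤ (Λ * ε * ‖w‖) ^ 2 := by gcongr
    have h4 : c * (Λ * ε) ^ 2 ≤ 1 := by
      have : c * (Λ * ε) ^ 2 = h * Λ ^ 2 := by
        rw [hc]; field_simp
      rw [this]; exact h1
    calc c ^ 2 * ‖T w‖ ^ 2 ≤ c ^ 2 * (Λ * ε * ‖w‖) ^ 2 := by gcongr
      _ = (c * ‖w‖ ^ 2) * (c * (Λ * ε) ^ 2) := by ring
      _ ≤ (c * ‖w‖ ^ 2) * 1 := by gcongr
      _ = _ := by ring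
  have e4 : h * κ ^ 2 * ‖r‖ ^ 2 ≤ c * ‖w‖ ^ 2 := by
    have h5 : (κ * ε * ‖r‖) ^ 2 ≤ ‖w‖ ^ 2 := by gcongr
    calc h * κ ^ 2 * ‖r‖ ^ 2 = c * (κ * ε * ‖r‖) ^ 2 := by rw [hc]; field_simp
      _ ≤ c * ‖w‖ ^ 2 := by gcongr
  have e5 : ‖r + T (-(c • w))‖ ^ 2 ≤ ((1 - h * κ ^ 2 / 2) * ‖r‖) ^ 2 := by
    rw [e1]
    nlinarith [sq_nonneg (h * κ ^ 2 * ‖r‖)]
  have hnn : 0 ≤ (1 - h * κ ^ 2 / 2) * ‖r‖ := by
    apply mul_nonneg _ (norm_nonneg _)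
    linarith
  exact le_of_sq_le_sq e5 hnn

variable {μ : Measure E} [μ.IsAddHaarMeasure] {ρ : E → ℝ} {g : E → F}

theorem lower (hm : Moll μ ρ) {L : ℝ≥0} (hg : LipschitzWith L g) {x₀ : E} {κ δ : ℝ}
    (hκ : ∀ r : F, ‖r‖ = 1 → ∃ v : E, ‖v‖ ≤ 1 ∧
      ∀ z ∈ ball x₀ δ, DifferentiableAt ℝ g z → κ ≤ ⟪r, fderiv ℝ g z v⟫)
    {x : E} {ε : ℝ} (hε : 0 < ε) (hx : dist x x₀ + ε < δ) (r : F) :
    κ * ε * ‖r‖ ≤ ‖ContinuousLinearMap.adjoint (D μ ρ g (x, ε)) r‖ := by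
  rcases eq_or_ne r 0 with rfl | hr
  · simp
  have hrp : 0 < ‖r‖ := norm_pos_iff.2 hr
  obtain ⟨v, hv1, hv2⟩ := hκ (‖r‖⁻¹ • r) (by
    rw [norm_smul, norm_inv, norm_norm, inv_mul_cancel₀ hrp.ne'])
  have h1 := D_inner hm hg hv2 hε hx
  rw [← ContinuousLinearMap.adjoint_inner_left] at h1
  have h2 : ⟪ContinuousLinearMap.adjoint (D μ ρ g (x, ε)) (‖r‖⁻¹ • r), v⟫ ≤
      ‖r‖⁻¹ * ‖ContinuousLinearMap.adjoint (D μ ρ g (x, ε)) r‖ := by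
    refine (real_inner_le_norm _ _).trans ?_
    rw [map_smul, norm_smul, norm_inv, norm_norm]
    calc _ ≤ ‖r‖⁻¹ * ‖ContinuousLinearMap.adjoint (D μ ρ g (x, ε)) r‖ * 1 := by gcongr
      _ = _ := mul_one _
  have h3 := h1.trans h2
  rw [inv_mul_eq_div, le_div_iff₀ hrp] at h3
  exact h3

theorem step (hm : Moll μ ρ) {L : ℝ≥0} (hg : LipschitzWith L g) {x₀ : E} {κ δ : ℝ} (hκ0 : 0 < κ)
    (hκ : ∀ r : F, ‖r‖ = 1 → ∃ v : E, ‖v‖ ≤ 1 ∧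
      ∀ z ∈ ball x₀ δ, DifferentiableAt ℝ g z → κ ≤ ⟪r, fderiv ℝ g z v⟫) :
    ∃ h q : ℝ, 0 < q ∧ q < 1 ∧ ∀ (x : E) (ε : ℝ) (y : F), 0 < ε → dist x x₀ + ε < δ →
      ‖G μ ρ g (x, ε) - y‖ ≤ (L + 1) * ε →
      ‖(h / ε) • ContinuousLinearMap.adjoint (D μ ρ g (x, ε)) (G μ ρ g (x, ε) - y)‖ ≤ ε ∧
      ‖G μ ρ g (x - (h / ε) • ContinuousLinearMap.adjoint (D μ ρ g (x, ε)) (G μ ρ g (x, ε) - y),
        q * ε) - y‖ ≤ (L + 1) * (q * ε) := by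
  obtain ⟨C, hC0, hC⟩ := taylor hm hg
  set B : ℝ := L + 1 with hB
  have hL : (0 : ℝ) ≤ L := L.coe_nonneg
  have hB0 : 0 < B := by positivity
  set Λ : ℝ := (∫ u, ‖fderiv ℝ ρ u‖ ∂μ) * L with hΛ
  have hΛ0 : 0 ≤ Λ := mul_nonneg (integral_nonneg (fun u => norm_nonneg _)) hL
  set S : ℝ := 1 + Λ ^ 2 + κ ^ 2 + 4 * C * Λ ^ 2 * B / κ ^ 2 + Λ * B with hS
  have hT : 0 ≤ 4 * C * Λ ^ 2 * B / κ ^ 2 := by positivity
  have hΛB : 0 ≤ Λ * B := by positivity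
  have hSpos : 0 < S := by positivity
  set h : ℝ := 1 / S with hh
  have hhpos : 0 < h := by positivity
  have key : ∀ a : ℝ, a ≤ S → h * a ≤ 1 := by
    intro a ha
    rw [hh, one_div, inv_mul_le_iff₀ hSpos]
    linarith
  have c1 : h * Λ ^ 2 ≤ 1 := key _ (by rw [hS]; nlinarith [sq_nonneg κ])
  have c2 : h * κ ^ 2 ≤ 1 := key _ (by rw [hS]; nlinarith [sq_nonneg Λ])
  have c3 : h * (4 * C * Λ ^ 2 * B / κ ^ 2) ≤ 1 := key _ (by
    rw [hS]; nlinarith [sq_nonneg Λ, sq_nonneg κ])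
  have c4 : h * (Λ * B) ≤ 1 := key _ (by rw [hS]; nlinarith [sq_nonneg Λ, sq_nonneg κ])
  set q : ℝ := 1 - h * κ ^ 2 * B / (4 * (B + L)) with hq
  have hBL : 0 < B + L := by positivity
  have hfrac : h * κ ^ 2 * B / (4 * (B + L)) ≤ 1 / 4 := by
    rw [div_le_div_iff₀ (by positivity) (by norm_num)]
    nlinarith [mul_nonneg hB0.le (sub_nonneg.2 c2)]
  have hfrac0 : 0 < h * κ ^ 2 * B / (4 * (B + L)) := by positivity
  have hqB : (1 - h * κ ^ 2 / 4) * B + L * (1 - q) ≤ B * q := by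
    have : h * κ ^ 2 * B / (4 * (B + L)) * (B + L) = h * κ ^ 2 * B / 4 := by
      field_simp
    rw [hq]
    nlinarith
  refine ⟨h, q, by rw [hq]; linarith, by rw [hq]; linarith, ?_⟩
  intro x ε y hε hx hr
  set T := D μ ρ g (x, ε) with hTdef
  set r := G μ ρ g (x, ε) - y with hrdef
  set w := ContinuousLinearMap.adjoint T r with hw
  have hTn : ‖T‖ ≤ Λ * ε := by
    have := D_bound hm hg x hε.le
    rw [hΛ, mul_assoc]
    exact this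
  have hwn : ‖w‖ ≤ Λ * ε * ‖r‖ := by
    refine (ContinuousLinearMap.le_opNorm _ _).trans ?_
    have : ‖ContinuousLinearMap.adjoint T‖ = ‖T‖ := ContinuousLinearMap.adjoint.norm_map T
    rw [this]
    gcongr
  have hlow := lower hm hg hκ hε hx r
  have hlin := lin_step T r hε hhpos hκ0 hΛ0 hTn hlow c1 c2
  set k : E := -((h / ε ^ 2) • w) with hk
  have hkn : ‖k‖ ≤ h * Λ / ε * ‖r‖ := by
    rw [hk, norm_neg, norm_smul, Real.norm_eq_abs, abs_of_pos (by positivity)]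
    calc h / ε ^ 2 * ‖w‖ ≤ h / ε ^ 2 * (Λ * ε * ‖r‖) := by gcongr
      _ = h * Λ / ε * ‖r‖ := by field_simp
  have hkn1 : ‖k‖ ≤ 1 := by
    refine hkn.trans ?_
    calc h * Λ / ε * ‖r‖ ≤ h * Λ / ε * (B * ε) := by gcongr
      _ = h * (Λ * B) := by field_simp
      _ ≤ 1 := c4
  have hxk : x - (h / ε) • w = x + ε • k := by
    rw [hk, smul_neg, smul_smul, ← sub_eq_add_neg]
    congr 2
    field_simp
  constructor
  · have : (h / ε) • w = -(ε • k) := by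
      rw [hk, smul_neg, neg_neg, smul_smul]
      congr 1
      field_simp
    rw [this, norm_neg, norm_smul, Real.norm_eq_abs, abs_of_pos hε]
    nlinarith
  · rw [hxk]
    have t1 := hC x ε k hε hkn1
    have t2 : C * ε * ‖k‖ ^ 2 ≤ h * κ ^ 2 / 4 * ‖r‖ := by
      calc C * ε * ‖k‖ ^ 2 ≤ C * ε * (h * Λ / ε * ‖r‖) ^ 2 := by gcongr
        _ = (C * h ^ 2 * Λ ^ 2 / ε * ‖r‖) * ‖r‖ := by field_simp
        _ ≤ (C * h ^ 2 * Λ ^ 2 / ε * (B * ε)) * ‖r‖ := by gcongr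
        _ = (h * (4 * C * Λ ^ 2 * B / κ ^ 2)) * (h * κ ^ 2 / 4 * ‖r‖) := by field_simp
        _ ≤ 1 * (h * κ ^ 2 / 4 * ‖r‖) := by gcongr
        _ = _ := one_mul _
    have t3 : ‖G μ ρ g (x + ε • k, ε) - y‖ ≤ (1 - h * κ ^ 2 / 4) * ‖r‖ := by
      have e : G μ ρ g (x + ε • k, ε) - y =
          (G μ ρ g (x + ε • k, ε) - G μ ρ g (x, ε) - D μ ρ g (x, ε) k) + (r + T k) := by
        rw [hrdef, hTdef]; abel
      rw [e]
      refine (norm_add_le _ _).trans ?_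
      nlinarith
    have t4 : ‖G μ ρ g (x + ε • k, ε) - y‖ ≤ (1 - h * κ ^ 2 / 4) * (B * ε) := by
      refine t3.trans ?_
      have : 0 ≤ 1 - h * κ ^ 2 / 4 := by linarith
      gcongr
    have t5 : ‖G μ ρ g (x + ε • k, q * ε) - G μ ρ g (x + ε • k, ε)‖ ≤ L * ((1 - q) * ε) := by
      have := G_lip hm hg (x + ε • k, q * ε) (x + ε • k, ε)
      simp only [sub_self, norm_zero, zero_add] at this
      have e : |q * ε - ε| = (1 - q) * ε := by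
        rw [abs_of_nonpos]
        · ring
        · have : q ≤ 1 := by rw [hq]; linarith
          nlinarith
      rw [e] at this
      exact this
    calc ‖G μ ρ g (x + ε • k, q * ε) - y‖
        = ‖(G μ ρ g (x + ε • k, q * ε) - G μ ρ g (x + ε • k, ε)) +
            (G μ ρ g (x + ε • k, ε) - y)‖ := by congr 1; abel
      _ ≤ _ := norm_add_le _ _
      _ ≤ L * ((1 - q) * ε) + (1 - h * κ ^ 2 / 4) * (B * ε) := add_le_add t5 t4
      _ ≤ B * (q * ε) := by nlinarith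

end

end Pool.Agent.P092
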