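import Pool.Agent.P092c

set_option autoImplicit false
set_option linter.unusedSectionVars false
set_option linter.style.haveILetI false
open MeasureTheory Metric Set Filter Topology
open scoped NNReal RealInnerProductSpace

namespace Pool.Agent.P092

section
variable {E F : Type} [NormedAddCommGroup E] [InnerProductSpace ℝ E] [FiniteDimensional ℝ E]
  [MeasurableSpace E] [BorelSpace E]
  [NormedAddCommGroup F] [InnerProductSpace ℝ F] [FiniteDimensional ℝ F]

/-- the increment -/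
noncomputable def incr (μ : Measure E) (ρ : E → ℝ) (g : E → F) (h : ℝ) (x : E) (ε : ℝ) (y : F) : E :=
  (h / ε) • ContinuousLinearMap.adjoint (D μ ρ g (x, ε)) (G μ ρ g (x, ε) - y)

/-- the iteration -/
noncomputable def X (μ : Measure E) (ρ : E → ℝ) (g : E → F) (h q : ℝ) (x₀ : E) (y : F) : ℕ → E
  | 0 => x₀
  | j + 1 => X μ ρ g h q x₀ y j - incr μ ρ g h (X μ ρ g h q x₀ y j) (q ^ j * ‖y - g x₀‖) y

variable {μ : Measure E} [μ.IsAddHaarMeasure] {ρ : E → ℝ} {g : E → F}

theorem X_cont (hm : Moll μ ρ) {L : ℝ≥0} (hg : LipschitzWith L g) (h : ℝ) {q : ℝ} (hq : 0 < q)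
    (x₀ : E) (j : ℕ) :
    ContinuousOn (fun y => X μ ρ g h q x₀ y j) {g x₀}ᶜ ∧
    ContinuousOn (fun y => incr μ ρ g h (X μ ρ g h q x₀ y j) (q ^ j * ‖y - g x₀‖) y) {g x₀}ᶜ := by
  have key : ∀ j, ContinuousOn (fun y => X μ ρ g h q x₀ y j) {g x₀}ᶜ →
      ContinuousOn (fun y => incr μ ρ g h (X μ ρ g h q x₀ y j) (q ^ j * ‖y - g x₀‖) y) {g x₀}ᶜ := by
    intro j hj
    have hε : ContinuousOn (fun y : F => q ^ j * ‖y - g x₀‖) {g x₀}ᶜ := by fun_prop
    have hp : ContinuousOn (fun y => (X μ ρ g h q x₀ y j, q ^ j * ‖y - g x₀‖)) {g x₀}ᶜ :=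
      hj.prodMk hε
    have hG : ContinuousOn (fun y => G μ ρ g (X μ ρ g h q x₀ y j, q ^ j * ‖y - g x₀‖) - y)
        {g x₀}ᶜ := ((G_cont hm hg).comp_continuousOn hp).sub continuousOn_id
    have hD : ContinuousOn (fun y => ContinuousLinearMap.adjoint
        (D μ ρ g (X μ ρ g h q x₀ y j, q ^ j * ‖y - g x₀‖))) {g x₀}ᶜ :=
      (ContinuousLinearMap.adjoint (𝕜 := ℝ) (E := E) (F := F)).continuous.comp_continuousOn
        ((D_cont hm hg).comp_continuousOn hp)
    have hc : ContinuousOn (fun y : F => h / (q ^ j * ‖y - g x₀‖)) {g x₀}ᶜ := by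
      refine ContinuousOn.div continuousOn_const hε (fun y hy => ?_)
      have : 0 < ‖y - g x₀‖ := norm_pos_iff.2 (sub_ne_zero.2 hy)
      positivity
    exact hc.smul (hD.clm_apply hG)
  have hX : ∀ j, ContinuousOn (fun y => X μ ρ g h q x₀ y j) {g x₀}ᶜ := by
    intro j
    induction j with
    | zero => exact continuousOn_const
    | succ j ih => exact ih.sub (key j ih)
  exact ⟨hX j, key j (hX j)⟩

theorem exists_selection {L : ℝ≥0} (hg : LipschitzWith L g) (x₀ : E)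
    (hsurj : ∀ A ∈ convexHull ℝ (limGrad g x₀), Function.Surjective A) :
    ∃ η > (0 : ℝ), ∃ s : F → E, ∃ γ > (0 : ℝ), ContinuousOn s (ball (g x₀) η) ∧
      s (g x₀) = x₀ ∧ (∀ y ∈ ball (g x₀) η, g (s y) = y) ∧
      ∀ y ∈ ball (g x₀) η, ‖s y - x₀‖ ≤ γ * ‖y - g x₀‖ := by
  obtain ⟨κ, hκ0, δ, hδ, hκ⟩ := clarke_unif hg x₀ hsurj
  set μ : Measure E := Measure.addHaar with hμ
  obtain ⟨ρ, hm⟩ := exists_moll (E := E) μ
  obtain ⟨h, q, hq0, hq1, hstep⟩ := step hm hg hκ0 hκ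
  have h1q : 0 < 1 - q := by linarith
  set γ : ℝ := (1 - q)⁻¹ with hγ
  have hγ1 : 1 ≤ γ := by
    rw [hγ]
    exact (one_le_inv₀ h1q).2 (by linarith)
  have hγ0 : 0 < γ := by positivity
  set η : ℝ := δ / (2 * γ) with hη
  have hη0 : 0 < η := by positivity
  set yb := g x₀ with hy0
  set d : ℕ → F → E := fun j y => incr μ ρ g h (X μ ρ g h q x₀ y j) (q ^ j * ‖y - g x₀‖) y with hd
  set s : F → E := fun y => x₀ - ∑' j, d j y with hs
  have hsum_le : ∀ (e : ℝ) (j : ℕ), 0 ≤ e → ∑ i ∈ Finset.range j, q ^ i * e ≤ γ * e := by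
    intro e j he
    rw [← Finset.sum_mul]
    gcongr
    rw [hγ, ← tsum_geometric_of_lt_one hq0.le hq1]
    exact (summable_geometric_of_lt_one hq0.le hq1).sum_le_tsum _ (fun i _ => by positivity)
  -- invariant
  have inv : ∀ y ∈ ball yb η, y ≠ yb → ∀ j,
      ‖G μ ρ g (X μ ρ g h q x₀ y j, q ^ j * ‖y - yb‖) - y‖ ≤ (L + 1) * (q ^ j * ‖y - yb‖) ∧
      dist (X μ ρ g h q x₀ y j) x₀ ≤ ∑ i ∈ Finset.range j, q ^ i * ‖y - yb‖ ∧
      ‖d j y‖ ≤ q ^ j * ‖y - yb‖ := by
    intro y hy hne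
    have he : 0 < ‖y - yb‖ := norm_pos_iff.2 (sub_ne_zero.2 hne)
    have heη : ‖y - yb‖ < η := by rw [← dist_eq_norm]; exact hy
    have hsmall : ∀ j : ℕ, ∀ x : E, dist x x₀ ≤ ∑ i ∈ Finset.range j, q ^ i * ‖y - yb‖ →
        dist x x₀ + q ^ j * ‖y - yb‖ < δ := by
      intro j x hx
      have h1 := hsum_le ‖y - yb‖ j he.le
      have h2 : q ^ j * ‖y - yb‖ ≤ γ * ‖y - yb‖ := by
        gcongr
        exact (pow_le_one₀ hq0.le hq1.le).trans hγ1
      have h3 : γ * ‖y - yb‖ < δ / 2 := by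
        calc γ * ‖y - yb‖ < γ * η := by gcongr
          _ = δ / 2 := by rw [hη]; field_simp
      linarith
    have hbound : ∀ j, ‖G μ ρ g (X μ ρ g h q x₀ y j, q ^ j * ‖y - yb‖) - y‖ ≤
          (L + 1) * (q ^ j * ‖y - yb‖) →
        dist (X μ ρ g h q x₀ y j) x₀ ≤ ∑ i ∈ Finset.range j, q ^ i * ‖y - yb‖ →
        ‖d j y‖ ≤ q ^ j * ‖y - yb‖ ∧
        ‖G μ ρ g (X μ ρ g h q x₀ y (j + 1), q ^ (j + 1) * ‖y - yb‖) - y‖ ≤
          (L + 1) * (q ^ (j + 1) * ‖y - yb‖) := by
      intro j h1 h2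
      have := hstep (X μ ρ g h q x₀ y j) (q ^ j * ‖y - yb‖) y (by positivity) (hsmall j _ h2) h1
      refine ⟨this.1, ?_⟩
      have h3 := this.2
      rw [← mul_assoc, ← pow_succ'] at h3
      exact h3
    intro j
    induction j with
    | zero =>
      have b1 : ‖G μ ρ g (X μ ρ g h q x₀ y 0, q ^ 0 * ‖y - yb‖) - y‖ ≤
          (L + 1) * (q ^ 0 * ‖y - yb‖) := by
        simp only [pow_zero, one_mul]
        have h1 := G_lip hm hg (x₀, ‖y - yb‖) (x₀, 0)
        rw [G_zero hm] at h1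
        simp only [sub_self, norm_zero, zero_add, sub_zero, abs_norm] at h1
        calc ‖G μ ρ g (x₀, ‖y - yb‖) - y‖ = ‖(G μ ρ g (x₀, ‖y - yb‖) - g x₀) + (yb - y)‖ := by
              congr 1; rw [hy0]; abel
          _ ≤ _ := norm_add_le _ _
          _ ≤ L * ‖y - yb‖ + ‖y - yb‖ := by
              refine add_le_add h1 (le_of_eq (norm_sub_rev _ _))
          _ = _ := by ring
      have b2 : dist (X μ ρ g h q x₀ y 0) x₀ ≤ ∑ i ∈ Finset.range 0, q ^ i * ‖y - yb‖ := by
        simp [X]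
      exact ⟨b1, b2, (hbound 0 b1 b2).1⟩
    | succ j ih =>
      obtain ⟨i1, i2, i3⟩ := ih
      have b1 := (hbound j i1 i2).2
      have b2 : dist (X μ ρ g h q x₀ y (j + 1)) x₀ ≤
          ∑ i ∈ Finset.range (j + 1), q ^ i * ‖y - yb‖ := by
        rw [Finset.sum_range_succ]
        have : X μ ρ g h q x₀ y (j + 1) = X μ ρ g h q x₀ y j - d j y := rfl
        rw [this]
        calc dist (X μ ρ g h q x₀ y j - d j y) x₀
            ≤ dist (X μ ρ g h q x₀ y j - d j y) (X μ ρ g h q x₀ y j) +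
              dist (X μ ρ g h q x₀ y j) x₀ := dist_triangle _ _ _
          _ ≤ q ^ j * ‖y - yb‖ + ∑ i ∈ Finset.range j, q ^ i * ‖y - yb‖ := by
              refine add_le_add ?_ i2
              rw [dist_eq_norm, sub_sub_cancel_left, norm_neg]
              exact i3
          _ = _ := by ring
      exact ⟨b1, b2, (hbound (j + 1) b1 b2).1⟩
  have hd0 : ∀ j, d j yb = 0 := by
    intro j
    simp [hd, incr, hy0]
  have hdn : ∀ y ∈ ball yb η, ∀ j, ‖d j y‖ ≤ q ^ j * ‖y - yb‖ := by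
    intro y hy j
    rcases eq_or_ne y yb with rfl | hne
    · rw [hd0]; simp
    · exact (inv y hy hne j).2.2
  have hgeo : ∀ e : ℝ, HasSum (fun j : ℕ => q ^ j * e) (γ * e) := fun e =>
    (hasSum_geometric_of_lt_one hq0.le hq1).mul_right e
  have hsummable : ∀ y ∈ ball yb η, Summable (fun j => d j y) := fun y hy =>
    Summable.of_norm_bounded (hgeo ‖y - yb‖).summable (hdn y hy)
  have hcalm : ∀ y ∈ ball yb η, ‖s y - x₀‖ ≤ γ * ‖y - yb‖ := by
    intro y hy
    have : s y - x₀ = -∑' j, d j y := by rw [hs]; simp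
    rw [this, norm_neg]
    exact tsum_of_norm_bounded (hgeo ‖y - yb‖) (hdn y hy)
  have hs0 : s yb = x₀ := by
    simp [hs, hd0]
  have hXs : ∀ y, ∀ j, X μ ρ g h q x₀ y j = x₀ - ∑ i ∈ Finset.range j, d i y := by
    intro y j
    induction j with
    | zero => simp [X]
    | succ j ih =>
      have : X μ ρ g h q x₀ y (j + 1) = X μ ρ g h q x₀ y j - d j y := rfl
      rw [this, ih, Finset.sum_range_succ]
      abel
  have hXlim : ∀ y ∈ ball yb η, Tendsto (fun j => X μ ρ g h q x₀ y j) atTop (𝓝 (s y)) := by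
    intro y hy
    simp only [hXs y]
    exact tendsto_const_nhds.sub (hsummable y hy).hasSum.tendsto_sum_nat
  have hsolve : ∀ y ∈ ball yb η, g (s y) = y := by
    intro y hy
    rcases eq_or_ne y yb with rfl | hne
    · rw [hs0]
    have hε : Tendsto (fun j : ℕ => q ^ j * ‖y - yb‖) atTop (𝓝 0) := by
      have := (tendsto_pow_atTop_nhds_zero_of_lt_one hq0.le hq1).mul_const ‖y - yb‖
      simpa using this
    have l1 : Tendsto (fun j => G μ ρ g (X μ ρ g h q x₀ y j, q ^ j * ‖y - yb‖)) atTop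
        (𝓝 (G μ ρ g (s y, 0))) :=
      ((G_cont hm hg).tendsto (s y, 0)).comp ((hXlim y hy).prodMk_nhds hε)
    rw [G_zero hm] at l1
    have l2 : Tendsto (fun j => G μ ρ g (X μ ρ g h q x₀ y j, q ^ j * ‖y - yb‖)) atTop (𝓝 y) := by
      rw [tendsto_iff_norm_sub_tendsto_zero]
      refine squeeze_zero (fun j => norm_nonneg _) (fun j => (inv y hy hne j).1) ?_
      have := hε.const_mul ((L : ℝ) + 1)
      simpa using this
    exact tendsto_nhds_unique l1 l2
  have hcont : ContinuousOn s (ball yb η) := by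
    have hc1 : ContinuousOn s (ball yb η ∩ {yb}ᶜ) := by
      refine continuousOn_const.sub ?_
      refine continuousOn_tsum (u := fun j : ℕ => q ^ j * η)
        (fun j => ((X_cont hm hg h hq0 x₀ j).2).mono inter_subset_right) (hgeo η).summable ?_
      intro j y hy
      refine (hdn y hy.1 j).trans ?_
      gcongr
      rw [← dist_eq_norm]
      exact (mem_ball.1 hy.1).le
    intro y hy
    rcases eq_or_ne y yb with rfl | hne
    · refine ContinuousAt.continuousWithinAt ?_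
      rw [ContinuousAt, hs0, tendsto_iff_norm_sub_tendsto_zero]
      have hz : Tendsto (fun y => γ * ‖y - g x₀‖) (𝓝 (g x₀)) (𝓝 0) := by
        have : Continuous (fun y => γ * ‖y - g x₀‖) := by fun_prop
        have h2 := this.tendsto (g x₀)
        simpa using h2
      refine squeeze_zero' (Eventually.of_forall (fun y => norm_nonneg _)) ?_ hz
      filter_upwards [ball_mem_nhds (g x₀) hη0] with y hy
      exact hcalm y hy
    · have hopen : IsOpen (ball yb η ∩ {yb}ᶜ) := isOpen_ball.inter isOpen_compl_singleton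
      exact (hc1.continuousAt (hopen.mem_nhds ⟨hy, hne⟩)).continuousWithinAt
  exact ⟨η, hη0, s, γ, hγ0, hcont, hs0, hsolve, hcalm⟩

end

end Pool.Agent.P092
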