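import Mathlib

set_option autoImplicit false
set_option linter.unusedSectionVars false
open MeasureTheory Set Filter Topology
open scoped NNReal ENNReal

namespace Pool.Agent.PHeat
noncomputable section

/-- eigenvalues of minus the Dirichlet Laplacian -/
def lam (n : ℕ) : ℝ := (((n : ℝ) + 1) * Real.pi) ^ 2

/-- coefficients of the Dirichlet boundary control operator -/
def bco (n : ℕ) : ℝ := √2 * (((n : ℝ) + 1) * Real.pi) * (-1) ^ n

/-- `n`-th coefficient of the forced part of the mild solution -/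
def yc (n : ℕ) (t : ℝ) (w : ℝ → ℝ) : ℝ :=
  ∫ s in (0 : ℝ)..t, Real.exp (-lam n * (t - s)) * (bco n * w s)

structure Nice (w : ℝ → ℝ) (M : ℝ) : Prop where
  meas : Measurable w
  bdd : ∀ s, |w s| ≤ M

theorem Nice.M0 {w : ℝ → ℝ} {M : ℝ} (h : Nice w M) : 0 ≤ M := (abs_nonneg _).trans (h.bdd 0)

theorem Nice.pow {w : ℝ → ℝ} {M : ℝ} (h : Nice w M) (j : ℕ) : Nice (fun s => w s ^ j) (M ^ j) :=
  ⟨h.meas.pow_const j, fun s => by rw [abs_pow]; exact pow_le_pow_left₀ (abs_nonneg _) (h.bdd s) j⟩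

theorem Nice.ii0 {w : ℝ → ℝ} {M : ℝ} (h : Nice w M) (a b : ℝ) : IntervalIntegrable w volume a b := by
  refine (intervalIntegrable_const (c := M) (μ := volume) (a := a) (b := b)).mono_fun
    h.meas.aestronglyMeasurable (ae_of_all _ (fun s => ?_))
  simp only [Real.norm_eq_abs, abs_of_nonneg h.M0]
  exact h.bdd s

theorem Nice.ii {w : ℝ → ℝ} {M : ℝ} (h : Nice w M) {k : ℝ → ℝ} (hk : Continuous k) (a b : ℝ) :
    IntervalIntegrable (fun s => k s * w s) volume a b :=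
  (h.ii0 a b).continuousOn_mul hk.continuousOn

theorem cs {t : ℝ} (ht : 0 ≤ t) {k : ℝ → ℝ} (hk : Continuous k) (hk0 : ∀ s, 0 < k s)
    {f : ℝ → ℝ} {M : ℝ} (hf : Nice f M) :
    (∫ s in (0 : ℝ)..t, k s * f s) ^ 2 ≤
      (∫ s in (0 : ℝ)..t, k s) * ∫ s in (0 : ℝ)..t, k s * f s ^ 2 := by
  rcases eq_or_lt_of_le ht with rfl | ht
  · simp
  set A := ∫ s in (0 : ℝ)..t, k s with hA
  set B := ∫ s in (0 : ℝ)..t, k s * f s with hB
  set C := ∫ s in (0 : ℝ)..t, k s * f s ^ 2 with hC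
  have hApos : 0 < A := intervalIntegral.intervalIntegral_pos_of_pos (hk.intervalIntegrable _ _) hk0 ht
  have i2 := (hf.pow 2).ii hk 0 t
  have i1 := hf.ii hk 0 t
  have i0 : IntervalIntegrable k volume 0 t := hk.intervalIntegrable _ _
  have e : ∫ s in (0 : ℝ)..t, k s * (A * f s - B) ^ 2 = A ^ 2 * C - 2 * A * B * B + B ^ 2 * A := by
    have : ∀ s, k s * (A * f s - B) ^ 2 = A ^ 2 * (k s * f s ^ 2) - 2 * A * B * (k s * f s) +
        B ^ 2 * k s := fun s => by ring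
    simp only [this]
    rw [intervalIntegral.integral_add ((i2.const_mul _).sub (i1.const_mul _)) (i0.const_mul _),
      intervalIntegral.integral_sub (i2.const_mul _) (i1.const_mul _),
      intervalIntegral.integral_const_mul, intervalIntegral.integral_const_mul,
      intervalIntegral.integral_const_mul]
  have h0 : 0 ≤ ∫ s in (0 : ℝ)..t, k s * (A * f s - B) ^ 2 :=
    intervalIntegral.integral_nonneg ht.le (fun s _ => mul_nonneg (hk0 s).le (sq_nonneg _))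
  rw [e] at h0
  have h1 : 0 ≤ A * (A * C - B ^ 2) := by nlinarith
  have h2 := nonneg_of_mul_nonneg_right h1 hApos
  linarith

theorem lam_ge (n : ℕ) : 8 ≤ lam n := by
  unfold lam
  have h1 : (3 : ℝ) < Real.pi := Real.pi_gt_three
  have h2 : (1 : ℝ) ≤ (n : ℝ) + 1 := by
    have : (0 : ℝ) ≤ n := Nat.cast_nonneg n
    linarith
  nlinarith [mul_le_mul h2 h1.le (by norm_num) (by linarith)]

theorem int_exp_le {l t : ℝ} (hl : 0 < l) : ∫ s in (0 : ℝ)..t, Real.exp (-l * (t - s)) ≤ 1 / l := by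
  have hd : ∀ s ∈ uIcc 0 t, HasDerivAt (fun s => Real.exp (-l * (t - s)) / l)
      (Real.exp (-l * (t - s))) s := by
    intro s _
    have h1 : HasDerivAt (fun s : ℝ => -l * (t - s)) l s := by
      have := ((hasDerivAt_id s).const_sub t).const_mul (-l)
      simpa using this
    have h2 := (h1.exp).div_const l
    have e : Real.exp (-l * (t - s)) = Real.exp (-l * (t - s)) * l / l := by
      rw [mul_div_assoc, div_self hl.ne', mul_one]
    rw [e]
    exact h2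
  rw [intervalIntegral.integral_eq_sub_of_hasDerivAt hd
    (Continuous.intervalIntegrable (by fun_prop) _ _)]
  have : 0 ≤ Real.exp (-l * (t - 0)) / l := by positivity
  simp only [sub_self, mul_zero, Real.exp_zero]
  linarith

/-- weighted eighth-power input energy -/
def W (t : ℝ) (w : ℝ → ℝ) : ℝ := ∫ s in (0 : ℝ)..t, Real.exp (-8 * (t - s)) * w s ^ 8

theorem W_nonneg {t : ℝ} (ht : 0 ≤ t) (w : ℝ → ℝ) : 0 ≤ W t w :=
  intervalIntegral.integral_nonneg ht (fun s _ => by positivity)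

theorem yc_bound {t : ℝ} (ht : 0 ≤ t) {w : ℝ → ℝ} {M : ℝ} (hw : Nice w M) (n : ℕ) :
    (yc n t w) ^ 8 * ((n : ℝ) + 1) ^ 6 ≤ 16 * W t w := by
  set l := lam n with hl
  have hl8 : 8 ≤ l := lam_ge n
  have hl0 : 0 < l := by linarith
  set k : ℝ → ℝ := fun s => Real.exp (-l * (t - s)) with hk
  have hkc : Continuous k := by rw [hk]; fun_prop
  have hk0 : ∀ s, 0 < k s := fun s => Real.exp_pos _
  set A := ∫ s in (0 : ℝ)..t, k s with hA
  set I1 := ∫ s in (0 : ℝ)..t, k s * w s with hI1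
  set I2 := ∫ s in (0 : ℝ)..t, k s * w s ^ 2 with hI2
  set I4 := ∫ s in (0 : ℝ)..t, k s * w s ^ 4 with hI4
  set I8 := ∫ s in (0 : ℝ)..t, k s * w s ^ 8 with hI8
  have hA0 : 0 ≤ A := intervalIntegral.integral_nonneg ht (fun s _ => (hk0 s).le)
  have hA1 : A ≤ 1 / l := int_exp_le hl0
  have h8 : I8 ≤ W t w := by
    refine intervalIntegral.integral_mono_on ht ((hw.pow 8).ii hkc 0 t)
      ((hw.pow 8).ii (by fun_prop) 0 t) (fun s hs => ?_)
    have : 0 ≤ t - s := by linarith [hs.2]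
    have h1 : k s ≤ Real.exp (-8 * (t - s)) := by
      rw [hk]
      apply Real.exp_le_exp.2
      nlinarith
    exact mul_le_mul_of_nonneg_right h1 (by positivity)
  have hI80 : 0 ≤ I8 := intervalIntegral.integral_nonneg ht
    (fun s _ => mul_nonneg (hk0 s).le (by positivity))
  have c1 : I1 ^ 2 ≤ A * I2 := cs ht hkc hk0 hw
  have c2 : I2 ^ 2 ≤ A * I4 := by
    have := cs ht hkc hk0 (hw.pow 2)
    simp only [← pow_mul] at this
    exact this
  have c3 : I4 ^ 2 ≤ A * I8 := by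
    have := cs ht hkc hk0 (hw.pow 4)
    simp only [← pow_mul] at this
    exact this
  have d1 : I1 ^ 8 ≤ A ^ 7 * I8 := by
    calc I1 ^ 8 = (I1 ^ 2) ^ 4 := by ring
      _ ≤ (A * I2) ^ 4 := by gcongr
      _ = A ^ 4 * (I2 ^ 2) ^ 2 := by ring
      _ ≤ A ^ 4 * (A * I4) ^ 2 := by gcongr
      _ = A ^ 6 * I4 ^ 2 := by ring
      _ ≤ A ^ 6 * (A * I8) := by gcongr
      _ = A ^ 7 * I8 := by ring
  have hy : yc n t w = bco n * I1 := by
    unfold yc
    rw [hI1, ← intervalIntegral.integral_const_mul]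
    congr 1
    ext1 s
    rw [hk]
    ring
  set m : ℝ := ((n : ℝ) + 1) * Real.pi with hm
  have hn1 : (0 : ℝ) < (n : ℝ) + 1 := by positivity
  have hm0 : 0 < m := mul_pos hn1 Real.pi_pos
  have hb : bco n ^ 8 = 16 * m ^ 8 := by
    unfold bco
    rw [← hm, mul_pow, mul_pow, ← pow_mul, mul_comm n 8, pow_mul]
    have : (√2 : ℝ) ^ 8 = 16 := by
      have h2 : (√2 : ℝ) ^ 2 = 2 := Real.sq_sqrt (by norm_num)
      calc (√2 : ℝ) ^ 8 = ((√2 : ℝ) ^ 2) ^ 4 := by ring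
        _ = 16 := by rw [h2]; norm_num
    rw [this]
    norm_num
  have hlm : l = m ^ 2 := rfl
  have hA7 : A ^ 7 ≤ 1 / m ^ 14 := by
    calc A ^ 7 ≤ (1 / l) ^ 7 := by gcongr
      _ = 1 / m ^ 14 := by rw [hlm]; field_simp
  have hm6 : ((n : ℝ) + 1) ^ 6 ≤ m ^ 6 := by
    have : (n : ℝ) + 1 ≤ m := by
      rw [hm]
      nlinarith [Real.pi_gt_three]
    gcongr
  have hW := W_nonneg ht w
  calc (yc n t w) ^ 8 * ((n : ℝ) + 1) ^ 6 = 16 * m ^ 8 * I1 ^ 8 * ((n : ℝ) + 1) ^ 6 := by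
        rw [hy, mul_pow, hb]
    _ ≤ 16 * m ^ 8 * (A ^ 7 * I8) * m ^ 6 := by gcongr
    _ ≤ 16 * m ^ 8 * (1 / m ^ 14 * W t w) * m ^ 6 := by gcongr
    _ = 16 * W t w := by field_simp

/-- summable majorant -/
def aa (n : ℕ) : ℝ := 1 / |(n : ℝ) + 1| ^ (3 / 2 : ℝ)

theorem aa_summable : Summable aa := by
  have := (Real.summable_one_div_nat_add_rpow 1 (3 / 2)).2 (by norm_num)
  exact this

theorem aa_pos (n : ℕ) : 0 < aa n := by
  unfold aa
  have : (0 : ℝ) < |(n : ℝ) + 1| := abs_pos.2 (by positivity)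
  positivity

theorem aa_pow (n : ℕ) : aa n ^ 4 * ((n : ℝ) + 1) ^ 6 = 1 := by
  have h1 : (0 : ℝ) < (n : ℝ) + 1 := by positivity
  unfold aa
  rw [abs_of_pos h1, div_pow, one_pow, ← Real.rpow_natCast, ← Real.rpow_mul h1.le]
  norm_num
  field_simp

def SS : ℝ := ∑' n, aa n

theorem SS_pos : 0 < SS := aa_summable.tsum_pos (fun n => (aa_pos n).le) 0 (aa_pos 0)

theorem yc_sq_bound {t : ℝ} (ht : 0 ≤ t) {w : ℝ → ℝ} {M : ℝ} (hw : Nice w M) (n : ℕ) :
    (yc n t w) ^ 2 ≤ 2 * aa n * (W t w) ^ (1 / 4 : ℝ) := by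
  have hW := W_nonneg ht w
  set R := (W t w) ^ (1 / 4 : ℝ) with hR
  have hR0 : 0 ≤ R := by positivity
  have hR4 : R ^ 4 = W t w := by
    rw [hR, ← Real.rpow_natCast, ← Real.rpow_mul hW]
    norm_num
  have ha := aa_pos n
  have h1 := yc_bound ht hw n
  have hn : (0 : ℝ) < ((n : ℝ) + 1) ^ 6 := by positivity
  have h2 : ((yc n t w) ^ 2) ^ 4 ≤ (2 * aa n * R) ^ 4 := by
    have e1 : (2 * aa n * R) ^ 4 * ((n : ℝ) + 1) ^ 6 = 16 * W t w := by
      calc (2 * aa n * R) ^ 4 * ((n : ℝ) + 1) ^ 6 =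
          16 * (aa n ^ 4 * ((n : ℝ) + 1) ^ 6) * R ^ 4 := by ring
        _ = _ := by rw [aa_pow, hR4]; ring
    have e2 : ((yc n t w) ^ 2) ^ 4 * ((n : ℝ) + 1) ^ 6 ≤ (2 * aa n * R) ^ 4 * ((n : ℝ) + 1) ^ 6 := by
      rw [e1, ← pow_mul]
      exact h1
    exact le_of_mul_le_mul_right e2 hn
  exact le_of_pow_le_pow_left₀ (by norm_num) (by positivity) h2

section
variable {H : Type} [NormedAddCommGroup H] [InnerProductSpace ℝ H]

theorem hasSum_sq (f : lp (fun _ : ℕ => ℝ) 2) : HasSum (fun n => (f n) ^ 2) (‖f‖ ^ 2) := by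
  have h := lp.hasSum_inner (𝕜 := ℝ) f f
  rw [real_inner_self_eq_norm_sq] at h
  have e : (fun i => inner ℝ (f i) (f i)) = fun n => (f n) ^ 2 := by
    ext i
    rw [real_inner_self_eq_norm_sq, Real.norm_eq_abs, sq_abs]
  rw [e] at h
  exact h

theorem memlp_of_summable {a : ℕ → ℝ} (h : Summable (fun n => a n ^ 2)) : Memℓp a 2 := by
  refine memℓp_gen ?_
  refine h.congr (fun n => ?_)
  simp

variable (e : HilbertBasis ℕ ℝ H)

open Classical in
/-- mild solution of the boundary controlled heat equation, in eigen-coordinates -/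
def phi (t : ℝ) (x : H) (w : ℝ → ℝ) : H :=
  if h : Memℓp (fun n => Real.exp (-lam n * t) * e.repr x n + yc n t w) 2 then
    e.repr.symm ⟨_, h⟩ else 0

theorem z1_mem {t : ℝ} (ht : 0 ≤ t) (x : H) :
    Summable (fun n => (Real.exp (-lam n * t) * e.repr x n) ^ 2) ∧
    ∑' n, (Real.exp (-lam n * t) * e.repr x n) ^ 2 ≤ (Real.exp (-8 * t) * ‖x‖) ^ 2 := by
  have hx := hasSum_sq (e.repr x)
  rw [e.repr.norm_map] at hx
  have hb : ∀ n, (Real.exp (-lam n * t) * e.repr x n) ^ 2 ≤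
      (Real.exp (-8 * t)) ^ 2 * (e.repr x n) ^ 2 := by
    intro n
    rw [mul_pow]
    have : Real.exp (-lam n * t) ≤ Real.exp (-8 * t) := by
      apply Real.exp_le_exp.2
      nlinarith [lam_ge n]
    gcongr
  have hx' := hx.mul_left ((Real.exp (-8 * t)) ^ 2)
  have hs : Summable (fun n => (Real.exp (-lam n * t) * e.repr x n) ^ 2) :=
    Summable.of_nonneg_of_le (fun n => sq_nonneg _) hb hx'.summable
  refine ⟨hs, ?_⟩
  rw [mul_pow, ← hx'.tsum_eq]
  exact hs.tsum_le_tsum hb hx'.summable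

theorem z2_mem {t : ℝ} (ht : 0 ≤ t) {w : ℝ → ℝ} {M : ℝ} (hw : Nice w M) :
    Summable (fun n => (yc n t w) ^ 2) ∧
    ∑' n, (yc n t w) ^ 2 ≤ 2 * SS * (W t w) ^ (1 / 4 : ℝ) := by
  have hb : ∀ n, (yc n t w) ^ 2 ≤ aa n * (2 * (W t w) ^ (1 / 4 : ℝ)) := by
    intro n
    have := yc_sq_bound ht hw n
    linarith
  have hs' : Summable (fun n => aa n * (2 * (W t w) ^ (1 / 4 : ℝ))) := aa_summable.mul_right _
  have hs : Summable (fun n => (yc n t w) ^ 2) :=
    Summable.of_nonneg_of_le (fun n => sq_nonneg _) hb hs'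
  refine ⟨hs, ?_⟩
  refine (hs.tsum_le_tsum hb hs').trans (le_of_eq ?_)
  rw [tsum_mul_right, SS]
  ring

theorem phi_memlp {t : ℝ} (ht : 0 ≤ t) (x : H) {w : ℝ → ℝ} {M : ℝ} (hw : Nice w M) :
    Memℓp (fun n => Real.exp (-lam n * t) * e.repr x n + yc n t w) 2 :=
  (memlp_of_summable (z1_mem e ht x).1).add (memlp_of_summable (z2_mem ht hw).1)

theorem phi_repr {t : ℝ} (ht : 0 ≤ t) (x : H) {w : ℝ → ℝ} {M : ℝ} (hw : Nice w M) (n : ℕ) :
    e.repr (phi e t x w) n = Real.exp (-lam n * t) * e.repr x n + yc n t w := by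
  unfold phi
  rw [dif_pos (phi_memlp e ht x hw)]
  simp

theorem ext_repr {x y : H} (h : ∀ n, e.repr x n = e.repr y n) : x = y := by
  apply e.repr.injective
  ext n
  exact h n

theorem phi_norm {t : ℝ} (ht : 0 ≤ t) (x : H) {w : ℝ → ℝ} {M : ℝ} (hw : Nice w M) :
    ‖phi e t x w‖ ≤ Real.exp (-8 * t) * ‖x‖ + √(2 * SS * (W t w) ^ (1 / 4 : ℝ)) := by
  have h1 := z1_mem e ht x
  have h2 := z2_mem ht hw
  let f1 : lp (fun _ : ℕ => ℝ) 2 := ⟨_, memlp_of_summable h1.1⟩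
  let f2 : lp (fun _ : ℕ => ℝ) 2 := ⟨_, memlp_of_summable h2.1⟩
  have hp : e.repr (phi e t x w) = f1 + f2 := by
    ext n
    rw [phi_repr e ht x hw]
    rfl
  have hn : ‖phi e t x w‖ = ‖f1 + f2‖ := by
    rw [← hp, e.repr.norm_map]
  have n1 : ‖f1‖ ≤ Real.exp (-8 * t) * ‖x‖ := by
    have : ‖f1‖ ^ 2 ≤ (Real.exp (-8 * t) * ‖x‖) ^ 2 := by
      rw [← (hasSum_sq f1).tsum_eq]
      exact h1.2
    exact le_of_sq_le_sq this (by positivity)
  have n2 : ‖f2‖ ≤ √(2 * SS * (W t w) ^ (1 / 4 : ℝ)) := by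
    apply Real.le_sqrt_of_sq_le
    rw [← (hasSum_sq f2).tsum_eq]
    exact h2.2
  rw [hn]
  exact (norm_add_le _ _).trans (add_le_add n1 n2)

/-- the gain constant -/
def CC : ℝ := 128 * (16 * SS ^ 4)

theorem CC_pos : 0 < CC := by
  have := SS_pos
  unfold CC
  positivity

/-- input energy -/
def En (t : ℝ) (w : ℝ → ℝ) : ℝ := ∫ s in (0 : ℝ)..t, Real.exp (8 * s) * w s ^ 8

def J (t : ℝ) (x : H) (w : ℝ → ℝ) : ℝ := Real.exp (8 * t) * ‖phi e t x w‖ ^ 8 - CC * En t w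

theorem W_En (t : ℝ) (w : ℝ → ℝ) : Real.exp (8 * t) * W t w = En t w := by
  unfold W En
  rw [← intervalIntegral.integral_const_mul]
  congr 1
  ext1 s
  rw [← mul_assoc, ← Real.exp_add]
  congr 2
  ring

theorem J_le {t : ℝ} (ht : 0 ≤ t) (x : H) {w : ℝ → ℝ} {M : ℝ} (hw : Nice w M) :
    J e t x w ≤ 128 * ‖x‖ ^ 8 := by
  have h1 := phi_norm e ht x hw
  have hW := W_nonneg ht w
  set R := (W t w) ^ (1 / 4 : ℝ) with hR
  have hR0 : 0 ≤ R := by positivity
  have hR4 : R ^ 4 = W t w := by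
    rw [hR, ← Real.rpow_natCast, ← Real.rpow_mul hW]
    norm_num
  have hSS := SS_pos
  have h2 : ‖phi e t x w‖ ^ 8 ≤ 2 ^ (8 - 1) * ((Real.exp (-8 * t) * ‖x‖) ^ 8 +
      (√(2 * SS * R)) ^ 8) := by
    refine (pow_le_pow_left₀ (norm_nonneg _) h1 8).trans ?_
    exact add_pow_le (by positivity) (by positivity) 8
  have h3 : (√(2 * SS * R)) ^ 8 = 16 * SS ^ 4 * W t w := by
    have h4 : (√(2 * SS * R)) ^ 2 = 2 * SS * R := Real.sq_sqrt (by positivity)
    calc (√(2 * SS * R)) ^ 8 = ((√(2 * SS * R)) ^ 2) ^ 4 := by ring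
      _ = 16 * SS ^ 4 * R ^ 4 := by rw [h4]; ring
      _ = _ := by rw [hR4]
  have h5 : Real.exp (8 * t) * (Real.exp (-8 * t) * ‖x‖) ^ 8 ≤ ‖x‖ ^ 8 := by
    rw [mul_pow, ← mul_assoc, ← Real.exp_nat_mul, ← Real.exp_add]
    have : Real.exp (8 * t + ((8 : ℕ) : ℝ) * (-8 * t)) ≤ 1 := by
      apply Real.exp_le_one_iff.2
      push_cast
      nlinarith
    calc _ ≤ 1 * ‖x‖ ^ 8 := by gcongr
      _ = _ := one_mul _
  unfold J
  rw [← W_En]
  have h6 : Real.exp (8 * t) * ‖phi e t x w‖ ^ 8 ≤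
      128 * (Real.exp (8 * t) * (Real.exp (-8 * t) * ‖x‖) ^ 8) +
      128 * (16 * SS ^ 4) * (Real.exp (8 * t) * W t w) := by
    calc Real.exp (8 * t) * ‖phi e t x w‖ ^ 8 ≤ Real.exp (8 * t) * (2 ^ (8 - 1) *
        ((Real.exp (-8 * t) * ‖x‖) ^ 8 + (√(2 * SS * R)) ^ 8)) := by gcongr
      _ = _ := by rw [h3]; ring
  unfold CC
  nlinarith

theorem phi_zero (x : H) : phi e 0 x (fun _ => 0) = x := by
  apply ext_repr e
  intro n
  rw [phi_repr e le_rfl x (M := 0) ⟨measurable_const, fun s => by simp⟩]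
  simp [yc]

/-- index set: times and nice inputs -/
def Idx : Type := {p : ℝ × (ℝ → ℝ) // 0 ≤ p.1 ∧ ∃ M, Nice p.2 M}

instance : Nonempty Idx := ⟨⟨(0, fun _ => 0), le_rfl, 0, measurable_const, fun s => by simp⟩⟩

/-- the Lyapunov function -/
def V (x : H) : ℝ := ⨆ p : Idx, J e p.1.1 x p.1.2

theorem bddAbove (x : H) : BddAbove (range (fun p : Idx => J e p.1.1 x p.1.2)) := by
  refine ⟨128 * ‖x‖ ^ 8, ?_⟩
  rintro _ ⟨⟨p, hp0, M, hM⟩, rfl⟩
  exact J_le e hp0 x hM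

theorem J_le_V {t : ℝ} (ht : 0 ≤ t) (x : H) {w : ℝ → ℝ} {M : ℝ} (hw : Nice w M) :
    J e t x w ≤ V e x :=
  le_ciSup (bddAbove e x) (⟨(t, w), ht, M, hw⟩ : Idx)

theorem V_le (x : H) : V e x ≤ 128 * ‖x‖ ^ 8 := by
  refine ciSup_le (fun p => ?_)
  obtain ⟨p, hp0, M, hM⟩ := p
  exact J_le e hp0 x hM

theorem le_V (x : H) : ‖x‖ ^ 8 ≤ V e x := by
  have h := J_le_V e le_rfl x (w := fun _ => 0) (M := 0) ⟨measurable_const, fun s => by simp⟩
  unfold J at h
  rw [phi_zero] at h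
  simpa [En] using h

theorem phi_affine {t : ℝ} (ht : 0 ≤ t) (x y : H) {w : ℝ → ℝ} {M : ℝ} (hw : Nice w M)
    {a b : ℝ} (hab : a + b = 1) :
    phi e t (a • x + b • y) w = a • phi e t x w + b • phi e t y w := by
  apply ext_repr e
  intro n
  rw [phi_repr e ht _ hw, map_add, map_smul, map_smul, map_add, map_smul, map_smul]
  simp only [lp.coeFn_add, lp.coeFn_smul, Pi.add_apply, Pi.smul_apply, smul_eq_mul]
  rw [phi_repr e ht _ hw, phi_repr e ht _ hw]
  have : yc n t w = (a + b) * yc n t w := by rw [hab, one_mul]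
  nth_rw 1 [this]
  ring

theorem V_convex : ConvexOn ℝ univ (V e) := by
  refine ⟨convex_univ, fun x _ y _ a b ha hb hab => ?_⟩
  refine ciSup_le (fun p => ?_)
  obtain ⟨⟨t, w⟩, ht, M, hw⟩ := p
  simp only at ht hw ⊢
  have hx := J_le_V e ht x hw
  have hy := J_le_V e ht y hw
  have h1 : ‖phi e t (a • x + b • y) w‖ ^ 8 ≤ a * ‖phi e t x w‖ ^ 8 + b * ‖phi e t y w‖ ^ 8 := by
    rw [phi_affine e ht x y hw hab]
    have h2 : ‖a • phi e t x w + b • phi e t y w‖ ≤ a * ‖phi e t x w‖ + b * ‖phi e t y w‖ := by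
      refine (norm_add_le _ _).trans ?_
      rw [norm_smul, norm_smul, Real.norm_of_nonneg ha, Real.norm_of_nonneg hb]
    refine (pow_le_pow_left₀ (norm_nonneg _) h2 8).trans ?_
    exact (convexOn_pow (𝕜 := ℝ) 8).2 (norm_nonneg _) (norm_nonneg _) ha hb hab
  have h3 : J e t (a • x + b • y) w ≤ a * J e t x w + b * J e t y w := by
    unfold J
    have h4 : CC * En t w = a * (CC * En t w) + b * (CC * En t w) := by
      rw [← add_mul, hab, one_mul]
    have h5 : 0 < Real.exp (8 * t) := Real.exp_pos _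
    nlinarith
  simp only [smul_eq_mul]
  nlinarith

theorem V_cont : Continuous (V e) := by
  rw [← continuousOn_univ]
  refine ((V_convex e).continuousOn_tfae isOpen_univ univ_nonempty).out 3 1 |>.1 ?_
  refine ⟨0, mem_univ _, 128, ?_⟩
  rw [eventually_map]
  filter_upwards [Metric.ball_mem_nhds (0 : H) one_pos] with x hx
  rw [mem_ball_zero_iff] at hx
  refine (V_le e x).trans ?_
  have : ‖x‖ ^ 8 ≤ 1 := pow_le_one₀ (norm_nonneg _) hx.le
  linarith

/-- concatenation of inputs -/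
def cat (h : ℝ) (w1 w2 : ℝ → ℝ) : ℝ → ℝ := fun s => if s ≤ h then w1 s else w2 (s - h)

theorem cat_nice {h : ℝ} {w1 w2 : ℝ → ℝ} {M1 M2 : ℝ} (h1 : Nice w1 M1) (h2 : Nice w2 M2) :
    Nice (cat h w1 w2) (max M1 M2) := by
  constructor
  · refine Measurable.ite measurableSet_Iic h1.meas (h2.meas.comp (measurable_id.sub_const h))
  · intro s
    unfold cat
    split_ifs
    · exact (h1.bdd s).trans (le_max_left _ _)
    · exact (h2.bdd _).trans (le_max_right _ _)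

theorem cat_int {h t : ℝ} (hh : 0 ≤ h) (ht : 0 ≤ t) {w1 w2 : ℝ → ℝ} {M1 M2 : ℝ} (h1 : Nice w1 M1)
    (h2 : Nice w2 M2) {k : ℝ → ℝ} (hk : Continuous k) (j : ℕ) :
    ∫ s in (0 : ℝ)..(t + h), k s * cat h w1 w2 s ^ j =
      (∫ s in (0 : ℝ)..h, k s * w1 s ^ j) + ∫ s in (0 : ℝ)..t, k (s + h) * w2 s ^ j := by
  have hn := (cat_nice (h := h) h1 h2).pow j
  rw [← intervalIntegral.integral_add_adjacent_intervals (b := h) (hn.ii hk _ _) (hn.ii hk _ _)]
  congr 1
  · refine intervalIntegral.integral_congr (fun s hs => ?_)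
    rw [uIcc_of_le hh] at hs
    simp only [cat, if_pos hs.2]
  · have e1 : ∫ s in (0 : ℝ)..t, k (s + h) * w2 s ^ j =
        ∫ s in h..(t + h), k s * w2 (s - h) ^ j := by
      have := intervalIntegral.integral_comp_sub_right (a := h) (b := t + h)
        (fun s => k (s + h) * w2 s ^ j) h
      simp only [sub_add_cancel, sub_self, add_sub_cancel_right] at this
      exact this.symm
    rw [e1]
    refine intervalIntegral.integral_congr_ae (ae_of_all _ (fun s hs => ?_))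
    rw [uIoc_of_le (by linarith)] at hs
    simp only [cat, if_neg (not_le.2 hs.1)]

theorem phi_cat {h t : ℝ} (hh : 0 ≤ h) (ht : 0 ≤ t) (x : H) {w1 w2 : ℝ → ℝ} {M1 M2 : ℝ}
    (h1 : Nice w1 M1) (h2 : Nice w2 M2) :
    phi e t (phi e h x w1) w2 = phi e (t + h) x (cat h w1 w2) := by
  apply ext_repr e
  intro n
  rw [phi_repr e ht _ h2, phi_repr e hh _ h1, phi_repr e (add_nonneg ht hh) _ (cat_nice h1 h2)]
  have key := cat_int hh ht h1 h2 (k := fun s => Real.exp (-lam n * (t + h - s)) * bco n)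
    (by fun_prop) 1
  simp only [pow_one, mul_assoc] at key
  unfold yc
  rw [key, mul_add, ← mul_assoc, ← Real.exp_add, ← intervalIntegral.integral_const_mul, add_assoc]
  congr 1
  · congr 2
    ring
  congr 1
  · congr 1
    ext1 s
    rw [← mul_assoc, ← Real.exp_add]
    congr 2
    ring
  · congr 1
    ext1 s
    congr 2
    ring

theorem En_cat {h t : ℝ} (hh : 0 ≤ h) (ht : 0 ≤ t) {w1 w2 : ℝ → ℝ} {M1 M2 : ℝ}
    (h1 : Nice w1 M1) (h2 : Nice w2 M2) :
    En (t + h) (cat h w1 w2) = En h w1 + Real.exp (8 * h) * En t w2 := by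
  have key := cat_int hh ht h1 h2 (k := fun s => Real.exp (8 * s)) (by fun_prop) 8
  unfold En
  rw [key, ← intervalIntegral.integral_const_mul]
  congr 2
  ext1 s
  rw [← mul_assoc, ← Real.exp_add]
  congr 2
  ring

theorem En_le {h : ℝ} (hh : 0 ≤ h) {w : ℝ → ℝ} {M : ℝ} (hw : Nice w M) :
    Real.exp (-8 * h) * En h w ≤ M ^ 8 * h := by
  have h1 : En h w ≤ ∫ _s in (0 : ℝ)..h, Real.exp (8 * h) * M ^ 8 := by
    refine intervalIntegral.integral_mono_on hh ((hw.pow 8).ii (by fun_prop) 0 h)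
      (by simp) (fun s hs => ?_)
    have e1 : Real.exp (8 * s) ≤ Real.exp (8 * h) := Real.exp_le_exp.2 (by linarith [hs.2])
    have e2 : w s ^ 8 ≤ M ^ 8 := by
      have : w s ^ 8 = |w s| ^ 8 := by rw [Even.pow_abs (by decide)]
      rw [this]
      exact pow_le_pow_left₀ (abs_nonneg _) (hw.bdd s) 8
    exact mul_le_mul e1 e2 (by positivity) (by positivity)
  rw [intervalIntegral.integral_const, smul_eq_mul, sub_zero] at h1
  calc Real.exp (-8 * h) * En h w ≤ Real.exp (-8 * h) * (h * (Real.exp (8 * h) * M ^ 8)) := by gcongr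
    _ = (Real.exp (-8 * h) * Real.exp (8 * h)) * (M ^ 8 * h) := by ring
    _ = _ := by rw [← Real.exp_add]; simp

theorem V_decay {h : ℝ} (hh : 0 ≤ h) (x : H) {w : ℝ → ℝ} {M : ℝ} (hw : Nice w M) :
    V e (phi e h x w) ≤ Real.exp (-8 * h) * V e x + CC * (M ^ 8 * h) := by
  refine ciSup_le (fun p => ?_)
  obtain ⟨⟨t, w2⟩, ht, M2, hw2⟩ := p
  simp only at ht hw2 ⊢
  have h1 := J_le_V e (add_nonneg ht hh) x (cat_nice (h := h) hw hw2)
  unfold J at h1 ⊢
  rw [En_cat hh ht hw hw2, ← phi_cat e hh ht x hw hw2] at h1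
  have h2 := En_le hh hw
  have hCC := CC_pos
  have e1 : Real.exp (8 * (t + h)) = Real.exp (8 * h) * Real.exp (8 * t) := by
    rw [← Real.exp_add]; congr 1; ring
  have e2 : Real.exp (-8 * h) * Real.exp (8 * h) = 1 := by
    rw [← Real.exp_add]; simp
  rw [e1] at h1
  have h3 := mul_le_mul_of_nonneg_left h1 (Real.exp_pos (-8 * h)).le
  have h4 : CC * (Real.exp (-8 * h) * En h w) ≤ CC * (M ^ 8 * h) := by gcongr
  calc Real.exp (8 * t) * ‖phi e t (phi e h x w) w2‖ ^ 8 - CC * En t w2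
      = Real.exp (-8 * h) * (Real.exp (8 * h) * Real.exp (8 * t) *
          ‖phi e t (phi e h x w) w2‖ ^ 8 - CC * (En h w + Real.exp (8 * h) * En t w2)) +
          CC * (Real.exp (-8 * h) * En h w) := by
        have : ∀ a b c d f : ℝ, d * f = 1 → a - CC * b = d * (f * a - CC * (c + f * b)) +
            CC * (d * c) := by
          intro a b c d f hdf
          have : d * (f * a - CC * (c + f * b)) + CC * (d * c) = (d * f) * (a - CC * b) := by ring
          rw [this, hdf, one_mul]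
        rw [mul_assoc (Real.exp (8 * h))]
        exact this _ _ _ _ _ e2
    _ ≤ _ := add_le_add h3 h4

end

end
end Pool.Agent.PHeat
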