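import Mathlib

set_option autoImplicit false
set_option linter.unusedSectionVars false
open MeasureTheory Set Filter Topology
open scoped NNReal ENNReal ContDiff

namespace Pool.Agent.PHeat
noncomputable section

/-- Lebesgue measure on `(0,1)` -/
abbrev mu01 : Measure ℝ := volume.restrict (Set.Ioo (0 : ℝ) 1)

/-- normalised Dirichlet eigenfunctions -/
def sn (n : ℕ) (z : ℝ) : ℝ := √2 * Real.sin (((n : ℝ) + 1) * Real.pi * z)

theorem sn_cont (n : ℕ) : Continuous (sn n) := by
  unfold sn; fun_prop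

theorem sn_mem (n : ℕ) : MemLp (sn n) 2 mu01 := by
  refine MemLp.of_bound (sn_cont n).aestronglyMeasurable (√2) (ae_of_all _ (fun z => ?_))
  unfold sn
  rw [norm_mul, Real.norm_of_nonneg (Real.sqrt_nonneg _)]
  have : ‖Real.sin (((n : ℝ) + 1) * Real.pi * z)‖ ≤ 1 := Real.abs_sin_le_one _
  nlinarith [Real.sqrt_nonneg 2]

def sv (n : ℕ) : Lp ℝ 2 mu01 := (sn_mem n).toLp (sn n)

theorem inner_sv (n : ℕ) (f : Lp ℝ 2 mu01) :
    inner ℝ (sv n) f = ∫ z in Set.Ioo (0 : ℝ) 1, f z * sn n z := by
  rw [L2.inner_def]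
  refine integral_congr_ae ?_
  filter_upwards [(sn_mem n).coeFn_toLp] with z hz
  simp only [sv, RCLike.inner_apply, conj_trivial]
  rw [hz]

theorem int_cos (k : ℤ) (hk : k ≠ 0) : ∫ z in (0 : ℝ)..1, Real.cos ((k : ℝ) * Real.pi * z) = 0 := by
  have hk' : (k : ℝ) * Real.pi ≠ 0 := mul_ne_zero (Int.cast_ne_zero.2 hk) Real.pi_ne_zero
  have hd : ∀ z ∈ uIcc (0 : ℝ) 1, HasDerivAt (fun z => Real.sin ((k : ℝ) * Real.pi * z) /
      ((k : ℝ) * Real.pi)) (Real.cos ((k : ℝ) * Real.pi * z)) z := by
    intro z _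
    have h1 : HasDerivAt (fun z : ℝ => (k : ℝ) * Real.pi * z) ((k : ℝ) * Real.pi) z := by
      simpa using (hasDerivAt_id z).const_mul ((k : ℝ) * Real.pi)
    have h2 := (h1.sin).div_const ((k : ℝ) * Real.pi)
    rw [mul_div_assoc, div_self hk', mul_one] at h2
    exact h2
  rw [intervalIntegral.integral_eq_sub_of_hasDerivAt hd
    (Continuous.intervalIntegrable (by fun_prop) _ _)]
  simp [Real.sin_int_mul_pi]

theorem orth : Orthonormal ℝ sv := by
  rw [orthonormal_iff_ite]
  intro i j
  rw [inner_sv]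
  have e1 : ∫ z in Set.Ioo (0 : ℝ) 1, (sv j) z * sn i z =
      ∫ z in (0 : ℝ)..1, sn j z * sn i z := by
    rw [intervalIntegral.integral_of_le zero_le_one, integral_Ioc_eq_integral_Ioo]
    refine integral_congr_ae ?_
    filter_upwards [(sn_mem j).coeFn_toLp] with z hz
    simp only [sv]
    rw [hz]
  rw [e1]
  have e2 : ∀ z, sn j z * sn i z = Real.cos ((((j : ℤ) - (i : ℤ) : ℤ) : ℝ) * Real.pi * z) -
      Real.cos ((((j : ℤ) + (i : ℤ) + 2 : ℤ) : ℝ) * Real.pi * z) := by
    intro z
    unfold sn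
    have h2 : (√2 : ℝ) * √2 = 2 := Real.mul_self_sqrt (by norm_num)
    have ha : (((j : ℤ) - (i : ℤ) : ℤ) : ℝ) * Real.pi * z =
        (((j : ℝ) + 1) * Real.pi * z) - (((i : ℝ) + 1) * Real.pi * z) := by push_cast; ring
    have hb : (((j : ℤ) + (i : ℤ) + 2 : ℤ) : ℝ) * Real.pi * z =
        (((j : ℝ) + 1) * Real.pi * z) + (((i : ℝ) + 1) * Real.pi * z) := by push_cast; ring
    rw [ha, hb, Real.cos_sub, Real.cos_add]
    linear_combination (Real.sin (((j : ℝ) + 1) * Real.pi * z) *
      Real.sin (((i : ℝ) + 1) * Real.pi * z)) * h2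
  simp only [e2]
  rw [intervalIntegral.integral_sub (Continuous.intervalIntegrable (by fun_prop) _ _)
    (Continuous.intervalIntegrable (by fun_prop) _ _), int_cos _ (by omega : (j : ℤ) + i + 2 ≠ 0)]
  split_ifs with h
  · subst h
    simp
  · rw [int_cos _ (by omega : (j : ℤ) - i ≠ 0)]
    simp

theorem int_mul {f c : ℝ → ℝ} (hf : Integrable f mu01) (hc : Continuous c) :
    Integrable (fun z => c z * f z) mu01 := by
  have h1 : IntegrableOn f (Icc 0 1) := by
    rw [integrableOn_Icc_iff_integrableOn_Ioo]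
    exact hf
  have h2 := h1.continuousOn_mul (g := c) hc.continuousOn isCompact_Icc
  rw [integrableOn_Icc_iff_integrableOn_Ioo] at h2
  exact h2

theorem complete_aux {f : ℝ → ℝ} (hf : Integrable f mu01)
    (h0 : ∀ n : ℕ, ∫ z in Set.Ioo (0 : ℝ) 1, f z * sn n z = 0) : ∀ᵐ z ∂mu01, f z = 0 := by
  -- step 1
  have h1 : ∀ k n : ℕ, ∫ z in Set.Ioo (0 : ℝ) 1,
      (Real.sin ((n : ℝ) * Real.pi * z) * Real.cos (Real.pi * z) ^ k) * f z = 0 := by
    intro k
    induction k with
    | zero =>
      intro n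
      cases n with
      | zero => simp
      | succ m =>
        have := h0 m
        have e : ∀ z, (Real.sin (((m + 1 : ℕ) : ℝ) * Real.pi * z) * Real.cos (Real.pi * z) ^ 0) * f z =
            (√2)⁻¹ * (f z * sn m z) := by
          intro z
          unfold sn
          have h2 : (√2 : ℝ) ≠ 0 := by positivity
          push_cast
          field_simp
        simp only [e]
        rw [integral_const_mul, this, mul_zero]
    | succ k ih =>
      intro n
      cases n with
      | zero => simp
      | succ m =>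
        have e : ∀ z, (Real.sin (((m + 1 : ℕ) : ℝ) * Real.pi * z) *
            Real.cos (Real.pi * z) ^ (k + 1)) * f z =
            (1 / 2) * ((Real.sin (((m + 2 : ℕ) : ℝ) * Real.pi * z) * Real.cos (Real.pi * z) ^ k) * f z) +
            (1 / 2) * ((Real.sin ((m : ℝ) * Real.pi * z) * Real.cos (Real.pi * z) ^ k) * f z) := by
          intro z
          have ha : ((m + 2 : ℕ) : ℝ) * Real.pi * z = ((m + 1 : ℕ) : ℝ) * Real.pi * z + Real.pi * z := by
            push_cast; ring
          have hb : (m : ℝ) * Real.pi * z = ((m + 1 : ℕ) : ℝ) * Real.pi * z - Real.pi * z := by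
            push_cast; ring
          rw [ha, hb, Real.sin_add, Real.sin_sub, pow_succ]
          ring
        simp only [e]
        rw [integral_add ((int_mul hf (by fun_prop)).const_mul _)
          ((int_mul hf (by fun_prop)).const_mul _), integral_const_mul, integral_const_mul,
          ih (m + 2), ih m]
        simp
  set g : ℝ → ℝ := fun z => Real.sin (Real.pi * z) * f z with hg
  have hgi : Integrable g mu01 := int_mul hf (by fun_prop)
  -- step 2: polynomials
  have h2 : ∀ p : Polynomial ℝ, ∫ z in Set.Ioo (0 : ℝ) 1, p.eval (Real.cos (Real.pi * z)) * g z = 0 := by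
    intro p
    induction p using Polynomial.induction_on' with
    | add p q hp hq =>
      simp only [Polynomial.eval_add, add_mul]
      rw [integral_add (int_mul hgi (by fun_prop)) (int_mul hgi (by fun_prop)), hp, hq, add_zero]
    | monomial k a =>
      have := h1 k 1
      have e : ∀ z, (Polynomial.monomial k a).eval (Real.cos (Real.pi * z)) * g z =
          a * ((Real.sin (((1 : ℕ) : ℝ) * Real.pi * z) * Real.cos (Real.pi * z) ^ k) * f z) := by
        intro z
        rw [Polynomial.eval_monomial, hg]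
        push_cast
        rw [one_mul]
        ring
      simp only [e]
      rw [integral_const_mul, this, mul_zero]
  -- step 3: continuous test functions
  have h3 : ∀ h : ℝ → ℝ, Continuous h → ∫ z in Set.Ioo (0 : ℝ) 1, h z * g z = 0 := by
    intro h hh
    have hbound : ∀ ε > 0, |∫ z in Set.Ioo (0 : ℝ) 1, h z * g z| ≤
        ε * ∫ z in Set.Ioo (0 : ℝ) 1, |g z| := by
      intro ε hε
      obtain ⟨p, hp⟩ := exists_polynomial_near_of_continuousOn (-1) 1
        (fun t => h (Real.arccos t / Real.pi))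
        ((hh.comp (Real.continuous_arccos.div_const _)).continuousOn) ε hε
      have hq : ∀ z ∈ Set.Ioo (0 : ℝ) 1, |h z - p.eval (Real.cos (Real.pi * z))| ≤ ε := by
        intro z hz
        have := hp (Real.cos (Real.pi * z)) ⟨Real.neg_one_le_cos _, Real.cos_le_one _⟩
        rw [Real.arccos_cos (by have := Real.pi_pos; nlinarith [hz.1])
          (by have := Real.pi_pos; nlinarith [hz.2])] at this
        rw [mul_div_cancel_left₀ _ Real.pi_ne_zero] at this
        rw [abs_sub_comm]
        exact this.le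
      have e : ∫ z in Set.Ioo (0 : ℝ) 1, h z * g z =
          ∫ z in Set.Ioo (0 : ℝ) 1, (h z - p.eval (Real.cos (Real.pi * z))) * g z := by
        simp only [sub_mul]
        rw [integral_sub (int_mul hgi hh) (int_mul hgi (by fun_prop)), h2, sub_zero]
      rw [e]
      have hae : ∀ᵐ z ∂mu01, ‖(h z - p.eval (Real.cos (Real.pi * z))) * g z‖ ≤ ε * |g z| := by
        refine (ae_restrict_iff' measurableSet_Ioo).2 (ae_of_all _ (fun z hz => ?_))
        rw [norm_mul]
        exact mul_le_mul_of_nonneg_right (hq z hz) (abs_nonneg _)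
      have h5 := norm_integral_le_of_norm_le (hgi.abs.const_mul ε) hae
      rw [integral_const_mul] at h5
      exact h5
    have hI : 0 ≤ ∫ z in Set.Ioo (0 : ℝ) 1, |g z| := integral_nonneg (fun _ => abs_nonneg _)
    have : |∫ z in Set.Ioo (0 : ℝ) 1, h z * g z| ≤ 0 := by
      refine le_of_forall_pos_le_add (fun η hη => ?_)
      have h4 := hbound (η / ((∫ z in Set.Ioo (0 : ℝ) 1, |g z|) + 1)) (by positivity)
      refine h4.trans ?_
      rw [zero_add, div_mul_eq_mul_div, div_le_iff₀ (by positivity)]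
      nlinarith
    exact abs_eq_zero.1 (le_antisymm this (abs_nonneg _))
  have h4 : ∀ᵐ z ∂mu01, g z = 0 := by
    refine ae_eq_zero_of_integral_contDiff_smul_eq_zero hgi.locallyIntegrable ?_
    intro h hh _
    simp only [smul_eq_mul]
    exact h3 h hh.continuous
  have h5 : ∀ᵐ z ∂mu01, z ∈ Set.Ioo (0 : ℝ) 1 := ae_restrict_mem measurableSet_Ioo
  filter_upwards [h4, h5] with z hz hz'
  have hs : 0 < Real.sin (Real.pi * z) := by
    apply Real.sin_pos_of_pos_of_lt_pi
    · exact mul_pos Real.pi_pos hz'.1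
    · nlinarith [Real.pi_pos, hz'.2]
  exact (mul_eq_zero.1 hz).resolve_left hs.ne'

theorem span_orth : (Submodule.span ℝ (Set.range sv))ᗮ = ⊥ := by
  rw [Submodule.eq_bot_iff]
  intro f hf
  rw [Submodule.mem_orthogonal] at hf
  rw [Lp.eq_zero_iff_ae_eq_zero]
  refine complete_aux ((Lp.memLp f).integrable (by norm_num)) (fun n => ?_)
  rw [← inner_sv]
  exact hf _ (Submodule.subset_span ⟨n, rfl⟩)

/-- the sine Hilbert basis of `L₂(0,1)` -/
def sineBasis : HilbertBasis ℕ ℝ (Lp ℝ 2 mu01) := HilbertBasis.mkOfOrthogonalEqBot orth span_orth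

theorem sineBasis_repr (f : Lp ℝ 2 mu01) (n : ℕ) :
    sineBasis.repr f n = ∫ z in Set.Ioo (0 : ℝ) 1, f z * sn n z := by
  rw [HilbertBasis.repr_apply_apply, sineBasis, HilbertBasis.coe_mkOfOrthogonalEqBot, inner_sv]

end
end Pool.Agent.PHeat
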