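import Mathlib

set_option autoImplicit false
open MeasureTheory Set Filter Topology

namespace Pool.Agent.PRz
noncomputable section

/-- `e^{ix}` -/
def ei (x : ℝ) : ℂ := Complex.exp ((x : ℂ) * Complex.I)

theorem ei_norm (x : ℝ) : ‖ei x‖ = 1 := Complex.norm_exp_ofReal_mul_I x
theorem ei_add (x y : ℝ) : ei (x + y) = ei x * ei y := by
  unfold ei; rw [← Complex.exp_add]; congr 1; push_cast; ring
theorem ei_zero : ei 0 = 1 := by simp [ei]
theorem ei_neg (x : ℝ) : ei (-x) = (starRingEnd ℂ) (ei x) := by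
  unfold ei
  rw [← Complex.exp_conj]
  congr 1
  simp
theorem ei_cont : Continuous ei := by unfold ei; fun_prop

theorem ei_sub_one (x : ℝ) : ‖1 - ei x‖ ≤ |x| := by
  have := Real.norm_exp_I_mul_ofReal_sub_one_le (x := x)
  rw [norm_sub_rev]
  unfold ei
  rw [mul_comm]
  simpa using this

theorem ei_deriv (c t : ℝ) : HasDerivAt (fun t : ℝ => ei (c * t)) ((c : ℂ) * Complex.I * ei (c * t)) t := by
  have h1 : HasDerivAt (fun t : ℝ => (((c * t : ℝ) : ℂ) * Complex.I)) ((c : ℂ) * Complex.I) t := by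
    have h0 : HasDerivAt (fun t : ℝ => c * t) c t := by simpa using (hasDerivAt_id t).const_mul c
    exact (h0.ofReal_comp).mul_const _
  have h2 := h1.cexp
  rw [mul_comm] at h2
  exact h2

/-- tent coefficients -/
def kk (l : ℝ) (j : ℕ) : ℂ := ∫ t in (0 : ℝ)..l, ((1 - t / l : ℝ) : ℂ) * ei (j * t)

theorem tent_bd {l t : ℝ} (hl : 0 < l) (ht : t ∈ Ioc 0 l) : |1 - t / l| ≤ 1 := by
  have h1 : 0 ≤ t / l := div_nonneg ht.1.le hl.le
  have h2 : t / l ≤ 1 := (div_le_one hl).2 ht.2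
  rw [abs_le]; constructor <;> linarith

theorem kk_norm {l : ℝ} (hl : 0 < l) (j : ℕ) : ‖kk l j‖ ≤ l := by
  have h := intervalIntegral.norm_integral_le_of_norm_le_const (a := 0) (b := l) (C := 1)
    (f := fun t => ((1 - t / l : ℝ) : ℂ) * ei (j * t)) (fun t ht => by
      rw [uIoc_of_le hl.le] at ht
      rw [norm_mul, ei_norm, mul_one, Complex.norm_real]
      exact tent_bd hl ht)
  rw [sub_zero, abs_of_pos hl, one_mul] at h
  exact h

theorem kk_diff_small {l : ℝ} (hl : 0 < l) (j : ℕ) : ‖kk l j - kk l (j + 1)‖ ≤ l * l := by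
  have e : kk l j - kk l (j + 1) =
      ∫ t in (0 : ℝ)..l, ((1 - t / l : ℝ) : ℂ) * ei (j * t) * (1 - ei t) := by
    unfold kk
    rw [← intervalIntegral.integral_sub]
    · congr 1
      ext1 t
      have : ei (((j + 1 : ℕ) : ℝ) * t) = ei (j * t) * ei t := by
        rw [← ei_add]; congr 1; push_cast; ring
      rw [this]; ring
    · apply Continuous.intervalIntegrable
      have := ei_cont
      fun_prop
    · apply Continuous.intervalIntegrable
      have := ei_cont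
      fun_prop
  rw [e]
  have h := intervalIntegral.norm_integral_le_of_norm_le_const (a := 0) (b := l) (C := l)
    (f := fun t => ((1 - t / l : ℝ) : ℂ) * ei (j * t) * (1 - ei t)) (fun t ht => by
      rw [uIoc_of_le hl.le] at ht
      rw [norm_mul, norm_mul, ei_norm, mul_one, Complex.norm_real]
      have h1 := tent_bd hl ht
      have h2 := ei_sub_one t
      rw [abs_of_pos ht.1] at h2
      calc ‖1 - t / l‖ * ‖1 - ei t‖ ≤ 1 * t := mul_le_mul h1 h2 (norm_nonneg _) zero_le_one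
        _ ≤ l := by rw [one_mul]; exact ht.2)
  rw [sub_zero, abs_of_pos hl] at h
  exact h

theorem kk_formula {l : ℝ} (hl : 0 < l) {j : ℕ} (hj : 0 < j) :
    kk l j = Complex.I / j + (1 - ei (j * l)) / (l * (j : ℂ) ^ 2) := by
  have hj' : (j : ℂ) ≠ 0 := by exact_mod_cast hj.ne'
  have hl' : (l : ℂ) ≠ 0 := by exact_mod_cast hl.ne'
  have hd : ∀ t ∈ uIcc 0 l, HasDerivAt (fun t : ℝ => (((1 - t / l : ℝ) : ℂ) * (-Complex.I / j)) * ei (j * t) -
      (1 / (l * (j : ℂ) ^ 2)) * ei (j * t)) (((1 - t / l : ℝ) : ℂ) * ei (j * t)) t := by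
    intro t _
    have h1 : HasDerivAt (fun t : ℝ => (((1 - t / l : ℝ) : ℂ) * (-Complex.I / j)))
        ((((-(1 / l) : ℝ)) : ℂ) * (-Complex.I / j)) t := by
      have h0 : HasDerivAt (fun t : ℝ => 1 - t / l) (-(1 / l)) t := by
        have := ((hasDerivAt_id t).div_const l).const_sub 1
        simpa using this
      exact (h0.ofReal_comp).mul_const _
    have h2 := ei_deriv (j : ℝ) t
    have h3 := (h1.mul h2).sub (h2.const_mul (1 / (l * (j : ℂ) ^ 2)))
    refine h3.congr_deriv ?_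
    have hI : Complex.I ^ 2 = -1 := Complex.I_sq
    have e1 : ((((-(1 / l) : ℝ)) : ℂ) * (-Complex.I / j)) = Complex.I / (l * j) := by
      push_cast; field_simp
    have e2 : (1 / (l * (j : ℂ) ^ 2)) * (((j : ℝ) : ℂ) * Complex.I * ei (j * t)) =
        Complex.I / (l * j) * ei (j * t) := by
      push_cast; field_simp
    have e3 : (((1 - t / l : ℝ) : ℂ) * (-Complex.I / j)) * (((j : ℝ) : ℂ) * Complex.I * ei (j * t)) =
        ((1 - t / l : ℝ) : ℂ) * (-(Complex.I ^ 2)) * ei (j * t) := by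
      rw [show ((j : ℝ) : ℂ) = (j : ℂ) by push_cast; rfl]
      field_simp
    rw [e1, e2, e3, hI]
    ring
  unfold kk
  rw [intervalIntegral.integral_eq_sub_of_hasDerivAt hd]
  · simp only [mul_zero, ei_zero]
    rw [div_self hl.ne']
    simp only [sub_self, zero_div, sub_zero, Complex.ofReal_zero, zero_mul, Complex.ofReal_one, one_mul,
      mul_one]
    field_simp
    ring
  · apply Continuous.intervalIntegrable
    have := ei_cont
    fun_prop

theorem kk_diff_large {l : ℝ} (hl : 0 < l) {j : ℕ} (hj : 0 < j) :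
    ‖kk l j - kk l (j + 1)‖ ≤ 4 / (j : ℝ) ^ 2 := by
  have hjr : (1 : ℝ) ≤ j := by exact_mod_cast hj
  have hj0 : (0 : ℝ) < j := by linarith
  have hj' : (j : ℂ) ≠ 0 := by exact_mod_cast hj.ne'
  have hj1' : ((j : ℂ) + 1) ≠ 0 := by exact_mod_cast (Nat.succ_ne_zero j)
  have hl' : (l : ℂ) ≠ 0 := by exact_mod_cast hl.ne'
  have e : kk l j - kk l (j + 1) = Complex.I * (((1 / (j * (j + 1)) : ℝ)) : ℂ) +
      (1 - ei (j * l)) * (((1 / l * (1 / (j : ℝ) ^ 2 - 1 / ((j : ℝ) + 1) ^ 2) : ℝ)) : ℂ) -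
      (ei (j * l) * (1 - ei l)) * (((1 / (l * ((j : ℝ) + 1) ^ 2) : ℝ)) : ℂ) := by
    rw [kk_formula hl hj, kk_formula hl (Nat.succ_pos j)]
    have : ei (((j + 1 : ℕ) : ℝ) * l) = ei (j * l) * ei l := by
      rw [← ei_add]; congr 1; push_cast; ring
    rw [this]
    push_cast
    field_simp
    ring
  rw [e]
  have h1 : ‖Complex.I * (((1 / (j * (j + 1)) : ℝ)) : ℂ)‖ ≤ 1 / (j : ℝ) ^ 2 := by
    rw [norm_mul, Complex.norm_I, one_mul, Complex.norm_real, Real.norm_of_nonneg (by positivity)]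
    apply one_div_le_one_div_of_le (by positivity)
    nlinarith
  have h2 : ‖(1 - ei (j * l)) * (((1 / l * (1 / (j : ℝ) ^ 2 - 1 / ((j : ℝ) + 1) ^ 2) : ℝ)) : ℂ)‖ ≤
      2 / (j : ℝ) ^ 2 := by
    have hnn : 0 ≤ 1 / (j : ℝ) ^ 2 - 1 / ((j : ℝ) + 1) ^ 2 := by
      have : 1 / ((j : ℝ) + 1) ^ 2 ≤ 1 / (j : ℝ) ^ 2 :=
        one_div_le_one_div_of_le (by positivity) (by nlinarith)
      linarith
    rw [norm_mul, Complex.norm_real, Real.norm_of_nonneg (by positivity)]
    have h3 := ei_sub_one (j * l)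
    rw [abs_of_pos (by positivity)] at h3
    calc ‖1 - ei (j * l)‖ * (1 / l * (1 / (j : ℝ) ^ 2 - 1 / ((j : ℝ) + 1) ^ 2))
        ≤ (j * l) * (1 / l * (1 / (j : ℝ) ^ 2 - 1 / ((j : ℝ) + 1) ^ 2)) := by gcongr
      _ = (2 * j + 1) / (j * ((j : ℝ) + 1) ^ 2) := by field_simp; ring
      _ ≤ 2 / (j : ℝ) ^ 2 := by
          rw [div_le_div_iff₀ (by positivity) (by positivity)]
          nlinarith
  have h4 : ‖(ei (j * l) * (1 - ei l)) * (((1 / (l * ((j : ℝ) + 1) ^ 2) : ℝ)) : ℂ)‖ ≤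
      1 / (j : ℝ) ^ 2 := by
    rw [norm_mul, norm_mul, ei_norm, one_mul, Complex.norm_real, Real.norm_of_nonneg (by positivity)]
    have h3 := ei_sub_one l
    rw [abs_of_pos hl] at h3
    calc ‖1 - ei l‖ * (1 / (l * ((j : ℝ) + 1) ^ 2)) ≤ l * (1 / (l * ((j : ℝ) + 1) ^ 2)) := by gcongr
      _ = 1 / ((j : ℝ) + 1) ^ 2 := by field_simp
      _ ≤ 1 / (j : ℝ) ^ 2 := one_div_le_one_div_of_le (by positivity) (by nlinarith)
  calc _ ≤ _ := norm_sub_le _ _
    _ ≤ (1 / (j : ℝ) ^ 2 + 2 / (j : ℝ) ^ 2) + 1 / (j : ℝ) ^ 2 :=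
        add_le_add ((norm_add_le _ _).trans (add_le_add h1 h2)) h4
    _ = _ := by ring

theorem kk_var {l : ℝ} (hl : 0 < l) (hl2 : l ≤ 2 * Real.pi) (J : ℕ) :
    ∑ j ∈ Finset.range J, ‖kk l j - kk l (j + 1)‖ ≤ 16 * l := by
  set n0 := ⌈1 / l⌉₊ with hn0
  have hn0a : 1 / l ≤ n0 := Nat.le_ceil _
  have hn0b : (n0 : ℝ) < 1 / l + 1 := Nat.ceil_lt_add_one (by positivity)
  have hpos : (0 : ℝ) < n0 := lt_of_lt_of_le (by positivity) hn0a
  have hpos' : 0 < n0 := by exact_mod_cast hpos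
  have key : ∀ J : ℕ, ∑ j ∈ Finset.range (n0 + J), ‖kk l j - kk l (j + 1)‖ ≤
      n0 * (l * l) + 8 * (1 / n0 - 1 / (n0 + J)) := by
    intro J
    induction J with
    | zero =>
      simp only [add_zero, Nat.cast_zero, sub_self, mul_zero]
      calc _ ≤ ∑ _j ∈ Finset.range n0, l * l := Finset.sum_le_sum (fun j _ => kk_diff_small hl j)
        _ = _ := by simp
    | succ J ih =>
      rw [← add_assoc, Finset.sum_range_succ]
      have h1 := kk_diff_large hl (j := n0 + J) (by omega)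
      have h2 : 4 / ((n0 + J : ℕ) : ℝ) ^ 2 ≤ 8 * (1 / (n0 + J) - 1 / (n0 + (J + 1 : ℕ))) := by
        have hx : (1 : ℝ) ≤ (n0 : ℝ) + J := by
          have : (1 : ℝ) ≤ n0 := by exact_mod_cast hpos'
          have : (0 : ℝ) ≤ J := Nat.cast_nonneg J
          linarith
        push_cast
        set x : ℝ := (n0 : ℝ) + J with hxd
        rw [← add_assoc, ← hxd]
        have : 1 / x - 1 / (x + 1) = 1 / (x * (x + 1)) := by field_simp; ring
        rw [this, mul_one_div, div_le_div_iff₀ (by positivity) (by positivity)]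
        nlinarith
      push_cast at h1 h2 ⊢
      linarith [h1, ih]
  have hsub : ∑ j ∈ Finset.range J, ‖kk l j - kk l (j + 1)‖ ≤
      ∑ j ∈ Finset.range (n0 + J), ‖kk l j - kk l (j + 1)‖ :=
    Finset.sum_le_sum_of_subset_of_nonneg (Finset.range_mono (by omega)) (fun _ _ _ => norm_nonneg _)
  have h3 : (n0 : ℝ) * (l * l) ≤ 8 * l := by
    have hpi := Real.pi_lt_d2
    have : (n0 : ℝ) * l ≤ 1 + l := by
      calc (n0 : ℝ) * l ≤ (1 / l + 1) * l := by gcongr
        _ = 1 + l := by field_simp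
    nlinarith
  have h4 : 8 * (1 / (n0 : ℝ) - 1 / (n0 + J)) ≤ 8 * l := by
    have h5 : 1 / (n0 : ℝ) ≤ l := by
      rw [div_le_iff₀ hpos]
      rw [div_le_iff₀ hl] at hn0a
      linarith
    have h6 : 0 ≤ 1 / ((n0 : ℝ) + J) := by positivity
    linarith
  linarith [key J]

theorem abel {k b : ℕ → ℂ} (J : ℕ) : ∑ j ∈ Finset.range (J + 1), b j * k j =
    (∑ i ∈ Finset.range (J + 1), b i) * k J +
      ∑ j ∈ Finset.range J, (∑ i ∈ Finset.range (j + 1), b i) * (k j - k (j + 1)) := by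
  induction J with
  | zero => simp
  | succ J ih =>
    rw [Finset.sum_range_succ (fun j => b j * k j) (J + 1), ih,
      Finset.sum_range_succ (fun j => (∑ i ∈ Finset.range (j + 1), b i) * (k j - k (j + 1))) J,
      Finset.sum_range_succ b (J + 1)]
    ring

theorem abel_bound {l : ℝ} (hl : 0 < l) (hl2 : l ≤ 2 * Real.pi) {b : ℕ → ℂ} {B : ℝ} (hB : 0 ≤ B)
    (J : ℕ) (hb : ∀ j ≤ J, ‖∑ i ∈ Finset.range (j + 1), b i‖ ≤ B) :
    ‖∑ j ∈ Finset.range (J + 1), b j * kk l j‖ ≤ 17 * B * l := by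
  rw [abel]
  refine (norm_add_le _ _).trans ?_
  have h1 : ‖(∑ i ∈ Finset.range (J + 1), b i) * kk l J‖ ≤ B * l := by
    rw [norm_mul]
    exact mul_le_mul (hb J le_rfl) (kk_norm hl J) (norm_nonneg _) hB
  have h2 : ‖∑ j ∈ Finset.range J, (∑ i ∈ Finset.range (j + 1), b i) * (kk l j - kk l (j + 1))‖ ≤
      B * (16 * l) := by
    calc _ ≤ ∑ j ∈ Finset.range J, ‖(∑ i ∈ Finset.range (j + 1), b i) * (kk l j - kk l (j + 1))‖ :=
          norm_sum_le _ _
      _ ≤ ∑ j ∈ Finset.range J, B * ‖kk l j - kk l (j + 1)‖ := by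
          refine Finset.sum_le_sum (fun j hj => ?_)
          rw [norm_mul]
          exact mul_le_mul_of_nonneg_right (hb j (Finset.mem_range.1 hj).le) (norm_nonneg _)
      _ = B * ∑ j ∈ Finset.range J, ‖kk l j - kk l (j + 1)‖ := by rw [Finset.mul_sum]
      _ ≤ _ := by gcongr; exact kk_var hl hl2 J
  linarith

/-- two-sided tent coefficients -/
def KK (l : ℝ) (m : ℝ) : ℂ := ∫ s in (0 : ℝ)..l, ((1 - s / l : ℝ) : ℂ) * ei (m * s)

theorem KK_nonneg (l : ℝ) (j : ℕ) : KK l j = kk l j := rfl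

theorem KK_neg {l : ℝ} (hl : 0 < l) (j : ℕ) : KK l (-j) = (starRingEnd ℂ) (kk l j) := by
  unfold KK kk
  rw [intervalIntegral.integral_of_le hl.le, intervalIntegral.integral_of_le hl.le, ← integral_conj]
  congr 1
  ext1 s
  rw [map_mul, ← ei_neg, Complex.conj_ofReal]
  congr 2
  ring

theorem abel_bound' {l : ℝ} (hl : 0 < l) (hl2 : l ≤ 2 * Real.pi) {b : ℕ → ℂ} {B : ℝ} (hB : 0 ≤ B)
    (J : ℕ) (hb : ∀ j ≤ J, ‖∑ i ∈ Finset.range (j + 1), b i‖ ≤ B) {σ : ℝ} (hσ : σ = 1 ∨ σ = -1) :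
    ‖∑ j ∈ Finset.range (J + 1), b j * KK l (σ * j)‖ ≤ 17 * B * l := by
  rcases hσ with rfl | rfl
  · simp only [one_mul, KK_nonneg]
    exact abel_bound hl hl2 hB J hb
  · simp only [neg_mul, one_mul, KK_neg hl]
    have e : ∑ j ∈ Finset.range (J + 1), b j * (starRingEnd ℂ) (kk l j) =
        (starRingEnd ℂ) (∑ j ∈ Finset.range (J + 1), (starRingEnd ℂ) (b j) * kk l j) := by
      rw [map_sum]
      refine Finset.sum_congr rfl (fun j _ => ?_)
      rw [map_mul, Complex.conj_conj]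
    rw [e, RCLike.norm_conj]
    refine abel_bound hl hl2 hB J (fun j hj => ?_)
    rw [← map_sum, RCLike.norm_conj]
    exact hb j hj

/-- partial sums (N terms) -/
def T (a : ℕ → ℂ) (N : ℕ) (t : ℝ) : ℂ := ∑ k ∈ Finset.range N, a k * ei (k * t)

/-- `e^{-int}` times a partial sum -/
def Phi (a : ℕ → ℂ) (N n : ℕ) (t : ℝ) : ℂ := T a N t * ei (-(n * t))

theorem T_cont (a : ℕ → ℂ) (N : ℕ) : Continuous (T a N) := by
  unfold T
  have := ei_cont
  fun_prop

theorem Phi_cont (a : ℕ → ℂ) (N n : ℕ) : Continuous (Phi a N n) := by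
  unfold Phi
  have := ei_cont
  have := T_cont a N
  fun_prop

theorem tent_int (a : ℕ → ℂ) (N n : ℕ) {l : ℝ} (α σ : ℝ) :
    ∫ s in (0 : ℝ)..l, ((1 - s / l : ℝ) : ℂ) * Phi a N n (α + σ * s) =
      ∑ k ∈ Finset.range N, a k * ei (((k : ℝ) - n) * α) * KK l (σ * ((k : ℝ) - n)) := by
  have h1 : ∀ s, ((1 - s / l : ℝ) : ℂ) * Phi a N n (α + σ * s) = ∑ k ∈ Finset.range N,
      (a k * ei (((k : ℝ) - n) * α)) * (((1 - s / l : ℝ) : ℂ) * ei ((σ * ((k : ℝ) - n)) * s)) := by
    intro s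
    unfold Phi T
    rw [Finset.sum_mul, Finset.mul_sum]
    refine Finset.sum_congr rfl (fun k _ => ?_)
    have : ei (k * (α + σ * s)) * ei (-(n * (α + σ * s))) =
        ei (((k : ℝ) - n) * α) * ei ((σ * ((k : ℝ) - n)) * s) := by
      rw [← ei_add, ← ei_add]; congr 1; ring
    calc ((1 - s / l : ℝ) : ℂ) * (a k * ei (k * (α + σ * s)) * ei (-(n * (α + σ * s))))
        = ((1 - s / l : ℝ) : ℂ) * a k * (ei (k * (α + σ * s)) * ei (-(n * (α + σ * s)))) := by ring
      _ = _ := by rw [this]; ring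
  simp only [h1]
  rw [intervalIntegral.integral_finsetSum]
  · refine Finset.sum_congr rfl (fun k _ => ?_)
    rw [intervalIntegral.integral_const_mul]
    rfl
  · intro k _
    apply Continuous.intervalIntegrable
    have := ei_cont
    fun_prop

theorem tent_bound {a : ℕ → ℂ} {M : ℝ} {α : ℝ} (hα : ∀ m, ‖T a m α‖ ≤ M) {N n : ℕ} (hn : n < N)
    {l : ℝ} (hl : 0 < l) (hl2 : l ≤ 2 * Real.pi) {σ : ℝ} (hσ : σ = 1 ∨ σ = -1) :
    ‖∫ s in (0 : ℝ)..l, ((1 - s / l : ℝ) : ℂ) * Phi a N n (α + σ * s)‖ ≤ 68 * M * l := by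
  have hM : 0 ≤ M := (norm_nonneg _).trans (hα 0)
  rw [tent_int]
  obtain ⟨m, rfl⟩ : ∃ m, N = n + (m + 1) := ⟨N - n - 1, by omega⟩
  rw [Finset.sum_range_add]
  have hdiff : ∀ p q : ℕ, ‖T a p α - T a q α‖ ≤ 2 * M := fun p q => by
    have := (norm_sub_le (T a p α) (T a q α)).trans (add_le_add (hα p) (hα q))
    linarith
  have h2 : ‖∑ j ∈ Finset.range (m + 1), a (n + j) * ei ((((n + j : ℕ) : ℝ) - n) * α) *
      KK l (σ * (((n + j : ℕ) : ℝ) - n))‖ ≤ 17 * (2 * M) * l := by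
    have e : ∀ j : ℕ, (((n + j : ℕ) : ℝ) - n) = j := fun j => by push_cast; ring
    simp only [e]
    refine abel_bound' hl hl2 (by positivity) m (fun j _ => ?_) hσ
    have : ∑ i ∈ Finset.range (j + 1), a (n + i) * ei (i * α) =
        ei (-(n * α)) * (T a (n + (j + 1)) α - T a n α) := by
      unfold T
      rw [Finset.sum_range_add (fun k : ℕ => a k * ei (k * α)) n (j + 1), add_sub_cancel_left,
        Finset.mul_sum]
      refine Finset.sum_congr rfl (fun i _ => ?_)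
      have : ei (-(n * α)) * ei (((n + i : ℕ) : ℝ) * α) = ei (i * α) := by
        rw [← ei_add]; congr 1; push_cast; ring
      rw [← this]; ring
    rw [this, norm_mul, ei_norm, one_mul]
    exact hdiff _ _
  have h1 : ‖∑ k ∈ Finset.range n, a k * ei (((k : ℝ) - n) * α) * KK l (σ * ((k : ℝ) - n))‖ ≤
      17 * (2 * M) * l := by
    set b : ℕ → ℂ := fun j => if j = 0 then 0 else a (n - j) * ei (-(j * α)) with hb
    have e : ∑ k ∈ Finset.range n, a k * ei (((k : ℝ) - n) * α) * KK l (σ * ((k : ℝ) - n)) =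
        ∑ j ∈ Finset.range (n + 1), b j * KK l ((-σ) * j) := by
      rw [Finset.sum_range_succ', ← Finset.sum_range_reflect]
      simp only [hb, if_true, zero_mul, add_zero, Nat.succ_ne_zero, if_false]
      refine Finset.sum_congr rfl (fun j hj => ?_)
      have hj' := Finset.mem_range.1 hj
      have e1 : ((n - 1 - j : ℕ) : ℝ) - n = -((j + 1 : ℕ) : ℝ) := by
        have : n - 1 - j + (j + 1) = n := by omega
        have h := congrArg (Nat.cast (R := ℝ)) this
        push_cast at h ⊢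
        linarith
      rw [e1]
      have e2 : n - 1 - j = n - (j + 1) := by omega
      rw [e2]
      congr 2
      · congr 1; ring
      · ring
    rw [e]
    refine abel_bound' hl hl2 (by positivity) n (fun j hj => ?_) (by rcases hσ with rfl | rfl <;> simp)
    have : ∑ i ∈ Finset.range (j + 1), b i = ei (-(n * α)) * (T a n α - T a (n - j) α) := by
      rw [Finset.sum_range_succ']
      simp only [hb, if_true, add_zero, Nat.succ_ne_zero, if_false]
      have hn' : n = (n - j) + j := by omega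
      have e3 : T a n α - T a (n - j) α = ∑ i ∈ Finset.range j, a (n - j + i) *
          ei (((n - j + i : ℕ) : ℝ) * α) := by
        have h7 : T a n α = T a (n - j + j) α := by rw [← hn']
        rw [h7]
        unfold T
        rw [Finset.sum_range_add (fun k : ℕ => a k * ei (k * α)) (n - j) j, add_sub_cancel_left]
      rw [e3, ← Finset.sum_range_reflect, Finset.mul_sum]
      refine Finset.sum_congr rfl (fun i hi => ?_)
      have hi' := Finset.mem_range.1 hi
      have e4 : n - (j - 1 - i + 1) = n - j + i := by omega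
      rw [e4]
      have e5 : ei (-(n * α)) * ei (((n - j + i : ℕ) : ℝ) * α) =
          ei (-(((j - 1 - i + 1 : ℕ) : ℝ) * α)) := by
        rw [← ei_add]
        congr 1
        have : n - j + i + (j - 1 - i + 1) = n := by omega
        have h := congrArg (Nat.cast (R := ℝ)) this
        rw [Nat.cast_add (n - j + i)] at h
        rw [← h]
        ring
      rw [← e5]; ring
    rw [this, norm_mul, ei_norm, one_mul]
    exact hdiff _ _
  calc _ ≤ _ := norm_add_le _ _
    _ ≤ 17 * (2 * M) * l + 17 * (2 * M) * l := add_le_add h1 h2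
    _ = _ := by ring

end
end Pool.Agent.PRz
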