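import Mathlib

set_option autoImplicit false
open MeasureTheory Set Filter Topology Metric

namespace Pool.Agent.PRz
noncomputable section

/-- partial sum polynomial with `N` terms -/
def PP (a : ℕ → ℂ) (N : ℕ) (z : ℂ) : ℂ := ∑ k ∈ Finset.range N, a k * z ^ k

theorem summable_in {a : ℕ → ℂ} {B : ℝ} (hB : ∀ n, ‖a n‖ ≤ B) {z : ℂ} (hz : ‖z‖ < 1) :
    Summable (fun n => a n * z ^ n) := by
  refine Summable.of_norm_bounded ((summable_geometric_of_lt_one (norm_nonneg z) hz).mul_left B) ?_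
  intro n
  rw [norm_mul, norm_pow]
  exact mul_le_mul_of_nonneg_right (hB n) (by positivity)

theorem remainder_in {a : ℕ → ℂ} {B : ℝ} (hB : ∀ n, ‖a n‖ ≤ B) {A : ℝ} {N : ℕ}
    (hA : ∀ k, N ≤ k → ‖a k‖ ≤ A) {z : ℂ} (hz : ‖z‖ < 1) :
    ‖(∑' n, a n * z ^ n) - PP a N z‖ ≤ ‖z‖ ^ N * (A / (1 - ‖z‖)) := by
  have h1 := (summable_in hB hz).sum_add_tsum_nat_add N
  have h2 : (∑' n, a n * z ^ n) - PP a N z = z ^ N * ∑' j, a (j + N) * z ^ j := by
    rw [← h1]
    unfold PP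
    rw [add_sub_cancel_left, ← tsum_mul_left]
    congr 1
    ext j
    rw [pow_add]; ring
  rw [h2, norm_mul, norm_pow]
  gcongr
  have h3 : HasSum (fun j : ℕ => A * ‖z‖ ^ j) (A / (1 - ‖z‖)) := by
    have := (hasSum_geometric_of_lt_one (norm_nonneg z) hz).mul_left A
    rwa [← div_eq_mul_inv] at this
  refine tsum_of_norm_bounded h3 (fun j => ?_)
  rw [norm_mul, norm_pow]
  exact mul_le_mul_of_nonneg_right (hA _ (by omega)) (by positivity)

theorem Q_norm {z z0 : ℂ} (hz0 : ‖z0‖ = 1) {r0 : ℝ} (hr0 : 0 < r0) (hz : ‖z - z0‖ = r0) :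
    ‖(z / z0 - 1) ^ 2 + (r0 : ℂ) ^ 2 * (z / z0 - 1) + (r0 : ℂ) ^ 2‖ = r0 * |‖z‖ ^ 2 - 1| := by
  have hz0' : z0 ≠ 0 := by
    rintro rfl
    simp at hz0
  set w := z / z0 - 1 with hw
  have hwn : ‖w‖ = r0 := by
    have : w = (z - z0) / z0 := by rw [hw]; field_simp
    rw [this, norm_div, hz0, div_one, hz]
  have hzn : ‖z‖ = ‖1 + w‖ := by
    have : z = z0 * (1 + w) := by rw [hw]; field_simp; ring
    rw [this, norm_mul, hz0, one_mul]
  have hr2 : (r0 : ℂ) ^ 2 = w * (starRingEnd ℂ) w := by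
    rw [Complex.mul_conj, Complex.normSq_eq_norm_sq, hwn]
    push_cast; ring
  have e1 : ‖1 + w‖ ^ 2 - 1 = 2 * w.re + r0 ^ 2 := by
    rw [← Complex.normSq_eq_norm_sq, Complex.normSq_add, ← hwn, ← Complex.normSq_eq_norm_sq]
    simp
    ring
  have e2 : w ^ 2 + (r0 : ℂ) ^ 2 * w + (r0 : ℂ) ^ 2 = w * ((2 * w.re + r0 ^ 2 : ℝ) : ℂ) := by
    have h3 : ((2 * w.re + r0 ^ 2 : ℝ) : ℂ) = w + (starRingEnd ℂ) w + (r0 : ℂ) ^ 2 := by
      rw [Complex.add_conj]; push_cast; ring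
    rw [h3]
    nth_rewrite 2 [hr2]
    ring
  rw [e2, norm_mul, hwn, Complex.norm_real, Real.norm_eq_abs, hzn, e1]

theorem riesz {a : ℕ → ℂ} {B : ℝ} (hB : ∀ n, ‖a n‖ ≤ B) {z0 : ℂ} (hz0 : ‖z0‖ = 1) {r r0 : ℝ}
    (hr0 : 0 < r0) (hr0' : r0 ≤ 1 / 2) (hrr : r0 < r) {g : ℂ → ℂ} (hg : DifferentiableOn ℂ g (ball z0 r))
    (hgf : ∀ w ∈ ball z0 r, ‖w‖ < 1 → g w = ∑' n, a n * w ^ n) {G : ℝ}
    (hG : ∀ w ∈ closedBall z0 r0, ‖g w‖ ≤ G) {N : ℕ} {A D : ℝ} (hA0 : 0 ≤ A) (hD0 : 0 ≤ D)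
    (hA : ∀ k, N ≤ k → ‖a k‖ ≤ A)
    (hD : ∀ x : ℝ, 1 < x → x ≤ 3 / 2 →
      (x - 1) * (G + ∑ k ∈ Finset.range N, ‖a k‖ * x ^ k) / x ^ N ≤ D) :
    ‖g z0 - PP a N z0‖ * r0 ^ 2 ≤ A + 2 * D := by
  have hz0' : z0 ≠ 0 := by
    rintro rfl
    simp at hz0
  set H : ℂ → ℂ := fun z => (g z - PP a N z) / z ^ N *
    ((z / z0 - 1) ^ 2 + (r0 : ℂ) ^ 2 * (z / z0 - 1) + (r0 : ℂ) ^ 2) with hH
  have hne : ∀ z ∈ ball z0 (min r 1), z ≠ 0 := by
    intro z hz h0
    rw [h0, mem_ball, dist_zero_left, hz0] at hz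
    exact absurd hz (not_lt.2 (min_le_right _ _))
  have hdiff : DifferentiableOn ℂ H (ball z0 (min r 1)) := by
    have h1 : DifferentiableOn ℂ g (ball z0 (min r 1)) := hg.mono (ball_subset_ball (min_le_left _ _))
    have h2 : DifferentiableOn ℂ (PP a N) (ball z0 (min r 1)) := by
      unfold PP
      fun_prop
    refine DifferentiableOn.mul ?_ ?_
    · exact (h1.sub h2).div (by fun_prop) (fun z hz => pow_ne_zero _ (hne z hz))
    · fun_prop
  have hsub : closedBall z0 r0 ⊆ ball z0 (min r 1) :=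
    closedBall_subset_ball (lt_min hrr (by linarith))
  have hdc : DiffContOnCl ℂ H (ball z0 r0) := hdiff.diffContOnCl_ball hsub
  have hfr : ∀ z ∈ frontier (ball z0 r0), ‖H z‖ ≤ A + 2 * D := by
    intro z hz
    rw [frontier_ball z0 hr0.ne', mem_sphere, dist_eq_norm] at hz
    have hQ := Q_norm hz0 hr0 hz
    have hzb : z ∈ closedBall z0 r0 := by rw [mem_closedBall, dist_eq_norm, hz]
    have hx1 : ‖z‖ ≤ 1 + r0 := by
      have := norm_add_le (z - z0) z0
      rw [sub_add_cancel, hz, hz0] at this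
      linarith
    have hx0 : 1 - r0 ≤ ‖z‖ := by
      have := norm_sub_norm_le z0 (z0 - z)
      rw [sub_sub_cancel, hz0, norm_sub_rev, hz] at this
      exact this
    have hxpos : 0 < ‖z‖ := by linarith
    have hHn : ‖H z‖ = ‖g z - PP a N z‖ / ‖z‖ ^ N * (r0 * |‖z‖ ^ 2 - 1|) := by
      rw [hH]
      simp only
      rw [norm_mul, norm_div, norm_pow, hQ]
    rw [hHn]
    rcases lt_trichotomy ‖z‖ 1 with h | h | h
    · have h1 := remainder_in hB hA h
      rw [← hgf z (ball_subset_ball (min_le_left _ _) (hsub hzb)) h] at h1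
      have habs : |‖z‖ ^ 2 - 1| = (1 - ‖z‖) * (1 + ‖z‖) := by
        rw [abs_of_nonpos (by nlinarith)]; ring
      rw [habs]
      have h2 : 0 < 1 - ‖z‖ := by linarith
      have hzN : 0 < ‖z‖ ^ N := by positivity
      calc ‖g z - PP a N z‖ / ‖z‖ ^ N * (r0 * ((1 - ‖z‖) * (1 + ‖z‖)))
          ≤ (‖z‖ ^ N * (A / (1 - ‖z‖))) / ‖z‖ ^ N * (r0 * ((1 - ‖z‖) * (1 + ‖z‖))) := by
            gcongr
        _ = A * (r0 * (1 + ‖z‖)) := by field_simp
        _ ≤ A * 1 := by gcongr; nlinarith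
        _ ≤ A + 2 * D := by linarith
    · rw [h]; simp; positivity
    · have habs : |‖z‖ ^ 2 - 1| = (‖z‖ - 1) * (1 + ‖z‖) := by
        rw [abs_of_nonneg (by nlinarith)]; ring
      rw [habs]
      have h3 := hD ‖z‖ h (by linarith)
      have hS : ‖g z - PP a N z‖ ≤ G + ∑ k ∈ Finset.range N, ‖a k‖ * ‖z‖ ^ k := by
        refine (norm_sub_le _ _).trans (add_le_add (hG z hzb) ?_)
        unfold PP
        refine (norm_sum_le _ _).trans (le_of_eq ?_)
        refine Finset.sum_congr rfl (fun k _ => ?_)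
        rw [norm_mul, norm_pow]
      have h2 : 0 < ‖z‖ - 1 := by linarith
      calc ‖g z - PP a N z‖ / ‖z‖ ^ N * (r0 * ((‖z‖ - 1) * (1 + ‖z‖)))
          ≤ (G + ∑ k ∈ Finset.range N, ‖a k‖ * ‖z‖ ^ k) / ‖z‖ ^ N *
              (r0 * ((‖z‖ - 1) * (1 + ‖z‖))) := by gcongr
        _ = ((‖z‖ - 1) * (G + ∑ k ∈ Finset.range N, ‖a k‖ * ‖z‖ ^ k) / ‖z‖ ^ N) *
              (r0 * (1 + ‖z‖)) := by ring
        _ ≤ D * (r0 * (1 + ‖z‖)) := by gcongr
        _ ≤ D * 2 := by gcongr; nlinarith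
        _ ≤ A + 2 * D := by linarith
  have hmem : z0 ∈ closure (ball z0 r0) := subset_closure (mem_ball_self hr0)
  have hmax := Complex.norm_le_of_forall_mem_frontier_norm_le isBounded_ball hdc hfr hmem
  have hH0 : ‖H z0‖ = ‖g z0 - PP a N z0‖ * r0 ^ 2 := by
    rw [hH]
    simp only
    rw [div_self hz0']
    simp only [sub_self, ne_eq, OfNat.ofNat_ne_zero, not_false_eq_true, zero_pow, mul_zero, zero_add]
    rw [norm_mul, norm_div, norm_pow, hz0, one_pow, div_one, norm_pow, Complex.norm_real,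
      Real.norm_eq_abs, sq_abs]
  rw [← hH0]
  exact hmax

theorem geo_aux {x : ℝ} (hx : 1 < x) (N : ℕ) :
    (x - 1) * (∑ k ∈ Finset.range N, x ^ k) / x ^ N ≤ 1 := by
  have := geom_sum_mul x N
  rw [mul_comm] at this
  rw [this, div_le_one (by positivity)]
  linarith

theorem bern_aux {x : ℝ} (hx : 1 < x) {N : ℕ} (hN : 0 < N) : (x - 1) / x ^ N ≤ 1 / N := by
  have h := one_add_mul_le_pow (a := x - 1) (by linarith) N
  have hN' : (0 : ℝ) < N := by exact_mod_cast hN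
  rw [div_le_div_iff₀ (by positivity) hN']
  have : (1 + (x - 1)) ^ N = x ^ N := by congr 1; ring
  rw [this] at h
  nlinarith

theorem loc_bound {a : ℕ → ℂ} {B : ℝ} (hB : ∀ n, ‖a n‖ ≤ B) {z0 : ℂ} {r : ℝ}
    (hr : 0 < r) {g : ℂ → ℂ} (hg : DifferentiableOn ℂ g (ball z0 r))
    (hgf : ∀ w ∈ ball z0 r, ‖w‖ < 1 → g w = ∑' n, a n * w ^ n) :
    ∃ K : ℝ, ∀ z1 : ℂ, ‖z1‖ = 1 → dist z1 z0 < r / 4 → ∀ N, ‖PP a N z1‖ ≤ K := by
  have hB0 : 0 ≤ B := (norm_nonneg _).trans (hB 0)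
  have hcomp : IsCompact (closedBall z0 (r / 2)) := isCompact_closedBall _ _
  have hsub : closedBall z0 (r / 2) ⊆ ball z0 r := closedBall_subset_ball (by linarith)
  obtain ⟨G, hG⟩ := hcomp.exists_bound_of_continuousOn (hg.continuousOn.mono hsub)
  have hG0 : 0 ≤ G := (norm_nonneg _).trans (hG z0 (mem_closedBall_self (by linarith)))
  set r0 : ℝ := min (r / 8) (1 / 2) with hr0
  have hr0p : 0 < r0 := lt_min (by linarith) (by norm_num)
  refine ⟨G + (B + 2 * (G + B)) / r0 ^ 2, fun z1 hz1 hd N => ?_⟩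
  have hb1 : ball z1 (r / 4) ⊆ ball z0 r := ball_subset_ball' (by linarith)
  have hc1 : closedBall z1 r0 ⊆ closedBall z0 (r / 2) :=
    closedBall_subset_closedBall' (by have := min_le_left (r / 8) (1 / 2 : ℝ); linarith)
  have h1 := riesz hB hz1 hr0p (min_le_right _ _) (r := r / 4)
    (by have := min_le_left (r / 8) (1 / 2 : ℝ); linarith) (hg.mono hb1)
    (fun w hw hw1 => hgf w (hb1 hw) hw1) (G := G) (fun w hw => hG w (hc1 hw)) (N := N) (A := B)
    (D := G + B) hB0 (by positivity) (fun k _ => hB k) (fun x hx _ => by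
      have hS : ∑ k ∈ Finset.range N, ‖a k‖ * x ^ k ≤ B * ∑ k ∈ Finset.range N, x ^ k := by
        rw [Finset.mul_sum]
        exact Finset.sum_le_sum (fun k _ => mul_le_mul_of_nonneg_right (hB k) (by positivity))
      have h2 := geo_aux hx N
      have hxN : 1 ≤ x ^ N := one_le_pow₀ hx.le
      have h3 : (x - 1) * G / x ^ N ≤ G ∨ 3 / 2 < x := by
        rcases le_or_gt x (3 / 2) with hx2 | hx2
        · left
          rw [div_le_iff₀ (by positivity)]
          nlinarith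
        · right; exact hx2
      calc (x - 1) * (G + ∑ k ∈ Finset.range N, ‖a k‖ * x ^ k) / x ^ N
          ≤ (x - 1) * (G + B * ∑ k ∈ Finset.range N, x ^ k) / x ^ N := by gcongr
        _ = (x - 1) * G / x ^ N + B * ((x - 1) * (∑ k ∈ Finset.range N, x ^ k) / x ^ N) := by ring
        _ ≤ G + B * 1 := by
            gcongr
            rw [div_le_iff₀ (by positivity)]
            have : x - 1 ≤ 1 := by linarith
            nlinarith
        _ = G + B := by ring)
  have h2 : ‖g z1 - PP a N z1‖ ≤ (B + 2 * (G + B)) / r0 ^ 2 := by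
    rw [le_div_iff₀ (by positivity)]
    exact h1
  have h3 : ‖g z1‖ ≤ G := hG z1 (hc1 (mem_closedBall_self hr0p.le))
  have h4 : PP a N z1 = g z1 - (g z1 - PP a N z1) := by ring
  rw [h4]
  exact (norm_sub_le _ _).trans (add_le_add h3 h2)

theorem riesz_conv {a : ℕ → ℂ} {B : ℝ} (hB : ∀ n, ‖a n‖ ≤ B) (ha : Tendsto a atTop (𝓝 0))
    {z0 : ℂ} (hz0 : ‖z0‖ = 1) {r : ℝ}
    (hr : 0 < r) {g : ℂ → ℂ} (hg : DifferentiableOn ℂ g (ball z0 r))
    (hgf : ∀ w ∈ ball z0 r, ‖w‖ < 1 → g w = ∑' n, a n * w ^ n) :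
    Tendsto (fun N => PP a N z0) atTop (𝓝 (g z0)) := by
  have hB0 : 0 ≤ B := (norm_nonneg _).trans (hB 0)
  have hcomp : IsCompact (closedBall z0 (r / 2)) := isCompact_closedBall _ _
  have hsub : closedBall z0 (r / 2) ⊆ ball z0 r := closedBall_subset_ball (by linarith)
  obtain ⟨G, hG⟩ := hcomp.exists_bound_of_continuousOn (hg.continuousOn.mono hsub)
  have hG0 : 0 ≤ G := (norm_nonneg _).trans (hG z0 (mem_closedBall_self (by linarith)))
  set r0 : ℝ := min (r / 2) (1 / 2) with hr0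
  have hr0p : 0 < r0 := lt_min (by linarith) (by norm_num)
  rw [Metric.tendsto_atTop]
  intro η hη
  set ε : ℝ := η * r0 ^ 2 / 8 with hε
  have hεp : 0 < ε := by positivity
  obtain ⟨K0, hK0⟩ := (Metric.tendsto_atTop.1 ha) ε hεp
  have hK0' : ∀ k, K0 ≤ k → ‖a k‖ ≤ ε := fun k hk => by
    have := hK0 k hk
    rw [dist_zero_right] at this
    exact this.le
  obtain ⟨N1, hN1⟩ := exists_nat_gt ((G + B * K0) / ε)
  refine ⟨K0 + N1 + 1, fun N hN => ?_⟩
  have hN1p : (G + B * K0) / ε ≤ ((N - K0 : ℕ) : ℝ) := by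
    have h1 : N1 ≤ N - K0 := by omega
    have h2 : (N1 : ℝ) ≤ ((N - K0 : ℕ) : ℝ) := by exact_mod_cast h1
    linarith
  have hNK : 0 < N - K0 := by omega
  have hNKr : (0 : ℝ) < ((N - K0 : ℕ) : ℝ) := by exact_mod_cast hNK
  have h1 := riesz hB hz0 hr0p (min_le_right _ _) (r := r)
    (by have := min_le_left (r / 2) (1 / 2 : ℝ); linarith) hg hgf (G := G)
    (fun w hw => hG w (closedBall_subset_closedBall (min_le_left _ _) hw)) (N := N) (A := ε)
    (D := 2 * ε) hεp.le (by positivity) (fun k hk => hK0' k (by omega)) (fun x hx _ => by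
      have hS : ∑ k ∈ Finset.range N, ‖a k‖ * x ^ k ≤
          B * (K0 * x ^ K0) + ε * ∑ k ∈ Finset.range N, x ^ k := by
        have hpt : ∀ k ∈ Finset.range N, ‖a k‖ * x ^ k ≤
            (if k < K0 then B * x ^ K0 else 0) + ε * x ^ k := by
          intro k _
          split_ifs with hk
          · have : ‖a k‖ * x ^ k ≤ B * x ^ K0 :=
              mul_le_mul (hB k) (pow_le_pow_right₀ hx.le hk.le) (by positivity) hB0
            have : 0 ≤ ε * x ^ k := by positivity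
            linarith
          · rw [zero_add]
            exact mul_le_mul_of_nonneg_right (hK0' k (not_lt.1 hk)) (by positivity)
        refine (Finset.sum_le_sum hpt).trans ?_
        rw [Finset.sum_add_distrib, ← Finset.mul_sum]
        gcongr
        rw [← Finset.sum_filter]
        have hf : (Finset.range N).filter (fun k => k < K0) ⊆ Finset.range K0 := by
          intro k hk
          simp at hk ⊢
          exact hk.2
        rw [Finset.sum_const, nsmul_eq_mul]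
        have hcard := Finset.card_le_card hf
        rw [Finset.card_range] at hcard
        have hcard' : (((Finset.range N).filter (fun k => k < K0)).card : ℝ) ≤ K0 := by
          exact_mod_cast hcard
        calc _ ≤ (K0 : ℝ) * (B * x ^ K0) := by gcongr
          _ = _ := by ring
      have h2 := geo_aux hx N
      have h3 := bern_aux hx hNK
      have hsplit : x ^ N = x ^ K0 * x ^ (N - K0) := by rw [← pow_add]; congr 1; omega
      have hxK : 1 ≤ x ^ K0 := one_le_pow₀ hx.le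
      calc (x - 1) * (G + ∑ k ∈ Finset.range N, ‖a k‖ * x ^ k) / x ^ N
          ≤ (x - 1) * (G * x ^ K0 + (B * (K0 * x ^ K0) + ε * ∑ k ∈ Finset.range N, x ^ k)) / x ^ N := by
            gcongr
            nlinarith
        _ = (G + B * K0) * ((x - 1) * x ^ K0 / x ^ N) +
            ε * ((x - 1) * (∑ k ∈ Finset.range N, x ^ k) / x ^ N) := by ring
        _ ≤ (G + B * K0) * (1 / ((N - K0 : ℕ) : ℝ)) + ε * 1 := by
            refine add_le_add (mul_le_mul_of_nonneg_left ?_ (by positivity))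
              (mul_le_mul_of_nonneg_left h2 hεp.le)
            rw [hsplit]
            calc (x - 1) * x ^ K0 / (x ^ K0 * x ^ (N - K0)) = (x - 1) / x ^ (N - K0) := by
                  field_simp
              _ ≤ _ := h3
        _ ≤ ε + ε * 1 := by
            gcongr
            rw [mul_one_div, div_le_iff₀ hNKr]
            rw [div_le_iff₀ hεp] at hN1p
            linarith
        _ = 2 * ε := by ring)
  rw [dist_comm, dist_eq_norm]
  have h2 : ‖g z0 - PP a N z0‖ * r0 ^ 2 ≤ 5 * ε := by linarith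
  have h3 : ‖g z0 - PP a N z0‖ ≤ 5 * ε / r0 ^ 2 := by
    rw [le_div_iff₀ (by positivity)]; exact h2
  have h4 : 5 * ε / r0 ^ 2 = 5 / 8 * η := by rw [hε]; field_simp
  rw [h4] at h3
  linarith

end
end Pool.Agent.PRz
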