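import Pool.Agent.PRa

set_option autoImplicit false
set_option linter.unusedVariables false
open MeasureTheory Set Filter Topology

namespace Pool.Agent.PRz
noncomputable section

structure IsGap (C : Set ℝ) (a b : ℝ) (p : ℝ × ℝ) : Prop where
  lt : p.1 < p.2
  le1 : a ≤ p.1
  le2 : p.2 ≤ b
  m1 : p.1 ∈ C
  m2 : p.2 ∈ C
  free : ∀ x ∈ Ioo p.1 p.2, x ∉ C

theorem exists_gap {C : Set ℝ} (hC : IsClosed C) {a b x : ℝ} (ha : a ∈ C) (hb : b ∈ C)
    (hx : x ∈ Ioo a b) (hxC : x ∉ C) : ∃ p, IsGap C a b p ∧ x ∈ Ioo p.1 p.2 := by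
  have hc1 : IsCompact (C ∩ Icc a x) := isCompact_Icc.inter_left hC
  have hc2 : IsCompact (C ∩ Icc x b) := isCompact_Icc.inter_left hC
  have hm1 := hc1.sSup_mem ⟨a, ha, le_rfl, hx.1.le⟩
  have hm2 := hc2.sInf_mem ⟨b, hb, hx.2.le, le_rfl⟩
  set α := sSup (C ∩ Icc a x) with hα
  set β := sInf (C ∩ Icc x b) with hβ
  have h1 : α < x := lt_of_le_of_ne hm1.2.2 (fun h => hxC (h ▸ hm1.1))
  have h2 : x < β := lt_of_le_of_ne hm2.2.1 (fun h => hxC (h ▸ hm2.1))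
  refine ⟨(α, β), ⟨h1.trans h2, hm1.2.1, hm2.2.2, hm1.1, hm2.1, ?_⟩, h1, h2⟩
  intro y hy hyC
  rcases le_total y x with h | h
  · have : y ≤ α := le_csSup hc1.bddAbove ⟨hyC, hm1.2.1.trans hy.1.le, h⟩
    exact absurd hy.1 (not_lt.2 this)
  · have : β ≤ y := csInf_le hc2.bddBelow ⟨hyC, h, hy.2.le.trans hm2.2.2⟩
    exact absurd hy.2 (not_lt.2 this)

theorem gap_disj {C : Set ℝ} {a b : ℝ} {p q : ℝ × ℝ} (hp : IsGap C a b p) (hq : IsGap C a b q)
    (hne : p ≠ q) : Disjoint (Ioo p.1 p.2) (Ioo q.1 q.2) := by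
  rw [Set.disjoint_left]
  intro y hy1 hy2
  apply hne
  have a1 : p.1 = q.1 := by
    rcases lt_trichotomy p.1 q.1 with h | h | h
    · exact absurd hq.m1 (hp.free _ ⟨h, hy2.1.trans hy1.2⟩)
    · exact h
    · exact absurd hp.m1 (hq.free _ ⟨h, hy1.1.trans hy2.2⟩)
  have a2 : p.2 = q.2 := by
    rcases lt_trichotomy p.2 q.2 with h | h | h
    · exact absurd hp.m2 (hq.free _ ⟨hy2.1.trans hy1.2, h⟩)
    · exact h
    · exact absurd hq.m2 (hp.free _ ⟨hy1.1.trans hy2.2, h⟩)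
  exact Prod.ext a1 a2

/-- union of a finite family of intervals -/
def UG (P : Finset (ℝ × ℝ)) : Set ℝ := ⋃ p ∈ P, Ioo p.1 p.2

theorem UG_meas (P : Finset (ℝ × ℝ)) : MeasurableSet (UG P) :=
  P.measurableSet_biUnion (fun _ _ => measurableSet_Ioo)

theorem UG_sub {C : Set ℝ} {a b : ℝ} {P : Finset (ℝ × ℝ)} (hP : ∀ p ∈ P, IsGap C a b p) :
    UG P ⊆ Ioo a b \ C := by
  intro x hx
  simp only [UG, mem_iUnion] at hx
  obtain ⟨p, hp, hx⟩ := hx
  have h := hP p hp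
  exact ⟨⟨lt_of_le_of_lt h.le1 hx.1, lt_of_lt_of_le hx.2 h.le2⟩, h.free x hx⟩

theorem gap_approx {C : Set ℝ} (hC : IsClosed C) {a b : ℝ} (ha : a ∈ C) (hb : b ∈ C) {δ : ℝ}
    (hδ : 0 < δ) : ∃ P : Finset (ℝ × ℝ), (∀ p ∈ P, IsGap C a b p) ∧
      volume.real ((Ioo a b \ C) \ UG P) ≤ δ := by
  classical
  have hUm : MeasurableSet (Ioo a b \ C) := measurableSet_Ioo.diff hC.measurableSet
  have hfin : volume (Ioo a b \ C) ≠ ⊤ :=
    ((measure_mono sdiff_subset).trans_lt measure_Ioo_lt_top).ne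
  obtain ⟨K, hKU, hK, hKm⟩ := hUm.exists_isCompact_sdiff_lt (μ := volume) hfin
    (ε := ENNReal.ofReal δ) (by simpa using hδ)
  obtain ⟨t, ht⟩ := hK.elim_finite_subcover
    (fun i : {p : ℝ × ℝ // IsGap C a b p} => Ioo i.1.1 i.1.2) (fun i => isOpen_Ioo) (by
      intro x hx
      obtain ⟨p, hp, hxp⟩ := exists_gap hC ha hb (hKU hx).1 (hKU hx).2
      exact mem_iUnion.2 ⟨⟨p, hp⟩, hxp⟩)
  refine ⟨t.image Subtype.val, ?_, ?_⟩
  · intro p hp
    obtain ⟨q, _, rfl⟩ := Finset.mem_image.1 hp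
    exact q.2
  · have hsub : (Ioo a b \ C) \ UG (t.image Subtype.val) ⊆ (Ioo a b \ C) \ K := by
      intro x hx
      refine ⟨hx.1, fun hxK => hx.2 ?_⟩
      have := ht hxK
      simp only [mem_iUnion] at this
      obtain ⟨i, hi, hxi⟩ := this
      simp only [UG, mem_iUnion]
      exact ⟨i.1, Finset.mem_image_of_mem _ hi, hxi⟩
    have h1 : volume ((Ioo a b \ C) \ UG (t.image Subtype.val)) ≤ ENNReal.ofReal δ :=
      (measure_mono hsub).trans hKm.le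
    exact ENNReal.toReal_le_of_le_ofReal hδ.le h1

theorem UG_pair {C : Set ℝ} {a b : ℝ} {P : Finset (ℝ × ℝ)} (hP : ∀ p ∈ P, IsGap C a b p) :
    (↑P : Set (ℝ × ℝ)).Pairwise (Function.onFun Disjoint (fun p : ℝ × ℝ => Ioo p.1 p.2)) :=
  fun p hp q hq hne => gap_disj (hP p hp) (hP q hq) hne

theorem int_UG {C : Set ℝ} {a b : ℝ} {P : Finset (ℝ × ℝ)} (hP : ∀ p ∈ P, IsGap C a b p)
    {f : ℝ → ℂ} (hf : IntegrableOn f (Ioo a b)) :
    ∫ x in UG P, f x = ∑ p ∈ P, ∫ x in Ioo p.1 p.2, f x :=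
  integral_biUnion_finset P (fun _ _ => measurableSet_Ioo) (UG_pair hP)
    (fun p hp => hf.mono_set (Ioo_subset_Ioo (hP p hp).le1 (hP p hp).le2))

theorem decomp {C : Set ℝ} (hC : IsClosed C) {a b : ℝ} {P : Finset (ℝ × ℝ)}
    (hP : ∀ p ∈ P, IsGap C a b p) {f : ℝ → ℂ} (hf : IntegrableOn f (Ioo a b)) :
    ∫ x in Ioo a b, f x = (∫ x in Ioo a b ∩ C, f x) + ((∑ p ∈ P, ∫ x in Ioo p.1 p.2, f x) +
      ∫ x in (Ioo a b \ C) \ UG P, f x) := by
  have hUs := UG_sub hP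
  rw [← int_UG hP hf, ← setIntegral_union disjoint_sdiff_right
    ((measurableSet_Ioo.diff hC.measurableSet).diff (UG_meas P))
    (hf.mono_set (hUs.trans sdiff_subset)) (hf.mono_set (sdiff_subset.trans sdiff_subset)),
    union_sdiff_cancel hUs, ← setIntegral_union ?_ (measurableSet_Ioo.diff hC.measurableSet)
    (hf.mono_set inter_subset_left) (hf.mono_set sdiff_subset), inter_union_sdiff]
  exact disjoint_left.2 (fun x hx hx' => hx'.2 hx.2)

theorem rest_bound {C : Set ℝ} (hC : IsClosed C) {a b : ℝ} (ha : a ∈ C) (hb : b ∈ C)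
    {P : Finset (ℝ × ℝ)} (hP : ∀ p ∈ P, IsGap C a b p) {f : ℝ → ℂ} (hf : Continuous f) {L : ℝ}
    (hL0 : 0 ≤ L) (hL : ∀ p, IsGap C a b p → ‖∫ x in Ioo p.1 p.2, f x‖ ≤ L * (p.2 - p.1)) :
    ‖∫ x in (Ioo a b \ C) \ UG P, f x‖ ≤ L * volume.real ((Ioo a b \ C) \ UG P) := by
  classical
  have hfi : IntegrableOn f (Ioo a b) := (hf.integrableOn_Icc (a := a) (b := b)).mono_set Ioo_subset_Icc_self
  obtain ⟨K, hK⟩ := (isCompact_Icc (a := a) (b := b)).exists_bound_of_continuousOn hf.continuousOn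
  have hab : (a : ℝ) ∈ Icc a b ∨ b < a := by
    rcases le_or_gt a b with h | h
    · left; exact ⟨le_rfl, h⟩
    · right; exact h
  rcases hab with hab | hab
  swap
  · have : Ioo a b = ∅ := Ioo_eq_empty (by linarith)
    rw [this]; simp
  have hK0 : 0 ≤ K := (norm_nonneg _).trans (hK a hab)
  set R := (Ioo a b \ C) \ UG P with hR
  refine le_of_forall_pos_le_add (fun η hη => ?_)
  obtain ⟨P2, hP2, hm⟩ := gap_approx hC ha hb (δ := η / (K + 1)) (by positivity)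
  set Q := (P ∪ P2) \ P with hQ
  have hQg : ∀ p ∈ Q, IsGap C a b p := by
    intro p hp
    have := (Finset.mem_sdiff.1 hp).1
    rcases Finset.mem_union.1 this with h | h
    · exact hP p h
    · exact hP2 p h
  have hQR : UG Q ⊆ R := by
    intro x hx
    refine ⟨UG_sub hQg hx, fun hx' => ?_⟩
    simp only [UG, mem_iUnion] at hx hx'
    obtain ⟨p, hp, hxp⟩ := hx
    obtain ⟨q, hq, hxq⟩ := hx'
    have hne : p ≠ q := fun h => (Finset.mem_sdiff.1 hp).2 (h ▸ hq)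
    exact Set.disjoint_left.1 (gap_disj (hQg p hp) (hP q hq) hne) hxp hxq
  have hR' : R \ UG Q ⊆ (Ioo a b \ C) \ UG P2 := by
    intro x hx
    refine ⟨hx.1.1, fun hx' => ?_⟩
    simp only [UG, mem_iUnion] at hx'
    obtain ⟨q, hq, hxq⟩ := hx'
    by_cases hqP : q ∈ P
    · exact hx.1.2 (by simp only [UG, mem_iUnion]; exact ⟨q, hqP, hxq⟩)
    · exact hx.2 (by
        simp only [UG, mem_iUnion]
        exact ⟨q, Finset.mem_sdiff.2 ⟨Finset.mem_union_right _ hq, hqP⟩, hxq⟩)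
  have hRm : MeasurableSet R := (measurableSet_Ioo.diff hC.measurableSet).diff (UG_meas P)
  have hRsub : R ⊆ Ioo a b := sdiff_subset.trans sdiff_subset
  have hRfin : volume R ≠ ⊤ := ((measure_mono hRsub).trans_lt measure_Ioo_lt_top).ne
  have e1 : ∫ x in R, f x = (∫ x in UG Q, f x) + ∫ x in R \ UG Q, f x := by
    rw [← setIntegral_union disjoint_sdiff_right (hRm.diff (UG_meas Q))
      (hfi.mono_set (hQR.trans hRsub)) (hfi.mono_set (sdiff_subset.trans hRsub)), union_sdiff_cancel hQR]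
  have e2 : ‖∫ x in UG Q, f x‖ ≤ L * volume.real R := by
    rw [int_UG hQg hfi]
    calc ‖∑ p ∈ Q, ∫ x in Ioo p.1 p.2, f x‖ ≤ ∑ p ∈ Q, ‖∫ x in Ioo p.1 p.2, f x‖ := norm_sum_le _ _
      _ ≤ ∑ p ∈ Q, L * volume.real (Ioo p.1 p.2) := by
          refine Finset.sum_le_sum (fun p hp => ?_)
          rw [Real.volume_real_Ioo_of_le (hQg p hp).lt.le]
          exact hL p (hQg p hp)
      _ = L * volume.real (UG Q) := by
          rw [← Finset.mul_sum, UG, measureReal_biUnion_finset (UG_pair hQg)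
            (fun _ _ => measurableSet_Ioo) (fun _ _ => measure_Ioo_lt_top.ne)]
      _ ≤ L * volume.real R := by
          gcongr
  have e3 : ‖∫ x in R \ UG Q, f x‖ ≤ η := by
    have h1 : ‖∫ x in R \ UG Q, f x‖ ≤ K * volume.real (R \ UG Q) := by
      refine norm_setIntegral_le_of_norm_le_const ?_ (fun x hx => ?_)
      · exact (measure_mono (sdiff_subset.trans hRsub)).trans_lt measure_Ioo_lt_top
      · exact hK x (Ioo_subset_Icc_self (hRsub hx.1))
    have h2 : volume.real (R \ UG Q) ≤ η / (K + 1) := by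
      refine le_trans (measureReal_mono hR' ?_) hm
      exact ((measure_mono (sdiff_subset.trans sdiff_subset)).trans_lt measure_Ioo_lt_top).ne
    calc _ ≤ K * (η / (K + 1)) := h1.trans (by gcongr)
      _ ≤ η := by
          rw [mul_div_assoc', div_le_iff₀ (by positivity)]
          nlinarith
  rw [e1]
  exact (norm_add_le _ _).trans (add_le_add e2 e3)

/-- cut-off -/
def kap (ρ s : ℝ) : ℝ := max 0 (min 1 (2 - s / ρ))

theorem kap_cont (ρ : ℝ) : Continuous (kap ρ) := by unfold kap; fun_prop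

theorem kap_nonneg (ρ s : ℝ) : 0 ≤ kap ρ s := le_max_left _ _
theorem kap_le (ρ s : ℝ) : kap ρ s ≤ 1 := max_le zero_le_one (min_le_left _ _)

theorem kap_one {ρ s : ℝ} (hρ : 0 < ρ) (hs : s ≤ ρ) : kap ρ s = 1 := by
  unfold kap
  have : 1 ≤ 2 - s / ρ := by
    have := (div_le_one hρ).2 hs
    linarith
  rw [min_eq_left this]; simp

theorem kap_zero {ρ s : ℝ} (hρ : 0 < ρ) (hs : 2 * ρ ≤ s) : kap ρ s = 0 := by
  unfold kap
  have : 2 - s / ρ ≤ 0 := by
    have : 2 ≤ s / ρ := by rw [le_div_iff₀ hρ]; exact hs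
    linarith
  exact max_eq_left ((min_le_right _ _).trans this)

theorem kap_mid {ρ s : ℝ} (hρ : 0 < ρ) (h1 : ρ ≤ s) (h2 : s ≤ 2 * ρ) : kap ρ s = 2 - s / ρ := by
  unfold kap
  have a1 : 2 - s / ρ ≤ 1 := by
    have : 1 ≤ s / ρ := by rw [le_div_iff₀ hρ]; linarith
    linarith
  have a2 : 0 ≤ 2 - s / ρ := by
    have : s / ρ ≤ 2 := by rw [div_le_iff₀ hρ]; exact h2
    linarith
  rw [min_eq_right a1, max_eq_right a2]

theorem kap_int {ρ l : ℝ} (hρ : 0 < ρ) (hl : 2 * ρ ≤ l) {f : ℝ → ℂ} (hf : Continuous f) :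
    ∫ s in (0 : ℝ)..l, (kap ρ s : ℂ) * f s =
      2 * (∫ s in (0 : ℝ)..(2 * ρ), ((1 - s / (2 * ρ) : ℝ) : ℂ) * f s) -
        ∫ s in (0 : ℝ)..ρ, ((1 - s / ρ : ℝ) : ℂ) * f s := by
  have hk := kap_cont ρ
  have ic : ∀ u v, IntervalIntegrable (fun s => (kap ρ s : ℂ) * f s) volume u v := fun u v =>
    Continuous.intervalIntegrable (by fun_prop) _ _
  have ic2 : ∀ u v, IntervalIntegrable (fun s => ((1 - s / (2 * ρ) : ℝ) : ℂ) * f s) volume u v :=
    fun u v => Continuous.intervalIntegrable (by fun_prop) _ _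
  have ic3 : ∀ u v, IntervalIntegrable (fun s => ((1 - s / ρ : ℝ) : ℂ) * f s) volume u v :=
    fun u v => Continuous.intervalIntegrable (by fun_prop) _ _
  rw [← intervalIntegral.integral_add_adjacent_intervals (ic 0 ρ) (ic ρ l),
    ← intervalIntegral.integral_add_adjacent_intervals (ic ρ (2 * ρ)) (ic (2 * ρ) l),
    ← intervalIntegral.integral_add_adjacent_intervals (ic2 0 ρ) (ic2 ρ (2 * ρ))]
  have h1 : ∫ s in (0 : ℝ)..ρ, (kap ρ s : ℂ) * f s =
      2 * (∫ s in (0 : ℝ)..ρ, ((1 - s / (2 * ρ) : ℝ) : ℂ) * f s) -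
        ∫ s in (0 : ℝ)..ρ, ((1 - s / ρ : ℝ) : ℂ) * f s := by
    rw [← intervalIntegral.integral_const_mul, ← intervalIntegral.integral_sub ((ic2 _ _).const_mul _) (ic3 _ _)]
    refine intervalIntegral.integral_congr (fun s hs => ?_)
    rw [uIcc_of_le hρ.le] at hs
    rw [kap_one hρ hs.2]
    have : (ρ : ℂ) ≠ 0 := by exact_mod_cast hρ.ne'
    push_cast
    field_simp
    ring
  have h2 : ∫ s in ρ..(2 * ρ), (kap ρ s : ℂ) * f s =
      2 * (∫ s in ρ..(2 * ρ), ((1 - s / (2 * ρ) : ℝ) : ℂ) * f s) := by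
    rw [← intervalIntegral.integral_const_mul]
    refine intervalIntegral.integral_congr (fun s hs => ?_)
    rw [uIcc_of_le (by linarith)] at hs
    rw [kap_mid hρ hs.1 hs.2]
    have : (ρ : ℂ) ≠ 0 := by exact_mod_cast hρ.ne'
    push_cast
    field_simp
  have h3 : ∫ s in (2 * ρ)..l, (kap ρ s : ℂ) * f s = 0 := by
    have : ∫ s in (2 * ρ)..l, (kap ρ s : ℂ) * f s = ∫ s in (2 * ρ)..l, (0 : ℂ) := by
      refine intervalIntegral.integral_congr (fun s hs => ?_)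
      rw [uIcc_of_le hl] at hs
      rw [kap_zero hρ hs.1]
      simp
    rw [this]; simp
  rw [h1, h2, h3]
  ring

theorem near_bound {a : ℕ → ℂ} {M : ℝ} {α : ℝ} (hα : ∀ m, ‖T a m α‖ ≤ M) {N n : ℕ} (hn : n < N)
    {l ρ : ℝ} (hρ : 0 < ρ) (hl : 2 * ρ ≤ l) (hl2 : l ≤ 2 * Real.pi) {σ : ℝ} (hσ : σ = 1 ∨ σ = -1) :
    ‖∫ s in (0 : ℝ)..l, (kap ρ s : ℂ) * Phi a N n (α + σ * s)‖ ≤ 340 * M * ρ := by
  have hc : Continuous (fun s => Phi a N n (α + σ * s)) := by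
    have := Phi_cont a N n
    fun_prop
  rw [kap_int hρ hl hc]
  have h1 := tent_bound hα hn (l := 2 * ρ) (by positivity) (by linarith) hσ
  have h2 := tent_bound hα hn (l := ρ) hρ (by linarith) hσ
  calc _ ≤ _ := norm_sub_le _ _
    _ ≤ 2 * (68 * M * (2 * ρ)) + 68 * M * ρ := by
        refine add_le_add ?_ h2
        rw [norm_mul]
        simpa using h1
    _ = _ := by ring

theorem shift_right {f : ℝ → ℂ} (α l : ℝ) :
    ∫ t in α..(α + l), f t = ∫ s in (0 : ℝ)..l, f (α + 1 * s) := by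
  have := intervalIntegral.integral_comp_add_left (a := 0) (b := l) f α
  simp only [add_zero] at this
  simp only [one_mul]
  exact this.symm

theorem shift_left {f : ℝ → ℂ} (β l : ℝ) :
    ∫ t in (β - l)..β, f t = ∫ s in (0 : ℝ)..l, f (β + (-1) * s) := by
  have := intervalIntegral.integral_comp_sub_left (a := 0) (b := l) f β
  simp only [sub_zero] at this
  rw [← this]
  congr 1
  ext1 s
  congr 1
  ring

theorem Ioo_int {f : ℝ → ℂ} {α β : ℝ} (h : α ≤ β) : ∫ x in Ioo α β, f x = ∫ x in α..β, f x := by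
  rw [intervalIntegral.integral_of_le h, integral_Ioc_eq_integral_Ioo]

theorem gap_int_bound {C : Set ℝ} {θ : ℝ} {a : ℕ → ℂ} {M : ℝ} (hM : ∀ t ∈ C, ∀ m, ‖T a m t‖ ≤ M)
    {p : ℝ × ℝ} (hp : IsGap C θ (θ + 2 * Real.pi) p) {N n : ℕ} (hn : n < N) :
    ‖∫ x in Ioo p.1 p.2, Phi a N n x‖ ≤ 136 * M * (p.2 - p.1) := by
  set l := p.2 - p.1 with hl
  have hlpos : 0 < l := sub_pos.2 hp.lt
  have hl2 : l ≤ 2 * Real.pi := by have := hp.le1; have := hp.le2; rw [hl]; linarith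
  have h1 := tent_bound (hM _ hp.m1) hn hlpos hl2 (σ := 1) (Or.inl rfl)
  have h2 := tent_bound (hM _ hp.m2) hn hlpos hl2 (σ := -1) (Or.inr rfl)
  rw [Ioo_int hp.lt.le]
  have hc := Phi_cont a N n
  have e2 : ∫ s in (0 : ℝ)..l, ((1 - s / l : ℝ) : ℂ) * Phi a N n (p.2 + (-1) * s) =
      ∫ t in p.1..p.2, ((1 - (p.2 - t) / l : ℝ) : ℂ) * Phi a N n t := by
    have := shift_left (f := fun t => ((1 - (p.2 - t) / l : ℝ) : ℂ) * Phi a N n t) p.2 l
    rw [show p.2 - l = p.1 by rw [hl]; ring] at this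
    rw [this]
    congr 1
    ext1 s
    congr 3
    ring
  have e1 : ∫ s in (0 : ℝ)..l, ((1 - s / l : ℝ) : ℂ) * Phi a N n (p.1 + 1 * s) =
      ∫ t in p.1..p.2, ((1 - (t - p.1) / l : ℝ) : ℂ) * Phi a N n t := by
    have := shift_right (f := fun t => ((1 - (t - p.1) / l : ℝ) : ℂ) * Phi a N n t) p.1 l
    rw [show p.1 + l = p.2 by rw [hl]; ring] at this
    rw [this]
    congr 1
    ext1 s
    congr 3
    ring
  have e : ∫ t in p.1..p.2, Phi a N n t =
      (∫ t in p.1..p.2, ((1 - (t - p.1) / l : ℝ) : ℂ) * Phi a N n t) +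
      ∫ t in p.1..p.2, ((1 - (p.2 - t) / l : ℝ) : ℂ) * Phi a N n t := by
    rw [← intervalIntegral.integral_add (Continuous.intervalIntegrable (by fun_prop) _ _)
      (Continuous.intervalIntegrable (by fun_prop) _ _)]
    congr 1
    ext1 t
    have hl' : (l : ℂ) ≠ 0 := by exact_mod_cast hlpos.ne'
    have hll : (l : ℂ) = (p.2 : ℂ) - (p.1 : ℂ) := by rw [hl]; push_cast; ring
    push_cast
    field_simp
    rw [hll]
    ring
  rw [e, ← e1, ← e2]
  calc _ ≤ _ := norm_add_le _ _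
    _ ≤ 68 * M * l + 68 * M * l := add_le_add h1 h2
    _ = _ := by ring

/-- weight inside a gap -/
def mm (ρ : ℝ) (p : ℝ × ℝ) (t : ℝ) : ℝ := 1 - kap ρ (t - p.1) - kap ρ (p.2 - t)

theorem mm_cont (ρ : ℝ) (p : ℝ × ℝ) : Continuous (mm ρ p) := by
  unfold mm
  have := kap_cont ρ
  fun_prop

theorem mm_diff {C : Set ℝ} {θ : ℝ} {a : ℕ → ℂ} {M : ℝ} (hM : ∀ t ∈ C, ∀ m, ‖T a m t‖ ≤ M)
    {p : ℝ × ℝ} (hp : IsGap C θ (θ + 2 * Real.pi) p) {N n : ℕ} (hn : n < N) {ρ : ℝ} (hρ : 0 < ρ)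
    (hρl : 4 * ρ ≤ p.2 - p.1) :
    ‖(∫ x in Ioo p.1 p.2, Phi a N n x) - ∫ x in Ioo p.1 p.2, (mm ρ p x : ℂ) * Phi a N n x‖ ≤
      680 * M * ρ := by
  set l := p.2 - p.1 with hl
  have hlpos : 0 < l := sub_pos.2 hp.lt
  have hl2 : l ≤ 2 * Real.pi := by have := hp.le1; have := hp.le2; rw [hl]; linarith
  have h1 := near_bound (hM _ hp.m1) hn hρ (l := l) (by linarith) hl2 (σ := 1) (Or.inl rfl)
  have h2 := near_bound (hM _ hp.m2) hn hρ (l := l) (by linarith) hl2 (σ := -1) (Or.inr rfl)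
  rw [Ioo_int hp.lt.le, Ioo_int hp.lt.le]
  have hc := Phi_cont a N n
  have hk := kap_cont ρ
  have hmc := mm_cont ρ p
  have e2 : ∫ s in (0 : ℝ)..l, (kap ρ s : ℂ) * Phi a N n (p.2 + (-1) * s) =
      ∫ t in p.1..p.2, (kap ρ (p.2 - t) : ℂ) * Phi a N n t := by
    have := shift_left (f := fun t => (kap ρ (p.2 - t) : ℂ) * Phi a N n t) p.2 l
    rw [show p.2 - l = p.1 by rw [hl]; ring] at this
    rw [this]
    congr 1
    ext1 s
    congr 3
    ring
  have e1 : ∫ s in (0 : ℝ)..l, (kap ρ s : ℂ) * Phi a N n (p.1 + 1 * s) =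
      ∫ t in p.1..p.2, (kap ρ (t - p.1) : ℂ) * Phi a N n t := by
    have := shift_right (f := fun t => (kap ρ (t - p.1) : ℂ) * Phi a N n t) p.1 l
    rw [show p.1 + l = p.2 by rw [hl]; ring] at this
    rw [this]
    congr 1
    ext1 s
    congr 3
    ring
  have e : (∫ t in p.1..p.2, Phi a N n t) - ∫ t in p.1..p.2, (mm ρ p t : ℂ) * Phi a N n t =
      (∫ t in p.1..p.2, (kap ρ (t - p.1) : ℂ) * Phi a N n t) +
      ∫ t in p.1..p.2, (kap ρ (p.2 - t) : ℂ) * Phi a N n t := by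
    rw [← intervalIntegral.integral_add (Continuous.intervalIntegrable (by fun_prop) _ _)
      (Continuous.intervalIntegrable (by fun_prop) _ _), ← intervalIntegral.integral_sub
      (Continuous.intervalIntegrable (by fun_prop) _ _) (Continuous.intervalIntegrable (by fun_prop) _ _)]
    congr 1
    ext1 t
    unfold mm
    push_cast
    ring
  rw [e, ← e1, ← e2]
  calc _ ≤ _ := norm_add_le _ _
    _ ≤ 340 * M * ρ + 340 * M * ρ := add_le_add h1 h2
    _ = _ := by ring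

theorem mm_abs {ρ : ℝ} {p : ℝ × ℝ} (hρ : 0 < ρ) (hρl : 4 * ρ ≤ p.2 - p.1) (t : ℝ) :
    |mm ρ p t| ≤ 1 := by
  unfold mm
  have h1 := kap_nonneg ρ (t - p.1)
  have h2 := kap_nonneg ρ (p.2 - t)
  have h3 := kap_le ρ (t - p.1)
  have h4 := kap_le ρ (p.2 - t)
  rcases le_or_gt (2 * ρ) (t - p.1) with h | h
  · rw [kap_zero hρ h, abs_le]; constructor <;> linarith
  · rw [kap_zero hρ (s := p.2 - t) (by linarith), abs_le]; constructor <;> linarith

theorem mm_zero {ρ : ℝ} {p : ℝ × ℝ} (hρ : 0 < ρ) (hρl : 4 * ρ ≤ p.2 - p.1) {t : ℝ}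
    (ht : t ∉ Icc (p.1 + ρ) (p.2 - ρ)) : mm ρ p t = 0 := by
  unfold mm
  rcases lt_or_ge t (p.1 + ρ) with h | h
  · rw [kap_one hρ (s := t - p.1) (by linarith), kap_zero hρ (s := p.2 - t) (by linarith)]; ring
  · have h2 : p.2 - ρ < t := by
      by_contra h3
      exact ht ⟨h, not_lt.1 h3⟩
    rw [kap_one hρ (s := p.2 - t) (by linarith), kap_zero hρ (s := t - p.1) (by linarith)]; ring

end
end Pool.Agent.PRz
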