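import Pool.Agent.PRb
import Pool.Agent.PRc

set_option autoImplicit false
set_option linter.unusedVariables false
open MeasureTheory Set Filter Topology

namespace Pool.Agent.PRz
noncomputable section

theorem ei_int_two_pi (m : ℤ) : ei (m * (2 * Real.pi)) = 1 := by
  unfold ei
  have := Complex.exp_int_mul_two_pi_mul_I m
  rw [← this]
  congr 1
  push_cast
  ring

theorem int_ei (θ : ℝ) (m : ℤ) : ∫ t in θ..(θ + 2 * Real.pi), ei (m * t) =
    if m = 0 then ((2 * Real.pi : ℝ) : ℂ) else 0 := by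
  split_ifs with h
  · subst h
    simp [ei_zero]
  · have hm : ((m : ℝ) : ℂ) * Complex.I ≠ 0 :=
      mul_ne_zero (by exact_mod_cast h) Complex.I_ne_zero
    have hd : ∀ t ∈ uIcc θ (θ + 2 * Real.pi), HasDerivAt (fun t : ℝ => ei (m * t) / (((m : ℝ) : ℂ) * Complex.I))
        (ei (m * t)) t := by
      intro t _
      have h2 := (ei_deriv (m : ℝ) t).div_const (((m : ℝ) : ℂ) * Complex.I)
      refine h2.congr_deriv ?_
      exact mul_div_cancel_left₀ _ hm
    rw [intervalIntegral.integral_eq_sub_of_hasDerivAt hd]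
    · have : ei (m * (θ + 2 * Real.pi)) = ei (m * θ) := by
        rw [mul_add, ei_add, ei_int_two_pi, mul_one]
      rw [this, sub_self]
    · apply Continuous.intervalIntegrable
      have := ei_cont
      fun_prop

theorem Phi_int (a : ℕ → ℂ) {N n : ℕ} (hn : n < N) (θ : ℝ) :
    ∫ t in Ioo θ (θ + 2 * Real.pi), Phi a N n t = ((2 * Real.pi : ℝ) : ℂ) * a n := by
  rw [Ioo_int (by linarith [Real.pi_pos])]
  have e : ∀ t, Phi a N n t = ∑ k ∈ Finset.range N, a k * ei ((((k : ℤ) - (n : ℤ) : ℤ) : ℝ) * t) := by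
    intro t
    unfold Phi T
    rw [Finset.sum_mul]
    refine Finset.sum_congr rfl (fun k _ => ?_)
    have : ei ((((k : ℤ) - (n : ℤ) : ℤ) : ℝ) * t) = ei (k * t) * ei (-(n * t)) := by
      rw [← ei_add]; congr 1; push_cast; ring
    rw [this, mul_assoc]
  simp only [e]
  rw [intervalIntegral.integral_finsetSum]
  · simp only [intervalIntegral.integral_const_mul, int_ei]
    rw [Finset.sum_eq_single n]
    · simp [mul_comm]
    · intro k _ hk
      rw [if_neg (by omega), mul_zero]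
    · intro h
      exact absurd (Finset.mem_range.2 hn) h
  · intro k _
    apply Continuous.intervalIntegrable
    have := ei_cont
    fun_prop

theorem e_mem (θ : ℝ) (n : ℕ) : MemLp (fun t => ei (n * t)) 2
    (volume.restrict (Ioo θ (θ + 2 * Real.pi))) := by
  have := ei_cont
  refine MemLp.of_bound (Continuous.aestronglyMeasurable (by fun_prop)) 1 (ae_of_all _ (fun t => ?_))
  rw [ei_norm]

theorem bessel {θ : ℝ} {f : ℝ → ℂ} (hf : Measurable f) {K : ℝ} (hK : ∀ t, ‖f t‖ ≤ K)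
    (S : Finset ℕ) :
    ∑ n ∈ S, ‖∫ t in Ioo θ (θ + 2 * Real.pi), f t * ei (-(n * t))‖ ^ 2 ≤
      (2 * Real.pi) ^ 2 * K ^ 2 := by
  set μ := (volume : Measure ℝ).restrict (Ioo θ (θ + 2 * Real.pi)) with hμ
  have hpi : 0 < 2 * Real.pi := by positivity
  have hμr : μ.real univ = 2 * Real.pi := by
    rw [hμ, measureReal_restrict_apply_univ, Real.volume_real_Ioo_of_le (by linarith)]
    ring
  have hfm : MemLp f 2 μ := MemLp.of_bound hf.aestronglyMeasurable K (ae_of_all _ hK)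
  set x : Lp ℂ 2 μ := hfm.toLp f with hx
  set w : ℕ → Lp ℂ 2 μ := fun n => (e_mem θ n).toLp _ with hw
  have hin : ∀ n, inner ℂ (w n) x = ∫ t in Ioo θ (θ + 2 * Real.pi), f t * ei (-(n * t)) := by
    intro n
    rw [L2.inner_def]
    refine integral_congr_ae ?_
    filter_upwards [(e_mem θ n).coeFn_toLp, hfm.coeFn_toLp] with t h1 h2
    simp only [hw, hx]
    rw [h1, h2, RCLike.inner_apply, ei_neg]
  have hww : ∀ n m, inner ℂ (w n) (w m) = if n = m then ((2 * Real.pi : ℝ) : ℂ) else 0 := by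
    intro n m
    rw [L2.inner_def]
    have e : ∫ t, inner ℂ ((w n) t) ((w m) t) ∂μ =
        ∫ t in θ..(θ + 2 * Real.pi), ei ((((m : ℤ) - (n : ℤ) : ℤ) : ℝ) * t) := by
      rw [← Ioo_int (by linarith)]
      refine integral_congr_ae ?_
      filter_upwards [(e_mem θ n).coeFn_toLp, (e_mem θ m).coeFn_toLp] with t h1 h2
      simp only [hw]
      rw [h1, h2, RCLike.inner_apply, ← ei_neg, ← ei_add]
      congr 1
      push_cast
      ring
    rw [e, int_ei]
    by_cases h : n = m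
    · subst h; simp
    · rw [if_neg h, if_neg (by omega)]
  set c : ℂ := (((√(2 * Real.pi))⁻¹ : ℝ) : ℂ) with hc
  have hcc : (starRingEnd ℂ) c * c * ((2 * Real.pi : ℝ) : ℂ) = 1 := by
    rw [hc, Complex.conj_ofReal, ← Complex.ofReal_mul, ← Complex.ofReal_mul]
    have : (√(2 * Real.pi))⁻¹ * (√(2 * Real.pi))⁻¹ * (2 * Real.pi) = 1 := by
      rw [← mul_inv, Real.mul_self_sqrt hpi.le, inv_mul_cancel₀ hpi.ne']
    rw [this]; simp
  have hcn : ‖c‖ ^ 2 = (2 * Real.pi)⁻¹ := by
    rw [hc, Complex.norm_real, Real.norm_of_nonneg (by positivity), inv_pow, Real.sq_sqrt hpi.le]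
  have horth : Orthonormal ℂ (fun n => c • w n) := by
    rw [orthonormal_iff_ite]
    intro i j
    rw [inner_smul_left, inner_smul_right, hww]
    split_ifs with h
    · rw [← mul_assoc]; exact hcc
    · simp
  have hb := horth.sum_inner_products_le x (s := S)
  have hxn : ‖x‖ ^ 2 ≤ 2 * Real.pi * K ^ 2 := by
    have h1 : ‖x‖ ^ 2 = (inner ℂ x x : ℂ).re := by
      have := inner_self_eq_norm_sq (𝕜 := ℂ) x
      exact this.symm
    rw [h1, L2.inner_def]
    refine (Complex.re_le_norm _).trans ?_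
    have h2 : ∀ᵐ t ∂μ, ‖inner ℂ (x t) (x t)‖ ≤ K ^ 2 := by
      filter_upwards [hfm.coeFn_toLp] with t h2
      simp only [hx]
      rw [h2]
      calc ‖inner ℂ (f t) (f t)‖ ≤ ‖f t‖ * ‖f t‖ := norm_inner_le_norm _ _
        _ ≤ K * K := mul_self_le_mul_self (norm_nonneg _) (hK t)
        _ = K ^ 2 := by ring
    have h3 := norm_integral_le_of_norm_le_const h2
    rw [hμr] at h3
    linarith
  have hterm : ∀ n ∈ S, ‖inner ℂ (c • w n) x‖ ^ 2 =
      (2 * Real.pi)⁻¹ * ‖∫ t in Ioo θ (θ + 2 * Real.pi), f t * ei (-(n * t))‖ ^ 2 := by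
    intro n _
    rw [inner_smul_left, norm_mul, mul_pow, RCLike.norm_conj, hcn, hin]
  rw [Finset.sum_congr rfl hterm, ← Finset.mul_sum] at hb
  have h4 := hb.trans hxn
  rw [inv_mul_le_iff₀ hpi] at h4
  calc _ ≤ _ := h4
    _ = _ := by ring

theorem exists_pos_le (P : Finset (ℝ × ℝ)) (f : ℝ × ℝ → ℝ) (h : ∀ p ∈ P, 0 < f p) :
    ∃ r > 0, ∀ p ∈ P, r ≤ f p := by
  classical
  induction P using Finset.induction_on with
  | empty => exact ⟨1, one_pos, fun p hp => absurd hp (Finset.notMem_empty p)⟩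
  | insert q P _ ih =>
    obtain ⟨r, hr, hr'⟩ := ih (fun p hp => h p (Finset.mem_insert_of_mem hp))
    refine ⟨min r (f q), lt_min hr (h q (Finset.mem_insert_self _ _)), fun p hp => ?_⟩
    rcases Finset.mem_insert.1 hp with rfl | hp
    · exact min_le_right _ _
    · exact (min_le_left _ _).trans (hr' p hp)

theorem exists_bd (P : Finset (ℝ × ℝ)) (f : ℝ × ℝ → ℝ → Prop)
    (hmono : ∀ p K K', K ≤ K' → f p K → f p K') (h : ∀ p ∈ P, ∃ K, f p K) (M : ℝ) :
    ∃ K, M ≤ K ∧ ∀ p ∈ P, f p K := by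
  classical
  induction P using Finset.induction_on with
  | empty => exact ⟨M, le_rfl, fun p hp => absurd hp (Finset.notMem_empty p)⟩
  | insert q P _ ih =>
    obtain ⟨K, hK, hK'⟩ := ih (fun p hp => h p (Finset.mem_insert_of_mem hp))
    obtain ⟨K2, hK2⟩ := h q (Finset.mem_insert_self _ _)
    refine ⟨max K K2, hK.trans (le_max_left _ _), fun p hp => ?_⟩
    rcases Finset.mem_insert.1 hp with rfl | hp
    · exact hmono _ _ _ (le_max_right _ _) hK2
    · exact hmono _ _ _ (le_max_left _ _) (hK' p hp)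

theorem null_of_bounded {C : Set ℝ} (hC : IsClosed C) {θ : ℝ} (h1 : θ ∈ C)
    (h2 : θ + 2 * Real.pi ∈ C) {a : ℕ → ℂ} {M : ℝ} (hM : ∀ t ∈ C, ∀ m, ‖T a m t‖ ≤ M)
    (hloc : ∀ t, t ∉ C → ∃ δ > 0, ∃ K, ∀ s, |s - t| < δ → ∀ N, ‖T a N s‖ ≤ K) :
    Tendsto a atTop (𝓝 0) := by
  classical
  have hM0 : 0 ≤ M := (norm_nonneg _).trans (hM θ h1 0)
  by_contra hcon
  rw [Metric.tendsto_atTop] at hcon
  push Not at hcon
  obtain ⟨A, hA, hcon⟩ := hcon
  have hinf : {n | A ≤ ‖a n‖}.Infinite := by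
    refine Set.infinite_of_forall_exists_gt (fun n0 => ?_)
    obtain ⟨n, hn, hn'⟩ := hcon (n0 + 1)
    exact ⟨n, by simpa [dist_zero_right] using hn', by omega⟩
  obtain ⟨P, hP, hPm⟩ := gap_approx hC h1 h2 (δ := A / (136 * M + 1)) (by positivity)
  obtain ⟨r1, hr1, hr1'⟩ := exists_pos_le P (fun p => (p.2 - p.1) / 4)
    (fun p hp => by have := (hP p hp).lt; linarith)
  set ρ : ℝ := min r1 (A / (P.card * (680 * M) + 1)) with hρ
  have hρ0 : 0 < ρ := lt_min hr1 (by positivity)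
  have hρl : ∀ p ∈ P, 4 * ρ ≤ p.2 - p.1 := fun p hp => by
    have h3 := hr1' p hp
    have h4 : ρ ≤ r1 := min_le_left _ _
    linarith
  have hρA : P.card * (680 * M * ρ) ≤ A := by
    have h3 : ρ ≤ A / (P.card * (680 * M) + 1) := min_le_right _ _
    rw [le_div_iff₀ (by positivity)] at h3
    nlinarith
  -- local bounds inside gaps
  have hKp : ∀ p ∈ P, ∃ K, ∀ t ∈ Icc (p.1 + ρ) (p.2 - ρ), ∀ N, ‖T a N t‖ ≤ K := by
    intro p hp
    refine (isCompact_Icc (a := p.1 + ρ) (b := p.2 - ρ)).induction_on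
      (p := fun s => ∃ K, ∀ t ∈ s, ∀ N, ‖T a N t‖ ≤ K) ?_ ?_ ?_ ?_
    · exact ⟨0, fun t ht => absurd ht (Set.notMem_empty t)⟩
    · rintro s t hst ⟨K, hK⟩
      exact ⟨K, fun x hx => hK x (hst hx)⟩
    · rintro s t ⟨K, hK⟩ ⟨K', hK'⟩
      refine ⟨max K K', ?_⟩
      rintro x (hx | hx) N
      · exact (hK x hx N).trans (le_max_left _ _)
      · exact (hK' x hx N).trans (le_max_right _ _)
    · intro t ht
      have htC : t ∉ C := (hP p hp).free t ⟨by linarith [ht.1], by linarith [ht.2]⟩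
      obtain ⟨δ, hδ, K, hK⟩ := hloc t htC
      exact ⟨Metric.ball t δ, mem_nhdsWithin_of_mem_nhds (Metric.ball_mem_nhds t hδ), K,
        fun s hs N => hK s (by rw [← Real.dist_eq]; exact hs) N⟩
  obtain ⟨K, hMK, hK⟩ := exists_bd P (fun p K => ∀ t ∈ Icc (p.1 + ρ) (p.2 - ρ), ∀ N, ‖T a N t‖ ≤ K)
    (fun p K K' hKK h t ht N => (h t ht N).trans hKK) hKp M
  have hK0 : 0 ≤ K := hM0.trans hMK
  -- weight
  set W : ℝ → ℝ := fun t => C.indicator (fun _ => 1) t +
    ∑ p ∈ P, (Ioo p.1 p.2).indicator (mm ρ p) t with hW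
  have hWm : Measurable W := by
    refine (measurable_const.indicator hC.measurableSet).add ?_
    refine Finset.measurable_sum _ (fun p _ => ?_)
    exact (mm_cont ρ p).measurable.indicator measurableSet_Ioo
  have hW1 : ∀ t ∈ C, W t = 1 := by
    intro t ht
    rw [hW]
    simp only
    rw [indicator_of_mem ht, Finset.sum_eq_zero, add_zero]
    intro p hp
    exact indicator_of_notMem (fun h => (hP p hp).free t h ht) _
  have hW2 : ∀ p ∈ P, ∀ t ∈ Ioo p.1 p.2, W t = mm ρ p t := by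
    intro p hp t ht
    rw [hW]
    simp only
    rw [indicator_of_notMem ((hP p hp).free t ht), zero_add, Finset.sum_eq_single p]
    · exact indicator_of_mem ht _
    · intro q hq hne
      exact indicator_of_notMem (fun h => Set.disjoint_left.1
        (gap_disj (hP q hq) (hP p hp) hne) h ht) _
    · intro h; exact absurd hp h
  have hW3 : ∀ t, t ∉ C → t ∉ UG P → W t = 0 := by
    intro t ht ht'
    rw [hW]
    simp only
    rw [indicator_of_notMem ht, zero_add]
    refine Finset.sum_eq_zero (fun p hp => ?_)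
    refine indicator_of_notMem (fun h => ht' ?_) _
    simp only [UG, mem_iUnion]
    exact ⟨p, hp, h⟩
  have hbd : ∀ N t, ‖(W t : ℂ) * T a N t‖ ≤ K := by
    intro N t
    rw [norm_mul, Complex.norm_real, Real.norm_eq_abs]
    by_cases htC : t ∈ C
    · rw [hW1 t htC, abs_one, one_mul]
      exact (hM t htC N).trans hMK
    · by_cases htU : t ∈ UG P
      · simp only [UG, mem_iUnion] at htU
        obtain ⟨p, hp, htp⟩ := htU
        rw [hW2 p hp t htp]
        by_cases hti : t ∈ Icc (p.1 + ρ) (p.2 - ρ)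
        · calc |mm ρ p t| * ‖T a N t‖ ≤ 1 * K :=
                mul_le_mul (mm_abs hρ0 (hρl p hp) t) (hK p hp t hti N) (norm_nonneg _) zero_le_one
            _ = K := one_mul K
        · rw [mm_zero hρ0 (hρl p hp) hti]; simpa using hK0
      · rw [hW3 t htC htU]; simpa using hK0
  -- key estimate
  have key : ∀ N n, n < N → A ≤ ‖a n‖ →
      A ≤ ‖∫ t in Ioo θ (θ + 2 * Real.pi), ((W t : ℂ) * T a N t) * ei (-(n * t))‖ := by
    intro N n hn hAn
    have hPhi := Phi_cont a N n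
    have hfi : IntegrableOn (Phi a N n) (Ioo θ (θ + 2 * Real.pi)) :=
      (hPhi.integrableOn_Icc (a := θ) (b := θ + 2 * Real.pi)).mono_set Ioo_subset_Icc_self
    have hTm := (T_cont a N).measurable
    have heim := ei_cont.measurable
    have hgi : IntegrableOn (fun t => ((W t : ℂ) * T a N t) * ei (-(n * t)))
        (Ioo θ (θ + 2 * Real.pi)) := by
      refine Measure.integrableOn_of_bounded (M := K) measure_Ioo_lt_top.ne ?_ ?_
      · refine Measurable.aestronglyMeasurable ?_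
        exact ((Complex.measurable_ofReal.comp hWm).mul hTm).mul
          (heim.comp (by fun_prop))
      · refine ae_of_all _ (fun t => ?_)
        rw [norm_mul, ei_norm, mul_one]
        exact hbd N t
    have d1 := decomp hC hP hfi
    have d2 := decomp hC hP hgi
    have p1 : ∫ x in Ioo θ (θ + 2 * Real.pi) ∩ C, ((W x : ℂ) * T a N x) * ei (-(n * x)) =
        ∫ x in Ioo θ (θ + 2 * Real.pi) ∩ C, Phi a N n x := by
      refine setIntegral_congr_fun (measurableSet_Ioo.inter hC.measurableSet) (fun t ht => ?_)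
      rw [hW1 t ht.2]
      simp [Phi]
    have p2 : ∀ p ∈ P, ∫ x in Ioo p.1 p.2, ((W x : ℂ) * T a N x) * ei (-(n * x)) =
        ∫ x in Ioo p.1 p.2, (mm ρ p x : ℂ) * Phi a N n x := by
      intro p hp
      refine setIntegral_congr_fun measurableSet_Ioo (fun t ht => ?_)
      rw [hW2 p hp t ht]
      simp only [Phi, mul_assoc]
    have p3 : ∫ x in (Ioo θ (θ + 2 * Real.pi) \ C) \ UG P, ((W x : ℂ) * T a N x) * ei (-(n * x)) = 0 := by
      have : ∫ x in (Ioo θ (θ + 2 * Real.pi) \ C) \ UG P, ((W x : ℂ) * T a N x) * ei (-(n * x)) =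
          ∫ x in (Ioo θ (θ + 2 * Real.pi) \ C) \ UG P, (0 : ℂ) := by
        refine setIntegral_congr_fun ((measurableSet_Ioo.diff hC.measurableSet).diff (UG_meas P))
          (fun t ht => ?_)
        rw [hW3 t ht.1.2 ht.2]
        simp
      rw [this]; simp
    rw [p1, Finset.sum_congr rfl p2, p3, add_zero] at d2
    have hr := rest_bound hC h1 h2 hP hPhi (L := 136 * M) (by positivity)
      (fun p hp => gap_int_bound hM hp hn)
    have hr2 : ‖∫ x in (Ioo θ (θ + 2 * Real.pi) \ C) \ UG P, Phi a N n x‖ ≤ A := by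
      refine hr.trans ?_
      calc 136 * M * volume.real ((Ioo θ (θ + 2 * Real.pi) \ C) \ UG P)
          ≤ 136 * M * (A / (136 * M + 1)) := by gcongr
        _ ≤ A := by
            rw [mul_div_assoc', div_le_iff₀ (by positivity)]
            nlinarith
    have hs : ‖∑ p ∈ P, ((∫ x in Ioo p.1 p.2, Phi a N n x) -
        ∫ x in Ioo p.1 p.2, (mm ρ p x : ℂ) * Phi a N n x)‖ ≤ A := by
      calc _ ≤ ∑ p ∈ P, ‖(∫ x in Ioo p.1 p.2, Phi a N n x) -
            ∫ x in Ioo p.1 p.2, (mm ρ p x : ℂ) * Phi a N n x‖ := norm_sum_le _ _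
        _ ≤ ∑ _p ∈ P, 680 * M * ρ :=
            Finset.sum_le_sum (fun p hp => mm_diff hM (hP p hp) hn hρ0 (hρl p hp))
        _ = P.card * (680 * M * ρ) := by simp
        _ ≤ A := hρA
    have hdiff : ((2 * Real.pi : ℝ) : ℂ) * a n -
        (∫ t in Ioo θ (θ + 2 * Real.pi), ((W t : ℂ) * T a N t) * ei (-(n * t))) =
        (∑ p ∈ P, ((∫ x in Ioo p.1 p.2, Phi a N n x) -
          ∫ x in Ioo p.1 p.2, (mm ρ p x : ℂ) * Phi a N n x)) +
        ∫ x in (Ioo θ (θ + 2 * Real.pi) \ C) \ UG P, Phi a N n x := by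
      rw [← Phi_int a hn θ, d1, d2, Finset.sum_sub_distrib]
      ring
    have hn2 : ‖((2 * Real.pi : ℝ) : ℂ) * a n -
        (∫ t in Ioo θ (θ + 2 * Real.pi), ((W t : ℂ) * T a N t) * ei (-(n * t)))‖ ≤ A + A := by
      rw [hdiff]
      exact (norm_add_le _ _).trans (add_le_add hs hr2)
    have hn3 : ‖((2 * Real.pi : ℝ) : ℂ) * a n‖ = 2 * Real.pi * ‖a n‖ := by
      rw [norm_mul, Complex.norm_real, Real.norm_of_nonneg (by positivity)]
    have hn4 := norm_sub_norm_le (((2 * Real.pi : ℝ) : ℂ) * a n)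
      (∫ t in Ioo θ (θ + 2 * Real.pi), ((W t : ℂ) * T a N t) * ei (-(n * t)))
    rw [hn3] at hn4
    have hpi := Real.pi_gt_three
    nlinarith
  -- conclusion by Bessel
  obtain ⟨c, hc⟩ := exists_nat_gt ((2 * Real.pi) ^ 2 * K ^ 2 / A ^ 2)
  obtain ⟨S, hS, hSc⟩ := hinf.exists_subset_card_eq c
  set N := S.sup id + 1 with hN
  have hmeas : Measurable (fun t => (W t : ℂ) * T a N t) :=
    (Complex.measurable_ofReal.comp hWm).mul (T_cont a N).measurable
  have hb := bessel (θ := θ) hmeas (hbd N) S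
  have hlow : (c : ℝ) * A ^ 2 ≤ ∑ n ∈ S,
      ‖∫ t in Ioo θ (θ + 2 * Real.pi), ((W t : ℂ) * T a N t) * ei (-(n * t))‖ ^ 2 := by
    rw [← hSc, ← nsmul_eq_mul, ← Finset.sum_const]
    refine Finset.sum_le_sum (fun n hn => ?_)
    have hnN : n < N := by
      have : n ≤ S.sup id := Finset.le_sup (f := id) hn
      omega
    have := key N n hnN (hS hn)
    gcongr
  rw [div_lt_iff₀ (by positivity)] at hc
  linarith

end
end Pool.Agent.PRz
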