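import Mathlib

set_option autoImplicit false
set_option linter.unusedSectionVars false

namespace Pool.Agent.Pa5e374

open MeasureTheory Set
open scoped ENNReal Pointwise

/-! ### One-dimensional Brunn–Minkowski -/

lemma bm_compact {P Q : Set ℝ} (hP : IsCompact P) (hQ : IsCompact Q) (hPn : P.Nonempty)
    (hQn : Q.Nonempty) : volume P + volume Q ≤ volume (P + Q) := by
  set p := sSup P with hp
  set q := sInf Q with hq
  have hpP : p ∈ P := hP.sSup_mem hPn
  have hqQ : q ∈ Q := hQ.sInf_mem hQn
  set A := (fun x => x + q) '' P with hA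
  set B := (fun y => p + y) '' Q with hB
  have hAm : MeasurableSet A := (hP.image (by fun_prop)).measurableSet
  have hBm : MeasurableSet B := (hQ.image (by fun_prop)).measurableSet
  have hAv : volume A = volume P := by
    rw [hA, image_add_right]
    exact measure_preimage_add_right volume _ _
  have hBv : volume B = volume Q := by
    rw [hB, image_add_left]
    exact measure_preimage_add volume _ _
  have hAB : A ∪ B ⊆ P + Q := by
    rintro z (⟨x, hx, rfl⟩ | ⟨y, hy, rfl⟩)
    · exact add_mem_add hx hqQ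
    · exact add_mem_add hpP hy
  have hint : A ∩ B ⊆ {p + q} := by
    rintro z ⟨⟨x, hx, rfl⟩, ⟨y, hy, hxy⟩⟩
    simp only at hxy ⊢
    have h1 : x ≤ p := le_csSup hP.bddAbove hx
    have h2 : q ≤ y := csInf_le hQ.bddBelow hy
    have : x + q = p + q := by linarith
    exact this
  have hdis : AEDisjoint volume A B := by
    unfold AEDisjoint
    refine measure_mono_null hint ?_
    simp
  rw [← hAv, ← hBv, ← measure_union₀ hBm.nullMeasurableSet hdis]
  exact measure_mono hAB

lemma bm_t {P Q S : Set ℝ} {t : ℝ} (h0 : 0 < t) (h1 : t < 1) (hP : MeasurableSet P)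
    (hQ : MeasurableSet Q) (hPn : P.Nonempty) (hQn : Q.Nonempty)
    (hS : ∀ x ∈ P, ∀ y ∈ Q, t * x + (1 - t) * y ∈ S) :
    ENNReal.ofReal t * volume P + ENNReal.ofReal (1 - t) * volume Q ≤ volume S := by
  obtain ⟨p0, hp0⟩ := hPn
  obtain ⟨q0, hq0⟩ := hQn
  have key : ∀ K1 : Set ℝ, K1 ⊆ P → IsCompact K1 → ∀ K2 : Set ℝ, K2 ⊆ Q → IsCompact K2 →
      ENNReal.ofReal t * volume K1 + ENNReal.ofReal (1 - t) * volume K2 ≤ volume S := by
    intro K1 hK1 hc1 K2 hK2 hc2
    set L1 := insert p0 K1 with hL1
    set L2 := insert q0 K2 with hL2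
    have hL1P : L1 ⊆ P := insert_subset hp0 hK1
    have hL2Q : L2 ⊆ Q := insert_subset hq0 hK2
    have hcL1 : IsCompact L1 := hc1.insert p0
    have hcL2 : IsCompact L2 := hc2.insert q0
    have hb := bm_compact (hcL1.smul t) (hcL2.smul (1 - t))
      ((insert_nonempty p0 K1).smul_set) ((insert_nonempty q0 K2).smul_set)
    rw [Measure.addHaar_smul, Measure.addHaar_smul] at hb
    simp only [Module.finrank_self, pow_one] at hb
    rw [abs_of_pos h0, abs_of_pos (by linarith : 0 < 1 - t)] at hb
    have hsub : t • L1 + (1 - t) • L2 ⊆ S := by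
      rintro z ⟨a, ⟨x, hx, rfl⟩, b, ⟨y, hy, rfl⟩, rfl⟩
      simp only [smul_eq_mul]
      exact hS x (hL1P hx) y (hL2Q hy)
    calc ENNReal.ofReal t * volume K1 + ENNReal.ofReal (1 - t) * volume K2
        ≤ ENNReal.ofReal t * volume L1 + ENNReal.ofReal (1 - t) * volume L2 := by
          gcongr
          · exact subset_insert _ _
          · exact subset_insert _ _
      _ ≤ volume (t • L1 + (1 - t) • L2) := hb
      _ ≤ volume S := measure_mono hsub
  have s1 : ∀ K2 : Set ℝ, K2 ⊆ Q → IsCompact K2 →
      ENNReal.ofReal t * volume P + ENNReal.ofReal (1 - t) * volume K2 ≤ volume S := by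
    intro K2 hK2 hc2
    by_cases hfin : volume S = ∞
    · rw [hfin]; exact le_top
    have hc : ENNReal.ofReal (1 - t) * volume K2 ≤ volume S := by
      have := key ∅ (empty_subset _) isCompact_empty K2 hK2 hc2
      simpa using this
    rw [hP.measure_eq_iSup_isCompact]
    simp only [ENNReal.mul_iSup]
    rw [← tsub_add_cancel_of_le hc]
    gcongr
    refine iSup_le fun K => iSup_le fun hK => iSup_le fun hKc => ?_
    have := key K hK hKc K2 hK2 hc2
    exact ENNReal.le_sub_of_add_le_right (ne_top_of_le_ne_top hfin hc) this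
  by_cases hfin : volume S = ∞
  · rw [hfin]; exact le_top
  have hc : ENNReal.ofReal t * volume P ≤ volume S := by
    have := s1 ∅ (empty_subset _) isCompact_empty
    simpa using this
  rw [hQ.measure_eq_iSup_isCompact]
  simp only [ENNReal.mul_iSup]
  rw [← add_tsub_cancel_of_le hc]
  gcongr
  refine iSup_le fun K => iSup_le fun hK => iSup_le fun hKc => ?_
  have := s1 K hK hKc
  rw [add_comm] at this
  exact ENNReal.le_sub_of_add_le_right (ne_top_of_le_ne_top hfin hc) this

/-- layer-cake form -/
lemma pl {f g h : ℝ → ℝ} {t : ℝ} (h0 : 0 < t) (h1 : t < 1) (hf : Measurable f) (hg : Measurable g)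
    (hh : Measurable h) (hf0 : ∀ x, 0 ≤ f x) (hg0 : ∀ x, 0 ≤ g x) (hh0 : ∀ x, 0 ≤ h x)
    (hf1 : ∀ x, f x ≤ 1) (hg1 : ∀ x, g x ≤ 1)
    (hfs : ∀ u < (1 : ℝ), ∃ x, u ≤ f x) (hgs : ∀ u < (1 : ℝ), ∃ x, u ≤ g x)
    (hyp : ∀ u : ℝ, 0 < u → u < 1 → ∀ x y, u ≤ f x → u ≤ g y → u ≤ h (t * x + (1 - t) * y)) :
    ENNReal.ofReal t * (∫⁻ x, ENNReal.ofReal (f x)) +
      ENNReal.ofReal (1 - t) * (∫⁻ x, ENNReal.ofReal (g x)) ≤ ∫⁻ x, ENNReal.ofReal (h x) := by
  rw [lintegral_eq_lintegral_meas_le volume (Filter.Eventually.of_forall hf0) hf.aemeasurable,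
    lintegral_eq_lintegral_meas_le volume (Filter.Eventually.of_forall hg0) hg.aemeasurable,
    lintegral_eq_lintegral_meas_le volume (Filter.Eventually.of_forall hh0) hh.aemeasurable]
  have hmf : Measurable (fun u : ℝ => volume {x | u ≤ f x}) :=
    (show Antitone (fun u : ℝ => volume {x | u ≤ f x}) from
      fun a b hab => measure_mono fun x hx => le_trans hab hx).measurable
  have hmg : Measurable (fun u : ℝ => volume {x | u ≤ g x}) :=
    (show Antitone (fun u : ℝ => volume {x | u ≤ g x}) from
      fun a b hab => measure_mono fun x hx => le_trans hab hx).measurable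
  rw [← lintegral_const_mul _ hmf, ← lintegral_const_mul _ hmg, ← lintegral_add_left (hmf.const_mul _)]
  have hne : ∀ᵐ u : ℝ, u ≠ 1 := by rw [ae_iff]; simp
  apply setLIntegral_mono_ae' measurableSet_Ioi
  filter_upwards [hne] with u hu1 hu0
  rcases lt_or_gt_of_ne hu1 with hu | hu
  · apply bm_t h0 h1 (measurableSet_le measurable_const hf) (measurableSet_le measurable_const hg)
      (hfs u hu) (hgs u hu)
    intro x hx y hy
    exact hyp u hu0 hu x y hx hy
  · have e1 : {x | u ≤ f x} = ∅ := by
      ext x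
      simp only [Set.mem_ofPred_eq, mem_empty_iff_false, iff_false, not_le]
      exact lt_of_le_of_lt (hf1 x) hu
    have e2 : {x | u ≤ g x} = ∅ := by
      ext x
      simp only [Set.mem_ofPred_eq, mem_empty_iff_false, iff_false, not_le]
      exact lt_of_le_of_lt (hg1 x) hu
    rw [e1, e2]
    simp

/-! ### The heavy-tailed law on the line -/

/-- density `1/(2(1+|y|)^2)` -/
noncomputable def rho (y : ℝ) : ℝ := 1 / (2 * (1 + |y|) ^ 2)

/-- its distribution function -/
noncomputable def Phi (y : ℝ) : ℝ := (1 + y / (1 + |y|)) / 2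

lemma rho_cont : Continuous rho := by
  unfold rho
  apply Continuous.div continuous_const (by fun_prop)
  intro y
  have := abs_nonneg y
  positivity

lemma rho_pos (y : ℝ) : 0 < rho y := by
  unfold rho
  have := abs_nonneg y
  positivity

lemma Phi_deriv (y : ℝ) : HasDerivAt Phi (rho y) y := by
  rcases lt_trichotomy y 0 with hy | hy | hy
  · have h1 : HasDerivAt (fun y : ℝ => (1 + y / (1 - y)) / 2) (rho y) y := by
      have h2 : (1 - y) ≠ 0 := by linarith
      have h3 := ((hasDerivAt_id y).div ((hasDerivAt_const y (1 : ℝ)).sub (hasDerivAt_id y)) h2)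
      have h4 := ((hasDerivAt_const y (1 : ℝ)).add h3).div_const 2
      refine HasDerivAt.congr_deriv (f := fun y : ℝ => (1 + y / (1 - y)) / 2) h4 ?_
      unfold rho
      rw [abs_of_neg hy, ← sub_eq_add_neg]
      simp only [id, Pi.sub_apply]
      field_simp
      ring
    apply h1.congr_of_eventuallyEq
    filter_upwards [Iio_mem_nhds hy] with z hz
    unfold Phi
    rw [abs_of_neg hz, sub_eq_add_neg]
  · subst hy
    have h1 : HasDerivAt (fun y : ℝ => y / (1 + |y|)) 1 0 := by
      rw [hasDerivAt_iff_tendsto_slope_zero]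
      have h2 : Filter.Tendsto (fun t : ℝ => 1 / (1 + |t|)) (nhdsWithin 0 {0}ᶜ) (nhds 1) := by
        have : Filter.Tendsto (fun t : ℝ => 1 / (1 + |t|)) (nhds 0) (nhds (1 / (1 + |0|))) := by
          apply Filter.Tendsto.div tendsto_const_nhds
          · exact (continuous_const.add continuous_abs).tendsto 0
          · simp
        simp only [abs_zero, add_zero, div_one] at this
        exact this.mono_left nhdsWithin_le_nhds
      refine h2.congr' ?_
      filter_upwards [self_mem_nhdsWithin] with t ht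
      have ht0 : t ≠ 0 := ht
      simp only [zero_add, zero_div, sub_zero, smul_eq_mul]
      field_simp
    have h4 := ((hasDerivAt_const (0 : ℝ) (1 : ℝ)).add h1).div_const 2
    refine HasDerivAt.congr_deriv (f := Phi) h4 ?_
    unfold rho
    simp
  · have h1 : HasDerivAt (fun y : ℝ => (1 + y / (1 + y)) / 2) (rho y) y := by
      have h2 : (1 + y) ≠ 0 := by linarith
      have h3 := ((hasDerivAt_id y).div ((hasDerivAt_const y (1 : ℝ)).add (hasDerivAt_id y)) h2)
      have h4 := ((hasDerivAt_const y (1 : ℝ)).add h3).div_const 2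
      refine HasDerivAt.congr_deriv (f := fun y : ℝ => (1 + y / (1 + y)) / 2) h4 ?_
      unfold rho
      rw [abs_of_pos hy]
      simp only [id, Pi.add_apply]
      field_simp
      ring
    apply h1.congr_of_eventuallyEq
    filter_upwards [Ioi_mem_nhds hy] with z hz
    unfold Phi
    rw [abs_of_pos hz]

lemma rho_integrable : Integrable rho := by
  refine (integrable_inv_one_add_sq).mono' rho_cont.aestronglyMeasurable ?_
  filter_upwards with y
  rw [Real.norm_of_nonneg (rho_pos y).le]
  unfold rho
  rw [one_div]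
  apply inv_anti₀ (by positivity)
  have h1 := abs_nonneg y
  have h2 : |y| ^ 2 = y ^ 2 := sq_abs y
  nlinarith

lemma Phi_top : Filter.Tendsto Phi Filter.atTop (nhds 1) := by
  have h1 : Filter.Tendsto (fun y : ℝ => 1 - (1 + y)⁻¹ / 2) Filter.atTop (nhds (1 - 0 / 2)) := by
    apply Filter.Tendsto.sub tendsto_const_nhds
    apply Filter.Tendsto.div_const
    exact tendsto_inv_atTop_zero.comp (Filter.tendsto_atTop_add_const_left _ _ Filter.tendsto_id)
  simp only [zero_div, sub_zero] at h1
  refine h1.congr' ?_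
  filter_upwards [Filter.eventually_gt_atTop 0] with y hy
  unfold Phi
  rw [abs_of_pos hy]
  have : 1 + y ≠ 0 := by linarith
  field_simp
  ring

lemma Phi_bot : Filter.Tendsto Phi Filter.atBot (nhds 0) := by
  have h1 := Phi_top.comp Filter.tendsto_neg_atBot_atTop
  have h2 : Filter.Tendsto (fun y => 1 - Phi (-y)) Filter.atBot (nhds (1 - 1)) :=
    Filter.Tendsto.sub tendsto_const_nhds h1
  rw [sub_self] at h2
  refine h2.congr ?_
  intro y
  unfold Phi
  rw [abs_neg]
  ring

lemma rho_total : ∫ y, rho y = 1 := by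
  rw [integral_of_hasDerivAt_of_tendsto Phi_deriv rho_integrable Phi_bot Phi_top]
  norm_num

/-- the law of `Y` -/
noncomputable def nu : Measure ℝ := volume.withDensity (fun y => ENNReal.ofReal (rho y))

lemma rho_meas : Measurable rho := rho_cont.measurable

instance nu_prob : IsProbabilityMeasure nu := by
  constructor
  unfold nu
  rw [withDensity_apply _ MeasurableSet.univ, setLIntegral_univ,
    ← ofReal_integral_eq_lintegral_ofReal rho_integrable
      (Filter.Eventually.of_forall fun y => (rho_pos y).le), rho_total]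
  simp

lemma scaled_integral {A : Set ℝ} (hA : MeasurableSet A) {α : ℝ} (hα : 0 < α) :
    ∫⁻ y, ENNReal.ofReal (A.indicator (fun y => (α / (1 + |y|)) ^ 2) y) =
      ENNReal.ofReal (2 * α ^ 2) * nu A := by
  unfold nu
  rw [withDensity_apply _ hA, ← lintegral_const_mul _ rho_meas.ennreal_ofReal,
    ← lintegral_indicator hA]
  congr 1
  funext y
  by_cases hy : y ∈ A
  · rw [indicator_of_mem hy, indicator_of_mem hy, ← ENNReal.ofReal_mul (by positivity)]
    congr 1
    unfold rho
    have := abs_nonneg y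
    field_simp
  · rw [indicator_of_notMem hy, indicator_of_notMem hy, ENNReal.ofReal_zero]

lemma nu_conc {A B C : Set ℝ} {t : ℝ} (h0 : 0 < t) (h1 : t < 1) (hA : IsCompact A)
    (hB : IsCompact B) (hC : MeasurableSet C) (hAn : A.Nonempty) (hBn : B.Nonempty)
    (hsub : ∀ x ∈ A, ∀ y ∈ B, t * x + (1 - t) * y ∈ C)
    (ha : 0 < (nu A).toReal) (hb : 0 < (nu B).toReal) :
    1 ≤ (nu C).toReal * (t / (nu A).toReal + (1 - t) / (nu B).toReal) := by
  have hphi : Continuous (fun y : ℝ => 1 + |y|) := by fun_prop
  obtain ⟨ya, hya, hmina⟩ := hA.exists_isMinOn hAn hphi.continuousOn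
  obtain ⟨yb, hyb, hminb⟩ := hB.exists_isMinOn hBn hphi.continuousOn
  set α := 1 + |ya| with hα
  set β := 1 + |yb| with hβ
  have hα0 : 0 < α := by have := abs_nonneg ya; positivity
  have hβ0 : 0 < β := by have := abs_nonneg yb; positivity
  set γ := t * α + (1 - t) * β with hγ
  have h1t : 0 < 1 - t := by linarith
  have hγ0 : 0 < γ := by positivity
  have hpos : ∀ y : ℝ, 0 < 1 + |y| := fun y => by have := abs_nonneg y; positivity
  have hm : ∀ (c : ℝ) (S : Set ℝ), MeasurableSet S →
      Measurable (S.indicator (fun y => (c / (1 + |y|)) ^ 2)) := by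
    intro c S hS
    apply Measurable.indicator _ hS
    exact (measurable_const.div (measurable_const.add measurable_norm)).pow_const 2
  have hnn : ∀ (c : ℝ) (S : Set ℝ) (y : ℝ), 0 ≤ S.indicator (fun y => (c / (1 + |y|)) ^ 2) y := by
    intro c S y
    apply indicator_nonneg
    intro y _; positivity
  have key := pl (f := A.indicator (fun y => (α / (1 + |y|)) ^ 2))
    (g := B.indicator (fun y => (β / (1 + |y|)) ^ 2))
    (h := C.indicator (fun y => (γ / (1 + |y|)) ^ 2)) h0 h1
    (hm α A hA.measurableSet) (hm β B hB.measurableSet) (hm γ C hC) (hnn α A) (hnn β B) (hnn γ C)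
    (by
      intro x
      by_cases hx : x ∈ A
      · rw [indicator_of_mem hx]
        have h2 : α ≤ 1 + |x| := hmina hx
        have h3 : α / (1 + |x|) ≤ 1 := by rw [div_le_one (hpos x)]; exact h2
        exact pow_le_one₀ (div_nonneg hα0.le (hpos x).le) h3
      · rw [indicator_of_notMem hx]; norm_num)
    (by
      intro x
      by_cases hx : x ∈ B
      · rw [indicator_of_mem hx]
        have h2 : β ≤ 1 + |x| := hminb hx
        have h3 : β / (1 + |x|) ≤ 1 := by rw [div_le_one (hpos x)]; exact h2
        exact pow_le_one₀ (div_nonneg hβ0.le (hpos x).le) h3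
      · rw [indicator_of_notMem hx]; norm_num)
    (by
      intro u hu
      refine ⟨ya, ?_⟩
      rw [indicator_of_mem hya, ← hα, div_self hα0.ne']
      linarith)
    (by
      intro u hu
      refine ⟨yb, ?_⟩
      rw [indicator_of_mem hyb, ← hβ, div_self hβ0.ne']
      linarith)
    (by
      intro u hu0 hu1 x y hx hy
      have hxA : x ∈ A := by
        by_contra h
        rw [indicator_of_notMem h] at hx
        linarith
      have hyB : y ∈ B := by
        by_contra h
        rw [indicator_of_notMem h] at hy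
        linarith
      rw [indicator_of_mem hxA] at hx
      rw [indicator_of_mem hyB] at hy
      rw [indicator_of_mem (hsub x hxA y hyB)]
      set r := √u with hr
      have hr0 : 0 < r := Real.sqrt_pos.2 hu0
      have hru : r ^ 2 = u := Real.sq_sqrt hu0.le
      have ex : r ≤ α / (1 + |x|) :=
        Real.sqrt_le_iff.2 ⟨div_nonneg hα0.le (hpos x).le, hx⟩
      have ey : r ≤ β / (1 + |y|) :=
        Real.sqrt_le_iff.2 ⟨div_nonneg hβ0.le (hpos y).le, hy⟩
      rw [le_div_iff₀ (hpos x)] at ex
      rw [le_div_iff₀ (hpos y)] at ey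
      have hz : 1 + |t * x + (1 - t) * y| ≤ t * (1 + |x|) + (1 - t) * (1 + |y|) := by
        have := abs_add_le (t * x) ((1 - t) * y)
        rw [abs_mul, abs_mul, abs_of_pos h0, abs_of_pos h1t] at this
        linarith
      have e3 : r * (1 + |t * x + (1 - t) * y|) ≤ γ := by
        calc r * (1 + |t * x + (1 - t) * y|) ≤ r * (t * (1 + |x|) + (1 - t) * (1 + |y|)) :=
              mul_le_mul_of_nonneg_left hz hr0.le
          _ = t * (r * (1 + |x|)) + (1 - t) * (r * (1 + |y|)) := by ring
          _ ≤ t * α + (1 - t) * β := by gcongr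
      rw [← hru]
      apply pow_le_pow_left₀ hr0.le
      rw [le_div_iff₀ (hpos _)]
      exact e3)
  rw [scaled_integral hA.measurableSet hα0, scaled_integral hB.measurableSet hβ0,
    scaled_integral hC hγ0] at key
  set a := (nu A).toReal with hadef
  set b := (nu B).toReal with hbdef
  set c := (nu C).toReal with hcdef
  have eA : nu A = ENNReal.ofReal a := (ENNReal.ofReal_toReal (measure_ne_top nu A)).symm
  have eB : nu B = ENNReal.ofReal b := (ENNReal.ofReal_toReal (measure_ne_top nu B)).symm
  have eC : nu C = ENNReal.ofReal c := (ENNReal.ofReal_toReal (measure_ne_top nu C)).symm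
  have hc0 : 0 ≤ c := ENNReal.toReal_nonneg
  rw [eA, eB, eC, ← ENNReal.ofReal_mul (by positivity), ← ENNReal.ofReal_mul (by positivity),
    ← ENNReal.ofReal_mul (by positivity), ← ENNReal.ofReal_mul (by positivity),
    ← ENNReal.ofReal_mul (by positivity), ← ENNReal.ofReal_add (by positivity) (by positivity),
    ENNReal.ofReal_le_ofReal_iff (by positivity)] at key
  have key2 : t * α ^ 2 * a + (1 - t) * β ^ 2 * b ≤ γ ^ 2 * c := by nlinarith
  have cs : γ ^ 2 ≤ (t * α ^ 2 * a + (1 - t) * β ^ 2 * b) * (t / a + (1 - t) / b) := by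
    have e : (t * α ^ 2 * a + (1 - t) * β ^ 2 * b) * (t / a + (1 - t) / b) =
        γ ^ 2 + t * (1 - t) * (α * a - β * b) ^ 2 / (a * b) := by
      rw [hγ]; field_simp; ring
    rw [e]
    have : 0 ≤ t * (1 - t) * (α * a - β * b) ^ 2 / (a * b) := by positivity
    linarith
  have hpos2 : 0 < t / a + (1 - t) / b := by positivity
  have : γ ^ 2 ≤ γ ^ 2 * (c * (t / a + (1 - t) / b)) := by
    calc γ ^ 2 ≤ (t * α ^ 2 * a + (1 - t) * β ^ 2 * b) * (t / a + (1 - t) / b) := cs
      _ ≤ (γ ^ 2 * c) * (t / a + (1 - t) / b) := mul_le_mul_of_nonneg_right key2 hpos2.le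
      _ = _ := by ring
  have hg2 : 0 < γ ^ 2 := by positivity
  by_contra hcon
  rw [not_le] at hcon
  nlinarith

end Pool.Agent.Pa5e374
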