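import Pool.Agent.Pa5e374

set_option autoImplicit false
set_option linter.unusedSectionVars false

namespace Pool.Agent.Pa5e374

open MeasureTheory Set
open scoped ENNReal Pointwise

/-- the uniform law on `[-1,1]`-/
noncomputable def fU (x : ℝ) : ℝ := if |x| ≤ 1 then 1 / 2 else 0

lemma fU_nonneg (x : ℝ) : 0 ≤ fU x := by unfold fU; split_ifs <;> norm_num

lemma fU_meas : Measurable fU := by
  unfold fU
  exact Measurable.ite (measurableSet_le measurable_norm measurable_const) measurable_const
    measurable_const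

noncomputable def mu1 : Measure ℝ := volume.withDensity (fun x => ENNReal.ofReal (fU x))

lemma lint_mu1 {g : ℝ → ℝ≥0∞} (hg : Measurable g) :
    ∫⁻ x, g x ∂mu1 = ENNReal.ofReal (1/2) * ∫⁻ x in Icc (-1) 1, g x := by
  unfold mu1
  rw [lintegral_withDensity_eq_lintegral_mul _ fU_meas.ennreal_ofReal hg,
    ← lintegral_const_mul _ hg, ← lintegral_indicator measurableSet_Icc]
  congr 1
  funext x
  simp only [Pi.mul_apply]
  by_cases hx : x ∈ Icc (-1 : ℝ) 1
  · rw [indicator_of_mem hx]
    unfold fU
    rw [if_pos (abs_le.2 hx)]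
  · rw [indicator_of_notMem hx]
    unfold fU
    rw [if_neg (fun h => hx (abs_le.1 h))]
    simp

instance mu1_prob : IsProbabilityMeasure mu1 := by
  constructor
  rw [← lintegral_one, lint_mu1 measurable_const]
  simp only [lintegral_const, one_mul, Measure.restrict_apply MeasurableSet.univ, univ_inter,
    Real.volume_Icc]
  rw [← ENNReal.ofReal_mul (by norm_num)]
  norm_num

/-- the joint law of `(X,Y)` -/
noncomputable def m2 : Measure (ℝ × ℝ) := mu1.prod nu

instance m2_prob : IsProbabilityMeasure m2 := by unfold m2; infer_instance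

/-- section masses -/
noncomputable def sec (A : Set (ℝ × ℝ)) (x : ℝ) : ℝ :=
  if x ∈ Icc (-1 : ℝ) 1 then (nu (Prod.mk x ⁻¹' A)).toReal else 0

lemma sec_nonneg (A : Set (ℝ × ℝ)) (x : ℝ) : 0 ≤ sec A x := by
  unfold sec; split_ifs
  · exact ENNReal.toReal_nonneg
  · exact le_rfl

lemma sec_le_one (A : Set (ℝ × ℝ)) (x : ℝ) : sec A x ≤ 1 := by
  unfold sec; split_ifs
  · have h : nu (Prod.mk x ⁻¹' A) ≤ 1 := prob_le_one
    exact ENNReal.toReal_le_of_le_ofReal (by norm_num) (by simpa using h)
  · norm_num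

lemma sec_meas {A : Set (ℝ × ℝ)} (hA : MeasurableSet A) : Measurable (sec A) := by
  unfold sec
  exact Measurable.ite measurableSet_Icc (measurable_measure_prodMk_left hA).ennreal_toReal
    measurable_const

lemma m2_eq {A : Set (ℝ × ℝ)} (hA : MeasurableSet A) :
    m2 A = ENNReal.ofReal (1/2) * ∫⁻ x, ENNReal.ofReal (sec A x) := by
  unfold m2
  rw [Measure.prod_apply hA, lint_mu1 (measurable_measure_prodMk_left hA),
    ← lintegral_indicator measurableSet_Icc]
  congr 2
  funext x
  unfold sec
  by_cases hx : x ∈ Icc (-1 : ℝ) 1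
  · rw [indicator_of_mem hx, if_pos hx, ENNReal.ofReal_toReal (measure_ne_top _ _)]
  · rw [indicator_of_notMem hx, if_neg hx, ENNReal.ofReal_zero]

lemma sec_bdd (A : Set (ℝ × ℝ)) : BddAbove (range (sec A)) :=
  ⟨1, by rintro _ ⟨x, rfl⟩; exact sec_le_one A x⟩

lemma sup_pos {A : Set (ℝ × ℝ)} (hA : MeasurableSet A) (hpos : 0 < m2 A) :
    0 < ⨆ x, sec A x := by
  by_contra hcon
  rw [not_lt] at hcon
  have h0 : ∀ x, sec A x = 0 := fun x =>
    le_antisymm ((le_ciSup (sec_bdd A) x).trans hcon) (sec_nonneg A x)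
  rw [m2_eq hA] at hpos
  simp [h0] at hpos

lemma sec_compact {A : Set (ℝ × ℝ)} (hA : IsCompact A) (x : ℝ) :
    IsCompact (Prod.mk x ⁻¹' A) := by
  have h1 : (Prod.mk x ⁻¹' A) = Prod.snd '' (A ∩ ({x} ×ˢ univ)) := by
    ext y
    constructor
    · intro hy
      exact ⟨(x, y), ⟨hy, by simp⟩, rfl⟩
    · rintro ⟨⟨a, b⟩, ⟨h1, h2⟩, rfl⟩
      simp only [mem_prod, mem_singleton_iff, mem_univ, and_true] at h2
      subst h2
      exact h1
  rw [h1]
  exact (hA.inter_right (isClosed_singleton.prod isClosed_univ)).image continuous_snd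

lemma m2_qc {A B : Set (ℝ × ℝ)} (hA : IsCompact A) (hB : IsCompact B) (hpA : 0 < m2 A)
    (hpB : 0 < m2 B) {t : ℝ} (h0 : 0 < t) (h1 : t < 1) :
    min (m2 A).toReal (m2 B).toReal ≤ (m2 (t • A + (1 - t) • B)).toReal := by
  set C := t • A + (1 - t) • B with hC
  have hCc : IsCompact C := (hA.smul t).add (hB.smul (1 - t))
  have hAm := hA.measurableSet
  have hBm := hB.measurableSet
  have hCm := hCc.measurableSet
  have h1t : 0 < 1 - t := by linarith
  set MA := ⨆ x, sec A x with hMA
  set MB := ⨆ x, sec B x with hMB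
  have hMA0 : 0 < MA := sup_pos hAm hpA
  have hMB0 : 0 < MB := sup_pos hBm hpB
  set K := t / MA + (1 - t) / MB with hK
  have hK0 : 0 < K := by positivity
  have key := pl (f := fun x => sec A x / MA) (g := fun x => sec B x / MB)
    (h := fun x => sec C x * K) h0 h1 ((sec_meas hAm).div_const _) ((sec_meas hBm).div_const _)
    ((sec_meas hCm).mul_const _)
    (fun x => div_nonneg (sec_nonneg A x) hMA0.le) (fun x => div_nonneg (sec_nonneg B x) hMB0.le)
    (fun x => mul_nonneg (sec_nonneg C x) hK0.le)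
    (fun x => by rw [div_le_one hMA0]; exact le_ciSup (sec_bdd A) x)
    (fun x => by rw [div_le_one hMB0]; exact le_ciSup (sec_bdd B) x)
    (by
      intro u hu
      have : u * MA < MA := by nlinarith
      obtain ⟨x, hx⟩ := exists_lt_of_lt_ciSup this
      exact ⟨x, by rw [le_div_iff₀ hMA0]; exact hx.le⟩)
    (by
      intro u hu
      have : u * MB < MB := by nlinarith
      obtain ⟨x, hx⟩ := exists_lt_of_lt_ciSup this
      exact ⟨x, by rw [le_div_iff₀ hMB0]; exact hx.le⟩)
    (by
      intro u hu0 hu1 x y hx hy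
      rw [le_div_iff₀ hMA0] at hx
      rw [le_div_iff₀ hMB0] at hy
      have hx0 : 0 < sec A x := lt_of_lt_of_le (by positivity) hx
      have hy0 : 0 < sec B y := lt_of_lt_of_le (by positivity) hy
      have hxI : x ∈ Icc (-1 : ℝ) 1 := by
        by_contra h
        unfold sec at hx0
        rw [if_neg h] at hx0
        exact lt_irrefl _ hx0
      have hyI : y ∈ Icc (-1 : ℝ) 1 := by
        by_contra h
        unfold sec at hy0
        rw [if_neg h] at hy0
        exact lt_irrefl _ hy0
      have hzI : t * x + (1 - t) * y ∈ Icc (-1 : ℝ) 1 :=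
        (convex_Icc (-1 : ℝ) 1) hxI hyI h0.le h1t.le (by ring)
      have eA : sec A x = (nu (Prod.mk x ⁻¹' A)).toReal := by unfold sec; rw [if_pos hxI]
      have eB : sec B y = (nu (Prod.mk y ⁻¹' B)).toReal := by unfold sec; rw [if_pos hyI]
      have eC : sec C (t * x + (1 - t) * y) =
        (nu (Prod.mk (t * x + (1 - t) * y) ⁻¹' C)).toReal := by unfold sec; rw [if_pos hzI]
      have hne1 : (Prod.mk x ⁻¹' A).Nonempty := by
        rw [nonempty_iff_ne_empty]
        intro h
        rw [eA, h] at hx0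
        simp at hx0
      have hne2 : (Prod.mk y ⁻¹' B).Nonempty := by
        rw [nonempty_iff_ne_empty]
        intro h
        rw [eB, h] at hy0
        simp at hy0
      have := nu_conc (C := Prod.mk (t * x + (1 - t) * y) ⁻¹' C) h0 h1 (sec_compact hA x)
        (sec_compact hB y) (sec_compact hCc _).measurableSet hne1 hne2
        (by
          intro p hp q hq
          have e1 : ((t * x + (1 - t) * y, t * p + (1 - t) * q) : ℝ × ℝ) =
              t • (x, p) + (1 - t) • (y, q) := by
            ext <;> simp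
          show ((t * x + (1 - t) * y, t * p + (1 - t) * q) : ℝ × ℝ) ∈ C
          rw [e1, hC]
          exact add_mem_add (smul_mem_smul_set hp) (smul_mem_smul_set hq)) (eA ▸ hx0) (eB ▸ hy0)
      rw [← eA, ← eB, ← eC] at this
      have h2 : t / sec A x + (1 - t) / sec B y ≤ K / u := by
        rw [hK, add_div, div_div, div_div]
        gcongr
        · rw [mul_comm]; exact hx
        · rw [mul_comm]; exact hy
      have h3 : 1 ≤ sec C (t * x + (1 - t) * y) * (K / u) :=
        this.trans (mul_le_mul_of_nonneg_left h2 (sec_nonneg _ _))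
      rw [← mul_div_assoc, le_div_iff₀ hu0, one_mul] at h3
      exact h3)
  -- rewrite in terms of m2
  have hfin : ∀ S : Set (ℝ × ℝ), MeasurableSet S →
      ∫⁻ x, ENNReal.ofReal (sec S x) = ENNReal.ofReal (2 * (m2 S).toReal) := by
    intro S hS
    rw [ENNReal.ofReal_mul (by norm_num), ENNReal.ofReal_toReal (measure_ne_top _ _), m2_eq hS,
      ← mul_assoc, ← ENNReal.ofReal_mul (by norm_num)]
    norm_num
  have eF : ∫⁻ x, ENNReal.ofReal (sec A x / MA) = ENNReal.ofReal (2 * (m2 A).toReal / MA) := by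
    rw [div_eq_mul_inv, ENNReal.ofReal_mul (by positivity), ← hfin A hAm,
      ← lintegral_mul_const _ (sec_meas hAm).ennreal_ofReal]
    congr 1
    funext x
    rw [div_eq_mul_inv, ENNReal.ofReal_mul (sec_nonneg A x)]
  have eG : ∫⁻ x, ENNReal.ofReal (sec B x / MB) = ENNReal.ofReal (2 * (m2 B).toReal / MB) := by
    rw [div_eq_mul_inv, ENNReal.ofReal_mul (by positivity), ← hfin B hBm,
      ← lintegral_mul_const _ (sec_meas hBm).ennreal_ofReal]
    congr 1
    funext x
    rw [div_eq_mul_inv, ENNReal.ofReal_mul (sec_nonneg B x)]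
  have eH : ∫⁻ x, ENNReal.ofReal (sec C x * K) = ENNReal.ofReal (2 * (m2 C).toReal * K) := by
    rw [ENNReal.ofReal_mul (by positivity), ← hfin C hCm,
      ← lintegral_mul_const _ (sec_meas hCm).ennreal_ofReal]
    congr 1
    funext x
    rw [ENNReal.ofReal_mul (sec_nonneg C x)]
  rw [eF, eG, eH] at key
  set a := (m2 A).toReal with hadef
  set b := (m2 B).toReal with hbdef
  set c := (m2 C).toReal with hcdef
  have ha0 : 0 ≤ a := ENNReal.toReal_nonneg
  have hb0 : 0 ≤ b := ENNReal.toReal_nonneg
  have hc0 : 0 ≤ c := ENNReal.toReal_nonneg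
  rw [← ENNReal.ofReal_mul h0.le, ← ENNReal.ofReal_mul h1t.le,
    ← ENNReal.ofReal_add (by positivity) (by positivity),
    ENNReal.ofReal_le_ofReal_iff (by positivity)] at key
  have h5 : min a b * K ≤ c * K := by
    have e1 : min a b * K = t / MA * min a b + (1 - t) / MB * min a b := by rw [hK]; ring
    have e2 : t / MA * min a b ≤ t / MA * a := by gcongr; exact min_le_left _ _
    have e3 : (1 - t) / MB * min a b ≤ (1 - t) / MB * b := by gcongr; exact min_le_right _ _
    have e4 : t * (2 * a / MA) + (1 - t) * (2 * b / MB) = 2 * (t / MA * a + (1 - t) / MB * b) := by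
      field_simp
    rw [e4] at key
    linarith
  exact le_of_mul_le_mul_right h5 hK0

/-! ### the linear change of variables -/

/-- the law of `(X, X+Y)` -/
noncomputable def mu : Measure (ℝ × ℝ) := m2.map (fun p => (p.1, p.1 + p.2))

lemma T_meas : Measurable (fun p : ℝ × ℝ => (p.1, p.1 + p.2)) := by fun_prop

instance mu_prob : IsProbabilityMeasure mu := by
  unfold mu
  exact Measure.isProbabilityMeasure_map T_meas.aemeasurable

lemma T_compact {A : Set (ℝ × ℝ)} (hA : IsCompact A) :
    IsCompact ((fun p : ℝ × ℝ => (p.1, p.1 + p.2)) ⁻¹' A) := by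
  have : (fun p : ℝ × ℝ => (p.1, p.1 + p.2)) ⁻¹' A = (fun p : ℝ × ℝ => (p.1, p.2 - p.1)) '' A := by
    rw [image_eq_preimage_of_inverse (g := fun p : ℝ × ℝ => (p.1, p.1 + p.2))]
    · intro p; simp
    · intro p; simp
  rw [this]
  exact hA.image (by fun_prop)

lemma mu_qc {A B : Set (ℝ × ℝ)} (hA : IsCompact A) (hB : IsCompact B) (hpA : 0 < mu A)
    (hpB : 0 < mu B) {t : ℝ} (h0 : 0 < t) (h1 : t < 1) :
    min (mu A).toReal (mu B).toReal ≤ (mu (t • A + (1 - t) • B)).toReal := by
  have hCc : IsCompact (t • A + (1 - t) • B) := (hA.smul t).add (hB.smul (1 - t))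
  unfold mu at *
  rw [Measure.map_apply T_meas hA.measurableSet] at *
  rw [Measure.map_apply T_meas hB.measurableSet] at *
  rw [Measure.map_apply T_meas hCc.measurableSet]
  refine (m2_qc (T_compact hA) (T_compact hB) hpA hpB h0 h1).trans ?_
  apply ENNReal.toReal_mono (measure_ne_top _ _)
  apply measure_mono
  rintro z ⟨a, ⟨x, hx, rfl⟩, b, ⟨y, hy, rfl⟩, rfl⟩
  have e : ((fun p : ℝ × ℝ => (p.1, p.1 + p.2)) (t • x + (1 - t) • y)) =
      t • (fun p : ℝ × ℝ => (p.1, p.1 + p.2)) x + (1 - t) • (fun p : ℝ × ℝ => (p.1, p.1 + p.2)) y := by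
    ext
    · simp
    · simp; ring
  simp only [mem_preimage] at hx hy ⊢
  rw [show (t • x + (1 - t) • y).1 = t * x.1 + (1 - t) * y.1 by simp,
    show (t • x + (1 - t) • y).2 = t * x.2 + (1 - t) * y.2 by simp]
  have := add_mem_add (smul_mem_smul_set (a := t) hx) (smul_mem_smul_set (a := 1 - t) hy)
  convert this using 1
  ext
  · simp
  · simp; ring

/-! ### symmetry -/

lemma nu_neg : nu.map (fun x => -x) = nu := by
  unfold nu
  ext S hS
  rw [Measure.map_apply measurable_neg hS, withDensity_apply _ (measurable_neg hS),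
    withDensity_apply _ hS]
  rw [← lintegral_indicator (measurable_neg hS), ← lintegral_indicator hS]
  rw [← lintegral_neg_eq_self (fun x => S.indicator _ x)]
  congr 1
  funext x
  by_cases hx : -x ∈ S
  · rw [indicator_of_mem hx, indicator_of_mem (show x ∈ (fun x => -x) ⁻¹' S from hx)]
    unfold rho
    rw [abs_neg]
  · rw [indicator_of_notMem hx, indicator_of_notMem (show x ∉ (fun x => -x) ⁻¹' S from hx)]

lemma mu1_neg : mu1.map (fun x => -x) = mu1 := by
  unfold mu1
  ext S hS
  rw [Measure.map_apply measurable_neg hS, withDensity_apply _ (measurable_neg hS),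
    withDensity_apply _ hS]
  rw [← lintegral_indicator (measurable_neg hS), ← lintegral_indicator hS]
  rw [← lintegral_neg_eq_self (fun x => S.indicator _ x)]
  congr 1
  funext x
  by_cases hx : -x ∈ S
  · rw [indicator_of_mem hx, indicator_of_mem (show x ∈ (fun x => -x) ⁻¹' S from hx)]
    unfold fU
    rw [abs_neg]
  · rw [indicator_of_notMem hx, indicator_of_notMem (show x ∉ (fun x => -x) ⁻¹' S from hx)]

lemma m2_neg : m2.map (fun x => -x) = m2 := by
  unfold m2
  have h := Measure.map_prod_map mu1 nu measurable_neg measurable_neg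
  have h1 : mu1.map Neg.neg = mu1 := mu1_neg
  have h2 : nu.map Neg.neg = nu := nu_neg
  rw [h1, h2] at h
  exact h.symm

lemma mu_neg : mu.map (fun x => -x) = mu := by
  unfold mu
  conv_rhs => rw [← m2_neg]
  rw [Measure.map_map measurable_neg T_meas, Measure.map_map T_meas measurable_neg]
  congr 1
  funext p
  ext
  · simp
  · simp; ring

end Pool.Agent.Pa5e374
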