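import Pool.Agent.Pa5e374b

set_option autoImplicit false
set_option linter.unusedSectionVars false

namespace Pool.Agent.Pa5e374

open MeasureTheory Set
open scoped ENNReal Pointwise

/-- density of `a X + Y` -/
noncomputable def dens (a v : ℝ) : ℝ := (Phi (v + a) - Phi (v - a)) / (2 * a)

lemma Phi_cont : Continuous Phi := by
  rw [continuous_iff_continuousAt]
  exact fun y => (Phi_deriv y).continuousAt

lemma Phi_mono : Monotone Phi :=
  monotone_of_deriv_nonneg (fun y => (Phi_deriv y).differentiableAt)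
    (fun y => by rw [(Phi_deriv y).deriv]; exact (rho_pos y).le)

lemma dens_meas (a : ℝ) : Measurable (dens a) := by
  unfold dens
  have h := Phi_cont.measurable
  fun_prop

lemma dens_nonneg {a : ℝ} (ha : 0 < a) (v : ℝ) : 0 ≤ dens a v := by
  unfold dens
  apply div_nonneg _ (by positivity)
  have := Phi_mono (show v - a ≤ v + a by linarith)
  linarith

lemma inner_int {a : ℝ} (ha : 0 < a) (v : ℝ) :
    ∫⁻ x, ENNReal.ofReal (rho (v - a * x)) ∂mu1 = ENNReal.ofReal (dens a v) := by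
  rw [lint_mu1 (by have := rho_meas; fun_prop)]
  have hint : IntegrableOn (fun x => rho (v - a * x)) (Icc (-1) 1) := by
    apply Continuous.integrableOn_Icc
    exact rho_cont.comp (by fun_prop)
  rw [← ofReal_integral_eq_lintegral_ofReal hint
    (Filter.Eventually.of_forall fun y => (rho_pos _).le), ← ENNReal.ofReal_mul (by norm_num)]
  congr 1
  rw [integral_Icc_eq_integral_Ioc, ← intervalIntegral.integral_of_le (by norm_num)]
  have hd : ∀ x ∈ uIcc (-1 : ℝ) 1, HasDerivAt (fun x => -(1 / a) * Phi (v - a * x))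
      (rho (v - a * x)) x := by
    intro x _
    have h1 : HasDerivAt (fun x : ℝ => v - a * x) (-a) x := by
      have := ((hasDerivAt_id x).const_mul a).const_sub v
      simpa using this
    have h2 := ((Phi_deriv (v - a * x)).comp x h1).const_mul (-(1 / a))
    refine h2.congr_deriv ?_
    field_simp
  rw [intervalIntegral.integral_eq_sub_of_hasDerivAt hd]
  · unfold dens
    rw [show v - a * 1 = v - a by ring, show v - a * -1 = v + a by ring]
    field_simp
    ring
  · exact (rho_cont.comp (by fun_prop)).intervalIntegrable _ _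

lemma law_lin {a : ℝ} (ha : 0 < a) :
    m2.map (fun p => a * p.1 + p.2) = volume.withDensity (fun v => ENNReal.ofReal (dens a v)) := by
  have hmeas : Measurable (fun p : ℝ × ℝ => a * p.1 + p.2) := by fun_prop
  ext S hS
  rw [Measure.map_apply hmeas hS, withDensity_apply _ hS]
  unfold m2
  rw [Measure.prod_apply (hmeas hS)]
  have e1 : ∀ x : ℝ, nu (Prod.mk x ⁻¹' ((fun p : ℝ × ℝ => a * p.1 + p.2) ⁻¹' S)) =
      ∫⁻ v in S, ENNReal.ofReal (rho (v - a * x)) := by
    intro x
    have hS' : MeasurableSet (Prod.mk x ⁻¹' ((fun p : ℝ × ℝ => a * p.1 + p.2) ⁻¹' S)) :=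
      measurable_prodMk_left (hmeas hS)
    unfold nu
    rw [withDensity_apply _ hS', ← lintegral_indicator hS', ← lintegral_indicator hS]
    rw [← lintegral_add_right_eq_self (fun v => S.indicator _ v) (a * x)]
    congr 1
    funext y
    by_cases hy : y + a * x ∈ S
    · rw [indicator_of_mem hy, indicator_of_mem
        (show y ∈ Prod.mk x ⁻¹' ((fun p : ℝ × ℝ => a * p.1 + p.2) ⁻¹' S) by
          show a * x + y ∈ S
          rwa [add_comm])]
      congr 2
      ring
    · rw [indicator_of_notMem hy, indicator_of_notMem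
        (show y ∉ Prod.mk x ⁻¹' ((fun p : ℝ × ℝ => a * p.1 + p.2) ⁻¹' S) by
          show ¬ (a * x + y ∈ S)
          rwa [add_comm])]
  simp_rw [e1]
  rw [lintegral_lintegral_swap]
  · congr 1
    funext v
    exact inner_int ha v
  · have := rho_meas
    apply Measurable.aemeasurable
    fun_prop

lemma mu_fst : mu.map Prod.fst = volume.withDensity (fun x => ENNReal.ofReal (fU x)) := by
  unfold mu
  rw [Measure.map_map measurable_fst T_meas]
  have : (Prod.fst ∘ fun p : ℝ × ℝ => (p.1, p.1 + p.2)) = Prod.fst := by ext p; rfl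
  rw [this]
  unfold m2
  rw [Measure.map_fst_prod, measure_univ, one_smul]
  rfl

lemma mu_snd : mu.map Prod.snd = volume.withDensity (fun x => ENNReal.ofReal (dens 1 x)) := by
  unfold mu
  rw [Measure.map_map measurable_snd T_meas]
  have : (Prod.snd ∘ fun p : ℝ × ℝ => (p.1, p.1 + p.2)) = fun p : ℝ × ℝ => 1 * p.1 + p.2 := by
    ext p
    simp
  rw [this, law_lin one_pos]

lemma mu_sum : mu.map (fun x => x.1 + x.2) =
    volume.withDensity (fun x => ENNReal.ofReal (dens 2 x)) := by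
  unfold mu
  rw [Measure.map_map (by fun_prop) T_meas]
  have : ((fun x : ℝ × ℝ => x.1 + x.2) ∘ fun p : ℝ × ℝ => (p.1, p.1 + p.2)) =
      fun p : ℝ × ℝ => 2 * p.1 + p.2 := by
    ext p
    simp
    ring
  rw [this, law_lin two_pos]

/-! ### the `L²` norms -/

lemma Phi_neg (y : ℝ) : Phi (-y) = 1 - Phi y := by
  unfold Phi
  rw [abs_neg]
  ring

lemma dens_neg (a v : ℝ) : dens a (-v) = dens a v := by
  unfold dens
  rw [show -v + a = -(v - a) by ring, show -v - a = -(v + a) by ring, Phi_neg, Phi_neg]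
  ring

lemma dens_small {a v : ℝ} (ha : 0 < a) (hv0 : 0 ≤ v) (hva : v ≤ a) :
    dens a v = (1 - (1 + a) / ((1 + a) ^ 2 - v ^ 2)) / (2 * a) := by
  unfold dens Phi
  rw [abs_of_nonneg (by linarith : 0 ≤ v + a), abs_of_nonpos (by linarith : v - a ≤ 0)]
  have h1 : 1 + (v + a) ≠ 0 := by positivity
  have h2 : 1 + -(v - a) ≠ 0 := by
    have : 0 < 1 + -(v - a) := by linarith
    exact this.ne'
  have h3 : (1 + a) ^ 2 - v ^ 2 = (1 + (v + a)) * (1 + -(v - a)) := by ring
  rw [h3]
  field_simp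
  ring

lemma dens_large {a v : ℝ} (ha : 0 < a) (hva : a ≤ v) :
    dens a v = 1 / 2 / ((1 + v) ^ 2 - a ^ 2) := by
  unfold dens Phi
  rw [abs_of_nonneg (by linarith : 0 ≤ v + a), abs_of_nonneg (by linarith : 0 ≤ v - a)]
  have h1 : 1 + (v + a) ≠ 0 := by
    have : 0 < 1 + (v + a) := by linarith
    exact this.ne'
  have h2 : 1 + (v - a) ≠ 0 := by
    have : 0 < 1 + (v - a) := by linarith
    exact this.ne'
  have h3 : (1 + v) ^ 2 - a ^ 2 = (1 + (v + a)) * (1 + (v - a)) := by ring
  rw [h3]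
  field_simp
  ring

noncomputable def G1 (a v : ℝ) : ℝ :=
  v - (1 - 1 / (4 * (1 + a))) * (Real.log (1 + a + v) - Real.log (1 + a - v)) +
    v / (2 * ((1 + a) ^ 2 - v ^ 2))

lemma G1_deriv {a v : ℝ} (ha : 0 < a) (hv0 : 0 ≤ v) (hva : v ≤ a) :
    HasDerivAt (G1 a) ((1 - (1 + a) / ((1 + a) ^ 2 - v ^ 2)) ^ 2) v := by
  have p1 : 0 < 1 + a + v := by positivity
  have p2 : 0 < 1 + a - v := by linarith
  have p3 : 0 < (1 + a) ^ 2 - v ^ 2 := by nlinarith
  have p4 : 0 < 1 + a := by linarith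
  have l1 : HasDerivAt (fun v : ℝ => Real.log (1 + a + v)) (1 / (1 + a + v)) v := by
    have := ((hasDerivAt_id v).const_add (1 + a)).log p1.ne'
    simpa using this
  have l2 : HasDerivAt (fun v : ℝ => Real.log (1 + a - v)) (-1 / (1 + a - v)) v := by
    have := ((hasDerivAt_id v).const_sub (1 + a)).log p2.ne'
    simpa using this
  have l3 : HasDerivAt (fun v : ℝ => v / (2 * ((1 + a) ^ 2 - v ^ 2)))
      ((1 * (2 * ((1 + a) ^ 2 - v ^ 2)) - v * (2 * (-(2 * v)))) / (2 * ((1 + a) ^ 2 - v ^ 2)) ^ 2)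
      v := by
    have d1 : HasDerivAt (fun v : ℝ => (1 + a) ^ 2 - v ^ 2) (-(2 * v)) v := by
      have := ((hasDerivAt_id v).pow 2).const_sub ((1 + a) ^ 2)
      simpa using this
    exact (hasDerivAt_id v).div (d1.const_mul 2) (by positivity)
  have h := ((hasDerivAt_id v).sub ((l1.sub l2).const_mul (1 - 1 / (4 * (1 + a))))).add l3
  refine HasDerivAt.congr_deriv (f := G1 a) h ?_
  have e3 : (1 + a) ^ 2 - v ^ 2 = (1 + a + v) * (1 + a - v) := by ring
  rw [e3]
  field_simp
  ring

noncomputable def G2 (a v : ℝ) : ℝ :=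
  -(1 + v) / (2 * ((1 + v) ^ 2 - a ^ 2)) -
    1 / (4 * a) * (Real.log (1 + v - a) - Real.log (1 + v + a))

lemma G2_deriv {a v : ℝ} (ha : 0 < a) (hva : a ≤ v) :
    HasDerivAt (G2 a) (a ^ 2 / ((1 + v) ^ 2 - a ^ 2) ^ 2) v := by
  have p1 : 0 < 1 + v + a := by linarith
  have p2 : 0 < 1 + v - a := by linarith
  have p3 : 0 < (1 + v) ^ 2 - a ^ 2 := by nlinarith
  have l1 : HasDerivAt (fun v : ℝ => Real.log (1 + v + a)) (1 / (1 + v + a)) v := by
    have := (((hasDerivAt_id v).const_add 1).add_const a).log p1.ne'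
    simpa using this
  have l2 : HasDerivAt (fun v : ℝ => Real.log (1 + v - a)) (1 / (1 + v - a)) v := by
    have := (((hasDerivAt_id v).const_add 1).sub_const a).log p2.ne'
    simpa using this
  have l3 : HasDerivAt (fun v : ℝ => -(1 + v) / (2 * ((1 + v) ^ 2 - a ^ 2)))
      ((-1 * (2 * ((1 + v) ^ 2 - a ^ 2)) - -(1 + v) * (2 * (2 * (1 + v)))) /
        (2 * ((1 + v) ^ 2 - a ^ 2)) ^ 2) v := by
    have d0 : HasDerivAt (fun v : ℝ => 1 + v) 1 v := (hasDerivAt_id v).const_add 1
    have d1 : HasDerivAt (fun v : ℝ => (1 + v) ^ 2 - a ^ 2) (2 * (1 + v)) v := by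
      have := (d0.pow 2).sub_const (a ^ 2)
      simpa using this
    exact d0.neg.div (d1.const_mul 2) (by positivity)
  have h := l3.sub ((l2.sub l1).const_mul (1 / (4 * a)))
  refine HasDerivAt.congr_deriv (f := G2 a) h ?_
  have e3 : (1 + v) ^ 2 - a ^ 2 = (1 + v + a) * (1 + v - a) := by ring
  rw [e3]
  field_simp
  ring

lemma G2_top {a : ℝ} (ha : 0 < a) : Filter.Tendsto (G2 a) Filter.atTop (nhds 0) := by
  have h1 : Filter.Tendsto (fun v : ℝ => (1 + v - a)⁻¹) Filter.atTop (nhds 0) := by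
    apply tendsto_inv_atTop_zero.comp
    have : (fun v : ℝ => 1 + v - a) = fun v => (1 - a) + v := by funext v; ring
    rw [this]
    exact Filter.tendsto_atTop_add_const_left _ _ Filter.tendsto_id
  have h2 : Filter.Tendsto (fun v : ℝ => (1 + v + a)⁻¹) Filter.atTop (nhds 0) := by
    apply tendsto_inv_atTop_zero.comp
    have : (fun v : ℝ => 1 + v + a) = fun v => (1 + a) + v := by funext v; ring
    rw [this]
    exact Filter.tendsto_atTop_add_const_left _ _ Filter.tendsto_id
  have h3 : Filter.Tendsto (fun v : ℝ => -(1/4) * ((1 + v - a)⁻¹ + (1 + v + a)⁻¹)) Filter.atTop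
      (nhds (-(1/4) * (0 + 0))) := (h1.add h2).const_mul _
  have h4 : Filter.Tendsto (fun v : ℝ => Real.log (1 - 2 * a * (1 + v + a)⁻¹)) Filter.atTop
      (nhds (Real.log (1 - 2 * a * 0))) := by
    apply Filter.Tendsto.log _ (by norm_num)
    exact (h2.const_mul _).const_sub _
  have h5 := h3.sub (h4.const_mul (1 / (4 * a)))
  simp only [mul_zero, sub_zero, Real.log_one, add_zero] at h5
  refine h5.congr' ?_
  filter_upwards [Filter.eventually_gt_atTop a] with v hv
  have p1 : 0 < 1 + v + a := by linarith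
  have p2 : 0 < 1 + v - a := by linarith
  unfold G2
  have e3 : (1 + v) ^ 2 - a ^ 2 = (1 + v + a) * (1 + v - a) := by ring
  have e4 : 1 - 2 * a * (1 + v + a)⁻¹ = (1 + v - a) / (1 + v + a) := by
    field_simp; ring
  rw [e4, Real.log_div p2.ne' p1.ne', e3]
  congr 1
  field_simp
  ring

/-- value of the `L²` norm -/
noncomputable def J (a : ℝ) : ℝ :=
  (a + 1 / 2 - Real.log (1 + 2 * a) * (1 + 1 / (4 * a * (1 + a)))) / (2 * a ^ 2)

lemma lint_even {g : ℝ → ℝ≥0∞} (hg : Measurable g) (he : ∀ x, g (-x) = g x) :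
    ∫⁻ x, g x = 2 * ∫⁻ x in Ioi 0, g x := by
  rw [← lintegral_add_compl g (measurableSet_Ioi (a := (0 : ℝ))), two_mul]
  congr 1
  rw [compl_Ioi, ← lintegral_indicator measurableSet_Iic, ← lintegral_indicator measurableSet_Ioi]
  rw [← lintegral_neg_eq_self (fun x => (Iic (0:ℝ)).indicator g x)]
  apply lintegral_congr_ae
  have hne : ∀ᵐ x : ℝ, x ≠ 0 := by rw [ae_iff]; simp
  filter_upwards [hne] with x hx
  rcases lt_or_gt_of_ne hx with h | h
  · rw [indicator_of_notMem (by simp only [mem_Iic, not_le]; linarith),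
      indicator_of_notMem (by simp only [mem_Ioi, not_lt]; exact h.le)]
  · rw [indicator_of_mem (by simp only [mem_Iic]; linarith),
      indicator_of_mem (by simp only [mem_Ioi]; exact h), he]

lemma int_small {a : ℝ} (ha : 0 < a) :
    ∫⁻ v in Ioc 0 a, ENNReal.ofReal (dens a v ^ 2) =
      ENNReal.ofReal (1 / (4 * a ^ 2) * (G1 a a - G1 a 0)) := by
  have hcont : ContinuousOn (fun v : ℝ => (1 - (1 + a) / ((1 + a) ^ 2 - v ^ 2)) ^ 2) (uIcc 0 a) := by
    rw [uIcc_of_le ha.le]
    apply ContinuousOn.pow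
    apply ContinuousOn.sub continuousOn_const
    apply ContinuousOn.div continuousOn_const (by fun_prop)
    intro v hv
    have : 0 < (1 + a) ^ 2 - v ^ 2 := by nlinarith [hv.1, hv.2]
    exact this.ne'
  have hint := hcont.intervalIntegrable (μ := volume)
  have hval := intervalIntegral.integral_eq_sub_of_hasDerivAt
    (fun v hv => by rw [uIcc_of_le ha.le] at hv; exact G1_deriv ha hv.1 hv.2) hint
  have e1 : ∫⁻ v in Ioc 0 a, ENNReal.ofReal (dens a v ^ 2) =
      ∫⁻ v in Ioc 0 a, ENNReal.ofReal (1 / (4 * a ^ 2) *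
        (1 - (1 + a) / ((1 + a) ^ 2 - v ^ 2)) ^ 2) := by
    apply setLIntegral_congr_fun measurableSet_Ioc
    intro v hv
    simp only
    rw [dens_small ha hv.1.le hv.2]
    congr 1
    field_simp
    ring
  rw [e1, ← ofReal_integral_eq_lintegral_ofReal]
  · rw [← intervalIntegral.integral_of_le ha.le, intervalIntegral.integral_const_mul, hval]
  · exact (hint.1).const_mul _
  · filter_upwards with v
    positivity

lemma int_large {a : ℝ} (ha : 0 < a) :
    ∫⁻ v in Ioi a, ENNReal.ofReal (dens a v ^ 2) =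
      ENNReal.ofReal (1 / (4 * a ^ 2) * (0 - G2 a a)) := by
  have hder : ∀ v ∈ Ici a, HasDerivAt (G2 a) (a ^ 2 / ((1 + v) ^ 2 - a ^ 2) ^ 2) v :=
    fun v hv => G2_deriv ha hv
  have hpos : ∀ v ∈ Ioi a, 0 ≤ a ^ 2 / ((1 + v) ^ 2 - a ^ 2) ^ 2 := fun v _ => by positivity
  have hint := integrableOn_Ioi_deriv_of_nonneg' hder hpos (G2_top ha)
  have hval := integral_Ioi_of_hasDerivAt_of_nonneg' hder hpos (G2_top ha)
  have e1 : ∫⁻ v in Ioi a, ENNReal.ofReal (dens a v ^ 2) =
      ∫⁻ v in Ioi a, ENNReal.ofReal (1 / (4 * a ^ 2) * (a ^ 2 / ((1 + v) ^ 2 - a ^ 2) ^ 2)) := by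
    apply setLIntegral_congr_fun measurableSet_Ioi
    intro v hv
    simp only
    rw [dens_large ha (le_of_lt hv)]
    congr 1
    have : 0 < (1 + v) ^ 2 - a ^ 2 := by
      have : a < v := hv
      nlinarith
    field_simp
    ring
  rw [e1, ← ofReal_integral_eq_lintegral_ofReal]
  · rw [integral_const_mul, hval]
  · exact hint.const_mul _
  · filter_upwards with v
    positivity

lemma L2_dens {a : ℝ} (ha : 0 < a) :
    ∫⁻ v, ENNReal.ofReal (dens a v ^ 2) = ENNReal.ofReal (J a) := by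
  have hm : Measurable (fun v => ENNReal.ofReal (dens a v ^ 2)) :=
    ((dens_meas a).pow_const 2).ennreal_ofReal
  rw [lint_even hm (fun x => by rw [dens_neg])]
  rw [← Ioc_union_Ioi_eq_Ioi ha.le, lintegral_union measurableSet_Ioi Ioc_disjoint_Ioi_same,
    int_small ha, int_large ha]
  have hG1 : 0 ≤ G1 a a - G1 a 0 := by
    have hm : MonotoneOn (G1 a) (Icc 0 a) := by
      apply monotoneOn_of_deriv_nonneg (convex_Icc 0 a)
      · exact fun v hv => (G1_deriv ha hv.1 hv.2).continuousAt.continuousWithinAt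
      · intro v hv
        rw [interior_Icc] at hv
        exact (G1_deriv ha hv.1.le hv.2.le).differentiableAt.differentiableWithinAt
      · intro v hv
        rw [interior_Icc] at hv
        rw [(G1_deriv ha hv.1.le hv.2.le).deriv]
        positivity
    have := hm (left_mem_Icc.2 ha.le) (right_mem_Icc.2 ha.le) ha.le
    linarith
  have hG2 : 0 ≤ 0 - G2 a a := by
    have h1 : ∀ v ∈ Ici a, HasDerivAt (G2 a) (a ^ 2 / ((1 + v) ^ 2 - a ^ 2) ^ 2) v :=
      fun v hv => G2_deriv ha hv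
    have h2 := integral_Ioi_of_hasDerivAt_of_nonneg' h1 (fun v _ => by positivity) (G2_top ha)
    rw [← h2]
    apply integral_nonneg
    intro v
    positivity
  rw [← ENNReal.ofReal_add (by positivity) (by positivity), show (2 : ℝ≥0∞) = ENNReal.ofReal 2 by norm_num,
    ← ENNReal.ofReal_mul (by norm_num)]
  congr 1
  unfold G1 G2 J
  rw [show 1 + a - a = 1 by ring, Real.log_one, show 1 + a + a = 1 + 2 * a by ring]
  simp only [add_zero, sub_zero, sub_self, mul_zero, zero_div]
  have e1 : (1 + a) ^ 2 - a ^ 2 = 1 + 2 * a := by ring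
  have e2 : 1 + 2 * a ≠ 0 := by positivity
  rw [e1]
  field_simp
  ring

lemma log3_lt : Real.log 3 < 65 / 41 * Real.log 2 := by
  have h : (41 : ℝ) * Real.log 3 < 65 * Real.log 2 := by
    rw [← Real.log_rpow (by norm_num), ← Real.log_rpow (by norm_num)]
    apply Real.log_lt_log (by positivity)
    norm_num
  linarith

lemma log5_gt : 65 / 28 * Real.log 2 < Real.log 5 := by
  have h : (65 : ℝ) * Real.log 2 < 28 * Real.log 5 := by
    rw [← Real.log_rpow (by norm_num), ← Real.log_rpow (by norm_num)]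
    apply Real.log_lt_log (by positivity)
    norm_num
  linarith

lemma J1_lb : 0.13187 < J 1 := by
  unfold J
  have h1 := log3_lt
  have h2 := Real.log_two_lt_d9
  norm_num
  linarith

lemma J2_ub : J 2 < 0.10299 := by
  unfold J
  have h1 := log5_gt
  have h2 := Real.log_two_gt_d9
  norm_num
  linarith

lemma L2_fU : ∫⁻ v, ENNReal.ofReal (fU v ^ 2) = ENNReal.ofReal (1 / 2) := by
  have h1 : ∀ v, ENNReal.ofReal (fU v ^ 2) = ENNReal.ofReal (fU v) * ENNReal.ofReal (1/2) := by
    intro v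
    rw [← ENNReal.ofReal_mul (fU_nonneg v)]
    congr 1
    unfold fU
    split_ifs <;> norm_num
  simp_rw [h1]
  rw [lintegral_mul_const _ fU_meas.ennreal_ofReal]
  have h2 : ∫⁻ v, ENNReal.ofReal (fU v) = 1 := by
    have := measure_univ (μ := mu1)
    unfold mu1 at this
    rwa [withDensity_apply _ MeasurableSet.univ, setLIntegral_univ] at this
  rw [h2, one_mul]

lemma eLp_two {f : ℝ → ℝ} (hf0 : ∀ x, 0 ≤ f x) {c : ℝ} (hc : 0 < c)
    (h : ∫⁻ v, ENNReal.ofReal (f v ^ 2) = ENNReal.ofReal c) :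
    eLpNorm f 2 volume ^ (-((1 - (2 : ℝ≥0∞)⁻¹)⁻¹).toReal) = ENNReal.ofReal (1 / c) := by
  have e1 : ((1 - (2 : ℝ≥0∞)⁻¹)⁻¹).toReal = 2 := by
    rw [ENNReal.one_sub_inv_two, inv_inv]
    simp
  rw [e1, eLpNorm_eq_lintegral_rpow_enorm_toReal (by norm_num) (by norm_num)]
  have e2 : ∫⁻ x, ‖f x‖ₑ ^ (2 : ℝ≥0∞).toReal = ENNReal.ofReal c := by
    rw [← h]
    congr 1
    funext x
    rw [← ofReal_norm, Real.norm_of_nonneg (hf0 x)]
    simp only [ENNReal.toReal_ofNat, ENNReal.rpow_ofNat]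
    rw [ENNReal.ofReal_pow (hf0 x)]
  rw [e2, ← ENNReal.rpow_mul]
  simp only [ENNReal.toReal_ofNat]
  rw [show (1 / 2 * -2 : ℝ) = -1 by norm_num, ENNReal.rpow_neg_one, ← ENNReal.ofReal_inv_of_pos hc,
    one_div]

end Pool.Agent.Pa5e374
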