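import Mathlib

set_option autoImplicit false
set_option linter.unusedSectionVars false
set_option linter.unusedVariables false

namespace Pool.Agent.Pak

open Finset

section core

variable {K B : Type} [AddCommGroup K] [AddCommGroup B] [Fintype K] [Fintype B]
  [DecidableEq K] [DecidableEq B]

/-- transition matrix -/
noncomputable def P (r c : ℝ) (S0 : Finset K) : Matrix (K × B) (K × B) ℝ := fun x y =>
  (if x = y then r else 0) + (if y.2 = x.2 then c else 0) +
    (if y.2 ≠ x.2 ∧ y.1 - x.1 ∈ S0 then c else 0)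

/-- normalisation -/
def Norm (K B : Type) [Fintype K] [Fintype B] (r c : ℝ) (S0 : Finset K) : Prop :=
  r + c * (Fintype.card K + S0.card * (Fintype.card B - 1)) = 1

lemma sum_ite_sub (S0 : Finset K) (y : K) (a : ℝ) :
    ∑ x : K, (if y - x ∈ S0 then a else 0) = a * S0.card := by
  have h := Fintype.sum_equiv (Equiv.subLeft y) (fun x => if y - x ∈ S0 then a else 0)
    (fun x => if x ∈ S0 then a else 0) (fun x => rfl)
  rw [h, Finset.sum_ite_mem, univ_inter, sum_const, nsmul_eq_mul, mul_comm]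

lemma sum_ite_sub' (S0 : Finset K) (y : K) (a : ℝ) :
    ∑ x : K, (if x - y ∈ S0 then a else 0) = a * S0.card := by
  have h := Fintype.sum_equiv (Equiv.subRight y) (fun x => if x - y ∈ S0 then a else 0)
    (fun x => if x ∈ S0 then a else 0) (fun x => rfl)
  rw [h, Finset.sum_ite_mem, univ_inter, sum_const, nsmul_eq_mul, mul_comm]

lemma P_nonneg {r c : ℝ} (hr : 0 ≤ r) (hc : 0 ≤ c) (S0 : Finset K) (x y : K × B) :
    0 ≤ P r c S0 x y := by
  unfold P
  split_ifs <;> positivity

lemma colK (r c : ℝ) (S0 : Finset K) (v : B) (w : K × B) :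
    ∑ x : K, P r c S0 (x, v) w =
      (if w.2 = v then r + c * Fintype.card K - c * S0.card else 0) + c * S0.card := by
  unfold P
  obtain ⟨w1, w2⟩ := w
  simp only [Prod.mk.injEq]
  rw [sum_add_distrib, sum_add_distrib]
  by_cases h : w2 = v
  · subst h
    simp [mul_comm]
  · have h' : ¬ (v = w2) := fun e => h e.symm
    simp only [h, h', and_false, if_false, sum_const_zero, ne_eq, not_false_eq_true, true_and]
    rw [sum_ite_sub]
    ring

lemma rowK (r c : ℝ) (S0 : Finset K) (v : B) (w : K × B) :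
    ∑ x : K, P r c S0 w (x, v) =
      (if w.2 = v then r + c * Fintype.card K - c * S0.card else 0) + c * S0.card := by
  unfold P
  obtain ⟨w1, w2⟩ := w
  simp only [Prod.mk.injEq]
  rw [sum_add_distrib, sum_add_distrib]
  by_cases h : w2 = v
  · subst h
    simp [mul_comm]
  · have h' : ¬ (v = w2) := fun e => h e.symm
    simp only [h, h', and_false, if_false, sum_const_zero, ne_eq, not_false_eq_true, true_and]
    rw [sum_ite_sub']
    ring

lemma col_sum {r c : ℝ} {S0 : Finset K} (hn : Norm K B r c S0) (w : K × B) :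
    ∑ x : K × B, P r c S0 x w = 1 := by
  rw [Fintype.sum_prod_type_right]
  simp_rw [colK]
  rw [sum_add_distrib, Finset.sum_ite_eq]
  simp only [mem_univ, if_true, sum_const, card_univ, nsmul_eq_mul]
  unfold Norm at hn
  linarith

lemma row_sum {r c : ℝ} {S0 : Finset K} (hn : Norm K B r c S0) (w : K × B) :
    ∑ x : K × B, P r c S0 w x = 1 := by
  rw [Fintype.sum_prod_type_right]
  simp_rw [rowK]
  rw [sum_add_distrib, Finset.sum_ite_eq]
  simp only [mem_univ, if_true, sum_const, card_univ, nsmul_eq_mul]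
  unfold Norm at hn
  linarith

lemma pow_nonneg' {r c : ℝ} (hr : 0 ≤ r) (hc : 0 ≤ c) (S0 : Finset K) (t : ℕ) (x y : K × B) :
    0 ≤ (P r c S0 ^ t) x y := by
  induction t generalizing x y with
  | zero =>
    rw [pow_zero, Matrix.one_apply]
    split_ifs <;> norm_num
  | succ t ih =>
    rw [pow_succ', Matrix.mul_apply]
    exact sum_nonneg fun z _ => mul_nonneg (P_nonneg hr hc S0 x z) (ih z y)

lemma pow_col_sum {r c : ℝ} {S0 : Finset K} (hn : Norm K B r c S0) (t : ℕ) (y : K × B) :
    ∑ x : K × B, (P r c S0 ^ t) x y = 1 := by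
  induction t with
  | zero =>
    simp only [pow_zero, Matrix.one_apply]
    rw [Finset.sum_ite_eq' univ y (fun _ => (1 : ℝ))]
    simp
  | succ t ih =>
    simp only [pow_succ', Matrix.mul_apply]
    rw [sum_comm]
    simp_rw [← sum_mul, col_sum hn, one_mul]
    exact ih

lemma pow_row_sum {r c : ℝ} {S0 : Finset K} (hn : Norm K B r c S0) (t : ℕ) (x : K × B) :
    ∑ y : K × B, (P r c S0 ^ t) x y = 1 := by
  induction t generalizing x with
  | zero =>
    simp only [pow_zero, Matrix.one_apply]
    rw [Finset.sum_ite_eq univ x (fun _ => (1 : ℝ))]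
    simp
  | succ t ih =>
    simp only [pow_succ', Matrix.mul_apply]
    rw [sum_comm]
    simp_rw [← mul_sum, ih, mul_one]
    exact row_sum hn x

/-- mass of a fibre -/
lemma fibre {r c : ℝ} {S0 : Finset K} (hn : Norm K B r c S0) (hr : 0 ≤ r) (hc : 0 ≤ c)
    (hρ : 0 ≤ r + c * Fintype.card K - c * S0.card) (t : ℕ) (v : B)
    (y : K × B) :
    (1 - (r + c * Fintype.card K - c * S0.card) ^ t) / Fintype.card B ≤
      ∑ x : K, (P r c S0 ^ t) (x, v) y := by
  have hb : (0 : ℝ) < Fintype.card B := by exact_mod_cast Fintype.card_pos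
  set ρ := r + c * Fintype.card K - c * S0.card with hρd
  have hn' : ρ + c * S0.card * Fintype.card B = 1 := by
    unfold Norm at hn
    rw [hρd]; linarith
  induction t with
  | zero =>
    simp only [pow_zero, sub_self, zero_div]
    exact sum_nonneg fun x _ => by
      rw [Matrix.one_apply]; split_ifs <;> norm_num
  | succ t ih =>
    have e1 : ∑ x : K, (P r c S0 ^ (t + 1)) (x, v) y =
        ρ * ∑ x : K, (P r c S0 ^ t) (x, v) y + c * S0.card := by
      simp only [pow_succ', Matrix.mul_apply]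
      rw [sum_comm]
      simp_rw [← sum_mul, colK]
      simp_rw [add_mul, ite_mul, zero_mul]
      rw [sum_add_distrib, ← mul_sum, pow_col_sum hn, mul_one, Fintype.sum_prod_type_right,
        Finset.sum_comm]
      simp only
      rw [sum_comm]
      rw [Finset.sum_eq_single v]
      · simp only [if_true]
        rw [mul_sum]
      · intro u _ hu
        simp [hu]
      · simp
    rw [e1]
    have e2 : (1 - ρ ^ (t + 1)) / Fintype.card B =
        ρ * ((1 - ρ ^ t) / Fintype.card B) + c * S0.card := by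
      have : c * S0.card = (1 - ρ) / Fintype.card B := by
        rw [eq_div_iff hb.ne']; linarith
      rw [this]
      field_simp
      ring
    rw [e2]
    have := mul_le_mul_of_nonneg_left ih hρ
    linarith

lemma lower {r c : ℝ} {S0 : Finset K} (hn : Norm K B r c S0) (hr : 0 ≤ r) (hc : 0 ≤ c)
    (hρ : 0 ≤ r + c * Fintype.card K - c * S0.card) (t : ℕ) (x y : K × B) :
    (1 - (1 - c * Fintype.card K) ^ t - c * Fintype.card K *
      ∑ j ∈ range t, (r + c * Fintype.card K - c * S0.card) ^ j) /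
        (Fintype.card K * Fintype.card B) ≤ (P r c S0 ^ t) x y := by
  have hb : (0 : ℝ) < Fintype.card B := by exact_mod_cast Fintype.card_pos
  have hk : (0 : ℝ) < Fintype.card K := by exact_mod_cast Fintype.card_pos
  set ρ := r + c * Fintype.card K - c * S0.card with hρd
  set β := c * Fintype.card K with hβ
  have hβ0 : 0 ≤ β := by positivity
  have hb1 : (1 : ℝ) ≤ Fintype.card B := by exact_mod_cast Fintype.card_pos
  have hβ1 : β ≤ 1 := by
    unfold Norm at hn
    have : 0 ≤ c * (S0.card * ((Fintype.card B : ℝ) - 1)) := by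
      have : 0 ≤ (Fintype.card B : ℝ) - 1 := by linarith
      positivity
    rw [hβ]; linarith
  induction t generalizing x with
  | zero =>
    simp only [pow_zero, sub_self, range_zero, sum_empty, mul_zero, zero_div]
    rw [Matrix.one_apply]; split_ifs <;> norm_num
  | succ t ih =>
    set a := 1 - (1 - β) ^ t - β * ∑ j ∈ range t, ρ ^ j with ha
    rw [pow_succ' (P r c S0), Matrix.mul_apply]
    have e1 : ∑ z, P r c S0 x z * (P r c S0 ^ t) z y =
        ∑ z, (P r c S0 x z - (if z.2 = x.2 then c else 0)) * (P r c S0 ^ t) z y +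
          c * ∑ z1 : K, (P r c S0 ^ t) (z1, x.2) y := by
      have : c * ∑ z1 : K, (P r c S0 ^ t) (z1, x.2) y =
          ∑ z : K × B, (if z.2 = x.2 then c else 0) * (P r c S0 ^ t) z y := by
        rw [Fintype.sum_prod_type_right, Finset.sum_eq_single x.2]
        · simp only [if_true]
          rw [mul_sum]
        · intro u _ hu
          simp [hu]
        · simp
      rw [this, ← sum_add_distrib]
      apply sum_congr rfl
      intro z _
      ring
    rw [e1]
    have e2 : ∑ z, (P r c S0 x z - (if z.2 = x.2 then c else 0)) * (a / (Fintype.card K * Fintype.card B)) ≤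
        ∑ z, (P r c S0 x z - (if z.2 = x.2 then c else 0)) * (P r c S0 ^ t) z y := by
      apply sum_le_sum
      intro z _
      apply mul_le_mul_of_nonneg_left (ih z)
      unfold P
      split_ifs <;> linarith
    have e3 : ∑ z, (P r c S0 x z - (if z.2 = x.2 then c else 0)) = 1 - β := by
      rw [sum_sub_distrib, row_sum hn]
      congr 1
      rw [Fintype.sum_prod_type_right, Finset.sum_eq_single x.2]
      · simp [hβ, mul_comm]
      · intro u _ hu
        simp [hu]
      · simp
    rw [← sum_mul, e3] at e2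
    have e4 := mul_le_mul_of_nonneg_left (fibre hn hr hc hρ t x.2 y) hc
    rw [← hρd] at e4
    refine le_trans ?_ (add_le_add e2 e4)
    have e5 : (1 - β) * (a / (Fintype.card K * Fintype.card B)) +
        c * ((1 - ρ ^ t) / Fintype.card B) =
        ((1 - β) * a + β * (1 - ρ ^ t)) / (Fintype.card K * Fintype.card B) := by
      rw [hβ]
      field_simp
    rw [e5]
    apply div_le_div_of_nonneg_right _ (by positivity)
    rw [ha, sum_range_succ]
    have hg : 0 ≤ ∑ j ∈ range t, ρ ^ j := sum_nonneg fun j _ => pow_nonneg hρ j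
    have h6 : 0 ≤ β * (β * ∑ j ∈ range t, ρ ^ j) := by positivity
    have e8 : (1 - β) * (1 - (1 - β) ^ t - β * ∑ j ∈ range t, ρ ^ j) + β * (1 - ρ ^ t) -
        (1 - (1 - β) ^ (t + 1) - β * (∑ j ∈ range t, ρ ^ j + ρ ^ t)) =
        β * (β * ∑ j ∈ range t, ρ ^ j) := by ring
    linarith

/-! ### upper bound for the mass of a set of the form `E × B` -/

/-- averaging operator on `K` -/
noncomputable def T (r c bb : ℝ) (S0 : Finset K) (F : K → ℝ) (x : K) : ℝ :=
  r * F x + c * ∑ z, F z + c * bb * ∑ z, (if z - x ∈ S0 then F z else 0)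

lemma P_mulVec (r c : ℝ) (S0 : Finset K) (F : K → ℝ) (x : K × B) :
    ∑ y : K × B, P r c S0 x y * F y.1 = T r c (Fintype.card B - 1) S0 F x.1 := by
  obtain ⟨x1, x2⟩ := x
  unfold P T
  simp only [Prod.mk.injEq, add_mul]
  rw [sum_add_distrib, sum_add_distrib]
  congr 1
  · congr 1
    · rw [Fintype.sum_prod_type, Finset.sum_eq_single x1, Finset.sum_eq_single x2]
      · simp
      · intro u _ hu
        simp [hu.symm]
      · simp
      · intro u _ hu
        simp [hu.symm]
      · simp
    · rw [Fintype.sum_prod_type_right, Finset.sum_eq_single x2]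
      · simp [mul_sum]
      · intro u _ hu
        simp [hu]
      · simp
  · rw [Fintype.sum_prod_type_right]
    have e1 : ∀ u : B, ∑ z : K, (if u ≠ x2 ∧ z - x1 ∈ S0 then c else 0) * F z =
        if u = x2 then 0 else c * ∑ z, (if z - x1 ∈ S0 then F z else 0) := by
      intro u
      by_cases hu : u = x2
      · simp [hu]
      · simp only [hu, ne_eq, not_false_eq_true, true_and, if_false]
        rw [mul_sum]
        apply sum_congr rfl
        intro z _
        split_ifs <;> simp
    simp_rw [e1]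
    rw [← Finset.sum_erase univ (a := x2) (by simp)]
    have e2 : ∀ u ∈ univ.erase x2, (if u = x2 then 0 else c * ∑ z, (if z - x1 ∈ S0 then F z else 0)) =
        c * ∑ z, (if z - x1 ∈ S0 then F z else 0) := by
      intro u hu
      rw [if_neg (ne_of_mem_erase hu)]
    rw [sum_congr rfl e2, sum_const, card_erase_of_mem (mem_univ _), nsmul_eq_mul, card_univ,
      Nat.cast_sub Fintype.card_pos, Nat.cast_one]
    ring

lemma pow_mulVec (r c : ℝ) (S0 : Finset K) (F : K → ℝ) (t : ℕ) (x : K × B) :
    ∑ y : K × B, (P r c S0 ^ t) x y * F y.1 =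
      ((T r c (Fintype.card B - 1) S0)^[t] F) x.1 := by
  induction t generalizing F with
  | zero =>
    simp only [pow_zero, Matrix.one_apply, Function.iterate_zero, id, ite_mul, one_mul, zero_mul]
    rw [Finset.sum_ite_eq univ x (fun y => F y.1)]
    simp
  | succ t ih =>
    rw [Function.iterate_succ_apply, ← ih]
    simp only [pow_succ, Matrix.mul_apply, sum_mul]
    rw [sum_comm]
    apply sum_congr rfl
    intro z _
    rw [← P_mulVec r c S0 F z, mul_sum]
    apply sum_congr rfl
    intro y _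
    ring

/-- the part of `T` without uniform jumps -/
noncomputable def T' (r c bb : ℝ) (S0 : Finset K) (F : K → ℝ) (x : K) : ℝ :=
  r * F x + c * bb * ∑ z, (if z - x ∈ S0 then F z else 0)

lemma T'_sum (r c bb : ℝ) (S0 : Finset K) (F : K → ℝ) :
    ∑ x, T' r c bb S0 F x = (r + c * bb * S0.card) * ∑ x, F x := by
  unfold T'
  rw [sum_add_distrib, ← mul_sum, ← mul_sum, sum_comm]
  have : ∀ z : K, ∑ x : K, (if z - x ∈ S0 then F z else 0) = F z * S0.card :=
    fun z => sum_ite_sub S0 z (F z)
  simp_rw [this]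
  rw [← sum_mul]
  ring

lemma T_iter (r c bb : ℝ) (S0 : Finset K)
    (hn : r + c * Fintype.card K + c * bb * S0.card = 1) (F : K → ℝ) (t : ℕ) (x : K) :
    ((T r c bb S0)^[t] F) x = (1 - (1 - c * Fintype.card K) ^ t) *
      ((∑ z, F z) / Fintype.card K) + ((T' r c bb S0)^[t] F) x := by
  have hk : (0 : ℝ) < Fintype.card K := by exact_mod_cast Fintype.card_pos
  have hW : ∀ t, ∑ x, ((T' r c bb S0)^[t] F) x = (1 - c * Fintype.card K) ^ t * ∑ x, F x := by
    intro t
    induction t with
    | zero => simp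
    | succ t ih =>
      rw [Function.iterate_succ_apply', T'_sum, ih, pow_succ]
      have : r + c * bb * S0.card = 1 - c * Fintype.card K := by linarith
      rw [this]; ring
  induction t generalizing x with
  | zero => simp
  | succ t ih =>
    rw [Function.iterate_succ_apply', Function.iterate_succ_apply']
    have e1 : (T r c bb S0)^[t] F = fun x => (1 - (1 - c * Fintype.card K) ^ t) *
      ((∑ z, F z) / Fintype.card K) + ((T' r c bb S0)^[t] F) x := funext ih
    rw [e1]
    unfold T
    simp only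
    rw [sum_add_distrib, hW t]
    have e2 : ∑ z : K, (if z - x ∈ S0 then (1 - (1 - c * Fintype.card K) ^ t) *
        ((∑ z, F z) / Fintype.card K) + ((T' r c bb S0)^[t] F) z else 0) =
        (1 - (1 - c * Fintype.card K) ^ t) * ((∑ z, F z) / Fintype.card K) * S0.card +
          ∑ z, (if z - x ∈ S0 then ((T' r c bb S0)^[t] F) z else 0) := by
      rw [← sum_ite_sub' S0 x, ← sum_add_distrib]
      apply sum_congr rfl
      intro z _
      split_ifs <;> simp
    rw [e2]
    rw [show T' r c bb S0 ((T' r c bb S0)^[t] F) x = r * ((T' r c bb S0)^[t] F) x +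
      c * bb * ∑ z, (if z - x ∈ S0 then ((T' r c bb S0)^[t] F) z else 0) from rfl]
    simp only [sum_const, card_univ, nsmul_eq_mul]
    set W := ((T' r c bb S0)^[t] F) x
    set V := ∑ z, (if z - x ∈ S0 then ((T' r c bb S0)^[t] F) z else 0)
    set q := (1 - c * Fintype.card K) ^ t with hq
    set k : ℝ := ((Fintype.card K : ℕ) : ℝ) with hkd
    rw [pow_succ, ← hq]
    have hr' : r = 1 - c * k - c * bb * S0.card := by linarith
    field_simp
    rw [hr']
    ring

lemma T'_mono {r c bb : ℝ} (hr : 0 ≤ r) (hc : 0 ≤ c) (hb : 0 ≤ bb) (S0 : Finset K) {F G : K → ℝ}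
    (h : ∀ x, F x ≤ G x) (x : K) : T' r c bb S0 F x ≤ T' r c bb S0 G x := by
  unfold T'
  gcongr with z _
  · exact h x
  · split_ifs
    · exact h z
    · exact le_rfl

lemma T'_super {r c bb : ℝ} (hr : 0 ≤ r) (hc : 0 ≤ c) (hb : 0 ≤ bb) (S0 : Finset K)
    (hn : r + c * Fintype.card K + c * bb * S0.card = 1) (v : ℕ → K → ℝ) (F : K → ℝ)
    (h0 : ∀ x, F x ≤ v 0 x) (hmono : ∀ j x, v j x ≤ v (j + 1) x)
    (hsup : ∀ j x, ∑ z, (if z - x ∈ S0 then v j z else 0) ≤ S0.card * v (j + 1) x) (t : ℕ) (x : K) :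
    ((T' r c bb S0)^[t] F) x ≤ (1 - c * Fintype.card K) ^ t * v t x := by
  have hq : 0 ≤ 1 - c * Fintype.card K := by
    have : 0 ≤ c * bb * S0.card := by positivity
    linarith
  induction t generalizing x with
  | zero => simpa using h0 x
  | succ t ih =>
    rw [Function.iterate_succ_apply']
    refine (T'_mono hr hc hb S0 ih x).trans ?_
    unfold T'
    have e1 : ∑ z, (if z - x ∈ S0 then (1 - c * Fintype.card K) ^ t * v t z else 0) =
        (1 - c * Fintype.card K) ^ t * ∑ z, (if z - x ∈ S0 then v t z else 0) := by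
      rw [mul_sum]
      apply sum_congr rfl
      intro z _
      split_ifs <;> simp
    rw [e1]
    have hq' : 0 ≤ (1 - c * Fintype.card K) ^ t := pow_nonneg hq t
    calc r * ((1 - c * Fintype.card K) ^ t * v t x) +
          c * bb * ((1 - c * Fintype.card K) ^ t * ∑ z, (if z - x ∈ S0 then v t z else 0))
        ≤ r * ((1 - c * Fintype.card K) ^ t * v (t + 1) x) +
          c * bb * ((1 - c * Fintype.card K) ^ t * (S0.card * v (t + 1) x)) := by
          gcongr
          · exact hmono t x
          · exact hsup t x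
      _ = (r + c * bb * S0.card) * ((1 - c * Fintype.card K) ^ t * v (t + 1) x) := by ring
      _ = (1 - c * Fintype.card K) ^ (t + 1) * v (t + 1) x := by
          rw [show r + c * bb * S0.card = 1 - c * Fintype.card K by linarith, pow_succ]
          ring

/-- mass of `E × B` at time `t` -/
lemma mass_upper {r c : ℝ} {S0 : Finset K} (hn : Norm K B r c S0) (hr : 0 ≤ r) (hc : 0 ≤ c)
    (v : ℕ → K → ℝ) (F : K → ℝ)
    (h0 : ∀ x, F x ≤ v 0 x) (hmono : ∀ j x, v j x ≤ v (j + 1) x)
    (hsup : ∀ j x, ∑ z, (if z - x ∈ S0 then v j z else 0) ≤ S0.card * v (j + 1) x) (t : ℕ)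
    (x : K × B) :
    ∑ y : K × B, (P r c S0 ^ t) x y * F y.1 ≤
      (1 - (1 - c * Fintype.card K) ^ t) * ((∑ z, F z) / Fintype.card K) +
        (1 - c * Fintype.card K) ^ t * v t x.1 := by
  have hb1 : (0 : ℝ) ≤ Fintype.card B - 1 := by
    have : (1 : ℝ) ≤ Fintype.card B := by exact_mod_cast Fintype.card_pos
    linarith
  have hn' : r + c * Fintype.card K + c * (Fintype.card B - 1) * S0.card = 1 := by
    unfold Norm at hn; linarith
  rw [pow_mulVec, T_iter _ _ _ _ hn']
  have := T'_super hr hc hb1 S0 hn' v F h0 hmono hsup t x.1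
  linarith

/-! ### eigenvalues -/

lemma eig_char {r c : ℝ} {S0 : Finset K} (f : K × B → ℝ) (hf : f ≠ 0) (lam : ℝ)
    (hl : ∀ x, ∑ y, P r c S0 x y * f y = lam * f x) :
    ∃ χ : AddChar (K × B) ℂ, (lam : ℂ) = ∑ g, (P r c S0 g 0 : ℂ) * χ g := by
  classical
  have hex : ∃ χ : AddChar (K × B) ℂ, ∑ x, (f x : ℂ) * χ x ≠ 0 := by
    by_contra hcon
    push Not at hcon
    apply hf
    funext y
    have h1 : ∑ χ : AddChar (K × B) ℂ, χ (-y) * ∑ x, (f x : ℂ) * χ x = 0 := by
      apply sum_eq_zero
      intro χ _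
      rw [hcon χ, mul_zero]
    have h2 : ∑ χ : AddChar (K × B) ℂ, χ (-y) * ∑ x, (f x : ℂ) * χ x =
        ∑ x, (f x : ℂ) * ∑ χ : AddChar (K × B) ℂ, χ (x - y) := by
      simp_rw [mul_sum]
      rw [sum_comm]
      apply sum_congr rfl
      intro x _
      apply sum_congr rfl
      intro χ _
      rw [sub_eq_add_neg, AddChar.map_add_eq_mul]
      ring
    rw [h2] at h1
    simp_rw [AddChar.sum_apply_eq_ite, sub_eq_zero, mul_ite, mul_zero] at h1
    rw [Finset.sum_ite_eq' univ y] at h1
    simp only [mem_univ, if_true, mul_eq_zero, Complex.ofReal_eq_zero, Nat.cast_eq_zero] at h1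
    rcases h1 with h1 | h1
    · exact h1
    · exact absurd h1 Fintype.card_ne_zero
  obtain ⟨χ, hχ⟩ := hex
  refine ⟨χ, ?_⟩
  have h3 : ∑ x, ((∑ y, P r c S0 x y * f y : ℝ) : ℂ) * χ x = (lam : ℂ) * ∑ x, (f x : ℂ) * χ x := by
    rw [mul_sum]
    apply sum_congr rfl
    intro x _
    rw [hl x]
    push_cast
    ring
  have h4 : ∑ x, ((∑ y, P r c S0 x y * f y : ℝ) : ℂ) * χ x =
      (∑ g, (P r c S0 g 0 : ℂ) * χ g) * ∑ x, (f x : ℂ) * χ x := by
    have e5 : ∑ x, ((∑ y, P r c S0 x y * f y : ℝ) : ℂ) * χ x =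
        ∑ y, ∑ x, (P r c S0 x y : ℂ) * (f y : ℂ) * χ x := by
      push_cast
      simp_rw [sum_mul]
      rw [sum_comm]
    have e6 : (∑ g, (P r c S0 g 0 : ℂ) * χ g) * ∑ x, (f x : ℂ) * χ x =
        ∑ y, ∑ g, (P r c S0 g 0 : ℂ) * χ g * ((f y : ℂ) * χ y) := by
      rw [sum_mul_sum, sum_comm]
    rw [e5, e6]
    apply sum_congr rfl
    intro y _
    have h7 := Fintype.sum_equiv (Equiv.subRight y)
      (fun x => (P r c S0 x y : ℂ) * (f y : ℂ) * χ x)
      (fun g => (P r c S0 (g + y) y : ℂ) * (f y : ℂ) * χ (g + y))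
      (fun x => by simp)
    rw [h7]
    apply sum_congr rfl
    intro g _
    rw [AddChar.map_add_eq_mul]
    have e : P r c S0 (g + y) y = P r c S0 g 0 := by
      unfold P
      congr 1
      · congr 1
        · simp
        · simp [eq_comm]
      · simp [eq_comm]
    rw [e]
    ring
  rw [h3] at h4
  exact mul_right_cancel₀ hχ h4

lemma pow_trans (r c : ℝ) (S0 : Finset K) (t : ℕ) (x y g : K × B) :
    (P r c S0 ^ t) (x + g) (y + g) = (P r c S0 ^ t) x y := by
  induction t generalizing x y with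
  | zero =>
    rw [pow_zero, Matrix.one_apply, Matrix.one_apply]
    simp
  | succ t ih =>
    rw [pow_succ', Matrix.mul_apply, Matrix.mul_apply]
    have h := Fintype.sum_equiv (Equiv.addRight g)
      (fun z => P r c S0 x z * (P r c S0 ^ t) z y)
      (fun z => P r c S0 (x + g) z * (P r c S0 ^ t) z (y + g))
      (fun z => by
        simp only [Equiv.coe_addRight]
        rw [ih z y]
        congr 1
        unfold P
        congr 1
        · congr 1
          · simp
          · simp
        · simp)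
    exact h.symm

end core

section prodset

variable {ι : Type} [Fintype ι] [DecidableEq ι] {A : ι → Type} [∀ i, AddCommGroup (A i)]
  [∀ i, Fintype (A i)] [∀ i, DecidableEq (A i)]

/-- supersolution -/
noncomputable def vv (θ : ℝ) (Si : ∀ i, Finset (A i)) (j : ℕ) (x : ∀ i, A i) : ℝ :=
  ∏ i, (if x i ∈ Si i then 1 - θ ^ j else 1)

lemma coord {C : Type} [AddCommGroup C] [Fintype C] [DecidableEq C] {θ : ℝ} (h0 : 0 ≤ θ)
    (h1 : θ ≤ 1) (S : Finset C)
    (H : ∀ x ∈ S, θ * S.card ≤ ((univ.filter (fun a => a - x ∈ S ∧ a ∈ S)).card : ℝ)) (j : ℕ)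
    (x : C) :
    ∑ a, (if a - x ∈ S then (if a ∈ S then 1 - θ ^ j else 1) else 0) ≤
      S.card * (if x ∈ S then 1 - θ ^ (j + 1) else 1) := by
  have hθ : 0 ≤ θ ^ j := pow_nonneg h0 j
  have e1 : ∑ a, (if a - x ∈ S then (if a ∈ S then 1 - θ ^ j else 1) else 0) =
      (1 : ℝ) * S.card - θ ^ j * (univ.filter (fun a => a - x ∈ S ∧ a ∈ S)).card := by
    rw [← sum_ite_sub' S x 1, Finset.card_filter]
    push_cast
    rw [mul_sum, ← sum_sub_distrib]
    apply sum_congr rfl
    intro a _
    by_cases ha : a - x ∈ S <;> by_cases hb : a ∈ S <;> simp [ha, hb]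
  rw [e1]
  by_cases hx : x ∈ S
  · rw [if_pos hx]
    have := mul_le_mul_of_nonneg_left (H x hx) hθ
    rw [pow_succ]
    linarith
  · rw [if_neg hx]
    have : 0 ≤ θ ^ j * ((univ.filter (fun a => a - x ∈ S ∧ a ∈ S)).card : ℝ) := by positivity
    linarith

lemma vv_mono {θ : ℝ} (h0 : 0 ≤ θ) (h1 : θ ≤ 1) (Si : ∀ i, Finset (A i)) (j : ℕ)
    (x : ∀ i, A i) : vv θ Si j x ≤ vv θ Si (j + 1) x := by
  unfold vv
  apply prod_le_prod
  · intro i _
    split_ifs
    · have := pow_le_one₀ (n := j) h0 h1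
      linarith
    · norm_num
  · intro i _
    split_ifs
    · have : θ ^ (j + 1) ≤ θ ^ j := pow_le_pow_of_le_one h0 h1 (Nat.le_succ j)
      linarith
    · exact le_rfl

lemma vv_sup {θ : ℝ} (h0 : 0 ≤ θ) (h1 : θ ≤ 1) (Si : ∀ i, Finset (A i))
    (H : ∀ i, ∀ x ∈ Si i, θ * (Si i).card ≤
      ((univ.filter (fun a => a - x ∈ Si i ∧ a ∈ Si i)).card : ℝ)) (j : ℕ) (x : ∀ i, A i) :
    ∑ z, (if z - x ∈ Fintype.piFinset Si then vv θ Si j z else 0) ≤
      (Fintype.piFinset Si).card * vv θ Si (j + 1) x := by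
  have e1 : ∀ z : ∀ i, A i, (if z - x ∈ Fintype.piFinset Si then vv θ Si j z else 0) =
      ∏ i, (if z i - x i ∈ Si i then (if z i ∈ Si i then 1 - θ ^ j else 1) else 0) := by
    intro z
    rw [Finset.prod_ite_zero]
    simp only [Fintype.mem_piFinset, Pi.sub_apply, mem_univ, true_imp_iff]
    rfl
  simp_rw [e1]
  have e2 := Finset.prod_univ_sum (fun i => (univ : Finset (A i)))
    (fun i a => (if a - x i ∈ Si i then (if a ∈ Si i then 1 - θ ^ j else 1) else (0 : ℝ)))
  rw [Fintype.piFinset_univ] at e2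
  rw [← e2, Fintype.card_piFinset]
  push_cast
  unfold vv
  rw [← prod_mul_distrib]
  apply prod_le_prod
  · intro i _
    apply sum_nonneg
    intro a _
    split_ifs
    · have := pow_le_one₀ (n := j) h0 h1
      linarith
    · norm_num
    · norm_num
  · intro i _
    exact coord h0 h1 (Si i) (H i) j (x i)

/-- indicator of the avoidance set -/
noncomputable def av (Si : ∀ i, Finset (A i)) (x : ∀ i, A i) : ℝ :=
  if ∀ i, x i ∉ Si i then 1 else 0

lemma vv_zero {θ : ℝ} (Si : ∀ i, Finset (A i)) (x : ∀ i, A i) :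
    av Si x ≤ vv θ Si 0 x := by
  unfold vv av
  simp only [pow_zero, sub_self]
  split_ifs with h
  · apply le_of_eq
    symm
    apply prod_eq_one
    intro i _
    rw [if_neg (h i)]
  · apply prod_nonneg
    intro i _
    split_ifs <;> norm_num

lemma vv_at_zero {θ : ℝ} (Si : ∀ i, Finset (A i)) (h : ∀ i, 0 ∈ Si i) (t : ℕ) :
    vv θ Si t 0 = (1 - θ ^ t) ^ Fintype.card ι := by
  unfold vv
  simp only [Pi.zero_apply, h, if_true, prod_const, card_univ]

/-- uniform mass of the avoidance set -/
lemma avoid_mass (Si : ∀ i, Finset (A i)) {η : ℝ} (h0 : 0 ≤ η) (h1 : η ≤ 1)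
    (H : ∀ i, ((Si i).card : ℝ) ≤ η * Fintype.card (A i)) :
    1 - Fintype.card ι * η ≤
      (∑ z : ∀ i, A i, av Si z) / Fintype.card (∀ i, A i) := by
  unfold av
  have e1 : ∀ z : ∀ i, A i, (if ∀ i, z i ∉ Si i then (1 : ℝ) else 0) =
      ∏ i, (if z i ∉ Si i then (1 : ℝ) else 0) := by
    intro z
    rw [Finset.prod_ite_zero]
    simp
  simp_rw [e1]
  have e2 := Finset.prod_univ_sum (fun i => (univ : Finset (A i)))
    (fun i a => (if a ∉ Si i then (1 : ℝ) else 0))
  rw [Fintype.piFinset_univ] at e2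
  rw [← e2, Fintype.card_pi]
  push_cast
  rw [← prod_div_distrib]
  have e3 : ∀ i ∈ (univ : Finset ι), (1 - η) ≤
      (∑ a, (if a ∉ Si i then (1 : ℝ) else 0)) / Fintype.card (A i) := by
    intro i _
    have hA : (0 : ℝ) < Fintype.card (A i) := by exact_mod_cast Fintype.card_pos
    rw [le_div_iff₀ hA]
    have : ∑ a, (if a ∉ Si i then (1 : ℝ) else 0) = Fintype.card (A i) - (Si i).card := by
      have h1 : ∀ a : A i, (if a ∉ Si i then (1 : ℝ) else 0) = 1 - (if a ∈ Si i then 1 else 0) := by
        intro a; split_ifs <;> simp_all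
      simp_rw [h1]
      rw [sum_sub_distrib, Finset.sum_ite_mem]
      simp
    rw [this]
    have := H i
    linarith
  have e4 : (1 - η) ^ Fintype.card ι ≤
      ∏ i, ((∑ a, (if a ∉ Si i then (1 : ℝ) else 0)) / Fintype.card (A i)) := by
    rw [← card_univ, ← prod_const]
    exact prod_le_prod (fun i _ => by linarith) e3
  refine le_trans ?_ e4
  have := one_add_mul_le_pow (show (-2 : ℝ) ≤ -η by linarith) (Fintype.card ι)
  rw [← sub_eq_add_neg] at this
  linarith

/-- characters of products -/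
lemma char_sum_le (Si : ∀ i, Finset (A i)) {κ : ℝ} (hκ0 : 0 ≤ κ) (hκ : κ ≤ 1)
    (H : ∀ i, ∀ ψ : AddChar (A i) ℂ, ψ ≠ 0 → ‖∑ a ∈ Si i, ψ a‖ ≤ κ * (Si i).card)
    (χ : AddChar (∀ i, A i) ℂ) (hχ : χ ≠ 0) :
    ‖∑ x ∈ Fintype.piFinset Si, χ x‖ ≤ κ * (Fintype.piFinset Si).card := by
  classical
  set ψ : ∀ i, AddChar (A i) ℂ := fun i => χ.compAddMonoidHom (AddMonoidHom.single A i) with hψ
  have e1 : ∀ x : ∀ i, A i, χ x = ∏ i, ψ i (x i) := by
    intro x
    have h1 : x = ∑ i, Pi.single i (x i) := (Finset.univ_sum_single x).symm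
    conv_lhs => rw [h1]
    have h2 : ∀ s : Finset ι, χ (∑ i ∈ s, Pi.single i (x i)) = ∏ i ∈ s, ψ i (x i) := by
      intro s
      induction s using Finset.induction_on with
      | empty => simp
      | insert a s ha ih =>
        rw [sum_insert ha, prod_insert ha, AddChar.map_add_eq_mul, ih]
        rfl
    exact h2 univ
  simp_rw [e1]
  rw [← Finset.prod_univ_sum, norm_prod, Fintype.card_piFinset]
  push_cast
  have hex : ∃ i, ψ i ≠ 0 := by
    by_contra hcon
    push Not at hcon
    apply hχ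
    ext x
    rw [e1 x]
    simp [hcon]
  obtain ⟨i0, hi0⟩ := hex
  rw [← mul_prod_erase univ _ (mem_univ i0),
    ← mul_prod_erase univ (fun i => ((Si i).card : ℝ)) (mem_univ i0), ← mul_assoc]
  apply mul_le_mul (H i0 (ψ i0) hi0) _ (by positivity) (by positivity)
  apply prod_le_prod
  · intro i _
    exact norm_nonneg _
  · intro i _
    refine (norm_sum_le _ _).trans ?_
    rw [← nsmul_one, ← sum_const]
    apply sum_le_sum
    intro a _
    rw [AddChar.norm_apply]

end prodset

section cross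

variable {C D : Type} [AddCommGroup C] [AddCommGroup D] [Fintype C] [Fintype D] [DecidableEq C]
  [DecidableEq D]

/-- union of the two axes -/
def cross (C D : Type) [AddCommGroup C] [AddCommGroup D] [Fintype C] [Fintype D] [DecidableEq C]
    [DecidableEq D] : Finset (C × D) := univ.filter (fun z => z.1 = 0 ∨ z.2 = 0)

lemma cross_sum {R : Type} [AddCommGroup R] (f : C × D → R) :
    ∑ z ∈ cross C D, f z = ∑ c, f (c, 0) + ∑ d, f (0, d) - f 0 := by
  have h1 : cross C D = (univ.filter (fun z : C × D => z.2 = 0)) ∪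
      (univ.filter (fun z : C × D => z.1 = 0)) := by
    ext z
    simp [cross, or_comm]
  have h2 := Finset.sum_union_inter (s₁ := univ.filter (fun z : C × D => z.2 = 0))
    (s₂ := univ.filter (fun z : C × D => z.1 = 0)) (f := f)
  have h3 : (univ.filter (fun z : C × D => z.2 = 0)) ∩
      (univ.filter (fun z : C × D => z.1 = 0)) = {0} := by
    ext z
    simp only [mem_inter, mem_filter, mem_univ, true_and, mem_singleton, Prod.ext_iff,
      Prod.fst_zero, Prod.snd_zero]
    tauto
  have h4 : ∑ z ∈ univ.filter (fun z : C × D => z.2 = 0), f z = ∑ c, f (c, 0) := by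
    rw [sum_filter, Fintype.sum_prod_type]
    simp
  have h5 : ∑ z ∈ univ.filter (fun z : C × D => z.1 = 0), f z = ∑ d, f (0, d) := by
    rw [sum_filter, Fintype.sum_prod_type_right]
    simp
  rw [h3, h4, h5, sum_singleton] at h2
  rw [h1, ← h2]
  abel

lemma cross_card : ((cross C D).card : ℝ) = Fintype.card C + Fintype.card D - 1 := by
  have := cross_sum (C := C) (D := D) (fun _ => (1 : ℝ))
  simpa using this

lemma zero_mem_cross : (0 : C × D) ∈ cross C D := by simp [cross]

lemma cross_H1 (h1 : Fintype.card C ≤ 2 * Fintype.card D) (h2 : Fintype.card D ≤ 2 * Fintype.card C)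
    (x : C × D) (hx : x ∈ cross C D) :
    (1 / 3 : ℝ) * (cross C D).card ≤
      ((univ.filter (fun a => a - x ∈ cross C D ∧ a ∈ cross C D)).card : ℝ) := by
  rw [cross_card]
  have h1' : (Fintype.card C : ℝ) ≤ 2 * Fintype.card D := by exact_mod_cast h1
  have h2' : (Fintype.card D : ℝ) ≤ 2 * Fintype.card C := by exact_mod_cast h2
  simp only [cross, mem_filter, mem_univ, true_and] at hx
  rcases hx with hx | hx
  · have : Fintype.card D ≤ (univ.filter (fun a => a - x ∈ cross C D ∧ a ∈ cross C D)).card := by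
      rw [← card_univ]
      apply card_le_card_of_injOn (fun d => ((0 : C), d))
      · intro d _
        simp [cross, hx]
      · intro d _ d' _ h
        simpa using h
    have h3 : (Fintype.card D : ℝ) ≤
        ((univ.filter (fun a => a - x ∈ cross C D ∧ a ∈ cross C D)).card : ℝ) := by
      exact_mod_cast this
    linarith
  · have : Fintype.card C ≤ (univ.filter (fun a => a - x ∈ cross C D ∧ a ∈ cross C D)).card := by
      rw [← card_univ]
      apply card_le_card_of_injOn (fun d => (d, (0 : D)))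
      · intro d _
        simp [cross, hx]
      · intro d _ d' _ h
        simpa using h
    have h3 : (Fintype.card C : ℝ) ≤
        ((univ.filter (fun a => a - x ∈ cross C D ∧ a ∈ cross C D)).card : ℝ) := by
      exact_mod_cast this
    linarith

lemma cross_H2 (h1 : Fintype.card C ≤ 2 * Fintype.card D) (h2 : Fintype.card D ≤ 2 * Fintype.card C)
    (h3 : 3 ≤ Fintype.card C) (ψ : AddChar (C × D) ℂ) (hψ : ψ ≠ 0) :
    ‖∑ a ∈ cross C D, ψ a‖ ≤ (2 / 3 : ℝ) * (cross C D).card := by
  classical
  rw [cross_card, cross_sum]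
  set ψ1 : AddChar C ℂ := ψ.compAddMonoidHom (AddMonoidHom.inl C D) with hψ1
  set ψ2 : AddChar D ℂ := ψ.compAddMonoidHom (AddMonoidHom.inr C D) with hψ2
  have e1 : ∑ c, ψ (c, 0) = ∑ c, ψ1 c := rfl
  have e2 : ∑ d, ψ (0, d) = ∑ d, ψ2 d := rfl
  have e3 : ∀ c d, ψ (c, d) = ψ1 c * ψ2 d := by
    intro c d
    have : ((c, d) : C × D) = (c, 0) + (0, d) := by simp
    rw [this, AddChar.map_add_eq_mul]
    rfl
  rw [e1, e2, AddChar.map_zero_eq_one, AddChar.sum_eq_ite, AddChar.sum_eq_ite]
  have h1' : (Fintype.card C : ℝ) ≤ 2 * Fintype.card D := by exact_mod_cast h1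
  have h2' : (Fintype.card D : ℝ) ≤ 2 * Fintype.card C := by exact_mod_cast h2
  have h3' : (3 : ℝ) ≤ Fintype.card C := by exact_mod_cast h3
  by_cases ha : ψ1 = 0 <;> by_cases hb : ψ2 = 0
  · exfalso
    apply hψ
    ext ⟨c, d⟩
    rw [e3, ha, hb]
    simp
  · rw [if_pos ha, if_neg hb]
    have : ((Fintype.card C : ℂ) + 0 - 1) = ((Fintype.card C - 1 : ℝ) : ℂ) := by push_cast; ring
    rw [this, Complex.norm_real, Real.norm_of_nonneg (by linarith)]
    linarith
  · rw [if_neg ha, if_pos hb]
    have : ((0 : ℂ) + (Fintype.card D : ℂ) - 1) = ((Fintype.card D - 1 : ℝ) : ℂ) := by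
      push_cast; ring
    rw [this, Complex.norm_real, Real.norm_of_nonneg (by linarith)]
    linarith
  · rw [if_neg ha, if_neg hb]
    simp only [add_zero, zero_sub, norm_neg, norm_one]
    linarith

end cross

end Pool.Agent.Pak
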