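import Pool.Agent.PakA

set_option autoImplicit false
set_option linter.unusedSectionVars false
set_option linter.unusedVariables false

namespace Pool.Agent.Pak

open Finset

structure Params (n : ℕ) where
  p : Fin (6 ^ n) → ℕ
  q : Fin (6 ^ n) → ℕ
  b : ℕ
  pp : ∀ i, (p i).Prime
  qp : ∀ i, (q i).Prime
  cop : ∀ i, (p i).Coprime (q i)
  pw : Pairwise (fun i j => (p i * q i).Coprime (p j * q j))
  bcop : (∏ i, (p i * q i)).Coprime b
  b2 : 2 ≤ b
  pbig : ∀ i, 40 * 6 ^ n ≤ p i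
  qbig : ∀ i, 40 * 6 ^ n ≤ q i
  r1 : ∀ i, p i ≤ 2 * q i
  r2 : ∀ i, q i ≤ 2 * p i
  blow : 2 * n * ∏ i, (p i * q i) ≤ (∏ i, (p i + q i - 1)) * (b - 1)
  bup : (∏ i, (p i + q i - 1)) * (b - 1) ≤ 4 * n * (∏ i, (p i * q i)) + 4 * ∏ i, (p i + q i - 1)

/-- a chain of primes -/
noncomputable def nextP (a : ℕ) (h : a ≠ 0) : ℕ := (Nat.exists_prime_lt_and_le_two_mul a h).choose

lemma nextP_spec (a : ℕ) (h : a ≠ 0) :
    (nextP a h).Prime ∧ a < nextP a h ∧ nextP a h ≤ 2 * a :=
  (Nat.exists_prime_lt_and_le_two_mul a h).choose_spec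

noncomputable def chain (a : {x : ℕ // x ≠ 0}) : ℕ → {x : ℕ // x ≠ 0}
  | 0 => ⟨nextP a.1 a.2, (nextP_spec a.1 a.2).1.ne_zero⟩
  | j + 1 => ⟨nextP (chain a j).1 (chain a j).2, (nextP_spec _ _).1.ne_zero⟩

lemma chain_prime (a : {x : ℕ // x ≠ 0}) (j : ℕ) : (chain a j).1.Prime := by
  cases j with
  | zero => exact (nextP_spec a.1 a.2).1
  | succ j => exact (nextP_spec (chain a j).1 (chain a j).2).1

lemma chain_lt (a : {x : ℕ // x ≠ 0}) (j : ℕ) : (chain a j).1 < (chain a (j + 1)).1 :=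
  (nextP_spec (chain a j).1 (chain a j).2).2.1

lemma chain_le (a : {x : ℕ // x ≠ 0}) (j : ℕ) : (chain a (j + 1)).1 ≤ 2 * (chain a j).1 :=
  (nextP_spec (chain a j).1 (chain a j).2).2.2

lemma chain_mono (a : {x : ℕ // x ≠ 0}) : StrictMono (fun j => (chain a j).1) :=
  strictMono_nat_of_lt_succ (chain_lt a)

lemma chain_ge (a : {x : ℕ // x ≠ 0}) (j : ℕ) : a.1 ≤ (chain a j).1 := by
  have h0 : a.1 < (chain a 0).1 := (nextP_spec a.1 a.2).2.1
  exact h0.le.trans ((chain_mono a).monotone (Nat.zero_le j))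

lemma params_exist (n : ℕ) : Nonempty (Params n) := by
  have h6 : 0 < 6 ^ n := by positivity
  set a : {x : ℕ // x ≠ 0} := ⟨40 * 6 ^ n, by positivity⟩ with ha
  set P : ℕ → ℕ := fun j => (chain a j).1 with hP
  have hprime : ∀ j, (P j).Prime := chain_prime a
  have hmono : StrictMono P := chain_mono a
  have hbig : ∀ j, 40 * 6 ^ n ≤ P j := chain_ge a
  have hcop : ∀ i j, i ≠ j → (P i).Coprime (P j) := by
    intro i j hij
    rw [Nat.coprime_primes (hprime i) (hprime j)]
    exact fun h => hij (hmono.injective h)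
  set p : Fin (6 ^ n) → ℕ := fun i => P (2 * i.1) with hp
  set q : Fin (6 ^ n) → ℕ := fun i => P (2 * i.1 + 1) with hq
  set k := ∏ i, (p i * q i) with hk
  set s := ∏ i, (p i + q i - 1) with hs
  have hs0 : 0 < s := by
    apply prod_pos
    intro i _
    have := (hprime (2 * i.1)).one_lt
    have := (hprime (2 * i.1 + 1)).one_lt
    simp only [hp, hq]
    omega
  set X := 2 * n * k / s + 2 with hX
  set e := Nat.log 2 X + 1 with he
  have hX0 : X ≠ 0 := by rw [hX]; exact Nat.succ_ne_zero _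
  have hb1 : X < 2 ^ e := Nat.lt_pow_succ_log_self (by norm_num) X
  have hb2 : 2 ^ e ≤ 2 * X := by
    rw [he, pow_succ, mul_comm]
    exact Nat.mul_le_mul_left 2 (Nat.pow_log_le_self 2 hX0)
  have hodd : ∀ j, (P j).Coprime 2 := by
    intro j
    rw [Nat.coprime_primes (hprime j) Nat.prime_two]
    have := hbig j
    omega
  refine ⟨⟨p, q, 2 ^ e, fun i => hprime _, fun i => hprime _, fun i => hcop (2 * i.1) (2 * i.1 + 1) (by omega), ?_, ?_,
    ?_, fun i => hbig _, fun i => hbig _, ?_, ?_, ?_, ?_⟩⟩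
  · intro i j hij
    have hij' : i.1 ≠ j.1 := fun h => hij (Fin.ext h)
    apply Nat.Coprime.mul_left
    · exact Nat.Coprime.mul_right (hcop _ _ (by omega)) (hcop _ _ (by omega))
    · exact Nat.Coprime.mul_right (hcop _ _ (by omega)) (hcop _ _ (by omega))
  · apply Nat.Coprime.pow_right
    apply Nat.Coprime.prod_left
    intro i _
    exact Nat.Coprime.mul_left (hodd _) (hodd _)
  · omega
  · intro i
    have : P (2 * i.1) < P (2 * i.1 + 1) := hmono (by omega)
    simp only [hp, hq]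
    omega
  · intro i
    exact chain_le a _
  · show 2 * n * k ≤ s * (2 ^ e - 1)
    have h1 : 2 * n * k < s * (2 * n * k / s + 1) := Nat.lt_mul_div_succ _ hs0
    have h2 : s * (2 * n * k / s + 1) ≤ s * (2 ^ e - 1) := Nat.mul_le_mul_left _ (by omega)
    omega
  · show s * (2 ^ e - 1) ≤ 4 * n * k + 4 * s
    have h1 : s * (2 * n * k / s) ≤ 2 * n * k := Nat.mul_div_le _ _
    have h2 : s * (2 ^ e - 1) ≤ s * (2 * (2 * n * k / s) + 4) := Nat.mul_le_mul_left _ (by omega)
    have h3 : s * (2 * (2 * n * k / s) + 4) = 2 * (s * (2 * n * k / s)) + 4 * s := by ring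
    have h4 : 4 * n * k = 2 * (2 * n * k) := by ring
    omega

section walk

variable {n : ℕ} (π : Params n)

instance (i : Fin (6 ^ n)) : NeZero (π.p i) := ⟨(π.pp i).ne_zero⟩
instance (i : Fin (6 ^ n)) : NeZero (π.q i) := ⟨(π.qp i).ne_zero⟩
instance : NeZero π.b := ⟨by have := π.b2; omega⟩

/-- the factor carrying the slow coordinates -/
abbrev KK : Type := ∀ i : Fin (6 ^ n), ZMod (π.p i) × ZMod (π.q i)

/-- the vertex group -/
abbrev VV : Type := KK π × ZMod π.b

def SS : Finset (KK π) := Fintype.piFinset (fun i => cross (ZMod (π.p i)) (ZMod (π.q i)))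

lemma card_KK : Fintype.card (KK π) = ∏ i, (π.p i * π.q i) := by
  rw [Fintype.card_pi]
  simp [Fintype.card_prod, ZMod.card]

lemma card_SS : (SS π).card = ∏ i, (π.p i + π.q i - 1) := by
  unfold SS
  rw [Fintype.card_piFinset]
  apply prod_congr rfl
  intro i _
  have h := cross_card (C := ZMod (π.p i)) (D := ZMod (π.q i))
  rw [ZMod.card, ZMod.card] at h
  have h1 : 1 ≤ π.p i + π.q i := by have := (π.pp i).one_lt; omega
  have : ((cross (ZMod (π.p i)) (ZMod (π.q i))).card : ℝ) = ((π.p i + π.q i - 1 : ℕ) : ℝ) := by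
    rw [h, Nat.cast_sub h1]
    push_cast
    ring
  exact_mod_cast this

/-- number of generators (as a real number) -/
noncomputable def DD : ℝ := Fintype.card (KK π) + (SS π).card * ((π.b : ℝ) - 1) - 1

noncomputable def cc : ℝ := 1 / (2 * DD π)
noncomputable def rr : ℝ := 1 / 2 - cc π

lemma zero_mem_SS : (0 : KK π) ∈ SS π := by
  unfold SS
  rw [Fintype.mem_piFinset]
  exact fun i => zero_mem_cross

lemma SS_le : (SS π).card ≤ Fintype.card (KK π) := card_le_univ _

lemma SS_pos : 0 < (SS π).card := card_pos.2 ⟨0, zero_mem_SS π⟩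

lemma bR : (2 : ℝ) ≤ π.b := by exact_mod_cast π.b2

lemma DD_ge : (2 * n : ℝ) * Fintype.card (KK π) ≤ DD π := by
  have h := π.blow
  rw [← card_KK, ← card_SS] at h
  have h1 : ((2 * n * Fintype.card (KK π) : ℕ) : ℝ) ≤ (((SS π).card * (π.b - 1) : ℕ) : ℝ) := by
    exact_mod_cast h
  have hb : 1 ≤ π.b := by have := π.b2; omega
  push_cast [Nat.cast_sub hb] at h1
  unfold DD
  have h2 : (1 : ℝ) ≤ Fintype.card (KK π) := by
    exact_mod_cast (Fintype.card_pos : 0 < Fintype.card (KK π))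
  linarith

lemma DD_ge1 : (1 : ℝ) ≤ DD π := by
  unfold DD
  have h1 : (1 : ℝ) ≤ (SS π).card := by exact_mod_cast SS_pos π
  have h2 : ((SS π).card : ℝ) ≤ Fintype.card (KK π) := by exact_mod_cast SS_le π
  have h3 := bR π
  have : (1 : ℝ) * 1 ≤ (SS π).card * ((π.b : ℝ) - 1) := by
    apply mul_le_mul h1 (by linarith) (by norm_num) (by linarith)
  linarith

lemma DD_le : DD π ≤ (4 * n + 5) * Fintype.card (KK π) := by
  have h := π.bup
  rw [← card_KK, ← card_SS] at h
  have h1 : (((SS π).card * (π.b - 1) : ℕ) : ℝ) ≤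
      ((4 * n * Fintype.card (KK π) + 4 * (SS π).card : ℕ) : ℝ) := by
    exact_mod_cast h
  have hb : 1 ≤ π.b := by have := π.b2; omega
  push_cast [Nat.cast_sub hb] at h1
  have h2 : ((SS π).card : ℝ) ≤ Fintype.card (KK π) := by exact_mod_cast SS_le π
  unfold DD
  linarith

lemma cc_pos : 0 < cc π := by
  unfold cc
  have := DD_ge1 π
  positivity

lemma cc_le : cc π ≤ 1 / 2 := by
  unfold cc
  have := DD_ge1 π
  rw [div_le_div_iff₀ (by positivity) (by norm_num)]
  linarith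

lemma rr_nonneg : 0 ≤ rr π := by
  unfold rr
  have := cc_le π
  linarith

lemma norm_VV : Norm (KK π) (ZMod π.b) (rr π) (cc π) (SS π) := by
  unfold Norm rr
  rw [ZMod.card]
  have hD := DD_ge1 π
  have h1 : (Fintype.card (KK π) : ℝ) + (SS π).card * ((π.b : ℝ) - 1) = DD π + 1 := by
    unfold DD; ring
  rw [h1]
  unfold cc
  field_simp
  ring

lemma rho_nonneg : 0 ≤ rr π + cc π * Fintype.card (KK π) - cc π * (SS π).card := by
  have h2 : ((SS π).card : ℝ) ≤ Fintype.card (KK π) := by exact_mod_cast SS_le π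
  have := mul_le_mul_of_nonneg_left h2 (cc_pos π).le
  have := rr_nonneg π
  linarith

/-- probability of a uniform jump of the slow coordinates -/
noncomputable def bet : ℝ := cc π * Fintype.card (KK π)

lemma kpos : (0 : ℝ) < Fintype.card (KK π) := by
  exact_mod_cast (Fintype.card_pos : 0 < Fintype.card (KK π))

lemma bet_le (hn : 1 ≤ n) : bet π ≤ 1 / (4 * n) := by
  unfold bet cc
  have hD := DD_ge π
  have hk := kpos π
  have hn' : (1 : ℝ) ≤ n := by exact_mod_cast hn
  have hD1 := DD_ge1 π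
  rw [one_div_mul_eq_div, div_le_div_iff₀ (by positivity) (by positivity)]
  linarith

lemma bet_ge : 1 / (8 * n + 10) ≤ bet π := by
  unfold bet cc
  have hD := DD_le π
  have hk := kpos π
  have hD1 := DD_ge1 π
  rw [one_div_mul_eq_div, div_le_div_iff₀ (by positivity) (by positivity)]
  linarith

lemma bet_nonneg : 0 ≤ bet π := by
  unfold bet
  have := cc_pos π
  positivity

/-- transition matrix of the walk -/
noncomputable def PP : Matrix (VV π) (VV π) ℝ := P (rr π) (cc π) (SS π)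

lemma PP_lower (hn : 1 ≤ n) (t : ℕ) (x y : VV π) :
    (1 - (1 - bet π) ^ t - 4 * bet π) / Fintype.card (VV π) ≤ (PP π ^ t) x y := by
  have h := lower (norm_VV π) (rr_nonneg π) (cc_pos π).le (rho_nonneg π) t x y
  rw [Fintype.card_prod, Nat.cast_mul]
  refine le_trans ?_ h
  apply div_le_div_of_nonneg_right _ (by positivity)
  set ρ := rr π + cc π * Fintype.card (KK π) - cc π * (SS π).card with hρ
  have hρ0 : 0 ≤ ρ := rho_nonneg π
  have hβ := bet_le π hn
  have hn' : (1 : ℝ) ≤ n := by exact_mod_cast hn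
  have hβ4 : bet π ≤ 1 / 4 := by
    refine hβ.trans ?_
    rw [div_le_div_iff₀ (by positivity) (by norm_num)]
    linarith
  have hρ1 : ρ ≤ 3 / 4 := by
    have h1 : 0 ≤ cc π * (SS π).card := by have := cc_pos π; positivity
    have h2 : rr π ≤ 1 / 2 := by unfold rr; have := cc_pos π; linarith
    have h3 : bet π = cc π * Fintype.card (KK π) := rfl
    rw [hρ]; linarith
  have hg : ∑ j ∈ range t, ρ ^ j ≤ 4 := by
    have h1 : (∑ j ∈ range t, ρ ^ j) * (1 - ρ) = 1 - ρ ^ t := by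
      have := geom_sum_mul_neg ρ t
      linarith
    have h2 : 0 ≤ ρ ^ t := pow_nonneg hρ0 t
    have h3 : 0 ≤ ∑ j ∈ range t, ρ ^ j := sum_nonneg fun j _ => pow_nonneg hρ0 j
    nlinarith
  have hb0 := bet_nonneg π
  have h3 : bet π = cc π * Fintype.card (KK π) := rfl
  rw [← h3]
  have := mul_le_mul_of_nonneg_left hg hb0
  linarith

lemma PP_trans (t : ℕ) (x y g : VV π) : (PP π ^ t) (x + g) (y + g) = (PP π ^ t) x y :=
  pow_trans _ _ _ t x y g

lemma PP_nonneg (t : ℕ) (x y : VV π) : 0 ≤ (PP π ^ t) x y :=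
  pow_nonneg' (rr_nonneg π) (cc_pos π).le _ t x y

lemma PP_row (t : ℕ) (x : VV π) : ∑ y, (PP π ^ t) x y = 1 := pow_row_sum (norm_VV π) t x

/-- avoidance set -/
noncomputable def FF (x : KK π) : ℝ :=
  av (fun i => cross (ZMod (π.p i)) (ZMod (π.q i))) x

lemma FF_mass : 19 / 20 ≤ (∑ z, FF π z) / Fintype.card (KK π) := by
  have h6 : (0 : ℝ) < 6 ^ n := by positivity
  have h := avoid_mass (A := fun i : Fin (6 ^ n) => ZMod (π.p i) × ZMod (π.q i))
    (fun i => cross (ZMod (π.p i)) (ZMod (π.q i))) (η := 1 / (20 * 6 ^ n)) (by positivity)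
    (by
      rw [div_le_one (by positivity)]
      have : (1 : ℝ) ≤ 6 ^ n := one_le_pow₀ (by norm_num)
      linarith)
    (by
      intro i
      rw [cross_card, Fintype.card_prod, ZMod.card, ZMod.card]
      have h1 : ((40 * 6 ^ n : ℕ) : ℝ) ≤ π.p i := by exact_mod_cast π.pbig i
      have h2 : ((40 * 6 ^ n : ℕ) : ℝ) ≤ π.q i := by exact_mod_cast π.qbig i
      push_cast at h1 h2 ⊢
      rw [one_div_mul_eq_div, le_div_iff₀ (by positivity)]
      have hp : (0 : ℝ) < π.p i := by linarith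
      have hq : (0 : ℝ) < π.q i := by linarith
      have e1 : (π.p i : ℝ) * (20 * 6 ^ n) ≤ π.p i * (π.q i / 2) :=
        mul_le_mul_of_nonneg_left (by linarith) hp.le
      have e2 : (π.q i : ℝ) * (20 * 6 ^ n) ≤ π.q i * (π.p i / 2) :=
        mul_le_mul_of_nonneg_left (by linarith) hq.le
      nlinarith)
  have e : (1 : ℝ) - Fintype.card (Fin (6 ^ n)) * (1 / (20 * 6 ^ n)) = 19 / 20 := by
    rw [Fintype.card_fin]
    push_cast
    field_simp
    norm_num
  rw [e] at h
  exact h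

lemma vvs_zero (x : KK π) :
    FF π x ≤ vv (1/3) (fun i => cross (ZMod (π.p i)) (ZMod (π.q i))) 0 x :=
  vv_zero (A := fun i : Fin (6 ^ n) => ZMod (π.p i) × ZMod (π.q i))
    (fun i => cross (ZMod (π.p i)) (ZMod (π.q i))) x

lemma vvs_mono (j : ℕ) (x : KK π) :
    vv (1/3) (fun i => cross (ZMod (π.p i)) (ZMod (π.q i))) j x ≤
      vv (1/3) (fun i => cross (ZMod (π.p i)) (ZMod (π.q i))) (j + 1) x :=
  vv_mono (A := fun i : Fin (6 ^ n) => ZMod (π.p i) × ZMod (π.q i)) (by norm_num) (by norm_num)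
    (fun i => cross (ZMod (π.p i)) (ZMod (π.q i))) j x

lemma vvs_H (i : Fin (6 ^ n)) (x : ZMod (π.p i) × ZMod (π.q i))
    (hx : x ∈ cross (ZMod (π.p i)) (ZMod (π.q i))) :
    (1 / 3 : ℝ) * (cross (ZMod (π.p i)) (ZMod (π.q i))).card ≤
      ((univ.filter (fun a => a - x ∈ cross (ZMod (π.p i)) (ZMod (π.q i)) ∧
        a ∈ cross (ZMod (π.p i)) (ZMod (π.q i)))).card : ℝ) :=
  cross_H1 (by rw [ZMod.card, ZMod.card]; exact π.r1 i)
    (by rw [ZMod.card, ZMod.card]; exact π.r2 i) x hx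

lemma vvs_sup (j : ℕ) (x : KK π) :
    ∑ z, (if z - x ∈ SS π then
      vv (1/3) (fun i => cross (ZMod (π.p i)) (ZMod (π.q i))) j z else 0) ≤
      (SS π).card * vv (1/3) (fun i => cross (ZMod (π.p i)) (ZMod (π.q i))) (j + 1) x :=
  vv_sup (A := fun i : Fin (6 ^ n) => ZMod (π.p i) × ZMod (π.q i)) (by norm_num) (by norm_num)
    (fun i => cross (ZMod (π.p i)) (ZMod (π.q i))) (vvs_H π) j x

lemma PP_E_upper (hn : 5 ≤ n) (t : ℕ) (ht : t ≤ n) :
    ∑ y : VV π, (PP π ^ t) 0 y * FF π y.1 ≤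
      (∑ z, FF π z) / Fintype.card (KK π) - 27 / 40 := by
  have h := mass_upper (norm_VV π) (rr_nonneg π) (cc_pos π).le
    (vv (1/3) (fun i => cross (ZMod (π.p i)) (ZMod (π.q i)))) (FF π)
    (vvs_zero π) (vvs_mono π) (vvs_sup π) t 0
  refine h.trans ?_
  rw [Prod.fst_zero, vv_at_zero _ (fun i => zero_mem_cross)]
  have h3 : bet π = cc π * Fintype.card (KK π) := rfl
  rw [← h3]
  have hβ := bet_le π (by omega)
  have hβ0 := bet_nonneg π
  have hn' : (5 : ℝ) ≤ n := by exact_mod_cast hn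
  have hmass := FF_mass π
  set u := (∑ z, FF π z) / Fintype.card (KK π) with hu
  -- (1-β)^t ≥ 3/4
  have hβn : bet π * n ≤ 1 / 4 := by
    have : (n : ℝ) ≠ 0 := by linarith
    calc bet π * n ≤ 1 / (4 * n) * n := mul_le_mul_of_nonneg_right hβ (by linarith)
      _ = 1 / 4 := by field_simp
  have hβ1 : bet π ≤ 1 := by nlinarith
  have h4 : 3 / 4 ≤ (1 - bet π) ^ t := by
    have h5 := one_add_mul_le_pow (show (-2 : ℝ) ≤ -bet π by linarith) t
    rw [← sub_eq_add_neg] at h5
    have ht' : (t : ℝ) ≤ n := by exact_mod_cast ht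
    have : (t : ℝ) * bet π ≤ n * bet π := mul_le_mul_of_nonneg_right ht' hβ0
    nlinarith
  -- (1-3^-t)^(6^n) ≤ 1/20
  have h6 : (1 - (1 / 3 : ℝ) ^ t) ^ Fintype.card (Fin (6 ^ n)) ≤ 1 / 20 := by
    rw [Fintype.card_fin]
    have e1 : (1 / 3 : ℝ) ^ n ≤ (1 / 3) ^ t := pow_le_pow_of_le_one (by norm_num) (by norm_num) ht
    have e2 : (0 : ℝ) ≤ 1 - (1 / 3) ^ t := by
      have := pow_le_one₀ (n := t) (show (0 : ℝ) ≤ 1 / 3 by norm_num) (by norm_num)
      linarith
    have e3 : 1 - (1 / 3 : ℝ) ^ t ≤ Real.exp (-(1 / 3) ^ n) := by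
      have := Real.add_one_le_exp (-(1 / 3 : ℝ) ^ n)
      linarith
    calc (1 - (1 / 3 : ℝ) ^ t) ^ (6 ^ n) ≤ (Real.exp (-(1 / 3) ^ n)) ^ (6 ^ n) :=
          pow_le_pow_left₀ e2 e3 _
      _ = Real.exp (-(2 ^ n)) := by
          rw [← Real.exp_nat_mul]
          congr 1
          push_cast
          rw [mul_neg, ← mul_pow]
          norm_num
      _ ≤ 1 / 20 := by
          rw [Real.exp_neg, ← one_div]
          apply one_div_le_one_div_of_le (by norm_num)
          have e4 : (32 : ℝ) ≤ 2 ^ n := by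
            calc (32 : ℝ) = 2 ^ 5 := by norm_num
              _ ≤ 2 ^ n := pow_le_pow_right₀ (by norm_num) hn
          have := Real.add_one_le_exp ((2 : ℝ) ^ n)
          linarith
  set w := (1 - (1 / 3 : ℝ) ^ t) ^ Fintype.card (Fin (6 ^ n)) with hw
  set g := (1 - bet π) ^ t with hg
  have e : (1 - g) * u + g * w = u - g * (u - w) := by ring
  rw [e]
  have : (3 / 4 : ℝ) * (9 / 10) ≤ g * (u - w) :=
    mul_le_mul h4 (by linarith) (by norm_num) (by linarith)
  linarith

/-- total variation at time `t` from `x` -/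
noncomputable def tv (t : ℕ) (x : VV π) : ℝ :=
  (1 / 2) * ∑ y, |(PP π ^ t) x y - 1 / Fintype.card (VV π)|

lemma tv_eq (t : ℕ) (x : VV π) : tv π t x = tv π t 0 := by
  unfold tv
  congr 1
  rw [Fintype.sum_equiv (Equiv.subRight x) _
    (fun y => |(PP π ^ t) 0 y - 1 / Fintype.card (VV π)|)]
  intro y
  have := PP_trans π t 0 (y - x) x
  rw [zero_add, sub_add_cancel] at this
  simp only [Equiv.subRight_apply]
  rw [this]

lemma sum_FF_VV : ∑ y : VV π, (1 / Fintype.card (VV π) : ℝ) * FF π y.1 =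
    (∑ z, FF π z) / Fintype.card (KK π) := by
  have hb : (0 : ℝ) < π.b := by have := bR π; linarith
  have hk := kpos π
  rw [Fintype.sum_prod_type]
  simp only [sum_const, card_univ, nsmul_eq_mul]
  rw [Fintype.card_prod, ZMod.card]
  push_cast
  rw [← mul_sum, ← mul_sum]
  field_simp

lemma tv_lower (hn : 5 ≤ n) (t : ℕ) (ht : t ≤ n) (x : VV π) : 27 / 40 ≤ tv π t x := by
  rw [tv_eq]
  have h1 := PP_E_upper π hn t ht
  have h2 := sum_FF_VV π
  have h3 : 27 / 40 ≤ ∑ y : VV π, (1 / Fintype.card (VV π) - (PP π ^ t) 0 y) * FF π y.1 := by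
    simp_rw [sub_mul]
    rw [sum_sub_distrib, h2]
    linarith
  -- sum over all = 0
  have hV : (0 : ℝ) < Fintype.card (VV π) := by
    exact_mod_cast (Fintype.card_pos : 0 < Fintype.card (VV π))
  have h4 : ∑ y : VV π, (1 / Fintype.card (VV π) - (PP π ^ t) 0 y) = 0 := by
    rw [sum_sub_distrib, PP_row, sum_const, card_univ, nsmul_eq_mul]
    field_simp
    ring
  have h5 : ∑ y : VV π, (1 / Fintype.card (VV π) - (PP π ^ t) 0 y) * FF π y.1 ≤ tv π t 0 := by
    have h6 : ∑ y : VV π, (1 / Fintype.card (VV π) - (PP π ^ t) 0 y) * FF π y.1 =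
        ∑ y : VV π, (1 / Fintype.card (VV π) - (PP π ^ t) 0 y) * (FF π y.1 - 1 / 2) := by
      simp_rw [mul_sub]
      rw [sum_sub_distrib, ← sum_mul, h4]
      ring
    rw [h6]
    unfold tv
    rw [mul_sum]
    apply sum_le_sum
    intro y _
    have h7 : |FF π y.1 - 1 / 2| ≤ 1 / 2 := by
      unfold FF av
      split_ifs <;> norm_num
    calc (1 / Fintype.card (VV π) - (PP π ^ t) 0 y) * (FF π y.1 - 1 / 2)
        ≤ |(1 / Fintype.card (VV π) - (PP π ^ t) 0 y) * (FF π y.1 - 1 / 2)| := le_abs_self _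
      _ = |(PP π ^ t) 0 y - 1 / Fintype.card (VV π)| * |FF π y.1 - 1 / 2| := by
          rw [abs_mul, abs_sub_comm]
      _ ≤ |(PP π ^ t) 0 y - 1 / Fintype.card (VV π)| * (1 / 2) := by gcongr
      _ = _ := by ring
  linarith

lemma tv_upper (hn : 1 ≤ n) (t : ℕ) (x : VV π) :
    tv π t x ≤ (1 - bet π) ^ t + 4 * bet π := by
  have hV : (0 : ℝ) < Fintype.card (VV π) := by
    exact_mod_cast (Fintype.card_pos : 0 < Fintype.card (VV π))
  have hlow := PP_lower π hn t x
  set δ := (1 - bet π) ^ t + 4 * bet π with hδ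
  have hδ0 : 0 ≤ δ := by
    have h1 : bet π ≤ 1 := by
      have h2 := bet_le π hn
      have hn' : (1 : ℝ) ≤ n := by exact_mod_cast hn
      refine h2.trans ?_
      rw [div_le_one (by positivity)]
      linarith
    have h2 := bet_nonneg π
    have : 0 ≤ (1 - bet π) ^ t := pow_nonneg (by linarith) t
    positivity
  have hlow' : ∀ y, (1 - δ) / Fintype.card (VV π) ≤ (PP π ^ t) x y := by
    intro y
    have := hlow y
    rw [hδ]
    convert this using 2
    ring
  have h4 : ∑ y : VV π, ((PP π ^ t) x y - 1 / Fintype.card (VV π)) = 0 := by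
    rw [sum_sub_distrib, PP_row, sum_const, card_univ, nsmul_eq_mul]
    field_simp
    ring
  -- |a| = a + 2 a^-  and a^- ≤ δ/|V|
  have h5 : ∀ y, |(PP π ^ t) x y - 1 / Fintype.card (VV π)| ≤
      ((PP π ^ t) x y - 1 / Fintype.card (VV π)) + 2 * (δ / Fintype.card (VV π)) := by
    intro y
    have h6 := hlow' y
    have h7 : (1 - δ) / Fintype.card (VV π) = 1 / Fintype.card (VV π) - δ / Fintype.card (VV π) := by
      rw [sub_div]
    rw [h7] at h6
    have h8 : 0 ≤ δ / (Fintype.card (VV π) : ℝ) := by positivity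
    rw [abs_le]
    constructor <;> linarith
  unfold tv
  calc (1 / 2) * ∑ y, |(PP π ^ t) x y - 1 / Fintype.card (VV π)|
      ≤ (1 / 2) * ∑ y, (((PP π ^ t) x y - 1 / Fintype.card (VV π)) +
          2 * (δ / Fintype.card (VV π))) := by
        gcongr with y _
        exact h5 y
    _ = δ := by
        rw [sum_add_distrib, h4, sum_const, card_univ, nsmul_eq_mul]
        field_simp
        ring

/-! ### eigenvalues -/

lemma char_bound (hn : 1 ≤ n) (χ : AddChar (VV π) ℂ) (hχ : χ ≠ 0) :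
    ‖∑ g, (PP π g 0 : ℂ) * χ g‖ ≤ 5 / 6 := by
  classical
  set χ1 : AddChar (KK π) ℂ := χ.compAddMonoidHom (AddMonoidHom.inl _ _) with hχ1
  set χ2 : AddChar (ZMod π.b) ℂ := χ.compAddMonoidHom (AddMonoidHom.inr _ _) with hχ2
  have e3 : ∀ c d, χ (c, d) = χ1 c * χ2 d := by
    intro c d
    have : ((c, d) : VV π) = (c, 0) + (0, d) := by simp
    rw [this, AddChar.map_add_eq_mul]
    rfl
  have hr := rr_nonneg π
  have hc := (cc_pos π).le
  have hβ := bet_le π hn
  have hβ4 : bet π ≤ 1 / 4 := by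
    have hn' : (1 : ℝ) ≤ n := by exact_mod_cast hn
    refine hβ.trans ?_
    rw [div_le_div_iff₀ (by positivity) (by norm_num)]
    linarith
  have hr2 : rr π ≤ 1 / 2 := by unfold rr; have := cc_pos π; linarith
  -- the sum over the symmetric set
  have hneg : ∑ x : KK π, (if -x ∈ SS π then χ1 x else 0) = ∑ x ∈ SS π, χ1 x := by
    rw [← Finset.sum_filter]
    apply sum_congr _ (fun x _ => rfl)
    ext x
    simp only [mem_filter, mem_univ, true_and]
    unfold SS
    rw [Fintype.mem_piFinset, Fintype.mem_piFinset]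
    simp [cross]
  have hsum : ∑ g, (PP π g 0 : ℂ) * χ g = (rr π : ℂ) + (cc π : ℂ) * (∑ x, χ1 x) +
      (cc π : ℂ) * (∑ x ∈ SS π, χ1 x) * (∑ v, χ2 v - 1) := by
    rw [← hneg, Fintype.sum_prod_type_right]
    have e4 : ∀ v : ZMod π.b, ∑ x : KK π, (PP π (x, v) 0 : ℂ) * χ (x, v) =
        (if v = 0 then (rr π : ℂ) + (cc π : ℂ) * (∑ x, χ1 x) else
          (cc π : ℂ) * (∑ x : KK π, (if -x ∈ SS π then χ1 x else 0)) * χ2 v) := by
      intro v
      unfold PP P
      by_cases hv : v = 0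
      · subst hv
        simp only [Prod.mk_eq_zero, and_true, Prod.snd_zero, Prod.fst_zero, ne_eq,
          not_true_eq_false, false_and, if_false, if_true, add_zero]
        have e5 : ∀ x : KK π, (((if x = 0 then rr π else 0) + cc π : ℝ) : ℂ) * χ (x, 0) =
            (if x = 0 then (rr π : ℂ) else 0) + (cc π : ℂ) * χ1 x := by
          intro x
          rw [e3]
          by_cases hx : x = 0
          · subst hx
            simp
          · simp [hx]
        simp_rw [e5]
        rw [sum_add_distrib, ← mul_sum]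
        simp
      · have hv' : ¬ (0 = v) := fun h => hv h.symm
        simp only [Prod.mk_eq_zero, hv, and_false, if_false, Prod.snd_zero, hv', Prod.fst_zero,
          zero_sub, ne_eq, not_false_eq_true, true_and, add_zero, zero_add]
        rw [mul_sum, sum_mul]
        apply sum_congr rfl
        intro x _
        rw [e3]
        split_ifs
        · push_cast; ring
        · simp
    simp_rw [e4]
    rw [← add_sum_erase univ _ (mem_univ (0 : ZMod π.b))]
    rw [if_pos rfl]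
    congr 1
    have e6 : ∀ v ∈ univ.erase (0 : ZMod π.b), (if v = 0 then (rr π : ℂ) + (cc π : ℂ) * (∑ x, χ1 x) else
          (cc π : ℂ) * (∑ x : KK π, (if -x ∈ SS π then χ1 x else 0)) * χ2 v) =
          (cc π : ℂ) * (∑ x : KK π, (if -x ∈ SS π then χ1 x else 0)) * χ2 v := by
      intro v hv
      rw [if_neg (ne_of_mem_erase hv)]
    rw [sum_congr rfl e6, ← mul_sum]
    congr 1
    rw [← add_sum_erase univ (fun v => χ2 v) (mem_univ (0 : ZMod π.b)), AddChar.map_zero_eq_one]
    ring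
  rw [hsum]
  have hb := bR π
  have hk := kpos π
  have hs : (0 : ℝ) ≤ (SS π).card := by positivity
  by_cases h1 : χ1 = 0
  · have h2 : χ2 ≠ 0 := by
      intro h2
      apply hχ
      ext ⟨c, d⟩
      rw [e3, h1, h2]
      simp
    rw [AddChar.sum_eq_ite χ2, if_neg h2, h1]
    have e7 : (rr π : ℂ) + (cc π : ℂ) * (∑ x : KK π, (0 : AddChar (KK π) ℂ) x) +
      (cc π : ℂ) * (∑ x ∈ SS π, (0 : AddChar (KK π) ℂ) x) * (0 - 1) =
      ((rr π + cc π * Fintype.card (KK π) - cc π * (SS π).card : ℝ) : ℂ) := by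
      simp
      ring
    rw [e7, Complex.norm_real, Real.norm_of_nonneg (rho_nonneg π)]
    have h3 : bet π = cc π * Fintype.card (KK π) := rfl
    have : 0 ≤ cc π * (SS π).card := by positivity
    rw [← h3]
    linarith
  · rw [AddChar.sum_eq_ite χ1, if_neg h1, mul_zero, add_zero]
    have h5 : ‖∑ x ∈ SS π, χ1 x‖ ≤ 2 / 3 * (SS π).card := by
      apply char_sum_le _ (by norm_num) (by norm_num) _ χ1 h1
      intro i ψ hψ
      apply cross_H2 (by rw [ZMod.card, ZMod.card]; exact π.r1 i)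
        (by rw [ZMod.card, ZMod.card]; exact π.r2 i) _ ψ hψ
      rw [ZMod.card]
      have := π.pbig i
      have h6 : 0 < 6 ^ n := by positivity
      omega
    have h6 : ‖∑ v, χ2 v - 1‖ ≤ (π.b : ℝ) - 1 := by
      rw [← add_sum_erase univ (fun v => χ2 v) (mem_univ (0 : ZMod π.b)), AddChar.map_zero_eq_one,
        add_sub_cancel_left]
      refine (norm_sum_le _ _).trans ?_
      have : ∀ v ∈ univ.erase (0 : ZMod π.b), ‖χ2 v‖ ≤ 1 := fun v _ => by rw [AddChar.norm_apply]
      refine (sum_le_sum this).trans ?_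
      rw [sum_const, card_erase_of_mem (mem_univ _), card_univ, ZMod.card, nsmul_eq_mul, mul_one,
        Nat.cast_sub (by have := π.b2; omega)]
      simp
    calc ‖(rr π : ℂ) + (cc π : ℂ) * (∑ x ∈ SS π, χ1 x) * (∑ v, χ2 v - 1)‖
        ≤ ‖(rr π : ℂ)‖ + ‖(cc π : ℂ) * (∑ x ∈ SS π, χ1 x) * (∑ v, χ2 v - 1)‖ := norm_add_le _ _
      _ = rr π + cc π * ‖∑ x ∈ SS π, χ1 x‖ * ‖∑ v, χ2 v - 1‖ := by
          rw [norm_mul, norm_mul, Complex.norm_real, Complex.norm_real, Real.norm_of_nonneg hr,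
            Real.norm_of_nonneg hc]
      _ ≤ rr π + cc π * (2 / 3 * (SS π).card) * ((π.b : ℝ) - 1) := by
          gcongr
      _ = rr π + 2 / 3 * (cc π * ((SS π).card * ((π.b : ℝ) - 1))) := by ring
      _ ≤ 5 / 6 := by
          have hN := norm_VV π
          unfold Norm at hN
          rw [ZMod.card] at hN
          have : 0 ≤ cc π * Fintype.card (KK π) := by positivity
          linarith

lemma eig_bound (hn : 1 ≤ n) (f : VV π → ℝ) (hf : f ≠ 0) (lam : ℝ)
    (hl : ∀ x, ∑ y, PP π x y * f y = lam * f x) (h1 : lam ≠ 1) : |lam| ≤ 5 / 6 := by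
  obtain ⟨χ, hχ⟩ := eig_char f hf lam hl
  have h2 : χ ≠ 0 := by
    intro h
    apply h1
    rw [h] at hχ
    have h3 : ((lam : ℝ) : ℂ) = ((∑ g, PP π g 0 : ℝ) : ℂ) := by
      rw [hχ]
      push_cast
      apply sum_congr rfl
      intro g _
      simp [PP]
    have h4 : lam = ∑ g, PP π g 0 := by exact_mod_cast h3
    rw [h4]
    exact col_sum (norm_VV π) 0
  have h3 := char_bound π hn χ h2
  have h4 : ‖((lam : ℝ) : ℂ)‖ ≤ 5 / 6 := by
    rw [hχ]; exact h3
  rwa [Complex.norm_real] at h4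

end walk

end Pool.Agent.Pak
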