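import Pool.Agent.PakB

set_option autoImplicit false
set_option linter.unusedSectionVars false
set_option linter.unusedVariables false

namespace Pool.Agent.Pak

open Finset Filter Topology

/-- first time a nonnegative profile falls below `ε` -/
noncomputable def tm (d : ℕ → ℝ) (ε : ℝ) : ℕ := sInf {t | d t ≤ ε}

lemma inv4n {n : ℕ} (hn : 100 ≤ n) {β : ℝ} (hβ : β ≤ 1 / (4 * n)) : 4 * β ≤ 1 / 100 := by
  have hn' : (100 : ℝ) ≤ n := by exact_mod_cast hn
  have h1 : 1 / (4 * (n : ℝ)) ≤ 1 / 400 := one_div_le_one_div_of_le (by norm_num) (by linarith)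
  linarith

lemma tm_lower {d : ℕ → ℝ} {n : ℕ} {β ε : ℝ} (hn : 100 ≤ n) (hβ0 : 0 < β) (hβ : β ≤ 1 / (4 * n))
    (hlow : ∀ t ≤ n, 27 / 40 ≤ d t) (hup : ∀ t, d t ≤ (1 - β) ^ t + 4 * β) (h1 : 1 / 50 ≤ ε)
    (h2 : ε ≤ 1 / 2) : n < tm d ε := by
  have h4 := inv4n hn hβ
  obtain ⟨t, ht⟩ := exists_pow_lt_of_lt_one (show (0 : ℝ) < 1 / 100 by norm_num)
    (show 1 - β < 1 by linarith)
  have hne : {t | d t ≤ ε}.Nonempty := ⟨t, by
    have := hup t
    show d t ≤ ε
    linarith⟩
  have h5 : d (tm d ε) ≤ ε := Nat.sInf_mem hne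
  by_contra hcon
  have := hlow _ (not_lt.1 hcon)
  linarith

lemma tm_upper {d : ℕ → ℝ} {n : ℕ} {β : ℝ} (hn : 100 ≤ n) (hβ : β ≤ 1 / (4 * n))
    (hβ1 : 1 / (8 * n + 10) ≤ β) (hup : ∀ t, d t ≤ (1 - β) ^ t + 4 * β) :
    2 * tm d (49 / 50) ≤ n := by
  have h4 := inv4n hn hβ
  have hn' : (100 : ℝ) ≤ n := by exact_mod_cast hn
  have h5 : d (n / 2) ≤ 49 / 50 := by
    refine (hup _).trans ?_
    have e1 : (1 - β) ^ (n / 2) ≤ Real.exp (-(1 / 20)) := by
      calc (1 - β) ^ (n / 2) ≤ (Real.exp (-β)) ^ (n / 2) := by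
            apply pow_le_pow_left₀
            · linarith
            · have := Real.add_one_le_exp (-β); linarith
        _ = Real.exp (-(β * ((n / 2 : ℕ) : ℝ))) := by
            rw [← Real.exp_nat_mul]
            congr 1
            ring
        _ ≤ Real.exp (-(1 / 20)) := by
            apply Real.exp_le_exp.2
            apply neg_le_neg
            have h6 : ((n : ℝ) - 1) / 2 ≤ ((n / 2 : ℕ) : ℝ) := by
              have : n ≤ 2 * (n / 2) + 1 := by omega
              have h7 : (n : ℝ) ≤ 2 * ((n / 2 : ℕ) : ℝ) + 1 := by exact_mod_cast this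
              linarith
            calc (1 : ℝ) / 20 ≤ 1 / (8 * n + 10) * (((n : ℝ) - 1) / 2) := by
                  rw [one_div_mul_eq_div, div_div, div_le_div_iff₀ (by norm_num) (by positivity)]
                  linarith
              _ ≤ β * ((n / 2 : ℕ) : ℝ) := by
                  apply mul_le_mul hβ1 h6
                  · linarith
                  · refine le_trans (by positivity) hβ1
    have e2 : Real.exp (-(1 / 20)) ≤ 20 / 21 := by
      rw [Real.exp_neg, inv_le_comm₀ (Real.exp_pos _) (by norm_num)]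
      have := Real.add_one_le_exp (1 / 20 : ℝ)
      norm_num at this ⊢
      linarith
    linarith
  have : tm d (49 / 50) ≤ n / 2 := Nat.sInf_le h5
  omega

lemma not_tendsto_ratio (a b : ℕ → ℕ) (N : ℕ → ℕ) (h : ∀ n, N n < a n ∧ 2 * b n ≤ N n) :
    ¬ Tendsto (fun n => (a n : ℝ) / b n) atTop (𝓝 1) := by
  intro ht
  rw [Metric.tendsto_atTop] at ht
  obtain ⟨M, hM⟩ := ht 1 one_pos
  have h1 := hM M le_rfl
  obtain ⟨h2, h3⟩ := h M
  rw [Real.dist_eq] at h1
  rcases Nat.eq_zero_or_pos (b M) with hb | hb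
  · rw [hb] at h1
    simp at h1
  · have hb' : (0 : ℝ) < b M := by exact_mod_cast hb
    have h4 : 2 * b M ≤ a M := by omega
    have h5 : (2 : ℝ) ≤ a M / b M := by
      rw [le_div_iff₀ hb']
      exact_mod_cast h4
    rw [abs_lt] at h1
    linarith [h1.2]

/-- the chosen parameters; `n` is shifted by `100` -/
noncomputable def par (n : ℕ) : Params (n + 100) := Classical.choice (params_exist _)

section facts

variable {n : ℕ} (π : Params n)

lemma bet_pos : 0 < bet π := lt_of_lt_of_le (by positivity) (bet_ge π)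

lemma iSup_tv (t : ℕ) : ⨆ x, tv π t x = tv π t 0 := by
  have : (fun x => tv π t x) = fun _ => tv π t 0 := funext fun x => tv_eq π t x
  rw [this, ciSup_const]

/-- the Cayley graph -/
def GG : SimpleGraph (VV π) where
  Adj x y := x ≠ y ∧ (y.2 = x.2 ∨ y.1 - x.1 ∈ SS π)
  symm := ⟨by
    rintro x y ⟨h1, h2⟩
    refine ⟨h1.symm, ?_⟩
    rcases h2 with h2 | h2
    · exact Or.inl h2.symm
    · right
      unfold SS at *
      rw [Fintype.mem_piFinset] at *
      intro i
      have := h2 i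
      simp only [cross, mem_filter, mem_univ, true_and, Pi.sub_apply, Prod.fst_sub,
        Prod.snd_sub] at *
      rcases this with h | h
      · left; rw [sub_eq_zero] at *; exact h.symm
      · right; rw [sub_eq_zero] at *; exact h.symm⟩
  loopless := ⟨fun x h => h.1 rfl⟩

lemma PP_apply (x y : VV π) :
    PP π x y = (if x = y then 1 / 2 else 0) +
      (if x ≠ y ∧ (y.2 = x.2 ∨ y.1 - x.1 ∈ SS π) then cc π else 0) := by
  unfold PP P rr
  by_cases h : x = y
  · subst h
    simp
  · by_cases h2 : y.2 = x.2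
    · simp [h, h2]
    · simp [h, h2]

lemma PP_apply' (x y : VV π) [Decidable ((GG π).Adj x y)] :
    PP π x y = (if x = y then 1 / 2 else 0) + (if (GG π).Adj x y then cc π else 0) := by
  rw [PP_apply]
  congr 1
  by_cases h : (GG π).Adj x y
  · rw [if_pos h, if_pos (show x ≠ y ∧ (y.2 = x.2 ∨ y.1 - x.1 ∈ SS π) from h)]
  · rw [if_neg h, if_neg (show ¬ (x ≠ y ∧ (y.2 = x.2 ∨ y.1 - x.1 ∈ SS π)) from h)]

lemma GG_conn : (GG π).Connected := by
  have : Nonempty (VV π) := ⟨0⟩
  refine ⟨fun x y => ?_⟩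
  have h1 : (GG π).Reachable x (x.1, y.2) := by
    by_cases h : x.2 = y.2
    · rw [← h]
    · apply SimpleGraph.Adj.reachable
      refine ⟨fun e => h (by rw [e]), Or.inr ?_⟩
      simp only [sub_self]
      exact zero_mem_SS π
  have h2 : (GG π).Reachable (x.1, y.2) y := by
    by_cases h : x.1 = y.1
    · rw [h]
    · apply SimpleGraph.Adj.reachable
      exact ⟨fun e => h (by rw [← e]), Or.inl rfl⟩
  exact h1.trans h2

/-- translations are automorphisms -/
def transl (g : VV π) : GG π ≃g GG π where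
  toEquiv := Equiv.addRight g
  map_rel_iff' := by
    intro a b
    simp [GG]

lemma GG_trans (u v : VV π) : ∃ φ : GG π ≃g GG π, φ u = v :=
  ⟨transl π (v - u), by show u + (v - u) = v; abel⟩

lemma GG_degree (x : VV π) [Fintype ((GG π).neighborSet x)] :
    ((GG π).degree x : ℝ) = DD π := by
  classical
  have h1 : ∑ y, PP π x y = 1 := row_sum (norm_VV π) x
  simp_rw [PP_apply'] at h1
  rw [sum_add_distrib, Finset.sum_ite_eq univ x, ← Finset.sum_filter, sum_const, nsmul_eq_mul] at h1
  simp only [mem_univ, if_true] at h1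
  have h2 : ((GG π).degree x : ℝ) = ((univ.filter (fun y => (GG π).Adj x y)).card : ℝ) := by
    congr 1
    rw [← SimpleGraph.card_neighborSet_eq_degree, Fintype.card_subtype]
    rfl
  rw [h2]
  unfold cc at h1
  have hD := DD_ge1 π
  field_simp at h1
  linarith

lemma card_VV_ge : n ≤ Fintype.card (VV π) := by
  have h : 0 < 6 ^ n := by positivity
  have h1 := π.pbig ⟨0, h⟩
  have h2 : n < 6 ^ n := Nat.lt_pow_self (by norm_num)
  have h3 : π.p ⟨0, h⟩ ≤ Fintype.card (VV π) := by
    have : Function.Injective (fun a : ZMod (π.p ⟨0, h⟩) =>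
        ((Pi.single (⟨0, h⟩ : Fin (6 ^ n)) (a, (0 : ZMod (π.q ⟨0, h⟩))), 0) : VV π)) := by
      intro a b hab
      simp only [Prod.mk.injEq, and_true] at hab
      have := congrFun hab ⟨0, h⟩
      have h5 : ((a, 0) : ZMod (π.p ⟨0, h⟩) × ZMod (π.q ⟨0, h⟩)) = (b, 0) := by simpa using this
      exact congrArg Prod.fst h5
    have h4 := Fintype.card_le_of_injective _ this
    rwa [ZMod.card] at h4
  omega

lemma tv_le_of_lower (t : ℕ) (x : VV π) {δ : ℝ} (hδ0 : 0 ≤ δ)
    (hlow' : ∀ y, (1 - δ) / Fintype.card (VV π) ≤ (PP π ^ t) x y) : tv π t x ≤ δ := by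
  have hV : (0 : ℝ) < Fintype.card (VV π) := by
    exact_mod_cast (Fintype.card_pos : 0 < Fintype.card (VV π))
  have h4 : ∑ y : VV π, ((PP π ^ t) x y - 1 / Fintype.card (VV π)) = 0 := by
    rw [sum_sub_distrib, PP_row, sum_const, card_univ, nsmul_eq_mul]
    field_simp
    ring
  have h5 : ∀ y, |(PP π ^ t) x y - 1 / Fintype.card (VV π)| ≤
      ((PP π ^ t) x y - 1 / Fintype.card (VV π)) + 2 * (δ / Fintype.card (VV π)) := by
    intro y
    have h6 := hlow' y
    have h7 : (1 - δ) / Fintype.card (VV π) = 1 / Fintype.card (VV π) - δ / Fintype.card (VV π) := by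
      rw [sub_div]
    rw [h7] at h6
    have h8 : 0 ≤ δ / (Fintype.card (VV π) : ℝ) := by positivity
    rw [abs_le]
    constructor <;> linarith
  unfold tv
  calc (1 / 2) * ∑ y, |(PP π ^ t) x y - 1 / Fintype.card (VV π)|
      ≤ (1 / 2) * ∑ y, (((PP π ^ t) x y - 1 / Fintype.card (VV π)) +
          2 * (δ / Fintype.card (VV π))) := by
        gcongr with y _
        exact h5 y
    _ = δ := by
        rw [sum_add_distrib, h4, sum_const, card_univ, nsmul_eq_mul]
        field_simp
        ring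

end facts

end Pool.Agent.Pak
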