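import Pool.Agent.PakC

set_option autoImplicit false
set_option linter.unusedSectionVars false
set_option linter.unusedVariables false

namespace Pool.Agent.Pak

open Finset Filter Topology

section cyc

variable {n : ℕ} (π : Params n)

/-- order of the cyclic group -/
def NN : ℕ := (∏ i, (π.p i * π.q i)) * π.b

/-- the Chinese remainder isomorphism -/
noncomputable def ee : ZMod (NN π) ≃+* VV π :=
  (ZMod.chineseRemainder π.bcop).trans
    (RingEquiv.prodCongr
      ((ZMod.prodEquivPi (fun i => π.p i * π.q i) (fun i j h => π.pw h)).trans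
        (RingEquiv.piCongrRight (fun i => ZMod.chineseRemainder (π.cop i))))
      (RingEquiv.refl _))

lemma NN_pos : 0 < NN π := by
  unfold NN
  apply Nat.mul_pos
  · exact prod_pos fun i _ => Nat.mul_pos (π.pp i).pos (π.qp i).pos
  · have := π.b2; omega

instance : NeZero (NN π) := ⟨(NN_pos π).ne'⟩

lemma card_VV : Fintype.card (VV π) = NN π := by
  rw [← Fintype.card_congr (ee π).toEquiv, ZMod.card]

/-- step distribution -/
noncomputable def mu (x : ZMod (NN π)) : ℝ := PP π 0 (ee π x)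

/-- convolution powers -/
noncomputable def cv {m : ℕ} [NeZero m] (μ : ZMod m → ℝ) : ℕ → ZMod m → ℝ
  | 0 => fun x => if x = 0 then 1 else 0
  | t + 1 => fun x => ∑ y, cv μ t y * μ (x - y)

lemma PP_trans1 (x y g : VV π) : PP π (x + g) (y + g) = PP π x y := by
  have := PP_trans π 1 x y g
  simpa using this

lemma cv_eq (t : ℕ) (x : ZMod (NN π)) : cv (mu π) t x = (PP π ^ t) 0 (ee π x) := by
  induction t generalizing x with
  | zero =>
    rw [pow_zero, Matrix.one_apply]
    show (if x = 0 then (1 : ℝ) else 0) = _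
    by_cases h : x = 0
    · subst h
      simp
    · rw [if_neg h, if_neg]
      intro h2
      apply h
      have : ee π x = ee π 0 := by rw [map_zero]; exact h2.symm
      exact (ee π).injective this
  | succ t ih =>
    show ∑ y, cv (mu π) t y * mu π (x - y) = _
    rw [pow_succ, Matrix.mul_apply, ← Fintype.sum_equiv (ee π).toEquiv
      (fun y => (PP π ^ t) 0 (ee π y) * PP π (ee π y) (ee π x)) _ (fun y => rfl)]
    apply sum_congr rfl
    intro y _
    rw [ih y]
    congr 1
    unfold mu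
    rw [map_sub]
    have := PP_trans1 π 0 (ee π x - ee π y) (ee π y)
    rw [zero_add, sub_add_cancel] at this
    exact this.symm

lemma cv_tv (t : ℕ) : (1 / 2) * ∑ x, |cv (mu π) t x - 1 / (NN π : ℝ)| = tv π t 0 := by
  unfold tv
  congr 1
  rw [card_VV]
  exact Fintype.sum_equiv (ee π).toEquiv _ _ (fun x => by rw [cv_eq]; rfl)

lemma PP_symm (x y : VV π) : PP π x y = PP π y x := by
  classical
  rw [PP_apply', PP_apply']
  simp only [eq_comm, SimpleGraph.adj_comm]

lemma mu_neg (x : ZMod (NN π)) : mu π (-x) = mu π x := by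
  unfold mu
  rw [map_neg]
  have := PP_trans1 π 0 (-(ee π x)) (ee π x)
  rw [zero_add, neg_add_cancel] at this
  rw [← this, PP_symm]

lemma mu_nonneg (x : ZMod (NN π)) : 0 ≤ mu π x := by
  have := PP_nonneg π 1 0 (ee π x)
  rw [pow_one] at this
  exact this

lemma mu_sum : ∑ x, mu π x = 1 := by
  unfold mu
  rw [Fintype.sum_equiv (ee π).toEquiv (fun x => PP π 0 (ee π x)) (fun y => PP π 0 y)
    (fun x => rfl)]
  exact row_sum (norm_VV π) 0

lemma mu_zero : mu π 0 = 1 / 2 := by
  unfold mu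
  rw [map_zero, PP_apply]
  simp

lemma mu_supp (g : VV π) (h : g.2 = 0 ∨ g.1 ∈ SS π) : 0 < mu π ((ee π).symm g) := by
  unfold mu
  rw [RingEquiv.apply_symm_apply, PP_apply]
  have hc := cc_pos π
  by_cases h0 : (0 : VV π) = g
  · rw [if_pos h0]
    split_ifs <;> linarith
  · rw [if_neg h0, if_pos ⟨h0, by simpa using h⟩, zero_add]
    exact hc

lemma mu_closure (H : AddSubgroup (ZMod (NN π))) (h : ∀ x, 0 < mu π x → x ∈ H) : H = ⊤ := by
  rw [eq_top_iff]
  intro x _
  have h1 : (ee π).symm ((ee π x).1, 0) ∈ H := h _ (mu_supp π _ (Or.inl rfl))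
  have h2 : (ee π).symm (0, (ee π x).2) ∈ H := h _ (mu_supp π _ (Or.inr (zero_mem_SS π)))
  have h3 := H.add_mem h1 h2
  rw [← map_add] at h3
  simpa using h3

lemma mu_char (hn : 1 ≤ n) (j : ZMod (NN π)) (hj : j ≠ 0) :
    ‖∑ x, (mu π x : ℂ) * Complex.exp (2 * Real.pi * Complex.I * (j.val * x.val) / (NN π))‖ ≤
      5 / 6 := by
  set χ : AddChar (VV π) ℂ :=
    (AddChar.mulShift (ZMod.stdAddChar (N := NN π)) j).compAddMonoidHom
      ((ee π).symm.toAddEquiv.toAddMonoidHom) with hχ
  have hne : χ ≠ 0 := by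
    intro h
    apply ZMod.isPrimitive_stdAddChar (NN π) hj
    ext x
    have h1 : χ (ee π x) = 1 := by rw [h]; rfl
    rw [hχ] at h1
    simpa using h1
  have h1 := char_bound π hn χ hne
  have h2 : ∑ g, (PP π g 0 : ℂ) * χ g =
      ∑ x, (mu π x : ℂ) * Complex.exp (2 * Real.pi * Complex.I * (j.val * x.val) / (NN π)) := by
    rw [← Fintype.sum_equiv (ee π).toEquiv
      (fun x => (PP π (ee π x) 0 : ℂ) * χ (ee π x)) _ (fun x => rfl)]
    apply sum_congr rfl
    intro x _
    have e1 : PP π (ee π x) 0 = mu π x := by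
      rw [PP_symm]; rfl
    have e2 : χ (ee π x) = ZMod.stdAddChar (j * x) := by
      rw [hχ]
      simp [AddChar.mulShift_apply]
    have e3 : j * x = (((j.val * x.val : ℕ) : ℤ) : ZMod (NN π)) := by
      push_cast
      rw [ZMod.natCast_zmod_val, ZMod.natCast_zmod_val]
    rw [e1, e2, e3, ZMod.stdAddChar_coe]
    congr 2
    push_cast
    ring
  rw [← h2]
  exact h1

lemma mu_cos (hn : 1 ≤ n) (j : ZMod (NN π)) (hj : j ≠ 0) :
    |∑ x, mu π x * Real.cos (2 * Real.pi * (j.val * x.val) / (NN π))| ≤ 5 / 6 := by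
  have h := mu_char π hn j hj
  refine le_trans ?_ h
  refine le_trans (le_of_eq ?_) (Complex.abs_re_le_norm _)
  congr 1
  rw [Complex.re_sum]
  apply sum_congr rfl
  intro x _
  rw [Complex.re_ofReal_mul]
  congr 1
  have : 2 * (Real.pi : ℂ) * Complex.I * ((j.val : ℂ) * (x.val : ℂ)) / (NN π : ℂ) =
      ((2 * Real.pi * (j.val * x.val) / (NN π) : ℝ) : ℂ) * Complex.I := by
    push_cast
    ring
  rw [this, Complex.exp_ofReal_mul_I_re]

lemma NN_ge : n ≤ NN π := by
  rw [← card_VV]
  exact card_VV_ge π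

end cyc

end Pool.Agent.Pak
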