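import Mathlib

set_option autoImplicit false
set_option linter.unusedSectionVars false
set_option linter.unusedVariables false

namespace Pool.Agent.PakE

open Finset

section general

variable {G : Type} [Fintype G] [Nonempty G]

lemma tv_up (w : G → ℝ) (hw : ∑ g, w g = 1) {δ : ℝ} (hδ : 0 ≤ δ)
    (h : ∀ g, (1 - δ) / Fintype.card G ≤ w g) :
    (1 / 2) * ∑ g, |w g - 1 / Fintype.card G| ≤ δ := by
  have hV : (0 : ℝ) < Fintype.card G := by exact_mod_cast (Fintype.card_pos : 0 < Fintype.card G)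
  have h4 : ∑ y, (w y - 1 / Fintype.card G) = 0 := by
    rw [sum_sub_distrib, hw, sum_const, card_univ, nsmul_eq_mul]
    field_simp
    ring
  have h5 : ∀ y, |w y - 1 / Fintype.card G| ≤
      (w y - 1 / Fintype.card G) + 2 * (δ / Fintype.card G) := by
    intro y
    have h6 := h y
    rw [sub_div] at h6
    have h8 : 0 ≤ δ / (Fintype.card G : ℝ) := by positivity
    rw [abs_le]
    constructor <;> linarith
  calc (1 / 2) * ∑ y, |w y - 1 / Fintype.card G|
      ≤ (1 / 2) * ∑ y, ((w y - 1 / Fintype.card G) + 2 * (δ / Fintype.card G)) := by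
        gcongr with y _
        exact h5 y
    _ = δ := by
        rw [sum_add_distrib, h4, sum_const, card_univ, nsmul_eq_mul]
        field_simp
        ring

lemma tv_low (w : G → ℝ) (hw : ∑ g, w g = 1) (F : G → ℝ) (h0 : ∀ g, 0 ≤ F g)
    (h1 : ∀ g, F g ≤ 1) :
    ∑ g, (1 / Fintype.card G - w g) * F g ≤ (1 / 2) * ∑ g, |w g - 1 / Fintype.card G| := by
  have hV : (0 : ℝ) < Fintype.card G := by exact_mod_cast (Fintype.card_pos : 0 < Fintype.card G)
  have h4 : ∑ y, (1 / (Fintype.card G : ℝ) - w y) = 0 := by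
    rw [sum_sub_distrib, hw, sum_const, card_univ, nsmul_eq_mul]
    field_simp
    ring
  have h6 : ∑ y, (1 / (Fintype.card G : ℝ) - w y) * F y =
      ∑ y, (1 / (Fintype.card G : ℝ) - w y) * (F y - 1 / 2) := by
    simp_rw [mul_sub]
    rw [sum_sub_distrib, ← sum_mul, h4]
    ring
  rw [h6, mul_sum]
  apply sum_le_sum
  intro y _
  have h7 : |F y - 1 / 2| ≤ 1 / 2 := by
    rw [abs_le]
    constructor <;> linarith [h0 y, h1 y]
  calc (1 / (Fintype.card G : ℝ) - w y) * (F y - 1 / 2)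
      ≤ |(1 / (Fintype.card G : ℝ) - w y) * (F y - 1 / 2)| := le_abs_self _
    _ = |w y - 1 / Fintype.card G| * |F y - 1 / 2| := by rw [abs_mul, abs_sub_comm]
    _ ≤ |w y - 1 / Fintype.card G| * (1 / 2) := by gcongr
    _ = _ := by ring

end general

section conv

variable {G : Type} [Group G] [Fintype G] [DecidableEq G]

/-- law of the product of `k` independent increments -/
noncomputable def W (p : G → ℝ) (k : ℕ) (g : G) : ℝ :=
  ∑ f ∈ (univ : Finset (Fin k → G)).filter (fun f => (List.ofFn f).prod = g), ∏ i, p (f i)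

lemma W_zero (p : G → ℝ) (g : G) : W p 0 g = if g = 1 then 1 else 0 := by
  unfold W
  rw [sum_filter]
  simp [eq_comm]

lemma W_succ (p : G → ℝ) (k : ℕ) (g : G) : W p (k + 1) g = ∑ a, p a * W p k (a⁻¹ * g) := by
  unfold W
  rw [sum_filter, ← Fintype.sum_equiv (Fin.consEquiv (fun _ => G))
    (fun x : G × (Fin k → G) => if (List.ofFn (Fin.cons x.1 x.2 : Fin (k + 1) → G)).prod = g then
      ∏ i, p ((Fin.cons x.1 x.2 : Fin (k + 1) → G) i) else 0) _ (fun x => rfl)]
  rw [Fintype.sum_prod_type]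
  apply sum_congr rfl
  intro a _
  rw [sum_filter, mul_sum]
  apply sum_congr rfl
  intro f _
  rw [List.ofFn_succ, List.prod_cons]
  simp only [Fin.cons_zero, Fin.cons_succ]
  rw [Fin.prod_univ_succ]
  simp only [Fin.cons_zero, Fin.cons_succ]
  by_cases h : a * (List.ofFn f).prod = g
  · rw [if_pos h, if_pos (by rw [← h]; group)]
  · rw [if_neg h, if_neg (by intro h2; apply h; rw [h2]; group), mul_zero]

end conv

section prod

variable {C : Type} [Group C] [Fintype C] [DecidableEq C] {ι : Type} [Fintype ι] [DecidableEq ι]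

noncomputable def q (θ : ℝ) (c : C) : ℝ := θ * (if c = 1 then 1 else 0) + (1 - θ) / Fintype.card C

lemma cC : (0 : ℝ) < Fintype.card C := by exact_mod_cast (Fintype.card_pos : 0 < Fintype.card C)

lemma q_sum (θ : ℝ) : ∑ c : C, q θ c = 1 := by
  unfold q
  have := cC (C := C)
  rw [sum_add_distrib, ← mul_sum, sum_const, card_univ, nsmul_eq_mul]
  simp only [sum_ite_eq', mem_univ, if_true]
  field_simp
  ring

lemma q_conv (θ θ' : ℝ) (c : C) : ∑ a : C, q θ a * q θ' (a⁻¹ * c) = q (θ * θ') c := by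
  have hC := cC (C := C)
  have h1 : ∀ a : C, q θ a * q θ' (a⁻¹ * c) =
      (if a = 1 then θ * q θ' (a⁻¹ * c) else 0) + (1 - θ) / Fintype.card C * q θ' (a⁻¹ * c) := by
    intro a
    conv_lhs => rw [show q θ a = θ * (if a = 1 then 1 else 0) + (1 - θ) / Fintype.card C from rfl]
    split_ifs <;> ring
  simp_rw [h1]
  rw [sum_add_distrib, sum_ite_eq' univ 1, ← mul_sum]
  have h2 : ∑ a : C, q θ' (a⁻¹ * c) = 1 := by
    have h3 := Fintype.sum_equiv ((Equiv.inv C).trans (Equiv.mulRight c))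
      (fun a => q θ' (a⁻¹ * c)) (fun a => q θ' a) (fun a => rfl)
    rw [h3]
    exact q_sum θ'
  rw [h2]
  simp only [mem_univ, if_true, inv_one, one_mul, mul_one]
  unfold q
  field_simp
  split_ifs <;> ring

noncomputable def ν (θ : ℝ) (x : ι → C) : ℝ := ∏ i, q θ (x i)

lemma ν_sum (θ : ℝ) : ∑ x : ι → C, ν θ x = 1 := by
  unfold ν
  have e2 := Finset.prod_univ_sum (fun _ : ι => (univ : Finset C)) (fun _ a => q θ a)
  rw [Fintype.piFinset_univ] at e2
  rw [← e2]
  simp [q_sum]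

lemma ν_conv (θ θ' : ℝ) (x : ι → C) : ∑ a : ι → C, ν θ a * ν θ' (a⁻¹ * x) = ν (θ * θ') x := by
  unfold ν
  have e2 := Finset.prod_univ_sum (fun _ : ι => (univ : Finset C))
    (fun i a => q θ a * q θ' (a⁻¹ * x i))
  rw [Fintype.piFinset_univ] at e2
  simp_rw [q_conv] at e2
  rw [e2]
  apply sum_congr rfl
  intro a _
  rw [← prod_mul_distrib]
  rfl

/-- perturbed step law -/
noncomputable def pp (δ : ℝ) (x : ι → C) : ℝ := (1 - δ) * ν (1 / 2) x + δ / Fintype.card (ι → C)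

lemma W_pp (δ : ℝ) (k : ℕ) (x : ι → C) :
    W (pp δ) k x = (1 - δ) ^ k * ν ((1 / 2) ^ k) x + (1 - (1 - δ) ^ k) / Fintype.card (ι → C) := by
  have hG : (0 : ℝ) < Fintype.card (ι → C) := by
    exact_mod_cast (Fintype.card_pos : 0 < Fintype.card (ι → C))
  induction k generalizing x with
  | zero =>
    rw [W_zero]
    simp only [pow_zero, one_mul, sub_self, zero_div, add_zero]
    unfold ν q
    simp only [one_mul, sub_self, zero_div, add_zero]
    rw [Finset.prod_ite_zero]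
    simp [funext_iff]
  | succ k ih =>
    rw [W_succ]
    simp_rw [ih]
    unfold pp
    set g : ℝ := ((Fintype.card (ι → C) : ℕ) : ℝ) with hg
    set u := (1 - δ) ^ k with hu
    have h1 : ∀ a : ι → C, ((1 - δ) * ν (1 / 2) a + δ / g) *
        (u * ν ((1 / 2) ^ k) (a⁻¹ * x) + (1 - u) / g) =
        (1 - δ) * u * (ν (1 / 2) a * ν ((1 / 2) ^ k) (a⁻¹ * x)) +
        (1 - δ) * ((1 - u) / g) * ν (1 / 2) a + δ / g * u * ν ((1 / 2) ^ k) (a⁻¹ * x) +
        δ / g * ((1 - u) / g) := by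
      intro a; ring
    simp_rw [h1]
    rw [sum_add_distrib, sum_add_distrib, sum_add_distrib, ← mul_sum, ← mul_sum, ← mul_sum,
      ν_conv, ν_sum, sum_const, card_univ, nsmul_eq_mul]
    have h2 : ∑ a : ι → C, ν ((1 / 2) ^ k) (a⁻¹ * x) = 1 := by
      have h3 := Fintype.sum_equiv ((Equiv.inv (ι → C)).trans (Equiv.mulRight x))
        (fun a => ν ((1 / 2) ^ k) (a⁻¹ * x)) (fun a => ν ((1 / 2) ^ k) a) (fun a => rfl)
      rw [h3]
      exact ν_sum _
    rw [h2, ← hg]
    have h3 : (1 / 2 : ℝ) * (1 / 2) ^ k = (1 / 2) ^ (k + 1) := by rw [pow_succ]; ring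
    have h4 : (1 - δ) ^ (k + 1) = u * (1 - δ) := by rw [hu, pow_succ]
    rw [h3, h4]
    field_simp
    ring

/-- the distance to uniform -/
noncomputable def D (m h : ℕ) (δ : ℝ) (k : ℕ) (C : Type) [Group C] [Fintype C] [DecidableEq C] : ℝ :=
  (1 / 2) * ∑ g : Fin m → C, |W (pp δ) k g - 1 / (Fintype.card (Fin m → C) : ℝ)|

lemma W_pp_sum (δ : ℝ) (k : ℕ) : ∑ x : ι → C, W (pp δ) k x = 1 := by
  have hG : (0 : ℝ) < Fintype.card (ι → C) := by
    exact_mod_cast (Fintype.card_pos : 0 < Fintype.card (ι → C))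
  simp_rw [W_pp]
  rw [sum_add_distrib, ← mul_sum, ν_sum, sum_const, card_univ, nsmul_eq_mul]
  field_simp
  ring

lemma ν_ge {θ : ℝ} (h0 : 0 ≤ θ) (h1 : θ ≤ 1) (x : ι → C) :
    (1 - θ) ^ Fintype.card ι / Fintype.card (ι → C) ≤ ν θ x := by
  have hC := cC (C := C)
  unfold ν
  rw [Fintype.card_fun]
  push_cast
  rw [← div_pow, ← card_univ (α := ι), ← prod_const]
  apply prod_le_prod
  · intro i _
    apply div_nonneg _ hC.le
    linarith
  · intro i _
    unfold q
    have : 0 ≤ θ * (if x i = 1 then (1 : ℝ) else 0) := by split_ifs <;> simp [h0]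
    linarith

lemma dist_upper {δ : ℝ} (hδ0 : 0 ≤ δ) (hδ1 : δ ≤ 1) (k : ℕ) :
    (1 / 2) * ∑ g : ι → C, |W (pp δ) k g - 1 / (Fintype.card (ι → C) : ℝ)| ≤
      (1 - δ) ^ k * (1 - (1 - (1 / 2 : ℝ) ^ k) ^ Fintype.card ι) := by
  have hG : (0 : ℝ) < Fintype.card (ι → C) := by
    exact_mod_cast (Fintype.card_pos : 0 < Fintype.card (ι → C))
  have hθ0 : (0 : ℝ) ≤ (1 / 2) ^ k := by positivity
  have hθ1 : (1 / 2 : ℝ) ^ k ≤ 1 := pow_le_one₀ (by norm_num) (by norm_num)
  have hu : 0 ≤ (1 - δ) ^ k := pow_nonneg (by linarith) k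
  have hp : (1 - (1 / 2 : ℝ) ^ k) ^ Fintype.card ι ≤ 1 := pow_le_one₀ (by linarith) (by linarith)
  apply tv_up _ (W_pp_sum δ k)
  · apply mul_nonneg hu; linarith
  · intro g
    rw [W_pp]
    have h1 := mul_le_mul_of_nonneg_left (ν_ge hθ0 hθ1 g) hu
    have e : (1 - (1 - δ) ^ k * (1 - (1 - (1 / 2 : ℝ) ^ k) ^ Fintype.card ι)) /
        (Fintype.card (ι → C) : ℝ) = (1 - δ) ^ k * ((1 - (1 / 2 : ℝ) ^ k) ^ Fintype.card ι /
          Fintype.card (ι → C)) + (1 - (1 - δ) ^ k) / Fintype.card (ι → C) := by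
      field_simp
      ring
    rw [e]
    linarith

lemma avoid_sum (θ : ℝ) : ∑ x : ι → C, ν θ x * (if ∀ i, x i ≠ 1 then 1 else 0) =
    ((1 - θ) * (1 - 1 / Fintype.card C)) ^ Fintype.card ι := by
  have hC := cC (C := C)
  have h1 : ∀ x : ι → C, ν θ x * (if ∀ i, x i ≠ 1 then 1 else 0) =
      ∏ i, (if x i ≠ 1 then q θ (x i) else 0) := by
    intro x
    rw [Finset.prod_ite_zero]
    unfold ν
    by_cases h : ∀ i, x i ≠ 1
    · rw [if_pos h, if_pos (fun i _ => h i), mul_one]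
    · rw [if_neg h, if_neg (fun h2 => h (fun i => h2 i (mem_univ i))), mul_zero]
  simp_rw [h1]
  have e2 := Finset.prod_univ_sum (fun _ : ι => (univ : Finset C))
    (fun i a => if a ≠ 1 then q θ a else 0)
  rw [Fintype.piFinset_univ] at e2
  rw [← e2]
  have h3 : ∑ a : C, (if a ≠ 1 then q θ a else 0) = (1 - θ) * (1 - 1 / Fintype.card C) := by
    have h4 : ∀ a : C, (if a ≠ 1 then q θ a else 0) = (1 - θ) / Fintype.card C -
        (if a = 1 then (1 - θ) / Fintype.card C else 0) := by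
      intro a
      unfold q
      by_cases h : a = 1 <;> simp [h]
    simp_rw [h4]
    rw [sum_sub_distrib, sum_const, card_univ, nsmul_eq_mul, sum_ite_eq' univ 1]
    simp only [mem_univ, if_true]
    field_simp
  rw [h3, prod_const, card_univ]

lemma dist_lower {δ : ℝ} (hδ0 : 0 ≤ δ) (hδ1 : δ ≤ 1) (k : ℕ) :
    (1 - δ) ^ k * ((1 - 1 / Fintype.card C) ^ Fintype.card ι -
      (1 - (1 / 2 : ℝ) ^ k) ^ Fintype.card ι) ≤
    (1 / 2) * ∑ g : ι → C, |W (pp δ) k g - 1 / (Fintype.card (ι → C) : ℝ)| := by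
  have hC := cC (C := C)
  have hC1 : (1 : ℝ) ≤ Fintype.card C := by
    exact_mod_cast (Fintype.card_pos : 0 < Fintype.card C)
  have hu : 0 ≤ (1 - δ) ^ k := pow_nonneg (by linarith) k
  have hθ1 : (1 / 2 : ℝ) ^ k ≤ 1 := pow_le_one₀ (by norm_num) (by norm_num)
  have h := tv_low (fun g : ι → C => W (pp δ) k g) (W_pp_sum δ k)
    (fun x => if ∀ i, x i ≠ 1 then 1 else 0) (fun g => by split_ifs <;> norm_num)
    (fun g => by split_ifs <;> norm_num)
  refine le_trans ?_ h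
  have e1 : ∀ g : ι → C, (1 / (Fintype.card (ι → C) : ℝ) - W (pp δ) k g) *
      (if ∀ i, g i ≠ 1 then 1 else 0) =
      (1 - δ) ^ k * (ν 0 g * (if ∀ i, g i ≠ 1 then 1 else 0)) -
      (1 - δ) ^ k * (ν ((1 / 2) ^ k) g * (if ∀ i, g i ≠ 1 then 1 else 0)) := by
    intro g
    have e0 : ν 0 g = 1 / (Fintype.card (ι → C) : ℝ) := by
      unfold ν q
      simp only [zero_mul, sub_zero, zero_add, prod_const, card_univ, Fintype.card_fun]
      push_cast
      rw [one_div, one_div, inv_pow]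
    rw [W_pp, e0]
    ring
  simp_rw [e1]
  rw [sum_sub_distrib, ← mul_sum, ← mul_sum, avoid_sum, avoid_sum, ← mul_sub]
  apply mul_le_mul_of_nonneg_left _ hu
  have h2 : ((1 - (1 / 2 : ℝ) ^ k) * (1 - 1 / Fintype.card C)) ^ Fintype.card ι ≤
      (1 - (1 / 2 : ℝ) ^ k) ^ Fintype.card ι := by
    apply pow_le_pow_left₀
    · apply mul_nonneg
      · linarith
      · rw [sub_nonneg, div_le_one hC]; exact hC1
    · have h3 : 0 ≤ 1 - (1 / 2 : ℝ) ^ k := by linarith
      have h4 : 1 - 1 / (Fintype.card C : ℝ) ≤ 1 := by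
        have : 0 ≤ 1 / (Fintype.card C : ℝ) := by positivity
        linarith
      calc (1 - (1 / 2 : ℝ) ^ k) * (1 - 1 / Fintype.card C) ≤ (1 - (1 / 2 : ℝ) ^ k) * 1 :=
            mul_le_mul_of_nonneg_left h4 h3
        _ = _ := mul_one _
  rw [sub_zero, one_mul]
  linarith

end prod

end Pool.Agent.PakE
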