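import Pool.Agent.PakD
import Pool.Agent.PakE

set_option autoImplicit false
set_option linter.unusedSectionVars false
set_option linter.unusedVariables false

namespace Pool.Agent.Pak

open Finset Filter Topology

section ct

variable {V : Type} [Fintype V] [DecidableEq V]

set_option backward.isDefEq.respectTransparency false in
open scoped Matrix.Norms.Operator in
lemma exp_hasSum (A : Matrix V V ℝ) (x y : V) :
    HasSum (fun k : ℕ => (k.factorial : ℝ)⁻¹ * (A ^ k) x y) (NormedSpace.exp A x y) := by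
  have h := NormedSpace.exp_series_hasSum_exp' (𝕂 := ℝ) A
  have h2 := Pi.hasSum.1 (Pi.hasSum.1 h x) y
  simpa [Matrix.smul_apply] using h2

lemma real_hasSum (s : ℝ) : HasSum (fun k : ℕ => (k.factorial : ℝ)⁻¹ * s ^ k) (Real.exp s) := by
  have h := NormedSpace.exp_series_hasSum_exp' (𝕂 := ℝ) s
  rw [← Real.exp_eq_exp_ℝ] at h
  simpa [smul_eq_mul] using h

lemma exp_scalar (s : ℝ) : NormedSpace.exp (s • (1 : Matrix V V ℝ)) = Real.exp s • 1 := by
  ext x y
  have h := exp_hasSum (s • (1 : Matrix V V ℝ)) x y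
  have h2 : (fun k : ℕ => (k.factorial : ℝ)⁻¹ * ((s • (1 : Matrix V V ℝ)) ^ k) x y) =
      fun k : ℕ => ((k.factorial : ℝ)⁻¹ * s ^ k) * (1 : Matrix V V ℝ) x y := by
    funext k
    rw [smul_pow, one_pow, Matrix.smul_apply, smul_eq_mul]
    ring
  rw [h2] at h
  have h3 := (real_hasSum s).mul_right ((1 : Matrix V V ℝ) x y)
  rw [h.unique h3, Matrix.smul_apply, smul_eq_mul]

/-- Poisson weights -/
noncomputable def po (s : ℝ) (k : ℕ) : ℝ := Real.exp (-s) * ((k.factorial : ℝ)⁻¹ * s ^ k)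

lemma po_nonneg {s : ℝ} (hs : 0 ≤ s) (k : ℕ) : 0 ≤ po s k := by unfold po; positivity

lemma po_hasSum (s c : ℝ) : HasSum (fun k : ℕ => po s k * c ^ k) (Real.exp (-(s * (1 - c)))) := by
  have h := (real_hasSum (s * c)).mul_left (Real.exp (-s))
  rw [← Real.exp_add] at h
  have e : -s + s * c = -(s * (1 - c)) := by ring
  rw [e] at h
  have h2 : (fun k : ℕ => po s k * c ^ k) =
      fun k : ℕ => Real.exp (-s) * ((k.factorial : ℝ)⁻¹ * (s * c) ^ k) := by
    funext k
    unfold po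
    rw [mul_pow]
    ring
  rw [h2]
  exact h

lemma po_one (s : ℝ) : HasSum (fun k : ℕ => po s k) 1 := by
  have h := po_hasSum s 1
  simpa using h

lemma exp_gen (P : Matrix V V ℝ) (s : ℝ) (x y : V) :
    HasSum (fun k : ℕ => po s k * (P ^ k) x y) (NormedSpace.exp (s • (P - 1)) x y) := by
  have e1 : s • (P - 1) = s • P + (-s) • (1 : Matrix V V ℝ) := by
    rw [smul_sub, neg_smul]; abel
  have hc : Commute (s • P) ((-s) • (1 : Matrix V V ℝ)) :=
    ((Commute.one_right P).smul_left s).smul_right (-s)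
  rw [e1, Matrix.exp_add_of_commute _ _ hc, exp_scalar, Matrix.mul_smul, Matrix.mul_one,
    Matrix.smul_apply, smul_eq_mul]
  have h := (exp_hasSum (s • P) x y).mul_left (Real.exp (-s))
  have h2 : (fun k : ℕ => po s k * (P ^ k) x y) =
      fun k : ℕ => Real.exp (-s) * ((k.factorial : ℝ)⁻¹ * ((s • P) ^ k) x y) := by
    funext k
    unfold po
    rw [smul_pow, Matrix.smul_apply, smul_eq_mul]
    ring
  rw [h2]
  exact h

end ct

section walk

variable {n : ℕ} (π : Params n)

/-- generator: rate-one simple random walk on the graph -/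
noncomputable def QQ : Matrix (VV π) (VV π) ℝ := (2 : ℝ) • (PP π - 1)

/-- kernel at time `t` -/
noncomputable def Kt (t : ℝ) : Matrix (VV π) (VV π) ℝ := NormedSpace.exp (t • QQ π)

lemma Kt_hasSum (t : ℝ) (x y : VV π) :
    HasSum (fun k : ℕ => po (2 * t) k * (PP π ^ k) x y) (Kt π t x y) := by
  have h := exp_gen (PP π) (2 * t) x y
  unfold Kt QQ
  rw [smul_smul, mul_comm t 2]
  exact h

lemma Kt_trans (t : ℝ) (x y g : VV π) : Kt π t (x + g) (y + g) = Kt π t x y := by
  have h1 := Kt_hasSum π t (x + g) (y + g)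
  simp_rw [PP_trans] at h1
  exact h1.unique (Kt_hasSum π t x y)

lemma Kt_row (t : ℝ) (x : VV π) : ∑ y, Kt π t x y = 1 := by
  have h1 := hasSum_sum (fun y (_ : y ∈ (univ : Finset (VV π))) => Kt_hasSum π t x y)
  have h2 : (fun k : ℕ => ∑ y, po (2 * t) k * (PP π ^ k) x y) = fun k => po (2 * t) k := by
    funext k
    rw [← mul_sum, PP_row, mul_one]
  rw [h2] at h1
  exact h1.unique (po_one _)

/-- total variation distance to uniform at time `t` from `x` -/
noncomputable def ctv (t : ℝ) (x : VV π) : ℝ :=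
  (1 / 2) * ∑ y, |Kt π t x y - 1 / Fintype.card (VV π)|

lemma ctv_eq (t : ℝ) (x : VV π) : ctv π t x = ctv π t 0 := by
  unfold ctv
  congr 1
  rw [Fintype.sum_equiv (Equiv.subRight x) _
    (fun y => |Kt π t 0 y - 1 / Fintype.card (VV π)|)]
  intro y
  have := Kt_trans π t 0 (y - x) x
  rw [zero_add, sub_add_cancel] at this
  simp only [Equiv.subRight_apply]
  rw [this]

lemma ctv_upper (hn : 1 ≤ n) {t : ℝ} (ht : 0 ≤ t) (x : VV π) :
    ctv π t x ≤ Real.exp (-(2 * t * bet π)) + 4 * bet π := by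
  have hb0 := bet_nonneg π
  unfold ctv
  apply PakE.tv_up _ (Kt_row π t x) (by positivity)
  intro y
  have hV : (0 : ℝ) < Fintype.card (VV π) := by
    exact_mod_cast (Fintype.card_pos : 0 < Fintype.card (VV π))
  have h1 := Kt_hasSum π t x y
  have h2 : HasSum (fun k : ℕ => po (2 * t) k * ((1 - (1 - bet π) ^ k - 4 * bet π) /
      Fintype.card (VV π))) ((1 - Real.exp (-(2 * t * bet π)) - 4 * bet π) /
      Fintype.card (VV π)) := by
    have h3 := ((po_one (2 * t)).mul_left (1 - 4 * bet π)).sub (po_hasSum (2 * t) (1 - bet π))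
    have h4 := h3.div_const (Fintype.card (VV π) : ℝ)
    have e1 : (fun k : ℕ => po (2 * t) k * ((1 - (1 - bet π) ^ k - 4 * bet π) /
      Fintype.card (VV π))) = fun k : ℕ => ((1 - 4 * bet π) * po (2 * t) k -
        po (2 * t) k * (1 - bet π) ^ k) / Fintype.card (VV π) := by
      funext k; ring
    have e2 : (1 - Real.exp (-(2 * t * bet π)) - 4 * bet π) / (Fintype.card (VV π) : ℝ) =
        ((1 - 4 * bet π) * 1 - Real.exp (-(2 * t * (1 - (1 - bet π))))) /
          Fintype.card (VV π) := by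
      congr 1
      rw [sub_sub_cancel]
      ring
    rw [e1, e2]
    exact h4
  have h5 : (1 - (Real.exp (-(2 * t * bet π)) + 4 * bet π)) / (Fintype.card (VV π) : ℝ) =
      (1 - Real.exp (-(2 * t * bet π)) - 4 * bet π) / Fintype.card (VV π) := by
    congr 1; ring
  rw [h5]
  apply hasSum_le _ h2 h1
  intro k
  exact mul_le_mul_of_nonneg_left (PP_lower π hn k x y) (po_nonneg (by linarith) k)

lemma ctv_lower (hn : 5 ≤ n) {t : ℝ} (ht : 0 ≤ t) (htn : 20 * t ≤ n) (x : VV π) :
    3 / 5 ≤ ctv π t x := by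
  rw [ctv_eq]
  have hV : (0 : ℝ) < Fintype.card (VV π) := by
    exact_mod_cast (Fintype.card_pos : 0 < Fintype.card (VV π))
  set u := (∑ z, FF π z) / Fintype.card (KK π) with hu
  have hu0 : 19 / 20 ≤ u := FF_mass π
  -- mass of the avoidance set
  have h1 := hasSum_sum (fun y (_ : y ∈ (univ : Finset (VV π))) =>
    (Kt_hasSum π t 0 y).mul_right (FF π y.1))
  have h2 : (fun k : ℕ => ∑ y : VV π, po (2 * t) k * (PP π ^ k) 0 y * FF π y.1) =
      fun k => po (2 * t) k * ∑ y : VV π, (PP π ^ k) 0 y * FF π y.1 := by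
    funext k
    rw [mul_sum]
    apply sum_congr rfl
    intro y _
    ring
  rw [h2] at h1
  have hF1 : ∀ y : VV π, FF π y.1 ≤ 1 := fun y => by unfold FF av; split_ifs <;> norm_num
  have hF0 : ∀ y : VV π, 0 ≤ FF π y.1 := fun y => by unfold FF av; split_ifs <;> norm_num
  have hm : ∀ k : ℕ, ∑ y : VV π, (PP π ^ k) 0 y * FF π y.1 ≤
      (u - 27 / 40) + (29 / 40) / 2 ^ n * 2 ^ k := by
    intro k
    by_cases hk : k ≤ n
    · have := PP_E_upper π hn k hk
      have h3 : (0 : ℝ) ≤ (29 / 40) / 2 ^ n * 2 ^ k := by positivity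
      linarith
    · have h3 : ∑ y : VV π, (PP π ^ k) 0 y * FF π y.1 ≤ ∑ y : VV π, (PP π ^ k) 0 y := by
        apply sum_le_sum
        intro y _
        calc (PP π ^ k) 0 y * FF π y.1 ≤ (PP π ^ k) 0 y * 1 :=
              mul_le_mul_of_nonneg_left (hF1 y) (PP_nonneg π k 0 y)
          _ = _ := mul_one _
      rw [PP_row] at h3
      have h4 : (1 : ℝ) ≤ 2 ^ k / 2 ^ n := by
        rw [le_div_iff₀ (by positivity), one_mul]
        exact pow_le_pow_right₀ (by norm_num) (by omega)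
      have h5 : (29 / 40 : ℝ) / 2 ^ n * 2 ^ k = 29 / 40 * (2 ^ k / 2 ^ n) := by ring
      rw [h5]
      linarith
  have h6 : HasSum (fun k : ℕ => po (2 * t) k * ((u - 27 / 40) + (29 / 40) / 2 ^ n * 2 ^ k))
      ((u - 27 / 40) + (29 / 40) / 2 ^ n * Real.exp (2 * t)) := by
    have h7 := ((po_one (2 * t)).mul_left (u - 27 / 40)).add
      ((po_hasSum (2 * t) 2).mul_left ((29 / 40) / 2 ^ n))
    have e1 : (fun k : ℕ => po (2 * t) k * ((u - 27 / 40) + (29 / 40) / 2 ^ n * 2 ^ k)) =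
        fun k : ℕ => (u - 27 / 40) * po (2 * t) k + (29 / 40) / 2 ^ n * (po (2 * t) k * 2 ^ k) := by
      funext k; ring
    have e2 : (u - 27 / 40) + (29 / 40) / 2 ^ n * Real.exp (2 * t) =
        (u - 27 / 40) * 1 + (29 / 40) / 2 ^ n * Real.exp (-(2 * t * (1 - 2))) := by
      rw [mul_one]
      congr 3
      ring
    rw [e1, e2]
    exact h7
  have h8 := hasSum_le (fun k => mul_le_mul_of_nonneg_left (hm k)
    (po_nonneg (show 0 ≤ 2 * t by linarith) k)) h1 h6
  -- small Poisson tail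
  have h9 : (29 / 40 : ℝ) / 2 ^ n * Real.exp (2 * t) ≤ 3 / 40 := by
    have e1 : Real.exp (1 / 10) ≤ 6 / 5 := by
      by_contra hcon
      rw [not_le] at hcon
      have h10 : (6 / 5 : ℝ) ^ 10 < Real.exp (1 / 10) ^ 10 :=
        pow_lt_pow_left₀ hcon (by norm_num) (by norm_num)
      rw [← Real.exp_nat_mul] at h10
      have h11 := Real.exp_one_lt_d9
      norm_num at h10
      linarith
    have e2 : Real.exp (2 * t) ≤ (6 / 5) ^ n := by
      calc Real.exp (2 * t) ≤ Real.exp ((n : ℝ) * (1 / 10)) := by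
            apply Real.exp_le_exp.2; linarith
        _ = Real.exp (1 / 10) ^ n := by rw [Real.exp_nat_mul]
        _ ≤ (6 / 5) ^ n := pow_le_pow_left₀ (Real.exp_pos _).le e1 n
    have e3 : (6 / 5 : ℝ) ^ n / 2 ^ n ≤ (3 / 5) ^ 5 := by
      rw [← div_pow]
      calc ((6 / 5 : ℝ) / 2) ^ n = (3 / 5) ^ n := by norm_num
        _ ≤ (3 / 5) ^ 5 := pow_le_pow_of_le_one (by norm_num) (by norm_num) hn
    calc (29 / 40 : ℝ) / 2 ^ n * Real.exp (2 * t) ≤ (29 / 40 : ℝ) / 2 ^ n * (6 / 5) ^ n := by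
          gcongr
      _ = 29 / 40 * ((6 / 5 : ℝ) ^ n / 2 ^ n) := by ring
      _ ≤ 29 / 40 * (3 / 5) ^ 5 := by gcongr
      _ ≤ 3 / 40 := by norm_num
  have h10 := PakE.tv_low (fun y => Kt π t 0 y) (Kt_row π t 0) (fun y => FF π y.1) hF0 hF1
  have h11 : ∑ y : VV π, (1 / (Fintype.card (VV π) : ℝ) - Kt π t 0 y) * FF π y.1 =
      u - ∑ y : VV π, Kt π t 0 y * FF π y.1 := by
    simp_rw [sub_mul]
    rw [sum_sub_distrib, sum_FF_VV]
  rw [h11] at h10
  have h12 : ctv π t 0 = (1 / 2) * ∑ g, |Kt π t 0 g - 1 / (Fintype.card (VV π) : ℝ)| := rfl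
  rw [h12]
  linarith

/-! ### an explicit eigenvector -/

lemma rho_lt : rr π + cc π * Fintype.card (KK π) - cc π * (SS π).card < 1 := by
  have hN := norm_VV π
  unfold Norm at hN
  rw [ZMod.card] at hN
  have h1 : 0 < cc π * (SS π).card := by
    have := cc_pos π
    have h2 : (0 : ℝ) < (SS π).card := by exact_mod_cast SS_pos π
    positivity
  have h3 := bR π
  nlinarith

/-- eigenvector supported on the `B` coordinate -/
noncomputable def ev (x : VV π) : ℝ := (if x.2 = 0 then 1 else 0) - (if x.2 = 1 then 1 else 0)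

lemma ev_ne : ev π ≠ 0 := by
  intro h
  have h1 := congrFun h ((0 : KK π), (0 : ZMod π.b))
  have h2 : (0 : ZMod π.b) ≠ 1 := by
    have : Fact (1 < π.b) := ⟨by have := π.b2; omega⟩
    exact zero_ne_one
  simp [ev, h2] at h1

lemma ev_eig (x : VV π) : ∑ y, PP π x y * ev π y =
    (rr π + cc π * Fintype.card (KK π) - cc π * (SS π).card) * ev π x := by
  have h1 : ∀ y : VV π, PP π x y * ev π y = ∑ v : ZMod π.b, (if y.2 = v then
      PP π x y * ((if v = 0 then 1 else 0) - (if v = 1 then 1 else 0)) else 0) := by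
    intro y
    rw [Finset.sum_ite_eq]
    simp [ev]
  rw [Fintype.sum_prod_type_right]
  have h2 : ∀ v : ZMod π.b, ∑ z : KK π, PP π x (z, v) * ev π (z, v) =
      ((if x.2 = v then rr π + cc π * Fintype.card (KK π) - cc π * (SS π).card else 0) +
        cc π * (SS π).card) * ((if v = 0 then 1 else 0) - (if v = 1 then 1 else 0)) := by
    intro v
    rw [← rowK (rr π) (cc π) (SS π) v x, sum_mul]
    rfl
  simp_rw [h2, add_mul]
  rw [sum_add_distrib, ← mul_sum, sum_sub_distrib]
  simp only [ite_mul, zero_mul, Finset.sum_ite_eq, Finset.sum_ite_eq', mem_univ, if_true, sub_self,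
    mul_zero, add_zero]
  rfl

end walk

end Pool.Agent.Pak
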