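import Pool.Agent.PakF

set_option autoImplicit false
set_option linter.unusedSectionVars false
set_option linter.unusedVariables false

namespace Pool.Agent.Pak

open Finset Filter Topology

section walk

variable {n : ℕ} (π : Params n)

/-- complex eigenvalues are character sums -/
lemma eig_charC (f : VV π → ℂ) (hf : f ≠ 0) (lam : ℂ)
    (hl : ∀ x, ∑ y, (PP π x y : ℂ) * f y = lam * f x) :
    ∃ χ : AddChar (VV π) ℂ, lam = ∑ g, (PP π g 0 : ℂ) * χ g := by
  classical
  have hex : ∃ χ : AddChar (VV π) ℂ, ∑ x, f x * χ x ≠ 0 := by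
    by_contra hcon
    push Not at hcon
    apply hf
    funext y
    have h1 : ∑ χ : AddChar (VV π) ℂ, χ (-y) * ∑ x, f x * χ x = 0 := by
      apply sum_eq_zero
      intro χ _
      rw [hcon χ, mul_zero]
    have h2 : ∑ χ : AddChar (VV π) ℂ, χ (-y) * ∑ x, f x * χ x =
        ∑ x, f x * ∑ χ : AddChar (VV π) ℂ, χ (x - y) := by
      simp_rw [mul_sum]
      rw [sum_comm]
      apply sum_congr rfl
      intro x _
      apply sum_congr rfl
      intro χ _
      rw [sub_eq_add_neg, AddChar.map_add_eq_mul]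
      ring
    rw [h2] at h1
    simp_rw [AddChar.sum_apply_eq_ite, sub_eq_zero, mul_ite, mul_zero] at h1
    rw [Finset.sum_ite_eq' univ y] at h1
    simp only [mem_univ, if_true, mul_eq_zero, Nat.cast_eq_zero] at h1
    rcases h1 with h1 | h1
    · exact h1
    · exact absurd h1 Fintype.card_ne_zero
  obtain ⟨χ, hχ⟩ := hex
  refine ⟨χ, ?_⟩
  have h3 : ∑ x, (∑ y, (PP π x y : ℂ) * f y) * χ x = lam * ∑ x, f x * χ x := by
    rw [mul_sum]
    apply sum_congr rfl
    intro x _
    rw [hl x]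
    ring
  have h4 : ∑ x, (∑ y, (PP π x y : ℂ) * f y) * χ x =
      (∑ g, (PP π g 0 : ℂ) * χ g) * ∑ x, f x * χ x := by
    have e5 : ∑ x, (∑ y, (PP π x y : ℂ) * f y) * χ x =
        ∑ y, ∑ x, (PP π x y : ℂ) * f y * χ x := by
      simp_rw [sum_mul]
      rw [sum_comm]
    have e6 : (∑ g, (PP π g 0 : ℂ) * χ g) * ∑ x, f x * χ x =
        ∑ y, ∑ g, (PP π g 0 : ℂ) * χ g * (f y * χ y) := by
      rw [sum_mul_sum, sum_comm]
    rw [e5, e6]
    apply sum_congr rfl
    intro y _
    have h7 := Fintype.sum_equiv (Equiv.subRight y)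
      (fun x => (PP π x y : ℂ) * f y * χ x)
      (fun g => (PP π (g + y) y : ℂ) * f y * χ (g + y))
      (fun x => by simp)
    rw [h7]
    apply sum_congr rfl
    intro g _
    rw [AddChar.map_add_eq_mul]
    have e : PP π (g + y) y = PP π g 0 := by
      have := PP_trans1 π g 0 y
      rwa [zero_add] at this
    rw [e]
    ring
  rw [h3] at h4
  exact mul_right_cancel₀ hχ h4

lemma eig_boundC (hn : 1 ≤ n) (f : VV π → ℂ) (hf : f ≠ 0) (lam : ℂ)
    (hl : ∀ x, ∑ y, (PP π x y : ℂ) * f y = lam * f x) (h1 : lam ≠ 1) : ‖lam‖ ≤ 5 / 6 := by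
  obtain ⟨χ, hχ⟩ := eig_charC π f hf lam hl
  have h2 : χ ≠ 0 := by
    intro h
    apply h1
    rw [h] at hχ
    rw [hχ]
    have h3 : ∑ g, (PP π g 0 : ℂ) * (0 : AddChar (VV π) ℂ) g = ((∑ g, PP π g 0 : ℝ) : ℂ) := by
      push_cast
      apply sum_congr rfl
      intro g _
      simp
    rw [h3]
    have : ∑ g, PP π g 0 = 1 := col_sum (norm_VV π) 0
    rw [this]
    simp
  rw [hχ]
  exact char_bound π hn χ h2

/-- real eigenvalues of `-Q` -/
lemma Q_eig_real (hn : 1 ≤ n) (f : VV π → ℝ) (hf : f ≠ 0) (l : ℝ) (hl0 : l ≠ 0)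
    (hl : ∀ x, ∑ y, -(QQ π x y) * f y = l * f x) : 1 / 3 ≤ l := by
  have h1 : ∀ x, ∑ y, PP π x y * f y = (1 - l / 2) * f x := by
    intro x
    have h2 := hl x
    have h3 : ∀ y, -(QQ π x y) * f y = -2 * (PP π x y * f y) + 2 * ((1 : Matrix (VV π) (VV π) ℝ) x y * f y) := by
      intro y
      unfold QQ
      rw [Matrix.smul_apply, Matrix.sub_apply, smul_eq_mul]
      ring
    simp_rw [h3] at h2
    rw [sum_add_distrib, ← mul_sum, ← mul_sum] at h2
    have h4 : ∑ y, (1 : Matrix (VV π) (VV π) ℝ) x y * f y = f x := by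
      simp [Matrix.one_apply]
    rw [h4] at h2
    linarith
  have h5 := eig_bound π hn f hf (1 - l / 2) h1 (by intro h; apply hl0; linarith)
  rw [abs_le] at h5
  linarith [h5.2]

lemma Q_eig_complex (hn : 1 ≤ n) (f : VV π → ℂ) (hf : f ≠ 0) (l : ℂ) (hl0 : l ≠ 0)
    (hl : ∀ x, ∑ y, -(QQ π x y : ℂ) * f y = l * f x) : 1 / 3 ≤ l.re := by
  have h1 : ∀ x, ∑ y, (PP π x y : ℂ) * f y = (1 - l / 2) * f x := by
    intro x
    have h2 := hl x
    have h3 : ∀ y, -(QQ π x y : ℂ) * f y = -2 * ((PP π x y : ℂ) * f y) +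
        2 * ((((1 : Matrix (VV π) (VV π) ℝ) x y : ℝ) : ℂ) * f y) := by
      intro y
      unfold QQ
      rw [Matrix.smul_apply, Matrix.sub_apply, smul_eq_mul]
      push_cast
      ring
    simp_rw [h3] at h2
    rw [sum_add_distrib, ← mul_sum, ← mul_sum] at h2
    have h4 : ∑ y, (((1 : Matrix (VV π) (VV π) ℝ) x y : ℝ) : ℂ) * f y = f x := by
      rw [Finset.sum_eq_single x]
      · simp
      · intro b _ hb
        rw [Matrix.one_apply_ne (Ne.symm hb)]
        simp
      · simp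
    rw [h4] at h2
    linear_combination (-1 / 2) * h2
  have h5 := eig_boundC π hn f hf (1 - l / 2) h1 (by
    intro h; apply hl0
    linear_combination (-2) * h)
  have h6 := (Complex.abs_re_le_norm (1 - l / 2)).trans h5
  rw [abs_le] at h6
  have h7 : (1 - l / 2).re = 1 - l.re / 2 := by
    rw [Complex.sub_re, Complex.one_re]
    congr 1
    simp
  rw [h7] at h6
  linarith [h6.2]

/-- value of the explicit nonzero eigenvalue of `-Q` -/
noncomputable def lq : ℝ := 2 * (1 - (rr π + cc π * Fintype.card (KK π) - cc π * (SS π).card))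

lemma lq_pos : 0 < lq π := by
  unfold lq
  have := rho_lt π
  linarith

lemma ev_Q (x : VV π) : ∑ y, -(QQ π x y) * ev π y = lq π * ev π x := by
  have h3 : ∀ y, -(QQ π x y) * ev π y = -2 * (PP π x y * ev π y) +
      2 * ((1 : Matrix (VV π) (VV π) ℝ) x y * ev π y) := by
    intro y
    unfold QQ
    rw [Matrix.smul_apply, Matrix.sub_apply, smul_eq_mul]
    ring
  simp_rw [h3]
  rw [sum_add_distrib, ← mul_sum, ← mul_sum, ev_eig]
  have h4 : ∑ y, (1 : Matrix (VV π) (VV π) ℝ) x y * ev π y = ev π x := by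
    simp [Matrix.one_apply]
  rw [h4]
  unfold lq
  ring

/-! ### mixing times in continuous time -/

/-- the common value of `τ_x` -/
noncomputable def taus : ℝ := sInf {t : ℝ | 0 ≤ t ∧ ctv π t 0 ≤ 1 / 4}

lemma taus_ge (hn : 100 ≤ n) : (n : ℝ) / 20 ≤ taus π := by
  have hb := bet_pos π
  have h4 := inv4n hn (bet_le π (by omega))
  apply le_csInf
  · refine ⟨2 / bet π, by positivity, ?_⟩
    refine (ctv_upper π (by omega) (by positivity) 0).trans ?_
    have e1 : -(2 * (2 / bet π) * bet π) = -4 := by field_simp; norm_num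
    rw [e1]
    have e2 : Real.exp (-4) ≤ 1 / 5 := by
      rw [Real.exp_neg, ← one_div]
      apply one_div_le_one_div_of_le (by norm_num)
      have := Real.add_one_le_exp (4 : ℝ)
      linarith
    linarith
  · rintro t ⟨ht0, ht⟩
    by_contra hcon
    rw [not_le] at hcon
    have := ctv_lower π (by omega) ht0 (by linarith) 0
    linarith

lemma ctv_mid (hn : 100 ≤ n) {T : ℝ} (hT : (n : ℝ) / 20 ≤ T) (x : VV π) :
    ctv π ((1 - 1 / 2000) * T) x ≤ 1 - 1 / 2000 := by
  have hb := bet_pos π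
  have h4 := inv4n hn (bet_le π (by omega))
  have hn' : (100 : ℝ) ≤ n := by exact_mod_cast hn
  have hT0 : 0 ≤ T := by linarith
  refine (ctv_upper π (by omega) (by positivity) x).trans ?_
  have e1 : (1 : ℝ) / 100 ≤ 2 * ((1 - 1 / 2000) * T) * bet π + 1 / 100 - 11 / 1000 := by
    have h5 := bet_ge π
    have h6 : (1 / (8 * (n : ℝ) + 10)) * (n / 20) ≤ bet π * T := by
      apply mul_le_mul h5 hT (by positivity) hb.le
    have h7 : (1 : ℝ) / 180 ≤ (1 / (8 * (n : ℝ) + 10)) * (n / 20) := by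
      rw [one_div_mul_eq_div, div_div, div_le_div_iff₀ (by norm_num) (by positivity)]
      linarith
    have h8 : (1 : ℝ) / 180 ≤ bet π * T := h7.trans h6
    nlinarith
  have e2 : Real.exp (-(2 * ((1 - 1 / 2000) * T) * bet π)) ≤ 1000 / 1011 := by
    calc Real.exp (-(2 * ((1 - 1 / 2000) * T) * bet π)) ≤ Real.exp (-(11 / 1000)) := by
          apply Real.exp_le_exp.2; linarith
      _ ≤ 1000 / 1011 := by
          rw [Real.exp_neg, inv_le_comm₀ (Real.exp_pos _) (by norm_num)]
          have := Real.add_one_le_exp (11 / 1000 : ℝ)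
          norm_num at this ⊢
          linarith
  have e3 : (1000 : ℝ) / 1011 + 1 / 100 ≤ 1 - 1 / 2000 := by norm_num
  linarith

lemma ratio_ge (hn : 100 ≤ n) {T g : ℝ} (hT : (n : ℝ) / 20 ≤ T) (hg : 1 / 3 ≤ g) :
    (n : ℝ) / 60 ≤ T / (1 / g) := by
  have hn' : (100 : ℝ) ≤ n := by exact_mod_cast hn
  rw [div_div_eq_mul_div, div_one]
  calc (n : ℝ) / 60 = (n / 20) * (1 / 3) := by ring
    _ ≤ T * g := mul_le_mul hT hg (by norm_num) (by linarith)

end walk

end Pool.Agent.Pak
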