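import Pool.Agent.PakG

set_option autoImplicit false
set_option linter.unusedSectionVars false
set_option linter.unusedVariables false

namespace Pool.Agent.Pak

open Finset Filter Topology

section walk

variable {n : ℕ} (π : Params n)

lemma Kt_lower (hn : 1 ≤ n) {t : ℝ} (ht : 0 ≤ t) (x y : VV π) :
    (1 - (Real.exp (-(2 * t * bet π)) + 4 * bet π)) / Fintype.card (VV π) ≤ Kt π t x y := by
  have hV : (0 : ℝ) < Fintype.card (VV π) := by
    exact_mod_cast (Fintype.card_pos : 0 < Fintype.card (VV π))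
  have h1 := Kt_hasSum π t x y
  have h2 : HasSum (fun k : ℕ => po (2 * t) k * ((1 - (1 - bet π) ^ k - 4 * bet π) /
      Fintype.card (VV π))) ((1 - Real.exp (-(2 * t * bet π)) - 4 * bet π) /
      Fintype.card (VV π)) := by
    have h3 := ((po_one (2 * t)).mul_left (1 - 4 * bet π)).sub (po_hasSum (2 * t) (1 - bet π))
    have h4 := h3.div_const (Fintype.card (VV π) : ℝ)
    have e1 : (fun k : ℕ => po (2 * t) k * ((1 - (1 - bet π) ^ k - 4 * bet π) /
      Fintype.card (VV π))) = fun k : ℕ => ((1 - 4 * bet π) * po (2 * t) k -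
        po (2 * t) k * (1 - bet π) ^ k) / Fintype.card (VV π) := by
      funext k; ring
    have e2 : (1 - Real.exp (-(2 * t * bet π)) - 4 * bet π) / (Fintype.card (VV π) : ℝ) =
        ((1 - 4 * bet π) * 1 - Real.exp (-(2 * t * (1 - (1 - bet π))))) /
          Fintype.card (VV π) := by
      congr 1
      rw [sub_sub_cancel]
      ring
    rw [e1, e2]
    exact h4
  have h5 : (1 - (Real.exp (-(2 * t * bet π)) + 4 * bet π)) / (Fintype.card (VV π) : ℝ) =
      (1 - Real.exp (-(2 * t * bet π)) - 4 * bet π) / Fintype.card (VV π) := by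
    congr 1; ring
  rw [h5]
  apply hasSum_le _ h2 h1
  intro k
  exact mul_le_mul_of_nonneg_left (PP_lower π hn k x y) (po_nonneg (by linarith) k)

/-- separation distance in continuous time -/
noncomputable def csep (t : ℝ) : ℝ := ⨆ x, ⨆ y, (1 - Kt π t x y / (1 / Fintype.card (VV π)))

lemma csep_le (hn : 1 ≤ n) {t : ℝ} (ht : 0 ≤ t) :
    csep π t ≤ Real.exp (-(2 * t * bet π)) + 4 * bet π := by
  have hV : (0 : ℝ) < Fintype.card (VV π) := by
    exact_mod_cast (Fintype.card_pos : 0 < Fintype.card (VV π))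
  unfold csep
  apply ciSup_le
  intro x
  apply ciSup_le
  intro y
  have h := Kt_lower π hn ht x y
  rw [div_le_iff₀ hV] at h
  rw [div_div_eq_mul_div, div_one]
  linarith

lemma csep_ge (t : ℝ) : ctv π t 0 ≤ csep π t := by
  have hV : (0 : ℝ) < Fintype.card (VV π) := by
    exact_mod_cast (Fintype.card_pos : 0 < Fintype.card (VV π))
  have h1 : ∀ y, 1 - Kt π t 0 y / (1 / (Fintype.card (VV π) : ℝ)) ≤ csep π t := by
    intro y
    unfold csep
    refine le_trans ?_ (le_ciSup (Finite.bddAbove_range _) (0 : VV π))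
    exact le_ciSup (f := fun y => 1 - Kt π t 0 y / (1 / (Fintype.card (VV π) : ℝ)))
      (Finite.bddAbove_range _) y
  have hpos : 0 ≤ csep π t := by
    have h2 : ∑ y, (1 - Kt π t 0 y / (1 / (Fintype.card (VV π) : ℝ))) ≤
        ∑ y : VV π, csep π t := sum_le_sum fun y _ => h1 y
    rw [sum_sub_distrib, ← sum_div, Kt_row, sum_const, sum_const, card_univ, nsmul_eq_mul,
      nsmul_eq_mul, one_div_one_div, mul_one, sub_self] at h2
    by_contra hneg
    rw [not_le] at hneg
    have := mul_neg_of_pos_of_neg hV hneg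
    linarith
  unfold ctv
  apply PakE.tv_up _ (Kt_row π t 0) hpos
  intro y
  have h3 := h1 y
  rw [div_div_eq_mul_div, div_one] at h3
  rw [div_le_iff₀ hV]
  linarith

lemma num_mid (hn : 100 ≤ n) {T : ℝ} (hT : (n : ℝ) / 20 ≤ T) :
    Real.exp (-(2 * ((1 - 1 / 2000) * T) * bet π)) + 4 * bet π ≤ 1 - 1 / 2000 := by
  have hb := bet_pos π
  have h4 := inv4n hn (bet_le π (by omega))
  have hn' : (100 : ℝ) ≤ n := by exact_mod_cast hn
  have hT0 : 0 ≤ T := by linarith
  have e1 : (1 : ℝ) / 100 ≤ 2 * ((1 - 1 / 2000) * T) * bet π + 1 / 100 - 11 / 1000 := by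
    have h5 := bet_ge π
    have h6 : (1 / (8 * (n : ℝ) + 10)) * (n / 20) ≤ bet π * T := by
      apply mul_le_mul h5 hT (by positivity) hb.le
    have h7 : (1 : ℝ) / 180 ≤ (1 / (8 * (n : ℝ) + 10)) * (n / 20) := by
      rw [one_div_mul_eq_div, div_div, div_le_div_iff₀ (by norm_num) (by positivity)]
      linarith
    have h8 : (1 : ℝ) / 180 ≤ bet π * T := h7.trans h6
    nlinarith
  have e2 : Real.exp (-(2 * ((1 - 1 / 2000) * T) * bet π)) ≤ 1000 / 1011 := by
    calc Real.exp (-(2 * ((1 - 1 / 2000) * T) * bet π)) ≤ Real.exp (-(11 / 1000)) := by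
          apply Real.exp_le_exp.2; linarith
      _ ≤ 1000 / 1011 := by
          rw [Real.exp_neg, inv_le_comm₀ (Real.exp_pos _) (by norm_num)]
          have := Real.add_one_le_exp (11 / 1000 : ℝ)
          norm_num at this ⊢
          linarith
  have e3 : (1000 : ℝ) / 1011 + 1 / 100 ≤ 1 - 1 / 2000 := by norm_num
  linarith

lemma csep_zero (hn : 2 ≤ n) : csep π 0 = 1 := by
  have hV : (0 : ℝ) < Fintype.card (VV π) := by
    exact_mod_cast (Fintype.card_pos : 0 < Fintype.card (VV π))
  have hK : ∀ x y, Kt π 0 x y = if x = y then 1 else 0 := by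
    intro x y
    unfold Kt
    rw [zero_smul, NormedSpace.exp_zero, Matrix.one_apply]
  apply le_antisymm
  · unfold csep
    apply ciSup_le
    intro x
    apply ciSup_le
    intro y
    rw [hK, div_div_eq_mul_div, div_one]
    have : (0 : ℝ) ≤ (if x = y then (1 : ℝ) else 0) * Fintype.card (VV π) := by
      split_ifs
      · rw [one_mul]; exact hV.le
      · rw [zero_mul]
    linarith
  · have hcard : 1 < Fintype.card (VV π) := lt_of_lt_of_le (by omega) (card_VV_ge π)
    obtain ⟨x, y, hxy⟩ := Fintype.exists_pair_of_one_lt_card hcard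
    unfold csep
    refine le_trans ?_ (le_ciSup (Finite.bddAbove_range _) x)
    refine le_trans ?_ (le_ciSup (f := fun y => 1 - Kt π 0 x y / (1 / (Fintype.card (VV π) : ℝ)))
      (Finite.bddAbove_range _) y)
    rw [hK, if_neg hxy, zero_div, sub_zero]

/-- separation mixing time at level `1/4` -/
noncomputable def seps : ℝ := sInf {t : ℝ | 0 ≤ t ∧ csep π t ≤ 1 / 4}

lemma seps_ge (hn : 100 ≤ n) : (n : ℝ) / 20 ≤ seps π := by
  have hb := bet_pos π
  have h4 := inv4n hn (bet_le π (by omega))
  apply le_csInf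
  · refine ⟨2 / bet π, by positivity, ?_⟩
    refine (csep_le π (by omega) (by positivity)).trans ?_
    have e1 : -(2 * (2 / bet π) * bet π) = -4 := by field_simp; norm_num
    rw [e1]
    have e2 : Real.exp (-4) ≤ 1 / 5 := by
      rw [Real.exp_neg, ← one_div]
      apply one_div_le_one_div_of_le (by norm_num)
      have := Real.add_one_le_exp (4 : ℝ)
      linarith
    linarith
  · rintro t ⟨ht0, ht⟩
    by_contra hcon
    rw [not_le] at hcon
    have h1 := ctv_lower π (by omega) ht0 (by linarith) 0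
    have h2 := csep_ge π t
    linarith

end walk

end Pool.Agent.Pak
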