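import Mathlib

set_option autoImplicit false

/-! Straight-line plane drawings with integer coordinates: a kernel-checkable criterion. -/

namespace Pool.Agent.PlaneCheck

/-- straight path in `ℂ` -/
noncomputable def seg (a b : ℂ) : Path a b where
  toFun t := a + (((t : ℝ) : ℂ)) * (b - a)
  continuous_toFun := by fun_prop
  source' := by simp
  target' := by simp

theorem seg_apply (a b : ℂ) (t : unitInterval) : seg a b t = a + (((t : ℝ) : ℂ)) * (b - a) := rfl

/-- orientation determinant -/
def O (X Y : ℕ → ℤ) (u v w : ℕ) : ℤ :=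
  (X v - X u) * (Y w - Y u) - (Y v - Y u) * (X w - X u)

/-- real orientation determinant -/
def R (a b c : ℂ) : ℝ := (b.re - a.re) * (c.im - a.im) - (b.im - a.im) * (c.re - a.re)

/-- position of a vertex -/
noncomputable def pos (X Y : ℕ → ℤ) (u : ℕ) : ℂ := ⟨(X u : ℝ), (Y u : ℝ)⟩

theorem R_pos (X Y : ℕ → ℤ) (u v w : ℕ) :
    R (pos X Y u) (pos X Y v) (pos X Y w) = ((O X Y u v w : ℤ) : ℝ) := by
  simp [R, pos, O]

theorem R_line (a b c d : ℂ) (s : ℝ) :
    R a b (c + (s : ℂ) * (d - c)) = (1 - s) * R a b c + s * R a b d := by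
  simp [R]
  ring

theorem R_self_left (a b : ℂ) : R a b a = 0 := by simp [R]

theorem R_self_right (a b : ℂ) : R a b b = 0 := by simp [R]; ring

theorem R_on (a b : ℂ) (s : ℝ) : R a b (a + (s : ℂ) * (b - a)) = 0 := by
  rw [R_line, R_self_left, R_self_right]; ring

theorem inj_pos (X Y : ℕ → ℤ) {u v : ℕ} (h : pos X Y u = pos X Y v) : X u = X v ∧ Y u = Y v := by
  have h1 := congrArg Complex.re h
  have h2 := congrArg Complex.im h
  simp only [pos] at h1 h2
  exact ⟨by exact_mod_cast h1, by exact_mod_cast h2⟩

theorem seg_inj {a b : ℂ} (h : a ≠ b) : Function.Injective (seg a b) := by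
  intro s t hst
  rw [seg_apply, seg_apply] at hst
  have h1 := add_left_cancel hst
  have h2 : b - a ≠ 0 := sub_ne_zero.2 (Ne.symm h)
  have h3 := mul_right_cancel₀ h2 h1
  apply Subtype.ext
  exact_mod_cast h3

/-- two segments whose lines separate do not meet -/
theorem no_meet (a b c d : ℂ) (h : 0 < R a b c * R a b d) (s t : unitInterval)
    (hst : seg a b s = seg c d t) : False := by
  rw [seg_apply, seg_apply] at hst
  have h1 := R_on a b s
  rw [hst, R_line] at h1
  have ht0 : 0 ≤ (t : ℝ) := t.2.1
  have ht1 : (t : ℝ) ≤ 1 := t.2.2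
  rcases (mul_pos_iff.1 h) with ⟨hc, hd⟩ | ⟨hc, hd⟩
  · nlinarith [mul_nonneg (sub_nonneg.2 ht1) hc.le, mul_nonneg ht0 hd.le]
  · nlinarith [mul_nonneg (sub_nonneg.2 ht1) (neg_pos.2 hc).le, mul_nonneg ht0 (neg_pos.2 hd).le]

/-- two segments with a common starting point meet only there -/
theorem meet_common (a b d : ℂ) (h : R a b d ≠ 0) (s t : unitInterval)
    (hst : seg a b s = seg a d t) : seg a b s = a := by
  have h0 := hst
  rw [seg_apply, seg_apply] at hst
  have h1 := R_on a b s
  rw [hst, R_line, R_self_left] at h1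
  have ht : (t : ℝ) = 0 := by
    have : (t : ℝ) * R a b d = 0 := by linarith
    rcases mul_eq_zero.1 this with h2 | h2
    · exact h2
    · exact absurd h2 h
  rw [h0, seg_apply, ht]
  simp

theorem seg_symm (a b : ℂ) (t : unitInterval) : seg a b t = seg b a (unitInterval.symm t) := by
  rw [seg_apply, seg_apply, unitInterval.coe_symm_eq]
  push_cast
  ring

/-- the criterion: a list of edges in general position and pairwise non-crossing -/
def good (X Y : ℕ → ℤ) (n : ℕ) (es : List (ℕ × ℕ)) : Bool :=
  (List.range n).all (fun u => (List.range n).all fun v => u == v || X u != X v || Y u != Y v) &&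
  es.all (fun e => e.1 != e.2 && (List.range n).all fun w =>
    w == e.1 || w == e.2 || O X Y e.1 e.2 w != 0) &&
  es.all (fun e => es.all fun g =>
    e.1 == g.1 || e.1 == g.2 || e.2 == g.1 || e.2 == g.2 ||
    decide (0 < O X Y e.1 e.2 g.1 * O X Y e.1 e.2 g.2) ||
    decide (0 < O X Y g.1 g.2 e.1 * O X Y g.1 g.2 e.2))

theorem plane (X Y : ℕ → ℤ) (n : ℕ) (es : List (ℕ × ℕ)) (hgood : good X Y n es = true)
    (G : SimpleGraph (Fin n))
    (hG : ∀ u v : Fin n, G.Adj u v → (u.val, v.val) ∈ es ∨ (v.val, u.val) ∈ es) :
    ∃ f : Fin n → ℂ, Function.Injective f ∧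
      ∃ γ : ∀ u v : Fin n, Path (f u) (f v),
        (∀ u v, G.Adj u v → Function.Injective ⇑(γ u v)) ∧
        (∀ u v w, G.Adj u v → f w ∈ Set.range ⇑(γ u v) → w = u ∨ w = v) ∧
        (∀ u v w x, G.Adj u v → G.Adj w x →
          s(u, v) ≠ s(w, x) → ∀ p ∈ Set.range ⇑(γ u v), p ∈ Set.range ⇑(γ w x) →
            ∃ y, (y = u ∨ y = v) ∧ (y = w ∨ y = x) ∧ p = f y) := by
  simp only [good, Bool.and_eq_true, List.all_eq_true, List.mem_range, Bool.or_eq_true,
    beq_iff_eq, bne_iff_ne, ne_eq, decide_eq_true_eq] at hgood
  obtain ⟨⟨h1, h2⟩, h3⟩ := hgood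
  have finj : Function.Injective (fun u : Fin n => pos X Y u.val) := by
    intro u v huv
    have h := inj_pos X Y huv
    rcases h1 u.val u.2 v.val v.2 with (h4 | h4) | h4
    · exact Fin.ext h4
    · exact absurd h.1 h4
    · exact absurd h.2 h4
  -- orientation facts for adjacent pairs, in either order
  have hO : ∀ u v w : Fin n, G.Adj u v → w ≠ u → w ≠ v →
      R (pos X Y u) (pos X Y v) (pos X Y w) ≠ 0 := by
    intro u v w huv hwu hwv
    rw [R_pos]
    have hwu' : w.val ≠ u.val := fun h => hwu (Fin.ext h)
    have hwv' : w.val ≠ v.val := fun h => hwv (Fin.ext h)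
    rcases hG u v huv with hm | hm
    · rcases (h2 _ hm).2 w.val w.2 with (h4 | h4) | h4
      · exact absurd h4 hwu'
      · exact absurd h4 hwv'
      · exact_mod_cast h4
    · rcases (h2 _ hm).2 w.val w.2 with (h4 | h4) | h4
      · exact absurd h4 hwv'
      · exact absurd h4 hwu'
      · have : O X Y u v w = - O X Y v u w := by simp only [O]; ring
        rw [this]
        push_cast
        exact neg_ne_zero.2 (by exact_mod_cast h4)
  have hdis : ∀ u v w x : Fin n, G.Adj u v → G.Adj w x → u ≠ w → u ≠ x → v ≠ w → v ≠ x →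
      0 < R (pos X Y u) (pos X Y v) (pos X Y w) * R (pos X Y u) (pos X Y v) (pos X Y x) ∨
      0 < R (pos X Y w) (pos X Y x) (pos X Y u) * R (pos X Y w) (pos X Y x) (pos X Y v) := by
    intro u v w x huv hwx a1 a2 a3 a4
    have b1 : u.val ≠ w.val := fun h => a1 (Fin.ext h)
    have b2 : u.val ≠ x.val := fun h => a2 (Fin.ext h)
    have b3 : v.val ≠ w.val := fun h => a3 (Fin.ext h)
    have b4 : v.val ≠ x.val := fun h => a4 (Fin.ext h)
    have key : 0 < O X Y u v w * O X Y u v x ∨ 0 < O X Y w x u * O X Y w x v := by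
      have s1 : ∀ a b c : ℕ, O X Y a b c = - O X Y b a c := by
        intro a b c; simp only [O]; ring
      rcases hG u v huv with hm | hm <;> rcases hG w x hwx with hk | hk
      · have := h3 _ hm _ hk
        simp only at this
        rcases this with ((((h | h) | h) | h) | h) | h
        · exact absurd h b1
        · exact absurd h b2
        · exact absurd h b3
        · exact absurd h b4
        · exact Or.inl h
        · exact Or.inr h
      · have := h3 _ hm _ hk
        simp only at this
        rcases this with ((((h | h) | h) | h) | h) | h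
        · exact absurd h b2
        · exact absurd h b1
        · exact absurd h b4
        · exact absurd h b3
        · left; rw [mul_comm]; exact h
        · right; rw [s1 w x u, s1 w x v]; simpa using h
      · have := h3 _ hm _ hk
        simp only at this
        rcases this with ((((h | h) | h) | h) | h) | h
        · exact absurd h b3
        · exact absurd h b4
        · exact absurd h b1
        · exact absurd h b2
        · left; rw [s1 u v w, s1 u v x]; simpa using h
        · right; rw [mul_comm]; exact h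
      · have := h3 _ hm _ hk
        simp only at this
        rcases this with ((((h | h) | h) | h) | h) | h
        · exact absurd h b4
        · exact absurd h b3
        · exact absurd h b2
        · exact absurd h b1
        · left; rw [s1 u v w, s1 u v x, mul_comm]; simpa using h
        · right; rw [s1 w x u, s1 w x v, mul_comm]; simpa using h
    rw [R_pos, R_pos, R_pos, R_pos]
    rcases key with h | h
    · left; exact_mod_cast h
    · right; exact_mod_cast h
  refine ⟨fun u => pos X Y u.val, finj, fun u v => seg _ _, ?_, ?_, ?_⟩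
  · intro u v huv
    exact seg_inj (fun h => huv.ne (finj h))
  · rintro u v w huv ⟨t, ht⟩
    by_contra hcon
    push Not at hcon
    apply hO u v w huv hcon.1 hcon.2
    have ht' : seg (pos X Y u) (pos X Y v) t = pos X Y w := ht
    rw [← ht', seg_apply]
    exact R_on _ _ _
  · rintro u v w x huv hwx hne p ⟨s, hs⟩ ⟨t, ht⟩
    by_cases c1 : u = w
    · subst c1
      have hvx : x ≠ v := fun h => hne (by rw [h])
      have hxu : x ≠ u := fun h => hwx.ne h.symm
      have := meet_common _ _ _ (hO u v x huv hxu hvx) s t (hs.trans ht.symm)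
      exact ⟨u, Or.inl rfl, Or.inl rfl, by rw [← hs, this]⟩
    by_cases c2 : u = x
    · subst c2
      have hwv : w ≠ v := fun h => hne (by rw [h]; exact Sym2.eq_swap)
      have hwu : w ≠ u := hwx.ne
      rw [seg_symm] at ht
      have := meet_common _ _ _ (hO u v w huv hwu hwv) s _ (hs.trans ht.symm)
      exact ⟨u, Or.inl rfl, Or.inr rfl, by rw [← hs, this]⟩
    by_cases c3 : v = w
    · subst c3
      have hxu : x ≠ u := fun h => hne (by rw [h]; exact Sym2.eq_swap)
      have hxv : x ≠ v := fun h => hwx.ne h.symm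
      rw [seg_symm] at hs
      have := meet_common _ _ _ (hO v u x huv.symm hxv hxu) _ t (hs.trans ht.symm)
      exact ⟨v, Or.inr rfl, Or.inl rfl, by rw [← hs, this]⟩
    by_cases c4 : v = x
    · subst c4
      have hwu : w ≠ u := fun h => hne (by rw [h])
      have hwv : w ≠ v := hwx.ne
      rw [seg_symm] at hs ht
      have := meet_common _ _ _ (hO v u w huv.symm hwv hwu) _ _ (hs.trans ht.symm)
      exact ⟨v, Or.inr rfl, Or.inr rfl, by rw [← hs, this]⟩
    · exfalso
      rcases hdis u v w x huv hwx c1 c2 c3 c4 with h | h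
      · exact no_meet _ _ _ _ h s t (hs.trans ht.symm)
      · exact no_meet _ _ _ _ h t s (ht.trans hs.symm)

end Pool.Agent.PlaneCheck
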