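import Pool.Statements.S00226

set_option autoImplicit false
open Pool Pool.MP_008109_al

namespace Pool.Agent.S00226

section BackForth

variable {X : Type} [CommGroup X]

/-- special subsets, as in the frozen statement -/
def Special (S : Set X) : Prop :=
  (∀ s ∈ S, s⁻¹ ∈ S) ∧ (1 : X) ∉ S ∧
    ∀ U V : Finset X, Disjoint U V →
      ∃ z : X, z ∉ U ∧ z ∉ V ∧ (∀ u ∈ U, z * u⁻¹ ∈ S) ∧ (∀ v ∈ V, z * v⁻¹ ∉ S)

def Good (S S' : Set X) (P : Subgroup (X × X)) : Prop :=
  (P : Set (X × X)).Finite ∧ ∀ p ∈ P, (p.1 = 1 ↔ p.2 = 1) ∧ (p.1 ∈ S ↔ p.2 ∈ S')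

def ext (hX : ∀ x : X, x * x = 1) (P : Subgroup (X × X)) (w : X × X) : Subgroup (X × X) where
  carrier := {x | x ∈ P ∨ x * w ∈ P}
  one_mem' := Or.inl P.one_mem
  mul_mem' := by
    intro a b ha hb
    have hw : w * w = 1 := Prod.ext (hX _) (hX _)
    rcases ha with ha | ha <;> rcases hb with hb | hb
    · exact Or.inl (P.mul_mem ha hb)
    · refine Or.inr ?_
      have := P.mul_mem ha hb
      rwa [← mul_assoc] at this
    · refine Or.inr ?_
      have := P.mul_mem ha hb
      rwa [show a * w * b = a * b * w by rw [mul_right_comm]] at this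
    · refine Or.inl ?_
      have := P.mul_mem ha hb
      rwa [show a * w * (b * w) = a * b * (w * w) by rw [mul_mul_mul_comm], hw, mul_one] at this
  inv_mem' := by
    intro a ha
    have hinv : a⁻¹ = a := by
      have : a * a = 1 := Prod.ext (hX _) (hX _)
      exact inv_eq_of_mul_eq_one_left this
    change a⁻¹ ∈ P ∨ a⁻¹ * w ∈ P
    rw [hinv]; exact ha

theorem forth (hX : ∀ x : X, x * x = 1) {S S' : Set X} (hS' : Special S')
    (P : Subgroup (X × X)) (hP : Good S S' P) (v : X) :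
    ∃ P' : Subgroup (X × X), P ≤ P' ∧ Good S S' P' ∧ ∃ p ∈ P', p.1 = v := by
  classical
  by_cases hv : ∃ p ∈ P, p.1 = v
  · exact ⟨P, le_rfl, hP, hv⟩
  push Not at hv
  obtain ⟨hfin, hgood⟩ := hP
  set U : Finset X := (hfin.toFinset.filter (fun p => p.1 * v ∈ S)).image Prod.snd with hU
  set V : Finset X := (hfin.toFinset.filter (fun p => p.1 * v ∉ S)).image Prod.snd with hV
  have hinv : ∀ x : X, x⁻¹ = x := fun x => inv_eq_of_mul_eq_one_left (hX x)
  have hdisj : Disjoint U V := by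
    rw [Finset.disjoint_left]
    intro a ha hb
    rw [hU, Finset.mem_image] at ha
    rw [hV, Finset.mem_image] at hb
    obtain ⟨p, hp, rfl⟩ := ha
    obtain ⟨q, hq, hqp⟩ := hb
    rw [Finset.mem_filter, Set.Finite.mem_toFinset] at hp hq
    have hpq : q * p⁻¹ ∈ P := P.mul_mem hq.1 (P.inv_mem hp.1)
    have h2 : (q * p⁻¹).2 = 1 := by
      simp [hqp]
    have h1 := (hgood _ hpq).1.2 h2
    have h3 : q.1 = p.1 := by
      have : q.1 * p.1⁻¹ = 1 := h1
      exact mul_inv_eq_one.1 this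
    apply hq.2
    rw [h3]; exact hp.2
  obtain ⟨z, hzU, hzV, hU', hV'⟩ := hS'.2.2 U V hdisj
  have hzP : ∀ p ∈ P, p.2 ≠ z := by
    intro p hp h
    by_cases hps : p.1 * v ∈ S
    · apply hzU
      rw [hU, Finset.mem_image]
      exact ⟨p, by rw [Finset.mem_filter, Set.Finite.mem_toFinset]; exact ⟨hp, hps⟩, h⟩
    · apply hzV
      rw [hV, Finset.mem_image]
      exact ⟨p, by rw [Finset.mem_filter, Set.Finite.mem_toFinset]; exact ⟨hp, hps⟩, h⟩
  refine ⟨ext hX P (v, z), fun p hp => Or.inl hp, ⟨?_, ?_⟩, ⟨(v, z), Or.inr ?_, rfl⟩⟩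
  · have : ((ext hX P (v, z) : Subgroup (X × X)) : Set (X × X)) ⊆
        (P : Set (X × X)) ∪ (fun x => x * (v, z)) ⁻¹' (P : Set (X × X)) := by
      intro x hx
      exact hx
    refine Set.Finite.subset (hfin.union (hfin.preimage ?_)) this
    intro a _ b _ hab
    exact mul_right_cancel hab
  · intro x hx
    rcases hx with hx | hx
    · exact hgood x hx
    · set p := x * (v, z) with hp
      have hw : ((v, z) : X × X) * (v, z) = 1 := Prod.ext (hX _) (hX _)
      have hxp : x = p * (v, z) := by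
        rw [hp, mul_assoc, hw, mul_one]
      have e1 : x.1 = p.1 * v := by rw [hxp]; rfl
      have e2 : x.2 = p.2 * z := by rw [hxp]; rfl
      rw [e1, e2]
      refine ⟨⟨fun h => ?_, fun h => ?_⟩, ?_⟩
      · exfalso
        apply hv p hx
        rw [← mul_inv_eq_one, hinv]; exact h
      · exfalso
        apply hzP p hx
        rw [← mul_inv_eq_one, hinv]; exact h
      · constructor
        · intro h
          have : p.2 ∈ U := by
            rw [hU, Finset.mem_image]
            exact ⟨p, by rw [Finset.mem_filter, Set.Finite.mem_toFinset]; exact ⟨hx, h⟩, rfl⟩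
          have := hU' _ this
          rwa [hinv, mul_comm] at this
        · intro h
          by_contra hc
          have : p.2 ∈ V := by
            rw [hV, Finset.mem_image]
            exact ⟨p, by rw [Finset.mem_filter, Set.Finite.mem_toFinset]; exact ⟨hx, hc⟩, rfl⟩
          have := hV' _ this
          rw [hinv, mul_comm] at this
          exact this h
  · have hw : ((v, z) : X × X) * (v, z) = 1 := Prod.ext (hX _) (hX _)
    change ((v, z) : X × X) * (v, z) ∈ P
    rw [hw]; exact P.one_mem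

def sw (P : Subgroup (X × X)) : Subgroup (X × X) where
  carrier := {x | x.swap ∈ P}
  one_mem' := P.one_mem
  mul_mem' := fun {a b} ha hb => P.mul_mem ha hb
  inv_mem' := fun {a} ha => P.inv_mem ha

theorem mem_sw (P : Subgroup (X × X)) (x : X × X) : x ∈ sw P ↔ x.swap ∈ P := Iff.rfl

theorem good_sw {S S' : Set X} (P : Subgroup (X × X)) (hP : Good S S' P) : Good S' S (sw P) := by
  refine ⟨?_, ?_⟩
  · have : ((sw P : Subgroup (X × X)) : Set (X × X)) = Prod.swap ⁻¹' (P : Set (X × X)) := rfl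
    rw [this]
    exact hP.1.preimage (Prod.swap_injective.injOn)
  · intro p hp
    have := hP.2 _ hp
    exact ⟨this.1.symm, this.2.symm⟩

theorem back (hX : ∀ x : X, x * x = 1) {S S' : Set X} (hS : Special S)
    (P : Subgroup (X × X)) (hP : Good S S' P) (v : X) :
    ∃ P' : Subgroup (X × X), P ≤ P' ∧ Good S S' P' ∧ ∃ p ∈ P', p.2 = v := by
  obtain ⟨P', h1, h2, p, hp, h3⟩ := forth hX hS (sw P) (good_sw P hP) v
  refine ⟨sw P', ?_, good_sw P' h2, p.swap, ?_, h3⟩
  · intro x hx
    rw [mem_sw]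
    apply h1
    rw [mem_sw]; simpa using hx
  · rw [mem_sw]; simpa using hp

theorem both (hX : ∀ x : X, x * x = 1) {S S' : Set X} (hS : Special S) (hS' : Special S')
    (P : Subgroup (X × X)) (hP : Good S S' P) (v : X) :
    ∃ P' : Subgroup (X × X), P ≤ P' ∧ Good S S' P' ∧ (∃ p ∈ P', p.1 = v) ∧ ∃ p ∈ P', p.2 = v := by
  obtain ⟨P1, h1, h2, p, hp, h3⟩ := forth hX hS' P hP v
  obtain ⟨P2, k1, k2, q, hq, k3⟩ := back hX hS P1 h2 v
  exact ⟨P2, h1.trans k1, k2, ⟨p, k1 hp, h3⟩, q, hq, k3⟩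

theorem good_bot {S S' : Set X} (hS : Special S) (hS' : Special S') :
    Good S S' (⊥ : Subgroup (X × X)) := by
  refine ⟨by simp, ?_⟩
  intro p hp
  rw [Subgroup.mem_bot] at hp
  subst hp
  exact ⟨by simp, ⟨fun h => absurd h hS.2.1, fun h => absurd h hS'.2.1⟩⟩

theorem conj [Countable X] (hX : ∀ x : X, x * x = 1) {S S' : Set X}
    (hS : Special S) (hS' : Special S') :
    ∃ σ : MulAut X, (fun x => σ x) '' S = S' := by
  obtain ⟨f, hf⟩ := exists_surjective_nat X
  choose g hg1 hg2 hg3 hg4 using fun (P : {P : Subgroup (X × X) // Good S S' P}) (v : X) =>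
    both hX hS hS' P.1 P.2 v
  let Q : ℕ → {P : Subgroup (X × X) // Good S S' P} := fun n =>
    Nat.rec ⟨⊥, good_bot hS hS'⟩ (fun k P => ⟨g P (f k), hg2 P (f k)⟩) n
  have hQs : ∀ n, (Q (n+1)).1 = g (Q n) (f n) := fun n => rfl
  have hmono : Monotone (fun n => (Q n).1) := by
    apply monotone_nat_of_le_succ
    intro n
    change (Q n).1 ≤ (Q (n+1)).1
    rw [hQs]
    exact hg1 _ _
  have hdom : ∀ a : X, ∃ n, ∃ p ∈ (Q n).1, p.1 = a := by
    intro a
    obtain ⟨n, rfl⟩ := hf a
    exact ⟨n+1, by rw [hQs]; exact hg3 _ _⟩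
  have hran : ∀ a : X, ∃ n, ∃ p ∈ (Q n).1, p.2 = a := by
    intro a
    obtain ⟨n, rfl⟩ := hf a
    exact ⟨n+1, by rw [hQs]; exact hg4 _ _⟩
  have hdom' : ∀ a : X, ∃ b : X, ∃ n, (a, b) ∈ (Q n).1 := by
    intro a
    obtain ⟨n, p, hp, rfl⟩ := hdom a
    exact ⟨p.2, n, hp⟩
  have hfun : ∀ a b b' n m, (a, b) ∈ (Q n).1 → (a, b') ∈ (Q m).1 → b = b' := by
    intro a b b' n m h h'
    have k1 := hmono (le_max_left n m) h
    have k2 := hmono (le_max_right n m) h'
    have k3 := (Q (max n m)).1.mul_mem k1 ((Q (max n m)).1.inv_mem k2)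
    have k4 := ((Q (max n m)).2.2 _ k3).1
    have k5 : b * b'⁻¹ = 1 := k4.1 (by simp)
    exact mul_inv_eq_one.1 k5
  have hinj : ∀ a a' b n m, (a, b) ∈ (Q n).1 → (a', b) ∈ (Q m).1 → a = a' := by
    intro a a' b n m h h'
    have k1 := hmono (le_max_left n m) h
    have k2 := hmono (le_max_right n m) h'
    have k3 := (Q (max n m)).1.mul_mem k1 ((Q (max n m)).1.inv_mem k2)
    have k4 := ((Q (max n m)).2.2 _ k3).1
    have k5 : a * a'⁻¹ = 1 := k4.2 (by simp)
    exact mul_inv_eq_one.1 k5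
  choose F N hF using hdom'
  have hmul : ∀ a b, F (a * b) = F a * F b := by
    intro a b
    have k1 := hmono (le_max_left (N a) (N b)) (hF a)
    have k2 := hmono (le_max_right (N a) (N b)) (hF b)
    have k3 := (Q (max (N a) (N b))).1.mul_mem k1 k2
    exact hfun _ _ _ _ _ (hF (a * b)) k3
  let φ : X →* X := MonoidHom.mk' F hmul
  have hφ : Function.Bijective φ := by
    constructor
    · intro a b hab
      have hab' : F a = F b := hab
      have k1 := hF a
      rw [hab'] at k1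
      exact hinj _ _ _ _ _ k1 (hF b)
    · intro b
      obtain ⟨n, p, hp, rfl⟩ := hran b
      refine ⟨p.1, ?_⟩
      exact hfun _ _ _ _ _ (hF p.1) hp
  have hmem : ∀ a, a ∈ S ↔ F a ∈ S' := fun a => ((Q (N a)).2.2 _ (hF a)).2
  refine ⟨MulEquiv.ofBijective φ hφ, ?_⟩
  ext y
  constructor
  · rintro ⟨a, ha, rfl⟩
    exact (hmem a).1 ha
  · intro hy
    obtain ⟨a, rfl⟩ := hφ.2 y
    exact ⟨a, (hmem a).2 hy, rfl⟩

end BackForth

abbrev X0 : Type := Multiplicative (ℕ →₀ ZMod 2)

instance instCountableX0 : Countable X0 := inferInstanceAs (Countable (ℕ →₀ ZMod 2))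

theorem sq (x : X0) : x * x = 1 := by
  change Multiplicative.ofAdd (Multiplicative.toAdd x + Multiplicative.toAdd x) = Multiplicative.ofAdd 0
  congr 1
  ext i
  simp [CharTwo.add_self_eq_zero]

theorem card_aut : Cardinal.mk (MulAut X0) = Cardinal.continuum := by
  apply le_antisymm
  · have h1 : Cardinal.mk (MulAut X0) ≤ Cardinal.mk (X0 → X0) :=
      Cardinal.mk_le_of_injective (f := fun σ : MulAut X0 => (fun x => σ x)) (fun a b h => MulEquiv.ext (congrFun h))
    refine h1.trans ?_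
    rw [← Cardinal.power_def]
    have h2 : Cardinal.mk X0 ≤ Cardinal.aleph0 := Cardinal.mk_le_aleph0
    calc Cardinal.mk X0 ^ Cardinal.mk X0 ≤ Cardinal.aleph0 ^ Cardinal.mk X0 :=
          Cardinal.power_le_power_right h2
      _ ≤ Cardinal.aleph0 ^ Cardinal.aleph0 :=
          Cardinal.power_le_power_left Cardinal.aleph0_ne_zero h2
      _ = Cardinal.continuum := by simp
  · have h1 : Cardinal.mk (Equiv.Perm ℕ) = Cardinal.continuum := by
      rw [Cardinal.mk_perm_eq_two_power]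
      simp
    rw [← h1]
    refine Cardinal.mk_le_of_injective (f := fun σ : Equiv.Perm ℕ =>
      (AddEquiv.toMultiplicative (Finsupp.domCongr σ : (ℕ →₀ ZMod 2) ≃+ (ℕ →₀ ZMod 2)) : MulAut X0)) ?_
    intro a b h
    ext i
    have h2 := congrArg (fun σ : MulAut X0 => Multiplicative.toAdd
      (σ (Multiplicative.ofAdd (Finsupp.single i (1 : ZMod 2))))) h
    have h3 : Finsupp.single (a i) (1 : ZMod 2) = Finsupp.single (b i) (1 : ZMod 2) := by
      simpa using h2
    exact (Finsupp.single_left_inj (one_ne_zero)).1 h3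

/-- The negation of the preceding statement: Every countable group with property (†) whose automorphism group has continuum size has continuum many special subsets (inverse-closed, without 1, Cayley graph isomorphic to the Rado graph) lying in pairwise distinct Aut(X)-orbits. -/
theorem result :
    ¬ (∀ (X : Type) [Group X] [Countable X],
      (∀ (F : Finset (X × X)), (∀ p ∈ F, p.1 ≠ p.2) → ∀ (E : Finset X),
        ∃ z : X, z ∉ E ∧ ∀ p ∈ F, p.1 * z⁻¹ ≠ z * p.2⁻¹) →
      Cardinal.mk (MulAut X) = Cardinal.continuum →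
      ∃ f : ℝ → Set X,
        (∀ r : ℝ, (∀ s ∈ f r, s⁻¹ ∈ f r) ∧ (1 : X) ∉ f r ∧
          ∀ U V : Finset X, Disjoint U V →
            ∃ z : X, z ∉ U ∧ z ∉ V ∧ (∀ u ∈ U, z * u⁻¹ ∈ f r) ∧ (∀ v ∈ V, z * v⁻¹ ∉ f r)) ∧
        ∀ r s : ℝ, r ≠ s → ∀ σ : MulAut X, (fun x => σ x) '' f r ≠ f s) := by
  intro H
  have hinv : ∀ x : X0, x⁻¹ = x := fun x => inv_eq_of_mul_eq_one_left (sq x)
  have hinf : Infinite X0 := inferInstanceAs (Infinite (ℕ →₀ ZMod 2))
  obtain ⟨f, hf1, hf2⟩ := H X0 (by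
    intro F hF E
    obtain ⟨z, hz⟩ := Infinite.exists_notMem_finset E
    refine ⟨z, hz, ?_⟩
    intro p hp h
    apply hF p hp
    rw [hinv z, hinv p.2, mul_comm z p.2] at h
    exact mul_right_cancel h) card_aut
  obtain ⟨σ, hσ⟩ := conj sq (hf1 0) (hf1 1)
  exact hf2 0 1 (by norm_num) σ hσ

end Pool.Agent.S00226
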