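import Pool.Statements.S00249
-- import your own Pool.Agent.* helpers here

set_option autoImplicit false
open Pool Pool.MP_042d8e_al

namespace Pool.Agent.S00249

abbrev V := List Bool

/-- label of `g` at the vertex `v` -/
def por (g : Equiv.Perm V) (v : V) : Bool := (g (false :: v)).headD false

structure IsFin (g : Equiv.Perm V) : Prop where
  nil : g [] = []
  cons : ∀ b v, g (b :: v) = (xor b (por g v)) :: g v
  fin : {v | por g v = true}.Finite

theorem por_of {g : Equiv.Perm V} {a : Bool} {v w : V} (h : g (false :: v) = a :: w) : por g v = a := by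
  simp [por, h]

theorem mul_cons {g h : Equiv.Perm V} (hg : IsFin g) (hh : IsFin h) (b : Bool) (v : V) :
    (g * h) (b :: v) = (xor (xor b (por h v)) (por g (h v))) :: (g * h) v := by
  simp [Equiv.Perm.mul_apply, hh.cons, hg.cons]

theorem por_mul {g h : Equiv.Perm V} (hg : IsFin g) (hh : IsFin h) (v : V) :
    por (g * h) v = xor (por h v) (por g (h v)) := by
  rw [por_of (mul_cons hg hh false v)]
  simp

theorem inv_cons {g : Equiv.Perm V} (hg : IsFin g) (b : Bool) (v : V) :
    g⁻¹ (b :: v) = (xor b (por g (g⁻¹ v))) :: g⁻¹ v := by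
  rw [Equiv.Perm.inv_eq_iff_eq, hg.cons]
  simp

theorem por_inv {g : Equiv.Perm V} (hg : IsFin g) (v : V) :
    por g⁻¹ v = por g (g⁻¹ v) := by
  rw [por_of (inv_cons hg false v)]
  simp

def G : Subgroup (Equiv.Perm V) where
  carrier := {g | IsFin g}
  mul_mem' := by
    intro g h hg hh
    refine ⟨?_, ?_, ?_⟩
    · rw [Equiv.Perm.mul_apply, hh.nil, hg.nil]
    · intro b v
      rw [mul_cons hg hh, por_mul hg hh, Bool.xor_assoc]
    · apply (hh.fin.union (hg.fin.preimage (h.injective.injOn))).subset
      intro v hv
      simp only [Set.mem_setOf_eq] at hv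
      rw [por_mul hg hh] at hv
      simp only [Set.mem_union, Set.mem_setOf_eq, Set.mem_preimage]
      by_contra hn
      push Not at hn
      rw [Bool.eq_false_of_not_eq_true hn.1, Bool.eq_false_of_not_eq_true hn.2] at hv
      simp at hv
  one_mem' := by
    have hp : ∀ v, por 1 v = false := fun v => rfl
    refine ⟨rfl, ?_, ?_⟩
    · intro b v
      rw [hp]
      simp
    · simp [hp]
  inv_mem' := by
    intro g hg
    refine ⟨?_, ?_, ?_⟩
    · rw [Equiv.Perm.inv_eq_iff_eq, hg.nil]
    · intro b v
      rw [inv_cons hg, por_inv hg]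
    · have : {v | por g⁻¹ v = true} = (g⁻¹ : Equiv.Perm V) ⁻¹' {v | por g v = true} := by
        ext v
        simp only [Set.mem_setOf_eq, Set.mem_preimage, por_inv hg]
      rw [this]
      exact hg.fin.preimage ((g⁻¹).injective.injOn)

theorem len {g : Equiv.Perm V} (hg : IsFin g) (v : V) : (g v).length = v.length := by
  induction v with
  | nil => rw [hg.nil]
  | cons b v ih => rw [hg.cons, List.length_cons, ih, List.length_cons]

/-- rigid switch at `u` -/
def del (u : V) : V → V
  | [] => []
  | b :: v => (xor b (decide (v = u))) :: del u v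

theorem del_len (u v : V) : (del u v).length = v.length := by
  induction v with
  | nil => rfl
  | cons b v ih => simp [del, ih]

theorem del_fix (u v : V) (h : v.length ≤ u.length) : del u v = v := by
  induction v with
  | nil => rfl
  | cons b v ih =>
    have h1 : v.length < u.length := by simpa using h
    have h2 : v ≠ u := fun e => by rw [e] at h1; exact lt_irrefl _ h1
    simp [del, h2, ih h1.le]

theorem del_eq_iff (u v : V) : del u v = u ↔ v = u := by
  constructor
  · intro h
    have : v.length = u.length := by rw [← del_len u v, h]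
    rw [← del_fix u v this.le]
    exact h
  · rintro rfl
    exact del_fix _ _ le_rfl

theorem del_invol (u : V) : Function.Involutive (del u) := by
  intro v
  induction v with
  | nil => rfl
  | cons b v ih =>
    simp only [del, ih]
    rw [show (decide (del u v = u)) = decide (v = u) from by simp only [del_eq_iff]]
    simp [Bool.xor_assoc]

def dl (u : V) : Equiv.Perm V := (del_invol u).toPerm

theorem dl_apply (u v : V) : dl u v = del u v := rfl

theorem por_dl (u v : V) : por (dl u) v = decide (v = u) := by
  simp [por, dl_apply, del]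

theorem dl_fin (u : V) : IsFin (dl u) := by
  refine ⟨rfl, ?_, ?_⟩
  · intro b v
    rw [por_dl, dl_apply]
    rfl
  · simp [por_dl]

def dg (u : V) : G := ⟨dl u, dl_fin u⟩

theorem smul_def (g : G) (v : V) : g • v = (g : Equiv.Perm V) v := rfl

theorem fin (g : G) : IsFin (g : Equiv.Perm V) := g.2

theorem del_of_notmem (u w : V) (h : ∀ k : ℕ, List.tail^[k] w ≠ u) : del u w = w := by
  induction w with
  | nil => rfl
  | cons b w ih =>
    have h1 : w ≠ u := h 1
    have h2 : ∀ k : ℕ, List.tail^[k] w ≠ u := fun k => h (k + 1)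
    simp [del, h1, ih h2]

/-- level stabiliser -/
def st (n : ℕ) : Subgroup G where
  carrier := {g | ∀ v : V, v.length ≤ n → (g : Equiv.Perm V) v = v}
  mul_mem' := by
    intro a b ha hb v hv
    rw [Subgroup.coe_mul, Equiv.Perm.mul_apply, hb v hv, ha v hv]
  one_mem' := fun v _ => rfl
  inv_mem' := by
    intro a ha v hv
    rw [Subgroup.coe_inv, Equiv.Perm.inv_eq_iff_eq, ha v hv]

theorem st_normal (n : ℕ) : (st n).Normal := by
  constructor
  intro s hs g v hv
  rw [Subgroup.coe_mul, Equiv.Perm.mul_apply, Subgroup.coe_mul, Equiv.Perm.mul_apply,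
    hs _ (by rw [len (fin g⁻¹)]; exact hv), Subgroup.coe_inv]
  simp

theorem st_fi (n : ℕ) : (st n).FiniteIndex := by
  have hfin : Finite {v : V // v.length ≤ n} := by
    have := List.finite_length_le Bool n
    exact this.to_subtype
  have h1 : ∀ v : V, (MulAction.stabilizer G v).FiniteIndex := by
    intro v
    constructor
    rw [MulAction.index_stabilizer]
    have hsub : MulAction.orbit G v ⊆ {w : V | w.length ≤ v.length} := by
      rintro w ⟨g, rfl⟩
      exact (len (fin g) v).le
    have hf : (MulAction.orbit G v).Finite := (List.finite_length_le Bool v.length).subset hsub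
    exact ((Set.ncard_pos hf).2 (MulAction.nonempty_orbit v)).ne'
  have h2 : st n = ⨅ v : {v : V // v.length ≤ n}, MulAction.stabilizer G v.1 := by
    ext g
    rw [Subgroup.mem_iInf]
    constructor
    · intro h v
      exact h v.1 v.2
    · intro h v hv
      exact h ⟨v, hv⟩
  rw [h2]
  exact Subgroup.finiteIndex_iInf (fun v => h1 v.1)

theorem eq_of_por {g : Equiv.Perm V} (hg : IsFin g) (h : ∀ v, por g v = false) : g = 1 := by
  ext1 v
  induction v with
  | nil => exact hg.nil
  | cons b v ih => rw [hg.cons, h, ih]; simp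

def R (n : ℕ) : Set G := {g : G | ∃ v : V, v.length = n ∧
          ∀ w : V, (∀ k : ℕ, List.tail^[k] w ≠ v) → g • w = w}

theorem dg_mem (n : ℕ) (u : V) (hu : n ≤ u.length) : dg u ∈ R n := by
  have hlen : ∀ (k : ℕ) (w : V), (List.tail^[k] w).length = w.length - k := by
    intro k
    induction k with
    | zero => intro w; rfl
    | succ k ih =>
      intro w
      rw [Function.iterate_succ_apply, ih, List.length_tail]
      omega
  refine ⟨List.tail^[u.length - n] u, ?_, ?_⟩
  · rw [hlen]; omega
  · intro w hw
    show del u w = w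
    apply del_of_notmem
    intro k hk
    apply hw (u.length - n + k)
    rw [Function.iterate_add_apply, hk]

theorem st_le (n : ℕ) : ∀ (N : ℕ) (g : G), {v | por (g : Equiv.Perm V) v = true}.ncard = N →
    g ∈ st n → g ∈ Subgroup.closure (R n) := by
  intro N
  induction N with
  | zero =>
    intro g hN _
    rw [Set.ncard_eq_zero (fin g).fin] at hN
    have : (g : Equiv.Perm V) = 1 := eq_of_por (fin g) (fun v => by
      have : v ∉ {v | por (g : Equiv.Perm V) v = true} := by rw [hN]; exact Set.notMem_empty v
      simpa using this)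
    have : g = 1 := Subtype.ext this
    rw [this]
    exact one_mem _
  | succ N ih =>
    intro g hN hg
    obtain ⟨u, hu, hmax⟩ : ∃ u ∈ {v | por (g : Equiv.Perm V) v = true},
        ∀ v ∈ {v | por (g : Equiv.Perm V) v = true}, v.length ≤ u.length := by
      have hne : {v | por (g : Equiv.Perm V) v = true}.Nonempty := by
        rw [← Set.ncard_pos (fin g).fin, hN]; omega
      exact Set.exists_max_image _ List.length (fin g).fin hne
    have hun : n ≤ u.length := by
      by_contra hlt
      push Not at hlt
      have h1 := hg (false :: u) (by simpa using hlt)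
      rw [(fin g).cons] at h1
      simp only [List.cons.injEq] at h1
      have : por (g : Equiv.Perm V) u = true := hu
      rw [this] at h1
      simp at h1
    have hd : dg u ∈ st n := fun v hv => del_fix u v (le_trans hv hun)
    have hpor : ∀ v, por ((g * dg u : G) : Equiv.Perm V) v
        = xor (decide (v = u)) (por (g : Equiv.Perm V) v) := by
      intro v
      rw [Subgroup.coe_mul, por_mul (fin g) (fin (dg u))]
      show xor (por (dl u) v) (por _ (del u v)) = _
      rw [por_dl]
      by_cases hv : v.length ≤ u.length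
      · rw [del_fix u v hv]
      · have h1 : por (g : Equiv.Perm V) v = false := by
          by_contra hne
          exact hv (hmax v (Bool.eq_true_of_not_eq_false hne))
        have h2 : por (g : Equiv.Perm V) (del u v) = false := by
          by_contra hne
          have := hmax _ (Bool.eq_true_of_not_eq_false hne)
          rw [del_len] at this
          exact hv this
        rw [h1, h2]
    have hset : {v | por ((g * dg u : G) : Equiv.Perm V) v = true}
        = {v | por (g : Equiv.Perm V) v = true} \ {u} := by
      ext v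
      simp only [Set.mem_setOf_eq, hpor, Set.mem_diff, Set.mem_singleton_iff]
      by_cases hv : v = u
      · subst hv
        have : por (g : Equiv.Perm V) v = true := hu
        simp [this]
      · simp [hv]
    have hcard : {v | por ((g * dg u : G) : Equiv.Perm V) v = true}.ncard = N := by
      rw [hset, Set.ncard_diff_singleton_of_mem hu, hN]
      rfl
    have h1 := ih (g * dg u) hcard ((st n).mul_mem hg hd)
    have h2 : dg u ∈ Subgroup.closure (R n) := Subgroup.subset_closure (dg_mem n u hun)
    have h3 : g = (g * dg u) * (dg u)⁻¹ := by group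
    rw [h3]
    exact Subgroup.mul_mem _ h1 (Subgroup.inv_mem _ h2)

noncomputable def F (ε : ℕ → ZMod 2) (g : G) (v : V) : ZMod 2 :=
  if por (g : Equiv.Perm V) v = true then ε v.length else 0

theorem F_supp (ε : ℕ → ZMod 2) (g : G) : (Function.support (F ε g)).Finite := by
  apply (fin g).fin.subset
  intro v hv
  by_contra hn
  apply hv
  simp only [Set.mem_setOf_eq] at hn
  simp [F, hn]

theorem F_mul (ε : ℕ → ZMod 2) (g h : G) (v : V) :
    F ε (g * h) v = F ε h v + F ε g ((h : Equiv.Perm V) v) := by
  unfold F
  rw [Subgroup.coe_mul, por_mul (fin g) (fin h), len (fin h)]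
  have h2 : ∀ e : ZMod 2, e + e = 0 := by decide
  cases por (h : Equiv.Perm V) v <;> cases por (g : Equiv.Perm V) ((h : Equiv.Perm V) v) <;> simp [h2]

noncomputable def chi (ε : ℕ → ZMod 2) : G →* Multiplicative (ZMod 2) :=
  MonoidHom.mk' (fun g => Multiplicative.ofAdd (∑ᶠ v, F ε g v)) (by
    intro g h
    rw [← ofAdd_add]
    congr 1
    rw [finsum_congr (F_mul ε g h), finsum_add_distrib (F_supp ε h)]
    · rw [add_comm, finsum_comp_equiv (h : Equiv.Perm V) (f := F ε g)]
    · exact (F_supp ε g).preimage ((h : Equiv.Perm V).injective.injOn))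

theorem chi_dg (ε : ℕ → ZMod 2) (u : V) : chi ε (dg u) = Multiplicative.ofAdd (ε u.length) := by
  show Multiplicative.ofAdd (∑ᶠ v, F ε (dg u) v) = _
  congr 1
  rw [finsum_eq_single _ u]
  · simp [F, dg, por_dl]
  · intro v hv
    simp [F, dg, por_dl, hv]

theorem trans_lev : ∀ v w : V, List.length v = List.length w → ∃ g : G, g • v = w := by
  intro v
  induction v with
  | nil =>
    intro w hw
    have : w = [] := List.length_eq_zero_iff.1 hw.symm
    exact ⟨1, by rw [this]; rfl⟩
  | cons b v ih =>
    intro w hw
    cases w with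
    | nil => simp at hw
    | cons c w =>
      obtain ⟨g, hg⟩ := ih w (by simpa using hw)
      have h1 : g • (b :: v) = (xor b (por (g : Equiv.Perm V) v)) :: w := by
        rw [smul_def, (fin g).cons]
        rw [smul_def] at hg
        rw [hg]
      by_cases hc : xor b (por (g : Equiv.Perm V) v) = c
      · exact ⟨g, by rw [h1, hc]⟩
      · refine ⟨dg w * g, ?_⟩
        rw [mul_smul, h1]
        show del w _ = _
        simp only [del, decide_true, del_fix w w le_rfl]
        congr 1
        revert hc
        generalize xor b (por (g : Equiv.Perm V) v) = x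
        cases x <;> cases c <;> simp

def eps (a : ℕ) (k : ℕ) : ZMod 2 := if padicValNat 2 (k + 1) = a then 1 else 0

noncomputable def M (a i : ℕ) : Subgroup G := st i ⊓ (chi (eps a)).ker

/-- There is a branch group (faithful, level-transitive on a locally finite rooted tree, finite-index rigid level stabilizers) with infinitely many pairwise inequivalent descending sequences of finite-index normal subgroups with trivial intersection. -/
theorem result :
    ∃ (G : Type) (_ : Group G) (V : Type) (_ : MulAction G V) (lev : V → ℕ) (par : V → V),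
      (∀ v w : V, lev v = 0 → lev w = 0 → v = w) ∧
      (∃ v : V, lev v = 0) ∧
      (∀ w : V, lev w = 0 → par w = w) ∧
      (∀ w : V, lev w ≠ 0 → lev (par w) + 1 = lev w) ∧
      (∀ n : ℕ, {v : V | lev v = n}.Finite) ∧
      (∀ v : V, ∃ w₁ w₂ : V, w₁ ≠ w₂ ∧ par w₁ = v ∧ par w₂ = v ∧
          lev w₁ = lev v + 1 ∧ lev w₂ = lev v + 1) ∧
      (∀ (g : G) (w : V), lev (g • w) = lev w ∧ par (g • w) = g • par w) ∧
      (∀ g : G, (∀ v : V, g • v = v) → g = 1) ∧
      (∀ v w : V, lev v = lev w → ∃ g : G, g • v = w) ∧
      (∀ n : ℕ, (Subgroup.closure {g : G | ∃ v : V, lev v = n ∧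
          ∀ w : V, (∀ k : ℕ, par^[k] w ≠ v) → g • w = w}).FiniteIndex) ∧
      ∃ M : ℕ → ℕ → Subgroup G,
        (∀ a : ℕ, Antitone (M a) ∧ (∀ i : ℕ, (M a i).Normal ∧ (M a i).FiniteIndex) ∧
            (⨅ i : ℕ, M a i) = ⊥) ∧
        (∀ a b : ℕ, a ≠ b →
            ¬ ((∀ i : ℕ, ∃ j : ℕ, M b j ≤ M a i) ∧ (∀ i : ℕ, ∃ j : ℕ, M a j ≤ M b i))) := by
  refine ⟨G, inferInstance, V, inferInstance, List.length, List.tail, ?_, ⟨[], rfl⟩, ?_, ?_, ?_, ?_,
    ?_, ?_, ?_, ?_, M, ?_, ?_⟩
  · intro v w hv hw
    rw [List.length_eq_zero_iff.1 hv, List.length_eq_zero_iff.1 hw]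
  · intro w hw
    rw [List.length_eq_zero_iff.1 hw]
    rfl
  · intro w hw
    rw [List.length_tail]
    omega
  · intro n
    exact List.finite_length_eq Bool n
  · intro v
    exact ⟨false :: v, true :: v, by simp, rfl, rfl, rfl, rfl⟩
  · intro g w
    refine ⟨len (fin g) w, ?_⟩
    rw [smul_def, smul_def]
    cases w with
    | nil => rw [(fin g).nil]; exact (fin g).nil.symm
    | cons b w => rw [(fin g).cons]; rfl
  · intro g hg
    exact Subtype.ext (Equiv.ext hg)
  · exact trans_lev
  · intro n
    have h := st_fi n
    exact Subgroup.finiteIndex_of_le (H := st n) (fun g hg => st_le n _ g rfl hg)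
  · intro a
    refine ⟨?_, ?_, ?_⟩
    · intro i j hij g hg
      exact ⟨fun v hv => hg.1 v (le_trans hv hij), hg.2⟩
    · intro i
      have h1 := st_normal i
      have h2 := st_fi i
      refine ⟨?_, ?_⟩
      · unfold M
        infer_instance
      · unfold M
        infer_instance
    · rw [eq_bot_iff]
      intro g hg
      rw [Subgroup.mem_iInf] at hg
      rw [Subgroup.mem_bot]
      exact Subtype.ext (Equiv.ext fun v => (hg v.length).1 v le_rfl)
  · rintro a b hab ⟨h, -⟩
    obtain ⟨j, hj⟩ := h 0
    have hv : ∀ c, eps c (2 ^ a * (2 * j + 1) - 1) = if a = c then 1 else 0 := by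
      intro c
      have e1 : 2 ^ a * (2 * j + 1) - 1 + 1 = 2 ^ a * (2 * j + 1) :=
        Nat.sub_add_cancel (Nat.mul_pos (by positivity) (by omega))
      have e2 : padicValNat 2 (2 ^ a * (2 * j + 1)) = a := by
        rw [padicValNat.mul (by positivity) (by omega), padicValNat.prime_pow,
          padicValNat.eq_zero_of_not_dvd (by omega), add_zero]
      rw [eps, e1, e2]
    have hk : j ≤ 2 ^ a * (2 * j + 1) - 1 := by
      have : 1 * (2 * j + 1) ≤ 2 ^ a * (2 * j + 1) := Nat.mul_le_mul_right _ (Nat.one_le_two_pow)
      omega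
    set k := 2 ^ a * (2 * j + 1) - 1 with hkdef
    let u : V := List.replicate k false
    have hu : u.length = k := List.length_replicate
    have hmem : dg u ∈ M b j := by
      refine ⟨fun v hv => del_fix u v (by rw [hu]; exact le_trans hv hk), ?_⟩
      show chi (eps b) (dg u) = 1
      rw [chi_dg, hu, hv b, if_neg hab]
      rfl
    have h2 : chi (eps a) (dg u) = 1 := (hj hmem).2
    rw [chi_dg, hu, hv a, if_pos rfl] at h2
    revert h2
    decide

end Pool.Agent.S00249
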