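import Pool.Statements.S00308

set_option autoImplicit false
open Pool Pool.MP_0b625c_al

namespace Pool.Agent.S00308

open Filter Topology
open scoped Classical in
noncomputable def w (q : Circle) : ℝ := if q = 1 then 1 else dist q 1

theorem w_pos (q : Circle) : 0 < w q := by
  unfold w
  split_ifs with h
  · exact one_pos
  · exact dist_pos.2 h

theorem cdist (a b : Circle) : dist a b = ‖(a : ℂ) - b‖ := by
  change dist (a : ℂ) (b : ℂ) = _
  exact dist_eq_norm _ _

theorem dist_le_two (a b : Circle) : dist a b ≤ 2 := by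
  rw [cdist]
  calc ‖(a : ℂ) - b‖ ≤ ‖(a : ℂ)‖ + ‖(b : ℂ)‖ := norm_sub_le _ _
    _ = 2 := by rw [Circle.norm_coe, Circle.norm_coe]; norm_num

theorem w_le (q : Circle) : w q ≤ 2 := by
  unfold w
  split_ifs with h
  · norm_num
  · exact dist_le_two _ _

/-- type synonym carrying the weighted sup metric -/
def E1 : Type := Circle → Circle

noncomputable instance : Group E1 := inferInstanceAs (Group (Circle → Circle))

/-- evaluation -/
def ev (x : E1) (q : Circle) : Circle := x q

theorem ev_mul (x y : E1) (q : Circle) : ev (x * y) q = ev x q * ev y q := rfl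
theorem ev_inv (x : E1) (q : Circle) : ev (x⁻¹) q = (ev x q)⁻¹ := rfl

theorem wd_bdd (x y : E1) : BddAbove (Set.range fun q => w q * dist (ev x q) (ev y q)) := by
  refine ⟨4, ?_⟩
  rintro _ ⟨q, rfl⟩
  have h1 := w_le q
  have h2 := dist_le_two (ev x q) (ev y q)
  have h3 := (w_pos q).le
  have h4 : 0 ≤ dist (ev x q) (ev y q) := dist_nonneg
  change w q * dist (ev x q) (ev y q) ≤ 4
  nlinarith

noncomputable def wd (x y : E1) : ℝ := ⨆ q, w q * dist (ev x q) (ev y q)

theorem le_wd (x y : E1) (q : Circle) : w q * dist (ev x q) (ev y q) ≤ wd x y :=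
  le_ciSup (wd_bdd x y) q

theorem wd_le (x y : E1) (c : ℝ) (h : ∀ q, w q * dist (ev x q) (ev y q) ≤ c) :
    wd x y ≤ c := ciSup_le h

noncomputable instance : MetricSpace E1 where
  dist x y := wd x y
  dist_self x := by
    apply le_antisymm
    · apply wd_le; intro q; simp
    · refine le_trans ?_ (le_wd x x 1); simp
  dist_comm x y := by
    unfold wd
    congr 1
    funext q
    rw [dist_comm]
  dist_triangle x y z := by
    apply wd_le
    intro q
    have h1 := le_wd x y q
    have h2 := le_wd y z q
    have h3 := dist_triangle (ev x q) (ev y q) (ev z q)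
    have h4 := (w_pos q).le
    nlinarith
  eq_of_dist_eq_zero := by
    intro x y h
    funext q
    have h1 : w q * dist (ev x q) (ev y q) ≤ 0 := (le_wd x y q).trans_eq h
    have h2 := w_pos q
    have h4 : 0 ≤ dist (ev x q) (ev y q) := dist_nonneg
    apply dist_le_zero.1
    by_contra h5
    push Not at h5
    have h6 : 0 < dist (ev x q) (ev y q) := h5
    have := mul_pos h2 h6
    linarith

theorem dist_def (x y : E1) : dist x y = wd x y := rfl

theorem circle_complete (v : ℕ → Circle)
    (h : ∀ ε > (0:ℝ), ∃ N, ∀ m ≥ N, ∀ n ≥ N, dist (v m) (v n) < ε) :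
    ∃ a : Circle, ∀ ε > (0:ℝ), ∃ N, ∀ n ≥ N, dist (v n) a < ε := by
  have hc : CauchySeq (fun n => (v n : ℂ)) := by
    rw [Metric.cauchySeq_iff]
    intro ε hε
    obtain ⟨N, hN⟩ := h ε hε
    refine ⟨N, fun m hm n hn => ?_⟩
    have := hN m hm n hn
    rwa [cdist, ← dist_eq_norm] at this
  obtain ⟨z, hz⟩ := cauchySeq_tendsto_of_complete hc
  have hn : ‖z‖ = 1 := by
    have h1 := hz.norm
    have h2 : (fun n => ‖(v n : ℂ)‖) = fun _ => (1 : ℝ) := by
      funext n; exact Circle.norm_coe _
    rw [h2] at h1
    exact tendsto_nhds_unique h1 tendsto_const_nhds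
  have hz2 : ∃ a : Circle, (a : ℂ) = z := ⟨⟨z, mem_sphere_zero_iff_norm.2 hn⟩, rfl⟩
  obtain ⟨a, rfl⟩ := hz2
  refine ⟨a, ?_⟩
  intro ε hε
  rw [Metric.tendsto_atTop] at hz
  obtain ⟨N, hN⟩ := hz ε hε
  refine ⟨N, fun n hn => ?_⟩
  rw [cdist, ← dist_eq_norm]
  exact hN n hn

instance : CompleteSpace E1 := by
  apply Metric.complete_of_cauchySeq_tendsto
  intro u hu
  rw [Metric.cauchySeq_iff] at hu
  have hpt : ∀ q : Circle, ∃ a : Circle, ∀ ε > (0:ℝ), ∃ N, ∀ n ≥ N, dist (ev (u n) q) a < ε := by
    intro q
    apply circle_complete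
    intro ε hε
    obtain ⟨N, hN⟩ := hu (w q * ε) (mul_pos (w_pos q) hε)
    refine ⟨N, fun m hm n hn => ?_⟩
    have h1 := hN m hm n hn
    have h2 := lt_of_le_of_lt (le_wd (u m) (u n) q) h1
    exact lt_of_mul_lt_mul_left h2 (w_pos q).le
  choose a ha using hpt
  let A : E1 := a
  have hA : ∀ q, ev A q = a q := fun _ => rfl
  refine ⟨A, ?_⟩
  rw [Metric.tendsto_atTop]
  intro ε hε
  obtain ⟨N, hN⟩ := hu (ε/2) (by linarith)
  refine ⟨N, fun n hn => ?_⟩
  have : wd (u n) A ≤ ε/2 := by
    apply wd_le
    intro q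
    apply le_of_forall_pos_le_add
    intro η hη
    obtain ⟨M, hM⟩ := ha q (η/2) (by linarith)
    have h1 := hM (max M N) (le_max_left _ _)
    have h2 := hN n hn (max M N) (le_max_right _ _)
    have h3 := lt_of_le_of_lt (le_wd (u n) (u (max M N)) q) h2
    have h4 := dist_triangle (ev (u n) q) (ev (u (max M N)) q) (a q)
    have h5 := w_pos q
    have h6 := w_le q
    rw [hA]
    have h7 : 0 ≤ dist (ev (u (max M N)) q) (a q) := dist_nonneg
    nlinarith
  rw [dist_def]
  linarith

theorem dist_mul_le (a b c d : Circle) : dist (a * b) (c * d) ≤ dist a c + dist b d := by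
  rw [cdist, cdist, cdist]
  have : ((a * b : Circle) : ℂ) - (c * d : Circle) = ((a : ℂ) - c) * b + c * ((b : ℂ) - d) := by
    push_cast
    ring
  rw [this]
  refine (norm_add_le _ _).trans ?_
  rw [norm_mul, norm_mul, Circle.norm_coe, Circle.norm_coe]
  simp

theorem dist_inv_eq (a b : Circle) : dist a⁻¹ b⁻¹ = dist a b := by
  rw [cdist, cdist]
  have h1 : (a : ℂ) ≠ 0 := Circle.coe_ne_zero a
  have h2 : (b : ℂ) ≠ 0 := Circle.coe_ne_zero b
  rw [Circle.coe_inv, Circle.coe_inv]
  have : (a : ℂ)⁻¹ - (b : ℂ)⁻¹ = ((b : ℂ) - a) * ((a : ℂ)⁻¹ * (b : ℂ)⁻¹) := by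
    field_simp
  rw [this, norm_mul, norm_mul, norm_inv, norm_inv, Circle.norm_coe, Circle.norm_coe]
  simp [norm_sub_rev]

instance : IsTopologicalGroup E1 where
  continuous_mul := by
    have : LipschitzWith 2 (fun p : E1 × E1 => p.1 * p.2) := by
      apply LipschitzWith.of_dist_le_mul
      intro p r
      have h1 : dist p.1 r.1 ≤ dist p r := by rw [Prod.dist_eq]; exact le_max_left _ _
      have h2 : dist p.2 r.2 ≤ dist p r := by rw [Prod.dist_eq]; exact le_max_right _ _
      have h3 : dist (p.1 * p.2) (r.1 * r.2) ≤ dist p.1 r.1 + dist p.2 r.2 := by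
        apply wd_le
        intro q
        have k1 := le_wd p.1 r.1 q
        have k2 := le_wd p.2 r.2 q
        have k3 := dist_mul_le (ev p.1 q) (ev p.2 q) (ev r.1 q) (ev r.2 q)
        have h4 := (w_pos q).le
        rw [dist_def, dist_def, ev_mul, ev_mul]
        calc w q * dist (ev p.1 q * ev p.2 q) (ev r.1 q * ev r.2 q)
            ≤ w q * (dist (ev p.1 q) (ev r.1 q) + dist (ev p.2 q) (ev r.2 q)) := by
              gcongr
          _ ≤ _ := by rw [mul_add]; exact add_le_add k1 k2
      calc dist (p.1 * p.2) (r.1 * r.2) ≤ dist p.1 r.1 + dist p.2 r.2 := h3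
        _ ≤ (2 : NNReal) * dist p r := by push_cast; linarith
    exact this.continuous
  continuous_inv := by
    have : LipschitzWith 1 (fun p : E1 => p⁻¹) := by
      apply LipschitzWith.of_dist_le_mul
      intro p r
      have : dist p⁻¹ r⁻¹ = dist p r := by
        rw [dist_def, dist_def]
        unfold wd
        congr 1
        funext q
        congr 1
        exact dist_inv_eq _ _
      rw [this]; simp
    exact this.continuous

theorem w_small (ε : ℝ) (hε : 0 < ε) : ∃ q : Circle, w q < ε := by
  set t : ℝ := min (ε/2) 1 with ht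
  have ht0 : 0 < t := lt_min (by linarith) one_pos
  have ht1 : t < ε := lt_of_le_of_lt (min_le_left _ _) (by linarith)
  have ht2 : t ≤ 1 := min_le_right _ _
  refine ⟨Circle.exp t, ?_⟩
  have hne : Circle.exp t ≠ 1 := by
    intro h
    have hpi := Real.pi_gt_three
    have h7 : Complex.arg (Circle.exp t) = t := Circle.arg_exp (by linarith) (by linarith)
    rw [h] at h7
    simp at h7
    linarith
  unfold w
  rw [if_neg hne, cdist, Circle.coe_exp, Circle.coe_one]
  have h1 : ‖Complex.exp (Complex.I * t) - 1‖ ≤ ‖t‖ := Real.norm_exp_I_mul_ofReal_sub_one_le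
  rw [mul_comm] at h1
  refine lt_of_le_of_lt h1 ?_
  rw [Real.norm_eq_abs, abs_of_pos ht0]
  exact ht1

open scoped Classical in
/-- The negation of the preceding statement: Take the group of all unit-circle-valued maps on the unit circle, with pointwise product and sup metric. Every continuous bijective homomorphism from it onto a complete metric topological group has a continuous inverse. -/
theorem aux :
    ¬ (∀ (E₁ : Type) [Group E₁] [MetricSpace E₁] [CompleteSpace E₁] [IsTopologicalGroup E₁]
      (U : (Circle → Circle) →* E₁),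
      Function.Bijective U →
      (∀ x : Circle → Circle, ∀ ε > (0 : ℝ), ∃ δ > (0 : ℝ), ∀ y : Circle → Circle,
          (∀ q : Circle, dist (x q) (y q) ≤ δ) → dist (U x) (U y) < ε) →
      (∀ x : Circle → Circle, ∀ ε > (0 : ℝ), ∃ δ > (0 : ℝ), ∀ y : Circle → Circle,
          dist (U x) (U y) < δ → ∀ q : Circle, dist (x q) (y q) ≤ ε)) := by
  intro H
  let U : (Circle → Circle) →* E1 := MonoidHom.id (Circle → Circle)
  have hU : ∀ x q, ev (U x) q = x q := fun _ _ => rfl
  obtain ⟨δ, hδ, h⟩ := H E1 U Function.bijective_id (by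
    intro x ε hε
    refine ⟨ε/4, by linarith, fun y hy => ?_⟩
    rw [dist_def]
    have : wd (U x) (U y) ≤ ε/2 := by
      apply wd_le
      intro q
      rw [hU, hU]
      have h1 := w_le q
      have h2 := hy q
      have h3 := (w_pos q).le
      have h4 : 0 ≤ dist (x q) (y q) := dist_nonneg
      nlinarith
    linarith) 1 1 one_pos
  obtain ⟨q, hq⟩ := w_small (δ/2) (by linarith)
  have h1 := h (Function.update 1 q (-1)) (by
    rw [dist_def]
    apply lt_of_le_of_lt (b := 2 * w q)
    · apply wd_le
      intro p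
      rw [hU, hU]
      by_cases hp : p = q
      · subst hp
        rw [Function.update_self]
        have := dist_le_two ((1 : Circle → Circle) p) (-1)
        have h3 := (w_pos p).le
        nlinarith
      · rw [Function.update_of_ne hp]
        have h3 := (w_pos q).le
        simp
        linarith
    · linarith) q
  rw [Function.update_self, cdist] at h1
  norm_num at h1

/-- The negation of the preceding statement: Take the group of all unit-circle-valued maps on the unit circle, with pointwise product and sup metric. Every continuous bijective homomorphism from it onto a complete metric topological group has a continuous inverse. -/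
theorem result :
    ¬ (∀ (E₁ : Type) [Group E₁] [MetricSpace E₁] [CompleteSpace E₁] [IsTopologicalGroup E₁]
      (U : (Circle → Circle) →* E₁),
      Function.Bijective U →
      (∀ x : Circle → Circle, ∀ ε > (0 : ℝ), ∃ δ > (0 : ℝ), ∀ y : Circle → Circle,
          (∀ q : Circle, dist (x q) (y q) ≤ δ) → dist (U x) (U y) < ε) →
      (∀ x : Circle → Circle, ∀ ε > (0 : ℝ), ∃ δ > (0 : ℝ), ∀ y : Circle → Circle,
          dist (U x) (U y) < δ → ∀ q : Circle, dist (x q) (y q) ≤ ε)) := aux

end Pool.Agent.S00308
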