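import Pool.Statements.S00364
import Pool.Agent.Helper1.QTorus
import Pool.Agent.Helper1.QData
import Pool.Agent.Helper1.QEndo
import Pool.Agent.Helper1.TwistExt

set_option autoImplicit false
open Pool Pool.MP_145108_al

namespace Pool.Agent.S00364

open Pool.Agent.Helper1.QTorus Pool.Agent.Helper1.QData Pool.Agent.Helper1.QEndo
open Pool.Agent.Helper1

/-- nonzero central elements -/
def S : Submonoid R where
  carrier := {z | z ≠ 0 ∧ ∀ r, z * r = r * z}
  one_mem' := ⟨one_ne_zero, fun r => by rw [one_mul, mul_one]⟩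
  mul_mem' := by
    rintro a b ⟨ha, ha'⟩ ⟨hb, hb'⟩
    exact ⟨mul_ne_zero ha hb, fun r => by rw [mul_assoc, hb', ← mul_assoc, ha', mul_assoc]⟩

noncomputable instance : OreLocalization.OreSet S where
  ore_right_cancel r₁ r₂ s h := ⟨s, by rw [s.2.2, s.2.2]; exact h⟩
  oreNum r _ := r
  oreDenom _ s := s
  ore_eq r s := s.2.2 r

/-- the localization -/
abbrev D0 : Type := OreLocalization S R

noncomputable def io : R →+* D0 := OreLocalization.numeratorRingHom

theorem io_inj : Function.Injective io := by
  apply OreLocalization.numeratorHom_inj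
  rintro s ⟨hs, _⟩ x hx
  rcases mul_eq_zero.1 hx with h | h
  · exact absurd h hs
  · exact h

theorem exists_frac (d : D0) : ∃ r : R, ∃ s : S, io s * d = io r := by
  induction d using OreLocalization.ind with
  | _ r s =>
    refine ⟨r, s, ?_⟩
    change ((s : R) /ₒ (1 : S)) * (r /ₒ s) = r /ₒ (1 : S)
    exact OreLocalization.mul_cancel

theorem io_unit (s : S) : ∃ w : D0, io s * w = 1 ∧ w * io s = 1 := by
  obtain ⟨w, hw⟩ := OreLocalization.numerator_isUnit (S := S) s
  refine ⟨(w⁻¹ : D0ˣ), ?_, ?_⟩
  · have : io s = (w : D0) := hw.symm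
    rw [this]; exact Units.mul_inv w
  · have : io s = (w : D0) := hw.symm
    rw [this]; exact Units.inv_mul w

theorem io_central_of (r : R) (hr : ∀ q, r * q = q * r) (d : D0) : io r * d = d * io r := by
  obtain ⟨q, s, hq⟩ := exists_frac d
  obtain ⟨w, hw1, hw2⟩ := io_unit s
  have h1 : io s * (io r * d) = io s * (d * io r) := by
    calc io s * (io r * d) = io (s * r) * d := by rw [← mul_assoc, map_mul]
      _ = io r * (io s * d) := by rw [s.2.2 r, map_mul, mul_assoc]
      _ = io (r * q) := by rw [hq, map_mul]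
      _ = io q * io r := by rw [hr, map_mul]
      _ = io s * (d * io r) := by rw [← hq, mul_assoc]
  calc io r * d = w * (io s * (io r * d)) := by rw [← mul_assoc, hw2, one_mul]
    _ = w * (io s * (d * io r)) := by rw [h1]
    _ = d * io r := by rw [← mul_assoc, hw2, one_mul]

instance : NoZeroDivisors D0 where
  eq_zero_or_eq_zero_of_mul_eq_zero := by
    intro a b hab
    obtain ⟨r1, s1, h1⟩ := exists_frac a
    obtain ⟨r2, s2, h2⟩ := exists_frac b
    obtain ⟨w1, _, hw1⟩ := io_unit s1
    obtain ⟨w2, _, hw2⟩ := io_unit s2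
    have h3 : io (r1 * r2) = 0 := by
      rw [map_mul, ← h1, ← h2, mul_assoc, ← mul_assoc a, ← io_central_of _ s2.2.2 a, mul_assoc,
        hab, mul_zero, mul_zero]
    have h4 : r1 * r2 = 0 := io_inj (by rw [h3, map_zero])
    rcases mul_eq_zero.1 h4 with h5 | h5
    · left
      rw [h5, map_zero] at h1
      calc a = w1 * (io s1 * a) := by rw [← mul_assoc, hw1, one_mul]
        _ = 0 := by rw [h1, mul_zero]
    · right
      rw [h5, map_zero] at h2
      calc b = w2 * (io s2 * b) := by rw [← mul_assoc, hw2, one_mul]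
        _ = 0 := by rw [h2, mul_zero]

theorem eq_of (d : D0) : ∃ r : R, ∃ s : S, ∃ w : D0, io s * w = 1 ∧ w * io s = 1 ∧ d = w * io r ∧
    io s * d = io r := by
  obtain ⟨r, s, h⟩ := exists_frac d
  obtain ⟨w, hw1, hw2⟩ := io_unit s
  exact ⟨r, s, w, hw1, hw2, by rw [← h, ← mul_assoc, hw2, one_mul], h⟩

/-- the inverse of a central unit is central -/
theorem w_central (s : S) (w : D0) (hw1 : io s * w = 1) (hw2 : w * io s = 1) (d : D0) :
    w * d = d * w := by
  calc w * d = w * d * (io s * w) := by rw [hw1, mul_one]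
    _ = w * (d * io s) * w := by simp only [mul_assoc]
    _ = w * (io s * d) * w := by rw [io_central_of _ s.2.2 d]
    _ = (w * io s) * d * w := by simp only [mul_assoc]
    _ = d * w := by rw [hw2, one_mul]

theorem two_ne : (2 : R) ≠ 0 := by
  intro h
  have h1 : (2 : R) * ri 0 = 0 := by rw [h, zero_mul]
  have h2 : (2 : R) * ri 0 = SkewMonoidAlgebra.single 1 (2 * MvPolynomial.X 0) := by
    rw [two_mul, two_mul]; unfold ri; rw [SkewMonoidAlgebra.single_add]
  rw [h2, SkewMonoidAlgebra.single_eq_zero] at h1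
  rcases mul_eq_zero.1 h1 with h3 | h3
  · exact two_ne_zero h3
  · exact MvPolynomial.X_ne_zero 0 h3

theorem qdata : QData D0 (fun n => io (ri n)) (fun n => io (rj n)) where
  uu n m := by rw [← map_mul, ri_ri, map_mul]
  vv n m := by rw [← map_mul, rj_rj, map_mul]
  vu_ne n m h := by rw [← map_mul, rj_ri_ne n m h, map_mul]
  vu n := by rw [← map_mul, rj_ri, map_neg, map_mul]
  u0 n := fun h => ri_ne n (io_inj (by rw [h, map_zero]))
  v0 n := fun h => rj_ne n (io_inj (by rw [h, map_zero]))
  ev d := by
    obtain ⟨r, s, w, hw1, hw2, hd, _⟩ := eq_of d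
    obtain ⟨M, hM⟩ := eventually_comm r
    refine ⟨M, fun m hm => ⟨?_, ?_⟩⟩
    · change d * io (ri m) = io (ri m) * d
      rw [hd, mul_assoc, ← map_mul, (hM m hm).1, map_mul, ← mul_assoc, w_central s w hw1 hw2,
        mul_assoc]
    · change d * io (rj m) = io (rj m) * d
      rw [hd, mul_assoc, ← map_mul, (hM m hm).2, map_mul, ← mul_assoc, w_central s w hw1 hw2,
        mul_assoc]
  cen z hu hv := by
    obtain ⟨r, s, w, hw1, hw2, hd, hz⟩ := eq_of z
    have hr : ∀ q, r * q = q * r := by
      apply central_of_comm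
      · intro n
        apply io_inj
        rw [map_mul, map_mul, ← hz, mul_assoc, hu n, ← mul_assoc, ← mul_assoc,
          io_central_of _ s.2.2 (io (ri n))]
      · intro n
        apply io_inj
        rw [map_mul, map_mul, ← hz, mul_assoc, hv n, ← mul_assoc, ← mul_assoc,
          io_central_of _ s.2.2 (io (rj n))]
    rw [Subring.mem_center_iff]
    intro g
    rw [hd, ← mul_assoc, ← w_central s w hw1 hw2 g, mul_assoc, mul_assoc, io_central_of r hr g]
  inv z hz hz0 := by
    obtain ⟨r, s, w, hw1, hw2, hd, hzr⟩ := eq_of z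
    have hr0 : r ≠ 0 := by
      intro h
      apply hz0
      rw [hd, h, map_zero, mul_zero]
    have hzc := Subring.mem_center_iff.1 hz
    have hr : ∀ q, r * q = q * r := by
      intro q
      apply io_inj
      rw [map_mul, map_mul, ← hzr, mul_assoc, ← hzc (io q), ← mul_assoc, ← mul_assoc,
        io_central_of _ s.2.2 (io q)]
    obtain ⟨w', hw1', _⟩ := io_unit ⟨r, hr0, hr⟩
    refine ⟨w' * io s, ?_⟩
    change io r * w' = 1 at hw1'
    calc z * (w' * io s) = w * (io r * w') * io s := by rw [hd]; simp only [mul_assoc]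
      _ = 1 := by rw [hw1', mul_one, hw2]
  two := by
    intro h
    apply two_ne
    apply io_inj
    rw [map_zero, map_ofNat]; exact h

instance : Nontrivial D0 := ⟨⟨2, 0, qdata.two⟩⟩

theorem isUnit_or (a : D0) : IsUnit a ∨ a = 0 := by
  by_cases ha : a = 0
  · exact Or.inr ha
  · left
    obtain ⟨e, he⟩ := exists_inv qdata a ha
    have he0 : e ≠ 0 := by
      rintro rfl
      rw [zero_mul] at he
      exact zero_ne_one he
    obtain ⟨f, hf⟩ := exists_inv qdata e he0
    have hfa : f = a := by
      calc f = f * (e * a) := by rw [he, mul_one]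
        _ = a := by rw [← mul_assoc, hf, one_mul]
    rw [hfa] at hf
    exact ⟨⟨a, e, hf, he⟩, rfl⟩

/-- the general construction -/
theorem counter (D : Type) [DivisionRing D] (u v : ℕ → D) (h : QData D u v) :
    ¬ (∀ (R : Type) [Ring R],
      (∀ a b c : Submodule Rᵐᵒᵖ R, a ⊓ (b ⊔ c) = (a ⊓ b) ⊔ (a ⊓ c)) →
      (∀ x : R, ∃ p : Polynomial (Subring.center R),
          p.Monic ∧ Polynomial.eval₂ (Subring.center R).subtype x p = 0) →
      ∀ a b c : Submodule R R, a ⊓ (b ⊔ c) = (a ⊓ b) ⊔ (a ⊓ c)) := by
  intro H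
  exact TwistExt.A.not_left_distributive (σ := sig h) (u 0) (not_surj h)
    (H (TwistExt.A (sig h)) (TwistExt.A.right_distributive)
      (TwistExt.A.integral (sig_center h) (integral h)))

/-- The negation of the preceding statement: For every unital ring R: if the lattice of right ideals is distributive and each element is a root of a monic polynomial with central coefficients, then the lattice of left ideals is distributive. -/
theorem result :
    ¬ (∀ (R : Type) [Ring R],
      (∀ a b c : Submodule Rᵐᵒᵖ R, a ⊓ (b ⊔ c) = (a ⊓ b) ⊔ (a ⊓ c)) →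
      (∀ x : R, ∃ p : Polynomial (Subring.center R),
          p.Monic ∧ Polynomial.eval₂ (Subring.center R).subtype x p = 0) →
      ∀ a b c : Submodule R R, a ⊓ (b ⊔ c) = (a ⊓ b) ⊔ (a ⊓ c)) := by
  letI : DivisionRing D0 := DivisionRing.ofIsUnitOrEqZero isUnit_or
  exact counter D0 _ _ qdata

end Pool.Agent.S00364
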