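import Pool.Statements.S00481

set_option autoImplicit false
open Pool Pool.MP_21aa77_al

namespace Pool.Agent.S00481

open Equiv

/-- swap the blocks `[0, 2^k)` and `[2^k, 2^(k+1))`. -/
def sf (k : ℕ) (x : ℕ) : ℕ :=
  if x < 2 ^ k then x + 2 ^ k else if x < 2 ^ (k + 1) then x - 2 ^ k else x

lemma sf_sf (k x : ℕ) : sf k (sf k x) = x := by
  have h : 2 ^ (k + 1) = 2 * 2 ^ k := by ring
  unfold sf
  rw [h]
  split_ifs <;> omega

/-- generator -/
def sig (k : ℕ) : Perm ℕ := ⟨sf k, sf k, sf_sf k, sf_sf k⟩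

lemma sig_apply (k x : ℕ) : sig k x = sf k x := rfl

lemma sig_sq (k : ℕ) : sig k * sig k = 1 := by
  ext x; exact sf_sf k x

lemma sig_inv (k : ℕ) : (sig k)⁻¹ = sig k := by
  rw [inv_eq_iff_mul_eq_one, sig_sq]

/-- finite levels -/
def H (n : ℕ) : Subgroup (Perm ℕ) := Subgroup.closure (sig '' {k | k < n})

/-- the whole group -/
def G : Subgroup (Perm ℕ) := Subgroup.closure (Set.range sig)

lemma sig_mem_H {k n : ℕ} (h : k < n) : sig k ∈ H n := Subgroup.subset_closure ⟨k, h, rfl⟩

lemma sig_mem_G (k : ℕ) : sig k ∈ G := Subgroup.subset_closure ⟨k, rfl⟩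

lemma H_mono {m n : ℕ} (h : m ≤ n) : H m ≤ H n := by
  apply Subgroup.closure_mono
  apply Set.image_mono
  intro k hk
  exact lt_of_lt_of_le hk h

lemma H_le_G (n : ℕ) : H n ≤ G := by
  apply Subgroup.closure_mono
  rintro _ ⟨k, -, rfl⟩
  exact ⟨k, rfl⟩

lemma exists_H {g : Perm ℕ} (hg : g ∈ G) : ∃ n, g ∈ H n := by
  unfold G at hg
  induction hg using Subgroup.closure_induction with
  | mem x hx =>
    obtain ⟨k, rfl⟩ := hx
    exact ⟨k + 1, sig_mem_H (Nat.lt_succ_self k)⟩
  | one => exact ⟨0, Subgroup.one_mem _⟩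
  | mul x y _ _ hx hy =>
    obtain ⟨a, ha⟩ := hx
    obtain ⟨b, hb⟩ := hy
    exact ⟨max a b, Subgroup.mul_mem _ (H_mono (le_max_left a b) ha) (H_mono (le_max_right a b) hb)⟩
  | inv x _ hx =>
    obtain ⟨a, ha⟩ := hx
    exact ⟨a, Subgroup.inv_mem _ ha⟩

/-- permutations fixing everything from `N` on -/
def Fx (N : ℕ) : Subgroup (Perm ℕ) where
  carrier := {g | ∀ x, N ≤ x → g x = x}
  one_mem' := by intro x _; rfl
  mul_mem' := by
    intro a b ha hb x hx
    change a (b x) = x
    rw [hb x hx, ha x hx]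
  inv_mem' := by
    intro a ha x hx
    change a⁻¹ x = x
    rw [Perm.inv_eq_iff_eq, ha x hx]

lemma H_le_Fx (n : ℕ) : H n ≤ Fx (2 ^ n) := by
  unfold H
  rw [Subgroup.closure_le]
  rintro _ ⟨k, hk, rfl⟩ x hx
  have h1 : 2 ^ (k + 1) ≤ 2 ^ n := Nat.pow_le_pow_right (by norm_num) hk
  have h2 : 2 ^ (k + 1) = 2 * 2 ^ k := by ring
  change sf k x = x
  unfold sf
  split_ifs <;> omega

lemma Fx_lt {N : ℕ} {g : Perm ℕ} (hg : g ∈ Fx N) {x : ℕ} (hx : x < N) : g x < N := by
  by_contra h
  push Not at h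
  have h1 : g (g x) = g x := hg _ h
  have h2 := g.injective h1
  omega

instance Fx_finite (N : ℕ) : Finite (Fx N) := by
  let f : Fx N → (Fin N → Fin N) := fun g i => ⟨g.1 i, Fx_lt g.2 i.2⟩
  apply Finite.of_injective f
  intro a b hab
  apply Subtype.ext
  ext x
  by_cases hx : x < N
  · have := congrFun hab ⟨x, hx⟩
    exact congrArg Fin.val this
  · push Not at hx
    rw [a.2 x hx, b.2 x hx]

instance H_finite (n : ℕ) : Finite (H n) :=
  Finite.of_injective (Subgroup.inclusion (H_le_Fx n)) (Subgroup.inclusion_injective _)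

/-- conjugate by `sig n` -/
def cj (n : ℕ) (g : Perm ℕ) : Perm ℕ := sig n * g * sig n

lemma cj_mul (n : ℕ) (a b : Perm ℕ) : cj n a * cj n b = cj n (a * b) := by
  unfold cj
  calc sig n * a * sig n * (sig n * b * sig n) = sig n * a * (sig n * sig n) * b * sig n := by group
    _ = _ := by rw [sig_sq]; group

lemma cj_one (n : ℕ) : cj n 1 = 1 := by
  unfold cj; rw [mul_one, sig_sq]

lemma cj_pow (n : ℕ) (a : Perm ℕ) (m : ℕ) : (cj n a) ^ m = cj n (a ^ m) := by
  induction m with
  | zero => rw [pow_zero, pow_zero, cj_one]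
  | succ m ih => rw [pow_succ, ih, cj_mul, ← pow_succ]

lemma cj_fix {n : ℕ} {g : Perm ℕ} (hg : g ∈ Fx (2 ^ n)) (x : ℕ)
    (hx : x < 2 ^ n ∨ 2 ^ (n + 1) ≤ x) : cj n g x = x := by
  change sig n (g (sig n x)) = x
  have h2 : 2 ^ (n + 1) = 2 * 2 ^ n := by ring
  have h3 : 2 ^ n ≤ sig n x := by
    rw [sig_apply]; unfold sf
    split_ifs <;> omega
  rw [hg _ h3]
  exact sf_sf n x

lemma cj_comm {n : ℕ} {a b : Perm ℕ} (ha : a ∈ Fx (2 ^ n)) (hb : b ∈ Fx (2 ^ n)) :
    Commute a (cj n b) := by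
  apply Perm.Disjoint.commute
  intro x
  rcases lt_or_ge x (2 ^ n) with h | h
  · right; exact cj_fix hb x (Or.inl h)
  · left; exact ha x h

lemma sig_mul_of_cj (n : ℕ) (g : Perm ℕ) : sig n * g = cj n g * sig n := by
  unfold cj
  rw [mul_assoc, sig_sq, mul_one]

lemma sig_cj (n : ℕ) (g : Perm ℕ) : sig n * cj n g = g * sig n := by
  unfold cj
  calc sig n * (sig n * g * sig n) = (sig n * sig n) * g * sig n := by group
    _ = _ := by rw [sig_sq, one_mul]

lemma structure_H (n : ℕ) (g : Perm ℕ) (hg : g ∈ H (n + 1)) :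
    ∃ a ∈ H n, ∃ b ∈ H n, g = a * cj n b ∨ g = a * cj n b * sig n := by
  unfold H at hg
  induction hg using Subgroup.closure_induction with
  | mem x hx =>
    obtain ⟨k, hk, rfl⟩ := hx
    rcases Nat.lt_succ_iff_lt_or_eq.mp hk with h | h
    · exact ⟨sig k, sig_mem_H h, 1, Subgroup.one_mem _, Or.inl (by rw [cj_one, mul_one])⟩
    · subst h
      exact ⟨1, Subgroup.one_mem _, 1, Subgroup.one_mem _, Or.inr (by rw [cj_one]; group)⟩
  | one => exact ⟨1, Subgroup.one_mem _, 1, Subgroup.one_mem _, Or.inl (by rw [cj_one]; group)⟩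
  | mul x y _ _ hx hy =>
    obtain ⟨a, ha, b, hb, hx⟩ := hx
    obtain ⟨c, hc, d, hd, hy⟩ := hy
    have ha' := H_le_Fx n ha
    have hb' := H_le_Fx n hb
    have hc' := H_le_Fx n hc
    have hd' := H_le_Fx n hd
    rcases hx with rfl | rfl <;> rcases hy with rfl | rfl
    · refine ⟨a * c, Subgroup.mul_mem _ ha hc, b * d, Subgroup.mul_mem _ hb hd, Or.inl ?_⟩
      calc a * cj n b * (c * cj n d) = a * (cj n b * c) * cj n d := by group
        _ = a * (c * cj n b) * cj n d := by rw [(cj_comm hc' hb').eq]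
        _ = a * c * (cj n b * cj n d) := by group
        _ = _ := by rw [cj_mul]
    · refine ⟨a * c, Subgroup.mul_mem _ ha hc, b * d, Subgroup.mul_mem _ hb hd, Or.inr ?_⟩
      calc a * cj n b * (c * cj n d * sig n) = a * (cj n b * c) * cj n d * sig n := by group
        _ = a * (c * cj n b) * cj n d * sig n := by rw [(cj_comm hc' hb').eq]
        _ = a * c * (cj n b * cj n d) * sig n := by group
        _ = _ := by rw [cj_mul]
    · refine ⟨a * d, Subgroup.mul_mem _ ha hd, b * c, Subgroup.mul_mem _ hb hc, Or.inr ?_⟩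
      calc a * cj n b * sig n * (c * cj n d) = a * cj n b * (sig n * c) * cj n d := by group
        _ = a * cj n b * cj n c * (sig n * cj n d) := by rw [sig_mul_of_cj]; group
        _ = a * (cj n b * cj n c) * (d * sig n) := by rw [sig_cj]; group
        _ = a * (cj n (b * c) * d) * sig n := by rw [cj_mul]; group
        _ = a * (d * cj n (b * c)) * sig n := by
          rw [(cj_comm hd' (Subgroup.mul_mem _ hb' hc')).eq]
        _ = _ := by group
    · refine ⟨a * d, Subgroup.mul_mem _ ha hd, b * c, Subgroup.mul_mem _ hb hc, Or.inl ?_⟩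
      calc a * cj n b * sig n * (c * cj n d * sig n)
          = a * cj n b * (sig n * c) * cj n d * sig n := by group
        _ = a * cj n b * cj n c * (sig n * cj n d) * sig n := by rw [sig_mul_of_cj]; group
        _ = a * (cj n b * cj n c) * d * (sig n * sig n) := by rw [sig_cj]; group
        _ = a * (cj n (b * c) * d) := by rw [cj_mul, sig_sq]; group
        _ = a * (d * cj n (b * c)) := by
          rw [(cj_comm hd' (Subgroup.mul_mem _ hb' hc')).eq]
        _ = _ := by group
  | inv x _ hx =>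
    obtain ⟨a, ha, b, hb, hx⟩ := hx
    have ha' := H_le_Fx n ha
    have hb' := H_le_Fx n hb
    have hcji : ∀ b : Perm ℕ, (cj n b)⁻¹ = cj n b⁻¹ := by
      intro b
      unfold cj
      rw [mul_inv_rev, mul_inv_rev, sig_inv]; group
    rcases hx with rfl | rfl
    · refine ⟨a⁻¹, Subgroup.inv_mem _ ha, b⁻¹, Subgroup.inv_mem _ hb, Or.inl ?_⟩
      rw [mul_inv_rev, hcji, (cj_comm (Subgroup.inv_mem _ ha') (Subgroup.inv_mem _ hb')).eq]
    · refine ⟨b⁻¹, Subgroup.inv_mem _ hb, a⁻¹, Subgroup.inv_mem _ ha, Or.inr ?_⟩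
      calc (a * cj n b * sig n)⁻¹ = sig n * ((cj n b)⁻¹ * a⁻¹) := by
            rw [mul_inv_rev, mul_inv_rev, sig_inv]
        _ = (sig n * cj n b⁻¹) * a⁻¹ := by rw [hcji]; group
        _ = b⁻¹ * (sig n * a⁻¹) := by rw [sig_cj]; group
        _ = _ := by rw [sig_mul_of_cj]; group

lemma pow_H (n : ℕ) : ∀ g ∈ H n, g ^ (2 ^ n) = 1 := by
  induction n with
  | zero =>
    intro g hg
    have : H 0 = ⊥ := by
      unfold H
      simp
    rw [this, Subgroup.mem_bot] at hg
    rw [hg, one_pow]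
  | succ n ih =>
    intro g hg
    obtain ⟨a, ha, b, hb, h⟩ := structure_H n g hg
    have ha' := H_le_Fx n ha
    have hb' := H_le_Fx n hb
    have key : ∀ c ∈ H n, ∀ d ∈ H n, (c * cj n d) ^ (2 ^ n) = 1 := by
      intro c hc d hd
      rw [(cj_comm (H_le_Fx n hc) (H_le_Fx n hd)).mul_pow, cj_pow, ih c hc, ih d hd, cj_one,
        mul_one]
    rcases h with rfl | rfl
    · rw [pow_succ, pow_mul, key a ha b hb, one_pow]
    · have h2 : (a * cj n b * sig n) ^ 2 = (a * b) * cj n (b * a) := by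
        rw [pow_two]
        calc a * cj n b * sig n * (a * cj n b * sig n)
            = a * cj n b * (sig n * a) * cj n b * sig n := by group
          _ = a * cj n b * cj n a * (sig n * cj n b) * sig n := by rw [sig_mul_of_cj]; group
          _ = a * (cj n b * cj n a) * b * (sig n * sig n) := by rw [sig_cj]; group
          _ = a * (cj n (b * a) * b) := by rw [cj_mul, sig_sq]; group
          _ = a * (b * cj n (b * a)) := by
            rw [(cj_comm hb' (Subgroup.mul_mem _ hb' ha')).eq]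
          _ = _ := by group
      rw [pow_succ, mul_comm, pow_mul, h2]
      exact key _ (Subgroup.mul_mem _ ha hb) _ (Subgroup.mul_mem _ hb ha)

instance G_countable : Countable G := by
  have h1 : (G : Set (Perm ℕ)) ⊆ ⋃ n, (H n : Set (Perm ℕ)) := by
    intro g hg
    obtain ⟨n, hn⟩ := exists_H hg
    exact Set.mem_iUnion.mpr ⟨n, hn⟩
  have h2 : (⋃ n, (H n : Set (Perm ℕ))).Countable := by
    apply Set.countable_iUnion
    intro n
    have : Finite ((H n : Set (Perm ℕ))) := H_finite n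
    exact (Set.toFinite _).countable
  exact (h2.mono h1).to_subtype

/-- There is a prime p and a locally finite p-group G with a proper abelian subgroup A such that every element of G lies in some conjugate of A. -/
theorem result :
    ∃ (p : ℕ) (G : Type) (_ : Group G) (A : Subgroup G),
      p.Prime ∧ IsPGroup p G ∧
      (∀ s : Set G, s.Finite → Finite ↥(Subgroup.closure s)) ∧
      A ≠ ⊤ ∧
      (∀ a ∈ A, ∀ b ∈ A, a * b = b * a) ∧
      (∀ g : G, ∃ x : G, x⁻¹ * g * x ∈ A) := by
  classical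
  have hN : ∀ g : G, ∃ n, (g : Perm ℕ) ∈ H n := fun g => exists_H g.2
  choose N hN using hN
  obtain ⟨e, he⟩ := Countable.exists_injective_nat G
  set ν : G → ℕ := fun g => Nat.pair (e g) (N g) with hν
  have hνinj : Function.Injective ν := by
    intro a b hab
    have := Nat.pair_eq_pair.mp hab
    exact he this.1
  have hνmem : ∀ g : G, (g : Perm ℕ) ∈ Fx (2 ^ ν g) := fun g =>
    H_le_Fx _ (H_mono (Nat.right_le_pair _ _) (hN g))
  let s : ℕ → G := fun k => ⟨sig k, sig_mem_G k⟩
  let S : Set G := {y | ∃ g : G, y = s (ν g) * g * s (ν g)}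
  have hS : ∀ a ∈ S, ∀ b ∈ S, a * b = b * a := by
    rintro _ ⟨g, rfl⟩ _ ⟨h, rfl⟩
    by_cases hgh : g = h
    · subst hgh; rfl
    apply Subtype.ext
    change cj (ν g) g * cj (ν h) h = cj (ν h) h * cj (ν g) g
    have hne : ν g ≠ ν h := fun h' => hgh (hνinj h')
    have main : ∀ g h : G, ν g < ν h → Commute (cj (ν g) (g : Perm ℕ)) (cj (ν h) (h : Perm ℕ)) := by
      intro g h hlt
      apply Perm.Disjoint.commute
      intro x
      have h1 : 2 ^ (ν g + 1) ≤ 2 ^ (ν h) := Nat.pow_le_pow_right (by norm_num) hlt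
      rcases lt_or_ge x (2 ^ (ν h)) with h2 | h2
      · right; exact cj_fix (hνmem h) x (Or.inl h2)
      · left; exact cj_fix (hνmem g) x (Or.inr (h1.trans h2))
    rcases lt_or_gt_of_ne hne with h1 | h1
    · exact (main g h h1).eq
    · exact (main h g h1).eq.symm
  have hA : ∀ a ∈ Subgroup.closure S, ∀ b ∈ Subgroup.closure S, a * b = b * a := by
    have h1 : Subgroup.closure S ≤ Subgroup.centralizer S := by
      rw [Subgroup.closure_le]
      intro a ha
      rw [SetLike.mem_coe, Subgroup.mem_centralizer_iff]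
      intro b hb
      exact hS b hb a ha
    have h2 : S ⊆ Subgroup.centralizer (Subgroup.closure S : Set G) := by
      intro b hb
      rw [SetLike.mem_coe, Subgroup.mem_centralizer_iff]
      intro a ha
      exact ((Subgroup.mem_centralizer_iff.mp (h1 ha)) b hb).symm
    have h3 : Subgroup.closure S ≤ Subgroup.centralizer (Subgroup.closure S : Set G) :=
      (Subgroup.closure_le _).mpr h2
    intro a ha b hb
    exact Subgroup.mem_centralizer_iff.mp (h3 hb) a ha
  refine ⟨2, G, inferInstance, Subgroup.closure S, Nat.prime_two, ?_, ?_, ?_, hA, ?_⟩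
  · intro g
    refine ⟨N g, ?_⟩
    apply Subtype.ext
    rw [Subgroup.coe_pow]
    exact pow_H (N g) _ (hN g)
  · intro t ht
    obtain ⟨M, hM⟩ : ∃ M, ∀ g ∈ t, N g ≤ M := by
      obtain ⟨M, hM⟩ := (ht.image N).bddAbove
      exact ⟨M, fun g hg => hM ⟨g, hg, rfl⟩⟩
    have h1 : Subgroup.closure t ≤ (H M).comap G.subtype := by
      rw [Subgroup.closure_le]
      intro g hg
      exact H_mono (hM g hg) (hN g)
    let f : Subgroup.closure t → H M := fun g => ⟨(g.1 : Perm ℕ), h1 g.2⟩
    apply Finite.of_injective f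
    intro a b hab
    have h2 : ((f a : H M) : Perm ℕ) = ((f b : H M) : Perm ℕ) := by rw [hab]
    exact Subtype.ext (Subtype.ext h2)
  · intro htop
    have h1 := hA (s 0) (by rw [htop]; trivial) (s 1) (by rw [htop]; trivial)
    have h2 := congrArg (fun g : G => (g : Perm ℕ) 0) h1
    have h3 : sf 0 (sf 1 0) = sf 1 (sf 0 0) := h2
    revert h3
    decide
  · intro g
    refine ⟨s (ν g), ?_⟩
    apply Subgroup.subset_closure
    refine ⟨g, ?_⟩
    congr 2

end Pool.Agent.S00481
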