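import Pool.Statements.S00573
import Pool.Agent.Helper1.ClassTrans

set_option autoImplicit false
open Pool Pool.MP_2b3d4e_al

namespace Pool.Agent.S00573

open Pool.Agent.Helper1.ClassTrans

/-- residue-class-wise affine -/
def RC (g : Equiv.Perm ℤ) : Prop := ∃ m : ℤ, 0 < m ∧ ∀ r : ℤ, ∃ a b : ℚ, ∀ n : ℤ,
            Int.ModEq m n r → ((g n : ℤ) : ℚ) = a * (n : ℚ) + b

/-- preserves the nonnegative integers -/
def NN (g : Equiv.Perm ℤ) : Prop := ∀ n : ℤ, 0 ≤ g n ↔ 0 ≤ n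

lemma rc_step {g : Equiv.Perm ℤ} {m : ℤ} (h : ∀ r : ℤ, ∃ a b : ℚ, ∀ n : ℤ,
            Int.ModEq m n r → ((g n : ℤ) : ℚ) = a * (n : ℚ) + b) (r k t : ℤ) :
    g (r + m * t * k) = g r + (g (r + m * t) - g r) * k := by
  obtain ⟨a, b, hab⟩ := h r
  have h1 := hab (r + m * t * k) (by
    rw [Int.modEq_comm, Int.modEq_iff_dvd]; exact ⟨t * k, by ring⟩)
  have h2 := hab (r + m * t) (by
    rw [Int.modEq_comm, Int.modEq_iff_dvd]; exact ⟨t, by ring⟩)
  have h3 := hab r (Int.ModEq.refl r)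
  have : ((g (r + m * t * k) : ℤ) : ℚ) = ((g r + (g (r + m * t) - g r) * k : ℤ) : ℚ) := by
    push_cast
    rw [h1, h2, h3]
    push_cast
    ring
  exact_mod_cast this

lemma rc_one : RC 1 := ⟨1, one_pos, fun _ => ⟨1, 0, fun n _ => by simp⟩⟩

lemma rc_mul {g h : Equiv.Perm ℤ} (hg : RC g) (hh : RC h) : RC (g * h) := by
  obtain ⟨m, hm, hg⟩ := hg
  obtain ⟨m', hm', hh⟩ := hh
  refine ⟨m' * m, mul_pos hm' hm, fun r => ?_⟩
  obtain ⟨a', b', hab'⟩ := hh r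
  obtain ⟨a, b, hab⟩ := hg (h r)
  refine ⟨a * a', a * b' + b, fun n hn => ?_⟩
  rw [Int.modEq_comm, Int.modEq_iff_dvd] at hn
  obtain ⟨k, hk⟩ := hn
  have hn' : n = r + m' * m * k := by linarith
  have h1 : Int.ModEq m' n r := by
    rw [Int.modEq_comm, Int.modEq_iff_dvd]; exact ⟨m * k, by rw [hk]; ring⟩
  have h2 : Int.ModEq m (h n) (h r) := by
    rw [Int.modEq_comm, Int.modEq_iff_dvd]
    have h3 := rc_step hh r (m * k) 1
    have h4 : r + m' * 1 * (m * k) = n := by rw [hn']; ring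
    rw [h4] at h3
    refine ⟨(h (r + m' * 1) - h r) * k, ?_⟩
    rw [h3]; ring
  change ((g (h n) : ℤ) : ℚ) = _
  rw [hab (h n) h2, hab' n h1]
  ring

lemma nn_mul {g h : Equiv.Perm ℤ} (hg : NN g) (hh : NN h) : NN (g * h) := fun n => by
  change 0 ≤ g (h n) ↔ _
  rw [hg, hh]

lemma modEq_iff_ex {m n r : ℤ} : Int.ModEq m n r ↔ ∃ k : ℤ, n = r + m * k := by
  rw [Int.modEq_comm, Int.modEq_iff_dvd]
  constructor
  · rintro ⟨k, hk⟩; exact ⟨k, by linarith⟩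
  · rintro ⟨k, hk⟩; exact ⟨k, by linarith⟩

/-- generators -/
def Gen : Set (Equiv.Perm ℤ) := {σ : Equiv.Perm ℤ | ∃ r₁ m₁ r₂ m₂ : ℤ,
          0 ≤ r₁ ∧ r₁ < m₁ ∧ 0 ≤ r₂ ∧ r₂ < m₂ ∧
          (∀ n : ℤ, ¬ (Int.ModEq m₁ n r₁ ∧ Int.ModEq m₂ n r₂)) ∧
          (∀ k : ℤ, σ (r₁ + m₁ * k) = r₂ + m₂ * k ∧ σ (r₂ + m₂ * k) = r₁ + m₁ * k) ∧
          ∀ n : ℤ, ¬ Int.ModEq m₁ n r₁ → ¬ Int.ModEq m₂ n r₂ → σ n = n}

lemma gen_inv {σ : Equiv.Perm ℤ} (h : σ ∈ Gen) : σ⁻¹ = σ := by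
  obtain ⟨r₁, m₁, r₂, m₂, h1, h2, h3, h4, h5, h6, h7⟩ := h
  rw [inv_eq_iff_mul_eq_one]
  ext n
  change σ (σ n) = n
  by_cases ha : Int.ModEq m₁ n r₁
  · obtain ⟨k, rfl⟩ := modEq_iff_ex.mp ha
    rw [(h6 k).1, (h6 k).2]
  · by_cases hb : Int.ModEq m₂ n r₂
    · obtain ⟨k, rfl⟩ := modEq_iff_ex.mp hb
      rw [(h6 k).2, (h6 k).1]
    · rw [h7 n ha hb, h7 n ha hb]

lemma aux_nn {r m k : ℤ} (h1 : 0 ≤ r) (h2 : r < m) : 0 ≤ r + m * k ↔ 0 ≤ k := by
  constructor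
  · intro h
    by_contra hk
    push Not at hk
    have : m * k ≤ m * (-1) := mul_le_mul_of_nonneg_left (by omega) (by omega)
    linarith
  · intro h
    have : 0 ≤ m * k := mul_nonneg (by omega) h
    linarith

lemma gen_nn {σ : Equiv.Perm ℤ} (h : σ ∈ Gen) : NN σ := by
  obtain ⟨r₁, m₁, r₂, m₂, h1, h2, h3, h4, h5, h6, h7⟩ := h
  intro n
  by_cases ha : Int.ModEq m₁ n r₁
  · obtain ⟨k, rfl⟩ := modEq_iff_ex.mp ha
    rw [(h6 k).1, aux_nn h1 h2, aux_nn h3 h4]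
  · by_cases hb : Int.ModEq m₂ n r₂
    · obtain ⟨k, rfl⟩ := modEq_iff_ex.mp hb
      rw [(h6 k).2, aux_nn h1 h2, aux_nn h3 h4]
    · rw [h7 n ha hb]

lemma gen_rc {σ : Equiv.Perm ℤ} (h : σ ∈ Gen) : RC σ := by
  obtain ⟨r₁, m₁, r₂, m₂, h1, h2, h3, h4, h5, h6, h7⟩ := h
  have p1 : 0 < m₁ := by omega
  have p2 : 0 < m₂ := by omega
  refine ⟨m₁ * m₂, mul_pos p1 p2, fun r => ?_⟩
  have q1 : ((m₁ : ℤ) : ℚ) ≠ 0 := by exact_mod_cast p1.ne'
  have q2 : ((m₂ : ℤ) : ℚ) ≠ 0 := by exact_mod_cast p2.ne'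
  have e1 : ∀ n : ℤ, Int.ModEq (m₁ * m₂) n r → Int.ModEq m₁ n r := fun n hn =>
    Int.ModEq.of_mul_right _ hn
  have e2 : ∀ n : ℤ, Int.ModEq (m₁ * m₂) n r → Int.ModEq m₂ n r := fun n hn =>
    Int.ModEq.of_mul_left _ hn
  by_cases ha : Int.ModEq m₁ r r₁
  · refine ⟨(m₂ : ℚ) / m₁, r₂ - (m₂ : ℚ) / m₁ * r₁, fun n hn => ?_⟩
    obtain ⟨k, rfl⟩ := modEq_iff_ex.mp ((e1 n hn).trans ha)
    rw [(h6 k).1]
    push_cast
    field_simp
    ring
  · by_cases hb : Int.ModEq m₂ r r₂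
    · refine ⟨(m₁ : ℚ) / m₂, r₁ - (m₁ : ℚ) / m₂ * r₂, fun n hn => ?_⟩
      obtain ⟨k, rfl⟩ := modEq_iff_ex.mp ((e2 n hn).trans hb)
      rw [(h6 k).2]
      push_cast
      field_simp
      ring
    · refine ⟨1, 0, fun n hn => ?_⟩
      rw [h7 n (fun h => ha ((e1 n hn).symm.trans h)) (fun h => hb ((e2 n hn).symm.trans h))]
      ring

lemma ct_sub {g : Equiv.Perm ℤ} (hg : g ∈ Subgroup.closure Gen) : RC g ∧ NN g := by
  induction hg using Subgroup.closure_induction'' with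
  | mem x hx => exact ⟨gen_rc hx, gen_nn hx⟩
  | inv_mem x hx => rw [gen_inv hx]; exact ⟨gen_rc hx, gen_nn hx⟩
  | one => exact ⟨rc_one, fun n => Iff.rfl⟩
  | mul x y _ _ h1 h2 => exact ⟨rc_mul h1.1 h2.1, nn_mul h1.2 h2.2⟩

/-- list of classes -/
def lst (g : Equiv.Perm ℤ) (M : ℕ) : List Cls :=
  (List.range M).map (fun j : ℕ => ((g (j : ℤ), g ((j : ℤ) + M) - g j) : Cls))

lemma lst_part {g : Equiv.Perm ℤ} {M : ℕ} (hM : 0 < M) (hn : NN g)
    (hs : ∀ r k : ℤ, g (r + M * k) = g r + (g (r + M) - g r) * k) : IsPart (lst g M) := by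
  have hMz : (0 : ℤ) < M := by exact_mod_cast hM
  have hpos : ∀ r : ℤ, 0 ≤ r → 0 < g (r + M) - g r := by
    intro r hr
    by_contra hle
    push Not at hle
    rcases hle.lt_or_eq with hlt | heq
    · have h0 : 0 ≤ g r := (hn r).mpr hr
      have h1 := hs r (g r + 1)
      have h2 : 0 ≤ g (r + M * (g r + 1)) := (hn _).mpr (by positivity)
      rw [h1] at h2
      have h3 : (g (r + M) - g r) * (g r + 1) ≤ (-1) * (g r + 1) :=
        mul_le_mul_of_nonneg_right (by omega) (by omega)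
      linarith
    · have h1 : g (r + M) = g r := by linarith
      have := g.injective h1
      omega
  refine ⟨⟨?_, ?_⟩, ?_⟩
  · intro c hc
    obtain ⟨j, hj, rfl⟩ := List.mem_map.mp hc
    rw [List.mem_range] at hj
    have hjM : (j : ℤ) < M := by exact_mod_cast hj
    have h0 : (0 : ℤ) ≤ j := Int.natCast_nonneg j
    have h1 := hpos j h0
    refine ⟨(hn _).mpr h0, ?_⟩
    have h2 := hs j (-1)
    have h3 : g ((j : ℤ) + M * (-1)) < 0 := by
      by_contra h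
      push Not at h
      have := (hn _).mp h
      linarith
    rw [h2] at h3
    change g j < g ((j : ℤ) + M) - g j
    linarith
  · unfold lst
    rw [List.pairwise_map]
    apply List.Pairwise.imp_of_mem (R := fun a b => a ≠ b)
    · intro a b ha hb hab n hn
      rw [List.mem_range] at ha hb
      apply hab
      obtain ⟨k, hk⟩ := inn_iff.mp hn.1
      obtain ⟨k', hk'⟩ := inn_iff.mp hn.2
      simp only at hk hk'
      rw [← hs] at hk hk'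
      have h1 := g.injective (hk.symm.trans hk')
      have h2 : ((a : ℤ) + M * k) % M = ((b : ℤ) + M * k') % M := by rw [h1]
      rw [Int.add_mul_emod_self_left, Int.add_mul_emod_self_left,
        Int.emod_eq_of_lt (Int.natCast_nonneg a) (by exact_mod_cast ha),
        Int.emod_eq_of_lt (Int.natCast_nonneg b) (by exact_mod_cast hb)] at h2
      exact_mod_cast h2
    · exact List.nodup_range
  · intro n
    obtain ⟨x, rfl⟩ := g.surjective n
    have h1 := Int.emod_nonneg x hMz.ne'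
    have h2 := Int.emod_lt_of_pos x hMz
    refine ⟨(g (((x % M).toNat : ℕ) : ℤ), g ((((x % M).toNat : ℕ) : ℤ) + M) -
      g (((x % M).toNat : ℕ) : ℤ)), List.mem_map.mpr ⟨(x % M).toNat,
        List.mem_range.mpr (by omega), rfl⟩, ?_⟩
    rw [inn_iff]
    refine ⟨x / M, ?_⟩
    simp only
    rw [← hs, Int.toNat_of_nonneg h1]
    congr 1
    exact (Int.emod_add_mul_ediv x M).symm

lemma sub_ct {g : Equiv.Perm ℤ} (hr : RC g) (hn : NN g) : g ∈ CT := by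
  obtain ⟨m, hm, h⟩ := hr
  obtain ⟨m', rfl⟩ : ∃ m' : ℕ, (m' : ℤ) = m := ⟨m.toNat, Int.toNat_of_nonneg hm.le⟩
  have hm' : 0 < m' := by exact_mod_cast hm
  have hs : ∀ r k : ℤ, g (r + (m' * 2 : ℕ) * k) = g r + (g (r + (m' * 2 : ℕ)) - g r) * k := by
    intro r k
    have := rc_step h r k 2
    push_cast
    exact this
  have hs1 : ∀ r k : ℤ, (1 : Equiv.Perm ℤ) (r + (m' * 2 : ℕ) * k) =
      (1 : Equiv.Perm ℤ) r + ((1 : Equiv.Perm ℤ) (r + (m' * 2 : ℕ)) - (1 : Equiv.Perm ℤ) r) * k := by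
    intro r k
    simp only [Equiv.Perm.coe_one, id]
    ring
  have hM : 0 < m' * 2 := by omega
  have h1 := lst_part hM hn hs
  have h2 := lst_part (g := 1) hM (fun n => Iff.rfl) hs1
  have l1 : ∀ f : Equiv.Perm ℤ, (lst f (m' * 2)).length = m' * 2 := fun f => by simp [lst]
  obtain ⟨f, hf, h3⟩ := all_rel h2 h1 (by rw [l1]; omega) (by rw [l1, l1])
  have hgf : f = g := by
    ext n
    have hMz : (0 : ℤ) < ((m' * 2 : ℕ) : ℤ) := by exact_mod_cast hM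
    have k1 := Int.emod_nonneg n hMz.ne'
    have k2 := Int.emod_lt_of_pos n hMz
    unfold lst at h3
    rw [List.forall₂_map_left_iff, List.forall₂_map_right_iff, List.forall₂_same] at h3
    have h4 := h3 (n % ((m' * 2 : ℕ) : ℤ)).toNat (List.mem_range.mpr (by omega))
      (n / ((m' * 2 : ℕ) : ℤ))
    simp only [Equiv.Perm.coe_one, id] at h4
    rw [← hs, Int.toNat_of_nonneg k1, add_sub_cancel_left] at h4
    rw [Int.emod_add_mul_ediv] at h4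
    exact h4
  rw [← hgf]; exact hf

/-- The group generated by all class transpositions of ℤ equals the set of permutations of ℤ that are affine (rational coefficients) on each residue class modulo some m>0 and map the nonnegative integers onto themselves. -/
theorem result :
    ((Subgroup.closure
        {σ : Equiv.Perm ℤ | ∃ r₁ m₁ r₂ m₂ : ℤ,
          0 ≤ r₁ ∧ r₁ < m₁ ∧ 0 ≤ r₂ ∧ r₂ < m₂ ∧
          (∀ n : ℤ, ¬ (Int.ModEq m₁ n r₁ ∧ Int.ModEq m₂ n r₂)) ∧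
          (∀ k : ℤ, σ (r₁ + m₁ * k) = r₂ + m₂ * k ∧ σ (r₂ + m₂ * k) = r₁ + m₁ * k) ∧
          ∀ n : ℤ, ¬ Int.ModEq m₁ n r₁ → ¬ Int.ModEq m₂ n r₂ → σ n = n}
        : Subgroup (Equiv.Perm ℤ)) : Set (Equiv.Perm ℤ)) =
      {g : Equiv.Perm ℤ |
        (∃ m : ℤ, 0 < m ∧ ∀ r : ℤ, ∃ a b : ℚ, ∀ n : ℤ,
            Int.ModEq m n r → ((g n : ℤ) : ℚ) = a * (n : ℚ) + b) ∧
        ∀ n : ℤ, 0 ≤ g n ↔ 0 ≤ n} := by
  ext g
  constructor
  · intro hg
    exact ct_sub hg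
  · intro hg
    exact sub_ct hg.1 hg.2

end Pool.Agent.S00573
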