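import Pool.Statements.S00633

set_option autoImplicit false
open Pool Pool.MP_32c87b_al

namespace Pool.Agent.S00633

/-- well-ordered copy of the underlying set -/
def Ix (G : Type) : Type := G

/-- a well-order -/
def wo (G : Type) : Ix G → Ix G → Prop := (WellOrderingRel : G → G → Prop)

instance (G : Type) : IsWellOrder (Ix G) (wo G) := (WellOrderingRel.isWellOrder (α := G))

noncomputable instance (G : Type) : LinearOrder (Ix G) := IsWellOrder.linearOrder (wo G)

instance (G : Type) : WellFoundedLT (Ix G) := ⟨IsWellFounded.wf (r := wo G)⟩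

/-- identity map -/
def toIx {G : Type} (s : G) : Ix G := s

/-- index set of the orbits -/
abbrev J (G : Type) : Type := WithBot (WithBot (Ix G))

/-- index a -/
def ja (G : Type) : J G := ⊥
/-- index b -/
def jb (G : Type) : J G := ((⊥ : WithBot (Ix G)) : WithBot (WithBot (Ix G)))
/-- index d_s -/
def jd {G : Type} (s : G) : J G := (((toIx s : Ix G) : WithBot (Ix G)) : WithBot (WithBot (Ix G)))

lemma jd_inj {G : Type} {s t : G} (h : jd s = jd t) : s = t :=
  WithBot.coe_injective (WithBot.coe_injective h)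

lemma ja_ne_jb (G : Type) : ja G ≠ jb G := WithBot.bot_ne_coe
lemma ja_ne_jd {G : Type} (s : G) : ja G ≠ jd s := WithBot.bot_ne_coe
lemma jb_ne_jd {G : Type} (s : G) : jb G ≠ jd s := fun h =>
  WithBot.bot_ne_coe (WithBot.coe_injective h)

lemma ja_le {G : Type} (j : J G) : ja G ≤ j := bot_le
lemma jb_le_jd {G : Type} (s : G) : jb G ≤ jd s := WithBot.coe_le_coe.mpr bot_le

/-- the points of the poset -/
structure Om (G : Type) where
  /-- index -/
  i : J G
  /-- position: fixed point or element of the orbit -/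
  x : Option G

variable {G : Type} [Group G] [Lattice G] [MulLeftMono G] [MulRightMono G]

/-- the order relation -/
inductive R : Om G → Om G → Prop
  | qq (i j : J G) : i ≤ j → R ⟨i, none⟩ ⟨j, none⟩
  | qo (i j : J G) (y : G) : i ≤ j → R ⟨i, none⟩ ⟨j, some y⟩
  | oo (i : J G) (x y : G) : x ≤ y → R ⟨i, some x⟩ ⟨i, some y⟩
  | ad (s x y : G) : x * s ≤ y → R ⟨ja G, some x⟩ ⟨jd s, some y⟩
  | bd (s x y : G) : x ≤ y → R ⟨jb G, some x⟩ ⟨jd s, some y⟩

lemma R_idx {p q : Om G} (h : R p q) : p.i ≤ q.i := by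
  cases h with
  | qq i j h => exact h
  | qo i j y h => exact h
  | oo i x y h => exact le_rfl
  | ad s x y h => exact ja_le _
  | bd s x y h => exact jb_le_jd s

lemma R_none {p q : Om G} (h : R p q) (hq : q.x = none) : p.x = none := by
  cases h <;> simp_all

/-- explicit description on the orbits -/
lemma R_some {i j : J G} {x y : G} : R (⟨i, some x⟩ : Om G) ⟨j, some y⟩ ↔
    (i = j ∧ x ≤ y) ∨ (∃ s, i = ja G ∧ j = jd s ∧ x * s ≤ y) ∨
      (∃ s : G, i = jb G ∧ j = jd s ∧ x ≤ y) := by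
  constructor
  · intro h
    cases h with
    | oo i x y h => exact Or.inl ⟨rfl, h⟩
    | ad s x y h => exact Or.inr (Or.inl ⟨s, rfl, rfl, h⟩)
    | bd s x y h => exact Or.inr (Or.inr ⟨s, rfl, rfl, h⟩)
  · rintro (⟨rfl, h⟩ | ⟨s, rfl, rfl, h⟩ | ⟨s, rfl, rfl, h⟩)
    · exact R.oo _ _ _ h
    · exact R.ad _ _ _ h
    · exact R.bd _ _ _ h

lemma R_nn {i j : J G} : R (⟨i, none⟩ : Om G) ⟨j, none⟩ ↔ i ≤ j :=
  ⟨fun h => R_idx h, fun h => R.qq _ _ h⟩

lemma R_ns {i j : J G} {y : G} : R (⟨i, none⟩ : Om G) ⟨j, some y⟩ ↔ i ≤ j :=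
  ⟨fun h => R_idx h, fun h => R.qo _ _ _ h⟩

instance : PartialOrder (Om G) where
  le := R
  le_refl p := by
    obtain ⟨i, _ | x⟩ := p
    · exact R.qq _ _ le_rfl
    · exact R.oo _ _ _ le_rfl
  le_trans p q r h1 h2 := by
    obtain ⟨i, _ | x⟩ := p
    · have h3 := (R_idx h1).trans (R_idx h2)
      obtain ⟨k, _ | z⟩ := r
      · exact R.qq _ _ h3
      · exact R.qo _ _ _ h3
    · obtain ⟨j, _ | y⟩ := q
      · exact absurd (R_none h1 rfl) (by simp)
      · obtain ⟨k, _ | z⟩ := r
        · exact absurd (R_none h2 rfl) (by simp)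
        · rw [R_some] at h1 h2 ⊢
          rcases h1 with ⟨rfl, h1⟩ | ⟨s, rfl, rfl, h1⟩ | ⟨s, rfl, rfl, h1⟩
          · rcases h2 with ⟨rfl, h2⟩ | ⟨s, rfl, rfl, h2⟩ | ⟨s, rfl, rfl, h2⟩
            · exact Or.inl ⟨rfl, h1.trans h2⟩
            · exact Or.inr (Or.inl ⟨s, rfl, rfl, (mul_le_mul_left h1 s).trans h2⟩)
            · exact Or.inr (Or.inr ⟨s, rfl, rfl, h1.trans h2⟩)
          · rcases h2 with ⟨rfl, h2⟩ | ⟨t, h, _, _⟩ | ⟨t, h, _, _⟩
            · exact Or.inr (Or.inl ⟨s, rfl, rfl, h1.trans h2⟩)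
            · exact absurd h.symm (ja_ne_jd s)
            · exact absurd h.symm (jb_ne_jd s)
          · rcases h2 with ⟨rfl, h2⟩ | ⟨t, h, _, _⟩ | ⟨t, h, _, _⟩
            · exact Or.inr (Or.inr ⟨s, rfl, rfl, h1.trans h2⟩)
            · exact absurd h.symm (ja_ne_jd s)
            · exact absurd h.symm (jb_ne_jd s)
  le_antisymm p q h1 h2 := by
    have h3 := le_antisymm (R_idx h1) (R_idx h2)
    obtain ⟨i, _ | x⟩ := p
    · obtain ⟨j, _ | y⟩ := q
      · simp only at h3; rw [h3]
      · exact absurd (R_none h2 rfl) (by simp)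
    · obtain ⟨j, _ | y⟩ := q
      · exact absurd (R_none h1 rfl) (by simp)
      · simp only at h3
        subst h3
        rw [R_some] at h1 h2
        have e1 : x ≤ y := by
          rcases h1 with ⟨_, h⟩ | ⟨s, h, h', _⟩ | ⟨s, h, h', _⟩
          · exact h
          · exact absurd (h.symm.trans h') (ja_ne_jd s)
          · exact absurd (h.symm.trans h') (jb_ne_jd s)
        have e2 : y ≤ x := by
          rcases h2 with ⟨_, h⟩ | ⟨s, h, h', _⟩ | ⟨s, h, h', _⟩
          · exact h
          · exact absurd (h.symm.trans h') (ja_ne_jd s)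
          · exact absurd (h.symm.trans h') (jb_ne_jd s)
        rw [le_antisymm e1 e2]

lemma le_def {p q : Om G} : p ≤ q ↔ R p q := Iff.rfl

/-- left translation -/
def lam (g : G) (p : Om G) : Om G := ⟨p.i, p.x.map (fun x => g * x)⟩

lemma lam_lam (g h : G) (p : Om G) : lam g (lam h p) = lam (g * h) p := by
  obtain ⟨i, _ | x⟩ := p
  · rfl
  · simp [lam, mul_assoc]

lemma lam_one (p : Om G) : lam 1 p = p := by
  obtain ⟨i, _ | x⟩ := p
  · rfl
  · simp [lam]

lemma lam_mono (g : G) {p q : Om G} (h : p ≤ q) : lam g p ≤ lam g q := by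
  rw [le_def] at *
  cases h with
  | qq i j h => exact R.qq _ _ h
  | qo i j y h => exact R.qo _ _ _ h
  | oo i x y h => exact R.oo _ _ _ (mul_le_mul_right h g)
  | ad s x y h => exact R.ad _ _ _ (by rw [mul_assoc]; exact mul_le_mul_right h g)
  | bd s x y h => exact R.bd s _ _ (mul_le_mul_right h g)

/-- left translation as an order automorphism -/
def lamIso (g : G) : Om G ≃o Om G where
  toFun := lam g
  invFun := lam g⁻¹
  left_inv p := by rw [lam_lam, inv_mul_cancel, lam_one]
  right_inv p := by rw [lam_lam, mul_inv_cancel, lam_one]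
  map_rel_iff' := by
    intro p q
    constructor
    · intro h
      have := lam_mono g⁻¹ h
      change lam g⁻¹ (lam g p) ≤ lam g⁻¹ (lam g q) at this
      rwa [lam_lam, lam_lam, inv_mul_cancel, lam_one, lam_one] at this
    · exact lam_mono g

lemma acc_none (i : J G) : Acc (· < ·) (⟨i, none⟩ : Om G) := by
  induction i using WellFoundedLT.induction with
  | ind i ih =>
    constructor
    intro p hp
    obtain ⟨j, x⟩ := p
    have h1 : x = none := R_none (le_def.mp hp.le) rfl
    subst h1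
    apply ih
    have h2 := R_idx (le_def.mp hp.le)
    refine lt_of_le_of_ne h2 ?_
    rintro rfl
    exact lt_irrefl _ hp

lemma not_acc_some {g : G} (hg : g < 1) : ∀ p : Om G, Acc (· < ·) p → ∀ i x, p ≠ ⟨i, some x⟩ := by
  intro p hp
  induction hp with
  | intro p _ ih =>
    rintro i x rfl
    have h1 : g * x ≤ x := by
      have := mul_le_mul_left hg.le x
      rwa [one_mul] at this
    have h2 : (⟨i, some (g * x)⟩ : Om G) < ⟨i, some x⟩ := by
      refine lt_of_le_of_ne (R.oo _ _ _ h1) ?_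
      intro h
      simp only [Om.mk.injEq, Option.some.injEq, true_and] at h
      exact hg.ne (mul_eq_right.mp h)
    exact ih _ h2 i (g * x) rfl

lemma exists_neg [Nontrivial G] : ∃ g : G, g < 1 := by
  obtain ⟨a, ha⟩ := exists_ne (1 : G)
  by_cases h : a ⊓ 1 = 1
  · refine ⟨a⁻¹, ?_⟩
    have h1 : 1 ≤ a := by rw [← h]; exact inf_le_left
    exact lt_of_le_of_ne (Left.inv_le_one_iff.mpr h1) (by simpa using ha)
  · exact ⟨a ⊓ 1, lt_of_le_of_ne inf_le_right h⟩

lemma psi_none [Nontrivial G] (ψ : Om G ≃o Om G) (i : J G) : ∃ j, ψ ⟨i, none⟩ = ⟨j, none⟩ := by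
  obtain ⟨g, hg⟩ := exists_neg (G := G)
  generalize hp : ψ ⟨i, none⟩ = p
  obtain ⟨j, _ | x⟩ := p
  · exact ⟨j, rfl⟩
  · exfalso
    have h1 : Acc (· < ·) (ψ ⟨i, none⟩) := by
      have h2 : Acc (· < ·) (ψ.symm (ψ ⟨i, none⟩)) := by
        rw [OrderIso.symm_apply_apply]; exact acc_none i
      exact RelHomClass.acc ψ.symm.toOrderEmbedding.ltEmbedding _ h2
    exact not_acc_some hg _ h1 j x hp

lemma psi_fix [Nontrivial G] (ψ : Om G ≃o Om G) (i : J G) : ψ ⟨i, none⟩ = ⟨i, none⟩ := by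
  choose f hf using psi_none ψ
  choose f' hf' using psi_none ψ.symm
  have hmono : ∀ (χ : Om G ≃o Om G) (g : J G → J G), (∀ i, χ ⟨i, none⟩ = ⟨g i, none⟩) →
      StrictMono g := by
    intro χ g hg i j hij
    have h1 : (⟨i, none⟩ : Om G) < ⟨j, none⟩ := lt_of_le_of_ne (R.qq _ _ hij.le) (by
      intro h
      simp only [Om.mk.injEq, and_true] at h
      exact hij.ne h)
    have h2 := χ.strictMono h1
    rw [hg, hg] at h2
    refine lt_of_le_of_ne (R_idx (le_def.mp h2.le)) ?_
    intro h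
    rw [h] at h2
    exact lt_irrefl _ h2
  have m1 := (hmono ψ f hf).le_apply (x := i)
  have m2 := (hmono ψ.symm f' hf').le_apply (x := f i)
  have e1 : f' (f i) = i := by
    have h1 := hf' (f i)
    rw [← hf i, OrderIso.symm_apply_apply] at h1
    simp only [Om.mk.injEq, and_true] at h1
    exact h1.symm
  rw [e1] at m2
  rw [hf i, le_antisymm m2 m1]

lemma psi_some [Nontrivial G] (ψ : Om G ≃o Om G) (i : J G) (x : G) :
    ∃ y, ψ ⟨i, some x⟩ = ⟨i, some y⟩ := by
  generalize hp : ψ ⟨i, some x⟩ = p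
  obtain ⟨j, _ | y⟩ := p
  · exfalso
    have h1 : ψ.symm ⟨j, none⟩ = ⟨i, some x⟩ := by rw [← hp, OrderIso.symm_apply_apply]
    rw [psi_fix] at h1
    simp at h1
  · refine ⟨y, ?_⟩
    have h1 : ∀ k, k ≤ i ↔ k ≤ j := by
      intro k
      rw [← R_ns (y := x), ← le_def, ← ψ.le_iff_le, psi_fix, hp, le_def, R_ns]
    have h2 : i = j := le_antisymm ((h1 i).mp le_rfl) ((h1 j).mpr le_rfl)
    rw [h2]

lemma psi_lam [Nontrivial G] (ψ : Om G ≃o Om G) : ∃ g : G, ∀ p, ψ p = lam g p := by
  choose f hf using psi_some ψ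
  have hsurj : ∀ i y, ∃ x, f i x = y := by
    intro i y
    obtain ⟨x, hx⟩ := psi_some ψ.symm i y
    refine ⟨x, ?_⟩
    have h1 := hf i x
    rw [← hx, OrderIso.apply_symm_apply] at h1
    simp only [Om.mk.injEq, Option.some.injEq, true_and] at h1
    exact h1.symm
  have hii : ∀ i x y, f i x ≤ f i y ↔ x ≤ y := by
    intro i x y
    have h1 : ∀ x y : G, (⟨i, some x⟩ : Om G) ≤ ⟨i, some y⟩ ↔ x ≤ y := by
      intro x y
      rw [le_def, R_some]
      constructor
      · rintro (⟨_, h⟩ | ⟨s, h, h', _⟩ | ⟨s, h, h', _⟩)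
        · exact h
        · exact absurd (h.symm.trans h') (ja_ne_jd s)
        · exact absurd (h.symm.trans h') (jb_ne_jd s)
      · intro h; exact Or.inl ⟨rfl, h⟩
    rw [← h1, ← hf, ← hf, ψ.le_iff_le, h1]
  have hbd : ∀ s x, f (jd s) x = f (jb G) x := by
    intro s x
    have h1 : ∀ x y : G, (⟨jb G, some x⟩ : Om G) ≤ ⟨jd s, some y⟩ ↔ x ≤ y := by
      intro x y
      rw [le_def, R_some]
      constructor
      · rintro (⟨h, _⟩ | ⟨t, h, h', _⟩ | ⟨t, h, h', h''⟩)
        · exact absurd h (jb_ne_jd s)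
        · exact absurd h.symm (ja_ne_jb G)
        · exact h''
      · intro h; exact Or.inr (Or.inr ⟨s, rfl, rfl, h⟩)
    have h2 : ∀ x y : G, f (jb G) x ≤ f (jd s) y ↔ x ≤ y := by
      intro x y
      rw [← h1, ← hf, ← hf, ψ.le_iff_le, h1]
    apply le_antisymm
    · obtain ⟨y, hy⟩ := hsurj (jd s) (f (jb G) x)
      have h3 : x ≤ y := by rw [← h2, hy]
      rw [← hy]
      exact (hii _ _ _).mpr h3
    · exact (h2 x x).mpr le_rfl
  have had : ∀ s x, f (jd s) (x * s) = f (ja G) x * s := by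
    intro s x
    have h1 : ∀ x y : G, (⟨ja G, some x⟩ : Om G) ≤ ⟨jd s, some y⟩ ↔ x * s ≤ y := by
      intro x y
      rw [le_def, R_some]
      constructor
      · rintro (⟨h, _⟩ | ⟨t, h, h', h''⟩ | ⟨t, h, h', _⟩)
        · exact absurd h (ja_ne_jd s)
        · rw [jd_inj h']; exact h''
        · exact absurd h (ja_ne_jb G)
      · intro h; exact Or.inr (Or.inl ⟨s, rfl, rfl, h⟩)
    have h2 : ∀ x y : G, f (ja G) x * s ≤ f (jd s) y ↔ x * s ≤ y := by
      intro x y
      rw [← h1, ← hf, ← hf, ψ.le_iff_le, h1]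
    apply le_antisymm
    · obtain ⟨y, hy⟩ := hsurj (jd s) (f (ja G) x * s)
      have h3 : x * s ≤ y := by rw [← h2, hy]
      rw [← hy]
      exact (hii _ _ _).mpr h3
    · exact (h2 x _).mpr le_rfl
  have hab : ∀ x, f (jb G) x = f (ja G) x := by
    intro x
    have h1 := had 1 x
    rwa [mul_one, mul_one, hbd] at h1
  have hb : ∀ x, f (jb G) x = f (ja G) 1 * x := by
    intro x
    have h1 := had x 1
    rwa [one_mul, hbd] at h1
  refine ⟨f (ja G) 1, ?_⟩
  rintro ⟨i, _ | x⟩
  · rw [psi_fix]; rfl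
  · rw [hf]
    change (⟨i, some (f i x)⟩ : Om G) = ⟨i, some (f (ja G) 1 * x)⟩
    congr 2
    induction i using WithBot.recBotCoe with
    | bot => exact (hab x).symm.trans (hb x)
    | coe i =>
      induction i using WithBot.recBotCoe with
      | bot => exact hb x
      | coe i => exact (hbd i x).trans (hb x)

/-- Every lattice-ordered group G is isomorphic, as a group and as an ordered set, to the group of order automorphisms of some poset Ω under composition, with automorphisms ordered pointwise. -/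
theorem result :
    ∀ (G : Type) [Group G] [Lattice G] [MulLeftMono G] [MulRightMono G],
      ∃ (Ω : Type) (_ : PartialOrder Ω) (φ : G → (Ω ≃o Ω)),
        Function.Bijective φ ∧
        (∀ a b : G, φ (a * b) = (φ b).trans (φ a)) ∧
        (∀ a b : G, a ≤ b ↔ ∀ x : Ω, φ a x ≤ φ b x) := by
  intro G _ _ _ _
  rcases subsingleton_or_nontrivial G with hG | hG
  · refine ⟨PUnit, inferInstance, fun _ => OrderIso.refl _, ⟨?_, ?_⟩, ?_, ?_⟩
    · intro a b _; exact Subsingleton.elim a b
    · intro ψ; exact ⟨1, OrderIso.ext (funext fun _ => rfl)⟩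
    · intro a b; rfl
    · intro a b
      exact ⟨fun _ _ => le_rfl, fun _ => (Subsingleton.elim a b).le⟩
  · refine ⟨Om G, inferInstance, lamIso, ⟨?_, ?_⟩, ?_, ?_⟩
    · intro a b h
      have h1 : lam a (⟨ja G, some 1⟩ : Om G) = lam b ⟨ja G, some 1⟩ :=
        congrArg (fun ψ : Om G ≃o Om G => ψ ⟨ja G, some 1⟩) h
      simpa [lam] using h1
    · intro ψ
      obtain ⟨g, hg⟩ := psi_lam ψ
      exact ⟨g, OrderIso.ext (funext fun p => (hg p).symm)⟩
    · intro a b
      apply OrderIso.ext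
      funext p
      exact (lam_lam a b p).symm
    · intro a b
      constructor
      · intro h p
        obtain ⟨i, _ | x⟩ := p
        · exact R.qq _ _ le_rfl
        · exact R.oo _ _ _ (mul_le_mul_left h x)
      · intro h
        have h1 := h ⟨ja G, some 1⟩
        change R (⟨ja G, some (a * 1)⟩ : Om G) ⟨ja G, some (b * 1)⟩ at h1
        rw [R_some, mul_one, mul_one] at h1
        rcases h1 with ⟨_, h⟩ | ⟨s, _, h', _⟩ | ⟨s, _, h', _⟩
        · exact h
        · exact absurd h' (ja_ne_jd s)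
        · exact absurd h' (ja_ne_jd s)

end Pool.Agent.S00633
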