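import Pool.Statements.S00746
import Pool.Agent.Helper1.BackForth

set_option autoImplicit false
open Pool Pool.MP_3dd297_al

namespace Pool.Agent.S00746

open Filter Pool.Agent.Helper1
open scoped Nat

abbrev T : Type := ℚ ×ₗ ℚ

def fs (t : ℕ → T) (j : ℕ) : ℚ := (ofLex (t j)).1
def sd (t : ℕ → T) (j : ℕ) : ℚ := (ofLex (t j)).2

/-- The 2-adic absolute value on positive naturals. -/
def dl (m : ℕ) : ℚ := 1 / 2 ^ padicValNat 2 m

theorem dl_pos (m : ℕ) : 0 < dl m := by unfold dl; positivity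

theorem dl_le {n m : ℕ} (hm : m ≠ 0) (h : 2 ^ n ∣ m) : dl m ≤ 1 / 2 ^ n := by
  unfold dl
  have h1 : n ≤ padicValNat 2 m := (padicValNat_dvd_iff_le hm).1 h
  apply one_div_le_one_div_of_le (by positivity)
  exact pow_le_pow_right₀ (by norm_num) h1

theorem dl_int (m : ℕ) : ∃ z : ℤ, (m : ℚ) * dl m = z := by
  obtain ⟨c, hc⟩ := pow_padicValNat_dvd (p := 2) (n := m)
  refine ⟨c, ?_⟩
  unfold dl
  have h2 : (m : ℚ) = 2 ^ padicValNat 2 m * c := by exact_mod_cast hc
  have h3 : (2 : ℚ) ^ padicValNat 2 m ≠ 0 := by positivity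
  rw [h2]
  field_simp
  push_cast
  ring

theorem dl_add {m v w : ℕ} (hv : v ≠ 0) (hvm : v < 2 ^ m) (hw : 2 ^ m ∣ w) :
    dl (v + w) = dl v := by
  unfold dl
  have h0 : padicValNat 2 v < m := by
    by_contra hcon
    push Not at hcon
    have : 2 ^ m ∣ v := (padicValNat_dvd_iff_le hv).2 hcon
    exact absurd (Nat.le_of_dvd (Nat.pos_of_ne_zero hv) this) (not_le.2 hvm)
  have key : padicValNat 2 (v + w) = padicValNat 2 v := by
    apply le_antisymm
    · by_contra hcon
      push Not at hcon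
      have h1 : 2 ^ (padicValNat 2 v + 1) ∣ v + w :=
        (padicValNat_dvd_iff_le (by omega)).2 hcon
      have h2 : 2 ^ (padicValNat 2 v + 1) ∣ w := dvd_trans (pow_dvd_pow 2 h0) hw
      have h3 : 2 ^ (padicValNat 2 v + 1) ∣ v := (Nat.dvd_add_left h2).1 h1
      have h4 := (padicValNat_dvd_iff_le hv).1 h3
      omega
    · have h1 : 2 ^ (padicValNat 2 v) ∣ v := pow_padicValNat_dvd
      have h2 : 2 ^ (padicValNat 2 v) ∣ w := dvd_trans (pow_dvd_pow 2 h0.le) hw
      exact (padicValNat_dvd_iff_le (by omega)).1 (dvd_add h1 h2)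
  rw [key]

/-- Level condition. -/
def P (n : ℕ) (t : ℕ → T) : Prop :=
  ∀ j, 2 ^ n ≤ j → t j = toLex (fs t (j % 2 ^ n) + sd t (j % 2 ^ n) * dl (j - j % 2 ^ n), 0)

theorem P.fs_eq {n : ℕ} {t : ℕ → T} (h : P n t) {j : ℕ} (hj : 2 ^ n ≤ j) :
    fs t j = fs t (j % 2 ^ n) + sd t (j % 2 ^ n) * dl (j - j % 2 ^ n) := by
  conv_lhs => rw [fs, h j hj]
  simp

theorem P.sd_eq {n : ℕ} {t : ℕ → T} (h : P n t) {j : ℕ} (hj : 2 ^ n ≤ j) :
    sd t j = 0 := by
  rw [sd, h j hj]
  simp

theorem ext' {t : ℕ → T} {j : ℕ} {a b : ℚ} (h1 : fs t j = a) (h2 : sd t j = b) :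
    t j = toLex (a, b) := by
  rw [← h1, ← h2]
  rfl

theorem P.eq_of {n m : ℕ} {t : ℕ → T} (h : P n t) (hnm : n ≤ m) {j : ℕ} (hj : 2 ^ m ≤ j)
    (hv : 2 ^ n ≤ j % 2 ^ m) : t j = t (j % 2 ^ m) := by
  have hnj : 2 ^ n ≤ j := le_trans (Nat.pow_le_pow_right (by norm_num) hnm) hj
  have hmod : j % 2 ^ m % 2 ^ n = j % 2 ^ n := Nat.mod_mod_of_dvd _ (pow_dvd_pow 2 hnm)
  rw [h j hnj, h _ hv, hmod]
  have hlt : j % 2 ^ n < 2 ^ n := Nat.mod_lt _ (by positivity)
  have hltm : j % 2 ^ m < 2 ^ m := Nat.mod_lt _ (by positivity)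
  have hd : 2 ^ m ∣ j - j % 2 ^ m := Nat.dvd_sub_mod j
  have e : j - j % 2 ^ n = (j % 2 ^ m - j % 2 ^ n) + (j - j % 2 ^ m) := by
    have := Nat.mod_le j (2 ^ m)
    omega
  rw [e, dl_add (m := m) (by omega) (by omega) hd]

theorem P.mono {n m : ℕ} {t : ℕ → T} (h : P n t) (hnm : n ≤ m) : P m t := by
  intro j hj
  have hnj : 2 ^ n ≤ j := le_trans (Nat.pow_le_pow_right (by norm_num) hnm) hj
  have hmod : j % 2 ^ m % 2 ^ n = j % 2 ^ n := Nat.mod_mod_of_dvd _ (pow_dvd_pow 2 hnm)
  by_cases hv : j % 2 ^ m < 2 ^ n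
  · have e : j % 2 ^ m = j % 2 ^ n := by
      rw [← hmod]; exact (Nat.mod_eq_of_lt hv).symm
    rw [e]
    exact h j hnj
  · push Not at hv
    have e1 := h.eq_of hnm hj hv
    rw [h.sd_eq hv, zero_mul, add_zero, e1]
    exact ext' rfl (h.sd_eq hv)

/-- The group. -/
def GG : AddSubgroup (ℕ → T) where
  carrier := {t | (∀ j, ∃ z : ℤ, (j ! : ℚ) * fs t j = z) ∧ ∃ n, P n t}
  zero_mem' := by
    refine ⟨fun j => ⟨0, by simp [fs]⟩, 0, fun j _ => ?_⟩
    simp [fs, sd]
    rfl
  add_mem' := by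
    rintro a b ⟨ha, n, hn⟩ ⟨hb, m, hm⟩
    refine ⟨fun j => ?_, max n m, fun j hj => ?_⟩
    · obtain ⟨z, hz⟩ := ha j
      obtain ⟨w, hw⟩ := hb j
      refine ⟨z + w, ?_⟩
      have : fs (a + b) j = fs a j + fs b j := rfl
      rw [this, mul_add, hz, hw]
      push_cast; ring
    · have h1 := hn.mono (le_max_left n m)
      have h2 := hm.mono (le_max_right n m)
      have e1 : ∀ j, fs (a + b) j = fs a j + fs b j := fun _ => rfl
      have e2 : ∀ j, sd (a + b) j = sd a j + sd b j := fun _ => rfl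
      apply ext'
      · rw [e1, e1, e2, h1.fs_eq hj, h2.fs_eq hj]; ring
      · rw [e2, h1.sd_eq hj, h2.sd_eq hj]; simp
  neg_mem' := by
    rintro a ⟨ha, n, hn⟩
    refine ⟨fun j => ?_, n, fun j hj => ?_⟩
    · obtain ⟨z, hz⟩ := ha j
      refine ⟨-z, ?_⟩
      have : fs (-a) j = - fs a j := rfl
      rw [this, mul_neg, hz]
      push_cast; ring
    · have e1 : ∀ j, fs (-a) j = - fs a j := fun _ => rfl
      have e2 : ∀ j, sd (-a) j = - sd a j := fun _ => rfl
      apply ext'
      · rw [e1, e1, e2, hn.fs_eq hj]; ring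
      · rw [e2, hn.sd_eq hj]; simp

theorem mem_GG {t : ℕ → T} : t ∈ GG ↔ (∀ j, ∃ z : ℤ, (j ! : ℚ) * fs t j = z) ∧ ∃ n, P n t :=
  Iff.rfl

theorem pos_iff (t : ℕ → T) (j : ℕ) : 0 < t j ↔ 0 < fs t j ∨ (fs t j = 0 ∧ 0 < sd t j) := by
  have h : (0 : T) = toLex (0, 0) := rfl
  have h2 : t j = toLex (fs t j, sd t j) := rfl
  conv_lhs => rw [h, h2]
  rw [Prod.Lex.toLex_lt_toLex]
  simp only
  constructor
  · rintro (h | ⟨h, h'⟩)
    · exact Or.inl h
    · exact Or.inr ⟨h.symm, h'⟩
  · rintro (h | ⟨h, h'⟩)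
    · exact Or.inl h
    · exact Or.inr ⟨h.symm, h'⟩

theorem ev (b c : ℚ) (hc : 0 < c) :
    ∀ᶠ m : ℕ in atTop, ∀ d : ℚ, 0 < d → d ≤ 1 / 2 ^ m → |b * d| < c := by
  have h1 : Tendsto (fun m : ℕ => |b| * (1 / 2 : ℚ) ^ m) atTop (nhds (|b| * 0)) :=
    (tendsto_pow_atTop_nhds_zero_of_lt_one (by norm_num) (by norm_num)).const_mul _
  rw [mul_zero] at h1
  filter_upwards [h1.eventually (gt_mem_nhds hc)] with m hm d hd hdm
  rw [abs_mul, abs_of_pos hd]
  refine lt_of_le_of_lt (mul_le_mul_of_nonneg_left hdm (abs_nonneg b)) ?_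
  simpa [one_div, inv_pow] using hm

theorem sign_lem {n : ℕ} {D : ℕ → T} (h : P n D) :
    ∀ᶠ m in atTop, ∀ j, (0 < D j ↔ 0 < D (j % 2 ^ m)) := by
  have h1 : ∀ u ∈ Finset.range (2 ^ n), ∀ᶠ m : ℕ in atTop, ∀ d : ℚ, 0 < d → d ≤ 1 / 2 ^ m →
      (0 < fs D u + sd D u * d ↔ 0 < D u) := by
    intro u _
    rcases lt_trichotomy (fs D u) 0 with h0 | h0 | h0
    · filter_upwards [ev (sd D u) (- fs D u) (by linarith)] with m hm d hd hdm
      have h2 := abs_lt.1 (hm d hd hdm)
      rw [pos_iff]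
      constructor
      · intro h3; linarith [h2.2]
      · rintro (h3 | h3)
        · linarith
        · linarith [h3.1]
    · refine Eventually.of_forall fun m d hd _ => ?_
      rw [pos_iff, h0, zero_add]
      simp [hd]
    · filter_upwards [ev (sd D u) (fs D u) h0] with m hm d hd hdm
      have h2 := abs_lt.1 (hm d hd hdm)
      rw [pos_iff]
      constructor
      · intro _; exact Or.inl h0
      · intro _; linarith [h2.1]
  have h2 := (Filter.eventually_all_finset (Finset.range (2 ^ n))).2 h1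
  filter_upwards [h2, eventually_ge_atTop n] with m hm hnm j
  by_cases hj : j < 2 ^ m
  · rw [Nat.mod_eq_of_lt hj]
  push Not at hj
  by_cases hv : j % 2 ^ m < 2 ^ n
  · have hnj : 2 ^ n ≤ j := le_trans (Nat.pow_le_pow_right (by norm_num) hnm) hj
    have hmod : j % 2 ^ m % 2 ^ n = j % 2 ^ n := Nat.mod_mod_of_dvd _ (pow_dvd_pow 2 hnm)
    have e : j % 2 ^ m = j % 2 ^ n := by
      rw [← hmod]; exact (Nat.mod_eq_of_lt hv).symm
    have hltm : j % 2 ^ m < 2 ^ m := Nat.mod_lt _ (by positivity)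
    have hd : dl (j - j % 2 ^ m) ≤ 1 / 2 ^ m := dl_le (by omega) (Nat.dvd_sub_mod j)
    have h3 := hm (j % 2 ^ m) (Finset.mem_range.2 hv) _ (dl_pos _) hd
    rw [← h3, pos_iff, h.fs_eq hnj, h.sd_eq hnj, ← e]
    simp
  · push Not at hv
    rw [h.eq_of hnm hj hv]

theorem ite_mem {D E : ℕ → T} (hD : D ∈ GG) (hE : E ∈ GG) :
    (fun x => if 0 < D x then E x else 0) ∈ GG := by
  obtain ⟨hDi, n, hDn⟩ := hD
  obtain ⟨hEi, n', hEn⟩ := hE
  obtain ⟨m, hm, hmn⟩ := ((sign_lem hDn).and (eventually_ge_atTop n')).exists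
  have hEm := hEn.mono hmn
  set t : ℕ → T := fun x => if 0 < D x then E x else 0 with ht
  have f1 : ∀ j, 0 < D j → fs t j = fs E j ∧ sd t j = sd E j := by
    intro j hj
    simp [fs, sd, ht, hj]
  have f2 : ∀ j, ¬ 0 < D j → fs t j = 0 ∧ sd t j = 0 := by
    intro j hj
    simp [fs, sd, ht, hj]
  refine ⟨fun j => ?_, m, fun j hj => ?_⟩
  · by_cases h : 0 < D j
    · rw [(f1 j h).1]; exact hEi j
    · rw [(f2 j h).1]; exact ⟨0, by simp⟩
  · by_cases h : 0 < D j
    · have h' := (hm j).1 h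
      rw [(f1 _ h').1, (f1 _ h').2]
      exact ext' ((f1 j h).1.trans (hEm.fs_eq hj)) ((f1 j h).2.trans (hEm.sd_eq hj))
    · have h' : ¬ 0 < D (j % 2 ^ m) := fun h2 => h ((hm j).2 h2)
      rw [(f2 _ h').1, (f2 _ h').2]
      exact ext' (by rw [(f2 j h).1]; simp) (f2 j h).2

open Classical in
theorem half_mem {D : ℕ → T} (hD : D ∈ GG) :
    ∃ E ∈ GG, ∀ x, 0 < D x → 0 < E x ∧ E x < D x := by
  obtain ⟨hDi, n, hDn⟩ := hD
  have h1 : ∀ u ∈ Finset.range (2 ^ n), ∀ᶠ m : ℕ in atTop, ∀ d : ℚ, 0 < d → d ≤ 1 / 2 ^ m →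
      0 < fs D u → fs D u * d < fs D u + sd D u * d := by
    intro u _
    by_cases h0 : 0 < fs D u
    · filter_upwards [ev (fs D u - sd D u) (fs D u) h0] with m hm d hd hdm _
      have h2 := abs_lt.1 (hm d hd hdm)
      nlinarith [h2.2]
    · exact Eventually.of_forall fun m d _ _ h => absurd h h0
  have h2 : ∀ u ∈ Finset.range (2 ^ n), ∀ᶠ m : ℕ in atTop, (sd D u / 2).den < 2 ^ m := by
    intro u _
    have : Tendsto (fun m : ℕ => 2 ^ m) atTop atTop := tendsto_pow_atTop_atTop_of_one_lt (by norm_num)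
    exact this.eventually_gt_atTop _
  obtain ⟨m, ⟨⟨⟨hm1, hm2⟩, hm3⟩, hmn⟩, hm0⟩ :=
    ((((((Filter.eventually_all_finset (Finset.range (2 ^ n))).2 h1).and
      ((Filter.eventually_all_finset (Finset.range (2 ^ n))).2 h2)).and (sign_lem hDn)).and
      (eventually_ge_atTop n)).and (eventually_ge_atTop 1)).exists
  have hDm := hDn.mono hmn
  let ε : ℕ → ℚ := fun v => if 0 < fs D v then fs D v else
    if fs D v = 0 ∧ 0 < sd D v then sd D v / 2 else 0
  let E : ℕ → T := fun j => if j < 2 ^ m then toLex (0, ε j) else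
    toLex (ε (j % 2 ^ m) * dl (j - j % 2 ^ m), 0)
  have E1 : ∀ j, j < 2 ^ m → fs E j = 0 ∧ sd E j = ε j := by
    intro j hj
    simp [fs, sd, E, hj]
  have E2 : ∀ j, ¬ j < 2 ^ m → fs E j = ε (j % 2 ^ m) * dl (j - j % 2 ^ m) ∧ sd E j = 0 := by
    intro j hj
    simp [fs, sd, E, hj]
  refine ⟨E, ⟨fun j => ?_, m, fun j hj => ?_⟩, fun x hx => ?_⟩
  · -- integrality
    by_cases hj : j < 2 ^ m
    · rw [(E1 j hj).1]; exact ⟨0, by simp⟩
    rw [(E2 j hj).1]
    push Not at hj
    set v := j % 2 ^ m with hv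
    have hvlt : v < 2 ^ m := Nat.mod_lt _ (by positivity)
    have hdvd : 2 ^ m ∣ j - v := Nat.dvd_sub_mod j
    have hpos : 0 < j - v := by omega
    have hge : 2 ^ m ≤ j - v := Nat.le_of_dvd hpos hdvd
    obtain ⟨y, hy⟩ := dl_int (j - v)
    obtain ⟨c, hc⟩ := Nat.factorial_mul_factorial_dvd_factorial (show v ≤ j by omega)
    have hfac : (j - v) ! = (j - v) * (j - v - 1) ! := (Nat.mul_factorial_pred (by omega)).symm
    have hjq : (j ! : ℚ) = (v ! : ℚ) * (((j - v : ℕ) : ℚ) * ((j - v - 1) ! : ℚ)) * c := by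
      rw [hc, hfac]; push_cast; ring
    by_cases c1 : 0 < fs D v
    · have : ε v = fs D v := by simp [ε, c1]
      rw [this]
      obtain ⟨z, hz⟩ := hDi v
      refine ⟨z * y * (j - v - 1)! * c, ?_⟩
      rw [hjq]
      push_cast
      rw [← hz, ← hy]
      ring
    · by_cases c2 : fs D v = 0 ∧ 0 < sd D v
      · have : ε v = sd D v / 2 := by simp [ε, c1, c2]
        rw [this]
        have hvn : v < 2 ^ n := by
          by_contra hcon
          push Not at hcon
          have := hDn.sd_eq hcon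
          rw [this] at c2
          exact absurd c2.2 (lt_irrefl _)
        have hden := hm2 v (Finset.mem_range.2 hvn)
        have hd2 : (sd D v / 2).den ∣ (j - v - 1)! :=
          Nat.dvd_factorial (Rat.den_pos _) (by omega)
        obtain ⟨k, hk⟩ := hd2
        have hk' : ((j - v - 1)! : ℚ) * (sd D v / 2) = k * (sd D v / 2).num := by
          rw [hk]
          push_cast
          have := Rat.den_mul_eq_num (sd D v / 2)
          rw [mul_comm ((sd D v / 2).den : ℚ) (k : ℚ), mul_assoc, this]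
        refine ⟨v ! * y * (k * (sd D v / 2).num) * c, ?_⟩
        rw [hjq]
        push_cast
        rw [← hk', ← hy]
        ring
      · have : ε v = 0 := by simp [ε, c1, c2]
        rw [this]
        exact ⟨0, by simp⟩
  · have hvlt : j % 2 ^ m < 2 ^ m := Nat.mod_lt _ (by positivity)
    rw [(E1 _ hvlt).1, (E1 _ hvlt).2]
    exact ext' (by rw [(E2 j (not_lt.2 hj)).1]; ring) (E2 j (not_lt.2 hj)).2
  · have hlt : ∀ a b : ℚ × ℚ, (toLex a : T) < toLex b ↔ a.1 < b.1 ∨ (a.1 = b.1 ∧ a.2 < b.2) :=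
      fun a b => Prod.Lex.toLex_lt_toLex
    by_cases hxm : x < 2 ^ m
    · rw [pos_iff, (E1 x hxm).1, (E1 x hxm).2]
      have hEx : E x = toLex (0, ε x) := ext' (E1 x hxm).1 (E1 x hxm).2
      have hDx : D x = toLex (fs D x, sd D x) := rfl
      rw [hEx, hDx, hlt]
      simp only
      rcases (pos_iff D x).1 hx with h | h
      · have : ε x = fs D x := by simp [ε, h]
        rw [this]
        exact ⟨Or.inr ⟨trivial, h⟩, Or.inl h⟩
      · have : ε x = sd D x / 2 := by
          have h' : ¬ 0 < fs D x := by rw [h.1]; exact lt_irrefl _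
          simp only [ε, if_neg h', if_pos h]
        rw [this, h.1]
        exact ⟨Or.inr ⟨trivial, by linarith [h.2]⟩, Or.inr ⟨rfl, by linarith [h.2]⟩⟩
    · have hxm' := hxm
      push Not at hxm'
      set v := x % 2 ^ m with hv
      have hvlt : v < 2 ^ m := Nat.mod_lt _ (by positivity)
      have hdvd : 2 ^ m ∣ x - v := Nat.dvd_sub_mod x
      have hpos : 0 < x - v := by omega
      have hd := dl_le hpos.ne' hdvd
      have hd0 := dl_pos (x - v)
      set d := dl (x - v) with hdd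
      have hEx : E x = toLex (ε v * d, 0) := ext' (E2 x hxm).1 (E2 x hxm).2
      have hDx : D x = toLex (fs D v + sd D v * d, 0) :=
        ext' (hDm.fs_eq hxm') (hDm.sd_eq hxm')
      have h0 : (0 : T) = toLex (0, 0) := rfl
      rw [hEx, hDx, h0, hlt, hlt]
      simp only
      have hv0 := (hm3 x).1 hx
      rcases (pos_iff D v).1 hv0 with h | h
      · have e : ε v = fs D v := by simp [ε, h]
        rw [e]
        refine ⟨Or.inl (by positivity), Or.inl ?_⟩
        by_cases hvn : v < 2 ^ n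
        · exact hm1 v (Finset.mem_range.2 hvn) d hd0 hd h
        · push Not at hvn
          rw [hDn.sd_eq hvn]
          have : d < 1 := by
            refine lt_of_le_of_lt hd ?_
            rw [div_lt_one (by positivity)]
            exact one_lt_pow₀ (by norm_num) (by omega)
          nlinarith
      · have e : ε v = sd D v / 2 := by
          have h' : ¬ 0 < fs D v := by rw [h.1]; exact lt_irrefl _
          simp only [ε, if_neg h', if_pos h]
        rw [e, h.1]
        have h2 := h.2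
        refine ⟨Or.inl (by positivity), Or.inl (by nlinarith)⟩

/-- Constants. -/
def cst (c : ℚ) : ℕ → T := fun _ => toLex (c, 0)

theorem cst_mem (c : ℤ) : cst c ∈ GG := by
  refine ⟨fun j => ⟨j ! * c, by simp [fs, cst]⟩, 0, fun j _ => ?_⟩
  simp [fs, sd, cst]

theorem hyp : BackForth.Hyp (GG : Set (ℕ → T)) where
  ite := by
    intro f hf g hg h hh k hk
    have e : (fun x => if f x < g x then h x else k x) =
        k + (fun x => if 0 < (g - f) x then (h - k) x else 0) := by
      funext x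
      simp only [Pi.add_apply, Pi.sub_apply, sub_pos]
      split_ifs <;> simp
    rw [e]
    exact GG.add_mem hk (ite_mem (GG.sub_mem hg hf) (GG.sub_mem hh hk))
  dense := by
    intro f hf g hg
    obtain ⟨E, hE, hE'⟩ := half_mem (GG.sub_mem hg hf)
    refine ⟨f + E, GG.add_mem hf hE, fun x hx => ?_⟩
    have h1 := hE' x (by simpa using hx)
    constructor
    · simpa using h1.1
    · have := h1.2
      simp only [Pi.sub_apply] at this
      simp only [Pi.add_apply]
      rw [add_comm]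
      exact lt_sub_iff_add_lt.1 this
  top := by
    intro f hf
    refine ⟨f + cst (1 : ℤ), GG.add_mem hf (cst_mem 1), fun x => ?_⟩
    have : (0 : T) < cst (1 : ℤ) x := by
      rw [pos_iff]
      left
      simp [fs, cst]
    simpa using this
  bot := by
    intro f hf
    refine ⟨f - cst (1 : ℤ), GG.sub_mem hf (cst_mem 1), fun x => ?_⟩
    have : (0 : T) < cst (1 : ℤ) x := by
      rw [pos_iff]
      left
      simp [fs, cst]
    simpa using this

theorem countable_GG : (GG : Set (ℕ → T)).Countable := by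
  have h : (GG : Set (ℕ → T)) ⊆ ⋃ n : ℕ, {t | P n t} := by
    rintro t ⟨_, n, hn⟩
    exact Set.mem_iUnion.2 ⟨n, hn⟩
  refine Set.Countable.mono h (Set.countable_iUnion fun n => ?_)
  let ρ : (ℕ → T) → (Fin (2 ^ n) → ℚ × ℚ) := fun t i => ofLex (t i)
  have hinj : Set.InjOn ρ {t | P n t} := by
    intro a ha b hb hab
    have hlow : ∀ j, j < 2 ^ n → a j = b j := by
      intro j hj
      have := congrFun hab ⟨j, hj⟩
      exact ofLex.injective this
    funext j
    by_cases hj : j < 2 ^ n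
    · exact hlow j hj
    · push Not at hj
      have hv := hlow (j % 2 ^ n) (Nat.mod_lt _ (by positivity))
      rw [ha j hj, hb j hj]
      simp only [fs, sd, hv]
  have : (ρ '' {t | P n t}).Countable := Set.to_countable _
  exact Set.countable_of_injective_of_countable_image hinj this

/-- Element with a prescribed value at `i`. -/
theorem exists_val (i : ℕ) (z : ℤ) : ∃ t ∈ GG, (i ! : ℚ) * fs t i = z := by
  classical
  have hi : i < 2 ^ i := Nat.lt_two_pow_self
  let t : ℕ → T := fun j => if j % 2 ^ i = i then toLex ((z : ℚ) / i !, 0) else 0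
  have t1 : ∀ j, j % 2 ^ i = i → fs t j = (z : ℚ) / i ! ∧ sd t j = 0 := by
    intro j hj
    simp [fs, sd, t, hj]
  have t2 : ∀ j, ¬ j % 2 ^ i = i → fs t j = 0 ∧ sd t j = 0 := by
    intro j hj
    simp [fs, sd, t, hj]
  have hfac : (i ! : ℚ) ≠ 0 := by exact_mod_cast Nat.factorial_ne_zero i
  refine ⟨t, ⟨fun j => ?_, i, fun j hj => ?_⟩, ?_⟩
  · by_cases h : j % 2 ^ i = i
    · rw [(t1 j h).1]
      have hle : i ≤ j := by
        have := Nat.mod_le j (2 ^ i)
        omega
      obtain ⟨c, hc⟩ := Nat.factorial_dvd_factorial hle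
      refine ⟨c * z, ?_⟩
      rw [hc]
      push_cast
      field_simp
    · rw [(t2 j h).1]; exact ⟨0, by simp⟩
  · by_cases h : j % 2 ^ i = i
    · have h' : j % 2 ^ i % 2 ^ i = i := by rw [Nat.mod_mod, h]
      rw [(t1 _ h').1, (t1 _ h').2]
      exact ext' (by rw [(t1 j h).1]; ring) (t1 j h).2
    · have h' : ¬ j % 2 ^ i % 2 ^ i = i := by rw [Nat.mod_mod]; exact h
      rw [(t2 _ h').1, (t2 _ h').2]
      exact ext' (by rw [(t2 j h).1]; ring) (t2 j h).2
  · have h : i % 2 ^ i = i := Nat.mod_eq_of_lt hi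
    rw [(t1 i h).1]
    field_simp

instance latGG : Lattice GG :=
  Subtype.lattice (P := fun t : ℕ → T => t ∈ GG)
    (fun _ _ hx hy => BackForth.Hyp.sup hyp hx hy) (fun _ _ hx hy => BackForth.Hyp.inf hyp hx hy)

theorem le_def' (a b : GG) : a ≤ b ↔ ∀ x, a.1 x ≤ b.1 x := Iff.rfl

instance ordGG : IsOrderedAddMonoid GG where
  add_le_add_left := by
    intro a b h c x
    exact add_le_add_left (h x) (c.1 x)

/-- The integer coordinate. -/
noncomputable def coord (t : GG) (j : ℕ) : ℤ := (t.2.1 j).choose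

theorem coord_spec (t : GG) (j : ℕ) : (j ! : ℚ) * fs t.1 j = coord t j := (t.2.1 j).choose_spec

theorem coord_add (s t : GG) (j : ℕ) : coord (s + t) j = coord s j + coord t j := by
  have h : fs (s + t : GG).1 j = fs s.1 j + fs t.1 j := rfl
  have : (coord (s + t) j : ℚ) = coord s j + coord t j := by
    rw [← coord_spec, ← coord_spec, ← coord_spec, h]; ring
  exact_mod_cast this

theorem coord_mono {s t : GG} {j : ℕ} (h : s.1 j ≤ t.1 j) : coord s j ≤ coord t j := by
  have h1 : fs s.1 j ≤ fs t.1 j := by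
    have h2 : s.1 j = toLex (fs s.1 j, sd s.1 j) := rfl
    have h3 : t.1 j = toLex (fs t.1 j, sd t.1 j) := rfl
    rw [h2, h3, Prod.Lex.toLex_le_toLex] at h
    rcases h with h | h
    · exact h.le
    · exact h.1.le
  have : (coord s j : ℚ) ≤ coord t j := by
    rw [← coord_spec, ← coord_spec]
    exact mul_le_mul_of_nonneg_left h1 (by positivity)
  exact_mod_cast this

theorem coord_sup (s t : GG) (j : ℕ) : coord (s ⊔ t) j = coord s j ⊔ coord t j := by
  have e : (s ⊔ t).1 j = s.1 j ⊔ t.1 j := rfl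
  have hc : ∀ a b : GG, a.1 j = b.1 j → coord a j = coord b j := fun a b h =>
    le_antisymm (coord_mono h.le) (coord_mono h.ge)
  rcases le_total (s.1 j) (t.1 j) with h | h
  · rw [sup_eq_right.2 (coord_mono h)]
    exact hc _ _ (by rw [e]; exact sup_eq_right.2 h)
  · rw [sup_eq_left.2 (coord_mono h)]
    exact hc _ _ (by rw [e]; exact sup_eq_left.2 h)

theorem coord_inf (s t : GG) (j : ℕ) : coord (s ⊓ t) j = coord s j ⊓ coord t j := by
  have e : (s ⊓ t).1 j = s.1 j ⊓ t.1 j := rfl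
  have hc : ∀ a b : GG, a.1 j = b.1 j → coord a j = coord b j := fun a b h =>
    le_antisymm (coord_mono h.le) (coord_mono h.ge)
  rcases le_total (s.1 j) (t.1 j) with h | h
  · rw [inf_eq_left.2 (coord_mono h)]
    exact hc _ _ (by rw [e]; exact inf_eq_left.2 h)
  · rw [inf_eq_right.2 (coord_mono h)]
    exact hc _ _ (by rw [e]; exact inf_eq_right.2 h)

theorem coord_inj {s t : GG} (h : ∀ j, coord s j = coord t j) : s = t := by
  have hfs : ∀ j, fs s.1 j = fs t.1 j := by
    intro j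
    have hfac : (j ! : ℚ) ≠ 0 := by exact_mod_cast Nat.factorial_ne_zero j
    apply mul_left_cancel₀ hfac
    rw [coord_spec, coord_spec, h j]
  obtain ⟨n, hn⟩ := s.2.2
  obtain ⟨m, hm⟩ := t.2.2
  apply Subtype.ext
  funext j
  refine (ext' (hfs j) ?_).trans rfl
  obtain ⟨M, hM1, hM2, hM3⟩ : ∃ M, n ≤ M ∧ m ≤ M ∧ j < M :=
    ⟨max (max n m) (j + 1), le_trans (le_max_left _ _) (le_max_left _ _),
      le_trans (le_max_right _ _) (le_max_left _ _), lt_of_lt_of_le (Nat.lt_succ_self j) (le_max_right _ _)⟩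
  have hs := hn.mono hM1
  have ht := hm.mono hM2
  have hjM : j < 2 ^ M := lt_trans hM3 Nat.lt_two_pow_self
  have hk : 2 ^ M ≤ j + 2 ^ M := by omega
  have hmod : (j + 2 ^ M) % 2 ^ M = j := by
    rw [Nat.add_mod_right, Nat.mod_eq_of_lt hjM]
  have e1 := hs.fs_eq hk
  have e2 := ht.fs_eq hk
  rw [hmod] at e1 e2
  have e3 := hfs (j + 2 ^ M)
  rw [e1, e2, hfs j] at e3
  have hd := (dl_pos (j + 2 ^ M - j)).ne'
  have e4 := add_left_cancel e3
  exact mul_right_cancel₀ hd e4

/-- The negation of the preceding statement: Let an abelian lattice-ordered group be an ℓ-subgroup of a product of copies of ℤ, with every projection onto ℤ surjective. Then any group operation on the same lattice, with the same zero and order-compatible translations on both sides, equals the original addition. -/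
theorem result :
    ¬ (∀ (G : Type) [AddCommGroup G] [Lattice G] [IsOrderedAddMonoid G],
      (∃ (I : Type) (f : G →+ (I → ℤ)),
        Function.Injective f ∧
        (∀ x y : G, f (x ⊔ y) = f x ⊔ f y) ∧
        (∀ x y : G, f (x ⊓ y) = f x ⊓ f y) ∧
        (∀ i : I, Function.Surjective (fun x : G => f x i))) →
      ∀ op : G → G → G,
        (∀ a b c : G, op (op a b) c = op a (op b c)) →
        (∀ a : G, op 0 a = a ∧ op a 0 = a) →
        (∀ a : G, ∃ b : G, op a b = 0 ∧ op b a = 0) →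
        (∀ a b c : G, a ≤ b → op c a ≤ op c b ∧ op a c ≤ op b c) →
        ∀ x y : G, op x y = x + y) := by
  classical
  intro hall
  let c : ℤ → GG := fun z => ⟨cst z, cst_mem z⟩
  have hc : ∀ a b : ℤ, ∀ x, (c a).1 x < (c b).1 x ↔ a < b := by
    intro a b x
    show (toLex ((a : ℚ), (0 : ℚ)) : T) < toLex ((b : ℚ), (0 : ℚ)) ↔ a < b
    rw [Prod.Lex.toLex_lt_toLex]
    simp
  let F0 : Finset (GG × GG) := {(c 0, c 0), (c 1, c 1), (c 2, c 3)}
  have hF0 : @BackForth.IsPI ℕ T _ (GG : Set (ℕ → T)) F0 := by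
    intro p hp q hq x
    simp only [F0, Finset.mem_insert, Finset.mem_singleton] at hp hq
    rcases hp with rfl | rfl | rfl <;> rcases hq with rfl | rfl | rfl <;>
      simp only [hc] <;> norm_num
  obtain ⟨Φ, hΦ, hΦ0⟩ := @BackForth.main ℕ T _ (GG : Set (ℕ → T)) hyp countable_GG F0 hF0
  let Ψ : GG ≃ GG := Φ
  have hΨ : ∀ a b : GG, a ≤ b ↔ Ψ a ≤ Ψ b := by
    intro a b
    rw [le_def', le_def']
    refine forall_congr' fun x => ?_
    have := hΦ b a x
    constructor
    · intro h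
      exact not_lt.1 fun h' => absurd (this.2 h') (not_lt.2 h)
    · intro h
      exact not_lt.1 fun h' => absurd (this.1 h') (not_lt.2 h)
  have hc0 : c 0 = 0 := by
    apply Subtype.ext
    funext x
    simp [c, cst]
  have h0 : Ψ 0 = 0 := by
    have := hΦ0 (c 0, c 0) (by simp [F0])
    rw [← hc0]
    exact this
  have h1 : Ψ (c 1) = c 1 := hΦ0 (c 1, c 1) (by simp [F0])
  have h2 : Ψ (c 2) = c 3 := hΦ0 (c 2, c 3) (by simp [F0])
  have hs0 : Ψ.symm 0 = 0 := by rw [Equiv.symm_apply_eq, h0]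
  have key := hall GG ⟨ℕ, { toFun := coord
                            map_zero' := by
                              funext j
                              have := coord_add 0 0 j
                              rw [add_zero] at this
                              simpa using this
                            map_add' := fun s t => by funext j; exact coord_add s t j },
    fun s t h => coord_inj fun j => congrFun h j,
    fun s t => by funext j; exact coord_sup s t j,
    fun s t => by funext j; exact coord_inf s t j,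
    fun i z => by
      obtain ⟨t, ht, hz⟩ := exists_val i z
      refine ⟨⟨t, ht⟩, ?_⟩
      have := coord_spec ⟨t, ht⟩ i
      rw [hz] at this
      exact_mod_cast this.symm⟩
    (fun a b => Ψ.symm (Ψ a + Ψ b))
    (fun a b c => by simp [add_assoc])
    (fun a => by simp [h0])
    (fun a => ⟨Ψ.symm (-Ψ a), by simp [hs0], by simp [hs0]⟩)
    (fun a b d h => by
      have e : ∀ a b : GG, a ≤ b → Ψ.symm a ≤ Ψ.symm b := by
        intro a b h
        rw [hΨ]
        simpa using h
      exact ⟨e _ _ (add_le_add_right ((hΨ a b).1 h) _), e _ _ (add_le_add_left ((hΨ a b).1 h) _)⟩)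
    (c 1) (c 1)
  have hcadd : c 1 + c 1 = c 2 := by
    apply Subtype.ext
    funext x
    show (toLex ((((1 : ℤ) : ℚ)), (0 : ℚ)) : T) + toLex ((((1 : ℤ) : ℚ)), (0 : ℚ)) = toLex ((((2 : ℤ) : ℚ)), (0 : ℚ))
    rw [← toLex_add]
    norm_num
  rw [h1, hcadd, Equiv.symm_apply_eq, h2] at key
  have h3 := (hc 2 3 0).2 (by norm_num)
  rw [key] at h3
  exact lt_irrefl _ h3

end Pool.Agent.S00746
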