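import Pool.Statements.S00782

set_option autoImplicit false
open Pool Pool.MP_42baf1_al

namespace Pool.Agent.S00782

open Equiv

/-- The rotation. -/
abbrev ra (k : ℕ) : Perm (Fin (k + 1)) := finRotate (k + 1)

abbrev z (k : ℕ) : Fin (k + 1) := ⟨0, Nat.succ_pos k⟩

/-- The second generator. -/
def rb (k : ℕ) : Perm (Fin (k + 1)) := swap (z k) (ra k (z k)) * (ra k * ra k)

theorem ra_val (k : ℕ) (i : Fin (k + 1)) :
    (ra k i).val = if i.val = k then 0 else i.val + 1 := by
  rw [coe_finRotate]
  simp only [Fin.ext_iff, Fin.val_last]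

theorem rb_val (k : ℕ) (hk : 3 ≤ k) (i : Fin (k + 1)) :
    (rb k i).val = if i.val + 1 < k then i.val + 2 else if i.val + 1 = k then 1 else 0 := by
  unfold rb
  rw [Perm.mul_apply, Perm.mul_apply, swap_apply_def]
  have h1 := ra_val k i
  have h2 := ra_val k (ra k i)
  have h3 := ra_val k (z k)
  have h4 : (z k).val = 0 := rfl
  have h5 := i.2
  simp only [Fin.ext_iff]
  split_ifs at * <;> omega

theorem closure_top (k : ℕ) (hk : 3 ≤ k) :
    Subgroup.closure ({ra k, rb k} : Set (Perm (Fin (k + 1)))) = ⊤ := by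
  obtain ⟨m, rfl⟩ : ∃ m, k = m + 1 := ⟨k - 1, by omega⟩
  have h := Perm.closure_cycle_adjacent_swap (isCycle_finRotate (n := m))
    (support_finRotate (n := m)) (z (m + 1))
  rw [← top_le_iff, ← h, Subgroup.closure_le]
  intro x hx
  have ha : ra (m + 1) ∈ Subgroup.closure ({ra (m + 1), rb (m + 1)} : Set (Perm (Fin (m + 1 + 1)))) :=
    Subgroup.subset_closure (by simp)
  have hb : rb (m + 1) ∈ Subgroup.closure ({ra (m + 1), rb (m + 1)} : Set (Perm (Fin (m + 1 + 1)))) :=
    Subgroup.subset_closure (by simp)
  rcases hx with rfl | rfl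
  · exact ha
  · have e : swap (z (m + 1)) (ra (m + 1) (z (m + 1))) =
        rb (m + 1) * (ra (m + 1) * ra (m + 1))⁻¹ := by
      unfold rb
      rw [mul_inv_cancel_right]
    show swap (z (m + 1)) (ra (m + 1) (z (m + 1))) ∈ _
    rw [e]
    exact mul_mem hb (inv_mem (mul_mem ha ha))

/-- Cyclic distance. -/
def cd (k : ℕ) (x y : ℕ) : ℕ :=
  if x ≤ y then (if 2 * (y - x) ≤ k + 1 then y - x else k + 1 - (y - x))
  else (if 2 * (x - y) ≤ k + 1 then x - y else k + 1 - (x - y))

/-- The potential. -/
def Psi (k : ℕ) (x y : Fin (k + 1)) : ℕ := (k + 1) * cd k x.val y.val + x.val + y.val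

theorem step_a (k : ℕ) (hk : 3 ≤ k) (x y : Fin (k + 1)) (hxy : x ≠ y) :
    Psi k (ra k x) (ra k y) ≤ Psi k x y + 5 := by
  have hx := ra_val k x
  have hy := ra_val k y
  have h1 := x.2
  have h2 := y.2
  have hne : x.val ≠ y.val := fun h => hxy (Fin.ext h)
  have key : cd k (ra k x).val (ra k y).val ≤ cd k x.val y.val ∧
      (ra k x).val + (ra k y).val ≤ x.val + y.val + 5 := by
    rw [hx, hy]
    unfold cd
    split_ifs <;> omega
  unfold Psi
  have := Nat.mul_le_mul_left (k + 1) key.1
  omega

theorem step_b (k : ℕ) (hk : 3 ≤ k) (x y : Fin (k + 1)) (hxy : x ≠ y) :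
    Psi k (rb k x) (rb k y) ≤ Psi k x y + 5 := by
  have hx := rb_val k hk x
  have hy := rb_val k hk y
  have h1 := x.2
  have h2 := y.2
  have hne : x.val ≠ y.val := fun h => hxy (Fin.ext h)
  have key : (cd k (rb k x).val (rb k y).val ≤ cd k x.val y.val ∧
      (rb k x).val + (rb k y).val ≤ x.val + y.val + 5) ∨
      (cd k (rb k x).val (rb k y).val ≤ cd k x.val y.val + 1 ∧
      (rb k x).val + (rb k y).val + (k + 1) ≤ x.val + y.val + 5) := by
    rw [hx, hy]
    unfold cd
    split_ifs <;> omega
  unfold Psi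
  rcases key with key | key
  · have := Nat.mul_le_mul_left (k + 1) key.1
    omega
  · have := Nat.mul_le_mul_left (k + 1) key.1
    rw [mul_add, mul_one] at this
    omega

theorem word_bound (k : ℕ) (hk : 3 ≤ k) (x y : Fin (k + 1)) (hxy : x ≠ y)
    (w : List (Perm (Fin (k + 1)))) (hw : ∀ s ∈ w, s ∈ ({ra k, rb k} : Set (Perm (Fin (k + 1))))) :
    Psi k (w.prod x) (w.prod y) ≤ Psi k x y + 5 * w.length := by
  induction w with
  | nil => simp
  | cons s w ih =>
    have ih' := ih (fun t ht => hw t (List.mem_cons_of_mem _ ht))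
    have hs := hw s List.mem_cons_self
    have hne : w.prod x ≠ w.prod y := fun h => hxy (w.prod.injective h)
    rw [List.prod_cons, Perm.mul_apply, Perm.mul_apply, List.length_cons]
    have hstep : Psi k (s (w.prod x)) (s (w.prod y)) ≤ Psi k (w.prod x) (w.prod y) + 5 := by
      rcases hs with rfl | rfl
      · exact step_a k hk _ _ hne
      · exact step_b k hk _ _ hne
    omega

/-- The negation of the preceding statement: There is a constant C such that for every primitive G ≤ Sym(n) generated by S, every partition P and distinct points a, b: if some element of G sends a, b into one part of P, then some word over S of length at most C·n does too. -/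
theorem result :
    ¬ (∃ C : ℕ, ∀ (n : ℕ) (G : Subgroup (Equiv.Perm (Fin n))),
      MulAction.IsPreprimitive G (Fin n) →
      ∀ S : Set (Equiv.Perm (Fin n)), Subgroup.closure S = G →
      ∀ P : Setoid (Fin n), ∀ a b : Fin n, a ≠ b →
        (∃ g ∈ G, P.r (g a) (g b)) →
        ∃ w : List (Equiv.Perm (Fin n)), (∀ s ∈ w, s ∈ S) ∧
          w.length ≤ C * n ∧ P.r (w.prod a) (w.prod b)) := by
  rintro ⟨C, hC⟩
  set q := 5 * C + 2 with hq
  set k := 2 * q - 1 with hkdef
  have hk : 3 ≤ k := by omega
  have hk1 : k + 1 = 2 * q := by omega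
  have hprim : MulAction.IsPreprimitive (⊤ : Subgroup (Perm (Fin (k + 1)))) (Fin (k + 1)) := by
    let φ : Perm (Fin (k + 1)) → (⊤ : Subgroup (Perm (Fin (k + 1)))) := fun g => ⟨g, trivial⟩
    let f : Fin (k + 1) →ₑ[φ] Fin (k + 1) := { toFun := id, map_smul' := fun _ _ => rfl }
    exact MulAction.IsPreprimitive.of_surjective (f := f) Function.surjective_id
  let u : Fin (k + 1) := ⟨0, by omega⟩
  let o : Fin (k + 1) := ⟨1, by omega⟩
  let v : Fin (k + 1) := ⟨q, by omega⟩
  have huo : u ≠ o := fun h => by
    have h' : (0 : ℕ) = 1 := congrArg Fin.val h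
    omega
  have huv : u ≠ v := fun h => by
    have h' : (0 : ℕ) = q := congrArg Fin.val h
    omega
  have hov : o ≠ v := fun h => by
    have h' : (1 : ℕ) = q := congrArg Fin.val h
    omega
  let P : Setoid (Fin (k + 1)) :=
    { r := fun a b => a = b ∨ ((a = u ∨ a = v) ∧ (b = u ∨ b = v))
      iseqv :=
        { refl := fun a => Or.inl rfl
          symm := by
            intro a b h
            rcases h with h | h
            · exact Or.inl h.symm
            · exact Or.inr ⟨h.2, h.1⟩
          trans := by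
            intro a b c h1 h2
            rcases h1 with rfl | h1
            · exact h2
            · rcases h2 with rfl | h2
              · exact Or.inr h1
              · exact Or.inr ⟨h1.1, h2.2⟩ } }
  obtain ⟨w, hw, hlen, hr⟩ := hC (k + 1) ⊤ hprim {ra k, rb k} (closure_top k hk) P u o huo
    ⟨swap o v, trivial, Or.inr ⟨Or.inl (swap_apply_of_ne_of_ne huo huv),
      Or.inr (swap_apply_left o v)⟩⟩
  have hb := word_bound k hk u o huo w hw
  have hne : w.prod u ≠ w.prod o := fun h => huo (w.prod.injective h)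
  have hst : Psi k u o = (k + 1) + 1 := by
    have : cd k u.val o.val = 1 := by
      show cd k 0 1 = 1
      unfold cd
      split_ifs <;> omega
    unfold Psi
    rw [this]
    simp [u, o]
  have hend : Psi k (w.prod u) (w.prod o) = (k + 1) * q + q := by
    have c1 : cd k 0 q = q := by
      unfold cd
      split_ifs <;> omega
    have c2 : cd k q 0 = q := by
      unfold cd
      split_ifs <;> omega
    rcases hr with h | ⟨h1, h2⟩
    · exact absurd h hne
    · rcases h1 with h1 | h1 <;> rcases h2 with h2 | h2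
      · exact absurd (h1.trans h2.symm) hne
      · rw [h1, h2]
        show (k + 1) * cd k 0 q + 0 + q = _
        rw [c1]
        omega
      · rw [h1, h2]
        show (k + 1) * cd k q 0 + q + 0 = _
        rw [c2]
        omega
      · exact absurd (h1.trans h2.symm) hne
  rw [hst, hend] at hb
  generalize w.length = len at hb hlen
  rw [hk1] at hb hlen
  have h1 : 5 * len ≤ 5 * (C * (2 * q)) := by omega
  have h2 : 2 * q * q + q ≤ 2 * q + 1 + 5 * (C * (2 * q)) := by omega
  have h3 : 2 * q * q = 10 * C * q + 4 * q := by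
    have : 2 * q * q = (2 * q) * q := rfl
    rw [this]
    conv_lhs => rw [hq]
    ring_nf
    rw [hq]
    ring
  have h4 : 5 * (C * (2 * q)) = 10 * C * q := by ring
  rw [h3, h4] at h2
  omega

end Pool.Agent.S00782
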