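import Pool.Statements.S00797
import Pool.Agent.H2.CF2
-- import your own Pool.Agent.* helpers here

set_option autoImplicit false
open Pool Pool.MP_44c8f1_al

namespace Pool.Agent.S00797

/-- Let H ⊆ F1, F2 ⊆ M be formations of finite groups, with H and M saturated (equivalently local). If F1 ∩ F2 = H and the formation generated by F1 ∪ F2 is M, then F1 and F2 are both saturated (local). -/
theorem result :
    ∀ (Form Sat : ((G : Type) → [Group G] → Prop) → Prop),
      (∀ F : (G : Type) → [Group G] → Prop,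
        Form F ↔
          ((∀ (G : Type) [Group G], F G → Finite G) ∧
           (∀ (G K : Type) [Group G] [Group K], Nonempty (G ≃* K) → F G → F K) ∧
           (∀ (G : Type) [Group G] (N : Subgroup G) [N.Normal], F G → F (G ⧸ N)) ∧
           (∀ (G : Type) [Group G] [Finite G] (N L : Subgroup G) [N.Normal] [L.Normal],
              N ⊓ L = ⊥ → F (G ⧸ N) → F (G ⧸ L) → F G))) →
      (∀ F : (G : Type) → [Group G] → Prop,
        Sat F ↔ (∀ (G : Type) [Group G] [Finite G], F (G ⧸ frattini G) → F G)) →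
      ∀ (H M F₁ F₂ : (G : Type) → [Group G] → Prop),
        Form H → Sat H → Form M → Sat M → Form F₁ → Form F₂ →
        (∀ (G : Type) [Group G], H G → F₁ G) →
        (∀ (G : Type) [Group G], H G → F₂ G) →
        (∀ (G : Type) [Group G], F₁ G → M G) →
        (∀ (G : Type) [Group G], F₂ G → M G) →
        (∀ (G : Type) [Group G], F₁ G → F₂ G → H G) →
        (∀ X : (G : Type) → [Group G] → Prop, Form X →
          (∀ (G : Type) [Group G], F₁ G → X G) →
          (∀ (G : Type) [Group G], F₂ G → X G) →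
          (∀ (G : Type) [Group G], M G → X G)) →
        Sat F₁ ∧ Sat F₂ := by
  intro Form Sat hForm hSat H M F₁ F₂ fH sH fM sM f₁ f₂ H1 H2 M1 M2 hint hjoin
  have toF : ∀ F : (G : Type) → [Group G] → Prop, Form F → Pool.Agent.H2.CF.IsForm F := by
    intro F hF
    obtain ⟨h1, h2, h3, h4⟩ := (hForm F).1 hF
    exact ⟨h1, h2, h3, h4⟩
  have ofF : ∀ F : (G : Type) → [Group G] → Prop, Pool.Agent.H2.CF.IsForm F → Form F := by
    intro F hF
    exact (hForm F).2 ⟨hF.1, hF.2, hF.3, hF.4⟩
  have toS : ∀ F : (G : Type) → [Group G] → Prop, Sat F → Pool.Agent.H2.CF.IsSat F :=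
    fun F hF => (hSat F).1 hF
  have ofS : ∀ F : (G : Type) → [Group G] → Prop, Pool.Agent.H2.CF.IsSat F → Sat F :=
    fun F hF => (hSat F).2 hF
  by_cases e1 : ∃ (G : Type) (_ : Group G), F₁ G
  · by_cases e2 : ∃ (G : Type) (_ : Group G), F₂ G
    · obtain ⟨G1, _, hG1⟩ := e1
      obtain ⟨G2, _, hG2⟩ := e2
      have u1 := (toF F₁ f₁).unit hG1
      have u2 := (toF F₂ f₂).unit hG2
      constructor
      · apply ofS
        refine Pool.Agent.H2.CF.sat_left (toF H fH) (toS H sH) (toS M sM) (toF F₁ f₁)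
          (toF F₂ f₂) (fun G _ => H1 G) (fun G _ => hint G) (fun G _ => M1 G) ?_
        intro G _ hG
        exact hjoin (Pool.Agent.H2.CF.Join F₁ F₂)
          (ofF _ (Pool.Agent.H2.CF.join_form (toF F₁ f₁) (toF F₂ f₂)))
          (fun G _ h => Pool.Agent.H2.CF.join_left (toF F₁ f₁) u2 h)
          (fun G _ h => Pool.Agent.H2.CF.join_right (toF F₂ f₂) u1 h) G hG
      · apply ofS
        refine Pool.Agent.H2.CF.sat_left (toF H fH) (toS H sH) (toS M sM) (toF F₂ f₂)
          (toF F₁ f₁) (fun G _ => H2 G) (fun G _ h h' => hint G h' h) (fun G _ => M2 G) ?_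
        intro G _ hG
        exact hjoin (Pool.Agent.H2.CF.Join F₂ F₁)
          (ofF _ (Pool.Agent.H2.CF.join_form (toF F₂ f₂) (toF F₁ f₁)))
          (fun G _ h => Pool.Agent.H2.CF.join_right (toF F₁ f₁) u2 h)
          (fun G _ h => Pool.Agent.H2.CF.join_left (toF F₂ f₂) u1 h) G hG
    · have hM : ∀ (G : Type) [Group G], M G → F₁ G := fun G _ hG =>
        hjoin F₁ f₁ (fun _ _ h => h) (fun G _ h => absurd ⟨G, _, h⟩ e2) G hG
      constructor
      · apply ofS
        intro G _ _ hG
        exact hM G (toS M sM G (M1 _ hG))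
      · apply ofS
        intro G _ _ hG
        exact absurd ⟨_, _, hG⟩ e2
  · have hM : ∀ (G : Type) [Group G], M G → F₂ G := fun G _ hG =>
      hjoin F₂ f₂ (fun G _ h => absurd ⟨G, _, h⟩ e1) (fun _ _ h => h) G hG
    constructor
    · apply ofS
      intro G _ _ hG
      exact absurd ⟨_, _, hG⟩ e1
    · apply ofS
      intro G _ _ hG
      exact hM G (toS M sM G (M2 _ hG))

end Pool.Agent.S00797
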