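import Pool.Statements.S01021
import Pool.Agent.H2.PD3

set_option autoImplicit false
open Pool Pool.MP_5ee74f_al

namespace Pool.Agent.S01021

open Filter Topology Pool.Agent.H2.PD

section

variable {G : Type} [AddCommGroup G] [UniformSpace G] [IsUniformAddGroup G]

/-- the continuous homomorphisms to the integers -/
def CHs (G : Type) [AddCommGroup G] [UniformSpace G] [IsUniformAddGroup G] :
    Submodule ℤ (G →+ ℤ) where
  carrier := {χ | Continuous χ}
  zero_mem' := continuous_const
  add_mem' := fun ha hb => ha.add hb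
  smul_mem' := by
    intro r χ h
    have : (fun g => r * χ g) = (r • χ : G →+ ℤ) := by
      funext g; rfl
    rw [Set.mem_ofPred_eq, ← this]
    exact continuous_const.mul h

/-- restriction to `K` as a linear map -/
def rhoL (K : Set G) : CHs G →ₗ[ℤ] LocallyConstant K ℤ where
  toFun χ := rho K χ.1 χ.2
  map_add' _ _ := rfl
  map_smul' _ _ := rfl

theorem rhoL_inj {K : Set G} (hgen : AddSubgroup.closure K = ⊤) :
    Function.Injective (rhoL K) := by
  intro χ χ' h
  apply Subtype.ext
  apply AddMonoidHom.eq_of_eqOn_dense hgen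
  intro k hk
  exact congrArg (fun f : LocallyConstant K ℤ => f ⟨k, hk⟩) h

end

/-- Every complete Hausdorff abelian group with a basis of open subgroups at 0, generated by a compact set, and with no nontrivial compact subgroups, is discrete and isomorphic to Z^n for some n. -/
theorem result :
    ∀ (G : Type) [AddCommGroup G] [UniformSpace G] [IsUniformAddGroup G]
      [T2Space G] [CompleteSpace G],
      (∀ s ∈ nhds (0 : G), ∃ U : AddSubgroup G, IsOpen (U : Set G) ∧ (U : Set G) ⊆ s) →
      (∃ K : Set G, IsCompact K ∧ AddSubgroup.closure K = ⊤) →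
      (∀ H : AddSubgroup G, IsCompact (H : Set G) → H = ⊥) →
      DiscreteTopology G ∧ ∃ n : ℕ, Nonempty (G ≃+ (Fin n → ℤ)) := by
  classical
  intro G _ _ _ _ _ hb hK' hc
  obtain ⟨K, hK, hgen⟩ := hK'
  have hna : NonarchimedeanAddGroup G :=
    { is_nonarchimedean := by
        intro U hU
        obtain ⟨V, hV, hVU⟩ := hb U hU
        exact ⟨⟨V, hV⟩, hVU⟩ }
  have hcs : CompactSpace K := isCompact_iff_compactSpace.1 hK
  have hfree : Module.Free ℤ (LocallyConstant K ℤ) :=
    LocallyConstant.freeOfProfinite (Profinite.of K)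
  let b := Module.Free.chooseBasis ℤ (LocallyConstant K ℤ)
  obtain ⟨F, hF⟩ := diag hb hK hgen hc b
  let N : Submodule ℤ (LocallyConstant K ℤ) := Submodule.span ℤ (b '' (F : Set _))
  have hNfg : N.FG := Submodule.fg_span (F.finite_toSet.image b)
  have hNn : IsNoetherian ℤ N := isNoetherian_of_fg_of_noetherian N hNfg
  have hrN : ∀ χ : CHs G, rhoL K χ ∈ N := by
    intro χ
    exact (b.mem_span_image).2 (by exact_mod_cast hF χ.1 χ.2)
  have hfin : Module.Finite ℤ (CHs G) := by
    refine Module.Finite.of_injective ((rhoL K).codRestrict N hrN) ?_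
    intro χ χ' h
    exact rhoL_inj hgen (congrArg Subtype.val h)
  obtain ⟨T, hT⟩ := hfin.fg_top
  let W : AddSubgroup G :=
    { carrier := {g | ∀ y ∈ T, y.1 g = 0}
      zero_mem' := fun y _ => map_zero _
      add_mem' := fun ha hb y hy => by rw [map_add, ha y hy, hb y hy, add_zero]
      neg_mem' := fun ha y hy => by rw [map_neg, ha y hy, neg_zero] }
  have hWo : IsOpen (W : Set G) := by
    have : (W : Set G) = ⋂ y ∈ T, y.1 ⁻¹' {0} := by
      ext g
      simp only [Set.mem_iInter]
      exact Iff.rfl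
    rw [this]
    exact isOpen_biInter_finset (fun y _ => (isOpen_discrete _).preimage y.2)
  have hWχ : ∀ (χ : CHs G), ∀ g ∈ W, χ.1 g = 0 := by
    intro χ
    have hχ : χ ∈ Submodule.span ℤ (T : Set (CHs G)) := by rw [hT]; trivial
    induction hχ using Submodule.span_induction with
    | mem x hx => exact fun g hg => hg x hx
    | zero => exact fun g _ => rfl
    | add x y _ _ hx hy =>
      intro g hg
      change x.1 g + y.1 g = 0
      rw [hx g hg, hy g hg, add_zero]
    | smul r x _ hx =>
      intro g hg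
      change r • x.1 g = 0
      rw [hx g hg, smul_zero]
  have hWbot : W = ⊥ := by
    rw [eq_bot_iff]
    intro g hg
    by_contra hg0
    have hg0' : g ≠ 0 := hg0
    obtain ⟨U, hU, hUs⟩ := hb ({g}ᶜ) (isOpen_compl_singleton.mem_nhds (by
      intro h; exact hg0' h.symm))
    obtain ⟨U', hU', hU'U⟩ := pureBasis hb hK hgen hc U hU
    obtain ⟨n, e, c, hc1, hc2, hc3, hc4⟩ := coords hK hgen
      (AddSubgroup.isOpen_mono (le_dv U') hU') (dv_pure U')
    have h1 := hc3 g
    have h2 : ∑ i, c i g • e i = 0 := by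
      apply Finset.sum_eq_zero
      intro i _
      rw [hWχ ⟨c i, hc2 i⟩ g hg, zero_smul]
    rw [h2, sub_zero] at h1
    exact hUs (hU'U h1) rfl
  have hbo : IsOpen ((⊥ : AddSubgroup G) : Set G) := by rw [← hWbot]; exact hWo
  have hpure : ∀ (g : G) (n : ℕ), n ≠ 0 → n • g ∈ (⊥ : AddSubgroup G) →
      g ∈ (⊥ : AddSubgroup G) := by
    obtain ⟨U', hU', hU'U⟩ := pureBasis hb hK hgen hc ⊥ hbo
    intro g n hn h
    exact hU'U (dv_mono (bot_le : ⊥ ≤ U') ⟨n, hn, h⟩)
  refine ⟨?_, ?_⟩
  · apply discreteTopology_of_isOpen_singleton_zero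
    have : ((⊥ : AddSubgroup G) : Set G) = {0} := AddSubgroup.coe_bot
    rw [← this]
    exact hbo
  · have h1 := fgq hK hgen ⊥ hbo
    have h2 := tf hpure
    obtain ⟨n, β⟩ := Module.basisOfFiniteTypeTorsionFree' (R := ℤ) (M := G ⧸ (⊥ : AddSubgroup G))
    exact ⟨n, ⟨QuotientAddGroup.quotientBot.symm.trans β.equivFun.toAddEquiv⟩⟩

end Pool.Agent.S01021
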