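import Pool.Statements.S01078

set_option autoImplicit false
open Pool Pool.MP_63a718_al

namespace Pool.Agent.S01078

/-- Klein bottle group: `⟨b, a⟩` stands for `β ^ b * α ^ a`, with `α β α⁻¹ = β⁻¹`. -/
@[ext] structure Kl where
  b : ℤ
  a : ℤ

/-- sign -/
def sg (n : ℤ) : ℤ := (Int.negOnePow n : ℤˣ)

theorem sg_add (m n : ℤ) : sg (m + n) = sg m * sg n := by
  unfold sg; rw [Int.negOnePow_add]; rfl

theorem sg_zero : sg 0 = 1 := by unfold sg; simp

theorem sg_even {n : ℤ} (h : Even n) : sg n = 1 := by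
  unfold sg; rw [Int.negOnePow_even n h]; rfl

instance : Mul Kl := ⟨fun x y => ⟨x.b + sg x.a * y.b, x.a + y.a⟩⟩
instance : One Kl := ⟨⟨0, 0⟩⟩
instance : Inv Kl := ⟨fun x => ⟨-(sg (-x.a) * x.b), -x.a⟩⟩

theorem Kl.mul_b (x y : Kl) : (x * y).b = x.b + sg x.a * y.b := rfl
theorem Kl.mul_a (x y : Kl) : (x * y).a = x.a + y.a := rfl
theorem Kl.one_b : (1 : Kl).b = 0 := rfl
theorem Kl.one_a : (1 : Kl).a = 0 := rfl
theorem Kl.inv_b (x : Kl) : (x⁻¹).b = -(sg (-x.a) * x.b) := rfl
theorem Kl.inv_a (x : Kl) : (x⁻¹).a = -x.a := rfl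

instance : Group Kl := Group.ofLeftAxioms
  (fun x y z => by
    ext
    · simp only [Kl.mul_b, Kl.mul_a, sg_add]; ring
    · simp only [Kl.mul_a]; ring)
  (fun x => by
    ext
    · simp only [Kl.mul_b, Kl.one_b, Kl.one_a, sg_zero]; ring
    · simp only [Kl.mul_a, Kl.one_a]; ring)
  (fun x => by
    ext
    · simp only [Kl.mul_b, Kl.inv_b, Kl.inv_a, Kl.one_b]; ring
    · simp only [Kl.mul_a, Kl.inv_a, Kl.one_a]; ring)

/-- a right order of `Kl` -/
def PQ (k : Kl) : Prop := 0 < k.a ∨ (k.a = 0 ∧ 0 < k.b)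

/-- a right order of the subgroup `a` even -/
def PH (k : Kl) : Prop := Even k.a ∧ (0 < k.b ∨ (k.b = 0 ∧ 0 < k.a))

theorem PQ_mul {x y : Kl} (hx : PQ x) (hy : PQ y) : PQ (x * y) := by
  unfold PQ at *
  rw [Kl.mul_a, Kl.mul_b]
  rcases hx with hx | ⟨hx, hx'⟩ <;> rcases hy with hy | ⟨hy, hy'⟩
  · left; omega
  · left; omega
  · left; omega
  · right
    rw [hx, sg_zero]
    constructor <;> omega

theorem PQ_one : ¬ PQ 1 := by
  rintro (h | ⟨-, h⟩)
  · exact lt_irrefl (0 : ℤ) h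
  · exact lt_irrefl (0 : ℤ) h

theorem PQ_tot (x : Kl) (hx : x ≠ 1) : PQ x ∨ PQ x⁻¹ := by
  unfold PQ
  rw [Kl.inv_a, Kl.inv_b]
  rcases lt_trichotomy x.a 0 with h | h | h
  · right; left; omega
  · rcases lt_trichotomy x.b 0 with h' | h' | h'
    · right; right
      rw [h, neg_zero, sg_zero]
      constructor <;> omega
    · exact absurd (Kl.ext h' h) hx
    · left; right; exact ⟨h, h'⟩
  · left; left; exact h

theorem PH_mul {x y : Kl} (hx : PH x) (hy : PH y) : PH (x * y) := by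
  obtain ⟨ex, hx⟩ := hx
  obtain ⟨ey, hy⟩ := hy
  unfold PH
  rw [Kl.mul_a, Kl.mul_b, sg_even ex]
  refine ⟨ex.add ey, ?_⟩
  rcases hx with hx | ⟨hx, hx'⟩ <;> rcases hy with hy | ⟨hy, hy'⟩
  · left; omega
  · left; omega
  · left; omega
  · right
    constructor <;> omega

theorem PH_one : ¬ PH 1 := by
  rintro ⟨-, h | ⟨-, h⟩⟩
  · exact lt_irrefl (0 : ℤ) h
  · exact lt_irrefl (0 : ℤ) h

theorem PH_tot (x : Kl) (hx : x ≠ 1) (he : Even x.a) : PH x ∨ PH x⁻¹ := by
  unfold PH
  rw [Kl.inv_a, Kl.inv_b, sg_even he.neg]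
  rcases lt_trichotomy x.b 0 with h | h | h
  · right; exact ⟨he.neg, Or.inl (by omega)⟩
  · rcases lt_trichotomy x.a 0 with h' | h' | h'
    · right; exact ⟨he.neg, Or.inr ⟨by omega, by omega⟩⟩
    · exact absurd (Kl.ext h h') hx
    · left; exact ⟨he, Or.inr ⟨h, h'⟩⟩
  · left; exact ⟨he, Or.inl h⟩

/-- the wreath-type product -/
@[ext] structure WG where
  f : ℤ → Kl
  n : ℤ
  bd : ∃ N : ℤ, ∀ i, i < N → f i = 1

instance : Mul WG := ⟨fun x y => ⟨fun i => x.f i * y.f (i - x.n), x.n + y.n, by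
  obtain ⟨N, hN⟩ := x.bd
  obtain ⟨M, hM⟩ := y.bd
  refine ⟨min N (M + x.n), fun i hi => ?_⟩
  rw [hN i (by omega), hM (i - x.n) (by omega), one_mul]⟩⟩

instance : One WG := ⟨⟨fun _ => 1, 0, ⟨0, fun _ _ => rfl⟩⟩⟩

instance : Inv WG := ⟨fun x => ⟨fun i => (x.f (i + x.n))⁻¹, -x.n, by
  obtain ⟨N, hN⟩ := x.bd
  refine ⟨N - x.n, fun i hi => ?_⟩
  rw [hN (i + x.n) (by omega), inv_one]⟩⟩

theorem WG.mul_f (x y : WG) (i : ℤ) : (x * y).f i = x.f i * y.f (i - x.n) := rfl
theorem WG.mul_n (x y : WG) : (x * y).n = x.n + y.n := rfl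
theorem WG.one_f (i : ℤ) : (1 : WG).f i = 1 := rfl
theorem WG.one_n : (1 : WG).n = 0 := rfl
theorem WG.inv_f (x : WG) (i : ℤ) : (x⁻¹).f i = (x.f (i + x.n))⁻¹ := rfl
theorem WG.inv_n (x : WG) : (x⁻¹).n = -x.n := rfl

theorem WG.ext' {x y : WG} (hf : ∀ i, x.f i = y.f i) (hn : x.n = y.n) : x = y :=
  WG.ext (funext hf) hn

instance : Group WG := Group.ofLeftAxioms
  (fun x y z => by
    apply WG.ext'
    · intro i
      simp only [WG.mul_f, WG.mul_n, mul_assoc, sub_sub]
    · simp only [WG.mul_n]; ring)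
  (fun x => by
    apply WG.ext'
    · intro i
      simp only [WG.mul_f, WG.one_f, WG.one_n, one_mul, sub_zero]
    · simp only [WG.mul_n, WG.one_n]; ring)
  (fun x => by
    apply WG.ext'
    · intro i
      simp only [WG.mul_f, WG.inv_f, WG.inv_n, WG.one_f, sub_neg_eq_add, inv_mul_cancel]
    · simp only [WG.mul_n, WG.inv_n, WG.one_n]; ring)

/-- membership in the totally ordered subgroup -/
def Mem (f : ℤ → Kl) : Prop := (∀ i, i < 0 → f i = 1) ∧ Even (f 0).a

/-- the cone at place `i` -/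
def Pp (i : ℤ) (k : Kl) : Prop := if i = 0 then PH k else PQ k

/-- its positive elements -/
def PM (f : ℤ → Kl) : Prop := ∃ i, 0 ≤ i ∧ (∀ j, j < i → f j = 1) ∧ Pp i (f i)

theorem Pp_mul {i : ℤ} {x y : Kl} (hx : Pp i x) (hy : Pp i y) : Pp i (x * y) := by
  unfold Pp at *
  split_ifs at * with h
  · exact PH_mul hx hy
  · exact PQ_mul hx hy

theorem Pp_one (i : ℤ) : ¬ Pp i 1 := by
  unfold Pp
  split_ifs
  · exact PH_one
  · exact PQ_one

theorem mem_of_PM {f : ℤ → Kl} (h : PM f) : Mem f := by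
  obtain ⟨i, hi, hj, hp⟩ := h
  refine ⟨fun j hj' => hj j (by omega), ?_⟩
  rcases eq_or_lt_of_le hi with h0 | h0
  · subst h0
    unfold Pp at hp
    rw [if_pos rfl] at hp
    exact hp.1
  · rw [hj 0 h0]
    exact ⟨0, rfl⟩

theorem PM_mul {f g : ℤ → Kl} (hf : PM f) (hg : PM g) : PM (fun i => f i * g i) := by
  obtain ⟨i, hi, hij, hip⟩ := hf
  obtain ⟨j, hj, hjj, hjp⟩ := hg
  rcases lt_trichotomy i j with h | h | h
  · refine ⟨i, hi, fun k hk => ?_, ?_⟩
    · show f k * g k = 1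
      rw [hij k hk, hjj k (by omega), one_mul]
    · show Pp i (f i * g i)
      rw [hjj i h, mul_one]; exact hip
  · subst h
    refine ⟨i, hi, fun k hk => ?_, ?_⟩
    · show f k * g k = 1
      rw [hij k hk, hjj k hk, one_mul]
    · exact Pp_mul hip hjp
  · refine ⟨j, hj, fun k hk => ?_, ?_⟩
    · show f k * g k = 1
      rw [hij k (by omega), hjj k hk, one_mul]
    · show Pp j (f j * g j)
      rw [hij j h, one_mul]; exact hjp

theorem PM_tot {f : ℤ → Kl} (hf : Mem f) (hne : ∃ i, f i ≠ 1) :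
    PM f ∨ PM (fun i => (f i)⁻¹) := by
  classical
  obtain ⟨h0, he⟩ := hf
  obtain ⟨i₀, hi₀⟩ := hne
  obtain ⟨i, hi, hmin⟩ := Int.exists_least_of_bdd (P := fun i => f i ≠ 1)
    ⟨0, fun z hz => by
      by_contra hlt
      exact hz (h0 z (by omega))⟩ ⟨i₀, hi₀⟩
  have hi0 : 0 ≤ i := by
    by_contra hlt
    exact hi (h0 i (by omega))
  have hlow : ∀ j, j < i → f j = 1 := by
    intro j hj
    by_contra hne
    have := hmin j hne
    omega
  have : Pp i (f i) ∨ Pp i (f i)⁻¹ := by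
    unfold Pp
    split_ifs with h
    · subst h
      exact PH_tot _ hi he
    · exact PQ_tot _ hi
  rcases this with h | h
  · exact Or.inl ⟨i, hi0, hlow, h⟩
  · right
    refine ⟨i, hi0, fun j hj => ?_, h⟩
    show (f j)⁻¹ = 1
    rw [hlow j hj, inv_one]

/-- strictly positive elements -/
def Pos (x : WG) : Prop := (0 < x.n ∧ Mem x.f) ∨ (x.n = 0 ∧ PM x.f)

theorem Pos.mem {x : WG} (h : Pos x) : Mem x.f := by
  rcases h with h | h
  · exact h.2
  · exact mem_of_PM h.2

theorem Pos.nonneg {x : WG} (h : Pos x) : 0 ≤ x.n := by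
  rcases h with h | h
  · exact h.1.le
  · exact h.1.ge

theorem Pos_one : ¬ Pos 1 := by
  rintro (h | ⟨-, i, -, -, hp⟩)
  · exact lt_irrefl (0 : ℤ) h.1
  · exact Pp_one i hp

theorem even_mul {x y : Kl} (hx : Even x.a) (hy : Even y.a) : Even (x * y).a := by
  rw [Kl.mul_a]; exact hx.add hy

theorem even_inv {x : Kl} (hx : Even x.a) : Even (x⁻¹).a := by
  rw [Kl.inv_a]; exact hx.neg

theorem even_one : Even (1 : Kl).a := ⟨0, rfl⟩

theorem Pos_mul {x y : WG} (hx : Pos x) (hy : Pos y) : Pos (x * y) := by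
  by_cases hn : x.n = 0 ∧ y.n = 0
  · right
    obtain ⟨hn1, hn2⟩ := hn
    have hx' : PM x.f := by
      rcases hx with h | h
      · omega
      · exact h.2
    have hy' : PM y.f := by
      rcases hy with h | h
      · omega
      · exact h.2
    refine ⟨by rw [WG.mul_n]; omega, ?_⟩
    have : (x * y).f = fun i => x.f i * y.f i := by
      funext i
      rw [WG.mul_f, hn1, sub_zero]
    rw [this]
    exact PM_mul hx' hy'
  · left
    have h1 := hx.nonneg
    have h2 := hy.nonneg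
    refine ⟨by rw [WG.mul_n]; omega, fun i hi => ?_, ?_⟩
    · rw [WG.mul_f, hx.mem.1 i hi, hy.mem.1 _ (by omega), one_mul]
    · rw [WG.mul_f]
      rcases eq_or_lt_of_le h1 with h3 | h3
      · rw [← h3, sub_zero]
        exact even_mul hx.mem.2 hy.mem.2
      · rw [hy.mem.1 _ (by omega), mul_one]
        exact hx.mem.2

theorem Pos_lt {x y : WG} (hx : Pos x) (hy : Pos y) (h : x.n < y.n) : Pos (y * x⁻¹) := by
  left
  refine ⟨by rw [WG.mul_n, WG.inv_n]; omega, fun i hi => ?_, ?_⟩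
  · rw [WG.mul_f, WG.inv_f, hy.mem.1 i hi, hx.mem.1 _ (by omega), inv_one, one_mul]
  · rw [WG.mul_f, WG.inv_f, hx.mem.1 _ (by omega), inv_one, mul_one]
    exact hy.mem.2

theorem Pos_comp {x y : WG} (hx : Pos x) (hy : Pos y) :
    x = y ∨ Pos (y * x⁻¹) ∨ Pos (x * y⁻¹) := by
  rcases lt_trichotomy x.n y.n with h | h | h
  · exact Or.inr (Or.inl (Pos_lt hx hy h))
  · by_cases hxy : x = y
    · exact Or.inl hxy
    · right
      have hf : ∀ i, (y * x⁻¹).f i = y.f i * (x.f i)⁻¹ := by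
        intro i
        rw [WG.mul_f, WG.inv_f, h, sub_add_cancel]
      have hf' : ∀ i, (x * y⁻¹).f i = (y.f i * (x.f i)⁻¹)⁻¹ := by
        intro i
        rw [WG.mul_f, WG.inv_f, ← h, sub_add_cancel, mul_inv_rev, inv_inv]
      have hM : Mem (fun i => y.f i * (x.f i)⁻¹) := by
        refine ⟨fun i hi => ?_, ?_⟩
        · show y.f i * (x.f i)⁻¹ = 1
          rw [hx.mem.1 i hi, hy.mem.1 i hi, inv_one, one_mul]
        · exact even_mul hy.mem.2 (even_inv hx.mem.2)
      have hne : ∃ i, (fun i => y.f i * (x.f i)⁻¹) i ≠ 1 := by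
        by_contra hcon
        push Not at hcon
        apply hxy
        apply WG.ext'
        · intro i
          have := hcon i
          exact (mul_inv_eq_one.1 this).symm
        · exact h
      rcases PM_tot hM hne with h1 | h1
      · left; right
        refine ⟨by rw [WG.mul_n, WG.inv_n]; omega, ?_⟩
        rw [funext hf]; exact h1
      · right; right
        refine ⟨by rw [WG.mul_n, WG.inv_n]; omega, ?_⟩
        rw [funext hf']; exact h1
  · exact Or.inr (Or.inr (Pos_lt hy hx h))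

/-- the order -/
def r (a b : WG) : Prop := a = b ∨ Pos (b * a⁻¹)

/-- pure translation -/
def dd (N : ℤ) : WG := ⟨fun _ => 1, N, ⟨0, fun _ _ => rfl⟩⟩

theorem exists_big (a : WG) : ∃ N : ℤ, ∀ M, N ≤ M → Pos (dd M * a⁻¹) := by
  obtain ⟨B, hB⟩ := (a⁻¹).bd
  refine ⟨max (a.n + 1) (1 - B), fun M hM => ?_⟩
  have hf : ∀ i, (dd M * a⁻¹).f i = (a⁻¹).f (i - M) := by
    intro i
    rw [WG.mul_f]
    show 1 * (a⁻¹).f (i - M) = _
    rw [one_mul]
  left
  refine ⟨?_, fun i hi => ?_, ?_⟩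
  · rw [WG.mul_n, WG.inv_n]
    show 0 < M + -a.n
    omega
  · rw [hf, hB _ (by omega)]
  · rw [hf, hB _ (by omega)]
    exact even_one

/-- copy of `Kl` at place `0` -/
def kk (k : Kl) : WG := ⟨fun i => if i = 0 then k else 1, 0, ⟨0, fun i hi => if_neg (by omega)⟩⟩

theorem kk_mul (k l : Kl) : kk k * kk l = kk (k * l) := by
  apply WG.ext'
  · intro i
    rw [WG.mul_f]
    show (if i = 0 then k else 1) * (if i - 0 = 0 then l else 1) = if i = 0 then k * l else 1
    rw [sub_zero]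
    split_ifs <;> simp
  · rfl

theorem kk_inv (k : Kl) : (kk k)⁻¹ = kk k⁻¹ := by
  apply inv_eq_of_mul_eq_one_right
  rw [kk_mul, mul_inv_cancel]
  apply WG.ext'
  · intro i
    show (if i = 0 then (1 : Kl) else 1) = 1
    simp
  · rfl

theorem kk_inj {k l : Kl} (h : kk k = kk l) : k = l := by
  have := congrArg (fun x : WG => x.f 0) h
  exact this

theorem kk_pos {k : Kl} (h : PH k) : Pos (kk k) := by
  right
  exact ⟨rfl, 0, le_rfl, fun j hj => if_neg (by omega), by
    unfold Pp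
    rw [if_pos rfl]
    exact h⟩

/-- The negation of the preceding statement: For every group G and every right-invariant, upward-directed partial order on G whose positive cone is a chain, there is a right-invariant total order on G that contains it. -/
theorem result :
    ¬ (∀ (G : Type) [Group G] (r : G → G → Prop),
      (∀ a : G, r a a) →
      (∀ a b : G, r a b → r b a → a = b) →
      (∀ a b c : G, r a b → r b c → r a c) →
      (∀ a b c : G, r a b → r (a * c) (b * c)) →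
      (∀ a b : G, ∃ c : G, r a c ∧ r b c) →
      (∀ a b : G, r 1 a → r 1 b → r a b ∨ r b a) →
      ∃ s : G → G → Prop,
        (∀ a : G, s a a) ∧
        (∀ a b : G, s a b → s b a → a = b) ∧
        (∀ a b c : G, s a b → s b c → s a c) ∧
        (∀ a b : G, s a b ∨ s b a) ∧
        (∀ a b c : G, s a b → s (a * c) (b * c)) ∧
        (∀ a b : G, r a b → s a b)) := by
  intro h
  obtain ⟨s, s1, s2, s3, s4, s5, s6⟩ := h WG r (fun a => Or.inl rfl)
    (by
      rintro a b (h1 | h1) (h2 | h2)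
      · exact h1
      · exact h1
      · exact h2.symm
      · exfalso
        apply Pos_one
        have := Pos_mul h1 h2
        have e : b * a⁻¹ * (a * b⁻¹) = 1 := by group
        rwa [e] at this)
    (by
      rintro a b c (h1 | h1) (h2 | h2)
      · exact Or.inl (h1.trans h2)
      · rw [h1]; exact Or.inr h2
      · rw [← h2]; exact Or.inr h1
      · right
        have := Pos_mul h2 h1
        have e : c * b⁻¹ * (b * a⁻¹) = c * a⁻¹ := by group
        rwa [e] at this)
    (by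
      rintro a b c (h1 | h1)
      · left; rw [h1]
      · right
        have e : b * c * (a * c)⁻¹ = b * a⁻¹ := by group
        rwa [e])
    (by
      intro a b
      obtain ⟨N, hN⟩ := exists_big a
      obtain ⟨M, hM⟩ := exists_big b
      exact ⟨dd (max N M), Or.inr (hN _ (le_max_left _ _)), Or.inr (hM _ (le_max_right _ _))⟩)
    (by
      intro a b ha hb
      rcases ha with ha | ha
      · rw [← ha]; exact Or.inl hb
      · rcases hb with hb | hb
        · rw [← hb]; exact Or.inr (Or.inr ha)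
        · rw [inv_one, mul_one] at ha hb
          rcases Pos_comp ha hb with h1 | h1 | h1
          · exact Or.inl (Or.inl h1)
          · exact Or.inl (Or.inr h1)
          · exact Or.inr (Or.inr h1))
  set A : WG := kk ⟨0, 1⟩ with hA
  set B : WG := kk ⟨1, 0⟩ with hB
  have hAA : A * A = kk ⟨0, 2⟩ := by
    rw [hA, kk_mul]; congr 1
  have hAB : A * B = B⁻¹ * A := by
    rw [hA, hB, kk_inv, kk_mul, kk_mul]
    congr 1
  have hAA1 : A * A ≠ 1 := by
    rw [hAA]
    intro h1
    have := congrArg (fun x : WG => (x.f 0).a) h1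
    have h2 : (2 : ℤ) = 0 := this
    omega
  have hAAB : A * A ≠ B := by
    rw [hAA, hB]
    intro h1
    have := congrArg Kl.a (kk_inj h1)
    have h2 : (2 : ℤ) = 0 := this
    omega
  have r1 : s 1 (A * A) := by
    apply s6
    right
    rw [inv_one, mul_one, hAA]
    apply kk_pos
    exact ⟨⟨1, rfl⟩, Or.inr ⟨rfl, by norm_num⟩⟩
  have r2 : s (A * A) B := by
    apply s6
    right
    rw [hAA, hB, kk_inv, kk_mul]
    apply kk_pos
    refine ⟨⟨-1, by rw [Kl.mul_a, Kl.inv_a]; norm_num⟩, Or.inl ?_⟩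
    rw [Kl.mul_b, Kl.inv_b]
    norm_num
  have r3 : s 1 A := by
    rcases s4 1 A with h1 | h1
    · exact h1
    · exfalso
      have h2 := s5 _ _ A h1
      rw [one_mul] at h2
      exact hAA1 (s2 _ _ (s3 _ _ _ h2 h1) r1)
  have r4 : s 1 B := s3 _ _ _ r1 r2
  have r5 : s (A * B) A := by
    have h1 := s5 _ _ B⁻¹ r4
    rw [one_mul, mul_inv_cancel] at h1
    have h2 := s5 _ _ A h1
    rw [one_mul, ← hAB] at h2
    exact h2
  have r6 : s B (A * B) := by
    have h1 := s5 _ _ B r3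
    rwa [one_mul] at h1
  have r7 : s A (A * A) := by
    have h1 := s5 _ _ A r3
    rwa [one_mul] at h1
  exact hAAB (s2 _ _ r2 (s3 _ _ _ (s3 _ _ _ r6 r5) r7))

end Pool.Agent.S01078
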