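import Pool.Statements.S01091
import Pool.Agent.H2.NeuA

set_option autoImplicit false
open scoped ComplexOrder
open Pool Pool.MP_65a4af_al

namespace Pool.Agent.S01091

open Pool.Agent.H2.Neu Matrix

/-- the real inequality for `t > 1` -/
theorem key {n : ℕ} (A : Matrix (Fin (n+1)) (Fin (n+1)) ℝ) (hA : ∀ i j, 0 ≤ A i j)
    (hB : ∀ z ∈ (A.map (algebraMap ℝ ℂ)).charpoly.roots, ‖z‖ ≤ 1) (t : ℝ) (ht : 1 < t) :
    (Polynomial.derivative A.charpoly).eval t ≤ ∑ r : Fin (n+1), ∏ i : Fin n, (t - A (r.succAbove i) (r.succAbove i))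
      ∧ ∀ i, 0 < t - A i i := by
  have hg := good_of_spec A hA hB t ht
  constructor
  · rw [derivative_charpoly]
    refine Finset.sum_le_sum fun r _ => ?_
    refine (good_det _ _ (good_sub _ hg r)).2.1.trans (le_of_eq ?_)
    refine Finset.prod_congr rfl fun i _ => ?_
    simp
  · intro i
    have := (good_det _ _ hg).2.2 i
    simpa using this

theorem key1 {n : ℕ} (A : Matrix (Fin (n+1)) (Fin (n+1)) ℝ) (hA : ∀ i j, 0 ≤ A i j)
    (hB : ∀ z ∈ (A.map (algebraMap ℝ ℂ)).charpoly.roots, ‖z‖ ≤ 1) :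
    (Polynomial.derivative A.charpoly).eval 1 ≤ ∑ r : Fin (n+1), ∏ i : Fin n, (1 - A (r.succAbove i) (r.succAbove i))
      ∧ ∀ i, 0 ≤ 1 - A i i := by
  constructor
  · have hc1 : Continuous fun t : ℝ => (Polynomial.derivative A.charpoly).eval t :=
      (Polynomial.derivative A.charpoly).continuous
    have hc2 : Continuous fun t : ℝ =>
        ∑ r : Fin (n+1), ∏ i : Fin n, (t - A (r.succAbove i) (r.succAbove i)) := by fun_prop
    have h1 := (hc1.tendsto 1).mono_left (nhdsWithin_le_nhds (s := Set.Ioi 1))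
    have h2 := (hc2.tendsto 1).mono_left (nhdsWithin_le_nhds (s := Set.Ioi 1))
    refine le_of_tendsto_of_tendsto h1 h2 ?_
    filter_upwards [self_mem_nhdsWithin] with t ht
    exact (key A hA hB t ht).1
  · intro i
    have hc2 : Continuous fun t : ℝ => t - A i i := by fun_prop
    have h2 := (hc2.tendsto 1).mono_left (nhdsWithin_le_nhds (s := Set.Ioi 1))
    refine ge_of_tendsto h2 ?_
    filter_upwards [self_mem_nhdsWithin] with t ht
    exact ((key A hA hB t ht).2 i).le

theorem key2 {n : ℕ} (hn : 1 ≤ n) (A : Matrix (Fin (n+1)) (Fin (n+1)) ℝ) (hA : ∀ i j, 0 ≤ A i j)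
    (hB : ∀ z ∈ (A.map (algebraMap ℝ ℂ)).charpoly.roots, ‖z‖ ≤ 1) :
    (Polynomial.derivative A.charpoly).eval 1 ≤ (n + 1 : ℝ) - A.trace := by
  obtain ⟨h1, h2⟩ := key1 A hA hB
  have h3 : ∀ i, 1 - A i i ≤ 1 := fun i => by linarith [hA i i]
  refine h1.trans ?_
  have h4 : ∀ r : Fin (n+1), ∏ i : Fin n, (1 - A (r.succAbove i) (r.succAbove i)) ≤
      1 - A (r + 1) (r + 1) := by
    intro r
    have hne : r + 1 ≠ r := by
      intro h
      have h5 : (1 : Fin (n+1)) = 0 := by
        have := congrArg (fun x => x - r) h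
        simpa using this
      have h6 := congrArg Fin.val h5
      rw [Fin.val_one'] at h6
      simp at h6
      omega
    obtain ⟨j, hj⟩ := Fin.exists_succAbove_eq hne
    rw [← hj]
    rw [← Finset.mul_prod_erase _ _ (Finset.mem_univ j)]
    have : ∏ x ∈ Finset.univ.erase j, (1 - A (r.succAbove x) (r.succAbove x)) ≤ 1 :=
      Finset.prod_le_one (fun i _ => h2 _) (fun i _ => h3 _)
    exact mul_le_of_le_one_right (h2 _) this
  refine (Finset.sum_le_sum fun r _ => h4 r).trans (le_of_eq ?_)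
  have h5 : ∑ r : Fin (n+1), (1 - A (r + 1) (r + 1)) = ∑ r : Fin (n+1), (1 - A r r) :=
    Equiv.sum_comp (Equiv.addRight (1 : Fin (n+1))) (fun r => 1 - A r r)
  rw [h5, Finset.sum_sub_distrib]
  simp [Matrix.trace]

/-- For every nonnegative real (n+1)×(n+1) matrix (n ≥ 1) with spectral radius 1, listing its eigenvalues with multiplicity as 1, λ₁,…,λₙ, the product of the (1−λⱼ) is at most their sum. -/
theorem result :
    ∀ n : ℕ, 1 ≤ n → ∀ A : Matrix (Fin (n + 1)) (Fin (n + 1)) ℝ,
      (∀ i j, 0 ≤ A i j) →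
      (1 : ℂ) ∈ (A.map (algebraMap ℝ ℂ)).charpoly.roots →
      (∀ z ∈ (A.map (algebraMap ℝ ℂ)).charpoly.roots, ‖z‖ ≤ 1) →
      ((((A.map (algebraMap ℝ ℂ)).charpoly.roots).erase 1).map (fun z : ℂ => 1 - z)).prod
        ≤ ((((A.map (algebraMap ℝ ℂ)).charpoly.roots).erase 1).map (fun z : ℂ => 1 - z)).sum := by
  intro n hn A hA h1 hB
  have hmain := key2 hn A hA hB
  set B := A.map (algebraMap ℝ ℂ) with hBdef
  obtain ⟨R, hR⟩ := Multiset.exists_cons_of_mem h1
  have hsplit : B.charpoly = (B.charpoly.roots.map fun a => Polynomial.X - Polynomial.C a).prod :=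
    (IsAlgClosed.splits B.charpoly).eq_prod_roots_of_monic B.charpoly_monic
  have hcard : B.charpoly.roots.card = n + 1 := by
    have := (IsAlgClosed.splits B.charpoly).natDegree_eq_card_roots
    rw [← this, Matrix.charpoly_natDegree_eq_dim]
    simp
  rw [hR] at hsplit hcard ⊢
  rw [Multiset.erase_cons_head]
  have hRcard : R.card = n := by simpa using hcard
  have hprod : (R.map (fun z : ℂ => 1 - z)).prod = (Polynomial.derivative B.charpoly).eval 1 := by
    rw [hsplit, Multiset.map_cons, Multiset.prod_cons, Polynomial.derivative_mul]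
    simp only [Polynomial.derivative_X_sub_C, one_mul, Polynomial.eval_add, Polynomial.eval_mul,
      Polynomial.eval_sub, Polynomial.eval_X, Polynomial.eval_C, sub_self, zero_mul, add_zero]
    rw [Polynomial.eval_multiset_prod, Multiset.map_map]
    simp
  have htr : B.trace = 1 + R.sum := by
    rw [Matrix.trace_eq_sum_roots_charpoly, hR, Multiset.sum_cons]
  have hsum : (R.map (fun z : ℂ => 1 - z)).sum = (n + 1 : ℂ) - B.trace := by
    rw [Multiset.sum_map_sub, htr]
    simp [hRcard]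
    ring
  have hd : (Polynomial.derivative B.charpoly).eval 1 =
      (((Polynomial.derivative A.charpoly).eval 1 : ℝ) : ℂ) := by
    rw [hBdef, Matrix.charpoly_map, Polynomial.derivative_map, Polynomial.eval_map]
    simp
  have htrB : B.trace = ((A.trace : ℝ) : ℂ) := by
    simp [hBdef, Matrix.trace]
  rw [hprod, hsum, hd, htrB]
  have : ((n + 1 : ℂ) - ((A.trace : ℝ) : ℂ)) = (((n + 1 : ℝ) - A.trace : ℝ) : ℂ) := by
    push_cast; ring
  rw [this, Complex.real_le_real]
  exact hmain

end Pool.Agent.S01091
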