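import Pool.Statements.S01214

set_option autoImplicit false
open Pool Pool.MP_72b122_al

namespace Pool.Agent.S01214

open scoped Pointwise Topology

/-- finitely supported integer sequences -/
abbrev F := ℕ →₀ ℤ

/-- the underlying additive group -/
abbrev V := F × F

/-- the `k`-th basic neighbourhood: diagonal elements vanishing below `k` -/
def U (k : ℕ) : Set (Multiplicative V) :=
  {h | (Multiplicative.toAdd h).1 = (Multiplicative.toAdd h).2 ∧
    ∀ n, n < k → (Multiplicative.toAdd h).1 n = 0}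

lemma U_anti {k l : ℕ} (h : k ≤ l) : U l ⊆ U k := by
  rintro x ⟨h1, h2⟩
  exact ⟨h1, fun n hn => h2 n (lt_of_lt_of_le hn h)⟩

lemma U_mul {k : ℕ} {x y : Multiplicative V} (hx : x ∈ U k) (hy : y ∈ U k) : x * y ∈ U k := by
  refine ⟨?_, ?_⟩
  · have h1 := hx.1
    have h2 := hy.1
    simp only [toAdd_mul, Prod.fst_add, Prod.snd_add, h1, h2]
  · intro n hn
    have h1 := hx.2 n hn
    have h2 := hy.2 n hn
    simp [toAdd_mul, h1, h2]

lemma U_inv {k : ℕ} {x : Multiplicative V} (hx : x ∈ U k) : x⁻¹ ∈ U k := by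
  refine ⟨?_, ?_⟩
  · have h1 := hx.1
    simp only [toAdd_inv, Prod.fst_neg, Prod.snd_neg, h1]
  · intro n hn
    have h1 := hx.2 n hn
    simp [toAdd_inv, h1]

lemma one_mem_U (k : ℕ) : (1 : Multiplicative V) ∈ U k := by
  refine ⟨by simp, ?_⟩
  intro n _
  simp

noncomputable abbrev basis : GroupFilterBasis (Multiplicative V) :=
  groupFilterBasisOfComm (Set.range U) ⟨U 0, 0, rfl⟩
    (by
      rintro _ _ ⟨k, rfl⟩ ⟨l, rfl⟩
      exact ⟨U (max k l), ⟨_, rfl⟩, Set.subset_inter (U_anti (le_max_left _ _)) (U_anti (le_max_right _ _))⟩)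
    (by rintro _ ⟨k, rfl⟩; exact one_mem_U k)
    (by
      rintro _ ⟨k, rfl⟩
      refine ⟨U k, ⟨k, rfl⟩, ?_⟩
      rintro _ ⟨x, hx, y, hy, rfl⟩
      exact U_mul hx hy)
    (by
      rintro _ ⟨k, rfl⟩
      refine ⟨U k, ⟨k, rfl⟩, ?_⟩
      intro x hx
      exact U_inv hx)

noncomputable instance instLat : Lattice (Multiplicative V) := inferInstanceAs (Lattice V)

noncomputable instance instTop : TopologicalSpace (Multiplicative V) := basis.topology

instance instTG : IsTopologicalGroup (Multiplicative V) := basis.isTopologicalGroup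

lemma mem_nhds_one' {s : Set (Multiplicative V)} : s ∈ 𝓝 (1 : Multiplicative V) ↔ ∃ k, U k ⊆ s := by
  have h := basis.nhds_one_hasBasis
  rw [h.mem_iff]
  constructor
  · rintro ⟨t, ⟨k, rfl⟩, ht⟩
    exact ⟨k, ht⟩
  · rintro ⟨k, hk⟩
    exact ⟨U k, ⟨k, rfl⟩, hk⟩

lemma mem_nhds' {s : Set (Multiplicative V)} {x : Multiplicative V} :
    s ∈ 𝓝 x ↔ ∃ k, ∀ h ∈ U k, x * h ∈ s := by
  rw [← map_mul_left_nhds_one x, Filter.mem_map, mem_nhds_one']
  rfl

lemma exists_bound (f : F) : ∃ k, ∀ n, k ≤ n → f n = 0 := by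
  classical
  obtain ⟨k, hk⟩ := (f.support : Finset ℕ).bddAbove
  refine ⟨k + 1, fun n hn => ?_⟩
  by_contra h
  have := hk (Finsupp.mem_support_iff.mpr h)
  omega

/-- key computation for the continuity of the lattice operations -/
lemma sup_key (x y : Multiplicative V) : ∃ k0, ∀ k, k0 ≤ k → ∀ a ∈ U k, ∀ b ∈ U k,
    ∃ c ∈ U k, (x * a) ⊔ (y * b) = (x ⊔ y) * c := by
  obtain ⟨k1, h1⟩ := exists_bound (Multiplicative.toAdd x).1
  obtain ⟨k2, h2⟩ := exists_bound (Multiplicative.toAdd x).2
  obtain ⟨k3, h3⟩ := exists_bound (Multiplicative.toAdd y).1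
  obtain ⟨k4, h4⟩ := exists_bound (Multiplicative.toAdd y).2
  refine ⟨max (max k1 k2) (max k3 k4), fun k hk a ha b hb => ?_⟩
  refine ⟨a ⊔ b, ⟨?_, ?_⟩, ?_⟩
  · change (Multiplicative.toAdd a).1 ⊔ (Multiplicative.toAdd b).1 =
      (Multiplicative.toAdd a).2 ⊔ (Multiplicative.toAdd b).2
    rw [ha.1, hb.1]
  · intro n hn
    change ((Multiplicative.toAdd a).1 ⊔ (Multiplicative.toAdd b).1) n = 0
    rw [Finsupp.sup_apply, ha.2 n hn, hb.2 n hn]
    simp
  · have ha1 := ha.1
    have hb1 := hb.1
    have ha2 := ha.2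
    have hb2 := hb.2
    change (((Multiplicative.toAdd x).1 + (Multiplicative.toAdd a).1) ⊔
        ((Multiplicative.toAdd y).1 + (Multiplicative.toAdd b).1),
        ((Multiplicative.toAdd x).2 + (Multiplicative.toAdd a).2) ⊔
        ((Multiplicative.toAdd y).2 + (Multiplicative.toAdd b).2)) =
      ((((Multiplicative.toAdd x).1 ⊔ (Multiplicative.toAdd y).1) +
        ((Multiplicative.toAdd a).1 ⊔ (Multiplicative.toAdd b).1),
        ((Multiplicative.toAdd x).2 ⊔ (Multiplicative.toAdd y).2) +
        ((Multiplicative.toAdd a).2 ⊔ (Multiplicative.toAdd b).2)) : F × F)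
    refine Prod.ext ?_ ?_
    · ext n
      simp only [Finsupp.sup_apply, Finsupp.add_apply]
      rcases lt_or_ge n k with hn | hn
      · rw [ha2 n hn, hb2 n hn]; simp
      · rw [h1 n (by omega), h3 n (by omega)]; simp
    · ext n
      simp only [Finsupp.sup_apply, Finsupp.add_apply]
      rcases lt_or_ge n k with hn | hn
      · rw [← ha1, ← hb1, ha2 n hn, hb2 n hn]; simp
      · rw [h2 n (by omega), h4 n (by omega)]; simp

instance instSup : ContinuousSup (Multiplicative V) where
  continuous_sup := by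
    rw [continuous_iff_continuousAt]
    rintro ⟨x, y⟩
    intro s hs
    rw [mem_nhds'] at hs
    obtain ⟨k1, hk1⟩ := hs
    obtain ⟨k0, hk0⟩ := sup_key x y
    rw [Filter.mem_map, nhds_prod_eq, Filter.mem_prod_iff]
    refine ⟨{z | ∃ a ∈ U (max k0 k1), z = x * a}, ?_, {z | ∃ a ∈ U (max k0 k1), z = y * a}, ?_, ?_⟩
    · rw [mem_nhds']
      exact ⟨max k0 k1, fun h hh => ⟨h, hh, rfl⟩⟩
    · rw [mem_nhds']
      exact ⟨max k0 k1, fun h hh => ⟨h, hh, rfl⟩⟩
    · rintro ⟨z, w⟩ ⟨⟨a, ha, rfl⟩, ⟨b, hb, rfl⟩⟩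
      obtain ⟨c, hc, he⟩ := hk0 (max k0 k1) (le_max_left _ _) a ha b hb
      change (x * a) ⊔ (y * b) ∈ s
      rw [he]
      exact hk1 c (U_anti (le_max_right _ _) hc)

instance instMLM : MulLeftMono (Multiplicative V) := inferInstanceAs (MulLeftMono (Multiplicative V))

lemma inf_eq (x y : Multiplicative V) : x ⊓ y = (x⁻¹ ⊔ y⁻¹)⁻¹ := by
  rw [inv_sup, inv_inv, inv_inv]

instance instInf : ContinuousInf (Multiplicative V) where
  continuous_inf := by
    have : (fun p : Multiplicative V × Multiplicative V => p.1 ⊓ p.2) =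
        fun p => (p.1⁻¹ ⊔ p.2⁻¹)⁻¹ := by
      funext p
      exact inf_eq _ _
    rw [this]
    exact (Continuous.sup continuous_fst.inv continuous_snd.inv).inv

instance instTL : TopologicalLattice (Multiplicative V) where

/-- first factor -/
def A : Subgroup (Multiplicative V) where
  carrier := {x | (Multiplicative.toAdd x).2 = 0}
  mul_mem' := by
    intro a b ha hb
    simp only [Set.mem_ofPred_eq] at *
    simp [toAdd_mul, ha, hb]
  one_mem' := by simp
  inv_mem' := by
    intro a ha
    simp only [Set.mem_ofPred_eq] at *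
    simp [toAdd_inv, ha]

/-- second factor -/
def B : Subgroup (Multiplicative V) where
  carrier := {x | (Multiplicative.toAdd x).1 = 0}
  mul_mem' := by
    intro a b ha hb
    simp only [Set.mem_ofPred_eq] at *
    simp [toAdd_mul, ha, hb]
  one_mem' := by simp
  inv_mem' := by
    intro a ha
    simp only [Set.mem_ofPred_eq] at *
    simp [toAdd_inv, ha]

lemma closedA : IsClosed (A : Set (Multiplicative V)) := by
  rw [← isOpen_compl_iff, isOpen_iff_mem_nhds]
  intro x hx
  rw [mem_nhds']
  obtain ⟨k, hk⟩ := exists_bound (Multiplicative.toAdd x).2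
  refine ⟨k, fun h hh hmem => hx ?_⟩
  change (Multiplicative.toAdd x).2 = 0
  have h1 : (Multiplicative.toAdd x).2 + (Multiplicative.toAdd h).2 = 0 := hmem
  ext n
  have h2 := DFunLike.congr_fun h1 n
  simp only [Finsupp.add_apply, Finsupp.zero_apply] at h2
  rcases lt_or_ge n k with hn | hn
  · rw [← hh.1, hh.2 n hn] at h2
    simpa using h2
  · exact hk n hn

lemma closedB : IsClosed (B : Set (Multiplicative V)) := by
  rw [← isOpen_compl_iff, isOpen_iff_mem_nhds]
  intro x hx
  rw [mem_nhds']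
  obtain ⟨k, hk⟩ := exists_bound (Multiplicative.toAdd x).1
  refine ⟨k, fun h hh hmem => hx ?_⟩
  change (Multiplicative.toAdd x).1 = 0
  have h1 : (Multiplicative.toAdd x).1 + (Multiplicative.toAdd h).1 = 0 := hmem
  ext n
  have h2 := DFunLike.congr_fun h1 n
  simp only [Finsupp.add_apply, Finsupp.zero_apply] at h2
  rcases lt_or_ge n k with hn | hn
  · rw [hh.2 n hn] at h2
    simpa using h2
  · exact hk n hn

/-- the multiplication map `A × B → G` -/
noncomputable def phi (p : A × B) : Multiplicative V := (p.1 : Multiplicative V) * (p.2 : Multiplicative V)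

lemma phi_fst (p : A × B) : (Multiplicative.toAdd (phi p)).1 = (Multiplicative.toAdd (p.1 : Multiplicative V)).1 := by
  have h : (Multiplicative.toAdd (p.2 : Multiplicative V)).1 = 0 := p.2.2
  change (Multiplicative.toAdd (p.1 : Multiplicative V)).1 + (Multiplicative.toAdd (p.2 : Multiplicative V)).1 = _
  rw [h, add_zero]

lemma phi_snd (p : A × B) : (Multiplicative.toAdd (phi p)).2 = (Multiplicative.toAdd (p.2 : Multiplicative V)).2 := by
  have h : (Multiplicative.toAdd (p.1 : Multiplicative V)).2 = 0 := p.1.2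
  change (Multiplicative.toAdd (p.1 : Multiplicative V)).2 + (Multiplicative.toAdd (p.2 : Multiplicative V)).2 = _
  rw [h, zero_add]

lemma phi_le (p q : A × B) : p ≤ q ↔ phi p ≤ phi q := by
  have hp1 : (Multiplicative.toAdd (p.1 : Multiplicative V)).2 = 0 := p.1.2
  have hq1 : (Multiplicative.toAdd (q.1 : Multiplicative V)).2 = 0 := q.1.2
  have hp2 : (Multiplicative.toAdd (p.2 : Multiplicative V)).1 = 0 := p.2.2
  have hq2 : (Multiplicative.toAdd (q.2 : Multiplicative V)).1 = 0 := q.2.2
  constructor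
  · rintro ⟨h1, h2⟩
    exact mul_le_mul' h1 h2
  · intro h
    have h1 : (Multiplicative.toAdd (phi p)).1 ≤ (Multiplicative.toAdd (phi q)).1 := h.1
    have h2 : (Multiplicative.toAdd (phi p)).2 ≤ (Multiplicative.toAdd (phi q)).2 := h.2
    rw [phi_fst, phi_fst] at h1
    rw [phi_snd, phi_snd] at h2
    refine ⟨?_, ?_⟩
    · change (Multiplicative.toAdd (p.1 : Multiplicative V)) ≤ (Multiplicative.toAdd (q.1 : Multiplicative V))
      exact ⟨h1, by rw [hp1, hq1]⟩
    · change (Multiplicative.toAdd (p.2 : Multiplicative V)) ≤ (Multiplicative.toAdd (q.2 : Multiplicative V))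
      exact ⟨by rw [hp2, hq2], h2⟩

lemma phi_bij : Function.Bijective phi := by
  constructor
  · intro p q h
    have h1 := (phi_le p q).2 (le_of_eq h)
    have h2 := (phi_le q p).2 (le_of_eq h.symm)
    refine Prod.ext (Subtype.ext ?_) (Subtype.ext ?_)
    · exact le_antisymm h1.1 h2.1
    · exact le_antisymm h1.2 h2.2
  · intro x
    refine ⟨(⟨Multiplicative.ofAdd ((Multiplicative.toAdd x).1, 0), rfl⟩,
      ⟨Multiplicative.ofAdd (0, (Multiplicative.toAdd x).2), rfl⟩), ?_⟩
    change (((Multiplicative.toAdd x).1 + 0, 0 + (Multiplicative.toAdd x).2) : F × F) = Multiplicative.toAdd x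
    rw [add_zero, zero_add]

/-- The negation of the preceding statement: Let G be a topological lattice-ordered group with closed normal ℓ-subgroups A, B such that multiplication A×B→G is an ℓ-isomorphism. Then this map is a homeomorphism from the product topology onto G. -/
theorem result :
    ¬ (∀ (G : Type) [Group G] [Lattice G] [MulLeftMono G] [MulRightMono G]
      [TopologicalSpace G] [IsTopologicalGroup G] [TopologicalLattice G]
      (A B : Subgroup G),
      A.Normal → B.Normal →
      IsClosed (A : Set G) → IsClosed (B : Set G) →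
      (∀ x ∈ A, ∀ y ∈ A, x ⊔ y ∈ A ∧ x ⊓ y ∈ A) →
      (∀ x ∈ B, ∀ y ∈ B, x ⊔ y ∈ B ∧ x ⊓ y ∈ B) →
      ∀ φ : (↥A × ↥B) → G, (∀ p, φ p = (p.1 : G) * (p.2 : G)) →
      Function.Bijective φ →
      (∀ p q : ↥A × ↥B, p ≤ q ↔ φ p ≤ φ q) →
      ∃ e : (↥A × ↥B) ≃ₜ G, ∀ p, e p = φ p) := by
  intro H
  obtain ⟨e, he⟩ := H (Multiplicative V) A B inferInstance inferInstance closedA closedB
    (by
      intro x hx y hy
      have hx' : (Multiplicative.toAdd x).2 = 0 := hx
      have hy' : (Multiplicative.toAdd y).2 = 0 := hy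
      constructor
      · change (Multiplicative.toAdd x).2 ⊔ (Multiplicative.toAdd y).2 = 0
        rw [hx', hy']; simp
      · change (Multiplicative.toAdd x).2 ⊓ (Multiplicative.toAdd y).2 = 0
        rw [hx', hy']; simp)
    (by
      intro x hx y hy
      have hx' : (Multiplicative.toAdd x).1 = 0 := hx
      have hy' : (Multiplicative.toAdd y).1 = 0 := hy
      constructor
      · change (Multiplicative.toAdd x).1 ⊔ (Multiplicative.toAdd y).1 = 0
        rw [hx', hy']; simp
      · change (Multiplicative.toAdd x).1 ⊓ (Multiplicative.toAdd y).1 = 0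
        rw [hx', hy']; simp)
    phi (fun _ => rfl) phi_bij phi_le
  -- the set `W = {x : first coordinate zero}` would be open near the identity
  have hc : Continuous (fun x : Multiplicative V => ((e.symm x).1 : Multiplicative V)) :=
    continuous_subtype_val.comp (continuous_fst.comp e.symm.continuous)
  -- the projection sends a small diagonal element to a non-small element
  have hproj : ∀ x : Multiplicative V, (e.symm x).1 =
      (⟨Multiplicative.ofAdd ((Multiplicative.toAdd x).1, 0), rfl⟩ : A) := by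
    intro x
    have h1 : phi (e.symm x) = x := by rw [← he, e.apply_symm_apply]
    apply Subtype.ext
    have h2 := phi_fst (e.symm x)
    rw [h1] at h2
    have h3 : (Multiplicative.toAdd ((e.symm x).1 : Multiplicative V)).2 = 0 := (e.symm x).1.2
    change Multiplicative.toAdd ((e.symm x).1 : Multiplicative V) = ((Multiplicative.toAdd x).1, 0)
    exact Prod.ext h2.symm h3
  have h0 : U 0 ∈ 𝓝 (((e.symm 1).1 : Multiplicative V)) := by
    have : ((e.symm 1).1 : Multiplicative V) = 1 := by
      rw [hproj]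
      rfl
    rw [this, mem_nhds_one']
    exact ⟨0, subset_rfl⟩
  have h1 := hc.continuousAt (x := 1) h0
  rw [Filter.mem_map, mem_nhds_one'] at h1
  obtain ⟨k, hk⟩ := h1
  have hmem : (Multiplicative.ofAdd ((Finsupp.single k 1, Finsupp.single k 1) : V)) ∈ U k := by
    refine ⟨rfl, fun n hn => ?_⟩
    change (Finsupp.single k (1 : ℤ)) n = 0
    rw [Finsupp.single_apply, if_neg (by omega)]
  have h2 := hk hmem
  simp only [Set.mem_preimage] at h2
  rw [hproj] at h2
  have h3 := h2.1
  change Finsupp.single k (1 : ℤ) = 0 at h3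
  have h4 := DFunLike.congr_fun h3 k
  simp at h4

end Pool.Agent.S01214
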