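import Pool.Statements.S01276

set_option autoImplicit false
open Pool Pool.MP_77870d_al
open scoped Pointwise

namespace Pool.Agent.S01276

/-- The semigroup: powers `x (k) = x^(k+1)`, elements `y n i` permuted cyclically by `x`, a zero. -/
inductive S : Type
  | x (k : ℕ) : S
  | y (n : ℕ) (i : ZMod (n + 3)) : S
  | z : S

open S

def S.mul : S → S → S
  | x k, x l => x (k + l + 1)
  | x k, y n i => y n (i + ((k : ZMod (n + 3)) + 1))
  | y n i, x k => y n (i + ((k : ZMod (n + 3)) + 1))
  | y _ _, y _ _ => z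
  | z, _ => z
  | _, z => z

instance : Mul S := ⟨S.mul⟩

lemma xx (k l : ℕ) : (x k * x l : S) = x (k + l + 1) := rfl
lemma xy (k n : ℕ) (i : ZMod (n + 3)) : (x k * y n i : S) = y n (i + ((k : ZMod (n + 3)) + 1)) := rfl
lemma yx (k n : ℕ) (i : ZMod (n + 3)) : (y n i * x k : S) = y n (i + ((k : ZMod (n + 3)) + 1)) := rfl
lemma yy (m n : ℕ) (i : ZMod (n + 3)) (j : ZMod (m + 3)) : (y n i * y m j : S) = z := rfl
lemma zl (s : S) : (z * s : S) = z := by cases s <;> rfl
lemma zr (s : S) : (s * z : S) = z := by cases s <;> rfl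

instance : Semigroup S where
  mul_assoc := by
    intro a b c
    cases a <;> cases b <;> cases c <;> simp only [xx, xy, yx, yy, zl, zr, x.injEq] <;>
      first
      | omega
      | (push_cast; congr 1; ring)

/-- the elementary abelian group -/
abbrev B := ℕ →₀ ZMod 2

abbrev P (N : ℕ) := ∀ n : Fin N, ZMod ((n : ℕ) + 3)

abbrev GN (N : ℕ) := Multiplicative (P N × B)

/-- constructor -/
def mk {N : ℕ} (p : P N) (v : B) : GN N := Multiplicative.ofAdd (p, v)

/-- the constant function `k+1` -/
def cst (N k : ℕ) : P N := fun n => (k : ZMod ((n : ℕ) + 3)) + 1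

lemma torsionGN (N : ℕ) : Monoid.IsTorsion (GN N) := by
  intro g
  rw [isOfFinOrder_iff_pow_eq_one]
  refine ⟨2 * Fintype.card (P N), by have := Fintype.card_pos (α := P N); omega, ?_⟩
  change (2 * Fintype.card (P N)) • (Multiplicative.toAdd g) = 0
  refine Prod.ext ?_ ?_
  · change (2 * Fintype.card (P N)) • (Multiplicative.toAdd g).1 = 0
    rw [mul_nsmul', card_nsmul_eq_zero, nsmul_zero]
  · change (2 * Fintype.card (P N)) • (Multiplicative.toAdd g).2 = 0
    ext n
    rw [Finsupp.smul_apply, mul_nsmul]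
    have h2 : ∀ a : ZMod 2, 2 • a = 0 := by decide
    rw [h2, nsmul_zero]
    rfl

/-- balls in `B` -/
def ball (k : ℕ) : Set B := {v | v.support.card ≤ k}

lemma ball_add {k l : ℕ} {v w : B} (hv : v ∈ ball k) (hw : w ∈ ball l) : v + w ∈ ball (k + l) := by
  classical
  have h1 : (v + w).support.card ≤ (v.support ∪ w.support).card := Finset.card_le_card Finsupp.support_add
  have h2 := Finset.card_union_le v.support w.support
  have h3 : v.support.card ≤ k := hv
  have h4 : w.support.card ≤ l := hw
  change (v + w).support.card ≤ k + l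
  omega

lemma ball_split {k l : ℕ} {u : B} (hu : u ∈ ball (k + l)) : ∃ v ∈ ball k, ∃ w ∈ ball l, v + w = u := by
  classical
  have hu' : u.support.card ≤ k + l := hu
  obtain ⟨s, hs, hc⟩ := Finset.exists_subset_card_eq (s := u.support) (n := min k u.support.card) (min_le_right _ _)
  refine ⟨u.filter (· ∈ s), ?_, u.filter (fun a => ¬ a ∈ s), ?_, Finsupp.filter_add_filter_not u _⟩
  · change (u.filter (· ∈ s)).support.card ≤ k
    rw [Finsupp.support_filter, Finset.filter_mem_eq_inter, Finset.inter_eq_right.mpr hs, hc]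
    exact min_le_left _ _
  · change (u.filter (fun a => ¬ a ∈ s)).support.card ≤ l
    rw [Finsupp.support_filter]
    have : Finset.filter (fun a => ¬ a ∈ s) u.support = u.support \ s := by
      ext a; simp
    rw [this, Finset.card_sdiff_of_subset hs, hc]
    omega

/-- an element of `B` with support of size exactly `k` -/
lemma exists_card (k : ℕ) : ∃ v : B, v.support.card = k := by
  classical
  refine ⟨Finsupp.indicator (Finset.range k) (fun _ _ => 1), ?_⟩
  have : (Finsupp.indicator (Finset.range k) (fun _ _ => (1 : ZMod 2))).support = Finset.range k := by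
    ext a
    simp [Finsupp.indicator_apply]
  rw [this, Finset.card_range]

/-- the approximating map -/
def fN (N : ℕ) : S → Set (GN N)
  | x k => {g | (∀ n : Fin N, (Multiplicative.toAdd g).1 n = (k : ZMod ((n : ℕ) + 3)) + 1) ∧
      (Multiplicative.toAdd g).2 ∈ ball (k + 1)}
  | y n i => {g | ∀ h : n < N, (Multiplicative.toAdd g).1 ⟨n, h⟩ ≠ i}
  | z => Set.univ

lemma one_ne (n : ℕ) : (1 : ZMod (n + 3)) ≠ 0 := by
  have : Fact (1 < n + 3) := ⟨by omega⟩
  exact one_ne_zero

lemma nonempty_fN (N : ℕ) (s : S) : (fN N s).Nonempty := by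
  cases s with
  | x k => exact ⟨mk (cst N k) 0, fun n => rfl, by
      change (0 : B) ∈ ball (k + 1)
      simp [ball]⟩
  | y n i =>
    by_cases h : n < N
    · refine ⟨mk (Function.update 0 ⟨n, h⟩ (i + 1)) 0, fun _ => ?_⟩
      change Function.update (0 : P N) ⟨n, h⟩ (i + 1) ⟨n, h⟩ ≠ i
      rw [Function.update_self]
      intro h2
      exact one_ne n (by simpa using h2)
    · exact ⟨1, fun h2 => absurd h2 h⟩
  | z => exact ⟨1, Set.mem_univ _⟩

lemma univ_mul' {G : Type} [Group G] {t : Set G} (ht : t.Nonempty) : (Set.univ : Set G) * t = Set.univ := by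
  obtain ⟨a, ha⟩ := ht
  refine Set.eq_univ_of_forall fun g => ?_
  exact Set.mem_mul.mpr ⟨g * a⁻¹, Set.mem_univ _, a, ha, by simp⟩

lemma mul_univ' {G : Type} [Group G] {t : Set G} (ht : t.Nonempty) : t * (Set.univ : Set G) = Set.univ := by
  obtain ⟨a, ha⟩ := ht
  refine Set.eq_univ_of_forall fun g => ?_
  exact Set.mem_mul.mpr ⟨a, ha, a⁻¹ * g, Set.mem_univ _, by simp⟩

lemma fN_xx (N k l : ℕ) : fN N (x (k + l + 1)) = fN N (x k) * fN N (x l) := by
  ext g
  rw [Set.mem_mul]
  constructor
  · rintro ⟨h1, h2⟩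
    have h2' : (Multiplicative.toAdd g).2 ∈ ball ((k + 1) + (l + 1)) := by
      have : k + l + 1 + 1 = (k + 1) + (l + 1) := by ring
      rw [← this]; exact h2
    obtain ⟨v, hv, w, hw, hvw⟩ := ball_split h2'
    refine ⟨mk (cst N k) v, ⟨fun n => rfl, hv⟩, mk (cst N l) w, ⟨fun n => rfl, hw⟩, ?_⟩
    change ((cst N k + cst N l, v + w) : P N × B) = Multiplicative.toAdd g
    refine Prod.ext ?_ hvw
    funext n
    rw [h1 n]
    push_cast
    change (k : ZMod ((n : ℕ) + 3)) + 1 + ((l : ZMod ((n : ℕ) + 3)) + 1) = _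
    ring
  · rintro ⟨a, ⟨ha1, ha2⟩, b, ⟨hb1, hb2⟩, rfl⟩
    refine ⟨fun n => ?_, ?_⟩
    · change (Multiplicative.toAdd a).1 n + (Multiplicative.toAdd b).1 n = _
      rw [ha1 n, hb1 n]
      push_cast
      ring
    · have := ball_add ha2 hb2
      have e : k + l + 1 + 1 = (k + 1) + (l + 1) := by ring
      rw [e]
      exact this

lemma fN_xy (N k n : ℕ) (i : ZMod (n + 3)) :
    fN N (y n (i + ((k : ZMod (n + 3)) + 1))) = fN N (x k) * fN N (y n i) := by
  ext g
  rw [Set.mem_mul]
  constructor
  · intro h1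
    refine ⟨mk (cst N k) 0, ⟨fun m => rfl, by
      change (0 : B) ∈ ball (k + 1)
      simp [ball]⟩, (mk (cst N k) 0)⁻¹ * g, fun h h2 => ?_, by simp⟩
    apply h1 h
    have h3 : -((k : ZMod (n + 3)) + 1) + (Multiplicative.toAdd g).1 ⟨n, h⟩ = i := h2
    rw [← h3]; ring
  · rintro ⟨a, ⟨ha1, ha2⟩, b, hb, rfl⟩
    intro h h2
    apply hb h
    have h3 : (Multiplicative.toAdd a).1 ⟨n, h⟩ + (Multiplicative.toAdd b).1 ⟨n, h⟩ = i + ((k : ZMod (n + 3)) + 1) := h2
    have h4 : (Multiplicative.toAdd a).1 ⟨n, h⟩ = (k : ZMod (n + 3)) + 1 := ha1 ⟨n, h⟩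
    rw [h4] at h3
    have h5 := add_left_cancel (h3.trans (add_comm _ _))
    exact h5

lemma fN_yy (N m n : ℕ) (i : ZMod (n + 3)) (j : ZMod (m + 3)) :
    (Set.univ : Set (GN N)) = fN N (y n i) * fN N (y m j) := by
  symm
  refine Set.eq_univ_of_forall fun g => ?_
  rw [Set.mem_mul]
  by_cases hn : n < N
  · by_cases hm : m < N
    · by_cases hnm : n = m
      · subst hnm
        obtain ⟨c, hc1, hc2⟩ : ∃ c : ZMod (n + 3), c ≠ i ∧ c ≠ (Multiplicative.toAdd g).1 ⟨n, hn⟩ - j := by
          have hcard : ({i, (Multiplicative.toAdd g).1 ⟨n, hn⟩ - j} : Finset (ZMod (n + 3))).card <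
              (Finset.univ : Finset (ZMod (n + 3))).card := by
            rw [Finset.card_univ, ZMod.card]
            have := Finset.card_le_two (a := i) (b := (Multiplicative.toAdd g).1 ⟨n, hn⟩ - j)
            omega
          obtain ⟨c, _, hc⟩ := Finset.exists_mem_notMem_of_card_lt_card hcard
          simp only [Finset.mem_insert, Finset.mem_singleton, not_or] at hc
          exact ⟨c, hc⟩
        refine ⟨mk (Function.update 0 ⟨n, hn⟩ c) 0, fun _ => ?_,
          (mk (Function.update 0 ⟨n, hn⟩ c) 0)⁻¹ * g, fun _ => ?_, by simp⟩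
        · change Function.update (0 : P N) ⟨n, hn⟩ c ⟨n, hn⟩ ≠ i
          rw [Function.update_self]
          exact hc1
        · change -(Function.update (0 : P N) ⟨n, hn⟩ c ⟨n, hn⟩) + (Multiplicative.toAdd g).1 ⟨n, hn⟩ ≠ j
          rw [Function.update_self]
          intro h
          apply hc2
          rw [← h]; ring
      · refine ⟨mk (Function.update (Function.update 0 ⟨n, hn⟩ (i + 1)) ⟨m, hm⟩
            ((Multiplicative.toAdd g).1 ⟨m, hm⟩ - j - 1)) 0, fun _ => ?_,
          (mk (Function.update (Function.update 0 ⟨n, hn⟩ (i + 1)) ⟨m, hm⟩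
            ((Multiplicative.toAdd g).1 ⟨m, hm⟩ - j - 1)) 0)⁻¹ * g, fun _ => ?_, by simp⟩
        · change Function.update (Function.update (0 : P N) ⟨n, hn⟩ (i + 1)) ⟨m, hm⟩
            ((Multiplicative.toAdd g).1 ⟨m, hm⟩ - j - 1) ⟨n, hn⟩ ≠ i
          rw [Function.update_of_ne (by simpa using hnm), Function.update_self]
          intro h
          exact one_ne n (by simpa using h)
        · change -(Function.update (Function.update (0 : P N) ⟨n, hn⟩ (i + 1)) ⟨m, hm⟩
            ((Multiplicative.toAdd g).1 ⟨m, hm⟩ - j - 1) ⟨m, hm⟩) + (Multiplicative.toAdd g).1 ⟨m, hm⟩ ≠ j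
          rw [Function.update_self]
          intro h
          apply one_ne m
          have : j + 1 = j := by
            linear_combination h
          simpa using this
    · obtain ⟨a, ha⟩ := nonempty_fN N (y n i)
      exact ⟨a, ha, a⁻¹ * g, fun h => absurd h hm, by simp⟩
  · obtain ⟨b, hb⟩ := nonempty_fN N (y m j)
    exact ⟨g * b⁻¹, fun h => absurd h hn, b, hb, by simp⟩

/-- the approximating homomorphism -/
def fNhom (N : ℕ) : S →ₙ* Set (GN N) where
  toFun := fN N
  map_mul' := by
    intro a b
    cases a with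
    | x k =>
      cases b with
      | x l => rw [xx]; exact fN_xx N k l
      | y n i => rw [xy]; exact fN_xy N k n i
      | z => rw [zr]; exact (mul_univ' (nonempty_fN N (x k))).symm
    | y n i =>
      cases b with
      | x l => rw [yx, mul_comm]; exact fN_xy N l n i
      | y m j => rw [yy]; exact fN_yy N m n i j
      | z => rw [zr]; exact (mul_univ' (nonempty_fN N (y n i))).symm
    | z => rw [zl]; exact (univ_mul' (nonempty_fN N b)).symm

/-- elements of level below `N` -/
def SN (N : ℕ) : Subsemigroup S where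
  carrier := {s | ∀ n i, s = y n i → n < N}
  mul_mem' := by
    intro a b ha hb n i h
    cases a with
    | x k =>
      cases b with
      | x l => rw [xx] at h; cases h
      | y m j => rw [xy] at h; injection h with h1 h2; subst h1; exact hb _ _ rfl
      | z => rw [zr] at h; cases h
    | y m j =>
      cases b with
      | x l => rw [yx] at h; injection h with h1 h2; subst h1; exact ha _ _ rfl
      | y m j => rw [yy] at h; cases h
      | z => rw [zr] at h; cases h
    | z => rw [zl] at h; cases h

lemma fN_inj (N : ℕ) (s t : S) (hs : s ∈ SN N) (ht : t ∈ SN N) (h : fN N s = fN N t) : s = t := by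
  have xpart : ∀ k l, fN N (x k) = fN N (x l) → k ≤ l := by
    intro k l hkl
    obtain ⟨v, hv⟩ := exists_card (k + 1)
    have h1 : mk (cst N k) v ∈ fN N (x k) :=
      ⟨fun n => rfl, le_of_eq hv⟩
    rw [hkl] at h1
    have h2 : v.support.card ≤ l + 1 := h1.2
    omega
  have xn : ∀ k s, (∀ l, s ≠ x l) → fN N (x k) ≠ fN N s := by
    intro k s hs' he
    obtain ⟨v, hv⟩ := exists_card (k + 2)
    have key : ∃ p : P N, mk p v ∈ fN N s := by
      obtain ⟨g, hg⟩ := nonempty_fN N s
      refine ⟨(Multiplicative.toAdd g).1, ?_⟩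
      cases s with
      | x l => exact absurd rfl (hs' l)
      | y n i => exact fun h => hg h
      | z => exact Set.mem_univ _
    obtain ⟨p, hp⟩ := key
    rw [← he] at hp
    have h2 : v.support.card ≤ k + 1 := hp.2
    omega
  have yz : ∀ n i, y n i ∈ SN N → fN N (y n i) ≠ fN N z := by
    intro n i hy he
    have hn : n < N := hy n i rfl
    have h1 : mk (Function.update 0 ⟨n, hn⟩ i) 0 ∈ fN N z := Set.mem_univ _
    rw [← he] at h1
    apply h1 hn
    change Function.update (0 : P N) ⟨n, hn⟩ i ⟨n, hn⟩ = i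
    rw [Function.update_self]
  cases s with
  | x k =>
    cases t with
    | x l =>
      have h1 := xpart k l h
      have h2 := xpart l k h.symm
      rw [le_antisymm h1 h2]
    | y n i => exact absurd h (xn k _ (by intro l hl; cases hl))
    | z => exact absurd h (xn k _ (by intro l hl; cases hl))
  | y n i =>
    cases t with
    | x l => exact absurd h.symm (xn l _ (by intro l hl; cases hl))
    | y m j =>
      have hn : n < N := hs n i rfl
      have hm : m < N := ht m j rfl
      by_cases hnm : n = m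
      · subst hnm
        by_cases hij : i = j
        · rw [hij]
        · exfalso
          have h1 : mk (Function.update 0 ⟨n, hn⟩ j) 0 ∈ fN N (y n i) := by
            intro _
            change Function.update (0 : P N) ⟨n, hn⟩ j ⟨n, hn⟩ ≠ i
            rw [Function.update_self]
            exact fun h => hij h.symm
          rw [h] at h1
          apply h1 hn
          change Function.update (0 : P N) ⟨n, hn⟩ j ⟨n, hn⟩ = j
          rw [Function.update_self]
      · exfalso
        have h1 : mk (Function.update (Function.update 0 ⟨n, hn⟩ (i + 1)) ⟨m, hm⟩ j) 0 ∈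
            fN N (y n i) := by
          intro _
          change Function.update (Function.update (0 : P N) ⟨n, hn⟩ (i + 1)) ⟨m, hm⟩ j ⟨n, hn⟩ ≠ i
          rw [Function.update_of_ne (by simpa using hnm), Function.update_self]
          intro h
          exact one_ne n (by simpa using h)
        rw [h] at h1
        apply h1 hm
        change Function.update (Function.update (0 : P N) ⟨n, hn⟩ (i + 1)) ⟨m, hm⟩ j ⟨m, hm⟩ = j
        rw [Function.update_self]
    | z => exact absurd h (yz n i hs)
  | z =>
    cases t with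
    | x l => exact absurd h.symm (xn l _ (by intro l hl; cases hl))
    | y m j => exact absurd h.symm (yz m j ht)
    | z => rfl

lemma exists_level (F : Finset S) : ∃ N, (F : Set S) ⊆ SN N := by
  classical
  induction F using Finset.induction_on with
  | empty => exact ⟨0, by simp⟩
  | insert a F _ ih =>
    obtain ⟨N, hN⟩ := ih
    have mono : ∀ {M M' : ℕ}, M ≤ M' → ∀ s ∈ SN M, s ∈ SN M' :=
      fun h s hs n i he => lt_of_lt_of_le (hs n i he) h
    cases a with
    | x k =>
      refine ⟨N, ?_⟩
      rw [Finset.coe_insert, Set.insert_subset_iff]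
      exact ⟨fun n i h => (nomatch h), hN⟩
    | y n i =>
      refine ⟨max N (n + 1), ?_⟩
      rw [Finset.coe_insert, Set.insert_subset_iff]
      refine ⟨fun m j h => ?_, fun s hs => mono (le_max_left _ _) s (hN hs)⟩
      injection h with h1 h2
      have := le_max_right N (n + 1)
      omega
    | z =>
      refine ⟨N, ?_⟩
      rw [Finset.coe_insert, Set.insert_subset_iff]
      exact ⟨fun n i h => (nomatch h), hN⟩

/-- The negation of the preceding statement: For every semigroup S: if each finitely generated subsemigroup of S embeds into the semigroup of all subsets of some torsion group, then S itself embeds into the semigroup of all subsets of some torsion group. -/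
theorem result :
    ¬ (∀ (S : Type) [Semigroup S],
      (∀ T : Subsemigroup S, (∃ F : Finset S, Subsemigroup.closure (F : Set S) = T) →
        ∃ (G : Type) (_ : Group G), Monoid.IsTorsion G ∧
          ∃ f : T →ₙ* Set G, Function.Injective f) →
      ∃ (G : Type) (_ : Group G), Monoid.IsTorsion G ∧
        ∃ f : S →ₙ* Set G, Function.Injective f) := by
  intro H
  obtain ⟨G, _, hG, f, hf⟩ := H S (by
    rintro T ⟨F, rfl⟩
    obtain ⟨N, hN⟩ := exists_level F
    have hle : Subsemigroup.closure (F : Set S) ≤ SN N := Subsemigroup.closure_le.mpr hN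
    refine ⟨GN N, inferInstance, torsionGN N, (fNhom N).comp (MulMemClass.subtype _), ?_⟩
    intro a b hab
    exact Subtype.ext (fN_inj N a b (hle a.2) (hle b.2) hab))
  -- the image of `x` is nonempty
  have hX : (f (x 0)).Nonempty := by
    rw [Set.nonempty_iff_ne_empty]
    intro h
    have h1 : f (x 1) = f (x 0) * f (x 0) := by rw [← map_mul]; rfl
    rw [h, Set.empty_mul] at h1
    have h2 : (x 1 : S) = x 0 := hf (h1.trans h.symm)
    cases h2
  obtain ⟨g, hg⟩ := hX
  have hpow : ∀ k : ℕ, g ^ (k + 1) ∈ f (x k) := by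
    intro k
    induction k with
    | zero => simpa using hg
    | succ k ih =>
      have h1 : f (x (k + 1)) = f (x k) * f (x 0) := by rw [← map_mul]; rfl
      rw [h1, pow_succ]
      exact Set.mul_mem_mul ih hg
  obtain ⟨m, hm0, hm⟩ := isOfFinOrder_iff_pow_eq_one.mp (hG g)
  have h1mem : (1 : G) ∈ f (x (m - 1)) := by
    have h := hpow (m - 1)
    rw [Nat.sub_add_cancel hm0, hm] at h
    exact h
  have hcast : (((m - 1 : ℕ) : ZMod (m + 3)) + 1) = (m : ZMod (m + 3)) := by
    have : ((m - 1 + 1 : ℕ) : ZMod (m + 3)) = (m : ZMod (m + 3)) := by rw [Nat.sub_add_cancel hm0]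
    rw [← this]; push_cast; rfl
  have hsub : ∀ i : ZMod (m + 3), f (y m i) ⊆ f (y m (i + (m : ZMod (m + 3)))) := by
    intro i a ha
    have h2 : f (y m (i + (m : ZMod (m + 3)))) = f (x (m - 1)) * f (y m i) := by
      rw [← map_mul, xy, hcast]
    rw [h2]
    have := Set.mul_mem_mul h1mem ha
    rwa [one_mul] at this
  have hsub2 : ∀ (t : ℕ) (i : ZMod (m + 3)), f (y m i) ⊆ f (y m (i + (t : ZMod (m + 3)) * (m : ZMod (m + 3)))) := by
    intro t
    induction t with
    | zero => intro i; simp
    | succ t ih =>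
      intro i
      refine (ih i).trans ?_
      have := hsub (i + (t : ZMod (m + 3)) * (m : ZMod (m + 3)))
      have e : i + (t : ZMod (m + 3)) * (m : ZMod (m + 3)) + (m : ZMod (m + 3)) =
        i + ((t + 1 : ℕ) : ZMod (m + 3)) * (m : ZMod (m + 3)) := by push_cast; ring
      rwa [e] at this
  have heq : f (y m 0) = f (y m (0 + (m : ZMod (m + 3)))) := by
    apply Set.Subset.antisymm (hsub 0)
    have h3 := hsub2 (m + 2) (0 + (m : ZMod (m + 3)))
    have e : (0 + (m : ZMod (m + 3))) + ((m + 2 : ℕ) : ZMod (m + 3)) * (m : ZMod (m + 3)) = 0 := by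
      have h4 : ((m + 3 : ℕ) : ZMod (m + 3)) = 0 := ZMod.natCast_self _
      have h5 : (0 + (m : ZMod (m + 3))) + ((m + 2 : ℕ) : ZMod (m + 3)) * (m : ZMod (m + 3)) =
        ((m + 3 : ℕ) : ZMod (m + 3)) * (m : ZMod (m + 3)) := by push_cast; ring
      rw [h5, h4, zero_mul]
    rwa [e] at h3
  have h6 := hf heq
  injection h6 with h7 h8
  rw [zero_add] at h8
  have h9 := (ZMod.natCast_eq_zero_iff m (m + 3)).mp h8.symm
  have := Nat.le_of_dvd hm0 h9
  omega

end Pool.Agent.S01276
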