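import Pool.Statements.S01282

set_option autoImplicit false
open Pool Pool.MP_783016_al

namespace Pool.Agent.S01282

open Polynomial

/-- `F₂[t]` -/
abbrev K0 : Type := (ZMod 2)[X]
/-- `F₂[t][x]` -/
abbrev SS : Type := K0[X]

theorem two_K0 (a : K0) : a + a = 0 := CharTwo.add_self_eq_zero a

theorem two_SS (a : SS) : a + a = 0 := CharTwo.add_self_eq_zero a

/-- the ring -/
def AA : Subalgebra SS (Fin 4 → SS) where
  carrier := {w | (w 1).coeff 0 = (w 0).coeff 0 ∧ (w 2).coeff 0 = (w 0).coeff 0 ∧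
    (w 3).coeff 0 = (w 0).coeff 0 ∧
    (w 0).coeff 1 + (w 1).coeff 1 + (w 2).coeff 1 + (w 3).coeff 1 = 0}
  mul_mem' := by
    rintro v w ⟨h1, h2, h3, h4⟩ ⟨k1, k2, k3, k4⟩
    simp only [Set.mem_ofPred_eq, Pi.mul_apply, mul_coeff_zero, mul_coeff_one]
    refine ⟨by rw [h1, k1], by rw [h2, k2], by rw [h3, k3], ?_⟩
    rw [h1, h2, h3, k1, k2, k3]
    linear_combination ((v 0).coeff 0) * k4 + ((w 0).coeff 0) * h4
  add_mem' := by
    rintro v w ⟨h1, h2, h3, h4⟩ ⟨k1, k2, k3, k4⟩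
    simp only [Set.mem_ofPred_eq, Pi.add_apply, coeff_add]
    refine ⟨by rw [h1, k1], by rw [h2, k2], by rw [h3, k3], ?_⟩
    linear_combination k4 + h4
  algebraMap_mem' := by
    intro s
    simp only [Set.mem_ofPred_eq, Pi.algebraMap_apply, Algebra.algebraMap_self, RingHom.id_apply,
      true_and]
    rw [two_K0, zero_add, two_K0]

instance : IsNoetherianRing AA := by
  have : Module.Finite SS AA := by
    have : IsNoetherian SS (Fin 4 → SS) := inferInstance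
    exact Module.IsNoetherian.finite SS (Subalgebra.toSubmodule AA)
  exact IsNoetherianRing.of_finite SS AA

/-- the vector `(1, t^m, (1+t)^m, 0)` -/
noncomputable def uu (m : ℕ) : Fin 4 → SS := ![1, C (X ^ m), C ((1 + X) ^ m), 0]

theorem xu_mem {m k : ℕ} (hk : 2 ≤ k) : (fun i => (X : SS) ^ k * uu m i) ∈ AA := by
  have h0 : ∀ p : SS, ((X : SS) ^ k * p).coeff 0 = 0 := fun p => by
    rw [coeff_X_pow_mul', if_neg (by omega)]
  have h1 : ∀ p : SS, ((X : SS) ^ k * p).coeff 1 = 0 := fun p => by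
    rw [coeff_X_pow_mul', if_neg (by omega)]
  refine ⟨?_, ?_, ?_, ?_⟩
  · show ((X : SS) ^ k * uu m 1).coeff 0 = ((X : SS) ^ k * uu m 0).coeff 0
    rw [h0, h0]
  · show ((X : SS) ^ k * uu m 2).coeff 0 = ((X : SS) ^ k * uu m 0).coeff 0
    rw [h0, h0]
  · show ((X : SS) ^ k * uu m 3).coeff 0 = ((X : SS) ^ k * uu m 0).coeff 0
    rw [h0, h0]
  · show ((X : SS) ^ k * uu m 0).coeff 1 + ((X : SS) ^ k * uu m 1).coeff 1 +
      ((X : SS) ^ k * uu m 2).coeff 1 + ((X : SS) ^ k * uu m 3).coeff 1 = 0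
    rw [h1, h1, h1, h1]; simp

theorem xu_mem_one {m : ℕ} :
    (fun i => (X : SS) ^ 1 * uu m i) ∈ AA ↔ (1 : K0) + X ^ m + (1 + X) ^ m = 0 := by
  have h0 : ∀ p : SS, ((X : SS) ^ 1 * p).coeff 0 = 0 := fun p => by
    rw [coeff_X_pow_mul', if_neg (by omega)]
  have h1 : ∀ p : SS, ((X : SS) ^ 1 * p).coeff 1 = p.coeff 0 := fun p => by
    rw [coeff_X_pow_mul', if_pos (by omega)]
  have hiff : (fun i => (X : SS) ^ 1 * uu m i) ∈ AA ↔
      ((X : SS) ^ 1 * uu m 1).coeff 0 = ((X : SS) ^ 1 * uu m 0).coeff 0 ∧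
      ((X : SS) ^ 1 * uu m 2).coeff 0 = ((X : SS) ^ 1 * uu m 0).coeff 0 ∧
      ((X : SS) ^ 1 * uu m 3).coeff 0 = ((X : SS) ^ 1 * uu m 0).coeff 0 ∧
      ((X : SS) ^ 1 * uu m 0).coeff 1 + ((X : SS) ^ 1 * uu m 1).coeff 1 +
      ((X : SS) ^ 1 * uu m 2).coeff 1 + ((X : SS) ^ 1 * uu m 3).coeff 1 = 0 := Iff.rfl
  have e0 : (uu m 0).coeff 0 = 1 := coeff_one_zero
  have e1 : (uu m 1).coeff 0 = X ^ m := coeff_C_zero
  have e2 : (uu m 2).coeff 0 = (1 + X) ^ m := coeff_C_zero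
  have e3 : (uu m 3).coeff 0 = 0 := coeff_zero 0
  rw [hiff]
  simp only [h0, h1, true_and]
  rw [e0, e1, e2, e3, add_zero]

theorem xu_mem_zero {m : ℕ} (h : uu m ∈ AA) : False := by
  have h3 : (uu m 3).coeff 0 = (uu m 0).coeff 0 := h.2.2.1
  simp [uu] at h3

/-- the element `x` of the ring -/
noncomputable def xx : AA := algebraMap SS AA X

/-- the element `f` -/
noncomputable def ff : AA := ⟨fun i => (X : SS) ^ 1 * uu 1 i, by
  rw [xu_mem_one]
  simp only [pow_one]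
  have : (1 : K0) + X + (1 + X) = (1 + 1) + (X + X) := by ring
  rw [this, two_K0, two_K0, add_zero]⟩

theorem uu_pow (m : ℕ) (hm : 1 ≤ m) (i : Fin 4) : (uu 1 i) ^ m = uu m i := by
  fin_cases i
  · simp [uu]
  · simp [uu]
  · simp [uu]
  · show (0 : SS) ^ m = 0
    exact zero_pow (by omega)

theorem ff_pow_val (m : ℕ) (hm : 1 ≤ m) : ((ff ^ m : AA) : Fin 4 → SS) =
    fun i => (X : SS) ^ m * uu m i := by
  funext i
  have : ((ff ^ m : AA) : Fin 4 → SS) i = ((X : SS) ^ 1 * uu 1 i) ^ m := rfl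
  rw [this, pow_one, mul_pow, uu_pow m hm]

theorem xx_pow_val (n : ℕ) : ((xx ^ n : AA) : Fin 4 → SS) = fun _ => (X : SS) ^ n := by
  funext i
  rfl

theorem dvd_iff {m n : ℕ} (hm : 1 ≤ m) : xx ^ n ∣ ff ^ m ↔
    (n + 2 ≤ m ∨ (n + 1 = m ∧ (1 : K0) + X ^ m + (1 + X) ^ m = 0)) := by
  constructor
  · rintro ⟨a, ha⟩
    have h1 : ∀ i, (X : SS) ^ m * uu m i = X ^ n * (a : Fin 4 → SS) i := by
      intro i
      have := congrArg (fun b : AA => (b : Fin 4 → SS) i) ha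
      have h2 : ((ff ^ m : AA) : Fin 4 → SS) i =
        ((xx ^ n : AA) : Fin 4 → SS) i * (a : Fin 4 → SS) i := this
      rw [ff_pow_val m hm, xx_pow_val] at h2
      exact h2
    rcases Nat.lt_or_ge m n with hlt | hge
    · exfalso
      have h2 := h1 0
      have h3 : uu m 0 = 1 := rfl
      obtain ⟨d, rfl⟩ : ∃ d, n = m + (d + 1) := ⟨n - m - 1, by omega⟩
      rw [h3, mul_one, pow_add, mul_assoc] at h2
      have h4 : (1 : SS) = X ^ (d + 1) * (a : Fin 4 → SS) 0 :=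
        mul_left_cancel₀ (pow_ne_zero m X_ne_zero) (by rw [mul_one]; exact h2)
      have h5 := congrArg (fun p : SS => p.coeff 0) h4
      simp only [coeff_X_pow_mul'] at h5
      rw [if_neg (by omega)] at h5
      simp at h5
    · obtain ⟨k, rfl⟩ : ∃ k, m = n + k := ⟨m - n, by omega⟩
      have h2 : (a : Fin 4 → SS) = fun i => (X : SS) ^ k * uu (n + k) i := by
        funext i
        have h3 := h1 i
        rw [pow_add, mul_assoc] at h3
        exact (mul_left_cancel₀ (pow_ne_zero n X_ne_zero) h3).symm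
      have h3 : (fun i => (X : SS) ^ k * uu (n + k) i) ∈ AA := h2 ▸ a.2
      rcases Nat.lt_or_ge k 2 with hk | hk
      · interval_cases k
        · exfalso
          apply xu_mem_zero (m := n + 0)
          have : (fun i => (X : SS) ^ 0 * uu (n + 0) i) = uu (n + 0) := by
            funext i; rw [pow_zero, one_mul]
          rw [this] at h3
          exact h3
        · right
          exact ⟨rfl, xu_mem_one.1 h3⟩
      · left; omega
  · intro h
    have key : ∀ k, m = n + k → (fun i => (X : SS) ^ k * uu m i) ∈ AA → xx ^ n ∣ ff ^ m := by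
      intro k hk hmem
      refine ⟨⟨_, hmem⟩, ?_⟩
      apply Subtype.ext
      rw [ff_pow_val m hm]
      funext i
      show (X : SS) ^ m * uu m i = X ^ n * (X ^ k * uu m i)
      rw [hk, pow_add, mul_assoc]
    rcases h with h | ⟨h, h'⟩
    · exact key (m - n) (by omega) (xu_mem (by omega))
    · exact key 1 h.symm (xu_mem_one.2 h')

theorem pow_two_zero (k : ℕ) : (1 : K0) + X ^ (2 ^ k) + (1 + X) ^ (2 ^ k) = 0 := by
  rw [add_pow_char_pow, one_pow]
  exact two_K0 _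

theorem ne_zero_of {k j : ℕ} (hj : 0 < j) (hjk : j < 2 ^ k) :
    (1 : K0) + X ^ (2 ^ k + j) + (1 + X) ^ (2 ^ k + j) ≠ 0 := by
  intro h
  rw [pow_add (1 + X), add_pow_char_pow, one_pow, add_mul, one_mul] at h
  have h2 := congrArg (fun p : K0 => p.coeff j) h
  simp only [coeff_add, coeff_zero, coeff_X_pow_mul', coeff_one] at h2
  rw [if_neg (by omega : ¬ j = 0), coeff_X_pow, if_neg (by omega), if_neg (by omega),
    add_comm (1 : K0) X, coeff_X_add_one_pow, Nat.choose_self] at h2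
  simp at h2

/-- the value of the function `v` -/
theorem v_val {m : ℕ} (hm : 1 ≤ m) (J I : Ideal AA) (hJ : J = Ideal.span {ff})
    (hI : I = Ideal.span {xx}) :
    {n : ℕ | J ^ m ≤ I ^ n} =
      {n | n + 2 ≤ m ∨ (n + 1 = m ∧ (1 : K0) + X ^ m + (1 + X) ^ m = 0)} := by
  ext n
  simp only [Set.mem_ofPred_eq]
  rw [hJ, hI, Ideal.span_singleton_pow, Ideal.span_singleton_pow,
    Ideal.span_singleton_le_span_singleton]
  exact dvd_iff hm

theorem v_pow {k : ℕ} (J I : Ideal AA) (hJ : J = Ideal.span {ff})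
    (hI : I = Ideal.span {xx}) :
    sSup {n : ℕ | J ^ (2 ^ k) ≤ I ^ n} + 1 = 2 ^ k := by
  have h1 : 1 ≤ 2 ^ k := Nat.one_le_two_pow
  rw [v_val h1 J I hJ hI]
  have : {n : ℕ | n + 2 ≤ 2 ^ k ∨ (n + 1 = 2 ^ k ∧ (1 : K0) + X ^ (2 ^ k) + (1 + X) ^ (2 ^ k) = 0)}
      = Set.Iic (2 ^ k - 1) := by
    ext n
    simp only [Set.mem_ofPred_eq, Set.mem_Iic]
    constructor
    · rintro (h | ⟨h, -⟩) <;> omega
    · intro h
      rcases Nat.lt_or_ge n (2 ^ k - 1) with h2 | h2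
      · left; omega
      · right; exact ⟨by omega, pow_two_zero k⟩
  rw [this, csSup_Iic]
  omega

theorem v_mid {k j : ℕ} (hj : 0 < j) (hjk : j < 2 ^ k) (J I : Ideal AA)
    (hJ : J = Ideal.span {ff}) (hI : I = Ideal.span {xx}) :
    sSup {n : ℕ | J ^ (2 ^ k + j) ≤ I ^ n} + 2 = 2 ^ k + j := by
  rw [v_val (by omega) J I hJ hI]
  have : {n : ℕ | n + 2 ≤ 2 ^ k + j ∨ (n + 1 = 2 ^ k + j ∧
      (1 : K0) + X ^ (2 ^ k + j) + (1 + X) ^ (2 ^ k + j) = 0)} = Set.Iic (2 ^ k + j - 2) := by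
    ext n
    simp only [Set.mem_ofPred_eq, Set.mem_Iic]
    constructor
    · rintro (h | ⟨-, h⟩)
      · omega
      · exact absurd h (ne_zero_of hj hjk)
    · intro h
      left; omega
  rw [this, csSup_Iic]
  omega

/-- The negation of the preceding statement: Let A be Noetherian, J ⊆ rad I, I not nilpotent, ⋂ Iⁿ = 0, J not nilpotent, and v(m) the largest n with Jᵐ ⊆ Iⁿ. Then some t > 0 satisfies v(m+1+t) − v(m+t) = v(m+1) − v(m) for all large m. -/
theorem result :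
    ¬ (∀ (A : Type) [CommRing A] [IsNoetherianRing A] (I J : Ideal A),
      J ≤ I.radical → (∀ n : ℕ, I ^ n ≠ ⊥) → (⨅ n : ℕ, I ^ n) = ⊥ →
      (∀ m : ℕ, J ^ m ≠ ⊥) →
      ∃ t : ℕ, 0 < t ∧ ∃ M : ℕ, ∀ m : ℕ, M ≤ m →
        ((sSup {n : ℕ | J ^ (m + 1 + t) ≤ I ^ n} : ℕ) : ℤ)
            - ((sSup {n : ℕ | J ^ (m + t) ≤ I ^ n} : ℕ) : ℤ)
          = ((sSup {n : ℕ | J ^ (m + 1) ≤ I ^ n} : ℕ) : ℤ)
            - ((sSup {n : ℕ | J ^ m ≤ I ^ n} : ℕ) : ℤ)) := by
  intro h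
  have a1 : Ideal.span {ff} ≤ (Ideal.span {xx}).radical := by
    rw [Ideal.span_le, Set.singleton_subset_iff]
    refine ⟨3, ?_⟩
    rw [Ideal.mem_span_singleton, ← pow_one xx]
    exact (dvd_iff (by norm_num)).2 (Or.inl (by norm_num))
  have a2 : ∀ n : ℕ, (Ideal.span {xx}) ^ n ≠ ⊥ := by
    intro n hn
    rw [Ideal.span_singleton_pow, Ideal.span_singleton_eq_bot] at hn
    have := congrArg (fun b : AA => (b : Fin 4 → SS) 0) hn
    have h2 : ((xx ^ n : AA) : Fin 4 → SS) 0 = 0 := this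
    rw [xx_pow_val] at h2
    exact pow_ne_zero n X_ne_zero h2
  have a3 : (⨅ n : ℕ, (Ideal.span {xx}) ^ n) = ⊥ := by
    rw [eq_bot_iff]
    intro a ha
    rw [Ideal.mem_bot]
    apply Subtype.ext
    funext i
    show (a : Fin 4 → SS) i = 0
    ext1 d
    have h1 : a ∈ (Ideal.span {xx}) ^ (d + 1) := by
      rw [Ideal.mem_iInf] at ha
      exact ha (d + 1)
    rw [Ideal.span_singleton_pow, Ideal.mem_span_singleton] at h1
    obtain ⟨b, hb⟩ := h1
    have h2 : (a : Fin 4 → SS) i = ((xx ^ (d + 1) : AA) : Fin 4 → SS) i * (b : Fin 4 → SS) i := by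
      rw [hb]; rfl
    rw [xx_pow_val] at h2
    rw [h2, coeff_X_pow_mul', if_neg (by omega), coeff_zero]
  have a4 : ∀ m : ℕ, (Ideal.span {ff}) ^ m ≠ ⊥ := by
    intro m hm
    rw [Ideal.span_singleton_pow, Ideal.span_singleton_eq_bot] at hm
    rcases Nat.eq_zero_or_pos m with h0 | h0
    · subst h0
      rw [pow_zero] at hm
      have := congrArg (fun b : AA => (b : Fin 4 → SS) 0) hm
      exact one_ne_zero (α := SS) this
    · have := congrArg (fun b : AA => (b : Fin 4 → SS) 0) hm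
      have h2 : ((ff ^ m : AA) : Fin 4 → SS) 0 = 0 := this
      rw [ff_pow_val m h0] at h2
      have h3 : (X : SS) ^ m * uu m 0 = 0 := h2
      have h4 : uu m 0 = 1 := rfl
      rw [h4, mul_one] at h3
      exact pow_ne_zero m X_ne_zero h3
  obtain ⟨t, ht, M, hM⟩ := h AA (Ideal.span {xx}) (Ideal.span {ff}) a1 a2 a3 a4
  have hbig : M + t + 2 < 2 ^ (M + t + 2) := Nat.lt_two_pow_self
  set k := M + t + 2 with hk
  have e := hM (2 ^ k) (by omega)
  have e1 := v_pow (k := k) (Ideal.span {ff}) (Ideal.span {xx}) rfl rfl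
  have e2 := v_mid (k := k) (j := 1) one_pos (by omega) (Ideal.span {ff}) (Ideal.span {xx})
    rfl rfl
  have e3 := v_mid (k := k) (j := t) ht (by omega) (Ideal.span {ff}) (Ideal.span {xx})
    rfl rfl
  have e4 := v_mid (k := k) (j := 1 + t) (by omega) (by omega) (Ideal.span {ff})
    (Ideal.span {xx}) rfl rfl
  rw [← add_assoc] at e4
  omega

end Pool.Agent.S01282
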