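import Pool.Statements.S01456
import Pool.Agent.Helper1.Baire4

set_option autoImplicit false
open Pool Pool.MP_8999af_al

namespace Pool.Agent.S01456

/-- The negation of the preceding statement: In a complete metric non-commutative topological group G, if U1,...,Un are homomorphisms G→G and x ↦ U1(x)⋯Un(x) is of some Baire class (iterated pointwise sequential limits of continuous maps), then that map is continuous. -/
theorem result :
    ¬ (∀ (G : Type) [Group G] [MetricSpace G] [IsTopologicalGroup G] [CompleteSpace G],
      (∃ a b : G, a * b ≠ b * a) →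
      ∀ (n : ℕ) (U : Fin n → G →* G),
        (∀ S : Set (G → G),
          (∀ f : G → G, Continuous f → f ∈ S) →
          (∀ (f : ℕ → G → G) (g : G → G), (∀ k, f k ∈ S) →
            (∀ x, Filter.Tendsto (fun k => f k x) Filter.atTop (nhds (g x))) → g ∈ S) →
          (fun x => (List.ofFn (fun i => U i x)).prod) ∈ S) →
        Continuous (fun x => (List.ofFn (fun i => U i x)).prod)) := by
  intro h
  apply Pool.Agent.Helper1.Baire4.not_cont
  apply h Pool.Agent.Helper1.Baire4.G
  · obtain ⟨a, b, hab⟩ := Pool.Agent.Helper1.Baire4.noncomm
    refine ⟨(1, a), (1, b), fun hh => hab ?_⟩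
    exact congrArg Prod.snd hh
  · intro S h0 h1
    exact h1 Pool.Agent.Helper1.Baire4.ap _
      (fun k => h0 _ (Pool.Agent.Helper1.Baire4.ap_cont k))
      (fun x => Pool.Agent.Helper1.Baire4.ap_lim x)

end Pool.Agent.S01456
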