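import Pool.Statements.S01521
import Pool.Agent.H3.CrystConv

set_option autoImplicit false
open Pool Pool.MP_908eba_al

namespace Pool.Agent.S01521

/-- For every crystallographic group Γ of motions of ℝ^{p,q}, only finitely many subgroups of Γ arise as the translation lattice under some faithful realisation of Γ as a crystallographic group of motions of ℝ^{p,q}. -/
theorem result :
  ∀ (p q : ℕ) (Γ : Subgroup ((Fin p ⊕ Fin q → ℝ) ≃ᵃ[ℝ] (Fin p ⊕ Fin q → ℝ))),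
    (∀ f ∈ Γ, ∀ v : Fin p ⊕ Fin q → ℝ,
      (∑ i : Fin p, (f.linear v (Sum.inl i)) ^ 2) - (∑ j : Fin q, (f.linear v (Sum.inr j)) ^ 2)
        = (∑ i : Fin p, (v (Sum.inl i)) ^ 2) - (∑ j : Fin q, (v (Sum.inr j)) ^ 2)) →
    (∃ b : Module.Basis (Fin p ⊕ Fin q) ℝ (Fin p ⊕ Fin q → ℝ),
      {w : Fin p ⊕ Fin q → ℝ | ∃ f ∈ Γ, f.linear = LinearEquiv.refl ℝ (Fin p ⊕ Fin q → ℝ) ∧ f 0 = w}
        = (Submodule.span ℤ (Set.range b) : Set (Fin p ⊕ Fin q → ℝ))) →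
    {L : Subgroup Γ | ∃ φ : Γ →* ((Fin p ⊕ Fin q → ℝ) ≃ᵃ[ℝ] (Fin p ⊕ Fin q → ℝ)),
        Function.Injective φ ∧
        (∀ g : Γ, ∀ v : Fin p ⊕ Fin q → ℝ,
          (∑ i : Fin p, ((φ g).linear v (Sum.inl i)) ^ 2) - (∑ j : Fin q, ((φ g).linear v (Sum.inr j)) ^ 2)
            = (∑ i : Fin p, (v (Sum.inl i)) ^ 2) - (∑ j : Fin q, (v (Sum.inr j)) ^ 2)) ∧
        (∃ b : Module.Basis (Fin p ⊕ Fin q) ℝ (Fin p ⊕ Fin q → ℝ),
          {w : Fin p ⊕ Fin q → ℝ | ∃ g : Γ, (φ g).linear = LinearEquiv.refl ℝ (Fin p ⊕ Fin q → ℝ) ∧ φ g 0 = w}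
            = (Submodule.span ℤ (Set.range b) : Set (Fin p ⊕ Fin q → ℝ))) ∧
        ∀ g : Γ, g ∈ L ↔ (φ g).linear = LinearEquiv.refl ℝ (Fin p ⊕ Fin q → ℝ)}.Finite := by
  intro p q Γ _ _
  classical
  let F : Set (Γ → Prop) := {P | ∃ S ∈ (Set.univ : Set (Pool.Agent.H3.Cryst.RR Γ (Fin p ⊕ Fin q))), P = S.L}
  have hF : F.Finite := Pool.Agent.H3.Cryst.RR.finite_L Set.univ
  refine Set.Finite.of_finite_image (f := fun L : Subgroup Γ => fun g => g ∈ L) (hF.subset ?_) ?_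
  · rintro _ ⟨L, ⟨φ, hinj, hQ, ⟨b, hb⟩, hL⟩, rfl⟩
    obtain ⟨R, hR⟩ := Pool.Agent.H3.Cryst.exists_RR φ b hinj hQ hb
    refine ⟨R, trivial, ?_⟩
    funext g
    exact propext ((hL g).trans (hR g).symm)
  · intro L _ L' _ h
    ext g
    exact iff_of_eq (congrFun h g)

end Pool.Agent.S01521
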