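import Pool.Statements.S01542
import Pool.Agent.H3.PsiSol
import Pool.Agent.H3.PsiPSL

set_option autoImplicit false
open Pool Pool.MP_9298fe_al

namespace Pool.Agent.S01542

/-- The negation of the preceding statement: For finite groups G and S of the same order, with G soluble and S simple and non-abelian, the sum of the element orders of S is strictly less than the sum of the element orders of G. -/
theorem result :
    ¬ (∀ (G S : Type) [Group G] [Fintype G] [Group S] [Fintype S],
      IsSolvable G → IsSimpleGroup S → (∃ a b : S, a * b ≠ b * a) →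
      Fintype.card G = Fintype.card S →
      (∑ x : S, orderOf x) < (∑ x : G, orderOf x)) := by
  intro h
  have hfin : Finite Pool.Agent.H3.Psi.PSL :=
    Nat.finite_of_card_ne_zero (by rw [Pool.Agent.H3.Psi.card_PSL]; norm_num)
  let _ : Fintype Pool.Agent.H3.Psi.PSL := Fintype.ofFinite _
  have h1 := h Pool.Agent.H3.Psi.G Pool.Agent.H3.Psi.PSL
    (show Group.IsSolvable Pool.Agent.H3.Psi.G from inferInstance) Pool.Agent.H3.Psi.simple_PSL
    Pool.Agent.H3.Psi.noncomm_PSL (by
      rw [Pool.Agent.H3.Psi.card_G, ← Nat.card_eq_fintype_card, Pool.Agent.H3.Psi.card_PSL])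
  have h2 := Pool.Agent.H3.Psi.psi_PSL
  have h3 := Pool.Agent.H3.Psi.psi_G
  omega

end Pool.Agent.S01542
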