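import Pool.Statements.S01626
-- import your own Pool.Agent.* helpers here
import Pool.Agent.H3.NilRepB
import Pool.Agent.H3.NilRepC

set_option autoImplicit false
open Pool Pool.MP_99e35a_al

namespace Pool.Agent.S01626

open Pool.Agent.H3.NilRep in
lemma word_prod (f : ℕ → T) (w : W) :
    mk f (MonoidAlgebra.single w 1) = ((FreeMonoid.toList w).map (xx f)).prod := by
  have h : ∀ l : List (Fin 3), mk f (MonoidAlgebra.single (FreeMonoid.ofList l) 1) = (l.map (xx f)).prod := by
    intro l
    induction l with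
    | nil =>
      rw [List.map_nil, List.prod_nil]
      exact map_one (mk f)
    | cons j l ih =>
      have h2 : (MonoidAlgebra.single (FreeMonoid.ofList (j :: l)) 1 : T) =
        MonoidAlgebra.single (FreeMonoid.of j) 1 * MonoidAlgebra.single (FreeMonoid.ofList l) 1 := by
        rw [MonoidAlgebra.single_mul_single, one_mul]; rfl
      rw [h2, map_mul, ih, List.map_cons, List.prod_cons]
      rfl
  exact h _

open Pool.Agent.H3.NilRep in
theorem main : ∃ (G : Type) (_ : Group G) (V : Type) (_ : AddCommGroup V) (_ : Module ℚ V)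
    (ρ : Representation ℚ G V), Nontrivial V ∧
      (∀ W : Submodule ℚ V, (∀ g : G, ∀ v ∈ W, ρ g v ∈ W) → W = ⊥ ∨ W = ⊤) ∧
      (∀ g : G, ∀ v : V, ∃ n : ℕ, ((ρ g - 1) ^ n) v = 0) ∧ ¬ ∀ g : G, ρ g = 1 := by
  obtain ⟨f, hf, h0, h1, hn⟩ := exists_rel
  refine main_abs (B := B f) (eps f hf h0) (nil f hf h0 hn) (xx f) (eps_xx f hf h0) (gam f hf)
    (gam_xx f hf) ?_
  intro n
  obtain ⟨φ, hφ, w, hw, hne⟩ := gs f hf h0 h1 n
  refine ⟨func f ⟨φ, hφ⟩, FreeMonoid.toList w, hw, ?_⟩
  rw [← word_prod, func_word]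
  exact hne

/-- The negation of the preceding statement: For any group G and char-0 field k, any nonzero k-representation V with no invariant subspaces besides 0 and V, in which each g−1 is nilpotent on each vector, has G acting as the identity. -/
theorem result :
    ¬ (∀ (k : Type) [Field k] [CharZero k] (G : Type) [Group G]
      (V : Type) [AddCommGroup V] [Module k V] (ρ : Representation k G V),
      Nontrivial V →
      (∀ W : Submodule k V, (∀ g : G, ∀ v ∈ W, ρ g v ∈ W) → W = ⊥ ∨ W = ⊤) →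
      (∀ g : G, ∀ v : V, ∃ n : ℕ, ((ρ g - 1) ^ n) v = 0) →
      ∀ g : G, ρ g = 1) := by
  intro h
  obtain ⟨G, _, V, _, _, ρ, h1, h2, h3, h4⟩ := main
  exact h4 (h ℚ G V ρ h1 h2 h3)

end Pool.Agent.S01626
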