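import Pool.Statements.S01629
-- import your own Pool.Agent.* helpers here
import Pool.Agent.H3.RevB

set_option autoImplicit false
open Pool Pool.MP_9aaefc_al

namespace Pool.Agent.S01629

open Pool.Agent.H3.Rev in
theorem inv_aux {n : ℕ} (F G : Fin n → A n) (hF : ∀ i, F i 0 = 0) (hG : ∀ i, G i 0 = 0)
    (h : ∀ i, MvPowerSeries.subst G (F i) = MvPowerSeries.X i) (k : ℕ) :
    (ind G hG k).comp (ind F hF k) = AlgHom.id ℂ _ := by
  apply hom_ext
  intro i
  rw [AlgHom.comp_apply, ind_mk, ind_mk, phi_X, phi_apply, h]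
  rfl

/-- For every n, if an invertible formal map F in n variables over ℂ satisfies F∘H∘F = H for some invertible formal map H, then some formal map K of finite compositional order also satisfies F∘K∘F = K. -/
theorem result :
    ∀ (n : ℕ) (F H : Fin n → MvPowerSeries (Fin n) ℂ),
      (∀ i, F i 0 = 0) →
      (∃ G : Fin n → MvPowerSeries (Fin n) ℂ, (∀ i, G i 0 = 0) ∧
          (∀ i, MvPowerSeries.subst G (F i) = MvPowerSeries.X i) ∧
          (∀ i, MvPowerSeries.subst F (G i) = MvPowerSeries.X i)) →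
      (∀ i, H i 0 = 0) →
      (∃ G : Fin n → MvPowerSeries (Fin n) ℂ, (∀ i, G i 0 = 0) ∧
          (∀ i, MvPowerSeries.subst G (H i) = MvPowerSeries.X i) ∧
          (∀ i, MvPowerSeries.subst H (G i) = MvPowerSeries.X i)) →
      (∀ i, MvPowerSeries.subst (fun j => MvPowerSeries.subst F (H j)) (F i) = H i) →
      ∃ K : Fin n → MvPowerSeries (Fin n) ℂ, (∀ i, K i 0 = 0) ∧
        (∃ k : ℕ, 1 ≤ k ∧
          (fun M : Fin n → MvPowerSeries (Fin n) ℂ => fun i => MvPowerSeries.subst M (K i))^[k]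
              (fun i => MvPowerSeries.X i) = (fun i => MvPowerSeries.X i)) ∧
        (∀ i, MvPowerSeries.subst (fun j => MvPowerSeries.subst F (K j)) (F i) = K i) := by
  intro n F H hF hFG hH hHG hrev
  obtain ⟨G, hG, hGF, hFG⟩ := hFG
  obtain ⟨G', hG', hGH, hHG⟩ := hHG
  obtain ⟨χ, hχ1, hχ2⟩ := Pool.Agent.H3.Rev.exists_chi
  -- F and G inverse on the quotients
  have e1 : ∀ k, (Pool.Agent.H3.Rev.ind G hG k).comp (Pool.Agent.H3.Rev.ind F hF k) = AlgHom.id ℂ _ :=
    inv_aux F G hF hG hGF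
  have e2 : ∀ k, (Pool.Agent.H3.Rev.ind F hF k).comp (Pool.Agent.H3.Rev.ind G hG k) = AlgHom.id ℂ _ :=
    inv_aux G F hG hF hFG
  have e3 : ∀ k, (Pool.Agent.H3.Rev.ind G' hG' k).comp (Pool.Agent.H3.Rev.ind H hH k) = AlgHom.id ℂ _ :=
    inv_aux H G' hH hG' hGH
  have hinj : Function.Injective (Pool.Agent.H3.Rev.ind H hH 2) := by
    intro a b hab
    have h1 := DFunLike.congr_fun (e3 2) a
    have h2 := DFunLike.congr_fun (e3 2) b
    rw [AlgHom.comp_apply, AlgHom.id_apply] at h1 h2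
    rw [← h1, ← h2, hab]
  -- reversing relation on quotients
  have hsub : ∀ (M : Fin n → MvPowerSeries (Fin n) ℂ) (hM : ∀ i, M i 0 = 0) (a : MvPowerSeries (Fin n) ℂ),
      MvPowerSeries.subst (fun j => MvPowerSeries.subst F (M j)) a =
        Pool.Agent.H3.Rev.phi F hF (Pool.Agent.H3.Rev.phi M hM a) := by
    intro M hM a
    rw [Pool.Agent.H3.Rev.phi_apply, Pool.Agent.H3.Rev.phi_apply]
    exact (MvPowerSeries.subst_comp_subst_apply (Pool.Agent.H3.Rev.hasSubst_of hM)
      (Pool.Agent.H3.Rev.hasSubst_of hF) a).symm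
  have e4 : ∀ k, ((Pool.Agent.H3.Rev.ind F hF k).comp (Pool.Agent.H3.Rev.ind H hH k)).comp
      (Pool.Agent.H3.Rev.ind F hF k) = Pool.Agent.H3.Rev.ind H hH k := by
    intro k
    apply Pool.Agent.H3.Rev.hom_ext
    intro i
    rw [AlgHom.comp_apply, AlgHom.comp_apply, Pool.Agent.H3.Rev.ind_mk, Pool.Agent.H3.Rev.ind_mk,
      Pool.Agent.H3.Rev.ind_mk, Pool.Agent.H3.Rev.ind_mk, Pool.Agent.H3.Rev.phi_X,
      Pool.Agent.H3.Rev.phi_X, ← hsub H hH, hrev]
  -- reversing relation for T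
  have e5 : ∀ k (b : Pool.Agent.H3.Rev.Bk n k), Pool.Agent.H3.Rev.ind F hF k
      (Pool.Agent.H3.Rev.Tk H hH χ k (Pool.Agent.H3.Rev.ind F hF k b)) =
        Pool.Agent.H3.Rev.Tk H hH χ k b := by
    intro k b
    have := Pool.Agent.H3.Rev.spec_rev (Pool.Agent.H3.Rev.ind H hH k).toLinearMap
      (Pool.Agent.H3.Rev.ind F hF k).toLinearMap (Pool.Agent.H3.Rev.ind G hG k).toLinearMap χ hχ1
      (by
        apply LinearMap.ext; intro x
        exact DFunLike.congr_fun (e2 k) x)
      (by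
        apply LinearMap.ext; intro x
        exact DFunLike.congr_fun (e1 k) x)
      (by
        apply LinearMap.ext; intro x
        exact DFunLike.congr_fun (e4 k) x)
    exact LinearMap.congr_fun this b
  obtain ⟨m, hm1, hm2⟩ := Pool.Agent.H3.Rev.finite_order H hH χ hχ2 hinj
  let K := Pool.Agent.H3.Rev.KK H hH χ
  have hK : ∀ i, K i 0 = 0 := Pool.Agent.H3.Rev.KK_zero H hH χ
  have hindK : ∀ k, Pool.Agent.H3.Rev.ind K hK k = Pool.Agent.H3.Rev.Tk H hH χ k :=
    Pool.Agent.H3.Rev.ind_KK H hH χ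
  refine ⟨K, hK, ⟨m, hm1, ?_⟩, ?_⟩
  · -- iterates
    have hit : ∀ j : ℕ, (∀ i, ((fun M : Fin n → MvPowerSeries (Fin n) ℂ => fun i =>
        MvPowerSeries.subst M (K i))^[j] (fun i => MvPowerSeries.X i)) i 0 = 0) ∧
        ∀ a, MvPowerSeries.subst ((fun M : Fin n → MvPowerSeries (Fin n) ℂ => fun i =>
        MvPowerSeries.subst M (K i))^[j] (fun i => MvPowerSeries.X i)) a =
          ((Pool.Agent.H3.Rev.phi K hK) ^ j) a := by
      intro j
      induction j with
      | zero =>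
        refine ⟨?_, ?_⟩
        · intro i
          show MvPowerSeries.coeff 0 (MvPowerSeries.X i : MvPowerSeries (Fin n) ℂ) = 0
          simp
        · intro a
          rw [Function.iterate_zero, id_eq, pow_zero, AlgHom.one_apply]
          have := MvPowerSeries.subst_self (σ := Fin n) (R := ℂ)
          exact congrFun this a
      | succ j ih =>
        obtain ⟨ih1, ih2⟩ := ih
        rw [Function.iterate_succ_apply']
        set N := ((fun M : Fin n → MvPowerSeries (Fin n) ℂ => fun i =>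
          MvPowerSeries.subst M (K i))^[j] (fun i => MvPowerSeries.X i)) with hN
        have hz : ∀ i, (MvPowerSeries.subst N (K i)) 0 = 0 := by
          intro i
          rw [← Pool.Agent.H3.Rev.J_one_iff, ← Pool.Agent.H3.Rev.phi_apply N ih1]
          exact Pool.Agent.H3.Rev.phi_J N ih1 (Pool.Agent.H3.Rev.J_one_iff.mpr (hK i))
        refine ⟨hz, ?_⟩
        intro a
        rw [pow_succ, AlgHom.mul_apply, ← ih2, Pool.Agent.H3.Rev.phi_apply]
        exact (MvPowerSeries.subst_comp_subst_apply (Pool.Agent.H3.Rev.hasSubst_of hK)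
          (Pool.Agent.H3.Rev.hasSubst_of ih1) a).symm
    funext i
    have h1 := (hit m).2 (MvPowerSeries.X i)
    rw [MvPowerSeries.subst_X (Pool.Agent.H3.Rev.hasSubst_of (hit m).1)] at h1
    rw [h1]
    apply Pool.Agent.H3.Rev.eq_of_mk
    intro k hk
    have hpow : ∀ (j : ℕ) (a : MvPowerSeries (Fin n) ℂ), Pool.Agent.H3.Rev.mk n k
        (((Pool.Agent.H3.Rev.phi K hK) ^ j) a) = ((Pool.Agent.H3.Rev.Tk H hH χ k) ^ j)
          (Pool.Agent.H3.Rev.mk n k a) := by
      intro j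
      induction j with
      | zero => intro a; simp
      | succ j ih =>
        intro a
        rw [pow_succ, pow_succ, AlgHom.mul_apply, AlgHom.mul_apply, ih, ← hindK,
          Pool.Agent.H3.Rev.ind_mk]
    rw [hpow, hm2 k hk, AlgHom.one_apply]
  · intro i
    rw [hsub K hK]
    apply Pool.Agent.H3.Rev.eq_of_mk
    intro k hk
    rw [← Pool.Agent.H3.Rev.ind_mk, ← Pool.Agent.H3.Rev.ind_mk, hindK]
    have h1 : Pool.Agent.H3.Rev.mk n k (F i) = Pool.Agent.H3.Rev.ind F hF k
        (Pool.Agent.H3.Rev.mk n k (MvPowerSeries.X i)) := by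
      rw [Pool.Agent.H3.Rev.ind_mk, Pool.Agent.H3.Rev.phi_X]
    rw [h1, e5, ← hindK, Pool.Agent.H3.Rev.ind_mk, Pool.Agent.H3.Rev.phi_X]

end Pool.Agent.S01629
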