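import Pool.Statements.S01696
-- import your own Pool.Agent.* helpers here

set_option autoImplicit false
open Pool Pool.MP_a19302_al

namespace Pool.Agent.S01696

abbrev Phi := ℕ × ℕ → ℚ

def L (k : ℕ) : ℕ := k * (k + 1) + 1

/-- the letter at position `i` of the `k`-th word -/
def lett (k i : ℕ) : Bool := decide ((k + 1) ∣ i)

def T (b : Bool) : Module.End ℚ Phi where
  toFun f := fun p => if p.2 < L p.1 ∧ b = lett p.1 p.2 then f (p.1, p.2 + 1) else 0
  map_add' f g := by
    funext p
    by_cases h : p.2 < L p.1 ∧ b = lett p.1 p.2 <;> simp [h]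
  map_smul' c f := by
    funext p
    by_cases h : p.2 < L p.1 ∧ b = lett p.1 p.2 <;> simp [h]

lemma T_apply (b : Bool) (f : Phi) (k i : ℕ) :
    T b f (k, i) = if i < L k ∧ b = lett k i then f (k, i + 1) else 0 := rfl

def A : Subalgebra ℚ (Module.End ℚ Phi) := Algebra.adjoin ℚ {T true, T false}

lemma T_mem (b : Bool) : T b ∈ A := by
  cases b
  · exact Algebra.subset_adjoin (by simp)
  · exact Algebra.subset_adjoin (by simp)

def t (b : Bool) : A := ⟨T b, T_mem b⟩

/-- triangularity -/
def P (z : Module.End ℚ Phi) : Prop := ∃ c : ℚ, ∀ (f : Phi) (k i : ℕ),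
  ((∀ j, i < j → f (k, j) = 0) ∨ L k ≤ i) → z f (k, i) = c * f (k, i)

lemma P_all (z : Module.End ℚ Phi) (hz : z ∈ A) : P z := by
  induction hz using Algebra.adjoin_induction with
  | mem x hx =>
    have : ∃ b, x = T b := by
      rcases hx with h | h
      · exact ⟨true, h⟩
      · exact ⟨false, h⟩
    obtain ⟨b, rfl⟩ := this
    refine ⟨0, ?_⟩
    intro f k i h
    rw [T_apply, zero_mul]
    rcases h with h | h
    · rw [h (i+1) (by omega)]; simp
    · rw [if_neg]; rintro ⟨h1, _⟩; omega
  | algebraMap r =>
    refine ⟨r, ?_⟩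
    intro f k i _
    rfl
  | add x y _ _ hx hy =>
    obtain ⟨c, hc⟩ := hx
    obtain ⟨d, hd⟩ := hy
    refine ⟨c + d, ?_⟩
    intro f k i h
    rw [LinearMap.add_apply, Pi.add_apply, hc f k i h, hd f k i h]
    ring
  | mul x y _ _ hx hy =>
    obtain ⟨c, hc⟩ := hx
    obtain ⟨d, hd⟩ := hy
    refine ⟨c * d, ?_⟩
    intro f k i h
    rw [Module.End.mul_apply, hc (y f) k i, hd f k i h]
    · ring
    · rcases h with h | h
      · left
        intro j hj
        rw [hd f k j (Or.inl (fun j' hj' => h j' (by omega))), h j hj, mul_zero]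
      · right; exact h

/-- the ideal of elements supported on chain `K` -/
def I (K : ℕ) : TwoSidedIdeal A :=
  TwoSidedIdeal.mk' {z : A | ∀ (f : Phi) (k i : ℕ), k ≠ K → z.1 f (k, i) = 0}
    (by intro f k i _; rfl)
    (by
      intro x y hx hy f k i hk
      show (x.1 + y.1) f (k, i) = 0
      rw [LinearMap.add_apply, Pi.add_apply, hx f k i hk, hy f k i hk, add_zero])
    (by
      intro x hx f k i hk
      show (- x.1) f (k, i) = 0
      rw [LinearMap.neg_apply, Pi.neg_apply, hx f k i hk, neg_zero])
    (by
      intro x y hy f k i hk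
      show x.1 (y.1 f) (k, i) = 0
      have key : ∀ z : Module.End ℚ Phi, z ∈ A → ∀ (g : Phi), (∀ j, g (k, j) = 0) → ∀ j, z g (k, j) = 0 := by
        intro z hz
        induction hz using Algebra.adjoin_induction with
        | mem x hx =>
          have : ∃ b, x = T b := by
            rcases hx with h | h
            · exact ⟨true, h⟩
            · exact ⟨false, h⟩
          obtain ⟨b, rfl⟩ := this
          intro g hg j
          rw [T_apply, hg]; simp
        | algebraMap r =>
          intro g hg j
          show r * g (k, j) = 0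
          rw [hg, mul_zero]
        | add x y _ _ hx hy =>
          intro g hg j
          rw [LinearMap.add_apply, Pi.add_apply, hx g hg j, hy g hg j, add_zero]
        | mul x y _ _ hx hy =>
          intro g hg j
          rw [Module.End.mul_apply]
          exact hx _ (hy g hg) j
      exact key x.1 x.2 (y.1 f) (fun j => hy f k j hk) i)
    (by
      intro x y hx f k i hk
      show x.1 (y.1 f) (k, i) = 0
      exact hx (y.1 f) k i hk)

lemma mem_I {K : ℕ} {z : A} : z ∈ I K ↔ ∀ (f : Phi) (k i : ℕ), k ≠ K → z.1 f (k, i) = 0 := by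
  unfold I
  rw [TwoSidedIdeal.mem_mk']
  rfl

lemma strict {K : ℕ} {z : A} (hz : z ∈ I K) (f : Phi) (i : ℕ)
    (h : (∀ j, i < j → f (K, j) = 0) ∨ L K ≤ i) : z.1 f (K, i) = 0 := by
  obtain ⟨c, hc⟩ := P_all z.1 z.2
  have hc0 : c = 0 := by
    have h1 := hc (fun p => if p.2 = 0 then 1 else 0) (K+1) 0 (Or.inl (by
      intro j hj
      show (if j = 0 then (1:ℚ) else 0) = 0
      rw [if_neg (by omega)]))
    rw [mem_I.mp hz _ _ _ (by omega)] at h1
    simp at h1
    exact h1.symm
  rw [hc f K i h, hc0, zero_mul]

lemma prod_vanish {K : ℕ} : ∀ (l : List A), (∀ z ∈ l, z ∈ I K) → ∀ (f : Phi) (i : ℕ),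
    L K < i + l.length → l ≠ [] → (l.prod).1 f (K, i) = 0 := by
  intro l
  induction l with
  | nil => intro _ _ _ _ h; exact absurd rfl h
  | cons z l ih =>
    intro hl f i hi _
    rw [List.prod_cons]
    show z.1 ((l.prod).1 f) (K, i) = 0
    apply strict (hl z (by simp))
    by_cases hnil : l = []
    · subst hnil
      right
      simp at hi
      omega
    · left
      intro j hj
      apply ih (fun w hw => hl w (by simp [hw])) f j _ hnil
      simp at hi
      omega

lemma I_nilp (K : ℕ) : ∃ m : ℕ, ∀ f : Fin m → A, (∀ i, f i ∈ I K) → (List.ofFn f).prod = 0 := by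
  refine ⟨L K + 1, ?_⟩
  intro f hf
  have hne : List.ofFn f ≠ [] := by
    intro h
    have := congrArg List.length h
    simp at this
  have hmem : ∀ z ∈ List.ofFn f, z ∈ I K := by
    intro z hz
    rw [List.mem_ofFn] at hz
    obtain ⟨i, rfl⟩ := hz
    exact hf i
  apply Subtype.ext
  apply LinearMap.ext
  intro g
  funext p
  obtain ⟨k, i⟩ := p
  show ((List.ofFn f).prod).1 g (k, i) = 0
  by_cases hk : k = K
  · subst hk
    apply prod_vanish _ hmem g i _ hne
    simp
    omega
  · obtain ⟨z, l, hl⟩ := List.exists_cons_of_ne_nil hne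
    rw [hl, List.prod_cons]
    have hz : z ∈ I K := hmem z (by rw [hl]; simp)
    exact mem_I.mp ((I K).mul_mem_right _ _ hz) g k i hk

/-- powers of y -/
lemma Tfalse_pow (m : ℕ) (f : Phi) (k i : ℕ) :
    ((T false) ^ m) f (k, i) = if (∀ j < m, i + j < L k ∧ lett k (i + j) = false) then f (k, i + m) else 0 := by
  induction m generalizing i with
  | zero => simp
  | succ m ih =>
    rw [pow_succ', Module.End.mul_apply, T_apply, ih]
    by_cases h : i < L k ∧ false = lett k i
    · rw [if_pos h]
      by_cases h2 : ∀ j < m, i + 1 + j < L k ∧ lett k (i + 1 + j) = false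
      · rw [if_pos h2, if_pos]
        · congr 2; omega
        · intro j hj
          rcases Nat.eq_zero_or_pos j with h0 | h0
          · subst h0; exact ⟨h.1, h.2.symm⟩
          · have := h2 (j - 1) (by omega)
            have e : i + 1 + (j - 1) = i + j := by omega
            rw [e] at this
            exact this
      · rw [if_neg h2, if_neg]
        intro h3
        apply h2
        intro j hj
        have := h3 (j+1) (by omega)
        have e : i + (j + 1) = i + 1 + j := by omega
        rw [e] at this
        exact this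
    · rw [if_neg h, if_neg]
      intro h3
      exact h ⟨(h3 0 (by omega)).1, ((h3 0 (by omega)).2).symm⟩

def s (K : ℕ) : A := t true * t false ^ K

lemma s_apply (K : ℕ) (f : Phi) (k i : ℕ) : (s K).1 f (k, i) =
    if i < L k ∧ true = lett k i then
      (if (∀ j < K, i + 1 + j < L k ∧ lett k (i + 1 + j) = false) then f (k, i + 1 + K) else 0) else 0 := by
  show (T true * (T false) ^ K) f (k, i) = _
  rw [Module.End.mul_apply, T_apply, Tfalse_pow]

lemma s_chain (K j : ℕ) (hj : j < K) (f : Phi) :
    (s K).1 f (K, j * (K + 1)) = f (K, (j + 1) * (K + 1)) := by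
  have hL : (j + 1) * (K + 1) ≤ K * (K + 1) := Nat.mul_le_mul_right _ (by omega)
  have e1 : (j + 1) * (K + 1) = j * (K + 1) + (K + 1) := by ring
  rw [s_apply, if_pos, if_pos]
  · congr 2; omega
  · intro l hl
    refine ⟨by unfold L; omega, ?_⟩
    unfold lett
    rw [decide_eq_false_iff_not]
    intro hd
    have h2 : (K + 1) ∣ (1 + l) := by
      have : j * (K + 1) + 1 + l = (1 + l) + j * (K + 1) := by omega
      rw [this] at hd
      exact (Nat.dvd_add_iff_left (Dvd.intro_left j rfl)).mpr hd
    have := Nat.le_of_dvd (by omega) h2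
    omega
  · refine ⟨by unfold L; omega, ?_⟩
    unfold lett
    rw [eq_comm, decide_eq_true_iff]
    exact Dvd.intro_left j rfl

lemma s_pow (K : ℕ) (m : ℕ) : ∀ (j : ℕ), j + m ≤ K → ∀ f : Phi,
    ((s K) ^ m).1 f (K, j * (K + 1)) = f (K, (j + m) * (K + 1)) := by
  induction m with
  | zero => intro j _ f; rfl
  | succ m ih =>
    intro j hj f
    rw [pow_succ']
    show (s K).1 (((s K) ^ m).1 f) (K, j * (K + 1)) = _
    rw [s_chain K j (by omega), ih (j + 1) (by omega)]
    congr 2
    congr 1
    omega

lemma s_sq_mem (K : ℕ) : s K * s K ∈ I K := by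
  rw [mem_I]
  intro f k i hk
  show (s K).1 ((s K).1 f) (k, i) = 0
  rw [s_apply, s_apply]
  by_cases h1 : i < L k ∧ true = lett k i
  · rw [if_pos h1]
    by_cases h2 : ∀ j < K, i + 1 + j < L k ∧ lett k (i + 1 + j) = false
    · rw [if_pos h2, if_neg]
      rintro ⟨_, h3⟩
      have d1 : (k + 1) ∣ i := of_decide_eq_true h1.2.symm
      have d2 : (k + 1) ∣ (i + 1 + K) := of_decide_eq_true h3.symm
      have d3 : (k + 1) ∣ (1 + K) := by
        have e : i + 1 + K = i + (1 + K) := by omega
        rw [e] at d2
        exact (Nat.dvd_add_iff_right d1).mpr d2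
      have hle := Nat.le_of_dvd (by omega) d3
      have hlt : k < K := by omega
      have := (h2 k hlt).2
      unfold lett at this
      rw [decide_eq_false_iff_not] at this
      apply this
      have e : i + 1 + k = i + (k + 1) := by omega
      rw [e]
      exact Nat.dvd_add d1 (dvd_refl _)
    · rw [if_neg h2]
  · rw [if_neg h1]

/-! growth -/

def word (l : List Bool) : A := (l.map t).prod

lemma word_nil : word [] = 1 := rfl
lemma word_cons (b : Bool) (l : List Bool) : word (b :: l) = t b * word l := by
  unfold word; rw [List.map_cons, List.prod_cons]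
lemma word_append (l l' : List Bool) : word (l ++ l') = word l * word l' := by
  unfold word; rw [List.map_append, List.prod_append]

def sub (k i : ℕ) : ℕ → List Bool
  | 0 => []
  | n + 1 => lett k i :: sub k (i + 1) n

lemma sub_length (n : ℕ) : ∀ k i, (sub k i n).length = n := by
  induction n with
  | zero => intro k i; rfl
  | succ n ih => intro k i; simp [sub, ih]

/-- a word acting nontrivially on chain k at i is the subword there -/
lemma word_apply (l : List Bool) : ∀ (f : Phi) (k i : ℕ), (word l).1 f (k, i) ≠ 0 →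
    l = sub k i l.length ∧ (l = [] ∨ i < L k) := by
  induction l with
  | nil => intro f k i _; exact ⟨rfl, Or.inl rfl⟩
  | cons b l ih =>
    intro f k i h
    rw [word_cons] at h
    change T b ((word l).1 f) (k, i) ≠ 0 at h
    rw [T_apply] at h
    by_cases h1 : i < L k ∧ b = lett k i
    · rw [if_pos h1] at h
      obtain ⟨h2, _⟩ := ih f k (i+1) h
      refine ⟨?_, Or.inr h1.1⟩
      rw [List.length_cons]
      show b :: l = lett k i :: sub k (i+1) l.length
      rw [← h2, h1.2]
    · rw [if_neg h1] at h
      exact absurd rfl h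

lemma sub_eq_of (n : ℕ) : ∀ (k i k' i' : ℕ), (∀ j < n, lett k (i + j) = lett k' (i' + j)) →
    sub k i n = sub k' i' n := by
  induction n with
  | zero => intro k i k' i' _; rfl
  | succ n ih =>
    intro k i k' i' h
    show lett k i :: _ = lett k' i' :: _
    rw [ih k (i+1) k' (i'+1)]
    · rw [show lett k i = lett k' i' from h 0 (by omega)]
    · intro j hj
      have := h (j+1) (by omega)
      rw [show i + 1 + j = i + (j + 1) by omega, show i' + 1 + j = i' + (j + 1) by omega]
      exact this

/-- long gaps can be shortened -/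
lemma sub_short (n k i l : ℕ) (hk : n ≤ k) (hl : l ≤ n) :
    ∃ i' ≤ n + 1, sub k i l = sub n i' l := by
  -- p = offset of the next multiple of k+1
  have hr : i % (k + 1) < k + 1 := Nat.mod_lt _ (by omega)
  have hdiv := Nat.div_add_mod i (k + 1)
  set q := i / (k + 1)
  set r := i % (k + 1)
  have hlett : ∀ j < l, (lett k (i + j) = true ↔ (r + j = k + 1 ∨ r + j = 0)) := by
    intro j hj
    unfold lett
    rw [decide_eq_true_iff]
    have e : i + j = (k + 1) * q + (r + j) := by omega
    rw [e, ← Nat.dvd_add_iff_right (Dvd.intro q rfl)]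
    constructor
    · rintro ⟨c, hc⟩
      rcases Nat.eq_zero_or_pos c with h0 | h0
      · subst h0; right; omega
      · rcases Nat.lt_or_ge c 2 with h2 | h2
        · have : c = 1 := by omega
          subst this; left; omega
        · have : (k + 1) * 2 ≤ (k + 1) * c := Nat.mul_le_mul_left _ h2
          omega
    · rintro (h | h)
      · rw [h]
      · rw [h]; exact dvd_zero _
  by_cases hcase : r = 0
  · refine ⟨0, by omega, ?_⟩
    apply sub_eq_of
    intro j hj
    rw [Bool.eq_iff_iff, hlett j hj]
    unfold lett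
    rw [decide_eq_true_iff]
    constructor
    · rintro (h | h)
      · omega
      · have : j = 0 := by omega
        subst this; exact dvd_zero _
    · intro h
      right
      rcases Nat.eq_zero_or_pos j with h0 | h0
      · omega
      · have := Nat.le_of_dvd (by omega) h
        omega
  · by_cases hp : k + 1 < r + l
    · -- multiple occurs at offset p = k+1-r < l
      refine ⟨n + 1 - (k + 1 - r), by omega, ?_⟩
      apply sub_eq_of
      intro j hj
      rw [Bool.eq_iff_iff, hlett j hj]
      unfold lett
      rw [decide_eq_true_iff]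
      constructor
      · rintro (h | h)
        · have : n + 1 - (k + 1 - r) + j = n + 1 := by omega
          rw [this]
        · omega
      · rintro ⟨c, hc⟩
        rcases Nat.eq_zero_or_pos c with h0 | h0
        · subst h0; omega
        · rcases Nat.lt_or_ge c 2 with h2 | h2
          · have : c = 1 := by omega
            subst this; left; omega
          · have : (n + 1) * 2 ≤ (n + 1) * c := Nat.mul_le_mul_left _ h2
            omega
    · refine ⟨1, by omega, ?_⟩
      apply sub_eq_of
      intro j hj
      rw [Bool.eq_iff_iff, hlett j hj]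
      unfold lett
      rw [decide_eq_true_iff]
      constructor
      · rintro (h | h)
        · omega
        · omega
      · intro h
        have := Nat.le_of_dvd (by omega) h
        omega

section abs
variable {B : Type} [Ring B] [Algebra ℚ B] (u : Bool → B)

def wd (l : List Bool) : B := (l.map u).prod

def V : Submodule ℚ B := Submodule.span ℚ {1, u true, u false}

def Pn (n : ℕ) : Submodule ℚ B := Submodule.span ℚ {z | ∃ l : List Bool, l.length ≤ n ∧ z = wd u l}

lemma V_pow (n : ℕ) : V u ^ n ≤ Pn u n := by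
  induction n with
  | zero =>
    rw [pow_zero, Submodule.one_le]
    exact Submodule.subset_span ⟨[], by simp, rfl⟩
  | succ n ih =>
    rw [pow_succ]
    have h1 : V u ^ n * V u ≤ Pn u n * V u := by gcongr
    refine le_trans h1 ?_
    unfold Pn V
    rw [Submodule.span_mul_span, Submodule.span_le]
    rintro z ⟨x, ⟨l, hl, rfl⟩, y, hy, rfl⟩
    apply Submodule.subset_span
    have key : ∀ b : Bool, wd u l * u b = wd u (l ++ [b]) := by
      intro b
      unfold wd
      rw [List.map_append, List.prod_append, List.map_singleton, List.prod_singleton]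
    rcases hy with rfl | rfl | rfl
    · exact ⟨l, by omega, mul_one _⟩
    · exact ⟨l ++ [true], by simp; omega, key true⟩
    · exact ⟨l ++ [false], by simp; omega, key false⟩

noncomputable def F (n : ℕ) : Finset B := by
  classical
  exact ((Finset.range (n+1)) ×ˢ ((Finset.range (n+1)) ×ˢ (Finset.range ((n+2)^2)))).image
    (fun p => wd u (sub p.2.1 p.2.2 p.1))

omit [Algebra ℚ B] in
lemma F_card (n : ℕ) : (F u n).card ≤ 4 * (n + 1) ^ 4 := by
  classical
  unfold F
  refine le_trans Finset.card_image_le ?_
  rw [Finset.card_product, Finset.card_product, Finset.card_range, Finset.card_range]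
  have h : (n + 2) ^ 2 ≤ 4 * (n + 1) ^ 2 := by
    have h1 : n + 2 ≤ 2 * (n + 1) := by omega
    calc (n + 2) ^ 2 ≤ (2 * (n + 1)) ^ 2 := Nat.pow_le_pow_left h1 2
      _ = 4 * (n + 1) ^ 2 := by ring
  calc (n + 1) * ((n + 1) * (n + 2) ^ 2) ≤ (n + 1) * ((n + 1) * (4 * (n + 1) ^ 2)) := by
        exact Nat.mul_le_mul_left _ (Nat.mul_le_mul_left _ h)
    _ = 4 * (n + 1) ^ 4 := by ring

omit [Algebra ℚ B] in
lemma mem_F {n l k i : ℕ} (hl : l ≤ n) (hk : k ≤ n) (hi : i < (n + 2) ^ 2) : wd u (sub k i l) ∈ F u n := by
  classical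
  unfold F
  rw [Finset.mem_image]
  refine ⟨(l, k, i), ?_, rfl⟩
  simp only [Finset.mem_product, Finset.mem_range]
  exact ⟨by omega, by omega, hi⟩

lemma Pn_le (hw : ∀ l : List Bool, wd u l ≠ 0 → ∃ k i, l = sub k i l.length ∧ (l = [] ∨ i < L k))
    (n : ℕ) : Pn u n ≤ Submodule.span ℚ (F u n : Set B) := by
  unfold Pn
  rw [Submodule.span_le]
  rintro z ⟨l, hl, rfl⟩
  by_cases h0 : wd u l = 0
  · rw [h0]; exact zero_mem _
  · apply Submodule.subset_span
    obtain ⟨k, i, h1, h2⟩ := hw l h0
    rw [Finset.mem_coe]
    rcases h2 with h2 | h2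
    · subst h2
      exact mem_F u (l := 0) (k := 0) (i := 0) (by omega) (by omega) (by positivity)
    · by_cases hk : k ≤ n
      · rw [h1]
        apply mem_F u hl hk
        unfold L at h2
        have : k * (k + 1) ≤ n * (n + 1) := Nat.mul_le_mul hk (by omega)
        have h3 : (n + 2) ^ 2 = n * (n + 1) + 3 * n + 4 := by ring
        omega
      · obtain ⟨i', hi', he⟩ := sub_short n k i l.length (by omega) hl
        rw [h1, he]
        apply mem_F u hl (le_refl _)
        have h3 : (n + 2) ^ 2 = n * n + 4 * n + 4 := by ring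
        have h4 : 0 ≤ n * n := Nat.zero_le _
        omega

lemma V_rank (hw : ∀ l : List Bool, wd u l ≠ 0 → ∃ k i, l = sub k i l.length ∧ (l = [] ∨ i < L k))
    (n : ℕ) : Module.finrank ℚ ↥(V u ^ n) ≤ 4 * (n + 1) ^ 4 := by
  have : FiniteDimensional ℚ (Submodule.span ℚ (F u n : Set B)) :=
    FiniteDimensional.span_of_finite ℚ (F u n).finite_toSet
  refine le_trans (Submodule.finrank_mono (le_trans (V_pow u n) (Pn_le u hw n))) ?_
  exact le_trans (finrank_span_finset_le_card (F u n)) (F_card u n)

theorem abs_hyp (hw : ∀ l : List Bool, wd u l ≠ 0 → ∃ k i, l = sub k i l.length ∧ (l = [] ∨ i < L k))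
    (htop : Algebra.adjoin ℚ ({u true, u false} : Set B) = ⊤) :
    Algebra.FiniteType ℚ B ∧ ∃ V : Submodule ℚ B, FiniteDimensional ℚ V ∧ (1 : B) ∈ V ∧
          Algebra.adjoin ℚ (V : Set B) = ⊤ ∧
          ∃ C d : ℕ, ∀ n : ℕ, Module.finrank ℚ ↥(V ^ n) ≤ C * (n + 1) ^ d := by
  refine ⟨⟨Subalgebra.fg_def.mpr ⟨{u true, u false}, Set.toFinite _, htop⟩⟩, V u,
    FiniteDimensional.span_of_finite ℚ (Set.toFinite _), Submodule.subset_span (by simp), ?_, 4, 4,
    V_rank u hw⟩
  rw [eq_top_iff, ← htop]
  apply Algebra.adjoin_mono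
  intro z hz
  apply Submodule.subset_span
  right; exact hz

end abs

lemma adjoin_top : Algebra.adjoin ℚ ({t true, t false} : Set A) = ⊤ := by
  rw [eq_top_iff]
  rintro ⟨z, hz⟩ _
  have key : ∀ z (hz : z ∈ A), (⟨z, hz⟩ : A) ∈ Algebra.adjoin ℚ ({t true, t false} : Set A) := by
    intro z hz
    unfold A at hz
    induction hz using Algebra.adjoin_induction with
    | mem x hx =>
      rcases hx with h | h
      · subst h; exact Algebra.subset_adjoin (by left; rfl)
      · have h' : x = T false := h
        subst h'; exact Algebra.subset_adjoin (by right; rfl)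
    | algebraMap r => exact Subalgebra.algebraMap_mem _ r
    | add x y hx hy ihx ihy => exact Subalgebra.add_mem _ ihx ihy
    | mul x y hx hy ihx ihy => exact Subalgebra.mul_mem _ ihx ihy
  exact key z hz

/-- The negation of the preceding statement: Every finitely generated associative algebra over a field with polynomially bounded growth (finite GK dimension) has a nilpotent two-sided ideal containing every nilpotent two-sided ideal. -/
theorem result :
    ¬ (∀ (k : Type) [Field k] (A : Type) [Ring A] [Algebra k A],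
      Algebra.FiniteType k A →
      (∃ V : Submodule k A, FiniteDimensional k V ∧ (1 : A) ∈ V ∧
          Algebra.adjoin k (V : Set A) = ⊤ ∧
          ∃ C d : ℕ, ∀ n : ℕ, Module.finrank k ↥(V ^ n) ≤ C * (n + 1) ^ d) →
      ∃ N : TwoSidedIdeal A,
        (∃ m : ℕ, ∀ f : Fin m → A, (∀ i, f i ∈ N) → (List.ofFn f).prod = 0) ∧
        ∀ I : TwoSidedIdeal A,
          (∃ m : ℕ, ∀ f : Fin m → A, (∀ i, f i ∈ I) → (List.ofFn f).prod = 0) → I ≤ N) := by
  intro h
  obtain ⟨a1, a2⟩ := abs_hyp (B := A) t (by
    intro l hl
    have : ∃ f k i, (word l).1 f (k, i) ≠ 0 := by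
      by_contra hcon
      push Not at hcon
      apply hl
      apply Subtype.ext
      apply LinearMap.ext
      intro f
      funext p
      exact hcon f p.1 p.2
    obtain ⟨f, k, i, hne⟩ := this
    exact ⟨k, i, word_apply l f k i hne⟩) adjoin_top
  obtain ⟨N, ⟨m, hm⟩, hmax⟩ := h ℚ A a1 a2
  have hI := hmax (I (2 * m)) (I_nilp (2 * m))
  have hz : s (2 * m) * s (2 * m) ∈ N := hI (s_sq_mem (2 * m))
  have h1 := hm (fun _ => s (2 * m) * s (2 * m)) (fun _ => hz)
  rw [List.ofFn_const, List.prod_replicate] at h1
  have h2 : (s (2 * m)) ^ (2 * m) = 0 := by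
    rw [pow_mul, pow_two]; exact h1
  have h3 := s_pow (2 * m) (2 * m) 0 (by omega) (fun _ => 1)
  rw [h2] at h3
  have h4 : (0 : ℚ) = 1 := h3
  norm_num at h4

end Pool.Agent.S01696
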