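import Pool.Statements.S01761
import Pool.Agent.H3.ACC
-- import your own Pool.Agent.* helpers here

set_option autoImplicit false
open Pool Pool.MP_a9e0e5_al

namespace Pool.Agent.S01761

open Pool.Agent.H3.ACA in
/-- transport of `ReflTransGen` of the frozen relation to `Re`. -/
theorem of_mem_comm {G : Type} [Group G] (x y : G)
    (h : Abelianization.of x = Abelianization.of y) :
    x⁻¹ * y ∈ ⁅(⊤ : Subgroup G), (⊤ : Subgroup G)⁆ := by
  have h1 : Abelianization.of (x⁻¹ * y) = 1 := by
    rw [map_mul, map_inv, h, inv_mul_cancel]
  exact (QuotientGroup.eq_one_iff (N := commutator G) (x⁻¹ * y)).1 h1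

theorem of_eq_of_mem {G : Type} [Group G] (x y : G)
    (h : x⁻¹ * y ∈ ⁅(⊤ : Subgroup G), (⊤ : Subgroup G)⁆) :
    Abelianization.of x = Abelianization.of y := by
  have h1 : Abelianization.of (x⁻¹ * y) = 1 :=
    (QuotientGroup.eq_one_iff (N := commutator G) (x⁻¹ * y)).2 h
  rw [map_mul, map_inv, inv_mul_eq_one] at h1
  exact h1

/-- For finite G with operator group Ω and k = minimal number of Ω-normal generators ≥ 2, two normally generating k-tuples are AC-equivalent (with conjugation by G and Ω) iff their images in G/[G,G] are AC-equivalent (with Ω-action). -/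
theorem result :
    ∀ (G Ω : Type) [Group G] [Finite G] [Group Ω] [MulDistribMulAction Ω G] (k : ℕ),
      2 ≤ k →
      (∃ u : Fin k → G, ∀ H : Subgroup G, H.Normal → (∀ ω : Ω, ∀ h ∈ H, ω • h ∈ H) →
          (∀ i, u i ∈ H) → H = ⊤) →
      (∀ m : ℕ, m < k → ∀ u : Fin m → G, ¬ (∀ H : Subgroup G, H.Normal →
          (∀ ω : Ω, ∀ h ∈ H, ω • h ∈ H) → (∀ i, u i ∈ H) → H = ⊤)) →
      ∀ U V : Fin k → G,
        (∀ H : Subgroup G, H.Normal → (∀ ω : Ω, ∀ h ∈ H, ω • h ∈ H) →
          (∀ i, U i ∈ H) → H = ⊤) →
        (∀ H : Subgroup G, H.Normal → (∀ ω : Ω, ∀ h ∈ H, ω • h ∈ H) →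
          (∀ i, V i ∈ H) → H = ⊤) →
        (Relation.ReflTransGen
            (fun a b : Fin k → G =>
              (∃ i j : Fin k, i ≠ j ∧
                (b = Function.update a i (a i * a j) ∨
                 b = Function.update a i (a i * (a j)⁻¹) ∨
                 b = Function.update a i (a j * a i) ∨
                 b = Function.update a i ((a j)⁻¹ * a i))) ∨
              (∃ i : Fin k, b = Function.update a i (a i)⁻¹) ∨
              (∃ (i : Fin k) (g : G), b = Function.update a i (g⁻¹ * a i * g)) ∨
              (∃ (i : Fin k) (ω : Ω), b = Function.update a i (ω • a i)))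
            U V ↔
          Relation.ReflTransGen
            (fun a b : Fin k → Abelianization G =>
              (∃ i j : Fin k, i ≠ j ∧
                (b = Function.update a i (a i * a j) ∨
                 b = Function.update a i (a i * (a j)⁻¹) ∨
                 b = Function.update a i (a j * a i) ∨
                 b = Function.update a i ((a j)⁻¹ * a i))) ∨
              (∃ i : Fin k, b = Function.update a i (a i)⁻¹) ∨
              (∃ (i : Fin k) (ω : Ω) (g : G), Abelianization.of g = a i ∧
                b = Function.update a i (Abelianization.of (ω • g))))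
            (fun i => Abelianization.of (U i)) (fun i => Abelianization.of (V i))) := by
  intro G Ω _ _ _ _ k hk _ _ U V hU hV
  have hU' : H3.ACA.Gen Ω k U := fun H hH h => hU H hH.1 hH.2 h
  have hV' : H3.ACA.Gen Ω k V := fun H hH h => hV H hH.1 hH.2 h
  constructor
  · intro h
    clear hV hV'
    induction h with
    | refl => exact Relation.ReflTransGen.refl
    | @tail b c _ h' ih =>
      have mp : ∀ (a : Fin k → G) (i : Fin k) (x : G),
          (fun l => Abelianization.of (Function.update a i x l))
            = Function.update (fun l => Abelianization.of (a l)) i (Abelianization.of x) := by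
        intro a i x
        funext l
        by_cases hl : l = i
        · subst hl; simp
        · simp [Function.update_of_ne hl]
      rcases h' with ⟨i, j, hij, h | h | h | h⟩ | ⟨i, h⟩ | ⟨i, g, h⟩ | ⟨i, ω, h⟩
      · refine ih.tail (Or.inl ⟨i, j, hij, Or.inl ?_⟩)
        rw [h, mp, map_mul]
      · refine ih.tail (Or.inl ⟨i, j, hij, Or.inr (Or.inl ?_)⟩)
        rw [h, mp, map_mul, map_inv]
      · refine ih.tail (Or.inl ⟨i, j, hij, Or.inr (Or.inr (Or.inl ?_))⟩)
        rw [h, mp, map_mul]
      · refine ih.tail (Or.inl ⟨i, j, hij, Or.inr (Or.inr (Or.inr ?_))⟩)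
        rw [h, mp, map_mul, map_inv]
      · refine ih.tail (Or.inr (Or.inl ⟨i, ?_⟩))
        rw [h, mp, map_inv]
      · have : (fun l => Abelianization.of (c l)) = (fun l => Abelianization.of (b l)) := by
          rw [h, mp]
          have e : Abelianization.of (g⁻¹ * b i * g) = Abelianization.of (b i) := by
            rw [map_mul, map_mul, map_inv, mul_comm, mul_inv_cancel_left]
          rw [e]
          exact Function.update_eq_self i _
        rw [this]
        exact ih
      · refine ih.tail (Or.inr (Or.inr ⟨i, ω, b i, rfl, ?_⟩))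
        rw [h, mp]
  · intro h
    -- lift the path
    have lift : ∀ x : Fin k → Abelianization G,
        Relation.ReflTransGen
            (fun a b : Fin k → Abelianization G =>
              (∃ i j : Fin k, i ≠ j ∧
                (b = Function.update a i (a i * a j) ∨
                 b = Function.update a i (a i * (a j)⁻¹) ∨
                 b = Function.update a i (a j * a i) ∨
                 b = Function.update a i ((a j)⁻¹ * a i))) ∨
              (∃ i : Fin k, b = Function.update a i (a i)⁻¹) ∨
              (∃ (i : Fin k) (ω : Ω) (g : G), Abelianization.of g = a i ∧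
                b = Function.update a i (Abelianization.of (ω • g))))
            (fun i => Abelianization.of (U i)) x →
        ∃ W : Fin k → G, H3.ACA.Re Ω k U W ∧ (fun l => Abelianization.of (W l)) = x := by
      intro x hx
      have mp : ∀ (a : Fin k → G) (i : Fin k) (x : G),
          (fun l => Abelianization.of (Function.update a i x l))
            = Function.update (fun l => Abelianization.of (a l)) i (Abelianization.of x) := by
        intro a i x
        funext l
        by_cases hl : l = i
        · subst hl; simp
        · simp [Function.update_of_ne hl]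
      induction hx with
      | refl => exact ⟨U, H3.ACA.Re.rf U, rfl⟩
      | @tail b c _ h' ih =>
        obtain ⟨W, hW, hWb⟩ := ih
        subst hWb
        rcases h' with ⟨i, j, hij, h | h | h | h⟩ | ⟨i, h⟩ | ⟨i, ω, g, hg, h⟩
        · refine ⟨_, Relation.ReflTransGen.tail hW (Or.inl ⟨i, j, hij, Or.inl rfl⟩), ?_⟩
          rw [h, mp, map_mul]
        · refine ⟨_, Relation.ReflTransGen.tail hW (Or.inl ⟨i, j, hij, Or.inr (Or.inl rfl)⟩), ?_⟩
          rw [h, mp, map_mul, map_inv]
        · refine ⟨_, Relation.ReflTransGen.tail hW
            (Or.inl ⟨i, j, hij, Or.inr (Or.inr (Or.inl rfl))⟩), ?_⟩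
          rw [h, mp, map_mul]
        · refine ⟨_, Relation.ReflTransGen.tail hW
            (Or.inl ⟨i, j, hij, Or.inr (Or.inr (Or.inr rfl))⟩), ?_⟩
          rw [h, mp, map_mul, map_inv]
        · refine ⟨_, Relation.ReflTransGen.tail hW (Or.inr (Or.inl ⟨i, rfl⟩)), ?_⟩
          rw [h, mp, map_inv]
        · refine ⟨_, Relation.ReflTransGen.tail hW (Or.inr (Or.inr (Or.inr ⟨i, ω, rfl⟩))), ?_⟩
          rw [h, mp]
          congr 1
          apply of_eq_of_mem
          have h1 := of_mem_comm (W i) g hg.symm
          have hc := H3.ACA.inv_comm (H3.ACA.inv_top (G := G) (Ω := Ω))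
            (H3.ACA.inv_top (G := G) (Ω := Ω))
          have h2 := hc.2 ω _ h1
          rwa [smul_mul', smul_inv'] at h2
    obtain ⟨W, hW, hWV⟩ := lift _ h
    have hfin : H3.ACA.Re Ω k W V := by
      apply H3.ACA.main' hk W V (H3.ACA.re_gen hW hU') hV'
      intro i
      exact of_mem_comm _ _ (congrFun hWV i)
    exact hW.tr hfin

end Pool.Agent.S01761
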