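import Pool.Statements.S01998

set_option autoImplicit false
open Pool Pool.MP_c12e41_al

namespace Pool.Agent.S01998

/-- configurations of signs on the integers -/
abbrev C := ℤ → ℤˣ

def sh (n : ℤ) (x : C) : C := fun i => x (i + n)

lemma sh_zero (x : C) : sh 0 x = x := by funext i; simp [sh]

lemma sh_sh (m n : ℤ) (x : C) : sh m (sh n x) = sh (n + m) x := by
  funext i; simp only [sh]; congr 1; ring

/-- a lamplighter type group -/
@[ext] structure G where
  n : ℤ
  χ : C → ℤˣ
  loc : ∃ r : ℕ, ∀ x y : C, (∀ i : ℤ, i.natAbs ≤ r → x i = y i) → χ x = χ y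

namespace G

instance : Mul G := ⟨fun p q => ⟨p.n + q.n, fun x => p.χ x * q.χ (sh p.n x), by
  obtain ⟨r1, h1⟩ := p.loc
  obtain ⟨r2, h2⟩ := q.loc
  refine ⟨r1 + r2 + p.n.natAbs, fun x y hxy => ?_⟩
  have e1 : p.χ x = p.χ y := h1 x y (fun i hi => hxy i (by omega))
  have e2 : q.χ (sh p.n x) = q.χ (sh p.n y) := h2 _ _ (fun i hi => hxy _ (by omega))
  rw [e1, e2]⟩⟩

instance : One G := ⟨⟨0, fun _ => 1, ⟨0, fun _ _ _ => rfl⟩⟩⟩

instance : Inv G := ⟨fun p => ⟨-p.n, fun x => (p.χ (sh (-p.n) x))⁻¹, by
  obtain ⟨r1, h1⟩ := p.loc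
  refine ⟨r1 + p.n.natAbs, fun x y hxy => ?_⟩
  have e1 : p.χ (sh (-p.n) x) = p.χ (sh (-p.n) y) :=
    h1 _ _ (fun i hi => hxy _ (by omega))
  rw [e1]⟩⟩

@[simp] lemma mul_n (p q : G) : (p * q).n = p.n + q.n := rfl
@[simp] lemma mul_χ (p q : G) (x : C) : (p * q).χ x = p.χ x * q.χ (sh p.n x) := rfl
@[simp] lemma one_n : (1 : G).n = 0 := rfl
@[simp] lemma one_χ (x : C) : (1 : G).χ x = 1 := rfl
@[simp] lemma inv_n (p : G) : (p⁻¹).n = -p.n := rfl
@[simp] lemma inv_χ (p : G) (x : C) : (p⁻¹).χ x = (p.χ (sh (-p.n) x))⁻¹ := rfl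

instance : Group G := Group.ofLeftAxioms
  (by
    intro p q r
    refine G.ext ?_ ?_
    · simp [add_assoc]
    · funext x; simp [mul_assoc, sh_sh])
  (by
    intro p
    refine G.ext ?_ ?_
    · simp
    · funext x; simp [sh_zero])
  (by
    intro p
    refine G.ext ?_ ?_
    · simp
    · funext x; simp)

def A (i : ℤ) : G := ⟨0, fun x => x i, ⟨i.natAbs, fun x y h => h i (by omega)⟩⟩
def T (k : ℤ) : G := ⟨k, fun _ => 1, ⟨0, fun _ _ _ => rfl⟩⟩

lemma A_comm (i j : ℤ) : A i * A j = A j * A i := by
  refine G.ext ?_ ?_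
  · simp [A]
  · funext x; simp [A, sh_zero, mul_comm]

lemma A_sq (i : ℤ) : A i * A i = 1 := by
  refine G.ext ?_ ?_
  · simp [A]
  · funext x; simp [A, sh_zero]

lemma T_A (k i : ℤ) : T k * A i = A (i + k) * T k := by
  refine G.ext ?_ ?_
  · simp [A, T]
  · funext x; simp [A, T, sh]

lemma T_T (k l : ℤ) : T k * T l = T (k + l) := by
  refine G.ext ?_ ?_
  · simp [T]
  · funext x; simp [T]

end G

open G

abbrev KG := MonoidAlgebra ℚ G

def ev (x : C) (g : G) : ℚ := (((g.χ x : ℤˣ) : ℤ) : ℚ)

noncomputable def R (x : C) (j : ℤ) : KG →+ ℚ where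
  toFun β := β.coeff.sum (fun g c => if g.n = j then c * ev x g else 0)
  map_zero' := by simp
  map_add' a b := by
    rw [MonoidAlgebra.coeff_add]
    apply Finsupp.sum_add_index'
    · intro g; simp
    · intro g c d; split_ifs <;> simp [add_mul]

lemma R_single (x : C) (j : ℤ) (g : G) (c : ℚ) :
    R x j (MonoidAlgebra.single g c) = if g.n = j then c * ev x g else 0 := by
  change (MonoidAlgebra.single g c).coeff.sum (fun g c => if g.n = j then c * ev x g else 0) = _
  rw [MonoidAlgebra.coeff_single, Finsupp.sum_single_index]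
  simp

/-- right multiplication by a group element -/
lemma R_mul_right (x : C) (j : ℤ) (β : KG) (g : G) :
    R x j (β * MonoidAlgebra.single g 1) = R x (j - g.n) β * ev (sh (j - g.n) x) g := by
  induction β using MonoidAlgebra.induction_linear with
  | zero => simp
  | add a b ha hb => rw [add_mul, map_add, map_add, ha, hb, add_mul]
  | single h c =>
    rw [MonoidAlgebra.single_mul_single, R_single, R_single]
    by_cases hh : h.n = j - g.n
    · have h2 : (h * g).n = j := by simp [hh]
      rw [if_pos h2, if_pos hh]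
      simp [ev, hh]; ring
    · have h2 : ¬ (h * g).n = j := by simp; omega
      rw [if_neg h2, if_neg hh, zero_mul]

lemma R_mul_left (x : C) (j : ℤ) (β : KG) (g : G) (d : ℚ) :
    R x j (MonoidAlgebra.single g d * β) = d * ev x g * R (sh g.n x) (j - g.n) β := by
  induction β using MonoidAlgebra.induction_linear with
  | zero => simp
  | add a b ha hb => rw [mul_add, map_add, map_add, ha, hb, mul_add]
  | single h c =>
    rw [MonoidAlgebra.single_mul_single, R_single, R_single]
    by_cases hh : h.n = j - g.n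
    · have h2 : (g * h).n = j := by simp [hh]
      rw [if_pos h2, if_pos hh]
      simp [ev]; ring
    · have h2 : ¬ (g * h).n = j := by simp; omega
      rw [if_neg h2, if_neg hh, mul_zero]

noncomputable def a' (i : ℤ) : KG := MonoidAlgebra.single (A i) 1
noncomputable def t' (k : ℤ) : KG := MonoidAlgebra.single (T k) 1

noncomputable def α : KG := (1 + a' 0) * t' 1 + t' (-1) * (1 + a' 0)

lemma a'_comm (i j : ℤ) : a' i * a' j = a' j * a' i := by
  unfold a'; rw [MonoidAlgebra.single_mul_single, MonoidAlgebra.single_mul_single, A_comm]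
lemma a'_sq (i : ℤ) : a' i * a' i = 1 := by
  unfold a'; rw [MonoidAlgebra.single_mul_single, A_sq, mul_one]; rfl
lemma t'_a' (k i : ℤ) : t' k * a' i = a' (i + k) * t' k := by
  unfold a' t'; rw [MonoidAlgebra.single_mul_single, MonoidAlgebra.single_mul_single, T_A]
lemma t'_t' (k l : ℤ) : t' k * t' l = t' (k + l) := by
  unfold t'; rw [MonoidAlgebra.single_mul_single, T_T, mul_one]

lemma α_eq : α = (1 + a' 0) * t' 1 + (1 + a' (-1)) * t' (-1) := by
  unfold α
  rw [mul_add (t' (-1)), mul_one, t'_a']
  rw [add_mul (1 : KG) (a' (-1)), one_mul]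
  norm_num

/-- the row of the product with `α` -/
lemma R_mul_α (x : C) (j : ℤ) (β : KG) :
    R x j (β * α) = R x (j - 1) β * (1 + ((x (j - 1) : ℤ) : ℚ))
      + R x (j + 1) β * (1 + ((x j : ℤ) : ℚ)) := by
  have h1 : α = MonoidAlgebra.single (T 1) 1 + MonoidAlgebra.single (A 0 * T 1) 1
      + (MonoidAlgebra.single (T (-1)) 1 + MonoidAlgebra.single (A (-1) * T (-1)) 1) := by
    rw [α_eq]
    unfold a' t'
    rw [add_mul, add_mul, one_mul, one_mul, MonoidAlgebra.single_mul_single,
      MonoidAlgebra.single_mul_single, mul_one]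
  rw [h1, mul_add, mul_add, mul_add, map_add, map_add, map_add, R_mul_right, R_mul_right,
    R_mul_right, R_mul_right]
  simp [T, A, ev, sh_zero, sh]
  ring

lemma R_finite (x : C) (β : KG) : ∃ N : ℕ, ∀ j : ℤ, N < j.natAbs → R x j β = 0 := by
  induction β using MonoidAlgebra.induction_linear with
  | zero => exact ⟨0, fun j _ => by simp⟩
  | add a b ha hb =>
    obtain ⟨N1, h1⟩ := ha
    obtain ⟨N2, h2⟩ := hb
    refine ⟨N1 + N2, fun j hj => ?_⟩
    rw [map_add, h1 j (by omega), h2 j (by omega), add_zero]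
  | single h c =>
    refine ⟨h.n.natAbs, fun j hj => ?_⟩
    rw [R_single, if_neg]
    omega

/-- Lemma 1. -/
lemma lemma1 (x : C) (c : ℤ) (hx : ∀ i, i ≠ c → x i = 1) (β : KG) (hβ : β * α = 0) (j : ℤ) :
    R x j β = 0 := by
  obtain ⟨N, hN⟩ := R_finite x β
  have hrec : ∀ j : ℤ, R x (j - 1) β * (1 + ((x (j - 1) : ℤ) : ℚ))
      + R x (j + 1) β * (1 + ((x j : ℤ) : ℚ)) = 0 := by
    intro j
    rw [← R_mul_α, hβ, map_zero]
  rcases lt_or_ge c j with hj | hj
  · -- downward
    have key : ∀ m : ℕ, ∀ j : ℤ, c < j → (N : ℤ) + 1 - j ≤ m → R x j β = 0 := by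
      intro m
      induction m with
      | zero =>
        intro j _ h2
        apply hN
        push_cast at h2
        omega
      | succ m ih =>
        intro j h1 h2
        have h3 := hrec (j + 1)
        have e1 : j + 1 - 1 = j := by ring
        have e2 : j + 1 + 1 = j + 2 := by ring
        rw [e1, e2, hx j (by omega), hx (j+1) (by omega), ih (j + 2) (by omega) (by push_cast at h2; omega)] at h3
        simp at h3
        linarith
    exact key ((N : ℤ) + 1 - j).toNat j hj (by omega)
  · have key : ∀ m : ℕ, ∀ j : ℤ, j ≤ c → j + (N : ℤ) + 1 ≤ m → R x j β = 0 := by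
      intro m
      induction m with
      | zero =>
        intro j _ h2
        apply hN
        push_cast at h2
        omega
      | succ m ih =>
        intro j h1 h2
        have h3 := hrec (j - 1)
        have e1 : j - 1 - 1 = j - 2 := by ring
        have e2 : j - 1 + 1 = j := by ring
        rw [e1, e2, hx (j - 1) (by omega), hx (j - 2) (by omega), ih (j - 2) (by omega) (by push_cast at h2; omega)] at h3
        simp at h3
        linarith
    exact key (j + (N : ℤ) + 1).toNat j hj (by omega)

/-- Locality. -/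
lemma R_congr (x y : C) (r : ℕ) (hxy : ∀ i : ℤ, i.natAbs ≤ r → x i = y i) (β : KG)
    (hβ : ∀ g ∈ β.coeff.support, ∀ x y : C, (∀ i : ℤ, i.natAbs ≤ r → x i = y i) → g.χ x = g.χ y) (j : ℤ) :
    R x j β = R y j β := by
  change β.coeff.sum (fun g c => if g.n = j then c * ev x g else 0)
    = β.coeff.sum (fun g c => if g.n = j then c * ev y g else 0)
  unfold Finsupp.sum
  apply Finset.sum_congr rfl
  intro g hg
  have h := hβ g hg x y hxy
  simp only [ev, h]

noncomputable def rad (g : G) : ℕ := g.loc.choose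
lemma rad_spec (g : G) : ∀ x y : C, (∀ i : ℤ, i.natAbs ≤ rad g → x i = y i) → g.χ x = g.χ y :=
  g.loc.choose_spec

/-- the product of idempotent-like factors -/
noncomputable def E (N : ℤ) : ℕ → KG
  | 0 => (1 - a' (-1)) * (1 - a' N)
  | (m + 1) => (1 + a' m) * E N m

lemma a'_commute (i j : ℤ) : Commute (a' i) (a' j) := a'_comm i j

lemma E_comm (N : ℤ) (m : ℕ) (i : ℤ) : Commute (E N m) (a' i) := by
  induction m with
  | zero =>
    unfold E
    apply Commute.mul_left
    · exact (Commute.one_left _).sub_left (a'_commute _ _)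
    · exact (Commute.one_left _).sub_left (a'_commute _ _)
  | succ m ih =>
    unfold E
    apply Commute.mul_left
    · exact (Commute.one_left _).add_left (a'_commute _ _)
    · exact ih

lemma fac_comm (i j : ℤ) (a b : ℚ) : (1 + a • a' i) * (1 + b • a' j) = (1 + b • a' j) * (1 + a • a' i) := by
  have h : Commute (1 + a • a' i) (1 + b • a' j) := by
    apply Commute.add_left (Commute.one_left _)
    apply Commute.add_right (Commute.one_right _)
    exact ((a'_commute i j).smul_left a).smul_right b
  exact h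

lemma E_left (N : ℤ) (m : ℕ) : (1 + a' (-1)) * E N m = 0 := by
  induction m with
  | zero =>
    unfold E
    rw [← mul_assoc]
    have : (1 + a' (-1)) * (1 - a' (-1)) = 0 := by
      rw [mul_sub, mul_one, add_mul, one_mul, a'_sq]; abel
    rw [this, zero_mul]
  | succ m ih =>
    unfold E
    have h : (1 + a' (-1)) * (1 + a' m) = (1 + a' m) * (1 + a' (-1)) := by
      have := fac_comm (-1) m 1 1
      simpa using this
    rw [← mul_assoc, h, mul_assoc, ih, mul_zero]

lemma E_right (N : ℤ) (m : ℕ) : (1 + a' N) * E N m = 0 := by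
  induction m with
  | zero =>
    unfold E
    have h : (1 + a' N) * (1 - a' (-1)) = (1 - a' (-1)) * (1 + a' N) := by
      have := fac_comm N (-1) 1 (-1)
      simpa [sub_eq_add_neg] using this
    rw [← mul_assoc, h, mul_assoc]
    have : (1 + a' N) * (1 - a' N) = 0 := by
      rw [mul_sub, mul_one, add_mul, one_mul, a'_sq]; abel
    rw [this, mul_zero]
  | succ m ih =>
    unfold E
    have h : (1 + a' N) * (1 + a' m) = (1 + a' m) * (1 + a' N) := by
      have := fac_comm N m 1 1
      simpa using this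
    rw [← mul_assoc, h, mul_assoc, ih, mul_zero]

lemma E_mid (N : ℤ) (m : ℕ) (i : ℕ) (hi : i < m) : (1 + a' i) * E N m = 2 * E N m := by
  induction m with
  | zero => omega
  | succ m ih =>
    unfold E
    rcases Nat.lt_succ_iff_lt_or_eq.mp hi with h1 | h1
    · have h : (1 + a' i) * (1 + a' m) = (1 + a' m) * (1 + a' i) := by
        have := fac_comm i m 1 1
        simpa using this
      rw [← mul_assoc, h, mul_assoc, ih h1]
      rw [two_mul, two_mul, mul_add]
    · subst h1
      rw [← mul_assoc]
      have : (1 + a' i) * (1 + a' i) = 2 * (1 + a' i) := by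
        rw [mul_add, mul_one, add_mul, one_mul, a'_sq, two_mul]; abel
      rw [this, mul_assoc]

noncomputable def Pl (j : ℕ) : KG := ∑ l ∈ Finset.range (j + 1), (-1 : KG) ^ l * t' (2 * l)

noncomputable def βn (j : ℕ) : KG := E (2 * j) (2 * j) * Pl j

lemma E_mul_comm (N : ℤ) (m : ℕ) (i : ℤ) : E N m * (1 + a' i) = (1 + a' i) * E N m := by
  have : Commute (E N m) (1 + a' i) := (Commute.one_right _).add_right (E_comm N m i)
  exact this

lemma βn_mul (j : ℕ) : βn j * α = 0 := by
  unfold βn Pl
  set EE := E (2 * j) (2 * j) with hEE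
  have h1 : ∀ l : ℕ, t' (2 * l) * α = (1 + a' (2 * l)) * t' (2 * l + 1) + (1 + a' (2 * l - 1)) * t' (2 * l - 1) := by
    intro l
    rw [α_eq, mul_add, ← mul_assoc, ← mul_assoc, mul_add, mul_add, mul_one, t'_a', t'_a', zero_add]
    have e1 : t' (2 * (l : ℤ)) + a' (2 * (l : ℤ)) * t' (2 * (l : ℤ)) = (1 + a' (2 * (l : ℤ))) * t' (2 * (l : ℤ)) := by
      rw [add_mul, one_mul]
    have e2 : t' (2 * (l : ℤ)) + a' (-1 + 2 * (l : ℤ)) * t' (2 * (l : ℤ)) = (1 + a' (2 * (l : ℤ) - 1)) * t' (2 * (l : ℤ)) := by
      rw [add_mul, one_mul]; congr 3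
    rw [e1, e2, mul_assoc, mul_assoc, t'_t', t'_t']
    rfl
  have hm : ∀ (u : KG) (l : ℕ), EE * ((-1 : KG) ^ l * u) = (-1 : KG) ^ l * (EE * u) := by
    intro u l
    have : Commute EE ((-1 : KG) ^ l) := (Commute.neg_one_right EE).pow_right l
    rw [← mul_assoc, this.eq, mul_assoc]
  rw [mul_assoc, Finset.sum_mul, Finset.mul_sum]
  have h2 : ∀ l ∈ Finset.range (j + 1), EE * ((-1 : KG) ^ l * t' (2 * l) * α) =
      (-1 : KG) ^ l * ((if l = j then 0 else 2 * EE * t' (2 * l + 1)) +
        (if l = 0 then 0 else 2 * EE * t' (2 * l - 1))) := by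
    intro l hl
    rw [Finset.mem_range] at hl
    rw [mul_assoc, hm, h1, mul_add, ← mul_assoc, ← mul_assoc, E_mul_comm, E_mul_comm]
    congr 2
    · split_ifs with h
      · subst h
        rw [E_right, zero_mul]
      · have := E_mid (2 * j) (2 * j) (2 * l) (by omega)
        push_cast at this
        rw [this]
    · split_ifs with h
      · subst h
        have := E_left (2 * j) (2 * j)
        norm_num
        rw [this, zero_mul]
      · have := E_mid (2 * j) (2 * j) (2 * l - 1) (by omega)
        have e : ((2 * l - 1 : ℕ) : ℤ) = 2 * (l : ℤ) - 1 := by omega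
        rw [e] at this
        rw [this]
  rw [Finset.sum_congr rfl h2]
  simp only [mul_add]
  rw [Finset.sum_add_distrib, Finset.sum_range_succ, if_pos rfl, mul_zero, add_zero,
    Finset.sum_range_succ' (fun l => (-1 : KG) ^ l * (if l = 0 then 0 else 2 * EE * t' (2 * l - 1)))]
  rw [if_pos rfl, mul_zero, add_zero, ← Finset.sum_add_distrib]
  apply Finset.sum_eq_zero
  intro l hl
  rw [Finset.mem_range] at hl
  rw [if_neg (by omega), if_neg (by omega), pow_succ]
  have e : (2 * ((l + 1 : ℕ) : ℤ) - 1) = 2 * (l : ℤ) + 1 := by push_cast; ring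
  rw [e]
  simp

/-- `R` of the left factors -/
lemma R_fac (x : C) (i : ℤ) (j : ℤ) (β : KG) :
    R x j ((1 + a' i) * β) = (1 + ((x i : ℤ) : ℚ)) * R x j β := by
  rw [add_mul, one_mul, map_add]
  unfold a'
  rw [R_mul_left]
  have h1 : sh (A i).n x = x := sh_zero x
  have h2 : j - (A i).n = j := sub_zero j
  rw [h1, h2]
  simp [ev, A]
  ring

lemma R_fac' (x : C) (i : ℤ) (j : ℤ) (β : KG) :
    R x j ((1 - a' i) * β) = (1 - ((x i : ℤ) : ℚ)) * R x j β := by
  rw [sub_mul, one_mul, map_sub]
  unfold a'
  rw [R_mul_left]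
  have h1 : sh (A i).n x = x := sh_zero x
  have h2 : j - (A i).n = j := sub_zero j
  rw [h1, h2]
  simp [ev, A]
  ring

lemma R_E (x : C) (N : ℤ) (h1 : x (-1) = -1) (h2 : x N = -1) (m : ℕ)
    (h3 : ∀ i : ℕ, i < m → x i = 1) (β : KG) (hβ : R x 0 β ≠ 0) : R x 0 (E N m * β) ≠ 0 := by
  induction m with
  | zero =>
    unfold E
    rw [mul_assoc, R_fac', R_fac', h1, h2]
    simpa using hβ
  | succ m ih =>
    unfold E
    rw [mul_assoc, R_fac, h3 m (by omega)]
    have := ih (fun i hi => h3 i (by omega))
    simpa using this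

lemma R_Pl (x : C) (j : ℕ) : R x 0 (Pl j) = 1 := by
  unfold Pl
  rw [map_sum, Finset.sum_range_succ']
  have h : ∀ l ∈ Finset.range j, R x 0 ((-1 : KG) ^ (l + 1) * t' (2 * ((l + 1 : ℕ) : ℤ))) = 0 := by
    intro l _
    have h0 : R x 0 (t' (2 * ((l + 1 : ℕ) : ℤ))) = 0 := by
      unfold t'
      rw [R_single, if_neg]
      change ¬ (2 * ((l + 1 : ℕ) : ℤ) = 0)
      push_cast; omega
    rcases neg_one_pow_eq_or KG (l + 1) with h | h
    · rw [h, one_mul, h0]
    · rw [h, neg_one_mul, map_neg, h0, neg_zero]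
  rw [Finset.sum_eq_zero h, zero_add, pow_zero, one_mul]
  unfold t'
  rw [R_single, if_pos (by simp [T])]
  simp [ev, T]

/-- The negation of the preceding statement: For every field K, every group G and every element a of the group algebra K[G], the set of x with x·a = 0 equals the left ideal generated by some finite set of elements of K[G]. -/
theorem result :
    ¬ (∀ (K : Type) [Field K] (G : Type) [Group G] (a : MonoidAlgebra K G),
      ∃ s : Finset (MonoidAlgebra K G),
        ((Submodule.span (MonoidAlgebra K G) (s : Set (MonoidAlgebra K G)) :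
            Set (MonoidAlgebra K G)) = {x : MonoidAlgebra K G | x * a = 0})) := by
  intro H
  obtain ⟨s, hs⟩ := H ℚ G α
  let r : ℕ := s.sup (fun β => β.coeff.support.sup rad)
  have hr : ∀ β ∈ s, ∀ g ∈ β.coeff.support, ∀ x y : C,
      (∀ i : ℤ, i.natAbs ≤ r → x i = y i) → g.χ x = g.χ y := by
    intro β hβ g hg x y hxy
    apply rad_spec g x y
    intro i hi
    apply hxy
    have h1 : rad g ≤ β.coeff.support.sup rad := Finset.le_sup (f := rad) hg
    have h2 : β.coeff.support.sup rad ≤ r := Finset.le_sup (f := fun β : KG => β.coeff.support.sup rad) hβ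
    exact hi.trans (h1.trans h2)
  let x0 : C := fun i => if i = -1 ∨ i = 2 * r then -1 else 1
  let J : Submodule KG KG :=
    { carrier := {β | ∀ k j : ℤ, R (sh k x0) j β = 0}
      add_mem' := by
        intro a b ha hb k j
        rw [map_add, ha k j, hb k j, add_zero]
      zero_mem' := by intro k j; rw [map_zero]
      smul_mem' := by
        intro c β hβ k j
        rw [smul_eq_mul]
        induction c using MonoidAlgebra.induction_linear with
        | zero => rw [zero_mul, map_zero]
        | add a b ha hb => rw [add_mul, map_add, ha, hb, add_zero]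
        | single g d =>
          rw [R_mul_left, sh_sh, hβ, mul_zero] }
  have hsJ : (s : Set KG) ⊆ J := by
    intro β hβ k j
    have hβs : β ∈ s := hβ
    have hβα : β * α = 0 := by
      have : β ∈ (Submodule.span KG (s : Set KG) : Set KG) := Submodule.subset_span hβ
      rw [hs] at this
      exact this
    let x' : C := fun i => if i.natAbs ≤ r then sh k x0 i else 1
    have e1 : R (sh k x0) j β = R x' j β := by
      apply R_congr _ _ r _ β (hr β hβs)
      intro i hi
      simp only [x', if_pos hi]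
    rw [e1]
    by_cases hk : (-1 - k).natAbs ≤ r
    · apply lemma1 x' (-1 - k) _ β hβα
      intro i hi
      simp only [x', sh, x0]
      split_ifs with h1 h2
      · exfalso
        rcases h2 with h2 | h2 <;> omega
      · rfl
      · rfl
    · apply lemma1 x' (2 * r - k) _ β hβα
      intro i hi
      simp only [x', sh, x0]
      split_ifs with h1 h2
      · exfalso
        rcases h2 with h2 | h2
        · apply hk
          have : i = -1 - k := by omega
          rw [← this]; exact h1
        · omega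
      · rfl
      · rfl
  have hspan : Submodule.span KG (s : Set KG) ≤ J := Submodule.span_le.mpr hsJ
  have hmem : βn r ∈ Submodule.span KG (s : Set KG) := by
    have : βn r ∈ {x : KG | x * α = 0} := βn_mul r
    rw [← hs] at this
    exact this
  have h0 := hspan hmem 0 0
  rw [sh_zero] at h0
  have h1 : R x0 0 (βn r) ≠ 0 := by
    unfold βn
    apply R_E
    · simp [x0]
    · simp [x0]
    · intro i hi
      simp only [x0]
      rw [if_neg]
      omega
    · rw [R_Pl]; norm_num
  exact h1 h0

end Pool.Agent.S01998
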