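import Pool.Statements.S02111
import Pool.Agent.H26.TR3
-- import your own Pool.Agent.* helpers here

set_option autoImplicit false
open CategoryTheory
open Pool Pool.MP_cf197e_al

namespace Pool.Agent.S02111

/-- For every finite group G and automorphism α, some set of pairwise non-isomorphic irreducible complex representations has total dimension at least the number of g with α(g) = g⁻¹; equivalently, the sum of irreducible degrees is at least that number. -/
theorem result :
    ∀ (G : Type) [Group G] [Finite G] (α : G ≃* G),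
      ∃ (n : ℕ) (V : Fin n → FDRep ℂ G),
        (∀ i, Simple (V i)) ∧
        (∀ i j, Nonempty (V i ≅ V j) → i = j) ∧
        Nat.card {g : G // α g = g⁻¹} ≤ ∑ i, Module.finrank ℂ (V i) := by
  intro G _ _ α
  have hnz : NeZero (Nat.card G : ℂ) := ⟨by exact_mod_cast Nat.card_pos.ne'⟩
  obtain ⟨n, d, hd, ⟨e⟩⟩ := IsSemisimpleRing.exists_algEquiv_pi_matrix_of_isAlgClosed ℂ (MonoidAlgebra ℂ G)
  have hd' : ∀ i, 0 < d i := fun i => Nat.pos_of_ne_zero (hd i).out
  refine ⟨n, fun i => H26.TR.VV d e i, fun i => H26.TR.VV_simple d e i (hd' i),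
    fun i j h => H26.TR.VV_inj d e hd' i j h, ?_⟩
  refine (H26.TR.count_le G α d e).trans (le_of_eq ?_)
  apply Finset.sum_congr rfl
  intro i _
  have : Module.finrank ℂ (Fin (d i) → ℂ) = d i := by simp
  exact this.symm

end Pool.Agent.S02111
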