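import Pool.Statements.S02169

set_option autoImplicit false
open Pool Pool.MP_d4adc1_al

namespace Pool.Agent.S02169

/-- The concrete group: pairs of integers, with an integer acting through swapping. -/
@[ext] structure Q where
  m : ℤ
  n : ℤ
  k : ℤ

namespace Q

def sw (k : ℤ) (a b : ℤ) : ℤ := if Even k then a else b

instance : Mul Q := ⟨fun p q => ⟨p.m + sw p.k q.m q.n, p.n + sw p.k q.n q.m, p.k + q.k⟩⟩
instance : One Q := ⟨⟨0, 0, 0⟩⟩
instance : Inv Q := ⟨fun p => ⟨- sw p.k p.m p.n, - sw p.k p.n p.m, - p.k⟩⟩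

@[simp] lemma mul_m (p q : Q) : (p * q).m = p.m + sw p.k q.m q.n := rfl
@[simp] lemma mul_n (p q : Q) : (p * q).n = p.n + sw p.k q.n q.m := rfl
@[simp] lemma mul_k (p q : Q) : (p * q).k = p.k + q.k := rfl
@[simp] lemma one_m : (1 : Q).m = 0 := rfl
@[simp] lemma one_n : (1 : Q).n = 0 := rfl
@[simp] lemma one_k : (1 : Q).k = 0 := rfl
@[simp] lemma inv_m (p : Q) : (p⁻¹).m = - sw p.k p.m p.n := rfl
@[simp] lemma inv_n (p : Q) : (p⁻¹).n = - sw p.k p.n p.m := rfl
@[simp] lemma inv_k (p : Q) : (p⁻¹).k = - p.k := rfl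

instance : Group Q := Group.ofLeftAxioms
  (by
    intro p q r
    ext
    · simp only [mul_m, mul_n, mul_k, sw, Int.even_add]
      by_cases h1 : Even p.k <;> by_cases h2 : Even q.k <;> simp [h1, h2] <;> ring
    · simp only [mul_m, mul_n, mul_k, sw, Int.even_add]
      by_cases h1 : Even p.k <;> by_cases h2 : Even q.k <;> simp [h1, h2] <;> ring
    · simp only [mul_k]; ring)
  (by intro p; ext <;> simp [sw])
  (by
    intro p
    ext
    · simp only [mul_m, inv_m, inv_k, one_m, sw, even_neg]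
      by_cases h1 : Even p.k <;> simp [h1]
    · simp only [mul_n, inv_n, inv_k, one_n, sw, even_neg]
      by_cases h1 : Even p.k <;> simp [h1]
    · simp)

instance : LE Q := ⟨fun p q => p.k < q.k ∨ (p.k = q.k ∧ p.m ≤ q.m ∧ p.n ≤ q.n)⟩

lemma le_def (p q : Q) : p ≤ q ↔ p.k < q.k ∨ (p.k = q.k ∧ p.m ≤ q.m ∧ p.n ≤ q.n) := Iff.rfl

instance : PartialOrder Q where
  le := (· ≤ ·)
  le_refl p := by rw [le_def]; omega
  le_trans p q r := by simp only [le_def]; omega
  le_antisymm p q := by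
    simp only [le_def]; intro h1 h2
    ext <;> omega

def sup' (p q : Q) : Q := if p.k < q.k then q else if q.k < p.k then p else ⟨max p.m q.m, max p.n q.n, p.k⟩
def inf' (p q : Q) : Q := if p.k < q.k then p else if q.k < p.k then q else ⟨min p.m q.m, min p.n q.n, p.k⟩

instance : Lattice Q where
  sup := sup'
  inf := inf'
  le_sup_left p q := by
    simp only [le_def, sup']; split_ifs <;> (try dsimp only) <;> omega
  le_sup_right p q := by
    simp only [le_def, sup']; split_ifs <;> (try dsimp only) <;> omega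
  sup_le p q r := by
    simp only [le_def, sup']; split_ifs <;> (try dsimp only) <;> intro h1 h2 <;> omega
  inf_le_left p q := by
    simp only [le_def, inf']; split_ifs <;> (try dsimp only) <;> omega
  inf_le_right p q := by
    simp only [le_def, inf']; split_ifs <;> (try dsimp only) <;> omega
  le_inf p q r := by
    simp only [le_def, inf']; split_ifs <;> (try dsimp only) <;> intro h1 h2 <;> omega

lemma mul_le (a b c : Q) (h : a ≤ b) : c * a ≤ c * b ∧ a * c ≤ b * c := by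
  rw [le_def] at h
  constructor
  · rw [le_def]
    simp only [mul_m, mul_n, mul_k, sw]
    split_ifs <;> omega
  · rw [le_def]
    simp only [mul_m, mul_n, mul_k, sw]
    rcases h with h | ⟨h1, h2, h3⟩
    · left; omega
    · right; rw [h1]; split_ifs <;> omega

end Q

abbrev Z2 := Multiplicative (ℤ ×ₗ ℤ)

def el (n m : ℤ) : Z2 := Multiplicative.ofAdd (toLex (n, m))

lemma el_mul (n m n' m' : ℤ) : el n m * el n' m' = el (n + n') (m + m') := rfl
lemma el_le (n m n' m' : ℤ) : el n m ≤ el n' m' ↔ (n < n' ∨ (n = n' ∧ m ≤ m')) := by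
  unfold el
  rw [Multiplicative.ofAdd_le, Prod.Lex.le_iff]
  rfl

def c1 (a : Z2) : ℤ := (ofLex (Multiplicative.toAdd a)).1
def c2 (a : Z2) : ℤ := (ofLex (Multiplicative.toAdd a)).2

lemma el_c (a : Z2) : el (c1 a) (c2 a) = a := rfl
@[simp] lemma c1_el (n m : ℤ) : c1 (el n m) = n := rfl
@[simp] lemma c2_el (n m : ℤ) : c2 (el n m) = m := rfl
@[simp] lemma c1_mul (a b : Z2) : c1 (a * b) = c1 a + c1 b := rfl
@[simp] lemma c2_mul (a b : Z2) : c2 (a * b) = c2 a + c2 b := rfl
@[simp] lemma c1_one : c1 1 = 0 := rfl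
@[simp] lemma c2_one : c2 1 = 0 := rfl

lemma z2_le (a b : Z2) : a ≤ b ↔ (c1 a < c1 b ∨ (c1 a = c1 b ∧ c2 a ≤ c2 b)) := by
  rw [← el_c a, ← el_c b, el_le]; rfl

lemma el_zpow (n m : ℤ) : el n m = (el 1 0) ^ n * (el 0 1) ^ m := by
  have h1 : ∀ n : ℤ, (el 1 0) ^ n = el n 0 := by
    intro n
    let h : Multiplicative ℤ →* Z2 :=
      { toFun := fun k => el (Multiplicative.toAdd k) 0
        map_one' := rfl
        map_mul' := fun a b => rfl }
    have h2 : el 1 0 = h (Multiplicative.ofAdd 1) := rfl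
    rw [h2, ← map_zpow, ← ofAdd_zsmul]
    change el (n • 1) 0 = el n 0
    rw [smul_eq_mul, mul_one]
  have h3 : ∀ n : ℤ, (el 0 1) ^ n = el 0 n := by
    intro n
    let h : Multiplicative ℤ →* Z2 :=
      { toFun := fun k => el 0 (Multiplicative.toAdd k)
        map_one' := rfl
        map_mul' := fun a b => rfl }
    have h2 : el 0 1 = h (Multiplicative.ofAdd 1) := rfl
    rw [h2, ← map_zpow, ← ofAdd_zsmul]
    change el 0 (n • 1) = el 0 n
    rw [smul_eq_mul, mul_one]
  rw [h1, h3, el_mul]; simp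

lemma z2_ext {H : Type} [Group H] (f g : Z2 →* H) (h1 : f (el 1 0) = g (el 1 0))
    (h2 : f (el 0 1) = g (el 0 1)) : f = g := by
  refine MonoidHom.ext fun a => ?_
  rw [← el_c a, el_zpow]
  simp only [map_mul, map_zpow, h1, h2]

/-- the two embeddings of the common subgroup -/
def φ (i : Fin 2) : Z2 →* Z2 where
  toFun a := el (2 * c1 a) (c2 a - (i : ℕ) * c1 a)
  map_one' := by simp; rfl
  map_mul' a b := by
    rw [el_mul]; congr 1
    · simp; ring
    · simp; ring

abbrev P := Monoid.PushoutI (G := fun _ : Fin 2 => Z2) φ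

def fi (i : Fin 2) : Z2 →* Q where
  toFun a := ⟨c2 a + ((i : ℕ) * c1 a + (i : ℕ)) / 2, c2 a + ((i : ℕ) * c1 a) / 2, c1 a⟩
  map_one' := by
    fin_cases i
    · simp; rfl
    · simp; rfl
  map_mul' a b := by
    fin_cases i
    · ext <;> simp [Q.sw] <;> ring
    · ext
      · simp only [c1_mul, c2_mul, Q.mul_m, Q.sw]
        split_ifs with h
        · obtain ⟨j, hj⟩ := h
          simp; omega
        · rw [Int.not_even_iff_odd] at h
          obtain ⟨j, hj⟩ := h
          simp; omega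
      · simp only [c1_mul, c2_mul, Q.mul_n, Q.sw]
        split_ifs with h
        · obtain ⟨j, hj⟩ := h
          simp; omega
        · rw [Int.not_even_iff_odd] at h
          obtain ⟨j, hj⟩ := h
          simp; omega
      · simp

def fb : Z2 →* Q := (fi 0).comp (φ 0)

lemma fi_comp (i : Fin 2) : (fi i).comp (φ i) = fb := by
  fin_cases i
  · rfl
  · ext a <;> simp [fb, fi, φ] <;> omega

def F : P →* Q := Monoid.PushoutI.lift fi fb fi_comp

def tt : P := Monoid.PushoutI.of (φ := φ) 0 (el 1 0)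
def ss : P := Monoid.PushoutI.of (φ := φ) 1 (el 1 0)
def aa : P := Monoid.PushoutI.base φ (el 0 1)
def bb : P := Monoid.PushoutI.base φ (el 1 0)

lemma aa0 : Monoid.PushoutI.of (φ := φ) 0 (el 0 1) = aa := by
  unfold aa
  rw [← Monoid.PushoutI.of_apply_eq_base φ 0]
  rfl

lemma aa1 : Monoid.PushoutI.of (φ := φ) 1 (el 0 1) = aa := by
  unfold aa
  rw [← Monoid.PushoutI.of_apply_eq_base φ 1]
  rfl

lemma tt_sq : tt * tt = bb := by
  unfold bb tt
  rw [← Monoid.PushoutI.of_apply_eq_base φ 0, ← map_mul]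
  rfl

lemma ss_sq : ss * ss = bb * aa := by
  unfold bb ss
  rw [← aa1, ← Monoid.PushoutI.of_apply_eq_base φ 1, ← map_mul, ← map_mul]
  rfl

lemma aa_tt : aa * tt = tt * aa := by
  rw [← aa0]; unfold tt
  rw [← map_mul, ← map_mul, mul_comm]
lemma aa_ss : aa * ss = ss * aa := by
  rw [← aa1]; unfold ss
  rw [← map_mul, ← map_mul, mul_comm]
lemma bb_tt : bb * tt = tt * bb := by
  rw [← tt_sq]; group
lemma bb_aa : bb * aa = aa * bb := by
  unfold aa bb; rw [← map_mul, ← map_mul, mul_comm]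
lemma bb_ss : bb * ss = ss * bb := by
  have h : bb = ss * ss * aa⁻¹ := by rw [ss_sq]; group
  have h2 : Commute ss aa := (aa_ss).symm
  have h3 : Commute ss bb := by
    rw [h]
    exact ((Commute.refl ss).mul_right (Commute.refl ss)).mul_right h2.inv_right
  exact h3.symm

def xx : P := ss * tt⁻¹
def yy : P := tt * xx * tt⁻¹

lemma c_tb : Commute tt bb := bb_tt.symm
lemma c_sb : Commute ss bb := bb_ss.symm
lemma c_ta : Commute tt aa := aa_tt.symm
lemma c_sa : Commute ss aa := aa_ss.symm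

lemma xy : xx * yy = aa := by
  unfold yy xx
  have h1 : ss * tt⁻¹ * (tt * (ss * tt⁻¹) * tt⁻¹) = (ss * ss) * (tt * tt)⁻¹ := by group
  rw [h1, ss_sq, tt_sq, bb_aa]; group

lemma yx : yy * xx = aa := by
  unfold yy xx
  have h1 : tt * (ss * tt⁻¹) * tt⁻¹ * (ss * tt⁻¹) = tt * ss * (tt * tt)⁻¹ * ss * tt⁻¹ := by group
  rw [h1, tt_sq]
  have h2 : Commute ss bb⁻¹ := c_sb.inv_right
  have h3 : tt * ss * bb⁻¹ * ss * tt⁻¹ = tt * (ss * ss) * bb⁻¹ * tt⁻¹ := by
    rw [mul_assoc tt ss, h2.eq]; 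
    rw [← mul_assoc tt, mul_assoc _ ss ss]
    have h4 : Commute (ss * ss) bb⁻¹ := h2.mul_left h2
    rw [mul_assoc tt bb⁻¹, ← h4.eq, ← mul_assoc tt]
  rw [h3, ss_sq]
  have h5 : tt * (bb * aa) * bb⁻¹ * tt⁻¹ = aa := by
    rw [bb_aa]
    have : tt * (aa * bb) * bb⁻¹ * tt⁻¹ = tt * aa * tt⁻¹ := by group
    rw [this, ← aa_tt]; group
  exact h5

lemma tx : tt * xx = yy * tt := by unfold yy; group
lemma ty : tt * yy = xx * tt := by
  unfold yy
  have h1 : tt * (tt * xx * tt⁻¹) = (tt * tt) * xx * (tt * tt)⁻¹ * tt := by group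
  rw [h1, tt_sq]
  have h2 : Commute bb xx := by
    unfold xx
    exact c_sb.symm.mul_right c_tb.symm.inv_right
  rw [h2.eq]; group

lemma cxy : Commute xx yy := by
  show xx * yy = yy * xx
  rw [xy, yx]

section gen
variable {H : Type} [Group H] (x y t : H) (hxy : Commute x y) (hx : t * x = y * t) (hy : t * y = x * t)
include hxy hx hy

lemma conj1 (m : ℤ) : t * x ^ m = y ^ m * t := by
  have : SemiconjBy t x y := hx
  exact (this.zpow_right m)

lemma conj2 (m : ℤ) : t * y ^ m = x ^ m * t := by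
  have : SemiconjBy t y x := hy
  exact (this.zpow_right m)

lemma conjk (k m n : ℤ) : t ^ k * (x ^ m * y ^ n) = x ^ (Q.sw k m n) * y ^ (Q.sw k n m) * t ^ k := by
  have hsq : ∀ j m n : ℤ, (t * t) ^ j * (x ^ m * y ^ n) = (x ^ m * y ^ n) * (t * t) ^ j := by
    intro j m n
    have h1 : Commute (t * t) x := by
      show t * t * x = x * (t * t)
      rw [mul_assoc, hx, ← mul_assoc, hy, mul_assoc]
    have h2 : Commute (t * t) y := by
      show t * t * y = y * (t * t)
      rw [mul_assoc, hy, ← mul_assoc, hx, mul_assoc]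
    have h3 : Commute (t * t) (x ^ m * y ^ n) := (h1.zpow_right m).mul_right (h2.zpow_right n)
    exact h3.zpow_left j
  rcases Int.even_or_odd k with h | h
  · have h' := h
    obtain ⟨j, hj⟩ := h
    have h2 : t ^ k = (t * t) ^ j := by
      rw [hj, zpow_add, (Commute.refl t).mul_zpow]
    rw [h2, hsq]
    simp [Q.sw, h']
  · have h' : ¬ Even k := Int.not_even_iff_odd.mpr h
    obtain ⟨j, hj⟩ := h
    have h2 : t ^ k = (t * t) ^ j * t := by
      rw [hj, zpow_add, zpow_one, two_mul, zpow_add, (Commute.refl t).mul_zpow]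
    have h3 : t * (x ^ m * y ^ n) = (x ^ n * y ^ m) * t := by
      rw [← mul_assoc, conj1 x y t hxy hx hy, mul_assoc, conj2 x y t hxy hx hy, ← mul_assoc,
        ((hxy.zpow_left n).zpow_right m).eq]
    rw [h2, mul_assoc, h3, ← mul_assoc, hsq]
    simp [Q.sw, h', mul_assoc]

end gen

def Gm : Q →* P where
  toFun q := xx ^ q.m * yy ^ q.n * tt ^ q.k
  map_one' := by simp
  map_mul' p q := by
    have h := conjk xx yy tt cxy tx ty p.k q.m q.n
    simp only [Q.mul_m, Q.mul_n, Q.mul_k]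
    rw [zpow_add, zpow_add, zpow_add]
    have h2 : xx ^ p.m * yy ^ p.n * tt ^ p.k * (xx ^ q.m * yy ^ q.n * tt ^ q.k) =
        xx ^ p.m * yy ^ p.n * (tt ^ p.k * (xx ^ q.m * yy ^ q.n)) * tt ^ q.k := by group
    rw [h2, h]
    have h3 : Commute (xx ^ (Q.sw p.k q.m q.n)) (yy ^ p.n) := (cxy.zpow_left _).zpow_right _
    have h4 := h3.eq
    calc xx ^ p.m * xx ^ (Q.sw p.k q.m q.n) * (yy ^ p.n * yy ^ (Q.sw p.k q.n q.m)) * (tt ^ p.k * tt ^ q.k)
        = xx ^ p.m * (xx ^ (Q.sw p.k q.m q.n) * yy ^ p.n) * yy ^ (Q.sw p.k q.n q.m) * (tt ^ p.k * tt ^ q.k) := by group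
      _ = xx ^ p.m * (yy ^ p.n * xx ^ (Q.sw p.k q.m q.n)) * yy ^ (Q.sw p.k q.n q.m) * (tt ^ p.k * tt ^ q.k) := by rw [h4]
      _ = _ := by group

@[simp] lemma F_tt : F tt = ⟨0, 0, 1⟩ := by
  unfold F tt
  rw [Monoid.PushoutI.lift_of]
  rfl
@[simp] lemma F_ss : F ss = ⟨1, 0, 1⟩ := by
  unfold F ss
  rw [Monoid.PushoutI.lift_of]
  rfl

lemma F_xx : F xx = ⟨1, 0, 0⟩ := by
  unfold xx
  rw [map_mul, map_inv, F_tt, F_ss]
  ext <;> simp [Q.sw]

lemma F_yy : F yy = ⟨0, 1, 0⟩ := by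
  unfold yy
  rw [map_mul, map_mul, map_inv, F_tt, F_xx]
  ext <;> simp [Q.sw]

lemma q1 (n : ℤ) : (⟨1, 0, 0⟩ : Q) ^ n = ⟨n, 0, 0⟩ := by
  let h : Multiplicative ℤ →* Q :=
    { toFun := fun k => ⟨Multiplicative.toAdd k, 0, 0⟩
      map_one' := rfl
      map_mul' := fun a b => by ext <;> simp [Q.sw] }
  have h2 : (⟨1, 0, 0⟩ : Q) = h (Multiplicative.ofAdd 1) := rfl
  rw [h2, ← map_zpow, ← ofAdd_zsmul]
  change (⟨n • 1, 0, 0⟩ : Q) = _
  rw [smul_eq_mul, mul_one]
lemma q2 (n : ℤ) : (⟨0, 1, 0⟩ : Q) ^ n = ⟨0, n, 0⟩ := by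
  let h : Multiplicative ℤ →* Q :=
    { toFun := fun k => ⟨0, Multiplicative.toAdd k, 0⟩
      map_one' := rfl
      map_mul' := fun a b => by ext <;> simp [Q.sw] }
  have h2 : (⟨0, 1, 0⟩ : Q) = h (Multiplicative.ofAdd 1) := rfl
  rw [h2, ← map_zpow, ← ofAdd_zsmul]
  change (⟨0, n • 1, 0⟩ : Q) = _
  rw [smul_eq_mul, mul_one]
lemma q3 (n : ℤ) : (⟨0, 0, 1⟩ : Q) ^ n = ⟨0, 0, n⟩ := by
  let h : Multiplicative ℤ →* Q :=
    { toFun := fun k => ⟨0, 0, Multiplicative.toAdd k⟩
      map_one' := rfl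
      map_mul' := fun a b => by ext <;> simp [Q.sw] }
  have h2 : (⟨0, 0, 1⟩ : Q) = h (Multiplicative.ofAdd 1) := rfl
  rw [h2, ← map_zpow, ← ofAdd_zsmul]
  change (⟨0, 0, n • 1⟩ : Q) = _
  rw [smul_eq_mul, mul_one]

lemma FG (q : Q) : F (Gm q) = q := by
  change F (xx ^ q.m * yy ^ q.n * tt ^ q.k) = q
  rw [map_mul, map_mul, map_zpow, map_zpow, map_zpow, F_tt, F_xx, F_yy, q1, q2, q3]
  ext <;> simp [Q.sw]

lemma GF : Gm.comp F = MonoidHom.id P := by
  apply Monoid.PushoutI.hom_ext_nonempty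
  intro i
  apply z2_ext
  · fin_cases i
    · change Gm (F tt) = tt
      rw [F_tt]
      change xx ^ (0:ℤ) * yy ^ (0:ℤ) * tt ^ (1:ℤ) = tt
      simp
    · change Gm (F ss) = ss
      rw [F_ss]
      change xx ^ (1:ℤ) * yy ^ (0:ℤ) * tt ^ (1:ℤ) = ss
      simp [xx]
  · have hFa : F aa = ⟨1, 1, 0⟩ := by
      rw [← xy, map_mul, F_xx, F_yy]
      ext <;> simp [Q.sw]
    have hG : Gm (F aa) = aa := by
      rw [hFa]
      change xx ^ (1:ℤ) * yy ^ (1:ℤ) * tt ^ (0:ℤ) = aa
      simp [xy]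
    fin_cases i
    · change Gm (F (Monoid.PushoutI.of (φ := φ) 0 (el 0 1))) = Monoid.PushoutI.of (φ := φ) 0 (el 0 1)
      rw [aa0, hG]
    · change Gm (F (Monoid.PushoutI.of (φ := φ) 1 (el 0 1))) = Monoid.PushoutI.of (φ := φ) 1 (el 0 1)
      rw [aa1, hG]

def latP : Lattice P where
  le a b := F a ≤ F b
  le_refl a := le_refl _
  le_trans a b c := le_trans
  le_antisymm a b h1 h2 := by
    have h := le_antisymm h1 h2
    have h3 := congrArg Gm h
    have h4 : ∀ a, Gm (F a) = a := fun a => DFunLike.congr_fun GF a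
    rwa [h4, h4] at h3
  sup a b := Gm (F a ⊔ F b)
  inf a b := Gm (F a ⊓ F b)
  le_sup_left a b := by rw [FG]; exact le_sup_left
  le_sup_right a b := by rw [FG]; exact le_sup_right
  sup_le a b c h1 h2 := by rw [FG]; exact sup_le h1 h2
  inf_le_left a b := by rw [FG]; exact inf_le_left
  inf_le_right a b := by rw [FG]; exact inf_le_right
  le_inf a b c h1 h2 := by rw [FG]; exact le_inf h1 h2

/-- There exist two bi-ordered groups and a common subgroup embedded in both with the same induced order, whose amalgamated free product admits a bi-invariant lattice order but no bi-invariant total order. -/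
theorem result :
    ∃ (G : Fin 2 → Type) (_ : ∀ i, Group (G i)) (_ : ∀ i, LinearOrder (G i))
      (A : Type) (_ : Group A) (φ : ∀ i, A →* G i),
      (∀ (i : Fin 2) (a b c : G i), a ≤ b → c * a ≤ c * b ∧ a * c ≤ b * c) ∧
      (∀ i, Function.Injective (φ i)) ∧
      (∀ a b : A, φ 0 a ≤ φ 0 b ↔ φ 1 a ≤ φ 1 b) ∧
      (∃ L : Lattice (Monoid.PushoutI φ), ∀ a b c : Monoid.PushoutI φ,
          L.le a b → L.le (c * a) (c * b) ∧ L.le (a * c) (b * c)) ∧
      ¬ ∃ O : LinearOrder (Monoid.PushoutI φ), ∀ a b c : Monoid.PushoutI φ,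
          O.le a b → O.le (c * a) (c * b) ∧ O.le (a * c) (b * c) := by
  refine ⟨fun _ => Z2, fun _ => inferInstance, fun _ => inferInstance, Z2, inferInstance, φ, ?_, ?_, ?_, ?_, ?_⟩
  · intro i a b c h
    rw [z2_le] at h
    constructor
    · rw [z2_le]; simp only [c1_mul, c2_mul]; omega
    · rw [z2_le]; simp only [c1_mul, c2_mul]; omega
  · intro i a b h
    have h1 : c1 (φ i a) = c1 (φ i b) := by rw [h]
    have h2 : c2 (φ i a) = c2 (φ i b) := by rw [h]
    have h3 : c1 a = c1 b := by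
      simp only [φ, MonoidHom.coe_mk, OneHom.coe_mk, c1_el] at h1
      omega
    have h4 : c2 a = c2 b := by
      simp only [φ, MonoidHom.coe_mk, OneHom.coe_mk, c2_el, h3] at h2
      linarith
    rw [← el_c a, ← el_c b, h3, h4]
  · intro a b
    rw [z2_le, z2_le]
    simp only [φ, MonoidHom.coe_mk, OneHom.coe_mk, c1_el, c2_el]
    simp
    constructor
    · rintro (h | ⟨h1, h2⟩)
      · left; exact h
      · right; exact ⟨h1, by omega⟩
    · rintro (h | ⟨h1, h2⟩)
      · left; exact h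
      · right; exact ⟨h1, by omega⟩
  · refine ⟨latP, ?_⟩
    intro a b c h
    have h' : F a ≤ F b := h
    constructor
    · change F (c * a) ≤ F (c * b)
      rw [map_mul, map_mul]
      exact (Q.mul_le _ _ _ h').1
    · change F (a * c) ≤ F (b * c)
      rw [map_mul, map_mul]
      exact (Q.mul_le _ _ _ h').2
  · rintro ⟨O, hO⟩
    let z : P := xx * yy⁻¹
    have hz1 : z ≠ 1 := by
      intro h
      have h1 : F z = 1 := by rw [h, map_one]
      have h2 : F z = ⟨1, -1, 0⟩ := by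
        change F (xx * yy⁻¹) = _
        rw [map_mul, map_inv, F_xx, F_yy]
        ext <;> simp [Q.sw]
      rw [h2] at h1
      have := congrArg Q.m h1
      simp at this
    have hconj : tt * z * tt⁻¹ = z⁻¹ := by
      have h1 : tt * yy⁻¹ = xx⁻¹ * tt := by
        have : SemiconjBy tt yy xx := ty
        exact this.inv_right
      have h2 : tt * z = yy * xx⁻¹ * tt := by
        change tt * (xx * yy⁻¹) = _
        rw [← mul_assoc, tx, mul_assoc, h1, ← mul_assoc]
      rw [h2]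
      change _ = (xx * yy⁻¹)⁻¹
      group
    rcases O.le_total 1 z with h | h
    · have h1 := (hO _ _ tt h).1
      have h2 := (hO _ _ tt⁻¹ h1).2
      rw [hconj] at h2
      have h3 : tt * 1 * tt⁻¹ = (1 : P) := by group
      rw [h3] at h2
      have h4 := (hO _ _ z h2).1
      rw [mul_one, mul_inv_cancel] at h4
      exact hz1 (O.le_antisymm _ _ h4 h)
    · have h1 := (hO _ _ tt h).1
      have h2 := (hO _ _ tt⁻¹ h1).2
      rw [hconj] at h2
      have h3 : tt * 1 * tt⁻¹ = (1 : P) := by group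
      rw [h3] at h2
      have h4 := (hO _ _ z h2).1
      rw [mul_one, mul_inv_cancel] at h4
      exact hz1 (O.le_antisymm _ _ h h4)

end Pool.Agent.S02169
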