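import Pool.Statements.S02196
import Pool.Agent.H26.WordMat
-- import your own Pool.Agent.* helpers here

set_option autoImplicit false
open Pool Pool.MP_d7a7a6_al

namespace Pool.Agent.S02196

open Pool.Agent.H26.WordAlg Pool.Agent.H26.WordMat

theorem list_prod_mem {U : Type} [Ring U] {ι : Type} (a : ι → U) (l : List U)
    (h : ∀ y ∈ l, y ∈ D a 1) : l.prod ∈ D a l.length := by
  induction l with
  | nil =>
    have : (W a [] : U) = 1 := by simp [W]
    rw [List.prod_nil, ← this]
    exact W_mem a [] _ (by simp)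
  | cons y l ih =>
    rw [List.prod_cons, List.length_cons, add_comm l.length 1]
    exact D_mul a (h y (by simp)) (ih (fun z hz => h z (by simp [hz])))

theorem WU_zero (N : ℕ) (l : List (ZMod 13)) (h : N < l.length) : W (aU N) l = 0 := by
  have hne : l ≠ [] := by rintro rfl; simp at h
  rw [W_aU N l hne]
  have : (⟨W (A N) l, W_mem' N l hne⟩ : Ralg N) = 0 := Subtype.ext (W_zero_of_long N l h)
  rw [this, Unitization.inr_zero]

theorem aU_mem (N : ℕ) (a : ZMod 13) : aU N a ∈ D (aU N) 1 := by
  have : W (aU N) [a] = aU N a := by simp [W]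
  rw [← this]
  exact W_mem _ _ _ (by simp)

theorem unit_exists (N : ℕ) (a : ZMod 13) : ∃ u : (UU N)ˣ, (u : UU N) = 1 + aU N a := by
  have hnil : IsNilpotent (aU N a) :=
    ⟨N + 1, D_zero (aU N) N (WU_zero N) (pow_mem_D (aU N) (aU_mem N a) N)⟩
  exact hnil.isUnit_one_add

theorem splitU (N : ℕ) (l : List (ZMod 13)) (hl : 2 ≤ l.length) (hW : W (aU N) l ≠ 0) :
    ∃ u v : List (ZMod 13), l = u ++ v ∧ u ≠ [] ∧ v ≠ [] ∧ W (aU N) (v ++ u) = 0 := by
  have hne : l ≠ [] := by rintro rfl; simp at hl
  have hW' : W (A N) l ≠ 0 := by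
    intro h
    apply hW
    rw [W_aU N l hne]
    have : (⟨W (A N) l, W_mem' N l hne⟩ : Ralg N) = 0 := Subtype.ext h
    rw [this, Unitization.inr_zero]
  obtain ⟨u, v, h1, h2, h3, h4⟩ := split N l hl hW'
  refine ⟨u, v, h1, h2, h3, ?_⟩
  have hne' : v ++ u ≠ [] := by simp [h2]
  rw [W_aU N _ hne']
  have : (⟨W (A N) (v ++ u), W_mem' N _ hne'⟩ : Ralg N) = 0 := Subtype.ext h4
  rw [this, Unitization.inr_zero]

/-- prefixes -/
def pre (m : ℕ) : List (ZMod 13) := (List.range m).map Pool.Agent.H26.TM.x

theorem pre_len (m : ℕ) : (pre m).length = m := by simp [pre]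

theorem pre_occ (m : ℕ) : Occ (pre m) 0 := by
  intro k hk
  simp [pre]

theorem pre_ne (m : ℕ) : pre (m + 1) ≠ [] := by
  intro h
  have := congrArg List.length h
  rw [pre_len] at this
  simp at this

/-- independent family -/
def bas (N : ℕ) (k : Fin N) : Ralg N := ⟨W (A N) (pre (k + 1)), W_mem' N _ (pre_ne k)⟩

theorem bas_indep (N : ℕ) : LinearIndependent (ZMod 2) (bas N) := by
  classical
  rw [Fintype.linearIndependent_iff]
  intro g hg i
  have h1 := congrArg (fun r : Ralg N => (r : Mat N) 0 i.succ) hg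
  simp only [AddSubmonoidClass.coe_finsetSum, NonUnitalSubalgebra.coe_smul,
    NonUnitalSubalgebra.coe_zero, Matrix.zero_apply, Matrix.sum_apply, Matrix.smul_apply] at h1
  rw [Finset.sum_eq_single i] at h1
  · have h2 : ((bas N i : Ralg N) : Mat N) 0 i.succ = 1 := by
      show W (A N) (pre (i + 1)) 0 i.succ = 1
      rw [entry, if_pos]
      refine ⟨?_, pre_occ _⟩
      rw [pre_len]; simp
    rw [h2] at h1
    simpa using h1
  · intro k _ hk
    have h2 : ((bas N k : Ralg N) : Mat N) 0 i.succ = 0 := by
      show W (A N) (pre (k + 1)) 0 i.succ = 0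
      rw [entry, if_neg]
      rintro ⟨h3, -⟩
      rw [pre_len] at h3
      apply hk
      apply Fin.ext
      simp at h3
      omega
    rw [h2]; simp
  · intro h; exact absurd (Finset.mem_univ _) h

/-- The negation of the preceding statement: There is one function f such that for every field F and every nilpotent associative F-algebra R, if the adjoint group of R is generated by d elements, then dim R is at most f(d). -/
theorem result :
    ¬ (∃ f : ℕ → ℕ, ∀ (F : Type) [Field F] (R : Type) [NonUnitalRing R] [Module F R]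
      [IsScalarTower F R R] [SMulCommClass F R R],
      (∃ n : ℕ, ∀ x : Fin n → R,
        (List.ofFn (fun i => (Unitization.inr (x i) : Unitization F R))).prod = 0) →
      ∀ d : ℕ, ∀ g : Fin d → (Unitization F R)ˣ,
        (∀ i, ∃ r : R, ((g i : (Unitization F R)ˣ) : Unitization F R) = 1 + Unitization.inr r) →
        (∀ r : R, ∃ u ∈ Subgroup.closure (Set.range g),
          (u : Unitization F R) = 1 + Unitization.inr r) →
        Module.rank F R ≤ (f d : Cardinal)) := by
  rintro ⟨f, hf⟩
  set N := f 13 + 1 with hN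
  have hgex : ∀ i : Fin 13, ∃ u : (UU N)ˣ, (u : UU N) = 1 + aU N i := fun i => unit_exists N i
  choose g hg using hgex
  have h := hf (ZMod 2) (Ralg N)
    ⟨N + 1, by
      intro x
      have h1 := list_prod_mem (aU N) (List.ofFn (fun i => (Unitization.inr (x i) : UU N)))
        (by
          intro y hy
          rw [List.mem_ofFn] at hy
          obtain ⟨i, rfl⟩ := hy
          exact inr_mem N (x i))
      rw [List.length_ofFn] at h1
      exact D_zero (aU N) N (WU_zero N) h1⟩
    13 g (fun i => ⟨⟨A N i, A_mem N i⟩, hg i⟩)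
    (by
      intro r
      obtain ⟨u, hu, hu'⟩ := all_mem (aU N) N (WU_zero N) g hg (splitU N) N 1 le_rfl (by omega)
        (Unitization.inr r) (inr_mem N r)
      exact ⟨u, hu, hu'⟩)
  have h2 := (bas_indep N).cardinal_le_rank
  rw [Cardinal.mk_fin] at h2
  have h3 : (N : Cardinal) ≤ (f 13 : Cardinal) := h2.trans h
  rw [Nat.cast_le] at h3
  omega

end Pool.Agent.S02196
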