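import Pool.Statements.S02262

set_option autoImplicit false
open Pool Pool.MP_df51bf_al
open scoped commutatorElement

namespace Pool.Agent.S02262

/-- the generator s -/
def s : FreeGroup Bool := FreeGroup.of true
/-- the generator y -/
def y : FreeGroup Bool := FreeGroup.of false

/-- s to 1, y to 0, mod 2 -/
noncomputable def phi : FreeGroup Bool →* Multiplicative (ZMod 2) :=
  FreeGroup.lift (fun b => if b then Multiplicative.ofAdd 1 else 1)

/-- s to 0, y to 1 -/
noncomputable def psi : FreeGroup Bool →* Multiplicative ℤ :=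
  FreeGroup.lift (fun b => if b then 1 else Multiplicative.ofAdd 1)

/-- s to 1, y to 0 -/
noncomputable def chi : FreeGroup Bool →* Multiplicative ℤ :=
  FreeGroup.lift (fun b => if b then Multiplicative.ofAdd 1 else 1)

theorem result :
    ¬ (∀ (α : Type) (a b : α), a ≠ b →
      ∀ (N T : Subgroup (FreeGroup α)), N.Normal → N ≠ ⊥ → ¬ IsCoatom N →
        N ≤ T → T ≠ ⊤ →
          ⁅T, N⁆ < ⁅(⊤ : Subgroup (FreeGroup α)), N⁆) := by
  intro hall
  let N : Subgroup (FreeGroup Bool) := Subgroup.normalClosure {s ^ 2}
  let T : Subgroup (FreeGroup Bool) := phi.ker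
  have phis : phi s = Multiplicative.ofAdd 1 := by simp [phi, s]
  have phiy : phi y = 1 := by simp [phi, y]
  have psis : psi s = 1 := by simp [psi, s]
  have psiy : psi y = Multiplicative.ofAdd 1 := by simp [psi, y]
  have chis : chi s = Multiplicative.ofAdd 1 := by simp [chi, s]
  have hNT : N ≤ T := by
    apply Subgroup.normalClosure_le_normal
    rintro _ rfl
    show phi (s ^ 2) = 1
    rw [map_pow, phis]
    decide
  have hTtop : T ≠ ⊤ := by
    intro h
    have : s ∈ T := by rw [h]; trivial
    have h1 : phi s = 1 := this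
    rw [phis] at h1
    exact absurd h1 (by decide)
  have hNbot : N ≠ ⊥ := by
    intro h
    have h1 : s ^ 2 ∈ N := Subgroup.subset_normalClosure rfl
    rw [h, Subgroup.mem_bot] at h1
    have h2 : chi (s ^ 2) = chi 1 := congrArg chi h1
    rw [map_pow, chis, chi.map_one] at h2
    exact absurd h2 (by decide)
  have hyT : y ∈ T := phiy
  have hyN : y ∉ N := by
    intro h
    have hle : N ≤ psi.ker := by
      apply Subgroup.normalClosure_le_normal
      rintro _ rfl
      show psi (s ^ 2) = 1
      rw [map_pow, psis, one_pow]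
    have h1 : psi y = 1 := hle h
    rw [psiy] at h1
    exact absurd h1 (by decide)
  have hNco : ¬ IsCoatom N := by
    intro h
    exact hTtop (h.2 T (lt_of_le_of_ne hNT (fun e => hyN (by rw [e]; exact hyT))))
  have hlt := hall Bool true false (by decide) N T Subgroup.normalClosure_normal hNbot hNco hNT hTtop
  apply hlt.not_ge
  haveI : N.Normal := Subgroup.normalClosure_normal
  let C : Subgroup (FreeGroup Bool) := ⁅T, N⁆
  have hsN : s ^ 2 ∈ N := Subgroup.subset_normalClosure rfl
  have hcen : N ≤ (Subgroup.center (FreeGroup Bool ⧸ C)).comap (QuotientGroup.mk' C) := by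
    apply Subgroup.normalClosure_le_normal
    rintro _ rfl
    show (QuotientGroup.mk' C) (s ^ 2) ∈ Subgroup.center (FreeGroup Bool ⧸ C)
    rw [Subgroup.mem_center_iff]
    intro g
    obtain ⟨g, rfl⟩ := QuotientGroup.mk'_surjective C g
    have hg : g ∈ (Subgroup.centralizer {(QuotientGroup.mk' C) (s ^ 2)}).comap
        (QuotientGroup.mk' C) := by
      induction g using FreeGroup.induction_on with
      | C1 => exact one_mem _
      | of b =>
        cases b with
        | true =>
          show (QuotientGroup.mk' C) s ∈ Subgroup.centralizer {(QuotientGroup.mk' C) (s ^ 2)}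
          rw [Subgroup.mem_centralizer_iff]
          rintro _ rfl
          rw [← map_mul, ← map_mul, ← pow_succ, ← pow_succ']
        | false =>
          show (QuotientGroup.mk' C) y ∈ Subgroup.centralizer {(QuotientGroup.mk' C) (s ^ 2)}
          rw [Subgroup.mem_centralizer_iff]
          rintro _ rfl
          have hc : ⁅y, s ^ 2⁆ ∈ C := Subgroup.commutator_mem_commutator hyT hsN
          have h1 : (QuotientGroup.mk' C) ⁅y, s ^ 2⁆ = 1 :=
            (QuotientGroup.eq_one_iff _).2 hc
          rw [map_commutatorElement, commutatorElement_eq_one_iff_mul_comm] at h1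
          exact h1.symm
      | inv_of b h => exact inv_mem h
      | mul g h hg hh => exact mul_mem hg hh
    have hg' := (Subgroup.mem_centralizer_iff.1 hg) _ rfl
    exact hg'.symm
  show ⁅(⊤ : Subgroup (FreeGroup Bool)), N⁆ ≤ C
  rw [Subgroup.commutator_le]
  intro g _ n hn
  have h1 := Subgroup.mem_center_iff.1 (hcen hn) (QuotientGroup.mk' C g)
  have h2 : (QuotientGroup.mk' C) ⁅g, n⁆ = 1 := by
    rw [map_commutatorElement, commutatorElement_eq_one_iff_mul_comm]
    exact h1
  exact (QuotientGroup.eq_one_iff _).1 h2

end Pool.Agent.S02262
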