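import Pool.Statements.S02264

set_option autoImplicit false
open Pool Pool.MP_df592a_al

namespace Pool.Agent.S02264

/-- Gaussian integers -/
abbrev D : Type := GaussianInt
/-- the fraction field -/
abbrev K : Type := FractionRing D
/-- the image of D in K -/
noncomputable abbrev DK : Submodule D K := LinearMap.range (Algebra.linearMap D K)
/-- the divisible module K/D -/
abbrev V : Type := K ⧸ DK

/-- conjugation -/
noncomputable abbrev sg (d : D) : D := star d

/-- the ring: D + V with the right action on V twisted by conjugation -/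
def A : Type := D × V
/-- constructor -/
def A.mk (d : D) (v : V) : A := (d, v)

noncomputable instance instAG : AddCommGroup A := inferInstanceAs (AddCommGroup (D × V))

noncomputable instance : Mul A := ⟨fun a b => (a.1 * b.1, a.1 • b.2 + sg b.1 • a.2)⟩
noncomputable instance : One A := ⟨((1 : D), (0 : V))⟩

lemma mul_def' (a b : A) : a * b = ((a.1 * b.1, a.1 • b.2 + sg b.1 • a.2) : D × V) := rfl
lemma mul_fst (a b : A) : (a * b).1 = a.1 * b.1 := rfl
lemma mul_snd (a b : A) : (a * b).2 = a.1 • b.2 + sg b.1 • a.2 := rfl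
lemma add_fst (a b : A) : (a + b).1 = a.1 + b.1 := rfl
lemma add_snd (a b : A) : (a + b).2 = a.2 + b.2 := rfl
lemma one_fst : (1 : A).1 = 1 := rfl
lemma one_snd : (1 : A).2 = 0 := rfl
lemma zero_fst : (0 : A).1 = 0 := rfl
lemma zero_snd : (0 : A).2 = 0 := rfl

lemma A.ext' {a b : A} (h1 : a.1 = b.1) (h2 : a.2 = b.2) : a = b := Prod.ext h1 h2

noncomputable instance : Ring A :=
  { instAG with
    mul := fun a b => a * b
    one := 1
    left_distrib := by
      intro a b c
      apply A.ext'
      · show a.1 * (b.1 + c.1) = a.1 * b.1 + a.1 * c.1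
        ring
      · show a.1 • (b.2 + c.2) + sg (b.1 + c.1) • a.2
          = (a.1 • b.2 + sg b.1 • a.2) + (a.1 • c.2 + sg c.1 • a.2)
        simp only [sg, star_add, smul_add, add_smul]
        abel
    right_distrib := by
      intro a b c
      apply A.ext'
      · show (a.1 + b.1) * c.1 = a.1 * c.1 + b.1 * c.1
        ring
      · show (a.1 + b.1) • c.2 + sg c.1 • (a.2 + b.2)
          = (a.1 • c.2 + sg c.1 • a.2) + (b.1 • c.2 + sg c.1 • b.2)
        simp only [smul_add, add_smul]
        abel
    zero_mul := by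
      intro a
      apply A.ext'
      · show (0 : D) * a.1 = 0
        ring
      · show (0 : D) • a.2 + sg a.1 • (0 : V) = 0
        simp
    mul_zero := by
      intro a
      apply A.ext'
      · show a.1 * (0 : D) = 0
        ring
      · show a.1 • (0 : V) + sg 0 • a.2 = 0
        simp [sg]
    mul_assoc := by
      intro a b c
      apply A.ext'
      · show a.1 * b.1 * c.1 = a.1 * (b.1 * c.1)
        ring
      · show (a.1 * b.1) • c.2 + sg c.1 • (a.1 • b.2 + sg b.1 • a.2)
          = a.1 • (b.1 • c.2 + sg c.1 • b.2) + sg (b.1 * c.1) • a.2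
        simp only [sg, star_mul, smul_add, mul_smul]
        rw [smul_comm (star c.1) a.1 b.2]
        abel
    one_mul := by
      intro a
      apply A.ext'
      · show (1 : D) * a.1 = a.1
        ring
      · show (1 : D) • a.2 + sg a.1 • (0 : V) = a.2
        simp
    mul_one := by
      intro a
      apply A.ext'
      · show a.1 * (1 : D) = a.1
        ring
      · show a.1 • (0 : V) + sg 1 • a.2 = a.2
        simp [sg] }

lemma bez (p q : D) : ∃ x y z w : D, x + y = 1 ∧ p * x = q * z ∧ q * y = p * w := by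
  classical
  by_cases hp : p = 0
  · exact ⟨1, 0, 0, 0, by ring, by rw [hp]; ring, by ring⟩
  · have hg : EuclideanDomain.gcd p q ≠ 0 := by
      intro h
      exact hp (EuclideanDomain.gcd_eq_zero_iff.1 h).1
    obtain ⟨p', hp'⟩ := EuclideanDomain.gcd_dvd_left p q
    obtain ⟨q', hq'⟩ := EuclideanDomain.gcd_dvd_right p q
    have hab := EuclideanDomain.gcd_eq_gcd_ab p q
    set g := EuclideanDomain.gcd p q with hgdef
    set a := EuclideanDomain.gcdA p q
    set b := EuclideanDomain.gcdB p q
    have h1 : p' * a + q' * b = 1 := by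
      apply mul_left_cancel₀ hg
      calc g * (p' * a + q' * b) = (g * p') * a + (g * q') * b := by ring
        _ = p * a + q * b := by rw [← hp', ← hq']
        _ = g * 1 := by rw [mul_one]; exact hab.symm
    refine ⟨q' * b, p' * a, p' * b, q' * a, by rw [add_comm]; exact h1, ?_, ?_⟩
    · rw [hp', hq']
      ring
    · rw [hp', hq']
      ring

lemma div_V (d : D) (hd : d ≠ 0) (v : V) : ∃ w : V, d • w = v := by
  obtain ⟨k, rfl⟩ := Submodule.mkQ_surjective DK v
  have hd' : algebraMap D K d ≠ 0 := by
    intro h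
    exact hd ((IsFractionRing.injective D K) (by rw [h, map_zero]))
  refine ⟨DK.mkQ (k / algebraMap D K d), ?_⟩
  rw [← map_smul, Algebra.smul_def, mul_div_cancel₀ _ hd']

lemma dist_V (u v : V) : ∃ x y z w : D, x + y = 1 ∧ x • u = z • v ∧ y • v = w • u := by
  obtain ⟨k1, rfl⟩ := Submodule.mkQ_surjective DK u
  obtain ⟨k2, rfl⟩ := Submodule.mkQ_surjective DK v
  obtain ⟨p1, r1, hr1, rfl⟩ := IsFractionRing.div_surjective (A := D) k1
  obtain ⟨p2, r2, hr2, rfl⟩ := IsFractionRing.div_surjective (A := D) k2
  have h1 : algebraMap D K r1 ≠ 0 := IsFractionRing.to_map_ne_zero_of_mem_nonZeroDivisors hr1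
  have h2 : algebraMap D K r2 ≠ 0 := IsFractionRing.to_map_ne_zero_of_mem_nonZeroDivisors hr2
  obtain ⟨x, y, z, w, hxy, hx, hy⟩ := bez (p1 * r2) (p2 * r1)
  refine ⟨x, y, z, w, hxy, ?_, ?_⟩
  · rw [← map_smul, ← map_smul, Algebra.smul_def, Algebra.smul_def]
    congr 1
    have := congrArg (algebraMap D K) hx
    simp only [map_mul] at this
    field_simp
    linear_combination this
  · rw [← map_smul, ← map_smul, Algebra.smul_def, Algebra.smul_def]
    congr 1
    have := congrArg (algebraMap D K) hy
    simp only [map_mul] at this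
    field_simp
    linear_combination this

lemma dist_A (a b : A) : ∃ x y z w : A, x + y = 1 ∧ a * x = b * z ∧ b * y = a * w := by
  by_cases ha : a.1 = 0
  · by_cases hb : b.1 = 0
    · obtain ⟨x, y, z, w, hxy, hx, hy⟩ := dist_V a.2 b.2
      refine ⟨A.mk (star x) 0, A.mk (star y) 0, A.mk (star z) 0, A.mk (star w) 0, ?_, ?_, ?_⟩
      · apply A.ext'
        · show star x + star y = 1
          rw [← star_add, hxy, star_one]
        · show (0 : V) + 0 = 0
          simp
      · apply A.ext'
        · show a.1 * star x = b.1 * star z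
          rw [ha, hb]; ring
        · show a.1 • (0 : V) + star (star x) • a.2 = b.1 • (0 : V) + star (star z) • b.2
          rw [star_star, star_star, hx, smul_zero, smul_zero]
      · apply A.ext'
        · show b.1 * star y = a.1 * star w
          rw [ha, hb]; ring
        · show b.1 • (0 : V) + star (star y) • b.2 = a.1 • (0 : V) + star (star w) • a.2
          rw [star_star, star_star, hy, smul_zero, smul_zero]
    · obtain ⟨w, hw⟩ := div_V b.1 hb a.2
      refine ⟨1, 0, A.mk 0 w, 0, by rw [add_zero], ?_, by rw [mul_zero, mul_zero]⟩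
      rw [mul_one]
      apply A.ext'
      · show a.1 = b.1 * 0
        rw [ha, mul_zero]
      · show a.2 = b.1 • w + star (0 : D) • b.2
        rw [hw, star_zero, zero_smul, add_zero]
  · by_cases hb : b.1 = 0
    · obtain ⟨w, hw⟩ := div_V a.1 ha b.2
      refine ⟨0, 1, 0, A.mk 0 w, by rw [zero_add], by rw [mul_zero, mul_zero], ?_⟩
      rw [mul_one]
      apply A.ext'
      · show b.1 = a.1 * 0
        rw [hb, mul_zero]
      · show b.2 = a.1 • w + star (0 : D) • a.2
        rw [hw, star_zero, zero_smul, add_zero]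
    · obtain ⟨x, y, z, w, hxy, hx, hy⟩ := bez a.1 b.1
      obtain ⟨s, hs⟩ := div_V b.1 hb (star x • a.2 - star z • b.2)
      obtain ⟨t, ht⟩ := div_V a.1 ha (star y • b.2 - star w • a.2)
      refine ⟨A.mk x 0, A.mk y 0, A.mk z s, A.mk w t, ?_, ?_, ?_⟩
      · apply A.ext'
        · exact hxy
        · show (0 : V) + 0 = 0
          simp
      · apply A.ext'
        · exact hx
        · show a.1 • (0 : V) + star x • a.2 = b.1 • s + star z • b.2
          rw [hs, smul_zero]
          abel
      · apply A.ext'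
        · exact hy
        · show b.1 • (0 : V) + star y • b.2 = a.1 • t + star w • a.2
          rw [ht, smul_zero]
          abel

open MulOpposite in
lemma distrib_ideals (I J L : Submodule Aᵐᵒᵖ A) : I ⊓ (J ⊔ L) = I ⊓ J ⊔ I ⊓ L := by
  apply le_antisymm
  · rintro i ⟨hi, hjl⟩
    obtain ⟨j, hj, l, hl, hijl⟩ := Submodule.mem_sup.1 hjl
    obtain ⟨x, y, z, w, hxy, hx, hy⟩ := dist_A j l
    have hI : ∀ c : A, i * c ∈ I := fun c => I.smul_mem (op c) hi
    have hJ : ∀ c : A, j * c ∈ J := fun c => J.smul_mem (op c) hj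
    have hL : ∀ c : A, l * c ∈ L := fun c => L.smul_mem (op c) hl
    have e : i = i * y + i * x := by
      rw [← mul_add, add_comm y x, hxy, mul_one]
    rw [e]
    apply Submodule.add_mem_sup
    · refine ⟨hI y, ?_⟩
      rw [← hijl, add_mul, hy]
      exact J.add_mem (hJ y) (hJ w)
    · refine ⟨hI x, ?_⟩
      rw [← hijl, add_mul, hx]
      exact L.add_mem (hL z) (hL x)
  · exact le_inf_sup

/-- the Gaussian integer 2 + i -/
def q1 : D := ⟨2, 1⟩
/-- the Gaussian integer 2 - i -/
def q2 : D := ⟨2, -1⟩

open MulOpposite in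
theorem result :
    ¬ (∀ (A : Type) [Ring A],
      (∀ I J K : Submodule Aᵐᵒᵖ A, I ⊓ (J ⊔ K) = I ⊓ J ⊔ I ⊓ K) →
      ∀ M : Submodule Aᵐᵒᵖ A, IsCoatom M →
        ∃ (Q : Type) (_ : Ring Q) (f : A →+* Q),
          (∀ t : A, t ∉ M → IsUnit (f t)) ∧
          (∀ q : Q, ∃ a t : A, t ∉ M ∧ q * f t = f a) ∧
          (∀ a : A, f a = 0 ↔ ∃ t : A, t ∉ M ∧ a * t = 0)) := by
  intro hall
  have hq2 : Ideal.span {q2} ≠ (⊤ : Ideal D) := by
    intro h
    rw [Ideal.span_singleton_eq_top] at h
    obtain ⟨u, hu⟩ := h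
    have h1 : q2.norm = (u : D).norm := by rw [hu]
    have h2 : (u : D).norm * ((u⁻¹ : Dˣ) : D).norm = 1 := by
      rw [← Zsqrtd.norm_mul, Units.mul_inv, Zsqrtd.norm_one]
    rw [← h1] at h2
    have h3 : q2.norm = 5 := by decide
    rw [h3] at h2
    omega
  obtain ⟨P, hP, hPle⟩ := Ideal.exists_le_maximal _ hq2
  have hq2P : q2 ∈ P := hPle (Ideal.subset_span rfl)
  have hq1P : q1 ∉ P := by
    intro h
    apply hP.ne_top
    rw [Ideal.eq_top_iff_one]
    have h5 : q1 * q2 ∈ P := P.mul_mem_left _ hq2P
    have h4 : q1 + q2 ∈ P := P.add_mem h hq2P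
    have : (1 : D) = q1 * q2 - (q1 + q2) := by decide
    rw [this]
    exact P.sub_mem h5 h4
  let M : Submodule Aᵐᵒᵖ A :=
    { carrier := {a | a.1 ∈ P}
      add_mem' := fun {a b} ha hb => P.add_mem ha hb
      zero_mem' := P.zero_mem
      smul_mem' := fun c a ha => P.mul_mem_right _ ha }
  have hM : IsCoatom M := by
    constructor
    · intro h
      have h1 : (1 : A) ∈ M := by rw [h]; trivial
      exact hP.ne_top ((Ideal.eq_top_iff_one P).2 h1)
    · intro I hI
      obtain ⟨a, haI, haM⟩ := Set.exists_of_ssubset hI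
      have ha : a.1 ∉ P := haM
      obtain ⟨e, p, hp, hep⟩ := hP.exists_inv ha
      rw [eq_top_iff]
      have h1 : (1 : A) ∈ I := by
        have hx : a * (A.mk e 0) ∈ I := I.smul_mem (op (A.mk e 0)) haI
        have hy : (A.mk p (-(star e • a.2))) ∈ I := hI.le hp
        have : (1 : A) = a * (A.mk e 0) + (A.mk p (-(star e • a.2))) := by
          apply A.ext'
          · show (1 : D) = a.1 * e + p
            rw [← hep]; ring
          · show (0 : V) = (a.1 • (0 : V) + star e • a.2) + -(star e • a.2)
            rw [smul_zero]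
            abel
        rw [this]
        exact I.add_mem hx hy
      intro c _
      have := I.smul_mem (op c) h1
      rwa [op_smul_eq_mul, one_mul] at this
  obtain ⟨Q, _, f, hu, -, hk⟩ := hall A distrib_ideals M hM
  let t : A := A.mk q1 0
  let v : V := DK.mkQ ((algebraMap D K q1)⁻¹)
  let a : A := A.mk 0 v
  have hq1 : algebraMap D K q1 ≠ 0 := by
    intro h
    have : q1 = 0 := (IsFractionRing.injective D K) (by rw [h, map_zero])
    exact absurd this (by decide)
  have hta : t * a = 0 := by
    apply A.ext'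
    · show q1 * 0 = 0
      ring
    · show q1 • v + star (0 : D) • (0 : V) = 0
      rw [smul_zero, add_zero]
      show q1 • DK.mkQ ((algebraMap D K q1)⁻¹) = 0
      rw [← map_smul, Algebra.smul_def, mul_inv_cancel₀ hq1]
      rw [← LinearMap.mem_ker, Submodule.ker_mkQ]
      exact ⟨1, by simp⟩
  have hfa : f a = 0 := by
    have h1 : f t * f a = 0 := by rw [← map_mul, hta, map_zero]
    exact (hu t hq1P).mul_right_eq_zero.1 h1
  obtain ⟨t', ht', hat'⟩ := (hk a).1 hfa
  apply ht'
  show t'.1 ∈ P
  have h2 : (0 : D) • t'.2 + star t'.1 • v = 0 := congrArg Prod.snd hat'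
  rw [zero_smul, zero_add] at h2
  have h3 : DK.mkQ (star t'.1 • (algebraMap D K q1)⁻¹) = 0 := by
    rw [map_smul]; exact h2
  rw [← LinearMap.mem_ker, Submodule.ker_mkQ, Algebra.smul_def] at h3
  obtain ⟨c, hc⟩ := h3
  have hc' : algebraMap D K c = algebraMap D K (star t'.1) * (algebraMap D K q1)⁻¹ := hc
  have h4 : c * q1 = star t'.1 := by
    apply IsFractionRing.injective D K
    rw [map_mul, hc', mul_assoc, inv_mul_cancel₀ hq1, mul_one]
  have h5 : t'.1 = star c * q2 := by
    have h6 := congrArg star h4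
    rw [star_star, star_mul] at h6
    rw [← h6, mul_comm]
    congr 1
  rw [h5]
  exact P.mul_mem_left _ hq2P

end Pool.Agent.S02264
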