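import Pool.Statements.S02272
import Pool.Agent.H4.NilDer
import Pool.Agent.H4.MinNonF

set_option autoImplicit false
open Pool Pool.MP_e00c87_al

namespace Pool.Agent.S02272

open Pool.Agent.H4.NilDer Pool.Agent.H4.MinNonF
open scoped commutatorElement

/-- kernel lemma in nilpotent groups -/
lemma nil_fix {Q : Type} [Group Q] [Group.IsNilpotent Q] (z u : Q)
    (h : z * u * z⁻¹ * u⁻¹ = u) : u = 1 := by
  obtain ⟨n, hn⟩ := Group.IsNilpotent.nilpotent Q
  have key : ∀ k, u ∈ Subgroup.upperCentralSeries Q k → u ∈ Subgroup.upperCentralSeries Q 0 := by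
    intro k
    induction k with
    | zero => exact id
    | succ k ih =>
      intro hu
      apply ih
      have h1 := Subgroup.mem_upperCentralSeries_succ_iff.1 hu z
      have h2 : (⁅u, z⁆ : Q)⁻¹ = u := by
        rw [commutatorElement_inv]
        exact h
      rw [← h2]
      exact inv_mem h1
  have h0 := key n (by rw [hn]; trivial)
  simpa using h0

lemma comm_mem {A : Type} [Group A] (a b : A) : a * b * a⁻¹ * b⁻¹ ∈ commutator A := by
  rw [commutator_def]
  exact Subgroup.commutator_mem_commutator (Subgroup.mem_top a) (Subgroup.mem_top b)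

/-- vector elements -/
def vec (v : V) : E × E := (⟨v.1.1, v.1.2, 0⟩, ⟨v.2.1, v.2.2, 0⟩)

lemma vec_phi (v : V) : phi M16.ze (vec v) * (vec v)⁻¹ = vec v := by
  rw [phi_ze]
  have h3 : ∀ a : ZMod 3, -a + -a = a := by decide
  apply Prod.ext
  · ext
    · exact h3 _
    · exact h3 _
    · simp [vec]; ring
  · ext
    · exact h3 _
    · exact h3 _
    · simp [vec]; ring

lemma vec_comm (v : V) :
    (SemidirectProduct.inr M16.ze : G) * SemidirectProduct.inl (vec v) * (SemidirectProduct.inr M16.ze)⁻¹
      * (SemidirectProduct.inl (vec v))⁻¹ = SemidirectProduct.inl (vec v) := by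
  rw [← map_inv SemidirectProduct.inr, ← SemidirectProduct.inl_aut, ← map_inv SemidirectProduct.inl,
    ← map_mul, vec_phi]

lemma vec_gen (p : E × E) : p = vec (vp p) * vec ((1, 0), (1, 0)) * vec ((0, p.1.z), (0, p.2.z))
    * vec ((-1, -p.1.z), (-1, -p.2.z)) := by
  apply Prod.ext
  · ext
    · simp [vec, vp]
    · simp [vec, vp]
    · simp [vec, vp]
      ring
  · ext
    · simp [vec, vp]
    · simp [vec, vp]
    · simp [vec, vp]
      ring

lemma kill {H : Type} [Group H] (f : G →* H) (hH : ND H) (p : E × E) :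
    f (SemidirectProduct.inl p) = 1 := by
  haveI : Group.IsNilpotent (commutator H) := hH
  have hv : ∀ v : V, f (SemidirectProduct.inl (vec v)) = 1 := by
    intro v
    have hz : (SemidirectProduct.inr M16.ze : G) ∈ commutator G := by
      have : M16.ze = M16.al * M16.si * M16.al⁻¹ * M16.si⁻¹ := by decide
      rw [this, map_mul, map_mul, map_mul, map_inv, map_inv]
      exact comm_mem _ _
    have hu : (SemidirectProduct.inl (vec v) : G) ∈ commutator G := by
      have h := comm_mem (SemidirectProduct.inr M16.ze : G) (SemidirectProduct.inl (vec v))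
      rwa [vec_comm] at h
    have h1 := nil_fix (cm f ⟨_, hz⟩) (cm f ⟨_, hu⟩) (by
      apply Subtype.ext
      have h9 := congrArg f (vec_comm v)
      rw [map_mul, map_mul, map_mul, map_inv, map_inv] at h9
      exact h9)
    exact congrArg Subtype.val h1
  rw [vec_gen p]
  simp only [map_mul, hv, mul_one]

lemma nd_M16 : ND M16 := by
  show Group.IsNilpotent (commutator M16)
  infer_instance

lemma ker_rh : (SemidirectProduct.rightHom : G →* M16).ker
    = (SemidirectProduct.inl : (E × E) →* G).range :=
  SemidirectProduct.range_inl_eq_ker_rightHom.symm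

lemma inl_range_of_right {g : G} (h : g.right = 1) : g = SemidirectProduct.inl g.left := by
  apply SemidirectProduct.ext
  · rfl
  · exact h

lemma proper (K : Subgroup G) (hK : K ≠ ⊤) : ND K := by
  show Group.IsNilpotent (commutator K)
  let π : K →* M16 := (SemidirectProduct.rightHom : G →* M16).comp K.subtype
  by_cases hs : Function.Surjective π
  · -- the vector part of K ∩ P
    let X : AddSubgroup V :=
      { carrier := {v | ∃ p : E × E, (SemidirectProduct.inl p : G) ∈ K ∧ vp p = v}
        add_mem' := by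
          rintro a b ⟨p, hp, rfl⟩ ⟨q, hq, rfl⟩
          refine ⟨p * q, ?_, rfl⟩
          rw [map_mul]; exact mul_mem hp hq
        zero_mem' := ⟨1, by rw [map_one]; exact one_mem K, rfl⟩
        neg_mem' := by
          rintro a ⟨p, hp, rfl⟩
          refine ⟨p⁻¹, ?_, rfl⟩
          rw [map_inv]; exact inv_mem hp }
    have hstab : ∀ (m : M16) (p : E × E), (SemidirectProduct.inl p : G) ∈ K →
        ∃ p' : E × E, (SemidirectProduct.inl p' : G) ∈ K ∧ vp p' = vp (phi m p) := by
      intro m p hp
      obtain ⟨k, hk⟩ := hs m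
      have hkr : (k : G).right = m := hk
      refine ⟨(k : G).left * phi m p * ((k : G).left)⁻¹, ?_, ?_⟩
      · have h1 : (k : G) * SemidirectProduct.inl p * (k : G)⁻¹ ∈ K :=
          mul_mem (mul_mem k.2 hp) (inv_mem k.2)
        have h2 : (k : G) = SemidirectProduct.inl (k : G).left * SemidirectProduct.inr m := by
          rw [← hkr]; exact (SemidirectProduct.inl_left_mul_inr_right _).symm
        have h3 : (SemidirectProduct.inl ((k : G).left * phi m p * ((k : G).left)⁻¹) : G)
            = (k : G) * SemidirectProduct.inl p * (k : G)⁻¹ := by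
          rw [map_mul, map_mul, SemidirectProduct.inl_aut, map_inv, map_inv]
          conv_rhs => rw [h2]
          simp only [mul_inv_rev, mul_assoc]
        rw [h3]; exact h1
      · rw [vp_mul, vp_mul, vp_inv]; abel
    by_cases hX : ∃ v ∈ X, v ≠ 0
    · exfalso
      obtain ⟨v, hv, hne⟩ := hX
      have hXall : ∀ u : V, u ∈ X := fun u => irred X
        (by
          rintro w ⟨p, hp, rfl⟩
          obtain ⟨p', hp', e⟩ := hstab M16.al p hp
          exact ⟨p', hp', by rw [e, vp_al]⟩)
        (by
          rintro w ⟨p, hp, rfl⟩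
          obtain ⟨p', hp', e⟩ := hstab M16.si p hp
          exact ⟨p', hp', by rw [e, vp_si]⟩) v hv hne u
      -- central elements
      have hW : ∀ p : E × E, vp p = 0 → (SemidirectProduct.inl p : G) ∈ K := by
        intro p hp
        have hcomm : ∀ (a b : E × E), (SemidirectProduct.inl (a * b * a⁻¹ * b⁻¹) : G) ∈ K := by
          intro a b
          obtain ⟨a', ha', ea⟩ := hXall (vp a)
          obtain ⟨b', hb', eb⟩ := hXall (vp b)
          have e1 : a * b * a⁻¹ * b⁻¹ = a' * b' * a'⁻¹ * b'⁻¹ := by
            have hx1 : a'.1.x = a.1.x := congrArg (fun v : V => v.1.1) ea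
            have hx2 : a'.1.y = a.1.y := congrArg (fun v : V => v.1.2) ea
            have hx3 : a'.2.x = a.2.x := congrArg (fun v : V => v.2.1) ea
            have hx4 : a'.2.y = a.2.y := congrArg (fun v : V => v.2.2) ea
            have hy1 : b'.1.x = b.1.x := congrArg (fun v : V => v.1.1) eb
            have hy2 : b'.1.y = b.1.y := congrArg (fun v : V => v.1.2) eb
            have hy3 : b'.2.x = b.2.x := congrArg (fun v : V => v.2.1) eb
            have hy4 : b'.2.y = b.2.y := congrArg (fun v : V => v.2.2) eb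
            apply Prod.ext
            · ext
              · simp
              · simp
              · simp [hx1, hx2, hy1, hy2]
                ring
            · ext
              · simp
              · simp
              · simp [hx3, hx4, hy3, hy4]
                ring
          rw [e1]
          simp only [map_mul, map_inv]
          exact mul_mem (mul_mem (mul_mem ha' hb') (inv_mem ha')) (inv_mem hb')
        have h2 : p = vec ((1, 0), (1, 0)) * vec ((0, - p.1.z), (0, -p.2.z))
            * (vec ((1, 0), (1, 0)))⁻¹ * (vec ((0, - p.1.z), (0, -p.2.z)))⁻¹ := by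
          have h1 : p.1.x = 0 := congrArg (fun v : V => v.1.1) hp
          have h2 : p.1.y = 0 := congrArg (fun v : V => v.1.2) hp
          have h3 : p.2.x = 0 := congrArg (fun v : V => v.2.1) hp
          have h4 : p.2.y = 0 := congrArg (fun v : V => v.2.2) hp
          have h5 : ∀ a : ZMod 3, a = - a + - a := by decide
          apply Prod.ext
          · ext
            · simp [vec, h1]
            · simp [vec, h2]
            · simp [vec]
              exact h5 _
          · ext
            · simp [vec, h3]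
            · simp [vec, h4]
            · simp [vec]
              exact h5 _
        rw [h2]
        exact hcomm _ _
      have hP : ∀ p : E × E, (SemidirectProduct.inl p : G) ∈ K := by
        intro p
        obtain ⟨q, hq, eq⟩ := hXall (vp p)
        have h1 : vp (p * q⁻¹) = 0 := by
          rw [vp_mul, vp_inv, eq]; abel
        have h2 := mul_mem (hW _ h1) hq
        rw [← map_mul, inv_mul_cancel_right] at h2
        exact h2
      apply hK
      rw [eq_top_iff]
      intro g _
      obtain ⟨k, hk⟩ := hs g.right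
      have hkr : (k : G).right = g.right := hk
      have h1 : (g * (k : G)⁻¹).right = 1 := by
        rw [SemidirectProduct.mul_right, SemidirectProduct.inv_right, hkr, mul_inv_cancel]
      have h2 : g * (k : G)⁻¹ ∈ K := by
        rw [inl_range_of_right h1]; exact hP _
      have h3 := mul_mem h2 k.2
      rwa [inv_mul_cancel_right] at h3
    · -- K ∩ P is inside W
      push Not at hX
      apply Subgroup.isNilpotent_of_ker_le_center (π.comp (commutator K).subtype)
      intro c hc
      rw [Subgroup.mem_center_iff]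
      intro d
      have hcr : ((c : K) : G).right = 1 := hc
      have hcl := inl_range_of_right hcr
      have hcv : vp ((c : K) : G).left = 0 := by
        apply hX
        refine ⟨_, ?_, rfl⟩
        rw [← hcl]
        exact (c : K).2
      have hd : ((d : K) : G).right = 1 ∨ ((d : K) : G).right = M16.ze := by
        let Z : Subgroup M16 :=
          { carrier := {m | m = 1 ∨ m = M16.ze}
            mul_mem' := by
              rintro a b (rfl | rfl) (rfl | rfl)
              · left; decide
              · right; decide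
              · right; decide
              · left; decide
            one_mem' := Or.inl rfl
            inv_mem' := by
              rintro a (rfl | rfl)
              · left; decide
              · right; decide }
        have hle : commutator M16 ≤ Z := by
          rw [commutator_def, Subgroup.commutator_le]
          intro g _ h _
          exact M16.comm_ze g h
        exact hle (map_comm_le π ⟨(d : K), d.2, rfl⟩)
      have hfix : phi ((d : K) : G).right ((c : K) : G).left = ((c : K) : G).left := by
        rcases hd with h | h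
        · rw [h, map_one]; rfl
        · rw [h]; exact phi_ze_W _ hcv
      apply Subtype.ext
      apply Subtype.ext
      show ((d : K) : G) * ((c : K) : G) = ((c : K) : G) * ((d : K) : G)
      apply SemidirectProduct.ext
      · rw [SemidirectProduct.mul_left, SemidirectProduct.mul_left, hfix, hcr, map_one]
        exact central _ _ hcv
      · rw [SemidirectProduct.mul_right, SemidirectProduct.mul_right, hcr, mul_one, one_mul]
  · -- image proper, hence abelian
    have hab : ∀ g h : K, π g * π h = π h * π g := by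
      intro g h
      by_contra hne
      apply hs
      obtain ⟨a, b, c, h1⟩ := M16.gen_al _ _ hne
      obtain ⟨a', b', c', h2⟩ := M16.gen_si _ _ hne
      have ha : M16.al ∈ π.range := ⟨g ^ (a : ℕ) * h ^ (b : ℕ) * g ^ (c : ℕ), by
        rw [map_mul, map_mul, map_pow, map_pow, map_pow, h1]⟩
      have hb : M16.si ∈ π.range := ⟨g ^ (a' : ℕ) * h ^ (b' : ℕ) * g ^ (c' : ℕ), by
        rw [map_mul, map_mul, map_pow, map_pow, map_pow, h2]⟩
      intro m
      rw [M16.gen_all m]
      exact mul_mem (pow_mem ha _) (pow_mem hb _)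
    have hle : commutator K ≤ π.ker := by
      rw [commutator_def, Subgroup.commutator_le]
      intro g _ h _
      rw [MonoidHom.mem_ker, map_commutatorElement, commutatorElement_eq_one_iff_mul_comm]
      exact hab g h
    haveI : Group.IsNilpotent (SemidirectProduct.inl : (E × E) →* G).range :=
      Group.nilpotent_of_surjective (SemidirectProduct.inl : (E × E) →* G).rangeRestrict
        (MonoidHom.rangeRestrict_surjective _)
    let f : commutator K →* (SemidirectProduct.inl : (E × E) →* G).range :=
      (K.subtype.comp (commutator K).subtype).codRestrict _ (by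
        intro x
        have h1 : (x : K) ∈ π.ker := hle x.2
        rw [← ker_rh]
        exact h1)
    refine nil_of_inj f ?_
    intro x y hxy
    apply Subtype.ext
    apply Subtype.ext
    have h := congrArg (fun r : (SemidirectProduct.inl : (E × E) →* G).range => (r : G)) hxy
    exact h

lemma nc1 : (⟨1, 0, 0⟩ : E) * ⟨0, 1, 0⟩ ≠ ⟨0, 1, 0⟩ * ⟨1, 0, 0⟩ := by decide

/-- the Heisenberg element with coordinates in the second factor -/
def i2 (e : E) : G := SemidirectProduct.inl ((1 : E), e)
/-- the element in the first factor -/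
def i1 (e : E) : G := SemidirectProduct.inl (e, (1 : E))

theorem result :
    ¬ (∀ (F : ∀ (H : Type) [Group H], Prop),
    (∀ (H K : Type) [Group H] [Group K] [Finite H] (f : H →* K),
        Function.Surjective f → F H → F K) →
    (∀ (H K₁ K₂ : Type) [Group H] [Group K₁] [Group K₂] [Finite H]
        (f₁ : H →* K₁) (f₂ : H →* K₂),
        Function.Surjective f₁ → Function.Surjective f₂ → F K₁ → F K₂ →
        F ↥(f₁.prod f₂).range) →
    (∀ (H K : Type) [Group H] [Group K] [Finite H] (f : H →* K),
        Function.Surjective f → (∀ M : Subgroup H, IsCoatom M → f.ker ≤ M) →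
        F K → F H) →
    ∀ (G : Type) [Group G] [Finite G],
      IsSolvable G → ¬ F G → (∀ K : Subgroup G, K ≠ ⊤ → F ↥K) →
      ∀ (p : ℕ) [Fact p.Prime] (R : Subgroup G),
        R = sInf {K : Subgroup G | ∃ (H : Type) (_ : Group H) (_ : Finite H),
              F H ∧ ∃ f : G →* H, Function.Surjective f ∧ f.ker = K} →
        (∃ P : Sylow p G, (P : Subgroup G) = R) →
        ∃ n : ℕ, 0 < n ∧
          ∃ φ : GaloisField p (2 * n) × GaloisField p (2 * n) → G,
            (∀ x : GaloisField p (2 * n) × GaloisField p (2 * n),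
                x.2 + x.2 ^ (p ^ n) + x.1 ^ (p ^ n + 1) = 0 → φ x ∈ R) ∧
            (∀ g ∈ R, ∃ x : GaloisField p (2 * n) × GaloisField p (2 * n),
                x.2 + x.2 ^ (p ^ n) + x.1 ^ (p ^ n + 1) = 0 ∧ φ x = g) ∧
            (∀ x y : GaloisField p (2 * n) × GaloisField p (2 * n),
                x.2 + x.2 ^ (p ^ n) + x.1 ^ (p ^ n + 1) = 0 →
                y.2 + y.2 ^ (p ^ n) + y.1 ^ (p ^ n + 1) = 0 →
                φ (x.1 + y.1, x.2 + y.2 - x.1 * y.1 ^ (p ^ n)) = φ x * φ y)) := by
  intro hall
  have hsol : IsSolvable G := by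
    exact Group.isSolvable_of_ker_le_range (SemidirectProduct.inl : (E × E) →* G)
      (SemidirectProduct.rightHom : G →* M16) ker_rh.le
  have hnot : ¬ ND G := by
    intro h
    have h1 := kill (MonoidHom.id G) h (vec ((1, 0), (0, 0)))
    have h2 : vec ((1, 0), (0, 0)) = 1 := SemidirectProduct.inl_injective (by rw [map_one]; exact h1)
    exact absurd (congrArg (fun p : E × E => p.1.x) h2) (by decide)
  let R : Subgroup G := (SemidirectProduct.inl : (E × E) →* G).range
  have hR : R = sInf {K : Subgroup G | ∃ (H : Type) (_ : Group H) (_ : Finite H),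
              ND H ∧ ∃ f : G →* H, Function.Surjective f ∧ f.ker = K} := by
    apply le_antisymm
    · apply le_sInf
      rintro K ⟨H, _, _, hH, f, _, rfl⟩
      rintro _ ⟨p, rfl⟩
      exact kill f hH p
    · apply sInf_le
      exact ⟨M16, inferInstance, inferInstance, nd_M16, SemidirectProduct.rightHom,
        SemidirectProduct.rightHom_surjective, ker_rh⟩
  haveI : Fact (Nat.Prime 3) := ⟨Nat.prime_three⟩
  have hSyl : ∃ P : Sylow 3 G, (P : Subgroup G) = R := by
    have hp : IsPGroup 3 (E × E) := by
      apply IsPGroup.of_card (n := 6)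
      rw [Nat.card_eq_fintype_card]
      decide +kernel
    have hpR : IsPGroup 3 R := by
      have : R = (⊤ : Subgroup (E × E)).map (SemidirectProduct.inl : (E × E) →* G) :=
        MonoidHom.range_eq_map _
      rw [this]
      exact (IsPGroup.to_subgroup hp ⊤).map _
    have hidx : ¬ 3 ∣ R.index := by
      have h1 : R.index = 16 := by
        show ((SemidirectProduct.inl : (E × E) →* G).range).index = 16
        rw [← ker_rh, Subgroup.index_ker]
        rw [MonoidHom.range_eq_top.2 SemidirectProduct.rightHom_surjective]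
        rw [Subgroup.card_top, Nat.card_eq_fintype_card]
        decide +kernel
      rw [h1]
      decide
    exact ⟨hpR.toSylow hidx, rfl⟩
  obtain ⟨n, hn, φ, h1, h2, h3⟩ := hall (fun H _ => ND H)
    (fun H K _ _ _ f hf h => nd_quot H K f hf h)
    (fun H K₁ K₂ _ _ _ _ f₁ f₂ _ _ h₁ h₂ => nd_sub H K₁ K₂ f₁ f₂ h₁ h₂)
    (fun H K _ _ _ f hf hk h => nd_sat H K f hf hk h)
    G hsol hnot proper 3 R hR hSyl
  -- now work in the field
  set q : ℕ := 3 ^ n with hq
  have hcard : ∀ a : GaloisField 3 (2 * n), (a ^ q) ^ q = a := by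
    intro a
    haveI : Fintype (GaloisField 3 (2 * n)) := Fintype.ofFinite _
    have hc : Fintype.card (GaloisField 3 (2 * n)) = 3 ^ (2 * n) := by
      rw [← Nat.card_eq_fintype_card]
      exact GaloisField.card 3 (2 * n) (by omega)
    rw [← pow_mul]
    have : q * q = Fintype.card (GaloisField 3 (2 * n)) := by
      rw [hc, hq, ← pow_add]
      congr 1
      omega
    rw [this]
    exact FiniteField.pow_card a
  have hadd : ∀ a b : GaloisField 3 (2 * n), (a + b) ^ q = a ^ q + b ^ q := fun a b =>
    add_pow_char_pow a b 3 n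
  have hsub : ∀ a b : GaloisField 3 (2 * n), (a - b) ^ q = a ^ q - b ^ q := fun a b =>
    sub_pow_char_pow a b n
  have hthree : (3 : GaloisField 3 (2 * n)) = 0 := by
    exact_mod_cast CharP.cast_eq_zero (GaloisField 3 (2 * n)) 3
  have hzq : (0 : GaloisField 3 (2 * n)) ^ q = 0 := by
    apply zero_pow
    rw [hq]; positivity
  -- generators of the second factor
  obtain ⟨x1, hx1, hfx1⟩ := h2 (i2 ⟨1, 0, 0⟩) ⟨_, rfl⟩
  obtain ⟨x2, hx2, hfx2⟩ := h2 (i2 ⟨0, 1, 0⟩) ⟨_, rfl⟩
  obtain ⟨x, hx, hfx⟩ := h2 (i1 ⟨1, 0, 0⟩) ⟨_, rfl⟩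
  obtain ⟨y0, hy0, hfy0⟩ := h2 (i1 ⟨0, 1, 0⟩) ⟨_, rfl⟩
  obtain ⟨δ, hδd⟩ : ∃ δ : GaloisField 3 (2 * n), δ = x2.1 * x1.1 ^ q - x1.1 * x2.1 ^ q := ⟨_, rfl⟩
  have hδ : δ ^ q = - δ := by
    rw [hδd, hsub, mul_pow, mul_pow, hcard, hcard]
    ring
  have hd : δ + δ ^ q + (0 : GaloisField 3 (2 * n)) ^ (q + 1) = 0 := by
    rw [hδ, zero_pow (Nat.succ_ne_zero _)]
    ring
  -- φ d
  have hrel : φ x1 * φ x2 = φ x2 * φ x1 * φ (0, δ) := by
    rw [← h3 x1 x2 hx1 hx2, ← h3 x2 x1 hx2 hx1]
    have hrel2 : ((x2.1 + x1.1, x2.2 + x1.2 - x2.1 * x1.1 ^ q) : GaloisField 3 (2 * n) × GaloisField 3 (2 * n)).2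
        + ((x2.1 + x1.1, x2.2 + x1.2 - x2.1 * x1.1 ^ q) : GaloisField 3 (2 * n) × GaloisField 3 (2 * n)).2 ^ q
        + ((x2.1 + x1.1, x2.2 + x1.2 - x2.1 * x1.1 ^ q) : GaloisField 3 (2 * n) × GaloisField 3 (2 * n)).1 ^ (q + 1) = 0 := by
      show (x2.2 + x1.2 - x2.1 * x1.1 ^ q) + (x2.2 + x1.2 - x2.1 * x1.1 ^ q) ^ q
        + (x2.1 + x1.1) ^ (q + 1) = 0
      rw [pow_succ, hadd, hsub, hadd, mul_pow, hcard]
      rw [pow_succ] at hx1 hx2
      linear_combination hx1 + hx2
    rw [← h3 _ (0, δ) hrel2 hd]
    congr 1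
    apply Prod.ext
    · show x1.1 + x2.1 = x2.1 + x1.1 + 0
      ring
    · show x1.2 + x2.2 - x1.1 * x2.1 ^ q
        = (x2.2 + x1.2 - x2.1 * x1.1 ^ q) + δ - (x2.1 + x1.1) * (0 : GaloisField 3 (2 * n)) ^ q
      rw [hzq, hδd]
      ring
  have ha : x.1 ≠ 0 := by
    intro h0
    have e1 : φ x * φ y0 = φ y0 * φ x := by
      rw [← h3 x y0 hx hy0, ← h3 y0 x hy0 hx]
      congr 1
      apply Prod.ext
      · show x.1 + y0.1 = y0.1 + x.1
        ring
      · show x.2 + y0.2 - x.1 * y0.1 ^ q = y0.2 + x.2 - y0.1 * x.1 ^ q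
        rw [h0, hzq]
        ring
    rw [hfx, hfy0, i1, i1, ← map_mul, ← map_mul] at e1
    have e2 := SemidirectProduct.inl_injective e1
    exact nc1 (congrArg Prod.fst e2)
  -- the element t
  obtain ⟨N, hNd⟩ : ∃ N : GaloisField 3 (2 * n), N = x.1 * x.1 ^ q := ⟨_, rfl⟩
  have hN : N ≠ 0 := by rw [hNd]; exact mul_ne_zero ha (pow_ne_zero _ ha)
  have hNq : N ^ q = N := by
    rw [hNd, mul_pow, hcard]
    ring
  obtain ⟨t, htd⟩ : ∃ t : GaloisField 3 (2 * n), t = - (δ / N) := ⟨_, rfl⟩
  have ht : t ^ q = - t := by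
    rw [htd]
    have : (-(δ / N)) ^ q = - ((δ / N) ^ q) := by
      have := hsub 0 (δ / N)
      rw [hzq] at this
      simpa using this
    rw [this, div_pow, hδ, hNq]
    ring
  obtain ⟨s, hsd⟩ : ∃ s : GaloisField 3 (2 * n), s = (x.1 * t) * (x.1 * t) ^ q := ⟨_, rfl⟩
  have hs : s ^ q = s := by
    rw [hsd, mul_pow, hcard]
    ring
  have hy : s + s ^ q + (x.1 * t) ^ (q + 1) = 0 := by
    rw [hs, pow_succ, hsd]
    linear_combination ((x.1 * t) * (x.1 * t) ^ q) * hthree
  obtain ⟨⟨y1, y2⟩, hyy⟩ := h1 (x.1 * t, s) hy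
  have hrel' : φ x * φ (x.1 * t, s) = φ (x.1 * t, s) * φ x * φ (0, δ) := by
    rw [← h3 x (x.1 * t, s) hx hy, ← h3 (x.1 * t, s) x hy hx]
    have hrel2 : (s + x.2 - (x.1 * t) * x.1 ^ q) + (s + x.2 - (x.1 * t) * x.1 ^ q) ^ q
        + (x.1 * t + x.1) ^ (q + 1) = 0 := by
      have e3 : (x.1 * t * x.1 ^ q) ^ q = (x.1 * t) ^ q * x.1 := by rw [mul_pow _ (x.1 ^ q), hcard]
      rw [pow_succ, hadd, hsub, hadd, e3]
      rw [pow_succ] at hx hy
      linear_combination hx + hy
    rw [← h3 _ (0, δ) hrel2 hd]
    congr 1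
    apply Prod.ext
    · show x.1 + x.1 * t = x.1 * t + x.1 + 0
      ring
    · show x.2 + s - x.1 * (x.1 * t) ^ q
        = (s + x.2 - (x.1 * t) * x.1 ^ q) + δ - (x.1 * t + x.1) * (0 : GaloisField 3 (2 * n)) ^ q
      rw [hzq, mul_pow, ht]
      have e1 : N * t = - δ := by
        rw [htd]
        field_simp
      have e2 : x.1 * x.1 ^ q * t = - δ := by rw [← hNd]; exact e1
      linear_combination (2 : GaloisField 3 (2 * n)) * e2 - δ * hthree
  -- compare second coordinates
  rw [hfx1, hfx2] at hrel
  rw [hfx, ← hyy] at hrel'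
  have hdR : φ (0, δ) ∈ R := h1 (0, δ) hd
  obtain ⟨⟨d1, d2⟩, hdd⟩ := hdR
  rw [← hdd] at hrel hrel'
  rw [i2, i2, ← map_mul, ← map_mul, ← map_mul] at hrel
  rw [i1, ← map_mul, ← map_mul, ← map_mul] at hrel'
  have k1 := congrArg Prod.snd (SemidirectProduct.inl_injective hrel)
  have k2 := congrArg Prod.snd (SemidirectProduct.inl_injective hrel')
  have k3 : d2 = 1 := by
    have : (1 : E) * y2 = y2 * 1 * d2 := k2
    rw [one_mul, mul_one] at this
    exact (mul_eq_left.1 this.symm)
  have k4 : (⟨1, 0, 0⟩ : E) * ⟨0, 1, 0⟩ = ⟨0, 1, 0⟩ * ⟨1, 0, 0⟩ * d2 := k1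
  rw [k3, mul_one] at k4
  exact nc1 k4

end Pool.Agent.S02272
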