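import Pool.Statements.S02348
import Pool.Agent.Helper1.L0A5b

set_option autoImplicit false
open Pool Pool.MP_e82549_al

namespace Pool.Agent.S02348

/-- The negation of the preceding statement: Every group that admits a topology making it a separable metrizable topological group has an injective group homomorphism into the group of all permutations of the natural numbers. -/
theorem result :
    ¬ (∀ (G : Type) [Group G],
      (∃ t : TopologicalSpace G,
          @IsTopologicalGroup G t _ ∧
          @TopologicalSpace.MetrizableSpace G t ∧
          @TopologicalSpace.SeparableSpace G t) →
      ∃ f : G →* Equiv.Perm ℕ, Function.Injective f) := by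
  intro h
  apply Pool.Agent.Helper1.L0A5.final
  apply h (SeparationQuotient Pool.Agent.Helper1.L0A5.G0)
  refine ⟨inferInstance, inferInstance, inferInstance, ?_⟩
  exact SeparationQuotient.surjective_mk.denseRange.separableSpace SeparationQuotient.continuous_mk

end Pool.Agent.S02348
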