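import Pool.Statements.S02382
-- import your own Pool.Agent.* helpers here

set_option autoImplicit false
open Pool Pool.MP_eace53_al

namespace Pool.Agent.S02382

section Gen
variable {X W : Type} [AddCommGroup X] [Module (ZMod 3) X] [AddCommGroup W] [Module (ZMod 3) W]

@[ext]
structure T (β : X →ₗ[ZMod 3] X →ₗ[ZMod 3] W) where
  x : X
  y : X
  w : W
  c : ZMod 3
  s : ZMod 3
  h : c * c + s * s = 1

variable (β : X →ₗ[ZMod 3] X →ₗ[ZMod 3] W)

instance : Mul (T β) := ⟨fun g g' =>
  { x := g.x + (g.c • g'.x - g.s • g'.y)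
    y := g.y + (g.s • g'.x + g.c • g'.y)
    w := g.w + g'.w + (β g.x (g.s • g'.x + g.c • g'.y) - β g.y (g.c • g'.x - g.s • g'.y))
    c := g.c * g'.c - g.s * g'.s
    s := g.s * g'.c + g.c * g'.s
    h := by
      have h1 := g.h
      have h2 := g'.h
      linear_combination (g'.c * g'.c + g'.s * g'.s) * h1 + h2 }⟩

instance : One (T β) := ⟨⟨0, 0, 0, 1, 0, by decide⟩⟩

instance : Inv (T β) := ⟨fun g => ⟨-(g.c • g.x + g.s • g.y), g.s • g.x - g.c • g.y,
  -g.w + (β g.x g.y - β g.y g.x), g.c, -g.s, by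
  have h1 := g.h
  linear_combination h1⟩⟩

lemma mul_x (g g' : T β) : (g * g').x = g.x + (g.c • g'.x - g.s • g'.y) := rfl
lemma mul_y (g g' : T β) : (g * g').y = g.y + (g.s • g'.x + g.c • g'.y) := rfl
lemma mul_w (g g' : T β) : (g * g').w = g.w + g'.w + (β g.x (g.s • g'.x + g.c • g'.y) - β g.y (g.c • g'.x - g.s • g'.y)) := rfl
lemma mul_c (g g' : T β) : (g * g').c = g.c * g'.c - g.s * g'.s := rfl
lemma mul_s (g g' : T β) : (g * g').s = g.s * g'.c + g.c * g'.s := rfl
lemma one_x : (1 : T β).x = 0 := rfl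
lemma one_y : (1 : T β).y = 0 := rfl
lemma one_w : (1 : T β).w = 0 := rfl
lemma one_c : (1 : T β).c = 1 := rfl
lemma one_s : (1 : T β).s = 0 := rfl
lemma inv_x (g : T β) : (g⁻¹).x = -(g.c • g.x + g.s • g.y) := rfl
lemma inv_y (g : T β) : (g⁻¹).y = g.s • g.x - g.c • g.y := rfl
lemma inv_w (g : T β) : (g⁻¹).w = -g.w + (β g.x g.y - β g.y g.x) := rfl
lemma inv_c (g : T β) : (g⁻¹).c = g.c := rfl
lemma inv_s (g : T β) : (g⁻¹).s = -g.s := rfl

instance : Group (T β) := Group.ofLeftAxioms
  (by
    intro a b d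
    have hc := a.h
    ext
    · simp only [mul_x, mul_y, mul_c, mul_s]
      module
    · simp only [mul_x, mul_y, mul_c, mul_s]
      module
    · simp only [mul_x, mul_y, mul_w, mul_c, mul_s, map_add, map_sub, map_smul,
        LinearMap.add_apply, LinearMap.sub_apply, LinearMap.smul_apply, smul_add, smul_sub]
      have h1 : ∀ z : W, (a.c * a.c) • z + (a.s * a.s) • z = z := by
        intro z
        rw [← add_smul, hc, one_smul]
      have e1 := h1 (β b.x (b.s • d.x + b.c • d.y) - β b.y (b.c • d.x - b.s • d.y))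
      simp only [map_add, map_sub, map_smul, smul_add, smul_sub] at e1
      linear_combination (norm := module) e1
    · simp only [mul_c, mul_s]
      ring
    · simp only [mul_c, mul_s]
      ring)
  (by
    intro a
    ext
    · simp [mul_x, one_x, one_c, one_s]
    · simp [mul_y, one_y, one_c, one_s]
    · simp [mul_w, one_w, one_x, one_y]
    · simp [mul_c, one_c, one_s]
    · simp [mul_s, one_c, one_s])
  (by
    intro a
    have hc := a.h
    ext
    · simp only [mul_x, inv_x, inv_c, inv_s, one_x]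
      module
    · simp only [mul_y, inv_y, inv_c, inv_s, one_y]
      module
    · simp only [mul_w, inv_x, inv_y, inv_w, inv_c, inv_s, one_w, map_add, map_sub, map_smul,
        LinearMap.add_apply, LinearMap.sub_apply, LinearMap.smul_apply, smul_sub,
        map_neg, LinearMap.neg_apply]
      have h1 : ∀ z : W, (a.c * a.c) • z + (a.s * a.s) • z = z := by
        intro z
        rw [← add_smul, hc, one_smul]
      have e1 := h1 (β a.x a.y - β a.y a.x)
      simp only [smul_sub] at e1
      linear_combination (norm := module) -e1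
    · simp only [mul_c, inv_c, inv_s, one_c]
      rw [← hc]
      ring
    · simp only [mul_s, inv_c, inv_s, one_s]
      ring)

/-- elements of the normal 3-subgroup -/
def kk (x y : X) (w : W) : T β := ⟨x, y, w, 1, 0, by decide⟩
/-- the rotation -/
def aa : T β := ⟨0, 0, 0, 0, 1, by decide⟩

lemma kk_mul (x y x' y' : X) (w w' : W) :
    kk β x y w * kk β x' y' w' = kk β (x + x') (y + y') (w + w' + (β x y' - β y x')) := by
  ext
  · simp [mul_x, kk]
  · simp [mul_y, kk]
  · simp [mul_w, kk]
  · simp [mul_c, kk]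
  · simp [mul_s, kk]

lemma aa_mul (x y : X) (w : W) : aa β * kk β x y w = kk β (-y) x w * aa β := by
  ext
  · simp [mul_x, kk, aa]
  · simp [mul_y, kk, aa]
  · simp [mul_w, kk, aa]
  · simp [mul_c, kk, aa]
  · simp [mul_s, kk, aa]

end Gen

/-- the finite group -/
abbrev H0 : Type := T (LinearMap.mul (ZMod 3) (ZMod 3))

instance : Finite H0 := by
  apply Finite.of_injective (fun g : H0 => (g.x, g.y, g.w, g.c, g.s))
  intro g g' h
  simp only [Prod.mk.injEq] at h
  ext
  · exact h.1
  · exact h.2.1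
  · exact h.2.2.1
  · exact h.2.2.2.1
  · exact h.2.2.2.2

lemma cube_cs (c s : ZMod 3) (h1 : (c * c - s * s) * c - (s * c + c * s) * s = 1)
    (h2 : (s * c + c * s) * c + (c * c - s * s) * s = 0) : c = 1 ∧ s = 0 := by
  revert h1 h2; revert c s; decide

lemma H0_cube (g : H0) (h : g * g * g = 1) : g.c = 1 ∧ g.s = 0 := by
  apply cube_cs
  · have := congrArg T.c h
    simpa only [mul_c, mul_s, one_c] using this
  · have := congrArg T.s h
    simpa only [mul_c, mul_s, one_s] using this
section P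
variable {X W : Type} [AddCommGroup X] [Module (ZMod 3) X] [AddCommGroup W] [Module (ZMod 3) W]
variable (β : X →ₗ[ZMod 3] X →ₗ[ZMod 3] W)

lemma three {Y : Type} [AddCommGroup Y] [Module (ZMod 3) Y] (y : Y) : y + y + y = 0 := by
  have h : (3 : ZMod 3) • y = 0 := by
    rw [show (3 : ZMod 3) = 0 by decide, zero_smul]
  have h2 : y + y + y = (3 : ZMod 3) • y := by module
  rw [h2, h]

lemma kk_cube (x y : X) (w : W) : kk β x y w * kk β x y w * kk β x y w = 1 := by
  rw [kk_mul, kk_mul]
  ext
  · show x + x + x = 0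
    exact three x
  · show y + y + y = 0
    exact three y
  · show w + w + (β x y - β y x) + w + (β (x + x) y - β (y + y) x) = 0
    have h1 := three w
    have h2 := three (β x y - β y x)
    simp only [map_add, LinearMap.add_apply]
    linear_combination (norm := module) h1 + h2
  · rfl
  · rfl

lemma mx {g g' : H0} (hc : g.c = 1) (hs : g.s = 0) : (g * g').x = g.x + g'.x := by
  rw [mul_x, hc, hs]; simp
lemma my {g g' : H0} (hc : g.c = 1) (hs : g.s = 0) : (g * g').y = g.y + g'.y := by
  rw [mul_y, hc, hs]; simp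
lemma mw {g g' : H0} (hc : g.c = 1) (hs : g.s = 0) :
    (g * g').w = g.w + g'.w + (g.x * g'.y - g.y * g'.x) := by
  rw [mul_w, hc, hs]; simp

lemma z3cases (c : ZMod 3) : c = 0 ∨ c = 1 ∨ c = 1 + 1 := by
  revert c; decide

theorem G_lemma (hsym : ∀ x y, β x y = β y x)
    (hspan : ∀ w : W, w ∈ Submodule.span (ZMod 3) {w | ∃ x y, w = β x y}) (F : T β →* H0) :
    ∃ (Ψ : W →+ ZMod 3) (l1 l2 : X →+ ZMod 3) (s0 : ZMod 3),
      (∀ w, F (kk β 0 0 w) = kk _ 0 0 (Ψ w)) ∧
      (∀ x x', Ψ (β x x') = s0 * (l1 x * l1 x' + l2 x * l2 x')) ∧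
      (∀ x x', l1 x * l2 x' = l2 x * l1 x') := by
  have hcs : ∀ x y w, (F (kk β x y w)).c = 1 ∧ (F (kk β x y w)).s = 0 := by
    intro x y w
    apply H0_cube
    rw [← map_mul, ← map_mul, kk_cube, map_one]
  have hc := fun x y w => (hcs x y w).1
  have hs := fun x y w => (hcs x y w).2
  -- central elements
  have hP : ∀ w, (F (kk β 0 0 w)).x = 0 ∧ (F (kk β 0 0 w)).y = 0 := by
    intro w
    induction hspan w using Submodule.span_induction with
    | mem w hw =>
      obtain ⟨x, y, rfl⟩ := hw
      have h1 : kk β x 0 0 * kk β 0 (y + y) 0 = kk β 0 (y + y) 0 * kk β x 0 0 * kk β 0 0 (β x y) := by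
        rw [kk_mul, kk_mul, kk_mul]
        have h2 := three (β x y)
        ext
        · simp [kk]
        · simp [kk]
        · show (0 : W) + 0 + (β x (y + y) - β 0 0) = 0 + 0 + (β 0 0 - β (y + y) x) + β x y
            + (β (0 + x) 0 - β (y + y + 0) 0)
          simp only [map_add, LinearMap.add_apply, map_zero]
          rw [hsym y x]
          linear_combination (norm := module) h2
        · rfl
        · rfl
      have h2 := congrArg F h1
      simp only [map_mul] at h2
      constructor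
      · have h3 := congrArg T.x h2
        rw [mul_assoc, mx (hc _ _ _) (hs _ _ _), mx (hc _ _ _) (hs _ _ _),
          mx (hc _ _ _) (hs _ _ _)] at h3
        linear_combination -h3
      · have h3 := congrArg T.y h2
        rw [mul_assoc, my (hc _ _ _) (hs _ _ _), my (hc _ _ _) (hs _ _ _),
          my (hc _ _ _) (hs _ _ _)] at h3
        linear_combination -h3
    | zero =>
      have : kk β 0 0 (0 : W) = 1 := rfl
      rw [this, map_one]
      exact ⟨rfl, rfl⟩
    | add w w' _ _ h1 h2 =>
      have : kk β 0 0 (w + w') = kk β 0 0 w * kk β 0 0 w' := by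
        rw [kk_mul]; simp
      rw [this, map_mul, mx (hc _ _ _) (hs _ _ _), my (hc _ _ _) (hs _ _ _), h1.1, h1.2, h2.1, h2.2]
      simp
    | smul c w _ h1 =>
      rcases z3cases c with rfl | rfl | rfl
      · rw [zero_smul]
        have : kk β 0 0 (0 : W) = 1 := rfl
        rw [this, map_one]
        exact ⟨rfl, rfl⟩
      · rwa [one_smul]
      · have : kk β 0 0 ((1 + 1 : ZMod 3) • w) = kk β 0 0 w * kk β 0 0 w := by
          rw [kk_mul, add_smul, one_smul]; simp
        rw [this, map_mul, mx (hc _ _ _) (hs _ _ _), my (hc _ _ _) (hs _ _ _), h1.1, h1.2]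
        simp
  have hPx := fun w => (hP w).1
  have hPy := fun w => (hP w).2
  let Ψ : W →+ ZMod 3 :=
    { toFun := fun w => (F (kk β 0 0 w)).w
      map_zero' := by
        have : kk β 0 0 (0 : W) = 1 := rfl
        rw [this, map_one]; rfl
      map_add' := by
        intro w w'
        have : kk β 0 0 (w + w') = kk β 0 0 w * kk β 0 0 w' := by
          rw [kk_mul]; simp
        rw [this, map_mul, mw (hc _ _ _) (hs _ _ _), hPx w, hPy w]
        ring }
  have hΨ : ∀ w, Ψ w = (F (kk β 0 0 w)).w := fun w => rfl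
  clear_value Ψ
  -- product formulas
  have hadd : ∀ x y x' y', F (kk β x y 0) * F (kk β x' y' 0)
      = F (kk β (x + x') (y + y') 0) * F (kk β 0 0 (β x y' - β y x')) := by
    intro x y x' y'
    rw [← map_mul, ← map_mul, kk_mul, kk_mul]
    congr 1
    simp
  have haddx : ∀ x y x' y', (F (kk β (x + x') (y + y') 0)).x
      = (F (kk β x y 0)).x + (F (kk β x' y' 0)).x := by
    intro x y x' y'
    have h := congrArg T.x (hadd x y x' y')
    rw [mx (hc _ _ _) (hs _ _ _), mx (hc _ _ _) (hs _ _ _), hPx] at h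
    linear_combination -h
  have haddy : ∀ x y x' y', (F (kk β (x + x') (y + y') 0)).y
      = (F (kk β x y 0)).y + (F (kk β x' y' 0)).y := by
    intro x y x' y'
    have h := congrArg T.y (hadd x y x' y')
    rw [my (hc _ _ _) (hs _ _ _), my (hc _ _ _) (hs _ _ _), hPy] at h
    linear_combination -h
  have haddw : ∀ x y x' y', (F (kk β x y 0)).x * (F (kk β x' y' 0)).y
      - (F (kk β x y 0)).y * (F (kk β x' y' 0)).x = Ψ (β x y' - β y x') := by
    intro x y x' y'
    have h := congrArg T.w (hadd x y x' y')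
    have h' := congrArg T.w (hadd x' y' x y)
    rw [mw (hc _ _ _) (hs _ _ _), mw (hc _ _ _) (hs _ _ _), hPx, hPy, ← hΨ] at h h'
    rw [add_comm x' x, add_comm y' y] at h'
    have h3 : Ψ (β x' y - β y' x) = - Ψ (β x y' - β y x') := by
      rw [← map_neg]
      congr 1
      rw [hsym x' y, hsym y' x]
      abel
    rw [h3] at h'
    have h4 : (F (kk β x y 0)).x * (F (kk β x' y' 0)).y
      - (F (kk β x y 0)).y * (F (kk β x' y' 0)).x - Ψ (β x y' - β y x') +
      ((F (kk β x y 0)).x * (F (kk β x' y' 0)).y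
      - (F (kk β x y 0)).y * (F (kk β x' y' 0)).x - Ψ (β x y' - β y x')) = 0 := by
      linear_combination h - h'
    have h5 : ∀ r : ZMod 3, r + r = 0 → r = 0 := by decide
    exact sub_eq_zero.1 (h5 _ h4)
  -- rotation
  have hrot : ∀ x y, F (aa β) * F (kk β x y 0) = F (kk β (-y) x 0) * F (aa β) := by
    intro x y
    rw [← map_mul, ← map_mul, aa_mul]
  obtain ⟨c0, hc0⟩ : ∃ c0, c0 = (F (aa β)).c := ⟨_, rfl⟩
  obtain ⟨s0, hs0⟩ : ∃ s0, s0 = (F (aa β)).s := ⟨_, rfl⟩
  have hrx : ∀ x y, (F (kk β (-y) x 0)).x = c0 * (F (kk β x y 0)).x - s0 * (F (kk β x y 0)).y := by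
    intro x y
    have h := congrArg T.x (hrot x y)
    rw [mx (hc _ _ _) (hs _ _ _), mul_x, ← hc0, ← hs0, smul_eq_mul, smul_eq_mul] at h
    linear_combination -h
  have hry : ∀ x y, (F (kk β (-y) x 0)).y = s0 * (F (kk β x y 0)).x + c0 * (F (kk β x y 0)).y := by
    intro x y
    have h := congrArg T.y (hrot x y)
    rw [my (hc _ _ _) (hs _ _ _), mul_y, ← hc0, ← hs0, smul_eq_mul, smul_eq_mul] at h
    linear_combination -h
  let l1 : X →+ ZMod 3 :=
    { toFun := fun x => (F (kk β x 0 0)).x
      map_zero' := hPx 0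
      map_add' := by
        intro x x'
        have := haddx x 0 x' 0
        rwa [add_zero] at this }
  let l2 : X →+ ZMod 3 :=
    { toFun := fun x => (F (kk β x 0 0)).y
      map_zero' := hPy 0
      map_add' := by
        intro x x'
        have := haddy x 0 x' 0
        rwa [add_zero] at this }
  have hl1 : ∀ x, l1 x = (F (kk β x 0 0)).x := fun x => rfl
  have hl2 : ∀ x, l2 x = (F (kk β x 0 0)).y := fun x => rfl
  clear_value l1 l2
  have hiso : ∀ x x', l1 x * l2 x' = l2 x * l1 x' := by
    intro x x'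
    have h := haddw x 0 x' 0
    rw [← hl1, ← hl2, ← hl1, ← hl2] at h
    simp only [map_zero, LinearMap.zero_apply, sub_zero] at h
    linear_combination h
  refine ⟨Ψ, l1, l2, s0, ?_, ?_, hiso⟩
  · intro w
    ext
    · exact hPx w
    · exact hPy w
    · exact (hΨ w).symm
    · exact hc _ _ _
    · exact hs _ _ _
  · intro x x'
    have h := haddw x 0 0 x'
    have h1 := hrx x' 0
    have h2 := hry x' 0
    rw [neg_zero] at h1 h2
    rw [h1, h2, ← hl1, ← hl2, ← hl1, ← hl2] at h
    simp only [map_zero, LinearMap.zero_apply, sub_zero] at h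
    rw [← h]
    linear_combination c0 * hiso x x'

lemma span_closure_mem (Nn : Subgroup (T β)) (hsym : ∀ x y, β x y = β y x)
    (hspan : ∀ w : W, w ∈ Submodule.span (ZMod 3) {w | ∃ x y, w = β x y})
    (hN : Nn.Normal) (ha : aa β ∈ Nn) : ∀ g : T β, g ∈ Nn := by
  have hinv : ∀ x y, (kk β x y 0)⁻¹ = kk β (-x) (-y) 0 := by
    intro x y
    rw [inv_eq_iff_mul_eq_one, kk_mul]
    ext
    · show x + -x = 0
      abel
    · show y + -y = 0
      abel
    · show (0 : W) + 0 + (β x (-y) - β y (-x)) = 0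
      rw [map_neg, map_neg, hsym x y]
      abel
    · rfl
    · rfl
  have h1 : ∀ x y, kk β (x + y) (y - x) (-(β x x + β y y)) ∈ Nn := by
    intro x y
    have h2 : kk β x y 0 * aa β * (kk β x y 0)⁻¹ * (aa β)⁻¹ ∈ Nn :=
      Nn.mul_mem (hN.conj_mem _ ha _) (Nn.inv_mem ha)
    have h3 : kk β x y 0 * aa β * (kk β x y 0)⁻¹ * (aa β)⁻¹
        = kk β (x + y) (y - x) (-(β x x + β y y)) := by
      rw [hinv, mul_assoc (kk β x y 0), aa_mul, mul_assoc, mul_assoc, mul_inv_cancel, mul_one, kk_mul]
      ext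
      · show x + - -y = x + y
        abel
      · show y + -x = y - x
        abel
      · show (0 : W) + 0 + (β x (-x) - β y (- -y)) = -(β x x + β y y)
        rw [map_neg, neg_neg]
        abel
      · rfl
      · rfl
    rwa [h3] at h2
  have h2 : ∀ p q : X, ∃ w, kk β p q w ∈ Nn := by
    intro p q
    refine ⟨-(β (q - p) (q - p) + β (-(p + q)) (-(p + q))), ?_⟩
    have h3 := h1 (q - p) (-(p + q))
    have e1 : q - p + -(p + q) = p := by
      have := three p
      linear_combination (norm := module) -this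
    have e2 : -(p + q) - (q - p) = q := by
      have := three q
      linear_combination (norm := module) -this
    rwa [e1, e2] at h3
  have h3 : ∀ w, kk β 0 0 w ∈ Nn := by
    intro w
    induction hspan w using Submodule.span_induction with
    | mem w hw =>
      obtain ⟨x, y, rfl⟩ := hw
      obtain ⟨w1, hw1⟩ := h2 x 0
      obtain ⟨w2, hw2⟩ := h2 0 (y + y)
      have h4 : kk β 0 0 (β x y) = (kk β 0 (y + y) w2 * kk β x 0 w1)⁻¹
          * (kk β x 0 w1 * kk β 0 (y + y) w2) := by
        rw [eq_inv_mul_iff_mul_eq, kk_mul, kk_mul, kk_mul]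
        have h2 := three (β x y)
        ext
        · simp [kk]
        · simp [kk]
        · show w2 + w1 + (β 0 0 - β (y + y) x) + β x y
            + (β (0 + x) 0 - β (y + y + 0) 0) = w1 + w2 + (β x (y + y) - β 0 0)
          simp only [map_add, LinearMap.add_apply, map_zero]
          rw [hsym y x]
          linear_combination (norm := module) -h2
        · rfl
        · rfl
      rw [h4]
      exact Nn.mul_mem (Nn.inv_mem (Nn.mul_mem hw2 hw1)) (Nn.mul_mem hw1 hw2)
    | zero =>
      have : kk β 0 0 (0 : W) = 1 := rfl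
      rw [this]
      exact Nn.one_mem
    | add w w' _ _ h1 h2 =>
      have : kk β 0 0 (w + w') = kk β 0 0 w * kk β 0 0 w' := by
        rw [kk_mul]; simp
      rw [this]
      exact Nn.mul_mem h1 h2
    | smul c w _ h1 =>
      rcases z3cases c with rfl | rfl | rfl
      · rw [zero_smul]
        have : kk β 0 0 (0 : W) = 1 := rfl
        rw [this]
        exact Nn.one_mem
      · rwa [one_smul]
      · have : kk β 0 0 ((1 + 1 : ZMod 3) • w) = kk β 0 0 w * kk β 0 0 w := by
          rw [kk_mul, add_smul, one_smul]; simp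
        rw [this]
        exact Nn.mul_mem h1 h1
  have h4 : ∀ x y w, kk β x y w ∈ Nn := by
    intro x y w
    obtain ⟨w1, hw1⟩ := h2 x y
    have : kk β x y w = kk β x y w1 * kk β 0 0 (w - w1) := by
      rw [kk_mul]; simp
    rw [this]
    exact Nn.mul_mem hw1 (h3 _)
  intro g
  have h5 : ∀ r : T β, r.c = g.c → r.s = g.s → r.x = 0 → r.y = 0 → r.w = 0 → r ∈ Nn → g ∈ Nn := by
    intro r hc hs hx hy hw hr
    have : g = kk β g.x g.y g.w * r := by
      ext
      · simp [mul_x, kk, hx, hy]
      · simp [mul_y, kk, hx, hy]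
      · simp [mul_w, kk, hx, hy, hw]
      · simp [mul_c, kk, hc]
      · simp [mul_s, kk, hs]
    rw [this]
    exact Nn.mul_mem (h4 _ _ _) hr
  have h6 : ∀ c s : ZMod 3, c * c + s * s = 1 → (c = 1 ∧ s = 0) ∨ (c = 0 ∧ s = 1) ∨
      (c = -1 ∧ s = 0) ∨ (c = 0 ∧ s = -1) := by decide
  rcases h6 g.c g.s g.h with ⟨hc, hs⟩ | ⟨hc, hs⟩ | ⟨hc, hs⟩ | ⟨hc, hs⟩
  · exact h5 1 (hc ▸ rfl) (hs ▸ rfl) rfl rfl rfl Nn.one_mem
  · exact h5 (aa β) (hc ▸ rfl) (hs ▸ rfl) rfl rfl rfl ha
  · refine h5 (aa β * aa β) ?_ ?_ ?_ ?_ ?_ (Nn.mul_mem ha ha)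
    · rw [hc, mul_c]; simp [aa]
    · rw [hs, mul_s]; simp [aa]
    · rw [mul_x]; simp [aa]
    · rw [mul_y]; simp [aa]
    · rw [mul_w]; simp [aa]
  · refine h5 (aa β)⁻¹ ?_ ?_ ?_ ?_ ?_ (Nn.inv_mem ha)
    · rw [hc, inv_c]; simp [aa]
    · rw [hs, inv_s]; simp [aa]
    · rw [inv_x]; simp [aa]
    · rw [inv_y]; simp [aa]
    · rw [inv_w]; simp [aa]

end P

section N
variable (K : Type) [Field K] [Algebra (ZMod 3) K]

/-- linear functionals -/
abbrev XD : Type := K →ₗ[ZMod 3] ZMod 3

/-- quadratic forms `l ↦ τ(l²)` -/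
def R : Submodule (ZMod 3) (K → ZMod 3) where
  carrier := {h | ∃ τ : XD K, ∀ l, h l = τ (l * l)}
  add_mem' := by
    rintro a b ⟨τ, hτ⟩ ⟨σ, hσ⟩
    exact ⟨τ + σ, fun l => by rw [Pi.add_apply, hτ, hσ]; rfl⟩
  zero_mem' := ⟨0, fun l => rfl⟩
  smul_mem' := by
    rintro c a ⟨τ, hτ⟩
    exact ⟨c • τ, fun l => by rw [Pi.smul_apply, hτ]; rfl⟩

/-- functions modulo the quadratic forms `τ(l²)` -/
abbrev W0 : Type := (K → ZMod 3) ⧸ R K

/-- the span of the products of two linear functionals -/
def WS : Submodule (ZMod 3) (W0 K) :=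
  Submodule.span (ZMod 3) {w | ∃ x y : XD K, w = Submodule.Quotient.mk (fun l => x l * y l)}

/-- the centre -/
abbrev WW : Type := ↥(WS K)

/-- the bilinear map -/
def bb : XD K →ₗ[ZMod 3] XD K →ₗ[ZMod 3] WW K :=
  LinearMap.mk₂ (ZMod 3)
    (fun (x y : XD K) => (⟨Submodule.Quotient.mk (fun l => x l * y l),
      Submodule.subset_span ⟨x, y, rfl⟩⟩ : WW K))
    (by
      intro a b c
      apply Subtype.ext
      show Submodule.Quotient.mk _ = Submodule.Quotient.mk _
      congr 1; funext l; simp [add_mul])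
    (by
      intro a b c
      apply Subtype.ext
      show Submodule.Quotient.mk _ = Submodule.Quotient.mk _
      congr 1; funext l; simp [mul_assoc])
    (by
      intro a b c
      apply Subtype.ext
      show Submodule.Quotient.mk _ = Submodule.Quotient.mk _
      congr 1; funext l; simp [mul_add])
    (by
      intro a b c
      apply Subtype.ext
      show Submodule.Quotient.mk _ = Submodule.Quotient.mk _
      congr 1; funext l; simp [mul_left_comm])

lemma bb_apply (x y : XD K) :
    (bb K x y).1 = Submodule.Quotient.mk (fun l => x l * y l) := rfl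

lemma bb_sym (x y : XD K) : bb K x y = bb K y x := by
  apply Subtype.ext
  rw [bb_apply, bb_apply]
  congr 1
  funext l
  ring

lemma bb_span (w : WW K) : w ∈ Submodule.span (ZMod 3) {w | ∃ x y, w = bb K x y} := by
  obtain ⟨w, hw⟩ := w
  unfold WS at hw
  induction hw using Submodule.span_induction with
  | mem w hw =>
    obtain ⟨x, y, rfl⟩ := hw
    exact Submodule.subset_span ⟨x, y, rfl⟩
  | zero => exact Submodule.zero_mem _
  | add a b ha hb h1 h2 => exact Submodule.add_mem _ h1 h2
  | smul c a ha h1 => exact Submodule.smul_mem _ c h1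

/-- functional on the centre -/
def psi (e : (K → ZMod 3) →ₗ[ZMod 3] ZMod 3)
    (he : ∀ τ : XD K, e (fun l => τ (l * l)) = 0) : WW K →ₗ[ZMod 3] ZMod 3 :=
  (Submodule.liftQ (R K) e (by
    rintro t ⟨τ, hτ⟩
    rw [LinearMap.mem_ker, show t = fun l => τ (l * l) from funext hτ]
    exact he τ)).comp (WS K).subtype

lemma psi_mk (e : (K → ZMod 3) →ₗ[ZMod 3] ZMod 3)
    (he : ∀ τ : XD K, e (fun l => τ (l * l)) = 0)
    (t : K → ZMod 3) (ht : Submodule.Quotient.mk t ∈ WS K) :
    psi K e he ⟨Submodule.Quotient.mk t, ht⟩ = e t := rfl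

lemma psi_bb (e : (K → ZMod 3) →ₗ[ZMod 3] ZMod 3)
    (he : ∀ τ : XD K, e (fun l => τ (l * l)) = 0) (x y : XD K) :
    psi K e he (bb K x y) = e (fun l => x l * y l) := rfl

/-- the local subgroup -/
def L (μ : K) : Subgroup (T (bb K)) where
  carrier := {g | g.x μ = 0 ∧ g.y μ = 0}
  one_mem' := ⟨rfl, rfl⟩
  mul_mem' := by
    rintro a b ⟨h1, h2⟩ ⟨h3, h4⟩
    constructor
    · rw [mul_x]
      simp [h1, h3, h4]
    · rw [mul_y]
      simp [h2, h3, h4]
  inv_mem' := by
    rintro a ⟨h1, h2⟩
    constructor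
    · rw [inv_x]
      simp [h1, h2]
    · rw [inv_y]
      simp [h1, h2]

/-- index set -/
def J (μ : K) : Type := {p : K × ((K → ZMod 3) →ₗ[ZMod 3] ZMod 3) //
  (∀ τ : XD K, p.2 (fun l => τ (l * l)) = 0) ∧
  (∀ x y : XD K, x μ = 0 → y μ = 0 → p.2 (fun l => x l * y l) = x p.1 * y p.1)}

/-- local homomorphisms to `H0` -/
def fh (μ : K) (j : J K μ) : L K μ →* H0 where
  toFun g := ⟨g.1.x j.1.1, g.1.y j.1.1, psi K j.1.2 j.2.1 g.1.w, g.1.c, g.1.s, g.1.h⟩
  map_one' := by
    ext
    · rfl
    · rfl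
    · exact map_zero _
    · rfl
    · rfl
  map_mul' := by
    intro g g'
    obtain ⟨g, hg1, hg2⟩ := g
    obtain ⟨g', hg3, hg4⟩ := g'
    ext
    · show (g * g').x j.1.1 = _
      rw [mul_x, mul_x]
      simp
    · show (g * g').y j.1.1 = _
      rw [mul_y, mul_y]
      simp
    · show psi K j.1.2 j.2.1 (g * g').w = _
      rw [mul_w, mul_w, map_add, map_add, map_sub, psi_bb, psi_bb]
      have h1 := j.2.2 g.x (g.s • g'.x + g.c • g'.y) hg1 (by simp [hg3, hg4])
      have h2 := j.2.2 g.y (g.c • g'.x - g.s • g'.y) hg2 (by simp [hg3, hg4])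
      rw [h1, h2]
      simp
    · rfl
    · rfl

lemma three_K : (3 : K) = 0 := by
  have h : (algebraMap (ZMod 3) K) 3 = 0 := by
    rw [show (3 : ZMod 3) = 0 by decide, map_zero]
  rwa [map_ofNat] at h

/-- difference functional with `D s (τ ∘ sq) = τ s` -/
def Dd (μ s : K) : (K → ZMod 3) →ₗ[ZMod 3] ZMod 3 :=
  (LinearMap.proj (R := ZMod 3) (φ := fun _ : K => ZMod 3) (μ - s / μ + μ))
    - LinearMap.proj (R := ZMod 3) (φ := fun _ : K => ZMod 3) (μ - s / μ)

lemma Dd_apply (μ s : K) (h : K → ZMod 3) : Dd K μ s h = h (μ - s / μ + μ) - h (μ - s / μ) := rfl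

lemma Dd_sq (μ s : K) (hμ : μ ≠ 0) (τ : XD K) : Dd K μ s (fun l => τ (l * l)) = τ s := by
  rw [Dd_apply, ← map_sub]
  congr 1
  have h3 := three_K K
  field_simp
  linear_combination μ ^ 2 * (μ ^ 2 - s) * h3

lemma Dd_mul (μ s : K) (x y : XD K) (hx : x μ = 0) (hy : y μ = 0) :
    Dd K μ s (fun l => x l * y l) = 0 := by
  rw [Dd_apply, map_add x, map_add y, hx, hy, add_zero, add_zero, sub_self]

lemma sep (μ : K) (hμ : μ ≠ 0) (h : K → ZMod 3) (H : ∀ j : J K μ, j.1.2 h = 0) : h ∈ R K := by
  have hadd : ∀ s t, Dd K μ (s + t) h = Dd K μ s h + Dd K μ t h := by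
    intro s t
    have := H ⟨(0, Dd K μ s + Dd K μ t - Dd K μ (s + t)), by
      intro τ
      simp only [LinearMap.sub_apply, LinearMap.add_apply]
      rw [Dd_sq K μ _ hμ, Dd_sq K μ _ hμ, Dd_sq K μ _ hμ, map_add]
      ring, by
      intro x y hx hy
      simp only [LinearMap.sub_apply, LinearMap.add_apply]
      rw [Dd_mul K μ _ x y hx hy, Dd_mul K μ _ x y hx hy, Dd_mul K μ _ x y hx hy]
      simp⟩
    simp only [LinearMap.sub_apply, LinearMap.add_apply] at this
    linear_combination -this
  have hl : ∀ l, h l = - Dd K μ (-(l * l)) h := by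
    intro l
    have := H ⟨(l, LinearMap.proj l + Dd K μ (-(l * l))), by
      intro τ
      simp only [LinearMap.add_apply, LinearMap.proj_apply]
      rw [Dd_sq K μ _ hμ, map_neg]
      ring, by
      intro x y hx hy
      simp only [LinearMap.add_apply, LinearMap.proj_apply]
      rw [Dd_mul K μ _ x y hx hy, add_zero]⟩
    simp only [LinearMap.add_apply, LinearMap.proj_apply] at this
    linear_combination this
  let τ0 : K →+ ZMod 3 := AddMonoidHom.mk' (fun s => Dd K μ s h) hadd
  refine ⟨τ0.toZModLinearMap 3, ?_⟩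
  intro l
  rw [hl l]
  show - τ0 (-(l * l)) = τ0 (l * l)
  rw [map_neg, neg_neg]

/-- the embedding of the local subgroup -/
def emb (μ : K) : L K μ →* (J K μ → H0) := MonoidHom.pi (fun j => fh K μ j)

lemma emb_inj (μ : K) (hμ : μ ≠ 0) : Function.Injective (emb K μ) := by
  rw [injective_iff_map_eq_one]
  intro g hg
  have hj : ∀ j : J K μ, fh K μ j g = 1 := fun j => congrFun hg j
  obtain ⟨g, hg1, hg2⟩ := g
  have hl : ∀ l : K, ∃ j : J K μ, j.1.1 = l := by
    intro l
    refine ⟨⟨(l, LinearMap.proj l + Dd K μ (-(l * l))), ?_, ?_⟩, rfl⟩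
    · intro τ
      simp only [LinearMap.add_apply, LinearMap.proj_apply]
      rw [Dd_sq K μ _ hμ, map_neg]
      ring
    · intro x y hx hy
      simp only [LinearMap.add_apply, LinearMap.proj_apply]
      rw [Dd_mul K μ _ x y hx hy, add_zero]
  obtain ⟨j0, hj0⟩ := hl 0
  apply Subtype.ext
  ext l
  · obtain ⟨j, rfl⟩ := hl l
    exact congrArg T.x (hj j)
  · obtain ⟨j, rfl⟩ := hl l
    exact congrArg T.y (hj j)
  · have h2 : ∀ j : J K μ, psi K j.1.2 j.2.1 g.w = 0 := fun j => congrArg T.w (hj j)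
    show (g.w : W0 K) = 0
    obtain ⟨h, hh⟩ := Submodule.Quotient.mk_surjective (R K) (g.w : W0 K)
    rw [← hh]
    apply (Submodule.Quotient.mk_eq_zero _).2
    apply sep K μ hμ
    intro j
    have h3 := h2 j
    have h4 : g.w = ⟨Submodule.Quotient.mk h, by rw [hh]; exact g.w.2⟩ := Subtype.ext hh.symm
    rw [h4] at h3
    exact h3
  · have := congrArg T.c (hj j0)
    exact this
  · have := congrArg T.s (hj j0)
    exact this

lemma quad_zero [FiniteDimensional (ZMod 3) K] (τ : XD K) :
    ∑ i, ∑ j, τ (Module.finBasis (ZMod 3) K i * Module.finBasis (ZMod 3) K j) •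
      bb K ((Module.finBasis (ZMod 3) K).coord i) ((Module.finBasis (ZMod 3) K).coord j) = 0 := by
  have key : (fun l : K => ∑ i, ∑ j, τ (Module.finBasis (ZMod 3) K i * Module.finBasis (ZMod 3) K j) *
      ((Module.finBasis (ZMod 3) K).coord i l * (Module.finBasis (ZMod 3) K).coord j l)) ∈ R K := by
    refine ⟨τ, ?_⟩
    intro l
    have hl := (Module.finBasis (ZMod 3) K).sum_repr l
    conv_rhs => rw [← hl]
    rw [Finset.sum_mul_sum, map_sum]
    refine Finset.sum_congr rfl (fun i _ => ?_)
    rw [map_sum]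
    refine Finset.sum_congr rfl (fun j _ => ?_)
    rw [smul_mul_smul_comm, map_smul, smul_eq_mul, Module.Basis.coord_apply,
      Module.Basis.coord_apply]
    ring
  apply Subtype.ext
  have h1 : ∀ i j, ((τ (Module.finBasis (ZMod 3) K i * Module.finBasis (ZMod 3) K j) •
      bb K ((Module.finBasis (ZMod 3) K).coord i) ((Module.finBasis (ZMod 3) K).coord j) : WW K) : W0 K)
      = (R K).mkQ (fun l => τ (Module.finBasis (ZMod 3) K i * Module.finBasis (ZMod 3) K j) *
      ((Module.finBasis (ZMod 3) K).coord i l * (Module.finBasis (ZMod 3) K).coord j l)) := by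
    intro i j
    rfl
  rw [Submodule.coe_sum]
  simp only [Submodule.coe_sum, h1]
  simp only [← map_sum]
  apply (Submodule.Quotient.mk_eq_zero _).2
  convert key using 1
  funext l
  simp only [Finset.sum_apply]

theorem kill [FiniteDimensional (ZMod 3) K] (F : T (bb K) →* H0) (w : WW K) :
    F (kk (bb K) 0 0 w) = 1 := by
  obtain ⟨Ψ, l1, l2, s0, h1, h2, h3⟩ := G_lemma (bb K) (bb_sym K) (bb_span K) F
  have hex : ∀ l : XD K →+ ZMod 3, ∃ p : K, ∀ x : XD K, l x = x p := by
    intro l
    obtain ⟨p, hp⟩ := (Module.evalEquiv (ZMod 3) K).surjective (l.toZModLinearMap 3)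
    refine ⟨p, fun x => ?_⟩
    have := LinearMap.congr_fun hp x
    exact this.symm
  obtain ⟨p, hp⟩ := hex l1
  obtain ⟨q, hq⟩ := hex l2
  have hΨs : ∀ (c : ZMod 3) (w : WW K), Ψ (c • w) = c * Ψ w := by
    intro c w
    exact ((Ψ.toZModLinearMap 3).map_smul c w)
  -- τ(p²) + τ(q²) = 0 up to s0
  have h4 : ∀ τ : XD K, s0 * (τ (p * p) + τ (q * q)) = 0 := by
    intro τ
    have h5 := congrArg Ψ (quad_zero K τ)
    rw [map_sum, map_zero] at h5
    rw [← h5]
    have hsq : ∀ r : K, τ (r * r) = ∑ i, ∑ j,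
        τ (Module.finBasis (ZMod 3) K i * Module.finBasis (ZMod 3) K j) *
        ((Module.finBasis (ZMod 3) K).coord i r * (Module.finBasis (ZMod 3) K).coord j r) := by
      intro r
      have hl := (Module.finBasis (ZMod 3) K).sum_repr r
      conv_lhs => rw [← hl]
      rw [Finset.sum_mul_sum, map_sum]
      refine Finset.sum_congr rfl (fun i _ => ?_)
      rw [map_sum]
      refine Finset.sum_congr rfl (fun j _ => ?_)
      rw [smul_mul_smul_comm, map_smul, smul_eq_mul, Module.Basis.coord_apply,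
        Module.Basis.coord_apply]
      ring
    rw [hsq p, hsq q, ← Finset.sum_add_distrib, Finset.mul_sum]
    refine Finset.sum_congr rfl (fun i _ => ?_)
    rw [map_sum, ← Finset.sum_add_distrib, Finset.mul_sum]
    refine Finset.sum_congr rfl (fun j _ => ?_)
    rw [hΨs, h2, hp, hp, hq, hq]
    ring
  have h5 : ∀ x x', Ψ (bb K x x') = 0 := by
    intro x x'
    rw [h2]
    by_cases hs0 : s0 = 0
    · rw [hs0, zero_mul]
    have h6 : p * p + q * q = 0 := by
      apply (Module.forall_dual_apply_eq_zero_iff (ZMod 3) _).1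
      intro τ
      have := h4 τ
      rw [map_add]
      exact (mul_eq_zero.1 this).resolve_left hs0
    have h7 : p = 0 ∧ q = 0 := by
      by_cases hp0 : p = 0
      · refine ⟨hp0, ?_⟩
        rw [hp0, mul_zero, zero_add] at h6
        exact mul_self_eq_zero.1 h6
      · exfalso
        have h8 : ¬ ∀ x : XD K, x p = 0 := by
          intro h9
          exact hp0 ((Module.forall_dual_apply_eq_zero_iff (ZMod 3) _).1 h9)
        push Not at h8
        obtain ⟨x, hx⟩ := h8
        have h9 : (x p) • q = (x q) • p := by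
          rw [← sub_eq_zero]
          apply (Module.forall_dual_apply_eq_zero_iff (ZMod 3) _).1
          intro x'
          have h10 := h3 x x'
          rw [hp, hq, hq, hp] at h10
          rw [map_sub, map_smul, map_smul, smul_eq_mul, smul_eq_mul, h10, sub_self]
        have h11 : (x p * x p + x q * x q) • (p * p) = 0 := by
          have e1 : (x p * x p + x q * x q) • (p * p)
              = (x p * x p) • (p * p) + ((x q) • p) * ((x q) • p) := by
            rw [add_smul, smul_mul_smul_comm]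
          rw [e1, ← h9, smul_mul_smul_comm, ← smul_add, h6, smul_zero]
        rcases smul_eq_zero.1 h11 with h12 | h12
        · have h13 : ∀ a b : ZMod 3, a * a + b * b = 0 → a = 0 := by decide
          exact hx (h13 _ _ h12)
        · exact hp0 (mul_self_eq_zero.1 h12)
    rw [hp, hp, hq, hq, h7.1, h7.2]
    simp
  have h6 : Ψ w = 0 := by
    induction bb_span K w using Submodule.span_induction with
    | mem w hw =>
      obtain ⟨x, y, rfl⟩ := hw
      exact h5 x y
    | zero => exact map_zero _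
    | add a b _ _ h1 h2 => rw [map_add, h1, h2, add_zero]
    | smul c a _ h1 => rw [hΨs, h1, mul_zero]
  rw [h1, h6]
  rfl

lemma exists_ne [FiniteDimensional (ZMod 3) K] (hK : 1 < Module.finrank (ZMod 3) K) :
    ∃ w : WW K, w ≠ 0 := by
  by_contra hcon
  push Not at hcon
  have h1 : ¬ ∀ x : XD K, x 1 = 0 := by
    intro h9
    exact one_ne_zero ((Module.forall_dual_apply_eq_zero_iff (ZMod 3) (1 : K)).1 h9)
  push Not at h1
  obtain ⟨x, hx⟩ := h1
  have h2 := congrArg Subtype.val (hcon (bb K x x))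
  rw [bb_apply] at h2
  obtain ⟨τ, hτ⟩ := (Submodule.Quotient.mk_eq_zero _).1 h2
  have h3 : LinearMap.ker x ≠ ⊥ := by
    apply LinearMap.ker_ne_bot_of_finrank_lt
    rwa [Module.finrank_self]
  obtain ⟨m, hm, hm0⟩ := (Submodule.ne_bot_iff _).1 h3
  rw [LinearMap.mem_ker] at hm
  have h3 := three_K K
  have h4 : ∀ l : K, τ l = 0 := by
    intro l
    -- choose r with 2 r m + m² = l
    have h5 := hτ (m - l / m + m)
    have h6 := hτ (m - l / m)
    have h7 : τ l = τ ((m - l / m + m) * (m - l / m + m)) - τ ((m - l / m) * (m - l / m)) := by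
      rw [← map_sub]
      congr 1
      field_simp
      linear_combination - m ^ 2 * (m ^ 2 - l) * h3
    rw [h7, ← h5, ← h6]
    show x (m - l / m + m) * x (m - l / m + m) - x (m - l / m) * x (m - l / m) = 0
    rw [map_add, hm, add_zero, sub_self]
  have h5 := hτ 1
  rw [mul_one, h4] at h5
  exact hx (mul_self_eq_zero.1 h5)

end N

/-- The negation of the preceding statement: For every finite group H there are finitely many group quasi-identities whose models are exactly the groups in which every normal closure of one element embeds in a direct power of H. -/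
theorem result :
    ¬ (∀ (H : Type) [Group H] [Finite H],
      ∃ (k : ℕ) (n : Fin k → ℕ) (prem : (i : Fin k) → List (FreeGroup (Fin (n i))))
        (concl : (i : Fin k) → FreeGroup (Fin (n i))),
        ∀ (G : Type) [Group G],
          (∀ a : G, ∃ (I : Type) (φ : (Subgroup.normalClosure ({a} : Set G)) →* (I → H)),
              Function.Injective φ) ↔
          (∀ i : Fin k, ∀ f : Fin (n i) → G,
              (∀ p ∈ prem i, FreeGroup.lift f p = 1) → FreeGroup.lift f (concl i) = 1)) := by
  intro hall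
  obtain ⟨k, n, prem, concl, hG⟩ := hall H0
  obtain ⟨M, hM⟩ : ∃ M, ∀ i, n i ≤ M := ⟨∑ i, n i, fun i => Finset.single_le_sum
    (f := n) (fun _ _ => Nat.zero_le _) (Finset.mem_univ i)⟩
  let K : Type := GaloisField 3 (2 * M + 2)
  have hfin : Module.finrank (ZMod 3) K = 2 * M + 2 := GaloisField.finrank 3 (by omega)
  haveI : FiniteDimensional (ZMod 3) K := FiniteDimensional.of_finrank_pos (by rw [hfin]; omega)
  -- the quasi-identities hold
  have hqi : ∀ i : Fin k, ∀ f : Fin (n i) → T (bb K),
      (∀ p ∈ prem i, FreeGroup.lift f p = 1) → FreeGroup.lift f (concl i) = 1 := by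
    intro i f hf
    let Λ : K →ₗ[ZMod 3] (Fin (n i) → ZMod 3) × (Fin (n i) → ZMod 3) :=
      LinearMap.prod (LinearMap.pi (fun j => (f j).x)) (LinearMap.pi (fun j => (f j).y))
    have hker : LinearMap.ker Λ ≠ ⊥ := by
      apply LinearMap.ker_ne_bot_of_finrank_lt
      rw [Module.finrank_prod, Module.finrank_fin_fun, hfin]
      have := hM i
      omega
    obtain ⟨μ, hμ, hμ0⟩ := (Submodule.ne_bot_iff _).1 hker
    rw [LinearMap.mem_ker] at hμ
    have hx : ∀ j, (f j).x μ = 0 := fun j => congrFun (congrArg Prod.fst hμ) j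
    have hy : ∀ j, (f j).y μ = 0 := fun j => congrFun (congrArg Prod.snd hμ) j
    let f' : Fin (n i) → L K μ := fun j => ⟨f j, hx j, hy j⟩
    have hcomp : (L K μ).subtype.comp (FreeGroup.lift f') = FreeGroup.lift f := by
      apply FreeGroup.ext_hom
      intro j
      simp [f']
    have hcomp' : ∀ p, ((FreeGroup.lift f' p : L K μ) : T (bb K)) = FreeGroup.lift f p := by
      intro p
      rw [← hcomp]
      rfl
    have h1 := (hG (L K μ)).1 (fun a => ⟨J K μ, (emb K μ).comp (Subgroup.subtype _),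
      (emb_inj K μ hμ0).comp Subtype.val_injective⟩) i f' (by
        intro p hp
        apply Subtype.ext
        rw [hcomp', hf p hp]
        rfl)
    rw [← hcomp', h1]
    rfl
  obtain ⟨I, φ, hφ⟩ := (hG (T (bb K))).2 hqi (aa (bb K))
  have htop : ∀ g : T (bb K), g ∈ Subgroup.normalClosure ({aa (bb K)} : Set (T (bb K))) :=
    span_closure_mem (bb K) _ (bb_sym K) (bb_span K) inferInstance
      (Subgroup.subset_normalClosure rfl)
  obtain ⟨w, hw⟩ := exists_ne K (by rw [hfin]; omega)
  apply hw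
  have h1 : (⟨kk (bb K) 0 0 w, htop _⟩ :
      Subgroup.normalClosure ({aa (bb K)} : Set (T (bb K)))) = 1 := by
    apply hφ
    rw [map_one]
    funext i
    let F : T (bb K) →* H0 :=
      { toFun := fun g => φ ⟨g, htop g⟩ i
        map_one' := by
          have : (⟨1, htop 1⟩ : Subgroup.normalClosure ({aa (bb K)} : Set (T (bb K)))) = 1 := rfl
          rw [this, map_one]
          rfl
        map_mul' := by
          intro g g'
          have : (⟨g * g', htop _⟩ : Subgroup.normalClosure ({aa (bb K)} : Set (T (bb K))))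
              = ⟨g, htop g⟩ * ⟨g', htop g'⟩ := rfl
          rw [this, map_mul]
          rfl }
    exact kill K F w
  have h2 := congrArg Subtype.val h1
  exact congrArg T.w h2

end Pool.Agent.S02382
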