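import Pool.Statements.S02384
import Pool.Agent.H4.Chain

set_option autoImplicit false
open Pool Pool.MP_ead43b_al

namespace Pool.Agent.S02384

/-- signed affine permutations of `ℤ^I` -/
@[ext]
structure W (I : Type) where
  e : I → ℤˣ
  c : I → ℤ
  s : Equiv.Perm I

section WI
variable {I : Type}

instance : Mul (W I) := ⟨fun g h =>
  ⟨fun i => g.e i * h.e (g.s.symm i), fun i => (g.e i : ℤ) * h.c (g.s.symm i) + g.c i, g.s * h.s⟩⟩
instance : One (W I) := ⟨⟨fun _ => 1, fun _ => 0, 1⟩⟩
instance : Inv (W I) := ⟨fun g =>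
  ⟨fun i => (g.e (g.s i))⁻¹, fun i => -(((g.e (g.s i))⁻¹ : ℤˣ) : ℤ) * g.c (g.s i), g.s⁻¹⟩⟩

lemma mul_e (g h : W I) (i : I) : (g * h).e i = g.e i * h.e (g.s.symm i) := rfl
lemma mul_c (g h : W I) (i : I) : (g * h).c i = (g.e i : ℤ) * h.c (g.s.symm i) + g.c i := rfl
lemma mul_s (g h : W I) : (g * h).s = g.s * h.s := rfl
lemma one_e (i : I) : (1 : W I).e i = 1 := rfl
lemma one_c (i : I) : (1 : W I).c i = 0 := rfl
lemma one_s : (1 : W I).s = 1 := rfl
lemma inv_e (g : W I) (i : I) : (g⁻¹).e i = (g.e (g.s i))⁻¹ := rfl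
lemma inv_c (g : W I) (i : I) : (g⁻¹).c i = -(((g.e (g.s i))⁻¹ : ℤˣ) : ℤ) * g.c (g.s i) := rfl
lemma inv_s (g : W I) : (g⁻¹).s = g.s⁻¹ := rfl

instance : Group (W I) := Group.ofLeftAxioms
  (by
    intro a b d
    apply W.ext
    · funext i
      simp only [mul_e, mul_s]
      rw [mul_assoc]
      rfl
    · funext i
      simp only [mul_c, mul_e, mul_s]
      have : (a.s * b.s).symm i = b.s.symm (a.s.symm i) := rfl
      rw [this, Units.val_mul]
      ring
    · simp only [mul_s, mul_assoc])
  (by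
    intro a
    apply W.ext
    · funext i
      rw [mul_e, one_e, one_mul]
      rfl
    · funext i
      rw [mul_c, one_e, one_c, Units.val_one, one_mul, add_zero]
      rfl
    · rw [mul_s, one_s, one_mul])
  (by
    intro a
    have hs : ∀ i, (a⁻¹).s.symm i = a.s i := fun i => rfl
    apply W.ext
    · funext i
      rw [mul_e, inv_e, hs, one_e, inv_mul_cancel]
    · funext i
      rw [mul_c, inv_e, inv_c, hs, one_c]
      ring
    · rw [mul_s, inv_s, one_s, inv_mul_cancel])

/-- the action on `ℤ^I` -/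
def act (g : W I) (x : I → ℤ) : I → ℤ := fun i => (g.e i : ℤ) * x (g.s.symm i) + 2 * g.c i

lemma act_apply (g : W I) (x : I → ℤ) (i : I) :
    act g x i = (g.e i : ℤ) * x (g.s.symm i) + 2 * g.c i := rfl

lemma act_mul (g h : W I) (x : I → ℤ) : act (g * h) x = act g (act h x) := by
  funext i
  simp only [act_apply, mul_e, mul_c, mul_s]
  have : (g.s * h.s).symm i = h.s.symm (g.s.symm i) := rfl
  rw [this, Units.val_mul]
  ring

lemma act_one (x : I → ℤ) : act 1 x = x := by
  funext i
  rw [act_apply, one_e, one_c, Units.val_one, one_mul, mul_zero, add_zero]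
  rfl

/-- stabiliser of a point -/
def St (x : I → ℤ) : Subgroup (W I) where
  carrier := {g | act g x = x}
  one_mem' := act_one x
  mul_mem' := by
    intro a b ha hb
    show act (a * b) x = x
    rw [act_mul, show act b x = x from hb]
    exact ha
  inv_mem' := by
    intro a ha
    show act a⁻¹ x = x
    have h : act a⁻¹ (act a x) = x := by rw [← act_mul, inv_mul_cancel, act_one]
    rwa [show act a x = x from ha] at h

lemma mem_St (x : I → ℤ) (g : W I) : g ∈ St x ↔ act g x = x := Iff.rfl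

instance (x : I → ℤ) [Finite I] : Finite (St x) := by
  apply Finite.of_injective (fun g : St x => (g.1.e, g.1.s))
  rintro ⟨g, hg⟩ ⟨h, hh⟩ heq
  simp only [Prod.mk.injEq] at heq
  apply Subtype.ext
  apply W.ext
  · exact heq.1
  · funext i
    have h1 := congrFun hg i
    have h2 := congrFun hh i
    rw [act_apply] at h1 h2
    rw [heq.1, heq.2] at h1
    linarith
  · exact heq.2

/-- the projection to permutations -/
def sH : W I →* Equiv.Perm I where
  toFun g := g.s
  map_one' := rfl
  map_mul' _ _ := rfl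

lemma ker_sH_solvable : Group.IsSolvable (sH (I := I)).ker := by
  -- the kernel maps to signs with abelian kernel
  let p : (sH (I := I)).ker →* (I → ℤˣ) :=
    { toFun := fun g => g.1.e
      map_one' := rfl
      map_mul' := by
        rintro ⟨g, hg⟩ ⟨h, hh⟩
        funext i
        show (g * h).e i = g.e i * h.e i
        rw [mul_e]
        have : g.s = 1 := hg
        rw [this]
        rfl }
  let q : Multiplicative (I → ℤ) →* (sH (I := I)).ker :=
    { toFun := fun c => ⟨⟨fun _ => 1, c.toAdd, 1⟩, rfl⟩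
      map_one' := rfl
      map_mul' := by
        intro c d
        apply Subtype.ext
        apply W.ext
        · funext i
          show (1 : ℤˣ) = 1 * 1
          rw [mul_one]
        · funext i
          show c.toAdd i + d.toAdd i = ((1 : ℤˣ) : ℤ) * d.toAdd i + c.toAdd i
          rw [Units.val_one]
          ring
        · rfl }
  apply Group.isSolvable_of_ker_le_range q p
  rintro ⟨g, hg⟩ hp
  refine ⟨Multiplicative.ofAdd g.c, ?_⟩
  apply Subtype.ext
  apply W.ext
  · funext i
    exact (congrFun (show g.e = 1 from hp) i).symm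
  · rfl
  · exact (show g.s = 1 from hg).symm

/-- the group attached to a group of permutations -/
def GG (S : Subgroup (Equiv.Perm I)) : Subgroup (W I) := S.comap sH

lemma GG_solvable (S : Subgroup (Equiv.Perm I)) [Group.IsSolvable S] : Group.IsSolvable (GG S) := by
  haveI := ker_sH_solvable (I := I)
  let p : GG S →* S :=
    { toFun := fun g => ⟨g.1.s, g.2⟩
      map_one' := rfl
      map_mul' := fun _ _ => rfl }
  let q : (sH (I := I)).ker →* GG S :=
    { toFun := fun g => ⟨g.1, by
        show g.1.s ∈ S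
        rw [show g.1.s = 1 from g.2]
        exact S.one_mem⟩
      map_one' := rfl
      map_mul' := fun _ _ => rfl }
  apply Group.isSolvable_of_ker_le_range q p
  rintro ⟨g, hg⟩ hp
  exact ⟨⟨g, congrArg Subtype.val hp⟩, rfl⟩

section Om
variable (m : ℕ)

/-- action modulo `m` -/
def actZ (g : W I) (x : I → ZMod m) : I → ZMod m :=
  fun i => ((g.e i : ℤ) : ZMod m) * x (g.s.symm i) + 2 * (g.c i : ZMod m)

lemma actZ_mul (g h : W I) (x : I → ZMod m) : actZ m (g * h) x = actZ m g (actZ m h x) := by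
  funext i
  simp only [actZ, mul_e, mul_c, mul_s]
  have : (g.s * h.s).symm i = h.s.symm (g.s.symm i) := rfl
  rw [this, Units.val_mul]
  push_cast
  ring

lemma actZ_one (x : I → ZMod m) : actZ m 1 x = x := by
  funext i
  simp only [actZ, one_e, one_c, Units.val_one]
  push_cast
  rw [one_mul, mul_zero, add_zero]
  rfl

/-- permutation of `(ZMod m)^I` -/
def pO : W I →* Equiv.Perm (I → ZMod m) where
  toFun g :=
    { toFun := actZ m g
      invFun := actZ m g⁻¹
      left_inv := by
        intro x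
        rw [← actZ_mul, inv_mul_cancel, actZ_one]
      right_inv := by
        intro x
        rw [← actZ_mul, mul_inv_cancel, actZ_one] }
  map_one' := by
    ext x
    show actZ m 1 x _ = _
    rw [actZ_one]
    rfl
  map_mul' g h := by
    ext x
    show actZ m (g * h) x _ = _
    rw [actZ_mul]
    rfl

/-- the embedding in the next group -/
def io : W I →* W (I × (I → ZMod m)) where
  toFun g := ⟨fun p => g.e p.1, fun p => g.c p.1, Equiv.prodCongr g.s (pO m g)⟩
  map_one' := by
    apply W.ext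
    · rfl
    · rfl
    · ext p
      · rfl
      · show (pO m 1) p.2 _ = _
        rw [map_one]
        rfl
  map_mul' g h := by
    apply W.ext
    · rfl
    · rfl
    · ext p
      · rfl
      · show (pO m (g * h)) p.2 _ = _
        rw [map_mul]
        rfl

lemma io_inj (w0 : I → ZMod m) : Function.Injective (io (I := I) m) := by
  intro g h heq
  apply W.ext
  · funext i
    exact congrFun (congrArg W.e heq) (i, w0)
  · funext i
    exact congrFun (congrArg W.c heq) (i, w0)
  · ext i
    exact congrArg Prod.fst (Equiv.congr_fun (congrArg W.s heq) (i, w0))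

/-- nearest lift -/
def nn (a : ℤ) (r : ZMod m) : ℤ := a + 2 * ZMod.valMinAbs ((r - (a : ZMod m)) * (((m + 1) / 2 : ℕ) : ZMod m))

variable {m}

lemma nn_par (a : ℤ) (r : ZMod m) : 2 ∣ nn m a r - a := by
  unfold nn
  rw [add_sub_cancel_left]
  exact dvd_mul_right _ _

lemma nn_mod (hm : Odd m) (a : ℤ) (r : ZMod m) : (nn m a r : ZMod m) = r := by
  unfold nn
  push_cast
  have h1 : (2 : ZMod m) * (((m + 1) / 2 : ℕ) : ZMod m) = 1 := by
    have : 2 * ((m + 1) / 2) = m + 1 := by
      obtain ⟨k, hk⟩ := hm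
      omega
    have h2 : ((2 * ((m + 1) / 2) : ℕ) : ZMod m) = 1 := by
      rw [this]
      push_cast
      rw [ZMod.natCast_self]
      ring
    push_cast at h2 ⊢
    exact h2
  linear_combination (r - (a : ZMod m)) * h1

lemma nn_abs (hm : Odd m) (a : ℤ) (r : ZMod m) : |nn m a r - a| < m := by
  haveI : NeZero m := ⟨by rintro rfl; exact absurd hm (by decide)⟩
  unfold nn
  have h := ZMod.valMinAbs_mem_Ioc ((r - (a : ZMod m)) * (((m + 1) / 2 : ℕ) : ZMod m))
  obtain ⟨h1, h2⟩ := h
  obtain ⟨k, hk⟩ := hm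
  rw [abs_lt]
  constructor <;> omega

lemma nn_unique (hm : Odd m) (a : ℤ) (r : ZMod m) (x : ℤ) (h1 : 2 ∣ x - a) (h2 : (x : ZMod m) = r)
    (h3 : |x - a| < m) : x = nn m a r := by
  have h4 : (m : ℤ) ∣ x - nn m a r := by
    rw [← ZMod.intCast_zmod_eq_zero_iff_dvd]
    push_cast
    rw [nn_mod hm, h2, sub_self]
  have h5 := nn_par a r
  have h6 := nn_abs hm a r
  have h7 : (2 : ℤ) ∣ x - nn m a r := by omega
  have h8 : (2 * m : ℤ) ∣ x - nn m a r := by
    apply IsCoprime.mul_dvd _ h7 h4
    have : Nat.Coprime 2 m := Nat.coprime_two_left.2 hm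
    exact_mod_cast Nat.isCoprime_iff_coprime.2 this
  have h9 : x - nn m a r = 0 := by
    apply Int.eq_zero_of_abs_lt_dvd h8
    have : x - nn m a r = (x - a) - (nn m a r - a) := by ring
    rw [this]
    calc |(x - a) - (nn m a r - a)| ≤ |x - a| + |nn m a r - a| := abs_sub _ _
      _ < 2 * m := by linarith
  linarith

/-- lift of a point -/
def lf (x : I → ℤ) : I × (I → ZMod m) → ℤ := fun p => nn m (x p.1) (p.2 p.1)

lemma units_abs (u : ℤˣ) (x : ℤ) : |(u : ℤ) * x| = |x| := by
  rcases Int.units_eq_one_or u with rfl | rfl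
  · simp
  · simp

lemma act_lf (hm : Odd m) (g : W I) (x : I → ℤ) :
    act (io m g) (lf (m := m) x) = lf (act g x) := by
  funext p
  obtain ⟨i, w⟩ := p
  show (g.e i : ℤ) * nn m (x (g.s.symm i)) ((pO m g).symm w (g.s.symm i)) + 2 * g.c i
    = nn m ((g.e i : ℤ) * x (g.s.symm i) + 2 * g.c i) (w i)
  obtain ⟨v, hv⟩ : ∃ v, v = (pO m g).symm w := ⟨_, rfl⟩
  have hw : pO m g v = w := by rw [hv, Equiv.apply_symm_apply]
  have hwi : w i = ((g.e i : ℤ) : ZMod m) * v (g.s.symm i) + 2 * (g.c i : ZMod m) := by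
    rw [← hw]; rfl
  rw [← hv]
  apply nn_unique hm
  · have h1 := nn_par (m := m) (x (g.s.symm i)) (v (g.s.symm i))
    have h2 : (g.e i : ℤ) * nn m (x (g.s.symm i)) (v (g.s.symm i)) + 2 * g.c i
      - ((g.e i : ℤ) * x (g.s.symm i) + 2 * g.c i)
      = (g.e i : ℤ) * (nn m (x (g.s.symm i)) (v (g.s.symm i)) - x (g.s.symm i)) := by ring
    rw [h2]
    exact Dvd.dvd.mul_left h1 _
  · push_cast
    rw [nn_mod hm, hwi]
  · have h2 : (g.e i : ℤ) * nn m (x (g.s.symm i)) (v (g.s.symm i)) + 2 * g.c i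
      - ((g.e i : ℤ) * x (g.s.symm i) + 2 * g.c i)
      = (g.e i : ℤ) * (nn m (x (g.s.symm i)) (v (g.s.symm i)) - x (g.s.symm i)) := by ring
    rw [h2, units_abs]
    exact nn_abs hm _ _

/-- if `a`, `b` are of different parity and at distance less than `m`, then the nearest lifts are
at distance exactly `m` -/
lemma nn_dist (hm : Odd m) (a b : ℤ) (r : ZMod m) (hpar : Odd (a + b)) (hab : |b - a| < m) :
    nn m b r = nn m a r + m ∨ nn m b r = nn m a r - m := by
  have h1 := nn_par a r
  have h2 := nn_par b r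
  have h3 := nn_abs hm a r
  have h4 := nn_abs hm b r
  have h5 : (m : ℤ) ∣ nn m b r - nn m a r := by
    rw [← ZMod.intCast_zmod_eq_zero_iff_dvd]
    push_cast
    rw [nn_mod hm, nn_mod hm, sub_self]
  obtain ⟨k, hk⟩ := h5
  have h6 : |nn m b r - nn m a r| < 3 * m := by
    have : nn m b r - nn m a r = (nn m b r - b) + (b - a) - (nn m a r - a) := by ring
    rw [this]
    calc |(nn m b r - b) + (b - a) - (nn m a r - a)|
        ≤ |(nn m b r - b) + (b - a)| + |nn m a r - a| := abs_sub _ _
      _ ≤ |nn m b r - b| + |b - a| + |nn m a r - a| := by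
          have := abs_add_le (nn m b r - b) (b - a)
          linarith
      _ < 3 * m := by linarith
  have hmpos : (0 : ℤ) < m := by
    have := abs_nonneg (b - a)
    linarith
  rw [hk, abs_mul, abs_of_pos hmpos] at h6
  have h7 : |k| < 3 := by
    by_contra hcon
    push Not at hcon
    have : (m : ℤ) * 3 ≤ m * |k| := mul_le_mul_of_nonneg_left hcon hmpos.le
    linarith
  have h8 : Odd (nn m b r - nn m a r) := by
    obtain ⟨u, hu⟩ := h1
    obtain ⟨v, hv⟩ := h2
    obtain ⟨t, ht⟩ := hpar
    exact ⟨v - u + t - a, by linarith⟩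
  rw [hk] at h8
  have h9 : Odd k := (Int.odd_mul.1 h8).2
  rw [abs_lt] at h7
  obtain ⟨t, ht⟩ := h9
  have h10 : k = 1 ∨ k = -1 := by omega
  rcases h10 with rfl | rfl
  · left; linarith
  · right; linarith

lemma act_odd (g : W I) (be : I → ℤ) (h : ∀ i, Odd (be i)) (i : I) : Odd (act g be i) := by
  rw [act_apply]
  obtain ⟨t, ht⟩ := h (g.s.symm i)
  rcases Int.units_eq_one_or (g.e i) with h1 | h1
  · rw [h1, ht]
    exact ⟨t + g.c i, by simp; ring⟩
  · rw [h1, ht]
    exact ⟨-t - 1 + g.c i, by simp; ring⟩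

/-- the key factorisation -/
lemma key (hm : Odd m) (g : W I) (al be : I → ℤ) (hal : ∀ i, Even (al i)) (hbe : ∀ i, Odd (be i))
    (hb : ∀ i, |be i - al i| < m) (hg : ∀ i, |act g be i - al i| < m)
    (S' : Subgroup (Equiv.Perm (I × (I → ZMod m)))) :
    ∃ u : W (I × (I → ZMod m)), u ∈ GG S' ∧ u ∈ St (lf (m := m) al) ∧
      act u (lf (m := m) be) = lf (act g be) := by
  classical
  refine ⟨⟨fun p => if lf (m := m) be p = lf (act g be) p then 1 else -1,
    fun p => if lf (m := m) be p = lf (act g be) p then 0 else lf (m := m) al p, 1⟩, ?_, ?_, ?_⟩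
  · show (1 : Equiv.Perm (I × (I → ZMod m))) ∈ S'
    exact S'.one_mem
  · rw [mem_St]
    funext p
    rw [act_apply]
    show ((if lf (m := m) be p = lf (act g be) p then 1 else -1 : ℤˣ) : ℤ) * lf (m := m) al p
      + 2 * (if lf (m := m) be p = lf (act g be) p then 0 else lf (m := m) al p) = lf (m := m) al p
    split_ifs
    · simp
    · simp only [Units.val_neg, Units.val_one]
      ring
  · funext p
    rw [act_apply]
    show ((if lf (m := m) be p = lf (act g be) p then 1 else -1 : ℤˣ) : ℤ) * lf (m := m) be p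
      + 2 * (if lf (m := m) be p = lf (act g be) p then 0 else lf (m := m) al p)
      = lf (m := m) (act g be) p
    split_ifs with h
    · rw [← h]; simp
    · have h1 := nn_dist hm (al p.1) (be p.1) (p.2 p.1) ((hal _).add_odd (hbe _)) (hb _)
      have h2 := nn_dist hm (al p.1) (act g be p.1) (p.2 p.1)
        ((hal _).add_odd (act_odd g be hbe _)) (hg _)
      have h3 : nn m (be p.1) (p.2 p.1) ≠ nn m (act g be p.1) (p.2 p.1) := h
      show ((-1 : ℤˣ) : ℤ) * nn m (be p.1) (p.2 p.1) + 2 * nn m (al p.1) (p.2 p.1)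
        = nn m (act g be p.1) (p.2 p.1)
      simp only [Units.val_neg, Units.val_one]
      rcases h1 with h1 | h1 <;> rcases h2 with h2 | h2
      · exact absurd (h1.trans h2.symm) h3
      · linarith
      · linarith
      · exact absurd (h1.trans h2.symm) h3

end Om
end WI

/-- a stage of the construction -/
structure Stage where
  I : Type
  fin : Finite I
  S : Subgroup (Equiv.Perm I)
  sol : Group.IsSolvable S
  al : I → ℤ
  be : I → ℤ
  hal : ∀ i, Even (al i)
  hbe : ∀ i, Odd (be i)

/-- the modulus -/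
def md (k : ℕ) : ℕ := 5 ^ (k + 1)

lemma md_odd (k : ℕ) : Odd (md k) := Odd.pow (by decide)

lemma nn_even {m : ℕ} (a : ℤ) (r : ZMod m) (h : Even a) : Even (nn m a r) := by
  obtain ⟨t, ht⟩ := nn_par a r
  obtain ⟨u, hu⟩ := h
  exact ⟨t + u, by linarith⟩

lemma nn_odd {m : ℕ} (a : ℤ) (r : ZMod m) (h : Odd a) : Odd (nn m a r) := by
  obtain ⟨t, ht⟩ := nn_par a r
  obtain ⟨u, hu⟩ := h
  exact ⟨t + u, by linarith⟩

/-- the next stage -/
def next (m : ℕ) (hm : Odd m) (X : Stage) : Stage where
  I := X.I × (X.I → ZMod m)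
  fin := by
    haveI := X.fin
    haveI : NeZero m := ⟨by rintro rfl; exact absurd hm (by decide)⟩
    infer_instance
  S := (GG X.S).map (sH.comp (io m))
  sol := by
    haveI := X.sol
    haveI := GG_solvable X.S
    exact Group.isSolvable_of_surjective
      ((sH.comp (io m)).subgroupMap_surjective (GG X.S))
  al := lf X.al
  be := lf X.be
  hal := fun p => nn_even _ _ (X.hal _)
  hbe := fun p => nn_odd _ _ (X.hbe _)

/-- the tower -/
def stg : ℕ → Stage
  | 0 =>
    { I := Unit
      fin := inferInstance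
      S := ⊤
      sol := inferInstance
      al := fun _ => 0
      be := fun _ => 1
      hal := fun _ => by decide
      hbe := fun _ => by decide }
  | (k + 1) => next (md k) (md_odd k) (stg k)

/-- the group at stage `k` -/
abbrev Gk (k : ℕ) : Subgroup (W (stg k).I) := GG (stg k).S

/-- the embedding of stage `k` in stage `k+1` -/
def im (k : ℕ) : Gk k →* Gk (k + 1) where
  toFun g := ⟨io (md k) g.1, ⟨g.1, g.2, rfl⟩⟩
  map_one' := by
    apply Subtype.ext
    exact map_one (io (md k))
  map_mul' g h := by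
    apply Subtype.ext
    exact map_mul (io (md k)) g.1 h.1

lemma im_inj (k : ℕ) : Function.Injective (im k) := by
  intro g h heq
  apply Subtype.ext
  exact io_inj (md k) (fun _ => 0) (congrArg Subtype.val heq)

/-- first factor at stage `k` -/
def Ak (k : ℕ) : Subgroup (Gk k) := (St (stg k).al).comap (Gk k).subtype
/-- second factor at stage `k` -/
def Bk (k : ℕ) : Subgroup (Gk k) := (St (stg k).be).comap (Gk k).subtype

lemma im_A (k : ℕ) (g : Gk k) (hg : g ∈ Ak k) : im k g ∈ Ak (k + 1) := by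
  show act (io (md k) g.1) (lf (stg k).al) = lf (stg k).al
  rw [act_lf (md_odd k)]
  exact congrArg _ hg
lemma im_B (k : ℕ) (g : Gk k) (hg : g ∈ Bk k) : im k g ∈ Bk (k + 1) := by
  show act (io (md k) g.1) (lf (stg k).be) = lf (stg k).be
  rw [act_lf (md_odd k)]
  exact congrArg _ hg

instance (k : ℕ) : Finite (Ak k) := by
  haveI := (stg k).fin
  apply Finite.of_injective (fun g : Ak k => (⟨g.1.1, g.2⟩ : St (stg k).al))
  intro g h heq
  apply Subtype.ext
  apply Subtype.ext
  exact congrArg (fun x : St (stg k).al => x.1) heq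
instance (k : ℕ) : Finite (Bk k) := by
  haveI := (stg k).fin
  apply Finite.of_injective (fun g : Bk k => (⟨g.1.1, g.2⟩ : St (stg k).be))
  intro g h heq
  apply Subtype.ext
  apply Subtype.ext
  exact congrArg (fun x : St (stg k).be => x.1) heq

/-- distance bound -/
def Bd (k : ℕ) (g : Gk k) (C : ℤ) : Prop :=
  ∀ i, 2 * |act g.1 (stg k).be i - (stg k).al i| ≤ C + md k

lemma Bd_succ (k : ℕ) (g : Gk k) (C : ℤ) (h : Bd k g C) : Bd (k + 1) (im k g) C := by
  intro p
  show 2 * |act (io (md k) g.1) (lf (stg k).be) p - lf (stg k).al p| ≤ C + md (k + 1)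
  rw [act_lf (md_odd k)]
  show 2 * |nn (md k) (act g.1 (stg k).be p.1) (p.2 p.1) - nn (md k) ((stg k).al p.1) (p.2 p.1)| ≤ _
  have h1 := h p.1
  have h2 := nn_abs (md_odd k) (act g.1 (stg k).be p.1) (p.2 p.1)
  have h3 := nn_abs (md_odd k) ((stg k).al p.1) (p.2 p.1)
  have h4 : (md (k + 1) : ℤ) = 5 * md k := by
    unfold md
    push_cast
    ring
  rw [h4]
  obtain ⟨x, hx⟩ : ∃ x, x = nn (md k) (act g.1 (stg k).be p.1) (p.2 p.1) := ⟨_, rfl⟩
  obtain ⟨y, hy⟩ : ∃ y, y = nn (md k) ((stg k).al p.1) (p.2 p.1) := ⟨_, rfl⟩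
  rw [← hx] at h2 ⊢
  rw [← hy] at h3 ⊢
  have h5 : |x - y| ≤ |x - act g.1 (stg k).be p.1| + |act g.1 (stg k).be p.1 - (stg k).al p.1|
      + |y - (stg k).al p.1| := by
    have : x - y = (x - act g.1 (stg k).be p.1) + (act g.1 (stg k).be p.1 - (stg k).al p.1)
      - (y - (stg k).al p.1) := by ring
    rw [this]
    calc _ ≤ |(x - act g.1 (stg k).be p.1) + (act g.1 (stg k).be p.1 - (stg k).al p.1)|
          + |y - (stg k).al p.1| := abs_sub _ _
      _ ≤ _ := by
        have := abs_add_le (x - act g.1 (stg k).be p.1) (act g.1 (stg k).be p.1 - (stg k).al p.1)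
        linarith
  linarith

lemma Bd_exists (k : ℕ) (g : Gk k) : ∃ C : ℤ, 0 ≤ C ∧ Bd k g C ∧ Bd k 1 C := by
  haveI := (stg k).fin
  haveI := Fintype.ofFinite (stg k).I
  refine ⟨∑ i, 2 * |act g.1 (stg k).be i - (stg k).al i| +
    ∑ i, 2 * |act (1 : Gk k).1 (stg k).be i - (stg k).al i|, ?_, ?_, ?_⟩
  · positivity
  · intro i
    have h1 := Finset.single_le_sum (f := fun i => 2 * |act g.1 (stg k).be i - (stg k).al i|)
      (fun i _ => by positivity) (Finset.mem_univ i)
    have h2 : 0 ≤ ∑ i, 2 * |act (1 : Gk k).1 (stg k).be i - (stg k).al i| := by positivity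
    have h3 : (0 : ℤ) ≤ md k := by positivity
    linarith
  · intro i
    have h1 := Finset.single_le_sum
      (f := fun i => 2 * |act (1 : Gk k).1 (stg k).be i - (stg k).al i|)
      (fun i _ => by positivity) (Finset.mem_univ i)
    have h2 : 0 ≤ ∑ i, 2 * |act g.1 (stg k).be i - (stg k).al i| := by positivity
    have h3 : (0 : ℤ) ≤ md k := by positivity
    linarith

lemma factor (k : ℕ) (g : Gk k) (C : ℤ) (hC : C < md k) (h : Bd k g C) (h1 : Bd k 1 C) :
    ∃ a ∈ Ak (k + 1), ∃ b ∈ Bk (k + 1), im k g = a * b := by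
  obtain ⟨u, hu1, hu2, hu3⟩ := key (md_odd k) g.1 (stg k).al (stg k).be (stg k).hal (stg k).hbe
    (by
      intro i
      have := h1 i
      rw [show ((1 : Gk k).1) = 1 from rfl, act_one] at this
      linarith)
    (by
      intro i
      have := h i
      linarith)
    (stg (k + 1)).S
  refine ⟨⟨u, hu1⟩, hu2, (⟨u, hu1⟩ : Gk (k + 1))⁻¹ * im k g, ?_, by rw [mul_inv_cancel_left]⟩
  show act (u⁻¹ * io (md k) g.1) (lf (stg k).be) = lf (stg k).be
  rw [act_mul, act_lf (md_odd k), ← hu3, ← act_mul, inv_mul_cancel, act_one]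

lemma md_big (k : ℕ) (C : ℤ) : ∃ n, C < md (k + n) := by
  refine ⟨C.toNat, ?_⟩
  have h1 : C ≤ C.toNat := Int.self_le_toNat C
  have h2 : C.toNat < 5 ^ C.toNat := Nat.lt_pow_self (by norm_num)
  have h3 : 5 ^ C.toNat ≤ md (k + C.toNat) := by
    unfold md
    exact Nat.pow_le_pow_right (by norm_num) (by omega)
  have h4 : (C.toNat : ℤ) < (md (k + C.toNat) : ℕ) := by exact_mod_cast lt_of_lt_of_le h2 h3
  linarith

/-- The negation of the preceding statement: Suppose every finitely generated subgroup of a group G is soluble, and every element of G is a product ab with a, b taken from two periodic subgroups A and B. Then every element of G has finite order. -/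
theorem result :
    ¬ (∀ (G : Type) [Group G],
      (∀ S : Finset G, IsSolvable (Subgroup.closure (S : Set G))) →
      ∀ A B : Subgroup G,
        (∀ a ∈ A, IsOfFinOrder a) →
        (∀ b ∈ B, IsOfFinOrder b) →
        (∀ g : G, ∃ a ∈ A, ∃ b ∈ B, g = a * b) →
        Monoid.IsTorsion G) := by
  intro hall
  obtain ⟨L, _, o, hinj, hcomp, hsurj⟩ := Pool.Agent.H4.Chain.chain_limit
    (G := fun k => Gk k) im im_inj
  -- moving an element to a later stage
  have hmove : ∀ (k n : ℕ) (g : Gk k), ∃ g' : Gk (k + n), o (k + n) g' = o k g ∧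
      (g ∈ Ak k → g' ∈ Ak (k + n)) ∧ (g ∈ Bk k → g' ∈ Bk (k + n)) ∧
      ∀ C, (Bd k g C → Bd (k + n) g' C) ∧ (Bd k 1 C → Bd (k + n) 1 C) := by
    intro k n g
    induction n with
    | zero => exact ⟨g, rfl, fun h => h, fun h => h, fun C => ⟨fun h => h, fun h => h⟩⟩
    | succ n ih =>
      obtain ⟨g', h1, h2, h3, h4⟩ := ih
      refine ⟨im (k + n) g', ?_, ?_, ?_, ?_⟩
      · rw [← h1]
        exact hcomp (k + n) g'
      · exact fun h => im_A _ _ (h2 h)
      · exact fun h => im_B _ _ (h3 h)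
      · intro C
        refine ⟨fun h => Bd_succ _ _ _ ((h4 C).1 h), fun h => ?_⟩
        have := Bd_succ _ _ _ ((h4 C).2 h)
        rwa [map_one] at this
  have hmono : ∀ k n, (o k).range ≤ (o (k + n)).range := by
    rintro k n _ ⟨g, rfl⟩
    obtain ⟨g', h, -⟩ := hmove k n g
    exact ⟨g', h⟩
  have hmono' : ∀ k l, k ≤ l → (o k).range ≤ (o l).range := by
    intro k l h
    obtain ⟨n, rfl⟩ := Nat.exists_eq_add_of_le h
    exact hmono k n
  have hmonoA : ∀ k l, k ≤ l → (Ak k).map (o k) ≤ (Ak l).map (o l) := by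
    rintro k l h _ ⟨g, hg, rfl⟩
    obtain ⟨n, rfl⟩ := Nat.exists_eq_add_of_le h
    obtain ⟨g', h, h2, -⟩ := hmove k n g
    exact ⟨g', h2 hg, h⟩
  have hmonoB : ∀ k l, k ≤ l → (Bk k).map (o k) ≤ (Bk l).map (o l) := by
    rintro k l h _ ⟨g, hg, rfl⟩
    obtain ⟨n, rfl⟩ := Nat.exists_eq_add_of_le h
    obtain ⟨g', h, -, h3, -⟩ := hmove k n g
    exact ⟨g', h3 hg, h⟩
  have hdirA : Directed (· ≤ ·) (fun k => (Ak k).map (o k)) :=
    (monotone_iff_forall_lt.2 (fun k l h => hmonoA k l h.le)).directed_le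
  have hdirB : Directed (· ≤ ·) (fun k => (Bk k).map (o k)) :=
    (monotone_iff_forall_lt.2 (fun k l h => hmonoB k l h.le)).directed_le
  have hsolv : ∀ S : Finset L, IsSolvable (Subgroup.closure (S : Set L)) := by
    intro S
    have hk : ∃ k, (S : Set L) ⊆ (o k).range := by
      classical
      induction S using Finset.induction_on with
      | empty => exact ⟨0, by simp⟩
      | insert x S _ ih =>
        obtain ⟨k, hk⟩ := ih
        obtain ⟨j, g, hg⟩ := hsurj x
        refine ⟨max k j, ?_⟩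
        intro y hy
        rw [Finset.coe_insert, Set.mem_insert_iff] at hy
        rcases hy with rfl | hy
        · exact hmono' j _ (le_max_right _ _) ⟨g, hg⟩
        · exact hmono' k _ (le_max_left _ _) (hk hy)
    obtain ⟨k, hk⟩ := hk
    haveI := (stg k).sol
    haveI := GG_solvable (stg k).S
    haveI h1 : Group.IsSolvable (o k).range := Group.isSolvable_of_surjective (o k).rangeRestrict_surjective
    have h2 : Subgroup.closure (S : Set L) ≤ (o k).range := (Subgroup.closure_le _).2 hk
    exact Group.isSolvable_of_isSolvable_injective (Subgroup.inclusion_injective h2)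
  have htor := hall L hsolv (⨆ k, (Ak k).map (o k)) (⨆ k, (Bk k).map (o k))
    (by
      intro a ha
      rw [Subgroup.mem_iSup_of_directed hdirA] at ha
      obtain ⟨k, g, hg, rfl⟩ := ha
      have : IsOfFinOrder (⟨g, hg⟩ : Ak k) := isOfFinOrder_of_finite _
      exact ((o k).comp (Ak k).subtype).isOfFinOrder this)
    (by
      intro a ha
      rw [Subgroup.mem_iSup_of_directed hdirB] at ha
      obtain ⟨k, g, hg, rfl⟩ := ha
      have : IsOfFinOrder (⟨g, hg⟩ : Bk k) := isOfFinOrder_of_finite _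
      exact ((o k).comp (Bk k).subtype).isOfFinOrder this)
    (by
      intro x
      obtain ⟨k, g, rfl⟩ := hsurj x
      obtain ⟨C, hC0, hC1, hC2⟩ := Bd_exists k g
      obtain ⟨n, hn⟩ := md_big k C
      obtain ⟨g', h1, -, -, h4⟩ := hmove k n g
      obtain ⟨a, ha, b, hb, hab⟩ := factor (k + n) g' C hn ((h4 C).1 hC1) ((h4 C).2 hC2)
      refine ⟨o _ a, ?_, o _ b, ?_, ?_⟩
      · exact (Subgroup.mem_iSup_of_directed hdirA).2 ⟨k + n + 1, a, ha, rfl⟩
      · exact (Subgroup.mem_iSup_of_directed hdirB).2 ⟨k + n + 1, b, hb, rfl⟩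
      · rw [← map_mul, ← hab, ← h1]
        exact (hcomp (k + n) g').symm)
  -- an element of infinite order
  let t : Gk 0 := ⟨⟨fun _ => 1, fun _ => 1, 1⟩, Subgroup.mem_top _⟩
  have htc : ∀ n : ℕ, (t ^ n).1.c () = n := by
    intro n
    induction n with
    | zero => rfl
    | succ n ih =>
      rw [pow_succ']
      show ((1 : ℤˣ) : ℤ) * (t ^ n).1.c () + 1 = _
      rw [ih, Units.val_one]
      push_cast
      ring
  have h1 : IsOfFinOrder (o 0 t) := htor (o 0 t)
  obtain ⟨n, hn, hn1⟩ := isOfFinOrder_iff_pow_eq_one.1 h1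
  rw [← map_pow] at hn1
  have h2 : t ^ n = 1 := hinj 0 (by rw [hn1, map_one])
  have h3 := htc n
  rw [h2] at h3
  have h4 : (0 : ℤ) = n := h3
  omega

end Pool.Agent.S02384
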