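import Pool.Statements.S02421

set_option autoImplicit false
open Pool Pool.MP_ef54ea_al

namespace Pool.Agent.S02421

open Polynomial

/-- the cubic `x^3 + 1` -/
noncomputable def q : ℂ[X] := X ^ 3 + 1

/-- coordinate ring of `y^2 = x^3 + 1` -/
abbrev A : Type := QuadraticAlgebra ℂ[X] q 0

/-- the invariant derivation -/
noncomputable def tau (f : A) : A :=
  ⟨2 * q * derivative f.im + derivative q * f.im, 2 * derivative f.re⟩

lemma tau_add (f g : A) : tau (f + g) = tau f + tau g := by
  ext1 <;> simp [tau] <;> ring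

lemma tau_smul (c : ℂ) (f : A) : tau (c • f) = c • tau f := by
  ext1 <;> simp [tau, smul_eq_C_mul] <;> ring

lemma tau_mul (f g : A) : tau (f * g) = f * tau g + g * tau f := by
  ext1 <;> simp [tau, derivative_mul] <;> ring

lemma tau_neg (f : A) : tau (-f) = - tau f := by
  have := tau_smul (-1) f
  rwa [neg_one_smul, neg_one_smul] at this

lemma tau_sub (f g : A) : tau (f - g) = tau f - tau g := by
  rw [sub_eq_add_neg, tau_add, tau_neg, sub_eq_add_neg]

/-- the Lie algebra of vector fields -/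
def VF : Type := A

noncomputable instance : AddCommGroup VF := inferInstanceAs (AddCommGroup A)
noncomputable instance : Module ℂ VF := inferInstanceAs (Module ℂ A)

/-- the bracket -/
noncomputable def br (f g : A) : A := f * tau g - g * tau f

lemma br_add_left (f g h : A) : br (f + g) h = br f h + br g h := by
  simp only [br, tau_add]; ring

lemma br_add_right (f g h : A) : br f (g + h) = br f g + br f h := by
  simp only [br, tau_add]; ring

lemma br_self (f : A) : br f f = 0 := by
  simp only [br]; ring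

lemma br_jac (f g h : A) : br f (br g h) = br (br f g) h + br g (br f h) := by
  simp only [br, tau_sub, tau_mul]; ring

lemma br_smul (c : ℂ) (f g : A) : br f (c • g) = c • br f g := by
  simp only [br, tau_smul, smul_sub, mul_smul_comm, smul_mul_assoc]

noncomputable instance : LieRing VF where
  bracket f g := br f g
  add_lie := br_add_left
  lie_add := br_add_right
  lie_self := br_self
  leibniz_lie := br_jac

noncomputable instance : LieAlgebra ℂ VF where
  lie_smul := br_smul

/-- the expansion at infinity (leading part) -/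
noncomputable def Ph (f : A) : ℂ[X] := expand ℂ 2 f.re + X ^ 3 * expand ℂ 2 f.im

lemma Ph_even (f : A) (k : ℕ) : (Ph f).coeff (2 * k) = f.re.coeff k := by
  unfold Ph
  rw [coeff_add, mul_comm 2 k, coeff_expand_mul (by norm_num)]
  have : (X ^ 3 * expand ℂ 2 f.im).coeff (k * 2) = 0 := by
    rw [coeff_X_pow_mul', coeff_expand (by norm_num)]
    split_ifs with h1 h2
    · exfalso; omega
    · rfl
    · rfl
  rw [this, add_zero]

lemma Ph_odd (f : A) (k : ℕ) : (Ph f).coeff (2 * k + 3) = f.im.coeff k := by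
  unfold Ph
  rw [coeff_add, coeff_X_pow_mul, mul_comm 2 k, coeff_expand_mul (by norm_num),
    coeff_expand (by norm_num), if_neg (by omega), zero_add]

lemma Ph_inj (f : A) (h : Ph f = 0) : f = 0 := by
  ext k
  · rw [← Ph_even, h]; simp
  · rw [← Ph_odd, h]; simp

lemma Ph_add (f g : A) : Ph (f + g) = Ph f + Ph g := by
  simp only [Ph, QuadraticAlgebra.re_add, QuadraticAlgebra.im_add, map_add]; ring

lemma Ph_smul (c : ℂ) (f : A) : Ph (c • f) = c • Ph f := by
  simp [Ph, smul_eq_C_mul]; ring

lemma Ph_sub (f g : A) : Ph (f - g) = Ph f - Ph g := by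
  simp only [Ph, QuadraticAlgebra.re_sub, QuadraticAlgebra.im_sub, map_sub]; ring

lemma Ph_mul (f g : A) : Ph (f * g) = Ph f * Ph g + expand ℂ 2 f.im * expand ℂ 2 g.im := by
  simp only [Ph, QuadraticAlgebra.re_mul, QuadraticAlgebra.im_mul, map_add, map_mul, q, map_pow,
    expand_X, map_one, map_zero]
  ring

lemma Ph_tau (f : A) : Ph (tau f) = X ^ 2 * derivative (Ph f) + 2 * expand ℂ 2 (derivative f.im) := by
  simp only [Ph, tau, map_add, map_mul, q, map_pow, expand_X, map_one,
    derivative_mul, derivative_X_pow, derivative_one, derivative_expand, map_ofNat, map_zero]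
  simp
  ring

lemma re_le (f : A) (n : ℕ) (h : (Ph f).natDegree ≤ n) : (expand ℂ 2 f.re).natDegree ≤ n := by
  rw [natDegree_le_iff_coeff_eq_zero] at h ⊢
  intro N hN
  rw [coeff_expand (by norm_num)]
  split_ifs with h1
  · obtain ⟨k, rfl⟩ := h1
    rw [Nat.mul_div_cancel_left _ (by norm_num), ← Ph_even]
    exact h _ hN
  · rfl

lemma im_coeff (f : A) (n : ℕ) (h : (Ph f).natDegree ≤ n) (N : ℕ) (hN : n < N + 3) :
    (expand ℂ 2 f.im).coeff N = 0 := by
  rw [natDegree_le_iff_coeff_eq_zero] at h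
  rw [coeff_expand (by norm_num)]
  split_ifs with h1
  · obtain ⟨k, rfl⟩ := h1
    rw [Nat.mul_div_cancel_left _ (by norm_num), ← Ph_odd]
    exact h _ hN
  · rfl

lemma im_le (f : A) (n : ℕ) (h : (Ph f).natDegree ≤ n) : (expand ℂ 2 f.im).natDegree ≤ n := by
  rw [natDegree_le_iff_coeff_eq_zero]
  intro N hN
  exact im_coeff f n h N (by omega)

lemma im_lt (f : A) (n : ℕ) (h : (Ph f).natDegree ≤ n) (hf : f.im ≠ 0) :
    (expand ℂ 2 f.im).natDegree < n := by
  by_contra hc
  push Not at hc
  have h1 := im_coeff f n h (expand ℂ 2 f.im).natDegree (by omega)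
  rw [coeff_natDegree, leadingCoeff_eq_zero, expand_eq_zero (by norm_num)] at h1
  exact hf h1

lemma der_le (p : ℂ[X]) (n : ℕ) (h : (expand ℂ 2 p).natDegree ≤ n) :
    (expand ℂ 2 (derivative p)).natDegree ≤ n := by
  rw [natDegree_expand] at h ⊢
  have := natDegree_derivative_le p
  omega

lemma mul_coeff (f g : A) (n m : ℕ) (hf : (Ph f).natDegree ≤ n) (hg : (Ph g).natDegree ≤ m) :
    (Ph (f * g)).natDegree ≤ n + m ∧
      (Ph (f * g)).coeff (n + m) = (Ph f).coeff n * (Ph g).coeff m := by
  rw [Ph_mul]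
  constructor
  · refine natDegree_add_le_of_degree_le ?_ ?_
    · exact natDegree_mul_le_of_le hf hg
    · exact natDegree_mul_le_of_le (im_le f n hf) (im_le g m hg)
  · rw [coeff_add, coeff_mul_add_eq_of_natDegree_le hf hg, add_eq_left]
    by_cases h : f.im = 0
    · rw [h]; simp
    · apply coeff_eq_zero_of_natDegree_lt
      have h1 := im_lt f n hf h
      have h2 := im_le g m hg
      have h3 := natDegree_mul_le (p := expand ℂ 2 f.im) (q := expand ℂ 2 g.im)
      omega

lemma xd_coeff (p : ℂ[X]) (m : ℕ) (hp : p.natDegree ≤ m) :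
    (X ^ 2 * derivative p).natDegree ≤ m + 1 ∧
      (X ^ 2 * derivative p).coeff (m + 1) = m * p.coeff m := by
  rcases m with _ | m
  · have : p = C (p.coeff 0) := eq_C_of_natDegree_le_zero hp
    rw [this]
    simp
  · constructor
    · have h1 := natDegree_derivative_le p
      have h2 := natDegree_mul_le (p := (X ^ 2 : ℂ[X])) (q := derivative p)
      rw [natDegree_X_pow] at h2
      omega
    · rw [show m + 1 + 1 = m + 2 from rfl, coeff_X_pow_mul, coeff_derivative]
      push_cast
      ring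

lemma half_coeff (f g : A) (n m : ℕ) (hf : (Ph f).natDegree ≤ n) (hg : (Ph g).natDegree ≤ m) :
    (Ph (f * tau g)).coeff (n + m + 1) = m * ((Ph f).coeff n * (Ph g).coeff m) := by
  rw [Ph_mul, Ph_tau, mul_add, coeff_add, coeff_add]
  obtain ⟨h1, h2⟩ := xd_coeff (Ph g) m hg
  have h3 : (Ph f * (X ^ 2 * derivative (Ph g))).coeff (n + m + 1) =
      (Ph f).coeff n * (m * (Ph g).coeff m) := by
    rw [add_assoc, coeff_mul_add_eq_of_natDegree_le hf h1, h2]
  have h4 : (Ph f * (2 * expand ℂ 2 (derivative g.im))).coeff (n + m + 1) = 0 := by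
    apply coeff_eq_zero_of_natDegree_lt
    have e1 : (2 * expand ℂ 2 (derivative g.im)).natDegree ≤ m := by
      rw [two_mul, ← two_mul]
      refine (natDegree_mul_le).trans ?_
      rw [natDegree_ofNat, zero_add]
      exact der_le _ _ (im_le g m hg)
    have e2 := natDegree_mul_le_of_le hf e1
    omega
  have h5 : (expand ℂ 2 f.im * expand ℂ 2 (tau g).im).coeff (n + m + 1) = 0 := by
    apply coeff_eq_zero_of_natDegree_lt
    have e1 : (expand ℂ 2 (tau g).im).natDegree ≤ m := by
      show (expand ℂ 2 (2 * derivative g.re)).natDegree ≤ m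
      rw [map_mul, map_ofNat]
      refine (natDegree_mul_le).trans ?_
      rw [natDegree_ofNat, zero_add]
      exact der_le _ _ (re_le g m hg)
    have e2 := natDegree_mul_le_of_le (im_le f n hf) e1
    omega
  rw [h3, h4, h5]
  ring

lemma br_coeff (f g : A) (n m : ℕ) (hf : (Ph f).natDegree ≤ n) (hg : (Ph g).natDegree ≤ m) :
    (Ph (br f g)).coeff (n + m + 1) = ((m : ℂ) - n) * ((Ph f).coeff n * (Ph g).coeff m) := by
  unfold br
  rw [Ph_sub, coeff_sub, half_coeff f g n m hf hg, add_comm n m, half_coeff g f m n hg hf]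
  ring

lemma br_big (f g : A) (hf : f ≠ 0) (hg : g ≠ 0)
    (h : (Ph f).natDegree ≠ (Ph g).natDegree) :
    (Ph f).natDegree + (Ph g).natDegree < (Ph (br f g)).natDegree := by
  have h1 := br_coeff f g _ _ le_rfl le_rfl
  have hf' : Ph f ≠ 0 := fun h => hf (Ph_inj f h)
  have hg' : Ph g ≠ 0 := fun h => hg (Ph_inj g h)
  have h2 : (Ph (br f g)).coeff ((Ph f).natDegree + (Ph g).natDegree + 1) ≠ 0 := by
    rw [h1]
    refine mul_ne_zero ?_ (mul_ne_zero ?_ ?_)
    · rw [sub_ne_zero]
      intro h3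
      exact h (by exact_mod_cast h3.symm)
    · rwa [coeff_natDegree, leadingCoeff_ne_zero]
    · rwa [coeff_natDegree, leadingCoeff_ne_zero]
  have := le_natDegree_of_ne_zero h2
  omega

lemma Ph_one : Ph (1 : A) = 1 := by
  have h1 : (1 : A).re = 1 := rfl
  have h2 : (1 : A).im = 0 := rfl
  simp [Ph, h1, h2]

lemma Ph_zero : Ph (0 : A) = 0 := by
  simp [Ph]

lemma mul_ne (f g : A) (hf : f ≠ 0) (hg : g ≠ 0) : f * g ≠ 0 := by
  intro h
  have h1 := (mul_coeff f g _ _ le_rfl le_rfl).2
  have hf' : Ph f ≠ 0 := fun h => hf (Ph_inj f h)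
  have hg' : Ph g ≠ 0 := fun h => hg (Ph_inj g h)
  rw [h, Ph_zero, coeff_zero] at h1
  refine mul_ne_zero ?_ ?_ h1.symm
  · rwa [coeff_natDegree, leadingCoeff_ne_zero]
  · rwa [coeff_natDegree, leadingCoeff_ne_zero]

lemma tau_zero : tau 0 = 0 := by
  have := tau_smul 0 (0 : A)
  rwa [zero_smul, zero_smul] at this

lemma tau_ne (g : A) (hg : (Ph g).natDegree ≠ 0) : tau g ≠ 0 := by
  intro h
  have h1 := half_coeff 1 g 0 (Ph g).natDegree (by rw [Ph_one, natDegree_one]) le_rfl
  rw [h, mul_zero, Ph_zero, coeff_zero, Ph_one, coeff_one_zero, one_mul] at h1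
  refine mul_ne_zero ?_ ?_ h1.symm
  · exact_mod_cast hg
  · rw [coeff_natDegree, leadingCoeff_ne_zero]
    intro h2
    exact hg (by rw [h2, natDegree_zero])

/-- `Ph` as a linear map -/
noncomputable def PhL : A →ₗ[ℂ] ℂ[X] where
  toFun := Ph
  map_add' := Ph_add
  map_smul' := Ph_smul

/-- every element is ad-pure -/
lemma pure (a : A) (V : Submodule ℂ A) (hV : FiniteDimensional ℂ V)
    (h : ∀ v ∈ V, br a v ∈ V) : ∀ v ∈ V, br a v = 0 := by
  by_cases ha : a = 0
  · intro v _
    rw [ha, br, tau_zero]; ring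
  -- a bound on degrees
  obtain ⟨N, hN⟩ : ∃ N, ∀ v ∈ V, (Ph v).natDegree ≤ N := by
    obtain ⟨s, hs⟩ := Module.Finite.iff_fg.1 hV
    have h1 : (insert 0 (PhL '' (s : Set A))).Finite := (s.finite_toSet.image _).insert _
    obtain ⟨p', -, hp'⟩ := exists_degree_le_of_mem_span_of_finite h1 (Set.insert_nonempty _ _)
    refine ⟨p'.natDegree, fun v hv => natDegree_le_natDegree (hp' _ ?_)⟩
    rw [← hs] at hv
    have h2 : PhL v ∈ (Submodule.span ℂ (s : Set A)).map PhL := Submodule.mem_map_of_mem hv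
    rw [Submodule.map_span] at h2
    exact Submodule.span_mono (Set.subset_insert _ _) h2
  have key : ∀ v ∈ V, (Ph v).natDegree ≤ (Ph a).natDegree := by
    by_contra hc
    push Not at hc
    obtain ⟨v0, hv0, hlt⟩ := hc
    obtain ⟨v, ⟨hv, hv1⟩, hmax⟩ : ∃ v, (v ∈ V ∧ (Ph a).natDegree < (Ph v).natDegree) ∧
        ∀ w, (w ∈ V ∧ (Ph a).natDegree < (Ph w).natDegree) →
          (Ph w).natDegree ≤ (Ph v).natDegree := by
      have hex : ∃ n, ∃ v, (v ∈ V ∧ (Ph a).natDegree < (Ph v).natDegree) ∧
          (Ph v).natDegree = n := ⟨_, v0, ⟨hv0, hlt⟩, rfl⟩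
      classical
      have hb : ∀ n, (∃ v, (v ∈ V ∧ (Ph a).natDegree < (Ph v).natDegree) ∧
          (Ph v).natDegree = n) → n ≤ N := by
        rintro n ⟨v, ⟨hv, _⟩, rfl⟩
        exact hN v hv
      obtain ⟨v, hv, hvn⟩ := Nat.findGreatest_spec (P := fun n => ∃ v, (v ∈ V ∧
        (Ph a).natDegree < (Ph v).natDegree) ∧ (Ph v).natDegree = n) (hb _ hex.choose_spec)
        hex.choose_spec
      refine ⟨v, hv, fun w hw => ?_⟩
      rw [hvn]
      exact Nat.le_findGreatest (hb _ ⟨w, hw, rfl⟩) ⟨w, hw, rfl⟩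
    have hv0' : v ≠ 0 := by
      rintro rfl
      rw [Ph_zero, natDegree_zero] at hv1
      omega
    have h1 := br_big a v ha hv0' (by omega)
    have h2 := hmax _ ⟨h v hv, by omega⟩
    omega
  intro v hv
  by_contra hbr
  obtain ⟨c, hc⟩ : ∃ c : ℂ, v - c • a = 0 ∨
      (Ph (v - c • a)).natDegree ≠ (Ph a).natDegree := by
    obtain ⟨c, hcd⟩ : ∃ c : ℂ, c * (Ph a).leadingCoeff = (Ph v).coeff (Ph a).natDegree := by
      refine ⟨(Ph v).coeff (Ph a).natDegree / (Ph a).leadingCoeff, div_mul_cancel₀ _ ?_⟩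
      rw [leadingCoeff_ne_zero]
      exact fun h => ha (Ph_inj a h)
    refine ⟨c, ?_⟩
    by_contra hcon
    push Not at hcon
    obtain ⟨hc1, hc2⟩ := hcon
    have h3 : (Ph (v - c • a)).coeff (Ph a).natDegree = 0 := by
      rw [Ph_sub, Ph_smul, coeff_sub, coeff_smul, coeff_natDegree, smul_eq_mul, hcd, sub_self]
    rw [← hc2, coeff_natDegree, leadingCoeff_eq_zero] at h3
    exact hc1 (Ph_inj _ h3)
  have h4 : br a (v - c • a) = br a v := by
    rw [sub_eq_add_neg, br_add_right, ← neg_smul, br_smul, br_self, smul_zero, add_zero]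
  rcases hc with hc | hc
  · rw [hc, br, tau_zero] at h4
    exact hbr (by rw [← h4]; ring)
  · by_cases h5 : v - c • a = 0
    · rw [h5, br, tau_zero] at h4
      exact hbr (by rw [← h4]; ring)
    · have h6 := br_big a _ ha h5 (Ne.symm hc)
      rw [h4] at h6
      have h7 := key _ (h v hv)
      omega

/-- no root is shared by `q` and its derivative -/
lemma q_sep (α : ℂ) (h1 : q.eval α = 0) (h2 : (derivative q).eval α = 0) : False := by
  have e1 : q.eval α = α ^ 3 + 1 := by simp [q]
  have e2 : (derivative q).eval α = 3 * α ^ 2 := by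
    simp [q]
    left
    norm_num
  rw [e1] at h1
  rw [e2] at h2
  have h3 : α = 0 := by
    have : α ^ 2 = 0 := by
      rcases mul_eq_zero.1 h2 with h | h
      · norm_num at h
      · exact h
    exact pow_eq_zero_iff (two_ne_zero) |>.1 this
  rw [h3] at h1
  norm_num at h1

/-- the polynomial part of the argument for simplicity -/
lemma poly_unit (p : ℂ[X]) (hp : p ≠ 0) (h1 : p ∣ q * derivative p)
    (h2 : p ∣ derivative q * derivative p + 2 * q * derivative (derivative p)) : IsUnit p := by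
  by_contra hu
  have hdeg : p.degree ≠ 0 := fun h => hu (isUnit_iff_degree_eq_zero.2 h)
  obtain ⟨α, hα⟩ := IsAlgClosed.exists_root p hdeg
  obtain ⟨r, hr1, hr2⟩ := exists_eq_pow_rootMultiplicity_mul_and_not_dvd p hp α
  have he : 0 < p.rootMultiplicity α := (rootMultiplicity_pos hp).2 hα
  obtain ⟨e, hee⟩ : ∃ e, p.rootMultiplicity α = e + 1 := ⟨_, (Nat.succ_pred_eq_of_pos he).symm⟩
  rw [hee] at hr1
  have hrα : r.eval α ≠ 0 := by
    intro h
    exact hr2 (dvd_iff_isRoot.2 h)
  have hXne : (X - C α : ℂ[X]) ^ e ≠ 0 := pow_ne_zero _ (X_sub_C_ne_zero α)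
  obtain ⟨s1, hs1⟩ : ∃ s1, s1 = ((e : ℂ[X]) + 1) * r + (X - C α) * derivative r := ⟨_, rfl⟩
  have hd1 : derivative p = (X - C α) ^ e * s1 := by
    rw [hr1, hs1, derivative_mul, derivative_X_sub_C_pow]
    simp only [Nat.add_sub_cancel]
    push_cast
    simp only [map_add, map_natCast, map_one]
    ring
  have hs1α : s1.eval α = ((e : ℂ) + 1) * r.eval α := by
    rw [hs1]; simp
  have hs1ne : s1.eval α ≠ 0 := by
    rw [hs1α]
    refine mul_ne_zero ?_ hrα
    exact_mod_cast Nat.succ_ne_zero e
  -- first divisibility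
  have hq : q.eval α = 0 := by
    rw [hd1, hr1, pow_succ, mul_assoc,
      show q * ((X - C α) ^ e * s1) = (X - C α) ^ e * (q * s1) by ring] at h1
    have h3 := (mul_dvd_mul_iff_left hXne).1 h1
    obtain ⟨w, hw⟩ := h3
    have h4 := congrArg (eval α) hw
    simp only [eval_mul, eval_sub, eval_X, eval_C, sub_self, zero_mul, mul_eq_zero] at h4
    rcases h4 with h4 | h4
    · exact h4
    · exact absurd h4 hs1ne
  obtain ⟨q1, hq1⟩ := dvd_iff_isRoot.2 hq
  have hdq : (derivative q).eval α = q1.eval α := by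
    rw [hq1, derivative_mul]; simp
  -- second derivative times (X - α)
  have hd2 : (X - C α) * derivative (derivative p) =
      (X - C α) ^ e * ((e : ℂ[X]) * s1 + (X - C α) * derivative s1) := by
    have h3 : (X - C α) * derivative p = (X - C α) ^ (e + 1) * s1 := by rw [hd1]; ring
    have h4 := congrArg derivative h3
    rw [derivative_mul, derivative_mul, derivative_X_sub_C_pow, derivative_X_sub_C] at h4
    simp only [Nat.add_sub_cancel] at h4
    push_cast at h4
    simp only [map_add, map_natCast, map_one] at h4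
    linear_combination h4 - hd1
  have h3 : p ∣ (X - C α) ^ e * (derivative q * s1 + 2 * q1 * ((e : ℂ[X]) * s1 +
      (X - C α) * derivative s1)) := by
    have h4 : derivative q * derivative p + 2 * q * derivative (derivative p) =
        (X - C α) ^ e * (derivative q * s1 + 2 * q1 * ((e : ℂ[X]) * s1 +
      (X - C α) * derivative s1)) := by
      have : 2 * q * derivative (derivative p) = 2 * q1 * ((X - C α) * derivative (derivative p)) := by
        rw [hq1]; ring
      rw [this, hd2, hd1]; ring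
    rw [← h4]; exact h2
  rw [hr1, pow_succ, mul_assoc] at h3
  obtain ⟨w, hw⟩ := (mul_dvd_mul_iff_left hXne).1 h3
  have h4 := congrArg (eval α) hw
  simp only [eval_mul, eval_sub, eval_X, eval_C, sub_self, zero_mul, eval_add, eval_natCast,
    add_zero, hdq] at h4
  have h5 : q1.eval α * s1.eval α * (1 + 2 * e) = 0 := by
    rw [← h4]
    simp
    ring
  rcases mul_eq_zero.1 h5 with h6 | h6
  · rcases mul_eq_zero.1 h6 with h7 | h7
    · exact q_sep α hq (by rw [hdq, h7])
    · exact hs1ne h7
  · have : ((1 + 2 * e : ℕ) : ℂ) = 0 := by push_cast; exact h6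
    exact absurd (Nat.cast_eq_zero.1 this) (by omega)

/-- a nonzero `tau`-stable ideal of `A` contains `1` -/
lemma tau_simple (J : Set A) (hadd : ∀ u ∈ J, ∀ v ∈ J, u + v ∈ J) (hmul : ∀ u ∈ J, ∀ a, u * a ∈ J)
    (htau : ∀ u ∈ J, tau u ∈ J) (u : A) (hu : u ∈ J) (hu0 : u ≠ 0) : (1 : A) ∈ J := by
  have h0 : (0 : A) ∈ J := by
    have := hmul u hu 0
    rwa [mul_zero] at this
  let I : Ideal ℂ[X] :=
    { carrier := {p | (⟨p, 0⟩ : A) ∈ J}
      add_mem' := by
        intro a b ha hb
        have := hadd _ ha _ hb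
        have e : (⟨a, 0⟩ : A) + ⟨b, 0⟩ = ⟨a + b, 0⟩ := by ext1 <;> simp
        rw [e] at this
        exact this
      zero_mem' := h0
      smul_mem' := by
        intro c a ha
        have := hmul _ ha (⟨c, 0⟩ : A)
        have e : (⟨a, 0⟩ : A) * ⟨c, 0⟩ = ⟨c * a, 0⟩ := by ext1 <;> simp [mul_comm]
        rw [e] at this
        exact this }
  have hI : ∀ p : ℂ[X], p ∈ I ↔ (⟨p, 0⟩ : A) ∈ J := fun p => Iff.rfl
  -- norm
  have hnorm : u.re ^ 2 - q * u.im ^ 2 ∈ I := by
    rw [hI]
    have := hmul u hu (⟨u.re, -u.im⟩ : A)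
    have e : u * (⟨u.re, -u.im⟩ : A) = ⟨u.re ^ 2 - q * u.im ^ 2, 0⟩ := by
      ext1 <;> simp <;> ring
    rwa [e] at this
  have hnz : u.re ^ 2 - q * u.im ^ 2 ≠ 0 := by
    intro h
    have e : u * (⟨u.re, -u.im⟩ : A) = 0 := by
      ext1
      · rw [QuadraticAlgebra.re_mul]
        show u.re * u.re + q * u.im * (-u.im) = 0
        linear_combination h
      · rw [QuadraticAlgebra.im_mul]
        show u.re * (-u.im) + u.im * u.re + 0 * u.im * (-u.im) = 0
        ring
    refine mul_ne u _ hu0 ?_ e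
    intro h1
    apply hu0
    have e1 := congrArg QuadraticAlgebra.re h1
    have e2 := congrArg QuadraticAlgebra.im h1
    ext1
    · exact e1
    · exact neg_eq_zero.1 e2
  obtain ⟨p, hp⟩ : ∃ p, I = Ideal.span {p} := (IsPrincipalIdealRing.principal I).principal
  have hp0 : p ≠ 0 := by
    rintro rfl
    rw [hp, Ideal.mem_span_singleton, zero_dvd_iff] at hnorm
    exact hnz hnorm
  have hpI : p ∈ I := by rw [hp]; exact Ideal.mem_span_singleton_self p
  have hpJ : (⟨p, 0⟩ : A) ∈ J := hpI
  -- `2 p' y ∈ J`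
  have h1 : (⟨0, 2 * derivative p⟩ : A) ∈ J := by
    have := htau _ hpJ
    have e : tau (⟨p, 0⟩ : A) = ⟨0, 2 * derivative p⟩ := by ext1 <;> simp [tau]
    rwa [e] at this
  have h2 : q * (2 * derivative p) ∈ I := by
    rw [hI]
    have := hmul _ h1 (⟨0, 1⟩ : A)
    have e : (⟨0, 2 * derivative p⟩ : A) * ⟨0, 1⟩ = ⟨q * (2 * derivative p), 0⟩ := by
      ext1 <;> simp
    rwa [e] at this
  have h3 : 2 * q * (2 * derivative (derivative p)) + derivative q * (2 * derivative p) ∈ I := by
    rw [hI]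
    have := htau _ h1
    have e : tau (⟨0, 2 * derivative p⟩ : A) =
        ⟨2 * q * (2 * derivative (derivative p)) + derivative q * (2 * derivative p), 0⟩ := by
      ext1
      · simp [tau, derivative_mul]
      · simp [tau]
    rwa [e] at this
  have hhalf : (C (1 / 2 : ℂ) : ℂ[X]) * 2 = 1 := by
    rw [← C_ofNat, ← C_mul]
    norm_num
  rw [hp, Ideal.mem_span_singleton] at h2 h3
  have h2' : p ∣ q * derivative p := by
    have : q * derivative p = C (1 / 2 : ℂ) * (q * (2 * derivative p)) := by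
      linear_combination (-(q * derivative p)) * hhalf
    rw [this]
    exact dvd_mul_of_dvd_right h2 _
  have h3' : p ∣ derivative q * derivative p + 2 * q * derivative (derivative p) := by
    have : derivative q * derivative p + 2 * q * derivative (derivative p) =
        C (1 / 2 : ℂ) * (2 * q * (2 * derivative (derivative p)) +
          derivative q * (2 * derivative p)) := by
      linear_combination (-(derivative q * derivative p + 2 * q * derivative (derivative p))) * hhalf
    rw [this]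
    exact dvd_mul_of_dvd_right h3 _
  have hunit := poly_unit p hp0 h2' h3'
  have h5 : (1 : ℂ[X]) ∈ I := by
    rw [hp, Ideal.mem_span_singleton]
    exact hunit.dvd
  exact h5

/-- the Lie algebra of vector fields on the affine elliptic curve is simple -/
lemma ideal_top (I : Set A) (hadd : ∀ u ∈ I, ∀ v ∈ I, u + v ∈ I)
    (hsmul : ∀ u ∈ I, ∀ c : ℂ, c • u ∈ I) (hbr : ∀ u ∈ I, ∀ a, br a u ∈ I)
    (f : A) (hf : f ∈ I) (hf0 : f ≠ 0) : ∀ a : A, a ∈ I := by
  have hneg : ∀ u ∈ I, -u ∈ I := by
    intro u hu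
    have := hsmul u hu (-1)
    rwa [neg_one_smul] at this
  have hbr' : ∀ u ∈ I, ∀ a, br u a ∈ I := by
    intro u hu a
    have h1 : br u a = - br a u := by simp only [br]; ring
    rw [h1]
    exact hneg _ (hbr u hu a)
  have hone : (1 : A) ∈ {u : A | ∀ a, u * a ∈ I} := by
    have h1 : ∀ g, f * f * tau g ∈ I := by
      intro g
      have := hbr' f hf (f * g)
      have e : br f (f * g) = f * f * tau g := by
        simp only [br, tau_mul]; ring
      rwa [e] at this
    have h2 : ∀ g h, 2 * (f * f * f * tau (f * tau g)) * h ∈ I := by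
      intro g h
      have a1 := hbr _ (h1 g) (f * f * h)
      have a2 := h1 (f * f * h * tau g)
      have e : br (f * f * h) (f * f * tau g) + f * f * tau (f * f * h * tau g) =
          2 * (f * f * f * tau (f * tau g)) * h := by
        simp only [br, tau_mul]; ring
      rw [← e]
      exact hadd _ a1 _ a2
    obtain ⟨g, hg⟩ : ∃ g, tau (f * tau g) ≠ 0 := by
      refine ⟨⟨X, 0⟩, ?_⟩
      apply tau_ne
      have e : tau (⟨X, 0⟩ : A) = ⟨0, 2⟩ := by ext1 <;> simp [tau]
      rw [e]
      have e2 : (Ph (⟨0, 2⟩ : A)) = X ^ 3 * 2 := by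
        simp only [Ph, map_zero, zero_add, map_ofNat]
      have e3 : (X ^ 3 * 2 : ℂ[X]) = C 2 * X ^ 3 := by
        rw [mul_comm]; rfl
      have e4 : (Ph (⟨0, 2⟩ : A)).natDegree = 3 := by
        rw [e2, e3, natDegree_C_mul_X_pow 3 2 two_ne_zero]
      have e5 := (mul_coeff f (⟨0, 2⟩ : A) (Ph f).natDegree 3 le_rfl e4.le).2
      intro h
      rw [coeff_eq_zero_of_natDegree_lt (by rw [h]; omega)] at e5
      refine mul_ne_zero ?_ ?_ e5.symm
      · rw [coeff_natDegree, leadingCoeff_ne_zero]
        exact fun h => hf0 (Ph_inj f h)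
      · rw [← e4, coeff_natDegree, leadingCoeff_ne_zero, e2, e3]
        intro h
        have := natDegree_C_mul_X_pow 3 (2 : ℂ) two_ne_zero
        rw [h, natDegree_zero] at this
        omega
    refine tau_simple {u : A | ∀ a, u * a ∈ I} ?_ ?_ ?_ (2 * (f * f * f * tau (f * tau g))) ?_ ?_
    · intro u hu v hv a
      rw [add_mul]
      exact hadd _ (hu a) _ (hv a)
    · intro u hu b a
      rw [mul_assoc]
      exact hu _
    · intro u hu a
      have e : tau u * a = br 1 (u * a) + -(u * tau a) := by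
        have : tau (1 : A) = 0 := by
          have := tau_mul 1 1
          rw [one_mul, one_mul] at this
          exact left_eq_add.1 this
        simp only [br, tau_mul, this]; ring
      rw [e]
      exact hadd _ (hbr _ (hu a) 1) _ (hneg _ (hu _))
    · intro a
      exact h2 g a
    · refine mul_ne _ _ ?_ (mul_ne _ _ (mul_ne _ _ (mul_ne _ _ hf0 hf0) hf0) hg)
      exact two_ne_zero
  intro a
  have := hone a
  rwa [one_mul] at this

theorem simple : LieAlgebra.IsSimple ℂ VF := by
  constructor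
  · intro I
    by_cases h : ∃ f : A, f ∈ (I : Set VF) ∧ f ≠ 0
    · right
      obtain ⟨f, hf, hf0⟩ := h
      rw [eq_top_iff]
      intro a _
      refine ideal_top (I : Set VF) ?_ ?_ ?_ f hf hf0 a
      · intro u hu v hv
        exact I.add_mem hu hv
      · intro u hu c
        exact I.smul_mem c hu
      · intro u hu a
        exact lie_mem_right ℂ VF I a u hu
    · left
      push Not at h
      rw [eq_bot_iff]
      intro f hf
      exact (LieSubmodule.mem_bot _).2 (h f hf)
  · intro hab
    have key : ∀ x y : A, br x y = 0 := fun x y => hab.trivial (M := VF) (L := VF) x y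
    have h1 := key (⟨1, 0⟩ : A) (⟨X, 0⟩ : A)
    have h2 : br (⟨1, 0⟩ : A) (⟨X, 0⟩ : A) = ⟨0, 2⟩ := by
      ext1 <;> simp [br, tau]
    rw [h2] at h1
    exact two_ne_zero (congrArg QuadraticAlgebra.im h1)

theorem result :
    ∃ (K : Type) (_ : Field K) (L : Type) (_ : LieRing L) (_ : LieAlgebra K L),
      LieAlgebra.IsSimple K L ∧
      ∀ a : L, ∀ V : Submodule K L, FiniteDimensional K V →
        (∀ v ∈ V, ⁅a, v⁆ ∈ V) → ∀ v ∈ V, ⁅a, v⁆ = 0 :=
  ⟨ℂ, inferInstance, VF, inferInstance, inferInstance, simple, fun a V hV h => pure a V hV h⟩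

end Pool.Agent.S02421
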