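import Pool.Statements.S02429
import Pool.Agent.H4.SwitchE

set_option autoImplicit false
open Pool Pool.MP_f0391a_al

namespace Pool.Agent.S02429

open Pool.Agent.H4.Switch
open scoped Classical

/-- exponent vector of a finite set -/
noncomputable def ind (S : Finset ℕ) : ℕ →₀ ℕ := Finsupp.indicator S (fun _ _ => 1)

lemma ind_apply (S : Finset ℕ) (i : ℕ) : ind S i = if i ∈ S then 1 else 0 := by
  unfold ind
  rw [Finsupp.indicator_apply]
  split_ifs <;> rfl

lemma ind_support (S : Finset ℕ) : (ind S).support = S := by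
  ext i
  rw [Finsupp.mem_support_iff, ind_apply]
  split_ifs with h <;> simp [h]

lemma ind_le (S : Finset ℕ) (i : ℕ) : ind S i ≤ 1 := by
  rw [ind_apply]; split_ifs <;> omega

lemma ind_of_le (s : ℕ →₀ ℕ) (h : ∀ i, s i ≤ 1) : ind s.support = s := by
  ext i
  rw [ind_apply]
  have := h i
  split_ifs with h1
  · have := Finsupp.mem_support_iff.1 h1; omega
  · exact (Finsupp.notMem_support_iff.1 h1).symm

lemma ind_sum (S : Finset ℕ) : (ind S).sum (fun _ e => e) = S.card := by
  unfold Finsupp.sum
  rw [ind_support, Finset.card_eq_sum_ones]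
  exact Finset.sum_congr rfl (fun i hi => by rw [ind_apply, if_pos hi])

/-- coefficient at a finite set -/
noncomputable def ev (f : MvPowerSeries ℕ ℚ) (S : Finset ℕ) : ℚ := MvPowerSeries.coeff (ind S) f

lemma ev_add (f g : MvPowerSeries ℕ ℚ) (S : Finset ℕ) : ev (f + g) S = ev f S + ev g S :=
  map_add _ _ _

lemma ev_smul (c : ℚ) (f : MvPowerSeries ℕ ℚ) (S : Finset ℕ) : ev (c • f) S = c * ev f S := rfl

lemma ev_mul (f g : MvPowerSeries ℕ ℚ) (S : Finset ℕ) :
    ev (f * g) S = ∑ A ∈ S.powerset, ev f A * ev g (S \ A) := by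
  unfold ev
  rw [MvPowerSeries.coeff_mul]
  symm
  refine Finset.sum_nbij' (fun A => (ind A, ind (S \ A))) (fun p => p.1.support) ?_ ?_ ?_ ?_ ?_
  · intro A hA
    rw [Finset.mem_powerset] at hA
    rw [Finset.HasAntidiagonal.mem_antidiagonal]
    ext i
    show ind A i + ind (S \ A) i = ind S i
    rw [ind_apply, ind_apply, ind_apply]
    by_cases h1 : i ∈ A
    · simp [h1, hA h1]
    · by_cases h2 : i ∈ S <;> simp [h1, h2]
  · intro p hp
    rw [Finset.HasAntidiagonal.mem_antidiagonal] at hp
    rw [Finset.mem_powerset, ← ind_support S, ← hp]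
    intro i hi
    rw [Finsupp.mem_support_iff] at hi ⊢
    show p.1 i + p.2 i ≠ 0
    omega
  · intro A _
    exact ind_support A
  · intro p hp
    rw [Finset.HasAntidiagonal.mem_antidiagonal] at hp
    have hi : ∀ i, p.1 i + p.2 i = ind S i := fun i => by rw [← hp]; rfl
    have h1 : ∀ i, p.1 i ≤ 1 := fun i => by
      have := hi i; have := ind_le S i; omega
    refine Prod.ext (ind_of_le _ h1) ?_
    ext i
    show ind (S \ p.1.support) i = p.2 i
    have h2 := hi i
    have h3 := h1 i
    rw [ind_apply] at h2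
    rw [ind_apply]
    simp only [Finset.mem_sdiff, Finsupp.mem_support_iff]
    split_ifs at h2 with h4 <;> split_ifs with h5
    · omega
    · by_contra h6
      apply h5
      refine ⟨h4, ?_⟩
      omega
    · exact absurd h5.1 h4
    · omega
  · intro A _
    rfl

/-- power series of a synthesised function -/
noncomputable def Phi (c : LG → ℚ) : MvPowerSeries ℕ ℚ :=
  fun s => if ∀ i, s i ≤ 1 then Sy c s.support else 0

lemma coeff_Phi (c : LG → ℚ) (s : ℕ →₀ ℕ) : MvPowerSeries.coeff s (Phi c) =
    if ∀ i, s i ≤ 1 then Sy c s.support else 0 := rfl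

lemma ev_Phi (c : LG → ℚ) (S : Finset ℕ) : ev (Phi c) S = Sy c S := by
  unfold ev
  rw [coeff_Phi, if_pos (ind_le S), ind_support]

lemma Sy_card {g : LG} {S : Finset ℕ} (h : Sy (del ⟦g⟧) S ≠ 0) : S.card = g.1.card := by
  obtain ⟨H, -, hH⟩ := Finset.exists_ne_zero_of_sum_ne_zero h
  have h1 : del ⟦g⟧ (S, H) ≠ 0 := left_ne_zero_of_mul hH
  have h2 : (⟦(S, H)⟧ : Q) = ⟦g⟧ := by
    by_contra hc; exact h1 (by rw [del, if_neg hc])
  obtain ⟨π, hπ⟩ := q_eq.1 h2
  rw [← hπ]
  exact (Finset.card_map _).symm

lemma map_eq (σ : Equiv.Perm ℕ) (s : ℕ →₀ ℕ) :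
    (Finsupp.equivMapDomain σ s).support = vM σ s.support := by
  ext i
  obtain ⟨i, rfl⟩ := σ.surjective i
  rw [mem_vM, Finsupp.mem_support_iff, Finsupp.mem_support_iff, Finsupp.equivMapDomain_apply,
    Equiv.symm_apply_apply]

lemma map_le (σ : Equiv.Perm ℕ) (s : ℕ →₀ ℕ) :
    (∀ i, Finsupp.equivMapDomain σ s i ≤ 1) ↔ ∀ i, s i ≤ 1 := by
  constructor
  · intro h i
    have := h (σ i)
    rwa [Finsupp.equivMapDomain_apply, Equiv.symm_apply_apply] at this
  · intro h i
    rw [Finsupp.equivMapDomain_apply]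
    exact h _

theorem result :
  ∀ K : Ideal (MvPowerSeries ℕ ℚ),
    K = Ideal.span {f : MvPowerSeries ℕ ℚ |
      ∀ s : ℕ →₀ ℕ, (∀ i, s i ≤ 1) → MvPowerSeries.coeff s f = 0} →
  ∀ T : Set (MvPowerSeries ℕ ℚ),
    T = {f : MvPowerSeries ℕ ℚ |
      (∀ σ : Equiv.Perm ℕ,
        (∃ S : Set ℕ, ∀ i j : ℕ, i ≠ j →
          ((Nat.testBit (σ j) (σ i) = true ∨ Nat.testBit (σ i) (σ j) = true) ↔
            ((Nat.testBit j i = true ∨ Nat.testBit i j = true) ↔ (i ∈ S ↔ j ∈ S)))) →
        ∀ s : ℕ →₀ ℕ,
          MvPowerSeries.coeff (Finsupp.equivMapDomain σ s) f = MvPowerSeries.coeff s f) ∧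
      ∃ N : ℕ, ∀ s : ℕ →₀ ℕ, N ≤ s.sum (fun _ e => e) → MvPowerSeries.coeff s f = 0} →
  ∃ (ι : Type) (x : ι → MvPowerSeries ℕ ℚ ⧸ K),
    (∀ i, ∃ d : ℕ, ∃ f ∈ T, Ideal.Quotient.mk K f = x i ∧
        ∀ s : ℕ →₀ ℕ, MvPowerSeries.coeff s f ≠ 0 → s.sum (fun _ e => e) = d) ∧
    AlgebraicIndependent ℚ x ∧
    Algebra.adjoin ℚ (Set.range x) = Algebra.adjoin ℚ (Ideal.Quotient.mk K '' T) := by
  intro K hK T hT
  -- description of K
  have hK1 : ∀ f, f ∈ K ↔ ∀ S, ev f S = 0 := by
    let I' : Ideal (MvPowerSeries ℕ ℚ) :=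
      { carrier := {f | ∀ S, ev f S = 0}
        add_mem' := by
          intro a b ha hb S
          rw [ev_add, ha S, hb S, add_zero]
        zero_mem' := fun S => map_zero _
        smul_mem' := by
          intro c a ha S
          show ev (c * a) S = 0
          rw [ev_mul]
          exact Finset.sum_eq_zero (fun A _ => by rw [ha, mul_zero]) }
    intro f
    constructor
    · intro hf
      have h1 : K ≤ I' := by
        rw [hK, Ideal.span_le]
        intro g hg S
        exact hg (ind S) (ind_le S)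
      exact h1 hf
    · intro hf
      rw [hK]
      apply Ideal.subset_span
      intro s hs
      rw [← ind_of_le s hs]
      exact hf _
  have hmk : ∀ f g, Ideal.Quotient.mk K f = Ideal.Quotient.mk K g ↔ ∀ S, ev f S = ev g S := by
    intro f g
    rw [Ideal.Quotient.eq, hK1]
    refine forall_congr' (fun S => ?_)
    have : ev (f - g) S = ev f S - ev g S := map_sub _ _ _
    rw [this, sub_eq_zero]
  have hsm : ∀ (c : ℚ) (f : MvPowerSeries ℕ ℚ), Ideal.Quotient.mk K (c • f) =
    c • Ideal.Quotient.mk K f := fun c f => rfl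
  -- products
  have hprod : ∀ g1 g2 : LG, Va g1 → Va g2 → Disjoint g1.1 g2.1 → ∃ k : ℚ, k ≠ 0 ∧
      Ideal.Quotient.mk K (Phi (del ⟦g1⟧)) * Ideal.Quotient.mk K (Phi (del ⟦g2⟧)) =
        k • Ideal.Quotient.mk K (Phi (del ⟦du g1 g2⟧)) := by
    intro g1 g2 v1 v2 hd
    obtain ⟨k, hk, hconv⟩ := conv_del v1 v2 hd
    refine ⟨k, hk, ?_⟩
    rw [← map_mul, ← hsm, hmk]
    intro S
    rw [ev_mul, ev_smul]
    simp only [ev_Phi]
    rw [Sy_mul]
    unfold Sy
    rw [Finset.mul_sum]
    refine Finset.sum_congr rfl (fun H hH => ?_)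
    rw [hconv (S, H) (Finset.mem_powerset.1 hH)]
    ring
  -- T
  have hTphi : ∀ g : LG, Va g → Ev g → Phi (del ⟦g⟧) ∈ T := by
    intro g hv hE
    rw [hT]
    refine ⟨?_, ?_⟩
    · intro σ hσ s
      rw [coeff_Phi, coeff_Phi, map_eq]
      simp only [map_le]
      have hG : GInv (Sy (del ⟦g⟧)) := by
        apply Sy_GInv (del_inv _)
        intro h _ hnE
        rw [del, if_neg]
        intro hq
        exact hnE (ev_of_q hq.symm hE)
      rw [hG σ hσ]
    · refine ⟨g.1.card + 1, fun s hs => ?_⟩
      rw [coeff_Phi]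
      split_ifs with h
      · by_contra hne
        have h1 := Sy_card hne
        rw [← ind_of_le s h, ind_sum, h1] at hs
        omega
      · rfl
  have hTev : ∀ f ∈ T, GInv (ev f) ∧ ∃ N, ∀ S : Finset ℕ, N ≤ S.card → ev f S = 0 := by
    intro f hf
    rw [hT] at hf
    obtain ⟨h1, N, hN⟩ := hf
    refine ⟨?_, N, fun S hS => hN _ (by rwa [ind_sum])⟩
    intro σ hσ S
    have h2 := h1 σ hσ (ind S)
    unfold ev
    rw [← h2]
    congr 2
    rw [← ind_of_le (Finsupp.equivMapDomain σ (ind S)) ((map_le σ _).2 (ind_le S)), map_eq,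
      ind_support]
  have hone : ∀ S, ev (1 : MvPowerSeries ℕ ℚ) S = Sy (del ⟦((∅ : Finset ℕ), (∅ : Finset (Sym2 ℕ)))⟧) S := by
    intro S
    by_cases hS : S = ∅
    · subst hS
      have h1 : Ed ∅ = ∅ := by
        rw [Finset.eq_empty_iff_forall_notMem]
        intro e he
        have h1 := (mem_Ed.1 he).1
        obtain ⟨v, hv'⟩ := exists_mem e
        exact Finset.notMem_empty _ (h1 v hv')
      unfold Sy
      rw [h1, Finset.powerset_empty, Finset.sum_singleton, del, if_pos rfl, one_mul]
      unfold eps ev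
      rw [Finset.prod_empty, MvPowerSeries.coeff_one, if_pos]
      ext i
      rw [ind_apply]; simp
    · have h1 : Sy (del ⟦((∅ : Finset ℕ), (∅ : Finset (Sym2 ℕ)))⟧) S = 0 := by
        by_contra hne
        have := Sy_card hne
        exact hS (Finset.card_eq_zero.1 (by rw [this]; rfl))
      rw [h1]
      unfold ev
      rw [MvPowerSeries.coeff_one, if_neg]
      intro h
      apply hS
      rw [← ind_support S, h]
      simp
  let ι : Type := {q : Q // ∃ g : LG, ⟦g⟧ = q ∧ Va g ∧ Conn g ∧ Ev g}
  let x : ι → MvPowerSeries ℕ ℚ ⧸ K := fun i => Ideal.Quotient.mk K (Phi (del i.1))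
  have hx1 : ∀ i : ι, ∃ f ∈ T, Ideal.Quotient.mk K f = x i := by
    rintro ⟨q, g, rfl, hv, hC, hE⟩
    exact ⟨_, hTphi g hv hE, rfl⟩
  refine ⟨ι, x, ?_, ?_, ?_⟩
  · rintro ⟨q, g, rfl, hv, hC, hE⟩
    refine ⟨g.1.card, _, hTphi g hv hE, rfl, fun s hs => ?_⟩
    rw [coeff_Phi] at hs
    split_ifs at hs with h
    · have h1 := Sy_card hs
      rw [← h1]
      conv_lhs => rw [← ind_of_le s h]
      exact ind_sum _
    · exact absurd rfl hs
  · -- algebraic independence
    have hxi : ∀ i : ι, x i = Ideal.Quotient.mk K (Phi (del i.1)) := fun _ => rfl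
    have mon : ∀ μ : Multiset ι, ∃ (k : ℚ) (g : LG), k ≠ 0 ∧ Va g ∧
        (∀ j : ι, cnt j.1 g = μ.count j) ∧
        (μ.map x).prod = k • Ideal.Quotient.mk K (Phi (del ⟦g⟧)) := by
      intro μ
      induction μ using Multiset.induction_on with
      | empty =>
        refine ⟨1, (∅, ∅), one_ne_zero, Finset.empty_subset _, ?_, ?_⟩
        · rintro ⟨q, g, rfl, hv, hC, hE⟩
          rw [cnt_eq]
          simp only [Finset.powerset_empty, Multiset.count_zero, Nat.cast_zero]
          apply Finset.sum_eq_zero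
          intro A hA
          rw [Finset.mem_filter, Finset.mem_singleton] at hA
          rw [del, if_neg]
          intro h
          have := (conn_of_q h.symm hC).1
          rw [hA.1] at this
          exact Finset.not_nonempty_empty this
        · rw [Multiset.map_zero, Multiset.prod_zero, one_smul, ← map_one (Ideal.Quotient.mk K), hmk]
          intro S
          rw [ev_Phi]
          exact hone S
      | cons i μ ih =>
        obtain ⟨k, g, hk, hv, hc, hp⟩ := ih
        obtain ⟨q, gi, hgi, hvi, hCi, hEi⟩ := i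
        subst hgi
        obtain ⟨g', hg', hd⟩ := exists_disj gi g
        have hv' : Va g' := va_of_q hg'.symm hv
        obtain ⟨k', hk', hpr⟩ := hprod gi g' hvi hv' hd
        refine ⟨k' * k, du gi g', mul_ne_zero hk' hk, va_du hvi hv', ?_, ?_⟩
        · rintro ⟨q, gj, hgj, hvj, hCj, hEj⟩
          subst hgj
          show cnt ⟦gj⟧ (du gi g') = _
          rw [cnt_du hCj hvi hv' hd, cnt_conn hCj hvi hCi, cnt_of_q _ hg',
            hc ⟨⟦gj⟧, gj, rfl, hvj, hCj, hEj⟩, Multiset.count_cons]
          by_cases h : (⟦gi⟧ : Q) = ⟦gj⟧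
          · rw [if_pos h, if_pos (Subtype.ext h.symm)]
            push_cast; ring
          · rw [if_neg h, if_neg (fun h' => h (congrArg Subtype.val h').symm)]
            push_cast; ring
        · rw [Multiset.map_cons, Multiset.prod_cons, hp, hxi, mul_smul_comm, ← hg', hpr, smul_smul,
            mul_comm k k']
    have mon' : ∀ m : ι →₀ ℕ, ∃ (k : ℚ) (g : LG), k ≠ 0 ∧ Va g ∧ (∀ j : ι, cnt j.1 g = m j) ∧
        ∏ i ∈ m.support, x i ^ m i = k • Ideal.Quotient.mk K (Phi (del ⟦g⟧)) := by
      intro m
      obtain ⟨k, g, hk, hv, hc, hp⟩ := mon (Finsupp.toMultiset m)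
      refine ⟨k, g, hk, hv, fun j => ?_, ?_⟩
      · rw [hc j, Finsupp.count_toMultiset]
      · rw [← hp, Finsupp.toMultiset_map, Finsupp.prod_toMultiset,
          Finsupp.prod_mapDomain_index (fun _ => pow_zero _) (fun _ _ _ => pow_add _ _ _)]
        rfl
    choose km gm hkm hvm hcm hpm using mon'
    rw [algebraicIndependent_iff]
    intro p hp
    rw [MvPolynomial.aeval_def, MvPolynomial.eval₂_eq] at hp
    have h1 : Ideal.Quotient.mk K (∑ m ∈ p.support, (p.coeff m * km m) • Phi (del ⟦gm m⟧)) =
        Ideal.Quotient.mk K 0 := by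
      rw [map_sum, map_zero, ← hp]
      refine Finset.sum_congr rfl (fun m _ => ?_)
      rw [hsm, hpm, Algebra.algebraMap_eq_smul_one, smul_mul_assoc, one_mul, smul_smul]
    rw [hmk] at h1
    have h2 : ∀ S, Sy (fun h => ∑ m ∈ p.support, (p.coeff m * km m) * del ⟦gm m⟧ h) S = 0 := by
      intro S
      have h3 := h1 S
      have h4 : ev (∑ m ∈ p.support, (p.coeff m * km m) • Phi (del ⟦gm m⟧)) S =
          ∑ m ∈ p.support, (p.coeff m * km m) * Sy (del ⟦gm m⟧) S := by
        unfold ev
        rw [map_sum]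
        refine Finset.sum_congr rfl (fun m _ => ?_)
        rw [← ev_Phi]
        rfl
      have h5 : ev (0 : MvPowerSeries ℕ ℚ) S = 0 := map_zero _
      rw [h4, h5] at h3
      rw [← h3]
      unfold Sy
      simp only [Finset.sum_mul, Finset.mul_sum]
      rw [Finset.sum_comm]
      refine Finset.sum_congr rfl (fun m _ => Finset.sum_congr rfl (fun H _ => ?_))
      ring
    have h3 : Inv (fun h => ∑ m ∈ p.support, (p.coeff m * km m) * del ⟦gm m⟧ h) := by
      intro π g
      refine Finset.sum_congr rfl (fun m _ => ?_)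
      rw [del_inv _ π g]
    ext m0
    rw [MvPolynomial.coeff_zero]
    by_contra hne
    have h4 := Sy_inj _ h3 h2 (gm m0).1 (gm m0).2 (hvm m0)
    have h5 : ∀ m ∈ p.support, (p.coeff m * km m) * del ⟦gm m⟧ ((gm m0).1, (gm m0).2) =
        if m0 = m then p.coeff m * km m else 0 := by
      intro m _
      show (p.coeff m * km m) * del ⟦gm m⟧ (gm m0) = _
      by_cases h : m0 = m
      · subst h
        rw [if_pos rfl, del, if_pos rfl, mul_one]
      · rw [if_neg h, del, if_neg, mul_zero]
        intro hq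
        apply h
        ext j
        have h6 := hcm m0 j
        rw [cnt_of_q j.1 hq, hcm m j] at h6
        exact_mod_cast h6.symm
    rw [Finset.sum_congr rfl h5, Finset.sum_ite_eq, if_pos (MvPolynomial.mem_support_iff.2 hne)] at h4
    exact mul_ne_zero hne (hkm m0) h4
  · -- generation
    have gen : ∀ n : ℕ, ∀ g : LG, g.1.card = n → Va g → Ev g →
        Ideal.Quotient.mk K (Phi (del ⟦g⟧)) ∈ Algebra.adjoin ℚ (Set.range x) := by
      intro n
      induction n using Nat.strong_induction_on with
      | _ n ih =>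
        intro g hn hv hE
        by_cases hne : g.1.Nonempty
        · obtain ⟨A, hA, hCl, hCon⟩ := exists_comp g hne hv
          have v1 : Va (A, res A g.2) := res_sub hv
          have v2 : Va (g.1 \ A, res (g.1 \ A) g.2) := res_sub hv
          have e1 : Ev (A, res A g.2) := ev_res hE hCl
          have e2 : Ev (g.1 \ A, res (g.1 \ A) g.2) := ev_res hE (cl_compl hv hCl)
          obtain ⟨k, hk, hpr⟩ := hprod _ _ v1 v2 Finset.disjoint_sdiff
          have hdu : du (A, res A g.2) (g.1 \ A, res (g.1 \ A) g.2) = g := by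
            refine Prod.ext ?_ ?_
            · show A ∪ (g.1 \ A) = g.1
              rw [Finset.union_sdiff_of_subset hA]
            · exact res_union_res hv hCl
          rw [hdu] at hpr
          have h3 : Ideal.Quotient.mk K (Phi (del ⟦g⟧)) =
              k⁻¹ • (Ideal.Quotient.mk K (Phi (del ⟦(A, res A g.2)⟧)) *
                Ideal.Quotient.mk K (Phi (del ⟦(g.1 \ A, res (g.1 \ A) g.2)⟧))) := by
            rw [hpr, smul_smul, inv_mul_cancel₀ hk, one_smul]
          rw [h3]
          refine Subalgebra.smul_mem _ (Subalgebra.mul_mem _ ?_ ?_) _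
          · exact Algebra.subset_adjoin ⟨⟨⟦(A, res A g.2)⟧, _, rfl, v1, hCon, e1⟩, rfl⟩
          · refine ih (g.1 \ A).card ?_ _ rfl v2 e2
            rw [← hn]
            exact Finset.card_lt_card (Finset.sdiff_ssubset hA hCon.1)
        · rw [Finset.not_nonempty_iff_eq_empty] at hne
          have hg2 : g.2 = ∅ := by
            rw [Finset.eq_empty_iff_forall_notMem]
            intro e he
            have h1 := (mem_Ed.1 (hv he)).1
            obtain ⟨v, hv'⟩ := exists_mem e
            have := h1 v hv'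
            rw [hne] at this
            exact Finset.notMem_empty _ this
          have hg : g = (∅, ∅) := Prod.ext hne hg2
          have h1 : Ideal.Quotient.mk K (Phi (del ⟦g⟧)) = 1 := by
            rw [← map_one (Ideal.Quotient.mk K), hmk]
            intro S
            rw [ev_Phi, hg]
            exact (hone S).symm
          rw [h1]
          exact Subalgebra.one_mem _
    apply le_antisymm
    · apply Algebra.adjoin_mono
      rintro _ ⟨i, rfl⟩
      obtain ⟨f, hf, hfx⟩ := hx1 i
      exact ⟨f, hf, hfx⟩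
    · apply Algebra.adjoin_le
      rintro _ ⟨f, hf, rfl⟩
      obtain ⟨hG, N, hN⟩ := hTev f hf
      let a : Q → ℚ := Quotient.lift (Fc (ev f)) (by
        rintro g h ⟨π, rfl⟩
        exact (Fc_inv hG π g).symm)
      let QQ : Finset Q := (Finset.range N).biUnion (fun n =>
        (Ed (Finset.range n)).powerset.image (fun H => (⟦(Finset.range n, H)⟧ : Q)))
      have hQ : ∀ g : LG, Va g → Fc (ev f) g = ∑ q ∈ QQ, a q * del q g := by
        intro g hv
        have h1 : ∀ q ∈ QQ, a q * del q g = if (⟦g⟧ : Q) = q then a q else 0 := by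
          intro q _
          unfold del
          split_ifs <;> simp
        rw [Finset.sum_congr rfl h1, Finset.sum_ite_eq]
        split_ifs with h
        · rfl
        · apply Fc_bound hN
          by_contra hlt
          push Not at hlt
          apply h
          obtain ⟨π, hπ⟩ := ext_perm g.1 (fun i => if h : i ∈ g.1 then (g.1.equivFin ⟨i, h⟩ : ℕ) else 0) (by
            intro i hi j hj hij
            rw [Finset.mem_coe] at hi hj
            dsimp only at hij
            rw [dif_pos hi, dif_pos hj] at hij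
            have := g.1.equivFin.injective (Fin.ext hij)
            exact congrArg Subtype.val this)
          have hr : vM π g.1 = Finset.range g.1.card := by
            apply Finset.eq_of_subset_of_card_le
            · intro y hy
              obtain ⟨i, hi, rfl⟩ := Finset.mem_map.1 hy
              rw [Finset.mem_range]
              show π i < _
              rw [hπ i hi, dif_pos hi]
              exact (g.1.equivFin ⟨i, hi⟩).2
            · rw [Finset.card_range]
              exact (Finset.card_map _).ge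
          rw [Finset.mem_biUnion]
          refine ⟨g.1.card, Finset.mem_range.2 hlt, ?_⟩
          rw [Finset.mem_image]
          have hvp := va_pm hv π
          refine ⟨(pm π g).2, ?_, ?_⟩
          · rw [Finset.mem_powerset, ← hr]
            exact hvp
          · rw [← hr]
            exact (q_eq.2 ⟨π, rfl⟩).symm
      have h2 : Ideal.Quotient.mk K f = ∑ q ∈ QQ, a q • Ideal.Quotient.mk K (Phi (del q)) := by
        have h3 : ∑ q ∈ QQ, a q • Ideal.Quotient.mk K (Phi (del q)) =
            Ideal.Quotient.mk K (∑ q ∈ QQ, a q • Phi (del q)) := by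
          rw [map_sum]; rfl
        rw [h3, hmk]
        intro S
        have h4 : ev (∑ q ∈ QQ, a q • Phi (del q)) S = ∑ q ∈ QQ, a q * Sy (del q) S := by
          unfold ev
          rw [map_sum]
          refine Finset.sum_congr rfl (fun m _ => ?_)
          rw [← ev_Phi]
          rfl
        rw [h4, ← Fc_sy hG S]
        unfold Sy
        simp only [Finset.mul_sum]
        rw [Finset.sum_comm]
        refine Finset.sum_congr rfl (fun H hH => ?_)
        rw [hQ (S, H) (Finset.mem_powerset.1 hH), Finset.sum_mul]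
        refine Finset.sum_congr rfl (fun q _ => ?_)
        ring
      rw [h2]
      refine Subalgebra.sum_mem _ (fun q hq => ?_)
      rw [Finset.mem_biUnion] at hq
      obtain ⟨n, -, hq⟩ := hq
      rw [Finset.mem_image] at hq
      obtain ⟨H, hH, rfl⟩ := hq
      rw [Finset.mem_powerset] at hH
      by_cases hE : Ev (Finset.range n, H)
      · exact Subalgebra.smul_mem _ (gen _ (Finset.range n, H) rfl hH hE) _
      · have h5 : a ⟦(Finset.range n, H)⟧ = 0 := Fc_even hG (Finset.range n, H) hH hE
        rw [h5, zero_smul]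
        exact Subalgebra.zero_mem _

end Pool.Agent.S02429
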