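import Pool.Statements.S02476

set_option autoImplicit false
open Pool Pool.MP_f52e03_al

namespace Pool.Agent.S02476

open Order

/-- labelled edges: `(s, x, y)` means that the generator `s` maps `x` to `y` -/
abbrev Gr : Type := Finset (ℕ × ℕ × ℕ)

/-- one step along a letter -/
def step (Γ : Gr) (l : ℕ × Bool) (x y : ℕ) : Prop :=
  if l.2 = true then (l.1, x, y) ∈ Γ else (l.1, y, x) ∈ Γ

/-- the inverse letter -/
def inv (l : ℕ × Bool) : ℕ × Bool := (l.1, !l.2)

lemma inv_inv' (l : ℕ × Bool) : inv (inv l) = l := by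
  obtain ⟨s, b⟩ := l
  simp [inv]

lemma step_inv (Γ : Gr) (l : ℕ × Bool) (x y : ℕ) : step Γ (inv l) x y ↔ step Γ l y x := by
  obtain ⟨s, b⟩ := l
  cases b <;> simp [step, inv]

/-- all generators act as partial injections -/
def PInj (Γ : Gr) : Prop := ∀ l x y x' y', step Γ l x y → step Γ l x' y' → (x = x' ↔ y = y')

/-- a letter maps a set onto a set -/
def stepS (Γ : Gr) (l : ℕ × Bool) (C D : Finset ℕ) : Prop :=
  (∀ x ∈ C, ∃ y ∈ D, step Γ l x y) ∧ (∀ y ∈ D, ∃ x ∈ C, step Γ l x y)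

/-- a word maps a set onto a set -/
def runS (Γ : Gr) : List (ℕ × Bool) → Finset ℕ → Finset ℕ → Prop
  | [], C, D => C = D
  | l :: w, C, D => ∃ E, runS Γ w C E ∧ stepS Γ l E D

lemma stepS_inv {Γ : Gr} {l : ℕ × Bool} {C D : Finset ℕ} : stepS Γ (inv l) C D ↔ stepS Γ l D C := by
  unfold stepS
  simp only [step_inv]
  exact And.comm

lemma stepS_card {Γ : Gr} (hP : PInj Γ) {l : ℕ × Bool} {C D : Finset ℕ} (h : stepS Γ l C D) :
    C.card = D.card := by
  have key : ∀ (l : ℕ × Bool) (C D : Finset ℕ), stepS Γ l C D → C.card ≤ D.card := by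
    intro l C D h
    choose! f hf using h.1
    refine Finset.card_le_card_of_injOn f (fun x hx => (hf x hx).1) ?_
    intro x hx x' hx' hxx
    exact (hP l x (f x) x' (f x') (hf x hx).2 (hf x' hx').2).2 hxx
  exact le_antisymm (key l C D h) (key (inv l) D C (stepS_inv.2 h))

lemma runS_card {Γ : Gr} (hP : PInj Γ) {w : List (ℕ × Bool)} {C D : Finset ℕ}
    (h : runS Γ w C D) : C.card = D.card := by
  induction w generalizing D with
  | nil => rw [show C = D from h]
  | cons l w ih =>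
    obtain ⟨E, h1, h2⟩ := h
    exact (ih h1).trans (stepS_card hP h2)

lemma stepS_unique {Γ : Gr} (hP : PInj Γ) {l : ℕ × Bool} {C D D' : Finset ℕ}
    (h : stepS Γ l C D) (h' : stepS Γ l C D') : D = D' := by
  ext y
  constructor
  · intro hy
    obtain ⟨x, hx, hxy⟩ := h.2 y hy
    obtain ⟨y', hy', hxy'⟩ := h'.1 x hx
    rwa [(hP l x y x y' hxy hxy').1 rfl]
  · intro hy
    obtain ⟨x, hx, hxy⟩ := h'.2 y hy
    obtain ⟨y', hy', hxy'⟩ := h.1 x hx
    rwa [(hP l x y x y' hxy hxy').1 rfl]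

lemma runS_append {Γ : Gr} {u v : List (ℕ × Bool)} {C D : Finset ℕ} :
    runS Γ (u ++ v) C D ↔ ∃ E, runS Γ v C E ∧ runS Γ u E D := by
  induction u generalizing D with
  | nil =>
    constructor
    · intro h; exact ⟨D, h, rfl⟩
    · rintro ⟨E, h, rfl⟩; exact h
  | cons l u ih =>
    constructor
    · rintro ⟨E, h1, h2⟩
      obtain ⟨E', h3, h4⟩ := ih.1 h1
      exact ⟨E', h3, E, h4, h2⟩
    · rintro ⟨E, h1, E', h2, h3⟩
      exact ⟨E', ih.2 ⟨E, h1, h2⟩, h3⟩

lemma runS_single {Γ : Gr} {l : ℕ × Bool} {C D : Finset ℕ} : runS Γ [l] C D ↔ stepS Γ l C D := by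
  constructor
  · rintro ⟨E, h, h'⟩
    rwa [show C = E from h]
  · intro h
    exact ⟨C, rfl, h⟩

/-- existence of an inverse word -/
lemma runS_inv {Γ : Gr} {w : List (ℕ × Bool)} {C D : Finset ℕ} (h : runS Γ w C D) :
    ∃ w', runS Γ w' D C := by
  induction w generalizing D with
  | nil => exact ⟨[], (show C = D from h).symm⟩
  | cons l w ih =>
    obtain ⟨E, h1, h2⟩ := h
    obtain ⟨w', hw'⟩ := ih h1
    exact ⟨w' ++ [inv l], runS_append.2 ⟨E, runS_single.2 (stepS_inv.2 h2), hw'⟩⟩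

/-- no nonempty reduced word stabilises a `t`-subset -/
def Star (t : ℕ) (Γ : Gr) : Prop :=
  ∀ w : List (ℕ × Bool), w ≠ [] → FreeGroup.IsReduced w → ∀ C : Finset ℕ, C.card = t → ¬ runS Γ w C C

lemma red_cons {a b : ℕ × Bool} {w : List (ℕ × Bool)} (h : FreeGroup.IsReduced (a :: b :: w)) :
    a ≠ inv b := by
  rintro rfl
  have h1 := (List.isChain_cons_cons.1 h).1 rfl
  simp [inv] at h1

lemma red_tail {a : ℕ × Bool} {w : List (ℕ × Bool)} (h : FreeGroup.IsReduced (a :: w)) :
    FreeGroup.IsReduced w := List.IsChain.tail h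

lemma red_left {u v : List (ℕ × Bool)} (h : FreeGroup.IsReduced (u ++ v)) :
    FreeGroup.IsReduced u := List.IsChain.left_of_append h

lemma red_right {u v : List (ℕ × Bool)} (h : FreeGroup.IsReduced (u ++ v)) :
    FreeGroup.IsReduced v := List.IsChain.right_of_append h

section leaf

variable {t : ℕ} {Γ Γ' : Gr} {lf : ℕ × Bool} {x y : ℕ}

lemma leaf_aux (hfr : ∀ l a b, step Γ l a b → a ≠ y ∧ b ≠ y) (hxy : x ≠ y)
    (hstep : ∀ l a b, step Γ' l a b ↔ step Γ l a b ∨ (l = lf ∧ a = x ∧ b = y) ∨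
      (l = inv lf ∧ a = y ∧ b = x))
    (w : List (ℕ × Bool)) (hw : FreeGroup.IsReduced w) (C D : Finset ℕ) (hC : y ∉ C) (hD : y ∉ D)
    (h : runS Γ' w C D) : runS Γ w C D := by
  have hin : ∀ l a, step Γ' l a y → l = lf := by
    intro l a h
    rcases (hstep l a y).1 h with h | h | h
    · exact absurd rfl (hfr _ _ _ h).2
    · exact h.1
    · exact absurd h.2.2.symm hxy
  have hout : ∀ l a, step Γ' l y a → l = inv lf := by
    intro l a h
    rcases (hstep l y a).1 h with h | h | h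
    · exact absurd rfl (hfr _ _ _ h).1
    · exact absurd h.2.1.symm hxy
    · exact h.1
  induction w generalizing D with
  | nil => exact h
  | cons l w ih =>
    obtain ⟨E, h1, h2⟩ := h
    by_cases hE : y ∈ E
    · exfalso
      obtain ⟨z, hz, hz'⟩ := h2.1 y hE
      have hl := hout _ _ hz'
      cases w with
      | nil =>
        rw [show C = E from h1] at hC
        exact hC hE
      | cons l2 w =>
        obtain ⟨E', h3, h4⟩ := h1
        obtain ⟨z', hz1, hz2⟩ := h4.2 y hE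
        have hl2 := hin _ _ hz2
        apply red_cons hw
        rw [hl, hl2]
    · refine ⟨E, ih (red_tail hw) E hE h1, ?_, ?_⟩
      · intro a ha
        obtain ⟨b, hb, hab⟩ := h2.1 a ha
        refine ⟨b, hb, ?_⟩
        rcases (hstep l a b).1 hab with h | h | h
        · exact h
        · exact absurd (h.2.2 ▸ hb) hD
        · exact absurd (h.2.1 ▸ ha) hE
      · intro b hb
        obtain ⟨a, ha, hab⟩ := h2.2 b hb
        refine ⟨a, ha, ?_⟩
        rcases (hstep l a b).1 hab with h | h | h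
        · exact h
        · exact absurd (h.2.2 ▸ hb) hD
        · exact absurd (h.2.1 ▸ ha) hE

lemma leaf_star (hP' : PInj Γ') (hS : Star t Γ)
    (hfr : ∀ l a b, step Γ l a b → a ≠ y ∧ b ≠ y) (hxy : x ≠ y)
    (hstep : ∀ l a b, step Γ' l a b ↔ step Γ l a b ∨ (l = lf ∧ a = x ∧ b = y) ∨
      (l = inv lf ∧ a = y ∧ b = x)) : Star t Γ' := by
  have hin : ∀ l a, step Γ' l a y → l = lf := by
    intro l a h
    rcases (hstep l a y).1 h with h | h | h
    · exact absurd rfl (hfr _ _ _ h).2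
    · exact h.1
    · exact absurd h.2.2.symm hxy
  have hout : ∀ l a, step Γ' l y a → l = inv lf := by
    intro l a h
    rcases (hstep l y a).1 h with h | h | h
    · exact absurd rfl (hfr _ _ _ h).1
    · exact absurd h.2.1.symm hxy
    · exact h.1
  intro w
  induction hn : w.length using Nat.strong_induction_on generalizing w with
  | _ n ih =>
    intro hne hred C hC hrun
    by_cases hyC : y ∈ C
    · -- head and last letters are inverse
      cases w with
      | nil => exact hne rfl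
      | cons l w =>
        obtain ⟨E, h1, h2⟩ := hrun
        obtain ⟨z, hz, hz'⟩ := h2.2 y hyC
        have hl := hin _ _ hz'
        rcases List.eq_nil_or_concat w with rfl | ⟨w2, l', rfl⟩
        · rw [← show C = E from h1] at h2
          obtain ⟨z2, hz2, hz2'⟩ := h2.1 y hyC
          have hl' := hout _ _ hz2'
          rw [hl] at hl'
          have := congrArg Prod.snd hl'
          simp [inv] at this
        · rw [List.concat_eq_append] at h1 hred hn
          obtain ⟨E1, h3, h4⟩ := runS_append.1 h1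
          rw [runS_single] at h3
          obtain ⟨z2, hz2, hz2'⟩ := h3.1 y hyC
          have hl' := hout _ _ hz2'
          -- `l' = inv l`
          have hll : l' = inv l := by rw [hl', hl]
          rw [hll, stepS_inv] at h3
          -- h3 : stepS Γ' l E1 C, h2 : stepS Γ' l E C
          have hEE : E1 = E := stepS_unique hP' (stepS_inv.2 h3) (stepS_inv.2 h2)
          subst hEE
          have hw2 : w2 ≠ [] := by
            rintro rfl
            apply red_cons hred
            rw [hll, inv_inv']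
          refine ih w2.length ?_ w2 rfl hw2 (red_left (red_tail hred)) E1 ?_ h4
          · rw [← hn]; simp
          · rw [← hC]; exact stepS_card hP' h2
    · exact hS w hne hred C hC (leaf_aux hfr hxy hstep w hred C C hyC hyC hrun)

end leaf

section newgen

variable {t : ℕ} {Γ Γ' : Gr} {s : ℕ} {A B : Finset ℕ}

lemma old_run (hstep : ∀ l a b, l.1 ≠ s → (step Γ' l a b ↔ step Γ l a b))
    (w : List (ℕ × Bool)) (hw : ∀ l ∈ w, l.1 ≠ s) (C D : Finset ℕ) (h : runS Γ' w C D) :
    runS Γ w C D := by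
  induction w generalizing D with
  | nil => exact h
  | cons l w ih =>
    obtain ⟨E, h1, h2⟩ := h
    have hl := hw l (by simp)
    refine ⟨E, ih (fun l' hl' => hw l' (by simp [hl'])) E h1, ?_, ?_⟩
    · intro a ha
      obtain ⟨b, hb, hab⟩ := h2.1 a ha
      exact ⟨b, hb, (hstep l a b hl).1 hab⟩
    · intro b hb
      obtain ⟨a, ha, hab⟩ := h2.2 b hb
      exact ⟨a, ha, (hstep l a b hl).1 hab⟩

lemma new_one (hP' : PInj Γ') (hS : Star t Γ)
    (hstep : ∀ l a b, l.1 ≠ s → (step Γ' l a b ↔ step Γ l a b))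
    (hnew : ∀ C D : Finset ℕ, C.card = t → stepS Γ' (s, true) C D → C = A ∧ D = B)
    (hA : A.card = t) (hB : B.card = t)
    (hno : ∀ w, ¬ runS Γ w A B)
    (w : List (ℕ × Bool)) (hw : FreeGroup.IsReduced w) (C D : Finset ℕ) (hC : C.card = t)
    (h : runS Γ' w C D) : (∀ l ∈ w, l.1 ≠ s) ∨ ∃ u v e, w = u ++ (s, e) :: v ∧
      (∀ l ∈ u, l.1 ≠ s) ∧ (∀ l ∈ v, l.1 ≠ s) := by
  have hno' : ∀ w, ¬ runS Γ w B A := by
    intro w h
    obtain ⟨w', hw'⟩ := runS_inv h
    exact hno w' hw'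
  have hnew' : ∀ C D : Finset ℕ, C.card = t → stepS Γ' (s, false) C D → C = B ∧ D = A := by
    intro C D hC h
    have h1 : stepS Γ' (s, true) D C := stepS_inv.1 h
    have := hnew D C ((stepS_card hP' h1).trans hC) h1
    exact ⟨this.2, this.1⟩
  induction w generalizing D with
  | nil => left; simp
  | cons l w ih =>
    obtain ⟨E, h1, h2⟩ := h
    have hEt : E.card = t := (runS_card hP' h1).symm.trans hC
    by_cases hl : l.1 = s
    · rcases ih (red_tail hw) E h1 with hold | ⟨u, v, e, rfl, hu, hv⟩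
      · right
        refine ⟨[], w, l.2, ?_, by simp, hold⟩
        rw [← hl]; rfl
      · exfalso
        obtain ⟨E1, h3, h4⟩ := runS_append.1 h1
        obtain ⟨E0, h5, h6⟩ := h3
        have hE0 : E0.card = t := (runS_card hP' h5).symm.trans hC
        have h7 := old_run hstep u hu _ _ h4
        have hured : FreeGroup.IsReduced u := red_left (red_tail hw)
        have key : ∀ X : Finset ℕ, X.card = t → runS Γ u X X → u = [] := by
          intro X hX hr
          by_contra hne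
          exact hS u hne hured X hX hr
        obtain ⟨l1, l2⟩ := l
        have hl' : l1 = s := hl
        subst hl'
        have hadj : u = [] → l2 ≠ !e := by
          rintro rfl h
          apply red_cons hw
          rw [h]; rfl
        cases e with
        | true =>
          obtain ⟨-, rfl⟩ := hnew _ _ hE0 h6
          cases l2 with
          | true =>
            obtain ⟨rfl, -⟩ := hnew _ _ hEt h2
            exact hno' u h7
          | false =>
            obtain ⟨rfl, -⟩ := hnew' _ _ hEt h2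
            exact hadj (key _ hB h7) rfl
        | false =>
          obtain ⟨-, rfl⟩ := hnew' _ _ hE0 h6
          cases l2 with
          | true =>
            obtain ⟨rfl, -⟩ := hnew _ _ hEt h2
            exact hadj (key _ hA h7) rfl
          | false =>
            obtain ⟨rfl, -⟩ := hnew' _ _ hEt h2
            exact hno u h7
    · rcases ih (red_tail hw) E h1 with hold | ⟨u, v, e, rfl, hu, hv⟩
      · left
        intro l' hl'
        rcases List.mem_cons.1 hl' with rfl | h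
        · exact hl
        · exact hold l' h
      · right
        refine ⟨l :: u, v, e, rfl, ?_, hv⟩
        intro l' hl'
        rcases List.mem_cons.1 hl' with rfl | h
        · exact hl
        · exact hu l' h

lemma new_star (hP' : PInj Γ') (hS : Star t Γ)
    (hstep : ∀ l a b, l.1 ≠ s → (step Γ' l a b ↔ step Γ l a b))
    (hnew : ∀ C D : Finset ℕ, C.card = t → stepS Γ' (s, true) C D → C = A ∧ D = B)
    (hA : A.card = t) (hB : B.card = t)
    (hno : ∀ w, ¬ runS Γ w A B) : Star t Γ' := by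
  have hno' : ∀ w, ¬ runS Γ w B A := by
    intro w h
    obtain ⟨w', hw'⟩ := runS_inv h
    exact hno w' hw'
  have hnew' : ∀ C D : Finset ℕ, C.card = t → stepS Γ' (s, false) C D → C = B ∧ D = A := by
    intro C D hC h
    have h1 : stepS Γ' (s, true) D C := stepS_inv.1 h
    have := hnew D C ((stepS_card hP' h1).trans hC) h1
    exact ⟨this.2, this.1⟩
  intro w hne hred C hC hrun
  rcases new_one hP' hS hstep hnew hA hB hno w hred C C hC hrun with hold | ⟨u, v, e, rfl, hu, hv⟩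
  · exact hS w hne hred C hC (old_run hstep w hold C C hrun)
  · obtain ⟨E1, h3, h4⟩ := runS_append.1 hrun
    obtain ⟨E0, h5, h6⟩ := h3
    have hE0 : E0.card = t := (runS_card hP' h5).symm.trans hC
    have h7 := old_run hstep u hu _ _ h4
    have h8 := old_run hstep v hv _ _ h5
    have h9 : runS Γ (v ++ u) E1 E0 := runS_append.2 ⟨C, h7, h8⟩
    cases e with
    | true =>
      obtain ⟨rfl, rfl⟩ := hnew _ _ hE0 h6
      exact hno' _ h9
    | false =>
      obtain ⟨rfl, rfl⟩ := hnew' _ _ hE0 h6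
      exact hno _ h9

end newgen

/-- the forcing conditions -/
def PP (t : ℕ) : Type := {Γ : Gr // PInj Γ ∧ Star t Γ}

instance (t : ℕ) : Preorder (PP t) := Subtype.preorder _

lemma step_mono {Γ Γ' : Gr} (h : Γ ⊆ Γ') {l : ℕ × Bool} {x y : ℕ} (hs : step Γ l x y) :
    step Γ' l x y := by
  obtain ⟨s, b⟩ := l
  cases b
  · exact h hs
  · exact h hs

lemma stepS_mono {Γ Γ' : Gr} (h : Γ ⊆ Γ') {l : ℕ × Bool} {C D : Finset ℕ} (hs : stepS Γ l C D) :
    stepS Γ' l C D :=
  ⟨fun x hx => (hs.1 x hx).imp (fun _ h1 => ⟨h1.1, step_mono h h1.2⟩),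
    fun x hx => (hs.2 x hx).imp (fun _ h1 => ⟨h1.1, step_mono h h1.2⟩)⟩

lemma runS_mono {Γ Γ' : Gr} (h : Γ ⊆ Γ') {w : List (ℕ × Bool)} {C D : Finset ℕ}
    (hs : runS Γ w C D) : runS Γ' w C D := by
  induction w generalizing D with
  | nil => exact hs
  | cons l w ih =>
    obtain ⟨E, h1, h2⟩ := hs
    exact ⟨E, ih h1, stepS_mono h h2⟩

/-- the edge added for a letter -/
def edge (l : ℕ × Bool) (x y : ℕ) : ℕ × ℕ × ℕ := if l.2 = true then (l.1, x, y) else (l.1, y, x)

lemma step_insert (Γ : Gr) (lf l : ℕ × Bool) (x y a b : ℕ) :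
    step (insert (edge lf x y) Γ) l a b ↔ step Γ l a b ∨ (l = lf ∧ a = x ∧ b = y) ∨
      (l = inv lf ∧ a = y ∧ b = x) := by
  obtain ⟨s, e⟩ := l
  obtain ⟨s', e'⟩ := lf
  cases e <;> cases e' <;> simp [step, edge, inv] <;> tauto

/-- fresh vertices and labels -/
lemma exists_fresh (Γ : Gr) (F : Finset ℕ) : ∃ N : ℕ, N ∉ F ∧ (∀ l a b, step Γ l a b → a ≠ N ∧ b ≠ N ∧
    l.1 ≠ N) := by
  let V : Finset ℕ := Γ.image (fun p => p.1) ∪ Γ.image (fun p => p.2.1) ∪
    Γ.image (fun p => p.2.2) ∪ F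
  obtain ⟨N, hN⟩ := Infinite.exists_notMem_finset V
  have hmem : ∀ s a b, (s, a, b) ∈ Γ → s ∈ V ∧ a ∈ V ∧ b ∈ V := by
    intro s a b h
    refine ⟨?_, ?_, ?_⟩
    · simp only [V, Finset.mem_union, Finset.mem_image]
      exact Or.inl (Or.inl (Or.inl ⟨_, h, rfl⟩))
    · simp only [V, Finset.mem_union, Finset.mem_image]
      exact Or.inl (Or.inl (Or.inr ⟨_, h, rfl⟩))
    · simp only [V, Finset.mem_union, Finset.mem_image]
      exact Or.inl (Or.inr ⟨_, h, rfl⟩)
  refine ⟨N, fun h => hN (by simp only [V, Finset.mem_union]; exact Or.inr h), ?_⟩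
  rintro ⟨s, e⟩ a b h
  cases e with
  | true =>
    obtain ⟨h1, h2, h3⟩ := hmem s a b h
    exact ⟨fun e => hN (e ▸ h2), fun e => hN (e ▸ h3), fun e => hN (e ▸ h1)⟩
  | false =>
    obtain ⟨h1, h2, h3⟩ := hmem s b a h
    exact ⟨fun e => hN (e ▸ h3), fun e => hN (e ▸ h2), fun e => hN (e ▸ h1)⟩

lemma exists_step (t : ℕ) (Γ : PP t) (l : ℕ × Bool) (x : ℕ) :
    ∃ Γ' : PP t, (∃ y, step Γ'.1 l x y) ∧ Γ ≤ Γ' := by
  by_cases h : ∃ y, step Γ.1 l x y
  · exact ⟨Γ, h, le_rfl⟩
  obtain ⟨y, hyF, hy⟩ := exists_fresh Γ.1 {x}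
  have hxy : x ≠ y := fun e => hyF (by rw [e]; simp)
  have hst := step_insert Γ.1 l
  have hP' : PInj (insert (edge l x y) Γ.1) := by
    have hl : l ≠ inv l := by
      intro e
      have := congrArg Prod.snd e
      simp [inv] at this
    have hnx : ∀ b, ¬ step Γ.1 l x b := fun b hb => h ⟨b, hb⟩
    have hnx' : ∀ b, ¬ step Γ.1 (inv l) b x := fun b hb => h ⟨b, (step_inv _ _ _ _).1 hb⟩
    intro l' a b a' b' h1 h2
    rw [hst] at h1 h2
    rcases h1 with h1 | ⟨rfl, rfl, rfl⟩ | ⟨rfl, rfl, rfl⟩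
    · rcases h2 with h2 | ⟨rfl, rfl, rfl⟩ | ⟨rfl, rfl, rfl⟩
      · exact Γ.2.1 l' a b a' b' h1 h2
      · constructor
        · rintro rfl; exact absurd h1 (hnx _)
        · rintro rfl; exact absurd rfl (hy _ _ _ h1).2.1
      · constructor
        · rintro rfl; exact absurd rfl (hy _ _ _ h1).1
        · rintro rfl; exact absurd h1 (hnx' _)
    · rcases h2 with h2 | ⟨_, rfl, rfl⟩ | ⟨h3, _, _⟩
      · constructor
        · rintro rfl; exact absurd h2 (hnx _)
        · rintro rfl; exact absurd rfl (hy _ _ _ h2).2.1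
      · exact ⟨fun _ => rfl, fun _ => rfl⟩
      · exact absurd h3 hl
    · rcases h2 with h2 | ⟨h3, _, _⟩ | ⟨_, rfl, rfl⟩
      · constructor
        · rintro rfl; exact absurd rfl (hy _ _ _ h2).1
        · rintro rfl; exact absurd h2 (hnx' _)
      · exact absurd h3.symm hl
      · exact ⟨fun _ => rfl, fun _ => rfl⟩
  refine ⟨⟨insert (edge l x y) Γ.1, hP', leaf_star hP' Γ.2.2 (fun l a b h => ⟨(hy l a b h).1,
    (hy l a b h).2.1⟩) hxy (fun l' a b => hst l' x y a b)⟩, ⟨y, ?_⟩, Finset.subset_insert _ _⟩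
  exact (hst l x y x y).2 (Or.inr (Or.inl ⟨rfl, rfl, rfl⟩))

lemma exists_word (t : ℕ) (Γ : PP t) (A B : Finset ℕ) (hA : A.card = t) (hB : B.card = t) :
    ∃ Γ' : PP t, (∃ w, runS Γ'.1 w A B) ∧ Γ ≤ Γ' := by
  by_cases h : ∃ w, runS Γ.1 w A B
  · exact ⟨Γ, h, le_rfl⟩
  obtain ⟨s, -, hs⟩ := exists_fresh Γ.1 ∅
  let e : {x // x ∈ A} ≃ {x // x ∈ B} := Finset.equivOfCardEq (hA.trans hB.symm)
  let N : Gr := A.attach.image (fun a : {x // x ∈ A} => (s, (a : ℕ), (e a : ℕ)))
  have hN : ∀ s' a b, (s', a, b) ∈ N ↔ s' = s ∧ ∃ ha : a ∈ A, b = e ⟨a, ha⟩ := by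
    intro s' a b
    simp only [N, Finset.mem_image, Finset.mem_attach, true_and]
    constructor
    · rintro ⟨⟨a', ha'⟩, h⟩
      have h1 := congrArg Prod.fst h
      have h2 := congrArg (fun p => p.2.1) h
      have h3 := congrArg (fun p => p.2.2) h
      dsimp only at h1 h2 h3
      subst h2
      exact ⟨h1.symm, ha', h3.symm⟩
    · rintro ⟨rfl, ha, rfl⟩
      exact ⟨⟨a, ha⟩, rfl⟩
  have hfr : ∀ a b, (s, a, b) ∉ Γ.1 := fun a b h => (hs (s, true) a b h).2.2 rfl
  have hst1 : ∀ l a b, l.1 ≠ s → (step (Γ.1 ∪ N) l a b ↔ step Γ.1 l a b) := by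
    rintro ⟨s', c⟩ a b hne
    have hne' : s' ≠ s := hne
    cases c <;> simp [step, hN, hne']
  have hst2 : ∀ a b, step (Γ.1 ∪ N) (s, true) a b ↔ ∃ ha : a ∈ A, b = e ⟨a, ha⟩ := by
    intro a b
    simp [step, hN, hfr]
  have hP' : PInj (Γ.1 ∪ N) := by
    have hPs : ∀ x y x' y', step (Γ.1 ∪ N) (s, true) x y → step (Γ.1 ∪ N) (s, true) x' y' →
        (x = x' ↔ y = y') := by
      intro x y x' y' h1 h2
      rw [hst2] at h1 h2
      obtain ⟨ha, rfl⟩ := h1
      obtain ⟨ha', rfl⟩ := h2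
      constructor
      · rintro rfl; rfl
      · intro h
        have := e.injective (Subtype.ext h)
        exact congrArg Subtype.val this
    intro l x y x' y' h1 h2
    by_cases hl : l.1 = s
    · obtain ⟨l1, l2⟩ := l
      have hl' : l1 = s := hl
      subst hl'
      cases l2 with
      | true => exact hPs x y x' y' h1 h2
      | false =>
        have e1 : step (Γ.1 ∪ N) (inv (l1, true)) x y := h1
        have e2 : step (Γ.1 ∪ N) (inv (l1, true)) x' y' := h2
        rw [step_inv] at e1 e2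
        exact (hPs y x y' x' e1 e2).symm
    · exact Γ.2.1 l x y x' y' ((hst1 l x y hl).1 h1) ((hst1 l x' y' hl).1 h2)
  have hnew : ∀ C D : Finset ℕ, C.card = t → stepS (Γ.1 ∪ N) (s, true) C D → C = A ∧ D = B := by
    intro C D hC hCD
    constructor
    · apply Finset.eq_of_subset_of_card_le
      · intro x hx
        obtain ⟨y, _, hxy⟩ := hCD.1 x hx
        exact ((hst2 x y).1 hxy).1
      · rw [hA, hC]
    · apply Finset.eq_of_subset_of_card_le
      · intro y hy
        obtain ⟨x, _, hxy⟩ := hCD.2 y hy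
        obtain ⟨hx, rfl⟩ := (hst2 x y).1 hxy
        exact (e ⟨x, hx⟩).2
      · rw [hB, ← stepS_card hP' hCD, hC]
  refine ⟨⟨Γ.1 ∪ N, hP', new_star hP' Γ.2.2 hst1 hnew hA hB (fun w hw => h ⟨w, hw⟩)⟩,
    ⟨[(s, true)], runS_single.2 ⟨?_, ?_⟩⟩, Finset.subset_union_left⟩
  · intro x hx
    exact ⟨e ⟨x, hx⟩, (e ⟨x, hx⟩).2, (hst2 _ _).2 ⟨hx, rfl⟩⟩
  · intro y hy
    refine ⟨e.symm ⟨y, hy⟩, (e.symm ⟨y, hy⟩).2, (hst2 _ _).2 ⟨(e.symm ⟨y, hy⟩).2, ?_⟩⟩
    simp

lemma star_empty {t : ℕ} (ht : 0 < t) : Star t ∅ := by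
  have hP : PInj ∅ := by
    intro l x y x' y' h
    exfalso
    obtain ⟨s, e⟩ := l
    cases e <;> simp [step] at h
  intro w hne _ C hC hrun
  cases w with
  | nil => exact hne rfl
  | cons l w =>
    obtain ⟨E, h1, h2⟩ := hrun
    have hC0 : C.Nonempty := Finset.card_pos.1 (by omega)
    obtain ⟨y, hy⟩ := hC0
    obtain ⟨x, _, hx⟩ := h2.2 y hy
    obtain ⟨s, e⟩ := l
    cases e <;> simp [step] at hx

lemma pinj_empty : PInj ∅ := by
  intro l x y x' y' h
  exfalso
  obtain ⟨s, e⟩ := l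
  cases e <;> simp [step] at h

theorem exists_group (t : ℕ) (ht : 0 < t) : ∃ G : Subgroup (Equiv.Perm ℕ),
    ∀ A B : Finset ℕ, A.card = t → B.card = t →
      ∃! g : G, A.map (Equiv.toEmbedding (g : Equiv.Perm ℕ)) = B := by
  let D : (((ℕ × Bool) × ℕ) ⊕ ({A : Finset ℕ // A.card = t} × {A : Finset ℕ // A.card = t})) →
      Cofinal (PP t) := fun p => Sum.recOn p
    (fun q => { carrier := {Γ | ∃ y, step Γ.1 q.1 q.2 y}
                isCofinal := fun Γ => exists_step t Γ q.1 q.2 })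
    (fun q => { carrier := {Γ | ∃ w, runS Γ.1 w q.1.1 q.2.1}
                isCofinal := fun Γ => exists_word t Γ q.1.1 q.2.1 q.1.2 q.2.2 })
  let p0 : PP t := ⟨∅, pinj_empty, star_empty ht⟩
  let I : Ideal (PP t) := idealOfCofinals p0 D
  have hdir : ∀ f ∈ I, ∀ g ∈ I, ∃ k ∈ I, f ≤ k ∧ g ≤ k := fun f hf g hg => I.directed f hf g hg
  have hex : ∀ l x, ∃ y, ∃ Γ ∈ I, step Γ.1 l x y := by
    intro l x
    obtain ⟨Γ, ⟨y, hy⟩, hΓ⟩ := cofinal_meets_idealOfCofinals p0 D (Sum.inl (l, x))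
    exact ⟨y, Γ, hΓ, hy⟩
  choose act hact using hex
  have huniq : ∀ l x y x' y', (∃ Γ ∈ I, step Γ.1 l x y) → (∃ Γ ∈ I, step Γ.1 l x' y') →
      (x = x' ↔ y = y') := by
    rintro l x y x' y' ⟨Γ1, h1, h2⟩ ⟨Γ2, h3, h4⟩
    obtain ⟨k, -, hk1, hk2⟩ := hdir Γ1 h1 Γ2 h3
    exact k.2.1 l x y x' y' (step_mono hk1 h2) (step_mono hk2 h4)
  have hinv : ∀ l x, act (inv l) (act l x) = x := by
    intro l x
    obtain ⟨Γ, h1, h2⟩ := hact (inv l) (act l x)
    exact ((huniq l _ _ _ _ (hact l x) ⟨Γ, h1, (step_inv _ _ _ _).1 h2⟩).2 rfl).symm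
  let σ : ℕ → Equiv.Perm ℕ := fun s =>
    { toFun := act (s, true)
      invFun := act (s, false)
      left_inv := hinv (s, true)
      right_inv := hinv (s, false) }
  let a : ℕ × Bool → Equiv.Perm ℕ := fun x => cond x.2 (σ x.1) (σ x.1)⁻¹
  have ha : ∀ l x, a l x = act l x := by
    rintro ⟨s, e⟩ x
    cases e <;> rfl
  -- words act as in the generic graph
  have hrun1 : ∀ Γ ∈ I, ∀ (w : List (ℕ × Bool)) (C E : Finset ℕ), runS Γ.1 w C E →
      C.map (Equiv.toEmbedding (w.map a).prod) = E := by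
    intro Γ hΓ w C
    induction w with
    | nil =>
      intro E h
      rw [← show C = E from h]
      ext x
      simp only [List.map_nil, List.prod_nil, Finset.mem_map_equiv]
      exact Iff.rfl
    | cons l w ih =>
      rintro E ⟨E', h1, h2⟩
      have h3 := ih E' h1
      have h4 : C.map (Equiv.toEmbedding ((l :: w).map a).prod) = E'.map (Equiv.toEmbedding (a l)) := by
        rw [← h3, Finset.map_map]
        rfl
      rw [h4]
      ext y
      rw [Finset.mem_map]
      constructor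
      · rintro ⟨x, hx, rfl⟩
        obtain ⟨y, hy, hxy⟩ := h2.1 x hx
        have : y = act l x := (huniq l x y x _ ⟨Γ, hΓ, hxy⟩ (hact l x)).1 rfl
        show a l x ∈ E
        rw [ha, ← this]
        exact hy
      · intro hy
        obtain ⟨x, hx, hxy⟩ := h2.2 y hy
        refine ⟨x, hx, ?_⟩
        show a l x = y
        rw [ha]
        exact (huniq l x _ x y (hact l x) ⟨Γ, hΓ, hxy⟩).1 rfl
  have hfin : ∀ (l : ℕ × Bool) (C : Finset ℕ), ∃ Γ ∈ I, ∀ x ∈ C, step Γ.1 l x (act l x) := by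
    intro l C
    induction C using Finset.induction_on with
    | empty => exact ⟨p0, mem_idealOfCofinals _ _, by simp⟩
    | insert x C _ ih =>
      obtain ⟨Γ1, h1, h2⟩ := ih
      obtain ⟨Γ2, h3, h4⟩ := hact l x
      obtain ⟨k, hk, hk1, hk2⟩ := hdir Γ1 h1 Γ2 h3
      refine ⟨k, hk, fun z hz => ?_⟩
      rcases Finset.mem_insert.1 hz with rfl | hz
      · exact step_mono hk2 h4
      · exact step_mono hk1 (h2 z hz)
  have hrun2 : ∀ (w : List (ℕ × Bool)) (C : Finset ℕ), ∃ Γ ∈ I,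
      runS Γ.1 w C (C.map (Equiv.toEmbedding (w.map a).prod)) := by
    intro w C
    induction w with
    | nil =>
      refine ⟨p0, mem_idealOfCofinals _ _, ?_⟩
      show C = _
      ext x
      simp only [List.map_nil, List.prod_nil, Finset.mem_map_equiv]
      exact Iff.rfl
    | cons l w ih =>
      obtain ⟨Γ1, h1, h2⟩ := ih
      obtain ⟨Γ2, h3, h4⟩ := hfin l (C.map (Equiv.toEmbedding (w.map a).prod))
      obtain ⟨k, hk, hk1, hk2⟩ := hdir Γ1 h1 Γ2 h3
      refine ⟨k, hk, _, runS_mono hk1 h2, ?_⟩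
      have h5 : C.map (Equiv.toEmbedding ((l :: w).map a).prod) =
          (C.map (Equiv.toEmbedding (w.map a).prod)).map (Equiv.toEmbedding (a l)) := by
        rw [Finset.map_map]
        rfl
      rw [h5]
      constructor
      · intro x hx
        refine ⟨a l x, Finset.mem_map_of_mem _ hx, ?_⟩
        rw [ha]
        exact step_mono hk2 (h4 x hx)
      · intro y hy
        obtain ⟨x, hx, rfl⟩ := Finset.mem_map.1 hy
        refine ⟨x, hx, ?_⟩
        show step k.1 l x (a l x)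
        rw [ha]
        exact step_mono hk2 (h4 x hx)
  refine ⟨(FreeGroup.lift σ).range, fun A B hA hB => ?_⟩
  obtain ⟨Γ, ⟨w, hw⟩, hΓ⟩ := cofinal_meets_idealOfCofinals p0 D (Sum.inr (⟨A, hA⟩, ⟨B, hB⟩))
  have hw' := hrun1 Γ hΓ w A B hw
  refine ⟨⟨(w.map a).prod, FreeGroup.mk w, by rw [FreeGroup.lift_mk]⟩, hw', ?_⟩
  rintro ⟨g, z, hz⟩ hg
  have hg' : A.map (Equiv.toEmbedding g) = B := hg
  -- the quotient stabilises `A`
  have hq : A.map (Equiv.toEmbedding (((w.map a).prod)⁻¹ * g)) = A := by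
    have h1 : A.map (Equiv.toEmbedding (((w.map a).prod)⁻¹ * g)) =
        (A.map (Equiv.toEmbedding g)).map (Equiv.toEmbedding ((w.map a).prod)⁻¹) := by
      rw [Finset.map_map]
      rfl
    rw [h1, hg', ← hw', Finset.map_map]
    ext x
    simp
  obtain ⟨v, hv⟩ : ∃ v, v = (FreeGroup.mk w)⁻¹ * z := ⟨_, rfl⟩
  have hlv : FreeGroup.lift σ v = ((w.map a).prod)⁻¹ * g := by
    rw [hv, map_mul, map_inv, hz, FreeGroup.lift_mk]
  have hword : (v.toWord.map a).prod = FreeGroup.lift σ v := by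
    conv_rhs => rw [← FreeGroup.mk_toWord (x := v)]
    rw [FreeGroup.lift_mk]
  have hnil : v.toWord = [] := by
    by_contra hne
    obtain ⟨Γ2, h1, h2⟩ := hrun2 v.toWord A
    rw [hword, hlv, hq] at h2
    exact Γ2.2.2 v.toWord hne FreeGroup.isReduced_toWord A hA h2
  have hv1 : v = 1 := FreeGroup.toWord_eq_nil_iff.1 hnil
  rw [hv1, map_one] at hlv
  apply Subtype.ext
  show g = (w.map a).prod
  exact (inv_mul_eq_one.1 hlv.symm).symm

/-- The negation of the preceding statement: For every infinite set X, every t at least 3 and every group G of permutations of X, it is not the case that for all t-element subsets A, B of X exactly one element of G maps A onto B. -/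
theorem result :
    ¬ (∀ (X : Type) [Infinite X] (t : ℕ), 3 ≤ t →
      ∀ G : Subgroup (Equiv.Perm X),
        ¬ (∀ A B : Finset X, A.card = t → B.card = t →
            ∃! g : G, A.map (Equiv.toEmbedding (g : Equiv.Perm X)) = B)) := by
  intro h
  obtain ⟨G, hG⟩ := exists_group 3 (by norm_num)
  exact h ℕ 3 le_rfl G hG

end Pool.Agent.S02476
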