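import Pool.Statements.S02608

set_option autoImplicit false
open Pool Pool.MP_074089_an

namespace Pool.Agent.S02608

noncomputable section

open Real

/-- the interval `[0, π]` -/
abbrev J : Type := Set.Icc (0:ℝ) π

def pt0 : J := ⟨0, by simp [pi_pos.le]⟩
def pt1 : J := ⟨π / 2, by constructor <;> linarith [pi_pos]⟩

def cosC : C(J, ℝ) := ⟨fun s => cos s, by fun_prop⟩
def sinC : C(J, ℝ) := ⟨fun s => sin s, by fun_prop⟩

def X0 : Submodule ℝ C(J, ℝ) := Submodule.span ℝ {cosC, sinC, 1}

lemma fdX0 : FiniteDimensional ℝ X0 :=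
  FiniteDimensional.span_of_finite ℝ (by simp)

def X : Type := X0
instance : NormedAddCommGroup X := inferInstanceAs (NormedAddCommGroup X0)
instance : NormedSpace ℝ X := inferInstanceAs (NormedSpace ℝ X0)
instance : FiniteDimensional ℝ X := fdX0
instance : CompleteSpace X := FiniteDimensional.complete ℝ X

/-- evaluation at a point of `J` -/
def ev (p : J) : X →L[ℝ] ℝ :=
  LinearMap.mkContinuous
    { toFun := fun x => x.1 p
      map_add' := fun x y => rfl
      map_smul' := fun c x => rfl } 1 (by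
      intro x
      rw [one_mul]
      exact ContinuousMap.norm_coe_le_norm x.1 p)

lemma ev_apply (p : J) (x : X) : ev p x = x.1 p := rfl

lemma norm_X (x : X) : ‖x‖ = ‖x.1‖ := rfl

def Y0 : Submodule ℝ X := Submodule.comap X0.subtype (Submodule.span ℝ {cosC, sinC})

def thC : C(unitInterval, ℝ) := ⟨fun t => cos ((t:ℝ) - 1/2), by fun_prop⟩
def thS : C(unitInterval, ℝ) := ⟨fun t => sin ((t:ℝ) - 1/2), by fun_prop⟩

def G : X →L[ℝ] C(unitInterval, ℝ) :=
  (ev pt0).smulRight thC + (ev pt1).smulRight thS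

def g0 : Y0 →L[ℝ] C(unitInterval, ℝ) :=
  G.comp Y0.subtypeL

lemma reflexive_fd (X : Type) [NormedAddCommGroup X] [NormedSpace ℝ X] [FiniteDimensional ℝ X] :
    Function.Surjective (NormedSpace.inclusionInDoubleDual ℝ X) := by
  have hinj : Function.Injective (NormedSpace.inclusionInDoubleDual ℝ X) :=
    (NormedSpace.inclusionInDoubleDualLi ℝ (E := X)).injective
  have e1 : Module.finrank ℝ (StrongDual ℝ X) = Module.finrank ℝ X := by
    have := (LinearMap.toContinuousLinearMap (𝕜 := ℝ) (E := X) (F' := ℝ)).finrank_eq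
    rw [← this]
    exact Subspace.dual_finrank_eq
  have e2 : Module.finrank ℝ (StrongDual ℝ (StrongDual ℝ X)) = Module.finrank ℝ (StrongDual ℝ X) := by
    have := (LinearMap.toContinuousLinearMap (𝕜 := ℝ) (E := StrongDual ℝ X) (F' := ℝ)).finrank_eq
    rw [← this]
    exact Subspace.dual_finrank_eq
  have := (LinearMap.injective_iff_surjective_of_finrank_eq_finrank
    (f := (NormedSpace.inclusionInDoubleDual ℝ X).toLinearMap) (by rw [e2, e1])).1 hinj
  exact this

lemma mem_span2 {x : C(J, ℝ)} (hx : x ∈ Submodule.span ℝ {cosC, sinC}) :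
    ∃ a b : ℝ, ∀ s : J, x s = a * cos s + b * sin s := by
  rw [Submodule.mem_span_pair] at hx
  obtain ⟨a, b, rfl⟩ := hx
  exact ⟨a, b, fun s => by simp [cosC, sinC]⟩

lemma g0_apply (y : Y0) (t : unitInterval) :
    g0 y t = (y : X).1 pt0 * cos ((t:ℝ) - 1/2) + (y : X).1 pt1 * sin ((t:ℝ) - 1/2) := by
  simp [g0, G, thC, thS, ev_apply]

lemma norm_g0 : ‖g0‖ ≤ 1 := by
  refine ContinuousLinearMap.opNorm_le_bound _ zero_le_one ?_
  intro y
  rw [one_mul]
  rw [ContinuousMap.norm_le _ (norm_nonneg _)]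
  intro t
  obtain ⟨a, b, hab⟩ := mem_span2 y.2
  have hab' : ∀ s : J, (y : X).1 s = a * cos s + b * sin s := hab
  have h0 : (y : X).1 pt0 = a := by
    have := hab' pt0
    simpa [pt0] using this
  have h1 : (y : X).1 pt1 = b := by
    have := hab' pt1
    simpa [pt1] using this
  rw [g0_apply, h0, h1]
  have hn : ‖y‖ = ‖(y : X).1‖ := rfl
  rw [hn]
  set θ : ℝ := (t:ℝ) - 1/2 with hθ
  have ht0 := t.2.1
  have ht1 := t.2.2
  have hpi := pi_gt_three
  rcases le_total 0 θ with h | h
  · have hm : θ ∈ Set.Icc (0:ℝ) π := ⟨h, by linarith⟩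
    have := hab' ⟨θ, hm⟩
    have h2 := ContinuousMap.norm_coe_le_norm (y : X).1 ⟨θ, hm⟩
    rw [this] at h2
    exact h2
  · have hm : θ + π ∈ Set.Icc (0:ℝ) π := ⟨by linarith, by linarith⟩
    have := hab' ⟨θ + π, hm⟩
    have h2 := ContinuousMap.norm_coe_le_norm (y : X).1 ⟨θ + π, hm⟩
    have h3 : (y : X).1 ⟨θ + π, hm⟩ = -(a * cos θ + b * sin θ) := by
      rw [this]
      simp only [cos_add_pi, sin_add_pi]
      ring
    rw [h3, norm_neg] at h2
    exact h2

/-- the element `s ↦ K cos (s - θ)` of `X` -/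
def phi (θ : ℝ) : X := ⟨cos θ • cosC + sin θ • sinC, by
  apply Submodule.add_mem <;> apply Submodule.smul_mem <;> apply Submodule.subset_span <;> simp⟩

lemma phi_mem (θ : ℝ) : phi θ ∈ Y0 := by
  change cos θ • cosC + sin θ • sinC ∈ Submodule.span ℝ {cosC, sinC}
  apply Submodule.add_mem <;> apply Submodule.smul_mem <;> apply Submodule.subset_span <;> simp

lemma phi_apply (θ : ℝ) (s : J) : (phi θ).1 s = cos (s - θ) := by
  have : (phi θ).1 s = cos θ * cos s + sin θ * sin s := by
    simp [phi, cosC, sinC]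
  rw [this, cos_sub]; ring

def oneX : X := ⟨1, Submodule.subset_span (by simp)⟩

lemma oneX_apply (s : J) : oneX.1 s = 1 := rfl

lemma comb_apply (K c θ : ℝ) (s : J) : (K • phi θ + c • oneX).1 s = K * cos (s - θ) + c := by
  have : (K • phi θ + c • oneX).1 s = K * (phi θ).1 s + c * oneX.1 s := rfl
  rw [this, phi_apply, oneX_apply, mul_one]

lemma g0_phi (t : unitInterval) : g0 ⟨phi ((t:ℝ) - 1/2), phi_mem _⟩ t = 1 := by
  rw [g0_apply, phi_apply, phi_apply]
  simp only [pt0, pt1]
  rw [zero_sub, cos_neg, cos_pi_div_two_sub]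
  have := cos_sq_add_sin_sq ((t:ℝ) - 1/2)
  nlinarith

/-- The negation of the preceding statement: For every reflexive real Banach space X and closed subspace Y, every bounded linear map from Y into C[0,1] extends to a bounded linear map from X into C[0,1] with no larger norm. -/
theorem result :
    ¬ (∀ (X : Type) [NormedAddCommGroup X] [NormedSpace ℝ X] [CompleteSpace X],
      Function.Surjective (NormedSpace.inclusionInDoubleDual ℝ X) →
      ∀ (Y : Submodule ℝ X), IsClosed (Y : Set X) →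
      ∀ (g : Y →L[ℝ] C(unitInterval, ℝ)),
        ∃ f : X →L[ℝ] C(unitInterval, ℝ),
          f.comp Y.subtypeL = g ∧ ‖f‖ ≤ ‖g‖) := by
  intro H
  obtain ⟨f, hf, hfn⟩ := H X (reflexive_fd X) Y0 (Submodule.closed_of_finiteDimensional Y0) g0
  have hf1 : ‖f‖ ≤ 1 := hfn.trans norm_g0
  set h : C(unitInterval, ℝ) := f oneX with hh
  -- value of `f` at the test vectors
  have key : ∀ (K c M : ℝ) (t : unitInterval),
      (∀ s : J, |K * cos (s - ((t:ℝ) - 1/2)) + c| ≤ M) → 0 ≤ M → |K + c * h t| ≤ M := by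
    intro K c M t hM hM0
    have h1 : f (K • phi ((t:ℝ) - 1/2) + c • oneX) t = K + c * h t := by
      have h2 : f (phi ((t:ℝ) - 1/2)) t = 1 := by
        have h3 : f (phi ((t:ℝ) - 1/2)) = g0 ⟨phi ((t:ℝ) - 1/2), phi_mem _⟩ := by
          rw [← hf]; rfl
        rw [h3, g0_phi]
      rw [map_add, map_smul, map_smul]
      rw [ContinuousMap.add_apply, ContinuousMap.smul_apply, ContinuousMap.smul_apply, h2, ← hh]
      simp
    have h4 : ‖K • phi ((t:ℝ) - 1/2) + c • oneX‖ ≤ M := by
      rw [norm_X, ContinuousMap.norm_le _ hM0]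
      intro s
      rw [comb_apply]
      exact hM s
    have h5 : ‖f (K • phi ((t:ℝ) - 1/2) + c • oneX)‖ ≤ M := by
      calc _ ≤ ‖f‖ * ‖K • phi ((t:ℝ) - 1/2) + c • oneX‖ := f.le_opNorm _
        _ ≤ 1 * M := by gcongr
        _ = M := one_mul M
    have h6 := ContinuousMap.norm_coe_le_norm (f (K • phi ((t:ℝ) - 1/2) + c • oneX)) t
    rw [h1] at h6
    exact h6.trans h5
  have hpi := pi_gt_three
  have hpos : ∀ t : unitInterval, 1/2 < (t:ℝ) → 1 ≤ h t := by
    intro t ht
    have ht1 := t.2.2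
    set θ : ℝ := (t:ℝ) - 1/2 with hθ
    have hθ0 : 0 < θ := by linarith
    have hθ1 : θ < π := by linarith
    -- on `[0, π]`, `cos (s - θ) ≥ -cos θ`... lower bound
    obtain ⟨m, hm, hm1⟩ : ∃ m : ℝ, (∀ s : J, m ≤ cos (s - θ)) ∧ -1 < m := by
      refine ⟨min (cos θ) (cos (π - θ)), ?_, ?_⟩
      · intro s
        have hs0 := s.2.1
        have hs1 := s.2.2
        rcases le_total 0 ((s:ℝ) - θ) with h1 | h1
        · refine (min_le_right _ _).trans ?_
          apply cos_le_cos_of_nonneg_of_le_pi h1 (by linarith) (by linarith)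
        · refine (min_le_left _ _).trans ?_
          rw [← cos_neg ((s:ℝ) - θ)]
          apply cos_le_cos_of_nonneg_of_le_pi (by linarith) (by linarith) (by linarith)
      · apply lt_min
        · rw [← cos_pi]; exact cos_lt_cos_of_nonneg_of_le_pi hθ0.le le_rfl hθ1
        · rw [← cos_pi]; exact cos_lt_cos_of_nonneg_of_le_pi (by linarith) le_rfl (by linarith)
    have hK : 0 < 1 + m := by linarith
    set K : ℝ := 2 / (1 + m) + 1 with hKdef
    have hKm : 2 ≤ K * (1 + m) := by
      rw [hKdef, add_mul, div_mul_cancel₀ _ hK.ne']; linarith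
    have hK1 : 1 ≤ K := by
      have : 0 < 2 / (1 + m) := by positivity
      linarith
    have h1 := key K (-1) (K - 1) t (by
      intro s
      have ha := hm s
      have hb := cos_le_one ((s:ℝ) - θ)
      rw [abs_le]
      constructor <;> nlinarith) (by linarith)
    rw [abs_le] at h1
    linarith [h1.2]
  have hneg : ∀ t : unitInterval, (t:ℝ) < 1/2 → h t ≤ -1 := by
    intro t ht
    have ht1 := t.2.1
    set θ : ℝ := (t:ℝ) - 1/2 with hθ
    have hθ0 : θ < 0 := by linarith
    have hθ1 : -1 < θ := by linarith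
    obtain ⟨m, hm, hm1⟩ : ∃ m : ℝ, (∀ s : J, cos (s - θ) ≤ m) ∧ m < 1 := by
      refine ⟨max (cos θ) (cos (π - θ)), ?_, ?_⟩
      · intro s
        have hs0 := s.2.1
        have hs1 := s.2.2
        rcases le_total ((s:ℝ) - θ) π with h1 | h1
        · refine le_trans ?_ (le_max_left _ _)
          rw [← cos_neg θ]
          apply cos_le_cos_of_nonneg_of_le_pi (by linarith) (by linarith) (by linarith)
        · refine le_trans ?_ (le_max_right _ _)
          rw [← cos_two_pi_sub ((s:ℝ) - θ), ← cos_two_pi_sub (π - θ)]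
          apply cos_le_cos_of_nonneg_of_le_pi (by linarith) (by linarith) (by linarith)
      · apply max_lt
        · rw [← cos_neg, ← cos_zero]; exact cos_lt_cos_of_nonneg_of_le_pi le_rfl (by linarith) (by linarith)
        · rw [← cos_two_pi_sub, ← cos_zero]; exact cos_lt_cos_of_nonneg_of_le_pi le_rfl (by linarith) (by linarith)
    have hK : 0 < 1 - m := by linarith
    set K : ℝ := 2 / (1 - m) + 1 with hKdef
    have hKm : 2 ≤ K * (1 - m) := by
      rw [hKdef, add_mul, div_mul_cancel₀ _ hK.ne']; linarith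
    have hK1 : 1 ≤ K := by
      have : 0 < 2 / (1 - m) := by positivity
      linarith
    have h1 := key K 1 (K - 1) t (by
      intro s
      have ha := hm s
      have hb := neg_one_le_cos ((s:ℝ) - θ)
      rw [abs_le]
      constructor <;> nlinarith) (by linarith)
    rw [abs_le] at h1
    linarith [h1.2]
  -- contradiction with continuity at `1/2`
  have hc : Continuous (fun x : ℝ => h (Set.projIcc (0:ℝ) 1 zero_le_one x)) :=
    h.continuous.comp continuous_projIcc
  have hA : ∀ x ∈ Set.Ioc (1/2:ℝ) 1, 1 ≤ h (Set.projIcc (0:ℝ) 1 zero_le_one x) := by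
    intro x hx
    apply hpos
    rw [Set.projIcc_of_mem zero_le_one (⟨by linarith [hx.1], hx.2⟩ : x ∈ Set.Icc (0:ℝ) 1)]
    exact hx.1
  have hB : ∀ x ∈ Set.Ico (0:ℝ) (1/2), h (Set.projIcc (0:ℝ) 1 zero_le_one x) ≤ -1 := by
    intro x hx
    apply hneg
    rw [Set.projIcc_of_mem zero_le_one (⟨hx.1, by linarith [hx.2]⟩ : x ∈ Set.Icc (0:ℝ) 1)]
    exact hx.2
  have h1 : 1 ≤ h (Set.projIcc (0:ℝ) 1 zero_le_one (1/2)) := by
    have hcl : (1/2:ℝ) ∈ closure (Set.Ioc (1/2:ℝ) 1) := by
      rw [closure_Ioc (by norm_num)]; norm_num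
    exact (isClosed_le continuous_const hc).closure_subset_iff.2 hA hcl
  have h2 : h (Set.projIcc (0:ℝ) 1 zero_le_one (1/2)) ≤ -1 := by
    have hcl : (1/2:ℝ) ∈ closure (Set.Ico (0:ℝ) (1/2)) := by
      rw [closure_Ico (by norm_num)]; norm_num
    exact (isClosed_le hc continuous_const).closure_subset_iff.2 hB hcl
  linarith

end

end Pool.Agent.S02608
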