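import Pool.Statements.S02621
import Pool.Agent.P092d

set_option autoImplicit false
open Pool Pool.MP_092a3f_an

namespace Pool.Agent.S02621

/-- If f: R^n→R^m is Lipschitz near x̄ and every matrix in its Clarke Jacobian at x̄ is surjective, then near f(x̄) some continuous right inverse s with s(f(x̄))=x̄ satisfies ‖s(y)−x̄‖ ≤ γ‖y−f(x̄)‖ for some γ>0. -/
theorem result :
    ∀ (n m : ℕ) (f : EuclideanSpace ℝ (Fin n) → EuclideanSpace ℝ (Fin m))
      (x₀ : EuclideanSpace ℝ (Fin n)),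
      (∃ K : NNReal, ∃ U ∈ nhds x₀, LipschitzOnWith K f U) →
      (∀ A ∈ convexHull ℝ
          {B : EuclideanSpace ℝ (Fin n) →L[ℝ] EuclideanSpace ℝ (Fin m) |
            ∀ ε : ℝ, 0 < ε → ∀ δ : ℝ, 0 < δ →
              ∃ x : EuclideanSpace ℝ (Fin n), dist x x₀ < δ ∧ DifferentiableAt ℝ f x ∧
                ‖fderiv ℝ f x - B‖ < ε},
          Function.Surjective A) →
      ∃ V ∈ nhds (f x₀), ∃ s : EuclideanSpace ℝ (Fin m) → EuclideanSpace ℝ (Fin n),
        ∃ γ : ℝ, 0 < γ ∧ ContinuousOn s V ∧ s (f x₀) = x₀ ∧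
          (∀ y ∈ V, f (s y) = y) ∧
          ∀ y ∈ V, ‖s y - x₀‖ ≤ γ * ‖y - f x₀‖ := by
  intro n m f x₀ ⟨K, U, hU, hf⟩ hsurj
  obtain ⟨R, hR, hRU⟩ := Metric.mem_nhds_iff.1 hU
  obtain ⟨g, hg, hfg⟩ := (hf.mono hRU).extend_finite_dimension
  have hloc : ∀ x ∈ Metric.ball x₀ R, f =ᶠ[nhds x] g := fun x hx =>
    Filter.eventuallyEq_of_mem (Metric.isOpen_ball.mem_nhds hx) hfg
  have hx₀ : x₀ ∈ Metric.ball x₀ R := Metric.mem_ball_self hR
  have hfx : f x₀ = g x₀ := hfg hx₀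
  have hsub : Pool.Agent.P092.limGrad g x₀ ⊆ {B : EuclideanSpace ℝ (Fin n) →L[ℝ] EuclideanSpace ℝ (Fin m) |
            ∀ ε : ℝ, 0 < ε → ∀ δ : ℝ, 0 < δ →
              ∃ x : EuclideanSpace ℝ (Fin n), dist x x₀ < δ ∧ DifferentiableAt ℝ f x ∧
                ‖fderiv ℝ f x - B‖ < ε} := by
    intro B hB ε hε δ hδ
    obtain ⟨x, hx1, hx2, hx3⟩ := hB ε hε (min δ R) (lt_min hδ hR)
    have hxR : x ∈ Metric.ball x₀ R := lt_of_lt_of_le hx1 (min_le_right _ _)
    have he := hloc x hxR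
    refine ⟨x, lt_of_lt_of_le hx1 (min_le_left _ _), he.differentiableAt_iff.2 hx2, ?_⟩
    rw [he.fderiv_eq]
    exact hx3
  obtain ⟨η, hη, s, γ, hγ, hc, hs0, hs1, hs2⟩ := Pool.Agent.P092.exists_selection hg x₀
    (fun A hA => hsurj A (convexHull_mono hsub hA))
  have hmin : 0 < min η (R / γ) := lt_min hη (by positivity)
  refine ⟨Metric.ball (f x₀) (min η (R / γ)), Metric.ball_mem_nhds _ hmin, s, γ, hγ, ?_, ?_, ?_, ?_⟩
  · rw [hfx]
    exact hc.mono (Metric.ball_subset_ball (min_le_left _ _))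
  · rw [hfx]; exact hs0
  · intro y hy
    rw [hfx] at hy
    have h1 : y ∈ Metric.ball (g x₀) η := Metric.ball_subset_ball (min_le_left _ _) hy
    have h2 : s y ∈ Metric.ball x₀ R := by
      rw [Metric.mem_ball, dist_eq_norm]
      refine lt_of_le_of_lt (hs2 y h1) ?_
      have h3 : ‖y - g x₀‖ < R / γ := by
        rw [← dist_eq_norm]
        exact lt_of_lt_of_le hy (min_le_right _ _)
      calc γ * ‖y - g x₀‖ < γ * (R / γ) := by gcongr
        _ = R := by field_simp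
    rw [hfg h2]
    exact hs1 y h1
  · intro y hy
    rw [hfx] at hy ⊢
    exact hs2 y (Metric.ball_subset_ball (min_le_left _ _) hy)

end Pool.Agent.S02621
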