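import Pool.Statements.S02679
-- import your own Pool.Agent.* helpers here

set_option autoImplicit false
open Filter Topology
open Pool Pool.MP_10e324_an

namespace Pool.Agent.S02679

open Set Metric

/-- one step of the construction -/
lemma step (F₀ : ℂ → ℂ) (hF : Differentiable ℂ F₀) (w₀ : ℂ) (hw : 4 ≤ ‖w₀‖) (r : ℝ) (hr : 0 < r)
    (hr1 : r ≤ 1) (N δ : ℝ) (hN : 0 ≤ N) (hδ : 0 < δ) :
    ∃ G : ℂ → ℂ, Differentiable ℂ G ∧ (∀ z, ‖z‖ ≤ ‖w₀‖ / 2 → ‖G z - F₀ z‖ ≤ δ) ∧ G w₀ = 0 ∧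
      ∀ z ∈ sphere w₀ r, N ≤ ‖G z‖ := by
  obtain ⟨S, hS⟩ : ∃ S : ℝ, ∀ z ∈ closedBall w₀ r, ‖F₀ z‖ ≤ S := by
    obtain ⟨S, hS⟩ := (isCompact_closedBall w₀ r).exists_bound_of_continuousOn
      hF.continuous.continuousOn
    exact ⟨S, hS⟩
  have hS0 : 0 ≤ S := (norm_nonneg _).trans (hS w₀ (mem_closedBall_self hr.le))
  have hw0 : w₀ ≠ 0 := by
    intro h; rw [h, norm_zero] at hw; linarith
  have hw0' : 0 < ‖w₀‖ := norm_pos_iff.2 hw0
  -- choose m
  obtain ⟨m, hm⟩ : ∃ m : ℕ, ((N + 2 * S) / r * (3 / 2 * ‖w₀‖) + S) * ((5:ℝ) / 6) ^ m ≤ δ := by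
    have : Tendsto (fun m : ℕ => ((N + 2 * S) / r * (3 / 2 * ‖w₀‖) + S) * ((5:ℝ) / 6) ^ m) atTop
        (𝓝 (((N + 2 * S) / r * (3 / 2 * ‖w₀‖) + S) * 0)) :=
      (tendsto_pow_atTop_nhds_zero_of_lt_one (by norm_num) (by norm_num)).const_mul _
    rw [mul_zero] at this
    exact (this.eventually (ge_mem_nhds hδ)).exists
  set c : ℝ := (N + 2 * S) / r * (5 / 3) ^ m with hc
  have hc0 : 0 ≤ c := by positivity
  refine ⟨fun z => F₀ z + ((c : ℂ) * (z - w₀) - F₀ w₀) * (z / w₀) ^ m, ?_, ?_, ?_, ?_⟩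
  · apply hF.add
    apply Differentiable.mul
    · exact ((differentiable_id.sub_const _).const_mul _).sub_const _
    · exact (differentiable_id.div_const _).pow _
  · intro z hz
    have e : F₀ z + ((c : ℂ) * (z - w₀) - F₀ w₀) * (z / w₀) ^ m - F₀ z
        = ((c : ℂ) * (z - w₀) - F₀ w₀) * (z / w₀) ^ m := by ring
    rw [e, norm_mul, norm_pow, norm_div]
    have h1 : ‖z‖ / ‖w₀‖ ≤ 1 / 2 := by
      rw [div_le_iff₀ hw0']; linarith
    have h2 : ‖(c : ℂ) * (z - w₀) - F₀ w₀‖ ≤ c * (3 / 2 * ‖w₀‖) + S := by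
      refine (norm_sub_le _ _).trans (add_le_add ?_ (hS w₀ (mem_closedBall_self hr.le)))
      rw [norm_mul, Complex.norm_of_nonneg hc0]
      apply mul_le_mul_of_nonneg_left _ hc0
      refine (norm_sub_le _ _).trans ?_
      linarith
    calc ‖(c : ℂ) * (z - w₀) - F₀ w₀‖ * (‖z‖ / ‖w₀‖) ^ m
        ≤ (c * (3 / 2 * ‖w₀‖) + S) * (1 / 2) ^ m := by gcongr
      _ = ((N + 2 * S) / r * (3 / 2 * ‖w₀‖)) * (((5:ℝ) / 3) ^ m * (1 / 2) ^ m) + S * (1 / 2) ^ m := by
          rw [hc]; ring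
      _ ≤ ((N + 2 * S) / r * (3 / 2 * ‖w₀‖)) * (5 / 6) ^ m + S * (5 / 6) ^ m := by
          have e1 : ((5:ℝ) / 3) ^ m * (1 / 2) ^ m = (5 / 6) ^ m := by rw [← mul_pow]; norm_num
          have e2 : ((1:ℝ) / 2) ^ m ≤ (5 / 6) ^ m :=
            pow_le_pow_left₀ (by norm_num) (by norm_num) m
          rw [e1]
          linarith [mul_le_mul_of_nonneg_left e2 hS0]
      _ = ((N + 2 * S) / r * (3 / 2 * ‖w₀‖) + S) * ((5:ℝ) / 6) ^ m := by ring
      _ ≤ δ := hm
  · simp [div_self hw0]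
  · intro z hz
    have hzr : ‖z - w₀‖ = r := by rwa [mem_sphere_iff_norm] at hz
    have hz1 : 3 / 4 * ‖w₀‖ ≤ ‖z‖ := by
      have := norm_sub_norm_le w₀ z
      rw [norm_sub_rev] at this
      linarith
    have hz2 : ‖z‖ ≤ 5 / 4 * ‖w₀‖ := by
      have := norm_le_norm_add_norm_sub' z w₀
      linarith
    have q1 : 3 / 4 ≤ ‖z‖ / ‖w₀‖ := by rw [le_div_iff₀ hw0']; exact hz1
    have q2 : ‖z‖ / ‖w₀‖ ≤ 5 / 4 := by rw [div_le_iff₀ hw0']; exact hz2
    have e : F₀ z + ((c : ℂ) * (z - w₀) - F₀ w₀) * (z / w₀) ^ m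
        = ((c : ℂ) * (z - w₀)) * (z / w₀) ^ m - (F₀ w₀ * (z / w₀) ^ m - F₀ z) := by ring
    simp only
    rw [e]
    have h1 : ‖((c : ℂ) * (z - w₀)) * (z / w₀) ^ m‖ ≥ c * r * (3 / 4) ^ m := by
      rw [norm_mul, norm_mul, norm_pow, norm_div, Complex.norm_of_nonneg hc0, hzr]
      gcongr
    have h2 : ‖F₀ w₀ * (z / w₀) ^ m - F₀ z‖ ≤ S * (5 / 4) ^ m + S := by
      refine (norm_sub_le _ _).trans (add_le_add ?_ (hS z (sphere_subset_closedBall hz)))
      rw [norm_mul, norm_pow, norm_div]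
      gcongr
      exact hS w₀ (mem_closedBall_self hr.le)
    have h3 : c * r * (3 / 4) ^ m = (N + 2 * S) * (5 / 4) ^ m := by
      rw [hc]
      have : ((5:ℝ) / 3) ^ m * (3 / 4) ^ m = (5 / 4) ^ m := by rw [← mul_pow]; norm_num
      calc (N + 2 * S) / r * (5 / 3) ^ m * r * (3 / 4) ^ m
          = (N + 2 * S) * (((5:ℝ) / 3) ^ m * (3 / 4) ^ m) * (r / r) := by ring
        _ = (N + 2 * S) * (5 / 4) ^ m := by rw [this, div_self hr.ne', mul_one]
    have h4 : (1:ℝ) ≤ (5 / 4) ^ m := one_le_pow₀ (by norm_num)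
    have h5 := norm_sub_norm_le (((c : ℂ) * (z - w₀)) * (z / w₀) ^ m) (F₀ w₀ * (z / w₀) ^ m - F₀ z)
    nlinarith [mul_le_mul_of_nonneg_left h4 (add_nonneg hN hS0)]

/-- An entire function mapping a given unbounded open set onto `ℂ` and separating two points. -/
lemma exists_entire (U : Set ℂ) (hU : IsOpen U) (hub : ∀ R : ℝ, ∃ w ∈ U, R ≤ ‖w‖) (u v : ℂ)
    (huv : u ≠ v) : ∃ F : ℂ → ℂ, Differentiable ℂ F ∧ (∀ ζ, ∃ w ∈ U, F w = ζ) ∧ F u ≠ F v := by
  choose pick hpU hpn using hub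
  -- the centres
  let w : ℕ → ℂ := fun n => Nat.rec (pick (4 + 2 * ‖u‖ + 2 * ‖v‖)) (fun _ x => pick (2 * (‖x‖ + 1))) n
  have hw0 : w 0 = pick (4 + 2 * ‖u‖ + 2 * ‖v‖) := rfl
  have hws : ∀ n, w (n + 1) = pick (2 * (‖w n‖ + 1)) := fun n => rfl
  have hwU : ∀ n, w n ∈ U := by
    intro n; cases n with
    | zero => exact hpU _
    | succ n => rw [hws]; exact hpU _
  have hwn : ∀ n, 2 * (‖w n‖ + 1) ≤ ‖w (n + 1)‖ := by
    intro n; rw [hws]; exact hpn _
  have hw00 : 4 + 2 * ‖u‖ + 2 * ‖v‖ ≤ ‖w 0‖ := by rw [hw0]; exact hpn _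
  have hmono : Monotone (fun n => ‖w n‖) := by
    apply monotone_nat_of_le_succ
    intro n
    have := hwn n
    have := norm_nonneg (w n)
    show ‖w n‖ ≤ ‖w (n + 1)‖
    linarith
  have hw4 : ∀ n, 4 ≤ ‖w n‖ := by
    intro n
    have h1 := hmono (Nat.zero_le n)
    simp only at h1
    have := norm_nonneg u
    have := norm_nonneg v
    linarith
  have hgrow : ∀ n : ℕ, (n : ℝ) ≤ ‖w n‖ := by
    intro n
    induction n with
    | zero => simp
    | succ n ih =>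
      have := hwn n
      have := norm_nonneg (w n)
      push_cast
      linarith
  -- radii
  have hr : ∀ n, ∃ r : ℝ, 0 < r ∧ r ≤ 1 ∧ closedBall (w n) r ⊆ U := by
    intro n
    obtain ⟨ρ, hρ, hρU⟩ := Metric.isOpen_iff.1 hU (w n) (hwU n)
    refine ⟨min (ρ / 2) 1, by positivity, min_le_right _ _, ?_⟩
    refine (closedBall_subset_ball ?_).trans hρU
    exact lt_of_le_of_lt (min_le_left _ _) (by linarith)
  choose r hr0 hr1 hrU using hr
  have hstep : ∀ (n : ℕ) (F : {F : ℂ → ℂ // Differentiable ℂ F}),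
      ∃ G : {F : ℂ → ℂ // Differentiable ℂ F},
        (∀ z, ‖z‖ ≤ ‖w n‖ / 2 → ‖G.1 z - F.1 z‖ ≤ (1 / 2) ^ n) ∧ G.1 (w n) = 0 ∧
          ∀ z ∈ sphere (w n) (r n), (2 * n + 6 : ℝ) ≤ ‖G.1 z‖ := by
    intro n F
    obtain ⟨G, hG, h1, h2, h3⟩ := step F.1 F.2 (w n) (hw4 n) (r n) (hr0 n) (hr1 n) (2 * n + 6)
      ((1 / 2) ^ n) (by positivity) (by positivity)
    exact ⟨⟨G, hG⟩, h1, h2, h3⟩
  choose next hn1 hn2 hn3 using hstep
  have huv' : 0 < ‖u - v‖ := norm_pos_iff.2 (sub_ne_zero.2 huv)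
  set Λ : ℝ := 5 / ‖u - v‖ with hΛ
  have hΛ0 : 0 < Λ := by positivity
  let F0 : {F : ℂ → ℂ // Differentiable ℂ F} :=
    ⟨fun z => (Λ : ℂ) * z, differentiable_id.const_mul _⟩
  let Fs : ℕ → {F : ℂ → ℂ // Differentiable ℂ F} := fun n => Nat.rec F0 (fun n F => next n F) n
  have hFs : ∀ n, Fs (n + 1) = next n (Fs n) := fun n => rfl
  have hd : ∀ n z, ‖z‖ ≤ ‖w n‖ / 2 → ‖(Fs (n + 1)).1 z - (Fs n).1 z‖ ≤ (1 / 2) ^ n := by
    intro n z hz; rw [hFs]; exact hn1 n (Fs n) z hz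
  have hzero : ∀ n, (Fs (n + 1)).1 (w n) = 0 := by
    intro n; rw [hFs]; exact hn2 n (Fs n)
  have hsph : ∀ n, ∀ z ∈ sphere (w n) (r n), (2 * n + 6 : ℝ) ≤ ‖(Fs (n + 1)).1 z‖ := by
    intro n; rw [hFs]; exact hn3 n (Fs n)
  -- geometric estimate
  have hgeo : ∀ (N : ℕ) (z : ℂ), ‖z‖ ≤ ‖w N‖ / 2 → ∀ k : ℕ,
      dist ((Fs (N + k)).1 z) ((Fs (N + (k + 1))).1 z) ≤ (1 / 2) ^ N * (1 / 2) ^ k := by
    intro N z hz k
    rw [dist_comm, dist_eq_norm, ← pow_add]
    apply hd (N + k) z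
    have := hmono (Nat.le_add_right N k)
    simp only at this
    linarith
  have hbig : ∀ z : ℂ, ∃ N : ℕ, ‖z‖ ≤ ‖w N‖ / 2 := by
    intro z
    obtain ⟨N, hN⟩ := exists_nat_ge (2 * ‖z‖)
    exact ⟨N, by have := hgrow N; linarith⟩
  have hlim : ∀ z : ℂ, ∃ l : ℂ, Tendsto (fun n => (Fs n).1 z) atTop (𝓝 l) := by
    intro z
    obtain ⟨N, hN⟩ := hbig z
    obtain ⟨l, hl⟩ := cauchySeq_tendsto_of_complete
      (cauchySeq_of_le_geometric (1 / 2) ((1 / 2) ^ N) (by norm_num) (hgeo N z hN))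
    refine ⟨l, ?_⟩
    rw [← tendsto_add_atTop_iff_nat N]
    simpa [add_comm] using hl
  choose F hF using hlim
  have herr : ∀ (N : ℕ) (z : ℂ), ‖z‖ ≤ ‖w N‖ / 2 → ‖(Fs N).1 z - F z‖ ≤ 2 * (1 / 2) ^ N := by
    intro N z hz
    have h1 : Tendsto (fun k => (Fs (N + k)).1 z) atTop (𝓝 (F z)) := by
      have := (tendsto_add_atTop_iff_nat N).2 (hF z)
      simpa [add_comm] using this
    have := dist_le_of_le_geometric_of_tendsto₀ (1 / 2) ((1 / 2) ^ N) (by norm_num) (hgeo N z hz) h1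
    rw [dist_eq_norm] at this
    simp only [add_zero] at this
    calc ‖(Fs N).1 z - F z‖ ≤ (1 / 2) ^ N / (1 - 1 / 2) := this
      _ = 2 * (1 / 2) ^ N := by ring
  have hFdiff : Differentiable ℂ F := by
    have hloc : TendstoLocallyUniformlyOn (fun n => (Fs n).1) F atTop univ := by
      rw [tendstoLocallyUniformlyOn_univ, tendstoLocallyUniformly_iff_forall_isCompact]
      intro K hK
      rw [Metric.tendstoUniformlyOn_iff]
      intro ε hε
      obtain ⟨R, hR⟩ := hK.isBounded.exists_norm_le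
      obtain ⟨N₁, hN₁⟩ := exists_nat_ge (2 * R)
      have h2 : Tendsto (fun n : ℕ => 2 * ((1:ℝ) / 2) ^ n) atTop (𝓝 (2 * 0)) :=
        (tendsto_pow_atTop_nhds_zero_of_lt_one (by norm_num) (by norm_num)).const_mul _
      rw [mul_zero] at h2
      filter_upwards [eventually_ge_atTop N₁, h2.eventually (gt_mem_nhds hε)] with n hn hn2 z hz
      rw [dist_comm, dist_eq_norm]
      refine lt_of_le_of_lt (herr n z ?_) hn2
      have := hR z hz
      have := hgrow n
      have : (N₁ : ℝ) ≤ n := by exact_mod_cast hn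
      linarith
    have := hloc.differentiableOn (Eventually.of_forall fun n => (Fs n).2.differentiableOn) isOpen_univ
    exact differentiableOn_univ.1 this
  have hpw : ∀ n : ℕ, 2 * ((1:ℝ) / 2) ^ (n + 1) ≤ 1 := by
    intro n
    have : ((1:ℝ) / 2) ^ n ≤ 1 := pow_le_one₀ (by norm_num) (by norm_num)
    rw [pow_succ]; linarith
  have hnear : ∀ n, ∀ z ∈ closedBall (w n) (r n), ‖(Fs (n + 1)).1 z - F z‖ ≤ 1 := by
    intro n z hz
    refine (herr (n + 1) z ?_).trans (hpw n)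
    have h1 : ‖z - w n‖ ≤ r n := by rwa [mem_closedBall_iff_norm] at hz
    have h2 := norm_le_norm_add_norm_sub' z (w n)
    have h3 := hr1 n
    have h4 := hwn n
    linarith
  have hsphF : ∀ n, ∀ z ∈ sphere (w n) (r n), (2 * n + 4 : ℝ) ≤ ‖F z - F (w n)‖ := by
    intro n z hz
    have h1 := hnear n z (sphere_subset_closedBall hz)
    have h2 := hnear n (w n) (mem_closedBall_self (hr0 n).le)
    rw [hzero, zero_sub, norm_neg] at h2
    have h3 := hsph n z hz
    have h4 : ‖(Fs (n + 1)).1 z‖ ≤ ‖(Fs (n + 1)).1 z - F z‖ + ‖F z - F (w n)‖ + ‖F (w n)‖ := by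
      calc ‖(Fs (n + 1)).1 z‖ = ‖((Fs (n + 1)).1 z - F z) + (F z - F (w n)) + F (w n)‖ := by
            congr 1; ring
        _ ≤ _ := norm_add₃_le
    linarith
  refine ⟨F, hFdiff, ?_, ?_⟩
  · intro ζ
    obtain ⟨n, hn⟩ := exists_nat_ge ‖ζ‖
    have hsub : ball (F (w n)) ((2 * n + 4 : ℝ) / 2) ⊆ F '' closedBall (w n) (r n) := by
      apply DiffContOnCl.ball_subset_image_closedBall hFdiff.diffContOnCl (hr0 n) (hsphF n)
      intro hcon
      have h1 : F =ᶠ[𝓝 (w n)] fun _ => F (w n) := by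
        filter_upwards [hcon] with z hz
        by_contra h
        exact hz h
      have h2 : F = fun _ => F (w n) := by
        apply AnalyticOnNhd.eq_of_eventuallyEq (𝕜 := ℂ) _ analyticOnNhd_const h1
        exact hFdiff.differentiableOn.analyticOnNhd isOpen_univ
      obtain ⟨z, hz⟩ := (NormedSpace.sphere_nonempty (E := ℂ) (x := w n)).2 (hr0 n).le
      have h3 := hsphF n z hz
      rw [congrFun h2 z, sub_self, norm_zero] at h3
      have : (0:ℝ) ≤ n := Nat.cast_nonneg n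
      linarith
    have hmem : ζ ∈ ball (F (w n)) ((2 * n + 4 : ℝ) / 2) := by
      rw [mem_ball_iff_norm]
      have h2 := hnear n (w n) (mem_closedBall_self (hr0 n).le)
      rw [hzero, zero_sub, norm_neg] at h2
      have := norm_sub_le ζ (F (w n))
      linarith
    obtain ⟨z, hz, hzζ⟩ := hsub hmem
    exact ⟨z, hrU n hz, hzζ⟩
  · intro heq
    have hu : ‖u‖ ≤ ‖w 0‖ / 2 := by
      have := norm_nonneg v
      linarith
    have hv : ‖v‖ ≤ ‖w 0‖ / 2 := by
      have := norm_nonneg u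
      linarith
    have h1 := herr 0 u hu
    have h2 := herr 0 v hv
    have e1 : (Fs 0).1 u = (Λ : ℂ) * u := rfl
    have e2 : (Fs 0).1 v = (Λ : ℂ) * v := rfl
    rw [e1] at h1
    rw [e2] at h2
    have h3 : ‖(Λ : ℂ) * u - (Λ : ℂ) * v‖ = 5 := by
      rw [← mul_sub, norm_mul, Complex.norm_of_nonneg hΛ0.le, hΛ]
      field_simp
    have h4 : (Λ : ℂ) * u - (Λ : ℂ) * v = ((Λ : ℂ) * u - F u) - ((Λ : ℂ) * v - F v) := by
      rw [heq]; ring
    have h5 := norm_sub_le ((Λ : ℂ) * u - F u) ((Λ : ℂ) * v - F v)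
    rw [← h4, h3] at h5
    norm_num at h1 h2
    linarith

/-- a function of `α` that is unbounded, but bounded where `α` stays in a compact subset of its
range -/
lemma exists_beta (α : ℂ → ℂ) (hα : AnalyticOnNhd ℂ α (ball (0:ℂ) 1))
    (hnc : ∃ a ∈ ball (0:ℂ) 1, ∃ b ∈ ball (0:ℂ) 1, α a ≠ α b) :
    ∃ β : ℂ → ℂ, AnalyticOnNhd ℂ β (ball (0:ℂ) 1) ∧
      (∀ K : Set ℂ, K ⊆ α '' ball (0:ℂ) 1 → IsCompact K →
        ∃ R : ℝ, ∀ z ∈ ball (0:ℂ) 1, α z ∈ K → ‖β z‖ ≤ R) ∧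
      (∀ R : ℝ, ∃ z ∈ ball (0:ℂ) 1, R ≤ ‖β z‖) ∧
      (∀ a ∈ ball (0:ℂ) 1, ∀ b ∈ ball (0:ℂ) 1, α a = α b → β a = β b) := by
  by_cases hG : α '' ball (0:ℂ) 1 = univ
  · refine ⟨α, hα, ?_, ?_, fun _ _ _ _ h => h⟩
    · intro K _ hK
      obtain ⟨R, hR⟩ := hK.isBounded.exists_norm_le
      exact ⟨R, fun z _ hz => hR _ hz⟩
    · intro R
      have : ((|R| : ℝ) : ℂ) ∈ α '' ball (0:ℂ) 1 := by rw [hG]; trivial
      obtain ⟨z, hz, hzR⟩ := this
      refine ⟨z, hz, ?_⟩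
      rw [hzR, Complex.norm_of_nonneg (abs_nonneg R)]
      exact le_abs_self R
  · -- pick a boundary point
    have hopen : IsOpen (α '' ball (0:ℂ) 1) := by
      rcases hα.is_constant_or_isOpen (convex_ball (0:ℂ) 1).isPreconnected with h | h
      · obtain ⟨w, hw⟩ := h
        obtain ⟨a, ha, b, hb, hab⟩ := hnc
        exact absurd ((hw a ha).trans (hw b hb).symm) hab
      · exact h _ Subset.rfl isOpen_ball
    have hne : (α '' ball (0:ℂ) 1).Nonempty := ⟨α 0, 0, by simp, rfl⟩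
    have hfr : (frontier (α '' ball (0:ℂ) 1)).Nonempty := by
      by_contra h
      rw [not_nonempty_iff_eq_empty] at h
      rcases isClopen_iff.1 (isClopen_iff_frontier_eq_empty.2 h) with h1 | h1
      · exact hne.ne_empty h1
      · exact hG h1
    obtain ⟨p, hp⟩ := hfr
    have hp1 : p ∈ closure (α '' ball (0:ℂ) 1) := hp.1
    have hp2 : p ∉ α '' ball (0:ℂ) 1 := by
      have := hp.2
      rwa [hopen.interior_eq] at this
    have hne0 : ∀ z ∈ ball (0:ℂ) 1, α z - p ≠ 0 := by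
      intro z hz h
      exact hp2 ⟨z, hz, sub_eq_zero.1 h⟩
    refine ⟨fun z => (α z - p)⁻¹, ?_, ?_, ?_, ?_⟩
    · exact (hα.sub analyticOnNhd_const).inv hne0
    · intro K hKs hK
      rcases K.eq_empty_or_nonempty with rfl | hKne
      · exact ⟨0, fun z _ hz => absurd hz (notMem_empty _)⟩
      have hpK : p ∉ K := fun h => hp2 (hKs h)
      have hpos : 0 < infDist p K := (hK.isClosed.notMem_iff_infDist_pos hKne).1 hpK
      refine ⟨(infDist p K)⁻¹, ?_⟩
      intro z _ hz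
      rw [norm_inv]
      apply inv_anti₀ hpos
      have := infDist_le_dist_of_mem (x := p) hz
      rwa [dist_comm, dist_eq_norm] at this
    · intro R
      obtain ⟨y, ⟨z, hz, rfl⟩, hy⟩ := Metric.mem_closure_iff.1 hp1 (|R| + 1)⁻¹ (by positivity)
      refine ⟨z, hz, ?_⟩
      rw [norm_inv]
      rw [dist_comm, dist_eq_norm] at hy
      have hpos : 0 < ‖α z - p‖ := norm_pos_iff.2 (hne0 z hz)
      have : |R| + 1 ≤ ‖α z - p‖⁻¹ := by
        rw [le_inv_comm₀ (by positivity) hpos]; exact hy.le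
      have := le_abs_self R
      linarith
    · intro a _ b _ h
      simp only
      rw [h]

/-- the inverse of a univalent function is analytic -/
lemma inverse_analytic (α : ℂ → ℂ) (hα : AnalyticOnNhd ℂ α (ball (0:ℂ) 1))
    (hnc : ∃ a ∈ ball (0:ℂ) 1, ∃ b ∈ ball (0:ℂ) 1, α a ≠ α b)
    (hinj : InjOn α (ball (0:ℂ) 1)) :
    AnalyticOnNhd ℂ (Function.invFunOn α (ball (0:ℂ) 1)) (α '' ball (0:ℂ) 1) := by
  set D := ball (0:ℂ) 1 with hD
  set g := Function.invFunOn α D with hg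
  have hopenmap : ∀ s ⊆ D, IsOpen s → IsOpen (α '' s) := by
    rcases hα.is_constant_or_isOpen (convex_ball (0:ℂ) 1).isPreconnected with h | h
    · obtain ⟨w, hw⟩ := h
      obtain ⟨a, ha, b, hb, hab⟩ := hnc
      exact absurd ((hw a ha).trans (hw b hb).symm) hab
    · exact h
  have hopen : IsOpen (α '' D) := hopenmap D Subset.rfl isOpen_ball
  have hgD : ∀ w ∈ α '' D, g w ∈ D := fun w hw => Function.invFunOn_mem hw
  have hαg : ∀ w ∈ α '' D, α (g w) = w := fun w hw => Function.invFunOn_eq hw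
  have hgα : ∀ z ∈ D, g (α z) = z := fun z hz => hinj.leftInvOn_invFunOn hz
  have hcont : ∀ w ∈ α '' D, ContinuousAt g w := by
    intro w hw
    rw [ContinuousAt, tendsto_def]
    intro V hV
    obtain ⟨O, hOV, hO, hgO⟩ := _root_.mem_nhds_iff.1 hV
    have h1 : IsOpen (α '' (O ∩ D)) := hopenmap _ inter_subset_right (hO.inter isOpen_ball)
    refine mem_of_superset (h1.mem_nhds ⟨g w, ⟨hgO, hgD w hw⟩, hαg w hw⟩) ?_
    rintro _ ⟨z, ⟨hzO, hzD⟩, rfl⟩
    rw [mem_preimage, hgα z hzD]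
    exact hOV hzO
  have hdiff : ∀ w ∈ α '' D, deriv α (g w) ≠ 0 → DifferentiableAt ℂ g w := by
    intro w hw hd
    have h1 : HasDerivAt α (deriv α (g w)) (g w) :=
      (hα (g w) (hgD w hw)).differentiableAt.hasDerivAt
    have h2 : ∀ᶠ y in 𝓝 w, α (g y) = y := by
      filter_upwards [hopen.mem_nhds hw] with y hy
      exact hαg y hy
    exact (HasDerivAt.of_local_left_inverse (hcont w hw) h1 hd h2).differentiableAt
  intro w hw
  have hz : g w ∈ D := hgD w hw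
  apply Complex.analyticAt_of_differentiable_on_punctured_nhds_of_continuousAt _ (hcont w hw)
  have hder := (hα (g w) hz).deriv.eventually_eq_zero_or_eventually_ne_zero
  have hder' : ∀ᶠ z in 𝓝[≠] (g w), deriv α z ≠ 0 := by
    rcases hder with h | h
    · exfalso
      obtain ⟨ε, hε, hball⟩ := Metric.eventually_nhds_iff_ball.1
        (h.and (isOpen_ball.mem_nhds hz : ∀ᶠ z in 𝓝 (g w), z ∈ D))
      have hconst : ∀ z ∈ ball (g w) ε, α z = α (g w) := by
        intro z hz'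
        have hdo : DifferentiableOn ℂ α (ball (g w) ε) := fun y hy =>
          (hα y (hball y hy).2).differentiableAt.differentiableWithinAt
        refine (convex_ball (g w) ε).is_const_of_fderivWithin_eq_zero (𝕜 := ℂ) hdo ?_ hz'
          (mem_ball_self hε)
        intro y hy
        rw [fderivWithin_of_isOpen isOpen_ball hy]
        ext
        have := (hball y hy).1
        simpa using this
      have h1 : g w + (ε / 2 : ℝ) ∈ ball (g w) ε := by
        rw [mem_ball_iff_norm, add_sub_cancel_left, Complex.norm_of_nonneg (by positivity)]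
        linarith
      have h2 := hinj (hball _ h1).2 hz (hconst _ h1)
      have h3 : ((ε / 2 : ℝ) : ℂ) = 0 := by linear_combination h2
      have h4 : ε / 2 = 0 := by exact_mod_cast h3
      linarith
    · exact h
  have htend : Tendsto g (𝓝[≠] w) (𝓝[≠] (g w)) := by
    apply tendsto_nhdsWithin_of_tendsto_nhds_of_eventually_within
    · exact (hcont w hw).tendsto.mono_left nhdsWithin_le_nhds
    · have : ∀ᶠ y in 𝓝[≠] w, y ∈ α '' D := nhdsWithin_le_nhds (hopen.mem_nhds hw)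
      filter_upwards [this, self_mem_nhdsWithin] with y hy hne heq
      apply hne
      have h1 := hαg y hy
      rw [mem_singleton_iff] at heq
      rw [heq, hαg w hw] at h1
      exact h1.symm
  have h3 : ∀ᶠ y in 𝓝[≠] w, y ∈ α '' D := nhdsWithin_le_nhds (hopen.mem_nhds hw)
  filter_upwards [htend.eventually hder', h3] with y hy hy2
  exact hdiff y hy2 hy

/-- A non-constant analytic map α on the unit disk has the property every analytic f such that α has the L-property on each sequence tending to the boundary where f has it factors as φ∘α with φ analytic on α(disk) exactly when α is injective on the disk. -/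
theorem result :
    ∀ α : ℂ → ℂ, AnalyticOnNhd ℂ α (Metric.ball (0:ℂ) 1) →
      (∃ a ∈ Metric.ball (0:ℂ) 1, ∃ b ∈ Metric.ball (0:ℂ) 1, α a ≠ α b) →
      ((∀ f : ℂ → ℂ, AnalyticOnNhd ℂ f (Metric.ball (0:ℂ) 1) →
          (∀ z : ℕ → ℂ, (∀ n, z n ∈ Metric.ball (0:ℂ) 1) →
            Tendsto (fun n => ‖z n‖) atTop (𝓝 1) →
            (∀ K : Set ℂ, K ⊆ f '' Metric.ball (0:ℂ) 1 → IsCompact K →
              {n : ℕ | f (z n) ∈ K}.Finite) →
            (∀ K : Set ℂ, K ⊆ α '' Metric.ball (0:ℂ) 1 → IsCompact K →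
              {n : ℕ | α (z n) ∈ K}.Finite)) →
          ∃ φ : ℂ → ℂ, AnalyticOnNhd ℂ φ (α '' Metric.ball (0:ℂ) 1) ∧
            ∀ w ∈ Metric.ball (0:ℂ) 1, f w = φ (α w))
        ↔ Set.InjOn α (Metric.ball (0:ℂ) 1)) := by
  intro α hα hnc
  constructor
  · intro hatom a ha b hb hab
    by_contra hne
    obtain ⟨β, hβ, hβK, hβub, hβeq⟩ := exists_beta α hα hnc
    let g : ℂ → ℂ := fun z => β z + z
    have hg : AnalyticOnNhd ℂ g (ball (0:ℂ) 1) := hβ.add analyticOnNhd_id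
    have hgub : ∀ R : ℝ, ∃ w ∈ g '' ball (0:ℂ) 1, R ≤ ‖w‖ := by
      intro R
      obtain ⟨z, hz, hzR⟩ := hβub (R + 1)
      refine ⟨g z, ⟨z, hz, rfl⟩, ?_⟩
      have h1 : ‖z‖ < 1 := by simpa using hz
      have h2 : ‖β z‖ ≤ ‖g z‖ + ‖z‖ := by
        have := norm_sub_le (g z) z
        simpa [g] using this
      linarith
    have hgopen : IsOpen (g '' ball (0:ℂ) 1) := by
      rcases hg.is_constant_or_isOpen (convex_ball (0:ℂ) 1).isPreconnected with h | h
      · obtain ⟨w, hw⟩ := h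
        obtain ⟨y, ⟨z, hz, rfl⟩, hy⟩ := hgub (‖w‖ + 1)
        rw [hw z hz] at hy
        linarith
      · exact h _ Subset.rfl isOpen_ball
    have hgab : g a ≠ g b := by
      intro h
      apply hne
      have h1 := hβeq a ha b hb hab
      have h2 : β a + a = β b + b := h
      rw [h1] at h2
      exact add_left_cancel h2
    obtain ⟨F, hF, hFsurj, hFab⟩ := exists_entire _ hgopen hgub (g a) (g b) hgab
    have hfa : AnalyticOnNhd ℂ (F ∘ g) (ball (0:ℂ) 1) := by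
      intro z hz
      exact (hF.analyticAt (g z)).comp (hg z hz)
    obtain ⟨φ, -, hφ⟩ := hatom (F ∘ g) hfa (by
      intro z hz _ hL K hKs hK
      obtain ⟨R, hR⟩ := hβK K hKs hK
      obtain ⟨M, hM⟩ := (isCompact_closedBall (0:ℂ) (R + 1)).exists_bound_of_continuousOn
        hF.continuous.continuousOn
      have hfin := hL (closedBall (0:ℂ) M) (by
        intro ζ _
        obtain ⟨w, ⟨y, hy, rfl⟩, hw⟩ := hFsurj ζ
        exact ⟨y, hy, hw⟩) (isCompact_closedBall _ _)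
      refine hfin.subset ?_
      intro n hn
      rw [mem_ofPred_eq] at hn ⊢
      rw [mem_closedBall_zero_iff]
      apply hM
      rw [mem_closedBall_zero_iff]
      have h1 := hR (z n) (hz n) hn
      have h2 : ‖z n‖ < 1 := by simpa using hz n
      have h3 := norm_add_le (β (z n)) (z n)
      show ‖β (z n) + z n‖ ≤ R + 1
      linarith)
    apply hFab
    have h1 := hφ a ha
    have h2 := hφ b hb
    rw [hab] at h1
    exact h1.trans h2.symm
  · intro hinj f hf _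
    refine ⟨f ∘ Function.invFunOn α (ball (0:ℂ) 1), ?_, ?_⟩
    · intro w hw
      exact (hf _ (Function.invFunOn_mem hw)).comp (inverse_analytic α hα hnc hinj w hw)
    · intro w hw
      simp only [Function.comp_apply]
      rw [hinj.leftInvOn_invFunOn hw]

end Pool.Agent.S02679
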