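import Pool.Statements.S02708
-- import your own Pool.Agent.* helpers here

set_option autoImplicit false
open Polynomial
open Pool Pool.MP_15266c_an

namespace Pool.Agent.S02708

noncomputable section

/-- `Q = (11/10) (X² - 1)` -/
def Q : Polynomial ℂ := C (11 / 10) * (X ^ 2 - 1)

/-- the cofactor -/
def R : Polynomial ℂ := (X + 1) ^ 5 * (X ^ 2 - X + C (58 / 169))

def P : Polynomial ℂ := Q * R

lemma Q_deg : Q.natDegree = 2 := by
  unfold Q
  rw [natDegree_C_mul (by norm_num)]
  compute_degree!

lemma Q_ne : Q ≠ 0 := by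
  intro h; have := Q_deg; rw [h] at this; simp at this

lemma quad_deg : (X ^ 2 - X + C (58 / 169) : Polynomial ℂ).natDegree = 2 := by
  compute_degree!

lemma lin_ne : (X + 1 : Polynomial ℂ) ≠ 0 := by
  intro h
  have := congrArg (eval 0) h
  simp at this

lemma quad_ne : (X ^ 2 - X + C (58 / 169) : Polynomial ℂ) ≠ 0 := by
  intro h; have := quad_deg; rw [h] at this; simp at this

lemma R_deg : R.natDegree = 7 := by
  unfold R
  rw [natDegree_mul (pow_ne_zero _ lin_ne) quad_ne, natDegree_pow, quad_deg]
  have : (X + 1 : Polynomial ℂ).natDegree = 1 := by compute_degree!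
  rw [this]

lemma R_ne : R ≠ 0 := by
  intro h; have := R_deg; rw [h] at this; simp at this

lemma P_deg : P.natDegree = 9 := by
  unfold P
  rw [natDegree_mul Q_ne R_ne, Q_deg, R_deg]

/-- square root of 62 over 117 -/
def w : ℝ := Real.sqrt 62 / 117

lemma w_sq : w ^ 2 = 62 / 13689 := by
  unfold w
  rw [div_pow, Real.sq_sqrt (by norm_num)]
  norm_num

def z1 : ℂ := ⟨35 / 117, w⟩
def z2 : ℂ := ⟨35 / 117, -w⟩

lemma quad_z1 : z1 ^ 2 = 70 / 117 * z1 - 11 / 117 := by
  have h := w_sq
  apply Complex.ext
  · simp [z1, pow_two]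
    nlinarith
  · simp [z1, pow_two]
    ring

lemma quad_z2 : z2 ^ 2 = 70 / 117 * z2 - 11 / 117 := by
  have h := w_sq
  apply Complex.ext
  · simp [z2, pow_two]
    nlinarith
  · simp [z2, pow_two]
    ring

lemma der_eval (z : ℂ) : (derivative P).eval z =
    11 / 10 * 9 * (z + 1) ^ 5 * ((z - 11 / 13) * (z ^ 2 - 70 / 117 * z + 11 / 117)) := by
  simp only [P, Q, R, derivative_mul, derivative_C, derivative_sub, derivative_add,
    derivative_X_pow, derivative_pow, derivative_X, derivative_one, eval_mul, eval_add, eval_sub,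
    eval_pow, eval_X, eval_C, eval_one, eval_zero]
  norm_num
  ring

lemma z12 : z1 ≠ z2 := by
  intro h
  have h1 := congrArg Complex.im h
  have h2 : w = 0 := by
    have : w = - w := h1
    linarith
  have := w_sq
  rw [h2] at this
  norm_num at this

lemma P_roots (z : ℂ) (hz : z ∈ P.roots) : ‖Q.eval z‖ ≤ 1 := by
  have h0 : P.eval z = 0 := (mem_roots'.1 hz).2
  have hQ : Q.eval z = 11 / 10 * (z ^ 2 - 1) := by simp [Q]
  have hR : R.eval z = (z + 1) ^ 5 * (z ^ 2 - z + 58 / 169) := by simp [R]
  unfold P at h0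
  rw [eval_mul] at h0
  rcases mul_eq_zero.1 h0 with h | h
  · rw [h]; simp
  · rw [hR] at h
    rcases mul_eq_zero.1 h with h | h
    · have h1 : z + 1 = 0 := by
        by_contra hne
        exact (pow_ne_zero 5 hne) h
      have : Q.eval z = 0 := by
        rw [hQ]
        linear_combination (11 / 10) * (z - 1) * h1
      rw [this]; simp
    · -- the two complex roots
      have hre : z.re ^ 2 - z.im ^ 2 - z.re + 58 / 169 = 0 := by
        have := congrArg Complex.re h
        simp [pow_two] at this
        linarith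
      have him : 2 * z.re * z.im - z.im = 0 := by
        have := congrArg Complex.im h
        simp [pow_two] at this
        linarith
      have him' : z.im * (2 * z.re - 1) = 0 := by linarith
      have hx : z.re = 1 / 2 := by
        rcases mul_eq_zero.1 him' with h1 | h1
        · exfalso
          rw [h1] at hre
          nlinarith [sq_nonneg (z.re - 1 / 2)]
        · linarith
      have hy : z.im ^ 2 = 63 / 676 := by
        rw [hx] at hre
        linarith
      have hn : ‖Q.eval z‖ ^ 2 ≤ 1 := by
        rw [← Complex.normSq_eq_norm_sq, hQ, Complex.normSq_apply]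
        have e1 : (11 / 10 * (z ^ 2 - 1) : ℂ).re = 11 / 10 * (z.re ^ 2 - z.im ^ 2 - 1) := by
          simp [pow_two]
        have e2 : (11 / 10 * (z ^ 2 - 1) : ℂ).im = 11 / 10 * (2 * z.re * z.im) := by
          simp [pow_two]; ring
        rw [e1, e2, hx]
        nlinarith
      exact (sq_le_one_iff₀ (norm_nonneg _)).1 hn

lemma Q_z (z : ℂ) (hre : z.re = 35 / 117) (him : z.im ^ 2 = 62 / 13689) : ¬ ‖Q.eval z‖ ≤ 1 := by
  intro hle
  have hn : ‖Q.eval z‖ ^ 2 ≤ 1 := (sq_le_one_iff₀ (norm_nonneg _)).2 hle
  have hQ : Q.eval z = 11 / 10 * (z ^ 2 - 1) := by simp [Q]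
  rw [← Complex.normSq_eq_norm_sq, hQ, Complex.normSq_apply] at hn
  have e1 : (11 / 10 * (z ^ 2 - 1) : ℂ).re = 11 / 10 * (z.re ^ 2 - z.im ^ 2 - 1) := by
    simp [pow_two]
  have e2 : (11 / 10 * (z ^ 2 - 1) : ℂ).im = 11 / 10 * (2 * z.re * z.im) := by
    simp [pow_two]; ring
  rw [e1, e2, hre] at hn
  nlinarith

/-- The negation of the preceding statement: For complex polynomials Q of degree m ≥ 1 and P of degree n > m with Q dividing P and all zeros of P in {∣Q∣ ≤ 1}, the derivative P′ has at least n − m zeros (with multiplicity) in {∣Q∣ ≤ 1}. -/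
theorem result :
    ¬ (∀ (P Q : Polynomial ℂ), 1 ≤ Q.natDegree → Q.natDegree < P.natDegree → Q ∣ P →
      (∀ z ∈ P.roots, ‖Q.eval z‖ ≤ 1) →
      P.natDegree - Q.natDegree ≤
        (Multiset.filter (fun z => ‖Q.eval z‖ ≤ 1) (Polynomial.derivative P).roots).card) := by
  intro H
  have h1 := H P Q (by rw [Q_deg]; norm_num) (by rw [Q_deg, P_deg]; norm_num) ⟨R, rfl⟩ P_roots
  rw [P_deg, Q_deg] at h1
  have hne : derivative P ≠ 0 := by
    intro h
    have := der_eval 0
    rw [h, eval_zero] at this
    norm_num at this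
  have hr1 : z1 ∈ (derivative P).roots := by
    rw [mem_roots hne, IsRoot.def, der_eval, quad_z1]; ring
  have hr2 : z2 ∈ (derivative P).roots := by
    rw [mem_roots hne, IsRoot.def, der_eval, quad_z2]; ring
  have hn1 : ¬ ‖Q.eval z1‖ ≤ 1 := Q_z z1 rfl w_sq
  have hn2 : ¬ ‖Q.eval z2‖ ≤ 1 := Q_z z2 rfl (by show (-w) ^ 2 = _; rw [neg_sq]; exact w_sq)
  have hcard : Multiset.card (derivative P).roots ≤ 8 := by
    refine (card_roots' _).trans ?_
    refine (natDegree_derivative_le _).trans ?_
    rw [P_deg]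
  have hsplit := Multiset.filter_add_not (fun z => ‖Q.eval z‖ ≤ 1) (derivative P).roots
  have hsum := congrArg Multiset.card hsplit
  rw [Multiset.card_add] at hsum
  have h2 : 2 ≤ Multiset.card
      (Multiset.filter (fun z => ¬ ‖Q.eval z‖ ≤ 1) (derivative P).roots) := by
    have hsub : ({z1, z2} : Multiset ℂ) ≤
        Multiset.filter (fun z => ¬ ‖Q.eval z‖ ≤ 1) (derivative P).roots := by
      rw [Multiset.le_iff_subset]
      · intro z hz
        rw [Multiset.mem_filter]
        simp only [Multiset.insert_eq_cons, Multiset.mem_cons, Multiset.mem_singleton] at hz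
        rcases hz with rfl | rfl
        · exact ⟨hr1, hn1⟩
        · exact ⟨hr2, hn2⟩
      · simp [z12]
    have := Multiset.card_le_card hsub
    simpa using this
  omega

end

end Pool.Agent.S02708
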