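import Pool.Statements.S02728
-- import your own Pool.Agent.* helpers here

set_option autoImplicit false
open Pool Pool.MP_171342_an

namespace Pool.Agent.S02728

noncomputable section

/-! ### generic facts about sets of subsums -/

/-- the set of subsums -/
def Sub (x : ℕ → ℝ) : Set ℝ := {s | ∃ A : Set ℕ, s = ∑' n, A.indicator x n}

lemma summ_ind {x : ℕ → ℝ} (hx : Summable x) (A : Set ℕ) : Summable (A.indicator x) :=
  hx.indicator A

lemma sub_succ {x : ℕ → ℝ} (hx : Summable x) (s : ℝ) :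
    s ∈ Sub x ↔ s ∈ Sub (fun n => x (n + 1)) ∨ s - x 0 ∈ Sub (fun n => x (n + 1)) := by
  have key : ∀ A : Set ℕ, ∑' n, A.indicator x n =
      A.indicator x 0 + ∑' n, {m | m + 1 ∈ A}.indicator (fun n => x (n + 1)) n := by
    intro A
    rw [(summ_ind hx A).tsum_eq_zero_add]
    congr 1
  constructor
  · rintro ⟨A, rfl⟩
    rw [key A]
    by_cases h : (0 : ℕ) ∈ A
    · right
      refine ⟨{m | m + 1 ∈ A}, ?_⟩
      rw [Set.indicator_of_mem h]
      ring
    · left
      refine ⟨{m | m + 1 ∈ A}, ?_⟩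
      rw [Set.indicator_of_notMem h, zero_add]
  · rintro (⟨B, hB⟩ | ⟨B, hB⟩)
    · refine ⟨Nat.succ '' B, ?_⟩
      rw [key]
      have h0 : (0 : ℕ) ∉ Nat.succ '' B := by simp
      have h1 : {m | m + 1 ∈ Nat.succ '' B} = B := by ext m; simp
      rw [Set.indicator_of_notMem h0, h1, zero_add, hB]
    · refine ⟨insert 0 (Nat.succ '' B), ?_⟩
      rw [key]
      have h0 : (0 : ℕ) ∈ insert 0 (Nat.succ '' B) := Set.mem_insert _ _
      have h1 : {m | m + 1 ∈ insert 0 (Nat.succ '' B)} = B := by ext m; simp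
      rw [Set.indicator_of_mem h0, h1, ← hB]
      ring

lemma sub_scale (x : ℕ → ℝ) (s : ℝ) :
    s ∈ Sub (fun n => (1 / 4 : ℝ) * x n) ↔ 4 * s ∈ Sub x := by
  have key : ∀ A : Set ℕ, ∑' n, A.indicator (fun n => (1 / 4 : ℝ) * x n) n =
      (1 / 4) * ∑' n, A.indicator x n := by
    intro A
    rw [← tsum_mul_left]
    congr 1
    ext n
    by_cases h : n ∈ A <;> simp [h]
  constructor
  · rintro ⟨A, hA⟩
    refine ⟨A, ?_⟩
    rw [key] at hA
    rw [hA]; ring
  · rintro ⟨A, hA⟩
    refine ⟨A, ?_⟩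
    rw [key, ← hA]; ring

lemma sub_compact {x : ℕ → ℝ} (hx : Summable x) (hpos : ∀ n, 0 < x n) : IsCompact (Sub x) := by
  classical
  have h1 : Sub x = Set.range (fun b : ℕ → Bool => ∑' n, (if b n then x n else 0)) := by
    ext s
    constructor
    · rintro ⟨A, rfl⟩
      refine ⟨fun n => decide (n ∈ A), ?_⟩
      show ∑' n, _ = _
      congr 1
      ext n
      by_cases h : n ∈ A <;> simp [h]
    · rintro ⟨b, rfl⟩
      refine ⟨{n | b n = true}, ?_⟩
      show ∑' n, _ = _
      congr 1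
      ext n
      simp [Set.indicator_apply]
  rw [h1]
  apply isCompact_range
  refine continuous_tsum (u := x) ?_ hx ?_
  · intro n
    have : Continuous (fun c : Bool => if c then x n else 0) := continuous_of_discreteTopology
    exact this.comp (continuous_apply n)
  · intro n b
    by_cases h : b n <;> simp [h, abs_of_pos (hpos n), (hpos n).le]

/-! ### the Guthrie-Nymann set -/

/-- the Guthrie-Nymann sequence `3/4, 2/4, 3/16, 2/16, ...` -/
def g (n : ℕ) : ℝ := (if n % 2 = 0 then 3 else 2) / 4 ^ (n / 2 + 1)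

lemma g_even (k : ℕ) : g (2 * k) = 3 / 4 * (1 / 4) ^ k := by
  unfold g
  have h1 : (2 * k) % 2 = 0 := by omega
  have h2 : (2 * k) / 2 = k := by omega
  have h3 : ((1 : ℝ) / 4) ^ k = 1 / 4 ^ k := by rw [div_pow, one_pow]
  rw [h1, h2, if_pos rfl, pow_succ, h3]
  field_simp

lemma g_odd (k : ℕ) : g (2 * k + 1) = 1 / 2 * (1 / 4) ^ k := by
  unfold g
  have h1 : (2 * k + 1) % 2 = 1 := by omega
  have h2 : (2 * k + 1) / 2 = k := by omega
  have h3 : ((1 : ℝ) / 4) ^ k = 1 / 4 ^ k := by rw [div_pow, one_pow]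
  rw [h1, h2, if_neg (by norm_num), pow_succ, h3]
  field_simp
  norm_num

lemma g_pos (n : ℕ) : 0 < g n := by
  unfold g
  split_ifs <;> positivity

lemma g_hasSum : HasSum g (5 / 3) := by
  have h1 : HasSum (fun k => g (2 * k)) 1 := by
    have := (hasSum_geometric_of_lt_one (r := 1 / 4) (by norm_num) (by norm_num)).mul_left (3 / 4)
    have e : (fun k : ℕ => g (2 * k)) = fun k : ℕ => 3 / 4 * (1 / 4 : ℝ) ^ k := by
      ext k; exact g_even k
    have e2 : (3 / 4 * (1 - 1 / 4)⁻¹ : ℝ) = 1 := by norm_num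
    rw [e]
    rw [e2] at this
    exact this
  have h2 : HasSum (fun k => g (2 * k + 1)) (2 / 3) := by
    have := (hasSum_geometric_of_lt_one (r := 1 / 4) (by norm_num) (by norm_num)).mul_left (1 / 2)
    have e : (fun k : ℕ => g (2 * k + 1)) = fun k : ℕ => 1 / 2 * (1 / 4 : ℝ) ^ k := by
      ext k; exact g_odd k
    have e2 : (1 / 2 * (1 - 1 / 4)⁻¹ : ℝ) = 2 / 3 := by norm_num
    rw [e]
    rw [e2] at this
    exact this
  have := h1.even_add_odd h2
  convert this using 1
  norm_num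

lemma g_summ : Summable g := g_hasSum.summable

lemma g_shift (n : ℕ) : g (n + 1 + 1) = 1 / 4 * g n := by
  unfold g
  have h1 : (n + 1 + 1) % 2 = n % 2 := by omega
  have h2 : (n + 1 + 1) / 2 = n / 2 + 1 := by omega
  rw [h1, h2, pow_succ (4 : ℝ) (n / 2 + 1)]
  field_simp

lemma g0 : g 0 = 3 / 4 := by simp [g]
lemma g1 : g 1 = 2 / 4 := by simp [g]

/-- the Guthrie-Nymann Cantorval -/
def E : Set ℝ := Sub g

lemma E_iff (s : ℝ) : s ∈ E ↔ 4 * s ∈ E ∨ 4 * s - 2 ∈ E ∨ 4 * s - 3 ∈ E ∨ 4 * s - 5 ∈ E := by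
  have hs1 : Summable (fun n => g (n + 1)) := (summable_nat_add_iff 1).2 g_summ
  have h2 : ∀ s : ℝ, s ∈ Sub (fun n => g (n + 1)) ↔ 4 * s ∈ E ∨ 4 * s - 2 ∈ E := by
    intro s
    rw [sub_succ hs1]
    have : (fun n => g (n + 1 + 1)) = fun n => (1 / 4 : ℝ) * g n := by
      ext n; exact g_shift n
    show s ∈ Sub (fun n => g (n + 1 + 1)) ∨ s - g (0 + 1) ∈ Sub (fun n => g (n + 1 + 1)) ↔ _
    rw [this, sub_scale, sub_scale, zero_add, g1]
    have e : 4 * (s - 2 / 4) = 4 * s - 2 := by ring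
    rw [e]
    rfl
  show s ∈ Sub g ↔ _
  rw [sub_succ g_summ, h2, h2, g0]
  have e1 : 4 * (s - 3 / 4) = 4 * s - 3 := by ring
  have e2 : 4 * s - 3 - 2 = 4 * s - 5 := by ring
  rw [e1, e2, or_assoc]

lemma E_zero : (0 : ℝ) ∈ E := ⟨∅, by simp⟩

lemma E_nonneg {s : ℝ} (h : s ∈ E) : 0 ≤ s := by
  obtain ⟨A, rfl⟩ := h
  exact tsum_nonneg fun n => Set.indicator_nonneg (fun n _ => (g_pos n).le) n

lemma E_le {s : ℝ} (h : s ∈ E) : s ≤ 5 / 3 := by
  obtain ⟨A, rfl⟩ := h
  rw [← g_hasSum.tsum_eq]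
  refine Summable.tsum_le_tsum ?_ (summ_ind g_summ A) g_summ
  intro n
  exact Set.indicator_le_self' (fun n _ => (g_pos n).le) n

lemma E_symm {s : ℝ} (h : s ∈ E) : 5 / 3 - s ∈ E := by
  obtain ⟨A, rfl⟩ := h
  refine ⟨Aᶜ, ?_⟩
  rw [← g_hasSum.tsum_eq, ← (g_summ).tsum_sub (summ_ind g_summ A)]
  congr 1
  ext n
  by_cases hn : n ∈ A <;> simp [hn]

lemma E_compact : IsCompact E := sub_compact g_summ g_pos

lemma E_gap {y : ℝ} (h1 : 5 / 12 < y) (h2 : y < 1 / 2) : y ∉ E := by
  intro h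
  rcases (E_iff y).1 h with h | h | h | h
  · linarith [E_le h]
  · linarith [E_nonneg h]
  · linarith [E_nonneg h]
  · linarith [E_nonneg h]

lemma E_small {y : ℝ} (h2 : y < 1 / 2) (h : y ∈ E) : 4 * y ∈ E := by
  rcases (E_iff y).1 h with h | h | h | h
  · exact h
  · linarith [E_nonneg h]
  · linarith [E_nonneg h]
  · linarith [E_nonneg h]

lemma gap_small (m : ℕ) : (11 / 24 : ℝ) / 4 ^ m ∉ E := by
  induction m with
  | zero => apply E_gap <;> norm_num
  | succ m ih =>
    intro h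
    have h1 : (11 / 24 : ℝ) / 4 ^ (m + 1) < 1 / 2 := by
      rw [div_lt_iff₀ (by positivity)]
      have : (1 : ℝ) ≤ 4 ^ (m + 1) := one_le_pow₀ (by norm_num)
      linarith
    have := E_small h1 h
    apply ih
    convert this using 1
    rw [pow_succ]; field_simp

lemma E_C_branch (y : ℝ) (j : ℕ) (hj : j < 4) (hy : y ∈ E ∨ y + 1 ∈ E) :
    ((j : ℝ) + y) / 4 ∈ E ∨ ((j : ℝ) + y) / 4 + 1 ∈ E := by
  interval_cases j
  · rcases hy with h | h
    · left; rw [E_iff]; left; convert h using 1; push_cast; ring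
    · right; rw [E_iff]; right; right; left; convert h using 1; push_cast; ring
  · rcases hy with h | h
    · right; rw [E_iff]; right; right; right; convert h using 1; push_cast; ring
    · left; rw [E_iff]; left; convert h using 1; push_cast; ring
  · rcases hy with h | h
    · left; rw [E_iff]; right; left; convert h using 1; push_cast; ring
    · right; rw [E_iff]; right; right; right; convert h using 1; push_cast; ring
  · rcases hy with h | h
    · left; rw [E_iff]; right; right; left; convert h using 1; push_cast; ring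
    · left; rw [E_iff]; right; left; convert h using 1; push_cast; ring

lemma E_C_adic (m : ℕ) : ∀ j : ℕ, j < 4 ^ m →
    ((j : ℝ) / 4 ^ m ∈ E ∨ (j : ℝ) / 4 ^ m + 1 ∈ E) := by
  induction m with
  | zero =>
    intro j hj
    have : j = 0 := by simpa using hj
    subst this
    left; simpa using E_zero
  | succ m ih =>
    intro j hj
    have hr : j % 4 ^ m < 4 ^ m := Nat.mod_lt _ (by positivity)
    have hq : j / 4 ^ m < 4 := by
      rw [Nat.div_lt_iff_lt_mul (by positivity)]
      rw [pow_succ] at hj; linarith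
    have h := E_C_branch _ (j / 4 ^ m) hq (ih (j % 4 ^ m) hr)
    have e : (((j / 4 ^ m : ℕ) : ℝ) + ((j % 4 ^ m : ℕ) : ℝ) / 4 ^ m) / 4 = (j : ℝ) / 4 ^ (m + 1) := by
      have h1 : ((4 ^ m * (j / 4 ^ m) + j % 4 ^ m : ℕ) : ℝ) = (j : ℝ) := by
        rw [Nat.div_add_mod]
      push_cast at h1
      rw [pow_succ, ← h1]
      field_simp
    rwa [e] at h

lemma E_C {y : ℝ} (h0 : 0 ≤ y) (h1 : y < 1) : y ∈ E ∨ y + 1 ∈ E := by
  have hcl : IsClosed {y : ℝ | y ∈ E ∨ y + 1 ∈ E} := by
    have a1 : IsClosed E := E_compact.isClosed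
    have a2 : IsClosed {y : ℝ | y + 1 ∈ E} := a1.preimage (continuous_id.add continuous_const)
    exact a1.union a2
  have : y ∈ closure {y : ℝ | y ∈ E ∨ y + 1 ∈ E} := by
    rw [Metric.mem_closure_iff]
    intro ε hε
    obtain ⟨m, hm⟩ := exists_pow_lt_of_lt_one hε (show (1 / 4 : ℝ) < 1 by norm_num)
    have h4 : (0 : ℝ) < 4 ^ m := by positivity
    refine ⟨(⌊y * 4 ^ m⌋₊ : ℝ) / 4 ^ m, E_C_adic m _ ?_, ?_⟩
    · rw [Nat.floor_lt (by positivity)]
      push_cast
      nlinarith
    · have b1 : (⌊y * 4 ^ m⌋₊ : ℝ) ≤ y * 4 ^ m := Nat.floor_le (by positivity)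
      have b2 : y * 4 ^ m < (⌊y * 4 ^ m⌋₊ : ℝ) + 1 := Nat.lt_floor_add_one _
      have b3 : (⌊y * 4 ^ m⌋₊ : ℝ) / 4 ^ m ≤ y := by rw [div_le_iff₀ h4]; exact b1
      have b4 : y - (⌊y * 4 ^ m⌋₊ : ℝ) / 4 ^ m < (1 / 4) ^ m := by
        rw [one_div, inv_pow, sub_lt_iff_lt_add, ← one_div, ← add_div, lt_div_iff₀ h4]
        linarith
      rw [Real.dist_eq, abs_of_nonneg (by linarith)]
      linarith
  rwa [hcl.closure_eq] at this

lemma E_quarter {x : ℝ} (h1 : 3 / 4 ≤ x) (h2 : x < 1) : x ∈ E := by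
  rcases E_C (y := 4 * x - 3) (by linarith) (by linarith) with h | h
  · rw [E_iff]; right; right; left; exact h
  · rw [E_iff]; right; left; convert h using 1; ring

lemma E_full' (n : ℕ) : ∀ x : ℝ, 2 / 3 + (1 / 12) / 4 ^ n ≤ x → x < 1 → x ∈ E := by
  induction n with
  | zero => intro x h1 h2; exact E_quarter (by norm_num at h1; linarith) h2
  | succ n ih =>
    intro x h1 h2
    by_cases h3 : 3 / 4 ≤ x
    · exact E_quarter h3 h2
    · push Not at h3
      rw [E_iff]; right; left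
      apply ih
      · have : (1 / 12 : ℝ) / 4 ^ n = 4 * ((1 / 12) / 4 ^ (n + 1)) := by rw [pow_succ]; field_simp
        rw [this]; linarith
      · linarith

lemma E_full {x : ℝ} (h1 : 2 / 3 ≤ x) (h2 : x ≤ 1) : x ∈ E := by
  have hopen : Set.Ioo (2 / 3 : ℝ) 1 ⊆ E := by
    intro y hy
    obtain ⟨n, hn⟩ := exists_pow_lt_of_lt_one (show 0 < 12 * (y - 2 / 3) by linarith [hy.1])
      (show (1 / 4 : ℝ) < 1 by norm_num)
    apply E_full' n y _ hy.2
    rw [one_div, inv_pow, ← one_div] at hn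
    rw [div_div, mul_comm, ← div_div]
    linarith
  have : closure (Set.Ioo (2 / 3 : ℝ) 1) ⊆ E := closure_minimal hopen E_compact.isClosed
  rw [closure_Ioo (by norm_num)] at this
  exact this ⟨h1, h2⟩

lemma u_not {c : ℝ} (h1 : 1 / 6 < c) (h2 : c < 1 / 4) (k : ℕ) : 2 / 3 - c / 4 ^ k ∉ E := by
  induction k with
  | zero => apply E_gap <;> simp <;> linarith
  | succ k ih =>
    intro h
    have h4 : (0 : ℝ) < 4 ^ (k + 1) := by positivity
    have h5 : (4 : ℝ) ≤ 4 ^ (k + 1) := by
      rw [pow_succ]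
      have : (1 : ℝ) ≤ 4 ^ k := one_le_pow₀ (by norm_num)
      linarith
    have h6 : c / 4 ^ (k + 1) < 1 / 16 := by
      rw [div_lt_iff₀ h4]; linarith
    have h7 : 0 < c / 4 ^ (k + 1) := by positivity
    rcases (E_iff _).1 h with h | h | h | h
    · linarith [E_le h]
    · apply ih
      convert h using 1
      rw [pow_succ]; field_simp; ring
    · linarith [E_nonneg h]
    · linarith [E_nonneg h]

lemma x_mem (k : ℕ) : 1 / 3 - (5 / 24) / 4 ^ k ∈ E ∧ 1 / 3 - (5 / 24) / 4 ^ (k + 1) ∈ E := by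
  induction k with
  | zero =>
    constructor
    · rw [E_iff]; left
      rw [E_iff]; right; left
      convert E_zero using 1
      norm_num
    · rw [E_iff]; left
      rw [E_iff]; right; right; left
      rw [E_iff]; right; right; right
      apply E_full <;> norm_num
  | succ k ih =>
    refine ⟨ih.2, ?_⟩
    rw [E_iff]; left
    rw [E_iff]; right; right; right
    convert ih.1 using 1
    rw [pow_succ, pow_succ]; field_simp; ring

lemma z_step (k : ℕ) (h : 1 / 3 - (7 / 32) / 4 ^ (k + 2) ∈ E) : 1 / 3 - (7 / 32) / 4 ^ k ∈ E := by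
  have h1 : (1 : ℝ) ≤ 4 ^ k := one_le_pow₀ (by norm_num)
  have h2 : (7 / 32 : ℝ) / 4 ^ k ≤ 7 / 32 := div_le_self (by norm_num) h1
  have h3 : (0 : ℝ) < (7 / 32 : ℝ) / 4 ^ k := by positivity
  have e : (7 / 32 : ℝ) / 4 ^ (k + 2) = (7 / 32) / 4 ^ k / 16 := by
    rw [pow_add]; field_simp; norm_num
  rw [e] at h
  have h4 := E_small (by linarith) h
  rcases (E_iff _).1 h4 with h | h | h | h
  · linarith [E_le h]
  · linarith [E_le h]
  · linarith [E_le h]
  · convert h using 1; ring

lemma z_not (m : ℕ) : 1 / 3 - (7 / 32) / 4 ^ (2 * m) ∉ E := by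
  induction m with
  | zero =>
    intro h
    have := E_small (by norm_num) h
    exact E_gap (by norm_num) (by norm_num) this
  | succ m ih =>
    intro h
    apply ih
    apply z_step
    have e : 2 * m + 2 = 2 * (m + 1) := by ring
    rw [e]
    exact h

/-! ### the set `K = E ∪ (1/3 + E)` -/

/-- the sequence `1/3, 3/4, 2/4, 3/16, 2/16, ...` -/
def x : ℕ → ℝ
  | 0 => 1 / 3
  | n + 1 => g n

lemma x_pos (n : ℕ) : 0 < x n := by
  cases n with
  | zero => norm_num [x]
  | succ n => exact g_pos n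

lemma x_summ : Summable x := (summable_nat_add_iff 1).1 g_summ

def K : Set ℝ := Sub x

lemma K_iff (s : ℝ) : s ∈ K ↔ s ∈ E ∨ s - 1 / 3 ∈ E := sub_succ x_summ s

lemma K_compact : IsCompact K := sub_compact x_summ x_pos

lemma K_symm {s : ℝ} (h : s ∈ K) : 2 - s ∈ K := by
  rw [K_iff] at h ⊢
  rcases h with h | h
  · right; convert E_symm h using 1; ring
  · left; convert E_symm h using 1; ring

lemma E_piece (n : ℕ) : ∀ s ∈ E, ∃ j : ℤ, ∃ e ∈ E, s = (j + e) / 4 ^ n ∧
    ∀ e' ∈ E, ((j : ℝ) + e') / 4 ^ n ∈ E := by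
  induction n with
  | zero => intro s hs; exact ⟨0, s, hs, by simp, fun e' he' => by simpa using he'⟩
  | succ n ih =>
    intro s hs
    have step : ∀ d : ℤ, 4 * s - d ∈ E → (∀ y : ℝ, 4 * y - d ∈ E → y ∈ E) →
        ∃ j : ℤ, ∃ e ∈ E, s = (j + e) / 4 ^ (n + 1) ∧
          ∀ e' ∈ E, ((j : ℝ) + e') / 4 ^ (n + 1) ∈ E := by
      intro d hd hback
      obtain ⟨j, e, he, hje, hall⟩ := ih _ hd
      refine ⟨d * 4 ^ n + j, e, he, ?_, ?_⟩
      · have : s = (d + (j + e) / 4 ^ n) / 4 := by linarith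
        rw [this, pow_succ]; push_cast; field_simp; ring
      · intro e' he'
        apply hback
        convert hall e' he' using 1
        rw [pow_succ]; push_cast; field_simp; ring
    rcases (E_iff s).1 hs with h | h | h | h
    · exact step 0 (by simpa using h) (fun y hy => by rw [E_iff]; left; simpa using hy)
    · exact step 2 (by simpa using h) (fun y hy => by rw [E_iff]; right; left; simpa using hy)
    · exact step 3 (by simpa using h)
        (fun y hy => by rw [E_iff]; right; right; left; simpa using hy)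
    · exact step 5 (by simpa using h)
        (fun y hy => by rw [E_iff]; right; right; right; simpa using hy)

lemma K_piece (n : ℕ) (s : ℝ) (hs : s ∈ K) : ∃ σ : ℝ, ∃ j : ℤ, ∃ e ∈ E, σ * (3 * 4 ^ n) = j ∧
    s = σ + e / 4 ^ n ∧ ∀ e' ∈ E, σ + e' / 4 ^ n ∈ K := by
  have h4 : (4 : ℝ) ^ n ≠ 0 := by positivity
  rcases (K_iff s).1 hs with h | h
  · obtain ⟨j, e, he, hje, hall⟩ := E_piece n s h
    refine ⟨j / 4 ^ n, 3 * j, e, he, ?_, ?_, ?_⟩
    · push_cast; field_simp
    · rw [hje]; ring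
    · intro e' he'
      rw [K_iff]; left
      convert hall e' he' using 1
      ring
  · obtain ⟨j, e, he, hje, hall⟩ := E_piece n _ h
    refine ⟨1 / 3 + j / 4 ^ n, 4 ^ n + 3 * j, e, he, ?_, ?_, ?_⟩
    · push_cast; field_simp
    · have : s = 1 / 3 + (j + e) / 4 ^ n := by linarith
      rw [this]; ring
    · intro e' he'
      rw [K_iff]; right
      convert hall e' he' using 1
      ring

/-- right ends of gaps of `K` are limits of holes from the right -/
lemma K_right (v : ℝ) (hv : v ∈ K) (δ : ℝ) (hδ : 0 < δ)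
    (hgap : ∀ z, v - δ < z → z < v → z ∉ K) (η : ℝ) (hη : 0 < η) :
    ∃ z, v < z ∧ z < v + η ∧ z ∉ K := by
  obtain ⟨n, hn⟩ := exists_pow_lt_of_lt_one (show 0 < δ / 2 by linarith)
      (show (1 / 4 : ℝ) < 1 by norm_num)
  obtain ⟨m, hm⟩ := exists_pow_lt_of_lt_one hη (show (1 / 4 : ℝ) < 1 by norm_num)
  have h4n : (0 : ℝ) < 4 ^ n := by positivity
  have h4m : (0 : ℝ) < 4 ^ m := by positivity
  rw [one_div, inv_pow, ← one_div] at hn hm
  have h4n1 : (1 : ℝ) ≤ 4 ^ n := one_le_pow₀ (by norm_num)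
  have h4m1 : (1 : ℝ) ≤ 4 ^ m := one_le_pow₀ (by norm_num)
  -- the piece bound
  have hpb : ∀ e ∈ E, 0 ≤ e / 4 ^ n ∧ e / 4 ^ n < δ := by
    intro e he
    refine ⟨div_nonneg (E_nonneg he) h4n.le, ?_⟩
    have h1 : e / 4 ^ n ≤ (5 / 3) / 4 ^ n := by
      rw [div_le_div_iff_of_pos_right h4n]; exact E_le he
    have h2 : (5 / 3 : ℝ) / 4 ^ n = (5 / 3) * (1 / 4 ^ n) := by ring
    rw [h2] at h1
    linarith
  -- the corner at v
  obtain ⟨σv, jv, ev, hev, hjv, hsv, hallv⟩ := K_piece n v hv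
  have hσv : σv = v := by
    have h0 : σv ∈ K := by simpa using hallv 0 E_zero
    have h1 := hpb ev hev
    by_contra hne
    exact hgap σv (by linarith [h1.2]) (lt_of_le_of_ne (by linarith [h1.1]) hne) h0
  subst hσv
  have hzpos : 0 < (11 / 24 : ℝ) / 4 ^ (m + 1) / 4 ^ n := by positivity
  have hzsm : (11 / 24 : ℝ) / 4 ^ (m + 1) / 4 ^ n < 1 / (3 * 4 ^ n) := by
    rw [div_lt_div_iff₀ h4n (by positivity), pow_succ]
    have : (11 / 24 : ℝ) / (4 ^ m * 4) < 1 / 3 := by
      rw [div_lt_iff₀ (by positivity)]; linarith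
    nlinarith
  refine ⟨σv + (11 / 24) / 4 ^ (m + 1) / 4 ^ n, by linarith, ?_, ?_⟩
  · have h1 : (11 / 24 : ℝ) / 4 ^ (m + 1) / 4 ^ n ≤ (11 / 24) / 4 ^ (m + 1) :=
      div_le_self (by positivity) h4n1
    have h2 : (11 / 24 : ℝ) / 4 ^ (m + 1) ≤ 1 / 4 ^ m := by
      rw [div_le_div_iff₀ (by positivity) h4m, pow_succ]; linarith
    linarith
  · intro hz
    obtain ⟨σ, j, e, he, hj, hs, hall⟩ := K_piece n _ hz
    have hσK : σ ∈ K := by simpa using hall 0 E_zero
    have h1 := hpb e he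
    rcases lt_trichotomy σ σv with h | h | h
    · rcases le_or_gt σ (σv - δ) with h' | h'
      · linarith [h1.2]
      · exact hgap σ h' h hσK
    · subst h
      have h2 : e = (11 / 24) / 4 ^ (m + 1) := by
        have : e / 4 ^ n = (11 / 24) / 4 ^ (m + 1) / 4 ^ n := by linarith
        rwa [div_left_inj' h4n.ne'] at this
      exact gap_small (m + 1) (h2 ▸ he)
    · have h2 : (jv : ℝ) < j := by
        rw [← hjv, ← hj]
        exact mul_lt_mul_of_pos_right h (by positivity)
      have h3 : (jv : ℝ) + 1 ≤ j := by exact_mod_cast h2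
      rw [← hjv, ← hj] at h3
      have h5 : 1 ≤ (σ - σv) * (3 * 4 ^ n) := by linarith
      have h6 : 1 / (3 * 4 ^ n) ≤ σ - σv := by
        rw [div_le_iff₀ (by positivity)]; exact h5
      linarith [h1.1]

lemma K_left (u : ℝ) (hu : u ∈ K) (δ : ℝ) (hδ : 0 < δ)
    (hgap : ∀ z, u < z → z < u + δ → z ∉ K) (η : ℝ) (hη : 0 < η) :
    ∃ z, u - η < z ∧ z < u ∧ z ∉ K := by
  obtain ⟨z, h1, h2, h3⟩ := K_right (2 - u) (K_symm hu) δ hδ (by
    intro z hz1 hz2 hz
    have := K_symm hz
    exact hgap (2 - z) (by linarith) (by linarith) this) η hη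
  refine ⟨2 - z, by linarith, by linarith, fun h => h3 ?_⟩
  convert K_symm h using 1
  ring

/-! ### components -/

lemma comp_single_of (v : ℝ) (hv : v ∈ K) (hl : ∀ w < v, ∃ z, w < z ∧ z < v ∧ z ∉ K)
    (hr : ∀ w, v < w → ∃ z, v < z ∧ z < w ∧ z ∉ K) : connectedComponentIn K v = {v} := by
  have hpre : IsPreconnected (connectedComponentIn K v) := isPreconnected_connectedComponentIn
  have hord := hpre.ordConnected
  have hvC : v ∈ connectedComponentIn K v := mem_connectedComponentIn hv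
  have hsub : connectedComponentIn K v ⊆ K := connectedComponentIn_subset K v
  ext w
  constructor
  · intro hw
    rw [Set.mem_singleton_iff]
    by_contra hne
    rcases lt_or_gt_of_ne hne with h | h
    · obtain ⟨z, h1, h2, h3⟩ := hl w h
      exact h3 (hsub (hord.out hw hvC ⟨h1.le, h2.le⟩))
    · obtain ⟨z, h1, h2, h3⟩ := hr w h
      exact h3 (hsub (hord.out hvC hw ⟨h1.le, h2.le⟩))
  · intro hw
    rw [Set.mem_singleton_iff] at hw
    rw [hw]; exact hvC

lemma inf_part (p : ℝ) (hp : p ∈ K) (hnt : (connectedComponentIn K p).Nontrivial) :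
    sInf (connectedComponentIn K p) ∈ closure {y ∈ K | connectedComponentIn K y = {y}} := by
  set C := connectedComponentIn K p with hC
  have hpre : IsPreconnected C := isPreconnected_connectedComponentIn
  have hord := hpre.ordConnected
  have hpC : p ∈ C := mem_connectedComponentIn hp
  have hsub : C ⊆ K := connectedComponentIn_subset K p
  have hbb : BddBelow C := K_compact.bddBelow.mono hsub
  have hKcl : IsClosed K := K_compact.isClosed
  set a := sInf C with ha
  have haK : a ∈ K := closure_minimal hsub hKcl (csInf_mem_closure ⟨p, hpC⟩ hbb)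
  -- points of C above a
  obtain ⟨x1, hx1, x2, hx2, hne⟩ := hnt
  obtain ⟨q, hqC, haq⟩ : ∃ q ∈ C, a < q := by
    rcases lt_or_gt_of_ne hne with h | h
    · exact ⟨x2, hx2, lt_of_le_of_lt (csInf_le hbb hx1) h⟩
    · exact ⟨x1, hx1, lt_of_le_of_lt (csInf_le hbb hx2) h⟩
  have hint : ∀ y, a < y → y < q → y ∈ K := by
    intro y h1 h2
    obtain ⟨c', hc', hlt⟩ := exists_lt_of_csInf_lt ⟨p, hpC⟩ h1
    exact hsub (hord.out hc' hqC ⟨hlt.le, h2.le⟩)
  -- holes to the left of a
  have hA : ∀ w < a, ∃ z, w < z ∧ z < a ∧ z ∉ K := by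
    intro w hw
    by_contra hcon
    push Not at hcon
    set w' := (w + a) / 2 with hw'
    have hsubK : Set.Icc w' p ⊆ K := by
      intro y hy
      rcases lt_trichotomy y a with h | h | h
      · exact hcon y (by linarith [hy.1]) h
      · rw [h]; exact haK
      · obtain ⟨c', hc', hlt⟩ := exists_lt_of_csInf_lt ⟨p, hpC⟩ h
        exact hsub (hord.out hc' hpC ⟨hlt.le, hy.2⟩)
    have hap : a ≤ p := csInf_le hbb hpC
    have hsubC : Set.Icc w' p ⊆ C :=
      isPreconnected_Icc.subset_connectedComponentIn ⟨by linarith, le_rfl⟩ hsubK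
    have : w' ∈ C := hsubC ⟨le_rfl, by linarith⟩
    have := csInf_le hbb this
    linarith
  -- a is not the right end of a gap
  have hB : ∀ w < a, ∃ z, w < z ∧ z < a ∧ z ∈ K := by
    intro w hw
    by_contra hcon
    push Not at hcon
    obtain ⟨z, h1, h2, h3⟩ := K_right a haK (a - w) (by linarith)
      (fun z h1 h2 => hcon z (by linarith) h2) (q - a) (by linarith)
    exact h3 (hint z h1 (by linarith))
  rw [Metric.mem_closure_iff]
  intro η hη
  obtain ⟨z, hz1, hz2, hz3⟩ := hA (a - η) (by linarith)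
  set S := K ∩ Set.Ici z with hS
  have hScl : IsClosed S := hKcl.inter isClosed_Ici
  have hSne : S.Nonempty := ⟨a, haK, hz2.le⟩
  have hSbb : BddBelow S := ⟨z, fun y hy => hy.2⟩
  set v := sInf S with hv
  have hvS : v ∈ S := hScl.csInf_mem hSne hSbb
  have hzv : z < v := lt_of_le_of_ne hvS.2 (fun h => hz3 (h ▸ hvS.1))
  have hva : v ≤ a := csInf_le hSbb ⟨haK, hz2.le⟩
  have hgapv : ∀ y, z < y → y < v → y ∉ K := by
    intro y h1 h2 hy
    have : v ≤ y := csInf_le hSbb ⟨hy, h1.le⟩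
    linarith
  have hvne : v < a := by
    rcases lt_or_eq_of_le hva with h | h
    · exact h
    · exfalso
      obtain ⟨y, h1, h2, h3⟩ := hB z hz2
      exact hgapv y h1 (by rw [h]; exact h2) h3
  refine ⟨v, ⟨hvS.1, comp_single_of v hvS.1 ?_ ?_⟩, ?_⟩
  · intro w hw
    refine ⟨(max w z + v) / 2, ?_, ?_, ?_⟩
    · have := le_max_left w z
      have h2 : max w z < v := max_lt hw hzv
      linarith
    · have h2 : max w z < v := max_lt hw hzv
      linarith
    · have := le_max_right w z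
      have h2 : max w z < v := max_lt hw hzv
      exact hgapv _ (by linarith) (by linarith)
  · intro w hw
    obtain ⟨y, h1, h2, h3⟩ := K_right v hvS.1 (v - z) (by linarith)
      (fun y h1 h2 => hgapv y (by linarith) h2) (w - v) (by linarith)
    exact ⟨y, h1, by linarith, h3⟩
  · rw [Real.dist_eq, abs_of_pos (by linarith)]
    linarith

lemma sup_part (p : ℝ) (hp : p ∈ K) (hnt : (connectedComponentIn K p).Nontrivial) :
    sSup (connectedComponentIn K p) ∈ closure {y ∈ K | connectedComponentIn K y = {y}} := by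
  set C := connectedComponentIn K p with hC
  have hpre : IsPreconnected C := isPreconnected_connectedComponentIn
  have hord := hpre.ordConnected
  have hpC : p ∈ C := mem_connectedComponentIn hp
  have hsub : C ⊆ K := connectedComponentIn_subset K p
  have hba : BddAbove C := K_compact.bddAbove.mono hsub
  have hKcl : IsClosed K := K_compact.isClosed
  set a := sSup C with ha
  have haK : a ∈ K := closure_minimal hsub hKcl (csSup_mem_closure ⟨p, hpC⟩ hba)
  obtain ⟨x1, hx1, x2, hx2, hne⟩ := hnt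
  obtain ⟨q, hqC, haq⟩ : ∃ q ∈ C, q < a := by
    rcases lt_or_gt_of_ne hne with h | h
    · exact ⟨x1, hx1, lt_of_lt_of_le h (le_csSup hba hx2)⟩
    · exact ⟨x2, hx2, lt_of_lt_of_le h (le_csSup hba hx1)⟩
  have hint : ∀ y, q < y → y < a → y ∈ K := by
    intro y h1 h2
    obtain ⟨c', hc', hlt⟩ := exists_lt_of_lt_csSup ⟨p, hpC⟩ h2
    exact hsub (hord.out hqC hc' ⟨h1.le, hlt.le⟩)
  have hA : ∀ w, a < w → ∃ z, a < z ∧ z < w ∧ z ∉ K := by
    intro w hw
    by_contra hcon
    push Not at hcon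
    set w' := (w + a) / 2 with hw'
    have hsubK : Set.Icc p w' ⊆ K := by
      intro y hy
      rcases lt_trichotomy a y with h | h | h
      · exact hcon y h (by linarith [hy.2])
      · rw [← h]; exact haK
      · obtain ⟨c', hc', hlt⟩ := exists_lt_of_lt_csSup ⟨p, hpC⟩ h
        exact hsub (hord.out hpC hc' ⟨hy.1, hlt.le⟩)
    have hap : p ≤ a := le_csSup hba hpC
    have hsubC : Set.Icc p w' ⊆ C :=
      isPreconnected_Icc.subset_connectedComponentIn ⟨le_rfl, by linarith⟩ hsubK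
    have : w' ∈ C := hsubC ⟨by linarith, le_rfl⟩
    have := le_csSup hba this
    linarith
  have hB : ∀ w, a < w → ∃ z, a < z ∧ z < w ∧ z ∈ K := by
    intro w hw
    by_contra hcon
    push Not at hcon
    obtain ⟨z, h1, h2, h3⟩ := K_left a haK (w - a) (by linarith)
      (fun z h1 h2 => hcon z h1 (by linarith)) (a - q) (by linarith)
    exact h3 (hint z (by linarith) h2)
  rw [Metric.mem_closure_iff]
  intro η hη
  obtain ⟨z, hz1, hz2, hz3⟩ := hA (a + η) (by linarith)
  set S := K ∩ Set.Iic z with hS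
  have hScl : IsClosed S := hKcl.inter isClosed_Iic
  have hSne : S.Nonempty := ⟨a, haK, hz1.le⟩
  have hSbb : BddAbove S := ⟨z, fun y hy => hy.2⟩
  set v := sSup S with hv
  have hvS : v ∈ S := hScl.csSup_mem hSne hSbb
  have hzv : v < z := lt_of_le_of_ne hvS.2 (fun h => hz3 (h ▸ hvS.1))
  have hva : a ≤ v := le_csSup hSbb ⟨haK, hz1.le⟩
  have hgapv : ∀ y, v < y → y < z → y ∉ K := by
    intro y h1 h2 hy
    have : y ≤ v := le_csSup hSbb ⟨hy, h2.le⟩
    linarith
  have hvne : a < v := by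
    rcases lt_or_eq_of_le hva with h | h
    · exact h
    · exfalso
      obtain ⟨y, h1, h2, h3⟩ := hB z hz1
      exact hgapv y (by rw [← h]; exact h1) h2 h3
  refine ⟨v, ⟨hvS.1, comp_single_of v hvS.1 ?_ ?_⟩, ?_⟩
  · intro w hw
    obtain ⟨y, h1, h2, h3⟩ := K_left v hvS.1 (z - v) (by linarith)
      (fun y h1 h2 => hgapv y h1 (by linarith)) (v - w) (by linarith)
    exact ⟨y, by linarith, h2, h3⟩
  · intro w hw
    refine ⟨(min w z + v) / 2, ?_, ?_, ?_⟩
    · have h2 : v < min w z := lt_min hw hzv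
      linarith
    · have := min_le_left w z
      have h2 : v < min w z := lt_min hw hzv
      linarith
    · have := min_le_right w z
      have h2 : v < min w z := lt_min hw hzv
      exact hgapv _ (by linarith) (by linarith)
  · rw [Real.dist_eq, abs_sub_comm, abs_of_pos (by linarith)]
    linarith

lemma K_closure_interior : closure (interior K) = K := by
  apply Set.Subset.antisymm
  · exact closure_minimal interior_subset K_compact.isClosed
  · intro s hs
    rw [Metric.mem_closure_iff]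
    intro η hη
    obtain ⟨n, hn⟩ := exists_pow_lt_of_lt_one (show 0 < η / 2 by linarith)
      (show (1 / 4 : ℝ) < 1 by norm_num)
    have h4n : (0 : ℝ) < 4 ^ n := by positivity
    rw [one_div, inv_pow, ← one_div] at hn
    obtain ⟨σ, j, e, he, hj, hse, hall⟩ := K_piece n s hs
    refine ⟨σ + (5 / 6) / 4 ^ n, ?_, ?_⟩
    · rw [mem_interior]
      refine ⟨Set.Ioo (σ + (2 / 3) / 4 ^ n) (σ + 1 / 4 ^ n), ?_, isOpen_Ioo, ?_, ?_⟩
      · intro y hy
        have h1 : (2 / 3) < (y - σ) * 4 ^ n := by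
          have := hy.1
          have h' : (2 / 3) / 4 ^ n < y - σ := by linarith
          rwa [div_lt_iff₀ h4n] at h'
        have h2 : (y - σ) * 4 ^ n < 1 := by
          have := hy.2
          have h' : y - σ < 1 / 4 ^ n := by linarith
          rwa [lt_div_iff₀ h4n] at h'
        have := hall _ (E_full h1.le h2.le)
        convert this using 1
        field_simp
        ring
      · have : (2 / 3 : ℝ) / 4 ^ n < (5 / 6) / 4 ^ n := by
          rw [div_lt_div_iff_of_pos_right h4n]; norm_num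
        linarith
      · have : (5 / 6 : ℝ) / 4 ^ n < 1 / 4 ^ n := by
          rw [div_lt_div_iff_of_pos_right h4n]; norm_num
        linarith
    · have h1 : e / 4 ^ n ≤ (5 / 3) * (1 / 4 ^ n) := by
        have : (5 / 3 : ℝ) * (1 / 4 ^ n) = (5 / 3) / 4 ^ n := by ring
        rw [this, div_le_div_iff_of_pos_right h4n]; exact E_le he
      have h2 : 0 ≤ e / 4 ^ n := div_nonneg (E_nonneg he) h4n.le
      have h3 : (5 / 6 : ℝ) / 4 ^ n = (5 / 6) * (1 / 4 ^ n) := by ring
      have h5 : 0 < (1 : ℝ) / 4 ^ n := by positivity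
      rw [Real.dist_eq, abs_lt, hse, h3]
      constructor <;> linarith

/-- The negation of the preceding statement: For a positive summable sequence whose set of subsums E is a Cantorval, and distinct left endpoints a, b of interval components of E, there is ε>0 such that E∩[a−ε,a] is a translate of E∩[b−ε,b]. -/
theorem result :
    ¬ (∀ x : ℕ → ℝ, (∀ n, 0 < x n) → Summable x →
    ∀ E : Set ℝ, E = {s | ∃ A : Set ℕ, s = ∑' n, A.indicator x n} →
    (E.Nonempty ∧ IsCompact E ∧ closure (interior E) = E ∧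
      ∀ p ∈ E, (connectedComponentIn E p).Nontrivial →
        sInf (connectedComponentIn E p) ∈ closure {y ∈ E | connectedComponentIn E y = {y}} ∧
        sSup (connectedComponentIn E p) ∈ closure {y ∈ E | connectedComponentIn E y = {y}}) →
    ∀ a b : ℝ, a ≠ b →
      (∃ c, a < c ∧ Set.Icc a c ⊆ E) → (∀ y, y < a → ¬ Set.Icc y a ⊆ E) →
      (∃ c, b < c ∧ Set.Icc b c ⊆ E) → (∀ y, y < b → ¬ Set.Icc y b ⊆ E) →
      ∃ ε : ℝ, ε > 0 ∧ ∃ t : ℝ,
        E ∩ Set.Icc (a - ε) a = (fun z => z + t) '' (E ∩ Set.Icc (b - ε) b)) := by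
  intro H
  have pow_lt : ∀ c r : ℝ, 0 < c → 0 < r → ∃ m : ℕ, c / 4 ^ m < r := by
    intro c r hc hr
    obtain ⟨m, hm⟩ := exists_pow_lt_of_lt_one (show 0 < r / c by positivity)
      (show (1 / 4 : ℝ) < 1 by norm_num)
    refine ⟨m, ?_⟩
    rw [one_div, inv_pow, ← one_div, div_lt_div_iff₀ (by positivity) hc] at hm
    rw [div_lt_iff₀ (by positivity)]
    linarith
  have h23K : (2 / 3 : ℝ) ∈ K := (K_iff _).2 (Or.inl (E_full le_rfl (by norm_num)))
  have h16K : (1 / 6 : ℝ) ∈ K := by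
    rw [K_iff]; left
    rw [E_iff]; left
    exact E_full (by norm_num) (by norm_num)
  obtain ⟨ε, hε, t, ht⟩ := H x x_pos x_summ K rfl
    ⟨⟨_, h23K⟩, K_compact, K_closure_interior, fun p hp hnt => ⟨inf_part p hp hnt, sup_part p hp hnt⟩⟩
    (1 / 6) (2 / 3) (by norm_num)
    ⟨1 / 4, by norm_num, by
      intro y hy
      rw [K_iff]; left
      rw [E_iff]; left
      exact E_full (by linarith [hy.1]) (by linarith [hy.2])⟩
    (by
      intro y hy hsub
      obtain ⟨m, hm⟩ := pow_lt (7 / 32) (1 / 6 - y) (by norm_num) (by linarith)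
      have h4 : (0 : ℝ) < 4 ^ m := by positivity
      have hp : (0 : ℝ) < (7 / 32) / 4 ^ m := by positivity
      have hz : (2 / 3 - (7 / 32) / 4 ^ m) / 4 ∈ K := by
        apply hsub
        constructor <;> linarith
      rw [K_iff] at hz
      rcases hz with hz | hz
      · have := E_small (by linarith) hz
        apply u_not (c := 7 / 32) (by norm_num) (by norm_num) m
        convert this using 1
        ring
      · linarith [E_nonneg hz])
    ⟨1, by norm_num, fun y hy => (K_iff _).2 (Or.inl (E_full hy.1 hy.2))⟩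
    (by
      intro y hy hsub
      obtain ⟨m, hm⟩ := pow_lt (7 / 32) (2 / 3 - y) (by norm_num) (by linarith)
      have h4 : (0 : ℝ) < 4 ^ m := by positivity
      have hle : (7 / 32 : ℝ) / 4 ^ (2 * m) ≤ (7 / 32) / 4 ^ m := by
        apply div_le_div_of_nonneg_left (by norm_num) h4
        exact pow_le_pow_right₀ (by norm_num) (by omega)
      have hp : (0 : ℝ) < (7 / 32) / 4 ^ (2 * m) := by positivity
      have hz : 2 / 3 - (7 / 32) / 4 ^ (2 * m) ∈ K := by
        apply hsub
        constructor <;> linarith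
      rw [K_iff] at hz
      rcases hz with hz | hz
      · exact u_not (c := 7 / 32) (by norm_num) (by norm_num) (2 * m) hz
      · apply z_not m
        convert hz using 1
        ring)
  have ht1 : 2 / 3 + t ≤ 1 / 6 := by
    have : (2 / 3 + t) ∈ K ∩ Set.Icc (1 / 6 - ε) (1 / 6) := by
      rw [ht]
      exact ⟨2 / 3, ⟨h23K, by linarith, le_rfl⟩, rfl⟩
    exact this.2.2
  have ht2 : 1 / 6 ≤ 2 / 3 + t := by
    have : (1 / 6 : ℝ) ∈ K ∩ Set.Icc (1 / 6 - ε) (1 / 6) := ⟨h16K, by linarith, le_rfl⟩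
    rw [ht] at this
    obtain ⟨z, hz, hzt⟩ := this
    have hz2 := hz.2.2
    have : z + t = 1 / 6 := hzt
    linarith
  have ht3 : t = -(1 / 2) := by linarith
  obtain ⟨k, hk⟩ := pow_lt (5 / 24) ε (by norm_num) hε
  have h4 : (0 : ℝ) < 4 ^ k := by positivity
  have hle : (5 / 24 : ℝ) / 4 ^ (k + 1) = (5 / 24) / 4 ^ k / 4 := by rw [pow_succ]; field_simp
  have hp : (0 : ℝ) < (5 / 24) / 4 ^ k := by positivity
  have hq : 2 / 3 - (5 / 24) / 4 ^ (k + 1) ∈ K := by
    rw [K_iff]; right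
    convert (x_mem k).2 using 1
    ring
  have hq' : 2 / 3 - (5 / 24) / 4 ^ (k + 1) + t ∈ K ∩ Set.Icc (1 / 6 - ε) (1 / 6) := by
    rw [ht]
    refine ⟨_, ⟨hq, ?_, ?_⟩, rfl⟩
    · rw [hle]; linarith
    · rw [hle]; linarith
  have hq2 := hq'.1
  rw [K_iff, ht3, hle] at hq2
  rcases hq2 with h | h
  · have := E_small (by linarith) h
    apply u_not (c := 5 / 24) (by norm_num) (by norm_num) k
    convert this using 1
    ring
  · linarith [E_nonneg h]

end

end Pool.Agent.S02728
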