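import Pool.Statements.S02742
-- import your own Pool.Agent.* helpers here

set_option autoImplicit false
open Pool Pool.MP_196b75_an

namespace Pool.Agent.S02742

noncomputable section

/-! ### the trigonometric inequality on the unit circle -/

lemma pow_conj (z : ℂ) (hz : ‖z‖ = 1) (j k : ℕ) (h : k ≤ j) :
    z ^ j * (starRingEnd ℂ) (z ^ k) = z ^ (j - k) := by
  obtain ⟨m, rfl⟩ := Nat.exists_eq_add_of_le h
  have h1 : z * (starRingEnd ℂ) z = 1 := by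
    rw [Complex.mul_conj, Complex.normSq_eq_norm_sq, hz]; simp
  rw [pow_add, map_pow, Nat.add_sub_cancel_left]
  have h2 : z ^ k * (starRingEnd ℂ) z ^ k = 1 := by rw [← mul_pow, h1, one_pow]
  calc z ^ k * z ^ m * (starRingEnd ℂ) z ^ k = (z ^ k * (starRingEnd ℂ) z ^ k) * z ^ m := by ring
    _ = z ^ m := by rw [h2, one_mul]

lemma rel_u (z : ℂ) (hz : ‖z‖ = 1) (j k : ℕ) (h : k ≤ j) :
    (z ^ j).re * (z ^ k).re + (z ^ j).im * (z ^ k).im = (z ^ (j - k)).re := by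
  have := congrArg Complex.re (pow_conj z hz j k h)
  rw [Complex.mul_re, Complex.conj_re, Complex.conj_im] at this
  linarith

lemma rel_v (z : ℂ) (hz : ‖z‖ = 1) (j k : ℕ) (h : k ≤ j) :
    (z ^ j).im * (z ^ k).re - (z ^ j).re * (z ^ k).im = (z ^ (j - k)).im := by
  have := congrArg Complex.im (pow_conj z hz j k h)
  rw [Complex.mul_im, Complex.conj_re, Complex.conj_im] at this
  linarith

/-- a trigonometric polynomial with coefficients `p + i q` -/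
def tp (p q : Fin 7 → ℝ) (z : ℂ) : ℂ := ∑ j : Fin 7, (⟨p j, q j⟩ : ℂ) * z ^ (j : ℕ)

lemma tp_expand (p q : Fin 7 → ℝ) (z : ℂ) (hz : ‖z‖ = 1) :
    Complex.normSq (tp p q z) =
      ((p 0 ^ 2 + q 0 ^ 2) + (p 1 ^ 2 + q 1 ^ 2) + (p 2 ^ 2 + q 2 ^ 2) + (p 3 ^ 2 + q 3 ^ 2) + (p 4 ^ 2 + q 4 ^ 2) + (p 5 ^ 2 + q 5 ^ 2) + (p 6 ^ 2 + q 6 ^ 2)) + 2 * ((((p 1 * p 0 + q 1 * q 0) + (p 2 * p 1 + q 2 * q 1) + (p 3 * p 2 + q 3 * q 2) + (p 4 * p 3 + q 4 * q 3) + (p 5 * p 4 + q 5 * q 4) + (p 6 * p 5 + q 6 * q 5)) * (z ^ 1).re - ((q 1 * p 0 - p 1 * q 0) + (q 2 * p 1 - p 2 * q 1) + (q 3 * p 2 - p 3 * q 2) + (q 4 * p 3 - p 4 * q 3) + (q 5 * p 4 - p 5 * q 4) + (q 6 * p 5 - p 6 * q 5)) * (z ^ 1).im)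
        + (((p 2 * p 0 + q 2 * q 0) + (p 3 * p 1 + q 3 * q 1) + (p 4 * p 2 + q 4 * q 2) + (p 5 * p 3 + q 5 * q 3) + (p 6 * p 4 + q 6 * q 4)) * (z ^ 2).re - ((q 2 * p 0 - p 2 * q 0) + (q 3 * p 1 - p 3 * q 1) + (q 4 * p 2 - p 4 * q 2) + (q 5 * p 3 - p 5 * q 3) + (q 6 * p 4 - p 6 * q 4)) * (z ^ 2).im)
        + (((p 3 * p 0 + q 3 * q 0) + (p 4 * p 1 + q 4 * q 1) + (p 5 * p 2 + q 5 * q 2) + (p 6 * p 3 + q 6 * q 3)) * (z ^ 3).re - ((q 3 * p 0 - p 3 * q 0) + (q 4 * p 1 - p 4 * q 1) + (q 5 * p 2 - p 5 * q 2) + (q 6 * p 3 - p 6 * q 3)) * (z ^ 3).im)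
        + (((p 4 * p 0 + q 4 * q 0) + (p 5 * p 1 + q 5 * q 1) + (p 6 * p 2 + q 6 * q 2)) * (z ^ 4).re - ((q 4 * p 0 - p 4 * q 0) + (q 5 * p 1 - p 5 * q 1) + (q 6 * p 2 - p 6 * q 2)) * (z ^ 4).im)
        + (((p 5 * p 0 + q 5 * q 0) + (p 6 * p 1 + q 6 * q 1)) * (z ^ 5).re - ((q 5 * p 0 - p 5 * q 0) + (q 6 * p 1 - p 6 * q 1)) * (z ^ 5).im)
        + (((p 6 * p 0 + q 6 * q 0)) * (z ^ 6).re - ((q 6 * p 0 - p 6 * q 0)) * (z ^ 6).im)) := by
  have e1 : (tp p q z).re = p 0 * (z ^ 0).re - q 0 * (z ^ 0).im + (p 1 * (z ^ 1).re - q 1 * (z ^ 1).im)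
      + (p 2 * (z ^ 2).re - q 2 * (z ^ 2).im) + (p 3 * (z ^ 3).re - q 3 * (z ^ 3).im)
      + (p 4 * (z ^ 4).re - q 4 * (z ^ 4).im) + (p 5 * (z ^ 5).re - q 5 * (z ^ 5).im)
      + (p 6 * (z ^ 6).re - q 6 * (z ^ 6).im) := by
    unfold tp
    rw [Fin.sum_univ_seven]
    simp only [Complex.add_re, Complex.mul_re]
    rfl
  have e2 : (tp p q z).im = p 0 * (z ^ 0).im + q 0 * (z ^ 0).re + (p 1 * (z ^ 1).im + q 1 * (z ^ 1).re)
      + (p 2 * (z ^ 2).im + q 2 * (z ^ 2).re) + (p 3 * (z ^ 3).im + q 3 * (z ^ 3).re)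
      + (p 4 * (z ^ 4).im + q 4 * (z ^ 4).re) + (p 5 * (z ^ 5).im + q 5 * (z ^ 5).re)
      + (p 6 * (z ^ 6).im + q 6 * (z ^ 6).re) := by
    unfold tp
    rw [Fin.sum_univ_seven]
    simp only [Complex.add_im, Complex.mul_im]
    rfl
  rw [Complex.normSq_apply, e1, e2]
  have h0 : (z ^ 0).re = 1 := by simp
  have h0' : (z ^ 0).im = 0 := by simp
  have u11 : (z ^ 1).re * (z ^ 1).re + (z ^ 1).im * (z ^ 1).im = 1 := by
    have := rel_u z hz 1 1 le_rfl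
    simpa using this
  have u21 : (z ^ 2).re * (z ^ 1).re + (z ^ 2).im * (z ^ 1).im = (z ^ 1).re :=
    rel_u z hz 2 1 (by norm_num)
  have v21 : (z ^ 2).im * (z ^ 1).re - (z ^ 2).re * (z ^ 1).im = (z ^ 1).im :=
    rel_v z hz 2 1 (by norm_num)
  have u22 : (z ^ 2).re * (z ^ 2).re + (z ^ 2).im * (z ^ 2).im = 1 := by
    have := rel_u z hz 2 2 le_rfl
    simpa using this
  have u31 : (z ^ 3).re * (z ^ 1).re + (z ^ 3).im * (z ^ 1).im = (z ^ 2).re :=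
    rel_u z hz 3 1 (by norm_num)
  have v31 : (z ^ 3).im * (z ^ 1).re - (z ^ 3).re * (z ^ 1).im = (z ^ 2).im :=
    rel_v z hz 3 1 (by norm_num)
  have u32 : (z ^ 3).re * (z ^ 2).re + (z ^ 3).im * (z ^ 2).im = (z ^ 1).re :=
    rel_u z hz 3 2 (by norm_num)
  have v32 : (z ^ 3).im * (z ^ 2).re - (z ^ 3).re * (z ^ 2).im = (z ^ 1).im :=
    rel_v z hz 3 2 (by norm_num)
  have u33 : (z ^ 3).re * (z ^ 3).re + (z ^ 3).im * (z ^ 3).im = 1 := by
    have := rel_u z hz 3 3 le_rfl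
    simpa using this
  have u41 : (z ^ 4).re * (z ^ 1).re + (z ^ 4).im * (z ^ 1).im = (z ^ 3).re :=
    rel_u z hz 4 1 (by norm_num)
  have v41 : (z ^ 4).im * (z ^ 1).re - (z ^ 4).re * (z ^ 1).im = (z ^ 3).im :=
    rel_v z hz 4 1 (by norm_num)
  have u42 : (z ^ 4).re * (z ^ 2).re + (z ^ 4).im * (z ^ 2).im = (z ^ 2).re :=
    rel_u z hz 4 2 (by norm_num)
  have v42 : (z ^ 4).im * (z ^ 2).re - (z ^ 4).re * (z ^ 2).im = (z ^ 2).im :=
    rel_v z hz 4 2 (by norm_num)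
  have u43 : (z ^ 4).re * (z ^ 3).re + (z ^ 4).im * (z ^ 3).im = (z ^ 1).re :=
    rel_u z hz 4 3 (by norm_num)
  have v43 : (z ^ 4).im * (z ^ 3).re - (z ^ 4).re * (z ^ 3).im = (z ^ 1).im :=
    rel_v z hz 4 3 (by norm_num)
  have u44 : (z ^ 4).re * (z ^ 4).re + (z ^ 4).im * (z ^ 4).im = 1 := by
    have := rel_u z hz 4 4 le_rfl
    simpa using this
  have u51 : (z ^ 5).re * (z ^ 1).re + (z ^ 5).im * (z ^ 1).im = (z ^ 4).re :=
    rel_u z hz 5 1 (by norm_num)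
  have v51 : (z ^ 5).im * (z ^ 1).re - (z ^ 5).re * (z ^ 1).im = (z ^ 4).im :=
    rel_v z hz 5 1 (by norm_num)
  have u52 : (z ^ 5).re * (z ^ 2).re + (z ^ 5).im * (z ^ 2).im = (z ^ 3).re :=
    rel_u z hz 5 2 (by norm_num)
  have v52 : (z ^ 5).im * (z ^ 2).re - (z ^ 5).re * (z ^ 2).im = (z ^ 3).im :=
    rel_v z hz 5 2 (by norm_num)
  have u53 : (z ^ 5).re * (z ^ 3).re + (z ^ 5).im * (z ^ 3).im = (z ^ 2).re :=
    rel_u z hz 5 3 (by norm_num)
  have v53 : (z ^ 5).im * (z ^ 3).re - (z ^ 5).re * (z ^ 3).im = (z ^ 2).im :=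
    rel_v z hz 5 3 (by norm_num)
  have u54 : (z ^ 5).re * (z ^ 4).re + (z ^ 5).im * (z ^ 4).im = (z ^ 1).re :=
    rel_u z hz 5 4 (by norm_num)
  have v54 : (z ^ 5).im * (z ^ 4).re - (z ^ 5).re * (z ^ 4).im = (z ^ 1).im :=
    rel_v z hz 5 4 (by norm_num)
  have u55 : (z ^ 5).re * (z ^ 5).re + (z ^ 5).im * (z ^ 5).im = 1 := by
    have := rel_u z hz 5 5 le_rfl
    simpa using this
  have u61 : (z ^ 6).re * (z ^ 1).re + (z ^ 6).im * (z ^ 1).im = (z ^ 5).re :=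
    rel_u z hz 6 1 (by norm_num)
  have v61 : (z ^ 6).im * (z ^ 1).re - (z ^ 6).re * (z ^ 1).im = (z ^ 5).im :=
    rel_v z hz 6 1 (by norm_num)
  have u62 : (z ^ 6).re * (z ^ 2).re + (z ^ 6).im * (z ^ 2).im = (z ^ 4).re :=
    rel_u z hz 6 2 (by norm_num)
  have v62 : (z ^ 6).im * (z ^ 2).re - (z ^ 6).re * (z ^ 2).im = (z ^ 4).im :=
    rel_v z hz 6 2 (by norm_num)
  have u63 : (z ^ 6).re * (z ^ 3).re + (z ^ 6).im * (z ^ 3).im = (z ^ 3).re :=
    rel_u z hz 6 3 (by norm_num)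
  have v63 : (z ^ 6).im * (z ^ 3).re - (z ^ 6).re * (z ^ 3).im = (z ^ 3).im :=
    rel_v z hz 6 3 (by norm_num)
  have u64 : (z ^ 6).re * (z ^ 4).re + (z ^ 6).im * (z ^ 4).im = (z ^ 2).re :=
    rel_u z hz 6 4 (by norm_num)
  have v64 : (z ^ 6).im * (z ^ 4).re - (z ^ 6).re * (z ^ 4).im = (z ^ 2).im :=
    rel_v z hz 6 4 (by norm_num)
  have u65 : (z ^ 6).re * (z ^ 5).re + (z ^ 6).im * (z ^ 5).im = (z ^ 1).re :=
    rel_u z hz 6 5 (by norm_num)
  have v65 : (z ^ 6).im * (z ^ 5).re - (z ^ 6).re * (z ^ 5).im = (z ^ 1).im :=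
    rel_v z hz 6 5 (by norm_num)
  have u66 : (z ^ 6).re * (z ^ 6).re + (z ^ 6).im * (z ^ 6).im = 1 := by
    have := rel_u z hz 6 6 le_rfl
    simpa using this
  rw [h0, h0']
  linear_combination (p 1 ^ 2 + q 1 ^ 2) * u11 +
    (p 2 ^ 2 + q 2 ^ 2) * u22 +
    (p 3 ^ 2 + q 3 ^ 2) * u33 +
    (p 4 ^ 2 + q 4 ^ 2) * u44 +
    (p 5 ^ 2 + q 5 ^ 2) * u55 +
    (p 6 ^ 2 + q 6 ^ 2) * u66 +
    2 * (p 2 * p 1 + q 2 * q 1) * u21 - 2 * (q 2 * p 1 - p 2 * q 1) * v21 +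
    2 * (p 3 * p 1 + q 3 * q 1) * u31 - 2 * (q 3 * p 1 - p 3 * q 1) * v31 +
    2 * (p 3 * p 2 + q 3 * q 2) * u32 - 2 * (q 3 * p 2 - p 3 * q 2) * v32 +
    2 * (p 4 * p 1 + q 4 * q 1) * u41 - 2 * (q 4 * p 1 - p 4 * q 1) * v41 +
    2 * (p 4 * p 2 + q 4 * q 2) * u42 - 2 * (q 4 * p 2 - p 4 * q 2) * v42 +
    2 * (p 4 * p 3 + q 4 * q 3) * u43 - 2 * (q 4 * p 3 - p 4 * q 3) * v43 +
    2 * (p 5 * p 1 + q 5 * q 1) * u51 - 2 * (q 5 * p 1 - p 5 * q 1) * v51 +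
    2 * (p 5 * p 2 + q 5 * q 2) * u52 - 2 * (q 5 * p 2 - p 5 * q 2) * v52 +
    2 * (p 5 * p 3 + q 5 * q 3) * u53 - 2 * (q 5 * p 3 - p 5 * q 3) * v53 +
    2 * (p 5 * p 4 + q 5 * q 4) * u54 - 2 * (q 5 * p 4 - p 5 * q 4) * v54 +
    2 * (p 6 * p 1 + q 6 * q 1) * u61 - 2 * (q 6 * p 1 - p 6 * q 1) * v61 +
    2 * (p 6 * p 2 + q 6 * q 2) * u62 - 2 * (q 6 * p 2 - p 6 * q 2) * v62 +
    2 * (p 6 * p 3 + q 6 * q 3) * u63 - 2 * (q 6 * p 3 - p 6 * q 3) * v63 +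
    2 * (p 6 * p 4 + q 6 * q 4) * u64 - 2 * (q 6 * p 4 - p 6 * q 4) * v64 +
    2 * (p 6 * p 5 + q 6 * q 5) * u65 - 2 * (q 6 * p 5 - p 6 * q 5) * v65

def br : Fin 7 → ℝ := ![(1073 / 5000), (7 / 1000), (47 / 2500), (223 / 10000), (47 / 2000), (123 / 5000), (27 / 10000)]
def bi : Fin 7 → ℝ := ![(559 / 2500), (-109 / 1000), (-29 / 500), (-157 / 5000), (-31 / 2000), (-1 / 250), (131 / 5000)]

def Pr : Fin 7 → ℝ := ![(1639 / 2500), (-1249 / 10000), (-153 / 2500), (-79 / 10000), (11 / 500), (61 / 5000), (-2013 / 5000)]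
def Pi : Fin 7 → ℝ := ![0, (551 / 5000), (381 / 10000), (37 / 1250), (189 / 2500), (1751 / 10000), (-3139 / 10000)]


def A1r : Fin 7 → ℝ := ![1 * (1073 / 5000), 2 * (7 / 1000), 3 * (47 / 2500), 4 * (223 / 10000), 5 * (47 / 2000), 6 * (123 / 5000), 7 * (27 / 10000)]
def A1i : Fin 7 → ℝ := ![1 * (559 / 2500), 2 * (-109 / 1000), 3 * (-29 / 500), 4 * (-157 / 5000), 5 * (-31 / 2000), 6 * (-1 / 250), 7 * (131 / 5000)]
def B1r : Fin 7 → ℝ := ![3 * (1073 / 5000), 4 * (7 / 1000), 5 * (47 / 2500), 6 * (223 / 10000), 7 * (47 / 2000), 8 * (123 / 5000), 9 * (27 / 10000)]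
def B1i : Fin 7 → ℝ := ![3 * (559 / 2500), 4 * (-109 / 1000), 5 * (-29 / 500), 6 * (-157 / 5000), 7 * (-31 / 2000), 8 * (-1 / 250), 9 * (131 / 5000)]

lemma circle_ineq (z : ℂ) (hz : ‖z‖ = 1) :
    2 * Complex.normSq (tp A1r A1i z) + Complex.normSq (tp B1r B1i z) ≤ 333 / 125 := by
  have hP : 0 ≤ Complex.normSq (tp Pr Pi z) := Complex.normSq_nonneg _
  have hb : ∀ m : ℕ, |(z ^ m).re| ≤ 1 ∧ |(z ^ m).im| ≤ 1 := by
    intro m
    have h1 : ‖z ^ m‖ = 1 := by rw [norm_pow, hz, one_pow]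
    exact ⟨h1 ▸ Complex.abs_re_le_norm (z ^ m), h1 ▸ Complex.abs_im_le_norm (z ^ m)⟩
  rw [tp_expand _ _ z hz] at hP ⊢
  rw [tp_expand _ _ z hz]
  have b1 := hb 1
  have b2 := hb 2
  have b3 := hb 3
  have b4 := hb 4
  have b5 := hb 5
  have b6 := hb 6
  rw [abs_le, abs_le] at b1 b2 b3 b4 b5 b6
  generalize (z ^ 1).re = u1 at *
  generalize (z ^ 1).im = v1 at *
  generalize (z ^ 2).re = u2 at *
  generalize (z ^ 2).im = v2 at *
  generalize (z ^ 3).re = u3 at *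
  generalize (z ^ 3).im = v3 at *
  generalize (z ^ 4).re = u4 at *
  generalize (z ^ 4).im = v4 at *
  generalize (z ^ 5).re = u5 at *
  generalize (z ^ 5).im = v5 at *
  generalize (z ^ 6).re = u6 at *
  generalize (z ^ 6).im = v6 at *
  simp only [Pr, Pi, A1r, A1i, B1r, B1i, Matrix.cons_val] at hP ⊢
  norm_num at hP ⊢
  obtain ⟨⟨c1, c2⟩, c3, c4⟩ := b1
  obtain ⟨⟨d1, d2⟩, d3, d4⟩ := b2
  obtain ⟨⟨e1, e2⟩, e3, e4⟩ := b3
  obtain ⟨⟨f1, f2⟩, f3, f4⟩ := b4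
  obtain ⟨⟨g1, g2⟩, g3, g4⟩ := b5
  obtain ⟨⟨h1, h2⟩, h3, h4⟩ := b6
  linarith


/-! ### the polynomials `A` and `B` -/

/-- the coefficients `b_2, ..., b_8` -/
def bc (j : Fin 7) : ℂ := ⟨br j, bi j⟩

/-- `A(u) = ∑ (k-1) b_k u^{k-1}` -/
def Ap (u : ℂ) : ℂ := ∑ j : Fin 7, ((j : ℕ) + 1 : ℂ) * bc j * u ^ ((j : ℕ) + 1)

/-- `B(u) = ∑ (k+1) b_k u^{k-1}` -/
def Bp (u : ℂ) : ℂ := ∑ j : Fin 7, ((j : ℕ) + 3 : ℂ) * bc j * u ^ ((j : ℕ) + 1)

lemma Ap_eq (u : ℂ) : Ap u = u * tp A1r A1i u := by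
  unfold Ap tp
  rw [Finset.mul_sum]
  refine Finset.sum_congr rfl fun j _ => ?_
  have : ((j : ℕ) + 1 : ℂ) * bc j = ⟨A1r j, A1i j⟩ := by
    fin_cases j <;> apply Complex.ext <;>
      simp [bc, br, bi, A1r, A1i, Complex.mul_re, Complex.mul_im, Complex.add_re, Complex.add_im] <;>
      norm_num
  rw [this, pow_succ]; ring

lemma Bp_eq (u : ℂ) : Bp u = u * tp B1r B1i u := by
  unfold Bp tp
  rw [Finset.mul_sum]
  refine Finset.sum_congr rfl fun j _ => ?_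
  have : ((j : ℕ) + 3 : ℂ) * bc j = ⟨B1r j, B1i j⟩ := by
    fin_cases j <;> apply Complex.ext <;>
      simp [bc, br, bi, B1r, B1i, Complex.mul_re, Complex.mul_im, Complex.add_re, Complex.add_im] <;>
      norm_num
  rw [this, pow_succ]; ring

lemma Ap_diff : Differentiable ℂ Ap := by unfold Ap; fun_prop
lemma Bp_diff : Differentiable ℂ Bp := by unfold Bp; fun_prop

lemma circle_bound (z : ℂ) (hz : ‖z‖ = 1) : (‖Ap z‖ + ‖Bp z‖) ^ 2 ≤ 3.996 := by
  have h := circle_ineq z hz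
  rw [Ap_eq, Bp_eq, norm_mul, norm_mul, hz, one_mul, one_mul]
  rw [Complex.normSq_eq_norm_sq, Complex.normSq_eq_norm_sq] at h
  nlinarith [sq_nonneg (2 * ‖tp A1r A1i z‖ - ‖tp B1r B1i z‖)]

lemma circle_bound' (z : ℂ) (hz : ‖z‖ = 1) : ‖Ap z‖ + ‖Bp z‖ ≤ Real.sqrt 3.996 :=
  Real.le_sqrt_of_sq_le (circle_bound z hz)

lemma exists_unit (p q : ℂ) : ∃ e : ℂ, ‖e‖ = 1 ∧ ‖p + e * q‖ = ‖p‖ + ‖q‖ := by
  by_cases hp : p = 0
  · exact ⟨1, by simp, by simp [hp]⟩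
  by_cases hq : q = 0
  · exact ⟨1, by simp, by simp [hq]⟩
  have hp' : ‖p‖ ≠ 0 := norm_ne_zero_iff.2 hp
  have hq' : ‖q‖ ≠ 0 := norm_ne_zero_iff.2 hq
  refine ⟨(p / ‖p‖) * ((‖q‖ : ℂ) / q), ?_, ?_⟩
  · simp [hp', hq']
  · have : p + (p / ‖p‖) * ((‖q‖ : ℂ) / q) * q = (p / ‖p‖) * ((‖p‖ + ‖q‖ : ℝ) : ℂ) := by
      have h1 : (‖p‖ : ℂ) ≠ 0 := by exact_mod_cast hp'
      push_cast
      field_simp
    rw [this, norm_mul, norm_div, Complex.norm_real, Complex.norm_real, norm_norm, div_self hp',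
      one_mul, Real.norm_of_nonneg (by positivity)]

lemma disc_bound (z : ℂ) (hz : ‖z‖ ≤ 1) : ‖Ap z‖ + ‖Bp z‖ ≤ Real.sqrt 3.996 := by
  obtain ⟨e, he, heq⟩ := exists_unit (Ap z) (Bp z)
  rw [← heq]
  have hd : Differentiable ℂ (fun w => Ap w + e * Bp w) :=
    Ap_diff.add (Bp_diff.const_mul e)
  have hmem : z ∈ closure (Metric.ball (0 : ℂ) 1) := by
    rw [closure_ball (0 : ℂ) one_ne_zero]
    simpa using hz
  refine Complex.norm_le_of_forall_mem_frontier_norm_le (f := fun w => Ap w + e * Bp w)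
    Metric.isBounded_ball hd.diffContOnCl ?_ hmem
  intro w hw
  rw [frontier_ball (0 : ℂ) one_ne_zero] at hw
  have hw' : ‖w‖ = 1 := by simpa using hw
  calc ‖Ap w + e * Bp w‖ ≤ ‖Ap w‖ + ‖e * Bp w‖ := norm_add_le _ _
    _ = ‖Ap w‖ + ‖Bp w‖ := by rw [norm_mul, he, one_mul]
    _ ≤ _ := circle_bound' w hw'

/-! ### the univalent function -/

/-- the exponent -/
def c : ℂ := ⟨1983 / 1000, 180 / 1000⟩

/-- `P_k = c (c+1) ... (c+k-1)` -/
def Pc (k : ℕ) : ℂ := ∏ j ∈ Finset.range k, (c + j)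

lemma Pc_succ (k : ℕ) : Pc (k + 1) = Pc k * (c + k) := Finset.prod_range_succ _ _

lemma P0 : Pc 0 = ⟨1, 0⟩ := by
  unfold Pc; simp; rfl

lemma P1 : Pc 1 = ⟨(1983 / 1000), (9 / 50)⟩ := by
  rw [show (1 : ℕ) = 0 + 1 from rfl, Pc_succ, P0]
  apply Complex.ext <;> simp [c, Complex.add_re, Complex.add_im, Complex.mul_re, Complex.mul_im] <;> norm_num
lemma P2 : Pc 2 = ⟨(5882889 / 1000000), (22347 / 25000)⟩ := by
  rw [show (2 : ℕ) = 1 + 1 from rfl, Pc_succ, P1]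
  apply Complex.ext <;> simp [c, Complex.add_re, Complex.add_im, Complex.mul_re, Complex.mul_im] <;> norm_num
lemma P3 : Pc 3 = ⟨(23270648487 / 1000000000), (230962203 / 50000000)⟩ := by
  rw [show (3 : ℕ) = 2 + 1 from rfl, Pc_succ, P2]
  apply Complex.ext <;> simp [c, Complex.add_re, Complex.add_im, Complex.mul_re, Complex.mul_im] <;> norm_num
lemma P4 : Pc 4 = ⟨(115126177479921 / 1000000000000), (340080123483 / 12500000000)⟩ := by
  rw [show (4 : ℕ) = 3 + 1 from rfl, Pc_succ, P3]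
  apply Complex.ext <;> simp [c, Complex.add_re, Complex.add_im, Complex.mul_re, Complex.mul_im] <;> norm_num
lemma P5 : Pc 5 = ⟨(683902766084212143 / 1000000000000000), (1834986622502889 / 10000000000000)⟩ := by
  rw [show (5 : ℕ) = 4 + 1 from rfl, Pc_succ, P4]
  apply Complex.ext <;> simp [c, Complex.add_re, Complex.add_im, Complex.mul_re, Complex.mul_im] <;> norm_num
lemma P6 : Pc 6 = ⟨(4742663256361001392569 / 1000000000000000000), (35111841409723139361 / 25000000000000000)⟩ := by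
  rw [show (6 : ℕ) = 5 + 1 from rfl, Pc_succ, P5]
  apply Complex.ext <;> simp [c, Complex.add_re, Complex.add_im, Complex.mul_re, Complex.mul_im] <;> norm_num
lemma P7 : Pc 7 = ⟨(37607875517379867513479127 / 1000000000000000000000), (603279629254888655570847 / 50000000000000000000)⟩ := by
  rw [show (7 : ℕ) = 6 + 1 from rfl, Pc_succ, P6]
  apply Complex.ext <;> simp [c, Complex.add_re, Complex.add_im, Complex.mul_re, Complex.mul_im] <;> norm_num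

/-- the value of the functional -/
def L : ℂ := ∑ j : Fin 7, bc j * (Pc ((j : ℕ) + 1) / (((j : ℕ) + 1).factorial : ℂ))

lemma term_re (j : Fin 7) (x y m : ℝ) :
    (bc j * ((⟨x, y⟩ : ℂ) / (m : ℂ))).re = (br j * x - bi j * y) / m := by
  rw [Complex.mul_re, Complex.div_ofReal_re, Complex.div_ofReal_im]
  show br j * (x / m) - bi j * (y / m) = _
  ring

lemma L_re : 0.9996 ≤ L.re := by
  have hL : L = bc 0 * (Pc 1 / ((1 : ℝ) : ℂ)) + bc 1 * (Pc 2 / ((2 : ℝ) : ℂ)) +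
      bc 2 * (Pc 3 / ((6 : ℝ) : ℂ)) + bc 3 * (Pc 4 / ((24 : ℝ) : ℂ)) +
      bc 4 * (Pc 5 / ((120 : ℝ) : ℂ)) + bc 5 * (Pc 6 / ((720 : ℝ) : ℂ)) +
      bc 6 * (Pc 7 / ((5040 : ℝ) : ℂ)) := by
    unfold L
    rw [Fin.sum_univ_seven]
    norm_num [Nat.factorial]
  rw [hL, P1, P2, P3, P4, P5, P6, P7]
  simp only [Complex.add_re, term_re]
  simp only [br, bi, Matrix.cons_val]
  norm_num

lemma L_norm : Real.sqrt 3.996 < 2 * ‖L‖ := by
  have h1 : 0.9996 ≤ ‖L‖ := L_re.trans ((le_abs_self _).trans (Complex.abs_re_le_norm L))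
  rw [Real.sqrt_lt' (by linarith)]
  nlinarith

lemma exists_R : ∃ R : ℝ, 1 < R ∧ ∀ u : ℂ, ‖u‖ < R → ‖Ap u‖ + ‖Bp u‖ < 2 * ‖L‖ := by
  have hc : Continuous (fun u => ‖Ap u‖ + ‖Bp u‖) :=
    Ap_diff.continuous.norm.add Bp_diff.continuous.norm
  have hopen : IsOpen {u : ℂ | ‖Ap u‖ + ‖Bp u‖ < 2 * ‖L‖} := isOpen_lt hc continuous_const
  have hsub : Metric.closedBall (0 : ℂ) 1 ⊆ {u : ℂ | ‖Ap u‖ + ‖Bp u‖ < 2 * ‖L‖} := by
    intro u hu
    exact lt_of_le_of_lt (disc_bound u (by simpa using hu)) L_norm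
  obtain ⟨δ, hδ, hsub'⟩ := (isCompact_closedBall (0 : ℂ) 1).exists_cthickening_subset_open hopen hsub
  refine ⟨1 + δ, by linarith, ?_⟩
  intro u hu
  apply hsub'
  rw [cthickening_closedBall hδ.le zero_le_one]
  simp only [Metric.mem_closedBall, dist_zero_right]
  linarith

/-- the spirallike function `z (1-z)^{-c}` -/
def h (z : ℂ) : ℂ := z * Complex.exp (-c * Complex.log (1 - z))

lemma one_sub_mem {z : ℂ} (hz : z ∈ Metric.ball (0 : ℂ) 1) : 1 - z ∈ Complex.slitPlane := by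
  left
  have : ‖z‖ < 1 := by simpa using hz
  have h1 : z.re ≤ ‖z‖ := (le_abs_self _).trans (Complex.abs_re_le_norm z)
  simp; linarith

/-- the building blocks -/
def ek (k : ℕ) (z : ℂ) : ℂ := Complex.exp (-(c + k) * Complex.log (1 - z))

lemma ek_deriv (k : ℕ) {z : ℂ} (hz : z ∈ Metric.ball (0 : ℂ) 1) :
    HasDerivAt (ek k) ((c + k) * ek (k + 1) z) z := by
  have hmem := one_sub_mem hz
  have hne : (1 - z) ≠ 0 := Complex.slitPlane_ne_zero hmem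
  have h1 : HasDerivAt (fun w : ℂ => 1 - w) (-1) z := by
    simpa using (hasDerivAt_id z).const_sub 1
  have h2 : HasDerivAt (fun w : ℂ => Complex.log (1 - w)) (-1 / (1 - z)) z := h1.clog hmem
  have h3 := (h2.const_mul (-(c + k))).cexp
  refine h3.congr_deriv ?_
  have h4 : ek (k + 1) z = Complex.exp (-(c + k) * Complex.log (1 - z)) / (1 - z) := by
    unfold ek
    have : -(c + ((k + 1 : ℕ) : ℂ)) * Complex.log (1 - z) =
        -(c + k) * Complex.log (1 - z) - Complex.log (1 - z) := by push_cast; ring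
    rw [this, Complex.exp_sub, Complex.exp_log hne]
  rw [h4]
  field_simp

lemma ek_zero (k : ℕ) : ek k 0 = 1 := by simp [ek]

lemma h_iter (k : ℕ) : ∀ z ∈ Metric.ball (0 : ℂ) 1, iteratedDeriv (k + 1) h z =
    (k + 1) * Pc k * ek k z + z * Pc (k + 1) * ek (k + 1) z := by
  induction k with
  | zero =>
    intro z hz
    rw [iteratedDeriv_one]
    have h1 : HasDerivAt h (1 * ek 0 z + z * ((c + (0 : ℕ)) * ek 1 z)) z := by
      have := (hasDerivAt_id z).mul (ek_deriv 0 hz)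
      refine this.congr_of_eventuallyEq (Filter.Eventually.of_forall fun w => ?_)
      simp [h, ek]
    rw [h1.deriv]
    simp [Pc]
    ring
  | succ k ih =>
    intro z hz
    rw [iteratedDeriv_succ]
    have hev : iteratedDeriv (k + 1) h =ᶠ[nhds z] fun w =>
        (k + 1) * Pc k * ek k w + w * Pc (k + 1) * ek (k + 1) w := by
      filter_upwards [Metric.isOpen_ball.mem_nhds hz] with w hw using ih w hw
    rw [hev.deriv_eq]
    have h1 := ((ek_deriv k hz).const_mul ((k + 1) * Pc k)).add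
      (((hasDerivAt_id z).mul_const (Pc (k + 1))).mul (ek_deriv (k + 1) hz))
    have h2 : HasDerivAt (fun w => (k + 1) * Pc k * ek k w + w * Pc (k + 1) * ek (k + 1) w) _ z := h1
    rw [h2.deriv]
    rw [Pc_succ (k + 1), Pc_succ k]
    push_cast
    simp only [id]
    ring

lemma h_coeff (k : ℕ) : iteratedDeriv (k + 1) h 0 / ((k + 1).factorial : ℂ) =
    Pc k / (k.factorial : ℂ) := by
  rw [h_iter k 0 (by simp), ek_zero, Nat.factorial_succ]
  have h1 : (k.factorial : ℂ) ≠ 0 := by exact_mod_cast k.factorial_ne_zero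
  have h2 : ((k : ℂ) + 1) ≠ 0 := by exact_mod_cast k.succ_ne_zero
  push_cast
  field_simp
  ring

lemma h_diff : DifferentiableOn ℂ h (Metric.ball (0 : ℂ) 1) := by
  intro z hz
  have h1 : HasDerivAt h (1 * ek 0 z + z * ((c + (0 : ℕ)) * ek 1 z)) z := by
    have := (hasDerivAt_id z).mul (ek_deriv 0 hz)
    refine this.congr_of_eventuallyEq (Filter.Eventually.of_forall fun w => ?_)
    simp [h, ek]
  exact h1.differentiableAt.differentiableWithinAt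

lemma h_zero : h 0 = 0 := by simp [h]

lemma h_deriv : deriv h 0 = 1 := by
  have := h_coeff 0
  simpa [Pc, iteratedDeriv_one] using this

/-! univalence -/

/-- `Ψ(ζ) = ζ - c log(1 - e^ζ)` -/
def Psi (ζ : ℂ) : ℂ := ζ - c * Complex.log (1 - Complex.exp ζ)

lemma exp_mem {ζ : ℂ} (h : ζ.re < 0) : Complex.exp ζ ∈ Metric.ball (0 : ℂ) 1 := by
  simp only [Metric.mem_ball, dist_zero_right, Complex.norm_exp]
  rw [← Real.exp_zero]
  exact Real.exp_lt_exp.2 h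

lemma Psi_deriv {ζ : ℂ} (h : ζ.re < 0) :
    HasDerivAt Psi (1 + c * (Complex.exp ζ / (1 - Complex.exp ζ))) ζ := by
  have hmem := one_sub_mem (exp_mem h)
  have h1 : HasDerivAt (fun w : ℂ => 1 - Complex.exp w) (-Complex.exp ζ) ζ := by
    simpa using (Complex.hasDerivAt_exp ζ).const_sub 1
  have h2 := ((hasDerivAt_id ζ).sub ((h1.clog hmem).const_mul c))
  refine h2.congr_deriv ?_
  ring

lemma Psi_re {ζ : ℂ} (h : ζ.re < 0) :
    0 < ((starRingEnd ℂ) c * (1 + c * (Complex.exp ζ / (1 - Complex.exp ζ)))).re := by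
  set z := Complex.exp ζ with hz
  have hzn : ‖z‖ < 1 := by simpa using exp_mem h
  have hne : (1 - z) ≠ 0 := Complex.slitPlane_ne_zero (one_sub_mem (exp_mem h))
  have h1 : (starRingEnd ℂ) c * (1 + c * (z / (1 - z))) =
      (starRingEnd ℂ) c + (Complex.normSq c : ℂ) * (z / (1 - z)) := by
    rw [Complex.normSq_eq_conj_mul_self]; ring
  rw [h1, Complex.add_re, Complex.conj_re, Complex.re_ofReal_mul]
  have h2 : -(1 / 2) < (z / (1 - z)).re := by
    have e : z / (1 - z) = -(1 / 2) + (1 / 2) * ((1 + z) / (1 - z)) := by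
      field_simp; ring
    have h3 : 0 < ((1 + z) / (1 - z)).re := by
      rw [Complex.div_re]
      have hN : 0 < Complex.normSq (1 - z) := Complex.normSq_pos.2 hne
      have hsq : z.re ^ 2 + z.im ^ 2 < 1 := by
        have : Complex.normSq z < 1 := by
          rw [Complex.normSq_eq_norm_sq]
          nlinarith [norm_nonneg z]
        rw [Complex.normSq_apply] at this
        nlinarith
      rw [← add_div]
      apply div_pos _ hN
      simp
      nlinarith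
    rw [e, Complex.add_re]
    have h4 : ((1 / 2 : ℂ) * ((1 + z) / (1 - z))).re = (1 / 2) * ((1 + z) / (1 - z)).re := by
      have : (1 / 2 : ℂ) = ((1 / 2 : ℝ) : ℂ) := by push_cast; ring
      rw [this, Complex.re_ofReal_mul]
    have h5 : (-(1 / 2 : ℂ)).re = -(1 / 2) := by norm_num
    rw [h4, h5]
    linarith
  have h3 : Complex.normSq c = (1983 / 1000) ^ 2 + (180 / 1000) ^ 2 := by
    rw [Complex.normSq_apply]; simp [c]; norm_num
  have h4 : c.re = 1983 / 1000 := rfl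
  rw [h3, h4]
  nlinarith

lemma Psi_inj {ζ₁ ζ₂ : ℂ} (h1 : ζ₁.re < 0) (h2 : ζ₂.re < 0) (h : Psi ζ₁ = Psi ζ₂) : ζ₁ = ζ₂ := by
  by_contra hne
  have hd : ζ₁ - ζ₂ ≠ 0 := sub_ne_zero.2 hne
  set f : ℝ → ℝ := fun t => ((starRingEnd ℂ) c * (Psi (ζ₂ + t * (ζ₁ - ζ₂)) / (ζ₁ - ζ₂))).re with hf
  have hre : ∀ t ∈ Set.Icc (0 : ℝ) 1, (ζ₂ + t * (ζ₁ - ζ₂)).re < 0 := by
    intro t ht
    simp only [Complex.add_re, Complex.mul_re, Complex.sub_re, Complex.ofReal_re, Complex.ofReal_im,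
      zero_mul, sub_zero]
    rcases eq_or_lt_of_le ht.1 with h0 | h0
    · rw [← h0]; simpa using h2
    · nlinarith [ht.2]
  have hder : ∀ t ∈ Set.Icc (0 : ℝ) 1, ∃ d : ℝ, 0 < d ∧ HasDerivAt f d t := by
    intro t ht
    have hp := Psi_re (hre t ht)
    refine ⟨_, hp, ?_⟩
    have ha : HasDerivAt (fun t : ℝ => ζ₂ + (t : ℂ) * (ζ₁ - ζ₂)) (ζ₁ - ζ₂) t := by
      have := (Complex.ofRealCLM.hasDerivAt (x := t)).mul_const (ζ₁ - ζ₂)
      simpa using this.const_add ζ₂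
    have hb := (Psi_deriv (hre t ht)).scomp t ha
    have hc := (hb.div_const (ζ₁ - ζ₂)).const_mul ((starRingEnd ℂ) c)
    have hd' := (Complex.reCLM.hasFDerivAt.comp_hasDerivAt t hc)
    refine hd'.congr_deriv ?_
    simp only [Complex.reCLM_apply, smul_eq_mul]
    congr 1
    field_simp
  have hmono : f 0 < f 1 := by
    have hcont : ContinuousOn f (Set.Icc 0 1) := fun t ht =>
      (hder t ht).choose_spec.2.continuousAt.continuousWithinAt
    have := strictMonoOn_of_deriv_pos (convex_Icc (0 : ℝ) 1) hcont (by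
      intro t ht
      rw [interior_Icc] at ht
      obtain ⟨d, hd1, hd2⟩ := hder t ⟨ht.1.le, ht.2.le⟩
      rw [hd2.deriv]; exact hd1)
    exact this ⟨le_rfl, zero_le_one⟩ ⟨zero_le_one, le_rfl⟩ zero_lt_one
  have e0 : f 0 = ((starRingEnd ℂ) c * (Psi ζ₂ / (ζ₁ - ζ₂))).re := by simp [hf]
  have e1 : f 1 = ((starRingEnd ℂ) c * (Psi ζ₁ / (ζ₁ - ζ₂))).re := by simp [hf]
  rw [e0, e1, h] at hmono
  exact lt_irrefl _ hmono

lemma h_exp {ζ : ℂ} : h (Complex.exp ζ) = Complex.exp (Psi ζ) := by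
  show Complex.exp ζ * Complex.exp (-c * Complex.log (1 - Complex.exp ζ)) = Complex.exp (Psi ζ)
  rw [← Complex.exp_add]
  congr 1
  unfold Psi
  ring

lemma h_inj : Set.InjOn h (Metric.ball (0 : ℂ) 1) := by
  intro z₁ hz₁ z₂ hz₂ heq
  have hz0 : ∀ z : ℂ, h z = 0 → z = 0 := by
    intro z hz
    rcases mul_eq_zero.1 hz with h' | h'
    · exact h'
    · exact absurd h' (Complex.exp_ne_zero _)
  by_cases h1 : z₁ = 0
  · rw [h1, h_zero] at heq
    rw [h1, hz0 z₂ heq.symm]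
  by_cases h2 : z₂ = 0
  · rw [h2, h_zero] at heq
    rw [h2, hz0 z₁ heq]
  have hr : ∀ z : ℂ, z ≠ 0 → z ∈ Metric.ball (0 : ℂ) 1 → (Complex.log z).re < 0 := by
    intro z hz hzb
    rw [Complex.log_re]
    exact Real.log_neg (norm_pos_iff.2 hz) (by simpa using hzb)
  have e1 : Complex.exp (Complex.log z₁) = z₁ := Complex.exp_log h1
  have e2 : Complex.exp (Complex.log z₂) = z₂ := Complex.exp_log h2
  rw [← e1, ← e2, h_exp, h_exp, Complex.exp_eq_exp_iff_exists_int] at heq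
  obtain ⟨n, hn⟩ := heq
  set ζ₂ := Complex.log z₂ + n * (2 * Real.pi * Complex.I) with hζ₂
  have e3 : Complex.exp ζ₂ = z₂ := by
    rw [hζ₂, Complex.exp_add, e2, Complex.exp_int_mul_two_pi_mul_I, mul_one]
  have e4 : Psi ζ₂ = Psi (Complex.log z₂) + n * (2 * Real.pi * Complex.I) := by
    unfold Psi
    rw [e3, e2, hζ₂]
    ring
  have e5 : ζ₂.re < 0 := by
    have : ζ₂.re = (Complex.log z₂).re := by
      rw [hζ₂]
      simp [Complex.add_re, Complex.mul_re]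
    rw [this]; exact hr z₂ h2 hz₂
  have := Psi_inj (hr z₁ h1 hz₁) e5 (by rw [e4]; exact hn)
  rw [← e1, this, e3]

/-! ### the polynomial `g` -/

open Polynomial in
/-- the polynomial `g` -/
def G (R : ℝ) : ℂ[X] :=
  X - ∑ j : Fin 7, C (bc j * (R : ℂ) ^ ((j : ℕ) + 1) / L) * X ^ ((j : ℕ) + 2)

lemma iter_poly (p : Polynomial ℂ) (n : ℕ) :
    iteratedDeriv n (fun z => p.eval z) = fun z => ((Polynomial.derivative^[n]) p).eval z := by
  induction n with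
  | zero => simp
  | succ n ih =>
    rw [iteratedDeriv_succ, ih, Function.iterate_succ_apply']
    funext z
    rw [Polynomial.deriv]

lemma iter_poly_zero (p : Polynomial ℂ) (n : ℕ) :
    iteratedDeriv n (fun z => p.eval z) 0 / (n.factorial : ℂ) = p.coeff n := by
  rw [iter_poly]
  have h1 : (n.factorial : ℂ) ≠ 0 := by exact_mod_cast n.factorial_ne_zero
  show ((Polynomial.derivative^[n]) p).eval 0 / _ = _
  rw [← Polynomial.coeff_zero_eq_eval_zero, Polynomial.coeff_iterate_derivative, zero_add,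
    Nat.descFactorial_self, nsmul_eq_mul]
  field_simp

lemma G_coeff (R : ℝ) (n : ℕ) : (G R).coeff n =
    (if n = 1 then 1 else 0) - ∑ j : Fin 7, (if n = (j : ℕ) + 2 then bc j * (R : ℂ) ^ ((j : ℕ) + 1) / L else 0) := by
  unfold G
  rw [Polynomial.coeff_sub, Polynomial.coeff_X, Polynomial.finsetSum_coeff]
  congr 1
  · by_cases h : n = 1
    · simp [h]
    · simp [h, Ne.symm h]
  · refine Finset.sum_congr rfl fun j _ => ?_
    rw [Polynomial.coeff_C_mul, Polynomial.coeff_X_pow]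
    simp

lemma G_eval (R : ℝ) (z : ℂ) : (G R).eval z =
    z - ∑ j : Fin 7, bc j * (R : ℂ) ^ ((j : ℕ) + 1) / L * z ^ ((j : ℕ) + 2) := by
  unfold G
  simp [Polynomial.eval_finsetSum]

lemma G_deriv (R : ℝ) (z : ℂ) : deriv (fun z => (G R).eval z) z =
    1 - ∑ j : Fin 7, ((j : ℕ) + 2 : ℂ) * (bc j * (R : ℂ) ^ ((j : ℕ) + 1) / L) * z ^ ((j : ℕ) + 1) := by
  rw [Polynomial.deriv]
  unfold G
  rw [Polynomial.derivative_sub, Polynomial.derivative_X, Polynomial.derivative_sum]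
  rw [Polynomial.eval_sub, Polynomial.eval_one, Polynomial.eval_finsetSum]
  congr 1
  refine Finset.sum_congr rfl fun j _ => ?_
  rw [Polynomial.derivative_C_mul, Polynomial.derivative_X_pow]
  simp
  ring

lemma G_coeff2 (R : ℝ) (j : Fin 7) : (G R).coeff ((j : ℕ) + 2) =
    -(bc j * (R : ℂ) ^ ((j : ℕ) + 1) / L) := by
  rw [G_coeff]
  have h1 : ¬ ((j : ℕ) + 2 = 1) := by omega
  rw [if_neg h1, zero_sub, Finset.sum_eq_single j]
  · simp
  · intro k _ hk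
    rw [if_neg]
    intro h
    apply hk
    apply Fin.ext
    omega
  · intro h; exact absurd (Finset.mem_univ j) h

/-- The negation of the preceding statement: Every normalized analytic g on the unit disk with ∣(g'−1)−(g−z)/z∣+∣(g'−1)+(g−z)/z∣<2 throughout the disk has Hadamard product with every normalized univalent h nonvanishing for 0<∣z∣<1. -/
theorem result :
    ¬ (∀ g : ℂ → ℂ, DifferentiableOn ℂ g (Metric.ball (0 : ℂ) 1) → g 0 = 0 → deriv g 0 = 1 →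
      (∀ z : ℂ, z ∈ Metric.ball (0 : ℂ) 1 → z ≠ 0 →
        ‖(deriv g z - 1) - (g z - z) / z‖ + ‖(deriv g z - 1) + (g z - z) / z‖ < 2) →
      ∀ h : ℂ → ℂ, DifferentiableOn ℂ h (Metric.ball (0 : ℂ) 1) → h 0 = 0 → deriv h 0 = 1 →
        Set.InjOn h (Metric.ball (0 : ℂ) 1) →
        ∀ z : ℂ, 0 < ‖z‖ → ‖z‖ < 1 →
          (∑' n : ℕ, (iteratedDeriv n g 0 / (n.factorial : ℂ)) *
              (iteratedDeriv n h 0 / (n.factorial : ℂ)) * z ^ n) ≠ 0) := by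
  intro H
  obtain ⟨R, hR, hRb⟩ := exists_R
  have hL : L ≠ 0 := by
    intro h0
    have := L_re
    rw [h0] at this
    norm_num at this
  have hLn : 0 < ‖L‖ := norm_pos_iff.2 hL
  have hR0 : (R : ℂ) ≠ 0 := by exact_mod_cast (by linarith : R ≠ 0)
  refine H (fun z => (G R).eval z) (Polynomial.differentiable _).differentiableOn ?_ ?_ ?_ h h_diff h_zero
    h_deriv h_inj (1 / (R : ℂ)) ?_ ?_ ?_
  · show (G R).eval 0 = 0
    rw [G_eval]; simp
  · rw [G_deriv]; simp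
  · intro z hz hz0
    have hzn : ‖z‖ < 1 := by simpa using hz
    have hq : ((G R).eval z - z) / z =
        - ∑ j : Fin 7, bc j * (R : ℂ) ^ ((j : ℕ) + 1) / L * z ^ ((j : ℕ) + 1) := by
      rw [G_eval, sub_right_comm, sub_self, zero_sub, neg_div, Finset.sum_div]
      congr 1
      refine Finset.sum_congr rfl fun j _ => ?_
      rw [pow_succ z ((j : ℕ) + 1)]
      field_simp
    have hA : Ap (R * z) / L =
        ∑ j : Fin 7, ((j : ℕ) + 1 : ℂ) * (bc j * (R : ℂ) ^ ((j : ℕ) + 1) / L * z ^ ((j : ℕ) + 1)) := by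
      unfold Ap
      rw [Finset.sum_div]
      refine Finset.sum_congr rfl fun j _ => ?_
      rw [mul_pow]; ring
    have hB : Bp (R * z) / L =
        ∑ j : Fin 7, ((j : ℕ) + 3 : ℂ) * (bc j * (R : ℂ) ^ ((j : ℕ) + 1) / L * z ^ ((j : ℕ) + 1)) := by
      unfold Bp
      rw [Finset.sum_div]
      refine Finset.sum_congr rfl fun j _ => ?_
      rw [mul_pow]; ring
    have e1 : (deriv (fun z => (G R).eval z) z - 1) - ((G R).eval z - z) / z = -(Ap (R * z) / L) := by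
      rw [hq, hA, G_deriv]
      have hs : ∑ j : Fin 7, ((j : ℕ) + 2 : ℂ) * (bc j * (R : ℂ) ^ ((j : ℕ) + 1) / L) * z ^ ((j : ℕ) + 1) =
          ∑ j : Fin 7, ((j : ℕ) + 1 : ℂ) * (bc j * (R : ℂ) ^ ((j : ℕ) + 1) / L * z ^ ((j : ℕ) + 1)) +
          ∑ j : Fin 7, bc j * (R : ℂ) ^ ((j : ℕ) + 1) / L * z ^ ((j : ℕ) + 1) := by
        rw [← Finset.sum_add_distrib]
        refine Finset.sum_congr rfl fun j _ => ?_
        ring
      rw [hs]; ring
    have e2 : (deriv (fun z => (G R).eval z) z - 1) + ((G R).eval z - z) / z = -(Bp (R * z) / L) := by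
      rw [hq, hB, G_deriv]
      have hs : ∑ j : Fin 7, ((j : ℕ) + 3 : ℂ) * (bc j * (R : ℂ) ^ ((j : ℕ) + 1) / L * z ^ ((j : ℕ) + 1)) =
          ∑ j : Fin 7, ((j : ℕ) + 2 : ℂ) * (bc j * (R : ℂ) ^ ((j : ℕ) + 1) / L) * z ^ ((j : ℕ) + 1) +
          ∑ j : Fin 7, bc j * (R : ℂ) ^ ((j : ℕ) + 1) / L * z ^ ((j : ℕ) + 1) := by
        rw [← Finset.sum_add_distrib]
        refine Finset.sum_congr rfl fun j _ => ?_
        ring
      rw [hs]; ring
    rw [e1, e2, norm_neg, norm_neg, norm_div, norm_div, ← add_div, div_lt_iff₀ hLn]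
    apply hRb
    rw [norm_mul, Complex.norm_real, Real.norm_of_nonneg (by linarith)]
    nlinarith [norm_nonneg z]
  · rw [norm_div, norm_one, Complex.norm_real, Real.norm_of_nonneg (by linarith)]
    positivity
  · rw [norm_div, norm_one, Complex.norm_real, Real.norm_of_nonneg (by linarith)]
    rw [div_lt_one (by linarith)]; exact hR
  · rw [tsum_eq_sum (s := Finset.range 9)]
    · have hT : ∀ j : Fin 7, iteratedDeriv ((j : ℕ) + 2) (fun z => (G R).eval z) 0 /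
            (((j : ℕ) + 2).factorial : ℂ) *
          (iteratedDeriv ((j : ℕ) + 2) h 0 / (((j : ℕ) + 2).factorial : ℂ)) * (1 / (R : ℂ)) ^ ((j : ℕ) + 2) =
          -(1 / (L * R)) * (bc j * (Pc ((j : ℕ) + 1) / (((j : ℕ) + 1).factorial : ℂ))) := by
        intro j
        rw [iter_poly_zero, G_coeff2, h_coeff ((j : ℕ) + 1), div_pow, one_pow, pow_succ (R : ℂ) ((j : ℕ) + 1)]
        have h5 : ((((j : ℕ) + 1).factorial : ℕ) : ℂ) ≠ 0 := by
          exact_mod_cast ((j : ℕ) + 1).factorial_ne_zero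
        field_simp
      rw [Finset.sum_range_succ', Finset.sum_range_succ']
      have hS := Fin.sum_univ_eq_sum_range (fun i : ℕ => iteratedDeriv (i + 2) (fun z => (G R).eval z) 0 /
            ((i + 2).factorial : ℂ) *
          (iteratedDeriv (i + 2) h 0 / ((i + 2).factorial : ℂ)) * (1 / (R : ℂ)) ^ (i + 2)) 7
      have hS2 : ∑ i ∈ Finset.range 7, iteratedDeriv (i + 2) (fun z => (G R).eval z) 0 /
            ((i + 2).factorial : ℂ) *
          (iteratedDeriv (i + 2) h 0 / ((i + 2).factorial : ℂ)) * (1 / (R : ℂ)) ^ (i + 2) =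
          -(1 / (L * R)) * L := by
        rw [← hS, Finset.sum_congr rfl (fun j _ => hT j), ← Finset.mul_sum]
        rfl
      have hz0 : iteratedDeriv 0 h 0 = 0 := by rw [iteratedDeriv_zero]; exact h_zero
      have hz1 : iteratedDeriv (0 + 1) h 0 / ((0 + 1).factorial : ℂ) = 1 := by
        rw [h_coeff 0]; simp [Pc]
      have hg1 : iteratedDeriv (0 + 1) (fun z => (G R).eval z) 0 / ((0 + 1).factorial : ℂ) = 1 := by
        rw [iter_poly_zero, G_coeff]; simp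
      rw [hS2, hz0, hz1, hg1]
      have h6 : -(1 / (L * (R : ℂ))) * L = -(1 / (R : ℂ)) := by field_simp
      rw [h6]
      simp
    · intro n hn
      rw [iter_poly_zero, G_coeff]
      have hn9 : 9 ≤ n := by simpa using hn
      have h1 : n ≠ 1 := by omega
      have h2 : ∀ j : Fin 7, n ≠ (j : ℕ) + 2 := by intro j; have := j.2; omega
      simp [h1, h2]

end

end Pool.Agent.S02742
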