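import Pool.Statements.S02748
-- import your own Pool.Agent.* helpers here

set_option autoImplicit false
open Pool Pool.MP_1a961d_an

namespace Pool.Agent.S02748

noncomputable section

open ContinuousLinearMap

/-- `ℓ²(X)` -/
abbrev l2 (X : Type) : Type := lp (fun _ : X => ℂ) 2

lemma two_toReal : (2 : ENNReal).toReal = 2 := by norm_num

lemma sum_le {X : Type} (g : l2 X) (s : Finset X) : ∑ x ∈ s, ‖g x‖ ^ (2 : ENNReal).toReal ≤
    ‖g‖ ^ (2 : ENNReal).toReal := lp.sum_rpow_le_norm_rpow (by norm_num) g s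

variable {X Y : Type}

/-- the summation bound for a weighted composition -/
lemma wc_bound [DecidableEq X] (π : Y → X) (hπ : Function.Injective π) (v : Y → ℂ) (hv : ∀ y, ‖v y‖ ≤ 1)
    (g : l2 X) (s : Finset Y) :
    ∑ y ∈ s, ‖v y * g (π y)‖ ^ (2 : ENNReal).toReal ≤ ‖g‖ ^ (2 : ENNReal).toReal := by
  have h1 : ∑ y ∈ s, ‖v y * g (π y)‖ ^ (2 : ENNReal).toReal ≤
      ∑ y ∈ s, ‖g (π y)‖ ^ (2 : ENNReal).toReal := by
    refine Finset.sum_le_sum fun y _ => ?_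
    rw [norm_mul]
    refine Real.rpow_le_rpow (by positivity) ?_ (by norm_num)
    calc ‖v y‖ * ‖g (π y)‖ ≤ 1 * ‖g (π y)‖ := mul_le_mul_of_nonneg_right (hv y) (norm_nonneg _)
      _ = _ := one_mul _
  have h2 : ∑ y ∈ s, ‖g (π y)‖ ^ (2 : ENNReal).toReal =
      ∑ x ∈ s.image π, ‖g x‖ ^ (2 : ENNReal).toReal :=
    (Finset.sum_image (f := fun x => ‖g x‖ ^ (2 : ENNReal).toReal)
      (fun a _ b _ h => hπ h)).symm
  exact h1.trans (h2.le.trans (sum_le g _))

lemma wc_mem (π : Y → X) (hπ : Function.Injective π) (v : Y → ℂ) (hv : ∀ y, ‖v y‖ ≤ 1)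
    (g : l2 X) : Memℓp (fun y => v y * g (π y)) 2 := by
  classical
  apply memℓp_gen
  exact summable_of_sum_le (fun y => by positivity) (fun s => wc_bound π hπ v hv g s)

/-- the weighted composition operator `(C g)(y) = v(y) g(π y)` -/
def C (π : Y → X) (hπ : Function.Injective π) (v : Y → ℂ) (hv : ∀ y, ‖v y‖ ≤ 1) :
    l2 X →L[ℂ] l2 Y :=
  LinearMap.mkContinuous
    { toFun := fun g => ⟨fun y => v y * g (π y), wc_mem π hπ v hv g⟩
      map_add' := by
        intro f g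
        ext y
        show v y * (f (π y) + g (π y)) = v y * f (π y) + v y * g (π y)
        ring
      map_smul' := by
        intro a f
        ext y
        show v y * (a * f (π y)) = a * (v y * f (π y))
        ring } 1 (by
      classical
      intro g
      rw [one_mul]
      exact lp.norm_le_of_forall_sum_le (by norm_num) (norm_nonneg _)
        (fun s => wc_bound π hπ v hv g s))

lemma C_apply (π : Y → X) (hπ : Function.Injective π) (v : Y → ℂ) (hv : ∀ y, ‖v y‖ ≤ 1)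
    (g : l2 X) (y : Y) : C π hπ v hv g y = v y * g (π y) := rfl

/-- the adjoint in coordinates -/
lemma adj_coord (A : l2 X →L[ℂ] l2 Y) [DecidableEq X] (g : l2 Y) (x : X) :
    (adjoint A g) x = inner ℂ (A (lp.single 2 x (1 : ℂ))) g := by
  rw [← adjoint_inner_right, lp.inner_single_left]
  simp

lemma adj_apply (π : Y → X) (hπ : Function.Injective π) (v : Y → ℂ) (hv : ∀ y, ‖v y‖ ≤ 1)
    (g : l2 Y) (y : Y) : (adjoint (C π hπ v hv) g) (π y) = (starRingEnd ℂ) (v y) * g y := by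
  classical
  rw [adj_coord, lp.inner_eq_tsum, tsum_eq_single y]
  · rw [C_apply]
    simp [mul_comm]
  · intro b hb
    rw [C_apply]
    have : π b ≠ π y := fun h => hb (hπ h)
    simp [lp.single_apply, this]

lemma adj_apply_zero (π : Y → X) (hπ : Function.Injective π) (v : Y → ℂ) (hv : ∀ y, ‖v y‖ ≤ 1)
    (g : l2 Y) (x : X) (hx : ∀ y, π y ≠ x) : (adjoint (C π hπ v hv) g) x = 0 := by
  classical
  rw [adj_coord, lp.inner_eq_tsum]
  convert tsum_zero with y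
  rw [C_apply]
  simp [lp.single_apply, hx y]

lemma adj_single [DecidableEq X] [DecidableEq Y] (π : Y → X) (hπ : Function.Injective π) (v : Y → ℂ)
    (hv : ∀ y, ‖v y‖ ≤ 1) (y : Y) :
    adjoint (C π hπ v hv) (lp.single 2 y (1 : ℂ)) =
      (starRingEnd ℂ) (v y) • lp.single 2 (π y) (1 : ℂ) := by
  ext x
  rw [lp.coeFn_smul, Pi.smul_apply]
  by_cases hx : ∃ y', π y' = x
  · obtain ⟨y', rfl⟩ := hx
    rw [adj_apply]
    by_cases hy : y' = y
    · subst hy; simp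
    · have h2 : π y' ≠ π y := fun h => hy (hπ h)
      rw [lp.single_apply_ne _ _ _ hy, lp.single_apply_ne _ _ _ h2]
      simp
  · push Not at hx
    rw [adj_apply_zero _ _ _ _ _ _ hx, lp.single_apply_ne _ _ _ (fun h => hx y h.symm)]
    simp

lemma isom_of {A : l2 X →L[ℂ] l2 Y} (h : ∀ x, A (adjoint A x) = x) (x : l2 Y) :
    ‖adjoint A x‖ = ‖x‖ := by
  have h1 : inner ℂ (adjoint A x) (adjoint A x) = inner ℂ x x := by
    rw [adjoint_inner_left, h]
  have h2 : ‖adjoint A x‖ ^ 2 = ‖x‖ ^ 2 := by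
    rw [← @inner_self_eq_norm_sq ℂ, ← @inner_self_eq_norm_sq ℂ, h1]
  exact (sq_eq_sq₀ (norm_nonneg _) (norm_nonneg _)).1 h2

/-! ### the example -/

def tS (x : ℕ × ℕ) : ℕ × ℕ := (x.1 + 1, x.2)
def tT (x : ℕ × ℕ) : ℕ × ℕ := (x.1, x.2 + 1)

lemma tS_inj : Function.Injective tS := by
  rintro ⟨a, b⟩ ⟨c, d⟩ h
  simp only [tS, Prod.mk.injEq] at h
  ext <;> simp <;> omega

lemma tT_inj : Function.Injective tT := by
  rintro ⟨a, b⟩ ⟨c, d⟩ h
  simp only [tT, Prod.mk.injEq] at h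
  ext <;> simp <;> omega

def sw (x : ℕ × ℕ) : ℂ := if x.2 = 0 then 1 else if x.1 = 0 then (1 / 2) ^ x.2 else 1 / 2

def tw (x : ℕ × ℕ) : ℂ := sw x.swap

lemma sw_le (x : ℕ × ℕ) : ‖sw x‖ ≤ 1 := by
  unfold sw
  split_ifs
  · simp
  · rw [norm_pow]
    exact pow_le_one₀ (norm_nonneg _) (by norm_num)
  · norm_num

lemma tw_le (x : ℕ × ℕ) : ‖tw x‖ ≤ 1 := sw_le _

def BS : l2 (ℕ × ℕ) →L[ℂ] l2 (ℕ × ℕ) := C tS tS_inj sw sw_le
def BT : l2 (ℕ × ℕ) →L[ℂ] l2 (ℕ × ℕ) := C tT tT_inj tw tw_le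

lemma B_comm : BS.comp BT = BT.comp BS := by
  ext g x
  obtain ⟨i, j⟩ := x
  show sw (i, j) * (tw (i + 1, j) * g (i + 1, j + 1)) = tw (i, j) * (sw (i, j + 1) * g (i + 1, j + 1))
  rw [← mul_assoc, ← mul_assoc]
  congr 1
  rcases Nat.eq_zero_or_pos i with hi | hi <;> rcases Nat.eq_zero_or_pos j with hj | hj
  · subst hi; subst hj; simp [sw, tw]
  · subst hi
    simp [sw, tw, hj.ne', pow_succ]
  · subst hj
    simp [sw, tw, hi.ne', pow_succ]
  · simp [sw, tw, hi.ne', hj.ne']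

abbrev KI : Type := (ℤ × ℕ) × Bool

def tK (k : KI) : KI := ((k.1.1 + 1, k.1.2), k.2)

lemma tK_inj : Function.Injective tK := by
  rintro ⟨⟨a, b⟩, e⟩ ⟨⟨c, d⟩, e'⟩ h
  simp only [tK, Prod.mk.injEq] at h
  obtain ⟨⟨h1, h2⟩, h3⟩ := h
  simp only [Prod.mk.injEq]
  exact ⟨⟨by omega, h2⟩, h3⟩

lemma tK_surj : Function.Surjective tK := by
  rintro ⟨⟨a, b⟩, e⟩
  exact ⟨((a - 1, b), e), by simp [tK]⟩

def rho (k : KI) : ℂ := if k.2 then (if k.1.2 = 0 then 1 else 1 / 2) else 0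

lemma rho_le (k : KI) : ‖rho k‖ ≤ 1 := by
  unfold rho
  split_ifs <;> norm_num

lemma rho_tK (k : KI) : rho (tK k) = rho k := rfl

def D : l2 KI →L[ℂ] l2 KI := C tK tK_inj rho rho_le

lemma D_normal : IsStarNormal (adjoint D) := by
  refine ⟨?_⟩
  rw [ContinuousLinearMap.star_eq_adjoint, adjoint_adjoint]
  show D * adjoint D = adjoint D * D
  ext f k
  obtain ⟨k', rfl⟩ := tK_surj k
  show (D (adjoint D f)) (tK k') = (adjoint D (D f)) (tK k')
  have e1 : (D (adjoint D f)) (tK k') = rho (tK k') * (adjoint D f) (tK (tK k')) := rfl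
  rw [e1]
  unfold D
  rw [adj_apply, adj_apply, C_apply, rho_tK]
  ring

def i1 (x : ℕ × ℕ) : KI := (((x.1 : ℤ), x.2), true)
def i2 (x : ℕ × ℕ) : KI := (((x.1 : ℤ), x.2), false)

lemma i1_inj : Function.Injective i1 := by
  rintro ⟨a, b⟩ ⟨c, d⟩ h
  simp only [i1, Prod.mk.injEq] at h
  obtain ⟨⟨h1, h2⟩, h3⟩ := h
  simp only [Prod.mk.injEq]
  exact ⟨by omega, h2⟩

lemma i2_inj : Function.Injective i2 := by
  rintro ⟨a, b⟩ ⟨c, d⟩ h
  simp only [i2, Prod.mk.injEq] at h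
  obtain ⟨⟨h1, h2⟩, h3⟩ := h
  simp only [Prod.mk.injEq]
  exact ⟨by omega, h2⟩

def vr (x : ℕ × ℕ) : ℝ := if x.1 = 0 ∧ x.2 ≠ 0 then 2 * (1 / 2) ^ x.2 else 1

lemma vr_bound (x : ℕ × ℕ) : 0 ≤ vr x ∧ vr x ≤ 1 := by
  unfold vr
  split_ifs with h
  · refine ⟨by positivity, ?_⟩
    obtain ⟨m, hm⟩ := Nat.exists_eq_succ_of_ne_zero h.2
    rw [hm, Nat.succ_eq_add_one, pow_succ]
    have : ((1 : ℝ) / 2) ^ m ≤ 1 := pow_le_one₀ (by norm_num) (by norm_num)
    linarith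
  · norm_num

def ur (x : ℕ × ℕ) : ℝ := Real.sqrt (1 - vr x ^ 2)

lemma ur_sq (x : ℕ × ℕ) : vr x * vr x + ur x * ur x = 1 := by
  unfold ur
  have h := vr_bound x
  rw [Real.mul_self_sqrt (by nlinarith)]
  ring

lemma vr_le (x : ℕ × ℕ) : ‖(vr x : ℂ)‖ ≤ 1 := by
  rw [Complex.norm_real, Real.norm_of_nonneg (vr_bound x).1]; exact (vr_bound x).2

lemma ur_le (x : ℕ × ℕ) : ‖(ur x : ℂ)‖ ≤ 1 := by
  have h0 : 0 ≤ ur x := Real.sqrt_nonneg _
  rw [Complex.norm_real, Real.norm_of_nonneg h0]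
  nlinarith [ur_sq x, mul_self_nonneg (vr x)]

def VA : l2 KI →L[ℂ] l2 (ℕ × ℕ) :=
  C i1 i1_inj (fun x => (vr x : ℂ)) vr_le + C i2 i2_inj (fun x => (ur x : ℂ)) ur_le

lemma VA_apply (f : l2 KI) (x : ℕ × ℕ) :
    VA f x = vr x * f (i1 x) + ur x * f (i2 x) := rfl

lemma adjVA_1 (g : l2 (ℕ × ℕ)) (x : ℕ × ℕ) : (adjoint VA g) (i1 x) = vr x * g x := by
  unfold VA
  rw [map_add]
  show (adjoint (C i1 i1_inj (fun x => (vr x : ℂ)) vr_le) g) (i1 x) +
    (adjoint (C i2 i2_inj (fun x => (ur x : ℂ)) ur_le) g) (i1 x) = _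
  rw [adj_apply, adj_apply_zero _ _ _ _ _ _ (by intro y; simp [i1, i2]), Complex.conj_ofReal, add_zero]

lemma adjVA_2 (g : l2 (ℕ × ℕ)) (x : ℕ × ℕ) : (adjoint VA g) (i2 x) = ur x * g x := by
  unfold VA
  rw [map_add]
  show (adjoint (C i1 i1_inj (fun x => (vr x : ℂ)) vr_le) g) (i2 x) +
    (adjoint (C i2 i2_inj (fun x => (ur x : ℂ)) ur_le) g) (i2 x) = _
  rw [adj_apply, adj_apply_zero _ _ _ _ _ _ (by intro y; simp [i1, i2]), Complex.conj_ofReal, zero_add]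

lemma VA_isom (g : l2 (ℕ × ℕ)) : VA (adjoint VA g) = g := by
  ext x
  rw [VA_apply, adjVA_1, adjVA_2]
  have h : (vr x : ℂ) * vr x + ur x * ur x = 1 := by exact_mod_cast ur_sq x
  linear_combination (g x) * h

lemma VA_D : VA.comp D = BS.comp VA := by
  ext f x
  obtain ⟨i, j⟩ := x
  show (vr (i, j) : ℂ) * (rho (i1 (i, j)) * f (tK (i1 (i, j)))) +
    ur (i, j) * (rho (i2 (i, j)) * f (tK (i2 (i, j)))) =
    sw (i, j) * (vr (i + 1, j) * f (i1 (i + 1, j)) + ur (i + 1, j) * f (i2 (i + 1, j)))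
  have e1 : tK (i1 (i, j)) = i1 (i + 1, j) := by simp [tK, i1]
  have e2 : rho (i2 (i, j)) = 0 := by simp [rho, i2]
  have e3 : vr (i + 1, j) = 1 := by simp [vr]
  have e4 : ur (i + 1, j) = 0 := by simp [ur, e3]
  have e5 : (vr (i, j) : ℂ) * rho (i1 (i, j)) = sw (i, j) := by
    rcases Nat.eq_zero_or_pos i with hi | hi <;> rcases Nat.eq_zero_or_pos j with hj | hj
    · subst hi; subst hj; simp [vr, rho, i1, sw]
    · subst hi
      simp [vr, rho, i1, sw, hj.ne']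
      ring
    · subst hj
      simp [vr, rho, i1, sw]
    · simp [vr, rho, i1, sw, hi.ne', hj.ne']
  rw [e1, e2, e3, e4, ← e5]
  push_cast
  ring

lemma S_sub : ∃ (K : Type) (_ : NormedAddCommGroup K) (_ : InnerProductSpace ℂ K) (_ : CompleteSpace K)
    (V : l2 (ℕ × ℕ) →L[ℂ] K) (N : K →L[ℂ] K),
    (∀ x : l2 (ℕ × ℕ), ‖V x‖ = ‖x‖) ∧ IsStarNormal N ∧ N.comp V = V.comp (adjoint BS) := by
  refine ⟨l2 KI, inferInstance, inferInstance, inferInstance, adjoint VA, adjoint D,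
    isom_of VA_isom, D_normal, ?_⟩
  rw [← adjoint_comp, ← adjoint_comp, VA_D]

/-- the flip -/
def W : l2 (ℕ × ℕ) →L[ℂ] l2 (ℕ × ℕ) :=
  C Prod.swap Prod.swap_injective (fun _ => 1) (fun _ => by simp)

lemma W_isom (g : l2 (ℕ × ℕ)) : W (adjoint W g) = g := by
  ext x
  have : (W (adjoint W g)) x = 1 * (adjoint W g) (Prod.swap x) := rfl
  rw [this]
  unfold W
  rw [adj_apply]
  simp

lemma W_B : BT.comp W = W.comp BS := by
  ext g x
  obtain ⟨i, j⟩ := x
  show tw (i, j) * (1 * g (j + 1, i)) = 1 * (sw (j, i) * g (j + 1, i))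
  simp [tw]

lemma T_sub : ∃ (K : Type) (_ : NormedAddCommGroup K) (_ : InnerProductSpace ℂ K) (_ : CompleteSpace K)
    (V : l2 (ℕ × ℕ) →L[ℂ] K) (N : K →L[ℂ] K),
    (∀ x : l2 (ℕ × ℕ), ‖V x‖ = ‖x‖) ∧ IsStarNormal N ∧ N.comp V = V.comp (adjoint BT) := by
  refine ⟨l2 KI, inferInstance, inferInstance, inferInstance, (adjoint VA).comp (adjoint W), adjoint D,
    ?_, D_normal, ?_⟩
  · intro x
    show ‖adjoint VA (adjoint W x)‖ = ‖x‖
    rw [isom_of VA_isom, isom_of W_isom]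
  · have h1 : (adjoint D).comp (adjoint VA) = (adjoint VA).comp (adjoint BS) := by
      rw [← adjoint_comp, ← adjoint_comp, VA_D]
    have h2 : (adjoint W).comp (adjoint BT) = (adjoint BS).comp (adjoint W) := by
      rw [← adjoint_comp, ← adjoint_comp, W_B]
    rw [← ContinuousLinearMap.comp_assoc, h1, ContinuousLinearMap.comp_assoc, ← h2,
      ContinuousLinearMap.comp_assoc]

/-- subnormal operators are hyponormal -/
lemma hypo {H K : Type} [NormedAddCommGroup H] [InnerProductSpace ℂ H] [CompleteSpace H]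
    [NormedAddCommGroup K] [InnerProductSpace ℂ K] [CompleteSpace K] (P : H →L[ℂ] H)
    (V : H →L[ℂ] K) (N : K →L[ℂ] K) (hV : ∀ x, ‖V x‖ = ‖x‖) (hN : IsStarNormal N)
    (h : N.comp V = V.comp P) (x : H) : ‖adjoint P x‖ ≤ ‖P x‖ := by
  have hVV : (adjoint V).comp V = ContinuousLinearMap.id ℂ H := by
    have := (ContinuousLinearMap.norm_map_iff_adjoint_comp_self V).1 hV
    exact this
  have hP : P = (adjoint V).comp (N.comp V) := by
    rw [h, ← ContinuousLinearMap.comp_assoc, hVV, ContinuousLinearMap.id_comp]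
  have hPa : adjoint P x = adjoint V (adjoint N (V x)) := by
    rw [hP, adjoint_comp, adjoint_comp, adjoint_adjoint]
    rfl
  have hVa : ∀ y, ‖adjoint V y‖ ≤ ‖y‖ := by
    intro y
    have h1 : ‖adjoint V‖ ≤ 1 := by
      rw [LinearIsometryEquiv.norm_map]
      exact ContinuousLinearMap.opNorm_le_bound _ zero_le_one (fun x => by rw [hV, one_mul])
    calc ‖adjoint V y‖ ≤ ‖adjoint V‖ * ‖y‖ := ContinuousLinearMap.le_opNorm _ _
      _ ≤ 1 * ‖y‖ := mul_le_mul_of_nonneg_right h1 (norm_nonneg _)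
      _ = ‖y‖ := one_mul _
  have hNn : ‖adjoint N (V x)‖ = ‖N (V x)‖ := by
    exact ((ContinuousLinearMap.isStarNormal_iff_norm_eq_adjoint.1 hN) (V x)).symm
  have hNV : N (V x) = V (P x) := by
    have := congrArg (fun A : H →L[ℂ] K => A x) h
    exact this
  rw [hPa]
  calc _ ≤ ‖adjoint N (V x)‖ := hVa _
    _ = ‖V (P x)‖ := by rw [hNn, hNV]
    _ = ‖P x‖ := hV _

/-- The negation of the preceding statement: For every complex Hilbert space H and commuting bounded operators S, T on H, if S and T each extend to a normal operator on a larger Hilbert space (via an isometric embedding), then so does the product ST. -/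
theorem result :
    ¬ (∀ (H : Type) [NormedAddCommGroup H] [InnerProductSpace ℂ H] [CompleteSpace H]
      (S T : H →L[ℂ] H),
      Commute S T →
      (∃ (K : Type) (_ : NormedAddCommGroup K) (_ : InnerProductSpace ℂ K) (_ : CompleteSpace K)
          (V : H →L[ℂ] K) (N : K →L[ℂ] K),
          (∀ x : H, ‖V x‖ = ‖x‖) ∧ IsStarNormal N ∧ N.comp V = V.comp S) →
      (∃ (K : Type) (_ : NormedAddCommGroup K) (_ : InnerProductSpace ℂ K) (_ : CompleteSpace K)
          (V : H →L[ℂ] K) (N : K →L[ℂ] K),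
          (∀ x : H, ‖V x‖ = ‖x‖) ∧ IsStarNormal N ∧ N.comp V = V.comp T) →
      (∃ (K : Type) (_ : NormedAddCommGroup K) (_ : InnerProductSpace ℂ K) (_ : CompleteSpace K)
          (V : H →L[ℂ] K) (N : K →L[ℂ] K),
          (∀ x : H, ‖V x‖ = ‖x‖) ∧ IsStarNormal N ∧ N.comp V = V.comp (S * T))) := by
  intro hall
  have hcomm : Commute (adjoint BS) (adjoint BT) := by
    show (adjoint BS).comp (adjoint BT) = (adjoint BT).comp (adjoint BS)
    rw [← adjoint_comp, ← adjoint_comp, B_comm]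
  obtain ⟨K, i1', i2', i3', V, N, hV, hN, h⟩ :=
    hall (l2 (ℕ × ℕ)) (adjoint BS) (adjoint BT) hcomm S_sub T_sub
  have key := hypo (adjoint BS * adjoint BT) V N hV hN h (lp.single 2 (1, 1) (1 : ℂ))
  have e1 : adjoint (adjoint BS * adjoint BT) = BT.comp BS := by
    show adjoint ((adjoint BS).comp (adjoint BT)) = _
    rw [adjoint_comp, adjoint_adjoint, adjoint_adjoint]
  rw [e1] at key
  have e2 : (1 / 2 : ℝ) ≤ ‖(BT.comp BS) (lp.single 2 ((1, 1) : ℕ × ℕ) (1 : ℂ))‖ := by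
    have h1 := lp.norm_apply_le_norm (p := 2) (by norm_num)
      ((BT.comp BS) (lp.single 2 ((1, 1) : ℕ × ℕ) (1 : ℂ))) (0, 0)
    have h2 : ((BT.comp BS) (lp.single 2 ((1, 1) : ℕ × ℕ) (1 : ℂ))) (0, 0) = 1 / 2 := by
      show tw (0, 0) * (sw (0, 1) * (lp.single 2 ((1, 1) : ℕ × ℕ) (1 : ℂ) : l2 (ℕ × ℕ)) (1, 1)) = _
      rw [lp.single_apply_self]
      simp [tw, sw]
    rw [h2] at h1
    norm_num at h1 ⊢
    exact h1
  have e3 : ‖(adjoint BS * adjoint BT) (lp.single 2 ((1, 1) : ℕ × ℕ) (1 : ℂ))‖ = 1 / 4 := by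
    show ‖adjoint BS (adjoint BT (lp.single 2 ((1, 1) : ℕ × ℕ) (1 : ℂ)))‖ = 1 / 4
    unfold BS BT
    rw [adj_single, map_smul, adj_single, norm_smul, norm_smul, lp.norm_single (by norm_num)]
    simp [tw, sw, tT]
    norm_num
  rw [e3] at key
  linarith

end

end Pool.Agent.S02748
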