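import Pool.Statements.S02778
import Pool.Agent.Helper6.LoewnerC

set_option autoImplicit false
open Pool Pool.MP_1fc8c4_an

namespace Pool.Agent.S02778

/-- The negation of the preceding statement: Here S^0 is the class of maps of the unit ball of C^2 with parametric representation. If f in S^0 maximizes Re L over S^0 for some continuous linear functional L not constant on S^0, then any two normal Loewner chains starting at f coincide. -/
theorem result :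
    ¬ (∀ (S0 : Set (EuclideanSpace ℂ (Fin 2) → EuclideanSpace ℂ (Fin 2)))
    (NLC : Set (EuclideanSpace ℂ (Fin 2) → ℝ → EuclideanSpace ℂ (Fin 2))),
  (∀ g, g ∈ S0 ↔ ∃ (h : EuclideanSpace ℂ (Fin 2) → ℝ → EuclideanSpace ℂ (Fin 2))
      (v : EuclideanSpace ℂ (Fin 2) → ℝ → EuclideanSpace ℂ (Fin 2)),
      (∀ t : ℝ, DifferentiableOn ℂ (fun z => h z t) (Metric.ball (0 : EuclideanSpace ℂ (Fin 2)) 1) ∧
        h 0 t = 0 ∧
        fderiv ℂ (fun z => h z t) 0 = ContinuousLinearMap.id ℂ (EuclideanSpace ℂ (Fin 2)) ∧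
        ∀ z ∈ Metric.ball (0 : EuclideanSpace ℂ (Fin 2)) 1, z ≠ 0 → 0 < (inner ℂ z (h z t)).re) ∧
      (∀ z ∈ Metric.ball (0 : EuclideanSpace ℂ (Fin 2)) 1,
        MeasureTheory.StronglyMeasurable (fun t : ℝ => h z t)) ∧
      (∀ z ∈ Metric.ball (0 : EuclideanSpace ℂ (Fin 2)) 1,
        (∀ t : ℝ, 0 ≤ t → v z t ∈ Metric.ball (0 : EuclideanSpace ℂ (Fin 2)) 1 ∧
          IntervalIntegrable (fun s => h (v z s) s) MeasureTheory.volume 0 t ∧
          v z t = z - ∫ s in (0:ℝ)..t, h (v z s) s) ∧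
        Filter.Tendsto (fun t : ℝ => ((Real.exp t : ℝ) : ℂ) • v z t) Filter.atTop (nhds (g z)))) →
  (∀ F, F ∈ NLC ↔
      (∀ t : ℝ, 0 ≤ t →
        DifferentiableOn ℂ (fun z => F z t) (Metric.ball (0 : EuclideanSpace ℂ (Fin 2)) 1) ∧
        Set.InjOn (fun z => F z t) (Metric.ball (0 : EuclideanSpace ℂ (Fin 2)) 1) ∧
        F 0 t = 0 ∧
        fderiv ℂ (fun z => F z t) 0 =
          ((Real.exp t : ℝ) : ℂ) • ContinuousLinearMap.id ℂ (EuclideanSpace ℂ (Fin 2))) ∧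
      (∀ s t : ℝ, 0 ≤ s → s ≤ t →
        (fun z => F z s) '' Metric.ball (0 : EuclideanSpace ℂ (Fin 2)) 1 ⊆
          (fun z => F z t) '' Metric.ball (0 : EuclideanSpace ℂ (Fin 2)) 1) ∧
      (∀ r : ℝ, r < 1 → ∃ M : ℝ, ∀ t : ℝ, 0 ≤ t → ∀ z : EuclideanSpace ℂ (Fin 2),
        ‖z‖ ≤ r → ‖F z t‖ ≤ M * Real.exp t)) →
  ∀ f ∈ S0,
    (∃ L : (EuclideanSpace ℂ (Fin 2) → EuclideanSpace ℂ (Fin 2)) → ℂ,
      (∀ g1 g2 : EuclideanSpace ℂ (Fin 2) → EuclideanSpace ℂ (Fin 2),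
        DifferentiableOn ℂ g1 (Metric.ball (0 : EuclideanSpace ℂ (Fin 2)) 1) →
        DifferentiableOn ℂ g2 (Metric.ball (0 : EuclideanSpace ℂ (Fin 2)) 1) →
        ∀ a b : ℂ, L (a • g1 + b • g2) = a * L g1 + b * L g2) ∧
      (∃ K : Set (EuclideanSpace ℂ (Fin 2)), K ⊆ Metric.ball (0 : EuclideanSpace ℂ (Fin 2)) 1 ∧
        IsCompact K ∧ ∃ C : ℝ, ∀ g : EuclideanSpace ℂ (Fin 2) → EuclideanSpace ℂ (Fin 2),
          DifferentiableOn ℂ g (Metric.ball (0 : EuclideanSpace ℂ (Fin 2)) 1) →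
          ∀ M : ℝ, (∀ z ∈ K, ‖g z‖ ≤ M) → ‖L g‖ ≤ C * M) ∧
      (∀ g ∈ S0, (L g).re ≤ (L f).re) ∧
      (∃ g ∈ S0, L g ≠ L f)) →
    ∀ F1 ∈ NLC, ∀ F2 ∈ NLC,
      (∀ z ∈ Metric.ball (0 : EuclideanSpace ℂ (Fin 2)) 1, F1 z 0 = f z) →
      (∀ z ∈ Metric.ball (0 : EuclideanSpace ℂ (Fin 2)) 1, F2 z 0 = f z) →
      ∀ t : ℝ, 0 ≤ t → ∀ z ∈ Metric.ball (0 : EuclideanSpace ℂ (Fin 2)) 1, F1 z t = F2 z t) := by
  intro H
  have key := H {g | LoewB2.IsS0 g} {F | LoewB2.IsNLC F} (fun g => Iff.rfl) (fun F => Iff.rfl)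
    LoewB2.ff LoewB2.ff_isS0
    ⟨fun g => g LoewB2.z0 0, ?_, ?_, ?_, ?_⟩
    (LoewB2.FF 0) (LoewB2.FF_isNLC 0 le_rfl (by norm_num))
    (LoewB2.FF (1 / 4)) (LoewB2.FF_isNLC (1 / 4) (by norm_num) le_rfl) ?_ ?_ 1 zero_le_one
    (LoewB2.mk 0 (1 / 2)) ?_
  · -- the two chains differ at time 1
    have h1 := congrArg (fun x : LoewB2.E2 => x 1) key
    simp only [LoewB2.FF, LoewB2.mk_one] at h1
    have hne : ((Real.exp 1 : ℝ) : ℂ) ≠ 0 := by exact_mod_cast (Real.exp_pos 1).ne'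
    have h2 := mul_left_cancel₀ hne h1
    have ht0 : LoewB2.tau 0 1 = 0 := by unfold LoewB2.tau; simp
    rw [ht0] at h2
    have ht1 : 0 < LoewB2.tau (1 / 4) 1 := by
      unfold LoewB2.tau
      have : Real.exp (-1) < 1 := by rw [Real.exp_lt_one_iff]; norm_num
      apply mul_pos (by norm_num); linarith
    have hden : (1 : ℂ) - ((LoewB2.tau (1 / 4) 1 : ℝ) : ℂ) * (1 / 2) ≠ 0 :=
      LoewB2.tau_ne (by norm_num) le_rfl (by norm_num) (by norm_num)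
    have h3 : (1 : ℂ) / 2 = (1 / 2) / (1 - ((LoewB2.tau (1 / 4) 1 : ℝ) : ℂ) * (1 / 2)) := by
      simpa using h2
    rw [eq_div_iff hden] at h3
    have h4 : ((LoewB2.tau (1 / 4) 1 : ℝ) : ℂ) = 0 := by linear_combination -4 * h3
    exact ht1.ne' (by exact_mod_cast h4)
  · intro g1 g2 _ _ a b
    simp
  · refine ⟨{LoewB2.z0}, ?_, isCompact_singleton, 1, ?_⟩
    · rw [Set.singleton_subset_iff, mem_ball_zero_iff, LoewB2.z0_norm]; norm_num
    · intro g _ M hM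
      rw [one_mul]
      exact (LoewB2.coord_le _ _).trans (hM _ (Set.mem_singleton _))
  · intro g hg
    have h1 : (g LoewB2.z0 0).re ≤ (LoewB2.ff LoewB2.z0 0).re := by
      rw [LoewB2.ff_val]
      simpa using LoewB2.upper g hg
    exact h1
  · refine ⟨fun z => z, LoewB2.id_isS0, ?_⟩
    have h1 : LoewB2.z0 0 ≠ LoewB2.ff LoewB2.z0 0 := by
      rw [LoewB2.ff_val]
      simp only [LoewB2.z0, LoewB2.mk_zero]
      norm_num
    exact h1
  · intro z _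
    unfold LoewB2.FF LoewB2.ff
    simp [LoewB2.tau]
  · intro z _
    unfold LoewB2.FF LoewB2.ff
    simp [LoewB2.tau]
  · rw [LoewB2.mem_ball_iff]
    simp only [LoewB2.mk_zero, LoewB2.mk_one]
    norm_num

end Pool.Agent.S02778
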