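import Pool.Statements.S02808
import Pool.Agent.Helper6.UcLevel

set_option autoImplicit false
open Pool Pool.MP_22f2dc_an

namespace Pool.Agent.S02808

/-- The negation of the preceding statement: Take nonconstant C1 weak solutions u, v of div(A grad u)=0 on a connected open set in R^n, n≥2, with A symmetric, uniformly elliptic and Lipschitz. If u vanishes on a connected smooth hypersurface S and v on a nonempty open proper piece of S, then v vanishes on all of S. -/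
theorem result :
    ¬ (∀ (n : ℕ), 2 ≤ n →
  ∀ (Ω : Set (EuclideanSpace ℝ (Fin n))), IsOpen Ω → IsConnected Ω →
  ∀ (A : EuclideanSpace ℝ (Fin n) → Matrix (Fin n) (Fin n) ℝ) (K E : ℝ), 0 < K →
    (∀ x ∈ Ω, ∀ i j, A x i j = A x j i) →
    (∀ x ∈ Ω, ∀ ξ : EuclideanSpace ℝ (Fin n),
        K⁻¹ * ‖ξ‖ ^ 2 ≤ ∑ i, ∑ j, A x i j * ξ i * ξ j ∧
        ∑ i, ∑ j, A x i j * ξ i * ξ j ≤ K * ‖ξ‖ ^ 2) →
    (∀ x ∈ Ω, ∀ y ∈ Ω, ∀ i j, |A x i j - A y i j| ≤ E * dist x y) →
  ∀ (u v : EuclideanSpace ℝ (Fin n) → ℝ),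
    ContDiffOn ℝ 1 u Ω → ContDiffOn ℝ 1 v Ω →
    (¬ ∃ c : ℝ, ∀ x ∈ Ω, u x = c) →
    (¬ ∃ c : ℝ, ∀ x ∈ Ω, v x = c) →
    (∀ φ : EuclideanSpace ℝ (Fin n) → ℝ,
        ContDiff ℝ ((⊤ : ℕ∞) : WithTop ℕ∞) φ → HasCompactSupport φ → tsupport φ ⊆ Ω →
        ∫ x, ∑ i, ∑ j, A x i j * fderiv ℝ u x (EuclideanSpace.single j 1)
            * fderiv ℝ φ x (EuclideanSpace.single i 1) = 0) →
    (∀ φ : EuclideanSpace ℝ (Fin n) → ℝ,
        ContDiff ℝ ((⊤ : ℕ∞) : WithTop ℕ∞) φ → HasCompactSupport φ → tsupport φ ⊆ Ω →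
        ∫ x, ∑ i, ∑ j, A x i j * fderiv ℝ v x (EuclideanSpace.single j 1)
            * fderiv ℝ φ x (EuclideanSpace.single i 1) = 0) →
  ∀ (S Sig : Set (EuclideanSpace ℝ (Fin n))),
    S ⊆ Ω → IsConnected S →
    (∀ p ∈ S, ∃ (U : Set (EuclideanSpace ℝ (Fin n))) (f : EuclideanSpace ℝ (Fin n) → ℝ),
        IsOpen U ∧ p ∈ U ∧ ContDiff ℝ ((⊤ : ℕ∞) : WithTop ℕ∞) f ∧
        (∀ x ∈ U, fderiv ℝ f x ≠ 0) ∧ S ∩ U = {x | x ∈ U ∧ f x = 0}) →
    Sig ⊆ S → Sig.Nonempty → Sig ≠ S →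
    (∃ O : Set (EuclideanSpace ℝ (Fin n)), IsOpen O ∧ Sig = S ∩ O) →
    (∀ x ∈ S, u x = 0) →
    (∀ x ∈ Sig, v x = 0) →
    ∀ x ∈ S, v x = 0) := by
  intro H
  have hball : ∀ z : UcLevel.E2, z ∈ UcLevel.Om ↔ ‖z‖ < 1 / 4 := by
    intro z; simp [UcLevel.Om]
  have hu : ∀ z : UcLevel.E2, HasFDerivAt (fun z : UcLevel.E2 => z 1) (UcLevel.pr 1) z :=
    fun z => UcLevel.coord_hasFDerivAt 1 z
  have hmk : ∀ a : ℝ, |a| < 1 / 4 → (EuclideanSpace.single 0 a : UcLevel.E2) ∈ UcLevel.Om := by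
    intro a ha
    rw [hball]; simpa using ha
  have hP0 : ∀ (k : ℕ) (z : UcLevel.E2), z 0 ≤ 0 → UcLevel.P (k + 1) z = 0 := by
    intro k z hz
    unfold UcLevel.P UcLevel.pp
    rw [max_eq_right hz]; simp
  have key := H 2 le_rfl UcLevel.Om Metric.isOpen_ball
    ((convex_ball (0 : UcLevel.E2) (1 / 4)).isConnected ⟨0, by simp⟩)
    UcLevel.A 2 4 (by norm_num) ?_ ?_ ?_ (fun z => z 1) UcLevel.v ?_ ?_ ?_ ?_ ?_ ?_
    {z | z ∈ UcLevel.Om ∧ z 1 = 0} {z | z ∈ UcLevel.Om ∧ z 1 = 0 ∧ z 0 < 0}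
    ?_ ?_ ?_ ?_ ?_ ?_ ?_ ?_ ?_ (EuclideanSpace.single 0 (1 / 8)) ?_
  · -- contradiction
    unfold UcLevel.v UcLevel.P UcLevel.pp at key
    simp at key
    norm_num at key
  · -- symmetric
    intro x _ i j
    fin_cases i <;> fin_cases j <;> simp [UcLevel.A]
  · -- elliptic
    intro x hx ξ
    obtain ⟨h1, h2⟩ := UcLevel.mm_bd hx
    have hn : ‖ξ‖ ^ 2 = ξ 0 ^ 2 + ξ 1 ^ 2 := by
      rw [EuclideanSpace.norm_sq_eq, Fin.sum_univ_two]; simp
    have hs : ∑ i, ∑ j, UcLevel.A x i j * ξ i * ξ j = UcLevel.mm x * ξ 0 ^ 2 + ξ 1 ^ 2 := by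
      simp [UcLevel.A, Fin.sum_univ_two]; ring
    rw [hn, hs]
    have a0 := sq_nonneg (ξ 0)
    have a1 := sq_nonneg (ξ 1)
    constructor <;> nlinarith
  · -- Lipschitz
    intro x hx y hy i j
    have hd : 0 ≤ dist x y := dist_nonneg
    fin_cases i <;> fin_cases j
    · simpa [UcLevel.A] using UcLevel.mm_lip hx hy
    · simp [UcLevel.A]
    · simp [UcLevel.A]
    · simp [UcLevel.A]
  · exact ((UcLevel.pr 1).contDiff).contDiffOn
  · exact UcLevel.v_contDiff.contDiffOn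
  · -- u nonconstant
    rintro ⟨c, hc⟩
    have h1 := hc (EuclideanSpace.single 1 (1 / 8)) (by rw [hball]; simp; norm_num)
    have h2 := hc 0 (by rw [hball]; simp)
    simp at h1 h2
    linarith
  · -- v nonconstant
    rintro ⟨c, hc⟩
    have h1 := hc (EuclideanSpace.single 0 (1 / 8)) (hmk _ (by norm_num [abs_of_pos]))
    have h2 := hc 0 (by rw [hball]; simp)
    unfold UcLevel.v UcLevel.P UcLevel.pp at h1 h2
    simp at h1 h2
    rw [← h2] at h1
    norm_num at h1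
  · -- equation for u
    intro φ hφ hcs _
    have hfu : ∀ x : UcLevel.E2, fderiv ℝ (fun z : UcLevel.E2 => z 1) x = UcLevel.pr 1 :=
      fun x => (hu x).fderiv
    have e : (fun x : UcLevel.E2 => ∑ i, ∑ j, UcLevel.A x i j
        * fderiv ℝ (fun z : UcLevel.E2 => z 1) x (EuclideanSpace.single j 1)
        * fderiv ℝ φ x (EuclideanSpace.single i 1))
        = fun x => (fun _ : UcLevel.E2 => (1 : ℝ)) x * fderiv ℝ φ x (EuclideanSpace.single 1 1) := by
      funext x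
      rw [hfu x]
      simp [UcLevel.A, Fin.sum_univ_two, UcLevel.pr_single]
    have h := (UcLevel.parts (fun _ => 1) (fun z => differentiableAt_const _) continuous_const
      (EuclideanSpace.single 1 1) (by simp; exact continuous_const) φ hφ hcs).2
    rw [e, h]
    simp
  · -- equation for v
    intro φ hφ hcs hts
    have hfv : ∀ x : UcLevel.E2, fderiv ℝ UcLevel.v x
        = UcLevel.vx x • UcLevel.pr 0 + UcLevel.G1 x • UcLevel.pr 1 :=
      fun x => (UcLevel.v_hasFDerivAt x).fderiv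
    have e : (fun x : UcLevel.E2 => ∑ i, ∑ j, UcLevel.A x i j
        * fderiv ℝ UcLevel.v x (EuclideanSpace.single j 1)
        * fderiv ℝ φ x (EuclideanSpace.single i 1))
        = fun x => UcLevel.G0 x * fderiv ℝ φ x (EuclideanSpace.single 0 1)
          + UcLevel.G1 x * fderiv ℝ φ x (EuclideanSpace.single 1 1) := by
      funext x
      rw [hfv x]
      by_cases hx : x ∈ tsupport φ
      · have hxO := hts hx
        rw [← UcLevel.mm_mul_vx hxO]
        simp [UcLevel.A, Fin.sum_univ_two, UcLevel.pr_single]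
      · have h0 : fderiv ℝ φ x = 0 := by
          have h1 : x ∉ tsupport (fderiv ℝ φ) := fun h => hx (tsupport_fderiv_subset ℝ h)
          exact image_eq_zero_of_notMem_tsupport h1
        rw [h0]
        simp
    have hG0 : ∀ z, fderiv ℝ UcLevel.G0 z = UcLevel.pr 1 + (3 * UcLevel.P 2 z) • UcLevel.pr 0 :=
      fun z => (UcLevel.G0_hasFDerivAt z).fderiv
    have hG1 : ∀ z, fderiv ℝ UcLevel.G1 z
        = (1 - 6 * UcLevel.P 1 z * z 1 - 6 * UcLevel.P 4 z) • UcLevel.pr 0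
          + (-(3 * UcLevel.P 2 z)) • UcLevel.pr 1 := fun z => (UcLevel.G1_hasFDerivAt z).fderiv
    have f0 : ∀ z, fderiv ℝ UcLevel.G0 z (EuclideanSpace.single 0 1) = 3 * UcLevel.P 2 z := by
      intro z; rw [hG0]; simp [UcLevel.pr_single]
    have f1 : ∀ z, fderiv ℝ UcLevel.G1 z (EuclideanSpace.single 1 1) = -(3 * UcLevel.P 2 z) := by
      intro z; rw [hG1]; simp [UcLevel.pr_single]
    have p0 := UcLevel.parts UcLevel.G0 (fun z => (UcLevel.G0_hasFDerivAt z).differentiableAt)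
      UcLevel.G0_cont (EuclideanSpace.single 0 1)
      (by simp_rw [f0]; exact continuous_const.mul (UcLevel.P_cont 2)) φ hφ hcs
    have p1 := UcLevel.parts UcLevel.G1 (fun z => (UcLevel.G1_hasFDerivAt z).differentiableAt)
      UcLevel.G1_cont (EuclideanSpace.single 1 1)
      (by simp_rw [f1]; exact (continuous_const.mul (UcLevel.P_cont 2)).neg) φ hφ hcs
    rw [e, MeasureTheory.integral_add p0.1 p1.1, p0.2, p1.2]
    simp_rw [f0, f1]
    simp only [neg_mul, MeasureTheory.integral_neg, neg_neg]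
    ring
  · intro z hz; exact hz.1
  · -- S connected
    have hc : Convex ℝ {z : UcLevel.E2 | z ∈ UcLevel.Om ∧ z 1 = 0} := by
      have h1 : Convex ℝ UcLevel.Om := convex_ball _ _
      have h2 : Convex ℝ {z : UcLevel.E2 | z 1 = 0} := by
        intro x hx y hy a b _ _ _
        simp only [Set.mem_ofPred_eq] at hx hy ⊢
        simp [hx, hy]
      exact h1.inter h2
    exact hc.isConnected ⟨0, by rw [hball]; simp, by simp⟩
  · -- smooth hypersurface
    intro p hp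
    refine ⟨UcLevel.Om, fun z => z 1, Metric.isOpen_ball, hp.1, (UcLevel.pr 1).contDiff, ?_, ?_⟩
    · intro x _ h0
      have h1 : fderiv ℝ (fun z : UcLevel.E2 => z 1) x = UcLevel.pr 1 := (hu x).fderiv
      rw [h1] at h0
      have h2 := congrArg (fun L : UcLevel.E2 →L[ℝ] ℝ => L (EuclideanSpace.single 1 1)) h0
      simp [UcLevel.pr_single] at h2
    · ext z
      simp only [Set.mem_inter_iff, Set.mem_ofPred_eq]
      tauto
  · intro z hz; exact ⟨hz.1, hz.2.1⟩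
  · exact ⟨EuclideanSpace.single 0 (-1 / 8), hmk _ (by norm_num [abs_of_neg]), by simp,
      by simp; norm_num⟩
  · intro hEq
    have h0 : (0 : UcLevel.E2) ∈ {z : UcLevel.E2 | z ∈ UcLevel.Om ∧ z 1 = 0} :=
      ⟨by rw [hball]; simp, by simp⟩
    rw [← hEq] at h0
    have := h0.2.2
    simp at this
  · refine ⟨{z | z 0 < 0}, ?_, ?_⟩
    · exact isOpen_lt (UcLevel.pr 0).continuous continuous_const
    · ext z
      simp only [Set.mem_inter_iff, Set.mem_ofPred_eq]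
      tauto
  · intro z hz; exact hz.2
  · intro z hz
    have h1 : z 1 = 0 := hz.2.1
    have h0 : z 0 ≤ 0 := le_of_lt hz.2.2
    unfold UcLevel.v
    rw [h1, hP0 3 z h0, hP0 7 z h0]
    simp
  · exact ⟨hmk _ (by norm_num [abs_of_pos]), by simp⟩

end Pool.Agent.S02808
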