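import Pool.Statements.S02850
-- import your own Pool.Agent.* helpers here

set_option autoImplicit false
open Pool Pool.MP_275f89_an

namespace Pool.Agent.S02850


noncomputable def E0 : ℝ → ℝ := fun x : ℝ => if 0 < x then (1 : ℝ) else 0
noncomputable def HH : ℝ → ℝ := fun x : ℝ => if 0 < x then (1 / 2 : ℝ) else 0
noncomputable def FF : ℝ → ℝ := fun x : ℝ => if 5 < x then 1 else if 0 < x then (1 / 2 : ℝ) else 0
def DD : Set (ℝ → ℝ) := {F : ℝ → ℝ | Monotone F ∧ (∀ x, 0 ≤ F x ∧ F x ≤ 1) ∧ (∀ x : ℝ, x ≤ 0 → F x = 0) ∧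
            ∀ x : ℝ, ContinuousWithinAt F (Set.Iio x) x}

lemma step_cont (c v : ℝ) (F : ℝ → ℝ) (x : ℝ) (hc : c < x) (hx : F x = v)
    (h : ∀ y, c < y → y < x → F y = v) : ContinuousWithinAt F (Set.Iio x) x := by
  apply ContinuousWithinAt.congr_of_eventuallyEq (f := fun _ => v) continuousWithinAt_const _ hx
  have h1 : ∀ᶠ y in nhdsWithin x (Set.Iio x), c < y := nhdsWithin_le_nhds (lt_mem_nhds hc)
  filter_upwards [h1, self_mem_nhdsWithin] with y h2 h3
  exact h y h2 h3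

lemma E0_mem : E0 ∈ DD := by
  refine ⟨?_, ?_, ?_, ?_⟩
  · intro x y hxy
    unfold E0
    split_ifs <;> linarith
  · intro x
    unfold E0
    split_ifs <;> norm_num
  · intro x hx
    unfold E0
    rw [if_neg (not_lt.mpr hx)]
  · intro x
    rcases le_or_gt x 0 with h | h
    · apply step_cont (x - 1) 0 E0 x (by linarith)
      · unfold E0; rw [if_neg (not_lt.mpr h)]
      · intro y _ hy
        unfold E0; rw [if_neg (by linarith)]
    · apply step_cont 0 1 E0 x h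
      · unfold E0; rw [if_pos h]
      · intro y hy _
        unfold E0; rw [if_pos hy]

lemma HH_mem : HH ∈ DD := by
  refine ⟨?_, ?_, ?_, ?_⟩
  · intro x y hxy
    unfold HH
    split_ifs <;> linarith
  · intro x
    unfold HH
    split_ifs <;> norm_num
  · intro x hx
    unfold HH
    rw [if_neg (not_lt.mpr hx)]
  · intro x
    rcases le_or_gt x 0 with h | h
    · apply step_cont (x - 1) 0 HH x (by linarith)
      · unfold HH; rw [if_neg (not_lt.mpr h)]
      · intro y _ hy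
        unfold HH; rw [if_neg (by linarith)]
    · apply step_cont 0 (1 / 2) HH x h
      · unfold HH; rw [if_pos h]
      · intro y hy _
        unfold HH; rw [if_pos hy]

lemma FF_mem : FF ∈ DD := by
  refine ⟨?_, ?_, ?_, ?_⟩
  · intro x y hxy
    unfold FF
    split_ifs <;> linarith
  · intro x
    unfold FF
    split_ifs <;> norm_num
  · intro x hx
    unfold FF
    rw [if_neg (by linarith), if_neg (not_lt.mpr hx)]
  · intro x
    rcases le_or_gt x 0 with h | h
    · apply step_cont (x - 1) 0 FF x (by linarith)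
      · unfold FF; rw [if_neg (by linarith), if_neg (not_lt.mpr h)]
      · intro y _ hy
        unfold FF; rw [if_neg (by linarith), if_neg (by linarith)]
    · rcases le_or_gt x 5 with h5 | h5
      · apply step_cont 0 (1 / 2) FF x h
        · unfold FF; rw [if_neg (by linarith), if_pos h]
        · intro y hy hyx
          unfold FF; rw [if_neg (by linarith), if_pos hy]
      · apply step_cont 5 1 FF x h5
        · unfold FF; rw [if_pos h5]
        · intro y hy _
          unfold FF; rw [if_pos hy]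

lemma zero_mem : (fun _ : ℝ => (0 : ℝ)) ∈ DD :=
  ⟨fun _ _ _ => le_rfl, fun _ => ⟨le_rfl, zero_le_one⟩, fun _ _ => rfl,
    fun _ => continuousWithinAt_const⟩

/-- the upper set -/
def UU (F : ℝ → ℝ) : Prop := HH ≤ F ∧ 3 / 4 ≤ F 10

open Classical in
noncomputable def tau (F G : ℝ → ℝ) : ℝ → ℝ :=
  if F = E0 then G else if G = E0 then F else if UU F ∧ UU G then HH else fun _ => 0

lemma HH_ne : HH ≠ E0 := by
  intro h
  have := congrFun h 1
  unfold HH E0 at this
  norm_num at this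

lemma FF_ne : FF ≠ E0 := by
  intro h
  have := congrFun h 1
  unfold FF E0 at this
  norm_num at this

lemma zero_ne : (fun _ : ℝ => (0 : ℝ)) ≠ E0 := by
  intro h
  have := congrFun h 1
  unfold E0 at this
  norm_num at this

lemma HH_notU : ¬ UU HH := by
  intro h
  have := h.2
  unfold HH at this
  norm_num at this

lemma zero_notU : ¬ UU (fun _ : ℝ => (0 : ℝ)) := by
  intro h
  have := h.2
  norm_num at this

lemma tau_E0_left (G : ℝ → ℝ) : tau E0 G = G := by
  unfold tau; rw [if_pos rfl]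

lemma tau_E0_right (F : ℝ → ℝ) : tau F E0 = F := by
  unfold tau
  by_cases h : F = E0
  · rw [if_pos h]; exact h.symm
  · rw [if_neg h, if_pos rfl]

lemma tau_ne {F G : ℝ → ℝ} (hF : F ≠ E0) (hG : G ≠ E0) :
    tau F G = HH ∨ tau F G = fun _ => 0 := by
  unfold tau
  rw [if_neg hF, if_neg hG]
  split_ifs
  · exact Or.inl rfl
  · exact Or.inr rfl

lemma tau_pos {F G : ℝ → ℝ} (hF : F ≠ E0) (hG : G ≠ E0) (h : UU F ∧ UU G) : tau F G = HH := by
  unfold tau
  rw [if_neg hF, if_neg hG, if_pos h]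

lemma tau_neg {F G : ℝ → ℝ} (hF : F ≠ E0) (hG : G ≠ E0) (h : ¬ (UU F ∧ UU G)) :
    tau F G = fun _ => 0 := by
  unfold tau
  rw [if_neg hF, if_neg hG, if_neg h]

lemma tau_mem {F G : ℝ → ℝ} (hF : F ∈ DD) (hG : G ∈ DD) : tau F G ∈ DD := by
  unfold tau
  split_ifs
  · exact hG
  · exact hF
  · exact HH_mem
  · exact zero_mem

lemma tau_comm (F G : ℝ → ℝ) : tau F G = tau G F := by
  by_cases hF : F = E0
  · rw [hF, tau_E0_left, tau_E0_right]
  · by_cases hG : G = E0
    · rw [hG, tau_E0_left, tau_E0_right]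
    · by_cases h : UU F ∧ UU G
      · rw [tau_pos hF hG h, tau_pos hG hF h.symm]
      · rw [tau_neg hF hG h, tau_neg hG hF fun h' => h h'.symm]

lemma tau_assoc (F G K : ℝ → ℝ) : tau (tau F G) K = tau F (tau G K) := by
  by_cases hF : F = E0
  · rw [hF, tau_E0_left, tau_E0_left]
  by_cases hG : G = E0
  · rw [hG, tau_E0_left, tau_E0_right]
  by_cases hK : K = E0
  · rw [hK, tau_E0_right, tau_E0_right]
  have h1 : tau (tau F G) K = fun _ => 0 := by
    rcases tau_ne hF hG with h | h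
    · rw [h]; exact tau_neg HH_ne hK fun h' => HH_notU h'.1
    · rw [h]; exact tau_neg zero_ne hK fun h' => zero_notU h'.1
  have h2 : tau F (tau G K) = fun _ => 0 := by
    rcases tau_ne hG hK with h | h
    · rw [h]; exact tau_neg hF HH_ne fun h' => HH_notU h'.2
    · rw [h]; exact tau_neg hF zero_ne fun h' => zero_notU h'.2
  rw [h1, h2]

lemma zero_le_mem {F : ℝ → ℝ} (hF : F ∈ DD) : (fun _ : ℝ => (0 : ℝ)) ≤ F := fun x => (hF.2.1 x).1

lemma eq_E0 {F : ℝ → ℝ} (hF : F ∈ DD) (h : E0 ≤ F) : F = E0 := by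
  funext x
  rcases le_or_gt x 0 with hx | hx
  · rw [hF.2.2.1 x hx]
    unfold E0; rw [if_neg (not_lt.mpr hx)]
  · have h1 := h x
    have h2 := (hF.2.1 x).2
    have e : E0 x = 1 := by unfold E0; rw [if_pos hx]
    rw [e] at h1 ⊢
    linarith

lemma tau_mono {F₁ F₂ G : ℝ → ℝ} (h1 : F₁ ∈ DD) (h2 : F₂ ∈ DD) (hG : G ∈ DD) (h : F₁ ≤ F₂) :
    tau F₁ G ≤ tau F₂ G := by
  by_cases hF1 : F₁ = E0
  · rw [hF1] at h ⊢
    rw [eq_E0 h2 h]
  by_cases hGE : G = E0
  · rw [hGE, tau_E0_right, tau_E0_right]; exact h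
  by_cases hU : UU F₁ ∧ UU G
  · rw [tau_pos hF1 hGE hU]
    by_cases hF2 : F₂ = E0
    · rw [hF2, tau_E0_left]; exact hU.2.1
    · have : UU F₂ := ⟨hU.1.1.trans h, hU.1.2.trans (h 10)⟩
      rw [tau_pos hF2 hGE ⟨this, hU.2⟩]
  · rw [tau_neg hF1 hGE hU]
    exact zero_le_mem (tau_mem h2 hG)

lemma FF_U : UU FF := by
  constructor
  · intro x
    unfold HH FF
    split_ifs <;> linarith
  · unfold FF; norm_num

/-- The negation of the preceding statement: Every commutative, associative, monotone operation on distance distribution functions with identity ε₀ is causal: if F₁≤F₂ and G₁≤G₂ on (−∞,a] with a>0, then τ(F₁,G₁)≤τ(F₂,G₂) on (−∞,a]. -/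
theorem result :
    ¬ (∀ D : Set (ℝ → ℝ),
      D = {F : ℝ → ℝ | Monotone F ∧ (∀ x, 0 ≤ F x ∧ F x ≤ 1) ∧ (∀ x : ℝ, x ≤ 0 → F x = 0) ∧
            ∀ x : ℝ, ContinuousWithinAt F (Set.Iio x) x} →
      ∀ τ : (ℝ → ℝ) → (ℝ → ℝ) → (ℝ → ℝ),
        (∀ F ∈ D, ∀ G ∈ D, τ F G ∈ D) →
        (∀ F ∈ D, ∀ G ∈ D, τ F G = τ G F) →
        (∀ F ∈ D, ∀ G ∈ D, ∀ H ∈ D, τ (τ F G) H = τ F (τ G H)) →
        (∀ F ∈ D, τ F (fun x : ℝ => if 0 < x then (1 : ℝ) else 0) = F) →
        (∀ F₁ ∈ D, ∀ F₂ ∈ D, ∀ G ∈ D, F₁ ≤ F₂ → τ F₁ G ≤ τ F₂ G) →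
        ∀ a : ℝ, 0 < a →
          ∀ F₁ ∈ D, ∀ F₂ ∈ D, ∀ G₁ ∈ D, ∀ G₂ ∈ D,
            (∀ x : ℝ, x ≤ a → F₁ x ≤ F₂ x) →
            (∀ x : ℝ, x ≤ a → G₁ x ≤ G₂ x) →
            ∀ x : ℝ, x ≤ a → τ F₁ G₁ x ≤ τ F₂ G₂ x) := by
  intro hall
  have h := hall DD rfl tau (fun F hF G hG => tau_mem hF hG) (fun F _ G _ => tau_comm F G)
    (fun F _ G _ H _ => tau_assoc F G H) (fun F _ => tau_E0_right F)
    (fun F₁ h1 F₂ h2 G hG h => tau_mono h1 h2 hG h) 1 one_pos FF FF_mem HH HH_mem FF FF_mem HH HH_mem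
    (by
      intro x hx
      unfold FF HH
      rw [if_neg (by linarith)])
    (by
      intro x hx
      unfold FF HH
      rw [if_neg (by linarith)]) 1 le_rfl
  rw [tau_pos FF_ne FF_ne ⟨FF_U, FF_U⟩, tau_neg HH_ne HH_ne fun h' => HH_notU h'.1] at h
  unfold HH at h
  norm_num at h


end Pool.Agent.S02850
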