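import Pool.Statements.S02874
-- import your own Pool.Agent.* helpers here

set_option autoImplicit false
open Pool Pool.MP_299699_an

namespace Pool.Agent.S02874


open Metric Set Filter Topology

section
variable {H : Type} [NormedAddCommGroup H] [InnerProductSpace ℝ H] [CompleteSpace H]

lemma refl_prod : Function.Surjective (NormedSpace.inclusionInDoubleDual ℝ (H × ℝ)) := by
  intro Φ
  -- the functional w ↦ Φ(⟨w, fst ·⟩)
  let A : H →L[ℝ] StrongDual ℝ (H × ℝ) :=
    LinearMap.mkContinuous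
      { toFun := fun w => (InnerProductSpace.toDual ℝ H w).comp (ContinuousLinearMap.fst ℝ H ℝ)
        map_add' := fun w w' => by
          ext x <;> simp
        map_smul' := fun t w => by
          ext x <;> simp } 1 (by
        intro w
        rw [one_mul]
        change ‖(InnerProductSpace.toDual ℝ H w).comp (ContinuousLinearMap.fst ℝ H ℝ)‖ ≤ ‖w‖
        refine (ContinuousLinearMap.opNorm_comp_le _ _).trans ?_
        rw [LinearIsometryEquiv.norm_map]
        calc ‖w‖ * ‖ContinuousLinearMap.fst ℝ H ℝ‖ ≤ ‖w‖ * 1 := by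
              gcongr
              exact ContinuousLinearMap.norm_fst_le ℝ H ℝ
          _ = ‖w‖ := mul_one _)
  let ψ : StrongDual ℝ H := Φ.comp A
  set h0 := (InnerProductSpace.toDual ℝ H).symm ψ with hh0
  set c : ℝ := Φ (ContinuousLinearMap.snd ℝ H ℝ) with hc
  refine ⟨(h0, c), ?_⟩
  ext F
  rw [NormedSpace.dual_def]
  -- decompose F
  set G : StrongDual ℝ H := F.comp (ContinuousLinearMap.inl ℝ H ℝ) with hG
  set w := (InnerProductSpace.toDual ℝ H).symm G with hw
  have hFdec : F = A w + (F (0, 1)) • ContinuousLinearMap.snd ℝ H ℝ := by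
    ext x
    · have h1 : (A w) (x, 0) = G x := by
        change (InnerProductSpace.toDual ℝ H w) x = G x
        rw [hw, LinearIsometryEquiv.apply_symm_apply]
      simp [h1, hG]
    · have h1 : (A w) (0, 1) = 0 := by
        change (InnerProductSpace.toDual ℝ H w) 0 = 0
        simp
      simp [h1]
  have h2 : Φ F = Φ (A w) + F (0, 1) * c := by
    conv_lhs => rw [hFdec]
    rw [map_add, map_smul, smul_eq_mul]
  rw [h2]
  have h3 : Φ (A w) = inner ℝ h0 w := by
    change ψ w = inner ℝ h0 w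
    rw [hh0, ← InnerProductSpace.toDual_symm_apply]
  have h4 : F (h0, c) = G h0 + c * F (0, 1) := by
    have : ((h0, c) : H × ℝ) = (h0, 0) + c • ((0, 1) : H × ℝ) := by ext <;> simp
    rw [this, map_add, map_smul, smul_eq_mul]
    rfl
  have h5 : G h0 = inner ℝ w h0 := by
    rw [hw, ← InnerProductSpace.toDual_symm_apply]
  rw [h3, h4, h5, real_inner_comm]
  ring

def CC : Set (H × ℝ) := {x | ‖x.1‖ ≤ 1 ∧ x.2 = 0}

lemma CC_closed : IsClosed (CC : Set (H × ℝ)) := by
  apply IsClosed.and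
  · exact isClosed_le (by fun_prop) continuous_const
  · exact isClosed_eq (by fun_prop) continuous_const

lemma CC_convex : Convex ℝ (CC : Set (H × ℝ)) := by
  intro x hx y hy a b ha hb hab
  refine ⟨?_, ?_⟩
  · have h1 : (a • x + b • y).1 = a • x.1 + b • y.1 := rfl
    rw [h1]
    calc ‖a • x.1 + b • y.1‖ ≤ ‖a • x.1‖ + ‖b • y.1‖ := norm_add_le _ _
      _ = a * ‖x.1‖ + b * ‖y.1‖ := by
          rw [norm_smul, norm_smul, Real.norm_of_nonneg ha, Real.norm_of_nonneg hb]
      _ ≤ a * 1 + b * 1 := by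
          gcongr
          · exact hx.1
          · exact hy.1
      _ = 1 := by linarith
  · have h1 : (a • x + b • y).2 = a * x.2 + b * y.2 := rfl
    rw [h1, hx.2, hy.2]; ring

lemma CC_weak : IsCompact ((toWeakSpace ℝ (H × ℝ)) '' (CC : Set (H × ℝ))) := by
  let B : Set (WeakDual ℝ H) := WeakDual.toStrongDual ⁻¹' closedBall 0 1
  have hB : IsCompact B := WeakDual.isCompact_closedBall (0 : StrongDual ℝ H) 1
  let Ψ : WeakDual ℝ H → WeakSpace ℝ (H × ℝ) := fun φ =>
    toWeakSpace ℝ (H × ℝ) ((InnerProductSpace.toDual ℝ H).symm (WeakDual.toStrongDual φ), 0)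
  have hΨ : Continuous Ψ := by
    apply WeakBilin.continuous_of_continuous_eval
    intro F
    let G : StrongDual ℝ H := F.comp (ContinuousLinearMap.inl ℝ H ℝ)
    have e : (fun φ : WeakDual ℝ H => (topDualPairing ℝ (H × ℝ)).flip (Ψ φ) F)
        = fun φ : WeakDual ℝ H => φ ((InnerProductSpace.toDual ℝ H).symm G) := by
      funext φ
      change G ((InnerProductSpace.toDual ℝ H).symm (WeakDual.toStrongDual φ))
        = (WeakDual.toStrongDual φ) ((InnerProductSpace.toDual ℝ H).symm G)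
      rw [← InnerProductSpace.toDual_symm_apply, real_inner_comm,
        InnerProductSpace.toDual_symm_apply]
    rw [e]
    exact WeakDual.eval_continuous _
  have himg : (toWeakSpace ℝ (H × ℝ)) '' (CC : Set (H × ℝ)) = Ψ '' B := by
    ext z
    constructor
    · rintro ⟨x, hx, rfl⟩
      refine ⟨StrongDual.toWeakDual (InnerProductSpace.toDual ℝ H x.1), ?_, ?_⟩
      · change (InnerProductSpace.toDual ℝ H x.1) ∈ closedBall 0 1
        rw [mem_closedBall_zero_iff, LinearIsometryEquiv.norm_map]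
        exact hx.1
      · change toWeakSpace ℝ (H × ℝ) ((InnerProductSpace.toDual ℝ H).symm
          (InnerProductSpace.toDual ℝ H x.1), 0) = toWeakSpace ℝ (H × ℝ) x
        rw [LinearIsometryEquiv.symm_apply_apply]
        congr 1
        ext
        · rfl
        · exact hx.2.symm
    · rintro ⟨φ, hφ, rfl⟩
      refine ⟨((InnerProductSpace.toDual ℝ H).symm (WeakDual.toStrongDual φ), 0), ⟨?_, rfl⟩, rfl⟩
      change ‖(InnerProductSpace.toDual ℝ H).symm (WeakDual.toStrongDual φ)‖ ≤ 1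
      rw [LinearIsometryEquiv.norm_map]
      have : WeakDual.toStrongDual φ ∈ closedBall (0 : StrongDual ℝ H) 1 := hφ
      rwa [mem_closedBall_zero_iff] at this
  rw [himg]
  exact hB.image hΨ

omit [CompleteSpace H] in
lemma dist_CC {x y : H × ℝ} (hx : x ∈ (CC : Set (H × ℝ))) (hy : y ∈ (CC : Set (H × ℝ))) :
    dist x y = ‖x.1 - y.1‖ := by
  rw [Prod.dist_eq, hx.2, hy.2, dist_self, max_eq_left dist_nonneg, dist_eq_norm]

omit [CompleteSpace H] in
lemma CC_bounded : Bornology.IsBounded (CC : Set (H × ℝ)) := by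
  apply (isBounded_closedBall (x := (0 : H × ℝ)) (r := 1)).subset
  intro x hx
  rw [mem_closedBall_zero_iff, Prod.norm_def, hx.2, norm_zero, max_eq_left (norm_nonneg _)]
  exact hx.1

omit [CompleteSpace H] in
lemma CC_normal (K : Set (H × ℝ)) (hK : K ⊆ CC) (hconv : Convex ℝ K)
    (hne : ∃ a ∈ K, ∃ b ∈ K, a ≠ b) :
    ∃ x ∈ K, ∃ r : ℝ, r < Metric.diam K ∧ ∀ y ∈ K, dist x y ≤ r := by
  obtain ⟨a, ha, b, hb, hab⟩ := hne
  have hKb : Bornology.IsBounded K := CC_bounded.subset hK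
  set D := Metric.diam K with hD
  have hdab : 0 < dist a b := dist_pos.mpr hab
  have hD1 : dist a b ≤ D := Metric.dist_le_diam_of_mem hKb ha hb
  have hD0 : 0 < D := hdab.trans_le hD1
  set m : H × ℝ := (1 / 2 : ℝ) • a + (1 / 2 : ℝ) • b with hm
  have hmK : m ∈ K := hconv ha hb (by norm_num) (by norm_num) (by norm_num)
  refine ⟨m, hmK, √(D ^ 2 - dist a b ^ 2 / 4), ?_, ?_⟩
  · rw [Real.sqrt_lt' hD0]
    have : 0 < dist a b ^ 2 := by positivity
    linarith
  · intro y hy
    apply Real.le_sqrt_of_sq_le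
    have h1 : dist m y = ‖m.1 - y.1‖ := dist_CC (hK hmK) (hK hy)
    have h2 : dist a y = ‖a.1 - y.1‖ := dist_CC (hK ha) (hK hy)
    have h3 : dist b y = ‖b.1 - y.1‖ := dist_CC (hK hb) (hK hy)
    have h4 : dist a b = ‖a.1 - b.1‖ := dist_CC (hK ha) (hK hb)
    have h5 : dist a y ≤ D := Metric.dist_le_diam_of_mem hKb ha hy
    have h6 : dist b y ≤ D := Metric.dist_le_diam_of_mem hKb hb hy
    have hpar := parallelogram_law_with_norm ℝ (a.1 - y.1) (b.1 - y.1)
    have e1 : (a.1 - y.1) + (b.1 - y.1) = (2 : ℝ) • (m.1 - y.1) := by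
      have : m.1 = (1 / 2 : ℝ) • a.1 + (1 / 2 : ℝ) • b.1 := rfl
      rw [this]; module
    have e2 : (a.1 - y.1) - (b.1 - y.1) = a.1 - b.1 := by abel
    rw [e1, e2, norm_smul, Real.norm_of_nonneg (by norm_num : (0 : ℝ) ≤ 2)] at hpar
    rw [h1, h4]
    rw [h2] at h5
    rw [h3] at h6
    have h7 : ‖a.1 - y.1‖ ^ 2 ≤ D ^ 2 := pow_le_pow_left₀ (norm_nonneg _) h5 2
    have h8 : ‖b.1 - y.1‖ ^ 2 ≤ D ^ 2 := pow_le_pow_left₀ (norm_nonneg _) h6 2
    nlinarith

/-- the far-away discrete set -/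
def SS (e : ℕ → H) : Set H := range fun n : ℕ => (1 + 1 / ((n : ℝ) + 1)) • e n

omit [CompleteSpace H] in
lemma SS_closed {e : ℕ → H} (he : Orthonormal ℝ e) : IsClosed (SS e) := by
  apply Metric.isClosed_of_pairwise_le_dist (ε := 1) one_pos
  rintro _ ⟨n, rfl⟩ _ ⟨m, rfl⟩ hne
  have hnm : n ≠ m := by rintro rfl; exact hne rfl
  simp only
  rw [dist_eq_norm]
  have h1 : ‖(1 + 1 / ((n : ℝ) + 1)) • e n - (1 + 1 / ((m : ℝ) + 1)) • e m‖ ^ 2
      = (1 + 1 / ((n : ℝ) + 1)) ^ 2 + (1 + 1 / ((m : ℝ) + 1)) ^ 2 := by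
    rw [norm_sub_sq_real, inner_smul_left, inner_smul_right, he.2 hnm, norm_smul, norm_smul,
      he.1 n, he.1 m, Real.norm_of_nonneg (by positivity), Real.norm_of_nonneg (by positivity)]
    simp
  have h2 : (1 : ℝ) ≤ (1 + 1 / ((n : ℝ) + 1)) ^ 2 := by
    have : (0 : ℝ) < 1 / ((n : ℝ) + 1) := by positivity
    nlinarith
  have h3 : (0 : ℝ) ≤ (1 + 1 / ((m : ℝ) + 1)) ^ 2 := by positivity
  nlinarith [norm_nonneg ((1 + 1 / ((n : ℝ) + 1)) • e n - (1 + 1 / ((m : ℝ) + 1)) • e m)]

omit [CompleteSpace H] in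
lemma SS_pos {e : ℕ → H} (he : Orthonormal ℝ e) {x : H} (hx : ‖x‖ ≤ 1) :
    0 < infDist x (SS e) := by
  rw [← (SS_closed he).notMem_iff_infDist_pos (range_nonempty _)]
  rintro ⟨n, rfl⟩
  simp only at hx
  rw [norm_smul, he.1 n, mul_one, Real.norm_of_nonneg (by positivity)] at hx
  have : (0 : ℝ) < 1 / ((n : ℝ) + 1) := by positivity
  linarith

omit [CompleteSpace H] in
lemma SS_small {e : ℕ → H} (he : Orthonormal ℝ e) (n : ℕ) :
    infDist (e n) (SS e) ≤ 1 / ((n : ℝ) + 1) := by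
  have h : (1 + 1 / ((n : ℝ) + 1)) • e n ∈ SS e := ⟨n, rfl⟩
  refine (infDist_le_dist_of_mem h).trans (le_of_eq ?_)
  rw [dist_eq_norm]
  have : e n - (1 + 1 / ((n : ℝ) + 1)) • e n = (-(1 / ((n : ℝ) + 1))) • e n := by module
  rw [this, norm_smul, he.1 n, mul_one, norm_neg, Real.norm_of_nonneg (by positivity)]

end

noncomputable def bb : HilbertBasis ℕ ℝ (lp (fun _ : ℕ => ℝ) 2) :=
  ⟨LinearIsometryEquiv.refl ℝ _⟩

/-- The negation of the preceding statement: In every reflexive real Banach space, if C is closed, convex, weakly compact with normal structure and f is nonexpansive on C, then the set of values x minus f(x) for x in C is closed. -/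
theorem result :
    ¬ (∀ (X : Type) [NormedAddCommGroup X] [NormedSpace ℝ X] [CompleteSpace X],
    Function.Surjective (NormedSpace.inclusionInDoubleDual ℝ X) →
    ∀ (C : Set X), IsClosed C → Convex ℝ C → IsCompact ((toWeakSpace ℝ X) '' C) →
    (∀ K : Set X, K ⊆ C → Convex ℝ K → (∃ a ∈ K, ∃ b ∈ K, a ≠ b) →
        ∃ x ∈ K, ∃ r : ℝ, r < Metric.diam K ∧ ∀ y ∈ K, dist x y ≤ r) →
    ∀ f : X → X, (∀ x ∈ C, ∀ y ∈ C, dist (f x) (f y) ≤ dist x y) →
    IsClosed {z : X | ∃ x ∈ C, z = x - f x}) := by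
  intro hall
  let H : Type := lp (fun _ : ℕ => ℝ) 2
  let e : ℕ → H := fun n => bb n
  have he : Orthonormal ℝ e := bb.orthonormal
  let f : H × ℝ → H × ℝ := fun x => (x.1, infDist x.1 (SS e))
  have h := hall (H × ℝ) refl_prod CC CC_closed CC_convex CC_weak
    (fun K hK hc hne => CC_normal K hK hc hne) f (by
      intro x hx y hy
      rw [dist_CC hx hy, Prod.dist_eq]
      apply max_le
      · exact (dist_eq_norm _ _).le
      · have := (lipschitz_infDist_pt (SS e)).dist_le_mul x.1 y.1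
        simpa [dist_eq_norm] using this)
  -- 0 is a limit point
  have hmem : ∀ n : ℕ, ((0 : H), -infDist (e n) (SS e)) ∈ {z : H × ℝ | ∃ x ∈ CC, z = x - f x} := by
    intro n
    refine ⟨(e n, 0), ⟨(he.1 n).le, rfl⟩, ?_⟩
    ext
    · simp [f]
    · simp [f]
  have hlim : Tendsto (fun n : ℕ => ((0 : H), -infDist (e n) (SS e))) atTop (𝓝 ((0 : H), (0 : ℝ))) := by
    apply Tendsto.prodMk_nhds tendsto_const_nhds
    have h1 : Tendsto (fun n : ℕ => infDist (e n) (SS e)) atTop (𝓝 0) :=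
      squeeze_zero (fun n => infDist_nonneg) (fun n => SS_small he n)
        tendsto_one_div_add_atTop_nhds_zero_nat
    simpa using h1.neg
  obtain ⟨x, hx, hxe⟩ := h.mem_of_tendsto hlim (Eventually.of_forall hmem)
  have h2 : (0 : ℝ) = x.2 - infDist x.1 (SS e) := congrArg Prod.snd hxe
  have h3 := SS_pos he hx.1
  rw [hx.2] at h2
  linarith


end Pool.Agent.S02874
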