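import Pool.Statements.S02924
import Pool.Agent.Helper6.KKL5

set_option autoImplicit false
open Pool Pool.MP_2e654e_an

namespace Pool.Agent.S02924

/-- The negation of the preceding statement: Let f be an even entire function, real on the reals, of order 1 and infinite type, with all zeros in a horizontal strip. Then for every t>0, the function given by the sum of (-t)^n/n! times the 2n-th derivative of f has only finitely many zeros that are non-real or multiple. -/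
theorem result :
    ¬ (∀ f : ℂ → ℂ, Differentiable ℂ f →
      (∀ z : ℂ, f (-z) = f z) →
      (∀ x : ℝ, (f (x : ℂ)).im = 0) →
      (∀ ε : ℝ, 0 < ε → ∃ R : ℝ, ∀ z : ℂ, R ≤ ‖z‖ → ‖f z‖ ≤ Real.exp (‖z‖ ^ (1 + ε))) →
      (∀ A : ℝ, ∀ R : ℝ, ∃ z : ℂ, R ≤ ‖z‖ ∧ Real.exp (A * ‖z‖) < ‖f z‖) →
      (∃ Δ : ℝ, 0 < Δ ∧ ∀ z : ℂ, f z = 0 → |z.im| < Δ) →
      ∀ t : ℝ, 0 < t →
        ∀ g : ℂ → ℂ,
          (∀ z : ℂ, g z = ∑' n : ℕ, ((-(t : ℂ)) ^ n / (n.factorial : ℂ)) * iteratedDeriv (2 * n) f z) →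
          {z : ℂ | g z = 0 ∧ (z.im ≠ 0 ∨ deriv g z = 0)}.Finite) := by
  intro H
  exact Pool.Agent.Helper6.KKL.infinite_bad
    (H Pool.Agent.Helper6.KKL.f Pool.Agent.Helper6.KKL.f_diff Pool.Agent.Helper6.KKL.f_neg
      Pool.Agent.Helper6.KKL.f_real Pool.Agent.Helper6.KKL.f_order Pool.Agent.Helper6.KKL.f_type
      Pool.Agent.Helper6.KKL.f_strip 1 one_pos Pool.Agent.Helper6.KKL.g (fun z => rfl))
end Pool.Agent.S02924
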