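import Pool.Statements.S02940
import Pool.Agent.Helper6.Lens3

set_option autoImplicit false
open Pool Pool.MP_308aa3_an

namespace Pool.Agent.S02940

/-- The negation of the preceding statement: If F, G are holomorphic and univalent on ∣z∣>1, each with F(z)−z having a finite limit at ∞, and each maps ∣z∣>1 onto the complement of a convex set, then so does tF+(1−t)G for every 0<t<1. -/
theorem result :
    ¬ (∀ F G : ℂ → ℂ,
      DifferentiableOn ℂ F {z : ℂ | 1 < ‖z‖} →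
      Set.InjOn F {z : ℂ | 1 < ‖z‖} →
      (∃ c : ℂ, Filter.Tendsto (fun z => F z - z) (Filter.cocompact ℂ) (nhds c)) →
      DifferentiableOn ℂ G {z : ℂ | 1 < ‖z‖} →
      Set.InjOn G {z : ℂ | 1 < ‖z‖} →
      (∃ c : ℂ, Filter.Tendsto (fun z => G z - z) (Filter.cocompact ℂ) (nhds c)) →
      Convex ℝ (F '' {z : ℂ | 1 < ‖z‖})ᶜ →
      Convex ℝ (G '' {z : ℂ | 1 < ‖z‖})ᶜ →
      ∀ t : ℝ, 0 < t → t < 1 →
        Convex ℝ ((fun z => (t : ℂ) * F z + (1 - (t : ℂ)) * G z) '' {z : ℂ | 1 < ‖z‖})ᶜ) := by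
  intro H
  exact Pool.Agent.Helper6.Lens.H_not_convex
    (H (Pool.Agent.Helper6.Lens.F Pool.Agent.Helper6.Lens.c₀) Pool.Agent.Helper6.Lens.G
      (Pool.Agent.Helper6.Lens.F_diff _) (Pool.Agent.Helper6.Lens.F_inj Pool.Agent.Helper6.Lens.c₀_norm)
      ⟨0, Pool.Agent.Helper6.Lens.F_tendsto _⟩
      Pool.Agent.Helper6.Lens.G_diff Pool.Agent.Helper6.Lens.G_inj
      ⟨0, Pool.Agent.Helper6.Lens.G_tendsto⟩
      (Pool.Agent.Helper6.Lens.F_convex Pool.Agent.Helper6.Lens.c₀_norm)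
      Pool.Agent.Helper6.Lens.G_convex (1/2) (by norm_num) (by norm_num))
end Pool.Agent.S02940
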