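import Pool.Statements.S02950
-- import your own Pool.Agent.* helpers here

set_option autoImplicit false
open Pool Pool.MP_3153bb_an

namespace Pool.Agent.S02950

/-- The negation of the preceding statement: For μ continuous, convex, even, nonnegative on [-1,1], every degree-≤n polynomial bounded by μ there and alternating ±μ at n+1 points (ending at +μ) is a nonnegative combination of Chebyshev polynomials T_0..T_n. -/
theorem result :
    ¬ (∀ (μ : ℝ → ℝ), ContinuousOn μ (Set.Icc (-1) 1) →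
      ConvexOn ℝ (Set.Icc (-1) 1) μ →
      (∀ x ∈ Set.Icc (-1 : ℝ) 1, μ (-x) = μ x) →
      (∀ x ∈ Set.Icc (-1 : ℝ) 1, 0 ≤ μ x) →
      ∀ (n : ℕ) (p : Polynomial ℝ), p.natDegree ≤ n →
        (∀ x ∈ Set.Icc (-1 : ℝ) 1, |p.eval x| ≤ μ x) →
        (∃ τ : Fin (n + 1) → ℝ, StrictMono τ ∧ (∀ i, τ i ∈ Set.Icc (-1 : ℝ) 1) ∧
          ∀ i, p.eval (τ i) = (-1 : ℝ) ^ (n - (i : ℕ)) * μ (τ i)) →
        ∃ c : ℕ → ℝ, (∀ j, 0 ≤ c j) ∧
          p = ∑ j ∈ Finset.range (n + 1),
            Polynomial.C (c j) * Polynomial.Chebyshev.T ℝ (j : ℤ)) := by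
  intro H
  have hev : ∀ x : ℝ, (Polynomial.C 6875 * Polynomial.X^4 - Polynomial.C 5825 * Polynomial.X^2
      + Polynomial.C 288 : Polynomial ℝ).eval x = 6875*x^4 - 5825*x^2 + 288 := by
    intro x; simp
  obtain ⟨c, hc, hp⟩ := H (fun x => 288 + 1050 * |x|)
    (by fun_prop)
    (by
      refine ⟨convex_Icc _ _, ?_⟩
      intro x _ y _ a b ha hb hab
      simp only [smul_eq_mul]
      have h1 : |a*x + b*y| ≤ a*|x| + b*|y| := by
        calc |a*x + b*y| ≤ |a*x| + |b*y| := abs_add_le _ _
          _ = a*|x| + b*|y| := by rw [abs_mul, abs_mul, abs_of_nonneg ha, abs_of_nonneg hb]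
      have h2 : (288:ℝ) = a*288 + b*288 := by rw [← add_mul, hab, one_mul]
      nlinarith)
    (by intro x _; simp)
    (by intro x _; positivity)
    4 (Polynomial.C 6875 * Polynomial.X^4 - Polynomial.C 5825 * Polynomial.X^2 + Polynomial.C 288)
    (by compute_degree)
    (by
      intro x hx
      rw [hev]
      have hu0 := abs_nonneg x
      have hu1 : |x| ≤ 1 := abs_le.mpr ⟨by linarith [hx.1], hx.2⟩
      have e2 : x^2 = |x|^2 := (sq_abs x).symm
      have e4 : x^4 = |x|^4 := by
        have : x^4 = (x^2)^2 := by ring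
        rw [this, e2]; ring
      rw [e2, e4]
      generalize |x| = u at hu0 hu1
      rw [abs_le]
      constructor
      · have h : 0 ≤ (5*u-3)^2 * (275*u^2 + 330*u + 64) := by positivity
        nlinarith
      · have h3 : u^3 ≤ 1 := pow_le_one₀ hu0 hu1
        have h32 : u^3 ≤ u := by
          calc u^3 = u * u^2 := by ring
            _ ≤ u * 1 := by gcongr; exact pow_le_one₀ hu0 hu1
            _ = u := mul_one u
        have h5 : 0 ≤ u * (1050 * (1 - u^3) + 5825 * (u - u^3)) := by
          apply mul_nonneg hu0; linarith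
        nlinarith)
    (by
      refine ⟨![-1, -3/5, 0, 3/5, 1], ?_, ?_, ?_⟩
      · intro i j hij
        fin_cases i <;> fin_cases j <;> simp at hij ⊢ <;> norm_num
      · intro i
        fin_cases i <;> simp <;> norm_num
      · intro i
        rw [hev]
        fin_cases i <;> simp <;> norm_num [abs_of_pos, abs_of_neg])
  have hT2 : Polynomial.Chebyshev.T ℝ 2 = 2 * Polynomial.X^2 - 1 := Polynomial.Chebyshev.T_two ℝ
  have hT3 : Polynomial.Chebyshev.T ℝ 3 = 2 * Polynomial.X * Polynomial.Chebyshev.T ℝ 2 - Polynomial.X := by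
    have := Polynomial.Chebyshev.T_add_two ℝ 1
    norm_num at this; exact this
  have hT4 : Polynomial.Chebyshev.T ℝ 4 = 2 * Polynomial.X * Polynomial.Chebyshev.T ℝ 3 - Polynomial.Chebyshev.T ℝ 2 := by
    have := Polynomial.Chebyshev.T_add_two ℝ 2
    norm_num at this; exact this
  have key : ∀ x : ℝ, 6875*x^4 - 5825*x^2 + 288 = c 0 + c 1 * x + c 2 * (2*x^2-1)
      + c 3 * (4*x^3 - 3*x) + c 4 * (8*x^4 - 8*x^2 + 1) := by
    intro x
    rw [← hev, hp]
    simp only [Finset.sum_range_succ, Finset.sum_range_zero, Nat.cast_zero, Nat.cast_one, Nat.cast_ofNat,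
      Polynomial.Chebyshev.T_zero, Polynomial.Chebyshev.T_one, hT4, hT3, hT2, Polynomial.eval_add,
      Polynomial.eval_mul, Polynomial.eval_C, Polynomial.eval_sub, Polynomial.eval_pow,
      Polynomial.eval_X, Polynomial.eval_one, Polynomial.eval_ofNat, Polynomial.eval_zero]
    ring
  have k0 := key 0
  have k1 := key 1
  have k2 := key (-1)
  have k3 := key (1/2)
  have k4 := key (-1/2)
  have h0 := hc 0
  norm_num at k0 k1 k2 k3 k4
  linarith
end Pool.Agent.S02950
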