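import Pool.Statements.S02960
import Pool.Agent.Helper6.Prim

set_option autoImplicit false
open Pool Pool.MP_32357e_an

namespace Pool.Agent.S02960

/-- The negation of the preceding statement: For every injective analytic f on the unit disc, its primitive F with F(0)=0 satisfies a uniform bound on (1-∣z∣^2)∣f(z)∣/(1+∣F(z)∣^2) over the disc, i.e. F is a normal function. -/
theorem result :
    ¬ (∀ f F : ℂ → ℂ,
      AnalyticOnNhd ℂ f (Metric.ball (0:ℂ) 1) →
      Set.InjOn f (Metric.ball (0:ℂ) 1) →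
      F 0 = 0 →
      (∀ z ∈ Metric.ball (0:ℂ) 1, HasDerivAt F (f z) z) →
      ∃ C : ℝ, ∀ z ∈ Metric.ball (0:ℂ) 1,
        (1 - ‖z‖ ^ 2) * ‖f z‖ / (1 + ‖F z‖ ^ 2) ≤ C) := by
  intro H
  obtain ⟨C, hC⟩ := H Pool.Agent.Helper6.Prim.f Pool.Agent.Helper6.Prim.F
    Pool.Agent.Helper6.Prim.f_diff Pool.Agent.Helper6.Prim.f_inj Pool.Agent.Helper6.Prim.F_zero
    (fun z hz => Pool.Agent.Helper6.Prim.F_deriv hz)
  obtain ⟨z, hz, hlt⟩ := Pool.Agent.Helper6.Prim.unbounded C
  exact absurd (hC z hz) (not_le.mpr hlt)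
end Pool.Agent.S02960
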