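import Pool.Statements.S03016
import Pool.Agent.H6.Sim

set_option autoImplicit false
open Filter Topology
open Pool Pool.MP_393faa_an

namespace Pool.Agent.S03016

/-- The negation of the preceding statement: On a complex Hilbert space, if T = L⁻¹SL with S an isometry and ‖Lx‖ = lim ‖Tⁿx‖ for all x, then ‖L‖‖L⁻¹‖ equals the infimum of ‖M‖‖M⁻¹‖ over all similarities M of T to an isometry. -/
theorem result :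
    ¬ (∀ (H : Type) [NormedAddCommGroup H] [InnerProductSpace ℂ H] [CompleteSpace H]
      (T S : H →L[ℂ] H) (L : (H →L[ℂ] H)ˣ),
      (∀ x : H, ‖S x‖ = ‖x‖) →
      T = (↑L⁻¹ : H →L[ℂ] H) * S * (↑L : H →L[ℂ] H) →
      (∀ x : H, Tendsto (fun n : ℕ => ‖(T ^ n) x‖) atTop (𝓝 ‖(↑L : H →L[ℂ] H) x‖)) →
      ‖(↑L : H →L[ℂ] H)‖ * ‖(↑L⁻¹ : H →L[ℂ] H)‖ =
        sInf {r : ℝ | ∃ (M : (H →L[ℂ] H)ˣ) (S' : H →L[ℂ] H),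
          (∀ x : H, ‖S' x‖ = ‖x‖) ∧
          T = (↑M⁻¹ : H →L[ℂ] H) * S' * (↑M : H →L[ℂ] H) ∧
          r = ‖(↑M : H →L[ℂ] H)‖ * ‖(↑M⁻¹ : H →L[ℂ] H)‖}) := by
  intro h
  have h1 := h Pool.Agent.H6.Sim.L2 Pool.Agent.H6.Sim.T Pool.Agent.H6.Sim.S Pool.Agent.H6.Sim.L
    Pool.Agent.H6.Sim.S_norm rfl Pool.Agent.H6.Sim.T_lim
  have h2 := Pool.Agent.H6.Sim.key_norms
  rw [h1] at h2
  have h3 : sInf {r : ℝ | ∃ (M : (Pool.Agent.H6.Sim.L2 →L[ℂ] Pool.Agent.H6.Sim.L2)ˣ)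
      (S' : Pool.Agent.H6.Sim.L2 →L[ℂ] Pool.Agent.H6.Sim.L2),
          (∀ x : Pool.Agent.H6.Sim.L2, ‖S' x‖ = ‖x‖) ∧
          Pool.Agent.H6.Sim.T = (↑M⁻¹ : Pool.Agent.H6.Sim.L2 →L[ℂ] Pool.Agent.H6.Sim.L2) * S' *
            (↑M : Pool.Agent.H6.Sim.L2 →L[ℂ] Pool.Agent.H6.Sim.L2) ∧
          r = ‖(↑M : Pool.Agent.H6.Sim.L2 →L[ℂ] Pool.Agent.H6.Sim.L2)‖ *
            ‖(↑M⁻¹ : Pool.Agent.H6.Sim.L2 →L[ℂ] Pool.Agent.H6.Sim.L2)‖} ≤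
      ‖(↑Pool.Agent.H6.Sim.M : Pool.Agent.H6.Sim.L2 →L[ℂ] Pool.Agent.H6.Sim.L2)‖ *
        ‖(↑Pool.Agent.H6.Sim.M⁻¹ : Pool.Agent.H6.Sim.L2 →L[ℂ] Pool.Agent.H6.Sim.L2)‖ := by
    apply csInf_le
    · refine ⟨0, ?_⟩
      rintro r ⟨M, S', _, _, rfl⟩
      positivity
    · exact ⟨Pool.Agent.H6.Sim.M, Pool.Agent.H6.Sim.S, Pool.Agent.H6.Sim.S_norm,
        Pool.Agent.H6.Sim.T_eq, rfl⟩
  have h4 := Pool.Agent.H6.Sim.M_norms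
  linarith

end Pool.Agent.S03016
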