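import Pool.Statements.S03148
import Pool.Agent.H7Shift2

set_option autoImplicit false
open Pool Pool.MP_4998f1_an

namespace Pool.Agent.S03148

/-- The negation of the preceding statement: For a closed commutative operator algebra A on a Banach space with ‖a²‖=‖a‖², and invertible U with UAU⁻¹=A, if periodic characters are meagre in the Shilov boundary, σ(U) lies in the unit circle, and A is inverse-closed, then σ(aU) on X equals the spectrum of b↦a·UbU⁻¹ on A. -/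
theorem result :
    ¬ (∀ (X : Type) [NormedAddCommGroup X] [NormedSpace ℂ X] [CompleteSpace X]
    (A : Subalgebra ℂ (X →L[ℂ] X)) (U : (X →L[ℂ] X)ˣ)
    (S : Set (WeakDual.characterSpace ℂ A)) (P : Set (WeakDual.characterSpace ℂ A)),
    IsClosed (A : Set (X →L[ℂ] X)) →
    (∀ a ∈ A, ∀ b ∈ A, a * b = b * a) →
    (∀ a ∈ A, ‖a * a‖ = ‖a‖ ^ 2) →
    (∀ a ∈ A, U.val * a * U.inv ∈ A) →
    (∀ a ∈ A, U.inv * a * U.val ∈ A) →
    S = ⋂₀ {K : Set (WeakDual.characterSpace ℂ A) | IsClosed K ∧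
          ∀ a : A, ∃ χ ∈ K, ∀ ψ : WeakDual.characterSpace ℂ A, ‖ψ a‖ ≤ ‖χ a‖} →
    P = {χ : WeakDual.characterSpace ℂ A | ∃ n : ℕ, 0 < n ∧
          ∀ (a : X →L[ℂ] X) (ha : a ∈ A) (b : X →L[ℂ] X) (hb : b ∈ A),
            b = (U ^ n).val * a * (U ^ n).inv → χ (⟨b, hb⟩ : A) = χ (⟨a, ha⟩ : A)} →
    IsMeagre {x : S | x.val ∈ P} →
    spectrum ℂ U.val ⊆ Metric.sphere (0 : ℂ) 1 →
    (∀ (a : X →L[ℂ] X) (ha : a ∈ A), IsUnit a → IsUnit (⟨a, ha⟩ : A)) →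
    ∀ a ∈ A, ∀ μ : ℂ,
      (μ ∈ spectrum ℂ (a * U.val) ↔
        ¬ ∀ c ∈ A, ∃! b, b ∈ A ∧ c = μ • b - a * (U.val * b * U.inv))) := by
  intro H
  have hS : {x : (⋂₀ {K : Set (WeakDual.characterSpace ℂ H7Shift.A) | IsClosed K ∧
          ∀ a : H7Shift.A, ∃ χ ∈ K, ∀ ψ : WeakDual.characterSpace ℂ H7Shift.A, ‖ψ a‖ ≤ ‖χ a‖} :
          Set (WeakDual.characterSpace ℂ H7Shift.A)) |
        x.val ∈ {χ : WeakDual.characterSpace ℂ H7Shift.A | ∃ n : ℕ, 0 < n ∧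
          ∀ (a : H7Shift.X →L[ℂ] H7Shift.X) (ha : a ∈ H7Shift.A)
            (b : H7Shift.X →L[ℂ] H7Shift.X) (hb : b ∈ H7Shift.A),
            b = (H7Shift.U ^ n).val * a * (H7Shift.U ^ n).inv →
              χ (⟨b, hb⟩ : H7Shift.A) = χ (⟨a, ha⟩ : H7Shift.A)}} = ∅ := by
    rw [Set.eq_empty_iff_forall_notMem]
    rintro ⟨χ, hχ⟩ ⟨n, hn, h⟩
    have h1 : χ ∈ H7Shift2.KB :=
      hχ H7Shift2.KB ⟨H7Shift2.KB_closed, H7Shift2.KB_boundary⟩
    obtain ⟨t, rfl⟩ := h1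
    exact H7Shift2.not_periodic t n hn h
  have h1 := H H7Shift.X H7Shift.A H7Shift.U _ _ H7Shift.A_closed H7Shift.A_comm H7Shift.A_sq
    H7Shift.A_conj H7Shift.A_conj' rfl rfl (by rw [hS]; exact IsMeagre.empty)
    H7Shift.spec_U H7Shift.inv_closed H7Shift2.Mz H7Shift2.Mz_mem 1
  apply H7Shift2.one_not_mem
  rw [h1]
  intro h2
  obtain ⟨b, ⟨hb, hb2⟩, _⟩ := h2 1 H7Shift.A.one_mem
  exact H7Shift2.no_solution b hb hb2

end Pool.Agent.S03148
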