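import Pool.Statements.S03212
import Pool.Agent.H7Sys

set_option autoImplicit false
open Pool Pool.MP_5139aa_an

namespace Pool.Agent.S03212

/-- The negation of the preceding statement: If a compact metric system given by a homeomorphism embeds equivariantly and weakly-continuously into the unit ball of a Hilbert space with a unitary operator, then so does every factor of it. -/
theorem result :
    ¬ (∀ (X Y : Type) [MetricSpace X] [CompactSpace X] [MetricSpace Y] [CompactSpace Y]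
      (T : X ≃ₜ X) (S : Y ≃ₜ Y) (π : X → Y),
      Continuous π → Function.Surjective π → (∀ x, π (T x) = S (π x)) →
      (∃ (H : Type) (_ : NormedAddCommGroup H) (_ : InnerProductSpace ℂ H) (_ : CompleteSpace H)
          (U : H ≃ₗᵢ[ℂ] H) (f : X → H),
          Function.Injective f ∧ (∀ x, ‖f x‖ ≤ 1) ∧ (∀ x, f (T x) = U (f x)) ∧
          ∀ v : H, Continuous (fun x => inner ℂ v (f x))) →
      (∃ (H : Type) (_ : NormedAddCommGroup H) (_ : InnerProductSpace ℂ H) (_ : CompleteSpace H)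
          (U : H ≃ₗᵢ[ℂ] H) (g : Y → H),
          Function.Injective g ∧ (∀ y, ‖g y‖ ≤ 1) ∧ (∀ y, g (S y) = U (g y)) ∧
          ∀ v : H, Continuous (fun y => inner ℂ v (g y)))) := by
  intro h
  haveI : TopologicalSpace.MetrizableSpace (ℤ → ℝ) := inferInstance
  haveI : CompactSpace H7Sys.XS := isCompact_iff_compactSpace.mp H7Sys.XS_compact
  haveI : CompactSpace H7Sys.YS := isCompact_iff_compactSpace.mp H7Sys.YS_compact
  letI : MetricSpace H7Sys.XS := TopologicalSpace.metrizableSpaceMetric H7Sys.XS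
  letI : MetricSpace H7Sys.YS := TopologicalSpace.metrizableSpaceMetric H7Sys.YS
  let T : H7Sys.XS ≃ₜ H7Sys.XS := H7Sys.shift.subtype H7Sys.mem_XS_iff
  let S : H7Sys.YS ≃ₜ H7Sys.YS := H7Sys.shift.subtype H7Sys.mem_YS_iff
  let π : H7Sys.XS → H7Sys.YS := fun x => ⟨H7Sys.Th x.1, x.1, x.2, rfl⟩
  have h1 := h H7Sys.XS H7Sys.YS T S π
    ((H7Sys.Th_cont.comp continuous_subtype_val).subtype_mk _)
    (by rintro ⟨_, x, hx, rfl⟩; exact ⟨⟨x, hx⟩, rfl⟩)
    (by intro x; rfl)
  obtain ⟨H, i1, i2, i3, U, f, hf1, hf2, hf3, hf4⟩ := H7Sys.XS_rep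
  obtain ⟨H', j1, j2, j3, U', g, hg1, hg2, hg3, hg4⟩ := h1 ⟨H, i1, i2, i3, U, f, hf1, hf2,
    fun x => hf3 x (T x) rfl, hf4⟩
  refine H7Sys.YS_not_rep U' g hg1 ?_ hg4
  intro x y hxy
  have : y = S x := Subtype.ext hxy
  rw [this, hg3]

end Pool.Agent.S03212
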