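import Pool.Statements.S03216
import Pool.Agent.H7Lem

set_option autoImplicit false
open Pool Pool.MP_51da40_an

namespace Pool.Agent.S03216

/-- The negation of the preceding statement: For every c>0 and ε>0, for all large n, every monic complex polynomial of degree n has at most εn connected components of {∣f∣≤1} with diameter greater than 1+c. -/
theorem result :
    ¬ (∀ c : ℝ, 0 < c → ∀ ε : ℝ, 0 < ε → ∃ N : ℕ, ∀ n : ℕ, N ≤ n →
      ∀ f : Polynomial ℂ, f.Monic → f.natDegree = n →
        ∀ s : Finset (Set ℂ),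
          (∀ C ∈ s, (∃ z : ℂ, ‖f.eval z‖ ≤ 1 ∧
              connectedComponentIn {w : ℂ | ‖f.eval w‖ ≤ 1} z = C) ∧
            1 + c < Metric.diam C) →
          (s.card : ℝ) ≤ ε * (n : ℝ)) := by
  classical
  intro h
  obtain ⟨N, hN⟩ := h (1 / 10) (by norm_num) (1 / 7) (by norm_num)
  set k : ℕ := N + 1 with hk
  have hk0 : 0 < k := by omega
  have hn : 0 < 6 * k := by omega
  have h1 := hN (6 * k) (by omega) (H7Lem.f (6 * k)) (H7Lem.f_monic _ hn).1 (H7Lem.f_monic _ hn).2
    ((Finset.Ico k (2 * k)).image (H7Lem.comp (6 * k))) (by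
      intro C hC
      rw [Finset.mem_image] at hC
      obtain ⟨j, hj, rfl⟩ := hC
      rw [Finset.mem_Ico] at hj
      exact ⟨⟨H7Lem.arc (H7Lem.al (6 * k) j) 1, H7Lem.arc_mem _ j hn 1 (by norm_num), rfl⟩,
        H7Lem.comp_diam k hk0 j hj.1 hj.2⟩)
  rw [Finset.card_image_of_injOn, Nat.card_Ico] at h1
  · have h2 : 2 * k - k = k := by omega
    rw [h2] at h1
    push_cast at h1
    have hkR : (0:ℝ) < k := by exact_mod_cast hk0
    linarith
  · intro i hi j hj hij
    rw [Finset.mem_coe, Finset.mem_Ico] at hi hj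
    by_contra hne
    rcases Nat.lt_or_gt_of_ne hne with hlt | hlt
    · exact H7Lem.comp_inj k hk0 i j (by omega) hlt hij
    · exact H7Lem.comp_inj k hk0 j i (by omega) hlt hij.symm

end Pool.Agent.S03216
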