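import Pool.Statements.S03220
import Mathlib

set_option autoImplicit false
open Pool Pool.MP_529e31_an

namespace Pool.Agent.S03220

/-- the radii -/
noncomputable def rr (n : ℕ) : ℝ := (2 : ℝ) ^ (7 ^ n)

lemma rr_ge (n : ℕ) : 2 ≤ rr n := by
  unfold rr
  have h1 : 1 ≤ 7 ^ n := Nat.one_le_pow _ _ (by norm_num)
  calc (2 : ℝ) = 2 ^ 1 := (pow_one _).symm
    _ ≤ 2 ^ (7 ^ n) := pow_le_pow_right₀ (by norm_num) h1

lemma rr_mono {i j : ℕ} (h : i ≤ j) : rr i ≤ rr j :=
  pow_le_pow_right₀ (by norm_num) (Nat.pow_le_pow_right (by norm_num) h)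

lemma rr_succ {i j : ℕ} (h : i < j) : rr i ^ 7 ≤ rr j := by
  have h1 : rr i ^ 7 = rr (i + 1) := by
    unfold rr
    rw [← pow_mul, ← pow_succ]
  rw [h1]
  exact rr_mono h

lemma rr_gt (n : ℕ) : (n : ℝ) < rr n := by
  unfold rr
  have h1 : n < 7 ^ n := Nat.lt_pow_self (by norm_num)
  have h2 : 7 ^ n < 2 ^ (7 ^ n) := Nat.lt_pow_self (by norm_num)
  exact_mod_cast h1.trans h2

lemma key (n j : ℕ) (h : n < j) : (rr j / rr n) ^ ((2 ^ (7 ^ n)) ^ 3 : ℕ) ≤ Real.exp (rr j) := by
  have hn := rr_ge n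
  have hj := rr_ge j
  have hn0 : 0 < rr n := by linarith
  have hj0 : 0 < rr j := by linarith
  set x := rr j / rr n with hx
  have hx0 : 0 < x := by positivity
  set m : ℕ := (2 ^ (7 ^ n)) ^ 3 with hm
  have hmR : (m : ℝ) = rr n ^ 3 := by
    rw [hm]; push_cast; rfl
  have h1 : x ≤ Real.exp (2 * Real.sqrt x) := by
    have h2 : Real.sqrt x ≤ Real.exp (Real.sqrt x) := by
      have := Real.add_one_le_exp (Real.sqrt x); linarith
    calc x = Real.sqrt x ^ 2 := (Real.sq_sqrt hx0.le).symm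
      _ ≤ Real.exp (Real.sqrt x) ^ 2 := pow_le_pow_left₀ (Real.sqrt_nonneg _) h2 2
      _ = Real.exp (2 * Real.sqrt x) := by rw [← Real.exp_nat_mul]; norm_num
  have h3 : Real.sqrt x ≤ rr j / (2 * rr n ^ 3) := by
    rw [Real.sqrt_le_left (by positivity), hx, div_pow, mul_pow]
    rw [div_le_div_iff₀ (by positivity) (by positivity)]
    have h4 := rr_succ h
    have h5 : 4 * rr n ^ 5 ≤ rr j := by
      have h6 : 4 * rr n ^ 5 ≤ rr n ^ 7 := by
        have h7 : 4 ≤ rr n ^ 2 := by nlinarith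
        calc 4 * rr n ^ 5 ≤ rr n ^ 2 * rr n ^ 5 := mul_le_mul_of_nonneg_right h7 (by positivity)
          _ = rr n ^ 7 := by ring
      linarith
    have h8 : rr j * (2 ^ 2 * (rr n ^ 3) ^ 2) = (4 * rr n ^ 5) * (rr j * rr n) := by ring
    rw [h8]
    calc (4 * rr n ^ 5) * (rr j * rr n) ≤ rr j * (rr j * rr n) :=
          mul_le_mul_of_nonneg_right h5 (by positivity)
      _ = rr j ^ 2 * rr n := by ring
  calc x ^ m ≤ (Real.exp (2 * Real.sqrt x)) ^ m := pow_le_pow_left₀ hx0.le h1 m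
    _ = Real.exp (m * (2 * Real.sqrt x)) := by rw [← Real.exp_nat_mul]
    _ ≤ Real.exp (rr j) := by
      apply Real.exp_le_exp.mpr
      rw [hmR]
      have h9 : rr n ^ 3 * (2 * Real.sqrt x) ≤ rr n ^ 3 * (2 * (rr j / (2 * rr n ^ 3))) := by
        apply mul_le_mul_of_nonneg_left _ (by positivity)
        linarith
      refine h9.trans (le_of_eq ?_)
      field_simp

/-- The negation of the preceding statement: For every ρ>0 and S in ℂ: if each entire f of order ρ finite type is bounded on S iff bounded on ℂ, then for each weight k in K_ρ there are k' in K_ρ and C>0 with ∣f∣≤k' on S implying ∣f∣≤Ck on ℂ (S sufficient). -/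
theorem result :
    ¬ (∀ ρ : ℝ, 0 < ρ → ∀ S : Set ℂ,
      (∀ f : ℂ → ℂ, Differentiable ℂ f →
        (∃ A B : ℝ, 0 < A ∧ 0 < B ∧ ∀ z : ℂ, ‖f z‖ ≤ B * Real.exp (A * ‖z‖ ^ ρ)) →
        (Bornology.IsBounded (f '' S) ↔ Bornology.IsBounded (Set.range f))) →
      ∀ k : ℂ → ℝ, Continuous k → (∀ z : ℂ, 0 < k z) →
        (∀ A : ℝ, 0 < A →
          Asymptotics.IsLittleO (Filter.cocompact ℂ) (fun z : ℂ => Real.exp (A * ‖z‖ ^ ρ)) k) →
        ∃ k' : ℂ → ℝ, Continuous k' ∧ (∀ z : ℂ, 0 < k' z) ∧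
          (∀ A : ℝ, 0 < A →
            Asymptotics.IsLittleO (Filter.cocompact ℂ) (fun z : ℂ => Real.exp (A * ‖z‖ ^ ρ)) k') ∧
          ∃ C : ℝ, 0 < C ∧
            ∀ f : ℂ → ℂ, Differentiable ℂ f →
              (∃ A B : ℝ, 0 < A ∧ 0 < B ∧ ∀ z : ℂ, ‖f z‖ ≤ B * Real.exp (A * ‖z‖ ^ ρ)) →
              (∀ z ∈ S, ‖f z‖ ≤ k' z) → ∀ z : ℂ, ‖f z‖ ≤ C * k z) := by
  intro H
  have hyp1 : ∀ f : ℂ → ℂ, Differentiable ℂ f →
        (∃ A B : ℝ, 0 < A ∧ 0 < B ∧ ∀ z : ℂ, ‖f z‖ ≤ B * Real.exp (A * ‖z‖ ^ (1 : ℝ))) →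
        (Bornology.IsBounded (f '' {z : ℂ | ∃ n, ‖z‖ = rr n}) ↔ Bornology.IsBounded (Set.range f)) := by
    intro f hd _
    constructor
    · intro hb
      obtain ⟨R, hR⟩ := hb.exists_norm_le
      rw [isBounded_iff_forall_norm_le]
      refine ⟨R, ?_⟩
      rintro _ ⟨z, rfl⟩
      obtain ⟨n, hn⟩ := exists_nat_gt ‖z‖
      have h1 : ‖z‖ < rr n := hn.trans (rr_gt n)
      have h2 : rr n ≠ 0 := by have := rr_ge n; linarith
      refine Complex.norm_le_of_forall_mem_frontier_norm_le (U := Metric.ball (0:ℂ) (rr n))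
        Metric.isBounded_ball hd.diffContOnCl (fun w hw => ?_) ?_
      · rw [frontier_ball _ h2, mem_sphere_zero_iff_norm] at hw
        exact hR _ ⟨w, ⟨n, hw⟩, rfl⟩
      · rw [closure_ball _ h2, mem_closedBall_zero_iff]; exact h1.le
    · intro hb
      exact hb.subset (Set.image_subset_range _ _)
  have hyp2 : ∀ A : ℝ, 0 < A → Asymptotics.IsLittleO (Filter.cocompact ℂ)
      (fun z : ℂ => Real.exp (A * ‖z‖ ^ (1 : ℝ))) (fun z : ℂ => Real.exp (‖z‖ ^ 2)) := by
    intro A _
    simp only [Real.rpow_one]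
    rw [Real.isLittleO_exp_comp_exp_comp]
    have h1 : Filter.Tendsto (fun x : ℝ => x ^ 2 - A * x) Filter.atTop Filter.atTop := by
      have h2 : (fun x : ℝ => x ^ 2 - A * x) = fun x => x * (x - A) := by ext x; ring
      rw [h2]
      exact Filter.Tendsto.atTop_mul_atTop₀ Filter.tendsto_id (Filter.tendsto_atTop_add_const_right _ (-A) Filter.tendsto_id)
    exact h1.comp tendsto_norm_cocompact_atTop
  obtain ⟨k', hk'c, hk'p, hk'o, C, hC, hf⟩ := H 1 one_pos {z : ℂ | ∃ n, ‖z‖ = rr n} hyp1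
    (fun z => Real.exp (‖z‖ ^ 2)) (by fun_prop) (fun z => Real.exp_pos _) hyp2
  · -- the contradiction
    have h1 := hk'o 1 one_pos
    simp only [one_mul, Real.rpow_one] at h1
    obtain ⟨M, hM0, hM⟩ : ∃ M : ℝ, 0 < M ∧ ∀ z : ℂ, Real.exp ‖z‖ ≤ M * k' z := by
      have h2 := h1.bound (c := 1) one_pos
      rw [Filter.eventually_iff, Filter.mem_cocompact] at h2
      obtain ⟨K, hK, hKs⟩ := h2
      have hcont : ContinuousOn (fun z : ℂ => Real.exp ‖z‖ / k' z) K := by
        apply Continuous.continuousOn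
        exact (by fun_prop : Continuous fun z : ℂ => Real.exp ‖z‖).div hk'c (fun z => (hk'p z).ne')
      obtain ⟨M, hM⟩ := hK.exists_bound_of_continuousOn hcont
      refine ⟨max M 1, by positivity, fun z => ?_⟩
      have hkz := hk'p z
      by_cases hz : z ∈ K
      · have h3 := hM z hz
        rw [Real.norm_of_nonneg (by positivity), div_le_iff₀ hkz] at h3
        exact h3.trans (mul_le_mul_of_nonneg_right (le_max_left _ _) hkz.le)
      · have h3 := hKs hz
        rw [Set.mem_ofPred_eq, one_mul, Real.norm_of_nonneg (Real.exp_pos _).le,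
          Real.norm_of_nonneg hkz.le] at h3
        calc Real.exp ‖z‖ ≤ 1 * k' z := by rw [one_mul]; exact h3
          _ ≤ max M 1 * k' z := mul_le_mul_of_nonneg_right (le_max_right _ _) hkz.le
    -- evaluate at the bad points
    have h4 : ∀ n : ℕ, Real.exp (rr n ^ 3) ≤ M * C * Real.exp ((Real.exp 1 * rr n) ^ 2) := by
      intro n
      have hn := rr_ge n
      have hn0 : 0 < rr n := by linarith
      set m : ℕ := (2 ^ (7 ^ n)) ^ 3 with hm
      have hmR : (m : ℝ) = rr n ^ 3 := by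
        rw [hm]; push_cast; rfl
      have hnorm : ∀ z : ℂ, ‖(M : ℂ)⁻¹ * (z / (rr n : ℂ)) ^ m‖ = M⁻¹ * (‖z‖ / rr n) ^ m := by
        intro z
        rw [norm_mul, norm_inv, norm_pow, norm_div, Complex.norm_real, Complex.norm_real,
          Real.norm_of_nonneg hM0.le, Real.norm_of_nonneg hn0.le]
      have h5 := hf (fun z => (M : ℂ)⁻¹ * (z / (rr n : ℂ)) ^ m) (by fun_prop) ?_ ?_
        ((Real.exp 1 * rr n : ℝ) : ℂ)
      · rw [hnorm, Complex.norm_real, Real.norm_of_nonneg (by positivity)] at h5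
        rw [mul_div_assoc, div_self hn0.ne', mul_one, ← Real.exp_nat_mul, mul_one, hmR] at h5
        rw [inv_mul_le_iff₀ hM0, ← mul_assoc] at h5
        exact h5
      · refine ⟨m, M⁻¹, ?_, by positivity, fun z => ?_⟩
        · rw [hmR]; positivity
        · rw [hnorm, Real.rpow_one]
          apply mul_le_mul_of_nonneg_left _ (by positivity)
          rw [Real.exp_nat_mul]
          apply pow_le_pow_left₀ (by positivity)
          have h6 : ‖z‖ / rr n ≤ ‖z‖ := div_le_self (norm_nonneg _) (by linarith)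
          have := Real.add_one_le_exp ‖z‖
          linarith
      · rintro z ⟨j, hj⟩
        rw [hnorm]
        have h7 : (‖z‖ / rr n) ^ m ≤ Real.exp ‖z‖ := by
          rw [hj]
          rcases Nat.lt_or_ge n j with h | h
          · exact key n j h
          · have h8 : (rr j / rr n) ^ m ≤ 1 := by
              apply pow_le_one₀
              · have := rr_ge j; positivity
              · rw [div_le_one hn0]; exact rr_mono h
            have h9 : 1 ≤ Real.exp (rr j) := by
              apply Real.one_le_exp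
              have := rr_ge j; linarith
            linarith
        rw [inv_mul_le_iff₀ hM0]
        exact h7.trans (hM z)
    -- contradiction
    obtain ⟨n, hn⟩ := exists_nat_gt (max (M * C) 10)
    have h10 : 10 < (n : ℝ) := lt_of_le_of_lt (le_max_right _ _) hn
    have h11 : M * C < (n : ℝ) := lt_of_le_of_lt (le_max_left _ _) hn
    have h12 := rr_gt n
    have h13 := h4 n
    have he : Real.exp 1 ^ 2 < 9 := by
      have h14 := Real.exp_one_lt_d9
      have h15 := Real.exp_pos 1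
      nlinarith
    set r := rr n with hr
    have h16 : (Real.exp 1 * r) ^ 2 + r ≤ r ^ 3 := by
      have h17 : (Real.exp 1 * r) ^ 2 = Real.exp 1 ^ 2 * r ^ 2 := by ring
      rw [h17]
      have h18 : Real.exp 1 ^ 2 * r ^ 2 ≤ 9 * r ^ 2 := mul_le_mul_of_nonneg_right he.le (by positivity)
      have h19 : 10 * r ^ 2 ≤ r ^ 3 := by
        have : r ^ 3 = r * r ^ 2 := by ring
        rw [this]
        exact mul_le_mul_of_nonneg_right (by linarith) (by positivity)
      have h20 : r ≤ r ^ 2 := by nlinarith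
      linarith
    have h21 : Real.exp r * Real.exp ((Real.exp 1 * r) ^ 2) ≤ M * C * Real.exp ((Real.exp 1 * r) ^ 2) := by
      rw [← Real.exp_add]
      refine le_trans (Real.exp_le_exp.mpr ?_) h13
      linarith
    have h22 : Real.exp r ≤ M * C := le_of_mul_le_mul_right h21 (Real.exp_pos _)
    have h23 := Real.add_one_le_exp r
    linarith

end Pool.Agent.S03220
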