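import Pool.Statements.S03239
-- import your own Pool.Agent.* helpers here

set_option autoImplicit false
open Pool Pool.MP_555292_an

namespace Pool.Agent.S03239

open scoped Topology

/-- multigeometric sequence with block `c 0, …, c (m-1)` and ratio `1/10` -/
noncomputable def z (m : ℕ) (c : ℕ → ℝ) (n : ℕ) : ℝ := c (n % m) * (1 / 10 : ℝ) ^ (n / m)

lemma z_add {m : ℕ} (hm : 0 < m) (c : ℕ → ℝ) (n : ℕ) :
    z m c (n + m) = (1 / 10) * z m c n := by
  unfold z; rw [Nat.add_mod_right, Nat.add_div_right _ hm, pow_succ]; ring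

lemma z_lt {m : ℕ} (c : ℕ → ℝ) {n : ℕ} (h : n < m) : z m c n = c n := by
  simp [z, Nat.mod_eq_of_lt h, Nat.div_eq_of_lt h]

lemma z_nonneg {m : ℕ} {c : ℕ → ℝ} (hc : ∀ j, 0 ≤ c j) (n : ℕ) : 0 ≤ z m c n := by
  unfold z
  exact mul_nonneg (hc _) (by positivity)

lemma summable_z {m : ℕ} (hm : 0 < m) {c : ℕ → ℝ} (hc : ∀ j, 0 ≤ c j) : Summable (z m c) := by
  set C : ℝ := ∑ j ∈ Finset.range m, c j with hC
  have hC0 : 0 ≤ C := Finset.sum_nonneg fun j _ => hc j
  apply summable_of_sum_range_le (c := 10 / 9 * C) (z_nonneg hc)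
  intro n
  induction n using Nat.strong_induction_on with
  | _ n ih =>
    rcases lt_or_ge n m with h | h
    · have h1 : ∑ i ∈ Finset.range n, z m c i ≤ C := by
        rw [hC]
        calc ∑ i ∈ Finset.range n, z m c i ≤ ∑ i ∈ Finset.range m, z m c i := by
              apply Finset.sum_le_sum_of_subset_of_nonneg
              · exact Finset.range_subset_range.2 h.le
              · intro i _ _; exact z_nonneg hc i
          _ = ∑ i ∈ Finset.range m, c i := by
              apply Finset.sum_congr rfl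
              intro i hi; exact z_lt c (Finset.mem_range.1 hi)
      linarith
    · obtain ⟨k, rfl⟩ := Nat.exists_eq_add_of_le h
      have h2 := ih k (by omega)
      rw [Finset.sum_range_add]
      have h3 : ∑ i ∈ Finset.range m, z m c i = C := by
        apply Finset.sum_congr rfl
        intro i hi; exact z_lt c (Finset.mem_range.1 hi)
      have h4 : ∑ i ∈ Finset.range k, z m c (m + i) = (1 / 10) * ∑ i ∈ Finset.range k, z m c i := by
        rw [Finset.mul_sum]
        apply Finset.sum_congr rfl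
        intro i _; rw [add_comm, z_add hm]
      rw [h3, h4]
      linarith

/-- achievement set -/
def S (m : ℕ) (c : ℕ → ℝ) : Set ℝ := {s : ℝ | ∃ A : Set ℕ, s = ∑' n, A.indicator (z m c) n}

open Classical in
lemma block {m : ℕ} (hm : 0 < m) {c : ℕ → ℝ} (hc : ∀ j, 0 ≤ c j) (A : Set ℕ) :
    ∑' n, A.indicator (z m c) n =
      (∑ j ∈ Finset.range m, if j ∈ A then c j else 0) +
        (1 / 10) * ∑' n, {n | n + m ∈ A}.indicator (z m c) n := by
  have h1 := ((summable_z hm hc).indicator A).sum_add_tsum_nat_add m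
  rw [← h1, ← tsum_mul_left]
  congr 1
  · apply Finset.sum_congr rfl
    intro j hj
    rw [Set.indicator_apply, z_lt c (Finset.mem_range.1 hj)]
  · apply tsum_congr
    intro n
    by_cases h : n + m ∈ A
    · rw [Set.indicator_of_mem h, Set.indicator_of_mem (by exact h), z_add hm]
    · rw [Set.indicator_of_notMem h, Set.indicator_of_notMem (by exact h), mul_zero]

open Classical in
lemma mem_step {m : ℕ} (hm : 0 < m) {c : ℕ → ℝ} (hc : ∀ j, 0 ≤ c j) {s : ℝ} (hs : s ∈ S m c) :
    ∃ B : Finset ℕ, ∃ s' ∈ S m c,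
      s = (∑ j ∈ Finset.range m, if j ∈ B then c j else 0) + (1 / 10) * s' := by
  obtain ⟨A, rfl⟩ := hs
  refine ⟨(Finset.range m).filter (· ∈ A), _, ⟨{n | n + m ∈ A}, rfl⟩, ?_⟩
  rw [block hm hc]
  congr 1
  apply Finset.sum_congr rfl
  intro j hj
  simp [Finset.mem_range.1 hj]

open Classical in
lemma step_mem {m : ℕ} (hm : 0 < m) {c : ℕ → ℝ} (hc : ∀ j, 0 ≤ c j) (B : Finset ℕ) {s' : ℝ}
    (hs : s' ∈ S m c) :
    (∑ j ∈ Finset.range m, if j ∈ B then c j else 0) + (1 / 10) * s' ∈ S m c := by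
  obtain ⟨A, rfl⟩ := hs
  refine ⟨{n | (n < m ∧ n ∈ B) ∨ (m ≤ n ∧ n - m ∈ A)}, ?_⟩
  rw [block hm hc {n | (n < m ∧ n ∈ B) ∨ (m ≤ n ∧ n - m ∈ A)}]
  congr 1
  · apply Finset.sum_congr rfl
    intro j hj
    have := Finset.mem_range.1 hj
    simp [this, not_le.2 this]
  · congr 2
    ext n
    congr 1
    ext k
    simp

open Classical in
lemma coind {m : ℕ} (hm : 0 < m) {c : ℕ → ℝ} (hc : ∀ j, 0 ≤ c j) (K : Set ℝ) (M : ℝ)
    (hM : ∀ t ∈ K, |t| ≤ M)
    (h : ∀ t ∈ K, ∃ B : Finset ℕ, ∃ t' ∈ K,
      t = (∑ j ∈ Finset.range m, if j ∈ B then c j else 0) + (1 / 10) * t') : K ⊆ S m c := by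
  intro t ht
  choose! B t' ht' he using h
  let u : ℕ → ℝ := fun k => t'^[k] t
  have hus : ∀ k, u (k + 1) = t' (u k) := by
    intro k
    change t'^[k + 1] t = t' (t'^[k] t)
    rw [Function.iterate_succ_apply']
  have huK : ∀ k, u k ∈ K := by
    intro k
    induction k with
    | zero => exact ht
    | succ k ih => rw [hus]; exact ht' _ ih
  have hu : ∀ k, u k = (∑ j ∈ Finset.range m, if j ∈ B (u k) then c j else 0) + (1 / 10) * u (k + 1) := by
    intro k
    rw [hus]
    exact he _ (huK k)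
  let A : ℕ → Set ℕ := fun k => {n | n % m ∈ B (u (k + n / m))}
  let σ : ℕ → ℝ := fun k => ∑' n, (A k).indicator (z m c) n
  have hσ : ∀ k, σ k = (∑ j ∈ Finset.range m, if j ∈ B (u k) then c j else 0) + (1 / 10) * σ (k + 1) := by
    intro k
    change ∑' n, (A k).indicator (z m c) n = _ + (1 / 10) * ∑' n, (A (k + 1)).indicator (z m c) n
    rw [block hm hc (A k)]
    congr 1
    · apply Finset.sum_congr rfl
      intro j hj
      have hj' := Finset.mem_range.1 hj
      have : j ∈ A k ↔ j ∈ B (u k) := by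
        change j % m ∈ B (u (k + j / m)) ↔ _
        rw [Nat.mod_eq_of_lt hj', Nat.div_eq_of_lt hj', add_zero]
      simp only [this]
    · have : {n | n + m ∈ A k} = A (k + 1) := by
        ext n
        change (n + m) % m ∈ B (u (k + (n + m) / m)) ↔ n % m ∈ B (u (k + 1 + n / m))
        rw [Nat.add_mod_right, Nat.add_div_right _ hm]
        have : k + (n / m).succ = k + 1 + n / m := by omega
        rw [this]
      rw [this]
  set T : ℝ := ∑' n, z m c n with hT
  have hσb : ∀ k, |σ k| ≤ T := by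
    intro k
    have h0 : 0 ≤ σ k := tsum_nonneg fun n => Set.indicator_nonneg (fun n _ => z_nonneg hc n) n
    rw [abs_of_nonneg h0]
    exact ((summable_z hm hc).indicator (A k)).tsum_le_tsum
      (fun n => Set.indicator_le_self' (fun n _ => z_nonneg hc n) n) (summable_z hm hc)
  have hdiff : ∀ k, u 0 - σ 0 = (1 / 10) ^ k * (u k - σ k) := by
    intro k
    induction k with
    | zero => simp
    | succ k ih =>
      rw [ih, pow_succ]
      have h1 := hu k
      have h2 := hσ k
      have h3 : u k - σ k = (1 / 10) * (u (k + 1) - σ (k + 1)) := by linarith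
      rw [h3]; ring
  have hle : ∀ k : ℕ, |u 0 - σ 0| ≤ (1 / 10 : ℝ) ^ k * (M + T) := by
    intro k
    rw [hdiff k, abs_mul, abs_of_nonneg (by positivity : (0 : ℝ) ≤ (1 / 10) ^ k)]
    apply mul_le_mul_of_nonneg_left _ (by positivity)
    calc |u k - σ k| ≤ |u k| + |σ k| := abs_sub _ _
      _ ≤ M + T := add_le_add (hM _ (huK k)) (hσb k)
  have hlim : Filter.Tendsto (fun k : ℕ => (1 / 10 : ℝ) ^ k * (M + T)) Filter.atTop (𝓝 (0 * (M + T))) :=
    (tendsto_pow_atTop_nhds_zero_of_lt_one (by norm_num) (by norm_num)).mul_const _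
  rw [zero_mul] at hlim
  have h0 : |u 0 - σ 0| ≤ 0 := ge_of_tendsto' hlim hle
  have h1 : u 0 = σ 0 := by
    have := abs_nonpos_iff.1 h0
    linarith
  exact ⟨A 0, h1⟩

/-- block of the Cantor set -/
def cx (j : ℕ) : ℝ := if j = 0 then 770 else 130

/-- block of the achieving sequence -/
def cy (j : ℕ) : ℝ := if j = 0 then 303 else if j = 1 then 260 else if j = 2 then 207 else 130

lemma cx_pos (j : ℕ) : 0 < cx j := by unfold cx; split_ifs <;> norm_num
lemma cy_pos (j : ℕ) : 0 < cy j := by unfold cy; split_ifs <;> norm_num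
lemma cx_nn (j : ℕ) : 0 ≤ cx j := (cx_pos j).le
lemma cy_nn (j : ℕ) : 0 ≤ cy j := (cy_pos j).le

lemma sumx (B : Finset ℕ) : (∑ j ∈ Finset.range 2, if j ∈ B then cx j else 0) =
    (if 0 ∈ B then 770 else 0) + (if 1 ∈ B then 130 else 0) := by
  rw [Finset.sum_range_succ, Finset.sum_range_succ, Finset.sum_range_zero]
  simp [cx]

lemma sumy (B : Finset ℕ) : (∑ j ∈ Finset.range 4, if j ∈ B then cy j else 0) =
    (if 0 ∈ B then 303 else 0) + (if 1 ∈ B then 260 else 0) + (if 2 ∈ B then 207 else 0) +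
      (if 3 ∈ B then 130 else 0) := by
  rw [Finset.sum_range_succ, Finset.sum_range_succ, Finset.sum_range_succ, Finset.sum_range_succ,
    Finset.sum_range_zero]
  simp [cy]

/-- the Cantor set and the candidate achievement set -/
abbrev SX : Set ℝ := S 2 cx
abbrev SY : Set ℝ := S 4 cy

lemma zero_mem {m : ℕ} {c : ℕ → ℝ} : (0 : ℝ) ∈ S m c := ⟨∅, by simp⟩

lemma stepx {s : ℝ} (hs : s ∈ SX) : ∃ s' ∈ SX,
    s = (1 / 10) * s' ∨ s = 130 + (1 / 10) * s' ∨ s = 770 + (1 / 10) * s' ∨ s = 900 + (1 / 10) * s' := by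
  obtain ⟨B, s', hs', h⟩ := mem_step (by norm_num) cx_nn hs
  refine ⟨s', hs', ?_⟩
  rw [sumx] at h
  by_cases h0 : 0 ∈ B <;> by_cases h1 : 1 ∈ B <;> simp only [h0, h1, if_true, if_false] at h
  · right; right; right; rw [h]; ring
  · right; right; left; rw [h]; ring
  · right; left; rw [h]; ring
  · left; rw [h]; ring

lemma memx0 {s : ℝ} (hs : s ∈ SX) : (1 / 10) * s ∈ SX := by
  have := step_mem (by norm_num) cx_nn ∅ hs
  rw [sumx] at this
  simpa using this

lemma memx1 {s : ℝ} (hs : s ∈ SX) : 130 + (1 / 10) * s ∈ SX := by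
  have := step_mem (by norm_num) cx_nn {1} hs
  rw [sumx] at this
  simpa using this

lemma memx2 {s : ℝ} (hs : s ∈ SX) : 770 + (1 / 10) * s ∈ SX := by
  have := step_mem (by norm_num) cx_nn {0} hs
  rw [sumx] at this
  simpa using this

lemma memx3 {s : ℝ} (hs : s ∈ SX) : 900 + (1 / 10) * s ∈ SX := by
  have := step_mem (by norm_num) cx_nn {0, 1} hs
  rw [sumx] at this
  norm_num at this
  simpa using this

lemma memy0 {s : ℝ} (hs : s ∈ SY) : (1 / 10) * s ∈ SY := by
  have := step_mem (by norm_num) cy_nn ∅ hs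
  rw [sumy] at this
  simpa using this

lemma memy1 {s : ℝ} (hs : s ∈ SY) : 130 + (1 / 10) * s ∈ SY := by
  have := step_mem (by norm_num) cy_nn {3} hs
  rw [sumy] at this
  simpa using this

lemma memy2 {s : ℝ} (hs : s ∈ SY) : 770 + (1 / 10) * s ∈ SY := by
  have := step_mem (by norm_num) cy_nn {0, 1, 2} hs
  rw [sumy] at this
  norm_num at this
  simpa using this

lemma memy3 {s : ℝ} (hs : s ∈ SY) : 900 + (1 / 10) * s ∈ SY := by
  have := step_mem (by norm_num) cy_nn {0, 1, 2, 3} hs
  rw [sumy] at this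
  norm_num at this
  simpa using this

lemma tot {m : ℕ} (hm : 0 < m) {c : ℕ → ℝ} (hc : ∀ j, 0 ≤ c j) :
    ∑' n, z m c n = (∑ j ∈ Finset.range m, c j) + (1 / 10) * ∑' n, z m c n := by
  have := block hm hc Set.univ
  simpa using this

lemma totx : ∑' n, z 2 cx n = 1000 := by
  have := tot (m := 2) (by norm_num) cx_nn
  rw [Finset.sum_range_succ, Finset.sum_range_succ, Finset.sum_range_zero] at this
  simp only [cx] at this
  norm_num at this
  linarith

lemma toty : ∑' n, z 4 cy n = 1000 := by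
  have := tot (m := 4) (by norm_num) cy_nn
  rw [Finset.sum_range_succ, Finset.sum_range_succ, Finset.sum_range_succ, Finset.sum_range_succ,
    Finset.sum_range_zero] at this
  simp only [cy] at this
  norm_num at this
  linarith

lemma bounds {m : ℕ} (hm : 0 < m) {c : ℕ → ℝ} (hc : ∀ j, 0 ≤ c j) {s : ℝ} (hs : s ∈ S m c) :
    0 ≤ s ∧ s ≤ ∑' n, z m c n := by
  obtain ⟨A, rfl⟩ := hs
  constructor
  · exact tsum_nonneg fun n => Set.indicator_nonneg (fun n _ => z_nonneg hc n) n
  · exact ((summable_z hm hc).indicator A).tsum_le_tsum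
      (fun n => Set.indicator_le_self' (fun n _ => z_nonneg hc n) n) (summable_z hm hc)

lemma compl_mem {m : ℕ} (hm : 0 < m) {c : ℕ → ℝ} (hc : ∀ j, 0 ≤ c j) {s : ℝ} (hs : s ∈ S m c) :
    (∑' n, z m c n) - s ∈ S m c := by
  obtain ⟨A, rfl⟩ := hs
  refine ⟨Aᶜ, ?_⟩
  rw [sub_eq_iff_eq_add, ← ((summable_z hm hc).indicator _).tsum_add ((summable_z hm hc).indicator _)]
  apply tsum_congr
  intro n
  have := congrFun (Set.indicator_compl_add_self A (z m c)) n
  rw [← this]; rfl

lemma by_bounds {s : ℝ} (hs : s ∈ SY) : 0 ≤ s ∧ s ≤ 1000 := by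
  have := bounds (by norm_num) cy_nn hs
  rwa [toty] at this

lemma bx_bounds {s : ℝ} (hs : s ∈ SX) : 0 ≤ s ∧ s ≤ 1000 := by
  have := bounds (by norm_num) cx_nn hs
  rwa [totx] at this

lemma sx_sub_sy : SX ⊆ SY := by
  apply coind (by norm_num) cy_nn _ 1000
  · intro t ht
    have := bx_bounds ht
    rw [abs_of_nonneg this.1]; exact this.2
  · intro t ht
    obtain ⟨s', hs', h | h | h | h⟩ := stepx ht
    · exact ⟨∅, s', hs', by rw [sumy]; simpa using h⟩
    · exact ⟨{3}, s', hs', by rw [sumy]; simpa using h⟩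
    · refine ⟨{0, 1, 2}, s', hs', ?_⟩
      rw [sumy, h]
      norm_num
    · refine ⟨{0, 1, 2, 3}, s', hs', ?_⟩
      rw [sumy, h]
      norm_num

lemma icc_sub_sy : Set.Icc (230 : ℝ) 770 ⊆ SY := by
  apply coind (by norm_num) cy_nn _ 770
  · intro t ht
    rw [abs_of_nonneg (by linarith [ht.1])]; exact ht.2
  · intro t ht
    obtain ⟨h1, h2⟩ := ht
    have key : ∀ (B : Finset ℕ) (f : ℝ), (∑ j ∈ Finset.range 4, if j ∈ B then cy j else 0) = f →
        f + 23 ≤ t → t ≤ f + 77 → ∃ B : Finset ℕ, ∃ t' ∈ Set.Icc (230 : ℝ) 770,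
          t = (∑ j ∈ Finset.range 4, if j ∈ B then cy j else 0) + (1 / 10) * t' := by
      intro B f hf h3 h4
      refine ⟨B, 10 * (t - f), ⟨by linarith, by linarith⟩, ?_⟩
      rw [hf]; ring
    rcases le_total t 284 with h | h
    · exact key {2} 207 (by rw [sumy]; norm_num) (by linarith) (by linarith)
    rcases le_total t 337 with h' | h'
    · exact key {1} 260 (by rw [sumy]; norm_num) (by linarith) (by linarith)
    rcases le_total t 380 with h | h
    · exact key {0} 303 (by rw [sumy]; norm_num) (by linarith) (by linarith)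
    rcases le_total t 414 with h' | h'
    · exact key {2, 3} 337 (by rw [sumy]; norm_num) (by linarith) (by linarith)
    rcases le_total t 467 with h | h
    · exact key {1, 3} 390 (by rw [sumy]; norm_num) (by linarith) (by linarith)
    rcases le_total t 510 with h' | h'
    · exact key {0, 3} 433 (by rw [sumy]; norm_num) (by linarith) (by linarith)
    rcases le_total t 544 with h | h
    · exact key {1, 2} 467 (by rw [sumy]; norm_num) (by linarith) (by linarith)
    rcases le_total t 587 with h' | h'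
    · exact key {0, 2} 510 (by rw [sumy]; norm_num) (by linarith) (by linarith)
    rcases le_total t 640 with h | h
    · exact key {0, 1} 563 (by rw [sumy]; norm_num) (by linarith) (by linarith)
    rcases le_total t 674 with h' | h'
    · exact key {1, 2, 3} 597 (by rw [sumy]; norm_num) (by linarith) (by linarith)
    rcases le_total t 717 with h | h
    · exact key {0, 2, 3} 640 (by rw [sumy]; norm_num) (by linarith) (by linarith)
    · exact key {0, 1, 3} 693 (by rw [sumy]; norm_num) (by linarith) (by linarith)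

/-- the sixteen cases of a step in `SY` -/
lemma stepy {s : ℝ} (hs : s ∈ SY) : ∃ s' ∈ SY,
    s = (1 / 10) * s' ∨ s = 130 + (1 / 10) * s' ∨ s = 770 + (1 / 10) * s' ∨ s = 900 + (1 / 10) * s' ∨
    s = 207 + (1 / 10) * s' ∨ s = 693 + (1 / 10) * s' ∨
      (∃ f : ℝ, 230 ≤ f ∧ f ≤ 670 ∧ s = f + (1 / 10) * s') := by
  obtain ⟨B, s', hs', h⟩ := mem_step (by norm_num) cy_nn hs
  refine ⟨s', hs', ?_⟩
  rw [sumy] at h
  by_cases h0 : 0 ∈ B <;> by_cases h1 : 1 ∈ B <;> by_cases h2 : 2 ∈ B <;> by_cases h3 : 3 ∈ B <;>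
    simp only [h0, h1, h2, h3, if_true, if_false] at h
  · right; right; right; left; rw [h]; ring
  · right; right; left; rw [h]; ring
  · right; right; right; right; right; left; rw [h]; ring
  · right; right; right; right; right; right; exact ⟨_, by norm_num, by norm_num, h⟩
  · right; right; right; right; right; right; exact ⟨_, by norm_num, by norm_num, h⟩
  · right; right; right; right; right; right; exact ⟨_, by norm_num, by norm_num, h⟩
  · right; right; right; right; right; right; exact ⟨_, by norm_num, by norm_num, h⟩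
  · right; right; right; right; right; right; exact ⟨_, by norm_num, by norm_num, h⟩
  · right; right; right; right; right; right; exact ⟨_, by norm_num, by norm_num, h⟩
  · right; right; right; right; right; right; exact ⟨_, by norm_num, by norm_num, h⟩
  · right; right; right; right; right; right; exact ⟨_, by norm_num, by norm_num, h⟩
  · right; right; right; right; right; right; exact ⟨_, by norm_num, by norm_num, h⟩
  · right; right; right; right; right; right; exact ⟨_, by norm_num, by norm_num, h⟩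
  · right; right; right; right; left; rw [h]; ring
  · right; left; rw [h]; ring
  · left; rw [h]; ring

lemma shift_mem : ∀ n : ℕ, ∀ s ∈ SY, s < 230 - (1 / 10) ^ n * 230 → 770 + s ∈ SY := by
  intro n
  induction n with
  | zero =>
    intro s hs h
    have := by_bounds hs
    norm_num at h
    linarith
  | succ n ih =>
    intro s hs h
    have hp : (0 : ℝ) < (1 / 10) ^ (n + 1) := by positivity
    obtain ⟨s', hs', h'⟩ := stepy hs
    have hb := by_bounds hs'
    rcases h' with h' | h' | h' | h' | h' | h' | ⟨f, hf1, hf2, h'⟩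
    · rw [h']; exact memy2 hs'
    · rw [h']
      have : (770 : ℝ) + (130 + 1 / 10 * s') = 900 + 1 / 10 * s' := by ring
      rw [this]; exact memy3 hs'
    · linarith
    · linarith
    · have h3 : s' < 230 - (1 / 10) ^ n * 230 := by
        rw [pow_succ] at h
        linarith
      have h4 := ih s' hs' h3
      rw [h']
      have : (770 : ℝ) + (207 + 1 / 10 * s') = 900 + 1 / 10 * (770 + s') := by ring
      rw [this]; exact memy3 h4
    · linarith
    · linarith

lemma shift_mem' {s : ℝ} (hs : s ∈ SY) (h : s < 230) : 770 + s ∈ SY := by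
  have hlim : Filter.Tendsto (fun n : ℕ => 230 - (1 / 10 : ℝ) ^ n * 230) Filter.atTop
      (𝓝 (230 - 0 * 230)) :=
    tendsto_const_nhds.sub
      ((tendsto_pow_atTop_nhds_zero_of_lt_one (by norm_num) (by norm_num)).mul_const _)
  have h1 : ∀ᶠ n : ℕ in Filter.atTop, s < 230 - (1 / 10 : ℝ) ^ n * 230 :=
    hlim.eventually_const_lt (by linarith)
  obtain ⟨n, hn⟩ := h1.exists
  exact shift_mem n s hs hn

lemma sy_main {s : ℝ} (hs : s ∈ SY) : (230 ≤ s ∧ s ≤ 770) ∨ ∃ s' ∈ SY,
    s = (1 / 10) * s' ∨ s = 130 + (1 / 10) * s' ∨ s = 770 + (1 / 10) * s' ∨ s = 900 + (1 / 10) * s' := by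
  obtain ⟨s', hs', h'⟩ := stepy hs
  have hb := by_bounds hs'
  rcases h' with h' | h' | h' | h' | h' | h' | ⟨f, hf1, hf2, h'⟩
  · exact Or.inr ⟨s', hs', Or.inl h'⟩
  · exact Or.inr ⟨s', hs', Or.inr (Or.inl h')⟩
  · exact Or.inr ⟨s', hs', Or.inr (Or.inr (Or.inl h'))⟩
  · exact Or.inr ⟨s', hs', Or.inr (Or.inr (Or.inr h'))⟩
  · rcases lt_or_ge s' 230 with h | h
    · right
      refine ⟨770 + s', shift_mem' hs' h, Or.inr (Or.inl ?_)⟩
      rw [h']; ring
    · left; constructor <;> linarith
  · rcases le_or_gt s' 770 with h | h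
    · left; constructor <;> linarith
    · right
      have h1 : 1000 - s' ∈ SY := by
        have := compl_mem (by norm_num) cy_nn hs'
        rwa [toty] at this
      have h2 : 770 + (1000 - s') ∈ SY := shift_mem' h1 (by linarith)
      have h3 : 1000 - (770 + (1000 - s')) ∈ SY := by
        have := compl_mem (by norm_num) cy_nn h2
        rwa [toty] at this
      refine ⟨_, h3, Or.inr (Or.inr (Or.inl ?_))⟩
      rw [h']; ring
  · left; constructor <;> linarith

/-- the tails of `x` -/
lemma tail_rec (n : ℕ) : ∑' k, z 2 cx (n + 2 + 1 + k) = (1 / 10) * ∑' k, z 2 cx (n + 1 + k) := by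
  rw [← tsum_mul_left]
  apply tsum_congr
  intro k
  rw [← z_add (by norm_num)]
  congr 1; ring

lemma tail_zero : ∑' k, z 2 cx (0 + 1 + k) = 230 := by
  have h := (summable_z (m := 2) (by norm_num) cx_nn).sum_add_tsum_nat_add 1
  rw [totx] at h
  have h1 : ∑' k, z 2 cx (0 + 1 + k) = ∑' k, z 2 cx (k + 1) := by
    apply tsum_congr; intro k; congr 1; ring
  rw [h1]
  have h2 : cx 0 = 770 := by simp [cx]
  rw [Finset.sum_range_one, z_lt cx (by norm_num : 0 < 2), h2] at h
  linarith

lemma tail_one : ∑' k, z 2 cx (1 + 1 + k) = 100 := by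
  have h := (summable_z (m := 2) (by norm_num) cx_nn).sum_add_tsum_nat_add 2
  rw [totx] at h
  have h1 : ∑' k, z 2 cx (1 + 1 + k) = ∑' k, z 2 cx (k + 2) := by
    apply tsum_congr; intro k; congr 1; ring
  rw [h1]
  have h2 : cx 0 = 770 := by simp [cx]
  have h3 : cx 1 = 130 := by simp [cx]
  rw [Finset.sum_range_succ, Finset.sum_range_one, z_lt cx (by norm_num : 0 < 2),
    z_lt cx (by norm_num : 1 < 2), h2, h3] at h
  linarith

lemma fast : ∀ n, ∑' k, z 2 cx (n + 1 + k) < z 2 cx n
  | 0 => by rw [tail_zero]; simp [z, cx]; norm_num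
  | 1 => by rw [tail_one]; simp [z, cx]; norm_num
  | n + 2 => by
    rw [tail_rec, z_add (by norm_num)]
    have := fast n
    linarith

/-- the filled gaps -/
def G : Set ℝ := {t : ℝ | ∃ n : ℕ, Even n ∧ ∃ F : Finset ℕ, F ⊆ Finset.range n ∧
              (∑ i ∈ F, z 2 cx i) + (∑' k, z 2 cx (n + 1 + k)) < t ∧
              t < (∑ i ∈ F, z 2 cx i) + z 2 cx n}

lemma sum_lift (B F : Finset ℕ) (hB : B ⊆ Finset.range 2) :
    ∑ i ∈ B ∪ F.map (addRightEmbedding 2), z 2 cx i =
      ∑ j ∈ B, cx j + (1 / 10) * ∑ i ∈ F, z 2 cx i := by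
  rw [Finset.sum_union]
  · congr 1
    · apply Finset.sum_congr rfl
      intro j hj
      exact z_lt cx (Finset.mem_range.1 (hB hj))
    · rw [Finset.sum_map, Finset.mul_sum]
      apply Finset.sum_congr rfl
      intro i _
      exact z_add (by norm_num) cx i
  · rw [Finset.disjoint_left]
    intro j hj hj'
    rw [Finset.mem_map] at hj'
    obtain ⟨i, _, rfl⟩ := hj'
    have := Finset.mem_range.1 (hB hj)
    simp at this

lemma g_lift {t : ℝ} (ht : t ∈ G) (B : Finset ℕ) (hB : B ⊆ Finset.range 2) (d : ℝ)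
    (hd : ∑ j ∈ B, cx j = d) : d + (1 / 10) * t ∈ G := by
  obtain ⟨n, hn, F, hF, h1, h2⟩ := ht
  refine ⟨n + 2, hn.add (by decide), B ∪ F.map (addRightEmbedding 2), ?_, ?_, ?_⟩
  · intro i hi
    rw [Finset.mem_union] at hi
    rcases hi with hi | hi
    · have := Finset.mem_range.1 (hB hi)
      rw [Finset.mem_range]; omega
    · rw [Finset.mem_map] at hi
      obtain ⟨j, hj, rfl⟩ := hi
      have := Finset.mem_range.1 (hF hj)
      rw [Finset.mem_range]
      simp; omega
  · rw [sum_lift B F hB, tail_rec, hd]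
    linarith
  · rw [sum_lift B F hB, z_add (by norm_num), hd]
    linarith

/-- the adjoint Cantorval -/
def W : Set ℝ := SX ∪ G

lemma w0 {t : ℝ} (ht : t ∈ W) : (1 / 10) * t ∈ W := by
  rcases ht with h | h
  · exact Or.inl (memx0 h)
  · right
    have := g_lift h ∅ (by simp) 0 (by simp)
    simpa using this

lemma w1 {t : ℝ} (ht : t ∈ W) : 130 + (1 / 10) * t ∈ W := by
  rcases ht with h | h
  · exact Or.inl (memx1 h)
  · right
    exact g_lift h {1} (by simp) 130 (by simp [cx])

lemma w2 {t : ℝ} (ht : t ∈ W) : 770 + (1 / 10) * t ∈ W := by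
  rcases ht with h | h
  · exact Or.inl (memx2 h)
  · right
    exact g_lift h {0} (by simp) 770 (by simp [cx])

lemma w3 {t : ℝ} (ht : t ∈ W) : 900 + (1 / 10) * t ∈ W := by
  rcases ht with h | h
  · exact Or.inl (memx3 h)
  · right
    refine g_lift h {0, 1} ?_ 900 ?_
    · decide
    · rw [Finset.sum_pair (by norm_num)]; simp [cx]; norm_num

lemma icc_sub_w {t : ℝ} (h1 : 230 ≤ t) (h2 : t ≤ 770) : t ∈ W := by
  rcases h1.eq_or_lt with h | h
  · left
    have : (1000 : ℝ) ∈ SX := ⟨Set.univ, by rw [Set.indicator_univ, totx]⟩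
    have h3 := memx1 this
    rw [← h]; norm_num at h3; exact h3
  rcases h2.eq_or_lt with h' | h'
  · left
    have h3 := memx2 (zero_mem (m := 2) (c := cx))
    rw [h']; norm_num at h3; exact h3
  right
  refine ⟨0, by decide, ∅, by simp, ?_, ?_⟩
  · rw [tail_zero]; simpa using h
  · simp [z, cx]; exact h'

lemma sy_sub_w : SY ⊆ W := by
  intro t ht
  by_contra hW
  have hK : (SY \ W) ⊆ SX := by
    apply coind (by norm_num) cx_nn _ 1000
    · intro t ht
      have := by_bounds ht.1
      rw [abs_of_nonneg this.1]; exact this.2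
    · intro t ht
      obtain ⟨h1, h2⟩ := ht
      rcases sy_main h1 with h | ⟨s', hs', h | h | h | h⟩
      · exact absurd (icc_sub_w h.1 h.2) h2
      · refine ⟨∅, s', ⟨hs', fun hw => h2 (h ▸ w0 hw)⟩, ?_⟩
        rw [sumx]; simpa using h
      · refine ⟨{1}, s', ⟨hs', fun hw => h2 (h ▸ w1 hw)⟩, ?_⟩
        rw [sumx]; simpa using h
      · refine ⟨{0}, s', ⟨hs', fun hw => h2 (h ▸ w2 hw)⟩, ?_⟩
        rw [sumx]; simpa using h
      · refine ⟨{0, 1}, s', ⟨hs', fun hw => h2 (h ▸ w3 hw)⟩, ?_⟩
        rw [sumx, h]; norm_num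
  exact hW (Or.inl (hK ⟨ht, hW⟩))

lemma g_sub_sy : ∀ i : ℕ, ∀ F : Finset ℕ, F ⊆ Finset.range (2 * i) → ∀ t : ℝ,
    (∑ i ∈ F, z 2 cx i) + (∑' k, z 2 cx (2 * i + 1 + k)) < t →
    t < (∑ i ∈ F, z 2 cx i) + z 2 cx (2 * i) → t ∈ SY := by
  intro i
  induction i with
  | zero =>
    intro F hF t h1 h2
    have : F = ∅ := by simpa using hF
    subst this
    simp only [Finset.sum_empty, zero_add, mul_zero] at h1 h2
    have h3 := tail_zero
    simp only [zero_add] at h3
    rw [h3] at h1
    simp [z, cx] at h2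
    exact icc_sub_sy ⟨h1.le, h2.le⟩
  | succ i ih =>
    intro F hF t h1 h2
    set B := F.filter (· < 2) with hB
    set F' := (Finset.range (2 * i)).filter (fun j => j + 2 ∈ F) with hF'
    have hFe : F = B ∪ F'.map (addRightEmbedding 2) := by
      ext j
      simp only [hB, hF', Finset.mem_union, Finset.mem_filter, Finset.mem_map,
        addRightEmbedding_apply, Finset.mem_range]
      constructor
      · intro hj
        rcases lt_or_ge j 2 with h | h
        · exact Or.inl ⟨hj, h⟩
        · right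
          have := Finset.mem_range.1 (hF hj)
          refine ⟨j - 2, ⟨by omega, ?_⟩, by omega⟩
          rwa [Nat.sub_add_cancel h]
      · rintro (⟨h, _⟩ | ⟨k, ⟨_, hk⟩, rfl⟩)
        · exact h
        · exact hk
    have hB2 : B ⊆ Finset.range 2 := by
      intro j hj
      rw [hB, Finset.mem_filter] at hj
      exact Finset.mem_range.2 hj.2
    have hs : ∑ i ∈ F, z 2 cx i = ∑ j ∈ B, cx j + (1 / 10) * ∑ i ∈ F', z 2 cx i := by
      rw [hFe]; exact sum_lift B F' hB2
    have e1 : 2 * (i + 1) = 2 * i + 2 := by ring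
    rw [hs, e1, tail_rec] at h1
    rw [hs, e1, z_add (by norm_num)] at h2
    have h3 : 10 * (t - ∑ j ∈ B, cx j) ∈ SY := by
      apply ih F' (Finset.filter_subset _ _)
      · linarith
      · linarith
    have h4 : (∑ j ∈ Finset.range 2, if j ∈ B then cx j else 0) = ∑ j ∈ B, cx j := by
      rw [← Finset.sum_filter]
      apply Finset.sum_congr _ (fun _ _ => rfl)
      ext j
      simp only [Finset.mem_filter, Finset.mem_range]
      exact ⟨fun h => h.2, fun h => ⟨Finset.mem_range.1 (hB2 h), h⟩⟩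
    rw [sumx] at h4
    have h5 : t = ∑ j ∈ B, cx j + (1 / 10) * (10 * (t - ∑ j ∈ B, cx j)) := by ring
    rw [h5]
    set v := 10 * (t - ∑ j ∈ B, cx j) with hv
    rw [← h4]
    by_cases h0 : 0 ∈ B <;> by_cases h1 : 1 ∈ B <;> simp only [h0, h1, if_true, if_false]
    · have := memy3 h3; norm_num at this ⊢; exact this
    · have := memy2 h3; norm_num at this ⊢; exact this
    · have := memy1 h3; norm_num at this ⊢; exact this
    · have := memy0 h3; norm_num at this ⊢; exact this

/-- There is a positive summable x with each term exceeding its tail sum, such that the set of all its subsums together with the gaps removed at odd construction steps equals the set of all subsums of some positive summable sequence. -/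
theorem result :
    ∃ x : ℕ → ℝ, (∀ n, 0 < x n) ∧ Summable x ∧
      (∀ n, ∑' k, x (n + 1 + k) < x n) ∧
      ∃ y : ℕ → ℝ, (∀ n, 0 < y n) ∧ Summable y ∧
        {s : ℝ | ∃ A : Set ℕ, s = ∑' n, A.indicator y n} =
          {s : ℝ | ∃ A : Set ℕ, s = ∑' n, A.indicator x n} ∪
          {t : ℝ | ∃ n : ℕ, Even n ∧ ∃ F : Finset ℕ, F ⊆ Finset.range n ∧
              (∑ i ∈ F, x i) + (∑' k, x (n + 1 + k)) < t ∧
              t < (∑ i ∈ F, x i) + x n} := by
  refine ⟨z 2 cx, ?_, summable_z (by norm_num) cx_nn, fast, z 4 cy, ?_,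
    summable_z (by norm_num) cy_nn, ?_⟩
  · intro n; unfold z; exact mul_pos (cx_pos _) (by positivity)
  · intro n; unfold z; exact mul_pos (cy_pos _) (by positivity)
  · apply Set.Subset.antisymm
    · exact sy_sub_w
    · apply Set.union_subset
      · exact sx_sub_sy
      · rintro t ⟨n, hn, F, hF, h1, h2⟩
        obtain ⟨i, hi⟩ := hn
        have hi2 : n = 2 * i := by omega
        subst hi2
        exact g_sub_sy i F hF t h1 h2

end Pool.Agent.S03239
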