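import Pool.Statements.S03258
import Pool.Agent.Helper17.Volterra
import Pool.Agent.Helper17.HillEx
-- import your own Pool.Agent.* helpers here

set_option autoImplicit false
open Pool Pool.MP_5876d3_an

namespace Pool.Agent.S03258

open MeasureTheory Set Filter Topology Complex
open Pool.Agent.Helper17.Volterra Pool.Agent.Helper17.HillEx

noncomputable def Aop (t : ℝ) : (ℂ × ℂ) →L[ℂ] (ℂ × ℂ) :=
  (u1 t • ContinuousLinearMap.fst ℂ ℂ ℂ + u2 t • ContinuousLinearMap.snd ℂ ℂ ℂ).smulRight (u2 t, -u1 t)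

theorem Aop_apply (t : ℝ) (e : ℂ × ℂ) :
    Aop t e = ((u1 t * e.1 + u2 t * e.2) * u2 t, -((u1 t * e.1 + u2 t * e.2) * u1 t)) := by
  simp [Aop]

theorem bdd (f : ℝ → ℂ) (hf : Continuous f) (hp : ∀ x, f (x + 2 * Real.pi) = f x) :
    ∃ m : ℝ, ∀ t, ‖f t‖ ≤ m := by
  have h := Function.Periodic.isBounded_of_continuous (f := f) (c := 2 * Real.pi) hp
    (by positivity) hf
  obtain ⟨m, hm⟩ := h.exists_norm_le
  exact ⟨m, fun t => hm _ ⟨t, rfl⟩⟩

theorem exists_good : ∃ b, Good Aop b := by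
  obtain ⟨m1, h1⟩ := bdd u1 u1_cont u1_per
  obtain ⟨m2, h2⟩ := bdd u2 u2_cont u2_per
  have n1 : 0 ≤ m1 := (norm_nonneg _).trans (h1 0)
  have n2 : 0 ≤ m2 := (norm_nonneg _).trans (h2 0)
  refine ⟨(m1 + m2) * (m1 + m2), ?_, by positivity, ?_⟩
  · have c1 := u1_cont
    have c2 := u2_cont
    simp only [Aop_apply]
    fun_prop
  · intro t e
    rw [Aop_apply]
    have e1 : ‖e.1‖ ≤ ‖e‖ := norm_fst_le e
    have e2 : ‖e.2‖ ≤ ‖e‖ := norm_snd_le e
    have h3 : ‖u1 t * e.1 + u2 t * e.2‖ ≤ (m1 + m2) * ‖e‖ := by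
      calc ‖u1 t * e.1 + u2 t * e.2‖ ≤ ‖u1 t * e.1‖ + ‖u2 t * e.2‖ := norm_add_le _ _
        _ = ‖u1 t‖ * ‖e.1‖ + ‖u2 t‖ * ‖e.2‖ := by rw [norm_mul, norm_mul]
        _ ≤ m1 * ‖e‖ + m2 * ‖e‖ := by
            gcongr
            · exact h1 t
            · exact h2 t
        _ = _ := by ring
    have h4 : ‖u2 t‖ ≤ m1 + m2 := (h2 t).trans (by linarith)
    have h5 : ‖u1 t‖ ≤ m1 + m2 := (h1 t).trans (by linarith)
    rw [Prod.norm_def]
    apply max_le
    · rw [norm_mul]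
      calc _ ≤ ((m1 + m2) * ‖e‖) * (m1 + m2) := by gcongr
        _ = _ := by ring
    · rw [norm_neg, norm_mul]
      calc _ ≤ ((m1 + m2) * ‖e‖) * (m1 + m2) := by gcongr
        _ = _ := by ring

noncomputable def bb : ℝ := exists_good.choose
theorem good : Good Aop bb := exists_good.choose_spec

/-- interaction-picture solution with initial vector `e` -/
noncomputable def Ph (e : ℂ × ℂ) (w : ℂ) (x : ℝ) : ℂ × ℂ := Phi Aop e w x

noncomputable def Y (e : ℂ × ℂ) (w : ℂ) (x : ℝ) : ℂ := (Ph e w x).1 * u1 x + (Ph e w x).2 * u2 x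
noncomputable def D (e : ℂ × ℂ) (w : ℂ) (x : ℝ) : ℂ := (Ph e w x).1 * du1 x + (Ph e w x).2 * du2 x

theorem Ph_fst_deriv (e : ℂ × ℂ) (w : ℂ) (x : ℝ) :
    HasDerivAt (fun x => (Ph e w x).1) (w * (Y e w x * u2 x)) x := by
  have h := (ContinuousLinearMap.fst ℝ ℂ ℂ).hasFDerivAt.comp_hasDerivAt x (Phi_deriv good e w x)
  refine HasDerivAt.congr_deriv (f := fun x => (Ph e w x).1) h ?_
  simp [Aop_apply, Y, Ph]
  ring_nf
  tauto

theorem Ph_snd_deriv (e : ℂ × ℂ) (w : ℂ) (x : ℝ) :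
    HasDerivAt (fun x => (Ph e w x).2) (-(w * (Y e w x * u1 x))) x := by
  have h := (ContinuousLinearMap.snd ℝ ℂ ℂ).hasFDerivAt.comp_hasDerivAt x (Phi_deriv good e w x)
  refine HasDerivAt.congr_deriv (f := fun x => (Ph e w x).2) h ?_
  simp [Aop_apply, Y, Ph]
  ring_nf
  tauto

theorem Y_deriv (e : ℂ × ℂ) (w : ℂ) (x : ℝ) : HasDerivAt (Y e w) (D e w x) x := by
  have h := ((Ph_fst_deriv e w x).mul (u1_deriv x)).add ((Ph_snd_deriv e w x).mul (u2_deriv x))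
  refine HasDerivAt.congr_deriv (f := Y e w) h ?_
  unfold D
  ring

theorem D_deriv (e : ℂ × ℂ) (w : ℂ) (x : ℝ) : HasDerivAt (D e w) ((q x - w) * Y e w x) x := by
  have h := ((Ph_fst_deriv e w x).mul (du1_deriv x)).add ((Ph_snd_deriv e w x).mul (du2_deriv x))
  refine HasDerivAt.congr_deriv (f := D e w) h ?_
  have hw := wron x
  have hY : Y e w x = (Ph e w x).1 * u1 x + (Ph e w x).2 * u2 x := rfl
  linear_combination (-w * Y e w x) * hw - (q x) * hY

theorem Y_zero (e : ℂ × ℂ) (w : ℂ) : Y e w 0 = e.1 * u1 0 + e.2 * u2 0 := by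
  unfold Y Ph; rw [Phi_zero _ _ _ good]

theorem D_zero (e : ℂ × ℂ) (w : ℂ) : D e w 0 = e.1 * du1 0 + e.2 * du2 0 := by
  unfold D Ph; rw [Phi_zero _ _ _ good]

abbrev e1 : ℂ × ℂ := (1, 0)
abbrev e2 : ℂ × ℂ := (0, 1)

theorem Wr (w : ℂ) (x : ℝ) : Y e1 w x * D e2 w x - Y e2 w x * D e1 w x = 1 := by
  have h : ∀ x, HasDerivAt (fun x => Y e1 w x * D e2 w x - Y e2 w x * D e1 w x) 0 x := by
    intro x
    have h := ((Y_deriv e1 w x).mul (D_deriv e2 w x)).sub ((Y_deriv e2 w x).mul (D_deriv e1 w x))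
    refine HasDerivAt.congr_deriv (f := fun x => Y e1 w x * D e2 w x - Y e2 w x * D e1 w x) h ?_
    ring
  have h2 := is_const_of_deriv_eq_zero (f := fun x => Y e1 w x * D e2 w x - Y e2 w x * D e1 w x)
    (fun x => (h x).differentiableAt) (fun x => (h x).deriv) x 0
  rw [h2, Y_zero, Y_zero, D_zero, D_zero]
  have := wron 0
  simp only [e1, e2]
  linear_combination this

noncomputable def cc (x₀ : ℝ) (w : ℂ) (x : ℝ) : ℂ := Y e1 w x * D e2 w x₀ - Y e2 w x * D e1 w x₀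
noncomputable def dcc (x₀ : ℝ) (w : ℂ) (x : ℝ) : ℂ := D e1 w x * D e2 w x₀ - D e2 w x * D e1 w x₀
noncomputable def ss (x₀ : ℝ) (w : ℂ) (x : ℝ) : ℂ := Y e2 w x * Y e1 w x₀ - Y e1 w x * Y e2 w x₀
noncomputable def dss (x₀ : ℝ) (w : ℂ) (x : ℝ) : ℂ := D e2 w x * Y e1 w x₀ - D e1 w x * Y e2 w x₀

theorem Y_cont (e : ℂ × ℂ) (w : ℂ) : Continuous (Y e w) :=
  continuous_iff_continuousAt.2 fun x => (Y_deriv e w x).continuousAt
theorem D_cont (e : ℂ × ℂ) (w : ℂ) : Continuous (D e w) :=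
  continuous_iff_continuousAt.2 fun x => (D_deriv e w x).continuousAt

theorem sys (x₀ : ℝ) (z : ℂ) : Continuous (cc x₀ z) ∧ Continuous (dcc x₀ z) ∧
      Continuous (ss x₀ z) ∧ Continuous (dss x₀ z) ∧
      ∀ x : ℝ,
        (cc x₀ z x = 1 + ∫ t in x₀..x, dcc x₀ z t) ∧
        (dcc x₀ z x = ∫ t in x₀..x, (q t - z) * cc x₀ z t) ∧
        (ss x₀ z x = ∫ t in x₀..x, dss x₀ z t) ∧
        (dss x₀ z x = 1 + ∫ t in x₀..x, (q t - z) * ss x₀ z t) := by
  have hY1 := Y_cont e1 z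
  have hY2 := Y_cont e2 z
  have hD1 := D_cont e1 z
  have hD2 := D_cont e2 z
  have hq := q_cont
  have c1 : Continuous (cc x₀ z) := (hY1.mul continuous_const).sub (hY2.mul continuous_const)
  have c2 : Continuous (dcc x₀ z) := (hD1.mul continuous_const).sub (hD2.mul continuous_const)
  have c3 : Continuous (ss x₀ z) := (hY2.mul continuous_const).sub (hY1.mul continuous_const)
  have c4 : Continuous (dss x₀ z) := (hD2.mul continuous_const).sub (hD1.mul continuous_const)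
  have hW := Wr z x₀
  refine ⟨c1, c2, c3, c4, fun x => ⟨?_, ?_, ?_, ?_⟩⟩
  · have : ∀ t ∈ uIcc x₀ x, HasDerivAt (cc x₀ z) (dcc x₀ z t) t := by
      intro t _
      exact ((Y_deriv e1 z t).mul_const _).sub ((Y_deriv e2 z t).mul_const _)
    rw [intervalIntegral.integral_eq_sub_of_hasDerivAt this (c2.intervalIntegrable _ _)]
    have : cc x₀ z x₀ = 1 := hW
    rw [this]; ring
  · have : ∀ t ∈ uIcc x₀ x, HasDerivAt (dcc x₀ z) ((q t - z) * cc x₀ z t) t := by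
      intro t _
      have h := ((D_deriv e1 z t).mul_const (D e2 z x₀)).sub ((D_deriv e2 z t).mul_const (D e1 z x₀))
      refine HasDerivAt.congr_deriv (f := dcc x₀ z) h ?_
      unfold cc; ring
    rw [intervalIntegral.integral_eq_sub_of_hasDerivAt this (Continuous.intervalIntegrable (by fun_prop) _ _)]
    have : dcc x₀ z x₀ = 0 := by unfold dcc; ring
    rw [this]; ring
  · have : ∀ t ∈ uIcc x₀ x, HasDerivAt (ss x₀ z) (dss x₀ z t) t := by
      intro t _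
      exact ((Y_deriv e2 z t).mul_const _).sub ((Y_deriv e1 z t).mul_const _)
    rw [intervalIntegral.integral_eq_sub_of_hasDerivAt this (c4.intervalIntegrable _ _)]
    have : ss x₀ z x₀ = 0 := by unfold ss; ring
    rw [this]; ring
  · have : ∀ t ∈ uIcc x₀ x, HasDerivAt (dss x₀ z) ((q t - z) * ss x₀ z t) t := by
      intro t _
      have h := ((D_deriv e2 z t).mul_const (Y e1 z x₀)).sub ((D_deriv e1 z t).mul_const (Y e2 z x₀))
      refine HasDerivAt.congr_deriv (f := dss x₀ z) h ?_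
      unfold ss; ring
    rw [intervalIntegral.integral_eq_sub_of_hasDerivAt this (Continuous.intervalIntegrable (by fun_prop) _ _)]
    have : dss x₀ z x₀ = 1 := by unfold dss; linear_combination hW
    rw [this]; ring

/-! ### dependence on `w` near `0` -/

noncomputable def F11 (x : ℝ) : ℂ := ∫ t in (0:ℝ)..x, u1 t ^ 2
noncomputable def F12 (x : ℝ) : ℂ := ∫ t in (0:ℝ)..x, u1 t * u2 t
noncomputable def F22 (x : ℝ) : ℂ := ∫ t in (0:ℝ)..x, u2 t * u2 t

theorem Ph_w0 (e : ℂ × ℂ) (x : ℝ) : Ph e 0 x = e := Phi_w0 _ _ _ good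

theorem Ph_fst_an (e : ℂ × ℂ) (x : ℝ) : AnalyticAt ℂ (fun w => (Ph e w x).1) 0 :=
  analyticAt_fst.comp (Phi_analytic good e x)
theorem Ph_snd_an (e : ℂ × ℂ) (x : ℝ) : AnalyticAt ℂ (fun w => (Ph e w x).2) 0 :=
  analyticAt_snd.comp (Phi_analytic good e x)

theorem Aint (e : ℂ × ℂ) (x : ℝ) : IntervalIntegrable (fun t => Aop t e) volume 0 x :=
  (good.cont.comp (continuous_id.prodMk continuous_const)).intervalIntegrable _ _

theorem Ph_fst_w (e : ℂ × ℂ) (x : ℝ) :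
    HasDerivAt (fun w => (Ph e w x).1) (∫ t in (0:ℝ)..x, (Aop t e).1) 0 := by
  have h := (ContinuousLinearMap.fst ℂ ℂ ℂ).hasFDerivAt.comp_hasDerivAt 0 (Phi_wderiv good e x)
  refine HasDerivAt.congr_deriv (f := fun w => (Ph e w x).1) h ?_
  exact ((ContinuousLinearMap.fst ℂ ℂ ℂ).intervalIntegral_comp_comm (Aint e x)).symm

theorem Ph_snd_w (e : ℂ × ℂ) (x : ℝ) :
    HasDerivAt (fun w => (Ph e w x).2) (∫ t in (0:ℝ)..x, (Aop t e).2) 0 := by
  have h := (ContinuousLinearMap.snd ℂ ℂ ℂ).hasFDerivAt.comp_hasDerivAt 0 (Phi_wderiv good e x)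
  refine HasDerivAt.congr_deriv (f := fun w => (Ph e w x).2) h ?_
  exact ((ContinuousLinearMap.snd ℂ ℂ ℂ).intervalIntegral_comp_comm (Aint e x)).symm

theorem a1_w (x : ℝ) : HasDerivAt (fun w => (Ph e1 w x).1) (F12 x) 0 := by
  refine (Ph_fst_w e1 x).congr_deriv ?_
  simp [Aop_apply, F12]
theorem b1_w (x : ℝ) : HasDerivAt (fun w => (Ph e1 w x).2) (-F11 x) 0 := by
  refine (Ph_snd_w e1 x).congr_deriv ?_
  simp [Aop_apply, F11, pow_two]
theorem a2_w (x : ℝ) : HasDerivAt (fun w => (Ph e2 w x).1) (F22 x) 0 := by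
  refine (Ph_fst_w e2 x).congr_deriv ?_
  simp [Aop_apply, F22]
theorem b2_w (x : ℝ) : HasDerivAt (fun w => (Ph e2 w x).2) (-F12 x) 0 := by
  refine (Ph_snd_w e2 x).congr_deriv ?_
  simp [Aop_apply, F12, mul_comm]

theorem Y1_w (x : ℝ) : HasDerivAt (fun w => Y e1 w x) (F12 x * u1 x - F11 x * u2 x) 0 := by
  have h := ((a1_w x).mul_const (u1 x)).add ((b1_w x).mul_const (u2 x))
  refine HasDerivAt.congr_deriv (f := fun w => Y e1 w x) h ?_
  ring
theorem Y2_w (x : ℝ) : HasDerivAt (fun w => Y e2 w x) (F22 x * u1 x - F12 x * u2 x) 0 := by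
  have h := ((a2_w x).mul_const (u1 x)).add ((b2_w x).mul_const (u2 x))
  refine HasDerivAt.congr_deriv (f := fun w => Y e2 w x) h ?_
  ring
theorem D1_w (x : ℝ) : HasDerivAt (fun w => D e1 w x) (F12 x * du1 x - F11 x * du2 x) 0 := by
  have h := ((a1_w x).mul_const (du1 x)).add ((b1_w x).mul_const (du2 x))
  refine HasDerivAt.congr_deriv (f := fun w => D e1 w x) h ?_
  ring
theorem D2_w (x : ℝ) : HasDerivAt (fun w => D e2 w x) (F22 x * du1 x - F12 x * du2 x) 0 := by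
  have h := ((a2_w x).mul_const (du1 x)).add ((b2_w x).mul_const (du2 x))
  refine HasDerivAt.congr_deriv (f := fun w => D e2 w x) h ?_
  ring

theorem Y_an (e : ℂ × ℂ) (x : ℝ) : AnalyticAt ℂ (fun w => Y e w x) 0 :=
  ((Ph_fst_an e x).mul analyticAt_const).add ((Ph_snd_an e x).mul analyticAt_const)
theorem D_an (e : ℂ × ℂ) (x : ℝ) : AnalyticAt ℂ (fun w => D e w x) 0 :=
  ((Ph_fst_an e x).mul analyticAt_const).add ((Ph_snd_an e x).mul analyticAt_const)

theorem Y1_0 (x : ℝ) : Y e1 0 x = u1 x := by simp [Y, Ph_w0]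
theorem Y2_0 (x : ℝ) : Y e2 0 x = u2 x := by simp [Y, Ph_w0]
theorem D1_0 (x : ℝ) : D e1 0 x = du1 x := by simp [D, Ph_w0]
theorem D2_0 (x : ℝ) : D e2 0 x = du2 x := by simp [D, Ph_w0]

theorem F11_per (x : ℝ) : F11 (x + 2 * Real.pi) = F11 x := by
  have h := intervalIntegral.integral_add_adjacent_intervals (μ := volume) (f := fun t => u1 t ^ 2)
    (a := 0) (b := x) (c := x + 2 * Real.pi)
    ((u1_cont.pow 2).intervalIntegrable _ _) ((u1_cont.pow 2).intervalIntegrable _ _)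
  rw [int_u1_sq] at h
  unfold F11
  rw [← h, add_zero]

theorem F12_per (x : ℝ) : F12 (x + 2 * Real.pi) = F12 x := by
  have h := intervalIntegral.integral_add_adjacent_intervals (μ := volume) (f := fun t => u1 t * u2 t)
    (a := 0) (b := x) (c := x + 2 * Real.pi)
    ((u1_cont.mul u2_cont).intervalIntegrable _ _) ((u1_cont.mul u2_cont).intervalIntegrable _ _)
  have hp : Function.Periodic (fun t => u1 t * u2 t) (2 * Real.pi) := by
    intro t; simp only [u1_per, u2_per]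
  have h2 := hp.intervalIntegral_add_eq x 0
  rw [zero_add, int_u1_u2] at h2
  rw [h2] at h
  unfold F12
  rw [← h, add_zero]

theorem F22_per (x : ℝ) : F22 (x + 2 * Real.pi) = F22 x + K := by
  have h := intervalIntegral.integral_add_adjacent_intervals (μ := volume) (f := fun t => u2 t * u2 t)
    (a := 0) (b := x) (c := x + 2 * Real.pi)
    ((u2_cont.mul u2_cont).intervalIntegrable _ _) ((u2_cont.mul u2_cont).intervalIntegrable _ _)
  have hp : Function.Periodic (fun t => u2 t * u2 t) (2 * Real.pi) := by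
    intro t; simp only [u2_per]
  have h2 := hp.intervalIntegral_add_eq x 0
  rw [zero_add] at h2
  rw [h2] at h
  unfold F22 K
  rw [← h]

theorem ss_an (x₀ x : ℝ) : AnalyticAt ℂ (fun w => ss x₀ w x) 0 :=
  ((Y_an e2 x).mul (Y_an e1 x₀)).sub ((Y_an e1 x).mul (Y_an e2 x₀))
theorem dcc_an (x₀ x : ℝ) : AnalyticAt ℂ (fun w => dcc x₀ w x) 0 :=
  ((D_an e1 x).mul (D_an e2 x₀)).sub ((D_an e2 x).mul (D_an e1 x₀))
theorem ss_0 (x₀ : ℝ) : ss x₀ 0 (x₀ + 2 * Real.pi) = 0 := by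
  unfold ss
  rw [Y1_0, Y2_0, Y1_0, Y2_0, u1_per, u2_per]; ring
theorem dcc_0 (x₀ : ℝ) : dcc x₀ 0 (x₀ + 2 * Real.pi) = 0 := by
  unfold dcc
  rw [D1_0, D2_0, D1_0, D2_0, du1_per, du2_per]; ring

theorem ss_w (x₀ : ℝ) : HasDerivAt (fun w => ss x₀ w (x₀ + 2 * Real.pi)) (K * u1 x₀ ^ 2) 0 := by
  have h := ((Y2_w (x₀ + 2 * Real.pi)).mul (Y1_w x₀)).sub ((Y1_w (x₀ + 2 * Real.pi)).mul (Y2_w x₀))
  refine HasDerivAt.congr_deriv (f := fun w => ss x₀ w (x₀ + 2 * Real.pi)) h ?_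
  rw [Y1_0, Y2_0, Y1_0, Y2_0, F11_per, F12_per, F22_per, u1_per, u2_per]
  ring

theorem dcc_w (x₀ : ℝ) : HasDerivAt (fun w => dcc x₀ w (x₀ + 2 * Real.pi)) (-(K * du1 x₀ ^ 2)) 0 := by
  have h := ((D1_w (x₀ + 2 * Real.pi)).mul (D2_w x₀)).sub ((D2_w (x₀ + 2 * Real.pi)).mul (D1_w x₀))
  refine HasDerivAt.congr_deriv (f := fun w => dcc x₀ w (x₀ + 2 * Real.pi)) h ?_
  rw [D1_0, D2_0, D1_0, D2_0, F11_per, F12_per, F22_per, du1_per, du2_per]
  ring

theorem ord_ss : (⨅ x₀ ∈ Set.Icc (0 : ℝ) (2 * Real.pi),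
    analyticOrderAt (fun w : ℂ => ss x₀ w (x₀ + 2 * Real.pi)) 0) = 1 := by
  apply le_antisymm
  · refine (iInf₂_le (0:ℝ) ⟨le_rfl, by positivity⟩).trans (le_of_eq ?_)
    apply (ss_an 0 _).analyticOrderAt_eq_one_of_zero_deriv_ne_zero (ss_0 0)
    rw [(ss_w 0).deriv]
    refine mul_ne_zero K_ne (pow_ne_zero _ ?_)
    exact Complex.exp_ne_zero _
  · refine le_iInf₂ fun x _ => ?_
    rw [Order.one_le_iff_ne_zero]
    exact analyticOrderAt_ne_zero.2 ⟨ss_an _ _, ss_0 x⟩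

theorem ord_dcc : (⨅ x₀ ∈ Set.Icc (0 : ℝ) (2 * Real.pi),
    analyticOrderAt (fun w : ℂ => dcc x₀ w (x₀ + 2 * Real.pi)) 0) = 1 := by
  apply le_antisymm
  · refine (iInf₂_le (Real.pi/2:ℝ) ⟨by positivity, by linarith [Real.pi_pos]⟩).trans (le_of_eq ?_)
    apply (dcc_an _ _).analyticOrderAt_eq_one_of_zero_deriv_ne_zero (dcc_0 _)
    rw [(dcc_w _).deriv]
    refine neg_ne_zero.2 (mul_ne_zero K_ne (pow_ne_zero _ ?_))
    unfold du1
    refine mul_ne_zero (mul_ne_zero I_ne_zero ?_) (Complex.exp_ne_zero _)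
    have : th1 (Real.pi / 2) = - r := by simp [th1, den]
    rw [this]
    have := r_pos
    exact_mod_cast (neg_ne_zero.2 this.ne')
  · refine le_iInf₂ fun x _ => ?_
    rw [Order.one_le_iff_ne_zero]
    exact analyticOrderAt_ne_zero.2 ⟨dcc_an _ _, dcc_0 x⟩

/-! ### the trace -/

theorem tr_eq (w : ℂ) : (cc 0 w (2 * Real.pi) + dss 0 w (2 * Real.pi)) ^ 2 - 4 =
    ((Ph e1 w (2 * Real.pi)).1 - (Ph e2 w (2 * Real.pi)).2) ^ 2 +
      4 * ((Ph e2 w (2 * Real.pi)).1 * (Ph e1 w (2 * Real.pi)).2) := by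
  have hu1 : u1 (2 * Real.pi) = u1 0 := by have := u1_per 0; rwa [zero_add] at this
  have hu2 : u2 (2 * Real.pi) = u2 0 := by have := u2_per 0; rwa [zero_add] at this
  have hd1 : du1 (2 * Real.pi) = du1 0 := by have := du1_per 0; rwa [zero_add] at this
  have hd2 : du2 (2 * Real.pi) = du2 0 := by have := du2_per 0; rwa [zero_add] at this
  have hw := wron 0
  have h1 : cc 0 w (2 * Real.pi) + dss 0 w (2 * Real.pi) =
      (Ph e1 w (2 * Real.pi)).1 + (Ph e2 w (2 * Real.pi)).2 := by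
    unfold cc dss
    rw [Y_zero, Y_zero, D_zero, D_zero]
    unfold Y D
    rw [hu1, hu2, hd1, hd2]
    simp only [e1, e2]
    linear_combination ((Ph (1,0) w (2 * Real.pi)).1 + (Ph (0,1) w (2 * Real.pi)).2) * hw
  have h2 : (Ph e1 w (2 * Real.pi)).1 * (Ph e2 w (2 * Real.pi)).2 -
      (Ph e2 w (2 * Real.pi)).1 * (Ph e1 w (2 * Real.pi)).2 = 1 := by
    have := Wr w (2 * Real.pi)
    unfold Y D at this
    rw [hu1, hu2, hd1, hd2] at this
    linear_combination this - ((Ph e1 w (2 * Real.pi)).1 * (Ph e2 w (2 * Real.pi)).2 -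
      (Ph e2 w (2 * Real.pi)).1 * (Ph e1 w (2 * Real.pi)).2) * hw
  rw [h1]
  linear_combination 4 * h2

theorem two_le_order {f : ℂ → ℂ} (hf : AnalyticAt ℂ f 0) (h0 : f 0 = 0) (h1 : HasDerivAt f 0 0) :
    2 ≤ analyticOrderAt f 0 := by
  have : ((2:ℕ):ℕ∞) ≤ analyticOrderAt f 0 := by
    rw [natCast_le_analyticOrderAt_iff_iteratedDeriv_eq_zero hf]
    intro i hi
    interval_cases i
    · simpa using h0
    · rw [iteratedDeriv_one]; exact h1.deriv
  simpa using this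

theorem ord_tr : 3 ≤ analyticOrderAt
    (fun w : ℂ => (cc 0 w (2 * Real.pi) + dss 0 w (2 * Real.pi)) ^ 2 - 4) 0 := by
  set f : ℂ → ℂ := fun w => (Ph e1 w (2 * Real.pi)).1 - (Ph e2 w (2 * Real.pi)).2 with hf
  set g : ℂ → ℂ := fun w => (Ph e1 w (2 * Real.pi)).2 with hg
  set k : ℂ → ℂ := fun w => 4 * (Ph e2 w (2 * Real.pi)).1 with hk
  have hfun : (fun w : ℂ => (cc 0 w (2 * Real.pi) + dss 0 w (2 * Real.pi)) ^ 2 - 4) =
      f ^ 2 + k * g := by
    funext w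
    rw [tr_eq]
    simp only [hf, hg, hk, Pi.add_apply, Pi.mul_apply, Pi.pow_apply]
    ring
  have fan : AnalyticAt ℂ f 0 := (Ph_fst_an e1 _).sub (Ph_snd_an e2 _)
  have gan : AnalyticAt ℂ g 0 := Ph_snd_an e1 _
  have kan : AnalyticAt ℂ k 0 := analyticAt_const.mul (Ph_fst_an e2 _)
  have F11z : F11 (2 * Real.pi) = 0 := by
    have := F11_per 0; rw [zero_add] at this; rw [this]; simp [F11]
  have F12z : F12 (2 * Real.pi) = 0 := by
    have := F12_per 0; rw [zero_add] at this; rw [this]; simp [F12]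
  have fo : 2 ≤ analyticOrderAt f 0 := by
    apply two_le_order fan
    · simp [hf, Ph_w0]
    · have := (a1_w (2 * Real.pi)).sub (b2_w (2 * Real.pi))
      rw [F12z] at this
      exact HasDerivAt.congr_deriv (f := f) this (by simp)
  have go : 2 ≤ analyticOrderAt g 0 := by
    apply two_le_order gan
    · simp [hg, Ph_w0]
    · have := (b1_w (2 * Real.pi))
      rw [F11z] at this
      exact HasDerivAt.congr_deriv (f := g) this (by simp)
  have ko : 1 ≤ analyticOrderAt k 0 := by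
    rw [Order.one_le_iff_ne_zero]
    refine analyticOrderAt_ne_zero.2 ⟨kan, ?_⟩
    simp [hk, Ph_w0]
  rw [hfun]
  refine le_trans ?_ le_analyticOrderAt_add
  apply le_min
  · rw [analyticOrderAt_pow fan]
    calc (3:ℕ∞) ≤ 2 • 2 := by norm_num
      _ ≤ 2 • analyticOrderAt f 0 := by gcongr
  · rw [analyticOrderAt_mul kan gan]
    calc (3:ℕ∞) = 1 + 2 := by norm_num
      _ ≤ _ := add_le_add ko go


/-- The negation of the preceding statement: For any locally integrable complex a-periodic q, if the zero order of (tr M)^2-4 at z exceeds the sum of the minimal (over base points in [0,a]) Dirichlet and Neumann zero orders at z, then that sum is 0. -/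
theorem result :
    ¬ (∀ (a : ℝ), 0 < a → ∀ q : ℝ → ℂ, Function.Periodic q a →
    MeasureTheory.LocallyIntegrable q MeasureTheory.volume →
    ∀ c dc s ds : ℝ → ℂ → ℝ → ℂ,
    (∀ (x₀ : ℝ) (z : ℂ), Continuous (c x₀ z) ∧ Continuous (dc x₀ z) ∧
      Continuous (s x₀ z) ∧ Continuous (ds x₀ z) ∧
      ∀ x : ℝ,
        (c x₀ z x = 1 + ∫ t in x₀..x, dc x₀ z t) ∧
        (dc x₀ z x = ∫ t in x₀..x, (q t - z) * c x₀ z t) ∧
        (s x₀ z x = ∫ t in x₀..x, ds x₀ z t) ∧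
        (ds x₀ z x = 1 + ∫ t in x₀..x, (q t - z) * s x₀ z t)) →
    ∀ z : ℂ,
      (⨅ x₀ ∈ Set.Icc (0 : ℝ) a, analyticOrderAt (fun w : ℂ => s x₀ w (x₀ + a)) z) +
        (⨅ x₀ ∈ Set.Icc (0 : ℝ) a, analyticOrderAt (fun w : ℂ => dc x₀ w (x₀ + a)) z)
        < analyticOrderAt (fun w : ℂ => (c 0 w a + ds 0 w a) ^ 2 - 4) z →
      (⨅ x₀ ∈ Set.Icc (0 : ℝ) a, analyticOrderAt (fun w : ℂ => s x₀ w (x₀ + a)) z) +
        (⨅ x₀ ∈ Set.Icc (0 : ℝ) a, analyticOrderAt (fun w : ℂ => dc x₀ w (x₀ + a)) z) = 0) := by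
  intro H
  have h := H (2 * Real.pi) (by positivity) q q_per q_cont.locallyIntegrable cc dcc ss dss sys 0
  rw [ord_ss, ord_dcc] at h
  have h2 := h (lt_of_lt_of_le (by norm_num) ord_tr)
  norm_num at h2

end Pool.Agent.S03258
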