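import Pool.Statements.S03308
-- import your own Pool.Agent.* helpers here

set_option autoImplicit false
open Pool Pool.MP_5e6479_an

namespace Pool.Agent.S03308


open Complex Metric Filter Topology in
/-- the zeros of `exp z - 1` -/
noncomputable def ck (k : ℤ) : ℂ := (2 * Real.pi * k : ℝ) * I

open Complex in
lemma ck_re (k : ℤ) : (ck k).re = 0 := by simp [ck]
open Complex in
lemma ck_im (k : ℤ) : (ck k).im = 2 * Real.pi * k := by simp [ck]
lemma ck_norm (k : ℤ) : ‖ck k‖ = 2 * Real.pi * |(k : ℝ)| := by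
  unfold ck
  rw [norm_mul, Complex.norm_I, mul_one, Complex.norm_real, Real.norm_eq_abs, abs_mul,
    abs_of_pos (by positivity)]

/-- the circles -/
noncomputable def TT : Set ℂ := ⋃ k : ℤ, Metric.sphere (ck k) |(k : ℝ)|

noncomputable def EE : Set ℂ := {z | ‖Complex.exp z - 1‖ ≤ 1 / 2} ∪ TT

lemma sphere_norm {k : ℤ} {z : ℂ} (hz : z ∈ Metric.sphere (ck k) |(k : ℝ)|) :
    5 * |(k : ℝ)| ≤ ‖z‖ := by
  rw [mem_sphere_iff_norm] at hz
  have h1 : ‖ck k‖ ≤ ‖z‖ + ‖z - ck k‖ := by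
    calc ‖ck k‖ = ‖z - (z - ck k)‖ := by congr 1; ring
      _ ≤ ‖z‖ + ‖z - ck k‖ := norm_sub_le _ _
  rw [hz, ck_norm] at h1
  have h2 := Real.pi_gt_three
  have h3 := abs_nonneg (k : ℝ)
  nlinarith

lemma TT_closed : IsClosed TT := by
  apply LocallyFinite.isClosed_iUnion
  · intro x
    refine ⟨Metric.ball x 1, Metric.ball_mem_nhds x one_pos, ?_⟩
    apply (Set.finite_Icc (-⌈‖x‖ + 1⌉) ⌈‖x‖ + 1⌉).subset
    intro k hk
    obtain ⟨z, hz1, hz2⟩ := hk
    have h1 := sphere_norm hz1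
    have h2 : ‖z‖ ≤ ‖x‖ + 1 := by
      rw [mem_ball_iff_norm] at hz2
      calc ‖z‖ = ‖x + (z - x)‖ := by congr 1; ring
        _ ≤ ‖x‖ + ‖z - x‖ := norm_add_le _ _
        _ ≤ ‖x‖ + 1 := by linarith
    have h3 : |(k : ℝ)| ≤ ‖x‖ + 1 := by
      have := abs_nonneg (k : ℝ)
      linarith
    have h4 : |(k : ℝ)| ≤ (⌈‖x‖ + 1⌉ : ℝ) := le_trans h3 (Int.le_ceil _)
    have h5 : |k| ≤ ⌈‖x‖ + 1⌉ := by exact_mod_cast h4
    exact abs_le.1 h5
  · intro k
    exact Metric.isClosed_sphere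

lemma cont_phi : Continuous (fun z : ℂ => ‖Complex.exp z - 1‖) :=
  (Complex.continuous_exp.sub continuous_const).norm

lemma EE_closed : IsClosed EE :=
  (isClosed_le cont_phi continuous_const).union TT_closed

lemma TT_dense : Dense (TTᶜ) := by
  have h : ∀ᵐ x : ℂ, x ∉ TT := by
    rw [MeasureTheory.ae_iff]
    simp only [not_not]
    exact MeasureTheory.measure_iUnion_null
      (fun k => MeasureTheory.Measure.addHaar_sphere MeasureTheory.volume _ _)
  exact MeasureTheory.Measure.dense_of_ae h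

lemma step1 {h : ℂ → ℂ} (hd : Differentiable ℂ h) {δ : ℝ} (hE : ∀ z ∉ EE, δ ≤ ‖h z‖) {z : ℂ}
    (hz : 1 / 2 < ‖Complex.exp z - 1‖) : δ ≤ ‖h z‖ := by
  have hV : IsOpen {z : ℂ | 1 / 2 < ‖Complex.exp z - 1‖} := isOpen_lt continuous_const cont_phi
  have h1 := TT_dense.open_subset_closure_inter hV hz
  have h2 : IsClosed {z : ℂ | δ ≤ ‖h z‖} := isClosed_le continuous_const hd.continuous.norm
  have h3 : {z : ℂ | 1 / 2 < ‖Complex.exp z - 1‖} ∩ TTᶜ ⊆ {z : ℂ | δ ≤ ‖h z‖} := by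
    rintro w ⟨hw1, hw2⟩
    apply hE
    rintro (h | h)
    · exact absurd (show ‖Complex.exp w - 1‖ ≤ 1 / 2 from h) (not_le.2 hw1)
    · exact hw2 h
  exact closure_minimal h3 h2 h1

lemma step2 {h : ℂ → ℂ} (hd : Differentiable ℂ h) {M : ℝ} (hE : ∀ z ∈ EE, ‖h z‖ ≤ M) {k : ℤ}
    {z : ℂ} (hz : z ∈ Metric.ball (ck k) |(k : ℝ)|) : ‖h z‖ ≤ M := by
  have hk : |(k : ℝ)| ≠ 0 := (lt_of_le_of_lt dist_nonneg (Metric.mem_ball.1 hz)).ne'
  apply Complex.norm_le_of_forall_mem_frontier_norm_le (U := Metric.ball (ck k) |(k : ℝ)|)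
    Metric.isBounded_ball hd.diffContOnCl _ (subset_closure hz)
  intro w hw
  rw [frontier_ball _ hk] at hw
  exact hE w (Or.inr (Set.mem_iUnion.2 ⟨k, hw⟩))

lemma exp_re_norm (z : ℂ) : ‖Complex.exp z‖ = Real.exp z.re := Complex.norm_exp z

lemma re_bound {z : ℂ} (hz : ‖Complex.exp z - 1‖ ≤ 3 / 4) : |z.re| ≤ 2 := by
  have h1 : ‖Complex.exp z‖ ≤ 7 / 4 := by
    calc ‖Complex.exp z‖ = ‖(Complex.exp z - 1) + 1‖ := by congr 1; ring
      _ ≤ ‖Complex.exp z - 1‖ + ‖(1 : ℂ)‖ := norm_add_le _ _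
      _ ≤ 7 / 4 := by rw [norm_one]; linarith
  have h2 : 1 / 4 ≤ ‖Complex.exp z‖ := by
    have : ‖(1 : ℂ)‖ ≤ ‖Complex.exp z‖ + ‖Complex.exp z - 1‖ := by
      calc ‖(1 : ℂ)‖ = ‖Complex.exp z - (Complex.exp z - 1)‖ := by congr 1; ring
        _ ≤ ‖Complex.exp z‖ + ‖Complex.exp z - 1‖ := norm_sub_le _ _
    rw [norm_one] at this
    linarith
  rw [Complex.norm_exp] at h1 h2
  have he : (2 : ℝ) < Real.exp 1 := by
    have := Real.add_one_lt_exp (one_ne_zero : (1 : ℝ) ≠ 0)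
    linarith
  have he2 : Real.exp 2 = Real.exp 1 * Real.exp 1 := by rw [← Real.exp_add]; norm_num
  rw [abs_le]
  constructor
  · by_contra hc
    push Not at hc
    have h3 : Real.exp z.re < Real.exp (-2) := Real.exp_lt_exp.2 hc
    have h4 : Real.exp (-2) * Real.exp 2 = 1 := by rw [← Real.exp_add]; norm_num
    have h5 : (4 : ℝ) < Real.exp 2 := by rw [he2]; nlinarith
    have h6 : 0 < Real.exp (-2) := Real.exp_pos _
    nlinarith
  · by_contra hc
    push Not at hc
    have h3 : Real.exp 2 < Real.exp z.re := Real.exp_lt_exp.2 hc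
    have h5 : (4 : ℝ) < Real.exp 2 := by rw [he2]; nlinarith
    linarith

lemma far_point (k : ℤ) : 1 / 2 < ‖Complex.exp (ck k + 2) - 1‖ := by
  have h1 : ‖Complex.exp (ck k + 2)‖ = Real.exp 2 := by
    rw [Complex.norm_exp]
    simp [ck_re]
  have he : (2 : ℝ) < Real.exp 2 := by
    have := Real.add_one_lt_exp (two_ne_zero : (2 : ℝ) ≠ 0)
    linarith
  have h2 : ‖Complex.exp (ck k + 2)‖ ≤ ‖Complex.exp (ck k + 2) - 1‖ + ‖(1 : ℂ)‖ := by
    calc ‖Complex.exp (ck k + 2)‖ = ‖(Complex.exp (ck k + 2) - 1) + 1‖ := by congr 1; ring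
      _ ≤ _ := norm_add_le _ _
  rw [h1, norm_one] at h2
  linarith

lemma step3 {h : ℂ → ℂ} (hd : Differentiable ℂ h) {M δ : ℝ} (hM : 0 ≤ M) (hδ : 0 < δ)
    (hE : ∀ z ∈ EE, ‖h z‖ ≤ M) (hE2 : ∀ z ∉ EE, δ ≤ ‖h z‖) {k : ℤ}
    (hk : 14 + 8 * (M + 1) / δ < |(k : ℝ)|) {a : ℂ} (ha1 : |a.re| ≤ 2)
    (ha2 : |a.im - 2 * Real.pi * k| ≤ Real.pi) : h a ≠ 0 := by
  intro h0
  have hq : 0 ≤ 8 * (M + 1) / δ := by positivity
  have hdist : dist a (ck k) ≤ 6 := by
    rw [dist_eq_norm]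
    refine le_trans (Complex.norm_le_abs_re_add_abs_im _) ?_
    rw [Complex.sub_re, Complex.sub_im, ck_re, ck_im, sub_zero]
    have := Real.pi_le_four
    linarith
  set R : ℝ := |(k : ℝ)| - 6 with hR
  have hRpos : 8 < R := by linarith
  have hsub : Metric.ball a R ⊆ Metric.ball (ck k) |(k : ℝ)| := by
    intro w hw
    rw [Metric.mem_ball] at hw ⊢
    calc dist w (ck k) ≤ dist w a + dist a (ck k) := dist_triangle _ _ _
      _ < R + 6 := by linarith
      _ = |(k : ℝ)| := by rw [hR]; ring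
  have hmaps : Set.MapsTo h (Metric.ball a R) (Metric.closedBall (h a) (M + 1)) := by
    intro w hw
    rw [h0, mem_closedBall_zero_iff]
    have := step2 hd hE (hsub hw)
    linarith
  have hz : dist (ck k + 2) a ≤ 8 := by
    have h1 : dist (ck k + 2) (ck k) = 2 := by
      rw [dist_eq_norm, add_sub_cancel_left]; simp
    have h2 := dist_triangle (ck k + 2) (ck k) a
    rw [h1, dist_comm (ck k) a] at h2
    linarith
  have hmem : ck k + 2 ∈ Metric.ball a R := by
    rw [Metric.mem_ball]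
    linarith
  have h5 := Complex.dist_le_div_mul_dist_of_mapsTo_ball (hd.differentiableOn) hmaps hmem
  rw [h0, dist_zero_right] at h5
  have h6 := step1 hd hE2 (far_point k)
  have h7 : δ ≤ (M + 1) / R * 8 := by
    refine le_trans h6 (le_trans h5 ?_)
    exact mul_le_mul_of_nonneg_left hz (by positivity)
  have h8 : δ * R ≤ 8 * (M + 1) := by
    have hRp : 0 < R := by linarith
    have h9 : (M + 1) / R * 8 * R = 8 * (M + 1) := by field_simp
    calc δ * R ≤ (M + 1) / R * 8 * R := mul_le_mul_of_nonneg_right h7 hRp.le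
      _ = 8 * (M + 1) := h9
  have h9 : R ≤ 8 * (M + 1) / δ := by
    rw [le_div_iff₀ hδ]
    linarith
  linarith

lemma line_phi {z : ℂ} {k : ℤ} (h : |z.im - 2 * Real.pi * k| = Real.pi) :
    1 < ‖Complex.exp z - 1‖ := by
  have h1 : (Complex.exp z).re = - Real.exp z.re := by
    rw [Complex.exp_re]
    have : Real.cos z.im = -1 := by
      have e : Real.cos z.im = Real.cos |z.im - 2 * Real.pi * k| := by
        rw [Real.cos_abs]
        have : z.im - 2 * Real.pi * k = z.im - k * (2 * Real.pi) := by ring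
        rw [this, Real.cos_sub_int_mul_two_pi]
      rw [e, h, Real.cos_pi]
    rw [this]; ring
  have h2 : |(Complex.exp z - 1).re| ≤ ‖Complex.exp z - 1‖ := Complex.abs_re_le_norm _
  rw [Complex.sub_re, h1, Complex.one_re] at h2
  have h3 := Real.exp_pos z.re
  have h4 : |-Real.exp z.re - 1| = Real.exp z.re + 1 := by
    rw [abs_of_neg (by linarith)]; ring
  rw [h4] at h2
  linarith

lemma step4 {h : ℂ → ℂ} (hd : Differentiable ℂ h) {M δ : ℝ} (hM : 0 ≤ M) (hδ : 0 < δ)
    (hE : ∀ z ∈ EE, ‖h z‖ ≤ M) (hE2 : ∀ z ∉ EE, δ ≤ ‖h z‖) {k : ℤ}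
    (hk : 14 + 8 * (M + 1) / δ < |(k : ℝ)|) {z : ℂ}
    (hz : |z.im - 2 * Real.pi * k| ≤ Real.pi) : δ ≤ ‖h z‖ := by
  by_cases hφ : 1 / 2 < ‖Complex.exp z - 1‖
  · exact step1 hd hE2 hφ
  push Not at hφ
  set U : Set ℂ := {w | ‖Complex.exp w - 1‖ < 3 / 4} ∩ {w | |w.im - 2 * Real.pi * k| < Real.pi} with hU
  have cim : Continuous (fun w : ℂ => |w.im - 2 * Real.pi * k|) :=
    (Complex.continuous_im.sub continuous_const).abs
  have hUo : IsOpen U :=
    (isOpen_lt cont_phi continuous_const).inter (isOpen_lt cim continuous_const)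
  have hcl : closure U ⊆ {w | ‖Complex.exp w - 1‖ ≤ 3 / 4} ∩ {w | |w.im - 2 * Real.pi * k| ≤ Real.pi} := by
    apply closure_minimal
    · rintro w ⟨h1, h2⟩
      exact ⟨le_of_lt (show ‖Complex.exp w - 1‖ < 3 / 4 from h1),
        le_of_lt (show |w.im - 2 * Real.pi * k| < Real.pi from h2)⟩
    · exact (isClosed_le cont_phi continuous_const).inter (isClosed_le cim continuous_const)
  have hbdd : Bornology.IsBounded U := by
    rw [isBounded_iff_forall_norm_le]
    refine ⟨2 + (Real.pi + 2 * Real.pi * |(k : ℝ)|), ?_⟩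
    rintro w ⟨h1, h2⟩
    refine le_trans (Complex.norm_le_abs_re_add_abs_im _) ?_
    have h3 := re_bound (le_of_lt h1)
    have h4 : |w.im| ≤ |w.im - 2 * Real.pi * k| + |2 * Real.pi * (k : ℝ)| := by
      calc |w.im| = |(w.im - 2 * Real.pi * k) + 2 * Real.pi * k| := by congr 1; ring
        _ ≤ _ := abs_add_le _ _
    have h5 : |2 * Real.pi * (k : ℝ)| = 2 * Real.pi * |(k : ℝ)| := by
      rw [abs_mul, abs_of_pos (by positivity)]
    rw [h5] at h4
    have h6 : |w.im - 2 * Real.pi * k| < Real.pi := h2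
    linarith
  have hne : ∀ w ∈ closure U, h w ≠ 0 := by
    intro w hw
    obtain ⟨h1, h2⟩ := hcl hw
    exact step3 hd hM hδ hE hE2 hk (re_bound h1) h2
  have hdiff : DiffContOnCl ℂ (fun w => (h w)⁻¹) U := by
    apply DifferentiableOn.diffContOnCl
    exact hd.differentiableOn.inv hne
  have hzU : z ∈ U := by
    refine ⟨by show ‖Complex.exp z - 1‖ < 3 / 4; linarith, ?_⟩
    rcases lt_or_eq_of_le hz with h1 | h1
    · exact h1
    · have := line_phi h1
      linarith
  have hfr : ∀ w ∈ frontier U, ‖(h w)⁻¹‖ ≤ δ⁻¹ := by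
    intro w hw
    rw [hUo.frontier_eq] at hw
    obtain ⟨h1, h2⟩ := hw
    obtain ⟨h3, h4⟩ := hcl h1
    have h5 : 1 / 2 < ‖Complex.exp w - 1‖ := by
      by_contra hc
      push Not at hc
      apply h2
      refine ⟨by show ‖Complex.exp w - 1‖ < 3 / 4; linarith, ?_⟩
      rcases lt_or_eq_of_le (show |w.im - 2 * Real.pi * k| ≤ Real.pi from h4) with h6 | h6
      · exact h6
      · have := line_phi h6
        linarith
    have h6 := step1 hd hE2 h5
    rw [norm_inv]
    exact inv_anti₀ hδ h6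
  have h7 := Complex.norm_le_of_forall_mem_frontier_norm_le hbdd hdiff hfr (subset_closure hzU)
  rw [norm_inv] at h7
  have h8 : 0 < ‖h z‖ := norm_pos_iff.2 (hne z (subset_closure hzU))
  exact (inv_le_inv₀ h8 hδ).1 h7

lemma step5 {h : ℂ → ℂ} (hd : Differentiable ℂ h) {M δ : ℝ} (hM : 0 ≤ M) (hδ : 0 < δ)
    (hE : ∀ z ∈ EE, ‖h z‖ ≤ M) (hE2 : ∀ z ∉ EE, δ ≤ ‖h z‖) :
    ∃ R : ℝ, 0 < R ∧ ∀ z : ℂ, R < ‖z‖ → δ ≤ ‖h z‖ := by
  set K : ℝ := 14 + 8 * (M + 1) / δ with hK
  have hKpos : 0 < K := by positivity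
  refine ⟨2 + Real.pi + 2 * Real.pi * K, by positivity, ?_⟩
  intro z hz
  by_cases hφ : 1 / 2 < ‖Complex.exp z - 1‖
  · exact step1 hd hE2 hφ
  push Not at hφ
  have hre : |z.re| ≤ 2 := re_bound (by linarith)
  set k : ℤ := round (z.im / (2 * Real.pi)) with hk
  have hpi := Real.pi_pos
  have h1 : |z.im - 2 * Real.pi * k| ≤ Real.pi := by
    have h2 := abs_sub_round (z.im / (2 * Real.pi))
    have h3 : z.im - 2 * Real.pi * k = (2 * Real.pi) * (z.im / (2 * Real.pi) - k) := by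
      field_simp
    rw [h3, abs_mul, abs_of_pos (by positivity)]
    calc 2 * Real.pi * |z.im / (2 * Real.pi) - k| ≤ 2 * Real.pi * (1 / 2) :=
          mul_le_mul_of_nonneg_left h2 (by positivity)
      _ = Real.pi := by ring
  apply step4 hd hM hδ hE hE2 (k := k) _ h1
  have h2 := Complex.norm_le_abs_re_add_abs_im z
  have h3 : |z.im| ≤ |z.im - 2 * Real.pi * k| + |2 * Real.pi * (k : ℝ)| := by
    calc |z.im| = |(z.im - 2 * Real.pi * k) + 2 * Real.pi * k| := by congr 1; ring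
      _ ≤ _ := abs_add_le _ _
  have h5 : |2 * Real.pi * (k : ℝ)| = 2 * Real.pi * |(k : ℝ)| := by
    rw [abs_mul, abs_of_pos (by positivity)]
  rw [h5] at h3
  have h6 : 2 * Real.pi * K < 2 * Real.pi * |(k : ℝ)| := by linarith
  exact lt_of_mul_lt_mul_left h6 (by positivity)

open Filter Topology in
lemma step6 {h : ℂ → ℂ} (hd : Differentiable ℂ h) {M δ : ℝ} (hM : 0 ≤ M) (hδ : 0 < δ)
    (hE : ∀ z ∈ EE, ‖h z‖ ≤ M) (hE2 : ∀ z ∉ EE, δ ≤ ‖h z‖) :
    ∃ c : ℂ, ∀ z, h z = c := by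
  obtain ⟨R, hR, hlow⟩ := step5 hd hM hδ hE hE2
  set F : ℂ → ℂ := fun w => (h w⁻¹)⁻¹ with hF
  have hnear : ∀ᶠ w in 𝓝[≠] (0 : ℂ), R < ‖w⁻¹‖ ∧ w ≠ 0 := by
    have h1 : Tendsto (fun w : ℂ => ‖w⁻¹‖) (𝓝[≠] 0) atTop :=
      tendsto_norm_cobounded_atTop.comp Filter.tendsto_inv₀_nhdsNE_zero
    exact (h1.eventually_gt_atTop R).and self_mem_nhdsWithin
  have hdF : ∀ᶠ w in 𝓝[≠] (0 : ℂ), DifferentiableAt ℂ F w := by
    filter_upwards [hnear] with w hw
    have h1 : h w⁻¹ ≠ 0 := by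
      intro h0
      have := hlow _ hw.1
      rw [h0, norm_zero] at this
      linarith
    have h2 : DifferentiableAt ℂ (fun w : ℂ => h w⁻¹) w :=
      (hd w⁻¹).comp w (differentiableAt_inv hw.2)
    exact h2.inv h1
  have hbF : Filter.IsBoundedUnder (fun x1 x2 => x1 ≤ x2) (𝓝[≠] (0 : ℂ)) fun z => ‖F z - F 0‖ := by
    refine Filter.isBoundedUnder_of_eventually_le (a := δ⁻¹ + ‖F 0‖) ?_
    filter_upwards [hnear] with w hw
    refine le_trans (norm_sub_le _ _) ?_
    have : ‖F w‖ ≤ δ⁻¹ := by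
      rw [hF]
      simp only [norm_inv]
      exact inv_anti₀ hδ (hlow _ hw.1)
    linarith
  have hlim := Complex.tendsto_limUnder_of_differentiable_on_punctured_nhds_of_bounded_under hdF hbF
  set L : ℂ := (𝓝[≠] (0 : ℂ)).limUnder F with hL
  -- h(z) tends ... along cobounded
  have hco : Tendsto (fun z : ℂ => (h z)⁻¹) (Bornology.cobounded ℂ) (𝓝 L) := by
    have h1 : Tendsto (fun z : ℂ => z⁻¹) (Bornology.cobounded ℂ) (𝓝[≠] 0) := by
      rw [tendsto_nhdsWithin_iff]
      refine ⟨Filter.tendsto_inv₀_cobounded, ?_⟩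
      have h5 : ∀ᶠ z : ℂ in Bornology.cobounded ℂ, 0 < ‖z‖ :=
        tendsto_norm_cobounded_atTop.eventually_gt_atTop 0
      filter_upwards [h5] with z hz
      exact inv_ne_zero (norm_pos_iff.1 hz)
    refine (hlim.comp h1).congr (fun z => ?_)
    simp [hF]
  -- L ≠ 0
  have hL0 : L ≠ 0 := by
    intro h0
    rw [h0] at hco
    have h1 : Tendsto (fun n : ℕ => ck (n : ℤ)) atTop (Bornology.cobounded ℂ) := by
      rw [← tendsto_norm_atTop_iff_cobounded]
      have : (fun n : ℕ => ‖ck (n : ℤ)‖) = fun n : ℕ => 2 * Real.pi * (n : ℝ) := by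
        funext n
        rw [ck_norm]
        simp
      rw [this]
      exact Tendsto.const_mul_atTop (by positivity) tendsto_natCast_atTop_atTop
    have h2 := (hco.comp h1).norm
    rw [norm_zero] at h2
    have hM1 : 0 < (M + 1)⁻¹ := by positivity
    have h7 : ∀ᶠ n : ℕ in atTop, R < ‖ck (n : ℤ)‖ :=
      (tendsto_norm_cobounded_atTop.comp h1).eventually_gt_atTop R
    obtain ⟨n, hn, hn7⟩ := ((h2.eventually (gt_mem_nhds hM1)).and h7).exists
    have h3 : ‖h (ck (n : ℤ))‖ ≤ M := by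
      apply hE
      left
      have : Complex.exp (ck (n : ℤ)) = 1 := by
        rw [Complex.exp_eq_one_iff]
        refine ⟨n, ?_⟩
        simp [ck]
        ring
      show ‖Complex.exp (ck (n : ℤ)) - 1‖ ≤ 1 / 2
      rw [this]
      simp
    simp only [Function.comp, norm_inv] at hn
    have h5 : 0 < ‖h (ck (n : ℤ))‖ := lt_of_lt_of_le hδ (hlow _ hn7)
    have h6 : M + 1 < ‖h (ck (n : ℤ))‖ := (inv_lt_inv₀ h5 (by positivity)).1 hn
    linarith
  have hfin : Tendsto h (Bornology.cobounded ℂ) (𝓝 L⁻¹) := by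
    refine (hco.inv₀ hL0).congr (fun z => ?_)
    simp
  rw [Metric.cobounded_eq_cocompact] at hfin
  exact ⟨L⁻¹, fun z => hd.apply_eq_of_tendsto_cocompact z hfin⟩

/-- The negation of the preceding statement: For every closed set E in ℂ: if some non-polynomial entire function is bounded on E and some non-polynomial entire function has modulus at least a positive constant off E, then a single non-polynomial entire function does both. -/
theorem result :
    ¬ (∀ E : Set ℂ, IsClosed E →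
      (∃ f : ℂ → ℂ, Differentiable ℂ f ∧
          (¬ ∃ p : Polynomial ℂ, ∀ z, f z = p.eval z) ∧
          ∃ M : ℝ, ∀ z ∈ E, ‖f z‖ ≤ M) →
      (∃ g : ℂ → ℂ, Differentiable ℂ g ∧
          (¬ ∃ p : Polynomial ℂ, ∀ z, g z = p.eval z) ∧
          ∃ δ : ℝ, 0 < δ ∧ ∀ z ∉ E, δ ≤ ‖g z‖) →
      ∃ h : ℂ → ℂ, Differentiable ℂ h ∧
          (¬ ∃ p : Polynomial ℂ, ∀ z, h z = p.eval z) ∧
          (∃ M : ℝ, ∀ z ∈ E, ‖h z‖ ≤ M) ∧
          ∃ δ : ℝ, 0 < δ ∧ ∀ z ∉ E, δ ≤ ‖h z‖) := by
  intro H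
  have key := H EE EE_closed ?_ ?_
  · obtain ⟨h, hd, hnp, ⟨M, hM⟩, δ, hδ, hlow⟩ := key
    have h0 : (0 : ℂ) ∈ EE := by
      left
      show ‖Complex.exp 0 - 1‖ ≤ 1 / 2
      simp
    have hM0 : 0 ≤ M := le_trans (norm_nonneg _) (hM 0 h0)
    obtain ⟨c, hc⟩ := step6 hd hM0 hδ hM hlow
    exact hnp ⟨Polynomial.C c, fun z => by rw [hc z, Polynomial.eval_C]⟩
  · refine ⟨fun z => Complex.exp (z ^ 2), by fun_prop, ?_, Real.exp 4, ?_⟩
    · rintro ⟨p, hp⟩
      have hdeg : p.degree = 0 := by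
        by_contra hne
        obtain ⟨x, hx⟩ := IsAlgClosed.exists_root p hne
        have := hp x
        rw [hx] at this
        exact Complex.exp_ne_zero _ this
      have hC := Polynomial.eq_C_of_degree_eq_zero hdeg
      have h1 := hp 0
      have h2 := hp 1
      rw [hC, Polynomial.eval_C] at h1 h2
      rw [← h1] at h2
      have h3 : Complex.exp 1 = 1 := by simpa using h2
      have h4 : Real.exp 1 = 1 := by
        have := congrArg Complex.re h3
        rwa [Complex.exp_re, Complex.one_re, Complex.one_im, Real.cos_zero, mul_one] at this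
      have := Real.add_one_lt_exp (one_ne_zero : (1 : ℝ) ≠ 0)
      linarith
    · intro z hz
      rw [Complex.norm_exp]
      apply Real.exp_le_exp.2
      have hre : (z ^ 2).re = z.re ^ 2 - z.im ^ 2 := by
        rw [sq, Complex.mul_re]; ring
      rw [hre]
      rcases hz with hz | hz
      · have h1 : |z.re| ≤ 2 := re_bound (le_trans hz (by norm_num))
        have h2 : z.re ^ 2 ≤ 2 ^ 2 := by
          rw [← sq_abs]
          exact pow_le_pow_left₀ (abs_nonneg _) h1 2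
        have := sq_nonneg z.im
        linarith
      · obtain ⟨k, hk⟩ := Set.mem_iUnion.1 hz
        rw [mem_sphere_iff_norm] at hk
        have h1 : ‖z - ck k‖ ^ 2 = (k : ℝ) ^ 2 := by rw [hk, sq_abs]
        rw [← Complex.normSq_eq_norm_sq, Complex.normSq_apply, Complex.sub_re, Complex.sub_im,
          ck_re, ck_im] at h1
        have hpi := Real.pi_gt_three
        have h2 : (k : ℝ) ^ 2 * 9 ≤ (k : ℝ) ^ 2 * Real.pi ^ 2 := by
          apply mul_le_mul_of_nonneg_left _ (sq_nonneg _)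
          nlinarith
        nlinarith [sq_nonneg (2 * z.im - 2 * Real.pi * k), sq_nonneg (k : ℝ)]
  · refine ⟨fun z => Complex.exp z - 1, by fun_prop, ?_, 1 / 2, by norm_num, ?_⟩
    · rintro ⟨p, hp⟩
      have hinf : {x | p.IsRoot x}.Infinite := by
        have hinj : Function.Injective (fun n : ℤ => ck n) := by
          intro a b hab
          have := congrArg Complex.im hab
          simp only [ck_im] at this
          have hpi := Real.pi_pos
          have h2 : (a : ℝ) = b := mul_left_cancel₀ (by positivity) this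
          exact_mod_cast h2
        apply (Set.infinite_range_of_injective hinj).mono
        rintro x ⟨n, rfl⟩
        show p.eval (ck n) = 0
        rw [← hp]
        have : Complex.exp (ck n) = 1 := by
          rw [Complex.exp_eq_one_iff]
          refine ⟨n, ?_⟩
          simp [ck]
          ring
        show Complex.exp (ck n) - 1 = 0
        rw [this, sub_self]
      have h0 := Polynomial.eq_zero_of_infinite_isRoot p hinf
      have h1 := hp 1
      rw [h0, Polynomial.eval_zero, sub_eq_zero] at h1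
      have h4 : Real.exp 1 = 1 := by
        have := congrArg Complex.re h1
        rwa [Complex.exp_re, Complex.one_re, Complex.one_im, Real.cos_zero, mul_one] at this
      have := Real.add_one_lt_exp (one_ne_zero : (1 : ℝ) ≠ 0)
      linarith
    · intro z hz
      by_contra hc
      push Not at hc
      exact hz (Or.inl hc.le)

end Pool.Agent.S03308
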