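import Pool.Statements.S03320
import Pool.Agent.H26.SP8

set_option autoImplicit false
open Pool Pool.MP_5fe217_an

namespace Pool.Agent.S03320

/-- The negation of the preceding statement: For n at least 2, A with max eigenvalue real part below twice min Re(Az,z) on the sphere, and f normalized spirallike w.r.t. A on the ball: f is a support point of that family iff h = Df^{-1} A f is a support point of N_A. -/
theorem result :
    ¬ (∀ n : ℕ, 2 ≤ n →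
  ∀ A : EuclideanSpace ℂ (Fin n) →L[ℂ] EuclideanSpace ℂ (Fin n),
  (∃ c : ℝ, (∀ z : EuclideanSpace ℂ (Fin n), ‖z‖ = 1 → c ≤ (inner ℂ z (A z)).re) ∧
     ∀ μ : ℂ, Module.End.HasEigenvalue A.toLinearMap μ → μ.re < 2 * c) →
  ∀ f : EuclideanSpace ℂ (Fin n) → EuclideanSpace ℂ (Fin n),
  (DifferentiableOn ℂ f (Metric.ball 0 1) ∧ Set.InjOn f (Metric.ball 0 1) ∧ f 0 = 0 ∧
     fderiv ℂ f 0 = ContinuousLinearMap.id ℂ (EuclideanSpace ℂ (Fin n)) ∧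
     ∀ z ∈ Metric.ball (0 : EuclideanSpace ℂ (Fin n)) 1, z ≠ 0 →
       0 < (inner ℂ z ((fderiv ℂ f z).inverse (A (f z)))).re) →
  ((∃ L : (EuclideanSpace ℂ (Fin n) → EuclideanSpace ℂ (Fin n)) → ℂ,
      ((∀ g₁ g₂ : EuclideanSpace ℂ (Fin n) → EuclideanSpace ℂ (Fin n),
          DifferentiableOn ℂ g₁ (Metric.ball 0 1) → DifferentiableOn ℂ g₂ (Metric.ball 0 1) →
          L (g₁ + g₂) = L g₁ + L g₂) ∧
       (∀ (c : ℂ) (g : EuclideanSpace ℂ (Fin n) → EuclideanSpace ℂ (Fin n)),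
          DifferentiableOn ℂ g (Metric.ball 0 1) → L (c • g) = c * L g) ∧
       ∃ K : Set (EuclideanSpace ℂ (Fin n)), IsCompact K ∧ K ⊆ Metric.ball 0 1 ∧
         ∃ C : ℝ, ∀ g : EuclideanSpace ℂ (Fin n) → EuclideanSpace ℂ (Fin n),
           DifferentiableOn ℂ g (Metric.ball 0 1) →
           ∀ M : ℝ, (∀ x ∈ K, ‖g x‖ ≤ M) → ‖L g‖ ≤ C * M) ∧
      (∃ g₁ g₂ : EuclideanSpace ℂ (Fin n) → EuclideanSpace ℂ (Fin n),
        (DifferentiableOn ℂ g₁ (Metric.ball 0 1) ∧ Set.InjOn g₁ (Metric.ball 0 1) ∧ g₁ 0 = 0 ∧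
          fderiv ℂ g₁ 0 = ContinuousLinearMap.id ℂ (EuclideanSpace ℂ (Fin n)) ∧
          ∀ z ∈ Metric.ball (0 : EuclideanSpace ℂ (Fin n)) 1, z ≠ 0 →
            0 < (inner ℂ z ((fderiv ℂ g₁ z).inverse (A (g₁ z)))).re) ∧
        (DifferentiableOn ℂ g₂ (Metric.ball 0 1) ∧ Set.InjOn g₂ (Metric.ball 0 1) ∧ g₂ 0 = 0 ∧
          fderiv ℂ g₂ 0 = ContinuousLinearMap.id ℂ (EuclideanSpace ℂ (Fin n)) ∧
          ∀ z ∈ Metric.ball (0 : EuclideanSpace ℂ (Fin n)) 1, z ≠ 0 →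
            0 < (inner ℂ z ((fderiv ℂ g₂ z).inverse (A (g₂ z)))).re) ∧
        (L g₁).re ≠ (L g₂).re) ∧
      ∀ g : EuclideanSpace ℂ (Fin n) → EuclideanSpace ℂ (Fin n),
        (DifferentiableOn ℂ g (Metric.ball 0 1) ∧ Set.InjOn g (Metric.ball 0 1) ∧ g 0 = 0 ∧
          fderiv ℂ g 0 = ContinuousLinearMap.id ℂ (EuclideanSpace ℂ (Fin n)) ∧
          ∀ z ∈ Metric.ball (0 : EuclideanSpace ℂ (Fin n)) 1, z ≠ 0 →
            0 < (inner ℂ z ((fderiv ℂ g z).inverse (A (g z)))).re) →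
        (L g).re ≤ (L f).re) ↔
   (∃ L : (EuclideanSpace ℂ (Fin n) → EuclideanSpace ℂ (Fin n)) → ℂ,
      ((∀ g₁ g₂ : EuclideanSpace ℂ (Fin n) → EuclideanSpace ℂ (Fin n),
          DifferentiableOn ℂ g₁ (Metric.ball 0 1) → DifferentiableOn ℂ g₂ (Metric.ball 0 1) →
          L (g₁ + g₂) = L g₁ + L g₂) ∧
       (∀ (c : ℂ) (g : EuclideanSpace ℂ (Fin n) → EuclideanSpace ℂ (Fin n)),
          DifferentiableOn ℂ g (Metric.ball 0 1) → L (c • g) = c * L g) ∧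
       ∃ K : Set (EuclideanSpace ℂ (Fin n)), IsCompact K ∧ K ⊆ Metric.ball 0 1 ∧
         ∃ C : ℝ, ∀ g : EuclideanSpace ℂ (Fin n) → EuclideanSpace ℂ (Fin n),
           DifferentiableOn ℂ g (Metric.ball 0 1) →
           ∀ M : ℝ, (∀ x ∈ K, ‖g x‖ ≤ M) → ‖L g‖ ≤ C * M) ∧
      (∃ g₁ g₂ : EuclideanSpace ℂ (Fin n) → EuclideanSpace ℂ (Fin n),
        (DifferentiableOn ℂ g₁ (Metric.ball 0 1) ∧ g₁ 0 = 0 ∧ fderiv ℂ g₁ 0 = A ∧
          ∀ z ∈ Metric.ball (0 : EuclideanSpace ℂ (Fin n)) 1, z ≠ 0 → 0 < (inner ℂ z (g₁ z)).re) ∧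
        (DifferentiableOn ℂ g₂ (Metric.ball 0 1) ∧ g₂ 0 = 0 ∧ fderiv ℂ g₂ 0 = A ∧
          ∀ z ∈ Metric.ball (0 : EuclideanSpace ℂ (Fin n)) 1, z ≠ 0 → 0 < (inner ℂ z (g₂ z)).re) ∧
        (L g₁).re ≠ (L g₂).re) ∧
      ∀ g : EuclideanSpace ℂ (Fin n) → EuclideanSpace ℂ (Fin n),
        (DifferentiableOn ℂ g (Metric.ball 0 1) ∧ g 0 = 0 ∧ fderiv ℂ g 0 = A ∧
          ∀ z ∈ Metric.ball (0 : EuclideanSpace ℂ (Fin n)) 1, z ≠ 0 → 0 < (inner ℂ z (g z)).re) →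
        (L g).re ≤ (L (fun z => (fderiv ℂ f z).inverse (A (f z)))).re))) := by
  intro h
  have h2 := (h 2 le_rfl (ContinuousLinearMap.id ℂ (EuclideanSpace ℂ (Fin 2)))
    ⟨1, ?_, ?_⟩ (Pool.Agent.H26.SP.ff Pool.Agent.H26.SP.f1) Pool.Agent.H26.SP.f1_SC).mpr ?_
  · obtain ⟨L, ⟨hadd, hsm, K, hK, hKb, C, hC⟩, ⟨g₁, g₂, hg₁, hg₂, hne⟩, hmax⟩ := h2
    obtain ⟨ρ0, hρ0, hKρ⟩ := exists_pos_lt_subset_ball one_pos hK.isClosed hKb
    have hC0 : 0 ≤ C := by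
      have := hC 0 (differentiableOn_const 0) 1 (fun x _ => by simp)
      rw [mul_one] at this
      exact (norm_nonneg _).trans this
    have hL : Pool.Agent.H26.SP.LF L ρ0 C :=
      { add := hadd
        smul := hsm
        h0 := hρ0.1
        h1 := hρ0.2
        hC := hC0
        bd := fun g hg M hM => hC g hg M (fun x hx => hM x (Metric.ball_subset_closedBall (hKρ hx))) }
    have k1 := hL.const hmax g₁ hg₁
    have k2 := hL.const hmax g₂ hg₂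
    exact hne (k1.trans k2.symm)
  · intro z hz
    rw [ContinuousLinearMap.id_apply, inner_self_eq_norm_sq_to_K, hz]
    simp
  · intro μ hμ
    obtain ⟨v, hv⟩ := hμ.exists_hasEigenvector
    have h3 := hv.apply_eq_smul
    have h4 : v = μ • v := h3
    have h5 : (μ - 1) • v = 0 := by
      rw [sub_smul, one_smul, ← h4, sub_self]
    rcases smul_eq_zero.mp h5 with h6 | h6
    · rw [sub_eq_zero.mp h6]; norm_num
    · exact absurd h6 hv.2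
  · refine ⟨Pool.Agent.H26.SP.Lr, ⟨?_, ?_, {Pool.Agent.H26.SP.vec (-(1 / 2)) 0, Pool.Agent.H26.SP.vec (1 / 2) 0}, ?_, ?_, 2, ?_⟩,
      ⟨_, _, Pool.Agent.H26.SP.id_MC, Pool.Agent.H26.SP.cub_MC, ?_⟩, ?_⟩
    · intro g₁ g₂ _ _
      show (g₁ _ 0 + g₂ _ 0) - (g₁ _ 0 + g₂ _ 0) = (g₁ _ 0 - g₁ _ 0) + (g₂ _ 0 - g₂ _ 0)
      ring
    · intro c g _
      show c * (g _ 0) - c * (g _ 0) = c * (g _ 0 - g _ 0)
      ring
    · exact (Set.toFinite _).isCompact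
    · intro x hx
      rcases hx with rfl | hx
      · rw [Pool.Agent.H26.SP.vec_ball one_pos]; norm_num
      · rw [Set.mem_singleton_iff] at hx
        rw [hx, Pool.Agent.H26.SP.vec_ball one_pos]; norm_num
    · intro g _ M hM
      have m1 := (Pool.Agent.H26.SP.n0 _).trans (hM (Pool.Agent.H26.SP.vec (-(1 / 2)) 0) (by simp))
      have m2 := (Pool.Agent.H26.SP.n0 _).trans (hM (Pool.Agent.H26.SP.vec (1 / 2) 0) (by simp))
      have m3 : ‖Pool.Agent.H26.SP.Lr g‖ ≤ _ := norm_sub_le _ _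
      linarith
    · show (((-(1 / 2) : ℂ)) - (1 / 2 : ℂ)).re ≠
        (((-(1 / 2) : ℂ)) + (-(1 / 2) : ℂ) ^ 3 / 2 - ((1 / 2 : ℂ) + (1 / 2 : ℂ) ^ 3 / 2)).re
      have e1 : ((-(1 / 2) : ℂ)) - (1 / 2 : ℂ) = ((-1 : ℝ) : ℂ) := by push_cast; norm_num
      have e2 : ((-(1 / 2) : ℂ)) + (-(1 / 2) : ℂ) ^ 3 / 2 - ((1 / 2 : ℂ) + (1 / 2 : ℂ) ^ 3 / 2) = ((-(9 / 8) : ℝ) : ℂ) := by
        push_cast; norm_num
      rw [e1, e2, Complex.ofReal_re, Complex.ofReal_re]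
      norm_num
    · intro g hg
      have k1 := Pool.Agent.H26.SP.Lr_le g hg
      have k2 := Pool.Agent.H26.SP.Lr_hf
      have k3 : (Pool.Agent.H26.SP.Lr (fun z => (fderiv ℂ (Pool.Agent.H26.SP.ff Pool.Agent.H26.SP.f1) z).inverse
        ((ContinuousLinearMap.id ℂ (EuclideanSpace ℂ (Fin 2))) (Pool.Agent.H26.SP.ff Pool.Agent.H26.SP.f1 z)))).re = -(3 / 5) := k2
      rw [k3]
      exact k1

end Pool.Agent.S03320
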