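import Pool.Statements.S03328
-- import your own Pool.Agent.* helpers here

set_option autoImplicit false
open Pool Pool.MP_6079fc_an

namespace Pool.Agent.S03328


abbrev E1 := EuclideanSpace ℂ (Fin 1)

lemma dist_E1 (s t : E1) : dist s t = ‖s 0 - t 0‖ := by
  rw [EuclideanSpace.dist_eq]
  simp [dist_eq_norm]

lemma norm_E1 (s : E1) : ‖s‖ = ‖s 0‖ := by
  rw [EuclideanSpace.norm_eq]
  simp

noncomputable def ctr (j : ℕ) : ℂ := ((3 * j : ℝ) : ℂ)

lemma ctr_dist (i j : ℕ) (h : i ≠ j) : 3 ≤ ‖ctr i - ctr j‖ := by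
  unfold ctr
  rw [← Complex.ofReal_sub, Complex.norm_real, Real.norm_eq_abs]
  have h1 : (3 * (i : ℝ) - 3 * (j : ℝ)) = 3 * (((i : ℤ) - (j : ℤ) : ℤ) : ℝ) := by push_cast; ring
  rw [h1, abs_mul, abs_of_pos (by norm_num : (0 : ℝ) < 3)]
  have h2 : (1 : ℤ) ≤ |(i : ℤ) - (j : ℤ)| := by
    apply Int.one_le_abs
    intro h3
    apply h
    omega
  have h3 : (1 : ℝ) ≤ |(((i : ℤ) - (j : ℤ) : ℤ) : ℝ)| := by exact_mod_cast h2
  linarith

lemma inv_le_one' (j : ℕ) : 1 / ((j : ℝ) + 1) ≤ 1 := by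
  rw [div_le_one (by positivity)]
  have : (0 : ℝ) ≤ j := by positivity
  linarith

/-- disc number `j` -/
def DD (j : ℕ) : Set E1 := {s | ‖s 0 - ctr j‖ < 1 / ((j : ℝ) + 1)}

def Om : Set E1 := {s | ∃ j : ℕ, s ∈ DD j}

lemma cont0 : Continuous (fun s : E1 => s 0) := by fun_prop

lemma DD_open (j : ℕ) : IsOpen (DD j) :=
  isOpen_lt ((cont0.sub continuous_const).norm) continuous_const

lemma Om_open : IsOpen Om := by
  have : Om = ⋃ j, DD j := by
    ext s; simp [Om]
  rw [this]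
  exact isOpen_iUnion DD_open

lemma near_unique {i j : ℕ} {s z : E1} (hs : s ∈ DD j) (hz : z ∈ DD i) (h : dist z s < 1) :
    i = j := by
  by_contra hne
  have h1 := ctr_dist i j hne
  have h2 : ‖ctr i - ctr j‖ ≤ ‖z 0 - ctr i‖ + ‖z 0 - s 0‖ + ‖s 0 - ctr j‖ := by
    calc ‖ctr i - ctr j‖ = ‖-(z 0 - ctr i) + (z 0 - s 0) + (s 0 - ctr j)‖ := by congr 1; ring
      _ ≤ ‖-(z 0 - ctr i) + (z 0 - s 0)‖ + ‖s 0 - ctr j‖ := norm_add_le _ _
      _ ≤ ‖-(z 0 - ctr i)‖ + ‖z 0 - s 0‖ + ‖s 0 - ctr j‖ := by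
          gcongr; exact norm_add_le _ _
      _ = _ := by rw [norm_neg]
  rw [dist_E1] at h
  have h3 : ‖z 0 - ctr i‖ < 1 / ((i : ℝ) + 1) := hz
  have h4 : ‖s 0 - ctr j‖ < 1 / ((j : ℝ) + 1) := hs
  have h5 := inv_le_one' i
  have h6 := inv_le_one' j
  linarith

noncomputable def dl (s : E1) : ℝ := Metric.infDist s Omᶜ

lemma bd_mem (j : ℕ) : (EuclideanSpace.single (0 : Fin 1) (ctr j + ((1 / ((j : ℝ) + 1) : ℝ) : ℂ)) : E1) ∈ Omᶜ := by
  intro h
  obtain ⟨i, hi⟩ := h
  have hi' : ‖ctr j + ((1 / ((j : ℝ) + 1) : ℝ) : ℂ) - ctr i‖ < 1 / ((i : ℝ) + 1) := by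
    simpa [DD] using hi
  have hpos : (0 : ℝ) < 1 / ((j : ℝ) + 1) := by positivity
  by_cases hij : i = j
  · subst hij
    rw [add_sub_cancel_left, Complex.norm_real, Real.norm_eq_abs, abs_of_pos hpos] at hi'
    exact lt_irrefl _ hi'
  · have h1 := ctr_dist j i (Ne.symm hij)
    have h2 : ‖ctr j - ctr i‖ ≤ ‖ctr j + ((1 / ((j : ℝ) + 1) : ℝ) : ℂ) - ctr i‖
        + ‖((1 / ((j : ℝ) + 1) : ℝ) : ℂ)‖ := by
      calc ‖ctr j - ctr i‖ = ‖(ctr j + ((1 / ((j : ℝ) + 1) : ℝ) : ℂ) - ctr i)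
            - ((1 / ((j : ℝ) + 1) : ℝ) : ℂ)‖ := by congr 1; ring
        _ ≤ _ := norm_sub_le _ _
    rw [Complex.norm_real, Real.norm_eq_abs, abs_of_pos hpos] at h2
    have h3 := inv_le_one' j
    have h4 := inv_le_one' i
    linarith

lemma compl_nonempty : (Omᶜ).Nonempty := ⟨_, bd_mem 0⟩

lemma dl_pos_iff (s : E1) : 0 < dl s ↔ s ∈ Om := by
  unfold dl
  rw [← (Om_open.isClosed_compl).notMem_iff_infDist_pos compl_nonempty]
  simp

lemma dl_le {j : ℕ} {s : E1} (hs : s ∈ DD j) : dl s ≤ 2 / ((j : ℝ) + 1) := by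
  have h1 : dl s ≤ dist s (EuclideanSpace.single (0 : Fin 1) (ctr j + ((1 / ((j : ℝ) + 1) : ℝ) : ℂ)) : E1) :=
    Metric.infDist_le_dist_of_mem (bd_mem j)
  refine le_trans h1 ?_
  rw [dist_E1]
  have hpos : (0 : ℝ) < 1 / ((j : ℝ) + 1) := by positivity
  have h2 : ‖s 0 - (ctr j + ((1 / ((j : ℝ) + 1) : ℝ) : ℂ))‖ ≤ ‖s 0 - ctr j‖
      + ‖((1 / ((j : ℝ) + 1) : ℝ) : ℂ)‖ := by
    calc ‖s 0 - (ctr j + ((1 / ((j : ℝ) + 1) : ℝ) : ℂ))‖
        = ‖(s 0 - ctr j) - ((1 / ((j : ℝ) + 1) : ℝ) : ℂ)‖ := by congr 1; ring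
      _ ≤ _ := norm_sub_le _ _
  rw [Complex.norm_real, Real.norm_eq_abs, abs_of_pos hpos] at h2
  have h3 : ‖s 0 - ctr j‖ < 1 / ((j : ℝ) + 1) := hs
  have h4 : (EuclideanSpace.single (0 : Fin 1) (ctr j + ((1 / ((j : ℝ) + 1) : ℝ) : ℂ)) : E1) 0
      = ctr j + ((1 / ((j : ℝ) + 1) : ℝ) : ℂ) := by simp
  rw [h4]
  have h5 : 2 / ((j : ℝ) + 1) = 1 / ((j : ℝ) + 1) + 1 / ((j : ℝ) + 1) := by ring
  rw [h5]
  linarith

lemma dl_ge {j : ℕ} {s : E1} (hs : ‖s 0 - ctr j‖ = 1 / 2 * (1 / ((j : ℝ) + 1))) :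
    1 / 2 * (1 / ((j : ℝ) + 1)) ≤ dl s := by
  unfold dl
  rw [Metric.le_infDist compl_nonempty]
  intro y hy
  by_contra hc
  push Not at hc
  apply hy
  refine ⟨j, ?_⟩
  show ‖y 0 - ctr j‖ < 1 / ((j : ℝ) + 1)
  rw [dist_comm, dist_E1] at hc
  calc ‖y 0 - ctr j‖ = ‖(y 0 - s 0) + (s 0 - ctr j)‖ := by congr 1; ring
    _ ≤ ‖y 0 - s 0‖ + ‖s 0 - ctr j‖ := norm_add_le _ _
    _ < 1 / 2 * (1 / ((j : ℝ) + 1)) + 1 / 2 * (1 / ((j : ℝ) + 1)) := by linarith
    _ = 1 / ((j : ℝ) + 1) := by ring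

lemma norm_mul_dl (s : E1) : ‖s‖ * dl s ≤ 8 := by
  by_cases hs : s ∈ Om
  · obtain ⟨j, hj⟩ := hs
    have h1 := dl_le hj
    have h2 : ‖s 0 - ctr j‖ < 1 / ((j : ℝ) + 1) := hj
    have h3 : ‖s‖ ≤ 3 * j + 1 := by
      rw [norm_E1]
      have h4 : ‖s 0‖ ≤ ‖s 0 - ctr j‖ + ‖ctr j‖ := by
        calc ‖s 0‖ = ‖(s 0 - ctr j) + ctr j‖ := by congr 1; ring
          _ ≤ _ := norm_add_le _ _
      have h5 : ‖ctr j‖ = 3 * j := by
        unfold ctr
        rw [Complex.norm_real, Real.norm_eq_abs, abs_of_nonneg (by positivity)]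
      have h6 := inv_le_one' j
      linarith
    calc ‖s‖ * dl s ≤ (3 * j + 1) * (2 / ((j : ℝ) + 1)) :=
          mul_le_mul h3 h1 Metric.infDist_nonneg (by positivity)
      _ ≤ 8 := by
          rw [mul_div_assoc', div_le_iff₀ (by positivity)]
          have : (0 : ℝ) ≤ j := by positivity
          nlinarith
  · have : dl s = 0 := by
      have h1 : ¬ (0 < dl s) := fun h => hs ((dl_pos_iff s).1 h)
      exact le_antisymm (not_lt.1 h1) Metric.infDist_nonneg
    rw [this, mul_zero]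
    norm_num

lemma dl_tendsto : Filter.Tendsto dl (Filter.cocompact E1) (nhds 0) := by
  have h1 : Filter.Tendsto (fun s : E1 => 8 / ‖s‖) (Filter.cocompact E1) (nhds 0) :=
    Filter.Tendsto.div_atTop tendsto_const_nhds tendsto_norm_cocompact_atTop
  refine squeeze_zero' (Filter.Eventually.of_forall (fun s => Metric.infDist_nonneg)) ?_ h1
  have h2 : ∀ᶠ s : E1 in Filter.cocompact E1, 0 < ‖s‖ :=
    tendsto_norm_cocompact_atTop.eventually_gt_atTop 0
  filter_upwards [h2] with s hs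
  rw [le_div_iff₀ hs, mul_comm]
  exact norm_mul_dl s

lemma mean_log (c b : ℂ) (h : ∀ ζ : ℂ, ‖ζ‖ ≤ 1 → c + ζ * b ≠ 0) :
    (∫ θ in (0 : ℝ)..(2 * Real.pi), Real.log ‖c + Complex.exp ((θ : ℂ) * Complex.I) * b‖)
      = 2 * Real.pi * Real.log ‖c‖ := by
  by_cases hb : b = 0
  · subst hb
    simp
  have ha : 1 < ‖-c / b‖ := by
    by_contra hc
    push Not at hc
    apply h _ hc
    field_simp
    ring
  have h1 := circleAverage_log_norm_sub_const₂ ha
  rw [Real.circleAverage_def] at h1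
  have hpi : (0 : ℝ) < 2 * Real.pi := by positivity
  have h2 : (∫ θ in (0 : ℝ)..(2 * Real.pi), Real.log ‖circleMap 0 1 θ - (-c / b)‖)
      = 2 * Real.pi * Real.log ‖-c / b‖ := by
    rw [smul_eq_mul] at h1
    rw [← h1, ← mul_assoc, mul_inv_cancel₀ hpi.ne', one_mul]
  have hc0 : c ≠ 0 := by
    have := h 0 (by simp)
    simpa using this
  have h3 : ∀ θ : ℝ, Real.log ‖c + Complex.exp ((θ : ℂ) * Complex.I) * b‖
      = Real.log ‖b‖ + Real.log ‖circleMap 0 1 θ - (-c / b)‖ := by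
    intro θ
    have h4 : c + Complex.exp ((θ : ℂ) * Complex.I) * b
        = b * (circleMap 0 1 θ - (-c / b)) := by
      simp only [circleMap, zero_add, Complex.ofReal_one, one_mul]
      field_simp
      ring
    have h5 : circleMap 0 1 θ - (-c / b) ≠ 0 := by
      intro h6
      rw [h6, mul_zero] at h4
      exact h _ (by rw [Complex.norm_exp_ofReal_mul_I]) h4
    rw [h4, norm_mul, Real.log_mul (norm_ne_zero_iff.2 hb) (norm_ne_zero_iff.2 h5)]
  simp_rw [h3]
  have hcont : Continuous (fun θ : ℝ => Real.log ‖circleMap 0 1 θ - (-c / b)‖) := by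
    apply Continuous.log
    · exact ((continuous_circleMap 0 1).sub continuous_const).norm
    · intro θ h6
      have h7 : circleMap 0 1 θ = -c / b := by
        rw [norm_eq_zero, sub_eq_zero] at h6
        exact h6
      have h8 : ‖circleMap 0 1 θ‖ = 1 := by simp
      rw [h7] at h8
      linarith
  rw [intervalIntegral.integral_add (by simp) (hcont.intervalIntegrable _ _), h2,
    intervalIntegral.integral_const, norm_div, norm_neg,
    Real.log_div (norm_ne_zero_iff.2 hc0) (norm_ne_zero_iff.2 hb), smul_eq_mul]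
  ring

lemma dl_psh (a b : E1) (hab : ∀ ζ : ℂ, ‖ζ‖ ≤ 1 → 0 < dl (a + ζ • b)) :
    (∫ θ in (0:ℝ)..(2 * Real.pi),
          Real.log (dl (a + Complex.exp ((θ : ℂ) * Complex.I) • b)))
        ≤ 2 * Real.pi * Real.log (dl a) := by
  obtain ⟨w, hw, hdw⟩ := (Om_open.isClosed_compl).exists_infDist_eq_dist compl_nonempty a
  have hda : dl a = ‖a 0 - w 0‖ := by
    unfold dl
    rw [hdw, dist_E1]
  have hne : ∀ ζ : ℂ, ‖ζ‖ ≤ 1 → (a 0 - w 0) + ζ * b 0 ≠ 0 := by
    intro ζ hζ h0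
    have h1 : a + ζ • b = w := by
      ext i
      have hi : i = 0 := Subsingleton.elim _ _
      subst hi
      simp only [PiLp.add_apply, PiLp.smul_apply, smul_eq_mul]
      linear_combination h0
    have h2 := (dl_pos_iff _).1 (hab ζ hζ)
    rw [h1] at h2
    exact hw h2
  rw [hda, ← mean_log (a 0 - w 0) (b 0) hne]
  have hcd : Continuous dl := Metric.continuous_infDist_pt _
  have hexp : ∀ θ : ℝ, ‖Complex.exp ((θ : ℂ) * Complex.I)‖ ≤ 1 := by
    intro θ
    rw [Complex.norm_exp_ofReal_mul_I]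
  apply intervalIntegral.integral_mono_on (by positivity)
  · apply Continuous.intervalIntegrable
    apply Continuous.log
    · exact hcd.comp (by fun_prop)
    · intro θ
      exact (hab _ (hexp θ)).ne'
  · apply Continuous.intervalIntegrable
    apply Continuous.log
    · fun_prop
    · intro θ
      exact norm_ne_zero_iff.2 (hne _ (hexp θ))
  · intro θ _
    apply Real.log_le_log (hab _ (hexp θ))
    have h1 : dl (a + Complex.exp ((θ : ℂ) * Complex.I) • b)
        ≤ dist (a + Complex.exp ((θ : ℂ) * Complex.I) • b) w :=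
      Metric.infDist_le_dist_of_mem hw
    rw [dist_E1] at h1
    refine le_trans h1 (le_of_eq ?_)
    congr 1
    simp only [PiLp.add_apply, PiLp.smul_apply, smul_eq_mul]
    ring

open Classical in
noncomputable def JJ (s : E1) : ℕ := if h : ∃ j : ℕ, s ∈ DD j then Nat.find h else 0

lemma JJ_eq {j : ℕ} {s : E1} (hs : s ∈ DD j) : JJ s = j := by
  classical
  have h : ∃ j : ℕ, s ∈ DD j := ⟨j, hs⟩
  unfold JJ
  rw [dif_pos h]
  exact near_unique hs (Nat.find_spec h) (by simp)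

lemma diff_piece {F : Type*} [NormedAddCommGroup F] [NormedSpace ℂ F] (G : ℕ → E1 → F)
    (hG : ∀ j, Differentiable ℂ (G j)) : DifferentiableOn ℂ (fun s => G (JJ s) s) {s | 0 < dl s} := by
  intro s hs
  obtain ⟨j, hj⟩ := (dl_pos_iff s).1 hs
  apply DifferentiableAt.differentiableWithinAt
  apply (hG j s).congr_of_eventuallyEq
  filter_upwards [(DD_open j).mem_nhds hj] with z hz
  rw [JJ_eq hz]

/-- rescaled coordinate on disc `j` -/
noncomputable def zc (j : ℕ) (s : E1) : ℂ := (s 0 - ctr j) * ((j : ℂ) + 1)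

lemma zc_diff (j : ℕ) : Differentiable ℂ (zc j) := by
  unfold zc
  fun_prop

lemma zc_lt {j : ℕ} {s : E1} (hs : s ∈ DD j) : ‖zc j s‖ < 1 := by
  unfold zc
  rw [norm_mul]
  have h1 : ‖(j : ℂ) + 1‖ = (j : ℝ) + 1 := by
    have : (j : ℂ) + 1 = (((j : ℝ) + 1 : ℝ) : ℂ) := by push_cast; ring
    rw [this, Complex.norm_real, Real.norm_eq_abs, abs_of_pos (by positivity)]
  rw [h1]
  have h2 : ‖s 0 - ctr j‖ < 1 / ((j : ℝ) + 1) := hs
  rwa [lt_div_iff₀ (by positivity)] at h2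

noncomputable def f1 (j : ℕ) (s : E1) : Fin 1 → ℂ := fun _ => (zc j s) ^ (2 * j)
noncomputable def f2 (j : ℕ) (_ : E1) : Fin 1 → ℂ := fun _ => (1 / 64 : ℂ) ^ j
noncomputable def g0 (j : ℕ) (s : E1) : Fin 1 → ℂ := fun _ => (1 / 64 : ℂ) ^ j * (4 * zc j s) ^ j

lemma f1_diff (j : ℕ) : Differentiable ℂ (f1 j) := by
  unfold f1
  rw [differentiable_pi]
  intro _
  exact (zc_diff j).pow _
lemma f2_diff (j : ℕ) : Differentiable ℂ (f2 j) := by
  unfold f2
  fun_prop
lemma g0_diff (j : ℕ) : Differentiable ℂ (g0 j) := by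
  unfold g0
  rw [differentiable_pi]
  intro _
  exact ((zc_diff j).const_mul 4).pow j |>.const_mul _

lemma norm_f1 {s : E1} (hs : 0 < dl s) : ‖f1 (JJ s) s‖ ≤ 1 := by
  obtain ⟨j, hj⟩ := (dl_pos_iff s).1 hs
  rw [JJ_eq hj]
  unfold f1
  rw [pi_norm_le_iff_of_nonneg zero_le_one]
  intro _
  rw [norm_pow]
  exact pow_le_one₀ (norm_nonneg _) (zc_lt hj).le

lemma norm_f2 (s : E1) : ‖f2 (JJ s) s‖ ≤ 1 := by
  unfold f2
  rw [pi_norm_le_iff_of_nonneg zero_le_one]
  intro _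
  rw [norm_pow]
  apply pow_le_one₀ (norm_nonneg _)
  norm_num

lemma norm_g0 {s : E1} (hs : 0 < dl s) : ‖g0 (JJ s) s‖ ≤ 1 := by
  obtain ⟨j, hj⟩ := (dl_pos_iff s).1 hs
  rw [JJ_eq hj]
  unfold g0
  rw [pi_norm_le_iff_of_nonneg zero_le_one]
  intro _
  rw [← mul_pow, norm_pow]
  apply pow_le_one₀ (norm_nonneg _)
  rw [norm_mul, norm_mul]
  have h1 := (zc_lt hj).le
  have h2 : ‖(1 / 64 : ℂ)‖ = 1 / 64 := by norm_num
  have h3 : ‖(4 : ℂ)‖ = 4 := by norm_num
  rw [h2, h3]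
  nlinarith [norm_nonneg (zc j s)]

/-- The negation of the preceding statement: Take δ≥0 on C^n: K-Lipschitz, vanishing at infinity, ∣s∣δ(s) bounded, −log δ psh on {δ>0}. For εK<1, if g is locally Σu_i f_i on balls B(s,εδ(s)) with ∣u_i∣<Mδ(s)^−N, then g=Σh_i f_i with h_i in O(δ). -/
theorem result :
    ¬ (∀ (n q k : ℕ) (δ : EuclideanSpace ℂ (Fin n) → ℝ) (K : NNReal),
    (∀ s, 0 ≤ δ s) → Continuous δ →
    Filter.Tendsto δ (Filter.cocompact _) (nhds 0) →
    LipschitzWith K δ →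
    (∃ C : ℝ, ∀ s, ‖s‖ * δ s ≤ C) →
    (∀ a b : EuclideanSpace ℂ (Fin n), (∀ ζ : ℂ, ‖ζ‖ ≤ 1 → 0 < δ (a + ζ • b)) →
       (∫ θ in (0:ℝ)..(2 * Real.pi),
          Real.log (δ (a + Complex.exp ((θ : ℂ) * Complex.I) • b)))
        ≤ 2 * Real.pi * Real.log (δ a)) →
    ∀ ε : ℝ, 0 < ε → ε * (K : ℝ) < 1 →
    ∀ (f : Fin k → EuclideanSpace ℂ (Fin n) → (Fin q → ℂ))
      (g : EuclideanSpace ℂ (Fin n) → (Fin q → ℂ)),
      (∀ i, DifferentiableOn ℂ (f i) {s | 0 < δ s} ∧
        ∃ N : ℕ, ∃ C : ℝ, ∀ z, 0 < δ z → δ z ^ N * ‖f i z‖ ≤ C) →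
      (DifferentiableOn ℂ g {s | 0 < δ s} ∧
        ∃ N : ℕ, ∃ C : ℝ, ∀ z, 0 < δ z → δ z ^ N * ‖g z‖ ≤ C) →
      (∃ M : ℝ, ∃ N : ℕ, ∀ s, 0 < δ s →
        ∃ u : Fin k → EuclideanSpace ℂ (Fin n) → ℂ,
          (∀ i, DifferentiableOn ℂ (u i) (Metric.ball s (ε * δ s))) ∧
          (∀ z ∈ Metric.ball s (ε * δ s), g z = ∑ i, u i z • f i z) ∧
          (∀ i, ∀ z ∈ Metric.ball s (ε * δ s), ‖u i z‖ < M / δ s ^ N)) →
      ∃ h : Fin k → EuclideanSpace ℂ (Fin n) → ℂ,
        (∀ i, DifferentiableOn ℂ (h i) {s | 0 < δ s} ∧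
          ∃ N : ℕ, ∃ C : ℝ, ∀ z, 0 < δ z → δ z ^ N * ‖h i z‖ ≤ C) ∧
        ∀ z, 0 < δ z → g z = ∑ i, h i z • f i z) := by
  intro H
  have key := H 1 1 2 dl 1 (fun s => Metric.infDist_nonneg) (Metric.continuous_infDist_pt _)
    dl_tendsto (Metric.lipschitz_infDist_pt _) ⟨8, norm_mul_dl⟩ dl_psh (1 / 32) (by norm_num)
    (by norm_num) ![fun s => f1 (JJ s) s, fun s => f2 (JJ s) s] (fun s => g0 (JJ s) s) ?_ ?_ ?_
  · obtain ⟨h, hh, hsum⟩ := key
    obtain ⟨hd1, N, C, hC⟩ := hh 1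
    obtain ⟨hd0, -⟩ := hh 0
    -- growth contradiction
    have hgrow : ∀ j : ℕ, 1 ≤ j → (2 : ℝ) ^ j ≤ |C| * (2 * ((j : ℝ) + 1)) ^ N := by
      intro j hj
      set φ : ℂ → E1 := fun w => EuclideanSpace.single (0 : Fin 1) (ctr j + w / ((j : ℂ) + 1)) with hφ
      have hj0 : (j : ℂ) + 1 ≠ 0 := by
        have : ((j + 1 : ℕ) : ℂ) ≠ 0 := by
          rw [Nat.cast_ne_zero]; omega
        simpa using this
      have hjn : ‖(j : ℂ) + 1‖ = (j : ℝ) + 1 := by
        have : (j : ℂ) + 1 = (((j : ℝ) + 1 : ℝ) : ℂ) := by push_cast; ring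
        rw [this, Complex.norm_real, Real.norm_eq_abs, abs_of_pos (by positivity)]
      have hφ0 : ∀ w, (φ w) 0 = ctr j + w / ((j : ℂ) + 1) := by
        intro w; simp [hφ]
      have hzc : ∀ w, zc j (φ w) = w := by
        intro w
        unfold zc
        rw [hφ0]
        field_simp
        ring
      have hmem : ∀ w, ‖w‖ < 1 → φ w ∈ DD j := by
        intro w hw
        show ‖(φ w) 0 - ctr j‖ < 1 / ((j : ℝ) + 1)
        rw [hφ0, add_sub_cancel_left, norm_div, hjn]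
        exact div_lt_div_of_pos_right hw (by positivity)
      have hφd : Differentiable ℂ φ := by
        rw [differentiable_euclidean]
        intro i
        have hi : i = 0 := Subsingleton.elim _ _
        subst hi
        have : (fun x => (φ x) 0) = fun w => ctr j + w / ((j : ℂ) + 1) := by
          funext w; exact hφ0 w
        rw [this]
        fun_prop
      set Φ : ℂ → ℂ := fun w => 4 ^ j - 64 ^ j * h 0 (φ w) * w ^ j with hΦ
      have hOmo : IsOpen {s : E1 | 0 < dl s} := by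
        have : {s : E1 | 0 < dl s} = Om := by
          ext s; exact dl_pos_iff s
        rw [this]; exact Om_open
      have hΦd : DifferentiableOn ℂ Φ (Metric.closedBall 0 (1 / 2)) := by
        intro w hw
        have hw' : ‖w‖ < 1 := by
          rw [mem_closedBall_zero_iff] at hw
          linarith
        have h1 : φ w ∈ {s : E1 | 0 < dl s} := (dl_pos_iff _).2 ⟨j, hmem w hw'⟩
        have h2 : DifferentiableAt ℂ (h 0) (φ w) := (hd0 _ h1).differentiableAt (hOmo.mem_nhds h1)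
        have h3 : DifferentiableAt ℂ (fun w => h 0 (φ w)) w := h2.comp w (hφd w)
        apply DifferentiableAt.differentiableWithinAt
        exact (differentiableAt_const _).sub (((differentiableAt_const _).mul h3).mul
          (differentiableAt_id.pow j))
      have hsph : ∀ w ∈ frontier (Metric.ball (0 : ℂ) (1 / 2)), ‖Φ w‖ ≤ 2 ^ j * (|C| * (2 * ((j : ℝ) + 1)) ^ N) := by
        intro w hw
        rw [frontier_ball _ (by norm_num), mem_sphere_zero_iff_norm] at hw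
        have hw' : ‖w‖ < 1 := by rw [hw]; norm_num
        have hD := hmem w hw'
        have hpos : 0 < dl (φ w) := (dl_pos_iff _).2 ⟨j, hD⟩
        have h1 := congrFun (hsum (φ w) hpos) 0
        simp only [Fin.sum_univ_two, Matrix.cons_val_zero, Matrix.cons_val_one, Pi.add_apply,
          Pi.smul_apply, smul_eq_mul, JJ_eq hD, f1, f2, g0, hzc] at h1
        have h2 : h 1 (φ w) = w ^ j * Φ w := by
          have h64 : (1 / 64 : ℂ) ^ j * 64 ^ j = 1 := by
            rw [← mul_pow]; norm_num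
          have e1 : w ^ (2 * j) = w ^ j * w ^ j := by rw [two_mul, pow_add]
          rw [hΦ]
          simp only
          rw [e1, mul_pow] at h1
          linear_combination (-(64 : ℂ) ^ j) * h1 + (4 ^ j * w ^ j - h 1 (φ w)) * h64
        have h3 : ‖Φ w‖ = 2 ^ j * ‖h 1 (φ w)‖ := by
          rw [h2, norm_mul, norm_pow, hw, ← mul_assoc, ← mul_pow]
          norm_num
        rw [h3]
        apply mul_le_mul_of_nonneg_left _ (by positivity)
        have h4 := hC (φ w) hpos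
        have h5 : 1 / 2 * (1 / ((j : ℝ) + 1)) ≤ dl (φ w) := by
          apply dl_ge
          rw [hφ0, add_sub_cancel_left, norm_div, hjn, hw]
          ring
        have h6 : (1 / 2 * (1 / ((j : ℝ) + 1))) ^ N * ‖h 1 (φ w)‖ ≤ |C| := by
          calc (1 / 2 * (1 / ((j : ℝ) + 1))) ^ N * ‖h 1 (φ w)‖
              ≤ dl (φ w) ^ N * ‖h 1 (φ w)‖ := by
                apply mul_le_mul_of_nonneg_right _ (norm_nonneg _)
                exact pow_le_pow_left₀ (by positivity) h5 N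
            _ ≤ C := h4
            _ ≤ |C| := le_abs_self C
        have h7 : (1 / 2 * (1 / ((j : ℝ) + 1))) ^ N * (2 * ((j : ℝ) + 1)) ^ N = 1 := by
          rw [← mul_pow]
          have : 1 / 2 * (1 / ((j : ℝ) + 1)) * (2 * ((j : ℝ) + 1)) = 1 := by
            field_simp
          rw [this, one_pow]
        calc ‖h 1 (φ w)‖ = ((1 / 2 * (1 / ((j : ℝ) + 1))) ^ N * ‖h 1 (φ w)‖)
              * (2 * ((j : ℝ) + 1)) ^ N := by
              rw [mul_right_comm, h7, one_mul]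
          _ ≤ |C| * (2 * ((j : ℝ) + 1)) ^ N := mul_le_mul_of_nonneg_right h6 (by positivity)
      have hdcl : DiffContOnCl ℂ Φ (Metric.ball 0 (1 / 2)) := by
        apply DifferentiableOn.diffContOnCl
        rw [closure_ball _ (by norm_num)]
        exact hΦd
      have h0 : ‖Φ 0‖ ≤ 2 ^ j * (|C| * (2 * ((j : ℝ) + 1)) ^ N) :=
        Complex.norm_le_of_forall_mem_frontier_norm_le Metric.isBounded_ball hdcl hsph
          (subset_closure (Metric.mem_ball_self (by norm_num)))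
      have hΦ0 : Φ 0 = 4 ^ j := by
        rw [hΦ]
        simp only
        rw [zero_pow (by omega), mul_zero, sub_zero]
      rw [hΦ0, norm_pow] at h0
      have h4 : ‖(4 : ℂ)‖ ^ j = 2 ^ j * 2 ^ j := by
        rw [← mul_pow]; norm_num
      rw [h4] at h0
      exact le_of_mul_le_mul_left h0 (by positivity)
    have hlim := tendsto_pow_const_mul_const_pow_of_abs_lt_one N (r := (1 / 2 : ℝ))
      (by rw [abs_of_pos] <;> norm_num)
    have hlim2 := (hlim.comp (Filter.tendsto_add_atTop_nat 1)).const_mul (|C| * 2 ^ N * 2)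
    rw [mul_zero] at hlim2
    obtain ⟨j, hj, hj1⟩ := ((hlim2.eventually (gt_mem_nhds (by norm_num : (0 : ℝ) < 1))).and
      (Filter.eventually_ge_atTop 1)).exists
    have h1 := hgrow j hj1
    simp only [Function.comp] at hj
    push_cast at hj
    have h2 : (1 / 2 : ℝ) ^ (j + 1) * (2 * 2 ^ j) = 1 := by
      rw [one_div, inv_pow, pow_succ]
      field_simp
    have h3 : (|C| * 2 ^ N * 2 * (((j : ℝ) + 1) ^ N * (1 / 2) ^ (j + 1))) * 2 ^ j < 1 * 2 ^ j :=
      mul_lt_mul_of_pos_right hj (by positivity)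
    have h4 : (|C| * 2 ^ N * 2 * (((j : ℝ) + 1) ^ N * (1 / 2) ^ (j + 1))) * 2 ^ j
        = |C| * (2 ^ N * ((j : ℝ) + 1) ^ N) * ((1 / 2 : ℝ) ^ (j + 1) * (2 * 2 ^ j)) := by ring
    rw [h4, h2, mul_one, ← mul_pow] at h3
    linarith
  · intro i
    fin_cases i
    · refine ⟨diff_piece f1 f1_diff, 0, 1, fun z hz => ?_⟩
      simpa using norm_f1 hz
    · refine ⟨diff_piece f2 f2_diff, 0, 1, fun z hz => ?_⟩
      simpa using norm_f2 z
  · refine ⟨diff_piece g0 g0_diff, 0, 1, fun z hz => ?_⟩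
    simpa using norm_g0 hz
  · refine ⟨2, 0, fun s hs => ?_⟩
    obtain ⟨j, hj⟩ := (dl_pos_iff s).1 hs
    have hjn : ‖(j : ℂ) + 1‖ = (j : ℝ) + 1 := by
      have : (j : ℂ) + 1 = (((j : ℝ) + 1 : ℝ) : ℂ) := by push_cast; ring
      rw [this, Complex.norm_real, Real.norm_eq_abs, abs_of_pos (by positivity)]
    have hin : ∀ z ∈ Metric.ball s (1 / 32 * dl s), z ∈ DD j ∧ ‖zc j z - zc j s‖ < 1 / 16 := by
      intro z hz
      rw [Metric.mem_ball] at hz
      have h1 := dl_le hj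
      have h2 : dist z s < 1 / 16 * (1 / ((j : ℝ) + 1)) := by
        calc dist z s < 1 / 32 * dl s := hz
          _ ≤ 1 / 32 * (2 / ((j : ℝ) + 1)) := by linarith
          _ = 1 / 16 * (1 / ((j : ℝ) + 1)) := by ring
      have h3 := inv_le_one' j
      have h4 : dist z s < 1 := by linarith
      have h5 : z ∈ Om := by
        by_contra hc
        have h6 : dl s ≤ dist s z := Metric.infDist_le_dist_of_mem hc
        rw [dist_comm] at h6
        linarith
      obtain ⟨i, hi⟩ := h5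
      have h6 := near_unique hj hi h4
      subst h6
      refine ⟨hi, ?_⟩
      unfold zc
      rw [← sub_mul, sub_sub_sub_cancel_right, norm_mul, hjn]
      rw [dist_E1] at h2
      calc ‖z 0 - s 0‖ * ((i : ℝ) + 1) < 1 / 16 * (1 / ((i : ℝ) + 1)) * ((i : ℝ) + 1) :=
            mul_lt_mul_of_pos_right h2 (by positivity)
        _ = 1 / 16 := by field_simp
    by_cases hcase : ‖zc j s‖ ≤ 1 / 8
    · refine ⟨![fun _ => 0, fun z => (4 * zc j z) ^ j], ?_, ?_, ?_⟩
      · intro i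
        fin_cases i
        · exact differentiableOn_const _
        · exact ((((zc_diff j).const_mul 4).pow j)).differentiableOn
      · intro z hz
        obtain ⟨h1, h2⟩ := hin z hz
        funext t
        simp only [Fin.sum_univ_two, Matrix.cons_val_zero, Matrix.cons_val_one, Pi.add_apply,
          Pi.smul_apply, smul_eq_mul, JJ_eq h1, f1, f2, g0]
        ring
      · intro i z hz
        obtain ⟨h1, h2⟩ := hin z hz
        fin_cases i
        · simp
        · show ‖(4 * zc j z) ^ j‖ < 2 / dl s ^ 0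
          rw [pow_zero, div_one, norm_pow, norm_mul]
          have h3 : ‖zc j z‖ ≤ 1 / 4 := by
            calc ‖zc j z‖ = ‖(zc j z - zc j s) + zc j s‖ := by congr 1; ring
              _ ≤ ‖zc j z - zc j s‖ + ‖zc j s‖ := norm_add_le _ _
              _ ≤ 1 / 4 := by linarith
          have h4 : ‖(4 : ℂ)‖ * ‖zc j z‖ ≤ 1 := by
            have : ‖(4 : ℂ)‖ = 4 := by norm_num
            rw [this]; linarith
          have h5 := pow_le_one₀ (n := j) (by positivity) h4
          linarith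
    · push Not at hcase
      have hbig : ∀ z ∈ Metric.ball s (1 / 32 * dl s), 1 / 16 < ‖zc j z‖ := by
        intro z hz
        obtain ⟨h1, h2⟩ := hin z hz
        have h3 : ‖zc j s‖ ≤ ‖zc j z‖ + ‖zc j z - zc j s‖ := by
          calc ‖zc j s‖ = ‖zc j z - (zc j z - zc j s)‖ := by congr 1; ring
            _ ≤ _ := norm_sub_le _ _
        linarith
      have hnz : ∀ z ∈ Metric.ball s (1 / 32 * dl s), zc j z ≠ 0 := by
        intro z hz h0
        have := hbig z hz
        rw [h0, norm_zero] at this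
        linarith
      refine ⟨![fun z => ((16 * zc j z)⁻¹) ^ j, fun _ => 0], ?_, ?_, ?_⟩
      · intro i
        fin_cases i
        · show DifferentiableOn ℂ (fun z => ((16 * zc j z)⁻¹) ^ j) _
          apply DifferentiableOn.pow
          apply DifferentiableOn.inv
          · exact ((zc_diff j).const_mul 16).differentiableOn
          · intro z hz
            exact mul_ne_zero (by norm_num) (hnz z hz)
        · exact differentiableOn_const _
      · intro z hz
        obtain ⟨h1, h2⟩ := hin z hz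
        funext t
        simp only [Fin.sum_univ_two, Matrix.cons_val_zero, Matrix.cons_val_one, Pi.add_apply,
          Pi.smul_apply, smul_eq_mul, JJ_eq h1, f1, f2, g0, zero_mul, add_zero]
        have h0 := hnz z hz
        rw [pow_mul, ← mul_pow, ← mul_pow]
        congr 1
        field_simp
        norm_num
      · intro i z hz
        fin_cases i
        · show ‖((16 * zc j z)⁻¹) ^ j‖ < 2 / dl s ^ 0
          rw [pow_zero, div_one, norm_pow, norm_inv, norm_mul]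
          have h3 := hbig z hz
          have h4 : 1 ≤ ‖(16 : ℂ)‖ * ‖zc j z‖ := by
            have : ‖(16 : ℂ)‖ = 16 := by norm_num
            rw [this]; linarith
          have h5 : (‖(16 : ℂ)‖ * ‖zc j z‖)⁻¹ ≤ 1 := inv_le_one_of_one_le₀ h4
          have h6 := pow_le_one₀ (n := j) (by positivity) h5
          linarith
        · simp

end Pool.Agent.S03328
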