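import Pool.Statements.S03351
import Pool.Agent.H13.CqC

set_option autoImplicit false
open scoped Pointwise
open Pool Pool.MP_63c1ce_an

namespace Pool.Agent.S03351

/-- For any group G acting on X: if some countably additive mass-one measure on all subsets of X is zero on every set having infinitely many disjoint countably-equidecomposable copies in X, then some countably additive mass-one G-invariant measure on all subsets exists. -/
theorem result :
    ∀ (G X : Type) [Group G] [MulAction G X],
      (∃ μ : Set X → ENNReal, μ Set.univ = 1 ∧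
        (∀ s : ℕ → Set X, Pairwise (Function.onFun Disjoint s) →
            μ (⋃ n, s n) = ∑' n, μ (s n)) ∧
        (∀ A : Set X,
          (∃ B : ℕ → Set X, Pairwise (Function.onFun Disjoint B) ∧
            ∀ n, ∃ (P : ℕ → Set X) (g : ℕ → G),
              Pairwise (Function.onFun Disjoint P) ∧ (⋃ i, P i) = A ∧
              Pairwise (Function.onFun Disjoint (fun i => g i • P i)) ∧
              (⋃ i, g i • P i) = B n) →
          μ A = 0)) →
      ∃ ν : Set X → ENNReal, ν Set.univ = 1 ∧
        (∀ s : ℕ → Set X, Pairwise (Function.onFun Disjoint s) →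
            ν (⋃ n, s n) = ∑' n, ν (s n)) ∧
        ∀ (g : G) (A : Set X), ν (g • A) = ν A := by
  intro G X _ _ hyp
  obtain ⟨μ, h1, h2, h3⟩ := hyp
  letI : MeasurableSpace X := ⊤
  haveI : DiscreteMeasurableSpace X := ⟨fun _ => trivial⟩
  have h0 : μ ∅ = 0 := by
    have h4 := h2 (fun _ => ∅) (fun i j _ => by simp [Function.onFun])
    rw [Set.iUnion_empty] at h4
    by_contra hne
    have h5 : ∑' _ : ℕ, μ ∅ = ⊤ := ENNReal.tsum_const_eq_top_of_ne_zero hne
    rw [h5] at h4
    have h6 := h2 (fun n => if n = 0 then Set.univ else ∅) (by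
      intro i j hij
      simp only [Function.onFun]
      by_cases hi : i = 0
      · have hj : j ≠ 0 := fun h => hij (hi.trans h.symm)
        simp [hj]
      · simp [hi])
    have h7 : (⋃ n : ℕ, (if n = 0 then (Set.univ : Set X) else ∅)) = Set.univ := by
      apply Set.eq_univ_of_forall
      intro x
      exact Set.mem_iUnion.mpr ⟨0, by simp⟩
    rw [h7, h1] at h6
    have h8 : μ (if (1 : ℕ) = 0 then (Set.univ : Set X) else ∅) ≤
        ∑' n : ℕ, μ (if n = 0 then (Set.univ : Set X) else ∅) := ENNReal.le_tsum 1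
    rw [← h6] at h8
    simp only [one_ne_zero, if_false] at h8
    rw [h4] at h8
    exact absurd h8 (by simp)
  let M : MeasureTheory.Measure X := MeasureTheory.Measure.ofMeasurable (fun s _ => μ s) h0
    (fun f _ hf => h2 f hf)
  have hM : ∀ A : Set X, M A = μ A := fun A =>
    MeasureTheory.Measure.ofMeasurable_apply A MeasurableSet.of_discrete
  haveI : MeasureTheory.IsProbabilityMeasure M := ⟨by rw [hM, h1]⟩
  obtain ⟨m, m1, m2, m3⟩ := Pool.Agent.H13.Cq.step1b (G := G) M (fun A hA => by
    rw [hM]; exact h3 A hA)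
  obtain ⟨δ, d1, d2⟩ := Pool.Agent.H13.Cq.step2 (G := G) m m1 m2 m3
  haveI : MeasureTheory.IsProbabilityMeasure m := ⟨m1⟩
  have hδ : min δ 1 ≠ ⊤ := (lt_of_le_of_lt (min_le_right _ _) ENNReal.one_lt_top).ne
  obtain ⟨ν, n1, n2⟩ := Pool.Agent.H13.Cq.exists_inv (G := G) m m3 (min δ 1).toReal
    (ENNReal.toReal_pos (lt_min d1 one_pos).ne' hδ) (by
      intro g E
      rw [ENNReal.ofReal_toReal hδ]
      rcases d2 g E with h | h
      · exact Or.inl ((min_le_left _ _).trans h)
      · exact Or.inr ((min_le_left _ _).trans h))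
  refine ⟨fun A => ν A, n1, ?_, n2⟩
  intro s hs
  exact MeasureTheory.measure_iUnion hs (fun _ => MeasurableSet.of_discrete)

end Pool.Agent.S03351
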