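import Pool.Statements.S03355
import Pool.Agent.PRd

set_option autoImplicit false
open Pool Pool.MP_64ccd3_an

namespace Pool.Agent.S03355

/-- Suppose a power series has radius 1, its partial sums are uniformly bounded on its singular set E, and E has positive measure on the circle. Then at every circle point outside E the series converges to the value of the local analytic continuation. -/
theorem result :
  ∀ (a : ℕ → ℂ) (E : Set ℂ),
    (FormalMultilinearSeries.ofScalars ℂ a).radius = 1 →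
    E = {ξ : ℂ | ‖ξ‖ = 1 ∧ ¬ ∃ r : ℝ, 0 < r ∧ ∃ g : ℂ → ℂ,
          DifferentiableOn ℂ g (Metric.ball ξ r) ∧
          ∀ w ∈ Metric.ball ξ r, ‖w‖ < 1 → g w = ∑' n, a n * w ^ n} →
    (∃ M : ℝ, ∀ ξ ∈ E, ∀ N : ℕ, ‖∑ n ∈ Finset.range (N + 1), a n * ξ ^ n‖ ≤ M) →
    0 < MeasureTheory.volume
          {θ : ℝ | θ ∈ Set.Ioc 0 (2 * Real.pi) ∧ Complex.exp ((θ : ℂ) * Complex.I) ∈ E} →
    ∀ z : ℂ, ‖z‖ = 1 → z ∉ E →
      ∃ L : ℂ, Filter.Tendsto (fun N : ℕ => ∑ n ∈ Finset.range N, a n * z ^ n)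
            Filter.atTop (nhds L) ∧
        ∃ r : ℝ, 0 < r ∧ ∃ g : ℂ → ℂ, DifferentiableOn ℂ g (Metric.ball z r) ∧
          (∀ w ∈ Metric.ball z r, ‖w‖ < 1 → g w = ∑' n, a n * w ^ n) ∧ g z = L := by
  intro a E _ hE ⟨M, hM⟩ hpos z hz hzE
  have hT : ∀ m t, Pool.Agent.PRz.T a m t = Pool.Agent.PRz.PP a m (Pool.Agent.PRz.ei t) := by
    intro m t
    unfold Pool.Agent.PRz.T Pool.Agent.PRz.PP
    refine Finset.sum_congr rfl (fun k _ => ?_)
    congr 1
    unfold Pool.Agent.PRz.ei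
    rw [← Complex.exp_nat_mul]
    congr 1
    push_cast
    ring
  set C : Set ℝ := {t : ℝ | Pool.Agent.PRz.ei t ∈ E} with hCdef
  -- regular points
  have hreg : ∀ w : ℂ, ‖w‖ = 1 → w ∉ E → ∃ r : ℝ, 0 < r ∧ ∃ g : ℂ → ℂ,
      DifferentiableOn ℂ g (Metric.ball w r) ∧
      ∀ v ∈ Metric.ball w r, ‖v‖ < 1 → g v = ∑' n, a n * v ^ n := by
    intro w hw hwE
    by_contra hcon
    apply hwE
    rw [hE]
    exact ⟨hw, hcon⟩
  have hei : ∀ s t : ℝ, dist (Pool.Agent.PRz.ei s) (Pool.Agent.PRz.ei t) ≤ |s - t| := by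
    intro s t
    have h1 : Pool.Agent.PRz.ei s = Pool.Agent.PRz.ei t * Pool.Agent.PRz.ei (s - t) := by
      rw [← Pool.Agent.PRz.ei_add]; congr 1; ring
    rw [dist_comm, dist_eq_norm]
    have h2 : Pool.Agent.PRz.ei t - Pool.Agent.PRz.ei s =
        Pool.Agent.PRz.ei t * (1 - Pool.Agent.PRz.ei (s - t)) := by rw [h1]; ring
    rw [h2, norm_mul, Pool.Agent.PRz.ei_norm, one_mul]
    exact Pool.Agent.PRz.ei_sub_one _
  -- a point of the singular set
  obtain ⟨θ, hθ⟩ : ∃ θ : ℝ, θ ∈ C := by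
    by_contra hcon
    push Not at hcon
    have : {θ : ℝ | θ ∈ Set.Ioc 0 (2 * Real.pi) ∧ Complex.exp ((θ : ℂ) * Complex.I) ∈ E} = ∅ := by
      ext θ
      simp only [Set.mem_setOf_eq, Set.mem_empty_iff_false, iff_false, not_and]
      intro _ h
      exact hcon θ h
    rw [this] at hpos
    simp at hpos
  have hθ2 : θ + 2 * Real.pi ∈ C := by
    have h1 : Pool.Agent.PRz.ei (θ + 2 * Real.pi) = Pool.Agent.PRz.ei θ := by
      have h2 := Pool.Agent.PRz.ei_int_two_pi 1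
      rw [Pool.Agent.PRz.ei_add]
      simp only [Int.cast_one, one_mul] at h2
      rw [h2, mul_one]
    rw [hCdef, Set.mem_setOf_eq, h1]
    exact hθ
  have hMC : ∀ t ∈ C, ∀ m, ‖Pool.Agent.PRz.T a m t‖ ≤ M := by
    intro t ht m
    rw [hT]
    cases m with
    | zero =>
      have := hM _ ht 0
      have h0 : ‖Pool.Agent.PRz.PP a 0 (Pool.Agent.PRz.ei t)‖ = 0 := by
        simp [Pool.Agent.PRz.PP]
      rw [h0]
      exact (norm_nonneg _).trans this
    | succ m => exact hM _ ht m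
  have hB : ∀ n, ‖a n‖ ≤ 2 * M := by
    intro n
    have h1 : a n * Pool.Agent.PRz.ei (n * θ) =
        Pool.Agent.PRz.T a (n + 1) θ - Pool.Agent.PRz.T a n θ := by
      unfold Pool.Agent.PRz.T
      rw [Finset.sum_range_succ]
      ring
    have h2 : ‖a n‖ = ‖a n * Pool.Agent.PRz.ei (n * θ)‖ := by
      rw [norm_mul, Pool.Agent.PRz.ei_norm, mul_one]
    rw [h2, h1]
    have := (norm_sub_le (Pool.Agent.PRz.T a (n + 1) θ) (Pool.Agent.PRz.T a n θ)).trans
      (add_le_add (hMC θ hθ _) (hMC θ hθ _))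
    linarith
  have hloc : ∀ t, t ∉ C → ∃ δ > 0, ∃ K, ∀ s, |s - t| < δ → ∀ N,
      ‖Pool.Agent.PRz.T a N s‖ ≤ K := by
    intro t ht
    obtain ⟨r, hr, g, hg, hgf⟩ := hreg _ (Pool.Agent.PRz.ei_norm t) ht
    obtain ⟨K, hK⟩ := Pool.Agent.PRz.loc_bound hB hr hg hgf
    refine ⟨r / 4, by positivity, K, fun s hs N => ?_⟩
    rw [hT]
    exact hK _ (Pool.Agent.PRz.ei_norm s) (lt_of_le_of_lt (hei s t) hs) N
  have hCc : IsClosed C := by
    rw [← isOpen_compl_iff, Metric.isOpen_iff]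
    intro t ht
    obtain ⟨r, hr, g, hg, hgf⟩ := hreg _ (Pool.Agent.PRz.ei_norm t) ht
    refine ⟨r / 2, by positivity, fun s hs hsC => ?_⟩
    have hs' : Pool.Agent.PRz.ei s ∈ E := hsC
    rw [hE] at hs'
    apply hs'.2
    have hsub : Metric.ball (Pool.Agent.PRz.ei s) (r / 2) ⊆ Metric.ball (Pool.Agent.PRz.ei t) r := by
      apply Metric.ball_subset_ball'
      have h1 := hei s t
      have h2 : |s - t| < r / 2 := by rw [← Real.dist_eq]; exact hs
      linarith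
    exact ⟨r / 2, by positivity, g, hg.mono hsub, fun w hw hw1 => hgf w (hsub hw) hw1⟩
  have hnull := Pool.Agent.PRz.null_of_bounded hCc hθ hθ2 hMC hloc
  obtain ⟨r, hr, g, hg, hgf⟩ := hreg z hz hzE
  refine ⟨g z, ?_, r, hr, g, hg, hgf, rfl⟩
  exact Pool.Agent.PRz.riesz_conv hB hnull hz hr hg hgf

end Pool.Agent.S03355
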