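import Pool.Statements.S03363
-- import your own Pool.Agent.* helpers here
import Pool.Agent.H24.SubsumC

set_option autoImplicit false
open Pool Pool.MP_65dae3_an

namespace Pool.Agent.S03363

open Pool.Agent.H24.Subsum

theorem fib_equiv (D : ℕ → (ℕ →₀ ℕ)) (φ : ℕ ≃ Jt) (t : ℝ) :
    Nonempty ({ε : ℕ → Bool // ∑' n, (if ε n = true then X D (φ n) else 0) = t} ≃ Fib D t) := by
  refine ⟨Equiv.subtypeEquiv (Equiv.arrowCongr φ (Equiv.refl Bool)) (fun ε => ?_)⟩
  have : ∑' j, (if (Equiv.arrowCongr φ (Equiv.refl Bool)) ε j = true then X D j else 0)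
      = ∑' n, (if ε n = true then X D (φ n) else 0) := by
    rw [← φ.tsum_eq]
    congr 1; ext n
    simp [Equiv.arrowCongr]
  rw [this]

/-- There is an absolutely convergent real series such that, counting 0-1 sequences whose subsum equals t, some t gives arbitrarily large finite counts, and no t gives countably infinitely many or continuum many. -/
theorem result :
    ∃ x : ℕ → ℝ, Summable (fun n => |x n|) ∧
      (∀ N : ℕ, ∃ t : ℝ, ∃ k : ℕ, N ≤ k ∧
        Cardinal.mk {ε : ℕ → Bool // ∑' n, (if ε n = true then x n else 0) = t} = (k : Cardinal)) ∧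
      (∀ t : ℝ,
        Cardinal.mk {ε : ℕ → Bool // ∑' n, (if ε n = true then x n else 0) = t} ≠ Cardinal.aleph0 ∧
        Cardinal.mk {ε : ℕ → Bool // ∑' n, (if ε n = true then x n else 0) = t} ≠ Cardinal.continuum) := by
  classical
  obtain ⟨D, hD⟩ := exists_surjective_nat (ℕ →₀ ℕ)
  obtain ⟨φ⟩ : Nonempty (ℕ ≃ Jt) := nonempty_equiv_of_countable
  have hfin : ∀ t : ℝ, Finite {ε : ℕ → Bool // ∑' n, (if ε n = true then X D (φ n) else 0) = t} := by
    intro t
    obtain ⟨e⟩ := fib_equiv D φ t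
    have := fin_fib hD t
    exact Finite.of_equiv _ e.symm
  refine ⟨fun n => X D (φ n), ?_, ?_, ?_⟩
  · exact (summ_X D).comp_injective φ.injective
  · intro N
    obtain ⟨t, ht⟩ := many hD N
    obtain ⟨e⟩ := fib_equiv D φ t
    have := hfin t
    refine ⟨t, Nat.card {ε : ℕ → Bool // ∑' n, (if ε n = true then X D (φ n) else 0) = t}, ?_, ?_⟩
    · rw [Nat.card_congr e]; exact ht
    · exact (Nat.cast_card (α := {ε : ℕ → Bool // ∑' n, (if ε n = true then X D (φ n) else 0) = t})).symm
  · intro t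
    have := hfin t
    have hlt := Cardinal.lt_aleph0_of_finite {ε : ℕ → Bool // ∑' n, (if ε n = true then X D (φ n) else 0) = t}
    exact ⟨ne_of_lt hlt, ne_of_lt (hlt.trans Cardinal.aleph0_lt_continuum)⟩

end Pool.Agent.S03363
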