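import Pool.Statements.S03425
-- import your own Pool.Agent.* helpers here

set_option autoImplicit false
open Pool Pool.MP_6eb165_an

namespace Pool.Agent.S03425

open Filter Topology

/-- the two-dimensional space `{v ∈ ℓ_∞³ : v₂ = v₀ + v₁}`. -/
def Xs : Submodule ℂ (Fin 3 → ℂ) where
  carrier := {v | v 2 = v 0 + v 1}
  add_mem' := by
    intro a b ha hb
    simp only [Set.mem_ofPred_eq] at *
    simp only [Pi.add_apply, ha, hb]; ring
  zero_mem' := by simp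
  smul_mem' := by
    intro c a ha
    simp only [Set.mem_ofPred_eq] at *
    simp only [Pi.smul_apply, smul_eq_mul, ha]; ring

abbrev X0 : Type := Xs

lemma Xs_mem (v : Xs) : v.1 2 = v.1 0 + v.1 1 := v.2

lemma nrm (v : Xs) : ‖v‖ = ‖v.1‖ := rfl

lemma coord_le (v : Xs) (j : Fin 3) : ‖v.1 j‖ ≤ ‖v‖ := norm_le_pi_norm v.1 j

lemma norm_le {v : Xs} {r : ℝ} (hr : 0 ≤ r) (h : ∀ j, ‖v.1 j‖ ≤ r) : ‖v‖ ≤ r :=
  (pi_norm_le_iff_of_nonneg hr).2 h

lemma exists_coord (v : Xs) : ∃ j, ‖v.1 j‖ = ‖v‖ := by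
  by_contra h
  push Not at h
  have h2 : ∀ j, ‖v.1 j‖ < ‖v‖ := fun j => lt_of_le_of_ne (coord_le v j) (h j)
  have hpos : 0 < ‖v‖ := lt_of_le_of_lt (norm_nonneg _) (h2 0)
  have : ‖v.1‖ < ‖v‖ := (pi_norm_lt_iff hpos).2 h2
  exact absurd this (lt_irrefl _)

lemma tri (v : Xs) {i j : Fin 3} (hij : i ≠ j) (l : Fin 3) : ‖v.1 l‖ ≤ ‖v.1 i‖ + ‖v.1 j‖ := by
  have h := Xs_mem v
  have h1 : ‖v.1 2‖ ≤ ‖v.1 0‖ + ‖v.1 1‖ := by rw [h]; exact norm_add_le _ _
  have h2 : ‖v.1 0‖ ≤ ‖v.1 2‖ + ‖v.1 1‖ := by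
    have : v.1 0 = v.1 2 - v.1 1 := by rw [h]; ring
    rw [this]; exact norm_sub_le _ _
  have h3 : ‖v.1 1‖ ≤ ‖v.1 2‖ + ‖v.1 0‖ := by
    have : v.1 1 = v.1 2 - v.1 0 := by rw [h]; ring
    rw [this]; exact norm_sub_le _ _
  have n0 := norm_nonneg (v.1 0)
  have n1 := norm_nonneg (v.1 1)
  have n2 := norm_nonneg (v.1 2)
  fin_cases i <;> fin_cases j <;> fin_cases l <;>
    first
    | exact absurd rfl hij
    | (simp only [Fin.zero_eta, Fin.mk_one, Fin.reduceFinMk]; linarith)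

noncomputable def φ (j : Fin 3) : Xs →L[ℂ] ℂ := (ContinuousLinearMap.proj j).comp Xs.subtypeL

lemma φ_apply (j : Fin 3) (v : Xs) : φ j v = v.1 j := rfl

abbrev Pt := {p : Xs × (Xs →L[ℂ] ℂ) // ‖p.1‖ = 1 ∧ ‖p.2‖ = 1 ∧ p.2 p.1 = 1}

noncomputable def vv {k : ℕ} (A : ContinuousMultilinearMap ℂ (fun _ : Fin k => Xs) Xs) : ℝ :=
  ⨆ p : Pt, ‖p.1.2 (A (fun _ => p.1.1))‖

lemma vv_bdd {k : ℕ} (A : ContinuousMultilinearMap ℂ (fun _ : Fin k => Xs) Xs) :
    BddAbove (Set.range (fun p : Pt => ‖p.1.2 (A (fun _ => p.1.1))‖)) := by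
  refine ⟨‖A‖, ?_⟩
  rintro _ ⟨⟨⟨x, ψ⟩, h1, h2, h3⟩, rfl⟩
  simp only at h1 h2 h3 ⊢
  refine (ψ.le_opNorm _).trans ?_
  rw [h2, one_mul]
  refine (A.le_opNorm _).trans ?_
  simp [h1]

lemma vv_nonneg {k : ℕ} (A : ContinuousMultilinearMap ℂ (fun _ : Fin k => Xs) Xs) : 0 ≤ vv A :=
  Real.iSup_nonneg (fun _ => norm_nonneg _)

lemma le_vv {k : ℕ} (A : ContinuousMultilinearMap ℂ (fun _ : Fin k => Xs) Xs) {x : Xs} {j : Fin 3}
    (hx : ‖x‖ = 1) (hj : ‖x.1 j‖ = 1) : ‖(A (fun _ => x)).1 j‖ ≤ vv A := by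
  have hne : x.1 j ≠ 0 := by
    intro h; rw [h, norm_zero] at hj; exact one_ne_zero hj.symm
  set ψ : Xs →L[ℂ] ℂ := (x.1 j)⁻¹ • φ j with hψ
  have hψx : ψ x = 1 := by
    rw [hψ]
    show (x.1 j)⁻¹ * x.1 j = 1
    exact inv_mul_cancel₀ hne
  have hψv : ∀ v, ‖ψ v‖ = ‖v.1 j‖ := by
    intro v
    rw [hψ]
    show ‖(x.1 j)⁻¹ * v.1 j‖ = _
    rw [norm_mul, norm_inv, hj, inv_one, one_mul]
  have hψ1 : ‖ψ‖ = 1 := by
    apply le_antisymm
    · apply ContinuousLinearMap.opNorm_le_bound _ zero_le_one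
      intro v
      rw [hψv, one_mul]
      exact coord_le v j
    · have := ψ.le_opNorm x
      rw [hψx, hx, mul_one] at this
      simpa using this
  have h := le_ciSup (vv_bdd A) ⟨⟨x, ψ⟩, hx, hψ1, hψx⟩
  simp only [hψv] at h
  exact h

/-- a vector vanishing at coordinate `j` whose other coordinates are unimodular. -/
lemma exists_u (j : Fin 3) : ∃ u : Xs, u.1 j = 0 ∧ ∀ i, i ≠ j → ‖u.1 i‖ = 1 := by
  fin_cases j
  · refine ⟨⟨![0, 1, 1], by simp [Xs]⟩, by simp, ?_⟩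
    intro i hi
    fin_cases i <;> simp_all
  · refine ⟨⟨![1, 0, 1], by simp [Xs]⟩, by simp, ?_⟩
    intro i hi
    fin_cases i <;> simp_all
  · refine ⟨⟨![1, -1, 0], by simp [Xs]⟩, by simp, ?_⟩
    intro i hi
    fin_cases i <;> simp_all

lemma diffA {k : ℕ} (A : ContinuousMultilinearMap ℂ (fun _ : Fin k => Xs) Xs) (x u : Xs) (j : Fin 3) :
    Differentiable ℂ (fun z : ℂ => (A (fun _ => x + z • u)).1 j) := by
  have h1 : Differentiable ℂ (fun z : ℂ => (fun _ : Fin k => x + z • u)) := by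
    fun_prop
  have h2 : Differentiable ℂ (fun m : Fin k → Xs => A m) := (A.contDiff (n := 1)).differentiable (by norm_num)
  have h3 := (φ j).differentiable.comp (h2.comp h1)
  exact h3

lemma key {k : ℕ} (A : ContinuousMultilinearMap ℂ (fun _ : Fin k => Xs) Xs) {x : Xs} (hx : ‖x‖ = 1) :
    ‖A (fun _ => x)‖ ≤ 2 * vv A := by
  obtain ⟨j1, hj1⟩ := exists_coord x
  obtain ⟨j0, hj0⟩ := exists_coord (A (fun _ => x))
  obtain ⟨u, hu1, hu2⟩ := exists_u j1
  set U : Set ℂ := {z | ∀ i, i ≠ j1 → ‖(x + z • u).1 i‖ ≤ 1} with hU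
  have hcont : ∀ i, Continuous (fun z : ℂ => ‖(x + z • u).1 i‖) := by
    intro i
    have : (fun z : ℂ => ‖(x + z • u).1 i‖) = fun z => ‖x.1 i + z * u.1 i‖ := by
      ext z; rfl
    rw [this]
    fun_prop
  have hUcl : IsClosed U := by
    have : U = ⋂ i, ⋂ (_ : i ≠ j1), {z | ‖(x + z • u).1 i‖ ≤ 1} := by
      ext z; simp [hU]
    rw [this]
    exact isClosed_iInter (fun i => isClosed_iInter (fun _ => isClosed_le (hcont i) continuous_const))
  have h0U : (0 : ℂ) ∈ U := by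
    intro i _
    rw [zero_smul, add_zero]
    exact (coord_le x i).trans hx.le
  obtain ⟨i0, hi0⟩ : ∃ i : Fin 3, i ≠ j1 := exists_ne j1
  have hUb : Bornology.IsBounded U := by
    refine (Metric.isBounded_closedBall (x := (0:ℂ)) (r := 2)).subset ?_
    intro z hz
    have h1 : ‖x.1 i0 + z * u.1 i0‖ ≤ 1 := hz i0 hi0
    have h2 : ‖z * u.1 i0‖ ≤ ‖x.1 i0 + z * u.1 i0‖ + ‖x.1 i0‖ := by
      have := norm_sub_le (x.1 i0 + z * u.1 i0) (x.1 i0)
      rwa [add_sub_cancel_left] at this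
    rw [norm_mul, hu2 i0 hi0, mul_one] at h2
    have h3 := coord_le x i0
    rw [hx] at h3
    simp only [Metric.mem_closedBall, dist_zero_right]
    linarith
  obtain ⟨z, hz, hmax⟩ := Complex.exists_mem_frontier_isMaxOn_norm hUb ⟨0, h0U⟩
    ((diffA A x u j0).diffContOnCl (s := U))
  have hzU : z ∈ U := hUcl.frontier_subset hz
  have hnotint : z ∉ interior U := hz.2
  obtain ⟨i, hi, hi1⟩ : ∃ i, i ≠ j1 ∧ ‖(x + z • u).1 i‖ = 1 := by
    by_contra hcon
    push Not at hcon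
    apply hnotint
    rw [mem_interior]
    refine ⟨⋂ i, {w | i = j1 ∨ ‖(x + w • u).1 i‖ < 1}, ?_, ?_, ?_⟩
    · intro w hw i hi
      have := Set.mem_iInter.1 hw i
      rcases this with h | h
      · exact absurd h hi
      · exact h.le
    · apply isOpen_iInter_of_finite
      intro i
      by_cases h : i = j1
      · have : {w : ℂ | i = j1 ∨ ‖(x + w • u).1 i‖ < 1} = Set.univ := by ext w; simp [h]
        rw [this]; exact isOpen_univ
      · have : {w : ℂ | i = j1 ∨ ‖(x + w • u).1 i‖ < 1} = {w | ‖(x + w • u).1 i‖ < 1} := by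
          ext w; simp [h]
        rw [this]; exact isOpen_lt (hcont i) continuous_const
    · rw [Set.mem_iInter]
      intro i
      by_cases h : i = j1
      · left; exact h
      · right; exact lt_of_le_of_ne (hzU i h) (hcon i h)
  set x' : Xs := x + z • u with hx'
  have hj1' : ‖x'.1 j1‖ = 1 := by
    have : x'.1 j1 = x.1 j1 + z * u.1 j1 := rfl
    rw [this, hu1, mul_zero, add_zero, hj1, hx]
  have hx'n : ‖x'‖ = 1 := by
    apply le_antisymm
    · apply norm_le zero_le_one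
      intro l
      by_cases h : l = j1
      · rw [h, hj1']
      · exact hzU l h
    · rw [← hj1']; exact coord_le _ _
  have hm := hmax (subset_closure h0U)
  simp only [Function.comp, Set.mem_ofPred_eq, zero_smul, add_zero] at hm
  rw [← hj0]
  refine hm.trans ((tri (A (fun _ => x')) hi j0).trans ?_)
  have h1 := le_vv A hx'n hi1
  have h2 := le_vv A hx'n hj1'
  linarith

/-- scaling to the unit sphere. -/
lemma scale {k : ℕ} (A : ContinuousMultilinearMap ℂ (fun _ : Fin (k+1) => Xs) Xs) {y : Xs} (hy : ‖y‖ ≤ 1)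
    {c : ℝ} (hc : 0 ≤ c) (h : ∀ x : Xs, ‖x‖ = 1 → c * ‖A (fun _ => x)‖ ≤ vv A) : c * ‖A (fun _ => y)‖ ≤ vv A := by
  by_cases h0 : y = 0
  · subst h0
    have : A (fun _ => (0 : Xs)) = 0 := A.map_zero
    rw [this, norm_zero, mul_zero]
    exact vv_nonneg A
  · have hpos : 0 < ‖y‖ := norm_pos_iff.2 h0
    set x : Xs := ((‖y‖⁻¹ : ℝ) : ℂ) • y with hx
    have hx1 : ‖x‖ = 1 := by
      rw [hx, norm_smul, Complex.norm_real, Real.norm_of_nonneg (by positivity)]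
      field_simp
    have hyx : y = ((‖y‖ : ℝ) : ℂ) • x := by
      rw [hx, smul_smul, ← Complex.ofReal_mul, mul_inv_cancel₀ hpos.ne', Complex.ofReal_one, one_smul]
    have hA : A (fun _ => y) = (∏ _i : Fin (k+1), ((‖y‖ : ℝ) : ℂ)) • A (fun _ => x) := by
      rw [← A.map_smul_univ (fun _ => ((‖y‖ : ℝ) : ℂ)) (fun _ => x)]
      congr 1
      ext1 i
      exact hyx
    have hle : ‖A (fun _ => y)‖ ≤ ‖A (fun _ => x)‖ := by
      rw [hA, norm_smul]
      have : ‖∏ _i : Fin (k+1), ((‖y‖ : ℝ) : ℂ)‖ ≤ 1 := by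
        rw [Finset.prod_const, norm_pow, Complex.norm_real, norm_norm]
        exact pow_le_one₀ hpos.le hy
      nlinarith [norm_nonneg (A (fun _ => x))]
    exact (mul_le_mul_of_nonneg_left hle hc).trans (h x hx1)

/-- the set of admissible constants. -/
def SS (k : ℕ) : Set ℝ := {c : ℝ | 0 ≤ c ∧
  ∀ (A : ContinuousMultilinearMap ℂ (fun _ : Fin k => Xs) Xs) (y : Xs), ‖y‖ ≤ 1 →
    c * ‖A (fun _ => y)‖ ≤ vv A}

lemma half_mem (k : ℕ) : (1/2 : ℝ) ∈ SS (k+1) := by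
  refine ⟨by norm_num, fun A y hy => ?_⟩
  apply scale A hy (by norm_num)
  intro x hx
  have := key A hx
  linarith

lemma SS_mono (k : ℕ) : SS (k+2) ⊆ SS (k+1) := by
  rintro c ⟨hc, h⟩
  refine ⟨hc, fun A y hy => scale A hy hc (fun x hx => ?_)⟩
  obtain ⟨f, hf1, hf2⟩ := exists_dual_vector ℂ x (by rw [hx]; norm_num)
  let B : ContinuousMultilinearMap ℂ (fun _ : Fin (k+2) => Xs) Xs :=
    ContinuousLinearMap.uncurryLeft (f.smulRight A)
  have hB : ∀ v : Xs, B (fun _ => v) = f v • A (fun _ => v) := by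
    intro v
    show ContinuousLinearMap.uncurryLeft (f.smulRight A) (fun _ => v) = _
    rw [ContinuousLinearMap.uncurryLeft_apply]
    rfl
  have h1 := h B x hx.le
  have hfx : ‖f x‖ = 1 := by rw [hf2, hx]; simp
  rw [hB, norm_smul, hfx, one_mul] at h1
  refine h1.trans ?_
  apply ciSup_mono (vv_bdd A)
  rintro ⟨⟨v, ψ⟩, hv, hψ, hψv⟩
  have hv' : ‖v‖ = 1 := hv
  show ‖ψ (B (fun _ => v))‖ ≤ ‖ψ (A (fun _ => v))‖
  rw [hB, map_smul, norm_smul]
  have : ‖f v‖ ≤ 1 := by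
    have := f.le_opNorm v
    rwa [hf1, hv', one_mul] at this
  nlinarith [norm_nonneg (ψ (A (fun _ => v)))]

noncomputable def ww : Xs := ⟨![1, 1, 2], by simp [Xs]; norm_num⟩

noncomputable def yy : Xs := ⟨![1, -1, 0], by simp [Xs]⟩

noncomputable def TT : Xs →L[ℂ] Xs := (φ 0 - φ 1).smulRight ww

noncomputable def AT : ContinuousMultilinearMap ℂ (fun _ : Fin 1 => Xs) Xs :=
  (continuousMultilinearCurryFin1 ℂ Xs Xs).symm TT

lemma AT_apply (v : Xs) : AT (fun _ => v) = (v.1 0 - v.1 1) • ww := rfl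

lemma ww_norm : ‖ww‖ ≤ 2 := by
  apply norm_le (by norm_num)
  intro j
  fin_cases j <;> simp [ww]

lemma AT_vv : vv AT ≤ 7/2 := by
  apply Real.iSup_le _ (by norm_num)
  rintro ⟨⟨x, ψ⟩, hx, hψ, hψx⟩
  simp only at hx hψ hψx ⊢
  rw [AT_apply, map_smul, norm_smul]
  have h0 := coord_le x 0
  have h1 := coord_le x 1
  have h2 := coord_le x 2
  rw [hx] at h0 h1 h2
  rcases h2.lt_or_eq with h | h
  · -- |ψ(w)| ≤ 1
    have hw : ‖ψ ww‖ ≤ 1 := by
      by_cases hz : ψ ww = 0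
      · rw [hz]; simp
      have hwpos : 0 < ‖ψ ww‖ := norm_pos_iff.2 hz
      set s : ℝ := 1 - ‖x.1 2‖ with hs
      have hs0 : 0 < s := by linarith
      set ω : ℂ := (s : ℂ) * ((‖ψ ww‖ : ℝ) / ψ ww) with hω
      have hωn : ‖ω‖ = s := by
        rw [hω, norm_mul, norm_div, Complex.norm_real, Complex.norm_real, norm_norm,
          div_self hwpos.ne', mul_one, Real.norm_of_nonneg hs0.le]
      have hval : ψ (x + ω • ww) = ((1 + s * ‖ψ ww‖ : ℝ) : ℂ) := by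
        rw [map_add, map_smul, hψx, hω]
        simp only [smul_eq_mul]
        push_cast
        field_simp
      have hn : ‖x + ω • ww‖ ≤ 1 + s := by
        apply norm_le (by linarith)
        intro j
        have e : (x + ω • ww).1 j = x.1 j + ω * ww.1 j := rfl
        rw [e]
        refine (norm_add_le _ _).trans ?_
        rw [norm_mul, hωn]
        fin_cases j
        · simp [ww]; linarith
        · simp [ww]; linarith
        · simp [ww]; linarith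
      have hle := ψ.le_opNorm (x + ω • ww)
      rw [hψ, one_mul, hval, Complex.norm_real, Real.norm_of_nonneg (by positivity)] at hle
      have : s * ‖ψ ww‖ ≤ s * 1 := by linarith
      exact le_of_mul_le_mul_left this hs0
    have hd : ‖x.1 0 - x.1 1‖ ≤ 2 := (norm_sub_le _ _).trans (by linarith)
    nlinarith [norm_nonneg (x.1 0 - x.1 1), norm_nonneg (ψ ww)]
  · have hp := parallelogram_law_with_norm ℝ (x.1 0) (x.1 1)
    rw [← Xs_mem x, h] at hp
    have hd : ‖x.1 0 - x.1 1‖ ≤ 7/4 := by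
      nlinarith [norm_nonneg (x.1 0 - x.1 1), norm_nonneg (x.1 0), norm_nonneg (x.1 1)]
    have hw : ‖ψ ww‖ ≤ 2 := by
      have := ψ.le_opNorm ww
      rw [hψ, one_mul] at this
      exact this.trans ww_norm
    nlinarith [norm_nonneg (x.1 0 - x.1 1), norm_nonneg (ψ ww)]

lemma SS_one {c : ℝ} (hc : c ∈ SS 1) : c ≤ 7/8 := by
  obtain ⟨hc0, h⟩ := hc
  have hy : ‖yy‖ ≤ 1 := by
    apply norm_le zero_le_one
    intro j
    fin_cases j <;> simp [yy]
  have h1 := (h AT yy hy).trans AT_vv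
  have h2 : (4:ℝ) ≤ ‖AT (fun _ => yy)‖ := by
    refine le_trans ?_ (coord_le _ 2)
    rw [AT_apply]
    have : ((yy.1 0 - yy.1 1) • ww).1 2 = (yy.1 0 - yy.1 1) * ww.1 2 := rfl
    rw [this]
    simp [yy, ww]
    norm_num
  nlinarith

lemma SS_le (k : ℕ) : ∀ c ∈ SS (k+1), c ≤ 7/8 := by
  induction k with
  | zero => intro c hc; exact SS_one hc
  | succ k ih => intro c hc; exact ih c (SS_mono k hc)


/-- There is a real or complex Banach space X whose polynomial numerical indices n^(k)(X) (best constant c with c‖P‖ ≤ numerical radius of P, over k-homogeneous polynomials P on X) converge to a limit different from 0 and 1. -/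
theorem result :
    ∃ (𝕂 : Type) (_ : RCLike 𝕂) (X : Type) (_ : NormedAddCommGroup X)
      (_ : NormedSpace 𝕂 X) (_ : CompleteSpace X) (L : ℝ),
      Filter.Tendsto
        (fun k : ℕ => sSup {c : ℝ | 0 ≤ c ∧
          ∀ (A : ContinuousMultilinearMap 𝕂 (fun _ : Fin k => X) X) (y : X), ‖y‖ ≤ 1 →
            c * ‖A (fun _ => y)‖ ≤
              ⨆ p : {p : X × (X →L[𝕂] 𝕂) // ‖p.1‖ = 1 ∧ ‖p.2‖ = 1 ∧ p.2 p.1 = 1},
                ‖p.1.2 (A (fun _ => p.1.1))‖})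
        Filter.atTop (nhds L) ∧ L ≠ 0 ∧ L ≠ 1 := by
  have hanti : Antitone (fun k : ℕ => sSup (SS (k+1))) := by
    apply antitone_nat_of_succ_le
    intro k
    exact csSup_le_csSup ⟨7/8, SS_le k⟩ ⟨_, half_mem (k+1)⟩ (SS_mono k)
  have hlow : ∀ k : ℕ, 1/2 ≤ sSup (SS (k+1)) := fun k => le_csSup ⟨7/8, SS_le k⟩ (half_mem k)
  have hup : ∀ k : ℕ, sSup (SS (k+1)) ≤ 7/8 := fun k => csSup_le ⟨_, half_mem k⟩ (SS_le k)
  have hlim := tendsto_atTop_ciInf hanti ⟨1/2, by rintro _ ⟨k, rfl⟩; exact hlow k⟩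
  have h1 : 1/2 ≤ ⨅ k : ℕ, sSup (SS (k+1)) := le_ciInf hlow
  have h2 : (⨅ k : ℕ, sSup (SS (k+1))) ≤ 7/8 :=
    (ciInf_le ⟨1/2, by rintro _ ⟨k, rfl⟩; exact hlow k⟩ 0).trans (hup 0)
  refine ⟨ℂ, inferInstance, Xs, inferInstance, inferInstance, FiniteDimensional.complete ℂ Xs,
    ⨅ k : ℕ, sSup (SS (k+1)), ?_, by linarith, by linarith⟩
  exact (tendsto_add_atTop_iff_nat (f := fun k : ℕ => sSup (SS k)) 1).1 hlim

end Pool.Agent.S03425
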