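import Pool.Statements.S03500
-- import your own Pool.Agent.* helpers here

set_option autoImplicit false
open Matrix
open Pool Pool.MP_79babf_an

namespace Pool.Agent.S03500

/-- Kahan matrix entries (row m, column i). -/
noncomputable def K (c s : ℝ) (m i : ℕ) : ℝ := if m < i then -c * s ^ m else if m = i then s ^ i else 0

lemma tele {c s : ℝ} (hs : s^2 = 1 - c^2) (j i : ℕ) (h : j ≤ i) :
    ∑ m ∈ Finset.Ico j i, (c * s^m)^2 + (s^i)^2 = (s^j)^2 := by
  induction i, h using Nat.le_induction with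
  | base => simp
  | succ i hi ih =>
    rw [Finset.sum_Ico_succ_top hi, ← ih, pow_succ s i, mul_pow (s^i) s, hs]
    ring

/-- tail sums of squares of the columns. -/
lemma colsum {c s : ℝ} (hs : s^2 = 1 - c^2) (k j i : ℕ) (hi : i < k) (h : j ≤ i) :
    ∑ m ∈ Finset.range k, (if j ≤ m then K c s m i else 0)^2 = (s^j)^2 := by
  rw [← tele hs j i h]
  have h1 : ∑ m ∈ Finset.range k, (if j ≤ m then K c s m i else 0)^2 =
      ∑ m ∈ Finset.range (i+1), (if j ≤ m then K c s m i else 0)^2 := by
    symm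
    apply Finset.sum_subset (Finset.range_subset_range.2 hi)
    intro m _ hm
    rw [Finset.mem_range, not_lt] at hm
    have : K c s m i = 0 := by
      unfold K
      rw [if_neg (by omega), if_neg (by omega)]
    rw [this]; simp
  rw [h1, Finset.sum_range_succ]
  congr 1
  · rw [← Finset.sum_subset (s₁ := Finset.Ico j i)]
    · apply Finset.sum_congr rfl
      intro m hm
      rw [Finset.mem_Ico] at hm
      unfold K
      rw [if_pos hm.1, if_pos hm.2]; ring
    · intro m hm
      rw [Finset.mem_Ico] at hm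
      exact Finset.mem_range.2 hm.2
    · intro m hm1 hm2
      rw [Finset.mem_range] at hm1
      rw [Finset.mem_Ico] at hm2
      rw [if_neg (by omega)]; simp
  · unfold K
    rw [if_pos h, if_neg (lt_irrefl _), if_pos rfl]

lemma colsum0 {c s : ℝ} (k j i : ℕ) (h : i < j) :
    ∑ m ∈ Finset.range k, (if j ≤ m then K c s m i else 0)^2 = 0 := by
  apply Finset.sum_eq_zero
  intro m _
  by_cases hm : j ≤ m
  · have : K c s m i = 0 := by
      unfold K
      rw [if_neg (by omega), if_neg (by omega)]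
    rw [this]; simp
  · rw [if_neg hm]; simp

noncomputable def y (c : ℝ) (i : ℕ) : ℝ := if i = 0 then 1 else c * (1+c)^(i-1)

lemma ysum (c : ℝ) (i : ℕ) : ∑ m ∈ Finset.range (i+1), y c m = (1+c)^i := by
  induction i with
  | zero => simp [y]
  | succ i ih =>
    rw [Finset.sum_range_succ, ih]
    unfold y
    rw [if_neg (by omega), Nat.add_sub_cancel]
    ring

/-- the small vector. -/
noncomputable def xv (c s : ℝ) (i : ℕ) : ℝ := (s^i)⁻¹ * y c i

lemma Kx {c s : ℝ} (hs : 0 < s) (k i : ℕ) (hi : i < k) :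
    ∑ m ∈ Finset.range k, K c s m i * xv c s m = if i = 0 then 1 else 0 := by
  have h1 : ∑ m ∈ Finset.range k, K c s m i * xv c s m =
      ∑ m ∈ Finset.range (i+1), K c s m i * xv c s m := by
    symm
    apply Finset.sum_subset (Finset.range_subset_range.2 hi)
    intro m _ hm
    rw [Finset.mem_range, not_lt] at hm
    have : K c s m i = 0 := by
      unfold K
      rw [if_neg (by omega), if_neg (by omega)]
    rw [this]; simp
  rw [h1, Finset.sum_range_succ]
  have h2 : ∑ m ∈ Finset.range i, K c s m i * xv c s m = -c * ∑ m ∈ Finset.range i, y c m := by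
    rw [Finset.mul_sum]
    apply Finset.sum_congr rfl
    intro m hm
    rw [Finset.mem_range] at hm
    unfold K xv
    rw [if_pos hm]
    have := (pow_pos hs m).ne'
    field_simp
  have h3 : K c s i i * xv c s i = y c i := by
    unfold K xv
    rw [if_neg (lt_irrefl _), if_pos rfl]
    have := (pow_pos hs i).ne'
    field_simp
  rw [h2, h3]
  cases i with
  | zero => simp [y]
  | succ i =>
    rw [ysum, if_neg (by omega)]
    unfold y
    rw [if_neg (by omega), Nat.add_sub_cancel]
    ring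

lemma mem_tri {k : ℕ} (v : Fin k → EuclideanSpace ℝ (Fin k))
    (hd : ∀ i, v i i ≠ 0) (ht : ∀ i m : Fin k, i < m → v i m = 0) (j : ℕ) (hj : j ≤ k)
    (w : EuclideanSpace ℝ (Fin k)) (hw : ∀ m : Fin k, j ≤ m.val → w m = 0) :
    w ∈ Submodule.span ℝ (v '' {i | i.val < j}) := by
  induction j generalizing w with
  | zero =>
    have : w = 0 := by
      ext m
      exact hw m (Nat.zero_le _)
    rw [this]; exact Submodule.zero_mem _
  | succ j ih =>
    have hjk : j < k := hj
    set i0 : Fin k := ⟨j, hjk⟩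
    have h1 : w - (w i0 / v i0 i0) • v i0 ∈ Submodule.span ℝ (v '' {i | i.val < j}) := by
      apply ih hjk.le
      intro m hm
      rcases hm.lt_or_eq with h | h
      · have hz : w m = 0 := hw m h
        have hz2 : v i0 m = 0 := ht i0 m (by rw [Fin.lt_def]; exact h)
        simp [hz, hz2]
      · have hm0 : m = i0 := Fin.ext h.symm
        rw [hm0]
        have := hd i0
        simp [div_mul_cancel₀ _ this]
    have h2 : Submodule.span ℝ (v '' {i | i.val < j}) ≤ Submodule.span ℝ (v '' {i | i.val < j + 1}) := by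
      apply Submodule.span_mono
      apply Set.image_mono
      intro i hi
      exact Nat.lt_succ_of_lt hi
    have h3 : (w i0 / v i0 i0) • v i0 ∈ Submodule.span ℝ (v '' {i | i.val < j + 1}) := by
      apply Submodule.smul_mem
      apply Submodule.subset_span
      exact ⟨i0, Nat.lt_succ_self j, rfl⟩
    have := Submodule.add_mem _ (h2 h1) h3
    simpa using this

/-- tail norm squared. -/
noncomputable def tl {k : ℕ} (j : ℕ) (w : Fin k → ℝ) : ℝ := ∑ m : Fin k, (if j ≤ m.val then w m else 0)^2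

lemma infDist_tri {k : ℕ} (v : Fin k → EuclideanSpace ℝ (Fin k))
    (hd : ∀ i, v i i ≠ 0) (ht : ∀ i m : Fin k, i < m → v i m = 0) (j : ℕ) (hj : j ≤ k)
    (w : Fin k → ℝ) :
    Metric.infDist (WithLp.toLp 2 w : EuclideanSpace ℝ (Fin k))
      (Submodule.span ℝ (v '' {i | i.val < j}) : Set (EuclideanSpace ℝ (Fin k))) = Real.sqrt (tl j w) := by
  apply le_antisymm
  · have hmem : (WithLp.toLp 2 (fun m : Fin k => if j ≤ m.val then 0 else w m) : EuclideanSpace ℝ (Fin k)) ∈
        (Submodule.span ℝ (v '' {i | i.val < j}) : Set (EuclideanSpace ℝ (Fin k))) := by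
      apply mem_tri v hd ht j hj
      intro m hm
      simp [hm]
    refine (Metric.infDist_le_dist_of_mem hmem).trans (le_of_eq ?_)
    rw [EuclideanSpace.dist_eq, tl]
    congr 1
    apply Finset.sum_congr rfl
    intro m _
    by_cases h : j ≤ m.val
    · simp [h, Real.dist_eq]
    · simp [h]
  · apply (Metric.le_infDist ⟨0, Submodule.zero_mem _⟩).2
    intro u hu
    have hu0 : ∀ m : Fin k, j ≤ m.val → u m = 0 := by
      intro m hm
      have : Submodule.span ℝ (v '' {i | i.val < j}) ≤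
          LinearMap.ker (EuclideanSpace.proj m : EuclideanSpace ℝ (Fin k) →L[ℝ] ℝ).toLinearMap := by
        rw [Submodule.span_le]
        rintro _ ⟨i, hi, rfl⟩
        have hi' : i.val < j := hi
        have := ht i m (by rw [Fin.lt_def]; omega)
        simpa using this
      have h2 := this hu
      simpa using h2
    rw [EuclideanSpace.dist_eq, tl]
    apply Real.sqrt_le_sqrt
    apply Finset.sum_le_sum
    intro m _
    by_cases h : j ≤ m.val
    · simp [h, Real.dist_eq, hu0 m h]
    · simp [h]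

open scoped MatrixOrder in
lemma exists_S {k : ℕ} (A : Matrix (Fin k) (Fin k) ℝ)
    (hA : ∀ x : Fin k → ℝ, ∑ i, (∑ m, A i m * x m)^2 ≤ ∑ m, x m^2) :
    ∃ S : Matrix (Fin k) (Fin k) ℝ, Aᵀ * A + Sᵀ * S = 1 := by
  have hP : (1 - Aᵀ * A : Matrix (Fin k) (Fin k) ℝ).PosSemidef := by
    apply Matrix.PosSemidef.of_dotProduct_mulVec_nonneg
    · rw [Matrix.IsHermitian, Matrix.conjTranspose_eq_transpose_of_trivial, Matrix.transpose_sub,
        Matrix.transpose_one, Matrix.transpose_mul, Matrix.transpose_transpose]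
    · intro x
      have h1 : star x ⬝ᵥ ((1 - Aᵀ * A) *ᵥ x) = ∑ m, x m^2 - ∑ i, (∑ m, A i m * x m)^2 := by
        rw [Matrix.sub_mulVec, Matrix.one_mulVec, ← Matrix.mulVec_mulVec, dotProduct_sub,
          Matrix.dotProduct_mulVec, Matrix.vecMul_transpose]
        congr 1
        · simp [dotProduct, sq]
        · simp [dotProduct, Matrix.mulVec, sq]
      rw [h1]
      linarith [hA x]
  obtain ⟨S, hS⟩ := CStarAlgebra.nonneg_iff_eq_star_mul_self.mp hP.nonneg
  refine ⟨S, ?_⟩
  have : star S = Sᵀ := by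
    rw [Matrix.star_eq_conjTranspose, Matrix.conjTranspose_eq_transpose_of_trivial]
  rw [this] at hS
  rw [← hS]
  abel

lemma tl_le {k : ℕ} (j : ℕ) (w : Fin k → ℝ) : tl j w ≤ ∑ m, w m^2 := by
  unfold tl
  apply Finset.sum_le_sum
  intro m _
  split_ifs
  · exact le_refl _
  · simp; positivity

lemma tl_col {c s c0 : ℝ} (hs : s^2 = 1 - c^2) (k j : ℕ) (i : Fin k) (h : j ≤ i.val) :
    tl j (fun m : Fin k => c0 * K c s m.val i.val) = c0^2 * (s^j)^2 := by
  unfold tl
  rw [← colsum hs k j i.val i.isLt h, Finset.mul_sum,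
    ← Fin.sum_univ_eq_sum_range (fun m => c0^2 * (if j ≤ m then K c s m i.val else 0)^2) k]
  apply Finset.sum_congr rfl
  intro m _
  split_ifs
  · ring
  · simp

lemma tl_col0 {c s c0 : ℝ} (k j : ℕ) (i : Fin k) (h : i.val < j) :
    tl j (fun m : Fin k => c0 * K c s m.val i.val) = 0 := by
  unfold tl
  apply Finset.sum_eq_zero
  intro m _
  by_cases hm : j ≤ m.val
  · have : K c s m.val i.val = 0 := by
      unfold K
      rw [if_neg (by omega), if_neg (by omega)]
    simp only [this, mul_zero, ite_self]; simp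
  · rw [if_neg hm]; simp

lemma exists_bad (k : ℕ) (hk : 2 ≤ k) (c s : ℝ) (hc : 0 < c) (hc2 : c^2 = 1/(2*k)) (hs : 0 < s)
    (hs2 : s^2 = 1 - c^2) :
    ∃ Q : Matrix (Fin (k + (4*k^2)*k)) (Fin k) ℝ, Qᵀ * Q = 1 ∧
        (∀ j : Fin k, ∀ r : Fin (k + (4*k^2)*k),
          Metric.infDist (WithLp.toLp 2 (Q r) : EuclideanSpace ℝ (Fin k))
              (Submodule.span ℝ
                ((fun i : Fin k => (WithLp.toLp 2 (Q (Fin.castAdd _ i)) : EuclideanSpace ℝ (Fin k))) ''
                  {i | i < j}) : Set (EuclideanSpace ℝ (Fin k)))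
            ≤ Metric.infDist (WithLp.toLp 2 (Q (Fin.castAdd _ j)) : EuclideanSpace ℝ (Fin k))
              (Submodule.span ℝ
                ((fun i : Fin k => (WithLp.toLp 2 (Q (Fin.castAdd _ i)) : EuclideanSpace ℝ (Fin k))) ''
                  {i | i < j}) : Set (EuclideanSpace ℝ (Fin k)))) ∧
        (∀ j : Fin k, ∀ r : Fin (k + (4*k^2)*k), r < (Fin.castAdd _ j) →
          Metric.infDist (WithLp.toLp 2 (Q r) : EuclideanSpace ℝ (Fin k))
              (Submodule.span ℝ
                ((fun i : Fin k => (WithLp.toLp 2 (Q (Fin.castAdd _ i)) : EuclideanSpace ℝ (Fin k))) ''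
                  {i | i < j}) : Set (EuclideanSpace ℝ (Fin k)))
            < Metric.infDist (WithLp.toLp 2 (Q (Fin.castAdd _ j)) : EuclideanSpace ℝ (Fin k))
              (Submodule.span ℝ
                ((fun i : Fin k => (WithLp.toLp 2 (Q (Fin.castAdd _ i)) : EuclideanSpace ℝ (Fin k))) ''
                  {i | i < j}) : Set (EuclideanSpace ℝ (Fin k)))) ∧
        ∃ x : Fin k → ℝ, c * (1+c)^(k-2) ≤ ‖(WithLp.toLp 2 x : EuclideanSpace ℝ (Fin k))‖ ∧
          ‖(WithLp.toLp 2 ((Q.submatrix (Fin.castAdd ((4*k^2)*k)) id) *ᵥ x) : EuclideanSpace ℝ (Fin k))‖ ≤ 1 := by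
  have hk0 : (0:ℝ) < k := by exact_mod_cast (by omega : 0 < k)
  set c0 : ℝ := (Real.sqrt k)⁻¹ with hc0
  have hc0pos : 0 < c0 := by rw [hc0]; positivity
  have hc02 : c0^2 = 1/k := by rw [hc0, inv_pow, Real.sq_sqrt hk0.le, one_div]
  set N : ℝ := 4*(k:ℝ)^2 with hN
  have hNpos : 0 < N := by positivity
  set A : Matrix (Fin k) (Fin k) ℝ := fun i m => c0 * K c s m.val i.val with hAdef
  have hcolA : ∀ i : Fin k, ∑ m, (A i m)^2 = 1/k := by
    intro i
    have := tl_col (c0 := c0) hs2 k 0 i (Nat.zero_le _)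
    simp only [tl, Nat.zero_le, if_true, pow_zero, one_pow, mul_one] at this
    rw [hc02] at this
    exact this
  have hA : ∀ x : Fin k → ℝ, ∑ i, (∑ m, A i m * x m)^2 ≤ ∑ m, x m^2 := by
    intro x
    calc ∑ i, (∑ m, A i m * x m)^2 ≤ ∑ i : Fin k, (1/k : ℝ) * ∑ m, x m^2 := by
          apply Finset.sum_le_sum
          intro i _
          have := Finset.sum_mul_sq_le_sq_mul_sq Finset.univ (fun m => A i m) x
          rwa [hcolA i] at this
      _ = ∑ m, x m^2 := by
          rw [Finset.sum_const, Finset.card_univ, Fintype.card_fin, nsmul_eq_mul]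
          field_simp
  obtain ⟨S, hS⟩ := exists_S A hA
  -- Frobenius bound
  have hSrow : ∀ b : Fin k, ∑ m, (S b m)^2 ≤ k := by
    intro b
    have h1 : ∑ m, (S b m)^2 ≤ ∑ m, ∑ b', (S b' m)^2 := by
      apply Finset.sum_le_sum
      intro m _
      exact Finset.single_le_sum (f := fun b' => (S b' m)^2) (fun _ _ => sq_nonneg _) (Finset.mem_univ b)
    have h2 : ∀ m, ∑ b', (S b' m)^2 ≤ 1 := by
      intro m
      have := congrFun (congrFun hS m) m
      rw [Matrix.add_apply, Matrix.mul_apply, Matrix.mul_apply, Matrix.one_apply_eq] at this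
      simp only [Matrix.transpose_apply] at this
      have h3 : 0 ≤ ∑ i, A i m * A i m := Finset.sum_nonneg (fun i _ => mul_self_nonneg _)
      have h4 : ∑ b', (S b' m)^2 = ∑ b', S b' m * S b' m := Finset.sum_congr rfl (fun _ _ => sq _)
      rw [h4]; linarith
    calc ∑ m, (S b m)^2 ≤ ∑ m, ∑ b', (S b' m)^2 := h1
      _ ≤ ∑ m : Fin k, (1:ℝ) := Finset.sum_le_sum (fun m _ => h2 m)
      _ = k := by simp
  set Q : Matrix (Fin (k + (4*k^2)*k)) (Fin k) ℝ := fun r m =>
    Fin.addCases (fun i => A i m) (fun t => (Real.sqrt N)⁻¹ * S (finProdFinEquiv.symm t).2 m) r with hQ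
  have hQ1 : ∀ i : Fin k, Q (Fin.castAdd _ i) = fun m => c0 * K c s m.val i.val := by
    intro i; funext m; simp only [hQ, Fin.addCases_left]; rfl
  have hQ2 : ∀ t m, Q (Fin.natAdd _ t) m = (Real.sqrt N)⁻¹ * S (finProdFinEquiv.symm t).2 m := by
    intro t m; simp only [hQ, Fin.addCases_right]
  -- distance formula
  have hspow : ∀ j : ℕ, j < k → 1/2 ≤ (s^j)^2 := by
    intro j hj
    rw [← pow_mul, mul_comm, pow_mul, hs2]
    have hk1' : (1:ℝ) ≤ k := by exact_mod_cast (by omega : 1 ≤ k)
    have hkk : 1/(2*(k:ℝ)) ≤ 1 := by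
      rw [div_le_one (by positivity)]
      linarith
    have hb := one_add_mul_le_pow (a := -c^2) (by rw [hc2]; linarith) j
    have h1 : (j:ℝ) * c^2 ≤ 1/2 := by
      rw [hc2]
      have : (j:ℝ) ≤ k := by exact_mod_cast hj.le
      rw [mul_one_div, div_le_iff₀ (by positivity)]
      linarith
    have h2 : (1 - c^2)^j = (1 + -c^2)^j := by rw [sub_eq_add_neg]
    rw [h2]
    linarith
  have hdist : ∀ (j : Fin k) (r : Fin (k + (4*k^2)*k)),
      Metric.infDist (WithLp.toLp 2 (Q r) : EuclideanSpace ℝ (Fin k))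
              (Submodule.span ℝ
                ((fun i : Fin k => (WithLp.toLp 2 (Q (Fin.castAdd _ i)) : EuclideanSpace ℝ (Fin k))) ''
                  {i | i < j}) : Set (EuclideanSpace ℝ (Fin k))) = Real.sqrt (tl j.val (Q r)) := by
    intro j r
    apply infDist_tri (fun i : Fin k => (WithLp.toLp 2 (Q (Fin.castAdd _ i)) : EuclideanSpace ℝ (Fin k))) _ _ j.val j.isLt.le
    · intro i
      show Q (Fin.castAdd _ i) i ≠ 0
      rw [hQ1]
      unfold K
      simp only [lt_irrefl, if_false, if_true]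
      positivity
    · intro i m him
      show Q (Fin.castAdd _ i) m = 0
      rw [hQ1]
      unfold K
      have : i.val < m.val := him
      simp only
      rw [if_neg (by omega), if_neg (by omega), mul_zero]
  have htj : ∀ j : Fin k, tl j.val (Q (Fin.castAdd _ j)) = c0^2 * (s^j.val)^2 := by
    intro j
    rw [hQ1]
    exact tl_col hs2 k j.val j le_rfl
  have hlow : ∀ j : Fin k, 1/(2*k) ≤ c0^2 * (s^j.val)^2 := by
    intro j
    have := hspow j.val j.isLt
    rw [hc02]
    calc 1/(2*(k:ℝ)) = 1/k * (1/2) := by field_simp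
      _ ≤ _ := mul_le_mul_of_nonneg_left this (by positivity)
  refine ⟨Q, ?_, ?_, ?_, ?_⟩
  · rw [← hS]
    ext m l
    rw [Matrix.add_apply, Matrix.mul_apply, Matrix.mul_apply, Matrix.mul_apply, Fin.sum_univ_add]
    congr 1
    · apply Finset.sum_congr rfl
      intro i _
      simp only [Matrix.transpose_apply, hQ1]
      rfl
    · simp only [Matrix.transpose_apply, hQ2]
      rw [← Equiv.sum_comp finProdFinEquiv, Fintype.sum_prod_type]
      simp only [Equiv.symm_apply_apply]
      rw [Finset.sum_const, Finset.card_univ, Fintype.card_fin, nsmul_eq_mul, Finset.mul_sum]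
      apply Finset.sum_congr rfl
      intro b _
      have h1 : (Real.sqrt N)⁻¹ * (Real.sqrt N)⁻¹ = N⁻¹ := by
        rw [← mul_inv, Real.mul_self_sqrt hNpos.le]
      have h2 : ((4 * k^2 : ℕ) : ℝ) = N := by rw [hN]; push_cast; ring
      rw [h2]
      calc N * ((Real.sqrt N)⁻¹ * S b m * ((Real.sqrt N)⁻¹ * S b l))
          = N * ((Real.sqrt N)⁻¹ * (Real.sqrt N)⁻¹) * (S b m * S b l) := by ring
        _ = S b m * S b l := by rw [h1, mul_inv_cancel₀ hNpos.ne', one_mul]
  · intro j r
    rw [hdist, hdist, htj]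
    apply Real.sqrt_le_sqrt
    induction r using Fin.addCases with
    | left i =>
      rw [hQ1]
      by_cases h : j.val ≤ i.val
      · rw [tl_col hs2 k j.val i h]
      · rw [tl_col0 k j.val i (by omega)]
        positivity
    | right t =>
      refine (tl_le _ _).trans (le_trans ?_ (hlow j))
      have h1 : ∑ m, (Q (Fin.natAdd k t) m)^2 = N⁻¹ * ∑ m, (S (finProdFinEquiv.symm t).2 m)^2 := by
        rw [Finset.mul_sum]
        apply Finset.sum_congr rfl
        intro m _
        rw [hQ2, mul_pow, inv_pow, Real.sq_sqrt hNpos.le]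
      rw [h1]
      calc N⁻¹ * ∑ m, (S (finProdFinEquiv.symm t).2 m)^2 ≤ N⁻¹ * k :=
            mul_le_mul_of_nonneg_left (hSrow _) (by positivity)
        _ = 1/(4*k) := by rw [hN]; field_simp
        _ ≤ 1/(2*k) := by
            apply one_div_le_one_div_of_le (by positivity)
            linarith
  · intro j r hr
    rw [hdist, hdist, htj]
    apply Real.sqrt_lt_sqrt
    · unfold tl; positivity
    · have hrv : r.val < j.val := hr
      have hrk : r.val < k := hrv.trans j.isLt
      have hreq : r = Fin.castAdd ((4*k^2)*k) ⟨r.val, hrk⟩ := rfl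
      rw [hreq, hQ1, tl_col0 k j.val ⟨r.val, hrk⟩ hrv]
      positivity
  · refine ⟨fun m => xv c s m.val, ?_, ?_⟩
    · have hk1 : k - 1 < k := by omega
      have h1 := PiLp.norm_apply_le (WithLp.toLp 2 (fun m : Fin k => xv c s m.val) : EuclideanSpace ℝ (Fin k)) ⟨k-1, hk1⟩
      refine le_trans ?_ h1
      show c * (1+c)^(k-2) ≤ ‖xv c s (k-1)‖
      unfold xv y
      rw [if_neg (by omega), show k - 1 - 1 = k - 2 by omega, Real.norm_eq_abs, abs_of_nonneg (by positivity)]
      have hs1 : s^(k-1) ≤ 1 := by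
        apply pow_le_one₀ hs.le
        nlinarith [sq_nonneg c]
      have : 1 ≤ (s^(k-1))⁻¹ := (one_le_inv₀ (pow_pos hs _)).2 hs1
      have h5 : 0 ≤ c * (1+c)^(k-2) := by positivity
      nlinarith
    · have h1 : (Q.submatrix (Fin.castAdd ((4*k^2)*k)) id) *ᵥ (fun m : Fin k => xv c s m.val) =
          fun i : Fin k => if i.val = 0 then c0 else 0 := by
        funext i
        rw [Matrix.mulVec, dotProduct]
        simp only [Matrix.submatrix_apply, id, hQ1]
        have := Kx (c := c) hs k i.val i.isLt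
        rw [← Fin.sum_univ_eq_sum_range (fun m => K c s m i.val * xv c s m) k] at this
        have h2 : ∑ m : Fin k, c0 * K c s m.val i.val * xv c s m.val = c0 * ∑ m : Fin k, K c s m.val i.val * xv c s m.val := by
          rw [Finset.mul_sum]
          exact Finset.sum_congr rfl (fun _ _ => by ring)
        rw [h2, this]
        split_ifs <;> simp
      rw [h1, EuclideanSpace.norm_eq]
      rw [Real.sqrt_le_one]
      have h2 : ∑ i : Fin k, ‖(if i.val = 0 then c0 else 0 : ℝ)‖^2 = c0^2 := by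
        rw [Finset.sum_eq_single ⟨0, by omega⟩]
        · simp
        · intro b _ hb
          have : b.val ≠ 0 := fun h => hb (Fin.ext h)
          simp [this]
        · simp
      show ∑ i : Fin k, ‖(if i.val = 0 then c0 else 0 : ℝ)‖^2 ≤ 1
      rw [h2, hc02, div_le_one hk0]
      exact_mod_cast (by omega : 1 ≤ k)

/-- The negation of the preceding statement: There are constants C, d such that for every n×k real Q with orthonormal columns (k<n), the k rows picked by greedy column-pivoted QR on Qᵀ (first index on ties) give a k×k block whose inverse has 2-norm at most C·n^d. -/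
theorem result :
    ¬ (∃ C : ℝ, ∃ d : ℕ, ∀ n k : ℕ, k < n →
      ∀ Q : Matrix (Fin n) (Fin k) ℝ, Qᵀ * Q = 1 →
      ∀ σ : Fin k → Fin n,
        (∀ j : Fin k, ∀ r : Fin n,
          Metric.infDist (WithLp.toLp 2 (Q r) : EuclideanSpace ℝ (Fin k))
              (Submodule.span ℝ
                ((fun i : Fin k => (WithLp.toLp 2 (Q (σ i)) : EuclideanSpace ℝ (Fin k))) ''
                  {i | i < j}) : Set (EuclideanSpace ℝ (Fin k)))
            ≤ Metric.infDist (WithLp.toLp 2 (Q (σ j)) : EuclideanSpace ℝ (Fin k))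
              (Submodule.span ℝ
                ((fun i : Fin k => (WithLp.toLp 2 (Q (σ i)) : EuclideanSpace ℝ (Fin k))) ''
                  {i | i < j}) : Set (EuclideanSpace ℝ (Fin k)))) →
        (∀ j : Fin k, ∀ r : Fin n, r < σ j →
          Metric.infDist (WithLp.toLp 2 (Q r) : EuclideanSpace ℝ (Fin k))
              (Submodule.span ℝ
                ((fun i : Fin k => (WithLp.toLp 2 (Q (σ i)) : EuclideanSpace ℝ (Fin k))) ''
                  {i | i < j}) : Set (EuclideanSpace ℝ (Fin k)))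
            < Metric.infDist (WithLp.toLp 2 (Q (σ j)) : EuclideanSpace ℝ (Fin k))
              (Submodule.span ℝ
                ((fun i : Fin k => (WithLp.toLp 2 (Q (σ i)) : EuclideanSpace ℝ (Fin k))) ''
                  {i | i < j}) : Set (EuclideanSpace ℝ (Fin k)))) →
        ∀ x : Fin k → ℝ,
          ‖(WithLp.toLp 2 x : EuclideanSpace ℝ (Fin k))‖ ≤
            C * (n : ℝ) ^ d *
              ‖(WithLp.toLp 2 ((Q.submatrix σ id) *ᵥ x) : EuclideanSpace ℝ (Fin k))‖) := by
  rintro ⟨C, d, h⟩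
  have key : ∀ p : ℕ, 1 ≤ p → (2:ℝ)^p ≤ (8 * |C| * 40^d) * (p:ℝ)^(6*d+1) := by
    intro p hp
    have hp0 : (0:ℝ) < p := by exact_mod_cast hp
    have hp1 : (1:ℝ) ≤ p := by exact_mod_cast hp
    set k : ℕ := 2 * p^2 with hk
    have hk2 : 2 ≤ k := by rw [hk]; nlinarith
    have hkr : (k:ℝ) = 2 * (p:ℝ)^2 := by rw [hk]; push_cast; ring
    set c : ℝ := 1/(2*p) with hc
    have hcpos : 0 < c := by positivity
    have hc2 : c^2 = 1/(2*k) := by rw [hc, hkr]; field_simp
    have hcle : c ≤ 1/2 := by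
      rw [hc]; apply one_div_le_one_div_of_le (by norm_num); linarith
    have hc2le : c^2 ≤ 1/4 := by nlinarith
    set s : ℝ := Real.sqrt (1 - c^2) with hs
    have hspos : 0 < s := Real.sqrt_pos.2 (by linarith)
    have hs2 : s^2 = 1 - c^2 := Real.sq_sqrt (by linarith)
    obtain ⟨Q, h1, h2, h3, x, h4, h5⟩ := exists_bad k hk2 c s hcpos hc2 hspos hs2
    have hlt : k < k + (4*k^2)*k := by
      have : 0 < (4*k^2)*k := by positivity
      omega
    have h6 := h (k + (4*k^2)*k) k hlt Q h1 (Fin.castAdd _) h2 h3 x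
    have hn0 : (0:ℝ) ≤ ((k + (4*k^2)*k : ℕ) : ℝ)^d := by positivity
    have h7 : c * (1+c)^(k-2) ≤ |C| * ((k + (4*k^2)*k : ℕ) : ℝ)^d := by
      refine h4.trans (h6.trans ?_)
      have h8 : C * ((k + (4*k^2)*k : ℕ) : ℝ)^d ≤ |C| * ((k + (4*k^2)*k : ℕ) : ℝ)^d :=
        mul_le_mul_of_nonneg_right (le_abs_self C) hn0
      calc _ ≤ |C| * ((k + (4*k^2)*k : ℕ) : ℝ)^d * ‖(WithLp.toLp 2 ((Q.submatrix (Fin.castAdd ((4*k^2)*k)) id) *ᵥ x) : EuclideanSpace ℝ (Fin k))‖ :=
            mul_le_mul_of_nonneg_right h8 (norm_nonneg _)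
        _ ≤ |C| * ((k + (4*k^2)*k : ℕ) : ℝ)^d * 1 :=
            mul_le_mul_of_nonneg_left h5 (by positivity)
        _ = _ := mul_one _
    have hn : ((k + (4*k^2)*k : ℕ) : ℝ) ≤ 40 * (p:ℝ)^6 := by
      push_cast
      rw [hkr]
      have h9 : (p:ℝ)^2 ≤ (p:ℝ)^6 := pow_le_pow_right₀ hp1 (by norm_num)
      nlinarith
    have hnd : ((k + (4*k^2)*k : ℕ) : ℝ)^d ≤ 40^d * (p:ℝ)^(6*d) := by
      calc ((k + (4*k^2)*k : ℕ) : ℝ)^d ≤ (40 * (p:ℝ)^6)^d := pow_le_pow_left₀ (by positivity) hn d
        _ = 40^d * (p:ℝ)^(6*d) := by rw [mul_pow, ← pow_mul]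
    have hbern : (2:ℝ)^p ≤ (1+c)^k := by
      have h10 : (2:ℝ) ≤ (1+c)^(2*p) := by
        have := one_add_mul_le_pow (a := c) (by linarith) (2*p)
        have h11 : ((2*p : ℕ):ℝ) * c = 1 := by rw [hc]; push_cast; field_simp
        rw [h11] at this
        linarith
      have := pow_le_pow_left₀ (by norm_num) h10 p
      rw [← pow_mul] at this
      have h12 : 2 * p * p = k := by rw [hk]; ring
      rwa [h12] at this
    have h13 : (1+c)^k = (1+c)^(k-2) * (1+c)^2 := by
      rw [← pow_add]; congr 1; omega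
    have h14 : (1+c)^2 ≤ 4 := by nlinarith
    have h15 : (2:ℝ)^p ≤ 4 * (1+c)^(k-2) := by
      rw [h13] at hbern
      have : 0 < (1+c)^(k-2) := by positivity
      nlinarith
    have h16 : (1+c)^(k-2) ≤ 2 * p * (|C| * (40^d * (p:ℝ)^(6*d))) := by
      have h17 : c * (1+c)^(k-2) ≤ |C| * (40^d * (p:ℝ)^(6*d)) :=
        h7.trans (mul_le_mul_of_nonneg_left hnd (abs_nonneg C))
      have h18 : 2 * p * (c * (1+c)^(k-2)) = (1+c)^(k-2) := by
        rw [← mul_assoc]
        have : 2 * (p:ℝ) * c = 1 := by rw [hc]; field_simp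
        rw [this, one_mul]
      rw [← h18]
      exact mul_le_mul_of_nonneg_left h17 (by positivity)
    calc (2:ℝ)^p ≤ 4 * (1+c)^(k-2) := h15
      _ ≤ 4 * (2 * p * (|C| * (40^d * (p:ℝ)^(6*d)))) := by linarith
      _ = _ := by rw [pow_succ]; ring
  have ht := tendsto_pow_const_div_const_pow_of_one_lt (6*d+1) (show (1:ℝ) < 2 by norm_num)
  have ht2 := ht.const_mul (8 * |C| * 40^d)
  rw [mul_zero] at ht2
  have hev := (ht2.eventually (gt_mem_nhds (show (0:ℝ) < 1 by norm_num))).and (Filter.eventually_ge_atTop 1)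
  obtain ⟨p, hp1, hp2⟩ := hev.exists
  have := key p hp2
  have h2p : (0:ℝ) < 2^p := by positivity
  rw [← mul_div_assoc, div_lt_one h2p] at hp1
  linarith

end Pool.Agent.S03500
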