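import Pool.Statements.S03642
-- import your own Pool.Agent.* helpers here

set_option autoImplicit false
open Pool Pool.MP_8a8b2f_an

namespace Pool.Agent.S03642

open Filter Topology MeasureTheory
open scoped ENNReal

/-- The Hilbert space part of the argument. -/
lemma abstract_bound {H : Type} [NormedAddCommGroup H] [InnerProductSpace ℂ H]
    (T : ℝ → H →L[ℂ] H) (M : H →L[ℂ] H)
    (hM : ∀ u v : H, inner ℂ (M u) v = inner ℂ u (M v))
    (hA : ∀ h : ℝ, 0 < h → ∀ u : H, ‖u‖ ^ 2 - 2 * h * (inner ℂ (M u) u : ℂ).re ≤ ‖T h u‖ ^ 2)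
    (hB : ∀ h : ℝ, 0 < h → ∀ u : H, (inner ℂ (M (T h u)) (T h u) : ℂ).re ≤
      (inner ℂ (M u) u : ℂ).re - 3 * h * ‖M u‖ ^ 2 + 6 * h ^ 2 * ‖u‖ ^ 2)
    (x y : H)
    (hy : Tendsto (fun h : ℝ => ((h : ℂ)⁻¹) • (T h x - x)) (nhdsWithin 0 (Set.Ioi 0)) (nhds y))
    (μ : ℂ) (hμ : μ.re < 0) : 1 / 2 * |μ.re| * ‖x‖ ≤ ‖μ • x - y‖ := by
  set d : ℝ → H := fun h => ((h : ℂ)⁻¹) • (T h x - x) with hd
  have hTd : ∀ h : ℝ, 0 < h → T h x = x + (h : ℂ) • d h := by
    intro h hh
    have : (h : ℂ) ≠ 0 := by exact_mod_cast hh.ne'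
    simp only [hd]
    rw [smul_smul, mul_inv_cancel₀ this, one_smul]
    abel
  clear_value d
  have hid : Tendsto (fun h : ℝ => h) (nhdsWithin 0 (Set.Ioi 0)) (nhds 0) :=
    tendsto_nhdsWithin_of_tendsto_nhds tendsto_id
  -- first derivative identity
  have h1 : -(inner ℂ (M x) x : ℂ).re ≤ (inner ℂ x y : ℂ).re := by
    have hlim : Tendsto (fun h : ℝ => 2 * (inner ℂ x (d h) : ℂ).re + h * ‖d h‖ ^ 2)
        (nhdsWithin 0 (Set.Ioi 0)) (nhds (2 * (inner ℂ x y : ℂ).re + 0 * ‖y‖ ^ 2)) := by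
      apply Tendsto.add
      · apply Tendsto.const_mul
        exact (Complex.continuous_re.tendsto _).comp (tendsto_const_nhds.inner hy)
      · exact hid.mul ((hy.norm).pow 2)
    have hev : ∀ᶠ h in nhdsWithin (0 : ℝ) (Set.Ioi 0),
        -2 * (inner ℂ (M x) x : ℂ).re ≤ 2 * (inner ℂ x (d h) : ℂ).re + h * ‖d h‖ ^ 2 := by
      filter_upwards [self_mem_nhdsWithin] with h hh
      have hh' : 0 < h := hh
      have := hA h hh' x
      rw [hTd h hh', @norm_add_sq ℂ, inner_smul_right, norm_smul] at this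
      simp only [RCLike.re_to_complex, Complex.mul_re, Complex.ofReal_re, Complex.ofReal_im,
        Complex.norm_real, Real.norm_eq_abs, mul_pow, sq_abs] at this
      have h3 : 0 ≤ h * (2 * (inner ℂ x (d h) : ℂ).re + h * ‖d h‖ ^ 2 +
          2 * (inner ℂ (M x) x : ℂ).re) := by nlinarith
      have := nonneg_of_mul_nonneg_right h3 hh'
      linarith
    have := ge_of_tendsto hlim hev
    linarith
  -- second derivative identity
  have h2 : (inner ℂ (M x) y : ℂ).re ≤ -(3 / 2) * ‖M x‖ ^ 2 := by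
    have hlim : Tendsto (fun h : ℝ => 2 * (inner ℂ (M x) (d h) : ℂ).re +
          h * (inner ℂ (M (d h)) (d h) : ℂ).re - 6 * h * ‖x‖ ^ 2)
        (nhdsWithin 0 (Set.Ioi 0)) (nhds (2 * (inner ℂ (M x) y : ℂ).re +
          0 * (inner ℂ (M y) y : ℂ).re - 6 * 0 * ‖x‖ ^ 2)) := by
      apply Tendsto.sub
      · apply Tendsto.add
        · apply Tendsto.const_mul
          exact (Complex.continuous_re.tendsto _).comp (tendsto_const_nhds.inner hy)
        · apply hid.mul
          refine (Complex.continuous_re.tendsto _).comp ?_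
          exact (((M.continuous.tendsto y).comp hy)).inner hy
      · exact (hid.const_mul 6).mul_const _
    have hev : ∀ᶠ h in nhdsWithin (0 : ℝ) (Set.Ioi 0),
        2 * (inner ℂ (M x) (d h) : ℂ).re +
          h * (inner ℂ (M (d h)) (d h) : ℂ).re - 6 * h * ‖x‖ ^ 2 ≤ -3 * ‖M x‖ ^ 2 := by
      filter_upwards [self_mem_nhdsWithin] with h hh
      have hh' : 0 < h := hh
      have := hB h hh' x
      rw [hTd h hh', map_add, map_smul, inner_add_left, inner_add_right, inner_add_right,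
        inner_smul_left, inner_smul_right, inner_smul_left, inner_smul_right, hM (d h) x,
        ← inner_conj_symm (d h) (M x)] at this
      simp only [Complex.add_re, Complex.mul_re, Complex.conj_re, Complex.conj_im,
        Complex.ofReal_re, Complex.ofReal_im, Complex.mul_im] at this
      have h3 : 0 ≤ h * (-3 * ‖M x‖ ^ 2 - (2 * (inner ℂ (M x) (d h) : ℂ).re +
          h * (inner ℂ (M (d h)) (d h) : ℂ).re - 6 * h * ‖x‖ ^ 2)) := by nlinarith
      have := nonneg_of_mul_nonneg_right h3 hh'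
      linarith
    have := le_of_tendsto hlim hev
    linarith
  set σ : ℝ := -μ.re with hσ
  have hσ0 : 0 < σ := by linarith
  have habs : |μ.re| = σ := abs_of_neg hμ
  rw [habs]
  set φ : H := M x - (σ : ℂ) • x with hφ
  set z : H := μ • x - y with hz
  have hMreal : (inner ℂ (M x) x : ℂ).im = 0 := by
    have := hM x x
    rw [← inner_conj_symm x (M x)] at this
    have h3 := congrArg Complex.im this
    rw [Complex.conj_im] at h3
    linarith
  have hxx : (inner ℂ x x : ℂ) = ((‖x‖ ^ 2 : ℝ) : ℂ) := by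
    rw [inner_self_eq_norm_sq_to_K]; norm_cast
  -- expansion of `Re ⟨φ, z⟩`
  have e1 : (inner ℂ φ z : ℂ).re = -σ * ((inner ℂ (M x) x : ℂ).re - σ * ‖x‖ ^ 2)
      - (inner ℂ (M x) y : ℂ).re + σ * (inner ℂ x y : ℂ).re := by
    rw [hφ, hz, inner_sub_left, inner_sub_right, inner_sub_right, inner_smul_left,
      inner_smul_left, inner_smul_right, inner_smul_right, hxx]
    simp only [Complex.sub_re, Complex.mul_re, Complex.conj_re, Complex.conj_im,
      Complex.ofReal_re, Complex.ofReal_im, Complex.mul_im, hMreal]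
    ring
  have e2 : ‖φ‖ ^ 2 = ‖M x‖ ^ 2 - 2 * σ * (inner ℂ (M x) x : ℂ).re + σ ^ 2 * ‖x‖ ^ 2 := by
    rw [hφ, @norm_sub_sq ℂ, inner_smul_right, norm_smul]
    simp only [RCLike.re_to_complex, Complex.mul_re, Complex.ofReal_re, Complex.ofReal_im,
      Complex.norm_real, Real.norm_eq_abs, mul_pow, sq_abs]
    ring
  have e3 : ‖φ‖ ^ 2 + 1 / 2 * ‖M x‖ ^ 2 ≤ ‖φ‖ * ‖z‖ := by
    have h3 : (inner ℂ φ z : ℂ).re ≤ ‖φ‖ * ‖z‖ :=
      (Complex.re_le_norm _).trans (norm_inner_le_norm φ z)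
    rw [e1] at h3
    have h4 := mul_le_mul_of_nonneg_left h1 hσ0.le
    nlinarith
  have e4 : σ * ‖x‖ ≤ ‖φ‖ + ‖M x‖ := by
    have h5 : (σ : ℂ) • x = M x - φ := by rw [hφ]; abel
    have h6 : ‖(σ : ℂ) • x‖ = σ * ‖x‖ := by
      rw [norm_smul, Complex.norm_real, Real.norm_eq_abs, abs_of_pos hσ0]
    rw [← h6, h5]
    linarith [norm_sub_le (M x) φ]
  -- conclusion
  have hz0 := norm_nonneg z
  have hφ0 := norm_nonneg φ
  have hMx0 := norm_nonneg (M x)
  have hx0 := norm_nonneg x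
  have e5 : ‖φ‖ ≤ ‖z‖ := by
    by_contra hcon
    push Not at hcon
    have : 0 < ‖φ‖ := lt_of_le_of_lt hz0 hcon
    nlinarith
  have e6 : (σ * ‖x‖) ^ 2 ≤ (2 * ‖z‖) ^ 2 := by
    have h7 : (σ * ‖x‖) ^ 2 ≤ (‖φ‖ + ‖M x‖) ^ 2 := by
      apply pow_le_pow_left₀ (by positivity) e4
    have h8 : (‖φ‖ + ‖M x‖) ^ 2 ≤ 3 * (‖φ‖ ^ 2 + 1 / 2 * ‖M x‖ ^ 2) := by
      nlinarith [sq_nonneg (2 * ‖φ‖ - ‖M x‖)]
    have h9 : ‖φ‖ * ‖z‖ ≤ ‖z‖ * ‖z‖ := mul_le_mul_of_nonneg_right e5 hz0
    nlinarith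
  have e7 : σ * ‖x‖ ≤ 2 * ‖z‖ :=
    (pow_le_pow_iff_left₀ (by positivity) (by positivity) two_ne_zero).mp e6
  linarith

/-- Lebesgue measure on `(0, ∞)`. -/
noncomputable abbrev μ0 : Measure ℝ := volume.restrict (Set.Ioi 0)

/-- The Hilbert space `L²(0, ∞)`. -/
abbrev HH : Type := Lp ℂ 2 μ0

/-- Hypothesis under which `f ↦ c * (f ∘ φ)` is a contraction of `L²`. -/
structure Good (c : ℝ → ℂ) (φ : ℝ → ℝ) : Prop where
  hc : Measurable c
  hφ : Measurable φ
  hb : ∀ F : ℝ → ℝ≥0∞, Measurable F → ∫⁻ x, ‖c x‖ₑ ^ 2 * F (φ x) ∂μ0 ≤ ∫⁻ x, F x ∂μ0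

lemma Good.ae {c : ℝ → ℂ} {φ : ℝ → ℝ} (h : Good c φ) {P : ℝ → Prop} (hP : ∀ᵐ y ∂μ0, P y) :
    ∀ᵐ x ∂μ0, c x = 0 ∨ P (φ x) := by
  set N := toMeasurable μ0 {y | ¬ P y} with hN
  have hNm : MeasurableSet N := measurableSet_toMeasurable _ _
  have hN0 : μ0 N = 0 := by rw [hN, measure_toMeasurable]; exact hP
  have hsub : {y | ¬ P y} ⊆ N := subset_toMeasurable _ _
  have h1 := h.hb (N.indicator 1) (measurable_one.indicator hNm)
  rw [lintegral_indicator_one hNm, hN0] at h1
  have h2 : ∫⁻ x, ‖c x‖ₑ ^ 2 * N.indicator 1 (φ x) ∂μ0 = 0 := le_antisymm h1 bot_le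
  rw [lintegral_eq_zero_iff] at h2
  · filter_upwards [h2] with x hx
    by_contra hcon
    push Not at hcon
    obtain ⟨hc0, hP0⟩ := hcon
    have hx1 : φ x ∈ N := hsub hP0
    simp only [Pi.zero_apply, Set.indicator_of_mem hx1, Pi.one_apply, mul_one] at hx
    have : ‖c x‖ₑ = 0 := by simpa using hx
    exact hc0 (by simpa using this)
  · exact (h.hc.enorm.pow_const 2).mul ((measurable_one.indicator hNm).comp h.hφ)

lemma Good.eLpNorm_le {c : ℝ → ℂ} {φ : ℝ → ℝ} (h : Good c φ) (f : ℝ → ℂ) (hf : Measurable f) :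
    eLpNorm (fun x => c x * f (φ x)) 2 μ0 ≤ eLpNorm f 2 μ0 := by
  rw [eLpNorm_eq_lintegral_rpow_enorm_toReal two_ne_zero ENNReal.ofNat_ne_top,
    eLpNorm_eq_lintegral_rpow_enorm_toReal two_ne_zero ENNReal.ofNat_ne_top]
  apply ENNReal.rpow_le_rpow _ (by norm_num)
  have h1 := h.hb (fun y => ‖f y‖ₑ ^ 2) (hf.enorm.pow_const 2)
  have e : ∀ z : ℂ, ‖z‖ₑ ^ (2 : ℝ≥0∞).toReal = ‖z‖ₑ ^ 2 := by
    intro z
    rw [ENNReal.toReal_ofNat, ENNReal.rpow_ofNat]
  simp only [e]
  refine le_trans (le_of_eq ?_) h1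
  congr 1
  funext x
  rw [enorm_mul, mul_pow]

lemma Good.memLp {c : ℝ → ℂ} {φ : ℝ → ℝ} (h : Good c φ) (f : HH) :
    MemLp (fun x => c x * f (φ x)) 2 μ0 := by
  have hfm : Measurable (f : ℝ → ℂ) := (Lp.stronglyMeasurable f).measurable
  refine ⟨(h.hc.mul (hfm.comp h.hφ)).aestronglyMeasurable, ?_⟩
  exact (h.eLpNorm_le f hfm).trans_lt (Lp.memLp f).2

/-- The weighted composition operator. -/
noncomputable def wcomp {c : ℝ → ℂ} {φ : ℝ → ℝ} (h : Good c φ) : HH →L[ℂ] HH :=
  LinearMap.mkContinuous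
    { toFun := fun f => (h.memLp f).toLp
      map_add' := by
        intro f g
        rw [← MemLp.toLp_add]
        apply MemLp.toLp_congr
        filter_upwards [h.ae (Lp.coeFn_add f g)] with x hx
        rcases hx with hx | hx
        · simp [hx]
        · simp only [Pi.add_apply] at hx ⊢
          rw [hx]; ring
      map_smul' := by
        intro r f
        rw [RingHom.id_apply, ← MemLp.toLp_const_smul]
        apply MemLp.toLp_congr
        filter_upwards [h.ae (Lp.coeFn_smul r f)] with x hx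
        rcases hx with hx | hx
        · simp [hx]
        · simp only [Pi.smul_apply, smul_eq_mul] at hx ⊢
          rw [hx]; ring } 1 (by
      intro f
      have hfm : Measurable (f : ℝ → ℂ) := (Lp.stronglyMeasurable f).measurable
      simp only [LinearMap.coe_mk, AddHom.coe_mk, one_mul]
      rw [Lp.norm_toLp, Lp.norm_def]
      exact ENNReal.toReal_mono (Lp.memLp f).2.ne (h.eLpNorm_le f hfm))

lemma wcomp_coe {c : ℝ → ℂ} {φ : ℝ → ℝ} (h : Good c φ) (f : HH) :
    (wcomp h f : ℝ → ℂ) =ᵐ[μ0] fun x => c x * f (φ x) :=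
  (h.memLp f).coeFn_toLp

lemma wcomp_norm {c : ℝ → ℂ} {φ : ℝ → ℝ} (h : Good c φ) : ‖wcomp h‖ ≤ 1 :=
  LinearMap.mkContinuous_norm_le _ zero_le_one _

/-- the weight of the semigroup -/
noncomputable def ct (t x : ℝ) : ℂ := if t < x then (((1 + x - t) / (1 + x) : ℝ) : ℂ) else 0

lemma ct_norm (t x : ℝ) (ht : 0 ≤ t) : ‖ct t x‖ = if t < x then (1 + x - t) / (1 + x) else 0 := by
  unfold ct
  split_ifs with h
  · rw [Complex.norm_real, Real.norm_eq_abs, abs_of_nonneg]
    apply div_nonneg <;> linarith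
  · simp

lemma ct_norm_le (t x : ℝ) (ht : 0 ≤ t) : ‖ct t x‖ ≤ 1 := by
  rw [ct_norm t x ht]
  split_ifs with h
  · rw [div_le_one (by linarith)]
    linarith
  · norm_num

lemma ct_meas (t : ℝ) : Measurable (ct t) := by
  unfold ct
  refine Measurable.ite measurableSet_Ioi ?_ measurable_const
  apply Complex.measurable_ofReal.comp
  fun_prop

lemma ct_good (t : ℝ) (ht : 0 ≤ t) : Good (ct t) (fun x => x - t) where
  hc := ct_meas t
  hφ := by fun_prop
  hb := by
    intro F hF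
    have h1 : ∀ x : ℝ, ‖ct t x‖ₑ ^ 2 * F (x - t) ≤ (Set.Ioi (0 : ℝ)).indicator F (x - t) := by
      intro x
      by_cases hx : t < x
      · have h2 : x - t ∈ Set.Ioi (0 : ℝ) := by
          simp only [Set.mem_Ioi]; linarith
        rw [Set.indicator_of_mem h2]
        have h3 : ‖ct t x‖ₑ ≤ 1 := by
          rw [← ofReal_norm]
          exact ENNReal.ofReal_le_one.mpr (ct_norm_le t x ht)
        calc ‖ct t x‖ₑ ^ 2 * F (x - t) ≤ 1 * F (x - t) := by
              apply mul_le_mul_left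
              exact pow_le_one₀ bot_le h3
          _ = F (x - t) := one_mul _
      · have : ct t x = 0 := by unfold ct; rw [if_neg hx]
        rw [this]
        simp
    calc ∫⁻ x, ‖ct t x‖ₑ ^ 2 * F (x - t) ∂μ0
        ≤ ∫⁻ x, (Set.Ioi (0 : ℝ)).indicator F (x - t) ∂μ0 := lintegral_mono h1
      _ ≤ ∫⁻ x, (Set.Ioi (0 : ℝ)).indicator F (x - t) := setLIntegral_le_lintegral _ _
      _ = ∫⁻ x, (Set.Ioi (0 : ℝ)).indicator F x :=
          lintegral_sub_right_eq_self (fun x => (Set.Ioi (0 : ℝ)).indicator F x) t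
      _ = ∫⁻ x, F x ∂μ0 := lintegral_indicator measurableSet_Ioi F

/-- the multiplier `1 / (1 + x)` -/
noncomputable def qq (x : ℝ) : ℂ := if 0 < x then ((1 / (1 + x) : ℝ) : ℂ) else 0

lemma qq_good : Good qq (fun x => x) where
  hc := by
    unfold qq
    refine Measurable.ite measurableSet_Ioi ?_ measurable_const
    apply Complex.measurable_ofReal.comp
    fun_prop
  hφ := by fun_prop
  hb := by
    intro F hF
    apply lintegral_mono
    intro x
    have h3 : ‖qq x‖ₑ ≤ 1 := by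
      rw [← ofReal_norm]
      apply ENNReal.ofReal_le_one.mpr
      unfold qq
      split_ifs with h
      · rw [Complex.norm_real, Real.norm_eq_abs, abs_of_nonneg (by positivity),
          div_le_one (by linarith)]
        linarith
      · simp
    calc ‖qq x‖ₑ ^ 2 * F x ≤ 1 * F x := by
          apply mul_le_mul_left
          exact pow_le_one₀ bot_le h3
      _ = F x := one_mul _

open Classical in
/-- the semigroup -/
noncomputable def TT (t : ℝ) : HH →L[ℂ] HH := if h : 0 ≤ t then wcomp (ct_good t h) else 0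

lemma TT_of_nonneg (t : ℝ) (h : 0 ≤ t) : TT t = wcomp (ct_good t h) := by
  unfold TT; rw [dif_pos h]

lemma TT_coe (t : ℝ) (h : 0 ≤ t) (f : HH) : (TT t f : ℝ → ℂ) =ᵐ[μ0] fun x => ct t x * f (x - t) := by
  rw [TT_of_nonneg t h]; exact wcomp_coe _ f

lemma TT_norm (t : ℝ) : ‖TT t‖ ≤ 1 := by
  unfold TT
  split_ifs
  · exact wcomp_norm _
  · simp

lemma TT_zero : TT 0 = ContinuousLinearMap.id ℂ HH := by
  ext1 f
  rw [ContinuousLinearMap.id_apply]
  apply Lp.ext
  filter_upwards [TT_coe 0 le_rfl f, ae_restrict_mem measurableSet_Ioi] with x hx hx0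
  rw [hx]
  have hx0' : (0 : ℝ) < x := hx0
  unfold ct
  rw [if_pos hx0', sub_zero, sub_zero, div_self (by linarith)]
  simp

lemma ct_mul (s t x : ℝ) (_hs : 0 ≤ s) (ht : 0 ≤ t) : ct s x * ct t (x - s) = ct (s + t) x := by
  unfold ct
  by_cases h1 : s < x
  · by_cases h2 : t < x - s
    · rw [if_pos h1, if_pos h2, if_pos (by linarith), ← Complex.ofReal_mul]
      congr 1
      have h3 : 1 + (x - s) ≠ 0 := by linarith
      have h4 : 1 + x ≠ 0 := by linarith
      have h5 : 1 + x - s ≠ 0 := by intro h; apply h3; linarith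
      field_simp
      ring
    · rw [if_neg h2, if_neg (show ¬ (s + t < x) from fun h => h2 (by linarith)), mul_zero]
  · rw [if_neg h1, if_neg (show ¬ (s + t < x) from fun h => h1 (by linarith)), zero_mul]

lemma TT_add (s t : ℝ) (hs : 0 ≤ s) (ht : 0 ≤ t) : TT (s + t) = (TT s).comp (TT t) := by
  ext1 f
  rw [ContinuousLinearMap.comp_apply]
  apply Lp.ext
  filter_upwards [TT_coe (s + t) (add_nonneg hs ht) f, TT_coe s hs (TT t f),
    (ct_good s hs).ae (TT_coe t ht f)] with x h1 h2 h3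
  rw [h1, h2, ← ct_mul s t x hs ht]
  rcases h3 with h3 | h3
  · simp [h3]
  · rw [h3, mul_assoc, show x - (s + t) = x - s - t by ring]

/-- multiplication by `1/(1+x)` -/
noncomputable def MM : HH →L[ℂ] HH := wcomp qq_good

lemma MM_coe (f : HH) : (MM f : ℝ → ℂ) =ᵐ[μ0] fun x => qq x * f x := wcomp_coe _ f

lemma qq_conj (x : ℝ) : (starRingEnd ℂ) (qq x) = qq x := by
  unfold qq
  split_ifs
  · rw [Complex.conj_ofReal]
  · simp

lemma MM_symm (u v : HH) : inner ℂ (MM u) v = inner ℂ u (MM v) := by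
  rw [L2.inner_def, L2.inner_def]
  apply integral_congr_ae
  filter_upwards [MM_coe u, MM_coe v] with x hu hv
  rw [hu, hv]
  simp only [RCLike.inner_apply, map_mul, qq_conj]
  ring

lemma norm_sq_eq (g : HH) : ‖g‖ ^ 2 = ∫ x, ‖g x‖ ^ 2 ∂μ0 := by
  have h1 : (inner ℂ g g : ℂ) = ((‖g‖ ^ 2 : ℝ) : ℂ) := by
    rw [inner_self_eq_norm_sq_to_K]; norm_cast
  have h2 : (inner ℂ g g : ℂ) = ((∫ x, ‖g x‖ ^ 2 ∂μ0 : ℝ) : ℂ) := by
    rw [L2.inner_def, ← integral_complex_ofReal]
    apply integral_congr_ae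
    filter_upwards with x
    rw [inner_self_eq_norm_sq_to_K]; norm_cast
  rw [h1] at h2
  exact_mod_cast h2

lemma integrable_sq (g : HH) : Integrable (fun x => ‖g x‖ ^ 2) μ0 :=
  (Lp.memLp g).integrable_norm_pow (by norm_num)

lemma integrable_weight (g : HH) (ω : ℝ → ℝ) (hω : Measurable ω) (C : ℝ)
    (hC : ∀ x, 0 < x → |ω x| ≤ C) : Integrable (fun x => ω x * ‖g x‖ ^ 2) μ0 := by
  apply (integrable_sq g).bdd_mul (c := C) hω.aestronglyMeasurable
  filter_upwards [ae_restrict_mem measurableSet_Ioi] with x hx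
  exact hC x hx

/-- change of variables -/
lemma shift_integral (h : ℝ) (hh : 0 ≤ h) (g : HH) (ω : ℝ → ℝ) :
    ∫ x, ω x * ‖TT h g x‖ ^ 2 ∂μ0 =
      ∫ s, (ω (s + h) * ((1 + s) / (1 + s + h)) ^ 2) * ‖g s‖ ^ 2 ∂μ0 := by
  have h1 : ∫ x, ω x * ‖TT h g x‖ ^ 2 ∂μ0 = ∫ x, ω x * ‖ct h x * g (x - h)‖ ^ 2 ∂μ0 := by
    apply integral_congr_ae
    filter_upwards [TT_coe h hh g] with x hx
    rw [hx]
  rw [h1]
  set G : ℝ → ℝ := fun s => (ω (s + h) * ((1 + s) / (1 + s + h)) ^ 2) * ‖g s‖ ^ 2 with hG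
  have h2 : ∀ x, ω x * ‖ct h x * g (x - h)‖ ^ 2 = (Set.Ioi (0 : ℝ)).indicator G (x - h) := by
    intro x
    by_cases hx : h < x
    · have h3 : x - h ∈ Set.Ioi (0 : ℝ) := by
        simp only [Set.mem_Ioi]; linarith
      rw [Set.indicator_of_mem h3, hG]
      simp only
      rw [norm_mul, ct_norm h x hh, if_pos hx, mul_pow, sub_add_cancel,
        show 1 + (x - h) + h = 1 + x by ring, show 1 + (x - h) = 1 + x - h by ring]
      ring
    · have h3 : x - h ∉ Set.Ioi (0 : ℝ) := by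
        simp only [Set.mem_Ioi]; linarith
      rw [Set.indicator_of_notMem h3]
      have : ct h x = 0 := by unfold ct; rw [if_neg hx]
      rw [this]
      simp
  calc ∫ x, ω x * ‖ct h x * g (x - h)‖ ^ 2 ∂μ0
      = ∫ x, ω x * ‖ct h x * g (x - h)‖ ^ 2 := by
        apply setIntegral_eq_integral_of_forall_compl_eq_zero
        intro x hx
        rw [h2, Set.indicator_of_notMem]
        intro hx2
        apply hx
        simp only [Set.mem_Ioi] at hx2 ⊢
        linarith
    _ = ∫ x, (Set.Ioi (0 : ℝ)).indicator G (x - h) := by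
        apply integral_congr_ae
        filter_upwards with x
        exact h2 x
    _ = ∫ x, (Set.Ioi (0 : ℝ)).indicator G x :=
        integral_sub_right_eq_self (fun x => (Set.Ioi (0 : ℝ)).indicator G x) h
    _ = ∫ s, G s ∂μ0 := integral_indicator measurableSet_Ioi

lemma inner_MM (g : HH) : (inner ℂ (MM g) g : ℂ).re = ∫ x, (1 / (1 + x)) * ‖g x‖ ^ 2 ∂μ0 := by
  have h2 : (inner ℂ (MM g) g : ℂ) = ((∫ x, (1 / (1 + x)) * ‖g x‖ ^ 2 ∂μ0 : ℝ) : ℂ) := by
    rw [L2.inner_def, ← integral_complex_ofReal]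
    apply integral_congr_ae
    filter_upwards [MM_coe g, ae_restrict_mem measurableSet_Ioi] with x hx hx0
    have hx0' : (0 : ℝ) < x := hx0
    rw [hx]
    simp only [RCLike.inner_apply, map_mul, qq_conj]
    unfold qq
    rw [if_pos hx0']
    have : g x * (starRingEnd ℂ) (g x) = ((‖g x‖ ^ 2 : ℝ) : ℂ) := by
      rw [Complex.mul_conj, Complex.normSq_eq_norm_sq]
    push_cast at this ⊢
    rw [← this]
    ring
  rw [h2, Complex.ofReal_re]

lemma norm_MM (g : HH) : ‖MM g‖ ^ 2 = ∫ x, (1 / (1 + x)) ^ 2 * ‖g x‖ ^ 2 ∂μ0 := by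
  rw [norm_sq_eq]
  apply integral_congr_ae
  filter_upwards [MM_coe g, ae_restrict_mem measurableSet_Ioi] with x hx hx0
  have hx0' : (0 : ℝ) < x := hx0
  rw [hx]
  unfold qq
  rw [if_pos hx0', norm_mul, mul_pow, Complex.norm_real, Real.norm_eq_abs, sq_abs]

lemma hA_TT (h : ℝ) (hh : 0 < h) (u : HH) :
    ‖u‖ ^ 2 - 2 * h * (inner ℂ (MM u) u : ℂ).re ≤ ‖TT h u‖ ^ 2 := by
  have e1 : ‖TT h u‖ ^ 2 = ∫ s, ((1 + s) / (1 + s + h)) ^ 2 * ‖u s‖ ^ 2 ∂μ0 := by
    rw [norm_sq_eq]
    have := shift_integral h hh.le u (fun _ => 1)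
    simpa using this
  have i1 : Integrable (fun x => (1 / (1 + x)) * ‖u x‖ ^ 2) μ0 := by
    apply integrable_weight u _ (by fun_prop) 1
    intro x hx
    rw [abs_of_nonneg (by positivity), div_le_one (by linarith)]
    linarith
  have i2 : Integrable (fun x => ((1 + x) / (1 + x + h)) ^ 2 * ‖u x‖ ^ 2) μ0 := by
    apply integrable_weight u _ (by fun_prop) 1
    intro x hx
    rw [abs_of_nonneg (by positivity)]
    apply pow_le_one₀ (by positivity)
    rw [div_le_one (by linarith)]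
    linarith
  rw [e1, inner_MM, norm_sq_eq, ← integral_const_mul, ← integral_sub (integrable_sq u)
    (i1.const_mul _)]
  apply integral_mono_ae ((integrable_sq u).sub (i1.const_mul _)) i2
  filter_upwards [ae_restrict_mem measurableSet_Ioi] with x hx
  have hx0 : (0 : ℝ) < x := hx
  have key : 1 - 2 * h * (1 / (1 + x)) ≤ ((1 + x) / (1 + x + h)) ^ 2 := by
    rw [div_pow, mul_one_div, sub_le_iff_le_add, ← sub_le_iff_le_add']
    rw [sub_le_iff_le_add, div_add_div _ _ (by positivity) (by positivity), le_div_iff₀ (by positivity)]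
    nlinarith [mul_pos hh hh, mul_pos hx0 hh, mul_pos (mul_pos hh hh) hh, mul_pos (mul_pos hh hh) hx0]
  have := mul_le_mul_of_nonneg_right key (sq_nonneg ‖u x‖)
  simp only [Pi.sub_apply]
  nlinarith

lemma hB_TT (h : ℝ) (hh : 0 < h) (u : HH) :
    (inner ℂ (MM (TT h u)) (TT h u) : ℂ).re ≤
      (inner ℂ (MM u) u : ℂ).re - 3 * h * ‖MM u‖ ^ 2 + 6 * h ^ 2 * ‖u‖ ^ 2 := by
  have e1 : (inner ℂ (MM (TT h u)) (TT h u) : ℂ).re =
      ∫ s, ((1 / (1 + (s + h))) * ((1 + s) / (1 + s + h)) ^ 2) * ‖u s‖ ^ 2 ∂μ0 := by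
    rw [inner_MM]
    exact shift_integral h hh.le u (fun x => 1 / (1 + x))
  have i1 : Integrable (fun x => (1 / (1 + x)) * ‖u x‖ ^ 2) μ0 := by
    apply integrable_weight u _ (by fun_prop) 1
    intro x hx
    rw [abs_of_nonneg (by positivity), div_le_one (by linarith)]
    linarith
  have i2 : Integrable (fun x => (1 / (1 + x)) ^ 2 * ‖u x‖ ^ 2) μ0 := by
    apply integrable_weight u _ (by fun_prop) 1
    intro x hx
    rw [abs_of_nonneg (by positivity)]
    apply pow_le_one₀ (by positivity)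
    rw [div_le_one (by linarith)]
    linarith
  have i3 : Integrable (fun s => ((1 / (1 + (s + h))) * ((1 + s) / (1 + s + h)) ^ 2) *
      ‖u s‖ ^ 2) μ0 := by
    apply integrable_weight u _ (by fun_prop) 1
    intro x hx
    rw [abs_of_nonneg (by positivity)]
    apply mul_le_one₀ _ (by positivity)
    · apply pow_le_one₀ (by positivity)
      rw [div_le_one (by linarith)]
      linarith
    · rw [div_le_one (by linarith)]
      linarith
  have e2 : (∫ x, (1 / (1 + x)) * ‖u x‖ ^ 2 ∂μ0) - 3 * h * (∫ x, (1 / (1 + x)) ^ 2 * ‖u x‖ ^ 2 ∂μ0)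
      + 6 * h ^ 2 * (∫ x, ‖u x‖ ^ 2 ∂μ0) =
      ∫ x, (((1 / (1 + x)) * ‖u x‖ ^ 2 - 3 * h * ((1 / (1 + x)) ^ 2 * ‖u x‖ ^ 2)) +
        6 * h ^ 2 * ‖u x‖ ^ 2) ∂μ0 := by
    have i12 : Integrable (fun x => (1 / (1 + x)) * ‖u x‖ ^ 2 -
        3 * h * ((1 / (1 + x)) ^ 2 * ‖u x‖ ^ 2)) μ0 := i1.sub (i2.const_mul _)
    have i4 : Integrable (fun x => 6 * h ^ 2 * ‖u x‖ ^ 2) μ0 := (integrable_sq u).const_mul _
    rw [integral_add i12 i4, integral_sub i1 (i2.const_mul _), integral_const_mul,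
      integral_const_mul]
  rw [e1, inner_MM, norm_MM, norm_sq_eq, e2]
  apply integral_mono_ae i3 ((i1.sub (i2.const_mul _)).add ((integrable_sq u).const_mul _))
  filter_upwards [ae_restrict_mem measurableSet_Ioi] with x hx
  have hx0 : (0 : ℝ) < x := hx
  have key : (1 / (1 + (x + h))) * ((1 + x) / (1 + x + h)) ^ 2 ≤
      1 / (1 + x) - 3 * h * (1 / (1 + x)) ^ 2 + 6 * h ^ 2 := by
    set a : ℝ := 1 + x with ha
    have ha1 : 1 ≤ a := by linarith
    have ha0 : 0 < a := by linarith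
    have e3 : 1 / (1 + (x + h)) * (a / (a + h)) ^ 2 = a ^ 2 / (a + h) ^ 3 := by
      rw [show 1 + (x + h) = a + h by rw [ha]; ring, div_pow]
      field_simp
    have e4 : 1 / a - 3 * h * (1 / a) ^ 2 + 6 * h ^ 2 / a ^ 3 =
        (a ^ 2 - 3 * h * a + 6 * h ^ 2) / a ^ 3 := by
      field_simp
    have e5 : a ^ 2 / (a + h) ^ 3 ≤ (a ^ 2 - 3 * h * a + 6 * h ^ 2) / a ^ 3 := by
      rw [div_le_div_iff₀ (by positivity) (by positivity)]
      have : (a ^ 2 - 3 * h * a + 6 * h ^ 2) * (a + h) ^ 3 - a ^ 2 * a ^ 3 =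
          10 * h ^ 3 * a ^ 2 + 15 * h ^ 4 * a + 6 * h ^ 5 := by ring
      have h6 : 0 ≤ 10 * h ^ 3 * a ^ 2 + 15 * h ^ 4 * a + 6 * h ^ 5 := by positivity
      linarith
    have e6 : 6 * h ^ 2 / a ^ 3 ≤ 6 * h ^ 2 := by
      apply div_le_self (by positivity)
      exact one_le_pow₀ ha1
    rw [e3]
    linarith
  have := mul_le_mul_of_nonneg_right key (sq_nonneg ‖u x‖)
  simp only [Pi.sub_apply, Pi.add_apply]
  nlinarith

/-- strong continuity at `0` on nice functions -/
lemma cont_nice (g : ℝ → ℂ) (hgc : Continuous g) (hgs : HasCompactSupport g)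
    (hg : MemLp g 2 μ0) :
    Tendsto (fun h => ‖TT h hg.toLp - hg.toLp‖) (nhdsWithin 0 (Set.Ici 0)) (nhds 0) := by
  obtain ⟨C, hC⟩ := hgs.exists_bound_of_continuous hgc
  have hC0 : 0 ≤ C := (norm_nonneg _).trans (hC 0)
  obtain ⟨R, hR⟩ : ∃ R : ℝ, ∀ x, R < |x| → g x = 0 := by
    obtain ⟨R, hR⟩ := hgs.isCompact.isBounded.subset_closedBall 0
    refine ⟨R, fun x hx => ?_⟩
    by_contra hne
    have h1 := hR (subset_tsupport g hne)
    rw [Metric.mem_closedBall, dist_zero_right, Real.norm_eq_abs] at h1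
    linarith
  have hsq : Tendsto (fun h => ‖TT h hg.toLp - hg.toLp‖ ^ 2) (nhdsWithin 0 (Set.Ici 0))
      (nhds 0) := by
    have e1 : ∀ h : ℝ, 0 ≤ h → ‖TT h hg.toLp - hg.toLp‖ ^ 2 =
        ∫ x, ‖ct h x * g (x - h) - g x‖ ^ 2 ∂μ0 := by
      intro h hh
      rw [norm_sq_eq]
      apply integral_congr_ae
      filter_upwards [Lp.coeFn_sub (TT h hg.toLp) hg.toLp, TT_coe h hh hg.toLp, hg.coeFn_toLp,
        (ct_good h hh).ae hg.coeFn_toLp] with x h1 h2 h3 h4
      rw [h1, Pi.sub_apply, h2, h3]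
      rcases h4 with h4 | h4
      · rw [h4]; simp
      · rw [h4]
    have e2 : Tendsto (fun h => ∫ x, ‖ct h x * g (x - h) - g x‖ ^ 2 ∂μ0)
        (nhdsWithin 0 (Set.Ici 0)) (nhds (∫ x, (0 : ℝ) ∂μ0)) := by
      apply tendsto_integral_filter_of_dominated_convergence
        (bound := fun x => (Set.Icc (-(R + 1)) (R + 1)).indicator (fun _ => (2 * C) ^ 2) x)
      · filter_upwards with h
        exact ((((ct_meas h).mul (hgc.measurable.comp (by fun_prop))).sub
          hgc.measurable).norm.pow_const 2).aestronglyMeasurable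
      · have hlt : ∀ᶠ h in nhdsWithin (0 : ℝ) (Set.Ici 0), h < 1 :=
          nhdsWithin_le_nhds (Iio_mem_nhds one_pos)
        filter_upwards [hlt, self_mem_nhdsWithin] with h h1 h0
        have h0' : (0 : ℝ) ≤ h := h0
        filter_upwards with x
        rw [Real.norm_eq_abs, abs_of_nonneg (by positivity)]
        by_cases hx : x ∈ Set.Icc (-(R + 1)) (R + 1)
        · rw [Set.indicator_of_mem hx]
          apply pow_le_pow_left₀ (norm_nonneg _)
          calc ‖ct h x * g (x - h) - g x‖ ≤ ‖ct h x * g (x - h)‖ + ‖g x‖ := norm_sub_le _ _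
            _ ≤ 1 * C + C := by
              apply add_le_add _ (hC x)
              rw [norm_mul]
              exact mul_le_mul (ct_norm_le h x h0') (hC _) (norm_nonneg _) zero_le_one
            _ = 2 * C := by ring
        · rw [Set.indicator_of_notMem hx]
          have hxR : R + 1 < |x| := by
            rw [Set.mem_Icc, ← abs_le] at hx
            exact not_le.mp hx
          have g1 : g x = 0 := hR x (by linarith)
          have g2 : g (x - h) = 0 := by
            apply hR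
            have := abs_sub_abs_le_abs_sub x h
            rw [abs_of_nonneg h0'] at this
            linarith
          rw [g1, g2]
          simp
      · apply Integrable.mono_measure _ Measure.restrict_le_self
        rw [integrable_indicator_iff measurableSet_Icc]
        exact integrableOn_const (by simp) enorm_ne_top
      · filter_upwards [ae_restrict_mem measurableSet_Ioi] with x hx
        have hx0 : (0 : ℝ) < x := hx
        have h1 : Tendsto (fun h => ct h x) (nhdsWithin 0 (Set.Ici 0)) (nhds 1) := by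
          have h2 : Tendsto (fun h : ℝ => (((1 + x - h) / (1 + x) : ℝ) : ℂ))
              (nhdsWithin 0 (Set.Ici 0)) (nhds (((1 + x - 0) / (1 + x) : ℝ) : ℂ)) := by
            apply tendsto_nhdsWithin_of_tendsto_nhds
            refine (Complex.continuous_ofReal.tendsto _).comp ?_
            apply Continuous.tendsto
            fun_prop
          rw [sub_zero, div_self (by linarith), Complex.ofReal_one] at h2
          refine h2.congr' ?_
          have hlt : ∀ᶠ h in nhdsWithin (0 : ℝ) (Set.Ici 0), h < x :=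
            nhdsWithin_le_nhds (Iio_mem_nhds hx0)
          filter_upwards [hlt] with h hh
          unfold ct
          rw [if_pos hh]
        have h2 : Tendsto (fun h => g (x - h)) (nhdsWithin 0 (Set.Ici 0)) (nhds (g x)) := by
          apply tendsto_nhdsWithin_of_tendsto_nhds
          have : Continuous fun h => g (x - h) := by fun_prop
          have h3 := this.tendsto 0
          rwa [sub_zero] at h3
        have h3 := (((h1.mul h2).sub (tendsto_const_nhds (x := g x))).norm.pow 2)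
        simpa using h3
    rw [integral_zero] at e2
    refine e2.congr' ?_
    filter_upwards [self_mem_nhdsWithin] with h hh
    exact (e1 h hh).symm
  have h4 := (Real.continuous_sqrt.tendsto 0).comp hsq
  rw [Real.sqrt_zero] at h4
  refine h4.congr (fun h => ?_)
  simp [Real.sqrt_sq]

instance : μ0.Regular := inferInstance

lemma cont_zero (f : HH) :
    Tendsto (fun h => ‖TT h f - f‖) (nhdsWithin 0 (Set.Ici 0)) (nhds 0) := by
  rw [Metric.tendsto_nhds]
  intro ε hε
  have hε4 : ENNReal.ofReal (ε / 4) ≠ 0 := by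
    rw [Ne, ENNReal.ofReal_eq_zero, not_le]; linarith
  obtain ⟨g, hgs, hgε, hgc, hg⟩ :=
    (Lp.memLp f).exists_hasCompactSupport_eLpNorm_sub_le (by simp) hε4
  have hfg : ‖f - hg.toLp‖ ≤ ε / 4 := by
    have h1 : f = (Lp.memLp f).toLp := (Lp.toLp_coeFn f (Lp.memLp f)).symm
    rw [h1, ← MemLp.toLp_sub, Lp.norm_toLp]
    exact ENNReal.toReal_le_of_le_ofReal (by linarith) hgε
  have h2 := cont_nice g hgc hgs hg
  rw [Metric.tendsto_nhds] at h2
  filter_upwards [h2 (ε / 4) (by linarith)] with h hh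
  rw [dist_zero_right, norm_norm] at hh ⊢
  have e : TT h f - f = TT h (f - hg.toLp) + (TT h hg.toLp - hg.toLp) + (hg.toLp - f) := by
    rw [map_sub]; abel
  have b1 : ‖TT h (f - hg.toLp)‖ ≤ ε / 4 := by
    calc ‖TT h (f - hg.toLp)‖ ≤ ‖TT h‖ * ‖f - hg.toLp‖ := (TT h).le_opNorm _
      _ ≤ 1 * (ε / 4) := mul_le_mul (TT_norm h) hfg (norm_nonneg _) zero_le_one
      _ = ε / 4 := one_mul _
  have b2 : ‖hg.toLp - f‖ ≤ ε / 4 := by rw [norm_sub_rev]; exact hfg
  calc ‖TT h f - f‖ ≤ ‖TT h (f - hg.toLp) + (TT h hg.toLp - hg.toLp)‖ + ‖hg.toLp - f‖ := by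
        rw [e]; exact norm_add_le _ _
    _ ≤ ‖TT h (f - hg.toLp)‖ + ‖TT h hg.toLp - hg.toLp‖ + ‖hg.toLp - f‖ := by
        gcongr
        exact norm_add_le _ _
    _ < ε := by linarith

lemma cont_on (f : HH) : ContinuousOn (fun t : ℝ => TT t f) (Set.Ici 0) := by
  intro t0 ht0
  have ht0' : (0 : ℝ) ≤ t0 := ht0
  have hle : ∀ t, 0 ≤ t → ‖TT t f - TT t0 f‖ ≤ ‖TT |t - t0| f - f‖ := by
    intro t ht
    rcases le_total t0 t with h | h
    · have e : TT t f = TT t0 (TT (t - t0) f) := by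
        rw [← ContinuousLinearMap.comp_apply, ← TT_add t0 (t - t0) ht0' (by linarith)]
        congr 2; ring
      rw [e, ← map_sub, abs_of_nonneg (by linarith)]
      calc _ ≤ ‖TT t0‖ * ‖TT (t - t0) f - f‖ := (TT t0).le_opNorm _
        _ ≤ 1 * ‖TT (t - t0) f - f‖ := by gcongr; exact TT_norm _
        _ = _ := one_mul _
    · have e : TT t0 f = TT t (TT (t0 - t) f) := by
        rw [← ContinuousLinearMap.comp_apply, ← TT_add t (t0 - t) ht (by linarith)]
        congr 2; ring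
      rw [e, ← map_sub, abs_of_nonpos (by linarith), neg_sub, norm_sub_rev (TT (t0 - t) f)]
      calc _ ≤ ‖TT t‖ * ‖f - TT (t0 - t) f‖ := (TT t).le_opNorm _
        _ ≤ 1 * ‖f - TT (t0 - t) f‖ := by gcongr; exact TT_norm _
        _ = _ := one_mul _
  rw [ContinuousWithinAt, tendsto_iff_norm_sub_tendsto_zero]
  have h1 : Tendsto (fun t => |t - t0|) (nhdsWithin t0 (Set.Ici 0)) (nhdsWithin 0 (Set.Ici 0)) := by
    apply tendsto_nhdsWithin_of_tendsto_nhds_of_eventually_within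
    · apply tendsto_nhdsWithin_of_tendsto_nhds
      have : Continuous fun t : ℝ => |t - t0| := by fun_prop
      have h3 := this.tendsto t0
      rwa [sub_self, abs_zero] at h3
    · filter_upwards with t
      exact abs_nonneg (t - t0)
  have h2 := (cont_zero f).comp h1
  refine squeeze_zero' ?_ ?_ h2
  · filter_upwards with t
    exact norm_nonneg _
  · filter_upwards [self_mem_nhdsWithin] with t ht
    exact hle t ht

/-- The negation of the preceding statement: Take a strongly continuous contraction semigroup on a complex Hilbert space with generator A, and some m>0 with ‖(μ−A)x‖ ≥ m∣Re μ∣‖x‖ for all x in D(A) and Re μ<0. Then some m₁>0 gives ‖T(t)x‖ ≥ m₁‖x‖ for all t≥0 and all x. -/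
theorem result :
    ¬ (∀ (H : Type) [NormedAddCommGroup H] [InnerProductSpace ℂ H] [CompleteSpace H]
      (T : ℝ → H →L[ℂ] H),
      T 0 = ContinuousLinearMap.id ℂ H →
      (∀ s t : ℝ, 0 ≤ s → 0 ≤ t → T (s + t) = (T s).comp (T t)) →
      (∀ x : H, ContinuousOn (fun t : ℝ => T t x) (Set.Ici 0)) →
      (∀ t : ℝ, 0 ≤ t → ‖T t‖ ≤ 1) →
      ∀ m : ℝ, 0 < m →
      (∀ x y : H,
        Filter.Tendsto (fun h : ℝ => ((h : ℂ)⁻¹) • (T h x - x))
          (nhdsWithin 0 (Set.Ioi 0)) (nhds y) →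
        ∀ μ : ℂ, μ.re < 0 → m * |μ.re| * ‖x‖ ≤ ‖μ • x - y‖) →
      ∃ m₁ : ℝ, 0 < m₁ ∧ ∀ t : ℝ, 0 ≤ t → ∀ x : H, m₁ * ‖x‖ ≤ ‖T t x‖) := by
  intro H
  obtain ⟨m₁, hm₁, hlow⟩ := H HH TT TT_zero TT_add cont_on (fun t _ => TT_norm t) (1 / 2)
    (by norm_num) (fun x y hy μ hμ => abstract_bound TT MM MM_symm hA_TT hB_TT x y hy μ hμ)
  -- the test function: the indicator of `(0, 1)`
  have hμs : μ0 (Set.Ioo 0 1) ≠ ∞ := by
    refine ((Measure.restrict_apply_le _ _).trans_lt ?_).ne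
    simp
  set f : HH := indicatorConstLp 2 measurableSet_Ioo hμs (1 : ℂ) with hf
  have hfne : ‖f‖ ≠ 0 := by
    rw [hf, norm_indicatorConstLp two_ne_zero ENNReal.ofNat_ne_top]
    have h1 : μ0.real (Set.Ioo 0 1) = 1 := by
      rw [measureReal_restrict_apply measurableSet_Ioo,
        Set.inter_eq_left.mpr (fun x hx => hx.1)]
      simp
    rw [h1]
    simp
  have hfpos : 0 < ‖f‖ := lt_of_le_of_ne (norm_nonneg _) (Ne.symm hfne)
  have hup : ∀ t : ℝ, 0 ≤ t → ‖TT t f‖ ≤ 2 / (1 + t) * ‖f‖ := by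
    intro t ht
    have e1 : ‖TT t f‖ ^ 2 = ∫ s, ((1 + s) / (1 + s + t)) ^ 2 * ‖f s‖ ^ 2 ∂μ0 := by
      rw [norm_sq_eq]
      have := shift_integral t ht f (fun _ => 1)
      simpa using this
    have e2 : (2 / (1 + t) * ‖f‖) ^ 2 = ∫ s, (2 / (1 + t)) ^ 2 * ‖f s‖ ^ 2 ∂μ0 := by
      rw [mul_pow, norm_sq_eq, integral_const_mul]
    have i2 : Integrable (fun x => ((1 + x) / (1 + x + t)) ^ 2 * ‖f x‖ ^ 2) μ0 := by
      apply integrable_weight f _ (by fun_prop) 1
      intro x hx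
      rw [abs_of_nonneg (by positivity)]
      apply pow_le_one₀ (by positivity)
      rw [div_le_one (by linarith)]
      linarith
    have e3 : ‖TT t f‖ ^ 2 ≤ (2 / (1 + t) * ‖f‖) ^ 2 := by
      rw [e1, e2]
      apply integral_mono_ae i2 ((integrable_sq f).const_mul _)
      filter_upwards [ae_restrict_mem measurableSet_Ioi,
        indicatorConstLp_coeFn (p := 2) (hs := measurableSet_Ioo) (hμs := hμs) (c := (1 : ℂ))]
        with x hx hfx
      have hx0 : (0 : ℝ) < x := hx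
      have hfx' : f x = (Set.Ioo (0 : ℝ) 1).indicator (fun _ => (1 : ℂ)) x := hfx
      by_cases hx1 : x ∈ Set.Ioo (0 : ℝ) 1
      · apply mul_le_mul_of_nonneg_right _ (sq_nonneg _)
        apply pow_le_pow_left₀ (by positivity)
        rw [div_le_div_iff₀ (by positivity) (by positivity)]
        have hx2 : x < 1 := hx1.2
        nlinarith
      · rw [hfx', Set.indicator_of_notMem hx1]
        simp
    exact (pow_le_pow_iff_left₀ (norm_nonneg _) (by positivity) two_ne_zero).mp e3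
  have h1 := hlow (2 / m₁) (by positivity) f
  have h2 := hup (2 / m₁) (by positivity)
  have h3 : m₁ ≤ 2 / (1 + 2 / m₁) := le_of_mul_le_mul_right (h1.trans h2) hfpos
  rw [le_div_iff₀ (by positivity)] at h3
  have h4 : m₁ * (1 + 2 / m₁) = m₁ + 2 := by field_simp
  linarith

end Pool.Agent.S03642
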