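import Pool.Statements.S03650
-- import your own Pool.Agent.* helpers here

set_option autoImplicit false
open Filter Topology
open Pool Pool.MP_8ba4a6_an

namespace Pool.Agent.S03650

/-- The counterexample: in the variable `z = log x` the equation reads
`z (n+2) = - (z (n+1))^3 - z n / 2`. -/
noncomputable def fx (x y : ℝ) : ℝ :=
  Real.exp (-Real.log x - (Real.log x) ^ 3 - Real.log y / 2)

lemma rec_log (x : ℕ → ℝ) (h0 : 0 < x 0) (h1 : 0 < x 1)
    (hx : ∀ n : ℕ, x (n + 2) = x (n + 1) * fx (x (n + 1)) (x n)) :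
    (∀ n, 0 < x n) ∧
    ∀ n, Real.log (x (n + 2)) = - (Real.log (x (n + 1))) ^ 3 - Real.log (x n) / 2 := by
  have hpos : ∀ n, 0 < x n ∧ 0 < x (n + 1) := by
    intro n
    induction n with
    | zero => exact ⟨h0, h1⟩
    | succ n ih =>
      refine ⟨ih.2, ?_⟩
      rw [show n + 1 + 1 = n + 2 from rfl, hx n]
      exact mul_pos ih.2 (Real.exp_pos _)
  refine ⟨fun n => (hpos n).1, fun n => ?_⟩
  rw [hx n, fx, Real.log_mul (hpos n).2.ne' (Real.exp_pos _).ne', Real.log_exp]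
  ring

lemma step_bound (a b M : ℝ) (hM : M ≤ 1 / 2) (ha : |a| ≤ M) (c : ℝ)
    (hac : |a| ≤ c) (hbc : |b| ≤ c) : |-a ^ 3 - b / 2| ≤ 3 / 4 * c := by
  have h1 : |a ^ 3| ≤ c / 4 := by
    rw [abs_pow]
    have h2 : |a| ^ 2 ≤ 1 / 4 := by
      have := abs_nonneg a
      nlinarith
    calc |a| ^ 3 = |a| ^ 2 * |a| := by ring
      _ ≤ 1 / 4 * c := mul_le_mul h2 hac (abs_nonneg _) (by norm_num)
      _ = c / 4 := by ring
  have h3 : |b / 2| ≤ c / 2 := by
    rw [abs_div, abs_two]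
    linarith
  calc |-a ^ 3 - b / 2| ≤ |-a ^ 3| + |b / 2| := abs_sub _ _
    _ = |a ^ 3| + |b / 2| := by rw [abs_neg]
    _ ≤ c / 4 + c / 2 := add_le_add h1 h3
    _ = 3 / 4 * c := by ring

lemma decay (z : ℕ → ℝ) (hz : ∀ n, z (n + 2) = - (z (n + 1)) ^ 3 - z n / 2) (M : ℝ)
    (hM : M ≤ 1 / 2) (h0 : |z 0| ≤ M) (h1 : |z 1| ≤ M) :
    ∀ n, |z (2 * n)| ≤ M * (3 / 4) ^ n ∧ |z (2 * n + 1)| ≤ M * (3 / 4) ^ n := by
  have hM0 : 0 ≤ M := le_trans (abs_nonneg _) h0
  intro n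
  induction n with
  | zero => simpa using ⟨h0, h1⟩
  | succ n ih =>
    obtain ⟨iha, ihb⟩ := ih
    have hc0 : 0 ≤ M * (3 / 4) ^ n := by positivity
    have hcM : M * (3 / 4) ^ n ≤ M := by
      have : ((3 : ℝ) / 4) ^ n ≤ 1 := pow_le_one₀ (by norm_num) (by norm_num)
      nlinarith
    have e1 : |z (2 * (n + 1))| ≤ 3 / 4 * (M * (3 / 4) ^ n) := by
      rw [show 2 * (n + 1) = 2 * n + 2 from by ring, hz]
      exact step_bound _ _ M hM (ihb.trans hcM) _ ihb iha
    have e2 : |z (2 * (n + 1) + 1)| ≤ 3 / 4 * (M * (3 / 4) ^ n) := by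
      rw [show 2 * (n + 1) + 1 = (2 * n + 1) + 2 from by ring, hz,
        show 2 * n + 1 + 1 = 2 * (n + 1) from by ring]
      have e3 : |z (2 * (n + 1))| ≤ M * (3 / 4) ^ n := e1.trans (by linarith)
      exact step_bound _ _ M hM (e3.trans hcM) _ e3 ihb
    constructor
    · calc _ ≤ _ := e1
        _ = M * (3 / 4) ^ (n + 1) := by ring
    · calc _ ≤ _ := e2
        _ = M * (3 / 4) ^ (n + 1) := by ring

/-- The negation of the preceding statement: If f>0 is continuous on the positive quadrant, nonincreasing in x, strictly decreasing in y, x·f(x,x) strictly decreasing, and the unique positive equilibrium of x_{n+1}=x_n f(x_n,x_{n-1}) is locally asymptotically stable, then every positive solution converges to it. -/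
theorem result :
    ¬ (∀ (f : ℝ → ℝ → ℝ) (xbar : ℝ),
      ContinuousOn (fun p : ℝ × ℝ => f p.1 p.2) (Set.Ioi (0:ℝ) ×ˢ Set.Ioi (0:ℝ)) →
      (∀ x y : ℝ, 0 < x → 0 < y → 0 < f x y) →
      (∀ x₁ x₂ y : ℝ, 0 < x₁ → x₁ ≤ x₂ → 0 < y → f x₂ y ≤ f x₁ y) →
      (∀ x y₁ y₂ : ℝ, 0 < x → 0 < y₁ → y₁ < y₂ → f x y₂ < f x y₁) →
      (∀ x₁ x₂ : ℝ, 0 < x₁ → x₁ < x₂ → x₂ * f x₂ x₂ < x₁ * f x₁ x₁) →
      0 < xbar →
      f xbar xbar = 1 →
      (∀ y : ℝ, 0 < y → f y y = 1 → y = xbar) →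
      (∀ ε : ℝ, 0 < ε → ∃ δ : ℝ, 0 < δ ∧
        ∀ x : ℕ → ℝ, 0 < x 0 → 0 < x 1 →
          (∀ n : ℕ, x (n + 2) = x (n + 1) * f (x (n + 1)) (x n)) →
          |x 0 - xbar| + |x 1 - xbar| < δ →
          ∀ n : ℕ, |x n - xbar| < ε) →
      (∃ γ : ℝ, 0 < γ ∧
        ∀ x : ℕ → ℝ, 0 < x 0 → 0 < x 1 →
          (∀ n : ℕ, x (n + 2) = x (n + 1) * f (x (n + 1)) (x n)) →
          |x 0 - xbar| + |x 1 - xbar| < γ →
          Tendsto x atTop (𝓝 xbar)) →
      ∀ x : ℕ → ℝ, 0 < x 0 → 0 < x 1 →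
        (∀ n : ℕ, x (n + 2) = x (n + 1) * f (x (n + 1)) (x n)) →
        Tendsto x atTop (𝓝 xbar)) := by
  intro H
  -- smallness of logarithms near 1
  have hlog : ∀ η : ℝ, 0 < η → ∃ δ : ℝ, 0 < δ ∧ ∀ x : ℝ, |x - 1| < δ → |Real.log x| < η := by
    intro η hη
    have hc : ContinuousAt Real.log 1 := Real.continuousAt_log one_ne_zero
    rw [Metric.continuousAt_iff] at hc
    obtain ⟨δ, hδ, h⟩ := hc η hη
    refine ⟨δ, hδ, fun x hx => ?_⟩
    have := h (x := x) (by rwa [Real.dist_eq])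
    rwa [Real.log_one, Real.dist_eq, sub_zero] at this
  have hexp : ∀ ε : ℝ, 0 < ε → ∃ η : ℝ, 0 < η ∧ ∀ x : ℝ, |x| < η → |Real.exp x - 1| < ε := by
    intro ε hε
    have hc : ContinuousAt Real.exp 0 := Real.continuous_exp.continuousAt
    rw [Metric.continuousAt_iff] at hc
    obtain ⟨δ, hδ, h⟩ := hc ε hε
    refine ⟨δ, hδ, fun x hx => ?_⟩
    have := h (x := x) (by rwa [Real.dist_eq, sub_zero])
    rwa [Real.exp_zero, Real.dist_eq] at this
  have mono3 : ∀ a b : ℝ, a ≤ b → a ^ 3 ≤ b ^ 3 := fun a b hab =>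
    (Odd.strictMono_pow (by decide : Odd 3)).monotone hab
  have key := H fx 1 ?_ ?_ ?_ ?_ ?_ ?_ ?_ ?_ ?_ ?_
    (fun n => Real.exp ((-1) ^ n * Real.sqrt (3 / 2))) (Real.exp_pos _) (Real.exp_pos _) ?_
  · -- the 2-cycle does not converge to 1
    have h2 : Tendsto (fun n : ℕ => 2 * n) atTop atTop :=
      tendsto_id.const_mul_atTop' (by norm_num)
    have h3 := key.comp h2
    have h4 : ((fun n : ℕ => Real.exp ((-1) ^ n * Real.sqrt (3 / 2))) ∘ fun n : ℕ => 2 * n)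
        = fun _ : ℕ => Real.exp (Real.sqrt (3 / 2)) := by
      funext n
      simp [pow_mul]
    rw [h4] at h3
    have h5 := tendsto_nhds_unique h3 tendsto_const_nhds
    have h6 : 0 < Real.sqrt (3 / 2) := Real.sqrt_pos.mpr (by norm_num)
    have h7 : 1 < Real.exp (Real.sqrt (3 / 2)) := Real.one_lt_exp_iff.mpr h6
    linarith
  · -- continuity
    unfold fx
    apply ContinuousOn.rexp
    have hfst : ContinuousOn (fun p : ℝ × ℝ => Real.log p.1)
        (Set.Ioi (0:ℝ) ×ˢ Set.Ioi (0:ℝ)) :=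
      ContinuousOn.log continuous_fst.continuousOn (fun p hp => (Set.mem_Ioi.mp hp.1).ne')
    have hsnd : ContinuousOn (fun p : ℝ × ℝ => Real.log p.2)
        (Set.Ioi (0:ℝ) ×ˢ Set.Ioi (0:ℝ)) :=
      ContinuousOn.log continuous_snd.continuousOn (fun p hp => (Set.mem_Ioi.mp hp.2).ne')
    exact ((hfst.neg.sub (hfst.pow 3)).sub (hsnd.div_const 2))
  · intro x y _ _
    exact Real.exp_pos _
  · intro x₁ x₂ y h1 h12 hy
    unfold fx
    apply Real.exp_le_exp.mpr
    have := Real.log_le_log h1 h12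
    have := mono3 _ _ this
    linarith
  · intro x y₁ y₂ hx h1 h12
    unfold fx
    apply Real.exp_lt_exp.mpr
    have := Real.log_lt_log h1 h12
    linarith
  · intro x₁ x₂ h1 h12
    have h2 : 0 < x₂ := h1.trans h12
    have e : ∀ x : ℝ, 0 < x → x * fx x x = Real.exp (-(Real.log x) ^ 3 - Real.log x / 2) := by
      intro x hx
      unfold fx
      nth_rewrite 1 [← Real.exp_log hx]
      rw [← Real.exp_add]
      congr 1
      ring
    rw [e x₁ h1, e x₂ h2]
    apply Real.exp_lt_exp.mpr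
    have h3 := Real.log_lt_log h1 h12
    have := mono3 _ _ h3.le
    linarith
  · norm_num
  · simp [fx]
  · intro y hy h
    unfold fx at h
    rw [Real.exp_eq_one_iff] at h
    have h2 : Real.log y * ((Real.log y) ^ 2 + 3 / 2) = 0 := by linear_combination -h
    have h3 : Real.log y = 0 := by
      rcases mul_eq_zero.mp h2 with h | h
      · exact h
      · nlinarith [sq_nonneg (Real.log y)]
    rw [← Real.exp_log hy, h3, Real.exp_zero]
  · intro ε hε
    obtain ⟨η, hη, he⟩ := hexp ε hε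
    obtain ⟨δ, hδ, hl⟩ := hlog (min (η / 2) (1 / 2)) (by positivity)
    refine ⟨δ, hδ, fun x h0 h1 hx hsmall n => ?_⟩
    obtain ⟨hpos, hrec⟩ := rec_log x h0 h1 hx
    have a0 : |Real.log (x 0)| < min (η / 2) (1 / 2) :=
      hl _ (lt_of_le_of_lt (by linarith [abs_nonneg (x 1 - 1)]) hsmall)
    have a1 : |Real.log (x 1)| < min (η / 2) (1 / 2) :=
      hl _ (lt_of_le_of_lt (by linarith [abs_nonneg (x 0 - 1)]) hsmall)
    have hd := decay (fun n => Real.log (x n)) hrec (min (η / 2) (1 / 2)) (min_le_right _ _)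
      a0.le a1.le
    have hM0 : 0 < min (η / 2) (1 / 2) := by positivity
    have hle : ∀ k : ℕ, min (η / 2) (1 / 2) * (3 / 4 : ℝ) ^ k ≤ η / 2 := by
      intro k
      have : ((3 : ℝ) / 4) ^ k ≤ 1 := pow_le_one₀ (by norm_num) (by norm_num)
      have h1 : min (η / 2) (1 / 2) * (3 / 4 : ℝ) ^ k ≤ min (η / 2) (1 / 2) := by nlinarith
      exact h1.trans (min_le_left _ _)
    have hn : |Real.log (x n)| ≤ η / 2 := by
      rcases Nat.even_or_odd' n with ⟨k, hk | hk⟩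
      · rw [hk]; exact (hd k).1.trans (hle k)
      · rw [hk]; exact (hd k).2.trans (hle k)
    have := he (Real.log (x n)) (by linarith)
    rwa [Real.exp_log (hpos n)] at this
  · obtain ⟨δ, hδ, hl⟩ := hlog (1 / 2) (by norm_num)
    refine ⟨δ, hδ, fun x h0 h1 hx hsmall => ?_⟩
    obtain ⟨hpos, hrec⟩ := rec_log x h0 h1 hx
    have a0 : |Real.log (x 0)| < 1 / 2 :=
      hl _ (lt_of_le_of_lt (by linarith [abs_nonneg (x 1 - 1)]) hsmall)
    have a1 : |Real.log (x 1)| < 1 / 2 :=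
      hl _ (lt_of_le_of_lt (by linarith [abs_nonneg (x 0 - 1)]) hsmall)
    have hd := decay (fun n => Real.log (x n)) hrec (1 / 2) le_rfl a0.le a1.le
    have hlim : Tendsto (fun n => Real.log (x n)) atTop (𝓝 0) := by
      rw [Metric.tendsto_atTop]
      intro ε hε
      obtain ⟨N, hN⟩ := exists_pow_lt_of_lt_one (show (0:ℝ) < ε by exact hε)
        (show (3 / 4 : ℝ) < 1 by norm_num)
      refine ⟨2 * N, fun n hn => ?_⟩
      rw [Real.dist_eq, sub_zero]
      rcases Nat.even_or_odd' n with ⟨k, hk | hk⟩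
      · have hkN : N ≤ k := by omega
        rw [hk]
        have h2 : ((3 : ℝ) / 4) ^ k ≤ (3 / 4) ^ N :=
          pow_le_pow_of_le_one (by norm_num) (by norm_num) hkN
        have h3 := (hd k).1
        have h4 : (0 : ℝ) < (3 / 4) ^ k := by positivity
        linarith
      · have hkN : N ≤ k := by omega
        rw [hk]
        have h2 : ((3 : ℝ) / 4) ^ k ≤ (3 / 4) ^ N :=
          pow_le_pow_of_le_one (by norm_num) (by norm_num) hkN
        have h3 := (hd k).2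
        have h4 : (0 : ℝ) < (3 / 4) ^ k := by positivity
        linarith
    have h5 := (Real.continuous_exp.tendsto 0).comp hlim
    rw [Real.exp_zero] at h5
    refine h5.congr (fun n => ?_)
    simp [Real.exp_log (hpos n)]
  · intro n
    have hs : Real.sqrt (3 / 2) ^ 2 = 3 / 2 := Real.sq_sqrt (by norm_num)
    simp only [fx, Real.log_exp]
    rw [← Real.exp_add]
    congr 1
    set a := Real.sqrt (3 / 2)
    have hn : ((-1 : ℝ) ^ n) ^ 2 = 1 := by
      rw [← pow_mul, mul_comm, pow_mul]; norm_num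
    have h3 : ((-1 : ℝ) ^ n) ^ 3 = (-1) ^ n := by
      rw [pow_succ, hn, one_mul]
    have e1 : (-1 : ℝ) ^ (n + 2) = (-1) ^ n := by rw [pow_add]; norm_num
    have e2 : (-1 : ℝ) ^ (n + 1) = -(-1) ^ n := by rw [pow_succ]; ring
    rw [e1, e2]
    have e3 : (-(-1 : ℝ) ^ n * a) ^ 3 = -((-1) ^ n * (3 / 2) * a) := by
      calc (-(-1 : ℝ) ^ n * a) ^ 3 = -(((-1 : ℝ) ^ n) ^ 3 * a ^ 2 * a) := by ring
        _ = -((-1) ^ n * (3 / 2) * a) := by rw [h3, hs]
    rw [e3]
    ring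

end Pool.Agent.S03650
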