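import Pool.Statements.S03900
-- import your own Pool.Agent.* helpers here

set_option autoImplicit false
open scoped ComplexOrder
open Pool Pool.MP_a946bc_an

namespace Pool.Agent.S03900

/-- real forms -/
def R0 : Matrix (Fin 3) (Fin 3) ℝ := !![1, 1, 0; 1, 2, 1; 0, 1, 1]
def R1 : Matrix (Fin 3) (Fin 3) ℝ := !![1, 0, 1; 0, 0, 0; 1, 0, 1]

noncomputable def A0 : Matrix (Fin 3) (Fin 3) ℂ := !![1, 1, 0; 1, 2, 1; 0, 1, 1]
noncomputable def A1 : Matrix (Fin 3) (Fin 3) ℂ := !![1, 0, 1; 0, 0, 0; 1, 0, 1]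
noncomputable def B1 : Matrix (Fin 3) (Fin 3) ℂ := !![1, 0, -1; 0, 0, 0; -1, 0, 1]

noncomputable def M0 : Matrix (Fin 2) (Fin 3) ℂ := !![1, 1, 0; 0, 1, 1]
noncomputable def M1 : Matrix (Fin 1) (Fin 3) ℂ := !![1, 0, 1]
noncomputable def M2 : Matrix (Fin 1) (Fin 3) ℂ := !![1, 0, -1]

theorem A0_psd : A0.PosSemidef := by
  have h : A0 = M0.conjTranspose * M0 := by
    ext i j
    fin_cases i <;> fin_cases j <;> simp [A0, M0, Matrix.mul_apply, Fin.sum_univ_two, Matrix.conjTranspose_apply]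
    norm_num
  rw [h]
  exact Matrix.posSemidef_conjTranspose_mul_self _

theorem A1_psd : A1.PosSemidef := by
  have h : A1 = M1.conjTranspose * M1 := by
    ext i j
    fin_cases i <;> fin_cases j <;> simp [A1, M1, Matrix.mul_apply, Matrix.conjTranspose_apply]
  rw [h]
  exact Matrix.posSemidef_conjTranspose_mul_self _

theorem B1_psd : B1.PosSemidef := by
  have h : B1 = M2.conjTranspose * M2 := by
    ext i j
    fin_cases i <;> fin_cases j <;> simp [B1, M2, Matrix.mul_apply, Matrix.conjTranspose_apply]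
  rw [h]
  exact Matrix.posSemidef_conjTranspose_mul_self _

theorem charpoly_eq : A1.charpoly = B1.charpoly := by
  unfold Matrix.charpoly A1 B1
  rw [Matrix.det_fin_three, Matrix.det_fin_three]
  simp

theorem words (s : List Bool) : ∃ R : Matrix (Fin 3) (Fin 3) ℝ,
    (s.map (fun b => cond b A1 A0)).prod = R.map Complex.ofRealHom ∧
    ∀ i j, ‖(s.map (fun b => cond b B1 A0)).prod i j‖ ≤ R i j := by
  induction s with
  | nil =>
    refine ⟨1, ?_, fun i j => ?_⟩
    · simp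
    · simp only [List.map_nil, List.prod_nil, Matrix.one_apply]
      split <;> simp
  | cons b s ih =>
    obtain ⟨R, hR1, hR2⟩ := ih
    refine ⟨(cond b R1 R0) * R, ?_, fun i j => ?_⟩
    · rw [List.map_cons, List.prod_cons, hR1, Matrix.map_mul]
      congr 1
      cases b
      · ext i j
        fin_cases i <;> fin_cases j <;> simp [A0, R0]
      · ext i j
        fin_cases i <;> fin_cases j <;> simp [A1, R1]
    · rw [List.map_cons, List.prod_cons, Matrix.mul_apply, Matrix.mul_apply]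
      refine (norm_sum_le _ _).trans (Finset.sum_le_sum fun k _ => ?_)
      rw [norm_mul]
      have h1 : ‖(cond b B1 A0) i k‖ ≤ (cond b R1 R0) i k := by
        cases b
        · fin_cases i <;> fin_cases k <;> simp [A0, R0]
        · fin_cases i <;> fin_cases k <;> simp [B1, R1]
      have h2 := hR2 k j
      have h3 : 0 ≤ (cond b R1 R0) i k := (norm_nonneg _).trans h1
      gcongr

theorem eig_sum (M : Matrix (Fin 3) (Fin 3) ℂ) (hM : M.IsHermitian) (a b c : ℝ)
    (h : M.charpoly = (Polynomial.X - Polynomial.C (a : ℂ)) * (Polynomial.X - Polynomial.C (b : ℂ)) * (Polynomial.X - Polynomial.C (c : ℂ)))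
    (p : ℝ) : ∑ i, (hM.eigenvalues i) ^ p = a ^ p + b ^ p + c ^ p := by
  have h1 := hM.roots_charpoly_eq_eigenvalues
  have h2 : M.charpoly.roots = ({(a : ℂ), (b : ℂ), (c : ℂ)} : Multiset ℂ) := by
    rw [h, Polynomial.roots_mul, Polynomial.roots_mul, Polynomial.roots_X_sub_C, Polynomial.roots_X_sub_C, Polynomial.roots_X_sub_C]
    · rfl
    · exact mul_ne_zero (Polynomial.X_sub_C_ne_zero _) (Polynomial.X_sub_C_ne_zero _)
    · exact mul_ne_zero (mul_ne_zero (Polynomial.X_sub_C_ne_zero _) (Polynomial.X_sub_C_ne_zero _)) (Polynomial.X_sub_C_ne_zero _)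
  rw [h2] at h1
  have h3 := congrArg (fun m : Multiset ℂ => (m.map (fun z : ℂ => z.re ^ p)).sum) h1
  simp only [Multiset.map_map] at h3
  have h4 : (Multiset.map (fun z : ℂ => z.re ^ p) {(a : ℂ), (b : ℂ), (c : ℂ)}).sum = a ^ p + b ^ p + c ^ p := by
    simp [add_assoc]
  rw [h4] at h3
  rw [h3]
  rfl

theorem charpoly_A : (A0 + A1).charpoly = (Polynomial.X - Polynomial.C ((4 : ℝ) : ℂ)) * (Polynomial.X - Polynomial.C ((1 : ℝ) : ℂ)) * (Polynomial.X - Polynomial.C ((1 : ℝ) : ℂ)) := by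
  unfold Matrix.charpoly A0 A1
  rw [Matrix.det_fin_three]
  simp
  have h2 : (Polynomial.C (2 : ℂ) : Polynomial ℂ) = 2 := map_ofNat _ 2
  have h4 : (Polynomial.C (4 : ℂ) : Polynomial ℂ) = 4 := map_ofNat _ 4
  try rw [h2]
  try rw [h4]
  ring

theorem charpoly_B : (A0 + B1).charpoly = (Polynomial.X - Polynomial.C ((0 : ℝ) : ℂ)) * (Polynomial.X - Polynomial.C ((3 : ℝ) : ℂ)) * (Polynomial.X - Polynomial.C ((3 : ℝ) : ℂ)) := by
  unfold Matrix.charpoly A0 B1
  rw [Matrix.det_fin_three]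
  simp
  have h2 : (Polynomial.C (2 : ℂ) : Polynomial ℂ) = 2 := map_ofNat _ 2
  have h3 : (Polynomial.C (3 : ℂ) : Polynomial ℂ) = 3 := map_ofNat _ 3
  try rw [h2]
  try rw [h3]
  ring

/-- The negation of the preceding statement: For PSD complex n×n matrices with A₀,B₀ isospectral and A₁,B₁ isospectral, if every word trace in A is real and at least the modulus of the matching word trace in B, then for all p≥1 the sum of p-th powers of eigenvalues of A₀+A₁ is at least that of B₀+B₁. -/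
theorem result :
    ¬ (∀ (n : ℕ) (A₀ A₁ B₀ B₁ : Matrix (Fin n) (Fin n) ℂ)
      (hA₀ : A₀.PosSemidef) (hA₁ : A₁.PosSemidef)
      (hB₀ : B₀.PosSemidef) (hB₁ : B₁.PosSemidef),
      A₀.charpoly = B₀.charpoly →
      A₁.charpoly = B₁.charpoly →
      (∀ s : List Bool,
        ((‖((s.map (fun b => cond b B₁ B₀)).prod).trace‖ : ℝ) : ℂ) ≤
          ((s.map (fun b => cond b A₁ A₀)).prod).trace) →
      ∀ p : ℝ, 1 ≤ p →
        ∑ i, ((hB₀.add hB₁).isHermitian.eigenvalues i) ^ p ≤
          ∑ i, ((hA₀.add hA₁).isHermitian.eigenvalues i) ^ p) := by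
  intro H
  have h := H 3 A0 A1 A0 B1 A0_psd A1_psd A0_psd B1_psd rfl charpoly_eq ?_ (3 / 2) (by norm_num)
  · rw [eig_sum _ _ 0 3 3 charpoly_B, eig_sum _ _ 4 1 1 charpoly_A] at h
    have h3 : (3 : ℝ) ^ (3 / 2 : ℝ) = 3 * √3 := by
      rw [show (3 / 2 : ℝ) = 1 + 1 / 2 by norm_num, Real.rpow_add (by norm_num), Real.rpow_one, Real.sqrt_eq_rpow]
    have h4 : (4 : ℝ) ^ (3 / 2 : ℝ) = 8 := by
      rw [show (4 : ℝ) = 2 ^ (2 : ℝ) by norm_num, ← Real.rpow_mul (by norm_num), show (2 : ℝ) * (3 / 2) = ((3 : ℕ) : ℝ) by norm_num,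
        Real.rpow_natCast]
      norm_num
    rw [h3, h4, Real.one_rpow, Real.zero_rpow (by norm_num)] at h
    have h5 : √3 ^ 2 = 3 := Real.sq_sqrt (by norm_num)
    have h6 := Real.sqrt_nonneg 3
    nlinarith
  · intro s
    obtain ⟨R, hR1, hR2⟩ := words s
    rw [hR1]
    have e1 : (R.map Complex.ofRealHom).trace = ((R.trace : ℝ) : ℂ) := by
      simp [Matrix.trace]
    rw [e1]
    have e2 : ‖((s.map (fun b => cond b B1 A0)).prod).trace‖ ≤ R.trace := by
      unfold Matrix.trace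
      refine (norm_sum_le _ _).trans (Finset.sum_le_sum fun k _ => ?_)
      exact hR2 k k
    exact_mod_cast e2

end Pool.Agent.S03900
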