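import Pool.Statements.S03940
import Pool.Agent.H8.Coge.Weak

set_option autoImplicit false
open Filter Topology
open Pool Pool.MP_ae9c87_an

namespace Pool.Agent.S03940

/-- The negation of the preceding statement: For every contractive strongly continuous semigroup T on a complex Hilbert space with cogenerator V = I − 2∫₀^∞ e^{−t}T(t)dt, T(t)x → 0 weakly for all x iff Vⁿx → 0 weakly for all x. -/
theorem result :
    ¬ (∀ (H : Type) [NormedAddCommGroup H] [InnerProductSpace ℂ H] [CompleteSpace H]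
      (T : ℝ → H →L[ℂ] H),
      T 0 = 1 →
      (∀ s t : ℝ, 0 ≤ s → 0 ≤ t → T (s + t) = T s * T t) →
      (∀ x : H, ContinuousOn (fun t : ℝ => T t x) (Set.Ici 0)) →
      (∀ t : ℝ, 0 ≤ t → ‖T t‖ ≤ 1) →
      ((∀ x y : H, Tendsto (fun t : ℝ => inner ℂ (T t x) y) atTop (𝓝 0)) ↔
        (∀ x y : H, Tendsto (fun n : ℕ =>
            inner ℂ ((fun z : H => z - (2 : ℂ) •
              ∫ t in Set.Ioi (0 : ℝ), ((Real.exp (-t) : ℝ) : ℂ) • T t z)^[n] x) y)
            atTop (𝓝 0)))) := by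
  intro h
  obtain ⟨μ, hμ1, hμ2⟩ := H8.Coge.exists_measure
  have h0 := h (MeasureTheory.Lp ℂ 2 (μ : MeasureTheory.Measure H8.Coge.X)) (H8.Coge.TT (μ : MeasureTheory.Measure H8.Coge.X))
    (H8.Coge.TT_zero _) (fun s t _ _ => H8.Coge.TT_add _ s t) (fun x => (H8.Coge.TT_cont _ x).continuousOn)
    (fun t _ => H8.Coge.TT_norm _ t)
  have h1 := h0.1 (H8.Coge.TT_weak _ hμ1) (H8.Coge.JJ _ 1) (H8.Coge.JJ _ 1)
  have hn : Tendsto (fun k : ℕ => 2000000 * 64 ^ k) atTop atTop :=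
    (tendsto_pow_atTop_atTop_of_one_lt (by norm_num : (1 : ℕ) < 64)).const_mul_atTop' (by norm_num)
  have h2 := (h1.comp hn).norm
  rw [norm_zero] at h2
  have h3 := ge_of_tendsto' (b := (0.4 : ℝ)) h2 (fun k => by
    refine (H8.Coge.not_weak (μ : MeasureTheory.Measure H8.Coge.X) hμ2 k).trans (le_of_eq ?_)
    exact congrArg (fun z => ‖(inner ℂ z (H8.Coge.JJ (μ : MeasureTheory.Measure H8.Coge.X) 1) : ℂ)‖)
      (H8.Coge.iter_eq (μ : MeasureTheory.Measure H8.Coge.X) (2000000 * 64 ^ k) (H8.Coge.JJ _ 1)).symm)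
  norm_num at h3

end Pool.Agent.S03940
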