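import Pool.Statements.S03981
import Pool.Agent.H8.Car.Final
-- import your own Pool.Agent.* helpers here

set_option autoImplicit false
open Pool Pool.MP_b47fb1_an

namespace Pool.Agent.S03981

/-- There is C such that for any pairwise anticommuting self-adjoint unitaries c_ij in a C*-algebra and every n, the n×n matrix [c_ij] has C*-norm at most C·√n, with that norm expressed via the Hilbert module Aⁿ. -/
theorem result :
    ∃ C : ℝ, ∀ (A : Type) [CStarAlgebra A] (c : ℕ → ℕ → A),
      (∀ i j, IsSelfAdjoint (c i j)) →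
      (∀ i j, c i j * c i j = 1) →
      (∀ i j k l, (i, j) ≠ (k, l) → c i j * c k l = -(c k l * c i j)) →
      ∀ (n : ℕ) (a b : Fin n → A),
        ‖∑ i : Fin n, ∑ j : Fin n, star (b i) * c (i : ℕ) (j : ℕ) * a j‖
          ≤ C * Real.sqrt (n : ℝ)
            * Real.sqrt ‖∑ j : Fin n, star (a j) * a j‖
            * Real.sqrt ‖∑ i : Fin n, star (b i) * b i‖ := by
  refine ⟨6, fun A _ c h1 h2 h3 n a b => ?_⟩
  let _ := CStarAlgebra.spectralOrder A
  have _ := CStarAlgebra.spectralOrderedRing A
  exact Pool.Agent.H8.Car.main h1 h2 h3 n a b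

end Pool.Agent.S03981
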