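import Pool.Statements.S04150
import Pool.Agent.H9.Shift2

set_option autoImplicit false
open MeasureTheory Filter Topology
open scoped ENNReal
open Pool Pool.MP_c92a3e_an

namespace Pool.Agent.S04150

open Pool.Agent.H9.Shift

noncomputable abbrev E1 := Lp ℝ 1 (Measure.count : Measure ℕ)

lemma ae_imp {f g : ℕ → ℝ} (h : f =ᵐ[(Measure.count : Measure ℕ)] g) : ∀ n, f n = g n := by
  exact Measure.ae_count_iff.mp h

lemma summable_E (f : E1) : Summable fun n => |f n| := by
  have h := L1.integrable_coeFn f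
  rw [integrable_count_iff] at h
  simpa [Real.norm_eq_abs] using h

noncomputable def toL (f : E1) : L1 := ⟨fun n => f n, memL1 (summable_E f)⟩

lemma toL_apply (f : E1) (n : ℕ) : toL f n = f n := rfl

lemma memLp_of (g : L1) : MemLp (fun n => g n) 1 (Measure.count : Measure ℕ) := by
  rw [memLp_one_iff_integrable, integrable_count_iff]
  simpa [Real.norm_eq_abs] using summable_abs g

noncomputable def ofL (g : L1) : E1 := (memLp_of g).toLp _

lemma ofL_apply (g : L1) (n : ℕ) : ofL g n = g n := ae_imp (memLp_of g).coeFn_toLp n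

lemma ext_E {f g : E1} (h : ∀ n, f n = g n) : f = g := by
  apply Lp.ext
  exact Filter.Eventually.of_forall h

lemma norm_E (f : E1) : ‖f‖ = ∑' n, |f n| := by
  rw [L1.norm_eq_integral_norm, integral_countable (L1.integrable_coeFn f).norm]
  simp [Real.norm_eq_abs]

noncomputable def Phi : E1 ≃ₗᵢ[ℝ] L1 where
  toFun := toL
  invFun := ofL
  left_inv f := ext_E fun n => by rw [ofL_apply, toL_apply]
  right_inv g := by ext n; rw [toL_apply, ofL_apply]
  map_add' f g := by
    ext n
    rw [toL_apply, ae_imp (Lp.coeFn_add f g) n]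
    rfl
  map_smul' c f := by
    ext n
    rw [toL_apply, ae_imp (Lp.coeFn_smul c f) n]
    rfl
  norm_map' f := by
    change ‖toL f‖ = ‖f‖
    rw [norm_E, Pool.Agent.H9.Shift.norm_eq]
    rfl

lemma Phi_apply (f : E1) (n : ℕ) : Phi f n = f n := rfl

lemma Phi_symm_apply (g : L1) (n : ℕ) : Phi.symm g n = g n := ofL_apply g n

/-- the transported semigroup -/
noncomputable def T (t : ℝ) : E1 →L[ℝ] E1 :=
  (Phi.symm.toContinuousLinearEquiv : L1 →L[ℝ] E1).comp
    ((P t).comp (Phi.toContinuousLinearEquiv : E1 →L[ℝ] L1))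

lemma T_apply (t : ℝ) (f : E1) : T t f = Phi.symm (P t (Phi f)) := rfl

/-- The negation of the preceding statement: On real L^p of a σ-finite measure, 1≤p≤∞, every strongly continuous semigroup whose operators at t>0 are positive kernel operators and whose Cesàro means converge for every f also has T_t f convergent as t→∞ for every f. -/
theorem result :
    ¬ (∀ (Ω : Type) [MeasurableSpace Ω] (μ : Measure Ω) [SigmaFinite μ] (p : ℝ≥0∞) [Fact (1 ≤ p)]
    (T : ℝ → Lp ℝ p μ →L[ℝ] Lp ℝ p μ),
    T 0 = ContinuousLinearMap.id ℝ (Lp ℝ p μ) →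
    (∀ s t : ℝ, 0 ≤ s → 0 ≤ t → T (s + t) = (T s).comp (T t)) →
    (∀ f : Lp ℝ p μ, ContinuousOn (fun t => T t f) (Set.Ici 0)) →
    (∀ t : ℝ, 0 < t → ∃ k : Ω × Ω → ℝ, Measurable k ∧ (∀ z, 0 ≤ k z) ∧
        ∀ f : Lp ℝ p μ, ∀ᵐ x ∂μ, Integrable (fun y => k (x, y) * f y) μ ∧
          T t f x = ∫ y, k (x, y) * f y ∂μ) →
    (∀ f : Lp ℝ p μ, ∃ g : Lp ℝ p μ,
        Tendsto (fun s : ℝ => s⁻¹ • ∫ t in (0:ℝ)..s, T t f) atTop (𝓝 g)) →
    ∀ f : Lp ℝ p μ, ∃ g : Lp ℝ p μ, Tendsto (fun t : ℝ => T t f) atTop (𝓝 g)) := by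
  intro H
  have key := H ℕ (Measure.count : Measure ℕ) 1 T ?_ ?_ ?_ ?_ ?_
  · apply not_convergent
    intro f
    obtain ⟨g, hg⟩ := key (Phi.symm f)
    refine ⟨Phi g, ?_⟩
    have h2 := (Phi.continuous.tendsto g).comp hg
    refine h2.congr fun t => ?_
    simp [T_apply]
  · ext1 f
    rw [T_apply, P_zero]
    simp
  · intro s t _ _
    ext1 f
    rw [ContinuousLinearMap.comp_apply, T_apply, T_apply, T_apply, P_add]
    simp
  · intro f
    apply Continuous.continuousOn
    have : Continuous fun t => P t (Phi f) := P_cont.clm_apply continuous_const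
    exact Phi.symm.continuous.comp this
  · intro t ht
    refine ⟨fun z => P t (e z.2) z.1, measurable_of_countable _, fun z => P_e_nonneg ht.le _ _,
      fun f => ?_⟩
    refine Filter.Eventually.of_forall fun x => ?_
    have h := hasSum_matrix (P t) (Phi f) x
    have hint : Integrable (fun y => P t (e y) x * f y) (Measure.count : Measure ℕ) := by
      rw [integrable_count_iff]
      exact h.summable.norm
    refine ⟨hint, ?_⟩
    rw [T_apply, Phi_symm_apply, integral_countable hint, ← h.tsum_eq]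
    simp [Phi_apply]
  · intro f
    refine ⟨0, ?_⟩
    have h := mean (Phi f)
    have h2 := (Phi.symm.continuous.tendsto 0).comp h
    rw [map_zero] at h2
    refine h2.congr fun s => ?_
    simp only [Function.comp_apply, map_smul]
    congr 1
    have hi : IntervalIntegrable (fun t => P t (Phi f)) volume 0 s := by
      apply Continuous.intervalIntegrable
      exact P_cont.clm_apply continuous_const
    have := ContinuousLinearMap.intervalIntegral_comp_comm
      (Phi.symm.toContinuousLinearEquiv : L1 →L[ℝ] E1) hi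
    exact this.symm

end Pool.Agent.S04150
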