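import Pool.Statements.S04254
-- import your own Pool.Agent.* helpers here

set_option autoImplicit false
open Filter Topology
open Pool Pool.MP_d4a912_an

namespace Pool.Agent.S04254

open scoped ZeroAtInfty BoundedContinuousFunction

abbrev Y : Type := C₀(ℕ, ℝ)
abbrev H : Type := lp (fun _ : ℕ => ℝ) 2
abbrev A : Type := ℕ ⊕ (ℕ × ℕ × Bool)

/-- smaller endpoint of the edge coded by `k` -/
def lo (k : ℕ) : ℕ := min k.unpair.1 k.unpair.2

/-- the edges coded by `k` and `l` are disjoint -/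
def Dis (k l : ℕ) : Prop := k.unpair.1 ≠ l.unpair.1 ∧ k.unpair.1 ≠ l.unpair.2 ∧
  k.unpair.2 ≠ l.unpair.1 ∧ k.unpair.2 ≠ l.unpair.2

noncomputable def cc : A → ℝ
  | Sum.inl k => 1 / ((lo k : ℝ) + 4)
  | Sum.inr _ => 1 / 4

lemma cc_pos (α : A) : 0 < cc α := by
  rcases α with k | p
  · unfold cc; positivity
  · unfold cc; norm_num

lemma cc_le (α : A) : cc α ≤ 1 / 4 := by
  rcases α with k | p
  · unfold cc
    apply one_div_le_one_div_of_le (by norm_num)
    have : (0:ℝ) ≤ lo k := Nat.cast_nonneg _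
    linarith
  · exact le_rfl

noncomputable def sg (s : Bool) : ℝ := if s then 1 else -1

lemma abs_sg (s : Bool) : |sg s| = 1 := by
  cases s <;> simp [sg]

open Classical in
noncomputable def phi : A → Y → ℝ
  | Sum.inl k => fun x => x k
  | Sum.inr p => fun x => if Dis p.1 p.2.1 then (2 / 3) * (x p.1 + sg p.2.2 * x p.2.1) else 0

lemma phi_add (α : A) (x y : Y) : phi α (x + y) = phi α x + phi α y := by
  rcases α with k | p
  · rfl
  · simp only [phi]
    split_ifs
    · simp only [ZeroAtInftyContinuousMap.add_apply]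
      ring
    · simp

lemma phi_smul (α : A) (c : ℝ) (x : Y) : phi α (c • x) = c * phi α x := by
  rcases α with k | p
  · rfl
  · simp only [phi]
    split_ifs
    · simp only [ZeroAtInftyContinuousMap.smul_apply, smul_eq_mul]
      ring
    · simp

lemma abs_apply_le (x : Y) (n : ℕ) : |x n| ≤ ‖x‖ := by
  have := (x.toBCF).norm_coe_le_norm n
  exact this

lemma abs_phi_le (α : A) (x : Y) : |phi α x| ≤ 4 / 3 * ‖x‖ := by
  have h0 := norm_nonneg x
  rcases α with k | p
  · have := abs_apply_le x k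
    simp only [phi]
    linarith
  · simp only [phi]
    split_ifs
    · have h1 := abs_apply_le x p.1
      have h2 := abs_apply_le x p.2.1
      rw [abs_mul, abs_of_pos (by norm_num : (0:ℝ) < 2 / 3)]
      have h3 : |x p.1 + sg p.2.2 * x p.2.1| ≤ |x p.1| + |x p.2.1| := by
        refine (abs_add_le _ _).trans ?_
        rw [abs_mul, abs_sg, one_mul]
      linarith
    · rw [abs_zero]
      positivity

/-- coordinates of `V α x` -/
noncomputable def v (α : A) (x : Y) : ℕ → ℝ
  | 0 => Real.sqrt (1 - cc α) * phi α x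
  | n + 1 => Real.sqrt (cc α * (1 / 2) ^ (n + 1)) * x n

noncomputable def q (x : Y) : ℝ := ∑' n : ℕ, (1 / 2) ^ (n + 1) * (x n) ^ 2

lemma summable_half : Summable fun n : ℕ => ((1:ℝ) / 2) ^ (n + 1) :=
  (summable_nat_add_iff 1).2 summable_geometric_two

lemma tsum_half : ∑' n : ℕ, ((1:ℝ) / 2) ^ (n + 1) = 1 := by
  have : ∀ n : ℕ, ((1:ℝ) / 2) ^ (n + 1) = (1 / 2) ^ n * (1 / 2) := fun n => pow_succ _ _
  simp_rw [this]
  rw [tsum_mul_right, tsum_geometric_two]
  norm_num

lemma q_term_le (x : Y) {C : ℝ} (hC : ∀ n, |x n| ≤ C) (n : ℕ) :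
    ((1:ℝ) / 2) ^ (n + 1) * (x n) ^ 2 ≤ C ^ 2 * (1 / 2) ^ (n + 1) := by
  have h1 : (x n) ^ 2 ≤ C ^ 2 := by
    rw [← sq_abs (x n)]
    exact pow_le_pow_left₀ (abs_nonneg _) (hC n) 2
  rw [mul_comm]
  gcongr

lemma q_summable (x : Y) : Summable fun n : ℕ => ((1:ℝ) / 2) ^ (n + 1) * (x n) ^ 2 :=
  Summable.of_nonneg_of_le (fun n => by positivity) (q_term_le x (abs_apply_le x))
    (summable_half.mul_left _)

lemma q_le (x : Y) {C : ℝ} (hC : ∀ n, |x n| ≤ C) : q x ≤ C ^ 2 := by
  have h1 : q x ≤ ∑' n : ℕ, C ^ 2 * ((1:ℝ) / 2) ^ (n + 1) :=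
    Summable.tsum_le_tsum (q_term_le x hC) (q_summable x) (summable_half.mul_left _)
  rwa [tsum_mul_left, tsum_half, mul_one] at h1

lemma q_nonneg (x : Y) : 0 ≤ q x := tsum_nonneg fun n => by positivity

lemma v_sq_zero (α : A) (x : Y) : ‖v α x 0‖ ^ (2:ℝ) = (1 - cc α) * (phi α x) ^ 2 := by
  have h1 : 0 ≤ 1 - cc α := by linarith [cc_le α]
  rw [Real.rpow_two, Real.norm_eq_abs, sq_abs]
  simp only [v]
  rw [mul_pow, Real.sq_sqrt h1]

lemma v_sq_succ (α : A) (x : Y) (n : ℕ) :
    ‖v α x (n + 1)‖ ^ (2:ℝ) = cc α * ((1 / 2) ^ (n + 1) * (x n) ^ 2) := by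
  have h1 := cc_pos α
  rw [Real.rpow_two, Real.norm_eq_abs, sq_abs]
  simp only [v]
  rw [mul_pow, Real.sq_sqrt (by positivity), mul_assoc]

lemma v_hasSum (α : A) (x : Y) :
    HasSum (fun n => ‖v α x n‖ ^ (2:ℝ)) ((1 - cc α) * (phi α x) ^ 2 + cc α * q x) := by
  have h1 : HasSum (fun n => ‖v α x (n + 1)‖ ^ (2:ℝ)) (cc α * q x) := by
    simp_rw [v_sq_succ]
    exact (q_summable x).hasSum.mul_left _
  have := (hasSum_nat_add_iff (f := fun n => ‖v α x n‖ ^ (2:ℝ)) 1).1 h1
  rw [Finset.sum_range_one, v_sq_zero] at this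
  rwa [add_comm] at this

lemma v_mem (α : A) (x : Y) : Memℓp (v α x) 2 := by
  apply memℓp_gen
  have : (2:ENNReal).toReal = 2 := by simp
  rw [this]
  exact (v_hasSum α x).summable

noncomputable def V (α : A) (x : Y) : H := ⟨v α x, v_mem α x⟩

lemma V_apply (α : A) (x : Y) (n : ℕ) : (V α x : ℕ → ℝ) n = v α x n := rfl

lemma V_norm_sq (α : A) (x : Y) : ‖V α x‖ ^ 2 = (1 - cc α) * (phi α x) ^ 2 + cc α * q x := by
  have h := lp.norm_rpow_eq_tsum (p := 2) (by simp) (V α x)
  have h2 : (2:ENNReal).toReal = 2 := by simp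
  rw [h2, Real.rpow_two] at h
  rw [h]
  exact (v_hasSum α x).tsum_eq

lemma V_add (α : A) (x y : Y) : V α (x + y) = V α x + V α y := by
  ext n
  rw [lp.coeFn_add, Pi.add_apply]
  simp only [V_apply]
  rcases n with _ | n
  · simp only [v]
    rw [phi_add]
    ring
  · simp only [v, ZeroAtInftyContinuousMap.add_apply]
    ring

lemma V_smul (α : A) (c : ℝ) (x : Y) : V α (c • x) = c • V α x := by
  ext n
  rw [lp.coeFn_smul, Pi.smul_apply]
  simp only [V_apply]
  rcases n with _ | n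
  · simp only [v, smul_eq_mul]
    rw [phi_smul]
    ring
  · simp only [v, ZeroAtInftyContinuousMap.smul_apply, smul_eq_mul]
    ring

lemma V_norm_le (α : A) (x : Y) : ‖V α x‖ ≤ 2 * ‖x‖ := by
  have h := V_norm_sq α x
  have h1 := cc_pos α
  have h2 := cc_le α
  have h3 := abs_phi_le α x
  have h4 := q_le x (abs_apply_le x)
  have h5 : (phi α x) ^ 2 ≤ (4 / 3 * ‖x‖) ^ 2 := by
    rw [← sq_abs]
    exact pow_le_pow_left₀ (abs_nonneg _) h3 2
  have h0 := norm_nonneg x
  apply le_of_sq_le_sq _ (by positivity)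
  rw [h]
  have h6 : (1 - cc α) * (phi α x) ^ 2 ≤ 1 * (4 / 3 * ‖x‖) ^ 2 := by
    apply mul_le_mul (by linarith) h5 (by positivity) (by norm_num)
  have h7 : cc α * q x ≤ 1 / 4 * ‖x‖ ^ 2 := by
    apply mul_le_mul h2 h4 (q_nonneg x) (by norm_num)
  nlinarith [sq_nonneg ‖x‖]

/-- The embedding. -/
noncomputable def T : Y →ₗ[ℝ] (A →ᵇ H) where
  toFun x := BoundedContinuousFunction.ofNormedAddCommGroupDiscrete (fun α => V α x) (2 * ‖x‖)
    (fun α => V_norm_le α x)
  map_add' x y := by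
    ext1 α
    exact V_add α x y
  map_smul' c x := by
    ext1 α
    exact V_smul α c x

lemma T_apply (x : Y) (α : A) : T x α = V α x := rfl

lemma T_injective : Function.Injective T := by
  rw [injective_iff_map_eq_zero]
  intro x hx
  ext n
  have h1 : V (Sum.inl n) x = 0 := by
    rw [← T_apply, hx]
    rfl
  have h2 : v (Sum.inl n) x 0 = 0 := by
    rw [← V_apply, h1]
    rfl
  simp only [v] at h2
  rcases mul_eq_zero.1 h2 with h3 | h3
  · exfalso
    rw [Real.sqrt_eq_zero'] at h3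
    linarith [cc_le (Sum.inl n)]
  · exact h3

/-- The space: `c_0` with the norm induced by `T`. -/
def X : Type := Y

noncomputable instance instNX : NormedAddCommGroup X :=
  @NormedAddCommGroup.induced (Y →ₗ[ℝ] (A →ᵇ H)) Y (A →ᵇ H) _ _ _ _ T T_injective

noncomputable instance instSX : NormedSpace ℝ X :=
  @NormedSpace.induced (Y →ₗ[ℝ] (A →ᵇ H)) ℝ Y (A →ᵇ H) _ _ _ _ _ _ _ T

/-- the underlying `c_0` function -/
def un (x : X) : Y := x

/-- its inverse -/
def mk (x : Y) : X := x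

lemma un_mk (x : Y) : un (mk x) = x := rfl
lemma mk_un (x : X) : mk (un x) = x := rfl

lemma un_add (x y : X) : un (x + y) = un x + un y := rfl
lemma un_sub (x y : X) : un (x - y) = un x - un y := rfl
lemma un_smul (c : ℝ) (x : X) : un (c • x) = c • un x := rfl

lemma norm_def (x : X) : ‖x‖ = ‖T (un x)‖ := rfl

lemma norm_V_le (x : X) (α : A) : ‖V α (un x)‖ ≤ ‖x‖ := (T (un x)).norm_coe_le_norm α

lemma norm_le_of (x : X) {C : ℝ} (hC : 0 ≤ C) (h : ∀ α, ‖V α (un x)‖ ≤ C) : ‖x‖ ≤ C :=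
  (BoundedContinuousFunction.norm_le hC).2 h

lemma exists_V (x : X) {r : ℝ} (hr : r < ‖x‖) (hr0 : 0 ≤ r) : ∃ α, r < ‖V α (un x)‖ := by
  by_contra hcon
  push Not at hcon
  exact absurd (norm_le_of x hr0 hcon) (not_le.2 hr)

lemma sq_phi_le (x : X) (α : A) : (1 - cc α) * (phi α (un x)) ^ 2 ≤ ‖x‖ ^ 2 := by
  have h1 := norm_V_le x α
  have h2 := pow_le_pow_left₀ (norm_nonneg _) h1 2
  rw [V_norm_sq] at h2
  have := mul_nonneg (cc_pos α).le (q_nonneg (un x))
  linarith

lemma sq_apply_le (x : X) (n : ℕ) : (un x n) ^ 2 ≤ 4 / 3 * ‖x‖ ^ 2 := by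
  have h1 := sq_phi_le x (Sum.inl n)
  have h2 := cc_le (Sum.inl n)
  have h3 : phi (Sum.inl n) (un x) = un x n := rfl
  rw [h3] at h1
  nlinarith [sq_nonneg (un x n)]

lemma abs_un_le (x : X) (n : ℕ) : |un x n| ≤ 2 * ‖x‖ := by
  have h1 := sq_apply_le x n
  apply abs_le_of_sq_le_sq _ (by positivity)
  nlinarith [sq_nonneg ‖x‖]

lemma norm_le_Y (x : X) : ‖x‖ ≤ 2 * ‖un x‖ := norm_le_of x (by positivity) fun α => V_norm_le α _

lemma Y_le_norm (x : X) : ‖un x‖ ≤ 2 * ‖x‖ := by
  have : ‖un x‖ = ‖(un x).toBCF‖ := rfl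
  rw [this]
  exact (BoundedContinuousFunction.norm_le (by positivity)).2 fun n => abs_un_le x n

instance : CompleteSpace X := by
  apply Metric.complete_of_cauchySeq_tendsto
  intro u hu
  have h1 : CauchySeq (fun n => un (u n)) := by
    rw [Metric.cauchySeq_iff] at hu ⊢
    intro ε hε
    obtain ⟨N, hN⟩ := hu (ε / 2) (by positivity)
    refine ⟨N, fun m hm n hn => ?_⟩
    have := hN m hm n hn
    rw [dist_eq_norm] at this ⊢
    rw [← un_sub]
    have := Y_le_norm (u m - u n)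
    linarith
  obtain ⟨y, hy⟩ := cauchySeq_tendsto_of_complete h1
  refine ⟨mk y, ?_⟩
  rw [tendsto_iff_norm_sub_tendsto_zero] at hy ⊢
  refine squeeze_zero (fun n => norm_nonneg _) (fun n => norm_le_Y _) ?_
  have := hy.const_mul 2
  rw [mul_zero] at this
  exact this

/-! ### Finitely supported vectors -/

/-- the vector with coordinates `z k`, `k < N` -/
noncomputable def tr (N : ℕ) (z : ℕ → ℝ) : X := mk
  { toFun := fun k => if k < N then z k else 0
    continuous_toFun := continuous_of_discreteTopology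
    zero_at_infty' := by
      rw [cocompact_eq_atTop (α := ℕ)]
      refine tendsto_const_nhds.congr' ?_
      filter_upwards [eventually_ge_atTop N] with k hk
      rw [if_neg (not_lt.2 hk)] }

lemma un_tr (N : ℕ) (z : ℕ → ℝ) (k : ℕ) : un (tr N z) k = if k < N then z k else 0 := rfl

/-- unit vectors -/
noncomputable def ee (k : ℕ) : X := tr (k + 1) (fun j => if j = k then 1 else 0)

lemma un_ee (k j : ℕ) : un (ee k) j = if j = k then 1 else 0 := by
  unfold ee
  rw [un_tr]
  split_ifs with h1 h2 <;> first | rfl | omega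

lemma un_sum (N : ℕ) (z : ℕ → ℝ) (j : ℕ) :
    un (∑ k ∈ Finset.range N, z k • ee k) j = if j < N then z j else 0 := by
  induction N with
  | zero => simp; rfl
  | succ N ih =>
    rw [Finset.sum_range_succ, un_add, ZeroAtInftyContinuousMap.add_apply, ih, un_smul,
      ZeroAtInftyContinuousMap.smul_apply, un_ee, smul_eq_mul]
    rcases lt_trichotomy j N with h | h | h
    · rw [if_pos h, if_neg h.ne, if_pos (by omega)]; ring
    · subst h
      rw [if_neg (lt_irrefl _), if_pos rfl, if_pos (by omega)]; ring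
    · rw [if_neg (by omega), if_neg h.ne', if_neg (by omega)]; ring

lemma tr_eq (N : ℕ) (z : ℕ → ℝ) : tr N z = ∑ k ∈ Finset.range N, z k • ee k := by
  have : un (tr N z) = un (∑ k ∈ Finset.range N, z k • ee k) := by
    ext j
    rw [un_sum, un_tr]
  exact this

lemma f_tr (f : X →L[ℝ] ℝ) (N : ℕ) (z : ℕ → ℝ) :
    f (tr N z) = ∑ k ∈ Finset.range N, z k * f (ee k) := by
  rw [tr_eq, map_sum]
  refine Finset.sum_congr rfl fun k _ => ?_
  rw [map_smul, smul_eq_mul]

lemma norm_tr_le (N : ℕ) (z : ℕ → ℝ) (C : ℝ) (hC : 0 ≤ C) (hz : ∀ k, |z k| ≤ C) :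
    ‖tr N z‖ ≤ 2 * C := by
  refine (norm_le_Y _).trans ?_
  have : ‖un (tr N z)‖ ≤ C := by
    have h2 : ‖un (tr N z)‖ = ‖(un (tr N z)).toBCF‖ := rfl
    rw [h2]
    refine (BoundedContinuousFunction.norm_le hC).2 fun n => ?_
    change |un (tr N z) n| ≤ C
    rw [un_tr]
    split_ifs
    · exact hz n
    · rw [abs_zero]; exact hC
  linarith

lemma summable_f (f : X →L[ℝ] ℝ) : Summable fun k => |f (ee k)| := by
  apply summable_of_sum_range_le (c := 2 * ‖f‖) (fun k => abs_nonneg _)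
  intro N
  set z : ℕ → ℝ := fun k => SignType.sign (f (ee k)) with hz
  have h1 : ∑ k ∈ Finset.range N, |f (ee k)| = f (tr N z) := by
    rw [f_tr]
    refine Finset.sum_congr rfl fun k _ => ?_
    rw [hz]
    exact (sign_mul_self (f (ee k))).symm
  rw [h1]
  have h2 : ‖tr N z‖ ≤ 2 * 1 := norm_tr_le N z 1 zero_le_one (fun k => by
    simp only [hz]
    rcases lt_trichotomy (f (ee k)) 0 with h | h | h
    · rw [sign_neg h]; simp
    · rw [h]; simp
    · rw [sign_pos h]; simp)
  calc f (tr N z) ≤ ‖f (tr N z)‖ := le_abs_self _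
    _ ≤ ‖f‖ * ‖tr N z‖ := f.le_opNorm _
    _ ≤ ‖f‖ * (2 * 1) := by gcongr
    _ = 2 * ‖f‖ := by ring

lemma tendsto_tr (x : X) : Tendsto (fun N => tr N (fun k => un x k)) atTop (𝓝 x) := by
  have h0 : Tendsto (fun k => un x k) atTop (𝓝 0) := by
    have := (un x).zero_at_infty'
    rwa [cocompact_eq_atTop (α := ℕ)] at this
  rw [Metric.tendsto_atTop] at h0 ⊢
  intro ε hε
  obtain ⟨N, hN⟩ := h0 (ε / 4) (by positivity)
  refine ⟨N, fun n hn => ?_⟩
  rw [dist_eq_norm]
  refine lt_of_le_of_lt (norm_le_Y _) ?_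
  have : ‖un (tr n (fun k => un x k) - x)‖ ≤ ε / 4 := by
    have h2 : ∀ y : Y, ‖y‖ = ‖y.toBCF‖ := fun y => rfl
    rw [h2]
    refine (BoundedContinuousFunction.norm_le (by positivity)).2 fun k => ?_
    change |un (tr n (fun k => un x k) - x) k| ≤ ε / 4
    rw [un_sub, ZeroAtInftyContinuousMap.sub_apply, un_tr]
    split_ifs with h
    · rw [sub_self, abs_zero]; positivity
    · have := hN k (by omega)
      rw [Real.dist_eq, sub_zero] at this
      rw [zero_sub, abs_neg]
      exact this.le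
  linarith

lemma f_eq (f : X →L[ℝ] ℝ) (x : X) : f x = ∑' k, un x k * f (ee k) := by
  have h1 : Tendsto (fun N => f (tr N (fun k => un x k))) atTop (𝓝 (f x)) :=
    (f.continuous.tendsto x).comp (tendsto_tr x)
  simp_rw [f_tr] at h1
  have h2 : Summable fun k => un x k * f (ee k) := by
    refine Summable.of_norm_bounded ((summable_f f).mul_left (2 * ‖x‖)) fun k => ?_
    rw [norm_mul]
    exact mul_le_mul_of_nonneg_right (abs_un_le x k) (abs_nonneg _)
  exact tendsto_nhds_unique h1 h2.hasSum.tendsto_sum_nat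

/-- if all coordinates of a bounded sequence converge then it is weakly Cauchy -/
lemma weakly_cauchy (x : ℕ → X) (hx : ∀ n, ‖x n‖ = 1)
    (hc : ∀ k, CauchySeq fun n => un (x n) k) (f : X →L[ℝ] ℝ) : CauchySeq fun n => f (x n) := by
  choose y hy using fun k => cauchySeq_tendsto_of_complete (hc k)
  have : Tendsto (fun n => ∑' k, un (x n) k * f (ee k)) atTop (𝓝 (∑' k, y k * f (ee k))) := by
    refine tendsto_tsum_of_dominated_convergence ((summable_f f).mul_left 2) ?_ ?_
    · intro k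
      exact (hy k).mul_const _
    · refine Filter.Eventually.of_forall fun n k => ?_
      rw [norm_mul]
      have := abs_un_le (x n) k
      rw [hx n, mul_one] at this
      exact mul_le_mul_of_nonneg_right this (abs_nonneg _)
  simp_rw [← f_eq] at this
  exact this.cauchySeq


/-! ### The norm is WCR -/

/-- Key step: far apart at coordinate `g`, both large at a common edge far out. -/
lemma key (x : ℕ → X) (hx : ∀ n, ‖x n‖ = 1)
    (h2 : Tendsto (fun p : ℕ × ℕ => ‖x p.1 + x p.2‖) atTop (𝓝 2)) (g : ℕ) {η : ℝ} (hη : 0 < η)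
    (M : ℕ) (hM : 96 ≤ M) :
    ∃ N : ℕ, ∀ n m : ℕ, N ≤ n → N ≤ m → η ≤ |un (x n) g - un (x m) g| →
      ∃ k : ℕ, M ≤ lo k ∧ 94 / 100 ≤ |un (x n) k| ∧ 94 / 100 ≤ |un (x m) k| := by
  have hw : (0:ℝ) < (1 / 2) ^ (g + 1) := by positivity
  set w : ℝ := (1 / 2) ^ (g + 1) with hwdef
  have hM0 : (0:ℝ) < (M:ℝ) + 4 := by positivity
  set ε : ℝ := min (1 / 100) (w * η ^ 2 / (8 * ((M:ℝ) + 4))) with hε
  have hε0 : 0 < ε := by
    rw [hε]
    apply lt_min (by norm_num)
    positivity
  have hε1 : ε ≤ 1 / 100 := min_le_left _ _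
  have hε2 : ε ≤ w * η ^ 2 / (8 * ((M:ℝ) + 4)) := min_le_right _ _
  have hev : ∀ᶠ p : ℕ × ℕ in atTop, 2 - ε < ‖x p.1 + x p.2‖ :=
    h2.eventually_const_lt (by linarith)
  obtain ⟨N, hN⟩ := eventually_atTop.1 hev
  refine ⟨max N.1 N.2, fun n m hn hm hηnm => ?_⟩
  have hnm := hN (n, m) ⟨(le_max_left _ _).trans hn, (le_max_right _ _).trans hm⟩
  simp only at hnm
  obtain ⟨α, hα⟩ := exists_V _ hnm (by linarith)
  have hVn : ‖V α (un (x n))‖ ≤ 1 := (norm_V_le _ α).trans (hx n).le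
  have hVm : ‖V α (un (x m))‖ ≤ 1 := (norm_V_le _ α).trans (hx m).le
  rw [un_add, V_add] at hα
  have hpar := parallelogram_law_with_norm ℝ (V α (un (x n))) (V α (un (x m)))
  have hsub : V α (un (x n)) - V α (un (x m)) = V α (un (x n - x m)) := by
    rw [un_sub, sub_eq_add_neg, sub_eq_add_neg, V_add]
    congr 1
    have h3 := V_smul α (-1) (un (x m))
    have h4 : (-1 : ℝ) • un (x m) = - un (x m) := by
      ext j
      simp
    rw [h4, neg_one_smul] at h3
    exact h3.symm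
  rw [hsub] at hpar
  have hd : ‖V α (un (x n - x m))‖ ^ 2 ≤ 4 * ε := by
    nlinarith [norm_nonneg (V α (un (x n))), norm_nonneg (V α (un (x m)))]
  have hcc := cc_pos α
  have hq : cc α * (w * η ^ 2) ≤ 4 * ε := by
    have h3 : cc α * ((1 / 2) ^ (g + 1) * (un (x n - x m) g) ^ 2) ≤ ‖V α (un (x n - x m))‖ ^ 2 := by
      rw [V_norm_sq]
      have h4 : (1 / 2) ^ (g + 1) * (un (x n - x m) g) ^ 2 ≤ q (un (x n - x m)) :=
        (q_summable (un (x n - x m))).le_tsum g (fun j _ => by positivity)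
      have h5 : 0 ≤ (1 - cc α) * (phi α (un (x n - x m))) ^ 2 :=
        mul_nonneg (by linarith [cc_le α]) (sq_nonneg _)
      have h6 := mul_le_mul_of_nonneg_left h4 hcc.le
      linarith
    have h7 : η ^ 2 ≤ (un (x n - x m) g) ^ 2 := by
      rw [un_sub, ZeroAtInftyContinuousMap.sub_apply, ← sq_abs (un (x n) g - un (x m) g)]
      exact pow_le_pow_left₀ hη.le hηnm 2
    have h8 : cc α * (w * η ^ 2) ≤ cc α * (w * (un (x n - x m) g) ^ 2) := by gcongr
    linarith
  have hcsmall : cc α < 1 / ((M:ℝ) + 4) := by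
    have h9 : 4 * ε ≤ w * η ^ 2 / (2 * ((M:ℝ) + 4)) := by
      have : w * η ^ 2 / (2 * ((M:ℝ) + 4)) = 4 * (w * η ^ 2 / (8 * ((M:ℝ) + 4))) := by
        field_simp
        norm_num
      rw [this]
      linarith
    have hwη : 0 < w * η ^ 2 := by positivity
    have h10 : cc α * (w * η ^ 2) ≤ 1 / (2 * ((M:ℝ) + 4)) * (w * η ^ 2) := by
      refine (hq.trans h9).trans (le_of_eq ?_)
      ring
    have h11 := le_of_mul_le_mul_right h10 hwη
    refine lt_of_le_of_lt h11 ?_
    apply one_div_lt_one_div_of_lt hM0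
    linarith
  have hM96 : (96:ℝ) ≤ M := by exact_mod_cast hM
  have hM100 : 1 / ((M:ℝ) + 4) ≤ 1 / 100 := one_div_le_one_div_of_le (by norm_num) (by linarith)
  rcases α with k | p
  · refine ⟨k, ?_, ?_⟩
    · have h12 : cc (Sum.inl k) = 1 / ((lo k : ℝ) + 4) := rfl
      rw [h12] at hcsmall
      have h13 := (one_div_lt_one_div (by positivity) hM0).1 hcsmall
      have h14 : (M:ℝ) < lo k := by linarith
      exact_mod_cast h14.le
    · -- largeness
      have big : ∀ y : X, ‖y‖ = 1 → 1 - ε ≤ ‖V (Sum.inl k) (un y)‖ → 94 / 100 ≤ |un y k| := by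
        intro y hy hVy
        have h15 := V_norm_sq (Sum.inl k) (un y)
        have h16 : phi (Sum.inl k) (un y) = un y k := rfl
        rw [h16] at h15
        have h17 : q (un y) ≤ 4 / 3 := by
          have : ∀ n, |un y n| ≤ Real.sqrt (4 / 3) := by
            intro n
            apply Real.abs_le_sqrt
            have := sq_apply_le y n
            rw [hy] at this
            linarith
          have := q_le (un y) this
          rwa [Real.sq_sqrt (by norm_num)] at this
        have h18 : (99 / 100 : ℝ) ^ 2 ≤ ‖V (Sum.inl k) (un y)‖ ^ 2 :=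
          pow_le_pow_left₀ (by norm_num) (by linarith) 2
        have hc0 := cc_pos (Sum.inl k)
        have hc1 : cc (Sum.inl k) ≤ 1 / 100 := hcsmall.le.trans hM100
        have h19 : cc (Sum.inl k) * q (un y) ≤ 1 / 100 * (4 / 3) :=
          mul_le_mul hc1 h17 (q_nonneg _) (by norm_num)
        have h20 : (94 / 100 : ℝ) ^ 2 ≤ (un y k) ^ 2 := by
          nlinarith [sq_nonneg (un y k)]
        rw [← sq_abs (un y k)] at h20
        exact (pow_le_pow_iff_left₀ (by norm_num) (abs_nonneg _) (by norm_num)).1 h20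
      have h21 := norm_add_le (V (Sum.inl k) (un (x n))) (V (Sum.inl k) (un (x m)))
      exact ⟨big (x n) (hx n) (by linarith), big (x m) (hx m) (by linarith)⟩
  · exfalso
    have h12 : cc (Sum.inr p) = 1 / 4 := rfl
    rw [h12] at hcsmall
    linarith


/-- Two edges on which a unit vector is large are not disjoint. -/
lemma not_dis (y : X) (hy : ‖y‖ = 1) (k l : ℕ) (hk : 94 / 100 ≤ |un y k|)
    (hl : 94 / 100 ≤ |un y l|) : ¬ Dis k l := by
  intro hd
  -- choose the sign
  obtain ⟨s, hs⟩ : ∃ s : Bool, |un y k + sg s * un y l| = |un y k| + |un y l| := by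
    rcases le_total 0 (un y k) with h1 | h1 <;> rcases le_total 0 (un y l) with h2 | h2
    · refine ⟨true, ?_⟩
      simp only [sg, if_true]
      rw [abs_of_nonneg h1, abs_of_nonneg h2, abs_of_nonneg (by linarith)]
      ring
    · refine ⟨false, ?_⟩
      simp only [sg, Bool.false_eq_true, if_false]
      rw [abs_of_nonneg h1, abs_of_nonpos h2, abs_of_nonneg (by linarith)]
      ring
    · refine ⟨false, ?_⟩
      simp only [sg, Bool.false_eq_true, if_false]
      rw [abs_of_nonpos h1, abs_of_nonneg h2, abs_of_nonpos (by linarith)]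
      ring
    · refine ⟨true, ?_⟩
      simp only [sg, if_true]
      rw [abs_of_nonpos h1, abs_of_nonpos h2, abs_of_nonpos (by linarith)]
      ring
  have h1 := sq_phi_le y (Sum.inr (k, l, s))
  have h2 : phi (Sum.inr (k, l, s)) (un y) = (2 / 3) * (un y k + sg s * un y l) := by
    simp only [phi]
    rw [if_pos hd]
  have h3 : cc (Sum.inr (k, l, s)) = 1 / 4 := rfl
  rw [h2, h3, hy, ← sq_abs, abs_mul, hs, abs_of_pos (by norm_num : (0:ℝ) < 2 / 3)] at h1
  nlinarith

theorem WCR (x : ℕ → X) (hx : ∀ n, ‖x n‖ = 1)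
    (h2 : Tendsto (fun p : ℕ × ℕ => ‖x p.1 + x p.2‖) atTop (𝓝 2)) (f : X →L[ℝ] ℝ) :
    CauchySeq fun n => f (x n) := by
  apply weakly_cauchy x hx
  intro g
  by_contra hnc
  rw [Metric.cauchySeq_iff] at hnc
  push Not at hnc
  obtain ⟨ε, hε, hfar⟩ := hnc
  set η := ε / 2 with hη
  have hη0 : 0 < η := by positivity
  -- every index has arbitrarily late far partners
  have hpart : ∀ p N : ℕ, ∃ n, N ≤ n ∧ η ≤ |un (x p) g - un (x n) g| := by
    intro p N
    obtain ⟨m, hm, n, hn, hmn⟩ := hfar N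
    rw [Real.dist_eq] at hmn
    by_contra hcon
    push Not at hcon
    have h3 := hcon m hm
    have h4 := hcon n hn
    have h5 : |un (x m) g - un (x n) g| ≤ |un (x p) g - un (x m) g| + |un (x p) g - un (x n) g| := by
      have : un (x m) g - un (x n) g = (un (x p) g - un (x n) g) - (un (x p) g - un (x m) g) := by
        ring
      rw [this]
      refine (abs_sub _ _).trans ?_
      rw [add_comm]
    linarith
  obtain ⟨N0, hN0⟩ := key x hx h2 g hη0 96 le_rfl
  -- the finite set where x N0 is large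
  have hfin : {k : ℕ | 94 / 100 ≤ |un (x N0) k|}.Finite := by
    have h0 : Tendsto (fun k => un (x N0) k) atTop (𝓝 0) := by
      have := (un (x N0)).zero_at_infty'
      rwa [cocompact_eq_atTop (α := ℕ)] at this
    rw [Metric.tendsto_atTop] at h0
    obtain ⟨B, hB⟩ := h0 (94 / 100) (by norm_num)
    apply (Set.finite_lt_nat B).subset
    intro k hk
    by_contra hcon
    have hcon' : B ≤ k := not_lt.1 hcon
    have h3 := hB k hcon'
    rw [Real.dist_eq, sub_zero] at h3
    have h4 : 94 / 100 ≤ |un (x N0) k| := hk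
    linarith
  -- a common large edge for infinitely many n
  have hinf : ∃ k : ℕ, 94 / 100 ≤ |un (x N0) k| ∧ ∀ N : ℕ, ∃ n, N ≤ n ∧ 94 / 100 ≤ |un (x n) k| := by
    by_contra hcon
    push Not at hcon
    -- for each k in the finite set choose a bound
    have hb : ∀ k ∈ hfin.toFinset, ∃ N : ℕ, ∀ n, N ≤ n → |un (x n) k| < 94 / 100 := by
      intro k hk
      rw [Set.Finite.mem_toFinset] at hk
      exact hcon k hk
    choose! Nk hNk using hb
    obtain ⟨n, hn, hfarn⟩ := hpart N0 (max N0 (hfin.toFinset.sup Nk))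
    obtain ⟨k, -, hk1, hk2⟩ := hN0 N0 n le_rfl ((le_max_left _ _).trans hn) hfarn
    have hkm : k ∈ hfin.toFinset := by
      rw [Set.Finite.mem_toFinset]
      exact hk1
    have h3 := hNk k hkm n ((Finset.le_sup hkm).trans ((le_max_right _ _).trans hn))
    linarith
  obtain ⟨k0, hk0, hk0inf⟩ := hinf
  set M1 := max 96 (max k0.unpair.1 k0.unpair.2 + 1) with hM1
  obtain ⟨N1, hN1⟩ := key x hx h2 g hη0 M1 (le_max_left _ _)
  obtain ⟨n1, hn1, hk0n1⟩ := hk0inf N1
  obtain ⟨m, hm, hfarm⟩ := hpart n1 N1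
  obtain ⟨k1, hlo, hk1, -⟩ := hN1 n1 m hn1 hm hfarm
  apply not_dis (x n1) (hx n1) k0 k1 hk0n1 hk1
  have h3 : max k0.unpair.1 k0.unpair.2 + 1 ≤ lo k1 := (le_max_right _ _).trans hlo
  unfold lo at h3
  unfold Dis
  omega

/-! ### The bidual norm is not W*CR -/

/-- the element `z_n` of `ℓ_∞` -/
noncomputable def zz (n k : ℕ) : ℝ :=
  if k = 0 then (-1) ^ n / 2 else if k.unpair.1 = n + 1 ∨ k.unpair.2 = n + 1 then 1 else 0

lemma unpair_zero : (0:ℕ).unpair = (0, 0) := Nat.unpair_zero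

lemma abs_zz_le (n k : ℕ) : |zz n k| ≤ 1 := by
  unfold zz
  split_ifs
  · rw [abs_div, abs_pow, abs_neg, abs_one, one_pow]; norm_num
  · simp
  · simp

lemma abs_zz_dis (n k l : ℕ) (h : Dis k l) : |zz n k| + |zz n l| ≤ 3 / 2 := by
  have key : ∀ j : ℕ, |zz n j| ≤ 1 := abs_zz_le n
  have h1 := key k
  have h2 := key l
  by_cases hk : k = 0
  · subst hk
    have : |zz n 0| = 1 / 2 := by
      unfold zz
      rw [if_pos rfl, abs_div, abs_pow, abs_neg, abs_one, one_pow]
      norm_num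
    linarith
  by_cases hl : l = 0
  · subst hl
    have : |zz n 0| = 1 / 2 := by
      unfold zz
      rw [if_pos rfl, abs_div, abs_pow, abs_neg, abs_one, one_pow]
      norm_num
    linarith
  by_cases hk1 : k.unpair.1 = n + 1 ∨ k.unpair.2 = n + 1
  · have hl1 : ¬ (l.unpair.1 = n + 1 ∨ l.unpair.2 = n + 1) := by
      unfold Dis at h
      omega
    have : zz n l = 0 := by
      unfold zz
      rw [if_neg hl, if_neg hl1]
    rw [this, abs_zero]
    linarith
  · have : zz n k = 0 := by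
      unfold zz
      rw [if_neg hk, if_neg hk1]
    rw [this, abs_zero]
    linarith

lemma norm_tr_zz (N n : ℕ) : ‖tr N (zz n)‖ ≤ 1 := by
  have hc : ∀ k, |un (tr N (zz n)) k| ≤ |zz n k| := by
    intro k
    rw [un_tr]
    split_ifs
    · exact le_rfl
    · rw [abs_zero]; exact abs_nonneg _
  apply norm_le_of _ zero_le_one
  intro α
  apply le_of_sq_le_sq _ zero_le_one
  rw [V_norm_sq, one_pow]
  have h1 : q (un (tr N (zz n))) ≤ 1 := by
    have := q_le (un (tr N (zz n))) (C := 1) (fun k => (hc k).trans (abs_zz_le n k))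
    rwa [one_pow] at this
  have h2 : (phi α (un (tr N (zz n)))) ^ 2 ≤ 1 := by
    rw [← sq_abs]
    apply pow_le_one₀ (abs_nonneg _)
    rcases α with k | p
    · exact (hc k).trans (abs_zz_le n k)
    · simp only [phi]
      split_ifs with hd
      · rw [abs_mul, abs_of_pos (by norm_num : (0:ℝ) < 2 / 3)]
        have h3 : |un (tr N (zz n)) p.1 + sg p.2.2 * un (tr N (zz n)) p.2.1| ≤
            |un (tr N (zz n)) p.1| + |un (tr N (zz n)) p.2.1| := by
          refine (abs_add_le _ _).trans ?_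
          rw [abs_mul, abs_sg, one_mul]
        have h4 := hc p.1
        have h5 := hc p.2.1
        have h6 := abs_zz_dis n p.1 p.2.1 hd
        linarith
      · simp
  have h3 := cc_pos α
  have h4 := cc_le α
  have h5 : (1 - cc α) * (phi α (un (tr N (zz n)))) ^ 2 ≤ (1 - cc α) * 1 :=
    mul_le_mul_of_nonneg_left h2 (by linarith)
  have h6 : cc α * q (un (tr N (zz n))) ≤ cc α * 1 := mul_le_mul_of_nonneg_left h1 h3.le
  linarith

lemma summable_zz (n : ℕ) (f : X →L[ℝ] ℝ) : Summable fun k => zz n k * f (ee k) := by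
  refine Summable.of_norm_bounded (summable_f f) fun k => ?_
  rw [norm_mul]
  exact mul_le_of_le_one_left (abs_nonneg _) (abs_zz_le n k)

/-- `z_n` as an element of the bidual -/
noncomputable def FF (n : ℕ) : (X →L[ℝ] ℝ) →L[ℝ] ℝ :=
  LinearMap.mkContinuous
    { toFun := fun f => ∑' k, zz n k * f (ee k)
      map_add' := by
        intro f g
        rw [← (summable_zz n f).tsum_add (summable_zz n g)]
        refine tsum_congr fun k => ?_
        rw [add_apply]
        ring
      map_smul' := by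
        intro c f
        rw [RingHom.id_apply, smul_eq_mul, ← tsum_mul_left]
        refine tsum_congr fun k => ?_
        rw [smul_apply, smul_eq_mul]
        ring } 1 (by
    intro f
    simp only [LinearMap.coe_mk, AddHom.coe_mk, one_mul]
    have h1 : Tendsto (fun N => f (tr N (zz n))) atTop (𝓝 (∑' k, zz n k * f (ee k))) := by
      simp_rw [f_tr]
      exact (summable_zz n f).hasSum.tendsto_sum_nat
    refine le_of_tendsto h1.norm (Filter.Eventually.of_forall fun N => ?_)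
    refine (f.le_opNorm _).trans ?_
    exact mul_le_of_le_one_right (norm_nonneg _) (norm_tr_zz N n))

lemma FF_apply (n : ℕ) (f : X →L[ℝ] ℝ) : FF n f = ∑' k, zz n k * f (ee k) := rfl

lemma FF_norm_le (n : ℕ) : ‖FF n‖ ≤ 1 := LinearMap.mkContinuous_norm_le _ zero_le_one _

/-- coordinate functionals -/
noncomputable def ev (k : ℕ) : X →L[ℝ] ℝ :=
  LinearMap.mkContinuous
    { toFun := fun x => un x k
      map_add' := fun x y => rfl
      map_smul' := fun c x => rfl } ((Real.sqrt (1 - cc (Sum.inl k)))⁻¹) (by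
    intro x
    have hc := cc_le (Sum.inl k)
    have h1 := sq_phi_le x (Sum.inl k)
    have h2 : phi (Sum.inl k) (un x) = un x k := rfl
    rw [h2] at h1
    have h3 : 0 < Real.sqrt (1 - cc (Sum.inl k)) := Real.sqrt_pos.2 (by linarith)
    change |un x k| ≤ _
    rw [inv_mul_eq_div, le_div_iff₀ h3]
    apply le_of_sq_le_sq _ (norm_nonneg _)
    rw [mul_pow, sq_abs, Real.sq_sqrt (by linarith)]
    linarith)

lemma ev_apply (k : ℕ) (x : X) : ev k x = un x k := rfl

lemma ev_norm_le (k : ℕ) : ‖ev k‖ ≤ (Real.sqrt (1 - cc (Sum.inl k)))⁻¹ :=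
  LinearMap.mkContinuous_norm_le _ (by positivity) _

lemma FF_ev (n k : ℕ) : FF n (ev k) = zz n k := by
  rw [FF_apply, tsum_eq_single k]
  · rw [ev_apply, un_ee, if_pos rfl, mul_one]
  · intro j hj
    rw [ev_apply, un_ee, if_neg (Ne.symm hj), mul_zero]

lemma zz_pair (n m : ℕ) : zz n (Nat.pair (n + 1) (m + 1)) = 1 ∧
    zz m (Nat.pair (n + 1) (m + 1)) = 1 := by
  have h0 : Nat.pair (n + 1) (m + 1) ≠ 0 := by
    intro h
    have := congrArg Nat.unpair h
    rw [Nat.unpair_pair, Nat.unpair_zero] at this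
    have := congrArg Prod.fst this
    simp at this
  unfold zz
  rw [if_neg h0, if_neg h0, Nat.unpair_pair]
  simp

/-- normalised sequence -/
noncomputable def GG (n : ℕ) : (X →L[ℝ] ℝ) →L[ℝ] ℝ := ‖FF n‖⁻¹ • FF n

lemma FF_pos (n : ℕ) : 0 < ‖FF n‖ := by
  have h1 := FF_ev n (Nat.pair (n + 1) (n + 1))
  rw [(zz_pair n n).1] at h1
  have h2 := (FF n).le_opNorm (ev (Nat.pair (n + 1) (n + 1)))
  rw [h1, norm_one] at h2
  rcases (ContinuousLinearMap.opNorm_nonneg (FF n)).lt_or_eq with h | h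
  · exact h
  · rw [← h, zero_mul] at h2
    linarith

lemma GG_norm (n : ℕ) : ‖GG n‖ = 1 := by
  unfold GG
  rw [@norm_smul ℝ _ _ _ _ (@NormedSpace.toNormSMulClass ℝ ((X →L[ℝ] ℝ) →L[ℝ] ℝ) _ _ _),
    norm_inv, Real.norm_of_nonneg (FF_pos n).le, inv_mul_cancel₀ (FF_pos n).ne']

lemma GG_add_lower (n m : ℕ) :
    2 * Real.sqrt (1 - 1 / ((min n m : ℕ) + 5)) ≤ ‖GG n + GG m‖ := by
  set k := Nat.pair (n + 1) (m + 1) with hk
  have h1 : (GG n + GG m) (ev k) = ‖FF n‖⁻¹ + ‖FF m‖⁻¹ := by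
    unfold GG
    rw [add_apply, smul_apply,
      smul_apply, FF_ev, FF_ev, hk, (zz_pair n m).1, (zz_pair n m).2]
    simp
  have h2 : 2 ≤ ‖FF n‖⁻¹ + ‖FF m‖⁻¹ := by
    have e1 := one_le_inv_iff₀.2 ⟨FF_pos n, FF_norm_le n⟩
    have e2 := one_le_inv_iff₀.2 ⟨FF_pos m, FF_norm_le m⟩
    linarith
  have h3 : cc (Sum.inl k) = 1 / ((min n m : ℕ) + 5) := by
    have : lo k = min n m + 1 := by
      unfold lo
      rw [hk, Nat.unpair_pair]
      simp only
      omega
    have h4 : cc (Sum.inl k) = 1 / ((lo k : ℝ) + 4) := rfl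
    rw [h4, this]
    push_cast
    ring
  have hs : 0 < Real.sqrt (1 - cc (Sum.inl k)) := Real.sqrt_pos.2 (by linarith [cc_le (Sum.inl k)])
  have h5 : 2 ≤ ‖GG n + GG m‖ * (Real.sqrt (1 - cc (Sum.inl k)))⁻¹ := by
    calc (2:ℝ) ≤ (GG n + GG m) (ev k) := by rw [h1]; exact h2
      _ ≤ ‖(GG n + GG m) (ev k)‖ := le_abs_self _
      _ ≤ ‖GG n + GG m‖ * ‖ev k‖ := ContinuousLinearMap.le_opNorm _ _
      _ ≤ _ := by
        gcongr
        exact ev_norm_le k
  rw [← h3]
  rw [← div_eq_mul_inv, le_div_iff₀ hs] at h5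
  exact h5

lemma GG_tendsto : Tendsto (fun p : ℕ × ℕ => ‖GG p.1 + GG p.2‖) atTop (𝓝 2) := by
  have h1 : Tendsto (fun p : ℕ × ℕ => min p.1 p.2) atTop atTop := by
    rw [tendsto_atTop_atTop]
    intro b
    exact ⟨(b, b), fun a ha => le_min ha.1 ha.2⟩
  have h2 : Tendsto (fun p : ℕ × ℕ => 2 * Real.sqrt (1 - 1 / ((min p.1 p.2 : ℕ) + 5))) atTop
      (𝓝 (2 * Real.sqrt (1 - 0))) := by
    have h3 : Tendsto (fun n : ℕ => 1 / ((n:ℝ) + 5)) atTop (𝓝 0) := by
      have := tendsto_const_div_atTop_nhds_zero_nat (1:ℝ)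
      have h4 := (tendsto_add_atTop_iff_nat (f := fun n : ℕ => (1:ℝ) / n) 5).2 this
      refine h4.congr fun n => ?_
      push_cast
      rfl
    exact (((h3.comp h1).const_sub 1).sqrt).const_mul 2
  rw [sub_zero, Real.sqrt_one, mul_one] at h2
  refine tendsto_of_tendsto_of_tendsto_of_le_of_le h2 tendsto_const_nhds
    (fun p => GG_add_lower p.1 p.2) (fun p => ?_)
  refine (ContinuousLinearMap.opNorm_add_le _ _).trans ?_
  rw [GG_norm, GG_norm]
  norm_num

lemma GG_not_cauchy : ¬ CauchySeq (fun n => GG n (ev 0)) := by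
  intro hc
  rw [Metric.cauchySeq_iff] at hc
  obtain ⟨N, hN⟩ := hc 1 one_pos
  have h1 := hN (2 * N) (by omega) (2 * N + 1) (by omega)
  have h2 : ∀ n, GG n (ev 0) = ‖FF n‖⁻¹ * ((-1) ^ n / 2) := by
    intro n
    unfold GG
    rw [smul_apply, FF_ev, smul_eq_mul]
    unfold zz
    rw [if_pos rfl]
  rw [h2, h2, Real.dist_eq, pow_succ, pow_mul] at h1
  norm_num at h1
  have e1 := one_le_inv_iff₀.2 ⟨FF_pos (2 * N), FF_norm_le (2 * N)⟩
  have e2 := one_le_inv_iff₀.2 ⟨FF_pos (2 * N + 1), FF_norm_le (2 * N + 1)⟩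
  have h3 := (abs_lt.1 h1).2
  linarith

/-- The negation of the preceding statement: For every real Banach space X: unit-sphere sequences with norm of x_n+x_m tending to 2 are always weakly Cauchy in X iff the same holds in the bidual X** with w*-Cauchy (tested on X*) in place of weakly Cauchy. -/
theorem result :
    ¬ (∀ (X : Type) [NormedAddCommGroup X] [NormedSpace ℝ X] [CompleteSpace X],
      (∀ x : ℕ → X, (∀ n, ‖x n‖ = 1) →
        Tendsto (fun p : ℕ × ℕ => ‖x p.1 + x p.2‖) atTop (𝓝 2) →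
        ∀ f : X →L[ℝ] ℝ, CauchySeq (fun n => f (x n))) ↔
      (∀ F : ℕ → ((X →L[ℝ] ℝ) →L[ℝ] ℝ), (∀ n, ‖F n‖ = 1) →
        Tendsto (fun p : ℕ × ℕ => ‖F p.1 + F p.2‖) atTop (𝓝 2) →
        ∀ f : X →L[ℝ] ℝ, CauchySeq (fun n => F n f))) := by
  intro hall
  exact GG_not_cauchy ((hall X).1 WCR GG GG_norm GG_tendsto (ev 0))

end Pool.Agent.S04254
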