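import Pool.Statements.S04258
-- import your own Pool.Agent.* helpers here

set_option autoImplicit false
open Pool Pool.MP_d4c9a2_an

namespace Pool.Agent.S04258

open Filter Topology

/-! ### The degree sequences -/

/-- degrees of the three components of `f^k` -/
def D : ℕ → ℕ × ℕ × ℕ
  | 0 => (1, 1, 1)
  | k + 1 => (3 * (D k).1 + 2 * (D k).2.1, (D k).2.1 + 2 * (D k).2.2,
      4 * (D k).1 + 3 * (D k).2.2)

def a (k : ℕ) : ℕ := (D k).1
def b (k : ℕ) : ℕ := (D k).2.1
def e (k : ℕ) : ℕ := (D k).2.2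
def c (k : ℕ) : ℕ := min (a k) (b k)

lemma a_succ (k : ℕ) : a (k + 1) = 3 * a k + 2 * b k := rfl
lemma b_succ (k : ℕ) : b (k + 1) = b k + 2 * e k := rfl
lemma e_succ (k : ℕ) : e (k + 1) = 4 * a k + 3 * e k := rfl
lemma a_zero : a 0 = 1 := rfl
lemma b_zero : b 0 = 1 := rfl
lemma e_zero : e 0 = 1 := rfl

lemma bounds (k : ℕ) : 1 ≤ a k ∧ 1 ≤ b k ∧ a k ≤ e k ∧ b k ≤ e k := by
  induction k with
  | zero => simp [a_zero, b_zero, e_zero]
  | succ k ih =>
    obtain ⟨h1, h2, h3, h4⟩ := ih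
    rw [a_succ, b_succ, e_succ]
    omega

lemma c_pos (k : ℕ) : 1 ≤ c k := by
  obtain ⟨h1, h2, _, _⟩ := bounds k
  exact le_min h1 h2

/-- `1 + 2i` -/
noncomputable def lam : ℂ := ⟨1, 2⟩

lemma lam_pow (k : ℕ) : (lam ^ k).im = (a k : ℝ) - b k ∧ (lam ^ k).re = (a k : ℝ) + b k - e k := by
  induction k with
  | zero => simp [a_zero, b_zero, e_zero]
  | succ k ih =>
    obtain ⟨h1, h2⟩ := ih
    rw [pow_succ, Complex.mul_im, Complex.mul_re, h1, h2, a_succ, b_succ, e_succ]
    simp only [lam]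
    push_cast
    constructor <;> ring

lemma mod5 (k : ℕ) : ((a (k + 1) : ZMod 5) - b (k + 1) = 2 ^ (k + 1)) ∧
    ((a (k + 1) : ZMod 5) + b (k + 1) - e (k + 1) = - 2 * 2 ^ (k + 1)) := by
  induction k with
  | zero =>
    rw [a_succ, b_succ, e_succ, a_zero, b_zero, e_zero]
    decide
  | succ k ih =>
    obtain ⟨h1, h2⟩ := ih
    rw [a_succ (k + 1), b_succ (k + 1), e_succ (k + 1)]
    push_cast
    have h5 : (5 : ZMod 5) = 0 := by decide
    constructor
    · have : (3 * (a (k + 1) : ZMod 5) + 2 * b (k + 1) - (b (k + 1) + 2 * e (k + 1))) =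
        ((a (k + 1) : ZMod 5) - b (k + 1)) + 2 * ((a (k + 1) : ZMod 5) + b (k + 1) - e (k + 1)) := by
        ring
      rw [this, h1, h2]
      linear_combination (- 2 ^ (k + 1)) * h5
    · have : (3 * (a (k + 1) : ZMod 5) + 2 * b (k + 1) + (b (k + 1) + 2 * e (k + 1)) -
        (4 * a (k + 1) + 3 * e (k + 1))) =
        -2 * ((a (k + 1) : ZMod 5) - b (k + 1)) + ((a (k + 1) : ZMod 5) + b (k + 1) - e (k + 1)) := by
        ring
      rw [this, h1, h2]
      ring

lemma two_ne : (2 : ZMod 5) ≠ 0 := by decide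

lemma two_pow_ne (j : ℕ) : (2 : ZMod 5) ^ j ≠ 0 := by
  have : Fact (Nat.Prime 5) := ⟨by norm_num⟩
  exact pow_ne_zero _ two_ne

lemma ne_mod5 {k : ℕ} (hk : 1 ≤ k) : (a k : ZMod 5) ≠ b k := by
  obtain ⟨j, rfl⟩ : ∃ j, k = j + 1 := ⟨k - 1, by omega⟩
  intro h
  have h1 := (mod5 j).1
  rw [h, sub_self] at h1
  exact two_pow_ne (j + 1) h1.symm

lemma ne_ab {k : ℕ} (hk : 1 ≤ k) : a k ≠ b k := fun h => ne_mod5 hk (by rw [h])

/-! ### No positive solution of an elliptic recursion -/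

lemma no_pos (E : ℕ → ℝ) (T P : ℝ) (hTP : T ^ 2 < 4 * P)
    (hrec : ∀ j, E (j + 2) = T * E (j + 1) - P * E j) (hpos : ∀ j, 0 < E j) : False := by
  have hP : 0 < P := by nlinarith [sq_nonneg T]
  set s := Real.sqrt P with hs
  have hs0 : 0 < s := Real.sqrt_pos.2 hP
  have hss : s ^ 2 = P := Real.sq_sqrt hP.le
  have hT : T < 2 * s := by nlinarith
  set κ := 2 * s - T with hκ
  have hκ0 : 0 < κ := by rw [hκ]; linarith
  have hr : ∀ j, E (j + 2) / E (j + 1) ≤ E (j + 1) / E j - κ := by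
    intro j
    have h1 := hpos j
    have h2 := hpos (j + 1)
    rw [div_le_iff₀ h2, hrec, sub_mul, div_mul_eq_mul_div, le_sub_iff_add_le, le_div_iff₀ h1, hκ]
    have h3 : (T * E (j + 1) - P * E j + (2 * s - T) * E (j + 1)) * E j =
        E (j + 1) * E (j + 1) - (E (j + 1) - s * E j) ^ 2 + (s ^ 2 - P) * E j ^ 2 := by ring
    rw [h3, hss, sub_self, zero_mul, add_zero]
    linarith [sq_nonneg (E (j + 1) - s * E j)]
  have hr2 : ∀ j : ℕ, E (j + 1) / E j ≤ E 1 / E 0 - j * κ := by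
    intro j
    induction j with
    | zero => simp
    | succ j ih =>
      have := hr j
      push_cast
      linarith
  obtain ⟨n, hn⟩ := exists_nat_gt (E 1 / E 0 / κ)
  have h1 := hr2 n
  have h2 : 0 < E (n + 1) / E n := div_pos (hpos _) (hpos _)
  rw [div_lt_iff₀ hκ0] at hn
  linarith

/-- the sign of `a - b` is not constant along an arithmetic progression -/
lemma sign_changes (N q : ℕ) (hq : 1 ≤ q) :
    ¬ (∀ j : ℕ, a (N + j * q) < b (N + j * q)) ∧ ¬ (∀ j : ℕ, b (N + j * q) < a (N + j * q)) := by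
  set w := lam ^ q with hw
  have him : w.im ≠ 0 := by
    rw [hw, (lam_pow q).1]
    intro h
    apply ne_ab hq
    have : (a q : ℝ) = b q := by linarith
    exact_mod_cast this
  have hTP : (2 * w.re) ^ 2 < 4 * Complex.normSq w := by
    rw [Complex.normSq_apply]
    have : 0 < w.im ^ 2 := by positivity
    nlinarith
  have hE : ∀ j : ℕ, (a (N + j * q) : ℝ) - b (N + j * q) = (lam ^ N * w ^ j).im := by
    intro j
    rw [← (lam_pow _).1, hw, ← pow_mul, ← pow_add, mul_comm q j]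
  have hrec : ∀ j : ℕ, (lam ^ N * w ^ (j + 2)).im =
      2 * w.re * (lam ^ N * w ^ (j + 1)).im - Complex.normSq w * (lam ^ N * w ^ j).im := by
    intro j
    have h1 : w ^ 2 = ((2 * w.re : ℝ) : ℂ) * w - ((Complex.normSq w : ℝ) : ℂ) := by
      apply Complex.ext
      · rw [pow_two, Complex.mul_re, Complex.sub_re, Complex.re_ofReal_mul, Complex.ofReal_re,
          Complex.normSq_apply]
        ring
      · rw [pow_two, Complex.mul_im, Complex.sub_im, Complex.im_ofReal_mul, Complex.ofReal_im]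
        ring
    have h2 : lam ^ N * w ^ (j + 2) = ((2 * w.re : ℝ) : ℂ) * (lam ^ N * w ^ (j + 1)) -
        ((Complex.normSq w : ℝ) : ℂ) * (lam ^ N * w ^ j) := by
      rw [pow_add, h1, pow_succ]
      ring
    rw [h2, Complex.sub_im, Complex.im_ofReal_mul, Complex.im_ofReal_mul]
  constructor
  · intro h
    refine no_pos (fun j => -(lam ^ N * w ^ j).im) _ _ hTP (fun j => ?_) (fun j => ?_)
    · rw [hrec j]
      ring
    · rw [← hE j]
      have : (a (N + j * q) : ℝ) < b (N + j * q) := by exact_mod_cast h j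
      linarith
  · intro h
    refine no_pos (fun j => (lam ^ N * w ^ j).im) _ _ hTP hrec (fun j => ?_)
    rw [← hE j]
    have : (b (N + j * q) : ℝ) < a (N + j * q) := by exact_mod_cast h j
    linarith

/-! ### The minimum satisfies no integer linear recursion -/

lemma no_recursion (d : ℕ) (co : Fin d → ℤ) (K : ℕ)
    (h : ∀ k : ℕ, K ≤ k → (c (k + d) : ℤ) = ∑ i : Fin d, co i * (c (k + (i : ℕ)) : ℤ)) : False := by
  rcases Nat.eq_zero_or_pos d with hd | hd
  · subst hd
    have h1 := h K le_rfl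
    simp at h1
    have := c_pos K
    omega
  -- state
  set s : ℕ → (ZMod 5 × ZMod 5 × ZMod 5) × (Fin d → ZMod 5) := fun k =>
    (((a k : ZMod 5), (b k : ZMod 5), (e k : ZMod 5)), fun i => (c (k + (i : ℕ)) : ZMod 5)) with hs
  have hstep : ∀ k k' : ℕ, K ≤ k → K ≤ k' → s k = s k' → s (k + 1) = s (k' + 1) := by
    intro k k' hk hk' hss
    simp only [hs, Prod.mk.injEq] at hss
    obtain ⟨⟨h1, h2, h3⟩, h4⟩ := hss
    have h4' : ∀ i : ℕ, i < d → (c (k + i) : ZMod 5) = c (k' + i) := by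
      intro i hi
      exact congrFun h4 ⟨i, hi⟩
    have h5 : (c (k + d) : ZMod 5) = c (k' + d) := by
      have e1 := congrArg (Int.cast : ℤ → ZMod 5) (h k hk)
      have e2 := congrArg (Int.cast : ℤ → ZMod 5) (h k' hk')
      push_cast at e1 e2
      rw [e1, e2]
      refine Finset.sum_congr rfl fun i _ => ?_
      rw [h4' i i.2]
    simp only [hs, Prod.mk.injEq]
    refine ⟨⟨?_, ?_, ?_⟩, ?_⟩
    · rw [a_succ, a_succ]
      push_cast
      rw [h1, h2]
    · rw [b_succ, b_succ]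
      push_cast
      rw [h2, h3]
    · rw [e_succ, e_succ]
      push_cast
      rw [h1, h3]
    · funext i
      have hi := i.2
      rcases Nat.lt_or_ge ((i : ℕ) + 1) d with hlt | hge
      · have := h4' ((i : ℕ) + 1) hlt
        rw [show k + 1 + (i : ℕ) = k + ((i : ℕ) + 1) by ring,
          show k' + 1 + (i : ℕ) = k' + ((i : ℕ) + 1) by ring]
        exact this
      · have hid : (i : ℕ) + 1 = d := by omega
        rw [show k + 1 + (i : ℕ) = k + ((i : ℕ) + 1) by ring,
          show k' + 1 + (i : ℕ) = k' + ((i : ℕ) + 1) by ring, hid]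
        exact h5
  -- pigeonhole
  obtain ⟨i, j, hij, hsij⟩ := Finite.exists_ne_map_eq_of_infinite (fun n : ℕ => s (K + 1 + n))
  wlog hlt : i < j generalizing i j
  · exact this j i (Ne.symm hij) hsij.symm (by omega)
  set N := K + 1 + i with hN
  set q := j - i with hq
  have hq1 : 1 ≤ q := by omega
  have hNq : s N = s (N + q) := by
    have : N + q = K + 1 + j := by omega
    rw [this]
    exact hsij
  have hper : ∀ m : ℕ, s (N + m) = s (N + q + m) := by
    intro m
    induction m with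
    | zero => exact hNq
    | succ m ih =>
      exact hstep (N + m) (N + q + m) (by omega) (by omega) ih
  have hAP : ∀ m : ℕ, s (N + m * q) = s N := by
    intro m
    induction m with
    | zero => simp
    | succ m ih =>
      have := hper (m * q)
      rw [show N + (m + 1) * q = N + q + m * q by ring, ← this, ih]
  -- extract
  have hdata : ∀ m : ℕ, (a (N + m * q) : ZMod 5) = a N ∧ (c (N + m * q) : ZMod 5) = c N := by
    intro m
    have h1 := hAP m
    simp only [hs, Prod.mk.injEq] at h1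
    obtain ⟨⟨h2, _, _⟩, h3⟩ := h1
    refine ⟨h2, ?_⟩
    have := congrFun h3 ⟨0, hd⟩
    simpa using this
  have hN1 : ∀ m : ℕ, 1 ≤ N + m * q := by
    intro m
    omega
  rcases lt_or_gt_of_ne (ne_ab (hN1 0)) with hab | hab
  · -- a < b always
    apply (sign_changes N q hq1).1
    intro m
    by_contra hcon
    push Not at hcon
    have hlt2 : b (N + m * q) < a (N + m * q) := lt_of_le_of_ne hcon (ne_ab (hN1 m)).symm
    have c1 : c (N + m * q) = b (N + m * q) := min_eq_right hlt2.le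
    simp only [zero_mul, add_zero] at hab
    have c2 : c N = a N := min_eq_left hab.le
    obtain ⟨e1, e2⟩ := hdata m
    rw [c1, c2, ← e1] at e2
    exact ne_mod5 (hN1 m) e2.symm
  · apply (sign_changes N q hq1).2
    intro m
    by_contra hcon
    push Not at hcon
    have hlt2 : a (N + m * q) < b (N + m * q) := lt_of_le_of_ne hcon (ne_ab (hN1 m))
    have c1 : c (N + m * q) = a (N + m * q) := min_eq_left hlt2.le
    simp only [zero_mul, add_zero] at hab
    have c2 : c N = b N := min_eq_right hab.le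
    obtain ⟨e1, e2⟩ := hdata m
    rw [c1, c2, e1] at e2
    have := ne_mod5 (hN1 0)
    simp only [zero_mul, add_zero] at this
    exact this e2

/-! ### The monomial map -/

/-- `f(z) = (z₀³z₁², z₁z₂², z₀⁴z₂³)` -/
noncomputable def f (z : Fin 3 → ℂ) : Fin 3 → ℂ :=
  ![z 0 ^ 3 * z 1 ^ 2, z 1 * z 2 ^ 2, z 0 ^ 4 * z 2 ^ 3]

/-- `g` vanishes to order at least `n` at `0`. -/
def Van (g : (Fin 3 → ℂ) → ℂ) (n : ℕ) : Prop :=
  ContDiff ℂ ⊤ g ∧ ∀ m : ℕ, m < n → iteratedFDeriv ℂ m g 0 = 0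

lemma Van.mul {g h : (Fin 3 → ℂ) → ℂ} {m n : ℕ} (hg : Van g m) (hh : Van h n) :
    Van (fun z => g z * h z) (m + n) := by
  refine ⟨hg.1.mul hh.1, fun k hk => ?_⟩
  rw [← norm_le_zero_iff]
  refine (norm_iteratedFDeriv_mul_le hg.1 hh.1 0 (n := k) le_top).trans (le_of_eq ?_)
  apply Finset.sum_eq_zero
  intro i hi
  rw [Finset.mem_range] at hi
  rcases Nat.lt_or_ge i m with h1 | h1
  · rw [hg.2 i h1, norm_zero, mul_zero, zero_mul]
  · rw [hh.2 (k - i) (by omega), norm_zero, mul_zero]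

lemma Van.pow {g : (Fin 3 → ℂ) → ℂ} {m : ℕ} (hg : Van g m) (n : ℕ) :
    Van (fun z => g z ^ n) (n * m) := by
  induction n with
  | zero =>
    refine ⟨by simpa using contDiff_const, fun k hk => by omega⟩
  | succ n ih =>
    have := ih.mul hg
    rw [show (n + 1) * m = n * m + m by ring]
    simpa only [pow_succ] using this

lemma van_coord (i : Fin 3) : Van (fun z => z i) 1 := by
  refine ⟨contDiff_apply ℂ ℂ i, fun k hk => ?_⟩
  have : k = 0 := by omega
  subst this
  ext v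
  simp

lemma f0 (z : Fin 3 → ℂ) : f z 0 = z 0 ^ 3 * z 1 ^ 2 := rfl
lemma f1 (z : Fin 3 → ℂ) : f z 1 = z 1 * z 2 ^ 2 := rfl
lemma f2 (z : Fin 3 → ℂ) : f z 2 = z 0 ^ 4 * z 2 ^ 3 := rfl

lemma van_iter (k : ℕ) : Van (fun z => (f^[k] z) 0) (a k) ∧ Van (fun z => (f^[k] z) 1) (b k) ∧
    Van (fun z => (f^[k] z) 2) (e k) := by
  induction k with
  | zero => exact ⟨van_coord 0, van_coord 1, van_coord 2⟩
  | succ k ih =>
    obtain ⟨h1, h2, h3⟩ := ih
    simp only [Function.iterate_succ_apply', f0, f1, f2]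
    rw [a_succ, b_succ, e_succ]
    exact ⟨(h1.pow 3).mul (h2.pow 2), h2.mul (h3.pow 2), (h1.pow 4).mul (h3.pow 3)⟩

lemma diag_iter (k : ℕ) (t : ℂ) : (f^[k] (fun _ => t)) 0 = t ^ a k ∧
    (f^[k] (fun _ => t)) 1 = t ^ b k ∧ (f^[k] (fun _ => t)) 2 = t ^ e k := by
  induction k with
  | zero => simp [a_zero, b_zero, e_zero]
  | succ k ih =>
    obtain ⟨h1, h2, h3⟩ := ih
    simp only [Function.iterate_succ_apply', f0, f1, f2]
    rw [a_succ, b_succ, e_succ, h1, h2, h3]
    refine ⟨?_, ?_, ?_⟩ <;> ring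

lemma contDiff_iter (k : ℕ) : ContDiff ℂ ⊤ (f^[k]) := by
  rw [contDiff_pi]
  intro i
  obtain ⟨h1, h2, h3⟩ := van_iter k
  fin_cases i
  · exact h1.1
  · exact h2.1
  · exact h3.1

/-- restricting to the diagonal -/
lemma diag_deriv (g : (Fin 3 → ℂ) → ℂ) (hg : ContDiff ℂ ⊤ g) (m : ℕ)
    (h : iteratedFDeriv ℂ m g 0 = 0) (hd : ∀ t : ℂ, g (fun _ => t) = t ^ m) : False := by
  set L : ℂ →L[ℂ] (Fin 3 → ℂ) := ContinuousLinearMap.pi fun _ => ContinuousLinearMap.id ℂ ℂ with hL
  have h1 := ContinuousLinearMap.iteratedFDeriv_comp_right L hg (0 : ℂ) (i := m) le_top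
  rw [map_zero, h] at h1
  have h2 : (g ∘ L) = fun t : ℂ => t ^ m := by
    funext t
    exact hd t
  rw [h2] at h1
  have h3 : iteratedDeriv m (fun t : ℂ => t ^ m) 0 = 0 := by
    rw [iteratedDeriv_eq_iteratedFDeriv, h1]
    simp
  rw [iteratedDeriv_fun_pow_zero, if_pos rfl] at h3
  exact (Nat.cast_ne_zero.2 (Nat.factorial_ne_zero m)) h3

lemma order_iter (k : ℕ) : sInf {m : ℕ | iteratedFDeriv ℂ m (f^[k]) 0 ≠ 0} = c k := by
  obtain ⟨v0, v1, v2⟩ := van_iter k
  obtain ⟨-, -, hae, hbe⟩ := bounds k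
  have hcomp : ∀ (m : ℕ) (i : Fin 3), iteratedFDeriv ℂ m (fun z => (f^[k] z) i) 0 =
      (ContinuousLinearMap.proj (R := ℂ) (φ := fun _ : Fin 3 => ℂ) i).compContinuousMultilinearMap
        (iteratedFDeriv ℂ m (f^[k]) 0) := by
    intro m i
    exact ContinuousLinearMap.iteratedFDeriv_comp_left
      (ContinuousLinearMap.proj (R := ℂ) (φ := fun _ : Fin 3 => ℂ) i)
      (contDiff_iter k).contDiffAt (i := m) le_top
  have hlow : ∀ m : ℕ, m < c k → iteratedFDeriv ℂ m (f^[k]) 0 = 0 := by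
    intro m hm
    have hma : m < a k := lt_of_lt_of_le hm (min_le_left _ _)
    have hmb : m < b k := lt_of_lt_of_le hm (min_le_right _ _)
    have hme : m < e k := lt_of_lt_of_le hma hae
    ext v i
    have h1 := congrArg (fun M : ContinuousMultilinearMap ℂ (fun _ : Fin m => (Fin 3 → ℂ)) ℂ => M v)
      (hcomp m i)
    have h2 : iteratedFDeriv ℂ m (fun z => (f^[k] z) i) 0 = 0 := by
      fin_cases i
      · exact v0.2 m hma
      · exact v1.2 m hmb
      · exact v2.2 m hme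
    simp only [h2] at h1
    exact h1.symm
  have hc : iteratedFDeriv ℂ (c k) (f^[k]) 0 ≠ 0 := by
    intro h0
    rcases le_total (a k) (b k) with hab | hab
    · have hck : c k = a k := min_eq_left hab
      have h1 := hcomp (c k) 0
      rw [h0] at h1
      apply diag_deriv (fun z => (f^[k] z) 0) v0.1 (c k)
      · rw [h1]
        ext v
        simp
      · intro t
        rw [hck]
        exact (diag_iter k t).1
    · have hck : c k = b k := min_eq_right hab
      have h1 := hcomp (c k) 1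
      rw [h0] at h1
      apply diag_deriv (fun z => (f^[k] z) 1) v1.1 (c k)
      · rw [h1]
        ext v
        simp
      · intro t
        rw [hck]
        exact (diag_iter k t).2.1
  apply le_antisymm
  · exact Nat.sInf_le hc
  · apply le_csInf ⟨c k, hc⟩
    intro m hm
    by_contra hcon
    push Not at hcon
    exact hm (hlow m hcon)

lemma hasFDerivAt_f (z : Fin 3 → ℂ) (t : ℂ) (hz : z = fun _ => t) :
    HasFDerivAt f (ContinuousLinearMap.pi ![
      (3 * t ^ 4) • (ContinuousLinearMap.proj (R := ℂ) (φ := fun _ : Fin 3 => ℂ) 0) +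
        (2 * t ^ 4) • (ContinuousLinearMap.proj (R := ℂ) (φ := fun _ : Fin 3 => ℂ) 1),
      (t ^ 2) • (ContinuousLinearMap.proj (R := ℂ) (φ := fun _ : Fin 3 => ℂ) 1) +
        (2 * t ^ 2) • (ContinuousLinearMap.proj (R := ℂ) (φ := fun _ : Fin 3 => ℂ) 2),
      (4 * t ^ 6) • (ContinuousLinearMap.proj (R := ℂ) (φ := fun _ : Fin 3 => ℂ) 0) +
        (3 * t ^ 6) • (ContinuousLinearMap.proj (R := ℂ) (φ := fun _ : Fin 3 => ℂ) 2)]) z := by
  subst hz
  rw [hasFDerivAt_pi']
  have p : ∀ i : Fin 3, HasFDerivAt (fun z : Fin 3 → ℂ => z i)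
      (ContinuousLinearMap.proj (R := ℂ) (φ := fun _ : Fin 3 => ℂ) i) (fun _ => t) :=
    fun i => hasFDerivAt_apply i _
  intro i
  fin_cases i
  · have := ((p 0).pow 3).mul ((p 1).pow 2)
    refine this.congr_fderiv ?_
    ext v
    simp
    ring
  · have := (p 1).mul ((p 2).pow 2)
    refine this.congr_fderiv ?_
    ext v
    simp
    ring
  · have := ((p 0).pow 4).mul ((p 2).pow 3)
    refine this.congr_fderiv ?_
    ext v
    simp
    ring

lemma det_f (t : ℂ) : (fderiv ℂ f (fun _ => t)).det = 25 * t ^ 12 := by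
  rw [(hasFDerivAt_f (fun _ => t) t rfl).fderiv]
  have h : ((ContinuousLinearMap.pi ![
      (3 * t ^ 4) • (ContinuousLinearMap.proj (R := ℂ) (φ := fun _ : Fin 3 => ℂ) 0) +
        (2 * t ^ 4) • (ContinuousLinearMap.proj (R := ℂ) (φ := fun _ : Fin 3 => ℂ) 1),
      (t ^ 2) • (ContinuousLinearMap.proj (R := ℂ) (φ := fun _ : Fin 3 => ℂ) 1) +
        (2 * t ^ 2) • (ContinuousLinearMap.proj (R := ℂ) (φ := fun _ : Fin 3 => ℂ) 2),
      (4 * t ^ 6) • (ContinuousLinearMap.proj (R := ℂ) (φ := fun _ : Fin 3 => ℂ) 0) +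
        (3 * t ^ 6) • (ContinuousLinearMap.proj (R := ℂ) (φ := fun _ : Fin 3 => ℂ) 2)] :
          (Fin 3 → ℂ) →L[ℂ] (Fin 3 → ℂ)) : (Fin 3 → ℂ) →ₗ[ℂ] (Fin 3 → ℂ)) =
      Matrix.toLin' !![3 * t ^ 4, 2 * t ^ 4, 0; 0, t ^ 2, 2 * t ^ 2; 4 * t ^ 6, 0, 3 * t ^ 6] := by
    apply LinearMap.ext
    intro v
    funext i
    rw [Matrix.toLin'_apply]
    fin_cases i <;> simp [Matrix.mulVec, dotProduct, Fin.sum_univ_three]
  rw [ContinuousLinearMap.det, h, LinearMap.det_toLin', Matrix.det_fin_three]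
  simp
  ring

/-- The negation of the preceding statement: For every holomorphic germ f of ℂⁿ fixing 0 that is non-invertible and dominant, the orders of vanishing c(f^k) of its iterates at 0 eventually satisfy a linear recursion with integer coefficients. -/
theorem result :
    ¬ (∀ (n : ℕ) (f : (Fin n → ℂ) → (Fin n → ℂ)),
      AnalyticAt ℂ f 0 → f 0 = 0 →
      (fderiv ℂ f 0).det = 0 →
      (∀ ε : ℝ, 0 < ε → ∃ z : Fin n → ℂ, ‖z‖ < ε ∧ (fderiv ℂ f z).det ≠ 0) →
      ∃ (d : ℕ) (a : Fin d → ℤ) (K : ℕ), ∀ k : ℕ, K ≤ k →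
        ((sInf {m : ℕ | iteratedFDeriv ℂ m (f^[k + d]) 0 ≠ 0} : ℕ) : ℤ) =
          ∑ i : Fin d, a i *
            ((sInf {m : ℕ | iteratedFDeriv ℂ m (f^[k + (i : ℕ)]) 0 ≠ 0} : ℕ) : ℤ)) := by
  intro hall
  have hcd : ContDiff ℂ ⊤ f := by simpa using contDiff_iter 1
  obtain ⟨d, co, K, hrec⟩ := hall 3 f hcd.contDiffAt.analyticAt (by
    funext i
    fin_cases i <;> simp [f]) (by
    have := det_f 0
    rw [show (fun _ : Fin 3 => (0:ℂ)) = 0 from rfl] at this
    rw [this]
    simp) (by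
    intro ε hε
    refine ⟨fun _ => ((ε / 2 : ℝ) : ℂ), ?_, ?_⟩
    · rw [pi_norm_const, Complex.norm_real, Real.norm_eq_abs, abs_of_pos (by linarith)]
      linarith
    · rw [det_f]
      have : ((ε / 2 : ℝ) : ℂ) ≠ 0 := by
        rw [Complex.ofReal_ne_zero]
        linarith
      exact mul_ne_zero (by norm_num) (pow_ne_zero _ this))
  simp only [order_iter] at hrec
  exact no_recursion d co K hrec

end Pool.Agent.S04258
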