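import Pool.Statements.S04260
-- import your own Pool.Agent.* helpers here

set_option autoImplicit false
open Pool Pool.MP_d50981_an

namespace Pool.Agent.S04260

open Filter Topology Set

/-- the unit interval -/
abbrev I : Type := unitInterval

/-- the curve `t ↦ x_t` in `C(I × I)`, `x_t(u,h) = (h - |t-u|)^+`. -/
noncomputable def x : C(I, C(I × I, ℝ)) :=
  ContinuousMap.curry ⟨fun p : I × (I × I) => max 0 ((p.2.2 : ℝ) - |(p.1 : ℝ) - (p.2.1 : ℝ)|),
    by fun_prop⟩

lemma x_apply (t : I) (u h : I) : x t (u, h) = max 0 ((h : ℝ) - |(t : ℝ) - (u : ℝ)|) := rfl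

lemma norm_x_le (t : I) : ‖x t‖ ≤ 1 := by
  rw [ContinuousMap.norm_le _ zero_le_one]
  rintro ⟨u, h⟩
  rw [x_apply, Real.norm_eq_abs, abs_of_nonneg (le_max_left _ _)]
  apply max_le zero_le_one
  have h1 : (h : ℝ) ≤ 1 := h.2.2
  have h2 := abs_nonneg ((t : ℝ) - (u : ℝ))
  linarith

variable (D : Set I)

lemma summable_coeff (a : lp (fun _ : D => ℝ) 1) : Summable fun d => ‖a d‖ := by
  have := (lp.memℓp a).summable (by simp)
  simpa using this

lemma summable_x (a : lp (fun _ : D => ℝ) 1) : Summable fun d : D => a d • x (d : I) := by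
  refine Summable.of_norm_bounded (summable_coeff D a) fun d => ?_
  rw [norm_smul]
  exact mul_le_of_le_one_right (norm_nonneg _) (norm_x_le _)

/-- The operator. -/
noncomputable def U : lp (fun _ : D => ℝ) 1 →L[ℝ] C(I × I, ℝ) :=
  LinearMap.mkContinuous
    { toFun := fun a => ∑' d : D, a d • x (d : I)
      map_add' := by
        intro a b
        rw [← (summable_x D a).tsum_add (summable_x D b)]
        refine tsum_congr fun d => ?_
        rw [lp.coeFn_add, Pi.add_apply, add_smul]
      map_smul' := by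
        intro c a
        rw [RingHom.id_apply, ← (summable_x D a).tsum_const_smul c]
        refine tsum_congr fun d => ?_
        rw [lp.coeFn_smul, Pi.smul_apply, smul_eq_mul, mul_smul] } 1 (by
    intro a
    simp only [LinearMap.coe_mk, AddHom.coe_mk, one_mul]
    have h1 : ‖a‖ = ∑' d, ‖a d‖ := by
      have := lp.norm_eq_tsum_rpow (p := 1) (by simp) a
      simpa using this
    rw [h1]
    refine tsum_of_norm_bounded (summable_coeff D a).hasSum fun d => ?_
    rw [norm_smul]
    exact mul_le_of_le_one_right (norm_nonneg _) (norm_x_le _))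

lemma U_apply (a : lp (fun _ : D => ℝ) 1) : U D a = ∑' d : D, a d • x (d : I) := rfl

lemma mem_range_of_mem {t : I} (ht : t ∈ D) : x t ∈ range (U D) := by
  classical
  refine ⟨lp.single 1 (⟨t, ht⟩ : D) (1 : ℝ), ?_⟩
  rw [U_apply, tsum_eq_single (⟨t, ht⟩ : D)]
  · simp
  · intro d hd
    rw [lp.single_apply_ne _ _ _ hd, zero_smul]

lemma mem_of_mem_range {t : I} (ht : x t ∈ range (U D)) : t ∈ D := by
  by_contra hcon
  obtain ⟨a, ha⟩ := ht
  rw [U_apply] at ha
  -- evaluate at (t, h)
  have hev : ∀ h : I, ∑' d : D, a d * max 0 ((h : ℝ) - |((d : I) : ℝ) - (t : ℝ)|) = h := by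
    intro h
    have h1 := congrArg (fun f : C(I × I, ℝ) => f (t, h)) ha
    simp only at h1
    rw [x_apply, sub_self, abs_zero, sub_zero, max_eq_right h.2.1] at h1
    have h2 := (summable_x D a).hasSum
    have h3 : HasSum (fun d : D => (a d • x (d : I)) (t, h))
        ((∑' d : D, a d • x (d : I)) (t, h)) :=
      h2.mapL (ContinuousMap.evalCLM ℝ (t, h))
    rw [h1] at h3
    exact h3.tsum_eq
  -- dominated convergence as h = 1/(n+1) -> 0
  set hn : ℕ → I := fun n => ⟨1 / ((n : ℝ) + 1), by positivity, by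
    rw [div_le_one (by positivity)]
    have : (0:ℝ) ≤ n := Nat.cast_nonneg n
    linarith⟩ with hhn
  have hone : ∀ n : ℕ, ∑' d : D, a d * (((n : ℝ) + 1) *
      max 0 ((hn n : ℝ) - |((d : I) : ℝ) - (t : ℝ)|)) = 1 := by
    intro n
    have h1 := hev (hn n)
    have h2 : ∑' d : D, a d * (((n : ℝ) + 1) *
      max 0 ((hn n : ℝ) - |((d : I) : ℝ) - (t : ℝ)|)) = ((n : ℝ) + 1) *
        ∑' d : D, a d * max 0 ((hn n : ℝ) - |((d : I) : ℝ) - (t : ℝ)|) := by
      rw [← tsum_mul_left]
      refine tsum_congr fun d => ?_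
      ring
    rw [h2, h1]
    simp only [hhn]
    have : ((n:ℝ) + 1) ≠ 0 := by positivity
    field_simp
  have hlim : Tendsto (fun n : ℕ => ∑' d : D, a d * (((n : ℝ) + 1) *
      max 0 ((hn n : ℝ) - |((d : I) : ℝ) - (t : ℝ)|))) atTop (𝓝 (∑' _ : D, (0:ℝ))) := by
    refine tendsto_tsum_of_dominated_convergence (summable_coeff D a) ?_ ?_
    · intro d
      have hd : 0 < |((d : I) : ℝ) - (t : ℝ)| := by
        rw [abs_pos, sub_ne_zero]
        intro h
        apply hcon
        have : (d : I) = t := Subtype.ext h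
        rw [← this]
        exact d.2
      have h0 : Tendsto (fun n : ℕ => 1 / ((n:ℝ) + 1)) atTop (𝓝 0) :=
        tendsto_one_div_add_atTop_nhds_zero_nat
      refine Tendsto.congr' ?_ tendsto_const_nhds
      filter_upwards [h0.eventually_lt_const hd] with n hnlt
      have : max 0 ((hn n : ℝ) - |((d : I) : ℝ) - (t : ℝ)|) = 0 := by
        apply max_eq_left
        simp only [hhn]
        linarith
      rw [this, mul_zero, mul_zero]
    · refine Filter.Eventually.of_forall fun n d => ?_
      rw [norm_mul]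
      refine mul_le_of_le_one_right (norm_nonneg _) ?_
      rw [Real.norm_eq_abs, abs_of_nonneg (by positivity)]
      have h1 : max 0 ((hn n : ℝ) - |((d : I) : ℝ) - (t : ℝ)|) ≤ 1 / ((n:ℝ) + 1) := by
        apply max_le (by positivity)
        have h2 := abs_nonneg (((d : I) : ℝ) - (t : ℝ))
        simp only [hhn]
        linarith
      calc ((n : ℝ) + 1) * max 0 ((hn n : ℝ) - |((d : I) : ℝ) - (t : ℝ)|)
          ≤ ((n : ℝ) + 1) * (1 / ((n:ℝ) + 1)) := by gcongr
        _ = 1 := by
          have : ((n:ℝ) + 1) ≠ 0 := by positivity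
          field_simp
  simp only [hone, tsum_zero] at hlim
  exact one_ne_zero (tendsto_nhds_unique tendsto_const_nhds hlim)

lemma exists_nonmeasurable : ∃ D : Set I, ¬ MeasurableSet D := by
  by_contra hcon
  push Not at hcon
  have hborel : (inferInstance : MeasurableSpace I) =
      MeasurableSpace.generateFrom (MeasurableSpace.countableGeneratingSet I) :=
    (MeasurableSpace.generateFrom_countableGeneratingSet).symm
  have h1 := MeasurableSpace.cardinal_measurableSet_le_continuum
    (s := MeasurableSpace.countableGeneratingSet I)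
    ((MeasurableSpace.countable_countableGeneratingSet (α := I)).le_aleph0.trans
      Cardinal.aleph0_le_continuum)
  rw [← hborel] at h1
  have h2 : Cardinal.mk (Set I) ≤ Cardinal.continuum := by
    refine le_trans ?_ h1
    refine Cardinal.mk_le_of_injective (f := fun s : Set I => (⟨s, hcon s⟩ : {t : Set I // MeasurableSet t})) ?_
    intro a b hab
    exact congrArg Subtype.val hab
  rw [Cardinal.mk_set, Cardinal.mk_Icc_real zero_lt_one] at h2
  exact absurd h2 (not_le.2 (Cardinal.cantor _))

/-- The negation of the preceding statement: For any two real F-spaces E, E₁ (complete metrizable topological vector spaces, not necessarily separable) and any continuous linear map U from E to E₁, the range of U is a Borel subset of E₁. -/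
theorem result :
    ¬ (∀ (E E₁ : Type) [AddCommGroup E] [Module ℝ E] [UniformSpace E] [IsUniformAddGroup E]
      [ContinuousSMul ℝ E] [CompleteSpace E] [T2Space E] [(uniformity E).IsCountablyGenerated]
      [AddCommGroup E₁] [Module ℝ E₁] [UniformSpace E₁] [IsUniformAddGroup E₁]
      [ContinuousSMul ℝ E₁] [CompleteSpace E₁] [T2Space E₁] [(uniformity E₁).IsCountablyGenerated]
      (U : E →L[ℝ] E₁), @MeasurableSet E₁ (borel E₁) (Set.range U)) := by
  intro hall
  obtain ⟨D, hD⟩ := exists_nonmeasurable
  have : Fact ((1:ENNReal) ≤ 1) := ⟨le_rfl⟩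
  have h1 := hall (lp (fun _ : D => ℝ) 1) C(I × I, ℝ) (U D)
  let _ : MeasurableSpace C(I × I, ℝ) := borel _
  have : BorelSpace C(I × I, ℝ) := ⟨rfl⟩
  have h2 : Measurable (x : I → C(I × I, ℝ)) := x.continuous.measurable
  apply hD
  have h3 : D = x ⁻¹' (range (U D)) := by
    ext t
    exact ⟨fun ht => mem_range_of_mem D ht, fun ht => mem_of_mem_range D ht⟩
  rw [h3]
  exact h2 h1

end Pool.Agent.S04260
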