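import Pool.Statements.S04302
-- import your own Pool.Agent.* helpers here

set_option autoImplicit false
open Filter Topology
open Pool Pool.MP_d85bbb_an

namespace Pool.Agent.S04302

/-- If norming functionals are unique then the norm is Gateaux differentiable. -/
lemma gateaux {X : Type*} [NormedAddCommGroup X] [NormedSpace ℝ X] (x : X) (hx : x ≠ 0)
    (huniq : ∀ f g : StrongDual ℝ X, ‖f‖ ≤ 1 → ‖g‖ ≤ 1 → f x = ‖x‖ → g x = ‖x‖ → f = g) :
    ∃ f : X →L[ℝ] ℝ, ∀ v : X, HasLineDerivAt ℝ (fun y : X => ‖y‖) (f v) x v := by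
  obtain ⟨f, hf1, hfx⟩ := exists_dual_vector ℝ x (by simpa using hx)
  refine ⟨f, fun v => ?_⟩
  choose φ hφ1 hφ2 using fun s : ℝ => exists_dual_vector'' ℝ (x + s • v)
  have hlim : Tendsto (fun s : ℝ => φ s v) (𝓝 0) (𝓝 (f v)) := by
    rw [tendsto_iff_ultrafilter]
    intro U hU
    have hK := WeakDual.isCompact_closedBall (𝕜 := ℝ) (E := X) 0 1
    obtain ⟨ψ, hψK, hψ⟩ := hK.ultrafilter_le_nhds (U.map (fun s => StrongDual.toWeakDual (φ s))) (by
      rw [Ultrafilter.coe_map]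
      rw [Filter.le_principal_iff, Filter.mem_map]
      filter_upwards with s
      simpa using hφ1 s)
    have hev : ∀ y : X, Tendsto (fun s => φ s y) U (𝓝 (ψ y)) := by
      intro y
      have h1 := (WeakDual.eval_continuous (𝕜 := ℝ) (E := X) y).tendsto ψ
      have h2 : Tendsto (fun s => StrongDual.toWeakDual (φ s)) U (𝓝 ψ) := hψ
      exact h1.comp h2
    have hψ1 : ‖WeakDual.toStrongDual ψ‖ ≤ 1 := by simpa using hψK
    have hψx : WeakDual.toStrongDual ψ x = ‖x‖ := by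
      have h1 := hev x
      have h2 : Tendsto (fun s : ℝ => ‖x + s • v‖ - s * φ s v) U (𝓝 (‖x + (0:ℝ) • v‖ - 0)) := by
        apply Tendsto.sub
        · have : Continuous fun s : ℝ => ‖x + s • v‖ := by fun_prop
          exact (this.tendsto 0).mono_left hU
        · apply squeeze_zero_norm (a := fun s : ℝ => |s| * ‖v‖)
          · intro s
            rw [norm_mul, Real.norm_eq_abs]
            gcongr
            calc ‖φ s v‖ ≤ ‖φ s‖ * ‖v‖ := (φ s).le_opNorm v
              _ ≤ 1 * ‖v‖ := by gcongr; exact hφ1 s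
              _ = ‖v‖ := one_mul _
          · have : Continuous fun s : ℝ => |s| * ‖v‖ := by fun_prop
            have := (this.tendsto 0).mono_left hU
            simpa using this
      have h3 : ∀ s : ℝ, ‖x + s • v‖ - s * φ s v = φ s x := by
        intro s
        have h4 := hφ2 s
        rw [map_add, map_smul, smul_eq_mul] at h4
        have h5 : ((‖x + s • v‖ : ℝ) : ℝ) = ‖x + s • v‖ := rfl
        simp only [RCLike.ofReal_real_eq_id, id_eq] at h4
        linarith
      simp only [h3, zero_smul, add_zero, sub_zero] at h2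
      exact tendsto_nhds_unique h1 h2
    have heq : WeakDual.toStrongDual ψ = f := by
      apply huniq _ _ hψ1 hf1.le hψx
      simpa using hfx
    have := hev v
    rw [← heq]
    exact this
  rw [HasLineDerivAt, hasDerivAt_iff_tendsto_slope_zero]
  have hmain : ∀ t : ℝ, t ≠ 0 → ‖t⁻¹ • (‖x + (0 + t) • v‖ - ‖x + (0:ℝ) • v‖) - f v‖ ≤ |φ t v - f v| := by
    intro t ht
    rw [zero_add, zero_smul, add_zero, smul_eq_mul, Real.norm_eq_abs]
    have hA : f x = ‖x‖ := by simpa using hfx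
    have h1 : t * f v ≤ ‖x + t • v‖ - ‖x‖ := by
      have h2 : f (x + t • v) ≤ ‖x + t • v‖ := by
        calc f (x + t • v) ≤ ‖f (x + t • v)‖ := Real.le_norm_self _
          _ ≤ ‖f‖ * ‖x + t • v‖ := f.le_opNorm _
          _ = ‖x + t • v‖ := by rw [hf1, one_mul]
      rw [map_add, map_smul, smul_eq_mul, hA] at h2
      linarith
    have h2 : ‖x + t • v‖ - ‖x‖ ≤ t * φ t v := by
      have h3 : φ t x ≤ ‖x‖ := by
        calc φ t x ≤ ‖φ t x‖ := Real.le_norm_self _
          _ ≤ ‖φ t‖ * ‖x‖ := (φ t).le_opNorm _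
          _ ≤ 1 * ‖x‖ := by gcongr; exact hφ1 t
          _ = ‖x‖ := one_mul _
      have h4 := hφ2 t
      rw [map_add, map_smul, smul_eq_mul] at h4
      simp only [RCLike.ofReal_real_eq_id, id_eq] at h4
      linarith
    set D := ‖x + t • v‖ - ‖x‖
    have h5 : t⁻¹ * D - f v = t⁻¹ * (D - t * f v) := by field_simp
    rw [h5, abs_mul, abs_of_nonneg (by linarith : 0 ≤ D - t * f v)]
    have h6 : D - t * f v ≤ |t| * |φ t v - f v| := by
      rw [← abs_mul]
      calc D - t * f v ≤ t * (φ t v - f v) := by linarith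
        _ ≤ _ := le_abs_self _
    calc |t⁻¹| * (D - t * f v) ≤ |t⁻¹| * (|t| * |φ t v - f v|) := by gcongr
      _ = |φ t v - f v| := by
        rw [← mul_assoc, ← abs_mul, inv_mul_cancel₀ ht, abs_one, one_mul]
  rw [tendsto_iff_norm_sub_tendsto_zero]
  apply squeeze_zero' (g := fun t => |φ t v - f v|)
  · filter_upwards with t using norm_nonneg _
  · filter_upwards [self_mem_nhdsWithin] with t ht using hmain t ht
  · have h1 : Tendsto (fun t : ℝ => |φ t v - f v|) (𝓝 0) (𝓝 |f v - f v|) :=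
      (hlim.sub_const _).abs
    rw [sub_self, abs_zero] at h1
    exact h1.mono_left nhdsWithin_le_nhds

open scoped ENNReal

abbrev H : Type := lp (fun _ : ℕ => ℝ) 2
abbrev B : Type := lp (fun _ : ℕ => ℂ) ⊤
abbrev W : Type := WithLp 2 (H × B)

noncomputable def η (n : ℕ) : ℝ := 1 / (4 * (n + 1))
noncomputable def c (n : ℕ) : ℝ := (-1) ^ n

lemma η_pos (n : ℕ) : 0 < η n := by unfold η; positivity
lemma η_le (n : ℕ) : η n ≤ 1 / 4 := by
  unfold η
  apply one_div_le_one_div_of_le (by norm_num)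
  have : (0:ℝ) ≤ n := Nat.cast_nonneg _
  linarith
lemma η_anti {m n : ℕ} (h : m ≤ n) : η n ≤ η m := by
  unfold η
  have : (m:ℝ) ≤ n := by exact_mod_cast h
  gcongr
lemma η_lim : Tendsto η atTop (𝓝 0) := by
  have h : η = fun n : ℕ => (1/4) * (1 / ((n:ℝ) + 1)) := by
    ext n; unfold η; field_simp
  rw [h]
  simpa using tendsto_one_div_add_atTop_nhds_zero_nat.const_mul (1/4 : ℝ)
lemma abs_c (n : ℕ) : |c n| = 1 := by unfold c; simp

/-- the `n`-th component -/
noncomputable def bb (n : ℕ) (z : ℕ → ℝ) : ℂ := ⟨z (n + 1), η n * (z 0 - c n * z (n + 1))⟩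

lemma abs_le_H (z : H) (n : ℕ) : |z n| ≤ ‖z‖ := lp.norm_apply_le_norm (by norm_num) z n

lemma bb_norm_le (n : ℕ) (z : ℕ → ℝ) : ‖bb n z‖ ≤ |z (n+1)| + η n * (|z 0| + |z (n+1)|) := by
  have h := Complex.norm_le_abs_re_add_abs_im (bb n z)
  refine h.trans ?_
  simp only [bb]
  have h2 : |η n * (z 0 - c n * z (n + 1))| ≤ η n * (|z 0| + |z (n+1)|) := by
    rw [abs_mul, abs_of_pos (η_pos n)]
    have h3 : |z 0 - c n * z (n + 1)| ≤ |z 0| + |z (n+1)| := by
      refine (abs_sub _ _).trans ?_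
      rw [abs_mul, abs_c, one_mul]
    exact mul_le_mul_of_nonneg_left h3 (η_pos n).le
  linarith

lemma bb_norm_le' (n : ℕ) (z : H) : ‖bb n z‖ ≤ 2 * ‖z‖ := by
  have h := bb_norm_le n z
  have h1 := abs_le_H z (n+1)
  have h2 := abs_le_H z 0
  have h3 := η_le n
  have h4 := η_pos n
  have h5 : η n * (|z 0| + |z (n+1)|) ≤ 1/4 * (‖z‖ + ‖z‖) := by
    apply mul_le_mul h3 (by linarith) (by positivity) (by norm_num)
  have := norm_nonneg z
  linarith

noncomputable def b (z : H) : B := ⟨fun n => bb n z, memℓp_infty ⟨2 * ‖z‖, by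
  rintro _ ⟨n, rfl⟩
  exact bb_norm_le' n z⟩⟩

lemma b_apply (z : H) (n : ℕ) : b z n = bb n z := rfl

noncomputable def u : H := lp.single 2 0 (1:ℝ)

lemma u_zero : u 0 = 1 := by simp [u]
lemma u_succ (n : ℕ) : u (n+1) = 0 := by
  unfold u
  rw [lp.single_apply_ne]
  simp

noncomputable def T : H →ₗ[ℝ] W where
  toFun z := WithLp.toLp 2 (z - (z 0) • u, b z)
  map_add' x y := by
    rw [← WithLp.toLp_add, Prod.mk_add_mk]
    congr 2
    · rw [lp.coeFn_add, Pi.add_apply, add_smul]; abel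
    · ext n
      rw [lp.coeFn_add, Pi.add_apply, b_apply, b_apply, b_apply]
      apply Complex.ext
      · simp [bb]
      · simp [bb]; ring
  map_smul' r x := by
    rw [RingHom.id_apply, ← WithLp.toLp_smul, Prod.smul_mk]
    congr 2
    · rw [lp.coeFn_smul, Pi.smul_apply, smul_sub, smul_smul]; rfl
    · ext n
      rw [lp.coeFn_smul, Pi.smul_apply, b_apply, b_apply]
      apply Complex.ext
      · simp [bb]
      · simp [bb]; ring

lemma T_sq (z : H) : ‖T z‖ ^ 2 = ‖z - (z 0) • u‖ ^ 2 + ‖b z‖ ^ 2 :=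
  WithLp.prod_norm_sq_eq_of_L2 (T z)

lemma bb_le_b (z : H) (n : ℕ) : ‖bb n z‖ ≤ ‖b z‖ := lp.norm_apply_le_norm (by simp) (b z) n

lemma b_le_T (z : H) : ‖b z‖ ≤ ‖T z‖ := by
  have h := T_sq z
  nlinarith [norm_nonneg (T z), norm_nonneg (b z), norm_nonneg (z - (z 0) • u)]

lemma P_le_T (z : H) : ‖z - (z 0) • u‖ ≤ ‖T z‖ := by
  have h := T_sq z
  nlinarith [norm_nonneg (T z), norm_nonneg (b z), norm_nonneg (z - (z 0) • u)]

lemma zero_le_b (z : H) : |z 0| ≤ 5 * ‖b z‖ := by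
  have h1 : |z 1| ≤ ‖b z‖ := by
    refine le_trans ?_ (bb_le_b z 0)
    exact Complex.abs_re_le_norm (bb 0 z)
  have h2 : |η 0 * (z 0 - c 0 * z 1)| ≤ ‖b z‖ := by
    refine le_trans ?_ (bb_le_b z 0)
    exact Complex.abs_im_le_norm (bb 0 z)
  have h3 : η 0 = 1/4 := by unfold η; norm_num
  have h4 : c 0 = 1 := by unfold c; norm_num
  rw [h3, h4, one_mul, abs_mul, abs_of_pos (by norm_num : (0:ℝ) < 1/4)] at h2
  have h5 : |z 0| ≤ |z 0 - z 1| + |z 1| := by
    have := abs_add_le (z 0 - z 1) (z 1)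
    simpa using this
  linarith

lemma norm_u : ‖u‖ = 1 := by
  unfold u
  rw [lp.norm_single (by norm_num)]
  simp

lemma H_le_T (z : H) : ‖z‖ ≤ 6 * ‖T z‖ := by
  have h1 : ‖z‖ ≤ ‖z - (z 0) • u‖ + ‖(z 0) • u‖ := by
    have := norm_add_le (z - (z 0) • u) ((z 0) • u)
    simpa using this
  rw [norm_smul, norm_u, mul_one, Real.norm_eq_abs] at h1
  have := P_le_T z
  have := b_le_T z
  have := zero_le_b z
  linarith

lemma T_le_H (z : H) : ‖T z‖ ≤ 4 * ‖z‖ := by
  have h1 : ‖z - (z 0) • u‖ ≤ 2 * ‖z‖ := by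
    refine (norm_sub_le _ _).trans ?_
    rw [norm_smul, norm_u, mul_one, Real.norm_eq_abs]
    have := abs_le_H z 0
    linarith
  have h2 : ‖b z‖ ≤ 2 * ‖z‖ :=
    lp.norm_le_of_forall_le (by positivity) (fun n => bb_norm_le' n z)
  have h := T_sq z
  have h3 : ‖T z‖ ^ 2 ≤ (4 * ‖z‖) ^ 2 := by
    rw [h]
    nlinarith [norm_nonneg z, norm_nonneg (b z), norm_nonneg (z - (z 0) • u)]
  exact le_of_sq_le_sq h3 (by positivity)

lemma T_inj : Function.Injective T := by
  intro x y hxy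
  have h : T (x - y) = 0 := by rw [map_sub, hxy, sub_self]
  have := H_le_T (x - y)
  rw [h, norm_zero, mul_zero] at this
  exact sub_eq_zero.mp (norm_le_zero_iff.mp this)

/-- The space: `ℓ_2` with the norm induced by `T`. -/
def Z : Type := H

noncomputable instance instNZ : NormedAddCommGroup Z :=
  @NormedAddCommGroup.induced (H →ₗ[ℝ] W) H W _ _ _ _ T T_inj

noncomputable instance instSZ : NormedSpace ℝ Z :=
  @NormedSpace.induced (H →ₗ[ℝ] W) ℝ H W _ _ _ _ _ _ _ T

noncomputable def eqv : H ≃L[ℝ] Z :=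
  LinearEquiv.toContinuousLinearEquivOfBounds
    { toFun := fun z => (z : Z)
      invFun := fun z => (z : H)
      left_inv := fun _ => rfl
      right_inv := fun _ => rfl
      map_add' := fun _ _ => rfl
      map_smul' := fun _ _ => rfl } 4 6 (fun z => T_le_H z) (fun z => H_le_T z)

lemma norm_eqv (z : H) : ‖eqv z‖ = ‖T z‖ := rfl

/-! ### Riesz representation and reflexivity -/

/-- the functional on `Z` given by an element of `H` -/
noncomputable def Lf : H →L[ℝ] (Z →L[ℝ] ℝ) :=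
  ((ContinuousLinearMap.compL ℝ Z H ℝ).flip (eqv.symm : Z →L[ℝ] H)).comp (innerSL ℝ)

lemma Lf_apply (h z : H) : Lf h (eqv z) = inner ℝ h z := by
  simp [Lf]

lemma exists_Lf (x : Z →L[ℝ] ℝ) : ∃ h : H, x = Lf h := by
  refine ⟨(InnerProductSpace.toDual ℝ H).symm (x.comp (eqv : H →L[ℝ] Z)), ?_⟩
  ext z
  obtain ⟨z, rfl⟩ := eqv.surjective z
  rw [Lf_apply, InnerProductSpace.toDual_symm_apply]
  rfl

/-- `Z` is reflexive. -/
lemma refl_Z (ψ : (Z →L[ℝ] ℝ) →L[ℝ] ℝ) : ∃ z : H, ∀ x : Z →L[ℝ] ℝ, ψ x = x (eqv z) := by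
  refine ⟨(InnerProductSpace.toDual ℝ H).symm (ψ.comp Lf), fun x => ?_⟩
  obtain ⟨h, rfl⟩ := exists_Lf x
  rw [Lf_apply, real_inner_comm, InnerProductSpace.toDual_symm_apply]
  rfl

/-- The space `X`, the dual of `Z`. -/
abbrev X : Type := Z →L[ℝ] ℝ

lemma norm_J_le (ψ : X →L[ℝ] ℝ) (z : H) (h : ∀ x : X, ψ x = x (eqv z)) : ‖T z‖ ≤ ‖ψ‖ := by
  rw [← norm_eqv]
  obtain ⟨g, hg1, hg2⟩ := exists_dual_vector'' ℝ (eqv z)
  have h1 : ‖ψ g‖ ≤ ‖ψ‖ * ‖g‖ := ψ.le_opNorm g
  have h2 : ψ g = ‖eqv z‖ := by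
    rw [h g]
    simpa using hg2
  rw [h2, norm_norm] at h1
  calc ‖eqv z‖ ≤ ‖ψ‖ * ‖g‖ := h1
    _ ≤ ‖ψ‖ * 1 := by gcongr
    _ = ‖ψ‖ := mul_one _

lemma refl_X : Function.Surjective (NormedSpace.inclusionInDoubleDual ℝ X) := by
  intro φ
  refine ⟨φ.comp (NormedSpace.inclusionInDoubleDual ℝ Z), ?_⟩
  ext ψ
  obtain ⟨z, hz⟩ := refl_Z ψ
  have h1 : ψ = NormedSpace.inclusionInDoubleDual ℝ Z (eqv z) := by
    ext x
    rw [hz x]
    rfl
  rw [NormedSpace.dual_def, h1]
  rfl

lemma exists_lt_bound_aux (a : ℕ → ℝ) (A : ℝ) (hlt : ∀ n, a n < A) (N : ℕ) :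
    ∃ r < A, ∀ n < N, a n ≤ r := by
  induction N with
  | zero => exact ⟨A - 1, by linarith, fun n hn => absurd hn (Nat.not_lt_zero n)⟩
  | succ N ih =>
    obtain ⟨r, hr, h⟩ := ih
    refine ⟨max r (a N), max_lt hr (hlt N), fun n hn => ?_⟩
    rcases Nat.lt_succ_iff_lt_or_eq.mp hn with h1 | h1
    · exact (h n h1).trans (le_max_left _ _)
    · rw [h1]; exact le_max_right _ _

lemma exists_lt_bound (a : ℕ → ℝ) (A : ℝ) (hA : 0 < A) (hlim : Tendsto a atTop (𝓝 0))
    (hlt : ∀ n, a n < A) : ∃ r < A, ∀ n, a n ≤ r := by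
  obtain ⟨N, hN⟩ := Filter.eventually_atTop.mp (hlim.eventually (gt_mem_nhds (half_pos hA)))
  obtain ⟨r, hr, h⟩ := exists_lt_bound_aux a A hlt N
  refine ⟨max r (A/2), max_lt hr (by linarith), fun n => ?_⟩
  rcases lt_or_ge n N with h1 | h1
  · exact (h n h1).trans (le_max_left _ _)
  · exact (hN n h1).le.trans (le_max_right _ _)

lemma coord_lim (z : H) : Tendsto (fun n => |z n|) atTop (𝓝 0) := by
  have h1 := ((lp.memℓp z).summable (by norm_num)).tendsto_atTop_zero
  have h2 := h1.sqrt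
  rw [Real.sqrt_zero] at h2
  refine h2.congr (fun n => ?_)
  have : ((2 : ℝ≥0∞).toReal) = 2 := by norm_num
  rw [this, Real.rpow_two, Real.norm_eq_abs, sq_abs, Real.sqrt_sq_eq_abs]

lemma bb_lim (z : H) : Tendsto (fun n => ‖bb n z‖) atTop (𝓝 0) := by
  have h1 : Tendsto (fun n => |z (n+1)| + η n * (|z 0| + |z (n+1)|)) atTop
      (𝓝 (0 + 0 * (|z 0| + 0))) := by
    have h2 := (tendsto_add_atTop_iff_nat 1).mpr (coord_lim z)
    exact h2.add (η_lim.mul (h2.const_add _))
  simp only [zero_mul, add_zero] at h1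
  exact squeeze_zero (fun n => norm_nonneg _) (fun n => bb_norm_le n z) h1

/-! ### Strict convexity -/

lemma strict_Z {y z : H} (hne : y ≠ z) (hy : ‖T y‖ ≤ 1) (hz : ‖T z‖ ≤ 1) :
    ‖T ((1/2 : ℝ) • (y + z))‖ < 1 := by
  have hsq : ‖T ((1/2 : ℝ) • (y + z))‖ ^ 2 < 1 := by
    rw [T_sq]
    set p : H → H := fun z => z - (z 0) • u with hp
    have hpl : p ((1/2 : ℝ) • (y + z)) = (1/2 : ℝ) • (p y + p z) := by
      simp only [hp]
      rw [lp.coeFn_smul, Pi.smul_apply, lp.coeFn_add, Pi.add_apply, smul_eq_mul, ← smul_smul,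
        add_smul]
      rw [← smul_sub]
      congr 1
      abel
    have hpar : ‖p ((1/2 : ℝ) • (y + z))‖ ^ 2
        = (‖p y‖ ^ 2 + ‖p z‖ ^ 2) / 2 - ‖p y - p z‖ ^ 2 / 4 := by
      rw [hpl, norm_smul, mul_pow]
      have := parallelogram_law_with_norm ℝ (p y) (p z)
      norm_num
      nlinarith
    have hby : ‖p y‖ ^ 2 + ‖b y‖ ^ 2 ≤ 1 := by
      have := T_sq y
      nlinarith [norm_nonneg (T y)]
    have hbz : ‖p z‖ ^ 2 + ‖b z‖ ^ 2 ≤ 1 := by
      have := T_sq z
      nlinarith [norm_nonneg (T z)]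
    have hbb : ∀ n, ‖bb n ((1/2 : ℝ) • (y + z) : H)‖ ^ 2 =
        (‖bb n y‖ ^ 2 + ‖bb n z‖ ^ 2) / 2 - ((y (n+1) - z (n+1)) ^ 2
          + (η n * ((y 0 - z 0) - c n * (y (n+1) - z (n+1)))) ^ 2) / 4 := by
      intro n
      rw [Complex.sq_norm, Complex.sq_norm, Complex.sq_norm, Complex.normSq_apply,
        Complex.normSq_apply, Complex.normSq_apply]
      simp only [bb]
      rw [lp.coeFn_smul, Pi.smul_apply, Pi.smul_apply, lp.coeFn_add, Pi.add_apply, Pi.add_apply,
        smul_eq_mul, smul_eq_mul]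
      ring
    have hmid : ‖b ((1/2 : ℝ) • (y + z))‖ ^ 2 ≤ (‖b y‖ ^ 2 + ‖b z‖ ^ 2) / 2 := by
      have h1 : ‖b ((1/2 : ℝ) • (y + z))‖ ≤ Real.sqrt ((‖b y‖ ^ 2 + ‖b z‖ ^ 2) / 2) := by
        apply lp.norm_le_of_forall_le (Real.sqrt_nonneg _)
        intro n
        rw [b_apply]
        apply Real.le_sqrt_of_sq_le
        rw [hbb n]
        have h2 := bb_le_b y n
        have h3 := bb_le_b z n
        have h4 : ‖bb n y‖ ^ 2 ≤ ‖b y‖ ^ 2 := by gcongr
        have h5 : ‖bb n z‖ ^ 2 ≤ ‖b z‖ ^ 2 := by gcongr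
        nlinarith [sq_nonneg (y (n+1) - z (n+1)),
          sq_nonneg (η n * ((y 0 - z 0) - c n * (y (n+1) - z (n+1))))]
      calc ‖b ((1/2 : ℝ) • (y + z))‖ ^ 2 ≤ Real.sqrt ((‖b y‖ ^ 2 + ‖b z‖ ^ 2) / 2) ^ 2 := by
            gcongr
        _ = _ := Real.sq_sqrt (by positivity)
    change ‖p ((1/2 : ℝ) • (y + z))‖ ^ 2 + _ < 1
    by_cases hpe : p y = p z
    · -- the first coordinates differ
      have hco : ∀ n, y (n+1) = z (n+1) := by
        intro n
        have h1 : (p y) (n+1) = (p z) (n+1) := by rw [hpe]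
        simp only [hp] at h1
        rw [lp.coeFn_sub, lp.coeFn_sub, Pi.sub_apply, Pi.sub_apply, lp.coeFn_smul, lp.coeFn_smul,
          Pi.smul_apply, Pi.smul_apply, u_succ] at h1
        simpa using h1
      have h0 : y 0 ≠ z 0 := by
        intro h0
        apply hne
        ext n
        cases n with
        | zero => exact h0
        | succ n => exact hco n
      have hlt : ∀ n, ‖bb n ((1/2 : ℝ) • (y + z) : H)‖ ^ 2 <
          (‖b y‖ ^ 2 + ‖b z‖ ^ 2) / 2 := by
        intro n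
        rw [hbb n, hco n]
        have h2 := bb_le_b y n
        have h3 := bb_le_b z n
        have h4 : ‖bb n y‖ ^ 2 ≤ ‖b y‖ ^ 2 := by gcongr
        have h5 : ‖bb n z‖ ^ 2 ≤ ‖b z‖ ^ 2 := by gcongr
        have h6 : 0 < (η n * (y 0 - z 0)) ^ 2 := by
          have := η_pos n
          have := sub_ne_zero.mpr h0
          positivity
        simp only [sub_self, mul_zero, sub_zero, ne_eq, OfNat.ofNat_ne_zero, not_false_eq_true,
          zero_pow, zero_add]
        nlinarith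
      -- the supremum is attained or zero
      have hApos : 0 < (‖b y‖ ^ 2 + ‖b z‖ ^ 2) / 2 :=
        lt_of_le_of_lt (sq_nonneg _) (hlt 0)
      have hlim2 : Tendsto (fun n => ‖bb n ((1/2 : ℝ) • (y + z) : H)‖ ^ 2) atTop (𝓝 0) := by
        have := (bb_lim ((1/2 : ℝ) • (y + z))).pow 2
        simpa using this
      obtain ⟨r, hr, hr2⟩ := exists_lt_bound _ _ hApos hlim2 hlt
      have hr0 : 0 ≤ r := (sq_nonneg _).trans (hr2 0)
      have h7 : ‖b ((1/2 : ℝ) • (y + z))‖ ^ 2 ≤ r := by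
        have h1 : ‖b ((1/2 : ℝ) • (y + z))‖ ≤ Real.sqrt r := by
          apply lp.norm_le_of_forall_le (Real.sqrt_nonneg _)
          intro n
          rw [b_apply]
          exact Real.le_sqrt_of_sq_le (hr2 n)
        calc ‖b ((1/2 : ℝ) • (y + z))‖ ^ 2 ≤ Real.sqrt r ^ 2 := by gcongr
          _ = r := Real.sq_sqrt hr0
      rw [hpar]
      nlinarith [sq_nonneg ‖p y - p z‖]
    · have h1 : 0 < ‖p y - p z‖ ^ 2 := by
        have := norm_pos_iff.mpr (sub_ne_zero.mpr hpe)
        positivity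
      rw [hpar]
      nlinarith
  nlinarith [norm_nonneg (T ((1/2 : ℝ) • (y + z)))]

lemma smooth_X (x : X) (hx : x ≠ 0) : ∃ f : X →L[ℝ] ℝ,
    ∀ v : X, HasLineDerivAt ℝ (fun y : X => ‖y‖) (f v) x v := by
  apply gateaux x hx
  intro f g hf hg hfx hgx
  obtain ⟨y, hy⟩ := refl_Z f
  obtain ⟨z, hz⟩ := refl_Z g
  have hy1 := (norm_J_le f y hy).trans hf
  have hz1 := (norm_J_le g z hz).trans hg
  by_cases hne : y = z
  · subst hne
    ext x
    rw [hy, hz]
  · exfalso
    have h1 := strict_Z hne hy1 hz1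
    have h2 : x (eqv ((1/2 : ℝ) • (y + z))) = ‖x‖ := by
      rw [map_smul, map_add, map_smul, map_add, ← hy, ← hz, hfx, hgx, smul_eq_mul]
      ring
    have h3 : ‖x (eqv ((1/2 : ℝ) • (y + z)))‖ ≤ ‖x‖ * ‖eqv ((1/2 : ℝ) • (y + z))‖ := x.le_opNorm _
    rw [h2, norm_norm, norm_eqv] at h3
    have h4 := norm_pos_iff.mpr hx
    nlinarith

/-- The space `X` as a type of its own. -/
def Y : Type := X

noncomputable instance instNY : NormedAddCommGroup Y := inferInstanceAs (NormedAddCommGroup X)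
noncomputable instance instSY : NormedSpace ℝ Y := inferInstanceAs (NormedSpace ℝ X)

instance instCY : CompleteSpace Y := inferInstanceAs (CompleteSpace X)

/-- evaluation -/
noncomputable def ap (x : Y) (z : H) : ℝ := (show X from x) (eqv z)

lemma ap_add (x y : Y) (z : H) : ap (x + y) z = ap x z + ap y z := rfl
lemma ap_sub (x y : Y) (z : H) : ap (x - y) z = ap x z - ap y z := rfl
lemma ap_smul (r : ℝ) (x : Y) (z : H) : ap (r • x) z = r * ap x z := rfl
lemma ap_zero (z : H) : ap 0 z = 0 := rfl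
lemma ap_zadd (x : Y) (z w : H) : ap x (z + w) = ap x z + ap x w := by
  unfold ap; rw [map_add, map_add]
lemma ap_zsmul (x : Y) (r : ℝ) (z : H) : ap x (r • z) = r * ap x z := by
  unfold ap; rw [map_smul, map_smul]; rfl
lemma ap_le (x : Y) (z : H) : ‖ap x z‖ ≤ ‖x‖ * ‖T z‖ :=
  ContinuousLinearMap.le_opNorm (show X from x) (eqv z)

lemma refl_Y' (ψ : Y →L[ℝ] ℝ) : ∃ z : H, (∀ x : Y, ψ x = ap x z) ∧ ‖T z‖ ≤ ‖ψ‖ := by
  obtain ⟨z, hz⟩ := refl_Z (show X →L[ℝ] ℝ from ψ)
  exact ⟨z, hz, norm_J_le _ z hz⟩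

lemma refl_Y : Function.Surjective (NormedSpace.inclusionInDoubleDual ℝ Y) := refl_X

lemma smooth_Y (x : Y) (hx : x ≠ 0) : ∃ f : Y →L[ℝ] ℝ,
    ∀ v : Y, HasLineDerivAt ℝ (fun y : Y => ‖y‖) (f v) x v := smooth_X x hx

/-! ### The subspace and the coordinate functionals -/

/-- coordinate functionals on `Z` -/
noncomputable def co (n : ℕ) : Y := Lf (lp.single 2 n (1:ℝ))

lemma co_apply (n : ℕ) (z : H) : ap (co n) z = z n := by
  have : ap (co n) z = Lf (lp.single 2 n (1:ℝ)) (eqv z) := rfl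
  rw [this, Lf_apply, lp.inner_single_left]
  simp

/-- evaluation at `u` -/
noncomputable def evU : Y →L[ℝ] ℝ :=
  LinearMap.mkContinuous
    { toFun := fun x => ap x u
      map_add' := fun x y => ap_add x y u
      map_smul' := fun r x => ap_smul r x u } ‖T u‖ (fun x => by
        rw [mul_comm]; exact ap_le x u)

lemma evU_apply (x : Y) : evU x = ap x u := rfl

/-- The subspace -/
noncomputable def E : Subspace ℝ Y := LinearMap.ker (evU : Y →ₗ[ℝ] ℝ)

lemma mem_E (x : Y) : x ∈ E ↔ ap x u = 0 := LinearMap.mem_ker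

lemma closed_E : IsClosed (E : Set Y) := evU.isClosed_ker

lemma co_zero_u : ap (co 0) u = 1 := by rw [co_apply, u_zero]

lemma co_mem (n : ℕ) : co (n+1) ∈ E := by rw [mem_E, co_apply, u_succ]

lemma pr_mem (x : Y) : (ContinuousLinearMap.id ℝ Y - evU.smulRight (co 0)) x ∈ E := by
  rw [mem_E]
  have : (ContinuousLinearMap.id ℝ Y - evU.smulRight (co 0)) x = x - ap x u • co 0 := rfl
  rw [this, ap_sub, ap_smul, co_zero_u]
  ring

noncomputable def pr : Y →L[ℝ] E :=
  (ContinuousLinearMap.id ℝ Y - evU.smulRight (co 0)).codRestrict E pr_mem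

lemma pr_coe (x : Y) : ((pr x : E) : Y) = x - ap x u • co 0 := rfl

lemma E_u (e : E) : ap (e : Y) u = 0 := (mem_E _).mp e.2

lemma pr_of_mem (e : E) : pr (e : Y) = e := by
  apply Subtype.ext
  rw [pr_coe, E_u, zero_smul, sub_zero]

/-- change of the zeroth coordinate -/
noncomputable def zc (z : H) (s : ℝ) : H := z + (s - z 0) • u

lemma zc_zero (z : H) (s : ℝ) : zc z s 0 = s := by
  unfold zc
  rw [lp.coeFn_add, Pi.add_apply, lp.coeFn_smul, Pi.smul_apply, u_zero]
  simp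

lemma zc_succ (z : H) (s : ℝ) (n : ℕ) : zc z s (n+1) = z (n+1) := by
  unfold zc
  rw [lp.coeFn_add, Pi.add_apply, lp.coeFn_smul, Pi.smul_apply, u_succ]
  simp

lemma zc_self (z : H) : zc z (z 0) = z := by
  unfold zc; simp

lemma zc_p (z : H) (s : ℝ) : zc z s - (zc z s 0) • u = z - (z 0) • u := by
  rw [zc_zero]
  unfold zc
  rw [sub_smul]
  abel

lemma bb_zc_sub (z : H) (n : ℕ) (s s' : ℝ) :
    ‖bb n (zc z s)‖ ≤ ‖bb n (zc z s')‖ + η n * |s - s'| := by
  have h1 : bb n (zc z s) = bb n (zc z s') + (((η n * (s - s') : ℝ) : ℂ) * Complex.I) := by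
    apply Complex.ext
    · simp [bb, zc_succ]
    · simp [bb, zc_succ, zc_zero]; ring
  rw [h1]
  refine (norm_add_le _ _).trans ?_
  rw [norm_mul, Complex.norm_I, mul_one, Complex.norm_real, Real.norm_eq_abs, abs_mul,
    abs_of_pos (η_pos n)]

lemma bb_zc_sub' (z z' : H) (n : ℕ) (s : ℝ) :
    ‖bb n (zc z s)‖ ≤ ‖bb n (zc z' s)‖ + 2 * |z (n+1) - z' (n+1)| := by
  have h1 : bb n (zc z s) = bb n (zc z' s) + ⟨z (n+1) - z' (n+1),
      - (η n * (c n * (z (n+1) - z' (n+1))))⟩ := by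
    apply Complex.ext
    · simp [bb, zc_succ]
    · simp [bb, zc_succ, zc_zero]; ring
  rw [h1]
  refine (norm_add_le _ _).trans ?_
  gcongr
  refine (Complex.norm_le_abs_re_add_abs_im _).trans ?_
  simp only
  rw [abs_neg, abs_mul, abs_mul, abs_c, one_mul, abs_of_pos (η_pos n)]
  have := η_le n
  nlinarith [abs_nonneg (z (n+1) - z' (n+1))]

lemma T_zc_le (z : H) (s a : ℝ) (ha : 0 ≤ a) (h : ∀ n, ‖bb n (zc z s)‖ ≤ ‖b z‖ + a) :
    ‖T (zc z s)‖ ≤ ‖T z‖ + a := by
  have h1 : ‖b (zc z s)‖ ≤ ‖b z‖ + a :=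
    lp.norm_le_of_forall_le (by positivity) (fun n => by rw [b_apply]; exact h n)
  have h2 := T_sq (zc z s)
  rw [zc_p] at h2
  have h3 := T_sq z
  have h4 := b_le_T z
  have h5 : ‖T (zc z s)‖ ^ 2 ≤ (‖T z‖ + a) ^ 2 := by
    rw [h2]
    nlinarith [norm_nonneg (b (zc z s)), norm_nonneg (b z), mul_nonneg ha (sub_nonneg.mpr h4)]
  exact le_of_sq_le_sq h5 (by positivity)

/-- selection of nearly optimal zeroth coordinates -/
lemma selection (K : Type) [TopologicalSpace K] [CompactSpace K] [T2Space K] (z : K → H)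
    (hcont : ∀ n, Continuous fun k => z k (n+1)) {τ ε : ℝ} (hτ : 0 < τ) (hε : 0 < ε)
    (hz : ∀ k, ‖T (z k)‖ ≤ τ) :
    ∃ g : C(K, ℝ), ∀ k, ‖T (zc (z k) (g k))‖ ≤ (1 + ε) * τ := by
  apply exists_continuous_forall_mem_convex_of_local_const
    (t := fun k => {s : ℝ | ‖T (zc (z k) s)‖ ≤ (1 + ε) * τ})
  · intro k s hs s' hs' α β hα hβ hαβ
    simp only [Set.mem_ofPred_eq] at *
    have h1 : zc (z k) (α • s + β • s') = α • zc (z k) s + β • zc (z k) s' := by
      unfold zc
      have h2 : (z k : H) = α • z k + β • z k := by rw [← add_smul, hαβ, one_smul]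
      have h3 : (α • s + β • s' - z k 0) = α * (s - z k 0) + β * (s' - z k 0) := by
        simp only [smul_eq_mul]
        linear_combination (z k 0) * hαβ
      rw [h3, smul_add, smul_add, smul_smul, smul_smul, add_smul]
      nth_rewrite 1 [h2]
      abel
    rw [h1, map_add, map_smul, map_smul]
    calc ‖α • T (zc (z k) s) + β • T (zc (z k) s')‖
        ≤ α * ‖T (zc (z k) s)‖ + β * ‖T (zc (z k) s')‖ := by
          refine (norm_add_le _ _).trans ?_
          rw [norm_smul, norm_smul, Real.norm_eq_abs, Real.norm_eq_abs, abs_of_nonneg hα,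
            abs_of_nonneg hβ]
      _ ≤ α * ((1 + ε) * τ) + β * ((1 + ε) * τ) := by gcongr
      _ = (1 + ε) * τ := by rw [← add_mul, hαβ, one_mul]
  · intro k0
    -- parameters
    obtain ⟨M, hM⟩ : ∃ M, η M * 14 ≤ ε := by
      have h1 : Tendsto (fun n => η n * 14) atTop (𝓝 (0 * 14)) := η_lim.mul_const 14
      rw [zero_mul] at h1
      exact (h1.eventually (ge_mem_nhds hε)).exists
    set δ : ℝ := min τ (ε * τ / 5) with hδ
    have hδ0 : 0 < δ := by
      rw [hδ]
      apply lt_min hτ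
      positivity
    have hδ1 : δ ≤ τ := min_le_left _ _
    have hδ2 : 5 * δ ≤ ε * τ := by
      have : δ ≤ ε * τ / 5 := min_le_right _ _
      linarith
    have hne : (Finset.range (M+1)).Nonempty := ⟨0, by simp⟩
    set G : ℝ → ℝ := fun s => (Finset.range (M+1)).sup' hne (fun n => ‖bb n (zc (z k0) s)‖)
    have hGle : ∀ s n, n ∈ Finset.range (M+1) → ‖bb n (zc (z k0) s)‖ ≤ G s := by
      intro s n hn
      exact Finset.le_sup' (fun n => ‖bb n (zc (z k0) s)‖) hn
    have hGbdd : BddBelow (Set.range G) := by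
      refine ⟨0, ?_⟩
      rintro _ ⟨s, rfl⟩
      exact (norm_nonneg _).trans (hGle s 0 (by simp))
    obtain ⟨s0, hs0⟩ : ∃ s0, G s0 < (⨅ s, G s) + δ :=
      exists_lt_of_ciInf_lt (by linarith)
    have hs0' : ∀ s, G s0 ≤ G s + δ := fun s => by
      have := ciInf_le hGbdd s
      linarith
    refine ⟨s0, ?_⟩
    have hev : ∀ᶠ k in 𝓝 k0, ∀ n ∈ Finset.range (M+1), |z k (n+1) - z k0 (n+1)| < δ / 2 := by
      rw [Filter.eventually_all_finset]
      intro n _
      have h1 := (hcont n).tendsto k0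
      have h2 := (Metric.tendsto_nhds.mp h1) (δ/2) (by positivity)
      filter_upwards [h2] with k hk
      rwa [Real.dist_eq] at hk
    -- a bound for s0
    have hbk : ∀ k, ‖b (z k)‖ ≤ τ := fun k => (b_le_T _).trans (hz k)
    have hzk0 : ∀ k, |z k 0| ≤ 5 * τ := fun k => (zero_le_b _).trans (by linarith [hbk k])
    have hGk0 : G (z k0 0) ≤ τ := by
      apply Finset.sup'_le
      intro n _
      rw [zc_self]
      exact (bb_le_b _ n).trans (hbk k0)
    have hs0b : |s0| ≤ 9 * τ := by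
      have h1 : ‖bb 0 (zc (z k0) s0)‖ ≤ 2 * τ := by
        have := hGle s0 0 (by simp)
        have := hs0' (z k0 0)
        linarith
      have h2 : |η 0 * (s0 - c 0 * z k0 1)| ≤ 2 * τ := by
        have h3 := (Complex.abs_im_le_norm (bb 0 (zc (z k0) s0))).trans h1
        have h4 : (bb 0 (zc (z k0) s0)).im = η 0 * (s0 - c 0 * z k0 1) := by
          simp only [bb]
          rw [zc_zero, zc_succ]
        rwa [h4] at h3
      have h3 : |z k0 1| ≤ τ := by
        have h4 := (Complex.abs_re_le_norm (bb 0 (z k0))).trans ((bb_le_b _ 0).trans (hbk k0))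
        exact h4
      have h5 : η 0 = 1/4 := by unfold η; norm_num
      have h6 : c 0 = 1 := by unfold c; norm_num
      rw [h5, h6, one_mul, abs_mul, abs_of_pos (by norm_num : (0:ℝ) < 1/4)] at h2
      have h7 : |s0| ≤ |s0 - z k0 1| + |z k0 1| := by
        have := abs_add_le (s0 - z k0 1) (z k0 1)
        simpa using this
      linarith
    filter_upwards [hev] with k hk
    have hfin : ‖T (zc (z k) s0)‖ ≤ ‖T (z k)‖ + ε * τ := by
      apply T_zc_le _ _ _ (by positivity)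
      intro n
      rcases lt_or_ge n (M+1) with hn | hn
      · have hn' : n ∈ Finset.range (M+1) := Finset.mem_range.mpr hn
        have h1 := bb_zc_sub' (z k) (z k0) n s0
        have h2 := hk n hn'
        have h3 := hGle s0 n hn'
        have h4 := hs0' (z k 0)
        obtain ⟨m, hm, hm2⟩ := Finset.exists_mem_eq_sup' hne (fun n => ‖bb n (zc (z k0) (z k 0))‖)
        have h5 : G (z k 0) = ‖bb m (zc (z k0) (z k 0))‖ := hm2
        have h6 := bb_zc_sub' (z k0) (z k) m (z k 0)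
        have h7 := hk m hm
        rw [zc_self] at h6
        rw [abs_sub_comm] at h7
        have h8 := bb_le_b (z k) m
        linarith
      · have h1 := bb_zc_sub (z k) n s0 (z k 0)
        rw [zc_self] at h1
        have h2 := bb_le_b (z k) n
        have h3 : |s0 - z k 0| ≤ 14 * τ := by
          refine (abs_sub _ _).trans ?_
          linarith [hzk0 k]
        have h4 : η n ≤ η M := η_anti (by omega)
        have h5 : η n * |s0 - z k 0| ≤ ε * τ := by
          calc η n * |s0 - z k 0| ≤ η M * (14 * τ) := by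
                apply mul_le_mul h4 h3 (abs_nonneg _) (η_pos M).le
            _ = (η M * 14) * τ := by ring
            _ ≤ ε * τ := by gcongr
        linarith
    calc ‖T (zc (z k) s0)‖ ≤ ‖T (z k)‖ + ε * τ := hfin
      _ ≤ τ + ε * τ := by linarith [hz k]
      _ = (1 + ε) * τ := by ring

lemma ap_zc (z : H) (s : ℝ) (x : Y) : ap x (zc z s) = ap x z + (s - z 0) * ap x u := by
  unfold zc
  rw [ap_zadd, ap_zsmul]

lemma E_zc (z : H) (s : ℝ) (e : E) : ap (e : Y) (zc z s) = ap (e : Y) z := by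
  rw [ap_zc, E_u, mul_zero, add_zero]

lemma EP (ε : ℝ) (hε : 0 < ε) (K : Type) [TopologicalSpace K] [CompactSpace K] [T2Space K]
    (T0 : ↥E →L[ℝ] C(K, ℝ)) :
    ∃ S : Y →L[ℝ] C(K, ℝ), (∀ e : ↥E, S (e : Y) = T0 e) ∧ ‖S‖ ≤ (1 + ε) * ‖T0‖ := by
  by_cases hτ0 : ‖T0‖ = 0
  · refine ⟨0, fun e => ?_, ?_⟩
    · have h1 := T0.le_opNorm e
      rw [hτ0, zero_mul] at h1
      exact (norm_le_zero_iff.mp h1).symm
    · rw [ContinuousLinearMap.opNorm_zero, hτ0, mul_zero]
  have hτ : 0 < ‖T0‖ := lt_of_le_of_ne (ContinuousLinearMap.opNorm_nonneg T0) (Ne.symm hτ0)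
  have hex : ∀ k : K, ∃ z : H, (∀ e : E, T0 e k = ap (e : Y) z) ∧ ‖T z‖ ≤ ‖T0‖ := by
    intro k
    obtain ⟨Φ, hΦ1, hΦ2⟩ := exists_extension_norm_eq E
      ((ContinuousMap.evalCLM ℝ k : C(K, ℝ) →L[ℝ] ℝ).comp T0)
    obtain ⟨z, hz, hzn⟩ := refl_Y' Φ
    refine ⟨z, fun e => ?_, ?_⟩
    · rw [← hz, hΦ1]; rfl
    · refine hzn.trans ?_
      rw [hΦ2]
      apply ContinuousLinearMap.opNorm_le_bound _ hτ.le
      intro e
      calc ‖T0 e k‖ ≤ ‖T0 e‖ := (T0 e).norm_coe_le_norm k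
        _ ≤ ‖T0‖ * ‖e‖ := T0.le_opNorm e
  choose z hz1 hz2 using hex
  have hcont : ∀ n, Continuous fun k => z k (n+1) := by
    intro n
    have : (fun k => z k (n+1)) = fun k => T0 ⟨co (n+1), co_mem n⟩ k := by
      ext k
      rw [hz1 k]
      exact (co_apply _ _).symm
    rw [this]
    exact (T0 _).continuous
  obtain ⟨g, hg⟩ := selection K z hcont hτ hε hz2
  refine ⟨T0.comp pr + evU.smulRight g, fun e => ?_, ?_⟩
  · rw [add_apply, ContinuousLinearMap.comp_apply, pr_of_mem,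
      ContinuousLinearMap.smulRight_apply, evU_apply, E_u, zero_smul, add_zero]
  · apply ContinuousLinearMap.opNorm_le_bound _ (by positivity)
    intro x
    rw [ContinuousMap.norm_le _ (by positivity)]
    intro k
    have h1 : (T0.comp pr + evU.smulRight g) x k = ap x (zc (z k) (g k)) := by
      have h2 : (T0.comp pr + evU.smulRight g) x k = T0 (pr x) k + ap x u * g k := rfl
      rw [h2, hz1 k, pr_coe, ap_zc, ap_sub, ap_smul, co_apply]
      ring
    rw [h1]
    calc ‖ap x (zc (z k) (g k))‖ ≤ ‖x‖ * ‖T (zc (z k) (g k))‖ := ap_le _ _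
      _ ≤ ‖x‖ * ((1 + ε) * ‖T0‖) := by
        gcongr
        exact hg k
      _ = (1 + ε) * ‖T0‖ * ‖x‖ := by ring

/-! ### Failure of the isometric extension -/

/-- unit vectors -/
noncomputable def en (n : ℕ) : H := lp.single 2 (n+1) (1:ℝ)

lemma en_self (n : ℕ) : en n (n+1) = 1 := by simp [en]
lemma en_ne (n m : ℕ) (h : m ≠ n + 1) : en n m = 0 := by
  unfold en
  rw [lp.single_apply_ne]
  exact h

lemma T_en (n : ℕ) : ‖T (zc (en n) (c n))‖ ≤ Real.sqrt 2 := by
  apply Real.le_sqrt_of_sq_le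
  rw [T_sq, zc_p]
  have h1 : ‖en n - (en n 0) • u‖ = 1 := by
    rw [en_ne n 0 (by omega), zero_smul, sub_zero]
    unfold en
    rw [lp.norm_single (by norm_num)]
    simp
  have h2 : ‖b (zc (en n) (c n))‖ ≤ 1 := by
    apply lp.norm_le_of_forall_le (by norm_num)
    intro m
    rw [b_apply]
    have h3 : ‖bb m (zc (en n) (c n))‖ ^ 2 ≤ 1 := by
      rw [Complex.sq_norm, Complex.normSq_apply]
      simp only [bb]
      rw [zc_zero, zc_succ]
      by_cases hm : m = n
      · subst hm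
        rw [en_self]
        norm_num
      · rw [en_ne n (m+1) (by omega)]
        have h4 := η_le m
        have h5 := η_pos m
        have h6 : (c n) ^ 2 = 1 := by
          rw [← sq_abs, abs_c]; norm_num
        have : (0:ℝ) * 0 + η m * (c n - c m * 0) * (η m * (c n - c m * 0)) = (η m) ^ 2 * (c n) ^ 2 := by
          ring
        rw [this, h6]
        nlinarith
    nlinarith [norm_nonneg (bb m (zc (en n) (c n)))]
  rw [h1]
  nlinarith [norm_nonneg (b (zc (en n) (c n)))]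

lemma en_lim (x : Y) : Tendsto (fun n => ap x (en n)) atTop (𝓝 0) := by
  obtain ⟨h, hh⟩ := exists_Lf (show X from x)
  have h1 : ∀ n, ap x (en n) = h (n+1) := by
    intro n
    have h0 : ap x (en n) = (show X from x) (eqv (en n)) := rfl
    rw [h0, hh, Lf_apply, real_inner_comm]
    unfold en
    rw [lp.inner_single_left]
    simp
  simp only [h1]
  have h2 := (tendsto_add_atTop_iff_nat 1).mpr (coord_lim h)
  exact (tendsto_zero_iff_abs_tendsto_zero _).mpr h2

/-- the values of the operator into `c` -/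
noncomputable def t1 (e : Y) : C(OnePoint ℕ, ℝ) :=
  OnePoint.continuousMapMkNat (fun n => ap e (en n)) 0 (en_lim e)

lemma t1_coe (e : Y) (n : ℕ) : t1 e (n : OnePoint ℕ) = ap e (en n) := rfl
lemma t1_infty (e : Y) : t1 e OnePoint.infty = 0 := rfl

/-- the operator into `c` -/
noncomputable def T1 : E →L[ℝ] C(OnePoint ℕ, ℝ) :=
  LinearMap.mkContinuous
    { toFun := fun e : E => t1 (e : Y)
      map_add' := by
        intro x y
        ext k
        induction k using OnePoint.rec with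
        | infty =>
          rw [ContinuousMap.add_apply, t1_infty, t1_infty, t1_infty, add_zero]
        | coe n =>
          rw [ContinuousMap.add_apply, t1_coe, t1_coe, t1_coe]
          exact ap_add _ _ _
      map_smul' := by
        intro r x
        ext k
        induction k using OnePoint.rec with
        | infty =>
          rw [RingHom.id_apply, ContinuousMap.smul_apply, t1_infty, t1_infty, smul_zero]
        | coe n =>
          rw [RingHom.id_apply, ContinuousMap.smul_apply, t1_coe, t1_coe]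
          exact ap_smul _ _ _ } (Real.sqrt 2) (by
    intro e
    rw [ContinuousMap.norm_le _ (by positivity)]
    intro k
    induction k using OnePoint.rec with
    | infty =>
      have : ‖(0:ℝ)‖ ≤ Real.sqrt 2 * ‖e‖ := by rw [norm_zero]; positivity
      exact this
    | coe n =>
      have h1 : ‖ap (e : Y) (en n)‖ ≤ Real.sqrt 2 * ‖e‖ := by
        rw [← E_zc (en n) (c n) e]
        calc ‖ap (e : Y) (zc (en n) (c n))‖ ≤ ‖(e : Y)‖ * ‖T (zc (en n) (c n))‖ := ap_le _ _
          _ ≤ ‖(e : Y)‖ * Real.sqrt 2 := by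
            gcongr
            exact T_en n
          _ = Real.sqrt 2 * ‖e‖ := mul_comm _ _
      exact h1)

lemma T1_norm : ‖T1‖ ≤ Real.sqrt 2 := LinearMap.mkContinuous_norm_le _ (Real.sqrt_nonneg _) _

lemma T1_coe (e : E) (n : ℕ) : T1 e (n : OnePoint ℕ) = ap (e : Y) (en n) := rfl

lemma no_ext : ¬ ∃ S : Y →L[ℝ] C(OnePoint ℕ, ℝ), (∀ e : ↥E, S (e : Y) = T1 e) ∧ ‖S‖ ≤ ‖T1‖ := by
  rintro ⟨S, hS1, hS2⟩
  -- values of S (co 0)
  have hval : ∀ n : ℕ, S (co 0) (n : OnePoint ℕ) = c n := by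
    intro n
    obtain ⟨z, hz, hzn⟩ := refl_Y' ((ContinuousMap.evalCLM ℝ (n : OnePoint ℕ) : C(OnePoint ℕ, ℝ) →L[ℝ] ℝ).comp S)
    have hz' : ∀ x : Y, S x (n : OnePoint ℕ) = ap x z := hz
    have hnorm : ‖T z‖ ≤ Real.sqrt 2 := by
      refine hzn.trans ?_
      apply ContinuousLinearMap.opNorm_le_bound _ (by positivity)
      intro x
      calc ‖S x (n : OnePoint ℕ)‖ ≤ ‖S x‖ := (S x).norm_coe_le_norm _
        _ ≤ ‖S‖ * ‖x‖ := S.le_opNorm x
        _ ≤ Real.sqrt 2 * ‖x‖ := by gcongr; exact hS2.trans T1_norm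
    have hcoord : ∀ m, z (m+1) = en n (m+1) := by
      intro m
      have h1 := hz' (co (m+1))
      rw [co_apply] at h1
      rw [← h1]
      have h2 : S (co (m+1)) = T1 ⟨co (m+1), co_mem m⟩ := hS1 ⟨co (m+1), co_mem m⟩
      rw [h2, T1_coe, co_apply]
    have h0 : S (co 0) (n : OnePoint ℕ) = z 0 := by
      rw [hz' (co 0), co_apply]
    rw [h0]
    have h2 : ‖T z‖ ^ 2 ≤ 2 := by
      calc ‖T z‖ ^ 2 ≤ Real.sqrt 2 ^ 2 := by gcongr
        _ = 2 := Real.sq_sqrt (by norm_num)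
    rw [T_sq] at h2
    have h3 : 1 ≤ ‖z - (z 0) • u‖ := by
      have h4 := abs_le_H (z - (z 0) • u) (n+1)
      rw [lp.coeFn_sub, Pi.sub_apply, lp.coeFn_smul, Pi.smul_apply, u_succ, hcoord, en_self] at h4
      simpa using h4
    have h5 : ‖bb n z‖ ^ 2 = 1 + (η n * (z 0 - c n)) ^ 2 := by
      rw [Complex.sq_norm, Complex.normSq_apply]
      simp only [bb]
      rw [hcoord, en_self]
      ring
    have h6 := bb_le_b z n
    have h7 : ‖bb n z‖ ^ 2 ≤ ‖b z‖ ^ 2 := by gcongr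
    have h8 : 1 ≤ ‖z - (z 0) • u‖ ^ 2 := by nlinarith
    have h9 : (η n * (z 0 - c n)) ^ 2 ≤ 0 := by linarith
    have h10 : η n * (z 0 - c n) = 0 := by nlinarith [sq_nonneg (η n * (z 0 - c n))]
    have h11 := (mul_eq_zero.mp h10).resolve_left (η_pos n).ne'
    linarith
  have hlim : Tendsto (fun n : ℕ => c n) atTop (𝓝 (S (co 0) OnePoint.infty)) := by
    have h1 : Tendsto (fun n : ℕ => (n : OnePoint ℕ)) atTop (𝓝 OnePoint.infty) := by
      have := OnePoint.tendsto_coe_infty (X := ℕ)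
      rw [Filter.coclosedCompact_eq_cocompact, cocompact_eq_atTop (α := ℕ)] at this
      exact this
    have h2 := ((S (co 0)).continuous.tendsto OnePoint.infty).comp h1
    refine h2.congr (fun n => ?_)
    exact hval n
  have h2 := hlim.comp (tendsto_add_atTop_nat 1)
  have h3 : Tendsto (fun n : ℕ => - c n) atTop (𝓝 (S (co 0) OnePoint.infty)) := by
    refine h2.congr (fun n => ?_)
    simp only [Function.comp, c, pow_succ]
    ring
  have h4 := tendsto_nhds_unique h3 hlim.neg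
  have h5 : S (co 0) OnePoint.infty = 0 := by linarith
  rw [h5] at hlim
  have h6 := hlim.abs
  simp only [abs_c, abs_zero] at h6
  exact absurd (tendsto_nhds_unique h6 tendsto_const_nhds) (by norm_num)


/-- The negation of the preceding statement: In a real reflexive Banach space with Gâteaux differentiable norm, if every operator from a closed subspace E into any C(K) extends to X with norm at most (1+ε) times its own for every ε>0, then each extends with equal norm. -/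
theorem result :
    ¬ (∀ (X : Type) [NormedAddCommGroup X] [NormedSpace ℝ X] [CompleteSpace X],
      Function.Surjective (NormedSpace.inclusionInDoubleDual ℝ X) →
      (∀ x : X, x ≠ 0 → ∃ f : X →L[ℝ] ℝ,
          ∀ v : X, HasLineDerivAt ℝ (fun y : X => ‖y‖) (f v) x v) →
      ∀ E : Subspace ℝ X, IsClosed (E : Set X) →
        (∀ ε : ℝ, 0 < ε →
          ∀ (K : Type) [TopologicalSpace K] [CompactSpace K] [T2Space K]
            (T : ↥E →L[ℝ] C(K, ℝ)),
            ∃ S : X →L[ℝ] C(K, ℝ), (∀ e : ↥E, S (e : X) = T e) ∧ ‖S‖ ≤ (1 + ε) * ‖T‖) →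
        ∀ (K : Type) [TopologicalSpace K] [CompactSpace K] [T2Space K]
          (T : ↥E →L[ℝ] C(K, ℝ)),
          ∃ S : X →L[ℝ] C(K, ℝ), (∀ e : ↥E, S (e : X) = T e) ∧ ‖S‖ ≤ ‖T‖) := by
  intro h
  obtain ⟨S, hS⟩ := h Y refl_Y smooth_Y E closed_E
    (fun ε hε K _ _ _ T0 => EP ε hε K T0) (OnePoint ℕ) T1
  exact no_ext ⟨S, hS⟩

end Pool.Agent.S04302
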