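import Pool.Statements.S04783
-- import your own Pool.Agent.* helpers here

set_option autoImplicit false
open Pool Pool.MP_09fd01_co

namespace Pool.Agent.S04783

/-- adjacency table of the first graph -/
def TA : ℕ := 1163967442554496868596777512788320292

/-- adjacency table of the second graph -/
def TB : ℕ := 758770064674190329269516398407739402

/-- first graph -/
def GA : SimpleGraph (Fin 11) where
  Adj i j := Nat.testBit TA (11 * i.val + j.val) = true
  symm := ⟨by decide +kernel⟩
  loopless := ⟨by decide +kernel⟩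

/-- second graph -/
def GB : SimpleGraph (Fin 11) where
  Adj i j := Nat.testBit TB (11 * i.val + j.val) = true
  symm := ⟨by decide +kernel⟩
  loopless := ⟨by decide +kernel⟩

instance : DecidableRel GA.Adj := fun i j =>
  inferInstanceAs (Decidable (Nat.testBit TA (11 * i.val + j.val) = true))

instance : DecidableRel GB.Adj := fun i j =>
  inferInstanceAs (Decidable (Nat.testBit TB (11 * i.val + j.val) = true))

/-- the minimum dominating sets of the first graph -/
def fA : Fin 11 → Finset (Fin 11) := ![{0, 3, 7}, {2, 3, 7}, {2, 4, 7}, {3, 5, 7}, {1, 5, 8}, {2, 5, 8}, {3, 5, 8}, {2, 6, 8}, {2, 7, 8}, {3, 5, 9}, {3, 5, 10}]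

/-- the minimum dominating sets of the second graph -/
def fB : Fin 11 → Finset (Fin 11) := ![{0, 6, 8}, {3, 4, 8}, {3, 6, 8}, {3, 5, 8}, {2, 3, 5}, {1, 6, 8}, {1, 6, 7}, {1, 5, 6}, {1, 3, 5}, {1, 5, 9}, {1, 5, 10}]

lemma step (G H G' H' : SimpleGraph (Fin 11)) (hG : G = G') (hH : H = H') (f : Fin 11 → Finset (Fin 11))
    (hdom : ∀ a v, v ∈ f a ∨ ∃ u ∈ f a, G'.Adj u v)
    (hcard : ∀ a, (f a).card = 3)
    (hall : ∀ x y z : Fin 11, (∀ v, v ∈ ({x, y, z} : Finset (Fin 11)) ∨
      ∃ u ∈ ({x, y, z} : Finset (Fin 11)), G'.Adj u v) → ∃ a, f a = {x, y, z})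
    (hinj : ∀ a b, f a = f b → a = b)
    (hadj : ∀ a b, H'.Adj a b ↔ ∃ u v, u ∈ f a ∧ v ∉ f a ∧ G'.Adj u v ∧
      f b = insert v ((f a).erase u)) :
    ∃ e : Fin 11 ≃ {S : Finset (Fin 11) //
            (∀ v, v ∈ S ∨ ∃ u ∈ S, G.Adj u v) ∧
            ∀ T : Finset (Fin 11),
              (∀ v, v ∈ T ∨ ∃ u ∈ T, G.Adj u v) → S.card ≤ T.card},
        ∀ a b, H.Adj a b ↔
          ∃ u v, u ∈ (e a).1 ∧ v ∉ (e a).1 ∧ G.Adj u v ∧
            (e b).1 = insert v ((e a).1.erase u) := by
  subst hG hH
  have hsmall : ∀ S : Finset (Fin 11), (∀ v, v ∈ S ∨ ∃ u ∈ S, G.Adj u v) → S.card ≤ 3 →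
      ∃ a, f a = S := by
    intro S hS hc
    have hne : S.card ≠ 0 := by
      intro h0
      rw [Finset.card_eq_zero] at h0
      subst h0
      rcases hS 0 with h | ⟨u, hu, _⟩
      · exact absurd h (Finset.notMem_empty _)
      · exact absurd hu (Finset.notMem_empty _)
    have hcases : S.card = 1 ∨ S.card = 2 ∨ S.card = 3 := by omega
    rcases hcases with h | h | h
    · obtain ⟨x, rfl⟩ := Finset.card_eq_one.mp h
      have e : ({x} : Finset (Fin 11)) = {x, x, x} := by ext; simp
      rw [e] at hS ⊢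
      exact hall x x x hS
    · obtain ⟨x, y, _, rfl⟩ := Finset.card_eq_two.mp h
      have e : ({x, y} : Finset (Fin 11)) = {x, x, y} := by ext; simp
      rw [e] at hS ⊢
      exact hall x x y hS
    · obtain ⟨x, y, z, _, _, _, rfl⟩ := Finset.card_eq_three.mp h
      exact hall x y z hS
  have hmin : ∀ T : Finset (Fin 11), (∀ v, v ∈ T ∨ ∃ u ∈ T, G.Adj u v) → 3 ≤ T.card := by
    intro T hT
    by_contra hlt
    obtain ⟨a, ha⟩ := hsmall T hT (by omega)
    have := hcard a
    rw [ha] at this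
    omega
  refine ⟨Equiv.ofBijective (fun a => ⟨f a, hdom a, fun T hT => by
    rw [hcard a]; exact hmin T hT⟩) ⟨?_, ?_⟩, ?_⟩
  · intro a b hab
    exact hinj a b (congrArg Subtype.val hab)
  · rintro ⟨S, hS, hSmin⟩
    have h3 : S.card ≤ 3 := by
      have := hSmin (f 0) (hdom 0)
      rwa [hcard 0] at this
    obtain ⟨a, ha⟩ := hsmall S hS h3
    exact ⟨a, Subtype.ext ha⟩
  · intro a b
    exact hadj a b


/-- There is a finite graph whose iterated γ-graph sequence (γ-sets as vertices, adjacent when one slides to the other along an edge) eventually repeats up to isomorphism with some period, yet is not eventually constant. -/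
theorem result :
    ∃ (k : ℕ → ℕ) (G : ∀ n, SimpleGraph (Fin (k n))),
      (∀ n, ∃ e : Fin (k (n + 1)) ≃
          {S : Finset (Fin (k n)) //
            (∀ v, v ∈ S ∨ ∃ u ∈ S, (G n).Adj u v) ∧
            ∀ T : Finset (Fin (k n)),
              (∀ v, v ∈ T ∨ ∃ u ∈ T, (G n).Adj u v) → S.card ≤ T.card},
        ∀ a b, (G (n + 1)).Adj a b ↔
          ∃ u v, u ∈ (e a).1 ∧ v ∉ (e a).1 ∧ (G n).Adj u v ∧
            (e b).1 = insert v ((e a).1.erase u)) ∧
      ∃ m p : ℕ, 0 < p ∧ Nonempty (G (m + p) ≃g G m) ∧ IsEmpty (G (m + 1) ≃g G m) := by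
  refine ⟨fun _ => 11, fun n => if n % 2 = 0 then GA else GB, ?_, 0, 2, by norm_num, ?_, ?_⟩
  · intro n
    rcases Nat.mod_two_eq_zero_or_one n with h | h
    · have h1 : (n + 1) % 2 ≠ 0 := by omega
      exact step _ _ GA GB (if_pos h) (if_neg h1) fA (by decide +kernel) (by decide +kernel) (by decide +kernel)
        (by decide +kernel) (by decide +kernel)
    · have h0 : n % 2 ≠ 0 := by omega
      have h1 : (n + 1) % 2 = 0 := by omega
      exact step _ _ GB GA (if_neg h0) (if_pos h1) fB (by decide +kernel) (by decide +kernel) (by decide +kernel)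
        (by decide +kernel) (by decide +kernel)
  · exact ⟨SimpleGraph.Iso.refl⟩
  · refine ⟨fun e => ?_⟩
    have e' : GB ≃g GA := e
    have hd : ∀ v, GA.degree (e' v) = GB.degree v := fun v => SimpleGraph.Iso.degree_eq e' v
    have huniq : ∀ v, GA.degree v = 5 → v = 7 := by decide +kernel
    have d1 : GB.degree 3 = 5 := by decide +kernel
    have d2 : GB.degree 6 = 5 := by decide +kernel
    have h1 := huniq (e' 3) ((hd _).trans d1)
    have h2 := huniq (e' 6) ((hd _).trans d2)
    have h3 := e'.injective (h1.trans h2.symm)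
    exact absurd h3 (by decide)

end Pool.Agent.S04783
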