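import Pool.Statements.S04818
-- import your own Pool.Agent.* helpers here

set_option autoImplicit false
open Pool Pool.MP_0c316d_co

namespace Pool.Agent.S04818

/-- vertex set: seven core vertices and all four-element subsets of the core -/
abbrev VT : Type := Fin 7 ⊕ {s : Finset (Fin 7) // s.card = 4}

/-- the adjacency relation -/
def adjR : VT → VT → Prop
  | Sum.inl x, Sum.inl y => x ≠ y
  | Sum.inl x, Sum.inr s => x ∈ s.1
  | Sum.inr s, Sum.inl x => x ∈ s.1
  | Sum.inr _, Sum.inr _ => False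

/-- core clique on seven vertices, each terminal joined to its four elements -/
def GG : SimpleGraph VT where
  Adj := adjR
  symm := ⟨by
    intro a b h
    rcases a with x | s <;> rcases b with y | t
    · exact Ne.symm h
    · exact h
    · exact h
    · exact h⟩
  loopless := ⟨by
    intro a h
    rcases a with x | s
    · exact h rfl
    · exact h⟩

/-- the terminals -/
def AA : Finset VT := Finset.univ.map Function.Embedding.inr

lemma mem_AA (v : VT) : v ∈ AA ↔ ∃ s, v = Sum.inr s := by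
  constructor
  · intro h
    simp only [AA, Finset.mem_map] at h
    obtain ⟨s, _, hs⟩ := h
    exact ⟨s, hs.symm⟩
  · rintro ⟨s, rfl⟩
    simp [AA]

lemma card_AA : AA.card = 35 := by
  simp [AA, Fintype.card_finset_len]
  decide

lemma conn (a b : {s : Finset (Fin 7) // s.card = 4}) (S : Finset VT)
    (ha : (Sum.inr a : VT) ∉ S) (hb : (Sum.inr b : VT) ∉ S) (hS : S.card < 4) :
    ∃ p : GG.Walk (Sum.inr a) (Sum.inr b), ∀ v ∈ p.support, v ∉ S := by
  have key : ∀ c : {s : Finset (Fin 7) // s.card = 4}, ∃ x ∈ c.1, (Sum.inl x : VT) ∉ S := by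
    intro c
    by_contra hcon
    push Not at hcon
    have h1 : c.1.map (Function.Embedding.inl : Fin 7 ↪ VT) ⊆ S := by
      intro v hv
      rw [Finset.mem_map] at hv
      obtain ⟨x, hx, rfl⟩ := hv
      exact hcon x hx
    have h2 := Finset.card_le_card h1
    rw [Finset.card_map, c.2] at h2
    omega
  obtain ⟨x, hx, hxS⟩ := key a
  obtain ⟨y, hy, hyS⟩ := key b
  have hax : GG.Adj (Sum.inr a) (Sum.inl x) := hx
  have hyb : GG.Adj (Sum.inl y) (Sum.inr b) := hy
  by_cases hxy : x = y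
  · subst hxy
    refine ⟨SimpleGraph.Walk.cons hax (SimpleGraph.Walk.cons hyb SimpleGraph.Walk.nil), ?_⟩
    intro v hv
    simp at hv
    rcases hv with rfl | rfl | rfl <;> assumption
  · have hxy' : GG.Adj (Sum.inl x) (Sum.inl y) := hxy
    refine ⟨SimpleGraph.Walk.cons hax (SimpleGraph.Walk.cons hxy'
      (SimpleGraph.Walk.cons hyb SimpleGraph.Walk.nil)), ?_⟩
    intro v hv
    simp at hv
    rcases hv with rfl | rfl | rfl | rfl <;> assumption

lemma hit (T : GG.Subgraph) (hT : T.coe.IsTree) (hA : (↑AA : Set VT) ⊆ T.verts)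
    (s : {s : Finset (Fin 7) // s.card = 4}) : ∃ x ∈ s.1, (Sum.inl x : VT) ∈ T.verts := by
  have hs : (Sum.inr s : VT) ∈ T.verts := hA (by
    rw [Finset.mem_coe, mem_AA]; exact ⟨s, rfl⟩)
  have hex : ∃ s' : {s : Finset (Fin 7) // s.card = 4}, s' ≠ s := by
    have : 1 < Fintype.card {s : Finset (Fin 7) // s.card = 4} := by
      simp [Fintype.card_finset_len]
      decide
    exact Fintype.exists_ne_of_one_lt_card this s
  obtain ⟨s', hs'⟩ := hex
  have hs'v : (Sum.inr s' : VT) ∈ T.verts := hA (by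
    rw [Finset.mem_coe, mem_AA]; exact ⟨s', rfl⟩)
  obtain ⟨w⟩ := hT.1.preconnected ⟨Sum.inr s, hs⟩ ⟨Sum.inr s', hs'v⟩
  cases w with
  | nil => exact absurd rfl hs'
  | cons h p =>
    rename_i v
    have hadj : T.Adj (Sum.inr s) v.1 := h
    have hG : GG.Adj (Sum.inr s) v.1 := hadj.adj_sub
    rcases hv : v.1 with x | s2
    · rw [hv] at hG
      refine ⟨x, hG, ?_⟩
      rw [← hv]
      exact v.2
    · rw [hv] at hG
      exact hG.elim


/-- The negation of the preceding statement: For t≥5, k≥2 with m=⌊⌈tk/2⌉/(t−1)⌋: every finite graph with an independent k-connected t-set A has m A-trees meeting only in A, and some such graph has no m+1 of them. -/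
theorem result :
    ¬ (∀ t k : ℕ, 5 ≤ t → 2 ≤ k →
      (∀ (V : Type) [Fintype V] (G : SimpleGraph V) (A : Finset V),
        A.card = t →
        (∀ a ∈ A, ∀ b ∈ A, ¬ G.Adj a b) →
        (∀ a ∈ A, ∀ b ∈ A, a ≠ b → ∀ S : Finset V, a ∉ S → b ∉ S → S.card < k →
          ∃ p : G.Walk a b, ∀ v ∈ p.support, v ∉ S) →
        ∃ T : Fin ((t * k + 1) / 2 / (t - 1)) → G.Subgraph,
          (∀ i, (T i).coe.IsTree ∧ (↑A : Set V) ⊆ (T i).verts ∧
            ∀ v ∈ (T i).verts, ((T i).neighborSet v).ncard = 1 → v ∈ A) ∧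
          (∀ i j, i ≠ j → (T i).verts ∩ (T j).verts ⊆ (↑A : Set V))) ∧
      (∃ (V : Type) (_ : Fintype V) (G : SimpleGraph V) (A : Finset V),
        A.card = t ∧
        (∀ a ∈ A, ∀ b ∈ A, ¬ G.Adj a b) ∧
        (∀ a ∈ A, ∀ b ∈ A, a ≠ b → ∀ S : Finset V, a ∉ S → b ∉ S → S.card < k →
          ∃ p : G.Walk a b, ∀ v ∈ p.support, v ∉ S) ∧
        ¬ ∃ T : Fin ((t * k + 1) / 2 / (t - 1) + 1) → G.Subgraph,
          (∀ i, (T i).coe.IsTree ∧ (↑A : Set V) ⊆ (T i).verts ∧
            ∀ v ∈ (T i).verts, ((T i).neighborSet v).ncard = 1 → v ∈ A) ∧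
          (∀ i j, i ≠ j → (T i).verts ∩ (T j).verts ⊆ (↑A : Set V)))) := by
  intro H
  have H1 := (H 35 4 (by norm_num) (by norm_num)).1 VT GG AA card_AA
    (by
      intro a ha b hb hab
      rw [mem_AA] at ha hb
      obtain ⟨s, rfl⟩ := ha
      obtain ⟨t, rfl⟩ := hb
      exact hab)
    (by
      intro a ha b hb _ S haS hbS hS
      rw [mem_AA] at ha hb
      obtain ⟨s, rfl⟩ := ha
      obtain ⟨t, rfl⟩ := hb
      exact conn s t S haS hbS hS)
  have e : (35 * 4 + 1) / 2 / (35 - 1) = 2 := by norm_num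
  rw [e] at H1
  obtain ⟨T, hT, hd⟩ := H1
  classical
  let W : Fin 2 → Finset (Fin 7) := fun i => Finset.univ.filter (fun x => (Sum.inl x : VT) ∈ (T i).verts)
  have hW : ∀ i, 4 ≤ (W i).card := by
    intro i
    by_contra hcon
    push Not at hcon
    have hc : 4 ≤ (W i)ᶜ.card := by
      rw [Finset.card_compl, Fintype.card_fin]
      omega
    obtain ⟨s, hs, hs4⟩ := Finset.exists_subset_card_eq hc
    obtain ⟨x, hx, hxT⟩ := hit (T i) (hT i).1 (hT i).2.1 ⟨s, hs4⟩
    have := hs hx
    rw [Finset.mem_compl] at this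
    exact this (by simp [W, hxT])
  have hdis : Disjoint (W 0) (W 1) := by
    rw [Finset.disjoint_left]
    intro x h0 h1
    have h0' : (Sum.inl x : VT) ∈ (T 0).verts := by simpa [W] using h0
    have h1' : (Sum.inl x : VT) ∈ (T 1).verts := by simpa [W] using h1
    have := hd 0 1 (by decide) ⟨h0', h1'⟩
    rw [Finset.mem_coe, mem_AA] at this
    obtain ⟨s, hs⟩ := this
    cases hs
  have hle := Finset.card_le_univ (W 0 ∪ W 1)
  rw [Finset.card_union_of_disjoint hdis, Fintype.card_fin] at hle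
  have h0 := hW 0
  have h1 := hW 1
  omega

end Pool.Agent.S04818
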