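import Pool.Statements.S04900
-- import your own Pool.Agent.* helpers here

set_option autoImplicit false
open scoped Pointwise
open Pool Pool.MP_122707_co

namespace Pool.Agent.S04900

/-- The explicit set of 19 elements of `ZMod 444`: the subgroup of order 12 together with a
7-element part of a neighbouring coset. -/
def Aex : Finset (ZMod 444) :=
  (Finset.range 12).image (fun j => ((37 * j : ℕ) : ZMod 444)) ∪
  ({0,1,2,5,6,8,9} : Finset ℕ).image (fun j => ((37 * j + 1 : ℕ) : ZMod 444))

lemma Aex_card : Aex.card = 19 := by decide +kernel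

lemma Aex_img : (Finset.image (fun p : ZMod 444 × ZMod 444 => p.1 + p.2)
    ((Aex ×ˢ Aex).filter (fun p : ZMod 444 × ZMod 444 => p.1 ≠ p.2))).card = 34 := by
  decide +kernel

abbrev f : ZMod 444 →+* ZMod 37 := ZMod.castHom (show 37 ∣ 444 by norm_num) (ZMod 37)

lemma fib : ∀ x : ZMod 37, ((Finset.univ : Finset (ZMod 444)).filter
   (fun a => f a = x)).card = 12 := by decide +kernel

lemma ker12 : ∀ d : ZMod 444, f d = 0 → 12 * d = 0 := by decide +kernel

def fibr (A : Finset (ZMod 444)) (x : ZMod 37) : Finset (ZMod 444) := A.filter (fun a => f a = x)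

lemma mem_fibr {A : Finset (ZMod 444)} {x : ZMod 37} {a : ZMod 444} :
    a ∈ fibr A x ↔ a ∈ A ∧ f a = x := by
  unfold fibr
  rw [Finset.mem_filter]

lemma fibr_le (A : Finset (ZMod 444)) (x : ZMod 37) : (fibr A x).card ≤ 12 := by
  rw [← fib x]
  exact Finset.card_le_card (Finset.filter_subset_filter _ (Finset.subset_univ _))

lemma N_ge_left (A : Finset (ZMod 444)) (x y : ZMod 37) (hy : 0 < (fibr A y).card) :
    (fibr A x).card ≤ (fibr (A + A) (x + y)).card := by
  obtain ⟨b, hb⟩ := Finset.card_pos.1 hy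
  rw [mem_fibr] at hb
  refine Finset.card_le_card_of_injOn (fun a => a + b) ?_ ?_
  · intro a ha
    have ha' := mem_fibr.1 (Finset.mem_coe.1 ha)
    exact Finset.mem_coe.2 (mem_fibr.2 ⟨Finset.add_mem_add ha'.1 hb.1, by
      rw [map_add, ha'.2, hb.2]⟩)
  · intro a _ a' _ h
    exact add_right_cancel h

lemma N_full (A : Finset (ZMod 444)) (x y : ZMod 37)
    (h : 12 < (fibr A x).card + (fibr A y).card) : 12 ≤ (fibr (A + A) (x + y)).card := by
  rw [← fib (x + y)]
  apply Finset.card_le_card
  intro g hg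
  rw [Finset.mem_filter] at hg
  by_contra hnot
  have hdisj : Disjoint ((fibr A x).image (fun a => g - a)) (fibr A y) := by
    rw [Finset.disjoint_left]
    intro b hb hb'
    rw [Finset.mem_image] at hb
    obtain ⟨a, ha, rfl⟩ := hb
    rw [mem_fibr] at ha hb'
    apply hnot
    rw [mem_fibr]
    refine ⟨?_, hg.2⟩
    have := Finset.add_mem_add ha.1 hb'.1
    rwa [add_sub_cancel] at this
  have hc := Finset.card_union_of_disjoint hdisj
  have hci : ((fibr A x).image (fun a => g - a)).card = (fibr A x).card :=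
    Finset.card_image_of_injective _ (fun a a' haa => by
      simpa using haa)
  have hsub : ((fibr A x).image (fun a => g - a)) ∪ (fibr A y) ⊆
      (Finset.univ : Finset (ZMod 444)).filter (fun a => f a = y) := by
    intro b hb
    rw [Finset.mem_filter]
    refine ⟨Finset.mem_univ _, ?_⟩
    rcases Finset.mem_union.1 hb with hb | hb
    · rw [Finset.mem_image] at hb
      obtain ⟨a, ha, rfl⟩ := hb
      rw [mem_fibr] at ha
      rw [map_sub, hg.2, ha.2]
      ring
    · exact (mem_fibr.1 hb).2
  have hle := Finset.card_le_card hsub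
  rw [fib y, hc, hci] at hle
  omega

lemma N_six (A : Finset (ZMod 444)) (x y : ZMod 37)
    (h5 : (fibr A x).card = 5) (h2 : 2 ≤ (fibr A y).card) :
    6 ≤ (fibr (A + A) (x + y)).card := by
  by_contra hlt
  push Not at hlt
  obtain ⟨b, hb, c, hc, hbc⟩ := Finset.one_lt_card.1 (by omega : 1 < (fibr A y).card)
  rw [mem_fibr] at hb hc
  have key : ∀ e : ZMod 444, e ∈ A → f e = y →
      (fibr A x).image (fun a => a + e) = fibr (A + A) (x + y) := by
    intro e heA hef
    apply Finset.eq_of_subset_of_card_le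
    · intro g hg
      rw [Finset.mem_image] at hg
      obtain ⟨a, ha, rfl⟩ := hg
      rw [mem_fibr] at ha
      rw [mem_fibr]
      exact ⟨Finset.add_mem_add ha.1 heA, by rw [map_add, ha.2, hef]⟩
    · rw [Finset.card_image_of_injective _ (add_left_injective e), h5]
      omega
  have e1 := key b hb.1 hb.2
  have e2 := key c hc.1 hc.2
  have hs : ∑ g ∈ (fibr A x).image (fun a => a + b), g = ∑ g ∈ (fibr A x).image (fun a => a + c), g := by
    rw [e1, e2]
  rw [Finset.sum_image (fun a _ a' _ h => add_right_cancel h),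
    Finset.sum_image (fun a _ a' _ h => add_right_cancel h), Finset.sum_add_distrib,
    Finset.sum_add_distrib, Finset.sum_const, Finset.sum_const, h5] at hs
  have h5d : 5 * (b - c) = 0 := by
    have := add_left_cancel hs
    rw [nsmul_eq_mul, nsmul_eq_mul] at this
    push_cast at this
    rw [mul_sub, this, sub_self]
  have h12d : 12 * (b - c) = 0 := ker12 _ (by rw [map_sub, hb.2, hc.2, sub_self])
  apply hbc
  have : b - c = 5 * (5 * (b - c)) - 2 * (12 * (b - c)) := by ring
  rw [h5d, h12d] at this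
  simpa [sub_eq_zero] using this

lemma dbl_inj : ∀ x y : ZMod 37, x + x = y + y → x = y := by decide +kernel

lemma sum_ge_three {p : ℕ} [Fact p.Prime] (N : ZMod p → ℕ) (u v w : ZMod p) (huv : u ≠ v) (huw : u ≠ w) (hvw : v ≠ w)
    (h1 : 12 ≤ N u) (h2 : 12 ≤ N v) (h3 : 12 ≤ N w) : 35 ≤ ∑ z, N z := by
  have : ∑ z ∈ ({u, v, w} : Finset (ZMod p)), N z ≤ ∑ z, N z :=
    Finset.sum_le_sum_of_subset (Finset.subset_univ _)
  rw [Finset.sum_insert (by simp [huv, huw]), Finset.sum_pair hvw] at this
  omega


lemma layer {p : ℕ} [hpF : Fact p.Prime] (hp : 37 ≤ p) (a N : ZMod p → ℕ) (hsum : ∑ x, a x = 19)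
    (h1 : ∀ x y, 0 < a x → 0 < a y → a x ≤ N (x + y)) (X : Finset (ZMod p))
    (hX : X = Finset.univ.filter (fun x => 0 < a x)) (x0 : ZMod p) (hx0 : x0 ∈ X)
    (hmax : ∀ x ∈ X, a x ≤ a x0) (hk : X.card ≤ 19) :
    19 + a x0 * (X.card - 1) ≤ ∑ z, N z := by
  have hall : ∀ x, a x ≤ a x0 := by
    intro x
    by_cases hx : x ∈ X
    · exact hmax x hx
    · have : ¬ 0 < a x := fun h => hx (by rw [hX]; simp [h])
      omega
  have hzl : ∀ z : ZMod p, ∑ t ∈ Finset.Icc 1 (a x0),
      (if z ∈ (Finset.univ.filter (fun x => t ≤ a x)) + X then 1 else 0) ≤ N z := by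
    intro z
    rw [← Finset.card_filter]
    have hsub : (Finset.Icc 1 (a x0)).filter
        (fun t => z ∈ (Finset.univ.filter (fun x => t ≤ a x)) + X) ⊆ Finset.Icc 1 (N z) := by
      intro t ht
      rw [Finset.mem_filter, Finset.mem_Icc] at ht
      obtain ⟨⟨ht1, -⟩, hz⟩ := ht
      obtain ⟨x, hx, y, hy, rfl⟩ := Finset.mem_add.1 hz
      rw [Finset.mem_filter] at hx
      rw [hX, Finset.mem_filter] at hy
      rw [Finset.mem_Icc]
      have := h1 x y (by omega) hy.2
      omega
    have := Finset.card_le_card hsub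
    simpa using this
  calc 19 + a x0 * (X.card - 1)
      = ∑ t ∈ Finset.Icc 1 (a x0), ((Finset.univ.filter (fun x => t ≤ a x)).card + (X.card - 1)) := by
        rw [Finset.sum_add_distrib, Finset.sum_const, Nat.card_Icc, smul_eq_mul]
        congr 1
        · rw [← hsum]
          have : ∀ x, a x = ∑ t ∈ Finset.Icc 1 (a x0), (if t ≤ a x then 1 else 0) := by
            intro x
            rw [← Finset.card_filter]
            have : (Finset.Icc 1 (a x0)).filter (fun t => t ≤ a x) = Finset.Icc 1 (a x) := by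
              ext t
              rw [Finset.mem_filter, Finset.mem_Icc, Finset.mem_Icc]
              have := hall x
              omega
            rw [this]
            simp
          calc ∑ x, a x = ∑ x, ∑ t ∈ Finset.Icc 1 (a x0), (if t ≤ a x then 1 else 0) :=
                Finset.sum_congr rfl (fun x _ => this x)
            _ = ∑ t ∈ Finset.Icc 1 (a x0), ∑ x, (if t ≤ a x then 1 else 0) := Finset.sum_comm
            _ = _ := by
                apply Finset.sum_congr rfl
                intro t _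
                rw [← Finset.card_filter]
    _ ≤ ∑ t ∈ Finset.Icc 1 (a x0), ((Finset.univ.filter (fun x => t ≤ a x)) + X).card := by
        apply Finset.sum_le_sum
        intro t ht
        rw [Finset.mem_Icc] at ht
        have hne : (Finset.univ.filter (fun x => t ≤ a x)).Nonempty := ⟨x0, by simp [ht.2]⟩
        have hcd := ZMod.cauchy_davenport (p := p) hpF.out hne ⟨x0, hx0⟩
        have hsub : (Finset.univ.filter (fun x => t ≤ a x)) ⊆ X := by
          rw [hX]
          intro x hx
          rw [Finset.mem_filter] at hx ⊢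
          exact ⟨hx.1, by omega⟩
        have hc := Finset.card_le_card hsub
        have hpos : 0 < X.card := Finset.card_pos.2 ⟨x0, hx0⟩
        have hmin : min p ((Finset.univ.filter (fun x => t ≤ a x)).card + X.card - 1) =
            (Finset.univ.filter (fun x => t ≤ a x)).card + X.card - 1 := by
          apply min_eq_right
          omega
        rw [hmin] at hcd
        omega
    _ = ∑ t ∈ Finset.Icc 1 (a x0), ∑ z, (if z ∈ (Finset.univ.filter (fun x => t ≤ a x)) + X then 1 else 0) := by
        apply Finset.sum_congr rfl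
        intro t _
        rw [← Finset.card_filter]
        congr 1
        ext z
        simp
    _ = ∑ z, ∑ t ∈ Finset.Icc 1 (a x0), (if z ∈ (Finset.univ.filter (fun x => t ≤ a x)) + X then 1 else 0) :=
        Finset.sum_comm
    _ ≤ ∑ z, N z := Finset.sum_le_sum (fun z _ => hzl z)

lemma key {p : ℕ} [hpF : Fact p.Prime] (hp : 37 ≤ p)
    (dbl_inj : ∀ x y : ZMod p, x + x = y + y → x = y) (a N : ZMod p → ℕ) (h12 : ∀ x, a x ≤ 12) (hsum : ∑ x, a x = 19)
    (h1 : ∀ x y, 0 < a x → 0 < a y → a x ≤ N (x + y))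
    (h2 : ∀ x y, 12 < a x + a y → 12 ≤ N (x + y))
    (h3 : ∀ x y, a x = 5 → 2 ≤ a y → 6 ≤ N (x + y)) : 35 ≤ ∑ z, N z := by
  obtain ⟨X, hX⟩ : ∃ X : Finset (ZMod p), X = Finset.univ.filter (fun x => 0 < a x) := ⟨_, rfl⟩
  have hsX : ∑ x ∈ X, a x = 19 := by
    rw [← hsum, hX]
    apply Finset.sum_subset (Finset.subset_univ _)
    intro x _ hx
    rw [Finset.mem_filter] at hx
    have : ¬ 0 < a x := fun h => hx ⟨Finset.mem_univ _, h⟩
    omega
  have hXne : X.Nonempty := by
    rw [Finset.nonempty_iff_ne_empty]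
    rintro rfl
    simp at hsX
  obtain ⟨x0, hx0, hmax⟩ := Finset.exists_max_image X a hXne
  have hXpos : ∀ x ∈ X, 1 ≤ a x := by
    intro x hx
    rw [hX, Finset.mem_filter] at hx
    exact hx.2
  have hk : X.card ≤ 19 := by
    rw [← hsX, Finset.card_eq_sum_ones]
    exact Finset.sum_le_sum hXpos
  have hlay := layer hp a N hsum h1 X hX x0 hx0 hmax hk
  have hkM : 19 ≤ X.card * a x0 := by
    rw [← hsX, ← smul_eq_mul]
    exact Finset.sum_le_card_nsmul _ _ _ hmax
  by_contra hcon
  push Not at hcon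
  have hM12 := h12 x0
  have hkp : 0 < X.card := Finset.card_pos.2 hXne
  obtain ⟨k, hkk⟩ : ∃ k, X.card = k + 1 := ⟨X.card - 1, by omega⟩
  rw [hkk] at hlay hkM hk
  rw [Nat.add_sub_cancel] at hlay
  have hMk : a x0 * k ≤ 15 := by omega
  have hM4 : 4 ≤ a x0 := by nlinarith
  have hk3 : k ≤ 3 := by
    by_contra hk4
    have : 4 * 4 ≤ a x0 * k := Nat.mul_le_mul hM4 (by omega)
    omega
  have hk0 : 1 ≤ k := by
    by_contra hk0
    have : k = 0 := by omega
    subst this
    omega
  -- erase x0
  have herase : ∀ x ∈ X, a x + ∑ y ∈ X.erase x, a y = 19 := by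
    intro x hx
    rw [← hsX]
    exact Finset.add_sum_erase X a hx
  interval_cases k
  · -- card 2
    obtain ⟨y, hy⟩ := Finset.card_eq_one.1 (by rw [Finset.card_erase_of_mem hx0, hkk] : (X.erase x0).card = 1)
    have hs := herase x0 hx0
    rw [hy, Finset.sum_singleton] at hs
    have hy' : y ∈ X.erase x0 := by rw [hy]; simp
    have hne : y ≠ x0 := Finset.ne_of_mem_erase hy'
    have hyX := Finset.mem_of_mem_erase hy'
    have hm := hmax y hyX
    have c := sum_ge_three N (x0 + x0) (x0 + y) (y + y)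
      (fun h => hne (add_left_cancel h).symm) (fun h => hne (dbl_inj _ _ h).symm)
      (fun h => hne (add_right_cancel h).symm)
      (h2 _ _ (by omega)) (h2 _ _ (by omega)) (h2 _ _ (by omega))
    omega
  · -- card 3
    obtain ⟨y, w, hyw, hy⟩ := Finset.card_eq_two.1 (by rw [Finset.card_erase_of_mem hx0, hkk] : (X.erase x0).card = 2)
    have hs := herase x0 hx0
    rw [hy, Finset.sum_pair hyw] at hs
    have hy' : y ∈ X.erase x0 := by rw [hy]; simp
    have hw' : w ∈ X.erase x0 := by rw [hy]; simp
    have hne : y ≠ x0 := Finset.ne_of_mem_erase hy'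
    have hnw : w ≠ x0 := Finset.ne_of_mem_erase hw'
    have hm := hmax y (Finset.mem_of_mem_erase hy')
    have hm' := hmax w (Finset.mem_of_mem_erase hw')
    have hM7 : a x0 = 7 := by omega
    have hcases : a y = 7 ∨ a w = 7 ∨ (a y = 6 ∧ a w = 6) := by omega
    rcases hcases with h | h | h
    · have c := sum_ge_three N (x0 + x0) (x0 + y) (y + y)
        (fun h => hne (add_left_cancel h).symm) (fun h => hne (dbl_inj _ _ h).symm)
        (fun h => hne (add_right_cancel h).symm)
        (h2 _ _ (by omega)) (h2 _ _ (by omega)) (h2 _ _ (by omega))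
      omega
    · have c := sum_ge_three N (x0 + x0) (x0 + w) (w + w)
        (fun h => hnw (add_left_cancel h).symm) (fun h => hnw (dbl_inj _ _ h).symm)
        (fun h => hnw (add_right_cancel h).symm)
        (h2 _ _ (by omega)) (h2 _ _ (by omega)) (h2 _ _ (by omega))
      omega
    · have c := sum_ge_three N (x0 + x0) (x0 + y) (x0 + w)
        (fun h => hne (add_left_cancel h).symm) (fun h => hnw (add_left_cancel h).symm)
        (fun h => hyw (add_left_cancel h))
        (h2 _ _ (by omega)) (h2 _ _ (by omega)) (h2 _ _ (by omega))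
      omega
  · -- card 4
    have hM5 : a x0 = 5 := by omega
    rw [hM5] at hmax
    have h4 : ∀ x ∈ X, 4 ≤ a x := by
      intro x hx
      have hs := herase x hx
      have : ∑ y ∈ X.erase x, a y ≤ (X.erase x).card • 5 :=
        Finset.sum_le_card_nsmul _ _ _ (fun y hy => hmax y (Finset.mem_of_mem_erase hy))
      rw [Finset.card_erase_of_mem hx, hkk, smul_eq_mul] at this
      omega
    have hY : 3 ≤ (X.filter (fun x => a x = 5)).card := by
      have : ∑ x ∈ X, a x ≤ ∑ x ∈ X, (4 + if a x = 5 then 1 else 0) := by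
        apply Finset.sum_le_sum
        intro x hx
        have := hmax x hx
        split_ifs <;> omega
      rw [hsX, Finset.sum_add_distrib, Finset.sum_const, ← Finset.card_filter, hkk, smul_eq_mul] at this
      omega
    have hYne : (X.filter (fun x => a x = 5)).Nonempty := Finset.card_pos.1 (by omega)
    have hcd := ZMod.cauchy_davenport (p := p) hpF.out hYne hXne
    have hle : (X.filter (fun x => a x = 5)).card ≤ X.card := Finset.card_filter_le _ _
    rw [hkk] at hcd hle
    have hZ : 6 ≤ ((X.filter (fun x => a x = 5)) + X).card := by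
      refine le_trans ?_ hcd
      apply le_min <;> omega
    have hsum6 : ((X.filter (fun x => a x = 5)) + X).card • 6 ≤
        ∑ z ∈ (X.filter (fun x => a x = 5)) + X, N z := by
      apply Finset.card_nsmul_le_sum
      intro z hz
      obtain ⟨x, hx, y, hy, rfl⟩ := Finset.mem_add.1 hz
      rw [Finset.mem_filter] at hx
      have := h4 y hy
      exact h3 x y hx.2 (by omega)
    have htot : ∑ z ∈ (X.filter (fun x => a x = 5)) + X, N z ≤ ∑ z, N z :=
      Finset.sum_le_sum_of_subset (Finset.subset_univ _)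
    rw [smul_eq_mul] at hsum6
    omega

instance : Fact (Nat.Prime 37) := ⟨by norm_num⟩

lemma rho_ge (A : Finset (ZMod 444)) (hA : A.card = 19) : 35 ≤ (A + A).card := by
  have e1 : A.card = ∑ x : ZMod 37, (fibr A x).card :=
    Finset.card_eq_sum_card_fiberwise (f := f) (fun _ _ => by simp)
  have e2 : (A + A).card = ∑ x : ZMod 37, (fibr (A + A) x).card :=
    Finset.card_eq_sum_card_fiberwise (f := f) (fun _ _ => by simp)
  rw [e2]
  exact key (le_refl 37) dbl_inj (fun x => (fibr A x).card) (fun z => (fibr (A + A) z).card) (fibr_le A)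
    (by rw [← e1, hA]) (fun x y _ hy => N_ge_left A x y hy) (fun x y h => N_full A x y h)
    (fun x y h5 h2 => N_six A x y h5 h2)


/-- The negation of the preceding statement: For 3 ≤ m ≤ n, the least restricted sumset size of an m-subset of Z_n equals min(least full sumset size, 2m−4) if n,m both even or (2m−2) divides n with m−1 not a power of 2, and min(that, 2m−3) otherwise. -/
theorem result :
    ¬ (∀ n m : ℕ, 3 ≤ m → m ≤ n →
      (((2 ∣ n ∧ 2 ∣ m) ∨ ((2 * m - 2) ∣ n ∧ ¬ ∃ k : ℕ, m - 1 = 2 ^ k)) →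
        sInf {s : ℕ | ∃ A : Finset (ZMod n), A.card = m ∧
          (Finset.image (fun p : ZMod n × ZMod n => p.1 + p.2)
            ((A ×ˢ A).filter (fun p : ZMod n × ZMod n => p.1 ≠ p.2))).card = s}
        = min (sInf {s : ℕ | ∃ A : Finset (ZMod n), A.card = m ∧ (A + A).card = s})
            (2 * m - 4)) ∧
      (¬ ((2 ∣ n ∧ 2 ∣ m) ∨ ((2 * m - 2) ∣ n ∧ ¬ ∃ k : ℕ, m - 1 = 2 ^ k)) →
        sInf {s : ℕ | ∃ A : Finset (ZMod n), A.card = m ∧
          (Finset.image (fun p : ZMod n × ZMod n => p.1 + p.2)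
            ((A ×ˢ A).filter (fun p : ZMod n × ZMod n => p.1 ≠ p.2))).card = s}
        = min (sInf {s : ℕ | ∃ A : Finset (ZMod n), A.card = m ∧ (A + A).card = s})
            (2 * m - 3))) := by
  intro h
  have hcond : ¬ ((2 ∣ 444 ∧ 2 ∣ 19) ∨ ((2 * 19 - 2) ∣ 444 ∧ ¬ ∃ k : ℕ, 19 - 1 = 2 ^ k)) := by
    rintro (⟨-, h2⟩ | ⟨h2, -⟩)
    · revert h2; decide
    · revert h2; decide
  have h' := (h 444 19 (by norm_num) (by norm_num)).2 hcond
  have hle : sInf {s : ℕ | ∃ A : Finset (ZMod 444), A.card = 19 ∧
          (Finset.image (fun p : ZMod 444 × ZMod 444 => p.1 + p.2)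
            ((A ×ˢ A).filter (fun p : ZMod 444 × ZMod 444 => p.1 ≠ p.2))).card = s} ≤ 34 :=
    Nat.sInf_le ⟨Aex, Aex_card, Aex_img⟩
  have hge : 35 ≤ sInf {s : ℕ | ∃ A : Finset (ZMod 444), A.card = 19 ∧ (A + A).card = s} := by
    apply le_csInf
    · exact ⟨_, Aex, Aex_card, rfl⟩
    · rintro s ⟨A, hA, rfl⟩
      exact rho_ge A hA
  rw [h'] at hle
  have := le_min hge (le_refl (2 * 19 - 3))
  omega

end Pool.Agent.S04900
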