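import Pool.Statements.S04928
-- import your own Pool.Agent.* helpers here

set_option autoImplicit false
open Pool Pool.MP_13cbaf_co

namespace Pool.Agent.S04928

open Polynomial

/-- the cell of a vertex: two single vertices and two cells of size four -/
def cell (i : Fin 10) : Fin 4 :=
  if i.val = 0 then 0 else if i.val = 1 then 1 else if i.val < 6 then 2 else 3

/-- cell adjacency (with loops) of the first graph -/
def M1 (c d : Fin 4) : Bool :=
  Nat.testBit (5 + 16 * 10 + 256 * 13 + 4096 * 14) (4 * c.val + d.val)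

/-- cell adjacency (with loops) of the second graph -/
def M2 (c d : Fin 4) : Bool :=
  Nat.testBit (7 + 16 * 11 + 256 * 13 + 4096 * 14) (4 * c.val + d.val)

/-- graph from a cell adjacency -/
def gr (M : Fin 4 → Fin 4 → Bool) (hM : ∀ c d, M c d = M d c) : SimpleGraph (Fin 10) where
  Adj i j := i ≠ j ∧ M (cell i) (cell j) = true
  symm := ⟨fun i j h => ⟨h.1.symm, by rw [hM]; exact h.2⟩⟩
  loopless := ⟨fun i h => h.1 rfl⟩

instance (M : Fin 4 → Fin 4 → Bool) (hM : ∀ c d, M c d = M d c) :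
    DecidableRel (gr M hM).Adj := fun i j =>
  inferInstanceAs (Decidable (i ≠ j ∧ M (cell i) (cell j) = true))

/-- incidence -/
def NN : Matrix (Fin 10) (Fin 4) ℝ := fun i c => if cell i = c then 1 else 0

/-- second factor -/
def KK (M : Fin 4 → Fin 4 → Bool) : Matrix (Fin 4) (Fin 10) ℝ :=
  fun c j => if M c (cell j) = true then 1 else 0

lemma factor (M : Fin 4 → Fin 4 → Bool) (hM : ∀ c d, M c d = M d c) (hd : ∀ c, M c c = true) :
    (gr M hM).adjMatrix ℝ = NN * KK M - Matrix.scalar (Fin 10) (1 : ℝ) := by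
  ext i j
  rw [Matrix.sub_apply, Matrix.mul_apply]
  have h1 : ∑ c, NN i c * KK M c j = KK M (cell i) j := by
    simp [NN]
  rw [h1]
  unfold KK
  rw [SimpleGraph.adjMatrix_apply]
  by_cases hij : i = j
  · subst hij
    have h2 : ¬ (gr M hM).Adj i i := fun h => h.1 rfl
    rw [if_neg h2, if_pos (hd _)]
    simp
  · by_cases hc : M (cell i) (cell j) = true
    · have h2 : (gr M hM).Adj i j := ⟨hij, hc⟩
      rw [if_pos h2, if_pos hc]
      simp [hij]
    · have h2 : ¬ (gr M hM).Adj i j := fun h => hc h.2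
      rw [if_neg h2, if_neg hc]
      simp [hij]

lemma cp (M : Fin 4 → Fin 4 → Bool) (hM : ∀ c d, M c d = M d c) (hd : ∀ c, M c c = true) :
    ((gr M hM).adjMatrix ℝ).charpoly = (X ^ 6 * (KK M * NN).charpoly).comp (X + C 1) := by
  rw [factor M hM hd, Matrix.charpoly_sub_scalar, Matrix.charpoly_mul_comm_of_le _ _ (by simp)]
  simp

lemma kn (M : Fin 4 → Fin 4 → Bool) (c d : Fin 4) :
    (KK M * NN) c d =
      (((Finset.univ.filter (fun i : Fin 10 => M c (cell i) = true ∧ cell i = d)).card : ℕ) : ℝ) := by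
  rw [Matrix.mul_apply, Finset.card_filter]
  push_cast
  apply Finset.sum_congr rfl
  intro i _
  unfold KK NN
  by_cases h1 : M c (cell i) = true <;> by_cases h2 : cell i = d <;> simp [h1, h2]

lemma q1 : KK M1 * NN = !![1, 0, 4, 0; 0, 1, 0, 4; 1, 0, 4, 4; 0, 1, 4, 4] := by
  ext c d
  rw [kn]
  have h : (Finset.univ.filter (fun i : Fin 10 => M1 c (cell i) = true ∧ cell i = d)).card =
    (![![1, 0, 4, 0], ![0, 1, 0, 4], ![1, 0, 4, 4], ![0, 1, 4, 4]] : Fin 4 → Fin 4 → ℕ) c d := by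
    revert c d
    decide
  rw [h]
  fin_cases c <;> fin_cases d <;> simp

lemma q2 : KK M2 * NN = !![1, 1, 4, 0; 1, 1, 0, 4; 1, 0, 4, 4; 0, 1, 4, 4] := by
  ext c d
  rw [kn]
  have h : (Finset.univ.filter (fun i : Fin 10 => M2 c (cell i) = true ∧ cell i = d)).card =
    (![![1, 1, 4, 0], ![1, 1, 0, 4], ![1, 0, 4, 4], ![0, 1, 4, 4]] : Fin 4 → Fin 4 → ℕ) c d := by
    revert c d
    decide
  rw [h]
  fin_cases c <;> fin_cases d <;> simp

lemma hM1 : ∀ c d, M1 c d = M1 d c := by decide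
lemma hM2 : ∀ c d, M2 c d = M2 d c := by decide
lemma hd1 : ∀ c, M1 c c = true := by decide
lemma hd2 : ∀ c, M2 c c = true := by decide

lemma c1 : (KK M1 * NN).charpoly = X ^ 4 - 10 * X ^ 3 + 9 * X ^ 2 + 32 * X - 16 := by
  rw [q1]
  simp [Matrix.charpoly, Matrix.charmatrix, Matrix.det_succ_row_zero, Fin.sum_univ_succ,
    Fin.succAbove, Matrix.submatrix]
  rw [show (C (4 : ℝ) : ℝ[X]) = 4 from map_ofNat C 4]
  ring

lemma c2 : (KK M2 * NN).charpoly = X ^ 4 - 10 * X ^ 3 + 8 * X ^ 2 + 40 * X - 48 := by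
  rw [q2]
  simp [Matrix.charpoly, Matrix.charmatrix, Matrix.det_succ_row_zero, Fin.sum_univ_succ,
    Fin.succAbove, Matrix.submatrix]
  rw [show (C (4 : ℝ) : ℝ[X]) = 4 from map_ofNat C 4]
  ring

/-- the multiset of eigenvalues of the first graph -/
noncomputable def s1 : Multiset ℝ := {-1, -1, -1, -1, -1, -1, (-1 + √17) / 2, (-1 - √17) / 2,
  (7 + √65) / 2, (7 - √65) / 2}

/-- the multiset of eigenvalues of the second graph -/
noncomputable def s2 : Multiset ℝ := {-1, -1, -1, -1, -1, -1, 1, -3, 4 + √13, 4 - √13}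

lemma r1 : ((gr M1 hM1).adjMatrix ℝ).charpoly.roots = s1 := by
  have h17 : (C (√17) : ℝ[X]) * C (√17) = 17 := by
    rw [← C_mul, Real.mul_self_sqrt (by norm_num)]; exact map_ofNat C 17
  have h65 : (C (√65) : ℝ[X]) * C (√65) = 65 := by
    rw [← C_mul, Real.mul_self_sqrt (by norm_num)]; exact map_ofNat C 65
  have h2 : (C (1 / 2 : ℝ) : ℝ[X]) * 2 = 1 := by
    rw [show (2 : ℝ[X]) = C 2 from (map_ofNat C 2).symm, ← C_mul]; norm_num
  have e : ((gr M1 hM1).adjMatrix ℝ).charpoly = (s1.map (fun a => X - C a)).prod := by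
    rw [cp M1 hM1 hd1, c1, s1]
    simp only [Multiset.insert_eq_cons, Multiset.map_cons, Multiset.map_singleton,
      Multiset.prod_cons, Multiset.prod_singleton]
    have a1 : (C ((-1 + √17) / 2) : ℝ[X]) = C (1 / 2) * (-1 + C (√17)) := by
      rw [← C_1, ← C_neg, ← C_add, ← C_mul]; congr 1; ring
    have a2 : (C ((-1 - √17) / 2) : ℝ[X]) = C (1 / 2) * (-1 - C (√17)) := by
      rw [← C_1, ← C_neg, ← C_sub, ← C_mul]; congr 1; ring
    have a3 : (C ((7 + √65) / 2) : ℝ[X]) = C (1 / 2) * (7 + C (√65)) := by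
      rw [show (7 : ℝ[X]) = C 7 from (map_ofNat C 7).symm, ← C_add, ← C_mul]; congr 1; ring
    have a4 : (C ((7 - √65) / 2) : ℝ[X]) = C (1 / 2) * (7 - C (√65)) := by
      rw [show (7 : ℝ[X]) = C 7 from (map_ofNat C 7).symm, ← C_sub, ← C_mul]; congr 1; ring
    rw [a1, a2, a3, a4, C_neg, C_1]
    simp only [mul_comp, pow_comp, X_comp, sub_comp, add_comp, ofNat_comp]
    generalize (C (√17) : ℝ[X]) = w at *
    generalize (C (√65) : ℝ[X]) = z at *
    generalize (C (1 / 2 : ℝ) : ℝ[X]) = t at *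
    have f1 : (X - t * (-1 + w)) * (X - t * (-1 - w)) = (X : ℝ[X]) ^ 2 + X - 4 := by
      linear_combination (X - 4 * (t * 2 + 1)) * h2 - t ^ 2 * h17
    have f2 : (X - t * (7 + z)) * (X - t * (7 - z)) = (X : ℝ[X]) ^ 2 - 7 * X - 4 := by
      linear_combination (-7 * X - 4 * (t * 2 + 1)) * h2 - t ^ 2 * h65
    linear_combination (-(X + 1) ^ 6 * ((X - t * (7 + z)) * (X - t * (7 - z)))) * f1 -
      (X + 1) ^ 6 * (X ^ 2 + X - 4) * f2
  rw [e, roots_multiset_prod_X_sub_C]

lemma r2 : ((gr M2 hM2).adjMatrix ℝ).charpoly.roots = s2 := by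
  have h13 : (C (√13) : ℝ[X]) * C (√13) = 13 := by
    rw [← C_mul, Real.mul_self_sqrt (by norm_num)]; exact map_ofNat C 13
  have e : ((gr M2 hM2).adjMatrix ℝ).charpoly = (s2.map (fun a => X - C a)).prod := by
    rw [cp M2 hM2 hd2, c2, s2]
    simp only [Multiset.insert_eq_cons, Multiset.map_cons, Multiset.map_singleton,
      Multiset.prod_cons, Multiset.prod_singleton]
    have a1 : (C (-3 : ℝ) : ℝ[X]) = -3 := by
      rw [C_neg]; congr 1
    have a3 : (C (4 + √13) : ℝ[X]) = 4 + C (√13) := by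
      rw [C_add]; congr 1
    have a4 : (C (4 - √13) : ℝ[X]) = 4 - C (√13) := by
      rw [C_sub]; congr 1
    rw [a1, a3, a4, C_neg, C_1]
    simp only [mul_comp, pow_comp, X_comp, sub_comp, add_comp, ofNat_comp]
    generalize (C (√13) : ℝ[X]) = w at *
    have f1 : (X - (4 + w)) * (X - (4 - w)) = (X : ℝ[X]) ^ 2 - 8 * X + 3 := by
      linear_combination - h13
    linear_combination (-(X + 1) ^ 6 * (X - 1) * (X + 3)) * f1
  rw [e, roots_multiset_prod_X_sub_C]

/-- The negation of the preceding statement: For every finite simple graph G and non-adjacent distinct vertices u,v, adding the edge uv does not decrease the sum of squares of the positive adjacency eigenvalues (counted with multiplicity). -/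
theorem result :
    ¬ (∀ (n : ℕ) (G H : SimpleGraph (Fin n)) [DecidableRel G.Adj] [DecidableRel H.Adj]
      (u v : Fin n), u ≠ v → ¬ G.Adj u v →
      (∀ a b : Fin n, H.Adj a b ↔ (G.Adj a b ∨ (a = u ∧ b = v) ∨ (a = v ∧ b = u))) →
      (((G.adjMatrix ℝ).charpoly.roots.filter (fun x : ℝ => 0 < x)).map
          (fun x : ℝ => x ^ 2)).sum ≤
      (((H.adjMatrix ℝ).charpoly.roots.filter (fun x : ℝ => 0 < x)).map
          (fun x : ℝ => x ^ 2)).sum) := by
  intro H
  have h17a : √17 < 33 / 8 := by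
    rw [Real.sqrt_lt' (by norm_num)]; norm_num
  have h17b : 1 < √17 := by
    rw [Real.lt_sqrt (by norm_num)]; norm_num
  have h65a : 8.06 < √65 := by
    rw [Real.lt_sqrt (by norm_num)]; norm_num
  have h13a : √13 < 4 := by
    rw [Real.sqrt_lt' (by norm_num)]; norm_num
  have h13b : 0 < √13 := Real.sqrt_pos.mpr (by norm_num)
  have s17 : √17 ^ 2 = 17 := Real.sq_sqrt (by norm_num)
  have s65 : √65 ^ 2 = 65 := Real.sq_sqrt (by norm_num)
  have s13 : √13 ^ 2 = 13 := Real.sq_sqrt (by norm_num)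
  have h := H 10 (gr M1 hM1) (gr M2 hM2) 0 1 (by decide) (by decide) (by decide)
  rw [r1, r2, s1, s2] at h
  have p1 : (0 : ℝ) < (-1 + √17) / 2 := by linarith
  have p2 : ¬ (0 : ℝ) < (-1 - √17) / 2 := by linarith
  have p3 : (0 : ℝ) < (7 + √65) / 2 := by linarith
  have p4 : ¬ (0 : ℝ) < (7 - √65) / 2 := by linarith
  have p5 : (0 : ℝ) < 4 + √13 := by linarith
  have p6 : (0 : ℝ) < 4 - √13 := by linarith
  have p7 : ¬ (0 : ℝ) < -1 := by norm_num
  have p8 : ¬ (0 : ℝ) < -3 := by norm_num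
  have p9 : (0 : ℝ) < 1 := by norm_num
  simp only [Multiset.insert_eq_cons, Multiset.filter_cons, Multiset.filter_singleton, p1, p2, p3,
    p4, p5, p6, p7, p8, p9, if_true, if_false] at h
  simp only [Multiset.map_add, Multiset.map_singleton, Multiset.sum_add, Multiset.sum_singleton,
    Multiset.map_zero, Multiset.sum_zero, Multiset.empty_eq_zero, zero_add, add_zero] at h
  nlinarith

end Pool.Agent.S04928
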