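import Pool.Statements.S05024
-- import your own Pool.Agent.* helpers here

set_option autoImplicit false
open Pool Pool.MP_1a8fe4_co

namespace Pool.Agent.S05024


/-- the counterexample set -/
def A0 : Finset (ZMod 11) := {0, 1, 2, 4, 5, 7}

lemma cardA0 : A0.card = 6 := by decide
lemma sumsA0 : ((A0.powersetCard 3).image (fun s => ∑ x ∈ s, x)).card = 10 := by decide +kernel
lemma notAP : ∀ a d : ZMod 11, A0 ≠ (Finset.range 6).image (fun i => a + i • d) := by
  decide +kernel

/-- The negation of the preceding statement: For a finite abelian group G, an m-subset A and 3 ≤ h ≤ m−1 with smallest prime divisor of ∣G∣ exceeding hm−h²+1: sums of h distinct elements of A number exactly hm−h²+1 iff h=1, h=m−1, the h=2,m=4 square case, or A is an arithmetic progression. -/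
theorem result :
    ¬ (∀ (G : Type) [AddCommGroup G] [Fintype G] [DecidableEq G] (A : Finset G) (h : ℕ),
      3 ≤ h → h + 1 ≤ A.card →
      h * A.card - h ^ 2 + 1 < Nat.minFac (Fintype.card G) →
      (((A.powersetCard h).image (fun s => ∑ x ∈ s, x)).card = h * A.card - h ^ 2 + 1 ↔
        (h = 1 ∨ h = A.card - 1 ∨
          (h = 2 ∧ A.card = 4 ∧
            ∃ a d₁ d₂ : G, A = {a, a + d₁, a + d₂, a + d₁ + d₂}) ∨
          ∃ a d : G, A = (Finset.range A.card).image (fun i => a + i • d)))) := by
  intro H
  have h1 := H (ZMod 11) A0 3 le_rfl (by rw [cardA0]; norm_num) (by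
    rw [cardA0, ZMod.card, Nat.Prime.minFac_eq (by norm_num)]; norm_num)
  rw [cardA0] at h1
  have h2 := h1.1 sumsA0
  rcases h2 with h | h | ⟨h, _⟩ | ⟨a, d, h⟩
  · exact absurd h (by norm_num)
  · exact absurd h (by norm_num)
  · exact absurd h (by norm_num)
  · exact notAP a d h

end Pool.Agent.S05024
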