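import Pool.Statements.S05042
-- import your own Pool.Agent.* helpers here

set_option autoImplicit false
open Sym2
open Pool Pool.MP_1b5659_co

namespace Pool.Agent.S05042


/-! ### The two graphs: two wheels `W₅` glued (2-sum) at `0, 1`, and the same with the second wheel
twisted -/

def ga : Fin 14 → Fin 8 := ![1, 1, 1, 0, 2, 3, 4, 1, 1, 1, 0, 5, 6, 7]
def gb : Fin 14 → Fin 8 := ![2, 3, 4, 2, 3, 4, 0, 5, 6, 7, 5, 6, 7, 0]
def ha : Fin 14 → Fin 8 := ![1, 1, 1, 0, 2, 3, 4, 0, 0, 0, 1, 5, 6, 7]
def hb : Fin 14 → Fin 8 := ![2, 3, 4, 2, 3, 4, 0, 5, 6, 7, 5, 6, 7, 1]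

/-- integer configuration -/
def P : Fin 8 → Fin 2 → ℤ := ![![9, 4], ![5, 8], ![0, 7], ![3, 0], ![2, 1], ![5, 7], ![3, 6], ![8, 1]]

/-- integer rigidity matrix -/
def AZ (i : Fin 14) (y : Fin 8 × Fin 2) : ℤ :=
  if y.1 = ga i then P (ga i) y.2 - P (gb i) y.2
  else if y.1 = gb i then P (gb i) y.2 - P (ga i) y.2 else 0

/-- the thirteen chosen columns -/
def cc (k : Fin 13) : Fin 8 × Fin 2 :=
  if k.val = 0 then (1, 1) else
    (⟨(2 + (k.val - 1) / 2) % 8, Nat.mod_lt _ (by decide)⟩, ⟨(k.val - 1) % 2, Nat.mod_lt _ (by decide)⟩)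

/-- packed inverse matrices modulo 101 -/
def bigB : ℕ := 0x2b3196653c8396a45892d1ec25f28cdb86d6ddda0c2a530005980c8d4999280a95d5a0323200cd82c34a6fb9310c00000000647ecdee14c40580006400096586c7c53c65400000000001a416959dbc2000000000005d0256e92405800000000002c35bb89f65800000000000fd9987e99eb6000000000005b9acb6d063a000000000047278239e053400000000007ecdee14c405ac0002900018482194103b18a0003900006350546cd06e000b30191a933250152bab406464019b058694df72621800000000c8fd9bdc29880b0000c80012cb0d8f8a78ca800000000003482d2b3b78400000000000ba04add2480b00000000000586b7713ecb000000000001fb330fd33d6c00000000000b73596da0c7400000000008e4f0473c0a680000000000fd9bdc29880b5800052000309043282076314000720000c6a0a8d9a0dd35b00fcc80941d72d3659abf1401319016960f682efbb00000000191fb37b85310160001900025961b1f14f195000000000006905a5676f080000000000174095ba4901600000000000b0d6ee27d96000000000003f6661fa67ad8000000000016e6b2db418e800000000011c9e08e7814d00000000001fb37b8531016b0000a40006120865040ec628000e400018d4151b341ba6b601f9901283ae5a6cb35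7e280263202d2c1ed05df7600000000323f66f70a6202e905664ec335a59d1a718a800000000000d20b4acede1000000000002e812b749202c0000000000161addc4fb2c000000000007eccc3f4cf5b000000000002dcd65b6831d00000000002393c11cf029a00000000003f66f70a6202cc856732c4d2664a02a575699acc65a790b0d29bee4c4300000b3c8d4999280a95d5a0006464cd82c34a6fb9310c00000000647ecdee14c405800000c8096586c7c53c65400000000001a416959dbc2000000000005d0256e92405800000000002c35bb89f65800000000000fd9987e99eb6000000000005b9acb6d063a000000000047278239e053400000000007ecdee14c405ac0000052018482194103b18a0000072006350546cd06e45b43a9508190256ecc405954a8751d90529ade47810e000000000c8fd9bdc29880b0000019012cb0d8f8a78ca800000000003482d2b3b78400000000000ba04add2480b00000000000586b7713ecb000000000001fb330fd33d6c00000000000b73596da0c7400000000008e4f0473c0a680000000000fd9bdc29880b5800000a4030904328207631400000e400c6a0a8d9a0dd35b0001f99941d72d3659abf1400026336960f682efbb0a11ed1c0794a6b791e0438741c715224b89eae5ad065400000000006905a5676f080000000000174095ba4901600000000000b0d6ee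27d96000000000003f6661fa67ad8000000000016e6b2db418e800000000011c9e08e7814d00000000001fb37b85310176522c2c96209000000000011de8c8ede3940000000000403f7f125a15800000000001420a0ab6299000000000012938e0e6d422000000000002847a1701e980000000000154a888d033563cd4c2992fb522c2c168c94670b8512321423da380f010155d809b065271c1cda8460204300b55b50546db01ecc000c200058ab10dc0201488000540007f2938e0e6d42300000000002ca458592c412000000000023bd191dbc7280000000000807efe24b42b0000000000028414156c532000000000025271c1cda84400000000000508f42e03d300000000000325010198c42ab000220000be71c1cda846880002b00002847b4701e0202abb01360ca4e3839b508c04086016ab6a0a8db603d9800184000b15621b80402910000a8000fe5271c1cda84600000000005948b0b2588240000000000477a323b78e50000000000100fdfc49685600000000000508282ad8a6400000000004a4e3839b508800000000000a11e85c07a60000000000064a020331885560004400017ce3839b508d10000560004b781819a5c3f0140014500c24501009368142a0288a00d4151b6c07b300030800162ac4370080522000150001fca4e3839b508c0000000000b2916164b104800000000008ef46476f1c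a0000000000201fbf892d0ac00000000000a105055b14c80000000000949c70736a11000000000001423d0b80f4c00000000000c9404066310aac000880002f9c70736a11a20000ac00096f030334b87e0280028a01848a020126d028540511400d29bf8a5b7ac999287f566b25010133c429adbbac2a2d949c70736a11800000000016522c2c96209000000000011de8c8ede3940000000000403f7f125a15800000000001420a0ab6299000000000012938e0e6d422000000000002847a1701e9800000000005334ae412bce451f5ade9cc66f70e3640ed8a3c61fb36c1423da380f010002abb9b065271c1cda8460004086b55b50546db01ecc0000184058ab10dc020148800000a807f2938e0e6d42300000000002ca458592c412000000000023bd191dbc7280000000000807efe24b42b0000000000028414156c532000000000025271c1cda84400000000000508f42e03d300000000000325010198c42ab000004400be71c1cda8468800000560306150502c7c8b0d196ae4f916d090d4030229b32d501f6a0a8db603d9800003080b15621b8040291000001500fe5271c1cda84600000000005948b0b2588240000000000477a323b78e50000000000100fdfc49685600000000000508282ad8a6400000000004a4e3839b508800000000000a11e85c07a60000000000064a020331885560000088017ce3839b508d1000000ac04b781819a5c3f014000028ac24501009368142a00051149c5dc5cf901c038489cc9286c7c4c6c4e568a149c70ee4a4e3839b508c0000000000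
def BB (j : Fin 14) (x l : Fin 13) : ℕ := (bigB >>> (7 * (169 * j.val + 13 * x.val + l.val))) % 128

lemma cert : ∀ j : Fin 14, ∀ k l : Fin 13,
    (∑ x : Fin 13, (AZ (j.succAbove k) (cc x) : ZMod 101) * (BB j x l : ZMod 101)) =
      if k = l then 1 else 0 := by
  decide +kernel


/-- rank lower bound from an inverse modulo 101 -/
lemma rank_ge {ι κ : Type} [Fintype ι] [Fintype κ] [DecidableEq ι] [DecidableEq κ]
    (M : Matrix ι κ ℝ) (r : Fin 13 → ι) (c : Fin 13 → κ) (A : Matrix (Fin 13) (Fin 13) ℤ)
    (hA : ∀ k l, M (r k) (c l) = (A k l : ℝ))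
    (B : Matrix (Fin 13) (Fin 13) (ZMod 101))
    (hB : A.map (Int.castRingHom (ZMod 101)) * B = 1) : 13 ≤ M.rank := by
  have hdet : (A.map (Int.castRingHom (ZMod 101))).det ≠ 0 := by
    intro h0
    have h1 := congrArg Matrix.det hB
    rw [Matrix.det_mul, h0, zero_mul, Matrix.det_one] at h1
    have : (0 : ZMod 101) ≠ 1 := by decide
    exact this h1
  have hdet' : A.det ≠ 0 := by
    intro h0
    apply hdet
    have := RingHom.map_det (Int.castRingHom (ZMod 101)) A
    rw [h0, map_zero] at this
    exact this.symm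
  have hsub : M.submatrix r c = A.map (Int.castRingHom ℝ) := by
    ext k l
    exact hA k l
  have hdetR : (M.submatrix r c).det ≠ 0 := by
    rw [hsub]
    have := RingHom.map_det (Int.castRingHom ℝ) A
    have h2 : (A.map (Int.castRingHom ℝ)).det = ((A.det : ℤ) : ℝ) := this.symm
    rw [h2]
    exact_mod_cast hdet'
  have hrank : (M.submatrix r c).rank = 13 := by
    have := Matrix.rank_of_isUnit (M.submatrix r c)
      ((Matrix.isUnit_iff_isUnit_det _).2 (isUnit_iff_ne_zero.2 hdetR))
    rw [this, Fintype.card_fin]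
  have hfac : M.submatrix r c = (Matrix.of fun (k : Fin 13) (i : ι) => if i = r k then (1 : ℝ) else 0) *
      M * (Matrix.of fun (y : κ) (l : Fin 13) => if y = c l then (1 : ℝ) else 0) := by
    ext k l
    rw [Matrix.mul_apply]
    simp only [Matrix.mul_apply, Matrix.of_apply, Matrix.submatrix_apply, ite_mul, one_mul,
      zero_mul, mul_ite, mul_one, mul_zero, Finset.sum_ite_eq', Finset.mem_univ, if_true]
  rw [← hrank, hfac]
  exact (Matrix.rank_mul_le_left _ _).trans (Matrix.rank_mul_le_right _ _)

/-- real configuration -/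
def pR : Fin 8 → Fin 2 → ℝ := fun v c => (P v c : ℝ)

lemma entry (i : Fin 14) (y : Fin 8 × Fin 2) :
    (if y.1 = ga i then pR (ga i) y.2 - pR (gb i) y.2
      else if y.1 = gb i then pR (gb i) y.2 - pR (ga i) y.2 else (0 : ℝ)) = (AZ i y : ℝ) := by
  unfold AZ pR
  split_ifs <;> push_cast <;> rfl

lemma certM (j : Fin 14) :
    (Matrix.of (fun k l : Fin 13 => AZ (j.succAbove k) (cc l))).map (Int.castRingHom (ZMod 101)) *
      Matrix.of (fun x l : Fin 13 => (BB j x l : ZMod 101)) = 1 := by
  ext k l
  rw [Matrix.mul_apply, Matrix.one_apply]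
  exact cert j k l

/-! ### Measurement sets -/

/-- squared length -/
def len (q : Fin 8 → Fin 2 → ℂ) (x y : Fin 8) : ℂ := ∑ c : Fin 2, (q x c - q y c) ^ 2

/-- reflection of the second wheel across the perpendicular bisector of `q 0`, `q 1` -/
noncomputable def refl (q : Fin 8 → Fin 2 → ℂ) : Fin 8 → Fin 2 → ℂ := fun x c =>
  if x.val < 5 then q x c else
    q x c - ((2 * q x 0 - q 0 0 - q 1 0) * (q 0 0 - q 1 0) + (2 * q x 1 - q 0 1 - q 1 1) *
      (q 0 1 - q 1 1)) / ((q 0 0 - q 1 0) ^ 2 + (q 0 1 - q 1 1) ^ 2) * (q 0 c - q 1 c)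

lemma refl_small (q : Fin 8 → Fin 2 → ℂ) (x y : Fin 8) (hx : x.val < 5) (hy : y.val < 5) :
    len (refl q) x y = len q x y := by
  unfold len refl
  simp only [hx, hy, if_true]

lemma refl_big (q : Fin 8 → Fin 2 → ℂ) (hw : (q 0 0 - q 1 0) ^ 2 + (q 0 1 - q 1 1) ^ 2 ≠ 0)
    (x y : Fin 8) (hx : ¬ x.val < 5) (hy : ¬ y.val < 5) :
    len (refl q) x y = len q x y := by
  unfold len refl
  simp only [hx, hy, if_false, Fin.sum_univ_two]
  field_simp
  ring

lemma refl_one (q : Fin 8 → Fin 2 → ℂ) (hw : (q 0 0 - q 1 0) ^ 2 + (q 0 1 - q 1 1) ^ 2 ≠ 0)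
    (x : Fin 8) (hx : ¬ x.val < 5) :
    len (refl q) 1 x = len q 0 x := by
  unfold len refl
  have h1 : ((1 : Fin 8).val < 5) := by decide
  simp only [hx, h1, if_false, if_true, Fin.sum_univ_two]
  field_simp
  ring

lemma refl_zero (q : Fin 8 → Fin 2 → ℂ) (hw : (q 0 0 - q 1 0) ^ 2 + (q 0 1 - q 1 1) ^ 2 ≠ 0)
    (x : Fin 8) (hx : ¬ x.val < 5) :
    len (refl q) 0 x = len q 1 x := by
  unfold len refl
  have h1 : ((0 : Fin 8).val < 5) := by decide
  simp only [hx, h1, if_false, if_true, Fin.sum_univ_two]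
  field_simp
  ring

lemma len_comm (q : Fin 8 → Fin 2 → ℂ) (x y : Fin 8) : len q x y = len q y x := by
  unfold len
  exact Finset.sum_congr rfl (fun c _ => by ring)

lemma meas_GH (q : Fin 8 → Fin 2 → ℂ) (hw : (q 0 0 - q 1 0) ^ 2 + (q 0 1 - q 1 1) ^ 2 ≠ 0)
    (i : Fin 14) : len (refl q) (ha i) (hb i) = len q (ga i) (gb i) := by
  fin_cases i
  · exact refl_small q 1 2 (by decide) (by decide)
  · exact refl_small q 1 3 (by decide) (by decide)
  · exact refl_small q 1 4 (by decide) (by decide)
  · exact refl_small q 0 2 (by decide) (by decide)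
  · exact refl_small q 2 3 (by decide) (by decide)
  · exact refl_small q 3 4 (by decide) (by decide)
  · exact refl_small q 4 0 (by decide) (by decide)
  · exact refl_zero q hw 5 (by decide)
  · exact refl_zero q hw 6 (by decide)
  · exact refl_zero q hw 7 (by decide)
  · exact refl_one q hw 5 (by decide)
  · exact refl_big q hw 5 6 (by decide) (by decide)
  · exact refl_big q hw 6 7 (by decide) (by decide)
  · show len (refl q) 7 1 = len q 7 0
    rw [len_comm, len_comm q 7 0]; exact refl_one q hw 7 (by decide)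

lemma meas_HG (q : Fin 8 → Fin 2 → ℂ) (hw : (q 0 0 - q 1 0) ^ 2 + (q 0 1 - q 1 1) ^ 2 ≠ 0)
    (i : Fin 14) : len (refl q) (ga i) (gb i) = len q (ha i) (hb i) := by
  fin_cases i
  · exact refl_small q 1 2 (by decide) (by decide)
  · exact refl_small q 1 3 (by decide) (by decide)
  · exact refl_small q 1 4 (by decide) (by decide)
  · exact refl_small q 0 2 (by decide) (by decide)
  · exact refl_small q 2 3 (by decide) (by decide)
  · exact refl_small q 3 4 (by decide) (by decide)
  · exact refl_small q 4 0 (by decide) (by decide)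
  · exact refl_one q hw 5 (by decide)
  · exact refl_one q hw 6 (by decide)
  · exact refl_one q hw 7 (by decide)
  · exact refl_zero q hw 5 (by decide)
  · exact refl_big q hw 5 6 (by decide) (by decide)
  · exact refl_big q hw 6 7 (by decide) (by decide)
  · show len (refl q) 7 0 = len q 7 1
    rw [len_comm, len_comm q 7 1]; exact refl_zero q hw 7 (by decide)

/-- transfer of vanishing polynomials -/
lemma transfer (a b a' b' : Fin 14 → Fin 8)
    (h : ∀ q : Fin 8 → Fin 2 → ℂ, (q 0 0 - q 1 0) ^ 2 + (q 0 1 - q 1 1) ^ 2 ≠ 0 →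
      ∀ i, len (refl q) (a' i) (b' i) = len q (a i) (b i))
    (f : MvPolynomial (Fin 14) ℂ)
    (hf : ∀ q : Fin 8 → Fin 2 → ℂ, MvPolynomial.eval (fun i => len q (a' i) (b' i)) f = 0) :
    ∀ q : Fin 8 → Fin 2 → ℂ, MvPolynomial.eval (fun i => len q (a i) (b i)) f = 0 := by
  classical
  -- the composed polynomial
  let L : Fin 14 → MvPolynomial (Fin 8 × Fin 2) ℂ := fun i =>
    ∑ c : Fin 2, (MvPolynomial.X (a i, c) - MvPolynomial.X (b i, c)) ^ 2
  let F : MvPolynomial (Fin 8 × Fin 2) ℂ := MvPolynomial.bind₁ L f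
  let Wp : MvPolynomial (Fin 8 × Fin 2) ℂ :=
    (MvPolynomial.X (0, 0) - MvPolynomial.X (1, 0)) ^ 2 +
      (MvPolynomial.X (0, 1) - MvPolynomial.X (1, 1)) ^ 2
  have hF : ∀ z : Fin 8 × Fin 2 → ℂ, MvPolynomial.eval z F =
      MvPolynomial.eval (fun i => len (fun x c => z (x, c)) (a i) (b i)) f := by
    intro z
    show MvPolynomial.eval z (MvPolynomial.bind₁ L f) = _
    rw [MvPolynomial.eval, MvPolynomial.eval₂Hom_bind₁]
    congr 2
    funext i
    simp [L, len]
  have hW : ∀ z : Fin 8 × Fin 2 → ℂ, MvPolynomial.eval z Wp =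
      (z (0, 0) - z (1, 0)) ^ 2 + (z (0, 1) - z (1, 1)) ^ 2 := by
    intro z; simp [Wp]
  have hprod : Wp * F = 0 := by
    apply MvPolynomial.funext
    intro z
    rw [map_mul, map_zero]
    by_cases hz : (z (0, 0) - z (1, 0)) ^ 2 + (z (0, 1) - z (1, 1)) ^ 2 = 0
    · rw [hW, hz, zero_mul]
    · rw [hF]
      have h1 := h (fun x c => z (x, c)) hz
      have h2 := hf (refl (fun x c => z (x, c)))
      rw [funext h1] at h2
      rw [h2, mul_zero]
  have hW0 : Wp ≠ 0 := by
    intro h0
    have h1 := hW (fun y => if y = (0, 0) then 1 else 0)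
    rw [h0, map_zero] at h1
    norm_num at h1
  have hF0 : F = 0 := by
    rcases mul_eq_zero.1 hprod with h1 | h1
    · exact absurd h1 hW0
    · exact h1
  intro q
  have h1 := hF (fun y => q y.1 y.2)
  rw [hF0, map_zero] at h1
  exact h1.symm

/-! ### The graphs are not isomorphic -/

def adjG (x y : Fin 8) : Bool := decide (∃ i : Fin 14, (ga i = x ∧ gb i = y) ∨ (ga i = y ∧ gb i = x))
def adjH (x y : Fin 8) : Bool := decide (∃ i : Fin 14, (ha i = x ∧ hb i = y) ∨ (ha i = y ∧ hb i = x))

lemma adj_iff (a b : Fin 14 → Fin 8) (hab : ∀ i, a i ≠ b i) (x y : Fin 8) :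
    (SimpleGraph.fromEdgeSet (Set.range (fun i : Fin 14 => s(a i, b i)))).Adj x y ↔
      ∃ i : Fin 14, (a i = x ∧ b i = y) ∨ (a i = y ∧ b i = x) := by
  rw [SimpleGraph.fromEdgeSet_adj]
  constructor
  · rintro ⟨⟨i, hi⟩, _⟩
    refine ⟨i, ?_⟩
    simp only [Sym2.eq_iff] at hi
    exact hi
  · rintro ⟨i, hi⟩
    refine ⟨⟨i, ?_⟩, ?_⟩
    · simp only [Sym2.eq_iff]; exact hi
    · rintro rfl
      rcases hi with ⟨h1, h2⟩ | ⟨h1, h2⟩
      · exact hab i (h1.trans h2.symm)
      · exact hab i (h1.trans h2.symm)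

lemma degG : (Finset.univ.filter (fun y => adjG 1 y = true)).card = 6 := by decide +kernel
lemma degH : ∀ x : Fin 8, (Finset.univ.filter (fun y => adjH x y = true)).card ≤ 5 := by
  decide +kernel
lemma neG : ∀ i, ga i ≠ gb i := by decide
lemma neH : ∀ i, ha i ≠ hb i := by decide
lemma injG : Function.Injective (fun i : Fin 14 => s(ga i, gb i)) := by decide +kernel
lemma injH : Function.Injective (fun i : Fin 14 => s(ha i, hb i)) := by decide +kernel

lemma not_iso : ¬ Nonempty (SimpleGraph.Iso
    (SimpleGraph.fromEdgeSet (Set.range (fun i : Fin 14 => s(ga i, gb i))))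
    (SimpleGraph.fromEdgeSet (Set.range (fun i : Fin 14 => s(ha i, hb i))))) := by
  rintro ⟨φ⟩
  have h1 : (Finset.univ.filter (fun y => adjG 1 y = true)).map φ.toEquiv.toEmbedding ⊆
      Finset.univ.filter (fun y => adjH (φ 1) y = true) := by
    intro z hz
    rw [Finset.mem_map] at hz
    obtain ⟨y, hy, rfl⟩ := hz
    rw [Finset.mem_filter] at hy ⊢
    refine ⟨Finset.mem_univ _, ?_⟩
    have h2 : (SimpleGraph.fromEdgeSet (Set.range (fun i : Fin 14 => s(ga i, gb i)))).Adj 1 y := by
      rw [adj_iff ga gb neG]; exact of_decide_eq_true hy.2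
    have h3 := φ.map_rel_iff.2 h2
    rw [adj_iff ha hb neH] at h3
    exact decide_eq_true h3
  have h4 := Finset.card_le_card h1
  rw [Finset.card_map, degG] at h4
  have h5 := degH (φ 1)
  omega

/-- The negation of the preceding statement: For d≥2, if G (n vertices, m edges) is redundantly generically rigid in R^d and H has n vertices, m edges and the same squared-edge-length measurement variety over C, then G and H are isomorphic. -/
theorem result :
    ¬ (∀ (d n m : ℕ), 2 ≤ d → ∀ (a b a' b' : Fin m → Fin n),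
      (∀ i, a i ≠ b i) → (∀ i, a' i ≠ b' i) →
      Function.Injective (fun i : Fin m => s(a i, b i)) →
      Function.Injective (fun i : Fin m => s(a' i, b' i)) →
      (∃ p : Fin n → Fin d → ℝ,
        (if d + 1 ≤ n then d * n - d * (d + 1) / 2 else n * (n - 1) / 2) ≤
          (Matrix.of (fun (i : Fin m) (y : Fin n × Fin d) =>
            if y.1 = a i then p (a i) y.2 - p (b i) y.2
            else if y.1 = b i then p (b i) y.2 - p (a i) y.2 else (0 : ℝ)) :
              Matrix (Fin m) (Fin n × Fin d) ℝ).rank) →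
      (∀ j : Fin m, ∃ p : Fin n → Fin d → ℝ,
        (if d + 1 ≤ n then d * n - d * (d + 1) / 2 else n * (n - 1) / 2) ≤
          (Matrix.of (fun (i : {i : Fin m // i ≠ j}) (y : Fin n × Fin d) =>
            if y.1 = a i.1 then p (a i.1) y.2 - p (b i.1) y.2
            else if y.1 = b i.1 then p (b i.1) y.2 - p (a i.1) y.2 else (0 : ℝ)) :
              Matrix {i : Fin m // i ≠ j} (Fin n × Fin d) ℝ).rank) →
      (∀ f : MvPolynomial (Fin m) ℂ,
        (∀ q : Fin n → Fin d → ℂ,
          MvPolynomial.eval (fun i : Fin m => ∑ c : Fin d, (q (a i) c - q (b i) c) ^ 2) f = 0) ↔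
        (∀ q : Fin n → Fin d → ℂ,
          MvPolynomial.eval (fun i : Fin m => ∑ c : Fin d, (q (a' i) c - q (b' i) c) ^ 2) f = 0)) →
      Nonempty (SimpleGraph.Iso
        (SimpleGraph.fromEdgeSet (Set.range (fun i : Fin m => s(a i, b i))))
        (SimpleGraph.fromEdgeSet (Set.range (fun i : Fin m => s(a' i, b' i)))))) := by
  intro H
  refine not_iso (H 2 8 14 le_rfl ga gb ha hb neG neH injG injH ?_ ?_ ?_)
  · refine ⟨pR, ?_⟩
    have h13 : (if 2 + 1 ≤ 8 then 2 * 8 - 2 * (2 + 1) / 2 else 8 * (8 - 1) / 2) = 13 := by norm_num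
    rw [h13]
    refine rank_ge _ (fun k => (0 : Fin 14).succAbove k) cc
      (Matrix.of (fun k l : Fin 13 => AZ ((0 : Fin 14).succAbove k) (cc l))) ?_ _ (certM 0)
    intro k l
    exact entry _ _
  · intro j
    refine ⟨pR, ?_⟩
    have h13 : (if 2 + 1 ≤ 8 then 2 * 8 - 2 * (2 + 1) / 2 else 8 * (8 - 1) / 2) = 13 := by norm_num
    rw [h13]
    refine rank_ge _ (fun k => ⟨j.succAbove k, Fin.succAbove_ne j k⟩) cc
      (Matrix.of (fun k l : Fin 13 => AZ (j.succAbove k) (cc l))) ?_ _ (certM j)
    intro k l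
    exact entry _ _
  · intro f
    constructor
    · intro hf
      exact transfer ha hb ga gb (fun q hw i => meas_HG q hw i) f hf
    · intro hf
      exact transfer ga gb ha hb (fun q hw i => meas_GH q hw i) f hf

end Pool.Agent.S05042
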