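import Pool.Statements.S05064
import Pool.Agent.H10Subcube

set_option autoImplicit false
open Classical Filter Topology
open Pool Pool.MP_1cd2aa_co

namespace Pool.Agent.S05064

/-- The negation of the preceding statement: For every m ≥ 7, the largest fraction of 2-dimensional subcubes of the n-cube that can be chosen with no (3m+2)-dimensional subcube having all its 2-subcubes chosen tends to 1 − 1/(m+1)³ as n → ∞. -/
theorem result :
    ¬ (∀ m : ℕ, 7 ≤ m →
      Tendsto
        (fun n : ℕ =>
          ((((Finset.univ : Finset (Finset (Fin n → Option Bool))).filter
              (fun F =>
                (∀ x ∈ F, (Finset.univ.filter (fun i => x i = none)).card = 2) ∧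
                ∀ C : Fin n → Option Bool,
                  (Finset.univ.filter (fun i => C i = none)).card = 3 * m + 2 →
                  ¬ (∀ D : Fin n → Option Bool,
                      (Finset.univ.filter (fun i => D i = none)).card = 2 →
                      (∀ (i : Fin n) (b : Bool), C i = some b → D i = some b) →
                      D ∈ F))).sup Finset.card : ℕ) : ℝ) /
          (((Finset.univ : Finset (Fin n → Option Bool)).filter
              (fun D => (Finset.univ.filter (fun i => D i = none)).card = 2)).card : ℝ))
        atTop (𝓝 (1 - 1 / ((m : ℝ) + 1) ^ 3))) := by
  intro h
  have h13 := h 13 (by norm_num)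
  have hge : ∀ᶠ n : ℕ in atTop, (1 - 1 / 4096 : ℝ) ≤
      ((((Finset.univ : Finset (Finset (Fin n → Option Bool))).filter
              (fun F =>
                (∀ x ∈ F, (Finset.univ.filter (fun i => x i = none)).card = 2) ∧
                ∀ C : Fin n → Option Bool,
                  (Finset.univ.filter (fun i => C i = none)).card = 3 * 13 + 2 →
                  ¬ (∀ D : Fin n → Option Bool,
                      (Finset.univ.filter (fun i => D i = none)).card = 2 →
                      (∀ (i : Fin n) (b : Bool), C i = some b → D i = some b) →
                      D ∈ F))).sup Finset.card : ℕ) : ℝ) /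
          (((Finset.univ : Finset (Fin n → Option Bool)).filter
              (fun D => (Finset.univ.filter (fun i => D i = none)).card = 2)).card : ℝ) := by
    filter_upwards [eventually_ge_atTop 2] with n hn
    obtain ⟨F, hF1, hF2, hF3⟩ := H10sub.construction n 13 (by norm_num)
    have hpos := H10sub.Qpos n hn
    have hsup : F.card ≤ (((Finset.univ : Finset (Finset (Fin n → Option Bool))).filter
              (fun F =>
                (∀ x ∈ F, (Finset.univ.filter (fun i => x i = none)).card = 2) ∧
                ∀ C : Fin n → Option Bool,
                  (Finset.univ.filter (fun i => C i = none)).card = 3 * 13 + 2 →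
                  ¬ (∀ D : Fin n → Option Bool,
                      (Finset.univ.filter (fun i => D i = none)).card = 2 →
                      (∀ (i : Fin n) (b : Bool), C i = some b → D i = some b) →
                      D ∈ F))).sup Finset.card) := by
      refine Finset.le_sup (f := Finset.card) ?_
      rw [Finset.mem_filter]
      refine ⟨Finset.mem_univ _, ?_, ?_⟩
      · intro x hx
        convert hF1 x hx
      · intro C hC hall
        refine hF2 C (by convert hC) ?_
        intro D hD hCD
        exact hall D (by convert hD) hCD
    have hpos' : (0 : ℝ) < (((Finset.univ : Finset (Fin n → Option Bool)).filter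
              (fun D => (Finset.univ.filter (fun i => D i = none)).card = 2)).card : ℝ) := by
      have : 0 < ((Finset.univ : Finset (Fin n → Option Bool)).filter
              (fun D => (Finset.univ.filter (fun i => D i = none)).card = 2)).card := by
        convert hpos
      exact_mod_cast this
    rw [le_div_iff₀ hpos']
    have hF3' : 2 ^ (13 - 1) * ((Finset.univ : Finset (Fin n → Option Bool)).filter
              (fun D => (Finset.univ.filter (fun i => D i = none)).card = 2)).card ≤
        2 ^ (13 - 1) * F.card + ((Finset.univ : Finset (Fin n → Option Bool)).filter
              (fun D => (Finset.univ.filter (fun i => D i = none)).card = 2)).card := by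
      convert hF3
    have hsupR : (F.card : ℝ) ≤ ((((Finset.univ : Finset (Finset (Fin n → Option Bool))).filter
              (fun F =>
                (∀ x ∈ F, (Finset.univ.filter (fun i => x i = none)).card = 2) ∧
                ∀ C : Fin n → Option Bool,
                  (Finset.univ.filter (fun i => C i = none)).card = 3 * 13 + 2 →
                  ¬ (∀ D : Fin n → Option Bool,
                      (Finset.univ.filter (fun i => D i = none)).card = 2 →
                      (∀ (i : Fin n) (b : Bool), C i = some b → D i = some b) →
                      D ∈ F))).sup Finset.card : ℕ) : ℝ) := by
      exact_mod_cast hsup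
    refine le_trans ?_ hsupR
    have hR : (2 : ℝ) ^ (13 - 1) * (((Finset.univ : Finset (Fin n → Option Bool)).filter
              (fun D => (Finset.univ.filter (fun i => D i = none)).card = 2)).card : ℝ) ≤
        2 ^ (13 - 1) * (F.card : ℝ) + (((Finset.univ : Finset (Fin n → Option Bool)).filter
              (fun D => (Finset.univ.filter (fun i => D i = none)).card = 2)).card : ℝ) := by
      exact_mod_cast hF3'
    norm_num at hR ⊢
    linarith
  have := ge_of_tendsto h13 hge
  norm_num at this

end Pool.Agent.S05064
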