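import Pool.Statements.S05082
import Pool.Agent.H10Cut

set_option autoImplicit false
open Pool Pool.MP_1d7c98_co

namespace Pool.Agent.S05082

/-- The negation of the preceding statement: For each k≥2 there is a constant C so that every graph on n vertices with m edges, which stays connected after deleting fewer than k−1 vertices, has a k-colouring cutting at least (k−1)m/k + (k−1)n/(2k) − C edges. -/
theorem result :
    ¬ (∀ k : ℕ, 2 ≤ k → ∃ C : ℝ, ∀ n : ℕ, ∀ G : SimpleGraph (Fin n),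
      (∀ S : Finset (Fin n), S.card + 1 < k →
          (G.induce ((S : Set (Fin n))ᶜ)).Connected) →
      ∃ c : Fin n → Fin k,
        ((k : ℝ) - 1) / k * (G.edgeSet.ncard : ℝ) + ((k : ℝ) - 1) / (2 * k) * (n : ℝ) - C
          ≤ ({p : Fin n × Fin n | G.Adj p.1 p.2 ∧ c p.1 ≠ c p.2}.ncard : ℝ) / 2) := by
  intro h
  obtain ⟨C, hC⟩ := h 16 (by norm_num)
  obtain ⟨t0, ht0⟩ := exists_nat_gt (2 * C)
  obtain ⟨c, hc⟩ := hC (24 * (t0 + 1)) (H10cut.G (t0 + 1)) (by
    intro S hS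
    exact H10cut.conn (t0 + 1) (by omega) S (by omega))
  have h1 := H10cut.cut_le (t0 + 1) c
  have h2 : 2 * (H10cut.G (t0 + 1)).edgeSet.ncard ≤ 600 * (t0 + 1) := by
    rw [← H10cut.pairs_eq]
    exact H10cut.pairs_le (t0 + 1)
  have h1' : (({p : Fin (24 * (t0 + 1)) × Fin (24 * (t0 + 1)) |
      (H10cut.G (t0 + 1)).Adj p.1 p.2 ∧ c p.1 ≠ c p.2}.ncard : ℕ) : ℝ) + 16 * ((t0 : ℝ) + 1)
      ≤ 2 * ((H10cut.G (t0 + 1)).edgeSet.ncard : ℝ) := by
    exact_mod_cast h1
  have h2' : 2 * ((H10cut.G (t0 + 1)).edgeSet.ncard : ℝ) ≤ 600 * ((t0 : ℝ) + 1) := by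
    exact_mod_cast h2
  push_cast at hc
  linarith

end Pool.Agent.S05082
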