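import Pool.Statements.S05110
import Pool.Agent.H10AC

set_option autoImplicit false
open Pool Pool.MP_1f0029_co

namespace Pool.Agent.S05110

/-- The negation of the preceding statement: For all n and k: if some graph on n vertices has exactly k vertex subsets that are cliques (empty set included), then some poset on n points has exactly k subsets that are antichains (empty set included). -/
theorem result :
    ¬ (∀ n k : ℕ,
      (∃ G : SimpleGraph (Fin n),
          {s : Finset (Fin n) | G.IsClique (s : Set (Fin n))}.ncard = k) →
      ∃ (P : Type) (_ : Fintype P) (_ : PartialOrder P),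
          Fintype.card P = n ∧
          {s : Finset P | IsAntichain (· ≤ ·) (s : Set P)}.ncard = k) := by
  intro h
  obtain ⟨P, iF, iP, hcard, hk⟩ := h (17 * 600 + 4)
    (2 ^ (17 * 600 + 1) + 2 ^ (14 * 600) + 2 ^ (13 * 600) + 2 ^ (3 * 600) + 2 ^ (2 * 600) + 1)
    (H10ac.exists_graph 600 (by norm_num))
  exact @H10ac.no_poset 600 (le_refl 600) P iF iP hcard hk

end Pool.Agent.S05110
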