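import Pool.Statements.S05164
-- import your own Pool.Agent.* helpers here

set_option autoImplicit false
open Pool Pool.MP_21d211_co

namespace Pool.Agent.S05164

/-- out-neighbour lists of the 6-vertex digraph -/
def nb : Fin 6 → List (Fin 6)
  | 0 => [1, 3]
  | 1 => [3, 4]
  | 2 => [1, 4]
  | 3 => [0, 1, 4, 5]
  | 4 => [1, 2, 3, 5]
  | 5 => [0, 2, 3, 4]

/-- arc set -/
def A6 : Finset (Fin 6 × Fin 6) := Finset.univ.filter (fun e => e.2 ∈ nb e.1)

theorem memA (x y : Fin 6) : (x, y) ∈ A6 ↔ y ∈ nb x := by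
  simp [A6]

set_option synthInstance.maxSize 100000 in
set_option maxRecDepth 100000 in
theorem conn : ∀ u v : Fin 6, ∃ a b c : Fin 6,
    (a = u ∨ a ∈ nb u) ∧ (b = a ∨ b ∈ nb a) ∧ (c = b ∨ c ∈ nb b) ∧ (v = c ∨ v ∈ nb c) := by
  decide

theorem step {x y : Fin 6} (h : y = x ∨ y ∈ nb x) :
    Relation.ReflTransGen (fun x y => (x, y) ∈ A6) x y := by
  rcases h with h | h
  · subst h; exact Relation.ReflTransGen.refl
  · exact Relation.ReflTransGen.single ((memA x y).2 h)

theorem strong (u v : Fin 6) : Relation.ReflTransGen (fun x y => (x, y) ∈ A6) u v := by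
  obtain ⟨a, b, c, h1, h2, h3, h4⟩ := conn u v
  exact (((step h1).trans (step h2)).trans (step h3)).trans (step h4)

set_option synthInstance.maxSize 100000 in
set_option maxRecDepth 100000 in
/-- no Hamilton cycle: walk enumeration -/
theorem noham : ∀ a : Fin 6, ∀ b ∈ nb a, ∀ c ∈ nb b, c ≠ a → ∀ d ∈ nb c, d ≠ a → d ≠ b →
    ∀ e ∈ nb d, e ≠ a → e ≠ b → e ≠ c → ∀ f ∈ nb e, f ≠ a → f ≠ b → f ≠ c → f ≠ d → a ∉ nb f := by
  decide

/-- sorting permutation (a product of transpositions): 0 1 2 have out-degree 2 -/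
def sg : Equiv.Perm (Fin 6) := 1
/-- in-degrees: 0, 2, 5 have in-degree 2 -/
def ta : Equiv.Perm (Fin 6) := Equiv.swap 1 5

/-- The negation of the preceding statement: A strongly connected loopless digraph on n≥3 vertices, with sorted out/in-degrees such that for all k<n/2, out_k≤k implies in_(n−k)≥n−k and in_k≤k implies out_(n−k)≥n−k, has a Hamilton cycle. -/
theorem result :
    ¬ (∀ (n : ℕ) (A : Finset (Fin n × Fin n)), 3 ≤ n →
    (∀ v : Fin n, (v, v) ∉ A) →
    (∀ u v : Fin n, Relation.ReflTransGen (fun x y => (x, y) ∈ A) u v) →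
    ∀ σ τ : Equiv.Perm (Fin n),
      Monotone (fun i : Fin n => (A.filter (fun e => e.1 = σ i)).card) →
      Monotone (fun i : Fin n => (A.filter (fun e => e.2 = τ i)).card) →
      (∀ i j : Fin n, 2 * (i.val + 1) < n → i.val + j.val + 2 = n →
        (A.filter (fun e => e.1 = σ i)).card ≤ i.val + 1 →
        j.val + 1 ≤ (A.filter (fun e => e.2 = τ j)).card) →
      (∀ i j : Fin n, 2 * (i.val + 1) < n → i.val + j.val + 2 = n →
        (A.filter (fun e => e.2 = τ i)).card ≤ i.val + 1 →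
        j.val + 1 ≤ (A.filter (fun e => e.1 = σ j)).card) →
      ∃ f : Equiv.Perm (Fin n), ∀ i : Fin n, (f i, f (finRotate n i)) ∈ A) := by
  intro h
  have h1 := h 6 A6 (by norm_num) (by decide) strong sg ta (by decide) (by decide)
    (by decide) (by decide)
  obtain ⟨f, hf⟩ := h1
  have g : ∀ i j : Fin 6, finRotate 6 i = j → f j ∈ nb (f i) := by
    intro i j hij
    have := (memA _ _).1 (hf i)
    rw [hij] at this
    exact this
  have ne : ∀ i j : Fin 6, i ≠ j → f i ≠ f j := fun i j hij hh => hij (f.injective hh)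
  exact noham (f 0) (f 1) (g 0 1 (by decide)) (f 2) (g 1 2 (by decide)) (ne 2 0 (by decide))
    (f 3) (g 2 3 (by decide)) (ne 3 0 (by decide)) (ne 3 1 (by decide))
    (f 4) (g 3 4 (by decide)) (ne 4 0 (by decide)) (ne 4 1 (by decide)) (ne 4 2 (by decide))
    (f 5) (g 4 5 (by decide)) (ne 5 0 (by decide)) (ne 5 1 (by decide)) (ne 5 2 (by decide))
    (ne 5 3 (by decide)) (g 5 0 (by decide))

end Pool.Agent.S05164
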