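import Pool.Statements.S05175
import Pool.Agent.H14.OneDel

set_option autoImplicit false
open Pool Pool.MP_229fa6_co

namespace Pool.Agent.S05175

open Pool.Agent.H14.OneDel

/-- The rank of `a` once `z` is deleted. -/
theorem rank {n : ℕ} (σ : Equiv.Perm (Fin n)) (z a : Fin n) :
    (Finset.univ.filter (fun e : Fin n => e ≠ z ∧ σ e < σ a)).card =
      if σ z < σ a then (σ a).val - 1 else (σ a).val := by
  have h1 : (Finset.univ.filter (fun e : Fin n => σ e < σ a)).card = (σ a).val := by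
    have : (Finset.univ.filter (fun e : Fin n => σ e < σ a)) =
        (Finset.Iio (σ a)).map σ.symm.toEmbedding := by
      ext e
      simp
    rw [this, Finset.card_map, Fin.card_Iio]
  split_ifs with h
  · have : (Finset.univ.filter (fun e : Fin n => e ≠ z ∧ σ e < σ a)) =
        (Finset.univ.filter (fun e : Fin n => σ e < σ a)).erase z := by
      ext e
      simp
    rw [this, Finset.card_erase_of_mem (by simpa using h), h1]
  · have : (Finset.univ.filter (fun e : Fin n => e ≠ z ∧ σ e < σ a)) =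
        (Finset.univ.filter (fun e : Fin n => σ e < σ a)) := by
      ext e
      simp only [Finset.mem_filter, Finset.mem_univ, true_and, and_iff_right_iff_imp]
      rintro he rfl
      exact h he
    rw [this, h1]

/-- For all large n, any two linear orders on an n-set, and any two distinct points x,y: some alternating composite φ_{z1}, φ_{z2}⁻¹, φ_{z3}, … (odd length) of the point-deleted order isomorphisms is defined at x and y and agrees there with the full isomorphism. -/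
theorem result :
  ∃ N : ℕ, ∀ n : ℕ, N ≤ n → ∀ σ τ : Equiv.Perm (Fin n),
    ∀ R : Fin n → Fin n → Fin n → Prop,
    (∀ z a b : Fin n, R z a b ↔
      (a ≠ z ∧ b ≠ z ∧
        (Finset.univ.filter (fun e : Fin n => e ≠ z ∧ σ e < σ a)).card =
        (Finset.univ.filter (fun e : Fin n => e ≠ z ∧ τ e < τ b)).card)) →
    ∀ x y : Fin n, x ≠ y →
    ∃ k : ℕ, ∃ s : Fin (2 * k + 1) → Fin n, ∃ p q : Fin (2 * k + 1 + 1) → Fin n,
      p 0 = x ∧ q 0 = y ∧
      p (Fin.last (2 * k + 1)) = τ.symm (σ x) ∧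
      q (Fin.last (2 * k + 1)) = τ.symm (σ y) ∧
      ∀ i : Fin (2 * k + 1),
        (Even i.val →
          R (s i) (p i.castSucc) (p i.succ) ∧ R (s i) (q i.castSucc) (q i.succ)) ∧
        (Odd i.val →
          R (s i) (p i.succ) (p i.castSucc) ∧ R (s i) (q i.succ) (q i.castSucc)) := by
  refine ⟨19, fun n hN σ τ R hR x y hxy => ?_⟩
  -- the deleted isomorphisms in terms of positions
  have key : ∀ (i u v : ℕ) (hi : i < n) (hu : u < n) (hv : v < n),
      rel i (τ (σ.symm ⟨i, hi⟩)).val u v → R (σ.symm ⟨i, hi⟩) (σ.symm ⟨u, hu⟩) (τ.symm ⟨v, hv⟩) := by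
    intro i u v hi hu hv h
    rw [hR, rank, rank]
    simp only [Equiv.apply_symm_apply, ne_eq, EmbeddingLike.apply_eq_iff_eq, Fin.mk.injEq,
      Fin.lt_def]
    have hne : u ≠ i ∧ v ≠ (τ (σ.symm ⟨i, hi⟩)).val := by
      unfold rel at h
      omega
    refine ⟨hne.1, ?_, ?_⟩
    · intro he
      apply hne.2
      rw [← he, Equiv.apply_symm_apply]
    · unfold rel at h
      split_ifs <;> omega
  -- the word, found on positions
  have hpath : Path n (fun i => if h : i < n then (τ (σ.symm ⟨i, h⟩)).val else i)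
      (σ x).val (σ y).val := by
    have hcore : ∀ p q : ℕ, p < q → q < n →
        Path n (fun i => if h : i < n then (τ (σ.symm ⟨i, h⟩)).val else i) p q := by
      intro p q hpq hq
      refine core (g := fun j => if h : j < n then (σ (τ.symm ⟨j, h⟩)).val else j) hN ?_ hpq hq
        ?_ ?_
      · intro i hi
        simp only [hi, dif_pos]
        exact (τ (σ.symm ⟨i, hi⟩)).isLt
      · intro j hj
        simp only [hj, dif_pos, Fin.is_lt, Fin.eta, Equiv.symm_apply_apply,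
          Equiv.apply_symm_apply, and_self]
      · intro i j hi hj h
        simp only [hi, hj, dif_pos] at h
        have h1 := τ.injective (Fin.ext h)
        have h2 := σ.symm.injective h1
        exact congrArg Fin.val h2
    rcases Nat.lt_trichotomy (σ x).val (σ y).val with h | h | h
    · exact hcore _ _ h (σ y).isLt
    · exact absurd (σ.injective (Fin.ext h)) hxy
    · exact (hcore _ _ h (σ x).isLt).symm
  obtain ⟨i1, i2, i3, i4, i5, a1, b1, a2, b2, a3, b3, a4, b4, ⟨hi1, hi2, hi3, hi4, hi5⟩,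
    ⟨ha1, hb1, ha2, hb2, ha3, hb3, ha4, hb4⟩, h1, h2, h3, h4, h5⟩ := hpath
  simp only [hi1, hi2, hi3, hi4, hi5, dif_pos] at h1 h2 h3 h4 h5
  refine ⟨2, ![σ.symm ⟨i1, hi1⟩, σ.symm ⟨i2, hi2⟩, σ.symm ⟨i3, hi3⟩, σ.symm ⟨i4, hi4⟩,
      σ.symm ⟨i5, hi5⟩],
    ![x, τ.symm ⟨a1, ha1⟩, σ.symm ⟨a2, ha2⟩, τ.symm ⟨a3, ha3⟩, σ.symm ⟨a4, ha4⟩,
      τ.symm (σ x)],
    ![y, τ.symm ⟨b1, hb1⟩, σ.symm ⟨b2, hb2⟩, τ.symm ⟨b3, hb3⟩, σ.symm ⟨b4, hb4⟩,
      τ.symm (σ y)], rfl, rfl, rfl, rfl, ?_⟩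
  have ex : σ.symm ⟨(σ x).val, (σ x).isLt⟩ = x := by simp
  have ey : σ.symm ⟨(σ y).val, (σ y).isLt⟩ = y := by simp
  have r1 := key i1 _ _ hi1 (σ x).isLt ha1 h1.1
  have r1' := key i1 _ _ hi1 (σ y).isLt hb1 h1.2
  have r2 := key i2 _ _ hi2 ha2 ha1 h2.1
  have r2' := key i2 _ _ hi2 hb2 hb1 h2.2
  have r3 := key i3 _ _ hi3 ha2 ha3 h3.1
  have r3' := key i3 _ _ hi3 hb2 hb3 h3.2
  have r4 := key i4 _ _ hi4 ha4 ha3 h4.1
  have r4' := key i4 _ _ hi4 hb4 hb3 h4.2
  have r5 := key i5 _ _ hi5 ha4 (σ x).isLt h5.1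
  have r5' := key i5 _ _ hi5 hb4 (σ y).isLt h5.2
  rw [ex] at r1
  rw [ey] at r1'
  intro i
  have hlt : i.val < 5 := i.isLt
  obtain ⟨iv, hiv⟩ := i
  have hcases : iv = 0 ∨ iv = 1 ∨ iv = 2 ∨ iv = 3 ∨ iv = 4 := by omega
  rcases hcases with rfl | rfl | rfl | rfl | rfl
  · exact ⟨fun _ => ⟨r1, r1'⟩, fun h => absurd h (show ¬ Odd 0 by decide)⟩
  · exact ⟨fun h => absurd h (show ¬ Even 1 by decide), fun _ => ⟨r2, r2'⟩⟩
  · exact ⟨fun _ => ⟨r3, r3'⟩, fun h => absurd h (show ¬ Odd 2 by decide)⟩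
  · exact ⟨fun h => absurd h (show ¬ Even 3 by decide), fun _ => ⟨r4, r4'⟩⟩
  · exact ⟨fun _ => ⟨r5, r5'⟩, fun h => absurd h (show ¬ Odd 4 by decide)⟩

end Pool.Agent.S05175
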