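import Mathlib
import Pool.Statements.S05203
-- import your own Pool.Agent.* helpers here

set_option autoImplicit false
open Pool Pool.MP_244b3b_co

namespace Pool.Agent.S05203


abbrev F := ZMod 2

abbrev Vn (n : ℕ) := Fin n → F

abbrev Bn (n : ℕ) := Vn n →ₗ[F] Vn n →ₗ[F] Vn n

/-- The alternating form of `β` along `A` and `L`. -/
noncomputable def T {n s : ℕ} (A : (Vn s × Vn s) →ₗ[F] Vn n) (L : Vn n →ₗ[F] Vn s) :
    Bn n →ₗ[F] Bn s where
  toFun β := LinearMap.mk₂ F
    (fun a b => L (β (A (a, 0)) (A (0, b)) - β (A (0, b)) (A (a, 0))))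
    (by
      intro a a' b
      have : ((a + a', 0) : Vn s × Vn s) = (a, 0) + (a', 0) := by simp
      rw [this]
      simp only [map_add, LinearMap.add_apply, map_sub]
      abel)
    (by
      intro c a b
      have : ((c • a, 0) : Vn s × Vn s) = c • (a, 0) := by simp
      rw [this]
      simp only [map_smul, LinearMap.smul_apply, map_sub, smul_sub])
    (by
      intro a b b'
      have : ((0, b + b') : Vn s × Vn s) = (0, b) + (0, b') := by simp
      rw [this]
      simp only [map_add, LinearMap.add_apply, map_sub]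
      abel)
    (by
      intro c a b
      have : ((0, c • b) : Vn s × Vn s) = c • (0, b) := by simp
      rw [this]
      simp only [map_smul, LinearMap.smul_apply, map_sub, smul_sub])
  map_add' β β' := by
    refine LinearMap.ext fun a => LinearMap.ext fun b => ?_
    simp only [LinearMap.mk₂_apply, LinearMap.add_apply, map_add, map_sub]
    abel
  map_smul' c β := by
    refine LinearMap.ext fun a => LinearMap.ext fun b => ?_
    simp only [LinearMap.mk₂_apply, LinearMap.smul_apply, map_smul, map_sub, smul_sub,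
      RingHom.id_apply]

theorem T_apply {n s : ℕ} (A : (Vn s × Vn s) →ₗ[F] Vn n) (L : Vn n →ₗ[F] Vn s) (β : Bn n)
    (a b : Vn s) : T A L β a b = L (β (A (a, 0)) (A (0, b)) - β (A (0, b)) (A (a, 0))) := rfl

theorem T_surjective {n s : ℕ} (A : (Vn s × Vn s) →ₗ[F] Vn n) (L : Vn n →ₗ[F] Vn s)
    (hA : Function.Injective A) (hL : Function.Surjective L) : Function.Surjective (T A L) := by
  obtain ⟨A', hA'⟩ := A.exists_leftInverse_of_injective (LinearMap.ker_eq_bot.mpr hA)
  obtain ⟨R, hR⟩ := L.exists_rightInverse_of_surjective (LinearMap.range_eq_top.mpr hL)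
  have hA'' : ∀ x, A' (A x) = x := fun x => LinearMap.congr_fun hA' x
  have hR' : ∀ x, L (R x) = x := fun x => LinearMap.congr_fun hR x
  intro γ
  refine ⟨LinearMap.mk₂ F (fun x y => R (γ (A' x).1 (A' y).2)) ?_ ?_ ?_ ?_, ?_⟩
  · intro x x' y; simp
  · intro c x y; simp
  · intro x y y'; simp
  · intro c x y; simp
  · refine LinearMap.ext fun a => LinearMap.ext fun b => ?_
    rw [T_apply]
    simp only [LinearMap.mk₂_apply, hA'']
    simp [hR']

instance finLin {n m : ℕ} : Finite (Vn n →ₗ[F] Vn m) := Finite.of_injective _ DFunLike.coe_injective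

instance finLin2 {n m : ℕ} : Finite ((Vn n × Vn n) →ₗ[F] Vn m) :=
  Finite.of_injective _ DFunLike.coe_injective

instance finBn {n : ℕ} : Finite (Bn n) := Finite.of_injective _ DFunLike.coe_injective

theorem natcard_Vn (n : ℕ) : Nat.card (Vn n) = 2 ^ n := by
  rw [Nat.card_eq_fintype_card]; simp

theorem natcard_lin {M M' : Type} [AddCommGroup M] [Module F M] [AddCommGroup M'] [Module F M']
    [Module.Finite F M] [Module.Finite F M'] :
    Nat.card (M →ₗ[F] M') = 2 ^ (Module.finrank F M * Module.finrank F M') := by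
  have h := Module.natCard_eq_pow_finrank (K := F) (V := M →ₗ[F] M')
  rw [h, Module.finrank_linearMap]
  simp

theorem card_ker {A B : Type} [AddCommGroup A] [AddCommGroup B]
    (f : A →+ B) (hf : Function.Surjective f) :
    Nat.card {a : A // f a = 0} * Nat.card B = Nat.card A := by
  have h1 := QuotientAddGroup.quotientKerEquivOfSurjective f hf
  have h2 := AddSubgroup.card_eq_card_quotient_mul_card_addSubgroup f.ker
  rw [Nat.card_congr h1.toEquiv] at h2
  rw [h2, mul_comm]
  rfl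

theorem exists_form (n s : ℕ) (h : 3 * n < s * s) (hs : 0 < s) :
    ∃ β : Bn n, ∀ (A : (Vn s × Vn s) →ₗ[F] Vn n) (L : Vn n →ₗ[F] Vn s), Function.Injective A →
      Function.Surjective L → T A L β ≠ 0 := by
  by_contra hcon
  push Not at hcon
  choose A L hA hL hT using hcon
  let Q := {q : ((Vn s × Vn s) →ₗ[F] Vn n) × (Vn n →ₗ[F] Vn s) //
    Function.Injective q.1 ∧ Function.Surjective q.2}
  have hQfin : Finite Q := Subtype.finite
  have : Fintype Q := Fintype.ofFinite _
  let K : Q → Type := fun q => {β : Bn n // (T q.1.1 q.1.2).toAddMonoidHom β = 0}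
  have hKfin : ∀ q, Finite (K q) := fun q => Subtype.finite
  have hker : ∀ q : Q, Nat.card (K q) * Nat.card (Bn s) = Nat.card (Bn n) := by
    intro q
    exact card_ker (A := Bn n) (B := Bn s) (T q.1.1 q.1.2).toAddMonoidHom
      (T_surjective q.1.1 q.1.2 q.2.1 q.2.2)
  have h1 : Nat.card (Bn n) ≤ ∑ q : Q, Nat.card (K q) := by
    rw [← Nat.card_sigma]
    apply Nat.card_le_card_of_injective
      (fun β => (⟨⟨(A β, L β), hA β, hL β⟩, ⟨β, hT β⟩⟩ : Σ q : Q, K q))
    intro β β' hββ
    have h3 : ∀ x y : (Σ q : Q, K q), x = y → (x.2.1 : Bn n) = y.2.1 := by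
      rintro x y rfl; rfl
    exact h3 _ _ hββ
  have h2 : Nat.card (Bn n) * Nat.card (Bn s) ≤ Nat.card Q * Nat.card (Bn n) := by
    calc Nat.card (Bn n) * Nat.card (Bn s)
        ≤ (∑ q : Q, Nat.card (K q)) * Nat.card (Bn s) := Nat.mul_le_mul_right _ h1
      _ = ∑ q : Q, Nat.card (Bn n) := by
          rw [Finset.sum_mul]
          exact Finset.sum_congr rfl (fun q _ => hker q)
      _ = Nat.card Q * Nat.card (Bn n) := by
          rw [Finset.sum_const, smul_eq_mul, Finset.card_univ, Nat.card_eq_fintype_card (α := Q)]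
  have h3 : Nat.card (Bn s) ≤ Nat.card Q := by
    have hpos : 0 < Nat.card (Bn n) := Nat.card_pos
    rw [mul_comm] at h2
    exact Nat.le_of_mul_le_mul_right h2 hpos
  have h4 : Nat.card Q ≤ Nat.card (((Vn s × Vn s) →ₗ[F] Vn n) × (Vn n →ₗ[F] Vn s)) :=
    Nat.card_le_card_of_injective _ Subtype.val_injective
  rw [Nat.card_prod, natcard_lin, natcard_lin] at h4
  rw [natcard_lin] at h3
  simp only [Module.finrank_linearMap, Module.finrank_prod, Module.finrank_fin_fun] at h3 h4
  have h5 := h3.trans h4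
  rw [← pow_add, Nat.pow_le_pow_iff_right (by norm_num)] at h5
  nlinarith

theorem exists_surj {M : Type} [AddCommGroup M] [Module F M] [Module.Finite F M] {t : ℕ}
    (h : t ≤ Module.finrank F M) : ∃ f : M →ₗ[F] Vn t, Function.Surjective f := by
  let e := (Module.finBasis F M).equivFun
  refine ⟨(LinearMap.funLeft F F (Fin.castLE h)).comp e.toLinearMap, ?_⟩
  rw [LinearMap.coe_comp]
  exact (LinearMap.funLeft_surjective_of_injective _ _ _ (Fin.castLE_injective h)).comp
    e.surjective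

theorem exists_inj {M : Type} [AddCommGroup M] [Module F M] [Module.Finite F M] {t : ℕ}
    (h : t ≤ Module.finrank F M) : ∃ f : Vn t →ₗ[F] M, Function.Injective f := by
  obtain ⟨f, hf⟩ := exists_surj h
  obtain ⟨g, hg⟩ := f.exists_rightInverse_of_surjective (LinearMap.range_eq_top.mpr hf)
  refine ⟨g, ?_⟩
  intro x y hxy
  have h1 := LinearMap.congr_fun hg x
  have h2 := LinearMap.congr_fun hg y
  simp only [LinearMap.comp_apply, LinearMap.id_apply] at h1 h2
  rw [← h1, ← h2, hxy]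

/-- A subspace of dimension at least `2s` receives an injection. -/
theorem exists_injective {n s : ℕ} (U : Submodule F (Vn n)) (h : 2 * s ≤ Module.finrank F U) :
    ∃ A : (Vn s × Vn s) →ₗ[F] Vn n, Function.Injective A ∧ ∀ x, A x ∈ U := by
  obtain ⟨f, hf⟩ := exists_inj h
  have h1 : Module.finrank F (Vn s × Vn s) = Module.finrank F (Vn (2 * s)) := by
    simp only [Module.finrank_prod, Module.finrank_fin_fun]; omega
  let e : (Vn s × Vn s) ≃ₗ[F] Vn (2 * s) := LinearEquiv.ofFinrankEq _ _ h1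
  refine ⟨(U.subtype.comp f).comp e.toLinearMap, ?_, fun x => (f (e x)).2⟩
  exact (Subtype.val_injective.comp hf).comp e.injective

theorem exists_surjective {n s : ℕ} (W : Submodule F (Vn n))
    (h : s ≤ Module.finrank F (Vn n ⧸ W)) :
    ∃ L : Vn n →ₗ[F] Vn s, Function.Surjective L ∧ ∀ x ∈ W, L x = 0 := by
  obtain ⟨f, hf⟩ := exists_surj h
  refine ⟨f.comp W.mkQ, ?_, ?_⟩
  · rw [LinearMap.coe_comp]
    exact hf.comp W.mkQ_surjective
  · intro x hx
    have : W.mkQ x = 0 := (Submodule.Quotient.mk_eq_zero W).mpr hx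
    rw [LinearMap.comp_apply, this, map_zero]

/-! ### The group -/

/-- The class two group attached to `β`. -/
@[ext] structure HG {n : ℕ} (β : Bn n) where
  v : Vn n
  z : Vn n

namespace HG

variable {n : ℕ} {β : Bn n}

instance : Mul (HG β) := ⟨fun a b => ⟨a.v + b.v, a.z + b.z + β a.v b.v⟩⟩
instance : One (HG β) := ⟨⟨0, 0⟩⟩
instance : Inv (HG β) := ⟨fun a => ⟨-a.v, -a.z + β a.v a.v⟩⟩

@[simp] theorem mul_v (a b : HG β) : (a * b).v = a.v + b.v := rfl
@[simp] theorem mul_z (a b : HG β) : (a * b).z = a.z + b.z + β a.v b.v := rfl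
@[simp] theorem one_v : (1 : HG β).v = 0 := rfl
@[simp] theorem one_z : (1 : HG β).z = 0 := rfl
@[simp] theorem inv_v (a : HG β) : (a⁻¹).v = -a.v := rfl
@[simp] theorem inv_z (a : HG β) : (a⁻¹).z = -a.z + β a.v a.v := rfl

instance : Group (HG β) := Group.ofLeftAxioms
  (by
    intro a b c
    ext1
    · simp [add_assoc]
    · simp only [mul_z, mul_v, map_add, LinearMap.add_apply]
      abel)
  (by
    intro a
    ext1
    · simp
    · simp)
  (by
    intro a
    ext1
    · simp
    · simp)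

instance : Finite (HG β) := by
  apply Finite.of_injective (fun a : HG β => (a.v, a.z))
  intro a b h
  simp only [Prod.mk.injEq] at h
  exact HG.ext h.1 h.2

/-- Central automorphisms. -/
def cent (φ : Vn n →ₗ[F] Vn n) : HG β →* HG β where
  toFun a := ⟨a.v, a.z + φ a.v⟩
  map_one' := by ext1 <;> simp
  map_mul' a b := by
    ext1
    · simp
    · simp only [mul_z, mul_v, map_add]
      abel

@[simp] theorem cent_v (φ : Vn n →ₗ[F] Vn n) (a : HG β) : (cent φ a).v = a.v := rfl
@[simp] theorem cent_z (φ : Vn n →ₗ[F] Vn n) (a : HG β) : (cent φ a).z = a.z + φ a.v := rfl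

theorem cent_neg (φ : Vn n →ₗ[F] Vn n) (a : HG β) : cent (-φ) (cent φ a) = a := by
  ext1 <;> simp

/-- The image in `V` of a subgroup. -/
def U (H : Subgroup (HG β)) : Submodule F (Vn n) :=
  AddSubgroup.toZModSubmodule 2
    { carrier := {v | ∃ a ∈ H, a.v = v}
      zero_mem' := ⟨1, H.one_mem, rfl⟩
      add_mem' := by
        rintro _ _ ⟨a, ha, rfl⟩ ⟨b, hb, rfl⟩
        exact ⟨a * b, H.mul_mem ha hb, rfl⟩
      neg_mem' := by
        rintro _ ⟨a, ha, rfl⟩
        exact ⟨a⁻¹, H.inv_mem ha, rfl⟩ }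

/-- The intersection of a subgroup with the central subgroup `Z`. -/
def W (H : Subgroup (HG β)) : Submodule F (Vn n) :=
  AddSubgroup.toZModSubmodule 2
    { carrier := {z | (⟨0, z⟩ : HG β) ∈ H}
      zero_mem' := H.one_mem
      add_mem' := by
        intro a b ha hb
        have := H.mul_mem ha hb
        have e : (⟨0, a⟩ : HG β) * ⟨0, b⟩ = ⟨0, a + b⟩ := by ext1 <;> simp
        rw [e] at this
        exact this
      neg_mem' := by
        intro a ha
        have := H.inv_mem ha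
        have e : (⟨0, a⟩ : HG β)⁻¹ = ⟨0, -a⟩ := by ext1 <;> simp
        rw [e] at this
        exact this }

theorem mem_U {H : Subgroup (HG β)} {v : Vn n} : v ∈ U H ↔ ∃ a ∈ H, a.v = v := Iff.rfl
theorem mem_W {H : Subgroup (HG β)} {z : Vn n} : z ∈ W H ↔ (⟨0, z⟩ : HG β) ∈ H := Iff.rfl

theorem comm_mem {H : Subgroup (HG β)} {u u' : Vn n} (hu : u ∈ U H) (hu' : u' ∈ U H) :
    β u u' - β u' u ∈ W H := by
  obtain ⟨a, ha, rfl⟩ := hu
  obtain ⟨b, hb, rfl⟩ := hu'
  rw [mem_W]
  have h1 : a * b * (b * a)⁻¹ ∈ H := H.mul_mem (H.mul_mem ha hb) (H.inv_mem (H.mul_mem hb ha))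
  have h2 : a * b = ⟨0, β a.v b.v - β b.v a.v⟩ * (b * a) := by
    ext1
    · simp [add_comm]
    · simp only [mul_z, mul_v, map_add, map_zero, LinearMap.zero_apply, add_zero]
      abel
  rw [h2, mul_assoc, mul_inv_cancel, mul_one] at h1
  exact h1

theorem mul_le {s : ℕ} (hβ : ∀ (A : (Vn s × Vn s) →ₗ[F] Vn n) (L : Vn n →ₗ[F] Vn s),
      Function.Injective A → Function.Surjective L → T A L β ≠ 0) (H : Subgroup (HG β)) :
    Module.finrank F (U H) * Module.finrank F (Vn n ⧸ W H) ≤ 2 * s * n := by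
  have hU : Module.finrank F (U H) ≤ n := by
    have := Submodule.finrank_le (U H)
    rwa [Module.finrank_fin_fun] at this
  have hW : Module.finrank F (Vn n ⧸ W H) ≤ n := by
    have := Submodule.finrank_quotient_le (W H)
    rwa [Module.finrank_fin_fun] at this
  by_cases h1 : 2 * s ≤ Module.finrank F (U H)
  · by_cases h2 : s ≤ Module.finrank F (Vn n ⧸ W H)
    · exfalso
      obtain ⟨A, hA, hAU⟩ := exists_injective _ h1
      obtain ⟨L, hL, hLW⟩ := exists_surjective _ h2
      apply hβ A L hA hL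
      refine LinearMap.ext fun a => LinearMap.ext fun b => ?_
      rw [T_apply]
      exact hLW _ (comm_mem (hAU _) (hAU _))
    · push Not at h2
      calc _ ≤ n * s := Nat.mul_le_mul hU h2.le
        _ ≤ 2 * s * n := by nlinarith
  · push Not at h1
    exact Nat.mul_le_mul h1.le hW

end HG

/-! ### The dimension count -/

/-- The constraints on a homomorphism `V → Z`, as a linear map. -/
noncomputable def Psi {n : ℕ} {Ω : Type} (UU WW : Ω → Submodule F (Vn n)) {P : Type}
    (g : P → Vn n) : (Vn n →ₗ[F] Vn n) →ₗ[F]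
      ((ω : Ω) → (UU ω →ₗ[F] (Vn n ⧸ WW ω))) × (P → Vn n) where
  toFun φ := (fun ω => (WW ω).mkQ.comp (φ.comp (UU ω).subtype), fun p => φ (g p))
  map_add' φ ψ := by
    ext1
    · funext ω
      refine LinearMap.ext fun x => ?_
      simp
    · funext p
      simp
  map_smul' c φ := by
    ext1
    · funext ω
      refine LinearMap.ext fun x => ?_
      simp
    · funext p
      simp

theorem nullity {K M M' : Type} [Field K] [AddCommGroup M] [Module K M] [AddCommGroup M']
    [Module K M'] [Module.Finite K M] [Module.Finite K M'] (f : M →ₗ[K] M') :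
    Module.finrank K M ≤ Module.finrank K M' + Module.finrank K (LinearMap.ker f) := by
  have h1 := LinearMap.finrank_range_add_finrank_ker f
  have h2 := Submodule.finrank_le (LinearMap.range f)
  omega

theorem finrank_ker_Psi {n s N k : ℕ} {Ω P : Type} [Fintype Ω] [Fintype P]
    (UU WW : Ω → Submodule F (Vn n))
    (hUW : ∀ ω, Module.finrank F (UU ω) * Module.finrank F (Vn n ⧸ WW ω) ≤ 2 * s * n)
    (g : P → Vn n) (hΩ : Fintype.card Ω ≤ N) (hP : Fintype.card P ≤ N * k) :
    n * n ≤ Module.finrank F (LinearMap.ker (Psi UU WW g)) + N * (2 * s * n) + N * k * n := by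
  have h1 := nullity (K := F) (M := Vn n →ₗ[F] Vn n)
    (M' := ((ω : Ω) → (UU ω →ₗ[F] (Vn n ⧸ WW ω))) × (P → Vn n)) (Psi UU WW g)
  have h3 : Module.finrank F (((ω : Ω) → (UU ω →ₗ[F] (Vn n ⧸ WW ω))) × (P → Vn n))
      = ∑ ω, Module.finrank F (UU ω) * Module.finrank F (Vn n ⧸ WW ω)
        + Fintype.card P * n := by
    rw [Module.finrank_prod, Module.finrank_pi_fintype, Module.finrank_pi_fintype]
    congr 1
    · apply Finset.sum_congr rfl
      intro ω _
      exact Module.finrank_linearMap _ _ _ _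
    · simp
  have h4 : ∑ ω, Module.finrank F (UU ω) * Module.finrank F (Vn n ⧸ WW ω) ≤ N * (2 * s * n) := by
    calc _ ≤ ∑ _ω : Ω, 2 * s * n := Finset.sum_le_sum (fun ω _ => hUW ω)
      _ = Fintype.card Ω * (2 * s * n) := by simp
      _ ≤ _ := Nat.mul_le_mul_right _ hΩ
  have h5 : Fintype.card P * n ≤ N * k * n := Nat.mul_le_mul_right _ hP
  rw [Module.finrank_linearMap, Module.finrank_fin_fun] at h1
  omega

/-! ### Automorphisms of the digraph -/

theorem perm_inv_apply_self {V : Type} (e : Equiv.Perm V) (x : V) : e⁻¹ (e x) = x :=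
  e.symm_apply_apply x

theorem perm_apply_inv_self {V : Type} (e : Equiv.Perm V) (x : V) : e (e⁻¹ x) = x :=
  e.apply_symm_apply x

theorem exists_conj {n : ℕ} {β : Bn n} {V : Type} [Finite V] (X : Digraph V)
    (Φ : HG β →* Equiv.Perm V) (hinj : Function.Injective Φ)
    (haut : ∀ σ : Equiv.Perm V, σ ∈ Φ.range ↔ ∀ x y, (X.Adj (σ x) (σ y) ↔ X.Adj x y))
    {Ω : Type} (q : V → Ω) (rep : Ω → V) (hq : ∀ g x, q (Φ g x) = q x)
    (gg : V → HG β) (hgg : ∀ x, Φ (gg x) (rep (q x)) = x)
    (φ : Vn n →ₗ[F] Vn n)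
    (hH : ∀ ω, ∀ a : HG β, Φ a (rep ω) = rep ω → Φ (HG.cent φ a) (rep ω) = rep ω)
    (hH' : ∀ ω, ∀ a : HG β, Φ a (rep ω) = rep ω → Φ (HG.cent (-φ) a) (rep ω) = rep ω)
    (hO : ∀ ω y, X.Adj (rep ω) y → φ (gg y).v = 0)
    (hqrep : ∀ ω, q (rep ω) = ω) :
    ∃ h : HG β, ∀ a, HG.cent φ a * h = h * a := by
  -- the induced vertex map
  let σ : (Vn n →ₗ[F] Vn n) → V → V := fun φ x => Φ (HG.cent φ (gg x)) (rep (q x))
  have hσ : ∀ ψ : Vn n →ₗ[F] Vn n,
      (∀ ω, ∀ a : HG β, Φ a (rep ω) = rep ω → Φ (HG.cent ψ a) (rep ω) = rep ω) →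
      ∀ ω (a : HG β), σ ψ (Φ a (rep ω)) = Φ (HG.cent ψ a) (rep ω) := by
    intro ψ hψ ω a
    have h1 := hgg (Φ a (rep ω))
    have h2 : q (Φ a (rep ω)) = ω := by rw [hq, hqrep]
    simp only [σ]
    rw [h2] at h1 ⊢
    set b := gg (Φ a (rep ω)) with hb
    have h3 : Φ (a⁻¹ * b) (rep ω) = rep ω := by
      rw [map_mul, Equiv.Perm.mul_apply, h1, map_inv, perm_inv_apply_self]
    have h4 := hψ ω _ h3
    have h5 : b = a * (a⁻¹ * b) := by group
    rw [h5, map_mul, map_mul, Equiv.Perm.mul_apply, h4]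
  have hσcomp : ∀ ψ : Vn n →ₗ[F] Vn n,
      (∀ ω, ∀ a : HG β, Φ a (rep ω) = rep ω → Φ (HG.cent ψ a) (rep ω) = rep ω) →
      ∀ (a : HG β) x, σ ψ (Φ a x) = Φ (HG.cent ψ a) (σ ψ x) := by
    intro ψ hψ a x
    have h1 : Φ a x = Φ (a * gg x) (rep (q x)) := by
      rw [map_mul, Equiv.Perm.mul_apply, hgg]
    rw [h1, hσ ψ hψ, map_mul, map_mul, Equiv.Perm.mul_apply]
  have hinv : ∀ ψ : Vn n →ₗ[F] Vn n,
      (∀ ω, ∀ a : HG β, Φ a (rep ω) = rep ω → Φ (HG.cent ψ a) (rep ω) = rep ω) →
      (∀ ω, ∀ a : HG β, Φ a (rep ω) = rep ω → Φ (HG.cent (-ψ) a) (rep ω) = rep ω) →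
      ∀ x, σ (-ψ) (σ ψ x) = x := by
    intro ψ hψ hψ' x
    have h1 : σ ψ x = Φ (HG.cent ψ (gg x)) (rep (q x)) := rfl
    rw [h1, hσ (-ψ) hψ', HG.cent_neg, hgg]
  let e : Equiv.Perm V :=
    { toFun := σ φ
      invFun := σ (-φ)
      left_inv := hinv φ hH hH'
      right_inv := by
        have h1 := hinv (-φ) hH' (by rw [neg_neg]; exact hH)
        rw [neg_neg] at h1
        exact h1 }
  -- arcs are preserved
  have hadj1 : ∀ (a : HG β) x y, X.Adj (Φ a x) (Φ a y) ↔ X.Adj x y := fun a =>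
    (haut (Φ a)).mp ⟨a, rfl⟩
  have harc : ∀ ψ : Vn n →ₗ[F] Vn n,
      (∀ ω, ∀ a : HG β, Φ a (rep ω) = rep ω → Φ (HG.cent ψ a) (rep ω) = rep ω) →
      (∀ ω y, X.Adj (rep ω) y → ψ (gg y).v = 0) →
      ∀ x y, X.Adj x y → X.Adj (σ ψ x) (σ ψ y) := by
    intro ψ hψ hψO x y hxy
    set a := gg x with ha
    set ω := q x with hω
    set y' := Φ a⁻¹ y with hy'
    have hy : y = Φ a y' := by
      rw [hy', map_inv, perm_apply_inv_self]
    have h1 : X.Adj (rep ω) y' := by
      rw [← hadj1 a, ← hy, hgg]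
      exact hxy
    have h2 : σ ψ y' = y' := by
      have h3 := hψO ω y' h1
      have h4 : HG.cent ψ (gg y') = gg y' := by
        ext1
        · rfl
        · rw [HG.cent_z, h3, add_zero]
      simp only [σ]
      rw [h4, hgg]
    have h5 : σ ψ x = Φ (HG.cent ψ a) (rep ω) := rfl
    rw [hy, hσcomp ψ hψ, h2, h5, hadj1]
    exact h1
  have hmem : e ∈ Φ.range := by
    rw [haut]
    intro x y
    constructor
    · intro h
      have h1 := harc (-φ) hH' (fun ω y hy => by simp [hO ω y hy]) _ _ h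
      have h2 : ∀ z, σ (-φ) (e z) = z := hinv φ hH hH'
      rwa [h2, h2] at h1
    · exact harc φ hH hO x y
  obtain ⟨h, hh⟩ := hmem
  refine ⟨h, fun a => ?_⟩
  apply hinj
  rw [map_mul, map_mul, hh]
  ext x
  rw [Equiv.Perm.mul_apply, Equiv.Perm.mul_apply]
  exact (hσcomp φ hH a x).symm

theorem mainThm (k N : ℕ) : ∃ (G : Type) (_ : Group G) (_ : Finite G),
      ∀ (V : Type) [Finite V] (X : Digraph V) (φ : G →* Equiv.Perm V),
        (∀ x, ¬ X.Adj x x) →
        (∀ x, Set.ncard {y | X.Adj x y} ≤ k) →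
        Function.Injective φ →
        (∀ σ : Equiv.Perm V, σ ∈ φ.range ↔ ∀ x y, (X.Adj (σ x) (σ y) ↔ X.Adj x y)) →
        ∃ f : Fin (N + 1) → V, ∀ (i j : Fin (N + 1)) (g : G), φ g (f i) = f j → i = j := by
  classical
  -- parameters
  obtain ⟨n, s, hs, hns, hn⟩ : ∃ n s : ℕ, 0 < s ∧ 3 * n < s * s ∧
      2 * N * s + N * k + 1 < n := by
    refine ⟨2 * N * (6 * N + 3 * N * k + 7) + N * k + 2, 6 * N + 3 * N * k + 7, by omega, ?_,
      by omega⟩
    nlinarith [Nat.zero_le N, Nat.zero_le k, Nat.zero_le (N * k), Nat.zero_le (N * N),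
      Nat.zero_le (N * (N * k)), Nat.zero_le ((N * k) * (N * k))]
  obtain ⟨β, hβ⟩ := exists_form n s hns hs
  refine ⟨HG β, inferInstance, inferInstance, ?_⟩
  intro V _ X Φ _ hout hinj haut
  by_contra hcon
  let S : Setoid V :=
    { r := fun x y => ∃ g, Φ g x = y
      iseqv :=
        { refl := fun x => ⟨1, by simp⟩
          symm := by
            rintro x y ⟨g, rfl⟩
            exact ⟨g⁻¹, by rw [map_inv, perm_inv_apply_self]⟩
          trans := by
            rintro x y z ⟨g, rfl⟩ ⟨h, rfl⟩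
            exact ⟨h * g, by rw [map_mul, Equiv.Perm.mul_apply]⟩ } }
  let Ω := Quotient S
  have : Fintype Ω := Fintype.ofFinite _
  let q : V → Ω := fun x => Quotient.mk S x
  let rep : Ω → V := Quotient.out
  have hqrep : ∀ ω, q (rep ω) = ω := fun ω => Quotient.out_eq ω
  have hq : ∀ g x, q (Φ g x) = q x := fun g x => (Quotient.sound (s := S) ⟨g, rfl⟩).symm
  have hex : ∀ x, ∃ g, Φ g (rep (q x)) = x := fun x => Quotient.mk_out (s := S) x
  choose gg hgg using hex
  have hΩ : Fintype.card Ω ≤ N := by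
    by_contra hlt
    push Not at hlt
    obtain ⟨e⟩ : Nonempty (Fin (N + 1) ↪ Ω) :=
      Function.Embedding.nonempty_of_card_le (by simpa using hlt)
    apply hcon
    refine ⟨fun i => rep (e i), fun i j g hg => ?_⟩
    apply e.injective
    have hg' : Φ g (rep (e i)) = rep (e j) := hg
    rw [← hqrep (e i), ← hqrep (e j), ← hg', hq]
  -- the constraint set
  let P := Σ ω : Ω, {y // X.Adj (rep ω) y}
  have : Fintype P := Fintype.ofFinite _
  have hP : Fintype.card P ≤ N * k := by
    rw [← Nat.card_eq_fintype_card, Nat.card_sigma]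
    calc ∑ ω : Ω, Nat.card {y // X.Adj (rep ω) y} ≤ ∑ _ω : Ω, k := by
          apply Finset.sum_le_sum
          intro ω _
          exact hout (rep ω)
      _ = Fintype.card Ω * k := by simp
      _ ≤ N * k := Nat.mul_le_mul_right _ hΩ
  let Hs : Ω → Subgroup (HG β) := fun ω =>
    { carrier := {a | Φ a (rep ω) = rep ω}
      one_mem' := by simp
      mul_mem' := by
        intro a b ha hb
        simp only [Set.mem_ofPred_eq] at *
        rw [map_mul, Equiv.Perm.mul_apply, hb, ha]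
      inv_mem' := by
        intro a ha
        simp only [Set.mem_ofPred_eq] at *
        rw [map_inv, Equiv.Perm.inv_eq_iff_eq, ha] }
  have hcount := finrank_ker_Psi (s := s) (N := N) (k := k) (fun ω => HG.U (Hs ω))
    (fun ω => HG.W (Hs ω)) (fun ω => HG.mul_le hβ (Hs ω))
    (fun p : P => (gg p.2.1).v) hΩ hP
  -- every element of the kernel comes from an inner automorphism
  let D : Vn n →ₗ[F] (Vn n →ₗ[F] Vn n) := β - β.flip
  have hle : LinearMap.ker (Psi (fun ω => HG.U (Hs ω)) (fun ω => HG.W (Hs ω))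
      (fun p : P => (gg p.2.1).v)) ≤ LinearMap.range D := by
    intro φ hφ
    rw [LinearMap.mem_ker] at hφ
    have hφ1 : ∀ ω, ∀ x ∈ HG.U (Hs ω), φ x ∈ HG.W (Hs ω) := by
      intro ω x hx
      have h1 := congrArg Prod.fst hφ
      have h2 := congrFun h1 ω
      have h3 := LinearMap.congr_fun h2 ⟨x, hx⟩
      have h4 : (HG.W (Hs ω)).mkQ (φ x) = 0 := h3
      exact (Submodule.Quotient.mk_eq_zero _).mp h4
    have hφ2 : ∀ ω y, X.Adj (rep ω) y → φ (gg y).v = 0 := by
      intro ω y hy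
      have h1 := congrArg Prod.snd hφ
      exact congrFun h1 ⟨ω, y, hy⟩
    have hpres : ∀ ψ : Vn n →ₗ[F] Vn n, (∀ ω, ∀ x ∈ HG.U (Hs ω), ψ x ∈ HG.W (Hs ω)) →
        ∀ ω, ∀ a : HG β, Φ a (rep ω) = rep ω → Φ (HG.cent ψ a) (rep ω) = rep ω := by
      intro ψ hψ ω a ha
      have h1 : a ∈ Hs ω := ha
      have h2 : (⟨0, ψ a.v⟩ : HG β) ∈ Hs ω := hψ ω a.v ⟨a, h1, rfl⟩
      have h3 : HG.cent ψ a = ⟨0, ψ a.v⟩ * a := by
        ext1
        · simp
        · simp [add_comm]
      have h4 : HG.cent ψ a ∈ Hs ω := by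
        rw [h3]
        exact (Hs ω).mul_mem h2 h1
      exact h4
    obtain ⟨h, hh⟩ := exists_conj X Φ hinj haut q rep hq gg hgg φ (hpres φ hφ1)
      (hpres (-φ) (fun ω x hx => by
        rw [LinearMap.neg_apply]
        exact Submodule.neg_mem _ (hφ1 ω x hx))) hφ2 hqrep
    refine ⟨h.v, ?_⟩
    refine LinearMap.ext fun x => ?_
    have h1 := congrArg HG.z (hh ⟨x, 0⟩)
    simp only [HG.mul_z, HG.cent_z, HG.cent_v, zero_add, add_zero] at h1
    simp only [D, LinearMap.sub_apply, LinearMap.flip_apply]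
    have h2 : φ x = β h.v x - β x h.v := by
      have h3 : φ x + h.z + β x h.v = h.z + β h.v x := h1
      have h4 : φ x = (φ x + h.z + β x h.v) - h.z - β x h.v := by abel
      rw [h4, h3]
      abel
    rw [h2]
  have hfin1 := Submodule.finrank_mono hle
  have hfin2 := LinearMap.finrank_range_le D
  rw [Module.finrank_fin_fun] at hfin2
  have hfin : Module.finrank F (LinearMap.ker (Psi (fun ω => HG.U (Hs ω))
      (fun ω => HG.W (Hs ω)) (fun p : P => (gg p.2.1).v))) ≤ n := hfin1.trans hfin2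
  have h6 : n * n ≤ n + N * (2 * s * n) + N * k * n :=
    hcount.trans (Nat.add_le_add_right (Nat.add_le_add_right hfin _) _)
  have h7 : n * n ≤ n * (1 + 2 * N * s + N * k) := by
    calc n * n ≤ n + N * (2 * s * n) + N * k * n := h6
      _ = n * (1 + 2 * N * s + N * k) := by ring
  have h8 : n ≤ 1 + 2 * N * s + N * k := Nat.le_of_mul_le_mul_left h7 (by omega)
  omega



/-- For all k and N there is a finite group G such that every finite loopless digraph with all out-degrees at most k and automorphism group isomorphic to G has more than N automorphism orbits. -/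
theorem result :
    ∀ k N : ℕ, ∃ (G : Type) (_ : Group G) (_ : Finite G),
      ∀ (V : Type) [Finite V] (X : Digraph V) (φ : G →* Equiv.Perm V),
        (∀ x, ¬ X.Adj x x) →
        (∀ x, Set.ncard {y | X.Adj x y} ≤ k) →
        Function.Injective φ →
        (∀ σ : Equiv.Perm V, σ ∈ φ.range ↔ ∀ x y, (X.Adj (σ x) (σ y) ↔ X.Adj x y)) →
        ∃ f : Fin (N + 1) → V, ∀ (i j : Fin (N + 1)) (g : G), φ g (f i) = f j → i = j := by
  intro k N
  exact mainThm k N

end Pool.Agent.S05203
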