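import Pool.Statements.S05268

set_option autoImplicit false
open Pool Pool.MP_28acb3_co

namespace Pool.Agent.S05268

/-- Ordered incidence table of the 25 C-edges on eight vertices. -/
def M : ℕ := 12756639723021148865059897377596536466744612251311859736674848281205152938716350621164866648830609571794778495234975423583183531729942329322702585731072

/-- The edge test read off the table. -/
def ed (a b c : Fin 8) : Bool := M.testBit (64 * a.val + 8 * b.val + c.val)

/-- The 25 C-edges. -/
def E : Finset (Finset (Fin 8)) :=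
  {{0, 1, 3}, {1, 2, 3}, {0, 1, 4}, {0, 2, 4}, {0, 2, 5}, {0, 4, 5}, {2, 4, 5}, {3, 4, 5}, {1, 2, 6}, {0, 3, 6}, {3, 4, 6}, {1, 5, 6}, {3, 5, 6}, {4, 5, 6}, {0, 2, 7}, {1, 2, 7}, {3, 4, 7}, {1, 5, 7}, {3, 5, 7}, {4, 5, 7}, {1, 6, 7}, {2, 6, 7}, {3, 6, 7}, {4, 6, 7}, {5, 6, 7}}

theorem memE : ∀ a b c : Fin 8, (({a, b, c} : Finset (Fin 8)) ∈ E ↔ ed a b c = true) := by
  decide +kernel

theorem cardE : ∀ e ∈ E, e.card = 3 := by decide +kernel

theorem noV1 : ∀ a b c : Fin 8, ed a b c = true → ∀ d : Fin 8, ed a c d = true →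
    ed a b d = true → ed b c d = true := by decide +kernel

theorem noV2 : ∀ a b c : Fin 8, ed a b c = true → ∀ d e : Fin 8, ed a d e = true →
    (ed a b d || ed a b e || ed a c d || ed a c e || ed b c d || ed b c e || ed b d e
      || ed c d e) = true := by decide +kernel

theorem noV3 : ∀ a b c : Fin 8, ed a b c = true → ∀ d : Fin 8, ed a c d = true → ∀ e : Fin 8,
    ed a d e = true →
    (ed a b d || ed a b e || ed a c e || ed b c d || ed b c e || ed b d e
      || ed c d e) = true := by decide +kernel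

theorem noV4 : ∀ a b c : Fin 8, ed a b c = true → ∀ d : Fin 8, ed a c d = true → ∀ e : Fin 8,
    ed a d e = true → ed a b e = true →
    (ed a b d || ed a c e || ed b c d || ed b c e || ed b d e
      || ed c d e) = true ∨ b = d ∨ c = e := by decide +kernel

theorem noV5 : ∀ a b c : Fin 8, ed a b c = true → ∀ d : Fin 8, ed b c d = true → ∀ e : Fin 8,
    ed c d e = true → ed a d e = true → ed a b e = true →
    (ed a b d || ed a c d || ed a c e || ed b c e || ed b d e) = true := by decide +kernel

theorem noK1 : ∀ a b d : Fin 8, ed a b d = true → ∀ e : Fin 8, ed a d e = true → ∀ c : Fin 8,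
    ed a c e = true → ed b c e = true → ∀ f : Fin 8, ed c d f = true → ed b e f = true →
    ed a c f = true → ed b d f = true →
    (ed a b c || ed a b e || ed a b f || ed a c d || ed a d f || ed a e f || ed b c d
      || ed b c f || ed b d e || ed c d e || ed c e f || ed d e f) = true := by decide +kernel

/-- Two of three colours agree. -/
def ok (a b c : Fin 3) : Bool := a == b || a == c || b == c

/-- The colour `k` is not used. -/
def miss (k c0 c1 c2 c3 c4 c5 c6 c7 : Fin 3) : Bool :=
  c0 != k && c1 != k && c2 != k && c3 != k && c4 != k && c5 != k && c6 != k && c7 != k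

/-- A test for all three colours. -/
def L3 (p : Fin 3 → Bool) : Bool := p 0 && p 1 && p 2

theorem L3_spec {p : Fin 3 → Bool} (h : L3 p = true) (x : Fin 3) : p x = true := by
  unfold L3 at h
  rw [Bool.and_eq_true, Bool.and_eq_true] at h
  fin_cases x
  · exact h.1.1
  · exact h.1.2
  · exact h.2

/-- The exhaustive search through the colourings with three colours. -/
def search : Bool :=
  L3 fun c0 => L3 fun c1 => L3 fun c3 => (!(ok c0 c1 c3) ||
    L3 fun c4 => (!(ok c0 c1 c4) ||
    L3 fun c2 => (!(ok c1 c2 c3 && ok c0 c2 c4) ||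
    L3 fun c5 => (!(ok c0 c2 c5 && ok c0 c4 c5 && ok c2 c4 c5 && ok c3 c4 c5) ||
    L3 fun c6 => (!(ok c1 c2 c6 && ok c0 c3 c6 && ok c3 c4 c6 && ok c1 c5 c6 && ok c3 c5 c6 && ok c4 c5 c6) ||
    L3 fun c7 => (!(ok c0 c2 c7 && ok c1 c2 c7 && ok c3 c4 c7 && ok c1 c5 c7 && ok c3 c5 c7 && ok c4 c5 c7 && ok c1 c6 c7 && ok c2 c6 c7 && ok c3 c6 c7 && ok c4 c6 c7 && ok c5 c6 c7) ||
    (miss 0 c0 c1 c2 c3 c4 c5 c6 c7 || miss 1 c0 c1 c2 c3 c4 c5 c6 c7 || miss 2 c0 c1 c2 c3 c4 c5 c6 c7)))))))

theorem search_true : search = true := by decide +kernel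

theorem noColor (c : Fin 8 → Fin 3)
    (h : ∀ u v w : Fin 8, ed u v w = true → ok (c u) (c v) (c w) = true) :
    (miss 0 (c 0) (c 1) (c 2) (c 3) (c 4) (c 5) (c 6) (c 7) ||
     miss 1 (c 0) (c 1) (c 2) (c 3) (c 4) (c 5) (c 6) (c 7) ||
     miss 2 (c 0) (c 1) (c 2) (c 3) (c 4) (c 5) (c 6) (c 7)) = true := by
  have s := search_true
  unfold search at s
  have s := L3_spec s (c 0)
  have s := L3_spec s (c 1)
  have s := L3_spec s (c 3)
  have h013 := h 0 1 3 (by decide +kernel)
  simp only [h013, Bool.and_true, Bool.not_true, Bool.false_or] at s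
  have s := L3_spec s (c 4)
  have h014 := h 0 1 4 (by decide +kernel)
  simp only [h014, Bool.and_true, Bool.not_true, Bool.false_or] at s
  have s := L3_spec s (c 2)
  have h123 := h 1 2 3 (by decide +kernel)
  have h024 := h 0 2 4 (by decide +kernel)
  simp only [h123, h024, Bool.and_true, Bool.not_true, Bool.false_or] at s
  have s := L3_spec s (c 5)
  have h025 := h 0 2 5 (by decide +kernel)
  have h045 := h 0 4 5 (by decide +kernel)
  have h245 := h 2 4 5 (by decide +kernel)
  have h345 := h 3 4 5 (by decide +kernel)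
  simp only [h025, h045, h245, h345, Bool.and_true, Bool.not_true, Bool.false_or] at s
  have s := L3_spec s (c 6)
  have h126 := h 1 2 6 (by decide +kernel)
  have h036 := h 0 3 6 (by decide +kernel)
  have h346 := h 3 4 6 (by decide +kernel)
  have h156 := h 1 5 6 (by decide +kernel)
  have h356 := h 3 5 6 (by decide +kernel)
  have h456 := h 4 5 6 (by decide +kernel)
  simp only [h126, h036, h346, h156, h356, h456, Bool.and_true, Bool.not_true, Bool.false_or] at s
  have s := L3_spec s (c 7)
  have h027 := h 0 2 7 (by decide +kernel)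
  have h127 := h 1 2 7 (by decide +kernel)
  have h347 := h 3 4 7 (by decide +kernel)
  have h157 := h 1 5 7 (by decide +kernel)
  have h357 := h 3 5 7 (by decide +kernel)
  have h457 := h 4 5 7 (by decide +kernel)
  have h167 := h 1 6 7 (by decide +kernel)
  have h267 := h 2 6 7 (by decide +kernel)
  have h367 := h 3 6 7 (by decide +kernel)
  have h467 := h 4 6 7 (by decide +kernel)
  have h567 := h 5 6 7 (by decide +kernel)
  simp only [h027, h127, h347, h157, h357, h457, h167, h267, h367, h467, h567, Bool.and_true, Bool.not_true, Bool.false_or] at s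
  exact s

/-- The edge test on images. -/
theorem key (f : ℕ → Fin 8) (x y z : ℕ) :
    ((({x, y, z} : Finset ℕ).image f) ∈ E) ↔ ed (f x) (f y) (f z) = true := by
  rw [Finset.image_insert, Finset.image_insert, Finset.image_singleton]
  exact memE _ _ _

theorem eight (x : Fin 8) : x = 0 ∨ x = 1 ∨ x = 2 ∨ x = 3 ∨ x = 4 ∨ x = 5 ∨ x = 6 ∨ x = 7 := by
  revert x
  decide

/-- No colouring uses three colours. -/
theorem few (c : Fin 8 → ℕ)
    (hc : ∀ e ∈ E, e ⊆ (Finset.univ : Finset (Fin 8)) → ∃ x ∈ e, ∃ y ∈ e, x ≠ y ∧ c x = c y) :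
    ((Finset.univ : Finset (Fin 8)).image c).card ≤ 2 := by
  by_contra hcard
  rw [not_le, Finset.two_lt_card] at hcard
  obtain ⟨a, ha, b, hb, d, hd, hab, had, hbd⟩ := hcard
  rw [Finset.mem_image] at ha hb hd
  obtain ⟨x, -, rfl⟩ := ha
  obtain ⟨y, -, rfl⟩ := hb
  obtain ⟨z, -, rfl⟩ := hd
  let c' : Fin 8 → Fin 3 := fun v => if c v = c x then 0 else if c v = c y then 1 else 2
  have hmerge : ∀ u v, c u = c v → c' u = c' v := by
    intro u v h
    simp only [c', h]
  have hok : ∀ u v w : Fin 8, ed u v w = true → ok (c' u) (c' v) (c' w) = true := by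
    intro u v w h
    obtain ⟨p, hp, q, hq, hpq, he⟩ := hc _ ((memE u v w).mpr h) (Finset.subset_univ _)
    have h' := hmerge p q he
    simp only [Finset.mem_insert, Finset.mem_singleton] at hp hq
    simp only [ok, Bool.or_eq_true, beq_iff_eq]
    rcases hp with rfl | rfl | rfl <;> rcases hq with rfl | rfl | rfl <;>
      first
        | exact absurd rfl hpq
        | exact Or.inl (Or.inl h')
        | exact Or.inl (Or.inl h'.symm)
        | exact Or.inl (Or.inr h')
        | exact Or.inl (Or.inr h'.symm)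
        | exact Or.inr h'
        | exact Or.inr h'.symm
  have h0 : c' x = 0 := if_pos rfl
  have h1 : c' y = 1 := by
    change (if c y = c x then (0 : Fin 3) else if c y = c y then 1 else 2) = 1
    rw [if_neg (fun h => hab h.symm), if_pos rfl]
  have h2 : c' z = 2 := by
    change (if c z = c x then (0 : Fin 3) else if c z = c y then 1 else 2) = 2
    rw [if_neg (fun h => had h.symm), if_neg (fun h => hbd h.symm)]
  have hno : ∀ (k : Fin 3) (t : Fin 8), c' t = k →
      miss k (c' 0) (c' 1) (c' 2) (c' 3) (c' 4) (c' 5) (c' 6) (c' 7) = false := by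
    intro k t ht
    rcases eight t with rfl | rfl | rfl | rfl | rfl | rfl | rfl | rfl <;>
      simp [miss, ht]
  have hfin := noColor c' hok
  rw [hno 0 x h0, hno 1 y h1, hno 2 z h2] at hfin
  exact absurd hfin (by decide)

theorem imperfect :
    sSup {k : ℕ | ∃ c : Fin 8 → ℕ,
      (∀ e ∈ E, e ⊆ (Finset.univ : Finset (Fin 8)) → ∃ x ∈ e, ∃ y ∈ e, x ≠ y ∧ c x = c y) ∧
      ((Finset.univ : Finset (Fin 8)).image c).card = k} ≠
    sSup {k : ℕ | ∃ T ⊆ (Finset.univ : Finset (Fin 8)), (∀ e ∈ E, ¬ e ⊆ T) ∧ T.card = k} := by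
  have h1 : sSup {k : ℕ | ∃ c : Fin 8 → ℕ,
      (∀ e ∈ E, e ⊆ (Finset.univ : Finset (Fin 8)) → ∃ x ∈ e, ∃ y ∈ e, x ≠ y ∧ c x = c y) ∧
      ((Finset.univ : Finset (Fin 8)).image c).card = k} ≤ 2 := by
    apply csSup_le'
    rintro k ⟨c, hc, rfl⟩
    exact few c hc
  have h2 : 3 ≤ sSup {k : ℕ | ∃ T ⊆ (Finset.univ : Finset (Fin 8)),
      (∀ e ∈ E, ¬ e ⊆ T) ∧ T.card = k} := by
    apply le_csSup
    · refine ⟨8, ?_⟩
      rintro k ⟨T, -, -, rfl⟩
      exact (Finset.card_le_univ T).trans (by simp)
    · exact ⟨{0, 1, 2}, Finset.subset_univ _, by decide +kernel, by decide⟩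
  omega

/-- The negation of the preceding statement: A finite 3-uniform C-hypergraph has upper chromatic number equal to C-stability number on every induced subhypergraph if and only if it contains none of V1, V2, V3, V4, V5 (= C5^3) or K1 as an induced subhypergraph. -/
theorem result :
    ¬ (∀ (V : Type) [Fintype V] [DecidableEq V] (E : Finset (Finset V)),
      (∀ e ∈ E, e.card = 3) →
      ((∀ S : Finset V,
          sSup {k : ℕ | ∃ c : V → ℕ,
              (∀ e ∈ E, e ⊆ S → ∃ x ∈ e, ∃ y ∈ e, x ≠ y ∧ c x = c y) ∧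
              (S.image c).card = k} =
          sSup {k : ℕ | ∃ T ⊆ S, (∀ e ∈ E, ¬ e ⊆ T) ∧ T.card = k})
        ↔
       ∀ F ∈ ([({{1,2,3},{1,3,4},{1,2,4}} : Finset (Finset ℕ)),
               ({{1,2,3},{1,4,5}} : Finset (Finset ℕ)),
               ({{1,2,3},{1,3,4},{1,4,5}} : Finset (Finset ℕ)),
               ({{1,2,3},{1,3,4},{1,4,5},{1,2,5}} : Finset (Finset ℕ)),
               ({{1,2,3},{2,3,4},{3,4,5},{4,5,1},{5,1,2}} : Finset (Finset ℕ)),
               ({{1,2,4},{2,3,5},{3,4,6},{4,5,1},{5,6,2},{6,1,3},{1,3,5},{2,4,6}} :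
                  Finset (Finset ℕ))] : List (Finset (Finset ℕ))),
         ¬ ∃ f : ℕ → V, Set.InjOn f ↑(F.biUnion id) ∧
             ∀ T ⊆ F.biUnion id, (T.image f ∈ E ↔ T ∈ F))) := by
  intro H
  refine imperfect (((H (Fin 8) E cardE).mpr ?_) Finset.univ)
  intro F hF
  simp only [List.mem_cons, List.not_mem_nil, or_false] at hF
  rintro ⟨f, hinj, h⟩
  rcases hF with rfl | rfl | rfl | rfl | rfl | rfl
  · -- V1
    have e := fun (x y z : ℕ) (hs : ({x, y, z} : Finset ℕ) ⊆ _) => (key f x y z).symm.trans (h {x, y, z} hs)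
    have a1 := (e 1 2 3 (by decide)).mpr (by decide)
    have a2 := (e 1 3 4 (by decide)).mpr (by decide)
    have a3 := (e 1 2 4 (by decide)).mpr (by decide)
    have a4 := noV1 _ _ _ a1 _ a2 a3
    exact absurd ((e 2 3 4 (by decide)).mp a4) (by decide)
  · -- V2
    have e := fun (x y z : ℕ) (hs : ({x, y, z} : Finset ℕ) ⊆ _) => (key f x y z).symm.trans (h {x, y, z} hs)
    have a1 := (e 1 2 3 (by decide)).mpr (by decide)
    have a2 := (e 1 4 5 (by decide)).mpr (by decide)
    have r := noV2 _ _ _ a1 _ _ a2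
    simp only [Bool.or_eq_true] at r
    rcases r with ((((((r | r) | r) | r) | r) | r) | r) | r
    · exact absurd ((e 1 2 4 (by decide)).mp r) (by decide)
    · exact absurd ((e 1 2 5 (by decide)).mp r) (by decide)
    · exact absurd ((e 1 3 4 (by decide)).mp r) (by decide)
    · exact absurd ((e 1 3 5 (by decide)).mp r) (by decide)
    · exact absurd ((e 2 3 4 (by decide)).mp r) (by decide)
    · exact absurd ((e 2 3 5 (by decide)).mp r) (by decide)
    · exact absurd ((e 2 4 5 (by decide)).mp r) (by decide)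
    · exact absurd ((e 3 4 5 (by decide)).mp r) (by decide)
  · -- V3
    have e := fun (x y z : ℕ) (hs : ({x, y, z} : Finset ℕ) ⊆ _) => (key f x y z).symm.trans (h {x, y, z} hs)
    have a1 := (e 1 2 3 (by decide)).mpr (by decide)
    have a2 := (e 1 3 4 (by decide)).mpr (by decide)
    have a3 := (e 1 4 5 (by decide)).mpr (by decide)
    have r := noV3 _ _ _ a1 _ a2 _ a3
    simp only [Bool.or_eq_true] at r
    rcases r with (((((r | r) | r) | r) | r) | r) | r
    · exact absurd ((e 1 2 4 (by decide)).mp r) (by decide)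
    · exact absurd ((e 1 2 5 (by decide)).mp r) (by decide)
    · exact absurd ((e 1 3 5 (by decide)).mp r) (by decide)
    · exact absurd ((e 2 3 4 (by decide)).mp r) (by decide)
    · exact absurd ((e 2 3 5 (by decide)).mp r) (by decide)
    · exact absurd ((e 2 4 5 (by decide)).mp r) (by decide)
    · exact absurd ((e 3 4 5 (by decide)).mp r) (by decide)
  · -- V4
    have e := fun (x y z : ℕ) (hs : ({x, y, z} : Finset ℕ) ⊆ _) => (key f x y z).symm.trans (h {x, y, z} hs)
    have a1 := (e 1 2 3 (by decide)).mpr (by decide)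
    have a2 := (e 1 3 4 (by decide)).mpr (by decide)
    have a3 := (e 1 4 5 (by decide)).mpr (by decide)
    have a4 := (e 1 2 5 (by decide)).mpr (by decide)
    have r := noV4 _ _ _ a1 _ a2 _ a3 a4
    simp only [Bool.or_eq_true] at r
    rcases r with (((((r | r) | r) | r) | r) | r) | r | r
    · exact absurd ((e 1 2 4 (by decide)).mp r) (by decide)
    · exact absurd ((e 1 3 5 (by decide)).mp r) (by decide)
    · exact absurd ((e 2 3 4 (by decide)).mp r) (by decide)
    · exact absurd ((e 2 3 5 (by decide)).mp r) (by decide)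
    · exact absurd ((e 2 4 5 (by decide)).mp r) (by decide)
    · exact absurd ((e 3 4 5 (by decide)).mp r) (by decide)
    · exact absurd (hinj (show 2 ∈ _ by decide) (show 4 ∈ _ by decide) r) (by decide)
    · exact absurd (hinj (show 3 ∈ _ by decide) (show 5 ∈ _ by decide) r) (by decide)
  · -- V5
    have e := fun (x y z : ℕ) (hs : ({x, y, z} : Finset ℕ) ⊆ _) => (key f x y z).symm.trans (h {x, y, z} hs)
    have a1 := (e 1 2 3 (by decide)).mpr (by decide)
    have a2 := (e 2 3 4 (by decide)).mpr (by decide)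
    have a3 := (e 3 4 5 (by decide)).mpr (by decide)
    have a4 := (e 1 4 5 (by decide)).mpr (by decide)
    have a5 := (e 1 2 5 (by decide)).mpr (by decide)
    have r := noV5 _ _ _ a1 _ a2 _ a3 a4 a5
    simp only [Bool.or_eq_true] at r
    rcases r with (((r | r) | r) | r) | r
    · exact absurd ((e 1 2 4 (by decide)).mp r) (by decide)
    · exact absurd ((e 1 3 4 (by decide)).mp r) (by decide)
    · exact absurd ((e 1 3 5 (by decide)).mp r) (by decide)
    · exact absurd ((e 2 3 5 (by decide)).mp r) (by decide)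
    · exact absurd ((e 2 4 5 (by decide)).mp r) (by decide)
  · -- K1
    have e := fun (x y z : ℕ) (hs : ({x, y, z} : Finset ℕ) ⊆ _) => (key f x y z).symm.trans (h {x, y, z} hs)
    have a1 := (e 1 2 4 (by decide)).mpr (by decide)
    have a2 := (e 1 4 5 (by decide)).mpr (by decide)
    have a3 := (e 1 3 5 (by decide)).mpr (by decide)
    have a4 := (e 2 3 5 (by decide)).mpr (by decide)
    have a5 := (e 3 4 6 (by decide)).mpr (by decide)
    have a6 := (e 2 5 6 (by decide)).mpr (by decide)
    have a7 := (e 1 3 6 (by decide)).mpr (by decide)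
    have a8 := (e 2 4 6 (by decide)).mpr (by decide)
    have r := noK1 _ _ _ a1 _ a2 _ a3 a4 _ a5 a6 a7 a8
    simp only [Bool.or_eq_true] at r
    rcases r with ((((((((((r | r) | r) | r) | r) | r) | r) | r) | r) | r) | r) | r
    · exact absurd ((e 1 2 3 (by decide)).mp r) (by decide)
    · exact absurd ((e 1 2 5 (by decide)).mp r) (by decide)
    · exact absurd ((e 1 2 6 (by decide)).mp r) (by decide)
    · exact absurd ((e 1 3 4 (by decide)).mp r) (by decide)
    · exact absurd ((e 1 4 6 (by decide)).mp r) (by decide)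
    · exact absurd ((e 1 5 6 (by decide)).mp r) (by decide)
    · exact absurd ((e 2 3 4 (by decide)).mp r) (by decide)
    · exact absurd ((e 2 3 6 (by decide)).mp r) (by decide)
    · exact absurd ((e 2 4 5 (by decide)).mp r) (by decide)
    · exact absurd ((e 3 4 5 (by decide)).mp r) (by decide)
    · exact absurd ((e 3 5 6 (by decide)).mp r) (by decide)
    · exact absurd ((e 4 5 6 (by decide)).mp r) (by decide)

end Pool.Agent.S05268
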