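import Pool.Statements.S05279
-- import your own Pool.Agent.* helpers here

set_option autoImplicit false
open Pool Pool.MP_29c0fe_co

namespace Pool.Agent.S05279

/-- The arcs of the Cayley digraph of `ZMod 12` with connection set `{2,3,8}`. -/
def r (u v : Fin 12) : Prop := v = u + 2 ∨ v = u + 3 ∨ v = u + 8

instance : DecidableRel r := fun u v => by unfold r; infer_instance

/-- Depth-first search for a closed extension of a path: `fuel` steps still to be made, `c` is the
current vertex, `vis` the list of the visited vertices; the path has to come back to `0`. -/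
def srch : ℕ → Fin 12 → List (Fin 12) → Bool
  | 0, c, _ => decide (r c 0)
  | k + 1, c, vis =>
      (!(vis.contains (c + 2)) && srch k (c + 2) ((c + 2) :: vis)) ||
      ((!(vis.contains (c + 3)) && srch k (c + 3) ((c + 3) :: vis)) ||
      (!(vis.contains (c + 8)) && srch k (c + 8) ((c + 8) :: vis)))

theorem srch_false : srch 11 0 [0] = false := by decide +kernel

/-- the list `p j, p (j-1), ..., p 0` -/
def pre (p : ℕ → Fin 12) : ℕ → List (Fin 12)
  | 0 => [p 0]
  | j + 1 => p (j + 1) :: pre p j

theorem mem_pre (p : ℕ → Fin 12) : ∀ (j : ℕ) (x : Fin 12), x ∈ pre p j → ∃ i ≤ j, x = p i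
  | 0, x, h => by
      simp only [pre, List.mem_singleton] at h
      exact ⟨0, le_refl _, h⟩
  | j + 1, x, h => by
      simp only [pre, List.mem_cons] at h
      rcases h with h | h
      · exact ⟨j + 1, le_refl _, h⟩
      · obtain ⟨i, hi, hx⟩ := mem_pre p j x h
        exact ⟨i, by omega, hx⟩

theorem srch_sound (p : ℕ → Fin 12) (hinj : ∀ i j, i ≤ 11 → j ≤ 11 → p i = p j → i = j)
    (hr : ∀ i, i < 11 → r (p i) (p (i + 1))) (hlast : r (p 11) 0) :
    ∀ k, k ≤ 11 → srch k (p (11 - k)) (pre p (11 - k)) = true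
  | 0, _ => by
      simp only [srch, Nat.sub_zero, decide_eq_true_eq]
      exact hlast
  | k + 1, hk => by
      have ih := srch_sound p hinj hr hlast k (by omega)
      have e : 11 - k = (11 - (k + 1)) + 1 := by omega
      rw [e] at ih
      have hstep := hr (11 - (k + 1)) (by omega)
      set j := 11 - (k + 1) with hj
      have hnot : (pre p j).contains (p (j + 1)) = false := by
        rw [Bool.eq_false_iff]
        intro h
        rw [List.contains_iff_mem] at h
        obtain ⟨i, hi, hx⟩ := mem_pre p j _ h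
        have := hinj (j + 1) i (by omega) (by omega) hx
        omega
      have hpre : pre p (j + 1) = p (j + 1) :: pre p j := rfl
      rw [hpre] at ih
      simp only [srch, Bool.or_eq_true, Bool.and_eq_true, Bool.not_eq_true']
      rcases hstep with h | h | h
      · rw [h] at hnot ih
        exact Or.inl ⟨hnot, ih⟩
      · rw [h] at hnot ih
        exact Or.inr (Or.inl ⟨hnot, ih⟩)
      · rw [h] at hnot ih
        exact Or.inr (Or.inr ⟨hnot, ih⟩)

theorem nonham :
    ¬ (∃ σ : Equiv.Perm (Fin 12), ∀ i : Fin 12, r (σ i) (σ (finRotate 12 i))) := by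
  rintro ⟨σ, hσ⟩
  have hadd : ∀ i : Fin 12, finRotate 12 i = i + 1 := by decide
  let p : ℕ → Fin 12 := fun j => σ (Fin.ofNat 12 j) - σ 0
  have hp0 : p 0 = 0 := by
    show σ (Fin.ofNat 12 0) - σ 0 = 0
    have : (Fin.ofNat 12 0 : Fin 12) = 0 := rfl
    rw [this, sub_self]
  have htr : ∀ u v w : Fin 12, r u v → r (u - w) (v - w) := by
    decide +kernel
  have hr : ∀ i, i < 11 → r (p i) (p (i + 1)) := by
    intro i hi
    apply htr
    have h := hσ (Fin.ofNat 12 i)
    rw [hadd] at h
    have e : (Fin.ofNat 12 i : Fin 12) + 1 = Fin.ofNat 12 (i + 1) := by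
      apply Fin.ext
      simp only [Fin.ofNat, Fin.val_add, Fin.val_one]
      omega
    rwa [e] at h
  have hlast : r (p 11) 0 := by
    have h := hσ 11
    rw [hadd] at h
    have e : (11 : Fin 12) + 1 = 0 := by decide
    rw [e] at h
    have h2 := htr _ _ (σ 0) h
    rw [sub_self] at h2
    exact h2
  have hinj : ∀ i j, i ≤ 11 → j ≤ 11 → p i = p j → i = j := by
    intro i j hi hj h
    have h1 : σ (Fin.ofNat 12 i) = σ (Fin.ofNat 12 j) := sub_left_injective h
    have h2 := σ.injective h1
    have h3 := congrArg Fin.val h2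
    simp only [Fin.ofNat] at h3
    omega
  have h := srch_sound p hinj hr hlast 11 (le_refl _)
  have e : pre p (11 - 11) = [p 0] := rfl
  have e2 : p (11 - 11) = p 0 := rfl
  rw [e, e2, hp0, srch_false] at h
  exact Bool.noConfusion h

/-- Hamiltonian paths starting in `0` and ending in `2`, `3`, `8`. -/
def path2 : Fin 12 → Fin 12 := ![0, 3, 11, 1, 4, 7, 9, 5, 8, 10, 6, 2]
def path3 : Fin 12 → Fin 12 := ![0, 2, 4, 6, 9, 5, 8, 11, 7, 10, 1, 3]
def path8 : Fin 12 → Fin 12 := ![0, 2, 4, 6, 9, 11, 7, 10, 1, 3, 5, 8]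

theorem bij2 : Function.Bijective path2 := by
  rw [Finite.injective_iff_bijective.symm]; decide +kernel
theorem bij3 : Function.Bijective path3 := by
  rw [Finite.injective_iff_bijective.symm]; decide +kernel
theorem bij8 : Function.Bijective path8 := by
  rw [Finite.injective_iff_bijective.symm]; decide +kernel

theorem ham_of_path (q : Fin 12 → Fin 12) (hq : Function.Bijective q) (s : Fin 12)
    (h : ∀ a i : Fin 12,
      ((r (a + q i) (a + q (finRotate 12 i)) ∧ ¬ (a + q i = a ∧ a + q (finRotate 12 i) = a + s)) ∨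
            (a + q i = a + s ∧ a + q (finRotate 12 i) = a))) (a : Fin 12) :
    ∃ σ : Equiv.Perm (Fin 12), ∀ i : Fin 12,
      ((r (σ i) (σ (finRotate 12 i)) ∧ ¬ (σ i = a ∧ σ (finRotate 12 i) = a + s)) ∨
            (σ i = a + s ∧ σ (finRotate 12 i) = a)) := by
  refine ⟨(Equiv.ofBijective q hq).trans (Equiv.addLeft a), ?_⟩
  intro i
  exact h a i

/-- There is a finite oriented graph with at least one arc and no directed Hamiltonian cycle, such that reversing any single arc yields an oriented graph that has a directed Hamiltonian cycle. -/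
theorem result :
    ∃ n : ℕ, ∃ r : Fin n → Fin n → Prop,
      (∀ u v : Fin n, r u v → ¬ r v u) ∧
      (∃ a b : Fin n, r a b) ∧
      ¬ (∃ σ : Equiv.Perm (Fin n), ∀ i : Fin n, r (σ i) (σ (finRotate n i))) ∧
      ∀ a b : Fin n, r a b →
        ∃ σ : Equiv.Perm (Fin n), ∀ i : Fin n,
          ((r (σ i) (σ (finRotate n i)) ∧ ¬ (σ i = a ∧ σ (finRotate n i) = b)) ∨
            (σ i = b ∧ σ (finRotate n i) = a)) := by
  refine ⟨12, r, ?_, ⟨0, 2, by decide⟩, nonham, ?_⟩
  · decide +kernel
  · intro a b hab
    rcases hab with rfl | rfl | rfl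
    · exact ham_of_path path2 bij2 2 (by decide +kernel) a
    · exact ham_of_path path3 bij3 3 (by decide +kernel) a
    · exact ham_of_path path8 bij8 8 (by decide +kernel) a

end Pool.Agent.S05279
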