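import Pool.Statements.S05286
import Pool.Agent.H10Bond

set_option autoImplicit false
open Pool Pool.MP_29e5d4_co

namespace Pool.Agent.S05286

/-- The negation of the preceding statement: For every finite graph G in which deleting any single vertex lowers the domination number, deleting any set of at most δ(G) edges never raises the domination number; that is, the bondage number is at least δ(G)+1. -/
theorem result :
    ¬ (∀ (V : Type) [Fintype V] [DecidableEq V] (G : SimpleGraph V) [DecidableRel G.Adj]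
      (γ : SimpleGraph V → Set V → ℕ),
      (∀ (H : SimpleGraph V) (S : Set V),
        γ H S = sInf {n : ℕ | ∃ D : Finset V, (↑D : Set V) ⊆ S ∧ D.card = n ∧
          ∀ w ∈ S, w ∈ D ∨ ∃ u ∈ D, H.Adj u w}) →
      (∀ v : V, γ G {w | w ≠ v} < γ G Set.univ) →
      ∀ E' : Finset (Sym2 V), (↑E' : Set (Sym2 V)) ⊆ G.edgeSet →
        E'.card ≤ G.minDegree →
        γ (G.deleteEdges (↑E' : Set (Sym2 V))) Set.univ ≤ γ G Set.univ) := by
  intro hall
  have h := hall (Fin 18) Pool.Agent.H10Bond.G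
    (fun H S => sInf {n : ℕ | ∃ D : Finset (Fin 18), (↑D : Set (Fin 18)) ⊆ S ∧ D.card = n ∧
          ∀ w ∈ S, w ∈ D ∨ ∃ u ∈ D, H.Adj u w}) (fun H S => rfl) ?_
    Pool.Agent.H10Bond.E' (fun e he => Pool.Agent.H10Bond.E'_sub e (Finset.mem_coe.1 he))
    (le_trans (by decide) Pool.Agent.H10Bond.minDeg)
  · -- the domination number of `G` is at most 5, that of `G - E'` is at least 6
    have h5 : sInf {n : ℕ | ∃ D : Finset (Fin 18), (↑D : Set (Fin 18)) ⊆ Set.univ ∧ D.card = n ∧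
          ∀ w ∈ (Set.univ : Set (Fin 18)), w ∈ D ∨ ∃ u ∈ D, Pool.Agent.H10Bond.G.Adj u w} ≤ 5 :=
      Nat.sInf_le ⟨Pool.Agent.H10Bond.D5, Set.subset_univ _, by decide,
        fun w _ => Pool.Agent.H10Bond.D5_dom w⟩
    have hle := le_trans h h5
    have hmem := Nat.sInf_mem (s := {n : ℕ | ∃ D : Finset (Fin 18),
      (↑D : Set (Fin 18)) ⊆ Set.univ ∧ D.card = n ∧
      ∀ w ∈ (Set.univ : Set (Fin 18)), w ∈ D ∨ ∃ u ∈ D,
        (Pool.Agent.H10Bond.G.deleteEdges (↑Pool.Agent.H10Bond.E' : Set (Sym2 (Fin 18)))).Adj u w})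
      ⟨_, Finset.univ, Set.subset_univ _, rfl, fun w _ => Or.inl (Finset.mem_univ w)⟩
    obtain ⟨D, _, hcard, hdom⟩ := hmem
    apply Pool.Agent.H10Bond.noDom_sound _ _ Pool.Agent.H10Bond.hM_G' 5 0 Pool.Agent.H10Bond.no5
    exact ⟨D, by rw [hcard]; exact hle, fun v _ => hdom v (Set.mem_univ v)⟩
  · intro v
    have h4 : sInf {n : ℕ | ∃ D : Finset (Fin 18), (↑D : Set (Fin 18)) ⊆ {w | w ≠ v} ∧ D.card = n ∧
          ∀ w ∈ ({w | w ≠ v} : Set (Fin 18)), w ∈ D ∨ ∃ u ∈ D, Pool.Agent.H10Bond.G.Adj u w} ≤ 4 := by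
      apply Nat.sInf_le
      refine ⟨Pool.Agent.H10Bond.Dv v, ?_, Pool.Agent.H10Bond.Dv_card v, fun w hw =>
        Pool.Agent.H10Bond.Dv_dom v w hw⟩
      intro w hw
      rw [Finset.mem_coe] at hw
      rintro rfl
      exact Pool.Agent.H10Bond.Dv_not _ hw
    refine lt_of_le_of_lt h4 ?_
    have hmem := Nat.sInf_mem (s := {n : ℕ | ∃ D : Finset (Fin 18),
      (↑D : Set (Fin 18)) ⊆ Set.univ ∧ D.card = n ∧
      ∀ w ∈ (Set.univ : Set (Fin 18)), w ∈ D ∨ ∃ u ∈ D, Pool.Agent.H10Bond.G.Adj u w})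
      ⟨_, Finset.univ, Set.subset_univ _, rfl, fun w _ => Or.inl (Finset.mem_univ w)⟩
    obtain ⟨D, _, hcard, hdom⟩ := hmem
    by_contra hlt
    apply Pool.Agent.H10Bond.noDom_sound _ _ Pool.Agent.H10Bond.hM_G 4 0 Pool.Agent.H10Bond.no4
    exact ⟨D, by rw [hcard]; exact not_lt.1 hlt, fun v _ => hdom v (Set.mem_univ v)⟩

end Pool.Agent.S05286
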