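import Pool.Statements.S05310
import Pool.Agent.H10BlockB

set_option autoImplicit false
open Pool Pool.MP_2bb7c5_co

namespace Pool.Agent.S05310

/-- The negation of the preceding statement: For every c>0 there is C such that any family of subsets of an n-set, each of size more than c√n and pairwise meeting in at most one point, has a set B meeting every member in between 1 and C points. -/
theorem result :
    ¬ (∀ c : ℝ, 0 < c → ∃ C : ℕ, ∀ n : ℕ, ∀ F : Finset (Finset (Fin n)),
      (∀ A ∈ F, c * Real.sqrt (n : ℝ) < ((A.card : ℕ) : ℝ)) →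
      (∀ A ∈ F, ∀ A' ∈ F, A ≠ A' → (A ∩ A').card < 2) →
      ∃ B : Finset (Fin n), ∀ A ∈ F, 1 ≤ (A ∩ B).card ∧ (A ∩ B).card ≤ C) := by
  intro h
  obtain ⟨C, hC⟩ := h (1 / 5) (by norm_num)
  exact Pool.Agent.H10Block.main C hC

end Pool.Agent.S05310
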