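import Pool.Statements.S05384
import Pool.Agent.H10Core

set_option autoImplicit false
open Pool Pool.MP_308b22_co

namespace Pool.Agent.S05384

/-- The negation of the preceding statement: For d,m ≥ 1 and finite S in R^d, every extreme point of the m-core (points whose every containing closed half-space holds at least m points of S) admits a partition of S into m parts whose convex hulls all contain it. -/
theorem result :
    ¬ (∀ (d m : ℕ), 1 ≤ d → 1 ≤ m → ∀ (S : Finset (EuclideanSpace ℝ (Fin d))),
      ∀ y ∈ Set.extremePoints ℝ
          {z : EuclideanSpace ℝ (Fin d) |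
            ∀ (a : EuclideanSpace ℝ (Fin d)) (b : ℝ), a ≠ 0 → inner ℝ a z ≤ b →
              m ≤ (S.filter (fun x => inner ℝ a x ≤ b)).card},
        ∃ f : EuclideanSpace ℝ (Fin d) → Fin m, ∀ i : Fin m,
          y ∈ convexHull ℝ
            ((S.filter (fun x => f x = i) : Finset (EuclideanSpace ℝ (Fin d))) :
              Set (EuclideanSpace ℝ (Fin d)))) := by
  intro h
  obtain ⟨f, hf⟩ := h 2 3 (by norm_num) (by norm_num) Pool.Agent.H10Core.S 0
    Pool.Agent.H10Core.extreme
  exact Pool.Agent.H10Core.not_div f hf

end Pool.Agent.S05384
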