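import Pool.Statements.S05400

set_option autoImplicit false
open Pool Pool.MP_321260_co

namespace Pool.Agent.S05400

/-! ## The gadget -/

/-- adjacency lists of the gadget on `0, …, 17` -/
def nbT : List (List ℕ) := [[1, 17], [0, 2, 7, 10, 11, 15], [1, 3], [2, 4, 17], [3, 5, 13],
  [4, 6, 9], [5, 7, 12], [1, 6, 8], [7, 9, 16], [5, 8, 10, 14], [1, 9, 11], [1, 10, 12],
  [6, 11, 13], [4, 12, 14], [9, 13, 15], [1, 14, 16], [8, 15, 17], [0, 3, 16]]

/-- adjacency matrix of the gadget, as the bits of a number -/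
def GM : ℕ :=
  8545203085315228499701508170031986479582526612834812326007494347924564099074170010526317584711682

def gad (x y : Fin 18) : Bool := GM.testBit (18 * x.val + y.val)

lemma gad_nb : ∀ x y : Fin 18, gad x y = true → y.val ∈ nbT.getD x.val [] := by decide +kernel

lemma gad_symm : ∀ x y : Fin 18, gad x y = true → gad y x = true := by decide +kernel

def notIn (w : ℕ) : List ℕ → Bool
  | [] => true
  | x :: xs => cond (Nat.beq w x) false (notIn w xs)

lemma notIn_of (w : ℕ) (l : List ℕ) (h : w ∉ l) : notIn w l = true := by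
  induction l with
  | nil => rfl
  | cons x xs ih =>
    rw [List.mem_cons, not_or] at h
    have : Nat.beq w x = false := by
      rw [← Bool.not_eq_true]; intro h'; exact h.1 (Nat.eq_of_beq_eq_true h')
    rw [notIn, this, cond_false]
    exact ih h.2

/-- search for a path to `t` that satisfies `test` -/
def go (t : ℕ) (test : List ℕ → Bool) : ℕ → ℕ → List ℕ → Bool
  | 0, _, _ => false
  | f + 1, v, acc =>
      cond (Nat.beq v t) (test (v :: acc))
        ((nbT.getD v []).any fun w => cond (notIn w (v :: acc)) (go t test f w (v :: acc)) false)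

lemma go_sound (t : ℕ) (test : List ℕ → Bool) : ∀ (p : List ℕ) (v f : ℕ) (acc : List ℕ),
    p.length < f → (v :: p).IsChain (fun a b => b ∈ nbT.getD a []) →
    (acc.reverse ++ v :: p).Nodup → (v :: p).getLast? = some t →
    test ((v :: p).reverse ++ acc) = true → go t test f v acc = true := by
  intro p
  induction p with
  | nil =>
    intro v f acc hf _ _ hl ht
    rcases f with _ | f
    · simp at hf
    · rw [List.getLast?_singleton, Option.some.injEq] at hl
      subst hl
      rw [go, Nat.beq_refl, cond_true]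
      exact ht
  | cons w p ih =>
    intro v f acc hf hc hn hl ht
    rcases f with _ | f
    · simp at hf
    · rw [List.getLast?_cons_cons] at hl
      have htm : t ∈ w :: p := List.mem_of_getLast? hl
      rw [List.nodup_append] at hn
      have hvt : v ≠ t := by
        intro h
        rw [h] at hn
        exact (List.nodup_cons.1 hn.2.1).1 htm
      have hb : Nat.beq v t = false := by
        rw [← Bool.not_eq_true]; intro h'; exact hvt (Nat.eq_of_beq_eq_true h')
      rw [List.isChain_cons_cons] at hc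
      rw [go, hb, cond_false, List.any_eq_true]
      refine ⟨w, hc.1, ?_⟩
      have hw : w ∉ v :: acc := by
        rw [List.mem_cons, not_or]
        constructor
        · intro h
          exact (List.nodup_cons.1 hn.2.1).1 (h ▸ List.mem_cons_self)
        · intro h
          exact hn.2.2 w (List.mem_reverse.2 h) w (by simp) rfl
      rw [notIn_of _ _ hw, cond_true]
      apply ih w f (v :: acc) (by simpa using hf) hc.2 _ hl
      · simpa using ht
      · rw [List.reverse_cons, List.append_assoc, List.nodup_append]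
        exact hn

/-- `0, …, 17` -/
def up : List (Fin 18) := [0, 1, 2, 3, 4, 5, 6, 7, 8, 9, 10, 11, 12, 13, 14, 15, 16, 17]

lemma search0 : go 0 (fun l => Nat.ble 17 l.length && !(l == up.map Fin.val)) 19 17 [] = false := by
  decide +kernel

lemma search2 : go 2 (fun l => Nat.ble 18 l.length) 19 17 [] = false := by
  decide +kernel

lemma gad_len (p : List (Fin 18)) (hn : p.Nodup) : p.length ≤ 18 := by
  have := hn.length_le_card
  simpa using this

/-- a path from 17 to 0 in the gadget with at least 17 vertices -/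
lemma gad0 (p : List (Fin 18)) (hn : ((17 : Fin 18) :: p).Nodup)
    (hc : ((17 : Fin 18) :: p).IsChain (fun x y => gad x y = true))
    (hl : ((17 : Fin 18) :: p).getLast? = some 0) (hlen : 16 ≤ p.length) :
    (17 : Fin 18) :: p = up.reverse := by
  by_contra hne
  have h := go_sound 0 (fun l => Nat.ble 17 l.length && !(l == up.map Fin.val)) (p.map Fin.val) 17
    19 [] (by
      have := gad_len _ hn
      rw [List.length_map]
      rw [List.length_cons] at this
      omega) (by
      have := List.isChain_map_of_isChain (S := fun a b => b ∈ nbT.getD a []) Fin.val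
        (fun a b h => gad_nb a b h) hc
      exact this) (by
      rw [List.reverse_nil, List.nil_append]
      exact (List.nodup_map_iff Fin.val_injective).2 hn) (by
      have : (17 : ℕ) :: p.map Fin.val = ((17 : Fin 18) :: p).map Fin.val := rfl
      rw [this, List.getLast?_map, hl]; rfl) (by
      have e : (17 : ℕ) :: p.map Fin.val = ((17 : Fin 18) :: p).map Fin.val := rfl
      rw [List.append_nil, Bool.and_eq_true]
      constructor
      · rw [Nat.ble_eq, List.length_reverse, List.length_cons, List.length_map]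
        omega
      · rw [Bool.not_eq_true', ← Bool.not_eq_true, beq_iff_eq, e, ← List.map_reverse]
        intro h
        have := (List.map_injective_iff.2 Fin.val_injective) h
        apply hne
        rw [← this, List.reverse_reverse])
  rw [search0] at h
  exact absurd h (by decide)

/-- no path from 17 to 2 in the gadget with 18 vertices -/
lemma gad2 (p : List (Fin 18)) (hn : ((17 : Fin 18) :: p).Nodup)
    (hc : ((17 : Fin 18) :: p).IsChain (fun x y => gad x y = true))
    (hl : ((17 : Fin 18) :: p).getLast? = some 2) (hlen : 17 ≤ p.length) : False := by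
  have h := go_sound 2 (fun l => Nat.ble 18 l.length) (p.map Fin.val) 17
    19 [] (by
      have := gad_len _ hn
      rw [List.length_map]
      rw [List.length_cons] at this
      omega) (by
      have := List.isChain_map_of_isChain (S := fun a b => b ∈ nbT.getD a []) Fin.val
        (fun a b h => gad_nb a b h) hc
      exact this) (by
      rw [List.reverse_nil, List.nil_append]
      exact (List.nodup_map_iff Fin.val_injective).2 hn) (by
      have : (17 : ℕ) :: p.map Fin.val = ((17 : Fin 18) :: p).map Fin.val := rfl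
      rw [this, List.getLast?_map, hl]; rfl) (by
      rw [Nat.ble_eq, List.append_nil, List.length_reverse, List.length_cons, List.length_map]
      omega)
  rw [search2] at h
  exact absurd h (by decide)

/-! ## Lists crossing a cut -/

section lists
variable {V : Type}

lemma firstCross (P : V → Prop) [DecidablePred P] : ∀ (l : List V) (a : V), P a →
    (∃ z ∈ l, ¬ P z) → ∃ l1 x y l2, a :: l = l1 ++ x :: y :: l2 ∧ (∀ z ∈ l1, P z) ∧ P x ∧ ¬ P y := by
  intro l
  induction l with
  | nil => rintro a _ ⟨z, hz, _⟩; simp at hz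
  | cons b l ih =>
    rintro a ha ⟨z, hz, hPz⟩
    by_cases hb : P b
    · have : ∃ z ∈ l, ¬ P z := by
        rcases List.mem_cons.1 hz with rfl | hz
        · exact absurd hb hPz
        · exact ⟨z, hz, hPz⟩
      obtain ⟨l1, x, y, l2, h1, h2, h3, h4⟩ := ih b hb this
      refine ⟨a :: l1, x, y, l2, by rw [h1, List.cons_append], ?_, h3, h4⟩
      intro z hz
      rcases List.mem_cons.1 hz with rfl | hz
      · exact ha
      · exact h2 z hz
    · exact ⟨[], a, b, l, rfl, by simp, ha, hb⟩

lemma split2 (P : V → Prop) [DecidablePred P] (R : V → V → Prop) (a : V) (t m : List V) (z : V)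
    (hn : (a :: t).Nodup) (hc : (a :: t).IsChain R) (he : a :: t = m ++ [z])
    (ha : P a) (hz : ¬ P z) (a1 b1 a2 b2 : V)
    (hcr : ∀ x ∈ a :: t, ∀ y ∈ a :: t, R x y → P x → ¬ P y →
      (x = a1 ∧ y = b1) ∨ (x = a2 ∧ y = b2))
    (hcr' : ∀ x ∈ a :: t, ∀ y ∈ a :: t, R x y → ¬ P x → P y →
      (y = a1 ∧ x = b1) ∨ (y = a2 ∧ x = b2)) :
    ∃ l1 x y l2, a :: t = l1 ++ x :: y :: l2 ∧ (∀ w ∈ l1, P w) ∧ P x ∧ ¬ P y ∧
      (∀ w ∈ l2, ¬ P w) ∧ ((x = a1 ∧ y = b1) ∨ (x = a2 ∧ y = b2)) := by
  have hzt : z ∈ t := by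
    have : z ∈ a :: t := by rw [he]; simp
    rcases List.mem_cons.1 this with rfl | h
    · exact absurd ha hz
    · exact h
  obtain ⟨l1, x, y, l2, h1, h2, h3, h4⟩ := firstCross P t a ha ⟨z, hzt, hz⟩
  have hR : ∀ (s r : List V) (u v : V), a :: t = s ++ u :: v :: r → R u v := by
    intro s r u v h
    rw [h, List.isChain_append_cons_cons] at hc
    exact hc.2.1
  have hM : ∀ (s r : List V) (u v : V), a :: t = s ++ u :: v :: r → u ∈ a :: t ∧ v ∈ a :: t := by
    intro s r u v h
    rw [h]
    simp
  have hxy := hcr x (hM _ _ _ _ h1).1 y (hM _ _ _ _ h1).2 (hR _ _ _ _ h1) h3 h4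
  refine ⟨l1, x, y, l2, h1, h2, h3, h4, ?_, hxy⟩
  by_contra hcon
  push Not at hcon
  obtain ⟨w, hw, hPw⟩ := hcon
  obtain ⟨m1, x', y', m2, g1, g2, g3, g4⟩ := firstCross (fun v => ¬ P v) l2 y h4
    ⟨w, hw, not_not.2 hPw⟩
  rw [not_not] at g4
  have e2 : a :: t = (l1 ++ x :: m1) ++ x' :: y' :: m2 := by
    rw [h1, g1]; simp
  have hy' : (y' :: m2).getLast? = some z := by
    have h := congrArg List.getLast? he
    rw [List.getLast?_concat, e2] at h
    rw [List.getLast?_append_cons, List.getLast?_cons_cons] at h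
    exact h
  have hz2 : z ∈ m2 := by
    have := List.mem_of_getLast? hy'
    rcases List.mem_cons.1 this with rfl | h
    · exact absurd g4 hz
    · exact h
  obtain ⟨k1, x'', y'', k2, f1, f2, f3, f4⟩ := firstCross P m2 y' g4 ⟨z, hz2, hz⟩
  have e3 : a :: t = (l1 ++ x :: m1 ++ [x'] ++ k1) ++ x'' :: y'' :: k2 := by
    rw [e2, f1]; simp
  have hx' := hcr' x' (hM _ _ _ _ e2).1 y' (hM _ _ _ _ e2).2 (hR _ _ _ _ e2) g3 g4
  have hx'' := hcr x'' (hM _ _ _ _ e3).1 y'' (hM _ _ _ _ e3).2 (hR _ _ _ _ e3) f3 f4
  have m3 : x'' ∈ y' :: m2 := by rw [f1]; simp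
  have m4 : y'' ∈ y' :: m2 := by rw [f1]; simp
  have n1 : x ∉ y' :: m2 := by
    intro h
    rw [e2] at hn
    have := (List.nodup_append.1 hn).2.2 x (by simp) x (List.mem_cons_of_mem _ h)
    exact this rfl
  have n2 : x' ∉ y' :: m2 := by
    intro h
    rw [e2] at hn
    exact (List.nodup_cons.1 (List.nodup_append.1 hn).2.1).1 h
  have d1 : x ≠ y' := fun h => n1 (h ▸ List.mem_cons_self)
  have d2 : x ≠ x'' := fun h => n1 (h ▸ m3)
  have d3 : x' ≠ y'' := fun h => n2 (h ▸ m4)
  rcases hxy with ⟨q1, q2⟩ | ⟨q1, q2⟩ <;> rcases hx' with ⟨q3, q4⟩ | ⟨q3, q4⟩ <;>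
    rcases hx'' with ⟨q5, q6⟩ | ⟨q5, q6⟩
  · exact d1 (q1.trans q3.symm)
  · exact d1 (q1.trans q3.symm)
  · exact d2 (q1.trans q5.symm)
  · exact d3 (q4.trans q6.symm)
  · exact d3 (q4.trans q6.symm)
  · exact d2 (q1.trans q5.symm)
  · exact d1 (q1.trans q3.symm)
  · exact d1 (q1.trans q3.symm)

lemma rot (P : V → Prop) [DecidablePred P] (l : List V) (h1 : ∃ x ∈ l, P x)
    (h2 : ∃ y ∈ l, ¬ P y) : ∃ a t m z, l ~r a :: t ∧ a :: t = m ++ [z] ∧ P a ∧ ¬ P z := by
  obtain ⟨x, hx, hPx⟩ := h1
  obtain ⟨y, hy, hPy⟩ := h2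
  obtain ⟨s, r, rfl⟩ := List.append_of_mem hy
  have hr : s ++ y :: r ~r y :: (r ++ s) := by
    have := List.isRotated_append (l := s) (l' := y :: r)
    exact this
  have hx2 : x ∈ r ++ s := by
    have h := hr.mem_iff.1 hx
    rcases List.mem_cons.1 h with rfl | h
    · exact absurd hPx hPy
    · exact h
  obtain ⟨l1, u, v, l2, g1, _, g3, g4⟩ := firstCross (fun v => ¬ P v) (r ++ s) y hPy
    ⟨x, hx2, not_not.2 hPx⟩
  rw [not_not] at g4
  refine ⟨v, l2 ++ (l1 ++ [u]), v :: l2 ++ l1, u, ?_, by simp, g4, g3⟩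
  refine hr.trans ?_
  rw [g1]
  have := List.isRotated_append (l := l1 ++ [u]) (l' := v :: l2)
  rw [List.append_assoc] at this
  exact this

end lists

/-! ## The graph -/

abbrev V := Fin 4 × Fin 18

def adjV (x y : V) : Bool :=
  (x.1 == y.1 && gad x.2 y.2) ||
  ((x.1 == 0 && y.1 == 1 || x.1 == 1 && y.1 == 0 || x.1 == 2 && y.1 == 3 || x.1 == 3 && y.1 == 2)
    && (x.2 == 0 && y.2 == 0 || x.2 == 2 && y.2 == 2)) ||
  ((x.1 == 1 && y.1 == 2 || x.1 == 2 && y.1 == 1 || x.1 == 3 && y.1 == 0 || x.1 == 0 && y.1 == 3)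
    && (x.2 == 17 && y.2 == 17))

lemma adjV_symm : ∀ x y : V, adjV x y = true → adjV y x = true := by decide +kernel

lemma adjV_irr : ∀ x : V, ¬ adjV x x = true := by decide +kernel

def GG : SimpleGraph V where
  Adj x y := adjV x y = true
  symm := ⟨fun x y h => adjV_symm x y h⟩
  loopless := ⟨fun x h => adjV_irr x h⟩

instance : DecidableRel GG.Adj := fun x y => inferInstanceAs (Decidable (adjV x y = true))

lemma cross01 : ∀ x y : V, adjV x y = true → (x.1 = 0 ∧ y.1 = 1 ∨ x.1 = 2 ∧ y.1 = 3) →
    (x.2 = 0 ∧ y.2 = 0 ∨ x.2 = 2 ∧ y.2 = 2) := by decide +kernel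

lemma inside : ∀ x y : V, adjV x y = true → x.1 = y.1 → gad x.2 y.2 = true := by decide +kernel

lemma crossS : ∀ x y : V, adjV x y = true → (x.1 = 0 ∨ x.1 = 1) → ¬ (y.1 = 0 ∨ y.1 = 1) →
    (x = (1, 17) ∧ y = (2, 17)) ∨ (x = (0, 17) ∧ y = (3, 17)) := by decide +kernel

lemma deg3 : ∀ x : V, 3 ≤ GG.degree x := by decide +kernel

/-! ## Paths in one and in two copies of the gadget -/

lemma part (c : Fin 4) (s : List V) (k : Fin 18) (hn : ((c, (17 : Fin 18)) :: s).Nodup)
    (hc : ((c, (17 : Fin 18)) :: s).IsChain (fun x y => adjV x y = true))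
    (hmem : ∀ z ∈ (c, (17 : Fin 18)) :: s, z.1 = c)
    (hl : ((c, (17 : Fin 18)) :: s).getLast? = some (c, k)) :
    s.length ≤ 17 ∧ (k = 2 → s.length < 17) ∧
    (k = 0 → 16 ≤ s.length → (c, (17 : Fin 18)) :: s = up.reverse.map (fun i => (c, i))) := by
  have hn' : ((17 : Fin 18) :: s.map Prod.snd).Nodup := by
    have : (((c, (17 : Fin 18)) :: s).map Prod.snd).Nodup := by
      apply List.Nodup.map_on _ hn
      intro x hx y hy hxy
      exact Prod.ext ((hmem x hx).trans (hmem y hy).symm) hxy
    exact this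
  have hc' : ((17 : Fin 18) :: s.map Prod.snd).IsChain (fun x y => gad x y = true) := by
    have : (((c, (17 : Fin 18)) :: s).map Prod.snd).IsChain (fun x y => gad x y = true) := by
      rw [List.isChain_map]
      exact hc.imp_of_mem_imp (fun x y hx hy h => inside x y h ((hmem x hx).trans (hmem y hy).symm))
    exact this
  have hl' : ((17 : Fin 18) :: s.map Prod.snd).getLast? = some k := by
    have : (((c, (17 : Fin 18)) :: s).map Prod.snd).getLast? = some k := by
      rw [List.getLast?_map, hl]; rfl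
    exact this
  refine ⟨?_, ?_, ?_⟩
  · have := gad_len _ hn'
    rw [List.length_cons, List.length_map] at this
    omega
  · intro hk
    by_contra hlen
    rw [hk] at hl'
    exact gad2 _ hn' hc' hl' (by rw [List.length_map]; omega)
  · intro hk hlen
    rw [hk] at hl'
    have := gad0 _ hn' hc' hl' (by rw [List.length_map]; omega)
    rw [← this, List.map_cons, List.map_map]
    congr 1
    conv_lhs => rw [← List.map_id s]
    apply List.map_congr_left
    intro x hx
    exact Prod.ext (hmem x (List.mem_cons_of_mem _ hx)) rfl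

/-- the path through two copies -/
def path2 (c d : Fin 4) : List V := up.reverse.map (fun i => (c, i)) ++ up.map (fun i => (d, i))

lemma pairPath (c d : Fin 4) (hcd : c = 0 ∧ d = 1 ∨ c = 2 ∧ d = 3) (t m : List V)
    (hn : ((c, (17 : Fin 18)) :: t).Nodup)
    (hc : ((c, (17 : Fin 18)) :: t).IsChain (fun x y => adjV x y = true))
    (he : (c, (17 : Fin 18)) :: t = m ++ [(d, (17 : Fin 18))])
    (hmem : ∀ z ∈ (c, (17 : Fin 18)) :: t, z.1 = c ∨ z.1 = d)
    (hlen : 35 ≤ ((c, (17 : Fin 18)) :: t).length) :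
    (c, (17 : Fin 18)) :: t = path2 c d := by
  have hne : c ≠ d := by
    rcases hcd with ⟨rfl, rfl⟩ | ⟨rfl, rfl⟩ <;> decide
  have hd : ∀ z ∈ (c, (17 : Fin 18)) :: t, ¬ z.1 = c → z.1 = d := by
    intro z hz h
    rcases hmem z hz with h' | h'
    · exact absurd h' h
    · exact h'
  have hcr : ∀ x ∈ (c, (17 : Fin 18)) :: t, ∀ y ∈ (c, (17 : Fin 18)) :: t, adjV x y = true →
      x.1 = c → ¬ y.1 = c → (x = (c, 0) ∧ y = (d, 0)) ∨ (x = (c, 2) ∧ y = (d, 2)) := by
    intro x _ y hy hxy hx1 hy1
    have hy2 := hd y hy hy1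
    have h := cross01 x y hxy (by
      rcases hcd with ⟨h1, h2⟩ | ⟨h1, h2⟩
      · left; exact ⟨hx1.trans h1, hy2.trans h2⟩
      · right; exact ⟨hx1.trans h1, hy2.trans h2⟩)
    rcases h with ⟨h1, h2⟩ | ⟨h1, h2⟩
    · left; exact ⟨Prod.ext hx1 h1, Prod.ext hy2 h2⟩
    · right; exact ⟨Prod.ext hx1 h1, Prod.ext hy2 h2⟩
  obtain ⟨l1, x, y, l2, g1, g2, g3, g4, g5, g6⟩ := split2 (fun z : V => z.1 = c)
    (fun x y => adjV x y = true) (c, 17) t m (d, 17) hn hc he rfl (fun h => hne h.symm)
    (c, 0) (d, 0) (c, 2) (d, 2) hcr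
    (fun x hx y hy hxy hx1 hy1 => hcr y hy x hx (adjV_symm _ _ hxy) hy1 hx1)
  have hk : ∃ k : Fin 18, (k = 0 ∨ k = 2) ∧ x = (c, k) ∧ y = (d, k) := by
    rcases g6 with ⟨h1, h2⟩ | ⟨h1, h2⟩
    · exact ⟨0, Or.inl rfl, h1, h2⟩
    · exact ⟨2, Or.inr rfl, h1, h2⟩
  obtain ⟨k, hk, hx, hy⟩ := hk
  have hk17 : k ≠ 17 := by
    rcases hk with rfl | rfl <;> decide
  -- the first part
  have e1 : ∃ s, l1 ++ [x] = (c, 17) :: s := by
    cases l1 with
    | nil =>
      exfalso
      rw [List.nil_append, List.cons.injEq] at g1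
      have h := g1.1
      rw [hx, Prod.mk.injEq] at h
      exact hk17 h.2.symm
    | cons b l1 =>
      rw [List.cons_append, List.cons.injEq] at g1
      exact ⟨l1 ++ [x], by rw [List.cons_append, g1.1]⟩
  obtain ⟨s, hs⟩ := e1
  have g1' : (c, 17) :: t = (l1 ++ [x]) ++ (y :: l2) := by rw [g1]; simp
  -- the second part
  have e2 : ∃ r, y :: l2 = r ++ [(d, 17)] := by
    have h := congrArg List.getLast? he
    rw [List.getLast?_concat, g1, List.getLast?_append_cons, List.getLast?_cons_cons] at h
    exact List.getLast?_eq_some_iff.1 h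
  obtain ⟨r, hr⟩ := e2
  rw [g1'] at hn hc
  have hn1 := (List.nodup_append.1 hn).1
  have hn2 := (List.nodup_append.1 hn).2.1
  have hc1 := hc.left_of_append
  have hc2 := hc.right_of_append
  have P1 := part c s k (hs ▸ hn1) (hs ▸ hc1) (by
    intro z hz
    rw [← hs, List.mem_append, List.mem_singleton] at hz
    rcases hz with hz | rfl
    · exact g2 z hz
    · exact g3) (by rw [← hs, List.getLast?_concat, hx])
  have hrev : (y :: l2).reverse = (d, 17) :: r.reverse := by rw [hr]; simp
  have P2 := part d r.reverse k (by rw [← hrev]; exact List.nodup_reverse.2 hn2) (by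
    rw [← hrev, List.isChain_reverse]
    exact hc2.imp (fun a b h => adjV_symm _ _ h)) (by
    intro z hz
    rw [← hrev, List.mem_reverse] at hz
    have hz' : z ∈ (c, (17 : Fin 18)) :: t := by
      rw [g1']; exact List.mem_append_right _ hz
    apply hd z hz'
    rcases List.mem_cons.1 hz with rfl | h
    · exact g4
    · exact g5 z h) (by rw [← hrev, List.getLast?_reverse, List.head?_cons, hy])
  have L1 : (l1 ++ [x]).length = s.length + 1 := by rw [hs, List.length_cons]
  have L2 : (y :: l2).length = r.reverse.length + 1 := by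
    rw [← List.length_reverse, hrev, List.length_cons]
  rw [g1', List.length_append, L1, L2] at hlen
  rcases hk with hk | hk
  · have a1 := P1.2.2 hk (by have := P2.1; omega)
    have a2 := P2.2.2 hk (by have := P1.1; omega)
    rw [g1', hs, a1, path2]
    congr 1
    rw [← hrev, List.map_reverse] at a2
    exact List.reverse_injective a2
  · have a1 := P1.2.1 hk
    have a2 := P2.2.1 hk
    omega

/-! ## Long cycles -/

/-- the Hamiltonian cycle -/
def C0 : List V := path2 0 1 ++ path2 2 3

lemma pairPath' (c d : Fin 4) (hcd : c = 0 ∧ d = 1 ∨ c = 2 ∧ d = 3) (t m : List V)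
    (hn : ((d, (17 : Fin 18)) :: t).Nodup)
    (hc : ((d, (17 : Fin 18)) :: t).IsChain (fun x y => adjV x y = true))
    (he : (d, (17 : Fin 18)) :: t = m ++ [(c, (17 : Fin 18))])
    (hmem : ∀ z ∈ (d, (17 : Fin 18)) :: t, z.1 = c ∨ z.1 = d)
    (hlen : 35 ≤ ((d, (17 : Fin 18)) :: t).length) :
    ((d, (17 : Fin 18)) :: t).reverse = path2 c d := by
  have hrev : ((d, (17 : Fin 18)) :: t).reverse = (c, 17) :: m.reverse := by rw [he]; simp
  rw [hrev]
  apply pairPath c d hcd m.reverse t.reverse
  · rw [← hrev]; exact List.nodup_reverse.2 hn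
  · rw [← hrev, List.isChain_reverse]
    exact hc.imp (fun a b h => adjV_symm _ _ h)
  · rw [← hrev, List.reverse_cons]
  · intro z hz
    rw [← hrev, List.mem_reverse] at hz
    exact hmem z hz
  · rw [← hrev, List.length_reverse]
    exact hlen

lemma side_len (P : V → Prop) [DecidablePred P] (hP : (Finset.univ.filter P).card ≤ 36)
    (l : List V) (hn : l.Nodup) (h : ∀ z ∈ l, P z) : l.length ≤ 36 := by
  rw [← List.toFinset_card_of_nodup hn]
  refine le_trans (Finset.card_le_card ?_) hP
  intro z hz
  rw [List.mem_toFinset] at hz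
  rw [Finset.mem_filter]
  exact ⟨Finset.mem_univ _, h z hz⟩

lemma unique (l : List V) (hn : l.Nodup)
    (hc : Cycle.Chain (fun x y => adjV x y = true) (l : Cycle V)) (hlen : 71 ≤ l.length) :
    l ~r C0 ∨ l.reverse ~r C0 := by
  have cP : (Finset.univ.filter (fun z : V => z.1 = 0 ∨ z.1 = 1)).card ≤ 36 := by decide +kernel
  have cN : (Finset.univ.filter (fun z : V => ¬ (z.1 = 0 ∨ z.1 = 1))).card ≤ 36 := by
    decide +kernel
  have h1 : ∃ x ∈ l, (x.1 = 0 ∨ x.1 = 1) := by
    by_contra hcon
    push Not at hcon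
    have := side_len (fun z : V => ¬ (z.1 = 0 ∨ z.1 = 1)) cN l hn (fun z hz => by
      have := hcon z hz
      tauto)
    omega
  have h2 : ∃ x ∈ l, ¬ (x.1 = 0 ∨ x.1 = 1) := by
    by_contra hcon
    push Not at hcon
    have := side_len (fun z : V => (z.1 = 0 ∨ z.1 = 1)) cP l hn (fun z hz => hcon z hz)
    omega
  obtain ⟨a, t, m, z, hrot, he, ha, hz⟩ := rot (fun z : V => z.1 = 0 ∨ z.1 = 1) l h1 h2
  have hn' : (a :: t).Nodup := hrot.nodup_iff.1 hn
  have hlen' : 71 ≤ (a :: t).length := by rw [← hrot.perm.length_eq]; exact hlen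
  rw [Cycle.coe_eq_coe.2 hrot, Cycle.chain_coe_cons] at hc
  have hc1 : (a :: t).IsChain (fun x y => adjV x y = true) := by
    rw [← List.cons_append] at hc
    exact hc.left_of_append
  have hza : adjV z a = true := by
    rw [← List.cons_append, he, List.append_assoc, List.singleton_append,
      List.isChain_append_cons_cons] at hc
    exact hc.2.1
  have hcr : ∀ x ∈ a :: t, ∀ y ∈ a :: t, adjV x y = true → (x.1 = 0 ∨ x.1 = 1) →
      ¬ (y.1 = 0 ∨ y.1 = 1) → (x = (1, 17) ∧ y = (2, 17)) ∨ (x = (0, 17) ∧ y = (3, 17)) :=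
    fun x _ y _ h => crossS x y h
  obtain ⟨l1, x, y, l2, g1, g2, g3, g4, g5, g6⟩ := split2 (fun z : V => z.1 = 0 ∨ z.1 = 1)
    (fun x y => adjV x y = true) a t m z hn' hc1 he ha hz (1, 17) (2, 17) (0, 17) (3, 17) hcr
    (fun x hx y hy hxy hx1 hy1 => hcr y hy x hx (adjV_symm _ _ hxy) hy1 hx1)
  have g7 := crossS a z (adjV_symm _ _ hza) ha hz
  have g1' : a :: t = (l1 ++ [x]) ++ (y :: l2) := by rw [g1]; simp
  -- the two halves
  have hn1 : (l1 ++ [x]).Nodup := by rw [g1'] at hn'; exact (List.nodup_append.1 hn').1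
  have hn2 : (y :: l2).Nodup := by rw [g1'] at hn'; exact (List.nodup_append.1 hn').2.1
  have hd1 : (l1 ++ [x]).IsChain (fun x y => adjV x y = true) := by
    rw [g1'] at hc1; exact hc1.left_of_append
  have hd2 : (y :: l2).IsChain (fun x y => adjV x y = true) := by
    rw [g1'] at hc1; exact hc1.right_of_append
  have hm1 : ∀ w ∈ l1 ++ [x], w.1 = 0 ∨ w.1 = 1 := by
    intro w hw
    rw [List.mem_append, List.mem_singleton] at hw
    rcases hw with hw | rfl
    · exact g2 w hw
    · exact g3
  have hm2' : ∀ w ∈ y :: l2, ¬ (w.1 = 0 ∨ w.1 = 1) := by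
    intro w hw
    rcases List.mem_cons.1 hw with rfl | hw
    · exact g4
    · exact g5 w hw
  have hm2 : ∀ w ∈ y :: l2, w.1 = 2 ∨ w.1 = 3 := by
    intro w hw
    have := hm2' w hw
    have h4 : ∀ c : Fin 4, ¬ (c = 0 ∨ c = 1) → c = 2 ∨ c = 3 := by decide
    exact h4 _ this
  have hL1 : (l1 ++ [x]).length ≤ 36 := side_len _ cP _ hn1 hm1
  have hL2 : (y :: l2).length ≤ 36 := side_len _ cN _ hn2 hm2'
  have hL : 71 ≤ (l1 ++ [x]).length + (y :: l2).length := by
    rw [← List.length_append, ← g1']; exact hlen'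
  have e1 : ∃ s, l1 ++ [x] = a :: s := by
    cases l1 with
    | nil =>
      rw [List.nil_append, List.length_singleton] at hL
      omega
    | cons b l1 =>
      rw [List.cons_append, List.cons.injEq] at g1
      exact ⟨l1 ++ [x], by rw [List.cons_append, g1.1]⟩
  obtain ⟨s, hs⟩ := e1
  have e2 : ∃ r, y :: l2 = r ++ [z] := by
    have h := congrArg List.getLast? he
    rw [List.getLast?_concat, g1, List.getLast?_append_cons, List.getLast?_cons_cons] at h
    exact List.getLast?_eq_some_iff.1 h
  obtain ⟨r, hr⟩ := e2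
  have hax : a ≠ x := by
    intro h
    cases l1 with
    | nil =>
      rw [List.nil_append, List.length_singleton] at hL
      omega
    | cons b l1 =>
      rw [List.cons_append, List.cons.injEq] at g1
      rw [List.cons_append, ← g1.1, List.nodup_cons] at hn1
      exact hn1.1 (by rw [h]; simp)
  rcases g6 with ⟨hx, hy⟩ | ⟨hx, hy⟩
  · rcases g7 with ⟨ha', hz'⟩ | ⟨ha', hz'⟩
    · exact absurd (ha'.trans hx.symm) hax
    · left
      subst hx hy ha' hz'
      have A1 := pairPath 0 1 (Or.inl ⟨rfl, rfl⟩) s l1 (hs ▸ hn1) (hs ▸ hd1) hs.symm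
        (hs ▸ hm1) (by rw [← hs]; omega)
      have A2 := pairPath 2 3 (Or.inr ⟨rfl, rfl⟩) l2 r hn2 hd2 hr hm2 (by omega)
      refine hrot.trans ?_
      rw [g1', hs, A1, A2]
      exact List.IsRotated.refl _
  · rcases g7 with ⟨ha', hz'⟩ | ⟨ha', hz'⟩
    · right
      subst hx hy ha' hz'
      have A1 := pairPath' 0 1 (Or.inl ⟨rfl, rfl⟩) s l1 (hs ▸ hn1) (hs ▸ hd1) hs.symm
        (hs ▸ hm1) (by rw [← hs]; omega)
      have A2 := pairPath' 2 3 (Or.inr ⟨rfl, rfl⟩) l2 r hn2 hd2 hr hm2 (by omega)
      refine hrot.reverse.trans ?_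
      rw [g1', List.reverse_append, hs, A1, A2]
      exact List.isRotated_append
    · exact absurd (ha'.trans hx.symm) hax

/-! ## Hamiltonian cycles as lists -/

lemma ham_list {W : Type} [Fintype W] [DecidableEq W] (G : SimpleGraph W) (h : G.IsHamiltonian)
    (hc : Fintype.card W ≠ 1) : ∃ l : List W, l.Nodup ∧ l.length = Fintype.card W ∧
      (∀ v, v ∈ l) ∧ Cycle.Chain G.Adj (l : Cycle W) := by
  obtain ⟨a, p, hp⟩ := h hc
  rw [SimpleGraph.Walk.isHamiltonianCycle_iff_isCycle_and_support_count_tail_eq_one] at hp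
  obtain ⟨hcyc, hcount⟩ := hp
  cases p with
  | nil => exact absurd rfl hcyc.ne_nil
  | cons h' q =>
    rename_i b
    rw [SimpleGraph.Walk.support_cons, List.tail_cons] at hcount
    have hlast : q.support.getLast? = some a := by
      rw [List.getLast?_eq_some_getLast q.support_ne_nil, SimpleGraph.Walk.getLast_support]
    obtain ⟨m, hm⟩ := List.getLast?_eq_some_iff.1 hlast
    have hnd : q.support.Nodup := List.nodup_iff_count_le_one.2 (fun v => (hcount v).le)
    have hperm : (a :: m).Perm q.support := by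
      rw [hm]
      exact (List.perm_append_singleton a m).symm
    have hnd' : (a :: m).Nodup := hperm.nodup_iff.2 hnd
    have hmem : ∀ v, v ∈ a :: m := by
      intro v
      rw [hperm.mem_iff]
      exact List.count_pos_iff.1 (by rw [hcount v]; exact one_pos)
    refine ⟨a :: m, hnd', ?_, hmem, ?_⟩
    · rw [← List.toFinset_card_of_nodup hnd', ← Finset.card_univ]
      congr 1
      ext v
      simp only [List.mem_toFinset, Finset.mem_univ, iff_true]
      exact hmem v
    · rw [Cycle.chain_coe_cons, ← hm]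
      have := (SimpleGraph.Walk.cons h' q).isChain_adj_support
      rw [SimpleGraph.Walk.support_cons] at this
      exact this

lemma walk_of_chain {W : Type} (G : SimpleGraph W) : ∀ (l : List W) (a b : W),
    (a :: l).IsChain G.Adj → (a :: l).getLast? = some b →
    ∃ p : G.Walk a b, p.support = a :: l := by
  intro l
  induction l with
  | nil =>
    intro a b _ hl
    rw [List.getLast?_singleton, Option.some.injEq] at hl
    subst hl
    exact ⟨SimpleGraph.Walk.nil, rfl⟩
  | cons c l ih =>
    intro a b hc hl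
    rw [List.getLast?_cons_cons] at hl
    rw [List.isChain_cons_cons] at hc
    obtain ⟨p, hp⟩ := ih c b hc.2 hl
    exact ⟨SimpleGraph.Walk.cons hc.1 p, by rw [SimpleGraph.Walk.support_cons, hp]⟩

def C1 : List V := C0.tail

lemma C0_eq : C0 = (0, 17) :: C1 := rfl

lemma C1_chain : (C1 ++ [((0 : Fin 4), (17 : Fin 18))]).IsChain (fun x y => adjV x y = true) := by
  decide +kernel

lemma C1_head : C1 = (0, 16) :: C1.tail := rfl

lemma C1_nodup : (C1 ++ [((0 : Fin 4), (17 : Fin 18))]).Nodup := by decide +kernel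

lemma C1_all : ∀ v : V, v ∈ C1 ++ [((0 : Fin 4), (17 : Fin 18))] := by decide +kernel

lemma C0_length : C0.length = 72 := rfl

lemma GG_ham : GG.IsHamiltonian := by
  intro _
  obtain ⟨q, hq⟩ := walk_of_chain GG (C1.tail ++ [(0, 17)]) (0, 16) (0, 17)
    (by rw [← List.cons_append, ← C1_head]; exact C1_chain)
    (by rw [← List.cons_append, List.getLast?_concat])
  rw [← List.cons_append, ← C1_head] at hq
  have hadj : GG.Adj (0, 17) (0, 16) := by decide +kernel
  refine ⟨(0, 17), SimpleGraph.Walk.cons hadj q, ?_⟩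
  rw [SimpleGraph.Walk.isHamiltonianCycle_iff_isCycle_and_support_count_tail_eq_one]
  have hpath : q.IsPath := by
    apply SimpleGraph.Walk.IsPath.mk'
    rw [hq]
    exact C1_nodup
  constructor
  · rw [SimpleGraph.Walk.cons_isCycle_iff]
    refine ⟨hpath, ?_⟩
    intro hmem
    rw [Sym2.eq_swap] at hmem
    have h1 := hpath.eq_adj_toWalk_of_mem_edges hmem
    have h2 := congrArg SimpleGraph.Walk.support h1
    rw [hq] at h2
    have h3 := congrArg List.length h2
    rw [SimpleGraph.Walk.length_support] at h3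
    simp [C1, C0, path2, up] at h3
  · intro v
    rw [SimpleGraph.Walk.support_cons, List.tail_cons, hq]
    exact @List.count_eq_one_of_mem V instBEqOfDecidableEq _ v _ C1_nodup (C1_all v)

/-! ## Deletion and contraction -/

lemma closing {W : Type} (R : W → W → Prop) (x y : W) (m : List W)
    (h : Cycle.Chain R ((x :: (m ++ [y]) : List W) : Cycle W)) : R y x := by
  rw [Cycle.chain_coe_cons, List.append_assoc, List.singleton_append, ← List.cons_append,
    List.isChain_append_cons_cons] at h
  exact h.2.1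

/-- a cycle through `y, x`, where `m` is the rest, cannot exist if `G - yx` is Hamiltonian -/
lemma no_long (R : V → V → Prop) (hR : ∀ x y, R x y → adjV x y = true)
    (d : List V) (hdn : d.Nodup) (hdc : Cycle.Chain R (d : Cycle V)) (hdl : 71 ≤ d.length)
    (x y : V) (m : List V) (hn : (x :: (m ++ [y])).Nodup)
    (hc : Cycle.Chain (fun x y => adjV x y = true) ((x :: (m ++ [y]) : List V) : Cycle V))
    (hlen : 71 ≤ (x :: (m ++ [y])).length) : R y x ∨ R x y := by
  have h1 := unique d hdn (hdc.imp hR) hdl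
  have h2 := unique _ hn hc hlen
  have h3 : (x :: (m ++ [y])) ~r d ∨ (x :: (m ++ [y])).reverse ~r d := by
    rcases h1 with h1 | h1 <;> rcases h2 with h2 | h2
    · exact Or.inl (h2.trans h1.symm)
    · exact Or.inr (h2.trans h1.symm)
    · right
      have := (h2.trans h1.symm).reverse
      rw [List.reverse_reverse] at this
      exact this
    · left
      have := (h2.trans h1.symm).reverse
      rw [List.reverse_reverse, List.reverse_reverse] at this
      exact this
  rcases h3 with h3 | h3
  · left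
    rw [← Cycle.coe_eq_coe.2 h3] at hdc
    exact closing R x y m hdc
  · right
    rw [← Cycle.coe_eq_coe.2 h3] at hdc
    have e : (x :: (m ++ [y])).reverse = y :: (m.reverse ++ [x]) := by simp
    rw [e] at hdc
    exact closing R y x m.reverse hdc

lemma chain_mk (R : V → V → Prop) (x y : V) (m : List V) (hm : m.IsChain R) (hne : m ≠ [])
    (hx : ∀ s ∈ m.head?, R x s) (hy : ∀ t ∈ m.getLast?, R t y) :
    (x :: (m ++ [y])).IsChain R := by
  rw [List.isChain_cons, List.isChain_append]
  refine ⟨?_, hm, List.isChain_singleton y, ?_⟩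
  · intro s hs
    apply hx
    cases m with
    | nil => exact absurd rfl hne
    | cons c m =>
      rw [List.cons_append, List.head?_cons] at hs
      rw [List.head?_cons]
      exact hs
  · intro t ht z hz
    rw [List.head?_cons, Option.mem_some] at hz
    subst hz
    exact hy t ht

lemma card_sub : ∀ v : V, Fintype.card {x : V // x ≠ v} = 71 := by decide +kernel

lemma main (u v : V) (huv : GG.Adj u v) (hdel : (GG.deleteEdges {s(u, v)}).IsHamiltonian)
    (hcon : (SimpleGraph.fromRel (fun a b : {x : V // x ≠ v} =>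
            GG.Adj a.1 b.1 ∨ (a.1 = u ∧ GG.Adj v b.1))).IsHamiltonian) : False := by
  have huv' : u ≠ v := huv.ne
  have cV : Fintype.card V = 72 := by decide +kernel
  obtain ⟨d, hdn, hdl, _, hdc⟩ := ham_list _ hdel (by rw [cV]; norm_num)
  rw [cV] at hdl
  obtain ⟨l', hn', hl', hmem', hc'⟩ := ham_list _ hcon (by rw [card_sub v]; norm_num)
  rw [card_sub v] at hl'
  obtain ⟨s, r, hsr⟩ := List.append_of_mem (hmem' ⟨u, huv'⟩)
  have hrot : l' ~r (⟨u, huv'⟩ : {x : V // x ≠ v}) :: (r ++ s) := by
    rw [hsr]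
    exact List.isRotated_append (l := s) (l' := ⟨u, huv'⟩ :: r)
  generalize r ++ s = m' at hrot
  have hn2 := hrot.nodup_iff.1 hn'
  have hl2 : 71 = ((⟨u, huv'⟩ : {x : V // x ≠ v}) :: m').length := by
    rw [← hrot.perm.length_eq]; exact hl'.symm
  rw [Cycle.coe_eq_coe.2 hrot, Cycle.chain_coe_cons] at hc'
  have hl3 : m'.length = 70 := by
    rw [List.length_cons] at hl2
    omega
  have hnu : (⟨u, huv'⟩ : {x : V // x ≠ v}) ∉ m' := (List.nodup_cons.1 hn2).1
  have hm'ne : m' ≠ [] := by
    intro h
    rw [h] at hl3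
    simp at hl3
  -- the rest of the cycle is a path of the graph
  have hchain' : m'.IsChain (fun a b => adjV a.1 b.1 = true) := by
    rw [List.isChain_cons] at hc'
    refine (hc'.2.left_of_append).imp_of_mem_imp ?_
    intro a b ha hb hab
    have ha' : a.1 ≠ u := fun h => hnu (by
      have : (⟨u, huv'⟩ : {x : V // x ≠ v}) = a := Subtype.ext h.symm
      rw [this]; exact ha)
    have hb' : b.1 ≠ u := fun h => hnu (by
      have : (⟨u, huv'⟩ : {x : V // x ≠ v}) = b := Subtype.ext h.symm
      rw [this]; exact hb)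
    rw [SimpleGraph.fromRel_adj] at hab
    rcases hab.2 with (h | h) | (h | h)
    · exact h
    · exact absurd h.1 ha'
    · exact adjV_symm _ _ h
    · exact absurd h.1 hb'
  have hchain : (m'.map Subtype.val).IsChain (fun a b => adjV a b = true) := by
    rw [List.isChain_map]
    exact hchain'
  have hne : m'.map Subtype.val ≠ [] := by
    rw [Ne, List.map_eq_nil_iff]
    exact hm'ne
  have hhead : ∃ x0 : V, (x0 = u ∨ x0 = v) ∧
      ∀ s ∈ (m'.map Subtype.val).head?, adjV x0 s = true := by
    cases m' with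
    | nil => exact absurd rfl hm'ne
    | cons c m'' =>
      rw [List.cons_append, List.isChain_cons_cons, SimpleGraph.fromRel_adj] at hc'
      have hcu : c.1 ≠ u := fun h => hnu (by
        have : (⟨u, huv'⟩ : {x : V // x ≠ v}) = c := Subtype.ext h.symm
        rw [this]; exact List.mem_cons_self)
      rcases hc'.1.2 with (h | h) | (h | h)
      · refine ⟨u, Or.inl rfl, ?_⟩
        intro s hs
        rw [List.map_cons, List.head?_cons, Option.mem_some] at hs
        subst hs
        exact h
      · refine ⟨v, Or.inr rfl, ?_⟩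
        intro s hs
        rw [List.map_cons, List.head?_cons, Option.mem_some] at hs
        subst hs
        exact h.2
      · refine ⟨u, Or.inl rfl, ?_⟩
        intro s hs
        rw [List.map_cons, List.head?_cons, Option.mem_some] at hs
        subst hs
        exact adjV_symm _ _ h
      · exact absurd h.1 hcu
  have hlast : ∃ y0 : V, (y0 = u ∨ y0 = v) ∧
      ∀ s ∈ (m'.map Subtype.val).getLast?, adjV s y0 = true := by
    obtain ⟨m2, c, rfl⟩ : ∃ m2 c, m' = m2 ++ [c] := by
      obtain ⟨c, hc⟩ : ∃ c, m'.getLast? = some c := by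
        rw [List.getLast?_eq_some_getLast hm'ne]
        exact ⟨_, rfl⟩
      obtain ⟨m2, h⟩ := List.getLast?_eq_some_iff.1 hc
      exact ⟨m2, c, h⟩
    rw [List.append_assoc, List.singleton_append, ← List.cons_append,
      List.isChain_append_cons_cons, SimpleGraph.fromRel_adj] at hc'
    have hcu : c.1 ≠ u := fun h => hnu (by
      have : (⟨u, huv'⟩ : {x : V // x ≠ v}) = c := Subtype.ext h.symm
      rw [this]; simp)
    have hg : ∀ s ∈ ((m2 ++ [c]).map Subtype.val).getLast?, s = c.1 := by
      intro s hs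
      rw [List.map_append, List.map_singleton, List.getLast?_concat, Option.mem_some] at hs
      exact hs.symm
    rcases hc'.2.1.2 with (h | h) | (h | h)
    · exact ⟨u, Or.inl rfl, fun s hs => by rw [hg s hs]; exact h⟩
    · exact absurd h.1 hcu
    · exact ⟨u, Or.inl rfl, fun s hs => by rw [hg s hs]; exact adjV_symm _ _ h⟩
    · exact ⟨v, Or.inr rfl, fun s hs => by rw [hg s hs]; exact adjV_symm _ _ h.2⟩
  have hmn : (m'.map Subtype.val).Nodup :=
    (List.nodup_map_iff Subtype.val_injective).2 (List.nodup_cons.1 hn2).2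
  have hmu : u ∉ m'.map Subtype.val := by
    intro h
    rw [List.mem_map] at h
    obtain ⟨a, ha, hau⟩ := h
    apply hnu
    have : (⟨u, huv'⟩ : {x : V // x ≠ v}) = a := Subtype.ext hau.symm
    rw [this]; exact ha
  have hmv : v ∉ m'.map Subtype.val := by
    intro h
    rw [List.mem_map] at h
    obtain ⟨a, _, hav⟩ := h
    exact a.2 hav
  have hml : (m'.map Subtype.val).length = 70 := by rw [List.length_map]; exact hl3
  obtain ⟨x0, hx0, hx1⟩ := hhead
  obtain ⟨y0, hy0, hy1⟩ := hlast
  generalize m'.map Subtype.val = m at *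
  have hx0m : x0 ∉ m := by rcases hx0 with rfl | rfl <;> assumption
  have hy0m : y0 ∉ m := by rcases hy0 with rfl | rfl <;> assumption
  have hch := chain_mk (fun a b => adjV a b = true) x0 y0 m hchain hne hx1 hy1
  by_cases hxy : x0 = y0
  · subst hxy
    have hnod : (x0 :: m).Nodup := List.nodup_cons.2 ⟨hx0m, hmn⟩
    have hcyc : Cycle.Chain (fun a b => adjV a b = true) ((x0 :: m : List V) : Cycle V) := by
      rw [Cycle.chain_coe_cons]; exact hch
    have h := unique _ hnod hcyc (by rw [List.length_cons, hml])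
    rcases h with h | h
    · have := h.perm.length_eq
      rw [List.length_cons, hml, C0_length] at this
      omega
    · have := h.perm.length_eq
      rw [List.length_reverse, List.length_cons, hml, C0_length] at this
      omega
  · have hyx : GG.Adj y0 x0 := by
      rcases hx0 with rfl | rfl <;> rcases hy0 with rfl | rfl
      · exact absurd rfl hxy
      · exact huv.symm
      · exact huv
      · exact absurd rfl hxy
    have hnod : (x0 :: (m ++ [y0])).Nodup := by
      rw [List.nodup_cons, List.mem_append, List.mem_singleton, not_or]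
      refine ⟨⟨hx0m, hxy⟩, ?_⟩
      rw [List.nodup_append]
      refine ⟨hmn, List.nodup_singleton _, ?_⟩
      intro a ha b hb
      rw [List.mem_singleton] at hb
      rintro rfl
      rw [hb] at ha
      exact hy0m ha
    have hcyc : Cycle.Chain (fun a b => adjV a b = true)
        ((x0 :: (m ++ [y0]) : List V) : Cycle V) := by
      rw [Cycle.chain_coe_cons, ← List.cons_append, List.isChain_append]
      refine ⟨hch, List.isChain_singleton _, ?_⟩
      intro a ha b hb
      rw [List.head?_cons, Option.mem_some] at hb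
      rw [← List.cons_append, List.getLast?_concat, Option.mem_some] at ha
      subst ha hb
      exact hyx
    have h := no_long (GG.deleteEdges {s(u, v)}).Adj (fun x y h => by
      rw [SimpleGraph.deleteEdges_adj] at h
      exact h.1) d hdn hdc (by omega) x0 y0 m hnod hcyc (by
        rw [List.length_cons, List.length_append, hml, List.length_singleton]
        norm_num)
    have hs : s(y0, x0) = s(u, v) := by
      rcases hx0 with rfl | rfl <;> rcases hy0 with rfl | rfl
      · exact absurd rfl hxy
      · exact Sym2.eq_swap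
      · rfl
      · exact absurd rfl hxy
    rcases h with h | h
    · rw [SimpleGraph.deleteEdges_adj, hs] at h
      exact h.2 rfl
    · have hs' : s(x0, y0) = s(u, v) := Sym2.eq_swap.trans hs
      rw [SimpleGraph.deleteEdges_adj, hs'] at h
      exact h.2 rfl

/-- The negation of the preceding statement: Every finite Hamiltonian simple graph with all degrees at least 3 has an edge uv such that both the graph with uv deleted and the graph with uv contracted (v merged into u) are Hamiltonian. -/
theorem result :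
    ¬ (∀ (V : Type) [Fintype V] [DecidableEq V] (G : SimpleGraph V) [DecidableRel G.Adj],
      G.IsHamiltonian → (∀ x : V, 3 ≤ G.degree x) →
      ∃ u v : V, G.Adj u v ∧ (G.deleteEdges {s(u, v)}).IsHamiltonian ∧
        (SimpleGraph.fromRel (fun a b : {x : V // x ≠ v} =>
            G.Adj a.1 b.1 ∨ (a.1 = u ∧ G.Adj v b.1))).IsHamiltonian) := by
  intro h
  obtain ⟨u, v, huv, hdel, hcon⟩ := h V GG GG_ham deg3
  exact main u v huv hdel hcon

end Pool.Agent.S05400
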