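import Pool.Statements.S05573
import Pool.Agent.H11.OddC

set_option autoImplicit false
open Filter Topology
open Pool Pool.MP_3c9ffc_co

namespace Pool.Agent.S05573

lemma exists_cycle (p α n : ℕ) (hp : 1 ≤ p) (hn : n = 2 * α + p) (G : SimpleGraph (Fin n))
    (hα : ∀ s : Finset (Fin n), G.IsIndepSet (s : Set (Fin n)) → s.card ≤ α) :
    ∃ v : Fin n, ∃ w : G.Walk v v, w.IsCycle ∧ Odd w.length ∧
      (w.length : ℝ) ≤ 16 / Real.sqrt p * (α : ℝ) + (8 * Real.sqrt p + 5) := by
  have hp0 : (0 : ℝ) < p := by exact_mod_cast hp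
  have hsp : 0 < Real.sqrt p := Real.sqrt_pos.2 hp0
  have hss : Real.sqrt p * Real.sqrt p = p := Real.mul_self_sqrt hp0.le
  have hs1 : (1 : ℝ) ≤ Real.sqrt p := Real.one_le_sqrt.2 (by exact_mod_cast hp)
  set q : ℝ := 2 * n / Real.sqrt p with hq
  have hq0 : 0 ≤ q := by positivity
  set m : ℕ := ⌊q⌋₊ + 1 with hm
  have hmq : q < m := by
    rw [hm]; push_cast; exact Nat.lt_floor_add_one q
  have hmq' : (m : ℝ) ≤ q + 1 := by
    rw [hm]; push_cast
    have := Nat.floor_le hq0
    linarith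
  have hm0 : 0 < m := by omega
  have hbound : ((2 * (2 * m) + 1 : ℕ) : ℝ) ≤ 16 / Real.sqrt p * (α : ℝ) + (8 * Real.sqrt p + 5) := by
    push_cast
    have e : 4 * q = 16 / Real.sqrt p * (α : ℝ) + 8 * Real.sqrt p := by
      rw [hq, hn]
      push_cast
      field_simp
      nlinarith [hss]
    linarith
  by_cases hr : ∀ (x : Fin n) (w : G.Walk x x), Odd w.length → 2 * (2 * m) + 1 < w.length
  · exfalso
    set t : ℕ := n / m + 1 with ht
    have hNt : n ≤ m * t := by
      rw [ht]
      have := Nat.div_add_mod n m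
      have h2 := Nat.mod_lt n hm0
      rw [Nat.mul_add]
      omega
    have h1 := Agent.H11.OddC.indep_bound (G := G) (m := m) (t := t) (α := α) hm0
      (by rw [Fintype.card_fin]; exact hNt) hr hα
    rw [Fintype.card_fin] at h1
    have h2 : m * p ≤ t * n := by
      have : m * n = m * (2 * α) + m * p := by rw [hn]; ring
      omega
    have h3 : (m : ℝ) * t ≤ n + m := by
      have : m * t ≤ n + m := by
        rw [ht, Nat.mul_add]
        have := Nat.mul_div_le n m
        omega
      exact_mod_cast this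
    have h4 : (m : ℝ) * p ≤ t * n := by exact_mod_cast h2
    have hmr : (0 : ℝ) < m := by exact_mod_cast hm0
    have hnr : (0 : ℝ) ≤ n := by positivity
    have h5 : 2 * (n : ℝ) < m * Real.sqrt p := by
      rw [hq, div_lt_iff₀ hsp] at hmq
      linarith
    have h6 : (m : ℝ) * (m * p) ≤ (n + m) * n := by
      calc (m : ℝ) * (m * p) ≤ m * (t * n) := by gcongr
        _ = (m * t) * n := by ring
        _ ≤ (n + m) * n := by gcongr
    have h7 : 4 * (n : ℝ) * n < (m * Real.sqrt p) * (m * Real.sqrt p) := by nlinarith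
    have h8 : (m * Real.sqrt p) * (m * Real.sqrt p) = (m : ℝ) * (m * p) := by
      calc (m * Real.sqrt p) * (m * Real.sqrt p) = (m : ℝ) * m * (Real.sqrt p * Real.sqrt p) := by ring
        _ = _ := by rw [hss]; ring
    have h9 : 2 * (m : ℝ) * n ≤ (m : ℝ) * (m * p) := by
      have : (m : ℝ) * (2 * n) ≤ m * (m * Real.sqrt p) := by gcongr
      have h10 : Real.sqrt p ≤ p := by nlinarith
      have : (m : ℝ) * (m * Real.sqrt p) ≤ m * (m * p) := by gcongr
      nlinarith
    nlinarith
  · push Not at hr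
    obtain ⟨x, w, hodd, hle⟩ := hr
    obtain ⟨y, c, hc, hco, hcl⟩ := Agent.H11.OddC.exists_odd_cycle w hodd
    refine ⟨y, c, hc, hco, ?_⟩
    refine le_trans ?_ hbound
    exact_mod_cast hcl.trans hle

/-- There are constants c_p ≥ 0 tending to 0 such that, for each p ≥ 1, every graph on 2α+p vertices with no independent set of size α+1 has an odd cycle of length at most c_p·α + o(α). -/
theorem result :
    ∃ c : ℕ → ℝ, (∀ p, 0 ≤ c p) ∧ Tendsto c atTop (𝓝 0) ∧
      ∀ p : ℕ, 1 ≤ p →
        ∃ e : ℕ → ℝ, Tendsto (fun α : ℕ => e α / (α : ℝ)) atTop (𝓝 0) ∧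
          ∀ α : ℕ, ∀ G : SimpleGraph (Fin (2 * α + p)),
            (∀ s : Finset (Fin (2 * α + p)), G.IsIndepSet (s : Set (Fin (2 * α + p))) → s.card ≤ α) →
            ∃ v : Fin (2 * α + p), ∃ w : G.Walk v v,
              w.IsCycle ∧ Odd w.length ∧ (w.length : ℝ) ≤ c p * (α : ℝ) + e α := by
  refine ⟨fun p => 16 / Real.sqrt p, fun p => by positivity, ?_, ?_⟩
  · exact tendsto_const_nhds.div_atTop (Real.tendsto_sqrt_atTop.comp tendsto_natCast_atTop_atTop)
  · intro p hp
    refine ⟨fun _ => 8 * Real.sqrt p + 5, tendsto_const_div_atTop_nhds_zero_nat _, ?_⟩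
    intro α G hG
    exact exists_cycle p α _ hp rfl G hG

end Pool.Agent.S05573
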