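import Pool.Statements.S05592

set_option autoImplicit false
open Pool Pool.MP_3df3be_co

namespace Pool.Agent.S05592

/-- In a row-bijective array, if `L r` maps `C` into `S` and `|C| = |S|`, then it maps `C` onto `S`. -/
lemma row_onto {n : ℕ} (f : Fin n → Fin n) (hf : Function.Injective f) (C S : Finset (Fin n))
    (hcard : C.card = S.card) (h : ∀ c ∈ C, f c ∈ S) : C.image f = S := by
  apply Finset.eq_of_subset_of_card_le
  · intro s hs
    obtain ⟨c, hc, rfl⟩ := Finset.mem_image.1 hs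
    exact h c hc
  · rw [Finset.card_image_of_injective _ hf, hcard]

/-- the block structure forced by a subsquare of half order -/
lemma block (L : Fin 8 → Fin 8 → Fin 8) (h1 : ∀ i, Function.Bijective (L i))
    (h2 : ∀ j, Function.Bijective (fun i => L i j)) (R C S : Finset (Fin 8))
    (hR : R.card = 4) (hC : C.card = 4) (hS : S.card = 4)
    (h : ∀ r ∈ R, ∀ c ∈ C, L r c ∈ S) (r c : Fin 8) : L r c ∈ S ↔ (r ∈ R ↔ c ∈ C) := by
  have key1 : ∀ r ∈ R, ∀ c, L r c ∈ S → c ∈ C := by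
    intro r hr c hs
    rw [← row_onto (L r) (h1 r).1 C S (by omega) (h r hr)] at hs
    obtain ⟨c', hc', he⟩ := Finset.mem_image.1 hs
    rwa [← (h1 r).1 he]
  have key2 : ∀ c ∈ C, ∀ r, L r c ∈ S → r ∈ R := by
    intro c hc r hs
    rw [← row_onto (fun i => L i c) (h2 c).1 R S (by omega) (fun r hr => h r hr c hc)] at hs
    obtain ⟨r', hr', he⟩ := Finset.mem_image.1 hs
    rwa [← (h2 c).1 he]
  have key3 : ∀ r, r ∉ R → ∀ c, c ∉ C → L r c ∈ S := by
    intro r hr c hc
    by_contra hs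
    have : C.image (L r) = Sᶜ := row_onto (L r) (h1 r).1 C Sᶜ
      (by rw [Finset.card_compl, hS, hC]; rfl)
      (fun c' hc' => Finset.mem_compl.2 (fun hh => hr (key2 c' hc' r hh)))
    rw [← Finset.mem_compl, ← this] at hs
    obtain ⟨c', hc', he⟩ := Finset.mem_image.1 hs
    exact hc (by rwa [← (h1 r).1 he])
  by_cases hr : r ∈ R <;> by_cases hc : c ∈ C
  · exact ⟨fun _ => ⟨fun _ => hc, fun _ => hr⟩, fun _ => h r hr c hc⟩
  · exact ⟨fun hh => absurd (key1 r hr c hh) hc, fun hh => absurd (hh.1 hr) hc⟩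
  · exact ⟨fun hh => absurd (key2 c hc r hh) hr, fun hh => absurd (hh.2 hc) hr⟩
  · exact ⟨fun _ => ⟨fun hh => absurd hh hr, fun hh => absurd hh hc⟩, fun _ => key3 r hr c hc⟩

/-- all rows of a subsquare of order 3 lie in the same half -/
lemma same_half (L : Fin 8 → Fin 8 → Fin 8) (h1 : ∀ i, Function.Injective (L i))
    (R1 C1 S1 : Finset (Fin 8)) (hb : ∀ r c, L r c ∈ S1 ↔ (r ∈ R1 ↔ c ∈ C1))
    (R C S : Finset (Fin 8)) (hC : C.card = 3) (hS : S.card = 3)
    (h : ∀ r ∈ R, ∀ c ∈ C, L r c ∈ S) (r r' : Fin 8) (hr : r ∈ R) (hr' : r' ∈ R)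
    (hr1 : r ∈ R1) : r' ∈ R1 := by
  by_contra hr1'
  have count : ∀ x ∈ R, (S.filter (· ∈ S1)).card = (C.filter (fun c => (x ∈ R1 ↔ c ∈ C1))).card := by
    intro x hx
    rw [← row_onto (L x) (h1 x) C S (by omega) (h x hx), Finset.filter_image,
      Finset.card_image_of_injective _ (h1 x)]
    congr 1
    ext c
    rw [Finset.mem_filter, Finset.mem_filter, hb]
  have e1 := count r hr
  have e2 := count r' hr'
  have e3 : (C.filter (fun c => (r ∈ R1 ↔ c ∈ C1))) = C.filter (fun c => c ∈ C1) := by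
    ext c; simp [hr1]
  have e4 : (C.filter (fun c => (r' ∈ R1 ↔ c ∈ C1))) = C.filter (fun c => ¬ c ∈ C1) := by
    ext c; simp [hr1']
  rw [e3] at e1
  rw [e4] at e2
  have e5 := Finset.card_filter_add_card_filter_not (s := C) (fun c => c ∈ C1)
  omega

/-- The negation of the preceding statement: For every n there is a latin square of order n such that, for each m with 1 ≤ m and 2m ≤ n, some m rows and m columns meet in an m×m subarray using only m symbols, i.e. a latin subsquare of order m. -/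
theorem result :
    ¬ (∀ n : ℕ, ∃ L : Fin n → Fin n → Fin n,
      (∀ i : Fin n, Function.Bijective (L i)) ∧
      (∀ j : Fin n, Function.Bijective (fun i : Fin n => L i j)) ∧
      ∀ m : ℕ, 1 ≤ m → 2 * m ≤ n →
        ∃ R C S : Finset (Fin n),
          R.card = m ∧ C.card = m ∧ S.card = m ∧
          ∀ r ∈ R, ∀ c ∈ C, L r c ∈ S) := by
  intro hall
  obtain ⟨L, h1, h2, hm⟩ := hall 8
  obtain ⟨R1, C1, S1, hR1, hC1, hS1, hB1⟩ := hm 4 (by norm_num) (by norm_num)
  obtain ⟨R, C, S, hR, hC, hS, hB⟩ := hm 3 (by norm_num) (by norm_num)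
  have hb := block L h1 h2 R1 C1 S1 hR1 hC1 hS1 hB1
  have hrows : ∀ r ∈ R, ∀ r' ∈ R, (r ∈ R1 ↔ r' ∈ R1) := by
    intro r hr r' hr'
    exact ⟨same_half L (fun i => (h1 i).1) R1 C1 S1 hb R C S hC hS hB r r' hr hr',
      same_half L (fun i => (h1 i).1) R1 C1 S1 hb R C S hC hS hB r' r hr' hr⟩
  have hcols : ∀ c ∈ C, ∀ c' ∈ C, (c ∈ C1 ↔ c' ∈ C1) := by
    intro c hc c' hc'
    have hb' : ∀ r c, (fun i j => L j i) r c ∈ S1 ↔ (r ∈ C1 ↔ c ∈ R1) := by
      intro r c
      rw [hb c r]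
      exact iff_comm
    exact ⟨same_half (fun i j => L j i) (fun i => (h2 i).1) C1 R1 S1 hb' C R S hR hS
        (fun r hr c hc => hB c hc r hr) c c' hc hc',
      same_half (fun i j => L j i) (fun i => (h2 i).1) C1 R1 S1 hb' C R S hR hS
        (fun r hr c hc => hB c hc r hr) c' c hc' hc⟩
  -- two distinct rows
  obtain ⟨r, hr, r', hr', hrr⟩ := Finset.one_lt_card.1 (by omega : 1 < R.card)
  obtain ⟨c0, hc0⟩ := Finset.card_pos.1 (by omega : 0 < C.card)
  -- the half of the columns containing C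
  have halfcard : ∀ (A : Finset (Fin 8)) (κ : Prop) [Decidable κ], A.card = 4 →
      (Finset.univ.filter (fun c => (c ∈ A ↔ κ))).card = 4 := by
    intro A κ _ hA
    by_cases hκ : κ
    · simp [hκ, hA]
    · have : (Finset.univ.filter (fun c => (c ∈ A ↔ κ))) = Aᶜ := by
        ext c; simp [hκ]
      rw [this, Finset.card_compl, hA]; rfl
  classical
  set X : Finset (Fin 8) := Finset.univ.filter (fun c => (c ∈ C1 ↔ c0 ∈ C1)) with hX
  set T : Finset (Fin 8) := Finset.univ.filter (fun s => (s ∈ S1 ↔ (r ∈ R1 ↔ c0 ∈ C1))) with hT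
  have hXc : X.card = 4 := halfcard C1 _ hC1
  have hTc : T.card = 4 := halfcard S1 _ hS1
  have hCX : C ⊆ X := by
    intro c hc
    rw [hX, Finset.mem_filter]
    exact ⟨Finset.mem_univ _, hcols c hc c0 hc0⟩
  have hLT : ∀ x ∈ R, ∀ c ∈ X, L x c ∈ T := by
    intro x hx c hc
    rw [hX, Finset.mem_filter] at hc
    rw [hT, Finset.mem_filter]
    refine ⟨Finset.mem_univ _, ?_⟩
    rw [hb, hc.2, hrows x hx r hr]
  have hST : S ⊆ T := by
    intro s hs
    rw [← row_onto (L r) (h1 r).1 C S (by omega) (hB r hr)] at hs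
    obtain ⟨c, hc, rfl⟩ := Finset.mem_image.1 hs
    exact hLT r hr c (hCX hc)
  have hTS : (T \ S).card = 1 := by
    rw [Finset.card_sdiff_of_subset hST]; omega
  obtain ⟨t, ht⟩ := Finset.card_eq_one.1 hTS
  have hXC : (X \ C).card = 1 := by
    rw [Finset.card_sdiff_of_subset hCX]; omega
  obtain ⟨c, hc⟩ := Finset.card_eq_one.1 hXC
  have hcm : c ∈ X \ C := by rw [hc]; exact Finset.mem_singleton_self c
  rw [Finset.mem_sdiff] at hcm
  have hval : ∀ x ∈ R, L x c = t := by
    intro x hx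
    have : L x c ∈ T \ S := by
      rw [Finset.mem_sdiff]
      refine ⟨hLT x hx c hcm.1, fun hs => hcm.2 ?_⟩
      rw [← row_onto (L x) (h1 x).1 C S (by omega) (hB x hx)] at hs
      obtain ⟨c', hc', he⟩ := Finset.mem_image.1 hs
      rwa [← (h1 x).1 he]
    rw [ht] at this
    exact Finset.mem_singleton.1 this
  exact hrr ((h2 c).1 ((hval r hr).trans (hval r' hr').symm))

end Pool.Agent.S05592
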