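import Pool.Statements.S05632
-- import your own Pool.Agent.* helpers here

set_option autoImplicit false
open Pool Pool.MP_3fd808_co

namespace Pool.Agent.S05632

/-- colour table: `9` means that the arc is absent -/
def tab : Fin 6 → Fin 6 → ℕ :=
  ![![9, 3, 9, 0, 9, 9], ![9, 9, 9, 2, 3, 9], ![0, 1, 9, 9, 9, 9], ![9, 9, 2, 9, 0, 1], ![2, 9, 1, 9, 9, 3], ![1, 2, 2, 9, 9, 9]]

/-- the arcs -/
def E (x y : Fin 6) : Prop := tab x y ≠ 9

instance : ∀ x y, Decidable (E x y) := fun x y => by unfold E; infer_instance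

/-- monochromatic closures: `cl v a` is closed under arcs of colour `a` and contains `v` -/
def cl : Fin 6 → ℕ → Finset (Fin 6)
  | 0, 0 => {0, 3, 4}
  | 0, 1 => {0}
  | 0, 2 => {0}
  | 0, 3 => {0, 1, 4, 5}
  | 1, 0 => {1}
  | 1, 1 => {1}
  | 1, 2 => {1, 2, 3}
  | 1, 3 => {1, 4, 5}
  | 2, 0 => {0, 2, 3, 4}
  | 2, 1 => {1, 2}
  | 2, 2 => {2}
  | 2, 3 => {2}
  | 3, 0 => {3, 4}
  | 3, 1 => {0, 3, 5}
  | 3, 2 => {2, 3}
  | 3, 3 => {3}
  | 4, 0 => {4}
  | 4, 1 => {1, 2, 4}
  | 4, 2 => {0, 4}
  | 4, 3 => {4, 5}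
  | 5, 0 => {5}
  | 5, 1 => {0, 5}
  | 5, 2 => {1, 2, 3, 5}
  | 5, 3 => {5}
  | _, _ => ∅

/-- the vertex that `v` does not reach -/
def ms : Fin 6 → Fin 6 := ![2, 0, 5, 1, 3, 4]

theorem ms_ne : ∀ v : Fin 6, ms v ≠ v := by decide

theorem cl_self : ∀ v : Fin 6, ∀ a : Fin 4, v ∈ cl v a := by decide

theorem cl_ms : ∀ v : Fin 6, ∀ a : Fin 4, ms v ∉ cl v a := by decide

theorem cl_closed : ∀ v : Fin 6, ∀ a : Fin 4, ∀ x ∈ cl v a, ∀ y : Fin 6, tab x y = a → y ∈ cl v a := by
  decide

theorem tab_lt : ∀ x y : Fin 6, tab x y ≠ 9 → tab x y < 4 := by decide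

theorem no3 : ∀ a b c : Fin 6, E a b → E b c → E c a →
    ¬ (tab a b ≠ tab b c ∧ tab b c ≠ tab c a ∧ tab a b ≠ tab c a) := by
  decide

set_option maxRecDepth 100000 in
theorem no4 : ∀ a b c d : Fin 6, E a b → E b c → E c d → E d a → a ≠ c → b ≠ d →
    ¬ (tab a b ≠ tab b c ∧ tab a b ≠ tab c d ∧ tab a b ≠ tab d a ∧ tab b c ≠ tab c d ∧
      tab b c ≠ tab d a ∧ tab c d ≠ tab d a) := by
  decide

/-- The negation of the preceding statement: Every nonempty finite tournament with arcs coloured by naturals has a directed cycle whose arcs all have distinct colours, or a vertex from which every other vertex is reachable by a one-colour directed path. -/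
theorem result :
    ¬ (∀ (V : Type) [Fintype V] [Nonempty V] (adj : V → V → Prop) (c : V → V → ℕ),
      (∀ x y : V, adj x y → ¬ adj y x) →
      (∀ x y : V, x ≠ y → adj x y ∨ adj y x) →
      (∃ (k : ℕ) (f : ℕ → V), 3 ≤ k ∧
          (∀ i j : ℕ, i < k → j < k → f i = f j → i = j) ∧
          (∀ i : ℕ, i < k → adj (f i) (f ((i + 1) % k))) ∧
          (∀ i j : ℕ, i < k → j < k →
            c (f i) (f ((i + 1) % k)) = c (f j) (f ((j + 1) % k)) → i = j)) ∨
      (∃ v : V, ∀ w : V, w ≠ v →
          ∃ a : ℕ, Relation.TransGen (fun x y : V => adj x y ∧ c x y = a) v w)) := by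
  intro h
  rcases h (Fin 6) E tab (by decide) (by decide) with ⟨k, f, hk, finj, hadj, hcol⟩ | ⟨v, hv⟩
  · -- no rainbow cycle
    have hk4 : k ≤ 4 := by
      by_contra hcon
      have hlt : ∀ i : Fin 5, tab (f i) (f ((i + 1) % k)) < 4 := by
        intro i
        exact tab_lt _ _ (hadj i (by have := i.2; omega))
      have inj : Function.Injective
          (fun i : Fin 5 => (⟨tab (f i) (f ((i + 1) % k)), hlt i⟩ : Fin 4)) := by
        intro i j hij
        have h1 := congrArg Fin.val hij
        exact Fin.ext (hcol i j (by have := i.2; omega) (by have := j.2; omega) h1)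
      have := Fintype.card_le_of_injective _ inj
      simp at this
    have hk34 : k = 3 ∨ k = 4 := by omega
    rcases hk34 with rfl | rfl
    · have e0 := hadj 0 (by norm_num)
      have e1 := hadj 1 (by norm_num)
      have e2 := hadj 2 (by norm_num)
      norm_num at e0 e1 e2
      refine no3 _ _ _ e0 e1 e2 ⟨?_, ?_, ?_⟩
      · intro hh; exact absurd (hcol 0 1 (by norm_num) (by norm_num) (by simpa using hh)) (by norm_num)
      · intro hh; exact absurd (hcol 1 2 (by norm_num) (by norm_num) (by simpa using hh)) (by norm_num)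
      · intro hh; exact absurd (hcol 0 2 (by norm_num) (by norm_num) (by simpa using hh)) (by norm_num)
    · have e0 := hadj 0 (by norm_num)
      have e1 := hadj 1 (by norm_num)
      have e2 := hadj 2 (by norm_num)
      have e3 := hadj 3 (by norm_num)
      norm_num at e0 e1 e2 e3
      refine no4 _ _ _ _ e0 e1 e2 e3 ?_ ?_ ⟨?_, ?_, ?_, ?_, ?_, ?_⟩
      · intro hh; exact absurd (finj 0 2 (by norm_num) (by norm_num) hh) (by norm_num)
      · intro hh; exact absurd (finj 1 3 (by norm_num) (by norm_num) hh) (by norm_num)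
      · intro hh; exact absurd (hcol 0 1 (by norm_num) (by norm_num) (by simpa using hh)) (by norm_num)
      · intro hh; exact absurd (hcol 0 2 (by norm_num) (by norm_num) (by simpa using hh)) (by norm_num)
      · intro hh; exact absurd (hcol 0 3 (by norm_num) (by norm_num) (by simpa using hh)) (by norm_num)
      · intro hh; exact absurd (hcol 1 2 (by norm_num) (by norm_num) (by simpa using hh)) (by norm_num)
      · intro hh; exact absurd (hcol 1 3 (by norm_num) (by norm_num) (by simpa using hh)) (by norm_num)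
      · intro hh; exact absurd (hcol 2 3 (by norm_num) (by norm_num) (by simpa using hh)) (by norm_num)
  · -- no vertex reaches everything
    have hne : ms v ≠ v := ms_ne v
    obtain ⟨a, ha⟩ := hv (ms v) hne
    by_cases ha4 : a < 4
    · have key : ∀ w, Relation.TransGen (fun x y : Fin 6 => E x y ∧ tab x y = a) v w → w ∈ cl v a := by
        intro w hw
        induction hw with
        | single hs => exact cl_closed v ⟨a, ha4⟩ v (cl_self v ⟨a, ha4⟩) _ hs.2
        | tail _ hs ih => exact cl_closed v ⟨a, ha4⟩ _ ih _ hs.2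
      exact cl_ms v ⟨a, ha4⟩ (key _ ha)
    · have key : ∀ w, ¬ Relation.TransGen (fun x y : Fin 6 => E x y ∧ tab x y = a) v w := by
        intro w hw
        cases hw with
        | single hs => have := tab_lt _ _ hs.1; have := hs.2; omega
        | tail _ hs => have := tab_lt _ _ hs.1; have := hs.2; omega
      exact key _ ha

end Pool.Agent.S05632
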