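import Pool.Statements.S05635
import Pool.Agent.H11.Furst3

set_option autoImplicit false
open Pool Pool.MP_400a6b_co

namespace Pool.Agent.S05635

open MvPowerSeries Pool.Agent.H11.Furst

lemma abs_sum_le (Q : (Fin 2 →₀ ℕ) → ℚ) (supp : Finset (Fin 2 →₀ ℕ))
    (hs : ∀ j, Q j ≠ 0 → j ∈ supp) (m : Fin 2 →₀ ℕ) :
    ∑ p ∈ Finset.HasAntidiagonal.antidiagonal m, |Q p.2| ≤ ∑ i ∈ supp, |Q i| := by
  classical
  have hinj : Set.InjOn (Prod.snd : (Fin 2 →₀ ℕ) × (Fin 2 →₀ ℕ) → (Fin 2 →₀ ℕ))
      (↑(Finset.HasAntidiagonal.antidiagonal m) : Set ((Fin 2 →₀ ℕ) × (Fin 2 →₀ ℕ))) := by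
    intro p hp p' hp' h
    rw [Finset.mem_coe, Finset.HasAntidiagonal.mem_antidiagonal] at hp hp'
    have h' : p.2 = p'.2 := h
    have : p.1 = p'.1 := by
      apply add_right_cancel (b := p.2)
      rw [hp, h', hp']
    exact Prod.ext this h'
  have e1 : ∑ p ∈ Finset.HasAntidiagonal.antidiagonal m, |Q p.2| =
      ∑ j ∈ (Finset.HasAntidiagonal.antidiagonal m).image Prod.snd, |Q j| :=
    (Finset.sum_image (f := fun j => |Q j|) hinj).symm
  rw [e1]
  rw [← Finset.sum_filter_of_ne (p := fun j => j ∈ supp)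
    (fun j _ hj => by
      apply hs
      intro h
      apply hj
      rw [h, abs_zero])]
  apply Finset.sum_le_sum_of_subset_of_nonneg
  · intro j hj
    exact (Finset.mem_filter.1 hj).2
  · intro i _ _
    exact abs_nonneg _

/-- the recursive growth estimate, in terms of coefficient functions -/
lemma growth_aux (f Q P : (Fin 2 →₀ ℕ) → ℚ) (Bq Bp : ℚ) (hBq0 : 0 ≤ Bq) (hBp0 : 0 ≤ Bp)
    (hq : Q 0 ≠ 0) (hPm : ∀ m, |P m| ≤ Bp)
    (hsum : ∀ m : Fin 2 →₀ ℕ, ∑ p ∈ Finset.HasAntidiagonal.antidiagonal m, |Q p.2| ≤ Bq)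
    (heq : ∀ m : Fin 2 →₀ ℕ, ∑ p ∈ Finset.HasAntidiagonal.antidiagonal m, f p.1 * Q p.2 = P m) :
    ∃ K c : ℚ, 0 ≤ K ∧ 1 ≤ c ∧ ∀ m : Fin 2 →₀ ℕ, |f m| ≤ K * c ^ (m 0 + m 1) := by
  classical
  have hq0p : 0 < |Q 0| := abs_pos.2 hq
  obtain ⟨c, hc⟩ : ∃ c : ℚ, c = 1 + 2 * Bq / |Q 0| := ⟨_, rfl⟩
  obtain ⟨K, hK⟩ : ∃ K : ℚ, K = 2 * Bp / |Q 0| := ⟨_, rfl⟩
  have hc1 : 1 ≤ c := by
    have : 0 ≤ 2 * Bq / |Q 0| := div_nonneg (mul_nonneg zero_le_two hBq0) hq0p.le
    linarith
  have hc0 : 0 < c := by linarith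
  have hK0 : 0 ≤ K := by rw [hK]; exact div_nonneg (mul_nonneg zero_le_two hBp0) hq0p.le
  refine ⟨K, c, hK0, hc1, ?_⟩
  have key : ∀ n : ℕ, ∀ m : Fin 2 →₀ ℕ, m 0 + m 1 = n → |f m| ≤ K * c ^ n := by
    intro n
    induction n using Nat.strong_induction_on with
    | _ n ih =>
      intro m hm
      have h1 := heq m
      have hmem : (m, 0) ∈ Finset.HasAntidiagonal.antidiagonal m := by
        rw [Finset.HasAntidiagonal.mem_antidiagonal]; exact add_zero m
      rw [← Finset.add_sum_erase _ _ hmem] at h1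
      have h2 : f m * Q 0 = P m - ∑ p ∈ (Finset.HasAntidiagonal.antidiagonal m).erase (m, 0),
          f p.1 * Q p.2 := by
        rw [← h1]
        show f m * Q 0 = f m * Q 0 + _ - _
        ring
      have hKn : 0 ≤ K * c ^ n / c := div_nonneg (mul_nonneg hK0 (pow_nonneg hc0.le _)) hc0.le
      have h3 : |∑ p ∈ (Finset.HasAntidiagonal.antidiagonal m).erase (m, 0),
          f p.1 * Q p.2| ≤ K * c ^ n / c * Bq := by
        refine (Finset.abs_sum_le_sum_abs _ _).trans ?_
        calc ∑ p ∈ (Finset.HasAntidiagonal.antidiagonal m).erase (m, 0), |f p.1 * Q p.2|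
            ≤ ∑ p ∈ (Finset.HasAntidiagonal.antidiagonal m).erase (m, 0), K * c ^ n / c * |Q p.2| := by
              apply Finset.sum_le_sum
              intro p hp
              rw [Finset.mem_erase, Finset.HasAntidiagonal.mem_antidiagonal] at hp
              rw [abs_mul]
              apply mul_le_mul_of_nonneg_right _ (abs_nonneg _)
              have e0 : p.1 0 + p.2 0 = m 0 := by rw [← hp.2]; rfl
              have e1 : p.1 1 + p.2 1 = m 1 := by rw [← hp.2]; rfl
              have hlt : p.1 0 + p.1 1 < n := by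
                rcases Nat.eq_zero_or_pos (p.2 0 + p.2 1) with hz | hz
                · exfalso
                  apply hp.1
                  have h4 : p.2 = 0 := ex_inj (by simp; omega) (by simp; omega)
                  have h5 : p.1 = m := by rw [← hp.2, h4, add_zero]
                  exact Prod.ext h5 h4
                · omega
              have h6 := ih _ hlt p.1 rfl
              refine h6.trans ?_
              rw [mul_div_assoc]
              apply mul_le_mul_of_nonneg_left _ hK0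
              rw [le_div_iff₀ hc0, ← pow_succ]
              exact pow_le_pow_right₀ hc1 (by omega)
          _ ≤ ∑ p ∈ Finset.HasAntidiagonal.antidiagonal m, K * c ^ n / c * |Q p.2| := by
              apply Finset.sum_le_sum_of_subset_of_nonneg (Finset.erase_subset _ _)
              intro i _ _
              exact mul_nonneg hKn (abs_nonneg _)
          _ = K * c ^ n / c * ∑ p ∈ Finset.HasAntidiagonal.antidiagonal m, |Q p.2| := by
              rw [Finset.mul_sum]
          _ ≤ K * c ^ n / c * Bq := mul_le_mul_of_nonneg_left (hsum m) hKn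
      have h4 : |f m| * |Q 0| ≤ Bp + K * c ^ n / c * Bq := by
        rw [← abs_mul, h2]
        refine (abs_sub _ _).trans ?_
        exact add_le_add (hPm m) h3
      have h5 : Bq / c ≤ |Q 0| / 2 := by
        rw [div_le_div_iff₀ hc0 (by norm_num)]
        rw [hc]
        have : |Q 0| * (1 + 2 * Bq / |Q 0|) = |Q 0| + 2 * Bq := by field_simp
        rw [this]; linarith
      have hKc : 0 ≤ K * c ^ n := mul_nonneg hK0 (pow_nonneg hc0.le _)
      have h6 : K * c ^ n / c * Bq ≤ K * c ^ n * (|Q 0| / 2) := by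
        have : K * c ^ n / c * Bq = K * c ^ n * (Bq / c) := by ring
        rw [this]
        exact mul_le_mul_of_nonneg_left h5 hKc
      have h7 : Bp = K * (|Q 0| / 2) := by
        rw [hK]; field_simp
      have h8 : K * (|Q 0| / 2) ≤ K * c ^ n * (|Q 0| / 2) := by
        apply mul_le_mul_of_nonneg_right _ (by linarith)
        have : (1 : ℚ) ≤ c ^ n := one_le_pow₀ hc1
        nlinarith
      have h9 : |f m| * |Q 0| ≤ (K * c ^ n) * |Q 0| := by
        calc |f m| * |Q 0| ≤ Bp + K * c ^ n / c * Bq := h4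
          _ ≤ K * c ^ n * (|Q 0| / 2) + K * c ^ n * (|Q 0| / 2) := by
              apply add_le_add _ h6
              rw [h7]; exact h8
          _ = _ := by ring
      exact le_of_mul_le_mul_right h9 hq0p
  intro m
  exact key _ m rfl

/-- coefficients of a rational series grow at most exponentially -/
lemma growth {f : A} (hf : H11.Furst.Rat f) : ∃ K c : ℚ, 0 ≤ K ∧ 1 ≤ c ∧
    ∀ m : Fin 2 →₀ ℕ, |coeff m f| ≤ K * c ^ (m 0 + m 1) := by
  classical
  obtain ⟨P, Q, hQ, hPQ⟩ := hf
  refine growth_aux (fun m => coeff m f) (fun m => Q.coeff m) (fun m => P.coeff m)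
    (∑ i ∈ Q.support, |Q.coeff i|) (∑ i ∈ P.support, |P.coeff i|)
    (Finset.sum_nonneg (fun i _ => abs_nonneg _)) (Finset.sum_nonneg (fun i _ => abs_nonneg _))
    hQ ?_ ?_ ?_
  · intro m
    by_cases hm : m ∈ P.support
    · exact Finset.single_le_sum (f := fun i => |P.coeff i|) (fun i _ => abs_nonneg _) hm
    · rw [MvPolynomial.notMem_support_iff.1 hm, abs_zero]
      exact Finset.sum_nonneg (fun i _ => abs_nonneg _)
  · exact abs_sum_le (fun m => Q.coeff m) Q.support (fun j hj => MvPolynomial.mem_support_iff.2 hj)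
  · intro m
    have h1 := congrArg (coeff m) hPQ
    rw [coeff_mul, MvPolynomial.coeToMvPowerSeries.ringHom_apply,
      MvPolynomial.coeToMvPowerSeries.ringHom_apply, MvPolynomial.coeff_coe] at h1
    rw [← h1]
    apply Finset.sum_congr rfl
    intro p _
    rw [MvPolynomial.coeff_coe]

/-- `1/((1-cx)(1-cy))` -/
lemma rat_geom (c : ℚ) : ∃ E : A, Rat E ∧ ∀ m : Fin 2 →₀ ℕ, coeff m E = c ^ (m 0 + m 1) := by
  set E : A := fun m => c ^ (m 0 + m 1) with hE
  have hEc : ∀ m : Fin 2 →₀ ℕ, coeff m E = c ^ (m 0 + m 1) := fun m => rfl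
  set E1 : A := fun m => if m 0 = 0 then c ^ (m 1) else 0 with hE1
  have hE1c : ∀ m : Fin 2 →₀ ℕ, coeff m E1 = if m 0 = 0 then c ^ (m 1) else 0 := fun m => rfl
  have h1 : E - C c * (x * E) = E1 := by
    ext m
    rw [map_sub, coeff_C_mul, eq_ex m]
    rcases m 0 with _ | a
    · rw [coeff_x_mul_zero, hEc, hE1c]; simp
    · rw [coeff_x_mul, hEc, hE1c, hEc]; simp; ring
  have h2 : E1 - C c * (y * E1) = 1 := by
    classical
    ext m
    rw [map_sub, coeff_C_mul, eq_ex m]
    rcases m 1 with _ | b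
    · rw [coeff_y_mul_zero, hE1c, coeff_one]
      by_cases h : m 0 = 0
      · have : ex (m 0) 0 = 0 := by rw [h]; ext i; fin_cases i <;> simp
        rw [if_pos this]; simp [h]
      · have : ¬ ex (m 0) 0 = 0 := by
          intro hh
          apply h
          have := congrArg (fun t => t 0) hh
          simpa using this
        rw [if_neg this]; simp [h]
    · rw [coeff_y_mul, hE1c, hE1c, coeff_one]
      have : ¬ ex (m 0) (b + 1) = 0 := by
        intro hh
        have := congrArg (fun t => t 1) hh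
        simp at this
      rw [if_neg this]
      simp only [ex_zero, ex_one]
      by_cases h : m 0 = 0
      · rw [if_pos h, if_pos h]; ring
      · rw [if_neg h, if_neg h]; ring
  refine ⟨E, ⟨1, (1 - MvPolynomial.C c * MvPolynomial.X 0) * (1 - MvPolynomial.C c * MvPolynomial.X 1),
    by simp, ?_⟩, hEc⟩
  rw [map_mul, map_sub, map_sub, map_mul, map_mul, cA_X0, cA_X1, cA_C, map_one]
  calc E * ((1 - C c * x) * (1 - C c * y)) = (E - C c * (x * E)) - C c * (y * (E - C c * (x * E))) := by ring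
    _ = 1 := by rw [h1, h2]

/-- `1/(1-dxy)` -/
lemma rat_geom_diag (d : ℚ) : Rat (dl (PowerSeries.mk (fun n => d ^ n))) := by
  refine ⟨1, 1 - MvPolynomial.C d * (MvPolynomial.X 0 * MvPolynomial.X 1), by simp, ?_⟩
  rw [map_sub, map_mul, map_mul, cA_X0, cA_X1, cA_C, map_one, ← dl_X, ← dl_C, ← map_one dl,
    ← map_mul, ← map_sub, ← map_mul]
  congr 1
  ext n
  have : (PowerSeries.mk (fun n => d ^ n)) * (1 - PowerSeries.C d * PowerSeries.X)
      = (PowerSeries.mk (fun n => d ^ n)) - PowerSeries.C d * (PowerSeries.X * PowerSeries.mk (fun n => d ^ n)) := by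
    ring
  rw [this, map_sub, PowerSeries.coeff_C_mul]
  rcases n with _ | n
  · simp
  · rw [PowerSeries.coeff_succ_X_mul, PowerSeries.coeff_mk, PowerSeries.coeff_mk, PowerSeries.coeff_one]
    simp
    ring

/-- For every F ∈ ℚ⟦x⟧ with all coefficients ≥ 0 that is algebraic over ℚ[x] (nonzero p ∈ ℚ[x][T] with p(F)=0), there is a bivariate rational power series R = P/Q (Q(0)≠0) with all Taylor coefficients ≥ 0 whose diagonal coefficients [x^n y^n]R equal [x^n]F. -/
theorem result :
    ∀ F : PowerSeries ℚ,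
      (∀ n : ℕ, 0 ≤ PowerSeries.coeff n F) →
      (∃ p : Polynomial (Polynomial ℚ), p ≠ 0 ∧
          Polynomial.eval₂ Polynomial.coeToPowerSeries.ringHom F p = 0) →
      ∃ R : MvPowerSeries (Fin 2) ℚ,
        (∃ P Q : MvPolynomial (Fin 2) ℚ,
            MvPolynomial.constantCoeff Q ≠ 0 ∧
            R * (Q : MvPowerSeries (Fin 2) ℚ) = (P : MvPowerSeries (Fin 2) ℚ)) ∧
        (∀ m : Fin 2 →₀ ℕ, 0 ≤ MvPowerSeries.coeff m R) ∧
        (∀ n : ℕ, MvPowerSeries.coeff (Finsupp.single 0 n + Finsupp.single 1 n) R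
            = PowerSeries.coeff n F) := by
  intro F hF halg
  obtain ⟨S, hS, hdiag⟩ := alg_diag F halg
  obtain ⟨K, c, hK, hc, hbound⟩ := growth hS
  obtain ⟨E, hE, hEc⟩ := rat_geom c
  set D : A := dl (PowerSeries.mk (fun n => (c ^ 2) ^ n)) with hD
  have hDc : ∀ m : Fin 2 →₀ ℕ, coeff m D = if m 0 = m 1 then c ^ (m 0 + m 1) else 0 := by
    intro m
    rw [hD, coeff_dl]
    by_cases h : m 0 = m 1
    · rw [if_pos h, if_pos h, PowerSeries.coeff_mk, ← pow_mul, ← h]
      congr 1; ring
    · rw [if_neg h, if_neg h]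
  have hcoef : ∀ m : Fin 2 →₀ ℕ, coeff m (S + (C K * E + C (-K) * D)) =
      coeff m S + K * c ^ (m 0 + m 1) - K * (if m 0 = m 1 then c ^ (m 0 + m 1) else 0) := by
    intro m
    rw [map_add, map_add, coeff_C_mul, coeff_C_mul, hEc, hDc]; ring
  have hrat : Rat (S + (C K * E + C (-K) * D)) := by
    refine hS.add (H11.Furst.Rat.add (H11.Furst.Rat.mul ?_ hE) (H11.Furst.Rat.mul ?_ (rat_geom_diag _)))
    · rw [← cA_C]; exact H11.Furst.Rat.poly _
    · rw [← cA_C]; exact H11.Furst.Rat.poly _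
  refine ⟨S + (C K * E + C (-K) * D), ?_, ?_, ?_⟩
  · obtain ⟨P, Q, hQ, h⟩ := hrat
    exact ⟨P, Q, hQ, h⟩
  · intro m
    rw [hcoef]
    by_cases h : m 0 = m 1
    · rw [if_pos h]
      have : coeff m S = PowerSeries.coeff (m 0) F := by
        rw [← hdiag (m 0)]
        congr 1
        congr 1
        exact ex_inj (by simp) (by simp [h])
      rw [this]
      have := hF (m 0)
      linarith
    · rw [if_neg h]
      have := hbound m
      have := neg_le_of_abs_le this
      linarith
  · intro n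
    show coeff (ex n n) _ = _
    rw [hcoef, hdiag n]
    simp

end Pool.Agent.S05635
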