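import Pool.Statements.S05651

set_option autoImplicit false
open Pool Pool.MP_4150d6_co

namespace Pool.Agent.S05651

/-- adjacency matrix of the graph, as the bits of a number -/
def MG : ℕ := 205311969229998

def adjG (x y : ℕ) : Bool := MG.testBit (7 * x + y)

lemma adjG_symm : ∀ x y : Fin 7, adjG x y = true → adjG y x = true := by decide +kernel

lemma adjG_irr : ∀ x : Fin 7, ¬ adjG x x = true := by decide +kernel

/-- the graph: 7 vertices, 16 edges -/
def GG : SimpleGraph (Fin 7) where
  Adj x y := adjG x y = true
  symm := ⟨fun x y h => adjG_symm x y h⟩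
  loopless := ⟨fun x h => adjG_irr x h⟩

instance : DecidableRel GG.Adj := fun x y => inferInstanceAs (Decidable (adjG x y = true))

/-- for the vertices `k = 1, …, 6` the numbers `k - 1 - i`, `i` an earlier neighbour -/
def lev1 : List (List ℕ) := [[0], [1], [2, 1, 0], [2, 1, 0], [4, 3, 2, 0], [4, 3, 2, 0]]

/-- the edges -/
def EL : List (ℕ × ℕ) := [(0, 1), (0, 2), (0, 3), (1, 3), (2, 3), (1, 4), (2, 4), (3, 4), (0, 5), (1, 5), (2, 5), (4, 5), (1, 6), (2, 6), (3, 6), (5, 6)]

/-- a way to make the kernel evaluate `n` -/
def force (n : ℕ) (k : ℕ → Bool) : Bool :=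
  match n with
  | 0 => k 0
  | m + 1 => k (m + 1)

lemma force_eq (n : ℕ) (k : ℕ → Bool) : force n k = k n := by cases n <;> rfl

/-- `r` occurs less than `B` times in the list -/
def few (r : ℕ) : ℕ → List ℕ → Bool
  | 0, _ => false
  | _ + 1, [] => true
  | B + 1, x :: xs => cond (Nat.beq x r) (few r B xs) (few r (B + 1) xs)

lemma few_of_lt (r : ℕ) (l : List ℕ) : ∀ B, l.count r < B → few r B l = true := by
  induction l with
  | nil =>
    intro B h
    cases B with
    | zero => simp at h
    | succ B => rfl
  | cons x xs ih =>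
    intro B h
    cases B with
    | zero => simp at h
    | succ B =>
      rw [few]
      by_cases hx : x = r
      · have : Nat.beq x r = true := by rw [hx]; exact Nat.beq_refl r
        rw [this, cond_true]
        apply ih
        rw [hx, List.count_cons_self] at h
        omega
      · have : Nat.beq x r = false := by
          rw [← Bool.not_eq_true]; intro h'; exact hx (Nat.eq_of_beq_eq_true h')
        rw [this, cond_false]
        apply ih
        rw [List.count_cons_of_ne hx] at h
        exact h

/-- add the residues of the edges from the new vertex with label `a` to the list `rs`, if they do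
not occur too often -/
def addC (M B : ℕ) (labels : List ℕ) (a : ℕ) : List ℕ → List ℕ → (List ℕ → Bool) → Bool
  | [], rs, next => next rs
  | i :: nb, rs, next => force ((labels.getD i 0 + a) % M) fun r =>
      cond (few r B rs) (addC M B labels a nb (r :: rs) next) false

lemma addC_some (M B : ℕ) (labels : List ℕ) (a : ℕ) (nb : List ℕ) (next : List ℕ → Bool) :
    ∀ rs : List ℕ, (∀ r, ((nb.map fun i => (labels.getD i 0 + a) % M) ++ rs).count r ≤ B) →
    addC M B labels a nb rs next =
      next ((nb.map fun i => (labels.getD i 0 + a) % M).reverse ++ rs) := by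
  induction nb with
  | nil => intro rs _; rfl
  | cons i nb ih =>
    intro rs h
    rw [addC, force_eq]
    rw [few_of_lt _ _ _ (by
      have := h ((labels.getD i 0 + a) % M)
      simp only [List.map_cons, List.cons_append, List.count_cons_self, List.count_append] at this
      omega), cond_true, ih]
    · simp
    · intro s
      have := h s
      simp only [List.map_cons, List.cons_append, List.count_cons, List.count_append] at this ⊢
      omega

/-- refine the labels modulo `N` to labels modulo `2 * N` -/
def bits (N B : ℕ) (next : List ℕ → Bool) :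
    List (List ℕ) → List ℕ → List ℕ → List ℕ → Bool
  | nb :: rest, o :: old, labels, rs =>
      (force o fun a => addC (N * 2) B labels a nb rs fun rs' =>
        bits N B next rest old (a :: labels) rs') ||
      (force (o + N) fun a => addC (N * 2) B labels a nb rs fun rs' =>
        bits N B next rest old (a :: labels) rs')
  | _, _, labels, _ => next labels.reverse

def allRes (g : ℕ → ℕ) (M : ℕ) : List (List ℕ) → ℕ → List ℕ
  | [], _ => []
  | nb :: rest, k => (nb.map fun i => (g (k - 1 - i) + g k) % M) ++ allRes g M rest (k + 1)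

lemma bits_sound (g : ℕ → ℕ) (N B : ℕ) (next : List ℕ → Bool) (n : ℕ)
    (rest : List (List ℕ)) : ∀ (k : ℕ) (rs : List ℕ), k + rest.length = n →
    (∀ r, (allRes g (N * 2) rest k ++ rs).count r ≤ B) →
    (∀ j (hj : j < rest.length), ∀ i ∈ rest[j], i < k + j) →
    next ((List.range n).map fun i => g i % (N * 2)) = true →
    bits N B next rest ((List.range' k rest.length).map fun i => g i % N)
      ((List.range k).map fun i => g i % (N * 2)).reverse rs = true := by
  induction rest with
  | nil =>
    intro k rs hk _ _ h
    simp only [List.length_nil, add_zero] at hk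
    subst hk
    rw [bits, List.reverse_reverse]
    · exact h
    · simp
  | cons nb rest ih =>
    intro k rs hk hc hlt hnext
    rw [List.length_cons] at hk
    rw [List.length_cons, List.range'_succ, List.map_cons, bits, force_eq, force_eq]
    have hgk : g k % (N * 2) = g k % N + N * (g k / N % 2) := Nat.mod_mul
    have hmain : addC (N * 2) B ((List.range k).map fun i => g i % (N * 2)).reverse
        (g k % (N * 2)) nb rs (fun rs' => bits N B next rest
          ((List.range' (k + 1) rest.length).map fun i => g i % N)
          (g k % (N * 2) :: ((List.range k).map fun i => g i % (N * 2)).reverse) rs') = true := by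
      have hmap : (nb.map fun i => ((((List.range k).map fun i => g i % (N * 2)).reverse).getD i 0
          + g k % (N * 2)) % (N * 2)) = nb.map fun i => (g (k - 1 - i) + g k) % (N * 2) := by
        apply List.map_congr_left
        intro i hi
        have hik : i < k := by
          have := hlt 0 (by simp) i (by simpa using hi)
          simpa using this
        rw [List.getD_eq_getElem _ _ (by simpa using hik)]
        simp [Nat.add_mod]
      rw [allRes] at hc
      rw [addC_some _ _ _ _ _ _ rs (by
        intro r
        rw [hmap]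
        have := hc r
        simp only [List.count_append] at this ⊢
        omega), hmap]
      have h3 := ih (k + 1) ((nb.map fun i => (g (k - 1 - i) + g k) % (N * 2)).reverse ++ rs)
        (by omega)
        (by
          intro r
          have := hc r
          simp only [List.count_append, List.count_reverse] at this ⊢
          omega)
        (by
          intro j hj i hi
          have := hlt (j + 1) (by simpa using hj) i (by simpa using hi)
          omega) hnext
      rw [List.range_succ, List.map_append, List.reverse_append] at h3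
      exact h3
    rw [Bool.or_eq_true]
    have h2 : g k / N % 2 = 0 ∨ g k / N % 2 = 1 := by omega
    rcases h2 with h2 | h2
    · left
      rw [h2, mul_zero, add_zero] at hgk
      rw [hgk] at hmain
      exact hmain
    · right
      rw [h2, mul_one] at hgk
      rw [hgk] at hmain
      exact hmain

/-- does some translate of the labels have its edge sums in an interval of length 16? -/
def leaf (l : List ℕ) : Bool :=
  (List.range 16).any fun b => (List.range 30).any fun m => EL.all fun e =>
    force ((l.getD e.1 0 + b) % 16 + (l.getD e.2 0 + b) % 16) fun s =>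
      Nat.ble m s && Nat.blt s (m + 16)

/-- the last three levels of the search, from a list of parities -/
def search2 (l : List ℕ) : Bool :=
  bits 2 4 (fun l => bits 4 2
    (fun l => bits 8 1 leaf lev1 l.tail [0] []) lev1 l.tail [0] []) lev1 l.tail [0] []

lemma s0 : search2 [0, 0, 0, 0, 1, 0, 1] = false := by decide +kernel
lemma s1 : search2 [0, 0, 1, 0, 0, 1, 0] = false := by decide +kernel
lemma s2 : search2 [0, 0, 1, 0, 0, 1, 1] = false := by decide +kernel
lemma s3 : search2 [0, 0, 1, 0, 1, 1, 0] = false := by decide +kernel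
lemma s4 : search2 [0, 0, 1, 0, 1, 1, 1] = false := by decide +kernel
lemma s5 : search2 [0, 0, 1, 1, 0, 0, 0] = false := by decide +kernel
lemma s6 : search2 [0, 0, 1, 1, 0, 0, 1] = false := by decide +kernel
lemma s7 : search2 [0, 0, 1, 1, 1, 0, 0] = false := by decide +kernel
lemma s8 : search2 [0, 0, 1, 1, 1, 0, 1] = false := by decide +kernel
lemma s9 : search2 [0, 1, 0, 0, 0, 1, 0] = false := by decide +kernel
lemma s10 : search2 [0, 1, 0, 0, 0, 1, 1] = false := by decide +kernel
lemma s11 : search2 [0, 1, 0, 0, 1, 1, 0] = false := by decide +kernel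
lemma s12 : search2 [0, 1, 0, 0, 1, 1, 1] = false := by decide +kernel
lemma s13 : search2 [0, 1, 0, 1, 0, 0, 0] = false := by decide +kernel
lemma s14 : search2 [0, 1, 0, 1, 0, 0, 1] = false := by decide +kernel
lemma s15 : search2 [0, 1, 0, 1, 1, 0, 0] = false := by decide +kernel
lemma s16 : search2 [0, 1, 0, 1, 1, 0, 1] = false := by decide +kernel
lemma s17 : search2 [0, 1, 1, 1, 0, 1, 1] = false := by decide +kernel
lemma s18 : search2 [0, 1, 1, 1, 1, 1, 0] = false := by decide +kernel

/-- the lists of parities that survive the first level -/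
def pats : List (List ℕ) := [[0, 0, 0, 0, 1, 0, 1], [0, 0, 1, 0, 0, 1, 0], [0, 0, 1, 0, 0, 1, 1], [0, 0, 1, 0, 1, 1, 0], [0, 0, 1, 0, 1, 1, 1], [0, 0, 1, 1, 0, 0, 0], [0, 0, 1, 1, 0, 0, 1], [0, 0, 1, 1, 1, 0, 0], [0, 0, 1, 1, 1, 0, 1], [0, 1, 0, 0, 0, 1, 0], [0, 1, 0, 0, 0, 1, 1], [0, 1, 0, 0, 1, 1, 0], [0, 1, 0, 0, 1, 1, 1], [0, 1, 0, 1, 0, 0, 0], [0, 1, 0, 1, 0, 0, 1], [0, 1, 0, 1, 1, 0, 0], [0, 1, 0, 1, 1, 0, 1], [0, 1, 1, 1, 0, 1, 1], [0, 1, 1, 1, 1, 1, 0]]

lemma search1 : bits 1 8 (fun l => !(pats.contains l)) lev1 [0, 0, 0, 0, 0, 0] [0] [] = false := by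
  decide +kernel

lemma search2_false (l : List ℕ) (h : l ∈ pats) : search2 l = false := by
  simp only [pats, List.mem_cons, List.not_mem_nil, or_false] at h
  rcases h with rfl | rfl | rfl | rfl | rfl | rfl | rfl | rfl | rfl | rfl | rfl | rfl | rfl | rfl | rfl | rfl | rfl | rfl | rfl
  · exact s0
  · exact s1
  · exact s2
  · exact s3
  · exact s4
  · exact s5
  · exact s6
  · exact s7
  · exact s8
  · exact s9
  · exact s10
  · exact s11
  · exact s12
  · exact s13
  · exact s14
  · exact s15
  · exact s16
  · exact s17
  · exact s18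

lemma step (g : ℕ → ℕ) (hg0 : g 0 = 0) (N B : ℕ) (next : List ℕ → Bool)
    (hc : ∀ r, (allRes g (N * 2) lev1 1).count r ≤ B)
    (hnext : next ((List.range 7).map fun i => g i % (N * 2)) = true) :
    bits N B next lev1 ((List.range 7).map fun i => g i % N).tail [0] [] = true := by
  have h := bits_sound g N B next 7 lev1 1 [] rfl (by simpa using hc)
    (by decide) hnext
  have e1 : ((List.range 1).map fun i => g i % (N * 2)).reverse = [0] := by
    simp [hg0]
  rw [e1] at h
  exact h

lemma allRes_eq (g : ℕ → ℕ) (M : ℕ) :
    allRes g M lev1 1 = EL.map fun e => (g e.1 + g e.2) % M := rfl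

lemma main (g : ℕ → ℕ) (hg0 : g 0 = 0)
    (hnd : (EL.map fun e => (g e.1 + g e.2) % 16).Nodup)
    (hleaf : leaf ((List.range 7).map fun i => g i % 16) = true) : False := by
  have hperm : (EL.map fun e => (g e.1 + g e.2) % 16).Perm (List.range 16) := by
    apply (List.subperm_of_subset hnd ?_).perm_of_length_le (by simp [EL])
    intro x hx
    rw [List.mem_map] at hx
    obtain ⟨e, _, rfl⟩ := hx
    rw [List.mem_range]
    exact Nat.mod_lt _ (by norm_num)
  have hcount : ∀ M B, M ∣ 16 → (∀ r < M, ((List.range 16).map (· % M)).count r ≤ B) →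
      ∀ r, (allRes g M lev1 1).count r ≤ B := by
    intro M B hM h r
    rw [allRes_eq]
    have e1 : (EL.map fun e => (g e.1 + g e.2) % M) =
        (EL.map fun e => (g e.1 + g e.2) % 16).map (· % M) := by
      rw [List.map_map]
      apply List.map_congr_left
      intro e _
      simp only [Function.comp_apply]
      rw [Nat.mod_mod_of_dvd _ hM]
    rw [e1, (hperm.map (· % M)).count_eq]
    by_cases hr : r < M
    · exact h r hr
    · rw [List.count_eq_zero_of_not_mem]
      · exact Nat.zero_le _
      · intro hmem
        rw [List.mem_map] at hmem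
        obtain ⟨x, _, hx⟩ := hmem
        have : 0 < M := Nat.pos_of_dvd_of_pos hM (by norm_num)
        have := Nat.mod_lt x this
        omega
  have h4 := step g hg0 8 1 leaf (hcount 16 1 (by norm_num) (by decide)) hleaf
  have h3 := step g hg0 4 2 (fun l => bits 8 1 leaf lev1 l.tail [0] [])
    (hcount 8 2 (by norm_num) (by decide)) h4
  have h2 := step g hg0 2 4 (fun l => bits 4 2
    (fun l => bits 8 1 leaf lev1 l.tail [0] []) lev1 l.tail [0] [])
    (hcount 4 4 (by norm_num) (by decide)) h3
  by_cases hmem : ((List.range 7).map fun i => g i % 2) ∈ pats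
  · have := search2_false _ hmem
    rw [search2, h2] at this
    exact absurd this (by decide)
  · have h1 := step g hg0 1 8 (fun l => !(pats.contains l))
      (hcount 2 8 (by norm_num) (by decide)) (by
        rw [Bool.not_eq_true', List.contains_eq_mem, decide_eq_false_iff_not]
        exact hmem)
    have e2 : ((List.range 7).map fun i => g i % 1).tail = [0, 0, 0, 0, 0, 0] := by
      simp [Nat.mod_one, List.range_succ]
    rw [e2, search1] at h1
    exact absurd h1 (by decide)

lemma adj_EL : ∀ e ∈ EL, ∃ (h1 : e.1 < 7) (h2 : e.2 < 7), GG.Adj ⟨e.1, h1⟩ ⟨e.2, h2⟩ := by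
  decide +kernel

lemma EL_lt : ∀ e ∈ EL, e.1 < e.2 := by decide

lemma no_seq (f : Fin 7 → ℕ) (m : ℕ) (hinj : Function.Injective f) (hlt : ∀ v, f v < 16)
    (hr : ∀ a b : Fin 7, GG.Adj a b → m ≤ f a + f b ∧ f a + f b < m + 16)
    (hd : ∀ a b c d : Fin 7, GG.Adj a b → GG.Adj c d →
      f a + f b = f c + f d → s(a, b) = s(c, d)) : False := by
  set F : ℕ → ℕ := fun i => if h : i < 7 then f ⟨i, h⟩ else 0 with hF
  have hFv : ∀ i (h : i < 7), F i = f ⟨i, h⟩ := by
    intro i h
    simp only [hF]
    rw [dif_pos h]
  have hFlt : ∀ i, F i < 16 := by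
    intro i
    simp only [hF]
    split_ifs with h
    · exact hlt _
    · norm_num
  have hFr : ∀ e ∈ EL, m ≤ F e.1 + F e.2 ∧ F e.1 + F e.2 < m + 16 := by
    intro e he
    obtain ⟨h1, h2, h3⟩ := adj_EL e he
    rw [hFv _ h1, hFv _ h2]
    exact hr _ _ h3
  have hFd : ∀ e ∈ EL, ∀ e' ∈ EL, F e.1 + F e.2 = F e'.1 + F e'.2 → e = e' := by
    intro e he e' he' heq
    obtain ⟨h1, h2, h3⟩ := adj_EL e he
    obtain ⟨h1', h2', h3'⟩ := adj_EL e' he'
    rw [hFv _ h1, hFv _ h2, hFv _ h1', hFv _ h2'] at heq
    have := hd _ _ _ _ h3 h3' heq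
    have l1 := EL_lt e he
    have l2 := EL_lt e' he'
    rw [Sym2.eq_iff] at this
    rcases this with ⟨ha, hb⟩ | ⟨ha, hb⟩
    · rw [Fin.mk.injEq] at ha hb
      exact Prod.ext ha hb
    · rw [Fin.mk.injEq] at ha hb
      omega
  set g : ℕ → ℕ := fun i => (F i + 16 - F 0) % 16 with hg
  have hg0 : g 0 = 0 := by
    simp only [hg]
    have := hFlt 0
    omega
  apply main g hg0
  · apply List.Nodup.map_on _ (by decide)
    intro e he e' he' heq
    apply hFd e he e' he'
    have r1 := hFr e he
    have r2 := hFr e' he'
    have := hFlt 0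
    simp only [hg] at heq
    omega
  · rw [leaf, List.any_eq_true]
    refine ⟨F 0, by rw [List.mem_range]; exact hFlt 0, ?_⟩
    rw [List.any_eq_true]
    have hm : m < 30 := by
      have h01 := (hFr (0, 1) (by decide)).1
      have hne : F 0 ≠ F 1 := by
        rw [hFv 0 (by norm_num), hFv 1 (by norm_num)]
        intro h
        have := hinj h
        rw [Fin.mk.injEq] at this
        omega
      have b0 := hFlt 0
      have b1 := hFlt 1
      simp only at h01
      omega
    refine ⟨m, by rw [List.mem_range]; exact hm, ?_⟩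
    rw [List.all_eq_true]
    intro e he
    rw [force_eq]
    obtain ⟨h1, h2, _⟩ := adj_EL e he
    have hr' := hFr e he
    have key : ∀ i, i < 7 →
        ((((List.range 7).map fun i => g i % 16).getD i 0) + F 0) % 16 = F i := by
      intro i hi
      rw [List.getD_eq_getElem _ _ (by simpa using hi), List.getElem_map, List.getElem_range]
      have b0 := hFlt 0
      have b1 := hFlt i
      simp only [hg]
      omega
    rw [key _ h1, key _ h2, Bool.and_eq_true]
    constructor
    · exact Nat.ble_eq ▸ hr'.1
    · exact Nat.blt_eq ▸ hr'.2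

lemma card_edges : Nat.card GG.edgeSet = 16 := by
  rw [Nat.card_eq_fintype_card]
  decide +kernel

lemma harm_inj : Function.Injective (![0, 1, 2, 3, 6, 10, 12] : Fin 7 → ZMod 16) := by
  decide +kernel

lemma harm_sum : ∀ a b c d : Fin 7, GG.Adj a b → GG.Adj c d →
    (![0, 1, 2, 3, 6, 10, 12] : Fin 7 → ZMod 16) a + (![0, 1, 2, 3, 6, 10, 12] : Fin 7 → ZMod 16) b
      = (![0, 1, 2, 3, 6, 10, 12] : Fin 7 → ZMod 16) c +
        (![0, 1, 2, 3, 6, 10, 12] : Fin 7 → ZMod 16) d → s(a, b) = s(c, d) := by
  decide +kernel

lemma not_tree : ¬ GG.IsTree := by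
  intro h
  have := h.card_edgeFinset
  rw [Fintype.card_fin] at this
  have h2 : GG.edgeFinset.card = 16 := by decide +kernel
  omega

/-- Some finite simple graph with q ≥ 1 edges is harmonious (vertex labels in Z_q, injective except one repeat allowed for trees, distinct edge sums mod q) but has no sequential labeling (injective labels in 0..q−1, or 0..q for trees, with edge sums exactly q consecutive integers). -/
theorem result :
    ∃ (n : ℕ) (G : SimpleGraph (Fin n)) (q : ℕ),
      Nat.card G.edgeSet = q ∧ 1 ≤ q ∧
      (∃ f : Fin n → ZMod q,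
        (Function.Injective f ∨ (G.IsTree ∧ Function.Surjective f)) ∧
        ∀ a b c d : Fin n, G.Adj a b → G.Adj c d →
          f a + f b = f c + f d → s(a, b) = s(c, d)) ∧
      ¬ (∃ (f : Fin n → ℕ) (m : ℕ),
          Function.Injective f ∧
          ((∀ v, f v < q) ∨ (G.IsTree ∧ ∀ v, f v ≤ q)) ∧
          (∀ a b : Fin n, G.Adj a b → m ≤ f a + f b ∧ f a + f b < m + q) ∧
          ∀ a b c d : Fin n, G.Adj a b → G.Adj c d →
            f a + f b = f c + f d → s(a, b) = s(c, d)) := by
  refine ⟨7, GG, 16, card_edges, by norm_num, ⟨_, Or.inl harm_inj, harm_sum⟩, ?_⟩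
  rintro ⟨f, m, hinj, hlt, hr, hd⟩
  rcases hlt with hlt | ⟨ht, _⟩
  · exact no_seq f m hinj hlt hr hd
  · exact not_tree ht

end Pool.Agent.S05651
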