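import Pool.Statements.S05720
-- import your own Pool.Agent.* helpers here

set_option autoImplicit false
open Pool Pool.MP_455b0c_co

namespace Pool.Agent.S05720

/-- Left endpoints (in thousandths) of a representation with lengths `1` and `7/5`. -/
def aA : Fin 24 → ℤ :=
  ![0, 1001, 2002, 3003, 4004, 5005, 1000, 2205, 3605, 1204, 2204, 3204, 4007, 5007, 3606, 1203, 2001, 3401, 2203, 3203, 4603, 3006, 4006, 5008]

/-- Lengths (in thousandths) of that representation. -/
def lA : Fin 24 → ℤ :=
  ![1000, 1000, 1000, 1000, 1000, 1000, 1400, 1400, 1400, 1000, 1000, 1000, 1000, 1000, 1400, 1000, 1400, 1000, 1000, 1400, 1000, 1000, 1400, 1000]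

/-- Left endpoints (in thousandths) of a representation with lengths `1` and `31/20`. -/
def aB : Fin 24 → ℤ :=
  ![0, 1001, 2002, 3003, 4004, 5005, 1000, 2455, 3455, 1454, 2453, 3453, 4007, 5007, 3456, 1452, 1904, 3454, 2452, 3452, 5002, 3006, 4006, 5008]

/-- Lengths (in thousandths) of that representation. -/
def lB : Fin 24 → ℤ :=
  ![1000, 1000, 1000, 1000, 1000, 1000, 1550, 1000, 1550, 1000, 1000, 1000, 1000, 1000, 1550, 1000, 1550, 1000, 1000, 1550, 1000, 1000, 1550, 1000]

/-- The interval order. -/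
def P (i j : Fin 24) : Prop := aA i + lA i < aA j

instance : DecidableRel P := fun i j => by unfold P; infer_instance

theorem P_iff_B : ∀ i j : Fin 24, P i j ↔ aB i + lB i < aB j := by decide +kernel

theorem lA_val : ∀ i : Fin 24, lA i = 1000 ∨ lA i = 1400 := by decide +kernel

theorem lB_val : ∀ i : Fin 24, lB i = 1000 ∨ lB i = 1550 := by decide +kernel

theorem cast_iff (x l y : ℤ) :
    x + l < y ↔ ((x : ℝ) / 1000 + (l : ℝ) / 1000 < (y : ℝ) / 1000) := by
  constructor
  · intro h
    have h' : (x : ℝ) + (l : ℝ) < (y : ℝ) := by exact_mod_cast h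
    linarith
  · intro h
    have h' : (x : ℝ) + (l : ℝ) < (y : ℝ) := by linarith
    exact_mod_cast h'

theorem repA : ∃ a L : Fin 24 → ℝ,
    (∀ i, L i = 1 ∨ L i = 7 / 5) ∧ ∀ i j, P i j ↔ a i + L i < a j := by
  refine ⟨fun i => (aA i : ℝ) / 1000, fun i => (lA i : ℝ) / 1000, ?_, ?_⟩
  · intro i
    rcases lA_val i with h | h
    · left; simp only [h]; norm_num
    · right; simp only [h]; norm_num
  · intro i j
    exact cast_iff _ _ _

theorem repB : ∃ a L : Fin 24 → ℝ,
    (∀ i, L i = 1 ∨ L i = 31 / 20) ∧ ∀ i j, P i j ↔ a i + L i < a j := by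
  refine ⟨fun i => (aB i : ℝ) / 1000, fun i => (lB i : ℝ) / 1000, ?_, ?_⟩
  · intro i
    rcases lB_val i with h | h
    · left; simp only [h]; norm_num
    · right; simp only [h]; norm_num
  · intro i j
    rw [P_iff_B]
    exact cast_iff _ _ _

/-- If `x` overlaps both `p` and `q`, where `p < m < q`, then `m` is shorter than `x`. -/
theorem inside (a L : Fin 24 → ℝ) (h : ∀ i j, P i j ↔ a i + L i < a j) (x p m q : Fin 24)
    (h1 : P p m) (h2 : P m q) (h3 : ¬ P p x) (h4 : ¬ P x q) : L m < L x := by
  rw [h] at h1 h2 h3 h4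
  linarith

/-- `3/2` is not in the spectrum. -/
theorem no_three_halves : ¬ ∃ a L : Fin 24 → ℝ,
    (∀ i, L i = 1 ∨ L i = 3 / 2) ∧ ∀ i j, P i j ↔ a i + L i < a j := by
  rintro ⟨a, L, hL, h⟩
  have short : ∀ m x : Fin 24, L m < L x → L m = 1 := by
    intro m x hmx
    rcases hL m with h1 | h1
    · exact h1
    · rcases hL x with h2 | h2 <;> linarith
  have long : ∀ m x : Fin 24, L m < L x → L x = 3 / 2 := by
    intro m x hmx
    rcases hL x with h1 | h1
    · rcases hL m with h2 | h2 <;> linarith
    · exact h1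
  have ge1 : ∀ i, 1 ≤ L i := by
    intro i
    rcases hL i with h1 | h1 <;> linarith
  have pos : ∀ i j, P i j → a i + L i < a j := fun i j => (h i j).1
  have neg : ∀ i j, ¬ P i j → a j ≤ a i + L i := fun i j hn => by
    by_contra hc
    exact hn ((h i j).2 (not_le.1 hc))
  have h10 : L 10 = 1 := short 10 16 (inside a L h 16 15 10 17 (by decide +kernel)
    (by decide +kernel) (by decide +kernel) (by decide +kernel))
  have h11 : L 11 = 1 := short 11 19 (inside a L h 19 18 11 20 (by decide +kernel)
    (by decide +kernel) (by decide +kernel) (by decide +kernel))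
  have h12 : L 12 = 1 := short 12 22 (inside a L h 22 21 12 23 (by decide +kernel)
    (by decide +kernel) (by decide +kernel) (by decide +kernel))
  have h6 : L 6 = 3 / 2 := long 1 6 (inside a L h 6 0 1 2 (by decide +kernel)
    (by decide +kernel) (by decide +kernel) (by decide +kernel))
  have h8 : L 8 = 3 / 2 := long 4 8 (inside a L h 8 3 4 5 (by decide +kernel)
    (by decide +kernel) (by decide +kernel) (by decide +kernel))
  have h14 : L 14 = 3 / 2 := long 4 14 (inside a L h 14 3 4 5 (by decide +kernel)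
    (by decide +kernel) (by decide +kernel) (by decide +kernel))
  rcases hL 7 with h7 | h7
  · -- `t` is short: the path `0, 6, 7, 8, 5` is too short for the chain `0 < 1 < 2 < 3 < 4 < 5`
    have e1 := neg 0 6 (by decide +kernel)
    have e2 := neg 6 7 (by decide +kernel)
    have e3 := neg 7 8 (by decide +kernel)
    have e4 := neg 8 5 (by decide +kernel)
    have f1 := pos 0 1 (by decide +kernel)
    have f2 := pos 1 2 (by decide +kernel)
    have f3 := pos 2 3 (by decide +kernel)
    have f4 := pos 3 4 (by decide +kernel)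
    have f5 := pos 4 5 (by decide +kernel)
    have g1 := ge1 1
    have g2 := ge1 2
    have g3 := ge1 3
    have g4 := ge1 4
    linarith
  · -- `t` is long: the path `9, 10, 11, 12, 13` is too short for the chain `9 < 7 < 14 < 13`
    have e1 := neg 9 10 (by decide +kernel)
    have e2 := neg 10 11 (by decide +kernel)
    have e3 := neg 11 12 (by decide +kernel)
    have e4 := neg 12 13 (by decide +kernel)
    have f1 := pos 9 7 (by decide +kernel)
    have f2 := pos 7 14 (by decide +kernel)
    have f3 := pos 14 13 (by decide +kernel)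
    linarith

/-- The negation of the preceding statement: For every finite order representable by closed real intervals of two positive lengths but not by intervals of one length, the set of r > 1 for which it is representable with lengths 1 and r is an interval. -/
theorem result :
    ¬ (∀ (n : ℕ) (P : Fin n → Fin n → Prop),
      (¬ ∃ a : Fin n → ℝ, ∀ i j, P i j ↔ a i + 1 < a j) →
      (∃ s t : ℝ, 0 < s ∧ 0 < t ∧ ∃ a L : Fin n → ℝ,
          (∀ i, L i = s ∨ L i = t) ∧ ∀ i j, P i j ↔ a i + L i < a j) →
      Set.OrdConnected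
        {r : ℝ | 1 < r ∧ ∃ a L : Fin n → ℝ,
          (∀ i, L i = 1 ∨ L i = r) ∧ ∀ i j, P i j ↔ a i + L i < a j}) := by
  intro H
  have h1 : ¬ ∃ a : Fin 24 → ℝ, ∀ i j, P i j ↔ a i + 1 < a j := by
    rintro ⟨a, h⟩
    have := inside a (fun _ => 1) h 6 0 1 2 (by decide +kernel)
      (by decide +kernel) (by decide +kernel) (by decide +kernel)
    exact lt_irrefl _ this
  have h2 : ∃ s t : ℝ, 0 < s ∧ 0 < t ∧ ∃ a L : Fin 24 → ℝ,
      (∀ i, L i = s ∨ L i = t) ∧ ∀ i j, P i j ↔ a i + L i < a j :=
    ⟨1, 7 / 5, by norm_num, by norm_num, repA⟩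
  have h3 := H 24 P h1 h2
  have h4 := h3.out (x := (7 / 5 : ℝ)) ⟨by norm_num, repA⟩ (y := (31 / 20 : ℝ))
    ⟨by norm_num, repB⟩
  have h5 : (3 / 2 : ℝ) ∈ Set.Icc (7 / 5 : ℝ) (31 / 20) := by
    constructor <;> norm_num
  exact no_three_halves (h4 h5).2

end Pool.Agent.S05720
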