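import Pool.Statements.S05752

set_option autoImplicit false
open Pool Pool.MP_476d97_co

namespace Pool.Agent.S05752

/-- the 28 rows, 28 bits each -/
def ROWS : ℕ := 59718590035943538547624522013844964294623109251405000641969151696042211781742872328781123998526576628753135717150871966635398571199745036758834853178663391839703341607643701906037785020984303321502329745471114705362171325382814104665576

/-- table of the number of ones of the numbers below 128 -/
def TAB : ℕ := 38688605477795291639177638255174619524745213742638081737860757693208305674782301095493395244431646846014899907793992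

def rowN (i : ℕ) : ℕ := (ROWS >>> (28 * i)) % 268435456

def T (x : ℕ) : ℕ := (TAB >>> (3 * x)) % 8

def pc (v : ℕ) : ℕ := T (v % 128) + T ((v >>> 7) % 128) + T ((v >>> 14) % 128) +
  T ((v >>> 21) % 128)

def sg (v m : ℕ) : ℤ := if v.testBit m then -1 else 1

lemma sg_xor (u v m : ℕ) : sg (u ^^^ v) m = sg u m * sg v m := by
  unfold sg
  rw [Nat.testBit_xor]
  cases u.testBit m <;> cases v.testBit m <;> simp

lemma T_spec : ∀ u < 128, ∑ m : Fin 7, sg u m = 7 - 2 * (T u : ℤ) := by
  decide +kernel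

lemma sum_sg (v : ℕ) : ∑ q : Fin 4 × Fin 7, sg v (7 * q.1 + q.2) = 28 - 2 * (pc v : ℤ) := by
  rw [Fintype.sum_prod_type]
  have key : ∀ b : ℕ, ∑ m : Fin 7, sg v (7 * b + m) = 7 - 2 * (T ((v >>> (7 * b)) % 128) : ℤ) := by
    intro b
    rw [← T_spec _ (Nat.mod_lt _ (by norm_num))]
    refine Finset.sum_congr rfl fun m _ => ?_
    unfold sg
    have : ((v >>> (7 * b)) % 128).testBit m = v.testBit (7 * b + m) := by
      rw [show (128 : ℕ) = 2 ^ 7 by norm_num, Nat.testBit_mod_two_pow, Nat.testBit_shiftRight]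
      simp [m.2]
    rw [this]
  rw [Fin.sum_univ_four]
  have k0 := key 0
  have k1 := key 1
  have k2 := key 2
  have k3 := key 3
  simp only [Nat.mul_zero, Nat.mul_one, Nat.shiftRight_zero] at k0 k1 k2 k3
  unfold pc
  push_cast
  show (∑ m : Fin 7, sg v (7 * 0 + m)) + (∑ m : Fin 7, sg v (7 * 1 + m)) +
    (∑ m : Fin 7, sg v (7 * 2 + m)) + (∑ m : Fin 7, sg v (7 * 3 + m)) = _
  simp only [Nat.mul_zero, Nat.mul_one]
  rw [k0, k1, k2, k3]
  ring

def chk (j k l : ℕ) : Bool :=
  let p := pc (rowN 14 ^^^ rowN j ^^^ rowN k ^^^ rowN l)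
  !(Nat.beq p 4 || Nat.beq p 24)

lemma check : ((List.range 28).all fun j => Nat.beq j 7 || Nat.beq j 8 || Nat.beq j 12 ||
    (List.range 28).all fun k => (List.range 28).all fun l => chk j k l) = true := by
  decide +kernel

def va : Fin 7 → ℤ := ![1, -1, -1, 1, -1, 1, 1]
def vb : Fin 7 → ℤ := ![-1, -1, -1, 1, -1, -1, -1]
def vc : Fin 7 → ℤ := ![1, 1, -1, -1, 1, -1, 1]
def vd : Fin 7 → ℤ := ![-1, 1, -1, -1, -1, 1, 1]

def RR : Matrix (Fin 7) (Fin 7) ℤ :=
  Matrix.of (fun i j : Fin 7 => if (i : ℕ) + (j : ℕ) + 1 = 7 then (1 : ℤ) else 0)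

def HH : Matrix (Fin 4 × Fin 7) (Fin 4 × Fin 7) ℤ :=
  Matrix.of (fun p q : Fin 4 × Fin 7 =>
      (![![Matrix.circulant va, Matrix.circulant vb * RR, Matrix.circulant vc * RR, Matrix.circulant vd * RR],
         ![Matrix.circulant vb * RR, -Matrix.circulant va, RR * Matrix.circulant vd, -(RR * Matrix.circulant vc)],
         ![Matrix.circulant vc * RR, -(RR * Matrix.circulant vd), -Matrix.circulant va, RR * Matrix.circulant vb],
         ![Matrix.circulant vd * RR, RR * Matrix.circulant vc, -(RR * Matrix.circulant vb), -Matrix.circulant va]]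
        : Fin 4 → Fin 4 → Matrix (Fin 7) (Fin 7) ℤ) p.1 q.1 p.2 q.2)

def ix (p : Fin 4 × Fin 7) : ℕ := 7 * p.1 + p.2

lemma HH_eq : ∀ p q : Fin 4 × Fin 7, HH p q = sg (rowN (ix p)) (7 * q.1 + q.2) := by
  decide +kernel

lemma gram : Matrix.circulant va * (Matrix.circulant va).transpose
      + Matrix.circulant vb * (Matrix.circulant vb).transpose
      + Matrix.circulant vc * (Matrix.circulant vc).transpose
      + Matrix.circulant vd * (Matrix.circulant vd).transpose
      = ((4 * 7 : ℕ) : ℤ) • (1 : Matrix (Fin 7) (Fin 7) ℤ) := by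
  decide +kernel

/-- the sum of products of four rows -/
def S4 (x y z w : Fin 4 × Fin 7) : ℤ := ∑ q, HH x q * HH y q * HH z q * HH w q

lemma S4_eq (x y z w : Fin 4 × Fin 7) : S4 x y z w =
    28 - 2 * (pc (rowN (ix x) ^^^ rowN (ix y) ^^^ rowN (ix z) ^^^ rowN (ix w)) : ℤ) := by
  rw [← sum_sg]
  unfold S4
  refine Finset.sum_congr rfl fun q _ => ?_
  rw [HH_eq, HH_eq, HH_eq, HH_eq, sg_xor, sg_xor, sg_xor]

lemma ix_lt (p : Fin 4 × Fin 7) : ix p < 28 := by
  unfold ix
  have := p.1.2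
  have := p.2.2
  omega

lemma unique_triple (j k l : Fin 4 × Fin 7) (h : |S4 (2, 0) j k l| = 20) :
    ix j = 7 ∨ ix j = 8 ∨ ix j = 12 := by
  rw [S4_eq] at h
  by_contra hn
  push Not at hn
  obtain ⟨h7, h8, h12⟩ := hn
  have hc := check
  rw [List.all_eq_true] at hc
  have h1 := hc (ix j) (List.mem_range.2 (ix_lt j))
  have e7 : Nat.beq (ix j) 7 = false := by
    rw [← Bool.not_eq_true]; intro h; exact h7 (Nat.eq_of_beq_eq_true h)
  have e8 : Nat.beq (ix j) 8 = false := by
    rw [← Bool.not_eq_true]; intro h; exact h8 (Nat.eq_of_beq_eq_true h)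
  have e12 : Nat.beq (ix j) 12 = false := by
    rw [← Bool.not_eq_true]; intro h; exact h12 (Nat.eq_of_beq_eq_true h)
  rw [e7, e8, e12, Bool.false_or, Bool.false_or, Bool.false_or, List.all_eq_true] at h1
  have h2 := h1 (ix k) (List.mem_range.2 (ix_lt k))
  rw [List.all_eq_true] at h2
  have h3 := h2 (ix l) (List.mem_range.2 (ix_lt l))
  unfold chk at h3
  have e14 : ix (2, 0) = 14 := by decide
  rw [e14] at h
  generalize pc (rowN 14 ^^^ rowN (ix j) ^^^ rowN (ix k) ^^^ rowN (ix l)) = n at h h3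
  have h4 : n = 4 ∨ n = 24 := by
    rcases abs_eq (by norm_num : (0 : ℤ) ≤ 20) |>.1 h with h | h
    · left; omega
    · right; omega
  rcases h4 with rfl | rfl
  · exact absurd h3 (by decide)
  · exact absurd h3 (by decide)

lemma ex1 : |S4 (0, 0) (0, 1) (0, 2) (0, 5)| = 20 := by
  rw [S4_eq]; decide +kernel

lemma ex2 : |S4 (0, 0) (0, 2) (0, 1) (0, 5)| = 20 := by
  rw [S4_eq]; decide +kernel

lemma ex3 : |S4 (0, 0) (0, 5) (0, 1) (0, 2)| = 20 := by
  rw [S4_eq]; decide +kernel

lemma ex4 : |S4 (0, 0) (0, 4) (0, 1) (0, 6)| = 20 := by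
  rw [S4_eq]; decide +kernel

lemma ix_inj (p q : Fin 4 × Fin 7) (h : ix p = ix q) : p = q := by
  unfold ix at h
  have h1 := p.1.2
  have h2 := p.2.2
  have h3 := q.1.2
  have h4 := q.2.2
  ext
  · omega
  · omega

/-- The negation of the preceding statement: For odd w ≥ 7 and ±1 circulants A,B,C,D with AAᵀ+BBᵀ+CCᵀ+DDᵀ=4wI, the displayed Goethals–Seidel Hadamard matrix is, up to row/column permutation and negation, the matrix of a ±1 2-cocycle on some group of order 4w. -/
theorem result :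
    ¬ (∀ (w : ℕ), 7 ≤ w → Odd w →
  ∀ (a b c d : Fin w → ℤ),
    (∀ i, (a i = 1 ∨ a i = -1) ∧ (b i = 1 ∨ b i = -1) ∧
          (c i = 1 ∨ c i = -1) ∧ (d i = 1 ∨ d i = -1)) →
    Matrix.circulant a * (Matrix.circulant a).transpose
      + Matrix.circulant b * (Matrix.circulant b).transpose
      + Matrix.circulant c * (Matrix.circulant c).transpose
      + Matrix.circulant d * (Matrix.circulant d).transpose
      = ((4 * w : ℕ) : ℤ) • (1 : Matrix (Fin w) (Fin w) ℤ) →
  ∀ (R : Matrix (Fin w) (Fin w) ℤ),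
    R = Matrix.of (fun i j : Fin w => if (i : ℕ) + (j : ℕ) + 1 = w then (1 : ℤ) else 0) →
  ∀ (H : Matrix (Fin 4 × Fin w) (Fin 4 × Fin w) ℤ),
    H = Matrix.of (fun p q : Fin 4 × Fin w =>
      (![![Matrix.circulant a, Matrix.circulant b * R, Matrix.circulant c * R, Matrix.circulant d * R],
         ![Matrix.circulant b * R, -Matrix.circulant a, R * Matrix.circulant d, -(R * Matrix.circulant c)],
         ![Matrix.circulant c * R, -(R * Matrix.circulant d), -Matrix.circulant a, R * Matrix.circulant b],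
         ![Matrix.circulant d * R, R * Matrix.circulant c, -(R * Matrix.circulant b), -Matrix.circulant a]]
        : Fin 4 → Fin 4 → Matrix (Fin w) (Fin w) ℤ) p.1 q.1 p.2 q.2) →
  ∃ (G : Type) (_ : Group G) (ψ : G → G → ℤ) (σ τ : (Fin 4 × Fin w) ≃ G)
    (r s : Fin 4 × Fin w → ℤ),
    (∀ g h : G, ψ g h = 1 ∨ ψ g h = -1) ∧
    (∀ g h k : G, ψ g h * ψ (g * h) k = ψ g (h * k) * ψ h k) ∧
    (∀ i, r i = 1 ∨ r i = -1) ∧
    (∀ j, s j = 1 ∨ s j = -1) ∧
    (∀ i j, H i j = r i * s j * ψ (σ i) (τ j))) := by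
  intro hall
  obtain ⟨G, _, ψ, σ, τ, r, s, hψ, hco, hr, hs, hH⟩ := hall 7 le_rfl (by decide) va vb vc vd
    (by decide) gram RR rfl HH rfl
  have hfinG : Fintype G := Fintype.ofEquiv _ σ
  have hψ2 : ∀ g h : G, ψ g h * ψ g h = 1 := by
    intro g h
    rcases hψ g h with e | e <;> rw [e] <;> norm_num
  have hr2 : ∀ i, |r i| = 1 := by
    intro i
    rcases hr i with e | e <;> rw [e] <;> norm_num
  have hψa : ∀ g h, |ψ g h| = 1 := by
    intro g h
    rcases hψ g h with e | e <;> rw [e] <;> norm_num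
  have hs4 : ∀ i, s i * s i * s i * s i = 1 := by
    intro i
    rcases hs i with e | e <;> rw [e] <;> norm_num
  -- the sum of products of four rows of the cocyclic matrix
  let P : G → G → G → G → ℤ := fun x y z w => ∑ k : G, ψ x k * ψ y k * ψ z k * ψ w k
  have hSP : ∀ x y z w, |S4 x y z w| = |P (σ x) (σ y) (σ z) (σ w)| := by
    intro x y z w
    have : S4 x y z w = (r x * r y * r z * r w) * P (σ x) (σ y) (σ z) (σ w) := by
      show ∑ q, _ = _ * ∑ k : G, _
      rw [← Equiv.sum_comp τ, Finset.mul_sum]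
      refine Finset.sum_congr rfl fun q _ => ?_
      rw [hH, hH, hH, hH]
      have := hs4 q
      linear_combination (r x * r y * r z * r w * ψ (σ x) (τ q) * ψ (σ y) (τ q) * ψ (σ z) (τ q) *
        ψ (σ w) (τ q)) * this
    rw [this, abs_mul, abs_mul, abs_mul, abs_mul, hr2, hr2, hr2, hr2]
    ring
  have hrow : ∀ x h k : G, ψ (x * h) k = ψ x h * ψ x (h * k) * ψ h k := by
    intro x h k
    have := hco x h k
    calc ψ (x * h) k = (ψ x h * ψ x h) * ψ (x * h) k := by rw [hψ2]; ring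
      _ = ψ x h * (ψ x h * ψ (x * h) k) := by ring
      _ = ψ x h * (ψ x (h * k) * ψ h k) := by rw [this]
      _ = _ := by ring
  have hinv : ∀ x y z w h, |P (x * h) (y * h) (z * h) (w * h)| = |P x y z w| := by
    intro x y z w h
    have : P (x * h) (y * h) (z * h) (w * h) = (ψ x h * ψ y h * ψ z h * ψ w h) * P x y z w := by
      show ∑ k : G, _ = _ * ∑ k : G, _
      rw [← Equiv.sum_comp (Equiv.mulLeft h) (fun k => ψ x k * ψ y k * ψ z k * ψ w k),
        Finset.mul_sum]
      refine Finset.sum_congr rfl fun k _ => ?_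
      simp only [Equiv.coe_mulLeft]
      rw [hrow x, hrow y, hrow z, hrow w]
      have := hψ2 h k
      have h4 : ψ h k * ψ h k * (ψ h k * ψ h k) = 1 := by rw [this]; norm_num
      linear_combination (ψ x h * ψ x (h * k) * ψ y h * ψ y (h * k) * ψ z h * ψ z (h * k) *
        ψ w h * ψ w (h * k)) * h4
    rw [this, abs_mul, abs_mul, abs_mul, abs_mul, hψa, hψa, hψa, hψa]
    ring
  -- the translation taking row `(0,0)` to row `(2,0)`
  let g : G := (σ (0, 0))⁻¹ * σ (2, 0)
  let π : (Fin 4 × Fin 7) → (Fin 4 × Fin 7) := fun x => σ.symm (σ x * g)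
  have hπ : ∀ x, σ (π x) = σ x * g := fun x => σ.apply_symm_apply _
  have hπ0 : π (0, 0) = (2, 0) := by
    show σ.symm (σ (0, 0) * ((σ (0, 0))⁻¹ * σ (2, 0))) = (2, 0)
    rw [mul_inv_cancel_left, Equiv.symm_apply_apply]
  have hπinj : Function.Injective π := by
    intro x y h
    have := congrArg σ h
    rw [hπ, hπ] at this
    exact σ.injective (mul_right_cancel this)
  have hπS : ∀ x y z w, |S4 (π x) (π y) (π z) (π w)| = |S4 x y z w| := by
    intro x y z w
    rw [hSP, hSP, hπ, hπ, hπ, hπ, hinv]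
  have key : ∀ j k l, |S4 (0, 0) j k l| = 20 →
      ix (π j) = 7 ∨ ix (π j) = 8 ∨ ix (π j) = 12 := by
    intro j k l h
    apply unique_triple (π j) (π k) (π l)
    rw [← hπ0, hπS, h]
  have k1 := key _ _ _ ex1
  have k2 := key _ _ _ ex2
  have k3 := key _ _ _ ex3
  have k4 := key _ _ _ ex4
  have hne : ∀ p q : Fin 4 × Fin 7, p ≠ q → ix (π p) ≠ ix (π q) :=
    fun p q hpq h => hpq (hπinj (ix_inj _ _ h))
  have n12 := hne (0, 1) (0, 2) (by decide)
  have n15 := hne (0, 1) (0, 5) (by decide)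
  have n14 := hne (0, 1) (0, 4) (by decide)
  have n25 := hne (0, 2) (0, 5) (by decide)
  have n24 := hne (0, 2) (0, 4) (by decide)
  have n54 := hne (0, 5) (0, 4) (by decide)
  omega

end Pool.Agent.S05752
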