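import Pool.Statements.S05774

set_option autoImplicit false
open Pool Pool.MP_48c19b_co

namespace Pool.Agent.S05774

def wN (S : Finset (Fin 4)) : ℕ :=
  [15, 9, 8, 4, 14, 7, 6, 3, 15, 6, 5, 2, 4, 1, 1, 0].getD (∑ i ∈ S, 2 ^ i.val) 0

lemma univ16 : (Finset.univ : Finset (Finset (Fin 4))) =
    {∅, {0}, {1}, {0, 1}, {2}, {0, 2}, {1, 2}, {0, 1, 2}, {3}, {0, 3}, {1, 3}, {0, 1, 3}, {2, 3}, {0, 2, 3}, {1, 2, 3}, {0, 1, 2, 3}} := by decide

lemma sum16 (F : Finset (Fin 4) → ℝ) : ∑ S : Finset (Fin 4), F S = F ∅ + F {0} + F {1} + F {0, 1} + F {2} + F {0, 2} + F {1, 2} + F {0, 1, 2} + F {3} + F {0, 3} + F {1, 3} + F {0, 1, 3} + F {2, 3} + F {0, 2, 3} + F {1, 2, 3} + F {0, 1, 2, 3} := by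
  rw [univ16]
  repeat rw [Finset.sum_insert (by decide)]
  rw [Finset.sum_singleton]
  ring

lemma prodmem (S : Finset (Fin 4)) (y : Fin 4 → ℝ) : ∏ i ∈ S, y i =
    (if 0 ∈ S then y 0 else 1) * (if 1 ∈ S then y 1 else 1) * (if 2 ∈ S then y 2 else 1) *
      (if 3 ∈ S then y 3 else 1) := by
  rw [← Fin.prod_univ_four (fun i => if i ∈ S then y i else 1), Finset.prod_ite_mem,
    Finset.univ_inter]

lemma w0 : wN ∅ = 15 := by decide
lemma w1 : wN {0} = 9 := by decide
lemma w2 : wN {1} = 8 := by decide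
lemma w3 : wN {0, 1} = 4 := by decide
lemma w4 : wN {2} = 14 := by decide
lemma w5 : wN {0, 2} = 7 := by decide
lemma w6 : wN {1, 2} = 6 := by decide
lemma w7 : wN {0, 1, 2} = 3 := by decide
lemma w8 : wN {3} = 15 := by decide
lemma w9 : wN {0, 3} = 6 := by decide
lemma w10 : wN {1, 3} = 5 := by decide
lemma w11 : wN {0, 1, 3} = 2 := by decide
lemma w12 : wN {2, 3} = 4 := by decide
lemma w13 : wN {0, 2, 3} = 1 := by decide
lemma w14 : wN {1, 2, 3} = 1 := by decide
lemma w15 : wN {0, 1, 2, 3} = 0 := by decide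
lemma v0 : wN (Finset.image (Equiv.swap (2 : Fin 4) 3) ∅) = 15 := by decide
lemma v1 : wN (Finset.image (Equiv.swap (2 : Fin 4) 3) {0}) = 9 := by decide
lemma v2 : wN (Finset.image (Equiv.swap (2 : Fin 4) 3) {1}) = 8 := by decide
lemma v3 : wN (Finset.image (Equiv.swap (2 : Fin 4) 3) {0, 1}) = 4 := by decide
lemma v4 : wN (Finset.image (Equiv.swap (2 : Fin 4) 3) {2}) = 15 := by decide
lemma v5 : wN (Finset.image (Equiv.swap (2 : Fin 4) 3) {0, 2}) = 6 := by decide
lemma v6 : wN (Finset.image (Equiv.swap (2 : Fin 4) 3) {1, 2}) = 5 := by decide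
lemma v7 : wN (Finset.image (Equiv.swap (2 : Fin 4) 3) {0, 1, 2}) = 2 := by decide
lemma v8 : wN (Finset.image (Equiv.swap (2 : Fin 4) 3) {3}) = 14 := by decide
lemma v9 : wN (Finset.image (Equiv.swap (2 : Fin 4) 3) {0, 3}) = 7 := by decide
lemma v10 : wN (Finset.image (Equiv.swap (2 : Fin 4) 3) {1, 3}) = 6 := by decide
lemma v11 : wN (Finset.image (Equiv.swap (2 : Fin 4) 3) {0, 1, 3}) = 3 := by decide
lemma v12 : wN (Finset.image (Equiv.swap (2 : Fin 4) 3) {2, 3}) = 4 := by decide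
lemma v13 : wN (Finset.image (Equiv.swap (2 : Fin 4) 3) {0, 2, 3}) = 1 := by decide
lemma v14 : wN (Finset.image (Equiv.swap (2 : Fin 4) 3) {1, 2, 3}) = 1 := by decide
lemma v15 : wN (Finset.image (Equiv.swap (2 : Fin 4) 3) {0, 1, 2, 3}) = 0 := by decide

lemma mono : ∀ S T : Finset (Fin 4), T ⊆ S → wN S ≤ wN T := by decide

/-- The negation of the preceding statement: For nonnegative subset weights that decrease under enlarging sets and whose multiaffine polynomial is Rayleigh at all positive points, adding the polynomial with variables g,h swapped keeps it Rayleigh for every pair e,f, with e,f,g,h all distinct. -/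
theorem result :
    ¬ (∀ (m : ℕ) (w : Finset (Fin m) → ℝ),
    (∀ S, 0 ≤ w S) →
    (∀ S T : Finset (Fin m), T ⊆ S → w S ≤ w T) →
    (∀ e f : Fin m, e ≠ f → ∀ y : Fin m → ℝ, (∀ i, 0 < y i) →
      0 ≤ (∑ S ∈ Finset.univ.filter (fun S : Finset (Fin m) => e ∈ S ∧ f ∉ S),
              w S * ∏ i ∈ S.erase e, y i) *
          (∑ S ∈ Finset.univ.filter (fun S : Finset (Fin m) => f ∈ S ∧ e ∉ S),
              w S * ∏ i ∈ S.erase f, y i) -
          (∑ S ∈ Finset.univ.filter (fun S : Finset (Fin m) => e ∈ S ∧ f ∈ S),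
              w S * ∏ i ∈ (S.erase e).erase f, y i) *
          (∑ S ∈ Finset.univ.filter (fun S : Finset (Fin m) => e ∉ S ∧ f ∉ S),
              w S * ∏ i ∈ S, y i)) →
    ∀ e f g h : Fin m, e ≠ f → e ≠ g → e ≠ h → f ≠ g → f ≠ h → g ≠ h →
    ∀ y : Fin m → ℝ, (∀ i, 0 < y i) →
      0 ≤ (∑ S ∈ Finset.univ.filter (fun S : Finset (Fin m) => e ∈ S ∧ f ∉ S),
              (w S + w (S.image (Equiv.swap g h))) * ∏ i ∈ S.erase e, y i) *
          (∑ S ∈ Finset.univ.filter (fun S : Finset (Fin m) => f ∈ S ∧ e ∉ S),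
              (w S + w (S.image (Equiv.swap g h))) * ∏ i ∈ S.erase f, y i) -
          (∑ S ∈ Finset.univ.filter (fun S : Finset (Fin m) => e ∈ S ∧ f ∈ S),
              (w S + w (S.image (Equiv.swap g h))) * ∏ i ∈ (S.erase e).erase f, y i) *
          (∑ S ∈ Finset.univ.filter (fun S : Finset (Fin m) => e ∉ S ∧ f ∉ S),
              (w S + w (S.image (Equiv.swap g h))) * ∏ i ∈ S, y i)) := by
  intro H
  have H1 := H 4 (fun S => (wN S : ℝ)) (fun S => Nat.cast_nonneg _)
    (fun S T h => by exact_mod_cast mono S T h) ?_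
  · have H2 := H1 0 1 2 3 (by decide) (by decide) (by decide) (by decide) (by decide) (by decide)
      ![1, 1, 1 / 100, 100] (by intro i; fin_cases i <;> simp)
    simp only [Finset.sum_filter, sum16, prodmem, v0, v1, v2, v3, v4, v5, v6, v7, v8, v9, v10, v11, v12, v13, v14, v15] at H2
    simp only [w0, w1, w2, w3, w4, w5, w6, w7, w8, w9, w10, w11, w12, w13, w14, w15] at H2
    simp at H2
    norm_num at H2
  · intro e f hef y hy
    have h0 := hy 0
    have h1 := hy 1
    have h2 := hy 2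
    have h3 := hy 3
    simp only [Finset.sum_filter, sum16, prodmem, w0, w1, w2, w3, w4, w5, w6, w7, w8, w9, w10, w11, w12, w13, w14, w15]
    generalize y 0 = a at *
    generalize y 1 = b at *
    generalize y 2 = s at *
    generalize y 3 = t at *
    fin_cases e <;> fin_cases f <;> simp at hef ⊢
    · have k1 : 0 ≤ 9 - t + 3 * t ^ 2 := by nlinarith [sq_nonneg (t - 1)]
      have k2 : 0 ≤ s * (9 - t + 3 * t ^ 2) := mul_nonneg h2.le k1
      have k3 : 0 ≤ s ^ 2 * (t + t ^ 2) := by positivity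
      nlinarith [k2, k3]
    · rw [← sub_nonneg]; ring_nf; positivity
    · rw [← sub_nonneg]; ring_nf; positivity
    · have k1 : 0 ≤ 9 - t + 3 * t ^ 2 := by nlinarith [sq_nonneg (t - 1)]
      have k2 : 0 ≤ s * (9 - t + 3 * t ^ 2) := mul_nonneg h2.le k1
      have k3 : 0 ≤ s ^ 2 * (t + t ^ 2) := by positivity
      nlinarith [k2, k3]
    · have k1 : 0 ≤ a * (13 - 3 * t + 7 * t ^ 2) :=
        mul_nonneg h0.le (by nlinarith [sq_nonneg (t - 1)])
      have k3 : 0 ≤ a ^ 2 * (1 + 2 * t ^ 2) := by positivity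
      nlinarith [k1, k3, sq_nonneg (t - 1)]
    · rw [← sub_nonneg]; ring_nf; positivity
    · rw [← sub_nonneg]; ring_nf; positivity
    · have k1 : 0 ≤ a * (13 - 3 * t + 7 * t ^ 2) :=
        mul_nonneg h0.le (by nlinarith [sq_nonneg (t - 1)])
      have k3 : 0 ≤ a ^ 2 * (1 + 2 * t ^ 2) := by positivity
      nlinarith [k1, k3, sq_nonneg (t - 1)]
    · rw [← sub_nonneg]; ring_nf; positivity
    · rw [← sub_nonneg]; ring_nf; positivity
    · rw [← sub_nonneg]; ring_nf; positivity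
    · rw [← sub_nonneg]; ring_nf; positivity

end Pool.Agent.S05774
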