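import Pool.Statements.S05803
-- import your own Pool.Agent.* helpers here

set_option autoImplicit false
open Pool Pool.MP_4adf9f_co

namespace Pool.Agent.S05803

/-! The Hughes plane of order 9 with the group `Z_13 × S_3`, given by a
relative difference set. Points: the group `G` (78 points) together with `Z_13` (13 Baer points);
lines likewise. -/

abbrev Z := Multiplicative (ZMod 13)
abbrev G := Z × DihedralGroup 3
abbrev X := G ⊕ Z

def inD (g : G) : Bool :=
  match g.2 with
  | .r i => Nat.testBit 17741906952 (3 * (Multiplicative.toAdd g.1).val + i.val)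
  | .sr i => Nat.testBit 294976 (3 * (Multiplicative.toAdd g.1).val + i.val)

def inC (z : Z) : Bool := Nat.testBit (1 + 2 + 8 + 512) (Multiplicative.toAdd z).val

def inc (l p : X) : Bool :=
  match l, p with
  | .inl h, .inl g => inD (h⁻¹ * g)
  | .inl h, .inr z => decide (h.1⁻¹ * z = 1)
  | .inr w, .inl g => decide (w⁻¹ * g.1 = 1)
  | .inr w, .inr z => inC (w⁻¹ * z)

def act (γ : G) : Equiv.Perm X := Equiv.sumCongr (Equiv.mulLeft γ) (Equiv.mulLeft γ.1)

@[simp] theorem act_inl (γ g : G) : act γ (.inl g) = .inl (γ * g) := rfl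
@[simp] theorem act_inr (γ : G) (z : Z) : act γ (.inr z) = .inr (γ.1 * z) := rfl

def φ : G →* (Equiv.Perm X × Equiv.Perm X) where
  toFun γ := (act γ, act γ)
  map_one' := by
    ext x <;> rcases x with x | x <;> simp
  map_mul' a b := by
    ext x <;> rcases x with x | x <;> simp [mul_assoc]

theorem inc_act (γ : G) (l p : X) : inc (act γ l) (act γ p) = inc l p := by
  rcases l with l | l <;> rcases p with p | p <;> simp [inc, mul_assoc]

/-- base points -/
def base (b : Bool) : X := if b then .inl 1 else .inr 1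

theorem exists_base (x : X) : ∃ γ : G, ∃ b, x = act γ (base b) := by
  rcases x with x | x
  · exact ⟨x, true, by simp [base]⟩
  · exact ⟨(x, 1), false, by simp [base]⟩

theorem line_ax0 : ∀ b : Bool, ∀ q : X, base b ≠ q → ∃ l : X, inc l (base b) = true ∧ inc l q = true := by
  decide +kernel

theorem point_ax0 : ∀ b : Bool, ∀ q : X, base b ≠ q → ∃ l : X, inc (base b) l = true ∧ inc q l = true := by
  decide +kernel

def chk1 (b : Bool) (l m : X) : Bool :=
  decide (∀ q : X, (inc l q && inc m q) = true → base b = q)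

def chk2 (b : Bool) (l : X) : Bool :=
  decide (∀ m : X, (inc m (base b) && decide (l ≠ m)) = true → chk1 b l m = true)

theorem uniq0' : ∀ b : Bool, ∀ l : X, inc l (base b) = true → chk2 b l = true := by
  decide +kernel

theorem uniq0 (b : Bool) (l m q : X) (h1 : inc l (base b) = true) (h2 : inc m (base b) = true)
    (h3 : inc l q = true) (h4 : inc m q = true) : base b = q ∨ l = m := by
  by_cases hlm : l = m
  · exact Or.inr hlm
  · left
    have h := uniq0' b l h1
    simp only [chk2, chk1, decide_eq_true_eq] at h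
    exact h m (by simp [h2, hlm]) q (by simp [h3, h4])

theorem line_ax (p q : X) (h : p ≠ q) : ∃ l : X, inc l p = true ∧ inc l q = true := by
  obtain ⟨γ, b, rfl⟩ := exists_base p
  obtain ⟨l, h1, h2⟩ := line_ax0 b ((act γ).symm q) (by
    intro h'
    apply h
    rw [h', Equiv.apply_symm_apply])
  refine ⟨act γ l, by rw [inc_act]; exact h1, ?_⟩
  rw [← inc_act γ, Equiv.apply_symm_apply] at h2
  exact h2

theorem point_ax (p q : X) (h : p ≠ q) : ∃ l : X, inc p l = true ∧ inc q l = true := by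
  obtain ⟨γ, b, rfl⟩ := exists_base p
  obtain ⟨l, h1, h2⟩ := point_ax0 b ((act γ).symm q) (by
    intro h'
    apply h
    rw [h', Equiv.apply_symm_apply])
  refine ⟨act γ l, by rw [inc_act]; exact h1, ?_⟩
  rw [← inc_act γ, Equiv.apply_symm_apply] at h2
  exact h2

theorem uniq (p q l m : X) (h1 : inc l p = true) (h2 : inc m p = true)
    (h3 : inc l q = true) (h4 : inc m q = true) : p = q ∨ l = m := by
  obtain ⟨γ, b, rfl⟩ := exists_base p
  have e : ∀ x, act γ ((act γ).symm x) = x := fun x => Equiv.apply_symm_apply _ _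
  have := uniq0 b ((act γ).symm l) ((act γ).symm m) ((act γ).symm q)
    (by rw [← inc_act γ, e]; exact h1) (by rw [← inc_act γ, e]; exact h2)
    (by rw [← inc_act γ, e, e]; exact h3) (by rw [← inc_act γ, e, e]; exact h4)
  rcases this with h | h
  · left; rw [h, e]
  · right; exact (act γ).symm.injective h

theorem ex_point (l : X) : ∃ p, ¬ inc l p = true := by
  obtain ⟨γ, b, rfl⟩ := exists_base l
  have : ∀ b, ∃ p, ¬ inc (base b) p = true := by decide +kernel
  obtain ⟨p, hp⟩ := this b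
  exact ⟨act γ p, by rw [inc_act]; exact hp⟩

theorem ex_line (l : X) : ∃ p, ¬ inc p l = true := by
  obtain ⟨γ, b, rfl⟩ := exists_base l
  have : ∀ b, ∃ p, ¬ inc p (base b) = true := by decide +kernel
  obtain ⟨p, hp⟩ := this b
  exact ⟨act γ p, by rw [inc_act]; exact hp⟩

def bp (n : ℕ) : X := .inr (Multiplicative.ofAdd (n : ZMod 13))

@[reducible] def memX : Membership X X := ⟨fun l p => inc l p = true⟩

attribute [local instance] memX

theorem mem_iff (l p : X) : p ∈ l ↔ inc l p = true := Iff.rfl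

theorem config_ax : ∃ (p₁ p₂ p₃ : X) (l₁ l₂ l₃ : X),
      p₁ ∉ l₂ ∧ p₁ ∉ l₃ ∧ p₂ ∉ l₁ ∧ p₂ ∈ l₂ ∧ p₂ ∈ l₃ ∧ p₃ ∉ l₁ ∧ p₃ ∈ l₂ ∧ p₃ ∉ l₃ := by
  refine ⟨bp 4, bp 0, bp 1, bp 2, bp 0, bp 12, ?_⟩
  simp only [mem_iff]
  decide +kernel

@[reducible] noncomputable def plane : Configuration.ProjectivePlane X X where
  exists_point := ex_point
  exists_line := ex_line
  eq_or_eq := fun {p q l m} h1 h2 h3 h4 => uniq p q l m h1 h3 h2 h4
  mkPoint := fun {l m} h => (point_ax l m h).choose
  mkPoint_ax := fun {l m} h => (point_ax l m h).choose_spec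
  mkLine := fun {l m} h => (line_ax l m h).choose
  mkLine_ax := fun {l m} h => (line_ax l m h).choose_spec
  exists_config := config_ax

theorem order_eq : @Configuration.ProjectivePlane.order X X memX plane = 9 := by
  let _ := plane
  have h := Configuration.ProjectivePlane.card_points X X
  have hc : Fintype.card X = 91 := by decide +kernel
  rw [hc] at h
  have h9 : Configuration.ProjectivePlane.order X X ≤ 9 := by
    by_contra hn
    push Not at hn
    nlinarith
  generalize Configuration.ProjectivePlane.order X X = k at *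
  interval_cases k <;> omega

theorem φ_inj : Function.Injective φ := by
  intro a b h
  have h1 := congrArg (fun x => x.1 (.inl 1)) h
  simpa [φ] using h1

theorem card_range : Nat.card φ.range = 78 := by
  rw [← Nat.card_congr (MonoidHom.ofInjective φ_inj).toEquiv, Nat.card_eq_fintype_card]
  decide +kernel

/-- There is a finite projective plane of square order n=k², n≠4, with a quasiregular collineation group of order n²−√n (>(n²+n+1)/2) having exactly two point orbits, two line orbits, and no fixed points or lines. -/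
theorem result :
    ∃ (P L : Type) (_ : Finite P) (_ : Finite L) (_ : Membership P L)
      (_ : Configuration.ProjectivePlane P L)
      (Γ : Subgroup (Equiv.Perm P × Equiv.Perm L)) (k : ℕ),
      Configuration.ProjectivePlane.order P L = k ^ 2 ∧
      k ^ 2 ≠ 4 ∧
      (∀ g ∈ Γ, ∀ p : P, ∀ l : L, p ∈ l ↔ g.1 p ∈ g.2 l) ∧
      (∀ g ∈ Γ, ∀ p : P, g.1 p = p → ∀ h ∈ Γ, g.1 (h.1 p) = h.1 p) ∧
      (∀ g ∈ Γ, ∀ l : L, g.2 l = l → ∀ h ∈ Γ, g.2 (h.2 l) = h.2 l) ∧
      Nat.card Γ = k ^ 4 - k ∧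
      2 * Nat.card Γ > k ^ 4 + k ^ 2 + 1 ∧
      (∃ p q : P, (¬ ∃ g ∈ Γ, g.1 p = q) ∧
        ∀ r : P, (∃ g ∈ Γ, g.1 p = r) ∨ (∃ g ∈ Γ, g.1 q = r)) ∧
      (∃ l m : L, (¬ ∃ g ∈ Γ, g.2 l = m) ∧
        ∀ r : L, (∃ g ∈ Γ, g.2 l = r) ∨ (∃ g ∈ Γ, g.2 m = r)) ∧
      (∀ p : P, ∃ g ∈ Γ, g.1 p ≠ p) ∧
      (∀ l : L, ∃ g ∈ Γ, g.2 l ≠ l) := by
  have quasi : ∀ g ∈ φ.range, ∀ p : X, g.1 p = p → ∀ h ∈ φ.range, g.1 (h.1 p) = h.1 p := by
    rintro _ ⟨γ, rfl⟩ p hp _ ⟨δ, rfl⟩
    rcases p with p | p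
    · have : γ * p = p := by simpa [φ] using hp
      have h1 : γ = 1 := by simpa using this
      simp [φ, h1]
    · have : γ.1 * p = p := by simpa [φ] using hp
      have h1 : γ.1 = 1 := by simpa using this
      simp [φ, h1]
  have orb : ∃ p q : X, (¬ ∃ g ∈ φ.range, g.1 p = q) ∧
        ∀ r : X, (∃ g ∈ φ.range, g.1 p = r) ∨ (∃ g ∈ φ.range, g.1 q = r) := by
    refine ⟨.inl 1, .inr 1, ?_, ?_⟩
    · rintro ⟨_, ⟨γ, rfl⟩, h⟩
      simp [φ] at h
    · rintro (r | r)
      · left
        exact ⟨φ r, ⟨r, rfl⟩, by simp [φ]⟩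
      · right
        exact ⟨φ (r, 1), ⟨(r, 1), rfl⟩, by simp [φ]⟩
  have fixf : ∀ p : X, ∃ g ∈ φ.range, g.1 p ≠ p := by
    intro p
    have hne : (Multiplicative.ofAdd (1 : ZMod 13)) ≠ 1 := by decide +kernel
    refine ⟨φ (Multiplicative.ofAdd (1 : ZMod 13), 1), ⟨_, rfl⟩, ?_⟩
    rcases p with p | p
    · intro h
      have : ((Multiplicative.ofAdd (1 : ZMod 13), 1) : G) * p = p := by simpa [φ] using h
      have h1 : ((Multiplicative.ofAdd (1 : ZMod 13), 1) : G) = 1 := by simpa using this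
      exact hne (congrArg Prod.fst h1)
    · intro h
      have : (Multiplicative.ofAdd (1 : ZMod 13)) * p = p := by simpa [φ] using h
      exact hne (by simpa using this)
  have eq12 : ∀ g ∈ φ.range, g.2 = g.1 := by
    rintro _ ⟨γ, rfl⟩
    rfl
  refine ⟨X, X, inferInstance, inferInstance, memX, plane, φ.range, 3, ?_, by norm_num, ?_, quasi,
    ?_, ?_, ?_, orb, ?_, fixf, ?_⟩
  · rw [order_eq]; norm_num
  · rintro _ ⟨γ, rfl⟩ p l
    show inc l p = true ↔ inc (act γ l) (act γ p) = true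
    rw [inc_act]
  · intro g hg l hl h hh
    rw [eq12 g hg] at hl ⊢
    rw [eq12 h hh]
    exact quasi g hg l hl h hh
  · rw [card_range]; norm_num
  · rw [card_range]; norm_num
  · obtain ⟨p, q, h1, h2⟩ := orb
    refine ⟨p, q, ?_, ?_⟩
    · rintro ⟨g, hg, h⟩
      exact h1 ⟨g, hg, by rw [← eq12 g hg]; exact h⟩
    · intro r
      rcases h2 r with ⟨g, hg, h⟩ | ⟨g, hg, h⟩
      · exact Or.inl ⟨g, hg, by rw [eq12 g hg]; exact h⟩
      · exact Or.inr ⟨g, hg, by rw [eq12 g hg]; exact h⟩
  · intro p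
    obtain ⟨g, hg, h⟩ := fixf p
    exact ⟨g, hg, by rw [eq12 g hg]; exact h⟩

end Pool.Agent.S05803
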