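import Pool.Statements.S05820

set_option autoImplicit false
open Pool Pool.MP_4bab84_co

namespace Pool.Agent.S05820

lemma conn_prop {V : Type*} {G : SimpleGraph V} {S : Set V} (h : (G.induce S).Connected)
    (p : V → Prop) (hp : ∀ u ∈ S, ∀ v ∈ S, G.Adj u v → p u → p v)
    {u : V} (hu : u ∈ S) (hpu : p u) {v : V} (hv : v ∈ S) : p v := by
  obtain ⟨w⟩ := h.preconnected ⟨u, hu⟩ ⟨v, hv⟩
  have key : ∀ (a b : S) (w : (G.induce S).Walk a b), p a → p b := by
    intro a b w
    induction w with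
    | nil => exact id
    | cons hadj _ ih =>
      intro ha
      exact ih (hp _ (Subtype.coe_prop _) _ (Subtype.coe_prop _) (by simpa using hadj) ha)
  exact key _ _ w hpu

/-- the code condition -/
def Good {n : ℕ} (G : SimpleGraph (Fin n)) (c : Fin n → ℕ) : Prop :=
  Function.Injective c ∧ ∀ i j k, G.Adj i j → 2 ≤ c i → c i < c k → c k < c j → False

def PP (n : ℕ) (G : SimpleGraph (Fin n)) : Prop := ∃ c : Fin n → ℕ, Good G c

lemma good_minor {n m : ℕ} {G : SimpleGraph (Fin n)} {H : SimpleGraph (Fin m)}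
    {c : Fin n → ℕ} (hc : Good G c) (B : Fin m → Set (Fin n))
    (h1 : ∀ i, (G.induce (B i)).Connected)
    (h2 : ∀ i j, i ≠ j → Disjoint (B i) (B j))
    (h3 : ∀ i j, i ≠ j → (H.Adj i j ↔ ∃ u ∈ B i, ∃ v ∈ B j, G.Adj u v)) :
    ∃ c' : Fin m → ℕ, Good H c' ∧ ∀ i, ∃ v ∈ B i, c v = c' i := by
  have hne : ∀ i, (B i).Nonempty := by
    intro i
    obtain ⟨v⟩ := (h1 i).nonempty
    exact ⟨v.1, v.2⟩
  set c' : Fin m → ℕ := fun i => sInf (c '' (B i)) with hc'
  have hmem : ∀ i, ∃ v ∈ B i, c v = c' i := by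
    intro i
    have := Nat.sInf_mem (Set.Nonempty.image c (hne i))
    obtain ⟨v, hv, hv'⟩ := this
    exact ⟨v, hv, hv'⟩
  have hle : ∀ i, ∀ v ∈ B i, c' i ≤ c v := by
    intro i v hv
    exact Nat.sInf_le ⟨v, hv, rfl⟩
  refine ⟨c', ⟨?_, ?_⟩, hmem⟩
  · intro i j hij
    by_contra hne'
    obtain ⟨u, hu, hu'⟩ := hmem i
    obtain ⟨v, hv, hv'⟩ := hmem j
    have huv : u = v := hc.1 (by rw [hu', hv', hij])
    subst huv
    exact Set.disjoint_left.1 (h2 i j hne') hu hv
  · intro i j k hadj hi hik hkj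
    have hij : i ≠ j := by
      intro h; subst h; exact hadj.ne rfl
    have hik' : i ≠ k := by
      intro h; subst h; omega
    obtain ⟨y, hy, hy'⟩ := hmem k
    have hyB : y ∉ B i := fun h => Set.disjoint_left.1 (h2 i k hik') h hy
    obtain ⟨x, hx, hx'⟩ := hmem i
    have hall : ∀ w ∈ B i, c w < c' k := by
      intro w hw
      refine conn_prop (h1 i) (fun w => c w < c' k) ?_ hx (by show c x < c' k; omega) hw
      intro u hu v hv huv hlt
      by_contra hge
      have hne2 : c v ≠ c' k := by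
        intro h
        have : v = y := hc.1 (by rw [h, hy'])
        subst this
        exact hyB hv
      have h5 : c' k < c v := by
        have : ¬ (c v < c' k) := hge
        omega
      have h6 := hle i u hu
      exact hc.2 u v y huv (by omega) (by rw [hy']; exact hlt) (by rw [hy']; exact h5)
    obtain ⟨u, hu, v, hv, huv⟩ := (h3 i j hij).1 hadj
    have h7 := hall u hu
    have h8 := hle j v hv
    have h9 := hle i u hu
    exact hc.2 u v y huv (by omega) (by omega) (by omega)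

lemma deg5 {n : ℕ} {G : SimpleGraph (Fin n)} {c : Fin n → ℕ} (hc : Good G c)
    (h : Fin n) (a : Fin 5 → Fin n) (ha : Function.Injective a)
    (hadj : ∀ i, G.Adj h (a i)) : c h < 2 := by
  by_contra hh
  have hh : 2 ≤ c h := by omega
  let g : ℕ → ℕ := fun x => if x = 0 then 0 else if x = 1 then 1 else if x < c h then 2 else 3
  have hg : ∀ x, g x < 4 := by
    intro x
    simp only [g]
    split_ifs <;> omega
  let f : Fin 5 → Fin 4 := fun i => ⟨g (c (a i)), hg _⟩
  obtain ⟨i, j, hij, hf⟩ := Fintype.exists_ne_map_eq_of_card_lt f (by simp)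
  have hne : c (a i) ≠ c (a j) := fun h => hij (ha (hc.1 h))
  have hi : c (a i) ≠ c h := fun h' => (hadj i).ne (hc.1 h').symm
  have hj : c (a j) ≠ c h := fun h' => (hadj j).ne (hc.1 h').symm
  have e1 : ¬ (2 ≤ c (a i) ∧ c (a i) < c (a j) ∧ c (a j) < c h) :=
    fun ⟨x, y, z⟩ => hc.2 (a i) h (a j) (hadj i).symm x y z
  have e2 : ¬ (2 ≤ c (a j) ∧ c (a j) < c (a i) ∧ c (a i) < c h) :=
    fun ⟨x, y, z⟩ => hc.2 (a j) h (a i) (hadj j).symm x y z
  have e3 : ¬ (c h < c (a j) ∧ c (a j) < c (a i)) :=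
    fun ⟨y, z⟩ => hc.2 h (a i) (a j) (hadj i) hh y z
  have e4 : ¬ (c h < c (a i) ∧ c (a i) < c (a j)) :=
    fun ⟨y, z⟩ => hc.2 h (a j) (a i) (hadj j) hh y z
  have hf' : g (c (a i)) = g (c (a j)) := congrArg Fin.val hf
  simp only [g] at hf'
  split_ifs at hf' <;> omega

lemma wheel_bound (k : ℕ) (hk : 5 ≤ k)
    (hP : PP (2 * k + 2) (SimpleGraph.fromRel (fun a b : Fin (2 * k + 2) =>
          (a.val < 2 * k ∧ b.val < 2 * k ∧ b.val = (a.val + 1) % (2 * k)) ∨
          (a.val = 2 * k ∧ b.val < 2 * k ∧ b.val % 2 = 0) ∨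
          (a.val = 2 * k + 1 ∧ b.val < 2 * k ∧ b.val % 2 = 1)))) : False := by
  obtain ⟨c, hc⟩ := hP
  have hA : c ⟨2 * k, by omega⟩ < 2 := by
    refine deg5 hc _ (fun i => ⟨2 * i.1, by have := i.2; omega⟩) ?_ ?_
    · intro i j hij
      simp only [Fin.mk.injEq] at hij
      ext; omega
    · intro i
      have := i.2
      rw [SimpleGraph.fromRel_adj]
      refine ⟨?_, Or.inl (Or.inr (Or.inl ⟨rfl, ?_, ?_⟩))⟩
      · intro h
        simp only [Fin.mk.injEq] at h
        omega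
      · show 2 * i.1 < 2 * k
        omega
      · show (2 * i.1) % 2 = 0
        omega
  have hB : c ⟨2 * k + 1, by omega⟩ < 2 := by
    refine deg5 hc _ (fun i => ⟨2 * i.1 + 1, by have := i.2; omega⟩) ?_ ?_
    · intro i j hij
      simp only [Fin.mk.injEq] at hij
      ext; omega
    · intro i
      have := i.2
      rw [SimpleGraph.fromRel_adj]
      refine ⟨?_, Or.inl (Or.inr (Or.inr ⟨rfl, ?_, ?_⟩))⟩
      · intro h
        simp only [Fin.mk.injEq] at h
        omega
      · show 2 * i.1 + 1 < 2 * k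
        omega
      · show (2 * i.1 + 1) % 2 = 1
        omega
  have hAB : c ⟨2 * k, by omega⟩ ≠ c ⟨2 * k + 1, by omega⟩ := by
    intro h
    have := hc.1 h
    simp only [Fin.mk.injEq] at this
    omega
  have hge : ∀ v : Fin (2 * k + 2), v.val < 2 * k → 2 ≤ c v := by
    intro v hv
    have h1 : c v ≠ c ⟨2 * k, by omega⟩ := by
      intro h
      have := congrArg Fin.val (hc.1 h)
      simp only at this
      omega
    have h2 : c v ≠ c ⟨2 * k + 1, by omega⟩ := by
      intro h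
      have := congrArg Fin.val (hc.1 h)
      simp only at this
      omega
    omega
  obtain ⟨v, hv, hmax⟩ := Finset.exists_max_image
    (Finset.univ.filter (fun v : Fin (2 * k + 2) => v.val < 2 * k)) c
    ⟨⟨0, by omega⟩, by simp; omega⟩
  simp only [Finset.mem_filter, Finset.mem_univ, true_and] at hv hmax
  set u : Fin (2 * k + 2) := ⟨(v.val + 1) % (2 * k), by
    have := Nat.mod_lt (v.val + 1) (show 2 * k > 0 by omega); omega⟩ with hu
  set w : Fin (2 * k + 2) := ⟨(v.val + (2 * k - 1)) % (2 * k), by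
    have := Nat.mod_lt (v.val + (2 * k - 1)) (show 2 * k > 0 by omega); omega⟩ with hw
  have huv : u.val = if v.val + 1 = 2 * k then 0 else v.val + 1 := by
    show (v.val + 1) % (2 * k) = _
    split_ifs with h
    · rw [h]; exact Nat.mod_self _
    · exact Nat.mod_eq_of_lt (by omega)
  have hwv : w.val = if v.val = 0 then 2 * k - 1 else v.val - 1 := by
    show (v.val + (2 * k - 1)) % (2 * k) = _
    split_ifs with h
    · rw [h, Nat.zero_add]; exact Nat.mod_eq_of_lt (by omega)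
    · rw [show v.val + (2 * k - 1) = (v.val - 1) + 2 * k by omega, Nat.add_mod_right]
      exact Nat.mod_eq_of_lt (by omega)
  have hul : u.val < 2 * k := by rw [huv]; split_ifs <;> omega
  have hwl : w.val < 2 * k := by rw [hwv]; split_ifs <;> omega
  have hvu : v ≠ u := by
    intro h
    have := congrArg Fin.val h
    rw [huv] at this
    split_ifs at this <;> omega
  have hvw : v ≠ w := by
    intro h
    have := congrArg Fin.val h
    rw [hwv] at this
    split_ifs at this <;> omega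
  have huw : u ≠ w := by
    intro h
    have := congrArg Fin.val h
    rw [hwv, huv] at this
    split_ifs at this <;> omega
  have hadj1 : (SimpleGraph.fromRel (fun a b : Fin (2 * k + 2) =>
          (a.val < 2 * k ∧ b.val < 2 * k ∧ b.val = (a.val + 1) % (2 * k)) ∨
          (a.val = 2 * k ∧ b.val < 2 * k ∧ b.val % 2 = 0) ∨
          (a.val = 2 * k + 1 ∧ b.val < 2 * k ∧ b.val % 2 = 1))).Adj u v := by
    rw [SimpleGraph.fromRel_adj]
    exact ⟨hvu.symm, Or.inr (Or.inl ⟨hv, hul, rfl⟩)⟩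
  have hadj2 : (SimpleGraph.fromRel (fun a b : Fin (2 * k + 2) =>
          (a.val < 2 * k ∧ b.val < 2 * k ∧ b.val = (a.val + 1) % (2 * k)) ∨
          (a.val = 2 * k ∧ b.val < 2 * k ∧ b.val % 2 = 0) ∨
          (a.val = 2 * k + 1 ∧ b.val < 2 * k ∧ b.val % 2 = 1))).Adj w v := by
    rw [SimpleGraph.fromRel_adj]
    refine ⟨hvw.symm, Or.inl (Or.inl ⟨hwl, hv, ?_⟩)⟩
    rw [hwv]
    split_ifs with h
    · rw [h, show 2 * k - 1 + 1 = 2 * k by omega, Nat.mod_self]
    · rw [show v.val - 1 + 1 = v.val by omega]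
      exact (Nat.mod_eq_of_lt hv).symm
  have m1 := hmax u hul
  have m2 := hmax w hwl
  have n1 : c u ≠ c v := fun h => hvu (hc.1 h).symm
  have n2 : c w ≠ c v := fun h => hvw (hc.1 h).symm
  have n3 : c u ≠ c w := fun h => huw (hc.1 h)
  rcases Nat.lt_or_ge (c u) (c w) with h | h
  · exact hc.2 u v w hadj1 (hge u hul) h (by omega)
  · exact hc.2 w v u hadj2 (hge w hwl) (by omega) (by omega)

/-- the bad sequence -/
def bad (m : ℕ) : SimpleGraph (Fin (m + 4)) :=
  SimpleGraph.fromRel (fun x y : Fin (m + 4) =>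
    (2 ≤ x.val ∧ y.val = x.val + 1) ∨
    (x.val = 0 ∧ 3 ≤ y.val ∧ y.val ≤ m + 2 ∧ y.val % 2 = 1) ∨
    (x.val = 1 ∧ 3 ≤ y.val ∧ y.val ≤ m + 2 ∧ y.val % 2 = 0))

lemma bad_good (m : ℕ) : Good (bad m) (fun v => v.val) := by
  refine ⟨Fin.val_injective, ?_⟩
  intro i j k hadj hi hik hkj
  unfold bad at hadj
  rw [SimpleGraph.fromRel_adj] at hadj
  simp only at hi hik hkj
  omega

/-- the interval lemma -/
lemma layout (k m : ℕ) (I : ℕ → Set ℕ)
    (hsub : ∀ j, 2 ≤ j → j ≤ k + 3 → ∀ x ∈ I j, 2 ≤ x ∧ x ≤ m + 3)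
    (hdis : ∀ i j x, 2 ≤ i → i ≤ k + 3 → 2 ≤ j → j ≤ k + 3 → x ∈ I i → x ∈ I j → i = j)
    (hcon : ∀ j, 2 ≤ j → j ≤ k + 3 → ∀ x ∈ I j, ∀ y ∈ I j, x ≠ y → ∃ z ∈ I j, z = x + 1 ∨ x = z + 1)
    (hstep : ∀ j, 2 ≤ j → j ≤ k + 2 → ∃ u ∈ I j, ∃ v ∈ I (j + 1), v = u + 1 ∨ u = v + 1)
    (hend1 : ∀ x ∈ I 2, x = 2 ∨ x = m + 3)
    (hend2 : ∀ x ∈ I (k + 3), x = 2 ∨ x = m + 3)
    (hmid : ∀ j, 2 ≤ j → j ≤ k + 3 → ∀ x, 3 ≤ x → x + 1 ≤ m + 2 → x ∈ I j → x + 1 ∈ I j → False)
    (hne : (I (k + 3)).Nonempty) (h2 : 2 ∈ I 2) (hkm : k < m) : False := by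
  have hlast : m + 3 ∈ I (k + 3) := by
    obtain ⟨x, hx⟩ := hne
    rcases hend2 x hx with h | h
    · subst h
      have := hdis 2 (k + 3) 2 (by omega) (by omega) (by omega) (by omega) h2 hx
      omega
    · subst h; exact hx
  have key : ∀ j, 2 ≤ j → j ≤ k + 3 → ∀ i, 2 ≤ i → i ≤ j → i ∈ I i := by
    intro j hj
    induction j, hj using Nat.le_induction with
    | base =>
      intro _ i hi hi'
      have : i = 2 := by omega
      subst this
      exact h2
    | succ j hj ih =>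
      intro hj3 i hi hij
      rcases Nat.lt_or_ge i (j + 1) with h | h
      · exact ih (by omega) i hi (by omega)
      · have hij' : i = j + 1 := by omega
        subst hij'
        have hjj : j ∈ I j := ih (by omega) j hj le_rfl
        -- I j = {j}
        have hsing : ∀ y ∈ I j, y = j := by
          intro y hy
          by_contra hyj
          by_cases hj2 : j = 2
          · subst hj2
            rcases hend1 y hy with h | h
            · exact hyj h
            · subst h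
              have := hdis 2 (k + 3) (m + 3) (by omega) (by omega) (by omega) (by omega) hy hlast
              omega
          · obtain ⟨z, hz, hz'⟩ := hcon j hj (by omega) j hjj y hy (fun h => hyj h.symm)
            have hz2 := hsub j hj (by omega) z hz
            have hz3 : z ≠ 2 := by
              intro h; subst h
              have := hdis 2 j 2 (by omega) (by omega) (by omega) (by omega) h2 hz
              omega
            have hz4 : z ≠ m + 3 := by
              intro h; subst h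
              have := hdis j (k + 3) (m + 3) (by omega) (by omega) (by omega) (by omega) hz hlast
              omega
            have hj4 : j ≠ m + 3 := by
              intro h
              rw [h] at hjj
              have := hdis (m + 3) (k + 3) (m + 3) (by omega) (by omega) (by omega) (by omega) hjj hlast
              omega
            have hj5 := hsub j hj (by omega) j hjj
            rcases hz' with h | h
            · subst h
              exact hmid j hj (by omega) j (by omega) (by omega) hjj hz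
            · subst h
              exact hmid (z + 1) (by omega) (by omega) z (by omega) (by omega) hz hjj
        obtain ⟨u, hu, v, hv, huv⟩ := hstep j hj (by omega)
        have hu' := hsing u hu
        subst hu'
        rcases huv with h | h
        · subst h; exact hv
        · exfalso
          have hv2 := hsub (u + 1) (by omega) (by omega) v hv
          have hvI : v ∈ I v := ih (by omega) v (by omega) (by omega)
          have := hdis v (u + 1) v (by omega) (by omega) (by omega) (by omega) hvI hv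
          omega
  have hfin := key (k + 3) (by omega) le_rfl (k + 3) (by omega) le_rfl
  rcases hend2 _ hfin with h | h <;> omega


/-- Main non-wqo step -/
lemma no_embed (k m : ℕ) (hk : 10 ≤ k) (hkm : k < m) (B : Fin (k + 4) → Set (Fin (m + 4)))
    (h1 : ∀ i, ((bad m).induce (B i)).Connected)
    (h2 : ∀ i j, i ≠ j → Disjoint (B i) (B j))
    (h3 : ∀ i j, i ≠ j → ((bad k).Adj i j ↔ ∃ u ∈ B i, ∃ v ∈ B j, (bad m).Adj u v)) : False := by
  obtain ⟨c', hc', hcm⟩ := good_minor (bad_good m) B h1 h2 h3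
  replace hcm : ∀ i, ∃ v ∈ B i, v.val = c' i := hcm
  -- hubs of the model
  have hA : c' ⟨0, by omega⟩ < 2 := by
    refine deg5 hc' _ (fun i => ⟨2 * i.1 + 3, by have := i.2; omega⟩) ?_ ?_
    · intro i j hij
      simp only [Fin.mk.injEq] at hij
      ext; omega
    · intro i
      have := i.2
      unfold bad
      rw [SimpleGraph.fromRel_adj]
      refine ⟨?_, Or.inl (Or.inr (Or.inl ⟨rfl, ?_, ?_, ?_⟩))⟩
      · intro h
        simp only [Fin.mk.injEq] at h
        omega
      · show 3 ≤ 2 * i.1 + 3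
        omega
      · show 2 * i.1 + 3 ≤ k + 2
        omega
      · show (2 * i.1 + 3) % 2 = 1
        omega
  have hB : c' ⟨1, by omega⟩ < 2 := by
    refine deg5 hc' _ (fun i => ⟨2 * i.1 + 4, by have := i.2; omega⟩) ?_ ?_
    · intro i j hij
      simp only [Fin.mk.injEq] at hij
      ext; omega
    · intro i
      have := i.2
      unfold bad
      rw [SimpleGraph.fromRel_adj]
      refine ⟨?_, Or.inl (Or.inr (Or.inr ⟨rfl, ?_, ?_, ?_⟩))⟩
      · intro h
        simp only [Fin.mk.injEq] at h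
        omega
      · show 3 ≤ 2 * i.1 + 4
        omega
      · show 2 * i.1 + 4 ≤ k + 2
        omega
      · show (2 * i.1 + 4) % 2 = 0
        omega
  set a : Fin (k + 4) := ⟨0, by omega⟩ with ha
  set b : Fin (k + 4) := ⟨1, by omega⟩ with hb
  have hab : a ≠ b := by
    intro h
    simp only [ha, hb, Fin.mk.injEq] at h
    omega
  -- the host hubs 0,1 lie in B a ∪ B b
  have hhub : ∀ x : Fin (m + 4), x.val < 2 → x ∈ B a ∨ x ∈ B b := by
    intro x hx
    obtain ⟨u, hu, hu'⟩ := hcm a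
    obtain ⟨v, hv, hv'⟩ := hcm b
    have huv : u.val ≠ v.val := by
      intro h
      have : u = v := Fin.ext h
      subst this
      exact Set.disjoint_left.1 (h2 a b hab) hu hv
    have : x = u ∨ x = v := by
      have hux : x.val = u.val ∨ x.val = v.val := by omega
      rcases hux with h | h
      · left; exact Fin.ext h
      · right; exact Fin.ext h
    rcases this with h | h
    · left; rw [h]; exact hu
    · right; rw [h]; exact hv
  -- path vertices of the model
  have hpath : ∀ (j : Fin (k + 4)), 2 ≤ j.val → ∀ x ∈ B j, 2 ≤ x.val := by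
    intro j hj x hx
    by_contra hlt
    rcases hhub x (by omega) with h | h
    · have hja : a ≠ j := by
        intro h'; rw [← h'] at hj; simp only [ha] at hj; omega
      exact Set.disjoint_left.1 (h2 a j hja) h hx
    · have hjb : b ≠ j := by
        intro h'; rw [← h'] at hj; simp only [hb] at hj; omega
      exact Set.disjoint_left.1 (h2 b j hjb) h hx
  have hm0 : (0 : ℕ) < m + 4 := by omega
  have hm1 : (1 : ℕ) < m + 4 := by omega
  -- adjacency of inner host vertex to hub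
  have hinner : ∀ x : Fin (m + 4), 3 ≤ x.val → x.val ≤ m + 2 →
      (bad m).Adj x (if x.val % 2 = 1 then ⟨0, hm0⟩ else ⟨1, hm1⟩) := by
    intro x hx1 hx2
    unfold bad
    rw [SimpleGraph.fromRel_adj]
    split_ifs with h
    · refine ⟨?_, Or.inr (Or.inr (Or.inl ⟨rfl, hx1, hx2, h⟩))⟩
      intro h'
      have := congrArg Fin.val h'
      simp only at this
      omega
    · refine ⟨?_, Or.inr (Or.inr (Or.inr ⟨rfl, hx1, hx2, by omega⟩))⟩
      intro h'
      have := congrArg Fin.val h'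
      simp only at this
      omega
  -- model adjacency facts
  have hend : ∀ j : Fin (k + 4), 2 ≤ j.val → (j.val = 2 ∨ j.val = k + 3) → ∀ x ∈ B j,
      x.val = 2 ∨ x.val = m + 3 := by
    intro j hj hj' x hx
    by_contra hcon
    have hx2 := hpath j hj x hx
    have hx4 := x.2
    have hadj := hinner x (by omega) (by omega)
    have hjab : ∀ y : Fin (m + 4), y.val < 2 → ¬ (bad m).Adj x y := by
      intro y hy hxy
      have hja : j ≠ a := by
        intro h'; rw [h'] at hj; simp only [ha] at hj; omega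
      have hjb : j ≠ b := by
        intro h'; rw [h'] at hj; simp only [hb] at hj; omega
      rcases hhub y hy with h | h
      · have h5 := (h3 j a hja).2 ⟨x, hx, y, h, hxy⟩
        unfold bad at h5
        rw [SimpleGraph.fromRel_adj] at h5
        simp only [ha] at h5
        omega
      · have h5 := (h3 j b hjb).2 ⟨x, hx, y, h, hxy⟩
        unfold bad at h5
        rw [SimpleGraph.fromRel_adj] at h5
        simp only [hb] at h5
        omega
    refine hjab _ ?_ hadj
    split_ifs <;> simp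
  have hmid : ∀ j : Fin (k + 4), 2 ≤ j.val → ∀ x ∈ B j, ∀ y ∈ B j, 3 ≤ x.val →
      y.val = x.val + 1 → y.val ≤ m + 2 → False := by
    intro j hj x hx y hy hx3 hyx hym
    have hja : j ≠ a := by
      intro h'; rw [h'] at hj; simp only [ha] at hj; omega
    have hjb : j ≠ b := by
      intro h'; rw [h'] at hj; simp only [hb] at hj; omega
    have hx' := hinner x hx3 (by omega)
    have hy' := hinner y (by omega) hym
    -- both host hubs are adjacent to B j
    have hboth : ∀ z : Fin (m + 4), z.val < 2 → ∃ w ∈ B j, (bad m).Adj w z := by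
      intro z hz
      rcases Nat.mod_two_eq_zero_or_one x.val with hp | hp
      · rw [if_neg (by omega)] at hx'
        rw [if_pos (by omega)] at hy'
        rcases (by omega : z.val = 0 ∨ z.val = 1) with h0 | h0
        · refine ⟨y, hy, ?_⟩
          have : z = ⟨0, hm0⟩ := Fin.ext h0
          rw [this]; exact hy'
        · refine ⟨x, hx, ?_⟩
          have : z = ⟨1, hm1⟩ := Fin.ext h0
          rw [this]; exact hx'
      · rw [if_pos (by omega)] at hx'
        rw [if_neg (by omega)] at hy'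
        rcases (by omega : z.val = 0 ∨ z.val = 1) with h0 | h0
        · refine ⟨x, hx, ?_⟩
          have : z = ⟨0, hm0⟩ := Fin.ext h0
          rw [this]; exact hx'
        · refine ⟨y, hy, ?_⟩
          have : z = ⟨1, hm1⟩ := Fin.ext h0
          rw [this]; exact hy'
    obtain ⟨u, hu, hu'⟩ := hcm a
    obtain ⟨v, hv, hv'⟩ := hcm b
    obtain ⟨w1, hw1, hw1'⟩ := hboth u (by omega)
    obtain ⟨w2, hw2, hw2'⟩ := hboth v (by omega)
    have h5 := (h3 j a hja).2 ⟨w1, hw1, u, hu, hw1'⟩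
    have h6 := (h3 j b hjb).2 ⟨w2, hw2, v, hv, hw2'⟩
    unfold bad at h5 h6
    rw [SimpleGraph.fromRel_adj] at h5 h6
    simp only [ha, hb] at h5 h6
    omega
  -- path adjacency in the host
  have hhost : ∀ x y : Fin (m + 4), 2 ≤ x.val → 2 ≤ y.val → (bad m).Adj x y →
      (y.val = x.val + 1 ∨ x.val = y.val + 1) := by
    intro x y hx hy hxy
    unfold bad at hxy
    rw [SimpleGraph.fromRel_adj] at hxy
    omega
  -- sets of values
  have hconv : ∀ j : Fin (k + 4), 2 ≤ j.val → ∀ x ∈ B j, ∀ y ∈ B j, x ≠ y →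
      ∃ z ∈ B j, z.val = x.val + 1 ∨ x.val = z.val + 1 := by
    intro j hj x hx y hy hxy
    by_contra hcon
    push Not at hcon
    refine hxy ?_
    have := conn_prop (h1 j) (fun w => w = x) ?_ hx rfl hy
    · exact this.symm
    · intro u hu v hv huv hux
      exfalso
      subst hux
      have h7 := hcon v hv
      rcases hhost u v (hpath j hj u hu) (hpath j hj v hv) huv with h | h
      · exact h7.1 h
      · exact h7.2 h
  have hnon : ∀ j : Fin (k + 4), ∃ x, x ∈ B j := by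
    intro j
    obtain ⟨v, hv, _⟩ := hcm j
    exact ⟨v, hv⟩
  have hstep : ∀ j j' : Fin (k + 4), 2 ≤ j.val → j'.val = j.val + 1 → ∃ u ∈ B j, ∃ v ∈ B j',
      (v.val = u.val + 1 ∨ u.val = v.val + 1) := by
    intro j j' hj hjj
    have hne : j ≠ j' := by
      intro h; rw [h] at hjj; omega
    have hadj : (bad k).Adj j j' := by
      unfold bad
      rw [SimpleGraph.fromRel_adj]
      exact ⟨hne, Or.inl (Or.inl ⟨hj, hjj⟩)⟩
    obtain ⟨u, hu, v, hv, huv⟩ := (h3 j j' hne).1 hadj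
    exact ⟨u, hu, v, hv, hhost u v (hpath j hj u hu) (hpath j' (by omega) v hv) huv⟩
  -- the family of integer sets
  have hcases : ∃ x ∈ B ⟨2, by omega⟩, x.val = 2 ∨ x.val = m + 3 := by
    obtain ⟨x, hx⟩ := hnon ⟨2, by omega⟩
    exact ⟨x, hx, hend _ le_rfl (Or.inl rfl) x hx⟩
  obtain ⟨x0, hx0, hx0'⟩ := hcases
  rcases hx0' with hx0' | hx0'
  · refine layout k m (fun j => {x | ∃ (hj : j < k + 4) (v : Fin (m + 4)), v ∈ B ⟨j, hj⟩ ∧ v.val = x})
      ?_ ?_ ?_ ?_ ?_ ?_ ?_ ?_ ?_ hkm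
    · rintro j hj hj' x ⟨hj4, v, hv, rfl⟩
      exact ⟨hpath ⟨j, hj4⟩ hj v hv, by have := v.2; omega⟩
    · rintro i j x hi hi' hj hj' ⟨hi4, v, hv, rfl⟩ ⟨hj4, w, hw, hwv⟩
      have : w = v := Fin.ext hwv
      subst this
      by_contra hne
      refine Set.disjoint_left.1 (h2 ⟨i, hi4⟩ ⟨j, hj4⟩ ?_) hv hw
      simpa using hne
    · rintro j hj hj' x ⟨hj4, v, hv, rfl⟩ y ⟨_, w, hw, rfl⟩ hxy
      obtain ⟨z, hz, hz'⟩ := hconv ⟨j, hj4⟩ hj v hv w hw (fun h => hxy (congrArg Fin.val h))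
      exact ⟨z.val, ⟨hj4, z, hz, rfl⟩, hz'⟩
    · intro j hj hj'
      obtain ⟨u, hu, v, hv, huv⟩ := hstep ⟨j, by omega⟩ ⟨j + 1, by omega⟩ hj rfl
      exact ⟨u.val, ⟨by omega, u, hu, rfl⟩, v.val, ⟨by omega, v, hv, rfl⟩, huv⟩
    · rintro x ⟨hj4, v, hv, rfl⟩
      exact hend _ le_rfl (Or.inl rfl) v hv
    · rintro x ⟨hj4, v, hv, rfl⟩
      exact hend ⟨k + 3, hj4⟩ (by show 2 ≤ k + 3; omega) (Or.inr rfl) v hv
    · rintro j hj hj' x hx3 hxm ⟨hj4, v, hv, rfl⟩ ⟨_, w, hw, hwv⟩
      exact hmid ⟨j, hj4⟩ hj v hv w hw hx3 hwv (by omega)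
    · obtain ⟨v, hv⟩ := hnon ⟨k + 3, by omega⟩
      exact ⟨v.val, by omega, v, hv, rfl⟩
    · exact ⟨by omega, x0, hx0, hx0'⟩
  · refine layout k m (fun j => {x | ∃ (hj : j < k + 4) (v : Fin (m + 4)), v ∈ B ⟨j, hj⟩ ∧
      v.val + x = m + 5})
      ?_ ?_ ?_ ?_ ?_ ?_ ?_ ?_ ?_ hkm
    · rintro j hj hj' x ⟨hj4, v, hv, hvx⟩
      have := hpath ⟨j, hj4⟩ hj v hv
      have := v.2
      omega
    · rintro i j x hi hi' hj hj' ⟨hi4, v, hv, hvx⟩ ⟨hj4, w, hw, hwv⟩
      have : w = v := Fin.ext (by omega)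
      subst this
      by_contra hne
      refine Set.disjoint_left.1 (h2 ⟨i, hi4⟩ ⟨j, hj4⟩ ?_) hv hw
      simpa using hne
    · rintro j hj hj' x ⟨hj4, v, hv, hvx⟩ y ⟨_, w, hw, hwy⟩ hxy
      obtain ⟨z, hz, hz'⟩ := hconv ⟨j, hj4⟩ hj v hv w hw (fun h => hxy (by subst h; omega))
      have := z.2
      have := hpath ⟨j, hj4⟩ hj z hz
      exact ⟨m + 5 - z.val, ⟨hj4, z, hz, by omega⟩, by omega⟩
    · intro j hj hj'
      obtain ⟨u, hu, v, hv, huv⟩ := hstep ⟨j, by omega⟩ ⟨j + 1, by omega⟩ hj rfl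
      have := u.2
      have := v.2
      exact ⟨m + 5 - u.val, ⟨by omega, u, hu, by omega⟩, m + 5 - v.val, ⟨by omega, v, hv, by omega⟩,
        by omega⟩
    · rintro x ⟨hj4, v, hv, hvx⟩
      have := hend _ le_rfl (Or.inl rfl) v hv
      omega
    · rintro x ⟨hj4, v, hv, hvx⟩
      have := hend ⟨k + 3, hj4⟩ (by show 2 ≤ k + 3; omega) (Or.inr rfl) v hv
      omega
    · rintro j hj hj' x hx3 hxm ⟨hj4, v, hv, hvx⟩ ⟨_, w, hw, hwv⟩
      exact hmid ⟨j, hj4⟩ hj w hw v hv (by omega) (by omega) (by omega)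
    · obtain ⟨v, hv⟩ := hnon ⟨k + 3, by omega⟩
      have := v.2
      exact ⟨m + 5 - v.val, by omega, v, hv, by omega⟩
    · exact ⟨by omega, x0, hx0, by omega⟩


noncomputable def pos (c : ℕ) : ℝ × ℝ :=
  if c = 0 then (0, 1) else if c = 1 then (0, -1) else ((c : ℝ), 0)

lemma pos0 : pos 0 = (0, 1) := by simp [pos]
lemma pos1 : pos 1 = (0, -1) := by simp [pos]
lemma pos2 {c : ℕ} (h : 2 ≤ c) : pos c = ((c : ℝ), 0) := by
  unfold pos
  rw [if_neg (by omega), if_neg (by omega)]

/-- straight segment as a path -/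
noncomputable def seg (a b : ℝ × ℝ) : Path a b where
  toFun t := ((1 - (t : ℝ)) * a.1 + (t : ℝ) * b.1, (1 - (t : ℝ)) * a.2 + (t : ℝ) * b.2)
  continuous_toFun := by fun_prop
  source' := by simp
  target' := by simp

lemma seg_apply (a b : ℝ × ℝ) (t : unitInterval) :
    seg a b t = ((1 - (t : ℝ)) * a.1 + (t : ℝ) * b.1, (1 - (t : ℝ)) * a.2 + (t : ℝ) * b.2) := rfl

lemma pos_inj : Function.Injective pos := by
  intro a b hab
  rcases (by omega : a = 0 ∨ a = 1 ∨ 2 ≤ a) with ha | ha | ha <;>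
  rcases (by omega : b = 0 ∨ b = 1 ∨ 2 ≤ b) with hb | hb | hb
  · omega
  · rw [ha, hb, pos0, pos1, Prod.mk.injEq] at hab
    have := hab.2
    norm_num at this
  · rw [ha, pos0, pos2 hb, Prod.mk.injEq] at hab
    have := hab.2
    norm_num at this
  · rw [ha, hb, pos0, pos1, Prod.mk.injEq] at hab
    have := hab.2
    norm_num at this
  · omega
  · rw [ha, pos1, pos2 hb, Prod.mk.injEq] at hab
    have := hab.2
    norm_num at this
  · rw [hb, pos0, pos2 ha, Prod.mk.injEq] at hab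
    have := hab.2
    norm_num at this
  · rw [hb, pos1, pos2 ha, Prod.mk.injEq] at hab
    have := hab.2
    norm_num at this
  · rw [pos2 ha, pos2 hb, Prod.mk.injEq] at hab
    exact_mod_cast hab.1

lemma seg_inj {a b : ℝ × ℝ} (hab : a ≠ b) : Function.Injective ⇑(seg a b) := by
  intro s t hst
  rw [seg_apply, seg_apply, Prod.mk.injEq] at hst
  obtain ⟨h1, h2⟩ := hst
  by_contra hne
  have hne' : (s : ℝ) - t ≠ 0 := by
    intro h
    exact hne (Subtype.ext (by linarith))
  apply hab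
  ext
  · apply mul_left_cancel₀ hne'
    linarith
  · apply mul_left_cancel₀ hne'
    linarith

noncomputable def E (p q : ℕ) (s : ℝ) : ℝ × ℝ :=
  ((1 - s) * (pos p).1 + s * (pos q).1, (1 - s) * (pos p).2 + s * (pos q).2)

lemma E_swap (p q : ℕ) (s : ℝ) : E p q s = E q p (1 - s) := by
  unfold E
  ext
  · simp only; ring
  · simp only; ring

/-- shape of edges -/
lemma E_shape (p q : ℕ) (s : ℝ) (hs0 : 0 < s) (hs1 : s < 1) (hpq : p < q) :
    (p = 0 ∧ q = 1 ∧ (E p q s).1 = 0 ∧ -1 < (E p q s).2 ∧ (E p q s).2 < 1) ∨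
    (p = 0 ∧ 2 ≤ q ∧ (E p q s).1 = s * q ∧ (E p q s).2 = 1 - s) ∨
    (p = 1 ∧ 2 ≤ q ∧ (E p q s).1 = s * q ∧ (E p q s).2 = -(1 - s)) ∨
    (2 ≤ p ∧ (p : ℝ) < (E p q s).1 ∧ (E p q s).1 < q ∧ (E p q s).2 = 0) := by
  rcases (by omega : p = 0 ∨ p = 1 ∨ 2 ≤ p) with hp | hp | hp
  · rcases (by omega : q = 1 ∨ 2 ≤ q) with hq | hq
    · left
      subst hp; subst hq
      simp only [E, pos0, pos1]
      refine ⟨by trivial, by trivial, by ring, by linarith, by linarith⟩
    · right; left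
      subst hp
      simp only [E, pos0, pos2 hq]
      refine ⟨by trivial, hq, by ring, by ring⟩
  · right; right; left
    have hq : 2 ≤ q := by omega
    subst hp
    simp only [E, pos1, pos2 hq]
    refine ⟨by trivial, hq, by ring, by ring⟩
  · right; right; right
    have hq : 2 ≤ q := by omega
    have hpq' : (p : ℝ) < q := by exact_mod_cast hpq
    simp only [E, pos2 hp, pos2 hq]
    refine ⟨hp, by nlinarith, by nlinarith, by ring⟩

lemma avoid_lt (p q r : ℕ) (s : ℝ) (hs0 : 0 < s) (hs1 : s < 1) (hpq : p < q)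
    (hbet : 2 ≤ p → p < r → r < q → False) : E p q s ≠ pos r := by
  intro h
  have h1 := congrArg Prod.fst h
  have h2 := congrArg Prod.snd h
  have hr : (r = 0 ∧ (pos r).1 = 0 ∧ (pos r).2 = 1) ∨ (r = 1 ∧ (pos r).1 = 0 ∧ (pos r).2 = -1) ∨
      (2 ≤ r ∧ (pos r).1 = r ∧ (pos r).2 = 0) := by
    rcases (by omega : r = 0 ∨ r = 1 ∨ 2 ≤ r) with hr | hr | hr
    · left; subst hr; rw [pos0]; simp
    · right; left; subst hr; rw [pos1]; simp
    · right; right; rw [pos2 hr]; exact ⟨hr, rfl, rfl⟩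
  have hqpos : 2 ≤ q → (2 : ℝ) ≤ q := fun h => by exact_mod_cast h
  have hrpos : 2 ≤ r → (2 : ℝ) ≤ r := fun h => by exact_mod_cast h
  rcases E_shape p q s hs0 hs1 hpq with ⟨hp, hq, e1, e2, e3⟩ | ⟨hp, hq, e1, e2⟩ | ⟨hp, hq, e1, e2⟩ |
    ⟨hp, e1, e2, e3⟩ <;>
  rcases hr with ⟨hr, f1, f2⟩ | ⟨hr, f1, f2⟩ | ⟨hr, f1, f2⟩
  · linarith
  · linarith
  · have := hrpos hr; linarith
  · linarith
  · linarith
  · linarith
  · linarith
  · linarith
  · linarith
  · linarith
  · linarith
  · rw [h1, f1] at e1 e2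
    exact hbet hp (by exact_mod_cast e1) (by exact_mod_cast e2)

lemma avoid (p q r : ℕ) (s : ℝ) (hs0 : 0 < s) (hs1 : s < 1) (hpq : p ≠ q)
    (hbet : 2 ≤ p → p < r → r < q → False) (hbet' : 2 ≤ q → q < r → r < p → False) :
    E p q s ≠ pos r := by
  rcases Nat.lt_or_ge p q with h | h
  · exact avoid_lt p q r s hs0 hs1 h hbet
  · rw [E_swap]
    exact avoid_lt q p r (1 - s) (by linarith) (by linarith) (by omega) hbet'

lemma cross_lt (p q p' q' : ℕ) (s t : ℝ) (hs0 : 0 < s) (hs1 : s < 1) (ht0 : 0 < t) (ht1 : t < 1)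
    (hpq : p < q) (hpq' : p' < q')
    (b1 : 2 ≤ p → p < p' → p' < q → False) (b2 : 2 ≤ p → p < q' → q' < q → False)
    (b3 : 2 ≤ p' → p' < p → p < q' → False) (b4 : 2 ≤ p' → p' < q → q < q' → False)
    (h : E p q s = E p' q' t) : p = p' ∧ q = q' := by
  have h1 := congrArg Prod.fst h
  have h2 := congrArg Prod.snd h
  have hqpos : 2 ≤ q → (2 : ℝ) ≤ q := fun h => by exact_mod_cast h
  have hqpos' : 2 ≤ q' → (2 : ℝ) ≤ q' := fun h => by exact_mod_cast h
  have hppos : 2 ≤ p → (2 : ℝ) ≤ p := fun h => by exact_mod_cast h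
  have hppos' : 2 ≤ p' → (2 : ℝ) ≤ p' := fun h => by exact_mod_cast h
  rcases E_shape p q s hs0 hs1 hpq with ⟨hp, hq, e1, e2, e3⟩ | ⟨hp, hq, e1, e2⟩ | ⟨hp, hq, e1, e2⟩ |
    ⟨hp, e1, e2, e3⟩ <;>
  rcases E_shape p' q' t ht0 ht1 hpq' with ⟨hp', hq', f1, f2, f3⟩ | ⟨hp', hq', f1, f2⟩ |
    ⟨hp', hq', f1, f2⟩ | ⟨hp', f1, f2, f3⟩
  · omega
  · have := hqpos' hq'; exfalso; nlinarith
  · have := hqpos' hq'; exfalso; nlinarith
  · have := hppos' hp'; exfalso; nlinarith
  · have := hqpos hq; exfalso; nlinarith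
  · have hst : s = t := by linarith
    rw [e1, f1, ← hst] at h1
    have := mul_left_cancel₀ hs0.ne' h1
    refine ⟨by omega, by exact_mod_cast this⟩
  · exfalso; linarith
  · exfalso; linarith
  · have := hqpos hq; exfalso; nlinarith
  · exfalso; linarith
  · have hst : s = t := by linarith
    rw [e1, f1, ← hst] at h1
    have := mul_left_cancel₀ hs0.ne' h1
    refine ⟨by omega, by exact_mod_cast this⟩
  · exfalso; linarith
  · have := hppos hp; exfalso; nlinarith
  · exfalso; linarith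
  · exfalso; linarith
  · rw [h1] at e1 e2
    have g1 : p < q' := by
      have : (p : ℝ) < q' := by linarith
      exact_mod_cast this
    have g2 : p' < q := by
      have : (p' : ℝ) < q := by linarith
      exact_mod_cast this
    have c1 : ¬ (p < p') := fun h => b1 hp h g2
    have c2 : ¬ (p' < p) := fun h => b3 hp' h g1
    have c3 : ¬ (q' < q) := fun h => b2 hp g1 h
    have c4 : ¬ (q < q') := fun h => b4 hp' g2 h
    omega

lemma cross (p q p' q' : ℕ) (s t : ℝ) (hs0 : 0 < s) (hs1 : s < 1) (ht0 : 0 < t) (ht1 : t < 1)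
    (hpq : p ≠ q) (hpq' : p' ≠ q')
    (b1 : ∀ r, (r = p' ∨ r = q') → (2 ≤ p → p < r → r < q → False) ∧
      (2 ≤ q → q < r → r < p → False))
    (b2 : ∀ r, (r = p ∨ r = q) → (2 ≤ p' → p' < r → r < q' → False) ∧
      (2 ≤ q' → q' < r → r < p' → False))
    (h : E p q s = E p' q' t) : (p = p' ∧ q = q') ∨ (p = q' ∧ q = p') := by
  rcases Nat.lt_or_ge p q with h1 | h1 <;> rcases Nat.lt_or_ge p' q' with h2 | h2
  · left
    exact cross_lt p q p' q' s t hs0 hs1 ht0 ht1 h1 h2 (b1 p' (Or.inl rfl)).1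
      (b1 q' (Or.inr rfl)).1 (b2 p (Or.inl rfl)).1 (b2 q (Or.inr rfl)).1 h
  · right
    rw [E_swap p' q' t] at h
    exact cross_lt p q q' p' s (1 - t) hs0 hs1 (by linarith) (by linarith) h1 (by omega)
      (b1 q' (Or.inr rfl)).1 (b1 p' (Or.inl rfl)).1 (b2 p (Or.inl rfl)).2 (b2 q (Or.inr rfl)).2 h
  · right
    rw [E_swap p q s] at h
    have := cross_lt q p p' q' (1 - s) t (by linarith) (by linarith) ht0 ht1 (by omega) h2
      (b1 p' (Or.inl rfl)).2 (b1 q' (Or.inr rfl)).2 (b2 q (Or.inr rfl)).1 (b2 p (Or.inl rfl)).1 h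
    exact ⟨this.2, this.1⟩
  · left
    rw [E_swap p q s, E_swap p' q' t] at h
    have := cross_lt q p q' p' (1 - s) (1 - t) (by linarith) (by linarith) (by linarith)
      (by linarith) (by omega) (by omega)
      (b1 q' (Or.inr rfl)).2 (b1 p' (Or.inl rfl)).2 (b2 q (Or.inr rfl)).2 (b2 p (Or.inl rfl)).2 h
    exact ⟨this.2, this.1⟩

theorem result :
    ¬ (∀ P : (n : ℕ) → SimpleGraph (Fin n) → Prop,
    (∀ n (G : SimpleGraph (Fin n)), P n G →
      ∃ f : Fin n → ℝ × ℝ, Function.Injective f ∧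
      ∃ γ : (i j : Fin n) → Path (f i) (f j),
        (∀ i j, G.Adj i j → i < j → Function.Injective ⇑(γ i j)) ∧
        (∀ i j, G.Adj i j → i < j → ∀ t : unitInterval, (t : ℝ) ∈ Set.Ioo (0 : ℝ) 1 →
            ∀ v, γ i j t ≠ f v) ∧
        (∀ i j k l, G.Adj i j → i < j → G.Adj k l → k < l → (i ≠ k ∨ j ≠ l) →
          ∀ s t : unitInterval, (s : ℝ) ∈ Set.Ioo (0 : ℝ) 1 → (t : ℝ) ∈ Set.Ioo (0 : ℝ) 1 →
            γ i j s ≠ γ k l t)) →
    (∀ n m (G : SimpleGraph (Fin n)) (H : SimpleGraph (Fin m)), P n G →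
      (∃ B : Fin m → Set (Fin n), (∀ i, (G.induce (B i)).Connected) ∧
         (∀ i j, i ≠ j → Disjoint (B i) (B j)) ∧
         (∀ i j, i ≠ j → (H.Adj i j ↔ ∃ u ∈ B i, ∃ v ∈ B j, G.Adj u v))) → P m H) →
    ((∀ g : ℕ → (Σ n : ℕ, SimpleGraph (Fin n)), (∀ i, P (g i).1 (g i).2) →
        ∃ i j, i < j ∧ ∃ B : Fin (g i).1 → Set (Fin (g j).1),
          (∀ a, ((g j).2.induce (B a)).Connected) ∧
          (∀ a b, a ≠ b → Disjoint (B a) (B b)) ∧
          (∀ a b, a ≠ b → ((g i).2.Adj a b ↔ ∃ u ∈ B a, ∃ v ∈ B b, (g j).2.Adj u v)))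
     ↔ ∃ N : ℕ, ∀ k : ℕ, 2 ≤ k →
        P (2 * k + 2) (SimpleGraph.fromRel (fun a b : Fin (2 * k + 2) =>
          (a.val < 2 * k ∧ b.val < 2 * k ∧ b.val = (a.val + 1) % (2 * k)) ∨
          (a.val = 2 * k ∧ b.val < 2 * k ∧ b.val % 2 = 0) ∨
          (a.val = 2 * k + 1 ∧ b.val < 2 * k ∧ b.val % 2 = 1))) → k ≤ N)) := by
  intro H
  have H1 := H PP ?_ ?_
  · have H2 := H1.2 ⟨4, fun k hk hP => by
      by_contra hlt
      exact wheel_bound k (by omega) hP⟩
    obtain ⟨i, j, hij, B, h1, h2, h3⟩ := H2 (fun i => ⟨i + 10 + 4, bad (i + 10)⟩)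
      (fun i => ⟨_, bad_good (i + 10)⟩)
    exact no_embed (i + 10) (j + 10) (by omega) (by omega) B h1 h2 h3
  · rintro n G ⟨c, hc⟩
    refine ⟨fun i => pos (c i), pos_inj.comp hc.1, fun i j => seg _ _, ?_, ?_, ?_⟩
    · intro i j hadj _
      exact seg_inj (fun h => hadj.ne (hc.1 (pos_inj h)))
    · intro i j hadj _ t ht v
      exact avoid (c i) (c j) (c v) t ht.1 ht.2 (fun h => hadj.ne (hc.1 h))
        (hc.2 i j v hadj) (hc.2 j i v hadj.symm)
    · intro i j k l hij hlt hkl hlt' hne s t hs ht h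
      have := cross (c i) (c j) (c k) (c l) s t hs.1 hs.2 ht.1 ht.2 (fun h => hij.ne (hc.1 h))
        (fun h => hkl.ne (hc.1 h))
        (by
          rintro r (rfl | rfl)
          · exact ⟨hc.2 i j k hij, hc.2 j i k hij.symm⟩
          · exact ⟨hc.2 i j l hij, hc.2 j i l hij.symm⟩)
        (by
          rintro r (rfl | rfl)
          · exact ⟨hc.2 k l i hkl, hc.2 l k i hkl.symm⟩
          · exact ⟨hc.2 k l j hkl, hc.2 l k j hkl.symm⟩) h
      rcases this with ⟨h1, h2⟩ | ⟨h1, h2⟩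
      · have e1 := hc.1 h1
        have e2 := hc.1 h2
        rcases hne with h' | h'
        · exact h' e1
        · exact h' e2
      · have e1 := hc.1 h1
        have e2 := hc.1 h2
        subst e1; subst e2
        exact absurd hlt (not_lt.2 hlt'.le)
  · rintro n m G K ⟨c, hc⟩ ⟨B, h1, h2, h3⟩
    obtain ⟨c', hc', _⟩ := good_minor hc B h1 h2 h3
    exact ⟨c', hc'⟩

end Pool.Agent.S05820
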