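import Pool.Statements.S05864
-- import your own Pool.Agent.* helpers here

set_option autoImplicit false
open Pool Pool.MP_4e5a55_co

namespace Pool.Agent.S05864

/-! ### The covering code bound `K(5,1) ≥ 7` -/

/-- The Hamming ball of radius one around `c`, as a bit mask. -/
def ball (c : ℕ) : ℕ :=
  2 ^ c + 2 ^ (c ^^^ 1) + 2 ^ (c ^^^ 2) + 2 ^ (c ^^^ 4) + 2 ^ (c ^^^ 8) + 2 ^ (c ^^^ 16)

def full : ℕ := 2 ^ 32 - 1

/-- Can the set coded by the mask `m` be covered by `k` balls? -/
def cov : ℕ → ℕ → Bool
  | 0, m => m == 0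
  | k + 1, m =>
    let v := Nat.log2 m
    m == 0 ||
    (cov k (m &&& (full ^^^ ball v)) ||
    (cov k (m &&& (full ^^^ ball (v ^^^ 1))) ||
    (cov k (m &&& (full ^^^ ball (v ^^^ 2))) ||
    (cov k (m &&& (full ^^^ ball (v ^^^ 4))) ||
    (cov k (m &&& (full ^^^ ball (v ^^^ 8))) ||
    (cov k (m &&& (full ^^^ ball (v ^^^ 16)))))))))

theorem cov_false : cov 6 full = false := by decide +kernel

theorem centre : ∀ c v : Fin 32, (ball c).testBit v = true →
    (c : ℕ) = v ∨ (c : ℕ) = v ^^^ 1 ∨ (c : ℕ) = v ^^^ 2 ∨ (c : ℕ) = v ^^^ 4 ∨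
      (c : ℕ) = v ^^^ 8 ∨ (c : ℕ) = v ^^^ 16 := by decide +kernel

theorem full_bit : ∀ x : Fin 32, full.testBit x = true := by decide +kernel

theorem cov_sound : ∀ (k m : ℕ) (C : Finset ℕ), C.card ≤ k → (∀ c ∈ C, c < 32) →
    (∀ x < 32, m.testBit x = true → ∃ c ∈ C, (ball c).testBit x = true) → m < 2 ^ 32 →
    cov k m = true
  | 0, m, C, hC, _, hx, hm => by
      have hC0 : C = ∅ := by
        rw [← Finset.card_eq_zero]; omega
      have hm0 : m = 0 := by
        apply Nat.eq_of_testBit_eq
        intro i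
        rw [Nat.zero_testBit]
        by_cases hi : i < 32
        · by_contra hne
          have : m.testBit i = true := by
            cases h : m.testBit i
            · exact absurd h hne
            · rfl
          obtain ⟨c, hc, -⟩ := hx i hi this
          rw [hC0] at hc
          exact absurd hc (Finset.notMem_empty c)
        · apply Nat.testBit_lt_two_pow
          exact lt_of_lt_of_le hm (Nat.pow_le_pow_right (by norm_num) (by omega))
      simp [cov, hm0]
  | k + 1, m, C, hC, hc32, hx, hm => by
      by_cases hm0 : m = 0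
      · simp [cov, hm0]
      · have hv : m.testBit (Nat.log2 m) = true := Nat.testBit_log2 hm0
        have hv32 : Nat.log2 m < 32 := by
          rw [Nat.log2_lt hm0]; exact hm
        obtain ⟨c, hc, hcv⟩ := hx _ hv32 hv
        have hcen := centre ⟨c, hc32 c hc⟩ ⟨Nat.log2 m, hv32⟩ hcv
        have step : cov k (m &&& (full ^^^ ball c)) = true := by
          apply cov_sound k _ (C.erase c)
          · rw [Finset.card_erase_of_mem hc]; omega
          · intro c' hc'
            exact hc32 c' (Finset.mem_of_mem_erase hc')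
          · intro x hx32 hxm
            rw [Nat.testBit_and, Nat.testBit_xor] at hxm
            have hf : full.testBit x = true := full_bit ⟨x, hx32⟩
            rw [hf] at hxm
            simp only [Bool.and_eq_true, Bool.true_xor, Bool.not_eq_true'] at hxm
            obtain ⟨c', hc', hc'x⟩ := hx x hx32 hxm.1
            refine ⟨c', ?_, hc'x⟩
            rw [Finset.mem_erase]
            refine ⟨?_, hc'⟩
            rintro rfl
            rw [hc'x] at hxm
            exact absurd hxm.2 (by decide)
          · exact lt_of_le_of_lt Nat.and_le_left hm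
        simp only [cov, Bool.or_eq_true]
        right
        simp only at hcen
        rcases hcen with h | h | h | h | h | h
        · rw [h] at step; exact Or.inl step
        · rw [h] at step; exact Or.inr (Or.inl step)
        · rw [h] at step; exact Or.inr (Or.inr (Or.inl step))
        · rw [h] at step; exact Or.inr (Or.inr (Or.inr (Or.inl step)))
        · rw [h] at step; exact Or.inr (Or.inr (Or.inr (Or.inr (Or.inl step))))
        · rw [h] at step; exact Or.inr (Or.inr (Or.inr (Or.inr (Or.inr step))))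

/-- Encoding of words as numbers. -/
def enc (w : Fin 5 → Bool) : ℕ :=
  (w 0).toNat + 2 * (w 1).toNat + 4 * (w 2).toNat + 8 * (w 3).toNat + 16 * (w 4).toNat

def dec (x : Fin 32) : Fin 5 → Bool := fun j => (x : ℕ).testBit j

theorem enc_lt : ∀ w : Fin 5 → Bool, enc w < 32 := by decide +kernel

theorem near : ∀ x : Fin 32, ∀ w : Fin 5 → Bool, hammingDist (dec x) w ≤ 1 →
    (ball (enc w)).testBit x = true := by decide +kernel

theorem seven_le (C : Finset (Fin 5 → Bool))
    (h : ∀ w : Fin 5 → Bool, ∃ c ∈ C, hammingDist w c ≤ 1) : 7 ≤ C.card := by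
  by_contra hlt
  have hsound := cov_sound 6 full (C.image enc) (le_trans Finset.card_image_le (by omega))
    (by
      intro c hc
      obtain ⟨w, -, rfl⟩ := Finset.mem_image.1 hc
      exact enc_lt w)
    (by
      intro x hx _
      obtain ⟨c, hc, hd⟩ := h (dec ⟨x, hx⟩)
      exact ⟨enc c, Finset.mem_image_of_mem enc hc, near ⟨x, hx⟩ c hd⟩)
    (by decide +kernel)
  rw [cov_false] at hsound
  exact Bool.noConfusion hsound

/-! ### Six lines illuminating the five-dimensional cube -/

/-- Line number `i` runs through the orthants along an antipodal geodesic of the cube starting in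
the vertex `st i`; the coordinate `j` changes at time `pos i j`. -/
def st : Fin 6 → Fin 5 → Bool :=
  ![![false, true, true, false, true], ![true, true, true, false, false],
    ![false, false, true, true, false], ![false, false, true, false, false],
    ![true, true, true, false, true], ![true, false, false, false, true]]

def pos : Fin 6 → Fin 5 → ℕ :=
  ![![3, 0, 1, 4, 2], ![0, 4, 1, 2, 3], ![0, 1, 2, 3, 4], ![0, 3, 4, 2, 1],
    ![0, 3, 1, 2, 4], ![2, 3, 1, 0, 4]]

theorem covers : ∀ w : Fin 5 → Bool, ∃ i : Fin 6, ∃ k : Fin 6,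
    ∀ j, w j = (st i j ^^ decide (pos i j < k)) := by decide +kernel

theorem pos_le : ∀ i j, pos i j ≤ 4 := by decide +kernel

theorem pos_zero_one : ∀ i, ∃ j j', pos i j = 0 ∧ pos i j' = 1 := by decide +kernel

/-- The sign of the slope. -/
noncomputable def sg (b : Bool) : ℝ := if b then -1 else 1

/-- the point of line `i` at time `t` -/
noncomputable def pt (i : Fin 6) (t : ℝ) : Fin 5 → ℝ :=
  fun j => 1 / 2 + 2 * sg (st i j) * (t - pos i j)

noncomputable def dirv (i : Fin 6) : Fin 5 → ℝ := fun j => 2 * sg (st i j)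

theorem pt_eq (i : Fin 6) (t : ℝ) : pt i t = pt i 0 + t • dirv i := by
  funext j
  simp only [pt, dirv, Pi.add_apply, Pi.smul_apply, smul_eq_mul]
  ring

noncomputable def line (i : Fin 6) : AffineSubspace ℝ (Fin 5 → ℝ) :=
  AffineSubspace.mk' (pt i 0) (Submodule.span ℝ {dirv i})

theorem mem_line (i : Fin 6) (y : Fin 5 → ℝ) : y ∈ line i ↔ ∃ t : ℝ, y = pt i t := by
  unfold line
  rw [AffineSubspace.mem_mk', Submodule.mem_span_singleton]
  constructor
  · rintro ⟨t, ht⟩
    refine ⟨t, ?_⟩
    rw [pt_eq, ht, vsub_eq_sub]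
    abel
  · rintro ⟨t, rfl⟩
    refine ⟨t, ?_⟩
    rw [pt_eq i t, vsub_eq_sub]
    abel

theorem dirv_ne (i : Fin 6) : dirv i ≠ 0 := by
  intro h
  have h0 := congrFun h 0
  simp only [dirv, Pi.zero_apply, sg] at h0
  split_ifs at h0 <;> norm_num at h0

theorem finrank_line (i : Fin 6) : Module.finrank ℝ (line i).direction = 1 := by
  unfold line
  rw [AffineSubspace.direction_mk']
  exact finrank_span_singleton (dirv_ne i)

theorem line_misses (i : Fin 6) (y : Fin 5 → ℝ) (hy : y ∈ line i) :
    ¬ (∀ j, 0 ≤ y j ∧ y j ≤ 1) := by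
  intro h
  obtain ⟨t, rfl⟩ := (mem_line i y).1 hy
  obtain ⟨j, j', hj, hj'⟩ := pos_zero_one i
  have h1 := h j
  have h2 := h j'
  simp only [pt, hj, hj', sg] at h1 h2
  push_cast at h1 h2
  split_ifs at h1 h2 <;> linarith [h1.1, h1.2, h2.1, h2.2]

/-- At time `k - 1/2` the line `i` is in the orthant of the word `w`. -/
theorem pt_orthant (w : Fin 5 → Bool) (i : Fin 6) (k : Fin 6)
    (h : ∀ j, w j = (st i j ^^ decide (pos i j < k))) (j : Fin 5) :
    (w j = false → pt i ((k : ℕ) - 1 / 2) j < 0) ∧
      (w j = true → 1 < pt i ((k : ℕ) - 1 / 2) j) := by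
  have hj := h j
  by_cases hlt : pos i j < (k : ℕ)
  · have hlt' : (pos i j : ℝ) + 1 ≤ ((k : ℕ) : ℝ) := by exact_mod_cast hlt
    rw [decide_eq_true hlt] at hj
    cases hs : st i j
    · rw [hs] at hj
      simp only [pt, hs, sg]
      constructor
      · intro hw; rw [hw] at hj; simp at hj
      · intro _; simp only [Bool.false_eq_true, if_false]; linarith
    · rw [hs] at hj
      simp only [pt, hs, sg]
      constructor
      · intro _; simp only [if_true]; linarith
      · intro hw; rw [hw] at hj; simp at hj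
  · have hle : ((k : ℕ) : ℝ) ≤ (pos i j : ℝ) := by
      exact_mod_cast not_lt.1 hlt
    rw [decide_eq_false hlt] at hj
    cases hs : st i j
    · rw [hs] at hj
      simp only [pt, hs, sg]
      constructor
      · intro _; simp only [Bool.false_eq_true, if_false]; linarith
      · intro hw; rw [hw] at hj; simp at hj
    · rw [hs] at hj
      simp only [pt, hs, sg]
      constructor
      · intro hw; rw [hw] at hj; simp at hj
      · intro _; simp only [if_true]; linarith

theorem illuminate (x : Fin 5 → ℝ) (hx : ∀ j, 0 ≤ x j ∧ x j ≤ 1) :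
    ∃ i, ∃ y ∈ line i, ∃ t : ℝ, 0 < t ∧
      ∀ j, 0 < (x + t • (x - y)) j ∧ (x + t • (x - y)) j < 1 := by
  classical
  obtain ⟨i, k, hik⟩ := covers (fun j => decide (x j = 1))
  have hor := pt_orthant _ i k hik
  set y := pt i ((k : ℕ) - 1 / 2) with hy
  refine ⟨i, y, (mem_line i y).2 ⟨_, rfl⟩, ?_⟩
  have hev : ∀ j, ∀ᶠ t in nhdsWithin (0 : ℝ) (Set.Ioi 0),
      0 < (x + t • (x - y)) j ∧ (x + t • (x - y)) j < 1 := by
    intro j
    have hcont : Continuous (fun t : ℝ => x j + t * (x j - y j)) := by fun_prop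
    have hform : ∀ t : ℝ, (x + t • (x - y)) j = x j + t * (x j - y j) := by
      intro t; simp [smul_eq_mul]
    simp only [hform]
    have hpos : ∀ᶠ t in nhdsWithin (0 : ℝ) (Set.Ioi 0), 0 < t := self_mem_nhdsWithin
    rcases lt_or_eq_of_le (hx j).2 with h1 | h1
    · -- `x j < 1`
      have hu : ∀ᶠ t in nhdsWithin (0 : ℝ) (Set.Ioi 0), x j + t * (x j - y j) < 1 := by
        apply Filter.Eventually.filter_mono nhdsWithin_le_nhds
        have := hcont.tendsto 0
        simp only [zero_mul, add_zero] at this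
        exact this.eventually (Iio_mem_nhds h1)
      rcases lt_or_eq_of_le (hx j).1 with h0 | h0
      · have hl : ∀ᶠ t in nhdsWithin (0 : ℝ) (Set.Ioi 0), 0 < x j + t * (x j - y j) := by
          apply Filter.Eventually.filter_mono nhdsWithin_le_nhds
          have := hcont.tendsto 0
          simp only [zero_mul, add_zero] at this
          exact this.eventually (Ioi_mem_nhds h0)
        exact hl.and hu
      · have hne : x j ≠ 1 := ne_of_lt h1
        have hyj : y j < 0 := (hor j).1 (decide_eq_false hne)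
        filter_upwards [hu, hpos] with t ht htp
        refine ⟨?_, ht⟩
        rw [← h0]
        have : 0 < t * (0 - y j) := mul_pos htp (by linarith)
        linarith
    · -- `x j = 1`
      have hyj : 1 < y j := (hor j).2 (decide_eq_true h1)
      have hl : ∀ᶠ t in nhdsWithin (0 : ℝ) (Set.Ioi 0), 0 < x j + t * (x j - y j) := by
        apply Filter.Eventually.filter_mono nhdsWithin_le_nhds
        have := hcont.tendsto 0
        simp only [zero_mul, add_zero] at this
        have h0 : 0 < x j := by rw [h1]; norm_num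
        exact this.eventually (Ioi_mem_nhds h0)
      filter_upwards [hl, hpos] with t ht htp
      refine ⟨ht, ?_⟩
      rw [h1]
      have : 0 < t * (y j - 1) := mul_pos htp (by linarith)
      nlinarith
  have hall := (Filter.eventually_all.2 hev).and self_mem_nhdsWithin
  obtain ⟨t, ht, htp⟩ := hall.exists
  exact ⟨t, htp, ht⟩

/-- The negation of the preceding statement: For all d and l<d: the least number of l-dimensional affine subspaces missing the unit d-cube that illuminate all its boundary points equals the least size of a binary length-d code in which every word is within Hamming distance l of a codeword. -/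
theorem result :
    ¬ (∀ d l : ℕ, l < d →
      sInf {n : ℕ | ∃ L : Fin n → AffineSubspace ℝ (Fin d → ℝ),
          (∀ i, Module.finrank ℝ (L i).direction = l ∧
              ∀ y ∈ L i, ¬ (∀ j, 0 ≤ y j ∧ y j ≤ 1)) ∧
          ∀ x : Fin d → ℝ, (∀ j, 0 ≤ x j ∧ x j ≤ 1) → ¬ (∀ j, 0 < x j ∧ x j < 1) →
            ∃ i, ∃ y ∈ L i, ∃ t : ℝ, 0 < t ∧
              ∀ j, 0 < (x + t • (x - y)) j ∧ (x + t • (x - y)) j < 1}
        =
      sInf {n : ℕ | ∃ C : Finset (Fin d → Bool), C.card = n ∧
          ∀ w : Fin d → Bool, ∃ c ∈ C, hammingDist w c ≤ l}) := by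
  intro H
  have h := H 5 1 (by norm_num)
  have h6 : sInf {n : ℕ | ∃ L : Fin n → AffineSubspace ℝ (Fin 5 → ℝ),
          (∀ i, Module.finrank ℝ (L i).direction = 1 ∧
              ∀ y ∈ L i, ¬ (∀ j, 0 ≤ y j ∧ y j ≤ 1)) ∧
          ∀ x : Fin 5 → ℝ, (∀ j, 0 ≤ x j ∧ x j ≤ 1) → ¬ (∀ j, 0 < x j ∧ x j < 1) →
            ∃ i, ∃ y ∈ L i, ∃ t : ℝ, 0 < t ∧
              ∀ j, 0 < (x + t • (x - y)) j ∧ (x + t • (x - y)) j < 1} ≤ 6 := by
    apply Nat.sInf_le
    exact ⟨line, fun i => ⟨finrank_line i, fun y hy => line_misses i y hy⟩,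
      fun x hx _ => illuminate x hx⟩
  have h7 : 7 ≤ sInf {n : ℕ | ∃ C : Finset (Fin 5 → Bool), C.card = n ∧
          ∀ w : Fin 5 → Bool, ∃ c ∈ C, hammingDist w c ≤ 1} := by
    have hne : {n : ℕ | ∃ C : Finset (Fin 5 → Bool), C.card = n ∧
          ∀ w : Fin 5 → Bool, ∃ c ∈ C, hammingDist w c ≤ 1}.Nonempty :=
      ⟨_, Finset.univ, rfl, fun w => ⟨w, Finset.mem_univ w, by simp⟩⟩
    obtain ⟨C, hC, hw⟩ := Nat.sInf_mem hne
    rw [← hC]
    exact seven_le C hw
  omega

end Pool.Agent.S05864
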