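import Pool.Statements.S05868

set_option autoImplicit false
open Pool Pool.MP_4e7ec3_co

namespace Pool.Agent.S05868

/-- the self-map on indices: each block `{4b, 4b+1, 4b+2, 4b+3}` is mapped to `{4b+1, 4b+2}` -/
def g (j : ℤ) : ℤ := if j % 4 ≤ 1 then 4 * (j / 4) + 2 else 4 * (j / 4) + 1

noncomputable def T (p : ℝ) : ℝ := (g ⌊15 * p⌋ : ℝ) / 15

noncomputable def F : Finset ℝ := (Finset.range 16).image (fun j : ℕ => (j : ℝ) / 15)

lemma T_eq (j : ℤ) : T ((j : ℝ) / 15) = (g j : ℝ) / 15 := by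
  unfold T
  rw [show 15 * ((j : ℝ) / 15) = (j : ℝ) by ring, Int.floor_intCast]

lemma mem_F {x : ℝ} : x ∈ F ↔ ∃ j : ℤ, 0 ≤ j ∧ j ≤ 15 ∧ x = (j : ℝ) / 15 := by
  unfold F
  rw [Finset.mem_image]
  constructor
  · rintro ⟨j, hj, rfl⟩
    rw [Finset.mem_range] at hj
    exact ⟨j, by omega, by omega, by simp⟩
  · rintro ⟨j, h0, h1, rfl⟩
    refine ⟨j.toNat, by rw [Finset.mem_range]; omega, ?_⟩
    have : ((j.toNat : ℕ) : ℝ) = (j : ℝ) := by
      have h2 : ((j.toNat : ℕ) : ℤ) = j := Int.toNat_of_nonneg h0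
      exact_mod_cast h2
    simp only [this]

theorem result :
    ¬ (∃ k : ℝ, ∀ (F : Finset ℝ) (ε : ℝ) (T : ℝ → ℝ),
      (∀ p ∈ F, 0 ≤ p ∧ p ≤ 1) → (0 : ℝ) ∈ F → (1 : ℝ) ∈ F → 0 < ε →
      (∀ p ∈ F, T p ∈ F ∧ ε < |p - T p|) →
      ∃ p₀ ∈ F, ∃ n : ℕ, (n : ℝ) ≤ k / ε ∧
        ∃ x : ℕ → ℝ, x 0 = p₀ ∧
          (∀ i < n,
            x (i + 1) = T (x i) ∨
            (x (i + 1) ∈ F ∧ x (i + 1) < T (x i) ∧
              ∀ r ∈ F, r < T (x i) → r ≤ x (i + 1)) ∨
            (x (i + 1) ∈ F ∧ T (x i) < x (i + 1) ∧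
              ∀ r ∈ F, T (x i) < r → x (i + 1) ≤ r)) ∧
          1 / 3 ≤ |x n - p₀|) := by
  rintro ⟨k, hk⟩
  obtain ⟨p₀, hp₀, n, -, x, hx0, hstep, hfar⟩ := hk F (1 / 16) T
    (by
      intro p hp
      rw [mem_F] at hp
      obtain ⟨j, h0, h1, rfl⟩ := hp
      have h0' : (0 : ℝ) ≤ j := by exact_mod_cast h0
      have h1' : (j : ℝ) ≤ 15 := by exact_mod_cast h1
      constructor <;> linarith)
    (by rw [mem_F]; exact ⟨0, by norm_num, by norm_num, by norm_num⟩)
    (by rw [mem_F]; exact ⟨15, by norm_num, by norm_num, by norm_num⟩)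
    (by norm_num)
    (by
      intro p hp
      rw [mem_F] at hp
      obtain ⟨j, h0, h1, rfl⟩ := hp
      rw [T_eq]
      constructor
      · rw [mem_F]
        refine ⟨g j, ?_, ?_, rfl⟩ <;> (unfold g; split_ifs <;> omega)
      · have h2 : (j - g j ≤ -1) ∨ (1 ≤ j - g j) := by
          unfold g
          split_ifs <;> omega
        rcases h2 with h2 | h2
        · have h3 : (j : ℝ) - g j ≤ -1 := by exact_mod_cast h2
          rw [lt_abs]
          right
          linarith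
        · have h3 : (1 : ℝ) ≤ (j : ℝ) - g j := by exact_mod_cast h2
          rw [lt_abs]
          left
          linarith)
  rw [mem_F] at hp₀
  obtain ⟨j0, h0, h1, hj0⟩ := hp₀
  have key : ∀ i, i ≤ n → ∃ j : ℤ, x i = (j : ℝ) / 15 ∧ j / 4 = j0 / 4 := by
    intro i
    induction i with
    | zero => intro _; exact ⟨j0, by rw [hx0, hj0], rfl⟩
    | succ i ih =>
      intro hi
      obtain ⟨j, hj, hj4⟩ := ih (by omega)
      have hT : T (x i) = (g j : ℝ) / 15 := by rw [hj, T_eq]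
      have hg : g j = 4 * (j0 / 4) + 1 ∨ g j = 4 * (j0 / 4) + 2 := by
        unfold g
        split_ifs <;> omega
      rcases hstep i (by omega) with h | ⟨hF, hlt, hall⟩ | ⟨hF, hlt, hall⟩
      · exact ⟨g j, by rw [h, hT], by omega⟩
      · rw [mem_F] at hF
        obtain ⟨j', h0', h1', hj'⟩ := hF
        rw [hj', hT] at hlt
        have hlt' : (j' : ℝ) < g j := by linarith
        have hlt'' : j' < g j := by exact_mod_cast hlt'
        have h3 := hall (((g j - 1 : ℤ) : ℝ) / 15) (by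
          rw [mem_F]; exact ⟨g j - 1, by omega, by omega, rfl⟩) (by
          rw [hT]; push_cast; linarith)
        rw [hj'] at h3
        have h4 : ((g j - 1 : ℤ) : ℝ) ≤ j' := by linarith
        have h5 : g j - 1 ≤ j' := by exact_mod_cast h4
        exact ⟨j', hj', by omega⟩
      · rw [mem_F] at hF
        obtain ⟨j', h0', h1', hj'⟩ := hF
        rw [hj', hT] at hlt
        have hlt' : (g j : ℝ) < j' := by linarith
        have hlt'' : g j < j' := by exact_mod_cast hlt'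
        have h3 := hall (((g j + 1 : ℤ) : ℝ) / 15) (by
          rw [mem_F]; exact ⟨g j + 1, by omega, by omega, rfl⟩) (by
          rw [hT]; push_cast; linarith)
        rw [hj'] at h3
        have h4 : (j' : ℝ) ≤ ((g j + 1 : ℤ) : ℝ) := by linarith
        have h5 : j' ≤ g j + 1 := by exact_mod_cast h4
        exact ⟨j', hj', by omega⟩
  obtain ⟨j, hj, hj4⟩ := key n le_rfl
  rw [hj, hj0] at hfar
  have h3 : j - j0 ≤ 3 := by omega
  have h4 : -3 ≤ j - j0 := by omega
  have h3' : (j : ℝ) - j0 ≤ 3 := by exact_mod_cast h3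
  have h4' : (-3 : ℝ) ≤ (j : ℝ) - j0 := by exact_mod_cast h4
  have h5 : |(j : ℝ) / 15 - (j0 : ℝ) / 15| ≤ 3 / 15 := by
    rw [abs_le]
    constructor <;> linarith
  linarith

end Pool.Agent.S05868
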