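import Pool.Statements.S05876
-- import your own Pool.Agent.* helpers here

set_option autoImplicit false
open Pool Pool.MP_4f6df1_co

namespace Pool.Agent.S05876

/-- out-neighbour lists: the 4-cycle `0 1 2 3` together with the path `3 4 5 6 0` -/
def nb : Fin 7 → List (Fin 7) :=
  ![[1], [2], [3], [0, 4], [5], [6], [0]]

theorem sum_ind (p : Fin 7 → ℝ) (s : Set (Fin 7)) (T : Finset (Fin 7)) (h : ∀ u, u ∈ s ↔ u ∈ T) :
    ∑ u, s.indicator p u = ∑ u ∈ T, p u := by
  classical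
  have : s = (T : Set (Fin 7)) := by
    ext u
    simpa using h u
  subst this
  rw [Finset.sum_indicator_subset p (Finset.subset_univ T)]

/-- The negation of the preceding statement: Every nonempty finite digraph with no loops, 2-cycles or directed triangles has a probability distribution p with, at each vertex v, p(in-neighbours) at most p(out-neighbours) and at most p(vertices at in-distance exactly two). -/
theorem result :
    ¬ (∀ (V : Type) [Fintype V] [Nonempty V] (G : Digraph V),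
      (∀ v, ¬ G.Adj v v) →
      (∀ u v, G.Adj u v → ¬ G.Adj v u) →
      (∀ u v w, G.Adj u v → G.Adj v w → ¬ G.Adj w u) →
      ∃ p : V → ℝ, (∀ v, 0 ≤ p v) ∧ (∑ v, p v = 1) ∧
        ∀ v,
          (∑ u, Set.indicator {u | G.Adj u v} p u ≤
              ∑ u, Set.indicator {u | G.Adj v u} p u) ∧
          (∑ u, Set.indicator {u | G.Adj u v} p u ≤
              ∑ u, Set.indicator
                {u | u ≠ v ∧ ¬ G.Adj u v ∧ ∃ w, G.Adj u w ∧ G.Adj w v} p u)) := by
  intro h
  obtain ⟨p, hp0, hp1, hp⟩ := h (Fin 7) ⟨fun u v => v ∈ nb u⟩ (by decide) (by decide) (by decide)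
  have a0 := (hp 0).1
  rw [sum_ind p _ {3, 6} (by intro u; show (0 : Fin 7) ∈ nb u ↔ _; revert u; decide),
    sum_ind p _ {1} (by intro u; show u ∈ nb 0 ↔ _; revert u; decide)] at a0
  have a2 := (hp 2).1
  rw [sum_ind p _ {1} (by intro u; show (2 : Fin 7) ∈ nb u ↔ _; revert u; decide),
    sum_ind p _ {3} (by intro u; show u ∈ nb 2 ↔ _; revert u; decide)] at a2
  have a5 := (hp 5).1
  rw [sum_ind p _ {4} (by intro u; show (5 : Fin 7) ∈ nb u ↔ _; revert u; decide),
    sum_ind p _ {6} (by intro u; show u ∈ nb 5 ↔ _; revert u; decide)] at a5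
  have a4 := (hp 4).1
  rw [sum_ind p _ {3} (by intro u; show (4 : Fin 7) ∈ nb u ↔ _; revert u; decide),
    sum_ind p _ {5} (by intro u; show u ∈ nb 4 ↔ _; revert u; decide)] at a4
  have b6 := (hp 6).2
  rw [sum_ind p _ {5} (by intro u; show (6 : Fin 7) ∈ nb u ↔ _; revert u; decide),
    sum_ind p _ {4} (by
      intro u
      show (u ≠ 6 ∧ ¬ (6 : Fin 7) ∈ nb u ∧ ∃ w, w ∈ nb u ∧ (6 : Fin 7) ∈ nb w) ↔ _
      revert u; decide)] at b6
  have b1 := (hp 1).2
  rw [sum_ind p _ {0} (by intro u; show (1 : Fin 7) ∈ nb u ↔ _; revert u; decide),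
    sum_ind p _ {3, 6} (by
      intro u
      show (u ≠ 1 ∧ ¬ (1 : Fin 7) ∈ nb u ∧ ∃ w, w ∈ nb u ∧ (1 : Fin 7) ∈ nb w) ↔ _
      revert u; decide)] at b1
  have b3 := (hp 3).2
  rw [sum_ind p _ {2} (by intro u; show (3 : Fin 7) ∈ nb u ↔ _; revert u; decide),
    sum_ind p _ {1} (by
      intro u
      show (u ≠ 3 ∧ ¬ (3 : Fin 7) ∈ nb u ∧ ∃ w, w ∈ nb u ∧ (3 : Fin 7) ∈ nb w) ↔ _
      revert u; decide)] at b3
  rw [Finset.sum_pair (by decide)] at a0 b1
  simp only [Finset.sum_singleton] at a0 a2 a5 a4 b6 b1 b3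
  simp only [Fin.sum_univ_succ, Fin.sum_univ_zero] at hp1
  have hp1' : p 0 + (p 1 + (p 2 + (p 3 + (p 4 + (p 5 + (p 6 + 0)))))) = 1 := hp1
  have q0 := hp0 0
  have q1 := hp0 1
  have q2 := hp0 2
  have q3 := hp0 3
  have q4 := hp0 4
  have q5 := hp0 5
  have q6 := hp0 6
  linarith

end Pool.Agent.S05876
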