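import Pool.Statements.S05900
import Pool.Agent.H12KernelC

set_option autoImplicit false
open Pool Pool.MP_516c40_co

namespace Pool.Agent.S05900

open Filter Topology MeasureTheory ENNReal
open Pool.Agent.H12KernelA Pool.Agent.H12KernelB Pool.Agent.H12KernelC Pool.Agent.H12KernelD

abbrev Idx := Σ k : ℕ, SimpleGraph (Fin k)

/-- the normalised count, instance-free -/
noncomputable def sval (F : Idx) (p : ℕ → ℝ) (G : ∀ n : ℕ, SimpleGraph (Fin n)) (n : ℕ) : ℝ :=
  (Nat.card {f : F.2 →g G n // Function.Injective f} : ℝ) / (p n ^ (ES F.2).card * (n : ℝ) ^ F.1)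

theorem exists_seq : ∃ (p : ℕ → ℝ) (G : ∀ n : ℕ, SimpleGraph (Fin n)) (a : Idx → ℝ),
    (∀ n, 0 < p n ∧ p n ≤ 1) ∧
    (∀ ε : ℝ, 0 < ε → ∀ᶠ n : ℕ in Filter.atTop, (n : ℝ) ^ (-ε) ≤ p n) ∧
    (∀ F : Idx, 0 ≤ a F ∧ Tendsto (sval F p G) atTop (𝓝 (a F))) ∧
    a ⟨2, ⊤⟩ = 1 ∧ a ⟨3, ⊤⟩ ≤ Real.exp (-1) ∧ a ⟨4, C4⟩ ≤ 1 := by
  classical
  choose C hC using fun F : Idx => bb_bdd F.2
  let x : ℕ → (Idx → ℝ) := fun m F => bb F.2 m
  have hcomp : IsCompact (Set.pi Set.univ (fun F : Idx => Set.Icc (0 : ℝ) (C F))) :=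
    isCompact_univ_pi (fun F => isCompact_Icc)
  have hx : ∀ m, x m ∈ Set.pi Set.univ (fun F : Idx => Set.Icc (0 : ℝ) (C F)) := by
    intro m F _
    exact ⟨bb_nonneg F.2 m, hC F m⟩
  obtain ⟨a, ha, φ, hφ, hlim⟩ := hcomp.tendsto_subseq hx
  have hlimF : ∀ F : Idx, Tendsto (fun j => bb F.2 (φ j)) atTop (𝓝 (a F)) := by
    intro F
    exact (tendsto_pi_nhds.1 hlim) F
  have hφt : Tendsto φ atTop atTop := hφ.tendsto_atTop
  have : Encodable Idx := Encodable.ofCountable Idx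
  let P : ℕ → ℕ → Prop := fun j n =>
    (∀ F : Idx, Encodable.encode F < j →
      |(Nat.card {f : F.2 →g GG (φ j) n // Function.Injective f} : ℝ) /
        (pp (φ j) ^ (ES F.2).card * (n : ℝ) ^ F.1) - bb F.2 (φ j)| < 1 / ((j : ℝ) + 1)) ∧
    (n : ℝ) ^ (-(1 / ((j : ℝ) + 1))) ≤ pp (φ j)
  have hP : ∀ j, ∀ᶠ n in atTop, P j n := by
    intro j
    apply Filter.Eventually.and
    · have hfin : ({F : Idx | Encodable.encode F < j}).Finite :=
        (Set.finite_lt_nat j).preimage (Encodable.encode_injective.injOn)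
      have h1 := (Filter.eventually_all_finite hfin (l := (atTop : Filter ℕ))
        (p := fun F n => |(Nat.card {f : F.2 →g GG (φ j) n // Function.Injective f} : ℝ) /
        (pp (φ j) ^ (ES F.2).card * (n : ℝ) ^ F.1) - bb F.2 (φ j)| < 1 / ((j : ℝ) + 1))).2 ?_
      · exact h1
      · intro F _
        have h2 := emb_tendsto F.2 (φ j)
        rw [Metric.tendsto_atTop'] at h2
        obtain ⟨N, hN⟩ := h2 (1 / ((j : ℝ) + 1)) (by positivity)
        filter_upwards [eventually_gt_atTop N] with n hn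
        have := hN n hn
        rw [Real.dist_eq] at this
        exact this
    · have h1 : Tendsto (fun n : ℕ => (n : ℝ) ^ (-(1 / ((j : ℝ) + 1)))) atTop (𝓝 0) :=
        (tendsto_rpow_neg_atTop (by positivity)).comp tendsto_natCast_atTop_atTop
      exact (h1.eventually (gt_mem_nhds (pp_pos (φ j)))).mono (fun n hn => le_of_lt hn)
  obtain ⟨J, hJ, hJP⟩ := diag P hP
  refine ⟨fun n => pp (φ (J n)), fun n => GG (φ (J n)) n, a, fun n => ⟨pp_pos _, pp_le _⟩,
    ?_, ?_, ?_, ?_, ?_⟩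
  · intro ε hε
    obtain ⟨j0, hj0⟩ := exists_nat_one_div_lt hε
    filter_upwards [hJP, hJ.eventually_ge_atTop j0, eventually_ge_atTop 1] with n h1 h2 h3
    refine le_trans ?_ h1.2
    apply Real.rpow_le_rpow_of_exponent_le (by exact_mod_cast h3)
    have h4 : 1 / ((J n : ℝ) + 1) ≤ 1 / ((j0 : ℝ) + 1) := by
      apply one_div_le_one_div_of_le (by positivity)
      have : (j0 : ℝ) ≤ J n := by exact_mod_cast h2
      linarith
    linarith
  · intro F
    refine ⟨(ha F (Set.mem_univ _)).1, ?_⟩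
    have h1 : Tendsto (fun n => bb F.2 (φ (J n))) atTop (𝓝 (a F)) := (hlimF F).comp hJ
    have h2 : Tendsto (fun n => sval F (fun n => pp (φ (J n))) (fun n => GG (φ (J n)) n) n -
        bb F.2 (φ (J n))) atTop (𝓝 0) := by
      have h3 : Tendsto (fun n => 1 / ((J n : ℝ) + 1)) atTop (𝓝 0) :=
        tendsto_one_div_add_atTop_nhds_zero_nat.comp hJ
      apply squeeze_zero_norm' _ h3
      filter_upwards [hJP, hJ.eventually_gt_atTop (Encodable.encode F)] with n h4 h5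
      have := h4.1 F h5
      rw [Real.norm_eq_abs]
      exact this.le
    have h4 := h2.add h1
    simpa using h4
  · have h1 := hlimF ⟨2, ⊤⟩
    have h2 : Tendsto (fun j => bb (⊤ : SimpleGraph (Fin 2)) (φ j)) atTop (𝓝 1) := by
      apply tendsto_const_nhds.congr'
      filter_upwards [hφt.eventually_ge_atTop 1] with j hj
      exact (bb_K2 _ hj).symm
    exact tendsto_nhds_unique h1 h2
  · refine le_of_tendsto (hlimF ⟨3, ⊤⟩) ?_
    filter_upwards [hφt.eventually_ge_atTop 1] with j hj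
    exact bb_K3 _ hj
  · have h2 : Tendsto (fun j => Real.exp (1 / ((φ j : ℕ) : ℝ))) atTop (𝓝 1) := by
      have h3 : Tendsto (fun j => 1 / ((φ j : ℕ) : ℝ)) atTop (𝓝 0) :=
        tendsto_one_div_atTop_nhds_zero_nat.comp hφt
      have h4 := (Real.continuous_exp.tendsto 0).comp h3
      rw [Real.exp_zero] at h4
      exact h4
    refine le_of_tendsto_of_tendsto (hlimF ⟨4, C4⟩) h2 ?_
    filter_upwards [hφt.eventually_ge_atTop 1] with j hj
    exact bb_C4 _ hj

section integrals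

variable (K : ℝ → ℝ → ℝ≥0∞) (hK : Measurable (Function.uncurry K))

include hK

lemma int2 : ∫⁻ x in Set.univ.pi (fun _ : Fin 2 => Set.Icc (0 : ℝ) 1),
    ∏ i : Fin 2, ∏ j : Fin 2, (if i < j ∧ (⊤ : SimpleGraph (Fin 2)).Adj i j then
      K (x i) (x j) else 1) = ∫⁻ a, ∫⁻ b, K a b ∂mu ∂mu := by
  have h1 : ∀ x : Fin 2 → ℝ, ∏ i : Fin 2, ∏ j : Fin 2,
      (if i < j ∧ (⊤ : SimpleGraph (Fin 2)).Adj i j then K (x i) (x j) else 1) =
      K (x 0) (x 1) := by
    intro x
    simp [Fin.prod_univ_two]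
  simp only [h1]
  rw [pi_restrict, lint_succ]
  · apply lintegral_congr
    intro a
    rw [lint_succ]
    · apply lintegral_congr
      intro b
      exact (lintegral_congr (fun y => rfl)).trans (lint_zero (K a b))
    · exact hK.comp (Measurable.prodMk measurable_const (measurable_pi_apply _))
  · exact hK.comp (Measurable.prodMk (measurable_pi_apply _) (measurable_pi_apply _))

lemma int3 : ∫⁻ x in Set.univ.pi (fun _ : Fin 3 => Set.Icc (0 : ℝ) 1),
    ∏ i : Fin 3, ∏ j : Fin 3, (if i < j ∧ (⊤ : SimpleGraph (Fin 3)).Adj i j then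
      K (x i) (x j) else 1) =
      ∫⁻ a, ∫⁻ b, K a b * (∫⁻ c, K a c * K b c ∂mu) ∂mu ∂mu := by
  have h1 : ∀ x : Fin 3 → ℝ, ∏ i : Fin 3, ∏ j : Fin 3,
      (if i < j ∧ (⊤ : SimpleGraph (Fin 3)).Adj i j then K (x i) (x j) else 1) =
      K (x 0) (x 1) * (K (x 0) (x 2) * K (x 1) (x 2)) := by
    intro x
    simp [Fin.prod_univ_three, mul_assoc]
  simp only [h1]
  have hm : Measurable (fun x : Fin 3 → ℝ => K (x 0) (x 1) * (K (x 0) (x 2) * K (x 1) (x 2))) := by
    apply Measurable.mul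
    · exact hK.comp (Measurable.prodMk (measurable_pi_apply _) (measurable_pi_apply _))
    · apply Measurable.mul
      · exact hK.comp (Measurable.prodMk (measurable_pi_apply _) (measurable_pi_apply _))
      · exact hK.comp (Measurable.prodMk (measurable_pi_apply _) (measurable_pi_apply _))
  rw [pi_restrict, lint_succ _ hm]
  apply lintegral_congr
  intro a
  have hm2 : Measurable (fun y : Fin 2 → ℝ => K a (y 0) * (K a (y 1) * K (y 0) (y 1))) := by
    apply Measurable.mul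
    · exact hK.comp (Measurable.prodMk measurable_const (measurable_pi_apply _))
    · apply Measurable.mul
      · exact hK.comp (Measurable.prodMk measurable_const (measurable_pi_apply _))
      · exact hK.comp (Measurable.prodMk (measurable_pi_apply _) (measurable_pi_apply _))
  have e1 : ∀ y : Fin 2 → ℝ, K ((Fin.cons a y : Fin 3 → ℝ) 0) ((Fin.cons a y : Fin 3 → ℝ) 1) *
      (K ((Fin.cons a y : Fin 3 → ℝ) 0) ((Fin.cons a y : Fin 3 → ℝ) 2) *
        K ((Fin.cons a y : Fin 3 → ℝ) 1) ((Fin.cons a y : Fin 3 → ℝ) 2)) =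
      K a (y 0) * (K a (y 1) * K (y 0) (y 1)) := fun y => rfl
  simp only [e1]
  rw [lint_succ _ hm2]
  apply lintegral_congr
  intro b
  have hm3 : Measurable (fun y : Fin 1 → ℝ => K a b * (K a (y 0) * K b (y 0))) := by
    apply Measurable.const_mul
    apply Measurable.mul
    · exact hK.comp (Measurable.prodMk measurable_const (measurable_pi_apply _))
    · exact hK.comp (Measurable.prodMk measurable_const (measurable_pi_apply _))
  have e2 : ∀ y : Fin 1 → ℝ, K a ((Fin.cons b y : Fin 2 → ℝ) 0) *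
      (K a ((Fin.cons b y : Fin 2 → ℝ) 1) *
        K ((Fin.cons b y : Fin 2 → ℝ) 0) ((Fin.cons b y : Fin 2 → ℝ) 1)) =
      K a b * (K a (y 0) * K b (y 0)) := fun y => rfl
  simp only [e2]
  rw [lint_succ _ hm3]
  have e3 : ∀ c : ℝ, ∀ y : Fin 0 → ℝ, K a b * (K a ((Fin.cons c y : Fin 1 → ℝ) 0) *
      K b ((Fin.cons c y : Fin 1 → ℝ) 0)) = K a b * (K a c * K b c) := fun c y => rfl
  simp only [e3, lint_zero]
  rw [lintegral_const_mul]
  apply Measurable.mul
  · exact hK.comp (measurable_prodMk_left)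
  · exact hK.comp (measurable_prodMk_left)

lemma int4 : ∫⁻ x in Set.univ.pi (fun _ : Fin 4 => Set.Icc (0 : ℝ) 1),
    ∏ i : Fin 4, ∏ j : Fin 4, (if i < j ∧ C4.Adj i j then
      K (x i) (x j) else 1) =
      ∫⁻ a, ∫⁻ b, (∫⁻ c, K a c * K b c ∂mu) ^ 2 ∂mu ∂mu := by
  have h1 : ∀ x : Fin 4 → ℝ, ∏ i : Fin 4, ∏ j : Fin 4,
      (if i < j ∧ C4.Adj i j then K (x i) (x j) else 1) =
      (K (x 0) (x 2) * K (x 1) (x 2)) * (K (x 0) (x 3) * K (x 1) (x 3)) := by
    intro x
    have d : ∀ i j : Fin 4, (i < j ∧ C4.Adj i j) ↔ ((i = 0 ∨ i = 1) ∧ (j = 2 ∨ j = 3)) := by decide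
    simp only [d, Fin.prod_univ_four]
    simp
    ring
  simp only [h1]
  have hm : Measurable (fun x : Fin 4 → ℝ =>
      (K (x 0) (x 2) * K (x 1) (x 2)) * (K (x 0) (x 3) * K (x 1) (x 3))) := by
    apply Measurable.mul <;> apply Measurable.mul <;>
    exact hK.comp (Measurable.prodMk (measurable_pi_apply _) (measurable_pi_apply _))
  rw [pi_restrict, lint_succ _ hm]
  apply lintegral_congr
  intro a
  have hm2 : Measurable (fun y : Fin 3 → ℝ =>
      (K a (y 1) * K (y 0) (y 1)) * (K a (y 2) * K (y 0) (y 2))) := by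
    apply Measurable.mul <;> apply Measurable.mul
    · exact hK.comp (Measurable.prodMk measurable_const (measurable_pi_apply _))
    · exact hK.comp (Measurable.prodMk (measurable_pi_apply _) (measurable_pi_apply _))
    · exact hK.comp (Measurable.prodMk measurable_const (measurable_pi_apply _))
    · exact hK.comp (Measurable.prodMk (measurable_pi_apply _) (measurable_pi_apply _))
  have e1 : ∀ y : Fin 3 → ℝ,
      (K ((Fin.cons a y : Fin 4 → ℝ) 0) ((Fin.cons a y : Fin 4 → ℝ) 2) *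
        K ((Fin.cons a y : Fin 4 → ℝ) 1) ((Fin.cons a y : Fin 4 → ℝ) 2)) *
      (K ((Fin.cons a y : Fin 4 → ℝ) 0) ((Fin.cons a y : Fin 4 → ℝ) 3) *
        K ((Fin.cons a y : Fin 4 → ℝ) 1) ((Fin.cons a y : Fin 4 → ℝ) 3)) =
      (K a (y 1) * K (y 0) (y 1)) * (K a (y 2) * K (y 0) (y 2)) := fun y => rfl
  simp only [e1]
  rw [lint_succ _ hm2]
  apply lintegral_congr
  intro b
  have hg : Measurable (fun c : ℝ => K a c * K b c) := by
    apply Measurable.mul <;> exact hK.comp (measurable_prodMk_left)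
  have hm3 : Measurable (fun y : Fin 2 → ℝ =>
      (K a (y 0) * K b (y 0)) * (K a (y 1) * K b (y 1))) :=
    (hg.comp (measurable_pi_apply 0)).mul (hg.comp (measurable_pi_apply 1))
  have e2 : ∀ y : Fin 2 → ℝ,
      (K a ((Fin.cons b y : Fin 3 → ℝ) 1) *
        K ((Fin.cons b y : Fin 3 → ℝ) 0) ((Fin.cons b y : Fin 3 → ℝ) 1)) *
      (K a ((Fin.cons b y : Fin 3 → ℝ) 2) *
        K ((Fin.cons b y : Fin 3 → ℝ) 0) ((Fin.cons b y : Fin 3 → ℝ) 2)) =
      (K a (y 0) * K b (y 0)) * (K a (y 1) * K b (y 1)) := fun y => rfl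
  simp only [e2]
  rw [lint_succ _ hm3]
  have e3 : ∀ c : ℝ, ∀ y : Fin 1 → ℝ,
      (K a ((Fin.cons c y : Fin 2 → ℝ) 0) * K b ((Fin.cons c y : Fin 2 → ℝ) 0)) *
      (K a ((Fin.cons c y : Fin 2 → ℝ) 1) * K b ((Fin.cons c y : Fin 2 → ℝ) 1)) =
      (K a c * K b c) * (K a (y 0) * K b (y 0)) := fun c y => rfl
  simp only [e3]
  have e4 : ∀ c : ℝ, ∫⁻ y : Fin 1 → ℝ, (K a c * K b c) * (K a (y 0) * K b (y 0))
      ∂(Measure.pi (fun _ : Fin 1 => mu)) = (K a c * K b c) * ∫⁻ c, K a c * K b c ∂mu := by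
    intro c
    have hm4 : Measurable (fun y : Fin 1 → ℝ => K a (y 0) * K b (y 0)) :=
      hg.comp (measurable_pi_apply (0 : Fin 1))
    rw [lintegral_const_mul _ hm4]
    congr 1
    rw [lint_succ _ hm4]
    apply lintegral_congr
    intro c'
    exact (lintegral_congr (fun y => rfl)).trans (lint_zero (K a c' * K b c'))
  simp only [e4]
  rw [lintegral_mul_const _ hg, sq]

end integrals

/-- The negation of the preceding statement: If p(n) ≥ n^(-ε) eventually for every ε>0 and every normalized injective-copy count of a fixed graph F in G_n converges to a finite limit, then some nonnegative symmetric measurable kernel on [0,1]² has F-density equal to that limit for every F. -/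
theorem result :
    ¬ (∀ (p : ℕ → ℝ) (G : ∀ n : ℕ, SimpleGraph (Fin n)),
    (∀ n, 0 < p n ∧ p n ≤ 1) →
    (∀ ε : ℝ, 0 < ε → ∀ᶠ n : ℕ in Filter.atTop, (n : ℝ) ^ (-ε) ≤ p n) →
    (∀ (k : ℕ) (F : SimpleGraph (Fin k)) [DecidableRel F.Adj], ∃ c : ℝ, 0 ≤ c ∧
      Filter.Tendsto
        (fun n : ℕ => (Nat.card {f : F →g G n // Function.Injective f} : ℝ) /
          (p n ^ F.edgeFinset.card * (n : ℝ) ^ k))
        Filter.atTop (nhds c)) →
    ∃ κ : ℝ → ℝ → ℝ, Measurable (Function.uncurry κ) ∧ (∀ x y, κ x y = κ y x) ∧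
      (∀ x y, 0 ≤ κ x y) ∧
      ∀ (k : ℕ) (F : SimpleGraph (Fin k)) [DecidableRel F.Adj] (c : ℝ),
        Filter.Tendsto
          (fun n : ℕ => (Nat.card {f : F →g G n // Function.Injective f} : ℝ) /
            (p n ^ F.edgeFinset.card * (n : ℝ) ^ k))
          Filter.atTop (nhds c) →
        (∫⁻ x in Set.univ.pi (fun _ : Fin k => Set.Icc (0 : ℝ) 1),
          ∏ i : Fin k, ∏ j : Fin k,
            (if i < j ∧ F.Adj i j then ENNReal.ofReal (κ (x i) (x j)) else 1))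
          = ENNReal.ofReal c) := by
  intro H
  obtain ⟨p, G, a, hp, heps, hlim, h2, h3, h4⟩ := exists_seq
  obtain ⟨κ, hκm, hκs, hκ0, hκ⟩ := H p G hp heps (by
    intro k F _
    refine ⟨a ⟨k, F⟩, (hlim ⟨k, F⟩).1, ?_⟩
    rw [ES_card]
    exact (hlim ⟨k, F⟩).2)
  have hK : Measurable (Function.uncurry (fun x y => ENNReal.ofReal (κ x y))) :=
    ENNReal.measurable_ofReal.comp hκm
  have e2 := hκ 2 ⊤ (a ⟨2, ⊤⟩) (by rw [ES_card]; exact (hlim ⟨2, ⊤⟩).2)
  have e3 := hκ 3 ⊤ (a ⟨3, ⊤⟩) (by rw [ES_card]; exact (hlim ⟨3, ⊤⟩).2)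
  have e4 := hκ 4 C4 (a ⟨4, C4⟩) (by rw [ES_card]; exact (hlim ⟨4, C4⟩).2)
  have f2 := int2 (fun x y => ENNReal.ofReal (κ x y)) hK
  have f3 := int3 (fun x y => ENNReal.ofReal (κ x y)) hK
  have f4 := int4 (fun x y => ENNReal.ofReal (κ x y)) hK
  have g2 : ∫⁻ a, ∫⁻ b, ENNReal.ofReal (κ a b) ∂mu ∂mu = 1 := by
    rw [← f2, e2, h2, ENNReal.ofReal_one]
  have g4 : ∫⁻ a, ∫⁻ b, (∫⁻ c, ENNReal.ofReal (κ a c) * ENNReal.ofReal (κ b c) ∂mu) ^ 2 ∂mu ∂mu
      ≤ 1 := by
    rw [← f4, e4]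
    calc ENNReal.ofReal (a ⟨4, C4⟩) ≤ ENNReal.ofReal 1 := ENNReal.ofReal_le_ofReal h4
      _ = 1 := ENNReal.ofReal_one
  have g3 := key (fun x y => ENNReal.ofReal (κ x y)) hK (fun x y => by rw [hκs]) g2 g4
  rw [← f3, e3] at g3
  have h5 : ENNReal.ofReal (a ⟨3, ⊤⟩) < 1 := by
    rw [ENNReal.ofReal_lt_one]
    calc a ⟨3, ⊤⟩ ≤ Real.exp (-1) := h3
      _ < 1 := by rw [Real.exp_lt_one_iff]; norm_num
  exact absurd g3 h5.ne

end Pool.Agent.S05900
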