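import Pool.Statements.S05966
-- import your own Pool.Agent.* helpers here

set_option autoImplicit false
open Pool Pool.MP_56ef61_co

namespace Pool.Agent.S05966

/-- The negation of the preceding statement: For every n, colour the edges of K_{n,n-1} with natural numbers so that the edges at each vertex of the n-side get distinct colours. Then some injective choice of partner on the n-side for each vertex of the (n-1)-side uses pairwise distinct colours. -/
theorem result :
    ¬ (∀ (n : ℕ) (c : Fin n → Fin (n - 1) → ℕ),
      (∀ i : Fin n, Function.Injective (c i)) →
      ∃ f : Fin (n - 1) → Fin n,
        Function.Injective f ∧ Function.Injective (fun j : Fin (n - 1) => c (f j) j)) := by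
  intro h
  -- two copies of each of the two perfect matchings of a hexagon
  obtain ⟨f, hf, hg⟩ := h 4 (fun i j => if i.val < 2 then j.val else (j.val + 1) % 3) (by decide)
  have key : ∀ f : Fin 3 → Fin 4, Function.Injective f →
      ¬ Function.Injective (fun j : Fin 3 =>
        (if (f j).val < 2 then j.val else (j.val + 1) % 3 : ℕ)) := by decide
  exact key f hf hg

end Pool.Agent.S05966
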