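import Pool.Statements.S05986
-- import your own Pool.Agent.* helpers here

set_option autoImplicit false
open Pool Pool.MP_5833ce_co

namespace Pool.Agent.S05986

/-- Adjacency matrix of the graph, stored in the bits of a natural number. -/
def adj (v w : Fin 16) : Bool := Nat.testBit 24418180062267358433718826256851686830025958203902074893127882911555980112112 (16 * v.val + w.val)

/-- The sixteen vectors in `F_3^7`, stored in base `3`. -/
def X (v : Fin 16) (j : Fin 7) : ZMod 3 :=
  (((212958059419428863903635985623098276666568982769375720 / 3 ^ (7 * v.val + j.val)) % 3 : ℕ) : ZMod 3)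

/-- The diagonal form `x₀² + ... + x₅² + 2 x₆²`. -/
def dg (j : Fin 7) : ZMod 3 := if j = 6 then 2 else 1

theorem adj_symm : ∀ v w : Fin 16, adj v w = adj w v := by decide +kernel

theorem adj_irrefl : ∀ v : Fin 16, adj v v = false := by decide +kernel

def G : SimpleGraph (Fin 16) where
  Adj v w := adj v w = true
  symm := ⟨fun v w h => by rw [adj_symm]; exact h⟩
  loopless := ⟨fun v h => by rw [adj_irrefl] at h; exact Bool.noConfusion h⟩

instance : DecidableRel G.Adj := fun v w => by
  show Decidable (adj v w = true); infer_instance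

theorem gram : ∀ v w : Fin 16,
    (∑ j : Fin 7, dg j * X v j * X w j) = (if v = w then 1 else 0) + (if adj v w then 1 else 0) := by
  decide +kernel

theorem hits : ∀ y0 y1 y2 y3 y4 y5 y6 : ZMod 3, ∃ v : Fin 16,
    dg 0 * X v 0 * y0 + dg 1 * X v 1 * y1 + dg 2 * X v 2 * y2 + dg 3 * X v 3 * y3 +
      dg 4 * X v 4 * y4 + dg 5 * X v 5 * y5 + dg 6 * X v 6 * y6 = 0 := by
  decide +kernel

theorem closed_sum (f : Fin 16 → ZMod 3) (v : Fin 16) :
    f v + ∑ w ∈ G.neighborFinset v, f w =
      ∑ j : Fin 7, dg j * X v j * (∑ w : Fin 16, X w j * f w) := by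
  have h1 : ∑ j : Fin 7, dg j * X v j * (∑ w : Fin 16, X w j * f w) =
      ∑ w : Fin 16, (∑ j : Fin 7, dg j * X v j * X w j) * f w := by
    simp only [Finset.mul_sum, Finset.sum_mul]
    rw [Finset.sum_comm]
    refine Finset.sum_congr rfl (fun w _ => Finset.sum_congr rfl (fun j _ => ?_))
    ring
  have h2 : ∑ w : Fin 16, (∑ j : Fin 7, dg j * X v j * X w j) * f w =
      ∑ w : Fin 16, ((if v = w then f w else 0) + (if adj v w = true then f w else 0)) := by
    refine Finset.sum_congr rfl (fun w _ => ?_)
    rw [gram v w, add_mul, ite_mul, ite_mul, one_mul, zero_mul]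
  rw [h1, h2, Finset.sum_add_distrib, Finset.sum_ite_eq, if_pos (Finset.mem_univ v),
    ← Finset.sum_filter]
  have h3 : G.neighborFinset v = Finset.univ.filter (fun w => adj v w = true) := by
    ext w
    rw [SimpleGraph.mem_neighborFinset, Finset.mem_filter]
    exact ⟨fun h => ⟨Finset.mem_univ w, h⟩, fun h => h.2⟩
  rw [h3]

/-- The negation of the preceding statement: For every k ≥ 2 and every finite simple graph, some labeling of the vertices by integers mod k makes the sum of labels over each vertex's closed neighbourhood nonzero mod k. -/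
theorem result :
    ¬ (∀ k : ℕ, 2 ≤ k →
      ∀ (V : Type) [Fintype V] (G : SimpleGraph V) [DecidableRel G.Adj],
        ∃ f : V → ZMod k, ∀ v : V, f v + ∑ w ∈ G.neighborFinset v, f w ≠ 0) := by
  intro H
  obtain ⟨f, hf⟩ := H 3 (by norm_num) (Fin 16) G
  obtain ⟨v, hv⟩ := hits (∑ w : Fin 16, X w 0 * f w) (∑ w : Fin 16, X w 1 * f w)
    (∑ w : Fin 16, X w 2 * f w) (∑ w : Fin 16, X w 3 * f w) (∑ w : Fin 16, X w 4 * f w)
    (∑ w : Fin 16, X w 5 * f w) (∑ w : Fin 16, X w 6 * f w)
  apply hf v
  rw [closed_sum, Fin.sum_univ_seven]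
  exact hv

end Pool.Agent.S05986
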