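import Pool.Statements.S06012
-- import your own Pool.Agent.* helpers here

set_option autoImplicit false
open Pool Pool.MP_598d99_co

namespace Pool.Agent.S06012

/-- vertex `0` is joined to all other vertices and `{1,2,3,4}` is a clique -/
def col (S : Finset (Fin 12)) : Fin 2 := if 0 ∈ S ∨ S ⊆ {1,2,3,4} then 1 else 0

def cnt (T : Finset (Fin 12)) : ℕ := ((T.powersetCard 2).filter (fun S => col S = 1)).card

theorem col_eq_one (S : Finset (Fin 12)) : col S = 1 ↔ (0 ∈ S ∨ S ⊆ {1,2,3,4}) := by
  unfold col
  split_ifs with h
  · simp [h]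
  · simp [h]

theorem cnt_eq (T : Finset (Fin 12)) :
    cnt T = (if 0 ∈ T then T.card - 1 else 0) + (T ∩ {1,2,3,4}).card.choose 2 := by
  have h1 : (T.powersetCard 2).filter (fun S => col S = 1) =
      (T.powersetCard 2).filter (fun S => 0 ∈ S) ∪
        (T.powersetCard 2).filter (fun S => S ⊆ {1,2,3,4}) := by
    rw [← Finset.filter_or]
    exact Finset.filter_congr (fun S _ => col_eq_one S)
  have h2 : Disjoint ((T.powersetCard 2).filter (fun S => 0 ∈ S))
      ((T.powersetCard 2).filter (fun S => S ⊆ ({1,2,3,4} : Finset (Fin 12)))) := by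
    apply Finset.disjoint_filter.mpr
    intro S _ h0 hS
    exact absurd (hS h0) (by decide)
  have h3 : (T.powersetCard 2).filter (fun S => S ⊆ ({1,2,3,4} : Finset (Fin 12))) =
      (T ∩ {1,2,3,4}).powersetCard 2 := by
    ext S
    simp only [Finset.mem_filter, Finset.mem_powersetCard, Finset.subset_inter_iff]
    tauto
  have h4 : ((T.powersetCard 2).filter (fun S => 0 ∈ S)).card =
      if 0 ∈ T then T.card - 1 else 0 := by
    split_ifs with h0
    · have : (T.powersetCard 2).filter (fun S => 0 ∈ S) =
          (T.erase 0).image (fun x => ({0, x} : Finset (Fin 12))) := by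
        ext S
        simp only [Finset.mem_filter, Finset.mem_powersetCard, Finset.mem_image, Finset.mem_erase]
        constructor
        · rintro ⟨⟨hST, hc⟩, h0S⟩
          have : (S.erase 0).card = 1 := by rw [Finset.card_erase_of_mem h0S, hc]
          obtain ⟨x, hx⟩ := Finset.card_eq_one.mp this
          have hxS : x ∈ S.erase 0 := by rw [hx]; exact Finset.mem_singleton_self x
          refine ⟨x, ⟨(Finset.mem_erase.mp hxS).1, hST (Finset.mem_erase.mp hxS).2⟩, ?_⟩
          rw [← Finset.insert_erase h0S, hx]
        · rintro ⟨x, ⟨hx0, hxT⟩, rfl⟩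
          refine ⟨⟨?_, Finset.card_pair (Ne.symm hx0)⟩, Finset.mem_insert_self _ _⟩
          intro y hy
          rcases Finset.mem_insert.mp hy with rfl | hy
          · exact h0
          · rw [Finset.mem_singleton.mp hy]; exact hxT
      rw [this, Finset.card_image_of_injOn, Finset.card_erase_of_mem h0]
      intro x hx y hy hxy
      have hx0 : x ≠ 0 := (Finset.mem_erase.mp hx).1
      have hxm : x ∈ ({0, y} : Finset (Fin 12)) := by
        have : ({0, x} : Finset (Fin 12)) = {0, y} := hxy
        rw [← this]; simp
      rcases Finset.mem_insert.mp hxm with h | h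
      · exact absurd h hx0
      · exact Finset.mem_singleton.mp h
    · rw [Finset.card_eq_zero, Finset.filter_eq_empty_iff]
      intro S hS h0S
      exact h0 ((Finset.mem_powersetCard.mp hS).1 h0S)
  unfold cnt
  rw [h1, Finset.card_union_of_disjoint h2, h3, h4, Finset.card_powersetCard]

theorem upper : ∀ T ∈ (Finset.univ : Finset (Fin 12)).powersetCard 6,
    cnt T ∈ ({0,1,3,5,6,8,11} : Finset ℕ) := by
  intro T hT
  have hc : T.card = 6 := (Finset.mem_powersetCard.mp hT).2
  have hK : (T ∩ {1,2,3,4}).card ≤ 4 := by
    refine (Finset.card_le_card Finset.inter_subset_right).trans ?_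
    decide
  rw [cnt_eq, hc]
  generalize (T ∩ {1,2,3,4}).card = i at hK
  interval_cases i <;> split_ifs <;> decide

theorem lower : ∀ k ∈ ({0,1,3,4,5,6,7,10} : Finset ℕ),
    ∃ T ∈ ([{5,6,7,8,9}, {1,2,5,6,7}, {1,2,3,5,6}, {0,5,6,7,8}, {0,1,2,5,6}, {1,2,3,4,5},
      {0,1,2,3,5}, {0,1,2,3,4}] : List (Finset (Fin 12))), T.card = 5 ∧ cnt T = k := by
  simp only [cnt_eq]
  decide +kernel

theorem zero_one (T : Finset (Fin 12)) (h : T.card = 6) :
    ((T.powersetCard 2).filter (fun S => col S = 0)).card = 15 - cnt T := by
  have h1 : ((T.powersetCard 2).filter (fun S => col S = 1)).card +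
      ((T.powersetCard 2).filter (fun S => ¬ col S = 1)).card = (T.powersetCard 2).card :=
    Finset.card_filter_add_card_filter_not _
  have h2 : (T.powersetCard 2).card = 15 := by
    rw [Finset.card_powersetCard, h]; rfl
  have h3 : ((T.powersetCard 2).filter (fun S => ¬ col S = 1)) =
      ((T.powersetCard 2).filter (fun S => col S = 0)) := by
    apply Finset.filter_congr
    intro S _
    have : ∀ x : Fin 2, ¬ x = 1 ↔ x = 0 := by decide
    exact this _
  rw [h3, h2] at h1
  unfold cnt
  omega

/-- The negation of the preceding statement: For any colouring of the s-subsets of an N-set with m colours, when s ≤ t and t+1 ≤ N/2, the number of distinct colour-count vectors of t-subsets is at most that of (t+1)-subsets. -/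
theorem result :
    ¬ (∀ (N s m : ℕ) (c : Finset (Fin N) → Fin m) (t : ℕ),
      s ≤ t → 2 * (t + 1) ≤ N →
        (((Finset.univ : Finset (Fin N)).powersetCard t).image
            (fun T : Finset (Fin N) => fun i : Fin m =>
              ((T.powersetCard s).filter (fun S => c S = i)).card)).card
        ≤
        (((Finset.univ : Finset (Fin N)).powersetCard (t + 1)).image
            (fun T : Finset (Fin N) => fun i : Fin m =>
              ((T.powersetCard s).filter (fun S => c S = i)).card)).card) := by
  intro H
  have h := H 12 2 2 col 5 (by norm_num) (by norm_num)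
  have hup : (((Finset.univ : Finset (Fin 12)).powersetCard (5 + 1)).image
            (fun T : Finset (Fin 12) => fun i : Fin 2 =>
              ((T.powersetCard 2).filter (fun S => col S = i)).card)).card ≤ 7 := by
    have hsub : (((Finset.univ : Finset (Fin 12)).powersetCard (5 + 1)).image
            (fun T : Finset (Fin 12) => fun i : Fin 2 =>
              ((T.powersetCard 2).filter (fun S => col S = i)).card)) ⊆
        ({0,1,3,5,6,8,11} : Finset ℕ).image (fun e => fun i : Fin 2 => if i = 1 then e else 15 - e) := by
      intro g hg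
      obtain ⟨T, hT, rfl⟩ := Finset.mem_image.mp hg
      refine Finset.mem_image.mpr ⟨cnt T, upper T hT, ?_⟩
      funext i
      have hc : T.card = 6 := (Finset.mem_powersetCard.mp hT).2
      fin_cases i
      · exact (zero_one T hc).symm
      · rfl
    refine (Finset.card_le_card hsub).trans (Finset.card_image_le.trans ?_)
    decide
  have hlow : 8 ≤ (((Finset.univ : Finset (Fin 12)).powersetCard 5).image
            (fun T : Finset (Fin 12) => fun i : Fin 2 =>
              ((T.powersetCard 2).filter (fun S => col S = i)).card)).card := by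
    have hsub : ({0,1,3,4,5,6,7,10} : Finset ℕ) ⊆
        ((((Finset.univ : Finset (Fin 12)).powersetCard 5).image
            (fun T : Finset (Fin 12) => fun i : Fin 2 =>
              ((T.powersetCard 2).filter (fun S => col S = i)).card))).image (fun g => g 1) := by
      intro k hk
      obtain ⟨T, -, hT, rfl⟩ := lower k hk
      refine Finset.mem_image.mpr ⟨_, Finset.mem_image_of_mem _
        (Finset.mem_powersetCard.mpr ⟨Finset.subset_univ T, hT⟩), rfl⟩
    have h8 : ({0,1,3,4,5,6,7,10} : Finset ℕ).card = 8 := by decide
    rw [← h8]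
    exact (Finset.card_le_card hsub).trans Finset.card_image_le
  omega

end Pool.Agent.S06012
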