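import Pool.Statements.S06025
import Pool.Agent.H12Free

set_option autoImplicit false
open Pool Pool.MP_5a7c5b_co

namespace Pool.Agent.S06025

/-- The free group on two generators can be colored with finitely many colors so that no infinite set A with A = g A⁻¹ g (for some g) is monochromatic. -/
theorem result :
    ∃ k : ℕ, ∃ c : FreeGroup (Fin 2) → Fin k,
      ∀ A : Set (FreeGroup (Fin 2)), A.Infinite →
        (∃ g : FreeGroup (Fin 2), A = (fun a => g * a⁻¹ * g) '' A) →
          ¬ ∃ i : Fin k, ∀ a ∈ A, c a = i :=
  Pool.Agent.H12Free.main

end Pool.Agent.S06025
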