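import Pool.Statements.S06124
import Pool.Agent.H12Shadow
-- import your own Pool.Agent.* helpers here

set_option autoImplicit false
open Pool Pool.MP_5f55dc_co

namespace Pool.Agent.S06124

/-- The negation of the preceding statement: If G is the graph of a 3-polytope, C a cycle in G of length n, and F a convex n-gon in the plane, then some 3-polytope with graph G projects onto F, and the part lying over F's boundary is exactly the edges of C. -/
theorem result :
    ¬ (∀ (V : Type) [Fintype V] [DecidableEq V] (G : SimpleGraph V),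
      (∃ g : V → (Fin 3 → ℝ), Function.Injective g ∧
        (interior (convexHull ℝ (Set.range g))).Nonempty ∧
        (∀ v, g v ∈ Set.extremePoints ℝ (convexHull ℝ (Set.range g))) ∧
        (∀ u v, G.Adj u v ↔
          (u ≠ v ∧ IsExtreme ℝ (convexHull ℝ (Set.range g)) (segment ℝ (g u) (g v))))) →
      ∀ (v : V) (c : G.Walk v v), c.IsCycle →
      ∀ (T : Finset (Fin 2 → ℝ)), T.card = c.length →
        (∀ t ∈ T, t ∉ convexHull ℝ ((T : Set (Fin 2 → ℝ)) \ {t})) →
        ∃ f : V → (Fin 3 → ℝ), Function.Injective f ∧
          (interior (convexHull ℝ (Set.range f))).Nonempty ∧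
          (∀ w, f w ∈ Set.extremePoints ℝ (convexHull ℝ (Set.range f))) ∧
          (∀ u w, G.Adj u w ↔
            (u ≠ w ∧ IsExtreme ℝ (convexHull ℝ (Set.range f)) (segment ℝ (f u) (f w)))) ∧
          (fun p : Fin 3 → ℝ => ![p 0, p 1]) '' convexHull ℝ (Set.range f)
            = convexHull ℝ (T : Set (Fin 2 → ℝ)) ∧
          ((fun p : Fin 3 → ℝ => ![p 0, p 1]) ⁻¹' frontier (convexHull ℝ (T : Set (Fin 2 → ℝ))))
              ∩ convexHull ℝ (Set.range f)
            = ⋃ d ∈ c.darts, segment ℝ (f d.fst) (f d.snd)) := by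
  exact Pool.Agent.H12Shadow.main

end Pool.Agent.S06124
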