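import Pool.Statements.S06217

set_option autoImplicit false
open Pool Pool.MP_63a4dd_co

namespace Pool.Agent.S06217

/-- The finite conditions: no triangle, no four-cycle, few back neighbours from `m` on. -/
structure Good (m : ℕ) (G : SimpleGraph ℕ) : Prop where
  tri : ∀ a b c, G.Adj a b → G.Adj b c → ¬ G.Adj a c
  uniq : ∀ a b x y, a ≠ b → G.Adj a x → G.Adj b x → G.Adj a y → G.Adj b y → x = y
  back : ∀ x y z w, m ≤ x → y < x → z < x → w < x → G.Adj x y → G.Adj x z → G.Adj x w →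
    y = z ∨ y = w ∨ z = w

/-- Add a new vertex `N` joined to `a` and `b`. -/
def join (G : SimpleGraph ℕ) (N a b : ℕ) (ha : a < N) (hb : b < N) : SimpleGraph ℕ where
  Adj x y := G.Adj x y ∨ (x = N ∧ (y = a ∨ y = b)) ∨ (y = N ∧ (x = a ∨ x = b))
  symm := ⟨by
    rintro x y (h | h | h)
    · exact Or.inl h.symm
    · exact Or.inr (Or.inr h)
    · exact Or.inr (Or.inl h)⟩
  loopless := ⟨by
    rintro x (h | ⟨h, h' | h'⟩ | ⟨h, h' | h'⟩)
    · exact G.irrefl h
    all_goals omega⟩

lemma join_adj (G : SimpleGraph ℕ) (N a b : ℕ) (ha : a < N) (hb : b < N) (x y : ℕ) :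
    (join G N a b ha hb).Adj x y ↔
      (G.Adj x y ∨ (x = N ∧ (y = a ∨ y = b)) ∨ (y = N ∧ (x = a ∨ x = b))) := Iff.rfl

lemma join_good {m : ℕ} {G : SimpleGraph ℕ} (hG : Good m G) (N a b : ℕ) (ha : a < N) (hb : b < N)
    (hm : m ≤ N) (hN : ∀ x, ¬ G.Adj N x) (hab : a ≠ b → ¬ G.Adj a b ∧ ∀ c, ¬ (G.Adj a c ∧ G.Adj b c)) :
    Good m (join G N a b ha hb) := by
  have hN' : ∀ x, ¬ G.Adj x N := fun x h => hN x h.symm
  have aN : a ≠ N := by omega
  have bN : b ≠ N := by omega
  -- adjacency away from N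
  have e1 : ∀ x y, x ≠ N → y ≠ N → ((join G N a b ha hb).Adj x y ↔ G.Adj x y) := by
    intro x y hx hy
    rw [join_adj]
    simp [hx, hy]
  have e2 : ∀ y, (join G N a b ha hb).Adj N y ↔ (y = a ∨ y = b) := by
    intro y
    rw [join_adj]
    constructor
    · rintro (h | ⟨_, h⟩ | ⟨_, h⟩)
      · exact absurd h (hN y)
      · exact h
      · rcases h with h | h <;> omega
    · intro h
      exact Or.inr (Or.inl ⟨rfl, h⟩)
  have e3 : ∀ y, (join G N a b ha hb).Adj y N ↔ (y = a ∨ y = b) := by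
    intro y
    rw [SimpleGraph.adj_comm, e2]
  refine ⟨?_, ?_, ?_⟩
  · intro x y z h1 h2 h3
    by_cases hx : x = N
    · subst hx
      rw [e2] at h1 h3
      have hyN : y ≠ x := by rcases h1 with h | h <;> omega
      have hzN : z ≠ x := by rcases h3 with h | h <;> omega
      rw [e1 _ _ hyN hzN] at h2
      have hyz : y ≠ z := h2.ne
      rcases h1 with rfl | rfl <;> rcases h3 with rfl | rfl
      · exact hyz rfl
      · exact (hab hyz).1 h2
      · exact (hab hyz.symm).1 h2.symm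
      · exact hyz rfl
    · by_cases hy : y = N
      · subst hy
        rw [e3] at h1
        rw [e2] at h2
        have hzN : z ≠ y := by rcases h2 with h | h <;> omega
        rw [e1 _ _ hx hzN] at h3
        have hxz : x ≠ z := h3.ne
        rcases h1 with rfl | rfl <;> rcases h2 with rfl | rfl
        · exact hxz rfl
        · exact (hab hxz).1 h3
        · exact (hab hxz.symm).1 h3.symm
        · exact hxz rfl
      · by_cases hz : z = N
        · subst hz
          rw [e3] at h2 h3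
          rw [e1 _ _ hx hy] at h1
          have hxy : x ≠ y := h1.ne
          rcases h3 with rfl | rfl <;> rcases h2 with rfl | rfl
          · exact hxy rfl
          · exact (hab hxy).1 h1
          · exact (hab hxy.symm).1 h1.symm
          · exact hxy rfl
        · rw [e1 _ _ hx hy] at h1
          rw [e1 _ _ hy hz] at h2
          rw [e1 _ _ hx hz] at h3
          exact hG.tri x y z h1 h2 h3
  · intro s t x y hst h1 h2 h3 h4
    by_cases hs : s = N
    · subst hs
      have ht : t ≠ s := hst.symm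
      rw [e2] at h1 h3
      have hxN : x ≠ s := by rcases h1 with h | h <;> omega
      have hyN : y ≠ s := by rcases h3 with h | h <;> omega
      rw [e1 _ _ ht hxN] at h2
      rw [e1 _ _ ht hyN] at h4
      by_contra hxy
      rcases h1 with rfl | rfl <;> rcases h3 with rfl | rfl
      · exact hxy rfl
      · exact (hab hxy).2 t ⟨h2.symm, h4.symm⟩
      · exact (hab (Ne.symm hxy)).2 t ⟨h4.symm, h2.symm⟩
      · exact hxy rfl
    · by_cases ht : t = N
      · subst ht
        rw [e2] at h2 h4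
        have hxN : x ≠ t := by rcases h2 with h | h <;> omega
        have hyN : y ≠ t := by rcases h4 with h | h <;> omega
        rw [e1 _ _ hs hxN] at h1
        rw [e1 _ _ hs hyN] at h3
        by_contra hxy
        rcases h2 with rfl | rfl <;> rcases h4 with rfl | rfl
        · exact hxy rfl
        · exact (hab hxy).2 s ⟨h1.symm, h3.symm⟩
        · exact (hab (Ne.symm hxy)).2 s ⟨h3.symm, h1.symm⟩
        · exact hxy rfl
      · by_cases hx : x = N
        · subst hx
          rw [e3] at h1 h2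
          by_cases hy : y = x
          · exact hy.symm
          · exfalso
            rw [e1 _ _ hs hy] at h3
            rw [e1 _ _ ht hy] at h4
            rcases h1 with rfl | rfl <;> rcases h2 with rfl | rfl
            · exact hst rfl
            · exact (hab hst).2 y ⟨h3, h4⟩
            · exact (hab hst.symm).2 y ⟨h4, h3⟩
            · exact hst rfl
        · rw [e1 _ _ hs hx] at h1
          rw [e1 _ _ ht hx] at h2
          by_cases hy : y = N
          · subst hy
            exfalso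
            rw [e3] at h3 h4
            rcases h3 with rfl | rfl <;> rcases h4 with rfl | rfl
            · exact hst rfl
            · exact (hab hst).2 x ⟨h1, h2⟩
            · exact (hab hst.symm).2 x ⟨h2, h1⟩
            · exact hst rfl
          · rw [e1 _ _ hs hy] at h3
            rw [e1 _ _ ht hy] at h4
            exact hG.uniq s t x y hst h1 h2 h3 h4
  · intro x y z w hmx hy hz hw h1 h2 h3
    by_cases hx : x = N
    · subst hx
      rw [e2] at h1 h2 h3
      omega
    · by_cases hxN : x < N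
      · rw [e1 _ _ hx (by omega)] at h1 h2 h3
        exact hG.back x y z w hmx hy hz hw h1 h2 h3
      · have hgt : N < x := by omega
        -- x is above N: it has no new neighbours
        have hh : ∀ v, (join G N a b ha hb).Adj x v → G.Adj x v := by
          intro v hv
          rw [join_adj] at hv
          rcases hv with h | ⟨h, _⟩ | ⟨_, h⟩
          · exact h
          · exact absurd h hx
          · omega
        exact hG.back x y z w hmx hy hz hw (hh _ h1) (hh _ h2) (hh _ h3)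

/-- The conditions. -/
def Cond (m : ℕ) : Type := {G : SimpleGraph ℕ // Good m G ∧ ∃ n, ∀ x y, G.Adj x y → x < n}

instance (m : ℕ) : Preorder (Cond m) := Subtype.preorder _

/-- Dense sets. -/
def Met (G : SimpleGraph ℕ) (i : ℕ × ℕ) : Prop :=
  (i.1 = i.2 ∨ G.Adj i.1 i.2 ∨ ∃ c, G.Adj i.1 c ∧ G.Adj i.2 c) ∧ ∃ b, i.2 ≤ b ∧ G.Adj i.1 b

lemma met_cofinal (m : ℕ) (i : ℕ × ℕ) : IsCofinal {p : Cond m | Met p.1 i} := by
  rintro ⟨G, hG, n, hn⟩
  obtain ⟨a, b⟩ := i
  -- first step
  have step1 : ∃ G' : SimpleGraph ℕ, G ≤ G' ∧ Good m G' ∧ (∃ n, ∀ x y, G'.Adj x y → x < n) ∧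
      (a = b ∨ G'.Adj a b ∨ ∃ c, G'.Adj a c ∧ G'.Adj b c) := by
    by_cases h : a = b ∨ G.Adj a b ∨ ∃ c, G.Adj a c ∧ G.Adj b c
    · exact ⟨G, le_rfl, hG, ⟨n, hn⟩, h⟩
    · push Not at h
      obtain ⟨h1, h2, h3⟩ := h
      set N := n + m + a + b + 1 with hN
      have hNa : ∀ x, ¬ G.Adj N x := fun x hx => by
        have := hn N x hx
        omega
      refine ⟨join G N a b (by omega) (by omega), ?_, ?_, ⟨N + 1, ?_⟩, Or.inr (Or.inr ⟨N, ?_, ?_⟩)⟩
      · intro x y hxy
        exact Or.inl hxy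
      · refine join_good hG N a b _ _ (by omega) hNa (fun _ => ⟨h2, fun c hc => h3 c hc.1 hc.2⟩)
      · rintro x y (h | ⟨h, _⟩ | ⟨_, h⟩)
        · have := hn x y h
          omega
        · omega
        · omega
      · exact Or.inr (Or.inr ⟨rfl, Or.inl rfl⟩)
      · exact Or.inr (Or.inr ⟨rfl, Or.inr rfl⟩)
  obtain ⟨G', hGG', hG', ⟨n', hn'⟩, hmet⟩ := step1
  set N := n' + m + a + b + 1 with hN
  have hNa : ∀ x, ¬ G'.Adj N x := fun x hx => by
    have := hn' N x hx
    omega
  have hle : G' ≤ join G' N a a (by omega) (by omega) := by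
    intro x y hxy
    exact Or.inl hxy
  refine ⟨⟨join G' N a a (by omega) (by omega), ?_, N + 1, ?_⟩, ?_, ?_⟩
  · exact join_good hG' N a a _ _ (by omega) hNa (fun h => absurd rfl h)
  · rintro x y (h | ⟨h, _⟩ | ⟨_, h⟩)
    · have := hn' x y h
      omega
    · omega
    · omega
  · refine ⟨?_, N, by omega, Or.inr (Or.inr ⟨rfl, Or.inl rfl⟩)⟩
    rcases hmet with h | h | ⟨c, h1, h2⟩
    · exact Or.inl h
    · exact Or.inr (Or.inl (hle h))
    · exact Or.inr (Or.inr ⟨c, hle h1, hle h2⟩)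
  · exact hGG'.trans hle

/-- The completion. -/
theorem exists_tied (m : ℕ) (G0 : SimpleGraph ℕ) (hG0 : Good m G0)
    (hfin : ∃ n, ∀ x y, G0.Adj x y → x < n) :
    ∃ G : SimpleGraph ℕ, G0 ≤ G ∧ Good m G ∧
      (∀ a b, a = b ∨ G.Adj a b ∨ ∃ c, G.Adj a c ∧ G.Adj b c) ∧
      (∀ a k, ∃ b, k ≤ b ∧ G.Adj a b) := by
  let D : ℕ × ℕ → Order.Cofinal (Cond m) := fun i => ⟨{p : Cond m | Met p.1 i}, met_cofinal m i⟩
  let s := Order.sequenceOfCofinals (⟨G0, hG0, hfin⟩ : Cond m) D
  have hmono : Monotone s := Order.sequenceOfCofinals.monotone _ _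
  have hmono' : ∀ i j, i ≤ j → ∀ x y, (s i).1.Adj x y → (s j).1.Adj x y := by
    intro i j hij x y h
    exact (hmono hij) h
  have hmet : ∀ i : ℕ × ℕ, Met (s (Encodable.encode i + 1)).1 i := fun i =>
    Order.sequenceOfCofinals.encode_mem (⟨G0, hG0, hfin⟩ : Cond m) D i
  let G : SimpleGraph ℕ :=
    { Adj := fun x y => ∃ k, (s k).1.Adj x y
      symm := ⟨by
        rintro x y ⟨k, hk⟩
        exact ⟨k, hk.symm⟩⟩
      loopless := ⟨by
        rintro x ⟨k, hk⟩
        exact (s k).1.irrefl hk⟩ }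
  refine ⟨G, ?_, ⟨?_, ?_, ?_⟩, ?_, ?_⟩
  · intro x y h
    exact ⟨0, h⟩
  · rintro a b c ⟨i, hi⟩ ⟨j, hj⟩ ⟨k, hk⟩
    have h1 := hmono' i (i + j + k) (by omega) _ _ hi
    have h2 := hmono' j (i + j + k) (by omega) _ _ hj
    have h3 := hmono' k (i + j + k) (by omega) _ _ hk
    exact (s (i + j + k)).2.1.tri a b c h1 h2 h3
  · rintro a b x y hab ⟨i, hi⟩ ⟨j, hj⟩ ⟨k, hk⟩ ⟨l, hl⟩
    have h1 := hmono' i (i + j + k + l) (by omega) _ _ hi
    have h2 := hmono' j (i + j + k + l) (by omega) _ _ hj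
    have h3 := hmono' k (i + j + k + l) (by omega) _ _ hk
    have h4 := hmono' l (i + j + k + l) (by omega) _ _ hl
    exact (s (i + j + k + l)).2.1.uniq a b x y hab h1 h2 h3 h4
  · rintro x y z w hm hy hz hw ⟨i, hi⟩ ⟨j, hj⟩ ⟨k, hk⟩
    have h1 := hmono' i (i + j + k) (by omega) _ _ hi
    have h2 := hmono' j (i + j + k) (by omega) _ _ hj
    have h3 := hmono' k (i + j + k) (by omega) _ _ hk
    exact (s (i + j + k)).2.1.back x y z w hm hy hz hw h1 h2 h3
  · intro a b
    rcases (hmet (a, b)).1 with h | h | ⟨c, h1, h2⟩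
    · exact Or.inl h
    · exact Or.inr (Or.inl ⟨_, h⟩)
    · exact Or.inr (Or.inr ⟨c, ⟨_, h1⟩, ⟨_, h2⟩⟩)
  · intro a k
    obtain ⟨b, hb, h⟩ := (hmet (a, k)).2
    exact ⟨b, hb, _, h⟩

lemma degree_aleph {G : SimpleGraph ℕ} (h : ∀ a k, ∃ b, k ≤ b ∧ G.Adj a b) (v : ℕ) :
    Cardinal.mk (G.neighborSet v) = Cardinal.aleph0 := by
  have hinf : (G.neighborSet v).Infinite := by
    intro hfin
    obtain ⟨M, hM⟩ := hfin.bddAbove
    obtain ⟨b, hb, hadj⟩ := h v (M + 1)
    have : b ≤ M := hM hadj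
    omega
  have : Infinite (G.neighborSet v) := hinf.to_subtype
  exact Cardinal.mk_eq_aleph0 _

lemma ediam_two {m : ℕ} {G : SimpleGraph ℕ} (hG : Good m G)
    (h1 : ∀ a b, a = b ∨ G.Adj a b ∨ ∃ c, G.Adj a c ∧ G.Adj b c)
    (h2 : ∀ a k, ∃ b, k ≤ b ∧ G.Adj a b) : G.ediam = ((2 : ℕ) : ℕ∞) := by
  apply le_antisymm
  · apply SimpleGraph.ediam_le_of_edist_le
    intro u v
    rcases h1 u v with rfl | h | ⟨c, hc, hc'⟩
    · simp
    · refine (SimpleGraph.edist_le (SimpleGraph.Walk.cons h SimpleGraph.Walk.nil)).trans ?_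
      simp
    · refine (SimpleGraph.edist_le (SimpleGraph.Walk.cons hc
        (SimpleGraph.Walk.cons hc'.symm SimpleGraph.Walk.nil))).trans ?_
      simp
  · obtain ⟨b, _, hb⟩ := h2 0 0
    obtain ⟨c, hc, hc'⟩ := h2 0 (b + 1)
    have hbc : b ≠ c := by omega
    have hnadj : ¬ G.Adj b c := hG.tri b 0 c hb.symm hc' 
    refine le_trans ?_ (SimpleGraph.edist_le_ediam (u := b) (v := c))
    by_contra hcon
    push Not at hcon
    have hle : G.edist b c ≤ 1 := by
      have : G.edist b c < 1 + 1 := by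
        refine lt_of_lt_of_le hcon ?_
        norm_num
      exact (ENat.lt_add_one_iff (by simp)).1 this
    rw [SimpleGraph.edist_le_one_iff_adj_or_eq] at hle
    rcases hle with h | h
    · exact hnadj h
    · exact hbc h

lemma girth_five {m : ℕ} {G : SimpleGraph ℕ} (hG : Good m G) : ((2 * 2 : ℕ) : ℕ∞) < G.egirth := by
  have : ((5 : ℕ) : ℕ∞) ≤ G.egirth := by
    rw [SimpleGraph.le_egirth]
    intro a w hw
    have h3 := hw.three_le_length
    by_contra hcon
    have hlt : w.length < 5 := by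
      by_contra h
      push Not at h
      exact hcon (by exact_mod_cast h)
    have hnd := hw.support_nodup
    match w, h3, hlt, hnd with
    | .cons (v := b) h1 (.cons (v := c) h2 (.cons h3 .nil)), _, _, _ =>
      exact hG.tri a b c h1 h2 h3.symm
    | .cons (v := b) h1 (.cons (v := c) h2 (.cons (v := d) h3 (.cons h4 .nil))), _, _, hnd =>
      simp only [SimpleGraph.Walk.support_cons, SimpleGraph.Walk.support_nil, List.tail_cons,
        List.nodup_cons, List.mem_cons, List.not_mem_nil, or_false, not_or] at hnd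
      obtain ⟨⟨hbc, hbd, hba⟩, ⟨hcd, hca⟩, hda, _⟩ := hnd
      exact hbd (hG.uniq a c b d (Ne.symm hca) h1 h2.symm h4.symm h3)
    | .cons _ (.cons _ (.cons _ (.cons _ (.cons _ _)))), _, hlt, _ =>
      simp only [SimpleGraph.Walk.length_cons] at hlt
      omega
  refine lt_of_lt_of_le ?_ this
  norm_num

/-- Petersen graph adjacency on the naturals below ten. -/
def petE : List (ℕ × ℕ) := [(0, 1), (0, 5), (5, 7), (1, 2), (1, 6), (6, 8), (2, 3), (2, 7), (7, 9),
  (3, 4), (3, 8), (8, 5), (4, 0), (4, 9), (9, 6)]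

def petAdj (x y : ℕ) : Bool := petE.contains (x, y) || petE.contains (y, x)

lemma petAdj_lt (x y : ℕ) (h : petAdj x y = true) : x < 10 ∧ y < 10 := by
  have key : ∀ e ∈ petE, e.1 < 10 ∧ e.2 < 10 := by decide
  unfold petAdj at h
  rw [Bool.or_eq_true] at h
  rcases h with h | h
  · exact key _ (by simpa using h)
  · exact (key _ (by simpa using h : (y, x) ∈ petE)).symm

lemma petAdj_symm (x y : ℕ) : petAdj x y = petAdj y x := by
  unfold petAdj
  rw [Bool.or_comm]

/-- The Petersen graph together with isolated vertices. -/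
def pet : SimpleGraph ℕ where
  Adj x y := petAdj x y = true
  symm := ⟨fun x y h => by rw [petAdj_symm]; exact h⟩
  loopless := ⟨by
    intro x h
    have hx := (petAdj_lt x x h).1
    revert h
    interval_cases x <;> decide⟩

lemma pet_good : Good 10 pet := by
  refine ⟨?_, ?_, ?_⟩
  · have key : ∀ a < 10, ∀ b < 10, petAdj a b = true → ∀ c < 10, petAdj b c = true →
        ¬ petAdj a c = true := by decide +kernel
    intro a b c h1 h2 h3
    exact key a (petAdj_lt _ _ h1).1 b (petAdj_lt _ _ h1).2 h1 c (petAdj_lt _ _ h2).2 h2 h3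
  · have key : ∀ a x b y : Fin 10,
        (petAdj a x && petAdj b x && petAdj a y && petAdj b y) = true → a.val = b.val ∨ x.val = y.val := by
      decide +kernel
    intro a b x y hab h1 h2 h3 h4
    refine (key ⟨a, (petAdj_lt _ _ h1).1⟩ ⟨x, (petAdj_lt _ _ h1).2⟩ ⟨b, (petAdj_lt _ _ h2).1⟩
      ⟨y, (petAdj_lt _ _ h3).2⟩ ?_).resolve_left hab
    have h1' : petAdj a x = true := h1
    have h2' : petAdj b x = true := h2
    have h3' : petAdj a y = true := h3
    have h4' : petAdj b y = true := h4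
    simp only [h1', h2', h3', h4', Bool.and_self]
  · intro x y z w hx _ _ _ h _ _
    have := (petAdj_lt _ _ h).1
    omega

lemma pet_deg : ∀ x < 10, ∃ y z w, petAdj x y = true ∧ petAdj x z = true ∧ petAdj x w = true ∧
    y ≠ z ∧ y ≠ w ∧ z ≠ w := by
  have key : ∀ x < 10, ∃ y < 10, ∃ z < 10, ∃ w < 10, petAdj x y = true ∧ petAdj x z = true ∧
      petAdj x w = true ∧ y ≠ z ∧ y ≠ w ∧ z ≠ w := by decide +kernel
  intro x hx
  obtain ⟨y, _, z, _, w, _, h⟩ := key x hx
  exact ⟨y, z, w, h⟩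

/-- There exist a cardinal d and an integer k>1 and two non-isomorphic graphs, each d-regular with diameter exactly k and with no cycle of length at most 2k. -/
theorem result :
    ∃ d : Cardinal.{0}, ∃ k : ℕ, 1 < k ∧
      ∃ (V W : Type) (G : SimpleGraph V) (H : SimpleGraph W),
        (∀ v : V, Cardinal.mk (G.neighborSet v) = d) ∧
        G.ediam = (k : ℕ∞) ∧
        ((2 * k : ℕ) : ℕ∞) < G.egirth ∧
        (∀ w : W, Cardinal.mk (H.neighborSet w) = d) ∧
        H.ediam = (k : ℕ∞) ∧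
        ((2 * k : ℕ) : ℕ∞) < H.egirth ∧
        IsEmpty (G ≃g H) := by
  obtain ⟨A, hA0, hA, hA1, hA2⟩ := exists_tied 10 pet pet_good ⟨10, fun x y h => (petAdj_lt x y h).1⟩
  obtain ⟨B, _, hB, hB1, hB2⟩ := exists_tied 0 ⊥ ⟨fun _ _ _ h => absurd h (by simp),
    fun _ _ _ _ _ h => absurd h (by simp), fun _ _ _ _ _ _ _ _ h => absurd h (by simp)⟩
    ⟨0, fun _ _ h => absurd h (by simp)⟩
  refine ⟨Cardinal.aleph0, 2, by norm_num, ℕ, ℕ, A, B, degree_aleph hA2, ediam_two hA hA1 hA2,
    girth_five hA, degree_aleph hB2, ediam_two hB hB1 hB2, girth_five hB, ⟨fun φ => ?_⟩⟩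
  -- the image of the Petersen graph
  obtain ⟨x, hx, hmax⟩ := Finset.exists_max_image (Finset.range 10) (fun i => φ i)
    ⟨0, by simp⟩
  rw [Finset.mem_range] at hx
  obtain ⟨y, z, w, h1, h2, h3, hyz, hyw, hzw⟩ := pet_deg x hx
  have a1 : B.Adj (φ x) (φ y) := (φ.map_rel_iff).2 (hA0 h1)
  have a2 : B.Adj (φ x) (φ z) := (φ.map_rel_iff).2 (hA0 h2)
  have a3 : B.Adj (φ x) (φ w) := (φ.map_rel_iff).2 (hA0 h3)
  have l1 : φ y < φ x := lt_of_le_of_ne
    (hmax y (Finset.mem_range.2 (petAdj_lt _ _ h1).2)) (fun h => a1.ne h.symm)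
  have l2 : φ z < φ x := lt_of_le_of_ne
    (hmax z (Finset.mem_range.2 (petAdj_lt _ _ h2).2)) (fun h => a2.ne h.symm)
  have l3 : φ w < φ x := lt_of_le_of_ne
    (hmax w (Finset.mem_range.2 (petAdj_lt _ _ h3).2)) (fun h => a3.ne h.symm)
  rcases hB.back (φ x) (φ y) (φ z) (φ w) (Nat.zero_le _) l1 l2 l3 a1 a2 a3 with h | h | h
  · exact hyz (φ.injective h)
  · exact hyw (φ.injective h)
  · exact hzw (φ.injective h)

end Pool.Agent.S06217
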