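import Pool.Statements.S06222

set_option autoImplicit false
open Classical
open Pool Pool.MP_63da8f_co

namespace Pool.Agent.S06222

/-- The seven elements. -/
structure Q where
  val : Fin 7

/-- The strict order, read off a table. -/
def ltb (a b : Fin 7) : Bool := Nat.testBit 17315674200 (7 * a.val + b.val)

theorem ltb_irr : ∀ a : Fin 7, ltb a a = false := by decide +kernel

theorem ltb_asymm : ∀ a b : Fin 7, ltb a b = true → ltb b a = false := by decide +kernel

theorem ltb_trans : ∀ a b c : Fin 7, ltb a b = true → ltb b c = true → ltb a c = true := by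
  decide +kernel

instance : PartialOrder Q where
  le a b := a.val = b.val ∨ ltb a.val b.val = true
  lt a b := ltb a.val b.val = true
  le_refl a := Or.inl rfl
  le_trans a b c := by
    rintro (h | h) (h' | h')
    · exact Or.inl (h.trans h')
    · rw [← h] at h'
      exact Or.inr h'
    · rw [h'] at h
      exact Or.inr h
    · exact Or.inr (ltb_trans _ _ _ h h')
  lt_iff_le_not_ge a b := by
    constructor
    · intro h
      refine ⟨Or.inr h, ?_⟩
      rintro (h' | h')
      · rw [h', ltb_irr] at h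
        exact absurd h (by decide)
      · rw [ltb_asymm _ _ h] at h'
        exact absurd h' (by decide)
    · rintro ⟨h | h, h'⟩
      · exact absurd (Or.inl h.symm) h'
      · exact h
  le_antisymm a b := by
    rintro (h | h) h'
    · cases a
      cases b
      simp only at h
      rw [h]
    · rcases h' with h' | h'
      · cases a
        cases b
        simp only at h'
        rw [h']
      · rw [ltb_asymm _ _ h] at h'
        exact absurd h' (by decide)

theorem lt_def (a b : Q) : a < b ↔ ltb a.val b.val = true := Iff.rfl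

/-- The elements as a finite set. -/
noncomputable def P : Finset Q := (Finset.univ : Finset (Fin 7)).image Q.mk

theorem mem_P (x : Q) : x ∈ P := by
  rw [P, Finset.mem_image]
  exact ⟨x.val, Finset.mem_univ _, rfl⟩

theorem card_P : P.card = 7 := by
  rw [P, Finset.card_image_of_injective]
  · simp
  · intro a b h
    exact congrArg Q.val h

/-- Whether a consecutive pair is a jump. -/
def jm (a b : Fin 7) : ℕ := if ltb a b = true then 0 else 1

/-- A test for all seven elements. -/
def L7 (p : Fin 7 → Bool) : Bool := p 0 && p 1 && p 2 && p 3 && p 4 && p 5 && p 6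

theorem L7_spec {p : Fin 7 → Bool} (h : L7 p = true) (x : Fin 7) : p x = true := by
  unfold L7 at h
  simp only [Bool.and_eq_true] at h
  obtain ⟨⟨⟨⟨⟨⟨h0, h1⟩, h2⟩, h3⟩, h4⟩, h5⟩, h6⟩ := h
  fin_cases x <;> assumption

/-- The search through all linear extensions. -/
def search : Bool :=
  L7 fun a => L7 fun b => (!((a != b) && !ltb b a) ||
    L7 fun c => (!((a != c) && !ltb c a && (b != c) && !ltb c b) ||
    L7 fun d => (!((a != d) && !ltb d a && (b != d) && !ltb d b && (c != d) && !ltb d c) ||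
    L7 fun e => (!((a != e) && !ltb e a && (b != e) && !ltb e b && (c != e) && !ltb e c && (d != e) && !ltb e d) ||
    L7 fun f => (!((a != f) && !ltb f a && (b != f) && !ltb f b && (c != f) && !ltb f c && (d != f) && !ltb f d && (e != f) && !ltb f e) ||
    L7 fun g => (!((a != g) && !ltb g a && (b != g) && !ltb g b && (c != g) && !ltb g c && (d != g) && !ltb g d && (e != g) && !ltb g e && (f != g) && !ltb g f) ||
    Nat.ble 3 (jm a b + jm b c + jm c d + jm d e + jm e f + jm f g)))))))

theorem search_true : search = true := by decide +kernel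

theorem lower (a b c d e f g : Fin 7)
    (nab : a ≠ b) (pab : ltb b a = false) (nac : a ≠ c) (pac : ltb c a = false) (nbc : b ≠ c) (pbc : ltb c b = false) (nad : a ≠ d) (pad : ltb d a = false) (nbd : b ≠ d) (pbd : ltb d b = false) (ncd : c ≠ d) (pcd : ltb d c = false) (nae : a ≠ e) (pae : ltb e a = false) (nbe : b ≠ e) (pbe : ltb e b = false) (nce : c ≠ e) (pce : ltb e c = false) (nde : d ≠ e) (pde : ltb e d = false) (naf : a ≠ f) (paf : ltb f a = false) (nbf : b ≠ f) (pbf : ltb f b = false) (ncf : c ≠ f) (pcf : ltb f c = false) (ndf : d ≠ f) (pdf : ltb f d = false) (nef : e ≠ f) (pef : ltb f e = false) (nag : a ≠ g) (pag : ltb g a = false) (nbg : b ≠ g) (pbg : ltb g b = false) (ncg : c ≠ g) (pcg : ltb g c = false) (ndg : d ≠ g) (pdg : ltb g d = false) (neg : e ≠ g) (peg : ltb g e = false) (nfg : f ≠ g) (pfg : ltb g f = false) :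
    3 ≤ jm a b + jm b c + jm c d + jm d e + jm e f + jm f g := by
  have s := search_true
  unfold search at s
  have s := L7_spec s a
  have s := L7_spec s b
  simp only [bne_iff_ne.mpr nab, pab, Bool.and_true, Bool.not_true, Bool.not_false, Bool.false_or] at s
  have s := L7_spec s c
  simp only [bne_iff_ne.mpr nac, pac, bne_iff_ne.mpr nbc, pbc, Bool.and_true, Bool.not_true, Bool.not_false, Bool.false_or] at s
  have s := L7_spec s d
  simp only [bne_iff_ne.mpr nad, pad, bne_iff_ne.mpr nbd, pbd, bne_iff_ne.mpr ncd, pcd, Bool.and_true, Bool.not_true, Bool.not_false, Bool.false_or] at s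
  have s := L7_spec s e
  simp only [bne_iff_ne.mpr nae, pae, bne_iff_ne.mpr nbe, pbe, bne_iff_ne.mpr nce, pce, bne_iff_ne.mpr nde, pde, Bool.and_true, Bool.not_true, Bool.not_false, Bool.false_or] at s
  have s := L7_spec s f
  simp only [bne_iff_ne.mpr naf, paf, bne_iff_ne.mpr nbf, pbf, bne_iff_ne.mpr ncf, pcf, bne_iff_ne.mpr ndf, pdf, bne_iff_ne.mpr nef, pef, Bool.and_true, Bool.not_true, Bool.not_false, Bool.false_or] at s
  have s := L7_spec s g
  simp only [bne_iff_ne.mpr nag, pag, bne_iff_ne.mpr nbg, pbg, bne_iff_ne.mpr ncg, pcg, bne_iff_ne.mpr ndg, pdg, bne_iff_ne.mpr neg, peg, bne_iff_ne.mpr nfg, pfg, Bool.and_true, Bool.not_true, Bool.not_false, Bool.false_or] at s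
  exact Nat.le_of_ble_eq_true s

/-- The set of jump counts of the linear extensions of `S`. -/
def J (S : Finset Q) : Set ℕ := {k : ℕ | ∃ l : List Q, l.Nodup ∧ l.toFinset = S ∧
          l.Pairwise (fun a b => ¬ b < a) ∧
          (l.zip l.tail).countP (fun p => decide (¬ p.1 < p.2)) = k}

theorem dec_lt (a b : Q) : (decide (¬ a < b)) = !ltb a.val b.val := by
  cases h : ltb a.val b.val
  · rw [Bool.not_false, decide_eq_true_eq, lt_def, h]
    decide
  · rw [Bool.not_true, decide_eq_false_iff_not, not_not, lt_def, h]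

theorem lowerJ (k : ℕ) (hk : k ∈ J P) : 3 ≤ k := by
  obtain ⟨l, h1, h2, h3, rfl⟩ := hk
  have hlen : l.length = 7 := by
    rw [← List.toFinset_card_of_nodup h1, h2, card_P]
  rcases l with _ | ⟨a, _ | ⟨b, _ | ⟨c, _ | ⟨d, _ | ⟨e, _ | ⟨f, _ | ⟨g, _ | ⟨z, l⟩⟩⟩⟩⟩⟩⟩⟩ <;>
    simp only [List.length_nil, List.length_cons] at hlen <;> try omega
  have hjm : ∀ x y : Q, (if (decide (¬ x < y)) = true then 1 else 0) = jm x.val y.val := by
    intro x y
    rw [dec_lt, jm]
    cases ltb x.val y.val <;> simp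
  have hL : (List.zip [a, b, c, d, e, f, g] (List.tail [a, b, c, d, e, f, g])).countP
      (fun p => decide (¬ p.1 < p.2)) =
      jm a.val b.val + jm b.val c.val + jm c.val d.val + jm d.val e.val + jm e.val f.val +
        jm f.val g.val := by
    simp only [List.tail_cons, List.zip_cons_cons, List.zip_nil_right, List.countP_cons,
      List.countP_nil, hjm]
    omega
  rw [hL]
  have hne : ∀ x y : Q, x ≠ y → x.val ≠ y.val := by
    intro x y h h'
    apply h
    cases x
    cases y
    simp only at h'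
    rw [h']
  have hlt : ∀ x y : Q, ¬ y < x → ltb y.val x.val = false := by
    intro x y h
    rw [lt_def] at h
    simpa using h
  simp only [List.nodup_cons, List.mem_cons, List.not_mem_nil, or_false, not_or] at h1
  simp only [List.pairwise_cons, List.mem_cons, List.not_mem_nil, or_false, forall_eq_or_imp,
    forall_eq] at h3
  obtain ⟨⟨nab, nac, nad, nae, naf, nag⟩, ⟨nbc, nbd, nbe, nbf, nbg⟩, ⟨ncd, nce, ncf, ncg⟩, ⟨nde, ndf, ndg⟩, ⟨nef, neg⟩, nfg, -⟩ := h1
  obtain ⟨⟨pab, pac, pad, pae, paf, pag⟩, ⟨pbc, pbd, pbe, pbf, pbg⟩, ⟨pcd, pce, pcf, pcg⟩, ⟨pde, pdf, pdg⟩, ⟨pef, peg⟩, pfg, -⟩ := h3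
  exact lower _ _ _ _ _ _ _ (hne _ _ nab) (hlt _ _ pab) (hne _ _ nac) (hlt _ _ pac) (hne _ _ nbc) (hlt _ _ pbc) (hne _ _ nad) (hlt _ _ pad) (hne _ _ nbd) (hlt _ _ pbd) (hne _ _ ncd) (hlt _ _ pcd) (hne _ _ nae) (hlt _ _ pae) (hne _ _ nbe) (hlt _ _ pbe) (hne _ _ nce) (hlt _ _ pce) (hne _ _ nde) (hlt _ _ pde) (hne _ _ naf) (hlt _ _ paf) (hne _ _ nbf) (hlt _ _ pbf) (hne _ _ ncf) (hlt _ _ pcf) (hne _ _ ndf) (hlt _ _ pdf) (hne _ _ nef) (hlt _ _ pef) (hne _ _ nag) (hlt _ _ pag) (hne _ _ nbg) (hlt _ _ pbg) (hne _ _ ncg) (hlt _ _ pcg) (hne _ _ ndg) (hlt _ _ pdg) (hne _ _ neg) (hlt _ _ peg) (hne _ _ nfg) (hlt _ _ pfg)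

theorem memJ (S : Finset Q) (l : List (Fin 7)) (h1 : l.Nodup)
    (h2 : ∀ x : Fin 7, x ∈ l ↔ (Q.mk x) ∈ S)
    (h3 : l.Pairwise (fun a b => ltb b a = false)) (k : ℕ)
    (h4 : (l.zip l.tail).countP (fun p => !ltb p.1 p.2) = k) : k ∈ J S := by
  refine ⟨l.map Q.mk, h1.map (fun a b h => congrArg Q.val h), ?_, ?_, ?_⟩
  · ext ⟨x⟩
    rw [List.mem_toFinset, List.mem_map, ← h2 x]
    constructor
    · rintro ⟨y, hy, he⟩
      have := congrArg Q.val he
      simp only at this
      rw [← this]
      exact hy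
    · intro hx
      exact ⟨x, hx, rfl⟩
  · rw [List.pairwise_map]
    refine h3.imp ?_
    intro a b h
    rw [lt_def, h]
    decide
  · rw [← List.map_tail, List.zip_map, List.countP_map, ← h4]
    congr 1
    funext p
    exact dec_lt _ _

theorem two_mem : ∀ x : Fin 7, ∃ l : List (Fin 7), l.Nodup ∧ (∀ y : Fin 7, y ∈ l ↔ y ≠ x) ∧
    l.Pairwise (fun a b => ltb b a = false) ∧
    (l.zip l.tail).countP (fun p => !ltb p.1 p.2) = 2 := by
  intro x
  fin_cases x
  · exact ⟨[1, 4, 2, 5, 3, 6], by decide, by decide, by decide, by decide⟩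
  · exact ⟨[0, 3, 2, 5, 4, 6], by decide, by decide, by decide, by decide⟩
  · exact ⟨[0, 3, 1, 4, 6, 5], by decide, by decide, by decide, by decide⟩
  · exact ⟨[1, 2, 5, 0, 4, 6], by decide, by decide, by decide, by decide⟩
  · exact ⟨[1, 2, 5, 0, 3, 6], by decide, by decide, by decide, by decide⟩
  · exact ⟨[0, 3, 1, 4, 2, 6], by decide, by decide, by decide, by decide⟩
  · exact ⟨[0, 3, 1, 4, 2, 5], by decide, by decide, by decide, by decide⟩

theorem all_mem : ∀ x : Fin 7, x ∈ ([0, 1, 4, 2, 5, 3, 6] : List (Fin 7)) := by decide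

theorem sigP : sInf (J P) = 3 := by
  have h3 : 3 ∈ J P := memJ P [0, 1, 4, 2, 5, 3, 6] (by decide)
    (fun x => ⟨fun _ => mem_P _, fun _ => all_mem x⟩) (by decide) 3 (by decide)
  exact le_antisymm (Nat.sInf_le h3) (le_csInf ⟨3, h3⟩ lowerJ)

theorem sigE (x : Q) : sInf (J (P.erase x)) < 3 := by
  obtain ⟨l, h1, h2, h3, h4⟩ := two_mem x.val
  have h : 2 ∈ J (P.erase x) := by
    refine memJ _ l h1 (fun y => ?_) h3 2 h4
    rw [h2 y, Finset.mem_erase]
    constructor
    · intro hy
      exact ⟨fun he => hy (congrArg Q.val he), mem_P _⟩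
    · rintro ⟨hy, -⟩ he
      apply hy
      rw [he]
  exact lt_of_le_of_lt (Nat.sInf_le h) (by decide)

/-- The negation of the preceding statement: For every finite poset P with jump number r (minimum over linear extensions of the number of consecutive incomparable pairs), if deleting any single element lowers the jump number, then P has at most 2r elements. -/
theorem result :
    ¬ (∀ (α : Type) [PartialOrder α] (σ : Finset α → ℕ),
      (∀ S : Finset α, σ S = sInf {k : ℕ | ∃ l : List α, l.Nodup ∧ l.toFinset = S ∧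
          l.Pairwise (fun a b => ¬ b < a) ∧
          (l.zip l.tail).countP (fun p => decide (¬ p.1 < p.2)) = k}) →
      ∀ (P : Finset α) (r : ℕ), σ P = r → (∀ x ∈ P, σ (P.erase x) < r) →
        P.card ≤ 2 * r) := by
  intro H
  have h := H Q (fun S => sInf (J S)) (fun S => rfl) P 3 sigP (fun x _ => sigE x)
  rw [card_P] at h
  omega

end Pool.Agent.S06222
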