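import Pool.Statements.S06308
-- import your own Pool.Agent.* helpers here

set_option autoImplicit false
open Pool Pool.MP_6b5009_co

namespace Pool.Agent.S06308

/-- The graph `H`: three five-cycles `1..5`, `6..10`, `11..15` and a vertex `0` joined to `1`, `6`
and `11` (the adjacency matrix is stored in the bits of a natural number). -/
def h (u v : Fin 16) : Bool := Nat.testBit 32567629385835714067622640739055702622929759082595243937209800267739815020610 (16 * u.val + v.val)

theorem h_symm : ∀ u v : Fin 16, h u v = h v u := by decide +kernel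

theorem h_irrefl : ∀ u : Fin 16, h u u = false := by decide +kernel

theorem h_triangle : ∀ u v w : Fin 16, ¬ (h u v = true ∧ h v w = true ∧ h u w = true) := by
  decide +kernel

/-- `G` is the complement of `H`. -/
def G : SimpleGraph (Fin 16) where
  Adj u v := u ≠ v ∧ h u v = false
  symm := ⟨fun u v huv => ⟨huv.1.symm, by rw [h_symm]; exact huv.2⟩⟩
  loopless := ⟨fun u hu => hu.1 rfl⟩

instance : DecidableRel G.Adj := fun u v => by
  show Decidable (u ≠ v ∧ h u v = false); infer_instance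

def g2 : Fin 16 → Finset (Fin 16) :=
  ![{0, 1}, {0, 1}, {2, 3}, {2, 3}, {4, 5}, {4, 5}, {6, 10}, {6, 7}, {7, 8}, {8, 9}, {9, 10}, {11, 15}, {11, 12}, {12, 13}, {13, 14}, {14, 15}]

def g3 : Fin 16 → Finset (Fin 24) :=
  ![{0, 1, 2}, {0, 3, 4}, {3, 5, 6}, {5, 6, 7}, {7, 8, 9}, {4, 8, 9}, {1, 10, 11}, {10, 12, 13}, {12, 13, 14}, {14, 15, 16}, {11, 15, 16}, {2, 17, 18}, {17, 19, 20}, {19, 20, 21}, {21, 22, 23}, {18, 22, 23}]

theorem g2_card : ∀ v, (g2 v).card = 2 := by decide +kernel
theorem g2_disj : ∀ u v, (u ≠ v ∧ h u v = false) → Disjoint (g2 u) (g2 v) := by decide +kernel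
theorem g3_card : ∀ v, (g3 v).card = 3 := by decide +kernel
theorem g3_disj : ∀ u v, (u ≠ v ∧ h u v = false) → Disjoint (g3 u) (g3 v) := by decide +kernel

/-- A set of pairwise nonadjacent vertices of `G` has at most two elements. -/
theorem indep_le (S : Finset (Fin 16)) (hS : ∀ u ∈ S, ∀ v ∈ S, ¬ G.Adj u v) : S.card ≤ 2 := by
  by_contra hlt
  obtain ⟨a, b, c, ha, hb, hc, hab, hac, hbc⟩ := Finset.two_lt_card_iff.1 (not_le.1 hlt)
  have key : ∀ u ∈ S, ∀ v ∈ S, u ≠ v → h u v = true := by
    intro u hu v hv huv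
    cases hh : h u v
    · exact absurd ⟨huv, hh⟩ (hS u hu v hv)
    · rfl
  exact h_triangle a b c ⟨key a ha b hb hab, key b hb c hc hbc, key a ha c hc hac⟩

/-- Double counting. -/
theorem double_count {m k : ℕ} (g : Fin 16 → Finset (Fin m)) (hk : ∀ v, (g v).card = k) :
    ∑ c : Fin m, (Finset.univ.filter (fun v => c ∈ g v)).card = 16 * k := by
  have h1 : ∀ c : Fin m, (Finset.univ.filter (fun v => c ∈ g v)).card =
      ∑ v : Fin 16, if c ∈ g v then 1 else 0 := by
    intro c
    rw [Finset.card_filter]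
  simp only [h1]
  rw [Finset.sum_comm]
  have h2 : ∀ v : Fin 16, (∑ c : Fin m, if c ∈ g v then 1 else 0) = k := by
    intro v
    rw [← hk v, Finset.sum_ite_mem, Finset.univ_inter, Finset.sum_const, smul_eq_mul, mul_one]
  simp only [h2]
  simp

theorem class_le {m : ℕ} (g : Fin 16 → Finset (Fin m))
    (hd : ∀ u v, G.Adj u v → Disjoint (g u) (g v)) (c : Fin m) :
    (Finset.univ.filter (fun v => c ∈ g v)).card ≤ 2 := by
  apply indep_le
  intro u hu v hv huv
  have h1 := (Finset.mem_filter.1 hu).2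
  have h2 := (Finset.mem_filter.1 hv).2
  exact Finset.disjoint_left.1 (hd u v huv) h1 h2

theorem lower {m k : ℕ} (g : Fin 16 → Finset (Fin m)) (hk : ∀ v, (g v).card = k)
    (hd : ∀ u v, G.Adj u v → Disjoint (g u) (g v)) : 16 * k ≤ 2 * m := by
  rw [← double_count g hk]
  calc ∑ c : Fin m, (Finset.univ.filter (fun v => c ∈ g v)).card
      ≤ ∑ _c : Fin m, 2 := Finset.sum_le_sum (fun c _ => class_le g hd c)
    _ = 2 * m := by simp [mul_comm]

theorem saturated {m : ℕ} (hm : m = 16) (g : Fin 16 → Finset (Fin m))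
    (hk : ∀ v, (g v).card = 2)
    (hd : ∀ u v, G.Adj u v → Disjoint (g u) (g v)) (c : Fin m) :
    (Finset.univ.filter (fun v => c ∈ g v)).card = 2 := by
  by_contra hne
  have hlt : (Finset.univ.filter (fun v => c ∈ g v)).card < 2 :=
    lt_of_le_of_ne (class_le g hd c) hne
  have h1 : ∑ c : Fin m, (Finset.univ.filter (fun v => c ∈ g v)).card < ∑ _c : Fin m, 2 :=
    Finset.sum_lt_sum (fun c _ => class_le g hd c) ⟨c, Finset.mem_univ c, hlt⟩
  rw [double_count g hk] at h1
  simp [hm] at h1

theorem indepNum_eq : G.indepNum = 2 := by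
  apply le_antisymm
  · obtain ⟨S, hS⟩ := G.exists_isNIndepSet_indepNum
    rw [← hS.card_eq]
    apply indep_le
    intro u hu v hv huv
    exact hS.isIndepSet (Finset.mem_coe.2 hu) (Finset.mem_coe.2 hv) huv.ne huv
  · have hI : G.IsNIndepSet 2 {0, 1} := by
      constructor
      · intro u hu v hv huv
        have key : ∀ u ∈ ({0, 1} : Finset (Fin 16)), ∀ v ∈ ({0, 1} : Finset (Fin 16)),
          ¬ (u ≠ v ∧ h u v = false) := by decide +kernel
        exact key u (Finset.mem_coe.1 hu) v (Finset.mem_coe.1 hv)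
      · decide
    exact hI.isIndepSet.card_le_indepNum.trans' (by decide)

theorem nbr0 : ∀ v : Fin 16, h 0 v = true → v = 1 ∨ v = 6 ∨ v = 11 := by decide +kernel
theorem nbr1 : ∀ v : Fin 16, h 1 v = true → v = 0 ∨ v = 2 ∨ v = 5 := by decide +kernel
theorem nbr2 : ∀ v : Fin 16, h 2 v = true → v = 1 ∨ v = 3 := by decide +kernel
theorem nbr3 : ∀ v : Fin 16, h 3 v = true → v = 2 ∨ v = 4 := by decide +kernel
theorem nbr4 : ∀ v : Fin 16, h 4 v = true → v = 3 ∨ v = 5 := by decide +kernel
theorem nbr5 : ∀ v : Fin 16, h 5 v = true → v = 4 ∨ v = 1 := by decide +kernel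
theorem nbr6 : ∀ v : Fin 16, h 6 v = true → v = 0 ∨ v = 7 ∨ v = 10 := by decide +kernel
theorem nbr7 : ∀ v : Fin 16, h 7 v = true → v = 6 ∨ v = 8 := by decide +kernel
theorem nbr8 : ∀ v : Fin 16, h 8 v = true → v = 7 ∨ v = 9 := by decide +kernel
theorem nbr9 : ∀ v : Fin 16, h 9 v = true → v = 8 ∨ v = 10 := by decide +kernel
theorem nbr10 : ∀ v : Fin 16, h 10 v = true → v = 9 ∨ v = 6 := by decide +kernel

/-- In a five-cycle whose vertices `b, c, d, e` have no further neighbours, the vertex `a` has to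
be matched to the outside. -/
theorem cycle (p : Fin 16 → Fin 16) (hpp : ∀ v, p (p v) = v) (o a b c d e : Fin 16)
    (ha : p a = o ∨ p a = b ∨ p a = e) (hb : p b = a ∨ p b = c) (hc : p c = b ∨ p c = d)
    (hd : p d = c ∨ p d = e) (he : p e = d ∨ p e = a) (hac : a ≠ c) (had : a ≠ d)
    (hbd : b ≠ d) (hce : c ≠ e) (hbe : b ≠ e) : p a = o := by
  rcases ha with ha | ha | ha
  · exact ha
  · exfalso
    have hb' : p b = a := by rw [← ha, hpp]
    rcases he with he | he
    · have hd' : p d = e := by rw [← he, hpp]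
      rcases hc with hc | hc
      · have : p b = c := by rw [← hc, hpp]
        exact hac (hb'.symm.trans this)
      · have : p d = c := by rw [← hc, hpp]
        exact hce (this.symm.trans hd')
    · have : p a = e := by rw [← he, hpp]
      exact hbe (ha.symm.trans this)
  · exfalso
    have he' : p e = a := by rw [← ha, hpp]
    rcases hb with hb | hb
    · have : p a = b := by rw [← hb, hpp]
      exact hbe (this.symm.trans ha)
    · have hc' : p c = b := by rw [← hb, hpp]
      rcases hd with hd | hd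
      · have : p c = d := by rw [← hd, hpp]
        exact hbd (hc'.symm.trans this)
      · have : p e = d := by rw [← hd, hpp]
        exact had (he'.symm.trans this)

theorem not_colorable : ¬ G.Colorable 8 := by
  rintro ⟨C⟩
  have hle : ∀ c : Fin 8, (Finset.univ.filter (fun v => C v = c)).card ≤ 2 := by
    intro c
    apply indep_le
    intro u hu v hv huv
    have h1 := (Finset.mem_filter.1 hu).2
    have h2 := (Finset.mem_filter.1 hv).2
    exact C.valid huv (h1.trans h2.symm)
  have hsum : ∑ c : Fin 8, (Finset.univ.filter (fun v => C v = c)).card = 16 := by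
    have := Finset.card_eq_sum_card_fiberwise (s := (Finset.univ : Finset (Fin 16)))
      (t := (Finset.univ : Finset (Fin 8))) (f := fun v => C v)
      (fun _ _ => Finset.mem_coe.2 (Finset.mem_univ _))
    rw [← this]
    simp
  have heq : ∀ c : Fin 8, (Finset.univ.filter (fun v => C v = c)).card = 2 := by
    intro c
    by_contra hne
    have hlt := lt_of_le_of_ne (hle c) hne
    have h1 : ∑ c : Fin 8, (Finset.univ.filter (fun v => C v = c)).card < ∑ _c : Fin 8, 2 :=
      Finset.sum_lt_sum (fun c _ => hle c) ⟨c, Finset.mem_univ c, hlt⟩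
    rw [hsum] at h1
    simp at h1
  have hex : ∀ v : Fin 16, ∃ u, u ≠ v ∧ C u = C v := by
    intro v
    have hv : v ∈ Finset.univ.filter (fun w => C w = C v) :=
      Finset.mem_filter.2 ⟨Finset.mem_univ v, rfl⟩
    obtain ⟨u, hu, huv⟩ := Finset.exists_mem_ne (by rw [heq (C v)]; norm_num :
      1 < (Finset.univ.filter (fun w => C w = C v)).card) v
    exact ⟨u, huv, (Finset.mem_filter.1 hu).2⟩
  choose p hp1 hp2 using hex
  have hadj : ∀ u v : Fin 16, u ≠ v → C u = C v → h u v = true := by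
    intro u v huv hc
    cases hh : h u v
    · exact absurd hc (C.valid (⟨huv, hh⟩ : G.Adj u v))
    · rfl
  have hpp : ∀ v, p (p v) = v := by
    intro v
    by_contra hne
    have e1 : C (p (p v)) = C v := (hp2 (p v)).trans (hp2 v)
    exact h_triangle (p (p v)) (p v) v ⟨hadj _ _ (hp1 (p v)) (hp2 (p v)),
      hadj _ _ (hp1 v) (hp2 v), hadj _ _ hne e1⟩
  have hh : ∀ v, h v (p v) = true := fun v => hadj _ _ (hp1 v).symm (hp2 v).symm
  have e1 : p 1 = 0 := cycle p hpp 0 1 2 3 4 5 (nbr1 _ (hh 1)) (nbr2 _ (hh 2)) (nbr3 _ (hh 3))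
    (nbr4 _ (hh 4)) (nbr5 _ (hh 5)) (by decide) (by decide) (by decide) (by decide) (by decide)
  have e6 : p 6 = 0 := cycle p hpp 0 6 7 8 9 10 (nbr6 _ (hh 6)) (nbr7 _ (hh 7)) (nbr8 _ (hh 8))
    (nbr9 _ (hh 9)) (nbr10 _ (hh 10)) (by decide) (by decide) (by decide) (by decide) (by decide)
  have h1 : p 0 = 1 := by rw [← e1, hpp]
  have h6 : p 0 = 6 := by rw [← e6, hpp]
  rw [h1] at h6
  exact absurd h6 (by decide)

theorem chrom_ge : (9 : ℕ∞) ≤ G.chromaticNumber := by
  by_contra hlt
  have h1 : G.chromaticNumber < (9 : ℕ∞) := not_le.1 hlt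
  have h2 : G.chromaticNumber ≤ ((8 : ℕ) : ℕ∞) := by
    have : G.chromaticNumber < ((8 : ℕ) : ℕ∞) + 1 := by
      refine lt_of_lt_of_le h1 ?_
      norm_num
    exact Order.le_of_lt_add_one this
  exact not_colorable (SimpleGraph.chromaticNumber_le_iff_colorable.1 h2)

/-- The negation of the preceding statement: For every finite graph G and k ≥ 1: if every k-fold coloring of G using the minimum number of colors uses each color on exactly α(G) vertices, then the (k+1)-fold chromatic number equals the k-fold chromatic number plus the chromatic number. -/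
theorem result :
    ¬ (∀ (n : ℕ) (G : SimpleGraph (Fin n)) (k : ℕ), 1 ≤ k →
      (∀ f : Fin n → Finset (Fin (sInf {m : ℕ | ∃ g : Fin n → Finset (Fin m),
            (∀ v, (g v).card = k) ∧ ∀ u v, G.Adj u v → Disjoint (g u) (g v)})),
          (∀ v, (f v).card = k) →
          (∀ u v, G.Adj u v → Disjoint (f u) (f v)) →
          ∀ c, (Finset.univ.filter (fun v => c ∈ f v)).card = G.indepNum) →
      ((sInf {m : ℕ | ∃ g : Fin n → Finset (Fin m),
            (∀ v, (g v).card = k + 1) ∧ ∀ u v, G.Adj u v → Disjoint (g u) (g v)} : ℕ) : ℕ∞)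
        = ((sInf {m : ℕ | ∃ g : Fin n → Finset (Fin m),
            (∀ v, (g v).card = k) ∧ ∀ u v, G.Adj u v → Disjoint (g u) (g v)} : ℕ) : ℕ∞)
          + G.chromaticNumber) := by
  intro H
  have hchi2 : sInf {m : ℕ | ∃ g : Fin 16 → Finset (Fin m),
            (∀ v, (g v).card = 2) ∧ ∀ u v, G.Adj u v → Disjoint (g u) (g v)} = 16 := by
    apply le_antisymm
    · exact Nat.sInf_le ⟨g2, g2_card, fun u v huv => g2_disj u v huv⟩
    · apply le_csInf
      · exact ⟨16, g2, g2_card, fun u v huv => g2_disj u v huv⟩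
      · rintro m ⟨g, hk, hd⟩
        have := lower g hk hd
        omega
  have hchi3 : sInf {m : ℕ | ∃ g : Fin 16 → Finset (Fin m),
            (∀ v, (g v).card = 2 + 1) ∧ ∀ u v, G.Adj u v → Disjoint (g u) (g v)} ≤ 24 :=
    Nat.sInf_le ⟨g3, g3_card, fun u v huv => g3_disj u v huv⟩
  have h := H 16 G 2 (by norm_num) (by
    intro f hk hd c
    rw [indepNum_eq]
    exact saturated hchi2 f hk hd c)
  rw [hchi2] at h
  have h9 := chrom_ge
  have h25 : ((25 : ℕ) : ℕ∞) ≤ ((16 : ℕ) : ℕ∞) + G.chromaticNumber := by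
    calc ((25 : ℕ) : ℕ∞) = ((16 : ℕ) : ℕ∞) + 9 := by norm_num
      _ ≤ _ := by gcongr
  rw [← h] at h25
  have h25' : 25 ≤ sInf {m : ℕ | ∃ g : Fin 16 → Finset (Fin m),
            (∀ v, (g v).card = 2 + 1) ∧ ∀ u v, G.Adj u v → Disjoint (g u) (g v)} := by
    exact_mod_cast h25
  omega

end Pool.Agent.S06308
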