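import Pool.Statements.S06316

set_option autoImplicit false
open Pool Pool.MP_6b8a7b_co

namespace Pool.Agent.S06316

/-- The negation of the preceding statement: Take any hypergraph whose edges are all finite and in which every vertex lies in some edge. Then some edge cover C exists such that, for every edge cover C', the cardinality of C minus C' is at most the cardinality of C' minus C. -/
theorem result :
    ¬ (∀ (V : Type) (E : Set (Set V)),
      (∀ e ∈ E, e.Finite) →
      (∀ v : V, ∃ e ∈ E, v ∈ e) →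
      ∃ C ⊆ E, ⋃₀ C = Set.univ ∧
        ∀ C' ⊆ E, ⋃₀ C' = Set.univ →
          Cardinal.mk ↥(C \ C') ≤ Cardinal.mk ↥(C' \ C)) := by
  intro H
  obtain ⟨C, hCE, hC, hmin⟩ := H ℕ (Set.range (fun n : ℕ => Set.Iic n))
    (by rintro e ⟨n, rfl⟩; exact Set.finite_Iic n)
    (fun v => ⟨Set.Iic v, ⟨v, rfl⟩, le_refl v⟩)
  have h0 : (0 : ℕ) ∈ ⋃₀ C := by rw [hC]; trivial
  obtain ⟨e, heC, -⟩ := h0
  obtain ⟨m, hm⟩ := hCE heC
  have hcov : ⋃₀ (C \ {e}) = Set.univ := by
    rw [Set.eq_univ_iff_forall]
    intro v
    have hw : max v (m + 1) ∈ ⋃₀ C := by rw [hC]; trivial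
    obtain ⟨f, hfC, hf⟩ := hw
    obtain ⟨n, hn⟩ := hCE hfC
    have hle : max v (m + 1) ≤ n := by
      rw [← hn] at hf
      exact hf
    refine ⟨f, ⟨hfC, ?_⟩, ?_⟩
    · intro hfe
      rw [Set.mem_singleton_iff] at hfe
      have h1 : (m + 1) ∈ Set.Iic m := by
        have : (m + 1) ∈ f := by
          rw [← hn]
          exact le_trans (le_max_right _ _) hle
        rw [hfe, ← hm] at this
        exact this
      have h2 : m + 1 ≤ m := h1
      omega
    · rw [← hn]
      exact le_trans (le_max_left _ _) hle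
  have hle := hmin (C \ {e}) (fun x hx => hCE hx.1) hcov
  have e1 : C \ (C \ {e}) = {e} := by
    ext x
    constructor
    · rintro ⟨h1, h2⟩
      by_contra h3
      exact h2 ⟨h1, h3⟩
    · intro h
      rw [Set.mem_singleton_iff] at h
      subst h
      exact ⟨heC, fun h => h.2 rfl⟩
  have e2 : (C \ {e}) \ C = ∅ := by
    ext x
    constructor
    · rintro ⟨h1, h2⟩
      exact h2 h1.1
    · intro h
      exact h.elim
  rw [e1, e2] at hle
  simp at hle

end Pool.Agent.S06316
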