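import Pool.Statements.S06366

set_option autoImplicit false
open Pool Pool.MP_6f5d90_co

namespace Pool.Agent.S06366

/-- The 66 planes, as bit masks on twelve points. -/
def L : List ℕ := [63, 2145, 1185, 801, 2130, 1170, 786, 2124, 1164, 780, 2210, 354, 1570, 2181, 325,
  1541, 2200, 344, 1560, 2340, 676, 1124, 2314, 650, 1098, 2321, 657, 1105, 2600, 1320, 232, 2580,
  1300, 212, 2563, 1283, 195, 3120, 624, 432, 3081, 585, 393, 3078, 582, 390, 448, 704, 1216, 2240,
  832, 1344, 2368, 1600, 2624, 3136, 896, 1408, 2432, 1664, 2688, 3200, 1792, 2816, 3328, 3584]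

lemma fact1 : ∀ a b c : Fin 12, a ≠ b → a ≠ c → b ≠ c →
    (L.filter (fun m => m.testBit a && m.testBit b && m.testBit c)).length = 1 := by
  decide +kernel

lemma fact2 : ∀ m ∈ L, ∀ a : Fin 12, m.testBit a = true → ∀ b : Fin 12, b ≠ a → m.testBit b = true →
    ∀ c : Fin 12, c ≠ a → c ≠ b → m.testBit c = true → 6 ≤ a.val → 6 ≤ b.val → 6 ≤ c.val →
    ∀ e : Fin 12, m.testBit e = true → e = a ∨ e = b ∨ e = c := by
  decide +kernel

/-- The set coded by a mask. -/
def pl (m : ℕ) : Set (Fin 12) := {i | m.testBit i = true}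

lemma exists_plane (a b c : Fin 12) (hab : a ≠ b) (hac : a ≠ c) (hbc : b ≠ c) :
    ∃ m ∈ L, ({a, b, c} : Set (Fin 12)) ⊆ pl m := by
  have h := fact1 a b c hab hac hbc
  obtain ⟨m, hm⟩ := List.length_eq_one_iff.1 h
  have hmem : m ∈ L.filter (fun m => m.testBit a && m.testBit b && m.testBit c) := by
    rw [hm]; simp
  rw [List.mem_filter] at hmem
  refine ⟨m, hmem.1, ?_⟩
  have h2 := hmem.2
  simp only [Bool.and_eq_true] at h2
  rintro x hx
  simp only [Set.mem_insert_iff, Set.mem_singleton_iff] at hx
  rcases hx with rfl | rfl | rfl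
  · exact h2.1.1
  · exact h2.1.2
  · exact h2.2

lemma unique_plane (a b c : Fin 12) (hab : a ≠ b) (hac : a ≠ c) (hbc : b ≠ c) (m m' : ℕ)
    (hm : m ∈ L) (hm' : m' ∈ L) (h : ({a, b, c} : Set (Fin 12)) ⊆ pl m)
    (h' : ({a, b, c} : Set (Fin 12)) ⊆ pl m') : m = m' := by
  have hl := fact1 a b c hab hac hbc
  obtain ⟨k, hk⟩ := List.length_eq_one_iff.1 hl
  have key : ∀ n ∈ L, ({a, b, c} : Set (Fin 12)) ⊆ pl n → n = k := by
    intro n hn hs
    have hmem : n ∈ L.filter (fun m => m.testBit a && m.testBit b && m.testBit c) := by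
      rw [List.mem_filter]
      refine ⟨hn, ?_⟩
      have ha : n.testBit a = true := hs (by simp)
      have hb : n.testBit b = true := hs (by simp)
      have hc : n.testBit c = true := hs (by simp)
      simp [ha, hb, hc]
    rw [hk] at hmem
    simpa using hmem
  rw [key m hm h, key m' hm' h']

/-- Independence. -/
def Ind (I : Set (Fin 12)) : Prop := I.ncard ≤ 3 ∨ (I.ncard = 4 ∧ ∀ m ∈ L, ¬ I ⊆ pl m)

lemma ind_card {I : Set (Fin 12)} (h : Ind I) : I.ncard ≤ 4 := by
  rcases h with h | ⟨h, _⟩ <;> omega

lemma ind_sub {I J : Set (Fin 12)} (hJ : Ind J) (hIJ : I ⊆ J) : Ind I := by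
  have hc : I.ncard ≤ J.ncard := Set.ncard_le_ncard hIJ (Set.toFinite _)
  rcases hJ with h | ⟨h, h2⟩
  · left; omega
  · by_cases hI : I.ncard ≤ 3
    · left; exact hI
    · right
      have : I = J := Set.eq_of_subset_of_ncard_le hIJ (by omega) (Set.toFinite _)
      subst this
      exact ⟨h, h2⟩

lemma ind_aug {I J : Set (Fin 12)} (hI : Ind I) (hJ : Ind J) (hlt : I.ncard < J.ncard) :
    ∃ e ∈ J, e ∉ I ∧ Ind (insert e I) := by
  have hJ4 := ind_card hJ
  by_cases h3 : I.ncard = 3
  · have hJ' : J.ncard = 4 := by omega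
    have hJ2 : ∀ m ∈ L, ¬ J ⊆ pl m := by
      rcases hJ with h | ⟨_, h⟩
      · omega
      · exact h
    obtain ⟨a, b, c, hab, hac, hbc, rfl⟩ := Set.ncard_eq_three.1 h3
    obtain ⟨m, hm, hmI⟩ := exists_plane a b c hab hac hbc
    have := hJ2 m hm
    rw [Set.not_subset] at this
    obtain ⟨e, heJ, he⟩ := this
    have heI : e ∉ ({a, b, c} : Set (Fin 12)) := fun h => he (hmI h)
    refine ⟨e, heJ, heI, Or.inr ⟨?_, ?_⟩⟩
    · rw [Set.ncard_insert_of_notMem heI (Set.toFinite _), h3]
    · intro m' hm' hsub
      have : m = m' := unique_plane a b c hab hac hbc m m' hm hm' hmI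
        (fun x hx => hsub (Or.inr hx))
      subst this
      exact he (hsub (Or.inl rfl))
  · have hI3 : I.ncard ≤ 2 := by
      have := ind_card hI
      omega
    obtain ⟨e, he, heI⟩ := Set.exists_mem_notMem_of_ncard_lt_ncard hlt (Set.toFinite _)
    refine ⟨e, he, heI, Or.inl ?_⟩
    rw [Set.ncard_insert_of_notMem heI (Set.toFinite _)]
    omega

/-- The matroid. -/
def IM : IndepMatroid (Fin 12) :=
  IndepMatroid.ofFinite (E := Set.univ) Set.finite_univ Ind
    (Or.inl (by simp)) (fun _ _ hJ h => ind_sub hJ h) (fun _ _ hI hJ h => ind_aug hI hJ h)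
    (fun _ _ => Set.subset_univ _)

def M : Matroid (Fin 12) := IM.matroid

lemma M_indep (I : Set (Fin 12)) : M.Indep I ↔ Ind I := Iff.rfl

lemma M_E : M.E = Set.univ := rfl

lemma ncard_coe (S : Set (Fin 12)) : (S.ncard : ℕ∞) = S.encard := (Set.toFinite S).cast_ncard_eq

lemma eRk_le (X : Set (Fin 12)) : M.eRk X ≤ 4 := by
  rw [Matroid.eRk_le_iff]
  intro I _ hI
  rw [← ncard_coe]
  have := ind_card ((M_indep I).1 hI)
  exact_mod_cast this

lemma mem_closure_of (I : Set (Fin 12)) (hI : Ind I) (e : Fin 12) (he : e ∉ I) :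
    e ∈ M.closure I ↔ ¬ Ind (insert e I) := by
  have h1 : M.Indep I := hI
  have h2 := h1.mem_closure_iff_of_notMem he
  rw [h2, Matroid.dep_iff]
  constructor
  · rintro ⟨h, _⟩ h'
    exact h h'
  · intro h
    exact ⟨h, Set.subset_univ _⟩

lemma small_rank {F : Set (Fin 12)} {k : ℕ} (hk : k ≤ 2) (h : M.eRk F = (k : ℕ∞)) : F.ncard = k := by
  have h1 : (k : ℕ∞) ≤ F.encard := h ▸ M.eRk_le_encard F
  rw [← ncard_coe] at h1
  have h1' : k ≤ F.ncard := by exact_mod_cast h1
  by_contra hne
  have h2 : k + 1 ≤ F.ncard := by omega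
  obtain ⟨S, hS, hSc⟩ := Set.exists_subset_card_eq h2
  have hSI : M.Indep S := Or.inl (by omega)
  have h3 := hSI.encard_le_eRk_of_subset hS
  rw [h, ← ncard_coe, hSc] at h3
  have : k + 1 ≤ k := by exact_mod_cast h3
  omega

lemma rank_three {F : Set (Fin 12)} (hF : M.IsFlat F) (h : M.eRk F = ((3 : ℕ) : ℕ∞)) :
    ∃ m ∈ L, F = pl m := by
  have h1 : ((3 : ℕ) : ℕ∞) ≤ F.encard := h ▸ M.eRk_le_encard F
  rw [← ncard_coe] at h1
  have h1' : 3 ≤ F.ncard := by exact_mod_cast h1
  obtain ⟨S, hS, hSc⟩ := Set.exists_subset_card_eq h1'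
  obtain ⟨a, b, c, hab, hac, hbc, rfl⟩ := Set.ncard_eq_three.1 hSc
  obtain ⟨m, hm, hmI⟩ := exists_plane a b c hab hac hbc
  refine ⟨m, hm, ?_⟩
  have hSI : Ind {a, b, c} := Or.inl (by omega)
  apply Set.Subset.antisymm
  · intro e heF
    by_contra he
    have heS : e ∉ ({a, b, c} : Set (Fin 12)) := fun h => he (hmI h)
    have hins : M.Indep (insert e {a, b, c}) := by
      refine Or.inr ⟨?_, ?_⟩
      · rw [Set.ncard_insert_of_notMem heS (Set.toFinite _), hSc]
      · intro m' hm' hsub
        have : m = m' := unique_plane a b c hab hac hbc m m' hm hm' hmI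
          (fun x hx => hsub (Or.inr hx))
        subst this
        exact he (hsub (Or.inl rfl))
    have h3 := hins.encard_le_eRk_of_subset (Set.insert_subset heF hS)
    rw [h, ← ncard_coe, Set.ncard_insert_of_notMem heS (Set.toFinite _), hSc] at h3
    have : 3 + 1 ≤ 3 := by exact_mod_cast h3
    omega
  · intro e he
    by_cases heS : e ∈ ({a, b, c} : Set (Fin 12))
    · exact hS heS
    · have hcl : e ∈ M.closure {a, b, c} := by
        rw [mem_closure_of _ hSI _ heS]
        intro hcon
        rcases hcon with hcon | ⟨_, hcon⟩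
        · rw [Set.ncard_insert_of_notMem heS (Set.toFinite _), hSc] at hcon
          omega
        · exact hcon m hm (Set.insert_subset he hmI)
      have : M.closure {a, b, c} ⊆ M.closure F := M.closure_subset_closure hS
      rw [hF.closure] at this
      exact this hcl

lemma rank_four {F : Set (Fin 12)} (hF : M.IsFlat F) (h : M.eRk F = ((4 : ℕ) : ℕ∞)) :
    F = Set.univ := by
  obtain ⟨I, hIF, hI, hIc⟩ := Matroid.le_eRk_iff.1 (le_of_eq h.symm)
  rw [Set.eq_univ_iff_forall]
  intro e
  by_cases heI : e ∈ I
  · exact hIF heI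
  · have hcl : e ∈ M.closure I := by
      rw [mem_closure_of _ hI _ heI]
      intro hcon
      have := ind_card hcon
      rw [Set.ncard_insert_of_notMem heI (Set.toFinite _)] at this
      rw [← ncard_coe] at hIc
      have h4 : I.ncard = 4 := by exact_mod_cast hIc
      omega
    have : M.closure I ⊆ M.closure F := M.closure_subset_closure hIF
    rw [hF.closure] at this
    exact this hcl

/-- The antichain. -/
def AF : Finset (Finset (Fin 12)) :=
  ((Finset.univ : Finset (Fin 12)).powersetCard 2).filter (fun s => ∃ x ∈ s, x.val < 6) ∪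
  ((Finset.univ : Finset (Fin 12)).powersetCard 3).filter (fun s => ∀ x ∈ s, 6 ≤ x.val)

lemma AF_card : AF.card = 71 := by decide +kernel

lemma ncard_pairs (k : ℕ) (hk : k ≤ 2) : {F : Set (Fin 12) | F.ncard = k}.ncard ≤ 66 := by
  have : {F : Set (Fin 12) | F.ncard = k} =
      (fun s : Finset (Fin 12) => (s : Set (Fin 12))) ''
        (((Finset.univ : Finset (Fin 12)).powersetCard k : Finset (Finset (Fin 12))) : Set (Finset (Fin 12))) := by
    ext F
    simp only [Set.mem_setOf_eq, Set.mem_image, Finset.mem_coe, Finset.mem_powersetCard,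
      Finset.subset_univ, true_and]
    constructor
    · intro h
      refine ⟨(Set.toFinite F).toFinset, ?_, by simp⟩
      rw [← Set.ncard_eq_toFinset_card F]
      exact h
    · rintro ⟨s, hs, rfl⟩
      rw [Set.ncard_coe_finset]
      exact hs
  rw [this, Set.ncard_image_of_injective _ Finset.coe_injective, Set.ncard_coe_finset,
    Finset.card_powersetCard]
  interval_cases k <;> decide

lemma flat_of (F : Set (Fin 12)) (hI : Ind F) (h : ∀ e ∉ F, Ind (insert e F)) : M.IsFlat F := by
  rw [Matroid.isFlat_iff_closure_eq]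
  apply Set.Subset.antisymm
  · intro e he
    by_contra heF
    rw [mem_closure_of F hI e heF] at he
    exact he (h e heF)
  · exact M.subset_closure F (Set.subset_univ _)

/-- The negation of the preceding statement: For every matroid on a finite set whose circuits all have size at least its rank (paving), some rank level of its flats is at least as large as every antichain of flats under inclusion, i.e. the lattice of flats is Sperner. -/
theorem result :
    ¬ (∀ (α : Type) [Finite α] (M : Matroid α),
      (∀ C : Set α, M.IsCircuit C → M.eRk M.E ≤ C.encard) →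
      ∃ k : ℕ, ∀ A : Set (Set α), (∀ F ∈ A, M.IsFlat F) →
        IsAntichain (· ⊆ ·) A →
        A.ncard ≤ {F : Set α | M.IsFlat F ∧ M.eRk F = (k : ℕ∞)}.ncard) := by
  intro H
  obtain ⟨k, hk⟩ := H (Fin 12) M (by
    intro C hC
    refine (eRk_le _).trans ?_
    have h1 : ¬ M.Indep C := hC.not_indep
    have h2 : 4 ≤ C.ncard := by
      by_contra hcon
      exact h1 (Or.inl (by omega))
    rw [← ncard_coe]
    exact_mod_cast h2)
  have hA := hk ((fun s : Finset (Fin 12) => (s : Set (Fin 12))) '' (AF : Set (Finset (Fin 12)))) ?_ ?_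
  · rw [Set.ncard_image_of_injective _ Finset.coe_injective, Set.ncard_coe_finset, AF_card] at hA
    have hle : {F : Set (Fin 12) | M.IsFlat F ∧ M.eRk F = (k : ℕ∞)}.ncard ≤ 66 := by
      rcases Nat.lt_or_ge k 3 with h | h
      · refine le_trans (Set.ncard_le_ncard ?_ (Set.toFinite _)) (ncard_pairs k (by omega))
        rintro F ⟨_, hF⟩
        exact small_rank (by omega) hF
      · rcases Nat.lt_or_ge k 4 with h4 | h4
        · have hk3 : k = 3 := by omega
          subst hk3
          have hsub : {F : Set (Fin 12) | M.IsFlat F ∧ M.eRk F = ((3 : ℕ) : ℕ∞)} ⊆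
              pl '' (L.toFinset : Set ℕ) := by
            rintro F ⟨hF, hr⟩
            obtain ⟨m, hm, rfl⟩ := rank_three hF hr
            exact ⟨m, by simpa using hm, rfl⟩
          refine (Set.ncard_le_ncard hsub (Set.toFinite _)).trans ?_
          refine (Set.ncard_image_le (Set.toFinite _)).trans ?_
          rw [Set.ncard_coe_finset]
          exact (List.toFinset_card_le L).trans (le_of_eq rfl)
        · rcases Nat.lt_or_ge k 5 with h5 | h5
          · have hk4 : k = 4 := by omega
            subst hk4
            have hsub : {F : Set (Fin 12) | M.IsFlat F ∧ M.eRk F = ((4 : ℕ) : ℕ∞)} ⊆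
                {Set.univ} := by
              rintro F ⟨hF, hr⟩
              exact rank_four hF hr
            refine (Set.ncard_le_ncard hsub (Set.toFinite _)).trans ?_
            simp
          · have : {F : Set (Fin 12) | M.IsFlat F ∧ M.eRk F = (k : ℕ∞)} = ∅ := by
              ext F
              simp only [Set.mem_setOf_eq, Set.mem_empty_iff_false, iff_false, not_and]
              intro _ hr
              have := eRk_le F
              rw [hr] at this
              have : k ≤ 4 := by exact_mod_cast this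
              omega
            rw [this]
            simp
    omega
  · rintro _ ⟨s, hs, rfl⟩
    have hs' := hs
    simp only [AF, Finset.coe_union, Set.mem_union, Finset.mem_coe, Finset.mem_filter,
      Finset.mem_powersetCard, Finset.subset_univ, true_and] at hs'
    rcases hs' with ⟨hc, _⟩ | ⟨hc, hY⟩
    · apply flat_of
      · left
        rw [Set.ncard_coe_finset]
        omega
      · intro e he
        left
        rw [Set.ncard_insert_of_notMem he (Set.toFinite _), Set.ncard_coe_finset]
        omega
    · obtain ⟨a, b, c, hab, hac, hbc, rfl⟩ := Finset.card_eq_three.1 hc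
      have ha : 6 ≤ a.val := hY a (by simp)
      have hb : 6 ≤ b.val := hY b (by simp)
      have hcc : 6 ≤ c.val := hY c (by simp)
      apply flat_of
      · left
        rw [Set.ncard_coe_finset]
        omega
      · intro e he
        right
        refine ⟨?_, ?_⟩
        · rw [Set.ncard_insert_of_notMem he (Set.toFinite _), Set.ncard_coe_finset]
          omega
        · intro m hm hsub
          have h1 : m.testBit a = true := hsub (by simp)
          have h2 : m.testBit b = true := hsub (by simp)
          have h3 : m.testBit c = true := hsub (by simp)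
          have h4 : m.testBit e = true := hsub (by simp)
          have := fact2 m hm a h1 b hab.symm h2 c hac.symm hbc.symm h3 ha hb hcc e h4
          apply he
          simpa using this
  · rintro _ ⟨s, hs, rfl⟩ _ ⟨t, ht, rfl⟩ hne hst
    have hst' : s ⊆ t := by exact_mod_cast hst
    simp only [AF, Finset.coe_union, Set.mem_union, Finset.mem_coe, Finset.mem_filter,
      Finset.mem_powersetCard, Finset.subset_univ, true_and] at hs ht
    apply hne
    rcases hs with ⟨hs, hx⟩ | ⟨hs, hx⟩ <;> rcases ht with ⟨ht, hy⟩ | ⟨ht, hy⟩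
    · rw [Finset.eq_of_subset_of_card_le hst' (by omega)]
    · obtain ⟨x, hxs, hx6⟩ := hx
      have := hy x (hst' hxs)
      omega
    · have := Finset.card_le_card hst'
      omega
    · rw [Finset.eq_of_subset_of_card_le hst' (by omega)]

end Pool.Agent.S06366
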