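import Pool.Statements.S06442
import Pool.Agent.H13.PebU

set_option autoImplicit false
open Pool Pool.MP_74a576_co

namespace Pool.Agent.S06442

open Pool.Agent.H13.Peb in
/-- The negation of the preceding statement: There is a constant c such that for every finite connected graph and every t ≥ 1, t times the optimal pebbling number is at most c times the optimal t-pebbling number, i.e. optimal pebbling number ≤ c · fractional optimal pebbling number. -/
theorem result :
    ¬ (∃ c : ℕ, ∀ (V : Type) [Fintype V] [DecidableEq V] (G : SimpleGraph V), G.Connected →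
      ∀ t : ℕ, 1 ≤ t → ∀ D : V → ℕ,
        (∀ r : V, ∃ D' : V → ℕ,
            Relation.ReflTransGen
              (fun A B : V → ℕ => ∃ u v : V, G.Adj u v ∧ 2 ≤ A u ∧
                B = Function.update (Function.update A u (A u - 2)) v (A v + 1)) D D' ∧
            t ≤ D' r) →
        ∃ E : V → ℕ,
          (∀ r : V, ∃ E' : V → ℕ,
              Relation.ReflTransGen
                (fun A B : V → ℕ => ∃ u v : V, G.Adj u v ∧ 2 ≤ A u ∧
                  B = Function.update (Function.update A u (A u - 2)) v (A v + 1)) E E' ∧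
              1 ≤ E' r) ∧
          t * ∑ v, E v ≤ c * ∑ v, D v) := by
  rintro ⟨c, hc⟩
  obtain ⟨κ, hκ, hne, σ, h1, h2⟩ := exists_good (4 ^ (2 * (2048 * c + 1)))
  have hn3 : 3 ≤ 128 * κ := by omega
  have hconn := ga_connected hn3 σ
  have hdeg := nb_card hn3 σ
  obtain ⟨E, hE1, hE2⟩ := hc (ZMod (128 * κ) × Bool) (GA σ) hconn
    ((2048 * c + 1) * 2 ^ (2 * (2048 * c + 1))) (Nat.mul_pos (by omega) (by positivity))
    (fun _ => 2 ^ (2 * (2048 * c + 1)))
    (fun r => uniform_solvable hconn hdeg (2048 * c + 1) h2 r)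
  have hcard : Fintype.card (ZMod (128 * κ) × Bool) = 256 * κ := by
    rw [Fintype.card_prod, ZMod.card, Fintype.card_bool]
    ring
  have hbig : κ < 8 * ∑ v, E v := by
    by_contra hcon
    push Not at hcon
    obtain ⟨T, hT1, hT2, hT3⟩ := half_set (GA σ) hdeg E hE1 (by rw [hcard]; omega)
    rw [hcard] at hT1 hT2
    exact h1 T ⟨by omega, by omega, by omega⟩
  have hD : ∑ _v : ZMod (128 * κ) × Bool, 2 ^ (2 * (2048 * c + 1)) =
      256 * κ * 2 ^ (2 * (2048 * c + 1)) := by
    rw [Finset.sum_const, Finset.card_univ, hcard, smul_eq_mul]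
  rw [hD] at hE2
  have hpos : 0 < 2 ^ (2 * (2048 * c + 1)) := by positivity
  have h3 : (2048 * c + 1) * ∑ v, E v ≤ c * (256 * κ) := by
    have : (2048 * c + 1) * ∑ v, E v * 2 ^ (2 * (2048 * c + 1)) ≤
        c * (256 * κ) * 2 ^ (2 * (2048 * c + 1)) := by
      rw [← Finset.sum_mul]
      calc (2048 * c + 1) * ((∑ v, E v) * 2 ^ (2 * (2048 * c + 1))) =
          (2048 * c + 1) * 2 ^ (2 * (2048 * c + 1)) * ∑ v, E v := by ring
        _ ≤ c * (256 * κ * 2 ^ (2 * (2048 * c + 1))) := hE2
        _ = c * (256 * κ) * 2 ^ (2 * (2048 * c + 1)) := by ring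
    rw [← Finset.sum_mul, ← mul_assoc] at this
    exact Nat.le_of_mul_le_mul_right this hpos
  have h4 : (2048 * c + 1) * κ ≤ (2048 * c + 1) * (8 * ∑ v, E v) := Nat.mul_le_mul_left _ hbig.le
  have h5 : (2048 * c + 1) * (8 * ∑ v, E v) ≤ 8 * (c * (256 * κ)) := by
    calc (2048 * c + 1) * (8 * ∑ v, E v) = 8 * ((2048 * c + 1) * ∑ v, E v) := by ring
      _ ≤ 8 * (c * (256 * κ)) := Nat.mul_le_mul_left _ h3
  have h6 : 8 * (c * (256 * κ)) = 2048 * c * κ := by ring
  have h7 : (2048 * c + 1) * κ = 2048 * c * κ + κ := by ring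
  omega

end Pool.Agent.S06442
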