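import Pool.Statements.S06460
import Pool.Agent.H13.IEOp

set_option autoImplicit false
open Pool Pool.MP_766cb7_co

namespace Pool.Agent.S06460

/-- The negation of the preceding statement: Let f on subsets of S be increasing, monotone, idempotent and have the exchange property, and satisfy (C) and (H) with independent and spanning defined via f. Then some matroid (B-matroid) on S has closure equal to f. -/
theorem result :
    ¬ (∀ (α : Type) (S : Set α) (f : Set α → Set α),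
      (∀ X, X ⊆ S → f X ⊆ S) →
      (∀ X, X ⊆ S → X ⊆ f X) →
      (∀ X Y, X ⊆ Y → Y ⊆ S → f X ⊆ f Y) →
      (∀ X, X ⊆ S → f (f X) = f X) →
      (∀ X, X ⊆ S → ∀ p ∈ S, ∀ q, q ∈ f (insert p X) → q ∉ f X → p ∈ f (insert q X)) →
      (∀ Y, Y ⊆ S → ∀ p ∈ f Y, ∃ U : Set α,
          Minimal (fun W : Set α => W ⊆ Y ∧ p ∈ f W) U ∧
          ∀ x ∈ U, x ∉ f (U \ {x})) →
      (∀ Y, Y ⊆ S → ∀ p ∈ S, p ∉ f Y → ∃ V : Set α,
          Maximal (fun W : Set α => Y ⊆ W ∧ W ⊆ S ∧ p ∉ f W) V ∧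
          f (insert p V) = S) →
      ∃ M : Matroid α, M.E = S ∧ ∀ X, X ⊆ S → M.closure X = f X) := by
  intro hall
  obtain ⟨Z, hZ1, hZ2, hZ3⟩ := Pool.Agent.H13.IEOp.exists_max
  have hZ : Pool.Agent.H13.IEOp.Fam Z := ⟨hZ1, hZ2, hZ3⟩
  obtain ⟨M, hME, hcl⟩ := hall Pool.Agent.H13.IEOp.T Set.univ (Pool.Agent.H13.IEOp.f Z)
    (fun X _ => Set.subset_univ _)
    (fun X _ => Pool.Agent.H13.IEOp.f_ext X)
    (fun X Y hXY _ => Pool.Agent.H13.IEOp.f_mono hXY)
    (fun X _ => Pool.Agent.H13.IEOp.f_idem X)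
    (by
      intro X _ p _ q hq hqX
      by_cases hpq : p = q
      · subst hpq; exact Pool.Agent.H13.IEOp.f_ext _ (Set.mem_insert _ _)
      by_cases hpX : p ∈ X
      · rw [Set.insert_eq_of_mem hpX] at hq; exact absurd hq hqX
      have h2 : q ∉ Pool.Agent.H13.IEOp.f Z (insert p X \ {p}) := by
        rwa [Set.insert_sdiff_self_of_notMem hpX]
      obtain ⟨a, ha, h⟩ := Pool.Agent.H13.IEOp.f_exch hZ {p} (insert p X) q hq h2
      simp only [Set.mem_singleton_iff] at ha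
      subst ha
      rwa [Set.insert_sdiff_self_of_notMem hpX] at h)
    (fun Y _ p hp => Pool.Agent.H13.IEOp.f_C hZ Y p hp)
    (fun Y _ p _ hp => Pool.Agent.H13.IEOp.f_H hZ Y p hp)
  have hcl' : ∀ X, M.closure X = Pool.Agent.H13.IEOp.f Z X := fun X => hcl X (Set.subset_univ _)
  have hJ : M.Indep Pool.Agent.H13.IEOp.JJ := by
    rw [Matroid.indep_iff_forall_notMem_closure_sdiff (by rw [hME]; exact Set.subset_univ _)]
    intro e he hec
    rw [hcl', Pool.Agent.H13.IEOp.f_neg] at hec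
    · exact hec.2 rfl
    · intro h
      exact Pool.Agent.H13.IEOp.JJ_not_span hZ (h.mono Set.sdiff_subset)
  obtain ⟨K, hK, hJK⟩ := hJ.subset_isBasis_of_subset
    (show Pool.Agent.H13.IEOp.JJ ⊆ Pool.Agent.H13.IEOp.AA from fun x hx => Or.inl hx)
    (by rw [hME]; exact Set.subset_univ _)
  have hKc : Pool.Agent.H13.IEOp.f Z K = Set.univ := by
    rw [← hcl', hK.closure_eq_closure, hcl', Pool.Agent.H13.IEOp.f_pos (Pool.Agent.H13.IEOp.AA_span hZ)]
  have hKs : Pool.Agent.H13.IEOp.Span Z K := by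
    by_contra h
    rw [Pool.Agent.H13.IEOp.f_neg h] at hKc
    rw [hKc] at h
    exact h ((Pool.Agent.H13.IEOp.AA_span hZ).mono (Set.subset_univ _))
  obtain ⟨B, hB, hBK⟩ := hKs
  have hKB : K = B := by
    apply Set.Subset.antisymm _ hBK
    intro a ha
    by_contra haB
    have hi := hK.indep.notMem_closure_sdiff_of_mem ha
    have hs : Pool.Agent.H13.IEOp.Span Z (K \ {a}) :=
      ⟨B, hB, fun x hx => ⟨hBK hx, by rintro rfl; exact haB hx⟩⟩
    rw [hcl', Pool.Agent.H13.IEOp.f_pos hs] at hi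
    exact hi (Set.mem_univ _)
  rw [hKB] at hJK
  exact Pool.Agent.H13.IEOp.no_between hZ hB hJK (hKB ▸ hK.subset)

end Pool.Agent.S06460
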