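import Pool.Statements.S06495
import Pool.Agent.H13.Seidel

set_option autoImplicit false
open Pool Pool.MP_79384d_co

namespace Pool.Agent.S06495

/-- There is a Seidel matrix (symmetric, zero diagonal, ±1 off diagonal) of order at least 14 with exactly three distinct eigenvalues such that no ±1 switching of it has constant row sums, i.e. its switching class contains no regular graph. -/
theorem result :
    ∃ n : ℕ, 14 ≤ n ∧ ∃ S : Matrix (Fin n) (Fin n) ℝ,
      S.IsSymm ∧ (∀ i, S i i = 0) ∧
      (∀ i j, i ≠ j → S i j = 1 ∨ S i j = -1) ∧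
      S.charpoly.roots.toFinset.card = 3 ∧
      ∀ s : Fin n → ℝ, (∀ i, s i = 1 ∨ s i = -1) →
        ¬ ∃ c : ℝ, ∀ i, ∑ j, s i * S i j * s j = c := by
  refine ⟨18, by norm_num, Pool.Agent.H13.Seidel.S ℝ, ?_, ?_, ?_, Pool.Agent.H13.Seidel.card_roots,
    fun s hs => Pool.Agent.H13.Seidel.noreg s hs⟩
  · ext i j
    simp only [Matrix.transpose_apply, Pool.Agent.H13.Seidel.S, Matrix.map_apply]
    rw [Pool.Agent.H13.Seidel.Tz_symm]
  · intro i
    simp [Pool.Agent.H13.Seidel.S, Matrix.map_apply, Pool.Agent.H13.Seidel.Tz_diag]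
  · intro i j hij
    simp only [Pool.Agent.H13.Seidel.S, Matrix.map_apply]
    rcases Pool.Agent.H13.Seidel.Tz_off i j hij with h | h <;> rw [h] <;> simp

end Pool.Agent.S06495
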