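import Pool.Statements.S06581
import Pool.Agent.H13.Cubelike

set_option autoImplicit false
open Pool Pool.MP_811355_co

namespace Pool.Agent.S06581

/-- There is n and a set S of binary vectors of length n such that the graph on all binary n-vectors, joining distinct u and v when u minus v lies in S, has chromatic number exactly 5 or exactly 6. -/
theorem result :
    ∃ n : ℕ, ∃ S : Set (Fin n → ZMod 2), ∃ G : SimpleGraph (Fin n → ZMod 2),
      (∀ u v : Fin n → ZMod 2, G.Adj u v ↔ (u ≠ v ∧ u - v ∈ S)) ∧
      (G.chromaticNumber = 5 ∨ G.chromaticNumber = 6) := by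
  exact ⟨6, Pool.Agent.H13.Cubelike.S, Pool.Agent.H13.Cubelike.G,
    fun _ _ => Iff.rfl, Pool.Agent.H13.Cubelike.chromatic⟩

end Pool.Agent.S06581
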