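import Pool.Statements.S06658

set_option autoImplicit false
open Pool Pool.MP_85fffe_co

namespace Pool.Agent.S06658

abbrev Γ := ℕ →₀ ℤ

theorem exists_phi : ∃ φ : Γ →+ ℝ, Function.Injective φ := by
  let b := Module.Basis.ofVectorSpace ℚ ℝ
  have hinf : Infinite (Module.Basis.ofVectorSpaceIndex ℚ ℝ) := by
    rw [Cardinal.infinite_iff]
    have h1 : Cardinal.mk (Module.Basis.ofVectorSpaceIndex ℚ ℝ) = Module.rank ℚ ℝ :=
      b.mk_eq_rank''
    rw [h1, Real.rank_rat_real]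
    exact Cardinal.aleph0_le_continuum
  let f := Infinite.natEmbedding (Module.Basis.ofVectorSpaceIndex ℚ ℝ)
  have hli : LinearIndependent ℚ (b ∘ f) := b.linearIndependent.comp f f.injective
  have hli2 : LinearIndependent ℤ (b ∘ f) := hli.restrict_scalars (by
    intro x y h
    simpa using h)
  exact ⟨(Finsupp.linearCombination ℤ (b ∘ f)).toAddMonoidHom, hli2⟩

noncomputable def φ : Γ →+ ℝ := exists_phi.choose

theorem φ_inj : Function.Injective φ := exists_phi.choose_spec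

noncomputable def pG (i : ℕ) : Γ := Finsupp.single (2 * i) 1
noncomputable def tG (k : ℕ) : Γ := if k = 0 then 0 else Finsupp.single (2 * k + 1) 1

theorem pG_even (i j : ℕ) : pG i (2 * j) = if i = j then 1 else 0 := by
  unfold pG
  rw [Finsupp.single_apply]
  by_cases h : i = j
  · simp [h]
  · rw [if_neg h, if_neg (by omega)]

theorem pG_odd (i j : ℕ) : pG i (2 * j + 1) = 0 := by
  unfold pG
  rw [Finsupp.single_apply, if_neg (by omega)]

theorem tG_even (i j : ℕ) : tG i (2 * j) = 0 := by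
  unfold tG
  split_ifs
  · rfl
  · rw [Finsupp.single_apply, if_neg (by omega)]

theorem tG_odd (i j : ℕ) : tG i (2 * j + 1) = if i ≠ 0 ∧ i = j then 1 else 0 := by
  unfold tG
  split_ifs with h1 h2 h2
  · exact absurd h1 h2.1
  · rfl
  · rw [Finsupp.single_apply, if_pos (by omega)]
  · rw [Finsupp.single_apply, if_neg (by
      intro h; apply h2; exact ⟨h1, by omega⟩)]

theorem tG_zero : tG 0 = 0 := by simp [tG]

noncomputable def X (m : ℕ) : Finset ℝ :=
  ((Finset.Icc 1 m ×ˢ Finset.range (m + 1)).filter (fun q => q.1 ≠ q.2)).image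
    (fun q => φ (pG q.1 + tG q.2))

theorem mem_X (m : ℕ) (g : Γ) : φ g ∈ X m ↔
    ∃ i k, (1 ≤ i ∧ i ≤ m) ∧ k ≤ m ∧ i ≠ k ∧ g = pG i + tG k := by
  unfold X
  rw [Finset.mem_image]
  constructor
  · rintro ⟨⟨i, k⟩, h, h2⟩
    rw [Finset.mem_filter, Finset.mem_product, Finset.mem_Icc, Finset.mem_range] at h
    exact ⟨i, k, h.1.1, by have := h.1.2; omega, h.2, (φ_inj h2).symm⟩
  · rintro ⟨i, k, h1, h2, h3, h4⟩
    refine ⟨⟨i, k⟩, ?_, by rw [h4]⟩
    rw [Finset.mem_filter, Finset.mem_product, Finset.mem_Icc, Finset.mem_range]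
    exact ⟨⟨h1, by show k < m + 1; omega⟩, h3⟩

theorem mem_X' (m : ℕ) (x : ℝ) (hx : x ∈ X m) : ∃ g, x = φ g := by
  unfold X at hx
  rw [Finset.mem_image] at hx
  obtain ⟨q, _, h⟩ := hx
  exact ⟨_, h.symm⟩

theorem card_X (m : ℕ) : (X m).card ≤ m * (m + 1) := by
  unfold X
  refine Finset.card_image_le.trans ((Finset.card_filter_le _ _).trans ?_)
  rw [Finset.card_product]
  simp

noncomputable def A (m : ℕ) (J : Finset ℕ) : Finset ℝ :=
  (Finset.Icc 1 m \ J).image (fun i => φ (pG i))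

theorem mem_A (m : ℕ) (J : Finset ℕ) (g : Γ) : φ g ∈ A m J ↔
    ∃ i, (1 ≤ i ∧ i ≤ m) ∧ i ∉ J ∧ g = pG i := by
  unfold A
  rw [Finset.mem_image]
  constructor
  · rintro ⟨i, h, h2⟩
    rw [Finset.mem_sdiff, Finset.mem_Icc] at h
    exact ⟨i, h.1, h.2, (φ_inj h2).symm⟩
  · rintro ⟨i, h1, h2, h3⟩
    refine ⟨i, ?_, by rw [h3]⟩
    rw [Finset.mem_sdiff, Finset.mem_Icc]
    exact ⟨h1, h2⟩

theorem mem_A' (m : ℕ) (J : Finset ℕ) (x : ℝ) (hx : x ∈ A m J) :
    ∃ i, (1 ≤ i ∧ i ≤ m) ∧ i ∉ J ∧ x = φ (pG i) := by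
  unfold A at hx
  rw [Finset.mem_image] at hx
  obtain ⟨i, h, h2⟩ := hx
  rw [Finset.mem_sdiff, Finset.mem_Icc] at h
  exact ⟨i, h.1, h.2, h2.symm⟩

/-- comparing decompositions -/
theorem decomp {a i k l : ℕ} (h : pG a + tG k = pG i + tG l) : a = i ∧ k = l := by
  have h1 := DFunLike.congr_fun h (2 * a)
  have h2 := DFunLike.congr_fun h (2 * k + 1)
  have h3 := DFunLike.congr_fun h (2 * l + 1)
  simp only [Finsupp.add_apply, pG_even, pG_odd, tG_even, tG_odd, and_true, if_true] at h1 h2 h3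
  refine ⟨?_, ?_⟩
  · by_contra hne
    rw [if_neg (fun e => hne e.symm)] at h1
    omega
  · by_contra hne
    split_ifs at h2 h3 <;> omega

/-- positions -/
theorem positions {m : ℕ} (hm : 3 ≤ m) {J : Finset ℕ} (h2J : 2 ∉ J) (h3J : 3 ∉ J)
    {t : ℝ} (ht : (A m J).image (· + t) ⊆ X m) :
    ∃ k, k ≤ m ∧ (k = 0 ∨ k ∈ J) ∧ t = φ (tG k) := by
  have hsub : ∀ i, 1 ≤ i → i ≤ m → i ∉ J → φ (pG i) + t ∈ X m := by
    intro i h1 h2 h3
    apply ht
    rw [Finset.mem_image]
    exact ⟨φ (pG i), (mem_A _ _ _).2 ⟨i, ⟨h1, h2⟩, h3, rfl⟩, rfl⟩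
  have e2 := hsub 2 (by omega) (by omega) h2J
  have e3 := hsub 3 (by omega) (by omega) h3J
  obtain ⟨g, hg⟩ := mem_X' _ _ e2
  have htg : t = φ (g - pG 2) := by
    rw [map_sub, ← hg]; ring
  rw [htg, ← map_add] at e2 e3
  rw [mem_X] at e2 e3
  obtain ⟨i, k, hi, hk, hik, hE2⟩ := e2
  obtain ⟨i', k', hi', hk', hik', hE3⟩ := e3
  -- pG i + tG k - pG 2 = pG i' + tG k' - pG 3
  have hE : pG i + tG k + pG 3 = pG i' + tG k' + pG 2 := by
    have q1 : g = pG i + tG k := by rw [← hE2]; abel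
    have q2 : g + pG 3 = pG i' + tG k' + pG 2 := by rw [← hE3]; abel
    rw [← q1, q2]
  have hi2 : i = 2 := by
    have h1 := DFunLike.congr_fun hE (2 * 2)
    simp only [Finsupp.add_apply, pG_even, tG_even] at h1
    split_ifs at h1 <;> omega
  subst hi2
  have htk : g - pG 2 = tG k := by
    have q1 : g = pG 2 + tG k := by rw [← hE2]; abel
    rw [q1]; abel
  rw [htk] at htg
  refine ⟨k, hk, ?_, htg⟩
  by_cases hk0 : k = 0
  · exact Or.inl hk0
  · right
    by_contra hkJ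
    have := hsub k (by omega) hk hkJ
    rw [htg, ← map_add, mem_X] at this
    obtain ⟨a, l, ha, hl, hal, hE4⟩ := this
    have := decomp hE4
    omega

theorem translate_mem {m : ℕ} {J : Finset ℕ} (hJ : J ⊆ Finset.Icc 1 m) {j : ℕ}
    (hj : j = 0 ∨ j ∈ J) :
    (A m J).image (· + φ (tG j)) ⊆ X m := by
  intro x hx
  rw [Finset.mem_image] at hx
  obtain ⟨y, hy, rfl⟩ := hx
  obtain ⟨i, hi, hiJ, rfl⟩ := mem_A' _ _ _ hy
  rw [← map_add, mem_X]
  refine ⟨i, j, hi, ?_, ?_, rfl⟩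
  · rcases hj with hj | hj
    · omega
    · exact (Finset.mem_Icc.1 (hJ hj)).2
  · rcases hj with hj | hj
    · omega
    · intro e
      subst e
      exact hiJ hj

theorem A_inj {m : ℕ} {J J' : Finset ℕ} (hJ : J ⊆ Finset.Icc 1 m) (hJ' : J' ⊆ Finset.Icc 1 m)
    (h : A m J = A m J') : J = J' := by
  have key : ∀ i, 1 ≤ i → i ≤ m → (i ∉ J ↔ i ∉ J') := by
    intro i h1 h2
    have a1 : φ (pG i) ∈ A m J ↔ φ (pG i) ∈ A m J' := by rw [h]
    have pinj : ∀ j, pG i = pG j → i = j := by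
      intro j e
      have := decomp (a := i) (i := j) (k := 0) (l := 0) (by rw [e])
      exact this.1
    have b1 : ∀ K : Finset ℕ, φ (pG i) ∈ A m K ↔ i ∉ K := by
      intro K
      rw [mem_A]
      constructor
      · rintro ⟨j, _, hj, e⟩
        rw [pinj j e]; exact hj
      · intro hK
        exact ⟨i, ⟨h1, h2⟩, hK, rfl⟩
    rw [b1, b1] at a1
    exact a1
  ext i
  constructor
  · intro hi
    have := Finset.mem_Icc.1 (hJ hi)
    by_contra hc
    exact ((key i this.1 this.2).2 hc) hi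
  · intro hi
    have := Finset.mem_Icc.1 (hJ' hi)
    by_contra hc
    exact ((key i this.1 this.2).1 hc) hi

noncomputable def S (n : ℕ) : Finset (Finset ℝ) :=
  (Finset.Icc 4 (n + 3)).powerset.image (fun J => A (n + 3) (insert 1 J))

theorem card_S (n : ℕ) : (S n).card = 2 ^ n := by
  unfold S
  rw [Finset.card_image_of_injOn, Finset.card_powerset, Nat.card_Icc]
  · congr 1
  · intro J hJ J' hJ' h
    rw [Finset.mem_coe, Finset.mem_powerset] at hJ hJ'
    have hins : ∀ K : Finset ℕ, K ⊆ Finset.Icc 4 (n + 3) → insert 1 K ⊆ Finset.Icc 1 (n + 3) := by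
      intro K hK x hx
      rw [Finset.mem_insert] at hx
      rw [Finset.mem_Icc]
      rcases hx with hx | hx
      · omega
      · have := Finset.mem_Icc.1 (hK hx)
        omega
    have := A_inj (hins J hJ) (hins J' hJ') h
    have n1 : ∀ K : Finset ℕ, K ⊆ Finset.Icc 4 (n + 3) → 1 ∉ K := by
      intro K hK h1
      have := Finset.mem_Icc.1 (hK h1)
      omega
    rw [← Finset.erase_insert (n1 J hJ), this, Finset.erase_insert (n1 J' hJ')]

theorem big (C : ℕ) : ∃ n : ℕ, C * ((n + 3) * (n + 4)) < 2 ^ n := by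
  -- n = 2 k with  C (2k+3)(2k+4) < 4^k
  have h := tendsto_pow_const_div_const_pow_of_one_lt 2 (show (1:ℝ) < 2 by norm_num)
  have h2 := h.eventually (gt_mem_nhds (show (0:ℝ) < 1 / (20 * (C + 1)) by positivity))
  obtain ⟨n, hn1, hn2⟩ := (h2.and (Filter.eventually_ge_atTop 1)).exists
  refine ⟨n, ?_⟩
  have hn2' : (1:ℝ) ≤ n := by exact_mod_cast hn2
  rw [div_lt_div_iff₀ (by positivity) (by positivity)] at hn1
  have : ((C * ((n + 3) * (n + 4)) : ℕ) : ℝ) < ((2 ^ n : ℕ) : ℝ) := by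
    push_cast
    have hC : (0:ℝ) ≤ C := Nat.cast_nonneg C
    have e1 : ((n:ℝ) + 3) * (n + 4) ≤ 20 * (n:ℝ) ^ 2 := by nlinarith
    have e2 : (C:ℝ) * (((n:ℝ) + 3) * (n + 4)) ≤ C * (20 * (n:ℝ) ^ 2) :=
      mul_le_mul_of_nonneg_left e1 hC
    have e3 : (C:ℝ) * (20 * (n:ℝ) ^ 2) ≤ (n:ℝ) ^ 2 * (20 * (C + 1)) := by nlinarith [sq_nonneg (n:ℝ)]
    linarith
  exact_mod_cast this

/-- The negation of the preceding statement: There is a constant C such that for every finite set X of n reals, any family of maximally repeated patterns of X, no two of which are translates of each other, has at most C·n members. -/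
theorem result :
    ¬ (∃ C : ℕ, ∀ X : Finset ℝ, ∀ S : Finset (Finset ℝ),
      (∀ A ∈ S,
        A.Nonempty ∧ A ⊆ X ∧
        (∃ t : ℝ, t ≠ 0 ∧ A.image (· + t) ⊆ X) ∧
        (∀ B : Finset ℝ, A ⊂ B →
          ¬ (∀ t : ℝ, A.image (· + t) ⊆ X → B.image (· + t) ⊆ X))) →
      (∀ A ∈ S, ∀ B ∈ S, ∀ t : ℝ, B = A.image (· + t) → A = B) →
      S.card ≤ C * X.card) := by
  rintro ⟨C, hC⟩
  obtain ⟨n, hn⟩ := big C
  have hmem : ∀ B ∈ S n, ∃ J : Finset ℕ, J ⊆ Finset.Icc 1 (n + 3) ∧ 1 ∈ J ∧ 2 ∉ J ∧ 3 ∉ J ∧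
      B = A (n + 3) J := by
    intro B hB
    unfold S at hB
    rw [Finset.mem_image] at hB
    obtain ⟨J, hJ, rfl⟩ := hB
    rw [Finset.mem_powerset] at hJ
    refine ⟨insert 1 J, ?_, Finset.mem_insert_self _ _, ?_, ?_, rfl⟩
    · intro x hx
      rw [Finset.mem_insert] at hx
      rw [Finset.mem_Icc]
      rcases hx with hx | hx
      · omega
      · have := Finset.mem_Icc.1 (hJ hx)
        omega
    · intro h
      rw [Finset.mem_insert] at h
      rcases h with h | h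
      · omega
      · have := Finset.mem_Icc.1 (hJ h)
        omega
    · intro h
      rw [Finset.mem_insert] at h
      rcases h with h | h
      · omega
      · have := Finset.mem_Icc.1 (hJ h)
        omega
  have h1 := hC (X (n + 3)) (S n) ?_ ?_
  · rw [card_S] at h1
    have h2 := card_X (n + 3)
    have h3 : C * (X (n + 3)).card ≤ C * ((n + 3) * (n + 4)) := Nat.mul_le_mul_left _ h2
    omega
  · intro B hB
    obtain ⟨J, hJ, h1J, h2J, h3J, rfl⟩ := hmem B hB
    refine ⟨?_, ?_, ?_, ?_⟩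
    · exact ⟨φ (pG 2), (mem_A _ _ _).2 ⟨2, ⟨by omega, by omega⟩, h2J, rfl⟩⟩
    · have := translate_mem (m := n + 3) hJ (j := 0) (Or.inl rfl)
      rw [tG_zero, map_zero] at this
      simpa using this
    · refine ⟨φ (tG 1), ?_, translate_mem hJ (Or.inr h1J)⟩
      intro h0
      rw [← map_zero φ] at h0
      have := DFunLike.congr_fun (φ_inj h0) (2 * 1 + 1)
      rw [tG_odd] at this
      simp at this
    · intro B hAB hB
      obtain ⟨b, hbB, hbA⟩ := Finset.exists_of_ssubset hAB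
      -- position 0
      have p0 := hB (φ (tG 0)) (translate_mem hJ (Or.inl rfl))
      have pj : ∀ j ∈ J, b + φ (tG j) ∈ X (n + 3) := by
        intro j hj
        have := hB (φ (tG j)) (translate_mem hJ (Or.inr hj))
        exact this (Finset.mem_image.2 ⟨b, hbB, rfl⟩)
      have b0 : b ∈ X (n + 3) := by
        have := p0 (Finset.mem_image.2 ⟨b, hbB, rfl⟩)
        rw [tG_zero, map_zero, add_zero] at this
        exact this
      obtain ⟨g, rfl⟩ := mem_X' _ _ b0
      rw [mem_X] at b0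
      obtain ⟨i, k, hi, hk, hik, rfl⟩ := b0
      have hk0 : k = 0 := by
        have e1 := pj 1 h1J
        rw [← map_add, mem_X] at e1
        obtain ⟨i', k', _, _, _, hE⟩ := e1
        have c1 := DFunLike.congr_fun hE (2 * 1 + 1)
        have c2 := DFunLike.congr_fun hE (2 * k + 1)
        simp only [Finsupp.add_apply, pG_odd, tG_odd, and_true, if_true] at c1 c2
        by_contra hk0
        split_ifs at c1 c2 <;> omega
      subst hk0
      apply hbA
      rw [mem_A]
      refine ⟨i, hi, ?_, by rw [tG_zero, add_zero]⟩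
      intro hiJ
      have e1 := pj i hiJ
      rw [← map_add, mem_X, tG_zero, add_zero] at e1
      obtain ⟨i', k', _, _, hne, hE⟩ := e1
      have := decomp hE
      omega
  · intro B1 hB1 B2 hB2 t ht
    obtain ⟨J, hJ, h1J, h2J, h3J, rfl⟩ := hmem B1 hB1
    obtain ⟨J', hJ', h1J', h2J', h3J', rfl⟩ := hmem B2 hB2
    have hsub : (A (n + 3) J).image (· + t) ⊆ X (n + 3) := by
      rw [← ht]
      have := translate_mem (m := n + 3) hJ' (j := 0) (Or.inl rfl)
      rw [tG_zero, map_zero] at this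
      simpa using this
    obtain ⟨k, hk, hkJ, rfl⟩ := positions (by omega) h2J h3J hsub
    -- φ (pG 2 + tG k) ∈ A J'
    have : φ (pG 2) + φ (tG k) ∈ A (n + 3) J' := by
      rw [ht]
      exact Finset.mem_image.2 ⟨φ (pG 2), (mem_A _ _ _).2 ⟨2, ⟨by omega, by omega⟩, h2J, rfl⟩, rfl⟩
    rw [← map_add, mem_A] at this
    obtain ⟨i, _, _, hE⟩ := this
    have hk0 : k = 0 := by
      have := decomp (a := 2) (i := i) (k := k) (l := 0) (by rw [hE, tG_zero, add_zero])
      exact this.2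
    subst hk0
    rw [ht, tG_zero, map_zero]
    simp

end Pool.Agent.S06658
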