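import Pool.Statements.S06688
-- import your own Pool.Agent.* helpers here

set_option autoImplicit false
open Pool Pool.MP_879572_co

namespace Pool.Agent.S06688

/-- Eight elements of the coset `1 + H`, where `H` is the subgroup of order 15 of `ZMod 915`. -/
def Bex : Finset (ZMod 915) := {1, 62, 184, 245, 367, 550, 611, 794}

/-- The subgroup of order 15 of `ZMod 915` together with 8 elements of the next coset. -/
def Aex : Finset (ZMod 915) :=
  (Finset.range 15).image (fun j => ((61 * j : ℕ) : ZMod 915)) ∪ Bex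

lemma Aex_card : Aex.card = 23 := by decide +kernel

abbrev f : ZMod 915 →+* ZMod 61 := ZMod.castHom (show 61 ∣ 915 by norm_num) (ZMod 61)

def Tex : Finset (ZMod 915) :=
  (Finset.univ : Finset (ZMod 915)).filter
    (fun s => f s = 0 ∨ f s = 1 ∨ f s = 2 ∨ (f s = 3 ∧ s ≠ 369))

lemma Tex_card : Tex.card = 59 := by decide +kernel

lemma Aex_mem : ∀ x ∈ Aex, f x = 0 ∨ (f x = 1 ∧ x ∈ Bex) := by decide +kernel

lemma Bex_sums : ∀ x ∈ Bex, ∀ y ∈ Bex, ∀ z ∈ Bex, x ≠ y → x ≠ z → y ≠ z → x + (y + z) ≠ 369 := by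
  decide +kernel

lemma sums_mem (x y z : ZMod 915) (hx : x ∈ Aex) (hy : y ∈ Aex) (hz : z ∈ Aex)
    (hxy : x ≠ y) (hxz : x ≠ z) (hyz : y ≠ z) : x + (y + z) ∈ Tex := by
  rw [Tex, Finset.mem_filter]
  refine ⟨Finset.mem_univ _, ?_⟩
  rw [map_add, map_add]
  rcases Aex_mem x hx with h1 | ⟨h1, b1⟩ <;> rcases Aex_mem y hy with h2 | ⟨h2, b2⟩ <;>
    rcases Aex_mem z hz with h3 | ⟨h3, b3⟩ <;> rw [h1, h2, h3]
  · left; decide
  · right; left; decide
  · right; left; decide
  · right; right; left; decide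
  · right; left; decide
  · right; right; left; decide
  · right; right; left; decide
  · right; right; right
    exact ⟨by decide, Bex_sums x b1 y b2 z b3 hxy hxz hyz⟩

lemma img_card : ((Aex.powersetCard 3).image (fun B : Finset (ZMod 915) => ∑ x ∈ B, x)).card ≤ 59 := by
  rw [← Tex_card]
  apply Finset.card_le_card
  intro s hs
  rw [Finset.mem_image] at hs
  obtain ⟨B, hB, rfl⟩ := hs
  rw [Finset.mem_powersetCard] at hB
  obtain ⟨hBA, hB3⟩ := hB
  obtain ⟨x, y, z, hxy, hxz, hyz, rfl⟩ := Finset.card_eq_three.1 hB3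
  rw [Finset.sum_insert (by simp [hxy, hxz]), Finset.sum_pair hyz]
  exact sums_mem x y z (hBA (by simp)) (hBA (by simp)) (hBA (by simp)) hxy hxz hyz

lemma divs' : ∀ d < 916, d ∣ 915 → 60 ≤ (3 * ((23 + d - 1) / d) - 2) * d := by decide +kernel

lemma divs (d : ℕ) (hd : d ∣ 915) : 60 ≤ (3 * ((23 + d - 1) / d) - 2) * d :=
  divs' d (Nat.lt_succ_of_le (Nat.le_of_dvd (by norm_num) hd)) hd


/-- The negation of the preceding statement: For 4 ≤ m ≤ n, the least size of the set of sums of 3 distinct elements of an m-element subset of ℤ_n is min(u(n,m,3), c), where c is 3m−3−gcd(n,m−1), 3m−10, 3m−9 or 3m−8 according to the stated case conditions. -/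
theorem result :
    ¬ (∀ n m : ℕ, 4 ≤ m → m ≤ n →
      IsLeast
        {k : ℕ | ∃ A : Finset (ZMod n), A.card = m ∧
            ((A.powersetCard 3).image (fun B : Finset (ZMod n) => ∑ x ∈ B, x)).card = k}
        (min (sInf ((fun d : ℕ => (3 * ((m + d - 1) / d) - 2) * d) '' {d : ℕ | d ∣ n}))
          (if 8 ≤ Nat.gcd n (m - 1) then 3 * m - 3 - Nat.gcd n (m - 1)
           else if Nat.gcd n (m - 1) = 7
                  ∨ (Nat.gcd n (m - 1) ≤ 5 ∧ 3 ∣ n ∧ 3 ∣ m)
                  ∨ (Nat.gcd n (m - 1) ≤ 5 ∧ (3 * m - 9) ∣ n ∧ 5 ∣ (m - 3))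
             then 3 * m - 10
           else if Nat.gcd n (m - 1) = 6 ∨ (m = 6 ∧ 10 ∣ n ∧ ¬ 3 ∣ n)
             then 3 * m - 9
           else 3 * m - 8))) := by
  intro h
  have hl := h 915 23 (by norm_num) (by norm_num)
  have h1 := hl.2 ⟨Aex, Aex_card, rfl⟩
  have h2 := le_trans h1 img_card
  have hg : Nat.gcd 915 (23 - 1) = 1 := by decide
  rw [hg] at h2
  have h60 : 60 ≤ sInf ((fun d : ℕ => (3 * ((23 + d - 1) / d) - 2) * d) '' {d : ℕ | d ∣ 915}) := by
    apply le_csInf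
    · exact ⟨_, 1, one_dvd _, rfl⟩
    · rintro _ ⟨d, hd, rfl⟩
      exact divs d hd
  rcases min_le_iff.1 h2 with h3 | h3
  · omega
  · norm_num at h3

end Pool.Agent.S06688
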