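import Pool.Statements.S06694
import Pool.Agent.H14.Agree

set_option autoImplicit false
open Classical
open Pool Pool.MP_880652_co

namespace Pool.Agent.S06694

open Pool.Agent.H14.Agree

theorem exists_c : ∃ c : ℕ → ℕ, c 4 = 792 ∧ c 5 = 764 ∧ c 6 = 792 ∧
      ∀ i, c i = ((pl 7).map (fun l => if agr l = i then 1 else 0)).sum := by
  refine ⟨fun i => ((pl 7).map (fun l => if agr l = i then 1 else 0)).sum, ?_, ?_, ?_, ?_⟩
  · beta_reduce
    exact cnt4
  · beta_reduce
    exact cnt5
  · beta_reduce
    exact cnt6
  · intro i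
    beta_reduce
    exact Eq.refl _

/-- The negation of the preceding statement: For every finite poset with k comparable pairs, let a_i count linear orders of its points agreeing with exactly i comparable pairs; then a_0,…,a_k increases weakly up to some index and decreases weakly after it. -/
theorem result :
    ¬ (∀ (α : Type) [Fintype α] [PartialOrder α] (a : ℕ → ℕ),
      (∀ i : ℕ, a i =
        (Finset.univ.filter (fun σ : α ≃ Fin (Fintype.card α) =>
          (Finset.univ.filter (fun p : α × α => p.1 < p.2 ∧ σ p.1 < σ p.2)).card = i)).card) →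
      ∃ m : ℕ,
        (∀ i j : ℕ, i ≤ j → j ≤ m → a i ≤ a j) ∧
        (∀ i j : ℕ, m ≤ i → i ≤ j →
          j ≤ (Finset.univ.filter (fun p : α × α => p.1 < p.2)).card → a j ≤ a i)) := by
  intro h
  obtain ⟨c, c4, c5, c6, hc⟩ := exists_c
  have hh := @h (Fin 7) _ P7 c (by
    intro i
    refine (hc i).trans ?_
    rw [← outer_eq (Fintype.card (Fin 7)) (Fintype.card_fin 7) i]
    apply congrArg Finset.card
    ext σ
    simp only [Finset.mem_filter, Finset.mem_univ, true_and]
    have e : (Finset.univ.filter
        (fun p : Fin 7 × Fin 7 => (p.1, p.2) ∈ prs ∧ σ p.1 < σ p.2)) =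
        (Finset.univ.filter
        (fun p : Fin 7 × Fin 7 => P7.lt p.1 p.2 ∧ σ p.1 < σ p.2)) := by
      ext p
      simp only [Finset.mem_filter, Finset.mem_univ, true_and]
      exact Iff.rfl
    rw [e])
  have hk : (Finset.univ.filter (fun p : Fin 7 × Fin 7 => P7.lt p.1 p.2)).card = 10 := by
    rw [← card_lt]
    apply congrArg Finset.card
    ext p
    simp only [Finset.mem_filter, Finset.mem_univ, true_and]
    exact Iff.rfl
  obtain ⟨m, h1, h2⟩ := hh
  rcases Nat.lt_or_ge 4 m with hm | hm
  · have h3 := h1 4 5 (by norm_num) hm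
    rw [c4, c5] at h3
    omega
  · have h3 := h2 5 6 (by omega) (by norm_num) (by
      refine le_trans ?_ (le_of_eq hk.symm)
      norm_num)
    rw [c5, c6] at h3
    omega

end Pool.Agent.S06694
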