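import Pool.Statements.S06787

set_option autoImplicit false
open Pool Pool.MP_8d311f_co

namespace Pool.Agent.S06787

/-- The dihedral group of order 8: elements `2 a + s` with `a` in `Z_2 x Z_2` (low bit `a_1`,
high bit `a_2`) and `s` in `Z_2`, product `(a, s) (b, t) = (a + b, s + t + a_1 b_2)`. -/
def mulTab : List ℕ := [16434824, 14570689, 9925146, 11788371, 6852524, 4988389, 342846, 2206071]

def mulN (x y : ℕ) : ℕ := (mulTab.getD x 0) / 8 ^ y % 8

def invN (x : ℕ) : ℕ := 14599816 / 8 ^ x % 8

theorem mulN_lt (x y : ℕ) : mulN x y < 8 := Nat.mod_lt _ (by norm_num)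
theorem invN_lt (x : ℕ) : invN x < 8 := Nat.mod_lt _ (by norm_num)

def D : Type := Fin 8

instance : Fintype D := inferInstanceAs (Fintype (Fin 8))
instance : DecidableEq D := inferInstanceAs (DecidableEq (Fin 8))

def mulD (x y : D) : D := (⟨mulN (Fin.val x) (Fin.val y), mulN_lt _ _⟩ : Fin 8)
def invD (x : D) : D := (⟨invN (Fin.val x), invN_lt _⟩ : Fin 8)
def oneD : D := (0 : Fin 8)

instance : Group D where
  mul := mulD
  mul_assoc := by
    show ∀ x y z : D, mulD (mulD x y) z = mulD x (mulD y z)
    decide +kernel
  one := oneD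
  one_mul := by
    show ∀ x : D, mulD oneD x = x
    decide +kernel
  mul_one := by
    show ∀ x : D, mulD x oneD = x
    decide +kernel
  inv := invD
  inv_mul_cancel := by
    show ∀ x : D, mulD (invD x) x = oneD
    decide +kernel

def hTab : List ℕ := [0, 234252246556496, 99607428073440, 192520710462136, 276987363795464, 51077726354704, 147251009140200, 88458555468528, 115723440902216, 207407833927000, 61263812544424, 217872000964856, 161442787193408, 109176091770648, 255917700801952, 32841105729712]

def HN (i j : ℕ) : ℕ := (hTab.getD i 0) / 8 ^ j % 8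

def H (i j : Fin 16) : D := (⟨HN i.val j.val, Nat.mod_lt _ (by norm_num)⟩ : Fin 8)

theorem cardD : Nat.card D = 8 := by
  rw [Nat.card_eq_fintype_card]
  rfl

theorem rows_ok : ∀ i j : Fin 16, i ≠ j → ∀ g : D,
    (Finset.univ.filter (fun k : Fin 16 => mulD (H i k) (invD (H j k)) = g)).card = 2 := by
  decide +kernel

theorem cols_bad : ∃ i j : Fin 16, i ≠ j ∧ ∃ g : D,
    (Finset.univ.filter (fun k : Fin 16 => mulD (H k i) (invD (H k j)) = g)).card ≠ 2 := by
  refine ⟨1, 4, by decide, (2 : Fin 8), ?_⟩
  decide +kernel

/-- There is a finite group N of order w dividing v and a v×v matrix over N such that, for any two distinct rows, each group element occurs exactly v/w times among the entrywise quotients h_ik h_jk⁻¹, while this fails for some pair of distinct columns. -/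
theorem result :
    ∃ (N : Type) (_ : Group N) (_ : Finite N) (v : ℕ) (H : Fin v → Fin v → N),
      Nat.card N ∣ v ∧
      (∀ i j : Fin v, i ≠ j → ∀ g : N,
        Nat.card {k : Fin v // H i k * (H j k)⁻¹ = g} = v / Nat.card N) ∧
      ¬ (∀ i j : Fin v, i ≠ j → ∀ g : N,
        Nat.card {k : Fin v // H k i * (H k j)⁻¹ = g} = v / Nat.card N) := by
  refine ⟨D, inferInstance, inferInstance, 16, H, ?_, ?_, ?_⟩
  · rw [cardD]; norm_num
  · intro i j hij g
    rw [cardD, Nat.card_eq_fintype_card, Fintype.card_subtype]
    exact rows_ok i j hij g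
  · intro hcol
    obtain ⟨i, j, hij, g, hg⟩ := cols_bad
    have := hcol i j hij g
    rw [cardD, Nat.card_eq_fintype_card, Fintype.card_subtype] at this
    exact hg this

end Pool.Agent.S06787
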