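import Pool.Statements.S06842

set_option autoImplicit false
open Pool Pool.MP_921356_co

namespace Pool.Agent.S06842

/-- adjacency masks of a cubic graph on 8 vertices -/
def nb (v : ℕ) : ℕ := [52, 76, 35, 194, 161, 21, 138, 88].getD v 0

/-- a connected cubic graph on 8 vertices -/
def H : SimpleGraph (Fin 8) where
  Adj x y := (nb x.val).testBit y.val = true
  symm := ⟨by decide +kernel⟩
  loopless := ⟨by decide +kernel⟩

instance : DecidableRel H.Adj := fun x y =>
  inferInstanceAs (Decidable ((nb x.val).testBit y.val = true))

theorem key : ∀ b : Fin 8 → Bool,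
    ¬ (5 ≤ (Finset.univ.filter
                (fun v => 1 ≤ (if b v then (1:ℤ) else -1)
                  + ∑ u ∈ H.neighborFinset v, (if b u then (1:ℤ) else -1))).card ∧
          ∑ v, (if b v then (1:ℤ) else -1) ≤ 2) := by
  decide +kernel

theorem conn : H.Connected := by
  decide +kernel

/-- The negation of the preceding statement: Every connected graph of order n and every k with n/2 < k ≤ n admit a ±1 labelling whose closed-neighbourhood sums are ≥ 1 at no fewer than k vertices, with total weight at most 2k − n. -/
theorem result :
    ¬ (∀ (V : Type) [Fintype V] [DecidableEq V] (G : SimpleGraph V) [DecidableRel G.Adj],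
      G.Connected →
      ∀ k : ℕ, Fintype.card V < 2 * k → k ≤ Fintype.card V →
        ∃ f : V → ℤ, (∀ v, f v = 1 ∨ f v = -1) ∧
          k ≤ (Finset.univ.filter
                (fun v => 1 ≤ f v + ∑ u ∈ G.neighborFinset v, f u)).card ∧
          ∑ v, f v ≤ 2 * (k : ℤ) - (Fintype.card V : ℤ)) := by
  intro h
  obtain ⟨f, hf, hc, hw⟩ := h (Fin 8) H conn 5 (by decide) (by decide)
  have hfb : f = fun v => if (decide (f v = 1)) then (1:ℤ) else -1 := by
    funext v
    rcases hf v with h1 | h1 <;> simp [h1]
  apply key (fun v => decide (f v = 1))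
  rw [hfb] at hc hw
  simp only [Fintype.card_fin] at hw
  refine ⟨?_, ?_⟩
  · convert hc using 1
  · norm_num at hw
    simpa using hw

end Pool.Agent.S06842
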