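import Pool.Statements.S06870
-- import your own Pool.Agent.* helpers here

set_option autoImplicit false
open Pool Pool.MP_93ee52_co

namespace Pool.Agent.S06870

/-- oriented adjacency: `a_i = i` (`i < 8`), `b_i = i + 8`, `p = 16, 17`, `q = 18, 19`. -/
def adj0 (u v : ℕ) : Bool :=
  (Nat.blt u 8 && (Nat.beq v (u + 8) || Nat.beq v 16 || Nat.beq v 17)) ||
  (Nat.ble 8 u && Nat.blt u 16 && (Nat.beq v 18 || Nat.beq v 19))

def adjB (u v : ℕ) : Bool := adj0 u v || adj0 v u

def G : SimpleGraph (Fin (10 * 2)) where
  Adj u v := adjB u.val v.val = true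
  symm := ⟨by
    intro u v h
    simp only [adjB, Bool.or_eq_true] at h ⊢
    exact h.symm⟩
  loopless := ⟨by
    intro u
    revert u
    decide +kernel⟩

instance : DecidableRel G.Adj := fun u v =>
  inferInstanceAs (Decidable (adjB u.val v.val = true))

def inS (m v : ℕ) : Bool :=
  (Nat.blt v 8 && Nat.testBit m v) ||
  (Nat.ble 8 v && Nat.blt v 16 && !(Nat.testBit m (v - 8)))

theorem inS_iff (m v : ℕ) : inS m v = true ↔
    (v < 8 ∧ m.testBit v = true) ∨ ((8 ≤ v ∧ v < 16) ∧ m.testBit (v - 8) = false) := by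
  simp [inS]

theorem adj0_iff (u v : ℕ) : adj0 u v = true ↔
    (u < 8 ∧ ((v = u + 8 ∨ v = 16) ∨ v = 17)) ∨ ((8 ≤ u ∧ u < 16) ∧ (v = 18 ∨ v = 19)) := by
  simp [adj0]

theorem indep0 (m u v : ℕ) (hu : inS m u = true) (hv : inS m v = true) : adj0 u v = false := by
  cases h : adj0 u v
  · rfl
  exfalso
  rw [inS_iff] at hu hv
  rw [adj0_iff] at h
  rcases h with ⟨h1, (h2 | h2) | h2⟩ | ⟨h1, h2⟩
  · subst h2
    rcases hu with ⟨_, hu⟩ | ⟨hu1, _⟩
    · rcases hv with ⟨hv1, _⟩ | ⟨_, hv⟩
      · omega
      · rw [Nat.add_sub_cancel, hu] at hv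
        exact absurd hv (by decide)
    · omega
  · rcases hv with ⟨hv1, _⟩ | ⟨hv1, _⟩ <;> omega
  · rcases hv with ⟨hv1, _⟩ | ⟨hv1, _⟩ <;> omega
  · rcases hv with ⟨hv1, _⟩ | ⟨hv1, _⟩ <;> omega

theorem indep_all (m : Fin 254) (u v : Fin (10 * 2))
    (hu : inS (m.val + 1) u.val = true) (hv : inS (m.val + 1) v.val = true) :
      adjB u.val v.val = false := by
  simp only [adjB, indep0 _ _ _ hu hv, indep0 _ _ _ hv hu, Bool.or_false]

theorem exists_bits : ∀ m : Fin 254,
    (∃ i : Fin 8, (m.val + 1).testBit i.val = true) ∧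
    (∃ i : Fin 8, (m.val + 1).testBit i.val = false) := by
  decide +kernel

theorem dom_all (m : Fin 254) (v : Fin (10 * 2))
    (hv : inS (m.val + 1) v.val = false) :
      ∃ u : Fin (10 * 2), inS (m.val + 1) u.val = true ∧ adjB u.val v.val = true := by
  have hv' : ¬ (inS (m.val + 1) v.val = true) := by rw [hv]; decide
  rw [inS_iff] at hv'
  push Not at hv'
  obtain ⟨h1, h2⟩ := hv'
  obtain ⟨⟨i, hi⟩, ⟨j, hj⟩⟩ := exists_bits m
  have hv20 := v.isLt
  by_cases c1 : v.val < 8
  · refine ⟨⟨v.val + 8, by omega⟩, ?_, ?_⟩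
    · rw [inS_iff]
      right
      refine ⟨⟨by simp, by show v.val + 8 < 16; omega⟩, ?_⟩
      simpa using h1 c1
    · simp only [adjB, Bool.or_eq_true]
      right
      rw [adj0_iff]
      left
      exact ⟨c1, Or.inl (Or.inl rfl)⟩
  · by_cases c2 : v.val < 16
    · refine ⟨⟨v.val - 8, by omega⟩, ?_, ?_⟩
      · rw [inS_iff]
        left
        refine ⟨by show v.val - 8 < 8; omega, ?_⟩
        have := h2 ⟨by omega, c2⟩
        simpa using this
      · simp only [adjB, Bool.or_eq_true]
        left
        rw [adj0_iff]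
        left
        exact ⟨by show v.val - 8 < 8; omega, Or.inl (Or.inl (by show v.val = v.val - 8 + 8; omega))⟩
    · by_cases c3 : v.val < 18
      · refine ⟨⟨i.val, by omega⟩, ?_, ?_⟩
        · rw [inS_iff]
          left
          exact ⟨i.isLt, hi⟩
        · simp only [adjB, Bool.or_eq_true]
          left
          rw [adj0_iff]
          left
          refine ⟨i.isLt, ?_⟩
          omega
      · refine ⟨⟨j.val + 8, by omega⟩, ?_, ?_⟩
        · rw [inS_iff]
          right
          refine ⟨⟨by simp, by show j.val + 8 < 16; omega⟩, ?_⟩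
          simpa using hj
        · simp only [adjB, Bool.or_eq_true]
          left
          rw [adj0_iff]
          right
          refine ⟨⟨by show 8 ≤ j.val + 8; omega, by show j.val + 8 < 16; omega⟩, ?_⟩
          omega

theorem inj_all (m m' : Fin 254)
    (h : ∀ v : Fin (10 * 2), inS (m.val + 1) v.val = inS (m'.val + 1) v.val) : m = m' := by
  have key : m.val + 1 = m'.val + 1 := by
    apply Nat.eq_of_testBit_eq
    intro i
    by_cases hi : i < 8
    · have := h ⟨i, by omega⟩
      have e : ∀ k : ℕ, inS k i = k.testBit i := by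
        intro k
        rw [Bool.eq_iff_iff, inS_iff]
        constructor
        · rintro (⟨_, h⟩ | ⟨⟨h, _⟩, _⟩)
          · exact h
          · omega
        · intro h
          exact Or.inl ⟨hi, h⟩
      rw [← e, ← e]
      exact this
    · have hb : ∀ k : ℕ, k < 2 ^ 8 → k.testBit i = false := by
        intro k hk
        apply Nat.testBit_lt_two_pow
        exact lt_of_lt_of_le hk (Nat.pow_le_pow_right (by decide) (by omega))
      rw [hb _ (by omega), hb _ (by omega)]
  exact Fin.ext (by omega)

def f (m : Fin 254) : Set (Fin (10 * 2)) := {v | inS (m.val + 1) v.val = true}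

theorem f_inj : Function.Injective f := by
  intro m m' h
  apply inj_all
  intro v
  have : v ∈ f m ↔ v ∈ f m' := by rw [h]
  simp only [f, Set.mem_ofPred_eq] at this
  rw [Bool.eq_iff_iff]
  exact this

theorem f_max (m : Fin 254) : Maximal G.IsIndepSet (f m) := by
  refine ⟨?_, ?_⟩
  · intro u hu v hv _ hadj
    have := indep_all m u v hu hv
    have h2 : adjB u.val v.val = true := hadj
    rw [this] at h2
    exact absurd h2 (by decide)
  · intro t ht hle v hv
    by_contra hnot
    have hf : inS (m.val + 1) v.val = false := by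
      cases h : inS (m.val + 1) v.val
      · rfl
      · exact absurd h hnot
    obtain ⟨u, hu, huv⟩ := dom_all m v hf
    have hut : u ∈ t := hle hu
    have hne : u ≠ v := by
      intro e
      subst e
      rw [hf] at hu
      exact absurd hu (by decide)
    exact ht hut hv hne huv

/-- the bipartition: `false` on `a_i`, `q`; `true` on `b_i`, `p`. -/
def side (v : ℕ) : Bool := (Nat.ble 8 v && Nat.blt v 18)

theorem side_adj (u v : ℕ) (h : adjB u v = true) : side u ≠ side v := by
  simp only [adjB, Bool.or_eq_true, adj0_iff] at h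
  simp only [side]
  intro e
  rw [Bool.eq_iff_iff] at e
  simp only [Bool.and_eq_true, Nat.ble_eq, Nat.blt_eq] at e
  omega

theorem cliqueFree : G.CliqueFree 3 := by
  intro s hs
  rw [SimpleGraph.is3Clique_iff] at hs
  obtain ⟨a, b, c, hab, hac, hbc, -⟩ := hs
  have h1 := side_adj _ _ hab
  have h2 := side_adj _ _ hac
  have h3 := side_adj _ _ hbc
  revert h1 h2 h3
  cases side a.val <;> cases side b.val <;> cases side c.val <;> simp

theorem mindeg : ∀ v : Fin (10 * 2), 3 ≤ G.degree v := by
  decide +kernel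

/-- The negation of the preceding statement: For every n, every triangle-free simple graph on 10n vertices in which each vertex has degree at least 3 has at most 15^n maximal independent sets (independent sets maximal under inclusion). -/
theorem result :
    ¬ (∀ (n : ℕ) (G : SimpleGraph (Fin (10 * n))) [DecidableRel G.Adj],
      G.CliqueFree 3 →
      (∀ v : Fin (10 * n), 3 ≤ G.degree v) →
      {s : Set (Fin (10 * n)) | Maximal G.IsIndepSet s}.ncard ≤ 15 ^ n) := by
  intro H
  have h1 := H 2 G cliqueFree mindeg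
  have hsub : Set.range f ⊆ {s : Set (Fin (10 * 2)) | Maximal G.IsIndepSet s} := by
    rintro _ ⟨m, rfl⟩
    exact f_max m
  have hfin : {s : Set (Fin (10 * 2)) | Maximal G.IsIndepSet s}.Finite := Set.toFinite _
  have h2 := Set.ncard_le_ncard hsub hfin
  have h3 : (Set.range f).ncard = 254 := by
    rw [← Set.image_univ, Set.ncard_image_of_injective _ f_inj, Set.ncard_univ]
    simp
  rw [h3] at h2
  have := le_trans h2 h1
  norm_num at this

end Pool.Agent.S06870
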