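import Pool.Statements.S07006

set_option autoImplicit false
open Pool Pool.MP_9b74dd_co

namespace Pool.Agent.S07006

/-- neighbourhood masks of the graph -/
def nb (v : ℕ) : ℕ := [448, 292, 146, 368, 396, 330, 169, 341, 187].getD v 0

def adjN (x y : ℕ) : Bool := (nb x).testBit y

/-- an entry `(k, x, y, u, c)`: the strict inequality
`2 a x < a y + a u` (`k = 0`) or `a x + a u < 2 a y` (`k ≠ 0`), with multiplicity `c` -/
abbrev Entry := ℕ × ℕ × ℕ × ℕ × ℕ

def certs : List (ℕ × List Entry) := [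
  (158236, [(1, 4, 1, 5, 1), (0, 2, 5, 4, 1)]),
  (158239, [(1, 4, 1, 8, 1), (0, 2, 8, 4, 1)]),
  (169325, [(0, 1, 4, 8, 1), (1, 8, 2, 4, 1)]),
  (184672, [(0, 6, 1, 0, 1), (1, 0, 5, 1, 1)]),
  (184679, [(1, 0, 3, 8, 1), (0, 6, 8, 0, 1)]),
  (1847269, [(1, 0, 3, 8, 1), (0, 6, 8, 0, 1)]),
  (1847629, [(1, 0, 3, 8, 1), (0, 6, 8, 0, 1)]),
  (184769, [(1, 0, 3, 8, 1), (0, 6, 8, 0, 1)]),
  (185236, [(1, 4, 1, 5, 1), (0, 2, 5, 4, 1)]),
  (185239, [(1, 4, 1, 8, 1), (0, 2, 8, 4, 1)]),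
  (185326947, [(0, 8, 6, 0, 1), (1, 0, 5, 6, 1)]),
  (185329647, [(1, 0, 4, 3, 1), (1, 4, 5, 6, 1), (0, 8, 6, 0, 1), (1, 4, 1, 5, 1)]),
  (18536294, [(0, 1, 3, 2, 1), (1, 2, 5, 3, 1)]),
  (186479, [(1, 0, 5, 8, 1), (0, 6, 8, 0, 1)]),
  (186749, [(1, 0, 5, 8, 1), (0, 6, 8, 0, 1)]),
  (2461789, [(1, 3, 0, 8, 1), (0, 6, 8, 3, 1)]),
  (2461879, [(1, 3, 0, 8, 1), (0, 6, 8, 3, 1)]),
  (24671895, [(0, 5, 4, 1, 1), (1, 1, 3, 4, 1)]),
  (24678195, [(0, 5, 4, 1, 1), (1, 1, 3, 4, 1)]),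
  (2468179, [(1, 3, 7, 8, 1), (0, 6, 8, 3, 1)]),
  (2468719, [(0, 6, 8, 3, 1), (1, 3, 7, 8, 1)]),
  (253189, [(1, 1, 4, 8, 1), (0, 2, 8, 1, 1)]),
  (253819, [(1, 1, 4, 8, 1), (0, 2, 8, 1, 1)]),
  (25389, [(1, 1, 4, 8, 1), (0, 2, 8, 1, 1)]),
  (25831, [(0, 2, 0, 1, 1), (1, 1, 7, 0, 1)]),
  (25837, [(0, 2, 6, 1, 1), (1, 1, 7, 6, 1)]),
  (25839, [(1, 1, 4, 8, 1), (0, 2, 8, 1, 1)]),
  (2641789, [(1, 3, 0, 8, 1), (0, 6, 8, 3, 1)]),
  (2641879, [(1, 3, 0, 8, 1), (0, 6, 8, 3, 1)]),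
  (264718953, [(1, 3, 7, 2, 24), (0, 5, 2, 1, 1), (0, 8, 2, 1, 11), (0, 6, 8, 5, 2), (0, 0, 4, 6, 4), (0, 8, 2, 0, 8), (1, 1, 3, 8, 12)]),
  (264781953, [(1, 1, 3, 4, 2), (0, 5, 2, 1, 1), (1, 3, 7, 2, 4), (0, 6, 8, 5, 2), (0, 0, 4, 6, 4), (0, 8, 2, 1, 1)]),
  (2648179, [(1, 3, 7, 8, 1), (0, 6, 8, 3, 1)]),
  (2648719, [(0, 6, 8, 3, 1), (1, 3, 7, 8, 1)]),
  (283459, [(0, 2, 8, 1, 1), (1, 1, 7, 8, 1)]),
  (283549, [(0, 2, 8, 1, 1), (1, 1, 7, 8, 1)]),
  (28359, [(0, 2, 8, 1, 1), (1, 1, 7, 8, 1)]),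
  (28534, [(0, 2, 3, 1, 1), (1, 1, 4, 3, 1)]),
  (28539, [(0, 2, 8, 1, 1), (1, 1, 7, 8, 1)]),
  (3184679, [(1, 0, 3, 8, 1), (0, 6, 8, 0, 1)]),
  (3184769, [(1, 0, 3, 8, 1), (0, 6, 8, 0, 1)]),
  (3186479, [(1, 0, 5, 8, 1), (0, 6, 8, 0, 1)]),
  (3186749, [(1, 0, 5, 8, 1), (0, 6, 8, 0, 1)]),
  (3591784, [(1, 2, 8, 3, 1), (1, 8, 6, 3, 3), (0, 0, 3, 8, 1), (0, 7, 3, 0, 2), (0, 7, 3, 2, 1)]),
  (3591786, [(1, 2, 8, 5, 1), (1, 8, 6, 5, 3), (0, 0, 5, 8, 1), (0, 7, 5, 0, 2), (0, 7, 5, 2, 1)]),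
  (3591874, [(1, 2, 8, 3, 1), (0, 7, 3, 2, 1)]),
  (3591876, [(1, 2, 8, 5, 1), (0, 7, 5, 2, 1)]),
  (3597184, [(0, 0, 3, 8, 1), (1, 8, 6, 3, 1)]),
  (3597186, [(0, 0, 5, 8, 1), (1, 8, 6, 5, 1)]),
  (3597814, [(1, 8, 6, 0, 2), (0, 7, 3, 2, 1), (1, 2, 8, 3, 1)]),
  (3597816, [(1, 8, 6, 0, 2), (0, 7, 5, 2, 1), (1, 2, 8, 5, 1)]),
  (3598174, [(0, 7, 3, 2, 1), (1, 2, 8, 3, 1)]),
  (3598176, [(0, 7, 5, 2, 1), (1, 2, 8, 5, 1)]),
  (3598714, [(0, 0, 3, 8, 1), (1, 8, 6, 3, 1)]),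
  (3598716, [(0, 0, 5, 8, 1), (1, 8, 6, 5, 1)]),
  (36294, [(0, 1, 3, 2, 1), (1, 2, 5, 3, 1)]),
  (36921, [(1, 2, 8, 0, 1), (0, 1, 0, 2, 1)]),
  (36924, [(1, 2, 5, 3, 1), (0, 1, 3, 2, 1)]),
  (3814679, [(1, 0, 3, 8, 1), (0, 6, 8, 0, 1)]),
  (3814769, [(1, 0, 3, 8, 1), (0, 6, 8, 0, 1)]),
  (3816479, [(1, 0, 5, 8, 1), (0, 6, 8, 0, 1)]),
  (3816749, [(1, 0, 5, 8, 1), (0, 6, 8, 0, 1)]),
  (384596, [(0, 4, 5, 2, 1), (1, 2, 3, 5, 1)]),
  (384956, [(1, 2, 3, 5, 1), (0, 4, 5, 2, 1)]),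
  (389456, [(1, 2, 8, 5, 1), (0, 4, 5, 2, 1)]),
  (389546, [(0, 4, 5, 2, 1), (1, 2, 8, 5, 1)]),
  (39264, [(1, 2, 8, 3, 1), (0, 1, 3, 2, 1)]),
  (392674, [(1, 2, 8, 3, 1), (0, 1, 3, 2, 1)]),
  (392764, [(1, 2, 8, 3, 1), (0, 1, 3, 2, 1)]),
  (39624, [(1, 2, 8, 3, 1), (0, 1, 3, 2, 1)]),
  (39627, [(1, 2, 5, 6, 1), (0, 1, 6, 2, 1)]),
  (458239, [(1, 4, 1, 8, 1), (0, 2, 8, 4, 1)]),
  (461789, [(1, 3, 0, 8, 1), (0, 6, 8, 3, 1)]),
  (461873, [(1, 3, 7, 2, 1), (0, 6, 2, 3, 1)]),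
  (461879, [(1, 3, 0, 8, 1), (0, 6, 8, 3, 1)]),
  (468179, [(1, 3, 7, 8, 1), (0, 6, 8, 3, 1)]),
  (468719, [(0, 6, 8, 3, 1), (1, 3, 7, 8, 1)]),
  (469328, [(0, 1, 7, 8, 1), (1, 8, 2, 7, 1)]),
  (485239, [(1, 4, 1, 8, 1), (0, 2, 8, 4, 1)]),
  (58236, [(1, 4, 1, 5, 1), (0, 2, 5, 4, 1)]),
  (58239, [(1, 4, 1, 8, 1), (0, 2, 8, 4, 1)]),
  (6253189, [(1, 1, 4, 8, 1), (0, 2, 8, 1, 1)]),
  (6253819, [(1, 1, 4, 8, 1), (0, 2, 8, 1, 1)]),
  (625389, [(1, 1, 4, 8, 1), (0, 2, 8, 1, 1)]),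
  (625831, [(0, 2, 0, 1, 1), (1, 1, 7, 0, 1)]),
  (625839, [(1, 1, 4, 8, 1), (0, 2, 8, 1, 1)]),
  (628359, [(0, 2, 8, 1, 1), (1, 1, 7, 8, 1)]),
  (628539, [(0, 2, 8, 1, 1), (1, 1, 7, 8, 1)]),
  (641789, [(1, 3, 0, 8, 1), (0, 6, 8, 3, 1)]),
  (641873, [(1, 3, 7, 2, 1), (0, 6, 2, 3, 1)]),
  (641879, [(1, 3, 0, 8, 1), (0, 6, 8, 3, 1)]),
  (648179, [(1, 3, 7, 8, 1), (0, 6, 8, 3, 1)]),
  (648719, [(0, 6, 8, 3, 1), (1, 3, 7, 8, 1)]),
  (69325, [(0, 1, 4, 8, 1), (1, 8, 2, 4, 1)]),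
  (69328, [(0, 1, 7, 8, 1), (1, 8, 2, 7, 1)]),
  (7158239, [(1, 4, 1, 8, 1), (0, 2, 8, 4, 1)]),
  (7185239, [(1, 4, 1, 8, 1), (0, 2, 8, 4, 1)]),
  (746923581, [(1, 6, 8, 0, 1), (0, 5, 4, 6, 1), (0, 1, 4, 5, 1), (0, 4, 0, 3, 1)]),
  (7469325, [(0, 1, 4, 8, 1), (1, 8, 2, 4, 1)]),
  (749263, [(1, 3, 1, 2, 1), (0, 5, 2, 3, 1)]),
  (7496235, [(0, 5, 4, 6, 1), (1, 6, 8, 4, 1)]),
  (7496325, [(0, 1, 4, 8, 1), (1, 8, 2, 4, 1)]),
  (758239, [(1, 4, 1, 8, 1), (0, 2, 8, 4, 1)]),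
  (769325, [(0, 1, 4, 8, 1), (1, 8, 2, 4, 1)]),
  (769543, [(1, 5, 4, 2, 1), (0, 3, 2, 5, 1)]),
  (785239, [(1, 4, 1, 8, 1), (0, 2, 8, 4, 1)]),
  (78912, [(1, 6, 8, 1, 1), (0, 0, 1, 6, 1)]),
  (78915, [(1, 6, 8, 4, 1), (0, 0, 4, 6, 1)]),
  (791385, [(1, 6, 8, 4, 1), (0, 0, 4, 6, 1)]),
  (791835, [(1, 6, 8, 4, 1), (0, 0, 4, 6, 1)]),
  (79185, [(1, 6, 8, 4, 1), (0, 0, 4, 6, 1)]),
  (798135, [(1, 6, 8, 4, 1), (0, 0, 2, 6, 1)]),
  (79815, [(1, 6, 8, 4, 1), (0, 0, 4, 6, 1)]),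
  (814672, [(0, 6, 1, 0, 1), (1, 0, 5, 1, 1)]),
  (814679, [(1, 0, 3, 8, 1), (0, 6, 8, 0, 1)]),
  (8147269, [(1, 0, 3, 8, 1), (0, 6, 8, 0, 1)]),
  (8147629, [(1, 0, 3, 8, 1), (0, 6, 8, 0, 1)]),
  (814769, [(1, 0, 3, 8, 1), (0, 6, 8, 0, 1)]),
  (816479, [(1, 0, 5, 8, 1), (0, 6, 8, 0, 1)]),
  (816749, [(1, 0, 5, 8, 1), (0, 6, 8, 0, 1)]),
  (85236, [(1, 4, 1, 5, 1), (0, 2, 5, 4, 1)]),
  (85239, [(1, 4, 1, 8, 1), (0, 2, 8, 4, 1)]),
  (8536294, [(0, 1, 3, 2, 1), (1, 2, 5, 3, 1)])]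

/-- a new last vertex `y` is impossible -/
def kchk (L : List (ℕ × ℕ)) (M y : ℕ) : Bool :=
  L.any fun p => !(adjN p.1 y) && ((nb p.1 ||| M) != M) && ((nb y &&& p.2) != 0)

def echk (L : List (ℕ × ℕ)) (M : ℕ) (e : Entry) : Bool :=
  L.any fun px => (px.1 == e.2.1) && L.any fun py => (py.1 == e.2.2.1) &&
    py.2.testBit e.2.1 && !(adjN e.2.1 e.2.2.1) && M.testBit e.2.2.2.1 &&
      (if e.1 = 0 then ((nb e.2.2.1 &&& px.2) != 0) && adjN e.2.1 e.2.2.2.1
        else ((nb e.2.1 ||| py.2) != py.2) && adjN e.2.2.1 e.2.2.2.1)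

def dl (x v : ℕ) : ℤ := if v = x then 1 else 0

def cf (e : Entry) (v : ℕ) : ℤ :=
  if e.1 = 0 then 2 * dl e.2.1 v - dl e.2.2.1 v - dl e.2.2.2.1 v
  else dl e.2.1 v + dl e.2.2.2.1 v - 2 * dl e.2.2.1 v

def coefT : List Entry → ℕ → ℤ
  | [], _ => 0
  | e :: C, v => (e.2.2.2.2 : ℤ) * cf e v + coefT C v

def schk (C : List Entry) : List (ℕ × ℕ) → ℤ → Bool
  | [], acc => decide (acc = 0)
  | p :: L, acc => decide (0 ≤ acc + coefT C p.1) && schk C L (acc + coefT C p.1)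

def fchk (L : List (ℕ × ℕ)) (M : ℕ) (C : List Entry) : Bool :=
  !C.isEmpty && C.all (fun e => echk L M e && decide (0 < e.2.2.2.2)) && schk C L 0

def run : ℕ → List (ℕ × ℕ) → ℕ → ℕ → List (ℕ × List Entry) → Option (List (ℕ × List Entry))
  | 0, _, _, _, _ => none
  | f + 1, L, M, code, s =>
    let ext := fun (_ : Unit) =>
      if 9 ≤ L.length then none else
        (List.range 9).foldlM (fun s v =>
          if M.testBit v then some s else
          if kchk L M v then some s else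
          run f ((v, M) :: L) (M ||| 2 ^ v) (code * 10 + v + 1) s) s
    match s with
    | [] => ext ()
    | (c, C) :: s' => if c = code then (if fchk L M C then some s' else none) else ext ()

set_option maxRecDepth 1000000 in
theorem run_ok : (run 10 [] 0 0 certs).isSome = true := by decide +kernel

/-! ### semantics -/

structure Ctx where
  a : ℕ → ℝ
  ρ : ℕ → ℝ
  pos : ℕ → ℕ
  H1 : ∀ x y, x < 9 → y < 9 → adjN x y = true → |a x - a y| ≤ ρ x
  H2 : ∀ x y, x < 9 → y < 9 → x ≠ y → adjN x y = false → ρ x < |a x - a y| ∨ ρ y < |a x - a y|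
  hpos : ∀ u v, u < 9 → v < 9 → pos u ≤ pos v → a u ≤ a v
  hinj : ∀ u v, u < 9 → v < 9 → pos u = pos v → u = v
  hsurj : ∀ k, k < 9 → ∃ v, v < 9 ∧ pos v = k

theorem adj_lt {x y : ℕ} (h : adjN x y = true) : y < 9 := by
  have key : ∀ x, nb x < 2 ^ 9 := by
    intro x
    unfold nb
    rcases Nat.lt_or_ge x 9 with hx | hx
    · interval_cases x <;> decide
    · rw [List.getD_eq_default]
      · decide
      · simpa using hx
  by_contra hcon
  push Not at hcon
  have h1 : nb x < 2 ^ y := lt_of_lt_of_le (key x) (Nat.pow_le_pow_right (by norm_num) hcon)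
  have := Nat.testBit_lt_two_pow h1
  unfold adjN at h
  rw [this] at h
  exact absurd h (by decide)

/-- compatibility of a prefix (in reverse order, with masks) with the order -/
def Compat (K : Ctx) : List (ℕ × ℕ) → ℕ → Prop
  | [], M => M = 0
  | (v, mb) :: L, M => v < 9 ∧ K.pos v = L.length ∧ M = mb ||| 2 ^ v ∧ Compat K L mb

theorem Compat.bit {K : Ctx} : ∀ {L : List (ℕ × ℕ)} {M : ℕ}, Compat K L M → ∀ u,
    (M.testBit u = true ↔ (u < 9 ∧ K.pos u < L.length)) := by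
  intro L
  induction L with
  | nil =>
    intro M h u
    have : M = 0 := h
    subst this
    simp
  | cons p L ih =>
    intro M h u
    obtain ⟨v, mb⟩ := p
    obtain ⟨h1, h2, h3, h4⟩ := h
    rw [h3, Nat.testBit_or, Nat.testBit_two_pow, Bool.or_eq_true, ih h4 u, decide_eq_true_iff,
      List.length_cons]
    constructor
    · rintro (⟨h5, h6⟩ | rfl)
      · exact ⟨h5, by omega⟩
      · exact ⟨h1, by omega⟩
    · rintro ⟨h5, h6⟩
      rcases Nat.lt_or_ge (K.pos u) L.length with h7 | h7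
      · exact Or.inl ⟨h5, h7⟩
      · right
        exact K.hinj v u h1 h5 (by omega)

theorem Compat.mem {K : Ctx} : ∀ {L : List (ℕ × ℕ)} {M : ℕ}, Compat K L M → ∀ p ∈ L,
    p.1 < 9 ∧ K.pos p.1 < L.length ∧
      ∀ u, (p.2.testBit u = true ↔ (u < 9 ∧ K.pos u < K.pos p.1)) := by
  intro L
  induction L with
  | nil => intro M _ p hp; simp at hp
  | cons q L ih =>
    intro M h p hp
    obtain ⟨v, mb⟩ := q
    obtain ⟨h1, h2, h3, h4⟩ := h
    rw [List.mem_cons] at hp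
    rcases hp with rfl | hp
    · refine ⟨h1, ?_, ?_⟩
      · simp only [List.length_cons]; omega
      · intro u
        rw [h4.bit u, h2]
    · obtain ⟨a1, a2, a3⟩ := ih h4 p hp
      refine ⟨a1, ?_, a3⟩
      simp only [List.length_cons]; omega

theorem and_ne {a b : ℕ} (h : ((a &&& b) != 0) = true) :
    ∃ i, a.testBit i = true ∧ b.testBit i = true := by
  have h1 : a &&& b ≠ 0 := by simpa using h
  obtain ⟨i, hi⟩ := Nat.exists_testBit_of_ne_zero h1
  rw [Nat.testBit_and, Bool.and_eq_true] at hi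
  exact ⟨i, hi⟩

theorem or_ne {a b : ℕ} (h : ((a ||| b) != b) = true) :
    ∃ i, a.testBit i = true ∧ b.testBit i = false := by
  have h1 : a ||| b ≠ b := by simpa using h
  obtain ⟨i, hi⟩ := Nat.exists_testBit_ne_of_ne h1
  rw [Nat.testBit_or] at hi
  refine ⟨i, ?_⟩
  cases ha : a.testBit i <;> cases hb : b.testBit i <;> simp_all

/-- If some neighbour of `x` is not before `y` then `x` does not kill `y`, so `y` kills `x`. -/
theorem killB (K : Ctx) {x y u : ℕ} (hx : x < 9) (hy : y < 9) (hxy : K.pos x < K.pos y)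
    (hn : adjN x y = false) (hu : adjN x u = true) (hpu : K.pos y ≤ K.pos u) :
    K.ρ y < K.a y - K.a x := by
  have hu9 := adj_lt hu
  have h0 : x ≠ y := by rintro rfl; omega
  have h1 := K.H2 x y hx hy h0 hn
  have h2 := K.hpos x y hx hy hxy.le
  have h3 := K.hpos y u hy hu9 hpu
  have h4 := K.H1 x u hx hu9 hu
  rw [abs_sub_comm (K.a x) (K.a y), abs_of_nonneg (by linarith)] at h1
  rw [abs_sub_comm, abs_of_nonneg (by linarith)] at h4
  rcases h1 with h1 | h1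
  · linarith
  · exact h1

theorem killA (K : Ctx) {x y w : ℕ} (hx : x < 9) (hy : y < 9) (hxy : K.pos x < K.pos y)
    (hn : adjN x y = false) (hw : adjN y w = true) (hpw : K.pos w ≤ K.pos x) :
    K.ρ x < K.a y - K.a x := by
  have hw9 := adj_lt hw
  have h0 : x ≠ y := by rintro rfl; omega
  have h1 := K.H2 x y hx hy h0 hn
  have h2 := K.hpos x y hx hy hxy.le
  have h3 := K.hpos w x hw9 hx hpw
  have h4 := K.H1 y w hy hw9 hw
  rw [abs_sub_comm (K.a x) (K.a y), abs_of_nonneg (by linarith)] at h1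
  rw [abs_of_nonneg (by linarith)] at h4
  rcases h1 with h1 | h1
  · exact h1
  · linarith

theorem kchk_sound (K : Ctx) {L : List (ℕ × ℕ)} {M y : ℕ} (hc : Compat K L M) (hy : y < 9)
    (hpy : K.pos y = L.length) (h : kchk L M y = true) : False := by
  unfold kchk at h
  rw [List.any_eq_true] at h
  obtain ⟨p, hp, h⟩ := h
  rw [Bool.and_eq_true, Bool.and_eq_true, Bool.not_eq_true'] at h
  obtain ⟨⟨h1, h2⟩, h3⟩ := h
  obtain ⟨a1, a2, a3⟩ := hc.mem p hp
  obtain ⟨u, hu1, hu2⟩ := or_ne h2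
  obtain ⟨w, hw1, hw2⟩ := and_ne h3
  have hu9 := adj_lt (x := p.1) (y := u) hu1
  have hpu : L.length ≤ K.pos u := by
    by_contra hcon
    push Not at hcon
    have := (hc.bit u).2 ⟨hu9, hcon⟩
    rw [this] at hu2
    exact absurd hu2 (by decide)
  have hpw := ((a3 w).1 hw2).2
  have e1 := killB K a1 hy (by omega) h1 hu1 (by omega)
  have e2 := killA K a1 hy (by omega) h1 hw1 (by omega)
  have h0 : p.1 ≠ y := by intro h; rw [h] at a2; omega
  have h4 := K.hpos p.1 y a1 hy (by omega)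
  -- both kill; contradiction with the neighbour `u` of `p.1`
  have h5 := K.H1 p.1 u a1 hu9 hu1
  have h6 := K.hpos y u hy hu9 (by omega)
  rw [abs_sub_comm, abs_of_nonneg (by linarith)] at h5
  linarith

/-- value of a combination on a prefix -/
noncomputable def val (K : Ctx) (f : ℕ → ℤ) : List (ℕ × ℕ) → ℝ
  | [] => 0
  | p :: L => (f p.1 : ℝ) * K.a p.1 + val K f L

theorem val_add (K : Ctx) (f g : ℕ → ℤ) (L : List (ℕ × ℕ)) :
    val K (fun v => f v + g v) L = val K f L + val K g L := by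
  induction L with
  | nil => simp [val]
  | cons p L ih => simp only [val, ih]; push_cast; ring

theorem val_sub (K : Ctx) (f g : ℕ → ℤ) (L : List (ℕ × ℕ)) :
    val K (fun v => f v - g v) L = val K f L - val K g L := by
  induction L with
  | nil => simp [val]
  | cons p L ih => simp only [val, ih]; push_cast; ring

theorem val_smul (K : Ctx) (c : ℤ) (f : ℕ → ℤ) (L : List (ℕ × ℕ)) :
    val K (fun v => c * f v) L = c * val K f L := by
  induction L with
  | nil => simp [val]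
  | cons p L ih => simp only [val, ih]; push_cast; ring

theorem val_dl_notMem (K : Ctx) {L : List (ℕ × ℕ)} {x : ℕ} (h : ∀ p ∈ L, p.1 ≠ x) :
    val K (dl x) L = 0 := by
  induction L with
  | nil => simp [val]
  | cons p L ih =>
    simp only [val]
    rw [ih (fun q hq => h q (List.mem_cons_of_mem _ hq))]
    have := h p List.mem_cons_self
    simp [dl, this]

theorem val_dl (K : Ctx) : ∀ {L : List (ℕ × ℕ)} {M : ℕ}, Compat K L M → ∀ {x : ℕ},
    M.testBit x = true → val K (dl x) L = K.a x := by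
  intro L
  induction L with
  | nil =>
    intro M h x hx
    have : M = 0 := h
    subst this
    simp at hx
  | cons p L ih =>
    intro M h x hx
    have hx' := (h.bit x).1 hx
    obtain ⟨v, mb⟩ := p
    obtain ⟨h1, h2, h3, h4⟩ := h
    simp only [val]
    rw [List.length_cons] at hx'
    rcases Nat.lt_or_ge (K.pos x) L.length with h7 | h7
    · rw [ih h4 ((h4.bit x).2 ⟨hx'.1, h7⟩)]
      have : v ≠ x := by rintro rfl; omega
      simp [dl, this]
    · have hvx : v = x := K.hinj v x h1 hx'.1 (by omega)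
      subst hvx
      rw [val_dl_notMem]
      · simp [dl]
      · intro q hq hqv
        have := (h4.mem q hq).2.1
        rw [hqv] at this
        omega

theorem schk_sound (K : Ctx) (C : List Entry) : ∀ {L : List (ℕ × ℕ)} {M : ℕ},
    Compat K L M → ∀ (acc : ℤ) (b : ℝ), 0 ≤ acc → (∀ p ∈ L, K.a p.1 ≤ b) →
      schk C L acc = true → 0 ≤ (acc : ℝ) * b + val K (coefT C) L := by
  intro L
  induction L with
  | nil =>
    intro M _ acc b _ _ h
    unfold schk at h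
    have : acc = 0 := by simpa using h
    subst this
    simp [val]
  | cons p L ih =>
    intro M hc acc b hacc hb h
    have hmem := hc.mem
    obtain ⟨v, mb⟩ := p
    obtain ⟨h1, h2, h3, h4⟩ := hc
    unfold schk at h
    rw [Bool.and_eq_true, decide_eq_true_iff] at h
    have hv : ∀ q ∈ L, K.a q.1 ≤ K.a v := by
      intro q hq
      obtain ⟨q1, q2, _⟩ := h4.mem q hq
      exact K.hpos q.1 v q1 h1 (by omega)
    have := ih h4 (acc + coefT C v) (K.a v) h.1 hv h.2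
    simp only [val]
    have hbv := hb (v, mb) List.mem_cons_self
    simp only at hbv
    have hacc' : (0 : ℝ) ≤ acc := by exact_mod_cast hacc
    have h5 := mul_le_mul_of_nonneg_left hbv hacc'
    push_cast at this
    linarith

theorem val_cf_neg (K : Ctx) {L : List (ℕ × ℕ)} {M : ℕ} (hc : Compat K L M) (e : Entry)
    (h : echk L M e = true) : val K (cf e) L < 0 := by
  obtain ⟨k, x, y, u, c⟩ := e
  unfold echk at h
  rw [List.any_eq_true] at h
  obtain ⟨px, hpx, h⟩ := h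
  rw [Bool.and_eq_true, List.any_eq_true] at h
  obtain ⟨hx, py, hpy, h⟩ := h
  rw [Bool.and_eq_true, Bool.and_eq_true, Bool.and_eq_true, Bool.and_eq_true,
    Bool.not_eq_true'] at h
  obtain ⟨⟨⟨⟨hy, hxy⟩, hn⟩, hu⟩, hk⟩ := h
  simp only at hx hy hxy hn hu hk
  obtain ⟨x1, x2, x3⟩ := hc.mem px hpx
  obtain ⟨y1, y2, y3⟩ := hc.mem py hpy
  have hxe : px.1 = x := by simpa using hx
  have hye : py.1 = y := by simpa using hy
  rw [hxe] at x1 x2 x3
  rw [hye] at y1 y2 y3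
  have hpos : K.pos x < K.pos y := ((y3 x).1 hxy).2
  have hvx := val_dl K hc ((hc.bit x).2 ⟨x1, x2⟩)
  have hvy := val_dl K hc ((hc.bit y).2 ⟨y1, y2⟩)
  have hvu := val_dl K hc hu
  have hu9 := ((hc.bit u).1 hu).1
  by_cases h0 : k = 0
  · rw [if_pos h0, Bool.and_eq_true] at hk
    obtain ⟨w, hw1, hw2⟩ := and_ne hk.1
    have hw3 := ((x3 w).1 hw2).2
    have e1 := killA K x1 y1 hpos hn hw1 hw3.le
    have e2 := K.H1 x u x1 hu9 hk.2
    have e3 := le_abs_self (K.a x - K.a u)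
    have hcf : cf (k, x, y, u, c) = fun v => (2 * dl x v - dl y v) - dl u v := by
      funext v; simp only [cf, h0, if_true]
    rw [hcf, val_sub, val_sub, val_smul, hvx, hvy, hvu]
    push_cast
    linarith
  · rw [if_neg h0, Bool.and_eq_true] at hk
    obtain ⟨w, hw1, hw2⟩ := or_ne hk.1
    have hw9 := adj_lt (x := x) (y := w) hw1
    have hw3 : K.pos y ≤ K.pos w := by
      by_contra hcon
      push Not at hcon
      have := (y3 w).2 ⟨hw9, hcon⟩
      rw [this] at hw2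
      exact absurd hw2 (by decide)
    have e1 := killB K x1 y1 hpos hn hw1 hw3
    have e2 := K.H1 y u y1 hu9 hk.2
    have e3 := neg_abs_le (K.a y - K.a u)
    have hcf : cf (k, x, y, u, c) = fun v => (dl x v + dl u v) - 2 * dl y v := by
      funext v; simp only [cf, h0, if_false]
    rw [hcf, val_sub, val_add, val_smul, hvx, hvy, hvu]
    push_cast
    linarith

theorem val_coefT (K : Ctx) {L : List (ℕ × ℕ)} {M : ℕ} (hc : Compat K L M) (C : List Entry)
    (h : C.all (fun e => echk L M e && decide (0 < e.2.2.2.2)) = true) :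
    val K (coefT C) L ≤ 0 ∧ (C ≠ [] → val K (coefT C) L < 0) := by
  induction C with
  | nil =>
    refine ⟨?_, fun h => absurd rfl h⟩
    have : val K (coefT []) L = 0 := by
      have e0 : coefT [] = fun _ => 0 := rfl
      rw [e0]
      clear h hc
      induction L with
      | nil => simp [val]
      | cons p L ih => simp only [val, ih]; simp
    rw [this]
  | cons e C ih =>
    rw [List.all_cons, Bool.and_eq_true, Bool.and_eq_true, decide_eq_true_iff] at h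
    have h1 := (ih h.2).1
    have h2 := val_cf_neg K hc e h.1.1
    have h3 : (0 : ℝ) < (e.2.2.2.2 : ℝ) := by exact_mod_cast h.1.2
    have h4 : val K (coefT (e :: C)) L =
        ((e.2.2.2.2 : ℤ) : ℝ) * val K (cf e) L + val K (coefT C) L := by
      have : coefT (e :: C) = fun v => ((e.2.2.2.2 : ℤ) * cf e v) + coefT C v := by
        funext v; rfl
      rw [this, val_add, val_smul]
    have h5 : ((e.2.2.2.2 : ℤ) : ℝ) * val K (cf e) L < 0 := by
      apply mul_neg_of_pos_of_neg _ h2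
      exact_mod_cast h.1.2
    rw [h4]
    exact ⟨by linarith, fun _ => by linarith⟩

theorem fchk_sound (K : Ctx) {L : List (ℕ × ℕ)} {M : ℕ} (hc : Compat K L M) (C : List Entry)
    (h : fchk L M C = true) : False := by
  unfold fchk at h
  rw [Bool.and_eq_true, Bool.and_eq_true, Bool.not_eq_true'] at h
  obtain ⟨⟨h1, h2⟩, h3⟩ := h
  have hne : C ≠ [] := by
    rintro rfl
    simp at h1
  have h4 := (val_coefT K hc C h2).2 hne
  have h5 : ∃ b : ℝ, ∀ p ∈ L, K.a p.1 ≤ b := by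
    clear h2 h3 h4 hc
    induction L with
    | nil => exact ⟨0, by simp⟩
    | cons p L ih =>
      obtain ⟨b, hb⟩ := ih
      refine ⟨max b (K.a p.1), ?_⟩
      intro q hq
      rw [List.mem_cons] at hq
      rcases hq with rfl | hq
      · exact le_max_right _ _
      · exact (hb q hq).trans (le_max_left _ _)
  obtain ⟨b, hb⟩ := h5
  have h6 := schk_sound K C hc 0 b le_rfl hb h3
  simp only [Int.cast_zero, zero_mul, zero_add] at h6
  linarith

theorem foldlM_some {σ : Type} (f : σ → ℕ → Option σ) : ∀ (l : List ℕ) (s s' : σ),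
    l.foldlM f s = some s' → ∀ v ∈ l, ∃ s1 s2, f s1 v = some s2 := by
  intro l
  induction l with
  | nil => intro s s' _ v hv; simp at hv
  | cons w l ih =>
    intro s s' h v hv
    rw [List.foldlM_cons] at h
    cases hw : f s w with
    | none => rw [hw] at h; simp at h
    | some s1 =>
      rw [hw] at h
      rw [List.mem_cons] at hv
      rcases hv with rfl | hv
      · exact ⟨s, s1, hw⟩
      · exact ih s1 s' (by simpa using h) v hv

theorem run_sound (K : Ctx) : ∀ (f : ℕ) (L : List (ℕ × ℕ)) (M code : ℕ)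
    (s s' : List (ℕ × List Entry)), run f L M code s = some s' → Compat K L M → False := by
  intro f
  induction f with
  | zero => intro L M code s s' h _; simp [run] at h
  | succ f ih =>
    intro L M code s s' h hc
    have hext : ∀ s s' : List (ℕ × List Entry), (if 9 ≤ L.length then none else
        (List.range 9).foldlM (fun s v =>
          if M.testBit v then some s else
          if kchk L M v then some s else
          run f ((v, M) :: L) (M ||| 2 ^ v) (code * 10 + v + 1) s) s) = some s' → False := by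
      intro s s' h
      rcases Nat.lt_or_ge L.length 9 with hL | hL
      · rw [if_neg (by omega)] at h
        obtain ⟨v, hv9, hvp⟩ := K.hsurj L.length hL
        obtain ⟨s1, s2, h2⟩ := foldlM_some _ _ _ _ h v (List.mem_range.2 hv9)
        have hnb : M.testBit v = false := by
          rw [← Bool.not_eq_true, hc.bit v]
          omega
        rw [hnb] at h2
        simp only [Bool.false_eq_true, if_false] at h2
        by_cases hk : kchk L M v = true
        · exact kchk_sound K hc hv9 hvp hk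
        · rw [if_neg hk] at h2
          exact ih _ _ _ _ _ h2 ⟨hv9, hvp, rfl, hc⟩
      · rw [if_pos hL] at h
        exact absurd h (by simp)
    unfold run at h
    cases s with
    | nil => exact hext _ _ h
    | cons p s1 =>
      obtain ⟨c, C⟩ := p
      simp only at h
      by_cases hcode : c = code
      · rw [if_pos hcode] at h
        by_cases hf : fchk L M C = true
        · exact fchk_sound K hc C hf
        · rw [if_neg hf] at h
          exact absurd h (by simp)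
      · rw [if_neg hcode] at h
        exact hext _ _ h

theorem no_ctx (K : Ctx) : False := by
  have h := run_ok
  rw [Option.isSome_iff_exists] at h
  obtain ⟨s', h⟩ := h
  exact run_sound K 10 [] 0 0 certs s' h rfl

/-! ### the graph -/

def G0 : SimpleGraph (Fin 9) where
  Adj i j := adjN i j = true
  symm := ⟨by decide⟩
  loopless := ⟨by decide⟩

def lz : Fin 9 → ℤ := ![0, 5, 3, 8, 2, 7, 18, 1, 6]
def rz : Fin 9 → ℤ := ![23, 33, 31, 43, 30, 42, 44, 29, 34]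
def tz : Fin 9 → ℤ := ![5, 26, 26, 22, 22, 24, 5, 11, 17]

theorem proper_rep : ∃ l r t : Fin 9 → ℝ, (∀ v, l v < r v) ∧ (∀ v, 0 < t v) ∧
    (∀ u v, ¬ (Set.Icc (l u) (r u) ⊂ Set.Icc (l v) (r v))) ∧
    ∀ x y, x ≠ y →
      (G0.Adj x y ↔ max (t x) (t y) ≤ max 0 (min (r x) (r y) - max (l x) (l y))) := by
  refine ⟨fun i => (lz i : ℝ), fun i => (rz i : ℝ), fun i => (tz i : ℝ), ?_, ?_, ?_, ?_⟩
  · intro v
    beta_reduce
    have : ∀ v, lz v < rz v := by decide
    exact_mod_cast this v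
  · intro v
    beta_reduce
    have : ∀ v, 0 < tz v := by decide
    exact_mod_cast this v
  · intro u v hss
    beta_reduce at hss ⊢
    have h1 : ∀ u v, lz v ≤ lz u → rz v ≤ rz u := by decide
    have h2 : ∀ u v, rz u ≤ rz v → lz u ≤ lz v := by decide
    have h0 : ∀ v, lz v < rz v := by decide
    have hu : ((lz u : ℤ) : ℝ) ≤ rz u := by exact_mod_cast (h0 u).le
    have hsub := (Set.Icc_subset_Icc_iff hu).1 hss.1
    have h3 : lz v ≤ lz u := by exact_mod_cast hsub.1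
    have h4 : rz u ≤ rz v := by exact_mod_cast hsub.2
    have h5 := h1 u v h3
    have h6 := h2 u v h4
    apply hss.2
    intro z hz
    have e1 : lz u = lz v := le_antisymm h6 h3
    have e2 : rz u = rz v := le_antisymm h4 h5
    rw [e1, e2]; exact hz
  · intro x y hxy
    have h : ∀ x y : Fin 9, x ≠ y → (adjN x y = true ↔
        max (tz x) (tz y) ≤ max 0 (min (rz x) (rz y) - max (lz x) (lz y))) := by decide
    have h1 := h x y hxy
    show adjN x y = true ↔ _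
    rw [h1]
    beta_reduce
    rw [← Int.cast_max, ← Int.cast_max, ← Int.cast_min, ← Int.cast_sub]
    have e0 : (0 : ℝ) = ((0 : ℤ) : ℝ) := by simp
    rw [e0, ← Int.cast_max, Int.cast_le]

theorem no_unit_rep : ¬ ∃ l r t : Fin 9 → ℝ, (∀ v, l v < r v) ∧ (∀ v, 0 < t v) ∧
    (∀ u v, r u - l u = r v - l v) ∧
    ∀ x y, x ≠ y →
      (G0.Adj x y ↔ max (t x) (t y) ≤ max 0 (min (r x) (r y) - max (l x) (l y))) := by
  rintro ⟨l, r, t, hlr, ht, hlen, hadj⟩
  obtain ⟨len, hlen'⟩ : ∃ len, len = r 0 - l 0 := ⟨_, rfl⟩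
  have hr : ∀ v, r v = l v + len := by
    intro v; have := hlen v 0; rw [hlen']; linarith
  have hov : ∀ x y, min (r x) (r y) - max (l x) (l y) = len - |l x - l y| := by
    intro x y
    rw [hr x, hr y, min_add_add_right]
    have := max_sub_min_eq_abs' (l x) (l y)
    linarith
  have hA : ∀ x y, x ≠ y → G0.Adj x y → |l x - l y| ≤ len - t x := by
    intro x y hxy h
    have h1 := (hadj x y hxy).1 h
    rw [hov] at h1
    have h2 := le_max_left (t x) (t y)
    have h3 := ht x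
    rcases le_max_iff.1 h1 with h4 | h4
    · linarith
    · linarith
  have hB : ∀ x y, x ≠ y → ¬ G0.Adj x y →
      len - t x < |l x - l y| ∨ len - t y < |l x - l y| := by
    intro x y hxy h
    rw [hadj x y hxy, hov] at h
    push Not at h
    have h1 := lt_of_le_of_lt (le_max_right 0 (len - |l x - l y|)) h
    rcases lt_max_iff.1 h1 with h4 | h4
    · left; linarith
    · right; linarith
  let a : ℕ → ℝ := fun v => if h : v < 9 then l ⟨v, h⟩ else 0
  let ρ : ℕ → ℝ := fun v => if h : v < 9 then len - t ⟨v, h⟩ else 0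
  let pos : ℕ → ℕ := fun v => if h : v < 9 then ((Tuple.sort l).symm ⟨v, h⟩ : ℕ) else 0
  refine no_ctx
    { a := a
      ρ := ρ
      pos := pos
      H1 := ?_
      H2 := ?_
      hpos := ?_
      hinj := ?_
      hsurj := ?_ }
  · intro x y hx hy h
    simp only [a, ρ, hx, hy, dif_pos]
    have hne : (⟨x, hx⟩ : Fin 9) ≠ ⟨y, hy⟩ := by
      intro heq
      have : G0.Adj ⟨x, hx⟩ ⟨y, hy⟩ := h
      rw [heq] at this
      exact G0.loopless.irrefl _ this
    exact hA _ _ hne h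
  · intro x y hx hy hxy h
    simp only [a, ρ, hx, hy, dif_pos]
    apply hB
    · intro heq
      exact hxy (congrArg Fin.val heq)
    · intro hcon
      have : adjN x y = true := hcon
      rw [h] at this
      exact absurd this (by decide)
  · intro u v hu hv huv
    simp only [a, pos, hu, hv, dif_pos] at huv ⊢
    have hmono := Tuple.monotone_sort l
    have := hmono (show (Tuple.sort l).symm ⟨u, hu⟩ ≤ (Tuple.sort l).symm ⟨v, hv⟩ from huv)
    simpa using this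
  · intro u v hu hv huv
    simp only [pos, hu, hv, dif_pos] at huv
    have := (Tuple.sort l).symm.injective (Fin.ext huv)
    exact congrArg Fin.val this
  · intro k hk
    refine ⟨(Tuple.sort l ⟨k, hk⟩ : Fin 9), (Tuple.sort l ⟨k, hk⟩).2, ?_⟩
    simp [pos]

/-- The negation of the preceding statement: A finite graph has a max-tolerance representation (closed intervals, positive tolerances, edge iff overlap length is at least both tolerances) with all intervals of equal length iff it has one where no interval strictly contains another. -/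
theorem result :
    ¬ (∀ (V : Type) [Fintype V] (G : SimpleGraph V),
      (∃ l r t : V → ℝ, (∀ v, l v < r v) ∧ (∀ v, 0 < t v) ∧
          (∀ u v, r u - l u = r v - l v) ∧
          ∀ x y, x ≠ y →
            (G.Adj x y ↔ max (t x) (t y) ≤ max 0 (min (r x) (r y) - max (l x) (l y)))) ↔
      (∃ l r t : V → ℝ, (∀ v, l v < r v) ∧ (∀ v, 0 < t v) ∧
          (∀ u v, ¬ (Set.Icc (l u) (r u) ⊂ Set.Icc (l v) (r v))) ∧
          ∀ x y, x ≠ y →
            (G.Adj x y ↔ max (t x) (t y) ≤ max 0 (min (r x) (r y) - max (l x) (l y))))) := by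
  intro h
  exact no_unit_rep ((h (Fin 9) G0).2 proper_rep)

end Pool.Agent.S07006
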