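import Pool.Statements.S07027

set_option autoImplicit false
open Pool Pool.MP_9cb2a9_co
open scoped BigOperators

namespace Pool.Agent.S07027

/-- the recurrence for `a`. -/
structure HA (a : ℕ → ℕ → ℤ) : Prop where
  h01 : a 0 1 = 1
  h12 : a 1 2 = 1
  h0 : ∀ n : ℕ, 1 < n → a 0 n = 0
  hz : ∀ i n : ℕ, n < 2 * i → a i n = 0
  hrec : ∀ i n : ℕ, 1 ≤ i → 1 ≤ n →
        a i (n + 1) = (i : ℤ) * a i n + ((n : ℤ) - 2 * (i : ℤ) + 2) * a (i - 1) n

variable {a : ℕ → ℕ → ℤ}

theorem nonneg (H : HA a) : ∀ n i : ℕ, 1 ≤ n → 0 ≤ a i n := by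
  intro n
  induction n with
  | zero => intro i h; omega
  | succ n ih =>
    intro i _
    rcases Nat.eq_zero_or_pos n with hn | hn
    · subst hn
      rcases Nat.eq_zero_or_pos i with hi | hi
      · subst hi; rw [H.h01]; norm_num
      · rw [H.hz i (0 + 1) (by omega)]
    · rcases Nat.eq_zero_or_pos i with hi | hi
      · subst hi; rw [H.h0 (n + 1) (by omega)]
      · rw [H.hrec i n hi hn]
        have h1 := ih i hn
        have h2 := ih (i - 1) hn
        have h3 : 0 ≤ (i : ℤ) * a i n := mul_nonneg (by positivity) h1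
        by_cases hlt : n < 2 * (i - 1)
        · rw [H.hz (i - 1) n hlt, mul_zero, add_zero]; exact h3
        · have h4 : (0 : ℤ) ≤ (n : ℤ) - 2 * (i : ℤ) + 2 := by omega
          have := mul_nonneg h4 h2
          linarith

theorem rec_ge (H : HA a) (i n : ℕ) (hn : 1 ≤ n) : (i : ℤ) * a i n ≤ a i (n + 1) := by
  rcases Nat.eq_zero_or_pos i with hi | hi
  · subst hi
    simp only [Nat.cast_zero, zero_mul]
    exact nonneg H _ _ (by omega)
  · rw [H.hrec i n hi hn]
    by_cases hlt : n < 2 * (i - 1)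
    · rw [H.hz (i - 1) n hlt, mul_zero, add_zero]
    · have h4 : (0 : ℤ) ≤ (n : ℤ) - 2 * (i : ℤ) + 2 := by omega
      have := mul_nonneg h4 (nonneg H n (i - 1) hn)
      linarith

theorem desc_le (H : HA a) (i m : ℕ) (hm : 1 ≤ m) (L : ℕ) :
    ((i.descFactorial L : ℕ) : ℤ) * a i m ≤ a i (m + L) := by
  induction L with
  | zero => simp
  | succ L ih =>
    have h1 := rec_ge H i (m + L) (by omega)
    have h2 : ((i.descFactorial (L + 1) : ℕ) : ℤ) ≤ (i : ℤ) * (i.descFactorial L : ℕ) := by
      rw [Nat.descFactorial_succ]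
      push_cast
      apply mul_le_mul_of_nonneg_right _ (by positivity)
      have : i - L ≤ i := Nat.sub_le _ _
      exact_mod_cast this
    have h3 := nonneg H m i hm
    calc ((i.descFactorial (L + 1) : ℕ) : ℤ) * a i m
        ≤ (i : ℤ) * (i.descFactorial L : ℕ) * a i m := mul_le_mul_of_nonneg_right h2 h3
      _ = (i : ℤ) * ((i.descFactorial L : ℕ) * a i m) := by ring
      _ ≤ (i : ℤ) * a i (m + L) := mul_le_mul_of_nonneg_left ih (by positivity)
      _ ≤ a i (m + (L + 1)) := h1

/-- the `Q` inequality -/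
theorem Q_le (H : HA a) (m : ℕ) (hm : 2 ≤ m) (L : ℕ) : ∀ i D : ℕ, 2 * i + D = m + L →
    ∑ s ∈ Finset.range (L + 1), (((D + s).descFactorial s : ℕ) : ℤ) *
      (((i - s).descFactorial (L - s) : ℕ) : ℤ) * a (i - s) m ≤ a i (m + L) := by
  induction L with
  | zero =>
    intro i D _
    simp
  | succ L ih =>
    intro i D hD
    rcases Nat.eq_zero_or_pos i with hi | hi
    · subst hi
      have : ∀ s ∈ Finset.range (L + 1 + 1), (((D + s).descFactorial s : ℕ) : ℤ) *
          (((0 - s).descFactorial (L + 1 - s) : ℕ) : ℤ) * a (0 - s) m = 0 := by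
        intro s _
        rw [Nat.zero_sub, H.h0 m (by omega), mul_zero]
      rw [Finset.sum_eq_zero this]
      exact nonneg H _ _ (by omega)
    · rw [Finset.sum_range_succ']
      have hrec := H.hrec i (m + L) hi (by omega)
      have hcast : ((m + L : ℕ) : ℤ) - 2 * (i : ℤ) + 2 = (D : ℤ) + 1 := by omega
      rw [hcast] at hrec
      have ih' := ih (i - 1) (D + 1) (by omega)
      have hterm : ∀ s ∈ Finset.range (L + 1),
          (((D + (s + 1)).descFactorial (s + 1) : ℕ) : ℤ) *
          (((i - (s + 1)).descFactorial (L + 1 - (s + 1)) : ℕ) : ℤ) * a (i - (s + 1)) m =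
          ((D : ℤ) + 1) * ((((D + 1 + s).descFactorial s : ℕ) : ℤ) *
          (((i - 1 - s).descFactorial (L - s) : ℕ) : ℤ) * a (i - 1 - s) m) := by
        intro s _
        have e1 : i - (s + 1) = i - 1 - s := by omega
        have e2 : L + 1 - (s + 1) = L - s := by omega
        have e3 : (D + (s + 1)).descFactorial (s + 1) =
            (D + 1) * (D + 1 + s).descFactorial s := by
          rw [Nat.descFactorial_succ]
          have e4 : D + (s + 1) - s = D + 1 := by omega
          have e5 : D + (s + 1) = D + 1 + s := by omega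
          rw [e4, e5]
        rw [e1, e2, e3]
        push_cast
        ring
      rw [Finset.sum_congr rfl hterm, ← Finset.mul_sum]
      have h0 : (((D + 0).descFactorial 0 : ℕ) : ℤ) *
          (((i - 0).descFactorial (L + 1 - 0) : ℕ) : ℤ) * a (i - 0) m ≤ (i : ℤ) * a i (m + L) := by
        simp only [Nat.sub_zero, Nat.descFactorial_zero, Nat.cast_one, one_mul]
        have h2 : ((i.descFactorial (L + 1) : ℕ) : ℤ) ≤ (i : ℤ) * (i.descFactorial L : ℕ) := by
          rw [Nat.descFactorial_succ]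
          push_cast
          apply mul_le_mul_of_nonneg_right _ (by positivity)
          have : i - L ≤ i := Nat.sub_le _ _
          exact_mod_cast this
        have h3 := nonneg H m i (by omega)
        calc ((i.descFactorial (L + 1) : ℕ) : ℤ) * a i m
            ≤ (i : ℤ) * (i.descFactorial L : ℕ) * a i m := mul_le_mul_of_nonneg_right h2 h3
          _ = (i : ℤ) * ((i.descFactorial L : ℕ) * a i m) := by ring
          _ ≤ (i : ℤ) * a i (m + L) :=
            mul_le_mul_of_nonneg_left (desc_le H i m (by omega) L) (by positivity)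
      have h1 : ((D : ℤ) + 1) * (∑ s ∈ Finset.range (L + 1), (((D + 1 + s).descFactorial s : ℕ) : ℤ) *
          (((i - 1 - s).descFactorial (L - s) : ℕ) : ℤ) * a (i - 1 - s) m) ≤
          ((D : ℤ) + 1) * a (i - 1) (m + L) := mul_le_mul_of_nonneg_left ih' (by positivity)
      have e6 : m + (L + 1) = m + L + 1 := by ring
      rw [e6, hrec]
      linarith

/-- `S_t`. -/
def S (a : ℕ → ℕ → ℤ) (D i m t : ℕ) : ℤ :=
  ∑ s ∈ Finset.range (2 * t + 1), (((D + s).choose s : ℕ) : ℤ) *
      (((i - s).choose (2 * t - s) : ℕ) : ℤ) * a (i - s) m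

theorem fact_bound (t s : ℕ) (hs : s ≤ 2 * t) : t.factorial * t.factorial ≤
    s.factorial * (2 * t - s).factorial := by
  have h1 : (2 * t).choose s ≤ (2 * t).choose t := by
    have := Nat.choose_le_centralBinom s t
    rwa [Nat.centralBinom] at this
  have h2 := Nat.choose_mul_factorial_mul_factorial hs
  have h3 := Nat.choose_mul_factorial_mul_factorial (show t ≤ 2 * t by omega)
  have e : 2 * t - t = t := by omega
  rw [e] at h3
  have hpos : 0 < (2 * t).choose t := Nat.choose_pos (by omega)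
  by_contra hlt
  push Not at hlt
  have h4 : (2 * t).choose s * (s.factorial * (2 * t - s).factorial) <
      (2 * t).choose t * (t.factorial * t.factorial) := by
    calc (2 * t).choose s * (s.factorial * (2 * t - s).factorial)
        ≤ (2 * t).choose t * (s.factorial * (2 * t - s).factorial) :=
          Nat.mul_le_mul_right _ h1
      _ < (2 * t).choose t * (t.factorial * t.factorial) :=
          Nat.mul_lt_mul_of_pos_left hlt hpos
  rw [← mul_assoc, ← mul_assoc, h2, h3] at h4
  exact lt_irrefl _ h4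

theorem S_le (H : HA a) (D i m t : ℕ) (hm : 2 ≤ m) (hD : 2 * i + D = m + 2 * t) :
    ((t.factorial * t.factorial : ℕ) : ℤ) * S a D i m t ≤ a i (m + 2 * t) := by
  refine le_trans ?_ (Q_le H m hm (2 * t) i D hD)
  unfold S
  rw [Finset.mul_sum]
  apply Finset.sum_le_sum
  intro s hs
  have hs' : s ≤ 2 * t := by
    have := Finset.mem_range.1 hs
    omega
  have hb := fact_bound t s hs'
  have e1 : (D + s).descFactorial s = s.factorial * (D + s).choose s :=
    Nat.descFactorial_eq_factorial_mul_choose _ _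
  have e2 : (i - s).descFactorial (2 * t - s) =
      (2 * t - s).factorial * (i - s).choose (2 * t - s) :=
    Nat.descFactorial_eq_factorial_mul_choose _ _
  rw [e1, e2]
  have hb' : ((t.factorial * t.factorial : ℕ) : ℤ) ≤
      ((s.factorial * (2 * t - s).factorial : ℕ) : ℤ) := by exact_mod_cast hb
  have hnn : 0 ≤ (((D + s).choose s : ℕ) : ℤ) *
      (((i - s).choose (2 * t - s) : ℕ) : ℤ) * a (i - s) m :=
    mul_nonneg (by positivity) (nonneg H _ _ (by omega))
  calc ((t.factorial * t.factorial : ℕ) : ℤ) * ((((D + s).choose s : ℕ) : ℤ) *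
      (((i - s).choose (2 * t - s) : ℕ) : ℤ) * a (i - s) m)
      ≤ ((s.factorial * (2 * t - s).factorial : ℕ) : ℤ) * ((((D + s).choose s : ℕ) : ℤ) *
      (((i - s).choose (2 * t - s) : ℕ) : ℤ) * a (i - s) m) :=
        mul_le_mul_of_nonneg_right hb' hnn
    _ = _ := by push_cast; ring

theorem S_nonneg (H : HA a) (D i m t : ℕ) (hm : 2 ≤ m) : 0 ≤ S a D i m t := by
  unfold S
  apply Finset.sum_nonneg
  intro s _
  exact mul_nonneg (by positivity) (nonneg H _ _ (by omega))

/-- two-step expansion -/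
theorem two_step (H : HA a) (D i m : ℕ) (hi : 2 ≤ i) (hm : 2 ≤ m) (hD : 2 * i + D = m + 2) :
    a i (m + 2) = ((D : ℤ) + 1) * ((D : ℤ) + 2) * a (i - 2) m +
      (((D : ℤ) + 1) * ((i : ℤ) - 1) + (i : ℤ) * D) * a (i - 1) m + (i : ℤ) * i * a i m := by
  have h1 := H.hrec i (m + 1) (by omega) (by omega)
  have h2 := H.hrec i m (by omega) (by omega)
  have h3 := H.hrec (i - 1) m (by omega) (by omega)
  have e1 : ((m + 1 : ℕ) : ℤ) - 2 * (i : ℤ) + 2 = (D : ℤ) + 1 := by omega
  have e2 : ((m : ℕ) : ℤ) - 2 * (i : ℤ) + 2 = (D : ℤ) := by omega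
  have e3 : ((m : ℕ) : ℤ) - 2 * ((i - 1 : ℕ) : ℤ) + 2 = (D : ℤ) + 2 := by omega
  have e4 : ((i - 1 : ℕ) : ℤ) = (i : ℤ) - 1 := by omega
  have e5 : i - 1 - 1 = i - 2 := by omega
  rw [e1] at h1
  rw [e2] at h2
  rw [e3, e4, e5] at h3
  have e6 : m + 2 = m + 1 + 1 := rfl
  rw [e6, h1, h2, h3]
  ring

theorem choose_two_cast (n : ℕ) : (2 : ℤ) * ((n.choose 2 : ℕ) : ℤ) = (n : ℤ) * ((n : ℤ) - 1) := by
  have h := Nat.choose_two_right n
  have h2 : 2 ∣ n * (n - 1) := (Nat.even_mul_pred_self n).two_dvd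
  have h3 : 2 * n.choose 2 = n * (n - 1) := by
    rw [h]
    exact Nat.mul_div_cancel' h2
  have h4 : (2 : ℤ) * ((n.choose 2 : ℕ) : ℤ) = ((n * (n - 1) : ℕ) : ℤ) := by
    rw [← h3]; push_cast; ring
  rw [h4]
  rcases n with _ | n
  · simp
  · push_cast
    simp

theorem S_one (D i m : ℕ) (hi : 2 ≤ i) : 2 * S a D i m 1 = (i : ℤ) * ((i : ℤ) - 1) * a i m +
    2 * (((D : ℤ) + 1) * ((i : ℤ) - 1)) * a (i - 1) m +
      ((D : ℤ) + 2) * ((D : ℤ) + 1) * a (i - 2) m := by
  unfold S
  simp only [Nat.mul_one]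
  rw [Finset.sum_range_succ, Finset.sum_range_succ, Finset.sum_range_succ, Finset.sum_range_zero]
  have h1 := choose_two_cast i
  have h2 := choose_two_cast (D + 2)
  have e1 : ((i - 1 : ℕ) : ℤ) = (i : ℤ) - 1 := by omega
  simp only [Nat.sub_zero, Nat.choose_zero_right, Nat.cast_one, one_mul, zero_add,
    Nat.choose_one_right, Nat.sub_self, mul_one]
  have e2 : (2 - 1 : ℕ) = 1 := rfl
  rw [e2, Nat.choose_one_right, e1]
  push_cast at h2 ⊢
  have h1' : (2 : ℤ) * (((i.choose 2 : ℕ) : ℤ) * a i m) = (i : ℤ) * ((i : ℤ) - 1) * a i m := by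
    rw [← mul_assoc, h1]
  have h2' : (2 : ℤ) * ((((D + 2).choose 2 : ℕ) : ℤ) * a (i - 2) m) =
      ((D : ℤ) + 2) * ((D : ℤ) + 1) * a (i - 2) m := by
    rw [← mul_assoc, h2]; ring
  linear_combination h1' + h2'

/-- values -/
theorem a13 (H : HA a) : a 1 3 = 1 := by
  have := H.hrec 1 2 (by norm_num) (by norm_num)
  rw [H.h12] at this
  simp only [Nat.sub_self, H.h0 2 (by norm_num)] at this
  norm_num at this
  exact this

theorem a14 (H : HA a) : a 1 4 = 1 := by
  have := H.hrec 1 3 (by norm_num) (by norm_num)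
  rw [a13 H] at this
  simp only [Nat.sub_self, H.h0 3 (by norm_num)] at this
  norm_num at this
  exact this

theorem a15 (H : HA a) : a 1 5 = 1 := by
  have := H.hrec 1 4 (by norm_num) (by norm_num)
  rw [a14 H] at this
  simp only [Nat.sub_self, H.h0 4 (by norm_num)] at this
  norm_num at this
  exact this

theorem a24 (H : HA a) : a 2 4 = 1 := by
  have := H.hrec 2 3 (by norm_num) (by norm_num)
  rw [H.hz 2 3 (by norm_num)] at this
  have e : 2 - 1 = 1 := rfl
  rw [e, a13 H] at this
  norm_num at this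
  exact this

theorem a25 (H : HA a) : a 2 5 = 4 := by
  have := H.hrec 2 4 (by norm_num) (by norm_num)
  have e : 2 - 1 = 1 := rfl
  rw [a24 H, e, a14 H] at this
  norm_num at this
  exact this

theorem a26 (H : HA a) : a 2 6 = 11 := by
  have := H.hrec 2 5 (by norm_num) (by norm_num)
  have e : 2 - 1 = 1 := rfl
  rw [a25 H, e, a15 H] at this
  norm_num at this
  exact this

theorem a36 (H : HA a) : a 3 6 = 4 := by
  have := H.hrec 3 5 (by norm_num) (by norm_num)
  have e : 3 - 1 = 2 := rfl
  rw [H.hz 3 5 (by norm_num), e, a25 H] at this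
  norm_num at this
  exact this

/-- `3 k a_k(2k) ≤ 4 a_{k-1}(2k)` for `k ≥ 3`. -/
theorem diag_ratio (H : HA a) (k : ℕ) (hk : 3 ≤ k) :
    3 * (k : ℤ) * a k (2 * k) ≤ 4 * a (k - 1) (2 * k) := by
  rcases Nat.lt_or_ge k 4 with h | h
  · have : k = 3 := by omega
    subst this
    have e : 2 * 3 = 6 := rfl
    have e' : 3 - 1 = 2 := rfl
    rw [e, e', a36 H, a26 H]
    norm_num
  · obtain ⟨l, rfl⟩ : ∃ l, k = l + 1 := ⟨k - 1, by omega⟩
    have e : 2 * (l + 1) = 2 * l + 2 := by ring
    have h1 := two_step H 0 (l + 1) (2 * l) (by omega) (by omega) (by omega)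
    have h2 := two_step H 2 l (2 * l) (by omega) (by omega) (by omega)
    have e1 : l + 1 - 2 = l - 1 := by omega
    have e2 : l + 1 - 1 = l := by omega
    rw [e1, e2, H.hz (l + 1) (2 * l) (by omega)] at h1
    rw [e, e2, h1, h2]
    have n1 := nonneg H (2 * l) l (by omega)
    have n2 := nonneg H (2 * l) (l - 1) (by omega)
    have n3 := nonneg H (2 * l) (l - 2) (by omega)
    have hl : (3 : ℤ) ≤ (l : ℤ) := by
      have : 3 ≤ l := by omega
      exact_mod_cast this
    push_cast
    -- 3(l+1)(2ν + lτ) ≤ 4(12 μ + (3(l-1) + 2l) ν + l² τ)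
    have t1 : 0 ≤ ((l : ℤ) * (l - 3)) * a l (2 * l) :=
      mul_nonneg (mul_nonneg (by linarith) (by linarith)) n1
    have t2 : 0 ≤ (14 * (l : ℤ) - 18) * a (l - 1) (2 * l) := mul_nonneg (by linarith) n2
    nlinarith

/-- the refined bound for `t = 1` -/
theorem S_one_le (H : HA a) (D i m : ℕ) (hi : 3 ≤ i) (hm : 2 ≤ m) (hD : 2 * i + D = m + 2)
    (hDe : Even D) (h33 : ¬ (D = 0 ∧ i = 3)) : 10 * S a D i m 1 ≤ 7 * a i (m + 2) := by
  have h1 := two_step H D i m (by omega) hm hD
  have h2 := S_one (a := a) D i m (by omega)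
  have n0 := nonneg H m i (by omega)
  have n1 := nonneg H m (i - 1) (by omega)
  have n2 := nonneg H m (i - 2) (by omega)
  have hi' : (3 : ℤ) ≤ (i : ℤ) := by exact_mod_cast hi
  rcases Nat.eq_zero_or_pos D with h0 | hpos
  · subst h0
    have hi4 : 4 ≤ i := by
      by_contra hlt
      exact h33 ⟨rfl, by omega⟩
    -- i = n, m = 2 n - 2
    have hm2 : m = 2 * (i - 1) := by omega
    have hd := diag_ratio H (i - 1) (by omega)
    rw [← hm2] at hd
    have e1 : i - 1 - 1 = i - 2 := by omega
    have e2 : ((i - 1 : ℕ) : ℤ) = (i : ℤ) - 1 := by omega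
    rw [e1, e2] at hd
    have hz : a i m = 0 := H.hz i m (by omega)
    rw [hz] at h1 h2
    push_cast at h1 h2
    nlinarith
  · have hD2 : 2 ≤ D := by
      obtain ⟨c, hc⟩ := hDe
      omega
    have hD' : (2 : ℤ) ≤ (D : ℤ) := by exact_mod_cast hD2
    -- 5 * (2 S) ≤ 6 a ≤ 7 a
    have ha : 0 ≤ a i (m + 2) := nonneg H _ _ (by omega)
    have key : 10 * S a D i m 1 ≤ 6 * a i (m + 2) := by
      have t0 : 0 ≤ ((i : ℤ) * (i + 5)) * a i m := mul_nonneg (by nlinarith) n0
      have t2 : 0 ≤ (((D : ℤ) + 1) * ((D : ℤ) + 2)) * a (i - 2) m :=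
        mul_nonneg (by nlinarith) n2
      have t1 : 0 ≤ (6 * (i : ℤ) * D - 4 * (((D : ℤ) + 1) * ((i : ℤ) - 1))) * a (i - 1) m := by
        apply mul_nonneg _ n1
        nlinarith
      rw [h1]
      nlinarith
    linarith

/-- `a_2(2n) ≥ 1` -/
theorem a2_pos (H : HA a) (n : ℕ) (hn : 4 ≤ n) : 1 ≤ a 2 n := by
  induction n, hn using Nat.le_induction with
  | base => rw [a24 H]
  | succ n hn ih =>
    have := rec_ge H 2 n (by omega)
    push_cast at this
    linarith

theorem fact_ge (r : ℕ) : 4 * 9 ^ r ≤ (r + 2).factorial * (r + 2).factorial := by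
  induction r with
  | zero => decide
  | succ r ih =>
    have : (r + 1 + 2).factorial = (r + 3) * (r + 2).factorial := Nat.factorial_succ (r + 2)
    rw [this, pow_succ]
    have h9 : 9 ≤ (r + 3) * (r + 3) := by nlinarith
    calc 4 * (9 ^ r * 9) = (4 * 9 ^ r) * 9 := by ring
      _ ≤ ((r + 2).factorial * (r + 2).factorial) * ((r + 3) * (r + 3)) :=
        Nat.mul_le_mul ih h9
      _ = (r + 3) * (r + 2).factorial * ((r + 3) * (r + 2).factorial) := by ring

theorem geom_bound (R : ℕ) : ∑ r ∈ Finset.range R, (1 / (4 * 9 ^ r) : ℚ) ≤ 9 / 32 := by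
  have h : ∀ R : ℕ, ∑ r ∈ Finset.range R, (1 / (4 * 9 ^ r) : ℚ) = 9 / 32 - 9 / 32 / 9 ^ R := by
    intro R
    induction R with
    | zero => simp
    | succ R ih =>
      rw [Finset.sum_range_succ, ih, pow_succ]
      field_simp
      ring
  rw [h R]
  have : (0 : ℚ) ≤ 9 / 32 / 9 ^ R := by positivity
  linarith

theorem split_sum (R : ℕ) (f : ℕ → ℤ) :
    ∑ r ∈ Finset.Icc 1 (R + 1), f r = f 1 + ∑ r ∈ Finset.range R, f (r + 2) := by
  induction R with
  | zero => simp
  | succ R ih =>
    rw [Finset.sum_Icc_succ_top (by omega), ih, Finset.sum_range_succ]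
    ring

/-- For the integer sequences a_i(n) and b_i(n) fixed by the given recurrences and initial conditions, b_i(n) ≤ a_i(2n) holds for every n and every i with 2 ≤ i ≤ n. -/
theorem result :
  ∀ a b : ℕ → ℕ → ℤ,
    a 0 1 = 1 → a 1 2 = 1 →
    (∀ n : ℕ, 1 < n → a 0 n = 0) →
    (∀ i n : ℕ, n < 2 * i → a i n = 0) →
    (∀ i n : ℕ, 1 ≤ i → 1 ≤ n →
        a i (n + 1) = (i : ℤ) * a i n + ((n : ℤ) - 2 * (i : ℤ) + 2) * a (i - 1) n) →
    (∀ n : ℕ, 2 ≤ n → b 2 n = 1) →
    (∀ i n : ℕ, ¬ (2 ≤ i ∧ i ≤ n) → b i n = 0) →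
    (∀ i n : ℕ, 3 ≤ i → i ≤ n →
        b i n = ∑ k ∈ Finset.range (i + 1),
          ((Nat.choose (2 * n - 2 * i + k) k : ℕ) : ℤ) *
            ∑ r ∈ Finset.Icc 1 (i / 2),
              (-1 : ℤ) ^ (r - 1) * ((Nat.choose (i - k) (i - 2 * r) : ℕ) : ℤ) * b (i - k) (n - r)) →
    ∀ n i : ℕ, 2 ≤ i → i ≤ n → b i n ≤ a i (2 * n) := by
  intro a b h01 h12 h0 hz hrec hb2 hb0 hbrec
  have H : HA a := ⟨h01, h12, h0, hz, hrec⟩
  have main : ∀ n i : ℕ, 2 ≤ i → i ≤ n → |b i n| ≤ a i (2 * n) := by
    intro n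
    induction n using Nat.strong_induction_on with
    | _ n ih =>
      intro i hi hin
      rcases Nat.lt_or_ge i 3 with h3 | h3
      · have : i = 2 := by omega
        subst this
        rw [hb2 n hin]
        simp only [abs_one]
        exact a2_pos H (2 * n) (by omega)
      -- bound of the values
      have hval : ∀ k r : ℕ, 1 ≤ r → r ≤ i / 2 → |b (i - k) (n - r)| ≤ a (i - k) (2 * (n - r)) := by
        intro k r hr1 hr2
        by_cases hc : 2 ≤ i - k ∧ i - k ≤ n - r
        · exact ih (n - r) (by omega) (i - k) hc.1 hc.2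
        · rw [hb0 _ _ hc, abs_zero]
          exact nonneg H _ _ (by omega)
      by_cases h33 : i = 3 ∧ n = 3
      · obtain ⟨rfl, rfl⟩ := h33
        have hb := hbrec 3 3 (by norm_num) (by norm_num)
        have e1 : b 3 2 = 0 := hb0 3 2 (by omega)
        have e2 : b 2 2 = 1 := hb2 2 (by norm_num)
        have e3 : b 1 2 = 0 := hb0 1 2 (by omega)
        have e4 : b 0 2 = 0 := hb0 0 2 (by omega)
        have ha : a 3 (2 * 3) = 4 := a36 H
        rw [ha, hb]
        have e5 : (3 / 2 : ℕ) = 1 := rfl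
        rw [e5]
        simp only [Finset.Icc_self, Finset.sum_singleton, Finset.sum_range_succ,
          Finset.sum_range_zero]
        norm_num [e1, e2, e3, e4]
      · obtain ⟨D, hD⟩ : ∃ D, 2 * n - 2 * i = D := ⟨_, rfl⟩
        have hDn : 2 * i + D = 2 * n := by omega
        -- |b| ≤ Σ_r S_r
        have hb := hbrec i n h3 hin
        have step1 : |b i n| ≤ ∑ r ∈ Finset.Icc 1 (i / 2), S a D i (2 * (n - r)) r := by
          rw [hb]
          calc |∑ k ∈ Finset.range (i + 1), ((Nat.choose (2 * n - 2 * i + k) k : ℕ) : ℤ) *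
              ∑ r ∈ Finset.Icc 1 (i / 2), (-1 : ℤ) ^ (r - 1) *
                ((Nat.choose (i - k) (i - 2 * r) : ℕ) : ℤ) * b (i - k) (n - r)|
              ≤ ∑ k ∈ Finset.range (i + 1), |((Nat.choose (2 * n - 2 * i + k) k : ℕ) : ℤ) *
              ∑ r ∈ Finset.Icc 1 (i / 2), (-1 : ℤ) ^ (r - 1) *
                ((Nat.choose (i - k) (i - 2 * r) : ℕ) : ℤ) * b (i - k) (n - r)| :=
                Finset.abs_sum_le_sum_abs _ _
            _ ≤ ∑ k ∈ Finset.range (i + 1), ∑ r ∈ Finset.Icc 1 (i / 2),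
                ((Nat.choose (D + k) k : ℕ) : ℤ) * ((Nat.choose (i - k) (i - 2 * r) : ℕ) : ℤ) *
                  a (i - k) (2 * (n - r)) := by
                apply Finset.sum_le_sum
                intro k _
                rw [abs_mul, hD, Nat.abs_cast]
                simp only [mul_assoc]
                rw [← Finset.mul_sum]
                apply mul_le_mul_of_nonneg_left _ (by positivity)
                refine (Finset.abs_sum_le_sum_abs _ _).trans ?_
                apply Finset.sum_le_sum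
                intro r hr
                rw [Finset.mem_Icc] at hr
                rw [abs_mul, abs_mul, abs_pow, abs_neg, abs_one, one_pow, one_mul, Nat.abs_cast]
                exact mul_le_mul_of_nonneg_left (hval k r hr.1 hr.2) (by positivity)
            _ = ∑ r ∈ Finset.Icc 1 (i / 2), ∑ k ∈ Finset.range (i + 1),
                ((Nat.choose (D + k) k : ℕ) : ℤ) * ((Nat.choose (i - k) (i - 2 * r) : ℕ) : ℤ) *
                  a (i - k) (2 * (n - r)) := Finset.sum_comm
            _ = ∑ r ∈ Finset.Icc 1 (i / 2), S a D i (2 * (n - r)) r := by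
                apply Finset.sum_congr rfl
                intro r hr
                rw [Finset.mem_Icc] at hr
                have h2r : 2 * r ≤ i := by omega
                unfold S
                symm
                apply Finset.sum_subset_zero_on_sdiff
                · intro x hx
                  rw [Finset.mem_range] at hx ⊢
                  omega
                · intro k hk
                  rw [Finset.mem_sdiff, Finset.mem_range, Finset.mem_range] at hk
                  rw [Nat.choose_eq_zero_of_lt (show i - k < i - 2 * r by omega)]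
                  simp
                · intro k hk
                  rw [Finset.mem_range] at hk
                  rw [Nat.choose_symm_of_eq_add (show i - k = (2 * r - k) + (i - 2 * r) by omega)]
        -- split off r = 1
        have hR : ∃ R, i / 2 = R + 1 := ⟨i / 2 - 1, by omega⟩
        obtain ⟨R, hR⟩ := hR
        have step2 : ∑ r ∈ Finset.Icc 1 (i / 2), S a D i (2 * (n - r)) r =
            S a D i (2 * (n - 1)) 1 + ∑ r ∈ Finset.range R, S a D i (2 * (n - (r + 2))) (r + 2) := by
          rw [hR]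
          exact split_sum R (fun r => S a D i (2 * (n - r)) r)
        have hS1 : 10 * S a D i (2 * (n - 1)) 1 ≤ 7 * a i (2 * n) := by
          have e : 2 * n = 2 * (n - 1) + 2 := by omega
          have := S_one_le H D i (2 * (n - 1)) h3 (by omega) (by omega)
            ⟨n - i, by omega⟩ (by rintro ⟨h1, h2⟩; exact h33 ⟨h2, by omega⟩)
          rw [← e] at this
          exact this
        have hSr : ∀ r ∈ Finset.range R, ((S a D i (2 * (n - (r + 2))) (r + 2) : ℤ) : ℚ) ≤
            (a i (2 * n) : ℚ) * (1 / (4 * 9 ^ r)) := by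
          intro r hr
          rw [Finset.mem_range] at hr
          have e : 2 * (n - (r + 2)) + 2 * (r + 2) = 2 * n := by omega
          have h1 := S_le H D i (2 * (n - (r + 2))) (r + 2) (by omega) (by omega)
          rw [e] at h1
          have h2 := S_nonneg H D i (2 * (n - (r + 2))) (r + 2) (by omega)
          have h4 : ((4 * 9 ^ r : ℕ) : ℤ) ≤ (((r + 2).factorial * (r + 2).factorial : ℕ) : ℤ) := by
            exact_mod_cast fact_ge r
          have h5 : ((4 * 9 ^ r : ℕ) : ℤ) * S a D i (2 * (n - (r + 2))) (r + 2) ≤ a i (2 * n) :=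
            le_trans (mul_le_mul_of_nonneg_right h4 h2) h1
          have h6 : ((4 * 9 ^ r : ℚ)) * ((S a D i (2 * (n - (r + 2))) (r + 2) : ℤ) : ℚ) ≤
              (a i (2 * n) : ℚ) := by exact_mod_cast h5
          rw [mul_one_div, le_div_iff₀ (by positivity)]
          linarith
        have hsum : ((∑ r ∈ Finset.range R, S a D i (2 * (n - (r + 2))) (r + 2) : ℤ) : ℚ) ≤
            (a i (2 * n) : ℚ) * (9 / 32) := by
          push_cast
          refine (Finset.sum_le_sum hSr).trans ?_
          rw [← Finset.mul_sum]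
          apply mul_le_mul_of_nonneg_left (geom_bound R)
          exact_mod_cast nonneg H (2 * n) i (by omega)
        have ha0 : (0 : ℚ) ≤ (a i (2 * n) : ℚ) := by exact_mod_cast nonneg H (2 * n) i (by omega)
        have hS1' : (10 : ℚ) * ((S a D i (2 * (n - 1)) 1 : ℤ) : ℚ) ≤ 7 * (a i (2 * n) : ℚ) := by
          exact_mod_cast hS1
        have hb' : ((|b i n| : ℤ) : ℚ) ≤ ((S a D i (2 * (n - 1)) 1 : ℤ) : ℚ) +
            ((∑ r ∈ Finset.range R, S a D i (2 * (n - (r + 2))) (r + 2) : ℤ) : ℚ) := by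
          rw [step2] at step1
          exact_mod_cast step1
        have hfin : ((|b i n| : ℤ) : ℚ) ≤ ((a i (2 * n) : ℤ) : ℚ) := by linarith
        exact_mod_cast hfin
  intro n i hi hin
  exact (le_abs_self _).trans (main n i hi hin)

end Pool.Agent.S07027
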