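import Pool.Statements.S07190
import Pool.Agent.PlaneCheck

set_option autoImplicit false
open Pool Pool.MP_a7f39f_co

namespace Pool.Agent.S07190

/-- the arcs of the digraph -/
def arcs : List (ℕ × ℕ) :=
  [(0, 9), (1, 2), (1, 5), (1, 7), (2, 6), (2, 10), (3, 0), (3, 8), (4, 1), (4, 3), (4, 10), (5, 3), (5, 4), (6, 7), (7, 2), (7, 10), (8, 0), (8, 4), (8, 5), (9, 3), (9, 8), (10, 1), (10, 5)]

/-- first coordinates of the drawing -/
def X : ℕ → ℤ
  | 0 => 8
  | 1 => 0
  | 2 => 13
  | 3 => 0
  | 4 => 11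
  | 5 => 30
  | 6 => 11
  | 7 => 9
  | 8 => 12
  | 9 => 13
  | 10 => 12
  | _ => 0

/-- second coordinates of the drawing -/
def Y : ℕ → ℤ
  | 0 => 23
  | 1 => 0
  | 2 => 5
  | 3 => 30
  | 4 => 13
  | 5 => 9
  | 6 => 5
  | 7 => 4
  | 8 => 19
  | 9 => 20
  | 10 => 6
  | _ => 0

/-- the planar oriented graph -/
def D : Digraph (Fin 11) := ⟨fun u v => (u.val, v.val) ∈ arcs⟩

/-- nine directed triangles -/
def tri : List (Fin 11 × Fin 11 × Fin 11) :=
  [(0, 9, 3), (0, 9, 8), (1, 2, 10), (1, 5, 4), (1, 7, 10), (2, 6, 7), (3, 8, 4), (3, 8, 5), (4, 10, 5)]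

set_option maxRecDepth 100000 in
theorem good : Pool.Agent.PlaneCheck.good X Y 11 arcs = true := by decide

theorem tri_arcs : ∀ t ∈ tri, (t.1.val, t.2.1.val) ∈ arcs ∧ (t.2.1.val, t.2.2.val) ∈ arcs ∧
    (t.2.2.val, t.1.val) ∈ arcs := by decide

/-- search tree: no `k` further vertices, together with `T`, meet all the triangles -/
def hit : ℕ → List (Fin 11) → Bool
  | 0, T => tri.any fun t => !(T.contains t.1) && !(T.contains t.2.1) && !(T.contains t.2.2)
  | k + 1, T =>
    match tri.find? (fun t => !(T.contains t.1) && !(T.contains t.2.1) && !(T.contains t.2.2)) with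
    | none => false
    | some t => hit k (t.1 :: T) && hit k (t.2.1 :: T) && hit k (t.2.2 :: T)

theorem hit_sound (F : Finset (Fin 11)) (hF : ∀ t ∈ tri, t.1 ∈ F ∨ t.2.1 ∈ F ∨ t.2.2 ∈ F) :
    ∀ (k : ℕ) (T : List (Fin 11)), T.Nodup → (∀ v ∈ T, v ∈ F) → hit k T = true →
      T.length + k + 1 ≤ F.card := by
  have hcard : ∀ T : List (Fin 11), T.Nodup → (∀ v ∈ T, v ∈ F) → T.length ≤ F.card := by
    intro T hT hTF
    have h1 : T.toFinset ⊆ F := by
      intro v hv
      exact hTF v (List.mem_toFinset.1 hv)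
    have h2 := Finset.card_le_card h1
    rwa [List.toFinset_card_of_nodup hT] at h2
  intro k
  induction k with
  | zero =>
    intro T hT hTF h
    simp only [hit, List.any_eq_true] at h
    obtain ⟨t, ht, h1⟩ := h
    simp only [Bool.and_eq_true, Bool.not_eq_true', List.contains_eq_mem,
      decide_eq_false_iff_not] at h1
    obtain ⟨⟨a1, a2⟩, a3⟩ := h1
    rcases hF t ht with h2 | h2 | h2
    · exact hcard (t.1 :: T) (List.nodup_cons.2 ⟨a1, hT⟩) (by
        intro v hv; rcases List.mem_cons.1 hv with rfl | hv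
        · exact h2
        · exact hTF v hv)
    · exact hcard (t.2.1 :: T) (List.nodup_cons.2 ⟨a2, hT⟩) (by
        intro v hv; rcases List.mem_cons.1 hv with rfl | hv
        · exact h2
        · exact hTF v hv)
    · exact hcard (t.2.2 :: T) (List.nodup_cons.2 ⟨a3, hT⟩) (by
        intro v hv; rcases List.mem_cons.1 hv with rfl | hv
        · exact h2
        · exact hTF v hv)
  | succ k ih =>
    intro T hT hTF h
    simp only [hit] at h
    split at h
    · exact absurd h (by simp)
    · rename_i t hfind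
      have ht : t ∈ tri := List.mem_of_find?_eq_some hfind
      have h1 := List.find?_some hfind
      simp only [Bool.and_eq_true, Bool.not_eq_true', List.contains_eq_mem,
        decide_eq_false_iff_not] at h1
      obtain ⟨⟨a1, a2⟩, a3⟩ := h1
      rw [Bool.and_eq_true, Bool.and_eq_true] at h
      obtain ⟨⟨b1, b2⟩, b3⟩ := h
      rcases hF t ht with h2 | h2 | h2
      · have := ih (t.1 :: T) (List.nodup_cons.2 ⟨a1, hT⟩) (by
          intro v hv; rcases List.mem_cons.1 hv with rfl | hv
          · exact h2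
          · exact hTF v hv) b1
        rw [List.length_cons] at this
        omega
      · have := ih (t.2.1 :: T) (List.nodup_cons.2 ⟨a2, hT⟩) (by
          intro v hv; rcases List.mem_cons.1 hv with rfl | hv
          · exact h2
          · exact hTF v hv) b2
        rw [List.length_cons] at this
        omega
      · have := ih (t.2.2 :: T) (List.nodup_cons.2 ⟨a3, hT⟩) (by
          intro v hv; rcases List.mem_cons.1 hv with rfl | hv
          · exact h2
          · exact hTF v hv) b3
        rw [List.length_cons] at this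
        omega

set_option maxRecDepth 100000 in
theorem hit4 : hit 4 [] = true := by decide

/-- The negation of the preceding statement: Every finite oriented graph whose underlying graph has a plane embedding has a vertex set S, of size at least 3/5 of all vertices, whose induced subdigraph contains no directed cycle. -/
theorem result :
    ¬ (∀ (n : ℕ) (D : Digraph (Fin n)),
    (∀ u v, D.Adj u v → ¬ D.Adj v u) →
    (∃ f : Fin n → ℂ, Function.Injective f ∧
      ∃ γ : ∀ u v : Fin n, Path (f u) (f v),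
        (∀ u v, (SimpleGraph.fromRel D.Adj).Adj u v → Function.Injective ⇑(γ u v)) ∧
        (∀ u v w, (SimpleGraph.fromRel D.Adj).Adj u v →
          f w ∈ Set.range ⇑(γ u v) → w = u ∨ w = v) ∧
        (∀ u v w x, (SimpleGraph.fromRel D.Adj).Adj u v →
          (SimpleGraph.fromRel D.Adj).Adj w x →
          s(u, v) ≠ s(w, x) → ∀ p ∈ Set.range ⇑(γ u v), p ∈ Set.range ⇑(γ w x) →
            ∃ y, (y = u ∨ y = v) ∧ (y = w ∨ y = x) ∧ p = f y)) →
    ∃ S : Finset (Fin n),
      (∀ v ∈ S, ¬ Relation.TransGen (fun a b => a ∈ S ∧ b ∈ S ∧ D.Adj a b) v v) ∧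
      3 * n ≤ 5 * S.card) := by
  intro h
  have hanti : ∀ u v, D.Adj u v → ¬ D.Adj v u := by
    have : ∀ u v : Fin 11, (u.val, v.val) ∈ arcs → ¬ (v.val, u.val) ∈ arcs := by decide
    exact this
  have hplane := Pool.Agent.PlaneCheck.plane X Y 11 arcs good (SimpleGraph.fromRel D.Adj) (by
    intro u v huv
    rw [SimpleGraph.fromRel_adj] at huv
    exact huv.2)
  obtain ⟨S, hS, hcard⟩ := h 11 D hanti hplane
  have hF : ∀ t ∈ tri, t.1 ∈ Sᶜ ∨ t.2.1 ∈ Sᶜ ∨ t.2.2 ∈ Sᶜ := by
    intro t ht
    by_contra hcon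
    push Not at hcon
    simp only [Finset.mem_compl, not_not] at hcon
    obtain ⟨c1, c2, c3⟩ := hcon
    obtain ⟨e1, e2, e3⟩ := tri_arcs t ht
    apply hS t.1 c1
    exact Relation.TransGen.tail (Relation.TransGen.tail (Relation.TransGen.single ⟨c1, c2, e1⟩)
      ⟨c2, c3, e2⟩) ⟨c3, c1, e3⟩
  have h5 := hit_sound Sᶜ hF 4 [] List.nodup_nil (by simp) hit4
  rw [Finset.card_compl, Fintype.card_fin] at h5
  simp only [List.length_nil] at h5
  omega

end Pool.Agent.S07190
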