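import Pool.Statements.S07220
-- import your own Pool.Agent.* helpers here

set_option autoImplicit false
open Pool Pool.MP_a94970_co

namespace Pool.Agent.S07220

open Finset Nat

/-- Hockey stick. -/
theorem hockey0 (c a : ℕ) : ∑ v ∈ range (a + 1), (c + v).choose c = (c + a + 1).choose (c + 1) := by
  induction a with
  | zero => simp
  | succ a ih =>
    rw [Finset.sum_range_succ, ih, ← add_assoc, Nat.choose_succ_succ (c + a + 1) c]
    exact Nat.add_comm _ _

theorem hockey (a c : ℕ) :
    (c + 1) * ∑ u ∈ range (a + 1), a.choose u * (u ! * (a + c - u)!) = (a + c + 1)! := by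
  have h1 : ∀ u ∈ range (a + 1), a.choose u * (u ! * (a + c - u)!) =
      a ! * c ! * (c + (a - u)).choose c := by
    intro u hu
    have hu' : u ≤ a := by
      have := Finset.mem_range.1 hu
      omega
    have e1 : a + c - u = c + (a - u) := by omega
    have e2 := Nat.choose_mul_factorial_mul_factorial hu'
    have e3 := Nat.choose_mul_factorial_mul_factorial (Nat.le_add_right c (a - u))
    rw [Nat.add_sub_cancel_left] at e3
    rw [e1, ← e3, ← e2]
    ring
  rw [Finset.sum_congr rfl h1, ← Finset.mul_sum]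
  have h2 : ∑ u ∈ range (a + 1), (c + (a - u)).choose c = ∑ v ∈ range (a + 1), (c + v).choose c := by
    have := Finset.sum_range_reflect (fun v => (c + v).choose c) (a + 1)
    simpa using this
  rw [h2, hockey0]
  have e4 := Nat.choose_mul_factorial_mul_factorial (show c + 1 ≤ c + a + 1 by omega)
  have e5 : c + a + 1 - (c + 1) = a := by omega
  rw [e5] at e4
  have e6 : a + c + 1 = c + a + 1 := by omega
  rw [e6, ← e4, Nat.factorial_succ]
  ring

/-- Multiplicity of a set with `t` elements. -/
def wt (N t : ℕ) : ℕ := if t = 0 then 0 else (t - 1)! * (N - t)!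

theorem wt_succ (N u : ℕ) : wt N (u + 1) = u ! * (N - 1 - u)! := by
  unfold wt
  rw [if_neg (Nat.succ_ne_zero u)]
  congr 2
  omega

/-- The weighted number of sets meeting `S` in exactly one element. -/
theorem one_meet (N : ℕ) (S : Finset (Fin N)) :
    ∑ T ∈ (Finset.univ : Finset (Finset (Fin N))).filter (fun T => (T ∩ S).card = 1), wt N T.card ≤ N ! := by
  classical
  have hsub : (Finset.univ : Finset (Finset (Fin N))).filter (fun T => (T ∩ S).card = 1) ⊆
      (S ×ˢ (Sᶜ).powerset).image (fun p => insert p.1 p.2) := by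
    intro T hT
    rw [Finset.mem_filter] at hT
    obtain ⟨x, hx⟩ := Finset.card_eq_one.1 hT.2
    have hx1 : x ∈ T ∩ S := by rw [hx]; exact Finset.mem_singleton_self x
    rw [Finset.mem_image]
    refine ⟨(x, T \ S), ?_, ?_⟩
    · rw [Finset.mem_product, Finset.mem_powerset]
      refine ⟨(Finset.mem_inter.1 hx1).2, ?_⟩
      intro y hy
      rw [Finset.mem_compl]
      exact (Finset.mem_sdiff.1 hy).2
    · ext y
      simp only [Finset.mem_insert, Finset.mem_sdiff]
      constructor
      · rintro (rfl | h)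
        · exact (Finset.mem_inter.1 hx1).1
        · exact h.1
      · intro hy
        by_cases hyS : y ∈ S
        · left
          have : y ∈ T ∩ S := Finset.mem_inter.2 ⟨hy, hyS⟩
          rw [hx] at this
          exact Finset.mem_singleton.1 this
        · right
          exact ⟨hy, hyS⟩
  refine (Finset.sum_le_sum_of_subset hsub).trans ?_
  have hinj : ∀ p ∈ S ×ˢ (Sᶜ).powerset, ∀ q ∈ S ×ˢ (Sᶜ).powerset,
      insert p.1 p.2 = insert q.1 q.2 → p = q := by
    rintro ⟨x, U⟩ hp ⟨y, W⟩ hq h
    rw [Finset.mem_product, Finset.mem_powerset] at hp hq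
    obtain ⟨hx, hU⟩ := hp
    obtain ⟨hy, hW⟩ := hq
    simp only at h hx hU hy hW
    have hxU : ∀ z ∈ U, z ∉ S := fun z hz => Finset.mem_compl.1 (hU hz)
    have hyW : ∀ z ∈ W, z ∉ S := fun z hz => Finset.mem_compl.1 (hW hz)
    have hxy : x = y := by
      have h1 : x ∈ insert y W := by rw [← h]; exact Finset.mem_insert_self x U
      rcases Finset.mem_insert.1 h1 with h1 | h1
      · exact h1
      · exact absurd hx (hyW x h1)
    subst hxy
    have hUW : U = W := by
      ext z
      constructor
      · intro hz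
        have h1 : z ∈ insert x W := by rw [← h]; exact Finset.mem_insert_of_mem hz
        rcases Finset.mem_insert.1 h1 with h1 | h1
        · rw [h1] at hz; exact absurd hx (hxU x hz)
        · exact h1
      · intro hz
        have h1 : z ∈ insert x U := by rw [h]; exact Finset.mem_insert_of_mem hz
        rcases Finset.mem_insert.1 h1 with h1 | h1
        · rw [h1] at hz; exact absurd hx (hyW x hz)
        · exact h1
    rw [hUW]
  rw [Finset.sum_image hinj, Finset.sum_product]
  have hin : ∀ x ∈ S, ∑ U ∈ (Sᶜ).powerset, wt N (insert x U).card =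
      ∑ U ∈ (Sᶜ).powerset, (U.card ! * (N - 1 - U.card)!) := by
    intro x hx
    refine Finset.sum_congr rfl (fun U hU => ?_)
    have hxU : x ∉ U := fun h => Finset.mem_compl.1 ((Finset.mem_powerset.1 hU) h) hx
    rw [Finset.card_insert_of_notMem hxU, wt_succ]
  rw [Finset.sum_congr rfl hin, Finset.sum_const, smul_eq_mul,
    Finset.sum_powerset_apply_card (fun u => u ! * (N - 1 - u)!)]
  rcases Nat.eq_zero_or_pos S.card with h0 | h0
  · rw [h0]; simp
  · have hc : (Sᶜ).card = N - S.card := by rw [Finset.card_compl, Fintype.card_fin]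
    have hSN : S.card ≤ N := by simpa using Finset.card_le_univ S
    have := hockey (N - S.card) (S.card - 1)
    have e1 : N - S.card + (S.card - 1) = N - 1 := by omega
    have e2 : S.card - 1 + 1 = S.card := by omega
    have e3 : N - 1 + 1 = N := by omega
    rw [e1, e2, e3] at this
    rw [hc]
    simp only [smul_eq_mul]
    exact this.le

/-- The total number of the vertices on the right. -/
theorem total (N : ℕ) : ((∑ T : Finset (Fin N), wt N T.card : ℕ) : ℚ) = (N ! : ℚ) * harmonic N := by
  have h1 : ∑ T : Finset (Fin N), wt N T.card = ∑ t ∈ range (N + 1), N.choose t * wt N t := by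
    have := Finset.sum_powerset_apply_card (fun t => wt N t) (x := (Finset.univ : Finset (Fin N)))
    rw [Finset.powerset_univ, Finset.card_univ, Fintype.card_fin] at this
    simpa using this
  rw [h1, Finset.sum_range_succ', harmonic]
  push_cast
  rw [Finset.mul_sum]
  have h2 : (wt N 0 : ℚ) = 0 := by simp [wt]
  rw [h2, mul_zero, add_zero]
  refine Finset.sum_congr rfl (fun t ht => ?_)
  have ht' : t + 1 ≤ N := by
    have := Finset.mem_range.1 ht
    omega
  have e1 := Nat.choose_mul_factorial_mul_factorial ht'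
  rw [wt_succ]
  have e2 : N - (t + 1) = N - 1 - t := by omega
  rw [e2, Nat.factorial_succ] at e1
  have e3 : ((N.choose (t + 1) : ℕ) : ℚ) * (((t + 1 : ℕ) : ℚ) * (t ! : ℚ)) * ((N - 1 - t)! : ℚ) = (N ! : ℚ) := by
    exact_mod_cast e1
  have e4 : ((t : ℚ) + 1) ≠ 0 := by positivity
  push_cast at e3 ⊢
  rw [← e3]
  field_simp

/-- The vertex set. -/
abbrev VV (N : ℕ) : Type := Fin N ⊕ (Σ T : Finset (Fin N), Fin (wt N T.card))

/-- Adjacency is membership. -/
def adj (N : ℕ) : VV N → VV N → Prop
  | Sum.inl x, Sum.inr r => x ∈ r.1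
  | Sum.inr r, Sum.inl x => x ∈ r.1
  | Sum.inl _, Sum.inl _ => False
  | Sum.inr _, Sum.inr _ => False

/-- The graph. -/
def gr (N : ℕ) : SimpleGraph (VV N) where
  Adj := adj N
  symm := ⟨fun u v h => by
    rcases u with x | r <;> rcases v with y | s <;> simpa [adj] using h⟩
  loopless := ⟨fun u h => by
    rcases u with x | r <;> simp [adj] at h⟩

theorem conn (N : ℕ) (hN : 1 ≤ N) : (gr N).Connected := by
  have hc : 0 < wt N (Finset.univ : Finset (Fin N)).card := by
    rw [Finset.card_univ, Fintype.card_fin]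
    unfold wt
    rw [if_neg (by omega)]
    positivity
  let top : VV N := Sum.inr ⟨Finset.univ, ⟨0, hc⟩⟩
  have h1 : ∀ x : Fin N, (gr N).Reachable (Sum.inl x) top := by
    intro x
    apply SimpleGraph.Adj.reachable
    show x ∈ (Finset.univ : Finset (Fin N))
    exact Finset.mem_univ x
  have h2 : ∀ v : VV N, (gr N).Reachable v top := by
    rintro (x | ⟨T, c⟩)
    · exact h1 x
    · have hT : T.Nonempty := by
        by_contra hT
        rw [Finset.not_nonempty_iff_eq_empty] at hT
        subst hT
        have := c.isLt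
        simp [wt] at this
      obtain ⟨x, hx⟩ := hT
      have h3 : (gr N).Adj (Sum.inr ⟨T, c⟩) (Sum.inl x) := hx
      exact h3.reachable.trans (h1 x)
  have : Nonempty (VV N) := ⟨top⟩
  exact SimpleGraph.Connected.mk (fun u v => (h2 u).trans (h2 v).symm)


theorem main_bound (N : ℕ) (f : VV N → ℕ)
    (hf : ∀ v, f v = 0 → ∃! u, (gr N).Adj v u ∧ f u = 2) :
    ∑ T : Finset (Fin N), wt N T.card ≤ ∑ v, f v + N ! := by
  classical
  let S : Finset (Fin N) := Finset.univ.filter (fun x => f (Sum.inl x) = 2)
  have h1 : ∑ T : Finset (Fin N), wt N T.card ≤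
      ∑ T : Finset (Fin N), ((∑ c : Fin (wt N T.card), f (Sum.inr ⟨T, c⟩)) +
        if (T ∩ S).card = 1 then wt N T.card else 0) := by
    refine Finset.sum_le_sum (fun T _ => ?_)
    by_cases hT : (T ∩ S).card = 1
    · rw [if_pos hT]
      exact Nat.le_add_left _ _
    · rw [if_neg hT, add_zero]
      have h2 : ∀ c : Fin (wt N T.card), 1 ≤ f (Sum.inr ⟨T, c⟩) := by
        intro c
        by_contra hlt
        have h0 : f (Sum.inr ⟨T, c⟩) = 0 := by omega
        obtain ⟨u, ⟨hu1, hu2⟩, hu3⟩ := hf _ h0
        apply hT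
        rcases u with x | r
        · rw [Finset.card_eq_one]
          refine ⟨x, ?_⟩
          ext y
          rw [Finset.mem_inter, Finset.mem_singleton]
          constructor
          · rintro ⟨hy1, hy2⟩
            have hy3 : f (Sum.inl y) = 2 := (Finset.mem_filter.1 hy2).2
            have := hu3 (Sum.inl y) ⟨hy1, hy3⟩
            exact Sum.inl.inj this
          · rintro rfl
            exact ⟨hu1, Finset.mem_filter.2 ⟨Finset.mem_univ _, hu2⟩⟩
        · exact absurd hu1 (by simp [gr, adj])
      calc wt N T.card = ∑ _c : Fin (wt N T.card), 1 := by simp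
        _ ≤ ∑ c : Fin (wt N T.card), f (Sum.inr ⟨T, c⟩) := Finset.sum_le_sum (fun c _ => h2 c)
  rw [Finset.sum_add_distrib] at h1
  have h2 : ∑ T : Finset (Fin N), (if (T ∩ S).card = 1 then wt N T.card else 0) ≤ N ! := by
    rw [← Finset.sum_filter]
    exact one_meet N S
  have h3 : ∑ T : Finset (Fin N), ∑ c : Fin (wt N T.card), f (Sum.inr ⟨T, c⟩) ≤ ∑ v, f v := by
    rw [Fintype.sum_sum_type, Fintype.sum_sigma]
    exact Nat.le_add_left _ _
  omega

theorem card_VV (N : ℕ) : Fintype.card (VV N) = N + ∑ T : Finset (Fin N), wt N T.card := by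
  rw [Fintype.card_sum, Fintype.card_fin, Fintype.card_sigma]
  simp

/-- The negation of the preceding statement: Every connected finite simple graph on n ≥ 3 vertices has a 0/1/2 labelling where each 0-vertex has exactly one neighbour labelled 2, with total label sum at most 4n/5. -/
theorem result :
    ¬ (∀ (V : Type) [Fintype V] (G : SimpleGraph V),
      G.Connected → 3 ≤ Fintype.card V →
      ∃ f : V → ℕ, (∀ v, f v ≤ 2) ∧
        (∀ v, f v = 0 → ∃! u, G.Adj v u ∧ f u = 2) ∧
        5 * (∑ v, f v) ≤ 4 * Fintype.card V) := by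
  intro h
  obtain ⟨N, hN⟩ : ∃ N : ℕ, N = 1023 := ⟨1023, rfl⟩
  have hharm : (6 : ℚ) ≤ harmonic N := by
    have h1 := log_add_one_le_harmonic N
    have h2 : (6 : ℝ) ≤ Real.log ((N + 1 : ℕ) : ℝ) := by
      rw [hN]
      have h3 : (((1023 : ℕ) + 1 : ℕ) : ℝ) = 2 ^ 10 := by norm_num
      rw [h3, Real.log_pow]
      have := Real.log_two_gt_d9
      push_cast
      linarith
    have h3 : ((6 : ℚ) : ℝ) ≤ ((harmonic N : ℚ) : ℝ) := by
      push_cast at h1 h2 ⊢
      linarith
    exact_mod_cast h3
  have hA : 6 * N ! ≤ ∑ T : Finset (Fin N), wt N T.card := by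
    have h1 := total N
    have h2 : (0 : ℚ) ≤ (N ! : ℚ) := by positivity
    have h3 : ((6 * N ! : ℕ) : ℚ) ≤ ((∑ T : Finset (Fin N), wt N T.card : ℕ) : ℚ) := by
      rw [h1]
      push_cast
      nlinarith
    exact_mod_cast h3
  have hF : 24 * N ≤ N ! := by
    obtain ⟨M, hM⟩ : ∃ M, N = M + 1 := ⟨N - 1, by omega⟩
    rw [hM, Nat.factorial_succ]
    have h1 : (4)! ≤ M ! := Nat.factorial_le (by omega)
    have h2 : (4)! = 24 := rfl
    rw [h2] at h1
    rw [Nat.mul_comm]
    exact Nat.mul_le_mul_left (M + 1) h1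
  have hN1 : 1 ≤ N := by omega
  clear hN
  obtain ⟨f, -, hf, hsum⟩ := h (VV N) (gr N) (conn N hN1) (by
    rw [card_VV]
    omega)
  have hb := main_bound N f hf
  rw [card_VV] at hsum
  omega

end Pool.Agent.S07220
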