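import Pool.Statements.S07226
-- import your own Pool.Agent.* helpers here

set_option autoImplicit false
open Pool Pool.MP_a9902f_co

namespace Pool.Agent.S07226

/-- The first factor. -/
def RL : List ℕ := [0, 24, 34, 54, 84, 114, 129, 174, 180, 204, 264, 294, 334, 360, 384, 414, 444, 474, 540, 564, 579, 594, 624, 634, 654, 714, 720, 744, 774, 894]

/-- The second factor. -/
def SL : List ℕ := [0, 1, 28, 29, 100, 101, 128, 153, 200, 225, 252, 253, 325, 352, 353, 425, 452, 477, 504, 576, 577, 604, 676, 677, 704, 729, 776, 801, 828, 829]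

theorem cover : ∀ a < 30, ∀ b < 30, ∃ r ∈ RL, ∃ s ∈ SL, (r + s) % 900 = 30 * a + b := by
  decide +kernel

theorem cover' (x : ZMod 900) : ∃ r ∈ RL, ∃ s ∈ SL, ((r + s : ℕ) : ZMod 900) = x := by
  obtain ⟨r, hr, s, hs, h⟩ := cover (x.val / 30) (by have := x.val_lt; omega) (x.val % 30) (by omega)
  refine ⟨r, hr, s, hs, ?_⟩
  have h2 : (r + s) % 900 = x.val := by omega
  have h3 : (((r + s) % 900 : ℕ) : ZMod 900) = ((r + s : ℕ) : ZMod 900) := by
    rw [ZMod.natCast_mod]
  rw [← h3, h2, ZMod.natCast_zmod_val]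

theorem cardR : RL.toFinset.card = 30 := by decide +kernel
theorem cardS : SL.toFinset.card = 30 := by decide +kernel

theorem bij : Function.Bijective
    (fun z : (RL.toFinset ×ˢ SL.toFinset : Finset (ℕ × ℕ)) =>
      ((z.val.1 + z.val.2 : ℕ) : ZMod 900)) := by
  rw [Fintype.bijective_iff_surjective_and_card]
  constructor
  · intro x
    obtain ⟨r, hr, s, hs, h⟩ := cover' x
    exact ⟨⟨(r, s), Finset.mem_product.2 ⟨List.mem_toFinset.2 hr, List.mem_toFinset.2 hs⟩⟩, h⟩
  · rw [Fintype.card_coe, Finset.card_product, cardR, cardS, ZMod.card]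


/-- The negation of the preceding statement: For coprime p,q ≥ 2 there is no n ≥ 1 and no finite sets R,S of naturals with 0,p,q in R and 0,1 in S such that every residue mod n is r+s mod n for exactly one pair (r,s) in R×S. -/
theorem result :
    ¬ (∀ p q : ℕ, 2 ≤ p → 2 ≤ q → Nat.Coprime p q →
      ¬ ∃ n : ℕ, 1 ≤ n ∧ ∃ R S : Finset ℕ,
        0 ∈ R ∧ p ∈ R ∧ q ∈ R ∧ 0 ∈ S ∧ 1 ∈ S ∧
        ∀ x : ZMod n, ∃! rs : ℕ × ℕ,
          rs.1 ∈ R ∧ rs.2 ∈ S ∧ (((rs.1 + rs.2 : ℕ)) : ZMod n) = x) := by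
  intro h
  apply h 579 334 (by norm_num) (by norm_num) (by norm_num)
  refine ⟨900, by norm_num, RL.toFinset, SL.toFinset, ?_, ?_, ?_, ?_, ?_, ?_⟩
  · decide +kernel
  · decide +kernel
  · decide +kernel
  · decide +kernel
  · decide +kernel
  · intro x
    obtain ⟨z, hz, hz2⟩ := bij.existsUnique x
    refine ⟨z.val, ⟨(Finset.mem_product.1 z.2).1, (Finset.mem_product.1 z.2).2, hz⟩, ?_⟩
    intro y hy
    have := hz2 ⟨y, Finset.mem_product.2 ⟨hy.1, hy.2.1⟩⟩ hy.2.2
    exact congrArg Subtype.val this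

end Pool.Agent.S07226
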