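import Pool.Statements.S07260
-- import your own Pool.Agent.* helpers here

set_option autoImplicit false
open Pool Pool.MP_abfa3d_co

namespace Pool.Agent.S07260

/-- The 4-cycle. -/
def gA : SimpleGraph (Fin 4) where
  Adj v w := (v.val + w.val) % 2 = 1
  symm := ⟨fun v w h => by rw [Nat.add_comm]; exact h⟩
  loopless := ⟨fun v h => by omega⟩

/-- A triangle together with an isolated vertex. -/
def gB : SimpleGraph (Fin 4) where
  Adj v w := v ≠ w ∧ v ≠ 3 ∧ w ≠ 3
  symm := ⟨fun _ _ h => ⟨h.1.symm, h.2.2, h.2.1⟩⟩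
  loopless := ⟨fun _ h => h.1 rfl⟩

instance : DecidableRel gA.Adj := fun v w => inferInstanceAs (Decidable ((v.val + w.val) % 2 = 1))
instance : DecidableRel gB.Adj := fun v w => inferInstanceAs (Decidable (v ≠ w ∧ v ≠ 3 ∧ w ≠ 3))

theorem degA : gA.maxDegree = 2 := by decide +kernel
theorem degB : gB.maxDegree = 2 := by decide +kernel

theorem noPack : ∀ σ : Equiv.Perm (Fin 4), ∃ v : Fin 4,
    2 ≤ (Finset.univ.filter (fun w : Fin 4 => gA.Adj v w ∧ gB.Adj (σ v) (σ w))).card := by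
  decide +kernel


/-- The negation of the preceding statement: For n-vertex graphs G1, G2 and real p>0, if n is at least ⌊Δ1/p⌋(Δ2+1)+⌊Δ2/p⌋(Δ1+1−p⌊Δ1/p⌋), then some relabelling of G2 overlaps G1 so that every vertex has fewer than p common edges. -/
theorem result :
    ¬ (∀ (n : ℕ) (p : ℝ), 0 < p →
      ∀ (G₁ G₂ : SimpleGraph (Fin n)) [DecidableRel G₁.Adj] [DecidableRel G₂.Adj],
        (n : ℝ) ≥
          (⌊(G₁.maxDegree : ℝ) / p⌋ : ℝ) * ((G₂.maxDegree : ℝ) + 1) +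
          (⌊(G₂.maxDegree : ℝ) / p⌋ : ℝ) *
            ((G₁.maxDegree : ℝ) + 1 - p * (⌊(G₁.maxDegree : ℝ) / p⌋ : ℝ)) →
        ∃ σ : Equiv.Perm (Fin n), ∀ v : Fin n,
          (((Finset.univ.filter
              (fun w : Fin n => G₁.Adj v w ∧ G₂.Adj (σ v) (σ w))).card : ℕ) : ℝ) < p) := by
  intro h
  have h1 := h 4 2 (by norm_num) gA gB (by
    rw [degA, degB]
    norm_num)
  obtain ⟨σ, hσ⟩ := h1
  obtain ⟨v, hv⟩ := noPack σ
  have h2 := hσ v
  have h3 : (2 : ℝ) ≤ (((Finset.univ.filter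
              (fun w : Fin 4 => gA.Adj v w ∧ gB.Adj (σ v) (σ w))).card : ℕ) : ℝ) := by
    exact_mod_cast hv
  linarith

end Pool.Agent.S07260
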