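import Pool.Statements.S07288
-- import your own Pool.Agent.* helpers here

set_option autoImplicit false
open Pool Pool.MP_ad5ca6_co

namespace Pool.Agent.S07288

/-- The arc relation: four parts of size five arranged cyclically, a transitive tournament inside each part. -/
def arc (i j : Fin 20) : Bool :=
  ((i.val / 5 + 1) % 4 == j.val / 5) || (i.val / 5 == j.val / 5 && decide (i.val % 5 < j.val % 5))

/-- The adjacency matrix. -/
def adjM : Matrix (Fin 20) (Fin 20) ℂ := fun i j => if arc i j then 1 else 0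

theorem arc_two : ∀ i j : Fin 20, arc i j = true → arc j i = false := by decide +kernel

theorem arc_three : ∀ i j : Fin 20, arc i j = true → ∀ k : Fin 20, arc j k = true → arc k i = false := by
  decide +kernel

theorem arc_of (i j : Fin 20) (h : adjM i j = 1) : arc i j = true := by
  unfold adjM at h
  by_contra hc
  simp [hc] at h

theorem eigen (q l : ℂ) (h1 : l * (q - 1) = 1) (h2 : q ^ 5 = 2) :
    ∀ i : Fin 20, (adjM.mulVec (fun j => q ^ (4 - j.val % 5))) i = l * q ^ (4 - i.val % 5) := by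
  intro i
  simp only [Matrix.mulVec, dotProduct, adjM, Fin.sum_univ_succ, Fin.sum_univ_zero]
  fin_cases i <;> simp [arc]
  all_goals first
    | linear_combination (-((1 + q + q^2 + q^3 + q^4) + (1 + q + q^2 + q^3))) * h1 + l * h2
    | linear_combination (-((1 + q + q^2 + q^3 + q^4) + (1 + q + q^2))) * h1 + l * h2
    | linear_combination (-((1 + q + q^2 + q^3 + q^4) + (1 + q))) * h1 + l * h2
    | linear_combination (-((1 + q + q^2 + q^3 + q^4) + 1)) * h1 + l * h2
    | linear_combination (-((1 + q + q^2 + q^3 + q^4))) * h1 + l * h2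

theorem qexists : ∃ q : ℝ, q ^ 5 = 2 ∧ 1 < q ∧ q ≤ 23 / 20 := by
  have h0 : (0 : ℝ) ≤ 2 := by norm_num
  have hq : ((2 : ℝ) ^ ((1 : ℝ) / 5)) ^ 5 = 2 := by
    rw [← Real.rpow_natCast, ← Real.rpow_mul h0]
    norm_num
  have hpos : 0 < (2 : ℝ) ^ ((1 : ℝ) / 5) := by positivity
  refine ⟨(2 : ℝ) ^ ((1 : ℝ) / 5), hq, ?_, ?_⟩
  · by_contra hc
    push Not at hc
    have : ((2 : ℝ) ^ ((1 : ℝ) / 5)) ^ 5 ≤ 1 := pow_le_one₀ hpos.le hc
    linarith
  · by_contra hc
    push Not at hc
    have : (23 / 20 : ℝ) ^ 5 < ((2 : ℝ) ^ ((1 : ℝ) / 5)) ^ 5 :=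
      pow_lt_pow_left₀ hc (by norm_num) (by norm_num)
    rw [hq] at this
    norm_num at this

theorem mem_spec : ∃ μ ∈ spectrum ℂ adjM, (20 : ℝ) / 3 ≤ ‖μ‖ := by
  obtain ⟨q, h5, h1, h2⟩ := qexists
  have hq1 : 0 < q - 1 := by linarith
  refine ⟨((1 / (q - 1) : ℝ) : ℂ), ?_, ?_⟩
  · have hl : (((1 / (q - 1) : ℝ) : ℂ)) * ((q : ℂ) - 1) = 1 := by
      have : (1 / (q - 1)) * (q - 1) = 1 := by field_simp
      exact_mod_cast this
    have h5' : (q : ℂ) ^ 5 = 2 := by exact_mod_cast h5
    have he := eigen (q : ℂ) ((1 / (q - 1) : ℝ) : ℂ) hl h5'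
    rw [spectrum.mem_iff, Matrix.isUnit_iff_isUnit_det, isUnit_iff_ne_zero, not_not,
      ← Matrix.exists_mulVec_eq_zero_iff]
    refine ⟨fun j => (q : ℂ) ^ (4 - j.val % 5), ?_, ?_⟩
    · intro h
      have h4 := congrFun h 4
      simp at h4
    · ext i
      rw [Matrix.sub_mulVec, Pi.sub_apply, he i, Matrix.algebraMap_eq_diagonal]
      simp [Matrix.mulVec_diagonal]
  · rw [Complex.norm_real, Real.norm_of_nonneg (by positivity), div_le_div_iff₀ (by norm_num) hq1]
    linarith


/-- The negation of the preceding statement: For every positive integer k and every n-vertex digraph with 0/1 adjacency matrix and zero diagonal, if some eigenvalue has modulus at least n/k, then the digraph has a directed cycle of length between 2 and k. -/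
theorem result :
    ¬ (∀ (n k : ℕ), 0 < k →
      ∀ (A : Matrix (Fin n) (Fin n) ℂ),
        (∀ i j, A i j = 0 ∨ A i j = 1) →
        (∀ i, A i i = 0) →
        (∃ μ ∈ spectrum ℂ A, (n : ℝ) / (k : ℝ) ≤ ‖μ‖) →
        ∃ m : ℕ, 2 ≤ m ∧ m ≤ k ∧
          ∃ v : Fin m → Fin n, Function.Injective v ∧
            ∀ i : Fin m, A (v i) (v (finRotate m i)) = 1) := by
  intro h
  obtain ⟨m, hm2, hm3, v, hv, hA⟩ := h 20 3 (by norm_num) adjM
    (fun i j => by
      unfold adjM
      by_cases hc : arc i j = true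
      · right; simp [hc]
      · left; simp [hc])
    (fun i => by
      unfold adjM
      have : ∀ i : Fin 20, arc i i = false := by decide +kernel
      simp [this i])
    (by
      obtain ⟨μ, h1, h2⟩ := mem_spec
      exact ⟨μ, h1, by simpa using h2⟩)
  have hmm : m = 2 ∨ m = 3 := by omega
  rcases hmm with rfl | rfl
  · have h0 := arc_of _ _ (hA 0)
    have h1 := arc_of _ _ (hA 1)
    have e0 : finRotate 2 0 = 1 := by decide
    have e1 : finRotate 2 1 = 0 := by decide
    rw [e0] at h0
    rw [e1] at h1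
    have := arc_two _ _ h0
    rw [this] at h1
    exact absurd h1 (by simp)
  · have h0 := arc_of _ _ (hA 0)
    have h1 := arc_of _ _ (hA 1)
    have h2 := arc_of _ _ (hA 2)
    have e0 : finRotate 3 0 = 1 := by decide
    have e1 : finRotate 3 1 = 2 := by decide
    have e2 : finRotate 3 2 = 0 := by decide
    rw [e0] at h0
    rw [e1] at h1
    rw [e2] at h2
    have := arc_three _ _ h0 _ h1
    rw [this] at h2
    exact absurd h2 (by simp)

end Pool.Agent.S07288
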