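import Pool.Statements.S07336
import Pool.Agent.HamCheck

set_option autoImplicit false
open Pool Pool.MP_b020eb_co

namespace Pool.Agent.S07336

/-- out-neighbour lists of the 13-vertex digraph -/
def nb : ℕ → List ℕ
  | 0 => [4, 5, 6]
  | 1 => [3, 11, 12]
  | 2 => [1, 5, 11]
  | 3 => [4, 7, 9]
  | 4 => [2, 6, 9]
  | 5 => [1, 10, 12]
  | 6 => [1, 3, 8]
  | 7 => [0, 5, 9]
  | 8 => [2, 3, 10]
  | 9 => [8, 10, 11]
  | 10 => [0, 6, 7]
  | 11 => [7, 8, 12]
  | 12 => [0, 2, 4]
  | _ => []

/-- the digraph on `Fin 13` -/
def adj (u v : Fin 13) : Prop := v.val ∈ nb u.val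

instance : ∀ u v, Decidable (adj u v) := fun u v => by unfold adj; infer_instance

set_option maxRecDepth 100000 in
theorem oriented : ∀ u v : Fin 13, adj u v → ¬ adj v u := by decide

set_option maxRecDepth 100000 in
theorem outdeg (v : Fin 13) : {w | adj v w}.ncard = 3 := by
  have h : {w | adj v w} = ((Finset.univ.filter (fun w => adj v w) : Finset (Fin 13)) : Set (Fin 13)) := by
    ext w; simp
  rw [h, Set.ncard_coe_finset]
  clear h; revert v; decide

set_option maxRecDepth 100000 in
theorem indeg (v : Fin 13) : {w | adj w v}.ncard = 3 := by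
  have h : {w | adj w v} = ((Finset.univ.filter (fun w => adj w v) : Finset (Fin 13)) : Set (Fin 13)) := by
    ext w; simp
  rw [h, Set.ncard_coe_finset]
  clear h; revert v; decide

set_option maxRecDepth 1000000 in
theorem search : Pool.Agent.HamCheck.srch nb 12 0 1 = false := by decide

theorem noHam (f : Fin 13 ≃ Fin 13) : ¬ ∀ i : Fin 13, adj (f i) (f (finRotate 13 i)) :=
  Pool.Agent.HamCheck.no_ham 12 nb search f

set_option maxRecDepth 100000 in
theorem nb_lt : ∀ u : Fin 13, ∀ w ∈ nb u.val, w < 13 := by decide

/-- next vertex on a path from `u` to `v` avoiding `x` (Boolean reachability in at most `k` steps) -/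
def rch (x : ℕ) : ℕ → ℕ → ℕ → Bool
  | 0, u, v => u == v
  | k + 1, u, v => u == v || (nb u).any fun w => w != x && rch x k w v

theorem rch_sound (x : Fin 13) : ∀ k (u v : Fin 13), u ≠ x → rch x.val k u.val v.val = true →
    Relation.ReflTransGen (fun a b => adj a b ∧ a ≠ x ∧ b ≠ x) u v := by
  intro k
  induction k with
  | zero =>
    intro u v _ h
    have : u = v := Fin.ext (by simpa [rch] using h)
    subst this
    exact Relation.ReflTransGen.refl
  | succ k ih =>
    intro u v hu h
    simp only [rch, Bool.or_eq_true, List.any_eq_true] at h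
    rcases h with h | ⟨w, hw, h2⟩
    · have : u = v := Fin.ext (by simpa using h)
      subst this
      exact Relation.ReflTransGen.refl
    · rw [Bool.and_eq_true] at h2
      have hw13 : w < 13 := nb_lt u w hw
      have hwx : (⟨w, hw13⟩ : Fin 13) ≠ x := by
        intro hh
        have := congrArg Fin.val hh
        simp at this
        rw [this] at h2
        simp at h2
      have hadj : adj u ⟨w, hw13⟩ := hw
      exact Relation.ReflTransGen.head ⟨hadj, hu, hwx⟩ (ih ⟨w, hw13⟩ v hwx h2.2)

set_option maxRecDepth 1000000 in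
theorem strongchk : ∀ x u v : Fin 13, u ≠ x → v ≠ x → rch x.val 4 u.val v.val = true := by decide

/-- The negation of the preceding statement: For every d>2, every oriented graph on n≤6d vertices with all in- and out-degrees equal to d, at least 3 vertices, and strongly connected after deleting any one vertex, has a directed Hamilton cycle. -/
theorem result :
    ¬ (∀ (d n : ℕ) (adj : Fin n → Fin n → Prop),
      2 < d → n ≤ 6 * d →
      (∀ u v, adj u v → ¬ adj v u) →
      (∀ u, Set.ncard {v | adj u v} = d) →
      (∀ v, Set.ncard {u | adj u v} = d) →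
      3 ≤ n →
      (∀ x u v, u ≠ x → v ≠ x →
        Relation.ReflTransGen (fun a b => adj a b ∧ a ≠ x ∧ b ≠ x) u v) →
      ∃ σ : Equiv.Perm (Fin n), ∀ i : Fin n, adj (σ i) (σ (finRotate n i))) := by
  intro h
  obtain ⟨f, hf⟩ := h 3 13 adj (by norm_num) (by norm_num) oriented outdeg indeg (by norm_num)
    (fun x u v hu hv => rch_sound x _ u v hu (strongchk x u v hu hv))
  exact noHam f hf

end Pool.Agent.S07336
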