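import Pool.Statements.S07343
-- import your own Pool.Agent.* helpers here

set_option autoImplicit false
open Pool Pool.MP_b0e7a9_co

namespace Pool.Agent.S07343

open Finset

/-- Walking from nonnegative weights towards weights with a nonpositive entry, one meets the boundary. -/
theorem crossing {ι : Type} (s : Finset ι) (a b : ι → ℝ) (ha : ∀ i ∈ s, 0 ≤ a i) (hb : ∃ k ∈ s, b k ≤ 0) :
    ∃ t : ℝ, 0 ≤ t ∧ t ≤ 1 ∧ (∀ i ∈ s, 0 ≤ (1 - t) * a i + t * b i) ∧
      ∃ k ∈ s, (1 - t) * a k + t * b k = 0 := by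
  classical
  obtain ⟨k0, hk0, hbk0⟩ := hb
  have hne : (s.filter (fun i => b i ≤ 0)).Nonempty := ⟨k0, Finset.mem_filter.2 ⟨hk0, hbk0⟩⟩
  obtain ⟨k, hk, hmin⟩ := Finset.exists_min_image _ (fun i => a i / (a i - b i)) hne
  rw [Finset.mem_filter] at hk
  have hak := ha k hk.1
  have hdiff : 0 ≤ a k - b k := by linarith [hk.2]
  refine ⟨a k / (a k - b k), div_nonneg hak hdiff, ?_, ?_, k, hk.1, ?_⟩
  · exact div_le_one_of_le₀ (by linarith [hk.2]) hdiff
  · intro i hi
    have hai := ha i hi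
    have ht0 : 0 ≤ a k / (a k - b k) := div_nonneg hak hdiff
    have ht1 : a k / (a k - b k) ≤ 1 := div_le_one_of_le₀ (by linarith [hk.2]) hdiff
    by_cases hbi : b i ≤ 0
    · have hm : a k / (a k - b k) ≤ a i / (a i - b i) := hmin i (Finset.mem_filter.2 ⟨hi, hbi⟩)
      rcases eq_or_lt_of_le (show 0 ≤ a i - b i by linarith) with h0 | h0
      · have h1 : a i = b i := by linarith
        have h2 : a i = 0 := by linarith
        rw [← h1, h2]
        linarith
      · rw [le_div_iff₀ h0] at hm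
        nlinarith
    · push Not at hbi
      have := mul_nonneg (sub_nonneg.2 ht1) hai
      have := mul_nonneg ht0 hbi.le
      linarith
  · rcases eq_or_lt_of_le hdiff with h0 | h0
    · have h1 : a k = b k := by linarith
      have h2 : a k = 0 := by linarith [hk.2]
      rw [← h1, h2]
      ring
    · field_simp
      ring

variable {d : ℕ}

/-- Shorthand for the Euclidean space. -/
abbrev EE (d : ℕ) : Type := EuclideanSpace ℝ (Fin d)

/-- Weighted combination over a face. -/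
noncomputable def comb (p : Fin (d + 1) → EE d) (s : Finset (Fin (d + 1))) : (Fin (d + 1) → ℝ) →ₗ[ℝ] EE d where
  toFun w := ∑ i ∈ s, w i • p i
  map_add' := by
    intro v w
    rw [← Finset.sum_add_distrib]
    refine Finset.sum_congr rfl (fun i _ => ?_)
    rw [Pi.add_apply, add_smul]
  map_smul' := by
    intro c v
    rw [Finset.smul_sum]
    refine Finset.sum_congr rfl (fun i _ => ?_)
    rw [Pi.smul_apply, smul_eq_mul, mul_smul, RingHom.id_apply]

theorem comb_apply (p : Fin (d + 1) → EE d) (s : Finset (Fin (d + 1))) (w : Fin (d + 1) → ℝ) :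
    comb p s w = ∑ i ∈ s, w i • p i := rfl

/-- Weights with total zero on a face. -/
def zsum (s : Finset (Fin (d + 1))) : Submodule ℝ (Fin (d + 1) → ℝ) where
  carrier := {w | ∑ i ∈ s, w i = 0}
  add_mem' := by
    intro v w hv hw
    show ∑ i ∈ s, (v + w) i = 0
    have hv' : ∑ i ∈ s, v i = 0 := hv
    have hw' : ∑ i ∈ s, w i = 0 := hw
    simp only [Pi.add_apply, Finset.sum_add_distrib, hv', hw', add_zero]
  zero_mem' := by
    show ∑ i ∈ s, (0 : Fin (d + 1) → ℝ) i = 0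
    simp
  smul_mem' := by
    intro c v hv
    show ∑ i ∈ s, (c • v) i = 0
    have hv' : ∑ i ∈ s, v i = 0 := hv
    simp only [Pi.smul_apply, smul_eq_mul, ← Finset.mul_sum, hv', mul_zero]

/-- The linear part of the barycentric coordinates. -/
theorem exists_grad (p : Fin (d + 1) → EE d) (hp : AffineIndependent ℝ p) (k : Fin (d + 1)) :
    ∃ g : EE d, ∀ (s : Finset (Fin (d + 1))) (w : Fin (d + 1) → ℝ), k ∈ s → ∑ i ∈ s, w i = 0 →
      inner ℝ g (comb p s w) = w k := by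
  classical
  have htop : affineSpan ℝ (Set.range p) = ⊤ := by
    rw [hp.affineSpan_eq_top_iff_card_eq_finrank_add_one, Fintype.card_fin, finrank_euclideanSpace_fin]
  let b : AffineBasis (Fin (d + 1)) ℝ (EE d) := ⟨p, hp, htop⟩
  have hb : ∀ i, b i = p i := fun i => rfl
  let f : EE d →ₗ[ℝ] ℝ := (b.coord k).linear
  let g : EE d := (InnerProductSpace.toDual ℝ (EE d)).symm (LinearMap.toContinuousLinearMap f)
  have hg : ∀ x, inner ℝ g x = f x := by
    intro x
    have := InnerProductSpace.toDual_symm_apply (𝕜 := ℝ) (x := x) (y := LinearMap.toContinuousLinearMap f)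
    exact this
  refine ⟨g, ?_⟩
  intro s w hk hw
  rw [hg, comb_apply, map_sum]
  have h1 : ∀ i, f (p i) = (if k = i then 1 else 0) - (b.coord k) 0 := by
    intro i
    have h2 : (b.coord k) (p i) = (if k = i then 1 else 0) := by rw [← hb i, b.coord_apply]
    have h3 : f (p i - 0) = (b.coord k) (p i) - (b.coord k) 0 := by
      have := (b.coord k).linearMap_vsub (p i) 0
      exact this
    rw [sub_zero] at h3
    rw [h3, h2]
  have h4 : ∀ i ∈ s, f (w i • p i) = (if k = i then w i else 0) - w i * (b.coord k) 0 := by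
    intro i _
    rw [map_smul, h1 i, smul_eq_mul, mul_sub]
    congr 1
    split_ifs <;> simp
  rw [Finset.sum_congr rfl h4, Finset.sum_sub_distrib, ← Finset.sum_mul, hw, zero_mul, sub_zero,
    Finset.sum_ite_eq, if_pos hk]


theorem variance (p : Fin (d + 1) → EE d) (s : Finset (Fin (d + 1))) (hball : ∀ i, ‖p i‖ ≤ 1)
    (μ : Fin (d + 1) → ℝ) (hμ : ∀ i ∈ s, 0 ≤ μ i) (hμ1 : ∑ i ∈ s, μ i = 1) :
    ∑ i ∈ s, μ i * ‖p i - comb p s μ‖ ^ 2 ≤ 1 - ‖comb p s μ‖ ^ 2 := by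
  have h1 : ∀ i ∈ s, μ i * ‖p i - comb p s μ‖ ^ 2 =
      μ i * ‖p i‖ ^ 2 - 2 * inner ℝ (μ i • p i) (comb p s μ) + μ i * ‖comb p s μ‖ ^ 2 := by
    intro i _
    rw [norm_sub_sq_real, inner_smul_left]
    simp only [conj_trivial]
    ring
  rw [Finset.sum_congr rfl h1, Finset.sum_add_distrib, Finset.sum_sub_distrib, ← Finset.mul_sum,
    ← sum_inner, ← Finset.sum_mul, hμ1, ← comb_apply, real_inner_self_eq_norm_sq]
  have h2 : ∑ i ∈ s, μ i * ‖p i‖ ^ 2 ≤ ∑ i ∈ s, μ i := by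
    refine Finset.sum_le_sum (fun i hi => ?_)
    have h3 : ‖p i‖ ^ 2 ≤ 1 := pow_le_one₀ (norm_nonneg _) (hball i)
    nlinarith [hμ i hi]
  rw [hμ1] at h2
  linarith

/-- The facet step. -/
theorem facet (p : Fin (d + 1) → EE d) (hp : AffineIndependent ℝ p) (hball : ∀ i, ‖p i‖ ≤ 1)
    (m : ℕ) (hm : 1 ≤ m) (s : Finset (Fin (d + 1))) (hs : s.card = m + 1)
    (μ : Fin (d + 1) → ℝ) (hμ : ∀ i ∈ s, 0 ≤ μ i) (hμ1 : ∑ i ∈ s, μ i = 1) (c : EE d) :
    ∃ w : Fin (d + 1) → ℝ, (∀ i ∈ s, 0 ≤ w i) ∧ ∑ i ∈ s, w i = 1 ∧ (∃ k ∈ s, w k = 0) ∧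
      ‖comb p s w - c‖ ^ 2 ≤ ‖comb p s μ - c‖ ^ 2 + (1 - ‖comb p s μ‖ ^ 2) / (m : ℝ) ^ 2 := by
  classical
  have hm0 : (0 : ℝ) < m := by exact_mod_cast hm
  have hvar := variance p s hball μ hμ hμ1
  have hvar0 : 0 ≤ 1 - ‖comb p s μ‖ ^ 2 := by
    refine le_trans ?_ hvar
    exact Finset.sum_nonneg (fun i hi => mul_nonneg (hμ i hi) (by positivity))
  by_cases hzero : ∃ k ∈ s, μ k = 0
  · refine ⟨μ, hμ, hμ1, hzero, ?_⟩
    have : 0 ≤ (1 - ‖comb p s μ‖ ^ 2) / (m : ℝ) ^ 2 := by positivity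
    linarith
  push Not at hzero
  have hpos : ∀ k ∈ s, 0 < μ k := fun k hk => lt_of_le_of_ne (hμ k hk) (Ne.symm (hzero k hk))
  -- the direction space and the projection
  obtain ⟨y, hy⟩ : ∃ y, y = comb p s μ := ⟨_, rfl⟩
  obtain ⟨K, hK⟩ : ∃ K : Submodule ℝ (EE d), K = (zsum s).map (comb p s) := ⟨_, rfl⟩
  have hKmem : ∀ w : Fin (d + 1) → ℝ, ∑ i ∈ s, w i = 0 → comb p s w ∈ K := by
    intro w hw
    rw [hK]
    exact ⟨w, hw, rfl⟩
  obtain ⟨u, hu⟩ : ∃ u, u = K.starProjection (c - y) := ⟨_, rfl⟩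
  have huK : u ∈ K := by rw [hu]; exact Submodule.starProjection_apply_mem K _
  have hperp : ∀ v ∈ K, inner ℝ (c - y - u) v = 0 := by
    intro v hv
    rw [hu]
    exact Submodule.starProjection_inner_eq_zero _ v hv
  obtain ⟨ω, hω0, hωu⟩ : ∃ ω : Fin (d + 1) → ℝ, ∑ i ∈ s, ω i = 0 ∧ comb p s ω = u := by
    rw [hK] at huK
    obtain ⟨ω, h1, h2⟩ := huK
    exact ⟨ω, h1, h2⟩
  -- pythagoras
  have pyth : ∀ v ∈ K, ‖y + v - c‖ ^ 2 = ‖c - y - u‖ ^ 2 + ‖v - u‖ ^ 2 := by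
    intro v hv
    have h1 : y + v - c = (v - u) - (c - y - u) := by abel
    have h2 : inner ℝ (v - u) (c - y - u) = 0 := by
      rw [real_inner_comm]
      exact hperp _ (K.sub_mem hv huK)
    rw [h1, norm_sub_sq_real, h2]
    ring
  have pyth0 : ‖y - c‖ ^ 2 = ‖c - y - u‖ ^ 2 + ‖u‖ ^ 2 := by
    have := pyth 0 K.zero_mem
    rw [add_zero, zero_sub, norm_neg] at this
    exact this
  by_cases hout : ∃ k ∈ s, μ k + ω k ≤ 0
  · obtain ⟨t, ht0, ht1, hw, hk⟩ := crossing s μ (fun i => μ i + ω i) hμ hout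
    refine ⟨fun i => (1 - t) * μ i + t * (μ i + ω i), hw, ?_, hk, ?_⟩
    · rw [Finset.sum_add_distrib, ← Finset.mul_sum, ← Finset.mul_sum, Finset.sum_add_distrib, hμ1, hω0]
      ring
    · have h1 : comb p s (fun i => (1 - t) * μ i + t * (μ i + ω i)) = y + t • u := by
        have : (fun i => (1 - t) * μ i + t * (μ i + ω i)) = μ + t • ω := by
          funext i
          simp only [Pi.add_apply, Pi.smul_apply, smul_eq_mul]
          ring
        rw [this, map_add, map_smul, hωu, hy]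
      rw [h1, ← hy, pyth _ (K.smul_mem t huK), pyth0]
      have h2 : t • u - u = (-(1 - t)) • u := by
        rw [neg_smul, sub_smul, one_smul]
        abel
      have h3 : ‖t • u - u‖ ^ 2 ≤ ‖u‖ ^ 2 := by
        rw [h2, norm_smul, norm_neg, Real.norm_of_nonneg (by linarith)]
        have h4 : (1 - t) * ‖u‖ ≤ ‖u‖ := by nlinarith [norm_nonneg u]
        exact pow_le_pow_left₀ (mul_nonneg (by linarith) (norm_nonneg _)) h4 2
      rw [← hy] at hvar0
      have : 0 ≤ (1 - ‖y‖ ^ 2) / (m : ℝ) ^ 2 := by positivity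
      linarith
  · push Not at hout
    -- gradients
    have hgr : ∀ k : Fin (d + 1), ∃ b : EE d, b ∈ K ∧ ∀ w : Fin (d + 1) → ℝ, k ∈ s → ∑ i ∈ s, w i = 0 →
        inner ℝ b (comb p s w) = w k := by
      intro k
      obtain ⟨g, hg⟩ := exists_grad p hp k
      refine ⟨K.starProjection g, Submodule.starProjection_apply_mem K _, ?_⟩
      intro w hk hw
      have h1 := Submodule.starProjection_inner_eq_zero (K := K) g _ (hKmem w hw)
      rw [inner_sub_left] at h1
      rw [← hg s w hk hw]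
      linarith
    choose b hbK hb using hgr
    -- the sum T
    obtain ⟨T, hT⟩ : ∃ T : ℝ, T = ∑ k ∈ s, ‖b k‖ ^ 2 / μ k := ⟨_, rfl⟩
    have hbne : ∀ k ∈ s, 0 < ‖b k‖ := by
      intro k hk
      rw [norm_pos_iff]
      intro h0
      obtain ⟨j, hj, hjk⟩ := Finset.exists_mem_ne (by omega : 1 < s.card) k
      have h1 := hb k (Pi.single k 1 - Pi.single j 1) hk (by
        simp only [Pi.sub_apply, Finset.sum_sub_distrib, Finset.sum_pi_single', if_pos hk, if_pos hj, sub_self])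
      rw [h0, inner_zero_left, Pi.sub_apply, Pi.single_eq_same, Pi.single_eq_of_ne hjk.symm] at h1
      norm_num at h1
    have hsne : s.Nonempty := Finset.card_pos.1 (by omega)
    have hTpos : 0 < T := by
      rw [hT]
      apply Finset.sum_pos _ hsne
      intro k hk
      have := hbne k hk
      have := hpos k hk
      positivity
    -- (A)
    have hpy : ∀ k ∈ s, inner ℝ (b k) (p k - y) = 1 - μ k := by
      intro k hk
      have h1 : p k - y = comb p s (Pi.single k 1 - μ) := by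
        rw [map_sub, ← hy]
        congr 1
        rw [comb_apply, Finset.sum_eq_single k]
        · rw [Pi.single_eq_same, one_smul]
        · intro i _ hi
          rw [Pi.single_eq_of_ne hi, zero_smul]
        · intro h
          exact absurd hk h
      rw [h1, hb k _ hk (by
        simp only [Pi.sub_apply, Finset.sum_sub_distrib, Finset.sum_pi_single', if_pos hk, hμ1, sub_self]),
        Pi.sub_apply, Pi.single_eq_same]
    have hA : (m : ℝ) ^ 2 ≤ T * ∑ k ∈ s, μ k * ‖p k - y‖ ^ 2 := by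
      have h1 : (m : ℝ) = ∑ k ∈ s, inner ℝ (b k) (p k - y) := by
        rw [Finset.sum_congr rfl hpy, Finset.sum_sub_distrib, hμ1]
        simp [hs]
      have h2 : ∑ k ∈ s, inner ℝ (b k) (p k - y) ≤
          ∑ k ∈ s, (‖b k‖ / Real.sqrt (μ k)) * (Real.sqrt (μ k) * ‖p k - y‖) := by
        refine Finset.sum_le_sum (fun k hk => ?_)
        have h3 := real_inner_le_norm (b k) (p k - y)
        have h4 : Real.sqrt (μ k) ≠ 0 := (Real.sqrt_pos.2 (hpos k hk)).ne'
        have h5 : (‖b k‖ / Real.sqrt (μ k)) * (Real.sqrt (μ k) * ‖p k - y‖) = ‖b k‖ * ‖p k - y‖ := by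
          field_simp
        rw [h5]
        exact h3
      have h3 := Finset.sum_mul_sq_le_sq_mul_sq s (fun k => ‖b k‖ / Real.sqrt (μ k))
        (fun k => Real.sqrt (μ k) * ‖p k - y‖)
      have h4 : ∑ k ∈ s, (‖b k‖ / Real.sqrt (μ k)) ^ 2 = T := by
        rw [hT]
        refine Finset.sum_congr rfl (fun k hk => ?_)
        rw [div_pow, Real.sq_sqrt (hμ k hk)]
      have h5 : ∑ k ∈ s, (Real.sqrt (μ k) * ‖p k - y‖) ^ 2 = ∑ k ∈ s, μ k * ‖p k - y‖ ^ 2 := by
        refine Finset.sum_congr rfl (fun k hk => ?_)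
        rw [mul_pow, Real.sq_sqrt (hμ k hk)]
      rw [h4, h5] at h3
      refine le_trans ?_ h3
      rw [← h1] at h2
      exact pow_le_pow_left₀ hm0.le h2 2
    have hTV : (m : ℝ) ^ 2 ≤ T * (1 - ‖y‖ ^ 2) := by
      rw [← hy] at hvar
      exact hA.trans (mul_le_mul_of_nonneg_left hvar hTpos.le)
    -- (B)
    have hωk : ∀ k ∈ s, inner ℝ (b k) u = ω k := by
      intro k hk
      rw [← hωu, hb k ω hk hω0]
    have hB : ∑ k ∈ s, (μ k + ω k) ^ 2 / μ k ≤ 1 + ‖u‖ ^ 2 * T := by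
      have h1 : ∀ k ∈ s, (μ k + ω k) ^ 2 / μ k = μ k + 2 * ω k + ω k ^ 2 / μ k := by
        intro k hk
        have := (hpos k hk).ne'
        field_simp
        ring
      rw [Finset.sum_congr rfl h1, Finset.sum_add_distrib, Finset.sum_add_distrib, ← Finset.mul_sum, hμ1, hω0]
      have h2 : ∑ k ∈ s, ω k ^ 2 / μ k ≤ ‖u‖ ^ 2 * T := by
        rw [hT, Finset.mul_sum]
        refine Finset.sum_le_sum (fun k hk => ?_)
        rw [← mul_div_assoc]
        apply div_le_div_of_nonneg_right _ (hμ k hk)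
        rw [← hωk k hk]
        have h3 := abs_real_inner_le_norm (b k) u
        calc (inner ℝ (b k) u) ^ 2 = |inner ℝ (b k) u| ^ 2 := (sq_abs _).symm
          _ ≤ (‖b k‖ * ‖u‖) ^ 2 := pow_le_pow_left₀ (abs_nonneg _) h3 2
          _ = ‖u‖ ^ 2 * ‖b k‖ ^ 2 := by ring
      linarith
    obtain ⟨k, hk, hkle⟩ : ∃ k ∈ s, (μ k + ω k) ^ 2 / ‖b k‖ ^ 2 ≤ ‖u‖ ^ 2 + (1 - ‖y‖ ^ 2) / (m : ℝ) ^ 2 := by
      by_contra hcon
      push Not at hcon
      have h1 : ∑ k ∈ s, (‖u‖ ^ 2 + (1 - ‖y‖ ^ 2) / (m : ℝ) ^ 2) * (‖b k‖ ^ 2 / μ k) <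
          ∑ k ∈ s, (μ k + ω k) ^ 2 / μ k := by
        apply Finset.sum_lt_sum_of_nonempty hsne
        intro k hk
        have h2 := hcon k hk
        have h3 := hbne k hk
        have h4 := hpos k hk
        have h5 : (μ k + ω k) ^ 2 / μ k = ((μ k + ω k) ^ 2 / ‖b k‖ ^ 2) * (‖b k‖ ^ 2 / μ k) := by
          field_simp
        rw [h5]
        exact mul_lt_mul_of_pos_right h2 (by positivity)
      rw [← Finset.mul_sum, ← hT] at h1
      have h2 := h1.trans_le hB
      have h3 : (1 - ‖y‖ ^ 2) / (m : ℝ) ^ 2 * T < 1 := by nlinarith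
      have h4 : 1 ≤ (1 - ‖y‖ ^ 2) / (m : ℝ) ^ 2 * T := by
        rw [div_mul_eq_mul_div, le_div_iff₀ (by positivity)]
        linarith
      linarith
    -- walk in the direction -b k
    obtain ⟨η, hη0, hηb⟩ : ∃ η : Fin (d + 1) → ℝ, ∑ i ∈ s, η i = 0 ∧ comb p s η = b k := by
      have := hbK k
      rw [hK] at this
      obtain ⟨η, h1, h2⟩ := this
      exact ⟨η, h1, h2⟩
    have hηk : η k = ‖b k‖ ^ 2 := by
      rw [← hb k η hk hη0, hηb, real_inner_self_eq_norm_sq]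
    have hbk := hbne k hk
    obtain ⟨t0, ht0⟩ : ∃ t0 : ℝ, t0 = (μ k + ω k) / ‖b k‖ ^ 2 := ⟨_, rfl⟩
    obtain ⟨t, ht, ht1, hw, hkz⟩ := crossing s (fun i => μ i + ω i) (fun i => μ i + ω i - t0 * η i)
      (fun i hi => (hout i hi).le) ⟨k, hk, by
        show μ k + ω k - t0 * η k ≤ 0
        rw [hηk, ht0]
        have : (μ k + ω k) / ‖b k‖ ^ 2 * ‖b k‖ ^ 2 = μ k + ω k := by field_simp
        rw [this, sub_self]⟩
    refine ⟨fun i => (1 - t) * (μ i + ω i) + t * (μ i + ω i - t0 * η i), hw, ?_, hkz, ?_⟩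
    · simp only [Finset.sum_add_distrib, Finset.sum_sub_distrib, ← Finset.mul_sum, hμ1, hω0, hη0]
      ring
    · have h1 : comb p s (fun i => (1 - t) * (μ i + ω i) + t * (μ i + ω i - t0 * η i)) =
          y + (u - (t * t0) • b k) := by
        have : (fun i => (1 - t) * (μ i + ω i) + t * (μ i + ω i - t0 * η i)) = μ + (ω - (t * t0) • η) := by
          funext i
          simp only [Pi.add_apply, Pi.sub_apply, Pi.smul_apply, smul_eq_mul]
          ring
        rw [this, map_add, map_sub, map_smul, hωu, hηb, hy]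
      rw [h1, ← hy, pyth _ (K.sub_mem huK (K.smul_mem _ (hbK k))), pyth0]
      have h2 : u - (t * t0) • b k - u = (-(t * t0)) • b k := by
        rw [neg_smul]
        abel
      have h3 : ‖u - (t * t0) • b k - u‖ ^ 2 ≤ (μ k + ω k) ^ 2 / ‖b k‖ ^ 2 := by
        rw [h2, norm_smul, norm_neg, mul_pow, Real.norm_eq_abs, sq_abs, ht0]
        have h4 : (t * ((μ k + ω k) / ‖b k‖ ^ 2)) ^ 2 * ‖b k‖ ^ 2 = t ^ 2 * ((μ k + ω k) ^ 2 / ‖b k‖ ^ 2) := by
          field_simp
        rw [h4]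
        have h5 : t ^ 2 ≤ 1 := pow_le_one₀ ht ht1
        have h6 : 0 ≤ (μ k + ω k) ^ 2 / ‖b k‖ ^ 2 := by positivity
        nlinarith
      linarith

theorem weights_of_mem (p : Fin (d + 1) → EE d) (x : EE d) (hx : x ∈ convexHull ℝ (Set.range p)) :
    ∃ w : Fin (d + 1) → ℝ, (∀ i, 0 ≤ w i) ∧ ∑ i, w i = 1 ∧ comb p Finset.univ w = x := by
  have hsub : convexHull ℝ (Set.range p) ⊆
      {x | ∃ w : Fin (d + 1) → ℝ, (∀ i, 0 ≤ w i) ∧ ∑ i, w i = 1 ∧ comb p Finset.univ w = x} := by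
    apply convexHull_min
    · rintro _ ⟨j, rfl⟩
      refine ⟨Pi.single j 1, ?_, by simp, ?_⟩
      · intro i
        by_cases h : i = j
        · subst h; simp
        · rw [Pi.single_eq_of_ne h]
      · rw [comb_apply, Finset.sum_eq_single j]
        · rw [Pi.single_eq_same, one_smul]
        · intro i _ hi
          rw [Pi.single_eq_of_ne hi, zero_smul]
        · intro h
          exact absurd (Finset.mem_univ j) h
    · rintro x ⟨v, hv, hv1, rfl⟩ y ⟨w, hw, hw1, rfl⟩ a b ha hb hab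
      refine ⟨a • v + b • w, ?_, ?_, ?_⟩
      · intro i
        exact add_nonneg (mul_nonneg ha (hv i)) (mul_nonneg hb (hw i))
      · simp only [Pi.add_apply, Pi.smul_apply, smul_eq_mul, Finset.sum_add_distrib, ← Finset.mul_sum, hv1, hw1,
          mul_one, hab]
      · rw [map_add, map_smul, map_smul]
  exact hsub hx

theorem mem_face (p : Fin (d + 1) → EE d) (s : Finset (Fin (d + 1))) (w : Fin (d + 1) → ℝ)
    (hw : ∀ i ∈ s, 0 ≤ w i) (hw1 : ∑ i ∈ s, w i = 1) :
    comb p s w ∈ convexHull ℝ (p '' (s : Set (Fin (d + 1)))) := by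
  rw [comb_apply]
  exact (convex_convexHull ℝ _).sum_mem hw hw1 (fun i hi => subset_convexHull ℝ _ ⟨i, hi, rfl⟩)

/-- The descent. -/
theorem descent (p : Fin (d + 1) → EE d) (hp : AffineIndependent ℝ p) (hball : ∀ i, ‖p i‖ ≤ 1)
    (k : ℕ) (hk : 1 ≤ k) (hkd : k < d) (x : EE d) (hx : x ∈ convexHull ℝ (Set.range p)) :
    ∀ j : ℕ, j ≤ d - k → ∃ s : Finset (Fin (d + 1)), s.card = d - j + 1 ∧ ∃ w : Fin (d + 1) → ℝ,
      (∀ i ∈ s, 0 ≤ w i) ∧ ∑ i ∈ s, w i = 1 ∧
      (k * ((d - j : ℕ) + 1) / ((d - j : ℕ) * (k + 1)) : ℝ) * ‖comb p s w‖ ^ 2 - 2 * inner ℝ x (comb p s w) -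
        (k * ((d - j : ℕ) + 1) / ((d - j : ℕ) * (k + 1)) : ℝ) ≤
      (k * ((d : ℝ) + 1) / ((d : ℝ) * (k + 1))) * ‖x‖ ^ 2 - 2 * ‖x‖ ^ 2 -
        (k * ((d : ℝ) + 1) / ((d : ℝ) * (k + 1))) := by
  intro j
  induction j with
  | zero =>
    intro _
    obtain ⟨w, hw, hw1, hwx⟩ := weights_of_mem p x hx
    refine ⟨Finset.univ, by simp, w, fun i _ => hw i, hw1, ?_⟩
    rw [hwx, real_inner_self_eq_norm_sq]
    simp
  | succ j ih =>
    intro hj
    obtain ⟨s, hs, μ, hμ, hμ1, hineq⟩ := ih (by omega)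
    obtain ⟨m, hm⟩ : ∃ m, m = d - (j + 1) := ⟨_, rfl⟩
    have hm1 : d - j = m + 1 := by omega
    have hmk : k ≤ m := by omega
    rw [← hm]
    rw [hm1] at hs hineq
    have hk0 : (0 : ℝ) < k := by exact_mod_cast hk
    have hm0 : (0 : ℝ) < m := by
      have : 0 < m := by omega
      exact_mod_cast this
    obtain ⟨α, hα⟩ : ∃ α : ℝ, α = k * ((m : ℝ) + 1) / ((m : ℝ) * (k + 1)) := ⟨_, rfl⟩
    have hαpos : 0 < α := by rw [hα]; positivity
    have hα2 : (k * (((m + 1 : ℕ) : ℝ) + 1) / (((m + 1 : ℕ) : ℝ) * (k + 1)) : ℝ) =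
        α * (1 - 1 / ((m + 1 : ℕ) : ℝ) ^ 2) := by
      rw [hα]
      push_cast
      field_simp
      ring
    rw [hα2] at hineq
    rw [← hα]
    obtain ⟨w, hw, hw1, ⟨l, hl, hwl⟩, hle⟩ := facet p hp hball (m + 1) (by omega) s hs μ hμ hμ1 (α⁻¹ • x)
    have hcomb : comb p (s.erase l) w = comb p s w := by
      rw [comb_apply, comb_apply, ← Finset.add_sum_erase s _ hl, hwl, zero_smul, zero_add]
    have hsum : ∑ i ∈ s.erase l, w i = 1 := by
      rw [← hw1, ← Finset.add_sum_erase s _ hl, hwl, zero_add]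
    refine ⟨s.erase l, ?_, w, fun i hi => hw i (Finset.mem_of_mem_erase hi), hsum, ?_⟩
    · rw [Finset.card_erase_of_mem hl, hs]
      omega
    · rw [hcomb]
      rw [norm_sub_sq_real, norm_sub_sq_real, inner_smul_right, inner_smul_right,
        real_inner_comm x, real_inner_comm x] at hle
      have h1 : α * (‖comb p s w‖ ^ 2 - 2 * (α⁻¹ * inner ℝ x (comb p s w)) + ‖α⁻¹ • x‖ ^ 2) ≤
          α * (‖comb p s μ‖ ^ 2 - 2 * (α⁻¹ * inner ℝ x (comb p s μ)) + ‖α⁻¹ • x‖ ^ 2 +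
            (1 - ‖comb p s μ‖ ^ 2) / ((m + 1 : ℕ) : ℝ) ^ 2) := mul_le_mul_of_nonneg_left hle hαpos.le
      have h2 : ∀ r : ℝ, α * (α⁻¹ * r) = r := by
        intro r
        field_simp
      have h3 : α * ‖comb p s w‖ ^ 2 - 2 * inner ℝ x (comb p s w) ≤
          α * ‖comb p s μ‖ ^ 2 - 2 * inner ℝ x (comb p s μ) +
            α * ((1 - ‖comb p s μ‖ ^ 2) / ((m + 1 : ℕ) : ℝ) ^ 2) := by
        have e1 := h2 (inner ℝ x (comb p s w))
        have e2 := h2 (inner ℝ x (comb p s μ))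
        nlinarith [h1, e1, e2]
      have h4 : α * (1 - 1 / ((m + 1 : ℕ) : ℝ) ^ 2) * ‖comb p s μ‖ ^ 2 - 2 * inner ℝ x (comb p s μ) -
          α * (1 - 1 / ((m + 1 : ℕ) : ℝ) ^ 2) =
          α * ‖comb p s μ‖ ^ 2 - 2 * inner ℝ x (comb p s μ) +
            α * ((1 - ‖comb p s μ‖ ^ 2) / ((m + 1 : ℕ) : ℝ) ^ 2) - α := by
        ring
      linarith

/-- For a nondegenerate d-simplex with vertices in the closed unit ball, 0 ≤ k < d, and x in the simplex: if the open ball of radius ρ at x misses every k-face, then ρ ≤ sqrt((d-k)/(d(k+1))). -/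
theorem result :
    ∀ (d k : ℕ), 0 < d → k < d →
    ∀ (p : Fin (d + 1) → EuclideanSpace ℝ (Fin d)), AffineIndependent ℝ p →
    (∀ i, ‖p i‖ ≤ 1) →
    ∀ (x : EuclideanSpace ℝ (Fin d)), x ∈ convexHull ℝ (Set.range p) →
    ∀ ρ : ℝ,
      Disjoint (Metric.ball x ρ)
        (⋃ (s : Finset (Fin (d + 1))) (_ : s.card = k + 1), convexHull ℝ (p '' (s : Set (Fin (d + 1))))) →
      ρ ≤ Real.sqrt (((d : ℝ) - (k : ℝ)) / ((d : ℝ) * ((k : ℝ) + 1))) := by
  intro d k hd hk p hp hball x hx ρ hdis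
  by_cases hρ : ρ ≤ 0
  · exact hρ.trans (Real.sqrt_nonneg _)
  push Not at hρ
  apply Real.le_sqrt_of_sq_le
  have key : ∃ s : Finset (Fin (d + 1)), s.card = k + 1 ∧ ∃ y ∈ convexHull ℝ (p '' (s : Set (Fin (d + 1)))),
      ‖y - x‖ ^ 2 ≤ ((d : ℝ) - (k : ℝ)) / ((d : ℝ) * ((k : ℝ) + 1)) := by
    have hd0 : (0 : ℝ) < d := by exact_mod_cast hd
    rcases Nat.eq_zero_or_pos k with rfl | hk1
    · obtain ⟨w, hw, hw1, hwx⟩ := weights_of_mem p x hx
      have hvar := variance p Finset.univ hball w (fun i _ => hw i) hw1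
      rw [hwx] at hvar
      obtain ⟨i, hi⟩ : ∃ i, ‖p i - x‖ ^ 2 ≤ 1 := by
        by_contra hcon
        push Not at hcon
        have h1 : ∑ i, w i * 1 < ∑ i, w i * ‖p i - x‖ ^ 2 := by
          apply Finset.sum_lt_sum
          · intro i _
            exact mul_le_mul_of_nonneg_left (hcon i).le (hw i)
          · have : ∃ i, 0 < w i := by
              by_contra hc
              push Not at hc
              have : ∑ i, w i ≤ 0 := Finset.sum_nonpos (fun i _ => hc i)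
              linarith
            obtain ⟨i, hi⟩ := this
            exact ⟨i, Finset.mem_univ i, mul_lt_mul_of_pos_left (hcon i) hi⟩
        simp only [mul_one, hw1] at h1
        have h2 : 0 ≤ ‖x‖ ^ 2 := by positivity
        linarith
      refine ⟨{i}, by simp, p i, subset_convexHull ℝ _ ⟨i, by simp, rfl⟩, ?_⟩
      refine hi.trans ?_
      rw [le_div_iff₀ (by positivity)]
      simp
    · obtain ⟨s, hs, w, hw, hw1, hineq⟩ := descent p hp hball k hk1 hk x hx (d - k) le_rfl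
      have e : d - (d - k) = k := by omega
      rw [e] at hs hineq
      refine ⟨s, hs, comb p s w, mem_face p s w hw hw1, ?_⟩
      have hk0 : (0 : ℝ) < k := by exact_mod_cast hk1
      have e1 : (k * ((k : ℝ) + 1) / ((k : ℝ) * (k + 1)) : ℝ) = 1 := by field_simp
      rw [e1] at hineq
      obtain ⟨β, hβ⟩ : ∃ β : ℝ, β = k * ((d : ℝ) + 1) / ((d : ℝ) * (k + 1)) := ⟨_, rfl⟩
      rw [← hβ] at hineq
      have e2 : ((d : ℝ) - (k : ℝ)) / ((d : ℝ) * ((k : ℝ) + 1)) = 1 - β := by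
        rw [hβ]
        field_simp
        ring
      have hβ1 : 0 ≤ 1 - β := by
        rw [← e2]
        have : (k : ℝ) < d := by exact_mod_cast hk
        have : 0 ≤ (d : ℝ) - k := by linarith
        positivity
      rw [e2, norm_sub_sq_real, real_inner_comm x]
      have h2 : 0 ≤ ‖x‖ ^ 2 := by positivity
      nlinarith
  obtain ⟨s, hs, y, hy, hle⟩ := key
  refine le_trans ?_ hle
  have hyb : y ∉ Metric.ball x ρ := by
    intro hc
    exact Set.disjoint_left.1 hdis hc (Set.mem_iUnion₂.2 ⟨s, hs, hy⟩)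
  rw [Metric.mem_ball, not_lt, dist_eq_norm] at hyb
  exact pow_le_pow_left₀ hρ.le hyb 2

end Pool.Agent.S07343
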