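import Pool.Statements.S07366
-- import your own Pool.Agent.* helpers here

set_option autoImplicit false
open Pool Pool.MP_b23e6d_co

namespace Pool.Agent.S07366


/-- `(S,H,ℓ)` fits the final graph `Gf`. -/
def Fits {k : ℕ} (Gf : SimpleGraph ℕ) (S : Finset ℕ) (H : SimpleGraph ℕ) (ℓ : ℕ → Fin k) : Prop :=
  H ≤ Gf ∧ ∀ u ∈ S, ∀ v ∈ S, ℓ u = ℓ v → ∀ w, Gf.Adj u w → ¬ H.Adj u w → Gf.Adj v w

/-- A balanced cut of small diversity. -/
def Good (k : ℕ) (Gf : SimpleGraph ℕ) (W : Finset ℕ) (T : ℕ) : Prop :=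
  ∃ (S : Finset ℕ) (ℓ' : ℕ → Fin k), T ≤ (S ∩ W).card ∧ (S ∩ W).card < 2 * T ∧
    ∀ u ∈ S, ∀ v ∈ S, ℓ' u = ℓ' v → ∀ w, w ∉ S → Gf.Adj u w → Gf.Adj v w

def Supp (S : Finset ℕ) (H : SimpleGraph ℕ) : Prop := ∀ u v, H.Adj u v → u ∈ S ∧ v ∈ S

theorem cut_exists {k : ℕ} (Gf : SimpleGraph ℕ) (V W : Finset ℕ) (T : ℕ) (hT : 2 ≤ T)
    (hVW : T ≤ (V ∩ W).card) (ℓ : ℕ → Fin k)
    (hP : ∀ P : Finset ℕ → SimpleGraph ℕ → (ℕ → Fin k) → Prop,
            ((∀ ℓ₀ : ℕ → Fin k, P ∅ ⊥ ℓ₀) ∧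
             (∀ (i : ℕ) (ℓ₀ : ℕ → Fin k), P {i} ⊥ ℓ₀) ∧
             (∀ (S₁ S₂ : Finset ℕ) (H₁ H₂ : SimpleGraph ℕ) (ℓ₁ ℓ₂ : ℕ → Fin k),
                P S₁ H₁ ℓ₁ → P S₂ H₂ ℓ₂ → Disjoint S₁ S₂ →
                P (S₁ ∪ S₂) (H₁ ⊔ H₂) (fun v => if v ∈ S₁ then ℓ₁ v else ℓ₂ v)) ∧
             (∀ (S : Finset ℕ) (H : SimpleGraph ℕ) (ℓ₀ : ℕ → Fin k) (a b : Fin k),
                a ≠ b → P S H ℓ₀ →
                P S (H ⊔ SimpleGraph.fromRel
                  (fun u v => u ∈ S ∧ v ∈ S ∧ ℓ₀ u = a ∧ ℓ₀ v = b)) ℓ₀) ∧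
             (∀ (S : Finset ℕ) (H : SimpleGraph ℕ) (ℓ₀ : ℕ → Fin k) (a b : Fin k),
                P S H ℓ₀ → P S H (fun v => if ℓ₀ v = a then b else ℓ₀ v))) →
            P V Gf ℓ) : Good k Gf W T := by
  have key := hP (fun S H ℓ₀ => Supp S H ∧ (Fits Gf S H ℓ₀ → (S ∩ W).card < T ∨ Good k Gf W T)) ?_
  · rcases key.2 ⟨le_refl _, fun u _ v _ _ w h1 h2 => absurd h1 h2⟩ with h | h
    · omega
    · exact h
  · refine ⟨?_, ?_, ?_, ?_, ?_⟩
    · intro ℓ₀
      refine ⟨fun u v h => absurd h (by simp), fun _ => Or.inl ?_⟩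
      rw [Finset.empty_inter, Finset.card_empty]
      omega
    · intro i ℓ₀
      refine ⟨fun u v h => absurd h (by simp), fun _ => Or.inl ?_⟩
      have : ({i} ∩ W).card ≤ ({i} : Finset ℕ).card := Finset.card_le_card Finset.inter_subset_left
      rw [Finset.card_singleton] at this
      omega
    · rintro S₁ S₂ H₁ H₂ ℓ₁ ℓ₂ ⟨s1, p1⟩ ⟨s2, p2⟩ hdis
      have hsupp : Supp (S₁ ∪ S₂) (H₁ ⊔ H₂) := by
        intro u v h
        rcases h with h | h
        · exact ⟨Finset.mem_union_left _ (s1 u v h).1, Finset.mem_union_left _ (s1 u v h).2⟩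
        · exact ⟨Finset.mem_union_right _ (s2 u v h).1, Finset.mem_union_right _ (s2 u v h).2⟩
      refine ⟨hsupp, ?_⟩
      intro hfit
      have f1 : Fits Gf S₁ H₁ ℓ₁ := by
        refine ⟨le_trans le_sup_left hfit.1, ?_⟩
        intro u hu v hv huv w h1 h2
        refine hfit.2 u (Finset.mem_union_left _ hu) v (Finset.mem_union_left _ hv) ?_ w h1 ?_
        · simp only [hu, hv, if_true]
          exact huv
        · rintro (h | h)
          · exact h2 h
          · exact Finset.disjoint_left.mp hdis hu (s2 u w h).1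
      have f2 : Fits Gf S₂ H₂ ℓ₂ := by
        refine ⟨le_trans le_sup_right hfit.1, ?_⟩
        intro u hu v hv huv w h1 h2
        have hu1 : u ∉ S₁ := fun h => Finset.disjoint_left.mp hdis h hu
        have hv1 : v ∉ S₁ := fun h => Finset.disjoint_left.mp hdis h hv
        refine hfit.2 u (Finset.mem_union_right _ hu) v (Finset.mem_union_right _ hv) ?_ w h1 ?_
        · simp only [hu1, hv1, if_false]
          exact huv
        · rintro (h | h)
          · exact hu1 (s1 u w h).1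
          · exact h2 h
      rcases p1 f1 with c1 | g
      · rcases p2 f2 with c2 | g
        · by_cases hc : ((S₁ ∪ S₂) ∩ W).card < T
          · exact Or.inl hc
          · right
            refine ⟨S₁ ∪ S₂, fun v => if v ∈ S₁ then ℓ₁ v else ℓ₂ v, not_lt.mp hc, ?_, ?_⟩
            · rw [Finset.union_inter_distrib_right]
              have := Finset.card_union_le (S₁ ∩ W) (S₂ ∩ W)
              omega
            · intro u hu v hv huv w hw h
              exact hfit.2 u hu v hv huv w h (fun h' => hw (hsupp u w h').2)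
        · exact Or.inr g
      · exact Or.inr g
    · rintro S H ℓ₀ a b hab ⟨s1, p1⟩
      refine ⟨?_, ?_⟩
      · rintro u v (h | h)
        · exact s1 u v h
        · rw [SimpleGraph.fromRel_adj] at h
          rcases h.2 with h | h
          · exact ⟨h.1, h.2.1⟩
          · exact ⟨h.2.1, h.1⟩
      · intro hfit
        apply p1
        refine ⟨le_trans le_sup_left hfit.1, ?_⟩
        intro u hu v hv huv w h1 h2
        by_cases hE : (SimpleGraph.fromRel
                  (fun u v => u ∈ S ∧ v ∈ S ∧ ℓ₀ u = a ∧ ℓ₀ v = b)).Adj u w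
        · apply hfit.1
          right
          rw [SimpleGraph.fromRel_adj] at hE ⊢
          obtain ⟨hne, h | h⟩ := hE
          · refine ⟨?_, Or.inl ⟨hv, h.2.1, huv ▸ h.2.2.1, h.2.2.2⟩⟩
            rintro rfl
            exact hab (h.2.2.1.symm.trans (huv.trans h.2.2.2))
          · refine ⟨?_, Or.inr ⟨h.1, hv, h.2.2.1, huv ▸ h.2.2.2⟩⟩
            rintro rfl
            exact hab (h.2.2.1.symm.trans (huv.symm.trans h.2.2.2))
        · exact hfit.2 u hu v hv huv w h1 (by rintro (h | h); exacts [h2 h, hE h])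
    · rintro S H ℓ₀ a b ⟨s1, p1⟩
      refine ⟨s1, ?_⟩
      intro hfit
      apply p1
      refine ⟨hfit.1, ?_⟩
      intro u hu v hv huv w h1 h2
      refine hfit.2 u hu v hv ?_ w h1 h2
      show (if ℓ₀ u = a then b else ℓ₀ u) = (if ℓ₀ v = a then b else ℓ₀ v)
      rw [huv]

/-- The forward relation. -/
def R (N a b : ℕ) : Prop :=
  (b % (N + 1) = 0 ∧ a / (N + 1) < b / (N + 1)) ∨
    (b % (N + 1) ≠ 0 ∧ a % (N + 1) = b % (N + 1) ∧ a / (N + 1) + 1 = b / (N + 1))

/-- The infinite grid-like graph with `N` rows. -/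
def Gam (N : ℕ) : SimpleGraph ℕ where
  Adj a b := R N a b ∨ R N b a
  symm := ⟨fun a b h => h.symm⟩
  loopless := ⟨fun a h => by
    unfold R at h
    omega⟩

def Cls (n : ℕ) (G : SimpleGraph (Fin n)) : Prop := ∃ N, Nonempty (SimpleGraph.Embedding G (Gam N))

theorem no_two_conn_prime (n : ℕ) (G : SimpleGraph (Fin n)) (hG : Cls n G)
    (h2 : 3 ≤ n ∧ G.Connected ∧ ∀ v : Fin n, (G.induce {w | w ≠ v}).Connected)
    (hp : 3 ≤ n ∧ ∀ M : Set (Fin n),
              (∀ x, x ∉ M → ∀ y ∈ M, ∀ z ∈ M, (G.Adj x y ↔ G.Adj x z)) →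
              M.Subsingleton ∨ M = Set.univ) : False := by
  obtain ⟨N, ⟨f⟩⟩ := hG
  obtain ⟨hn, hc, h2⟩ := h2
  have : Nonempty (Fin n) := ⟨⟨0, by omega⟩⟩
  -- third vertices
  have third : ∀ a b : Fin n, ∃ c, c ≠ a ∧ c ≠ b := by
    intro a b
    by_contra hcon
    push Not at hcon
    have : (Finset.univ : Finset (Fin n)) ⊆ {a, b} := by
      intro c _
      by_cases hca : c = a
      · simp [hca]
      · simp [hcon c hca]
    have h1 := Finset.card_le_card this
    rw [Finset.card_univ, Fintype.card_fin] at h1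
    have h3 := Finset.card_le_two (a := a) (b := b)
    omega
  obtain ⟨v0, hv0⟩ := Finite.exists_max (fun v : Fin n => f v / (N + 1))
  by_cases hex : ∃ v : Fin n, f v / (N + 1) = f v0 / (N + 1) ∧ f v % (N + 1) ≠ 0
  · obtain ⟨v, hv1, hv2⟩ := hex
    have huniq : ∀ w : Fin n, G.Adj v w → (f w : ℕ) + (N + 1) = f v := by
      intro w hw
      have hw' := f.map_rel_iff.mpr hw
      have hmax : f w / (N + 1) ≤ f v0 / (N + 1) := hv0 w
      rcases hw' with h | h
      · rcases h with h | h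
        · omega
        · omega
      · rcases h with h | h
        · exact absurd h.1 hv2
        · have e1 := Nat.div_add_mod (f w) (N + 1)
          have e2 := Nat.div_add_mod (f v) (N + 1)
          rw [← h.2.2, h.2.1.symm] at e2
          have e3 : (N + 1) * (f w / (N + 1) + 1) = (N + 1) * (f w / (N + 1)) + (N + 1) := by ring
          omega
    -- choose w
    obtain ⟨w, hwv, hw⟩ : ∃ w, w ≠ v ∧ ∀ z, G.Adj v z → z = w := by
      by_cases hexw : ∃ w, G.Adj v w
      · obtain ⟨w, hw⟩ := hexw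
        refine ⟨w, hw.ne', ?_⟩
        intro z hz
        have h1 := huniq w hw
        have h2 := huniq z hz
        apply f.injective
        omega
      · obtain ⟨c, hc1, _⟩ := third v v
        exact ⟨c, hc1, fun z hz => absurd ⟨z, hz⟩ hexw⟩
    obtain ⟨z, hz1, hz2⟩ := third v w
    have hconn := (h2 w).preconnected
    have hnt : Nontrivial ↥{x : Fin n | x ≠ w} := ⟨⟨v, hwv.symm⟩, ⟨z, hz2⟩, fun h => hz1 (congrArg Subtype.val h).symm⟩
    obtain ⟨y, hy⟩ := hconn.exists_adj_of_nontrivial ⟨v, hwv.symm⟩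
    have hy' : G.Adj v y.1 := hy
    exact y.2 (hw _ hy')
  · push Not at hex
    have hv0z := hex v0 rfl
    have hall : ∀ w : Fin n, w ≠ v0 → G.Adj v0 w := by
      intro w hw
      apply f.map_rel_iff.mp
      right
      left
      refine ⟨hv0z, ?_⟩
      rcases lt_or_eq_of_le (hv0 w) with h | h
      · exact h
      · exfalso
        have h1 := hex w h
        apply hw
        apply f.injective
        have e1 := Nat.div_add_mod (f w) (N + 1)
        have e2 := Nat.div_add_mod (f v0) (N + 1)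
        have h' : f w / (N + 1) = f v0 / (N + 1) := h
        rw [h1, h'] at e1
        rw [hv0z] at e2
        omega
    rcases hp.2 {w | w ≠ v0} (by
      intro x hx y hy z hz
      have hx' : x = v0 := by
        by_contra h
        exact hx h
      rw [hx']
      exact ⟨fun _ => hall z hz, fun _ => hall y hy⟩) with h | h
    · obtain ⟨c, hc1, _⟩ := third v0 v0
      obtain ⟨d, hd1, hd2⟩ := third v0 c
      exact hd2 (h hd1 hc1)
    · have : v0 ∈ {w | w ≠ v0} := by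
        rw [h]
        exact Set.mem_univ v0
      exact this rfl

/-- Vertex in row `i`, column `t`. -/
def vt (N i t : ℕ) : ℕ := t * (N + 1) + i

theorem vt_div {N i t : ℕ} (hi : i ≤ N) : vt N i t / (N + 1) = t := by
  unfold vt
  rw [Nat.add_comm, Nat.add_mul_div_right _ _ (Nat.succ_pos N), Nat.div_eq_of_lt (by omega), Nat.zero_add]

theorem vt_mod {N i t : ℕ} (hi : i ≤ N) : vt N i t % (N + 1) = i := by
  unfold vt
  rw [Nat.add_comm, Nat.add_mul_mod_self_right, Nat.mod_eq_of_lt (by omega)]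

theorem no_good (k : ℕ) (Gf : SimpleGraph ℕ) (N M T : ℕ) (hN : N = 3 * k + 3) (hM : M = 2 * k + 2)
    (hT : T = k * M + 1)
    (hadj : ∀ i j s t, i ≤ N → j ≤ N → s < M → t < M →
      (Gf.Adj (vt N i s) (vt N j t) ↔ R N (vt N i s) (vt N j t) ∨ R N (vt N j t) (vt N i s)))
    (hg : Good k Gf ((Finset.Icc 1 N ×ˢ Finset.range M).image (fun p => vt N p.1 p.2)) T) : False := by
  classical
  obtain ⟨S, ℓ, hS1, hS2, hS⟩ := hg
  -- pigeonhole
  have pig : ∀ (A : Finset ℕ) (a : ℕ → ℕ), k < A.card → (∀ x ∈ A, a x ∈ S) →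
      ∃ x ∈ A, ∃ y ∈ A, x < y ∧ ∀ w, w ∉ S → (Gf.Adj (a x) w ↔ Gf.Adj (a y) w) := by
    intro A a hA ha
    obtain ⟨x, hx, y, hy, hxy, hl⟩ := Finset.exists_ne_map_eq_of_card_lt_of_maps_to
      (s := A) (t := (Finset.univ : Finset (Fin k))) (by rw [Finset.card_univ, Fintype.card_fin]; exact hA)
      (f := fun x => ℓ (a x)) (fun x _ => Finset.mem_coe.mpr (Finset.mem_univ _))
    have hboth : ∀ w, w ∉ S → (Gf.Adj (a x) w ↔ Gf.Adj (a y) w) := fun w hw =>
      ⟨hS _ (ha x hx) _ (ha y hy) hl w hw, hS _ (ha y hy) _ (ha x hx) hl.symm w hw⟩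
    rcases lt_or_gt_of_ne hxy with h | h
    · exact ⟨x, hx, y, hy, h, hboth⟩
    · exact ⟨y, hy, x, hx, h, fun w hw => (hboth w hw).symm⟩
  -- adjacency facts
  have rowadj : ∀ i s, 1 ≤ i → i ≤ N → s + 1 < M → Gf.Adj (vt N i s) (vt N i (s + 1)) := by
    intro i s h1 h2 h3
    rw [hadj i i s (s + 1) h2 h2 (by omega) h3]
    left
    right
    rw [vt_mod h2, vt_mod h2, vt_div h2, vt_div h2]
    exact ⟨by omega, rfl, rfl⟩
  have rownon : ∀ i j s t, 1 ≤ i → i ≤ N → 1 ≤ j → j ≤ N → i ≠ j → s < M → t < M →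
      ¬ Gf.Adj (vt N i s) (vt N j t) := by
    intro i j s t h1 h2 h3 h4 h5 h6 h7
    rw [hadj i j s t h2 h4 h6 h7]
    unfold R
    rw [vt_mod h2, vt_mod h4, vt_div h2, vt_div h4]
    omega
  have uadj : ∀ i s t, 1 ≤ i → i ≤ N → s < M → t < M → (Gf.Adj (vt N 0 t) (vt N i s) ↔ s < t) := by
    intro i s t h1 h2 h3 h4
    rw [hadj 0 i t s (by omega) h2 h4 h3]
    unfold R
    rw [vt_mod h2, vt_mod (Nat.zero_le N), vt_div h2, vt_div (Nat.zero_le N)]
    omega
  -- mixed rows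
  set Mix : Finset ℕ := (Finset.Icc 1 N).filter (fun i => (∃ t < M, vt N i t ∈ S) ∧ ∃ t < M, vt N i t ∉ S) with hMix
  -- crossing
  have hcross : ∀ i ∈ Mix, ∃ s t, s < M ∧ t < M ∧ vt N i s ∈ S ∧ vt N i t ∉ S ∧ Gf.Adj (vt N i s) (vt N i t) := by
    intro i hi
    rw [hMix, Finset.mem_filter, Finset.mem_Icc] at hi
    obtain ⟨⟨hi1, hi2⟩, ⟨t1, ht1, hin⟩, ⟨t2, ht2, hout⟩⟩ := hi
    by_contra hcon
    push Not at hcon
    -- membership is constant along the row
    have hconst : ∀ t, t < M → (vt N i t ∈ S ↔ vt N i 0 ∈ S) := by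
      intro t
      induction t with
      | zero => intro _; exact Iff.rfl
      | succ t ih =>
        intro ht
        rw [← ih (by omega)]
        constructor
        · intro h
          by_contra h'
          exact hcon (t + 1) t ht (by omega) h h' (rowadj i t hi1 hi2 ht).symm
        · intro h
          by_contra h'
          exact hcon t (t + 1) (by omega) ht h h' (rowadj i t hi1 hi2 ht)
    exact hout ((hconst t2 ht2).mpr ((hconst t1 ht1).mp hin))
  have hMixcard : Mix.card ≤ k := by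
    by_contra hcon
    push Not at hcon
    choose! s t hs ht hin hout hadj' using hcross
    obtain ⟨x, hx, y, hy, hxy, hiff⟩ := pig Mix (fun i => vt N i (s i)) hcon hin
    have hxI : 1 ≤ x ∧ x ≤ N := by
      rw [hMix, Finset.mem_filter, Finset.mem_Icc] at hx
      exact hx.1
    have hyI : 1 ≤ y ∧ y ≤ N := by
      rw [hMix, Finset.mem_filter, Finset.mem_Icc] at hy
      exact hy.1
    have h1 := (hiff _ (hout x hx)).mp (hadj' x hx)
    exact rownon y x _ _ hyI.1 hyI.2 hxI.1 hxI.2 (by omega) (hs y hy) (ht x hx) h1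
  set W : Finset ℕ := (Finset.Icc 1 N ×ˢ Finset.range M).image (fun p => vt N p.1 p.2) with hW
  have hvtinj : ∀ i j s t, i ≤ N → j ≤ N → vt N i s = vt N j t → i = j ∧ s = t := by
    intro i j s t hi hj h
    have h1 := congrArg (· % (N + 1)) h
    have h2 := congrArg (· / (N + 1)) h
    simp only [vt_mod hi, vt_mod hj, vt_div hi, vt_div hj] at h1 h2
    exact ⟨h1, h2⟩
  have hWcard : W.card = N * M := by
    rw [hW, Finset.card_image_of_injOn, Finset.card_product, Nat.card_Icc, Finset.card_range, Nat.add_sub_cancel]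
    rintro ⟨i, s⟩ hi ⟨j, t⟩ hj h
    rw [Finset.mem_coe, Finset.mem_product, Finset.mem_Icc] at hi hj
    obtain ⟨h1, h2⟩ := hvtinj i j s t hi.1.2 hj.1.2 h
    rw [h1, h2]
  have hsmall : ∀ X : Finset ℕ, (∀ x ∈ X, ∃ i ∈ Mix, ∃ t < M, x = vt N i t) → X.card ≤ k * M := by
    intro X hX
    have hsub : X ⊆ (Mix ×ˢ Finset.range M).image (fun p => vt N p.1 p.2) := by
      intro x hx
      obtain ⟨i, hi, t, ht, rfl⟩ := hX x hx
      rw [Finset.mem_image]
      exact ⟨(i, t), Finset.mem_product.mpr ⟨hi, Finset.mem_range.mpr ht⟩, rfl⟩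
    refine (Finset.card_le_card hsub).trans (Finset.card_image_le.trans ?_)
    rw [Finset.card_product, Finset.card_range]
    exact Nat.mul_le_mul_right M hMixcard
  -- a pure S row
  obtain ⟨p, hp1, hp2, hp⟩ : ∃ p, 1 ≤ p ∧ p ≤ N ∧ ∀ t < M, vt N p t ∈ S := by
    by_contra hcon
    push Not at hcon
    have := hsmall (S ∩ W) (by
      intro x hx
      rw [Finset.mem_inter, hW, Finset.mem_image] at hx
      obtain ⟨hxS, ⟨i, t⟩, hit, rfl⟩ := hx
      rw [Finset.mem_product, Finset.mem_Icc, Finset.mem_range] at hit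
      obtain ⟨t', ht', hout⟩ := hcon i hit.1.1 hit.1.2
      refine ⟨i, ?_, t, hit.2, rfl⟩
      rw [hMix, Finset.mem_filter, Finset.mem_Icc]
      exact ⟨hit.1, ⟨t, hit.2, hxS⟩, ⟨t', ht', hout⟩⟩)
    omega
  -- a pure complement row
  obtain ⟨q, hq1, hq2, hq⟩ : ∃ q, 1 ≤ q ∧ q ≤ N ∧ ∀ t < M, vt N q t ∉ S := by
    by_contra hcon
    push Not at hcon
    have h1 := hsmall (W \ S) (by
      intro x hx
      rw [Finset.mem_sdiff, hW, Finset.mem_image] at hx
      obtain ⟨⟨⟨i, t⟩, hit, rfl⟩, hxS⟩ := hx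
      rw [Finset.mem_product, Finset.mem_Icc, Finset.mem_range] at hit
      obtain ⟨t', ht', hin⟩ := hcon i hit.1.1 hit.1.2
      refine ⟨i, ?_, t, hit.2, rfl⟩
      rw [hMix, Finset.mem_filter, Finset.mem_Icc]
      exact ⟨hit.1, ⟨t', ht', hin⟩, ⟨t, hit.2, hxS⟩⟩)
    have h2 := Finset.card_sdiff_add_card_inter W S
    rw [Finset.inter_comm, hWcard] at h2
    subst hN hM hT
    nlinarith
  -- the apex vertices
  set A : Finset ℕ := (Finset.range M).filter (fun t => vt N 0 t ∈ S) with hA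
  set B : Finset ℕ := (Finset.range M).filter (fun t => vt N 0 t ∉ S) with hB
  have hAB : A.card + B.card = M := by
    rw [hA, hB, Finset.card_filter_add_card_filter_not, Finset.card_range]
  have hAc : A.card ≤ k := by
    by_contra hcon
    push Not at hcon
    obtain ⟨x, hx, y, hy, hxy, hiff⟩ := pig A (fun t => vt N 0 t) hcon (by
      intro x hx
      exact (Finset.mem_filter.mp hx).2)
    have hxM : x < M := Finset.mem_range.mp (Finset.mem_filter.mp hx).1
    have hyM : y < M := Finset.mem_range.mp (Finset.mem_filter.mp hy).1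
    have h1 := hiff _ (hq x hxM)
    rw [uadj q x x hq1 hq2 hxM hxM, uadj q x y hq1 hq2 hxM hyM] at h1
    omega
  have hBc : B.card ≤ k + 1 := by
    by_contra hcon
    push Not at hcon
    have hBne : B.Nonempty := Finset.card_pos.mp (by omega)
    -- remove the largest element
    have hcard : k < (B.erase (B.max' hBne)).card := by
      rw [Finset.card_erase_of_mem (B.max'_mem hBne)]
      omega
    obtain ⟨x, hx, y, hy, hxy, hiff⟩ := pig (B.erase (B.max' hBne)) (fun t => vt N p t) hcard (by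
      intro x hx
      have hxB := Finset.mem_of_mem_erase hx
      exact hp x (Finset.mem_range.mp (Finset.mem_filter.mp hxB).1))
    have hxB := Finset.mem_of_mem_erase hx
    have hyB := Finset.mem_of_mem_erase hy
    have hxM : x < M := Finset.mem_range.mp (Finset.mem_filter.mp hxB).1
    have hyM : y < M := Finset.mem_range.mp (Finset.mem_filter.mp hyB).1
    have h1 := hiff _ (Finset.mem_filter.mp hyB).2
    rw [Gf.adj_comm, uadj p x y hp1 hp2 hxM hyM, Gf.adj_comm, uadj p y y hp1 hp2 hyM hyM] at h1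
    omega
  omega

/-- The negation of the preceding statement: For every hereditary class of finite graphs: if some k bounds the clique-width (via k-label expressions) of all its 2-connected prime members, then some k bounds the clique-width of every graph in the class. -/
theorem result :
    ¬ (∀ 𝒢 : (n : ℕ) → SimpleGraph (Fin n) → Prop,
      (∀ (n m : ℕ) (G : SimpleGraph (Fin n)) (H : SimpleGraph (Fin m)),
          Nonempty (SimpleGraph.Embedding H G) → 𝒢 n G → 𝒢 m H) →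
      (∃ k : ℕ, ∀ (n : ℕ) (G : SimpleGraph (Fin n)), 𝒢 n G →
          (3 ≤ n ∧ G.Connected ∧ ∀ v : Fin n, (G.induce {w | w ≠ v}).Connected) →
          (3 ≤ n ∧ ∀ M : Set (Fin n),
              (∀ x, x ∉ M → ∀ y ∈ M, ∀ z ∈ M, (G.Adj x y ↔ G.Adj x z)) →
              M.Subsingleton ∨ M = Set.univ) →
          ∃ ℓ : ℕ → Fin k, ∀ P : Finset ℕ → SimpleGraph ℕ → (ℕ → Fin k) → Prop,
            ((∀ ℓ₀ : ℕ → Fin k, P ∅ ⊥ ℓ₀) ∧
             (∀ (i : ℕ) (ℓ₀ : ℕ → Fin k), P {i} ⊥ ℓ₀) ∧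
             (∀ (S₁ S₂ : Finset ℕ) (H₁ H₂ : SimpleGraph ℕ) (ℓ₁ ℓ₂ : ℕ → Fin k),
                P S₁ H₁ ℓ₁ → P S₂ H₂ ℓ₂ → Disjoint S₁ S₂ →
                P (S₁ ∪ S₂) (H₁ ⊔ H₂) (fun v => if v ∈ S₁ then ℓ₁ v else ℓ₂ v)) ∧
             (∀ (S : Finset ℕ) (H : SimpleGraph ℕ) (ℓ₀ : ℕ → Fin k) (a b : Fin k),
                a ≠ b → P S H ℓ₀ →
                P S (H ⊔ SimpleGraph.fromRel
                  (fun u v => u ∈ S ∧ v ∈ S ∧ ℓ₀ u = a ∧ ℓ₀ v = b)) ℓ₀) ∧
             (∀ (S : Finset ℕ) (H : SimpleGraph ℕ) (ℓ₀ : ℕ → Fin k) (a b : Fin k),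
                P S H ℓ₀ → P S H (fun v => if ℓ₀ v = a then b else ℓ₀ v))) →
            P (Finset.range n) (G.map Fin.valEmbedding) ℓ) →
      (∃ k : ℕ, ∀ (n : ℕ) (G : SimpleGraph (Fin n)), 𝒢 n G →
          ∃ ℓ : ℕ → Fin k, ∀ P : Finset ℕ → SimpleGraph ℕ → (ℕ → Fin k) → Prop,
            ((∀ ℓ₀ : ℕ → Fin k, P ∅ ⊥ ℓ₀) ∧
             (∀ (i : ℕ) (ℓ₀ : ℕ → Fin k), P {i} ⊥ ℓ₀) ∧
             (∀ (S₁ S₂ : Finset ℕ) (H₁ H₂ : SimpleGraph ℕ) (ℓ₁ ℓ₂ : ℕ → Fin k),
                P S₁ H₁ ℓ₁ → P S₂ H₂ ℓ₂ → Disjoint S₁ S₂ →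
                P (S₁ ∪ S₂) (H₁ ⊔ H₂) (fun v => if v ∈ S₁ then ℓ₁ v else ℓ₂ v)) ∧
             (∀ (S : Finset ℕ) (H : SimpleGraph ℕ) (ℓ₀ : ℕ → Fin k) (a b : Fin k),
                a ≠ b → P S H ℓ₀ →
                P S (H ⊔ SimpleGraph.fromRel
                  (fun u v => u ∈ S ∧ v ∈ S ∧ ℓ₀ u = a ∧ ℓ₀ v = b)) ℓ₀) ∧
             (∀ (S : Finset ℕ) (H : SimpleGraph ℕ) (ℓ₀ : ℕ → Fin k) (a b : Fin k),
                P S H ℓ₀ → P S H (fun v => if ℓ₀ v = a then b else ℓ₀ v))) →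
            P (Finset.range n) (G.map Fin.valEmbedding) ℓ)) := by
  intro H
  obtain ⟨k, hk⟩ := H Cls (by
    rintro n m G H ⟨e⟩ ⟨N, ⟨f⟩⟩
    exact ⟨N, ⟨f.comp e⟩⟩) ⟨1, fun n G hG h2 hp => (no_two_conn_prime n G hG h2 hp).elim⟩
  obtain ⟨N, hN⟩ : ∃ N, N = 3 * k + 3 := ⟨_, rfl⟩
  obtain ⟨M, hM⟩ : ∃ M, M = 2 * k + 2 := ⟨_, rfl⟩
  obtain ⟨T, hT⟩ : ∃ T, T = k * M + 1 := ⟨_, rfl⟩
  obtain ⟨ℓ, hℓ⟩ := hk (M * (N + 1)) ((Gam N).comap Fin.val)
    ⟨N, ⟨SimpleGraph.Embedding.comap Fin.valEmbedding (Gam N)⟩⟩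
  have hk0 : 1 ≤ k := by
    have := (ℓ 0).2
    omega
  have hadj : ∀ i j s t, i ≤ N → j ≤ N → s < M → t < M →
      (((((Gam N).comap Fin.val) : SimpleGraph (Fin (M * (N + 1)))).map Fin.valEmbedding).Adj (vt N i s) (vt N j t) ↔ R N (vt N i s) (vt N j t) ∨ R N (vt N j t) (vt N i s)) := by
    intro i j s t hi hj hs ht
    have b1 : vt N i s < M * (N + 1) := by
      unfold vt
      nlinarith
    have b2 : vt N j t < M * (N + 1) := by
      unfold vt
      nlinarith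
    rw [SimpleGraph.map_adj]
    constructor
    · rintro ⟨a, b, hab, ha, hb⟩
      rw [← ha, ← hb]
      exact hab
    · intro h
      exact ⟨⟨_, b1⟩, ⟨_, b2⟩, h, rfl, rfl⟩
  refine no_good k _ N M T hN hM hT hadj ?_
  refine cut_exists _ (Finset.range (M * (N + 1))) _ T (by rw [hT, hM]; nlinarith) ?_ ℓ hℓ
  have hsub : (Finset.Icc 1 N ×ˢ Finset.range M).image (fun p => vt N p.1 p.2) ⊆ Finset.range (M * (N + 1)) := by
    intro x hx
    rw [Finset.mem_image] at hx
    obtain ⟨⟨i, t⟩, hit, rfl⟩ := hx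
    rw [Finset.mem_product, Finset.mem_Icc, Finset.mem_range] at hit
    rw [Finset.mem_range]
    obtain ⟨⟨h1, h2⟩, h3⟩ := hit
    simp only at h1 h2 h3 ⊢
    unfold vt
    nlinarith
  rw [Finset.inter_eq_right.mpr hsub, Finset.card_image_of_injOn, Finset.card_product, Nat.card_Icc, Finset.card_range, Nat.add_sub_cancel]
  · rw [hT, hN, hM]
    nlinarith
  · rintro ⟨i, s⟩ hi ⟨j, t⟩ hj h
    rw [Finset.mem_coe, Finset.mem_product, Finset.mem_Icc] at hi hj
    have h1 := congrArg (· % (N + 1)) h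
    have h2 := congrArg (· / (N + 1)) h
    simp only [vt_mod hi.1.2, vt_mod hj.1.2, vt_div hi.1.2, vt_div hj.1.2] at h1 h2
    rw [h1, h2]

end Pool.Agent.S07366
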