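import Pool.Statements.S07400
-- import your own Pool.Agent.* helpers here

set_option autoImplicit false
open Pool Pool.MP_b4c394_co

namespace Pool.Agent.S07400


/-- First family of circuit-hyperplanes (rows: characteristic vectors). -/
def H1 : Fin 7 → Fin 12 → Bool := ![
    ![true, true, true, true, true, true, false, false, false, false, false, false],
    ![true, true, true, true, false, false, true, true, false, false, false, false],
    ![false, false, true, true, false, false, true, true, true, true, false, false],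
    ![false, false, false, false, true, true, true, true, true, true, false, false],
    ![false, false, true, true, true, true, false, false, false, false, true, true],
    ![true, true, false, false, false, false, true, true, false, false, true, true],
    ![true, true, false, false, false, false, false, false, true, true, true, true]]

/-- Second family of circuit-hyperplanes. -/
def H2 : Fin 7 → Fin 12 → Bool := ![
    ![true, true, true, true, false, false, false, false, true, true, false, false],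
    ![true, true, false, false, true, true, true, true, false, false, false, false],
    ![false, false, true, true, true, true, true, true, false, false, false, false],
    ![false, false, true, true, false, false, true, true, true, true, false, false],
    ![false, false, false, false, true, true, false, false, true, true, true, true],
    ![true, true, true, true, false, false, false, false, false, false, true, true],
    ![true, true, false, false, false, false, true, true, false, false, true, true]]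

def fd : Fin 12 → Fin 12 → Fin 12 := ![
    ![0, 1, 4, 5, 8, 9, 2, 3, 6, 7, 10, 11], ![0, 1, 4, 5, 8, 9, 2, 3, 6, 7, 10, 11],
    ![0, 1, 2, 3, 8, 9, 4, 5, 10, 11, 6, 7], ![0, 1, 2, 3, 8, 9, 4, 5, 10, 11, 6, 7],
    ![0, 1, 8, 9, 4, 5, 2, 3, 6, 7, 10, 11], ![0, 1, 8, 9, 4, 5, 2, 3, 6, 7, 10, 11],
    ![8, 9, 0, 1, 2, 3, 6, 7, 4, 5, 10, 11], ![8, 9, 0, 1, 2, 3, 6, 7, 4, 5, 10, 11],
    ![0, 1, 6, 7, 4, 5, 10, 11, 8, 9, 2, 3], ![0, 1, 6, 7, 4, 5, 10, 11, 8, 9, 2, 3],
    ![4, 5, 6, 7, 0, 1, 2, 3, 8, 9, 10, 11], ![4, 5, 6, 7, 0, 1, 2, 3, 8, 9, 10, 11]]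

def gd : Fin 12 → Fin 12 → Fin 12 := ![
    ![0, 1, 6, 7, 2, 3, 8, 9, 4, 5, 10, 11], ![0, 1, 6, 7, 2, 3, 8, 9, 4, 5, 10, 11],
    ![0, 1, 2, 3, 6, 7, 10, 11, 4, 5, 8, 9], ![0, 1, 2, 3, 6, 7, 10, 11, 4, 5, 8, 9],
    ![0, 1, 6, 7, 4, 5, 8, 9, 2, 3, 10, 11], ![0, 1, 6, 7, 4, 5, 8, 9, 2, 3, 10, 11],
    ![2, 3, 4, 5, 8, 9, 6, 7, 0, 1, 10, 11], ![2, 3, 4, 5, 8, 9, 6, 7, 0, 1, 10, 11],
    ![0, 1, 10, 11, 4, 5, 2, 3, 8, 9, 6, 7], ![0, 1, 10, 11, 4, 5, 2, 3, 8, 9, 6, 7],
    ![4, 5, 6, 7, 0, 1, 2, 3, 8, 9, 10, 11], ![4, 5, 6, 7, 0, 1, 2, 3, 8, 9, 10, 11]]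

def fc : Fin 12 → Fin 12 → Fin 12 := ![
    ![0, 1, 2, 3, 8, 9, 10, 11, 4, 5, 6, 7], ![0, 1, 2, 3, 8, 9, 10, 11, 4, 5, 6, 7],
    ![8, 9, 2, 3, 0, 1, 6, 7, 4, 5, 10, 11], ![8, 9, 2, 3, 0, 1, 6, 7, 4, 5, 10, 11],
    ![0, 1, 6, 7, 4, 5, 8, 9, 10, 11, 2, 3], ![0, 1, 6, 7, 4, 5, 8, 9, 10, 11, 2, 3],
    ![0, 1, 4, 5, 8, 9, 6, 7, 2, 3, 10, 11], ![0, 1, 4, 5, 8, 9, 6, 7, 2, 3, 10, 11],
    ![4, 5, 0, 1, 6, 7, 2, 3, 8, 9, 10, 11], ![4, 5, 0, 1, 6, 7, 2, 3, 8, 9, 10, 11],
    ![0, 1, 4, 5, 8, 9, 2, 3, 6, 7, 10, 11], ![0, 1, 4, 5, 8, 9, 2, 3, 6, 7, 10, 11]]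

def gc : Fin 12 → Fin 12 → Fin 12 := ![
    ![0, 1, 2, 3, 8, 9, 10, 11, 4, 5, 6, 7], ![0, 1, 2, 3, 8, 9, 10, 11, 4, 5, 6, 7],
    ![4, 5, 2, 3, 8, 9, 6, 7, 0, 1, 10, 11], ![4, 5, 2, 3, 8, 9, 6, 7, 0, 1, 10, 11],
    ![0, 1, 10, 11, 4, 5, 2, 3, 6, 7, 8, 9], ![0, 1, 10, 11, 4, 5, 2, 3, 6, 7, 8, 9],
    ![0, 1, 8, 9, 2, 3, 6, 7, 4, 5, 10, 11], ![0, 1, 8, 9, 2, 3, 6, 7, 4, 5, 10, 11],
    ![2, 3, 6, 7, 0, 1, 4, 5, 8, 9, 10, 11], ![2, 3, 6, 7, 0, 1, 4, 5, 8, 9, 10, 11],
    ![0, 1, 6, 7, 2, 3, 8, 9, 4, 5, 10, 11], ![0, 1, 6, 7, 2, 3, 8, 9, 4, 5, 10, 11]]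

/-- The `i`-th member of a family. -/
def Cf (F : Fin 7 → Fin 12 → Bool) (i : Fin 7) : Finset (Fin 12) := Finset.univ.filter (fun x => F i x = true)

theorem mem_Cf {F : Fin 7 → Fin 12 → Bool} {i : Fin 7} {x : Fin 12} : x ∈ Cf F i ↔ F i x = true := by
  unfold Cf
  rw [Finset.mem_filter]
  exact ⟨fun h => h.2, fun h => ⟨Finset.mem_univ _, h⟩⟩

structure Fam (F : Fin 7 → Fin 12 → Bool) : Prop where
  six : ∀ i, (Finset.univ.filter (fun x => F i x = true)).card = 6
  int : ∀ i j, i ≠ j → (Finset.univ.filter (fun x => (F i x && F j x) = true)).card ≤ 4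

theorem fam1 : Fam H1 := ⟨by decide +kernel, by decide +kernel⟩

theorem fam2 : Fam H2 := ⟨by decide +kernel, by decide +kernel⟩

/-- Independent sets of the sparse paving matroid. -/
def Ind (F : Fin 7 → Fin 12 → Bool) (I : Set (Fin 12)) : Prop :=
  I.ncard ≤ 6 ∧ ∀ i, I ≠ (Cf F i : Set (Fin 12))

/-- Sparse paving matroid with the given circuit-hyperplanes. -/
noncomputable def sp (F : Fin 7 → Fin 12 → Bool) (hF : Fam F) : Matroid (Fin 12) :=
  (IndepMatroid.ofFinite (E := Set.univ) Set.finite_univ (Ind F)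
    (by
      refine ⟨by rw [Set.ncard_empty]; omega, ?_⟩
      intro i h
      have := hF.six i
      change (Cf F i).card = 6 at this
      rw [← Set.ncard_coe_finset, ← h, Set.ncard_empty] at this
      omega)
    (by
      rintro I J ⟨h1, h2⟩ hIJ
      have hle := Set.ncard_le_ncard hIJ (Set.toFinite J)
      refine ⟨hle.trans h1, ?_⟩
      rintro i rfl
      have h6 := hF.six i
      change (Cf F i).card = 6 at h6
      rw [← Set.ncard_coe_finset] at h6
      have heq := Set.eq_of_subset_of_ncard_le hIJ (by omega) (Set.toFinite J)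
      exact h2 i heq.symm)
    (by
      rintro I J ⟨i1, i2⟩ ⟨j1, j2⟩ hlt
      by_contra hcon
      push Not at hcon
      -- every extension is in F
      have hext : ∀ e ∈ J, e ∉ I → ∃ i, insert e I = (Cf F i : Set (Fin 12)) := by
        intro e he heI
        have h := hcon e he heI
        unfold Ind at h
        push Not at h
        apply h
        rw [Set.ncard_insert_of_notMem heI (Set.toFinite I)]
        omega
      obtain ⟨e, heJ, heI⟩ := Set.exists_mem_notMem_of_ncard_lt_ncard hlt (Set.toFinite I)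
      obtain ⟨i, hCe⟩ := hext e heJ heI
      have h6 := hF.six i
      change (Cf F i).card = 6 at h6
      rw [← Set.ncard_coe_finset, ← hCe, Set.ncard_insert_of_notMem heI (Set.toFinite I)] at h6
      by_cases hsub : J ⊆ insert e I
      · have heq := Set.eq_of_subset_of_ncard_le hsub
          (by rw [Set.ncard_insert_of_notMem heI (Set.toFinite I)]; omega) (Set.toFinite _)
        exact j2 i (heq.trans hCe)
      · obtain ⟨e', he'J, he'⟩ := Set.not_subset.mp hsub
        have he'I : e' ∉ I := fun h => he' (Set.mem_insert_of_mem _ h)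
        obtain ⟨j, hDe⟩ := hext e' he'J he'I
        have hCD : i ≠ j := by
          rintro rfl
          have : e' ∈ insert e I := by
            rw [hCe, ← hDe]
            exact Set.mem_insert _ _
          exact he' this
        have h4 := hF.int i j hCD
        have hIsub : I ⊆ ((Finset.univ.filter (fun x => (F i x && F j x) = true) : Finset (Fin 12)) : Set (Fin 12)) := by
          intro x hx
          have hx1 : x ∈ (Cf F i : Set (Fin 12)) := by
            rw [← hCe]
            exact Set.mem_insert_of_mem _ hx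
          have hx2 : x ∈ (Cf F j : Set (Fin 12)) := by
            rw [← hDe]
            exact Set.mem_insert_of_mem _ hx
          rw [Finset.mem_coe, mem_Cf] at hx1 hx2
          rw [Finset.mem_coe, Finset.mem_filter, hx1, hx2]
          exact ⟨Finset.mem_univ _, rfl⟩
        have h5 := Set.ncard_le_ncard hIsub (Set.toFinite _)
        rw [Set.ncard_coe_finset] at h5
        omega)
    (by
      intro I _
      exact Set.subset_univ I)).matroid

theorem sp_E (F : Fin 7 → Fin 12 → Bool) (hF : Fam F) : (sp F hF).E = Set.univ := rfl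

theorem sp_indep (F : Fin 7 → Fin 12 → Bool) (hF : Fam F) (I : Set (Fin 12)) :
    (sp F hF).Indep I ↔ Ind F I := by
  unfold sp
  rw [IndepMatroid.matroid_Indep]
  rfl

theorem image_Cf {F G : Fin 7 → Fin 12 → Bool} {f : Fin 12 → Fin 12} (hsurj : Function.Surjective f)
    {i j : Fin 7} (h : ∀ x, G j (f x) = F i x) : f '' (Cf F i : Set (Fin 12)) = (Cf G j : Set (Fin 12)) := by
  ext y
  constructor
  · rintro ⟨x, hx, rfl⟩
    rw [Finset.mem_coe, mem_Cf] at hx ⊢
    rw [h, hx]
  · intro hy
    obtain ⟨x, rfl⟩ := hsurj y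
    refine ⟨x, ?_, rfl⟩
    rw [Finset.mem_coe, mem_Cf] at hy ⊢
    rw [← h, hy]

/-- transfer of independence along a permutation on the sets satisfying `Q`. -/
theorem transfer {F G : Fin 7 → Fin 12 → Bool} (e : Fin 12) (b : Bool) (f : Fin 12 → Fin 12)
    (hinj : Function.Injective f) (hfe : f e = e)
    (h1 : ∀ i, F i e = b → ∃ j, ∀ x, G j (f x) = F i x) (h2 : ∀ j, G j e = b → ∃ i, ∀ x, G j (f x) = F i x)
    (I : Set (Fin 12)) (hQ : e ∈ I ↔ b = true) : Ind F I ↔ Ind G (f '' I) := by
  have hsurj : Function.Surjective f := Finite.injective_iff_surjective.mp hinj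
  unfold Ind
  rw [Set.ncard_image_of_injective I hinj]
  have hb : ∀ (X : Fin 7 → Fin 12 → Bool) (i : Fin 7), (e ∈ (Cf X i : Set (Fin 12)) ↔ b = true) → X i e = b := by
    intro X i h
    rw [Finset.mem_coe, mem_Cf] at h
    cases hx : X i e
    · rw [hx] at h
      cases b
      · rfl
      · exact absurd (h.mpr rfl) (by decide)
    · rw [hx] at h
      exact (h.mp rfl).symm
  constructor
  · rintro ⟨a, c⟩
    refine ⟨a, ?_⟩
    intro j h
    have hej : G j e = b := by
      apply hb
      rw [← h, ← hQ]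
      constructor
      · rintro ⟨x, hx, hxe⟩
        have : x = e := hinj (hxe.trans hfe.symm)
        exact this ▸ hx
      · intro he
        exact ⟨e, he, hfe⟩
    obtain ⟨i, hi⟩ := h2 j hej
    apply c i
    have := image_Cf hsurj hi
    exact hinj.image_injective (h.trans this.symm)
  · rintro ⟨a, c⟩
    refine ⟨a, ?_⟩
    intro i h
    have hei : F i e = b := by
      apply hb
      rw [← h, hQ]
    obtain ⟨j, hj⟩ := h1 i hei
    apply c j
    rw [h]
    exact image_Cf hsurj hj

theorem inv_d : ∀ e x : Fin 12, gd e (fd e x) = x := by decide +kernel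
theorem inv_c : ∀ e x : Fin 12, gc e (fc e x) = x := by decide +kernel
theorem fix_d : ∀ e : Fin 12, fd e e = e := by decide +kernel
theorem fix_c : ∀ e : Fin 12, fc e e = e := by decide +kernel
theorem d1 : ∀ e : Fin 12, ∀ i, H1 i e = false → ∃ j, ∀ x, H2 j (fd e x) = H1 i x := by decide +kernel
theorem d2 : ∀ e : Fin 12, ∀ j, H2 j e = false → ∃ i, ∀ x, H2 j (fd e x) = H1 i x := by decide +kernel
theorem c1 : ∀ e : Fin 12, ∀ i, H1 i e = true → ∃ j, ∀ x, H2 j (fc e x) = H1 i x := by decide +kernel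
theorem c2 : ∀ e : Fin 12, ∀ j, H2 j e = true → ∃ i, ∀ x, H2 j (fc e x) = H1 i x := by decide +kernel

theorem deg1 : ∃ i, ∀ x, H1 i x = true → (Finset.univ.filter (fun j => H1 j x = true)).card = 4 := by
  decide +kernel
theorem deg2 : ∀ i, ∃ x, H2 i x = true ∧ (Finset.univ.filter (fun j => H2 j x = true)).card ≠ 4 := by
  decide +kernel
theorem dist1 : ∀ i j, (∀ x, H1 i x = H1 j x) → i = j := by decide +kernel

theorem bij_off {f : Fin 12 → Fin 12} (hinj : Function.Injective f) (e : Fin 12)
    (he : f e = e) : Set.BijOn f (Set.univ \ {e}) (Set.univ \ {e}) := by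
  have hsurj : Function.Surjective f := Finite.injective_iff_surjective.mp hinj
  refine ⟨?_, hinj.injOn, ?_⟩
  · rintro x ⟨_, hx⟩
    refine ⟨Set.mem_univ _, ?_⟩
    intro h
    apply hx
    rw [Set.mem_singleton_iff] at h ⊢
    apply hinj
    rw [h, he]
  · rintro y ⟨_, hy⟩
    obtain ⟨x, rfl⟩ := hsurj y
    refine ⟨x, ⟨Set.mem_univ _, ?_⟩, rfl⟩
    intro h
    apply hy
    rw [Set.mem_singleton_iff] at h ⊢
    rw [h, he]

theorem nonloop {F : Fin 7 → Fin 12 → Bool} (hF : Fam F) (e : Fin 12) : (sp F hF).Indep {e} := by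
  rw [sp_indep]
  refine ⟨by rw [Set.ncard_singleton]; omega, ?_⟩
  intro i h
  have := hF.six i
  change (Cf F i).card = 6 at this
  rw [← Set.ncard_coe_finset, ← h, Set.ncard_singleton] at this
  omega

/-- The negation of the preceding statement: Every finite matroid M with at least two elements is minor reconstructible: any matroid N on the same ground set with N\e isomorphic to M\e and N/e isomorphic to M/e for every element e is isomorphic to M. -/
theorem result :
    ¬ (∀ (α : Type) (M N : Matroid α), M.Finite → N.E = M.E → 2 ≤ M.E.ncard →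
      (∀ e ∈ M.E,
        (∃ f : α → α, Set.BijOn f (M.delete {e}).E (N.delete {e}).E ∧
          ∀ I ⊆ (M.delete {e}).E, ((M.delete {e}).Indep I ↔ (N.delete {e}).Indep (f '' I))) ∧
        (∃ f : α → α, Set.BijOn f (M.contract {e}).E (N.contract {e}).E ∧
          ∀ I ⊆ (M.contract {e}).E, ((M.contract {e}).Indep I ↔ (N.contract {e}).Indep (f '' I)))) →
      ∃ f : α → α, Set.BijOn f M.E N.E ∧ ∀ I ⊆ M.E, (M.Indep I ↔ N.Indep (f '' I))) := by
  intro H
  have injd : ∀ e, Function.Injective (fd e) := fun e => Function.LeftInverse.injective (inv_d e)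
  have injc : ∀ e, Function.Injective (fc e) := fun e => Function.LeftInverse.injective (inv_c e)
  obtain ⟨f, hf, hI⟩ := H (Fin 12) (sp H1 fam1) (sp H2 fam2) ⟨Set.finite_univ⟩ rfl
    (by
      rw [sp_E, Set.ncard_univ, Nat.card_eq_fintype_card, Fintype.card_fin]
      omega) (by
      intro e _
      refine ⟨⟨fd e, ?_, ?_⟩, ⟨fc e, ?_, ?_⟩⟩
      · rw [Matroid.delete_ground, Matroid.delete_ground, sp_E, sp_E]
        exact bij_off (injd e) e (fix_d e)
      · intro I hI
        rw [Matroid.delete_ground, sp_E] at hI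
        have heI : e ∉ I := fun h => (hI h).2 rfl
        have heI' : e ∉ fd e '' I := by
          rintro ⟨x, hx, hxe⟩
          have : x = e := injd e (hxe.trans (fix_d e).symm)
          exact heI (this ▸ hx)
        rw [Matroid.delete_indep_iff, Matroid.delete_indep_iff, sp_indep, sp_indep,
          and_iff_left (Set.disjoint_singleton_right.mpr heI),
          and_iff_left (Set.disjoint_singleton_right.mpr heI')]
        exact transfer e false (fd e) (injd e) (fix_d e) (d1 e) (d2 e) I
          ⟨fun h => absurd h heI, fun h => absurd h (by decide)⟩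
      · rw [Matroid.contract_ground, Matroid.contract_ground, sp_E, sp_E]
        exact bij_off (injc e) e (fix_c e)
      · intro I hI
        rw [Matroid.contract_ground, sp_E] at hI
        have heI : e ∉ I := fun h => (hI h).2 rfl
        have heI' : e ∉ fc e '' I := by
          rintro ⟨x, hx, hxe⟩
          have : x = e := injc e (hxe.trans (fix_c e).symm)
          exact heI (this ▸ hx)
        rw [(nonloop fam1 e).contract_indep_iff, (nonloop fam2 e).contract_indep_iff, sp_indep, sp_indep,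
          and_iff_right (Set.disjoint_singleton_right.mpr heI),
          and_iff_right (Set.disjoint_singleton_right.mpr heI')]
        have himg : fc e '' I ∪ {e} = fc e '' (I ∪ {e}) := by
          rw [Set.image_union, Set.image_singleton, fix_c e]
        rw [himg]
        exact transfer e true (fc e) (injc e) (fix_c e) (c1 e) (c2 e) (I ∪ {e})
          ⟨fun _ => rfl, fun _ => Or.inr rfl⟩)
  rw [sp_E, sp_E] at hf
  have hinj : Function.Injective f := fun x y h => hf.2.1 (Set.mem_univ x) (Set.mem_univ y) h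
  have hsurj : Function.Surjective f := Finite.injective_iff_surjective.mp hinj
  have hI' : ∀ I : Set (Fin 12), Ind H1 I ↔ Ind H2 (f '' I) := by
    intro I
    have := hI I (by rw [sp_E]; exact Set.subset_univ I)
    rw [sp_indep, sp_indep] at this
    exact this
  -- members of the families
  have key : ∀ i, ∃ j, ∀ x, H2 j (f x) = H1 i x := by
    intro i
    have h6 : (Cf H1 i).card = 6 := fam1.six i
    have hn : ¬ Ind H1 (Cf H1 i : Set (Fin 12)) := fun h => h.2 i rfl
    rw [hI'] at hn
    unfold Ind at hn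
    push Not at hn
    obtain ⟨j, hj⟩ := hn (by rw [Set.ncard_image_of_injective _ hinj, Set.ncard_coe_finset, h6])
    refine ⟨j, fun x => ?_⟩
    have h1 : f x ∈ (Cf H2 j : Set (Fin 12)) ↔ x ∈ (Cf H1 i : Set (Fin 12)) := by
      rw [← hj]
      exact hinj.mem_set_image
    rw [Finset.mem_coe, Finset.mem_coe, mem_Cf, mem_Cf] at h1
    exact Bool.eq_iff_iff.mpr h1
  choose φ hφ using key
  have hφinj : Function.Injective φ := by
    intro i i' h
    apply dist1
    intro x
    rw [← hφ i x, ← hφ i' x, h]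
  have hφsurj : Function.Surjective φ := Finite.injective_iff_surjective.mp hφinj
  have hdeg : ∀ x, (Finset.univ.filter (fun j => H1 j x = true)).card =
      (Finset.univ.filter (fun j => H2 j (f x) = true)).card := by
    intro x
    apply Finset.card_bij (fun i _ => φ i)
    · intro i hi
      rw [Finset.mem_filter] at hi ⊢
      exact ⟨Finset.mem_univ _, by rw [hφ]; exact hi.2⟩
    · intro i _ i' _ h
      exact hφinj h
    · intro j hj
      obtain ⟨i, rfl⟩ := hφsurj j
      rw [Finset.mem_filter, hφ] at hj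
      exact ⟨i, Finset.mem_filter.mpr ⟨Finset.mem_univ _, hj.2⟩, rfl⟩
  obtain ⟨i, hi⟩ := deg1
  obtain ⟨y, hy, hyd⟩ := deg2 (φ i)
  obtain ⟨x, rfl⟩ := hsurj y
  rw [hφ] at hy
  apply hyd
  rw [← hdeg, hi x hy]

end Pool.Agent.S07400
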