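import Pool.Statements.S07484

set_option autoImplicit false
open Pool Pool.MP_b98776_co

namespace Pool.Agent.S07484

abbrev E := EuclideanSpace ℝ (Fin 3)

noncomputable def pt (x y z : ℝ) : E := !₂[x, y, z]

@[simp] theorem pt0 (x y z : ℝ) : pt x y z 0 = x := rfl
@[simp] theorem pt1 (x y z : ℝ) : pt x y z 1 = y := rfl
@[simp] theorem pt2 (x y z : ℝ) : pt x y z 2 = z := rfl

noncomputable def P (i : ℕ) : E := pt i 0 0
noncomputable def Q (j : ℕ) : E := pt 0 j 1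
noncomputable def Z : E := pt 0 0 2

noncomputable def phi (t : ℝ × ℝ × ℝ × ℝ) : E →ₗ[ℝ] ℝ where
  toFun v := t.1 * v 0 + t.2.1 * v 1 + t.2.2.1 * v 2
  map_add' u v := by simp only [PiLp.add_apply]; ring
  map_smul' r v := by simp only [PiLp.smul_apply, smul_eq_mul, RingHom.id_apply]; ring

theorem phi_apply (t : ℝ × ℝ × ℝ × ℝ) (v : E) : phi t v = t.1 * v 0 + t.2.1 * v 1 + t.2.2.1 * v 2 := rfl

theorem span_eq (t : ℝ × ℝ × ℝ × ℝ) (ht : phi t ≠ 0) (a b c : E) (h : ¬ Collinear ℝ ({a, b, c} : Set E))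
    (ha : phi t a = t.2.2.2) (hb : phi t b = t.2.2.2) (hc : phi t c = t.2.2.2) :
    ((affineSpan ℝ ({a, b, c} : Set E) : AffineSubspace ℝ E) : Set E) = {x | phi t x = t.2.2.2} := by
  have hle : vectorSpan ℝ ({a, b, c} : Set E) ≤ LinearMap.ker (phi t) := by
    rw [vectorSpan_def, Submodule.span_le]
    rintro v ⟨x, hx, y, hy, rfl⟩
    have hall : ∀ x ∈ ({a, b, c} : Set E), phi t x = t.2.2.2 := by
      intro x hx
      rcases hx with rfl | rfl | rfl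
      · exact ha
      · exact hb
      · exact hc
    rw [SetLike.mem_coe, LinearMap.mem_ker]
    show phi t (x - y) = 0
    rw [map_sub, hall x hx, hall y hy, sub_self]
  have hind : AffineIndependent ℝ ![a, b, c] := by
    rw [affineIndependent_iff_not_collinear_set]
    exact h
  have hfr : Module.finrank ℝ (vectorSpan ℝ ({a, b, c} : Set E)) = 2 := by
    have h1 := hind.finrank_vectorSpan (n := 2) (by simp)
    have h2 : Set.range ![a, b, c] = ({a, b, c} : Set E) := by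
      ext x
      simp [eq_comm]
      tauto
    rwa [h2] at h1
  have hker : Module.finrank ℝ (LinearMap.ker (phi t)) ≤ 2 := by
    have h1 : LinearMap.ker (phi t) ≠ ⊤ := by
      intro h2
      exact ht (LinearMap.ker_eq_top.mp h2)
    have h2 := Submodule.finrank_lt h1
    rw [finrank_euclideanSpace, Fintype.card_fin] at h2
    omega
  have heq : vectorSpan ℝ ({a, b, c} : Set E) = LinearMap.ker (phi t) :=
    Submodule.eq_of_le_of_finrank_le hle (by omega)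
  have hmem : a ∈ affineSpan ℝ ({a, b, c} : Set E) := mem_affineSpan ℝ (by simp)
  ext x
  rw [SetLike.mem_coe, ← AffineSubspace.vsub_right_mem_direction_iff_mem hmem, direction_affineSpan, heq,
    LinearMap.mem_ker]
  show phi t (x - a) = 0 ↔ phi t x = t.2.2.2
  rw [map_sub, ha, sub_eq_zero]

theorem col_imp (a b c : E) (h : Collinear ℝ ({a, b, c} : Set E)) (p q : Fin 3) :
    (b p - a p) * (c q - a q) = (b q - a q) * (c p - a p) := by
  rw [collinear_iff_of_mem (p₀ := a) (by simp)] at h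
  obtain ⟨v, hv⟩ := h
  obtain ⟨r, hr⟩ := hv b (by simp)
  obtain ⟨s, hs⟩ := hv c (by simp)
  have e1 : ∀ p, b p - a p = r * v p := by
    intro p
    rw [hr]
    show (r • v + a) p - a p = _
    rw [PiLp.add_apply, PiLp.smul_apply, smul_eq_mul]
    ring
  have e2 : ∀ p, c p - a p = s * v p := by
    intro p
    rw [hs]
    show (s • v + a) p - a p = _
    rw [PiLp.add_apply, PiLp.smul_apply, smul_eq_mul]
    ring
  rw [e1, e1, e2, e2]
  ring

theorem ncPPQ (i j k : ℕ) (h : i ≠ j) : ¬ Collinear ℝ ({P i, P j, Q k} : Set E) := by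
  intro hc
  have := col_imp _ _ _ hc 0 2
  simp only [P, Q, pt0, pt2] at this
  apply h
  have : (j : ℝ) = i := by linarith
  exact_mod_cast this.symm

theorem ncPPZ (i j : ℕ) (h : i ≠ j) : ¬ Collinear ℝ ({P i, P j, Z} : Set E) := by
  intro hc
  have := col_imp _ _ _ hc 0 2
  simp only [P, Z, pt0, pt2] at this
  apply h
  have : (j : ℝ) = i := by linarith
  exact_mod_cast this.symm

theorem ncQQZ (i j : ℕ) (h : i ≠ j) : ¬ Collinear ℝ ({Q i, Q j, Z} : Set E) := by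
  intro hc
  have := col_imp _ _ _ hc 1 2
  simp only [Q, Z, pt1, pt2] at this
  apply h
  have : (j : ℝ) = i := by linarith
  exact_mod_cast this.symm

theorem P_inj : Function.Injective P := by
  intro i j h
  have := congrArg (fun v : E => v 0) h
  simp only [P, pt0] at this
  exact_mod_cast this

theorem P_ne_Q (i j : ℕ) : P i ≠ Q j := by
  intro h
  have := congrArg (fun v : E => v 2) h
  simp only [P, Q, pt2] at this
  norm_num at this

theorem not_coplanar (s : Set E) (i j k l : ℕ) (hij : i ≠ j) (hkl : k ≠ l) (h1 : P i ∈ s) (h2 : P j ∈ s)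
    (h3 : Q k ∈ s) (h4 : Q l ∈ s) : ¬ Coplanar ℝ s := by
  intro hc
  have hfr := hc.finrank_le_two
  have htop : vectorSpan ℝ s = ⊤ := by
    rw [eq_top_iff]
    intro v _
    have v1 : P j - P i ∈ vectorSpan ℝ s := vsub_mem_vectorSpan ℝ h2 h1
    have v2 : Q l - Q k ∈ vectorSpan ℝ s := vsub_mem_vectorSpan ℝ h4 h3
    have v3 : Q k - P i ∈ vectorSpan ℝ s := vsub_mem_vectorSpan ℝ h3 h1
    have d1 : (j : ℝ) - i ≠ 0 := by
      intro h
      apply hij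
      have : (j : ℝ) = i := by linarith
      exact_mod_cast this.symm
    have d2 : (l : ℝ) - k ≠ 0 := by
      intro h
      apply hkl
      have : (l : ℝ) = k := by linarith
      exact_mod_cast this.symm
    have : v = v 2 • (Q k - P i) + (((v 0 + i * v 2) / ((j : ℝ) - i)) • (P j - P i) +
        ((v 1 - k * v 2) / ((l : ℝ) - k)) • (Q l - Q k)) := by
      ext p
      fin_cases p
      · simp [P, Q]
        field_simp
        ring
      · simp [P, Q]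
        field_simp
        ring
      · simp [P, Q]
    rw [this]
    exact Submodule.add_mem _ (Submodule.smul_mem _ _ v3)
      (Submodule.add_mem _ (Submodule.smul_mem _ _ v1) (Submodule.smul_mem _ _ v2))
  rw [htop, finrank_top, finrank_euclideanSpace, Fintype.card_fin] at hfr
  omega

/-- The point set. -/
noncomputable def S (m : ℕ) : Finset E :=
  open Classical in (Finset.range m).image P ∪ (Finset.range m).image Q ∪ {Z}

theorem mem_S (m : ℕ) (x : E) : x ∈ S m ↔ (∃ i < m, x = P i) ∨ (∃ j < m, x = Q j) ∨ x = Z := by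
  classical
  unfold S
  simp only [Finset.mem_union, Finset.mem_image, Finset.mem_range, Finset.mem_singleton, or_assoc]
  constructor
  · rintro (⟨i, hi, rfl⟩ | ⟨i, hi, rfl⟩ | h)
    · exact Or.inl ⟨i, hi, rfl⟩
    · exact Or.inr (Or.inl ⟨i, hi, rfl⟩)
    · exact Or.inr (Or.inr h)
  · rintro (⟨i, hi, rfl⟩ | ⟨i, hi, rfl⟩ | h)
    · exact Or.inl ⟨i, hi, rfl⟩
    · exact Or.inr (Or.inl ⟨i, hi, rfl⟩)
    · exact Or.inr (Or.inr h)

theorem card_S (m : ℕ) : m ≤ (S m).card := by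
  classical
  have h : (Finset.range m).image P ⊆ S m := by
    intro x hx
    rw [mem_S]
    obtain ⟨i, hi, rfl⟩ := Finset.mem_image.mp hx
    exact Or.inl ⟨i, Finset.mem_range.mp hi, rfl⟩
  have := Finset.card_le_card h
  rwa [Finset.card_image_of_injective _ P_inj, Finset.card_range] at this

/-- Parameters of the planes. -/
noncomputable def T (m : ℕ) : Finset (ℝ × ℝ × ℝ × ℝ) :=
  open Classical in
  (Finset.range m).image (fun k : ℕ => ((0 : ℝ), (1 : ℝ), -(k : ℝ), (0 : ℝ))) ∪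
  (Finset.range m).image (fun k : ℕ => ((1 : ℝ), (0 : ℝ), (k : ℝ), (k : ℝ))) ∪
  ((Finset.Ico 1 m) ×ˢ (Finset.Ico 1 m)).image (fun p : ℕ × ℕ =>
    (2 * (p.2 : ℝ), (p.1 : ℝ), (p.1 : ℝ) * p.2, 2 * (p.1 : ℝ) * p.2))

theorem card_T (m : ℕ) : (T m).card ≤ m + m + (m - 1) * (m - 1) := by
  classical
  unfold T
  refine (Finset.card_union_le _ _).trans (Nat.add_le_add ((Finset.card_union_le _ _).trans
    (Nat.add_le_add ?_ ?_)) ?_)
  · exact Finset.card_image_le.trans (by rw [Finset.card_range])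
  · exact Finset.card_image_le.trans (by rw [Finset.card_range])
  · refine Finset.card_image_le.trans ?_
    rw [Finset.card_product, Nat.card_Ico]

theorem T_A (m k : ℕ) (hk : k < m) : ((0 : ℝ), (1 : ℝ), -(k : ℝ), (0 : ℝ)) ∈ T m := by
  classical
  unfold T
  rw [Finset.mem_union, Finset.mem_union]
  exact Or.inl (Or.inl (Finset.mem_image.mpr ⟨k, Finset.mem_range.mpr hk, rfl⟩))

theorem T_B (m k : ℕ) (hk : k < m) : ((1 : ℝ), (0 : ℝ), (k : ℝ), (k : ℝ)) ∈ T m := by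
  classical
  unfold T
  rw [Finset.mem_union, Finset.mem_union]
  exact Or.inl (Or.inr (Finset.mem_image.mpr ⟨k, Finset.mem_range.mpr hk, rfl⟩))

theorem T_C (m i j : ℕ) (hi : i < m) (hj : j < m) (hi1 : 1 ≤ i) (hj1 : 1 ≤ j) :
    (2 * (j : ℝ), (i : ℝ), (i : ℝ) * j, 2 * (i : ℝ) * j) ∈ T m := by
  classical
  unfold T
  rw [Finset.mem_union]
  exact Or.inr (Finset.mem_image.mpr ⟨(i, j), Finset.mem_product.mpr ⟨Finset.mem_Ico.mpr ⟨hi1, hi⟩,
    Finset.mem_Ico.mpr ⟨hj1, hj⟩⟩, rfl⟩)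

theorem T_ne (m : ℕ) (t : ℝ × ℝ × ℝ × ℝ) (ht : t ∈ T m) : phi t ≠ 0 := by
  classical
  unfold T at ht
  rw [Finset.mem_union, Finset.mem_union] at ht
  intro h0
  rcases ht with (ht | ht) | ht
  · obtain ⟨k, _, rfl⟩ := Finset.mem_image.mp ht
    have := congrArg (fun f : E →ₗ[ℝ] ℝ => f (pt 0 1 0)) h0
    simp [phi_apply] at this
  · obtain ⟨k, _, rfl⟩ := Finset.mem_image.mp ht
    have := congrArg (fun f : E →ₗ[ℝ] ℝ => f (pt 1 0 0)) h0
    simp [phi_apply] at this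
  · obtain ⟨⟨i, j⟩, hp, rfl⟩ := Finset.mem_image.mp ht
    rw [Finset.mem_product, Finset.mem_Ico] at hp
    have := congrArg (fun f : E →ₗ[ℝ] ℝ => f (pt 0 1 0)) h0
    simp [phi_apply] at this
    simp only at hp
    omega

def On (t : ℝ × ℝ × ℝ × ℝ) (x : E) : Prop := phi t x = t.2.2.2

theorem PQZ (m i j : ℕ) (hi : i < m) (hj : j < m) : ∃ t ∈ T m, On t (P i) ∧ On t (Q j) ∧ On t Z := by
  rcases Nat.eq_zero_or_pos i with h | h
  · subst h
    refine ⟨_, T_B m 0 hi, ?_, ?_, ?_⟩ <;> simp [On, phi_apply, P, Q, Z]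
  · rcases Nat.eq_zero_or_pos j with h' | h'
    · subst h'
      refine ⟨_, T_A m 0 hj, ?_, ?_, ?_⟩ <;> simp [On, phi_apply, P, Q, Z]
    · refine ⟨_, T_C m i j hi hj h h', ?_, ?_, ?_⟩ <;> simp [On, phi_apply, P, Q, Z] <;> ring

theorem onA_P (k i : ℕ) : On ((0 : ℝ), (1 : ℝ), -(k : ℝ), (0 : ℝ)) (P i) := by simp [On, phi_apply, P]
theorem onA_Q (k : ℕ) : On ((0 : ℝ), (1 : ℝ), -(k : ℝ), (0 : ℝ)) (Q k) := by simp [On, phi_apply, Q]
theorem onA_Z : On ((0 : ℝ), (1 : ℝ), -((0 : ℕ) : ℝ), (0 : ℝ)) Z := by simp [On, phi_apply, Z]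
theorem onB_Q (k i : ℕ) : On ((1 : ℝ), (0 : ℝ), (k : ℝ), (k : ℝ)) (Q i) := by simp [On, phi_apply, Q]
theorem onB_P (k : ℕ) : On ((1 : ℝ), (0 : ℝ), (k : ℝ), (k : ℝ)) (P k) := by simp [On, phi_apply, P]
theorem onB_Z : On ((1 : ℝ), (0 : ℝ), ((0 : ℕ) : ℝ), ((0 : ℕ) : ℝ)) Z := by simp [On, phi_apply, Z]

theorem cover (m : ℕ) (hm : 0 < m) (a b c : E) (ha : a ∈ S m) (hb : b ∈ S m) (hc : c ∈ S m) :
    ∃ t ∈ T m, On t a ∧ On t b ∧ On t c := by
  rw [mem_S] at ha hb hc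
  rcases ha with ⟨i, hi, rfl⟩ | ⟨i, hi, rfl⟩ | rfl <;> rcases hb with ⟨j, hj, rfl⟩ | ⟨j, hj, rfl⟩ | rfl <;>
    rcases hc with ⟨k, hk, rfl⟩ | ⟨k, hk, rfl⟩ | rfl
  · exact ⟨_, T_A m 0 hm, onA_P _ _, onA_P _ _, onA_P _ _⟩
  · exact ⟨_, T_A m k hk, onA_P _ _, onA_P _ _, onA_Q _⟩
  · exact ⟨_, T_A m 0 hm, onA_P _ _, onA_P _ _, onA_Z⟩
  · exact ⟨_, T_A m j hj, onA_P _ _, onA_Q _, onA_P _ _⟩
  · exact ⟨_, T_B m i hi, onB_P _, onB_Q _ _, onB_Q _ _⟩
  · obtain ⟨t, ht, h1, h2, h3⟩ := PQZ m i j hi hj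
    exact ⟨t, ht, h1, h2, h3⟩
  · exact ⟨_, T_A m 0 hm, onA_P _ _, onA_Z, onA_P _ _⟩
  · obtain ⟨t, ht, h1, h2, h3⟩ := PQZ m i k hi hk
    exact ⟨t, ht, h1, h3, h2⟩
  · exact ⟨_, T_A m 0 hm, onA_P _ _, onA_Z, onA_Z⟩
  · exact ⟨_, T_A m i hi, onA_Q _, onA_P _ _, onA_P _ _⟩
  · exact ⟨_, T_B m j hj, onB_Q _ _, onB_P _, onB_Q _ _⟩
  · obtain ⟨t, ht, h1, h2, h3⟩ := PQZ m j i hj hi
    exact ⟨t, ht, h2, h1, h3⟩
  · exact ⟨_, T_B m k hk, onB_Q _ _, onB_Q _ _, onB_P _⟩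
  · exact ⟨_, T_B m 0 hm, onB_Q _ _, onB_Q _ _, onB_Q _ _⟩
  · exact ⟨_, T_B m 0 hm, onB_Q _ _, onB_Q _ _, onB_Z⟩
  · obtain ⟨t, ht, h1, h2, h3⟩ := PQZ m k i hk hi
    exact ⟨t, ht, h2, h3, h1⟩
  · exact ⟨_, T_B m 0 hm, onB_Q _ _, onB_Z, onB_Q _ _⟩
  · exact ⟨_, T_B m 0 hm, onB_Q _ _, onB_Z, onB_Z⟩
  · exact ⟨_, T_A m 0 hm, onA_Z, onA_P _ _, onA_P _ _⟩
  · obtain ⟨t, ht, h1, h2, h3⟩ := PQZ m j k hj hk
    exact ⟨t, ht, h3, h1, h2⟩
  · exact ⟨_, T_A m 0 hm, onA_Z, onA_P _ _, onA_Z⟩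
  · obtain ⟨t, ht, h1, h2, h3⟩ := PQZ m k j hk hj
    exact ⟨t, ht, h3, h2, h1⟩
  · exact ⟨_, T_B m 0 hm, onB_Z, onB_Q _ _, onB_Q _ _⟩
  · exact ⟨_, T_B m 0 hm, onB_Z, onB_Q _ _, onB_Z⟩
  · exact ⟨_, T_A m 0 hm, onA_Z, onA_Z, onA_P _ _⟩
  · exact ⟨_, T_B m 0 hm, onB_Z, onB_Z, onB_Q _ _⟩
  · exact ⟨_, T_A m 0 hm, onA_Z, onA_Z, onA_Z⟩

theorem planes_le (m : ℕ) (hm : 0 < m) :
    {R : AffineSubspace ℝ (EuclideanSpace ℝ (Fin 3)) |
          ∃ a ∈ S m, ∃ b ∈ S m, ∃ c ∈ S m,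
            ¬ Collinear ℝ ({a, b, c} : Set (EuclideanSpace ℝ (Fin 3))) ∧
            R = affineSpan ℝ ({a, b, c} : Set (EuclideanSpace ℝ (Fin 3)))}.ncard ≤ m + m + (m - 1) * (m - 1) := by
  classical
  refine le_trans ?_ (card_T m)
  rw [← Set.ncard_image_of_injective _ (SetLike.coe_injective (A := AffineSubspace ℝ E) (B := E))]
  have hsub : ((fun R : AffineSubspace ℝ E => (R : Set E)) '' {R : AffineSubspace ℝ (EuclideanSpace ℝ (Fin 3)) |
          ∃ a ∈ S m, ∃ b ∈ S m, ∃ c ∈ S m,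
            ¬ Collinear ℝ ({a, b, c} : Set (EuclideanSpace ℝ (Fin 3))) ∧
            R = affineSpan ℝ ({a, b, c} : Set (EuclideanSpace ℝ (Fin 3)))}) ⊆
      (((T m).image (fun t => {x | phi t x = t.2.2.2}) : Finset (Set E)) : Set (Set E)) := by
    rintro _ ⟨R, ⟨a, ha, b, hb, c, hc, hnc, rfl⟩, rfl⟩
    obtain ⟨t, ht, h1, h2, h3⟩ := cover m hm a b c ha hb hc
    rw [Finset.mem_coe, Finset.mem_image]
    exact ⟨t, ht, (span_eq t (T_ne m t ht) a b c hnc h1 h2 h3).symm⟩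
  refine le_trans (Set.ncard_le_ncard hsub (Finset.finite_toSet _)) ?_
  rw [Set.ncard_coe_finset]
  exact Finset.card_image_le

theorem mem_line (a b x : E) (h : x ∈ affineSpan ℝ ({a, b} : Set E)) :
    ∃ r : ℝ, ∀ p, x p = a p + r * (b p - a p) := by
  rw [_root_.mem_affineSpan_pair_iff_exists_lineMap_eq] at h
  obtain ⟨r, hr⟩ := h
  refine ⟨r, fun p => ?_⟩
  rw [← hr, AffineMap.lineMap_apply]
  show (r • (b - a) + a) p = _
  rw [PiLp.add_apply, PiLp.smul_apply, PiLp.sub_apply, smul_eq_mul]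
  ring

theorem P_on_PQ (i j k : ℕ) (h : P k ∈ affineSpan ℝ ({P i, Q j} : Set E)) : k = i := by
  obtain ⟨r, hr⟩ := mem_line _ _ _ h
  have h2 := hr 2
  have h0 := hr 0
  simp only [P, Q, pt0, pt2] at h0 h2
  have hr0 : r = 0 := by linarith
  rw [hr0] at h0
  have : (k : ℝ) = i := by linarith
  exact_mod_cast this

theorem Q_on_PQ (i j k : ℕ) (h : Q k ∈ affineSpan ℝ ({P i, Q j} : Set E)) : k = j := by
  obtain ⟨r, hr⟩ := mem_line _ _ _ h
  have h2 := hr 2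
  have h1 := hr 1
  simp only [P, Q, pt1, pt2] at h1 h2
  have hr0 : r = 1 := by linarith
  rw [hr0] at h1
  have : (k : ℝ) = j := by linarith
  exact_mod_cast this

theorem Q_not_PP (i j k : ℕ) : Q k ∉ affineSpan ℝ ({P i, P j} : Set E) := by
  intro h
  obtain ⟨r, hr⟩ := mem_line _ _ _ h
  have h2 := hr 2
  simp only [P, Q, pt2] at h2
  linarith

/-- Many lines. -/
noncomputable def ln (m : ℕ) : (Fin m × Fin m) ⊕ Bool → AffineSubspace ℝ E
  | Sum.inl p => affineSpan ℝ ({P p.1, Q p.2} : Set E)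
  | Sum.inr true => affineSpan ℝ ({P 0, P 1} : Set E)
  | Sum.inr false => affineSpan ℝ ({Q 0, Q 1} : Set E)

theorem memL (a b : E) : a ∈ affineSpan ℝ ({a, b} : Set E) := mem_affineSpan ℝ (by simp)
theorem memR (a b : E) : b ∈ affineSpan ℝ ({a, b} : Set E) := mem_affineSpan ℝ (by simp)

theorem ln_inj (m : ℕ) : Function.Injective (ln m) := by
  rintro (⟨i, j⟩ | (_ | _)) (⟨i', j'⟩ | (_ | _)) h
  · have h : affineSpan ℝ ({P i, Q j} : Set E) = affineSpan ℝ ({P i', Q j'} : Set E) := h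
    have h1 : P i ∈ affineSpan ℝ ({P i', Q j'} : Set E) := h ▸ memL _ _
    have h2 : Q j ∈ affineSpan ℝ ({P i', Q j'} : Set E) := h ▸ memR _ _
    have e1 := P_on_PQ _ _ _ h1
    have e2 := Q_on_PQ _ _ _ h2
    rw [Fin.ext e1, Fin.ext e2]
  · exfalso
    have h : affineSpan ℝ ({P i, Q j} : Set E) = affineSpan ℝ ({Q 0, Q 1} : Set E) := h
    have h1 : Q 0 ∈ affineSpan ℝ ({P i, Q j} : Set E) := h ▸ memL _ _
    have h2 : Q 1 ∈ affineSpan ℝ ({P i, Q j} : Set E) := h ▸ memR _ _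
    have e1 := Q_on_PQ _ _ _ h1
    have e2 := Q_on_PQ _ _ _ h2
    omega
  · exfalso
    have h : affineSpan ℝ ({P i, Q j} : Set E) = affineSpan ℝ ({P 0, P 1} : Set E) := h
    have h1 : P 0 ∈ affineSpan ℝ ({P i, Q j} : Set E) := h ▸ memL _ _
    have h2 : P 1 ∈ affineSpan ℝ ({P i, Q j} : Set E) := h ▸ memR _ _
    have e1 := P_on_PQ _ _ _ h1
    have e2 := P_on_PQ _ _ _ h2
    omega
  · exfalso
    have h : affineSpan ℝ ({Q 0, Q 1} : Set E) = affineSpan ℝ ({P i', Q j'} : Set E) := h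
    have h1 : Q 0 ∈ affineSpan ℝ ({P i', Q j'} : Set E) := h ▸ memL _ _
    have h2 : Q 1 ∈ affineSpan ℝ ({P i', Q j'} : Set E) := h ▸ memR _ _
    have e1 := Q_on_PQ _ _ _ h1
    have e2 := Q_on_PQ _ _ _ h2
    omega
  · rfl
  · exfalso
    have h : affineSpan ℝ ({Q 0, Q 1} : Set E) = affineSpan ℝ ({P 0, P 1} : Set E) := h
    have h1 : Q 0 ∈ affineSpan ℝ ({P 0, P 1} : Set E) := h ▸ memL _ _
    exact Q_not_PP _ _ _ h1
  · exfalso
    have h : affineSpan ℝ ({P 0, P 1} : Set E) = affineSpan ℝ ({P i', Q j'} : Set E) := h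
    have h1 : P 0 ∈ affineSpan ℝ ({P i', Q j'} : Set E) := h ▸ memL _ _
    have h2 : P 1 ∈ affineSpan ℝ ({P i', Q j'} : Set E) := h ▸ memR _ _
    have e1 := P_on_PQ _ _ _ h1
    have e2 := P_on_PQ _ _ _ h2
    omega
  · exfalso
    have h : affineSpan ℝ ({P 0, P 1} : Set E) = affineSpan ℝ ({Q 0, Q 1} : Set E) := h
    have h1 : Q 0 ∈ affineSpan ℝ ({P 0, P 1} : Set E) := h.symm ▸ memL _ _
    exact Q_not_PP _ _ _ h1
  · rfl

theorem Q_inj : Function.Injective Q := by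
  intro i j h
  have := congrArg (fun v : E => v 1) h
  simp only [Q, pt1] at this
  exact_mod_cast this

theorem lines_ge (m : ℕ) (hm : 2 ≤ m) : m * m + 2 ≤
    {L : AffineSubspace ℝ (EuclideanSpace ℝ (Fin 3)) |
          ∃ a ∈ S m, ∃ b ∈ S m, a ≠ b ∧
            L = affineSpan ℝ ({a, b} : Set (EuclideanSpace ℝ (Fin 3)))}.ncard := by
  classical
  have hfin : {L : AffineSubspace ℝ (EuclideanSpace ℝ (Fin 3)) |
          ∃ a ∈ S m, ∃ b ∈ S m, a ≠ b ∧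
            L = affineSpan ℝ ({a, b} : Set (EuclideanSpace ℝ (Fin 3)))}.Finite := by
    apply Set.Finite.subset (Finset.finite_toSet ((S m ×ˢ S m).image
      (fun p => affineSpan ℝ ({p.1, p.2} : Set (EuclideanSpace ℝ (Fin 3))))))
    rintro L ⟨a, ha, b, hb, _, rfl⟩
    rw [Finset.mem_coe, Finset.mem_image]
    exact ⟨(a, b), Finset.mem_product.mpr ⟨ha, hb⟩, rfl⟩
  have hsub : Set.range (ln m) ⊆ {L : AffineSubspace ℝ (EuclideanSpace ℝ (Fin 3)) |
          ∃ a ∈ S m, ∃ b ∈ S m, a ≠ b ∧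
            L = affineSpan ℝ ({a, b} : Set (EuclideanSpace ℝ (Fin 3)))} := by
    rintro _ ⟨(⟨i, j⟩ | (_ | _)), rfl⟩
    · exact ⟨P i, (mem_S _ _).mpr (Or.inl ⟨i, i.isLt, rfl⟩), Q j, (mem_S _ _).mpr (Or.inr (Or.inl ⟨j, j.isLt, rfl⟩)),
        P_ne_Q _ _, rfl⟩
    · exact ⟨Q 0, (mem_S _ _).mpr (Or.inr (Or.inl ⟨0, by omega, rfl⟩)), Q 1,
        (mem_S _ _).mpr (Or.inr (Or.inl ⟨1, by omega, rfl⟩)), fun h => absurd (Q_inj h) (by omega), rfl⟩
    · exact ⟨P 0, (mem_S _ _).mpr (Or.inl ⟨0, by omega, rfl⟩), P 1,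
        (mem_S _ _).mpr (Or.inl ⟨1, by omega, rfl⟩), fun h => absurd (P_inj h) (by omega), rfl⟩
  have h1 := Set.ncard_le_ncard hsub hfin
  have h2 : (Set.range (ln m)).ncard = m * m + 2 := by
    rw [← Set.image_univ, Set.ncard_image_of_injective _ (ln_inj m), Set.ncard_univ, Nat.card_eq_fintype_card]
    simp
  rw [h2] at h1
  exact h1

theorem two_P (m : ℕ) (hm : 3 ≤ m) (x : E) : ∃ i < m, ∃ j < m, i ≠ j ∧ P i ≠ x ∧ P j ≠ x := by
  by_cases h0 : P 0 = x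
  · exact ⟨1, by omega, 2, by omega, by omega, fun h => absurd (P_inj (h.trans h0.symm)) (by omega),
      fun h => absurd (P_inj (h.trans h0.symm)) (by omega)⟩
  · by_cases h1 : P 1 = x
    · exact ⟨0, by omega, 2, by omega, by omega, h0, fun h => absurd (P_inj (h.trans h1.symm)) (by omega)⟩
    · exact ⟨0, by omega, 1, by omega, by omega, h0, h1⟩

theorem two_Q (m : ℕ) (hm : 3 ≤ m) (x : E) : ∃ i < m, ∃ j < m, i ≠ j ∧ Q i ≠ x ∧ Q j ≠ x := by
  by_cases h0 : Q 0 = x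
  · exact ⟨1, by omega, 2, by omega, by omega, fun h => absurd (Q_inj (h.trans h0.symm)) (by omega),
      fun h => absurd (Q_inj (h.trans h0.symm)) (by omega)⟩
  · by_cases h1 : Q 1 = x
    · exact ⟨0, by omega, 2, by omega, by omega, h0, fun h => absurd (Q_inj (h.trans h1.symm)) (by omega)⟩
    · exact ⟨0, by omega, 1, by omega, by omega, h0, h1⟩

/-- Pigeonhole: among three members of a union of two sets two lie in the same one. -/
theorem pig (f : ℕ → E) (A B : Set E) (h : ∀ i < 3, f i ∈ A ∪ B) :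
    ∃ i < 3, ∃ j < 3, i ≠ j ∧ ((f i ∈ A ∧ f j ∈ A) ∨ (f i ∈ B ∧ f j ∈ B)) := by
  have h0 := h 0 (by omega)
  have h1 := h 1 (by omega)
  have h2 := h 2 (by omega)
  rcases h0 with h0 | h0 <;> rcases h1 with h1 | h1 <;> rcases h2 with h2 | h2
  · exact ⟨0, by omega, 1, by omega, by omega, Or.inl ⟨h0, h1⟩⟩
  · exact ⟨0, by omega, 1, by omega, by omega, Or.inl ⟨h0, h1⟩⟩
  · exact ⟨0, by omega, 2, by omega, by omega, Or.inl ⟨h0, h2⟩⟩
  · exact ⟨1, by omega, 2, by omega, by omega, Or.inr ⟨h1, h2⟩⟩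
  · exact ⟨1, by omega, 2, by omega, by omega, Or.inl ⟨h1, h2⟩⟩
  · exact ⟨0, by omega, 2, by omega, by omega, Or.inr ⟨h0, h2⟩⟩
  · exact ⟨0, by omega, 1, by omega, by omega, Or.inr ⟨h0, h1⟩⟩
  · exact ⟨0, by omega, 1, by omega, by omega, Or.inr ⟨h0, h1⟩⟩

theorem not_two_lines (m : ℕ) (hm : 3 ≤ m) (a b c d : E)
    (h : (S m : Set E) ⊆ (affineSpan ℝ ({a, b} : Set E) : Set E) ∪ (affineSpan ℝ ({c, d} : Set E) : Set E)) :
    False := by
  obtain ⟨i, hi, j, hj, hij, h1⟩ := pig P _ _ (fun i hi => h ((mem_S m _).mpr (Or.inl ⟨i, by omega, rfl⟩)))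
  obtain ⟨k, hk, l, hl, hkl, h2⟩ := pig Q _ _ (fun i hi => h ((mem_S m _).mpr (Or.inr (Or.inl ⟨i, by omega, rfl⟩))))
  have h3 := h ((mem_S m Z).mpr (Or.inr (Or.inr rfl)))
  rcases h1 with ⟨h1, h1'⟩ | ⟨h1, h1'⟩ <;> rcases h2 with ⟨h2, h2'⟩ | ⟨h2, h2'⟩
  · exact ncPPQ i j k hij (collinear_triple_of_mem_affineSpan_pair h1 h1' h2)
  · rcases h3 with h3 | h3
    · exact ncPPZ i j hij (collinear_triple_of_mem_affineSpan_pair h1 h1' h3)
    · exact ncQQZ k l hkl (collinear_triple_of_mem_affineSpan_pair h2 h2' h3)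
  · rcases h3 with h3 | h3
    · exact ncQQZ k l hkl (collinear_triple_of_mem_affineSpan_pair h2 h2' h3)
    · exact ncPPZ i j hij (collinear_triple_of_mem_affineSpan_pair h1 h1' h3)
  · exact ncPPQ i j k hij (collinear_triple_of_mem_affineSpan_pair h1 h1' h2)

/-- The negation of the preceding statement: There is N such that for every set of at least N points in 3-space that is not coplanar, does not lie on two lines, and does not become coplanar after removing one point, the number of planes it spans is at least the number of lines it spans. -/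
theorem result :
    ¬ (∃ N : ℕ, ∀ S : Finset (EuclideanSpace ℝ (Fin 3)),
      N ≤ S.card →
      ¬ Coplanar ℝ (S : Set (EuclideanSpace ℝ (Fin 3))) →
      ¬ (∃ a b c d : EuclideanSpace ℝ (Fin 3),
          (S : Set (EuclideanSpace ℝ (Fin 3))) ⊆
            (affineSpan ℝ ({a, b} : Set (EuclideanSpace ℝ (Fin 3))) : Set (EuclideanSpace ℝ (Fin 3))) ∪
            (affineSpan ℝ ({c, d} : Set (EuclideanSpace ℝ (Fin 3))) : Set (EuclideanSpace ℝ (Fin 3)))) →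
      ¬ (∃ x ∈ S, Coplanar ℝ ((S.erase x : Finset (EuclideanSpace ℝ (Fin 3))) : Set (EuclideanSpace ℝ (Fin 3)))) →
      {L : AffineSubspace ℝ (EuclideanSpace ℝ (Fin 3)) |
          ∃ a ∈ S, ∃ b ∈ S, a ≠ b ∧
            L = affineSpan ℝ ({a, b} : Set (EuclideanSpace ℝ (Fin 3)))}.ncard ≤
      {P : AffineSubspace ℝ (EuclideanSpace ℝ (Fin 3)) |
          ∃ a ∈ S, ∃ b ∈ S, ∃ c ∈ S,
            ¬ Collinear ℝ ({a, b, c} : Set (EuclideanSpace ℝ (Fin 3))) ∧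
            P = affineSpan ℝ ({a, b, c} : Set (EuclideanSpace ℝ (Fin 3)))}.ncard) := by
  rintro ⟨N, hN⟩
  have key := hN (S (N + 3)) (le_trans (by omega) (card_S (N + 3))) ?_ ?_ ?_
  · have h1 := lines_ge (N + 3) (by omega)
    have h2 := planes_le (N + 3) (by omega)
    have h3 := h1.trans (key.trans h2)
    have h4 : N + 3 - 1 = N + 2 := by omega
    rw [h4] at h3
    nlinarith
  · refine not_coplanar _ 0 1 0 1 (by omega) (by omega) ?_ ?_ ?_ ?_
    · exact (mem_S _ _).mpr (Or.inl ⟨0, by omega, rfl⟩)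
    · exact (mem_S _ _).mpr (Or.inl ⟨1, by omega, rfl⟩)
    · exact (mem_S _ _).mpr (Or.inr (Or.inl ⟨0, by omega, rfl⟩))
    · exact (mem_S _ _).mpr (Or.inr (Or.inl ⟨1, by omega, rfl⟩))
  · rintro ⟨a, b, c, d, h⟩
    exact not_two_lines (N + 3) (by omega) a b c d h
  · rintro ⟨x, _, hx⟩
    obtain ⟨i, hi, j, hj, hij, hi', hj'⟩ := two_P (N + 3) (by omega) x
    obtain ⟨k, hk, l, hl, hkl, hk', hl'⟩ := two_Q (N + 3) (by omega) x
    refine not_coplanar _ i j k l hij hkl ?_ ?_ ?_ ?_ hx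
    · exact Finset.mem_coe.mpr (Finset.mem_erase.mpr ⟨hi', (mem_S _ _).mpr (Or.inl ⟨i, hi, rfl⟩)⟩)
    · exact Finset.mem_coe.mpr (Finset.mem_erase.mpr ⟨hj', (mem_S _ _).mpr (Or.inl ⟨j, hj, rfl⟩)⟩)
    · exact Finset.mem_coe.mpr (Finset.mem_erase.mpr ⟨hk', (mem_S _ _).mpr (Or.inr (Or.inl ⟨k, hk, rfl⟩))⟩)
    · exact Finset.mem_coe.mpr (Finset.mem_erase.mpr ⟨hl', (mem_S _ _).mpr (Or.inr (Or.inl ⟨l, hl, rfl⟩))⟩)

end Pool.Agent.S07484
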