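import Pool.Statements.S07540
-- import your own Pool.Agent.* helpers here

set_option autoImplicit false
open Pool Pool.MP_bc372c_co

namespace Pool.Agent.S07540

/-- Conjunction of the two values of a Boolean predicate. -/
def allB (f : Bool → Bool) : Bool := f true && f false

theorem allB_spec {f : Bool → Bool} (h : allB f = true) (b : Bool) : f b = true := by
  unfold allB at h
  rw [Bool.and_eq_true] at h
  cases b
  · exact h.2
  · exact h.1

/-- Every tournament on six vertices splits into two non-cyclic triples (Boolean form). -/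
def sixB : Bool :=
  allB fun b01 => allB fun b02 => allB fun b03 => allB fun b04 => allB fun b05 => allB fun b12 => allB fun b13 => allB fun b14 => allB fun b15 => allB fun b23 => allB fun b24 => allB fun b25 => allB fun b34 => allB fun b35 => allB fun b45 => 
    (!((b01 && b12 && !b02) || (!b01 && !b12 && b02)) && !((b34 && b45 && !b35) || (!b34 && !b45 && b35))) ||
    (!((b01 && b13 && !b03) || (!b01 && !b13 && b03)) && !((b24 && b45 && !b25) || (!b24 && !b45 && b25))) ||
    (!((b01 && b14 && !b04) || (!b01 && !b14 && b04)) && !((b23 && b35 && !b25) || (!b23 && !b35 && b25))) ||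
    (!((b01 && b15 && !b05) || (!b01 && !b15 && b05)) && !((b23 && b34 && !b24) || (!b23 && !b34 && b24))) ||
    (!((b02 && b23 && !b03) || (!b02 && !b23 && b03)) && !((b14 && b45 && !b15) || (!b14 && !b45 && b15))) ||
    (!((b02 && b24 && !b04) || (!b02 && !b24 && b04)) && !((b13 && b35 && !b15) || (!b13 && !b35 && b15))) ||
    (!((b02 && b25 && !b05) || (!b02 && !b25 && b05)) && !((b13 && b34 && !b14) || (!b13 && !b34 && b14))) ||
    (!((b03 && b34 && !b04) || (!b03 && !b34 && b04)) && !((b12 && b25 && !b15) || (!b12 && !b25 && b15))) ||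
    (!((b03 && b35 && !b05) || (!b03 && !b35 && b05)) && !((b12 && b24 && !b14) || (!b12 && !b24 && b14))) ||
    (!((b04 && b45 && !b05) || (!b04 && !b45 && b05)) && !((b12 && b23 && !b13) || (!b12 && !b23 && b13)))

theorem sixB_true : sixB = true := by decide +kernel

theorem six (b01 b02 b03 b04 b05 b12 b13 b14 b15 b23 b24 b25 b34 b35 b45 : Bool) :
    ((!((b01 && b12 && !b02) || (!b01 && !b12 && b02)) && !((b34 && b45 && !b35) || (!b34 && !b45 && b35))) ||
    (!((b01 && b13 && !b03) || (!b01 && !b13 && b03)) && !((b24 && b45 && !b25) || (!b24 && !b45 && b25))) ||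
    (!((b01 && b14 && !b04) || (!b01 && !b14 && b04)) && !((b23 && b35 && !b25) || (!b23 && !b35 && b25))) ||
    (!((b01 && b15 && !b05) || (!b01 && !b15 && b05)) && !((b23 && b34 && !b24) || (!b23 && !b34 && b24))) ||
    (!((b02 && b23 && !b03) || (!b02 && !b23 && b03)) && !((b14 && b45 && !b15) || (!b14 && !b45 && b15))) ||
    (!((b02 && b24 && !b04) || (!b02 && !b24 && b04)) && !((b13 && b35 && !b15) || (!b13 && !b35 && b15))) ||
    (!((b02 && b25 && !b05) || (!b02 && !b25 && b05)) && !((b13 && b34 && !b14) || (!b13 && !b34 && b14))) ||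
    (!((b03 && b34 && !b04) || (!b03 && !b34 && b04)) && !((b12 && b25 && !b15) || (!b12 && !b25 && b15))) ||
    (!((b03 && b35 && !b05) || (!b03 && !b35 && b05)) && !((b12 && b24 && !b14) || (!b12 && !b24 && b14))) ||
    (!((b04 && b45 && !b05) || (!b04 && !b45 && b05)) && !((b12 && b23 && !b13) || (!b12 && !b23 && b13)))) = true :=
  allB_spec (allB_spec (allB_spec (allB_spec (allB_spec (allB_spec (allB_spec (allB_spec (allB_spec (allB_spec (allB_spec (allB_spec (allB_spec (allB_spec (allB_spec (sixB_true) b01) b02) b03) b04) b05) b12) b13) b14) b15) b23) b24) b25) b34) b35) b45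

section
variable (t : Fin 6 → Fin 6 → Prop) (hirr : ∀ u, ¬ t u u) (hasy : ∀ u v, t u v → ¬ t v u)
  (htot : ∀ u v, u ≠ v → t u v ∨ t v u)

include hirr hasy in
theorem tri (x y z : Fin 6) (h1 : ¬ (t x y ∧ t y z ∧ t z x)) (h2 : ¬ (t x z ∧ t z y ∧ t y x))
    (a b d : Fin 6) (ha : a = x ∨ a = y ∨ a = z) (hb : b = x ∨ b = y ∨ b = z) (hd : d = x ∨ d = y ∨ d = z) :
    ¬ (t a b ∧ t b d ∧ t d a) := by
  rintro ⟨p, q, r⟩
  rcases ha with rfl | rfl | rfl <;> rcases hb with rfl | rfl | rfl <;> rcases hd with rfl | rfl | rfl <;>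
    first
      | exact hirr _ p
      | exact hirr _ q
      | exact hirr _ r
      | exact h1 ⟨p, q, r⟩
      | exact h1 ⟨q, r, p⟩
      | exact h1 ⟨r, p, q⟩
      | exact h2 ⟨p, q, r⟩
      | exact h2 ⟨q, r, p⟩
      | exact h2 ⟨r, p, q⟩

include hirr hasy in
theorem split (c : Fin 6 → Fin 2) (x y z u v w : Fin 6)
    (hcov : ∀ a b d : Fin 6, c a = c b → c b = c d →
      ((a = x ∨ a = y ∨ a = z) ∧ (b = x ∨ b = y ∨ b = z) ∧ (d = x ∨ d = y ∨ d = z)) ∨
      ((a = u ∨ a = v ∨ a = w) ∧ (b = u ∨ b = v ∨ b = w) ∧ (d = u ∨ d = v ∨ d = w)))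
    (h1 : ¬ (t x y ∧ t y z ∧ t z x)) (h2 : ¬ (t x z ∧ t z y ∧ t y x))
    (h3 : ¬ (t u v ∧ t v w ∧ t w u)) (h4 : ¬ (t u w ∧ t w v ∧ t v u)) :
    ∀ a b d : Fin 6, c a = c b → c b = c d → ¬ (t a b ∧ t b d ∧ t d a) := by
  intro a b d hab hbd
  rcases hcov a b d hab hbd with ⟨ha, hb, hd⟩ | ⟨ha, hb, hd⟩
  · exact tri t hirr hasy x y z h1 h2 a b d ha hb hd
  · exact tri t hirr hasy u v w h3 h4 a b d ha hb hd

include hasy htot in
open Classical in
theorem conv (x y z : Fin 6) (hxy : x ≠ y) (hyz : y ≠ z) (hxz : x ≠ z)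
    (h : ((decide (t x y) && decide (t y z) && !(decide (t x z))) ||
      (!(decide (t x y)) && !(decide (t y z)) && decide (t x z))) = false) :
    ¬ (t x y ∧ t y z ∧ t z x) ∧ ¬ (t x z ∧ t z y ∧ t y x) := by
  constructor
  · rintro ⟨p, q, r⟩
    have r' := hasy _ _ r
    simp [p, q, r'] at h
  · rintro ⟨p, q, r⟩
    have q' := hasy _ _ q
    have r' := hasy _ _ r
    simp [p, q', r'] at h

include hirr hasy htot in
theorem good : ∃ c : Fin 6 → Fin 2, ∀ a b d : Fin 6, c a = c b → c b = c d → ¬ (t a b ∧ t b d ∧ t d a) := by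
  classical
  have h := six (decide (t 0 1)) (decide (t 0 2)) (decide (t 0 3)) (decide (t 0 4)) (decide (t 0 5)) (decide (t 1 2)) (decide (t 1 3)) (decide (t 1 4)) (decide (t 1 5)) (decide (t 2 3)) (decide (t 2 4)) (decide (t 2 5)) (decide (t 3 4)) (decide (t 3 5)) (decide (t 4 5))
  simp only [Bool.or_eq_true, Bool.and_eq_true, Bool.not_eq_true'] at h
  rcases h with (((((((((h | h) | h) | h) | h) | h) | h) | h) | h) | h)
  · obtain ⟨g1, g2⟩ := h
    obtain ⟨k1, k2⟩ := conv t hasy htot 0 1 2 (by decide) (by decide) (by decide) g1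
    obtain ⟨k3, k4⟩ := conv t hasy htot 3 4 5 (by decide) (by decide) (by decide) g2
    exact ⟨![0, 0, 0, 1, 1, 1], split t hirr hasy _ 0 1 2 3 4 5 (by decide) k1 k2 k3 k4⟩
  · obtain ⟨g1, g2⟩ := h
    obtain ⟨k1, k2⟩ := conv t hasy htot 0 1 3 (by decide) (by decide) (by decide) g1
    obtain ⟨k3, k4⟩ := conv t hasy htot 2 4 5 (by decide) (by decide) (by decide) g2
    exact ⟨![0, 0, 1, 0, 1, 1], split t hirr hasy _ 0 1 3 2 4 5 (by decide) k1 k2 k3 k4⟩
  · obtain ⟨g1, g2⟩ := h
    obtain ⟨k1, k2⟩ := conv t hasy htot 0 1 4 (by decide) (by decide) (by decide) g1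
    obtain ⟨k3, k4⟩ := conv t hasy htot 2 3 5 (by decide) (by decide) (by decide) g2
    exact ⟨![0, 0, 1, 1, 0, 1], split t hirr hasy _ 0 1 4 2 3 5 (by decide) k1 k2 k3 k4⟩
  · obtain ⟨g1, g2⟩ := h
    obtain ⟨k1, k2⟩ := conv t hasy htot 0 1 5 (by decide) (by decide) (by decide) g1
    obtain ⟨k3, k4⟩ := conv t hasy htot 2 3 4 (by decide) (by decide) (by decide) g2
    exact ⟨![0, 0, 1, 1, 1, 0], split t hirr hasy _ 0 1 5 2 3 4 (by decide) k1 k2 k3 k4⟩
  · obtain ⟨g1, g2⟩ := h
    obtain ⟨k1, k2⟩ := conv t hasy htot 0 2 3 (by decide) (by decide) (by decide) g1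
    obtain ⟨k3, k4⟩ := conv t hasy htot 1 4 5 (by decide) (by decide) (by decide) g2
    exact ⟨![0, 1, 0, 0, 1, 1], split t hirr hasy _ 0 2 3 1 4 5 (by decide) k1 k2 k3 k4⟩
  · obtain ⟨g1, g2⟩ := h
    obtain ⟨k1, k2⟩ := conv t hasy htot 0 2 4 (by decide) (by decide) (by decide) g1
    obtain ⟨k3, k4⟩ := conv t hasy htot 1 3 5 (by decide) (by decide) (by decide) g2
    exact ⟨![0, 1, 0, 1, 0, 1], split t hirr hasy _ 0 2 4 1 3 5 (by decide) k1 k2 k3 k4⟩
  · obtain ⟨g1, g2⟩ := h
    obtain ⟨k1, k2⟩ := conv t hasy htot 0 2 5 (by decide) (by decide) (by decide) g1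
    obtain ⟨k3, k4⟩ := conv t hasy htot 1 3 4 (by decide) (by decide) (by decide) g2
    exact ⟨![0, 1, 0, 1, 1, 0], split t hirr hasy _ 0 2 5 1 3 4 (by decide) k1 k2 k3 k4⟩
  · obtain ⟨g1, g2⟩ := h
    obtain ⟨k1, k2⟩ := conv t hasy htot 0 3 4 (by decide) (by decide) (by decide) g1
    obtain ⟨k3, k4⟩ := conv t hasy htot 1 2 5 (by decide) (by decide) (by decide) g2
    exact ⟨![0, 1, 1, 0, 0, 1], split t hirr hasy _ 0 3 4 1 2 5 (by decide) k1 k2 k3 k4⟩
  · obtain ⟨g1, g2⟩ := h
    obtain ⟨k1, k2⟩ := conv t hasy htot 0 3 5 (by decide) (by decide) (by decide) g1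
    obtain ⟨k3, k4⟩ := conv t hasy htot 1 2 4 (by decide) (by decide) (by decide) g2
    exact ⟨![0, 1, 1, 0, 1, 0], split t hirr hasy _ 0 3 5 1 2 4 (by decide) k1 k2 k3 k4⟩
  · obtain ⟨g1, g2⟩ := h
    obtain ⟨k1, k2⟩ := conv t hasy htot 0 4 5 (by decide) (by decide) (by decide) g1
    obtain ⟨k3, k4⟩ := conv t hasy htot 1 2 3 (by decide) (by decide) (by decide) g2
    exact ⟨![0, 1, 1, 1, 0, 0], split t hirr hasy _ 0 4 5 1 2 3 (by decide) k1 k2 k3 k4⟩

include hirr hasy htot in
theorem good' : ∃ c : Fin 6 → Fin 2, ∀ v, ¬ Relation.TransGen (fun a b => t a b ∧ c a = c b) v v := by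
  obtain ⟨c, hc⟩ := good t hirr hasy htot
  refine ⟨c, ?_⟩
  have key : ∀ u v, Relation.TransGen (fun a b => t a b ∧ c a = c b) u v → t u v ∧ c u = c v := by
    intro u v h
    induction h with
    | single h => exact h
    | @tail p q _ h2 ih =>
      obtain ⟨h3, h4⟩ := h2
      obtain ⟨h5, h6⟩ := ih
      refine ⟨?_, h6.trans h4⟩
      have hne : u ≠ q := by
        rintro rfl
        exact hasy _ _ h5 h3
      rcases htot u q hne with h7 | h7
      · exact h7
      · exact absurd ⟨h5, h3, h7⟩ (hc u p q h6 h4)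
  intro v hv
  exact hirr v (key v v hv).1

end

/-- Every oriented graph with at most six vertices has dichromatic number at most two. -/
theorem small (n' : ℕ) (hn : n' < 7) (s : Fin n' → Fin n' → Prop) (hirr : ∀ u, ¬ s u u)
    (hasy : ∀ u v, s u v → ¬ s v u) :
    ∃ c : Fin n' → Fin 2, ∀ v, ¬ Relation.TransGen (fun a b => s a b ∧ c a = c b) v v := by
  let s' : Fin 6 → Fin 6 → Prop := fun a b => ∃ (ha : a.val < n') (hb : b.val < n'), s ⟨a.val, ha⟩ ⟨b.val, hb⟩
  let t : Fin 6 → Fin 6 → Prop := fun a b => s' a b ∨ (¬ s' b a ∧ a < b)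
  have hs'irr : ∀ u, ¬ s' u u := by
    rintro u ⟨ha, hb, h⟩
    exact hirr _ h
  have hs'asy : ∀ u v, s' u v → ¬ s' v u := by
    rintro u v ⟨ha, hb, h⟩ ⟨ha', hb', h'⟩
    exact hasy _ _ h h'
  obtain ⟨c, hc⟩ := good' t
    (by
      rintro u (h | ⟨_, h⟩)
      · exact hs'irr _ h
      · exact lt_irrefl _ h)
    (by
      rintro u v (h | ⟨h1, h2⟩) (h' | ⟨h1', h2'⟩)
      · exact hs'asy _ _ h h'
      · exact h1' h
      · exact h1 h'
      · exact lt_asymm h2 h2')
    (by
      intro u v huv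
      by_cases h1 : s' u v
      · exact Or.inl (Or.inl h1)
      · by_cases h2 : s' v u
        · exact Or.inr (Or.inl h2)
        · rcases lt_or_gt_of_ne huv with h3 | h3
          · exact Or.inl (Or.inr ⟨h2, h3⟩)
          · exact Or.inr (Or.inr ⟨h1, h3⟩))
  let e : Fin n' → Fin 6 := fun v => ⟨v.val, by have := v.isLt; omega⟩
  refine ⟨fun v => c (e v), ?_⟩
  intro v hv
  apply hc (e v)
  have key : ∀ u w : Fin n', Relation.TransGen (fun a b => s a b ∧ c (e a) = c (e b)) u w →
      Relation.TransGen (fun a b => t a b ∧ c a = c b) (e u) (e w) := by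
    intro u w h
    induction h with
    | @single b h => exact Relation.TransGen.single ⟨Or.inl ⟨u.isLt, b.isLt, h.1⟩, h.2⟩
    | @tail p q _ h2 ih => exact ih.tail ⟨Or.inl ⟨p.isLt, q.isLt, h2.1⟩, h2.2⟩
  exact key v v hv

/-- The arcs of the oriented graph on seven vertices; the pair `0, 1` is not joined. -/
def rB : Fin 7 → Fin 7 → Bool := ![![false, false, false, false, true, true, true],
  ![false, false, false, true, false, false, true],
  ![true, true, false, false, false, false, true],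
  ![true, false, true, false, false, true, false],
  ![false, true, true, true, false, false, false],
  ![false, true, true, false, true, false, false],
  ![false, false, false, true, true, true, false]]

def col3 : Fin 7 → Fin 3 := ![0, 0, 0, 1, 1, 2, 0]

def rank3 : Fin 7 → ℕ := ![1, 2, 0, 1, 0, 0, 3]

theorem rank_ok : ∀ a b : Fin 7, rB a b = true → col3 a = col3 b → rank3 a < rank3 b := by decide +kernel

theorem mono : ∀ x0 x1 x2 x3 x4 x5 x6 : Fin 2, ∃ a b d : Fin 7, rB a b = true ∧ rB b d = true ∧ rB d a = true ∧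
    (![x0, x1, x2, x3, x4, x5, x6] : Fin 7 → Fin 2) a = (![x0, x1, x2, x3, x4, x5, x6] : Fin 7 → Fin 2) b ∧
    (![x0, x1, x2, x3, x4, x5, x6] : Fin 7 → Fin 2) b = (![x0, x1, x2, x3, x4, x5, x6] : Fin 7 → Fin 2) d := by
  decide +kernel

theorem no_two (c : Fin 7 → Fin 2) : ∃ v, Relation.TransGen (fun a b => rB a b = true ∧ c a = c b) v v := by
  have hc : c = ![c 0, c 1, c 2, c 3, c 4, c 5, c 6] := by
    funext i
    fin_cases i <;> rfl
  obtain ⟨a, b, d, h1, h2, h3, h4, h5⟩ := mono (c 0) (c 1) (c 2) (c 3) (c 4) (c 5) (c 6)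
  rw [← hc] at h4 h5
  exact ⟨a, ((Relation.TransGen.single ⟨h1, h4⟩).tail ⟨h2, h5⟩).tail ⟨h3, (h4.trans h5).symm⟩⟩

/-- The negation of the preceding statement: For every m, any oriented graph with dichromatic number exactly m, such that no oriented graph with fewer vertices has dichromatic number m, is a tournament: every two distinct vertices are joined by an arc. -/
theorem result :
    ¬ (∀ (m n : ℕ) (r : Fin n → Fin n → Prop),
      (∀ u, ¬ r u u) →
      (∀ u v, r u v → ¬ r v u) →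
      (∃ c : Fin n → Fin m, ∀ v, ¬ Relation.TransGen (fun a b => r a b ∧ c a = c b) v v) →
      (¬ ∃ c : Fin n → Fin (m - 1), ∀ v, ¬ Relation.TransGen (fun a b => r a b ∧ c a = c b) v v) →
      (∀ n' : ℕ, n' < n → ∀ s : Fin n' → Fin n' → Prop,
        (∀ u, ¬ s u u) →
        (∀ u v, s u v → ¬ s v u) →
        (∃ c : Fin n' → Fin m, ∀ v, ¬ Relation.TransGen (fun a b => s a b ∧ c a = c b) v v) →
        (∃ c : Fin n' → Fin (m - 1), ∀ v, ¬ Relation.TransGen (fun a b => s a b ∧ c a = c b) v v)) →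
      ∀ u v, u ≠ v → r u v ∨ r v u) := by
  intro H
  have h := H 3 7 (fun a b => rB a b = true) (by decide +kernel) (by decide +kernel)
    ⟨col3, ?_⟩ ?_ ?_ 0 1 (by decide)
  · revert h
    decide +kernel
  · intro v hv
    have key : ∀ u v : Fin 7, Relation.TransGen (fun a b => rB a b = true ∧ col3 a = col3 b) u v →
        rank3 u < rank3 v := by
      intro u v h
      induction h with
      | single h => exact rank_ok _ _ h.1 h.2
      | tail _ h2 ih => exact lt_trans ih (rank_ok _ _ h2.1 h2.2)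
    exact lt_irrefl _ (key v v hv)
  · rintro ⟨c, hc⟩
    obtain ⟨v, hv⟩ := no_two c
    exact hc v hv
  · intro n' hn' s h1 h2 _
    exact small n' hn' s h1 h2

end Pool.Agent.S07540
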