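import Mathlib
import Pool.Statements.S07542

set_option autoImplicit false
open Pool Pool.MP_bc6ab1_co

namespace Pool.Agent.S07542

instance fact7 : Fact (Nat.Prime 7) := ⟨by norm_num⟩

/-- The uniform matroid of rank three on six elements. -/
def U : Matroid (Fin 6) :=
  (IndepMatroid.ofFinite (E := Set.univ) (Set.toFinite _) (fun I => I.ncard ≤ 3)
    (by simp)
    (fun I J hJ hIJ => (Set.ncard_le_ncard hIJ (Set.toFinite _)).trans hJ)
    (fun I J hI hJ h => by
      obtain ⟨e, he, he'⟩ := Set.exists_mem_notMem_of_ncard_lt_ncard h (Set.toFinite _)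
      refine ⟨e, he, he', ?_⟩
      rw [Set.ncard_insert_of_notMem he' (Set.toFinite _)]
      omega)
    (fun I _ => Set.subset_univ I)).matroid

theorem U_indep (I : Set (Fin 6)) : U.Indep I ↔ I.ncard ≤ 3 := Iff.rfl

theorem U_E : U.E = Set.univ := rfl

def p1 : Fin 6 → (Fin 3 → ZMod 7) :=
  ![![1,0,0], ![0,1,0], ![0,0,1], ![1,1,1], ![1,2,3], ![1,3,2]]

def p2 : Fin 6 → (Fin 3 → ZMod 7) :=
  ![![1,0,0], ![0,1,0], ![0,0,1], ![1,1,1], ![1,2,3], ![1,3,4]]

/-- determinant of three vectors, written out -/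
def dt (x y z : Fin 3 → ZMod 7) : ZMod 7 :=
  x 0 * y 1 * z 2 - x 0 * y 2 * z 1 - x 1 * y 0 * z 2 + x 1 * y 2 * z 0 + x 2 * y 0 * z 1
    - x 2 * y 1 * z 0

theorem rep (φ : Fin 6 → (Fin 3 → ZMod 7))
    (h : ∀ a b c : Fin 6, a < b → b < c → dt (φ a) (φ b) (φ c) ≠ 0) :
    ∀ I : Set (Fin 6), U.Indep I ↔ LinearIndepOn (ZMod 7) φ I := by
  intro I
  rw [U_indep]
  constructor
  · intro hI
    -- extend I to a set of size three
    obtain ⟨J, hIJ, hJ⟩ : ∃ J : Finset (Fin 6), I ⊆ (J : Set (Fin 6)) ∧ J.card = 3 := by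
      have hf : I.Finite := Set.toFinite _
      have h1 : hf.toFinset.card ≤ 3 := by rw [← Set.ncard_eq_toFinset_card I hf]; exact hI
      obtain ⟨J, hJ1, hJ2⟩ := Finset.exists_superset_card_eq (s := hf.toFinset) h1 (by simp)
      exact ⟨J, fun x hx => hJ1 (hf.mem_toFinset.2 hx), hJ2⟩
    refine LinearIndepOn.mono ?_ hIJ
    let e := J.orderEmbOfFin hJ
    have hr : (J : Set (Fin 6)) = Set.range e := (J.range_orderEmbOfFin hJ).symm
    rw [hr, linearIndepOn_range_iff e.injective]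
    have hd : (Matrix.of (φ ∘ e)).det ≠ 0 := by
      have := h (e 0) (e 1) (e 2) (e.strictMono (by decide)) (e.strictMono (by decide))
      rw [Matrix.det_fin_three]
      simpa [dt, Matrix.of_apply] using this
    exact Matrix.linearIndependent_rows_of_det_ne_zero hd
  · intro hI
    classical
    have : Fintype I := Fintype.ofFinite I
    have h1 : LinearIndependent (ZMod 7) (fun x : I => φ x) := hI
    have h2 := h1.fintype_card_le_finrank
    rw [Module.finrank_fin_fun] at h2
    rw [Set.ncard_eq_toFinset_card' I, Set.toFinset_card]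
    exact h2

theorem rep1 : ∀ I : Set (Fin 6), U.Indep I ↔ LinearIndepOn (ZMod 7) p1 I :=
  rep p1 (by decide)

theorem rep2 : ∀ I : Set (Fin 6), U.Indep I ↔ LinearIndepOn (ZMod 7) p2 I :=
  rep p2 (by decide)

theorem U_loopless : U.Loopless := by
  rw [Matroid.loopless_iff_forall_isNonloop]
  intro e _
  rw [← Matroid.indep_singleton, U_indep]
  simp

/-- the standard basis vectors -/
def e0 : Fin 3 → ZMod 7 := ![1,0,0]
def e1 : Fin 3 → ZMod 7 := ![0,1,0]
def e2 : Fin 3 → ZMod 7 := ![0,0,1]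

theorem expand (L : (Fin 3 → ZMod 7) [⋀^Fin 2]→ₗ[ZMod 7] ZMod 7) (x y : Fin 3 → ZMod 7) :
    L ![x, y] = (x 0 * y 1 - x 1 * y 0) * L ![e0, e1] + (x 0 * y 2 - x 2 * y 0) * L ![e0, e2]
      + (x 1 * y 2 - x 2 * y 1) * L ![e1, e2] := by
  have hl : ∀ (a b : ZMod 7) (u v w : Fin 3 → ZMod 7),
      L ![a • u + b • v, w] = a * L ![u, w] + b * L ![v, w] := by
    intro a b u v w
    rw [AlternatingMap.map_vecCons_add, AlternatingMap.map_vecCons_smul,
      AlternatingMap.map_vecCons_smul]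
    rfl
  have hs : ∀ u v : Fin 3 → ZMod 7, L ![u, v] = - L ![v, u] := by
    intro u v
    have := L.map_swap ![v, u] (i := 0) (j := 1) (by decide)
    rw [← this]
    congr 1
    funext i
    fin_cases i <;> simp
  have hz : ∀ u : Fin 3 → ZMod 7, L ![u, u] = 0 := by
    intro u
    exact L.map_eq_zero_of_eq ![u, u] (i := 0) (j := 1) rfl (by decide)
  have hd : ∀ u : Fin 3 → ZMod 7, u = (1 : ZMod 7) • (u 0 • e0 + u 1 • e1) + u 2 • e2 := by
    intro u
    funext i
    fin_cases i <;> simp [e0, e1, e2]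
  have hL : ∀ u w : Fin 3 → ZMod 7,
      L ![u, w] = u 0 * L ![e0, w] + u 1 * L ![e1, w] + u 2 * L ![e2, w] := by
    intro u w
    conv_lhs => rw [hd u]
    rw [hl, hl]
    ring
  rw [hL x y, hs e0 y, hs e1 y, hs e2 y, hL y e0, hL y e1, hL y e2]
  rw [hz e0, hz e1, hz e2, hs e1 e0, hs e2 e0, hs e2 e1]
  ring

/-- The functional attached to the point `(1,5,6)`. -/
def L1 : (Fin 3 → ZMod 7) [⋀^Fin 2]→ₗ[ZMod 7] ZMod 7 where
  toFun v := dt ![1,5,6] (v 0) (v 1)
  map_update_add' := by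
    intro inst m i x y
    rw [Subsingleton.elim inst (instDecidableEqFin 2)]
    fin_cases i <;> simp [dt] <;> ring
  map_update_smul' := by
    intro inst m i c x
    rw [Subsingleton.elim inst (instDecidableEqFin 2)]
    fin_cases i <;> simp [dt] <;> ring
  map_eq_zero_of_eq' := by
    intro v i j h hij
    have : v 0 = v 1 := by
      fin_cases i <;> fin_cases j
      · exact absurd rfl hij
      · exact h
      · exact h.symm
      · exact absurd rfl hij
    simp only [dt, this]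
    ring

theorem L1_ne : ∀ i j : Fin 6, i ≠ j → dt ![1,5,6] (p1 i) (p1 j) ≠ 0 := by decide

theorem bad : ∀ a b c : ZMod 7, ∃ i j : Fin 6, i ≠ j ∧
    (p2 i 0 * p2 j 1 - p2 i 1 * p2 j 0) * a + (p2 i 0 * p2 j 2 - p2 i 2 * p2 j 0) * b
      + (p2 i 1 * p2 j 2 - p2 i 2 * p2 j 1) * c = 0 := by
  decide +kernel

theorem U_basis_pair {X I : Set (Fin 6)} (hI : U.IsBasis I X) (hX : U.eRk X = 2) :
    ∃ i j : Fin 6, i ≠ j ∧ I = {i, j} := by
  have := hI.encard_eq_eRk
  rw [hX] at this
  exact Set.encard_eq_two.1 this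

theorem pair_basis {i j : Fin 6} {I : Set (Fin 6)} (hI : U.IsBasis I {i, j}) : I = {i, j} := by
  have h1 : U.Indep {i, j} := by
    rw [U_indep]
    exact (Set.ncard_insert_le i {j}).trans (by simp)
  exact hI.eq_of_subset_indep h1 hI.subset (Set.Subset.refl _)

theorem pair_flat {i j : Fin 6} (hij : i ≠ j) : U.IsFlat {i, j} := by
  refine ⟨?_, ?_⟩
  · intro I X hI hX
    have h := pair_basis hI
    subst h
    intro x hx
    by_contra hxI
    have h3 : U.Indep (insert x {i, j}) := by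
      rw [U_indep]
      refine (Set.ncard_insert_le x {i, j}).trans ?_
      rw [Set.ncard_pair hij]
    have := hX.eq_of_subset_indep h3 (Set.subset_insert _ _)
      (Set.insert_subset hx hX.subset)
    exact hxI (this ▸ Set.mem_insert x _)
  · rw [U_E]; exact Set.subset_univ _

theorem pair_rk {i j : Fin 6} (hij : i ≠ j) : U.eRk {i, j} = 2 := by
  have h1 : U.Indep {i, j} := by
    rw [U_indep, Set.ncard_pair hij]; norm_num
  rw [h1.eRk_eq_encard, Set.encard_pair hij]

theorem pair_inj {i j : Fin 6} (hij : i ≠ j) : Function.Injective ![i, j] := by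
  intro a b hab
  fin_cases a <;> fin_cases b
  · rfl
  · exact absurd hab hij
  · exact absurd hab.symm hij
  · rfl

theorem pair_range (i j : Fin 6) : Set.range ![i, j] = {i, j} := by
  ext x
  constructor
  · rintro ⟨s, rfl⟩
    fin_cases s
    · exact Or.inl rfl
    · exact Or.inr rfl
  · rintro (rfl | rfl)
    · exact ⟨0, rfl⟩
    · exact ⟨1, rfl⟩

/-- The negation of the preceding statement: For any loopless matroid with two linear representations over the same finite field and any k ≥ 2, for every c, c alternating k-forms separating all rank-k flats exist for one representation iff they exist for the other. -/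
theorem result :
    ¬ (∀ (F : Type) [Field F] [Fintype F] (n : ℕ) (M : Matroid (Fin n)),
      M.E = Set.univ → M.Loopless →
      ∀ (k : ℕ), 2 ≤ k →
      ∀ (d₁ d₂ : ℕ) (φ₁ : Fin n → (Fin d₁ → F)) (φ₂ : Fin n → (Fin d₂ → F)),
        (∀ I : Set (Fin n), M.Indep I ↔ LinearIndepOn F φ₁ I) →
        (∀ I : Set (Fin n), M.Indep I ↔ LinearIndepOn F φ₂ I) →
        ∀ c : ℕ,
          (∃ L : Fin c → ((Fin d₁ → F) [⋀^Fin k]→ₗ[F] F),
              ∀ X : Set (Fin n), M.IsFlat X → M.eRk X = (k : ℕ∞) →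
                ∃ i : Fin c, ∃ e : Fin k → Fin n,
                  Function.Injective e ∧ M.IsBasis (Set.range e) X ∧ L i (φ₁ ∘ e) ≠ 0) ↔
          (∃ L : Fin c → ((Fin d₂ → F) [⋀^Fin k]→ₗ[F] F),
              ∀ X : Set (Fin n), M.IsFlat X → M.eRk X = (k : ℕ∞) →
                ∃ i : Fin c, ∃ e : Fin k → Fin n,
                  Function.Injective e ∧ M.IsBasis (Set.range e) X ∧ L i (φ₂ ∘ e) ≠ 0)) := by
  intro H
  have h := (H (ZMod 7) 6 U U_E U_loopless 2 le_rfl 3 3 p1 p2 rep1 rep2 1).1 ?_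
  · obtain ⟨L, hL⟩ := h
    obtain ⟨i, j, hij, h0⟩ := bad (L 0 ![e0, e1]) (L 0 ![e0, e2]) (L 0 ![e1, e2])
    rw [← expand (L 0) (p2 i) (p2 j)] at h0
    obtain ⟨t, e, he, hB, hne⟩ := hL {i, j} (pair_flat hij) (pair_rk hij)
    have ht : t = 0 := Subsingleton.elim _ _
    subst ht
    have hr := pair_basis hB
    have hc : (p2 ∘ e) = ![p2 (e 0), p2 (e 1)] := by
      funext s; fin_cases s <;> rfl
    rw [hc] at hne
    have m0 : e 0 ∈ ({i, j} : Set (Fin 6)) := hr ▸ Set.mem_range_self 0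
    have m1 : e 1 ∈ ({i, j} : Set (Fin 6)) := hr ▸ Set.mem_range_self 1
    have hd : e 0 ≠ e 1 := fun h => absurd (he h) (by decide)
    rcases m0 with m0 | m0 <;> rcases m1 with m1 | m1
    · exact hd (m0.trans m1.symm)
    · rw [m0, m1] at hne; exact hne h0
    · rw [m0, m1, expand] at hne
      rw [expand] at h0
      apply hne
      linear_combination -h0
    · exact hd (m0.trans m1.symm)
  · refine ⟨fun _ => L1, ?_⟩
    intro X _ hX
    obtain ⟨I, hI⟩ := U.exists_isBasis X
    obtain ⟨i, j, hij, rfl⟩ := U_basis_pair hI (by simpa using hX)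
    refine ⟨0, ![i, j], ?_, ?_, ?_⟩
    · exact pair_inj hij
    · rw [pair_range]; exact hI
    · have : (L1 (p1 ∘ ![i, j])) = dt ![1,5,6] (p1 i) (p1 j) := rfl
      rw [this]; exact L1_ne i j hij

end Pool.Agent.S07542
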