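import Pool.Statements.S07563
import Pool.Agent.H15Meas

set_option autoImplicit false
open scoped MeasureTheory
open Pool Pool.MP_bdc619_co

namespace Pool.Agent.S07563

/-- For finitely many unit vectors in 3-space whose open spherical caps of angular radius π/6 are pairwise disjoint, the total area of these caps divided by the area of the union of the radius-π/3 caps is at most 6(1-√3/2). -/
theorem result :
    ∀ T : Finset (EuclideanSpace ℝ (Fin 3)),
      (∀ u ∈ T, ‖u‖ = 1) →
      (↑T : Set (EuclideanSpace ℝ (Fin 3))).PairwiseDisjoint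
        (fun u => {x : EuclideanSpace ℝ (Fin 3) |
          ‖x‖ = 1 ∧ InnerProductGeometry.angle u x < Real.pi / 6}) →
      (∑ u ∈ T, (μH[2] {x : EuclideanSpace ℝ (Fin 3) |
          ‖x‖ = 1 ∧ InnerProductGeometry.angle u x < Real.pi / 6}).toReal)
        / (μH[2] (⋃ u ∈ T, {x : EuclideanSpace ℝ (Fin 3) |
          ‖x‖ = 1 ∧ InnerProductGeometry.angle u x < Real.pi / 3})).toReal
        ≤ 6 * (1 - Real.sqrt 3 / 2) := by
  exact fun T hT hd => Pool.Agent.H15Meas.main T hT hd

end Pool.Agent.S07563
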