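import Pool.Statements.S07640
-- import your own Pool.Agent.* helpers here

set_option autoImplicit false
open Pointwise
open Pool Pool.MP_c21415_co

namespace Pool.Agent.S07640

/-- Translation by `(a, b, c)` as a permutation of `(ZMod m)^3`. -/
def tr (m : ℕ) (v : ZMod m × ZMod m × ZMod m) : Equiv.Perm (ZMod m × ZMod m × ZMod m) where
  toFun p := (p.1 + v.1, p.2.1 + v.2.1, p.2.2 + v.2.2)
  invFun p := (p.1 - v.1, p.2.1 - v.2.1, p.2.2 - v.2.2)
  left_inv p := by ext <;> simp
  right_inv p := by ext <;> simp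

/-- The cyclic rotation of the three coordinates. -/
def rot (m : ℕ) : Equiv.Perm (ZMod m × ZMod m × ZMod m) where
  toFun p := (p.2.2, p.1, p.2.1)
  invFun p := (p.2.1, p.2.2, p.1)
  left_inv p := rfl
  right_inv p := rfl

theorem key1 (m : ℕ) (a b s : ZMod m) :
    tr m (a, b, 0) * (tr m (s, 0, 0) * rot m) = tr m (a + s, b, 0) * rot m := by
  ext p <;> simp [tr, rot, Equiv.Perm.mul_apply] <;> ring

theorem key2 (m : ℕ) (a b s s' : ZMod m) :
    tr m (a, b, 0) * (tr m (s, 0, 0) * rot m) * (tr m (s', 0, 0) * rot m)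
      = tr m (a + s, b + s', 0) * (rot m * rot m) := by
  ext p <;> simp [tr, rot, Equiv.Perm.mul_apply] <;> ring

theorem key3 (m : ℕ) (a b s : ZMod m) :
    (tr m (a, b, 0) * ((tr m (0, 0, 0) * rot m) * (tr m (0, 0, 0) * rot m)
      * (tr m (s, 0, 0) * rot m))) (0, 0, 0) = (a, b, s) := by
  simp [tr, rot, Equiv.Perm.mul_apply]

theorem tr_inj (m : ℕ) : Function.Injective (tr m) := by
  intro v w h
  have := congrArg (fun e : Equiv.Perm (ZMod m × ZMod m × ZMod m) => e (0, 0, 0)) h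
  simpa [tr] using this

/-- The negation of the preceding statement: There is an absolute constant c such that for any group and finite A, B with ∣AB∣ < α∣A∣ and ∣AbB∣ ≤ α∣A∣ for every b in B, each h ≥ 1 admits a nonempty X ⊆ A with ∣XB^h∣ ≤ α^(ch)∣X∣. -/
theorem result :
    ¬ (∃ c : ℝ, ∀ (G : Type) [Group G] [DecidableEq G] (A B : Finset G) (α : ℝ),
      (((A * B).card : ℝ) < α * (A.card : ℝ)) →
      (∀ b ∈ B, (((A * {b} * B).card : ℝ) ≤ α * (A.card : ℝ))) →
      ∀ h : ℕ, 1 ≤ h →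
        ∃ X : Finset G, X ⊆ A ∧ X.Nonempty ∧
          (((X * B ^ h).card : ℝ) ≤ α ^ (c * (h : ℝ)) * (X.card : ℝ))) := by
  rintro ⟨c, hc⟩
  classical
  obtain ⟨k, hk⟩ := exists_nat_gt ((2 : ℝ) ^ (c * ((3 : ℕ) : ℝ)))
  set m : ℕ := k + 1 with hm
  have hmk : ((2 : ℝ) ^ (c * ((3 : ℕ) : ℝ))) < (m : ℝ) := by
    refine lt_trans hk ?_
    rw [hm]; push_cast; linarith
  haveI : NeZero m := ⟨by omega⟩
  let A : Finset (Equiv.Perm (ZMod m × ZMod m × ZMod m)) :=
    (Finset.univ : Finset (ZMod m × ZMod m)).image (fun q => tr m (q.1, q.2, 0))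
  let B : Finset (Equiv.Perm (ZMod m × ZMod m × ZMod m)) :=
    (Finset.univ : Finset (ZMod m)).image (fun s => tr m (s, 0, 0) * rot m)
  have hAcard : A.card = m * m := by
    have hinj : Function.Injective (fun q : ZMod m × ZMod m => tr m (q.1, q.2, 0)) := by
      intro q q' h
      have := tr_inj m h
      simp only [Prod.mk.injEq] at this
      exact Prod.ext this.1 this.2.1
    show ((Finset.univ : Finset (ZMod m × ZMod m)).image _).card = _
    rw [Finset.card_image_of_injective _ hinj]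
    simp [ZMod.card]
  have hmpos : (0 : ℝ) < (m : ℝ) * m := by
    have : 0 < m := by omega
    positivity
  have h1 : (A * B).card ≤ m * m := by
    have hsub : A * B ⊆ (Finset.univ : Finset (ZMod m × ZMod m)).image
        (fun q => tr m (q.1, q.2, 0) * rot m) := by
      intro z hz
      obtain ⟨a, ha, b, hb, rfl⟩ := Finset.mem_mul.1 hz
      obtain ⟨q, -, rfl⟩ := Finset.mem_image.1 ha
      obtain ⟨s, -, rfl⟩ := Finset.mem_image.1 hb
      rw [key1]
      exact Finset.mem_image.2 ⟨(q.1 + s, q.2), Finset.mem_univ _, rfl⟩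
    calc (A * B).card ≤ _ := Finset.card_le_card hsub
      _ ≤ (Finset.univ : Finset (ZMod m × ZMod m)).card := Finset.card_image_le
      _ = m * m := by simp [ZMod.card]
  have h2 : ∀ b ∈ B, (A * {b} * B).card ≤ m * m := by
    intro b hb
    obtain ⟨s, -, rfl⟩ := Finset.mem_image.1 hb
    have hsub : A * {tr m (s, 0, 0) * rot m} * B ⊆
        (Finset.univ : Finset (ZMod m × ZMod m)).image
        (fun q => tr m (q.1, q.2, 0) * (rot m * rot m)) := by
      intro z hz
      obtain ⟨w, hw, b', hb', rfl⟩ := Finset.mem_mul.1 hz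
      obtain ⟨a, ha, b, hb, rfl⟩ := Finset.mem_mul.1 hw
      obtain ⟨q, -, rfl⟩ := Finset.mem_image.1 ha
      obtain ⟨s', -, rfl⟩ := Finset.mem_image.1 hb'
      rw [Finset.mem_singleton] at hb
      subst hb
      rw [key2]
      exact Finset.mem_image.2 ⟨(q.1 + s, q.2 + s'), Finset.mem_univ _, rfl⟩
    calc (A * {tr m (s, 0, 0) * rot m} * B).card ≤ _ := Finset.card_le_card hsub
      _ ≤ (Finset.univ : Finset (ZMod m × ZMod m)).card := Finset.card_image_le
      _ = m * m := by simp [ZMod.card]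
  have H1 : (((A * B).card : ℝ) < 2 * (A.card : ℝ)) := by
    have : ((A * B).card : ℝ) ≤ (m : ℝ) * m := by exact_mod_cast h1
    rw [hAcard]; push_cast; linarith
  have H2 : ∀ b ∈ B, (((A * {b} * B).card : ℝ) ≤ 2 * (A.card : ℝ)) := by
    intro b hb
    have : ((A * {b} * B).card : ℝ) ≤ (m : ℝ) * m := by exact_mod_cast h2 b hb
    rw [hAcard]; push_cast; linarith
  obtain ⟨X, hXA, hXne, hX⟩ := hc (Equiv.Perm (ZMod m × ZMod m × ZMod m)) A B 2 H1 H2 3 (by norm_num)
  have hbig : X.card * m ≤ (X * B ^ 3).card := by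
    have hcard : (X ×ˢ (Finset.univ : Finset (ZMod m))).card = X.card * m := by
      rw [Finset.card_product]; simp [ZMod.card]
    rw [← hcard]
    apply Finset.card_le_card_of_injOn
      (fun q => q.1 * ((tr m (0, 0, 0) * rot m) * (tr m (0, 0, 0) * rot m)
        * (tr m (q.2, 0, 0) * rot m)))
    · intro q hq
      have hq' := Finset.mem_product.1 (Finset.mem_coe.1 hq)
      refine Finset.mem_coe.2 (Finset.mul_mem_mul hq'.1 ?_)
      have hB : ∀ s : ZMod m, tr m (s, 0, 0) * rot m ∈ B := fun s =>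
        Finset.mem_image.2 ⟨s, Finset.mem_univ _, rfl⟩
      rw [pow_succ, pow_two]
      exact Finset.mul_mem_mul (Finset.mul_mem_mul (hB 0) (hB 0)) (hB _)
    · intro q hq q' hq' h
      have hq1 := Finset.mem_product.1 (Finset.mem_coe.1 hq)
      have hq1' := Finset.mem_product.1 (Finset.mem_coe.1 hq')
      obtain ⟨u, -, hu⟩ := Finset.mem_image.1 (hXA hq1.1)
      obtain ⟨u', -, hu'⟩ := Finset.mem_image.1 (hXA hq1'.1)
      have h0 := congrArg (fun e : Equiv.Perm (ZMod m × ZMod m × ZMod m) => e (0, 0, 0)) h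
      simp only at h0
      rw [← hu, ← hu', key3, key3] at h0
      simp only [Prod.mk.injEq] at h0
      refine Prod.ext ?_ h0.2.2
      rw [← hu, ← hu', h0.1, h0.2.1]
  have hXpos : (0 : ℝ) < (X.card : ℝ) := by exact_mod_cast hXne.card_pos
  have hbig' : (X.card : ℝ) * m ≤ ((X * B ^ 3).card : ℝ) := by exact_mod_cast hbig
  have : (X.card : ℝ) * m ≤ (2 : ℝ) ^ (c * ((3 : ℕ) : ℝ)) * (X.card : ℝ) := le_trans hbig' hX
  nlinarith

end Pool.Agent.S07640
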