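import Pool.Statements.S07642
-- import your own Pool.Agent.* helpers here

set_option autoImplicit false
open Pool Pool.MP_c220a4_co

namespace Pool.Agent.S07642

/-- out-neighbour lists of the 6-vertex digraph -/
def nb : Fin 6 → List (Fin 6)
  | 0 => [1, 3]
  | 1 => [3, 4]
  | 2 => [1, 4]
  | 3 => [0, 1, 4, 5]
  | 4 => [1, 2, 3, 5]
  | 5 => [0, 2, 3, 4]

/-- adjacency -/
def A6 (x y : Fin 6) : Bool := decide (y ∈ nb x)

theorem memA (x y : Fin 6) : A6 x y = true ↔ y ∈ nb x := by
  simp [A6]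

set_option synthInstance.maxSize 100000 in
set_option maxRecDepth 100000 in
theorem conn : ∀ u v : Fin 6, ∃ a b c : Fin 6,
    (a = u ∨ a ∈ nb u) ∧ (b = a ∨ b ∈ nb a) ∧ (c = b ∨ c ∈ nb b) ∧ (v = c ∨ v ∈ nb c) := by
  decide

theorem step {x y : Fin 6} (h : y = x ∨ y ∈ nb x) :
    Relation.ReflTransGen (fun x y => A6 x y = true) x y := by
  rcases h with h | h
  · subst h; exact Relation.ReflTransGen.refl
  · exact Relation.ReflTransGen.single ((memA x y).2 h)

theorem strong (u v : Fin 6) : Relation.ReflTransGen (fun x y => A6 x y = true) u v := by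
  obtain ⟨a, b, c, h1, h2, h3, h4⟩ := conn u v
  exact (((step h1).trans (step h2)).trans (step h3)).trans (step h4)

set_option synthInstance.maxSize 100000 in
set_option maxRecDepth 100000 in
theorem c2 : ∀ a : Fin 6, ∀ b ∈ nb a, a ∈ nb b → ¬ (0 ∈ [a, b] ∧ 2 ∈ [a, b]) := by
  decide

set_option synthInstance.maxSize 100000 in
set_option maxRecDepth 100000 in
theorem c3 : ∀ a : Fin 6, ∀ b ∈ nb a, ∀ c ∈ nb b, c ≠ a → a ∈ nb c →
    ¬ (0 ∈ [a, b, c] ∧ 2 ∈ [a, b, c]) := by
  decide

set_option synthInstance.maxSize 100000 in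
set_option maxRecDepth 100000 in
theorem c4 : ∀ a : Fin 6, ∀ b ∈ nb a, ∀ c ∈ nb b, c ≠ a → ∀ d ∈ nb c, d ≠ a → d ≠ b →
    a ∈ nb d → ¬ (0 ∈ [a, b, c, d] ∧ 2 ∈ [a, b, c, d]) := by
  decide

set_option synthInstance.maxSize 100000 in
set_option maxRecDepth 100000 in
theorem c5 : ∀ a : Fin 6, ∀ b ∈ nb a, ∀ c ∈ nb b, c ≠ a → ∀ d ∈ nb c, d ≠ a → d ≠ b →
    ∀ e ∈ nb d, e ≠ a → e ≠ b → e ≠ c → a ∈ nb e →
    ¬ (0 ∈ [a, b, c, d, e] ∧ 2 ∈ [a, b, c, d, e]) := by
  decide

set_option synthInstance.maxSize 100000 in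
set_option maxRecDepth 100000 in
theorem c6 : ∀ a : Fin 6, ∀ b ∈ nb a, ∀ c ∈ nb b, c ≠ a → ∀ d ∈ nb c, d ≠ a → d ≠ b →
    ∀ e ∈ nb d, e ≠ a → e ≠ b → e ≠ c → ∀ f ∈ nb e, f ≠ a → f ≠ b → f ≠ c → f ≠ d → a ∉ nb f := by
  decide

/-- The negation of the preceding statement: Every strongly connected loopless digraph on n≥3 vertices satisfying both Nash-Williams conditions on its sorted in/out-degree sequences for all 1≤i<n/2 has, for any two distinct vertices, a directed cycle containing both. -/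
theorem result :
    ¬ (∀ (n : ℕ) (A : Fin n → Fin n → Bool),
      3 ≤ n →
      (∀ v, A v v = false) →
      (∀ u v, Relation.ReflTransGen (fun a b => A a b = true) u v) →
      (∀ i : ℕ, 1 ≤ i → 2 * i < n →
        ((Finset.univ.filter
            (fun v => (Finset.univ.filter (fun w => A v w = true)).card ≤ i)).card < i ∨
         (Finset.univ.filter
            (fun v => (Finset.univ.filter (fun w => A w v = true)).card < n - i)).card < n - i)) →
      (∀ i : ℕ, 1 ≤ i → 2 * i < n →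
        ((Finset.univ.filter
            (fun v => (Finset.univ.filter (fun w => A w v = true)).card ≤ i)).card < i ∨
         (Finset.univ.filter
            (fun v => (Finset.univ.filter (fun w => A v w = true)).card < n - i)).card < n - i)) →
      ∀ u v : Fin n, u ≠ v →
        ∃ (k : ℕ) (f : Fin k → Fin n),
          Function.Injective f ∧
          (∀ j : Fin k, A (f j) (f (finRotate k j)) = true) ∧
          u ∈ Set.range f ∧ v ∈ Set.range f) := by
  intro h
  have h1 := h 6 A6 (by norm_num) (by decide) strong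
    (by
      intro i hi hi2
      have : i = 1 ∨ i = 2 := by omega
      rcases this with rfl | rfl <;> decide)
    (by
      intro i hi hi2
      have : i = 1 ∨ i = 2 := by omega
      rcases this with rfl | rfl <;> decide) 0 2 (by decide)
  obtain ⟨k, f, finj, hf, ⟨j0, hj0⟩, ⟨j2, hj2⟩⟩ := h1
  have hk : k ≤ 6 := by
    have := Fintype.card_le_of_injective f finj
    simpa using this
  have g : ∀ i j : Fin k, finRotate k i = j → f j ∈ nb (f i) := by
    intro i j hij
    have := (memA _ _).1 (hf i)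
    rw [hij] at this
    exact this
  have ne : ∀ i j : Fin k, i ≠ j → f i ≠ f j := fun i j hij hh => hij (finj hh)
  interval_cases k
  · exact j0.elim0
  · have : j0 = j2 := Subsingleton.elim _ _
    rw [this, hj2] at hj0
    exact absurd hj0 (by decide)
  · refine c2 (f 0) (f 1) (g 0 1 (by decide)) (g 1 0 (by decide)) ⟨?_, ?_⟩
    · rw [← hj0]; fin_cases j0 <;> simp
    · rw [← hj2]; fin_cases j2 <;> simp
  · refine c3 (f 0) (f 1) (g 0 1 (by decide)) (f 2) (g 1 2 (by decide)) (ne 2 0 (by decide))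
      (g 2 0 (by decide)) ⟨?_, ?_⟩
    · rw [← hj0]; fin_cases j0 <;> simp
    · rw [← hj2]; fin_cases j2 <;> simp
  · refine c4 (f 0) (f 1) (g 0 1 (by decide)) (f 2) (g 1 2 (by decide)) (ne 2 0 (by decide))
      (f 3) (g 2 3 (by decide)) (ne 3 0 (by decide)) (ne 3 1 (by decide))
      (g 3 0 (by decide)) ⟨?_, ?_⟩
    · rw [← hj0]; fin_cases j0 <;> simp
    · rw [← hj2]; fin_cases j2 <;> simp
  · refine c5 (f 0) (f 1) (g 0 1 (by decide)) (f 2) (g 1 2 (by decide)) (ne 2 0 (by decide))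
      (f 3) (g 2 3 (by decide)) (ne 3 0 (by decide)) (ne 3 1 (by decide))
      (f 4) (g 3 4 (by decide)) (ne 4 0 (by decide)) (ne 4 1 (by decide)) (ne 4 2 (by decide))
      (g 4 0 (by decide)) ⟨?_, ?_⟩
    · rw [← hj0]; fin_cases j0 <;> simp
    · rw [← hj2]; fin_cases j2 <;> simp
  · exact c6 (f 0) (f 1) (g 0 1 (by decide)) (f 2) (g 1 2 (by decide)) (ne 2 0 (by decide))
      (f 3) (g 2 3 (by decide)) (ne 3 0 (by decide)) (ne 3 1 (by decide))
      (f 4) (g 3 4 (by decide)) (ne 4 0 (by decide)) (ne 4 1 (by decide)) (ne 4 2 (by decide))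
      (f 5) (g 4 5 (by decide)) (ne 5 0 (by decide)) (ne 5 1 (by decide)) (ne 5 2 (by decide))
      (ne 5 3 (by decide)) (g 5 0 (by decide))

end Pool.Agent.S07642
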