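import Pool.Statements.S07650

set_option autoImplicit false
open Pool Pool.MP_c26b0d_co

namespace Pool.Agent.S07650

/-- Adjacency of the 17-vertex graph, read off a table. -/
def adjb (a b : Fin 17) : Bool := Nat.testBit 466244743443031305979917128844839667342039244396321567247837079599410808721300975126022 (17 * a.val + b.val)

theorem adj_symm : ∀ a b : Fin 17, adjb a b = true → adjb b a = true := by decide +kernel

theorem adj_irr : ∀ a : Fin 17, adjb a a = false := by decide +kernel

/-- The graph: two copies of a 9-vertex graph sharing a vertex of degree two. -/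
def G : SimpleGraph (Fin 17) where
  Adj a b := adjb a b = true
  symm := ⟨fun a b h => adj_symm a b h⟩
  loopless := ⟨fun a h => by rw [adj_irr a] at h; exact absurd h (by decide)⟩

instance : DecidableRel G.Adj := fun a b => inferInstanceAs (Decidable (adjb a b = true))

/-! ### The 9-vertex block -/

/-- Adjacency of the block. -/
def hadj (a b : Fin 9) : Bool := Nat.testBit 1135992953623711414776326 (9 * a.val + b.val)

/-- Code of an unordered pair. -/
def code (a b : Fin 9) : ℕ := if a < b then 9 * a.val + b.val else 9 * b.val + a.val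

/-- The unordered pair with a given code. -/
def dec (e : ℕ) : Sym2 (Fin 9) :=
  s(⟨e / 9 % 9, Nat.mod_lt _ (by decide)⟩, ⟨e % 9, Nat.mod_lt _ (by decide)⟩)

theorem dec_code : ∀ a b : Fin 9, dec (code a b) = s(a, b) := by decide +kernel

/-- Codes of the 17 edges of the block. -/
def EL : List ℕ := [1, 2, 12, 13, 14, 21, 24, 25, 32, 34, 42, 43, 44, 51, 53, 62, 71]

theorem EL_nodup : (EL.map dec).Nodup := by decide +kernel

/-- Seven dominating sets of the block. -/
def fam3 : List (List (Fin 9)) := [[1, 2, 8], [1, 6, 7], [2, 4, 5], [0, 3, 8], [0, 5, 7], [0, 3, 4], [0, 3, 6]]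

/-- Four pairs dominating the block without its root. -/
def fam2 : List (List (Fin 9)) := [[3, 4], [3, 6], [3, 8], [5, 7]]

/-- Mask of the edges between `v` and `D`. -/
def msk (v : Fin 9) (D : List (Fin 9)) : ℕ :=
  D.foldr (fun u m => if hadj u v = true then 2 ^ (code u v) ||| m else m) 0

/-- Masks for all target vertices outside `D`. -/
def tabOf (t : Fin 9 → Bool) (D : List (Fin 9)) : List ℕ :=
  ((List.finRange 9).filter (fun v => t v && !(D.contains v))).map (fun v => msk v D)

/-- All vertices are targets. -/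
def t0 : Fin 9 → Bool := fun _ => true

/-- All vertices but the root are targets. -/
def t1 : Fin 9 → Bool := fun v => v != 0

/-- The precomputed masks. -/
def tab3 : List (List ℕ) := [[6, 2101248, 17592186052608, 9007199254757376, 4611686018444165120, 2361183241434856161280],
  [2, 50331648, 17179873280, 13194139541504, 2251799813701632, 2365794927453249994752],
  [4, 24576, 4297064448, 2256197876973568, 8796126576640, 9024791440785408],
  [4098, 2097156, 17592186044416, 9007203549708288, 4611686018427387904, 2361183241452002476032],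
  [16386, 33554436, 21474836480, 8796093022208, 2251799813685248, 2361192248634077347840],
  [12290, 2097156, 4294967296, 4398046511104, 8813272891392, 17592186044416],
  [4098, 18874372, 4398046511104, 2251804108652544, 17179869184, 4611686018427387904]]

/-- The precomputed masks. -/
def tab2 : List (List ℕ) := [[12288, 2097152, 4294967296, 4398046511104, 8813272891392, 17592186044416],
  [4096, 18874368, 4398046511104, 2251804108652544, 17179869184, 4611686018427387904],
  [4096, 2097152, 17592186044416, 9007203549708288, 4611686018427387904, 2361183241452002476032],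
  [16384, 33554432, 21474836480, 8796093022208, 2251799813685248, 2361192248634077347840]]

theorem tab3_eq : tab3 = fam3.map (tabOf t0) := by decide +kernel

theorem tab2_eq : tab2 = fam2.map (tabOf t1) := by decide +kernel

/-- Number of edges in a mask. -/
def pcount (F : ℕ) : ℕ := EL.countP (fun e => F.testBit e)

/-- Evaluate the argument first. -/
def force (n : ℕ) (f : ℕ → Bool) : Bool :=
  match n with
  | 0 => f 0
  | k + 1 => f (k + 1)

theorem force_eq (n : ℕ) (f : ℕ → Bool) : force n f = f n := by
  cases n <;> rfl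

/-- The search: whichever `B` edges are deleted, one of the sets survives. -/
def srch (B : ℕ) (tab : List (List ℕ)) : ℕ → ℕ → Bool
  | 0, _ => false
  | k + 1, F0 => force F0 fun F =>
    Nat.ble (B + 1) (pcount F) ||
      (tab.any fun ms => ms.all (fun m => (m &&& F) != m) &&
        ms.all (fun m => srch B tab k (m ||| F)))

theorem srch3_true : srch 4 tab3 6 0 = true := by decide +kernel

theorem srch2_true : srch 2 tab2 4 0 = true := by decide +kernel

theorem msk_bit (v : Fin 9) (D : List (Fin 9)) (e : ℕ) (h : (msk v D).testBit e = true) :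
    ∃ u ∈ D, hadj u v = true ∧ e = code u v := by
  induction D with
  | nil => simp [msk] at h
  | cons u D ih =>
    rw [msk, List.foldr_cons] at h
    change (if hadj u v = true then 2 ^ (code u v) ||| msk v D else msk v D).testBit e = true at h
    by_cases hu : hadj u v = true
    · rw [if_pos hu, Nat.testBit_or, Bool.or_eq_true] at h
      rcases h with h | h
      · rw [Nat.testBit_two_pow] at h
        exact ⟨u, List.mem_cons_self, hu, (of_decide_eq_true h).symm⟩
      · obtain ⟨w, hw, h'⟩ := ih h
        exact ⟨w, List.mem_cons_of_mem _ hw, h'⟩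
    · rw [if_neg hu] at h
      obtain ⟨w, hw, h'⟩ := ih h
      exact ⟨w, List.mem_cons_of_mem _ hw, h'⟩

theorem pcount_le (F : Finset (Sym2 (Fin 9))) (m : ℕ)
    (h : ∀ e, m.testBit e = true → dec e ∈ F) : pcount m ≤ F.card := by
  have h1 : ((EL.filter (fun e => m.testBit e)).map dec).Nodup :=
    EL_nodup.sublist (List.filter_sublist.map dec)
  have h2 : ((EL.filter (fun e => m.testBit e)).map dec).toFinset ⊆ F := by
    intro x hx
    rw [List.mem_toFinset, List.mem_map] at hx
    obtain ⟨e, he, rfl⟩ := hx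
    rw [List.mem_filter] at he
    exact h e he.2
  have h3 := Finset.card_le_card h2
  rw [List.toFinset_card_of_nodup h1, List.length_map] at h3
  rw [pcount, List.countP_eq_length_filter]
  exact h3

theorem sound (B : ℕ) (t : Fin 9 → Bool) (fam : List (List (Fin 9))) (tab : List (List ℕ))
    (htab : tab = fam.map (tabOf t)) (F : Finset (Sym2 (Fin 9))) (hF : F.card ≤ B)
    (hkill : ∀ D ∈ fam, ∃ v, t v = true ∧ v ∉ D ∧ ∀ u ∈ D, hadj u v = true → s(u, v) ∈ F) :
    ∀ k m, (∀ e, m.testBit e = true → dec e ∈ F) → srch B tab k m = false := by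
  intro k
  induction k with
  | zero => intro m _; rfl
  | succ k ih =>
    intro m hm
    rw [srch, force_eq]
    have hp := pcount_le F m hm
    have hb : Nat.ble (B + 1) (pcount m) = false := by
      rw [Bool.eq_false_iff]
      intro h
      have := Nat.le_of_ble_eq_true h
      omega
    rw [hb, Bool.false_or, List.any_eq_false]
    intro ms hms
    rw [htab, List.mem_map] at hms
    obtain ⟨D, hD, rfl⟩ := hms
    obtain ⟨v, ht, hv, hv'⟩ := hkill D hD
    rw [Bool.not_eq_true, Bool.and_eq_false_iff]
    right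
    rw [List.all_eq_false]
    refine ⟨msk v D, ?_, ?_⟩
    · rw [tabOf, List.mem_map]
      refine ⟨v, ?_, rfl⟩
      rw [List.mem_filter]
      refine ⟨List.mem_finRange v, ?_⟩
      rw [ht, Bool.true_and]
      simpa using hv
    · rw [ih (msk v D ||| m) ?_]
      · decide
      · intro e he
        rw [Nat.testBit_or, Bool.or_eq_true] at he
        rcases he with he | he
        · obtain ⟨u, hu, ha, rfl⟩ := msk_bit v D e he
          rw [dec_code]
          exact hv' u hu ha
        · exact hm e he

/-- Some dominating set of the block survives the deletion of four edges. -/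
theorem survive3 (F : Finset (Sym2 (Fin 9))) (hF : F.card ≤ 4) :
    ∃ D ∈ fam3, ∀ v, v ∉ D → ∃ u ∈ D, hadj u v = true ∧ s(u, v) ∉ F := by
  by_contra hno
  push Not at hno
  have hk : ∀ D ∈ fam3, ∃ v, t0 v = true ∧ v ∉ D ∧ ∀ u ∈ D, hadj u v = true → s(u, v) ∈ F := by
    intro D hD
    obtain ⟨v, hv, h⟩ := hno D hD
    exact ⟨v, rfl, hv, h⟩
  have h := sound 4 t0 fam3 tab3 tab3_eq F hF hk 6 0 (fun e he => by simp at he)
  rw [srch3_true] at h
  exact absurd h (by decide)

/-- Some pair survives the deletion of two edges. -/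
theorem survive2 (F : Finset (Sym2 (Fin 9))) (hF : F.card ≤ 2) :
    ∃ D ∈ fam2, ∀ v, v ≠ 0 → v ∉ D → ∃ u ∈ D, hadj u v = true ∧ s(u, v) ∉ F := by
  by_contra hno
  push Not at hno
  have hk : ∀ D ∈ fam2, ∃ v, t1 v = true ∧ v ∉ D ∧ ∀ u ∈ D, hadj u v = true → s(u, v) ∈ F := by
    intro D hD
    obtain ⟨v, h0, hv, h⟩ := hno D hD
    refine ⟨v, ?_, hv, h⟩
    rw [t1, bne_iff_ne]
    exact h0
  have h := sound 2 t1 fam2 tab2 tab2_eq F hF hk 4 0 (fun e he => by simp at he)
  rw [srch2_true] at h
  exact absurd h (by decide)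

theorem fam3_len : ∀ D ∈ fam3, D.length = 3 := by decide +kernel

theorem fam2_len : ∀ D ∈ fam2, D.length = 2 := by decide +kernel

/-- The first copy of the block. -/
def i1 (v : Fin 9) : Fin 17 := ⟨v.val, by omega⟩

/-- The second copy of the block. -/
def i2 (v : Fin 9) : Fin 17 := if v = 0 then 0 else ⟨v.val + 8, by omega⟩

theorem i1_adj : ∀ a b : Fin 9, hadj a b = true → adjb (i1 a) (i1 b) = true := by decide +kernel

theorem i2_adj : ∀ a b : Fin 9, hadj a b = true → adjb (i2 a) (i2 b) = true := by decide +kernel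

theorem i1_inj : ∀ a b : Fin 9, i1 a = i1 b → a = b := by decide +kernel

theorem i2_inj : ∀ a b : Fin 9, i2 a = i2 b → a = b := by decide +kernel

theorem cov1 : ∀ v : Fin 17, (∃ w, v = i1 w) ∨ (∃ w, w ≠ 0 ∧ v = i2 w) := by decide +kernel

theorem cov2 : ∀ v : Fin 17, (∃ w, w ≠ 0 ∧ v = i1 w) ∨ (∃ w, v = i2 w) := by decide +kernel

theorem disj : ∀ x ∈ EL.map dec, ∀ y ∈ EL.map dec, Sym2.map i1 x ≠ Sym2.map i2 y := by
  decide +kernel

theorem in_EL : ∀ a b : Fin 9, hadj a b = true → s(a, b) ∈ EL.map dec := by decide +kernel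

/-- The deleted edges inside a copy. -/
def part (i : Fin 9 → Fin 17) (F : Finset (Sym2 (Fin 17))) : Finset (Sym2 (Fin 9)) :=
  (EL.map dec).toFinset.filter (fun x => Sym2.map i x ∈ F)

theorem part_card (F : Finset (Sym2 (Fin 17))) :
    (part i1 F).card + (part i2 F).card ≤ F.card := by
  have h1 : ((part i1 F).image (Sym2.map i1)).card = (part i1 F).card :=
    Finset.card_image_of_injective _ (Sym2.map.injective (fun a b h => i1_inj a b h))
  have h2 : ((part i2 F).image (Sym2.map i2)).card = (part i2 F).card :=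
    Finset.card_image_of_injective _ (Sym2.map.injective (fun a b h => i2_inj a b h))
  have hd : Disjoint ((part i1 F).image (Sym2.map i1)) ((part i2 F).image (Sym2.map i2)) := by
    rw [Finset.disjoint_left]
    intro z hz hz'
    rw [Finset.mem_image] at hz hz'
    obtain ⟨x, hx, rfl⟩ := hz
    obtain ⟨y, hy, he⟩ := hz'
    rw [part, Finset.mem_filter, List.mem_toFinset] at hx hy
    exact disj x hx.1 y hy.1 he.symm
  rw [← h1, ← h2, ← Finset.card_union_of_disjoint hd]
  apply Finset.card_le_card
  intro z hz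
  rw [Finset.mem_union, Finset.mem_image, Finset.mem_image] at hz
  rcases hz with ⟨x, hx, rfl⟩ | ⟨x, hx, rfl⟩
  · rw [part, Finset.mem_filter] at hx
    exact hx.2
  · rw [part, Finset.mem_filter] at hx
    exact hx.2

theorem part_not (i : Fin 9 → Fin 17) (F : Finset (Sym2 (Fin 17))) (u w : Fin 9)
    (h : hadj u w = true) (hn : s(u, w) ∉ part i F) : s(i u, i w) ∉ F := by
  intro hF
  apply hn
  rw [part, Finset.mem_filter, List.mem_toFinset]
  exact ⟨in_EL u w h, hF⟩

/-- Some set of five vertices survives the deletion of any four edges. -/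
theorem survive (F : Finset (Sym2 (Fin 17))) (hF : F.card ≤ 4) :
    ∃ D : List (Fin 17), D.length = 5 ∧
      ∀ v, v ∉ D → ∃ u ∈ D, adjb u v = true ∧ s(u, v) ∉ F := by
  have hc := part_card F
  by_cases h2 : (part i2 F).card ≤ 2
  · obtain ⟨D1, hD1, hs1⟩ := survive3 (part i1 F) (by omega)
    obtain ⟨D2, hD2, hs2⟩ := survive2 (part i2 F) h2
    refine ⟨D1.map i1 ++ D2.map i2, ?_, ?_⟩
    · rw [List.length_append, List.length_map, List.length_map, fam3_len D1 hD1, fam2_len D2 hD2]
    · intro v hv
      rw [List.mem_append, not_or, List.mem_map, List.mem_map] at hv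
      rcases cov1 v with ⟨w, rfl⟩ | ⟨w, hw, rfl⟩
      · obtain ⟨u, hu, ha, hn⟩ := hs1 w (fun h => hv.1 ⟨w, h, rfl⟩)
        exact ⟨i1 u, List.mem_append.mpr (Or.inl (List.mem_map.mpr ⟨u, hu, rfl⟩)),
          i1_adj u w ha, part_not i1 F u w ha hn⟩
      · obtain ⟨u, hu, ha, hn⟩ := hs2 w hw (fun h => hv.2 ⟨w, h, rfl⟩)
        exact ⟨i2 u, List.mem_append.mpr (Or.inr (List.mem_map.mpr ⟨u, hu, rfl⟩)),
          i2_adj u w ha, part_not i2 F u w ha hn⟩
  · obtain ⟨D1, hD1, hs1⟩ := survive2 (part i1 F) (by omega)
    obtain ⟨D2, hD2, hs2⟩ := survive3 (part i2 F) (by omega)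
    refine ⟨D1.map i1 ++ D2.map i2, ?_, ?_⟩
    · rw [List.length_append, List.length_map, List.length_map, fam2_len D1 hD1, fam3_len D2 hD2]
    · intro v hv
      rw [List.mem_append, not_or, List.mem_map, List.mem_map] at hv
      rcases cov2 v with ⟨w, hw, rfl⟩ | ⟨w, rfl⟩
      · obtain ⟨u, hu, ha, hn⟩ := hs1 w hw (fun h => hv.1 ⟨w, h, rfl⟩)
        exact ⟨i1 u, List.mem_append.mpr (Or.inl (List.mem_map.mpr ⟨u, hu, rfl⟩)),
          i1_adj u w ha, part_not i1 F u w ha hn⟩
      · obtain ⟨u, hu, ha, hn⟩ := hs2 w (fun h => hv.2 ⟨w, h, rfl⟩)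
        exact ⟨i2 u, List.mem_append.mpr (Or.inr (List.mem_map.mpr ⟨u, hu, rfl⟩)),
          i2_adj u w ha, part_not i2 F u w ha hn⟩

/-- Closed neighbourhoods as masks. -/
def nbt (a : Fin 17) : ℕ := ([1543, 59, 205, 174, 466, 362, 372, 412, 496, 14849, 52225, 44544, 119296, 92672, 95232, 105472, 126976] : List ℕ).getD a.val 0

theorem nbt_spec : ∀ a v : Fin 17, (nbt a).testBit v.val = (a == v || adjb a v) := by
  decide +kernel

/-- No four vertices dominate. -/
def chk4 : Bool :=
  (List.finRange 17).all fun a => (List.finRange 17).all fun b => (List.finRange 17).all fun c =>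
    (List.finRange 17).all fun d =>
      ((nbt a ||| nbt b ||| nbt c ||| nbt d) &&& 131071) != 131071

theorem chk4_true : chk4 = true := by decide +kernel

theorem full_of (m : ℕ) (h : ∀ i, i < 17 → m.testBit i = true) : m &&& 131071 = 131071 := by
  apply Nat.eq_of_testBit_eq
  intro i
  have h2 : (131071 : ℕ) = 2 ^ 17 - 1 := by norm_num
  rw [Nat.testBit_and, h2, Nat.testBit_two_pow_sub_one]
  by_cases hi : i < 17
  · rw [h i hi]
    simp [hi]
  · simp [hi]

theorem und (a b c d : Fin 17) : ∃ v : Fin 17, (a ≠ v ∧ adjb a v = false) ∧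
    (b ≠ v ∧ adjb b v = false) ∧ (c ≠ v ∧ adjb c v = false) ∧ (d ≠ v ∧ adjb d v = false) := by
  have h := chk4_true
  unfold chk4 at h
  rw [List.all_eq_true] at h
  have h := h a (List.mem_finRange a)
  rw [List.all_eq_true] at h
  have h := h b (List.mem_finRange b)
  rw [List.all_eq_true] at h
  have h := h c (List.mem_finRange c)
  rw [List.all_eq_true] at h
  have h := h d (List.mem_finRange d)
  by_contra hno
  push Not at hno
  have hfull := full_of (nbt a ||| nbt b ||| nbt c ||| nbt d) (fun i hi => by
    have e1 := nbt_spec a ⟨i, hi⟩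
    have e2 := nbt_spec b ⟨i, hi⟩
    have e3 := nbt_spec c ⟨i, hi⟩
    have e4 := nbt_spec d ⟨i, hi⟩
    simp only at e1 e2 e3 e4
    rw [Nat.testBit_or, Nat.testBit_or, Nat.testBit_or, e1, e2, e3, e4]
    by_contra hf
    simp only [Bool.not_eq_true, Bool.or_eq_false_iff, beq_eq_false_iff_ne] at hf
    obtain ⟨⟨⟨⟨a1, a2⟩, b1, b2⟩, c1, c2⟩, d1, d2⟩ := hf
    exact hno ⟨i, hi⟩ ⟨a1, a2⟩ ⟨b1, b2⟩ ⟨c1, c2⟩ d1 d2)
  rw [hfull] at h
  exact absurd h (by decide)

theorem five_le (D0 : Finset (Fin 17)) (h : ∀ v, v ∈ D0 ∨ ∃ u ∈ D0, G.Adj u v) :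
    5 ≤ D0.card := by
  by_contra hc
  have key : ∀ a b c d : Fin 17, (∀ x ∈ D0, x = a ∨ x = b ∨ x = c ∨ x = d) → False := by
    intro a b c d hx
    obtain ⟨v, ⟨a1, a2⟩, ⟨b1, b2⟩, ⟨c1, c2⟩, d1, d2⟩ := und a b c d
    rcases h v with hv | ⟨u, hu, hv⟩
    · rcases hx v hv with rfl | rfl | rfl | rfl
      · exact a1 rfl
      · exact b1 rfl
      · exact c1 rfl
      · exact d1 rfl
    · have hv' : adjb u v = true := hv
      rcases hx u hu with rfl | rfl | rfl | rfl
      · rw [a2] at hv'
        exact absurd hv' (by decide)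
      · rw [b2] at hv'
        exact absurd hv' (by decide)
      · rw [c2] at hv'
        exact absurd hv' (by decide)
      · rw [d2] at hv'
        exact absurd hv' (by decide)
  have hlen : D0.toList.length = D0.card := Finset.length_toList D0
  have hmem : ∀ x, x ∈ D0 ↔ x ∈ D0.toList := fun x => Finset.mem_toList.symm
  rcases hl : D0.toList with _ | ⟨a, _ | ⟨b, _ | ⟨c, _ | ⟨d, _ | ⟨e, l⟩⟩⟩⟩⟩
  · exact key 0 0 0 0 (fun x hx => by rw [hmem, hl] at hx; simp at hx)
  · exact key a a a a (fun x hx => by rw [hmem, hl] at hx; simp at hx; tauto)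
  · exact key a b a a (fun x hx => by rw [hmem, hl] at hx; simp at hx; tauto)
  · exact key a b c a (fun x hx => by rw [hmem, hl] at hx; simp at hx; tauto)
  · exact key a b c d (fun x hx => by rw [hmem, hl] at hx; simp at hx; tauto)
  · rw [hl] at hlen
    simp only [List.length_cons] at hlen
    omega

theorem par : ∀ v : Fin 17, v ≠ 0 → ∃ u : Fin 17, u < v ∧ adjb u v = true := by
  decide +kernel

theorem conn : G.Connected := by
  have hr : ∀ n (h : n < 17), G.Reachable 0 ⟨n, h⟩ := by
    intro n
    induction n using Nat.strong_induction_on with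
    | _ n ih =>
      intro h
      by_cases h0 : (⟨n, h⟩ : Fin 17) = 0
      · rw [h0]
      · obtain ⟨u, hu, ha⟩ := par ⟨n, h⟩ h0
        have h1 := ih u.val hu u.isLt
        have h2 : G.Adj u ⟨n, h⟩ := ha
        exact h1.trans h2.reachable
  exact (SimpleGraph.connected_iff_exists_forall_reachable G).mpr ⟨0, fun v => hr v.val v.isLt⟩

/-- The side of the cut vertex. -/
def side (v : Fin 17) : Bool := Nat.testBit 510 v.val

theorem side_eq : ∀ a b : Fin 17, a ≠ 0 → b ≠ 0 → adjb a b = true → side a = side b := by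
  decide +kernel

theorem deg : ∀ v, G.degree v ≤ 4 := by decide +kernel

/-- The negation of the preceding statement: For every finite connected graph G on at least 2 vertices, some set of at most Δ(G)+κ(G)−1 edges can be deleted so that the domination number strictly increases; that is, b(G) ≤ Δ(G)+κ(G)−1. -/
theorem result :
    ¬ (∀ (V : Type) [Fintype V] [DecidableEq V] (G : SimpleGraph V) [DecidableRel G.Adj],
      G.Connected → 2 ≤ Fintype.card V →
      ∀ S : Finset V,
        (¬ (G.induce ((↑S : Set V)ᶜ)).Connected ∨ Sᶜ.card ≤ 1) →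
        ∃ F : Finset (Sym2 V),
          (↑F : Set (Sym2 V)) ⊆ G.edgeSet ∧
          F.card + 1 ≤ G.maxDegree + S.card ∧
          ∃ D0 : Finset V,
            (∀ v : V, v ∈ D0 ∨ ∃ u ∈ D0, G.Adj u v) ∧
            ∀ D : Finset V,
              (∀ v : V, v ∈ D ∨ ∃ u ∈ D, (G.deleteEdges (↑F : Set (Sym2 V))).Adj u v) →
              D0.card < D.card) := by
  intro H
  obtain ⟨F, -, hF, D0, hD0, hD⟩ := H (Fin 17) G conn (by simp) {0} (Or.inl (by
    intro hc
    have hw : ∀ x y : (((({0} : Finset (Fin 17)) : Set (Fin 17))ᶜ : Set (Fin 17))),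
        (G.induce ((({0} : Finset (Fin 17)) : Set (Fin 17))ᶜ)).Walk x y →
          side x.val = side y.val := by
      intro x y w
      induction w with
      | nil => rfl
      | @cons a b c h _ ih =>
        have ha : a.val ≠ 0 := by
          have := a.property
          simpa using this
        have hb : b.val ≠ 0 := by
          have := b.property
          simpa using this
        exact (side_eq _ _ ha hb h).trans ih
    obtain ⟨w⟩ := hc.preconnected ⟨1, by simp⟩ ⟨10, by simp⟩
    have := hw _ _ w
    exact absurd this (by decide +kernel)))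
  have hdeg : G.maxDegree ≤ 4 := G.maxDegree_le_of_forall_degree_le 4 deg
  rw [Finset.card_singleton] at hF
  obtain ⟨D, hDf, hDs⟩ := survive F (by omega)
  have h1 := hD D.toFinset (by
    intro v
    by_cases hv : v ∈ D
    · exact Or.inl (List.mem_toFinset.mpr hv)
    · obtain ⟨u, hu, ha, hn⟩ := hDs v hv
      refine Or.inr ⟨u, List.mem_toFinset.mpr hu, ?_⟩
      rw [SimpleGraph.deleteEdges_adj]
      exact ⟨ha, fun h => hn h⟩)
  have h2 := five_le D0 hD0
  have h3 := List.toFinset_card_le D
  omega

end Pool.Agent.S07650
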