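import Pool.Statements.S07771
import Pool.Agent.H26.PS4
-- import your own Pool.Agent.* helpers here

set_option autoImplicit false
open Pool Pool.MP_ca0c4d_co

namespace Pool.Agent.S07771

/-- For every n, the polynomial summing z^(number of descents) over all parking functions of length n has only real roots, i.e. its number of real roots with multiplicity equals its degree. -/
theorem result :
    ∀ n : ℕ, ∀ p : Polynomial ℝ,
      p = ∑ f ∈ (Finset.univ : Finset (Fin n → Fin n)).filter
              (fun f => ∀ k : ℕ, k ≤ n →
                k ≤ (Finset.univ.filter (fun i : Fin n => (f i : ℕ) < k)).card),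
            (Polynomial.X : Polynomial ℝ) ^
              ((Finset.univ : Finset (Fin n × Fin n)).filter
                (fun q => q.2.val = q.1.val + 1 ∧ f q.2 < f q.1)).card →
      Multiset.card p.roots = p.natDegree := by
  intro n p hp
  rcases n with _ | m
  · have h1 : ∀ f : Fin 0 → Fin 0, (Finset.univ.filter (fun i : Fin 0 => (f i : ℕ) < 0)).card = 0 := by
      intro f; simp
    have h2 : p = 1 := by
      rw [hp, Finset.filter_true_of_mem]
      · simp
      · intro f _ k hk
        have : k = 0 := by omega
        subst this
        exact Nat.zero_le _
    rw [h2]; simp
  · exact H26.PS.final m p hp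

end Pool.Agent.S07771
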