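import Pool.Statements.S07838
import Pool.Agent.H16.PhiC

set_option autoImplicit false
open Pool Pool.MP_cde6cd_co

namespace Pool.Agent.S07838

/-- The negation of the preceding statement: For every finite abelian group G, the convex hull of the averages E over x1+x2+x3=g of f1(x2,x3)f2(x1,x3)f3(x1,x2), with complex f_i bounded by 1, equals the convex hull obtained when f3(x1,x2) is replaced by h(x1+x2). -/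
theorem result :
    ¬ (∀ (G : Type) [AddCommGroup G] [Fintype G],
      convexHull ℝ {φ : G → ℂ | ∃ f₁ f₂ f₃ : G → G → ℂ,
          (∀ a b, ‖f₁ a b‖ ≤ 1) ∧ (∀ a b, ‖f₂ a b‖ ≤ 1) ∧ (∀ a b, ‖f₃ a b‖ ≤ 1) ∧
          φ = fun g => ((Fintype.card G : ℂ) ^ 2)⁻¹ *
            ∑ x₁ : G, ∑ x₂ : G, f₁ x₂ (g - x₁ - x₂) * f₂ x₁ (g - x₁ - x₂) * f₃ x₁ x₂}
      = convexHull ℝ {φ : G → ℂ | ∃ f₁ f₂ : G → G → ℂ, ∃ h : G → ℂ,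
          (∀ a b, ‖f₁ a b‖ ≤ 1) ∧ (∀ a b, ‖f₂ a b‖ ≤ 1) ∧ (∀ a, ‖h a‖ ≤ 1) ∧
          φ = fun g => ((Fintype.card G : ℂ) ^ 2)⁻¹ *
            ∑ x₁ : G, ∑ x₂ : G, f₁ x₂ (g - x₁ - x₂) * f₂ x₁ (g - x₁ - x₂) * h (x₁ + x₂)}) := by
  intro H
  have H4 := H (Fin 4)
  have hmem := subset_convexHull ℝ {φ : Fin 4 → ℂ | ∃ f₁ f₂ f₃ : Fin 4 → Fin 4 → ℂ,
          (∀ a b, ‖f₁ a b‖ ≤ 1) ∧ (∀ a b, ‖f₂ a b‖ ≤ 1) ∧ (∀ a b, ‖f₃ a b‖ ≤ 1) ∧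
          φ = fun g => ((Fintype.card (Fin 4) : ℂ) ^ 2)⁻¹ *
            ∑ x₁ : Fin 4, ∑ x₂ : Fin 4, f₁ x₂ (g - x₁ - x₂) * f₂ x₁ (g - x₁ - x₂) * f₃ x₁ x₂}
    ⟨fun a b => (Pool.Agent.H16.Phi.tab Pool.Agent.H16.Phi.t1 a b : ℂ) / 1000,
     fun a b => (Pool.Agent.H16.Phi.tab Pool.Agent.H16.Phi.t2 a b : ℂ) / 1000,
     fun a b => (Pool.Agent.H16.Phi.tab Pool.Agent.H16.Phi.t3 a b : ℂ) / 1000,
     fun a b => Pool.Agent.H16.Phi.tab_le _ a b (Pool.Agent.H16.Phi.tab_norm a b).1,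
     fun a b => Pool.Agent.H16.Phi.tab_le _ a b (Pool.Agent.H16.Phi.tab_norm a b).2.1,
     fun a b => Pool.Agent.H16.Phi.tab_le _ a b (Pool.Agent.H16.Phi.tab_norm a b).2.2, rfl⟩
  rw [H4] at hmem
  have hsub := convexHull_min (𝕜 := ℝ) (s := {φ : Fin 4 → ℂ | ∃ f₁ f₂ : Fin 4 → Fin 4 → ℂ,
          ∃ h : Fin 4 → ℂ,
          (∀ a b, ‖f₁ a b‖ ≤ 1) ∧ (∀ a b, ‖f₂ a b‖ ≤ 1) ∧ (∀ a, ‖h a‖ ≤ 1) ∧
          φ = fun g => ((Fintype.card (Fin 4) : ℂ) ^ 2)⁻¹ *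
            ∑ x₁ : Fin 4, ∑ x₂ : Fin 4, f₁ x₂ (g - x₁ - x₂) * f₂ x₁ (g - x₁ - x₂) * h (x₁ + x₂)})
    (t := {φ : Fin 4 → ℂ | Pool.Agent.H16.Phi.ell φ ≤ 1135 / 100}) (by
      rintro φ ⟨f₁, f₂, h, h1, h2, hh, rfl⟩
      exact Pool.Agent.H16.Phi.ell_prime f₁ f₂ h h1 h2 hh)
    (convex_halfSpace_le Pool.Agent.H16.Phi.ell_linear _)
  have h1 : Pool.Agent.H16.Phi.ell _ ≤ 1135 / 100 := hsub hmem
  have h2 := Pool.Agent.H16.Phi.ell_big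
  linarith

end Pool.Agent.S07838
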