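import Pool.Statements.S07839
-- import your own Pool.Agent.* helpers here

set_option autoImplicit false
open Pool Pool.MP_cdedfe_co

namespace Pool.Agent.S07839

/-- For every 0<c<1 there are ε>0 and C>0 such that, for all large n, any n subsets of an n-element set each of size at least cn contain at least C√n of them whose pairwise intersections all exceed εn. -/
theorem result :
    ∀ c : ℝ, 0 < c → c < 1 →
      ∃ ε : ℝ, 0 < ε ∧ ∃ C : ℝ, 0 < C ∧ ∃ N : ℕ, ∀ n : ℕ, N ≤ n →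
        ∀ A : Fin n → Finset (Fin n), (∀ k, c * (n : ℝ) ≤ ((A k).card : ℝ)) →
          ∃ I : Finset (Fin n), C * Real.sqrt (n : ℝ) ≤ (I.card : ℝ) ∧
            ∀ i ∈ I, ∀ j ∈ I, i ≠ j → ε * (n : ℝ) < (((A i ∩ A j).card : ℕ) : ℝ) := by
  intro c hc0 hc1
  obtain ⟨N0, hN0⟩ := exists_nat_ge (2 / c ^ 6)
  refine ⟨c ^ 6, by positivity, 1 / 2, by norm_num, max N0 1, ?_⟩
  intro n hn A hA
  have hn1 : 1 ≤ n := le_trans (le_max_right _ _) hn
  have hnN : N0 ≤ n := le_trans (le_max_left _ _) hn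
  have hnR : (1 : ℝ) ≤ (n : ℝ) := by exact_mod_cast hn1
  have hn0 : (0 : ℝ) < (n : ℝ) := by linarith
  have hnbig : 2 / c ^ 6 ≤ (n : ℝ) := hN0.trans (by exact_mod_cast hnN)
  have hsq1 : 1 ≤ Real.sqrt n := by rw [Real.one_le_sqrt]; exact hnR
  have hsqsq : Real.sqrt n * Real.sqrt n = n := Real.mul_self_sqrt hn0.le
  -- choose the number of random points
  obtain ⟨r, hr1, hr2⟩ := exists_nat_pow_near hsq1 (one_lt_one_div hc0 hc1)
  have hcr : 0 < c ^ r := by positivity
  have h1 : 1 / Real.sqrt n ≤ c ^ r := by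
    rw [one_div_pow] at hr1
    rw [div_le_iff₀ hcr] at hr1
    rw [div_le_iff₀ (by linarith)]
    linarith
  have h2 : c ^ r * c * Real.sqrt n < 1 := by
    rw [one_div_pow, lt_div_iff₀ (by positivity)] at hr2
    rw [pow_succ] at hr2
    linarith
  -- counting
  let pts : Finset (Fin n) → Finset (Fin r → Fin n) := fun S => Fintype.piFinset (fun _ => S)
  have hpts : ∀ S : Finset (Fin n), ((pts S).card : ℝ) = (S.card : ℝ) ^ r := by
    intro S
    simp only [pts, Fintype.card_piFinset_const]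
    push_cast
    rfl
  let bad : Finset (Fin n × Fin n) :=
    Finset.univ.filter (fun p => p.1 ≠ p.2 ∧ (((A p.1 ∩ A p.2).card : ℕ) : ℝ) ≤ c ^ 6 * n)
  let X : (Fin r → Fin n) → Finset (Fin n) := fun s => Finset.univ.filter (fun i => s ∈ pts (A i))
  let Y : (Fin r → Fin n) → Finset (Fin n × Fin n) :=
    fun s => bad.filter (fun p => s ∈ pts (A p.1 ∩ A p.2))
  have hsumX : ∑ s : Fin r → Fin n, ((X s).card : ℝ) = ∑ i : Fin n, ((A i).card : ℝ) ^ r := by
    have : ∀ s : Fin r → Fin n, ((X s).card : ℝ) = ∑ i : Fin n, if s ∈ pts (A i) then (1 : ℝ) else 0 := by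
      intro s
      simp only [X]
      rw [Finset.card_filter]
      push_cast
      rfl
    simp_rw [this]
    rw [Finset.sum_comm]
    refine Finset.sum_congr rfl fun i _ => ?_
    rw [← hpts, ← Finset.sum_filter, Finset.sum_const, nsmul_eq_mul, mul_one]
    congr 2
    ext s
    simp
  have hsumY : ∑ s : Fin r → Fin n, ((Y s).card : ℝ) =
      ∑ p ∈ bad, ((A p.1 ∩ A p.2).card : ℝ) ^ r := by
    have : ∀ s : Fin r → Fin n, ((Y s).card : ℝ) =
        ∑ p ∈ bad, if s ∈ pts (A p.1 ∩ A p.2) then (1 : ℝ) else 0 := by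
      intro s
      simp only [Y]
      rw [Finset.card_filter]
      push_cast
      rfl
    simp_rw [this]
    rw [Finset.sum_comm]
    refine Finset.sum_congr rfl fun p _ => ?_
    rw [← hpts, ← Finset.sum_filter, Finset.sum_const, nsmul_eq_mul, mul_one]
    congr 2
    ext s
    simp
  have hX : (n : ℝ) * (c * n) ^ r ≤ ∑ s : Fin r → Fin n, ((X s).card : ℝ) := by
    rw [hsumX]
    calc (n : ℝ) * (c * n) ^ r = ∑ _i : Fin n, (c * (n : ℝ)) ^ r := by simp
      _ ≤ _ := Finset.sum_le_sum fun i _ => pow_le_pow_left₀ (by positivity) (hA i) r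
  have hY : ∑ s : Fin r → Fin n, ((Y s).card : ℝ) ≤ (n : ℝ) ^ 2 * (c ^ 6 * n) ^ r := by
    rw [hsumY]
    calc ∑ p ∈ bad, ((A p.1 ∩ A p.2).card : ℝ) ^ r ≤ ∑ _p ∈ bad, (c ^ 6 * (n : ℝ)) ^ r := by
          refine Finset.sum_le_sum fun p hp => pow_le_pow_left₀ (by positivity) ?_ r
          exact (Finset.mem_filter.1 hp).2.2
      _ = (bad.card : ℝ) * (c ^ 6 * (n : ℝ)) ^ r := by simp
      _ ≤ _ := by
          refine mul_le_mul_of_nonneg_right ?_ (by positivity)
          have : bad.card ≤ n ^ 2 := by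
            calc bad.card ≤ (Finset.univ : Finset (Fin n × Fin n)).card := Finset.card_filter_le _ _
              _ = n ^ 2 := by simp [pow_two]
          exact_mod_cast this
  -- numerical estimates
  have hε : (c ^ 6) ^ r * (n : ℝ) ^ 2 ≤ 1 / 2 := by
    have e : (c ^ 6) ^ r = (c ^ r) ^ 6 := by rw [← pow_mul, ← pow_mul, mul_comm]
    rw [e]
    have h3 : (c ^ r * c * Real.sqrt n) ^ 6 ≤ 1 := pow_le_one₀ (by positivity) h2.le
    have h4 : (c ^ r * c * Real.sqrt n) ^ 6 = (c ^ r) ^ 6 * c ^ 6 * (n : ℝ) ^ 3 := by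
      rw [mul_pow, mul_pow]
      congr 1
      calc Real.sqrt n ^ 6 = (Real.sqrt n * Real.sqrt n) ^ 3 := by ring
        _ = _ := by rw [hsqsq]
    rw [h4] at h3
    have h5 : 2 ≤ (n : ℝ) * c ^ 6 := by
      rw [div_le_iff₀ (by positivity)] at hnbig
      exact hnbig
    have h6 : 0 ≤ (c ^ r) ^ 6 * (n : ℝ) ^ 2 := by positivity
    nlinarith
  have hmain : (n : ℝ) * c ^ r ≥ Real.sqrt n := by
    have : Real.sqrt n = n * (1 / Real.sqrt n) := by
      rw [mul_one_div, eq_div_iff (by positivity)]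
      exact hsqsq
    calc Real.sqrt n = n * (1 / Real.sqrt n) := this
      _ ≤ n * c ^ r := mul_le_mul_of_nonneg_left h1 hn0.le
  obtain ⟨s, -, hs⟩ : ∃ s ∈ (Finset.univ : Finset (Fin r → Fin n)),
      Real.sqrt n / 2 ≤ ((X s).card : ℝ) - ((Y s).card : ℝ) := by
    refine Finset.exists_le_of_sum_le ?_ ?_
    · haveI : Nonempty (Fin n) := ⟨⟨0, by omega⟩⟩
      exact Finset.univ_nonempty
    · rw [Finset.sum_sub_distrib, Finset.sum_const, Finset.card_univ, Fintype.card_fun,
        Fintype.card_fin, Fintype.card_fin, nsmul_eq_mul]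
      push_cast
      have hnr : (0 : ℝ) < (n : ℝ) ^ r := by positivity
      have e1 : (n : ℝ) * (c * n) ^ r = (n : ℝ) ^ r * (n * c ^ r) := by rw [mul_pow]; ring
      have e2 : (n : ℝ) ^ 2 * (c ^ 6 * n) ^ r = (n : ℝ) ^ r * ((c ^ 6) ^ r * n ^ 2) := by
        rw [mul_pow]; ring
      have e3 : (n : ℝ) ^ r * (Real.sqrt n / 2) ≤
          (n : ℝ) ^ r * (n * c ^ r) - (n : ℝ) ^ r * ((c ^ 6) ^ r * n ^ 2) := by
        rw [← mul_sub]
        refine mul_le_mul_of_nonneg_left ?_ hnr.le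
        linarith
      linarith
  refine ⟨X s \ (Y s).image Prod.fst, ?_, ?_⟩
  · have hc1 : (X s).card ≤ (X s \ (Y s).image Prod.fst).card + (Y s).card := by
      have h := Finset.le_card_sdiff ((Y s).image Prod.fst) (X s)
      have h' : ((Y s).image Prod.fst).card ≤ (Y s).card := Finset.card_image_le
      omega
    have : ((X s).card : ℝ) ≤ ((X s \ (Y s).image Prod.fst).card : ℝ) + ((Y s).card : ℝ) := by
      exact_mod_cast hc1
    linarith
  · intro i hi j hj hij
    by_contra hno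
    push Not at hno
    rw [Finset.mem_sdiff] at hi hj
    apply hi.2
    rw [Finset.mem_image]
    refine ⟨(i, j), ?_, rfl⟩
    have hi1 := (Finset.mem_filter.1 hi.1).2
    have hj1 := (Finset.mem_filter.1 hj.1).2
    refine Finset.mem_filter.2 ⟨Finset.mem_filter.2 ⟨Finset.mem_univ _, hij, hno⟩, ?_⟩
    simp only [pts, Fintype.mem_piFinset, Finset.mem_inter] at hi1 hj1 ⊢
    exact fun l => ⟨hi1 l, hj1 l⟩

end Pool.Agent.S07839
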