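import Pool.Statements.S07998
import Pool.Agent.H16.Markov3b

set_option autoImplicit false
open Pool Pool.MP_d7b467_co

namespace Pool.Agent.S07998

open Pool.Agent.H16.Markov3

theorem same_refl (u : Tab) : Same u u := ⟨fun _ _ => rfl, fun _ _ => rfl, fun _ _ => rfl⟩

theorem sXY : Same X Y := by unfold Same; decide +kernel
theorem sXZ : Same X Z := by unfold Same; decide +kernel

def a : Tab := fun i j k => if i.val < 2 ∧ j.val < 2 then X i j k else 0
def b : Tab := fun i j k => if i.val < 2 ∧ j.val < 2 then Y i j k else 0
def c : Tab := fun i j k => if i.val < 2 ∧ j.val < 2 then 0 else X i j k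

theorem sab : Same a b := by unfold Same; decide +kernel

theorem hXac : X = a + c := by
  funext i j k
  simp only [a, c, Pi.add_apply]
  split_ifs <;> simp

theorem hYbc : Y = b + c := by
  have h : ∀ i j k : Fin 6, Y i j k = b i j k + c i j k := by decide +kernel
  funext i j k
  exact h i j k

theorem hdisjX : ∀ i j k, X i j k = 0 ∨ Z i j k = 0 := by decide +kernel
theorem hdisjY : ∀ i j k, Y i j k = 0 ∨ Z i j k = 0 := by decide +kernel

theorem ta : tot a = 4 := by unfold tot; decide +kernel
theorem tb : tot b = 4 := by unfold tot; decide +kernel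
theorem tX : tot X = 19 := by unfold tot; decide +kernel
theorem tY : tot Y = 19 := by unfold tot; decide +kernel

theorem fiber (w : Tab) (h : Same w X) : w = X ∨ w = Y ∨ w = Z := by
  obtain ⟨p, q, r, h1, h2⟩ := cls w h
  have : (p = 1 ∧ q = 0 ∧ r = 0) ∨ (p = 0 ∧ q = 1 ∧ r = 0) ∨ (p = 0 ∧ q = 0 ∧ r = 1) := by omega
  rcases this with ⟨rfl, rfl, rfl⟩ | ⟨rfl, rfl, rfl⟩ | ⟨rfl, rfl, rfl⟩
  · left; funext i j k; rw [h2]; ring
  · right; left; funext i j k; rw [h2]; ring
  · right; right; funext i j k; rw [h2]; ring

theorem uses {B : Finset Mov} (hB : MB B) :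
    (diff X Z ∈ B ∨ -diff X Z ∈ B) ∨ (diff Y Z ∈ B ∨ -diff Y Z ∈ B) := by
  by_contra hcon
  have key : ∀ w : Tab, Relation.ReflTransGen (Step B) X w → w = X ∨ w = Y := by
    intro w hw
    induction hw with
    | refl => exact Or.inl rfl
    | @tail y z _ hst ih =>
      have hyX : Same y X := by
        rcases ih with rfl | rfl
        · exact same_refl _
        · exact sXY.symm
      have hz := fiber z ((same_of_step hB.1 hst).symm.trans hyX)
      rcases hz with h | h | rfl
      · exact Or.inl h
      · exact Or.inr h
      · exfalso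
        apply hcon
        obtain ⟨m, hm, h⟩ := hst
        rcases ih with rfl | rfl
        · left
          rcases h with h | h
          · left
            have : diff X Z = m := by
              funext i j k; have := h i j k; simp only [diff]; omega
            rw [this]; exact hm
          · right
            have : -diff X Z = m := by
              funext i j k; have := h i j k; simp only [diff, Pi.neg_apply]; omega
            rw [this]; exact hm
        · right
          rcases h with h | h
          · left
            have : diff Y Z = m := by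
              funext i j k; have := h i j k; simp only [diff]; omega
            rw [this]; exact hm
          · right
            have : -diff Y Z = m := by
              funext i j k; have := h i j k; simp only [diff, Pi.neg_apply]; omega
            rw [this]; exact hm
  have h1 := key Z (hB.2 X Z sXZ)
  have n1 : Z 0 0 2 ≠ X 0 0 2 := by decide
  have n2 : Z 0 0 2 ≠ Y 0 0 2 := by decide
  rcases h1 with h1 | h1
  · exact n1 (by rw [h1])
  · exact n2 (by rw [h1])

theorem xv1 : diff X Z 0 0 0 = -1 := by decide
theorem xv2 : diff X Z 0 0 1 = 0 := by decide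
theorem yv1 : diff Y Z 0 0 0 = 0 := by decide
theorem yv2 : diff Y Z 0 0 1 = -1 := by decide

/-- The negation of the preceding statement: For all sizes I,J,K, any two minimal finite Markov bases of the no-3-way interaction model (moves with zero two-way margins connecting every fiber of nonnegative tables) coincide up to the signs of the moves. -/
theorem result :
    ¬ (∀ I J K : ℕ,
    ∀ IsMB : Finset (Fin I → Fin J → Fin K → ℤ) → Prop,
      (∀ B : Finset (Fin I → Fin J → Fin K → ℤ), IsMB B ↔
        ((∀ m ∈ B, (∀ i j, ∑ k, m i j k = 0) ∧ (∀ i k, ∑ j, m i j k = 0) ∧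
            (∀ j k, ∑ i, m i j k = 0)) ∧
          ∀ u v : Fin I → Fin J → Fin K → ℕ,
            (∀ i j, ∑ k, u i j k = ∑ k, v i j k) →
            (∀ i k, ∑ j, u i j k = ∑ j, v i j k) →
            (∀ j k, ∑ i, u i j k = ∑ i, v i j k) →
            Relation.ReflTransGen
              (fun w w' : Fin I → Fin J → Fin K → ℕ =>
                ∃ m ∈ B, (∀ i j k, (w' i j k : ℤ) = (w i j k : ℤ) + m i j k) ∨
                  (∀ i j k, (w' i j k : ℤ) = (w i j k : ℤ) - m i j k))
              u v)) →
    ∀ B B' : Finset (Fin I → Fin J → Fin K → ℤ),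
      (IsMB B ∧ ∀ C, C ⊂ B → ¬ IsMB C) →
      (IsMB B' ∧ ∀ C, C ⊂ B' → ¬ IsMB C) →
      ∀ m : Fin I → Fin J → Fin K → ℤ, (m ∈ B ∨ -m ∈ B) ↔ (m ∈ B' ∨ -m ∈ B')) := by
  intro H
  classical
  have H6 := H 6 6 6 MB (fun B => ⟨fun h => ⟨h.1, fun u v h1 h2 h3 => h.2 u v ⟨h1, h2, h3⟩⟩,
    fun h => ⟨h.1, fun u v s => h.2 u v s.1 s.2.1 s.2.2⟩⟩)
  obtain ⟨B0, hB0⟩ := exists_MB
  obtain ⟨B, -, hB, hBmin⟩ := exists_min hB0
  rcases uses hB with hu | hu
  · have hB' := exchange hB sXY sXZ hXac hYbc sab (by rw [ta, tX]; norm_num) hdisjX
    obtain ⟨C, hCB, hC, hCmin⟩ := exists_min hB'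
    have hh := (H6 B C ⟨hB, hBmin⟩ ⟨hC, hCmin⟩ (diff X Z)).1 hu
    rcases hh with hh | hh
    · have := hCB hh
      rw [Finset.mem_insert, Finset.mem_filter] at this
      rcases this with this | this
      · have e := congrFun (congrFun (congrFun this 0) 0) 0
        rw [xv1, yv1] at e; norm_num at e
      · exact this.2.1 rfl
    · have := hCB hh
      rw [Finset.mem_insert, Finset.mem_filter] at this
      rcases this with this | this
      · have e := congrFun (congrFun (congrFun this 0) 0) 1
        simp only [Pi.neg_apply] at e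
        rw [xv2, yv2] at e; norm_num at e
      · exact this.2.2 rfl
  · have hB' := exchange hB sXY.symm (sXY.symm.trans sXZ) hYbc hXac sab.symm (by rw [tb, tY]; norm_num) hdisjY
    obtain ⟨C, hCB, hC, hCmin⟩ := exists_min hB'
    have hh := (H6 B C ⟨hB, hBmin⟩ ⟨hC, hCmin⟩ (diff Y Z)).1 hu
    rcases hh with hh | hh
    · have := hCB hh
      rw [Finset.mem_insert, Finset.mem_filter] at this
      rcases this with this | this
      · have e := congrFun (congrFun (congrFun this 0) 0) 0
        rw [xv1, yv1] at e; norm_num at e
      · exact this.2.1 rfl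
    · have := hCB hh
      rw [Finset.mem_insert, Finset.mem_filter] at this
      rcases this with this | this
      · have e := congrFun (congrFun (congrFun this 0) 0) 0
        simp only [Pi.neg_apply] at e
        rw [xv1, yv1] at e; norm_num at e
      · exact this.2.2 rfl

end Pool.Agent.S07998
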