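import Pool.Statements.S08030
-- import your own Pool.Agent.* helpers here

set_option autoImplicit false
open Pool Pool.MP_d96576_co

namespace Pool.Agent.S08030

/-- the chart functional and the chart of the projective plane used below -/
def f (a : ℝ × ℝ × ℝ) : ℝ := a.1 + 2 * a.2.1 + 4 * a.2.2
noncomputable def pr (a : ℝ × ℝ × ℝ) : ℝ × ℝ := (a.1 / f a, a.2.1 / f a)
def det (a b c : ℝ × ℝ × ℝ) : ℝ :=
  a.1 * (b.2.1 * c.2.2 - b.2.2 * c.2.1) - a.2.1 * (b.1 * c.2.2 - b.2.2 * c.1)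
    + a.2.2 * (b.1 * c.2.1 - b.2.1 * c.1)

theorem col {a b c : ℝ × ℝ × ℝ} (ha : f a ≠ 0) (hb : f b ≠ 0) (hc : f c ≠ 0)
    (h : det a b c = 0) :
    ((pr c).1 - (pr a).1) * ((pr b).2 - (pr a).2) = ((pr c).2 - (pr a).2) * ((pr b).1 - (pr a).1) := by
  have e : ((pr c).1 - (pr a).1) * ((pr b).2 - (pr a).2) - ((pr c).2 - (pr a).2) * ((pr b).1 - (pr a).1)
      = - 4 * det a b c / (f a * f b * f c) := by
    simp only [pr]
    field_simp
    simp only [f, det]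
    ring
  rw [h] at e
  simp at e
  linarith

theorem minors {a b : ℝ × ℝ × ℝ} (ha : f a ≠ 0) (hb : f b ≠ 0) (h : pr a = pr b) :
    a.1 * b.2.1 = a.2.1 * b.1 ∧ a.1 * b.2.2 = a.2.2 * b.1 ∧ a.2.1 * b.2.2 = a.2.2 * b.2.1 := by
  have h1 : a.1 / f a = b.1 / f b := congrArg Prod.fst h
  have h2 : a.2.1 / f a = b.2.1 / f b := congrArg Prod.snd h
  rw [div_eq_div_iff ha hb] at h1 h2
  have m1 : (a.1 * b.2.1 - a.2.1 * b.1) * f b = 0 := by linear_combination b.2.1 * h1 - b.1 * h2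
  have m1' : a.1 * b.2.1 - a.2.1 * b.1 = 0 := by
    rcases mul_eq_zero.1 m1 with h | h
    · exact h
    · exact absurd h hb
  have h1' := h1
  have h2' := h2
  simp only [f] at h1' h2'
  refine ⟨by linarith, by linarith, ?_⟩
  linarith

theorem omiss (X : Finset (ℝ × ℝ)) (x : ℝ × ℝ)
    (h : ∀ b ∈ X, b ≠ x → ∃ c ∈ X, c ≠ x ∧ c ≠ b ∧
      (c.1 - x.1) * (b.2 - x.2) = (c.2 - x.2) * (b.1 - x.1)) :
    {L : AffineSubspace ℝ (ℝ × ℝ) |
                  ∃ a ∈ X, ∃ b ∈ X, a ≠ b ∧ L = affineSpan ℝ ({a, b} : Set (ℝ × ℝ))} =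
              {L : AffineSubspace ℝ (ℝ × ℝ) |
                  ∃ a ∈ X.erase x, ∃ b ∈ X.erase x, a ≠ b ∧
                    L = affineSpan ℝ ({a, b} : Set (ℝ × ℝ))} := by
  have key : ∀ b ∈ X, b ≠ x → ∃ a' ∈ X.erase x, ∃ b' ∈ X.erase x, a' ≠ b' ∧
      line[ℝ, x, b] = affineSpan ℝ ({a', b'} : Set (ℝ × ℝ)) := by
    intro b hb hbx
    obtain ⟨c, hc, hcx, hcb, hdet⟩ := h b hb hbx
    have hcm : c ∈ line[ℝ, x, b] := by
      suffices hs : ∃ r : ℝ, AffineMap.lineMap x b r = c by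
        obtain ⟨r, hr⟩ := hs
        rw [← hr]
        exact AffineMap.lineMap_mem_affineSpan_pair _ _ _
      by_cases h1 : b.1 - x.1 = 0
      · have h2 : b.2 - x.2 ≠ 0 := by
          intro h2; apply hbx; ext
          · linarith
          · linarith
        refine ⟨(c.2 - x.2) / (b.2 - x.2), ?_⟩
        rw [h1, mul_zero] at hdet
        have h3 : c.1 - x.1 = 0 := by
          rcases mul_eq_zero.1 hdet with h | h
          · exact h
          · exact absurd h h2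
        ext
        · simp [AffineMap.lineMap_apply]; rw [h1]; simp; linarith
        · simp [AffineMap.lineMap_apply]; field_simp; ring
      · refine ⟨(c.1 - x.1) / (b.1 - x.1), ?_⟩
        ext
        · simp [AffineMap.lineMap_apply]; field_simp; ring
        · simp [AffineMap.lineMap_apply]
          have : (c.1 - x.1) / (b.1 - x.1) * (b.2 - x.2) = c.2 - x.2 := by
            rw [div_mul_eq_mul_div, hdet]; field_simp
          linarith
    have hxm : x ∈ line[ℝ, b, c] := by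
      have h1 : Collinear ℝ ({x, b, c} : Set (ℝ × ℝ)) := by
        have := collinear_insert_of_mem_affineSpan_pair hcm
        have e : ({x, b, c} : Set (ℝ × ℝ)) = {c, x, b} := by
          ext y; simp; tauto
        rw [e]; exact this
      have := Collinear.mem_affineSpan_of_mem_of_ne (p₁ := b) (p₂ := c) (p₃ := x) h1
        (by simp) (by simp) (by simp) hcb.symm
      exact this
    refine ⟨b, Finset.mem_erase.2 ⟨hbx, hb⟩, c, Finset.mem_erase.2 ⟨hcx, hc⟩, hcb.symm, ?_⟩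
    apply le_antisymm
    · apply affineSpan_pair_le_of_mem_of_mem hxm (left_mem_affineSpan_pair ℝ b c)
    · apply affineSpan_pair_le_of_mem_of_mem (right_mem_affineSpan_pair ℝ x b) hcm
  ext L
  constructor
  · rintro ⟨a, ha, b, hb, hab, rfl⟩
    by_cases hax : a = x
    · subst hax
      exact key b hb (Ne.symm hab)
    · by_cases hbx : b = x
      · subst hbx
        obtain ⟨a', ha', b', hb', hne, he⟩ := key a ha hax
        refine ⟨a', ha', b', hb', hne, ?_⟩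
        rw [← he, Set.pair_comm]
      · exact ⟨a, Finset.mem_erase.2 ⟨hax, ha⟩, b, Finset.mem_erase.2 ⟨hbx, hb⟩, hab, rfl⟩
  · rintro ⟨a, ha, b, hb, hab, rfl⟩
    exact ⟨a, Finset.mem_of_mem_erase ha, b, Finset.mem_of_mem_erase hb, hab, rfl⟩

/-- `a`, `b` are not proportional -/
def NP (a b : ℝ × ℝ × ℝ) : Prop :=
  ¬ (a.1 * b.2.1 = a.2.1 * b.1 ∧ a.1 * b.2.2 = a.2.2 * b.1 ∧ a.2.1 * b.2.2 = a.2.2 * b.2.1)

theorem pick {X : Finset (ℝ × ℝ)} {x b : ℝ × ℝ × ℝ} (c : ℝ × ℝ × ℝ) (hc : pr c ∈ X) (fx : f x ≠ 0)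
    (fb : f b ≠ 0) (fc : f c ≠ 0) (hd : det x b c = 0) (h1 : NP c x) (h2 : NP c b) :
    ∃ c' ∈ X, c' ≠ pr x ∧ c' ≠ pr b ∧
      (c'.1 - (pr x).1) * ((pr b).2 - (pr x).2) = (c'.2 - (pr x).2) * ((pr b).1 - (pr x).1) :=
  ⟨pr c, hc, fun h => h1 (minors fc fx h), fun h => h2 (minors fc fb h), col fx fb fc hd⟩

noncomputable def S (r : ℕ) : Finset ℝ :=
  {-1, 2, 2⁻¹} ∪ (Finset.range r).image (fun i : ℕ => (i : ℝ) + 3) ∪
    (Finset.range r).image (fun i : ℕ => ((i : ℝ) + 3)⁻¹)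

theorem S_prop {r : ℕ} {s : ℝ} (h : s ∈ S r) : (s = -1 ∨ 0 < s) ∧ s ≠ 1 ∧ s ≠ 0 ∧ s⁻¹ ∈ S r := by
  unfold S at h ⊢
  simp only [Finset.mem_union, Finset.mem_insert, Finset.mem_singleton, Finset.mem_image,
    Finset.mem_range] at h ⊢
  rcases h with ((rfl | rfl | rfl) | ⟨i, hi, rfl⟩) | ⟨i, hi, rfl⟩
  · norm_num
  · norm_num
  · norm_num
  · have hpos : (0 : ℝ) < (i : ℝ) + 3 := by positivity
    refine ⟨Or.inr hpos, ?_, hpos.ne', Or.inr ⟨i, hi, rfl⟩⟩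
    have : (0 : ℝ) ≤ i := Nat.cast_nonneg i
    intro h; linarith
  · have hpos : (0 : ℝ) < (i : ℝ) + 3 := by positivity
    refine ⟨Or.inr (by positivity), ?_, by positivity, Or.inl (Or.inr ⟨i, hi, by rw [inv_inv]⟩)⟩
    have : (0 : ℝ) ≤ i := Nat.cast_nonneg i
    intro h; rw [inv_eq_one] at h; linarith

noncomputable def X (r : ℕ) : Finset (ℝ × ℝ) :=
  {pr (1,0,0), pr (0,1,0), pr (0,0,1), pr (1,1,1), pr (1,-1,0), pr (2,0,1), pr (0,2,1)} ∪
    (S r).image (fun s => pr (s,1,1)) ∪ (S r).image (fun s => pr (1,s,1)) ∪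
    (S r).image (fun s => pr (1,1,s))

theorem mX1 (r : ℕ) : pr (1,0,0) ∈ X r := by simp [X]
theorem mX2 (r : ℕ) : pr (0,1,0) ∈ X r := by simp [X]
theorem mX3 (r : ℕ) : pr (0,0,1) ∈ X r := by simp [X]
theorem mX4 (r : ℕ) : pr (1,1,1) ∈ X r := by simp [X]
theorem mX5 (r : ℕ) : pr (1,-1,0) ∈ X r := by simp [X]
theorem mX6 (r : ℕ) : pr (2,0,1) ∈ X r := by simp [X]
theorem mX7 (r : ℕ) : pr (0,2,1) ∈ X r := by simp [X]
theorem mXa {r : ℕ} {s : ℝ} (h : s ∈ S r) : pr (s,1,1) ∈ X r := by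
  simp only [X, Finset.mem_union]
  exact Or.inl (Or.inl (Or.inr (Finset.mem_image_of_mem (fun s => pr (s,1,1)) h)))
theorem mXb {r : ℕ} {s : ℝ} (h : s ∈ S r) : pr (1,s,1) ∈ X r := by
  simp only [X, Finset.mem_union]
  exact Or.inl (Or.inr (Finset.mem_image_of_mem (fun s => pr (1,s,1)) h))
theorem mXc {r : ℕ} {s : ℝ} (h : s ∈ S r) : pr (1,1,s) ∈ X r := by
  simp only [X, Finset.mem_union]
  exact Or.inr (Finset.mem_image_of_mem (fun s => pr (1,1,s)) h)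

theorem cases_X {r : ℕ} {b : ℝ × ℝ} (h : b ∈ X r) :
    b = pr (1,0,0) ∨ b = pr (0,1,0) ∨ b = pr (0,0,1) ∨ b = pr (1,1,1) ∨ b = pr (1,-1,0) ∨
    b = pr (2,0,1) ∨ b = pr (0,2,1) ∨ (∃ s ∈ S r, b = pr (s,1,1)) ∨ (∃ s ∈ S r, b = pr (1,s,1)) ∨
    (∃ s ∈ S r, b = pr (1,1,s)) := by
  simp only [X, Finset.mem_union, Finset.mem_insert, Finset.mem_singleton, Finset.mem_image] at h
  rcases h with (((h | h | h | h | h | h | h) | ⟨s, hs, h⟩) | ⟨s, hs, h⟩) | ⟨s, hs, h⟩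
  · simp [h]
  · simp [h]
  · simp [h]
  · simp [h]
  · simp [h]
  · simp [h]
  · simp [h]
  · exact Or.inr (Or.inr (Or.inr (Or.inr (Or.inr (Or.inr (Or.inr (Or.inl ⟨s, hs, h.symm⟩)))))))
  · exact Or.inr (Or.inr (Or.inr (Or.inr (Or.inr (Or.inr (Or.inr (Or.inr (Or.inl ⟨s, hs, h.symm⟩))))))))
  · exact Or.inr (Or.inr (Or.inr (Or.inr (Or.inr (Or.inr (Or.inr (Or.inr (Or.inr ⟨s, hs, h.symm⟩))))))))

theorem two_mem (r : ℕ) : (2 : ℝ) ∈ S r := by simp [S]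
theorem neg_mem (r : ℕ) : (-1 : ℝ) ∈ S r := by simp [S]

theorem fa {r : ℕ} {s : ℝ} (h : s ∈ S r) : f (s,1,1) ≠ 0 := by
  obtain ⟨h1, -⟩ := S_prop h
  simp only [f]; rcases h1 with rfl | h1
  · norm_num
  · positivity
theorem fb {r : ℕ} {s : ℝ} (h : s ∈ S r) : f (1,s,1) ≠ 0 := by
  obtain ⟨h1, -⟩ := S_prop h
  simp only [f]; rcases h1 with rfl | h1
  · norm_num
  · positivity
theorem fc {r : ℕ} {s : ℝ} (h : s ∈ S r) : f (1,1,s) ≠ 0 := by
  obtain ⟨h1, -⟩ := S_prop h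
  simp only [f]; rcases h1 with rfl | h1
  · norm_num
  · positivity
theorem f1 : f (1,0,0) ≠ 0 := by norm_num [f]
theorem f2 : f (0,1,0) ≠ 0 := by norm_num [f]
theorem f3 : f (0,0,1) ≠ 0 := by norm_num [f]
theorem f4 : f (1,1,1) ≠ 0 := by norm_num [f]
theorem f5 : f (1,-1,0) ≠ 0 := by norm_num [f]
theorem f6 : f (2,0,1) ≠ 0 := by norm_num [f]
theorem f7 : f (0,2,1) ≠ 0 := by norm_num [f]

theorem om1 (r : ℕ) : ∀ b ∈ X r, b ≠ pr (1,0,0) → ∃ c ∈ X r, c ≠ pr (1,0,0) ∧ c ≠ b ∧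
      (c.1 - (pr (1,0,0)).1) * (b.2 - (pr (1,0,0)).2) = (c.2 - (pr (1,0,0)).2) * (b.1 - (pr (1,0,0)).1) := by
  intro b hb hne
  rcases cases_X hb with rfl | rfl | rfl | rfl | rfl | rfl | rfl | ⟨s, hs, rfl⟩ | ⟨s, hs, rfl⟩ | ⟨s, hs, rfl⟩
  · exact absurd rfl hne
  · exact pick (1,-1,0) (mX5 r) f1 f2 f5 (by norm_num [det]) (by norm_num [NP]) (by norm_num [NP])
  · exact pick (2,0,1) (mX6 r) f1 f3 f6 (by norm_num [det]) (by norm_num [NP]) (by norm_num [NP])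
  · exact pick (2,1,1) (mXa (two_mem r)) f1 f4 (fa (two_mem r)) (by norm_num [det]) (by norm_num [NP]) (by norm_num [NP])
  · exact pick (0,1,0) (mX2 r) f1 f5 f2 (by norm_num [det]) (by norm_num [NP]) (by norm_num [NP])
  · exact pick (0,0,1) (mX3 r) f1 f6 f3 (by norm_num [det]) (by norm_num [NP]) (by norm_num [NP])
  · exact pick (1,2,1) (mXb (two_mem r)) f1 f7 (fb (two_mem r)) (by norm_num [det]) (by norm_num [NP]) (by norm_num [NP])
  · obtain ⟨-, h1, h0, hi⟩ := S_prop hs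
    exact pick (1,1,1) (mX4 r) f1 (fa hs) f4 (by norm_num [det]) (by norm_num [NP])
      (by simp only [NP]; rintro ⟨h, -, -⟩; apply h1; linarith)
  · obtain ⟨-, h1, h0, hi⟩ := S_prop hs
    exact pick (1,1,s⁻¹) (mXc hi) f1 (fb hs) (fc hi) (by simp [det, h0]) (by norm_num [NP])
      (by simp only [NP]; rintro ⟨h, -, -⟩; apply h1; linarith)
  · obtain ⟨-, h1, h0, hi⟩ := S_prop hs
    exact pick (1,s⁻¹,1) (mXb hi) f1 (fc hs) (fb hi) (by simp [det, h0]) (by simp [NP, h0])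
      (by simp only [NP]; rintro ⟨-, h, -⟩; apply h1; linarith)

theorem om2 (r : ℕ) : ∀ b ∈ X r, b ≠ pr (0,1,0) → ∃ c ∈ X r, c ≠ pr (0,1,0) ∧ c ≠ b ∧
      (c.1 - (pr (0,1,0)).1) * (b.2 - (pr (0,1,0)).2) = (c.2 - (pr (0,1,0)).2) * (b.1 - (pr (0,1,0)).1) := by
  intro b hb hne
  rcases cases_X hb with rfl | rfl | rfl | rfl | rfl | rfl | rfl | ⟨s, hs, rfl⟩ | ⟨s, hs, rfl⟩ | ⟨s, hs, rfl⟩
  · exact pick (1,-1,0) (mX5 r) f2 f1 f5 (by norm_num [det]) (by norm_num [NP]) (by norm_num [NP])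
  · exact absurd rfl hne
  · exact pick (0,2,1) (mX7 r) f2 f3 f7 (by norm_num [det]) (by norm_num [NP]) (by norm_num [NP])
  · exact pick (1,2,1) (mXb (two_mem r)) f2 f4 (fb (two_mem r)) (by norm_num [det]) (by norm_num [NP]) (by norm_num [NP])
  · exact pick (1,0,0) (mX1 r) f2 f5 f1 (by norm_num [det]) (by norm_num [NP]) (by norm_num [NP])
  · exact pick (2,1,1) (mXa (two_mem r)) f2 f6 (fa (two_mem r)) (by norm_num [det]) (by norm_num [NP]) (by norm_num [NP])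
  · exact pick (0,0,1) (mX3 r) f2 f7 f3 (by norm_num [det]) (by norm_num [NP]) (by norm_num [NP])
  · obtain ⟨-, h1, h0, hi⟩ := S_prop hs
    exact pick (1,1,s⁻¹) (mXc hi) f2 (fa hs) (fc hi) (by simp [det, h0]) (by norm_num [NP])
      (by simp only [NP]; rintro ⟨h, -, -⟩; apply h1; linarith)
  · obtain ⟨-, h1, h0, hi⟩ := S_prop hs
    exact pick (1,1,1) (mX4 r) f2 (fb hs) f4 (by norm_num [det]) (by norm_num [NP])
      (by simp only [NP]; rintro ⟨h, -, -⟩; apply h1; linarith)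
  · obtain ⟨-, h1, h0, hi⟩ := S_prop hs
    exact pick (s⁻¹,1,1) (mXa hi) f2 (fc hs) (fa hi) (by simp [det, h0]) (by simp [NP, h0])
      (by simp only [NP]; rintro ⟨-, -, h⟩; apply h1; linarith)

theorem om3 (r : ℕ) : ∀ b ∈ X r, b ≠ pr (0,0,1) → ∃ c ∈ X r, c ≠ pr (0,0,1) ∧ c ≠ b ∧
      (c.1 - (pr (0,0,1)).1) * (b.2 - (pr (0,0,1)).2) = (c.2 - (pr (0,0,1)).2) * (b.1 - (pr (0,0,1)).1) := by
  intro b hb hne
  rcases cases_X hb with rfl | rfl | rfl | rfl | rfl | rfl | rfl | ⟨s, hs, rfl⟩ | ⟨s, hs, rfl⟩ | ⟨s, hs, rfl⟩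
  · exact pick (2,0,1) (mX6 r) f3 f1 f6 (by norm_num [det]) (by norm_num [NP]) (by norm_num [NP])
  · exact pick (0,2,1) (mX7 r) f3 f2 f7 (by norm_num [det]) (by norm_num [NP]) (by norm_num [NP])
  · exact absurd rfl hne
  · exact pick (1,1,2) (mXc (two_mem r)) f3 f4 (fc (two_mem r)) (by norm_num [det]) (by norm_num [NP]) (by norm_num [NP])
  · exact pick (1,-1,1) (mXb (neg_mem r)) f3 f5 (fb (neg_mem r)) (by norm_num [det]) (by norm_num [NP]) (by norm_num [NP])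
  · exact pick (1,0,0) (mX1 r) f3 f6 f1 (by norm_num [det]) (by norm_num [NP]) (by norm_num [NP])
  · exact pick (0,1,0) (mX2 r) f3 f7 f2 (by norm_num [det]) (by norm_num [NP]) (by norm_num [NP])
  · obtain ⟨-, h1, h0, hi⟩ := S_prop hs
    exact pick (1,s⁻¹,1) (mXb hi) f3 (fa hs) (fb hi) (by simp [det, h0]) (by norm_num [NP])
      (by simp only [NP]; rintro ⟨-, h, -⟩; apply h1; linarith)
  · obtain ⟨-, h1, h0, hi⟩ := S_prop hs
    exact pick (s⁻¹,1,1) (mXa hi) f3 (fb hs) (fa hi) (by simp [det, h0]) (by simp [NP, h0])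
      (by simp only [NP]; rintro ⟨-, -, h⟩; apply h1; linarith)
  · obtain ⟨-, h1, h0, hi⟩ := S_prop hs
    exact pick (1,1,1) (mX4 r) f3 (fc hs) f4 (by norm_num [det]) (by norm_num [NP])
      (by simp only [NP]; rintro ⟨-, h, -⟩; apply h1; linarith)

theorem om4 (r : ℕ) : ∀ b ∈ X r, b ≠ pr (1,1,1) → ∃ c ∈ X r, c ≠ pr (1,1,1) ∧ c ≠ b ∧
      (c.1 - (pr (1,1,1)).1) * (b.2 - (pr (1,1,1)).2) = (c.2 - (pr (1,1,1)).2) * (b.1 - (pr (1,1,1)).1) := by
  intro b hb hne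
  rcases cases_X hb with rfl | rfl | rfl | rfl | rfl | rfl | rfl | ⟨s, hs, rfl⟩ | ⟨s, hs, rfl⟩ | ⟨s, hs, rfl⟩
  · exact pick (2,1,1) (mXa (two_mem r)) f4 f1 (fa (two_mem r)) (by norm_num [det]) (by norm_num [NP]) (by norm_num [NP])
  · exact pick (1,2,1) (mXb (two_mem r)) f4 f2 (fb (two_mem r)) (by norm_num [det]) (by norm_num [NP]) (by norm_num [NP])
  · exact pick (1,1,2) (mXc (two_mem r)) f4 f3 (fc (two_mem r)) (by norm_num [det]) (by norm_num [NP]) (by norm_num [NP])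
  · exact absurd rfl hne
  · exact pick (2,0,1) (mX6 r) f4 f5 f6 (by norm_num [det]) (by norm_num [NP]) (by norm_num [NP])
  · exact pick (1,-1,0) (mX5 r) f4 f6 f5 (by norm_num [det]) (by norm_num [NP]) (by norm_num [NP])
  · exact pick (1,-1,0) (mX5 r) f4 f7 f5 (by norm_num [det]) (by norm_num [NP]) (by norm_num [NP])
  · obtain ⟨-, h1, h0, hi⟩ := S_prop hs
    exact pick (1,0,0) (mX1 r) f4 (fa hs) f1 (by norm_num [det]) (by norm_num [NP]) (by norm_num [NP])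
  · obtain ⟨-, h1, h0, hi⟩ := S_prop hs
    exact pick (0,1,0) (mX2 r) f4 (fb hs) f2 (by norm_num [det]) (by norm_num [NP]) (by norm_num [NP])
  · obtain ⟨-, h1, h0, hi⟩ := S_prop hs
    exact pick (0,0,1) (mX3 r) f4 (fc hs) f3 (by norm_num [det]) (by norm_num [NP]) (by norm_num [NP])

theorem card_X (r : ℕ) : r ≤ (X r).card := by
  have h := Finset.card_le_card_of_injOn (s := Finset.range r) (t := X r)
    (fun i : ℕ => pr ((i : ℝ) + 3, 1, 1)) ?_ ?_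
  · simpa using h
  · intro i hi
    apply mXa
    simp only [S, Finset.mem_union, Finset.mem_image, Finset.mem_range]
    exact Or.inl (Or.inr ⟨i, by simpa using hi, rfl⟩)
  · intro i _ j _ hij
    have hf : ∀ k : ℕ, f ((k : ℝ) + 3, 1, 1) ≠ 0 := by
      intro k; simp only [f]; positivity
    have := (minors (hf i) (hf j) hij).1
    simp at this
    exact_mod_cast this

theorem noncol {T : Set (ℝ × ℝ)} (h : Collinear ℝ T) {a b c : ℝ × ℝ} (ha : a ∈ T) (hb : b ∈ T)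
    (hc : c ∈ T) : (b.1 - a.1) * (c.2 - a.2) = (c.1 - a.1) * (b.2 - a.2) := by
  rw [collinear_iff_of_mem ha] at h
  obtain ⟨v, hv⟩ := h
  obtain ⟨t, ht⟩ := hv b hb
  obtain ⟨u, hu⟩ := hv c hc
  rw [ht, hu]
  simp
  ring

/-- The negation of the preceding statement: There is N such that for every finite planar point set X with at least N points, the points x of X whose removal leaves the set of lines spanned by X unchanged are all collinear, except possibly one of them. -/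
theorem result :
    ¬ (∃ N : ℕ, ∀ X : Finset (ℝ × ℝ), N ≤ X.card →
      ∃ p : ℝ × ℝ,
        Collinear ℝ
          ({x : ℝ × ℝ | x ∈ X ∧
              {L : AffineSubspace ℝ (ℝ × ℝ) |
                  ∃ a ∈ X, ∃ b ∈ X, a ≠ b ∧ L = affineSpan ℝ ({a, b} : Set (ℝ × ℝ))} =
              {L : AffineSubspace ℝ (ℝ × ℝ) |
                  ∃ a ∈ X.erase x, ∃ b ∈ X.erase x, a ≠ b ∧
                    L = affineSpan ℝ ({a, b} : Set (ℝ × ℝ))}} \ {p})) := by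
  rintro ⟨N, hN⟩
  obtain ⟨p, hp⟩ := hN (X N) (card_X N)
  have m1 := And.intro (mX1 N) (omiss (X N) _ (om1 N))
  have m2 := And.intro (mX2 N) (omiss (X N) _ (om2 N))
  have m3 := And.intro (mX3 N) (omiss (X N) _ (om3 N))
  have m4 := And.intro (mX4 N) (omiss (X N) _ (om4 N))
  have e1 : pr (1,0,0) = (1, 0) := by norm_num [pr, f]
  have e2 : pr (0,1,0) = (0, 1/2) := by norm_num [pr, f]
  have e3 : pr (0,0,1) = (0, 0) := by norm_num [pr, f]
  have e4 : pr (1,1,1) = (1/7, 1/7) := by norm_num [pr, f]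
  by_cases h1 : p = pr (1,0,0)
  · have h2 : pr (0,1,0) ≠ p := by rw [h1, e1, e2]; norm_num
    have h3 : pr (0,0,1) ≠ p := by rw [h1, e1, e3]; norm_num
    have h4 : pr (1,1,1) ≠ p := by rw [h1, e1, e4]; norm_num
    have := noncol hp (a := pr (0,1,0)) (b := pr (0,0,1)) (c := pr (1,1,1)) ⟨m2, h2⟩ ⟨m3, h3⟩ ⟨m4, h4⟩
    rw [e2, e3, e4] at this; norm_num at this
  by_cases h2 : p = pr (0,1,0)
  · have h1' : pr (1,0,0) ≠ p := fun h => h1 h.symm
    have h3 : pr (0,0,1) ≠ p := by rw [h2, e2, e3]; norm_num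
    have h4 : pr (1,1,1) ≠ p := by rw [h2, e2, e4]; norm_num
    have := noncol hp (a := pr (1,0,0)) (b := pr (0,0,1)) (c := pr (1,1,1)) ⟨m1, h1'⟩ ⟨m3, h3⟩ ⟨m4, h4⟩
    rw [e1, e3, e4] at this; norm_num at this
  have h1' : pr (1,0,0) ≠ p := fun h => h1 h.symm
  have h2' : pr (0,1,0) ≠ p := fun h => h2 h.symm
  by_cases h3 : p = pr (0,0,1)
  · have h4 : pr (1,1,1) ≠ p := by rw [h3, e3, e4]; norm_num
    have := noncol hp (a := pr (1,0,0)) (b := pr (0,1,0)) (c := pr (1,1,1)) ⟨m1, h1'⟩ ⟨m2, h2'⟩ ⟨m4, h4⟩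
    rw [e1, e2, e4] at this; norm_num at this
  · have h3' : pr (0,0,1) ≠ p := fun h => h3 h.symm
    have := noncol hp (a := pr (1,0,0)) (b := pr (0,1,0)) (c := pr (0,0,1)) ⟨m1, h1'⟩ ⟨m2, h2'⟩ ⟨m3, h3'⟩
    rw [e1, e2, e3] at this; norm_num at this

end Pool.Agent.S08030
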