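import Mathlib
import Pool.Statements.S08054

set_option autoImplicit false
open Pool Pool.MP_daf6f7_co

namespace Pool.Agent.S08054

/-- The edges of the hypergraph dual to the wheel with five spokes: vertices `0..4` are the spokes,
vertices `5..9` the rim edges. -/
def e : Fin 6 → Finset (Fin 10) :=
  ![{0, 1, 2, 3, 4}, {0, 5, 9}, {1, 6, 5}, {2, 7, 6}, {3, 8, 7}, {4, 9, 8}]

/-- maximum degree of a subfamily -/
def dg (S : Finset (Fin 6)) : ℕ :=
  Finset.univ.sup (fun v : Fin 10 => (S.filter (fun i => v ∈ e i)).card)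

theorem sup_eq : dg Finset.univ = 2 := by decide

theorem hered : ∀ S : Finset (Fin 6), ∃ M ⊆ S,
        (∀ i ∈ M, ∀ j ∈ M, i ≠ j → Disjoint (e i) (e j)) ∧
        S.card ≤ M.card * (dg S + 1) := by
  set_option maxRecDepth 100000 in
  set_option synthInstance.maxSize 100000 in
  decide +kernel

theorem nocol : ∀ c0 c1 c2 c3 c4 c5 : Fin 3,
    (c1 = c0 ∨ c2 = c0 ∨ c3 = c0 ∨ c4 = c0 ∨ c5 = c0 ∨ c1 = c2 ∨ c2 = c3 ∨ c3 = c4 ∨ c4 = c5
      ∨ c5 = c1) := by
  decide

/-- The negation of the preceding statement: For any finite hypergraph (edges may repeat) in which every subfamily of edges has a matching of size at least its edge count divided by its max degree plus one, the edges can be colored with max degree plus one colors so same-colored edges are disjoint. -/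
theorem result :
    ¬ (∀ (V : Type) [Fintype V] [DecidableEq V] (m : ℕ) (e : Fin m → Finset V),
    (∀ i, (e i).Nonempty) →
    (∀ S : Finset (Fin m), ∃ M ⊆ S,
        (∀ i ∈ M, ∀ j ∈ M, i ≠ j → Disjoint (e i) (e j)) ∧
        S.card ≤ M.card *
          (Finset.univ.sup (fun v : V => (S.filter (fun i => v ∈ e i)).card) + 1)) →
    ∃ c : Fin m → Fin (Finset.univ.sup
        (fun v : V => (Finset.univ.filter (fun i : Fin m => v ∈ e i)).card) + 1),
      ∀ i j, i ≠ j → c i = c j → Disjoint (e i) (e j)) := by
  intro H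
  obtain ⟨c, hc⟩ := H (Fin 10) 6 e (by decide) hered
  change Fin 6 → Fin (dg Finset.univ + 1) at c
  have h3 : dg Finset.univ + 1 = 3 := by rw [sup_eq]
  have key : ∀ i j : Fin 6, i ≠ j → ¬ Disjoint (e i) (e j) →
      Fin.cast h3 (c i) ≠ Fin.cast h3 (c j) := by
    intro i j hij hd h
    exact hd (hc i j hij (Fin.cast_injective h3 h))
  rcases nocol (Fin.cast h3 (c 0)) (Fin.cast h3 (c 1)) (Fin.cast h3 (c 2)) (Fin.cast h3 (c 3))
    (Fin.cast h3 (c 4)) (Fin.cast h3 (c 5)) with h | h | h | h | h | h | h | h | h | h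
  · exact key 1 0 (by decide) (by decide) h
  · exact key 2 0 (by decide) (by decide) h
  · exact key 3 0 (by decide) (by decide) h
  · exact key 4 0 (by decide) (by decide) h
  · exact key 5 0 (by decide) (by decide) h
  · exact key 1 2 (by decide) (by decide) h
  · exact key 2 3 (by decide) (by decide) h
  · exact key 3 4 (by decide) (by decide) h
  · exact key 4 5 (by decide) (by decide) h
  · exact key 5 1 (by decide) (by decide) h

end Pool.Agent.S08054
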