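import Pool.Statements.S08104
-- import your own Pool.Agent.* helpers here

set_option autoImplicit false
open Pool Pool.MP_ddc6c3_co

namespace Pool.Agent.S08104

/-- The node `t_j = j - 5`. -/
noncomputable def tt (j : Fin 11) : ℝ := ((j : ℕ) : ℝ) - 5

abbrev E4 := EuclideanSpace ℝ (Fin 4)

/-- The affine functions `g_j`. -/
noncomputable def g (j : Fin 11) (x : E4) : ℝ :=
  1 + x 0 * tt j + x 1 * (tt j ^ 2 - 10) + x 2 * tt j ^ 3 + x 3 * (tt j ^ 4 - 178)

noncomputable def K (i : Fin 11) : Set E4 := {x | ∀ j, j ≠ i → 0 ≤ g j x}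

theorem g_cont (j : Fin 11) : Continuous (g j) := by
  unfold g
  fun_prop

theorem g_comb (j : Fin 11) (x y : E4) (a b : ℝ) (hab : a + b = 1) :
    g j (a • x + b • y) = a * g j x + b * g j y := by
  unfold g
  simp only [PiLp.add_apply, PiLp.smul_apply, smul_eq_mul]
  have : b = 1 - a := by linarith
  subst this
  ring

theorem K_closed (i : Fin 11) : IsClosed (K i) := by
  have : K i = ⋂ j, ⋂ (_ : j ≠ i), {x | 0 ≤ g j x} := by
    ext x; simp [K]
  rw [this]
  exact isClosed_iInter fun j => isClosed_iInter fun _ => isClosed_le continuous_const (g_cont j)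

theorem K_convex (i : Fin 11) : Convex ℝ (K i) := by
  intro x hx y hy a b ha hb hab j hj
  rw [g_comb j x y a b hab]
  exact add_nonneg (mul_nonneg ha (hx j hj)) (mul_nonneg hb (hy j hj))

theorem inter_eq : (⋂ i, K i) = {x | ∀ j, 0 ≤ g j x} := by
  ext x
  simp only [Set.mem_iInter, K, Set.mem_setOf_eq]
  constructor
  · intro h j
    rcases eq_or_ne j 0 with h0 | h0
    · exact h 1 j (by rw [h0]; decide)
    · exact h 0 j h0
  · intro h i j _
    exact h j

theorem tt_val (k : ℕ) (hk : k < 11) : tt ⟨k, hk⟩ = (k : ℝ) - 5 := rfl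

theorem bound (x : E4) (h : ∀ j, 0 ≤ g j x) : ∀ k, |x k| ≤ 100 := by
  have e : ∀ (k : ℕ) (hk : k < 11), 0 ≤ 1 + x 0 * ((k : ℝ) - 5) + x 1 * (((k : ℝ) - 5) ^ 2 - 10)
      + x 2 * ((k : ℝ) - 5) ^ 3 + x 3 * (((k : ℝ) - 5) ^ 4 - 178) := fun k hk => h ⟨k, hk⟩
  have e0 := e 0 (by norm_num)
  have e1 := e 1 (by norm_num)
  have e2 := e 2 (by norm_num)
  have e3 := e 3 (by norm_num)
  have e4 := e 4 (by norm_num)
  have e5 := e 5 (by norm_num)
  have e6 := e 6 (by norm_num)
  have e7 := e 7 (by norm_num)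
  have e8 := e 8 (by norm_num)
  have e9 := e 9 (by norm_num)
  have e10 := e 10 (by norm_num)
  norm_num at e0 e1 e2 e3 e4 e5 e6 e7 e8 e9 e10
  intro k
  rw [abs_le]
  fin_cases k
  · constructor <;> simp <;> linarith
  · constructor <;> simp <;> linarith
  · constructor <;> simp <;> linarith
  · constructor <;> simp <;> linarith

theorem inter_compact : IsCompact (⋂ i, K i) := by
  apply Metric.isCompact_of_isClosed_isBounded
  · exact isClosed_iInter K_closed
  · apply (Metric.isBounded_closedBall (x := (0 : E4)) (r := 200)).subset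
    intro x hx
    rw [inter_eq] at hx
    have hb := bound x hx
    rw [mem_closedBall_zero_iff, EuclideanSpace.norm_eq]
    rw [Real.sqrt_le_left (by norm_num)]
    have : ∀ k, ‖x k‖ ^ 2 ≤ 100 ^ 2 := fun k => by
      rw [Real.norm_eq_abs]
      exact pow_le_pow_left₀ (abs_nonneg _) (hb k) 2
    calc ∑ i, ‖x i‖ ^ 2 ≤ ∑ _i : Fin 4, (100 : ℝ) ^ 2 := Finset.sum_le_sum fun k _ => this k
      _ = 200 ^ 2 := by simp; norm_num

theorem g_zero (j : Fin 11) : g j 0 = 1 := by simp [g]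

theorem inter_interior : (interior (⋂ i, K i)).Nonempty := by
  refine ⟨0, ?_⟩
  rw [mem_interior]
  refine ⟨{x | ∀ j, 0 < g j x}, ?_, ?_, ?_⟩
  · rw [inter_eq]; intro x hx j; exact (hx j).le
  · have : {x : E4 | ∀ j, 0 < g j x} = ⋂ j, {x | 0 < g j x} := by ext x; simp
    rw [this]
    exact isOpen_iInter_of_finite fun j => isOpen_lt continuous_const (g_cont j)
  · intro j; rw [g_zero]; norm_num

/-- The normalising factor. -/
noncomputable def L (i j : Fin 11) : ℝ :=
  tt j ^ 2 * (tt i ^ 2 - 1) + 10 * (tt i ^ 2 - 1 + 4 * tt i * tt j + tt j ^ 2) + 178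

theorem L_int : ∀ i j : Fin 11, 0 < (((j : ℕ) : ℤ) - 5) ^ 2 * ((((i : ℕ) : ℤ) - 5) ^ 2 - 1)
    + 10 * ((((i : ℕ) : ℤ) - 5) ^ 2 - 1 + 4 * (((i : ℕ) : ℤ) - 5) * (((j : ℕ) : ℤ) - 5)
      + (((j : ℕ) : ℤ) - 5) ^ 2) + 178 := by decide

theorem L_pos (i j : Fin 11) : 0 < L i j := by
  have h := L_int i j
  unfold L tt
  exact_mod_cast h

/-- The point with `g_i < 0`, `g_j = 0` and all other `g_l ≥ 0`. -/
noncomputable def pt (i j : Fin 11) : E4 := WithLp.toLp 2
  ![-(2 * tt j * (tt i ^ 2 - 1) + 2 * tt i * tt j ^ 2) / L i j,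
    (tt i ^ 2 - 1 + 4 * tt i * tt j + tt j ^ 2) / L i j,
    -(2 * (tt i + tt j)) / L i j,
    1 / L i j]

theorem g_pt (i j l : Fin 11) :
    g l (pt i j) = (tt l - tt j) ^ 2 * ((tt l - tt i) ^ 2 - 1) / L i j := by
  have hL := (L_pos i j).ne'
  have h0 : pt i j 0 = -(2 * tt j * (tt i ^ 2 - 1) + 2 * tt i * tt j ^ 2) / L i j := rfl
  have h1 : pt i j 1 = (tt i ^ 2 - 1 + 4 * tt i * tt j + tt j ^ 2) / L i j := rfl
  have h2 : pt i j 2 = -(2 * (tt i + tt j)) / L i j := rfl
  have h3 : pt i j 3 = 1 / L i j := rfl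
  unfold g
  rw [h0, h1, h2, h3]
  field_simp
  unfold L
  ring

theorem g_pt_i (i j : Fin 11) (h : i ≠ j) : g i (pt i j) < 0 := by
  rw [g_pt]
  apply div_neg_of_neg_of_pos _ (L_pos i j)
  have : tt i - tt j ≠ 0 := by
    unfold tt
    intro h0
    apply h
    apply Fin.ext
    have : ((i : ℕ) : ℝ) = ((j : ℕ) : ℝ) := by linarith
    exact_mod_cast this
  have : 0 < (tt i - tt j) ^ 2 := by positivity
  nlinarith

theorem g_pt_j (i j : Fin 11) : g j (pt i j) = 0 := by
  rw [g_pt]; simp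

theorem g_pt_l (i j l : Fin 11) (h : l ≠ i) : 0 ≤ g l (pt i j) := by
  rw [g_pt]
  apply div_nonneg _ (L_pos i j).le
  apply mul_nonneg (sq_nonneg _)
  have h1 : (1 : ℤ) ≤ (((l : ℕ) : ℤ) - ((i : ℕ) : ℤ)) ^ 2 := by
    have : ((l : ℕ) : ℤ) - ((i : ℕ) : ℤ) ≠ 0 := by
      intro h0
      apply h
      apply Fin.ext
      omega
    have := sq_nonneg (((l : ℕ) : ℤ) - ((i : ℕ) : ℤ))
    have h2 : (((l : ℕ) : ℤ) - ((i : ℕ) : ℤ)) ^ 2 ≠ 0 := pow_ne_zero 2 ‹_›
    omega
  have h3 : (1 : ℝ) ≤ (((l : ℕ) : ℝ) - ((i : ℕ) : ℝ)) ^ 2 := by exact_mod_cast h1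
  unfold tt
  have : ((l : ℕ) : ℝ) - 5 - (((i : ℕ) : ℝ) - 5) = ((l : ℕ) : ℝ) - ((i : ℕ) : ℝ) := by ring
  rw [this]
  linarith

theorem pt_mem (i j : Fin 11) : pt i j ∈ K i := fun l hl => g_pt_l i j l hl

theorem ssub (i : Fin 11) : (⋂ β, K β) ⊂ K i := by
  rw [Set.ssubset_iff_of_subset (Set.iInter_subset _ _)]
  obtain ⟨j, hj⟩ : ∃ j : Fin 11, i ≠ j := by
    rcases eq_or_ne i 0 with h0 | h0
    · exact ⟨1, by rw [h0]; decide⟩
    · exact ⟨0, h0⟩
  refine ⟨pt i j, pt_mem i j, ?_⟩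
  rw [inter_eq]
  intro h
  exact absurd (h i) (not_le.2 (g_pt_i i j hj))

theorem pair (S : Finset (Fin 11)) (hS : S.card = 2) : (⋂ α ∈ S, K α) = ⋂ β, K β := by
  obtain ⟨a, b, hab, rfl⟩ := Finset.card_eq_two.1 hS
  rw [inter_eq]
  ext x
  simp only [Set.mem_iInter, Finset.mem_insert, Finset.mem_singleton, Set.mem_setOf_eq]
  constructor
  · intro h j
    rcases eq_or_ne j a with h0 | h0
    · exact h b (Or.inr rfl) j (by rw [h0]; exact hab)
    · exact h a (Or.inl rfl) j h0
  · intro h i _ j _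
    exact h j

theorem minimal (m : ℕ)
    (h : ∀ S : Finset (Fin 11), S.card = m → (⋂ α ∈ S, K α) = ⋂ β, K β) : 2 ≤ m := by
  by_contra hm
  have : m = 0 ∨ m = 1 := by omega
  rcases this with rfl | rfl
  · have h1 := h ∅ rfl
    have h2 := ssub 0
    rw [← h1] at h2
    simp at h2
    exact h2.2 (by simp)
  · have h1 := h {0} rfl
    have h2 := ssub 0
    rw [← h1] at h2
    simp at h2

/-- The union is not a union of five convex sets. -/
theorem no_cover (C : Fin 5 → Set E4) (hC : ∀ i, Convex ℝ (C i)) (hU : (⋃ i, C i) = ⋃ α, K α) :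
    False := by
  have hex : ∀ i j : Fin 11, ∃ k, pt i j ∈ C k := fun i j => by
    have : pt i j ∈ ⋃ i, C i := by
      rw [hU]; exact Set.mem_iUnion.2 ⟨i, pt_mem i j⟩
    exact Set.mem_iUnion.1 this
  choose c hc using hex
  let S : Fin 11 → Finset (Fin 5) := fun j => (Finset.univ.filter (fun l => l ≠ j)).image (c j)
  have key : ∀ i j, i ≠ j → ¬ S i ⊆ S j := by
    intro i j hij hsub
    have h1 : c i j ∈ S i := Finset.mem_image.2 ⟨j, by simp [hij.symm], rfl⟩
    obtain ⟨l, hl, hl2⟩ := Finset.mem_image.1 (hsub h1)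
    have hlj : l ≠ j := by simpa using hl
    set k := c i j with hk
    have hx : pt i j ∈ C k := hc i j
    have hy : pt j l ∈ C k := by rw [← hl2]; exact hc j l
    have hA : g i (pt i j) < 0 := g_pt_i i j hij
    have hB : 0 ≤ g i (pt j l) := g_pt_l j l i hij
    have hD : g j (pt j l) < 0 := g_pt_i j l hlj.symm
    have hJ : g j (pt i j) = 0 := g_pt_j i j
    set A := - g i (pt i j) with hAdef
    set B := g i (pt j l) with hBdef
    have hApos : 0 < A := by linarith
    have hAB : 0 < A + B := by linarith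
    set t := A / (2 * (A + B)) with ht
    have ht0 : 0 < t := by positivity
    have ht2 : t * (A + B) = A / 2 := by rw [ht]; field_simp
    have ht1 : t ≤ 1 := by
      rw [ht, div_le_one (by positivity)]; linarith
    have hz := hC k hx hy (by linarith : 0 ≤ 1 - t) ht0.le (by ring)
    have hzi : g i ((1 - t) • pt i j + t • pt j l) < 0 := by
      rw [g_comb _ _ _ _ _ (by ring)]
      have : (1 - t) * g i (pt i j) + t * g i (pt j l) = t * (A + B) - A := by
        rw [hAdef, hBdef]; ring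
      rw [this, ht2]; linarith
    have hzj : g j ((1 - t) • pt i j + t • pt j l) < 0 := by
      rw [g_comb _ _ _ _ _ (by ring), hJ]
      have := mul_neg_of_pos_of_neg ht0 hD
      linarith
    have hzU : (1 - t) • pt i j + t • pt j l ∈ ⋃ α, K α := by
      rw [← hU]; exact Set.mem_iUnion.2 ⟨k, hz⟩
    obtain ⟨m, hm⟩ := Set.mem_iUnion.1 hzU
    rcases eq_or_ne i m with h0 | h0
    · exact absurd (hm j (by rw [← h0]; exact hij.symm)) (not_le.2 hzj)
    · exact absurd (hm i h0) (not_le.2 hzi)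
  have hinj : Function.Injective S := by
    intro i j hij
    by_contra hne
    exact key i j hne (by rw [hij])
  let F : Finset (Finset (Fin 5)) := Finset.univ.image S
  have hcard : F.card = 11 := by
    rw [Finset.card_image_of_injective _ hinj]; simp
  have hanti : IsAntichain (· ⊆ ·) (F : Set (Finset (Fin 5))) := by
    intro a ha b hb hab
    obtain ⟨i, _, rfl⟩ := Finset.mem_image.1 (Finset.mem_coe.1 ha)
    obtain ⟨j, _, rfl⟩ := Finset.mem_image.1 (Finset.mem_coe.1 hb)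
    exact key i j (fun h => hab (by rw [h]))
  have := hanti.sperner
  rw [hcard] at this
  simp [Nat.choose] at this

/-- The negation of the preceding statement: Consider closed convex sets in R^d whose common intersection is a convex body strictly inside each one, and let n ≥ 2 be least such that any n of them intersect in that body. Then their union is a union of at most (d+1)(n-1) closed convex sets. -/
theorem result :
    ¬ (∀ (d n : ℕ) (I : Type) (K : I → Set (EuclideanSpace ℝ (Fin d))),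
      (∀ α, IsClosed (K α) ∧ Convex ℝ (K α)) →
      IsCompact (⋂ β, K β) →
      Convex ℝ (⋂ β, K β) →
      (interior (⋂ β, K β)).Nonempty →
      (∀ α, (⋂ β, K β) ⊂ K α) →
      2 ≤ n →
      (∀ S : Finset I, S.card = n → (⋂ α ∈ S, K α) = ⋂ β, K β) →
      (∀ m : ℕ, (∀ S : Finset I, S.card = m → (⋂ α ∈ S, K α) = ⋂ β, K β) → n ≤ m) →
      ∃ C : Fin ((d + 1) * (n - 1)) → Set (EuclideanSpace ℝ (Fin d)),
        (∀ i, IsClosed (C i) ∧ Convex ℝ (C i)) ∧ (⋃ i, C i) = ⋃ α, K α) := by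
  intro H
  obtain ⟨C, hC, hU⟩ := H 4 2 (Fin 11) K (fun i => ⟨K_closed i, K_convex i⟩) inter_compact
    (convex_iInter K_convex) inter_interior ssub le_rfl pair minimal
  exact no_cover C (fun i => (hC i).2) hU

end Pool.Agent.S08104
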