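import Pool.Statements.S08118
-- import your own Pool.Agent.* helpers here

set_option autoImplicit false
open Pool Pool.MP_de7a81_co

namespace Pool.Agent.S08118

/-- Adjacency masks of the 9-vertex graph. -/
def mask : Fin 9 → ℕ := ![448, 416, 336, 304, 108, 154, 149, 99, 15]

def adjB (u v : Fin 9) : Bool := (mask u).testBit v

/-- The graph. -/
def G : SimpleGraph (Fin 9) where
  Adj u v := adjB u v = true
  symm := ⟨by decide⟩
  loopless := ⟨by decide⟩

instance : DecidableRel G.Adj := fun u v => inferInstanceAs (Decidable (adjB u v = true))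

/-- b-colouring with `k` colours. -/
def IsB {k : ℕ} (c : Fin 9 → Fin k) : Prop :=
  (∀ u v : Fin 9, G.Adj u v → c u ≠ c v) ∧
    ∀ i : Fin k, ∃ v : Fin 9, c v = i ∧ ∀ j : Fin k, j ≠ i → ∃ w : Fin 9, G.Adj v w ∧ c w = j

theorem IsB.comp {k : ℕ} {c : Fin 9 → Fin k} (h : IsB c) (σ : Equiv.Perm (Fin k)) :
    IsB (fun v => σ (c v)) := by
  refine ⟨fun u v huv he => h.1 u v huv (σ.injective he), fun i => ?_⟩
  obtain ⟨v, hv, hw⟩ := h.2 (σ.symm i)
  refine ⟨v, by show σ (c v) = i; rw [hv, Equiv.apply_symm_apply], fun j hj => ?_⟩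
  obtain ⟨w, hw1, hw2⟩ := hw (σ.symm j) (fun he => hj (σ.symm.injective he))
  exact ⟨w, hw1, by show σ (c w) = j; rw [hw2, Equiv.apply_symm_apply]⟩

theorem deg_ge {k : ℕ} (c : Fin 9 → Fin k) (v : Fin 9)
    (h : ∀ j : Fin k, j ≠ c v → ∃ w : Fin 9, G.Adj v w ∧ c w = j) : k ≤ G.degree v + 1 := by
  have h1 : (Finset.univ : Finset (Fin k)) ⊆ insert (c v) ((G.neighborFinset v).image c) := by
    intro j _
    rcases eq_or_ne j (c v) with h0 | h0
    · rw [h0]; exact Finset.mem_insert_self _ _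
    · obtain ⟨w, hw1, hw2⟩ := h j h0
      apply Finset.mem_insert_of_mem
      exact Finset.mem_image.2 ⟨w, by rw [SimpleGraph.mem_neighborFinset]; exact hw1, hw2⟩
  have h2 := Finset.card_le_card h1
  rw [Finset.card_univ, Fintype.card_fin] at h2
  refine h2.trans ((Finset.card_insert_le _ _).trans ?_)
  exact Nat.add_le_add_right Finset.card_image_le 1

theorem deg_le (v : Fin 9) : G.degree v ≤ 4 := by revert v; decide

theorem deg_four (v : Fin 9) (h : 4 ≤ G.degree v) : 4 ≤ (v : ℕ) := by revert v; decide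

theorem perm4 : ∀ a b c : Fin 4, a ≠ b → a ≠ c → b ≠ c →
    ∃ σ : Equiv.Perm (Fin 4), σ a = 0 ∧ σ b = 1 ∧ σ c = 2 := by decide

set_option maxRecDepth 100000 in
theorem key4 : ∀ a5 : Fin 4, a5 ≠ 2 → ∀ a4 : Fin 4, a4 ≠ a5 → a4 ≠ 1 → ∀ a8 : Fin 4, a8 ≠ 0 →
    ∀ a1 : Fin 4, a1 ≠ a5 → a1 ≠ 2 → a1 ≠ a8 → ∀ a2 : Fin 4, a2 ≠ a4 → a2 ≠ 1 → a2 ≠ a8 →
    ∀ a3 : Fin 4, a3 ≠ a4 → a3 ≠ a5 → a3 ≠ a8 →
    ¬ ∀ i : Fin 4, ∃ v : Fin 9, (![0, a1, a2, a3, a4, a5, 1, 2, a8] : Fin 9 → Fin 4) v = i ∧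
      ∀ j : Fin 4, j ≠ i → ∃ w : Fin 9, G.Adj v w ∧
        (![0, a1, a2, a3, a4, a5, 1, 2, a8] : Fin 9 → Fin 4) w = j := by decide +kernel

set_option maxRecDepth 100000 in
theorem key5 : ∀ a0 : Fin 5, a0 ≠ 2 → a0 ≠ 3 → a0 ≠ 4 → ∀ a1 : Fin 5, a1 ≠ 1 → a1 ≠ 3 → a1 ≠ 4 →
    ∀ a2 : Fin 5, a2 ≠ 0 → a2 ≠ 2 → a2 ≠ 4 → ∀ a3 : Fin 5, a3 ≠ 0 → a3 ≠ 1 → a3 ≠ 4 →
    ¬ ∀ i : Fin 5, ∃ v : Fin 9, (![a0, a1, a2, a3, 0, 1, 2, 3, 4] : Fin 9 → Fin 5) v = i ∧
      ∀ j : Fin 5, j ≠ i → ∃ w : Fin 9, G.Adj v w ∧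
        (![a0, a1, a2, a3, 0, 1, 2, 3, 4] : Fin 9 → Fin 5) w = j := by decide +kernel

theorem no4 (c : Fin 9 → Fin 4) (h : IsB c) : False := by
  obtain ⟨σ, h0, h6, h7⟩ := perm4 (c 0) (c 6) (c 7) (h.1 0 6 (by decide)) (h.1 0 7 (by decide))
    (h.1 6 7 (by decide))
  have h' := h.comp σ
  set d : Fin 9 → Fin 4 := fun v => σ (c v) with hd
  have e : d = ![0, d 1, d 2, d 3, d 4, d 5, 1, 2, d 8] := by
    funext v
    fin_cases v
    · exact h0
    · rfl
    · rfl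
    · rfl
    · rfl
    · rfl
    · exact h6
    · exact h7
    · rfl
  have hb := h'.2
  have e0 : d 0 = 0 := h0
  have e6 : d 6 = 1 := h6
  have e7 : d 7 = 2 := h7
  refine key4 (d 5) (by rw [← e7]; exact h'.1 5 7 (by decide)) (d 4) (h'.1 4 5 (by decide))
    (by rw [← e6]; exact h'.1 4 6 (by decide)) (d 8) (by rw [← e0]; exact h'.1 8 0 (by decide))
    (d 1) (h'.1 1 5 (by decide)) (by rw [← e7]; exact h'.1 1 7 (by decide)) (h'.1 1 8 (by decide))
    (d 2) (h'.1 2 4 (by decide)) (by rw [← e6]; exact h'.1 2 6 (by decide)) (h'.1 2 8 (by decide))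
    (d 3) (h'.1 3 4 (by decide)) (h'.1 3 5 (by decide)) (h'.1 3 8 (by decide)) ?_
  rw [← e]
  exact hb

theorem no5 (c : Fin 9 → Fin 5) (h : IsB c) : False := by
  have hsurj : Function.Surjective (fun i : Fin 5 => c ⟨i + 4, by omega⟩) := by
    intro i
    obtain ⟨v, hv, hw⟩ := h.2 i
    have h1 := deg_ge c v (by rw [hv]; exact hw)
    have h2 := deg_four v (by omega)
    refine ⟨⟨(v : ℕ) - 4, by omega⟩, ?_⟩
    have : (⟨(v : ℕ) - 4 + 4, by omega⟩ : Fin 9) = v := by apply Fin.ext; simp; omega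
    simp only [this, hv]
  have hbij : Function.Bijective (fun i : Fin 5 => c ⟨i + 4, by omega⟩) :=
    ⟨Finite.injective_iff_surjective.2 hsurj, hsurj⟩
  let τ : Equiv.Perm (Fin 5) := Equiv.ofBijective _ hbij
  have hτ : ∀ i : Fin 5, τ.symm (c ⟨i + 4, by omega⟩) = i := fun i => by
    rw [Equiv.symm_apply_eq]; rfl
  have h' := h.comp τ.symm
  set d : Fin 9 → Fin 5 := fun v => τ.symm (c v) with hd
  have e4 : d 4 = 0 := hτ 0
  have e5 : d 5 = 1 := hτ 1
  have e6 : d 6 = 2 := hτ 2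
  have e7 : d 7 = 3 := hτ 3
  have e8 : d 8 = 4 := hτ 4
  have e : d = ![d 0, d 1, d 2, d 3, 0, 1, 2, 3, 4] := by
    funext v
    fin_cases v
    · rfl
    · rfl
    · rfl
    · rfl
    · exact e4
    · exact e5
    · exact e6
    · exact e7
    · exact e8
  have hb := h'.2
  refine key5 (d 0) (by rw [← e6]; exact h'.1 0 6 (by decide))
    (by rw [← e7]; exact h'.1 0 7 (by decide)) (by rw [← e8]; exact h'.1 0 8 (by decide))
    (d 1) (by rw [← e5]; exact h'.1 1 5 (by decide))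
    (by rw [← e7]; exact h'.1 1 7 (by decide)) (by rw [← e8]; exact h'.1 1 8 (by decide))
    (d 2) (by rw [← e4]; exact h'.1 2 4 (by decide))
    (by rw [← e6]; exact h'.1 2 6 (by decide)) (by rw [← e8]; exact h'.1 2 8 (by decide))
    (d 3) (by rw [← e4]; exact h'.1 3 4 (by decide))
    (by rw [← e5]; exact h'.1 3 5 (by decide)) (by rw [← e8]; exact h'.1 3 8 (by decide)) ?_
  rw [← e]
  exact hb

theorem common : ∀ u v : Fin 9, u ≠ v →
    (Finset.univ.filter (fun w => G.Adj u w ∧ G.Adj v w)).card ≤ 2 := by decide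

theorem noK23 : ¬ ∃ f : (Fin 2 ⊕ Fin 3) → Fin 9, Function.Injective f ∧
    ∀ i j, G.Adj (f (Sum.inl i)) (f (Sum.inr j)) := by
  rintro ⟨f, hf, h⟩
  have h1 := common (f (Sum.inl 0)) (f (Sum.inl 1)) (fun he => by simpa using hf he)
  have h2 : (Finset.univ : Finset (Fin 3)).image (fun j => f (Sum.inr j)) ⊆
      Finset.univ.filter (fun w => G.Adj (f (Sum.inl 0)) w ∧ G.Adj (f (Sum.inl 1)) w) := by
    intro w hw
    obtain ⟨j, _, rfl⟩ := Finset.mem_image.1 hw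
    rw [Finset.mem_filter]
    exact ⟨Finset.mem_univ _, h 0 j, h 1 j⟩
  have h3 := Finset.card_le_card h2
  rw [Finset.card_image_of_injective _ (fun a b hab => by simpa using hf hab)] at h3
  simp at h3
  omega

theorem near : ∀ x : Fin 9, G.degree x ≤ 3 ∨ ∃ y, G.Adj x y ∧ G.degree y ≤ 3 := by decide

theorem four_nbrs : ∀ p : Fin 3 × Fin 3, ∃ a b c d : Fin 3 × Fin 3,
    (SimpleGraph.boxProd (SimpleGraph.cycleGraph 3) (SimpleGraph.cycleGraph 3)).Adj p a ∧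
    (SimpleGraph.boxProd (SimpleGraph.cycleGraph 3) (SimpleGraph.cycleGraph 3)).Adj p b ∧
    (SimpleGraph.boxProd (SimpleGraph.cycleGraph 3) (SimpleGraph.cycleGraph 3)).Adj p c ∧
    (SimpleGraph.boxProd (SimpleGraph.cycleGraph 3) (SimpleGraph.cycleGraph 3)).Adj p d ∧
    a ≠ b ∧ a ≠ c ∧ a ≠ d ∧ b ≠ c ∧ b ≠ d ∧ c ≠ d := by
  intro p
  rw [SimpleGraph.cycleGraph_three_eq_top]
  simp only [SimpleGraph.boxProd_adj, SimpleGraph.top_adj]
  refine ⟨(p.1 + 1, p.2), (p.1 + 2, p.2), (p.1, p.2 + 1), (p.1, p.2 + 2), ?_⟩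
  revert p
  decide

theorem notExc : ¬ ∃ C : G.ConnectedComponent,
    Nonempty (SimpleGraph.Iso (G.induce C.supp)
      (SimpleGraph.boxProd (SimpleGraph.cycleGraph 3) (SimpleGraph.cycleGraph 3))) ∧
    ∀ v : Fin 9, G.connectedComponentMk v ≠ C → G.degree v ≤ 2 := by
  rintro ⟨C, ⟨φ⟩, -⟩
  obtain ⟨x, hx⟩ : ∃ x, x ∈ C.supp := ⟨(φ.symm (0, 0)).1, (φ.symm (0, 0)).2⟩
  obtain ⟨y, hy, hdy⟩ : ∃ y, y ∈ C.supp ∧ G.degree y ≤ 3 := by
    rcases near x with h | ⟨y, hxy, hy⟩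
    · exact ⟨x, hx, h⟩
    · refine ⟨y, ?_, hy⟩
      rw [SimpleGraph.ConnectedComponent.mem_supp_iff] at hx ⊢
      rw [← hx]
      exact (SimpleGraph.ConnectedComponent.eq.2 hxy.reachable).symm
  obtain ⟨a, b, c, d, ha, hb, hc, hd, hab, hac, had, hbc, hbd, hcd⟩ := four_nbrs (φ ⟨y, hy⟩)
  have key : ∀ p, (SimpleGraph.boxProd (SimpleGraph.cycleGraph 3)
      (SimpleGraph.cycleGraph 3)).Adj (φ ⟨y, hy⟩) p → G.Adj y (φ.symm p).1 := by
    intro p hp
    have h1 : (G.induce C.supp).Adj ⟨y, hy⟩ (φ.symm p) := by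
      rw [← φ.map_adj_iff]
      simpa using hp
    simpa using h1
  have hne : ∀ p q : Fin 3 × Fin 3, p ≠ q → (φ.symm p).1 ≠ (φ.symm q).1 := by
    intro p q hpq he
    exact hpq (φ.symm.injective (Subtype.ext he))
  have hsub : ({(φ.symm a).1, (φ.symm b).1, (φ.symm c).1, (φ.symm d).1} : Finset (Fin 9)) ⊆
      G.neighborFinset y := by
    intro w hw
    simp only [Finset.mem_insert, Finset.mem_singleton] at hw
    rw [SimpleGraph.mem_neighborFinset]
    rcases hw with rfl | rfl | rfl | rfl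
    · exact key a ha
    · exact key b hb
    · exact key c hc
    · exact key d hd
  have hcard := Finset.card_le_card hsub
  rw [SimpleGraph.card_neighborFinset_eq_degree] at hcard
  have h4 : ({(φ.symm a).1, (φ.symm b).1, (φ.symm c).1, (φ.symm d).1} : Finset (Fin 9)).card = 4 := by
    rw [Finset.card_insert_of_notMem, Finset.card_insert_of_notMem, Finset.card_insert_of_notMem,
      Finset.card_singleton]
    · simp only [Finset.mem_singleton]; exact hne c d hcd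
    · simp only [Finset.mem_insert, Finset.mem_singleton, not_or]; exact ⟨hne b c hbc, hne b d hbd⟩
    · simp only [Finset.mem_insert, Finset.mem_singleton, not_or]
      exact ⟨hne a b hab, hne a c hac, hne a d had⟩
  omega

/-- The negation of the preceding statement: Every finite K_{2,3}-free graph has a b-colouring with at least m(G)−1 colours, unless it has a component isomorphic to C3□C3 and all other components have maximum degree at most 2. -/
theorem result :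
    ¬ (∀ (V : Type) [Fintype V] [DecidableEq V] (G : SimpleGraph V) [DecidableRel G.Adj],
      (¬ ∃ f : (Fin 2 ⊕ Fin 3) → V, Function.Injective f ∧
          ∀ i j, G.Adj (f (Sum.inl i)) (f (Sum.inr j))) →
      (¬ ∃ C : G.ConnectedComponent,
          Nonempty (SimpleGraph.Iso (G.induce C.supp)
            (SimpleGraph.boxProd (SimpleGraph.cycleGraph 3) (SimpleGraph.cycleGraph 3))) ∧
          ∀ v : V, G.connectedComponentMk v ≠ C → G.degree v ≤ 2) →
      ∀ m : ℕ, m ≤ (Finset.univ.filter (fun v : V => m - 1 ≤ G.degree v)).card →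
        ∃ k : ℕ, m - 1 ≤ k ∧ ∃ c : V → Fin k,
          (∀ u v : V, G.Adj u v → c u ≠ c v) ∧
          ∀ i : Fin k, ∃ v : V, c v = i ∧
            ∀ j : Fin k, j ≠ i → ∃ w : V, G.Adj v w ∧ c w = j) := by
  intro H
  obtain ⟨k, hk, c, hc, hb⟩ := H (Fin 9) G noK23 notExc 5 (by decide)
  have hB : IsB c := ⟨hc, hb⟩
  have h6 : k ≤ 5 := by
    obtain ⟨v, hv, hw⟩ := hb ⟨0, by omega⟩
    have h1 := deg_ge c v (by rw [hv]; exact hw)
    have h2 := deg_le v
    omega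
  have : k = 4 ∨ k = 5 := by omega
  rcases this with rfl | rfl
  · exact no4 c hB
  · exact no5 c hB

end Pool.Agent.S08118
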