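import Pool.Statements.S08204

set_option autoImplicit false
open Pool Pool.MP_e2b918_co

namespace Pool.Agent.S08204

/-- adjacency matrix of the 13-vertex graph, bit `13*i+j` -/
def M : Nat := 124703199846709729546025528693478316426536691514394

def ad (i j : Nat) : Bool := Nat.testBit M (13 * i + j)

def G : SimpleGraph (Fin 13) where
  Adj i j := ad i.val j.val = true
  symm := ⟨by decide +kernel⟩
  loopless := ⟨by decide +kernel⟩

instance : DecidableRel G.Adj := fun i j => inferInstanceAs (Decidable (ad i.val j.val = true))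

/-- consistency of the new value `x` at position `k` with the values listed (latest first) -/
def ok (k x : Nat) : List Nat → Bool
  | [] => true
  | y :: t => (y != x) && ((ad t.length k != ad y x) && ok k x t)

def fin4 (l : List Nat) : Bool :=
  !((List.range 13).all fun v =>
    let f := fun u => l.getD (12 - u) 0
    f (f (f (f v))) == v)

def search : Nat → List Nat → Bool
  | 0, l => fin4 l
  | n + 1, l => (List.range 13).all fun x => !(ok l.length x l) || search n (x :: l)

lemma search_true : search 13 [] = true := by decide +kernel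

section
variable (g : Nat → Nat) (hlt : ∀ i, i < 13 → g i < 13)
  (hinj : ∀ i j, i < 13 → j < 13 → g i = g j → i = j)
  (hanti : ∀ i j, i < 13 → j < 13 → i ≠ j → ad i j ≠ ad (g i) (g j))

def L (g : Nat → Nat) : Nat → List Nat
  | 0 => []
  | k + 1 => g k :: L g k

lemma L_length (k : Nat) : (L g k).length = k := by
  induction k with
  | zero => rfl
  | succ k ih => simp [L, ih]

include hinj hanti in
lemma ok_L (k : Nat) (hk : k < 13) (m : Nat) (hm : m ≤ k) : ok k (g k) (L g m) = true := by
  induction m with
  | zero => rfl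
  | succ m ih =>
    simp only [L, ok, L_length, Bool.and_eq_true, bne_iff_ne]
    refine ⟨?_, ?_, ih (by omega)⟩
    · intro h
      have := hinj m k (by omega) hk h
      omega
    · exact hanti m k (by omega) hk (by omega)

include hlt hinj hanti in
lemma search_step (k : Nat) (hk : k < 13) (h : search (13 - k) (L g k) = true) :
    search (13 - (k + 1)) (L g (k + 1)) = true := by
  have e : 13 - k = (13 - (k + 1)) + 1 := by omega
  rw [e] at h
  simp only [search, List.all_eq_true, List.mem_range] at h
  have h1 := h (g k) (hlt k hk)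
  rw [L_length, ok_L g hinj hanti k hk k le_rfl] at h1
  simpa [L] using h1

include hlt hinj hanti in
lemma search_all (k : Nat) (hk : k ≤ 13) : search (13 - k) (L g k) = true := by
  induction k with
  | zero => exact search_true
  | succ k ih => exact search_step g hlt hinj hanti k (by omega) (ih (by omega))

lemma L_getD (v : Nat) (hv : v < 13) : (L g 13).getD (12 - v) 0 = g v := by
  interval_cases v <;> rfl

include hlt hinj hanti in
lemma no_four : ¬ ∀ v, v < 13 → g (g (g (g v))) = v := by
  intro h4
  have h := search_all g hlt hinj hanti 13 le_rfl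
  simp only [Nat.sub_self, search, fin4, Bool.not_eq_true', ← Bool.not_eq_true] at h
  apply h
  rw [List.all_eq_true]
  intro v hv
  rw [List.mem_range] at hv
  simp only [beq_iff_eq]
  have h1 := hlt v hv
  have h2 := hlt _ h1
  have h3 := hlt _ h2
  rw [L_getD g v hv, L_getD g _ h1, L_getD g _ h2, L_getD g _ h3]
  exact h4 v hv

end

/-- an antimorphism -/
def sg : Equiv.Perm (Fin 13) where
  toFun := ![1, 2, 3, 4, 5, 6, 7, 0, 9, 10, 11, 8, 12]
  invFun := ![7, 0, 1, 2, 3, 4, 5, 6, 11, 8, 9, 10, 12]
  left_inv := by decide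
  right_inv := by decide

/-- The negation of the preceding statement: Every finite regular self-complementary graph has an isomorphism onto its complement whose permutation of the vertices has at most one fixed point, with every other vertex lying on a cycle of length exactly 4. -/
theorem result :
    ¬ (∀ (V : Type) [Fintype V] [DecidableEq V] (G : SimpleGraph V) [DecidableRel G.Adj],
      (∃ d : ℕ, G.IsRegularOfDegree d) →
      Nonempty (G ≃g Gᶜ) →
      ∃ σ : G ≃g Gᶜ,
        (∀ u v : V, σ u = u → σ v = v → u = v) ∧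
        (∀ v : V, σ v ≠ v → σ (σ v) ≠ v ∧ σ (σ (σ (σ v))) = v)) := by
  intro H
  obtain ⟨σ, _, h4⟩ := H (Fin 13) G ⟨6, by unfold SimpleGraph.IsRegularOfDegree; decide +kernel⟩
    ⟨⟨sg, by
      intro a b
      rw [SimpleGraph.compl_adj]
      revert a b
      decide +kernel⟩⟩
  let g : Nat → Nat := fun i => if h : i < 13 then (σ ⟨i, h⟩).val else 0
  have hg : ∀ i (h : i < 13), g i = (σ ⟨i, h⟩).val := fun i h => dif_pos h
  have hlt : ∀ i, i < 13 → g i < 13 := by
    intro i hi
    rw [hg i hi]
    exact (σ ⟨i, hi⟩).isLt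
  apply no_four g hlt
  · intro i j hi hj h
    rw [hg i hi, hg j hj] at h
    have := σ.injective (Fin.ext h)
    exact congrArg Fin.val this
  · intro i j hi hj hij
    rw [hg i hi, hg j hj]
    have h1 := σ.map_rel_iff (a := ⟨i, hi⟩) (b := ⟨j, hj⟩)
    rw [SimpleGraph.compl_adj] at h1
    have hne : σ ⟨i, hi⟩ ≠ σ ⟨j, hj⟩ := fun h => hij (congrArg Fin.val (σ.injective h))
    change (σ ⟨i, hi⟩ ≠ σ ⟨j, hj⟩ ∧ ¬ (ad (σ ⟨i, hi⟩).val (σ ⟨j, hj⟩).val = true)) ↔ ad i j = true
      at h1
    intro heq
    rw [← heq] at h1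
    have h2 : ¬ (ad i j = true) ↔ ad i j = true := ⟨fun h => h1.1 ⟨hne, h⟩, fun h => (h1.2 h).2⟩
    exact (iff_not_self h2.symm).elim
  · intro v hv
    have hv4 : σ (σ (σ (σ ⟨v, hv⟩))) = ⟨v, hv⟩ := by
      by_cases hf : σ ⟨v, hv⟩ = ⟨v, hv⟩
      · rw [hf, hf, hf, hf]
      · exact (h4 _ hf).2
    rw [hg v hv, hg _ (σ ⟨v, hv⟩).isLt, hg _ (σ (σ ⟨v, hv⟩)).isLt, hg _ (σ (σ (σ ⟨v, hv⟩))).isLt]
    exact congrArg Fin.val hv4

end Pool.Agent.S08204
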