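import Pool.Statements.S08212

set_option autoImplicit false
open Pool Pool.MP_e385a0_co

namespace Pool.Agent.S08212

abbrev Pr : Type := {p : Fin 3 × Fin 3 // p.1 < p.2}
abbrev Pt (A : Type) : Type := Fin 3 ⊕ (A × Pr)

/-- set of coordinates of a point -/
def V {A : Type} (x : Pt A) : Finset (Fin 3) :=
  Sum.elim (fun i => ({i} : Finset (Fin 3))) (fun x => ({x.2.1.1, x.2.1.2} : Finset (Fin 3))) x

def good {A : Type} [Group A] (φ : Fin 3 → A) (x : Pt A) : Prop :=
  match x with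
  | Sum.inl _ => False
  | Sum.inr x => x.1 = φ x.2.1.1 * (φ x.2.1.2)⁻¹

def CT {A : Type} [Group A] (T : Finset (Pt A)) : Prop :=
  T.card ≤ (T.biUnion V).card ∧ ((∃ φ : Fin 3 → A, ∀ x ∈ T, good φ x) →
    T.card + 1 ≤ (T.biUnion V).card)

def Cnd {A : Type} [Group A] (Y : Set (Pt A)) : Prop :=
  ∀ T : Finset (Pt A), ↑T ⊆ Y → T.Nonempty → CT T

def FrozenCnd (A : Type) [Group A] (Y : Set (Pt A)) : Prop :=
  ∀ T : Finset (Fin 3 ⊕ (A × {p : Fin 3 × Fin 3 // p.1 < p.2})),
            (↑T ⊆ Y) → T.Nonempty →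
              (T.card ≤ (T.biUnion (fun e => Sum.elim (fun i => ({i} : Finset (Fin 3)))
                  (fun x => ({x.2.1.1, x.2.1.2} : Finset (Fin 3))) e)).card ∧
               (((∀ i : Fin 3, Sum.inl i ∉ T) ∧
                  ∃ φ : Fin 3 → A, ∀ x : A × {p : Fin 3 × Fin 3 // p.1 < p.2},
                    Sum.inr x ∈ T → x.1 = φ x.2.1.1 * (φ x.2.1.2)⁻¹) →
                T.card + 1 ≤ (T.biUnion (fun e => Sum.elim (fun i => ({i} : Finset (Fin 3)))
                  (fun x => ({x.2.1.1, x.2.1.2} : Finset (Fin 3))) e)).card))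

lemma bal_iff {A : Type} [Group A] (T : Finset (Pt A)) :
    ((∀ i : Fin 3, Sum.inl i ∉ T) ∧
                  ∃ φ : Fin 3 → A, ∀ x : A × {p : Fin 3 × Fin 3 // p.1 < p.2},
                    Sum.inr x ∈ T → x.1 = φ x.2.1.1 * (φ x.2.1.2)⁻¹) ↔
    (∃ φ : Fin 3 → A, ∀ x ∈ T, good φ x) := by
  constructor
  · rintro ⟨h, φ, hφ⟩
    refine ⟨φ, ?_⟩
    rintro (i | x) hx
    · exact absurd hx (h i)
    · exact hφ x hx
  · rintro ⟨φ, hφ⟩
    refine ⟨fun i hi => hφ _ hi, φ, fun x hx => hφ _ hx⟩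

lemma frozen_iff {A : Type} [Group A] (Y : Set (Pt A)) : FrozenCnd A Y ↔ Cnd Y := by
  unfold FrozenCnd Cnd CT
  constructor
  · intro h T hT hne
    have := h T hT hne
    rw [bal_iff] at this
    exact this
  · intro h T hT hne
    rw [bal_iff]
    exact h T hT hne

set_option linter.unusedSectionVars false
section
variable {A : Type} [Group A]

lemma V_inr_card (x : A × Pr) : (V (Sum.inr x : Pt A)).card = 2 := by
  have : ∀ P : Pr, ({P.1.1, P.1.2} : Finset (Fin 3)).card = 2 := by decide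
  exact this x.2

lemma V_inl (i : Fin 3) : V (Sum.inl i : Pt A) = {i} := rfl

lemma V_pos (x : Pt A) : 1 ≤ (V x).card := by
  rcases x with i | x
  · simp [V]
  · rw [V_inr_card]; norm_num

lemma V_le (s : Finset (Fin 3)) : s.card ≤ 3 := by
  have := Finset.card_le_univ s
  simpa using this

/-- potentials ratio -/
lemma ratio (φ ψ : Fin 3 → A) (u v : Fin 3) :
    φ u * (φ v)⁻¹ = ψ u * (ψ v)⁻¹ ↔ (ψ u)⁻¹ * φ u = (ψ v)⁻¹ * φ v := by
  constructor
  · intro h
    have : φ u = ψ u * (ψ v)⁻¹ * φ v := by rw [← h]; group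
    rw [this]; group
  · intro h
    have : φ u = ψ u * ((ψ v)⁻¹ * φ v) := by rw [← h]; group
    rw [this]; group

lemma conn (ρ : Fin 3 → A) (P Q : Pr) (hPQ : P ≠ Q) (hP : ρ P.1.1 = ρ P.1.2)
    (hQ : ρ Q.1.1 = ρ Q.1.2) : ∀ u v, ρ u = ρ v := by
  have key : ∀ P Q : Pr, P ≠ Q → ∀ u v : Fin 3, u = v ∨ (u = P.1.1 ∧ v = P.1.2) ∨
      (v = P.1.1 ∧ u = P.1.2) ∨ (u = Q.1.1 ∧ v = Q.1.2) ∨ (v = Q.1.1 ∧ u = Q.1.2) ∨
      (∃ w, ((u = P.1.1 ∧ w = P.1.2) ∨ (w = P.1.1 ∧ u = P.1.2)) ∧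
        ((v = Q.1.1 ∧ w = Q.1.2) ∨ (w = Q.1.1 ∧ v = Q.1.2))) ∨
      (∃ w, ((v = P.1.1 ∧ w = P.1.2) ∨ (w = P.1.1 ∧ v = P.1.2)) ∧
        ((u = Q.1.1 ∧ w = Q.1.2) ∨ (w = Q.1.1 ∧ u = Q.1.2))) := by
    decide
  have eP : ∀ u w, ((u = P.1.1 ∧ w = P.1.2) ∨ (w = P.1.1 ∧ u = P.1.2)) → ρ u = ρ w := by
    rintro u w (⟨rfl, rfl⟩ | ⟨rfl, rfl⟩)
    · exact hP
    · exact hP.symm
  have eQ : ∀ u w, ((u = Q.1.1 ∧ w = Q.1.2) ∨ (w = Q.1.1 ∧ u = Q.1.2)) → ρ u = ρ w := by
    rintro u w (⟨rfl, rfl⟩ | ⟨rfl, rfl⟩)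
    · exact hQ
    · exact hQ.symm
  intro u v
  rcases key P Q hPQ u v with h | h | h | h | h | ⟨w, h1, h2⟩ | ⟨w, h1, h2⟩
  · rw [h]
  · exact eP u v (Or.inl h)
  · exact eP u v (Or.inr h)
  · exact eQ u v (Or.inl h)
  · exact eQ u v (Or.inr h)
  · rw [eP u w h1, eQ v w h2]
  · rw [eP v w h1, eQ u w h2]

lemma two (x y : Pt A) (h : x ≠ y) : 2 ≤ (V x ∪ V y).card := by
  rcases x with i | x
  · rcases y with j | y
    · have hij : i ≠ j := fun e => h (by rw [e])
      simp only [V_inl]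
      have : ∀ i j : Fin 3, i ≠ j → 2 ≤ (({i} : Finset (Fin 3)) ∪ {j}).card := by decide
      exact this i j hij
    · calc 2 = (V (Sum.inr y : Pt A)).card := (V_inr_card y).symm
        _ ≤ _ := Finset.card_le_card Finset.subset_union_right
  · calc 2 = (V (Sum.inr x : Pt A)).card := (V_inr_card x).symm
        _ ≤ _ := Finset.card_le_card Finset.subset_union_left

lemma pair_ne (P Q : Pr) (h : P ≠ Q) : 
    (({P.1.1, P.1.2} : Finset (Fin 3)) ∪ {Q.1.1, Q.1.2}).card = 3 := by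
  revert P Q
  decide

lemma good_pair {φ : Fin 3 → A} {x y : Pt A} (h : x ≠ y) (hx : good φ x) (hy : good φ y) :
    (V x ∪ V y).card = 3 := by
  rcases x with i | ⟨g, P⟩
  · exact hx.elim
  · rcases y with j | ⟨k, Q⟩
    · exact hy.elim
    · have hPQ : P ≠ Q := by
        rintro rfl
        apply h
        simp only [good] at hx hy
        rw [hx, hy]
      exact pair_ne P Q hPQ

lemma third {φ ψ : Fin 3 → A} {x y e e' : Pt A} (hxy : x ≠ y) (hex : e ≠ x) (hey : e ≠ y)
    (hex' : e' ≠ x) (hey' : e' ≠ y) (hx : good φ x) (hy : good φ y) (he : good φ e)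
    (hx' : good ψ x) (hy' : good ψ y) (he' : good ψ e') : e = e' := by
  rcases x with i | ⟨g, P⟩
  · exact hx.elim
  rcases y with i | ⟨k, Q⟩
  · exact hy.elim
  rcases e with i | ⟨m, R⟩
  · exact he.elim
  rcases e' with i | ⟨m', R'⟩
  · exact he'.elim
  simp only [good] at hx hy he hx' hy' he'
  have ne_of : ∀ (χ : Fin 3 → A) (a b : A) (P Q : Pr), a = χ P.1.1 * (χ P.1.2)⁻¹ →
      b = χ Q.1.1 * (χ Q.1.2)⁻¹ → (Sum.inr (a, P) : Pt A) ≠ Sum.inr (b, Q) → P ≠ Q := by
    rintro χ a b P Q ha hb hne rfl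
    exact hne (by rw [ha, hb])
  have h1 := ne_of φ _ _ _ _ hx hy hxy
  have h2 := ne_of φ _ _ _ _ he hx hex
  have h3 := ne_of φ _ _ _ _ he hy hey
  have h4 := ne_of ψ _ _ _ _ he' hx' hex'
  have h5 := ne_of ψ _ _ _ _ he' hy' hey'
  have hR : R = R' := by
    have : ∀ P Q R R' : Pr, (P ≠ Q ∧ R ≠ P ∧ R ≠ Q ∧ R' ≠ P ∧ R' ≠ Q) → R = R' := by decide
    exact this P Q R R' ⟨h1, h2, h3, h4, h5⟩
  subst hR
  have hP := (ratio φ ψ _ _).1 (hx.symm.trans hx')
  have hQ := (ratio φ ψ _ _).1 (hy.symm.trans hy')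
  have hall := conn (fun u => (ψ u)⁻¹ * φ u) P Q h1 hP hQ
  have := (ratio φ ψ _ _).2 (hall R.1.1 R.1.2)
  rw [he, he', this]

lemma biUnion_pair (x y : Pt A) [DecidableEq (Pt A)] :
    ({x, y} : Finset (Pt A)).biUnion V = V x ∪ V y := by
  ext i; simp

lemma biUnion_three (x y z : Pt A) [DecidableEq (Pt A)] :
    ({x, y, z} : Finset (Pt A)).biUnion V = V x ∪ V y ∪ V z := by
  ext i; simp

/-- condition for small sets -/
lemma CT_small (T : Finset (Pt A)) (hne : T.Nonempty) (hc : T.card ≤ 2) : CT T := by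
  classical
  have h1 : 1 ≤ T.card := Finset.card_pos.2 hne
  have : T.card = 1 ∨ T.card = 2 := by omega
  rcases this with h | h
  · obtain ⟨x, rfl⟩ := Finset.card_eq_one.1 h
    unfold CT
    rw [Finset.singleton_biUnion]
    refine ⟨by simpa using V_pos x, ?_⟩
    rintro ⟨φ, hφ⟩
    have := hφ x (by simp)
    rcases x with i | x
    · exact this.elim
    · rw [V_inr_card]; simp
  · obtain ⟨x, y, hxy, rfl⟩ := Finset.card_eq_two.1 h
    unfold CT
    rw [biUnion_pair, h]
    refine ⟨two x y hxy, ?_⟩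
    rintro ⟨φ, hφ⟩
    rw [good_pair hxy (hφ x (by simp)) (hφ y (by simp))]

def Dep3 (x y z : Pt A) : Prop :=
  (V x ∪ V y ∪ V z).card ≤ 2 ∨ ∃ φ : Fin 3 → A, good φ x ∧ good φ y ∧ good φ z

lemma CT_three (x y z : Pt A) [DecidableEq (Pt A)] (hxy : x ≠ y) (hxz : x ≠ z) (hyz : y ≠ z) :
    CT ({x, y, z} : Finset (Pt A)) ↔ ¬ Dep3 x y z := by
  have hc : ({x, y, z} : Finset (Pt A)).card = 3 := Finset.card_eq_three.2 ⟨x, y, z, hxy, hxz, hyz, rfl⟩
  unfold CT Dep3
  rw [hc, biUnion_three]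
  have hle := V_le (V x ∪ V y ∪ V z)
  constructor
  · rintro ⟨h1, h2⟩ (h | ⟨φ, hx, hy, hz⟩)
    · omega
    · have := h2 ⟨φ, by simp [hx, hy, hz]⟩
      omega
  · intro h
    push Not at h
    refine ⟨by omega, ?_⟩
    rintro ⟨φ, hφ⟩
    exact absurd (hφ z (by simp)) (h.2 φ (hφ x (by simp)) (hφ y (by simp)))

lemma Cnd_card {Y : Set (Pt A)} (h : Cnd Y) : Y.encard ≤ 3 := by
  by_contra hn
  push Not at hn
  have h4 : ((4 : ℕ) : ℕ∞) ≤ Y.encard := by
    have := Order.add_one_le_of_lt hn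
    exact this
  obtain ⟨T, hT, hTc⟩ := Set.exists_subset_encard_eq h4
  have hfin : T.Finite := Set.finite_of_encard_eq_coe hTc
  have h2 := h hfin.toFinset (by simpa using hT) (by
    rw [← Finset.card_pos]
    have : (hfin.toFinset : Set (Pt A)).encard = 4 := by simpa using hTc
    rw [Set.encard_coe_eq_coe_finsetCard] at this
    have : hfin.toFinset.card = 4 := by exact_mod_cast this
    omega)
  have hc : hfin.toFinset.card = 4 := by
    have : (hfin.toFinset : Set (Pt A)).encard = 4 := by simpa using hTc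
    rw [Set.encard_coe_eq_coe_finsetCard] at this
    exact_mod_cast this
  have := h2.1
  rw [hc] at this
  have hle := V_le (hfin.toFinset.biUnion V)
  omega

lemma Cnd_three (x y z : Pt A) (hxy : x ≠ y) (hxz : x ≠ z) (hyz : y ≠ z) :
    Cnd ({x, y, z} : Set (Pt A)) ↔ ¬ Dep3 x y z := by
  classical
  have hc : ({x, y, z} : Finset (Pt A)).card = 3 := Finset.card_eq_three.2 ⟨x, y, z, hxy, hxz, hyz, rfl⟩
  rw [← CT_three x y z hxy hxz hyz]
  constructor
  · intro h
    exact h _ (by simp) (by simp)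
  · intro h T hT hne
    have hT' : T ⊆ ({x, y, z} : Finset (Pt A)) := by
      intro a ha
      have := hT (Finset.mem_coe.2 ha)
      simpa using this
    by_cases hT3 : T.card ≤ 2
    · exact CT_small T hne hT3
    · have : T = ({x, y, z} : Finset (Pt A)) := Finset.eq_of_subset_of_card_le hT' (by omega)
      rw [this]; exact h

lemma Cnd_small {Y : Set (Pt A)} (h : Y.encard ≤ 2) : Cnd Y := by
  intro T hT hne
  apply CT_small T hne
  have := (Set.encard_le_encard hT).trans h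
  rw [Set.encard_coe_eq_coe_finsetCard] at this
  exact_mod_cast this

lemma dep_close {x y u v w : Pt A} (hxy : x ≠ y) (huv : u ≠ v) (huw : u ≠ w) (hvw : v ≠ w)
    (hu : u = x ∨ u = y ∨ Dep3 x y u) (hv : v = x ∨ v = y ∨ Dep3 x y v)
    (hw : w = x ∨ w = y ∨ Dep3 x y w) : Dep3 u v w := by
  classical
  by_cases hc : (V x ∪ V y).card ≤ 2
  · have hc2 : (V x ∪ V y).card = 2 := le_antisymm hc (two x y hxy)
    have key : ∀ e, (e = x ∨ e = y ∨ Dep3 x y e) → V e ⊆ V x ∪ V y := by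
      rintro e (rfl | rfl | h | ⟨φ, hx, hy, _⟩)
      · exact Finset.subset_union_left
      · exact Finset.subset_union_right
      · have : V x ∪ V y = V x ∪ V y ∪ V e :=
          Finset.eq_of_subset_of_card_le Finset.subset_union_left (by omega)
        rw [this]
        exact Finset.subset_union_right
      · have := good_pair hxy hx hy
        omega
    left
    calc (V u ∪ V v ∪ V w).card ≤ (V x ∪ V y).card := by
          apply Finset.card_le_card
          exact Finset.union_subset (Finset.union_subset (key u hu) (key v hv)) (key w hw)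
      _ ≤ 2 := hc
  · have hc3 : ∀ e : Pt A, ¬ (V x ∪ V y ∪ V e).card ≤ 2 := by
      intro e h
      have : (V x ∪ V y).card ≤ (V x ∪ V y ∪ V e).card :=
        Finset.card_le_card Finset.subset_union_left
      omega
    have key : ∀ e e', (e ≠ x ∧ e ≠ y ∧ Dep3 x y e) → (e' ≠ x ∧ e' ≠ y ∧ Dep3 x y e') → e = e' := by
      rintro e e' ⟨h1, h2, h3⟩ ⟨h1', h2', h3'⟩
      rcases h3 with h3 | ⟨φ, hx, hy, he⟩
      · exact absurd h3 (hc3 e)
      rcases h3' with h3' | ⟨ψ, hx', hy', he'⟩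
      · exact absurd h3' (hc3 e')
      exact third hxy h1 h2 h1' h2' hx hy he hx' hy' he'
    -- some e0 among u,v,w is not x,y
    have hex : ∃ e0, e0 ≠ x ∧ e0 ≠ y ∧ Dep3 x y e0 := by
      by_contra hn
      push Not at hn
      have h1 : ∀ e, (e = x ∨ e = y ∨ Dep3 x y e) → e = x ∨ e = y := by
        intro e he
        by_contra h
        push Not at h
        rcases he with h' | h' | h'
        · exact h.1 h'
        · exact h.2 h'
        · exact hn e h.1 h.2 h'
      rcases h1 u hu with rfl | rfl <;> rcases h1 v hv with rfl | rfl <;>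
        rcases h1 w hw with rfl | rfl <;> simp_all
    obtain ⟨e0, h01, h02, h03⟩ := hex
    have hdep := h03
    rcases hdep with hdep | ⟨φ, hx, hy, he⟩
    · exact absurd hdep (hc3 e0)
    have h1 : ∀ e, (e = x ∨ e = y ∨ Dep3 x y e) → good φ e := by
      intro e he'
      by_cases hex : e = x
      · rw [hex]; exact hx
      by_cases hey : e = y
      · rw [hey]; exact hy
      rcases he' with h' | h' | h'
      · exact absurd h' hex
      · exact absurd h' hey
      · rw [key e e0 ⟨hex, hey, h'⟩ ⟨h01, h02, h03⟩]; exact he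
    exact Or.inr ⟨φ, h1 u hu, h1 v hv, h1 w hw⟩

lemma Cnd_mono {I J : Set (Pt A)} (hJ : Cnd J) (h : I ⊆ J) : Cnd I :=
  fun T hT hne => hJ T (hT.trans h) hne

lemma augment {I J : Set (Pt A)} (hJ : Cnd J) (hlt : I.encard < J.encard) :
    ∃ e ∈ J, e ∉ I ∧ Cnd (insert e I) := by
  classical
  by_contra hn
  push Not at hn
  have hJ3 := Cnd_card hJ
  obtain ⟨e, heJ, heI⟩ : ∃ e ∈ J, e ∉ I := by
    by_contra h
    push Not at h
    exact absurd (Set.encard_le_encard (show J ⊆ I from h)) (not_le.2 hlt)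
  have hI2 : I.encard ≤ 2 := by
    have h := hlt.trans_le hJ3
    rw [show (3 : ℕ∞) = 2 + 1 by norm_num] at h
    exact Order.le_of_lt_add_one h
  have hI1 : ¬ I.encard ≤ 1 := by
    intro h
    apply hn e heJ heI
    apply Cnd_small
    calc (insert e I).encard ≤ I.encard + 1 := Set.encard_insert_le I e
      _ ≤ 1 + 1 := by gcongr
      _ = 2 := by norm_num
  have hI2' : I.encard = 2 := by
    apply le_antisymm hI2
    have := Order.add_one_le_of_lt (not_le.1 hI1)
    exact this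
  have hJ3' : J.encard = 3 := by
    apply le_antisymm hJ3
    rw [hI2'] at hlt
    exact Order.add_one_le_of_lt hlt
  obtain ⟨x, y, hxy, rfl⟩ := Set.encard_eq_two.1 hI2'
  obtain ⟨u, v, w, huv, huw, hvw, rfl⟩ := Set.encard_eq_three.1 hJ3'
  have key : ∀ e ∈ ({u, v, w} : Set (Pt A)), e = x ∨ e = y ∨ Dep3 x y e := by
    intro e he
    by_cases hex : e = x
    · exact Or.inl hex
    by_cases hey : e = y
    · exact Or.inr (Or.inl hey)
    right; right
    have h1 := hn e he (by simp [hex, hey])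
    have h2 : (insert e {x, y} : Set (Pt A)) = {x, y, e} := by
      ext z; simp only [Set.mem_insert_iff, Set.mem_singleton_iff]; tauto
    rw [h2, Cnd_three x y e hxy (Ne.symm hex) (Ne.symm hey), not_not] at h1
    exact h1
  have := dep_close hxy huv huw hvw (key u (by simp)) (key v (by simp)) (key w (by simp))
  exact (Cnd_three u v w huv huw hvw).1 hJ this

/-- the rank-3 Dowling matroid -/
def DM (A : Type) [Group A] : Matroid (Pt A) :=
  (IndepMatroid.ofBddAugment Set.univ Cnd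
    (by
      intro T hT hne
      obtain ⟨x, hx⟩ := hne
      exact (hT hx).elim)
    (fun _ _ hJ h => Cnd_mono hJ h)
    (fun _ _ _ hJ hlt => augment hJ hlt)
    ⟨3, fun _ hI => Cnd_card hI⟩
    (fun _ _ => Set.subset_univ _)).matroid

lemma DM_indep (Y : Set (Pt A)) : (DM A).Indep Y ↔ Cnd Y := Iff.rfl

lemma sub_of_dep {x y e : Pt A} (hxy : x ≠ y) (hc : (V x ∪ V y).card ≤ 2) (h : Dep3 x y e) :
    V e ⊆ V x ∪ V y := by
  have hc2 : (V x ∪ V y).card = 2 := le_antisymm hc (two x y hxy)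
  rcases h with h | ⟨φ, hx, hy, _⟩
  · have : V x ∪ V y = V x ∪ V y ∪ V e :=
      Finset.eq_of_subset_of_card_le Finset.subset_union_left (by omega)
    rw [this]
    exact Finset.subset_union_right
  · have := good_pair hxy hx hy
    omega

/-- oriented gain -/
def gn (x : Pt A) (u : Fin 3) : A :=
  match x with
  | Sum.inl _ => 1
  | Sum.inr (g, P) => if P.1.1 = u then g else g⁻¹

lemma pr_sub : ∀ (P : Pr) (u v : Fin 3), ({P.1.1, P.1.2} : Finset (Fin 3)) ⊆ {u, v} →
    (P.1.1 = u ∧ P.1.2 = v) ∨ (P.1.1 = v ∧ P.1.2 = u) := by decide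

lemma pr_ne (P : Pr) : P.1.1 ≠ P.1.2 := ne_of_lt P.2

lemma gn_pot {x : A × Pr} {u v : Fin 3} (hV : V (Sum.inr x : Pt A) ⊆ {u, v}) {φ : Fin 3 → A}
    (hg : good φ (Sum.inr x)) : gn (Sum.inr x) u = φ u * (φ v)⁻¹ := by
  obtain ⟨g, P⟩ := x
  rcases pr_sub P u v hV with ⟨h1, h2⟩ | ⟨h1, h2⟩
  · simp only [good] at hg
    simp [gn, h1, hg, h2]
  · simp only [good] at hg
    have : P.1.1 ≠ u := by
      rw [← h2]; exact pr_ne P
    have hvu : v ≠ u := by rw [← h1]; exact this
    simp [gn, h1, hg, h2, hvu]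

lemma gn_inj {x y : A × Pr} {u v : Fin 3} (hV : V (Sum.inr x : Pt A) ⊆ {u, v})
    (hV' : V (Sum.inr y : Pt A) ⊆ {u, v}) (h : gn (Sum.inr x) u = gn (Sum.inr y) u) : x = y := by
  obtain ⟨g, P⟩ := x
  obtain ⟨k, Q⟩ := y
  have hPQ : P = Q := by
    have hlt := P.2
    have hlt' := Q.2
    rcases pr_sub P u v hV with ⟨h1, h2⟩ | ⟨h1, h2⟩ <;>
      rcases pr_sub Q u v hV' with ⟨h3, h4⟩ | ⟨h3, h4⟩
    · exact Subtype.ext (Prod.ext (h1.trans h3.symm) (h2.trans h4.symm))
    · rw [h1, h2] at hlt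
      rw [h3, h4] at hlt'
      exact absurd hlt (not_lt.2 hlt'.le)
    · rw [h1, h2] at hlt
      rw [h3, h4] at hlt'
      exact absurd hlt (not_lt.2 hlt'.le)
    · exact Subtype.ext (Prod.ext (h1.trans h3.symm) (h2.trans h4.symm))
  subst hPQ
  simp only [gn] at h
  split_ifs at h with h1
  · rw [h]
  · rw [inv_inj.1 h]

end

def P01 : Pr := ⟨(0, 1), by decide⟩
def P12 : Pr := ⟨(1, 2), by decide⟩
def P02 : Pr := ⟨(0, 2), by decide⟩

abbrev QQ {A : Type} (S : Finset A) : Type := Fin 3 ⊕ (S × Pr)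

def io {A : Type} (S : Finset A) : QQ S → Pt A := Sum.map id (Prod.map Subtype.val id)

lemma io_inj {A : Type} (S : Finset A) : Function.Injective (io S) :=
  Function.Injective.sumMap Function.injective_id
    (Function.Injective.prodMap Subtype.val_injective Function.injective_id)

section
variable {A A' : Type} [Group A] [Group A']

theorem partialHom (S : Finset A) (o s : S) (ho : (o : A) = 1) (hs : s ≠ o) (F : QQ S → Pt A')
    (hF : Function.Injective F)
    (hdep : ∀ x y z : QQ S, x ≠ y → x ≠ z → y ≠ z →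
      (Dep3 (io S x) (io S y) (io S z) ↔ Dep3 (F x) (F y) (F z))) :
    ∃ h : S → A', Function.Injective h ∧ ∀ α β γ : S, (γ : A) = α * β → h γ = h α * h β := by
  -- coordinate lines
  have hline : ∀ (P : Pr) (w : S), Dep3 (F (Sum.inl P.1.1)) (F (Sum.inl P.1.2)) (F (Sum.inr (w, P))) := by
    intro P w
    rw [← hdep _ _ _ (by simpa using pr_ne P) (by simp) (by simp)]
    left
    have : V (io S (Sum.inl P.1.1)) ∪ V (io S (Sum.inl P.1.2)) ∪ V (io S (Sum.inr (w, P))) =
      {P.1.1, P.1.2} := by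
      simp only [io, Sum.map_inl, Sum.map_inr, V, id, Sum.elim_inl, Sum.elim_inr, Prod.map]
      ext i; simp
    rw [this]
    exact Finset.card_le_two
  have hne12 : ∀ P : Pr, F (Sum.inl P.1.1) ≠ F (Sum.inl P.1.2) := by
    intro P h
    exact pr_ne P (Sum.inl_injective (hF h))
  have hstep1 : ∀ P : Pr, (V (F (Sum.inl P.1.1)) ∪ V (F (Sum.inl P.1.2))).card ≤ 2 := by
    intro P
    by_contra hn
    have hc3 : ∀ e : Pt A', ¬ (V (F (Sum.inl P.1.1)) ∪ V (F (Sum.inl P.1.2)) ∪ V e).card ≤ 2 := by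
      intro e h
      have : (V (F (Sum.inl P.1.1)) ∪ V (F (Sum.inl P.1.2))).card ≤
          (V (F (Sum.inl P.1.1)) ∪ V (F (Sum.inl P.1.2)) ∪ V e).card :=
        Finset.card_le_card Finset.subset_union_left
      omega
    rcases hline P o with h1 | ⟨φ, h1, h2, h3⟩
    · exact hc3 _ h1
    rcases hline P s with h1' | ⟨ψ, h1', h2', h3'⟩
    · exact hc3 _ h1'
    have := third (hne12 P) (fun h => by simpa using hF h) (fun h => by simpa using hF h)
      (fun h => by simpa using hF h) (fun h => by simpa using hF h) h1 h2 h3 h1' h2' h3'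
    have := hF this
    simp only [Sum.inr.injEq, Prod.mk.injEq, and_true] at this
    exact hs this.symm
  have hsub : ∀ (P : Pr) (w : S), V (F (Sum.inr (w, P))) ⊆
      V (F (Sum.inl P.1.1)) ∪ V (F (Sum.inl P.1.2)) := fun P w =>
    sub_of_dep (hne12 P) (hstep1 P) (hline P w)
  have hstep1' : ∀ i j : Fin 3, i ≠ j → (V (F (Sum.inl i)) ∪ V (F (Sum.inl j))).card ≤ 2 := by
    intro i j hij
    rcases lt_or_gt_of_ne hij with h | h
    · exact hstep1 ⟨(i, j), h⟩
    · rw [Finset.union_comm]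
      exact hstep1 ⟨(j, i), h⟩
  have hall : ¬ (V (F (Sum.inl 0)) ∪ V (F (Sum.inl 1)) ∪ V (F (Sum.inl 2))).card ≤ 2 := by
    intro h
    have h1 : Dep3 (F (Sum.inl 0)) (F (Sum.inl 1)) (F (Sum.inl 2)) := Or.inl h
    rw [← hdep _ _ _ (by simp) (by simp) (by simp)] at h1
    rcases h1 with h1 | ⟨φ, h1, _⟩
    · revert h1
      simp only [io, Sum.map_inl, V, id, Sum.elim_inl]
      decide
    · exact h1
  have hpi : ∀ i : Fin 3, ∃ k : Fin 3, F (Sum.inl i) = Sum.inl k := by
    intro i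
    rcases hFi : F (Sum.inl i) with k | x
    · exact ⟨k, rfl⟩
    · exfalso
      have hVi : (V (F (Sum.inl i))).card = 2 := by rw [hFi]; exact V_inr_card x
      have hj : ∀ j : Fin 3, V (F (Sum.inl j)) ⊆ V (F (Sum.inl i)) := by
        intro j
        by_cases hij : i = j
        · rw [hij]
        · have h1 := hstep1' i j hij
          have : V (F (Sum.inl i)) = V (F (Sum.inl i)) ∪ V (F (Sum.inl j)) :=
            Finset.eq_of_subset_of_card_le Finset.subset_union_left (by omega)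
          rw [this]
          exact Finset.subset_union_right
      apply hall
      calc _ ≤ (V (F (Sum.inl i))).card := Finset.card_le_card
            (Finset.union_subset (Finset.union_subset (hj 0) (hj 1)) (hj 2))
        _ ≤ 2 := hVi.le
  choose π hπ using hpi
  have hπinj : ∀ i j, i ≠ j → π i ≠ π j := by
    intro i j hij h
    apply hij
    have : F (Sum.inl i) = F (Sum.inl j) := by rw [hπ, hπ, h]
    exact Sum.inl_injective (hF this)
  have hint : ∀ (P : Pr) (w : S), ∃ x : A' × Pr, F (Sum.inr (w, P)) = Sum.inr x ∧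
      V (Sum.inr x : Pt A') ⊆ {π P.1.1, π P.1.2} := by
    intro P w
    have h1 := hsub P w
    rw [hπ, hπ, V_inl, V_inl] at h1
    rcases hx : F (Sum.inr (w, P)) with k | x
    · exfalso
      rw [hx, V_inl] at h1
      have hk : k ∈ ({π P.1.1} ∪ {π P.1.2} : Finset (Fin 3)) := h1 (Finset.mem_singleton_self k)
      simp only [Finset.mem_union, Finset.mem_singleton] at hk
      rcases hk with hk | hk
      · rw [hk, ← hπ] at hx
        simpa using hF hx
      · rw [hk, ← hπ] at hx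
        simpa using hF hx
    · refine ⟨x, rfl, ?_⟩
      rw [hx] at h1
      exact h1
  choose G hG hGV using hint
  have hmul : ∀ α β γ : S, (γ : A) = α * β →
      gn (Sum.inr (G P01 α) : Pt A') (π 0) * gn (Sum.inr (G P12 β) : Pt A') (π 1) =
        gn (Sum.inr (G P02 γ) : Pt A') (π 0) := by
    intro α β γ hγ
    have hd : Dep3 (io S (Sum.inr (α, P01))) (io S (Sum.inr (β, P12))) (io S (Sum.inr (γ, P02))) := by
      right
      refine ⟨![(γ : A), (β : A), 1], ?_, ?_, ?_⟩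
      · simp [io, good, P01, hγ]
      · simp [io, good, P12]
      · simp [io, good, P02]
    rw [hdep _ _ _ (by simp [P01, P12]) (by simp [P01, P02]) (by simp [P12, P02])] at hd
    rw [hG, hG, hG] at hd
    rcases hd with hd | ⟨φ, h1, h2, h3⟩
    · exfalso
      have hg01 := pr_sub (G P01 α).2 _ _ (hGV P01 α)
      have hg12 := pr_sub (G P12 β).2 _ _ (hGV P12 β)
      have hPQ : (G P01 α).2 ≠ (G P12 β).2 := by
        intro h
        rw [h] at hg01
        have n01 := hπinj 0 1 (by decide)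
        have n02 := hπinj 0 2 (by decide)
        have n12 := hπinj 1 2 (by decide)
        simp only [P01, P12] at hg01 hg12
        rcases hg01 with ⟨a1, a2⟩ | ⟨a1, a2⟩ <;> rcases hg12 with ⟨b1, b2⟩ | ⟨b1, b2⟩
        · exact n01 (a1.symm.trans b1)
        · exact n02 (a1.symm.trans b1)
        · exact n02 (a2.symm.trans b2)
        · exact n12 (a1.symm.trans b1)
      have h3 := pair_ne _ _ hPQ
      have h4 : (({(G P01 α).2.1.1, (G P01 α).2.1.2} : Finset (Fin 3)) ∪
        {(G P12 β).2.1.1, (G P12 β).2.1.2}).card ≤ (V (Sum.inr (G P01 α) : Pt A') ∪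
          V (Sum.inr (G P12 β) : Pt A') ∪ V (Sum.inr (G P02 γ) : Pt A')).card :=
        Finset.card_le_card Finset.subset_union_left
      omega
    · have e1 : gn (Sum.inr (G P01 α) : Pt A') (π 0) = φ (π 0) * (φ (π 1))⁻¹ :=
        gn_pot (hGV P01 α) h1
      have e2 : gn (Sum.inr (G P12 β) : Pt A') (π 1) = φ (π 1) * (φ (π 2))⁻¹ :=
        gn_pot (hGV P12 β) h2
      have e3 : gn (Sum.inr (G P02 γ) : Pt A') (π 0) = φ (π 0) * (φ (π 2))⁻¹ :=
        gn_pot (hGV P02 γ) h3
      rw [e1, e2, e3]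
      group
  -- normalise
  set h01 : S → A' := fun w => gn (Sum.inr (G P01 w) : Pt A') (π 0) with hh01
  set h12 : S → A' := fun w => gn (Sum.inr (G P12 w) : Pt A') (π 1) with hh12
  set h02 : S → A' := fun w => gn (Sum.inr (G P02 w) : Pt A') (π 0) with hh02
  have hm : ∀ α β γ : S, (γ : A) = α * β → h01 α * h12 β = h02 γ := hmul
  refine ⟨fun w => h02 w * (h01 o * h12 o)⁻¹, ?_, ?_⟩
  · intro v w hvw
    have h1 : h02 v = h02 w := mul_right_cancel hvw
    have h2 := gn_inj (hGV P02 v) (hGV P02 w) h1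
    have h3 : F (Sum.inr (v, P02)) = F (Sum.inr (w, P02)) := by rw [hG, hG, h2]
    have h4 := hF h3
    simpa using h4
  · intro α β γ hγ
    have e1 := hm α β γ hγ
    have e2 := hm α o α (by rw [ho, mul_one])
    have e3 := hm o β β (by rw [ho, one_mul])
    simp only
    rw [← e1, ← e2, ← e3]
    group

lemma fin_comm [Finite A'] (x y : A') (h : y * x * x = x * (x * x) * y) :
    x * (y * x * y⁻¹) = (y * x * y⁻¹) * x := by
  have hsc : SemiconjBy y (x ^ 2) (x ^ 3) := by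
    unfold SemiconjBy
    rw [pow_two, ← mul_assoc, h, pow_succ, pow_two, mul_assoc x x x]
  have hord : orderOf (x ^ 2) = orderOf (x ^ 3) := SemiconjBy.orderOf_eq y hsc
  rw [orderOf_pow, orderOf_pow] at hord
  have hpos : 0 < orderOf x := orderOf_pos x
  have hg : Nat.gcd (orderOf x) 2 = Nat.gcd (orderOf x) 3 := by
    have d1 := Nat.gcd_dvd_left (orderOf x) 2
    have d2 := Nat.gcd_dvd_left (orderOf x) 3
    obtain ⟨q1, hq1⟩ := d1
    obtain ⟨q2, hq2⟩ := d2
    have p1 : 0 < Nat.gcd (orderOf x) 2 := Nat.gcd_pos_of_pos_left _ hpos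
    have p2 : 0 < Nat.gcd (orderOf x) 3 := Nat.gcd_pos_of_pos_left _ hpos
    have e1 : orderOf x / Nat.gcd (orderOf x) 2 = q1 := Nat.div_eq_of_eq_mul_right p1 hq1
    have e2 : orderOf x / Nat.gcd (orderOf x) 3 = q2 := Nat.div_eq_of_eq_mul_right p2 hq2
    rw [e1, e2] at hord
    subst hord
    have hq : 0 < q1 := by
      rcases Nat.eq_zero_or_pos q1 with h0 | h0
      · rw [h0, mul_zero] at hq1; omega
      · exact h0
    exact Nat.eq_of_mul_eq_mul_right hq (hq1.symm.trans hq2)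
  have hg1 : Nat.gcd (orderOf x) 2 = 1 := by
    have a1 := Nat.gcd_dvd_right (orderOf x) 2
    have a2 := Nat.gcd_dvd_right (orderOf x) 3
    rw [← hg] at a2
    have : Nat.gcd (orderOf x) 2 ∣ 1 := by
      have := (Nat.dvd_sub a2 a1)
      simpa using this
    exact Nat.dvd_one.1 this
  have hcop : Nat.Coprime 2 (orderOf x) := by
    rw [Nat.coprime_comm]; exact hg1
  obtain ⟨m, hm⟩ := exists_pow_eq_self_of_coprime hcop
  have hconj : y * x * y⁻¹ = (x ^ 3) ^ m := by
    have h1 : y * (x ^ 2) ^ m = (x ^ 3) ^ m * y := (hsc.pow_right m)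
    rw [hm] at h1
    rw [h1]; group
  rw [hconj]
  have : Commute x ((x ^ 3) ^ m) := ((Commute.refl x).pow_right 3).pow_right m
  exact this

end

/-- the translation -/
def ta : Equiv.Perm (ℤ × ℤ) where
  toFun p := (p.1 + 1, p.2)
  invFun p := (p.1 - 1, p.2)
  left_inv p := by simp
  right_inv p := by simp

def tt : Equiv.Perm (ℤ × ℤ) where
  toFun p := (3 * (p.1 / 2) + (2 * p.2 + p.1 % 2) % 3, (2 * p.2 + p.1 % 2) / 3)
  invFun p := (2 * (p.1 / 3) + (3 * p.2 + p.1 % 3) % 2, (3 * p.2 + p.1 % 3) / 2)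
  left_inv p := by
    obtain ⟨n, i⟩ := p
    simp only [Prod.mk.injEq]
    constructor <;> omega
  right_inv p := by
    obtain ⟨n, i⟩ := p
    simp only [Prod.mk.injEq]
    constructor <;> omega

lemma rel_at : tt * ta * ta = ta * (ta * ta) * tt := by
  ext ⟨n, i⟩
  · simp only [Equiv.Perm.mul_apply, ta, tt, Equiv.coe_fn_mk]
    omega
  · simp only [Equiv.Perm.mul_apply, ta, tt, Equiv.coe_fn_mk]
    omega

lemma ncomm : ta * (tt * ta * tt⁻¹) ≠ (tt * ta * tt⁻¹) * ta := by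
  intro h
  have := congrArg (fun p : Equiv.Perm (ℤ × ℤ) => (p (0, 0)).1) h
  simp only [Equiv.Perm.mul_apply] at this
  revert this
  decide

lemma ta_ne_one : ta ≠ 1 := by
  intro h
  have := congrArg (fun p : Equiv.Perm (ℤ × ℤ) => (p (0, 0)).1) h
  revert this
  decide

/-- The negation of the preceding statement: If a finite matroid embeds in the rank-r Dowling geometry over some infinite group, encoded as a gain-graph frame matroid, then it also embeds in the rank-r Dowling geometry over some finite group. -/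
theorem result :
    ¬ (∀ (n r : ℕ) (M : Matroid (Fin n)) (A : Type) [Group A], Infinite A →
      (∃ f : Fin n → Fin r ⊕ (A × {p : Fin r × Fin r // p.1 < p.2}),
        Set.InjOn f M.E ∧
        ∀ X ⊆ M.E, (M.Indep X ↔
          ∀ T : Finset (Fin r ⊕ (A × {p : Fin r × Fin r // p.1 < p.2})),
            (↑T ⊆ f '' X) → T.Nonempty →
              (T.card ≤ (T.biUnion (fun e => Sum.elim (fun i => ({i} : Finset (Fin r)))
                  (fun x => ({x.2.1.1, x.2.1.2} : Finset (Fin r))) e)).card ∧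
               (((∀ i : Fin r, Sum.inl i ∉ T) ∧
                  ∃ φ : Fin r → A, ∀ x : A × {p : Fin r × Fin r // p.1 < p.2},
                    Sum.inr x ∈ T → x.1 = φ x.2.1.1 * (φ x.2.1.2)⁻¹) →
                T.card + 1 ≤ (T.biUnion (fun e => Sum.elim (fun i => ({i} : Finset (Fin r)))
                  (fun x => ({x.2.1.1, x.2.1.2} : Finset (Fin r))) e)).card)))) →
      ∃ (A' : Type) (_ : Group A'), Finite A' ∧
        ∃ f : Fin n → Fin r ⊕ (A' × {p : Fin r × Fin r // p.1 < p.2}),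
          Set.InjOn f M.E ∧
          ∀ X ⊆ M.E, (M.Indep X ↔
            ∀ T : Finset (Fin r ⊕ (A' × {p : Fin r × Fin r // p.1 < p.2})),
              (↑T ⊆ f '' X) → T.Nonempty →
                (T.card ≤ (T.biUnion (fun e => Sum.elim (fun i => ({i} : Finset (Fin r)))
                    (fun x => ({x.2.1.1, x.2.1.2} : Finset (Fin r))) e)).card ∧
                 (((∀ i : Fin r, Sum.inl i ∉ T) ∧
                    ∃ φ : Fin r → A', ∀ x : A' × {p : Fin r × Fin r // p.1 < p.2},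
                      Sum.inr x ∈ T → x.1 = φ x.2.1.1 * (φ x.2.1.2)⁻¹) →
                  T.card + 1 ≤ (T.biUnion (fun e => Sum.elim (fun i => ({i} : Finset (Fin r)))
                    (fun x => ({x.2.1.1, x.2.1.2} : Finset (Fin r))) e)).card)))) := by
  intro H
  classical
  let a := ta
  let t := tt
  let b := tt * ta * tt⁻¹
  let S : Finset (Equiv.Perm (ℤ × ℤ)) :=
    {1, a, a * a, a * (a * a), t, t * a, t * a * a, b, a * b, b * a}
  let e : Fin (Fintype.card (QQ S)) ≃ QQ S := (Fintype.equivFin (QQ S)).symm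
  let f : Fin (Fintype.card (QQ S)) → Pt (Equiv.Perm (ℤ × ℤ)) := fun i => io S (e i)
  have hf : Function.Injective f := (io_inj S).comp e.injective
  have h := H (Fintype.card (QQ S)) 3 ((DM (Equiv.Perm (ℤ × ℤ))).comap f) (Equiv.Perm (ℤ × ℤ))
    inferInstance ⟨f, hf.injOn, ?_⟩
  · obtain ⟨A', iA', hfin, f', hf', hX⟩ := h
    have hE : ((DM (Equiv.Perm (ℤ × ℤ))).comap f).E = Set.univ := by
      rw [Matroid.comap_ground_eq]; rfl
    rw [hE] at hf' hX
    have hinj' : Function.Injective f' := Set.injOn_univ.1 hf'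
    let F : QQ S → Pt A' := fun q => f' (e.symm q)
    have hF : Function.Injective F := hinj'.comp e.symm.injective
    have hdep : ∀ x y z : QQ S, x ≠ y → x ≠ z → y ≠ z →
      (Dep3 (io S x) (io S y) (io S z) ↔ Dep3 (F x) (F y) (F z)) := by
      intro x y z hxy hxz hyz
      have h1 := hX {e.symm x, e.symm y, e.symm z} (Set.subset_univ _)
      change _ ↔ FrozenCnd A' _ at h1
      rw [frozen_iff, Matroid.comap_indep_iff, DM_indep] at h1
      have h2 : f '' {e.symm x, e.symm y, e.symm z} = {io S x, io S y, io S z} := by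
        simp [Set.image_insert_eq, f]
      have h3 : f' '' {e.symm x, e.symm y, e.symm z} = {F x, F y, F z} := by
        simp [Set.image_insert_eq, F]
      rw [h2, h3, Cnd_three _ _ _ ((io_inj S).ne hxy) ((io_inj S).ne hxz) ((io_inj S).ne hyz),
        Cnd_three _ _ _ (hF.ne hxy) (hF.ne hxz) (hF.ne hyz)] at h1
      have h4 : Set.InjOn f {e.symm x, e.symm y, e.symm z} := hf.injOn
      have h5 : (¬ Dep3 (io S x) (io S y) (io S z)) ↔ ¬ Dep3 (F x) (F y) (F z) := by
        rw [← h1]; exact ⟨fun h => ⟨h, h4⟩, fun h => h.1⟩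
      exact not_iff_not.1 h5
    have m1 : (1 : Equiv.Perm (ℤ × ℤ)) ∈ S := by simp [S]
    have ma : a ∈ S := by simp [S]
    have ma2 : a * a ∈ S := by simp [S]
    have ma3 : a * (a * a) ∈ S := by simp [S]
    have mt : t ∈ S := by simp [S]
    have mta : t * a ∈ S := by simp [S]
    have mta2 : t * a * a ∈ S := by simp [S]
    have mb : b ∈ S := by simp [S]
    have mab : a * b ∈ S := by simp [S]
    have mba : b * a ∈ S := by simp [S]
    obtain ⟨h, hinj, hmul⟩ := partialHom S ⟨1, m1⟩ ⟨a, ma⟩ rfl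
      (fun h => ta_ne_one (congrArg Subtype.val h)) F hF hdep
    have e1 := hmul ⟨a, ma⟩ ⟨a, ma⟩ ⟨a * a, ma2⟩ rfl
    have e2 := hmul ⟨a, ma⟩ ⟨a * a, ma2⟩ ⟨a * (a * a), ma3⟩ rfl
    have e3 := hmul ⟨t, mt⟩ ⟨a, ma⟩ ⟨t * a, mta⟩ rfl
    have e4 := hmul ⟨t * a, mta⟩ ⟨a, ma⟩ ⟨t * a * a, mta2⟩ rfl
    have e5 := hmul ⟨a * (a * a), ma3⟩ ⟨t, mt⟩ ⟨t * a * a, mta2⟩ rel_at
    have e6 := hmul ⟨b, mb⟩ ⟨t, mt⟩ ⟨t * a, mta⟩ (by simp [b, t, a])
    have e7 := hmul ⟨a, ma⟩ ⟨b, mb⟩ ⟨a * b, mab⟩ rfl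
    have e8 := hmul ⟨b, mb⟩ ⟨a, ma⟩ ⟨b * a, mba⟩ rfl
    have hrel : h ⟨t, mt⟩ * h ⟨a, ma⟩ * h ⟨a, ma⟩ =
        h ⟨a, ma⟩ * (h ⟨a, ma⟩ * h ⟨a, ma⟩) * h ⟨t, mt⟩ := by
      rw [← e1, ← e2, ← e5, ← e3, ← e4]
    have hb : h ⟨b, mb⟩ = h ⟨t, mt⟩ * h ⟨a, ma⟩ * (h ⟨t, mt⟩)⁻¹ := by
      rw [← e3, e6]; group
    have hc := fin_comm _ _ hrel
    rw [← hb, ← e7, ← e8] at hc
    have := congrArg Subtype.val (hinj hc)
    exact ncomm this
  · intro X _
    change _ ↔ FrozenCnd _ _
    rw [frozen_iff, Matroid.comap_indep_iff, DM_indep]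
    exact ⟨fun h => h.1, fun h => ⟨h, hf.injOn⟩⟩

end Pool.Agent.S08212
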