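import Pool.Statements.S08234
-- import your own Pool.Agent.* helpers here

set_option autoImplicit false
open Pool Pool.MP_e4c5f9_co

namespace Pool.Agent.S08234

open Finset

/-- weights: `none ↦ 1`, `some _ ↦ X` -/
def wt (X : ℕ) : Option Bool → ℕ
  | none => 1
  | some _ => X

abbrev W (q r m : ℕ) := (Fin q × Fin r) ⊕ Fin m

def Wadj {q r m : ℕ} : W q r m → W q r m → Prop
  | .inl a, .inl b => a.1 = b.1 ∧ a.2 ≠ b.2
  | .inl _, .inr _ => True
  | .inr _, .inl _ => True
  | .inr _, .inr _ => False

theorem Wadj_symm {q r m : ℕ} {a b : W q r m} (h : Wadj a b) : Wadj b a := by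
  rcases a with a | a <;> rcases b with b | b <;> simp_all [Wadj, eq_comm]

theorem Wadj_irrefl {q r m : ℕ} (a : W q r m) : ¬ Wadj a a := by
  rcases a with a | a <;> simp [Wadj]

/-- the corona of the join -/
def G (q r m : ℕ) : SimpleGraph (W q r m × Bool) where
  Adj v w := (v.2 = false ∧ w.2 = false ∧ Wadj v.1 w.1) ∨ (v.1 = w.1 ∧ v.2 ≠ w.2)
  symm := ⟨by
    rintro v w (⟨h1, h2, h3⟩ | ⟨h1, h2⟩)
    · exact Or.inl ⟨h2, h1, Wadj_symm h3⟩
    · exact Or.inr ⟨h1.symm, h2.symm⟩⟩
  loopless := ⟨by
    rintro v (⟨_, _, h⟩ | ⟨_, h⟩)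
    · exact Wadj_irrefl _ h
    · exact h rfl⟩

/-- sum over functions of a product with a pointwise condition -/
theorem sum_pi {ι : Type} [Fintype ι] [DecidableEq ι] {O : Type} [Fintype O] [DecidableEq O] (wt : O → ℕ)
    (p : ι → O → Prop) [DecidablePred fun f : ι → O => ∀ i, p i (f i)] [∀ i o, Decidable (p i o)] :
    ∑ f : ι → O, (if ∀ i, p i (f i) then ∏ i, wt (f i) else 0)
      = ∏ i, ∑ o : O, if p i o then wt o else 0 := by
  rw [Finset.prod_univ_sum, Fintype.piFinset_univ]
  refine Finset.sum_congr rfl fun f _ => ?_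
  rw [Finset.prod_ite_zero]
  simp

theorem block (X r : ℕ) :
    ∑ u : Fin r → Option Bool,
      (if ∀ j j', u j = some false → u j' = some false → j = j' then ∏ j, wt X (u j) else 0)
      = (1 + X) ^ r + r * (X * (1 + X) ^ (r - 1)) := by
  have key : ∀ u : Fin r → Option Bool,
      (if ∀ j j', u j = some false → u j' = some false → j = j' then ∏ j, wt X (u j) else 0)
      = (if ∀ j, u j ≠ some false then ∏ j, wt X (u j) else 0)
        + ∑ j0 : Fin r, (if ∀ j, (if j = j0 then u j = some false else u j ≠ some false)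
            then ∏ j, wt X (u j) else 0) := by
    intro u
    by_cases h0 : ∀ j, u j ≠ some false
    · have h1 : ∀ j j', u j = some false → u j' = some false → j = j' := fun j j' h => absurd h (h0 j)
      rw [if_pos h0, if_pos h1, Finset.sum_eq_zero, add_zero]
      intro j0 _
      rw [if_neg]
      intro h
      exact h0 j0 (by simpa using h j0)
    · push Not at h0
      obtain ⟨j0, hj0⟩ := h0
      have hn : ¬ ∀ j, u j ≠ some false := fun h => h j0 hj0
      rw [if_neg hn, zero_add, Finset.sum_eq_single j0]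
      · by_cases h1 : ∀ j j', u j = some false → u j' = some false → j = j'
        · rw [if_pos h1, if_pos]
          intro j
          by_cases hj : j = j0
          · rw [if_pos hj, hj]; exact hj0
          · rw [if_neg hj]; intro h; exact hj (h1 j j0 h hj0)
        · rw [if_neg h1, if_neg]
          intro h
          apply h1
          have h2 : ∀ j, u j = some false → j = j0 := by
            intro j hj
            by_contra hne
            have := h j
            rw [if_neg hne] at this
            exact this hj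
          intro j j' hj hj'
          rw [h2 j hj, h2 j' hj']
      · intro b _ hb
        rw [if_neg]
        intro h
        have := h j0
        rw [if_neg (Ne.symm hb)] at this
        exact this hj0
      · intro h; exact absurd (Finset.mem_univ _) h
  rw [Finset.sum_congr rfl fun u _ => key u, Finset.sum_add_distrib, Finset.sum_comm]
  congr 1
  · rw [sum_pi (wt X) (fun _ o => o ≠ some false)]
    simp [wt, Fintype.sum_option]
  · have : ∀ j0 : Fin r, ∑ u : Fin r → Option Bool,
        (if ∀ j, (if j = j0 then u j = some false else u j ≠ some false)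
            then ∏ j, wt X (u j) else 0) = X * (1 + X) ^ (r - 1) := by
      intro j0
      rw [sum_pi (wt X) (fun j o => if j = j0 then o = some false else o ≠ some false)]
      rw [← Finset.mul_prod_erase Finset.univ _ (Finset.mem_univ j0)]
      congr 1
      · simp [wt, Fintype.sum_option]
      · rw [Finset.prod_congr rfl (g := fun _ => 1 + X)]
        · simp
        · intro j hj
          have : j ≠ j0 := Finset.ne_of_mem_erase hj
          simp [wt, Fintype.sum_option, this]
    rw [Finset.sum_congr rfl fun j0 _ => this j0]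
    simp

section counts
variable {q r m : ℕ}

abbrev Fn (q r m : ℕ) := W q r m → Option Bool

def A0 (f : Fn q r m) : Prop := ∀ w, f w ≠ some false
def C1 (f : Fn q r m) : Prop := (∀ k, f (.inr k) ≠ some false) ∧
  ∀ i j j', f (.inl (i, j)) = some false → f (.inl (i, j')) = some false → j = j'
def C2 (f : Fn q r m) : Prop := ∀ p, f (.inl p) ≠ some false
def Ai (f : Fn q r m) : Prop := ∀ w w', Wadj w w' → ¬ (f w = some false ∧ f w' = some false)

def S (X : ℕ) (P : Fn q r m → Prop) [DecidablePred P] : ℕ :=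
  ∑ f : Fn q r m, if P f then ∏ w, wt X (f w) else 0

theorem S_A0 (X : ℕ) [DecidablePred (A0 (q := q) (r := r) (m := m))] : S (q := q) (r := r) (m := m) X A0 = (1 + X) ^ (q * r + m) := by
  have h := sum_pi (ι := W q r m) (wt X) (fun _ o => o ≠ some false)
  have e : S X (A0 (q := q) (r := r) (m := m)) = ∑ f : Fn q r m,
      if ∀ i, (fun (_ : W q r m) (o : Option Bool) => o ≠ some false) i (f i) then ∏ i, wt X (f i) else 0 :=
    Finset.sum_congr rfl fun f _ => if_congr Iff.rfl rfl rfl
  rw [e, h]
  simp [wt, pow_add, pow_mul]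

theorem S_C2 (X : ℕ) [DecidablePred (C2 (q := q) (r := r) (m := m))] : S (q := q) (r := r) (m := m) X C2 = (1 + X) ^ (q * r) * (1 + 2 * X) ^ m := by
  classical
  have : S (q := q) (r := r) (m := m) X C2 = ∑ f : Fn q r m,
      if ∀ w, (w.isLeft = true → f w ≠ some false) then ∏ w, wt X (f w) else 0 := by
    unfold S
    refine Finset.sum_congr rfl fun f _ => ?_
    refine if_congr ?_ rfl rfl
    constructor
    · rintro h (w | w) hw
      · exact h w
      · simp at hw
    · intro h p
      exact h (.inl p) rfl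
  have h := sum_pi (ι := W q r m) (wt X) (fun w o => (w.isLeft = true → o ≠ some false))
  rw [this]
  refine Eq.trans (Finset.sum_congr rfl fun f _ => if_congr Iff.rfl rfl rfl) (h.trans ?_)
  simp [wt, Fintype.prod_sum_type, Fintype.sum_option, pow_mul]
  ring

theorem S_C1 (X : ℕ) [DecidablePred (C1 (q := q) (r := r) (m := m))] : S (q := q) (r := r) (m := m) X C1
    = ((1 + X) ^ r + r * (X * (1 + X) ^ (r - 1))) ^ q * (1 + X) ^ m := by
  classical
  unfold S
  have e1 : ∑ f : Fn q r m, (if C1 f then ∏ w, wt X (f w) else 0)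
      = ∑ x : (Fin q × Fin r → Option Bool) × (Fin m → Option Bool),
        (if ∀ i, (∀ j j', x.1 (i, j) = some false → x.1 (i, j') = some false → j = j')
          then ∏ w, wt X (x.1 w) else 0) *
        (if ∀ k, x.2 k ≠ some false then ∏ w, wt X (x.2 w) else 0) := by
    refine Fintype.sum_equiv (Equiv.sumArrowEquivProdArrow _ _ _) _ _ fun f => ?_
    set x := (Equiv.sumArrowEquivProdArrow (Fin q × Fin r) (Fin m) (Option Bool)) f with hx
    have hx1 : ∀ p, f (.inl p) = x.1 p := fun _ => rfl
    have hx2 : ∀ k, f (.inr k) = x.2 k := fun _ => rfl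
    have hC : C1 f ↔ (∀ i, (∀ j j', x.1 (i, j) = some false → x.1 (i, j') = some false → j = j')) ∧
        ∀ k, x.2 k ≠ some false := by
      simp only [C1, hx1, hx2]
      exact and_comm
    rw [Fintype.prod_sum_type]
    simp only [hx1, hx2]
    by_cases h1 : (∀ i, (∀ j j', x.1 (i, j) = some false → x.1 (i, j') = some false → j = j'))
    · by_cases h2 : ∀ k, x.2 k ≠ some false
      · rw [if_pos (hC.2 ⟨h1, h2⟩), if_pos h1, if_pos h2]
      · rw [if_neg (fun h : C1 f => h2 (hC.1 h).2), if_neg h2, mul_zero]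
    · rw [if_neg (fun h : C1 f => h1 (hC.1 h).1), if_neg h1, zero_mul]
  rw [e1, Fintype.sum_prod_type]
  simp only
  rw [← Finset.sum_mul_sum (s := Finset.univ) (t := Finset.univ)
    (f := fun x : (Fin q × Fin r → Option Bool) =>
      (if ∀ i, (∀ j j', x (i, j) = some false → x (i, j') = some false → j = j')
          then ∏ w, wt X (x w) else 0))
    (g := fun x : (Fin m → Option Bool) => (if ∀ k, x k ≠ some false then ∏ w, wt X (x w) else 0))]
  congr 1
  · have e2 : ∑ x : (Fin q × Fin r → Option Bool),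
      (if ∀ i, (∀ j j', x (i, j) = some false → x (i, j') = some false → j = j')
          then ∏ w, wt X (x w) else 0)
      = ∑ y : Fin q → (Fin r → Option Bool),
        (if ∀ i, (∀ j j', y i j = some false → y i j' = some false → j = j')
          then ∏ i, (∏ j, wt X (y i j)) else 0) := by
      refine Fintype.sum_equiv (Equiv.curry _ _ _) _ _ fun x => ?_
      rw [Fintype.prod_prod_type]
      rfl
    rw [e2, sum_pi (fun u : Fin r → Option Bool => ∏ j, wt X (u j))
      (fun _ u => ∀ j j', u j = some false → u j' = some false → j = j')]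
    simp only [block, Finset.prod_const, Finset.card_univ, Fintype.card_fin]
  · rw [sum_pi (wt X) (fun _ o => o ≠ some false)]
    simp [wt]

theorem S_Ai (X : ℕ) [DecidablePred (C1 (q := q) (r := r) (m := m))]
    [DecidablePred (C2 (q := q) (r := r) (m := m))] [DecidablePred (A0 (q := q) (r := r) (m := m))]
    [DecidablePred (Ai (q := q) (r := r) (m := m))] : S (q := q) (r := r) (m := m) X Ai + S (q := q) (r := r) (m := m) X A0
    = S (q := q) (r := r) (m := m) X C1 + S (q := q) (r := r) (m := m) X C2 := by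
  classical
  unfold S
  rw [← Finset.sum_add_distrib, ← Finset.sum_add_distrib]
  refine Finset.sum_congr rfl fun f _ => ?_
  by_cases hl : ∃ p, f (.inl p) = some false
  · obtain ⟨p, hp⟩ := hl
    rw [if_neg (fun h : A0 f => h _ hp), if_neg (fun h : C2 f => h _ hp)]
    refine congrArg₂ _ (if_congr ?_ rfl rfl) rfl
    constructor
    · intro h
      refine ⟨fun k hk => h (.inl p) (.inr k) trivial ⟨hp, hk⟩, fun i j j' h1 h2 => ?_⟩
      by_contra hne
      exact h (.inl (i, j)) (.inl (i, j')) ⟨rfl, hne⟩ ⟨h1, h2⟩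
    · rintro ⟨h1, h2⟩ (⟨i, j⟩ | w) (⟨i', j'⟩ | w') hw ⟨e1, e2⟩
      · obtain ⟨h3, h4⟩ := hw
        simp only at h3 h4
        subst h3
        exact h4 (h2 _ _ _ e1 e2)
      · exact h1 _ e2
      · exact h1 _ e1
      · exact hw
  · push Not at hl
    have hAi : Ai f := by
      rintro (w | w) (w' | w') hw ⟨e1, e2⟩
      · exact hl _ e1
      · exact hl _ e1
      · exact hl _ e2
      · exact hw
    rw [if_pos hAi, if_pos (show C2 f from hl), add_comm]
    refine congrArg₂ _ (if_congr ?_ rfl rfl) rfl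
    constructor
    · intro h
      exact ⟨fun k => h _, fun i j j' h1 => absurd h1 (h _)⟩
    · rintro ⟨h1, h2⟩ (w | w)
      · exact hl _
      · exact h1 _

abbrev VV (q r m : ℕ) := W q r m × Bool

def Phi (f : Fn q r m) : Finset (VV q r m) := Finset.univ.filter (fun v => f v.1 = some v.2)

def Psi (s : Finset (VV q r m)) : Fn q r m := fun w =>
  if (w, false) ∈ s then some false else if (w, true) ∈ s then some true else none

theorem mem_Phi (f : Fn q r m) (v : VV q r m) : v ∈ Phi f ↔ f v.1 = some v.2 := by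
  simp [Phi]

theorem notboth {s : Finset (VV q r m)} (hs : (G q r m).IsIndepSet (s : Set (VV q r m)))
    (w : W q r m) : ¬ ((w, false) ∈ s ∧ (w, true) ∈ s) := by
  rintro ⟨h1, h2⟩
  refine hs (Finset.mem_coe.2 h1) (Finset.mem_coe.2 h2) (by simp) ?_
  exact Or.inr ⟨rfl, by simp⟩

theorem Phi_Psi {s : Finset (VV q r m)} (hs : (G q r m).IsIndepSet (s : Set (VV q r m))) :
    Phi (Psi s) = s := by
  ext ⟨w, b⟩
  rw [mem_Phi]
  have := notboth hs w
  unfold Psi
  by_cases h1 : (w, false) ∈ s <;> by_cases h2 : (w, true) ∈ s <;> cases b <;> simp_all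

theorem Psi_Phi (f : Fn q r m) : Psi (Phi f) = f := by
  funext w
  unfold Psi
  simp only [mem_Phi]
  rcases h : f w with _ | _ | _ <;> simp

theorem indep_Phi (f : Fn q r m) : (G q r m).IsIndepSet (Phi f : Set (VV q r m)) ↔ Ai f := by
  constructor
  · rintro h w w' hw ⟨h1, h2⟩
    have hne : (w, false) ≠ (w', false) := by
      intro h
      have : w = w' := congrArg Prod.fst h
      subst this
      exact Wadj_irrefl _ hw
    exact h (Finset.mem_coe.2 ((mem_Phi f (w, false)).2 h1)) (Finset.mem_coe.2 ((mem_Phi f (w', false)).2 h2))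
      hne (Or.inl ⟨rfl, rfl, hw⟩)
  · rintro h ⟨w, b⟩ hv ⟨w', b'⟩ hv' hne hadj
    have h1 := (mem_Phi f (w, b)).1 (Finset.mem_coe.1 hv)
    have h2 := (mem_Phi f (w', b')).1 (Finset.mem_coe.1 hv')
    simp only at h1 h2
    rcases hadj with ⟨e1, e2, e3⟩ | ⟨e1, e2⟩
    · simp only at e1 e2 e3
      subst e1 e2
      exact h w w' e3 ⟨h1, h2⟩
    · simp only at e1 e2
      subst e1
      rw [h1] at h2
      exact e2 (Option.some.inj h2)

theorem pow_card_Phi (X : ℕ) (f : Fn q r m) : X ^ (Phi f).card = ∏ w, wt X (f w) := by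
  rw [← Finset.prod_const, Phi, Finset.prod_filter, Fintype.prod_prod_type]
  refine Finset.prod_congr rfl fun w _ => ?_
  rcases h : f w with _ | _ | _ <;> simp [wt, h]

theorem gen_eq (X : ℕ) [DecidablePred (Ai (q := q) (r := r) (m := m))]
    [DecidablePred fun s : Finset (VV q r m) => (G q r m).IsIndepSet (s : Set (VV q r m))] :
    ∑ s ∈ (Finset.univ : Finset (Finset (VV q r m))).filter
      (fun s : Finset (VV q r m) => (G q r m).IsIndepSet (s : Set (VV q r m))), X ^ s.card
      = S X (Ai (q := q) (r := r) (m := m)) := by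
  unfold S
  rw [← Finset.sum_filter]
  refine Finset.sum_nbij' Psi Phi ?_ ?_ ?_ ?_ ?_
  · intro s hs
    rw [Finset.mem_filter] at hs ⊢
    refine ⟨Finset.mem_univ _, ?_⟩
    rw [← indep_Phi, Phi_Psi hs.2]
    exact hs.2
  · intro f hf
    rw [Finset.mem_filter] at hf ⊢
    exact ⟨Finset.mem_univ _, (indep_Phi f).2 hf.2⟩
  · intro s hs
    exact Phi_Psi (Finset.mem_filter.1 hs).2
  · intro f _
    exact Psi_Phi f
  · intro s hs
    rw [← pow_card_Phi, Phi_Psi (Finset.mem_filter.1 hs).2]

/-- number of independent `k`-sets -/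
noncomputable def N (q r m k : ℕ) : ℕ :=
  {s : Finset (VV q r m) | (G q r m).IsIndepSet (s : Set (VV q r m)) ∧ s.card = k}.ncard

theorem gen_digits (X : ℕ) [DecidablePred (Ai (q := q) (r := r) (m := m))] :
    S X (Ai (q := q) (r := r) (m := m))
      = ∑ k ∈ Finset.range (Fintype.card (VV q r m) + 1), N q r m k * X ^ k := by
  classical
  rw [← gen_eq]
  rw [← Finset.sum_fiberwise_of_maps_to (s := Finset.univ.filter
      (fun s : Finset (VV q r m) => (G q r m).IsIndepSet (s : Set (VV q r m))))
      (t := Finset.range (Fintype.card (VV q r m) + 1)) (g := Finset.card)]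
  · refine Finset.sum_congr rfl fun k _ => ?_
    rw [Finset.sum_congr rfl (g := fun _ => X ^ k)]
    · rw [Finset.sum_const, smul_eq_mul]
      congr 1
      rw [N, Set.ncard_eq_toFinset_card']
      congr 1
      ext s
      simp
    · intro s hs
      rw [(Finset.mem_filter.1 hs).2]
  · intro s _
    rw [Finset.mem_range, Nat.lt_succ_iff]
    exact Finset.card_le_univ s

theorem N_lt (k : ℕ) : N q r m k < 2 ^ (2 * (q * r + m) + 1) := by
  classical
  unfold N
  rw [Set.ncard_eq_toFinset_card']
  refine lt_of_le_of_lt (Finset.card_le_univ _) ?_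
  rw [Fintype.card_finset]
  have : Fintype.card (VV q r m) = 2 * (q * r + m) := by
    simp [VV, W, Fintype.card_prod, mul_comm]
  rw [this]
  exact Nat.pow_lt_pow_right (by norm_num) (by omega)

end counts

theorem digit (X : ℕ) (k : ℕ) : ∀ (M : ℕ) (N : ℕ → ℕ), (∀ i, N i < X) → k < M →
    (∑ i ∈ Finset.range M, N i * X ^ i) / X ^ k % X = N k := by
  induction k with
  | zero =>
    intro M N hN hk
    obtain ⟨M, rfl⟩ : ∃ M', M = M' + 1 := ⟨M - 1, by omega⟩
    rw [Finset.sum_range_succ', pow_zero, mul_one, Nat.div_one]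
    have : ∑ i ∈ Finset.range M, N (i + 1) * X ^ (i + 1) = X * ∑ i ∈ Finset.range M, N (i + 1) * X ^ i := by
      rw [Finset.mul_sum]
      refine Finset.sum_congr rfl fun i _ => ?_
      ring
    rw [this, Nat.mul_add_mod, Nat.mod_eq_of_lt (hN 0)]
  | succ k ih =>
    intro M N hN hk
    obtain ⟨M, rfl⟩ : ∃ M', M = M' + 1 := ⟨M - 1, by omega⟩
    rw [Finset.sum_range_succ', pow_zero, mul_one]
    have : ∑ i ∈ Finset.range M, N (i + 1) * X ^ (i + 1) = X * ∑ i ∈ Finset.range M, N (i + 1) * X ^ i := by
      rw [Finset.mul_sum]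
      refine Finset.sum_congr rfl fun i _ => ?_
      ring
    have hX : 0 < X := lt_of_le_of_lt (Nat.zero_le _) (hN 0)
    rw [this, pow_succ', ← Nat.div_div_eq_div_mul, Nat.mul_add_div hX, Nat.div_eq_of_lt (hN 0), add_zero]
    exact ih M (fun i => N (i + 1)) (fun i => hN _) (by omega)

def PP (X q r m : ℕ) : ℕ :=
  ((1 + X) ^ r + r * (X * (1 + X) ^ (r - 1))) ^ q * (1 + X) ^ m
    + (1 + X) ^ (q * r) * (1 + 2 * X) ^ m - (1 + X) ^ (q * r + m)

theorem N_eq (q r m k : ℕ) (hk : k < 2 * (q * r + m) + 1) :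
    N q r m k = PP (2 ^ (2 * (q * r + m) + 1)) q r m / (2 ^ (2 * (q * r + m) + 1)) ^ k
      % 2 ^ (2 * (q * r + m) + 1) := by
  classical
  have h1 := S_Ai (q := q) (r := r) (m := m) (2 ^ (2 * (q * r + m) + 1))
  rw [S_A0, S_C1, S_C2] at h1
  have h2 : PP (2 ^ (2 * (q * r + m) + 1)) q r m
      = S (2 ^ (2 * (q * r + m) + 1)) (Ai (q := q) (r := r) (m := m)) := by
    unfold PP
    rw [← h1, Nat.add_sub_cancel]
  have hc : Fintype.card (VV q r m) = 2 * (q * r + m) := by
    simp [VV, W, Fintype.card_prod, mul_comm]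
  rw [h2, gen_digits, hc]
  exact (digit _ k _ _ (fun i => N_lt i) hk).symm

theorem bignum : (PP (2 ^ 3443) 86 14 517 / (2 ^ 3443) ^ 645 % 2 ^ 3443) ^ 2
    < (PP (2 ^ 3443) 86 14 517 / (2 ^ 3443) ^ 644 % 2 ^ 3443)
      * (PP (2 ^ 3443) 86 14 517 / (2 ^ 3443) ^ 646 % 2 ^ 3443) := by
  decide +kernel

theorem maxcard {q r m : ℕ} (s : Finset (VV q r m)) (h1 : (G q r m).IsIndepSet (s : Set (VV q r m)))
    (h2 : ∀ v : VV q r m, v ∉ s → ¬ (G q r m).IsIndepSet (insert v (s : Set (VV q r m)))) :
    s.card = Fintype.card (W q r m) := by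
  classical
  have inj : Set.InjOn Prod.fst (s : Set (VV q r m)) := by
    rintro ⟨w, b⟩ hw ⟨w', b'⟩ hw' h
    simp only at h
    subst h
    by_contra hne
    refine h1 hw hw' hne (Or.inr ⟨rfl, ?_⟩)
    intro hb
    simp only at hb
    subst hb
    exact hne rfl
  have surj : s.image Prod.fst = Finset.univ := by
    rw [Finset.eq_univ_iff_forall]
    intro w
    rw [Finset.mem_image]
    by_contra hn
    push Not at hn
    have hf : ∀ b, (w, b) ∉ s := fun b hb => hn (w, b) hb rfl
    refine h2 (w, true) (hf true) ?_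
    have key : ∀ v ∈ s, ¬ (G q r m).Adj (w, true) v := by
      rintro ⟨w', b'⟩ hv (⟨e1, _, _⟩ | ⟨e1, e2⟩)
      · simp at e1
      · simp only at e1
        subst e1
        exact hf _ hv
    rintro x (rfl | hx) y (rfl | hy) hxy
    · exact absurd rfl hxy
    · exact key y hy
    · exact fun h => key x hx h.symm
    · exact h1 hx hy hxy
  rw [← Finset.card_image_of_injOn inj, surj, Finset.card_univ]

theorem leaf_indep (q r m : ℕ) : (G q r m).IsIndepSet
    (Phi (q := q) (r := r) (m := m) (fun _ => some true) : Set (VV q r m)) := by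
  rw [indep_Phi]
  intro w w' _ hh
  simp at hh

theorem leaf_max (q r m : ℕ) (v : VV q r m) (hv : v ∉ (Phi (q := q) (r := r) (m := m) (fun _ => some true))) :
    ¬ (G q r m).IsIndepSet (insert v (Phi (q := q) (r := r) (m := m) (fun _ => some true) : Set (VV q r m))) := by
  obtain ⟨w, b⟩ := v
  intro hI
  rw [mem_Phi] at hv
  have hb : b = false := by cases b <;> simp_all
  subst hb
  have hm : (w, true) ∈ Phi (q := q) (r := r) (m := m) (fun _ => some true) := by
    rw [mem_Phi]
  exact hI (Set.mem_insert _ _) (Set.mem_insert_of_mem _ (Finset.mem_coe.2 hm))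
    (by simp) (Or.inr ⟨rfl, by simp⟩)

theorem card_VV (q r m : ℕ) : 2 * Fintype.card (W q r m) = Fintype.card (VV q r m) := by
  simp only [VV, Fintype.card_prod, Fintype.card_bool]
  ring

/-- The negation of the preceding statement: For every finite graph with no isolated vertices whose maximal independent sets all have size n/2, the counts s_k of independent sets of size k satisfy s_{k-1}·s_{k+1} ≤ s_k² for all k ≥ 1. -/
theorem result :
    ¬ (∀ (V : Type) [Fintype V] (G : SimpleGraph V),
      (∀ v : V, ∃ w : V, G.Adj v w) →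
      (∀ s t : Finset V,
        (G.IsIndepSet (s : Set V) ∧ ∀ v : V, v ∉ s → ¬ G.IsIndepSet (insert v (s : Set V))) →
        (G.IsIndepSet (t : Set V) ∧ ∀ v : V, v ∉ t → ¬ G.IsIndepSet (insert v (t : Set V))) →
        s.card = t.card) →
      (∃ s : Finset V, G.IsIndepSet (s : Set V) ∧
        (∀ v : V, v ∉ s → ¬ G.IsIndepSet (insert v (s : Set V))) ∧
        2 * s.card = Fintype.card V) →
      ∀ k : ℕ, 1 ≤ k →
        {s : Finset V | G.IsIndepSet (s : Set V) ∧ s.card = k - 1}.ncard *
          {s : Finset V | G.IsIndepSet (s : Set V) ∧ s.card = k + 1}.ncard ≤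
          {s : Finset V | G.IsIndepSet (s : Set V) ∧ s.card = k}.ncard ^ 2) := by
  intro h
  have key := h (VV 86 14 517) (G 86 14 517) ?_ ?_ ?_ 645 (by norm_num)
  · have e : 2 * (86 * 14 + 517) + 1 = 3443 := by norm_num
    have h1 := N_eq 86 14 517 645 (by norm_num)
    have h2 := N_eq 86 14 517 644 (by norm_num)
    have h3 := N_eq 86 14 517 646 (by norm_num)
    rw [e] at h1 h2 h3
    have hb := bignum
    rw [← h1, ← h2, ← h3] at hb
    exact absurd key (not_le.2 hb)
  · rintro ⟨w, b⟩
    exact ⟨(w, !b), Or.inr ⟨rfl, by cases b <;> simp⟩⟩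
  · rintro s t ⟨hs1, hs2⟩ ⟨ht1, ht2⟩
    rw [maxcard s hs1 hs2, maxcard t ht1 ht2]
  · refine ⟨_, leaf_indep 86 14 517, leaf_max 86 14 517, ?_⟩
    rw [maxcard _ (leaf_indep 86 14 517) (leaf_max 86 14 517)]
    exact card_VV 86 14 517

end Pool.Agent.S08234
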