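import Pool.Statements.S08237
-- import your own Pool.Agent.* helpers here

set_option autoImplicit false
open Pool Pool.MP_e5126b_co

namespace Pool.Agent.S08237

/-- For every finite group of odd order, every r > 1 and every r-coloring, some one-colored set A with A = gA⁻¹g for some g has more than ∣G∣/r² elements. -/
theorem result :
    ∀ (G : Type) [Group G] [Fintype G], Odd (Fintype.card G) →
      ∀ r : ℕ, 1 < r → ∀ χ : G → Fin r,
        ∃ (A : Finset G) (g : G) (c : Fin r),
          (∀ a ∈ A, χ a = c) ∧
          (∀ x : G, x ∈ A ↔ g * x⁻¹ * g ∈ A) ∧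
          (1 : ℝ) / ((r : ℝ) ^ 2) < (A.card : ℝ) / (Fintype.card G : ℝ) := by
  intro G _ _ hodd r hr χ
  classical
  by_contra hcon
  push Not at hcon
  -- the symmetric sets
  let S : G → Fin r → Finset G := fun g c =>
    Finset.univ.filter (fun x => χ x = c ∧ χ (g * x⁻¹ * g) = c)
  have hsym : ∀ g c x, x ∈ S g c ↔ g * x⁻¹ * g ∈ S g c := by
    intro g c x
    have hx : g * (g * x⁻¹ * g)⁻¹ * g = x := by group
    simp only [S, Finset.mem_filter, Finset.mem_univ, true_and, hx]
    tauto
  have hn0 : 0 < Fintype.card G := Fintype.card_pos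
  have hbound : ∀ g c, r ^ 2 * (S g c).card ≤ Fintype.card G := by
    intro g c
    have h := hcon (S g c) g c (by intro a ha; simp only [S, Finset.mem_filter] at ha; exact ha.2.1)
      (hsym g c)
    have hr2 : (0 : ℝ) < (r : ℝ) ^ 2 := by positivity
    have hn : (0 : ℝ) < (Fintype.card G : ℝ) := by exact_mod_cast hn0
    rw [div_le_div_iff₀ hn hr2] at h
    have : ((r ^ 2 * (S g c).card : ℕ) : ℝ) ≤ (Fintype.card G : ℝ) := by
      push_cast; linarith
    exact_mod_cast this
  have hcop : (Nat.card G).Coprime 2 := by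
    rw [Nat.card_eq_fintype_card]
    exact (Nat.coprime_two_right).2 hodd
  have hsq : ∀ a b : G, a ^ 2 = b ^ 2 → a = b := by
    intro a b hab
    exact (powCoprime hcop).injective hab
  -- double counting
  have hcount : ∀ c, ∑ g, (S g c).card = (Finset.univ.filter (fun x => χ x = c)).card ^ 2 := by
    intro c
    have h1 : ∑ g, (S g c).card = (Finset.univ.filter
        (fun p : G × G => χ p.2 = c ∧ χ (p.1 * p.2⁻¹ * p.1) = c)).card := by
      rw [Finset.card_eq_sum_ones, Finset.sum_filter, Fintype.sum_prod_type]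
      refine Finset.sum_congr rfl ?_
      intro g _
      rw [Finset.card_eq_sum_ones, Finset.sum_filter]
    rw [h1, sq, ← Finset.card_product]
    refine Finset.card_bij (fun p _ => (p.2, p.1 * p.2⁻¹ * p.1)) ?_ ?_ ?_
    · rintro ⟨g, x⟩ h
      simp only [Finset.mem_filter, Finset.mem_univ, true_and] at h
      simp [h.1, h.2]
    · rintro ⟨g, x⟩ _ ⟨g', x'⟩ _ h
      simp only [Prod.mk.injEq] at h
      obtain ⟨rfl, h2⟩ := h
      have h3 : (g * x⁻¹) ^ 2 = (g' * x⁻¹) ^ 2 := by
        have : (g * x⁻¹ * g) * x⁻¹ = (g' * x⁻¹ * g') * x⁻¹ := by rw [h2]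
        simpa [sq, mul_assoc] using this
      have h4 := hsq _ _ h3
      have h5 : g = g' := mul_right_cancel h4
      simp [h5]
    · rintro ⟨x, y⟩ h
      simp only [Finset.mem_product, Finset.mem_filter, Finset.mem_univ, true_and] at h
      obtain ⟨k, hk⟩ := (powCoprime hcop).surjective (y * x⁻¹)
      have hk' : k ^ 2 = y * x⁻¹ := hk
      refine ⟨(k * x, x), ?_, ?_⟩
      · simp only [Finset.mem_filter, Finset.mem_univ, true_and]
        refine ⟨h.1, ?_⟩
        have : k * x * x⁻¹ * (k * x) = y := by
          have : k * x * x⁻¹ * (k * x) = k ^ 2 * x := by simp [sq, mul_assoc]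
          rw [this, hk']; simp
        rw [this]; exact h.2
      · have : k * x * x⁻¹ * (k * x) = y := by
          have : k * x * x⁻¹ * (k * x) = k ^ 2 * x := by simp [sq, mul_assoc]
          rw [this, hk']; simp
        exact Prod.ext rfl this
  have hpart : ∑ c : Fin r, (Finset.univ.filter (fun x => χ x = c)).card = Fintype.card G := by
    have := Finset.card_eq_sum_card_fiberwise (s := (Finset.univ : Finset G)) (t := (Finset.univ : Finset (Fin r)))
      (f := χ) (by intro x _; simp)
    rw [← Finset.card_univ, this]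
  have hcs : (Fintype.card G) ^ 2 ≤ r * ∑ c : Fin r, (Finset.univ.filter (fun x => χ x = c)).card ^ 2 := by
    have := sq_sum_le_card_mul_sum_sq (s := (Finset.univ : Finset (Fin r)))
      (f := fun c => (Finset.univ.filter (fun x => χ x = c)).card)
    rw [hpart] at this
    simpa using this
  -- equality
  obtain ⟨c', hc'⟩ : ∃ c' : Fin r, c' ≠ χ 1 := by
    have : Nontrivial (Fin r) := Fin.nontrivial_iff_two_le.2 hr
    exact exists_ne _
  have heq : r ^ 2 * (S 1 c').card = Fintype.card G := by
    by_contra hne
    have hlt : r ^ 2 * (S 1 c').card < Fintype.card G := lt_of_le_of_ne (hbound 1 c') hne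
    have h1 : ∑ c : Fin r, ∑ g : G, r ^ 2 * (S g c).card < ∑ c : Fin r, ∑ g : G, Fintype.card G := by
      refine Finset.sum_lt_sum (fun c _ => Finset.sum_le_sum (fun g _ => hbound g c)) ⟨c', Finset.mem_univ _, ?_⟩
      exact Finset.sum_lt_sum (fun g _ => hbound g c') ⟨1, Finset.mem_univ _, hlt⟩
    simp only [← Finset.mul_sum, hcount] at h1
    simp only [Finset.sum_const, Finset.card_univ, Fintype.card_fin, smul_eq_mul] at h1
    nlinarith [Nat.zero_lt_of_lt hr]
  have heven : Even (S 1 c').card := by
    have : ∑ x ∈ S 1 c', (1 : ZMod 2) = 0 := by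
      refine Finset.sum_involution (fun x _ => x⁻¹) ?_ ?_ ?_ ?_
      · intro a _; decide
      · intro a ha _ hfix
        have h2 : a ^ 2 = 1 ^ 2 := by
          have : a * a = 1 := by
            nth_rewrite 1 [← hfix]; simp
          simpa [sq] using this
        have h3 : a = 1 := hsq _ _ h2
        simp only [S, Finset.mem_filter] at ha
        exact hc' (by rw [← ha.2.1, h3])
      · intro a ha
        have := (hsym 1 c' a).1 ha
        simpa using this
      · intro a _; simp
    rw [Finset.sum_const, nsmul_eq_mul, mul_one] at this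
    exact (ZMod.natCast_eq_zero_iff_even).1 this
  have : Even (Fintype.card G) := by
    rw [← heq]; exact heven.mul_left _
  exact (Nat.not_even_iff_odd.2 hodd) this

end Pool.Agent.S08237
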