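import Pool.Statements.S08244
-- import your own Pool.Agent.* helpers here

set_option autoImplicit false
open Pool Pool.MP_e5ae67_co

namespace Pool.Agent.S08244

/-- A hypergraph colourable with some number of colours has an exact chromatic number. -/
theorem exact {n : ℕ} (A : Finset (Finset (Fin n))) (hn : 0 < n)
    (hex : ∃ k, ∃ c : Fin n → Fin k, ∀ E ∈ A, ∃ x ∈ E, ∃ y ∈ E, c x ≠ c y) (M : ℕ)
    (hM : ∀ k, k < M → ¬ ∃ c : Fin n → Fin k, ∀ E ∈ A, ∃ x ∈ E, ∃ y ∈ E, c x ≠ c y) :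
    ∃ p, M ≤ p ∧ (∃ c : Fin n → Fin p, ∀ E ∈ A, ∃ x ∈ E, ∃ y ∈ E, c x ≠ c y) ∧
      (¬ ∃ c : Fin n → Fin (p - 1), ∀ E ∈ A, ∃ x ∈ E, ∃ y ∈ E, c x ≠ c y) := by
  classical
  refine ⟨Nat.find hex, ?_, Nat.find_spec hex, ?_⟩
  · by_contra h
    exact hM _ (not_le.1 h) (Nat.find_spec hex)
  · apply Nat.find_min hex
    have : 0 < Nat.find hex := by
      rw [Nat.find_pos]
      rintro ⟨c, _⟩
      exact Fin.elim0 (c ⟨0, hn⟩)
    omega

/-- The negation of the preceding statement: For every N there is M such that whenever finite hypergraphs H, H' have chromatic numbers p, q both at least M, their direct product (edges E×F) has no proper colouring with N colours. -/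
theorem result :
    ¬ (∀ N : ℕ, ∃ M : ℕ, ∀ p q : ℕ, M ≤ p → M ≤ q →
      ∀ (n m : ℕ) (A : Finset (Finset (Fin n))) (B : Finset (Finset (Fin m))),
        (∃ c : Fin n → Fin p, ∀ E ∈ A, ∃ x ∈ E, ∃ y ∈ E, c x ≠ c y) →
        (¬ ∃ c : Fin n → Fin (p - 1), ∀ E ∈ A, ∃ x ∈ E, ∃ y ∈ E, c x ≠ c y) →
        (∃ c : Fin m → Fin q, ∀ F ∈ B, ∃ x ∈ F, ∃ y ∈ F, c x ≠ c y) →
        (¬ ∃ c : Fin m → Fin (q - 1), ∀ F ∈ B, ∃ x ∈ F, ∃ y ∈ F, c x ≠ c y) →
        ¬ ∃ c : Fin n × Fin m → Fin N,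
            ∀ E ∈ A, ∀ F ∈ B, ∃ x ∈ E ×ˢ F, ∃ y ∈ E ×ˢ F, c x ≠ c y) := by
  classical
  intro H
  obtain ⟨M, hM⟩ := H 2
  set s : ℕ := 2 * M + 2 with hs
  set m : ℕ := (M + 2) * s with hm
  have hmpos : 0 < m := by rw [hm, hs]; positivity
  have hms : 2 * s ≤ m := by rw [hm]; exact Nat.mul_le_mul_right s (by omega)
  have : Nonempty (Fin m) := ⟨⟨0, hmpos⟩⟩
  let B : Finset (Finset (Fin m)) := Finset.univ.filter (fun F => F.card = s)
  have hBmem : ∀ F, F ∈ B ↔ F.card = s := by intro F; simp [B]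
  let n : ℕ := Fintype.card (Fin m → Fin 2)
  let e : Fin n ≃ (Fin m → Fin 2) := (Fintype.equivFin (Fin m → Fin 2)).symm
  let c : Fin n × Fin m → Fin 2 := fun p => e p.1 p.2
  let A : Finset (Finset (Fin n)) := Finset.univ.filter
    (fun E => ∀ F ∈ B, ∃ x ∈ E ×ˢ F, ∃ y ∈ E ×ˢ F, c x ≠ c y)
  have hAmem : ∀ E, E ∈ A ↔ ∀ F ∈ B, ∃ x ∈ E ×ˢ F, ∃ y ∈ E ×ˢ F, c x ≠ c y := by
    intro E; simp only [A, Finset.mem_filter, Finset.mem_univ, true_and]
  have hnpos : 0 < n := Fintype.card_pos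
  -- pigeonhole
  have hpig : ∀ k, k * s ≤ m → ∀ d : Fin m → Fin k, ∃ F ∈ B, ∃ i, ∀ a ∈ F, d a = i := by
    intro k hk d
    have : Nonempty (Fin k) := ⟨d ⟨0, hmpos⟩⟩
    obtain ⟨y, hy⟩ := Fintype.exists_le_card_fiber_of_mul_le_card d (n := s) (by simpa using hk)
    obtain ⟨F, hF, hFc⟩ := Finset.exists_subset_card_eq hy
    refine ⟨F, (hBmem F).2 hFc, y, fun a ha => ?_⟩
    have := hF ha
    simpa using this
  -- colouring of H' exists
  obtain ⟨q, hq1, hq2, hq3⟩ := exact B hmpos ⟨m, id, by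
      intro F hF
      have hc := (hBmem F).1 hF
      have : 1 < F.card := by omega
      obtain ⟨x, hx, y, hy, hxy⟩ := Finset.one_lt_card.1 this
      exact ⟨x, hx, y, hy, hxy⟩⟩ M (by
      intro k hk
      rintro ⟨d, hd⟩
      obtain ⟨F, hF, i, hi⟩ := hpig k (by rw [hm]; exact Nat.mul_le_mul_right s (by omega)) d
      obtain ⟨x, hx, y, hy, hxy⟩ := hd F hF
      exact hxy (by rw [hi x hx, hi y hy]))
  obtain ⟨p, hp1, hp2, hp3⟩ := exact A hnpos ⟨n, id, by
      intro E hE
      rw [hAmem] at hE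
      by_contra hcon
      push Not at hcon
      -- E is nonempty
      obtain ⟨F0, hF0, _⟩ := hpig 2 hms (fun _ => 0)
      obtain ⟨x0, hx0, _⟩ := hE F0 hF0
      have hx0E := (Finset.mem_product.1 hx0).1
      obtain ⟨F, hF, i, hi⟩ := hpig 2 hms (e x0.1)
      obtain ⟨x, hx, y, hy, hxy⟩ := hE F hF
      obtain ⟨hx1, hx2⟩ := Finset.mem_product.1 hx
      obtain ⟨hy1, hy2⟩ := Finset.mem_product.1 hy
      have h1 : x.1 = x0.1 := hcon _ hx1 _ hx0E
      have h2 : y.1 = x0.1 := hcon _ hy1 _ hx0E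
      apply hxy
      simp only [c, h1, h2, hi _ hx2, hi _ hy2]⟩ M (by
      intro k hk
      rintro ⟨d, hd⟩
      have hfib : ∀ j : Fin k, ∃ F ∈ B, ∀ x ∈ (Finset.univ.filter (fun x => d x = j)) ×ˢ F,
          ∀ y ∈ (Finset.univ.filter (fun x => d x = j)) ×ˢ F, c x = c y := by
        intro j
        by_contra hcon
        push Not at hcon
        have hmem : (Finset.univ.filter (fun x => d x = j)) ∈ A := by
          rw [hAmem]
          intro F hF
          exact hcon F hF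
        obtain ⟨x, hx, y, hy, hxy⟩ := hd _ hmem
        simp only [Finset.mem_filter, Finset.mem_univ, true_and] at hx hy
        exact hxy (by rw [hx, hy])
      choose F hFB hF using hfib
      -- distinct representatives
      have hall : ∃ f : Fin k × Fin 2 → Fin m, Function.Injective f ∧ ∀ x, f x ∈ F x.1 := by
        refine (Finset.all_card_le_biUnion_card_iff_exists_injective (fun x : Fin k × Fin 2 => F x.1)).1 ?_
        intro S
        rcases S.eq_empty_or_nonempty with rfl | ⟨z, hz⟩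
        · simp
        · calc S.card ≤ Fintype.card (Fin k × Fin 2) := Finset.card_le_univ S
            _ = k * 2 := by simp
            _ ≤ s := by omega
            _ = (F z.1).card := ((hBmem _).1 (hFB z.1)).symm
            _ ≤ _ := Finset.card_le_card (Finset.subset_biUnion_of_mem (fun x : Fin k × Fin 2 => F x.1) hz)
      obtain ⟨f, hfinj, hfF⟩ := hall
      let x : Fin m → Fin 2 := fun a => if ∃ j, f (j, 1) = a then 1 else 0
      obtain ⟨z, hz⟩ := e.surjective x
      have h0 : ∀ j, x (f (j, 0)) = 0 := by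
        intro j
        simp only [x]
        rw [if_neg]
        rintro ⟨j', hj'⟩
        have := hfinj hj'
        simp at this
      have h1 : ∀ j, x (f (j, 1)) = 1 := by
        intro j
        simp only [x]
        rw [if_pos ⟨j, rfl⟩]
      have hh := hF (d z) (z, f (d z, 0)) (by simp [hfF (d z, 0)]) (z, f (d z, 1)) (by
        simp only [Finset.mem_product, Finset.mem_filter, Finset.mem_univ, true_and]
        exact hfF (d z, 1))
      simp only [c, hz, h0, h1] at hh
      exact absurd hh (by decide))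
  exact hM p q hp1 hq1 n m A B hp2 hp3 hq2 hq3 ⟨c, fun E hE F hF => (hAmem E).1 hE F hF⟩

end Pool.Agent.S08244
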