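import Pool.Statements.S08250
-- import your own Pool.Agent.* helpers here

set_option autoImplicit false
open Pool Pool.MP_e67bad_co

namespace Pool.Agent.S08250

/-- the 19 points -/
def pts : Finset (Fin 4 → ℤ) :=
  {![-3, -3, -1, 3], ![-3, -1, 1, 0], ![-3, 0, -2, 2], ![-3, 1, 3, -3], ![-3, 2, 0, -1], ![-3, 3, -3, 1], ![0, -3, 1, 1], ![0, -2, -2, 3], ![0, -1, 3, -2], ![0, 0, 0, 0], ![0, 1, -3, 2], ![0, 2, 2, -3], ![0, 3, -1, -1], ![3, -3, 3, -1], ![3, -2, 0, 1], ![3, -1, -3, 3], ![3, 0, 2, -2], ![3, 1, -1, 0], ![3, 3, 1, -3]}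

lemma pts_card : pts.card = 19 := by decide +kernel

lemma pts_prop : ∀ x ∈ pts, (∀ i, -3 ≤ x i ∧ x i ≤ 3) ∧
    2 * x 0 + 15 * x 1 + 21 * x 2 + 24 * x 3 = 0 := by decide +kernel

/-- the coefficient vector -/
noncomputable def av : Fin 4 → ℝ := ![2, 15, 21, 24]

lemma sum_av (x : Fin 4 → ℤ) : ∑ i, av i * (x i : ℝ)
    = ((2 * x 0 + 15 * x 1 + 21 * x 2 + 24 * x 3 : ℤ) : ℝ) := by
  simp [av, Fin.sum_univ_four]

lemma no_small (x : Fin 4 → ℤ) (hx : ∀ i, |x i| ≤ (2 : ℤ))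
    (h : 2 * x 0 + 15 * x 1 + 21 * x 2 + 24 * x 3 = 0) : x = 0 := by
  have h0 := abs_le.1 (hx 0)
  have h1 := abs_le.1 (hx 1)
  have h2 := abs_le.1 (hx 2)
  have h3 := abs_le.1 (hx 3)
  obtain ⟨a0, b0⟩ := h0
  obtain ⟨a1, b1⟩ := h1
  obtain ⟨a2, b2⟩ := h2
  obtain ⟨a3, b3⟩ := h3
  have e : x 0 = 0 ∧ x 1 = 0 ∧ x 2 = 0 ∧ x 3 = 0 := by
    have e0 : x 0 = 0 := by omega
    rw [e0] at h
    have h' : 5 * x 1 + 7 * x 2 + 8 * x 3 = 0 := by omega
    have : x 1 = -2 ∨ x 1 = -1 ∨ x 1 = 0 ∨ x 1 = 1 ∨ x 1 = 2 := by omega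
    rcases this with h4 | h4 | h4 | h4 | h4 <;> rw [h4] at h' ⊢ <;> omega
  funext i
  fin_cases i
  · exact e.1
  · exact e.2.1
  · exact e.2.2.1
  · exact e.2.2.2

/-- The negation of the preceding statement: For k≥2 and n≥1, over nonzero real a where no nonzero integer vector with entries in [-k,k] satisfies a·x=0, the max number of integer x with entries in [-(k+1),k+1] and a·x=0 is ((1+√2)^n+(1-√2)^n)/2. -/
theorem result :
    ¬ (∀ k : ℕ, 2 ≤ k → ∀ n : ℕ, 1 ≤ n →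
      (∃ a : Fin n → ℝ, a ≠ 0 ∧
          (∀ x : Fin n → ℤ, (∀ i, |x i| ≤ (k : ℤ)) →
              ∑ i, a i * (x i : ℝ) = 0 → x = 0) ∧
          (((Fintype.piFinset fun _ : Fin n => Finset.Icc (-((k : ℤ) + 1)) ((k : ℤ) + 1)).filter
              (fun x => ∑ i, a i * (x i : ℝ) = 0)).card : ℝ)
            = ((1 + Real.sqrt 2) ^ n + (1 - Real.sqrt 2) ^ n) / 2) ∧
      (∀ a : Fin n → ℝ, a ≠ 0 →
          (∀ x : Fin n → ℤ, (∀ i, |x i| ≤ (k : ℤ)) →
              ∑ i, a i * (x i : ℝ) = 0 → x = 0) →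
          (((Fintype.piFinset fun _ : Fin n => Finset.Icc (-((k : ℤ) + 1)) ((k : ℤ) + 1)).filter
              (fun x => ∑ i, a i * (x i : ℝ) = 0)).card : ℝ)
            ≤ ((1 + Real.sqrt 2) ^ n + (1 - Real.sqrt 2) ^ n) / 2)) := by
  intro H
  have h := (H 2 le_rfl 4 (by norm_num)).2 av
    (by
      intro h
      have := congrFun h 0
      simp [av] at this)
    (by
      intro x hx hsum
      rw [sum_av] at hsum
      apply no_small x (by intro i; exact_mod_cast hx i)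
      exact_mod_cast hsum)
  have hsub : pts ⊆ (Fintype.piFinset fun _ : Fin 4 => Finset.Icc (-(((2:ℕ) : ℤ) + 1)) (((2:ℕ) : ℤ) + 1)).filter
              (fun x => ∑ i, av i * (x i : ℝ) = 0) := by
    intro x hx
    have hp := pts_prop x hx
    rw [Finset.mem_filter, Fintype.mem_piFinset]
    refine ⟨?_, ?_⟩
    · intro i
      rw [Finset.mem_Icc]
      have := hp.1 i
      constructor <;> push_cast <;> omega
    · rw [sum_av, hp.2]; simp
  have hcard := Finset.card_le_card hsub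
  rw [pts_card] at hcard
  have h19 : (19 : ℝ) ≤ ((1 + Real.sqrt 2) ^ 4 + (1 - Real.sqrt 2) ^ 4) / 2 := by
    refine le_trans ?_ h
    exact_mod_cast hcard
  have hs : Real.sqrt 2 ^ 2 = 2 := Real.sq_sqrt (by norm_num)
  have e17 : ((1 + Real.sqrt 2) ^ 4 + (1 - Real.sqrt 2) ^ 4) / 2 = 17 := by
    have : ((1 + Real.sqrt 2) ^ 4 + (1 - Real.sqrt 2) ^ 4) / 2
        = 1 + 6 * Real.sqrt 2 ^ 2 + (Real.sqrt 2 ^ 2) ^ 2 := by ring
    rw [this, hs]; norm_num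
  rw [e17] at h19
  norm_num at h19

end Pool.Agent.S08250
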