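import Pool.Statements.S08312
import Pool.Agent.Helper17.EbAux

set_option autoImplicit false
open Classical
open Pool Pool.MP_eb5675_co

namespace Pool.Agent.S08312

open Pool.Agent.Helper17.EbAux

noncomputable def xr (e : Sym2 (Fin 6)) : ℝ := if e = s(0, 1) then -1 / 2 else 1

lemma xr_xv (e : Sym2 (Fin 6)) : 2 * xr e = (xv e : ℝ) := by
  unfold xr xv
  by_cases h : e = s(0, 1)
  · simp [h]
    norm_num
  · simp [h]

lemma xr_le (e : Sym2 (Fin 6)) : xr e ≤ 1 := by
  unfold xr
  split_ifs <;> norm_num

lemma mem_top (e : Sym2 (Fin 6)) : e ∈ (⊤ : SimpleGraph (Fin 6)).edgeFinset ↔ e ∈ ES := by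
  rw [SimpleGraph.mem_edgeFinset]
  unfold ES
  simp

/-- The negation of the preceding statement: For every finite graph G and real edge vector x: x is a nonnegative combination of triangle edge-indicator vectors iff the sum of v_H(e)·x(e) is at least 0 for every triangle-free subgraph H, with v_H equal to -1 on H-edges, 2 inside V', 1/2 on edges with exactly one end in V', 0 otherwise. -/
theorem result :
    ¬ (∀ (V : Type) [Fintype V] (G : SimpleGraph V) (x : Sym2 V → ℝ),
      (∃ c : Finset V → ℝ, (∀ t, 0 ≤ c t) ∧
          ∀ e ∈ G.edgeFinset,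
            x e = ∑ t ∈ G.cliqueFinset 3, (if (∀ v ∈ e, v ∈ t) then c t else 0)) ↔
      (∀ (V' : Finset V) (H : SimpleGraph V), H ≤ G →
          (∀ u v, H.Adj u v → u ∈ V' ∧ v ∈ V') → H.CliqueFree 3 →
          0 ≤ ∑ e ∈ G.edgeFinset,
            (if e ∈ H.edgeSet then (-1 : ℝ)
              else if (∀ v ∈ e, v ∈ V') then 2
              else if (∃ v ∈ e, v ∈ V') then 1 / 2
              else 0) * x e)) := by
  intro HH
  have h := (HH (Fin 6) ⊤ xr).2 ?_
  · obtain ⟨c, hc, hx⟩ := h
    have h1 := hx s(0, 1) (by simp)
    have h2 : (0 : ℝ) ≤ xr s(0, 1) := by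
      rw [h1]
      apply Finset.sum_nonneg
      intro t _
      split_ifs
      · exact hc t
      · exact le_refl 0
    unfold xr at h2
    norm_num at h2
  · intro V' K _ hs hcf
    have hm := mantel V' K hs hcf
    have hkey := key V'
    generalize V'.card ^ 2 / 4 = nn at hm hkey
    have hterm : ∀ e ∈ (⊤ : SimpleGraph (Fin 6)).edgeFinset,
        ((wgt V' e * xv e : ℤ) : ℝ) - 12 * (if e ∈ K.edgeSet then (1 : ℝ) else 0) ≤
        4 * ((if e ∈ K.edgeSet then (-1 : ℝ)
              else if (∀ v ∈ e, v ∈ V') then 2
              else if (∃ v ∈ e, v ∈ V') then 1 / 2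
              else 0) * xr e) := by
      intro e _
      have hx := xr_xv e
      have hle := xr_le e
      push_cast
      rw [← hx]
      by_cases hK : e ∈ K.edgeSet
      · have hall : ∀ v ∈ e, v ∈ V' := by
          induction e with
          | _ a b =>
            have := hs a b (by simpa using hK)
            intro v hv
            rcases Sym2.mem_iff.1 hv with rfl | rfl
            · exact this.1
            · exact this.2
        have hw : wgt V' e = 4 := by
          unfold wgt
          rw [if_pos hall]
        rw [hw]
        simp only [hK, if_true]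
        push_cast
        linarith
      · by_cases hall : ∀ v ∈ e, v ∈ V'
        · have hw : wgt V' e = 4 := by
            unfold wgt
            rw [if_pos hall]
          rw [hw]
          simp only [hK, if_false, if_pos hall]
          push_cast
          linarith
        · by_cases hex : ∃ v ∈ e, v ∈ V'
          · have hw : wgt V' e = 1 := by
              unfold wgt
              rw [if_neg hall, if_pos hex]
            rw [hw]
            simp only [hK, if_false, if_neg hall, if_pos hex]
            push_cast
            linarith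
          · have hw : wgt V' e = 0 := by
              unfold wgt
              rw [if_neg hall, if_neg hex]
            rw [hw]
            simp only [hK, if_false, if_neg hall, if_neg hex]
            push_cast
            linarith
    have hsum := Finset.sum_le_sum hterm
    rw [Finset.sum_sub_distrib, ← Finset.mul_sum, ← Finset.mul_sum] at hsum
    have hES : (⊤ : SimpleGraph (Fin 6)).edgeFinset = ES := Finset.ext mem_top
    have h1 : (∑ e ∈ (⊤ : SimpleGraph (Fin 6)).edgeFinset, ((wgt V' e * xv e : ℤ) : ℝ)) =
        ((∑ e ∈ ES, wgt V' e * xv e : ℤ) : ℝ) := by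
      rw [hES]; push_cast; rfl
    have h2 : (∑ e ∈ (⊤ : SimpleGraph (Fin 6)).edgeFinset, (if e ∈ K.edgeSet then (1 : ℝ) else 0)) =
        (K.edgeFinset.card : ℝ) := by
      rw [Finset.sum_ite, Finset.sum_const_zero, add_zero, Finset.sum_const, nsmul_eq_mul, mul_one]
      congr 2
      ext e
      simp only [Finset.mem_filter, SimpleGraph.mem_edgeFinset]
      constructor
      · exact fun h => h.2
      · exact fun h => ⟨SimpleGraph.edgeSet_mono le_top h, h⟩
    rw [h1, h2] at hsum
    have hkey' : (12 * (nn : ℝ)) ≤ ((∑ e ∈ ES, wgt V' e * xv e : ℤ) : ℝ) := by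
      have h3 := (Int.cast_le (R := ℝ)).2 hkey
      rw [Int.cast_mul, Int.cast_natCast] at h3
      simpa using h3
    have hm' : (K.edgeFinset.card : ℝ) ≤ (nn : ℝ) := by
      exact_mod_cast hm
    have hfin : (0 : ℝ) ≤ ∑ e ∈ (⊤ : SimpleGraph (Fin 6)).edgeFinset,
        ((if e ∈ K.edgeSet then (-1 : ℝ)
              else if (∀ v ∈ e, v ∈ V') then 2
              else if (∃ v ∈ e, v ∈ V') then 1 / 2
              else 0) * xr e) := by
      linarith
    convert hfin

end Pool.Agent.S08312
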