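import Pool.Statements.S08322

set_option autoImplicit false
open MeasureTheory
open Pool Pool.MP_ebd703_co

namespace Pool.Agent.S08322

section BackForth

variable {V : Type} [AddCommGroup V]

/-- partial isomorphism respecting the colouring `f` -/
def PI (f : V → Bool) (P : AddSubgroup (V × V)) : Prop :=
  (P : Set (V × V)).Finite ∧ ∀ x ∈ P, (x.1 = 0 ↔ x.2 = 0) ∧ f x.1 = f x.2

def swp (P : AddSubgroup (V × V)) : AddSubgroup (V × V) where
  carrier := {x | (x.2, x.1) ∈ P}
  add_mem' := by
    intro a b ha hb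
    exact P.add_mem ha hb
  zero_mem' := P.zero_mem
  neg_mem' := by
    intro a ha
    exact P.neg_mem ha

lemma mem_swp (P : AddSubgroup (V × V)) (x : V × V) : x ∈ swp P ↔ (x.2, x.1) ∈ P := Iff.rfl

lemma PI_swp {f : V → Bool} {P : AddSubgroup (V × V)} (h : PI f P) : PI f (swp P) := by
  refine ⟨?_, ?_⟩
  · have : ((swp P : AddSubgroup (V × V)) : Set (V × V)) = Prod.swap '' (P : Set (V × V)) := by
      ext x
      constructor
      · intro hx
        exact ⟨(x.2, x.1), hx, rfl⟩
      · rintro ⟨y, hy, rfl⟩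
        exact hy
    rw [this]
    exact h.1.image _
  · intro x hx
    have := h.2 _ ((mem_swp P x).1 hx)
    exact ⟨this.1.symm, this.2.symm⟩

/-- adjoin a pair -/
def adj (h2 : ∀ x : V, x + x = 0) (P : AddSubgroup (V × V)) (v w : V) :
    AddSubgroup (V × V) where
  carrier := {x | x ∈ P ∨ x + (v, w) ∈ P}
  add_mem' := by
    have hvw : ((v, w) : V × V) + (v, w) = 0 := Prod.ext (h2 v) (h2 w)
    rintro a b (ha | ha) (hb | hb)
    · exact Or.inl (P.add_mem ha hb)
    · right
      have := P.add_mem ha hb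
      rw [← add_assoc] at this
      exact this
    · right
      have := P.add_mem ha hb
      have e : a + (v, w) + b = a + b + (v, w) := by abel
      rw [e] at this
      exact this
    · left
      have := P.add_mem ha hb
      have e : a + (v, w) + (b + (v, w)) = a + b + ((v, w) + (v, w)) := by abel
      rw [e, hvw, add_zero] at this
      exact this
  zero_mem' := Or.inl P.zero_mem
  neg_mem' := by
    have hneg : ∀ x : V × V, -x = x := by
      intro x
      exact neg_eq_of_add_eq_zero_left (Prod.ext (h2 x.1) (h2 x.2))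
    intro a ha
    rw [hneg a]
    exact ha

lemma le_adj (h2 : ∀ x : V, x + x = 0) (P : AddSubgroup (V × V)) (v w : V) : P ≤ adj h2 P v w :=
  fun _ hx => Or.inl hx

lemma mem_adj (h2 : ∀ x : V, x + x = 0) (P : AddSubgroup (V × V)) (v w : V) :
    (v, w) ∈ adj h2 P v w := by
  right
  have hvw : ((v, w) : V × V) + (v, w) = 0 := Prod.ext (h2 v) (h2 w)
  rw [hvw]
  exact P.zero_mem

lemma PI_adj {f : V → Bool} (h2 : ∀ x : V, x + x = 0) {P : AddSubgroup (V × V)} (h : PI f P)
    (v w : V) (hv : ∀ b, (v, b) ∉ P) (hw : ∀ a, (a, w) ∉ P)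
    (hf : ∀ x ∈ P, f (v + x.1) = f (w + x.2)) : PI f (adj h2 P v w) := by
  refine ⟨?_, ?_⟩
  · apply (h.1.union (h.1.image (fun x => x + (v, w)))).subset
    rintro x (hx | hx)
    · exact Or.inl hx
    · right
      refine ⟨x + (v, w), hx, ?_⟩
      have hvw : ((v, w) : V × V) + (v, w) = 0 := Prod.ext (h2 v) (h2 w)
      simp only
      rw [add_assoc, hvw, add_zero]
  · rintro x (hx | hx)
    · exact h.2 x hx
    · obtain ⟨a, b⟩ := x
      simp only [Prod.mk_add_mk] at hx
      have ha : a ≠ 0 := by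
        rintro rfl
        rw [zero_add] at hx
        exact hv _ hx
      have hb : b ≠ 0 := by
        rintro rfl
        rw [zero_add] at hx
        exact hw _ hx
      refine ⟨by simp [ha, hb], ?_⟩
      have := hf _ hx
      simp only at this
      have ea : v + (a + v) = a := by
        rw [add_comm a v, ← add_assoc, h2, zero_add]
      have eb : w + (b + w) = b := by
        rw [add_comm b w, ← add_assoc, h2, zero_add]
      rw [ea, eb] at this
      exact this

lemma inj_right {f : V → Bool} {P : AddSubgroup (V × V)} (h : PI f P) {a a' b : V}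
    (h1 : (a, b) ∈ P) (h2 : (a', b) ∈ P) : a = a' := by
  have := P.sub_mem h1 h2
  simp only [Prod.mk_sub_mk, sub_self] at this
  exact sub_eq_zero.1 ((h.2 _ this).1.2 rfl)

lemma inj_left {f : V → Bool} {P : AddSubgroup (V × V)} (h : PI f P) {a b b' : V}
    (h1 : (a, b) ∈ P) (h2 : (a, b') ∈ P) : b = b' := by
  have := P.sub_mem h1 h2
  simp only [Prod.mk_sub_mk, sub_self] at this
  exact sub_eq_zero.1 ((h.2 _ this).1.1 rfl)

def Ext (f : V → Bool) : Prop :=
  ∀ S T : Finset V, ∃ w, w ∉ S ∧ ∀ s ∈ S, f (w + s) = true ↔ s ∈ T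

lemma extend {f : V → Bool} (h2 : ∀ x : V, x + x = 0)
    (hE : ∀ S T : Finset V, ∃ w, w ∉ S ∧ ∀ s ∈ S, (f (w + s) = true ↔ s ∈ T))
    {P : AddSubgroup (V × V)} (h : PI f P) (v : V) :
    ∃ P', P ≤ P' ∧ PI f P' ∧ ∃ w, (v, w) ∈ P' := by
  classical
  by_cases hv : ∃ w, (v, w) ∈ P
  · exact ⟨P, le_refl _, h, hv⟩
  · push Not at hv
    let S : Finset V := h.1.toFinset.image Prod.snd
    let T : Finset V := (h.1.toFinset.filter (fun x => f (v + x.1) = true)).image Prod.snd
    obtain ⟨w, hwS, hw⟩ := hE S T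
    have hS : ∀ x ∈ P, x.2 ∈ S := by
      intro x hx
      exact Finset.mem_image.2 ⟨x, by simpa using hx, rfl⟩
    refine ⟨adj h2 P v w, le_adj h2 P v w, PI_adj h2 h v w hv ?_ ?_, w, mem_adj h2 P v w⟩
    · intro a ha
      exact hwS (hS _ ha)
    · intro x hx
      have h1 := hw x.2 (hS x hx)
      have h3 : x.2 ∈ T ↔ f (v + x.1) = true := by
        constructor
        · intro hT
          obtain ⟨y, hy, hyx⟩ := Finset.mem_image.1 hT
          rw [Finset.mem_filter] at hy
          have hyP : y ∈ P := by simpa using hy.1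
          have : y.1 = x.1 := by
            apply inj_right h (b := x.2)
            · rw [← hyx]; exact hyP
            · exact hx
          rw [← this]; exact hy.2
        · intro hf
          exact Finset.mem_image.2 ⟨x, Finset.mem_filter.2 ⟨by simpa using hx, hf⟩, rfl⟩
      rw [h3] at h1
      rw [Bool.eq_iff_iff]
      exact h1.symm

theorem exists_aut [Countable V] [Nontrivial V] {f : V → Bool} (h2 : ∀ x : V, x + x = 0)
    (hE : ∀ S T : Finset V, ∃ w, w ∉ S ∧ ∀ s ∈ S, (f (w + s) = true ↔ s ∈ T)) :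
    ∃ φ : V ≃+ V, (∃ v, φ v ≠ v) ∧ ∀ v, f (φ v) = f v := by
  classical
  -- initial pair
  obtain ⟨v0, hv0⟩ := exists_ne (0 : V)
  obtain ⟨w0, hw0S, hw0⟩ := hE {0, v0} (if f v0 = true then {0} else ∅)
  have hw00 : w0 ≠ 0 := by rintro rfl; simp at hw0S
  have hw0v : w0 ≠ v0 := by rintro rfl; simp at hw0S
  have hfw : f w0 = f v0 := by
    have := hw0 0 (by simp)
    rw [add_zero] at this
    rw [Bool.eq_iff_iff, this]
    by_cases h : f v0 = true <;> simp [h]
  have hbot : PI f (⊥ : AddSubgroup (V × V)) := by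
    refine ⟨by simp, ?_⟩
    intro x hx
    rw [AddSubgroup.mem_bot] at hx
    subst hx
    simp
  have hP0 : PI f (adj h2 ⊥ v0 w0) := by
    apply PI_adj h2 hbot
    · intro b hb
      rw [AddSubgroup.mem_bot] at hb
      exact hv0 (congrArg Prod.fst hb)
    · intro b hb
      rw [AddSubgroup.mem_bot] at hb
      exact hw00 (congrArg Prod.snd hb)
    · intro x hx
      rw [AddSubgroup.mem_bot] at hx
      subst hx
      simp [hfw]
  let X := {P : AddSubgroup (V × V) // PI f P}
  let D : V ⊕ V → Order.Cofinal X := fun i => match i with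
    | Sum.inl v => ⟨{P | ∃ w, (v, w) ∈ P.1}, by
        intro P
        obtain ⟨P', hle, hP', hw⟩ := extend h2 hE P.2 v
        exact ⟨⟨P', hP'⟩, hw, hle⟩⟩
    | Sum.inr w => ⟨{P | ∃ v, (v, w) ∈ P.1}, by
        intro P
        obtain ⟨P', hle, hP', v, hv⟩ := extend h2 hE (PI_swp P.2) w
        refine ⟨⟨swp P', PI_swp hP'⟩, ⟨v, ?_⟩, ?_⟩
        · exact hv
        · intro x hx
          exact hle (show (x.2, x.1) ∈ swp P.1 from hx)⟩
  let _ : Encodable (V ⊕ V) := Encodable.ofCountable _
  let Q : ℕ → X := Order.sequenceOfCofinals (⟨adj h2 ⊥ v0 w0, hP0⟩ : X) D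
  have hmono : Monotone Q := Order.sequenceOfCofinals.monotone _ _
  have hQ0 : (v0, w0) ∈ (Q 0).1 := mem_adj h2 ⊥ v0 w0
  have htot : ∀ v, ∃ w n, (v, w) ∈ (Q n).1 := by
    intro v
    have := Order.sequenceOfCofinals.encode_mem (⟨adj h2 ⊥ v0 w0, hP0⟩ : X) D (Sum.inl v)
    obtain ⟨w, hw⟩ := this
    exact ⟨w, _, hw⟩
  have hsur : ∀ w, ∃ v n, (v, w) ∈ (Q n).1 := by
    intro w
    have := Order.sequenceOfCofinals.encode_mem (⟨adj h2 ⊥ v0 w0, hP0⟩ : X) D (Sum.inr w)
    obtain ⟨v, hv⟩ := this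
    exact ⟨v, _, hv⟩
  have huniq : ∀ v w w', (∃ n, (v, w) ∈ (Q n).1) → (∃ n, (v, w') ∈ (Q n).1) → w = w' := by
    rintro v w w' ⟨n, hn⟩ ⟨m, hm⟩
    exact inj_left (Q (max n m)).2 (hmono (le_max_left n m) hn) (hmono (le_max_right n m) hm)
  have huniq' : ∀ v v' w, (∃ n, (v, w) ∈ (Q n).1) → (∃ n, (v', w) ∈ (Q n).1) → v = v' := by
    rintro v v' w ⟨n, hn⟩ ⟨m, hm⟩
    exact inj_right (Q (max n m)).2 (hmono (le_max_left n m) hn) (hmono (le_max_right n m) hm)
  choose φ hφ using htot
  have hadd : ∀ u v, φ (u + v) = φ u + φ v := by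
    intro u v
    apply huniq (u + v) _ _ (hφ (u + v))
    obtain ⟨n, hn⟩ := hφ u
    obtain ⟨m, hm⟩ := hφ v
    refine ⟨max n m, ?_⟩
    exact (Q (max n m)).1.add_mem (hmono (le_max_left n m) hn) (hmono (le_max_right n m) hm)
  have hinj : Function.Injective φ := by
    intro u v huv
    apply huniq' u v (φ u) (hφ u)
    rw [huv]
    exact hφ v
  have hsurj : Function.Surjective φ := by
    intro w
    obtain ⟨v, hv⟩ := hsur w
    exact ⟨v, huniq v _ _ (hφ v) hv⟩
  refine ⟨AddEquiv.ofBijective (AddMonoidHom.mk' φ hadd) ⟨hinj, hsurj⟩, ⟨v0, ?_⟩, ?_⟩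
  · have : φ v0 = w0 := huniq v0 _ _ (hφ v0) ⟨0, hQ0⟩
    change φ v0 ≠ v0
    rw [this]
    exact hw0v
  · intro v
    change f (φ v) = f v
    obtain ⟨n, hn⟩ := hφ v
    exact ((Q n).2.2 _ hn).2.symm

end BackForth

section Prob

abbrev W := ℕ →₀ ZMod 2
abbrev GG := Multiplicative W

noncomputable def mu : Measure (GG → Bool) :=
  Measure.infinitePi (fun _ : GG => (PMF.uniformOfFintype Bool).toMeasure)

instance : IsProbabilityMeasure mu := by unfold mu; infer_instance

lemma mu_pi (T : Finset GG) (c : GG → Bool) :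
    mu {f | ∀ g ∈ T, f g = c g} = ((2 : ENNReal)⁻¹) ^ T.card := by
  have : {f : GG → Bool | ∀ g ∈ T, f g = c g} = Set.pi (T : Set GG) (fun g => {c g}) := by
    ext f
    simp [Set.mem_pi]
  rw [this, mu, Measure.infinitePi_pi]
  · rw [Finset.prod_congr rfl (g := fun _ => (2 : ENNReal)⁻¹)]
    · simp
    · intro g _
      rw [PMF.toMeasure_apply_singleton _ _ (MeasurableSet.singleton _)]
      simp
  · intro i _
    exact MeasurableSet.singleton _

lemma meas_cyl (T : Finset GG) (c : GG → Bool) :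
    MeasurableSet {f : GG → Bool | ∀ g ∈ T, f g = c g} := by
  have : {f : GG → Bool | ∀ g ∈ T, f g = c g} = ⋂ g ∈ T, {f | f g = c g} := by
    ext f; simp
  rw [this]
  refine Finset.measurableSet_biInter T ?_
  intro g _
  exact measurableSet_eq_fun (measurable_pi_apply g) measurable_const

lemma ae_ext (S T : Finset W) :
    ∀ᵐ f ∂mu, ∃ w, w ∉ S ∧ ∀ s ∈ S, (f (Multiplicative.ofAdd (w + s)) = true ↔ s ∈ T) := by
  classical
  -- bound on supports
  obtain ⟨m, hm⟩ : ∃ m : ℕ, ∀ s ∈ S, ∀ k, m ≤ k → s k = 0 := by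
    refine ⟨(S.biUnion (fun s => s.support)).sup id + 1, ?_⟩
    intro s hs k hk
    by_contra hne
    have h1 : k ∈ S.biUnion (fun s => s.support) :=
      Finset.mem_biUnion.2 ⟨s, hs, Finsupp.mem_support_iff.2 hne⟩
    have h2 : k ≤ (S.biUnion (fun s => s.support)).sup id :=
      Finset.le_sup (f := id) h1
    omega
  let w : ℕ → W := fun n => Finsupp.single (m + n) 1
  have hwS : ∀ n, w n ∉ S := by
    intro n hn
    have := hm _ hn (m + n) (Nat.le_add_right _ _)
    simp [w] at this
  have hdisj : ∀ n n', ∀ s ∈ S, ∀ s' ∈ S, w n + s = w n' + s' → n = n' ∧ s = s' := by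
    intro n n' s hs s' hs' h
    have hnn : n = n' := by
      by_contra hne
      have h1 := DFunLike.congr_fun h (m + n)
      simp only [Finsupp.add_apply, w] at h1
      rw [hm s hs _ (Nat.le_add_right _ _), hm s' hs' _ (Nat.le_add_right _ _)] at h1
      simp [Finsupp.single_apply] at h1
      exact hne h1.symm
    subst hnn
    exact ⟨rfl, add_left_cancel h⟩
  -- pattern
  let c : GG → Bool := fun g => decide (∃ n, ∃ s ∈ S, w n + s = Multiplicative.toAdd g ∧ s ∈ T)
  have hc : ∀ n, ∀ s ∈ S, c (Multiplicative.ofAdd (w n + s)) = decide (s ∈ T) := by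
    intro n s hs
    simp only [c, toAdd_ofAdd]
    apply Bool.decide_congr
    constructor
    · rintro ⟨n', s', hs', h, hT⟩
      rw [← (hdisj _ _ _ hs' _ hs h).2]
      exact hT
    · intro hT
      exact ⟨n, s, hs, rfl, hT⟩
  let B : ℕ → Finset GG := fun n => S.image (fun s => Multiplicative.ofAdd (w n + s))
  let A : ℕ → Set (GG → Bool) := fun n => {f | ∀ g ∈ B n, f g = c g}
  have hBcard : ∀ n, (B n).card = S.card := by
    intro n
    apply Finset.card_image_of_injective
    intro s s' h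
    exact add_left_cancel (Multiplicative.ofAdd.injective h)
  have hBdisj : ∀ i j, i ≠ j → Disjoint (B i) (B j) := by
    intro i j hij
    rw [Finset.disjoint_left]
    intro g hg hg'
    simp only [B, Finset.mem_image] at hg hg'
    obtain ⟨s, hs, rfl⟩ := hg
    obtain ⟨s', hs', h⟩ := hg'
    have := (hdisj _ _ _ hs' _ hs (Multiplicative.ofAdd.injective h)).1
    exact hij this.symm
  have hAmeas : ∀ n, MeasurableSet (A n) := fun n => meas_cyl _ _
  have hAm : ∀ n, mu (A n) = ((2 : ENNReal)⁻¹) ^ S.card := by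
    intro n
    rw [← hBcard n]
    exact mu_pi _ _
  have hindep : ProbabilityTheory.iIndepSet A mu := by
    rw [ProbabilityTheory.iIndepSet_iff_meas_biInter hAmeas]
    intro I
    have h1 : (⋂ i ∈ I, A i) = {f | ∀ g ∈ I.biUnion B, f g = c g} := by
      ext f
      simp only [A, Set.mem_iInter, Set.mem_ofPred_eq, Finset.mem_biUnion]
      constructor
      · rintro h g ⟨i, hi, hg⟩
        exact h i hi g hg
      · intro h i hi g hg
        exact h g ⟨i, hi, hg⟩
    rw [h1, mu_pi, Finset.card_biUnion]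
    · rw [Finset.prod_congr rfl (fun i _ => hAm i), Finset.prod_const,
        Finset.sum_congr rfl (fun i _ => hBcard i), Finset.sum_const, ← pow_mul, smul_eq_mul,
        mul_comm]
    · intro i _ j _ hij
      exact hBdisj i j hij
  have hsum : (∑' n, mu (A n)) = ⊤ := by
    simp only [hAm]
    apply ENNReal.tsum_const_eq_top_of_ne_zero
    apply pow_ne_zero
    simp
  have hlim := ProbabilityTheory.measure_limsup_eq_one hAmeas hindep hsum
  have hae : ∀ᵐ f ∂mu, f ∈ Filter.limsup A Filter.atTop := by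
    rw [← prob_compl_eq_zero_iff (MeasurableSet.measurableSet_limsup hAmeas)] at hlim
    exact hlim
  filter_upwards [hae] with f hf
  rw [Filter.mem_limsup_iff_frequently_mem] at hf
  obtain ⟨n, hn⟩ := hf.exists
  refine ⟨w n, hwS n, ?_⟩
  intro s hs
  have : f (Multiplicative.ofAdd (w n + s)) = c (Multiplicative.ofAdd (w n + s)) :=
    hn _ (Finset.mem_image.2 ⟨s, hs, rfl⟩)
  rw [this, hc n s hs]
  simp

end Prob

/-- The negation of the preceding statement: For every countably infinite group G, picking each element independently with probability 1/2 gives, with probability zero, a subset fixed setwise by some non-identity automorphism of G. -/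
theorem result :
    ¬ (∀ (G : Type) [Group G] [Countable G] [Infinite G],
      Measure.infinitePi (fun _ : G => (PMF.uniformOfFintype Bool).toMeasure)
        {f : G → Bool | ∃ φ : MulAut G, φ ≠ 1 ∧ ∀ g : G, f (φ g) = f g} = 0) := by
  intro H
  have hcount : Countable GG := inferInstanceAs (Countable W)
  have hinf : Infinite GG := inferInstanceAs (Infinite W)
  have h := H GG
  change mu _ = 0 at h
  have hae : ∀ᵐ f ∂mu, ¬ ∃ φ : MulAut GG, φ ≠ 1 ∧ ∀ g : GG, f (φ g) = f g := by
    rw [ae_iff]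
    simpa using h
  have hE : ∀ᵐ f ∂mu, ∀ p : Finset W × Finset W,
      ∃ w, w ∉ p.1 ∧ ∀ s ∈ p.1, (f (Multiplicative.ofAdd (w + s)) = true ↔ s ∈ p.2) := by
    rw [ae_all_iff]
    intro p
    exact ae_ext p.1 p.2
  obtain ⟨f, hf1, hf2⟩ := (hae.and hE).exists
  apply hf1
  have h2 : ∀ x : W, x + x = 0 := by
    intro x
    ext n
    simp only [Finsupp.add_apply, Finsupp.zero_apply]
    have : ∀ a : ZMod 2, a + a = 0 := by decide
    exact this _
  obtain ⟨φ, ⟨v, hv⟩, hφ⟩ := exists_aut (V := W) (f := fun x => f (Multiplicative.ofAdd x)) h2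
    (fun S T => hf2 (S, T))
  refine ⟨AddEquiv.toMultiplicative φ, ?_, ?_⟩
  · intro heq
    apply hv
    have := congrArg (fun ψ : MulAut GG => Multiplicative.toAdd (ψ (Multiplicative.ofAdd v))) heq
    exact this
  · intro g
    exact hφ (Multiplicative.toAdd g)

end Pool.Agent.S08322
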