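import Pool.Statements.S08338
-- import your own Pool.Agent.* helpers here

set_option autoImplicit false
open Pool Pool.MP_ed2cb0_co

namespace Pool.Agent.S08338

/-- Adjacency masks of the 9-vertex graph. -/
def mask : Fin 9 → ℕ := ![480, 472, 440, 214, 302, 341, 171, 79, 55]

def adjB (u v : Fin 9) : Bool := (mask u).testBit v

/-- The graph. -/
def G : SimpleGraph (Fin 9) where
  Adj u v := adjB u v = true
  symm := ⟨by decide⟩
  loopless := ⟨by decide⟩

instance : DecidableRel G.Adj := fun u v => inferInstanceAs (Decidable (adjB u v = true))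

/-- Irredundant sets. -/
abbrev Irr (S : Finset (Fin 9)) : Prop :=
  ∀ v ∈ S, ∃ w, (w = v ∨ G.Adj v w) ∧ ∀ u ∈ S, u ≠ v → ¬ (w = u ∨ G.Adj u w)

/-- The seven maximum irredundant sets, in path order. -/
def L : Fin 7 → Finset (Fin 9) :=
  ![{1, 3, 6}, {1, 6, 7}, {0, 1, 7}, {0, 1, 2}, {0, 2, 8}, {2, 5, 8}, {2, 4, 5}]

theorem L_irr : ∀ i, Irr (L i) := by decide +kernel

theorem L_card : ∀ i, (L i).card = 3 := by decide +kernel

theorem L_inj : Function.Injective L := by decide +kernel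

set_option maxRecDepth 100000 in
theorem all_irr : ∀ T : Finset (Fin 9), Irr T → T.card ≤ 3 ∧ (T.card = 3 → ∃ i, L i = T) := by
  decide +kernel

abbrev V : Type := {S : Finset (Fin 9) // Irr S ∧ ∀ T : Finset (Fin 9), Irr T → T.card ≤ S.card}

def f (i : Fin 7) : V := ⟨L i, L_irr i, fun T hT => by rw [L_card i]; exact (all_irr T hT).1⟩

theorem f_bij : Function.Bijective f := by
  constructor
  · intro i j h
    exact L_inj (congrArg Subtype.val h)
  · intro S
    have h1 := all_irr S.1 S.2.1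
    have h2 := S.2.2 (L 0) (L_irr 0)
    rw [L_card 0] at h2
    obtain ⟨i, hi⟩ := h1.2 (by omega)
    exact ⟨i, Subtype.ext hi⟩

abbrev R (D E : Finset (Fin 9)) : Prop :=
  ∃ u v : Fin 9, D \ E = {u} ∧ E \ D = {v} ∧ G.Adj u v

theorem adj_iff : ∀ i j : Fin 7, (L i ≠ L j ∧ (R (L i) (L j) ∨ R (L j) (L i))) ↔
    ((i : ℕ) + 1 = j ∨ (j : ℕ) + 1 = i) := by
  decide +kernel

theorem claw : ∀ a b c d : Fin 7, ((a : ℕ) + 1 = b ∨ (b : ℕ) + 1 = a) →
    ((a : ℕ) + 1 = c ∨ (c : ℕ) + 1 = a) → ((a : ℕ) + 1 = d ∨ (d : ℕ) + 1 = a) →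
    b ≠ c → b ≠ d → c ≠ d → False := by
  decide +kernel

/-- The negation of the preceding statement: Every finite connected claw-free graph isomorphic to the slide IR-graph of some finite graph G is isomorphic to a complete graph or to K_m □ K_k with m, k ≥ 2. -/
theorem result :
    ¬ (∀ (n : ℕ) (H : SimpleGraph (Fin n)), H.Connected →
    (∀ a b c d : Fin n, H.Adj a b → H.Adj a c → H.Adj a d → b ≠ c → b ≠ d → c ≠ d →
        H.Adj b c ∨ H.Adj b d ∨ H.Adj c d) →
    (∃ (p : ℕ) (G : SimpleGraph (Fin p)),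
      Nonempty (H ≃g SimpleGraph.fromRel
        (fun (D E : {D : Finset (Fin p) //
            (∀ v ∈ D, ∃ w : Fin p, (w = v ∨ G.Adj v w) ∧
                ∀ u ∈ D, u ≠ v → ¬ (w = u ∨ G.Adj u w)) ∧
            ∀ F : Finset (Fin p),
              (∀ v ∈ F, ∃ w : Fin p, (w = v ∨ G.Adj v w) ∧
                  ∀ u ∈ F, u ≠ v → ¬ (w = u ∨ G.Adj u w)) →
              F.card ≤ D.card}) =>
          ∃ u v : Fin p, D.1 \ E.1 = {u} ∧ E.1 \ D.1 = {v} ∧ G.Adj u v))) →
    (∃ k : ℕ, Nonempty (H ≃g (⊤ : SimpleGraph (Fin k)))) ∨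
    (∃ m k : ℕ, 2 ≤ m ∧ 2 ≤ k ∧
      Nonempty (H ≃g SimpleGraph.boxProd (⊤ : SimpleGraph (Fin m)) (⊤ : SimpleGraph (Fin k))))) := by
  intro H
  have h := H 7 (SimpleGraph.pathGraph 7) (SimpleGraph.pathGraph_connected 6) ?_ ?_
  · rcases h with ⟨k, ⟨φ⟩⟩ | ⟨m, k, hm, hk, ⟨φ⟩⟩
    · have h1 : (⊤ : SimpleGraph (Fin k)).Adj (φ 0) (φ 2) := by
        rw [SimpleGraph.top_adj]
        intro he
        exact absurd (φ.injective he) (by decide)
      rw [φ.map_adj_iff, SimpleGraph.pathGraph_adj] at h1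
      revert h1
      decide
    · obtain ⟨x', hx⟩ : ∃ x' : Fin m, x' ≠ (φ 0).1 := by
        haveI : Nontrivial (Fin m) := Fin.nontrivial_iff_two_le.2 hm
        exact exists_ne _
      obtain ⟨y', hy⟩ : ∃ y' : Fin k, y' ≠ (φ 0).2 := by
        haveI : Nontrivial (Fin k) := Fin.nontrivial_iff_two_le.2 hk
        exact exists_ne _
      have key : ∀ p, (SimpleGraph.boxProd (⊤ : SimpleGraph (Fin m)) (⊤ : SimpleGraph (Fin k))).Adj
          (φ 0) p → φ.symm p = 1 := by
        intro p hp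
        have h1 : (SimpleGraph.pathGraph 7).Adj 0 (φ.symm p) := by
          rw [← φ.map_adj_iff]
          simpa using hp
        rw [SimpleGraph.pathGraph_adj] at h1
        apply Fin.ext
        have h2 : ((0 : Fin 7) : ℕ) = 0 := rfl
        have h3 : ((1 : Fin 7) : ℕ) = 1 := rfl
        omega
      have h1 := key (x', (φ 0).2) (by
        rw [SimpleGraph.boxProd_adj]; left
        exact ⟨by rw [SimpleGraph.top_adj]; exact hx.symm, rfl⟩)
      have h2 := key ((φ 0).1, y') (by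
        rw [SimpleGraph.boxProd_adj]; right
        exact ⟨by rw [SimpleGraph.top_adj]; exact hy.symm, rfl⟩)
      have h3 := φ.symm.injective (h1.trans h2.symm)
      exact hx (congrArg Prod.fst h3)
  · intro a b c d hab hac had hbc hbd hcd
    rw [SimpleGraph.pathGraph_adj] at hab hac had
    exact (claw a b c d hab hac had hbc hbd hcd).elim
  · refine ⟨9, G, ⟨⟨Equiv.ofBijective f f_bij, ?_⟩⟩⟩
    intro i j
    rw [SimpleGraph.fromRel_adj, SimpleGraph.pathGraph_adj, ← adj_iff]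
    simp only [Equiv.ofBijective_apply, f, ne_eq, Subtype.mk.injEq]

end Pool.Agent.S08338
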