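import Pool.Statements.S08562
-- import your own Pool.Agent.* helpers here

set_option autoImplicit false
open Pool Pool.MP_fa3e6d_co

namespace Pool.Agent.S08562

/-- Adjacency masks of the 9-vertex graph. -/
def mask : Fin 9 → ℕ := ![480, 472, 440, 214, 302, 341, 171, 79, 55]

def adjB (u v : Fin 9) : Bool := (mask u).testBit v

/-- The graph. -/
def G : SimpleGraph (Fin 9) where
  Adj u v := adjB u v = true
  symm := ⟨by decide⟩
  loopless := ⟨by decide⟩

instance : DecidableRel G.Adj := fun u v => inferInstanceAs (Decidable (adjB u v = true))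

/-- Irredundant sets. -/
abbrev Irr (S : Finset (Fin 9)) : Prop :=
  ∀ v ∈ S, ∃ w, (w = v ∨ G.Adj v w) ∧ ∀ u ∈ S, u ≠ v → ¬ (w = u ∨ G.Adj u w)

/-- The seven maximum irredundant sets, in path order. -/
def L : Fin 7 → Finset (Fin 9) :=
  ![{1, 3, 6}, {1, 6, 7}, {0, 1, 7}, {0, 1, 2}, {0, 2, 8}, {2, 5, 8}, {2, 4, 5}]

theorem L_irr : ∀ i, Irr (L i) := by decide +kernel

theorem L_card : ∀ i, (L i).card = 3 := by decide +kernel

theorem L_inj : Function.Injective L := by decide +kernel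

set_option maxRecDepth 100000 in
theorem all_irr : ∀ T : Finset (Fin 9), Irr T → T.card ≤ 3 ∧ (T.card = 3 → ∃ i, L i = T) := by
  decide +kernel

abbrev V : Type := {S : Finset (Fin 9) // Irr S ∧ ∀ T : Finset (Fin 9), Irr T → T.card ≤ S.card}

def f (i : Fin 7) : V := ⟨L i, L_irr i, fun T hT => by rw [L_card i]; exact (all_irr T hT).1⟩

theorem f_bij : Function.Bijective f := by
  constructor
  · intro i j h
    exact L_inj (congrArg Subtype.val h)
  · intro S
    have h1 := all_irr S.1 S.2.1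
    have h2 := S.2.2 (L 0) (L_irr 0)
    rw [L_card 0] at h2
    obtain ⟨i, hi⟩ := h1.2 (by omega)
    exact ⟨i, Subtype.ext hi⟩

abbrev R (D D' : Finset (Fin 9)) : Prop :=
  ∃ v ∈ D, ∃ v' ∈ D', G.Adj v v' ∧ D' = insert v' (D.erase v)

theorem adj_iff : ∀ i j : Fin 7, (L i ≠ L j ∧ (R (L i) (L j) ∨ R (L j) (L i))) ↔
    ((i : ℕ) + 1 = j ∨ (j : ℕ) + 1 = i) := by
  decide +kernel

/-- The negation of the preceding statement: For every finite graph G, its slide IR-graph (maximum irredundant sets, adjacent when one is obtained from the other by sliding a vertex along an edge) is not isomorphic to any path on n≥3 vertices nor any cycle on n≥5 vertices. -/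
theorem result :
    ¬ (∀ (m : ℕ) (G : SimpleGraph (Fin m)),
      (∀ n : ℕ, 3 ≤ n →
        IsEmpty (SimpleGraph.pathGraph n ≃g
          SimpleGraph.fromRel
            (fun D D' : {S : Finset (Fin m) //
                (∀ v ∈ S, ∃ w, (w = v ∨ G.Adj v w) ∧ ∀ u ∈ S, u ≠ v → ¬ (w = u ∨ G.Adj u w)) ∧
                ∀ T : Finset (Fin m),
                  (∀ v ∈ T, ∃ w, (w = v ∨ G.Adj v w) ∧ ∀ u ∈ T, u ≠ v → ¬ (w = u ∨ G.Adj u w)) →
                  T.card ≤ S.card} =>
              ∃ v ∈ D.1, ∃ v' ∈ D'.1, G.Adj v v' ∧ D'.1 = insert v' (D.1.erase v)))) ∧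
      (∀ n : ℕ, 5 ≤ n →
        IsEmpty (SimpleGraph.cycleGraph n ≃g
          SimpleGraph.fromRel
            (fun D D' : {S : Finset (Fin m) //
                (∀ v ∈ S, ∃ w, (w = v ∨ G.Adj v w) ∧ ∀ u ∈ S, u ≠ v → ¬ (w = u ∨ G.Adj u w)) ∧
                ∀ T : Finset (Fin m),
                  (∀ v ∈ T, ∃ w, (w = v ∨ G.Adj v w) ∧ ∀ u ∈ T, u ≠ v → ¬ (w = u ∨ G.Adj u w)) →
                  T.card ≤ S.card} =>
              ∃ v ∈ D.1, ∃ v' ∈ D'.1, G.Adj v v' ∧ D'.1 = insert v' (D.1.erase v))))) := by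
  intro H
  refine ((H 9 G).1 7 (by norm_num)).false ⟨Equiv.ofBijective f f_bij, ?_⟩
  intro i j
  rw [SimpleGraph.fromRel_adj, SimpleGraph.pathGraph_adj, ← adj_iff]
  simp only [Equiv.ofBijective_apply, f, ne_eq, Subtype.mk.injEq]

end Pool.Agent.S08562
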