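import Pool.Statements.S08656
-- import your own Pool.Agent.* helpers here

set_option autoImplicit false
open Pool Pool.MP_06ab34_gt

namespace Pool.Agent.S08656

open Finset MeasureTheory

/-- oscillation -/
noncomputable def osc {α : Type} (f : α → ℝ) (A : Finset α) : NNReal :=
  (A ×ˢ A).sup (fun p : α × α => Real.nnabs (f p.1 - f p.2))

lemma osc_map {α β : Type} (g : α ↪ β) (f : β → ℝ) (A : Finset α) :
    osc f (A.map g) = osc (fun a => f (g a)) A := by
  unfold osc
  apply le_antisymm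
  · apply Finset.sup_le
    rintro ⟨x, y⟩ hxy
    simp only [Finset.mem_product, Finset.mem_map] at hxy
    obtain ⟨⟨a, ha, rfl⟩, ⟨b, hb, rfl⟩⟩ := hxy
    exact Finset.le_sup (f := fun p : α × α => Real.nnabs (f (g p.1) - f (g p.2)))
      (b := (a, b)) (by simp [ha, hb])
  · apply Finset.sup_le
    rintro ⟨x, y⟩ hxy
    simp only [Finset.mem_product] at hxy
    exact Finset.le_sup (f := fun p : β × β => Real.nnabs (f p.1 - f p.2))
      (b := (g x, g y)) (by simp [hxy.1, hxy.2])

/-- cut indicator at level t -/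
def IsCut {α : Type} (f : α → ℝ) (A : Finset α) (t : ℝ) : Prop :=
  (∃ x ∈ A, f x ≤ t) ∧ (∃ y ∈ A, t < f y)

lemma osc_eq {α : Type} (f : α → ℝ) (A : Finset α) (hA : A.Nonempty) :
    ((osc f A : NNReal) : ℝ) = A.sup' hA f - A.inf' hA f := by
  apply le_antisymm
  · have h0 : 0 ≤ A.sup' hA f - A.inf' hA f := by
      obtain ⟨a, ha⟩ := hA
      have h1 := Finset.le_sup' f ha
      have h2 := Finset.inf'_le f ha
      linarith
    have : osc f A ≤ Real.toNNReal (A.sup' hA f - A.inf' hA f) := by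
      unfold osc
      apply Finset.sup_le
      rintro ⟨x, y⟩ hxy
      simp only [Finset.mem_product] at hxy
      rw [← NNReal.coe_le_coe, Real.coe_toNNReal _ h0, Real.coe_nnabs]
      have h1 := Finset.le_sup' f hxy.1
      have h2 := Finset.inf'_le f hxy.1
      have h3 := Finset.le_sup' f hxy.2
      have h4 := Finset.inf'_le f hxy.2
      simp only
      rw [abs_le]
      constructor <;> linarith
    rw [← NNReal.coe_le_coe, Real.coe_toNNReal _ h0] at this
    exact this
  · obtain ⟨x, hx, hxe⟩ := Finset.exists_mem_eq_sup' hA f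
    obtain ⟨y, hy, hye⟩ := Finset.exists_mem_eq_inf' hA f
    rw [hxe, hye]
    have : Real.nnabs (f x - f y) ≤ osc f A :=
      Finset.le_sup (f := fun p : α × α => Real.nnabs (f p.1 - f p.2)) (b := (x, y)) (by simp [hx, hy])
    rw [← NNReal.coe_le_coe, Real.coe_nnabs] at this
    exact (le_abs_self _).trans this

lemma isCut_iff {α : Type} (f : α → ℝ) (A : Finset α) (hA : A.Nonempty) (t : ℝ) :
    IsCut f A t ↔ t ∈ Set.Ico (A.inf' hA f) (A.sup' hA f) := by
  unfold IsCut
  rw [Set.mem_Ico, Finset.inf'_le_iff, Finset.lt_sup'_iff]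

open Classical in
lemma osc_lintegral {α : Type} (f : α → ℝ) (A : Finset α) (hA : A.Nonempty) :
    ((osc f A : NNReal) : ENNReal) = ∫⁻ t : ℝ, (if IsCut f A t then 1 else 0) := by
  have h1 : (fun t : ℝ => (if IsCut f A t then (1 : ENNReal) else 0)) =
      (Set.Ico (A.inf' hA f) (A.sup' hA f)).indicator (fun _ => 1) := by
    funext t
    simp only [Set.indicator, isCut_iff f A hA]
  rw [h1, lintegral_indicator measurableSet_Ico]
  simp only [lintegral_const, MeasurableSet.univ, Measure.restrict_apply, Set.univ_inter, one_mul,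
    Real.volume_Ico]
  rw [← osc_eq f A hA]
  simp

open Classical in
lemma cut_measurable {α : Type} (f : α → ℝ) (A : Finset α) (hA : A.Nonempty) :
    Measurable (fun t : ℝ => (if IsCut f A t then (1 : ENNReal) else 0)) := by
  have h1 : (fun t : ℝ => (if IsCut f A t then (1 : ENNReal) else 0)) =
      (Set.Ico (A.inf' hA f) (A.sup' hA f)).indicator (fun _ => 1) := by
    funext t
    simp only [Set.indicator, isCut_iff f A hA]
  rw [h1]
  exact measurable_const.indicator measurableSet_Ico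

section plane

variable (p : ℕ) [hp : Fact p.Prime]

abbrev V := ZMod p × ZMod p

/-- non-vertical line `y = b x + c` -/
def L (bc : V p) : Finset (V p) := Finset.univ.image (fun x : ZMod p => (x, bc.1 * x + bc.2))

/-- parabola `y = x^2 + b x + c` -/
def P (bc : V p) : Finset (V p) :=
  Finset.univ.image (fun x : ZMod p => (x, x ^ 2 + bc.1 * x + bc.2))

lemma mem_L (bc v : V p) : v ∈ L p bc ↔ v.2 = bc.1 * v.1 + bc.2 := by
  unfold L
  simp only [Finset.mem_image, Finset.mem_univ, true_and]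
  constructor
  · rintro ⟨x, rfl⟩; rfl
  · intro h; exact ⟨v.1, by rw [← h]⟩

lemma mem_P (bc v : V p) : v ∈ P p bc ↔ v.2 = v.1 ^ 2 + bc.1 * v.1 + bc.2 := by
  unfold P
  simp only [Finset.mem_image, Finset.mem_univ, true_and]
  constructor
  · rintro ⟨x, rfl⟩; rfl
  · intro h; exact ⟨v.1, by rw [← h]⟩

lemma card_L (bc : V p) : (L p bc).card = p := by
  unfold L
  rw [Finset.card_image_of_injective]
  · simp [ZMod.card]
  · intro x y h; exact (Prod.mk.inj h).1

lemma card_P (bc : V p) : (P p bc).card = p := by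
  unfold P
  rw [Finset.card_image_of_injective]
  · simp [ZMod.card]
  · intro x y h; exact (Prod.mk.inj h).1

lemma L_nonempty (bc : V p) : (L p bc).Nonempty := ⟨(0, bc.1 * 0 + bc.2), by rw [mem_L]⟩

lemma P_nonempty (bc : V p) : (P p bc).Nonempty :=
  ⟨(0, 0 ^ 2 + bc.1 * 0 + bc.2), by rw [mem_P]⟩

/-- number of lines through a point -/
lemma lines_through (v : V p) : (Finset.univ.filter (fun bc : V p => v ∈ L p bc)).card = p := by
  have : (Finset.univ.filter (fun bc : V p => v ∈ L p bc)) =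
      Finset.univ.image (fun b : ZMod p => (b, v.2 - b * v.1)) := by
    ext bc
    simp only [Finset.mem_filter, Finset.mem_univ, true_and, mem_L, Finset.mem_image]
    constructor
    · intro h; exact ⟨bc.1, by rw [h]; ext <;> simp⟩
    · rintro ⟨b, rfl⟩; simp
  rw [this, Finset.card_image_of_injective]
  · simp [ZMod.card]
  · intro x y h; exact (Prod.mk.inj h).1

lemma parabolas_through (v : V p) :
    (Finset.univ.filter (fun bc : V p => v ∈ P p bc)).card = p := by
  have : (Finset.univ.filter (fun bc : V p => v ∈ P p bc)) =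
      Finset.univ.image (fun b : ZMod p => (b, v.2 - v.1 ^ 2 - b * v.1)) := by
    ext bc
    simp only [Finset.mem_filter, Finset.mem_univ, true_and, mem_P, Finset.mem_image]
    constructor
    · intro h
      refine ⟨bc.1, ?_⟩
      rw [h]
      ext
      · rfl
      · show v.1 ^ 2 + bc.1 * v.1 + bc.2 - v.1 ^ 2 - bc.1 * v.1 = bc.2
        ring
    · rintro ⟨b, rfl⟩; simp
  rw [this, Finset.card_image_of_injective]
  · simp [ZMod.card]
  · intro x y h; exact (Prod.mk.inj h).1

/-- at most one line through two distinct points -/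
lemma lines_through_two (u v : V p) (h : u ≠ v) :
    (Finset.univ.filter (fun bc : V p => u ∈ L p bc ∧ v ∈ L p bc)).card ≤ 1 := by
  rw [Finset.card_le_one]
  intro a ha b hb
  simp only [Finset.mem_filter, Finset.mem_univ, true_and, mem_L] at ha hb
  obtain ⟨ha1, ha2⟩ := ha
  obtain ⟨hb1, hb2⟩ := hb
  have hne : u.1 - v.1 ≠ 0 := by
    intro h0
    have h1 : u.1 = v.1 := sub_eq_zero.1 h0
    apply h
    ext
    · exact h1
    · rw [ha1, ha2, h1]
  have h3 : (a.1 - b.1) * (u.1 - v.1) = 0 := by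
    have e1 : a.1 * u.1 + a.2 = b.1 * u.1 + b.2 := by rw [← ha1, ← hb1]
    have e2 : a.1 * v.1 + a.2 = b.1 * v.1 + b.2 := by rw [← ha2, ← hb2]
    linear_combination e1 - e2
  rcases mul_eq_zero.1 h3 with h4 | h4
  · have h5 : a.1 = b.1 := sub_eq_zero.1 h4
    ext
    · exact h5
    · have e1 : a.1 * u.1 + a.2 = b.1 * u.1 + b.2 := by rw [← ha1, ← hb1]
      rw [h5] at e1
      exact add_left_cancel e1
  · exact absurd h4 hne

lemma L_inter_P (a b : V p) : (L p a ∩ P p b).card ≤ 2 := by
  by_contra hcon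
  rw [not_le] at hcon
  rw [Finset.two_lt_card] at hcon
  obtain ⟨x, hx, y, hy, z, hz, hxy, hxz, hyz⟩ := hcon
  simp only [Finset.mem_inter, mem_L, mem_P] at hx hy hz
  have hfst : ∀ u v : V p, u.2 = a.1 * u.1 + a.2 → v.2 = a.1 * v.1 + a.2 → u ≠ v →
      u.1 - v.1 ≠ 0 := by
    intro u v hu hv huv h0
    apply huv
    have h1 : u.1 = v.1 := sub_eq_zero.1 h0
    ext
    · exact h1
    · rw [hu, hv, h1]
  have e1 : a.1 * x.1 + a.2 = x.1 ^ 2 + b.1 * x.1 + b.2 := by rw [← hx.1, ← hx.2]
  have e2 : a.1 * y.1 + a.2 = y.1 ^ 2 + b.1 * y.1 + b.2 := by rw [← hy.1, ← hy.2]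
  have e3 : a.1 * z.1 + a.2 = z.1 ^ 2 + b.1 * z.1 + b.2 := by rw [← hz.1, ← hz.2]
  have f1 : (x.1 - y.1) * (x.1 + y.1 + b.1 - a.1) = 0 := by linear_combination e2 - e1
  have f2 : (x.1 - z.1) * (x.1 + z.1 + b.1 - a.1) = 0 := by linear_combination e3 - e1
  have g1 := (mul_eq_zero.1 f1).resolve_left (hfst x y hx.1 hy.1 hxy)
  have g2 := (mul_eq_zero.1 f2).resolve_left (hfst x z hx.1 hz.1 hxz)
  exact hfst y z hy.1 hz.1 hyz (by linear_combination g1 - g2)

open Classical in
/-- lines meeting `S` -/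
noncomputable def meetL (S : Finset (V p)) : Finset (V p) :=
  Finset.univ.filter (fun bc => (L p bc ∩ S).Nonempty)

open Classical in
/-- lines cut by `S` -/
noncomputable def cutL (S : Finset (V p)) : Finset (V p) :=
  Finset.univ.filter (fun bc => (∃ x ∈ L p bc, x ∈ S) ∧ (∃ y ∈ L p bc, y ∉ S))

open Classical in
/-- parabolas cut by `S` -/
noncomputable def cutP (S : Finset (V p)) : Finset (V p) :=
  Finset.univ.filter (fun bc => (∃ x ∈ P p bc, x ∈ S) ∧ (∃ y ∈ P p bc, y ∉ S))

lemma sum_L_inter (S : Finset (V p)) : ∑ bc : V p, (L p bc ∩ S).card = S.card * p := by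
  have h1 : ∀ bc : V p, (L p bc ∩ S).card = ∑ v ∈ S, if v ∈ L p bc then 1 else 0 := by
    intro bc
    rw [← Finset.sum_filter, Finset.sum_const, smul_eq_mul, mul_one]
    congr 1
    ext v; simp [and_comm]
  simp_rw [h1]
  rw [Finset.sum_comm]
  have h2 : ∀ v ∈ S, (∑ bc : V p, if v ∈ L p bc then 1 else 0) = p := by
    intro v _
    rw [← Finset.sum_filter, Finset.sum_const, smul_eq_mul, mul_one, lines_through]
  rw [Finset.sum_congr rfl h2, Finset.sum_const, smul_eq_mul]

lemma sum_P_inter (S : Finset (V p)) : ∑ bc : V p, (P p bc ∩ S).card = S.card * p := by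
  have h1 : ∀ bc : V p, (P p bc ∩ S).card = ∑ v ∈ S, if v ∈ P p bc then 1 else 0 := by
    intro bc
    rw [← Finset.sum_filter, Finset.sum_const, smul_eq_mul, mul_one]
    congr 1
    ext v; simp [and_comm]
  simp_rw [h1]
  rw [Finset.sum_comm]
  have h2 : ∀ v ∈ S, (∑ bc : V p, if v ∈ P p bc then 1 else 0) = p := by
    intro v _
    rw [← Finset.sum_filter, Finset.sum_const, smul_eq_mul, mul_one, parabolas_through]
  rw [Finset.sum_congr rfl h2, Finset.sum_const, smul_eq_mul]

lemma sum_L_inter_sq (S : Finset (V p)) :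
    ∑ bc : V p, (L p bc ∩ S).card ^ 2 ≤ S.card * p + S.card ^ 2 := by
  have h1 : ∀ bc : V p, (L p bc ∩ S).card ^ 2 =
      ∑ u ∈ S, ∑ v ∈ S, if (u ∈ L p bc ∧ v ∈ L p bc) then 1 else 0 := by
    intro bc
    have h0 : (L p bc ∩ S).card = ∑ v ∈ S, if v ∈ L p bc then 1 else 0 := by
      rw [← Finset.sum_filter, Finset.sum_const, smul_eq_mul, mul_one]
      congr 1
      ext v; simp [and_comm]
    rw [h0, sq, Finset.sum_mul_sum]
    refine Finset.sum_congr rfl (fun u _ => Finset.sum_congr rfl (fun v _ => ?_))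
    by_cases hu : u ∈ L p bc <;> by_cases hv : v ∈ L p bc <;> simp [hu, hv]
  simp_rw [h1]
  rw [Finset.sum_comm]
  have h2 : ∀ u ∈ S, (∑ bc : V p, ∑ v ∈ S, if (u ∈ L p bc ∧ v ∈ L p bc) then 1 else 0) ≤
      p + S.card := by
    intro u hu
    rw [Finset.sum_comm]
    have h3 : ∀ v ∈ S, (∑ bc : V p, if (u ∈ L p bc ∧ v ∈ L p bc) then 1 else 0) ≤
        (if v = u then p else 0) + 1 := by
      intro v _
      rw [← Finset.sum_filter, Finset.sum_const, smul_eq_mul, mul_one]
      by_cases h : v = u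
      · subst h
        rw [if_pos rfl]
        have : (Finset.univ.filter (fun bc : V p => v ∈ L p bc ∧ v ∈ L p bc)).card = p := by
          simp only [and_self]; exact lines_through p v
        omega
      · rw [if_neg h]
        have := lines_through_two p u v (Ne.symm h)
        omega
    refine (Finset.sum_le_sum h3).trans ?_
    rw [Finset.sum_add_distrib, Finset.sum_ite_eq' S u, if_pos hu, Finset.sum_const]
    simp
  refine (Finset.sum_le_sum h2).trans ?_
  rw [Finset.sum_const, smul_eq_mul]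
  nlinarith

lemma meet_bound (S : Finset (V p)) (hS : S.Nonempty) :
    S.card * p ^ 2 ≤ (meetL p S).card * (p + S.card) := by
  have hs : 0 < S.card := hS.card_pos
  have h1 : ∑ bc ∈ meetL p S, (L p bc ∩ S).card = S.card * p := by
    rw [← sum_L_inter p S]
    apply Finset.sum_subset (Finset.subset_univ _)
    intro bc _ hbc
    simp only [meetL, Finset.mem_filter, Finset.mem_univ, true_and,
      Finset.not_nonempty_iff_eq_empty] at hbc
    simp [hbc]
  have h2 : (∑ bc ∈ meetL p S, (L p bc ∩ S).card) ^ 2 ≤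
      (meetL p S).card * ∑ bc ∈ meetL p S, (L p bc ∩ S).card ^ 2 := sq_sum_le_card_mul_sum_sq
  have h3 : ∑ bc ∈ meetL p S, (L p bc ∩ S).card ^ 2 ≤ S.card * p + S.card ^ 2 :=
    (Finset.sum_le_sum_of_subset (Finset.subset_univ _)).trans (sum_L_inter_sq p S)
  rw [h1] at h2
  have h4 : (S.card * p) ^ 2 ≤ (meetL p S).card * (S.card * p + S.card ^ 2) :=
    h2.trans (Nat.mul_le_mul_left _ h3)
  have h5 : S.card * (S.card * p ^ 2) ≤ S.card * ((meetL p S).card * (p + S.card)) := by
    nlinarith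
  exact Nat.le_of_mul_le_mul_left h5 hs

open Classical in
lemma contained_bound (S : Finset (V p)) :
    (Finset.univ.filter (fun bc : V p => L p bc ⊆ S)).card ≤ S.card := by
  have hp0 : 0 < p := hp.out.pos
  have h1 : ∑ bc ∈ Finset.univ.filter (fun bc : V p => L p bc ⊆ S), (L p bc ∩ S).card ≤
      S.card * p := by
    rw [← sum_L_inter p S]
    exact Finset.sum_le_sum_of_subset (Finset.subset_univ _)
  have h2 : ∀ bc ∈ Finset.univ.filter (fun bc : V p => L p bc ⊆ S), (L p bc ∩ S).card = p := by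
    intro bc hbc
    simp only [Finset.mem_filter, Finset.mem_univ, true_and] at hbc
    rw [Finset.inter_eq_left.2 hbc, card_L]
  rw [Finset.sum_congr rfl h2, Finset.sum_const, smul_eq_mul] at h1
  exact Nat.le_of_mul_le_mul_right h1 hp0

lemma cutL_bound (S : Finset (V p)) : (meetL p S).card ≤ (cutL p S).card + S.card := by
  classical
  have : meetL p S ⊆ cutL p S ∪ Finset.univ.filter (fun bc : V p => L p bc ⊆ S) := by
    intro bc hbc
    simp only [meetL, Finset.mem_filter, Finset.mem_univ, true_and] at hbc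
    obtain ⟨x, hx⟩ := hbc
    rw [Finset.mem_inter] at hx
    rw [Finset.mem_union]
    by_cases h : L p bc ⊆ S
    · right; simpa using h
    · left
      rw [Finset.not_subset] at h
      obtain ⟨y, hy, hy'⟩ := h
      simp only [cutL, Finset.mem_filter, Finset.mem_univ, true_and]
      exact ⟨⟨x, hx.1, hx.2⟩, ⟨y, hy, hy'⟩⟩
  calc (meetL p S).card ≤ _ := Finset.card_le_card this
    _ ≤ _ := Finset.card_union_le _ _
    _ ≤ _ := Nat.add_le_add_left (contained_bound p S) _

lemma cutP_le (S : Finset (V p)) : (cutP p S).card ≤ S.card * p := by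
  rw [← sum_P_inter p S]
  calc (cutP p S).card = ∑ bc ∈ cutP p S, 1 := by simp
    _ ≤ ∑ bc ∈ cutP p S, (P p bc ∩ S).card := by
        apply Finset.sum_le_sum
        intro bc hbc
        simp only [cutP, Finset.mem_filter, Finset.mem_univ, true_and] at hbc
        obtain ⟨⟨x, hx, hxS⟩, _⟩ := hbc
        exact Finset.card_pos.2 ⟨x, Finset.mem_inter.2 ⟨hx, hxS⟩⟩
    _ ≤ _ := Finset.sum_le_sum_of_subset (Finset.subset_univ _)

lemma cutP_le' (S : Finset (V p)) : (cutP p S).card ≤ p ^ 2 := by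
  calc (cutP p S).card ≤ (Finset.univ : Finset (V p)).card := Finset.card_le_card (Finset.subset_univ _)
    _ = p ^ 2 := by rw [Finset.card_univ, Fintype.card_prod, ZMod.card]; ring

lemma cut_compare_small (hp4 : 4 ≤ p) (S : Finset (V p)) (hS : 2 * S.card ≤ p ^ 2) :
    (cutP p S).card ≤ 8 * (cutL p S).card := by
  rcases S.eq_empty_or_nonempty with h | h
  · subst h
    have : cutP p ∅ = ∅ := by
      classical
      unfold cutP; simp
    rw [this]; simp
  have hs : 0 < S.card := h.card_pos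
  have h1 := meet_bound p S h
  have h2 := cutL_bound p S
  have h3 := cutP_le p S
  have h4 := cutP_le' p S
  set s := S.card
  set K := (cutP p S).card
  set M := (meetL p S).card
  set Lc := (cutL p S).card
  zify at *
  have hpp : (0 : ℤ) ≤ p := by positivity
  -- K (p+s) ≤ 2 s p^2
  have h5 : (K : ℤ) * (p + s) ≤ 2 * s * p ^ 2 := by nlinarith
  have h6 : (s : ℤ) * p ^ 2 ≤ (Lc + s) * (p + s) := h1.trans (by nlinarith)
  have h7 : 2 * (s : ℤ) * p ^ 2 ≤ 8 * Lc * (p + s) := by nlinarith
  have h8 : (K : ℤ) * (p + s) ≤ (8 * Lc) * (p + s) := h5.trans h7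
  exact le_of_mul_le_mul_right h8 (by positivity)

lemma cut_compare (hp4 : 4 ≤ p) (S : Finset (V p)) :
    (cutP p S).card ≤ 8 * (cutL p S).card := by
  classical
  by_cases hS : 2 * S.card ≤ p ^ 2
  · exact cut_compare_small p hp4 S hS
  · have hc : cutP p S = cutP p Sᶜ := by
      unfold cutP
      ext bc
      simp only [Finset.mem_filter, Finset.mem_univ, true_and, Finset.mem_compl, not_not]
      exact and_comm
    have hc' : cutL p S = cutL p Sᶜ := by
      unfold cutL
      ext bc
      simp only [Finset.mem_filter, Finset.mem_univ, true_and, Finset.mem_compl, not_not]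
      exact and_comm
    rw [hc, hc']
    apply cut_compare_small p hp4
    have : Sᶜ.card + S.card = p ^ 2 := by
      rw [Finset.card_compl_add_card, Fintype.card_prod, ZMod.card]; ring
    omega

open Classical in
lemma osc_compare (hp4 : 4 ≤ p) (f : V p → ℝ) :
    ∑ bc : V p, osc f (P p bc) ≤ 8 * ∑ bc : V p, osc f (L p bc) := by
  have key : ∀ t : ℝ, (∑ bc : V p, (if IsCut f (P p bc) t then (1 : ENNReal) else 0)) ≤
      8 * ∑ bc : V p, (if IsCut f (L p bc) t then (1 : ENNReal) else 0) := by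
    intro t
    have h := cut_compare p hp4 (Finset.univ.filter (fun v => f v ≤ t))
    have e1 : (∑ bc : V p, (if IsCut f (P p bc) t then (1 : ENNReal) else 0)) =
        ((cutP p (Finset.univ.filter (fun v => f v ≤ t))).card : ENNReal) := by
      rw [Finset.sum_boole]
      congr 2
      ext bc
      simp [cutP, IsCut]
    have e2 : (∑ bc : V p, (if IsCut f (L p bc) t then (1 : ENNReal) else 0)) =
        ((cutL p (Finset.univ.filter (fun v => f v ≤ t))).card : ENNReal) := by
      rw [Finset.sum_boole]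
      congr 2
      ext bc
      simp [cutL, IsCut]
    rw [e1, e2]
    exact_mod_cast h
  have h1 : ((∑ bc : V p, osc f (P p bc) : NNReal) : ENNReal) =
      ∫⁻ t : ℝ, ∑ bc : V p, (if IsCut f (P p bc) t then (1 : ENNReal) else 0) := by
    rw [lintegral_finsetSum _ (fun bc _ => cut_measurable f (P p bc) (P_nonempty p bc))]
    push_cast
    exact Finset.sum_congr rfl (fun bc _ => osc_lintegral f (P p bc) (P_nonempty p bc))
  have h2 : ((∑ bc : V p, osc f (L p bc) : NNReal) : ENNReal) =
      ∫⁻ t : ℝ, ∑ bc : V p, (if IsCut f (L p bc) t then (1 : ENNReal) else 0) := by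
    rw [lintegral_finsetSum _ (fun bc _ => cut_measurable f (L p bc) (L_nonempty p bc))]
    push_cast
    exact Finset.sum_congr rfl (fun bc _ => osc_lintegral f (L p bc) (L_nonempty p bc))
  have h3 : ((∑ bc : V p, osc f (P p bc) : NNReal) : ENNReal) ≤
      ((8 * ∑ bc : V p, osc f (L p bc) : NNReal) : ENNReal) := by
    rw [ENNReal.coe_mul, h1, h2]
    have : ((8 : NNReal) : ENNReal) = 8 := by norm_num
    rw [this, ← lintegral_const_mul]
    · exact lintegral_mono key
    · exact Finset.measurable_sum _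
        (fun bc _ => cut_measurable f (L p bc) (L_nonempty p bc))
  exact_mod_cast h3

/-- largest intersection with a parabola -/
def g (A : Finset (V p)) : ℕ := Finset.univ.sup (fun bc : V p => (A ∩ P p bc).card)

/-- the diversity -/
noncomputable def dlt (A : Finset (V p)) : ℝ := if A.card ≤ 1 then 0 else (g p A : ℝ)

lemma g_mono {A B : Finset (V p)} (h : A ⊆ B) : g p A ≤ g p B := by
  unfold g
  apply Finset.sup_mono_fun
  intro bc _
  exact Finset.card_le_card (Finset.inter_subset_inter_right h)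

lemma g_union (A B : Finset (V p)) : g p (A ∪ B) ≤ g p A + g p B := by
  unfold g
  apply Finset.sup_le
  intro bc _
  rw [Finset.union_inter_distrib_right]
  refine (Finset.card_union_le _ _).trans ?_
  exact Nat.add_le_add
    (Finset.le_sup (f := fun bc : V p => (A ∩ P p bc).card) (Finset.mem_univ bc))
    (Finset.le_sup (f := fun bc : V p => (B ∩ P p bc).card) (Finset.mem_univ bc))

lemma g_pos {A : Finset (V p)} (h : A.Nonempty) : 0 < g p A := by
  obtain ⟨v, hv⟩ := h
  have hmem : v ∈ P p (0, v.2 - v.1 ^ 2) := by rw [mem_P]; simp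
  have h1 : 0 < (A ∩ P p (0, v.2 - v.1 ^ 2)).card :=
    Finset.card_pos.2 ⟨v, Finset.mem_inter.2 ⟨hv, hmem⟩⟩
  exact lt_of_lt_of_le h1
    (Finset.le_sup (f := fun bc : V p => (A ∩ P p bc).card) (Finset.mem_univ (0, v.2 - v.1 ^ 2)))

lemma dlt_nonneg (A : Finset (V p)) : 0 ≤ dlt p A := by
  unfold dlt; split_ifs <;> positivity

lemma dlt_zero (A : Finset (V p)) : dlt p A = 0 ↔ A.card ≤ 1 := by
  unfold dlt
  split_ifs with h
  · simp [h]
  · have hne : A.Nonempty := Finset.card_pos.1 (by omega)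
    have := g_pos p hne
    simp only [h, iff_false]
    positivity

lemma dlt_tri (A B D : Finset (V p)) (hD : D.Nonempty) :
    dlt p (A ∪ B) ≤ dlt p (A ∪ D) + dlt p (B ∪ D) := by
  have hn1 := dlt_nonneg p (A ∪ D)
  have hn2 := dlt_nonneg p (B ∪ D)
  by_cases h : (A ∪ B).card ≤ 1
  · have : dlt p (A ∪ B) = 0 := (dlt_zero p _).2 h
    linarith
  by_cases h1 : (A ∪ D).card ≤ 1
  · have hAD : A ⊆ D := by
      obtain ⟨d, hd⟩ := hD
      intro a ha
      have : a = d := Finset.card_le_one.1 h1 a (by simp [ha]) d (by simp [hd])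
      rw [this]; exact hd
    have hsub : A ∪ B ⊆ B ∪ D := by
      intro x hx
      rcases Finset.mem_union.1 hx with hx | hx
      · exact Finset.mem_union_right _ (hAD hx)
      · exact Finset.mem_union_left _ hx
    have hle := g_mono p hsub
    have hc : ¬ (B ∪ D).card ≤ 1 := fun hc => h ((Finset.card_le_card hsub).trans hc)
    have : dlt p (A ∪ B) ≤ dlt p (B ∪ D) := by
      unfold dlt; rw [if_neg h, if_neg hc]; exact_mod_cast hle
    linarith
  by_cases h2 : (B ∪ D).card ≤ 1
  · have hBD : B ⊆ D := by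
      obtain ⟨d, hd⟩ := hD
      intro a ha
      have : a = d := Finset.card_le_one.1 h2 a (by simp [ha]) d (by simp [hd])
      rw [this]; exact hd
    have hsub : A ∪ B ⊆ A ∪ D := by
      intro x hx
      rcases Finset.mem_union.1 hx with hx | hx
      · exact Finset.mem_union_left _ hx
      · exact Finset.mem_union_right _ (hBD hx)
    have hle := g_mono p hsub
    have : dlt p (A ∪ B) ≤ dlt p (A ∪ D) := by
      unfold dlt; rw [if_neg h, if_neg h1]; exact_mod_cast hle
    linarith
  · have hsub : A ∪ B ⊆ (A ∪ D) ∪ (B ∪ D) := by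
      intro x hx
      simp only [Finset.mem_union] at hx ⊢
      tauto
    have hle := (g_mono p hsub).trans (g_union p _ _)
    unfold dlt
    rw [if_neg h, if_neg h1, if_neg h2]
    exact_mod_cast hle

lemma dlt_P (hp4 : 4 ≤ p) (bc : V p) : dlt p (P p bc) = p := by
  unfold dlt
  rw [if_neg (by rw [card_P]; omega)]
  have : g p (P p bc) = p := by
    apply le_antisymm
    · unfold g
      apply Finset.sup_le
      intro bc' _
      exact (Finset.card_le_card Finset.inter_subset_left).trans (card_P p bc).le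
    · have := Finset.le_sup (f := fun bc' : V p => (P p bc ∩ P p bc').card) (Finset.mem_univ bc)
      simp only [Finset.inter_self, card_P] at this
      exact this
  rw [this]

lemma dlt_L (bc : V p) : dlt p (L p bc) ≤ 2 := by
  unfold dlt
  split_ifs
  · norm_num
  · have : g p (L p bc) ≤ 2 := by
      unfold g
      apply Finset.sup_le
      intro bc' _
      exact L_inter_P p bc bc'
    exact_mod_cast this

end plane

lemma exists_big_prime (C : ℝ) (hC : 0 < C) :
    ∃ q : ℕ, q.Prime ∧ 4 ≤ q ∧ 16 * (C * Real.log ((q ^ 2 : ℕ) : ℝ)) < q := by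
  have h1 := (Real.isLittleO_log_id_atTop).def (c := 1 / (64 * C)) (by positivity)
  rw [Filter.eventually_atTop] at h1
  obtain ⟨N, hN⟩ := h1
  obtain ⟨q, hq1, hq2⟩ := Nat.exists_infinite_primes (max 4 (Nat.ceil N))
  refine ⟨q, hq2, (le_max_left _ _).trans hq1, ?_⟩
  have hqN : N ≤ (q : ℝ) := (Nat.le_ceil N).trans (by exact_mod_cast (le_max_right _ _).trans hq1)
  have hq4 : (4 : ℝ) ≤ q := by exact_mod_cast (le_max_left _ _).trans hq1
  have h2 := hN q hqN
  have hlog : 0 ≤ Real.log (q : ℝ) := Real.log_nonneg (by linarith)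
  rw [Real.norm_of_nonneg hlog, id, Real.norm_of_nonneg (by linarith)] at h2
  push_cast
  rw [Real.log_pow]
  have h3 : 64 * C * Real.log (q : ℝ) ≤ q := by
    have := mul_le_mul_of_nonneg_left h2 (by positivity : (0:ℝ) ≤ 64 * C)
    have h4 : 64 * C * (1 / (64 * C) * (q : ℝ)) = q := by field_simp
    linarith
  push_cast
  nlinarith

/-- The negation of the preceding statement: There is a constant C such that every diversity on n ≥ 2 points maps into an ℓ1 diversity on ℝ^d, for some d, with distortion c1·c2 at most C·log n. -/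
theorem result :
    ¬ (∃ C : ℝ, 0 < C ∧ ∀ n : ℕ, 2 ≤ n → ∀ δ : Finset (Fin n) → ℝ,
      (∀ A, 0 ≤ δ A) →
      (∀ A, δ A = 0 ↔ A.card ≤ 1) →
      (∀ A B D : Finset (Fin n), D.Nonempty → δ (A ∪ B) ≤ δ (A ∪ D) + δ (B ∪ D)) →
      ∃ d : ℕ, ∃ φ : Fin n → (Fin d → ℝ), ∃ c₁ c₂ : ℝ,
        0 < c₁ ∧ 0 < c₂ ∧ c₁ * c₂ ≤ C * Real.log (n : ℝ) ∧
        ∀ A : Finset (Fin n),
          δ A / c₁ ≤ ((∑ i : Fin d, (A ×ˢ A).sup
              (fun p : Fin n × Fin n => Real.nnabs (φ p.1 i - φ p.2 i)) : NNReal) : ℝ) ∧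
          ((∑ i : Fin d, (A ×ˢ A).sup
              (fun p : Fin n × Fin n => Real.nnabs (φ p.1 i - φ p.2 i)) : NNReal) : ℝ) ≤ c₂ * δ A) := by
  rintro ⟨C, hC, H⟩
  obtain ⟨q, hq, hq4, hbig⟩ := exists_big_prime C hC
  haveI : Fact q.Prime := ⟨hq⟩
  have hcard : Fintype.card (V q) = q ^ 2 := by
    rw [Fintype.card_prod, ZMod.card]; ring
  let e : V q ≃ Fin (q ^ 2) := Fintype.equivFinOfCardEq hcard
  have hn2 : 2 ≤ q ^ 2 := by nlinarith
  obtain ⟨d, φ, c₁, c₂, hc₁, hc₂, hcc, hφ⟩ := H (q ^ 2) hn2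
    (fun A => dlt q (A.map e.symm.toEmbedding))
    (fun A => dlt_nonneg q _)
    (fun A => by rw [dlt_zero, Finset.card_map])
    (fun A B D hD => by
      simp only [Finset.map_union]
      exact dlt_tri q _ _ _ (hD.map))
  -- pull back
  have hmain : ∀ A : Finset (V q),
      dlt q A / c₁ ≤ ((∑ i : Fin d, osc (fun v => φ (e v) i) A : NNReal) : ℝ) ∧
      ((∑ i : Fin d, osc (fun v => φ (e v) i) A : NNReal) : ℝ) ≤ c₂ * dlt q A := by
    intro A
    have h := hφ (A.map e.toEmbedding)
    have hAA : (A.map e.toEmbedding).map e.symm.toEmbedding = A := by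
      ext x
      simp only [Finset.mem_map_equiv, Equiv.symm_symm, Equiv.symm_apply_apply]
    simp only [hAA] at h
    have hosc : ∀ i : Fin d, ((A.map e.toEmbedding) ×ˢ (A.map e.toEmbedding)).sup
        (fun p : Fin (q ^ 2) × Fin (q ^ 2) => Real.nnabs (φ p.1 i - φ p.2 i)) =
        osc (fun v => φ (e v) i) A := by
      intro i
      exact osc_map e.toEmbedding (fun x => φ x i) A
    simp only [hosc] at h
    exact h
  have hq0 : (0 : ℝ) < q := by exact_mod_cast hq.pos
  -- sum over parabolas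
  have hP : (q : ℝ) ^ 2 * (q / c₁) ≤
      ((∑ bc : V q, ∑ i : Fin d, osc (fun v => φ (e v) i) (P q bc) : NNReal) : ℝ) := by
    have h1 : ∀ bc : V q, (q : ℝ) / c₁ ≤
        ((∑ i : Fin d, osc (fun v => φ (e v) i) (P q bc) : NNReal) : ℝ) := by
      intro bc
      have := (hmain (P q bc)).1
      rw [dlt_P q hq4] at this
      exact this
    have h2 := Finset.sum_le_sum (fun bc (_ : bc ∈ (Finset.univ : Finset (V q))) => h1 bc)
    rw [Finset.sum_const, Finset.card_univ, hcard, nsmul_eq_mul] at h2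
    rw [NNReal.coe_sum]
    push_cast at h2 ⊢
    exact h2
  have hL : ((∑ bc : V q, ∑ i : Fin d, osc (fun v => φ (e v) i) (L q bc) : NNReal) : ℝ) ≤
      (q : ℝ) ^ 2 * (c₂ * 2) := by
    have h1 : ∀ bc : V q,
        ((∑ i : Fin d, osc (fun v => φ (e v) i) (L q bc) : NNReal) : ℝ) ≤ c₂ * 2 := by
      intro bc
      exact (hmain (L q bc)).2.trans (mul_le_mul_of_nonneg_left (dlt_L q bc) hc₂.le)
    have h2 := Finset.sum_le_sum (fun bc (_ : bc ∈ (Finset.univ : Finset (V q))) => h1 bc)
    rw [Finset.sum_const, Finset.card_univ, hcard, nsmul_eq_mul] at h2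
    rw [NNReal.coe_sum]
    push_cast at h2 ⊢
    exact h2
  have hPL : (∑ bc : V q, ∑ i : Fin d, osc (fun v => φ (e v) i) (P q bc)) ≤
      8 * ∑ bc : V q, ∑ i : Fin d, osc (fun v => φ (e v) i) (L q bc) := by
    rw [Finset.sum_comm, Finset.sum_comm (s := Finset.univ) (t := Finset.univ)
      (f := fun bc i => osc (fun v => φ (e v) i) (L q bc)), Finset.mul_sum]
    exact Finset.sum_le_sum (fun i _ => osc_compare q hq4 (fun v => φ (e v) i))
  have hPL' : ((∑ bc : V q, ∑ i : Fin d, osc (fun v => φ (e v) i) (P q bc) : NNReal) : ℝ) ≤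
      8 * ((∑ bc : V q, ∑ i : Fin d, osc (fun v => φ (e v) i) (L q bc) : NNReal) : ℝ) := by
    exact_mod_cast hPL
  have hfin : (q : ℝ) ^ 2 * (q / c₁) ≤ (q : ℝ) ^ 2 * (16 * c₂) := by nlinarith
  have hfin2 : (q : ℝ) / c₁ ≤ 16 * c₂ := le_of_mul_le_mul_left hfin (by positivity)
  rw [div_le_iff₀ hc₁] at hfin2
  nlinarith

end Pool.Agent.S08656
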