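import Pool.Statements.S08698

set_option autoImplicit false
open Function
open Pool Pool.MP_0eaf94_gt

namespace Pool.Agent.S08698

open Set Filter Topology

/-- the total space: a square, a sticker over `[0,1/3]` and a whisker over `1` -/
def XS : Set (ℝ × ℝ × ℝ) :=
  {p | (0 ≤ p.2.2 ∧ p.2.2 ≤ 1) ∧
    ((p.2.1 = 0 ∧ 0 ≤ p.1 ∧ p.1 ≤ 1) ∨
     (p.1 = 0 ∧ p.2.1 = 1 / 3 - p.2.2 ∧ 0 ≤ p.2.1) ∨
     (p.1 = 0 ∧ p.2.2 = 1 ∧ 0 ≤ p.2.1 ∧ p.2.1 ≤ 1))}

lemma XS_closed : IsClosed XS := by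
  have c1 : IsClosed {p : ℝ × ℝ × ℝ | 0 ≤ p.2.2} := isClosed_le continuous_const (by fun_prop)
  have c2 : IsClosed {p : ℝ × ℝ × ℝ | p.2.2 ≤ 1} := isClosed_le (by fun_prop) continuous_const
  have c3 : IsClosed {p : ℝ × ℝ × ℝ | p.2.1 = 0} := isClosed_eq (by fun_prop) continuous_const
  have c4 : IsClosed {p : ℝ × ℝ × ℝ | 0 ≤ p.1} := isClosed_le continuous_const (by fun_prop)
  have c5 : IsClosed {p : ℝ × ℝ × ℝ | p.1 ≤ 1} := isClosed_le (by fun_prop) continuous_const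
  have c6 : IsClosed {p : ℝ × ℝ × ℝ | p.1 = 0} := isClosed_eq (by fun_prop) continuous_const
  have c7 : IsClosed {p : ℝ × ℝ × ℝ | p.2.1 = 1 / 3 - p.2.2} :=
    isClosed_eq (by fun_prop) (by fun_prop)
  have c8 : IsClosed {p : ℝ × ℝ × ℝ | 0 ≤ p.2.1} := isClosed_le continuous_const (by fun_prop)
  have c9 : IsClosed {p : ℝ × ℝ × ℝ | p.2.2 = 1} := isClosed_eq (by fun_prop) continuous_const
  have c10 : IsClosed {p : ℝ × ℝ × ℝ | p.2.1 ≤ 1} := isClosed_le (by fun_prop) continuous_const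
  exact (c1.inter c2).inter ((c3.inter (c4.inter c5)).union
    ((c6.inter (c7.inter c8)).union (c6.inter (c9.inter (c8.inter c10)))))

lemma XS_compact : IsCompact XS := by
  apply IsCompact.of_isClosed_subset
    (isCompact_Icc (a := ((0, 0, 0) : ℝ × ℝ × ℝ)) (b := (1, 1, 1))) XS_closed
  rintro ⟨x, z, y⟩ ⟨⟨h1, h2⟩, h3⟩
  simp only at h1 h2 h3
  rcases h3 with ⟨h3, h4, h5⟩ | ⟨h3, h4, h5⟩ | ⟨h3, h4, h5, h6⟩ <;>
  · refine ⟨⟨?_, ?_, ?_⟩, ⟨?_, ?_, ?_⟩⟩ <;> simp only <;> linarith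

instance : CompactSpace XS := isCompact_iff_compactSpace.1 XS_compact

/-- the map -/
def f (p : XS) : Set.Icc (0 : ℝ) 1 := ⟨p.1.2.2, p.2.1⟩

lemma f_cont : Continuous f := by
  unfold f
  fun_prop

def cl (t : ℝ) : ℝ := max 0 (min 1 t)

lemma cl_mem (t : ℝ) : 0 ≤ cl t ∧ cl t ≤ 1 :=
  ⟨le_max_left _ _, max_le zero_le_one (min_le_left _ _)⟩

lemma cl_eq {t : ℝ} (h0 : 0 ≤ t) (h1 : t ≤ 1) : cl t = t := by
  unfold cl; rw [min_eq_right h1, max_eq_right h0]

lemma cl_cont : Continuous cl := by unfold cl; fun_prop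

/-- the square -/
def sq (x y : ℝ) : XS := ⟨(cl x, 0, cl y), ⟨cl_mem y, Or.inl ⟨rfl, cl_mem x⟩⟩⟩

lemma sq_cont : Continuous (fun p : ℝ × ℝ => sq p.1 p.2) := by
  unfold sq
  have := cl_cont
  fun_prop

/-- the sticker -/
noncomputable def stk (y : ℝ) : XS := ⟨(0, max 0 (1 / 3 - cl y), cl y), by
  have h := cl_mem y
  refine ⟨h, ?_⟩
  rcases le_total (1 / 3) (cl y) with h1 | h1
  · exact Or.inl ⟨max_eq_left (by linarith), le_rfl, zero_le_one⟩
  · exact Or.inr (Or.inl ⟨rfl, max_eq_right (by linarith), le_max_left _ _⟩)⟩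

lemma stk_cont : Continuous stk := by
  unfold stk
  have := cl_cont
  fun_prop

/-- the whisker -/
def whi (z : ℝ) : XS := ⟨(0, cl z, 1), ⟨⟨zero_le_one, le_rfl⟩, Or.inr (Or.inr ⟨rfl, rfl, cl_mem z⟩)⟩⟩

lemma whi_cont : Continuous whi := by
  unfold whi
  have := cl_cont
  fun_prop

lemma fibre {p : XS} (h1 : 1 / 3 ≤ p.1.2.2) (h2 : p.1.2.2 < 1) :
    0 ≤ p.1.1 ∧ p.1.1 ≤ 1 ∧ p = sq p.1.1 p.1.2.2 := by
  obtain ⟨⟨x, z, y⟩, ⟨h3, h4⟩, h5⟩ := p
  simp only at h1 h2 h3 h4 h5 ⊢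
  rcases h5 with ⟨h5, h6, h7⟩ | ⟨h5, h6, h7⟩ | ⟨h5, h6, h7, h8⟩
  · refine ⟨h6, h7, ?_⟩
    subst h5
    apply Subtype.ext
    simp [sq, cl_eq h6 h7, cl_eq h3 h4]
  · have hz : z = 0 := by linarith
    subst hz
    subst h5
    refine ⟨le_rfl, zero_le_one, ?_⟩
    apply Subtype.ext
    simp [sq, cl_eq le_rfl zero_le_one, cl_eq h3 h4]
  · linarith

section main

variable {Z : Type} [MetricSpace Z] {h : XS → Z} {g : Z → Set.Icc (0 : ℝ) 1}

/-- step 2 -/
lemma step2 (hc : Continuous h) (ho : IsOpenMap h)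
    (hg : ∀ y, IsConnected (g ⁻¹' {y})) (hgf : ∀ x, g (h x) = f x)
    (y e : ℝ) (hy : 1 / 3 ≤ y) (hy1 : y < 1) (he : 0 < e) (he1 : e ≤ 1)
    (hE : h (sq e y) = h (sq 0 y)) (x : ℝ) : ∃ x', 0 ≤ x' ∧ x' ≤ e ∧ h (sq x' y) = h (sq x y) := by
  have hy0 : 0 ≤ y := by linarith
  have hcl : cl y = y := cl_eq hy0 hy1.le
  set Y0 : Set.Icc (0 : ℝ) 1 := ⟨y, hy0, hy1.le⟩ with hY0
  have hfsq : ∀ t, f (sq t y) = Y0 := by
    intro t
    apply Subtype.ext
    simp [f, sq, hcl, hY0]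
  set U : Set XS := {p | p.1.1 < e} with hU
  have hUo : IsOpen U := isOpen_lt (by fun_prop) continuous_const
  have hK : IsCompact ((fun t => h (sq t y)) '' Icc 0 e) := by
    apply isCompact_Icc.image
    have : Continuous (fun t : ℝ => sq t y) := sq_cont.comp (by fun_prop : Continuous fun t : ℝ => (t, y))
    exact hc.comp this
  have hmem : ∀ z, z ∈ h '' U → g z = Y0 → ∃ x', 0 ≤ x' ∧ x' < e ∧ h (sq x' y) = z := by
    rintro z ⟨p, hp, rfl⟩ hz
    rw [hgf] at hz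
    have hpy : p.1.2.2 = y := congrArg Subtype.val hz
    obtain ⟨h1, h2, h3⟩ := fibre (p := p) (by rw [hpy]; exact hy) (by rw [hpy]; exact hy1)
    refine ⟨p.1.1, h1, hp, ?_⟩
    rw [hpy] at h3
    rw [← h3]
  have hsub : g ⁻¹' {Y0} ⊆ h '' U := by
    have hpre := isPreconnected_iff_subset_of_disjoint.1 (hg Y0).isPreconnected
      (h '' U) (((fun t => h (sq t y)) '' Icc 0 e)ᶜ) (ho _ hUo) hK.isClosed.isOpen_compl ?_ ?_
    · rcases hpre with hp | hp
      · exact hp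
      · exfalso
        apply hp (show h (sq 0 y) ∈ g ⁻¹' {Y0} by rw [mem_preimage, hgf, hfsq]; rfl)
        exact ⟨0, ⟨le_rfl, he.le⟩, rfl⟩
    · intro z hz
      by_cases hzK : z ∈ (fun t => h (sq t y)) '' Icc 0 e
      · left
        obtain ⟨t, ⟨ht0, ht1⟩, rfl⟩ := hzK
        rcases ht1.lt_or_eq with ht | ht
        · refine ⟨sq t y, ?_, rfl⟩
          show cl t < e
          rw [cl_eq ht0 (by linarith)]; exact ht
        · refine ⟨sq 0 y, ?_, ?_⟩
          · show cl 0 < e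
            rw [cl_eq le_rfl zero_le_one]; exact he
          · rw [ht]; exact hE.symm
      · right; exact hzK
    · rw [Set.eq_empty_iff_forall_notMem]
      rintro z ⟨hz, hz1, hz2⟩
      obtain ⟨x', h0, h1, h2⟩ := hmem z hz1 hz
      exact hz2 ⟨x', ⟨h0, h1.le⟩, h2⟩
  have hx : h (sq x y) ∈ g ⁻¹' {Y0} := by rw [mem_preimage, hgf, hfsq]; rfl
  obtain ⟨x', h0, h1, h2⟩ := hmem _ (hsub hx) (by rw [hgf, hfsq])
  exact ⟨x', h0, h1.le, h2⟩

/-- collapse over `y < 1/3` -/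
lemma step1 (ho : IsOpenMap h)
    (hg : ∀ y, IsConnected (g ⁻¹' {y})) (hgf : ∀ x, g (h x) = f x)
    (y : ℝ) (hy0 : 0 ≤ y) (hy : y < 1 / 3) (x : ℝ) : h (sq x y) = h (stk y) := by
  have hcl : cl y = y := cl_eq hy0 (by linarith)
  set Y0 : Set.Icc (0 : ℝ) 1 := ⟨y, hy0, by linarith⟩ with hY0
  have hfsq : ∀ t, f (sq t y) = Y0 := by
    intro t
    apply Subtype.ext
    simp [f, sq, hcl, hY0]
  have hfst : f (stk y) = Y0 := by
    apply Subtype.ext
    show cl y = y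
    exact hcl
  set U : Set XS := {p | 0 < p.1.2.1 ∧ p.1.2.2 < 1 / 3} with hU
  have hUo : IsOpen U := by
    have c1 : IsOpen {p : XS | 0 < p.1.2.1} := isOpen_lt continuous_const (by fun_prop)
    have c2 : IsOpen {p : XS | p.1.2.2 < 1 / 3} := isOpen_lt (by fun_prop) continuous_const
    exact c1.inter c2
  have hmem : ∀ z, z ∈ h '' U → g z = Y0 → z = h (stk y) := by
    rintro z ⟨p, ⟨hp1, hp2⟩, rfl⟩ hz
    rw [hgf] at hz
    have hpy : p.1.2.2 = y := congrArg Subtype.val hz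
    congr 1
    obtain ⟨⟨a, b, c⟩, ⟨h3, h4⟩, h5⟩ := p
    simp only at hp1 hp2 h3 h4 h5 hpy
    subst hpy
    rcases h5 with ⟨h5, h6, h7⟩ | ⟨h5, h6, h7⟩ | ⟨h5, h6, h7, h8⟩
    · linarith
    · apply Subtype.ext
      simp only [stk, hcl, Prod.mk.injEq]
      refine ⟨h5, ?_, trivial⟩
      rw [h6, max_eq_right (by linarith)]
    · linarith
  have hsub : g ⁻¹' {Y0} ⊆ h '' U := by
    have hpre := isPreconnected_iff_subset_of_disjoint.1 (hg Y0).isPreconnected
      (h '' U) ({h (stk y)}ᶜ) (ho _ hUo) isOpen_compl_singleton ?_ ?_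
    · rcases hpre with hp | hp
      · exact hp
      · exfalso
        exact hp (show h (stk y) ∈ g ⁻¹' {Y0} by rw [mem_preimage, hgf, hfst]; rfl) rfl
    · intro z hz
      by_cases hzK : z = h (stk y)
      · left
        rw [hzK]
        refine ⟨stk y, ⟨?_, ?_⟩, rfl⟩
        · show 0 < max 0 (1 / 3 - cl y)
          rw [hcl]; exact lt_max_of_lt_right (by linarith)
        · show cl y < 1 / 3
          rw [hcl]; exact hy
      · right; exact hzK
    · rw [Set.eq_empty_iff_forall_notMem]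
      rintro z ⟨hz, hz1, hz2⟩
      exact hz2 (hmem z hz1 hz)
  have hx : h (sq x y) ∈ g ⁻¹' {Y0} := by rw [mem_preimage, hgf, hfsq]; rfl
  exact hmem _ (hsub hx) (by rw [hgf, hfsq])

/-- W1 -/
lemma W1 (hc : Continuous h) (ho : IsOpenMap h) (hgf : ∀ x, g (h x) = f x)
    (x z : ℝ) (hz : 0 < z) (hE : h (sq x 1) = h (whi z)) : False := by
  set O : Set XS := {p | 0 < p.1.2.1 ∧ 1 / 2 < p.1.2.2} with hO
  have hOo : IsOpen O := by
    have c1 : IsOpen {p : XS | 0 < p.1.2.1} := isOpen_lt continuous_const (by fun_prop)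
    have c2 : IsOpen {p : XS | 1 / 2 < p.1.2.2} := isOpen_lt continuous_const (by fun_prop)
    exact c1.inter c2
  have hOf : ∀ p ∈ O, f p = ⟨1, zero_le_one, le_rfl⟩ := by
    rintro ⟨⟨a, b, c⟩, ⟨h3, h4⟩, h5⟩ ⟨hp1, hp2⟩
    simp only at hp1 hp2 h3 h4 h5
    apply Subtype.ext
    show c = 1
    rcases h5 with ⟨h5, h6, h7⟩ | ⟨h5, h6, h7⟩ | ⟨h5, h6, h7, h8⟩
    · linarith
    · linarith
    · exact h6
  have hwO : whi z ∈ O := by
    refine ⟨?_, ?_⟩
    · show 0 < cl z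
      unfold cl
      exact lt_max_of_lt_right (lt_min one_pos hz)
    · show (1 : ℝ) / 2 < 1
      norm_num
  have hcy : Continuous (fun y : ℝ => h (sq x y)) :=
    hc.comp (sq_cont.comp (by fun_prop : Continuous fun y : ℝ => (x, y)))
  have hev : ∀ᶠ y in 𝓝 (1 : ℝ), h (sq x y) ∈ h '' O := by
    apply hcy.continuousAt.eventually_mem
    apply (ho _ hOo).mem_nhds
    show h (sq x 1) ∈ h '' O
    rw [hE]
    exact ⟨_, hwO, rfl⟩
  have hev' : ∀ᶠ y in 𝓝[<] (1 : ℝ), h (sq x y) ∈ h '' O := hev.filter_mono nhdsWithin_le_nhds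
  have hev2 : ∀ᶠ y in 𝓝[<] (1 : ℝ), y ∈ Ioo (0 : ℝ) 1 := Ioo_mem_nhdsLT one_pos
  obtain ⟨y, ⟨q, hq, hqy⟩, hy0, hy1⟩ := (hev'.and hev2).exists
  have h1 : f q = f (sq x y) := by rw [← hgf, ← hgf, hqy]
  rw [hOf q hq] at h1
  have h2 := congrArg Subtype.val h1
  simp [f, sq, cl_eq hy0.le hy1.le] at h2
  linarith

/-- W2 -/
lemma W2 (hc : Continuous h) (ho : IsOpenMap h) (hgf : ∀ x, g (h x) = f x)
    (e : ℝ) (he : 0 < e) (he1 : e ≤ 1) (hE : h (sq e 1) = h (sq 0 1)) : False := by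
  set W : Set XS := {p | e / 2 < p.1.1} with hW
  have hWo : IsOpen W := isOpen_lt continuous_const (by fun_prop)
  have hcz : Continuous (fun z : ℝ => h (whi z)) := hc.comp whi_cont
  have h0 : whi 0 = sq 0 1 := by
    apply Subtype.ext
    simp [whi, sq, cl_eq le_rfl zero_le_one, cl_eq zero_le_one le_rfl]
  have hev : ∀ᶠ z in 𝓝 (0 : ℝ), h (whi z) ∈ h '' W := by
    apply hcz.continuousAt.eventually_mem
    apply (ho _ hWo).mem_nhds
    show h (whi 0) ∈ h '' W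
    rw [h0, ← hE]
    refine ⟨sq e 1, ?_, rfl⟩
    show e / 2 < cl e
    rw [cl_eq he.le he1]; linarith
  have hev' : ∀ᶠ z in 𝓝[>] (0 : ℝ), h (whi z) ∈ h '' W := hev.filter_mono nhdsWithin_le_nhds
  obtain ⟨z, ⟨w, hw, hwz⟩, hz⟩ := (hev'.and self_mem_nhdsWithin).exists
  have hz' : 0 < z := hz
  have h1 : f w = f (whi z) := by rw [← hgf, ← hgf, hwz]
  have h2 : w.1.2.2 = 1 := congrArg Subtype.val h1
  have h3 : w = sq w.1.1 1 := by
    obtain ⟨⟨a, b, c⟩, ⟨h3, h4⟩, h5⟩ := w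
    have hw' : e / 2 < a := hw
    simp only at h2 h3 h4 h5 ⊢
    apply Subtype.ext
    rcases h5 with ⟨h5, h6, h7⟩ | ⟨h5, h6, h7⟩ | ⟨h5, h6, h7, h8⟩
    · simp [sq, cl_eq h6 h7, cl_eq zero_le_one le_rfl, h5, h2]
    · linarith
    · linarith
  rw [h3] at hwz
  exact W1 hc ho hgf _ z hz' hwz

/-- the total map is not an MO map -/
theorem not_MO (hc : Continuous h) (ho : IsOpenMap h)
    (hg : ∀ y, IsConnected (g ⁻¹' {y})) (hgf : ∀ x, g (h x) = f x) : False := by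
  have hcc : Continuous (fun p : ℝ × ℝ => h (sq p.1 p.2)) := hc.comp sq_cont
  set s : Set ℝ := {y | ∃ e, 0 < e ∧ e ≤ 1 ∧ h (sq e y) = h (sq 0 y)} with hs
  have h1s : (1 : ℝ) ∉ s := by
    rintro ⟨e, he, he1, hE⟩
    exact W2 hc ho hgf e he he1 hE
  have hthird : ∀ x, h (sq x (1 / 3)) = h (stk (1 / 3)) := by
    intro x
    have hc1 : Continuous (fun y : ℝ => h (sq x y)) :=
      hcc.comp (by fun_prop : Continuous fun y : ℝ => (x, y))
    have hc2 : Continuous (fun y : ℝ => h (stk y)) := hc.comp stk_cont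
    have hne : (𝓝[<] (1 / 3 : ℝ)).NeBot := inferInstance
    have t1 : Tendsto (fun y : ℝ => h (sq x y)) (𝓝[<] (1 / 3)) (𝓝 (h (sq x (1 / 3)))) :=
      (hc1.tendsto _).mono_left nhdsWithin_le_nhds
    have t2 : Tendsto (fun y : ℝ => h (stk y)) (𝓝[<] (1 / 3)) (𝓝 (h (stk (1 / 3)))) :=
      (hc2.tendsto _).mono_left nhdsWithin_le_nhds
    have hev : ∀ᶠ y in 𝓝[<] (1 / 3 : ℝ), h (sq x y) = h (stk y) := by
      have : ∀ᶠ y in 𝓝[<] (1 / 3 : ℝ), y ∈ Ioo (0 : ℝ) (1 / 3) := Ioo_mem_nhdsLT (by norm_num)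
      filter_upwards [this] with y hy
      exact step1 ho hg hgf y hy.1.le hy.2 x
    exact tendsto_nhds_unique t1 (t2.congr' (hev.mono fun y hy => hy.symm))
  have h3s : (1 / 3 : ℝ) ∈ s := ⟨1, one_pos, le_rfl, by rw [hthird, hthird]⟩
  have hcl : IsClosed (s ∩ Icc (1 / 3) 1) := by
    apply IsSeqClosed.isClosed
    intro y y0 hy hlim
    have hy0 : y0 ∈ Icc (1 / 3 : ℝ) 1 :=
      isClosed_Icc.mem_of_tendsto hlim (Eventually.of_forall fun n => (hy n).2)
    refine ⟨?_, hy0⟩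
    choose e he0 he1 heE using fun n => (hy n).1
    obtain ⟨e0, he0', φ, hφ, hφt⟩ := isCompact_Icc.tendsto_subseq
      (fun n => (⟨(he0 n).le, he1 n⟩ : e n ∈ Icc (0 : ℝ) 1))
    have hyφ : Tendsto (fun n => y (φ n)) atTop (𝓝 y0) := hlim.comp hφ.tendsto_atTop
    rcases he0'.1.lt_or_eq with hpos | hzero
    · refine ⟨e0, hpos, he0'.2, ?_⟩
      have t1 : Tendsto (fun n => h (sq (e (φ n)) (y (φ n)))) atTop (𝓝 (h (sq e0 y0))) :=
        (hcc.tendsto (e0, y0)).comp (hφt.prodMk_nhds hyφ)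
      have t2 : Tendsto (fun n => h (sq 0 (y (φ n)))) atTop (𝓝 (h (sq 0 y0))) :=
        (hcc.tendsto (0, y0)).comp (tendsto_const_nhds.prodMk_nhds hyφ)
      exact tendsto_nhds_unique t1 (t2.congr fun n => (heE (φ n)).symm)
    · -- collapse in the limit
      have hy1 : ∀ n, y n < 1 := fun n =>
        lt_of_le_of_ne (hy n).2.2 (fun hh => h1s (hh ▸ (hy n).1))
      choose x' hx0 hx1 hxE using fun n =>
        step2 hc ho hg hgf (y n) (e n) (hy n).2.1 (hy1 n) (he0 n) (he1 n) (heE n) 1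
      refine ⟨1, one_pos, le_rfl, ?_⟩
      have hx't : Tendsto (fun n => x' (φ n)) atTop (𝓝 0) := by
        apply squeeze_zero (fun n => hx0 (φ n)) (fun n => hx1 (φ n))
        rw [hzero]; exact hφt
      have t1 : Tendsto (fun n => h (sq (x' (φ n)) (y (φ n)))) atTop (𝓝 (h (sq 0 y0))) :=
        (hcc.tendsto (0, y0)).comp (hx't.prodMk_nhds hyφ)
      have t2 : Tendsto (fun n => h (sq 1 (y (φ n)))) atTop (𝓝 (h (sq 1 y0))) :=
        (hcc.tendsto (1, y0)).comp (tendsto_const_nhds.prodMk_nhds hyφ)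
      exact tendsto_nhds_unique t2 (t1.congr fun n => hxE (φ n))
  have hopen : ∀ y ∈ s ∩ Ico (1 / 3) 1, s ∈ 𝓝[>] y := by
    rintro y ⟨⟨e, he, he1, hE⟩, hy0, hy1⟩
    set W : Set XS := {p | e / 2 < p.1.1} with hW
    have hWo : IsOpen W := isOpen_lt continuous_const (by fun_prop)
    have hcy : Continuous (fun y : ℝ => h (sq 0 y)) :=
      hcc.comp (by fun_prop : Continuous fun y : ℝ => ((0 : ℝ), y))
    have hev : ∀ᶠ y' in 𝓝 y, h (sq 0 y') ∈ h '' W := by
      apply hcy.continuousAt.eventually_mem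
      apply (ho _ hWo).mem_nhds
      show h (sq 0 y) ∈ h '' W
      rw [← hE]
      refine ⟨sq e y, ?_, rfl⟩
      show e / 2 < cl e
      rw [cl_eq he.le he1]; linarith
    have hev1 : ∀ᶠ y' in 𝓝[>] y, h (sq 0 y') ∈ h '' W := hev.filter_mono nhdsWithin_le_nhds
    have hev2 : ∀ᶠ y' in 𝓝[>] y, y' ∈ Ioo y 1 := Ioo_mem_nhdsGT hy1
    filter_upwards [hev1, hev2] with y' hy' hy''
    obtain ⟨w, hw, hwE⟩ := hy'
    have hf1 : f w = f (sq 0 y') := by rw [← hgf, ← hgf, hwE]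
    have hf2 : w.1.2.2 = y' := by
      have := congrArg Subtype.val hf1
      simpa [f, sq, cl_eq (by linarith [hy''.1] : 0 ≤ y') hy''.2.le] using this
    obtain ⟨k1, k2, k3⟩ := fibre (p := w) (by rw [hf2]; linarith [hy''.1]) (by rw [hf2]; exact hy''.2)
    refine ⟨w.1.1, ?_, k2, ?_⟩
    · have : e / 2 < w.1.1 := hw
      linarith
    · rw [hf2] at k3
      rw [← k3]; exact hwE
  have := hcl.Icc_subset_of_forall_mem_nhdsWithin h3s hopen
  exact h1s (this ⟨by norm_num, le_rfl⟩)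

end main

def G1 : Set (Set.Icc (0 : ℝ) 1) := {y | y.1 < 2 / 3}
def G2 : Set (Set.Icc (0 : ℝ) 1) := {y | 1 / 3 < y.1}

lemma G1_open : IsOpen G1 := isOpen_lt (by fun_prop) continuous_const
lemma G2_open : IsOpen G2 := isOpen_lt continuous_const (by fun_prop)

lemma cl1 {y : Set.Icc (0 : ℝ) 1} (hy : y ∈ closure G1) : y.1 ≤ 2 / 3 := by
  have hcl : IsClosed {y : Set.Icc (0 : ℝ) 1 | y.1 ≤ 2 / 3} :=
    isClosed_le (by fun_prop) continuous_const
  have hsub : G1 ⊆ {y : Set.Icc (0 : ℝ) 1 | y.1 ≤ 2 / 3} := by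
    intro z hz
    have hz' : z.1 < 2 / 3 := hz
    exact hz'.le
  exact closure_minimal hsub hcl hy

lemma cl2 {y : Set.Icc (0 : ℝ) 1} (hy : y ∈ closure G2) : 1 / 3 ≤ y.1 := by
  have hcl : IsClosed {y : Set.Icc (0 : ℝ) 1 | 1 / 3 ≤ y.1} :=
    isClosed_le continuous_const (by fun_prop)
  have hsub : G2 ⊆ {y : Set.Icc (0 : ℝ) 1 | 1 / 3 ≤ y.1} := by
    intro z hz
    have hz' : 1 / 3 < z.1 := hz
    exact hz'.le
  exact closure_minimal hsub hcl hy

lemma f_sq (t : ℝ) (y : Set.Icc (0 : ℝ) 1) : f (sq t y.1) = y := by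
  apply Subtype.ext
  exact cl_eq y.2.1 y.2.2

lemma f_stk (y : Set.Icc (0 : ℝ) 1) : f (stk y.1) = y := by
  apply Subtype.ext
  exact cl_eq y.2.1 y.2.2

theorem part1 : ∃ (Z : Type) (_ : MetricSpace Z) (_ : CompactSpace Z)
          (h : ↥(f ⁻¹' closure G1) → Z) (g : Z → ↥(closure G1)),
          Continuous h ∧ IsOpenMap h ∧ Surjective h ∧
          Continuous g ∧ Surjective g ∧ (∀ y, IsConnected (g ⁻¹' {y})) ∧
          ∀ x : ↥(f ⁻¹' closure G1), ((g (h x) : ↥(closure G1)) : Set.Icc (0 : ℝ) 1) = f x := by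
  refine ⟨↥(closure G1), inferInstance, isCompact_iff_compactSpace.1 isClosed_closure.isCompact,
    fun x => ⟨f x, x.2⟩, id, ?_, ?_, ?_, continuous_id, surjective_id, ?_, fun x => rfl⟩
  · exact (f_cont.comp continuous_subtype_val).subtype_mk _
  · apply IsOpenMap.of_sections
    rintro ⟨p, hp⟩
    have hp' := cl1 hp
    have hsq : Continuous (fun q : ℝ × ℝ => sq q.1 q.2) := sq_cont
    obtain ⟨⟨a, b, c⟩, ⟨h3, h4⟩, h5⟩ := p
    simp only at h3 h4 h5
    have hc' : c ≤ 2 / 3 := hp'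
    rcases h5 with ⟨h5, h6, h7⟩ | ⟨h5, h6, h7⟩ | ⟨h5, h6, h7, h8⟩
    · refine ⟨fun y => ⟨sq a y.1.1, by rw [mem_preimage, f_sq]; exact y.2⟩, ?_, ?_, ?_⟩
      · apply Continuous.continuousAt
        apply Continuous.subtype_mk
        exact hsq.comp (by fun_prop : Continuous fun y : ↥(closure G1) => (a, y.1.1))
      · apply Subtype.ext
        apply Subtype.ext
        simp [sq, f, cl_eq h6 h7, cl_eq h3 h4, h5]
      · intro y
        apply Subtype.ext
        exact f_sq a y.1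
    · refine ⟨fun y => ⟨stk y.1.1, by rw [mem_preimage, f_stk]; exact y.2⟩, ?_, ?_, ?_⟩
      · apply Continuous.continuousAt
        apply Continuous.subtype_mk
        exact stk_cont.comp (by fun_prop : Continuous fun y : ↥(closure G1) => y.1.1)
      · apply Subtype.ext
        apply Subtype.ext
        simp only [stk, f, cl_eq h3 h4, Prod.mk.injEq]
        refine ⟨h5.symm, ?_, trivial⟩
        rw [h6, max_eq_right (by linarith)]
      · intro y
        apply Subtype.ext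
        exact f_stk y.1
    · linarith
  · intro y
    exact ⟨⟨sq 0 y.1.1, by rw [mem_preimage, f_sq]; exact y.2⟩, Subtype.ext (f_sq 0 y.1)⟩
  · intro y
    exact isConnected_singleton

theorem part2 : ∃ (Z : Type) (_ : MetricSpace Z) (_ : CompactSpace Z)
          (h : ↥(f ⁻¹' closure G2) → Z) (g : Z → ↥(closure G2)),
          Continuous h ∧ IsOpenMap h ∧ Surjective h ∧
          Continuous g ∧ Surjective g ∧ (∀ y, IsConnected (g ⁻¹' {y})) ∧
          ∀ x : ↥(f ⁻¹' closure G2), ((g (h x) : ↥(closure G2)) : Set.Icc (0 : ℝ) 1) = f x := by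
  refine ⟨↥(f ⁻¹' closure G2), inferInstance,
    isCompact_iff_compactSpace.1 (isClosed_closure.preimage f_cont).isCompact,
    id, fun x => ⟨f x, x.2⟩, continuous_id, IsOpenMap.id, surjective_id, ?_, ?_, ?_, fun x => rfl⟩
  · exact (f_cont.comp continuous_subtype_val).subtype_mk _
  · intro y
    exact ⟨⟨sq 0 y.1.1, by rw [mem_preimage, f_sq]; exact y.2⟩, Subtype.ext (f_sq 0 y.1)⟩
  · intro y
    have hy := cl2 y.2
    let ψ : ℝ → ↥(f ⁻¹' closure G2) := fun t => ⟨sq t y.1.1, by rw [mem_preimage, f_sq]; exact y.2⟩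
    have hψ : Continuous ψ := by
      apply Continuous.subtype_mk
      exact sq_cont.comp (by fun_prop : Continuous fun t : ℝ => (t, y.1.1))
    have hψc : IsConnected (ψ '' Icc 0 1) :=
      (isConnected_Icc zero_le_one).image _ hψ.continuousOn
    have hψm : ψ '' Icc 0 1 ⊆ (fun x : ↥(f ⁻¹' closure G2) => (⟨f x, x.2⟩ : ↥(closure G2))) ⁻¹' {y} := by
      rintro _ ⟨t, _, rfl⟩
      exact Subtype.ext (f_sq t y.1)
    rcases (y.1.2.2).lt_or_eq with hy1 | hy1
    · have : (fun x : ↥(f ⁻¹' closure G2) => (⟨f x, x.2⟩ : ↥(closure G2))) ⁻¹' {y} =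
          ψ '' Icc 0 1 := by
        apply Set.Subset.antisymm _ hψm
        rintro ⟨p, hp⟩ hpy
        have h1 : f p = y.1 := congrArg Subtype.val hpy
        have h2 : p.1.2.2 = y.1.1 := congrArg Subtype.val h1
        obtain ⟨k1, k2, k3⟩ := fibre (p := p) (by rw [h2]; exact hy) (by rw [h2]; exact hy1)
        refine ⟨p.1.1, ⟨k1, k2⟩, ?_⟩
        apply Subtype.ext
        show sq p.1.1 y.1.1 = p
        rw [← h2]; exact k3.symm
      rw [this]; exact hψc
    · have hyone : y.1 = ⟨1, zero_le_one, le_rfl⟩ := Subtype.ext hy1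
      have hfw : ∀ t, f (whi t) = y.1 := fun t => by rw [hyone]; rfl
      let ω : ℝ → ↥(f ⁻¹' closure G2) := fun t => ⟨whi t, by rw [mem_preimage, hfw]; exact y.2⟩
      have hω : Continuous ω := by
        apply Continuous.subtype_mk
        exact whi_cont
      have hωc : IsConnected (ω '' Icc 0 1) :=
        (isConnected_Icc zero_le_one).image _ hω.continuousOn
      have : (fun x : ↥(f ⁻¹' closure G2) => (⟨f x, x.2⟩ : ↥(closure G2))) ⁻¹' {y} =
          ψ '' Icc 0 1 ∪ ω '' Icc 0 1 := by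
        apply Set.Subset.antisymm
        · rintro ⟨p, hp⟩ hpy
          have h1 : f p = y.1 := congrArg Subtype.val hpy
          have h2 : p.1.2.2 = y.1.1 := congrArg Subtype.val h1
          rw [hy1] at h2
          obtain ⟨⟨a, b, c⟩, ⟨h3, h4⟩, h5⟩ := p
          simp only at h2 h3 h4 h5
          rcases h5 with ⟨h5, h6, h7⟩ | ⟨h5, h6, h7⟩ | ⟨h5, h6, h7, h8⟩
          · left
            refine ⟨a, ⟨h6, h7⟩, ?_⟩
            apply Subtype.ext
            apply Subtype.ext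
            simp [ψ, sq, cl_eq h6 h7, hy1, h5, h2, cl_eq zero_le_one le_rfl]
          · linarith
          · right
            refine ⟨b, ⟨h7, h8⟩, ?_⟩
            apply Subtype.ext
            apply Subtype.ext
            simp [ω, whi, cl_eq h7 h8, h5, h2]
        · apply union_subset hψm
          rintro _ ⟨t, _, rfl⟩
          exact Subtype.ext (hfw t)
      rw [this]
      apply IsConnected.union _ hψc hωc
      refine ⟨ψ 0, ⟨0, ⟨le_rfl, zero_le_one⟩, rfl⟩, ⟨0, ⟨le_rfl, zero_le_one⟩, ?_⟩⟩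
      apply Subtype.ext
      apply Subtype.ext
      simp [ω, ψ, whi, sq, cl_eq le_rfl zero_le_one, hy1, cl_eq zero_le_one le_rfl]

/-- The negation of the preceding statement: For a continuous surjection f between compact metric spaces and open G₁, G₂ covering Y: if each restriction of f over closure(Gᵢ) is an open map followed by a monotone map, then f itself is an open map followed by a monotone map. -/
theorem result :
    ¬ (∀ (X Y : Type) [MetricSpace X] [CompactSpace X] [MetricSpace Y] [CompactSpace Y]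
      (f : X → Y), Continuous f → Surjective f →
      ∀ G₁ G₂ : Set Y, IsOpen G₁ → IsOpen G₂ → G₁ ∪ G₂ = Set.univ →
      (∃ (Z : Type) (_ : MetricSpace Z) (_ : CompactSpace Z)
          (h : ↥(f ⁻¹' closure G₁) → Z) (g : Z → ↥(closure G₁)),
          Continuous h ∧ IsOpenMap h ∧ Surjective h ∧
          Continuous g ∧ Surjective g ∧ (∀ y, IsConnected (g ⁻¹' {y})) ∧
          ∀ x : ↥(f ⁻¹' closure G₁), ((g (h x) : ↥(closure G₁)) : Y) = f x) →
      (∃ (Z : Type) (_ : MetricSpace Z) (_ : CompactSpace Z)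
          (h : ↥(f ⁻¹' closure G₂) → Z) (g : Z → ↥(closure G₂)),
          Continuous h ∧ IsOpenMap h ∧ Surjective h ∧
          Continuous g ∧ Surjective g ∧ (∀ y, IsConnected (g ⁻¹' {y})) ∧
          ∀ x : ↥(f ⁻¹' closure G₂), ((g (h x) : ↥(closure G₂)) : Y) = f x) →
      ∃ (Z : Type) (_ : MetricSpace Z) (_ : CompactSpace Z)
          (h : X → Z) (g : Z → Y),
          Continuous h ∧ IsOpenMap h ∧ Surjective h ∧
          Continuous g ∧ Surjective g ∧ (∀ y, IsConnected (g ⁻¹' {y})) ∧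
          ∀ x : X, g (h x) = f x) := by
  intro H
  have hunion : G1 ∪ G2 = Set.univ := by
    rw [Set.eq_univ_iff_forall]
    intro y
    rcases lt_or_ge y.1 (2 / 3) with h | h
    · left; exact h
    · right; show 1 / 3 < y.1; linarith
  obtain ⟨Z, _, _, h, g, hc, ho, _, _, _, hg, hgf⟩ := H XS (Set.Icc (0 : ℝ) 1) f f_cont
    (fun y => ⟨sq 0 y.1, f_sq 0 y⟩) G1 G2 G1_open G2_open hunion part1 part2
  exact not_MO hc ho hg hgf

end Pool.Agent.S08698
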