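import Pool.Statements.S08700
-- import your own Pool.Agent.* helpers here

set_option autoImplicit false
open Pool Pool.MP_0eb590_gt

open TopologicalSpace

namespace Pool.Agent.S08700

/-- the underlying space: an uncountable discrete space -/
def X : Type := ℕ → Bool

instance : TopologicalSpace X := ⊥
instance : DiscreteTopology X := ⟨rfl⟩

/-- address points -/
def pt (n : ℕ) : X := fun m => decide (m = n)

lemma pt_injective : Function.Injective pt := by
  intro a b h
  have := congrFun h a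
  simpa [pt] using this

/-! ### A countable dense family -/

lemma exists_sep (H : Finset X) : ∃ n : ℕ, ∀ x ∈ H, ∀ y ∈ H, (∀ i < n, x i = y i) → x = y := by
  classical
  have hex : ∀ x y : X, x ≠ y → ∃ i, x i ≠ y i := fun x y h => Function.ne_iff.1 h
  let dd : X × X → ℕ := fun p => if h : p.1 ≠ p.2 then (hex p.1 p.2 h).choose + 1 else 0
  refine ⟨(H ×ˢ H).sup dd, ?_⟩
  intro x hx y hy h
  by_contra hne
  have h1 : dd (x, y) ≤ (H ×ˢ H).sup dd :=
    Finset.le_sup (f := dd) (b := (x, y)) (by simp [hx, hy])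
  have h2 : dd (x, y) = (hex x y hne).choose + 1 := by
    simp only [dd]; rw [dif_pos hne]
  exact (hex x y hne).choose_spec (h _ (by omega))

/-- index type of the family -/
abbrev K : Type := Σ n : ℕ, ((Fin n → Bool) → ℚ) × ℕ

noncomputable def rad (k : K) : ℝ := 1 / ((k.2.2 : ℝ) + 2)

lemma rad_pos (k : K) : 0 < rad k := by unfold rad; positivity

lemma rad_le (k : K) : rad k ≤ 1 / 2 := by
  unfold rad
  apply one_div_le_one_div_of_le (by norm_num)
  have : (0 : ℝ) ≤ (k.2.2 : ℝ) := by positivity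
  linarith

noncomputable def val (k : K) (x : X) : ℝ :=
  max (-(1 - rad k)) (min (1 - rad k) ((k.2.1 (fun i => x i) : ℚ) : ℝ))

lemma val_bound (k : K) (x : X) : |val k x| + rad k ≤ 1 := by
  have h1 := rad_le k
  have h2 := rad_pos k
  have : |val k x| ≤ 1 - rad k := by
    unfold val
    rw [abs_le]
    constructor
    · exact le_max_left _ _
    · exact max_le (by linarith) (min_le_left _ _)
  linarith

lemma val_dense (H : Finset X) (t : X → ℝ) (ht : ∀ x, |t x| < 1) (ε : ℝ) (hε : 0 < ε) :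
    ∃ k : K, rad k < ε ∧ ∀ x ∈ H, |val k x - t x| < ε := by
  classical
  obtain ⟨n, hn⟩ := exists_sep H
  -- choose m
  have hev : ∀ᶠ m : ℕ in Filter.atTop, (1 / ((m : ℝ) + 2) < ε) ∧
      ∀ x ∈ H, 1 / ((m : ℝ) + 2) < 1 - |t x| := by
    have hlim : Filter.Tendsto (fun m : ℕ => 1 / ((m : ℝ) + 2)) Filter.atTop (nhds 0) := by
      have h1 : Filter.Tendsto (fun m : ℕ => (m : ℝ) + 2) Filter.atTop Filter.atTop :=
        Filter.tendsto_atTop_add_const_right _ _ tendsto_natCast_atTop_atTop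
      have := tendsto_inv_atTop_zero.comp h1
      simpa [Function.comp_def, one_div] using this
    refine (hlim.eventually (gt_mem_nhds hε)).and ?_
    rw [Filter.eventually_all_finset]
    intro x _
    exact hlim.eventually (gt_mem_nhds (by have := ht x; linarith))
  obtain ⟨m, hm1, hm2⟩ := hev.exists
  set r : ℝ := 1 / ((m : ℝ) + 2) with hr
  -- rational values
  have hu : ∀ x : X, ∃ u : ℚ, x ∈ H → |(u : ℝ) - t x| < min ε (1 - r - |t x|) := by
    intro x
    by_cases hx : x ∈ H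
    · have hpos : 0 < min ε (1 - r - |t x|) := lt_min hε (by have := hm2 x hx; linarith)
      obtain ⟨u, hu1, hu2⟩ := exists_rat_btwn (show t x < t x + min ε (1 - r - |t x|) by linarith)
      refine ⟨u, fun _ => ?_⟩
      rw [abs_lt]; constructor <;> linarith
    · exact ⟨0, fun h => absurd h hx⟩
  choose u hu using hu
  let v : (Fin n → Bool) → ℚ := fun s =>
    if h : ∃ x, x ∈ H ∧ (fun i : Fin n => x i) = s then u h.choose else 0
  have hv : ∀ x ∈ H, v (fun i : Fin n => x i) = u x := by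
    intro x hx
    have hex : ∃ y, y ∈ H ∧ (fun i : Fin n => y i) = (fun i : Fin n => x i) := ⟨x, hx, rfl⟩
    have h1 : v (fun i : Fin n => x i) = u hex.choose := by
      simp only [v]; rw [dif_pos hex]
    have h2 := hex.choose_spec
    have h3 : hex.choose = x := by
      apply hn _ h2.1 _ hx
      intro i hi
      exact congrFun h2.2 ⟨i, hi⟩
    rw [h1, h3]
  refine ⟨⟨n, v, m⟩, hm1, ?_⟩
  intro x hx
  have h1 : val ⟨n, v, m⟩ x = (u x : ℝ) := by
    unfold val
    have h2 : ((⟨n, v, m⟩ : K).2.1 (fun i => x i)) = u x := hv x hx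
    have h3 : rad ⟨n, v, m⟩ = r := rfl
    rw [h2, h3]
    have h4 := hu x hx
    have h5 : |(u x : ℝ)| ≤ 1 - r := by
      have h6 := abs_sub_abs_le_abs_sub (u x : ℝ) (t x)
      have h7 := lt_of_lt_of_le h4 (min_le_right _ _)
      linarith
    rw [abs_le] at h5
    rw [min_eq_right h5.2, max_eq_right h5.1]
  rw [h1]
  exact lt_of_lt_of_le (hu x hx) (min_le_left _ _)

lemma exists_family : ∃ (q : ℕ → X → ℝ) (ρ : ℕ → ℝ), (∀ k, 0 < ρ k) ∧ (∀ k x, |q k x| + ρ k ≤ 1) ∧
    ∀ (H : Finset X) (t : X → ℝ), (∀ x, |t x| < 1) → ∀ ε : ℝ, 0 < ε →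
      ∃ k, ρ k < ε ∧ ∀ x ∈ H, |q k x - t x| < ε := by
  haveI : Nonempty K := ⟨⟨0, fun _ => 0, 0⟩⟩
  obtain ⟨e, he⟩ := exists_surjective_nat K
  refine ⟨fun k => val (e k), fun k => rad (e k), fun k => rad_pos _, fun k x => val_bound _ _, ?_⟩
  intro H t ht ε hε
  obtain ⟨k, hk1, hk2⟩ := val_dense H t ht ε hε
  obtain ⟨j, rfl⟩ := he k
  exact ⟨j, hk1, hk2⟩

/-! ### The coordinates -/

/-- cut-off -/
noncomputable def cut (n : ℕ) (c : ℝ) : ℝ := max 0 (min 1 (c - n))

/-- bump around `k` -/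
noncomputable def bump (k : ℕ) (t : ℝ) : ℝ := max 0 (1 - 3 * |t - k|)

noncomputable def lam (n k : ℕ) (f : X → ℝ) : ℝ := bump k (f (pt (n + 1))) * cut n (f (pt 0))

lemma cut_nonneg (n : ℕ) (c : ℝ) : 0 ≤ cut n c := le_max_left _ _
lemma cut_le_one (n : ℕ) (c : ℝ) : cut n c ≤ 1 := max_le zero_le_one (min_le_left _ _)
lemma bump_nonneg (k : ℕ) (t : ℝ) : 0 ≤ bump k t := le_max_left _ _
lemma bump_le_one (k : ℕ) (t : ℝ) : bump k t ≤ 1 :=
  max_le zero_le_one (by have := abs_nonneg (t - k); linarith)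
lemma lam_nonneg (n k : ℕ) (f : X → ℝ) : 0 ≤ lam n k f := mul_nonneg (bump_nonneg _ _) (cut_nonneg _ _)
lemma lam_le_one (n k : ℕ) (f : X → ℝ) : lam n k f ≤ 1 :=
  mul_le_one₀ (bump_le_one _ _) (cut_nonneg _ _) (cut_le_one _ _)

lemma cut_zero (n : ℕ) (c : ℝ) (h : c ≤ n) : cut n c = 0 := by
  unfold cut
  exact max_eq_left ((min_le_right _ _).trans (by linarith))

lemma cut_one (n : ℕ) (c : ℝ) (h : (n : ℝ) + 1 ≤ c) : cut n c = 1 := by
  unfold cut
  rw [min_eq_left (by linarith)]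
  norm_num

lemma bump_pos_iff (k : ℕ) (t : ℝ) : bump k t ≠ 0 → |t - k| < 1 / 3 := by
  intro h
  unfold bump at h
  by_contra hcon
  rw [not_lt] at hcon
  exact h (max_eq_left (by linarith))

lemma lam_unique (n : ℕ) (f : X → ℝ) (k k' : ℕ) (h : lam n k f ≠ 0) (hk : k' ≠ k) :
    lam n k' f = 0 := by
  by_contra h'
  unfold lam at h h'
  have h1 := bump_pos_iff _ _ (left_ne_zero_of_mul h)
  have h2 := bump_pos_iff _ _ (left_ne_zero_of_mul h')
  apply hk
  have h3 : |(k' : ℝ) - k| < 1 := by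
    rw [abs_lt] at *
    constructor <;> linarith
  have h4 : |(k' : ℤ) - k| < 1 := by exact_mod_cast h3
  have h5 := Int.abs_lt_one_iff.1 h4
  omega

lemma exists_active (n : ℕ) (f : X → ℝ) : ∃ κ, ∀ k ≠ κ, lam n k f = 0 := by
  by_cases h : ∃ k, lam n k f ≠ 0
  · obtain ⟨k, hk⟩ := h
    exact ⟨k, fun k' hk' => lam_unique n f k k' hk hk'⟩
  · push Not at h
    exact ⟨0, fun k _ => h k⟩

section maps

variable (q : ℕ → X → ℝ) (ρ : ℕ → ℝ)

/-- one step -/
noncomputable def G (n : ℕ) (f : X → ℝ) (x : X) (z : ℝ) : ℝ :=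
  z + ∑ᶠ k, lam n k f * (q k x + (ρ k - 1) * z)

lemma G_eq (n : ℕ) (f : X → ℝ) (x : X) (z : ℝ) (κ : ℕ) (h : ∀ k ≠ κ, lam n k f = 0) :
    G q ρ n f x z = z + lam n κ f * (q κ x + (ρ κ - 1) * z) := by
  unfold G
  rw [finsum_eq_single _ κ (fun k hk => by rw [h k hk, zero_mul])]

/-- iterated steps -/
noncomputable def T (f : X → ℝ) (x : X) : ℕ → ℝ → ℝ
  | 0, z => z
  | N + 1, z => T f x N (G q ρ N f x z)

lemma G_continuous (n : ℕ) (x : X) :
    Continuous (fun p : (X → ℝ) × ℝ => G q ρ n p.1 x p.2) := by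
  unfold G
  apply continuous_snd.add
  apply continuous_finsum
  · intro k
    unfold lam bump cut
    fun_prop
  · intro p
    refine ⟨{p' | |p'.1 (pt (n + 1)) - p.1 (pt (n + 1))| < 1}, ?_, ?_⟩
    · apply IsOpen.mem_nhds
      · apply isOpen_lt
        · fun_prop
        · fun_prop
      · simp
    · apply (Set.finite_Iic (⌈p.1 (pt (n + 1)) + 2⌉₊)).subset
      rintro k ⟨p', hp1, hp2⟩
      simp only [Function.mem_support] at hp1
      have h1 : lam n k p'.1 ≠ 0 := left_ne_zero_of_mul hp1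
      have h2 := bump_pos_iff _ _ (left_ne_zero_of_mul h1)
      simp only [Set.mem_ofPred_eq] at hp2
      rw [abs_lt] at h2 hp2
      have h3 : (k : ℝ) ≤ p.1 (pt (n + 1)) + 2 := by linarith
      simp only [Set.mem_Iic]
      exact_mod_cast h3.trans (Nat.le_ceil _)

lemma T_continuous (N : ℕ) (x : X) :
    Continuous (fun p : (X → ℝ) × ℝ => T q ρ p.1 x N p.2) := by
  induction N with
  | zero => simpa [T] using continuous_snd
  | succ N ih =>
    have := ih.comp (continuous_fst.prodMk (G_continuous q ρ N x))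
    simpa [T, Function.comp_def] using this

lemma G_id (n : ℕ) (f : X → ℝ) (x : X) (z : ℝ) (h : f (pt 0) ≤ n) : G q ρ n f x z = z := by
  rw [G_eq q ρ n f x z 0 (fun k _ => by unfold lam; rw [cut_zero n _ h, mul_zero])]
  unfold lam
  rw [cut_zero n _ h]; ring

lemma T_stable (f : X → ℝ) (x : X) (z : ℝ) (M N : ℕ) (h : f (pt 0) ≤ M) (hMN : M ≤ N) :
    T q ρ f x N z = T q ρ f x M z := by
  induction N, hMN using Nat.le_induction with
  | base => rfl
  | succ N hN ih =>
    have h1 : f (pt 0) ≤ N := h.trans (by exact_mod_cast hN)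
    show T q ρ f x N (G q ρ N f x z) = _
    rw [G_id q ρ N f x z h1, ih]

noncomputable def a (t : ℝ) : ℝ := Real.arctan t / 2

lemma a_lt (t : ℝ) : |a t| < 1 := by
  unfold a
  have h1 := Real.arctan_lt_pi_div_two t
  have h2 := Real.neg_pi_div_two_lt_arctan t
  have h3 := Real.pi_le_four
  rw [abs_lt]
  constructor <;> linarith

lemma a_inj {s t : ℝ} (h : a s = a t) : s = t := by
  unfold a at h
  exact Real.arctan_injective (by linarith)

lemma a_cont : Continuous a := by
  unfold a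
  exact Real.continuous_arctan.div_const _

noncomputable def Psi (x : X) (f : X → ℝ) : ℝ := T q ρ f x ⌈f (pt 0)⌉₊ (a (f x))

lemma Psi_eq (x : X) (f : X → ℝ) (N : ℕ) (h : f (pt 0) ≤ N) :
    Psi q ρ x f = T q ρ f x N (a (f x)) := by
  unfold Psi
  exact (T_stable q ρ f x _ _ N (Nat.le_ceil _) (Nat.ceil_le.2 h)).symm

lemma Psi_continuous (x : X) : Continuous (Psi q ρ x) := by
  rw [continuous_iff_continuousAt]
  intro f0
  have h1 : Continuous (fun f : X → ℝ => T q ρ f x (⌈f0 (pt 0)⌉₊ + 1) (a (f x))) := by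
    have := (T_continuous q ρ (⌈f0 (pt 0)⌉₊ + 1) x).comp
      (continuous_id.prodMk (a_cont.comp (continuous_apply x)))
    simpa [Function.comp_def] using this
  apply h1.continuousAt.congr
  have h2 : ∀ᶠ f : X → ℝ in nhds f0, f (pt 0) < (⌈f0 (pt 0)⌉₊ : ℝ) + 1 := by
    apply (isOpen_lt (continuous_apply (pt 0)) continuous_const).mem_nhds
    have := Nat.le_ceil (f0 (pt 0))
    simp only [Set.mem_ofPred_eq]
    linarith
  filter_upwards [h2] with f hf
  rw [Psi_eq q ρ x f (⌈f0 (pt 0)⌉₊ + 1) (by push_cast; linarith)]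

lemma lam_continuous (n k : ℕ) : Continuous (lam n k) := by
  unfold lam bump cut
  fun_prop

variable (hρ : ∀ k, 0 < ρ k) (hq : ∀ k x, |q k x| + ρ k ≤ 1)

include hρ hq

lemma G_inj (n : ℕ) (f : X → ℝ) (x : X) {z z' : ℝ} (h : G q ρ n f x z = G q ρ n f x z') :
    z = z' := by
  obtain ⟨κ, hκ⟩ := exists_active n f
  rw [G_eq q ρ n f x z κ hκ, G_eq q ρ n f x z' κ hκ] at h
  have h1 := hρ κ
  have h2 := hq κ x
  have h3 := abs_nonneg (q κ x)
  have h4 := lam_nonneg n κ f
  have h5 := lam_le_one n κ f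
  have h6 : (z - z') * (1 - lam n κ f * (1 - ρ κ)) = 0 := by linarith
  have h7 : 1 - lam n κ f * (1 - ρ κ) ≠ 0 := by
    have : lam n κ f * (1 - ρ κ) ≤ 1 - ρ κ := by nlinarith
    intro h; linarith
  have := (mul_eq_zero.1 h6).resolve_right h7
  linarith

lemma G_lip (n : ℕ) (f : X → ℝ) (x : X) (z z' : ℝ) :
    |G q ρ n f x z - G q ρ n f x z'| ≤ |z - z'| := by
  obtain ⟨κ, hκ⟩ := exists_active n f
  rw [G_eq q ρ n f x z κ hκ, G_eq q ρ n f x z' κ hκ]
  have h1 := hρ κ
  have h2 := hq κ x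
  have h3 := abs_nonneg (q κ x)
  have h4 := lam_nonneg n κ f
  have h5 := lam_le_one n κ f
  have h6 : (z + lam n κ f * (q κ x + (ρ κ - 1) * z)) - (z' + lam n κ f * (q κ x + (ρ κ - 1) * z'))
      = (z - z') * (1 - lam n κ f * (1 - ρ κ)) := by ring
  rw [h6, abs_mul]
  have h7 : 0 ≤ lam n κ f * (1 - ρ κ) := mul_nonneg h4 (by linarith)
  have h8 : lam n κ f * (1 - ρ κ) ≤ 1 := by nlinarith
  have h9 : |1 - lam n κ f * (1 - ρ κ)| ≤ 1 := by rw [abs_le]; constructor <;> linarith
  nlinarith [abs_nonneg (z - z')]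

lemma G_bound (n : ℕ) (f : X → ℝ) (x : X) (z : ℝ) (hz : |z| ≤ 1) : |G q ρ n f x z| ≤ 1 := by
  obtain ⟨κ, hκ⟩ := exists_active n f
  rw [G_eq q ρ n f x z κ hκ]
  have h1 := hρ κ
  have h2 := hq κ x
  have h4 := lam_nonneg n κ f
  have h5 := lam_le_one n κ f
  have h6 : z + lam n κ f * (q κ x + (ρ κ - 1) * z) =
      (1 - lam n κ f) * z + lam n κ f * (q κ x + ρ κ * z) := by ring
  rw [h6]
  have h7 : |q κ x + ρ κ * z| ≤ 1 := by
    calc |q κ x + ρ κ * z| ≤ |q κ x| + |ρ κ * z| := abs_add_le _ _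
      _ = |q κ x| + ρ κ * |z| := by rw [abs_mul, abs_of_pos h1]
      _ ≤ 1 := by nlinarith
  calc |(1 - lam n κ f) * z + lam n κ f * (q κ x + ρ κ * z)|
      ≤ |(1 - lam n κ f) * z| + |lam n κ f * (q κ x + ρ κ * z)| := abs_add_le _ _
    _ = (1 - lam n κ f) * |z| + lam n κ f * |q κ x + ρ κ * z| := by
        rw [abs_mul, abs_mul, abs_of_nonneg h4, abs_of_nonneg (by linarith : (0:ℝ) ≤ 1 - lam n κ f)]
    _ ≤ 1 := by nlinarith

lemma T_inj (f : X → ℝ) (x : X) (N : ℕ) {z z' : ℝ} (h : T q ρ f x N z = T q ρ f x N z') :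
    z = z' := by
  induction N generalizing z z' with
  | zero => exact h
  | succ N ih => exact G_inj q ρ hρ hq N f x (ih h)

lemma T_reduce (f : X → ℝ) (x : X) (M N : ℕ) (hMN : M ≤ N) (z : ℝ) (hz : |z| ≤ 1) :
    ∃ z', |z'| ≤ 1 ∧ T q ρ f x N z = T q ρ f x M z' := by
  induction N, hMN using Nat.le_induction generalizing z with
  | base => exact ⟨z, hz, rfl⟩
  | succ N hN ih => exact ih _ (G_bound q ρ hρ hq N f x z hz)

omit hρ hq in
lemma T_congr (f f' : X → ℝ) (x : X) (N : ℕ) (h : ∀ n k, lam n k f = lam n k f') (z : ℝ) :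
    T q ρ f x N z = T q ρ f' x N z := by
  induction N generalizing z with
  | zero => rfl
  | succ N ih =>
    show T q ρ f x N (G q ρ N f x z) = T q ρ f' x N (G q ρ N f' x z)
    have : G q ρ N f x z = G q ρ N f' x z := by unfold G; simp only [h]
    rw [this, ih]

lemma T_compare (f f' : X → ℝ) (x : X) (N : ℕ) (θ : ℝ)
    (h : ∀ n < N, ∃ κ, (∀ k ≠ κ, lam n k f = 0) ∧ (∀ k ≠ κ, lam n k f' = 0) ∧
      |lam n κ f - lam n κ f'| ≤ θ) (z z' : ℝ) (hz : |z| ≤ 1) (hz' : |z'| ≤ 1) :
    |T q ρ f x N z - T q ρ f' x N z'| ≤ |z - z'| + N * (2 * θ) := by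
  induction N generalizing z z' with
  | zero => simp [T]
  | succ N ih =>
    show |T q ρ f x N (G q ρ N f x z) - T q ρ f' x N (G q ρ N f' x z')| ≤ _
    have h1 := ih (fun n hn => h n (hn.trans (Nat.lt_succ_self N))) (G q ρ N f x z)
      (G q ρ N f' x z') (G_bound q ρ hρ hq N f x z hz) (G_bound q ρ hρ hq N f' x z' hz')
    have h2 := G_lip q ρ hρ hq N f x z z'
    obtain ⟨κ, hκ, hκ', hθ⟩ := h N (Nat.lt_succ_self N)
    have h3 : |G q ρ N f x z' - G q ρ N f' x z'| ≤ 2 * θ := by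
      rw [G_eq q ρ N f x z' κ hκ, G_eq q ρ N f' x z' κ hκ']
      have e1 : z' + lam N κ f * (q κ x + (ρ κ - 1) * z') -
          (z' + lam N κ f' * (q κ x + (ρ κ - 1) * z')) =
          (lam N κ f - lam N κ f') * (q κ x + (ρ κ - 1) * z') := by ring
      rw [e1, abs_mul]
      have g1 := hρ κ
      have g2 := hq κ x
      have g3 := abs_nonneg (q κ x)
      have g4 : |q κ x + (ρ κ - 1) * z'| ≤ 2 := by
        calc |q κ x + (ρ κ - 1) * z'| ≤ |q κ x| + |(ρ κ - 1) * z'| := abs_add_le _ _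
          _ = |q κ x| + (1 - ρ κ) * |z'| := by
              rw [abs_mul, abs_sub_comm, abs_of_nonneg (by linarith : (0:ℝ) ≤ 1 - ρ κ)]
          _ ≤ 2 := by nlinarith
      have g5 : 0 ≤ θ := (abs_nonneg _).trans hθ
      nlinarith [abs_nonneg (lam N κ f - lam N κ f'), abs_nonneg (q κ x + (ρ κ - 1) * z')]
    have h4 : |G q ρ N f x z - G q ρ N f' x z'| ≤ |z - z'| + 2 * θ := by
      calc |G q ρ N f x z - G q ρ N f' x z'| =
          |(G q ρ N f x z - G q ρ N f x z') + (G q ρ N f x z' - G q ρ N f' x z')| := by ring_nf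
        _ ≤ _ := abs_add_le _ _
        _ ≤ _ := add_le_add h2 h3
    push_cast
    linarith

lemma main_approx
    (hd : ∀ (H : Finset X) (t : X → ℝ), (∀ x, |t x| < 1) → ∀ ε : ℝ, 0 < ε →
      ∃ k, ρ k < ε ∧ ∀ x ∈ H, |q k x - t x| < ε)
    (fs : X → ℝ) (S : Finset (ℕ × ℕ)) (H : Finset X) (ε : ℝ) (hε : 0 < ε) :
    ∃ O : Set (ℕ × ℕ → ℝ), IsOpen O ∧ (∃ f : X → ℝ, (fun p : ℕ × ℕ => lam p.1 p.2 f) ∈ O) ∧
      ∀ f : X → ℝ, (fun p : ℕ × ℕ => lam p.1 p.2 f) ∈ O →
        (∀ p ∈ S, |lam p.1 p.2 f - lam p.1 p.2 fs| < ε) ∧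
        ∀ x ∈ H, |Psi q ρ x f - Psi q ρ x fs| < ε := by
  classical
  set N : ℕ := max ⌈fs (pt 0)⌉₊ (S.sup (fun p => p.1 + 1)) with hN
  have hN1 : fs (pt 0) ≤ N := (Nat.le_ceil _).trans (by exact_mod_cast le_max_left _ _)
  have hN2 : ∀ p ∈ S, p.1 < N := by
    intro p hp
    have h1 : p.1 + 1 ≤ S.sup (fun p => p.1 + 1) := Finset.le_sup (f := fun p : ℕ × ℕ => p.1 + 1) hp
    have h2 : S.sup (fun p : ℕ × ℕ => p.1 + 1) ≤ N := le_max_right _ _
    omega
  set θ : ℝ := min (ε / (8 * (N + 1))) (1 / 2) with hθ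
  have hθ0 : 0 < θ := lt_min (by positivity) (by norm_num)
  have hθ1 : θ ≤ 1 / 2 := min_le_right _ _
  have hθ2 : 8 * ((N : ℝ) + 1) * θ ≤ ε := by
    have h1 : θ ≤ ε / (8 * (N + 1)) := min_le_left _ _
    have h2 : (0 : ℝ) < 8 * (N + 1) := by positivity
    rw [le_div_iff₀ h2] at h1
    linarith
  have hNn : (0 : ℝ) ≤ N := by positivity
  choose κ hκ using fun n => exists_active n fs
  set v : ℕ → ℝ := fun n => if lam n (κ n) fs = 0 then θ else lam n (κ n) fs with hv
  have hv0 : ∀ n, 0 < v n := by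
    intro n
    simp only [hv]
    split_ifs with h
    · exact hθ0
    · exact lt_of_le_of_ne (lam_nonneg _ _ _) (Ne.symm h)
  have hv1 : ∀ n, v n ≤ 1 := by
    intro n
    simp only [hv]
    split_ifs with h
    · linarith
    · exact lam_le_one _ _ _
  have hv2 : ∀ n, |v n - lam n (κ n) fs| ≤ θ := by
    intro n
    simp only [hv]
    split_ifs with h
    · rw [h, sub_zero, abs_of_pos hθ0]
    · rw [sub_self, abs_zero]; exact hθ0.le
  obtain ⟨k0, hk0, hk0'⟩ := hd H (fun x => a (fs x)) (fun x => a_lt _) θ hθ0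
  refine ⟨{w | (∀ n ∈ Finset.range N, |w (n, κ n) - v n| < min (v n) θ) ∧ 1 - θ < w (N, k0)},
    ?_, ?_, ?_⟩
  · apply IsOpen.inter
    · have : {w : ℕ × ℕ → ℝ | ∀ n ∈ Finset.range N, |w (n, κ n) - v n| < min (v n) θ} =
          ⋂ n ∈ Finset.range N, {w | |w (n, κ n) - v n| < min (v n) θ} := by
        ext w; simp
      show IsOpen {w : ℕ × ℕ → ℝ | ∀ n ∈ Finset.range N, |w (n, κ n) - v n| < min (v n) θ}
      rw [this]
      apply isOpen_biInter_finset
      intro n _
      exact isOpen_lt (by fun_prop) continuous_const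
    · exact isOpen_lt (f := fun _ : ℕ × ℕ → ℝ => (1 - θ : ℝ)) (g := fun w => w (N, k0))
        continuous_const (continuous_apply (N, k0))
  · let h : ℕ → ℝ := fun m => match m with
      | 0 => (N : ℝ) + 1
      | n + 1 => if n < N then (κ n : ℝ) + (1 - v n) / 3 else k0
    refine ⟨Function.extend pt h 0, ?_, ?_⟩
    · intro n hn
      have hn' : n < N := Finset.mem_range.1 hn
      have e1 : Function.extend pt h 0 (pt (n + 1)) = (κ n : ℝ) + (1 - v n) / 3 := by
        rw [pt_injective.extend_apply]; simp [h, hn']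
      have e2 : Function.extend pt h 0 (pt 0) = (N : ℝ) + 1 := by
        rw [pt_injective.extend_apply]
      have e3 : lam n (κ n) (Function.extend pt h 0) = v n := by
        unfold lam
        rw [e1, e2, cut_one n _ (by
          have : (n : ℝ) < N := by exact_mod_cast hn'
          linarith), mul_one]
        unfold bump
        have h1 := hv1 n
        have h0 := hv0 n
        have e4 : |(κ n : ℝ) + (1 - v n) / 3 - (κ n : ℝ)| = (1 - v n) / 3 := by
          rw [abs_of_nonneg] <;> linarith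
        rw [e4]
        have e5 : 1 - 3 * ((1 - v n) / 3) = v n := by ring
        rw [e5]
        exact max_eq_right h0.le
      simp only [e3, sub_self, abs_zero]
      exact lt_min (hv0 n) hθ0
    · have e1 : Function.extend pt h 0 (pt (N + 1)) = (k0 : ℝ) := by
        rw [pt_injective.extend_apply]; simp [h]
      have e2 : Function.extend pt h 0 (pt 0) = (N : ℝ) + 1 := by
        rw [pt_injective.extend_apply]
      have e3 : lam N k0 (Function.extend pt h 0) = 1 := by
        unfold lam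
        rw [e1, e2, cut_one N _ le_rfl, mul_one]
        unfold bump
        simp
      simp only [e3]
      linarith
  · rintro f ⟨hf1, hf2⟩
    simp only at hf1 hf2
    have hf0 : ∀ n < N, ∀ k ≠ κ n, lam n k f = 0 := by
      intro n hn k hk
      have h1 := hf1 n (Finset.mem_range.2 hn)
      have h2 := lt_of_lt_of_le h1 (min_le_left _ _)
      rw [abs_lt] at h2
      exact lam_unique n f (κ n) k (by intro h0; rw [h0] at h2; linarith) hk
    have hfd : ∀ n < N, |lam n (κ n) f - lam n (κ n) fs| ≤ 2 * θ := by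
      intro n hn
      have h1 := hf1 n (Finset.mem_range.2 hn)
      have h2 := lt_of_lt_of_le h1 (min_le_right _ _)
      have h3 := hv2 n
      rw [abs_lt] at h2
      rw [abs_le] at h3 ⊢
      constructor <;> linarith
    have hfN : ∀ k ≠ k0, lam N k f = 0 := by
      intro k hk
      exact lam_unique N f k0 k (by intro h0; rw [h0] at hf2; linarith) hk
    constructor
    · intro p hp
      have hpn := hN2 p hp
      by_cases hk : p.2 = κ p.1
      · rw [hk]
        refine lt_of_le_of_lt (hfd p.1 hpn) ?_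
        nlinarith
      · rw [hf0 p.1 hpn p.2 hk, hκ p.1 p.2 hk, sub_self, abs_zero]
        exact hε
    · intro x hx
      set N' : ℕ := max (N + 1) ⌈f (pt 0)⌉₊ with hN'
      have h1 : Psi q ρ x f = T q ρ f x N' (a (f x)) :=
        Psi_eq q ρ x f N' ((Nat.le_ceil _).trans (by exact_mod_cast le_max_right _ _))
      obtain ⟨z, hz, hzT⟩ := T_reduce q ρ hρ hq f x (N + 1) N' (le_max_left _ _) (a (f x))
        (a_lt _).le
      have h2 : Psi q ρ x fs = T q ρ fs x N (a (fs x)) := Psi_eq q ρ x fs N hN1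
      rw [h1, hzT, h2]
      show |T q ρ f x N (G q ρ N f x z) - _| < ε
      have h3 := T_compare q ρ hρ hq f fs x N (2 * θ)
        (fun n hn => ⟨κ n, hf0 n hn, hκ n, hfd n hn⟩) (G q ρ N f x z) (a (fs x))
        (G_bound q ρ hρ hq N f x z hz) (a_lt _).le
      have h4 : |G q ρ N f x z - a (fs x)| ≤ 4 * θ := by
        rw [G_eq q ρ N f x z k0 hfN]
        have g1 := hρ k0
        have g2 := hq k0 x
        have g3 := abs_nonneg (q k0 x)
        have g4 := lam_nonneg N k0 f
        have g5 := lam_le_one N k0 f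
        have g6 := hk0' x hx
        have e1 : z + lam N k0 f * (q k0 x + (ρ k0 - 1) * z) - a (fs x) =
            (1 - lam N k0 f) * (z - q k0 x) + lam N k0 f * ρ k0 * z + (q k0 x - a (fs x)) := by ring
        rw [e1]
        have g7 : |(1 - lam N k0 f) * (z - q k0 x)| ≤ 2 * θ := by
          rw [abs_mul, abs_of_nonneg (by linarith : (0:ℝ) ≤ 1 - lam N k0 f)]
          have : |z - q k0 x| ≤ 2 := by
            rw [abs_le] at hz
            have := (abs_le.1 (by linarith : |q k0 x| ≤ 1))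
            rw [abs_le]; constructor <;> linarith
          nlinarith [abs_nonneg (z - q k0 x)]
        have g8 : |lam N k0 f * ρ k0 * z| ≤ θ := by
          rw [abs_mul, abs_mul, abs_of_nonneg g4, abs_of_pos g1]
          have : lam N k0 f * ρ k0 ≤ θ := by nlinarith
          have : 0 ≤ lam N k0 f * ρ k0 := by positivity
          nlinarith [abs_nonneg z]
        calc _ ≤ |(1 - lam N k0 f) * (z - q k0 x) + lam N k0 f * ρ k0 * z| + |q k0 x - a (fs x)| :=
              abs_add_le _ _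
          _ ≤ |(1 - lam N k0 f) * (z - q k0 x)| + |lam N k0 f * ρ k0 * z| + |q k0 x - a (fs x)| := by
              gcongr; exact abs_add_le _ _
          _ ≤ 4 * θ := by linarith
      refine lt_of_le_of_lt h3 ?_
      nlinarith

end maps

/-- The negation of the preceding statement: For every Tychonoff space X: if C_p(X) (continuous reals on X, pointwise topology) admits a continuous bijection onto a Tychonoff space with a countable π-base, then X is separable. -/
theorem result :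
    ¬ (∀ (X : Type) [TopologicalSpace X] [T35Space X],
      (∃ (Y : Type) (τ : TopologicalSpace Y), T35Space Y ∧
        ∃ g : C(X, ℝ) → Y, Function.Bijective g ∧
          @Continuous C(X, ℝ) Y
            (TopologicalSpace.induced (fun f : C(X, ℝ) => (⇑f : X → ℝ)) Pi.topologicalSpace)
            τ g ∧
          ∃ B : Set (Set Y), B.Countable ∧
            (∀ P ∈ B, IsOpen P ∧ P.Nonempty) ∧
            ∀ U : Set Y, IsOpen U → U.Nonempty → ∃ P ∈ B, P ⊆ U) →
      SeparableSpace X) := by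
  intro Hyp
  obtain ⟨q, ρ, hρ, hq, hd⟩ := exists_family
  let Φ : (X → ℝ) → ((ℕ × ℕ) ⊕ X → ℝ) := fun f j => match j with
    | Sum.inl p => lam p.1 p.2 f
    | Sum.inr x => Psi q ρ x f
  have hΦc : Continuous Φ := by
    apply continuous_pi
    rintro (p | x)
    · exact lam_continuous p.1 p.2
    · exact Psi_continuous q ρ x
  have hΦi : Function.Injective Φ := by
    intro f f' h
    have h1 : ∀ n k, lam n k f = lam n k f' := fun n k => congrFun h (Sum.inl (n, k))
    have h2 : ∀ x, Psi q ρ x f = Psi q ρ x f' := fun x => congrFun h (Sum.inr x)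
    funext x
    have h3 := h2 x
    set N : ℕ := max ⌈f (pt 0)⌉₊ ⌈f' (pt 0)⌉₊ with hN
    rw [Psi_eq q ρ x f N ((Nat.le_ceil _).trans (by exact_mod_cast le_max_left _ _)),
      Psi_eq q ρ x f' N ((Nat.le_ceil _).trans (by exact_mod_cast le_max_right _ _)),
      T_congr q ρ f f' x N h1] at h3
    exact a_inj (T_inj q ρ hρ hq f' x N h3)
  have hsep : SeparableSpace X := by
    apply Hyp X
    refine ⟨Set.range Φ, inferInstance, inferInstance,
      fun f => ⟨Φ (⇑f), ⟨_, rfl⟩⟩, ⟨?_, ?_⟩, ?_, ?_⟩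
    · intro f f' h
      have h1 : Φ (⇑f) = Φ (⇑f') := congrArg Subtype.val h
      exact DFunLike.coe_injective (hΦi h1)
    · rintro ⟨_, f, rfl⟩
      exact ⟨⟨f, continuous_of_discreteTopology⟩, rfl⟩
    · have h1 : Continuous (fun f : X → ℝ => (⟨Φ f, ⟨f, rfl⟩⟩ : Set.range Φ)) :=
        hΦc.subtype_mk _
      exact @Continuous.comp C(X, ℝ) (X → ℝ) (Set.range Φ)
        (TopologicalSpace.induced (fun f : C(X, ℝ) => (⇑f : X → ℝ)) Pi.topologicalSpace) _ _
        (fun f : C(X, ℝ) => (⇑f : X → ℝ)) _ h1 continuous_induced_dom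
    · let Lm : Set.range Φ → (ℕ × ℕ → ℝ) := fun y p => y.1 (Sum.inl p)
      have hL : Continuous Lm := by
        apply continuous_pi
        intro p
        exact (continuous_apply (Sum.inl p)).comp continuous_subtype_val
      refine ⟨{P | P.Nonempty ∧ ∃ O ∈ countableBasis (ℕ × ℕ → ℝ), P = Lm ⁻¹' O}, ?_, ?_, ?_⟩
      · apply ((countable_countableBasis (ℕ × ℕ → ℝ)).image (fun O => Lm ⁻¹' O)).mono
        rintro P ⟨_, O, hO, rfl⟩
        exact ⟨O, hO, rfl⟩
      · rintro P ⟨hP, O, hO, rfl⟩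
        exact ⟨(isOpen_of_mem_countableBasis hO).preimage hL, hP⟩
      · intro U hU hUne
        obtain ⟨⟨_, fs, rfl⟩, hfs⟩ := hUne
        obtain ⟨V, hV, rfl⟩ := isOpen_induced_iff.1 hU
        obtain ⟨I, u, hu1, hu2⟩ := isOpen_pi_iff.1 hV (Φ fs) hfs
        -- uniform epsilon
        have hev : ∀ᶠ ε : ℝ in nhdsWithin 0 (Set.Ioi 0), ∀ j ∈ I,
            Metric.ball (Φ fs j) ε ⊆ u j := by
          rw [Filter.eventually_all_finset]
          intro j hj
          obtain ⟨δ, hδ, hδ'⟩ := Metric.isOpen_iff.1 (hu1 j hj).1 _ (hu1 j hj).2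
          have : Set.Ioo (0 : ℝ) δ ∈ nhdsWithin 0 (Set.Ioi 0) := Ioo_mem_nhdsGT hδ
          filter_upwards [this] with ε hε
          exact (Metric.ball_subset_ball hε.2.le).trans hδ'
        obtain ⟨ε, hε1, hε0⟩ := (hev.and self_mem_nhdsWithin).exists
        have hε0' : 0 < ε := hε0
        classical
        obtain ⟨O, hO, ⟨f0, hf0⟩, hOf⟩ := main_approx q ρ hρ hq hd fs
          (I.preimage Sum.inl (Sum.inl_injective.injOn))
          (I.preimage Sum.inr (Sum.inr_injective.injOn)) ε hε0'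
        obtain ⟨O', hO', hfO', hO'O⟩ :=
          (isBasis_countableBasis (ℕ × ℕ → ℝ)).exists_subset_of_mem_open hf0 hO
        refine ⟨Lm ⁻¹' O', ⟨⟨⟨Φ f0, f0, rfl⟩, hfO'⟩, O', hO', rfl⟩, ?_⟩
        rintro ⟨_, f, rfl⟩ hf
        have hf' := hOf f (hO'O hf)
        apply hu2
        intro j hj
        apply hε1 j hj
        rw [Metric.mem_ball, Real.dist_eq]
        rcases j with p | x
        · exact hf'.1 p (by simpa using hj)
        · exact hf'.2 x (by simpa using hj)
  have hcount : Countable X := separableSpace_iff_countable.1 hsep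
  -- contradiction by diagonalization
  have : Nonempty X := ⟨pt 0⟩
  obtain ⟨e, he⟩ := exists_surjective_nat X
  obtain ⟨n, hn⟩ := he (fun m => !(e m m))
  have h1 := congrFun hn n
  simp at h1

end Pool.Agent.S08700
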