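import Pool.Statements.S08709

set_option autoImplicit false
open Pool Pool.MP_1117a1_gt

namespace Pool.Agent.S08709

open Set Filter Topology

abbrev Cp (X : Type) [TopologicalSpace X] : Type := {f : X → ℝ // Continuous f}

/-- K-analyticity, as in the frozen statement -/
def KA (Z : Type) [TopologicalSpace Z] : Prop :=
  ∃ F : (ℕ → ℕ) → Set Z, (∀ s, IsCompact (F s)) ∧ (∀ z, ∃ s, z ∈ F s) ∧
    ∀ U : Set Z, IsOpen U → IsOpen {s | F s ⊆ U}

/-- usco relations, via ultrafilters -/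
def UR {T Z : Type} [TopologicalSpace T] [TopologicalSpace Z] (R : T → Z → Prop) : Prop :=
  (∀ z, ∃ t, R t z) ∧ ∀ (𝒰 : Ultrafilter (T × Z)) (t : T),
    (∀ᶠ p in (𝒰 : Filter (T × Z)), R p.1 p.2) → Tendsto Prod.fst (𝒰 : Filter (T × Z)) (𝓝 t) →
      ∃ z, R t z ∧ Tendsto Prod.snd (𝒰 : Filter (T × Z)) (𝓝 z)

lemma UR.apply {T Z : Type} [TopologicalSpace T] [TopologicalSpace Z] {R : T → Z → Prop}
    (h : UR R) {ι : Type} (𝒱 : Ultrafilter ι) (t : ι → T) (z : ι → Z)
    (hR : ∀ᶠ i in (𝒱 : Filter ι), R (t i) (z i)) (t0 : T)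
    (ht : Tendsto t (𝒱 : Filter ι) (𝓝 t0)) :
    ∃ z0, R t0 z0 ∧ Tendsto z (𝒱 : Filter ι) (𝓝 z0) := by
  obtain ⟨z0, h1, h2⟩ := h.2 (𝒱.map fun i => (t i, z i)) t0 (by
    rw [Ultrafilter.coe_map, Filter.eventually_map]; exact hR) (by
    rw [Ultrafilter.coe_map, Filter.tendsto_map'_iff]; exact ht)
  refine ⟨z0, h1, ?_⟩
  rw [Ultrafilter.coe_map, Filter.tendsto_map'_iff] at h2
  exact h2

lemma KA.ur {Z : Type} [TopologicalSpace Z] (h : KA Z) : ∃ R : (ℕ → ℕ) → Z → Prop, UR R := by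
  obtain ⟨F, h1, h2, h3⟩ := h
  refine ⟨fun s z => z ∈ F s, h2, ?_⟩
  intro 𝒰 t hR ht
  by_contra hcon
  push Not at hcon
  -- cover `F t`
  have hV : ∀ z ∈ F t, ∃ V : Set Z, IsOpen V ∧ z ∈ V ∧
      ¬ ∀ᶠ p in (𝒰 : Filter ((ℕ → ℕ) × Z)), p.2 ∈ V := by
    intro z hz
    have := hcon z hz
    rw [tendsto_nhds] at this
    push Not at this
    obtain ⟨V, hVo, hzV, hV⟩ := this
    exact ⟨V, hVo, hzV, hV⟩
  choose! V hVo hzV hVn using hV
  obtain ⟨T, hT, hTc⟩ := (h1 t).elim_nhds_subcover V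
    (fun z hz => (hVo z hz).mem_nhds (hzV z hz))
  have hUo : IsOpen (⋃ x ∈ T, V x) := isOpen_biUnion fun x hx => hVo x (hT x hx)
  have h4 : ∀ᶠ p in (𝒰 : Filter ((ℕ → ℕ) × Z)), F p.1 ⊆ ⋃ x ∈ T, V x :=
    ht ((h3 _ hUo).mem_nhds hTc)
  have h5 : ∀ᶠ p in (𝒰 : Filter ((ℕ → ℕ) × Z)), ∀ x ∈ T, p.2 ∉ V x := by
    rw [Filter.eventually_all_finset]
    intro x hx
    exact Ultrafilter.eventually_not.2 (hVn x (hT x hx))
  obtain ⟨p, ⟨hp1, hp2⟩, hp3⟩ := ((h4.and h5).and hR).exists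
  obtain ⟨x, hx, hpx⟩ := mem_iUnion₂.1 (hp1 hp3)
  exact hp2 x hx hpx

lemma KA.of_ur {T Z : Type} [TopologicalSpace T] [TopologicalSpace Z] {R : T → Z → Prop}
    (h : UR R) (φ : (ℕ → ℕ) → T) (hφ : Continuous φ) (hφs : Function.Surjective φ) : KA Z := by
  refine ⟨fun s => {z | R (φ s) z}, ?_, ?_, ?_⟩
  · intro s
    rw [isCompact_iff_ultrafilter_le_nhds]
    intro 𝒱 h𝒱
    rw [Filter.le_principal_iff] at h𝒱
    obtain ⟨z0, hz0, hz⟩ := h.apply 𝒱 (fun _ => φ s) id h𝒱 (φ s) tendsto_const_nhds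
    exact ⟨z0, hz0, hz⟩
  · intro z
    obtain ⟨t, ht⟩ := h.1 z
    obtain ⟨s, rfl⟩ := hφs t
    exact ⟨s, ht⟩
  · intro U hU
    rw [isOpen_iff_mem_nhds]
    intro s hs
    by_contra hcon
    -- the bad filter
    have hfreq : ∃ᶠ s' in 𝓝 s, ∃ z, R (φ s') z ∧ z ∉ U := by
      intro hev
      apply hcon
      filter_upwards [hev] with s' hs' z hz
      by_contra hzU
      exact hs' ⟨z, hz, hzU⟩
    set G : Filter ((ℕ → ℕ) × Z) := Filter.comap Prod.fst (𝓝 s) ⊓ 𝓟 {p | R (φ p.1) p.2 ∧ p.2 ∉ U}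
      with hG
    have hGne : G.NeBot := by
      rw [hG, Filter.inf_principal_neBot_iff]
      intro A hA
      obtain ⟨B, hB, hBA⟩ := Filter.mem_comap.1 hA
      obtain ⟨s', ⟨z, hz⟩, hs'⟩ := (hfreq.and_eventually hB).exists
      exact ⟨(s', z), hBA hs', hz⟩
    set 𝒰 : Ultrafilter ((ℕ → ℕ) × Z) := Ultrafilter.of G with h𝒰
    have h𝒰G : (𝒰 : Filter _) ≤ G := Ultrafilter.of_le G
    have h1 : ∀ᶠ p in (𝒰 : Filter ((ℕ → ℕ) × Z)), R (φ p.1) p.2 ∧ p.2 ∉ U :=
      h𝒰G (Filter.mem_inf_of_right (Filter.mem_principal_self _))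
    have h2 : Tendsto (Prod.fst : (ℕ → ℕ) × Z → (ℕ → ℕ)) (𝒰 : Filter _) (𝓝 s) := by
      rw [Filter.tendsto_iff_comap]
      exact h𝒰G.trans inf_le_left
    obtain ⟨z0, hz0, hz⟩ := h.apply 𝒰 (fun p => φ p.1) Prod.snd (h1.mono fun p hp => hp.1) (φ s)
      ((hφ.tendsto s).comp h2)
    have h3 : ∀ᶠ p in (𝒰 : Filter ((ℕ → ℕ) × Z)), p.2 ∈ U := hz (hU.mem_nhds (hs hz0))
    obtain ⟨p, hp1, hp2⟩ := (h1.and h3).exists
    exact hp1.2 hp2

lemma KA.homeo {Z W : Type} [TopologicalSpace Z] [TopologicalSpace W] (e : Z ≃ₜ W) (h : KA Z) :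
    KA W := by
  obtain ⟨F, h1, h2, h3⟩ := h
  refine ⟨fun s => e '' F s, fun s => (h1 s).image e.continuous, ?_, ?_⟩
  · intro w
    obtain ⟨s, hs⟩ := h2 (e.symm w)
    exact ⟨s, e.symm w, hs, by simp⟩
  · intro U hU
    have := h3 (e ⁻¹' U) (hU.preimage e.continuous)
    simpa only [image_subset_iff] using this

/-- functoriality of `Cp` -/
def cpCongr {Z W : Type} [TopologicalSpace Z] [TopologicalSpace W] (e : Z ≃ₜ W) : Cp Z ≃ₜ Cp W where
  toFun f := ⟨f.1 ∘ e.symm, f.2.comp e.symm.continuous⟩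
  invFun f := ⟨f.1 ∘ e, f.2.comp e.continuous⟩
  left_inv f := by apply Subtype.ext; funext z; simp
  right_inv f := by apply Subtype.ext; funext z; simp
  continuous_toFun := by
    apply Continuous.subtype_mk
    apply continuous_pi
    intro w
    exact (continuous_apply (e.symm w)).comp continuous_subtype_val
  continuous_invFun := by
    apply Continuous.subtype_mk
    apply continuous_pi
    intro w
    exact (continuous_apply (e w)).comp continuous_subtype_val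

lemma eval_cont {Z : Type} [TopologicalSpace Z] (z : Z) : Continuous (fun f : Cp Z => f.1 z) :=
  (continuous_apply z).comp continuous_subtype_val

/-- evaluation map -/
def ev (Z : Type) [TopologicalSpace Z] (z : Z) : Cp (Cp Z) := ⟨fun f => f.1 z, eval_cont z⟩

lemma ev_cont (Z : Type) [TopologicalSpace Z] : Continuous (ev Z) := by
  apply Continuous.subtype_mk
  apply continuous_pi
  intro f
  exact f.2

/-! ### polynomials -/

instance countable_poly : Countable (MvPolynomial ℕ ℚ) := by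
  rw [← Cardinal.mk_le_aleph0_iff]
  refine (MvPolynomial.cardinalMk_le_max).trans ?_
  simp

lemma aeval_cont (p : MvPolynomial ℕ ℚ) :
    Continuous (fun v : ℕ → ℝ => MvPolynomial.aeval v p) := by
  induction p using MvPolynomial.induction_on with
  | C a => simp only [MvPolynomial.aeval_C]; exact continuous_const
  | add p q hp hq => simp only [map_add]; exact hp.add hq
  | mul_X p i hp =>
    simp only [map_mul, MvPolynomial.aeval_X]
    exact hp.mul (continuous_apply i)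

/-- Stone-Weierstrass with rational polynomials -/
lemma sw {Y D : Type} [TopologicalSpace Y] [CompactSpace Y] [Nonempty D] (θ : D → C(Y, ℝ))
    (hθ : ∀ y y' : Y, (∀ d, θ d y = θ d y') → y = y') (f : C(Y, ℝ)) (ε : ℝ) (hε : 0 < ε) :
    ∃ (p : MvPolynomial ℕ ℚ) (d : ℕ → D), ∀ y, |f y - MvPolynomial.aeval (fun i => θ (d i) y) p| < ε := by
  set A : Subalgebra ℚ C(Y, ℝ) := Algebra.adjoin ℚ (range θ) with hA
  -- the closure is a real subalgebra
  let B : Subalgebra ℝ C(Y, ℝ) :=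
    { A.topologicalClosure with
      algebraMap_mem' := by
        intro r
        show algebraMap ℝ C(Y, ℝ) r ∈ closure (A : Set C(Y, ℝ))
        have hc : Continuous (fun r : ℝ => algebraMap ℝ C(Y, ℝ) r) := by
          simp only [Algebra.algebraMap_eq_smul_one]
          fun_prop
        have hr : r ∈ closure (range ((↑) : ℚ → ℝ)) := Rat.denseRange_cast r
        have := image_closure_subset_closure_image hc ⟨r, hr, rfl⟩
        apply closure_mono _ this
        rintro _ ⟨_, ⟨q, rfl⟩, rfl⟩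
        have : algebraMap ℝ C(Y, ℝ) (q : ℝ) = algebraMap ℚ C(Y, ℝ) q := by
          ext y
          simp
        simp only [this]
        exact A.algebraMap_mem q }
  have hBcl : (B : Set C(Y, ℝ)) = closure (A : Set C(Y, ℝ)) := rfl
  have hBsep : B.SeparatesPoints := by
    intro y y' hyy'
    by_contra hcon
    push Not at hcon
    apply hyy'
    apply hθ
    intro d
    exact hcon _ ⟨θ d, subset_closure (Algebra.subset_adjoin ⟨d, rfl⟩), rfl⟩
  have hBtop := ContinuousMap.subalgebra_topologicalClosure_eq_top_of_separatesPoints B hBsep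
  have hf : f ∈ closure (A : Set C(Y, ℝ)) := by
    have h1 : f ∈ B.topologicalClosure := by rw [hBtop]; exact Algebra.mem_top
    have h2 : f ∈ closure (B : Set C(Y, ℝ)) := h1
    rwa [hBcl, closure_closure] at h2
  obtain ⟨g, hg, hfg⟩ := Metric.mem_closure_iff.1 hf ε hε
  have hg' : g ∈ Algebra.adjoin ℚ (range θ) := hg
  rw [Algebra.adjoin_range_eq_range_aeval] at hg'
  obtain ⟨P, hP⟩ := hg'
  obtain ⟨n, φ, hφ, q, rfl⟩ := MvPolynomial.exists_fin_rename P
  obtain ⟨d0⟩ := ‹Nonempty D›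
  refine ⟨MvPolynomial.rename (Fin.val) q, fun i => if h : i < n then φ ⟨i, h⟩ else d0, ?_⟩
  intro y
  have e1 : MvPolynomial.aeval (fun i => θ (if h : i < n then φ ⟨i, h⟩ else d0) y)
      (MvPolynomial.rename (Fin.val) q) = g y := by
    rw [MvPolynomial.aeval_rename, ← hP]
    have e2 : ((fun i => θ (if h : i < n then φ ⟨i, h⟩ else d0) y) ∘ (Fin.val : Fin n → ℕ)) =
        fun i => θ (φ i) y := by
      funext i
      simp
    rw [e2]
    show _ = (MvPolynomial.aeval θ (MvPolynomial.rename φ q)) y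
    rw [MvPolynomial.aeval_rename]
    -- evaluation at `y` is an algebra hom
    let E : C(Y, ℝ) →ₐ[ℚ] ℝ := (ContinuousMap.evalAlgHom ℚ ℝ y)
    have := MvPolynomial.comp_aeval_apply (f := θ ∘ φ) E q
    exact this.symm
  rw [e1]
  have := ContinuousMap.dist_apply_le_dist (f := f) (g := g) y
  rw [Real.dist_eq] at this
  linarith

/-! ### products: the space of formal polynomials in elements of `D` -/

lemma ur_poly {D : Type} [TopologicalSpace D] {R : (ℕ → ℕ) → D → Prop} (h : UR R) :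
    UR (fun (t : ℕ × (ℕ → ℕ → ℕ)) (z : ℕ × (ℕ → D)) => t.1 = z.1 ∧ ∀ i, R (t.2 i) (z.2 i)) := by
  constructor
  · rintro ⟨j, d⟩
    choose s hs using fun i => h.1 (d i)
    exact ⟨(j, s), rfl, hs⟩
  · rintro 𝒰 ⟨j0, b0⟩ hR ht
    have ht1 : Tendsto (fun p : (ℕ × (ℕ → ℕ → ℕ)) × (ℕ × (ℕ → D)) => p.1.1) (𝒰 : Filter _)
        (𝓝 j0) := (continuous_fst.tendsto (j0, b0)).comp ht
    have ht2 : ∀ i, Tendsto (fun p : (ℕ × (ℕ → ℕ → ℕ)) × (ℕ × (ℕ → D)) => p.1.2 i) (𝒰 : Filter _)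
        (𝓝 (b0 i)) := fun i =>
      (((continuous_apply i).comp continuous_snd).tendsto (j0, b0)).comp ht
    have h3 : ∀ i, ∃ d0, R (b0 i) d0 ∧
        Tendsto (fun p : (ℕ × (ℕ → ℕ → ℕ)) × (ℕ × (ℕ → D)) => p.2.2 i) (𝒰 : Filter _) (𝓝 d0) :=
      fun i => h.apply 𝒰 _ _ (hR.mono fun p hp => hp.2 i) (b0 i) (ht2 i)
    choose d0 hd0 hd using h3
    refine ⟨(j0, d0), ⟨rfl, hd0⟩, ?_⟩
    rw [nhds_prod_eq]
    apply Filter.Tendsto.prodMk _ (tendsto_pi_nhds.2 hd)
    rw [nhds_discrete, Filter.tendsto_pure] at ht1 ⊢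
    filter_upwards [ht1, hR] with p hp hp'
    rw [← hp'.1]; exact hp

lemma surj_of_equiv {β : Type} (e : ℕ ≃ β) :
    ∃ φ : (ℕ → ℕ) → (β → ℕ), Continuous φ ∧ Function.Surjective φ := by
  refine ⟨fun s b => s (e.symm b), ?_, ?_⟩
  · fun_prop
  · intro g
    exact ⟨fun k => g (e k), by funext b; simp⟩

lemma KA.poly {D : Type} [TopologicalSpace D] (h : KA D) : KA (ℕ × (ℕ → D)) := by
  obtain ⟨R, hR⟩ := h.ur
  obtain ⟨e⟩ : Nonempty (ℕ ≃ (Unit ⊕ ℕ × ℕ)) := nonempty_equiv_of_countable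
  obtain ⟨φ, hφ, hφs⟩ := surj_of_equiv e
  refine KA.of_ur (ur_poly hR) (fun s => (φ s (Sum.inl ()), fun i m => φ s (Sum.inr (i, m)))) ?_ ?_
  · fun_prop
  · rintro ⟨j, b⟩
    obtain ⟨s, hs⟩ := hφs (Sum.elim (fun _ => j) (fun q => b q.1 q.2))
    refine ⟨s, ?_⟩
    simp only [hs]
    rfl

/-- Talagrand-type lemma. -/
theorem KA.cp {Y D : Type} [TopologicalSpace Y] [CompactSpace Y] [TopologicalSpace D] [Nonempty D]
    (h : KA D) (θ : D → Cp Y) (hθc : Continuous θ)
    (hθ : ∀ y y' : Y, (∀ d, (θ d).1 y = (θ d).1 y') → y = y') : KA (Cp Y) := by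
  obtain ⟨R, hR⟩ := h.ur
  obtain ⟨pn, hpn⟩ : ∃ pn : ℕ → MvPolynomial ℕ ℚ, Function.Surjective pn :=
    exists_surjective_nat _
  let T := (ℕ → ℕ) × (ℕ → ℕ → ℕ → ℕ)
  let Q : T → Cp Y → Prop := fun t f => ∀ n, ∃ d : ℕ → D, (∀ i, R (t.2 n i) (d i)) ∧
    ∀ y, |f.1 y - MvPolynomial.aeval (fun i => (θ (d i)).1 y) (pn (t.1 n))| ≤ 1 / ((n : ℝ) + 1)
  have hQ : UR Q := by
    constructor
    · intro f
      have h1 : ∀ n : ℕ, ∃ (a : ℕ) (b : ℕ → ℕ → ℕ) (d : ℕ → D), (∀ i, R (b i) (d i)) ∧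
          ∀ y, |f.1 y - MvPolynomial.aeval (fun i => (θ (d i)).1 y) (pn a)| ≤ 1 / ((n : ℝ) + 1) := by
        intro n
        obtain ⟨p, d, hpd⟩ := sw (fun d => (⟨(θ d).1, (θ d).2⟩ : C(Y, ℝ))) hθ ⟨f.1, f.2⟩
          (1 / ((n : ℝ) + 1)) (by positivity)
        obtain ⟨a, rfl⟩ := hpn p
        choose b hb using fun i => hR.1 (d i)
        exact ⟨a, b, d, hb, fun y => (hpd y).le⟩
      choose a b d hb hd using h1
      exact ⟨(a, b), fun n => ⟨d n, hb n, hd n⟩⟩
    · rintro 𝒰 ⟨a0, b0⟩ hev ht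
      have hta : ∀ n, Tendsto (fun p : T × Cp Y => p.1.1 n) (𝒰 : Filter _) (𝓝 (a0 n)) := fun n =>
        (((continuous_apply n).comp continuous_fst).tendsto (a0, b0)).comp ht
      have htb : ∀ n i, Tendsto (fun p : T × Cp Y => p.1.2 n i) (𝒰 : Filter _) (𝓝 (b0 n i)) :=
        fun n i => ((show Continuous (fun t : (ℕ → ℕ) × (ℕ → ℕ → ℕ → ℕ) => t.2 n i) by
          fun_prop).tendsto (a0, b0)).comp ht
      -- choose the witnesses
      obtain ⟨d00⟩ := ‹Nonempty D›
      have hdd : ∃ dd : T × Cp Y → ℕ → ℕ → D, ∀ p, Q p.1 p.2 → ∀ n, (∀ i, R (p.1.2 n i) (dd p n i)) ∧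
          ∀ y, |p.2.1 y - MvPolynomial.aeval (fun i => (θ (dd p n i)).1 y) (pn (p.1.1 n))| ≤
            1 / ((n : ℝ) + 1) := by
        classical
        refine ⟨fun p n => if hp : Q p.1 p.2 then (hp n).choose else fun _ => d00, ?_⟩
        intro p hp n
        simp only [hp, dif_pos]
        exact (hp n).choose_spec
      obtain ⟨dd, hdd⟩ := hdd
      have h3 : ∀ n i, ∃ z, R (b0 n i) z ∧ Tendsto (fun p => dd p n i) (𝒰 : Filter _) (𝓝 z) :=
        fun n i => hR.apply 𝒰 (fun p => p.1.2 n i) (fun p => dd p n i)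
          (hev.mono fun p hp => (hdd p hp n).1 i) (b0 n i) (htb n i)
      choose d0 hd0 hd0t using h3
      let g : ℕ → Y → ℝ := fun n y => MvPolynomial.aeval (fun i => (θ (d0 n i)).1 y) (pn (a0 n))
      have hgc : ∀ n, Continuous (g n) := by
        intro n
        apply (aeval_cont _).comp
        apply continuous_pi
        intro i
        exact (θ (d0 n i)).2
      have hgt : ∀ n y, Tendsto (fun p : T × Cp Y =>
          MvPolynomial.aeval (fun i => (θ (dd p n i)).1 y) (pn (p.1.1 n))) (𝒰 : Filter _)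
            (𝓝 (g n y)) := by
        intro n y
        have h4 : Tendsto (fun p : T × Cp Y =>
          MvPolynomial.aeval (fun i => (θ (dd p n i)).1 y) (pn (a0 n))) (𝒰 : Filter _)
            (𝓝 (g n y)) := by
          apply ((aeval_cont (pn (a0 n))).tendsto (fun i => (θ (d0 n i)).1 y)).comp
          rw [tendsto_pi_nhds]
          intro i
          exact (((eval_cont y).comp hθc).tendsto (d0 n i)).comp (hd0t n i)
        apply h4.congr'
        have h5 := hta n
        rw [nhds_discrete, Filter.tendsto_pure] at h5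
        filter_upwards [h5] with p hp
        rw [hp]
      -- the limit of `f`
      have hlim : ∀ y, ∃ c, Tendsto (fun p : T × Cp Y => p.2.1 y) (𝒰 : Filter _) (𝓝 c) := by
        intro y
        have h6 : ∀ᶠ p : T × Cp Y in (𝒰 : Filter _), p.2.1 y ∈ Icc (g 0 y - 2) (g 0 y + 2) := by
          have h7 : ∀ᶠ p : T × Cp Y in (𝒰 : Filter _),
              |MvPolynomial.aeval (fun i => (θ (dd p 0 i)).1 y) (pn (p.1.1 0)) - g 0 y| < 1 := by
            have := Metric.tendsto_nhds.1 (hgt 0 y) 1 one_pos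
            simpa only [Real.dist_eq] using this
          filter_upwards [h7, hev] with p hp hp'
          have h8 := (hdd p hp' 0).2 y
          rw [abs_lt] at hp
          norm_num at h8
          rw [abs_le] at h8
          constructor <;> linarith
        obtain ⟨c, _, hc⟩ := isCompact_iff_ultrafilter_le_nhds.1
          (isCompact_Icc (a := g 0 y - 2) (b := g 0 y + 2)) (𝒰.map fun p => p.2.1 y) (by
            rw [Filter.le_principal_iff]; exact h6)
        exact ⟨c, hc⟩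
      choose f0 hf0 using hlim
      have hfg : ∀ n y, |f0 y - g n y| ≤ 1 / ((n : ℝ) + 1) := by
        intro n y
        have h9 := ((hf0 y).sub (hgt n y)).abs
        apply le_of_tendsto h9
        filter_upwards [hev] with p hp
        exact (hdd p hp n).2 y
      have hf0c : Continuous f0 := by
        have hu : TendstoUniformly g f0 atTop := by
          rw [Metric.tendstoUniformly_iff]
          intro ε hε
          obtain ⟨N, hN⟩ := exists_nat_one_div_lt hε
          filter_upwards [eventually_ge_atTop N] with n hn y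
          rw [Real.dist_eq]
          refine lt_of_le_of_lt (hfg n y) (lt_of_le_of_lt ?_ hN)
          apply one_div_le_one_div_of_le (by positivity)
          have : (N : ℝ) ≤ n := by exact_mod_cast hn
          linarith
        exact hu.continuous (Filter.Frequently.of_forall hgc)
      refine ⟨⟨f0, hf0c⟩, fun n => ⟨d0 n, hd0 n, hfg n⟩, ?_⟩
      rw [tendsto_subtype_rng, tendsto_pi_nhds]
      exact hf0
  obtain ⟨e⟩ : Nonempty (ℕ ≃ (ℕ ⊕ ℕ × ℕ × ℕ)) := nonempty_equiv_of_countable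
  obtain ⟨φ, hφ, hφs⟩ := surj_of_equiv e
  refine KA.of_ur hQ (fun s => (fun n => φ s (Sum.inl n), fun n i m => φ s (Sum.inr (n, i, m)))) ?_ ?_
  · fun_prop
  · rintro ⟨a, b⟩
    obtain ⟨s, hs⟩ := hφs (Sum.elim a (fun q => b q.1 q.2.1 q.2.2))
    refine ⟨s, ?_⟩
    simp only [hs]
    rfl

/-! ### the inductive property -/

def P (Z : Type) [TopologicalSpace Z] : Prop :=
  ∃ (D : Type) (_ : TopologicalSpace D) (e : D → Z), Nonempty D ∧ KA D ∧ Continuous e ∧
    ∀ φ ψ : Cp Z, (∀ d, φ.1 (e d) = ψ.1 (e d)) → φ = ψ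

lemma P.homeo {Z W : Type} [TopologicalSpace Z] [TopologicalSpace W] (h : Z ≃ₜ W) (hP : P Z) :
    P W := by
  obtain ⟨D, _, e, h1, h2, h3, h4⟩ := hP
  refine ⟨D, _, fun d => h (e d), h1, h2, h.continuous.comp h3, ?_⟩
  intro φ ψ hd
  have := h4 ⟨φ.1 ∘ h, φ.2.comp h.continuous⟩ ⟨ψ.1 ∘ h, ψ.2.comp h.continuous⟩ hd
  apply Subtype.ext
  funext w
  have h5 := congrFun (congrArg Subtype.val this) (h.symm w)
  simpa using h5

lemma P_self {Z : Type} [TopologicalSpace Z] [Nonempty Z] (h : KA Z) : P Z :=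
  ⟨Z, _, id, inferInstance, h, continuous_id, fun φ ψ hd => Subtype.ext (funext hd)⟩

lemma P.step {Z : Type} [TopologicalSpace Z] (hP : P Z) : P (Cp (Cp Z)) := by
  obtain ⟨D, _, e, ⟨d0⟩, h2, h3, h4⟩ := hP
  obtain ⟨pn, hpn⟩ : ∃ pn : ℕ → MvPolynomial ℕ ℚ, Function.Surjective pn :=
    exists_surjective_nat _
  let e' : ℕ × (ℕ → D) → Cp (Cp Z) := fun q =>
    ⟨fun φ => MvPolynomial.aeval (fun i => φ.1 (e (q.2 i))) (pn q.1), by
      apply (aeval_cont _).comp
      apply continuous_pi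
      intro i
      exact eval_cont _⟩
  refine ⟨ℕ × (ℕ → D), _, e', ⟨(0, fun _ => d0)⟩, h2.poly, ?_, ?_⟩
  · apply Continuous.subtype_mk
    apply continuous_pi
    intro φ
    rw [continuous_prod_of_discrete_left]
    intro j
    apply (aeval_cont (pn j)).comp
    apply continuous_pi
    intro i
    exact (φ.2.comp h3).comp (continuous_apply i)
  · intro Φ Ψ hd
    apply Subtype.ext
    apply Continuous.ext_on (s := range e') _ Φ.2 Ψ.2
    · rintro _ ⟨q, rfl⟩; exact hd q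
    · -- density
      intro g
      rw [mem_closure_iff_nhds]
      intro N hN
      obtain ⟨W, hW, hWN⟩ := (mem_nhds_subtype _ _ _).1 hN
      rw [nhds_pi, Filter.mem_pi'] at hW
      obtain ⟨I, u, hu, hIu⟩ := hW
      have hev : ∀ᶠ ε : ℝ in 𝓝[>] 0, ∀ φ ∈ I, Metric.ball (g.1 φ) ε ⊆ u φ := by
        rw [Filter.eventually_all_finset]
        intro φ _
        obtain ⟨δ, hδ, hδ'⟩ := Metric.mem_nhds_iff.1 (hu φ)
        have : Set.Ioo (0 : ℝ) δ ∈ 𝓝[>] (0 : ℝ) := Ioo_mem_nhdsGT hδ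
        filter_upwards [this] with ε hε
        exact (Metric.ball_subset_ball hε.2.le).trans hδ'
      obtain ⟨ε, hε1, hε0⟩ := (hev.and self_mem_nhdsWithin).exists
      have hε0' : 0 < ε := hε0
      have : Nonempty D := ⟨d0⟩
      obtain ⟨p, d, hpd⟩ := sw (Y := I) (D := D)
        (fun d => ⟨fun φ => φ.1.1 (e d), (eval_cont (e d)).comp continuous_subtype_val⟩)
        (fun φ ψ hφψ => Subtype.ext (h4 φ.1 ψ.1 hφψ)) ⟨fun φ => g.1 φ.1,
          g.2.comp continuous_subtype_val⟩ ε hε0'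
      obtain ⟨j, rfl⟩ := hpn p
      refine ⟨e' (j, d), hWN (hIu ?_), ⟨(j, d), rfl⟩⟩
      intro φ hφ
      apply hε1 φ hφ
      rw [Metric.mem_ball, dist_comm, Real.dist_eq]
      exact hpd ⟨φ, hφ⟩

/-- functional Hausdorffness -/
def FH (Z : Type) [TopologicalSpace Z] : Prop := ∀ z z' : Z, (∀ φ : Cp Z, φ.1 z = φ.1 z') → z = z'

lemma FH.homeo {Z W : Type} [TopologicalSpace Z] [TopologicalSpace W] (h : Z ≃ₜ W) (hP : FH Z) :
    FH W := by
  intro w w' hw
  have := hP (h.symm w) (h.symm w') (fun φ => hw ⟨φ.1 ∘ h.symm, φ.2.comp h.symm.continuous⟩)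
  exact h.symm.injective this

lemma FH_cp (Z : Type) [TopologicalSpace Z] : FH (Cp Z) := by
  intro f g h
  apply Subtype.ext
  funext z
  exact h (ev Z z)

lemma FH_compact (Y : Type) [TopologicalSpace Y] [CompactSpace Y] [T2Space Y] : FH Y := by
  intro y y' h
  by_contra hne
  obtain ⟨f, hf0, hf1, _⟩ := exists_continuous_zero_one_of_isClosed (isClosed_singleton (x := y))
    (isClosed_singleton (x := y')) (by simpa using hne)
  have h1 := h ⟨f, f.continuous⟩
  have h2 : f y = 0 := hf0 rfl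
  have h3 : f y' = 1 := hf1 rfl
  simp only [h2, h3] at h1
  exact zero_ne_one h1

/-- a continuous injection -/
def CI (Y Z : Type) [TopologicalSpace Y] [TopologicalSpace Z] : Prop :=
  ∃ f : Y → Z, Continuous f ∧ Function.Injective f

lemma CI.step {Y Z : Type} [TopologicalSpace Y] [TopologicalSpace Z] (h : CI Y Z) (hZ : FH Z) :
    CI Y (Cp (Cp Z)) := by
  obtain ⟨f, hf, hfi⟩ := h
  refine ⟨fun y => ev Z (f y), (ev_cont Z).comp hf, ?_⟩
  intro y y' hy
  apply hfi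
  apply hZ
  intro φ
  exact congrFun (congrArg Subtype.val hy) φ

lemma CI.homeo {Y Z W : Type} [TopologicalSpace Y] [TopologicalSpace Z] [TopologicalSpace W]
    (h : CI Y Z) (e : Z ≃ₜ W) : CI Y W := by
  obtain ⟨f, hf, hfi⟩ := h
  exact ⟨e ∘ f, e.continuous.comp hf, e.injective.comp hfi⟩

theorem half (X Y : Type) [TopologicalSpace X] [TopologicalSpace Y] [CompactSpace Y] [T2Space Y]
    (n : ℕ) (A B : ℕ → Type) [∀ k, TopologicalSpace (A k)] [∀ k, TopologicalSpace (B k)]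
    (hA0 : Nonempty (A 0 ≃ₜ X)) (hA : ∀ k, Nonempty (A (k + 1) ≃ₜ Cp (A k)))
    (hB0 : Nonempty (B 0 ≃ₜ Y)) (hB : ∀ k, Nonempty (B (k + 1) ≃ₜ Cp (B k)))
    (hAB : Nonempty (A n ≃ₜ B n)) (h : KA (Cp X)) : KA (Cp Y) := by
  -- all later stages are homeomorphic
  have hlater : ∀ m, Nonempty (A (n + m) ≃ₜ B (n + m)) := by
    intro m
    induction m with
    | zero => exact hAB
    | succ m ih =>
      obtain ⟨e⟩ := ih
      obtain ⟨e1⟩ := hA (n + m)
      obtain ⟨e2⟩ := hB (n + m)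
      exact ⟨(e1.trans (cpCongr e)).trans e2.symm⟩
  -- odd stages of `A`
  have hodd : ∀ j, P (A (2 * j + 1)) := by
    intro j
    induction j with
    | zero =>
      obtain ⟨e0⟩ := hA0
      obtain ⟨e1⟩ := hA 0
      have : Nonempty (Cp X) := ⟨⟨fun _ => 0, continuous_const⟩⟩
      exact (P_self h).homeo ((cpCongr e0.symm).trans e1.symm)
    | succ j ih =>
      obtain ⟨e1⟩ := hA (2 * j + 1)
      obtain ⟨e2⟩ := hA (2 * j + 1 + 1)
      exact ih.step.homeo ((cpCongr e1.symm).trans e2.symm)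
  -- even stages of `B`
  have heven : ∀ j, CI Y (B (2 * j)) ∧ FH (B (2 * j)) := by
    intro j
    induction j with
    | zero =>
      obtain ⟨e0⟩ := hB0
      exact ⟨⟨e0.symm, e0.symm.continuous, e0.symm.injective⟩, (FH_compact Y).homeo e0.symm⟩
    | succ j ih =>
      obtain ⟨e1⟩ := hB (2 * j)
      obtain ⟨e2⟩ := hB (2 * j + 1)
      have e3 : Cp (Cp (B (2 * j))) ≃ₜ B (2 * (j + 1)) := (cpCongr e1.symm).trans e2.symm
      exact ⟨(ih.1.step ih.2).homeo e3, (FH_cp _).homeo e3⟩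
  obtain ⟨e⟩ := hlater (n + 2)
  have hidx : n + (n + 2) = 2 * (n + 1) := by ring
  rw [hidx] at e
  obtain ⟨e1⟩ := hA (2 * n + 1)
  obtain ⟨κ, hκ, hκi⟩ := ((heven (n + 1)).1.homeo e.symm).homeo e1
  obtain ⟨D, _, ed, hD, hKD, hec, hsep⟩ := hodd n
  refine KA.cp hKD (fun d => (⟨fun y => (κ y).1 (ed d), (eval_cont (ed d)).comp hκ⟩ : Cp Y)) ?_ ?_
  · apply Continuous.subtype_mk
    apply continuous_pi
    intro y
    exact (κ y).2.comp hec
  · intro y y' hyy'
    exact hκi (hsep _ _ hyy')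

/-- For compact Hausdorff X, Y: if the n-th iterated pointwise function spaces C_{p,n}(X) and C_{p,n}(Y) are homeomorphic, then C_p(X) is K-analytic (compact-valued usco cover from Baire space) iff C_p(Y) is. -/
theorem result :
    ∀ (X Y : Type) [TopologicalSpace X] [TopologicalSpace Y],
      CompactSpace X → T2Space X → CompactSpace Y → T2Space Y →
      ∀ (n : ℕ) (A B : ℕ → Type) [∀ k, TopologicalSpace (A k)] [∀ k, TopologicalSpace (B k)],
        Nonempty (A 0 ≃ₜ X) →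
        (∀ k, Nonempty (A (k + 1) ≃ₜ {f : A k → ℝ // Continuous f})) →
        Nonempty (B 0 ≃ₜ Y) →
        (∀ k, Nonempty (B (k + 1) ≃ₜ {f : B k → ℝ // Continuous f})) →
        Nonempty (A n ≃ₜ B n) →
        ((∃ F : (ℕ → ℕ) → Set {f : X → ℝ // Continuous f},
            (∀ s, IsCompact (F s)) ∧ (∀ z, ∃ s, z ∈ F s) ∧
            ∀ U : Set {f : X → ℝ // Continuous f}, IsOpen U → IsOpen {s | F s ⊆ U}) ↔
         (∃ F : (ℕ → ℕ) → Set {f : Y → ℝ // Continuous f},
            (∀ s, IsCompact (F s)) ∧ (∀ z, ∃ s, z ∈ F s) ∧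
            ∀ U : Set {f : Y → ℝ // Continuous f}, IsOpen U → IsOpen {s | F s ⊆ U})) := by
  intro X Y _ _ hXc hXt hYc hYt n A B _ _ hA0 hA hB0 hB hAB
  constructor
  · intro h
    exact half X Y n A B hA0 hA hB0 hB hAB h
  · intro h
    obtain ⟨e⟩ := hAB
    exact half Y X n B A hB0 hB hA0 hA ⟨e.symm⟩ h

end Pool.Agent.S08709
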