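import Pool.Statements.S08730

set_option autoImplicit false
open Pool Pool.MP_1501ba_gt

namespace Pool.Agent.S08730

open Set Filter Topology

section general

variable {M : Type} [MetricSpace M] [CompactSpace M]

/-- `F` restricted to the closed set `D` is a monotone map onto `[0,1]`. -/
def MO (F : M → ℝ) (D : Set M) : Prop :=
  IsClosed D ∧ ∀ y ∈ Icc (0 : ℝ) 1, IsConnected (D ∩ F ⁻¹' {y})

lemma MO.interval {F : M → ℝ} {D : Set M} (hF : Continuous F) (h : MO F D) {a b : ℝ}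
    (ha : 0 ≤ a) (hb : b ≤ 1) : IsPreconnected (D ∩ F ⁻¹' Icc a b) := by
  rw [isPreconnected_closed_iff]
  intro t t' ht ht' hcov hne hne'
  have hs : IsClosed (D ∩ F ⁻¹' Icc a b) := h.1.inter (isClosed_Icc.preimage hF)
  have hT : IsClosed (F '' ((D ∩ F ⁻¹' Icc a b) ∩ t)) := ((hs.inter ht).isCompact.image hF).isClosed
  have hT' : IsClosed (F '' ((D ∩ F ⁻¹' Icc a b) ∩ t')) :=
    ((hs.inter ht').isCompact.image hF).isClosed
  have hcov' : Icc a b ⊆ F '' ((D ∩ F ⁻¹' Icc a b) ∩ t) ∪ F '' ((D ∩ F ⁻¹' Icc a b) ∩ t') := by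
    intro y hy
    obtain ⟨d, hd, hdy⟩ := (h.2 y ⟨ha.trans hy.1, hy.2.trans hb⟩).nonempty
    have hdy' : F d = y := hdy
    have hds : d ∈ D ∩ F ⁻¹' Icc a b := ⟨hd, by rw [mem_preimage, hdy']; exact hy⟩
    rcases hcov hds with h1 | h1
    · left; exact ⟨d, ⟨hds, h1⟩, hdy'⟩
    · right; exact ⟨d, ⟨hds, h1⟩, hdy'⟩
  obtain ⟨x1, hx1, hx1t⟩ := hne
  obtain ⟨x2, hx2, hx2t⟩ := hne'
  obtain ⟨y, hy, ⟨d1, ⟨⟨hd1, _⟩, hd1t⟩, hd1y⟩, ⟨d2, ⟨⟨hd2, _⟩, hd2t⟩, hd2y⟩⟩ :=
    isPreconnected_closed_iff.1 (isPreconnected_Icc (a := a) (b := b)) _ _ hT hT' hcov'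
      ⟨F x1, hx1.2, x1, ⟨hx1, hx1t⟩, rfl⟩ ⟨F x2, hx2.2, x2, ⟨hx2, hx2t⟩, rfl⟩
  have hfib : D ∩ F ⁻¹' {y} ⊆ D ∩ F ⁻¹' Icc a b := fun d hd =>
    ⟨hd.1, by have : F d = y := hd.2; rw [mem_preimage, this]; exact hy⟩
  obtain ⟨d, hd, hdt⟩ := isPreconnected_closed_iff.1
    (h.2 y ⟨ha.trans hy.1, hy.2.trans hb⟩).isPreconnected t t' ht ht' (hfib.trans hcov)
    ⟨d1, ⟨hd1, hd1y⟩, hd1t⟩ ⟨d2, ⟨hd2, hd2y⟩, hd2t⟩
  exact ⟨d, hfib hd, hdt⟩

/-- limit of monotone restrictions -/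
lemma MO.limit (𝒰 : Ultrafilter ℕ) (F : ℕ → C(M, ℝ)) (G : C(M, ℝ))
    (hF01 : ∀ n a, F n a ∈ Icc (0 : ℝ) 1)
    (hFG : Tendsto F (𝒰 : Filter ℕ) (𝓝 G)) (D : ℕ → Set M) (hD : ∀ n, MO (F n) (D n)) :
    MO G {a | ∀ V ∈ 𝓝 a, ∀ᶠ n in (𝒰 : Filter ℕ), (D n ∩ V).Nonempty} := by
  set E : Set M := {a | ∀ V ∈ 𝓝 a, ∀ᶠ n in (𝒰 : Filter ℕ), (D n ∩ V).Nonempty} with hE
  have hEc : IsClosed E := by
    rw [← closure_subset_iff_isClosed]
    intro a ha V hV
    obtain ⟨W, hWV, hW, haW⟩ := mem_nhds_iff.1 hV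
    obtain ⟨b, hbW, hbE⟩ := mem_closure_iff_nhds.1 ha W (hW.mem_nhds haW)
    exact (hbE W (hW.mem_nhds hbW)).mono fun n hn => hn.mono (inter_subset_inter_right _ hWV)
  -- limits of points of `D n` are in `E`
  have hlim : ∀ x : ℕ → M, (∀ᶠ n in (𝒰 : Filter ℕ), x n ∈ D n) → ∃ a ∈ E,
      Tendsto x (𝒰 : Filter ℕ) (𝓝 a) := by
    intro x hx
    obtain ⟨a, _, ha⟩ := isCompact_iff_ultrafilter_le_nhds.1 (isCompact_univ (X := M))
      (𝒰.map x) (by simp)
    refine ⟨a, ?_, ha⟩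
    intro V hV
    have h1 : ∀ᶠ n in (𝒰 : Filter ℕ), x n ∈ V := ha hV
    filter_upwards [h1, hx] with n hn hn'
    exact ⟨x n, hn', hn⟩
  have hunif : ∀ ε > 0, ∀ᶠ n in (𝒰 : Filter ℕ), ∀ a, |F n a - G a| < ε := by
    intro ε hε
    have := Metric.tendsto_nhds.1 hFG ε hε
    filter_upwards [this] with n hn a
    rw [← Real.dist_eq]
    exact (ContinuousMap.dist_apply_le_dist a).trans_lt hn
  have hval : ∀ x : ℕ → M, ∀ a, Tendsto x (𝒰 : Filter ℕ) (𝓝 a) →
      Tendsto (fun n => F n (x n)) (𝒰 : Filter ℕ) (𝓝 (G a)) := by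
    intro x a hx
    rw [Metric.tendsto_nhds]
    intro ε hε
    have h1 := Metric.tendsto_nhds.1 ((G.continuous.tendsto a).comp hx) (ε / 2) (by positivity)
    filter_upwards [h1, hunif (ε / 2) (by positivity)] with n hn hn'
    have h2 := hn' (x n)
    rw [Real.dist_eq] at hn ⊢
    simp only [Function.comp_apply] at hn
    rw [abs_lt] at *
    constructor <;> linarith
  refine ⟨hEc, ?_⟩
  intro y hy
  have hne : (E ∩ G ⁻¹' {y}).Nonempty := by
    choose x hx using fun n => ((hD n).2 y hy).nonempty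
    obtain ⟨a, ha, hxa⟩ := hlim x (Eventually.of_forall fun n => (hx n).1)
    refine ⟨a, ha, ?_⟩
    have h1 := hval x a hxa
    have h2 : (fun n => F n (x n)) = fun _ => y := by funext n; exact (hx n).2
    rw [h2] at h1
    exact (tendsto_nhds_unique h1 tendsto_const_nhds)
  refine ⟨hne, ?_⟩
  -- connectedness
  rw [isPreconnected_closed_iff]
  intro t t' ht ht' hcov hnt hnt'
  by_contra hcon
  rw [not_nonempty_iff_eq_empty] at hcon
  set P : Set M := (E ∩ G ⁻¹' {y}) ∩ t with hP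
  set Q : Set M := (E ∩ G ⁻¹' {y}) ∩ t' with hQ
  have hfc : IsClosed (E ∩ G ⁻¹' {y}) := hEc.inter (isClosed_singleton.preimage G.continuous)
  have hPQ : Disjoint P Q := by
    rw [Set.disjoint_iff]
    rintro a ⟨⟨h1, h2⟩, ⟨_, h3⟩⟩
    have : a ∈ (E ∩ G ⁻¹' {y}) ∩ (t ∩ t') := ⟨h1, h2, h3⟩
    rw [hcon] at this
    exact this
  obtain ⟨O, O', hO, hO', hPO, hQO, hOO⟩ := normal_separation (hfc.inter ht) (hfc.inter ht') hPQ
  -- near level `y`, the limit set is in `O ∪ O'`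
  have hbad : ∃ ε > 0, ∀ᶠ n in (𝒰 : Filter ℕ), ∀ d ∈ D n, |F n d - y| ≤ ε → d ∈ O ∪ O' := by
    by_contra hc
    push Not at hc
    have h1 : ∀ k : ℕ, ∀ᶠ n in (𝒰 : Filter ℕ), ∃ d ∈ D n, |F n d - y| ≤ 1 / ((k : ℝ) + 1) ∧
        d ∉ O ∪ O' := by
      intro k
      exact hc (1 / ((k : ℝ) + 1)) (by positivity)
    -- the limit points of such bad sequences
    have h2 : ∀ k : ℕ, ∃ a ∈ E, |G a - y| ≤ 1 / ((k : ℝ) + 1) ∧ a ∉ O ∪ O' := by
      intro k
      have hM : Nonempty M := ⟨hne.choose⟩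
      have h3 : ∃ x : ℕ → M, ∀ᶠ n in (𝒰 : Filter ℕ), x n ∈ D n ∧
          |F n (x n) - y| ≤ 1 / ((k : ℝ) + 1) ∧ x n ∉ O ∪ O' := by
        classical
        refine ⟨fun n => if hn : ∃ d ∈ D n, |F n d - y| ≤ 1 / ((k : ℝ) + 1) ∧ d ∉ O ∪ O' then
          hn.choose else hM.some, ?_⟩
        filter_upwards [h1 k] with n hn
        simp only [hn, dif_pos]
        exact hn.choose_spec
      obtain ⟨x, hx⟩ := h3
      obtain ⟨a, ha, hxa⟩ := hlim x (hx.mono fun n hn => hn.1)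
      refine ⟨a, ha, ?_, ?_⟩
      · have h4 := ((hval x a hxa).sub_const y).abs
        exact le_of_tendsto h4 (hx.mono fun n hn => hn.2.1)
      · have hcl : IsClosed (O ∪ O')ᶜ := (hO.union hO').isClosed_compl
        exact hcl.mem_of_tendsto hxa (hx.mono fun n hn => hn.2.2)
    choose a haE haG haO using h2
    obtain ⟨b, _, φ, hφ, hb⟩ := isCompact_univ.tendsto_subseq (fun n => mem_univ (a n))
    have hbE : b ∈ E := hEc.mem_of_tendsto hb (Eventually.of_forall fun n => haE _)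
    have hbO : b ∈ (O ∪ O')ᶜ :=
      (hO.union hO').isClosed_compl.mem_of_tendsto hb (Eventually.of_forall fun n => haO _)
    have hbG : G b = y := by
      have h5 : Tendsto (fun n => |G (a (φ n)) - y|) atTop (𝓝 |G b - y|) :=
        (((G.continuous.tendsto b).comp hb).sub_const y).abs
      have h6 : Tendsto (fun n : ℕ => 1 / (((φ n : ℕ) : ℝ) + 1)) atTop (𝓝 0) :=
        (tendsto_one_div_add_atTop_nhds_zero_nat).comp hφ.tendsto_atTop
      have h7 : |G b - y| ≤ 0 := le_of_tendsto_of_tendsto' h5 h6 (fun n => haG _)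
      have h8 := abs_nonpos_iff.1 h7
      linarith
    rcases hcov ⟨hbE, hbG⟩ with hbt | hbt
    · exact hbO (Or.inl (hPO ⟨⟨hbE, hbG⟩, hbt⟩))
    · exact hbO (Or.inr (hQO ⟨⟨hbE, hbG⟩, hbt⟩))
  obtain ⟨ε, hε, hev⟩ := hbad
  obtain ⟨p, ⟨hpE, hpG⟩, hpt⟩ := hnt
  obtain ⟨q, ⟨hqE, hqG⟩, hqt⟩ := hnt'
  have near : ∀ p ∈ E, G p = y → ∀ O : Set M, IsOpen O → p ∈ O →
      ∀ᶠ n in (𝒰 : Filter ℕ), ∃ d ∈ D n, d ∈ O ∧ |F n d - y| ≤ ε := by
    intro p hpE hpG O hO hpO
    have hV : O ∩ {a | |G a - y| < ε / 2} ∈ 𝓝 p := by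
      apply Filter.inter_mem (hO.mem_nhds hpO)
      apply IsOpen.mem_nhds
      · exact isOpen_lt (by fun_prop) continuous_const
      · show |G p - y| < ε / 2
        rw [hpG, sub_self, abs_zero]; positivity
    filter_upwards [hpE _ hV, hunif (ε / 2) (by positivity)] with n hn hn'
    obtain ⟨d, hdD, hdO, hdG⟩ := hn
    refine ⟨d, hdD, hdO, ?_⟩
    have h1 := hn' d
    have h2 : |G d - y| < ε / 2 := hdG
    rw [abs_lt] at h1 h2
    rw [abs_le]
    constructor <;> linarith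
  obtain ⟨n, ⟨hn1, ⟨d, hdD, hdO, hdF⟩⟩, ⟨d', hdD', hdO', hdF'⟩⟩ :=
    ((hev.and (near p hpE hpG O hO (hPO ⟨⟨hpE, hpG⟩, hpt⟩))).and
      (near q hqE hqG O' hO' (hQO ⟨⟨hqE, hqG⟩, hqt⟩))).exists
  -- the set over the interval `[y-ε, y+ε] ∩ [0,1]`
  have hpre := (hD n).interval (F n).continuous (a := max 0 (y - ε)) (b := min 1 (y + ε))
    (le_max_left _ _) (min_le_left _ _)
  have hsub : D n ∩ F n ⁻¹' Icc (max 0 (y - ε)) (min 1 (y + ε)) ⊆ O ∪ O' := by
    rintro d ⟨hd, hd1, hd2⟩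
    apply hn1 d hd
    have h1 := (le_max_right 0 (y - ε)).trans hd1
    have h2 := hd2.trans (min_le_right 1 (y + ε))
    rw [abs_le]
    constructor <;> linarith
  have hmem : ∀ d ∈ D n, |F n d - y| ≤ ε →
      d ∈ D n ∩ F n ⁻¹' Icc (max 0 (y - ε)) (min 1 (y + ε)) := by
    intro d hd hdF
    rw [abs_le] at hdF
    have h01 := hF01 n d
    exact ⟨hd, max_le h01.1 (by linarith), le_min h01.2 (by linarith)⟩
  obtain ⟨x, _, hx1, hx2⟩ := hpre O O' hO hO' hsub ⟨d, hmem d hdD hdF, hdO⟩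
    ⟨d', hmem d' hdD' hdF', hdO'⟩
  exact (Set.disjoint_left.1 hOO) hx1 hx2

end general

/-! ### The annulus -/

abbrev S1 : Type := Metric.sphere (0 : ℂ) 1
abbrev I : Type := Set.Icc (0 : ℝ) 1
abbrev A : Type := S1 × I

instance : CompactSpace S1 := isCompact_iff_compactSpace.1 (isCompact_sphere _ _)
instance : ConnectedSpace S1 := by
  rw [← isConnected_iff_connectedSpace]
  apply isConnected_sphere _ _ zero_le_one
  rw [Complex.rank_real_complex]
  norm_num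

lemma S1.norm (z : S1) : ‖(z : ℂ)‖ = 1 := mem_sphere_zero_iff_norm.1 z.2

/-- the projection to `[0,1]` -/
def f0 : C(A, ℝ) := ⟨fun p => (p.2 : ℝ), by fun_prop⟩

lemma f0_MO (h : A ≃ₜ A) : MO (f0 ∘ h) univ := by
  refine ⟨isClosed_univ, ?_⟩
  intro y hy
  rw [univ_inter]
  have : (f0 ∘ h) ⁻¹' {y} = h.symm '' ((fun z : S1 => ((z, ⟨y, hy⟩) : A)) '' univ) := by
    ext p
    simp only [mem_preimage, mem_singleton_iff, Function.comp_apply, image_univ, mem_image,
      mem_range, exists_exists_eq_and]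
    constructor
    · intro hp
      refine ⟨(h p).1, ?_⟩
      have : ((h p).1, (⟨y, hy⟩ : I)) = h p := by
        refine Prod.ext (by rfl) ?_
        apply Subtype.ext
        exact hp.symm
      rw [this, h.symm_apply_apply]
    · rintro ⟨z, rfl⟩
      rw [h.apply_symm_apply]
      rfl
  rw [this]
  apply IsConnected.image _ _ h.symm.continuous.continuousOn
  apply IsConnected.image isConnected_univ
  fun_prop

/-- Möbius maps of the circle -/
noncomputable def mobC (c : ℝ) (z : ℂ) : ℂ := (z - c) / (1 - c * z)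

lemma den_ne {c : ℝ} (hc : |c| < 1) {z : ℂ} (hz : ‖z‖ = 1) : (1 - c * z : ℂ) ≠ 0 := by
  intro h
  have h1 : (c : ℂ) * z = 1 := (sub_eq_zero.1 h).symm
  have h2 := congrArg norm h1
  rw [norm_mul, hz, mul_one, norm_one, Complex.norm_real, Real.norm_eq_abs] at h2
  linarith

lemma mob_norm {c : ℝ} (hc : |c| < 1) {z : ℂ} (hz : ‖z‖ = 1) : ‖mobC c z‖ = 1 := by
  have hzz : z * (starRingEnd ℂ) z = 1 := by
    rw [Complex.mul_conj, Complex.normSq_eq_norm_sq, hz]; norm_num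
  have h1 : (1 - c * z : ℂ) = z * (starRingEnd ℂ) (z - c) := by
    rw [map_sub, Complex.conj_ofReal, mul_sub, hzz]; ring
  have h2 : ‖(1 - c * z : ℂ)‖ = ‖z - c‖ := by
    rw [h1, norm_mul, hz, one_mul, Complex.norm_conj]
  have h3 : ‖(1 - c * z : ℂ)‖ ≠ 0 := norm_ne_zero_iff.2 (den_ne hc hz)
  unfold mobC
  rw [norm_div, ← h2, div_self h3]

lemma mob_inv {c : ℝ} (hc : |c| < 1) {z : ℂ} (hz : ‖z‖ = 1) : mobC (-c) (mobC c z) = z := by
  have h1 := den_ne hc hz
  have h2 : (1 - (c : ℂ) ^ 2) ≠ 0 := by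
    intro h
    have h3 : (c : ℂ) ^ 2 = 1 := (sub_eq_zero.1 h).symm
    have h4 : c ^ 2 = 1 := by exact_mod_cast h3
    have h5 : c ^ 2 < 1 := by
      rw [← sq_abs]; nlinarith [abs_nonneg c]
    linarith
  unfold mobC
  push_cast
  have h3 : (1 - -(c : ℂ) * ((z - c) / (1 - c * z))) = (1 - (c : ℂ) ^ 2) / (1 - c * z) := by
    rw [neg_mul, sub_neg_eq_add, mul_div_assoc', one_add_div h1]
    congr 1; ring
  have h4 : ((z - c) / (1 - c * z) - -(c : ℂ)) = z * (1 - (c : ℂ) ^ 2) / (1 - c * z) := by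
    rw [sub_neg_eq_add, div_add' _ _ _ h1]
    congr 1; ring
  rw [h3, h4, div_div_div_cancel_right₀ h1, mul_div_cancel_right₀ _ h2]

lemma mob_re {c : ℝ} (hc : |c| < 1) {z : ℂ} (hz : ‖z‖ = 1) :
    (mobC c z).re * (1 - 2 * c * z.re + c ^ 2) = (1 + c ^ 2) * z.re - 2 * c := by
  have hsq : z.re ^ 2 + z.im ^ 2 = 1 := by
    have := Complex.normSq_eq_norm_sq z
    rw [hz, Complex.normSq_apply] at this
    nlinarith
  have hn : Complex.normSq (1 - c * z) = 1 - 2 * c * z.re + c ^ 2 := by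
    rw [Complex.normSq_apply]
    simp
    nlinarith
  have hne : Complex.normSq (1 - c * z) ≠ 0 := by
    rw [Ne, Complex.normSq_eq_zero]; exact den_ne hc hz
  unfold mobC
  rw [Complex.div_re, hn]
  rw [hn] at hne
  field_simp
  simp
  linear_combination (-c) * hsq

noncomputable def G1 (c : ℝ) (hc : |c| < 1) (σ : ℝ → ℝ) (hσ : Continuous σ) : A ≃ₜ A where
  toFun p := (⟨Complex.exp (σ p.2 * Complex.I) * mobC c p.1, by
    rw [mem_sphere_zero_iff_norm, norm_mul, Complex.norm_exp_ofReal_mul_I, one_mul,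
      mob_norm hc (S1.norm p.1)]⟩, p.2)
  invFun p := (⟨mobC (-c) (Complex.exp ((-σ p.2 : ℝ) * Complex.I) * p.1), by
    rw [mem_sphere_zero_iff_norm]
    apply mob_norm (by rwa [abs_neg])
    rw [norm_mul, Complex.norm_exp_ofReal_mul_I, one_mul, S1.norm]⟩, p.2)
  left_inv p := by
    refine Prod.ext_iff.2 ⟨Subtype.ext ?_, rfl⟩
    simp only
    rw [← mul_assoc, ← Complex.exp_add]
    have : ((-σ p.2 : ℝ) * Complex.I + σ p.2 * Complex.I) = 0 := by push_cast; ring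
    rw [this, Complex.exp_zero, one_mul, mob_inv hc (S1.norm p.1)]
  right_inv p := by
    refine Prod.ext_iff.2 ⟨Subtype.ext ?_, rfl⟩
    simp only
    have h1 := mob_inv (c := -c) (by rwa [abs_neg]) (z := Complex.exp ((-σ p.2 : ℝ) * Complex.I) * p.1)
      (by rw [norm_mul, Complex.norm_exp_ofReal_mul_I, one_mul, S1.norm])
    rw [neg_neg] at h1
    rw [h1, ← mul_assoc, ← Complex.exp_add]
    have : ((σ p.2) * Complex.I + (-σ p.2 : ℝ) * Complex.I) = 0 := by push_cast; ring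
    rw [this, Complex.exp_zero, one_mul]
  continuous_toFun := by
    apply Continuous.prodMk _ continuous_snd
    apply Continuous.subtype_mk
    apply Continuous.mul (by fun_prop)
    unfold mobC
    apply Continuous.div (by fun_prop) (by fun_prop)
    intro p
    exact den_ne hc (S1.norm p.1)
  continuous_invFun := by
    apply Continuous.prodMk _ continuous_snd
    apply Continuous.subtype_mk
    unfold mobC
    apply Continuous.div (by fun_prop) (by fun_prop)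
    intro p
    apply den_ne (by rwa [abs_neg])
    rw [norm_mul, Complex.norm_exp_ofReal_mul_I, one_mul, S1.norm]

/-! vertical maps -/

def cl2 (x : ℝ) : ℝ := max (-1) (min 1 x)

lemma cl2_cont : Continuous cl2 := by unfold cl2; fun_prop

lemma cl2_mem (x : ℝ) : -1 ≤ cl2 x ∧ cl2 x ≤ 1 :=
  ⟨le_max_left _ _, max_le (by norm_num) (min_le_left _ _)⟩

lemma cl2_of_mem {x : ℝ} (h1 : -1 ≤ x) (h2 : x ≤ 1) : cl2 x = x := by
  unfold cl2; rw [min_eq_right h2, max_eq_right h1]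

lemma cl2_of_ge {x : ℝ} (h : 1 ≤ x) : cl2 x = 1 := by
  unfold cl2; rw [min_eq_left h]; norm_num

lemma cl2_of_le {x : ℝ} (h : x ≤ -1) : cl2 x = -1 := by
  unfold cl2; rw [min_eq_right (by linarith), max_eq_left h]

noncomputable def phi (t u : ℝ) : ℝ := (u + t) / (1 + t * u)

lemma phi_den {t u : ℝ} (ht : |t| < 1) (h1 : -1 ≤ u) (h2 : u ≤ 1) : 0 < 1 + t * u := by
  have h : |t * u| < 1 := by
    rw [abs_mul]
    exact lt_of_le_of_lt (mul_le_of_le_one_right (abs_nonneg t) (abs_le.2 ⟨h1, h2⟩)) ht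
  have := (abs_lt.1 h).1
  linarith

lemma phi_mem {t u : ℝ} (ht : |t| < 1) (h1 : -1 ≤ u) (h2 : u ≤ 1) :
    -1 ≤ phi t u ∧ phi t u ≤ 1 := by
  have hd := phi_den ht h1 h2
  rw [abs_lt] at ht
  unfold phi
  rw [le_div_iff₀ hd, div_le_iff₀ hd]
  constructor <;> nlinarith

lemma phi_inv {t u : ℝ} (ht : |t| < 1) (h1 : -1 ≤ u) (h2 : u ≤ 1) : phi (-t) (phi t u) = u := by
  have hd := phi_den ht h1 h2
  have ht2 : 0 < 1 - t ^ 2 := by
    rw [abs_lt] at ht; nlinarith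
  unfold phi
  have e1 : 1 + -t * ((u + t) / (1 + t * u)) = (1 - t ^ 2) / (1 + t * u) := by
    rw [mul_div_assoc', one_add_div hd.ne']
    congr 1; ring
  have e2 : (u + t) / (1 + t * u) + -t = u * (1 - t ^ 2) / (1 + t * u) := by
    rw [div_add' _ _ _ hd.ne']
    congr 1; ring
  rw [e1, e2, div_div_div_cancel_right₀ hd.ne', mul_div_cancel_right₀ _ ht2.ne']

lemma phi_one {t : ℝ} (ht : |t| < 1) : phi t 1 = 1 := by
  unfold phi
  rw [abs_lt] at ht
  rw [div_eq_one_iff_eq (by linarith)]; ring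

lemma phi_neg_one {t : ℝ} (ht : |t| < 1) : phi t (-1) = -1 := by
  unfold phi
  rw [abs_lt] at ht
  rw [div_eq_iff (by linarith)]; ring

noncomputable def psi (t x : ℝ) : ℝ := x + (phi t (cl2 x) - cl2 x)

lemma psi_of_mem {t x : ℝ} (h1 : -1 ≤ x) (h2 : x ≤ 1) : psi t x = phi t x := by
  unfold psi; rw [cl2_of_mem h1 h2]; ring

lemma psi_of_ge {t x : ℝ} (ht : |t| < 1) (h : 1 ≤ x) : psi t x = x := by
  unfold psi; rw [cl2_of_ge h, phi_one ht]; ring

lemma psi_of_le {t x : ℝ} (ht : |t| < 1) (h : x ≤ -1) : psi t x = x := by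
  unfold psi; rw [cl2_of_le h, phi_neg_one ht]; ring

lemma psi_inv {t : ℝ} (ht : |t| < 1) (x : ℝ) : psi (-t) (psi t x) = x := by
  have ht' : |-t| < 1 := by rwa [abs_neg]
  rcases le_total x (-1) with h | h
  · rw [psi_of_le ht h, psi_of_le ht' h]
  rcases le_total 1 x with h' | h'
  · rw [psi_of_ge ht h', psi_of_ge ht' h']
  · rw [psi_of_mem h h', psi_of_mem (phi_mem ht h h').1 (phi_mem ht h h').2, phi_inv ht h h']

noncomputable def V (y0 δ t y : ℝ) : ℝ := y0 + δ * psi t ((y - y0) / δ)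

lemma V_mem {y0 δ t y : ℝ} (hδ : 0 < δ) (h1 : 0 ≤ y0 - δ) (h2 : y0 + δ ≤ 1) (ht : |t| < 1)
    (hy0 : 0 ≤ y) (hy1 : y ≤ 1) : 0 ≤ V y0 δ t y ∧ V y0 δ t y ≤ 1 := by
  unfold V
  rcases le_total ((y - y0) / δ) (-1) with h | h
  · rw [psi_of_le ht h, mul_div_cancel₀ _ hδ.ne']; constructor <;> linarith
  rcases le_total 1 ((y - y0) / δ) with h' | h'
  · rw [psi_of_ge ht h', mul_div_cancel₀ _ hδ.ne']; constructor <;> linarith
  · rw [psi_of_mem h h']
    have := phi_mem ht h h'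
    constructor <;> nlinarith

lemma V_inv {y0 δ t : ℝ} (hδ : 0 < δ) (ht : |t| < 1) (y : ℝ) : V y0 δ (-t) (V y0 δ t y) = y := by
  unfold V
  rw [add_sub_cancel_left, mul_div_cancel_left₀ _ hδ.ne', psi_inv ht,
    mul_div_cancel₀ _ hδ.ne']
  ring

lemma V_cont {X : Type} [TopologicalSpace X] (y0 δ : ℝ) {t y : X → ℝ} (ht : Continuous t)
    (hy : Continuous y) (ht1 : ∀ x, |t x| < 1) : Continuous (fun x => V y0 δ (t x) (y x)) := by
  unfold V psi phi
  have := cl2_cont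
  have h1 : Continuous (fun x => cl2 ((y x - y0) / δ)) := by fun_prop
  apply Continuous.add continuous_const
  apply Continuous.mul continuous_const
  apply Continuous.add (by fun_prop)
  apply Continuous.sub _ h1
  apply Continuous.div (by fun_prop) (by fun_prop)
  intro x
  exact (phi_den (ht1 x) (cl2_mem _).1 (cl2_mem _).2).ne'

lemma V_dist {y0 δ t y : ℝ} (hδ : 0 < δ) (ht : |t| < 1) : |V y0 δ t y - y| ≤ 2 * δ := by
  unfold V psi
  have e : y0 + δ * ((y - y0) / δ + (phi t (cl2 ((y - y0) / δ)) - cl2 ((y - y0) / δ))) - y =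
      δ * (phi t (cl2 ((y - y0) / δ)) - cl2 ((y - y0) / δ)) := by
    field_simp
    ring
  rw [e, abs_mul, abs_of_pos hδ]
  have h1 := cl2_mem ((y - y0) / δ)
  have h2 := phi_mem ht h1.1 h1.2
  have h3 : |phi t (cl2 ((y - y0) / δ)) - cl2 ((y - y0) / δ)| ≤ 2 := by
    rw [abs_le]; constructor <;> linarith
  nlinarith

lemma half_re (z : S1) : |(z : ℂ).re / 2| < 1 := by
  have := Complex.abs_re_le_norm (z : ℂ)
  rw [S1.norm] at this
  rw [abs_div, abs_two]
  linarith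

noncomputable def G2 (y0 δ : ℝ) (hδ : 0 < δ) (h1 : 0 ≤ y0 - δ) (h2 : y0 + δ ≤ 1) : A ≃ₜ A where
  toFun p := (p.1, ⟨V y0 δ ((p.1 : ℂ).re / 2) p.2, V_mem hδ h1 h2 (half_re p.1) p.2.2.1 p.2.2.2⟩)
  invFun p := (p.1, ⟨V y0 δ (-((p.1 : ℂ).re / 2)) p.2,
    V_mem hδ h1 h2 (by rw [abs_neg]; exact half_re p.1) p.2.2.1 p.2.2.2⟩)
  left_inv p := by
    refine Prod.ext_iff.2 ⟨rfl, Subtype.ext ?_⟩
    exact V_inv hδ (half_re p.1) _
  right_inv p := by
    refine Prod.ext_iff.2 ⟨rfl, Subtype.ext ?_⟩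
    have := V_inv (y0 := y0) (t := -((p.1 : ℂ).re / 2)) hδ (by rw [abs_neg]; exact half_re p.1) p.2
    rwa [neg_neg] at this
  continuous_toFun := by
    apply Continuous.prodMk continuous_fst
    apply Continuous.subtype_mk
    exact V_cont y0 δ (t := fun p : A => (p.1 : ℂ).re / 2) (y := fun p : A => (p.2 : ℝ))
      (by fun_prop) (by fun_prop) (fun p => half_re p.1)
  continuous_invFun := by
    apply Continuous.prodMk continuous_fst
    apply Continuous.subtype_mk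
    exact V_cont y0 δ (t := fun p : A => -((p.1 : ℂ).re / 2)) (y := fun p : A => (p.2 : ℝ))
      (by fun_prop) (by fun_prop) (fun p => by rw [abs_neg]; exact half_re p.1)


/-- choice of the squeezing parameter -/
lemma exists_c (η : ℝ) (hη : 0 < η) : ∃ c : ℝ, |c| < 1 ∧ ∀ z : ℂ, ‖z‖ = 1 → η ≤ ‖z - 1‖ →
    (mobC c z).re < -(2 / 3) := by
  have hc : Continuous (fun c : ℝ => (1 - η ^ 2 / 2) * (1 + c ^ 2 - 4 / 3 * c)) := by fun_prop
  have hc' : Continuous (fun c : ℝ => 2 * c - 2 / 3 * (1 + c ^ 2)) := by fun_prop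
  have h1 : ∀ᶠ c in 𝓝 (1 : ℝ), (1 - η ^ 2 / 2) * (1 + c ^ 2 - 4 / 3 * c) <
      2 * c - 2 / 3 * (1 + c ^ 2) := by
    apply hc.continuousAt.eventually_lt hc'.continuousAt
    nlinarith
  have h2 : ∀ᶠ c in 𝓝[<] (1 : ℝ), (1 - η ^ 2 / 2) * (1 + c ^ 2 - 4 / 3 * c) <
      2 * c - 2 / 3 * (1 + c ^ 2) := h1.filter_mono nhdsWithin_le_nhds
  have h3 : ∀ᶠ c in 𝓝[<] (1 : ℝ), c ∈ Ioo (0 : ℝ) 1 := Ioo_mem_nhdsLT one_pos
  obtain ⟨c, hc1, hc2, hc3⟩ := (h2.and h3).exists
  have hcabs : |c| < 1 := by rw [abs_of_pos hc2]; exact hc3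
  refine ⟨c, hcabs, ?_⟩
  intro z hz hzη
  have hre : z.re ≤ 1 - η ^ 2 / 2 := by
    have h4 : ‖z - 1‖ ^ 2 = 2 - 2 * z.re := by
      have hn := Complex.normSq_eq_norm_sq z
      rw [hz, Complex.normSq_apply] at hn
      rw [← Complex.normSq_eq_norm_sq, Complex.normSq_apply]
      simp
      nlinarith
    have h5 : η ^ 2 ≤ ‖z - 1‖ ^ 2 := by nlinarith
    linarith
  have hmob := mob_re hcabs hz
  have hden : 0 < 1 - 2 * c * z.re + c ^ 2 := by nlinarith
  have hlt : (mobC c z).re * (1 - 2 * c * z.re + c ^ 2) <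
      -(2 / 3) * (1 - 2 * c * z.re + c ^ 2) := by
    rw [hmob]
    have h6 : 0 < 1 + c ^ 2 - 4 / 3 * c := by nlinarith [sq_nonneg (c - 2 / 3)]
    nlinarith [mul_le_mul_of_nonneg_right hre h6.le]
  exact lt_of_mul_lt_mul_right hlt hden.le

/-- the basic homeomorphism -/
lemma exists_G (y0 δ η : ℝ) (hδ : 0 < δ) (hη : 0 < η) (h1 : 0 < y0 - δ) (h2 : y0 + δ < 1) :
    ∃ G : A ≃ₜ A, (∀ p, |f0 (G p) - f0 p| ≤ 2 * δ) ∧
      (∀ p, f0 (G p) = 0 → f0 p = 0) ∧ (∀ p, f0 (G p) = 1 → f0 p = 1) ∧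
      (∀ p, η ≤ ‖(p.1 : ℂ) - 1‖ → f0 p = y0 - δ / 3 → y0 < f0 (G p)) ∧
      (∀ p, η ≤ ‖(p.1 : ℂ) - 1‖ → f0 p = y0 + δ / 3 → f0 (G p) < y0) := by
  obtain ⟨c, hc, hcz⟩ := exists_c η hη
  let σ : ℝ → ℝ := fun y => Real.pi * (1 / 2 - 3 / 2 * ((y - y0) / δ))
  have hσ : Continuous σ := by fun_prop
  let G := (G1 c hc σ hσ).trans (G2 y0 δ hδ h1.le h2.le)
  -- the first coordinate after `G1`
  let w : A → ℂ := fun p => Complex.exp (σ p.2 * Complex.I) * mobC c p.1
  have hwn : ∀ p : A, ‖w p‖ = 1 := fun p => by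
    rw [norm_mul, Complex.norm_exp_ofReal_mul_I, one_mul, mob_norm hc (S1.norm p.1)]
  have ht : ∀ p : A, |(w p).re / 2| < 1 := by
    intro p
    have := Complex.abs_re_le_norm (w p)
    rw [hwn] at this
    rw [abs_div, abs_two]
    linarith
  have hG : ∀ p : A, f0 (G p) = V y0 δ ((w p).re / 2) p.2 := fun p => rfl
  have hf : ∀ p : A, f0 p = (p.2 : ℝ) := fun p => rfl
  refine ⟨G, ?_, ?_, ?_, ?_, ?_⟩
  · intro p
    rw [hG, hf]
    exact V_dist hδ (ht p)
  · intro p hp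
    rw [hG] at hp
    have h3 := V_inv (y0 := y0) hδ (ht p) (p.2 : ℝ)
    rw [hp] at h3
    rw [hf, ← h3]
    unfold V
    rw [psi_of_le (by rw [abs_neg]; exact ht p) (by rw [div_le_iff₀ hδ]; linarith)]
    field_simp
    ring
  · intro p hp
    rw [hG] at hp
    have h3 := V_inv (y0 := y0) hδ (ht p) (p.2 : ℝ)
    rw [hp] at h3
    rw [hf, ← h3]
    unfold V
    rw [psi_of_ge (by rw [abs_neg]; exact ht p) (by rw [le_div_iff₀ hδ]; linarith)]
    field_simp
    ring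
  · intro p hpη hp
    rw [hf] at hp
    have hx : ((p.2 : ℝ) - y0) / δ = -(1 / 3) := by
      rw [hp]; field_simp; ring
    have hw : w p = -mobC c p.1 := by
      show Complex.exp (σ p.2 * Complex.I) * mobC c p.1 = _
      have : σ p.2 = Real.pi := by
        show Real.pi * (1 / 2 - 3 / 2 * (((p.2 : ℝ) - y0) / δ)) = Real.pi
        rw [hx]; ring
      rw [this, Complex.exp_pi_mul_I]; ring
    have hre := hcz p.1 (S1.norm p.1) hpη
    have ht1 : 1 / 3 < (w p).re / 2 := by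
      rw [hw, Complex.neg_re]; linarith
    rw [hG]
    unfold V
    rw [hx, psi_of_mem (by norm_num) (by norm_num)]
    have hd := phi_den (ht p) (u := -(1 / 3)) (by norm_num) (by norm_num)
    have : 0 < phi ((w p).re / 2) (-(1 / 3)) := by
      unfold phi
      apply div_pos _ hd
      linarith
    nlinarith [mul_pos hδ this]
  · intro p hpη hp
    rw [hf] at hp
    have hx : ((p.2 : ℝ) - y0) / δ = 1 / 3 := by
      rw [hp]; field_simp; ring
    have hw : w p = mobC c p.1 := by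
      show Complex.exp (σ p.2 * Complex.I) * mobC c p.1 = _
      have : σ p.2 = 0 := by
        show Real.pi * (1 / 2 - 3 / 2 * (((p.2 : ℝ) - y0) / δ)) = 0
        rw [hx]; ring
      rw [this]; simp
    have hre := hcz p.1 (S1.norm p.1) hpη
    have ht1 : (w p).re / 2 < -(1 / 3) := by
      rw [hw]; linarith
    rw [hG]
    unfold V
    rw [hx, psi_of_mem (by norm_num) (by norm_num)]
    have hd := phi_den (ht p) (u := 1 / 3) (by norm_num) (by norm_num)
    have : phi ((w p).re / 2) (1 / 3) < 0 := by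
      unfold phi
      apply div_neg_of_neg_of_pos _ hd
      linarith
    nlinarith [mul_neg_of_pos_of_neg hδ this]

/-- rotation -/
noncomputable def rot (z0 : S1) : A ≃ₜ A where
  toFun p := (⟨(starRingEnd ℂ) z0 * p.1, by
    rw [mem_sphere_zero_iff_norm, norm_mul, Complex.norm_conj, S1.norm, S1.norm, one_mul]⟩, p.2)
  invFun p := (⟨z0 * p.1, by
    rw [mem_sphere_zero_iff_norm, norm_mul, S1.norm, S1.norm, one_mul]⟩, p.2)
  left_inv p := by
    refine Prod.ext_iff.2 ⟨Subtype.ext ?_, rfl⟩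
    simp only
    rw [← mul_assoc, Complex.mul_conj, Complex.normSq_eq_norm_sq, S1.norm]
    simp
  right_inv p := by
    refine Prod.ext_iff.2 ⟨Subtype.ext ?_, rfl⟩
    simp only
    rw [← mul_assoc, mul_comm ((starRingEnd ℂ) (z0 : ℂ)), Complex.mul_conj,
      Complex.normSq_eq_norm_sq, S1.norm]
    simp
  continuous_toFun := by fun_prop
  continuous_invFun := by fun_prop

lemma rot_f0 (z0 : S1) (p : A) : f0 (rot z0 p) = f0 p := rfl

lemma rot_norm (z0 : S1) (p : A) : ‖((rot z0 p).1 : ℂ) - 1‖ = ‖(p.1 : ℂ) - z0‖ := by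
  show ‖(starRingEnd ℂ) z0 * p.1 - 1‖ = _
  have h1 : (starRingEnd ℂ) (z0 : ℂ) * z0 = 1 := by
    rw [mul_comm, Complex.mul_conj, Complex.normSq_eq_norm_sq, S1.norm]; simp
  have h2 : (starRingEnd ℂ) (z0 : ℂ) * p.1 - 1 = (starRingEnd ℂ) z0 * (p.1 - z0) := by
    rw [mul_sub, h1]
  rw [h2, norm_mul, Complex.norm_conj, S1.norm, one_mul]

/-- the density lemma -/
lemma density (h : A ≃ₜ A) (U : Set A) (hU : IsOpen U) (hUne : U.Nonempty) (ε : ℝ) (hε : 0 < ε) :
    ∃ h' : A ≃ₜ A, (∀ p, |f0 (h' p) - f0 (h p)| ≤ ε) ∧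
      ∀ D : Set A, MO (f0 ∘ h') D → (D ∩ U).Nonempty := by
  -- a box in `h '' U`
  obtain ⟨u, hu⟩ := hUne
  have hUo : IsOpen (h '' U) := h.isOpenMap U hU
  obtain ⟨r, hr, hball⟩ := Metric.isOpen_iff.1 hUo (h u) ⟨u, hu, rfl⟩
  set z0 : S1 := (h u).1 with hz0
  set y' : I := (h u).2 with hy'
  set s : ℝ := min r 1 / 2 with hs
  have hs0 : 0 < s := by positivity
  have hs1 : s ≤ 1 / 2 := by
    have := min_le_right r 1
    rw [hs]; linarith
  have hsr : s ≤ r / 2 := by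
    have := min_le_left r 1
    rw [hs]; linarith
  set y0 : ℝ := (1 - s) * y' + s / 2 with hy0
  have hy'0 := y'.2.1
  have hy'1 := y'.2.2
  have hyd : |y0 - y'| ≤ s / 2 := by
    rw [abs_le, hy0]; constructor <;> nlinarith
  have hy0a : s / 2 ≤ y0 := by rw [hy0]; nlinarith
  have hy0b : y0 ≤ 1 - s / 2 := by rw [hy0]; nlinarith
  set δ : ℝ := min (s / 4) (ε / 2) with hδ
  have hδ0 : 0 < δ := by positivity
  have hδs : δ ≤ s / 4 := min_le_left _ _
  have hδε : δ ≤ ε / 2 := min_le_right _ _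
  have hbox : ∀ p : A, ‖(p.1 : ℂ) - z0‖ < r → |f0 p - y0| ≤ δ → p ∈ h '' U := by
    intro p hp1 hp2
    apply hball
    rw [Metric.mem_ball, Prod.dist_eq, max_lt_iff]
    constructor
    · rw [Subtype.dist_eq, dist_eq_norm]; exact hp1
    · rw [Subtype.dist_eq, Real.dist_eq]
      have hp2' : |(p.2 : ℝ) - y0| ≤ δ := hp2
      have : |(p.2 : ℝ) - y'| ≤ |(p.2 : ℝ) - y0| + |y0 - y'| := abs_sub_le _ _ _
      have h3 : s < r := by linarith
      show |(p.2 : ℝ) - y'| < r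
      linarith
  obtain ⟨G, hG1, hG2, hG3, hG4, hG5⟩ := exists_G y0 δ r hδ0 hr (by linarith) (by linarith)
  refine ⟨(h.trans (rot z0)).trans G, ?_, ?_⟩
  · intro p
    have := hG1 (rot z0 (h p))
    rw [rot_f0] at this
    show |f0 (G (rot z0 (h p))) - f0 (h p)| ≤ ε
    linarith
  · intro D hD
    by_contra hcon
    rw [not_nonempty_iff_eq_empty] at hcon
    set F : A → ℝ := f0 ∘ ((h.trans (rot z0)).trans G) with hF
    have hFp : ∀ p, F p = f0 (G (rot z0 (h p))) := fun p => rfl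
    have hFc : Continuous F := f0.continuous.comp (Homeomorph.continuous _)
    have hq : Continuous (fun p : A => f0 (h p)) := f0.continuous.comp h.continuous
    have hF01 : ∀ p, 0 ≤ F p ∧ F p ≤ 1 := fun p => (G (rot z0 (h p))).2.2
    have hfar : ∀ d ∈ D, |f0 (h d) - y0| ≤ δ → r ≤ ‖((rot z0 (h d)).1 : ℂ) - 1‖ := by
      intro d hd hdy
      by_contra hlt
      push Not at hlt
      rw [rot_norm] at hlt
      obtain ⟨u', hu', hu'd⟩ := hbox (h d) hlt hdy
      have : u' = d := h.injective hu'd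
      have h4 : d ∈ D ∩ U := ⟨hd, this ▸ hu'⟩
      rw [hcon] at h4
      exact h4
    have hy00 : 0 ≤ y0 := by linarith
    have hy01 : y0 ≤ 1 := by linarith
    -- lower part
    have hlow : ∀ d ∈ D, F d ≤ y0 → f0 (h d) < y0 - δ / 3 := by
      have hpre := (hD.interval hFc (a := 0) (b := y0) le_rfl hy01).image _ hq.continuousOn
      obtain ⟨d0, hd0, hd0F⟩ := (hD.2 0 ⟨le_rfl, zero_le_one⟩).nonempty
      have hd0F' : F d0 = 0 := hd0F
      have h0 : f0 (h d0) = 0 := by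
        rw [hFp] at hd0F'
        have := hG2 _ hd0F'
        rwa [rot_f0] at this
      intro d hd hdF
      by_contra hge
      push Not at hge
      have hmem0 : (0 : ℝ) ∈ (fun p => f0 (h p)) '' (D ∩ F ⁻¹' Icc 0 y0) :=
        ⟨d0, ⟨hd0, by rw [mem_preimage, hd0F']; exact ⟨le_rfl, hy00⟩⟩, h0⟩
      have hmemd : f0 (h d) ∈ (fun p => f0 (h p)) '' (D ∩ F ⁻¹' Icc 0 y0) :=
        ⟨d, ⟨hd, (hF01 d).1, hdF⟩, rfl⟩
      obtain ⟨e, ⟨heD, heF⟩, hey⟩ := hpre.ordConnected.out hmem0 hmemd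
        (⟨by linarith, hge⟩ : y0 - δ / 3 ∈ Icc 0 (f0 (h d)))
      have hey' : f0 (h e) = y0 - δ / 3 := hey
      have h5 := hG4 (rot z0 (h e)) (hfar e heD (by
        rw [hey', abs_le]; constructor <;> linarith)) (by rw [rot_f0]; exact hey')
      have h6 : F e ≤ y0 := heF.2
      rw [hFp] at h6
      linarith
    have hup : ∀ d ∈ D, y0 ≤ F d → y0 + δ / 3 < f0 (h d) := by
      have hpre := (hD.interval hFc (a := y0) (b := 1) hy00 le_rfl).image _ hq.continuousOn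
      obtain ⟨d0, hd0, hd0F⟩ := (hD.2 1 ⟨zero_le_one, le_rfl⟩).nonempty
      have hd0F' : F d0 = 1 := hd0F
      have h0 : f0 (h d0) = 1 := by
        rw [hFp] at hd0F'
        have := hG3 _ hd0F'
        rwa [rot_f0] at this
      intro d hd hdF
      by_contra hge
      push Not at hge
      have hmem0 : (1 : ℝ) ∈ (fun p => f0 (h p)) '' (D ∩ F ⁻¹' Icc y0 1) :=
        ⟨d0, ⟨hd0, by rw [mem_preimage, hd0F']; exact ⟨hy01, le_rfl⟩⟩, h0⟩
      have hmemd : f0 (h d) ∈ (fun p => f0 (h p)) '' (D ∩ F ⁻¹' Icc y0 1) :=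
        ⟨d, ⟨hd, hdF, (hF01 d).2⟩, rfl⟩
      obtain ⟨e, ⟨heD, heF⟩, hey⟩ := hpre.ordConnected.out hmemd hmem0
        (⟨hge, by linarith⟩ : y0 + δ / 3 ∈ Icc (f0 (h d)) 1)
      have hey' : f0 (h e) = y0 + δ / 3 := hey
      have h5 := hG5 (rot z0 (h e)) (hfar e heD (by
        rw [hey', abs_le]; constructor <;> linarith)) (by rw [rot_f0]; exact hey')
      have h6 : y0 ≤ F e := heF.1
      rw [hFp] at h6
      linarith
    obtain ⟨d, hd, hdF⟩ := (hD.2 y0 ⟨hy00, hy01⟩).nonempty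
    have hdF' : F d = y0 := hdF
    have h7 := hlow d hd hdF'.le
    have h8 := hup d hd hdF'.ge
    linarith

/-- the Baire space -/
def BS : Set C(A, ℝ) := closure {F | ∃ h : A ≃ₜ A, ∀ p, F p = f0 (h p)}

instance : CompleteSpace BS := (isClosed_closure).completeSpace_coe

lemma BS_seq (F : C(A, ℝ)) (hF : F ∈ BS) : ∃ h : ℕ → (A ≃ₜ A), ∃ Fn : ℕ → C(A, ℝ),
    (∀ n p, Fn n p = f0 (h n p)) ∧ Tendsto Fn atTop (𝓝 F) := by
  obtain ⟨Fn, hFn, hlim⟩ := mem_closure_iff_seq_limit.1 hF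
  choose h hh using hFn
  exact ⟨h, Fn, hh, hlim⟩

lemma BS_mem01 (F : C(A, ℝ)) (hF : F ∈ BS) (p : A) : F p ∈ Icc (0 : ℝ) 1 := by
  obtain ⟨h, Fn, hFn, hlim⟩ := BS_seq F hF
  have h1 : Tendsto (fun n => Fn n p) atTop (𝓝 (F p)) :=
    ((continuous_eval_const p).tendsto F).comp hlim
  refine isClosed_Icc.mem_of_tendsto h1 (Eventually.of_forall fun n => ?_)
  rw [hFn]
  exact (h n p).2.2

lemma BS_MO (F : C(A, ℝ)) (hF : F ∈ BS) : MO F univ := by
  obtain ⟨h, Fn, hFn, hlim⟩ := BS_seq F hF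
  have h1 := MO.limit (Ultrafilter.of atTop) Fn F
    (fun n p => by rw [hFn]; exact (h n p).2.2)
    (hlim.mono_left (Ultrafilter.of_le _)) (fun _ => univ) (fun n => by
      have : (Fn n : A → ℝ) = f0 ∘ h n := by funext p; exact hFn n p
      rw [this]; exact f0_MO (h n))
  have h2 : {a : A | ∀ V ∈ 𝓝 a, ∀ᶠ n in ((Ultrafilter.of atTop : Ultrafilter ℕ) : Filter ℕ),
      ((univ : Set A) ∩ V).Nonempty} = univ := by
    rw [eq_univ_iff_forall]
    intro a V hV
    exact Eventually.of_forall fun n => ⟨a, trivial, mem_of_mem_nhds hV⟩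
  rwa [h2] at h1

/-- the bad sets are closed -/
lemma bad_closed (U : Set A) (hU : IsOpen U) :
    IsClosed {F : BS | ∃ D : Set A, MO (F : C(A, ℝ)) D ∧ D ∩ U = ∅} := by
  apply IsSeqClosed.isClosed
  intro Fn F hFn hlim
  choose D hD hDU using hFn
  have hlim' : Tendsto (fun n => (Fn n : C(A, ℝ))) atTop (𝓝 (F : C(A, ℝ))) :=
    (continuous_subtype_val.tendsto F).comp hlim
  refine ⟨_, MO.limit (Ultrafilter.of atTop) (fun n => (Fn n : C(A, ℝ))) F
    (fun n p => BS_mem01 _ (Fn n).2 p) (hlim'.mono_left (Ultrafilter.of_le _)) D hD, ?_⟩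
  rw [Set.eq_empty_iff_forall_notMem]
  rintro a ⟨ha, haU⟩
  obtain ⟨n, d, hd, hdU⟩ := (ha U (hU.mem_nhds haU)).exists
  have : d ∈ D n ∩ U := ⟨hd, hdU⟩
  rw [hDU n] at this
  exact this

lemma good_dense (U : Set A) (hU : IsOpen U) (hUne : U.Nonempty) :
    Dense {F : BS | ¬ ∃ D : Set A, MO (F : C(A, ℝ)) D ∧ D ∩ U = ∅} := by
  rw [Metric.dense_iff]
  intro F ε hε
  obtain ⟨F1, ⟨h, hh⟩, hFF1⟩ := Metric.mem_closure_iff.1 F.2 (ε / 2) (by positivity)
  obtain ⟨h', hh', hD⟩ := density h U hU hUne (ε / 4) (by positivity)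
  let F2 : C(A, ℝ) := ⟨fun p => f0 (h' p), f0.continuous.comp h'.continuous⟩
  have hF2 : F2 ∈ BS := subset_closure ⟨h', fun p => rfl⟩
  refine ⟨⟨F2, hF2⟩, ?_, ?_⟩
  · rw [Metric.mem_ball, Subtype.dist_eq]
    have h1 : dist F2 F1 ≤ ε / 4 := by
      rw [ContinuousMap.dist_le (by positivity)]
      intro p
      rw [Real.dist_eq, hh]
      exact hh' p
    calc dist F2 (F : C(A, ℝ)) ≤ dist F2 F1 + dist F1 F := dist_triangle _ _ _
      _ < ε := by rw [dist_comm F1]; linarith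
  · rintro ⟨D, hMO, hDU⟩
    have := hD D hMO
    rw [hDU] at this
    exact not_nonempty_empty this

theorem exists_minimal : ∃ F : C(A, ℝ), F ∈ BS ∧ ∀ D : Set A, MO F D → D = univ := by
  obtain ⟨B, hBc, hBne, hB⟩ := TopologicalSpace.exists_countable_basis A
  have : Nonempty BS := by
    refine ⟨⟨f0, subset_closure ⟨Homeomorph.refl A, fun p => rfl⟩⟩⟩
  have hd : Dense (⋂ U ∈ B, {F : BS | ¬ ∃ D : Set A, MO (F : C(A, ℝ)) D ∧ D ∩ U = ∅}) := by
    apply dense_biInter_of_isOpen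
    · intro U hU
      exact (bad_closed U (hB.isOpen hU)).isOpen_compl
    · exact hBc
    · intro U hU
      apply good_dense U (hB.isOpen hU)
      rw [nonempty_iff_ne_empty]
      rintro rfl
      exact hBne hU
  obtain ⟨F, hF⟩ := hd.nonempty
  refine ⟨F, F.2, ?_⟩
  intro D hD
  by_contra hne
  obtain ⟨a, ha⟩ := (ne_univ_iff_exists_notMem D).1 hne
  obtain ⟨U, hU, haU, hUD⟩ := hB.exists_subset_of_mem_open (show a ∈ Dᶜ from ha) hD.1.isOpen_compl
  have := mem_iInter₂.1 hF U hU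
  apply this
  refine ⟨D, hD, ?_⟩
  rw [← disjoint_iff_inter_eq_empty]
  exact (disjoint_left.2 fun x hx hxU => hUD hxU hx)

/-- The negation of the preceding statement: Take a compact connected metric space M and a continuous surjection f onto [0,1] with connected fibres, such that no closed proper subset mapped onto [0,1] has f restricted to it with connected fibres. Then some two points of M lie in no proper closed connected subset. -/
theorem result :
    ¬ (∀ (M : Type) [MetricSpace M] [CompactSpace M] [ConnectedSpace M]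
      (f : C(M, unitInterval)),
      Function.Surjective f →
      (∀ t : unitInterval, IsPreconnected (f ⁻¹' {t})) →
      (∀ D : Set M, IsClosed D → D ≠ Set.univ → f '' D = Set.univ →
        ¬ ∀ t : unitInterval, IsPreconnected (D ∩ f ⁻¹' {t})) →
      ∃ p q : M, ∀ K : Set M, IsClosed K → IsConnected K → p ∈ K → q ∈ K →
        K = Set.univ) := by
  intro H
  obtain ⟨F, hFB, hFmin⟩ := exists_minimal
  have hFMO := BS_MO F hFB
  have hconn : ConnectedSpace A := by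
    have : ConnectedSpace I := by
      rw [← isConnected_iff_connectedSpace]; exact isConnected_Icc zero_le_one
    infer_instance
  let f : C(A, unitInterval) := ⟨fun p => ⟨F p, BS_mem01 F hFB p⟩, by fun_prop⟩
  have hpre : ∀ t : unitInterval, f ⁻¹' {t} = F ⁻¹' {(t : ℝ)} := by
    intro t
    ext p
    simp only [mem_preimage, mem_singleton_iff]
    constructor
    · intro h; exact congrArg Subtype.val h
    · intro h; exact Subtype.ext h
  obtain ⟨p, q, hpq⟩ := H A f (by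
    intro t
    obtain ⟨a, _, ha⟩ := (hFMO.2 t t.2).nonempty
    exact ⟨a, Subtype.ext ha⟩) (by
    intro t
    rw [hpre]
    have := (hFMO.2 t t.2).isPreconnected
    rwa [univ_inter] at this) (by
    intro D hD hDne hDf hpc
    apply hDne
    apply hFmin D
    refine ⟨hD, fun y hy => ⟨?_, ?_⟩⟩
    · have : (⟨y, hy⟩ : unitInterval) ∈ f '' D := by rw [hDf]; trivial
      obtain ⟨d, hd, hdy⟩ := this
      exact ⟨d, hd, congrArg Subtype.val hdy⟩
    · have := hpc ⟨y, hy⟩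
      rwa [hpre] at this)
  -- a proper continuum containing `p` and `q`
  have hconnI : IsPreconnected (univ : Set I) := by
    have : ConnectedSpace I := by
      rw [← isConnected_iff_connectedSpace]; exact isConnected_Icc zero_le_one
    exact isPreconnected_univ
  set K : Set A := ((fun y : I => ((p.1, y) : A)) '' univ) ∪ ((fun z : S1 => ((z, q.2) : A)) '' univ)
    with hK
  have hKc : IsClosed K := by
    apply IsClosed.union
    · exact (isCompact_univ.image (by fun_prop)).isClosed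
    · exact (isCompact_univ.image (by fun_prop)).isClosed
  have hK1 : IsConnected K := by
    refine ⟨⟨(p.1, q.2), Or.inl ⟨q.2, trivial, rfl⟩⟩, ?_⟩
    have hm1 : ((p.1, q.2) : A) ∈ (fun y : I => ((p.1, y) : A)) '' univ := ⟨q.2, trivial, rfl⟩
    have hm2 : ((p.1, q.2) : A) ∈ (fun z : S1 => ((z, q.2) : A)) '' univ := ⟨p.1, trivial, rfl⟩
    apply IsPreconnected.union (p.1, q.2) hm1 hm2
    · exact hconnI.image _ (by fun_prop)
    · exact isPreconnected_univ.image _ (by fun_prop)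
  have huniv := hpq K hKc hK1 (Or.inl ⟨p.2, trivial, rfl⟩) (Or.inr ⟨q.1, trivial, rfl⟩)
  -- a point outside
  have hz : ∃ z : S1, z ≠ p.1 := by
    refine ⟨⟨-p.1, by rw [mem_sphere_zero_iff_norm, norm_neg, S1.norm]⟩, ?_⟩
    intro h
    have h1 : -(p.1 : ℂ) = p.1 := congrArg Subtype.val h
    have h2 : (p.1 : ℂ) = 0 := by
      have : (2 : ℂ) * p.1 = 0 := by linear_combination -h1
      simpa using this
    have h3 := S1.norm p.1
    rw [h2, norm_zero] at h3
    exact zero_ne_one h3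
  have hy : ∃ y : I, y ≠ q.2 := by
    by_cases h0 : q.2 = ⟨0, le_rfl, zero_le_one⟩
    · refine ⟨⟨1, zero_le_one, le_rfl⟩, ?_⟩
      rw [h0]
      intro h
      exact one_ne_zero (congrArg Subtype.val h)
    · exact ⟨_, Ne.symm h0⟩
  obtain ⟨z, hz⟩ := hz
  obtain ⟨y, hy⟩ := hy
  have hmem : ((z, y) : A) ∈ K := by rw [huniv]; trivial
  rcases hmem with ⟨y', _, h⟩ | ⟨z', _, h⟩
  · exact hz (congrArg Prod.fst h).symm
  · exact hy (congrArg Prod.snd h).symm

end Pool.Agent.S08730
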