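import Pool.Statements.S08740

set_option autoImplicit false
open Pool Pool.MP_16af68_gt

namespace Pool.Agent.S08740

open Set
open scoped Cardinal

/-- `kap m = ℵ_{m+1}`. -/
noncomputable def kap (m : ℕ) : Cardinal.{0} := Cardinal.aleph (Order.succ (m : Ordinal.{0}))

theorem kap_regular (m : ℕ) : (kap m).IsRegular := by
  unfold kap
  exact Cardinal.isRegular_aleph_succ _

theorem kap_lt {m n : ℕ} (h : m < n) : kap m < kap n := by
  unfold kap
  rw [Cardinal.aleph_lt_aleph]
  rw [Order.succ_lt_succ_iff]
  exact_mod_cast h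

theorem aleph0_lt_kap (m : ℕ) : ℵ₀ < kap m := by
  unfold kap
  rw [← Cardinal.aleph_zero, Cardinal.aleph_lt_aleph]
  exact Order.bot_lt_succ _

/-- a set of size `kap m` -/
def P (m : ℕ) : Type := (kap m).out

theorem mk_P (m : ℕ) : #(P m) = kap m := by
  unfold P
  exact Cardinal.mk_out _

/-- `P m` with a generic point added -/
def PS (m : ℕ) : Type := Option (P m)

def gen (m : ℕ) : PS m := (none : Option (P m))

def inc (m : ℕ) (p : P m) : PS m := (some p : Option (P m))

theorem inc_ne_gen {m : ℕ} (p : P m) : inc m p ≠ gen m := by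
  intro h
  exact Option.some_ne_none p h

theorem inc_injective (m : ℕ) : Function.Injective (inc m) := fun _ _ h => Option.some_injective _ h

theorem PS_cases {m : ℕ} (y : PS m) : y = gen m ∨ ∃ p, y = inc m p := by
  rcases (show Option (P m) from y) with _ | p
  · exact Or.inl rfl
  · exact Or.inr ⟨p, rfl⟩

instance instTopPS (m : ℕ) : TopologicalSpace (PS m) where
  IsOpen U := U = ∅ ∨ (gen m ∈ U ∧ #(↥(Uᶜ : Set (PS m))) < kap m)
  isOpen_univ := by
    right
    refine ⟨mem_univ _, ?_⟩
    simp only [compl_univ]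
    rw [Cardinal.mk_eq_zero]
    exact lt_of_le_of_lt (bot_le) (aleph0_lt_kap m)
  isOpen_inter := by
    rintro U V (hU | ⟨hU, hU'⟩) (hV | ⟨hV, hV'⟩)
    · left; simp [hU]
    · left; simp [hU]
    · left; simp [hV]
    · right
      refine ⟨⟨hU, hV⟩, ?_⟩
      rw [compl_inter]
      exact lt_of_le_of_lt (Cardinal.mk_union_le _ _)
        (Cardinal.add_lt_of_lt (aleph0_lt_kap m).le hU' hV')
  isOpen_sUnion := by
    intro S hS
    by_cases h : ∃ U ∈ S, U ≠ ∅
    · obtain ⟨U, hU, hne⟩ := h
      right
      rcases hS U hU with h0 | ⟨h1, h2⟩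
      · exact absurd h0 hne
      · refine ⟨mem_sUnion.2 ⟨U, hU, h1⟩, ?_⟩
        refine lt_of_le_of_lt (Cardinal.mk_le_mk_of_subset ?_) h2
        exact compl_subset_compl.2 (subset_sUnion_of_mem hU)
    · left
      push Not at h
      rw [sUnion_eq_empty]
      exact h

theorem isOpen_PS {m : ℕ} (U : Set (PS m)) :
    IsOpen U ↔ U = ∅ ∨ (gen m ∈ U ∧ #(↥(Uᶜ : Set (PS m))) < kap m) := Iff.rfl

/-- small sets avoiding the generic point are closed -/
theorem isClosed_small {m : ℕ} (C : Set (PS m)) (h : gen m ∉ C) (hC : #C < kap m) :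
    IsClosed C := by
  rw [← isOpen_compl_iff, isOpen_PS]
  right
  refine ⟨h, ?_⟩
  rwa [compl_compl]

theorem isClosed_PS {m : ℕ} (C : Set (PS m)) (h : IsClosed C) :
    C = univ ∨ (gen m ∉ C ∧ #C < kap m) := by
  rw [← isOpen_compl_iff, isOpen_PS] at h
  rcases h with h | ⟨h1, h2⟩
  · left
    exact compl_empty_iff.1 h
  · right
    rw [compl_compl] at h2
    exact ⟨h1, h2⟩

theorem isClosed_singleton_inc {m : ℕ} (p : P m) : IsClosed ({inc m p} : Set (PS m)) := by
  apply isClosed_small
  · intro h
    exact inc_ne_gen p (mem_singleton_iff.1 h).symm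
  · rw [Cardinal.mk_singleton]
    exact lt_of_lt_of_le Cardinal.one_lt_aleph0 (aleph0_lt_kap m).le

instance instT0PS (m : ℕ) : T0Space (PS m) := by
  constructor
  intro x y h
  rw [inseparable_iff_forall_isOpen] at h
  rcases PS_cases x with hx | ⟨p, hx⟩
  · rcases PS_cases y with hy | ⟨q, hy⟩
    · rw [hx, hy]
    · exfalso
      have := (h _ (isClosed_singleton_inc q).isOpen_compl).1
        (by rw [hx]; intro h'; exact inc_ne_gen q (mem_singleton_iff.1 h').symm)
      exact this (mem_singleton_iff.2 hy)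
  · by_contra hne
    have := (h _ (isClosed_singleton_inc p).isOpen_compl).2
      (by intro h'; exact hne (by rw [hx, mem_singleton_iff.1 h']))
    exact this (mem_singleton_iff.2 hx)

/-- the topology on `P m` is induced from `PS m` -/
instance instTopP (m : ℕ) : TopologicalSpace (P m) := TopologicalSpace.induced (inc m) inferInstance

theorem continuous_inc (m : ℕ) : Continuous (inc m) := continuous_induced_dom

instance instT0P (m : ℕ) : T0Space (P m) :=
  (Topology.IsEmbedding.mk ⟨rfl⟩ (inc_injective m)).t0Space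

theorem gen_mem_of_open {m : ℕ} {U : Set (PS m)} (hU : IsOpen U) (hne : U.Nonempty) :
    gen m ∈ U := by
  rcases (isOpen_PS U).1 hU with h | h
  · exact absurd h hne.ne_empty
  · exact h.1

theorem isOpen_P {m : ℕ} (U : Set (P m)) :
    IsOpen U ↔ U = ∅ ∨ #(↥(Uᶜ : Set (P m))) < kap m := by
  constructor
  · rintro ⟨V, hV, rfl⟩
    rcases (isOpen_PS V).1 hV with h | ⟨-, h⟩
    · left; rw [h]; rfl
    · right
      refine lt_of_le_of_lt ?_ h
      rw [← preimage_compl]
      refine Cardinal.mk_preimage_of_injective _ _ (inc_injective m)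
  · rintro (h | h)
    · rw [h]; exact isOpen_empty
    · refine ⟨(inc m '' Uᶜ)ᶜ, ?_, ?_⟩
      · rw [isOpen_compl_iff]
        apply isClosed_small
        · rintro ⟨p, -, hp⟩
          exact inc_ne_gen p hp
        · exact lt_of_le_of_lt Cardinal.mk_image_le h
      · rw [preimage_compl, preimage_image_eq _ (inc_injective m), compl_compl]

/-- closed sets of `P m` of size at least `kap m` are everything -/
theorem closed_big {m : ℕ} (C : Set (P m)) (hC : IsClosed C) (h : kap m ≤ #C) : C = univ := by
  rw [← isOpen_compl_iff, isOpen_P, compl_compl] at hC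
  rcases hC with hC | hC
  · exact compl_empty_iff.1 hC
  · exact absurd hC (not_lt.2 h)

theorem nonempty_P (m : ℕ) : Nonempty (P m) := by
  rw [← Cardinal.mk_ne_zero_iff, mk_P]
  exact (lt_of_le_of_lt (bot_le) (aleph0_lt_kap m)).ne'

theorem open_inter_nonempty {m : ℕ} {U V : Set (P m)} (hU : IsOpen U) (hV : IsOpen V)
    (hU' : U.Nonempty) (hV' : V.Nonempty) : (U ∩ V).Nonempty := by
  rcases (isOpen_P U).1 hU with h1 | h1
  · exact absurd h1 hU'.ne_empty
  rcases (isOpen_P V).1 hV with h2 | h2
  · exact absurd h2 hV'.ne_empty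
  by_contra hne
  rw [not_nonempty_iff_eq_empty] at hne
  have h3 : (univ : Set (P m)) = Uᶜ ∪ Vᶜ := by
    rw [← compl_inter, hne, compl_empty]
  have h4 : #(univ : Set (P m)) < kap m := by
    rw [h3]
    exact lt_of_le_of_lt (Cardinal.mk_union_le _ _)
      (Cardinal.add_lt_of_lt (aleph0_lt_kap m).le h1 h2)
  rw [Cardinal.mk_univ, mk_P] at h4
  exact lt_irrefl _ h4

/-- the category -/
def KK (W : Type) [TopologicalSpace W] : Prop :=
  T0Space W ∧ ∀ m : ℕ, ∀ g : P m → W, Continuous g →
    ∃ w : W, ∀ U : Set W, IsOpen U → (w ∈ U ↔ ∃ x, g x ∈ U)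

theorem gen_unique {W : Type} [TopologicalSpace W] [T0Space W] {m : ℕ} {g : P m → W} {w w' : W}
    (h : ∀ U : Set W, IsOpen U → (w ∈ U ↔ ∃ x, g x ∈ U))
    (h' : ∀ U : Set W, IsOpen U → (w' ∈ U ↔ ∃ x, g x ∈ U)) : w = w' := by
  apply Inseparable.eq
  rw [inseparable_iff_forall_isOpen]
  intro U hU
  rw [h U hU, h' U hU]

theorem KK_of_sober (W : Type) [TopologicalSpace W] [T0Space W] [QuasiSober W] : KK W := by
  refine ⟨inferInstance, ?_⟩
  intro m g hg
  have hirr : IsIrreducible (closure (range g)) := by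
    apply IsIrreducible.closure
    constructor
    · obtain ⟨x⟩ := nonempty_P m
      exact ⟨g x, mem_range_self x⟩
    · rintro U V hU hV ⟨_, ⟨x, rfl⟩, hx⟩ ⟨_, ⟨y, rfl⟩, hy⟩
      obtain ⟨z, hz1, hz2⟩ := open_inter_nonempty (hU.preimage hg) (hV.preimage hg) ⟨x, hx⟩ ⟨y, hy⟩
      exact ⟨g z, mem_range_self z, hz1, hz2⟩
  obtain ⟨w, hw⟩ := QuasiSober.sober hirr isClosed_closure
  refine ⟨w, ?_⟩
  intro U hU
  rw [hw.mem_open_set_iff hU]
  constructor
  · rintro ⟨y, hy1, hy2⟩
    obtain ⟨_, h1, ⟨x, rfl⟩⟩ := mem_closure_iff.1 hy1 U hU hy2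
    exact ⟨x, h1⟩
  · rintro ⟨x, hx⟩
    exact ⟨g x, subset_closure (mem_range_self x), hx⟩

instance instQSPS (m : ℕ) : QuasiSober (PS m) := by
  constructor
  intro C hC hC'
  rcases isClosed_PS C hC' with h | ⟨h1, h2⟩
  · refine ⟨gen m, ?_⟩
    rw [isGenericPoint_def, h]
    apply eq_univ_of_forall
    intro y
    rw [mem_closure_iff]
    intro U hU hy
    exact ⟨gen m, gen_mem_of_open hU ⟨y, hy⟩, rfl⟩
  · obtain ⟨c, hc⟩ := hC.nonempty
    rcases PS_cases c with h3 | ⟨p, h3⟩
    · exact absurd (h3 ▸ hc) h1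
    · refine ⟨c, ?_⟩
      have hcl : IsClosed ({c} : Set (PS m)) := by rw [h3]; exact isClosed_singleton_inc p
      rw [isGenericPoint_def, hcl.closure_eq]
      have hcl2 : IsClosed (C \ {c}) := by
        apply isClosed_small
        · intro h; exact h1 h.1
        · exact lt_of_le_of_lt (Cardinal.mk_le_mk_of_subset Set.sdiff_subset) h2
      have := (isPreirreducible_iff_isClosed_union_isClosed.1 hC.isPreirreducible) {c} (C \ {c}) hcl hcl2
        (by intro y hy; by_cases hyc : y = c
            · left; exact hyc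
            · right; exact ⟨hy, hyc⟩)
      rcases this with h | h
      · exact (Set.Subset.antisymm h (singleton_subset_iff.2 hc)).symm
      · exact absurd rfl (h hc).2

/-- a continuous map on `PS m` sends the generic point to a generic point of the image -/
theorem gen_of_cont {W : Type} [TopologicalSpace W] {m : ℕ} (h : PS m → W) (hh : Continuous h) :
    ∀ U : Set W, IsOpen U → (h (gen m) ∈ U ↔ ∃ x, (h ∘ inc m) x ∈ U) := by
  intro U hU
  have hop := hU.preimage hh
  constructor
  · intro hg
    rcases (isOpen_PS _).1 hop with h1 | ⟨h1, h2⟩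
    · exact absurd (show gen m ∈ h ⁻¹' U from hg) (by rw [h1]; exact fun h => h)
    · by_contra hne
      push Not at hne
      have hsub : range (inc m) ⊆ (h ⁻¹' U)ᶜ := by
        rintro _ ⟨p, rfl⟩
        exact hne p
      have h3 := lt_of_le_of_lt (Cardinal.mk_le_mk_of_subset hsub) h2
      rw [Cardinal.mk_range_eq _ (inc_injective m), mk_P] at h3
      exact lt_irrefl _ h3
  · rintro ⟨x, hx⟩
    exact gen_mem_of_open hop ⟨inc m x, hx⟩

/-- extension of a map -/
noncomputable def extend {W : Type} {m : ℕ} (g : P m → W) (w : W) : PS m → W := fun y =>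
  Option.elim (show Option (P m) from y) w g

theorem extend_gen {W : Type} {m : ℕ} (g : P m → W) (w : W) : extend g w (gen m) = w := rfl
theorem extend_inc {W : Type} {m : ℕ} (g : P m → W) (w : W) (p : P m) :
    extend g w (inc m p) = g p := rfl

theorem continuous_extend {W : Type} [TopologicalSpace W] {m : ℕ} (g : P m → W) (hg : Continuous g)
    (w : W) (hw : ∀ U : Set W, IsOpen U → (w ∈ U ↔ ∃ x, g x ∈ U)) : Continuous (extend g w) := by
  rw [continuous_def]
  intro U hU
  by_cases hne : ∃ x, g x ∈ U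
  · rw [isOpen_PS]
    right
    refine ⟨?_, ?_⟩
    · show extend g w (gen m) ∈ U
      rw [extend_gen]
      exact (hw U hU).2 hne
    · have h1 := (isOpen_P _).1 (hU.preimage hg)
      rcases h1 with h1 | h1
      · obtain ⟨x, hx⟩ := hne
        exact absurd (show x ∈ g ⁻¹' U from hx) (by rw [h1]; exact fun h => h)
      · refine lt_of_le_of_lt ?_ h1
        refine le_trans (Cardinal.mk_le_mk_of_subset (t := inc m '' (g ⁻¹' U)ᶜ) ?_) Cardinal.mk_image_le
        intro y hy
        rcases PS_cases y with h2 | ⟨p, h2⟩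
        · exfalso
          apply hy
          show extend g w y ∈ U
          rw [h2, extend_gen]
          exact (hw U hU).2 hne
        · refine ⟨p, ?_, h2.symm⟩
          intro h3
          apply hy
          show extend g w y ∈ U
          rw [h2, extend_inc]
          exact h3
  · rw [isOpen_PS]
    left
    rw [eq_empty_iff_forall_notMem]
    intro y hy
    rcases PS_cases y with h2 | ⟨p, h2⟩
    · apply hne
      have : extend g w y ∈ U := hy
      rw [h2, extend_gen] at this
      exact (hw U hU).1 this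
    · apply hne
      have : extend g w y ∈ U := hy
      rw [h2, extend_inc] at this
      exact ⟨p, this⟩

/-- The product of the `PS n`. -/
abbrev T : Type := ∀ n : ℕ, PS n

def ZZ : Set T := {y | {n : ℕ | y n = gen n}.Finite}

/-- key lemma -/
theorem key {m n : ℕ} (hmn : n ≠ m) (g : P m → PS n) (hg : Continuous g)
    (hgen : ∀ U : Set (PS n), IsOpen U → (gen n ∈ U ↔ ∃ x, g x ∈ U)) :
    #{x : P m | g x ≠ gen n} < kap m := by
  by_contra hbig
  push Not at hbig
  -- a closed set `C` of `PS n` missing `gen n` containing range of g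
  have fin : ∀ C : Set (PS n), IsClosed C → gen n ∉ C → (∀ x, g x ∈ C) → False := by
    intro C hC hC' hx
    obtain ⟨x, hx'⟩ := (hgen Cᶜ hC.isOpen_compl).1 hC'
    exact hx' (hx x)
  rcases lt_or_gt_of_ne hmn with h | h
  · -- n < m : regularity
    have hlt : kap n < kap m := kap_lt h
    -- some fibre is large
    have : ∃ p : P n, kap m ≤ #(g ⁻¹' {inc n p}) := by
      by_contra hno
      push Not at hno
      have hU : {x : P m | g x ≠ gen n} ⊆ ⋃ p : P n, g ⁻¹' {inc n p} := by
        intro x hx
        rcases PS_cases (g x) with h1 | ⟨p, h1⟩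
        · exact absurd h1 hx
        · exact mem_iUnion.2 ⟨p, h1⟩
      have h2 : #(⋃ p : P n, g ⁻¹' {inc n p}) < kap m := by
        refine lt_of_le_of_lt (Cardinal.mk_iUnion_le_sum_mk) ?_
        apply Cardinal.sum_lt_of_isRegular (kap_regular m)
        · rw [mk_P]; exact hlt
        · exact hno
      exact absurd (lt_of_le_of_lt (Cardinal.mk_le_mk_of_subset hU) h2) (not_lt.2 hbig)
    obtain ⟨p, hp⟩ := this
    have huniv := closed_big _ ((isClosed_singleton_inc p).preimage hg) hp
    refine fin {inc n p} (isClosed_singleton_inc p) ?_ ?_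
    · intro h'; exact inc_ne_gen p (mem_singleton_iff.1 h').symm
    · intro x
      have : x ∈ g ⁻¹' {inc n p} := by rw [huniv]; trivial
      exact this
  · -- m < n
    have hlt : kap m < kap n := kap_lt h
    set E : Set (P m) := {x : P m | g x ≠ gen n} with hE
    have hcl : IsClosed (g '' E) := by
      apply isClosed_small
      · rintro ⟨x, hx, hx'⟩
        exact hx hx'
      · refine lt_of_le_of_lt Cardinal.mk_image_le ?_
        refine lt_of_le_of_lt (Cardinal.mk_set_le E) ?_
        rw [mk_P]
        exact hlt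
    have huniv := closed_big (g ⁻¹' (g '' E)) (hcl.preimage hg)
      (le_trans hbig (Cardinal.mk_le_mk_of_subset (subset_preimage_image g E)))
    refine fin (g '' E) hcl ?_ ?_
    · rintro ⟨x, hx, hx'⟩
      exact hx hx'
    · intro x
      have : x ∈ g ⁻¹' (g '' E) := by rw [huniv]; trivial
      exact this

theorem KK_ZZ : KK ↥ZZ := by
  refine ⟨inferInstance, ?_⟩
  intro m g hg
  have hgc : ∀ n, Continuous (fun x => (g x).1 n) := fun n =>
    (continuous_apply n).comp (continuous_subtype_val.comp hg)
  -- the generic points of coordinates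
  have h1 : ∀ n, ∃ w : PS n, ∀ U : Set (PS n), IsOpen U → (w ∈ U ↔ ∃ x, (g x).1 n ∈ U) := by
    intro n
    exact (KK_of_sober (PS n)).2 m _ (hgc n)
  choose w hw using h1
  have hwZ : w ∈ ZZ := by
    -- set of `n ≠ m` with `w n = gen n`
    set N : Set ℕ := {n | n ≠ m ∧ w n = gen n} with hN
    have hNfin : N.Finite := by
      have hsmall : ∀ n ∈ N, #{x : P m | (g x).1 n ≠ gen n} < kap m := by
        intro n hn
        apply key hn.1 _ (hgc n)
        have := hw n
        rw [hn.2] at this
        exact this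
      have hU : #(⋃ n : N, {x : P m | (g x).1 n ≠ gen n.1}) < kap m := by
        refine lt_of_le_of_lt (Cardinal.mk_iUnion_le_sum_mk) ?_
        apply Cardinal.sum_lt_of_isRegular (kap_regular m)
        · exact lt_of_le_of_lt (Cardinal.mk_le_aleph0) (aleph0_lt_kap m)
        · intro n
          exact hsmall n.1 n.2
      have : ∃ x : P m, ∀ n ∈ N, (g x).1 n = gen n := by
        by_contra hno
        push Not at hno
        have huniv : (⋃ n : N, {x : P m | (g x).1 n ≠ gen n.1}) = univ := by
          apply eq_univ_of_forall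
          intro x
          obtain ⟨n, hn, hn'⟩ := hno x
          exact mem_iUnion.2 ⟨⟨n, hn⟩, hn'⟩
        rw [huniv, Cardinal.mk_univ, mk_P] at hU
        exact lt_irrefl _ hU
      obtain ⟨x, hx⟩ := this
      exact (g x).2.subset hx
    refine (hNfin.union (finite_singleton m)).subset ?_
    intro n hn
    by_cases hnm : n = m
    · right; exact hnm
    · left; exact ⟨hnm, hn⟩
  refine ⟨⟨w, hwZ⟩, ?_⟩
  intro U hU
  obtain ⟨V, hV, rfl⟩ := isOpen_induced_iff.1 hU
  constructor
  · intro hwV
    -- basic open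
    obtain ⟨I, u, hu1, hu2⟩ := isOpen_pi_iff.1 hV w hwV
    -- intersection of finitely many nonempty open sets of `P m`
    have : ∀ J : Finset ℕ, J ⊆ I → ∃ x : P m, ∀ n ∈ J, (g x).1 n ∈ u n := by
      intro J hJ
      have hgoal : (⋂ n ∈ J, (fun x => (g x).1 n) ⁻¹' (u n)).Nonempty ∧
          IsOpen (⋂ n ∈ J, (fun x => (g x).1 n) ⁻¹' (u n)) := by
        induction J using Finset.induction_on with
        | empty =>
          obtain ⟨x⟩ := nonempty_P m
          refine ⟨⟨x, ?_⟩, ?_⟩
          · simp
          · simp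
        | insert a J ha ih =>
          have ih' := ih (fun n hn => hJ (Finset.mem_insert_of_mem hn))
          rw [Finset.set_biInter_insert]
          have haI : a ∈ I := hJ (Finset.mem_insert_self _ _)
          have hopen : IsOpen ((fun x => (g x).1 a) ⁻¹' (u a)) := (hu1 a haI).1.preimage (hgc a)
          have hne : ((fun x => (g x).1 a) ⁻¹' (u a)).Nonempty := by
            obtain ⟨x, hx⟩ := (hw a (u a) (hu1 a haI).1).1 (hu1 a haI).2
            exact ⟨x, hx⟩
          exact ⟨open_inter_nonempty hopen ih'.2 hne ih'.1, hopen.inter ih'.2⟩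
      obtain ⟨x, hx⟩ := hgoal.1
      refine ⟨x, ?_⟩
      intro n hn
      have := mem_iInter₂.1 hx n hn
      exact this
    obtain ⟨x, hx⟩ := this I (Finset.Subset.refl _)
    refine ⟨x, ?_⟩
    apply hu2
    intro n hn
    exact hx n hn
  · rintro ⟨x, hx⟩
    obtain ⟨I, u, hu1, hu2⟩ := isOpen_pi_iff.1 hV _ hx
    apply hu2
    intro n hn
    exact (hw n (u n) (hu1 n hn).1).2 ⟨x, (hu1 n hn).2⟩

theorem result :
    ¬ (∀ (K : (X : Type) → [TopologicalSpace X] → Prop),
    (∀ (X : Type) [TopologicalSpace X], K X → T0Space X) →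
    (∀ (X : Type) [TopologicalSpace X] [T0Space X] [QuasiSober X], K X) →
    (∀ (X Y : Type) [TopologicalSpace X] [TopologicalSpace Y],
        Nonempty (X ≃ₜ Y) → K X → K Y) →
    (∀ (Y : Type) [TopologicalSpace Y] [T0Space Y] [QuasiSober Y] (S : Set (Set Y)),
        (∀ A ∈ S, K ↥A) → K ↥(⋂₀ S)) →
    (∀ (X Y : Type) [TopologicalSpace X] [TopologicalSpace Y] [T0Space X] [QuasiSober X]
        [T0Space Y] [QuasiSober Y] (f : X → Y), Continuous f →
        ∀ B : Set Y, K ↥B → K ↥(f ⁻¹' B)) →
    ∀ (I : Type) (X R : I → Type) [∀ i, TopologicalSpace (X i)] [∀ i, T0Space (X i)]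
      [∀ i, TopologicalSpace (R i)] (η : ∀ i, X i → R i),
      (∀ i, Continuous (η i) ∧ K (R i) ∧
        ∀ (Z : Type) [TopologicalSpace Z], K Z → ∀ g : X i → Z, Continuous g →
          ∃! h : R i → Z, Continuous h ∧ h ∘ η i = g) →
      (Continuous (fun (x : ∀ i, X i) (i : I) => η i (x i)) ∧ K (∀ i, R i) ∧
        ∀ (Z : Type) [TopologicalSpace Z], K Z → ∀ g : (∀ i, X i) → Z, Continuous g →
          ∃! h : (∀ i, R i) → Z, Continuous h ∧
            (h ∘ fun (x : ∀ i, X i) (i : I) => η i (x i)) = g)) := by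
  intro H
  have H1 := @H (fun X [TopologicalSpace X] => KK X)
    (fun X _ h => h.1)
    (fun X _ _ _ => KK_of_sober X)
    (by
      rintro X Y _ _ ⟨e⟩ ⟨h1, h2⟩
      refine ⟨?_, ?_⟩
      · exact e.symm.isEmbedding.t0Space
      · intro m g hg
        obtain ⟨w, hw⟩ := h2 m (e.symm ∘ g) (e.symm.continuous.comp hg)
        refine ⟨e w, ?_⟩
        intro U hU
        have := hw (e ⁻¹' U) (hU.preimage e.continuous)
        simpa using this)
    (by
      intro Y _ _ _ S hS
      refine ⟨inferInstance, ?_⟩
      intro m g hg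
      obtain ⟨w, hw⟩ := (KK_of_sober Y).2 m (fun x => (g x).1) (continuous_subtype_val.comp hg)
      have hwS : w ∈ ⋂₀ S := by
        rw [mem_sInter]
        intro A hA
        have hgA : Continuous (fun x => (⟨(g x).1, mem_sInter.1 (g x).2 A hA⟩ : ↥A)) := by
          apply Continuous.subtype_mk
          exact continuous_subtype_val.comp hg
        obtain ⟨v, hv⟩ := (hS A hA).2 m _ hgA
        have : w = v.1 := by
          apply gen_unique hw
          intro U hU
          have := hv (Subtype.val ⁻¹' U) (hU.preimage continuous_subtype_val)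
          exact this
        rw [this]
        exact v.2
      refine ⟨⟨w, hwS⟩, ?_⟩
      intro U hU
      obtain ⟨V, hV, rfl⟩ := isOpen_induced_iff.1 hU
      exact hw V hV)
    (by
      intro X Y _ _ _ _ _ _ f hf B hB
      refine ⟨inferInstance, ?_⟩
      intro m g hg
      obtain ⟨w, hw⟩ := (KK_of_sober X).2 m (fun x => (g x).1) (continuous_subtype_val.comp hg)
      have hwB : f w ∈ B := by
        have hgB : Continuous (fun x => (⟨f (g x).1, (g x).2⟩ : ↥B)) := by
          apply Continuous.subtype_mk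
          exact hf.comp (continuous_subtype_val.comp hg)
        obtain ⟨v, hv⟩ := hB.2 m _ hgB
        have : f w = v.1 := by
          apply gen_unique (g := fun x => f (g x).1) (m := m)
          · intro U hU
            exact hw (f ⁻¹' U) (hU.preimage hf)
          · intro U hU
            have := hv (Subtype.val ⁻¹' U) (hU.preimage continuous_subtype_val)
            exact this
        rw [this]
        exact v.2
      refine ⟨⟨w, hwB⟩, ?_⟩
      intro U hU
      obtain ⟨V, hV, rfl⟩ := isOpen_induced_iff.1 hU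
      exact hw V hV)
    ℕ P PS _ _ _ inc
    (by
      intro m
      refine ⟨continuous_inc m, KK_of_sober (PS m), ?_⟩
      intro W _ hW g hg
      haveI := hW.1
      obtain ⟨w, hw⟩ := hW.2 m g hg
      refine ⟨extend g w, ⟨continuous_extend g hg w hw, ?_⟩, ?_⟩
      · rfl
      · rintro h ⟨hh, rfl⟩
        funext y
        rcases PS_cases y with h2 | ⟨p, h2⟩
        · rw [h2, extend_gen]
          exact gen_unique (gen_of_cont h hh) hw
        · rw [h2, extend_inc]
          rfl)
  obtain ⟨hc, hT, huni⟩ := H1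
  -- the inclusion of the product into `ZZ`
  have hmem : ∀ x : (∀ m, P m), (fun m => inc m (x m)) ∈ ZZ := by
    intro x
    have : {n : ℕ | (fun m => inc m (x m)) n = gen n} = ∅ := by
      rw [eq_empty_iff_forall_notMem]
      intro n hn
      exact inc_ne_gen _ hn
    show {n : ℕ | (fun m => inc m (x m)) n = gen n}.Finite
    rw [this]
    exact finite_empty
  obtain ⟨h, ⟨hh1, hh2⟩, -⟩ := huni ↥ZZ KK_ZZ (fun x => ⟨fun m => inc m (x m), hmem x⟩)
    (Continuous.subtype_mk hc _)
  obtain ⟨h', -, hun⟩ := huni (∀ m, PS m) hT _ hc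
  have e1 := hun id ⟨continuous_id, rfl⟩
  have e2 := hun (Subtype.val ∘ h) ⟨continuous_subtype_val.comp hh1, by
    funext x
    have := congrFun hh2 x
    have h3 : (h (fun i => inc i (x i))).1 = fun i => inc i (x i) := congrArg Subtype.val this
    exact h3⟩
  have e3 : (id : T → T) (fun m => gen m) = (Subtype.val ∘ h) (fun m => gen m) := by
    rw [e1, ← e2]
  have e4 : (fun m => gen m) ∈ ZZ := by
    have : (fun m => gen m) = (h (fun m => gen m)).1 := e3
    rw [this]
    exact (h _).2
  have e5 : {n : ℕ | (fun m => gen m) n = gen n} = univ := by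
    apply eq_univ_of_forall
    intro n
    rfl
  have e6 : ({n : ℕ | (fun m => gen m) n = gen n}).Finite := e4
  rw [e5] at e6
  exact infinite_univ e6

end Pool.Agent.S08740
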