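import Pool.Statements.S08750

set_option autoImplicit false
open Pool Pool.MP_182cc9_gt

namespace Pool.Agent.S08750

open Set

/-- The compact space `[0,1] × 2^(ℝ×ℝ)`. -/
abbrev X : Type := unitInterval × (ℝ × ℝ → Bool)

/-- characteristic function of a point -/
noncomputable def e (d : ℝ × ℝ) : ℝ × ℝ → Bool := by
  classical exact fun d' => decide (d' = d)

theorem e_self (d : ℝ × ℝ) : e d d = true := by
  classical
  simp [e]

theorem e_ne {d d' : ℝ × ℝ} (h : d' ≠ d) : e d d' = false := by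
  classical
  simp [e, h]

theorem e_true {d d' : ℝ × ℝ} (h : e d d' = true) : d' = d := by
  by_contra hne
  rw [e_ne hne] at h
  exact Bool.false_ne_true h

/-- The relatively discrete set. -/
def Z : Set X := {p | ∃ s : ℝ, p.2 = e ((p.1 : ℝ), s)}

theorem mem_Z (r : unitInterval) (s : ℝ) : ((r, e ((r : ℝ), s)) : X) ∈ Z := ⟨s, rfl⟩

/-- the recursion -/
def DD : ℕ → Set X → Set X → Prop
  | 0 => fun Y A => A ∩ Y = ∅
  | (k + 1) => fun Y A => (A ∩ Y = ∅ ∨
          ∀ F G : Set X, (∃ C : Set X, IsClosed C ∧ F = Y ∩ C) →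
            (∃ C : Set X, IsClosed C ∧ G = Y ∩ C) → Disjoint F G →
            ∃ S U V : Set X, S ⊆ Y ∧ (∃ C : Set X, IsClosed C ∧ S = Y ∩ C) ∧
              (∃ O : Set X, IsOpen O ∧ U = Y ∩ O) ∧
              (∃ O : Set X, IsOpen O ∧ V = Y ∩ O) ∧
              Disjoint U V ∧ Y \ S = U ∪ V ∧ F ⊆ U ∧ G ⊆ V ∧
              DD k S (A ∩ S))

/-- every subset of `Z` is relatively open -/
theorem Z_discrete (B : Set X) (hB : B ⊆ Z) : ∃ O : Set X, IsOpen O ∧ B = Z ∩ O := by
  refine ⟨⋃ (p : X) (_ : p ∈ B), ⋃ (s : ℝ) (_ : p.2 = e ((p.1 : ℝ), s)),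
    {q : X | q.2 ((p.1 : ℝ), s) = true}, ?_, ?_⟩
  · refine isOpen_iUnion fun p => isOpen_iUnion fun _ => isOpen_iUnion fun s =>
      isOpen_iUnion fun _ => ?_
    have hc : Continuous (fun q : X => q.2 ((p.1 : ℝ), s)) :=
      (continuous_apply _).comp continuous_snd
    exact (isOpen_discrete ({true} : Set Bool)).preimage hc
  · ext q
    simp only [mem_inter_iff, mem_iUnion, mem_ofPred_eq]
    constructor
    · intro hq
      refine ⟨hB hq, q, hq, ?_⟩
      obtain ⟨s, hs⟩ := hB hq
      refine ⟨s, hs, ?_⟩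
      rw [hs]
      exact e_self _
    · rintro ⟨⟨s', hs'⟩, p, hp, s, hs, h⟩
      rw [hs'] at h
      have h2 := e_true h
      have h3 : (p.1 : ℝ) = (q.1 : ℝ) := congrArg Prod.fst h2
      have h4 : p.1 = q.1 := Subtype.ext h3
      have h5 : p.2 = q.2 := by rw [hs, hs', h2]
      have h6 : p = q := Prod.ext h4 h5
      rw [← h6]
      exact hp

theorem D_one_Z : DD 1 Z Z := by
  right
  rintro F G ⟨C, hC, hF⟩ ⟨C', hC', hG⟩ hFG
  refine ⟨∅, F, Z \ F, empty_subset _, ⟨∅, isClosed_empty, by simp⟩, ?_, ?_, ?_, ?_, ?_, ?_, ?_⟩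
  · exact Z_discrete F (by rw [hF]; exact inter_subset_left)
  · exact Z_discrete (Z \ F) Set.sdiff_subset
  · exact disjoint_sdiff_right
  · rw [sdiff_empty]
    ext q
    constructor
    · intro hq
      by_cases h : q ∈ F
      · left; exact h
      · right; exact ⟨hq, h⟩
    · rintro (h | h)
      · rw [hF] at h
        exact h.1
      · exact h.1
  · exact Subset.refl _
  · intro q hq
    refine ⟨?_, ?_⟩
    · rw [hG] at hq
      exact hq.1
    · intro hqF
      exact (Set.disjoint_left.1 hFG hqF) hq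
  · show (Z ∩ ∅) ∩ ∅ = ∅
    simp

/-- the set of good second coordinates -/
def A (U : Set X) (r : unitInterval) (k : ℕ) : Set ℝ :=
  {s | ∃ Fi : Finset (ℝ × ℝ), ∀ p : X, dist p.1 r < 1 / ((k : ℝ) + 1) →
    (∀ d ∈ Fi, p.2 d = e ((r : ℝ), s) d) → p ∈ U}

def R (U : Set X) : Set unitInterval := {r | ∃ k, ¬ (A U r k).Countable}

theorem cover_of_open (U : Set X) (hU : IsOpen U) (r : unitInterval) (s : ℝ)
    (h : ((r, e ((r : ℝ), s)) : X) ∈ U) : ∃ k, s ∈ A U r k := by
  obtain ⟨u, v, hu, hv, hru, hsv, huv⟩ := isOpen_prod_iff.1 hU r (e ((r : ℝ), s)) h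
  obtain ⟨ε, hε, hball⟩ := Metric.isOpen_iff.1 hu r hru
  obtain ⟨k, hk⟩ := exists_nat_one_div_lt hε
  obtain ⟨I, w, hw1, hw2⟩ := isOpen_pi_iff.1 hv _ hsv
  refine ⟨k, I, ?_⟩
  intro p hp1 hp2
  apply huv
  refine ⟨?_, ?_⟩
  · apply hball
    rw [Metric.mem_ball]
    exact lt_trans hp1 hk
  · apply hw2
    intro d hd
    rw [hp2 d hd]
    exact (hw1 d hd).2

theorem key (U V : Set X) (hUV : Disjoint U V) (r r' : unitInterval) (k l : ℕ)
    (h1 : ¬ (A U r k).Countable) (h2 : ¬ (A V r' l).Countable) (q : unitInterval)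
    (hq1 : dist q r < 1 / ((k : ℝ) + 1)) (hq2 : dist q r' < 1 / ((l : ℝ) + 1)) : False := by
  classical
  -- a countable infinite subset of `A U r k`
  have hinf : (A U r k).Infinite := fun hfin => h1 hfin.countable
  obtain ⟨B, hB1, hB2, hB3⟩ : ∃ B : Set ℝ, B ⊆ A U r k ∧ B.Infinite ∧ B.Countable := by
    let f : ℕ ↪ ↥(A U r k) := hinf.natEmbedding
    refine ⟨range (fun n => (f n : ℝ)), ?_, ?_, countable_range _⟩
    · rintro _ ⟨n, rfl⟩
      exact (f n).2
    · apply Set.infinite_range_of_injective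
      intro a b hab
      exact f.injective (Subtype.ext hab)
  have hB4 : ∀ s : ℝ, ∃ Fi : Finset (ℝ × ℝ), s ∈ B → ∀ p : X, dist p.1 r < 1 / ((k : ℝ) + 1) →
    (∀ d ∈ Fi, p.2 d = e ((r : ℝ), s) d) → p ∈ U := by
    intro s
    by_cases hs : s ∈ B
    · obtain ⟨Fi, hFi⟩ := hB1 hs
      exact ⟨Fi, fun _ => hFi⟩
    · exact ⟨∅, fun h => absurd h hs⟩
  choose Fi hFi using hB4
  -- the countable set of second coordinates to avoid
  have hcount : (⋃ s ∈ B, {t : ℝ | ((r' : ℝ), t) ∈ Fi s}).Countable := by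
    apply hB3.biUnion
    intro s _
    apply Set.Finite.countable
    have : {t : ℝ | ((r' : ℝ), t) ∈ Fi s} ⊆ ((Fi s).image Prod.snd : Finset ℝ) := by
      intro t ht
      simp only [Finset.coe_image, mem_image]
      exact ⟨_, ht, rfl⟩
    exact (Finset.finite_toSet _).subset this
  obtain ⟨s', hs', hs'2⟩ : ∃ s' ∈ A V r' l, s' ∉ (⋃ s ∈ B, {t : ℝ | ((r' : ℝ), t) ∈ Fi s}) := by
    by_contra hno
    push Not at hno
    exact h2 (hcount.mono hno)
  obtain ⟨Fi', hFi'⟩ := hs'
  obtain ⟨s, hsB, hs⟩ : ∃ s ∈ B, ((r : ℝ), s) ∉ Fi' := by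
    by_contra hno
    push Not at hno
    apply hB2
    have : B ⊆ (Fi'.image Prod.snd : Finset ℝ) := by
      intro t ht
      simp only [Finset.coe_image, mem_image]
      exact ⟨_, hno t ht, rfl⟩
    exact (Finset.finite_toSet _).subset this
  have hs'3 : ((r' : ℝ), s') ∉ Fi s := by
    intro h
    apply hs'2
    simp only [mem_iUnion]
    exact ⟨s, hsB, h⟩
  let x : ℝ × ℝ → Bool := fun d => decide (d = ((r : ℝ), s) ∨ d = ((r' : ℝ), s'))
  have hx1 : ((q, x) : X) ∈ U := by
    apply hFi s hsB (q, x) hq1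
    intro d hd
    show decide (d = ((r : ℝ), s) ∨ d = ((r' : ℝ), s')) = e ((r : ℝ), s) d
    by_cases hd1 : d = ((r : ℝ), s)
    · subst hd1
      simp [e_self]
    · rw [e_ne hd1]
      have hd2 : d ≠ ((r' : ℝ), s') := by
        intro h; rw [h] at hd; exact hs'3 hd
      simp [hd1, hd2]
  have hx2 : ((q, x) : X) ∈ V := by
    apply hFi' (q, x) hq2
    intro d hd
    show decide (d = ((r : ℝ), s) ∨ d = ((r' : ℝ), s')) = e ((r' : ℝ), s') d
    by_cases hd1 : d = ((r' : ℝ), s')
    · subst hd1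
      simp [e_self]
    · rw [e_ne hd1]
      have hd2 : d ≠ ((r : ℝ), s) := by
        intro h; rw [h] at hd; exact hs hd
      simp [hd1, hd2]
  exact Set.disjoint_left.1 hUV hx1 hx2

theorem result :
    ¬ (∀ (X : Type) [TopologicalSpace X] [T4Space X] (Z : Set X) (n : ℕ)
      (D : ℕ → Set X → Set X → Prop),
      (∀ Y A : Set X, D 0 Y A ↔ A ∩ Y = ∅) →
      (∀ (k : ℕ) (Y A : Set X), D (k + 1) Y A ↔
        (A ∩ Y = ∅ ∨
          ∀ F G : Set X, (∃ C : Set X, IsClosed C ∧ F = Y ∩ C) →
            (∃ C : Set X, IsClosed C ∧ G = Y ∩ C) → Disjoint F G →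
            ∃ S U V : Set X, S ⊆ Y ∧ (∃ C : Set X, IsClosed C ∧ S = Y ∩ C) ∧
              (∃ O : Set X, IsOpen O ∧ U = Y ∩ O) ∧
              (∃ O : Set X, IsOpen O ∧ V = Y ∩ O) ∧
              Disjoint U V ∧ Y \ S = U ∪ V ∧ F ⊆ U ∧ G ⊆ V ∧
              D k S (A ∩ S))) →
      D n Z Z → D n Set.univ Z) := by
  intro H
  have H1 := H X Z 1 DD (fun Y A => Iff.rfl) (fun k Y A => Iff.rfl) D_one_Z
  rcases H1 with h | h
  · have : ((0 : unitInterval), e (((0 : unitInterval) : ℝ), 0)) ∈ (Z ∩ univ : Set X) :=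
      ⟨mem_Z _ _, mem_univ _⟩
    rw [h] at this
    exact this
  · obtain ⟨S, U, V, -, -, ⟨O, hO, hU⟩, ⟨O', hO', hV⟩, hUV, hS, hF, hG, hD⟩ :=
      h {p : X | p.1 = 0} {p : X | p.1 = 1}
        ⟨{p : X | p.1 = 0}, isClosed_eq continuous_fst continuous_const, by simp⟩
        ⟨{p : X | p.1 = 1}, isClosed_eq continuous_fst continuous_const, by simp⟩
        (by
          rw [Set.disjoint_left]
          intro p hp1 hp2
          have h3 : (0 : unitInterval) = 1 := hp1.symm.trans hp2
          exact zero_ne_one h3)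
    rw [univ_inter] at hU hV
    subst hU hV
    have hZ : ∀ p ∈ Z, p ∈ U ∨ p ∈ V := by
      intro p hp
      have hpS : p ∉ S := by
        intro hpS
        have h5 : p ∈ (Z ∩ S) ∩ S := ⟨⟨hp, hpS⟩, hpS⟩
        have h6 : (Z ∩ S) ∩ S = ∅ := hD
        rw [h6] at h5
        exact h5
      have : p ∈ univ \ S := ⟨mem_univ _, hpS⟩
      rw [hS] at this
      exact this
    have hR : ∀ r : unitInterval, r ∈ R U ∨ r ∈ R V := by
      intro r
      by_contra hno
      push Not at hno
      obtain ⟨hn1, hn2⟩ := hno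
      have hn1' : ∀ k, (A U r k).Countable := by
        intro k; by_contra hk; exact hn1 ⟨k, hk⟩
      have hn2' : ∀ k, (A V r k).Countable := by
        intro k; by_contra hk; exact hn2 ⟨k, hk⟩
      have huniv : (univ : Set ℝ) ⊆ (⋃ k, A U r k) ∪ (⋃ k, A V r k) := by
        intro s _
        rcases hZ _ (mem_Z r s) with h1 | h1
        · left
          exact mem_iUnion.2 (cover_of_open U hO r s h1)
        · right
          exact mem_iUnion.2 (cover_of_open V hO' r s h1)
      have hc : (univ : Set ℝ).Countable :=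
        ((countable_iUnion hn1').union (countable_iUnion hn2')).mono huniv
      exact Cardinal.not_countable_real hc
    have hdisj : ∀ r : unitInterval, r ∈ R U → r ∈ R V → False := by
      rintro r ⟨k, hk⟩ ⟨l, hl⟩
      refine key U V hUV r r k l hk hl r ?_ ?_
      · rw [dist_self]; positivity
      · rw [dist_self]; positivity
    have hopU : IsOpen (R U) := by
      rw [Metric.isOpen_iff]
      rintro r ⟨k, hk⟩
      refine ⟨1 / ((k : ℝ) + 1), by positivity, ?_⟩
      intro r' hr'
      rcases hR r' with h1 | ⟨l, hl⟩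
      · exact h1
      · exfalso
        refine key U V hUV r r' k l hk hl r' ?_ ?_
        · exact Metric.mem_ball.1 hr'
        · rw [dist_self]; positivity
    have hopV : IsOpen (R V) := by
      rw [Metric.isOpen_iff]
      rintro r ⟨l, hl⟩
      refine ⟨1 / ((l : ℝ) + 1), by positivity, ?_⟩
      intro r' hr'
      rcases hR r' with ⟨k, hk⟩ | h1
      · exfalso
        refine key U V hUV r' r k l hk hl r' ?_ ?_
        · rw [dist_self]; positivity
        · exact Metric.mem_ball.1 hr'
      · exact h1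
    have hcompl : (R U)ᶜ = R V := by
      ext r
      constructor
      · intro hr
        rcases hR r with h1 | h1
        · exact absurd h1 hr
        · exact h1
      · intro hr hr'
        exact hdisj r hr' hr
    have hclopen : IsClopen (R U) := by
      refine ⟨?_, hopU⟩
      rw [← isOpen_compl_iff, hcompl]
      exact hopV
    have h0 : (0 : unitInterval) ∈ R U := by
      rcases hR 0 with h1 | ⟨l, hl⟩
      · exact h1
      · exfalso
        obtain ⟨s, Fi, hs⟩ : (A V 0 l).Nonempty := by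
          by_contra hne
          rw [not_nonempty_iff_eq_empty] at hne
          apply hl
          rw [hne]
          exact countable_empty
        have hmem : (((0 : unitInterval), e (((0 : unitInterval) : ℝ), s)) : X) ∈ V := by
          apply hs
          · rw [dist_self]; positivity
          · intro d _; rfl
        have hmem' : (((0 : unitInterval), e (((0 : unitInterval) : ℝ), s)) : X) ∈ U := hF rfl
        exact Set.disjoint_left.1 hUV hmem' hmem
    have h1 : (1 : unitInterval) ∈ R V := by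
      rcases hR 1 with ⟨l, hl⟩ | h1
      · exfalso
        obtain ⟨s, Fi, hs⟩ : (A U 1 l).Nonempty := by
          by_contra hne
          rw [not_nonempty_iff_eq_empty] at hne
          apply hl
          rw [hne]
          exact countable_empty
        have hmem : (((1 : unitInterval), e (((1 : unitInterval) : ℝ), s)) : X) ∈ U := by
          apply hs
          · rw [dist_self]; positivity
          · intro d _; rfl
        have hmem' : (((1 : unitInterval), e (((1 : unitInterval) : ℝ), s)) : X) ∈ V := hG rfl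
        exact Set.disjoint_left.1 hUV hmem hmem'
      · exact h1
    rcases isClopen_iff.1 hclopen with h2 | h2
    · rw [h2] at h0
      exact h0
    · exact hdisj 1 (h2 ▸ mem_univ _) h1

end Pool.Agent.S08750
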