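import Pool.Statements.S08752
import Mathlib

set_option autoImplicit false
open Pool Pool.MP_189718_gt

namespace Pool.Agent.S08752

open Set Cardinal Topology

def T : ℕ → Type
  | 0 => ℕ
  | (n+1) => Set (T n)

theorem T_inf (n : ℕ) : ℵ₀ ≤ #(T n) := by
  induction n with
  | zero => show ℵ₀ ≤ #ℕ; simp
  | succ n ih =>
    show ℵ₀ ≤ #(Set (T n))
    rw [Cardinal.mk_set]
    exact ih.trans (Cardinal.cantor _).le

abbrev II := unitInterval
abbrev S : Type := Σ n, T n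
abbrev J : Type := Σ n, (T n → II)

theorem mk_pow (n : ℕ) : #(T n → II) ≤ #(T (n+1)) := by
  show #(T n → II) ≤ #(Set (T n))
  have h1 : #II ≤ 𝔠 := by
    rw [← Cardinal.mk_real]
    exact Cardinal.mk_subtype_le _
  calc #(T n → II) = #II ^ #(T n) := by simp
    _ ≤ 𝔠 ^ #(T n) := Cardinal.power_le_power_right h1
    _ = (2 ^ ℵ₀) ^ #(T n) := by rw [Cardinal.two_power_aleph0]
    _ = 2 ^ (ℵ₀ * #(T n)) := by rw [← Cardinal.power_mul]
    _ = 2 ^ #(T n) := by rw [Cardinal.aleph0_mul_eq (T_inf n)]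
    _ = #(Set (T n)) := by rw [Cardinal.mk_set]

theorem mk_J : #J ≤ #S := by
  have : #J ≤ Cardinal.sum (fun n => #(T (n+1))) := by
    rw [Cardinal.mk_sigma]
    exact Cardinal.sum_le_sum _ _ mk_pow
  refine this.trans ?_
  rw [← Cardinal.mk_sigma]
  refine Cardinal.mk_le_of_injective (f := fun p : (Σ n, T (n+1)) => (⟨p.1 + 1, p.2⟩ : S)) ?_
  rintro ⟨n, a⟩ ⟨m, b⟩ h
  simp only [Sigma.mk.inj_iff] at h
  obtain ⟨h1, h2⟩ := h
  have : n = m := by omega
  subst this
  simp only [heq_eq_eq] at h2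
  rw [h2]

theorem S_inf : ℵ₀ < #S := by
  have h1 : #(T 1) ≤ #S := by
    refine Cardinal.mk_le_of_injective (f := fun t : T 1 => (⟨1, t⟩ : S)) ?_
    intro a b h
    simpa using h
  refine lt_of_lt_of_le ?_ h1
  show ℵ₀ < #(Set ℕ)
  rw [Cardinal.mk_set]
  simpa using Cardinal.cantor ℵ₀

abbrev K : Type := J → II

open Classical in
noncomputable def pt (s : S) : K := fun j =>
  if h : j.1 = s.1 then j.2 (h ▸ s.2) else 0

theorem pt_same (n : ℕ) (t : T n) (h : T n → II) : pt ⟨n, t⟩ ⟨n, h⟩ = h t := by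
  unfold pt
  simp

theorem pt_ne (n m : ℕ) (hmn : m ≠ n) (t : T n) (h : T m → II) : pt ⟨n, t⟩ ⟨m, h⟩ = 0 := by
  unfold pt
  simp [hmn]

noncomputable def phi (f : {f : K → ℝ // Continuous f}) : S → II := fun s =>
  Set.projIcc (0:ℝ) 1 zero_le_one ((2:ℝ) ^ s.1 * f.1 (pt s))

theorem phi_cont : Continuous phi := by
  apply continuous_pi
  intro s
  apply continuous_projIcc.comp
  exact continuous_const.mul ((continuous_apply (pt s)).comp continuous_subtype_val)

theorem phi_surj : Function.Surjective phi := by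
  intro g
  let h : ∀ n, T n → II := fun n t => g ⟨n, t⟩
  let f : K → ℝ := fun x => ∑' n : ℕ, (1/2 : ℝ) ^ n * (x ⟨n, h n⟩ : ℝ)
  have hf : Continuous f := by
    apply continuous_tsum (u := fun n : ℕ => (1/2 : ℝ) ^ n)
    · intro n
      exact continuous_const.mul (continuous_subtype_val.comp (continuous_apply _))
    · exact summable_geometric_two
    · intro n x
      rw [norm_mul, norm_pow]
      have h1 : ‖((x ⟨n, h n⟩ : II) : ℝ)‖ ≤ 1 := by
        rw [Real.norm_eq_abs, abs_of_nonneg (x ⟨n, h n⟩).2.1]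
        exact (x ⟨n, h n⟩).2.2
      have h2 : ‖(1/2:ℝ)‖ = 1/2 := by norm_num
      rw [h2]
      calc (1/2:ℝ)^n * ‖((x ⟨n, h n⟩ : II) : ℝ)‖ ≤ (1/2:ℝ)^n * 1 := by gcongr
        _ = (1/2:ℝ)^n := by ring
  refine ⟨⟨f, hf⟩, ?_⟩
  funext s
  obtain ⟨n, t⟩ := s
  have hval : f (pt ⟨n, t⟩) = (1/2:ℝ)^n * (g ⟨n, t⟩ : ℝ) := by
    show ∑' m : ℕ, (1/2 : ℝ) ^ m * (pt ⟨n, t⟩ ⟨m, h m⟩ : ℝ) = _
    rw [tsum_eq_single n]
    · rw [pt_same]
    · intro m hm
      rw [pt_ne n m hm]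
      simp
  unfold phi
  simp only [hval]
  have : (2:ℝ)^n * ((1/2:ℝ)^n * (g ⟨n, t⟩ : ℝ)) = (g ⟨n, t⟩ : ℝ) := by
    rw [← mul_assoc, ← mul_pow]
    norm_num
  rw [this]
  exact Set.projIcc_val _ _

/-- basic open sets -/
def bas (F : Finset (J × ℚ × ℚ)) : Set K :=
  {x | ∀ p ∈ F, ((p.2.1 : ℝ)) < (x p.1 : ℝ) ∧ (x p.1 : ℝ) < (p.2.2 : ℝ)}

theorem bas_open (F : Finset (J × ℚ × ℚ)) : IsOpen (bas F) := by
  have : bas F = ⋂ p ∈ F, {x : K | ((p.2.1 : ℝ)) < (x p.1 : ℝ) ∧ (x p.1 : ℝ) < (p.2.2 : ℝ)} := by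
    ext x
    simp [bas]
  rw [this]
  apply isOpen_biInter_finset
  intro p _
  have hc : Continuous (fun x : K => (x p.1 : ℝ)) := continuous_subtype_val.comp (continuous_apply _)
  exact (isOpen_lt continuous_const hc).inter (isOpen_lt hc continuous_const)

theorem bas_nhds (x : K) (U : Set K) (hU : IsOpen U) (hx : x ∈ U) : ∃ F, x ∈ bas F ∧ bas F ⊆ U := by
  obtain ⟨I, w, hw, hI⟩ := isOpen_pi_iff.mp hU _ hx
  have hab : ∀ j : J, ∃ a b : ℚ, j ∈ I → ((a : ℝ) < (x j : ℝ) ∧ (x j : ℝ) < b ∧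
      ∀ z : II, (a : ℝ) < z → (z : ℝ) < b → z ∈ w j) := by
    intro j
    by_cases hj : j ∈ I
    · obtain ⟨hwo, hwx⟩ := hw j hj
      obtain ⟨ε, hε, hball⟩ := Metric.isOpen_iff.mp hwo _ hwx
      obtain ⟨a, ha1, ha2⟩ := exists_rat_btwn (show (x j : ℝ) - ε < (x j : ℝ) by linarith)
      obtain ⟨b', hb1, hb2⟩ := exists_rat_btwn (show (x j : ℝ) < (x j : ℝ) + ε by linarith)
      refine ⟨a, b', fun _ => ⟨ha2, hb1, ?_⟩⟩
      intro z hz1 hz2
      apply hball
      rw [Metric.mem_ball, Subtype.dist_eq, Real.dist_eq, abs_lt]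
      constructor <;> linarith
    · exact ⟨0, 0, fun h => absurd h hj⟩
  choose a b' hab using hab
  classical
  refine ⟨I.image (fun j => (j, a j, b' j)), ?_, ?_⟩
  · intro p hp
    obtain ⟨j, hj, rfl⟩ := Finset.mem_image.mp hp
    exact ⟨(hab j hj).1, (hab j hj).2.1⟩
  · intro y hy
    apply hI
    intro j hj
    have := hy (j, a j, b' j) (Finset.mem_image.mpr ⟨j, hj, rfl⟩)
    exact (hab j hj).2.2 _ this.1 this.2

theorem mk_bas : #(Finset (Finset (J × ℚ × ℚ))) ≤ #S := by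
  have hne : ∀ n, Nonempty (T n → II) := fun n => ⟨fun _ => 0⟩
  have hJinf : Infinite J := by
    refine Infinite.of_injective (fun n : ℕ => (⟨n, fun _ => 0⟩ : J)) ?_
    intro a b h
    simp only [Sigma.mk.inj_iff] at h
    exact h.1
  have h0 : Infinite (J × ℚ × ℚ) := inferInstance
  rw [Cardinal.mk_finset_of_infinite, Cardinal.mk_finset_of_infinite]
  simp only [Cardinal.mk_prod, Cardinal.lift_id, Cardinal.mkRat]
  calc #J * (ℵ₀ * ℵ₀) ≤ #S * (ℵ₀ * ℵ₀) := mul_le_mul_left mk_J _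
    _ = #S := by rw [Cardinal.aleph0_mul_aleph0, Cardinal.mul_aleph0_eq S_inf.le]

/-- The negation of the preceding statement: For compact Hausdorff K and uncountable κ: if C_p(K) with the pointwise topology maps continuously onto [0,1]^κ, then K has a discrete subset of size κ on which every bounded continuous real function extends continuously to K. -/
theorem result :
    ¬ (∀ (K : Type) [TopologicalSpace K] [CompactSpace K] [T2Space K] (ι : Type),
      Cardinal.aleph0 < Cardinal.mk ι →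
      (∃ φ : {f : K → ℝ // Continuous f} → (ι → unitInterval),
          Continuous φ ∧ Function.Surjective φ) →
      ∃ D : Set K, DiscreteTopology (↥D) ∧ Cardinal.mk (↥D) = Cardinal.mk ι ∧
        ∀ g : (↥D) → ℝ, Continuous g → (∃ M : ℝ, ∀ x : ↥D, |g x| ≤ M) →
          ∃ G : K → ℝ, Continuous G ∧ ∀ x : ↥D, G (x : K) = g x) := by
  intro H
  obtain ⟨D, hD, hcard, hext⟩ := H K S S_inf ⟨phi, phi_cont, phi_surj⟩
  classical
  have key : ∀ A : Set D, ∃ 𝒰 : Finset (Finset (J × ℚ × ℚ)), ∀ d : D,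
      d ∈ A ↔ ∃ F ∈ 𝒰, (d : K) ∈ bas F := by
    intro A
    obtain ⟨G, hG, hGA⟩ := hext (fun d => if d ∈ A then 1 else 0) continuous_of_discreteTopology
      ⟨1, fun x => by by_cases h : x ∈ A <;> simp [h]⟩
    let C : Set K := {x | 1 ≤ G x}
    let U : Set K := {x | 1/2 < G x}
    have hC : IsCompact C := (isClosed_le continuous_const hG).isCompact
    have hU : IsOpen U := isOpen_lt continuous_const hG
    have hCU : C ⊆ U := by
      intro x hx
      have : (1:ℝ) ≤ G x := hx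
      show (1/2:ℝ) < G x
      linarith
    choose! F hF1 hF2 using fun x => bas_nhds x U hU
    obtain ⟨t, ht, htC⟩ := hC.elim_nhds_subcover (fun x => bas (F x))
      (fun x hx => (bas_open _).mem_nhds (hF1 x (hCU hx)))
    refine ⟨t.image F, fun d => ⟨fun hd => ?_, ?_⟩⟩
    · have h1 : (d : K) ∈ C := by
        show (1:ℝ) ≤ G d
        rw [hGA d]
        simp [hd]
      obtain ⟨x, hx, hdx⟩ := Set.mem_iUnion₂.mp (htC h1)
      exact ⟨F x, Finset.mem_image_of_mem F hx, hdx⟩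
    · rintro ⟨F', hF', hd⟩
      obtain ⟨x, hx, rfl⟩ := Finset.mem_image.mp hF'
      have h2 : (d : K) ∈ U := hF2 x (hCU (ht x hx)) hd
      by_contra hdA
      have h3 : (1/2:ℝ) < G d := h2
      rw [hGA d] at h3
      simp [hdA] at h3
      linarith
  choose 𝒰 h𝒰 using key
  have hinj : Function.Injective 𝒰 := by
    intro A B hAB
    ext d
    rw [h𝒰 A d, h𝒰 B d, hAB]
  have h1 : #(Set D) ≤ #S := (Cardinal.mk_le_of_injective hinj).trans mk_bas
  rw [Cardinal.mk_set, hcard] at h1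
  exact absurd (Cardinal.cantor #S) (not_lt.mpr h1)

end Pool.Agent.S08752
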