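import Pool.Statements.S08753
import Pool.Agent.Helper18.Confluent
import Pool.Agent.Helper18.Zigzag

set_option autoImplicit false
open Pool Pool.MP_18ddbc_gt

namespace Pool.Agent.S08753

open Set Topology Pool.Agent.Helper18.Conf Pool.Agent.Helper18.Zig

/-- closedness of components in closed sets -/
theorem isClosed_comp {X : Type} [TopologicalSpace X] (E : Set X) (hE : IsClosed E) (x : X)
    (hx : x ∈ E) : IsClosed (connectedComponentIn E x) := by
  rw [connectedComponentIn_eq_image hx]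
  exact hE.isClosedEmbedding_subtypeVal.isClosedMap _ isClosed_connectedComponent

/-- confluence of a coordinate function -/
theorem HQ_coord (g h : ℕ → Pool.Agent.Helper18.Conf.I → Pool.Agent.Helper18.Conf.I)
    (hh : ∀ k, Continuous (h k) ∧ IsOpenMap (h k))
    (f : Lim g → Lim h)
    (hconf : ∀ K : Set (Lim h), IsClosed K → IsConnected K → ∀ x, f x ∈ K →
      f '' connectedComponentIn (f ⁻¹' K) x = K) (j : ℕ)
    (J : Set unitInterval) (hJ : IsClosed J) (hJc : IsPreconnected J) :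
    HQ (fun z => (f z).1 j) J := by
  have := compact_lim h (fun k => (hh k).1)
  intro U U' hU hU' hd hcov ⟨x, hxU, hx⟩
  have hfx : f x ∈ (fun y : Lim h => y.1 j) ⁻¹' J := hx
  let L := connectedComponentIn ((fun y : Lim h => y.1 j) ⁻¹' J) (f x)
  have hLJ : (fun y : Lim h => y.1 j) '' L = J := by
    apply conf_of_HQ _ (cont_proj h j) J hJ _ _ hx
    exact HQ_of_open _ (cont_proj h j) (open_proj h hh j) J hJc
  have hLcl : IsClosed L := isClosed_comp _ (hJ.preimage (cont_proj h j)) _ hfx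
  have hLc : IsConnected L := isConnected_connectedComponentIn_iff.2 hfx
  have hQ := HQ_of_conf f L (hconf L hLcl hLc)
  have hsub : L ⊆ f '' U := by
    apply hQ U U' hU hU' hd
    · intro z hz
      apply hcov
      have hz' : f z ∈ L := hz
      exact connectedComponentIn_subset ((fun y : Lim h => y.1 j) ⁻¹' J) (f x) hz'
    · exact ⟨x, hxU, mem_connectedComponentIn hfx⟩
  intro v hv
  rw [← hLJ] at hv
  obtain ⟨y, hy, rfl⟩ := hv
  obtain ⟨z, hz, rfl⟩ := hsub hy
  exact ⟨z, hz, rfl⟩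

/-- the functions on `Lim g` depending on one coordinate -/
def fin (g : ℕ → unitInterval → unitInterval) (hg : ∀ k, Continuous (g k)) :
    Subalgebra ℝ C(Lim g, ℝ) where
  carrier := {F | ∃ i, ∃ G : C(unitInterval, ℝ), ∀ x : Lim g, F x = G (x.1 i)}
  mul_mem' := by
    rintro F F' ⟨i, G, hG⟩ ⟨i', G', hG'⟩
    have lift : ∀ (i : ℕ) (G : C(unitInterval, ℝ)) (n : ℕ), ∃ G₁ : C(unitInterval, ℝ),
        ∀ x : Lim g, G (x.1 i) = G₁ (x.1 (i + n)) := by
      intro i G n
      induction n with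
      | zero => exact ⟨G, fun _ => rfl⟩
      | succ n ih =>
        obtain ⟨G₁, h₁⟩ := ih
        refine ⟨G₁.comp ⟨g (i + n), hg _⟩, ?_⟩
        intro x
        rw [h₁ x, x.2 (i + n)]
        rfl
    obtain ⟨G₁, h₁⟩ := lift i G i'
    obtain ⟨G₂, h₂⟩ := lift i' G' i
    refine ⟨i + i', G₁ * G₂, ?_⟩
    intro x
    show F x * F' x = G₁ (x.1 (i + i')) * G₂ (x.1 (i + i'))
    rw [hG x, hG' x, h₁ x, h₂ x, add_comm i' i]
  add_mem' := by
    rintro F F' ⟨i, G, hG⟩ ⟨i', G', hG'⟩
    have lift : ∀ (i : ℕ) (G : C(unitInterval, ℝ)) (n : ℕ), ∃ G₁ : C(unitInterval, ℝ),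
        ∀ x : Lim g, G (x.1 i) = G₁ (x.1 (i + n)) := by
      intro i G n
      induction n with
      | zero => exact ⟨G, fun _ => rfl⟩
      | succ n ih =>
        obtain ⟨G₁, h₁⟩ := ih
        refine ⟨G₁.comp ⟨g (i + n), hg _⟩, ?_⟩
        intro x
        rw [h₁ x, x.2 (i + n)]
        rfl
    obtain ⟨G₁, h₁⟩ := lift i G i'
    obtain ⟨G₂, h₂⟩ := lift i' G' i
    refine ⟨i + i', G₁ + G₂, ?_⟩
    intro x
    show F x + F' x = G₁ (x.1 (i + i')) + G₂ (x.1 (i + i'))
    rw [hG x, hG' x, h₁ x, h₂ x, add_comm i' i]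
  algebraMap_mem' := by
    intro r
    exact ⟨0, ContinuousMap.const _ r, fun _ => rfl⟩

theorem approx_one (g : ℕ → unitInterval → unitInterval) (hg : ∀ k, Continuous (g k))
    (φ : Lim g → unitInterval) (hφ : Continuous φ) (δ : ℝ) (hδ : 0 < δ) :
    ∃ i, ∃ G : unitInterval → unitInterval, Continuous G ∧ ∀ z : Lim g, |(G (z.1 i) : ℝ) - φ z| < δ := by
  have := compact_lim g hg
  have hsep : (fin g hg).SeparatesPoints := by
    intro x y hxy
    have : ∃ k, x.1 k ≠ y.1 k := by
      by_contra hno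
      push Not at hno
      exact hxy (Subtype.ext (funext hno))
    obtain ⟨k, hk⟩ := this
    let c : C(unitInterval, ℝ) := ⟨Subtype.val, continuous_subtype_val⟩
    refine ⟨fun z => (z.1 k : ℝ), ?_, ?_⟩
    · refine ⟨⟨fun z : Lim g => (z.1 k : ℝ), continuous_subtype_val.comp (cont_proj g k)⟩, ?_, rfl⟩
      exact ⟨k, c, fun _ => rfl⟩
    · intro h
      exact hk (Subtype.ext h)
  have htop := ContinuousMap.subalgebra_topologicalClosure_eq_top_of_separatesPoints (fin g hg) hsep
  let Φ : C(Lim g, ℝ) := ⟨fun z => (φ z : ℝ), continuous_subtype_val.comp hφ⟩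
  have hmem : Φ ∈ (fin g hg).topologicalClosure := by rw [htop]; trivial
  have hmem' : Φ ∈ closure ((fin g hg : Subalgebra ℝ C(Lim g, ℝ)) : Set C(Lim g, ℝ)) := hmem
  rw [Metric.mem_closure_iff] at hmem'
  obtain ⟨F, ⟨i, G, hG⟩, hF⟩ := hmem' δ hδ
  refine ⟨i, fun t => projIcc 0 1 zero_le_one (G t), continuous_projIcc.comp G.continuous, ?_⟩
  intro z
  have h1 : |(φ z : ℝ) - G (z.1 i)| < δ := by
    have h2 := ContinuousMap.dist_apply_le_dist (f := Φ) (g := F) z
    rw [hG z, Real.dist_eq] at h2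
    exact lt_of_le_of_lt h2 hF
  have h0 := (φ z).2.1
  have h1' := (φ z).2.2
  rw [coe_projIcc]
  rw [abs_lt] at h1 ⊢
  constructor
  · have : (φ z : ℝ) - δ < max 0 (min 1 (G (z.1 i))) := by
      apply lt_max_of_lt_right
      apply lt_min
      · linarith
      · linarith
    linarith
  · have : max 0 (min 1 (G (z.1 i))) < (φ z : ℝ) + δ := by
      apply max_lt
      · linarith
      · exact min_lt_of_right_lt (by linarith)
    linarith

theorem approx_all (g : ℕ → unitInterval → unitInterval) (hg : ∀ k, Continuous (g k))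
    (φ : Lim g → unitInterval) (hφ : Continuous φ) (δ : ℝ) (hδ : 0 < δ) :
    ∃ i₀, ∀ i, i₀ ≤ i → ∃ G : unitInterval → unitInterval, Continuous G ∧
      ∀ z : Lim g, |(G (z.1 i) : ℝ) - φ z| < δ := by
  obtain ⟨i₀, hi₀⟩ := approx_one g hg φ hφ δ hδ
  refine ⟨i₀, ?_⟩
  intro i hi
  obtain ⟨n, rfl⟩ := Nat.exists_eq_add_of_le hi
  clear hi
  induction n with
  | zero => exact hi₀
  | succ n ih =>
    obtain ⟨G, h1, h2⟩ := ih
    refine ⟨G ∘ g (i₀ + n), h1.comp (hg _), ?_⟩
    intro z
    have := h2 z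
    rw [z.2 (i₀ + n)] at this
    exact this

/-- the unimodality property for approximations -/
theorem R_of_HQ (g : ℕ → unitInterval → unitInterval) (hg : ∀ k, Continuous (g k) ∧ IsOpenMap (g k))
    (φ : Lim g → unitInterval)
    (hφ : ∀ J : Set unitInterval, IsClosed J → IsPreconnected J → HQ φ J)
    (i : ℕ) (G : unitInterval → unitInterval) (δ : ℝ)
    (hG : ∀ z : Lim g, |(G (z.1 i) : ℝ) - φ z| < δ) :
    R (fun s => (G (projIcc 0 1 zero_le_one s) : ℝ)) δ := by
  intro s₁ s₂ a h1 h2 ⟨s, hs1, hs2, hs3, hs4, hs5⟩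
  have hval : ∀ t : unitInterval, projIcc (0 : ℝ) 1 zero_le_one (t : ℝ) = t := fun t =>
    projIcc_val _ t
  let O : Set unitInterval := {t | s₁ < (t : ℝ) ∧ (t : ℝ) < s₂}
  let O' : Set unitInterval := {t | (t : ℝ) < s₁ ∨ s₂ < (t : ℝ)}
  have hO : IsOpen O := (isOpen_lt continuous_const continuous_subtype_val).inter
    (isOpen_lt continuous_subtype_val continuous_const)
  have hO' : IsOpen O' := (isOpen_lt continuous_subtype_val continuous_const).union
    (isOpen_lt continuous_const continuous_subtype_val)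
  have hd : Disjoint O O' := by
    rw [Set.disjoint_left]
    rintro t ⟨ht1, ht2⟩ (ht3 | ht3) <;> linarith
  let J : Set unitInterval := {v | a + δ ≤ (v : ℝ)}
  have hJ : IsClosed J := isClosed_le continuous_const continuous_subtype_val
  have hJc : IsPreconnected J := by
    apply Set.OrdConnected.isPreconnected
    constructor
    intro u hu v hv w hw
    have h3 : (u : ℝ) ≤ w := hw.1
    have h4 : a + δ ≤ (u : ℝ) := hu
    show a + δ ≤ (w : ℝ)
    linarith
  have hcov : φ ⁻¹' J ⊆ (fun z : Lim g => z.1 i) ⁻¹' O ∪ (fun z : Lim g => z.1 i) ⁻¹' O' := by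
    intro z hz
    have hz1 : a + δ ≤ (φ z : ℝ) := hz
    have hz2 := (abs_lt.1 (hG z)).1
    have hz3 : a < (G (z.1 i) : ℝ) := by linarith
    have hne1 : ((z.1 i : unitInterval) : ℝ) ≠ s₁ := by
      intro he
      rcases h1 with h | h
      · rw [← he] at h
        exact absurd h (not_lt.2 (z.1 i).2.1)
      · rw [← he] at h
        have h' : (G (projIcc 0 1 zero_le_one ((z.1 i : unitInterval) : ℝ)) : ℝ) ≤ a := h
        rw [hval] at h'
        linarith
    have hne2 : ((z.1 i : unitInterval) : ℝ) ≠ s₂ := by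
      intro he
      rcases h2 with h | h
      · rw [← he] at h
        exact absurd h (not_lt.2 (z.1 i).2.2)
      · rw [← he] at h
        have h' : (G (projIcc 0 1 zero_le_one ((z.1 i : unitInterval) : ℝ)) : ℝ) ≤ a := h
        rw [hval] at h'
        linarith
    rcases lt_or_gt_of_ne hne1 with h3 | h3
    · right; left; exact h3
    · rcases lt_or_gt_of_ne hne2 with h4 | h4
      · left; exact ⟨h3, h4⟩
      · right; right; exact h4
  have hs5' : a + 2 * δ ≤ (G (projIcc (0 : ℝ) 1 zero_le_one s) : ℝ) := hs5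
  obtain ⟨z, hz⟩ := proj_surj g hg i (projIcc (0 : ℝ) 1 zero_le_one s)
  have hzs : ((z.1 i : unitInterval) : ℝ) = s := by
    rw [hz, projIcc_of_mem zero_le_one ⟨hs3, hs4⟩]
  have hzJ : a + δ ≤ (φ z : ℝ) := by
    have h3 := (abs_lt.1 (hG z)).2
    rw [hz] at h3
    linarith
  have h1J : (1 : unitInterval) ∈ J := by
    show a + δ ≤ ((1 : unitInterval) : ℝ)
    have := (φ z).2.2
    show a + δ ≤ (1 : ℝ)
    linarith
  obtain ⟨w, hw1, hw2⟩ := hφ J hJ hJc _ _ (hO.preimage (cont_proj g i)) (hO'.preimage (cont_proj g i))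
    (hd.preimage _) hcov ⟨z, ⟨by rw [hzs]; exact hs1, by rw [hzs]; exact hs2⟩, hzJ⟩ h1J
  refine ⟨(w.1 i : unitInterval), hw1.1, hw1.2, (w.1 i).2.1, (w.1 i).2.2, ?_⟩
  show 1 - δ < (G (projIcc 0 1 zero_le_one ((w.1 i : unitInterval) : ℝ)) : ℝ)
  rw [hval]
  have h3 := (abs_lt.1 (hG w)).1
  rw [hw2] at h3
  have h4 : ((1 : unitInterval) : ℝ) = 1 := rfl
  rw [h4] at h3
  linarith

theorem open_approx (g : ℕ → unitInterval → unitInterval)
    (hg : ∀ k, Continuous (g k) ∧ IsOpenMap (g k))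
    (φ : Lim g → unitInterval) (hφc : Continuous φ)
    (hφ : ∀ J : Set unitInterval, IsClosed J → IsPreconnected J → HQ φ J)
    (ε : ℝ) (hε : 0 < ε) :
    ∃ i₀, ∀ i, i₀ ≤ i → ∃ F : unitInterval → unitInterval, Continuous F ∧ IsOpenMap F ∧
      ∀ z : Lim g, |(F (z.1 i) : ℝ) - φ z| < ε := by
  let δ := min (1 / 16) (ε / 8)
  have hδ0 : 0 < δ := lt_min (by norm_num) (by linarith)
  have hδ1 : δ ≤ 1 / 16 := min_le_left _ _
  have hδ2 : δ ≤ ε / 8 := min_le_right _ _
  obtain ⟨i₀, hi₀⟩ := approx_all g (fun k => (hg k).1) φ hφc δ hδ0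
  refine ⟨i₀, ?_⟩
  intro i hi
  obtain ⟨G, hGc, hG⟩ := hi₀ i hi
  let Γ : ℝ → ℝ := fun s => (G (projIcc 0 1 zero_le_one s) : ℝ)
  have hΓc : Continuous Γ := continuous_subtype_val.comp (hGc.comp continuous_projIcc)
  have hΓ01 : ∀ s, 0 ≤ Γ s ∧ Γ s ≤ 1 := fun s => (G (projIcc 0 1 zero_le_one s)).2
  have hR1 : R Γ δ := R_of_HQ g hg φ hφ i G δ hG
  -- the symmetric version
  have hφ' : ∀ J : Set unitInterval, IsClosed J → IsPreconnected J →
      HQ (fun z => unitInterval.symm (φ z)) J := by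
    intro J hJ hJc U U' hU hU' hd hcov ⟨x, hxU, hx⟩
    have h1 : IsClosed (unitInterval.symm ⁻¹' J) := hJ.preimage unitInterval.continuous_symm
    have h2 : IsPreconnected (unitInterval.symm ⁻¹' J) := by
      have : unitInterval.symm ⁻¹' J = unitInterval.symm '' J := by
        ext t
        constructor
        · intro ht
          exact ⟨unitInterval.symm t, ht, unitInterval.symm_symm t⟩
        · rintro ⟨s, hs, rfl⟩
          show unitInterval.symm (unitInterval.symm s) ∈ J
          rw [unitInterval.symm_symm]; exact hs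
      rw [this]
      exact hJc.image _ unitInterval.continuous_symm.continuousOn
    have h3 := hφ _ h1 h2 U U' hU hU' hd hcov ⟨x, hxU, hx⟩
    intro v hv
    have hv' : unitInterval.symm v ∈ unitInterval.symm ⁻¹' J := by
      show unitInterval.symm (unitInterval.symm v) ∈ J
      rw [unitInterval.symm_symm]; exact hv
    obtain ⟨z, hz, hzv⟩ := h3 hv'
    refine ⟨z, hz, ?_⟩
    show unitInterval.symm (φ z) = v
    rw [hzv, unitInterval.symm_symm]
  have hR2 : R (fun s => 1 - Γ s) δ := by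
    have h1 := R_of_HQ g hg (fun z => unitInterval.symm (φ z)) hφ' i
      (fun t => unitInterval.symm (G t)) δ (by
        intro z
        show |((unitInterval.symm (G (z.1 i)) : unitInterval) : ℝ) -
          ((unitInterval.symm (φ z) : unitInterval) : ℝ)| < δ
        rw [unitInterval.coe_symm_eq, unitInterval.coe_symm_eq, ← abs_neg]
        have e : -(1 - (G (z.1 i) : ℝ) - (1 - (φ z : ℝ))) = (G (z.1 i) : ℝ) - φ z := by ring
        rw [e]
        exact hG z)
    have e : (fun s => ((unitInterval.symm (G (projIcc 0 1 zero_le_one s)) : unitInterval) : ℝ)) =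
        fun s => 1 - Γ s := by
      funext s
      rw [unitInterval.coe_symm_eq]
    rw [← e]
    exact h1
  obtain ⟨F, hF1, hF2, hF3⟩ := exists_open Γ hΓc hΓ01 δ hδ0 hδ1 hR1 hR2
  refine ⟨F, hF1, hF2, ?_⟩
  intro z
  have h1 := hF3 (z.1 i)
  have h2 : Γ ((z.1 i : unitInterval) : ℝ) = G (z.1 i) := by
    show (G (projIcc 0 1 zero_le_one ((z.1 i : unitInterval) : ℝ)) : ℝ) = G (z.1 i)
    rw [projIcc_val]
  rw [h2] at h1
  calc |(F (z.1 i) : ℝ) - φ z| = |((F (z.1 i) : ℝ) - G (z.1 i)) + ((G (z.1 i) : ℝ) - φ z)| := by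
        congr 1; ring
    _ ≤ |(F (z.1 i) : ℝ) - G (z.1 i)| + |(G (z.1 i) : ℝ) - φ z| := abs_add_le _ _
    _ < 6 * δ + δ := add_lt_add_of_le_of_lt h1 (hG z)
    _ = 7 * δ := by ring
    _ ≤ ε := by linarith

theorem result :
    ∀ (g h : ℕ → unitInterval → unitInterval),
      (∀ k, Continuous (g k) ∧ IsOpenMap (g k)) →
      (∀ k, Continuous (h k) ∧ IsOpenMap (h k)) →
      ∀ f : {x : ℕ → unitInterval // ∀ k, x k = g k (x (k + 1))} →
            {y : ℕ → unitInterval // ∀ k, y k = h k (y (k + 1))},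
        Continuous f →
        ((∀ j : ℕ, ∃ F : ℕ → unitInterval → unitInterval,
            (∀ i, Continuous (F i) ∧ IsOpenMap (F i)) ∧
            TendstoUniformly
              (fun (i : ℕ) (x : {x : ℕ → unitInterval // ∀ k, x k = g k (x (k + 1))}) =>
                F i (x.1 i))
              (fun x => (f x).1 j) Filter.atTop)
          ↔
         (∀ K : Set {y : ℕ → unitInterval // ∀ k, y k = h k (y (k + 1))},
            IsClosed K → IsConnected K →
            ∀ x, f x ∈ K → f '' connectedComponentIn (f ⁻¹' K) x = K)) := by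
  intro g h hg hh f hf
  have hcg := compact_lim g (fun k => (hg k).1)
  have hch := compact_lim h (fun k => (hh k).1)
  constructor
  · intro happ K hK hKc x hx
    exact conf_of_HQ f hf K hK (HQ_of_approx g h hg hh f hf happ K hK hKc) x hx
  · intro hconf j
    classical
    let φ : Lim g → unitInterval := fun z => (f z).1 j
    have hφc : Continuous φ := (cont_proj h j).comp hf
    have hφ : ∀ J : Set unitInterval, IsClosed J → IsPreconnected J → HQ φ J := fun J hJ hJc =>
      HQ_coord g h hh f hconf j J hJ hJc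
    -- the approximation property with parameters
    let p : ℕ → ℕ → Prop := fun i n => ∃ F : unitInterval → unitInterval, Continuous F ∧
      IsOpenMap F ∧ ∀ z : Lim g, |(F (z.1 i) : ℝ) - φ z| < 1 / ((n : ℝ) + 1)
    have hF : ∀ i, ∃ F : unitInterval → unitInterval, (Continuous F ∧ IsOpenMap F) ∧
        (p i (Nat.findGreatest (p i) i) →
          ∀ z : Lim g, |(F (z.1 i) : ℝ) - φ z| < 1 / ((Nat.findGreatest (p i) i : ℝ) + 1)) := by
      intro i
      by_cases hp : p i (Nat.findGreatest (p i) i)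
      · obtain ⟨F, h1, h2, h3⟩ := hp
        exact ⟨F, ⟨h1, h2⟩, fun _ => h3⟩
      · exact ⟨id, ⟨continuous_id, IsOpenMap.id⟩, fun h => absurd h hp⟩
    choose F hF1 hF2 using hF
    refine ⟨F, hF1, ?_⟩
    rw [Metric.tendstoUniformly_iff]
    intro ε hε
    obtain ⟨n, hn⟩ := exists_nat_one_div_lt hε
    obtain ⟨i₀, hi₀⟩ := open_approx g hg φ hφc hφ (1 / ((n : ℝ) + 1)) (by positivity)
    rw [Filter.eventually_atTop]
    refine ⟨max i₀ n, ?_⟩
    intro i hi z
    have hpn : p i n := hi₀ i (le_trans (le_max_left _ _) hi)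
    have hni : n ≤ i := le_trans (le_max_right _ _) hi
    have h1 : p i (Nat.findGreatest (p i) i) := Nat.findGreatest_spec hni hpn
    have h2 : n ≤ Nat.findGreatest (p i) i := Nat.le_findGreatest hni hpn
    have h3 := hF2 i h1 z
    have h4 : 1 / ((Nat.findGreatest (p i) i : ℝ) + 1) ≤ 1 / ((n : ℝ) + 1) := by
      apply one_div_le_one_div_of_le
      · positivity
      · have : (n : ℝ) ≤ (Nat.findGreatest (p i) i : ℝ) := by exact_mod_cast h2
        linarith
    rw [dist_comm, Subtype.dist_eq, Real.dist_eq]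
    exact lt_trans (lt_of_lt_of_le h3 h4) hn

end Pool.Agent.S08753
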