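import Pool.Statements.S08787
import Pool.Agent.Helper18.PL6
-- import your own Pool.Agent.* helpers here

set_option autoImplicit false
open scoped ContDiff
open Pool Pool.MP_21eb72_gt

namespace Pool.Agent.S08787

/-- For all large enough m, every smooth map f from the open cube (-1,1)^m to R^2 has a graph that meets some affine 2-plane in R^(m+2) in at least 5 distinct points. -/
theorem result :
    ∃ M : ℕ, ∀ m : ℕ, M ≤ m → ∀ f : (Fin m → ℝ) → (Fin 2 → ℝ),
      ContDiffOn ℝ ∞ f {x : Fin m → ℝ | ∀ i, x i ∈ Set.Ioo (-1 : ℝ) 1} →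
      ∃ P : AffineSubspace ℝ ((Fin m → ℝ) × (Fin 2 → ℝ)),
        Module.finrank ℝ P.direction = 2 ∧
        ∃ S : Finset (Fin m → ℝ), S.card = 5 ∧
          ∀ x ∈ S, (∀ i, x i ∈ Set.Ioo (-1 : ℝ) 1) ∧ (x, f x) ∈ P := by
  exact ⟨8, fun m hm f hf => Pool.Agent.Helper18.PL.main hm f hf⟩

end Pool.Agent.S08787
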