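import Pool.Statements.S08838
-- import your own Pool.Agent.* helpers here

set_option autoImplicit false
open Pool Pool.MP_2c91bd_gt

namespace Pool.Agent.S08838

/-- `ω × ω` together with two extra points. -/
inductive X0 : Type
  | p (n m : ℕ) : X0
  | i1 : X0
  | i2 : X0

open X0

def Op (U : Set X0) : Prop :=
  (i1 ∈ U → ∃ k, ∀ n, k ≤ n → ∀ m, p n m ∈ U) ∧
  (i2 ∈ U → ∀ n, ∃ k, ∀ m, k ≤ m → p n m ∈ U)

instance topX0 : TopologicalSpace X0 where
  IsOpen := Op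
  isOpen_univ := ⟨fun _ => ⟨0, fun _ _ _ => trivial⟩, fun _ _ => ⟨0, fun _ _ => trivial⟩⟩
  isOpen_inter := by
    rintro s t ⟨hs1, hs2⟩ ⟨ht1, ht2⟩
    refine ⟨?_, ?_⟩
    · rintro ⟨h1, h2⟩
      obtain ⟨k, hk⟩ := hs1 h1
      obtain ⟨l, hl⟩ := ht1 h2
      exact ⟨max k l, fun n hn m => ⟨hk n (le_trans (le_max_left _ _) hn) m,
        hl n (le_trans (le_max_right _ _) hn) m⟩⟩
    · rintro ⟨h1, h2⟩ n
      obtain ⟨k, hk⟩ := hs2 h1 n
      obtain ⟨l, hl⟩ := ht2 h2 n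
      exact ⟨max k l, fun m hm => ⟨hk m (le_trans (le_max_left _ _) hm),
        hl m (le_trans (le_max_right _ _) hm)⟩⟩
  isOpen_sUnion := by
    intro S hS
    refine ⟨?_, ?_⟩
    · rintro ⟨s, hs, h⟩
      obtain ⟨k, hk⟩ := (hS s hs).1 h
      exact ⟨k, fun n hn m => ⟨s, hs, hk n hn m⟩⟩
    · rintro ⟨s, hs, h⟩ n
      obtain ⟨k, hk⟩ := (hS s hs).2 h n
      exact ⟨k, fun m hm => ⟨s, hs, hk m hm⟩⟩

lemma isOpen_iff (U : Set X0) : IsOpen U ↔ Op U := Iff.rfl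

instance t1X0 : T1Space X0 := by
  refine ⟨fun x => ?_⟩
  rw [← isOpen_compl_iff, isOpen_iff]
  refine ⟨fun _ => ?_, fun _ n => ?_⟩
  · cases x with
    | p a b =>
      refine ⟨a + 1, fun n hn m h => ?_⟩
      have h' : p n m = p a b := h
      injection h' with h1 h2
      omega
    | i1 => exact ⟨0, fun n _ m h => by have h' : p n m = i1 := h; cases h'⟩
    | i2 => exact ⟨0, fun n _ m h => by have h' : p n m = i2 := h; cases h'⟩
  · cases x with
    | p a b =>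
      refine ⟨b + 1, fun m hm h => ?_⟩
      have h' : p n m = p a b := h
      injection h' with h1 h2
      omega
    | i1 => exact ⟨0, fun m _ h => by have h' : p n m = i1 := h; cases h'⟩
    | i2 => exact ⟨0, fun m _ h => by have h' : p n m = i2 := h; cases h'⟩

lemma isOpen_of_no (U : Set X0) (h1 : i1 ∉ U) (h2 : i2 ∉ U) : IsOpen U :=
  ⟨fun h => absurd h h1, fun h => absurd h h2⟩

lemma compact_of (K F : Set X0) (hF : F.Finite)
    (h : ∀ O : Set X0, IsOpen O → F ⊆ O → (K \ O).Finite) (hFK : F ⊆ K) : IsCompact K := by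
  classical
  refine isCompact_of_finite_subcover (fun {ι} U hU hc => ?_)
  obtain ⟨t1, ht1⟩ := hF.isCompact.elim_finite_subcover U hU (hFK.trans hc)
  have hO : IsOpen (⋃ i ∈ t1, U i) := isOpen_biUnion (fun i _ => hU i)
  obtain ⟨t2, ht2⟩ := (h _ hO ht1).isCompact.elim_finite_subcover U hU
    (Set.sdiff_subset.trans hc)
  refine ⟨t1 ∪ t2, fun x hx => ?_⟩
  by_cases hxo : x ∈ ⋃ i ∈ t1, U i
  · obtain ⟨i, hi, hxi⟩ := Set.mem_iUnion₂.1 hxo
    exact Set.mem_iUnion₂.2 ⟨i, Finset.mem_union_left _ hi, hxi⟩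
  · obtain ⟨i, hi, hxi⟩ := Set.mem_iUnion₂.1 (ht2 ⟨hx, hxo⟩)
    exact Set.mem_iUnion₂.2 ⟨i, Finset.mem_union_right _ hi, hxi⟩

/-- the set of isolated points with first coordinate `< N` and second `< f n` -/
lemma fin_box (N : ℕ) (f : ℕ → ℕ) : {x : X0 | ∃ n m, x = p n m ∧ n < N ∧ m < f n}.Finite := by
  have h : (⋃ n ∈ {n | n < N}, (p n) '' {m | m < f n}).Finite :=
    Set.Finite.biUnion (Set.finite_lt_nat N) (fun n _ => (Set.finite_lt_nat (f n)).image _)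
  refine h.subset ?_
  rintro x ⟨n, m, rfl, hn, hm⟩
  exact Set.mem_iUnion₂.2 ⟨n, hn, m, hm, rfl⟩

section cons

variable (𝓤 : Set (Set X0)) (hopen : ∀ U ∈ 𝓤, IsOpen U)
  (hup : ∀ U ∈ 𝓤, ∀ V : Set X0, IsOpen V → U ⊆ V → V ∈ 𝓤)
  (hdir : ∀ 𝒟 : Set (Set X0), 𝒟.Nonempty → DirectedOn (· ⊆ ·) 𝒟 →
          (∀ D ∈ 𝒟, IsOpen D) → ⋃₀ 𝒟 ∈ 𝓤 → ∃ D ∈ 𝒟, D ∈ 𝓤)

include hdir in
lemma dir_seq {ι : Type} [SemilatticeSup ι] [Nonempty ι] (f : ι → Set X0) (hf : Monotone f)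
    (ho : ∀ i, IsOpen (f i)) (hU : (⋃ i, f i) ∈ 𝓤) : ∃ i, f i ∈ 𝓤 := by
  obtain ⟨D, ⟨i, rfl⟩, hD⟩ := hdir (Set.range f) (Set.range_nonempty f) (by
    rintro _ ⟨i, rfl⟩ _ ⟨j, rfl⟩
    exact ⟨f (i ⊔ j), ⟨_, rfl⟩, hf le_sup_left, hf le_sup_right⟩)
    (by rintro _ ⟨i, rfl⟩; exact ho i) (by rwa [Set.sUnion_range])
  exact ⟨i, hD⟩

/-- isolated points with coordinates in a finite set -/
def ps (t : Finset (ℕ × ℕ)) : Set X0 := {x | ∃ q ∈ t, x = p q.1 q.2}

lemma ps_finite (t : Finset (ℕ × ℕ)) : (ps t).Finite := by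
  have h : ((fun q : ℕ × ℕ => p q.1 q.2) '' (t : Set (ℕ × ℕ))).Finite := t.finite_toSet.image _
  refine h.subset ?_
  rintro x ⟨q, hq, rfl⟩
  exact ⟨q, hq, rfl⟩

include hdir in
lemma add_finite (U G : Set X0) (hU : U ∈ 𝓤) (hG : IsOpen G) (hGU : G ⊆ U)
    (hcov : ∀ x ∈ U, x ∈ G ∨ ∃ n m, x = p n m) :
    ∃ t : Finset (ℕ × ℕ), G ∪ (ps t ∩ U) ∈ 𝓤 := by
  classical
  refine dir_seq 𝓤 hdir (fun t : Finset (ℕ × ℕ) => G ∪ (ps t ∩ U)) ?_ ?_ ?_
  · intro s t hst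
    refine Set.union_subset_union_right _ (Set.inter_subset_inter_left _ ?_)
    rintro x ⟨q, hq, rfl⟩
    exact ⟨q, hst hq, rfl⟩
  · intro t
    refine hG.union (isOpen_of_no _ ?_ ?_)
    · rintro ⟨⟨q, _, h⟩, _⟩
      cases h
    · rintro ⟨⟨q, _, h⟩, _⟩
      cases h
  · have : (⋃ t : Finset (ℕ × ℕ), G ∪ (ps t ∩ U)) = U := by
      apply Set.Subset.antisymm
      · refine Set.iUnion_subset (fun t => Set.union_subset hGU Set.inter_subset_right)
      · intro x hx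
        rcases hcov x hx with h | ⟨n, m, rfl⟩
        · exact Set.mem_iUnion.2 ⟨∅, Or.inl h⟩
        · exact Set.mem_iUnion.2 ⟨{(n, m)}, Or.inr ⟨⟨(n, m), by simp, rfl⟩, hx⟩⟩
    rw [this]
    exact hU

include hopen hup hdir in
lemma case_d (U : Set X0) (hU : U ∈ 𝓤) (h1 : i1 ∉ U) (h2 : i2 ∉ U) :
    ∃ K : Set X0, IsCompact K ∧ K ⊆ U ∧ ∀ V : Set X0, IsOpen V → K ⊆ V → V ∈ 𝓤 := by
  obtain ⟨t, ht⟩ := add_finite 𝓤 hdir U ∅ hU isOpen_empty (Set.empty_subset _) (by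
    intro x hx
    cases x with
    | p n m => exact Or.inr ⟨n, m, rfl⟩
    | i1 => exact absurd hx h1
    | i2 => exact absurd hx h2)
  rw [Set.empty_union] at ht
  exact ⟨_, ((ps_finite t).subset Set.inter_subset_left).isCompact, Set.inter_subset_right,
    fun V hV hK => hup _ ht V hV hK⟩

include hopen hup hdir in
lemma case_a (U : Set X0) (hU : U ∈ 𝓤) (h1 : i1 ∈ U) (h2 : i2 ∈ U) :
    ∃ K : Set X0, IsCompact K ∧ K ⊆ U ∧ ∀ V : Set X0, IsOpen V → K ⊆ V → V ∈ 𝓤 := by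
  refine ⟨U, ?_, subset_rfl, fun V hV hK => hup _ hU V hV hK⟩
  refine compact_of U {i1, i2} (Set.toFinite _) ?_ ?_
  · intro O hO hF
    obtain ⟨k, hk⟩ := hO.1 (hF (by simp))
    have h := hO.2 (hF (by simp))
    choose f hf using h
    refine (fin_box k f).subset ?_
    rintro x ⟨hx, hxO⟩
    cases x with
    | p n m =>
      refine ⟨n, m, rfl, ?_, ?_⟩
      · by_contra hn
        exact hxO (hk n (not_lt.1 hn) m)
      · by_contra hm
        exact hxO (hf n m (not_lt.1 hm))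
    | i1 => exact absurd (hF (by simp)) hxO
    | i2 => exact absurd (hF (by simp)) hxO
  · intro x hx
    rcases hx with rfl | hx
    · exact h1
    · rw [Set.mem_singleton_iff] at hx
      rw [hx]
      exact h2

include hopen hup hdir in
lemma case_b (U : Set X0) (hU : U ∈ 𝓤) (h1 : i1 ∉ U) (h2 : i2 ∈ U) :
    ∃ K : Set X0, IsCompact K ∧ K ⊆ U ∧ ∀ V : Set X0, IsOpen V → K ⊆ V → V ∈ 𝓤 := by
  by_contra hcon
  push Not at hcon
  have hK : ∀ N : ℕ, ∃ V : Set X0, IsOpen V ∧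
      ({i2} ∪ {x | x ∈ U ∧ ∃ n m, x = p n m ∧ n < N}) ⊆ V ∧ V ∉ 𝓤 := by
    intro N
    refine hcon _ ?_ ?_
    · refine compact_of _ {i2} (Set.finite_singleton _) ?_ Set.subset_union_left
      intro O hO hF
      have h := hO.2 (hF rfl)
      choose f hf using h
      refine (fin_box N f).subset ?_
      rintro x ⟨hx | ⟨_, n, m, rfl, hn⟩, hxO⟩
      · exact absurd (hF hx) hxO
      · refine ⟨n, m, rfl, hn, ?_⟩
        by_contra hm
        exact hxO (hf n m (not_lt.1 hm))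
    · rintro x (hx | hx)
      · rw [Set.mem_singleton_iff] at hx
        rw [hx]
        exact h2
      · exact hx.1
  choose V hVo hVK hVn using hK
  have hmono : Monotone (fun N : ℕ => {x | x ∈ U ∧ ∀ j, N ≤ j → x ∈ V j}) := by
    intro M N hMN x hx
    exact ⟨hx.1, fun j hj => hx.2 j (le_trans hMN hj)⟩
  have hWo : ∀ N : ℕ, IsOpen {x | x ∈ U ∧ ∀ j, N ≤ j → x ∈ V j} := by
    intro N
    refine ⟨fun h => absurd h.1 h1, fun _ n => ?_⟩
    obtain ⟨k, hk⟩ := (hopen U hU).2 h2 n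
    have hj : ∀ j, ∃ l, ∀ m, l ≤ m → p n m ∈ V j := fun j => (hVo j).2 (hVK j (Or.inl rfl)) n
    choose l hl using hj
    refine ⟨max k ((Finset.range (n + 1)).sup l), fun m hm => ?_⟩
    have hkm : k ≤ m := le_trans (le_max_left _ _) hm
    have hlm : (Finset.range (n + 1)).sup l ≤ m := le_trans (le_max_right _ _) hm
    refine ⟨hk m hkm, fun j _ => ?_⟩
    by_cases hjn : j < n + 1
    · exact hl j m (le_trans (Finset.le_sup (f := l) (Finset.mem_range.2 hjn)) hlm)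
    · exact hVK j (Or.inr ⟨hk m hkm, n, m, rfl, by omega⟩)
  have hun : (⋃ N : ℕ, {x | x ∈ U ∧ ∀ j, N ≤ j → x ∈ V j}) = U := by
    apply Set.Subset.antisymm
    · exact Set.iUnion_subset (fun N x hx => hx.1)
    · intro x hx
      cases x with
      | p n m =>
        exact Set.mem_iUnion.2 ⟨n + 1, hx, fun j hj => hVK j (Or.inr ⟨hx, n, m, rfl, by omega⟩)⟩
      | i1 => exact absurd hx h1
      | i2 => exact Set.mem_iUnion.2 ⟨0, hx, fun j _ => hVK j (Or.inl rfl)⟩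
  obtain ⟨N, hN⟩ := dir_seq 𝓤 hdir _ hmono hWo (by rw [hun]; exact hU)
  exact hVn N (hup _ hN (V N) (hVo N) (fun x hx => hx.2 N le_rfl))

include hopen hup hdir in
lemma case_c (U : Set X0) (hU : U ∈ 𝓤) (h1 : i1 ∈ U) (h2 : i2 ∉ U) :
    ∃ K : Set X0, IsCompact K ∧ K ⊆ U ∧ ∀ V : Set X0, IsOpen V → K ⊆ V → V ∈ 𝓤 := by
  have hstep : ∀ (i : ℕ) (W : {W : Set X0 // W ∈ 𝓤 ∧ i1 ∈ W ∧ i2 ∉ W}),
      ∃ W' : {W : Set X0 // W ∈ 𝓤 ∧ i1 ∈ W ∧ i2 ∉ W}, W'.1 ⊆ W.1 ∧
        {x | x ∈ W'.1 ∧ ∃ n m, x = p n m ∧ n < i}.Finite := by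
    rintro i ⟨W, hW, hW1, hW2⟩
    set G : Set X0 := {x | x ∈ W ∧ (x = i1 ∨ ∃ n m, x = p n m ∧ i ≤ n)} with hG
    have hGo : IsOpen G := by
      refine ⟨fun _ => ?_, fun h => absurd h.1 hW2⟩
      obtain ⟨k, hk⟩ := (hopen W hW).1 hW1
      refine ⟨max k i, fun n hn m => ⟨hk n (le_trans (le_max_left _ _) hn) m,
        Or.inr ⟨n, m, rfl, le_trans (le_max_right _ _) hn⟩⟩⟩
    obtain ⟨t, ht⟩ := add_finite 𝓤 hdir W G hW hGo (fun x hx => hx.1) (by
      intro x hx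
      cases x with
      | p n m => exact Or.inr ⟨n, m, rfl⟩
      | i1 => exact Or.inl ⟨hx, Or.inl rfl⟩
      | i2 => exact absurd hx hW2)
    refine ⟨⟨G ∪ (ps t ∩ W), ht, Or.inl ⟨hW1, Or.inl rfl⟩, ?_⟩, ?_, ?_⟩
    · rintro (h | h)
      · exact hW2 h.1
      · exact hW2 h.2
    · rintro x (h | h)
      · exact h.1
      · exact h.2
    · refine (ps_finite t).subset ?_
      rintro x ⟨hx | hx, n, m, rfl, hn⟩
      · rcases hx.2 with h | ⟨n', m', h, hn'⟩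
        · cases h
        · injection h with h3 h4
          omega
      · exact hx.1
  choose nx hnx1 hnx2 using hstep
  let S : ℕ → {W : Set X0 // W ∈ 𝓤 ∧ i1 ∈ W ∧ i2 ∉ W} :=
    fun i => Nat.rec ⟨U, hU, h1, h2⟩ (fun i W => nx i W) i
  have hS0 : S 0 = ⟨U, hU, h1, h2⟩ := rfl
  have hSs : ∀ i, S (i + 1) = nx i (S i) := fun i => rfl
  have hanti : Antitone (fun i => (S i).1) := by
    refine antitone_nat_of_succ_le (fun i => ?_)
    change (S (i + 1)).1 ⊆ (S i).1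
    rw [hSs]
    exact hnx1 i (S i)
  have hfin : ∀ i, {x | x ∈ (S (i + 1)).1 ∧ ∃ n m, x = p n m ∧ n < i}.Finite := by
    intro i
    rw [hSs]
    exact hnx2 i (S i)
  refine ⟨⋂ i, (S i).1, ?_, ?_, ?_⟩
  · refine compact_of _ {i1} (Set.finite_singleton _) ?_ ?_
    · intro O hO hF
      obtain ⟨k, hk⟩ := hO.1 (hF rfl)
      refine (hfin k).subset ?_
      rintro x ⟨hx, hxO⟩
      have hx' := Set.mem_iInter.1 hx
      refine ⟨hx' (k + 1), ?_⟩
      cases x with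
      | p n m =>
        refine ⟨n, m, rfl, ?_⟩
        by_contra hn
        exact hxO (hk n (not_lt.1 hn) m)
      | i1 => exact absurd (hF rfl) hxO
      | i2 => exact absurd (hx' 0) (S 0).2.2.2
    · intro x hx
      rw [Set.mem_singleton_iff] at hx
      rw [hx]
      exact Set.mem_iInter.2 (fun i => (S i).2.2.1)
  · exact Set.iInter_subset _ 0
  · intro V hV hKV
    have hi1 : i1 ∈ V := hKV (Set.mem_iInter.2 (fun i => (S i).2.2.1))
    obtain ⟨k, hk⟩ := hV.1 hi1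
    have hF : ((S (k + 1)).1 \ V).Finite := by
      refine (hfin k).subset ?_
      rintro x ⟨hx, hxV⟩
      refine ⟨hx, ?_⟩
      cases x with
      | p n m =>
        refine ⟨n, m, rfl, ?_⟩
        by_contra hn
        exact hxV (hk n (not_lt.1 hn) m)
      | i1 => exact absurd hi1 hxV
      | i2 => exact absurd hx (S (k + 1)).2.2.2
    -- each point of the finite set leaves at some stage
    have hleave : ∀ x ∈ (S (k + 1)).1 \ V, ∃ j, x ∉ (S j).1 := by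
      rintro x ⟨_, hxV⟩
      by_contra hcon
      push Not at hcon
      exact hxV (hKV (Set.mem_iInter.2 hcon))
    have hex : ∃ J, ∀ x ∈ (S (k + 1)).1 \ V, x ∉ (S J).1 := by
      have := hF.induction_on_subset (motive := fun s _ => ∃ J, ∀ x ∈ s, x ∉ (S J).1)
        _ ⟨0, fun x hx => absurd hx (Set.notMem_empty x)⟩ ?_
      · exact this
      · rintro a s ha _ _ ⟨J, hJ⟩
        obtain ⟨j, hj⟩ := hleave a ha
        refine ⟨max J j, fun x hx => ?_⟩
        rcases hx with rfl | hx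
        · exact fun h => hj (hanti (le_max_right J j) h)
        · exact fun h => hJ x hx (hanti (le_max_left J j) h)
    obtain ⟨J, hJ⟩ := hex
    refine hup _ (S (max J (k + 1))).2.1 V hV (fun x hx => ?_)
    by_contra hxV
    exact hJ x ⟨hanti (le_max_right J (k + 1)) hx, hxV⟩ (hanti (le_max_left J (k + 1)) hx)

include hopen hup hdir in
lemma consonant_X0 : ∀ U ∈ 𝓤, ∃ K : Set X0, IsCompact K ∧ K ⊆ U ∧
        ∀ V : Set X0, IsOpen V → K ⊆ V → V ∈ 𝓤 := by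
  intro U hU
  by_cases h1 : i1 ∈ U
  · by_cases h2 : i2 ∈ U
    · exact case_a 𝓤 hopen hup hdir U hU h1 h2
    · exact case_c 𝓤 hopen hup hdir U hU h1 h2
  · by_cases h2 : i2 ∈ U
    · exact case_b 𝓤 hopen hup hdir U hU h1 h2
    · exact case_d 𝓤 hopen hup hdir U hU h1 h2

end cons

def H : Type := {C : Set X0 // IsClosed C ∧ C.Nonempty}

def Dia (U : Set X0) : Set H := {C | (C.1 ∩ U).Nonempty}

instance tH : TopologicalSpace H :=
  TopologicalSpace.generateFrom {S | ∃ U : Set X0, IsOpen U ∧ S = Dia U}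

lemma isOpen_dia (U : Set X0) (hU : IsOpen U) : IsOpen (Dia U) :=
  TopologicalSpace.isOpen_generateFrom_of_mem ⟨U, hU, rfl⟩

def sg (n m : ℕ) : H := ⟨{p n m}, isClosed_singleton, Set.singleton_nonempty _⟩

def dd : H := ⟨{i1, i2}, (Set.toFinite _).isClosed, ⟨i1, by simp⟩⟩

lemma mem_dia_sg (U : Set X0) (n m : ℕ) : sg n m ∈ Dia U ↔ p n m ∈ U := by
  constructor
  · rintro ⟨x, hx, hxU⟩
    have : x = p n m := hx
    rwa [this] at hxU
  · intro h
    exact ⟨p n m, rfl, h⟩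

lemma nbhd_dd (W : Set H) (hW : IsOpen W) (hd : dd ∈ W) :
    ∃ k, ∃ f : ℕ → ℕ, ∀ n, k ≤ n → ∀ m, f n ≤ m → sg n m ∈ W := by
  have hW' : TopologicalSpace.GenerateOpen {S | ∃ U : Set X0, IsOpen U ∧ S = Dia U} W := hW
  induction hW' with
  | basic s hs =>
    obtain ⟨U, hU, rfl⟩ := hs
    obtain ⟨x, hx, hxU⟩ := hd
    rcases hx with hx | hx
    · rw [hx] at hxU
      obtain ⟨k, hk⟩ := hU.1 hxU
      exact ⟨k, fun _ => 0, fun n hn m _ => (mem_dia_sg U n m).2 (hk n hn m)⟩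
    · have hx' : x = i2 := hx
      rw [hx'] at hxU
      have h := hU.2 hxU
      choose f hf using h
      exact ⟨0, f, fun n _ m hm => (mem_dia_sg U n m).2 (hf n m hm)⟩
  | univ => exact ⟨0, fun _ => 0, fun _ _ _ _ => trivial⟩
  | inter s t hs ht ihs iht =>
    obtain ⟨k, f, hf⟩ := ihs hs hd.1
    obtain ⟨l, g, hg⟩ := iht ht hd.2
    exact ⟨max k l, fun n => max (f n) (g n), fun n hn m hm =>
      ⟨hf n (le_trans (le_max_left _ _) hn) m (le_trans (le_max_left _ _) hm),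
        hg n (le_trans (le_max_right _ _) hn) m (le_trans (le_max_right _ _) hm)⟩⟩
  | sUnion S hS ih =>
    obtain ⟨s, hs, hds⟩ := hd
    obtain ⟨k, f, hf⟩ := ih s hs (hS s hs) hds
    exact ⟨k, f, fun n hn m hm => ⟨s, hs, hf n hn m hm⟩⟩

def HH : Set (Set H) := {W | IsOpen W ∧ dd ∈ W ∧ ∀ n, ∃ m, sg n m ∈ W}

lemma not_consonant : ¬ (∀ 𝓤 : Set (Set H), (∀ U ∈ 𝓤, IsOpen U) →
        (∀ U ∈ 𝓤, ∀ V : Set H, IsOpen V → U ⊆ V → V ∈ 𝓤) →
        (∀ 𝒟 : Set (Set H), 𝒟.Nonempty → DirectedOn (· ⊆ ·) 𝒟 →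
            (∀ D ∈ 𝒟, IsOpen D) → ⋃₀ 𝒟 ∈ 𝓤 → ∃ D ∈ 𝒟, D ∈ 𝓤) →
        ∀ U ∈ 𝓤, ∃ K : Set H, IsCompact K ∧ K ⊆ U ∧
          ∀ V : Set H, IsOpen V → K ⊆ V → V ∈ 𝓤) := by
  classical
  intro hall
  have ho1 : IsOpen ({i1}ᶜ : Set X0) := isOpen_compl_singleton
  have ho2 : IsOpen ({i2}ᶜ : Set X0) := isOpen_compl_singleton
  obtain ⟨K, hKc, hKW, hK⟩ := hall HH (fun U hU => hU.1)
    (fun U hU V hV hUV => ⟨hV, hUV hU.2.1, fun n => by
      obtain ⟨m, hm⟩ := hU.2.2 n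
      exact ⟨m, hUV hm⟩⟩)
    (by
      intro 𝒟 hne hdir hDo hmem
      obtain ⟨hmo, ⟨D0, hD0, hdd⟩, hmn⟩ := hmem
      obtain ⟨k, f, hf⟩ := nbhd_dd D0 (hDo D0 hD0) hdd
      have hind : ∀ j : ℕ, ∃ D ∈ 𝒟, D0 ⊆ D ∧ ∀ n, n < j → ∃ m, sg n m ∈ D := by
        intro j
        induction j with
        | zero => exact ⟨D0, hD0, subset_rfl, fun n hn => absurd hn (Nat.not_lt_zero n)⟩
        | succ j ih =>
          obtain ⟨D, hD, hDD, hDn⟩ := ih
          obtain ⟨m, E, hE, hmE⟩ := hmn j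
          obtain ⟨F, hF, hDF, hEF⟩ := hdir D hD E hE
          refine ⟨F, hF, hDD.trans hDF, fun n hn => ?_⟩
          rcases Nat.lt_succ_iff_lt_or_eq.1 hn with h | rfl
          · obtain ⟨m', hm'⟩ := hDn n h
            exact ⟨m', hDF hm'⟩
          · exact ⟨m, hEF hmE⟩
      obtain ⟨D, hD, hDD, hDn⟩ := hind k
      refine ⟨D, hD, hDo D hD, hDD hdd, fun n => ?_⟩
      by_cases hn : n < k
      · exact hDn n hn
      · exact ⟨f n, hDD (hf n (not_lt.1 hn) (f n) le_rfl)⟩)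
    (Dia ({i2}ᶜ) ∩ Dia ({i1}ᶜ))
    ⟨(isOpen_dia _ ho2).inter (isOpen_dia _ ho1),
      ⟨⟨i1, by simp [dd], by simp⟩, ⟨i2, by simp [dd], by simp⟩⟩,
      fun n => ⟨0, (mem_dia_sg _ _ _).2 (by simp), (mem_dia_sg _ _ _).2 (by simp)⟩⟩
  -- K meets every column
  have hcol : ∀ n, ∃ m, sg n m ∈ K := by
    intro n
    by_contra hcon
    push Not at hcon
    have hsub : K ⊆ interior {A : H | ∀ m, A ≠ sg n m} := by
      intro A hA
      rw [mem_interior]
      have hAne : ∀ m, A ≠ sg n m := fun m h => hcon m (h ▸ hA)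
      by_cases hA1 : i1 ∈ A.1
      · refine ⟨Dia {x | x = i1 ∨ ∃ n' m', x = p n' m' ∧ n < n'}, ?_, ?_, ?_⟩
        · intro B hB m hBm
          rw [hBm, mem_dia_sg] at hB
          rcases hB with h | ⟨n', m', h, hn'⟩
          · cases h
          · injection h with h3 h4
            omega
        · refine isOpen_dia _ ⟨fun _ => ⟨n + 1, fun n' hn' m' => Or.inr ⟨n', m', rfl, hn'⟩⟩, ?_⟩
          rintro (h | ⟨n', m', h, hn'⟩)
          · cases h
          · cases h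
        · exact ⟨i1, hA1, Or.inl rfl⟩
      · -- A contains an isolated point
        obtain ⟨x, hxA, hx2⟩ := (hKW hA).1
        have hx : ∃ a b, x = p a b := by
          cases x with
          | p a b => exact ⟨a, b, rfl⟩
          | i1 => exact absurd hxA hA1
          | i2 => exact absurd rfl hx2
        obtain ⟨a, b, rfl⟩ := hx
        have hne : A ≠ sg a b ∨ a ≠ n := by
          by_cases hab : a = n
          · left
            rw [hab]
            exact hAne b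
          · exact Or.inr hab
        have hopen1 : IsOpen (Dia {p a b}) := isOpen_dia _ (isOpen_of_no _ (by simp) (by simp))
        rcases hne with hne | hne
        · -- another point of A
          have hy : ∃ y ∈ A.1, y ≠ p a b := by
            by_contra hy
            push Not at hy
            apply hne
            apply Subtype.ext
            apply Set.Subset.antisymm
            · intro y hyA
              exact hy y hyA
            · intro y hy'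
              have : y = p a b := hy'
              rw [this]
              exact hxA
          obtain ⟨y, hyA, hyne⟩ := hy
          refine ⟨Dia {p a b} ∩ Dia ({p a b}ᶜ), ?_, ?_, ?_⟩
          · rintro B ⟨hB1, hB2⟩ m hBm
            rw [hBm, mem_dia_sg] at hB1
            rw [hBm, mem_dia_sg] at hB2
            exact hB2 hB1
          · exact hopen1.inter (isOpen_dia _ isOpen_compl_singleton)
          · exact ⟨⟨p a b, hxA, rfl⟩, ⟨y, hyA, hyne⟩⟩
        · refine ⟨Dia {p a b}, ?_, hopen1, ⟨p a b, hxA, rfl⟩⟩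
          intro B hB m hBm
          rw [hBm, mem_dia_sg] at hB
          have h : p n m = p a b := hB
          injection h with h3 h4
          exact hne h3.symm
    obtain ⟨_, _, h⟩ := hK _ isOpen_interior hsub
    obtain ⟨m, hm⟩ := h n
    exact (interior_subset hm) m rfl
  choose g hg using hcol
  have hVf : IsOpen {x | x = i2 ∨ ∃ n m, x = p n m ∧ g n < m} := by
    refine ⟨?_, fun _ n => ⟨g n + 1, fun m hm => Or.inr ⟨n, m, rfl, hm⟩⟩⟩
    rintro (h | ⟨n', m', h, hn'⟩)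
    · cases h
    · cases h
  have hc2 : IsCompact (K \ Dia {x | x = i2 ∨ ∃ n m, x = p n m ∧ g n < m}) :=
    hKc.diff (isOpen_dia _ hVf)
  obtain ⟨t, ht⟩ := hc2.elim_finite_subcover (fun q : ℕ × ℕ => Dia {p q.1 q.2})
    (fun q => isOpen_dia _ (isOpen_of_no _ (by simp) (by simp))) (by
      rintro A ⟨hA, hAn⟩
      obtain ⟨x, hxA, hx1⟩ := (hKW hA).2
      cases x with
      | p a b => exact Set.mem_iUnion.2 ⟨(a, b), ⟨p a b, hxA, rfl⟩⟩
      | i1 => exact absurd rfl hx1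
      | i2 => exact absurd ⟨i2, hxA, Or.inl rfl⟩ hAn)
  obtain ⟨n, hn⟩ := Infinite.exists_notMem_finset (t.image Prod.fst)
  have hmem : sg n (g n) ∈ K \ Dia {x | x = i2 ∨ ∃ n m, x = p n m ∧ g n < m} := by
    refine ⟨hg n, fun h => ?_⟩
    rw [mem_dia_sg] at h
    rcases h with h | ⟨n', m', h, hn'⟩
    · cases h
    · injection h with h3 h4
      subst h3
      omega
  obtain ⟨q, hq, hq2⟩ := Set.mem_iUnion₂.1 (ht hmem)
  rw [mem_dia_sg] at hq2
  have h : p n (g n) = p q.1 q.2 := hq2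
  injection h with h3 h4
  exact hn (Finset.mem_image.2 ⟨q, hq, h3.symm⟩)

/-- The negation of the preceding statement: For every consonant T0 space X, the space of nonempty closed subsets of X with the lower Vietoris topology is consonant, where consonant means every Scott-open family of opens contains, around each member U, all opens containing some compact K ⊆ U. -/
theorem result :
    ¬ (∀ (X : Type) [TopologicalSpace X] [T0Space X],
    (∀ 𝓤 : Set (Set X), (∀ U ∈ 𝓤, IsOpen U) →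
      (∀ U ∈ 𝓤, ∀ V : Set X, IsOpen V → U ⊆ V → V ∈ 𝓤) →
      (∀ 𝒟 : Set (Set X), 𝒟.Nonempty → DirectedOn (· ⊆ ·) 𝒟 →
          (∀ D ∈ 𝒟, IsOpen D) → ⋃₀ 𝒟 ∈ 𝓤 → ∃ D ∈ 𝒟, D ∈ 𝓤) →
      ∀ U ∈ 𝓤, ∃ K : Set X, IsCompact K ∧ K ⊆ U ∧
        ∀ V : Set X, IsOpen V → K ⊆ V → V ∈ 𝓤) →
    ∀ tH : TopologicalSpace {C : Set X // IsClosed C ∧ C.Nonempty},
      tH = TopologicalSpace.generateFrom
        {S | ∃ U : Set X, IsOpen U ∧
          S = {C : {C : Set X // IsClosed C ∧ C.Nonempty} | (C.1 ∩ U).Nonempty}} →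
      (∀ 𝓤 : Set (Set {C : Set X // IsClosed C ∧ C.Nonempty}),
        (∀ U ∈ 𝓤, @IsOpen _ tH U) →
        (∀ U ∈ 𝓤, ∀ V : Set {C : Set X // IsClosed C ∧ C.Nonempty},
            @IsOpen _ tH V → U ⊆ V → V ∈ 𝓤) →
        (∀ 𝒟 : Set (Set {C : Set X // IsClosed C ∧ C.Nonempty}), 𝒟.Nonempty →
            DirectedOn (· ⊆ ·) 𝒟 →
            (∀ D ∈ 𝒟, @IsOpen _ tH D) → ⋃₀ 𝒟 ∈ 𝓤 → ∃ D ∈ 𝒟, D ∈ 𝓤) →
        ∀ U ∈ 𝓤, ∃ K : Set {C : Set X // IsClosed C ∧ C.Nonempty},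
          @IsCompact _ tH K ∧ K ⊆ U ∧
          ∀ V : Set {C : Set X // IsClosed C ∧ C.Nonempty},
            @IsOpen _ tH V → K ⊆ V → V ∈ 𝓤)) := by
  intro hall
  exact not_consonant (hall X0 (fun 𝓤 hopen hup hdir => consonant_X0 𝓤 hopen hup hdir) tH rfl)

end Pool.Agent.S08838
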