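import Pool.Statements.S08839
import Mathlib

set_option autoImplicit false
open Pool Pool.MP_2de5bd_gt

namespace Pool.Agent.S08839

open Set Cardinal Topology

section
variable {X : Type} [TopologicalSpace X]

/-- the splitting hypothesis, in terms of families of real functions. -/
theorem step1 [T2Space X] (D : Set X) (hD : Dense D) (hinf : ℵ₀ ≤ #D)
    (H : ∀ A : Set X, ∃ (Y : Type) (_ : TopologicalSpace Y), CompactSpace Y ∧ T2Space Y ∧
        (∃ (ι : Type) (e : Y → ι → ℝ), Topology.IsEmbedding e ∧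
            ∀ y, (Function.support (e y)).Countable) ∧
        ∃ f : X → Y, Continuous f ∧ f ⁻¹' (f '' A) = A) (A : Set X) :
    ∃ F : Set (X → ℝ), (∀ φ ∈ F, Continuous φ) ∧ #F ≤ #D ∧
      ∀ x y, (∀ φ ∈ F, φ x = φ y) → (x ∈ A → y ∈ A) := by
  obtain ⟨Y, _, _, _, ⟨ι, e, he, hsupp⟩, f, hf, hfA⟩ := H A
  let S : Set ι := ⋃ d : D, Function.support (e (f d))
  have hS : #S ≤ #D := by
    calc #S ≤ Cardinal.sum (fun d : D => #(Function.support (e (f d)))) := Cardinal.mk_iUnion_le_sum_mk
      _ ≤ Cardinal.sum (fun _ : D => ℵ₀) := Cardinal.sum_le_sum _ _ (fun d => by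
          exact (hsupp (f d)).le_aleph0)
      _ = #D * ℵ₀ := by simp
      _ ≤ #D := by
          rw [Cardinal.mul_aleph0_eq hinf]
  refine ⟨(fun i : ι => fun x : X => e (f x) i) '' S, ?_, ?_, ?_⟩
  · rintro φ ⟨i, _, rfl⟩
    exact (continuous_apply i).comp (he.continuous.comp hf)
  · exact Cardinal.mk_image_le.trans hS
  · intro x y hxy hx
    have h0 : ∀ i ∉ S, ∀ x : X, e (f x) i = 0 := by
      intro i hi
      have hc : Continuous (fun x : X => e (f x) i) :=
        (continuous_apply i).comp (he.continuous.comp hf)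
      have hc0 : Continuous (fun _ : X => (0:ℝ)) := continuous_const
      have := Continuous.ext_on hD hc hc0 (by
        intro d hd
        by_contra hne
        exact hi (Set.mem_iUnion.mpr ⟨⟨d, hd⟩, hne⟩))
      intro x
      exact congrFun this x
    have h1 : e (f x) = e (f y) := by
      funext i
      by_cases hi : i ∈ S
      · exact hxy _ ⟨i, hi, rfl⟩
      · rw [h0 i hi, h0 i hi]
    have h2 : f x = f y := he.injective h1
    rw [← hfA]
    exact ⟨x, hx, h2⟩

theorem step2 (D : Set X) (hD : Dense D) (hinf : ℵ₀ ≤ #D)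
    (H : ∀ A : Set X, ∃ F : Set (X → ℝ), (∀ φ ∈ F, Continuous φ) ∧ #F ≤ #D ∧
      ∀ x y, (∀ φ ∈ F, φ x = φ y) → (x ∈ A → y ∈ A)) :
    #X ≤ #(Set D) := by
  have hex : ∀ x : X, ∃ u : D → X → ℝ, (∀ d, Continuous (u d)) ∧
      ∀ y, (∀ d, u d x = u d y) → y = x := by
    intro x
    obtain ⟨F, hF, hcard, hsep⟩ := H {x}
    rcases F.eq_empty_or_nonempty with rfl | hne
    · refine ⟨fun _ _ => 0, fun _ => continuous_const, fun y _ => ?_⟩
      exact hsep x y (by simp) rfl
    · have : Nonempty F := hne.to_subtype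
      obtain ⟨g⟩ := (Cardinal.le_def _ _).mp hcard
      let s : D → F := Function.invFun g
      have hs : Function.Surjective s := Function.invFun_surjective g.injective
      refine ⟨fun d => (s d).1, fun d => hF _ (s d).2, fun y hy => ?_⟩
      refine hsep x y ?_ rfl
      intro φ hφ
      obtain ⟨d, hd⟩ := hs ⟨φ, hφ⟩
      have := hy d
      simp only [hd] at this
      exact this
  choose u hu hsep using hex
  let c : X → Set (D × ℕ × D) := fun x => {p | |u x p.1 p.2.2 - u x p.1 x| < 1 / ((p.2.1 : ℝ) + 1)}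
  have hc : Function.Injective c := by
    intro x y hxy
    apply hsep y x
    intro d
    by_contra hne
    have hpos : 0 < |u y d x - u y d y| := abs_pos.mpr (sub_ne_zero.mpr (Ne.symm hne))
    obtain ⟨n, hn⟩ := exists_nat_one_div_lt hpos
    have hopen : IsOpen {z : X | |u x d z - u x d x| < 1 / ((n : ℝ) + 1)} :=
      isOpen_lt (((hu x d).sub continuous_const).abs) continuous_const
    have hxmem : x ∈ {z : X | |u x d z - u x d x| < 1 / ((n : ℝ) + 1)} := by
      rw [Set.mem_ofPred_eq, sub_self, abs_zero]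
      positivity
    have hcl : x ∈ closure ({z : X | |u x d z - u x d x| < 1 / ((n : ℝ) + 1)} ∩ D) :=
      hD.open_subset_closure_inter hopen hxmem
    have hclosed : IsClosed {z : X | |u y d z - u y d y| ≤ 1 / ((n : ℝ) + 1)} :=
      isClosed_le (((hu y d).sub continuous_const).abs) continuous_const
    have hsub : ({z : X | |u x d z - u x d x| < 1 / ((n : ℝ) + 1)} ∩ D) ⊆
        {z : X | |u y d z - u y d y| ≤ 1 / ((n : ℝ) + 1)} := by
      rintro z ⟨hz, hzD⟩
      have h1 : ((d, n, ⟨z, hzD⟩) : D × ℕ × D) ∈ c x := hz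
      rw [hxy] at h1
      exact le_of_lt (show |u y d z - u y d y| < 1 / ((n : ℝ) + 1) from h1)
    have h2 := closure_minimal hsub hclosed hcl
    rw [Set.mem_ofPred_eq] at h2
    exact absurd hn (not_lt.mpr h2)
  calc #X ≤ #(Set (D × ℕ × D)) := Cardinal.mk_le_of_injective hc
    _ = 2 ^ (#D * (ℵ₀ * #D)) := by simp
    _ = 2 ^ #D := by
        rw [Cardinal.aleph0_mul_eq hinf, Cardinal.mul_eq_self hinf]
    _ = #(Set D) := by simp

theorem step3 (D : Set X) (hinf : ℵ₀ ≤ #D) (hX : #X ≤ #(Set D))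
    (H : ∀ A : Set X, ∃ F : Set (X → ℝ), (∀ φ ∈ F, Continuous φ) ∧ #F ≤ #D ∧
      ∀ x y, (∀ φ ∈ F, φ x = φ y) → (x ∈ A → y ∈ A)) :
    ∃ F : Set (X → ℝ), (∀ φ ∈ F, Continuous φ) ∧ #F ≤ #D ∧
      ∀ x y, (∀ φ ∈ F, φ x = φ y) → x = y := by
  obtain ⟨j⟩ := (Cardinal.le_def _ _).mp hX
  choose F hF hcard hsep using H
  refine ⟨⋃ d : D, F {x | d ∈ j x}, ?_, ?_, ?_⟩
  · intro φ hφ
    obtain ⟨d, hd⟩ := Set.mem_iUnion.mp hφ
    exact hF _ φ hd
  · calc #(⋃ d : D, F {x | d ∈ j x}) ≤ Cardinal.sum (fun d : D => #(F {x | d ∈ j x})) :=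
          Cardinal.mk_iUnion_le_sum_mk
      _ ≤ Cardinal.sum (fun _ : D => #D) := Cardinal.sum_le_sum _ _ (fun d => hcard _)
      _ = #D * #D := by simp
      _ = #D := Cardinal.mul_eq_self hinf
  · intro x y hxy
    apply j.injective
    ext d
    constructor
    · intro h
      exact hsep {x | d ∈ j x} x y (fun φ hφ => hxy φ (Set.mem_iUnion.mpr ⟨d, hφ⟩)) h
    · intro h
      exact hsep {x | d ∈ j x} y x (fun φ hφ => (hxy φ (Set.mem_iUnion.mpr ⟨d, hφ⟩)).symm) h

theorem step4 [CompactSpace X] [T2Space X] (κ : Cardinal) (hinf : ℵ₀ ≤ κ)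
    (F : Set (X → ℝ)) (hF : ∀ φ ∈ F, Continuous φ) (hcard : #F ≤ κ)
    (hsep : ∀ x y, (∀ φ ∈ F, φ x = φ y) → x = y) :
    ∃ B : Set (Set X), TopologicalSpace.IsTopologicalBasis B ∧ #B ≤ κ := by
  let T : X → (F → ℝ) := fun x φ => φ.1 x
  have hTc : Continuous T := continuous_pi fun φ => hF _ φ.2
  have hTi : Function.Injective T := by
    intro x y h
    apply hsep
    intro φ hφ
    exact congrFun h ⟨φ, hφ⟩
  have hT : IsClosedEmbedding T := hTc.isClosedEmbedding hTi
  let b : Finset (F × ℚ × ℚ) → Set X := fun S =>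
    {x | ∀ p ∈ S, ((p.2.1 : ℝ)) < p.1.1 x ∧ p.1.1 x < (p.2.2 : ℝ)}
  refine ⟨Set.range b, ?_, ?_⟩
  · apply TopologicalSpace.isTopologicalBasis_of_isOpen_of_nhds
    · rintro _ ⟨S, rfl⟩
      have : b S = ⋂ p ∈ S, {x : X | ((p.2.1 : ℝ)) < p.1.1 x ∧ p.1.1 x < (p.2.2 : ℝ)} := by
        ext x
        simp [b]
      rw [this]
      apply isOpen_biInter_finset
      intro p _
      exact (isOpen_lt continuous_const (hF _ p.1.2)).inter (isOpen_lt (hF _ p.1.2) continuous_const)
    · intro x U hxU hU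
      obtain ⟨V, hV, hVU⟩ := hT.isInducing.isOpen_iff.mp hU
      have hxV : T x ∈ V := by
        have : x ∈ T ⁻¹' V := by rw [hVU]; exact hxU
        exact this
      obtain ⟨I, w, hw, hI⟩ := isOpen_pi_iff.mp hV _ hxV
      have hab : ∀ φ : F, ∃ a b : ℚ, φ ∈ I → ((a : ℝ) < φ.1 x ∧ φ.1 x < b ∧ Set.Ioo (a:ℝ) b ⊆ w φ) := by
        intro φ
        by_cases hφ : φ ∈ I
        · obtain ⟨hwo, hwx⟩ := hw φ hφ
          obtain ⟨ε, hε, hball⟩ := Metric.isOpen_iff.mp hwo _ hwx
          obtain ⟨a, ha1, ha2⟩ := exists_rat_btwn (show φ.1 x - ε < φ.1 x by linarith)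
          obtain ⟨b', hb1, hb2⟩ := exists_rat_btwn (show φ.1 x < φ.1 x + ε by linarith)
          refine ⟨a, b', fun _ => ⟨ha2, hb1, ?_⟩⟩
          intro z hz
          apply hball
          rw [Metric.mem_ball, Real.dist_eq, abs_lt]
          have : T x φ = φ.1 x := rfl
          rw [this]
          constructor <;> linarith [hz.1, hz.2]
        · exact ⟨0, 0, fun h => absurd h hφ⟩
      choose a b' hab using hab
      classical
      refine ⟨b (I.image (fun φ => (φ, a φ, b' φ))), ⟨_, rfl⟩, ?_, ?_⟩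
      · intro p hp
        obtain ⟨φ, hφ, rfl⟩ := Finset.mem_image.mp hp
        exact ⟨(hab φ hφ).1, (hab φ hφ).2.1⟩
      · intro y hy
        rw [← hVU]
        apply hI
        intro φ hφ
        apply (hab φ hφ).2.2
        exact hy (φ, a φ, b' φ) (Finset.mem_image.mpr ⟨φ, hφ, rfl⟩)
  · have h1 : #(F × ℚ × ℚ) ≤ κ := by
      simp only [Cardinal.mk_prod, Cardinal.lift_id, Cardinal.mkRat]
      calc #F * (ℵ₀ * ℵ₀) ≤ κ * (ℵ₀ * ℵ₀) := by gcongr
        _ = κ := by rw [Cardinal.aleph0_mul_aleph0, Cardinal.mul_aleph0_eq hinf]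
    refine Cardinal.mk_range_le.trans ?_
    rcases finite_or_infinite (F × ℚ × ℚ) with hfin | hinf'
    · have : Finite (Finset (F × ℚ × ℚ)) := inferInstance
      exact (Cardinal.lt_aleph0_of_finite _).le.trans hinf
    · rw [Cardinal.mk_finset_of_infinite]
      exact h1
end

/-- Every compact Hausdorff space X in which each subset A satisfies f⁻¹(f(A)) = A for some continuous map f into a Corson compactum has weight equal to density. -/
theorem result :
    ∀ (X : Type) [TopologicalSpace X] [CompactSpace X] [T2Space X],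
      (∀ A : Set X, ∃ (Y : Type) (_ : TopologicalSpace Y), CompactSpace Y ∧ T2Space Y ∧
        (∃ (ι : Type) (e : Y → ι → ℝ), Topology.IsEmbedding e ∧
            ∀ y, (Function.support (e y)).Countable) ∧
        ∃ f : X → Y, Continuous f ∧ f ⁻¹' (f '' A) = A) →
      sInf {κ : Cardinal | ∃ B : Set (Set X),
          TopologicalSpace.IsTopologicalBasis B ∧ Cardinal.mk B = κ} =
      sInf {κ : Cardinal | ∃ D : Set X, Dense D ∧ Cardinal.mk D = κ} := by
  intro X _ _ _ H
  apply le_antisymm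
  · -- weight ≤ density
    have hne : {κ : Cardinal | ∃ D : Set X, Dense D ∧ Cardinal.mk D = κ}.Nonempty :=
      ⟨_, Set.univ, dense_univ, rfl⟩
    obtain ⟨D, hD, hDc⟩ := csInf_mem hne
    rw [← hDc]
    have key : ∃ B : Set (Set X), TopologicalSpace.IsTopologicalBasis B ∧ #B ≤ #D := by
      rcases lt_or_ge #D ℵ₀ with hfin | hinf
      · have hDf : D.Finite := Cardinal.lt_aleph0_iff_set_finite.mp hfin
        have hDu : D = Set.univ := by
          rw [← hDf.isClosed.closure_eq]
          exact hD.closure_eq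
        have hXf : Finite X := by
          rw [hDu] at hDf
          exact Set.finite_univ_iff.mp hDf
        refine ⟨Set.range (fun x : X => ({x} : Set X)), ?_, ?_⟩
        · apply TopologicalSpace.isTopologicalBasis_of_isOpen_of_nhds
          · rintro _ ⟨x, rfl⟩
            exact isOpen_discrete _
          · intro x U hx _
            exact ⟨{x}, ⟨x, rfl⟩, rfl, by simpa using hx⟩
        · refine Cardinal.mk_range_le.trans ?_
          rw [hDu]
          simp
      · obtain ⟨F, hF, hc, hs⟩ := step3 D hinf (step2 D hD hinf (step1 D hD hinf H)) (step1 D hD hinf H)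
        exact step4 #D hinf F hF hc hs
    obtain ⟨B, hB, hBc⟩ := key
    have h3 : #B ∈ {κ : Cardinal | ∃ B : Set (Set X),
          TopologicalSpace.IsTopologicalBasis B ∧ Cardinal.mk B = κ} := ⟨B, hB, rfl⟩
    exact (csInf_le' h3).trans hBc
  · -- density ≤ weight
    have hne : {κ : Cardinal | ∃ B : Set (Set X),
          TopologicalSpace.IsTopologicalBasis B ∧ Cardinal.mk B = κ}.Nonempty :=
      ⟨_, _, TopologicalSpace.isTopologicalBasis_opens, rfl⟩
    obtain ⟨B, hB, hBc⟩ := csInf_mem hne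
    rw [← hBc]
    classical
    let D : Set X := Set.range (fun b : {b : B // (b : Set X).Nonempty} => b.2.some)
    have hDd : Dense D := by
      rw [hB.dense_iff]
      intro o ho hne
      exact ⟨hne.some, hne.some_mem, ⟨⟨o, ho⟩, hne⟩, rfl⟩
    have hDc : #D ≤ #B := Cardinal.mk_range_le.trans (Cardinal.mk_subtype_le _)
    have h3 : #D ∈ {κ : Cardinal | ∃ D : Set X, Dense D ∧ Cardinal.mk D = κ} := ⟨D, hDd, rfl⟩
    exact (csInf_le' h3).trans hDc

end Pool.Agent.S08839
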