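import Pool.Statements.S08842
import Mathlib

set_option autoImplicit false
open Pool Pool.MP_2e0873_gt

namespace Pool.Agent.S08842

open Set Filter Topology

/-! ### The space X -/

/-- `ω^ω` with a Sorgenfrey type topology -/
def XX : Type := ℕ → ℕ

/-- basic neighbourhoods -/
def NN (n : ℕ) (t : XX) : Set XX := {t' | (∀ j, t j ≤ t' j) ∧ ∀ j < n, t' j = t j}

theorem mem_NN (n : ℕ) (t : XX) : t ∈ NN n t := ⟨fun _ => le_refl _, fun _ _ => rfl⟩

theorem NN_mono (n m : ℕ) (h : n ≤ m) (t : XX) : NN m t ⊆ NN n t :=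
  fun _ ht => ⟨ht.1, fun j hj => ht.2 j (lt_of_lt_of_le hj h)⟩

theorem NN_trans (n : ℕ) (t t' : XX) (h : t' ∈ NN n t) : NN n t' ⊆ NN n t :=
  fun _ hs => ⟨fun j => (h.1 j).trans (hs.1 j), fun j hj => (hs.2 j hj).trans (h.2 j hj)⟩

instance : TopologicalSpace XX where
  IsOpen U := ∀ t ∈ U, ∃ n, NN n t ⊆ U
  isOpen_univ := fun _ _ => ⟨0, subset_univ _⟩
  isOpen_inter := by
    intro U V hU hV t ht
    obtain ⟨n, hn⟩ := hU t ht.1
    obtain ⟨m, hm⟩ := hV t ht.2
    exact ⟨max n m, subset_inter ((NN_mono n _ (le_max_left _ _) t).trans hn)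
      ((NN_mono m _ (le_max_right _ _) t).trans hm)⟩
  isOpen_sUnion := by
    intro S hS t ⟨U, hU, ht⟩
    obtain ⟨n, hn⟩ := hS U hU t ht
    exact ⟨n, hn.trans (subset_sUnion_of_mem hU)⟩

theorem isOpen_iff' (U : Set XX) : IsOpen U ↔ ∀ t ∈ U, ∃ n, NN n t ⊆ U := Iff.rfl

theorem NN_open (n : ℕ) (t : XX) : IsOpen (NN n t) := by
  rw [isOpen_iff']
  exact fun t' ht' => ⟨n, NN_trans n t t' ht'⟩

theorem NN_closed (n : ℕ) (t : XX) : IsClosed (NN n t) := by
  rw [← isOpen_compl_iff, isOpen_iff']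
  intro t' ht'
  have h : (∃ j, t' j < t j) ∨ ∃ j < n, t' j ≠ t j := by
    by_contra hcon
    push Not at hcon
    exact ht' ⟨hcon.1, hcon.2⟩
  rcases h with ⟨j, hj⟩ | ⟨j, hjn, hj⟩
  · refine ⟨j + 1, fun s hs hs' => ?_⟩
    have h1 := hs.2 j (Nat.lt_succ_self j)
    have h2 := hs'.1 j
    omega
  · refine ⟨j + 1, fun s hs hs' => ?_⟩
    have h1 := hs.2 j (Nat.lt_succ_self j)
    have h2 := hs'.2 j hjn
    exact hj (h1.symm.trans h2)

theorem NN_nhds (t : XX) (U : Set XX) (hU : U ∈ 𝓝 t) : ∃ n, NN n t ⊆ U := by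
  obtain ⟨V, hVU, hV, htV⟩ := mem_nhds_iff.mp hU
  obtain ⟨n, hn⟩ := (isOpen_iff' V).mp hV t htV
  exact ⟨n, hn.trans hVU⟩

instance : T2Space XX := by
  refine ⟨fun s t hst => ?_⟩
  obtain ⟨j, hj⟩ : ∃ j, s j ≠ t j := by
    by_contra hcon
    push Not at hcon
    exact hst (funext hcon)
  refine ⟨NN (j+1) s, NN (j+1) t, NN_open _ _, NN_open _ _, mem_NN _ _, mem_NN _ _, ?_⟩
  rw [Set.disjoint_left]
  intro u hu hu'
  have h1 := hu.2 j (Nat.lt_succ_self j)
  have h2 := hu'.2 j (Nat.lt_succ_self j)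
  exact hj (h1.symm.trans h2)

theorem cont_of_clopen {Y : Type} [TopologicalSpace Y] (S : Set Y) (h : IsClopen S)
    {Z : Type} [TopologicalSpace Z] (a b : Z) [∀ y, Decidable (y ∈ S)] :
    Continuous (fun y => if y ∈ S then a else b) := by
  rw [continuous_iff_continuousAt]
  intro y
  by_cases hy : y ∈ S
  · have : ∀ᶠ z in 𝓝 y, (if z ∈ S then a else b) = a := by
      filter_upwards [h.2.mem_nhds hy] with z hz
      rw [if_pos hz]
    exact (continuousAt_congr (g := fun _ => a) this).mpr continuousAt_const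
  · have : ∀ᶠ z in 𝓝 y, (if z ∈ S then a else b) = b := by
      filter_upwards [h.1.isOpen_compl.mem_nhds hy] with z hz
      rw [if_neg hz]
    exact (continuousAt_congr (g := fun _ => b) this).mpr continuousAt_const

instance : CompletelyRegularSpace XX := by
  classical
  rw [completelyRegularSpace_iff_isOpen]
  intro x K hK hx
  obtain ⟨n, hn⟩ := (isOpen_iff' K).mp hK x hx
  refine ⟨fun y => if y ∈ NN n x then 0 else 1,
    cont_of_clopen _ ⟨NN_closed n x, NN_open n x⟩ _ _, ?_, ?_⟩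
  · show (if x ∈ NN n x then (0 : unitInterval) else 1) = 0
    rw [if_pos (mem_NN n x)]
  · intro y hy
    show (if y ∈ NN n x then (0 : unitInterval) else 1) = 1
    rw [if_neg]
    exact fun h => hy (hn h)

instance : T35Space XX := { }

/-! ### Compact subsets of `C_p(X)` are metrizable -/

theorem exists_countable_sep (L : Set (XX → ℝ)) (hLc : ∀ f ∈ L, Continuous f) (hL : IsCompact L) :
    ∃ Y : Set XX, Y.Countable ∧ ∀ f ∈ L, ∀ g ∈ L, (∀ y ∈ Y, f y = g y) → f = g := by
  classical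
  by_contra hcon
  push Not at hcon
  -- H n p q Y
  let H : (ℕ × ℚ × ℚ) → Set XX → Set XX := fun a Y =>
    {x | ∃ f ∈ L, ∃ g ∈ L, (∀ y ∈ Y, f y = g y) ∧ (∀ z ∈ NN a.1 x, f z < a.2.1 ∧ (a.2.2 : ℝ) < g z)}
  have Hmono : ∀ a Y Y', Y ⊆ Y' → H a Y' ⊆ H a Y := by
    rintro a Y Y' h x ⟨f, hf, g, hg, h1, h2⟩
    exact ⟨f, hf, g, hg, fun y hy => h1 y (h hy), h2⟩
  -- for every countable Y some H a Y nonempty with p < q
  have h1 : ∀ Y : Set XX, Y.Countable → ∃ a : ℕ × ℚ × ℚ, a.2.1 < a.2.2 ∧ (H a Y).Nonempty := by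
    intro Y hY
    obtain ⟨f, hf, g, hg, hfg, hne⟩ := hcon Y hY
    have key : ∀ f ∈ L, ∀ g ∈ L, (∀ y ∈ Y, f y = g y) → (∃ x, f x < g x) →
        ∃ a : ℕ × ℚ × ℚ, a.2.1 < a.2.2 ∧ (H a Y).Nonempty := by
      intro f hf g hg hfg ⟨x, hx⟩
      obtain ⟨q, hq1, hq2⟩ := exists_rat_btwn hx
      obtain ⟨p, hp1, hp2⟩ := exists_rat_btwn hq1
      have hopen : IsOpen {z : XX | f z < p ∧ (q : ℝ) < g z} :=
        (isOpen_lt (hLc f hf) continuous_const).inter (isOpen_lt continuous_const (hLc g hg))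
      obtain ⟨n, hn⟩ := (isOpen_iff' _).mp hopen x ⟨hp1, hq2⟩
      exact ⟨(n, p, q), by exact_mod_cast hp2, x, f, hf, g, hg, hfg, fun z hz => hn hz⟩
    obtain ⟨x, hx⟩ : ∃ x, f x ≠ g x := by
      by_contra hc
      push Not at hc
      exact hne (funext hc)
    rcases lt_or_gt_of_ne hx with h | h
    · exact key f hf g hg hfg ⟨x, h⟩
    · exact key g hg f hf (fun y hy => (hfg y hy).symm) ⟨x, h⟩
  -- fix a
  obtain ⟨a, hapq, ha⟩ : ∃ a : ℕ × ℚ × ℚ, a.2.1 < a.2.2 ∧ ∀ Y : Set XX, Y.Countable → (H a Y).Nonempty := by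
    by_contra hc
    push Not at hc
    choose! Z hZ1 hZ2 using hc
    obtain ⟨a, ha1, ha2⟩ := h1 (⋃ a : {a : ℕ × ℚ × ℚ // a.2.1 < a.2.2}, Z a.1)
      (Set.countable_iUnion fun a => hZ1 a.1 a.2)
    have := (ha2.mono (Hmono a _ _ (Set.subset_iUnion (fun a : {a : ℕ × ℚ × ℚ // a.2.1 < a.2.2} => Z a.1) ⟨a, ha1⟩)))
    rw [hZ2 a ha1] at this
    exact Set.not_nonempty_empty this
  -- nodes
  let nd : (Σ k : ℕ, (Fin k → ℕ)) → Set XX := fun s => {x | ∀ i : Fin s.1, x i = s.2 i}
  have hY0 : ∃ Y0 : Set XX, Y0.Countable ∧ ∀ s, (H a Y0 ∩ nd s).Nonempty → ∀ Y : Set XX, Y.Countable →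
      (H a Y ∩ nd s).Nonempty := by
    have : ∀ s, ∃ Y : Set XX, Y.Countable ∧ ((H a Y ∩ nd s).Nonempty → ∀ Y : Set XX, Y.Countable →
      (H a Y ∩ nd s).Nonempty) := by
      intro s
      by_cases h : ∃ Y : Set XX, Y.Countable ∧ ¬ (H a Y ∩ nd s).Nonempty
      · obtain ⟨Y, hY, hYn⟩ := h
        exact ⟨Y, hY, fun h => absurd h hYn⟩
      · push Not at h
        exact ⟨∅, Set.countable_empty, fun _ => h⟩
    choose W hW1 hW2 using this
    refine ⟨⋃ s, W s, Set.countable_iUnion hW1, fun s hs => hW2 s (hs.mono ?_)⟩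
    exact Set.inter_subset_inter_left _ (Hmono a _ _ (Set.subset_iUnion W s))
  obtain ⟨Y0, hY0c, hY0⟩ := hY0
  obtain ⟨c, hc⟩ := ha Y0 hY0c
  -- sequence
  have h2 : ∀ k : ℕ, ∃ x ∈ H a (insert c Y0), ∀ j < k, x j = c j := by
    intro k
    have hs : (H a Y0 ∩ nd ⟨k, fun i => c i⟩).Nonempty := ⟨c, hc, fun i => rfl⟩
    obtain ⟨x, hx1, hx2⟩ := hY0 ⟨k, fun i => c i⟩ hs (insert c Y0) (hY0c.insert c)
    exact ⟨x, hx1, fun j hj => hx2 ⟨j, hj⟩⟩
  choose x hx hxc using h2
  choose f hf g hg hfg hN using hx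
  -- limits
  let 𝒰 : Ultrafilter ℕ := Filter.hyperfilter ℕ
  have hlim : ∀ u : ℕ → XX → ℝ, (∀ k, u k ∈ L) → ∃ v ∈ L, ∀ z, Tendsto (fun k => u k z) 𝒰 (𝓝 (v z)) := by
    intro u hu
    have h3 : (𝒰.map u : Ultrafilter (XX → ℝ)) ≤ 𝓟 L := by
      rw [Filter.le_principal_iff]
      show u ⁻¹' L ∈ 𝒰
      exact Filter.mem_of_superset Filter.univ_mem (fun k _ => hu k)
    obtain ⟨v, hv, hle⟩ := hL.ultrafilter_le_nhds _ h3
    exact ⟨v, hv, fun z => tendsto_pi_nhds.mp (show Tendsto u 𝒰 (𝓝 v) from hle) z⟩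
  obtain ⟨F, hFL, hF⟩ := hlim f hf
  obtain ⟨G, hGL, hG⟩ := hlim g hg
  have hev : ∀ m : ℕ, ∀ᶠ k in (𝒰 : Filter ℕ), m ≤ k := by
    intro m
    have : (𝒰 : Filter ℕ) ≤ cofinite := Filter.hyperfilter_le_cofinite
    apply this
    rw [Nat.cofinite_eq_atTop]
    exact eventually_ge_atTop m
  -- F c = G c
  have hFG : F c = G c := by
    refine tendsto_nhds_unique (hF c) ?_
    refine (hG c).congr (fun k => ?_)
    exact (hfg k c (Set.mem_insert _ _)).symm
  -- rho
  let ρ : XX := fun j => (Finset.range (j+1)).sup (fun k => x k j) + c j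
  have hρ : ∀ k j, x k j ≤ ρ j := by
    intro k j
    rcases lt_or_ge j k with h | h
    · rw [hxc k j h]
      exact Nat.le_add_left _ _
    · have : x k j ≤ (Finset.range (j+1)).sup (fun k => x k j) :=
        Finset.le_sup (f := fun k => x k j) (Finset.mem_range.mpr (by omega))
      exact this.trans (Nat.le_add_right _ _)
  have hρc : ∀ j, c j ≤ ρ j := fun j => Nat.le_add_left _ _
  let y : ℕ → XX := fun m j => if j < m then c j else ρ j
  have hy : ∀ m k, a.1 ≤ m → m ≤ k → y m ∈ NN a.1 (x k) := by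
    intro m k h1 h2
    constructor
    · intro j
      by_cases hj : j < m
      · simp only [y, hj, if_true]
        rw [hxc k j (by omega)]
      · simp only [y, hj, if_false]
        exact hρ k j
    · intro j hj
      have : j < m := by omega
      simp only [y, this, if_true]
      exact (hxc k j (by omega)).symm
  have hyc : ∀ m, y m ∈ NN m c := by
    intro m
    constructor
    · intro j
      by_cases hj : j < m
      · simp only [y, hj, if_true]; exact le_refl _
      · simp only [y, hj, if_false]; exact hρc j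
    · intro j hj
      simp only [y, hj, if_true]
  have hF1 : ∀ m, a.1 ≤ m → F (y m) ≤ a.2.1 := by
    intro m hm
    refine le_of_tendsto (hF (y m)) ?_
    filter_upwards [hev m] with k hk
    exact (hN k (y m) (hy m k hm hk)).1.le
  have hG1 : ∀ m, a.1 ≤ m → (a.2.2 : ℝ) ≤ G (y m) := by
    intro m hm
    refine ge_of_tendsto (hG (y m)) ?_
    filter_upwards [hev m] with k hk
    exact (hN k (y m) (hy m k hm hk)).2.le
  have hFc : F c ≤ a.2.1 := by
    by_contra hlt
    push Not at hlt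
    have hopen : IsOpen {z : XX | (a.2.1 : ℝ) < F z} := isOpen_lt continuous_const (hLc F hFL)
    obtain ⟨n, hn⟩ := (isOpen_iff' _).mp hopen c hlt
    have h3 : y (max n a.1) ∈ {z : XX | (a.2.1 : ℝ) < F z} :=
      hn (NN_mono n _ (le_max_left _ _) c (hyc _))
    exact absurd (hF1 _ (le_max_right _ _)) (not_le.mpr h3)
  have hGc : (a.2.2 : ℝ) ≤ G c := by
    by_contra hlt
    push Not at hlt
    have hopen : IsOpen {z : XX | G z < a.2.2} := isOpen_lt (hLc G hGL) continuous_const
    obtain ⟨n, hn⟩ := (isOpen_iff' _).mp hopen c hlt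
    have h3 : y (max n a.1) ∈ {z : XX | G z < a.2.2} :=
      hn (NN_mono n _ (le_max_left _ _) c (hyc _))
    exact absurd (hG1 _ (le_max_right _ _)) (not_le.mpr h3)
  have hpq : (a.2.1 : ℝ) < a.2.2 := by exact_mod_cast hapq
  linarith

theorem part1 (A : Set (XX → ℝ)) (hAc : ∀ f ∈ A, Continuous f) (hA : IsCompact A) :
    ∃ (E : Type) (_ : NormedAddCommGroup E) (_ : NormedSpace ℝ E) (_ : CompleteSpace E)
      (e : A → WeakSpace ℝ E), Topology.IsEmbedding e := by
  obtain ⟨Y, hY, hsep⟩ := exists_countable_sep A hAc hA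
  have hYc : Countable Y := hY.to_subtype
  let r : A → (Y → ℝ) := fun f y => f.1 y.1
  have hrc : Continuous r := continuous_pi fun y => (continuous_apply y.1).comp continuous_subtype_val
  have hri : Function.Injective r := by
    intro f g h
    apply Subtype.ext
    exact hsep f.1 f.2 g.1 g.2 (fun y hy => congrFun h ⟨y, hy⟩)
  have hAcpt : CompactSpace A := isCompact_iff_compactSpace.mp hA
  have hre : IsClosedEmbedding r := hrc.isClosedEmbedding hri
  have hmet : TopologicalSpace.MetrizableSpace A := hre.isEmbedding.metrizableSpace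
  let _ : MetricSpace A := TopologicalSpace.metrizableSpaceMetric A
  have hiso := kuratowskiEmbedding.isometry A
  refine ⟨lp (fun _ : ℕ => ℝ) ⊤, inferInstance, inferInstance, inferInstance,
    fun f => toWeakSpaceCLM ℝ _ (kuratowskiEmbedding A f), ?_⟩
  have hc : Continuous (fun f : A => toWeakSpaceCLM ℝ (lp (fun _ : ℕ => ℝ) ⊤) (kuratowskiEmbedding A f)) :=
    (toWeakSpaceCLM ℝ _).continuous.comp hiso.continuous
  have hi : Function.Injective (fun f : A => toWeakSpaceCLM ℝ (lp (fun _ : ℕ => ℝ) ⊤) (kuratowskiEmbedding A f)) :=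
    (toWeakSpaceCLM_bijective.1).comp hiso.injective
  exact (hc.isClosedEmbedding hi).isEmbedding

/-! ### The second compact set -/

def DD : Type := ℕ → ℕ
instance : TopologicalSpace DD := ⊥
instance : DiscreteTopology DD := ⟨rfl⟩

/-- the adequate family (as a set of characteristic functions) -/
def AA : Set (DD → Bool) := {w | ∃ n : ℕ, ∀ s t : DD, w s = true → w t = true → s ≠ t →
  (∀ j < n, s j = t j) ∧ s n ≠ t n}

theorem AA_closed : IsClosed AA := by
  rw [← isOpen_compl_iff, isOpen_iff_mem_nhds]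
  intro w hw
  have hw' : ∀ n : ℕ, ∃ s t : DD, w s = true ∧ w t = true ∧ s ≠ t ∧ ¬ ((∀ j < n, s j = t j) ∧ s n ≠ t n) := by
    intro n
    by_contra hc
    push Not at hc
    apply hw
    exact ⟨n, fun s t hs ht hne => ⟨(hc s t hs ht hne).1, (hc s t hs ht hne).2⟩⟩
  obtain ⟨s0, t0, hs0, ht0, hne0, _⟩ := hw' 0
  have hex : ∃ j, s0 j ≠ t0 j := by
    by_contra hc
    push Not at hc
    exact hne0 (funext hc)
  classical
  let n0 := Nat.find hex
  obtain ⟨s1, t1, hs1, ht1, hne1, hv1⟩ := hw' n0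
  have hnb : ∀ s : DD, w s = true → {w' : DD → Bool | w' s = true} ∈ 𝓝 w := by
    intro s hs
    have hc : Continuous (fun w' : DD → Bool => w' s) := continuous_apply s
    have : IsOpen {w' : DD → Bool | w' s = true} :=
      (isOpen_discrete ({true} : Set Bool)).preimage hc
    exact this.mem_nhds hs
  filter_upwards [hnb s0 hs0, hnb t0 ht0, hnb s1 hs1, hnb t1 ht1] with w' h1 h2 h3 h4
  rintro ⟨n, hn⟩
  have h5 := hn s0 t0 h1 h2 hne0
  have hnn : n = n0 := by
    rcases lt_trichotomy n n0 with h | h | h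
    · exact absurd h5.2 (Nat.find_min hex h)
    · exact h
    · exact absurd (h5.1 n0 h) (Nat.find_spec hex)
  rw [hnn] at hn
  exact hv1 (hn s1 t1 h3 h4 hne1)

abbrev KK : Type := OnePoint DD

open Classical in
noncomputable def Th (w : DD → Bool) : XX × KK → ℝ := fun q =>
  if ∃ s : DD, q.2 = (s : OnePoint DD) ∧ w s = true ∧ ∀ j, s j ≤ q.1 j then 1 else 0

theorem Th_pos (w : DD → Bool) (q : XX × KK)
    (h : ∃ s : DD, q.2 = (s : OnePoint DD) ∧ w s = true ∧ ∀ j, s j ≤ q.1 j) : Th w q = 1 := by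
  unfold Th
  rw [if_pos h]

theorem Th_neg (w : DD → Bool) (q : XX × KK)
    (h : ¬ ∃ s : DD, q.2 = (s : OnePoint DD) ∧ w s = true ∧ ∀ j, s j ≤ q.1 j) : Th w q = 0 := by
  unfold Th
  rw [if_neg h]

theorem Th_cont (w : DD → Bool) (hw : w ∈ AA) : Continuous (Th w) := by
  obtain ⟨n, hn⟩ := hw
  rw [continuous_iff_continuousAt]
  rintro ⟨t, q⟩
  induction q using OnePoint.rec with
  | infty =>
    -- finitely many s with w s and s n ≤ t n
    have hfin : {s : DD | w s = true ∧ s n ≤ t n}.Finite := by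
      apply Set.Finite.of_finite_image (f := fun s : DD => s n)
      · apply (Set.finite_Iic (t n)).subset
        rintro _ ⟨s, hs, rfl⟩
        exact hs.2
      · intro s hs s' hs' h
        by_contra hne
        exact (hn s s' hs.1 hs'.1 hne).2 h
    have hU : {q : KK | ∀ s : DD, w s = true → s n ≤ t n → q ≠ (s : OnePoint DD)} ∈ 𝓝 (OnePoint.infty : KK) := by
      have : IsOpen ((((↑) : DD → OnePoint DD) '' {s : DD | w s = true ∧ s n ≤ t n})ᶜ : Set KK) := by
        rw [isOpen_compl_iff]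
        exact (hfin.image _).isClosed
      refine mem_of_superset (this.mem_nhds ?_) ?_
      · rintro ⟨s, _, hs⟩
        exact OnePoint.coe_ne_infty s hs
      · intro q hq s h1 h2 hqs
        exact hq ⟨s, ⟨h1, h2⟩, hqs.symm⟩
    have hV : NN (n+1) t ∈ 𝓝 t := (NN_open _ _).mem_nhds (mem_NN _ _)
    have hev : ∀ᶠ z in 𝓝 ((t, OnePoint.infty) : XX × KK), Th w z = 0 := by
      rw [nhds_prod_eq]
      filter_upwards [prod_mem_prod hV hU] with z hz
      apply Th_neg
      rintro ⟨s, hs1, hs2, hs3⟩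
      refine hz.2 s hs2 ?_ hs1
      have h1 := hs3 n
      have h2 := hz.1.2 n (Nat.lt_succ_self n)
      rw [h2] at h1
      exact h1
    have h0 : Th w (t, OnePoint.infty) = 0 := hev.self_of_nhds
    exact (continuousAt_congr (g := fun _ => (0:ℝ)) hev).mpr continuousAt_const
  | coe s =>
    have hsopen : ({(s : OnePoint DD)} : Set KK) ∈ 𝓝 (s : OnePoint DD) := by
      have : IsOpen (((↑) : DD → OnePoint DD) '' {s}) :=
        OnePoint.isOpenEmbedding_coe.isOpenMap _ (isOpen_discrete _)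
      rw [Set.image_singleton] at this
      exact this.mem_nhds rfl
    by_cases h : w s = true ∧ ∀ j, s j ≤ t j
    · have hV : NN 0 t ∈ 𝓝 t := (NN_open _ _).mem_nhds (mem_NN _ _)
      have hev : ∀ᶠ z in 𝓝 ((t, (s : OnePoint DD)) : XX × KK), Th w z = 1 := by
        rw [nhds_prod_eq]
        filter_upwards [prod_mem_prod hV hsopen] with z hz
        apply Th_pos
        exact ⟨s, hz.2, h.1, fun j => (h.2 j).trans (hz.1.1 j)⟩
      exact (continuousAt_congr (g := fun _ => (1:ℝ)) hev).mpr continuousAt_const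
    · have hV : ∃ V ∈ 𝓝 t, ∀ t' ∈ V, ¬ (w s = true ∧ ∀ j, s j ≤ t' j) := by
        by_cases hws : w s = true
        · obtain ⟨j, hj⟩ : ∃ j, t j < s j := by
            by_contra hc
            push Not at hc
            exact h ⟨hws, hc⟩
          refine ⟨NN (j+1) t, (NN_open _ _).mem_nhds (mem_NN _ _), ?_⟩
          rintro t' ht' ⟨_, h2⟩
          have h3 := ht'.2 j (Nat.lt_succ_self j)
          have h4 := h2 j
          omega
        · exact ⟨Set.univ, Filter.univ_mem, fun _ _ hh => hws hh.1⟩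
      obtain ⟨V, hV, hVn⟩ := hV
      have hev : ∀ᶠ z in 𝓝 ((t, (s : OnePoint DD)) : XX × KK), Th w z = 0 := by
        rw [nhds_prod_eq]
        filter_upwards [prod_mem_prod hV hsopen] with z hz
        apply Th_neg
        rintro ⟨s', hs1, hs2, hs3⟩
        have h5 : (s' : OnePoint DD) = (s : OnePoint DD) := by rw [← hs1]; exact hz.2
        have h6 : s' = s := OnePoint.coe_injective h5
        subst h6
        exact hVn z.1 hz.1 ⟨hs2, hs3⟩
      exact (continuousAt_congr (g := fun _ => (0:ℝ)) hev).mpr continuousAt_const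

theorem Th_contw : Continuous Th := by
  apply continuous_pi
  rintro ⟨t, q⟩
  induction q using OnePoint.rec with
  | infty =>
    have : (fun w => Th w (t, OnePoint.infty)) = fun _ => (0:ℝ) := by
      funext w
      apply Th_neg
      rintro ⟨s, hs, _⟩
      exact OnePoint.coe_ne_infty s hs.symm
    rw [this]
    exact continuous_const
  | coe s =>
    by_cases h : ∀ j, s j ≤ t j
    · have : (fun w => Th w (t, (s : OnePoint DD))) = fun w => if w s = true then (1:ℝ) else 0 := by
        funext w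
        by_cases hw : w s = true
        · rw [if_pos hw]
          exact Th_pos w _ ⟨s, rfl, hw, h⟩
        · rw [if_neg hw]
          apply Th_neg
          rintro ⟨s', hs1, hs2, hs3⟩
          have h6 : s' = s := (OnePoint.coe_injective hs1).symm
          rw [h6] at hs2
          exact hw hs2
      rw [this]
      exact (continuous_of_discreteTopology (f := fun b : Bool => if b = true then (1:ℝ) else 0)).comp
        (continuous_apply s)
    · have : (fun w => Th w (t, (s : OnePoint DD))) = fun _ => (0:ℝ) := by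
        funext w
        apply Th_neg
        rintro ⟨s', hs1, hs2, hs3⟩
        have h6 : s' = s := (OnePoint.coe_injective hs1).symm
        rw [h6] at hs3
        exact h hs3
      rw [this]
      exact continuous_const

/-- the category argument -/
theorem baire (C : ℕ → Set DD) (hC : ∀ s, ∃ k, s ∈ C k) :
    ∃ k : ℕ, ∃ t : DD, ∀ i : ℕ, ∃ d ∈ C k, (∀ j < k, d j = t j) ∧ d k = i := by
  classical
  by_contra hcon
  push Not at hcon
  choose f hf using hcon
  -- recursion
  let F : (k : ℕ) → ((j : ℕ) → j < k → ℕ) → ℕ := fun k prev => f k (fun j => if h : j < k then prev j h else 0)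
  let s : DD := fun k => (Nat.lt_wfRel.wf.fix (C := fun _ => ℕ) F) k
  have hs : ∀ k, s k = f k (fun j => if j < k then s j else 0) := by
    intro k
    show (Nat.lt_wfRel.wf.fix (C := fun _ => ℕ) F) k = _
    rw [WellFounded.fix_eq]
    show f k (fun j => if h : j < k then s j else 0) = f k _
    congr 1
  obtain ⟨k, hk⟩ := hC s
  refine hf k (fun j => if j < k then s j else 0) s hk ?_ (hs k)
  intro j hj
  rw [if_pos hj]

theorem AA_compact : IsCompact AA := AA_closed.isCompact

theorem weak_eval {E : Type} [NormedAddCommGroup E] [NormedSpace ℝ E] (φ : StrongDual ℝ E) :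
    Continuous (fun x : WeakSpace ℝ E => φ ((toWeakSpace ℝ E).symm x)) :=
  WeakBilin.eval_continuous (topDualPairing ℝ E).flip φ

/-- The adequate compact set does not embed in a Banach space with the weak topology. -/
theorem part2 (E : Type) [NormedAddCommGroup E] [NormedSpace ℝ E]
    (v : AA → WeakSpace ℝ E) (hv : Continuous v) (hvi : Function.Injective v) : False := by
  classical
  have hcs : CompactSpace AA := isCompact_iff_compactSpace.mp AA_compact
  let u : AA → E := fun w => (toWeakSpace ℝ E).symm (v w)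
  have hui : Function.Injective u := (toWeakSpace ℝ E).symm.injective.comp hvi
  have hue : ∀ φ : StrongDual ℝ E, Continuous (fun w => φ (u w)) := fun φ => (weak_eval φ).comp hv
  let C : ℕ → Set DD := fun k => {s | ∃ φ : ℕ → StrongDual ℝ E, (∀ j, ‖φ j‖ ≤ k) ∧
    ∀ w1 w0 : AA, w1.1 s = true → w0.1 s = false → ∃ j < k, 1 / ((k : ℝ) + 1) ≤ |φ j (u w1) - φ j (u w0)|}
  have hC : ∀ s, ∃ k, s ∈ C k := by
    intro s
    let P : Set (AA × AA) := {p | p.1.1 s = true ∧ p.2.1 s = false}
    have hP : IsCompact P := by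
      apply IsClosed.isCompact
      have c1 : Continuous (fun p : AA × AA => p.1.1 s) :=
        (continuous_apply s).comp (continuous_subtype_val.comp continuous_fst)
      have c2 : Continuous (fun p : AA × AA => p.2.1 s) :=
        (continuous_apply s).comp (continuous_subtype_val.comp continuous_snd)
      exact ((isClosed_discrete ({true} : Set Bool)).preimage c1).inter
        ((isClosed_discrete ({false} : Set Bool)).preimage c2)
    let O : StrongDual ℝ E × ℕ → Set (AA × AA) := fun a =>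
      {p | 1 / ((a.2 : ℝ) + 1) < |a.1 (u p.1) - a.1 (u p.2)|}
    have hO : ∀ a, IsOpen (O a) := fun a =>
      isOpen_lt continuous_const ((((hue a.1).comp continuous_fst).sub ((hue a.1).comp continuous_snd)).abs)
    have hcov : P ⊆ ⋃ a, O a := by
      rintro ⟨w1, w0⟩ ⟨h1, h0⟩
      have hne : w1 ≠ w0 := by
        intro h
        have h1' : w1.1 s = true := h1
        have h0' : w0.1 s = false := h0
        rw [h] at h1'
        rw [h1'] at h0'
        exact absurd h0' (by simp)
      have hne' : u w1 ≠ u w0 := fun h => hne (hui h)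
      obtain ⟨φ, hφ⟩ := SeparatingDual.exists_separating_of_ne (R := ℝ) hne'
      have hpos : 0 < |φ (u w1) - φ (u w0)| := abs_pos.mpr (sub_ne_zero.mpr hφ)
      obtain ⟨m, hm⟩ := exists_nat_one_div_lt hpos
      exact Set.mem_iUnion.mpr ⟨(φ, m), hm⟩
    obtain ⟨T, hT⟩ := hP.elim_finite_subcover O hO hcov
    let l : List (StrongDual ℝ E) := T.toList.map Prod.fst
    obtain ⟨N, hN⟩ : ∃ N : ℕ, ∀ a ∈ T, ‖a.1‖ ≤ N ∧ a.2 ≤ N := by
      have : ∀ S : Finset (StrongDual ℝ E × ℕ), ∃ N : ℕ, ∀ a ∈ S, ‖a.1‖ ≤ N ∧ a.2 ≤ N := by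
        intro S
        induction S using Finset.induction_on with
        | empty => exact ⟨0, fun a ha => absurd ha (Finset.notMem_empty a)⟩
        | insert a S _ ih =>
          obtain ⟨N, hN⟩ := ih
          obtain ⟨M, hM⟩ := exists_nat_ge ‖a.1‖
          refine ⟨max N (max M a.2), fun b hb => ?_⟩
          rcases Finset.mem_insert.mp hb with rfl | hb
          · refine ⟨hM.trans ?_, (le_max_right _ _).trans (le_max_right _ _)⟩
            exact_mod_cast (le_max_left _ _).trans (le_max_right _ _)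
          · refine ⟨(hN b hb).1.trans ?_, (hN b hb).2.trans (le_max_left _ _)⟩
            exact_mod_cast le_max_left _ _
      exact this T
    let k := max N (l.length)
    refine ⟨k, fun j => l.getD j 0, ?_, ?_⟩
    · intro j
      show ‖l.getD j 0‖ ≤ (k:ℝ)
      rcases lt_or_ge j l.length with h | h
      · rw [List.getD_eq_getElem _ _ h]
        have hmem : l[j] ∈ l := List.getElem_mem h
        obtain ⟨a, ha, hal⟩ := List.mem_map.mp hmem
        rw [← hal]
        refine (hN a (Finset.mem_toList.mp ha)).1.trans ?_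
        exact_mod_cast le_max_left _ _
      · rw [List.getD_eq_default _ _ h, norm_zero]
        exact Nat.cast_nonneg _
    · intro w1 w0 h1 h0
      obtain ⟨a, ha, hp⟩ := Set.mem_iUnion₂.mp (hT (show (w1, w0) ∈ P from ⟨h1, h0⟩))
      have hmem : a.1 ∈ l := List.mem_map.mpr ⟨a, Finset.mem_toList.mpr ha, rfl⟩
      obtain ⟨j, hj, hja⟩ := List.getElem_of_mem hmem
      refine ⟨j, lt_of_lt_of_le hj (le_max_right _ _), ?_⟩
      show 1 / ((k:ℝ)+1) ≤ |(l.getD j 0) (u w1) - (l.getD j 0) (u w0)|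
      rw [List.getD_eq_getElem _ _ hj, hja]
      have h2 : 1 / ((a.2 : ℝ) + 1) < |a.1 (u w1) - a.1 (u w0)| := hp
      refine le_trans ?_ h2.le
      have h3 : (a.2 : ℝ) ≤ k := by exact_mod_cast (hN a ha).2.trans (le_max_left _ _)
      gcongr
  obtain ⟨k, t, hk⟩ := baire C hC
  choose d hdC hd1 hd2 using hk
  choose φ hφ1 hφ2 using hdC
  -- members of AA
  have hAA : ∀ P : ℕ → Prop, (fun s : DD => decide (∃ i, P i ∧ s = d i)) ∈ AA := by
    intro P
    refine ⟨k, ?_⟩
    intro s s' hs hs' hne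
    simp only [decide_eq_true_eq] at hs hs'
    obtain ⟨i, _, rfl⟩ := hs
    obtain ⟨i', _, rfl⟩ := hs'
    refine ⟨fun j hj => (hd1 i j hj).trans (hd1 i' j hj).symm, ?_⟩
    rw [hd2, hd2]
    rintro rfl
    exact hne rfl
  let W : (ℕ → Prop) → AA := fun P => ⟨_, hAA P⟩
  have hWt : ∀ (P : ℕ → Prop) (s : DD), (∃ i, P i ∧ s = d i) → (W P).1 s = true :=
    fun P s h => decide_eq_true h
  have hWf : ∀ (P : ℕ → Prop) (s : DD), (¬ ∃ i, P i ∧ s = d i) → (W P).1 s = false :=
    fun P s h => decide_eq_false h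
  let winf : AA := W (fun _ => True)
  let wl : ℕ → AA := fun l => W (fun i => i ≤ l)
  have hdinj : Function.Injective d := by
    intro i i' h
    rw [← hd2 i, ← hd2 i', h]
  have hw1 : ∀ i, winf.1 (d i) = true := fun i => by
    show decide (∃ i', True ∧ d i = d i') = true
    rw [decide_eq_true_eq]
    exact ⟨i, trivial, rfl⟩
  have hw0 : ∀ l i, l < i → (wl l).1 (d i) = false := fun l i hli => by
    apply hWf
    rintro ⟨i', h1, h2⟩
    have := hdinj h2
    omega
  have hprop : ∀ l i, l < i → ∃ j < k, 1 / ((k : ℝ) + 1) ≤ |φ i j (u winf) - φ i j (u (wl l))| :=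
    fun l i hli => hφ2 i winf (wl l) (hw1 i) (hw0 l i hli)
  -- limits of functionals
  let 𝒰 : Ultrafilter ℕ := Filter.hyperfilter ℕ
  have hlim : ∀ j, ∃ ψ : StrongDual ℝ E, ∀ x : E, Tendsto (fun i => φ i j x) 𝒰 (𝓝 (ψ x)) := by
    intro j
    have hcomp := WeakDual.isCompact_closedBall (𝕜 := ℝ) (E := E) 0 (k : ℝ)
    let q : ℕ → WeakDual ℝ E := fun i => StrongDual.toWeakDual (φ i j)
    have hq : (𝒰.map q : Ultrafilter (WeakDual ℝ E)) ≤ 𝓟 (WeakDual.toStrongDual ⁻¹' Metric.closedBall (0 : StrongDual ℝ E) (k : ℝ)) := by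
      rw [Filter.le_principal_iff]
      show q ⁻¹' _ ∈ 𝒰
      apply Filter.mem_of_superset Filter.univ_mem
      intro i _
      show (φ i j) ∈ Metric.closedBall (0 : StrongDual ℝ E) (k : ℝ)
      rw [Metric.mem_closedBall, dist_zero_right]
      exact hφ1 i j
    obtain ⟨ψ, _, hle⟩ := hcomp.ultrafilter_le_nhds _ hq
    refine ⟨WeakDual.toStrongDual ψ, fun x => ?_⟩
    have h1 : Tendsto q 𝒰 (𝓝 ψ) := hle
    exact ((WeakDual.eval_continuous (𝕜 := ℝ) x).tendsto ψ).comp h1
  choose ψ hψ using hlim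
  have hev : ∀ m : ℕ, ∀ᶠ i in (𝒰 : Filter ℕ), m ≤ i := by
    intro m
    have : (𝒰 : Filter ℕ) ≤ cofinite := Filter.hyperfilter_le_cofinite
    apply this
    rw [Nat.cofinite_eq_atTop]
    exact eventually_ge_atTop m
  have hψ2 : ∀ l, ∃ j < k, 1 / ((k : ℝ) + 1) ≤ |ψ j (u winf) - ψ j (u (wl l))| := by
    intro l
    by_contra hc
    push Not at hc
    have h1 : ∀ᶠ i in (𝒰 : Filter ℕ), ∀ j ∈ Finset.range k, |φ i j (u winf) - φ i j (u (wl l))| < 1 / ((k : ℝ) + 1) := by
      rw [Filter.eventually_all_finset]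
      intro j hj
      have h2 : Tendsto (fun i => |φ i j (u winf) - φ i j (u (wl l))|) 𝒰 (𝓝 |ψ j (u winf) - ψ j (u (wl l))|) :=
        ((hψ j (u winf)).sub (hψ j (u (wl l)))).abs
      exact h2.eventually_lt_const (hc j (Finset.mem_range.mp hj))
    obtain ⟨i, hi1, hi2⟩ := (h1.and (hev (l+1))).exists
    obtain ⟨j, hj, hj2⟩ := hprop l i (by omega)
    exact absurd (hi1 j (Finset.mem_range.mpr hj)) (not_lt.mpr hj2)
  -- wl → winf
  have hwl : Tendsto wl atTop (𝓝 winf) := by
    rw [tendsto_subtype_rng, tendsto_pi_nhds]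
    intro s
    apply tendsto_const_nhds.congr'
    by_cases hs : ∃ i, s = d i
    · obtain ⟨i, rfl⟩ := hs
      filter_upwards [eventually_ge_atTop i] with l hl
      rw [hw1 i]
      symm
      apply hWt
      exact ⟨i, hl, rfl⟩
    · filter_upwards with l
      have e1 : winf.1 s = false := by
        show decide (∃ i', True ∧ s = d i') = false
        rw [decide_eq_false_iff_not]
        rintro ⟨i, _, h⟩
        exact hs ⟨i, h⟩
      have e2 : (wl l).1 s = false := by
        apply hWf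
        rintro ⟨i, _, h⟩
        exact hs ⟨i, h⟩
      rw [e1, e2]
  have h1 : ∀ᶠ l in atTop, ∀ j ∈ Finset.range k, |ψ j (u winf) - ψ j (u (wl l))| < 1 / ((k : ℝ) + 1) := by
    rw [Filter.eventually_all_finset]
    intro j _
    have h2 : Tendsto (fun l => |ψ j (u winf) - ψ j (u (wl l))|) atTop (𝓝 |ψ j (u winf) - ψ j (u winf)|) :=
      (tendsto_const_nhds.sub (((hue (ψ j)).tendsto winf).comp hwl)).abs
    rw [sub_self, abs_zero] at h2
    exact h2.eventually_lt_const (by positivity)
  obtain ⟨l, hl⟩ := h1.exists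
  obtain ⟨j, hj, hj2⟩ := hψ2 l
  exact absurd (hl j (Finset.mem_range.mpr hj)) (not_lt.mpr hj2)

/-- The negation of the preceding statement: For a Tychonoff space X: if every pointwise-compact set of continuous real functions on X embeds in a Banach space with its weak topology, then so does every such set on X×K, for every compact Hausdorff K. -/
theorem result :
    ¬ (∀ (X : Type) [TopologicalSpace X] [T35Space X],
      (∀ A : Set (X → ℝ), (∀ f ∈ A, Continuous f) → IsCompact A →
        ∃ (E : Type) (_ : NormedAddCommGroup E) (_ : NormedSpace ℝ E) (_ : CompleteSpace E)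
          (e : A → WeakSpace ℝ E), Topology.IsEmbedding e) →
      ∀ (K : Type) [TopologicalSpace K] [CompactSpace K] [T2Space K],
        ∀ B : Set (X × K → ℝ), (∀ f ∈ B, Continuous f) → IsCompact B →
          ∃ (E : Type) (_ : NormedAddCommGroup E) (_ : NormedSpace ℝ E) (_ : CompleteSpace E)
            (e : B → WeakSpace ℝ E), Topology.IsEmbedding e) := by
  intro H
  obtain ⟨E, _, _, _, e, he⟩ := H XX part1 KK (Th '' AA) (by
    rintro _ ⟨w, hw, rfl⟩
    exact Th_cont w hw) (AA_compact.image Th_contw)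
  refine part2 E (fun w => e ⟨Th w.1, w.1, w.2, rfl⟩) ?_ ?_
  · apply he.continuous.comp
    apply Continuous.subtype_mk
    exact Th_contw.comp continuous_subtype_val
  · intro w w' h
    have h1 := congrArg Subtype.val (he.injective h)
    apply Subtype.ext
    funext s
    have h2 : Th w.1 ((s : XX), (s : OnePoint DD)) = Th w'.1 ((s : XX), (s : OnePoint DD)) := congrFun h1 _
    by_contra hne
    have key : ∀ a b : DD → Bool, a s = true → b s = false →
        Th a ((s : XX), (s : OnePoint DD)) ≠ Th b ((s : XX), (s : OnePoint DD)) := by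
      intro a b ha hb
      rw [Th_pos a _ ⟨s, rfl, ha, fun _ => le_refl _⟩, Th_neg b _ (by
        rintro ⟨s', hs1, hs2, _⟩
        have h6 : s' = s := (OnePoint.coe_injective hs1).symm
        rw [h6, hb] at hs2
        exact absurd hs2 (by simp))]
      exact one_ne_zero
    rcases hb : w.1 s with _ | _
    · rcases hb' : w'.1 s with _ | _
      · exact hne (by rw [hb, hb'])
      · exact key _ _ hb' hb h2.symm
    · rcases hb' : w'.1 s with _ | _
      · exact key _ _ hb hb' h2
      · exact hne (by rw [hb, hb'])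

end Pool.Agent.S08842
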