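import Pool.Statements.S08934

set_option autoImplicit false
open Pool Pool.MP_41b9bf_gt

namespace Pool.Agent.S08934

open Set Filter Topology

abbrev U0 : Type := Ultrafilter ℕ

noncomputable def p0 : U0 := Filter.hyperfilter ℕ

theorem p0_inf (s : Set ℕ) (hs : s ∈ p0) : s.Infinite := by
  intro hfin
  exact Filter.notMem_hyperfilter_of_finite hfin hs

theorem acc_inf {Z : Type} [TopologicalSpace Z] [T1Space Z] (B : Set Z) (z : Z) (h : AccPt z (𝓟 B)) :
    ∀ O ∈ 𝓝 z, (O ∩ B).Infinite := by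
  intro O hO hfin
  rw [accPt_iff_nhds] at h
  have hfin2 : ((O ∩ B) \ {z}).Finite := hfin.sdiff
  have hmem : O ∩ ((O ∩ B) \ {z})ᶜ ∈ 𝓝 z := by
    apply Filter.inter_mem hO
    apply hfin2.isClosed.isOpen_compl.mem_nhds
    intro h'
    exact h'.2 rfl
  obtain ⟨y, ⟨⟨hyO, hyc⟩, hyB⟩, hne⟩ := h _ hmem
  exact hyc ⟨⟨hyO, hyB⟩, hne⟩

/-- every infinite set of ultrafilters is split into two infinite pieces by a clopen set -/
theorem split (B : Set U0) (hB : B.Infinite) :
    ∃ E : Set ℕ, {u | u ∈ B ∧ E ∈ u}.Infinite ∧ {u | u ∈ B ∧ E ∉ u}.Infinite := by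
  classical
  by_contra hcon
  push Not at hcon
  obtain ⟨q, _, hq⟩ := hB.exists_accPt_of_subset_isCompact isCompact_univ (Set.subset_univ B)
  have hqE : ∀ E : Set ℕ, E ∈ q → {u | u ∈ B ∧ E ∉ u}.Finite := by
    intro E hE
    have h1 : {u : U0 | E ∈ u} ∈ 𝓝 q := (ultrafilter_isOpen_basic E).mem_nhds hE
    have h2 := acc_inf B q hq _ h1
    have h3 : {u | u ∈ B ∧ E ∈ u}.Infinite := by
      apply h2.mono
      rintro u ⟨hu1, hu2⟩
      exact ⟨hu2, hu1⟩
    exact hcon E h3
  obtain ⟨f, hfP, hfr⟩ := exists_seq_of_forall_finset_exists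
    (fun x : Set ℕ × U0 => x.2 ∈ B ∧ x.1 ∈ x.2 ∧ x.1 ∉ q)
    (fun x y => Disjoint x.1 y.1) (by
      intro s hs
      have h1 : (⋃ x ∈ s, x.1) ∉ q := by
        intro hmem
        have := (Ultrafilter.finite_biUnion_mem_iff (f := q) (is := (s : Set (Set ℕ × U0))) (s := fun x => x.1)
          s.finite_toSet).mp (by simpa using hmem)
        obtain ⟨x, hx, hxq⟩ := this
        exact (hs x hx).2.2 hxq
      have h2 : (⋃ x ∈ s, x.1)ᶜ ∈ q := Ultrafilter.compl_mem_iff_notMem.mpr h1
      have h3 : ({u | u ∈ B ∧ (⋃ x ∈ s, x.1)ᶜ ∉ u} ∪ {q}).Finite := (hqE _ h2).union (Set.finite_singleton q)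
      obtain ⟨u, huB, hu⟩ := (hB.sdiff h3).nonempty
      rw [Set.mem_union, not_or] at hu
      have h4 : (⋃ x ∈ s, x.1)ᶜ ∈ u := by
        by_contra h
        exact hu.1 ⟨huB, h⟩
      have h5 : ∃ S : Set ℕ, S ∈ u ∧ S ∉ q := by
        by_contra h
        push Not at h
        exact hu.2 (Ultrafilter.coe_injective (le_antisymm (show (u : Filter ℕ) ≤ q from by
          intro S hS
          by_contra hSu
          exact (Ultrafilter.compl_mem_iff_notMem.mp (h Sᶜ (Ultrafilter.compl_mem_iff_notMem.mpr hSu))) hS) (fun S hS => h S hS)))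
      obtain ⟨S, hSu, hSq⟩ := h5
      refine ⟨(S ∩ (⋃ x ∈ s, x.1)ᶜ, u), ⟨huB, Filter.inter_mem hSu h4, ?_⟩, ?_⟩
      · intro h
        exact hSq (Filter.mem_of_superset h Set.inter_subset_left)
      · intro x hx
        rw [Set.disjoint_left]
        intro a ha hb
        exact hb.2 (Set.mem_iUnion₂.mpr ⟨x, hx, ha⟩))
  have hdisj : ∀ m n, m ≠ n → Disjoint (f m).1 (f n).1 := by
    intro m n hmn
    rcases lt_or_gt_of_ne hmn with h | h
    · exact hfr m n h
    · exact (hfr n m h).symm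
  have hinj : Function.Injective (fun n => (f n).2) := by
    intro m n hmn
    by_contra hne
    have h1 := (hfP m).2.1
    have h2 := (hfP n).2.1
    have hmn' : (f m).2 = (f n).2 := hmn
    rw [hmn'] at h1
    have h3 := Filter.inter_mem h1 h2
    rw [Set.disjoint_iff_inter_eq_empty.mp (hdisj m n hne)] at h3
    exact Ultrafilter.empty_notMem h3
  let E : Set ℕ := ⋃ k : ℕ, (f (2 * k)).1
  have hE1 : {u | u ∈ B ∧ E ∈ u}.Infinite := by
    have : (Set.range (fun k : ℕ => (f (2 * k)).2)).Infinite :=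
      Set.infinite_range_of_injective (fun a b h => by
        have := hinj (a₁ := 2 * a) (a₂ := 2 * b) h
        omega)
    apply this.mono
    rintro _ ⟨k, rfl⟩
    exact ⟨(hfP _).1, Filter.mem_of_superset (hfP (2 * k)).2.1 (Set.subset_iUnion (fun k : ℕ => (f (2 * k)).1) k)⟩
  have hE2 : {u | u ∈ B ∧ E ∉ u}.Infinite := by
    have : (Set.range (fun k : ℕ => (f (2 * k + 1)).2)).Infinite :=
      Set.infinite_range_of_injective (fun a b h => by
        have := hinj (a₁ := 2 * a + 1) (a₂ := 2 * b + 1) h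
        omega)
    apply this.mono
    rintro _ ⟨k, rfl⟩
    refine ⟨(hfP _).1, fun hmem => ?_⟩
    have h3 := Filter.inter_mem hmem (hfP (2 * k + 1)).2.1
    have h4 : E ∩ (f (2 * k + 1)).1 = ∅ := by
      rw [← Set.disjoint_iff_inter_eq_empty, Set.disjoint_iUnion_left]
      intro j
      exact hdisj _ _ (by omega)
    rw [h4] at h3
    exact Ultrafilter.empty_notMem h3
  exact hE2 (hcon E hE1)

/-- `βℕ` minus a point -/
abbrev AA : Type := {u : U0 // u ≠ p0}

theorem AA_cc (B : Set AA) (hB : B.Infinite) : ∃ z : AA, ∀ O ∈ 𝓝 z, (O ∩ B).Infinite := by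
  have hB' : ((fun a : AA => a.1) '' B).Infinite := hB.image (Subtype.val_injective.injOn)
  obtain ⟨E, h1, h2⟩ := split _ hB'
  have key : ∀ C : Set U0, C ⊆ (fun a : AA => a.1) '' B → ∀ q : U0, AccPt q (𝓟 C) → q ≠ p0 →
      ∃ z : AA, ∀ O ∈ 𝓝 z, (O ∩ B).Infinite := by
    intro C hC q hq hqp
    refine ⟨⟨q, hqp⟩, ?_⟩
    apply acc_inf
    rw [accPt_iff_nhds] at hq ⊢
    intro O hO
    obtain ⟨O', hO', hsub⟩ := (mem_nhds_subtype _ _ _).mp hO
    obtain ⟨y, ⟨hyO, hyC⟩, hne⟩ := hq O' hO'
    obtain ⟨b, hb, rfl⟩ := hC hyC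
    refine ⟨b, ⟨hsub hyO, hb⟩, ?_⟩
    intro h
    apply hne
    rw [h]
  obtain ⟨q1, _, hq1⟩ := h1.exists_accPt_of_subset_isCompact isCompact_univ (Set.subset_univ _)
  obtain ⟨q2, _, hq2⟩ := h2.exists_accPt_of_subset_isCompact isCompact_univ (Set.subset_univ _)
  have hE1 : E ∈ q1 := by
    by_contra h
    have hO : {u : U0 | Eᶜ ∈ u} ∈ 𝓝 q1 :=
      (ultrafilter_isOpen_basic Eᶜ).mem_nhds (Ultrafilter.compl_mem_iff_notMem.mpr h)
    rw [accPt_iff_nhds] at hq1
    obtain ⟨y, ⟨hyO, hyC⟩, _⟩ := hq1 _ hO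
    exact (Ultrafilter.compl_mem_iff_notMem.mp hyO) hyC.2
  have hE2 : E ∉ q2 := by
    intro h
    have hO : {u : U0 | E ∈ u} ∈ 𝓝 q2 := (ultrafilter_isOpen_basic E).mem_nhds h
    rw [accPt_iff_nhds] at hq2
    obtain ⟨y, ⟨hyO, hyC⟩, _⟩ := hq2 _ hO
    exact hyC.2 hyO
  by_cases h : q1 = p0
  · refine key _ (fun u hu => hu.1) q2 hq2 ?_
    intro h'
    rw [h', ← h] at hE2
    exact hE2 hE1
  · exact key _ (fun u hu => hu.1) q1 hq1 h

theorem pure_ne (n : ℕ) : (pure n : U0) ≠ p0 := by
  intro h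
  have h1 : ({n} : Set ℕ) ∈ p0 := by
    rw [← h]
    exact Ultrafilter.mem_pure.mpr rfl
  exact p0_inf _ h1 (Set.finite_singleton n)

/-- `βℕ` minus a point is not covered by countably many compact subsets -/
theorem not_cover (A : ℕ → Set U0) (hA : ∀ n, IsCompact (A n)) (hp : ∀ n, p0 ∉ A n) :
    ∃ u : AA, ∀ n, u.1 ∉ A n := by
  classical
  by_contra hcon
  push Not at hcon
  have hE : ∀ n, ∃ E : Set ℕ, E ∈ p0 ∧ ∀ u ∈ A n, E ∉ u := by
    intro n
    have hopen : IsOpen (A n)ᶜ := (hA n).isClosed.isOpen_compl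
    obtain ⟨O, ⟨E, rfl⟩, hpE, hsub⟩ := ultrafilterBasis_is_basis.exists_subset_of_mem_open (show p0 ∈ (A n)ᶜ from hp n) hopen
    exact ⟨E, hpE, fun u hu hEu => hsub hEu hu⟩
  choose E hEp hEA using hE
  -- choose distinct points
  have hinter : ∀ n, (⋂ i ∈ Finset.range (n+1), E i) ∈ p0 := by
    intro n
    exact (Filter.biInter_finset_mem _).mpr (fun i _ => hEp i)
  obtain ⟨k, hkP, hkr⟩ := exists_seq_of_forall_finset_exists
    (fun x : ℕ × ℕ => ∀ i ≤ x.1, x.2 ∈ E i)
    (fun x y => x.1 < y.1 ∧ x.2 < y.2) (by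
      intro s _
      let n := (s.sup (fun x => x.1)) + 1
      have hinf := p0_inf _ (hinter n)
      obtain ⟨m, hm, hgt⟩ := hinf.exists_gt (s.sup (fun x => x.2))
      refine ⟨(n, m), ?_, ?_⟩
      · intro i hi
        exact Set.mem_iInter₂.mp hm i (Finset.mem_range.mpr (Nat.lt_succ_of_le hi))
      · intro x hx
        constructor
        · exact Nat.lt_succ_of_le (Finset.le_sup (f := fun x : ℕ × ℕ => x.1) hx)
        · exact lt_of_le_of_lt (Finset.le_sup (f := fun x : ℕ × ℕ => x.2) hx) hgt)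
  have hk1 : ∀ n, n ≤ (k n).1 := by
    intro n
    induction n with
    | zero => exact Nat.zero_le _
    | succ n ih => exact lt_of_le_of_lt ih (hkr n (n+1) (Nat.lt_succ_self n)).1
  have hkmono : StrictMono (fun n => (k n).2) := strictMono_nat_of_lt_succ fun n =>
    (hkr n (n+1) (Nat.lt_succ_self n)).2
  let b : ℕ → AA := fun n => ⟨pure (k n).2, pure_ne _⟩
  have hbinj : Function.Injective b := by
    intro m n h
    exact hkmono.injective (Ultrafilter.pure_injective (congrArg Subtype.val h))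
  obtain ⟨z, hz⟩ := AA_cc (Set.range b) (Set.infinite_range_of_injective hbinj)
  obtain ⟨m, hm⟩ := hcon z
  have hO : {a : AA | (E m)ᶜ ∈ a.1} ∈ 𝓝 z := by
    apply ((ultrafilter_isOpen_basic (E m)ᶜ).preimage continuous_subtype_val).mem_nhds
    exact Ultrafilter.compl_mem_iff_notMem.mpr (hEA m z.1 hm)
  apply hz _ hO
  apply ((Set.finite_Iio m).image b).subset
  rintro _ ⟨ha, ⟨n, rfl⟩⟩
  refine ⟨n, ?_, rfl⟩
  by_contra hn
  have hn' : m ≤ n := not_lt.mp hn
  have h1 : (k n).2 ∈ E m := hkP n m (hn'.trans (hk1 n))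
  have h2 : (k n).2 ∈ (E m)ᶜ := Ultrafilter.mem_pure.mp ha
  exact h2 h1

/-- discrete copy -/
def DD : Type := AA
instance : TopologicalSpace DD := ⊥
instance : DiscreteTopology DD := ⟨rfl⟩
abbrev KK : Type := OnePoint DD

/-- the isolated point attached to `a` -/
def cd (a : AA) : KK := OnePoint.some (show DD from a)

/-- the Alexandroff duplicate of `AA` -/
abbrev YY : Type := {y : AA × KK // y.2 = OnePoint.infty ∨ y.2 = cd y.1}

def yinf (a : AA) : YY := ⟨(a, OnePoint.infty), Or.inl rfl⟩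
def yiso (a : AA) : YY := ⟨(a, cd a), Or.inr rfl⟩

theorem yinf_cont : Continuous yinf := by
  apply Continuous.subtype_mk
  exact continuous_id.prodMk continuous_const

theorem fin_diff (g : YY → ℝ) (hg : Continuous g) (ε : ℝ) (hε : 0 < ε) :
    {a : AA | ε ≤ |g (yiso a) - g (yinf a)|}.Finite := by
  by_contra hinf
  obtain ⟨z, hz⟩ := AA_cc _ hinf
  have h1 : {y : YY | |g y - g (yinf z)| < ε / 2} ∈ 𝓝 (yinf z) := by
    have : IsOpen {y : YY | |g y - g (yinf z)| < ε / 2} :=
      isOpen_lt ((hg.sub continuous_const).abs) continuous_const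
    apply this.mem_nhds
    show |g (yinf z) - g (yinf z)| < ε / 2
    rw [sub_self, abs_zero]
    positivity
  obtain ⟨O, hO, hsub⟩ := (mem_nhds_subtype _ _ _).mp h1
  have hO' : O ∈ 𝓝 (z, (OnePoint.infty : KK)) := hO
  rw [mem_nhds_prod_iff] at hO'
  obtain ⟨O1, hO1, O2, hO2, hprod⟩ := hO'
  have hfin : {a : DD | (a : OnePoint DD) ∉ O2}.Finite := by
    have h2 : Tendsto (fun a : DD => (a : OnePoint DD)) (coclosedCompact DD) (𝓝 OnePoint.infty) :=
      OnePoint.tendsto_coe_infty
    rw [coclosedCompact_eq_cocompact, cocompact_eq_cofinite] at h2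
    exact Filter.mem_cofinite.mp (h2 hO2)
  obtain ⟨a, ⟨haO1, ha⟩, ha2⟩ := ((hz O1 hO1).sdiff hfin).nonempty
  have ha2' : cd a ∈ O2 := by
    by_contra h
    exact ha2 h
  have e1 : |g (yiso a) - g (yinf z)| < ε / 2 := hsub (hprod (Set.mk_mem_prod haO1 ha2'))
  have e2 : |g (yinf a) - g (yinf z)| < ε / 2 := hsub (hprod (Set.mk_mem_prod haO1 (mem_of_mem_nhds hO2)))
  have e3 : ε ≤ |g (yiso a) - g (yinf a)| := ha
  have e4 : |g (yiso a) - g (yinf a)| ≤ |g (yiso a) - g (yinf z)| + |g (yinf a) - g (yinf z)| := by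
    rw [show g (yiso a) - g (yinf a) = (g (yiso a) - g (yinf z)) - (g (yinf a) - g (yinf z)) by ring]
    exact abs_sub _ _
  linarith

abbrev XX' : Type := AA ⊕ KK
abbrev YY' : Type := YY ⊕ Unit

noncomputable def Tf (f : C(XX', ℝ)) : C(YY', ℝ) :=
  ⟨Sum.elim (fun y : YY => f (Sum.inl y.1.1) + f (Sum.inr y.1.2) - f (Sum.inr OnePoint.infty))
    (fun _ => f (Sum.inr OnePoint.infty)), by
    apply Continuous.sumElim
    · fun_prop
    · fun_prop⟩

noncomputable def Sf0 (g : C(YY', ℝ)) : KK → ℝ := fun t =>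
  OnePoint.elim t (g (Sum.inr ())) (fun a : DD => g (Sum.inl (yiso a)) - g (Sum.inl (yinf a)) + g (Sum.inr ()))

theorem Sf0_cont (g : C(YY', ℝ)) : Continuous (Sf0 g) := by
  rw [OnePoint.continuous_iff_from_discrete]
  rw [Metric.tendsto_nhds]
  intro ε hε
  have h := fin_diff (fun y => g (Sum.inl y)) (by fun_prop) ε hε
  rw [Filter.eventually_cofinite]
  apply h.subset
  intro a ha
  have ha' : ¬ dist (g (Sum.inl (yiso a)) - g (Sum.inl (yinf a)) + g (Sum.inr ())) (g (Sum.inr ())) < ε := ha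
  rw [Real.dist_eq, add_sub_cancel_right, not_lt] at ha'
  exact ha'

noncomputable def Sf (g : C(YY', ℝ)) : C(XX', ℝ) :=
  ⟨Sum.elim (fun a : AA => g (Sum.inl (yinf a))) (Sf0 g), by
    apply Continuous.sumElim
    · have := yinf_cont
      fun_prop
    · exact Sf0_cont g⟩

noncomputable def TT : C(XX', ℝ) ≃ₗ[ℝ] C(YY', ℝ) where
  toFun := Tf
  invFun := Sf
  map_add' := by
    intro f f'
    ext y
    rcases y with y | y
    · show (f + f') (Sum.inl y.1.1) + (f + f') (Sum.inr y.1.2) - (f + f') (Sum.inr OnePoint.infty) =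
        (f (Sum.inl y.1.1) + f (Sum.inr y.1.2) - f (Sum.inr OnePoint.infty)) +
        (f' (Sum.inl y.1.1) + f' (Sum.inr y.1.2) - f' (Sum.inr OnePoint.infty))
      simp only [ContinuousMap.add_apply]
      ring
    · rfl
  map_smul' := by
    intro c f
    ext y
    rcases y with y | y
    · show (c • f) (Sum.inl y.1.1) + (c • f) (Sum.inr y.1.2) - (c • f) (Sum.inr OnePoint.infty) =
        c * (f (Sum.inl y.1.1) + f (Sum.inr y.1.2) - f (Sum.inr OnePoint.infty))
      simp only [ContinuousMap.smul_apply, smul_eq_mul]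
      ring
    · rfl
  left_inv := by
    intro f
    ext x
    rcases x with a | t
    · show f (Sum.inl a) + f (Sum.inr OnePoint.infty) - f (Sum.inr OnePoint.infty) = f (Sum.inl a)
      ring
    · induction t using OnePoint.rec with
      | infty => rfl
      | coe a =>
        show (f (Sum.inl (show AA from a)) + f (Sum.inr (a : OnePoint DD)) - f (Sum.inr OnePoint.infty)) -
          (f (Sum.inl (show AA from a)) + f (Sum.inr OnePoint.infty) - f (Sum.inr OnePoint.infty)) + f (Sum.inr OnePoint.infty) =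
          f (Sum.inr (a : OnePoint DD))
        ring
  right_inv := by
    intro g
    ext y
    rcases y with ⟨⟨a, t⟩, ht | ht⟩ | y
    · have ht' : t = OnePoint.infty := ht
      subst ht'
      show g (Sum.inl (yinf a)) + g (Sum.inr ()) - g (Sum.inr ()) = g (Sum.inl (yinf a))
      ring
    · have ht' : t = cd a := ht
      subst ht'
      show g (Sum.inl (yinf a)) + (g (Sum.inl (yiso a)) - g (Sum.inl (yinf a)) + g (Sum.inr ())) - g (Sum.inr ()) = g (Sum.inl (yiso a))
      ring
    · rfl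

theorem ev_cont {X : Type} [TopologicalSpace X] (x : X) :
    @Continuous (C(X, ℝ)) ℝ (TopologicalSpace.induced (fun f : C(X, ℝ) => (f : X → ℝ))
            (inferInstance : TopologicalSpace (X → ℝ))) _ (fun f => f x) := by
  let _ : TopologicalSpace C(X, ℝ) := TopologicalSpace.induced (fun f : C(X, ℝ) => (f : X → ℝ))
            (inferInstance : TopologicalSpace (X → ℝ))
  exact (continuous_apply x).comp continuous_induced_dom

theorem T_cont : @Continuous (C(XX', ℝ)) (C(YY', ℝ))
          (TopologicalSpace.induced (fun f : C(XX', ℝ) => (f : XX' → ℝ))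
            (inferInstance : TopologicalSpace (XX' → ℝ)))
          (TopologicalSpace.induced (fun g : C(YY', ℝ) => (g : YY' → ℝ))
            (inferInstance : TopologicalSpace (YY' → ℝ)))
          (⇑TT) := by
  let _ : TopologicalSpace C(XX', ℝ) := TopologicalSpace.induced (fun f : C(XX', ℝ) => (f : XX' → ℝ))
            (inferInstance : TopologicalSpace (XX' → ℝ))
  rw [continuous_induced_rng]
  apply continuous_pi
  intro y
  rcases y with y | y
  · exact ((ev_cont (X := XX') (Sum.inl y.1.1)).add (ev_cont (X := XX') (Sum.inr y.1.2))).sub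
      (ev_cont (X := XX') (Sum.inr OnePoint.infty))
  · exact ev_cont (X := XX') (Sum.inr OnePoint.infty)

theorem S_cont : @Continuous (C(YY', ℝ)) (C(XX', ℝ))
          (TopologicalSpace.induced (fun f : C(YY', ℝ) => (f : YY' → ℝ))
            (inferInstance : TopologicalSpace (YY' → ℝ)))
          (TopologicalSpace.induced (fun g : C(XX', ℝ) => (g : XX' → ℝ))
            (inferInstance : TopologicalSpace (XX' → ℝ)))
          (⇑TT.symm) := by
  let _ : TopologicalSpace C(YY', ℝ) := TopologicalSpace.induced (fun f : C(YY', ℝ) => (f : YY' → ℝ))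
            (inferInstance : TopologicalSpace (YY' → ℝ))
  rw [continuous_induced_rng]
  apply continuous_pi
  intro x
  rcases x with a | t
  · exact ev_cont (X := YY') (Sum.inl (yinf a))
  · induction t using OnePoint.rec with
    | infty => exact ev_cont (X := YY') (Sum.inr ())
    | coe a =>
      exact ((ev_cont (X := YY') (Sum.inl (yiso a))).sub (ev_cont (X := YY') (Sum.inl (yinf a)))).add
        (ev_cont (X := YY') (Sum.inr ()))

instance sumCR {X Y : Type} [TopologicalSpace X] [TopologicalSpace Y] [CompletelyRegularSpace X]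
    [CompletelyRegularSpace Y] : CompletelyRegularSpace (X ⊕ Y) := by
  constructor
  intro x K hK hx
  rcases x with x | x
  · obtain ⟨f, hf, hfx, hfK⟩ := CompletelyRegularSpace.completely_regular x (Sum.inl ⁻¹' K)
      (hK.preimage continuous_inl) hx
    refine ⟨Sum.elim f (fun _ => 1), hf.sumElim continuous_const, hfx, ?_⟩
    intro y hy
    rcases y with y | y
    · exact hfK hy
    · rfl
  · obtain ⟨f, hf, hfx, hfK⟩ := CompletelyRegularSpace.completely_regular x (Sum.inr ⁻¹' K)
      (hK.preimage continuous_inr) hx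
    refine ⟨Sum.elim (fun _ => 1) f, continuous_const.sumElim hf, hfx, ?_⟩
    intro y hy
    rcases y with y | y
    · rfl
    · exact hfK hy

instance sumT35 {X Y : Type} [TopologicalSpace X] [TopologicalSpace Y] [T35Space X]
    [T35Space Y] : T35Space (X ⊕ Y) where

theorem ksep : ∃ S : Set XX', Dense S ∧ IsSigmaCompact S := by
  let W : Option ℕ → Set XX' := fun i => match i with
    | none => Set.range Sum.inr
    | some n => {Sum.inl ⟨pure n, pure_ne n⟩}
  refine ⟨⋃ i, W i, ?_, ?_⟩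
  · intro x
    rcases x with a | t
    · rw [mem_closure_iff]
      intro O hO haO
      have h1 : IsOpen ((Sum.inl : AA → XX') ⁻¹' O) := hO.preimage continuous_inl
      obtain ⟨O', hO', hpre⟩ := isOpen_induced_iff.mp h1
      have haO' : a.1 ∈ O' := by
        have : a ∈ Subtype.val ⁻¹' O' := by
          rw [hpre]
          exact haO
        exact this
      obtain ⟨_, ⟨E, rfl⟩, haE, hsub⟩ := ultrafilterBasis_is_basis.exists_subset_of_mem_open haO' hO'
      obtain ⟨n, hn⟩ := Ultrafilter.nonempty_of_mem (show E ∈ a.1 from haE)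
      refine ⟨Sum.inl ⟨pure n, pure_ne n⟩, ?_, Set.mem_iUnion.mpr ⟨some n, rfl⟩⟩
      have h2 : (⟨pure n, pure_ne n⟩ : AA) ∈ Subtype.val ⁻¹' O' := hsub (Ultrafilter.mem_pure.mpr hn)
      rw [hpre] at h2
      exact h2
    · exact subset_closure (Set.mem_iUnion.mpr ⟨none, ⟨t, rfl⟩⟩)
  · apply isSigmaCompact_iUnion_of_isCompact
    intro i
    rcases i with _ | n
    · exact isCompact_range continuous_inr
    · exact isCompact_singleton

theorem not_ksep : ¬ ∃ S : Set YY', Dense S ∧ IsSigmaCompact S := by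
  rintro ⟨S, hS, K, hK, hKS⟩
  let φ : YY' → U0 := Sum.elim (fun y => y.1.1.1) (fun _ => pure 0)
  have hφ : Continuous φ := by
    apply Continuous.sumElim
    · exact continuous_subtype_val.comp (continuous_fst.comp continuous_subtype_val)
    · exact continuous_const
  obtain ⟨u, hu⟩ := not_cover (fun n => φ '' K n) (fun n => (hK n).image hφ) (by
    rintro n ⟨y, _, hy⟩
    rcases y with y | y
    · exact y.1.1.2 hy
    · exact pure_ne 0 hy)
  have hopen : IsOpen {y : YY' | ∃ z : YY, y = Sum.inl z ∧ z.1.2 = cd u} := by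
    have h1 : IsOpen ({cd u} : Set KK) := by
      have : IsOpen (((↑) : DD → OnePoint DD) '' {(show DD from u)}) :=
        OnePoint.isOpenEmbedding_coe.isOpenMap _ (isOpen_discrete _)
      rw [Set.image_singleton] at this
      exact this
    have h2 : IsOpen {z : YY | z.1.2 = cd u} :=
      h1.preimage (continuous_snd.comp continuous_subtype_val)
    have h3 := isOpenMap_inl (X := YY) (Y := Unit) _ h2
    convert h3 using 1
    ext y
    constructor
    · rintro ⟨z, rfl, hz⟩
      exact ⟨z, hz, rfl⟩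
    · rintro ⟨z, hz, rfl⟩
      exact ⟨z, rfl, hz⟩
  obtain ⟨y, ⟨z, rfl, hz⟩, hyS⟩ := hS.inter_open_nonempty _ hopen ⟨Sum.inl (yiso u), yiso u, rfl, rfl⟩
  have hzu : z.1.1 = u := by
    rcases z.2 with h | h
    · rw [h] at hz
      exact absurd hz.symm (OnePoint.coe_ne_infty _)
    · rw [h] at hz
      exact OnePoint.coe_injective hz
  rw [← hKS] at hyS
  obtain ⟨n, hn⟩ := Set.mem_iUnion.mp hyS
  apply hu n
  refine ⟨Sum.inl z, hn, ?_⟩
  show z.1.1.1 = u.1
  rw [hzu]

/-- The negation of the preceding statement: For Tychonoff spaces X and Y, if X has a dense sigma-compact subset and C_p(X), C_p(Y) (pointwise topology) are linearly homeomorphic, then Y also has a dense sigma-compact subset. -/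
theorem result :
    ¬ (∀ (X Y : Type) [TopologicalSpace X] [T35Space X] [TopologicalSpace Y] [T35Space Y],
      (∃ S : Set X, Dense S ∧ IsSigmaCompact S) →
      (∃ T : C(X, ℝ) ≃ₗ[ℝ] C(Y, ℝ),
        @Continuous (C(X, ℝ)) (C(Y, ℝ))
          (TopologicalSpace.induced (fun f : C(X, ℝ) => (f : X → ℝ))
            (inferInstance : TopologicalSpace (X → ℝ)))
          (TopologicalSpace.induced (fun g : C(Y, ℝ) => (g : Y → ℝ))
            (inferInstance : TopologicalSpace (Y → ℝ)))
          (⇑T) ∧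
        @Continuous (C(Y, ℝ)) (C(X, ℝ))
          (TopologicalSpace.induced (fun g : C(Y, ℝ) => (g : Y → ℝ))
            (inferInstance : TopologicalSpace (Y → ℝ)))
          (TopologicalSpace.induced (fun f : C(X, ℝ) => (f : X → ℝ))
            (inferInstance : TopologicalSpace (X → ℝ)))
          (⇑T.symm)) →
      ∃ S : Set Y, Dense S ∧ IsSigmaCompact S) := by
  intro H
  exact not_ksep (H XX' YY' ksep ⟨TT, T_cont, S_cont⟩)

end Pool.Agent.S08934
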