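import Pool.Statements.S08936
import Pool.Agent.H20.SSep

set_option autoImplicit false
open TopologicalSpace
open Pool Pool.MP_41eeb1_gt

namespace Pool.Agent.S08936

/-- The negation of the preceding statement: For every separable locally compact Hausdorff group G and every Hausdorff topological group H whose closed subgroups are all separable, every closed subgroup of G × H is separable. -/
theorem result :
    ¬ (∀ (G : Type) [TopologicalSpace G] [Group G] [IsTopologicalGroup G] [T2Space G]
      [LocallyCompactSpace G] [SeparableSpace G],
      ∀ (H : Type) [TopologicalSpace H] [Group H] [IsTopologicalGroup H] [T2Space H],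
        (∀ K : Subgroup H, IsClosed (K : Set H) → SeparableSpace K) →
        ∀ L : Subgroup (G × H), IsClosed (L : Set (G × H)) → SeparableSpace L) := by
  intro h
  haveI : T2Space (Multiplicative ℝ) := inferInstanceAs (T2Space ℝ)
  haveI : SeparableSpace (Multiplicative ℝ) := inferInstanceAs (SeparableSpace ℝ)
  have h1 := h (Multiplicative ℝ) H20.SSep.HH (fun K _ => H20.SSep.sep K) H20.SSep.L
    H20.SSep.L_closed
  exact H20.SSep.L_nonsep h1

end Pool.Agent.S08936
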