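import Pool.Statements.S08944

set_option autoImplicit false
open Pool Pool.MP_440a64_gt

namespace Pool.Agent.S08944

open Set Filter Topology Cardinal

/-- discrete Cantor set -/
def PP : Type := ℕ → Bool
instance : TopologicalSpace PP := ⊥
instance : DiscreteTopology PP := ⟨rfl⟩

/-- a discrete set of size `2^𝔠` -/
def KD : Type := Set ℝ × ℝ
instance : TopologicalSpace KD := ⊥
instance : DiscreteTopology KD := ⟨rfl⟩

abbrev XX : Type := PP ⊕ OnePoint KD

instance sumCR {X Y : Type} [TopologicalSpace X] [TopologicalSpace Y] [CompletelyRegularSpace X]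
    [CompletelyRegularSpace Y] : CompletelyRegularSpace (X ⊕ Y) := by
  constructor
  intro x K hK hx
  rcases x with x | x
  · obtain ⟨f, hf, hfx, hfK⟩ := CompletelyRegularSpace.completely_regular x (Sum.inl ⁻¹' K)
      (hK.preimage continuous_inl) hx
    refine ⟨Sum.elim f (fun _ => 1), hf.sumElim continuous_const, hfx, ?_⟩
    intro y hy
    rcases y with y | y
    · exact hfK hy
    · rfl
  · obtain ⟨f, hf, hfx, hfK⟩ := CompletelyRegularSpace.completely_regular x (Sum.inr ⁻¹' K)
      (hK.preimage continuous_inr) hx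
    refine ⟨Sum.elim (fun _ => 1) f, continuous_const.sumElim hf, hfx, ?_⟩
    intro y hy
    rcases y with y | y
    · rfl
    · exact hfK hy

instance sumT35 {X Y : Type} [TopologicalSpace X] [TopologicalSpace Y] [T35Space X]
    [T35Space Y] : T35Space (X ⊕ Y) where

theorem cont_OP (u : OnePoint KD → ℝ) (hu : ∀ ε > 0, {k : KD | ε ≤ |u k - u OnePoint.infty|}.Finite) :
    Continuous u := by
  rw [OnePoint.continuous_iff_from_discrete, Metric.tendsto_nhds]
  intro ε hε
  rw [Filter.eventually_cofinite]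
  apply (hu ε hε).subset
  intro k hk
  have hk' : ¬ dist (u k) (u OnePoint.infty) < ε := hk
  rw [Real.dist_eq, not_lt] at hk'
  exact hk'

open Classical in
/-- the indicator function of the point `k` -/
noncomputable def chi (k : KD) : C(XX, ℝ) :=
  ⟨Sum.elim (fun _ => 0) (fun t => if t = (k : OnePoint KD) then 1 else 0), by
    apply Continuous.sumElim
    · exact continuous_const
    · apply cont_OP
      intro ε hε
      apply (Set.finite_singleton k).subset
      intro k' hk'
      by_contra hne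
      have h1 : (k' : OnePoint KD) ≠ (k : OnePoint KD) := fun h => hne (OnePoint.coe_injective h)
      have h2 : (OnePoint.infty : OnePoint KD) ≠ (k : OnePoint KD) := OnePoint.infty_ne_coe k
      have h3 : ε ≤ |(if (k' : OnePoint KD) = (k : OnePoint KD) then (1:ℝ) else 0) -
        (if (OnePoint.infty : OnePoint KD) = (k : OnePoint KD) then (1:ℝ) else 0)| := hk'
      rw [if_neg h1, if_neg h2, sub_self, abs_zero] at h3
      exact absurd h3 (not_le.mpr hε)⟩

theorem chi_self (k : KD) : chi k (Sum.inr (k : OnePoint KD)) = 1 := if_pos rfl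

theorem chi_infty (k : KD) : chi k (Sum.inr OnePoint.infty) = 0 := if_neg (OnePoint.infty_ne_coe k)

theorem chi_bound (k : KD) (x : XX) : |chi k x| ≤ 1 := by
  classical
  rcases x with x | x
  · show |(0:ℝ)| ≤ 1
    simp
  · show |(if x = (k : OnePoint KD) then (1:ℝ) else 0)| ≤ 1
    split_ifs <;> simp

/-- support -/
def supp (f : C(XX, ℝ)) : Set KD := {k | f (Sum.inr (k : OnePoint KD)) ≠ f (Sum.inr OnePoint.infty)}

theorem supp_countable (f : C(XX, ℝ)) : (supp f).Countable := by
  have hc : Continuous (fun t : OnePoint KD => f (Sum.inr t)) := by fun_prop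
  rw [OnePoint.continuous_iff_from_discrete, Metric.tendsto_nhds] at hc
  have hsub : supp f ⊆ ⋃ n : ℕ, {k : KD | ¬ dist (f (Sum.inr (k : OnePoint KD))) (f (Sum.inr OnePoint.infty)) < 1 / ((n:ℝ)+1)} := by
    intro k hk
    have hpos : 0 < dist (f (Sum.inr (k : OnePoint KD))) (f (Sum.inr OnePoint.infty)) := dist_pos.mpr hk
    obtain ⟨n, hn⟩ := exists_nat_one_div_lt hpos
    exact Set.mem_iUnion.mpr ⟨n, not_lt.mpr hn.le⟩
  apply Set.Countable.mono hsub
  apply Set.countable_iUnion
  intro n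
  have := hc (1 / ((n:ℝ)+1)) (by positivity)
  rw [Filter.eventually_cofinite] at this
  exact this.countable

theorem card_main : #((PP → ℝ) × ℝ × (ℕ → KD) × (ℕ → ℝ) × ℕ) ≤ #(Set ℝ) := by
  have hset : #(Set ℝ) = 2 ^ 𝔠 := by rw [Cardinal.mk_set, Cardinal.mk_real]
  have hc : ℵ₀ ≤ 𝔠 := Cardinal.aleph0_le_continuum
  have hc2 : 𝔠 ≤ 2 ^ 𝔠 := (Cardinal.cantor 𝔠).le
  have hinf : ℵ₀ ≤ (2 : Cardinal.{0}) ^ 𝔠 := hc.trans hc2
  have h1 : #(PP → ℝ) ≤ 2 ^ 𝔠 := by
    have hPP : #PP = 𝔠 := by
      show #(ℕ → Bool) = 𝔠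
      simp
    rw [← Cardinal.power_def, hPP, Cardinal.mk_real]
    exact (Cardinal.power_self_eq hc).le
  have h2 : #ℝ ≤ 2 ^ 𝔠 := by rw [Cardinal.mk_real]; exact hc2
  have hKD : #KD ≤ 2 ^ 𝔠 := by
    show #(Set ℝ × ℝ) ≤ 2 ^ 𝔠
    rw [Cardinal.mk_prod, Cardinal.lift_id, Cardinal.lift_id, hset]
    calc (2:Cardinal) ^ 𝔠 * #ℝ ≤ 2 ^ 𝔠 * 2 ^ 𝔠 := mul_le_mul' le_rfl h2
      _ = 2 ^ 𝔠 := Cardinal.mul_eq_self hinf
  have h3 : #(ℕ → KD) ≤ 2 ^ 𝔠 := by
    calc #(ℕ → KD) = #KD ^ ℵ₀ := by simp
      _ ≤ (2 ^ 𝔠) ^ ℵ₀ := Cardinal.power_le_power_right hKD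
      _ = 2 ^ (𝔠 * ℵ₀) := by rw [← Cardinal.power_mul]
      _ = 2 ^ 𝔠 := by rw [Cardinal.mul_aleph0_eq hc]
  have h4 : #(ℕ → ℝ) ≤ 2 ^ 𝔠 := by
    calc #(ℕ → ℝ) = #ℝ ^ ℵ₀ := by simp
      _ ≤ (2 ^ 𝔠) ^ ℵ₀ := Cardinal.power_le_power_right h2
      _ = 2 ^ (𝔠 * ℵ₀) := by rw [← Cardinal.power_mul]
      _ = 2 ^ 𝔠 := by rw [Cardinal.mul_aleph0_eq hc]
  have h5 : #ℕ ≤ 2 ^ 𝔠 := by rw [Cardinal.mk_nat]; exact hinf
  have hp : ∀ (A B : Type), #A ≤ 2 ^ 𝔠 → #B ≤ 2 ^ 𝔠 → #(A × B) ≤ 2 ^ 𝔠 := by
    intro A B hA hB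
    rw [Cardinal.mk_prod, Cardinal.lift_id, Cardinal.lift_id]
    exact (mul_le_mul' hA hB).trans (Cardinal.mul_eq_self hinf).le
  rw [hset]
  exact hp _ _ h1 (hp _ _ h2 (hp _ _ h3 (hp _ _ h4 h5)))

theorem exists_j : ∃ j : C(XX, ℝ) × ℕ → Set ℝ, Function.Injective j := by
  classical
  -- enumeration of the support
  have he : ∀ f : C(XX, ℝ), ∃ e : ℕ → KD, supp f ⊆ Set.range e := by
    intro f
    rcases (supp f).eq_empty_or_nonempty with h | h
    · exact ⟨fun _ => (∅, 0), by rw [h]; exact Set.empty_subset _⟩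
    · obtain ⟨e, he⟩ := (supp_countable f).exists_eq_range h
      exact ⟨e, he.le⟩
  choose e he using he
  let Φ : C(XX, ℝ) × ℕ → (PP → ℝ) × ℝ × (ℕ → KD) × (ℕ → ℝ) × ℕ := fun q =>
    (fun x => q.1 (Sum.inl x), q.1 (Sum.inr OnePoint.infty), e q.1,
      fun i => q.1 (Sum.inr ((e q.1 i : KD) : OnePoint KD)), q.2)
  have hΦ : Function.Injective Φ := by
    rintro ⟨f, n⟩ ⟨f', n'⟩ h
    have h1 : (fun x => f (Sum.inl x)) = fun x => f' (Sum.inl x) := congrArg (fun z => z.1) h
    have h2 : f (Sum.inr OnePoint.infty) = f' (Sum.inr OnePoint.infty) := congrArg (fun z => z.2.1) h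
    have h3 : e f = e f' := congrArg (fun z => z.2.2.1) h
    have h4 : (fun i => f (Sum.inr ((e f i : KD) : OnePoint KD))) = fun i => f' (Sum.inr ((e f' i : KD) : OnePoint KD)) :=
      congrArg (fun z => z.2.2.2.1) h
    have h5 : n = n' := congrArg (fun z => z.2.2.2.2) h
    have hff : f = f' := by
      ext x
      rcases x with x | t
      · exact congrFun h1 x
      · induction t using OnePoint.rec with
        | infty => exact h2
        | coe k =>
          by_cases hk : k ∈ Set.range (e f)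
          · obtain ⟨i, rfl⟩ := hk
            have := congrFun h4 i
            rw [← h3] at this
            exact this
          · have hk1 : k ∉ supp f := fun h => hk (he f h)
            have hk2 : k ∉ supp f' := fun h => hk (by rw [h3]; exact he f' h)
            have e1 : f (Sum.inr (k : OnePoint KD)) = f (Sum.inr OnePoint.infty) := not_not.mp hk1
            have e2 : f' (Sum.inr (k : OnePoint KD)) = f' (Sum.inr OnePoint.infty) := not_not.mp hk2
            rw [e1, e2, h2]
    rw [hff, h5]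
  obtain ⟨ι⟩ := card_main
  exact ⟨fun q => ι (Φ q), ι.injective.comp hΦ⟩

theorem exists_h : ∃ h : C(XX, ℝ) × ℕ → KD, Function.Injective h ∧ ∀ g n, h (g, n) ∉ supp g := by
  obtain ⟨j, hj⟩ := exists_j
  have hr : ∀ q : C(XX, ℝ) × ℕ, ∃ r : ℝ, ((j q, r) : KD) ∉ supp q.1 := by
    intro q
    by_contra hcon
    push Not at hcon
    have : (Set.univ : Set ℝ).Countable := by
      have h1 : Set.univ = (fun r : ℝ => ((j q, r) : KD)) ⁻¹' supp q.1 := by
        ext r
        simp only [Set.mem_univ, true_iff]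
        exact hcon r
      rw [h1]
      exact (supp_countable q.1).preimage (fun a b hab => congrArg Prod.snd hab)
    exact Cardinal.not_countable_real this
  choose r hr using hr
  refine ⟨fun q => (j q, r q), fun q q' h => hj (congrArg Prod.fst h), fun g n => hr (g, n)⟩

noncomputable def hh : C(XX, ℝ) × ℕ → KD := Classical.choose exists_h
theorem hh_inj : Function.Injective hh := (Classical.choose_spec exists_h).1
theorem hh_not (g : C(XX, ℝ)) (n : ℕ) : hh (g, n) ∉ supp g := (Classical.choose_spec exists_h).2 g n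

/-- the perturbed function -/
noncomputable def dd (q : C(XX, ℝ) × ℕ) : C(XX, ℝ) := q.1 + (1 / ((q.2 : ℝ) + 1)) • chi (hh q)

theorem dd_supp (q : C(XX, ℝ) × ℕ) : hh q ∈ supp (dd q) := by
  have h1 : hh q ∉ supp q.1 := hh_not q.1 q.2
  have h2 : q.1 (Sum.inr ((hh q : KD) : OnePoint KD)) = q.1 (Sum.inr OnePoint.infty) := not_not.mp h1
  show q.1 (Sum.inr ((hh q : KD) : OnePoint KD)) + (1 / ((q.2 : ℝ) + 1)) * chi (hh q) (Sum.inr ((hh q : KD) : OnePoint KD)) ≠
    q.1 (Sum.inr OnePoint.infty) + (1 / ((q.2 : ℝ) + 1)) * chi (hh q) (Sum.inr OnePoint.infty)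
  rw [chi_self, chi_infty, h2, mul_one, mul_zero, add_zero]
  have : (0:ℝ) < 1 / ((q.2 : ℝ) + 1) := by positivity
  intro h
  linarith

abbrev tp : TopologicalSpace C(XX, ℝ) :=
  TopologicalSpace.induced (fun f : C(XX, ℝ) => (⇑f : XX → ℝ)) inferInstance

theorem ev_cont (x : XX) : @Continuous _ _ tp _ (fun f : C(XX, ℝ) => f x) := by
  let _ : TopologicalSpace C(XX, ℝ) := tp
  exact (continuous_apply x).comp continuous_induced_dom

theorem supp_closure (A : Set C(XX, ℝ)) (y : C(XX, ℝ)) (hy : y ∈ @closure _ tp A) (k : KD)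
    (hk : k ∈ supp y) : ∃ a ∈ A, k ∈ supp a := by
  let _ : TopologicalSpace C(XX, ℝ) := tp
  by_contra hcon
  push Not at hcon
  apply hk
  have hcl : IsClosed {f : C(XX, ℝ) | f (Sum.inr (k : OnePoint KD)) = f (Sum.inr OnePoint.infty)} :=
    isClosed_eq (ev_cont _) (ev_cont _)
  have hsub : A ⊆ {f : C(XX, ℝ) | f (Sum.inr (k : OnePoint KD)) = f (Sum.inr OnePoint.infty)} := by
    intro a ha
    exact not_not.mp (hcon a ha)
  exact closure_minimal hsub hcl hy

/-- the network of the dense subspace -/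
noncomputable def NN (A : Set C(XX, ℝ)) : Set (Set C(XX, ℝ)) :=
  (fun q => {dd q}) '' {q | ∃ a ∈ A, hh q ∈ supp a}

open Classical in
/-- cylinder functions -/
noncomputable def uu (l : List Bool) : C(XX, ℝ) :=
  ⟨Sum.elim (fun z : PP => if ∀ j < l.length, z j = l.getD j false then (1:ℝ) else 0) (fun _ => 0), by
    apply Continuous.sumElim
    · exact continuous_of_discreteTopology
    · exact continuous_const⟩

open Classical in
/-- indicator of a point -/
noncomputable def vv (t : PP) : C(XX, ℝ) :=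
  ⟨Sum.elim (fun z : PP => if z = t then (1:ℝ) else 0) (fun _ => 0), by
    apply Continuous.sumElim
    · exact continuous_of_discreteTopology
    · exact continuous_const⟩

theorem vv_self (t : PP) : vv t (Sum.inl t) = 1 := if_pos rfl

theorem vv_ne (s t : PP) (h : t ≠ s) : vv s (Sum.inl t) = 0 := if_neg h

theorem vv_closure (t : PP) : vv t ∈ @closure _ tp (Set.range uu) := by
  classical
  let _ : TopologicalSpace C(XX, ℝ) := tp
  let tb : ℕ → Bool := t
  let l : ℕ → List Bool := fun m => (List.range m).map tb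
  have hlen : ∀ m, (l m).length = m := fun m => by simp [l]
  have hget : ∀ m j, j < m → (l m).getD j false = t j := by
    intro m j hj
    rw [List.getD_eq_getElem _ _ (by rw [hlen]; exact hj)]
    have : (l m)[j]'(by rw [hlen]; exact hj) = tb j := by simp [l]
    exact this
  have htend : Tendsto (fun m => uu (l m)) atTop (𝓝 (vv t)) := by
    rw [nhds_induced, tendsto_comap_iff, tendsto_pi_nhds]
    intro x
    apply tendsto_const_nhds.congr'
    rcases x with z | z
    · by_cases hz : z = t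
      · subst hz
        filter_upwards with m
        show (if z = z then (1:ℝ) else 0) = if ∀ j < (l m).length, z j = (l m).getD j false then (1:ℝ) else 0
        rw [if_pos rfl, if_pos]
        intro j hj
        rw [hlen] at hj
        exact (hget m j hj).symm
      · have hne : ∃ i, z i ≠ t i := by
          by_contra h
          push Not at h
          exact hz (funext h)
        obtain ⟨i, hi⟩ := hne
        filter_upwards [eventually_gt_atTop i] with m hm
        show (if z = t then (1:ℝ) else 0) = if ∀ j < (l m).length, z j = (l m).getD j false then (1:ℝ) else 0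
        rw [if_neg hz, if_neg]
        intro h
        apply hi
        rw [h i (by rw [hlen]; exact hm), hget m i hm]
    · filter_upwards with m
      rfl
  exact mem_closure_of_tendsto htend (Filter.Eventually.of_forall fun m => ⟨l m, rfl⟩)

/-- The negation of the preceding statement: For every Tychonoff X: if C_p(X) has a uniformly dense subspace that is monotonically ω-monolithic (countable monotone σ-continuous external networks on closures of countable sets), then C_p(X) itself is monotonically ω-monolithic. -/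
theorem result :
    ¬ (∀ (X : Type) [TopologicalSpace X] [T35Space X] (D : Set C(X, ℝ)),
      (∀ f : C(X, ℝ), ∀ ε : ℝ, 0 < ε → ∃ g ∈ D, ∀ x : X, |f x - g x| < ε) →
      (∃ N : Set C(X, ℝ) → Set (Set C(X, ℝ)),
        (∀ A : Set C(X, ℝ), A ⊆ D → A.Countable →
          (N A).Countable ∧ (∀ n ∈ N A, n ⊆ D) ∧
          ∀ y ∈ D,
            y ∈ @closure _ (TopologicalSpace.induced (fun f : C(X, ℝ) => (⇑f : X → ℝ)) inferInstance) A →
            ∀ U : Set C(X, ℝ),
              @IsOpen _ (TopologicalSpace.induced (fun f : C(X, ℝ) => (⇑f : X → ℝ)) inferInstance) U →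
              y ∈ U → ∃ n ∈ N A, y ∈ n ∧ n ⊆ U) ∧
        (∀ A B : Set C(X, ℝ), A ⊆ B → B ⊆ D → B.Countable → N A ⊆ N B) ∧
        (∀ A : ℕ → Set C(X, ℝ), Monotone A → (∀ k, A k ⊆ D ∧ (A k).Countable) →
          N (⋃ k, A k) = ⋃ k, N (A k))) →
      (∃ N : Set C(X, ℝ) → Set (Set C(X, ℝ)),
        (∀ A : Set C(X, ℝ), A.Countable →
          (N A).Countable ∧
          ∀ y : C(X, ℝ),
            y ∈ @closure _ (TopologicalSpace.induced (fun f : C(X, ℝ) => (⇑f : X → ℝ)) inferInstance) A →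
            ∀ U : Set C(X, ℝ),
              @IsOpen _ (TopologicalSpace.induced (fun f : C(X, ℝ) => (⇑f : X → ℝ)) inferInstance) U →
              y ∈ U → ∃ n ∈ N A, y ∈ n ∧ n ⊆ U) ∧
        (∀ A B : Set C(X, ℝ), A ⊆ B → B.Countable → N A ⊆ N B) ∧
        (∀ A : ℕ → Set C(X, ℝ), Monotone A → (∀ k, (A k).Countable) →
          N (⋃ k, A k) = ⋃ k, N (A k)))) := by
  intro H
  have hD := H XX (Set.range dd) (by
    intro f ε hε
    obtain ⟨n, hn⟩ := exists_nat_one_div_lt hε
    refine ⟨dd (f, n), ⟨(f, n), rfl⟩, fun x => ?_⟩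
    show |f x - (f x + (1 / ((n : ℝ) + 1)) * chi (hh (f, n)) x)| < ε
    have h1 : f x - (f x + (1 / ((n : ℝ) + 1)) * chi (hh (f, n)) x) = -((1 / ((n : ℝ) + 1)) * chi (hh (f, n)) x) := by ring
    rw [h1, abs_neg, abs_mul]
    have h2 : (0:ℝ) < 1 / ((n : ℝ) + 1) := by positivity
    rw [abs_of_pos h2]
    calc 1 / ((n : ℝ) + 1) * |chi (hh (f, n)) x| ≤ 1 / ((n : ℝ) + 1) * 1 :=
          mul_le_mul_of_nonneg_left (chi_bound _ _) h2.le
      _ < ε := by rw [mul_one]; exact hn) ⟨NN, ?_, ?_, ?_⟩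
  · obtain ⟨N, hN1, _, _⟩ := hD
    obtain ⟨hcount, hnet⟩ := hN1 (Set.range uu) (Set.countable_range uu)
    have hU : ∀ t : PP, ∃ n ∈ N (Set.range uu), vv t ∈ n ∧ n ⊆ {f : C(XX, ℝ) | (1/2 : ℝ) < f (Sum.inl t)} := by
      intro t
      apply hnet (vv t) (vv_closure t)
      · let _ : TopologicalSpace C(XX, ℝ) := tp
        exact isOpen_lt continuous_const (ev_cont _)
      · show (1/2 : ℝ) < vv t (Sum.inl t)
        rw [vv_self]
        norm_num
    choose n hnN hvn hnU using hU
    have hinj : Function.Injective n := by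
      intro s t hst
      have h1 : vv s ∈ n t := by rw [← hst]; exact hvn s
      have h2 : (1/2 : ℝ) < vv s (Sum.inl t) := hnU t h1
      by_contra hne
      have h3 : vv s (Sum.inl t) = 0 := vv_ne s t (fun h => hne h.symm)
      rw [h3] at h2
      norm_num at h2
    have hcPP : Countable PP := by
      have : Countable (N (Set.range uu)) := hcount.to_subtype
      exact Function.Injective.countable (f := fun t : PP => (⟨n t, hnN t⟩ : N (Set.range uu)))
        (fun s t h => hinj (congrArg Subtype.val h))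
    have h1 : #PP ≤ ℵ₀ := Cardinal.mk_le_aleph0_iff.mpr hcPP
    have h2 : #PP = 𝔠 := by
      show #(ℕ → Bool) = 𝔠
      simp
    rw [h2] at h1
    exact absurd h1 (not_le.mpr Cardinal.aleph0_lt_continuum)
  · intro A hAD hA
    refine ⟨?_, ?_, ?_⟩
    · apply Set.Countable.image
      have hs : (⋃ a ∈ A, supp a).Countable := hA.biUnion fun a _ => supp_countable a
      apply (hs.preimage hh_inj).mono
      rintro q ⟨a, ha, hq⟩
      exact Set.mem_iUnion₂.mpr ⟨a, ha, hq⟩
    · rintro _ ⟨q, _, rfl⟩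
      intro y hy
      rw [Set.mem_singleton_iff] at hy
      exact ⟨q, hy.symm⟩
    · rintro y ⟨q, rfl⟩ hy U _ hyU
      obtain ⟨a, ha, hka⟩ := supp_closure A (dd q) hy (hh q) (dd_supp q)
      refine ⟨{dd q}, ⟨q, ⟨a, ha, hka⟩, rfl⟩, rfl, ?_⟩
      rw [Set.singleton_subset_iff]
      exact hyU
  · intro A B hAB _ _
    apply Set.image_mono
    rintro q ⟨a, ha, hq⟩
    exact ⟨a, hAB ha, hq⟩
  · intro A _ _
    ext n
    constructor
    · rintro ⟨q, ⟨a, ha, hq⟩, rfl⟩
      obtain ⟨k, hk⟩ := Set.mem_iUnion.mp ha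
      exact Set.mem_iUnion.mpr ⟨k, q, ⟨a, hk, hq⟩, rfl⟩
    · intro hn
      obtain ⟨k, q, ⟨a, ha, hq⟩, rfl⟩ := Set.mem_iUnion.mp hn
      exact ⟨q, ⟨a, Set.mem_iUnion.mpr ⟨k, ha⟩, hq⟩, rfl⟩

end Pool.Agent.S08944
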