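import Pool.Statements.S08988
import Pool.Agent.H19.GulkoCore
import Pool.Agent.H19.GulkoLS
import Pool.Agent.H19.GulkoSub

set_option autoImplicit false
open Pool Pool.MP_4f6a4e_gt

namespace Pool.Agent.S08988

open Set Filter Topology Pool.Agent.H19.Gulko

theorem sub_ls (A : Set XX) (hA : Cardinal.mk A ≤ Cardinal.continuum) :
        ∃ (𝒞 𝒩 : Set (Set C(↥(closure A), ℝ))), 𝒩.Countable ∧ ⋃₀ 𝒞 = Set.univ ∧
          ∀ C ∈ 𝒞,
            @IsCompact _ (TopologicalSpace.induced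
              (fun f : C(↥(closure A), ℝ) => (⇑f : ↥(closure A) → ℝ)) inferInstance) C ∧
            ∀ U : Set C(↥(closure A), ℝ),
              @IsOpen _ (TopologicalSpace.induced
                (fun f : C(↥(closure A), ℝ) => (⇑f : ↥(closure A) → ℝ)) inferInstance) U →
              C ⊆ U → ∃ N ∈ 𝒩, C ⊆ N ∧ N ⊆ U := by
  have hcs : CompactSpace (closure A) := isCompact_iff_compactSpace.mp isClosed_closure.isCompact
  choose Mx hMx using fun x : XX => x.2
  let I0 : Set (Set B) := Set.range (fun x : A => Mx x.1)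
  have hI0 : Cardinal.mk I0 ≤ Cardinal.continuum := Cardinal.mk_range_le.trans hA
  obtain ⟨j, hj⟩ := exists_inj I0 hI0
  have hAI : ∀ x ∈ A, ∀ γ, x.1 γ = true → γ.M ∈ I0 := by
    intro x hx γ hγ
    obtain ⟨p, h1, _⟩ := hMx x
    exact ⟨⟨x, hx⟩, (h1 γ hγ).1.symm⟩
  apply ls1 (G := G0 I0) (ι := WI) (fun (x : closure A) (γ : G0 I0) => x.1.1 γ.1)
  · intro γ
    exact (continuous_apply γ.1).comp (continuous_subtype_val.comp continuous_subtype_val)
  · intro x γ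
    exact WW_adm I0 j hj {γ | x.1.1 γ = true} x.1.2 γ
  · intro x x' h
    apply Subtype.ext
    apply Subtype.ext
    funext γ
    by_cases hγ : γ.M ∈ I0
    · exact h ⟨γ, hγ⟩
    · rw [supp_closure I0 A hAI x.1 x.2 γ hγ, supp_closure I0 A hAI x'.1 x'.2 γ hγ]

theorem QQ_of_ls (H : ∃ (𝒞 𝒩 : Set (Set C(XX, ℝ))), 𝒩.Countable ∧ ⋃₀ 𝒞 = Set.univ ∧
        ∀ C ∈ 𝒞,
          @IsCompact _ (TopologicalSpace.induced
            (fun f : C(XX, ℝ) => (⇑f : XX → ℝ)) inferInstance) C ∧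
          ∀ U : Set C(XX, ℝ),
            @IsOpen _ (TopologicalSpace.induced
              (fun f : C(XX, ℝ) => (⇑f : XX → ℝ)) inferInstance) U →
            C ⊆ U → ∃ N ∈ 𝒩, C ⊆ N ∧ N ⊆ U) : QQ := by
  classical
  obtain ⟨𝒞, 𝒩, hN, hC, hCN⟩ := H
  let _ : TopologicalSpace C(XX, ℝ) := TopologicalSpace.induced
            (fun f : C(XX, ℝ) => (⇑f : XX → ℝ)) inferInstance
  have hev : ∀ x : XX, Continuous (fun f : C(XX, ℝ) => f x) := fun x =>
    (continuous_apply x).comp continuous_induced_dom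
  have hex : ∀ γ : Gam, ∃ C ∈ 𝒞, ev γ ∈ C := by
    intro γ
    have : ev γ ∈ ⋃₀ 𝒞 := by rw [hC]; trivial
    exact this
  choose Cγ hCγ hevC using hex
  have hne : 𝒩.Nonempty := by
    obtain ⟨γ⟩ := (inferInstance : Nonempty Gam)
    obtain ⟨N, hN', _⟩ := (hCN (Cγ γ) (hCγ γ)).2 Set.univ isOpen_univ (Set.subset_univ _)
    exact ⟨N, hN'⟩
  obtain ⟨N, hNr⟩ := hN.exists_eq_range hne
  refine ⟨fun n => {γ | ev γ ∈ N n}, fun γ => {n | Cγ γ ⊆ N n}, fun γ n hn => hn (hevC γ), ?_⟩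
  intro γ0 A hA _
  have hU : ∃ U : Set C(XX, ℝ), IsOpen U ∧ Cγ γ0 ⊆ U ∧ {γ | γ ∈ A ∧ ev γ ∈ U}.Finite := by
    refine IsCompact.induction_on (p := fun s => ∃ U : Set C(XX, ℝ), IsOpen U ∧ s ⊆ U ∧ {γ | γ ∈ A ∧ ev γ ∈ U}.Finite)
      (hCN (Cγ γ0) (hCγ γ0)).1 ?_ ?_ ?_ ?_
    · exact ⟨∅, isOpen_empty, le_rfl, by simp⟩
    · rintro s t hst ⟨U, h1, h2, h3⟩
      exact ⟨U, h1, hst.trans h2, h3⟩
    · rintro s t ⟨U, h1, h2, h3⟩ ⟨V, h4, h5, h6⟩
      refine ⟨U ∪ V, h1.union h4, Set.union_subset_union h2 h5, ?_⟩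
      apply (h3.union h6).subset
      rintro γ ⟨hγ, hUV⟩
      rcases hUV with h | h
      · exact Or.inl ⟨hγ, h⟩
      · exact Or.inr ⟨hγ, h⟩
    · intro f _
      by_cases hf : f (pt A hA) = 1
      · obtain ⟨F, hF⟩ := key_open f f.continuous A hA hf
        have hO : IsOpen {g : C(XX, ℝ) | 1/2 < g (pt (A ∩ F) (hA.mono Set.inter_subset_left))} :=
          isOpen_lt continuous_const (hev _)
        refine ⟨_, mem_nhdsWithin_of_mem_nhds (hO.mem_nhds hF), _, hO, le_rfl, ?_⟩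
        apply F.finite_toSet.subset
        rintro γ ⟨hγ, hγF⟩
        by_contra hno
        have h2 : ev γ (pt (A ∩ F) (hA.mono Set.inter_subset_left)) = 0 := by
          apply ev_neg
          rw [pt_apply]
          exact fun h => hno h.2
        have h3 : 1/2 < ev γ (pt (A ∩ F) (hA.mono Set.inter_subset_left)) := hγF
        rw [h2] at h3
        norm_num at h3
      · have hO : IsOpen {g : C(XX, ℝ) | g (pt A hA) ≠ 1} := isOpen_ne_fun (hev _) continuous_const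
        refine ⟨_, mem_nhdsWithin_of_mem_nhds (hO.mem_nhds hf), _, hO, le_rfl, ?_⟩
        have : {γ | γ ∈ A ∧ ev γ ∈ {g : C(XX, ℝ) | g (pt A hA) ≠ 1}} = ∅ := by
          rw [Set.eq_empty_iff_forall_notMem]
          rintro γ ⟨hγ, hne⟩
          apply hne
          apply ev_pos
          rw [pt_apply]
          exact hγ
        rw [this]
        exact Set.finite_empty
  obtain ⟨U, hU1, hU2, hU3⟩ := hU
  obtain ⟨N', hN', hCN', hN'U⟩ := (hCN (Cγ γ0) (hCγ γ0)).2 U hU1 hU2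
  rw [hNr] at hN'
  obtain ⟨n, rfl⟩ := hN'
  refine ⟨n, hCN', ?_⟩
  apply hU3.subset
  rintro γ ⟨hγ, hγA⟩
  exact ⟨hγA, hN'U hγ⟩

/-- The negation of the preceding statement: For every compact Hausdorff X: if the closure of each subset of size at most continuum has C_p Lindelöf Σ (a compact cover with a countable network modulo it), then C_p(X) is Lindelöf Σ, i.e. X is Gul'ko compact. -/
theorem result :
    ¬ (∀ (X : Type) [TopologicalSpace X] [CompactSpace X] [T2Space X],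
      (∀ A : Set X, Cardinal.mk ↥A ≤ Cardinal.continuum →
        ∃ (𝒞 𝒩 : Set (Set C(↥(closure A), ℝ))), 𝒩.Countable ∧ ⋃₀ 𝒞 = Set.univ ∧
          ∀ C ∈ 𝒞,
            @IsCompact _ (TopologicalSpace.induced
              (fun f : C(↥(closure A), ℝ) => (⇑f : ↥(closure A) → ℝ)) inferInstance) C ∧
            ∀ U : Set C(↥(closure A), ℝ),
              @IsOpen _ (TopologicalSpace.induced
                (fun f : C(↥(closure A), ℝ) => (⇑f : ↥(closure A) → ℝ)) inferInstance) U →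
              C ⊆ U → ∃ N ∈ 𝒩, C ⊆ N ∧ N ⊆ U) →
      ∃ (𝒞 𝒩 : Set (Set C(X, ℝ))), 𝒩.Countable ∧ ⋃₀ 𝒞 = Set.univ ∧
        ∀ C ∈ 𝒞,
          @IsCompact _ (TopologicalSpace.induced
            (fun f : C(X, ℝ) => (⇑f : X → ℝ)) inferInstance) C ∧
          ∀ U : Set C(X, ℝ),
            @IsOpen _ (TopologicalSpace.induced
              (fun f : C(X, ℝ) => (⇑f : X → ℝ)) inferInstance) U →
            C ⊆ U → ∃ N ∈ 𝒩, C ⊆ N ∧ N ⊆ U) := by
  intro H
  exact not_QQ (QQ_of_ls (H XX sub_ls))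

end Pool.Agent.S08988
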