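import Pool.Statements.S09012
import Mathlib

set_option autoImplicit false
open Pool Pool.MP_55e428_gt

namespace Pool.Agent.S09012

open Set Topology Filter

/-- the one point compactification of a discrete set of size continuum, inside ℝ^ℝ -/
def KK : Set (ℝ → ℝ) :=
  {x | (∀ γ, x γ = 0 ∨ x γ = 1) ∧ ∀ γ δ, γ ≠ δ → x γ * x δ = 0}

theorem KK_compact : IsCompact KK := by
  have h1 : IsCompact (Set.univ.pi (fun _ : ℝ => ({0, 1} : Set ℝ))) :=
    isCompact_univ_pi (fun _ => (Set.toFinite _).isCompact)
  refine h1.of_isClosed_subset ?_ ?_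
  · have e : KK = (⋂ γ : ℝ, {x : ℝ → ℝ | x γ = 0 ∨ x γ = 1}) ∩
        (⋂ γ : ℝ, ⋂ δ : ℝ, ⋂ _ : γ ≠ δ, {x : ℝ → ℝ | x γ * x δ = 0}) := by
      ext x
      simp [KK]
    rw [e]
    refine IsClosed.inter ?_ ?_
    · refine isClosed_iInter fun γ => ?_
      have : {x : ℝ → ℝ | x γ = 0 ∨ x γ = 1} = (fun x : ℝ → ℝ => x γ) ⁻¹' ({0, 1} : Set ℝ) := by
        ext x; simp
      rw [this]
      exact (Set.toFinite _).isClosed.preimage (continuous_apply γ)
    · refine isClosed_iInter fun γ => isClosed_iInter fun δ => isClosed_iInter fun _ => ?_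
      exact isClosed_eq ((continuous_apply γ).mul (continuous_apply δ)) continuous_const
  · intro x hx
    rw [Set.mem_univ_pi]
    intro γ
    simpa using hx.1 γ

theorem KK_zero : (0 : ℝ → ℝ) ∈ KK := ⟨fun _ => Or.inl rfl, fun _ _ _ => by simp⟩

theorem KK_single (γ : ℝ) : (Pi.single γ (1:ℝ) : ℝ → ℝ) ∈ KK := by
  classical
  refine ⟨fun δ => ?_, fun α β h => ?_⟩
  · by_cases h : δ = γ
    · right; rw [h]; simp
    · left; simp [Pi.single_apply, h]
  · by_cases h1 : α = γ
    · have h2 : β ≠ γ := by rintro rfl; exact h h1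
      simp [Pi.single_apply, h2]
    · simp [Pi.single_apply, h1]

theorem KK_c0 : ∀ x ∈ KK, ∀ ε : ℝ, 0 < ε → {γ : ℝ | ε < |x γ|}.Finite := by
  intro x hx ε hε
  refine Set.Subsingleton.finite ?_
  intro α hα β hβ
  by_contra hne
  have h := hx.2 α β hne
  simp only [Set.mem_setOf_eq] at hα hβ
  rcases mul_eq_zero.1 h with h | h
  · rw [h] at hα; simp at hα; linarith
  · rw [h] at hβ; simp at hβ; linarith

def ze : KK := ⟨0, KK_zero⟩
noncomputable def ee (γ : ℝ) : KK := ⟨Pi.single γ (1:ℝ), KK_single γ⟩

noncomputable def T (t : ℝ) : ℝ := max (t - 1) 0 + min (t + 1) 0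

theorem T_cont : Continuous T := by
  unfold T
  fun_prop

theorem T_small {t : ℝ} (h : |t| < 1) : T t = 0 := by
  unfold T
  have h' := abs_lt.1 h
  rw [max_eq_right (by linarith), min_eq_right (by linarith)]
  simp

noncomputable def g (y : ℝ) : ℝ := if 0 < y then y + 1 else if y < 0 then y - 1 else 0

theorem T_g (y : ℝ) : T (g y) = y := by
  unfold g
  split_ifs with h1 h2
  · unfold T
    rw [max_eq_left (by linarith), min_eq_right (by linarith)]; ring
  · unfold T
    rw [max_eq_right (by linarith), min_eq_left (by linarith)]; ring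
  · have : y = 0 := le_antisymm (not_lt.1 h1) (not_lt.1 h2)
    rw [this]; exact T_small (by simp)

/-- the target: the sigma product of ℝ's -/
def SS : Set (ℝ → ℝ) := {y | (Function.support y).Finite}

def LL (n : ℕ) : Set (ℝ → ℝ) :=
  {y | (∀ γ, |y γ| ≤ n) ∧ ∀ s : Finset ℝ, s.card = n + 1 → ∏ γ ∈ s, y γ = 0}

theorem LL_compact (n : ℕ) : IsCompact (LL n) := by
  have h1 : IsCompact (Set.univ.pi (fun _ : ℝ => Set.Icc (-(n:ℝ)) n)) :=
    isCompact_univ_pi (fun _ => isCompact_Icc)
  refine h1.of_isClosed_subset ?_ ?_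
  · have e : LL n = (⋂ γ : ℝ, {y : ℝ → ℝ | |y γ| ≤ n}) ∩
        (⋂ s : Finset ℝ, ⋂ _ : s.card = n + 1, {y : ℝ → ℝ | ∏ γ ∈ s, y γ = 0}) := by
      ext x
      simp [LL]
    rw [e]
    refine IsClosed.inter ?_ ?_
    · exact isClosed_iInter fun γ => isClosed_le (continuous_apply γ).abs continuous_const
    · refine isClosed_iInter fun s => isClosed_iInter fun _ => ?_
      exact isClosed_eq (continuous_finsetProd s (fun γ _ => continuous_apply γ)) continuous_const
  · intro x hx
    rw [Set.mem_univ_pi]
    intro γ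
    exact abs_le.1 (hx.1 γ)

theorem SS_sigma : IsSigmaCompact SS := by
  refine ⟨LL, LL_compact, ?_⟩
  ext y
  simp only [Set.mem_iUnion]
  constructor
  · rintro ⟨n, hn⟩
    by_contra hinf
    have hinf' : (Function.support y).Infinite := hinf
    obtain ⟨s, hs, hc⟩ := hinf'.exists_subset_card_eq (n + 1)
    have := hn.2 s hc
    rw [Finset.prod_eq_zero_iff] at this
    obtain ⟨γ, hγ, h0⟩ := this
    exact hs hγ h0
  · intro hy
    have hy' : (Function.support y).Finite := hy
    obtain ⟨M, hM⟩ : ∃ M : ℝ, ∀ γ, |y γ| ≤ M := by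
      refine ⟨∑ γ ∈ hy'.toFinset, |y γ|, fun γ => ?_⟩
      by_cases h : γ ∈ Function.support y
      · exact Finset.single_le_sum (f := fun γ => |y γ|) (fun i _ => abs_nonneg _) (hy'.mem_toFinset.2 h)
      · have : y γ = 0 := by simpa using h
        rw [this]; simp
        exact Finset.sum_nonneg (fun i _ => abs_nonneg _)
    obtain ⟨k, hk⟩ := exists_nat_ge M
    refine ⟨max k hy'.toFinset.card, fun γ => ?_, fun s hs => ?_⟩
    · refine (hM γ).trans (hk.trans ?_)
      exact_mod_cast le_max_left _ _
    · by_contra hne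
      have hne := Finset.prod_ne_zero_iff.1 hne
      have hsub : s ⊆ hy'.toFinset := by
        intro γ hγ
        rw [hy'.mem_toFinset]
        exact hne γ hγ
      have := Finset.card_le_card hsub
      have h2 := le_max_right k hy'.toFinset.card
      omega

instance : SigmaCompactSpace SS := isSigmaCompact_iff_sigmaCompactSpace.1 SS_sigma

theorem fin_big (f : KK → ℝ) (hf : Continuous f) : {γ : ℝ | 1 ≤ |f (ee γ) - f ze|}.Finite := by
  haveI : CompactSpace KK := isCompact_iff_compactSpace.1 KK_compact
  have hcl : IsCompact {x : KK | 1 ≤ |f x - f ze|} :=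
    (isClosed_le continuous_const (hf.sub continuous_const).abs).isCompact
  obtain ⟨t, ht⟩ := hcl.elim_finite_subcover (fun γ : ℝ => {x : KK | x.1 γ ≠ 0})
    (fun γ => by
      have : Continuous (fun x : KK => x.1 γ) := (continuous_apply γ).comp continuous_subtype_val
      exact isOpen_ne_fun this continuous_const)
    (by
      intro x hx
      rw [Set.mem_iUnion]
      by_contra hne
      push Not at hne
      have hx0 : x = ze := by
        apply Subtype.ext
        funext γ
        have h5 := hne γ
        have h6 : x.1 γ = 0 := by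
          by_contra h7
          exact h5 h7
        exact h6
      rw [hx0] at hx
      simp only [Set.mem_setOf_eq, sub_self, abs_zero] at hx
      linarith)
  refine t.finite_toSet.subset ?_
  intro γ hγ
  have := ht (a := ee γ) hγ
  simp only [Set.mem_iUnion, Set.mem_setOf_eq] at this
  obtain ⟨δ, hδ, hne⟩ := this
  have : γ = δ := by
    by_contra hh
    apply hne
    have : δ ≠ γ := fun h => hh h.symm
    simp [ee, Pi.single_apply, this]
  rw [this]; exact hδ

noncomputable def phi (f : {f : KK → ℝ // Continuous f}) : SS :=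
  ⟨fun γ => T (f.1 (ee γ) - f.1 ze), by
    refine (fin_big f.1 f.2).subset ?_
    intro γ hγ
    by_contra h
    simp only [Set.mem_setOf_eq, not_le] at h
    exact hγ (T_small h)⟩

theorem phi_cont : Continuous phi := by
  refine Continuous.subtype_mk ?_ _
  refine continuous_pi fun γ => ?_
  refine T_cont.comp ?_
  exact ((continuous_apply (ee γ)).comp continuous_subtype_val).sub
    ((continuous_apply ze).comp continuous_subtype_val)

theorem phi_surj : Function.Surjective phi := by
  classical
  intro y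
  have hy : (Function.support y.1).Finite := y.2
  let F : KK → ℝ := fun x => ∑ γ ∈ hy.toFinset, g (y.1 γ) * x.1 γ
  have hF : Continuous F := by
    refine continuous_finsetSum _ fun γ _ => ?_
    exact continuous_const.mul ((continuous_apply γ).comp continuous_subtype_val)
  refine ⟨⟨F, hF⟩, ?_⟩
  apply Subtype.ext
  funext δ
  have h0 : F ze = 0 := by
    simp only [F, ze]
    simp
  have h1 : F (ee δ) = g (y.1 δ) := by
    simp only [F, ee]
    by_cases h : δ ∈ hy.toFinset
    · rw [Finset.sum_eq_single δ]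
      · simp
      · intro b _ hb
        simp [Pi.single_apply, hb]
      · intro h'; exact absurd h h'
    · have hz : y.1 δ = 0 := by
        rw [hy.mem_toFinset] at h
        simpa using h
      rw [hz]
      have hg : g 0 = 0 := by simp [g]
      rw [hg]
      refine Finset.sum_eq_zero fun b hb => ?_
      have : b ≠ δ := by rintro rfl; exact h hb
      simp [Pi.single_apply, this]
  show T (F (ee δ) - F ze) = y.1 δ
  rw [h0, h1, sub_zero, T_g]

noncomputable def yy (γ : ℝ) : SS := ⟨Pi.single γ (1:ℝ), by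
  classical
  refine (Set.finite_singleton γ).subset ?_
  intro δ hδ
  by_contra h
  apply hδ
  have : δ ≠ γ := h
  simp [Pi.single_apply, this]⟩

theorem not_cosmic : ¬ ∃ N : Set (Set SS), N.Countable ∧
    ∀ U : Set SS, IsOpen U → ∀ y ∈ U, ∃ A ∈ N, y ∈ A ∧ A ⊆ U := by
  classical
  rintro ⟨N, hN, h⟩
  have key : ∀ γ : ℝ, ∃ A ∈ N, yy γ ∈ A ∧ A ⊆ {y : SS | (1/2 : ℝ) < y.1 γ} := by
    intro γ
    apply h
    · exact isOpen_lt continuous_const ((continuous_apply γ).comp continuous_subtype_val)
    · show (1/2 : ℝ) < (Pi.single γ (1:ℝ) : ℝ → ℝ) γ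
      simp; norm_num
  choose A hA hm hs using key
  have hinj : Function.Injective (fun γ => (⟨A γ, hA γ⟩ : N)) := by
    intro γ δ hγδ
    have e : A γ = A δ := congrArg Subtype.val hγδ
    have : yy γ ∈ {y : SS | (1/2 : ℝ) < y.1 δ} := hs δ (e ▸ hm γ)
    by_contra hne
    have hne' : δ ≠ γ := fun h => hne h.symm
    simp only [yy, Set.mem_setOf_eq, Pi.single_apply, hne', if_false] at this
    linarith
  haveI : Countable N := hN.to_subtype
  have : Countable ℝ := hinj.countable
  exact Set.not_countable_univ (α := ℝ) (Set.countable_univ_iff.2 this)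

/-- The negation of the preceding statement: For every compact subset K of ℝ^Γ lying in c₀(Γ) (i.e. every Eberlein compact), every continuous surjection from C_p(K) (pointwise topology) onto a σ-compact Tychonoff space Y has Y with a countable network. -/
theorem result :
    ¬ (∀ (Γ : Type) (K : Set (Γ → ℝ)), IsCompact K →
      (∀ x ∈ K, ∀ ε : ℝ, 0 < ε → {γ : Γ | ε < |x γ|}.Finite) →
      ∀ (Y : Type) [TopologicalSpace Y] [T35Space Y] [SigmaCompactSpace Y]
        (φ : {f : K → ℝ // Continuous f} → Y), Continuous φ → Function.Surjective φ →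
        ∃ N : Set (Set Y), N.Countable ∧
          ∀ U : Set Y, IsOpen U → ∀ y ∈ U, ∃ A ∈ N, y ∈ A ∧ A ⊆ U) := by
  intro H
  exact not_cosmic (H ℝ KK KK_compact KK_c0 SS phi phi_cont phi_surj)

end Pool.Agent.S09012
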