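import Pool.Statements.S09061
import Pool.Agent.H19.CorsonG

set_option autoImplicit false
open Pool Pool.MP_5e5cb0_gt

namespace Pool.Agent.S09061

open Set Topology Filter Pool.Agent.H19.CorsonG

theorem eq_of_close (a b : ℝ) (h : ∀ ε > 0, |a - b| < ε) : a = b := by
  by_contra hne
  exact lt_irrefl _ (h _ (abs_pos.mpr (sub_ne_zero.mpr hne)))

theorem mem_cl_iff {X : Type} (A : Set (X → ℝ)) (F : X → ℝ) :
    F ∈ closure A ↔ ∀ (E : Finset X) (ε : ℝ), 0 < ε → ∃ f ∈ A, ∀ x ∈ E, |f x - F x| < ε := by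
  constructor
  · intro hF E ε hε
    have hopen : IsOpen {G : X → ℝ | ∀ x ∈ E, |G x - F x| < ε} := by
      have : {G : X → ℝ | ∀ x ∈ E, |G x - F x| < ε} = ⋂ x ∈ E, {G : X → ℝ | |G x - F x| < ε} := by
        ext; simp
      rw [this]
      apply isOpen_biInter_finset
      intro x _
      exact isOpen_lt (((continuous_apply x).sub continuous_const).abs) continuous_const
    obtain ⟨f, hG, hf⟩ := mem_closure_iff.mp hF _ hopen (by
      intro x _
      simpa using hε)
    exact ⟨f, hf, hG⟩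
  · intro h
    rw [mem_closure_iff]
    intro O hO hFO
    obtain ⟨I, W, hW, hI⟩ := isOpen_pi_iff.mp hO F hFO
    have h1 : ∀ᶠ ε in 𝓝[>] (0:ℝ), ∀ a ∈ I, Metric.ball (F a) ε ⊆ W a := by
      rw [Filter.eventually_all_finset]
      intro a ha
      obtain ⟨ε0, hε0, hb⟩ := Metric.isOpen_iff.mp (hW a ha).1 (F a) (hW a ha).2
      filter_upwards [Ioo_mem_nhdsGT hε0] with ε hε
      exact (Metric.ball_subset_ball hε.2.le).trans hb
    obtain ⟨ε, h2, hε⟩ := (h1.and (self_mem_nhdsWithin)).exists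
    obtain ⟨f, hf, hfε⟩ := h I ε hε
    refine ⟨f, hI ?_, hf⟩
    intro a ha
    apply h2 a ha
    rw [Metric.mem_ball, Real.dist_eq]
    exact hfε a ha

theorem equi_cont {X : Type} [TopologicalSpace X] {M : Type} [PseudoMetricSpace M] (p : X → M)
    (hp : Continuous p) (g : X → ℝ) (hg : ∀ x x', |g x - g x'| ≤ dist (p x) (p x')) : Continuous g := by
  rw [continuous_iff_continuousAt]
  intro x
  rw [ContinuousAt, tendsto_iff_dist_tendsto_zero]
  refine squeeze_zero (fun _ => dist_nonneg) (fun x' => ?_) (g := fun x' => dist (p x') (p x)) ?_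
  · rw [Real.dist_eq]; exact hg x' x
  · exact tendsto_iff_dist_tendsto_zero.mp (hp.tendsto x)

theorem equi_compact {X : Type} {M : Type} [PseudoMetricSpace M] (p : X → M) (b : X → ℝ) :
    IsCompact {g : X → ℝ | (∀ x, |g x| ≤ b x) ∧ ∀ x x', |g x - g x'| ≤ dist (p x) (p x')} := by
  have hcl : IsClosed {g : X → ℝ | (∀ x, |g x| ≤ b x) ∧ ∀ x x', |g x - g x'| ≤ dist (p x) (p x')} := by
    have : {g : X → ℝ | (∀ x, |g x| ≤ b x) ∧ ∀ x x', |g x - g x'| ≤ dist (p x) (p x')} =
        (⋂ x, {g : X → ℝ | |g x| ≤ b x}) ∩ ⋂ x, ⋂ x', {g : X → ℝ | |g x - g x'| ≤ dist (p x) (p x')} := by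
      ext g; simp
    rw [this]
    apply IsClosed.inter
    · exact isClosed_iInter fun x => isClosed_le (continuous_apply x).abs continuous_const
    · exact isClosed_iInter fun x => isClosed_iInter fun x' =>
        isClosed_le (((continuous_apply x).sub (continuous_apply x')).abs) continuous_const
  apply IsCompact.of_isClosed_subset (isCompact_univ_pi (fun x => isCompact_Icc (a := -b x) (b := b x))) hcl
  intro g hg x _
  exact abs_le.mp (hg.1 x)

/-- closing off under countable-valued operations on finite sets -/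
theorem closing {α : Type} (T : Finset α → Set α) (hT : ∀ t, (T t).Countable) (s0 : Set α)
    (h0 : s0.Countable) : ∃ s : Set α, s.Countable ∧ s0 ⊆ s ∧ ∀ t : Finset α, (t : Set α) ⊆ s → T t ⊆ s := by
  classical
  have hfin : ∀ s : Set α, s.Countable → {t : Finset α | (t : Set α) ⊆ s}.Countable := by
    intro s hs
    have : Countable s := hs.to_subtype
    apply (Set.countable_range (fun t : Finset s => t.map (Function.Embedding.subtype (· ∈ s)))).mono
    intro t ht
    exact ⟨t.subtype (· ∈ s), Finset.subtype_map_of_mem (fun x hx => ht hx)⟩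
  let step : Set α → Set α := fun s => s ∪ ⋃ t ∈ {t : Finset α | (t : Set α) ⊆ s}, T t
  have hstep : ∀ s : Set α, s.Countable → (step s).Countable := fun s hs =>
    hs.union ((hfin s hs).biUnion fun t _ => hT t)
  let q : ℕ → Set α := fun n => step^[n] s0
  have hq : ∀ n, q (n+1) = step (q n) := fun n => Function.iterate_succ_apply' step n s0
  have hqc : ∀ n, (q n).Countable := by
    intro n
    induction n with
    | zero => exact h0
    | succ n ih => rw [hq]; exact hstep _ ih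
  have hqm : Monotone q := monotone_nat_of_le_succ fun n => by
    rw [hq]; exact Set.subset_union_left
  refine ⟨⋃ n, q n, Set.countable_iUnion hqc, Set.subset_iUnion q 0, fun t ht => ?_⟩
  have : ∃ n, (t : Set α) ⊆ q n := by
    have hex : ∀ a ∈ t, ∃ n, a ∈ q n := fun a ha => Set.mem_iUnion.mp (ht ha)
    choose! m hm using hex
    refine ⟨t.sup m, fun a ha => hqm (Finset.le_sup ha) (hm a ha)⟩
  obtain ⟨n, hn⟩ := this
  refine Set.Subset.trans ?_ (Set.subset_iUnion q (n+1))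
  rw [hq]
  exact Set.subset_union_of_subset_right (Set.subset_biUnion_of_mem (u := T) hn) _

/-- a countable set that is dense with respect to countably many functions -/
theorem exists_D {K : Type} (P : Set (K → ℝ)) (hP : P.Countable) : ∃ D : Set K, D.Countable ∧
    ∀ k : K, ∀ E : Finset (K → ℝ), (E : Set (K → ℝ)) ⊆ P → ∀ ε > 0, ∃ d ∈ D, ∀ φ ∈ E, |φ d - φ k| < ε := by
  classical
  have : Countable P := hP.to_subtype
  let q : K → (P → ℝ) := fun k φ => φ.1 k
  obtain ⟨D0, hD0, hD0d⟩ := TopologicalSpace.exists_countable_dense (Set.range q)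
  choose r hr using fun z : Set.range q => z.2
  refine ⟨r '' D0, hD0.image r, fun k E hE ε hε => ?_⟩
  have h1 : (⟨q k, k, rfl⟩ : Set.range q) ∈ closure D0 := hD0d _
  have hopen : IsOpen {z : Set.range q | ∀ φ ∈ E.subtype (· ∈ P), |z.1 φ - q k φ| < ε} := by
    have : {z : Set.range q | ∀ φ ∈ E.subtype (· ∈ P), |z.1 φ - q k φ| < ε} =
        ⋂ φ ∈ E.subtype (· ∈ P), {z : Set.range q | |z.1 φ - q k φ| < ε} := by
      ext; simp
    rw [this]
    apply isOpen_biInter_finset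
    intro φ _
    exact isOpen_lt ((((continuous_apply φ).comp continuous_subtype_val).sub continuous_const).abs) continuous_const
  obtain ⟨z, hz, hzD⟩ := mem_closure_iff.mp h1 _ hopen (by
    intro φ _
    simpa using hε)
  refine ⟨r z, ⟨z, hzD, rfl⟩, fun φ hφ => ?_⟩
  have h2 := hz ⟨φ, hE hφ⟩ (by simpa using hφ)
  rw [← hr z] at h2
  exact h2


/-- countable tightness of sigma-products -/
theorem sigma_tight {Γ : Type} (B : Set (Γ → ℝ)) (hB : ∀ b ∈ B, (Function.support b).Countable)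
    (z : Γ → ℝ) (hz : (Function.support z).Countable) (hzB : z ∈ closure B) :
    ∃ B' ⊆ B, B'.Countable ∧ z ∈ closure B' := by
  classical
  rw [mem_cl_iff] at hzB
  choose b hbB hb using fun (F : Finset Γ) (n : ℕ) => hzB F (1 / ((n : ℝ) + 1)) (by positivity)
  let Fi : Finset ((Γ → ℝ) ⊕ Γ) → Finset Γ := fun t => t.preimage Sum.inr Sum.inr_injective.injOn
  let T : Finset ((Γ → ℝ) ⊕ Γ) → Set ((Γ → ℝ) ⊕ Γ) := fun t =>
    (⋃ b0 ∈ {b0 : Γ → ℝ | b0 ∈ B ∧ Sum.inl b0 ∈ t}, Sum.inr '' Function.support b0) ∪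
      Set.range (fun n : ℕ => Sum.inl (b (Fi t) n))
  have hT : ∀ t, (T t).Countable := by
    intro t
    refine Set.Countable.union ?_ (Set.countable_range _)
    refine Set.Countable.biUnion ?_ fun b0 hb0 => (hB b0 hb0.1).image _
    have h1 : {b0 : Γ → ℝ | Sum.inl b0 ∈ t}.Finite :=
      Set.Finite.preimage Sum.inl_injective.injOn t.finite_toSet
    exact (h1.subset fun b0 h => h.2).countable
  obtain ⟨s, hsc, hs0, hs⟩ := closing T hT (Sum.inr '' Function.support z) (hz.image _)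
  refine ⟨{b0 | b0 ∈ B ∧ Sum.inl b0 ∈ s}, fun b0 h => h.1, ?_, ?_⟩
  · have : {b0 : Γ → ℝ | Sum.inl b0 ∈ s}.Countable := hsc.preimage_of_injOn Sum.inl_injective.injOn
    exact this.mono fun b0 h => h.2
  · rw [mem_cl_iff]
    intro F ε hε
    obtain ⟨n, hn⟩ := exists_nat_one_div_lt hε
    let F' : Finset Γ := F.filter (fun γ => (Sum.inr γ : (Γ → ℝ) ⊕ Γ) ∈ s)
    let t : Finset ((Γ → ℝ) ⊕ Γ) := F'.map Function.Embedding.inr
    have hts : (t : Set _) ⊆ s := by
      intro a ha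
      obtain ⟨γ, hγ, rfl⟩ := Finset.mem_map.1 ha
      exact (Finset.mem_filter.1 hγ).2
    have hFi : Fi t = F' := by
      ext γ
      simp [Fi, t]
    have hb1 : (Sum.inl (b F' n) : (Γ → ℝ) ⊕ Γ) ∈ s := by
      apply hs t hts
      right
      exact ⟨n, by rw [hFi]⟩
    refine ⟨b F' n, ⟨hbB _ _, hb1⟩, fun γ hγ => ?_⟩
    by_cases hγs : (Sum.inr γ : (Γ → ℝ) ⊕ Γ) ∈ s
    · exact (hb F' n γ (Finset.mem_filter.2 ⟨hγ, hγs⟩)).trans hn
    · have h1 : z γ = 0 := by
        by_contra hne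
        exact hγs (hs0 ⟨γ, hne, rfl⟩)
      have h2 : b F' n γ = 0 := by
        by_contra hne
        apply hγs
        apply hs {Sum.inl (b F' n)} (by simpa using hb1)
        left
        refine Set.mem_iUnion₂.2 ⟨b F' n, ⟨hbB _ _, by simp⟩, ⟨γ, hne, rfl⟩⟩
      rw [h1, h2]
      simpa using hε

/-- the hypothesis on `X` -/
def Hyp (X : Type) [TopologicalSpace X] : Prop :=
  ∀ S : Set (X → ℝ), (∀ f ∈ S, Continuous f) → IsCompact S →
        ∃ (Γ : Type) (e : S → (Γ → ℝ)), Topology.IsEmbedding e ∧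
          ∀ s, (Function.support (e s)).Countable

theorem sep {X : Type} [TopologicalSpace X] (hX : Hyp X) {M : Type} [PseudoMetricSpace M] (p : X → M)
    (hp : Continuous p) (ε : ℝ) (hε : 0 < ε) :
    ∃ C : Set X, C.Countable ∧ ∀ x, ∃ c ∈ C, dist (p x) (p c) < ε := by
  classical
  let S : Set (X → ℝ) := {g : X → ℝ | (∀ x, |g x| ≤ ε) ∧ ∀ x x', |g x - g x'| ≤ dist (p x) (p x')}
  let A : Set (X → ℝ) := {g | ((∀ x, |g x| ≤ ε) ∧ ∀ x x', |g x - g x'| ≤ dist (p x) (p x')) ∧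
    ∃ C : Set X, C.Countable ∧ ∀ x, (∀ c ∈ C, ε ≤ dist (p x) (p c)) → g x = 0}
  obtain ⟨Γ, e, he, hs⟩ := hX S (fun g hg => equi_cont p hp g hg.2) (equi_compact p (fun _ => ε))
  have hmem : (fun _ : X => ε) ∈ closure A := by
    rw [mem_cl_iff]
    intro E δ hδ
    have key : ∀ E : Finset X, ∃ g : X → ℝ, ((∀ x, |g x| ≤ ε) ∧ (∀ x x', |g x - g x'| ≤ dist (p x) (p x'))) ∧
        (∀ x ∈ E, g x = ε) ∧ (∀ x, 0 ≤ g x) ∧ ∀ x, (∀ c ∈ E, ε ≤ dist (p x) (p c)) → g x = 0 := by
      classical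
      intro E
      induction E using Finset.induction_on with
      | empty =>
        refine ⟨fun _ => 0, ⟨fun x => by simpa using hε.le, fun x x' => by simp⟩, ?_, fun _ => le_rfl, fun _ _ => rfl⟩
        intro x hx
        exact absurd hx (Finset.notMem_empty x)
      | insert e E _ ih =>
        obtain ⟨g, ⟨h1, h2⟩, h3, h4, h5⟩ := ih
        have hle : ∀ x, g x ≤ ε := fun x => (le_abs_self _).trans (h1 x)
        have hle2 : ∀ x, max 0 (ε - dist (p x) (p e)) ≤ ε := fun x =>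
          max_le hε.le (by linarith [dist_nonneg (x := p x) (y := p e)])
        refine ⟨fun x => max (g x) (max 0 (ε - dist (p x) (p e))), ⟨fun x => ?_, fun x x' => ?_⟩, ?_, ?_, ?_⟩
        · rw [abs_of_nonneg (le_max_of_le_left (h4 x))]
          exact max_le (hle x) (hle2 x)
        · refine (abs_max_sub_max_le_max _ _ _ _).trans (max_le (h2 x x') ?_)
          refine (abs_max_sub_max_le_max _ _ _ _).trans (max_le (by simp) ?_)
          have : ε - dist (p x) (p e) - (ε - dist (p x') (p e)) = dist (p x') (p e) - dist (p x) (p e) := by ring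
          rw [this, dist_comm (p x) (p x')]
          exact abs_dist_sub_le _ _ _
        · intro x hx
          rcases Finset.mem_insert.mp hx with rfl | hx
          · show max (g x) (max 0 (ε - dist (p x) (p x))) = ε
            rw [dist_self, sub_zero, max_eq_right hε.le, max_eq_right (hle x)]
          · show max (g x) (max 0 (ε - dist (p x) (p e))) = ε
            rw [h3 x hx, max_eq_left (hle2 x)]
        · intro x
          exact le_max_of_le_left (h4 x)
        · intro x hx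
          show max (g x) (max 0 (ε - dist (p x) (p e))) = 0
          rw [h5 x (fun c hc => hx c (Finset.mem_insert_of_mem hc))]
          have := hx e (Finset.mem_insert_self _ _)
          rw [max_eq_left (by linarith : ε - dist (p x) (p e) ≤ 0), max_self]
    obtain ⟨g, h12, h3, _, h5⟩ := key E
    refine ⟨g, ⟨h12, E, E.countable_toSet, fun x hx => h5 x hx⟩, ?_⟩
    intro x hx
    rw [h3 x hx]
    simpa using hδ
  let z : S := ⟨fun _ => ε, fun _ => by simp [abs_of_pos hε], fun _ _ => by simp⟩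
  let A1 : Set S := {g | g.1 ∈ A}
  have hz : z ∈ closure A1 := by
    rw [Topology.IsEmbedding.subtypeVal.closure_eq_preimage_closure_image]
    show (fun _ : X => ε) ∈ closure (Subtype.val '' A1)
    refine closure_mono ?_ hmem
    intro g hg
    exact ⟨⟨g, hg.1⟩, hg, rfl⟩
  have hz2 : e z ∈ closure (e '' A1) := image_closure_subset_closure_image he.continuous ⟨z, hz, rfl⟩
  obtain ⟨B', hB', hB'c, hzB'⟩ := sigma_tight (e '' A1) (by rintro _ ⟨g, _, rfl⟩; exact hs g) (e z) (hs z) hz2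
  have hne : Nonempty S := ⟨z⟩
  choose! q hqA hq using fun (b : Γ → ℝ) (hb : b ∈ e '' A1) => hb
  choose! CC hCC1 hCC2 using fun (g : X → ℝ) (hg : g ∈ A) => hg.2
  refine ⟨⋃ b ∈ B', CC (q b).1, hB'c.biUnion fun b hb => hCC1 _ (hqA b (hB' hb)), fun x => ?_⟩
  by_contra hcon
  push Not at hcon
  have h1 : z ∈ closure (q '' B') := by
    rw [he.closure_eq_preimage_closure_image]
    show e z ∈ closure (e '' (q '' B'))
    refine closure_mono ?_ hzB'
    intro b hb
    exact ⟨q b, ⟨b, hb, rfl⟩, hq b (hB' hb)⟩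
  have hcl : IsClosed {g : S | g.1 x = 0} :=
    isClosed_eq ((continuous_apply x).comp continuous_subtype_val) continuous_const
  have h2 : z ∈ {g : S | g.1 x = 0} := by
    refine closure_minimal ?_ hcl h1
    rintro _ ⟨b, hb, rfl⟩
    apply hCC2 _ (hqA b (hB' hb))
    intro c hc
    exact hcon c (Set.mem_iUnion₂.2 ⟨b, hb, hc⟩)
  have h3 : ε = 0 := h2
  exact hε.ne' h3

theorem sep2 {X : Type} [TopologicalSpace X] (hX : Hyp X) {M : Type} [PseudoMetricSpace M] (p : X → M)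
    (hp : Continuous p) : ∃ C : Set X, C.Countable ∧ ∀ x, ∀ ε > 0, ∃ c ∈ C, dist (p x) (p c) < ε := by
  choose C hC hC2 using fun n : ℕ => sep hX p hp (1 / ((n : ℝ) + 1)) (by positivity)
  refine ⟨⋃ n, C n, Set.countable_iUnion hC, fun x ε hε => ?_⟩
  obtain ⟨n, hn⟩ := exists_nat_one_div_lt hε
  obtain ⟨c, hc, hd⟩ := hC2 n x
  exact ⟨c, Set.mem_iUnion.mpr ⟨n, hc⟩, hd.trans hn⟩

inductive WW (Z K C L : Type) : Type
  | z (a : Z)
  | k (a : K)
  | c (a : C)
  | l (a : L)

theorem WW.z_inj {Z K C L : Type} : Function.Injective (WW.z : Z → WW Z K C L) := fun _ _ h => WW.z.inj h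
theorem WW.k_inj {Z K C L : Type} : Function.Injective (WW.k : K → WW Z K C L) := fun _ _ h => WW.k.inj h
theorem WW.c_inj {Z K C L : Type} : Function.Injective (WW.c : C → WW Z K C L) := fun _ _ h => WW.c.inj h
theorem WW.l_inj {Z K C L : Type} : Function.Injective (WW.l : L → WW Z K C L) := fun _ _ h => WW.l.inj h

/-- the compactness argument -/
theorem fip {Z I : Type} [TopologicalSpace Z] (C : Set Z) (hC : IsCompact C) (ψ : I → Z → ℝ)
    (hψ : ∀ i, Continuous (ψ i)) (v : I → ℝ)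
    (h : ∀ (E : Finset I) (ε : ℝ), 0 < ε → ∃ z ∈ C, ∀ i ∈ E, |ψ i z - v i| < ε) :
    ∃ z ∈ C, ∀ i, ψ i z = v i := by
  classical
  obtain ⟨z, hzC, hz⟩ := hC.inter_iInter_nonempty (fun q : I × ℕ => {z | |ψ q.1 z - v q.1| ≤ 1 / ((q.2 : ℝ) + 1)})
    (fun q => isClosed_le (((hψ q.1).sub continuous_const).abs) continuous_const) (by
      intro u
      let N : ℕ := u.sup Prod.snd
      obtain ⟨z, hz, hz2⟩ := h (u.image Prod.fst) (1 / ((N : ℝ) + 1)) (by positivity)
      refine ⟨z, hz, Set.mem_iInter₂.2 fun q hq => ?_⟩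
      have h1 := hz2 q.1 (Finset.mem_image.2 ⟨q, hq, rfl⟩)
      refine h1.le.trans ?_
      have h2 : q.2 ≤ N := Finset.le_sup (f := Prod.snd) hq
      have h3 : (q.2 : ℝ) ≤ N := by exact_mod_cast h2
      exact one_div_le_one_div_of_le (by positivity) (by linarith))
  refine ⟨z, hzC, fun i => ?_⟩
  apply eq_of_close
  intro ε hε
  obtain ⟨n, hn⟩ := exists_nat_one_div_lt hε
  have h1 : |ψ i z - v i| ≤ 1 / ((n : ℝ) + 1) := Set.mem_iInter.1 hz (i, n)
  exact h1.trans_lt hn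

/-- a function that factors through a family factors through a countable subfamily -/
theorem count_factor {K : Type} [TopologicalSpace K] [CompactSpace K] (h : C(K, ℝ)) (G : Set C(K, ℝ))
    (hG : ∀ k k', (∀ g ∈ G, g k = g k') → h k = h k') :
    ∃ G' ⊆ G, G'.Countable ∧ ∀ k k', (∀ g ∈ G', g k = g k') → h k = h k' := by
  classical
  have h1 : ∀ n : ℕ, ∃ E : Finset C(K, ℝ), (E : Set C(K, ℝ)) ⊆ G ∧
      ∀ k k', (∀ g ∈ E, g k = g k') → |h k - h k'| < 1 / ((n : ℝ) + 1) := by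
    intro n
    have hcomp : IsCompact {q : K × K | 1 / ((n : ℝ) + 1) ≤ |h q.1 - h q.2|} :=
      (isClosed_le continuous_const (by fun_prop)).isCompact
    obtain ⟨t, ht⟩ := hcomp.elim_finite_subcover (fun g : G => {q : K × K | g.1 q.1 ≠ g.1 q.2})
      (fun g => isOpen_ne_fun (by fun_prop) (by fun_prop)) (by
        rintro ⟨k, k'⟩ hq
        rw [Set.mem_iUnion]
        by_contra hcon
        push Not at hcon
        have h2 : h k = h k' := hG k k' fun g hg => by
          by_contra hne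
          exact hcon ⟨g, hg⟩ hne
        have hq' : 1 / ((n : ℝ) + 1) ≤ |h k - h k'| := hq
        rw [h2, sub_self, abs_zero] at hq'
        have : (0:ℝ) < 1 / ((n : ℝ) + 1) := by positivity
        linarith)
    refine ⟨t.map (Function.Embedding.subtype (· ∈ G)), ?_, ?_⟩
    · intro g hg
      rw [Finset.mem_coe, Finset.mem_map] at hg
      obtain ⟨g', _, rfl⟩ := hg
      exact g'.2
    · intro k k' hk
      by_contra hcon
      push Not at hcon
      obtain ⟨g, hg, hne⟩ := Set.mem_iUnion₂.1 (ht (a := (k, k')) hcon)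
      exact hne (hk g.1 (Finset.mem_map.2 ⟨g, hg, rfl⟩))
  choose E hE1 hE2 using h1
  refine ⟨⋃ n, (E n : Set C(K, ℝ)), Set.iUnion_subset hE1, Set.countable_iUnion fun n => (E n).countable_toSet, ?_⟩
  intro k k' hk
  apply eq_of_close
  intro ε hε
  obtain ⟨n, hn⟩ := exists_nat_one_div_lt hε
  exact (hE2 n k k' fun g hg => hk g (Set.mem_iUnion.2 ⟨n, hg⟩)).trans hn

theorem main {X : Type} [TopologicalSpace X] (hX : Hyp X) {K : Type} [TopologicalSpace K]
    [CompactSpace K] [T2Space K] (S : Set (X × K → ℝ)) (hS : ∀ f ∈ S, Continuous f) (hSc : IsCompact S) :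
    ∃ (Γ : Type) (e : S → (Γ → ℝ)), Topology.IsEmbedding e ∧ ∀ s, (Function.support (e s)).Countable := by
  classical
  haveI : CompactSpace S := isCompact_iff_compactSpace.1 hSc
  -- restrictions
  let ρ : K → S → (X → ℝ) := fun k f x => f.1 (x, k)
  have hρ : ∀ k, Continuous (ρ k) := fun k => continuous_pi fun x =>
    (continuous_apply (x, k)).comp continuous_subtype_val
  choose Γ e he hsupp using fun k : K => hX (Set.range (ρ k)) (by
    rintro _ ⟨f, rfl⟩
    exact (hS f.1 f.2).comp (continuous_id.prodMk continuous_const)) (isCompact_range (hρ k))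
  let φ : (Σ k, Γ k) → S → ℝ := fun l f => e l.1 ⟨ρ l.1 f, f, rfl⟩ l.2
  have hφ : ∀ l, Continuous (φ l) := fun l =>
    (continuous_apply l.2).comp ((he l.1).continuous.comp ((hρ l.1).subtype_mk _))
  have φ2 : ∀ (f : S) (k : K), {t : Γ k | φ ⟨k, t⟩ f ≠ 0}.Countable := fun f k =>
    hsupp k ⟨ρ k f, f, rfl⟩
  have φ3 : ∀ (f f' : S) (k : K), (∀ t, φ ⟨k, t⟩ f = φ ⟨k, t⟩ f') → ∀ x, f.1 (x, k) = f'.1 (x, k) := by
    intro f f' k h x
    have h1 : e k ⟨ρ k f, f, rfl⟩ = e k ⟨ρ k f', f', rfl⟩ := funext h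
    have h2 := (he k).injective h1
    have h3 : ρ k f = ρ k f' := congrArg Subtype.val h2
    exact congrFun h3 x
  -- curried functions
  let p : S → X → C(K, ℝ) := fun f => ContinuousMap.curry ⟨f.1, hS f.1 f.2⟩
  have hp : ∀ f, Continuous (p f) := fun f => (ContinuousMap.curry ⟨f.1, hS f.1 f.2⟩).continuous
  have hpa : ∀ f x k, p f x k = f.1 (x, k) := fun f x k => rfl
  choose CC hCC1 hCC2 using fun f : S => sep2 hX (p f) (hp f)
  have hCC3 : ∀ (f : S) (k k' : K), (∀ c ∈ CC f, f.1 (c, k) = f.1 (c, k')) → ∀ x, f.1 (x, k) = f.1 (x, k') := by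
    intro f k k' h x
    apply eq_of_close
    intro ε hε
    obtain ⟨c, hc, hd⟩ := hCC2 f x (ε/2) (by positivity)
    have h1 : dist (f.1 (x, k)) (f.1 (c, k)) ≤ dist (p f x) (p f c) :=
      ContinuousMap.dist_apply_le_dist (f := p f x) (g := p f c) k
    have h2 : dist (f.1 (x, k')) (f.1 (c, k')) ≤ dist (p f x) (p f c) :=
      ContinuousMap.dist_apply_le_dist (f := p f x) (g := p f c) k'
    rw [Real.dist_eq] at h1 h2
    have h3 := h c hc
    rw [abs_lt]
    rw [abs_le] at h1 h2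
    constructor
    · linarith [h1.1, h2.2]
    · linarith [h1.2, h2.1]
  -- the operations
  let W := WW S K C(K, ℝ) (Σ k, Γ k)
  have hDK : ∀ t : Finset W, ∃ D : Set K, D.Countable ∧ ∀ k : K, ∀ E : Finset (K → ℝ),
      (E : Set (K → ℝ)) ⊆ (fun g : C(K, ℝ) => (g : K → ℝ)) '' {g | WW.c g ∈ t} → ∀ ε > 0, ∃ d ∈ D, ∀ ψ ∈ E, |ψ d - ψ k| < ε := by
    intro t
    apply exists_D
    apply Set.Countable.image
    exact (Set.Finite.preimage WW.c_inj.injOn t.finite_toSet).countable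
  choose DK hDK1 hDK2 using hDK
  have hDZ : ∀ t : Finset W, ∃ D : Set S, D.Countable ∧ ∀ k : S, ∀ E : Finset (S → ℝ),
      (E : Set (S → ℝ)) ⊆ φ '' {g | WW.l g ∈ t} → ∀ ε > 0, ∃ d ∈ D, ∀ ψ ∈ E, |ψ d - ψ k| < ε := by
    intro t
    apply exists_D
    apply Set.Countable.image
    exact (Set.Finite.preimage WW.l_inj.injOn t.finite_toSet).countable
  choose DZ hDZ1 hDZ2 using hDZ
  let T : Finset W → Set W := fun t =>
    ((⋃ f ∈ {f : S | WW.z f ∈ t}, (fun c => WW.c (p f c)) '' CC f) ∪ (WW.k '' DK t)) ∪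
    ((⋃ f ∈ {f : S | WW.z f ∈ t}, ⋃ k ∈ {k : K | WW.k k ∈ t},
      (fun s : Γ k => (WW.l ⟨k, s⟩ : W)) '' {s : Γ k | φ ⟨k, s⟩ f ≠ 0}) ∪ (WW.z '' DZ t))
  have hfz : ∀ t : Finset W, {f : S | WW.z f ∈ t}.Countable := fun t =>
    (Set.Finite.preimage WW.z_inj.injOn t.finite_toSet).countable
  have hfk : ∀ t : Finset W, {k : K | WW.k k ∈ t}.Countable := fun t =>
    (Set.Finite.preimage WW.k_inj.injOn t.finite_toSet).countable
  have hT : ∀ t, (T t).Countable := by
    intro t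
    refine Set.Countable.union (Set.Countable.union ?_ ((hDK1 t).image _))
      (Set.Countable.union ?_ ((hDZ1 t).image _))
    · exact (hfz t).biUnion fun f _ => (hCC1 f).image _
    · exact (hfz t).biUnion fun f _ => (hfk t).biUnion fun k _ => (φ2 f k).image _
  have n1 : ∀ N, Cl T N → ∀ f, WW.z f ∈ N → ∀ c ∈ CC f, WW.c (p f c) ∈ N := by
    intro N hN f hf c hc
    apply hN {WW.z f} (by simpa using hf)
    left; left
    exact Set.mem_iUnion₂.2 ⟨f, by simp, ⟨c, hc, rfl⟩⟩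
  have n2 : ∀ N, Cl T N → ∀ (k0 : K) (E : Finset {g : C(K, ℝ) // WW.c g ∈ N}) (ε : ℝ), 0 < ε →
      ∃ d, WW.k d ∈ N ∧ ∀ g ∈ E, |g.1 d - g.1 k0| < ε := by
    intro N hN k0 E ε hε
    let t : Finset W := E.image (fun g => WW.c g.1)
    have ht : (t : Set W) ⊆ N := by
      intro a ha
      obtain ⟨g, _, rfl⟩ := Finset.mem_image.1 ha
      exact g.2
    obtain ⟨d, hd, hd2⟩ := hDK2 t k0 (E.image (fun g => (g.1 : K → ℝ))) (by
      intro ψ hψ
      obtain ⟨g, hg, rfl⟩ := Finset.mem_image.1 hψ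
      exact ⟨g.1, Finset.mem_image.2 ⟨g, hg, rfl⟩, rfl⟩) ε hε
    refine ⟨d, hN t ht (Or.inl (Or.inr ⟨d, hd, rfl⟩)), fun g hg => ?_⟩
    exact hd2 _ (Finset.mem_image.2 ⟨g, hg, rfl⟩)
  have n3 : ∀ N, Cl T N → ∀ f k s, WW.z f ∈ N → WW.k k ∈ N → φ ⟨k, s⟩ f ≠ 0 → WW.l ⟨k, s⟩ ∈ N := by
    intro N hN f k s hf hk hne
    apply hN {WW.z f, WW.k k} (by
      intro a ha
      simp only [Finset.coe_insert, Finset.coe_singleton, Set.mem_insert_iff, Set.mem_singleton_iff] at ha
      rcases ha with rfl | rfl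
      · exact hf
      · exact hk)
    right; left
    refine Set.mem_iUnion₂.2 ⟨f, by simp, Set.mem_iUnion₂.2 ⟨k, by simp, ⟨s, hne, rfl⟩⟩⟩
  have n4 : ∀ N, Cl T N → ∀ (z0 : S) (E : Finset {l : (Σ k, Γ k) // WW.l l ∈ N}) (ε : ℝ), 0 < ε →
      ∃ d, WW.z d ∈ N ∧ ∀ l ∈ E, |φ l.1 d - φ l.1 z0| < ε := by
    intro N hN z0 E ε hε
    let t : Finset W := E.image (fun g => WW.l g.1)
    have ht : (t : Set W) ⊆ N := by
      intro a ha
      obtain ⟨g, _, rfl⟩ := Finset.mem_image.1 ha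
      exact g.2
    obtain ⟨d, hd, hd2⟩ := hDZ2 t z0 (E.image (fun g => φ g.1)) (by
      intro ψ hψ
      obtain ⟨g, hg, rfl⟩ := Finset.mem_image.1 hψ
      exact ⟨g.1, Finset.mem_image.2 ⟨g, hg, rfl⟩, rfl⟩) ε hε
    refine ⟨d, hN t ht (Or.inr (Or.inr ⟨d, hd, rfl⟩)), fun g hg => ?_⟩
    exact hd2 _ (Finset.mem_image.2 ⟨g, hg, rfl⟩)
  have hevc : ∀ q : X × K, Continuous (fun f : S => f.1 q) := fun q =>
    (continuous_apply q).comp continuous_subtype_val
  -- F1
  have F1 : ∀ N, Cl T N → ∀ f ∈ ZN (WW.z : S → W) N, ∀ k k' : K,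
      (∀ g : C(K, ℝ), WW.c g ∈ N → g k = g k') → ∀ x, f.1 (x, k) = f.1 (x, k') := by
    intro N hN f hf k k' h x
    have hcl : IsClosed {f : S | f.1 (x, k) = f.1 (x, k')} := isClosed_eq (hevc _) (hevc _)
    refine closure_minimal ?_ hcl hf
    intro f hf
    exact hCC3 f k k' (fun c hc => h _ (n1 N hN f hf c hc)) x
  -- F3
  have F3 : ∀ N, Cl T N → ∀ f ∈ ZN (WW.z : S → W) N, ∀ k s, WW.k k ∈ N → WW.l ⟨k, s⟩ ∉ N → φ ⟨k, s⟩ f = 0 := by
    intro N hN f hf k s hk hl
    have hcl : IsClosed {f : S | φ ⟨k, s⟩ f = 0} := isClosed_eq (hφ _) continuous_const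
    refine closure_minimal ?_ hcl hf
    intro f hf
    by_contra hne
    exact hl (n3 N hN f k s hf hk hne)
  -- F2
  have F2 : ∀ N, Cl T N → ∀ f f' : S,
      (∀ k k' : K, (∀ g : C(K, ℝ), WW.c g ∈ N → g k = g k') → ∀ x, f.1 (x, k) = f.1 (x, k')) →
      (∀ k k' : K, (∀ g : C(K, ℝ), WW.c g ∈ N → g k = g k') → ∀ x, f'.1 (x, k) = f'.1 (x, k')) →
      (∀ k, WW.k k ∈ N → ∀ x, f.1 (x, k) = f'.1 (x, k)) → f = f' := by
    intro N hN f f' h h' hk
    apply Subtype.ext
    funext ⟨x, k0⟩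
    obtain ⟨k1, hk1, hk1e⟩ := fip (closure {k : K | WW.k k ∈ N}) isClosed_closure.isCompact
      (fun (g : {g : C(K, ℝ) // WW.c g ∈ N}) => (g.1 : K → ℝ)) (fun g => g.1.continuous)
      (fun g => g.1 k0) (by
        intro E ε hε
        obtain ⟨d, hd, hd2⟩ := n2 N hN k0 E ε hε
        exact ⟨d, subset_closure hd, hd2⟩)
    have e1 : f.1 (x, k1) = f.1 (x, k0) := h k1 k0 (fun g hg => hk1e ⟨g, hg⟩) x
    have e2 : f'.1 (x, k1) = f'.1 (x, k0) := h' k1 k0 (fun g hg => hk1e ⟨g, hg⟩) x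
    have hcl : IsClosed {k : K | f.1 (x, k) = f'.1 (x, k)} :=
      isClosed_eq ((hS f.1 f.2).comp (continuous_const.prodMk continuous_id))
        ((hS f'.1 f'.2).comp (continuous_const.prodMk continuous_id))
    have e3 : f.1 (x, k1) = f'.1 (x, k1) := closure_minimal (fun k h => hk k h x) hcl hk1
    rw [← e1, ← e2, e3]
  have A1 : ∀ N, Cl T N → ∀ f ∈ ZN (WW.z : S → W) N, ∀ f' ∈ ZN (WW.z : S → W) N,
      (∀ l, WW.l l ∈ N → φ l f = φ l f') → f = f' := by
    intro N hN f hf f' hf' h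
    refine F2 N hN f f' (F1 N hN f hf) (F1 N hN f' hf') fun k hk => φ3 f f' k fun t => ?_
    by_cases hl : WW.l ⟨k, t⟩ ∈ N
    · exact h _ hl
    · rw [F3 N hN f hf k t hk hl, F3 N hN f' hf' k t hk hl]
  have A2 : ∀ N, Cl T N → ∀ z, ∃ r ∈ ZN (WW.z : S → W) N, ∀ l, WW.l l ∈ N → φ l r = φ l z := by
    intro N hN z
    obtain ⟨r, hr, hr2⟩ := fip (ZN (WW.z : S → W) N) isClosed_closure.isCompact
      (fun (l : {l : (Σ k, Γ k) // WW.l l ∈ N}) => φ l.1) (fun l => hφ l.1) (fun l => φ l.1 z) (by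
        intro E ε hε
        obtain ⟨d, hd, hd2⟩ := n4 N hN z E ε hε
        exact ⟨d, subset_closure hd, hd2⟩)
    exact ⟨r, hr, fun l hl => hr2 ⟨l, hl⟩⟩
  have A3 : ∀ N, Cl T N → ∀ f ∈ ZN (WW.z : S → W) N, ∃ N' ⊆ N, Cl T N' ∧ N'.Countable ∧ f ∈ ZN (WW.z : S → W) N' := by
    intro N hN f hf
    have hG : ∀ c : X, ∃ G' ⊆ {g : C(K, ℝ) | WW.c g ∈ N}, G'.Countable ∧
        ∀ k k', (∀ g ∈ G', g k = g k') → p f c k = p f c k' := fun c =>
      count_factor (p f c) {g : C(K, ℝ) | WW.c g ∈ N} fun k k' h => F1 N hN f hf k k' h c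
    choose G hG1 hG2 hG3 using hG
    let s0 : Set W := insert (WW.z f) (WW.c '' ⋃ c ∈ CC f, G c)
    have hs0 : s0.Countable := (((hCC1 f).biUnion fun c _ => hG2 c).image _).insert _
    obtain ⟨M, hMc, hM0, hM⟩ := closing T hT s0 hs0
    have hMcl : Cl T M := hM
    have hN' : Cl T (M ∩ N) := hMcl.inter hN
    refine ⟨M ∩ N, Set.inter_subset_right, hN', hMc.mono Set.inter_subset_left, ?_⟩
    obtain ⟨f', hf', hf'2⟩ := A2 (M ∩ N) hN' f
    have hff' : f = f' := by
      refine F2 (M ∩ N) hN' f f' ?_ (F1 (M ∩ N) hN' f' hf') fun k hk => φ3 f f' k fun t => ?_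
      · intro k k' h x
        refine hCC3 f k k' (fun c hc => ?_) x
        apply hG3 c k k'
        intro g hg
        refine h g ⟨hM0 (Or.inr ⟨g, Set.mem_iUnion₂.2 ⟨c, hc, hg⟩, rfl⟩), hG1 c hg⟩
      · by_cases hl : WW.l ⟨k, t⟩ ∈ M ∩ N
        · exact (hf'2 _ hl).symm
        · rw [F3 (M ∩ N) hN' f' hf' k t hk hl]
          by_cases hlN : WW.l ⟨k, t⟩ ∈ N
          · by_contra hne
            exact hl ⟨n3 M hMcl f k t (hM0 (Or.inl rfl)) hk.1 hne, hlN⟩
          · exact F3 N hN f hf k t hk.2 hlN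
    rw [hff']
    exact hf'
  exact corson T hT (WW.z : S → W) (WW.l : (Σ k, Γ k) → W) φ hφ WW.l_inj A1 A2 A3

/-- Let X be Tychonoff and suppose every pointwise-compact set of continuous real functions on X embeds in a Sigma-product. Then for every compact Hausdorff K, every pointwise-compact set of continuous real functions on X×K also embeds in a Sigma-product. -/
theorem result :
    ∀ (X : Type) [TopologicalSpace X] [T35Space X],
      (∀ S : Set (X → ℝ), (∀ f ∈ S, Continuous f) → IsCompact S →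
        ∃ (Γ : Type) (e : S → (Γ → ℝ)), Topology.IsEmbedding e ∧
          ∀ s, (Function.support (e s)).Countable) →
      ∀ (K : Type) [TopologicalSpace K] [CompactSpace K] [T2Space K],
        ∀ S : Set (X × K → ℝ), (∀ f ∈ S, Continuous f) → IsCompact S →
          ∃ (Γ : Type) (e : S → (Γ → ℝ)), Topology.IsEmbedding e ∧
            ∀ s, (Function.support (e s)).Countable := by
  intro X _ _ hX K _ _ _ S hS hSc
  exact main hX S hS hSc

end Pool.Agent.S09061
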