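import Pool.Statements.S09109

set_option autoImplicit false
open Topology
open Pool Pool.MP_6b9469_gt

namespace Pool.Agent.S09109

/-- Every topological space having a σ-disjoint base and a σ-locally countable base also has a single base that is both σ-disjoint and σ-locally countable. -/
theorem result :
    ∀ (X : Type) [TopologicalSpace X],
      (∃ B : Set (Set X), TopologicalSpace.IsTopologicalBasis B ∧
        ∃ F : ℕ → Set (Set X), B = ⋃ n, F n ∧ ∀ n, (F n).PairwiseDisjoint id) →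
      (∃ B : Set (Set X), TopologicalSpace.IsTopologicalBasis B ∧
        ∃ F : ℕ → Set (Set X), B = ⋃ n, F n ∧
          ∀ n, ∀ x : X, ∃ U ∈ 𝓝 x, {S ∈ F n | (S ∩ U).Nonempty}.Countable) →
      ∃ B : Set (Set X), TopologicalSpace.IsTopologicalBasis B ∧
        (∃ F : ℕ → Set (Set X), B = ⋃ n, F n ∧ ∀ n, (F n).PairwiseDisjoint id) ∧
        (∃ G : ℕ → Set (Set X), B = ⋃ n, G n ∧
          ∀ n, ∀ x : X, ∃ U ∈ 𝓝 x, {S ∈ G n | (S ∩ U).Nonempty}.Countable) := by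
  classical
  intro X _ h1 h2
  obtain ⟨B1, hB1, F, hF, hFd⟩ := h1
  obtain ⟨B2, hB2, G, hG, hGl⟩ := h2
  -- members of `G m` meeting `U`
  let meet : ℕ → Set X → Set (Set X) := fun m U => {S ∈ G m | (S ∩ U).Nonempty}
  -- enumeration of the members of `G m` meeting `U`
  have henum : ∀ m U, ∃ e : ℕ → Set X, (meet m U).Countable → ∀ V ∈ meet m U, ∃ k, e k = V := by
    intro m U
    by_cases hc : (meet m U).Countable
    · by_cases hne : (meet m U).Nonempty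
      · obtain ⟨e, he⟩ := hc.exists_eq_range hne
        refine ⟨e, fun _ V hV => ?_⟩
        rw [he] at hV
        exact hV
      · refine ⟨fun _ => ∅, fun _ V hV => ?_⟩
        exact absurd ⟨V, hV⟩ hne
    · exact ⟨fun _ => ∅, fun h => absurd h hc⟩
  choose e he using henum
  let O : ℕ → ℕ → ℕ → Set X → Set X := fun n m k V =>
    V ∩ ⋃₀ {U ∈ F n | (meet m U).Countable ∧ e m U k = V}
  let H : ℕ × ℕ × ℕ → Set (Set X) := fun t => (O t.1 t.2.1 t.2.2) '' (G t.2.1)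
  have hFo : ∀ n, ∀ U ∈ F n, IsOpen U := by
    intro n U hU
    apply hB1.isOpen
    rw [hF]
    exact Set.mem_iUnion.2 ⟨n, hU⟩
  have hGo : ∀ n, ∀ U ∈ G n, IsOpen U := by
    intro n U hU
    apply hB2.isOpen
    rw [hG]
    exact Set.mem_iUnion.2 ⟨n, hU⟩
  have hHd : ∀ t, (H t).PairwiseDisjoint id := by
    rintro t S ⟨V, hV, rfl⟩ S' ⟨V', hV', rfl⟩ hne
    show Disjoint (O t.1 t.2.1 t.2.2 V) (O t.1 t.2.1 t.2.2 V')
    rw [Set.disjoint_left]
    rintro y ⟨_, U, ⟨hU, _, hUe⟩, hyU⟩ ⟨_, U', ⟨hU', _, hUe'⟩, hyU'⟩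
    have hUU : U = U' := by
      by_contra hcon
      have hd : Disjoint U U' := hFd t.1 hU hU' hcon
      exact Set.disjoint_left.1 hd hyU hyU'
    subst hUU
    apply hne
    rw [← hUe, ← hUe']
  have hHl : ∀ t, ∀ x : X, ∃ U ∈ 𝓝 x, {S ∈ H t | (S ∩ U).Nonempty}.Countable := by
    intro t x
    obtain ⟨U, hU, hc⟩ := hGl t.2.1 x
    refine ⟨U, hU, ?_⟩
    refine (hc.image (O t.1 t.2.1 t.2.2)).mono ?_
    rintro S ⟨⟨V, hV, rfl⟩, hne⟩
    refine ⟨V, ⟨hV, ?_⟩, rfl⟩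
    exact hne.mono (Set.inter_subset_inter_left _ Set.inter_subset_left)
  have hbase : TopologicalSpace.IsTopologicalBasis (⋃ t, H t) := by
    apply TopologicalSpace.isTopologicalBasis_of_isOpen_of_nhds
    · intro S hS
      obtain ⟨t, V, hV, rfl⟩ := Set.mem_iUnion.1 hS
      apply (hGo _ V hV).inter
      apply isOpen_sUnion
      rintro U ⟨hU, _⟩
      exact hFo _ U hU
    · intro x W hxW hW
      obtain ⟨V, hVB, hxV, hVW⟩ := hB2.exists_subset_of_mem_open hxW hW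
      rw [hG] at hVB
      obtain ⟨m, hVm⟩ := Set.mem_iUnion.1 hVB
      obtain ⟨N, hN, hNc⟩ := hGl m x
      obtain ⟨N', hN'N, hN'o, hxN'⟩ := mem_nhds_iff.1 hN
      obtain ⟨U, hUB, hxU, hUN⟩ := hB1.exists_subset_of_mem_open hxN' hN'o
      rw [hF] at hUB
      obtain ⟨n, hUn⟩ := Set.mem_iUnion.1 hUB
      have hUc : (meet m U).Countable := by
        refine hNc.mono ?_
        rintro S ⟨hS, hne⟩
        exact ⟨hS, hne.mono (Set.inter_subset_inter_right _ (hUN.trans hN'N))⟩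
      obtain ⟨k, hk⟩ := he m U hUc V ⟨hVm, ⟨x, hxV, hxU⟩⟩
      refine ⟨O n m k V, Set.mem_iUnion.2 ⟨(n, m, k), V, hVm, rfl⟩, ?_, ?_⟩
      · exact ⟨hxV, U, ⟨hUn, hUc, hk⟩, hxU⟩
      · exact Set.inter_subset_left.trans hVW
  let d : ℕ ≃ ℕ × ℕ × ℕ := (Denumerable.eqv (ℕ × ℕ × ℕ)).symm
  have hun : (⋃ t, H t) = ⋃ i, H (d i) := by
    ext S
    simp only [Set.mem_iUnion]
    constructor
    · rintro ⟨t, ht⟩
      exact ⟨d.symm t, by rwa [Equiv.apply_symm_apply]⟩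
    · rintro ⟨i, hi⟩
      exact ⟨d i, hi⟩
  exact ⟨⋃ t, H t, hbase, ⟨fun i => H (d i), hun, fun i => hHd (d i)⟩,
    ⟨fun i => H (d i), hun, fun i x => hHl (d i) x⟩⟩

end Pool.Agent.S09109
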