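import Pool.Statements.S09115

set_option autoImplicit false
open Pool Pool.MP_6c8a84_gt

namespace Pool.Agent.S09115

open Complex Set Metric unitInterval

/-- a countable dense set of the plane -/
def D : Set ℂ := Set.range (TopologicalSpace.denseSeq ℂ)

theorem D_countable : D.Countable := Set.countable_range _

theorem D_dense : Dense D := TopologicalSpace.denseRange_denseSeq ℂ

/-- the plane with the countable dense set removed -/
abbrev X : Type := {z : ℂ // z ∉ D}

/-- No homotopy in the punctured plane from a small circle around `0` to a loop far from `0`. -/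
theorem winding (ρ : ℝ) (hρ : 0 < ρ) (w : ℂ) (H : I × I → ℂ) (hc : Continuous H)
    (h0 : ∀ p, H p ≠ 0) (hH0 : ∀ s : I, H (0, s) = ρ * exp (2 * Real.pi * Complex.I * (s : ℝ)))
    (hloop : ∀ t : I, H (t, 0) = H (t, 1))
    (h1 : ∀ s : I, ‖H (1, s) - w‖ < ‖w‖) : False := by
  have cov := Complex.isCoveringMap_exp
  let H' : C(I × I, {z : ℂ // z ≠ 0}) := ⟨fun p => ⟨H p, h0 p⟩, hc.subtype_mk _⟩
  let f : C(I, ℂ) := ⟨fun s => (Real.log ρ : ℂ) + 2 * Real.pi * Complex.I * (s : ℝ), by fun_prop⟩
  have hf : ∀ s : I, H' (0, s) = (⟨exp (f s), exp_ne_zero _⟩ : {z : ℂ // z ≠ 0}) := by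
    intro s
    apply Subtype.ext
    show H (0, s) = exp ((Real.log ρ : ℂ) + 2 * Real.pi * Complex.I * (s : ℝ))
    rw [hH0, Complex.exp_add, ← Complex.ofReal_exp, Real.exp_log hρ]
  let L := cov.liftHomotopy H' f hf
  have hL : ∀ p, exp (L p) = H p := by
    intro p
    have := congr_fun (cov.liftHomotopy_lifts H' f hf) p
    exact congrArg Subtype.val this
  have hL0 : ∀ s : I, L (0, s) = f s := fun s => cov.liftHomotopy_zero H' f hf s
  have hLc : Continuous L := L.continuous
  -- first comparison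
  have e1 : (fun t : I => L (t, 1)) = fun t : I => L (t, 0) + 2 * Real.pi * Complex.I := by
    apply cov.eq_of_comp_eq (a := (0 : I))
    · fun_prop
    · fun_prop
    · funext t
      apply Subtype.ext
      show exp (L (t, 1)) = exp (L (t, 0) + 2 * Real.pi * Complex.I)
      rw [Complex.exp_add, Complex.exp_two_pi_mul_I, mul_one, hL, hL, hloop]
    · show L (0, 1) = L (0, 0) + 2 * Real.pi * Complex.I
      rw [hL0, hL0]
      show (Real.log ρ : ℂ) + 2 * Real.pi * Complex.I * ((1 : I) : ℝ) =
        (Real.log ρ : ℂ) + 2 * Real.pi * Complex.I * ((0 : I) : ℝ) + 2 * Real.pi * Complex.I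
      simp
  -- second comparison
  have hw : w ≠ 0 := by
    rintro rfl
    have := h1 0
    simp only [norm_zero] at this
    exact absurd this (not_lt.2 (norm_nonneg _))
  have hslit : ∀ s : I, H (1, s) / w ∈ slitPlane := by
    intro s
    left
    have h2 : ‖H (1, s) / w - 1‖ < 1 := by
      have : H (1, s) / w - 1 = (H (1, s) - w) / w := by field_simp
      rw [this, norm_div, div_lt_one (norm_pos_iff.2 hw)]
      exact h1 s
    have h3 := (abs_le.1 ((Complex.abs_re_le_norm (H (1, s) / w - 1)))).1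
    simp only [Complex.sub_re, Complex.one_re] at h3
    linarith
  have hcs : Continuous (fun s : I => Complex.log (H (1, s) / w)) := by
    apply Continuous.clog
    · fun_prop
    · exact hslit
  have e2 : (fun s : I => L (1, s)) = fun s : I =>
      Complex.log (H (1, s) / w) - Complex.log (H (1, 0) / w) + L (1, 0) := by
    apply cov.eq_of_comp_eq (a := (0 : I))
    · fun_prop
    · exact (hcs.sub continuous_const).add continuous_const
    · funext s
      apply Subtype.ext
      show exp (L (1, s)) = exp (Complex.log (H (1, s) / w) - Complex.log (H (1, 0) / w) + L (1, 0))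
      rw [Complex.exp_add, Complex.exp_sub, Complex.exp_log (slitPlane_ne_zero (hslit s)),
        Complex.exp_log (slitPlane_ne_zero (hslit 0)), hL, hL]
      have := h0 (1, 0)
      field_simp
    · show L (1, 0) = Complex.log (H (1, 0) / w) - Complex.log (H (1, 0) / w) + L (1, 0)
      simp
  have e3 := congr_fun e1 1
  have e4 := congr_fun e2 1
  rw [e3, ← hloop 1] at e4
  simp only [sub_self, zero_add] at e4
  have h5 : (2 * Real.pi * Complex.I : ℂ) = 0 := by
    have := add_eq_left.1 e4
    exact this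
  exact Complex.two_pi_I_ne_zero h5

/-- homotopies of the identity of `X` are constant. -/
theorem rigid (h : X × unitInterval → X) (hc : Continuous h)
    (h0 : ∀ x : X, h (x, (0 : unitInterval)) = x) (a : X) (t1 : unitInterval) : h (a, t1) = a := by
  by_contra hne
  set y := h (a, t1) with hy
  have hr : 0 < dist y a := dist_pos.2 hne
  set r := dist y a with hrdef
  have hct : Continuous (fun x : X => h (x, t1)) := by fun_prop
  obtain ⟨δ, hδ, hδ'⟩ := Metric.continuous_iff.1 hct a (r / 4) (by linarith)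
  set δ2 := min δ (r / 4) with hδ2
  have hδ2p : 0 < δ2 := lt_min hδ (by linarith)
  obtain ⟨c, hcb, hcD⟩ := D_dense.exists_mem_open (isOpen_ball (x := a.1) (ε := δ2 / 2))
    ⟨a.1, mem_ball_self (by linarith)⟩
  -- note the order of the conjunction
  have hcD' : c ∈ D := by first | exact hcb | exact hcD
  have hcb' : c ∈ ball a.1 (δ2 / 2) := by first | exact hcD | exact hcb
  have hcount : ((fun d : ℂ => ‖d - c‖) '' D).Countable := D_countable.image _
  obtain ⟨ρ, hρ1, hρ2⟩ := (hcount.dense_compl ℝ).exists_mem_open (isOpen_Ioo (a := (0 : ℝ)) (b := δ2 / 2))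
    ⟨δ2 / 4, by constructor <;> linarith⟩
  have hρD : ρ ∉ ((fun d : ℂ => ‖d - c‖) '' D) := by first | exact hρ1 | exact hρ2
  have hρI : ρ ∈ Ioo 0 (δ2 / 2) := by first | exact hρ2 | exact hρ1
  let z : I → ℂ := fun s => c + ρ * exp (2 * Real.pi * Complex.I * (s : ℝ))
  have hzn : ∀ s, ‖z s - c‖ = ρ := by
    intro s
    have : z s - c = ρ * exp (2 * Real.pi * Complex.I * (s : ℝ)) := by simp [z]
    rw [this, norm_mul]
    have h1 : ‖exp (2 * Real.pi * Complex.I * (s : ℝ))‖ = 1 := by
      have : (2 * Real.pi * Complex.I * (s : ℝ) : ℂ) = ((2 * Real.pi * s : ℝ) : ℂ) * Complex.I := by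
        push_cast; ring
      rw [this, Complex.norm_exp_ofReal_mul_I]
    rw [h1, mul_one]
    simp [abs_of_pos hρI.1]
  have hzD : ∀ s, z s ∉ D := by
    intro s hs
    exact hρD ⟨z s, hs, hzn s⟩
  have hzc : Continuous z := by fun_prop
  have hzX : Continuous (fun s : I => (⟨z s, hzD s⟩ : X)) := hzc.subtype_mk _
  have hcH : Continuous (fun p : I × I => (h (⟨z p.2, hzD p.2⟩, p.1 * t1)).1 - c) := by
    apply Continuous.sub _ continuous_const
    apply continuous_subtype_val.comp
    apply hc.comp
    apply Continuous.prodMk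
    · exact hzX.comp continuous_snd
    · exact continuous_fst.mul continuous_const
  apply winding ρ hρI.1 (y.1 - c) (fun p : I × I => (h (⟨z p.2, hzD p.2⟩, p.1 * t1)).1 - c) hcH
  · intro p hp
    have h1 : (h (⟨z p.2, hzD p.2⟩, p.1 * t1)).1 = c := sub_eq_zero.1 hp
    exact (h (⟨z p.2, hzD p.2⟩, p.1 * t1)).2 (h1 ▸ hcD')
  · intro s
    show (h (⟨z s, hzD s⟩, 0 * t1)).1 - c = _
    rw [zero_mul, h0]
    simp [z]
  · intro t
    have : z 0 = z 1 := by
      simp only [z]
      congr 2
      simp [Complex.exp_two_pi_mul_I]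
    show (h (⟨z 0, hzD 0⟩, t * t1)).1 - c = (h (⟨z 1, hzD 1⟩, t * t1)).1 - c
    have h2 : (⟨z 0, hzD 0⟩ : X) = ⟨z 1, hzD 1⟩ := Subtype.ext this
    rw [h2]
  · intro s
    show ‖((h (⟨z s, hzD s⟩, 1 * t1)).1 - c) - (y.1 - c)‖ < ‖y.1 - c‖
    rw [one_mul]
    have h1 : dist (⟨z s, hzD s⟩ : X) a < δ := by
      show dist (z s) a.1 < δ
      have h2 : dist (z s) c = ρ := by rw [Complex.dist_eq]; exact hzn s
      have h3 : dist c a.1 < δ2 / 2 := hcb'
      have h4 := dist_triangle (z s) c a.1
      have h5 : δ2 ≤ δ := min_le_left _ _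
      have h6 := hρI.2
      linarith
    have h2 := hδ' _ h1
    have h3 : dist (h (⟨z s, hzD s⟩, t1)).1 y.1 < r / 4 := h2
    have h4 : ((h (⟨z s, hzD s⟩, t1)).1 - c) - (y.1 - c) = (h (⟨z s, hzD s⟩, t1)).1 - y.1 := by ring
    rw [h4, ← Complex.dist_eq, ← Complex.dist_eq]
    have h5 : dist y.1 a.1 = r := rfl
    have h6 : dist c a.1 < δ2 / 2 := hcb'
    have h7 : δ2 ≤ r / 4 := min_le_right _ _
    have h8 := dist_triangle y.1 c a.1
    linarith

/-- good directions are dense -/
theorem direction (x : X) (v : ℂ) (ε : ℝ) (hε : 0 < ε) :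
    ∃ v' : ℂ, ‖v' - v‖ < ε ∧ ∀ t : I, x.1 + (t : ℝ) * v' ∉ D := by
  by_cases hv : v = 0
  · refine ⟨0, by simpa [hv] using hε, fun t => ?_⟩
    simpa using x.2
  · have hvn : 0 < ‖v‖ := norm_pos_iff.2 hv
    have hcount : ((fun d : ℂ => ((d - x.1) / v).im / ((d - x.1) / v).re) '' D).Countable :=
      D_countable.image _
    obtain ⟨s, hs1, hs2⟩ := (hcount.dense_compl ℝ).exists_mem_open
      (isOpen_Ioo (a := (0 : ℝ)) (b := ε / ‖v‖)) ⟨ε / ‖v‖ / 2, by
        have : 0 < ε / ‖v‖ := div_pos hε hvn
        constructor <;> linarith⟩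
    have hsD : s ∉ ((fun d : ℂ => ((d - x.1) / v).im / ((d - x.1) / v).re) '' D) := by
      first | exact hs1 | exact hs2
    have hsI : s ∈ Ioo 0 (ε / ‖v‖) := by first | exact hs2 | exact hs1
    refine ⟨v * (1 + s * Complex.I), ?_, ?_⟩
    · have : v * (1 + s * Complex.I) - v = v * (s * Complex.I) := by ring
      rw [this, norm_mul, norm_mul, Complex.norm_I, mul_one, Complex.norm_real, Real.norm_eq_abs,
        abs_of_pos hsI.1]
      have := hsI.2
      rw [lt_div_iff₀ hvn] at this
      linarith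
    · intro t ht
      apply hsD
      refine ⟨_, ht, ?_⟩
      have h1 : (x.1 + (t : ℝ) * (v * (1 + s * Complex.I)) - x.1) / v = (t : ℝ) * (1 + s * Complex.I) := by
        field_simp
        ring
      simp only [h1]
      have ht0 : (t : ℝ) ≠ 0 := by
        intro h0
        rw [h0] at ht
        apply x.2
        simpa using ht
      simp
      field_simp

/-- the space of segments inside `X` -/
abbrev Z : Type := {p : X × ℂ // ∀ t : I, p.1.1 + (t : ℝ) * p.2 ∉ D}

/-- There is a metric space X on which every homotopy starting at the identity is stationary, yet some continuous open surjection g from a metric space Z onto X admits a homotopy starting at g that moves some point. -/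
theorem result :
    ∃ (X : Type) (_ : MetricSpace X),
      (∀ h : X × unitInterval → X, Continuous h →
          (∀ x : X, h (x, (0 : unitInterval)) = x) →
          ∀ (a : X) (t : unitInterval), h (a, t) = a) ∧
      ∃ (Z : Type) (_ : MetricSpace Z) (g : Z → X),
        Continuous g ∧ IsOpenMap g ∧ Function.Surjective g ∧
        ∃ (a : Z) (h : Z × unitInterval → X), Continuous h ∧
          (∀ z : Z, h (z, (0 : unitInterval)) = g z) ∧
          ∃ t : unitInterval, h (a, t) ≠ g a := by
  refine ⟨X, inferInstance, rigid, Z, inferInstance, fun z => z.1.1, by fun_prop, ?_, ?_, ?_⟩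
  · intro U hU
    rw [Metric.isOpen_iff] at hU ⊢
    rintro _ ⟨p, hp, rfl⟩
    obtain ⟨ε, hε, hb⟩ := hU p hp
    refine ⟨ε, hε, ?_⟩
    intro x' hx'
    obtain ⟨v', hv', hv''⟩ := direction x' p.1.2 ε hε
    refine ⟨⟨(x', v'), hv''⟩, hb ?_, rfl⟩
    show dist (x', v') p.1 < ε
    rw [Prod.dist_eq, max_lt_iff]
    refine ⟨hx', ?_⟩
    rw [Complex.dist_eq]
    exact hv'
  · intro x
    exact ⟨⟨(x, 0), fun t => by simpa using x.2⟩, rfl⟩
  · obtain ⟨x, hx⟩ : ∃ x : ℂ, x ∉ D := by
      by_contra hcon
      push Not at hcon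
      have h1 : (Set.univ : Set ℂ).Countable := D_countable.mono (fun t _ => hcon t)
      have h2 := h1.dense_compl ℝ
      rw [Set.compl_univ] at h2
      obtain ⟨_, h3⟩ := h2.nonempty
      exact h3
    obtain ⟨v, hv, hv'⟩ := direction ⟨x, hx⟩ 1 (1/2) (by norm_num)
    have hv0 : v ≠ 0 := by
      rintro rfl
      norm_num at hv
    refine ⟨⟨(⟨x, hx⟩, v), hv'⟩, fun q => ⟨q.1.1.1.1 + (q.2 : ℝ) * q.1.1.2, q.1.2 q.2⟩, ?_, ?_, 1, ?_⟩
    · apply Continuous.subtype_mk
      fun_prop
    · intro z
      apply Subtype.ext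
      simp
    · intro h
      have := congrArg Subtype.val h
      simp at this
      exact hv0 this

end Pool.Agent.S09115
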