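import Pool.Statements.S09184

set_option autoImplicit false
open Pool Pool.MP_7ca978_gt

namespace Pool.Agent.S09184

abbrev E4 := EuclideanSpace ℝ (Fin 4)

/-- `(x₀,x₁,x₂,x₃) ↦ (-x₁,x₀,-x₃,x₂)` -/
noncomputable def Tlin : E4 ≃ₗ[ℝ] E4 where
  toFun x := !₂[-(x 1), x 0, -(x 3), x 2]
  invFun x := !₂[x 1, -(x 0), x 3, -(x 2)]
  map_add' x y := by
    ext i; fin_cases i <;> simp <;> ring
  map_smul' c x := by
    ext i; fin_cases i <;> simp
  left_inv x := by
    ext i; fin_cases i <;> simp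
  right_inv x := by
    ext i; fin_cases i <;> simp

noncomputable def Tiso : E4 ≃ₗᵢ[ℝ] E4 where
  toLinearEquiv := Tlin
  norm_map' x := by
    rw [EuclideanSpace.norm_eq, EuclideanSpace.norm_eq]
    congr 1
    simp only [Fin.sum_univ_four, Real.norm_eq_abs, sq_abs]
    simp [Tlin]
    ring

theorem T0 (x : E4) : Tiso x 0 = -(x 1) := rfl
theorem T1 (x : E4) : Tiso x 1 = x 0 := rfl
theorem T2 (x : E4) : Tiso x 2 = -(x 3) := rfl
theorem T3 (x : E4) : Tiso x 3 = x 2 := rfl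

noncomputable def phi (i : Fin 3) (x : E4) : ℝ :=
  if i = 0 then x 0 + x 2 else if i = 1 then x 1 - x 3 else (x 0 + x 3) ^ 2 + (x 1 + x 2) ^ 2

/-- The negation of the preceding statement: For every n ≥ 1, every orthogonal map T of ℝ^n and any n−1 real functions continuous on the unit sphere, some point p of the sphere satisfies φ_i(Tp) = φ_i(p) for all i. -/
theorem result :
    ¬ (∀ n : ℕ, 1 ≤ n →
      ∀ T : EuclideanSpace ℝ (Fin n) ≃ₗᵢ[ℝ] EuclideanSpace ℝ (Fin n),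
      ∀ φ : Fin (n - 1) → EuclideanSpace ℝ (Fin n) → ℝ,
        (∀ i, ContinuousOn (φ i) (Metric.sphere (0 : EuclideanSpace ℝ (Fin n)) 1)) →
        ∃ p ∈ Metric.sphere (0 : EuclideanSpace ℝ (Fin n)) 1,
          ∀ i, φ i (T p) = φ i p) := by
  intro h
  obtain ⟨p, hp, hφ⟩ := h 4 (by norm_num) Tiso (fun i x => phi i x) (by
    intro i
    apply Continuous.continuousOn
    have hi : ∀ j : Fin 4, Continuous fun x : E4 => x j := fun j => by fun_prop
    have h0 := hi 0
    have h1 := hi 1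
    have h2 := hi 2
    have h3 := hi 3
    unfold phi
    split_ifs
    · exact h0.add h2
    · exact h1.sub h3
    · exact ((h0.add h3).pow 2).add ((h1.add h2).pow 2))
  have e0 : phi 0 (Tiso p) = phi 0 p := hφ (0 : Fin 3)
  have e1 : phi 1 (Tiso p) = phi 1 p := hφ (1 : Fin 3)
  have e2 : phi 2 (Tiso p) = phi 2 p := hφ (2 : Fin 3)
  have c0 : ∀ x, phi 0 x = x 0 + x 2 := fun x => rfl
  have c1 : ∀ x, phi 1 x = x 1 - x 3 := fun x => rfl
  have c2 : ∀ x, phi 2 x = (x 0 + x 3) ^ 2 + (x 1 + x 2) ^ 2 := fun x => rfl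
  rw [c0, c0, T0, T2] at e0
  rw [c1, c1, T1, T3] at e1
  rw [c2, c2, T0, T1, T2, T3] at e2
  have a1 : p 3 = -(p 0) := by linarith
  have a2 : p 2 = -(p 1) := by linarith
  rw [a1, a2] at e2
  have h01 : (p 0) ^ 2 + (p 1) ^ 2 = 0 := by nlinarith
  have hz0 : p 0 = 0 := by nlinarith [sq_nonneg (p 0), sq_nonneg (p 1)]
  have hz1 : p 1 = 0 := by nlinarith [sq_nonneg (p 0), sq_nonneg (p 1)]
  have hp0 : p = 0 := by
    ext i
    fin_cases i
    · exact hz0
    · exact hz1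
    · show p 2 = 0
      rw [a2, hz1, neg_zero]
    · show p 3 = 0
      rw [a1, hz0, neg_zero]
  rw [hp0] at hp
  simp at hp

end Pool.Agent.S09184
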