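import Pool.Statements.S09222

set_option autoImplicit false
open Pool Pool.MP_8503ce_gt

namespace Pool.Agent.S09222

open Set Cardinal TopologicalSpace

/-- the cardinal `ℵ_{n+1}` -/
noncomputable def crd (n : ℕ) : Cardinal.{0} := Cardinal.aleph ((n : Ordinal.{0}) + 1)

/-- the well-order of type `ω_{n+1}` -/
def W (n : ℕ) : Type := (crd n).ord.ToType

noncomputable instance (n : ℕ) : LinearOrder (W n) :=
  inferInstanceAs (LinearOrder (crd n).ord.ToType)

instance (n : ℕ) : WellFoundedLT (W n) :=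
  inferInstanceAs (WellFoundedLT (crd n).ord.ToType)

lemma mk_W (n : ℕ) : Cardinal.mk (W n) = crd n := Cardinal.mk_ord_toType _

lemma regular (n : ℕ) : (crd n).IsRegular := Cardinal.isRegular_aleph_add_one _

lemma bounded {n : ℕ} (s : Set (W n)) (hs : Cardinal.mk s < crd n) : ∃ x, ∀ y ∈ s, y < x := by
  rw [← not_isCofinal_iff]
  intro h
  have h1 : Order.cof (W n) ≤ Cardinal.mk s := Order.cof_le h
  have h2 : Order.cof (W n) = crd n := by
    show Order.cof (crd n).ord.ToType = crd n
    rw [Ordinal.cof_toType, (regular n).cof_ord]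
  rw [h2] at h1
  exact absurd hs (not_lt.2 h1)

lemma crd_lt {i j : ℕ} (h : i < j) : crd i < crd j := by
  unfold crd
  rw [Cardinal.aleph_lt_aleph]
  have : ((i : Ordinal.{0})) < (j : Ordinal.{0}) := by exact_mod_cast h
  simpa using this

lemma aleph0_lt (n : ℕ) : Cardinal.aleph0 < crd n := by
  unfold crd
  rw [← Cardinal.aleph_zero, Cardinal.aleph_lt_aleph]
  simp

lemma bounded_countable {n : ℕ} (s : Set (W n)) (hs : s.Countable) : ∃ x, ∀ y ∈ s, y < x :=
  bounded s ((Cardinal.le_aleph0_iff_set_countable.2 hs).trans_lt (aleph0_lt n))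

lemma exists_gt' {n : ℕ} (a : W n) : ∃ b, a < b := by
  obtain ⟨x, hx⟩ := bounded_countable {a} (countable_singleton a)
  exact ⟨x, hx a rfl⟩

instance (n : ℕ) : Nonempty (W n) := by
  obtain ⟨x, _⟩ := bounded_countable (n := n) ∅ countable_empty
  exact ⟨x⟩

instance topW (n : ℕ) : TopologicalSpace (W n) :=
  TopologicalSpace.generateFrom {s | ∃ a, s = Ioi a}

lemma upperW {n : ℕ} (U : Set (W n)) (hU : IsOpen U) : ∀ x ∈ U, ∀ x', x ≤ x' → x' ∈ U := by
  have h : GenerateOpen {s : Set (W n) | ∃ a, s = Ioi a} U := hU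
  induction h with
  | basic s hs =>
    obtain ⟨a, rfl⟩ := hs
    intro x hx x' hxx'
    exact lt_of_lt_of_le hx hxx'
  | univ => intro x _ x' _; trivial
  | inter s t _ _ ihs iht =>
    intro x hx x' hxx'
    exact ⟨ihs ‹_› x hx.1 x' hxx', iht ‹_› x hx.2 x' hxx'⟩
  | sUnion S _ ih =>
    rintro x ⟨s, hs, hxs⟩ x' hxx'
    exact ⟨s, hs, ih s hs (‹∀ s ∈ S, GenerateOpen _ s› s hs) x hxs x' hxx'⟩

instance (n : ℕ) : T0Space (W n) := by
  refine ⟨fun x y h => ?_⟩
  by_contra hne
  have key : ∀ x y : W n, Inseparable x y → ¬ x < y := by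
    intro x y h hlt
    have ho : IsOpen (Ioi x) := GenerateOpen.basic _ ⟨x, rfl⟩
    exact lt_irrefl x ((h.mem_open_iff ho).2 hlt)
  rcases lt_or_gt_of_ne hne with hlt | hlt
  · exact key x y h hlt
  · exact key y x h.symm hlt

/-- the target space -/
def Y₀ : Type := {y : ∀ n, WithTop (W n) // {n | y n = ⊤}.Finite}

instance topY : TopologicalSpace Y₀ :=
  TopologicalSpace.generateFrom {s | ∃ (n : ℕ) (a : W n), s = {y : Y₀ | (a : WithTop (W n)) < y.1 n}}

lemma upperY (U : Set Y₀) (hU : IsOpen U) : ∀ x ∈ U, ∀ x' : Y₀, (∀ n, x.1 n ≤ x'.1 n) → x' ∈ U := by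
  have h : GenerateOpen {s | ∃ (n : ℕ) (a : W n), s = {y : Y₀ | (a : WithTop (W n)) < y.1 n}} U := hU
  induction h with
  | basic s hs =>
    obtain ⟨n, a, rfl⟩ := hs
    intro x hx x' hxx'
    exact lt_of_lt_of_le hx (hxx' n)
  | univ => intro x _ x' _; trivial
  | inter s t _ _ ihs iht =>
    intro x hx x' hxx'
    exact ⟨ihs ‹_› x hx.1 x' hxx', iht ‹_› x hx.2 x' hxx'⟩
  | sUnion S _ ih =>
    rintro x ⟨s, hs, hxs⟩ x' hxx'
    exact ⟨s, hs, ih s hs (‹∀ s ∈ S, GenerateOpen _ s› s hs) x hxs x' hxx'⟩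

lemma openY (n : ℕ) (a : W n) : IsOpen {y : Y₀ | (a : WithTop (W n)) < y.1 n} :=
  GenerateOpen.basic _ ⟨n, a, rfl⟩

lemma le_of_mem_closure {y z : Y₀} (h : y ∈ closure ({z} : Set Y₀)) (n : ℕ) :
    y.1 n ≤ z.1 n := by
  by_contra hlt
  have hlt := not_le.1 hlt
  obtain ⟨a, ha⟩ := WithTop.ne_top_iff_exists.1 (ne_top_of_lt hlt)
  rw [← ha] at hlt
  obtain ⟨w, hw, hwz⟩ := mem_closure_iff.1 h _ (openY n a) hlt
  have hwz : w = z := hwz
  subst hwz
  have hw : (a : WithTop (W n)) < w.1 n := hw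
  rw [← ha] at hw
  exact lt_irrefl _ hw

instance : T0Space Y₀ := by
  refine ⟨fun x y h => ?_⟩
  have h1 : ∀ n, x.1 n ≤ y.1 n := fun n => le_of_mem_closure (by
    rw [← (inseparable_iff_closure_eq.1 h)]; exact subset_closure rfl) n
  have h2 : ∀ n, y.1 n ≤ x.1 n := fun n => le_of_mem_closure (by
    rw [(inseparable_iff_closure_eq.1 h)]; exact subset_closure rfl) n
  exact Subtype.ext (funext fun n => le_antisymm (h1 n) (h2 n))

lemma eq_of_closure_eq {Y : Type} [TopologicalSpace Y] [T0Space Y] {y z : Y}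
    (h : closure ({y} : Set Y) = closure {z}) : y = z :=
  (inseparable_iff_closure_eq.2 h).eq

/-- the class of spaces -/
def K (Y : Type) [TopologicalSpace Y] : Prop :=
  T0Space Y ∧ ∀ (i : ℕ) (f : W i → Y), Continuous f →
    ∃! y : Y, closure (f '' univ) = closure ({y} : Set Y)

lemma K_sober (Y : Type) [TopologicalSpace Y] (hT : T0Space Y) (hQ : QuasiSober Y) : K Y := by
  refine ⟨hT, fun i f hf => ?_⟩
  have h1 : IsIrreducible (univ : Set (W i)) := by
    refine ⟨univ_nonempty, ?_⟩
    rintro u v hu hv ⟨x, _, hx⟩ ⟨y, _, hy⟩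
    exact ⟨max x y, trivial, upperW u hu x hx _ (le_max_left _ _),
      upperW v hv y hy _ (le_max_right _ _)⟩
  have h2 : IsIrreducible (closure (f '' univ)) := (h1.image f hf.continuousOn).closure
  obtain ⟨y, hy⟩ := QuasiSober.sober h2 isClosed_closure
  refine ⟨y, hy.symm, fun z hz => ?_⟩
  apply eq_of_closure_eq
  rw [← hz]
  exact hy.symm

lemma K_Y₀ : K Y₀ := by
  refine ⟨inferInstance, fun i h hh => ?_⟩
  -- monotone
  have hmono : ∀ α α' : W i, α ≤ α' → ∀ n, (h α).1 n ≤ (h α').1 n := by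
    intro α α' hle n
    by_contra hlt
    have hlt := not_le.1 hlt
    obtain ⟨a, ha⟩ := WithTop.ne_top_iff_exists.1 (ne_top_of_lt hlt)
    rw [← ha] at hlt
    have h1 := upperW _ ((openY n a).preimage hh) α hlt α' hle
    have h1 : (a : WithTop (W n)) < (h α').1 n := h1
    rw [← ha] at h1
    exact lt_irrefl _ h1
  -- least upper bounds
  have hlub : ∀ n, ∃ z : WithTop (W n), (∀ α, (h α).1 n ≤ z) ∧
      ∀ z', (∀ α, (h α).1 n ≤ z') → z ≤ z' := by
    intro n
    have hne : {x : WithTop (W n) | ∀ α, (h α).1 n ≤ x}.Nonempty := ⟨⊤, fun α => le_top⟩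
    refine ⟨WellFounded.min (wellFounded_lt (α := WithTop (W n))) _ hne,
      WellFounded.min_mem (wellFounded_lt (α := WithTop (W n))) _ hne, fun z' hz' => ?_⟩
    exact not_lt.1 (WellFounded.not_lt_min (wellFounded_lt (α := WithTop (W n)))
      {x : WithTop (W n) | ∀ α, (h α).1 n ≤ x} hz')
  choose z hz1 hz2 using hlub
  have hfin : {n | z n = ⊤}.Finite := by
    by_contra hinf
    have hinf : {n | z n = ⊤}.Infinite := hinf
    -- for `j > i` with `z j = ⊤`, the value `⊤` is attained
    have hatt : ∀ j, ∃ α : W i, i < j → z j = ⊤ → (h α).1 j = ⊤ := by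
      intro j
      by_contra hcon
      push Not at hcon
      obtain ⟨hij, hzj, _⟩ := hcon (Classical.arbitrary _)
      have hcon' : ∀ α, (h α).1 j ≠ ⊤ := fun α => (hcon α).2.2
      have h1 : ∀ α, ∃ a : W j, (a : WithTop (W j)) = (h α).1 j := fun α =>
        WithTop.ne_top_iff_exists.1 (hcon' α)
      choose a ha using h1
      obtain ⟨b, hb⟩ := bounded (Set.range a) (by
        refine (Cardinal.mk_range_le).trans_lt ?_
        rw [mk_W]
        exact crd_lt hij)
      have h2 := hz2 j (b : WithTop (W j)) (fun α => by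
        rw [← ha α]
        exact WithTop.coe_le_coe.2 (hb _ ⟨α, rfl⟩).le)
      rw [hzj] at h2
      exact absurd (top_le_iff.1 h2) (WithTop.coe_ne_top)
    choose α hα using hatt
    obtain ⟨β, hβ⟩ := bounded_countable (Set.range α) (countable_range α)
    have h3 : {n | z n = ⊤} \ {n | n ≤ i} ⊆ {n | (h β).1 n = ⊤} := by
      rintro n ⟨hn, hni⟩
      have hni : i < n := not_le.1 hni
      have h4 := hmono (α n) β (hβ _ ⟨n, rfl⟩).le n
      rw [hα n hni hn] at h4
      exact top_le_iff.1 h4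
    exact (hinf.sdiff (Set.finite_le_nat i)) ((h β).2.subset h3)
  let zz : Y₀ := ⟨z, hfin⟩
  refine ⟨zz, ?_, ?_⟩
  · show closure (h '' univ) = closure {zz}
    apply Subset.antisymm
    · refine closure_minimal ?_ isClosed_closure
      rintro _ ⟨α, _, rfl⟩
      rw [mem_closure_iff]
      intro U hU hαU
      exact ⟨zz, upperY U hU _ hαU zz (fun n => hz1 n α), rfl⟩
    · refine closure_minimal ?_ isClosed_closure
      rintro _ rfl
      rw [mem_closure_iff]
      intro U hU hzU
      have key : ∀ U : Set Y₀, GenerateOpen {s | ∃ (n : ℕ) (a : W n),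
          s = {y : Y₀ | (a : WithTop (W n)) < y.1 n}} U → zz ∈ U →
          ∃ α, ∀ α' ≥ α, h α' ∈ U := by
        intro U hU
        induction hU with
        | basic s hs =>
          obtain ⟨n, a, rfl⟩ := hs
          intro hz
          have hz : (a : WithTop (W n)) < z n := hz
          have h5 : ∃ α, ¬ (h α).1 n ≤ (a : WithTop (W n)) := by
            by_contra hcon
            push Not at hcon
            exact absurd (hz2 n _ hcon) (not_le.2 hz)
          obtain ⟨α, hα⟩ := h5
          exact ⟨α, fun α' hα' => (not_le.1 hα).trans_le (hmono α α' hα' n)⟩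
        | univ => intro _; exact ⟨Classical.arbitrary _, fun _ _ => trivial⟩
        | inter s t _ _ ihs iht =>
          rintro ⟨hs, ht⟩
          obtain ⟨α, hα⟩ := ihs hs
          obtain ⟨β, hβ⟩ := iht ht
          exact ⟨max α β, fun γ hγ => ⟨hα γ ((le_max_left _ _).trans hγ),
            hβ γ ((le_max_right _ _).trans hγ)⟩⟩
        | sUnion S _ ih =>
          rintro ⟨s, hs, hzs⟩
          obtain ⟨α, hα⟩ := ih s hs hzs
          exact ⟨α, fun α' hα' => ⟨s, hs, hα α' hα'⟩⟩
      obtain ⟨α, hα⟩ := key U hU hzU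
      exact ⟨h α, hα α le_rfl, ⟨α, trivial, rfl⟩⟩
  · intro y hy
    have hy : closure (h '' univ) = closure {y} := hy
    have h1 : ∀ n, z n ≤ y.1 n := fun n => hz2 n _ fun α => by
      have : h α ∈ closure {y} := by rw [← hy]; exact subset_closure ⟨α, trivial, rfl⟩
      exact le_of_mem_closure this n
    have h2 : ∀ n, y.1 n ≤ z n := by
      intro n
      by_contra hlt
      have hlt := not_le.1 hlt
      obtain ⟨a, ha⟩ := WithTop.ne_top_iff_exists.1 (ne_top_of_lt hlt)
      have hyc : y ∈ closure (h '' univ) := by rw [hy]; exact subset_closure rfl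
      rw [← ha] at hlt
      obtain ⟨w, hw, ⟨α, _, rfl⟩⟩ := mem_closure_iff.1 hyc _ (openY n a) hlt
      have hw : (a : WithTop (W n)) < (h α).1 n := hw
      rw [ha] at hw
      exact absurd (hz1 n α) (not_le.2 hw)
    exact Subtype.ext (funext fun n => le_antisymm (h2 n) (h1 n))

/-- The negation of the preceding statement: For any class K of T0 spaces containing all sober spaces, and any family of T0 spaces with K-determined subsets A_i, the product of the A_i is K-determined in the product space. -/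
theorem result :
    ¬ (∀ (K : ∀ (Y : Type) [TopologicalSpace Y], Prop),
    (∀ (Y : Type) [TopologicalSpace Y], K Y → T0Space Y) →
    (∀ (Y : Type) [TopologicalSpace Y], T0Space Y → QuasiSober Y → K Y) →
    ∀ (I : Type) (X : I → Type) [∀ i, TopologicalSpace (X i)] [∀ i, T0Space (X i)]
      (A : ∀ i, Set (X i)),
      (∀ i, ∀ (Y : Type) [TopologicalSpace Y], K Y →
        ∀ f : X i → Y, Continuous f →
          ∃! y : Y, closure (f '' A i) = closure ({y} : Set Y)) →
      ∀ (Y : Type) [TopologicalSpace Y], K Y →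
        ∀ f : (∀ i, X i) → Y, Continuous f →
          ∃! y : Y, closure (f '' Set.pi Set.univ A) = closure ({y} : Set Y)) := by
  intro H
  let f : (∀ n, W n) → Y₀ := fun x => ⟨fun n => (x n : WithTop (W n)), by
    have : {n | ((x n : WithTop (W n))) = ⊤} = ∅ := by
      ext n; simp
    rw [this]; exact Set.finite_empty⟩
  have hf : Continuous f := by
    refine continuous_generateFrom_iff.2 ?_
    rintro _ ⟨n, a, rfl⟩
    have h1 : f ⁻¹' {y : Y₀ | (a : WithTop (W n)) < y.1 n} = (fun x : (∀ n, W n) => x n) ⁻¹' Ioi a := by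
      ext x
      exact WithTop.coe_lt_coe
    rw [h1]
    have h2 : IsOpen (Ioi a) := GenerateOpen.basic _ ⟨a, rfl⟩
    exact h2.preimage (continuous_apply n)
  obtain ⟨y, hy, _⟩ := H (fun Y _ => K Y) (fun Y _ h => h.1) (fun Y _ h1 h2 => K_sober Y h1 h2)
    ℕ W (fun _ => univ) (fun i Y _ hK f hf => hK.2 i f hf) Y₀ K_Y₀ f hf
  have hy : closure (f '' Set.pi Set.univ fun _ => univ) = closure {y} := hy
  obtain ⟨n, hn⟩ : ∃ n, y.1 n ≠ ⊤ := by
    by_contra hcon
    push Not at hcon
    have h1 := y.2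
    have h2 : {n | y.1 n = ⊤} = Set.univ := by ext n; simpa using hcon n
    rw [h2] at h1
    exact Set.infinite_univ h1
  obtain ⟨a, ha⟩ := WithTop.ne_top_iff_exists.1 hn
  obtain ⟨b, hb⟩ := exists_gt' a
  classical
  let x : ∀ n, W n := Function.update (fun n => Classical.arbitrary (W n)) n b
  have h1 : f x ∈ closure {y} := by
    rw [← hy]
    exact subset_closure ⟨x, fun _ _ => trivial, rfl⟩
  have h2 := le_of_mem_closure h1 n
  have h3 : (f x).1 n = (b : WithTop (W n)) := by
    show ((x n : W n) : WithTop (W n)) = b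
    simp [x]
  rw [h3, ← ha] at h2
  exact absurd (WithTop.coe_le_coe.1 h2) (not_le.2 hb)

end Pool.Agent.S09222
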