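import Pool.Statements.S09249

set_option autoImplicit false
open Pool Pool.MP_8a5d18_gt

namespace Pool.Agent.S09249

open Set Filter Topology

section aux

variable {X : Type} [TopologicalSpace X]

/-- elementary form of being in the closure for pointwise convergence -/
def Cl (A : Set C(X, ℝ)) (h : C(X, ℝ)) : Prop :=
  ∀ F : Finset X, ∀ ε : ℝ, 0 < ε → ∃ f ∈ A, ∀ x ∈ F, |f x - h x| < ε

lemma closed_elim (A : Set C(X, ℝ))
    (hA : @IsClosed C(X, ℝ)
      (TopologicalSpace.induced (fun h : C(X, ℝ) => (h : X → ℝ)) Pi.topologicalSpace) A)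
    (h : C(X, ℝ)) (hcl : Cl A h) : h ∈ A := by
  classical
  by_contra hn
  have ho := hA.isOpen_compl
  obtain ⟨O, hO, hOA⟩ := isOpen_induced_iff.1 ho
  have hmem : (h : X → ℝ) ∈ O := by
    have : h ∈ (fun h : C(X, ℝ) => (h : X → ℝ)) ⁻¹' O := by rw [hOA]; exact hn
    exact this
  obtain ⟨I, u, hu, hIu⟩ := isOpen_pi_iff.1 hO _ hmem
  have h1 : ∀ i : X, ∃ δ > 0, i ∈ I → Metric.ball (h i) δ ⊆ u i := by
    intro i
    by_cases hi : i ∈ I
    · obtain ⟨δ, hδ, h⟩ := Metric.isOpen_iff.1 (hu i hi).1 _ (hu i hi).2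
      exact ⟨δ, hδ, fun _ => h⟩
    · exact ⟨1, one_pos, fun h => absurd h hi⟩
  choose δ hδ hδu using h1
  have h2 : ∃ ε > 0, ∀ i ∈ I, ε ≤ δ i := by
    rcases I.eq_empty_or_nonempty with rfl | hI
    · exact ⟨1, one_pos, by simp⟩
    · exact ⟨I.inf' hI δ, (Finset.lt_inf'_iff hI).2 fun i _ => hδ i,
        fun i hi => Finset.inf'_le _ hi⟩
  obtain ⟨ε, hε, hεδ⟩ := h2
  obtain ⟨f, hfA, hf⟩ := hcl I ε hε
  have h3 : (f : X → ℝ) ∈ O := by
    apply hIu
    intro i hi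
    apply hδu i hi
    rw [Metric.mem_ball, Real.dist_eq]
    exact (hf i hi).trans_le (hεδ i hi)
  have h4 : f ∈ Aᶜ := by rw [← hOA]; exact h3
  exact h4 hfA

lemma pointwise_lim (p : Filter ℕ) (f : ℕ → C(X, ℝ)) (g : C(X, ℝ))
    (h : Filter.Tendsto f p (@nhds C(X, ℝ)
      (TopologicalSpace.induced (fun h : C(X, ℝ) => (h : X → ℝ)) Pi.topologicalSpace) g)) (x : X) :
    Filter.Tendsto (fun n => f n x) p (𝓝 (g x)) := by
  rw [nhds_induced, tendsto_comap_iff] at h
  exact (tendsto_pi_nhds.1 h) x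

lemma bump [CompletelyRegularSpace X] (U : Set X) (hU : IsOpen U) (F : Finset X)
    (hF : (↑F : Set X) ⊆ U) : ∃ φ : C(X, ℝ), (∀ x, 0 ≤ φ x) ∧ (∀ x ∈ F, φ x = 0) ∧
      ∀ x, x ∉ U → φ x = 1 := by
  classical
  have h1 : ∀ y : X, ∃ φ : C(X, ℝ), (∀ x, 0 ≤ φ x) ∧ (y ∈ F → φ y = 0) ∧
      ∀ x, x ∉ U → φ x = 1 := by
    intro y
    by_cases hy : y ∈ F
    · obtain ⟨f, hf, hf0, hf1⟩ := CompletelyRegularSpace.completely_regular y Uᶜ
        hU.isClosed_compl (by simpa using hF hy)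
      refine ⟨⟨fun z => (f z : ℝ), by fun_prop⟩, fun x => (f x).2.1, fun _ => ?_, fun x hx => ?_⟩
      · show (f y : ℝ) = 0
        rw [hf0]; rfl
      · show (f x : ℝ) = 1
        rw [hf1 hx]; rfl
    · exact ⟨⟨fun _ => 1, continuous_const⟩, fun _ => zero_le_one, fun h => absurd h hy,
        fun _ _ => rfl⟩
  choose φ h0 h1 h2 using h1
  refine ⟨⟨fun x => ∏ y ∈ F, φ y x, continuous_finsetProd F fun y _ => (φ y).continuous⟩,
    fun x => Finset.prod_nonneg fun y _ => h0 y x, fun x hx => ?_, fun x hx => ?_⟩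
  · exact Finset.prod_eq_zero hx (h1 x hx)
  · exact Finset.prod_eq_one fun y _ => h2 y x hx

end aux

/-- For a nonprincipal ultrafilter p on ℕ and Tychonoff X: if C_p(X) is p-sequential, then every open ω-cover of X (X not a member) has a sequence Uₙ of members with {n : x ∈ Uₙ} ∈ p for every point x. -/
theorem result :
    ∀ (p : Ultrafilter ℕ), (p : Filter ℕ) ≤ Filter.cofinite →
    ∀ (X : Type) [TopologicalSpace X] [T35Space X],
      (∀ A : Set C(X, ℝ),
        (∀ (f : ℕ → C(X, ℝ)) (g : C(X, ℝ)), (∀ n, f n ∈ A) →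
          Filter.Tendsto f (p : Filter ℕ)
            (@nhds C(X, ℝ)
              (TopologicalSpace.induced (fun h : C(X, ℝ) => (h : X → ℝ)) Pi.topologicalSpace) g) →
          g ∈ A) →
        @IsClosed C(X, ℝ)
          (TopologicalSpace.induced (fun h : C(X, ℝ) => (h : X → ℝ)) Pi.topologicalSpace) A) →
      ∀ 𝒰 : Set (Set X), (∀ U ∈ 𝒰, IsOpen U) → (Set.univ : Set X) ∉ 𝒰 →
        (∀ F : Finset X, ∃ U ∈ 𝒰, (↑F : Set X) ⊆ U) →
        ∃ u : ℕ → Set X, (∀ n, u n ∈ 𝒰) ∧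
          ∀ x : X, ∀ᶠ n in (p : Filter ℕ), x ∈ u n := by
  classical
  intro p hp X _ _ hseq 𝒰 hopen _ hcov
  -- finitely many pointwise estimates at once
  have hfin : ∀ (f : ℕ → C(X, ℝ)) (g : C(X, ℝ)),
      (∀ x, Filter.Tendsto (fun n => f n x) (p : Filter ℕ) (𝓝 (g x))) →
      ∀ F : Finset X, ∀ ε : ℝ, 0 < ε → ∃ n, ∀ x ∈ F, |f n x - g x| < ε := by
    intro f g hfg F ε hε
    have h1 : ∀ x ∈ F, ∀ᶠ n in (p : Filter ℕ), |f n x - g x| < ε := by
      intro x _
      have := (Metric.tendsto_nhds.1 (hfg x)) ε hε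
      simpa [Real.dist_eq] using this
    have h2 : ∀ᶠ n in (p : Filter ℕ), ∀ x ∈ F, |f n x - g x| < ε :=
      (Filter.eventually_all_finset F).2 h1
    exact h2.exists
  -- Step 1: a countable ω-subcover
  have hU : ∃ U : ℕ → Set X, (∀ m, U m ∈ 𝒰) ∧ ∀ F : Finset X, ∃ m, (↑F : Set X) ⊆ U m := by
    let A₀ : Set C(X, ℝ) := {f | ∃ U ∈ 𝒰, ∀ x, x ∉ U → f x = 1}
    let B : Set C(X, ℝ) := {h | ∃ C : Set C(X, ℝ), C.Countable ∧ C ⊆ A₀ ∧ Cl C h}
    have hB : @IsClosed C(X, ℝ)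
        (TopologicalSpace.induced (fun h : C(X, ℝ) => (h : X → ℝ)) Pi.topologicalSpace) B := by
      apply hseq
      intro f g hf hlim
      choose C hCc hCA hCl using hf
      refine ⟨⋃ n, C n, countable_iUnion hCc, iUnion_subset hCA, ?_⟩
      intro F ε hε
      obtain ⟨n, hn⟩ := hfin f g (pointwise_lim _ f g hlim) F (ε / 2) (half_pos hε)
      obtain ⟨f', hf', hf''⟩ := hCl n F (ε / 2) (half_pos hε)
      refine ⟨f', mem_iUnion.2 ⟨n, hf'⟩, fun x hx => ?_⟩
      have h1 := hn x hx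
      have h2 := hf'' x hx
      calc |f' x - g x| = |(f' x - f n x) + (f n x - g x)| := by ring_nf
        _ ≤ |f' x - f n x| + |f n x - g x| := abs_add_le _ _
        _ < ε := by linarith
    have h0 : (0 : C(X, ℝ)) ∈ B := by
      apply closed_elim B hB
      intro F ε hε
      obtain ⟨U, hU, hFU⟩ := hcov F
      obtain ⟨φ, hφ0, hφF, hφU⟩ := bump U (hopen U hU) F hFU
      refine ⟨φ, ⟨{φ}, countable_singleton _, ?_, ?_⟩, fun x hx => ?_⟩
      · rintro _ rfl
        exact ⟨U, hU, hφU⟩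
      · intro F' ε' hε'
        exact ⟨φ, rfl, fun x _ => by simpa using hε'⟩
      · rw [hφF x hx]; simpa using hε
    obtain ⟨C, hCc, hCA, hCl⟩ := h0
    have hCne : C.Nonempty := by
      obtain ⟨f, hf, _⟩ := hCl ∅ 1 one_pos
      exact ⟨f, hf⟩
    obtain ⟨e, he⟩ := hCc.exists_eq_range hCne
    have h1 : ∀ m, ∃ U ∈ 𝒰, ∀ x, x ∉ U → e m x = 1 := fun m => hCA (by rw [he]; exact ⟨m, rfl⟩)
    choose U hU hU1 using h1
    refine ⟨U, hU, fun F => ?_⟩
    obtain ⟨f, hf, hfF⟩ := hCl F 1 one_pos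
    rw [he] at hf
    obtain ⟨m, rfl⟩ := hf
    refine ⟨m, fun x hx => ?_⟩
    by_contra hxU
    have h2 := hfF x hx
    rw [hU1 m x hxU] at h2
    simp at h2
  obtain ⟨U, hU, hUF⟩ := hU
  -- Step 2
  rcases isEmpty_or_nonempty X with hX | hX
  · exact ⟨U, hU, fun x => (hX.false x).elim⟩
  by_contra hcon
  let A : Set C(X, ℝ) := {f | ∃ n m : ℕ, m ≤ n ∧ (∀ x, 1 / ((n : ℝ) + 1) ≤ f x) ∧
    ∀ x, x ∉ U m → (n : ℝ) ≤ f x}
  have hA : @IsClosed C(X, ℝ)
      (TopologicalSpace.induced (fun h : C(X, ℝ) => (h : X → ℝ)) Pi.topologicalSpace) A := by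
    apply hseq
    intro f g hf hlim
    have hlim := pointwise_lim _ f g hlim
    choose n m hmn h1 h2 using hf
    by_cases hN : ∃ N, ∀ᶠ k in (p : Filter ℕ), n k ≤ N
    · obtain ⟨N, hN⟩ := hN
      have h3 : ∀ᶠ k in (p : Filter ℕ), ∃ a ∈ (Finset.range (N + 1) ×ˢ Finset.range (N + 1) :
          Finset (ℕ × ℕ)), (n k = a.1 ∧ m k = a.2) := by
        filter_upwards [hN] with k hk
        refine ⟨(n k, m k), ?_, rfl, rfl⟩
        rw [Finset.mem_product, Finset.mem_range, Finset.mem_range]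
        have := hmn k
        constructor
        · show n k < N + 1
          omega
        · show m k < N + 1
          omega
      have h4 : ∃ a : ℕ × ℕ, ∀ᶠ k in (p : Filter ℕ), (n k = a.1 ∧ m k = a.2) := by
        have h5 := (Ultrafilter.eventually_exists_mem_iff (f := p)
          (is := (↑(Finset.range (N + 1) ×ˢ Finset.range (N + 1) : Finset (ℕ × ℕ)) : Set (ℕ × ℕ)))
          (P := fun a k => n k = a.1 ∧ m k = a.2) (Finset.finite_toSet _)).1 h3
        obtain ⟨a, _, ha⟩ := h5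
        exact ⟨a, ha⟩
      obtain ⟨⟨a, b⟩, hab⟩ := h4
      refine ⟨a, b, ?_, fun x => ?_, fun x hx => ?_⟩
      · obtain ⟨k, hk⟩ := hab.exists
        have := hmn k
        rw [hk.1, hk.2] at this
        exact this
      · refine ge_of_tendsto (hlim x) ?_
        filter_upwards [hab] with k hk
        have := h1 k x
        rw [hk.1] at this
        exact this
      · refine ge_of_tendsto (hlim x) ?_
        filter_upwards [hab] with k hk
        have := h2 k x (by rw [hk.2]; exact hx)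
        rw [hk.1] at this
        exact this
    · exfalso
      push Not at hN
      apply hcon
      refine ⟨fun k => U (m k), fun k => hU _, fun x => ?_⟩
      obtain ⟨N, hNx⟩ := exists_nat_gt (g x + 1)
      have h3 : ∀ᶠ k in (p : Filter ℕ), N < n k := hN N
      have h4 : ∀ᶠ k in (p : Filter ℕ), f k x < g x + 1 :=
        (hlim x).eventually (gt_mem_nhds (by linarith))
      filter_upwards [h3, h4] with k hk3 hk4
      by_contra hx
      have h5 := h2 k x hx
      have h6 : (N : ℝ) < n k := by exact_mod_cast hk3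
      linarith
  have h0 : (0 : C(X, ℝ)) ∈ A := by
    apply closed_elim A hA
    intro F ε hε
    obtain ⟨m, hm⟩ := hUF F
    obtain ⟨N, hN⟩ := exists_nat_gt (1 / ε)
    obtain ⟨φ, hφ0, hφF, hφU⟩ := bump (U m) (hopen _ (hU m)) F hm
    let n := max m N
    refine ⟨⟨fun x => 1 / ((n : ℝ) + 1) + n * φ x, by fun_prop⟩, ⟨n, m, le_max_left _ _,
      fun x => ?_, fun x hx => ?_⟩, fun x hx => ?_⟩
    · show 1 / ((n : ℝ) + 1) ≤ 1 / ((n : ℝ) + 1) + n * φ x
      have : 0 ≤ (n : ℝ) * φ x := mul_nonneg (Nat.cast_nonneg n) (hφ0 x)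
      linarith
    · show (n : ℝ) ≤ 1 / ((n : ℝ) + 1) + n * φ x
      rw [hφU x hx, mul_one]
      have : 0 ≤ 1 / ((n : ℝ) + 1) := by positivity
      linarith
    · show |1 / ((n : ℝ) + 1) + n * φ x - 0| < ε
      rw [hφF x hx, mul_zero, add_zero, sub_zero, abs_of_nonneg (by positivity)]
      have hnN : (N : ℝ) ≤ n := by exact_mod_cast le_max_right m N
      rw [div_lt_iff₀ (by positivity)]
      rw [div_lt_iff₀ hε] at hN
      nlinarith
  obtain ⟨n, m, _, h1, _⟩ := h0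
  obtain ⟨x⟩ := hX
  have h2 := h1 x
  have h3 : (0 : ℝ) < 1 / ((n : ℝ) + 1) := by positivity
  have h4 : ((0 : C(X, ℝ)) x) = 0 := rfl
  rw [h4] at h2
  linarith

end Pool.Agent.S09249
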