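import Pool.Statements.S09266
import Mathlib

set_option autoImplicit false
universe u
open Pool Pool.MP_8bbda9_gt

namespace Pool.Agent.S09266

open Set Filter Topology Classical

abbrev Code := (ℕ × Bool) ⊕ ((ℕ → ℝ × ℝ) × (ℕ → Bool))

theorem exists_sigma : Nonempty (ℝ ≃ Code) := by
  rw [← Cardinal.eq]
  simp only [Code, Cardinal.mk_sum, Cardinal.mk_prod, Cardinal.lift_id, Cardinal.mk_pi,
    Cardinal.prod_const, Cardinal.mk_real, Cardinal.mk_bool, Cardinal.mk_nat]
  simp

noncomputable def sg : ℝ ≃ Code := Classical.choice exists_sigma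

noncomputable def xv (r : ℝ) (d : ℝ × ℝ) : Bool :=
  match sg r with
  | Sum.inl _ => decide (d.1 = r)
  | Sum.inr (e, v) => if h : ∃ n, e n = d then v (Nat.find h) else decide (d.1 = r)

/-- countable set of modified coordinates -/
noncomputable def J (r : ℝ) : Set (ℝ × ℝ) :=
  match sg r with
  | Sum.inl _ => ∅
  | Sum.inr (e, _) => Set.range e

theorem J_countable (r : ℝ) : (J r).Countable := by
  unfold J
  rcases sg r with _ | ⟨e, v⟩
  · exact Set.countable_empty
  · exact Set.countable_range e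

theorem xv_off (r : ℝ) (d : ℝ × ℝ) (h : d ∉ J r) : xv r d = decide (d.1 = r) := by
  unfold J at h
  unfold xv
  rcases hs : sg r with _ | ⟨e, v⟩
  · rfl
  · rw [hs] at h
    simp only [Set.mem_range] at h
    simp only [dif_neg h]

noncomputable def an (n : ℕ) : ℝ := sg.symm (Sum.inl (n, false))
noncomputable def bn (n : ℕ) : ℝ := sg.symm (Sum.inl (n, true))

theorem an_inj : Function.Injective an := by
  intro m n h
  have := sg.symm.injective h
  simpa using this

theorem bn_inj : Function.Injective bn := by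
  intro m n h
  have := sg.symm.injective h
  simpa using this

theorem an_ne_bn (m n : ℕ) : an m ≠ bn n := by
  intro h
  have := sg.symm.injective h
  simp at this

theorem xv_an (n : ℕ) (d : ℝ × ℝ) : xv (an n) d = decide (d.1 = an n) := by
  unfold xv an
  simp

theorem xv_bn (n : ℕ) (d : ℝ × ℝ) : xv (bn n) d = decide (d.1 = bn n) := by
  unfold xv bn
  simp

theorem exists_pt (K : Set (ℝ × ℝ)) (hK : K.Countable) (v : ℝ × ℝ → Bool) :
    ∃ r : ℝ, ∀ d ∈ K, xv r d = v d := by
  rcases K.eq_empty_or_nonempty with rfl | hne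
  · exact ⟨0, by simp⟩
  · obtain ⟨e, he⟩ := hK.exists_eq_range hne
    refine ⟨sg.symm (Sum.inr (e, v ∘ e)), ?_⟩
    intro d hd
    rw [he] at hd
    obtain ⟨n, hn⟩ := hd
    unfold xv
    have h : ∃ n, e n = d := ⟨n, hn⟩
    simp only [Equiv.apply_symm_apply, dif_pos h, Function.comp]
    rw [Nat.find_spec h]

def XX : Type u := ULift.{u} ℝ

noncomputable def ev (p : XX.{u}) : ℝ × ℝ → Bool := xv (ULift.down p)

noncomputable instance : TopologicalSpace XX.{u} := TopologicalSpace.induced ev inferInstance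

theorem ev_cont : Continuous ev.{u} := continuous_induced_dom

theorem sep (C : Set ℝ) (hC : C.Countable) (r : ℝ) (hr : r ∉ C) :
    ∃ s : ℝ, xv r (r, s) = true ∧ ∀ c ∈ C, xv c (r, s) = false := by
  have h1 : (J r ∪ ⋃ c ∈ C, J c).Countable :=
    (J_countable r).union (hC.biUnion fun c _ => J_countable c)
  have h2 : ∃ s : ℝ, (r, s) ∉ (J r ∪ ⋃ c ∈ C, J c) := by
    by_contra hcon
    push Not at hcon
    have h3 : (Set.univ : Set ℝ) ⊆ (fun s : ℝ => ((r, s) : ℝ × ℝ)) ⁻¹' (J r ∪ ⋃ c ∈ C, J c) := by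
      intro s _
      exact hcon s
    have h4 : ((fun s : ℝ => ((r, s) : ℝ × ℝ)) ⁻¹' (J r ∪ ⋃ c ∈ C, J c)).Countable := by
      apply h1.preimage_of_injOn
      intro s _ s' _ h
      simpa using h
    exact Cardinal.not_countable_real (h4.mono h3)
  obtain ⟨s, hs⟩ := h2
  refine ⟨s, ?_, ?_⟩
  · rw [xv_off r _ (fun h => hs (Or.inl h))]
    simp
  · intro c hc
    rw [xv_off c _ (fun h => hs (Or.inr (by simp only [Set.mem_iUnion]; exact ⟨c, hc, h⟩)))]
    simp only [decide_eq_false_iff_not]
    rintro rfl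
    exact hr hc

theorem ev_inj : Function.Injective ev.{u} := by
  intro p q h
  by_contra hne
  have hne' : p.down ≠ q.down := fun h' => hne (ULift.ext _ _ h')
  obtain ⟨s, h1, h2⟩ := sep {q.down} (Set.countable_singleton _) p.down hne'
  have h3 := h2 q.down rfl
  have h4 := congrFun h (p.down, s)
  unfold ev at h4
  rw [h1, h3] at h4
  exact absurd h4 (by simp)

theorem ev_emb : IsEmbedding ev.{u} := ⟨⟨rfl⟩, ev_inj⟩

instance : T35Space XX.{u} := ev_emb.t35Space

theorem XX_closed (C : Set XX.{u}) (hC : C.Countable) : IsClosed C := by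
  rw [← isOpen_compl_iff, isOpen_iff_mem_nhds]
  intro p hp
  obtain ⟨s, h1, h2⟩ := sep (ULift.down '' C) (hC.image _) p.down (by
    rintro ⟨q, hq, hqp⟩
    have : q = p := ULift.ext _ _ hqp
    subst this
    exact hp hq)
  have h3 : IsOpen {q : XX.{u} | ev q (p.down, s) = true} := by
    have : Continuous (fun q : XX.{u} => ev q (p.down, s)) := (continuous_apply _).comp ev_cont
    exact (isOpen_discrete ({true} : Set Bool)).preimage this
  refine mem_of_superset (h3.mem_nhds h1) ?_
  intro q hq hqC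
  have := h2 q.down ⟨q, hqC, rfl⟩
  rw [Set.mem_ofPred_eq] at hq
  unfold ev at hq
  rw [hq] at this
  exact absurd this (by simp)

theorem cont_fin (f : XX.{u} → ℝ) (hf : Continuous f) (p : XX.{u}) (ε : ℝ) (hε : 0 < ε) :
    ∃ F : Finset (ℝ × ℝ), ∀ q : XX.{u}, (∀ d ∈ F, ev q d = ev p d) → |f q - f p| < ε := by
  have h1 : IsOpen {q : XX.{u} | |f q - f p| < ε} :=
    isOpen_lt (by fun_prop) continuous_const
  obtain ⟨U, hU, hU2⟩ := isOpen_induced_iff.mp h1
  have hp : ev p ∈ U := by
    have : p ∈ ev ⁻¹' U := by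
      rw [hU2]
      simp [hε]
    exact this
  obtain ⟨I, w, hw, hI⟩ := isOpen_pi_iff.mp hU _ hp
  refine ⟨I, fun q hq => ?_⟩
  have : q ∈ ev ⁻¹' U := by
    apply hI
    intro d hd
    show ev q d ∈ w d
    rw [hq d hd]
    exact (hw d hd).2
  rw [hU2] at this
  exact this

noncomputable def A (n : ℕ) : XX.{u} := ULift.up (an n)
noncomputable def B (n : ℕ) : XX.{u} := ULift.up (bn n)

theorem ev_A (n : ℕ) (d : ℝ × ℝ) : ev (A.{u} n) d = decide (d.1 = an n) := xv_an n d
theorem ev_B (n : ℕ) (d : ℝ × ℝ) : ev (B.{u} n) d = decide (d.1 = bn n) := xv_bn n d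

theorem ev_false (F : Finset (ℝ × ℝ)) (a : ℕ → ℝ) (ha : Function.Injective a) :
    ∀ᶠ n in atTop, ∀ d ∈ F, d.1 ≠ a n := by
  rw [Filter.eventually_all_finset]
  intro d _
  have h1 : Tendsto a cofinite cofinite := ha.tendsto_cofinite
  rw [Nat.cofinite_eq_atTop] at h1
  have h2 : ∀ᶠ y in (cofinite : Filter ℝ), d.1 ≠ y := by
    have := (Set.finite_singleton d.1).compl_mem_cofinite
    filter_upwards [this] with y hy h
    exact hy h.symm
  exact h1.eventually h2

theorem key (f : XX.{u} → ℝ) (hf : Continuous f) :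
    Tendsto (fun n => f (A n) - f (B n)) atTop (𝓝 0) := by
  rw [Metric.tendsto_atTop']
  intro ε hε
  choose F hF using fun n => cont_fin f hf (A n) (ε / 4) (by positivity)
  choose G hG using fun n => cont_fin f hf (B n) (ε / 4) (by positivity)
  obtain ⟨r0, hr0⟩ := exists_pt ((⋃ n, (F n : Set (ℝ × ℝ))) ∪ ⋃ n, (G n : Set (ℝ × ℝ)))
    ((Set.countable_iUnion fun n => (F n).countable_toSet).union
      (Set.countable_iUnion fun n => (G n).countable_toSet)) (fun _ => false)
  obtain ⟨Fx, hFx⟩ := cont_fin f hf (ULift.up r0 : XX.{u}) (ε / 4) (by positivity)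
  obtain ⟨N, hN⟩ := eventually_atTop.mp ((ev_false Fx an an_inj).and (ev_false Fx bn bn_inj))
  refine ⟨N, fun n hn => ?_⟩
  obtain ⟨ha, hb⟩ := hN n hn.le
  obtain ⟨u, hu⟩ := exists_pt ((F n : Set (ℝ × ℝ)) ∪ (Fx : Set (ℝ × ℝ)))
    ((F n).countable_toSet.union Fx.countable_toSet)
    (fun d => if d ∈ F n then xv (an n) d else xv r0 d)
  obtain ⟨v, hv⟩ := exists_pt ((G n : Set (ℝ × ℝ)) ∪ (Fx : Set (ℝ × ℝ)))
    ((G n).countable_toSet.union Fx.countable_toSet)
    (fun d => if d ∈ G n then xv (bn n) d else xv r0 d)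
  have h1 := hF n (ULift.up u) (by
    intro d hd
    show xv u d = xv (an n) d
    rw [hu d (Or.inl hd)]
    simp [hd])
  have h2 := hFx (ULift.up u) (by
    intro d hd
    show xv u d = xv r0 d
    rw [hu d (Or.inr hd)]
    by_cases hdF : d ∈ F n
    · have h3 := hr0 d (Or.inl (Set.mem_iUnion.mpr ⟨n, hdF⟩))
      simp only [hdF, if_true]
      rw [h3, xv_an]
      simp [ha d hd]
    · simp [hdF])
  have h3 := hG n (ULift.up v) (by
    intro d hd
    show xv v d = xv (bn n) d
    rw [hv d (Or.inl hd)]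
    simp [hd])
  have h4 := hFx (ULift.up v) (by
    intro d hd
    show xv v d = xv r0 d
    rw [hv d (Or.inr hd)]
    by_cases hdF : d ∈ G n
    · have h3 := hr0 d (Or.inr (Set.mem_iUnion.mpr ⟨n, hdF⟩))
      simp only [hdF, if_true]
      rw [h3, xv_bn]
      simp [hb d hd]
    · simp [hdF])
  rw [Real.dist_eq, sub_zero]
  rw [abs_lt] at *
  constructor <;> linarith [h1.1, h1.2, h2.1, h2.2, h3.1, h3.2, h4.1, h4.2]

/-- The extension operator `c_0 → C(X)`. -/
noncomputable def RR (t : ℕ → ℝ) (q : XX.{u}) : ℝ :=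
  if h : ∃ n, ev q (an n, 0) = true then t (Nat.find h) else 0

theorem RR_A (t : ℕ → ℝ) (n : ℕ) : RR.{u} t (A n) = t n := by
  unfold RR
  have h : ∃ m, ev (A.{u} n) (an m, 0) = true := ⟨n, by rw [ev_A]; simp⟩
  rw [dif_pos h]
  congr 1
  have h2 := Nat.find_spec h
  rw [ev_A] at h2
  simp only [decide_eq_true_eq] at h2
  exact an_inj h2

theorem RR_B (t : ℕ → ℝ) (n : ℕ) : RR.{u} t (B n) = 0 := by
  unfold RR
  rw [dif_neg]
  rintro ⟨m, hm⟩
  rw [ev_B] at hm
  simp only [decide_eq_true_eq] at hm
  exact an_ne_bn m n hm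

theorem RR_cont (t : ℕ → ℝ) (ht : Tendsto t atTop (𝓝 0)) : Continuous (RR.{u} t) := by
  have hc : ∀ n, Continuous (fun q : XX.{u} => ev q (an n, 0)) :=
    fun n => (continuous_apply _).comp ev_cont
  have hev : ∀ (q : XX.{u}) (N : ℕ), ∀ᶠ p in 𝓝 q, ∀ n ∈ Finset.range N, 
      ev p (an n, 0) = ev q (an n, 0) := by
    intro q N
    rw [Filter.eventually_all_finset]
    intro n _
    have h1 : IsOpen {p : XX.{u} | ev p (an n, 0) = ev q (an n, 0)} :=
      (isOpen_discrete ({ev q (an n, 0)} : Set Bool)).preimage (hc n)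
    exact h1.mem_nhds rfl
  rw [continuous_iff_continuousAt]
  intro q
  by_cases h : ∃ n, ev q (an n, 0) = true
  · have : ∀ᶠ p in 𝓝 q, RR t p = RR t q := by
      filter_upwards [hev q (Nat.find h + 1)] with p hp
      have h' : ∃ n, ev p (an n, 0) = true := ⟨Nat.find h, by
        rw [hp _ (by simp)]
        exact Nat.find_spec h⟩
      unfold RR
      rw [dif_pos h, dif_pos h']
      congr 1
      rw [Nat.find_eq_iff]
      refine ⟨by rw [hp _ (by simp)]; exact Nat.find_spec h, ?_⟩
      intro n hn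
      rw [hp n (Finset.mem_range.mpr (Nat.lt_succ_of_lt hn))]
      exact Nat.find_min h hn
    exact (continuousAt_congr this).mpr continuousAt_const
  · have h0 : RR t q = 0 := by
      unfold RR
      rw [dif_neg h]
    rw [Metric.continuousAt_iff'] 
    intro ε hε
    rw [Metric.tendsto_atTop] at ht
    obtain ⟨N, hN⟩ := ht ε hε
    filter_upwards [hev q N] with p hp
    rw [h0]
    by_cases h' : ∃ n, ev p (an n, 0) = true
    · unfold RR
      rw [dif_pos h']
      apply hN
      by_contra hlt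
      push Not at hlt
      have h5 := hp _ (Finset.mem_range.mpr hlt)
      rw [Nat.find_spec h'] at h5
      exact h ⟨_, h5.symm⟩
    · unfold RR
      rw [dif_neg h']
      simpa using hε

theorem RR_sub_eval (q : XX.{u}) : (∃ n, ∀ t : ℕ → ℝ, RR t q = t n) ∨ (∀ t : ℕ → ℝ, RR t q = 0) := by
  by_cases h : ∃ n, ev q (an n, 0) = true
  · left
    exact ⟨Nat.find h, fun t => by unfold RR; rw [dif_pos h]⟩
  · right
    intro t
    unfold RR
    rw [dif_neg h]

noncomputable def PP (f : XX.{u} → ℝ) (n : ℕ) : ℝ := f (A n) - f (B n)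

abbrev YY : Type u := XX.{u} ⊕ OnePoint ℕ

noncomputable def fwd (f : XX.{u} → ℝ) : YY.{u} → ℝ
  | Sum.inl q => f q - RR (PP f) q + RR (fun n => PP f (2 * n + 1)) q
  | Sum.inr z => PP f 0 + z.elim 0 (fun n => PP f (2 * n + 2))

noncomputable def sq (g : YY.{u} → ℝ) : ℕ → ℝ
  | 0 => g (Sum.inr OnePoint.infty)
  | (m + 1) => if m % 2 = 0 then PP (fun q => g (Sum.inl q)) (m / 2)
      else g (Sum.inr ((m / 2 : ℕ) : OnePoint ℕ)) - g (Sum.inr OnePoint.infty)

noncomputable def bwd (g : YY.{u} → ℝ) (q : XX.{u}) : ℝ :=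
  g (Sum.inl q) - RR (PP (fun q => g (Sum.inl q))) q + RR (sq g) q

theorem RR_sub (s t : ℕ → ℝ) (q : XX.{u}) : RR (fun n => s n - t n) q = RR s q - RR t q := by
  rcases RR_sub_eval q with ⟨n, hn⟩ | hn
  · rw [hn, hn, hn]
  · rw [hn, hn, hn]; ring

theorem PP_fwd (f : XX.{u} → ℝ) (n : ℕ) :
    PP (fun q => fwd f (Sum.inl q)) n = PP f (2 * n + 1) := by
  simp only [PP, fwd, RR_A, RR_B]
  ring

theorem sq_fwd (f : XX.{u} → ℝ) : sq (fwd f) = PP f := by
  funext m
  rcases m with _ | m
  · simp [sq, fwd]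
  · simp only [sq]
    split_ifs with h
    · rw [PP_fwd]
      congr 1
      omega
    · simp only [fwd, OnePoint.elim_some, OnePoint.elim_infty]
      have : 2 * (m / 2) + 2 = m + 1 := by omega
      rw [this]
      ring

theorem bwd_fwd (f : XX.{u} → ℝ) : bwd (fwd f) = f := by
  funext q
  unfold bwd
  rw [sq_fwd]
  have : PP (fun q => fwd f (Sum.inl q)) = fun n => PP f (2 * n + 1) := by
    funext n
    exact PP_fwd f n
  rw [this]
  simp only [fwd]
  ring

theorem PP_bwd (g : YY.{u} → ℝ) : PP (bwd g) = sq g := by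
  funext n
  simp only [PP, bwd, RR_A, RR_B]
  ring

theorem fwd_bwd (g : YY.{u} → ℝ) : fwd (bwd g) = g := by
  funext z
  rcases z with q | z
  · simp only [fwd, PP_bwd]
    have : (fun n => sq g (2 * n + 1)) = PP (fun q => g (Sum.inl q)) := by
      funext n
      simp only [sq]
      rw [if_pos (by omega)]
      congr 1
      omega
    rw [this]
    unfold bwd
    ring
  · simp only [fwd, PP_bwd]
    induction z using OnePoint.rec with
    | infty => simp [sq]
    | coe n =>
      simp only [OnePoint.elim_some, sq]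
      rw [if_neg (by omega)]
      have : (2 * n + 1) / 2 = n := by omega
      rw [this]
      ring

theorem PP_tendsto (f : XX.{u} → ℝ) (hf : Continuous f) : Tendsto (PP f) atTop (𝓝 0) := key f hf

theorem fwd_cont (f : XX.{u} → ℝ) (hf : Continuous f) : Continuous (fwd f) := by
  rw [continuous_sum_dom]
  have hP := PP_tendsto f hf
  have h1 : Tendsto (fun n : ℕ => 2 * n + 1) atTop atTop :=
    tendsto_atTop_mono (fun n => by simp only [id]; omega) tendsto_id
  have h2 : Tendsto (fun n : ℕ => 2 * n + 2) atTop atTop :=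
    tendsto_atTop_mono (fun n => by simp only [id]; omega) tendsto_id
  constructor
  · show Continuous (fun q => f q - RR (PP f) q + RR (fun n => PP f (2 * n + 1)) q)
    exact (hf.sub (RR_cont _ hP)).add (RR_cont _ (hP.comp h1))
  · rw [OnePoint.continuous_iff_from_nat]
    simp only [Function.comp, fwd, OnePoint.elim_some, OnePoint.elim_infty]
    exact (tendsto_const_nhds).add (hP.comp h2)

theorem sq_tendsto (g : YY.{u} → ℝ) (hg : Continuous g) : Tendsto (sq g) atTop (𝓝 0) := by
  rw [continuous_sum_dom] at hg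
  obtain ⟨hg1, hg2⟩ := hg
  have hP := PP_tendsto _ hg1
  rw [OnePoint.continuous_iff_from_nat] at hg2
  rw [Metric.tendsto_atTop] at *
  intro ε hε
  obtain ⟨N1, h1⟩ := hP ε hε
  obtain ⟨N2, h2⟩ := hg2 ε hε
  refine ⟨2 * (N1 + N2) + 2, fun m hm => ?_⟩
  obtain ⟨m, rfl⟩ : ∃ k, m = k + 1 := ⟨m - 1, by omega⟩
  simp only [sq]
  split_ifs with h
  · exact h1 _ (by omega)
  · have := h2 (m / 2) (by omega)
    simpa [Real.dist_eq] using this

theorem bwd_cont (g : YY.{u} → ℝ) (hg : Continuous g) : Continuous (bwd g) := by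
  have h0 := sq_tendsto g hg
  have hg1 : Continuous (fun q : XX.{u} => g (Sum.inl q)) := hg.comp continuous_inl
  exact (hg1.sub (RR_cont _ (PP_tendsto _ hg1))).add (RR_cont _ h0)

noncomputable def homeo : {f : XX.{u} → ℝ // Continuous f} ≃ₜ {g : YY.{u} → ℝ // Continuous g} where
  toFun f := ⟨fwd f.1, fwd_cont f.1 f.2⟩
  invFun g := ⟨bwd g.1, bwd_cont g.1 g.2⟩
  left_inv f := Subtype.ext (bwd_fwd f.1)
  right_inv g := Subtype.ext (fwd_bwd g.1)
  continuous_toFun := by
    apply Continuous.subtype_mk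
    have hev : ∀ q : XX.{u}, Continuous (fun f : {f : XX.{u} → ℝ // Continuous f} => f.1 q) :=
      fun q => (continuous_apply q).comp continuous_subtype_val
    have hP : ∀ n, Continuous (fun f : {f : XX.{u} → ℝ // Continuous f} => PP f.1 n) :=
      fun n => (hev _).sub (hev _)
    apply continuous_pi
    intro z
    rcases z with q | z
    · simp only [fwd]
      rcases RR_sub_eval q with ⟨n, hn⟩ | hn
      · simp only [hn]
        exact ((hev q).sub (hP _)).add (hP _)
      · simp only [hn]
        exact ((hev q).sub continuous_const).add continuous_const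
    · simp only [fwd]
      refine (hP 0).add ?_
      induction z using OnePoint.rec with
      | infty => simp only [OnePoint.elim_infty]; exact continuous_const
      | coe n => simp only [OnePoint.elim_some]; exact hP _
  continuous_invFun := by
    apply Continuous.subtype_mk
    have hev : ∀ q : YY.{u}, Continuous (fun f : {f : YY.{u} → ℝ // Continuous f} => f.1 q) :=
      fun q => (continuous_apply q).comp continuous_subtype_val
    have hP : ∀ n, Continuous (fun f : {f : YY.{u} → ℝ // Continuous f} =>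
        PP (fun q => f.1 (Sum.inl q)) n) :=
      fun n => (hev _).sub (hev _)
    have hS : ∀ n, Continuous (fun f : {f : YY.{u} → ℝ // Continuous f} => sq f.1 n) := by
      intro n
      rcases n with _ | m
      · exact hev _
      · simp only [sq]
        split_ifs
        · exact hP _
        · exact (hev _).sub (hev _)
    apply continuous_pi
    intro q
    simp only [bwd]
    rcases RR_sub_eval q with ⟨n, hn⟩ | hn
    · simp only [hn]
      exact ((hev _).sub (hP _)).add (hS _)
    · simp only [hn]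
      exact ((hev _).sub continuous_const).add continuous_const

instance : CompletelyRegularSpace YY.{u} := by
  constructor
  intro x K hK hx
  rcases x with q | z
  · obtain ⟨f, hf, h0, h1⟩ := CompletelyRegularSpace.completely_regular q (Sum.inl ⁻¹' K)
      (hK.preimage continuous_inl) hx
    refine ⟨Sum.elim f (fun _ => 1), ?_, h0, ?_⟩
    · exact continuous_sum_dom.mpr ⟨hf, continuous_const⟩
    · rintro (p | p) hp
      · exact h1 hp
      · rfl
  · obtain ⟨f, hf, h0, h1⟩ := CompletelyRegularSpace.completely_regular z (Sum.inr ⁻¹' K)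
      (hK.preimage continuous_inr) hx
    refine ⟨Sum.elim (fun _ => 1) f, ?_, h0, ?_⟩
    · exact continuous_sum_dom.mpr ⟨continuous_const, hf⟩
    · rintro (p | p) hp
      · rfl
      · exact h1 hp

instance : T35Space YY.{u} := { }

/-- The negation of the preceding statement: For Tychonoff spaces X and Y whose spaces of continuous real functions with the pointwise topology are homeomorphic, if every countable subset of X is closed, then every countable subset of Y is closed. -/
theorem result :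
    ¬ (∀ (X Y : Type u) [TopologicalSpace X] [TopologicalSpace Y] [T35Space X] [T35Space Y],
      Nonempty ({f : X → ℝ // Continuous f} ≃ₜ {g : Y → ℝ // Continuous g}) →
      (∀ s : Set X, s.Countable → IsClosed s) →
      ∀ t : Set Y, t.Countable → IsClosed t) := by
  intro H
  have h1 := H XX.{u} YY.{u} ⟨homeo⟩ XX_closed
    (Set.range (fun n : ℕ => (Sum.inr (n : OnePoint ℕ) : YY.{u}))) (Set.countable_range _)
  have h2 : Tendsto (fun n : ℕ => (n : OnePoint ℕ)) atTop (𝓝 OnePoint.infty) := by
    have := (OnePoint.continuous_iff_from_nat (fun x : OnePoint ℕ => x)).mp continuous_id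
    exact this
  have h3 : Tendsto (fun n : ℕ => (Sum.inr (n : OnePoint ℕ) : YY.{u})) atTop
      (𝓝 (Sum.inr OnePoint.infty)) := (continuous_inr.tendsto _).comp h2
  have h4 := h1.mem_of_tendsto h3 (Eventually.of_forall fun n => ⟨n, rfl⟩)
  obtain ⟨n, hn⟩ := h4
  have h5 : (n : OnePoint ℕ) = OnePoint.infty := Sum.inr.inj hn
  exact OnePoint.coe_ne_infty n h5

end Pool.Agent.S09266
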