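import Pool.Statements.S09335

set_option autoImplicit false
open Pool Pool.MP_9c5b30_gt

namespace Pool.Agent.S09335

open Set Topology Filter

/-- `T` is continuous for the topologies of pointwise convergence -/
def PC {X Y : Type} [TopologicalSpace X] [TopologicalSpace Y] (T : C(X, ℝ) →ₗ[ℝ] C(Y, ℝ)) : Prop :=
  @Continuous C(X, ℝ) (Y → ℝ)
            (TopologicalSpace.induced (fun g : C(X, ℝ) => (g : X → ℝ))
              (inferInstance : TopologicalSpace (X → ℝ)))
            (inferInstance : TopologicalSpace (Y → ℝ))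
            (fun g => ((T g : C(Y, ℝ)) : Y → ℝ))

theorem bump {X : Type} [TopologicalSpace X] [T35Space X] (s : Finset X) (x : X) :
    ∃ e : C(X, ℝ), e x = 1 ∧ ∀ z ∈ s, z ≠ x → e z = 0 := by
  classical
  have hK : IsClosed ((s.erase x : Finset X) : Set X) := (s.erase x).finite_toSet.isClosed
  obtain ⟨f, hf, hfx, hfK⟩ := CompletelyRegularSpace.completely_regular x _ hK (by simp)
  refine ⟨⟨fun z => 1 - (f z : ℝ), by fun_prop⟩, ?_, ?_⟩
  · show 1 - (f x : ℝ) = 1
    rw [hfx]
    simp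
  · intro z hz hzx
    have h1 := hfK (show z ∈ ((s.erase x : Finset X) : Set X) by simp [hz, hzx])
    show 1 - (f z : ℝ) = 0
    rw [h1]
    simp

/-- pointwise continuous functionals have finite support -/
theorem rep {X Y : Type} [TopologicalSpace X] [T35Space X] [TopologicalSpace Y]
    (T : C(X, ℝ) →ₗ[ℝ] C(Y, ℝ)) (hT : PC T) (y : Y) :
    ∃ (s : Finset X) (l : X → ℝ), ∀ f, T f y = ∑ x ∈ s, l x * f x := by
  classical
  have hopen : IsOpen {g : Y → ℝ | |g y| < 1} :=
    isOpen_lt (continuous_apply y).abs continuous_const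
  have h1 := @Continuous.isOpen_preimage _ _ (TopologicalSpace.induced (fun g : C(X, ℝ) => (g : X → ℝ))
              (inferInstance : TopologicalSpace (X → ℝ))) _ _ hT _ hopen
  obtain ⟨O, hO, hOe⟩ := isOpen_induced_iff.1 h1
  have h0 : ((0 : C(X, ℝ)) : X → ℝ) ∈ O := by
    have : (0 : C(X, ℝ)) ∈ (fun g : C(X, ℝ) => (g : X → ℝ)) ⁻¹' O := by
      rw [hOe]
      show |T 0 y| < 1
      rw [map_zero]
      simp
    exact this
  obtain ⟨s, w, hw, hs⟩ := isOpen_pi_iff.1 hO _ h0
  have h2 : ∀ f : C(X, ℝ), (∀ x ∈ s, f x = 0) → |T f y| < 1 := by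
    intro f hf
    have : f ∈ (fun g : C(X, ℝ) => (g : X → ℝ)) ⁻¹' O := by
      apply hs
      intro x hx
      show f x ∈ w x
      rw [hf x hx]
      exact (hw x hx).2
    rw [hOe] at this
    exact this
  have h3 : ∀ f : C(X, ℝ), (∀ x ∈ s, f x = 0) → T f y = 0 := by
    intro f hf
    by_contra hne
    have h4 := h2 ((1 / T f y) • f) (fun x hx => by
      show (1 / T f y) * f x = 0
      rw [hf x hx, mul_zero])
    rw [map_smul] at h4
    have h5 : ((1 / T f y) • T f) y = 1 := by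
      show (1 / T f y) * T f y = 1
      field_simp
    rw [h5] at h4
    simp at h4
  choose e he1 he2 using bump s
  refine ⟨s, fun x => T (e x) y, fun f => ?_⟩
  have h6 : T (f - ∑ x ∈ s, f x • e x) y = 0 := by
    apply h3
    intro z hz
    have h7 : (∑ x ∈ s, f x • e x) z = f z := by
      rw [ContinuousMap.sum_apply, Finset.sum_eq_single z]
      · show f z * e z z = f z
        rw [he1, mul_one]
      · intro x _ hxz
        show f x * e x z = 0
        rw [he2 x z hz hxz.symm, mul_zero]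
      · intro h; exact absurd hz h
    show f z - (∑ x ∈ s, f x • e x) z = 0
    rw [h7, sub_self]
  rw [map_sub, map_sum] at h6
  have h8 : T f y = (∑ x ∈ s, T (f x • e x)) y := by
    have : (T f - ∑ x ∈ s, T (f x • e x)) y = T f y - (∑ x ∈ s, T (f x • e x)) y := rfl
    rw [this] at h6
    linarith
  rw [h8, ContinuousMap.sum_apply]
  apply Finset.sum_congr rfl
  intro x _
  rw [map_smul]
  show f x * T (e x) y = T (e x) y * f x
  ring

/-- the recursion -/
noncomputable def cseq (a : ℕ → ℕ → ℝ) : ℕ → ℝ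
  | j => ((j:ℝ) - ∑ i : Fin j, cseq a i.1 * a i.1 j) / a j j
termination_by j => j
decreasing_by exact i.2

theorem cseq_spec (a : ℕ → ℕ → ℝ) (ha : ∀ j, a j j ≠ 0) (j : ℕ) :
    ∑ i ∈ Finset.range (j+1), cseq a i * a i j = j := by
  rw [Finset.sum_range_succ]
  have h1 : cseq a j = ((j:ℝ) - ∑ i : Fin j, cseq a i.1 * a i.1 j) / a j j := by
    conv_lhs => rw [cseq]
  have h2 : ∑ i : Fin j, cseq a i.1 * a i.1 j = ∑ i ∈ Finset.range j, cseq a i * a i j :=
    Fin.sum_univ_eq_sum_range (fun i => cseq a i * a i j) j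
  rw [h1, h2, div_mul_cancel₀ _ (ha j)]
  ring

/-- pseudocompactness is preserved -/
theorem pseudo {X Y : Type} [TopologicalSpace X] [TopologicalSpace Y] [T35Space Y]
    (T : C(Y, ℝ) →ₗ[ℝ] C(X, ℝ)) (hT : PC T) (hinj : Function.Injective T)
    (hX : ∀ f : C(X, ℝ), ∃ M : ℝ, ∀ x, |f x| ≤ M) (g : C(Y, ℝ)) : ∃ M : ℝ, ∀ y, |g y| ≤ M := by
  classical
  by_contra hcon
  push Not at hcon
  choose y hy using fun n : ℕ => hcon n
  let b : ℕ → C(Y, ℝ) := fun n => ⟨fun z => max 0 (1 - |(|g z| - |g (y n)|)|), by fun_prop⟩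
  have hb0 : ∀ (n : ℕ) (z : Y), |g z| + 1 ≤ (n : ℝ) → b n z = 0 := by
    intro n z h
    have h1 := hy n
    show max 0 (1 - |(|g z| - |g (y n)|)|) = 0
    apply max_eq_left
    have h2 : |(|g z| - |g (y n)|)| = |g (y n)| - |g z| := by
      rw [abs_sub_comm, abs_of_nonneg]
      linarith
    rw [h2]
    linarith
  have hb1 : ∀ n, b n (y n) = 1 := by
    intro n
    show max 0 (1 - |(|g (y n)| - |g (y n)|)|) = 1
    simp
  have hTb : ∀ n, ∃ x, T (b n) x ≠ 0 := by
    intro n
    by_contra hc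
    push Not at hc
    have h1 : T (b n) = 0 := by
      ext x
      exact hc x
    have h2 : b n = 0 := hinj (by rw [h1, map_zero])
    have h3 := hb1 n
    rw [h2] at h3
    simp at h3
  choose x hx using hTb
  -- vanishing far out
  have hN : ∀ z : X, ∃ N : ℕ, ∀ n, N ≤ n → T (b n) z = 0 := by
    intro z
    obtain ⟨s, l, hl⟩ := rep T hT z
    obtain ⟨N, hN⟩ := exists_nat_ge (∑ w ∈ s, |g w| + 1)
    refine ⟨N, fun n hn => ?_⟩
    rw [hl]
    apply Finset.sum_eq_zero
    intro w hw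
    have h1 : |g w| ≤ ∑ w ∈ s, |g w| := Finset.single_le_sum (f := fun w => |g w|) (fun i _ => abs_nonneg _) hw
    have h2 : (N : ℝ) ≤ n := by exact_mod_cast hn
    rw [hb0 n w (by linarith), mul_zero]
  choose N hN using hN
  -- the subsequence
  let k : ℕ → ℕ := fun i => Nat.rec 0 (fun _ m => m + 1 + N (x m)) i
  have hk : ∀ i, k (i+1) = k i + 1 + N (x (k i)) := fun i => rfl
  have hkm : StrictMono k := by
    apply strictMono_nat_of_lt_succ
    intro i
    rw [hk]
    omega
  clear_value k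
  have htri : ∀ i j, j < i → T (b (k i)) (x (k j)) = 0 := by
    intro i j hji
    apply hN
    have h1 : k (j+1) ≤ k i := hkm.monotone hji
    rw [hk] at h1
    omega
  let a : ℕ → ℕ → ℝ := fun i j => T (b (k i)) (x (k j))
  have ha : ∀ j, a j j ≠ 0 := fun j => hx (k j)
  let c := cseq a
  have hlf : LocallyFinite (fun i : ℕ => Function.support (fun z : Y => c i * b (k i) z)) := by
    intro z
    refine ⟨{w | |g w| < |g z| + 1}, ?_, ?_⟩
    · have : IsOpen {w | |g w| < |g z| + 1} := isOpen_lt (by fun_prop) continuous_const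
      exact this.mem_nhds (by show |g z| < |g z| + 1; linarith)
    · obtain ⟨M, hM⟩ := exists_nat_ge (|g z| + 2)
      apply (Set.finite_Iio M).subset
      rintro i ⟨w, hw1, hw2⟩
      by_contra hcon2
      have h1 : M ≤ i := not_lt.1 hcon2
      have h2 : i ≤ k i := hkm.id_le i
      have h3 : ((M : ℕ) : ℝ) ≤ ((k i : ℕ) : ℝ) := by exact_mod_cast h1.trans h2
      have hw2' : |g w| < |g z| + 1 := hw2
      apply hw1
      show c i * b (k i) w = 0
      rw [hb0 (k i) w (by linarith), mul_zero]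
  let G : C(Y, ℝ) := ⟨fun z => ∑ᶠ i, c i * b (k i) z, continuous_finsum (fun i => by fun_prop) hlf⟩
  have hG : ∀ j : ℕ, T G (x (k j)) = j := by
    intro j
    obtain ⟨s, l, hl⟩ := rep T hT (x (k j))
    obtain ⟨M0, hM0⟩ := exists_nat_ge (∑ w ∈ s, |g w| + 1)
    let M := max M0 (j+1)
    have h1 : ∀ w ∈ s, G w = ∑ i ∈ Finset.range M, c i * b (k i) w := by
      intro w hw
      show (∑ᶠ i, c i * b (k i) w) = _
      apply finsum_eq_sum_of_support_subset
      intro i hi
      rw [Finset.coe_range, Set.mem_Iio]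
      by_contra hcon2
      have h1 : M ≤ i := not_lt.1 hcon2
      have h2 : i ≤ k i := hkm.id_le i
      have h3 : ((M0 : ℕ) : ℝ) ≤ ((k i : ℕ) : ℝ) := by exact_mod_cast (le_max_left _ _).trans (h1.trans h2)
      have h4 : |g w| ≤ ∑ w ∈ s, |g w| := Finset.single_le_sum (f := fun w => |g w|) (fun i _ => abs_nonneg _) hw
      apply hi
      show c i * b (k i) w = 0
      rw [hb0 (k i) w (by linarith), mul_zero]
    rw [hl]
    have h2 : ∑ w ∈ s, l w * G w = ∑ i ∈ Finset.range M, c i * a i j := by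
      calc ∑ w ∈ s, l w * G w = ∑ w ∈ s, ∑ i ∈ Finset.range M, c i * (l w * b (k i) w) := by
            apply Finset.sum_congr rfl
            intro w hw
            rw [h1 w hw, Finset.mul_sum]
            apply Finset.sum_congr rfl
            intro i _
            ring
        _ = ∑ i ∈ Finset.range M, c i * a i j := by
            rw [Finset.sum_comm]
            apply Finset.sum_congr rfl
            intro i _
            rw [← Finset.mul_sum]
            show c i * _ = c i * T (b (k i)) (x (k j))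
            rw [hl]
    rw [h2]
    rw [← cseq_spec a ha j]
    symm
    apply Finset.sum_subset
    · intro i hi
      rw [Finset.mem_range] at hi ⊢
      exact lt_of_lt_of_le hi (le_max_right _ _)
    · intro i _ hi
      rw [Finset.mem_range] at hi
      have : a i j = 0 := htri i j (by omega)
      rw [this, mul_zero]
  obtain ⟨M, hM⟩ := hX (T G)
  obtain ⟨j, hj⟩ := exists_nat_gt M
  have := hM (x (k j))
  rw [hG j, abs_of_nonneg (Nat.cast_nonneg j)] at this
  linarith

open Cardinal in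
theorem pi_basis (S : Type) (κ : Cardinal.{0}) (hκ : Cardinal.aleph0 ≤ κ) (hS : Cardinal.mk S ≤ κ) :
    ∃ B : Set (Set (S → ℝ)), TopologicalSpace.IsTopologicalBasis B ∧ Cardinal.mk B ≤ κ := by
  classical
  let cb : Set (Set ℝ) := TopologicalSpace.countableBasis ℝ
  have hcb : TopologicalSpace.IsTopologicalBasis cb := TopologicalSpace.isBasis_countableBasis ℝ
  let N : Finset (S × cb) → Set (S → ℝ) := fun F => {z | ∀ q ∈ F, z q.1 ∈ q.2.1}
  refine ⟨Set.range N, ?_, ?_⟩
  · apply TopologicalSpace.isTopologicalBasis_of_isOpen_of_nhds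
    · rintro _ ⟨F, rfl⟩
      have : N F = ⋂ q ∈ F, {z : S → ℝ | z q.1 ∈ q.2.1} := by
        ext z; simp [N]
      rw [this]
      apply isOpen_biInter_finset
      intro q _
      exact (hcb.isOpen q.2.2).preimage (continuous_apply q.1)
    · intro a U ha hU
      obtain ⟨I, w, hw, hI⟩ := isOpen_pi_iff.1 hU a ha
      have h1 : ∀ i : S, ∃ c : cb, a i ∈ c.1 ∧ (i ∈ I → c.1 ⊆ w i) := by
        intro i
        by_cases hi : i ∈ I
        · obtain ⟨c, hc, hac, hcw⟩ := hcb.exists_subset_of_mem_open (hw i hi).2 (hw i hi).1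
          exact ⟨⟨c, hc⟩, hac, fun _ => hcw⟩
        · obtain ⟨c, hc, hac, hcw⟩ := hcb.exists_subset_of_mem_open (Set.mem_univ (a i)) isOpen_univ
          exact ⟨⟨c, hc⟩, hac, fun h => absurd h hi⟩
      choose c hc1 hc2 using h1
      refine ⟨N (I.image (fun i => (i, c i))), ⟨_, rfl⟩, ?_, ?_⟩
      · intro q hq
        obtain ⟨i, _, rfl⟩ := Finset.mem_image.1 hq
        exact hc1 i
      · intro z hz
        apply hI
        intro i hi
        exact hc2 i hi (hz (i, c i) (Finset.mem_image.2 ⟨i, hi, rfl⟩))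
  · refine Cardinal.mk_range_le.trans ?_
    have hcbc : Cardinal.mk cb ≤ Cardinal.aleph0 := by
      rw [Cardinal.le_aleph0_iff_set_countable]
      exact TopologicalSpace.countable_countableBasis ℝ
    have h2 : Cardinal.mk (S × cb) ≤ κ := by
      rw [Cardinal.mk_prod, Cardinal.lift_id, Cardinal.lift_id]
      calc Cardinal.mk S * Cardinal.mk cb ≤ κ * κ := mul_le_mul' hS (hcbc.trans hκ)
        _ = κ := Cardinal.mul_eq_self hκ
    rcases finite_or_infinite (S × cb) with hf | hi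
    · exact (Cardinal.lt_aleph0_of_finite _).le.trans hκ
    · rw [Cardinal.mk_finset_of_infinite]
      exact h2

/-- an embedding family for a space of weight `≤ κ` -/
theorem exists_family (Z : Type) [TopologicalSpace Z] [T35Space Z] (B : Set (Set Z))
    (hB : TopologicalSpace.IsTopologicalBasis B) :
    ∃ φ : B × B → C(Z, ℝ), IsInducing (fun (z : Z) (p : B × B) => φ p z) := by
  classical
  have h1 : ∀ p : B × B, ∃ φ : C(Z, ℝ), (∃ ψ : C(Z, ℝ), (∀ z ∈ p.1.1, ψ z ≤ 1/3) ∧ ∀ z ∉ p.2.1, ψ z = 1) →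
      (∀ z ∈ p.1.1, φ z ≤ 1/3) ∧ ∀ z ∉ p.2.1, φ z = 1 := by
    intro p
    by_cases h : ∃ ψ : C(Z, ℝ), (∀ z ∈ p.1.1, ψ z ≤ 1/3) ∧ ∀ z ∉ p.2.1, ψ z = 1
    · obtain ⟨ψ, hψ⟩ := h
      exact ⟨ψ, fun _ => hψ⟩
    · exact ⟨0, fun h' => absurd h' h⟩
  choose φ hφ using h1
  refine ⟨φ, isInducing_iff_nhds.2 fun z => le_antisymm ?_ ?_⟩
  · have hc : Continuous (fun (z : Z) (p : B × B) => φ p z) := continuous_pi fun p => (φ p).continuous
    exact (hc.tendsto z).le_comap
  · intro W hW
    obtain ⟨W', hW', hzW', hsub⟩ := hB.mem_nhds_iff.1 hW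
    obtain ⟨f, hf, hfz, hfK⟩ := CompletelyRegularSpace.completely_regular z W'ᶜ
      (hB.isOpen hW').isClosed_compl (by simpa using hzW')
    let ψ : C(Z, ℝ) := ⟨fun z => (f z : ℝ), by fun_prop⟩
    have hopen : IsOpen {z | ψ z < 1/3} := isOpen_lt ψ.continuous continuous_const
    have hψz : ψ z = 0 := by
      show (f z : ℝ) = 0
      rw [hfz]; rfl
    obtain ⟨U, hU, hzU, hUsub⟩ := hB.exists_subset_of_mem_open (show z ∈ {z | ψ z < 1/3} by
      show ψ z < 1/3
      rw [hψz]; norm_num) hopen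
    have hgood := hφ (⟨U, hU⟩, ⟨W', hW'⟩) ⟨ψ, fun w hw => (le_of_lt (hUsub hw)), fun w hw => by
      have := hfK (show w ∈ W'ᶜ from hw)
      show (f w : ℝ) = 1
      rw [this]; rfl⟩
    rw [Filter.mem_comap]
    refine ⟨{q | q (⟨U, hU⟩, ⟨W', hW'⟩) < 2/3}, ?_, ?_⟩
    · have : IsOpen {q : B × B → ℝ | q (⟨U, hU⟩, ⟨W', hW'⟩) < 2/3} :=
        isOpen_lt (continuous_apply _) continuous_const
      apply this.mem_nhds
      show φ (⟨U, hU⟩, ⟨W', hW'⟩) z < 2/3
      have := hgood.1 z hzU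
      linarith
    · intro w hw
      apply hsub
      by_contra hcon
      have h2 := hgood.2 w hcon
      have h3 : φ (⟨U, hU⟩, ⟨W', hW'⟩) w < 2/3 := hw
      rw [h2] at h3
      norm_num at h3

section main

variable {X Y : Type} [TopologicalSpace X] [T35Space X] [TopologicalSpace Y] [T35Space Y]

theorem span_mul (E : Submonoid C(Y, ℝ)) (P : C(Y, ℝ) →ₗ[ℝ] ℝ)
    (hP : ∀ a ∈ E, ∀ b ∈ E, P (a * b) = P a * P b) :
    ∀ a ∈ Submodule.span ℝ (E : Set C(Y, ℝ)), ∀ b ∈ Submodule.span ℝ (E : Set C(Y, ℝ)),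
      a * b ∈ Submodule.span ℝ (E : Set C(Y, ℝ)) ∧ P (a * b) = P a * P b := by
  intro a ha b hb
  have h1 : ∀ a ∈ E, ∀ b ∈ Submodule.span ℝ (E : Set C(Y, ℝ)),
      a * b ∈ Submodule.span ℝ (E : Set C(Y, ℝ)) ∧ P (a * b) = P a * P b := by
    intro a ha b hb
    induction hb using Submodule.span_induction with
    | mem x hx => exact ⟨Submodule.subset_span (E.mul_mem ha hx), hP a ha x hx⟩
    | zero => simp
    | add x y _ _ hx hy =>
      refine ⟨?_, ?_⟩
      · rw [mul_add]; exact Submodule.add_mem _ hx.1 hy.1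
      · rw [mul_add, map_add, map_add, hx.2, hy.2]; ring
    | smul c x _ hx =>
      refine ⟨?_, ?_⟩
      · rw [mul_smul_comm]; exact Submodule.smul_mem _ _ hx.1
      · rw [mul_smul_comm, map_smul, map_smul, hx.2, smul_eq_mul, smul_eq_mul]; ring
  induction ha using Submodule.span_induction with
  | mem x hx => exact h1 x hx b hb
  | zero => simp
  | add x y _ _ hx hy =>
    refine ⟨?_, ?_⟩
    · rw [add_mul]; exact Submodule.add_mem _ hx.1 hy.1
    · rw [add_mul, map_add, map_add, hx.2, hy.2]; ring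
  | smul c x _ hx =>
    refine ⟨?_, ?_⟩
    · rw [smul_mul_assoc]; exact Submodule.smul_mem _ _ hx.1
    · rw [smul_mul_assoc, map_smul, map_smul, hx.2, smul_eq_mul, smul_eq_mul]; ring

/-- the evaluation maps -/
def evX (T : C(X, ℝ) ≃ₗ[ℝ] C(Y, ℝ)) (E : Submonoid C(Y, ℝ)) (x : X) : E → ℝ := fun g => T.symm g.1 x
def evY (E : Submonoid C(Y, ℝ)) (y : Y) : E → ℝ := fun g => g.1 y

theorem evX_cont (T : C(X, ℝ) ≃ₗ[ℝ] C(Y, ℝ)) (E : Submonoid C(Y, ℝ)) : Continuous (evX T E) :=
  continuous_pi fun g => (T.symm g.1).continuous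

theorem evY_cont (E : Submonoid C(Y, ℝ)) : Continuous (evY E) :=
  continuous_pi fun g => g.1.continuous

def LL (T : C(X, ℝ) ≃ₗ[ℝ] C(Y, ℝ)) (E : Submonoid C(Y, ℝ)) (n m : ℕ) : Set (E → ℝ) :=
  (fun (q : (Fin n → (E → ℝ)) × (Fin n → ℝ)) (g : E) => ∑ i, q.2 i * q.1 i g) ''
    ((Set.univ.pi (fun _ => Set.range (evX T E))) ×ˢ (Set.univ.pi fun _ => Set.Icc (-(m:ℝ)) m))

theorem LL_compact (T : C(X, ℝ) ≃ₗ[ℝ] C(Y, ℝ)) (E : Submonoid C(Y, ℝ))
    (hc : IsCompact (Set.range (evX T E))) (n m : ℕ) : IsCompact (LL T E n m) := by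
  apply IsCompact.image
  · exact (isCompact_univ_pi fun _ => hc).prod (isCompact_univ_pi fun _ => isCompact_Icc)
  · apply continuous_pi
    intro g
    apply continuous_finsetSum
    intro i _
    exact ((continuous_apply i).comp continuous_snd).mul
      ((continuous_apply g).comp ((continuous_apply i).comp continuous_fst))

theorem mem_LL (T : C(X, ℝ) ≃ₗ[ℝ] C(Y, ℝ)) (hT : PC T.toLinearMap) (E : Submonoid C(Y, ℝ)) (y : Y) :
    ∃ n m, evY E y ∈ LL T E n m := by
  obtain ⟨s, l, hl⟩ := rep T.toLinearMap hT y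
  obtain ⟨m, hm⟩ := exists_nat_ge (∑ x ∈ s, |l x|)
  let e := s.equivFin
  refine ⟨s.card, m, (fun i => evX T E (e.symm i).1, fun i => l (e.symm i).1), ⟨?_, ?_⟩, ?_⟩
  · intro i _
    exact ⟨_, rfl⟩
  · intro i _
    have h1 : |l (e.symm i).1| ≤ m :=
      (Finset.single_le_sum (f := fun x => |l x|) (fun i _ => abs_nonneg _) (e.symm i).2).trans hm
    exact abs_le.1 h1
  · funext g
    show ∑ i, l (e.symm i).1 * (T.symm g.1) (e.symm i).1 = g.1 y
    have h2 := hl (T.symm g.1)
    have h3 : T.toLinearMap (T.symm g.1) = g.1 := T.apply_symm_apply g.1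
    rw [h3] at h2
    rw [h2, ← Finset.sum_coe_sort s (fun x => l x * (T.symm g.1) x)]
    exact Equiv.sum_comp e.symm (fun x : s => l x.1 * (T.symm g.1) x.1)

theorem key (T : C(X, ℝ) ≃ₗ[ℝ] C(Y, ℝ)) (hT' : PC T.symm.toLinearMap)
    (E : Submonoid C(Y, ℝ)) (n m : ℕ) (p : E → ℝ) (hp : p ∈ closure (Set.range (evY E)))
    (hpL : p ∈ LL T E n m) : p ∈ Set.range (evY E) := by
  classical
  by_contra hcon
  obtain ⟨⟨q, lam⟩, ⟨hq, _⟩, rfl⟩ := hpL
  have hq' : ∀ i, ∃ x, evX T E x = q i := fun i => hq i (Set.mem_univ i)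
  choose x hx using hq'
  let P : C(Y, ℝ) →ₗ[ℝ] ℝ :=
    { toFun := fun g => ∑ i, lam i * (T.symm g) (x i)
      map_add' := by
        intro a b
        rw [← Finset.sum_add_distrib]
        apply Finset.sum_congr rfl
        intro i _
        rw [map_add]
        show lam i * ((T.symm a) (x i) + (T.symm b) (x i)) = _
        ring
      map_smul' := by
        intro c a
        rw [RingHom.id_apply, smul_eq_mul, Finset.mul_sum]
        apply Finset.sum_congr rfl
        intro i _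
        rw [map_smul]
        show lam i * (c * (T.symm a) (x i)) = _
        ring }
  set pp : E → ℝ := fun g => ∑ i, lam i * q i g with hpp
  have hPp : ∀ g : E, P g.1 = pp g := by
    intro g
    show ∑ i, lam i * (T.symm g.1) (x i) = ∑ i, lam i * q i g
    apply Finset.sum_congr rfl
    intro i _
    rw [← hx i]
    rfl
  -- multiplicativity
  have hmul : ∀ a ∈ E, ∀ b ∈ E, P (a * b) = P a * P b := by
    intro a ha b hb
    have hcl : IsClosed {z : E → ℝ | z ⟨a * b, E.mul_mem ha hb⟩ = z ⟨a, ha⟩ * z ⟨b, hb⟩} :=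
      isClosed_eq (by fun_prop) (by fun_prop)
    have h1 : pp ∈ {z : E → ℝ | z ⟨a * b, E.mul_mem ha hb⟩ = z ⟨a, ha⟩ * z ⟨b, hb⟩} := by
      refine closure_minimal ?_ hcl hp
      rintro _ ⟨y, rfl⟩
      rfl
    have h2 : pp ⟨a * b, E.mul_mem ha hb⟩ = pp ⟨a, ha⟩ * pp ⟨b, hb⟩ := h1
    rw [← hPp, ← hPp, ← hPp] at h2
    exact h2
  have hone : P 1 = 1 := by
    have hcl : IsClosed {z : E → ℝ | z ⟨1, E.one_mem⟩ = 1} := isClosed_eq (continuous_apply _) continuous_const
    have h1 : pp ∈ {z : E → ℝ | z ⟨1, E.one_mem⟩ = 1} := by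
      refine closure_minimal ?_ hcl hp
      rintro _ ⟨y, rfl⟩
      rfl
    have h2 : pp ⟨1, E.one_mem⟩ = 1 := h1
    rw [← hPp] at h2
    exact h2
  have hspan := span_mul E P hmul
  have hone' : (1 : C(Y, ℝ)) ∈ Submodule.span ℝ (E : Set C(Y, ℝ)) := Submodule.subset_span E.one_mem
  -- the finite support of P
  choose s l hl using fun i => rep T.symm.toLinearMap hT' (x i)
  let F : Finset Y := Finset.univ.biUnion s
  have hPF : ∀ g : C(Y, ℝ), (∀ y ∈ F, g y = 0) → P g = 0 := by
    intro g hg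
    show ∑ i, lam i * (T.symm g) (x i) = 0
    apply Finset.sum_eq_zero
    intro i _
    have h1 : (T.symm g) (x i) = ∑ y ∈ s i, l i y * g y := hl i g
    rw [h1, Finset.sum_eq_zero, mul_zero]
    intro y hy
    rw [hg y (Finset.mem_biUnion.2 ⟨i, Finset.mem_univ i, hy⟩), mul_zero]
  have hsep : ∀ y : Y, ∃ g : E, g.1 y ≠ pp g := by
    intro y
    by_contra h
    push Not at h
    exact hcon ⟨y, funext h⟩
  choose g hg using hsep
  let u : Y → C(Y, ℝ) := fun y => (pp (g y) - (g y).1 y)⁻¹ • ((g y).1 - ((g y).1 y) • (1 : C(Y, ℝ)))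
  have hu1 : ∀ y, u y ∈ Submodule.span ℝ (E : Set C(Y, ℝ)) := by
    intro y
    apply Submodule.smul_mem
    exact Submodule.sub_mem _ (Submodule.subset_span (g y).2) (Submodule.smul_mem _ _ hone')
  have hu2 : ∀ y, P (u y) = 1 := by
    intro y
    have h1 : pp (g y) - (g y).1 y ≠ 0 := sub_ne_zero.2 (hg y).symm
    show P ((pp (g y) - (g y).1 y)⁻¹ • ((g y).1 - ((g y).1 y) • (1 : C(Y, ℝ)))) = 1
    rw [map_smul, map_sub, map_smul, hone, hPp, smul_eq_mul, smul_eq_mul, mul_one]
    exact inv_mul_cancel₀ h1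
  have hu3 : ∀ y, u y y = 0 := by
    intro y
    show (pp (g y) - (g y).1 y)⁻¹ * ((g y).1 y - (g y).1 y * 1) = 0
    ring
  have hprod : ∀ F : Finset Y, (∏ y ∈ F, u y) ∈ Submodule.span ℝ (E : Set C(Y, ℝ)) ∧ P (∏ y ∈ F, u y) = 1 := by
    intro F
    induction F using Finset.induction_on with
    | empty => simpa using ⟨hone', hone⟩
    | insert a F ha ih =>
      rw [Finset.prod_insert ha]
      obtain ⟨h1, h2⟩ := hspan _ (hu1 a) _ ih.1
      exact ⟨h1, by rw [h2, hu2, ih.2, mul_one]⟩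
  have h1 := (hprod F).2
  have h2 : P (∏ y ∈ F, u y) = 0 := by
    apply hPF
    intro y hy
    rw [ContinuousMap.prod_apply]
    exact Finset.prod_eq_zero hy (hu3 y)
  rw [h2] at h1
  exact zero_ne_one h1

theorem range_compact (T : C(X, ℝ) ≃ₗ[ℝ] C(Y, ℝ)) (hT : PC T.toLinearMap)
    (hT' : PC T.symm.toLinearMap) (E : Submonoid C(Y, ℝ))
    (hc : IsCompact (Set.range (evX T E))) (hY : ∀ f : C(Y, ℝ), ∃ M : ℝ, ∀ y, |f y| ≤ M) :
    IsCompact (Set.range (evY E)) := by
  classical
  choose M hM using fun g : E => hY g.1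
  have h1 : IsCompact (Set.univ.pi (fun g : E => Set.Icc (-(M g)) (M g))) :=
    isCompact_univ_pi fun _ => isCompact_Icc
  refine h1.of_isClosed_subset ?_ ?_
  · rw [← closure_subset_iff_isClosed]
    intro p hp
    by_contra hcon
    have hnot : ∀ n m, p ∉ LL T E n m := fun n m h => hcon (key T hT' E n m p hp h)
    have hu : ∀ k : ℕ, ∃ u : (E → ℝ) → unitInterval, Continuous u ∧ u p = 0 ∧
        Set.EqOn u 1 (LL T E (Nat.unpair k).1 (Nat.unpair k).2) := fun k =>
      CompletelyRegularSpace.completely_regular p _ (LL_compact T E hc _ _).isClosed (hnot _ _)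
    choose u hu1 hu2 hu3 using hu
    let G : (E → ℝ) → ℝ := fun z => ∑' k : ℕ, (1/2 : ℝ)^k * (u k z : ℝ)
    have hsum : Summable (fun k : ℕ => (1/2 : ℝ)^k) := summable_geometric_of_lt_one (by norm_num) (by norm_num)
    have hbd : ∀ (k : ℕ) (z : E → ℝ), ‖(1/2 : ℝ)^k * (u k z : ℝ)‖ ≤ (1/2 : ℝ)^k := by
      intro k z
      rw [norm_mul, Real.norm_eq_abs, Real.norm_eq_abs, abs_of_nonneg (by positivity), abs_of_nonneg (u k z).2.1]
      exact mul_le_of_le_one_right (by positivity) (u k z).2.2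
    have hG : Continuous G := by
      refine continuous_tsum (fun k => ?_) hsum hbd
      have := hu1 k
      fun_prop
    have hGp : G p = 0 := by
      show ∑' k : ℕ, (1/2 : ℝ)^k * (u k p : ℝ) = 0
      have : ∀ k : ℕ, (1/2 : ℝ)^k * (u k p : ℝ) = 0 := by
        intro k
        rw [hu2 k]
        simp
      simp_rw [this]
      exact tsum_zero
    have hGpos : ∀ y, 0 < G (evY E y) := by
      intro y
      obtain ⟨n, m, hnm⟩ := mem_LL T hT E y
      have hs : Summable (fun k : ℕ => (1/2 : ℝ)^k * (u k (evY E y) : ℝ)) :=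
        Summable.of_norm_bounded hsum (fun k => hbd k _)
      have hk : (u (Nat.pair n m) (evY E y) : ℝ) = 1 := by
        have := hu3 (Nat.pair n m) (x := evY E y) (by rw [Nat.unpair_pair]; exact hnm)
        rw [this]
        rfl
      refine hs.tsum_pos (fun k => ?_) (Nat.pair n m) ?_
      · exact mul_nonneg (by positivity) (u k _).2.1
      · rw [hk]; positivity
    obtain ⟨M', hM'⟩ := hY ⟨fun y => (G (evY E y))⁻¹, (hG.comp (evY_cont E)).inv₀ fun y => (hGpos y).ne'⟩
    have hlow : ∀ y, (|M'| + 1)⁻¹ ≤ G (evY E y) := by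
      intro y
      have h2 : |(G (evY E y))⁻¹| ≤ M' := hM' y
      rw [abs_of_pos (inv_pos.2 (hGpos y))] at h2
      have h3 : (G (evY E y))⁻¹ ≤ |M'| + 1 := by
        have := le_abs_self M'
        linarith
      exact inv_le_of_inv_le₀ (hGpos y) h3
    have hcl : IsClosed {z : E → ℝ | (|M'| + 1)⁻¹ ≤ G z} := isClosed_le continuous_const hG
    have h4 : p ∈ {z : E → ℝ | (|M'| + 1)⁻¹ ≤ G z} := by
      refine closure_minimal ?_ hcl hp
      rintro _ ⟨y, rfl⟩
      exact hlow y
    have h5 : (|M'| + 1)⁻¹ ≤ G p := h4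
    rw [hGp] at h5
    have h6 : 0 < (|M'| + 1)⁻¹ := by positivity
    linarith
  · rintro _ ⟨y, rfl⟩ g _
    exact abs_le.1 (hM g y)

end main

open Cardinal in
theorem closure_card {M : Type} [Monoid M] (κ : Cardinal.{0}) (hκ : Cardinal.aleph0 ≤ κ) (s : Set M)
    (hs : Cardinal.mk s ≤ κ) : Cardinal.mk (Submonoid.closure s) ≤ κ := by
  have h1 : Cardinal.mk (Submonoid.closure s) ≤ Cardinal.mk (List s) := by
    have h2 : ((Submonoid.closure s : Submonoid M) : Set M) ⊆
        Set.range (fun l : List s => (l.map Subtype.val).prod) := by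
      intro x hx
      obtain ⟨l, hl, rfl⟩ := Submonoid.exists_list_of_mem_closure hx
      lift l to List s using hl
      exact ⟨l, rfl⟩
    exact (Cardinal.mk_le_mk_of_subset h2).trans Cardinal.mk_range_le
  exact h1.trans ((Cardinal.mk_list_le_max s).trans (max_le hκ hs))

/-- For every infinite cardinal κ and Tychonoff spaces X, Y with C_p(X) and C_p(Y) linearly homeomorphic: if every continuous image of X in a Tychonoff space of weight ≤ κ is compact, then the same holds for Y. -/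
theorem result :
    ∀ (κ : Cardinal.{0}), Cardinal.aleph0 ≤ κ →
    ∀ (X Y : Type) [TopologicalSpace X] [T35Space X] [TopologicalSpace Y] [T35Space Y],
      (∃ T : C(X, ℝ) ≃ₗ[ℝ] C(Y, ℝ),
        @Continuous C(X, ℝ) (Y → ℝ)
            (TopologicalSpace.induced (fun g : C(X, ℝ) => (g : X → ℝ))
              (inferInstance : TopologicalSpace (X → ℝ)))
            (inferInstance : TopologicalSpace (Y → ℝ))
            (fun g => ((T g : C(Y, ℝ)) : Y → ℝ)) ∧
        @Continuous C(Y, ℝ) (X → ℝ)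
            (TopologicalSpace.induced (fun g : C(Y, ℝ) => (g : Y → ℝ))
              (inferInstance : TopologicalSpace (Y → ℝ)))
            (inferInstance : TopologicalSpace (X → ℝ))
            (fun g => ((T.symm g : C(X, ℝ)) : X → ℝ))) →
      (∀ (Z : Type) [TopologicalSpace Z] [T35Space Z],
        (∃ B : Set (Set Z), TopologicalSpace.IsTopologicalBasis B ∧ Cardinal.mk B ≤ κ) →
        ∀ f : X → Z, Continuous f → IsCompact (Set.range f)) →
      (∀ (Z : Type) [TopologicalSpace Z] [T35Space Z],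
        (∃ B : Set (Set Z), TopologicalSpace.IsTopologicalBasis B ∧ Cardinal.mk B ≤ κ) →
        ∀ f : Y → Z, Continuous f → IsCompact (Set.range f)) := by
  classical
  intro κ hκ X Y _ _ _ _ hT0 hX Z _ _ hB h hh
  obtain ⟨T, hT, hT'⟩ := hT0
  obtain ⟨B, hB, hBκ⟩ := hB
  have hTl : PC T.toLinearMap := hT
  have hTl' : PC T.symm.toLinearMap := hT'
  -- pseudocompactness
  have hXp : ∀ f : C(X, ℝ), ∃ M : ℝ, ∀ x, |f x| ≤ M := by
    intro f
    have hcR : IsCompact (Set.range f) := hX ℝ ⟨TopologicalSpace.countableBasis ℝ,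
      TopologicalSpace.isBasis_countableBasis ℝ, by
        refine le_trans ?_ hκ
        rw [Cardinal.le_aleph0_iff_set_countable]
        exact TopologicalSpace.countable_countableBasis ℝ⟩ f f.continuous
    obtain ⟨M, hM⟩ := hcR.isBounded.exists_norm_le
    exact ⟨M, fun x => hM (f x) ⟨x, rfl⟩⟩
  have hYp : ∀ f : C(Y, ℝ), ∃ M : ℝ, ∀ y, |f y| ≤ M := fun g =>
    pseudo T.symm.toLinearMap hTl' T.symm.injective hXp g
  obtain ⟨φ, hφ⟩ := exists_family Z B hB
  let hc : C(Y, Z) := ⟨h, hh⟩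
  let base : Set C(Y, ℝ) := Set.range (fun p : B × B => (φ p).comp hc)
  let E : Submonoid C(Y, ℝ) := Submonoid.closure base
  have hEκ : Cardinal.mk E ≤ κ := by
    apply closure_card κ hκ
    refine Cardinal.mk_range_le.trans ?_
    simp only [Cardinal.mk_prod, Cardinal.lift_id]
    calc Cardinal.mk B * Cardinal.mk B ≤ κ * κ := mul_le_mul' hBκ hBκ
      _ = κ := Cardinal.mul_eq_self hκ
  obtain ⟨B', hB', hB'κ⟩ := pi_basis E κ hκ hEκ
  have hcX : IsCompact (Set.range (evX T E)) := hX (E → ℝ) ⟨B', hB', hB'κ⟩ (evX T E) (evX_cont T E)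
  have hcY := range_compact T hTl hTl' E hcX hYp
  rw [hφ.isCompact_iff]
  let π : (E → ℝ) → (B × B → ℝ) := fun z p => z ⟨(φ p).comp hc, Submonoid.subset_closure ⟨p, rfl⟩⟩
  have hπ : Continuous π := continuous_pi fun p => continuous_apply _
  have himg : (fun (z : Z) (p : B × B) => φ p z) '' Set.range h = π '' Set.range (evY E) := by
    ext w
    constructor
    · rintro ⟨_, ⟨y, rfl⟩, rfl⟩
      exact ⟨_, ⟨y, rfl⟩, rfl⟩
    · rintro ⟨_, ⟨y, rfl⟩, rfl⟩
      exact ⟨_, ⟨y, rfl⟩, rfl⟩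
  rw [himg]
  exact hcY.image hπ

end Pool.Agent.S09335
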