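import Pool.Statements.S09376

set_option autoImplicit false
open Pool Pool.MP_a4908e_gt

namespace Pool.Agent.S09376

open Set Topology Filter

/-- maximal almost disjoint families -/
structure MAD (A : Set (Set ℕ)) : Prop where
  inf : ∀ a ∈ A, a.Infinite
  ad : ∀ a ∈ A, ∀ b ∈ A, a ≠ b → (a ∩ b).Finite
  mx : ∀ B : Set ℕ, B.Infinite → ∃ a ∈ A, (a ∩ B).Infinite

/-- pairwise disjoint infinite sets -/
def blk (k : ℕ) : Set ℕ := {n | (Nat.unpair n).1 = k}

theorem blk_inf (k : ℕ) : (blk k).Infinite := by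
  refine Set.infinite_of_injective_forall_mem (f := fun m : ℕ => Nat.pair k m) ?_ ?_
  · intro a b h
    have h' : Nat.pair k a = Nat.pair k b := h
    have := congrArg Nat.unpair h'
    rw [Nat.unpair_pair, Nat.unpair_pair] at this
    exact (Prod.ext_iff.1 this).2
  · intro m
    show (Nat.unpair (Nat.pair k m)).1 = k
    rw [Nat.unpair_pair]

theorem blk_disj {k l : ℕ} (h : k ≠ l) : blk k ∩ blk l = ∅ := by
  ext n
  constructor
  · rintro ⟨h1, h2⟩
    exact h (Eq.trans (Eq.symm h1) h2)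
  · intro h; exact h.elim

theorem exists_MAD : ∃ A : Set (Set ℕ), MAD A ∧ ∀ k, blk k ∈ A := by
  let S : Set (Set (Set ℕ)) := {A | (∀ a ∈ A, a.Infinite) ∧ ∀ a ∈ A, ∀ b ∈ A, a ≠ b → (a ∩ b).Finite}
  have h0 : Set.range blk ∈ S := by
    refine ⟨?_, ?_⟩
    · rintro _ ⟨k, rfl⟩
      exact blk_inf k
    · rintro _ ⟨k, rfl⟩ _ ⟨l, rfl⟩ h
      have : k ≠ l := fun e => h (by rw [e])
      rw [blk_disj this]
      exact Set.finite_empty
  obtain ⟨A, hsub, hmax⟩ := zorn_subset_nonempty S (by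
    intro c hc hch hne
    refine ⟨⋃₀ c, ⟨?_, ?_⟩, fun s hs => Set.subset_sUnion_of_mem hs⟩
    · rintro a ⟨s, hs, ha⟩
      exact (hc hs).1 a ha
    · rintro a ⟨s, hs, ha⟩ b ⟨t, ht, hb⟩ hab
      rcases hch.total hs ht with h | h
      · exact (hc ht).2 a (h ha) b hb hab
      · exact (hc hs).2 a ha b (h hb) hab) (Set.range blk) h0
  refine ⟨A, ⟨hmax.prop.1, hmax.prop.2, ?_⟩, fun k => hsub ⟨k, rfl⟩⟩
  intro B hB
  by_contra hcon
  push Not at hcon
  have hfin : ∀ a ∈ A, (a ∩ B).Finite := fun a ha => hcon a ha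
  have hins : insert B A ∈ S := by
    refine ⟨?_, ?_⟩
    · rintro a (rfl | ha)
      · exact hB
      · exact hmax.prop.1 a ha
    · rintro a (rfl | ha) b (rfl | hb) hab
      · exact absurd rfl hab
      · rw [Set.inter_comm]; exact hfin b hb
      · exact hfin a ha
      · exact hmax.prop.2 a ha b hb hab
  have hBA : B ∈ A := hmax.le_of_ge hins (Set.subset_insert B A) (Set.mem_insert B A)
  have := hfin B hBA
  rw [Set.inter_self] at this
  exact hB this

variable {A : Set (Set ℕ)}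

open Classical in
noncomputable def nv (A : Set (Set ℕ)) (n : ℕ) : ℕ ⊕ A → Bool :=
  Sum.elim (fun m => decide (m = n)) (fun b => decide (n ∈ b.1))

open Classical in
noncomputable def av (A : Set (Set ℕ)) (a : A) : ℕ ⊕ A → Bool :=
  Sum.elim (fun _ => false) (fun b => decide (b = a))

/-- the Mrowka space, inside a Cantor cube -/
def PsiSet (A : Set (Set ℕ)) : Set (ℕ ⊕ A → Bool) := {x | (∃ n, x = nv A n) ∨ ∃ a, x = av A a}

abbrev Psi (A : Set (Set ℕ)) : Type := PsiSet A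

noncomputable def nn (A : Set (Set ℕ)) (n : ℕ) : Psi A := ⟨nv A n, Or.inl ⟨n, rfl⟩⟩
noncomputable def aa (A : Set (Set ℕ)) (a : A) : Psi A := ⟨av A a, Or.inr ⟨a, rfl⟩⟩

theorem psi_cases (z : Psi A) : (∃ n, z = nn A n) ∨ ∃ a, z = aa A a := by
  rcases z with ⟨x, ⟨n, hn⟩ | ⟨a, ha⟩⟩
  · left; exact ⟨n, Subtype.ext hn⟩
  · right; exact ⟨a, Subtype.ext ha⟩

theorem coord_cont (i : ℕ ⊕ A) : Continuous (fun z : Psi A => z.1 i) :=
  (continuous_apply i).comp continuous_subtype_val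

open Classical in
theorem aa_inr (a b : A) : (aa A a).1 (Sum.inr b) = decide (b = a) := rfl

theorem aa_inj {a b : A} (h : aa A a = aa A b) : a = b := by
  classical
  have h1 : (aa A a).1 (Sum.inr a) = (aa A b).1 (Sum.inr a) := by rw [h]
  rw [aa_inr, aa_inr, decide_eq_decide] at h1
  exact h1.1 rfl

theorem tend_aa (hA : MAD A) (a : A) : Tendsto (fun n => nn A n) (atTop ⊓ 𝓟 a.1) (𝓝 (aa A a)) := by
  classical
  rw [tendsto_subtype_rng, tendsto_pi_nhds]
  intro i
  apply tendsto_const_nhds.congr'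
  rcases i with m | b
  · have h1 : ∀ᶠ n in atTop ⊓ 𝓟 a.1, m < n := (eventually_gt_atTop m).filter_mono inf_le_left
    filter_upwards [h1] with n hn
    show (false : Bool) = decide (m = n)
    symm
    rw [decide_eq_false_iff_not]
    omega
  · by_cases hab : b = a
    · subst hab
      rw [Filter.EventuallyEq, Filter.eventually_inf_principal]
      refine Filter.Eventually.of_forall fun n hn => ?_
      show decide (b = b) = decide (n ∈ b.1)
      rw [decide_eq_decide]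
      exact ⟨fun _ => hn, fun _ => rfl⟩
    · have hfin : (a.1 ∩ b.1).Finite := hA.ad a.1 a.2 b.1 b.2 (fun h => hab (Subtype.ext h.symm))
      have h2 : ∀ᶠ n in atTop, n ∉ a.1 ∩ b.1 := by
        rw [← Nat.cofinite_eq_atTop]
        exact hfin.compl_mem_cofinite
      rw [Filter.EventuallyEq, Filter.eventually_inf_principal]
      filter_upwards [h2] with n hn hna
      show decide (b = a) = decide (n ∈ b.1)
      rw [decide_eq_decide]
      exact ⟨fun h => absurd h hab, fun h => absurd ⟨hna, h⟩ hn⟩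

/-- closed discrete sets -/
def CD {Z : Type} [TopologicalSpace Z] (C : Set Z) : Prop := ∀ z : Z, ∃ U : Set Z, IsOpen U ∧ z ∈ U ∧ U ∩ C ⊆ {z}

theorem CD.closed_sub {Z : Type} [TopologicalSpace Z] [T1Space Z] {C : Set Z} (h : CD C) {S : Set Z}
    (hS : S ⊆ C) : IsClosed S := by
  rw [← isOpen_compl_iff, isOpen_iff_mem_nhds]
  intro z hz
  obtain ⟨U, hU, hzU, hsub⟩ := h z
  filter_upwards [hU.mem_nhds hzU] with w hw hwS
  have h1 : w = z := hsub ⟨hw, hS hwS⟩
  rw [h1] at hwS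
  exact hz hwS

theorem CD.prod {Z W : Type} [TopologicalSpace Z] [TopologicalSpace W] {C : Set Z} {D : Set W}
    (hC : CD C) (hD : CD D) : CD (C ×ˢ D) := by
  rintro ⟨z, w⟩
  obtain ⟨U, hU, hzU, hsU⟩ := hC z
  obtain ⟨V, hV, hwV, hsV⟩ := hD w
  refine ⟨U ×ˢ V, hU.prod hV, ⟨hzU, hwV⟩, ?_⟩
  rintro ⟨p, q⟩ ⟨⟨hp, hq⟩, hp', hq'⟩
  have h1 : p = z := hsU ⟨hp, hp'⟩
  have h2 : q = w := hsV ⟨hq, hq'⟩
  rw [h1, h2]
  rfl

noncomputable def cov (A : Set (Set ℕ)) : ℕ → Set (Psi A)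
  | 0 => Set.range (aa A)
  | (n+1) => {nn A n}

theorem cov_CD (n : ℕ) : CD (cov A n) := by
  classical
  rcases n with _ | n
  · intro z
    rcases psi_cases z with ⟨m, rfl⟩ | ⟨a, rfl⟩
    · refine ⟨{z | z.1 (Sum.inl m) = true}, ?_, ?_, ?_⟩
      · exact (isOpen_discrete ({true} : Set Bool)).preimage (coord_cont (Sum.inl m))
      · show decide (m = m) = true
        simp
      · rintro _ ⟨h1, ⟨b, rfl⟩⟩
        exact absurd h1 (by
          show ¬ ((false : Bool) = true)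
          simp)
    · refine ⟨{z | z.1 (Sum.inr a) = true}, ?_, ?_, ?_⟩
      · exact (isOpen_discrete ({true} : Set Bool)).preimage (coord_cont (Sum.inr a))
      · show decide (a = a) = true
        simp
      · rintro _ ⟨h1, ⟨b, rfl⟩⟩
        have h2 : (aa A b).1 (Sum.inr a) = true := h1
        rw [aa_inr, decide_eq_true_eq] at h2
        rw [h2]
        rfl
  · intro z
    by_cases h : z = nn A n
    · refine ⟨Set.univ, isOpen_univ, Set.mem_univ _, ?_⟩
      rw [h]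
      rintro w ⟨_, hw⟩
      exact hw
    · refine ⟨{nn A n}ᶜ, isOpen_compl_singleton, h, ?_⟩
      rintro w ⟨hw, hw'⟩
      exact absurd hw' hw

theorem cov_univ (z : Psi A) : ∃ n, z ∈ cov A n := by
  rcases psi_cases z with ⟨m, rfl⟩ | ⟨a, rfl⟩
  · exact ⟨m + 1, rfl⟩
  · exact ⟨0, a, rfl⟩

/-- all closed sets in the square are `G_δ` -/
theorem perfect_sq (s : Set (Psi A × Psi A)) : IsGδ s := by
  have h : s = ⋂ p : ℕ × ℕ, (sᶜ ∩ (cov A p.1 ×ˢ cov A p.2))ᶜ := by
    ext z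
    simp only [Set.mem_iInter, Set.mem_compl_iff, Set.mem_inter_iff, not_and, Prod.forall]
    constructor
    · intro hz n m h
      exact absurd hz h
    · intro hz
      by_contra hcon
      obtain ⟨n, hn⟩ := cov_univ z.1
      obtain ⟨m, hm⟩ := cov_univ z.2
      exact hz n m hcon ⟨hn, hm⟩
  rw [h]
  apply IsGδ.iInter_of_isOpen
  intro p
  rw [isOpen_compl_iff]
  exact ((cov_CD p.1).prod (cov_CD p.2)).closed_sub Set.inter_subset_right

/-- the diagonal is not an intersection of countably many zero sets -/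
theorem diag_not (hA : MAD A) (hb : ∀ k, blk k ∈ A) (F : ℕ → Psi A × Psi A → ℝ)
    (hF : ∀ n, Continuous (F n)) (hF0 : ∀ n p, 0 ≤ F n p) (hFd : ∀ n z, F n (z, z) = 0) :
    ∃ c0 c1 : A, c0 ≠ c1 ∧ ∀ n, F n (aa A c0, aa A c1) = 0 := by
  classical
  have h1 : ∀ k : ℕ, ∃ N : ℕ, ∀ m ∈ blk k, ∀ n ∈ blk k, N ≤ m → N ≤ n →
      (∑ i ∈ Finset.range (k+1), F i (nn A m, nn A n)) < 1 / ((k : ℝ) + 1) := by
    intro k
    have ht := tend_aa hA ⟨blk k, hb k⟩
    have hG : Continuous (fun p : Psi A × Psi A => ∑ i ∈ Finset.range (k+1), F i p) :=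
      continuous_finsetSum _ fun i _ => hF i
    have h2 := (hG.tendsto (aa A ⟨blk k, hb k⟩, aa A ⟨blk k, hb k⟩)).comp
      ((ht.comp tendsto_fst).prodMk_nhds (ht.comp tendsto_snd))
    have h3 : (∑ i ∈ Finset.range (k+1), F i (aa A ⟨blk k, hb k⟩, aa A ⟨blk k, hb k⟩)) = 0 :=
      Finset.sum_eq_zero fun i _ => hFd i _
    rw [h3] at h2
    have h4 := h2.eventually (gt_mem_nhds (show (0:ℝ) < 1 / ((k : ℝ) + 1) by positivity))
    rw [Filter.eventually_prod_iff] at h4
    obtain ⟨pa, hpa, pb, hpb, h5⟩ := h4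
    rw [Filter.eventually_inf_principal, Filter.eventually_atTop] at hpa hpb
    obtain ⟨Na, hNa⟩ := hpa
    obtain ⟨Nb, hNb⟩ := hpb
    refine ⟨max Na Nb, fun m hm n hn h6 h7 => ?_⟩
    exact h5 (hNa m (le_trans (le_max_left _ _) h6) hm) (hNb n (le_trans (le_max_right _ _) h7) hn)
  choose N hN using h1
  have h2 : ∀ k : ℕ, ∃ m ∈ blk k, N k ≤ m ∧ k ≤ m := by
    intro k
    obtain ⟨m, hm, hlt⟩ := (blk_inf k).exists_gt (max (N k) k)
    exact ⟨m, hm, (le_max_left _ _).trans hlt.le, (le_max_right _ _).trans hlt.le⟩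
  choose m hmb hmN hmk using h2
  have hminj : Function.Injective m := by
    intro k l h
    have h1 : (Nat.unpair (m k)).1 = k := hmb k
    have h2 : (Nat.unpair (m l)).1 = l := hmb l
    rw [← h1, ← h2, h]
  obtain ⟨c0, hc0, hinf0⟩ := hA.mx (Set.range m) (Set.infinite_range_of_injective hminj)
  have hK0 : {k | m k ∈ c0}.Infinite := by
    intro hfin
    apply hinf0
    apply (hfin.image m).subset
    rintro _ ⟨hx, ⟨k, rfl⟩⟩
    exact ⟨k, hx, rfl⟩
  have h3 : ∀ k : ℕ, ∃ n, blk k ≠ c0 → n ∈ blk k ∧ n ∉ c0 ∧ N k ≤ n ∧ k ≤ n := by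
    intro k
    by_cases h : blk k = c0
    · exact ⟨0, fun h' => absurd h h'⟩
    · have hfin : (blk k ∩ c0).Finite := hA.ad _ (hb k) _ hc0 h
      have hinf : (blk k \ (blk k ∩ c0)).Infinite := (blk_inf k).sdiff hfin
      obtain ⟨n, hn, hlt⟩ := hinf.exists_gt (max (N k) k)
      exact ⟨n, fun _ => ⟨hn.1, fun h' => hn.2 ⟨hn.1, h'⟩, (le_max_left _ _).trans hlt.le,
        (le_max_right _ _).trans hlt.le⟩⟩
  choose n hn using h3
  have hK0' : {k | m k ∈ c0 ∧ blk k ≠ c0}.Infinite := by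
    have hfin : {k | blk k = c0}.Finite := by
      apply Set.Subsingleton.finite
      intro k hk l hl
      by_contra hne
      have h1 : blk k = blk l := Eq.trans hk (Eq.symm hl)
      have h2 := blk_disj hne
      rw [← h1, Set.inter_self] at h2
      exact (blk_inf k).nonempty.ne_empty h2
    refine (hK0.sdiff hfin).mono ?_
    rintro k ⟨h1, h2⟩
    exact ⟨h1, h2⟩
  have hninj : Set.InjOn n {k | m k ∈ c0 ∧ blk k ≠ c0} := by
    intro k hk l hl h
    have h1 : (Nat.unpair (n k)).1 = k := (hn k hk.2).1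
    have h2 : (Nat.unpair (n l)).1 = l := (hn l hl.2).1
    rw [← h1, ← h2, h]
  obtain ⟨c1, hc1, hinf1⟩ := hA.mx (n '' {k | m k ∈ c0 ∧ blk k ≠ c0}) (hK0'.image hninj)
  let K : Set ℕ := {k | (m k ∈ c0 ∧ blk k ≠ c0) ∧ n k ∈ c1}
  have hK : K.Infinite := by
    intro hfin
    apply hinf1
    apply (hfin.image n).subset
    rintro _ ⟨hx, ⟨k, hk, rfl⟩⟩
    exact ⟨k, ⟨hk, hx⟩, rfl⟩
  have hne : c0 ≠ c1 := by
    rintro rfl
    obtain ⟨k, hk⟩ := hK.nonempty
    exact (hn k hk.1.2).2.1 hk.2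
  refine ⟨⟨c0, hc0⟩, ⟨c1, hc1⟩, fun h => hne (congrArg Subtype.val h), fun i => ?_⟩
  haveI hNB : (atTop ⊓ 𝓟 K : Filter ℕ).NeBot := by
    rw [Filter.inf_principal_neBot_iff]
    intro U hU
    obtain ⟨M, hM⟩ := Filter.mem_atTop_sets.1 hU
    obtain ⟨k, hk, hlt⟩ := hK.exists_gt M
    exact ⟨k, hM k hlt.le, hk⟩
  have hm' : Tendsto m (atTop ⊓ 𝓟 K) (atTop ⊓ 𝓟 c0) := by
    rw [tendsto_inf]
    refine ⟨(tendsto_atTop_mono hmk tendsto_id).mono_left inf_le_left, ?_⟩
    rw [tendsto_principal, Filter.eventually_inf_principal]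
    exact Filter.Eventually.of_forall fun k hk => hk.1.1
  have hn' : Tendsto n (atTop ⊓ 𝓟 K) (atTop ⊓ 𝓟 c1) := by
    rw [tendsto_inf]
    refine ⟨?_, ?_⟩
    · refine tendsto_atTop.2 fun b => ?_
      rw [Filter.eventually_inf_principal]
      filter_upwards [eventually_ge_atTop b] with k hkb hk
      exact hkb.trans (hn k hk.1.2).2.2.2
    · rw [tendsto_principal, Filter.eventually_inf_principal]
      exact Filter.Eventually.of_forall fun k hk => hk.2
  have hlim : Tendsto (fun k => F i (nn A (m k), nn A (n k))) (atTop ⊓ 𝓟 K)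
      (𝓝 (F i (aa A ⟨c0, hc0⟩, aa A ⟨c1, hc1⟩))) :=
    ((hF i).tendsto _).comp (((tend_aa hA ⟨c0, hc0⟩).comp hm').prodMk_nhds ((tend_aa hA ⟨c1, hc1⟩).comp hn'))
  have hlim0 : Tendsto (fun k => F i (nn A (m k), nn A (n k))) (atTop ⊓ 𝓟 K) (𝓝 0) := by
    have hz : Tendsto (fun k : ℕ => 1 / ((k : ℝ) + 1)) (atTop ⊓ 𝓟 K) (𝓝 0) :=
      tendsto_one_div_add_atTop_nhds_zero_nat.mono_left inf_le_left
    refine squeeze_zero' (Filter.Eventually.of_forall fun k => hF0 i _) ?_ hz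
    rw [Filter.eventually_inf_principal]
    filter_upwards [eventually_ge_atTop i] with k hik hk
    have h8 := hN k (m k) (hmb k) (n k) (hn k hk.1.2).1 (hmN k) (hn k hk.1.2).2.2.1
    refine le_trans ?_ h8.le
    exact Finset.single_le_sum (f := fun i => F i (nn A (m k), nn A (n k))) (fun i _ => hF0 i _)
      (Finset.mem_range.2 (by omega))
  exact tendsto_nhds_unique hlim hlim0

section quotient

abbrev XX (A : Set (Set ℕ)) : Type := Psi A × Psi A

/-- functions vanishing on the diagonal -/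
abbrev C0 (A : Set (Set ℕ)) : Type := {f : C(XX A, ℝ) // ∀ z, f (z, z) = 0}

def qq (x : XX A) : C0 A → ℝ := fun f => f.1 x

/-- the R-quotient -/
abbrev QQ (A : Set (Set ℕ)) : Type := Set.range (qq (A := A))

def q' (x : XX A) : QQ A := ⟨qq x, x, rfl⟩

theorem q'_cont : Continuous (q' (A := A)) := by
  apply Continuous.subtype_mk
  apply continuous_pi
  intro f
  exact f.1.continuous

theorem q'_diag (z w : Psi A) : q' (z, z) = q' (w, w) := by
  apply Subtype.ext
  funext f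
  show f.1 (z, z) = f.1 (w, w)
  rw [f.2, f.2]

instance sumCR {X Y : Type} [TopologicalSpace X] [TopologicalSpace Y] [CompletelyRegularSpace X]
    [CompletelyRegularSpace Y] : CompletelyRegularSpace (X ⊕ Y) := by
  constructor
  intro x K hK hx
  rcases x with x | x
  · obtain ⟨f, hf, hfx, hfK⟩ := CompletelyRegularSpace.completely_regular x (Sum.inl ⁻¹' K)
      (hK.preimage continuous_inl) hx
    refine ⟨Sum.elim f (fun _ => 1), hf.sumElim continuous_const, hfx, ?_⟩
    intro y hy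
    rcases y with y | y
    · exact hfK hy
    · rfl
  · obtain ⟨f, hf, hfx, hfK⟩ := CompletelyRegularSpace.completely_regular x (Sum.inr ⁻¹' K)
      (hK.preimage continuous_inr) hx
    refine ⟨Sum.elim (fun _ => 1) f, continuous_const.sumElim hf, hfx, ?_⟩
    intro y hy
    rcases y with y | y
    · rfl
    · exact hfK hy

instance sumT35 {X Y : Type} [TopologicalSpace X] [TopologicalSpace Y] [T35Space X]
    [T35Space Y] : T35Space (X ⊕ Y) where

/-- the function `f - f ∘ r` -/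
def f0 (F : C(XX A ⊕ Unit, ℝ)) : C0 A :=
  ⟨⟨fun x => F (Sum.inl x) - F (Sum.inl (x.1, x.1)), by fun_prop⟩, fun z => by simp⟩

def toF (F : C(XX A ⊕ Unit, ℝ)) : C(QQ A ⊕ Psi A, ℝ) :=
  ⟨Sum.elim (fun y => y.1 (f0 F) + F (Sum.inr ())) (fun z => F (Sum.inl (z, z))), by
    apply Continuous.sumElim
    · exact ((continuous_apply (f0 F)).comp continuous_subtype_val).add continuous_const
    · exact F.continuous.comp (continuous_inl.comp (continuous_id.prodMk continuous_id))⟩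

noncomputable def z0 : Psi A := nn A 0

noncomputable def invF (G : C(QQ A ⊕ Psi A, ℝ)) : C(XX A ⊕ Unit, ℝ) :=
  ⟨Sum.elim (fun x => G (Sum.inl (q' x)) - G (Sum.inl (q' (z0, z0))) + G (Sum.inr x.1))
    (fun _ => G (Sum.inl (q' (z0, z0)))), by
    apply Continuous.sumElim
    · exact ((G.continuous.comp (continuous_inl.comp q'_cont)).sub continuous_const).add
        (G.continuous.comp (continuous_inr.comp continuous_fst))
    · exact continuous_const⟩

theorem left_inv' (F : C(XX A ⊕ Unit, ℝ)) : invF (toF F) = F := by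
  ext x
  have e0 : (q' (z0, z0) : QQ A).1 (f0 F) = 0 := (f0 F).2 z0
  rcases x with x | x
  · show (((q' x : QQ A).1 (f0 F) + F (Sum.inr ())) - ((q' (z0, z0) : QQ A).1 (f0 F) + F (Sum.inr ())))
      + F (Sum.inl (x.1, x.1)) = F (Sum.inl x)
    rw [e0]
    have e1 : (q' x : QQ A).1 (f0 F) = F (Sum.inl x) - F (Sum.inl (x.1, x.1)) := rfl
    rw [e1]
    ring
  · show ((q' (z0, z0) : QQ A).1 (f0 F) + F (Sum.inr ())) = F (Sum.inr x)
    rw [e0, zero_add]

theorem right_inv' (G : C(QQ A ⊕ Psi A, ℝ)) : toF (invF G) = G := by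
  ext x
  rcases x with ⟨_, ⟨x, rfl⟩⟩ | z
  · show ((invF G) (Sum.inl x) - (invF G) (Sum.inl (x.1, x.1))) + (invF G) (Sum.inr ()) = G (Sum.inl (q' x))
    show ((G (Sum.inl (q' x)) - G (Sum.inl (q' (z0, z0))) + G (Sum.inr x.1)) -
      (G (Sum.inl (q' (x.1, x.1))) - G (Sum.inl (q' (z0, z0))) + G (Sum.inr x.1))) +
      G (Sum.inl (q' (z0, z0))) = G (Sum.inl (q' x))
    rw [q'_diag x.1 z0]
    ring
  · show G (Sum.inl (q' (z, z))) - G (Sum.inl (q' (z0, z0))) + G (Sum.inr z) = G (Sum.inr z)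
    rw [q'_diag z z0]
    ring

noncomputable def Phi : C(XX A ⊕ Unit, ℝ) ≃ C(QQ A ⊕ Psi A, ℝ) :=
  ⟨toF, invF, left_inv', right_inv'⟩


noncomputable def TT : {f : (XX A ⊕ Unit) → ℝ // Continuous f} ≃ₜ {g : (QQ A ⊕ Psi A) → ℝ // Continuous g} where
  toFun f := ⟨toF ⟨f.1, f.2⟩, (toF ⟨f.1, f.2⟩).continuous⟩
  invFun g := ⟨invF ⟨g.1, g.2⟩, (invF ⟨g.1, g.2⟩).continuous⟩
  left_inv f := by
    apply Subtype.ext
    exact congrArg (fun F : C(XX A ⊕ Unit, ℝ) => (F : (XX A ⊕ Unit) → ℝ)) (left_inv' ⟨f.1, f.2⟩)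
  right_inv g := by
    apply Subtype.ext
    exact congrArg (fun F : C(QQ A ⊕ Psi A, ℝ) => (F : (QQ A ⊕ Psi A) → ℝ)) (right_inv' ⟨g.1, g.2⟩)
  continuous_toFun := by
    apply Continuous.subtype_mk
    apply continuous_pi
    have hev : ∀ x : XX A ⊕ Unit, Continuous (fun f : {f : (XX A ⊕ Unit) → ℝ // Continuous f} => f.1 x) :=
      fun x => (continuous_apply x).comp continuous_subtype_val
    rintro (⟨_, ⟨x, rfl⟩⟩ | z)
    · show Continuous (fun f : {f : (XX A ⊕ Unit) → ℝ // Continuous f} =>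
        (f.1 (Sum.inl x) - f.1 (Sum.inl (x.1, x.1))) + f.1 (Sum.inr ()))
      exact ((hev _).sub (hev _)).add (hev _)
    · exact hev (Sum.inl (z, z))
  continuous_invFun := by
    apply Continuous.subtype_mk
    apply continuous_pi
    have hev : ∀ x : QQ A ⊕ Psi A, Continuous (fun f : {f : (QQ A ⊕ Psi A) → ℝ // Continuous f} => f.1 x) :=
      fun x => (continuous_apply x).comp continuous_subtype_val
    rintro (x | x)
    · show Continuous (fun f : {f : (QQ A ⊕ Psi A) → ℝ // Continuous f} =>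
        (f.1 (Sum.inl (q' x)) - f.1 (Sum.inl (q' (z0, z0)))) + f.1 (Sum.inr x.1))
      exact ((hev _).sub (hev _)).add (hev _)
    · exact hev _

theorem TT_lin (a : ℝ) (f g h : {f : (XX A ⊕ Unit) → ℝ // Continuous f}) (hh : h.1 = a • f.1 + g.1) :
    (TT h).1 = a • (TT f).1 + (TT g).1 := by
  have e : ∀ x, h.1 x = a * f.1 x + g.1 x := by
    intro x
    rw [hh]
    rfl
  funext y
  rcases y with ⟨_, ⟨x, rfl⟩⟩ | z
  · show (h.1 (Sum.inl x) - h.1 (Sum.inl (x.1, x.1))) + h.1 (Sum.inr ()) =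
      a * ((f.1 (Sum.inl x) - f.1 (Sum.inl (x.1, x.1))) + f.1 (Sum.inr ())) +
      ((g.1 (Sum.inl x) - g.1 (Sum.inl (x.1, x.1))) + g.1 (Sum.inr ()))
    rw [e, e, e]
    ring
  · exact e (Sum.inl (z, z))

open Classical in
/-- the point of the quotient corresponding to the diagonal is not `G_δ` -/
theorem not_Gd (hA : MAD A) (hb : ∀ k, blk k ∈ A) : ¬ IsGδ ({q' (z0, z0)} : Set (QQ A)) := by
  intro H
  obtain ⟨U, hU, hUe⟩ := H.eq_iInter_nat
  have h1 : ∀ n, ∃ I : Finset (C0 A), ∀ x : XX A, (∀ f ∈ I, f.1 x = 0) → q' x ∈ U n := by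
    intro n
    obtain ⟨O, hO, hOU⟩ := isOpen_induced_iff.1 (hU n)
    have hmem : q' (z0, z0) ∈ U n := by
      have : q' (z0, z0) ∈ ⋂ n, U n := by rw [← hUe]; rfl
      exact Set.mem_iInter.1 this n
    rw [← hOU] at hmem
    obtain ⟨I, w, hw, hI⟩ := isOpen_pi_iff.1 hO _ hmem
    refine ⟨I, fun x hx => ?_⟩
    rw [← hOU]
    apply hI
    intro f hf
    have e : (q' x : QQ A).1 f = (q' (z0, z0) : QQ A).1 f := by
      show f.1 x = f.1 (z0, z0)
      rw [hx f hf, f.2]
    rw [e]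
    exact (hw f hf).2
  choose I hI using h1
  obtain ⟨c0, c1, hne, hc⟩ := diag_not hA hb (fun n x => ∑ f ∈ I n, |f.1 x|)
    (fun n => continuous_finsetSum _ fun f _ => f.1.continuous.abs)
    (fun n p => Finset.sum_nonneg fun f _ => abs_nonneg _)
    (fun n z => Finset.sum_eq_zero fun f _ => by rw [f.2, abs_zero])
  have h2 : q' (aa A c0, aa A c1) ∈ ({q' (z0, z0)} : Set (QQ A)) := by
    rw [hUe, Set.mem_iInter]
    intro n
    apply hI n
    intro f hf
    have := (Finset.sum_eq_zero_iff_of_nonneg (fun f _ => abs_nonneg (f.1 (aa A c0, aa A c1)))).1 (hc n) f hf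
    exact abs_eq_zero.1 this
  have h3 : qq (aa A c0, aa A c1) = qq (z0, z0) := congrArg Subtype.val h2
  let b2r : Bool → ℝ := fun b => if b = true then 1 else 0
  have hb2r : Continuous b2r := continuous_of_discreteTopology
  let φ : C0 A := ⟨⟨fun x => b2r (x.1.1 (Sum.inr c0)) - b2r (x.2.1 (Sum.inr c0)),
    (hb2r.comp ((coord_cont (Sum.inr c0)).comp continuous_fst)).sub
      (hb2r.comp ((coord_cont (Sum.inr c0)).comp continuous_snd))⟩, fun z => by simp⟩
  have h4 : φ.1 (aa A c0, aa A c1) = φ.1 (z0, z0) := congrFun h3 φ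
  rw [φ.2] at h4
  have h5 : φ.1 (aa A c0, aa A c1) = b2r (decide (c0 = c0)) - b2r (decide (c0 = c1)) := rfl
  rw [h5] at h4
  simp [b2r, hne] at h4

end quotient

/-- The negation of the preceding statement: For Tychonoff spaces X, Y: if every closed subset of X is a G-delta and the spaces of continuous real functions on X and Y with the pointwise topology are linearly homeomorphic, then every closed subset of Y is a G-delta. -/
theorem result :
    ¬ (∀ (X Y : Type) [TopologicalSpace X] [T35Space X] [TopologicalSpace Y] [T35Space Y],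
      (∀ s : Set X, IsClosed s → IsGδ s) →
      (∃ T : {f : X → ℝ // Continuous f} ≃ₜ {g : Y → ℝ // Continuous g},
        ∀ (a : ℝ) (f g h : {f : X → ℝ // Continuous f}),
          h.1 = a • f.1 + g.1 → (T h).1 = a • (T f).1 + (T g).1) →
      ∀ s : Set Y, IsClosed s → IsGδ s) := by
  intro H
  obtain ⟨A, hA, hb⟩ := exists_MAD
  have hX : ∀ s : Set (XX A ⊕ Unit), IsClosed s → IsGδ s := by
    intro s _
    have h1 : (Sum.inl '' (Sum.inl ⁻¹' s)) ∪ (Sum.inr '' (Sum.inr ⁻¹' s)) = s :=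
      Set.image_preimage_inl_union_image_preimage_inr s
    rw [← h1]
    refine IsGδ.union ?_ ?_
    · obtain ⟨U, hU, hUe⟩ := (perfect_sq (Sum.inl ⁻¹' s : Set (XX A))).eq_iInter_nat
      rw [hUe, Set.InjOn.image_iInter_eq Sum.inl_injective.injOn]
      exact IsGδ.iInter_of_isOpen fun n => isOpenMap_inl _ (hU n)
    · exact (isOpenMap_inr _ (isOpen_discrete _)).isGδ
  have h := H (XX A ⊕ Unit) (QQ A ⊕ Psi A) hX ⟨TT, TT_lin⟩ {Sum.inl (q' (z0, z0))} isClosed_singleton
  have h2 := h.preimage (continuous_inl (X := QQ A) (Y := Psi A))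
  have h3 : (Sum.inl ⁻¹' {(Sum.inl (q' (z0, z0)) : QQ A ⊕ Psi A)} : Set (QQ A)) = {q' (z0, z0)} := by
    ext y
    simp
  rw [h3] at h2
  exact not_Gd hA hb h2

end Pool.Agent.S09376
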