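import Pool.Statements.S09388
-- import your own Pool.Agent.* helpers here

set_option autoImplicit false
open Pool Pool.MP_a6a8af_gt

namespace Pool.Agent.S09388

open Set Topology Filter

abbrev V : Type := ℝ × ℝ × ℝ × ℝ
abbrev W : Type := (ℝ × ℝ × ℝ) × (ℝ × ℝ × ℝ) × ℝ

noncomputable def P (w : ℝ × ℝ) : V :=
  (Real.sin w.1 * Real.cos w.2, Real.sin w.1 * Real.sin w.2, Real.cos w.1,
    Real.sin w.1 * |Real.sin w.1|)

lemma P_cont : Continuous P := by
  unfold P
  fun_prop

def h (p : V) : W :=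
  ((p.1 ^ 2, p.2.1 ^ 2, p.2.2.1 ^ 2), (p.1 * p.2.1, p.2.1 * p.2.2.1, p.1 * p.2.2.1), p.2.2.2)

lemma h_cont : Continuous h := by
  unfold h
  fun_prop

def tau (p : V) : V := (-p.1, -p.2.1, -p.2.2.1, p.2.2.2)

lemma tau_cont : Continuous tau := by
  unfold tau
  fun_prop

lemma h_tau (p : V) : h (tau p) = h p := by
  simp [h, tau]

lemma h_fib (p q : V) (hpq : h p = h q) : q = p ∨ q = tau p := by
  obtain ⟨x, y, z, s⟩ := p
  obtain ⟨x', y', z', s'⟩ := q
  simp only [h, Prod.mk.injEq] at hpq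
  obtain ⟨⟨h1, h2, h3⟩, ⟨h4, h5, h6⟩, h7⟩ := hpq
  subst h7
  by_cases hx : x = 0
  · subst hx
    have hx' : x' = 0 := by
      have : x' ^ 2 = 0 := by rw [← h1]; ring
      exact pow_eq_zero_iff (two_ne_zero) |>.1 this
    subst hx'
    by_cases hy : y = 0
    · subst hy
      have hy' : y' = 0 := by
        have : y' ^ 2 = 0 := by rw [← h2]; ring
        exact pow_eq_zero_iff (two_ne_zero) |>.1 this
      subst hy'
      rcases sq_eq_sq_iff_eq_or_eq_neg.1 h3 with hz | hz
      · left; simp [hz]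
      · right; simp [tau, hz]
    · rcases sq_eq_sq_iff_eq_or_eq_neg.1 h2 with hy' | hy'
      · have hz : z' = z := by
          have h8 : y * z = y * z' := by rw [h5, hy']
          exact (mul_left_cancel₀ hy h8).symm
        left; simp [hy', hz]
      · have hyy : y' = -y := by linarith
        have hz : z' = -z := by
          have h8 : y * z = y * (-z') := by rw [h5, hyy]; ring
          have := mul_left_cancel₀ hy h8
          linarith
        right; simp [tau, hyy, hz]
  · rcases sq_eq_sq_iff_eq_or_eq_neg.1 h1 with hx' | hx'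
    · have hy : y' = y := by
        have h8 : x * y = x * y' := by rw [h4, hx']
        exact (mul_left_cancel₀ hx h8).symm
      have hz : z' = z := by
        have h8 : x * z = x * z' := by rw [h6, hx']
        exact (mul_left_cancel₀ hx h8).symm
      left; simp [hx', hy, hz]
    · have hxx : x' = -x := by linarith
      have hy : y' = -y := by
        have h8 : x * y = x * (-y') := by rw [h4, hxx]; ring
        have := mul_left_cancel₀ hx h8
        linarith
      have hz : z' = -z := by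
        have h8 : x * z = x * (-z') := by rw [h6, hxx]; ring
        have := mul_left_cancel₀ hx h8
        linarith
      right; simp [tau, hxx, hy, hz]

lemma tau_P (w : ℝ × ℝ) : tau (P w) = P (Real.pi - w.1, w.2 + Real.pi) := by
  simp [tau, P, Real.sin_pi_sub, Real.cos_pi_sub, Real.cos_add_pi, Real.sin_add_pi]

/-- representatives in a square -/
lemma rep (w : ℝ × ℝ) : ∃ w' : ℝ × ℝ, w'.1 ∈ Ico 0 (2 * Real.pi) ∧ w'.2 ∈ Ico 0 (2 * Real.pi) ∧
    Real.sin w.1 = Real.sin w'.1 ∧ Real.cos w.1 = Real.cos w'.1 ∧ P w' = P w := by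
  have hper : Function.Periodic (fun t : ℝ => (Real.sin t, Real.cos t)) (2 * Real.pi) := by
    intro t
    simp
  obtain ⟨a, ha, ha'⟩ := hper.exists_mem_Ico₀ Real.two_pi_pos w.1
  obtain ⟨b, hb, hb'⟩ := hper.exists_mem_Ico₀ Real.two_pi_pos w.2
  simp only [Prod.mk.injEq] at ha' hb'
  refine ⟨(a, b), ha, hb, ha'.1, ha'.2, ?_⟩
  simp only [P]
  rw [ha'.1, ha'.2, hb'.1, hb'.2]

abbrev X : Type := range P
abbrev Y : Type := range (h ∘ P)

noncomputable def PX (w : ℝ × ℝ) : X := ⟨P w, w, rfl⟩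

lemma PX_cont : Continuous PX := P_cont.subtype_mk _

lemma PX_surj : Function.Surjective PX := by
  rintro ⟨_, w, rfl⟩
  exact ⟨w, rfl⟩

def K : Set (ℝ × ℝ) := Icc 0 (2 * Real.pi) ×ˢ Icc 0 (2 * Real.pi)

lemma K_compact : IsCompact K := isCompact_Icc.prod isCompact_Icc

lemma PX_K (x : X) : ∃ w ∈ K, PX w = x := by
  obtain ⟨_, w, rfl⟩ := x
  obtain ⟨w', h1, h2, _, _, h3⟩ := rep w
  exact ⟨w', ⟨⟨h1.1, h1.2.le⟩, ⟨h2.1, h2.2.le⟩⟩, Subtype.ext h3⟩

lemma PX_quot : IsQuotientMap PX := by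
  rw [isQuotientMap_iff_isClosed]
  refine ⟨PX_surj, fun s => ⟨fun hs => hs.preimage PX_cont, fun hs => ?_⟩⟩
  have he : s = PX '' (K ∩ PX ⁻¹' s) := by
    ext x
    constructor
    · intro hx
      obtain ⟨w, hw, rfl⟩ := PX_K x
      exact ⟨w, ⟨hw, hx⟩, rfl⟩
    · rintro ⟨w, ⟨_, hw⟩, rfl⟩
      exact hw
  rw [he]
  exact ((K_compact.inter_right hs).image PX_cont).isClosed

instance : CompactSpace X := by
  refine ⟨?_⟩
  have he : (univ : Set X) = PX '' K := by
    ext x
    constructor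
    · intro _
      obtain ⟨w, hw, rfl⟩ := PX_K x
      exact ⟨w, hw, rfl⟩
    · intro _; trivial
  rw [he]
  exact K_compact.image PX_cont

instance : ConnectedSpace X := PX_surj.connectedSpace PX_cont

instance : LocallyConnectedSpace X := PX_quot.isCoinducing.locallyConnectedSpace

noncomputable def f (x : X) : Y := ⟨h x.1, by
  obtain ⟨_, w, rfl⟩ := x
  exact ⟨w, rfl⟩⟩

lemma f_cont : Continuous f := (h_cont.comp continuous_subtype_val).subtype_mk _

lemma f_surj : Function.Surjective f := by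
  rintro ⟨_, w, rfl⟩
  exact ⟨PX w, rfl⟩

lemma f_quot : IsQuotientMap f := f_cont.isClosedMap.isQuotientMap f_cont f_surj

noncomputable def tX (x : X) : X := ⟨tau x.1, by
  obtain ⟨_, w, rfl⟩ := x
  exact ⟨_, (tau_P w).symm⟩⟩

lemma tX_cont : Continuous tX := (tau_cont.comp continuous_subtype_val).subtype_mk _

lemma f_tX (x : X) : f (tX x) = f x := Subtype.ext (h_tau x.1)

lemma f_fib (x y : X) (hxy : f x = f y) : y = x ∨ y = tX x := by
  rcases h_fib x.1 y.1 (congrArg Subtype.val hxy) with h1 | h1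
  · exact Or.inl (Subtype.ext h1)
  · exact Or.inr (Subtype.ext h1)

lemma f_open : IsOpenMap f := by
  intro O hO
  rw [← f_quot.isOpen_preimage]
  have : f ⁻¹' (f '' O) = O ∪ tX ⁻¹' O := by
    ext x
    constructor
    · rintro ⟨y, hy, hyx⟩
      rcases f_fib x y hyx.symm with rfl | rfl
      · exact Or.inl hy
      · exact Or.inr hy
    · rintro (hx | hx)
      · exact ⟨x, hx, rfl⟩
      · exact ⟨tX x, hx, f_tX x⟩
  rw [this]
  exact hO.union (hO.preimage tX_cont)

def ip (p q : V) : ℝ := p.1 * q.1 + p.2.1 * q.2.1 + p.2.2.1 * q.2.2.1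

lemma ip_self (w : ℝ × ℝ) : ip (P w) (P w) = 1 := by
  simp only [ip, P]
  have h1 := Real.sin_sq_add_cos_sq w.1
  have h2 := Real.sin_sq_add_cos_sq w.2
  have : Real.sin w.1 * Real.cos w.2 * (Real.sin w.1 * Real.cos w.2) +
      Real.sin w.1 * Real.sin w.2 * (Real.sin w.1 * Real.sin w.2) + Real.cos w.1 * Real.cos w.1 =
      Real.sin w.1 ^ 2 * (Real.sin w.2 ^ 2 + Real.cos w.2 ^ 2) + Real.cos w.1 ^ 2 := by ring
  rw [this, h2, mul_one, h1]

lemma f_lh : IsLocalHomeomorph f := by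
  rw [isLocalHomeomorph_iff_isOpenEmbedding_restrict]
  intro x
  have hc : Continuous (fun y : X => ip x.1 y.1) := by
    unfold ip
    fun_prop
  have hU : IsOpen {y : X | 0 < ip x.1 y.1} := isOpen_lt continuous_const hc
  refine ⟨{y : X | 0 < ip x.1 y.1}, hU.mem_nhds ?_, ?_⟩
  · obtain ⟨_, w, rfl⟩ := x
    change 0 < ip (P w) (P w)
    rw [ip_self]
    exact one_pos
  · refine IsOpenEmbedding.of_continuous_injective_isOpenMap
      (f_cont.comp continuous_subtype_val) ?_ (f_open.comp hU.isOpenMap_subtype_val)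
    rintro ⟨a, ha⟩ ⟨b, hb⟩ hab
    rcases f_fib a b hab with h1 | h1
    · exact Subtype.ext h1.symm
    · exfalso
      subst h1
      have ha' : 0 < ip x.1 a.1 := ha
      have hb' : 0 < ip x.1 (tau a.1) := hb
      simp only [ip, tau] at ha' hb'
      linarith

lemma sin_nonneg_rep (w : ℝ × ℝ) (hs : 0 ≤ (P w).2.2.2) : ∃ w' : ℝ × ℝ, w'.1 ∈ Icc 0 Real.pi ∧
    P w' = P w := by
  obtain ⟨w', h1, _, h3, _, h5⟩ := rep w
  refine ⟨w', ⟨h1.1, ?_⟩, h5⟩
  by_contra hgt
  push Not at hgt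
  have hneg : Real.sin w'.1 < 0 := by
    have := Real.sin_pos_of_pos_of_lt_pi (x := w'.1 - Real.pi) (by linarith) (by linarith [h1.2])
    rw [Real.sin_sub_pi] at this
    linarith
  rw [← h5] at hs
  simp only [P] at hs
  have : Real.sin w'.1 * |Real.sin w'.1| < 0 :=
    mul_neg_of_neg_of_pos hneg (abs_pos.2 hneg.ne)
  linarith

lemma sin_nonpos_rep (w : ℝ × ℝ) (hs : (P w).2.2.2 ≤ 0) : ∃ w' : ℝ × ℝ,
    w'.1 ∈ Icc Real.pi (2 * Real.pi) ∧ P w' = P w := by
  obtain ⟨w', h1, _, h3, _, h5⟩ := rep w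
  rw [← h5] at hs
  simp only [P] at hs
  by_cases h0 : w'.1 = 0
  · refine ⟨(2 * Real.pi, w'.2), ⟨by linarith [Real.pi_pos], le_rfl⟩, ?_⟩
    rw [← h5]
    simp [P, h0]
  · refine ⟨w', ⟨?_, h1.2.le⟩, h5⟩
    by_contra hlt
    push Not at hlt
    have hpos : 0 < Real.sin w'.1 :=
      Real.sin_pos_of_pos_of_lt_pi (lt_of_le_of_ne h1.1 (Ne.symm h0)) hlt
    have : 0 < Real.sin w'.1 * |Real.sin w'.1| := mul_pos hpos (abs_pos.2 hpos.ne')
    linarith

lemma X_not : ∃ A B : Set X, IsClosed A ∧ IsClosed B ∧ IsConnected A ∧ IsConnected B ∧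
          A ∪ B = Set.univ ∧ ¬ IsConnected (A ∩ B) := by
  have hs : Continuous (fun x : X => x.1.2.2.2) := by fun_prop
  have hz : Continuous (fun x : X => x.1.2.2.1) := by fun_prop
  refine ⟨{x | 0 ≤ x.1.2.2.2}, {x | x.1.2.2.2 ≤ 0}, isClosed_le continuous_const hs,
    isClosed_le hs continuous_const, ?_, ?_, ?_, ?_⟩
  · have : {x : X | 0 ≤ x.1.2.2.2} = PX '' (Icc 0 Real.pi ×ˢ univ) := by
      ext x
      constructor
      · intro hx
        obtain ⟨_, w, rfl⟩ := x
        obtain ⟨w', h1, h2⟩ := sin_nonneg_rep w hx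
        exact ⟨w', ⟨h1, trivial⟩, Subtype.ext h2⟩
      · rintro ⟨w, ⟨h1, _⟩, rfl⟩
        exact mul_nonneg (Real.sin_nonneg_of_nonneg_of_le_pi h1.1 h1.2) (abs_nonneg _)
    rw [this]
    exact ((isConnected_Icc Real.pi_pos.le).prod isConnected_univ).image _ PX_cont.continuousOn
  · have : {x : X | x.1.2.2.2 ≤ 0} = PX '' (Icc Real.pi (2 * Real.pi) ×ˢ univ) := by
      ext x
      constructor
      · intro hx
        obtain ⟨_, w, rfl⟩ := x
        obtain ⟨w', h1, h2⟩ := sin_nonpos_rep w hx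
        exact ⟨w', ⟨h1, trivial⟩, Subtype.ext h2⟩
      · rintro ⟨w, ⟨h1, _⟩, rfl⟩
        have : Real.sin w.1 ≤ 0 := by
          have := Real.sin_nonneg_of_nonneg_of_le_pi (x := w.1 - Real.pi) (by linarith [h1.1])
            (by linarith [h1.2])
          rw [Real.sin_sub_pi] at this
          linarith
        exact mul_nonpos_of_nonpos_of_nonneg this (abs_nonneg _)
    rw [this]
    exact ((isConnected_Icc (by linarith [Real.pi_pos])).prod isConnected_univ).image _
      PX_cont.continuousOn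
  · ext x
    simp only [mem_union, mem_ofPred_eq, mem_univ, iff_true]
    exact le_total _ _
  · intro hc
    have himg := hc.isPreconnected.image _ hz.continuousOn
    have m1 : (1 : ℝ) ∈ (fun x : X => x.1.2.2.1) '' ({x : X | 0 ≤ x.1.2.2.2} ∩ {x : X | x.1.2.2.2 ≤ 0}) := by
      refine ⟨PX (0, 0), ⟨?_, ?_⟩, ?_⟩ <;> simp [PX, P]
    have m2 : (-1 : ℝ) ∈ (fun x : X => x.1.2.2.1) '' ({x : X | 0 ≤ x.1.2.2.2} ∩ {x : X | x.1.2.2.2 ≤ 0}) := by
      refine ⟨PX (Real.pi, 0), ⟨?_, ?_⟩, ?_⟩ <;> simp [PX, P]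
    have m3 := himg.ordConnected.out m2 m1 (show (0:ℝ) ∈ Icc (-1) 1 by constructor <;> norm_num)
    obtain ⟨x, ⟨h1, h2⟩, h3⟩ := m3
    obtain ⟨_, w, rfl⟩ := x
    have h0 : Real.sin w.1 * |Real.sin w.1| = 0 := le_antisymm h2 h1
    have hc0 : Real.cos w.1 = 0 := h3
    have hs0 : Real.sin w.1 = 0 := by
      rcases mul_eq_zero.1 h0 with h | h
      · exact h
      · exact abs_eq_zero.1 h
    have := Real.sin_sq_add_cos_sq w.1
    rw [hs0, hc0] at this
    norm_num at this

lemma int_const {Z : Type} [TopologicalSpace Z] (A : Set Z) (hA : IsPreconnected A) (k : Z → ℝ)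
    (hk : ContinuousOn k A) (hint : ∀ y ∈ A, ∃ n : ℤ, (n : ℝ) = k y) :
    ∀ y ∈ A, ∀ y' ∈ A, k y = k y' := by
  have key : ∀ y ∈ A, ∀ y' ∈ A, ¬ k y < k y' := by
    intro y hy y' hy' hlt
    obtain ⟨m, hm⟩ := hint y hy
    obtain ⟨m', hm'⟩ := hint y' hy'
    have h1 : m < m' := by
      have : (m : ℝ) < m' := by rw [hm, hm']; exact hlt
      exact_mod_cast this
    have h2 : (m : ℝ) + 1 ≤ m' := by exact_mod_cast h1
    have h3 : k y + 1 / 2 ∈ k '' A := by
      apply (hA.image k hk).ordConnected.out ⟨y, hy, rfl⟩ ⟨y', hy', rfl⟩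
      constructor
      · linarith
      · rw [← hm, ← hm']; linarith
    obtain ⟨z, hz, hz'⟩ := h3
    obtain ⟨n, hn⟩ := hint z hz
    have h4 : (n : ℝ) = m + 1 / 2 := by rw [hn, hz', hm]
    have h5 : (2 * n : ℝ) = 2 * m + 1 := by rw [h4]; ring
    have h6 : 2 * n = 2 * m + 1 := by exact_mod_cast h5
    omega
  intro y hy y' hy'
  exact le_antisymm (not_lt.1 (key y' hy' y hy)) (not_lt.1 (key y hy y' hy'))

lemma int_of_coe (a b : ℝ) (hab : (a : AddCircle (1:ℝ)) = (b : AddCircle (1:ℝ))) :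
    ∃ n : ℤ, (n : ℝ) = a - b := by
  have h1 : ((a - b : ℝ) : AddCircle (1:ℝ)) = 0 := by
    rw [AddCircle.coe_sub, hab, sub_self]
  obtain ⟨n, hn⟩ := (AddCircle.coe_eq_zero_iff (1:ℝ)).1 h1
  exact ⟨n, by simpa using hn⟩

noncomputable def FX (w : ℝ × ℝ) : Y := f (PX w)

lemma FX_cont : Continuous FX := f_cont.comp PX_cont

lemma FX_quot : IsQuotientMap FX := f_quot.comp PX_quot

lemma FX_tau (w : ℝ × ℝ) : FX (Real.pi - w.1, w.2 + Real.pi) = FX w := by
  have h1 : PX (Real.pi - w.1, w.2 + Real.pi) = tX (PX w) := Subtype.ext (tau_P w).symm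
  unfold FX
  rw [h1, f_tX]

lemma lift_exists (φ : C(Y, AddCircle (1:ℝ))) :
    ∃ G : Y → ℝ, Continuous G ∧ ∀ y, ((G y : ℝ) : AddCircle (1:ℝ)) = φ y := by
  obtain ⟨e0, he0⟩ := QuotientAddGroup.mk_surjective (φ (FX (0, 0)))
  obtain ⟨T, ⟨_, hT⟩, _⟩ := (AddCircle.isCoveringMap_coe (1:ℝ)).existsUnique_continuousMap_lifts
    (φ.comp ⟨FX, FX_cont⟩) ((0, 0) : ℝ × ℝ) e0 he0
  have hT' : ∀ w, ((T w : ℝ) : AddCircle (1:ℝ)) = φ (FX w) := fun w => congrFun hT w
  have hTc : Continuous T := T.continuous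
  have hD : ∀ σ : ℝ × ℝ → ℝ × ℝ, Continuous σ → (∀ w, FX (σ w) = FX w) →
      ∀ w w', T (σ w) - T w = T (σ w') - T w' := by
    intro σ hσ hF w w'
    refine int_const univ isPreconnected_univ (fun w => T (σ w) - T w)
      ((hTc.comp hσ).sub hTc).continuousOn ?_ w trivial w' trivial
    intro y _
    exact int_of_coe _ _ (by rw [hT', hT', hF])
  have hpole : ∀ α, T (0, α) = T (0, 0) := by
    intro α
    have := int_const (Z := ℝ) univ isPreconnected_univ (fun α => T (0, α) - T (0, 0))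
      (by fun_prop) ?_ α trivial 0 trivial
    · simp only [sub_self] at this
      linarith
    · intro y _
      refine int_of_coe _ _ ?_
      have hP0 : PX (0, y) = PX (0, 0) := by
        apply Subtype.ext
        simp [PX, P]
      have hF0 : FX (0, y) = FX (0, 0) := by
        unfold FX
        rw [hP0]
      rw [hT', hT', hF0]
  -- periodicity in α
  have h1 : ∀ w : ℝ × ℝ, T (w.1, w.2 + 2 * Real.pi) = T w := by
    intro w
    have hd := hD (fun w => (w.1, w.2 + 2 * Real.pi)) (by fun_prop) (fun w => by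
      unfold FX
      congr 1
      apply Subtype.ext
      simp [PX, P]) w (0, 0)
    simp only at hd
    rw [hpole (0 + 2 * Real.pi)] at hd
    linarith
  have h2 : ∀ w : ℝ × ℝ, T (Real.pi - w.1, w.2 + Real.pi) = T w := by
    intro w
    have hd := hD (fun w => (Real.pi - w.1, w.2 + Real.pi)) (by fun_prop) FX_tau w
      (Real.pi - w.1, w.2 + Real.pi)
    simp only at hd
    have e1 : (Real.pi - (Real.pi - w.1), w.2 + Real.pi + Real.pi) =
        ((w.1, w.2 + 2 * Real.pi) : ℝ × ℝ) := by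
      ext
      · simp
      · simp only; ring
    rw [e1, h1 w] at hd
    linarith
  have hpi : ∀ α, T (Real.pi, α) = T (0, 0) := by
    intro α
    have := h2 (0, α - Real.pi)
    simp only [sub_zero, sub_add_cancel] at this
    rw [this, hpole]
  have h3 : ∀ w : ℝ × ℝ, T (w.1 + 2 * Real.pi, w.2) = T w := by
    have hd : ∀ w w' : ℝ × ℝ, T (w.1 + 2 * Real.pi, w.2) - T w =
        T (w'.1 + 2 * Real.pi, w'.2) - T w' :=
      hD (fun w => (w.1 + 2 * Real.pi, w.2)) (by fun_prop) (fun w => by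
        unfold FX
        congr 1
        apply Subtype.ext
        simp [PX, P])
    intro w
    have a1 := hd w (0, 0)
    have a2 := hd (-Real.pi, 0) (0, 0)
    simp only [zero_add] at a1 a2
    have a3 : (-Real.pi + 2 * Real.pi, (0:ℝ)) = ((Real.pi, 0) : ℝ × ℝ) := by
      ext
      · simp only; ring
      · rfl
    rw [a3, hpi] at a2
    have a4 := h2 (-Real.pi, 0)
    have a5 : (Real.pi - -Real.pi, (0:ℝ) + Real.pi) = ((2 * Real.pi, Real.pi) : ℝ × ℝ) := by
      ext
      · simp only; ring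
      · simp
    rw [a5] at a4
    have a6 := hd (0, Real.pi) (0, 0)
    simp only [zero_add] at a6
    rw [hpole Real.pi] at a6
    linarith
  have p1 : ∀ (α : ℝ) (n : ℤ) (t : ℝ), T (t + n * (2 * Real.pi), α) = T (t, α) := by
    intro α n t
    have hp : Function.Periodic (fun t => T (t, α)) (2 * Real.pi) := fun t => h3 (t, α)
    exact hp.int_mul n t
  have p2 : ∀ (t : ℝ) (n : ℤ) (α : ℝ), T (t, α + n * (2 * Real.pi)) = T (t, α) := by
    intro t n α
    have hp : Function.Periodic (fun α => T (t, α)) (2 * Real.pi) := fun α => h1 (t, α)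
    exact hp.int_mul n α
  have hang : ∀ a b : ℝ, Real.cos a = Real.cos b → Real.sin a = Real.sin b →
      ∃ n : ℤ, a = b + n * (2 * Real.pi) := by
    intro a b hc hs
    obtain ⟨n, hn⟩ := Real.Angle.angle_eq_iff_two_pi_dvd_sub.1 (Real.Angle.cos_sin_inj hc hs)
    exact ⟨n, by linarith⟩
  have hfibP : ∀ w w' : ℝ × ℝ, P w = P w' → T w = T w' := by
    rintro ⟨a, b⟩ ⟨a', b'⟩ hP
    simp only [P, Prod.mk.injEq] at hP
    obtain ⟨e1, e2, e3, e4⟩ := hP
    have hsq : Real.sin a ^ 2 = Real.sin a' ^ 2 := by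
      have q1 := Real.sin_sq_add_cos_sq a
      have q2 := Real.sin_sq_add_cos_sq a'
      rw [e3] at q1
      linarith
    have hsin : Real.sin a = Real.sin a' := by
      rcases sq_eq_sq_iff_eq_or_eq_neg.1 hsq with h | h
      · exact h
      · rw [h, abs_neg] at e4
        have : Real.sin a' * |Real.sin a'| = 0 := by linarith
        have h0 : Real.sin a' = 0 := by
          rcases mul_eq_zero.1 this with h | h
          · exact h
          · exact abs_eq_zero.1 h
        rw [h, h0, neg_zero]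
    by_cases h0 : Real.sin a' = 0
    · have hcc : ∀ c d : ℝ, Real.sin c = 0 → T (c, d) = T (0, 0) := by
        intro c d hc
        have hcos : Real.cos c = 1 ∨ Real.cos c = -1 := by
          have q := Real.sin_sq_add_cos_sq c
          rw [hc] at q
          have : (Real.cos c - 1) * (Real.cos c + 1) = 0 := by linarith [q]
          rcases mul_eq_zero.1 this with h | h
          · left; linarith
          · right; linarith
        rcases hcos with h | h
        · obtain ⟨n, hn⟩ := hang c 0 (by rw [h, Real.cos_zero]) (by rw [hc, Real.sin_zero])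
          rw [hn, p1, hpole]
        · obtain ⟨n, hn⟩ := hang c Real.pi (by rw [h, Real.cos_pi]) (by rw [hc, Real.sin_pi])
          rw [hn, p1, hpi]
      rw [hcc a b (by rw [hsin]; exact h0), hcc a' b' h0]
    · obtain ⟨n, hn⟩ := hang a a' e3 hsin
      rw [hsin] at e1 e2
      obtain ⟨m, hm⟩ := hang b b' (mul_left_cancel₀ h0 e1) (mul_left_cancel₀ h0 e2)
      rw [hn, p1, hm, p2]
  have hfib : ∀ w w' : ℝ × ℝ, FX w = FX w' → T w = T w' := by
    intro w w' hw
    rcases f_fib (PX w) (PX w') hw with h | h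
    · exact hfibP w w' (congrArg Subtype.val h).symm
    · rw [← h2 w]
      apply hfibP
      rw [← tau_P]
      exact (congrArg Subtype.val h).symm
  choose r hr using FX_quot.surjective
  refine ⟨fun y => T (r y), ?_, fun y => by rw [hT', hr]⟩
  rw [FX_quot.continuous_iff]
  have : (fun y => T (r y)) ∘ FX = T := by
    funext w
    exact hfib _ _ (hr _)
  rw [this]
  exact hTc

lemma Y_uni : ¬ ∃ A B : Set Y, IsClosed A ∧ IsClosed B ∧ IsConnected A ∧ IsConnected B ∧
          A ∪ B = Set.univ ∧ ¬ IsConnected (A ∩ B) := by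
  classical
  rintro ⟨A, B, hA, hB, hAc, hBc, hAB, hn⟩
  have hYc : ConnectedSpace Y := f_surj.connectedSpace f_cont
  have hne : (A ∩ B).Nonempty := by
    have := isPreconnected_closed_iff.1 (isPreconnected_univ (α := Y)) A B hA hB
      (by rw [hAB]) (by simpa using hAc.nonempty) (by simpa using hBc.nonempty)
    simpa using this
  have hnp : ¬ IsPreconnected (A ∩ B) := fun h => hn ⟨hne, h⟩
  rw [isPreconnected_closed_iff] at hnp
  push Not at hnp
  obtain ⟨t, t', ht, ht', hsub, h1, h2, h3⟩ := hnp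
  obtain ⟨u, hu0, hu1, hu⟩ := exists_continuous_zero_one_of_isClosed
    ((hA.inter hB).inter ht) ((hA.inter hB).inter ht') (by
      rw [Set.disjoint_left]
      intro y hy hy'
      have : y ∈ A ∩ B ∩ (t ∩ t') := ⟨hy.1, hy.2, hy'.2⟩
      rw [h3] at this
      exact this)
  let ψ : Y → AddCircle (1:ℝ) := fun y => if y ∈ A then ((u y / 2 : ℝ) : AddCircle (1:ℝ))
    else ((-(u y / 2) : ℝ) : AddCircle (1:ℝ))
  have hcoe : Continuous (fun r : ℝ => (r : AddCircle (1:ℝ))) := AddCircle.continuous_mk' 1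
  have hψA : ∀ y ∈ A, ψ y = ((u y / 2 : ℝ) : AddCircle (1:ℝ)) := fun y hy => if_pos hy
  have hhalf : ((1 / 2 : ℝ) : AddCircle (1:ℝ)) = ((-(1 / 2) : ℝ) : AddCircle (1:ℝ)) := by
    have h : ((1 / 2 - -(1 / 2) : ℝ) : AddCircle (1:ℝ)) = 0 := by
      rw [AddCircle.coe_eq_zero_iff]
      exact ⟨1, by norm_num⟩
    rw [AddCircle.coe_sub] at h
    exact sub_eq_zero.1 h
  have hψB : ∀ y ∈ B, ψ y = ((-(u y / 2) : ℝ) : AddCircle (1:ℝ)) := by
    intro y hy
    by_cases hyA : y ∈ A
    · rw [hψA y hyA]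
      rcases hsub ⟨hyA, hy⟩ with h | h
      · have : u y = 0 := hu0 ⟨⟨hyA, hy⟩, h⟩
        rw [this]; simp
      · have : u y = 1 := hu1 ⟨⟨hyA, hy⟩, h⟩
        rw [this]; exact hhalf
    · exact if_neg hyA
  have hψc : Continuous ψ := by
    rw [← continuousOn_univ, ← hAB]
    refine ContinuousOn.union_of_isClosed ?_ ?_ hA hB
    · exact (hcoe.comp (u.continuous.div_const 2)).continuousOn.congr hψA
    · exact (hcoe.comp (u.continuous.div_const 2).neg).continuousOn.congr hψB
  obtain ⟨G, hG, hGψ⟩ := lift_exists ⟨ψ, hψc⟩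
  have cA := int_const A hAc.isPreconnected (fun y => G y - u y / 2)
    (hG.sub (u.continuous.div_const 2)).continuousOn (fun y hy => int_of_coe _ _ (by
      rw [hGψ]; exact hψA y hy))
  have cB := int_const B hBc.isPreconnected (fun y => G y - -(u y / 2))
    (hG.sub (u.continuous.div_const 2).neg).continuousOn (fun y hy => int_of_coe _ _ (by
      rw [hGψ]; exact hψB y hy))
  obtain ⟨y, ⟨hyA, hyB⟩, hyt⟩ := h1
  obtain ⟨y', ⟨hyA', hyB'⟩, hyt'⟩ := h2
  have e0 : u y = 0 := hu0 ⟨⟨hyA, hyB⟩, hyt⟩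
  have e1 : u y' = 1 := hu1 ⟨⟨hyA', hyB'⟩, hyt'⟩
  have ea := cA y hyA y' hyA'
  have eb := cB y hyB y' hyB'
  simp only [e0, e1] at ea eb
  linarith

/-- The negation of the preceding statement: If X is a locally connected metric continuum that is a union of two subcontinua with disconnected intersection, and f is a local homeomorphism of X onto a metric space Y, then Y is also such a union. -/
theorem result :
    ¬ (∀ (X Y : Type) [MetricSpace X] [CompactSpace X] [ConnectedSpace X]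
      [LocallyConnectedSpace X] [MetricSpace Y] (f : X → Y),
      IsLocalHomeomorph f → Function.Surjective f →
      (∃ A B : Set X, IsClosed A ∧ IsClosed B ∧ IsConnected A ∧ IsConnected B ∧
          A ∪ B = Set.univ ∧ ¬ IsConnected (A ∩ B)) →
      (∃ A B : Set Y, IsClosed A ∧ IsClosed B ∧ IsConnected A ∧ IsConnected B ∧
          A ∪ B = Set.univ ∧ ¬ IsConnected (A ∩ B))) := by
  intro hall
  exact Y_uni (hall X Y f f_lh f_surj X_not)

end Pool.Agent.S09388
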