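import Pool.Statements.S09417

set_option autoImplicit false
universe u
open Pool Pool.MP_acdd99_gt

namespace Pool.Agent.S09417

open Cardinal Set Topology

/-- weak Delta-system lemma -/
theorem delta {J I : Type u} (μ : Cardinal.{u}) (hμ : μ.IsRegular) (hμ0 : ℵ₀ < μ) (n : ℕ) :
    ∀ (F : J → Finset I) (S : Set J), μ ≤ #S → (∀ j ∈ S, (F j).card ≤ n) →
    ∃ (R : Finset I) (S' : Set J), S' ⊆ S ∧ μ ≤ #S' ∧
      ∀ j ∈ S', ∀ k ∈ S', j ≠ k → ∀ i, i ∈ F j → i ∈ F k → i ∈ R := by
  classical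
  induction n with
  | zero =>
    intro F S hS hF
    refine ⟨∅, S, subset_rfl, hS, ?_⟩
    intro j hj k hk hjk i hi hi'
    have := Finset.card_eq_zero.1 (Nat.le_zero.1 (hF j hj))
    rw [this] at hi
    exact absurd hi (Finset.notMem_empty i)
  | succ n ih =>
    intro F S hS hF
    by_cases h : ∃ i, μ ≤ #({j | j ∈ S ∧ i ∈ F j} : Set J)
    · obtain ⟨i, hi⟩ := h
      obtain ⟨R, S', h1, h2, h3⟩ := ih (fun j => (F j).erase i) {j | j ∈ S ∧ i ∈ F j} hi (by
        rintro j ⟨hj, hij⟩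
        have := hF j hj
        rw [Finset.card_erase_of_mem hij]
        omega)
      refine ⟨insert i R, S', fun j hj => (h1 hj).1, h2, ?_⟩
      intro j hj k hk hjk x hx hx'
      by_cases hxi : x = i
      · rw [hxi]; exact Finset.mem_insert_self i R
      · exact Finset.mem_insert_of_mem (h3 j hj k hk hjk x (Finset.mem_erase.2 ⟨hxi, hx⟩)
          (Finset.mem_erase.2 ⟨hxi, hx'⟩))
    · push Not at h
      obtain ⟨T, hT⟩ := zorn_subset
        {T : Set J | T ⊆ S ∧ ∀ j ∈ T, ∀ k ∈ T, j ≠ k → Disjoint (F j) (F k)} (by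
        intro c hc hch
        refine ⟨⋃₀ c, ⟨?_, ?_⟩, fun s hs => Set.subset_sUnion_of_mem hs⟩
        · rintro j ⟨t, ht, hj⟩
          exact (hc ht).1 hj
        · rintro j ⟨s, hs, hj⟩ k ⟨t, ht, hk⟩ hjk
          rcases hch.total hs ht with h | h
          · exact (hc ht).2 j (h hj) k hk hjk
          · exact (hc hs).2 j hj k (h hk) hjk)
      refine ⟨∅, T, hT.prop.1, ?_, ?_⟩
      · by_contra hlt
        push Not at hlt
        have hcov : S ⊆ T ∪ ⋃ j ∈ T, ⋃ i ∈ (F j : Set I), {k | k ∈ S ∧ i ∈ F k} := by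
          intro k hk
          by_contra hcon
          have hkT : k ∉ T := fun h => hcon (Or.inl h)
          have hd : ∀ j ∈ T, Disjoint (F j) (F k) := by
            intro j hj
            rw [Finset.disjoint_left]
            intro i hi hi'
            apply hcon
            right
            rw [Set.mem_iUnion₂]
            refine ⟨j, hj, ?_⟩
            rw [Set.mem_iUnion₂]
            exact ⟨i, hi, hk, hi'⟩
          have hins : insert k T ∈ {T : Set J | T ⊆ S ∧ ∀ j ∈ T, ∀ k ∈ T, j ≠ k →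
              Disjoint (F j) (F k)} := by
            refine ⟨?_, ?_⟩
            · rintro j (rfl | hj)
              · exact hk
              · exact hT.prop.1 hj
            · rintro j (rfl | hj) l (rfl | hl) hjl
              · exact absurd rfl hjl
              · exact (hd l hl).symm
              · exact hd j hj
              · exact hT.prop.2 j hj l hl hjl
          exact hkT (hT.le_of_ge hins (Set.subset_insert k T) (Set.mem_insert k T))
        have h1 : #(⋃ j ∈ T, ⋃ i ∈ (F j : Set I), {k | k ∈ S ∧ i ∈ F k} : Set J) < μ := by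
          rw [card_biUnion_lt_iff_forall_of_isRegular hμ hlt]
          intro j hj
          rw [card_biUnion_lt_iff_forall_of_isRegular hμ
            ((Set.Finite.lt_aleph0 (Finset.finite_toSet (F j))).trans hμ0)]
          intro i hi
          exact h i
        have h2 : #S < μ := by
          refine (mk_le_mk_of_subset hcov).trans_lt ((mk_union_le _ _).trans_lt ?_)
          exact add_lt_of_lt hμ.aleph0_le hlt h1
        exact absurd hS (not_le.2 h2)
      · intro j hj k hk hjk i hi hi'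
        exact absurd hi' (Finset.disjoint_left.1 (hT.prop.2 j hj k hk hjk) hi)

theorem interp {X : Type u} [TopologicalSpace X] [T35Space X] (E : Finset X) (t : X → ℝ) :
    ∃ f : X → ℝ, Continuous f ∧ ∀ x ∈ E, f x = t x := by
  classical
  have h : ∀ x : X, ∃ g : X → ℝ, Continuous g ∧ g x = 1 ∧ ∀ y ∈ E, y ≠ x → g y = 0 := by
    intro x
    obtain ⟨f, hf, h0, h1⟩ := CompletelyRegularSpace.completely_regular x ((E.erase x : Finset X) : Set X)
      (Finset.finite_toSet _).isClosed (by simp)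
    refine ⟨fun y => 1 - (f y : ℝ), continuous_const.sub (continuous_subtype_val.comp hf), ?_, ?_⟩
    · simp [h0]
    · intro y hy hyx
      have := h1 (Finset.mem_coe.2 (Finset.mem_erase.2 ⟨hyx, hy⟩))
      simp [this]
  choose g hg h1 h0 using h
  refine ⟨fun y => ∑ x ∈ E, t x * g x y, continuous_finsetSum _ (fun x _ => continuous_const.mul (hg x)), ?_⟩
  intro y hy
  show ∑ x ∈ E, t x * g x y = t y
  rw [Finset.sum_eq_single_of_mem y hy]
  · rw [h1, mul_one]
  · intro x hx hxy
    rw [h0 x y hy (Ne.symm hxy), mul_zero]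

/-- dense curve in a finite power of the line -/
theorem curve {R : Type u} [Finite R] : ∃ h : R → ℝ → ℝ, (∀ i, Continuous (h i)) ∧
    ∀ (v : R → ℝ) (ε : ℝ), 0 < ε → ∃ t : ℝ, ∀ i, |h i t - v i| < ε := by
  classical
  have := Fintype.ofFinite R
  let d := TopologicalSpace.denseSeq (R → ℝ)
  have hc : ∀ i : R, ∃ g : C(ℝ, ℝ), ∀ n : ℕ, g (n : ℝ) = d n i := by
    intro i
    obtain ⟨g, hg⟩ := ContinuousMap.exists_extension (Nat.isClosedEmbedding_coe_real)
      (⟨fun n => d n i, continuous_of_discreteTopology⟩ : C(ℕ, ℝ))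
    refine ⟨g, fun n => ?_⟩
    have := congrArg (fun f : C(ℕ, ℝ) => f n) hg
    exact this
  choose g hg using hc
  refine ⟨fun i => g i, fun i => (g i).continuous, ?_⟩
  intro v ε hε
  have hd : DenseRange d := TopologicalSpace.denseRange_denseSeq _
  obtain ⟨n, hn⟩ := hd.exists_dist_lt v hε
  refine ⟨n, fun i => ?_⟩
  show |g i n - v i| < ε
  rw [hg]
  have := (dist_pi_lt_iff hε).1 hn i
  rw [dist_comm, Real.dist_eq] at this
  exact this

/-- basic neighbourhoods in powers -/
theorem basic {X : Type u} [TopologicalSpace X] {ι : Type u}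
    (U : Set (ι → {f : X → ℝ // Continuous f})) (hU : IsOpen U) (g : ι → {f : X → ℝ // Continuous f})
    (hg : g ∈ U) : ∃ (F : Finset ι) (E : Finset X) (ε : ℝ), 0 < ε ∧
      ∀ f : ι → {f : X → ℝ // Continuous f}, (∀ i ∈ F, ∀ x ∈ E, |(f i).1 x - (g i).1 x| < ε) → f ∈ U := by
  classical
  obtain ⟨F, u, hu, hsub⟩ := isOpen_pi_iff.1 hU g hg
  have h1 : ∀ i : ι, ∃ (E : Finset X) (ε : ℝ), 0 < ε ∧ (i ∈ F → ∀ f : {f : X → ℝ // Continuous f},
      (∀ x ∈ E, |f.1 x - (g i).1 x| < ε) → f ∈ u i) := by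
    intro i
    by_cases hi : i ∈ F
    · obtain ⟨w, hw, hwu⟩ := isOpen_induced_iff.1 (hu i hi).1
      have hgw : (g i).1 ∈ w := by
        have : g i ∈ u i := (hu i hi).2
        rw [← hwu] at this
        exact this
      obtain ⟨E, v, hv, hvs⟩ := isOpen_pi_iff.1 hw (g i).1 hgw
      have h2 : ∀ x : X, ∃ ε : ℝ, 0 < ε ∧ (x ∈ E → ∀ y : ℝ, |y - (g i).1 x| < ε → y ∈ v x) := by
        intro x
        by_cases hx : x ∈ E
        · obtain ⟨ε, hε, hb⟩ := Metric.isOpen_iff.1 (hv x hx).1 _ (hv x hx).2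
          refine ⟨ε, hε, fun _ y hy => hb ?_⟩
          rw [Metric.mem_ball, Real.dist_eq]
          exact hy
        · exact ⟨1, one_pos, fun h => absurd h hx⟩
      choose δ hδ hδ' using h2
      obtain ⟨ε, hε, hle⟩ : ∃ ε : ℝ, 0 < ε ∧ ∀ x ∈ E, ε ≤ δ x := by
        by_cases hE : E.Nonempty
        · refine ⟨E.inf' hE δ, ?_, fun x hx => Finset.inf'_le _ hx⟩
          rw [Finset.lt_inf'_iff]
          exact fun x _ => hδ x
        · refine ⟨1, one_pos, fun x hx => ?_⟩
          exact absurd ⟨x, hx⟩ hE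
      refine ⟨E, ε, hε, fun _ f hf => ?_⟩
      rw [← hwu]
      show f.1 ∈ w
      apply hvs
      intro x hx
      exact hδ' x hx _ (lt_of_lt_of_le (hf x hx) (hle x hx))
    · exact ⟨∅, 1, one_pos, fun h => absurd h hi⟩
  choose E δ hδ hE using h1
  obtain ⟨ε, hε, hle⟩ : ∃ ε : ℝ, 0 < ε ∧ ∀ i ∈ F, ε ≤ δ i := by
    by_cases hF : F.Nonempty
    · refine ⟨F.inf' hF δ, ?_, fun x hx => Finset.inf'_le _ hx⟩
      rw [Finset.lt_inf'_iff]
      exact fun x _ => hδ x
    · refine ⟨1, one_pos, fun x hx => ?_⟩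
      exact absurd ⟨x, hx⟩ hF
  refine ⟨F, F.biUnion E, ε, hε, fun f hf => hsub ?_⟩
  intro i hi
  apply hE i hi
  intro x hx
  exact lt_of_lt_of_le (hf i hi x (Finset.mem_biUnion.2 ⟨i, hi, hx⟩)) (hle i hi)

/-- the main step -/
theorem main {X : Type u} [TopologicalSpace X] [T35Space X] {ι : Type u}
    (𝒰 : Set (Set (ι → {f : X → ℝ // Continuous f})))
    (hU : ∀ U ∈ 𝒰, IsOpen U ∧ U.Nonempty)
    (hpf : ∀ y : ι → {f : X → ℝ // Continuous f}, {U | U ∈ 𝒰 ∧ y ∈ U}.Finite)
    (μ : Cardinal.{u}) (hμ : μ.IsRegular) (hμ0 : ℵ₀ < μ) (hle : μ ≤ #𝒰) :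
    ∃ 𝒱 : Set (Set {f : X → ℝ // Continuous f}), (∀ U ∈ 𝒱, IsOpen U ∧ U.Nonempty) ∧
      (∀ y : {f : X → ℝ // Continuous f}, {U | U ∈ 𝒱 ∧ y ∈ U}.Finite) ∧ μ ≤ #𝒱 := by
  classical
  have hb : ∀ U : 𝒰, ∃ (g : ι → {f : X → ℝ // Continuous f}) (F : Finset ι) (E : Finset X) (ε : ℝ),
      0 < ε ∧ ∀ f : ι → {f : X → ℝ // Continuous f},
        (∀ i ∈ F, ∀ x ∈ E, |(f i).1 x - (g i).1 x| < ε) → f ∈ U.1 := by
    intro U
    obtain ⟨g, hg⟩ := (hU U.1 U.2).2
    obtain ⟨F, E, ε, h1, h2⟩ := basic U.1 (hU U.1 U.2).1 g hg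
    exact ⟨g, F, E, ε, h1, h2⟩
  choose g F E ε hε hsub using hb
  -- uniform bound of the number of coordinates
  obtain ⟨n, hn⟩ := infinite_pigeonhole_card (fun U : 𝒰 => ULift.up.{u} (F U).card) μ hle hμ.aleph0_le (by
    rw [hμ.cof_ord]
    simpa using hμ0)
  obtain ⟨R, S, hS, hSc, hdis⟩ := delta μ hμ hμ0 n.down F _ hn (by
    intro j hj
    have : ULift.up.{u} (F j).card = n := hj
    rw [← this])
  obtain ⟨h, hh, hdense⟩ := curve (R := {i // i ∈ R})
  -- the sets
  let V : 𝒰 → Set {f : X → ℝ // Continuous f} := fun U =>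
    {f | ∀ i : {i // i ∈ R}, i.1 ∈ F U → ∀ x ∈ E U, |h i (f.1 x) - (g U i.1).1 x| < ε U}
  have hVne : ∀ U, (V U).Nonempty := by
    intro U
    have : ∀ x : X, ∃ t : ℝ, ∀ i : {i // i ∈ R}, |h i t - (g U i.1).1 x| < ε U :=
      fun x => hdense (fun i => (g U i.1).1 x) (ε U) (hε U)
    choose t ht using this
    obtain ⟨f, hf, hft⟩ := interp (E U) t
    refine ⟨⟨f, hf⟩, fun i _ x hx => ?_⟩
    show |h i (f x) - (g U i.1).1 x| < ε U
    rw [hft x hx]
    exact ht x i
  have hVo : ∀ U, IsOpen (V U) := by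
    intro U
    have : V U = ⋂ i : {i // i ∈ R}, ⋂ x ∈ (E U), {f : {f : X → ℝ // Continuous f} |
        i.1 ∈ F U → |h i (f.1 x) - (g U i.1).1 x| < ε U} := by
      ext f
      simp only [V, Set.mem_iInter, Set.mem_ofPred_eq]
      constructor
      · intro H i x hx hi
        exact H i hi x hx
      · intro H i hi x hx
        exact H i x hx hi
    rw [this]
    refine isOpen_iInter_of_finite (fun i => isOpen_biInter_finset (fun x _ => ?_))
    by_cases hi : i.1 ∈ F U
    · have : {f : {f : X → ℝ // Continuous f} |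
        i.1 ∈ F U → |h i (f.1 x) - (g U i.1).1 x| < ε U} = {f : {f : X → ℝ // Continuous f} |
          |h i (f.1 x) - (g U i.1).1 x| < ε U} := by
        ext f
        exact ⟨fun H => H hi, fun H _ => H⟩
      rw [this]
      refine isOpen_lt ?_ continuous_const
      exact (((hh i).comp ((continuous_apply x).comp continuous_subtype_val)).sub continuous_const).abs
    · have : {f : {f : X → ℝ // Continuous f} |
        i.1 ∈ F U → |h i (f.1 x) - (g U i.1).1 x| < ε U} = Set.univ := by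
        ext f
        exact ⟨fun _ => trivial, fun _ H => absurd H hi⟩
      rw [this]
      exact isOpen_univ
  have hVpf : ∀ f : {f : X → ℝ // Continuous f}, {U : 𝒰 | U ∈ S ∧ f ∈ V U}.Finite := by
    intro f
    -- a point of the power lying in all of these sets
    let T : Set 𝒰 := {U : 𝒰 | U ∈ S ∧ f ∈ V U}
    let y : ι → {f : X → ℝ // Continuous f} := fun i =>
      if hi : i ∈ R then ⟨fun x => h ⟨i, hi⟩ (f.1 x), (hh ⟨i, hi⟩).comp f.2⟩
      else if H : ∃ U ∈ T, i ∈ F U then g H.choose i else f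
    have hy : ∀ U ∈ T, y ∈ U.1 := by
      intro U hUT
      apply hsub U
      intro i hi x hx
      by_cases hiR : i ∈ R
      · have : y i = ⟨fun x => h ⟨i, hiR⟩ (f.1 x), (hh ⟨i, hiR⟩).comp f.2⟩ := dif_pos hiR
        rw [this]
        exact hUT.2 ⟨i, hiR⟩ hi x hx
      · have H : ∃ U ∈ T, i ∈ F U := ⟨U, hUT, hi⟩
        have h1 : y i = g H.choose i := by
          show (if hi : i ∈ R then _ else _) = _
          rw [dif_neg hiR, dif_pos H]
        have h2 : H.choose = U := by
          by_contra hne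
          exact hiR (hdis _ H.choose_spec.1.1 _ hUT.1 hne i H.choose_spec.2 hi)
        rw [h1, h2, sub_self, abs_zero]
        exact hε U
    have hfin := hpf y
    refine Set.Finite.of_finite_image (f := Subtype.val) (hfin.subset ?_) Subtype.val_injective.injOn
    rintro _ ⟨U, hUT, rfl⟩
    exact ⟨U.2, hy U hUT⟩
  refine ⟨V '' S, ?_, ?_, ?_⟩
  · rintro _ ⟨U, hUS, rfl⟩
    exact ⟨hVo U, hVne U⟩
  · intro f
    refine ((hVpf f).image V).subset ?_
    rintro _ ⟨⟨U, hUS, rfl⟩, hf⟩
    exact ⟨U, ⟨hUS, hf⟩, rfl⟩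
  · by_contra hlt
    push Not at hlt
    have hcov : S ⊆ ⋃ W ∈ V '' S, {U | U ∈ S ∧ V U = W} := by
      intro U hUS
      rw [Set.mem_iUnion₂]
      exact ⟨V U, ⟨U, hUS, rfl⟩, hUS, rfl⟩
    have : #(⋃ W ∈ V '' S, {U | U ∈ S ∧ V U = W} : Set 𝒰) < μ := by
      rw [card_biUnion_lt_iff_forall_of_isRegular hμ hlt]
      rintro _ ⟨U0, hU0, rfl⟩
      obtain ⟨f, hf⟩ := hVne U0
      refine (Set.Finite.lt_aleph0 ((hVpf f).subset ?_)).trans hμ0
      rintro U ⟨hUS, hUV⟩
      refine ⟨hUS, ?_⟩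
      rw [hUV]
      exact hf
    exact absurd (hSc.trans (mk_le_mk_of_subset hcov)) (not_le.2 this)

/-- For every Tychonoff space X and every nonempty index set ι, the supremum of sizes of point-finite families of nonempty open sets in C_p(X) (pointwise topology) equals the same supremum for the product C_p(X)^ι. -/
theorem result :
    ∀ (X : Type u) [TopologicalSpace X] [T35Space X] (ι : Type u) [Nonempty ι],
      sSup {c : Cardinal.{u} | ∃ 𝒰 : Set (Set {f : X → ℝ // Continuous f}),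
          (∀ U ∈ 𝒰, IsOpen U ∧ U.Nonempty) ∧
          (∀ y : {f : X → ℝ // Continuous f}, {U | U ∈ 𝒰 ∧ y ∈ U}.Finite) ∧
          c = Cardinal.mk ↥𝒰}
        =
      sSup {c : Cardinal.{u} | ∃ 𝒰 : Set (Set (ι → {f : X → ℝ // Continuous f})),
          (∀ U ∈ 𝒰, IsOpen U ∧ U.Nonempty) ∧
          (∀ y : ι → {f : X → ℝ // Continuous f}, {U | U ∈ 𝒰 ∧ y ∈ U}.Finite) ∧
          c = Cardinal.mk ↥𝒰} := by
  intro X _ _ ι _
  classical
  obtain ⟨i0⟩ := (inferInstance : Nonempty ι)
  have hbd : ∀ (Z : Type u) [TopologicalSpace Z], BddAbove {c : Cardinal.{u} | ∃ 𝒰 : Set (Set Z),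
      (∀ U ∈ 𝒰, IsOpen U ∧ U.Nonempty) ∧ (∀ y : Z, {U | U ∈ 𝒰 ∧ y ∈ U}.Finite) ∧ c = Cardinal.mk ↥𝒰} := by
    intro Z _
    refine ⟨#(Set Z), ?_⟩
    rintro _ ⟨𝒰, _, _, rfl⟩
    exact mk_set_le 𝒰
  apply le_antisymm
  · -- pull back along a projection
    refine csSup_le ⟨#(∅ : Set (Set {f : X → ℝ // Continuous f})), ⟨∅, by simp, by simp, rfl⟩⟩ ?_
    rintro _ ⟨𝒰, h1, h2, rfl⟩
    have hsurj : Function.Surjective (fun f : ι → {f : X → ℝ // Continuous f} => f i0) :=
      fun z => ⟨fun _ => z, rfl⟩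
    have hinj : Function.Injective (Set.preimage (fun f : ι → {f : X → ℝ // Continuous f} => f i0)) :=
      hsurj.preimage_injective
    rw [← mk_image_eq (s := 𝒰) hinj]
    apply le_csSup (hbd _)
    refine ⟨_, ?_, ?_, rfl⟩
    · rintro _ ⟨U, hU, rfl⟩
      exact ⟨(h1 U hU).1.preimage (continuous_apply i0), (h1 U hU).2.preimage hsurj⟩
    · intro y
      refine ((h2 (y i0)).image (Set.preimage (fun f : ι → {f : X → ℝ // Continuous f} => f i0))).subset ?_
      rintro _ ⟨⟨U, hU, rfl⟩, hy⟩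
      exact ⟨U, ⟨hU, hy⟩, rfl⟩
  · refine csSup_le ⟨#(∅ : Set (Set (ι → {f : X → ℝ // Continuous f}))), ⟨∅, by simp, by simp, rfl⟩⟩ ?_
    rintro _ ⟨𝒰, h1, h2, rfl⟩
    rcases isEmpty_or_nonempty X with hX | ⟨⟨x0⟩⟩
    · -- one-point spaces
      have hsub : Subsingleton {f : X → ℝ // Continuous f} :=
        ⟨fun f g => Subtype.ext (funext fun x => hX.elim x)⟩
      have hle1 : #𝒰 ≤ 1 := by
        rw [le_one_iff_subsingleton]
        refine ⟨fun U V => Subtype.ext ?_⟩
        have hu : ∀ W : 𝒰, W.1 = Set.univ := by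
          intro W
          obtain ⟨w, hw⟩ := (h1 W.1 W.2).2
          ext z
          exact ⟨fun _ => trivial, fun _ => by rwa [Subsingleton.elim z w]⟩
        rw [hu U, hu V]
      refine hle1.trans ?_
      apply le_csSup (hbd _)
      refine ⟨{Set.univ}, ?_, ?_, ?_⟩
      · intro U hU
        rw [Set.mem_singleton_iff] at hU
        subst hU
        exact ⟨isOpen_univ, ⟨⟨fun _ => 0, continuous_const⟩, trivial⟩⟩
      · intro y
        exact (Set.finite_singleton Set.univ).subset (fun U hU => hU.1)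
      · rw [mk_singleton]
    · -- countable lower bound
      have hω : ℵ₀ ≤ sSup {c : Cardinal.{u} | ∃ 𝒰 : Set (Set {f : X → ℝ // Continuous f}),
          (∀ U ∈ 𝒰, IsOpen U ∧ U.Nonempty) ∧
          (∀ y : {f : X → ℝ // Continuous f}, {U | U ∈ 𝒰 ∧ y ∈ U}.Finite) ∧
          c = Cardinal.mk ↥𝒰} := by
        let B : ℕ → Set {f : X → ℝ // Continuous f} := fun n => {f | |f.1 x0 - n| < 1 / 2}
        have hBn : ∀ n m : ℕ, ∀ f : {f : X → ℝ // Continuous f}, f ∈ B n → f ∈ B m → n = m := by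
          intro n m f hn hm
          have h1 : |f.1 x0 - n| < 1 / 2 := hn
          have h2 : |f.1 x0 - m| < 1 / 2 := hm
          rw [abs_lt] at h1 h2
          have h3 : (n : ℝ) < m + 1 := by linarith
          have h4 : (m : ℝ) < n + 1 := by linarith
          have h5 : n < m + 1 := by exact_mod_cast h3
          have h6 : m < n + 1 := by exact_mod_cast h4
          omega
        have hBne : ∀ n : ℕ, (⟨fun _ => (n : ℝ), continuous_const⟩ : {f : X → ℝ // Continuous f}) ∈ B n := by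
          intro n
          show |(n : ℝ) - n| < 1 / 2
          rw [sub_self, abs_zero]
          norm_num
        have hBinj : Function.Injective B := by
          intro n m hnm
          exact hBn n m _ (hBne n) (hnm ▸ hBne n)
        have : ℵ₀ = #(Set.range B) := by
          have := mk_range_eq_of_injective (f := fun n : ULift.{u} ℕ => B n.down) (by
            intro a b hab
            exact ULift.ext _ _ (hBinj hab))
          have h3 : Set.range (fun n : ULift.{u} ℕ => B n.down) = Set.range B := by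
            ext W
            constructor
            · rintro ⟨n, rfl⟩; exact ⟨n.down, rfl⟩
            · rintro ⟨n, rfl⟩; exact ⟨⟨n⟩, rfl⟩
          rw [h3] at this
          rw [lift_id, lift_id] at this
          rw [this]
          simp
        rw [this]
        apply le_csSup (hbd _)
        refine ⟨_, ?_, ?_, rfl⟩
        · rintro _ ⟨n, rfl⟩
          refine ⟨?_, ⟨_, hBne n⟩⟩
          refine isOpen_lt ?_ continuous_const
          exact (((continuous_apply x0).comp continuous_subtype_val).sub continuous_const).abs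
        · intro y
          apply Set.Subsingleton.finite
          rintro _ ⟨⟨n, rfl⟩, hn⟩ _ ⟨⟨m, rfl⟩, hm⟩
          rw [hBn n m y hn hm]
      by_contra hlt
      push Not at hlt
      set κ := sSup {c : Cardinal.{u} | ∃ 𝒰 : Set (Set {f : X → ℝ // Continuous f}),
          (∀ U ∈ 𝒰, IsOpen U ∧ U.Nonempty) ∧
          (∀ y : {f : X → ℝ // Continuous f}, {U | U ∈ 𝒰 ∧ y ∈ U}.Finite) ∧
          c = Cardinal.mk ↥𝒰} with hκ
      obtain ⟨𝒱, g1, g2, g3⟩ := main 𝒰 h1 h2 (Order.succ κ) (isRegular_succ hω)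
        (hω.trans_lt (Order.lt_succ κ)) (Order.succ_le_of_lt hlt)
      have : #𝒱 ≤ κ := by
        rw [hκ]
        exact le_csSup (hbd _) ⟨𝒱, g1, g2, rfl⟩
      exact absurd (g3.trans this) (not_le.2 (Order.lt_succ κ))

end Pool.Agent.S09417
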