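import Pool.Statements.S09464
import Pool.Agent.H20.EqLinesE

set_option autoImplicit false
open Pool Pool.MP_ba31d6_gt

namespace Pool.Agent.S09464

open Pool.Agent.H20.EqLines

/-- The negation of the preceding statement: For r ≥ 2, with N the maximum number of equiangular lines in R^r: a metric space embeds isometrically in elliptic space RP^(r-1) whenever all its subsets of at most N+1 points do, but this fails with N in place of N+1. -/
theorem result :
    ¬ (∀ r : ℕ, 2 ≤ r → ∀ N : ℕ,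
    IsGreatest {n : ℕ | ∃ v : Fin n → EuclideanSpace ℝ (Fin r), ∃ c : ℝ, c < 1 ∧
        (∀ i, ‖v i‖ = 1) ∧ ∀ i j, i ≠ j → |@inner ℝ _ _ (v i) (v j)| = c} N →
    ((∀ (M : Type) [MetricSpace M],
        (∀ s : Finset M, s.card ≤ N + 1 →
          ∃ f : M → EuclideanSpace ℝ (Fin r), (∀ x ∈ s, ‖f x‖ = 1) ∧
            ∀ x ∈ s, ∀ y ∈ s, Real.arccos |@inner ℝ _ _ (f x) (f y)| = dist x y) →
        ∃ f : M → EuclideanSpace ℝ (Fin r), (∀ x, ‖f x‖ = 1) ∧
          ∀ x y, Real.arccos |@inner ℝ _ _ (f x) (f y)| = dist x y) ∧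
     ¬ (∀ (M : Type) [MetricSpace M],
        (∀ s : Finset M, s.card ≤ N →
          ∃ f : M → EuclideanSpace ℝ (Fin r), (∀ x ∈ s, ‖f x‖ = 1) ∧
            ∀ x ∈ s, ∀ y ∈ s, Real.arccos |@inner ℝ _ _ (f x) (f y)| = dist x y) →
        ∃ f : M → EuclideanSpace ℝ (Fin r), (∀ x, ‖f x‖ = 1) ∧
          ∀ x y, Real.arccos |@inner ℝ _ _ (f x) (f y)| = dist x y))) := by
  intro H
  let S : Set ℕ := {n : ℕ | ∃ v : Fin n → EuclideanSpace ℝ (Fin 13), ∃ c : ℝ, c < 1 ∧
        (∀ i, ‖v i‖ = 1) ∧ ∀ i j, i ≠ j → |@inner ℝ _ _ (v i) (v j)| = c}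
  have hne : S.Nonempty := ⟨0, fun i => i.elim0, 0, by norm_num, fun i => i.elim0,
    fun i => i.elim0⟩
  have hup : ∀ n ∈ S, n ≤ 32 := by
    rintro n ⟨v, c, hc, h1, h2⟩
    by_contra hn
    push Not at hn
    have h33 : 33 ≤ n := hn
    exact no_33 (fun i => v (Fin.castLE h33 i)) c hc (fun i => h1 _)
      (fun i j hij => h2 _ _ fun h => hij (Fin.castLE_injective h33 h))
  have hbdd : BddAbove S := ⟨32, fun n hn => hup n hn⟩
  have hN : IsGreatest S (sSup S) := ⟨Nat.sSup_mem hne hbdd, fun x hx => le_csSup hbdd hx⟩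
  have hle := hup _ hN.1
  have h := (H 13 (by norm_num) (sSup S) hN).1
  obtain ⟨f, hf1, hf2⟩ := @h MM metM (by
    intro s hs
    exact sub_embed s (by omega))
  exact not_embed f hf1 hf2

end Pool.Agent.S09464
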