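import Pool.Statements.S09509
-- import your own Pool.Agent.* helpers here

set_option autoImplicit false
open Pool Pool.MP_c1092b_gt

namespace Pool.Agent.S09509


/-- Points of the modified Johnstone space: a column index and a height. -/
@[ext] structure JP (W : Type) where
  col : W
  ht : WithTop W

variable {W : Type} [LinearOrder W]

instance : LE (JP W) :=
  ⟨fun x y => (x.col = y.col ∧ x.ht ≤ y.ht) ∨ (y.ht = ⊤ ∧ x.ht ≤ (y.col : WithTop W))⟩

theorem le_iff (x y : JP W) :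
    x ≤ y ↔ (x.col = y.col ∧ x.ht ≤ y.ht) ∨ (y.ht = ⊤ ∧ x.ht ≤ (y.col : WithTop W)) := Iff.rfl

theorem not_top_le_coe (w : W) : ¬ ((⊤ : WithTop W) ≤ (w : WithTop W)) := by
  intro h
  exact WithTop.coe_ne_top (top_le_iff.mp h)

instance : PartialOrder (JP W) where
  le_refl x := Or.inl ⟨rfl, le_rfl⟩
  le_trans x y z hxy hyz := by
    rcases hxy with ⟨h1, h2⟩ | ⟨h1, h2⟩ <;> rcases hyz with ⟨h3, h4⟩ | ⟨h3, h4⟩
    · exact Or.inl ⟨h1.trans h3, h2.trans h4⟩
    · exact Or.inr ⟨h3, h2.trans h4⟩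
    · right
      rw [h1] at h4
      exact ⟨top_le_iff.mp h4, h3 ▸ h2⟩
    · rw [h1] at h4
      exact absurd h4 (not_top_le_coe _)
  le_antisymm x y hxy hyx := by
    rcases hxy with ⟨h1, h2⟩ | ⟨h1, h2⟩ <;> rcases hyx with ⟨h3, h4⟩ | ⟨h3, h4⟩
    · exact JP.ext h1 (le_antisymm h2 h4)
    · rw [h3] at h2
      rw [top_le_iff.mp h2] at h4
      exact absurd h4 (not_top_le_coe _)
    · rw [h1] at h4
      rw [top_le_iff.mp h4] at h2
      exact absurd h2 (not_top_le_coe _)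
    · rw [h1] at h4
      exact absurd h4 (not_top_le_coe _)

theorem exists_lub [WellFoundedLT W] (s : Set (WithTop W)) : ∃ g, IsLUB s g := by
  have hne : (upperBounds s).Nonempty := ⟨⊤, fun _ _ => le_top⟩
  have wf : WellFounded ((· < ·) : WithTop W → WithTop W → Prop) := wellFounded_lt
  refine ⟨wf.min (upperBounds s) hne, wf.min_mem _ hne, ?_⟩
  intro b hb
  exact not_lt.mp (wf.not_lt_min _ hb)

/-- Least upper bounds within a column are least upper bounds of the poset. -/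
theorem column_lub (m : W) (s : Set (WithTop W)) (hs : s.Nonempty) (g : WithTop W)
    (hg : IsLUB s g) : IsLUB {x : JP W | x.col = m ∧ x.ht ∈ s} ⟨m, g⟩ := by
  constructor
  · rintro x ⟨hx, hx2⟩
    exact Or.inl ⟨hx, hg.1 hx2⟩
  · intro b hb
    by_cases hm : m = b.col
    · left
      refine ⟨hm, hg.2 ?_⟩
      intro k hk
      have := hb (show (⟨m, k⟩ : JP W) ∈ {x : JP W | x.col = m ∧ x.ht ∈ s} from ⟨rfl, hk⟩)
      rcases this with ⟨_, h⟩ | ⟨h, _⟩
      · exact h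
      · rw [h]; exact le_top
    · right
      have key : ∀ k ∈ s, b.ht = ⊤ ∧ k ≤ (b.col : WithTop W) := by
        intro k hk
        have := hb (show (⟨m, k⟩ : JP W) ∈ {x : JP W | x.col = m ∧ x.ht ∈ s} from ⟨rfl, hk⟩)
        rcases this with ⟨h, _⟩ | h
        · exact absurd h hm
        · exact h
      obtain ⟨k0, hk0⟩ := hs
      exact ⟨(key k0 hk0).1, hg.2 fun k hk => (key k hk).2⟩

theorem jp_dcpo [WellFoundedLT W] (d : Set (JP W)) (hne : d.Nonempty)
    (hd : DirectedOn (· ≤ ·) d) : ∃ x : JP W, IsLUB d x := by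
  by_cases htop : ∃ x ∈ d, x.ht = ⊤
  · obtain ⟨x, hx, hxt⟩ := htop
    refine ⟨x, ?_, fun b hb => hb hx⟩
    intro y hy
    obtain ⟨z, hz, hyz, hxz⟩ := hd y hy x hx
    have : x = z := by
      rcases hxz with ⟨h1, h2⟩ | ⟨h1, h2⟩
      · rw [hxt] at h2
        exact JP.ext h1 (by rw [hxt, top_le_iff.mp h2])
      · rw [hxt] at h2
        exact absurd h2 (not_top_le_coe _)
    rw [this]
    exact hyz
  · push Not at htop
    obtain ⟨x0, hx0⟩ := hne
    have hcol : ∀ y ∈ d, y.col = x0.col := by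
      intro y hy
      obtain ⟨z, hz, hyz, hxz⟩ := hd y hy x0 hx0
      rcases hyz with ⟨h1, _⟩ | ⟨h1, _⟩
      · rcases hxz with ⟨h3, _⟩ | ⟨h3, _⟩
        · exact h1.trans h3.symm
        · exact absurd h3 (htop z hz)
      · exact absurd h1 (htop z hz)
    obtain ⟨g, hg⟩ := exists_lub {k : WithTop W | (⟨x0.col, k⟩ : JP W) ∈ d}
    refine ⟨⟨x0.col, g⟩, ?_⟩
    have hset : d = {x : JP W | x.col = x0.col ∧
        x.ht ∈ {k : WithTop W | (⟨x0.col, k⟩ : JP W) ∈ d}} := by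
      ext y
      constructor
      · intro hy
        refine ⟨hcol y hy, ?_⟩
        show (⟨x0.col, y.ht⟩ : JP W) ∈ d
        rw [← hcol y hy]
        exact hy
      · rintro ⟨h1, h2⟩
        have h3 : (⟨x0.col, y.ht⟩ : JP W) ∈ d := h2
        rw [← h1] at h3
        exact h3
    have := column_lub x0.col {k : WithTop W | (⟨x0.col, k⟩ : JP W) ∈ d} ⟨x0.ht, hx0⟩ g hg
    rw [← hset] at this
    exact this

/-- The Scott topology, described columnwise. -/
@[reducible] def jpTop (W : Type) [LinearOrder W] : TopologicalSpace (JP W) where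
  IsOpen U := IsUpperSet U ∧ ∀ (m : W) (k : WithTop W) (s : Set (WithTop W)), s.Nonempty →
    IsLUB s k → (⟨m, k⟩ : JP W) ∈ U → ∃ i ∈ s, (⟨m, i⟩ : JP W) ∈ U
  isOpen_univ := ⟨isUpperSet_univ, fun m k s hs _ _ => ⟨hs.some, hs.some_mem, trivial⟩⟩
  isOpen_inter U V hU hV := by
    refine ⟨hU.1.inter hV.1, ?_⟩
    intro m k s hs hk hm
    obtain ⟨i, hi, hiU⟩ := hU.2 m k s hs hk hm.1
    obtain ⟨j, hj, hjV⟩ := hV.2 m k s hs hk hm.2
    rcases le_total i j with h | h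
    · exact ⟨j, hj, hU.1 (show (⟨m, i⟩ : JP W) ≤ ⟨m, j⟩ from Or.inl ⟨rfl, h⟩) hiU, hjV⟩
    · exact ⟨i, hi, hiU, hV.1 (show (⟨m, j⟩ : JP W) ≤ ⟨m, i⟩ from Or.inl ⟨rfl, h⟩) hjV⟩
  isOpen_sUnion S hS := by
    refine ⟨isUpperSet_sUnion fun U hU => (hS U hU).1, ?_⟩
    intro m k s hs hk hm
    obtain ⟨U, hU, hmU⟩ := hm
    obtain ⟨i, hi, hiU⟩ := (hS U hU).2 m k s hs hk hmU
    exact ⟨i, hi, U, hU, hiU⟩

theorem jpTop_isOpen (U : Set (JP W)) : @IsOpen _ (jpTop W) U ↔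
    (IsUpperSet U ∧ ∀ (m : W) (k : WithTop W) (s : Set (WithTop W)), s.Nonempty →
    IsLUB s k → (⟨m, k⟩ : JP W) ∈ U → ∃ i ∈ s, (⟨m, i⟩ : JP W) ∈ U) := Iff.rfl

theorem jp_closure (x : JP W) : @closure (JP W) (jpTop W) {x} = Set.Iic x := by
  let _ := jpTop W
  apply Set.Subset.antisymm
  · apply closure_minimal
    · intro y hy
      rw [Set.mem_singleton_iff] at hy
      rw [hy]
      exact le_refl x
    · rw [← isOpen_compl_iff]
      rw [jpTop_isOpen]
      constructor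
      · intro a b hab ha hb
        exact ha (le_trans hab hb)
      · intro m k s hs hk hm
        by_contra hcon
        push Not at hcon
        apply hm
        have hall : ∀ i ∈ s, (⟨m, i⟩ : JP W) ≤ x := by
          intro i hi
          have := hcon i hi
          exact not_not.mp this
        have hl := column_lub m s hs k hk
        exact hl.2 (by
          rintro y ⟨hy1, hy2⟩
          have := hall _ hy2
          rw [← hy1] at this
          exact this)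
  · intro y hy
    rw [mem_closure_iff]
    intro U hU hyU
    exact ⟨x, (hU.1 hy hyU), rfl⟩

theorem filtered_avoid {X : Type} [Preorder X] (𝒦 : Set (Set X))
    (hdir : DirectedOn (· ⊇ ·) 𝒦) (K0 : Set X) (hK0 : K0 ∈ 𝒦)
    (F : Set X) (hF : F.Finite) (h : ∀ x ∈ F, ∃ K ∈ 𝒦, x ∉ K) :
    ∃ K ∈ 𝒦, K ⊆ K0 ∧ ∀ x ∈ F, x ∉ K := by
  induction F, hF using Set.Finite.induction_on with
  | empty => exact ⟨K0, hK0, subset_rfl, fun x hx => absurd hx (Set.notMem_empty x)⟩
  | @insert a s _ _ ih =>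
    obtain ⟨K1, hK1, hK10, hK1s⟩ := ih fun x hx => h x (Set.mem_insert_of_mem a hx)
    obtain ⟨K2, hK2, haK2⟩ := h a (Set.mem_insert a s)
    obtain ⟨K3, hK3, h31, h32⟩ := hdir K1 hK1 K2 hK2
    refine ⟨K3, hK3, fun y hy => hK10 (h31 hy), ?_⟩
    intro x hx hx3
    rcases hx with hx | hx
    · subst hx
      exact haK2 (h32 hx3)
    · exact hK1s x hx (h31 hx3)

theorem jp_wf [WellFoundedLT W] (hb : ∀ s : Set W, s.Countable → BddAbove s)
    (𝒦 : Set (Set (JP W))) (hne : 𝒦.Nonempty) (hdir : DirectedOn (· ⊇ ·) 𝒦)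
    (hK : ∀ K ∈ 𝒦, @IsCompact _ (jpTop W) K ∧ IsUpperSet K)
    (U : Set (JP W)) (hU : @IsOpen _ (jpTop W) U) (hsub : ⋂₀ 𝒦 ⊆ U) : ∃ K ∈ 𝒦, K ⊆ U := by
  classical
  let _ := jpTop W
  have hout : ∀ x : JP W, x ∉ U → ∃ K ∈ 𝒦, x ∉ K := by
    intro x hx
    by_contra hcon
    push Not at hcon
    exact hx (hsub (Set.mem_sInter.mpr hcon))
  obtain ⟨K0, hK0⟩ := hne
  -- column tops
  have htops : ∀ m : W, (∃ k, (⟨m, k⟩ : JP W) ∉ U) →
      ∃ g : WithTop W, (⟨m, g⟩ : JP W) ∉ U ∧ ∀ k, (⟨m, k⟩ : JP W) ∉ U → k ≤ g := by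
    rintro m ⟨k0, hk0⟩
    obtain ⟨g, hg⟩ := exists_lub {k : WithTop W | (⟨m, k⟩ : JP W) ∉ U}
    refine ⟨g, ?_, fun k hk => hg.1 hk⟩
    intro hgU
    obtain ⟨i, hi, hiU⟩ := hU.2 m g _ ⟨k0, hk0⟩ hg hgU
    exact hi hiU
  -- step 1
  have hS : {m : W | ∃ k : W, (⟨m, (k : WithTop W)⟩ : JP W) ∈ K0 ∩ Uᶜ}.Finite := by
    have hch : ∀ m : W, ∃ f : W, (∃ k : W, (⟨m, (k : WithTop W)⟩ : JP W) ∈ K0 ∩ Uᶜ) →
        (⟨m, (f : WithTop W)⟩ : JP W) ∈ K0 ∩ Uᶜ := by
      intro m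
      by_cases h : ∃ k : W, (⟨m, (k : WithTop W)⟩ : JP W) ∈ K0 ∩ Uᶜ
      · obtain ⟨k, hk⟩ := h
        exact ⟨k, fun _ => hk⟩
      · exact ⟨m, fun h' => absurd h' h⟩
    choose f hf using hch
    have hcomp : IsCompact (K0 ∩ Uᶜ) := (hK K0 hK0).1.inter_right (isClosed_compl_iff.mpr hU)
    obtain ⟨t, ht⟩ := hcomp.elim_finite_subcover
      (fun m : W => {x : JP W | x.col = m ∨ ((f x.col : W) : WithTop W) < x.ht})
      (by
        intro m
        rw [jpTop_isOpen]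
        constructor
        · intro a b hab ha
          rcases hab with ⟨h1, h2⟩ | ⟨h1, h2⟩
          · rcases ha with ha | ha
            · exact Or.inl (h1 ▸ ha)
            · right
              rw [← h1]
              exact lt_of_lt_of_le ha h2
          · right
            rw [h1]
            exact WithTop.coe_lt_top _
        · intro m' k s hs hk hm
          rcases hm with hm | hm
          · exact ⟨hs.some, hs.some_mem, Or.inl hm⟩
          · have hm' : ((f m' : W) : WithTop W) < k := hm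
            obtain ⟨i, hi, hik⟩ := (lt_isLUB_iff hk).mp hm'
            exact ⟨i, hi, Or.inr hik⟩)
      (by
        intro x _
        exact Set.mem_iUnion.mpr ⟨x.col, Or.inl rfl⟩)
    refine Set.Finite.subset (Finset.finite_toSet t) ?_
    intro m hm
    have h1 := ht (hf m hm)
    simp only [Set.mem_iUnion] at h1
    obtain ⟨m', hm', h2⟩ := h1
    rcases h2 with h2 | h2
    · have : m = m' := h2
      rw [this]
      exact hm'
    · exact absurd h2 (lt_irrefl _)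
  -- kill the finitely many columns
  have hchoose : ∀ m : W, ∃ g : WithTop W, (∃ k, (⟨m, k⟩ : JP W) ∉ U) →
      ((⟨m, g⟩ : JP W) ∉ U ∧ ∀ k, (⟨m, k⟩ : JP W) ∉ U → k ≤ g) := by
    intro m
    by_cases h : ∃ k, (⟨m, k⟩ : JP W) ∉ U
    · obtain ⟨g, hg⟩ := htops m h
      exact ⟨g, fun _ => hg⟩
    · exact ⟨⊤, fun h' => absurd h' h⟩
  choose g hg using hchoose
  obtain ⟨K1, hK1, hK10, hK1F⟩ := filtered_avoid 𝒦 hdir K0 hK0
    ((fun m => (⟨m, g m⟩ : JP W)) '' {m : W | ∃ k : W, (⟨m, (k : WithTop W)⟩ : JP W) ∈ K0 ∩ Uᶜ})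
    (hS.image _) (by
      rintro x ⟨m, ⟨k, hk⟩, rfl⟩
      exact hout _ (hg m ⟨_, hk.2⟩).1)
  have hS1 : ∀ (m k : W), (⟨m, (k : WithTop W)⟩ : JP W) ∉ K1 ∩ Uᶜ := by
    rintro m k ⟨h1, h2⟩
    have hm : m ∈ {m : W | ∃ k : W, (⟨m, (k : WithTop W)⟩ : JP W) ∈ K0 ∩ Uᶜ} :=
      ⟨k, hK10 h1, h2⟩
    apply hK1F _ ⟨m, hm, rfl⟩
    exact (hK K1 hK1).2 (show (⟨m, (k : WithTop W)⟩ : JP W) ≤ ⟨m, g m⟩ from
      Or.inl ⟨rfl, (hg m ⟨_, h2⟩).2 _ h2⟩) h1
  -- step 2
  have hT : {m : W | (⟨m, ⊤⟩ : JP W) ∈ K1 ∩ Uᶜ}.Finite := by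
    by_contra hinf
    have hinf' : {m : W | (⟨m, ⊤⟩ : JP W) ∈ K1 ∩ Uᶜ}.Infinite := hinf
    let e := Set.Infinite.natEmbedding _ hinf'
    obtain ⟨β, hβ⟩ := hb (Set.range fun n : ℕ => ((e n : _) : W)) (Set.countable_range _)
    have hcomp : IsCompact (K1 ∩ Uᶜ) := (hK K1 hK1).1.inter_right (isClosed_compl_iff.mpr hU)
    obtain ⟨t, ht⟩ := hcomp.elim_finite_subcover
      (fun m : W => {x : JP W | (β : WithTop W) < x.ht ∧ (x.col = m ∨ β < x.col)})
      (by
        intro m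
        rw [jpTop_isOpen]
        constructor
        · rintro a b hab ⟨ha1, ha2⟩
          rcases hab with ⟨h1, h2⟩ | ⟨h1, h2⟩
          · exact ⟨lt_of_lt_of_le ha1 h2, h1 ▸ ha2⟩
          · refine ⟨h1 ▸ WithTop.coe_lt_top _, Or.inr ?_⟩
            have := lt_of_lt_of_le ha1 h2
            exact WithTop.coe_lt_coe.mp this
        · intro m' k s hs hk hm
          have hm' : (β : WithTop W) < k := hm.1
          obtain ⟨i, hi, hik⟩ := (lt_isLUB_iff hk).mp hm'
          exact ⟨i, hi, hik, hm.2⟩)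
      (by
        rintro ⟨m, k⟩ hx
        induction k using WithTop.recTopCoe with
        | top => exact Set.mem_iUnion.mpr ⟨m, WithTop.coe_lt_top _, Or.inl rfl⟩
        | coe k => exact absurd hx (hS1 m k))
    have hfin : (Set.range fun n : ℕ => ((e n : _) : W)).Finite := by
      refine Set.Finite.subset (Finset.finite_toSet t) ?_
      rintro m ⟨n, rfl⟩
      have h1 := ht (e n).2
      simp only [Set.mem_iUnion] at h1
      obtain ⟨m', hm', h2⟩ := h1
      rcases h2.2 with h3 | h3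
      · have h4 : ((e n : _) : W) = m' := h3
        show ((e n : _) : W) ∈ t
        rw [h4]
        exact hm'
      · have h4 : ((e n : _) : W) ≤ β := hβ ⟨n, rfl⟩
        exact absurd h3 (not_lt.mpr h4)
    exact Set.infinite_range_of_injective
      (Subtype.val_injective.comp e.injective) hfin
  obtain ⟨K2, hK2, hK21, hK2F⟩ := filtered_avoid 𝒦 hdir K1 hK1
    ((fun m => (⟨m, ⊤⟩ : JP W)) '' {m : W | (⟨m, ⊤⟩ : JP W) ∈ K1 ∩ Uᶜ})
    (hT.image _) (by
      rintro x ⟨m, hm, rfl⟩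
      exact hout _ hm.2)
  refine ⟨K2, hK2, ?_⟩
  intro x hx
  by_contra hxU
  obtain ⟨m, k⟩ := x
  induction k using WithTop.recTopCoe with
  | top => exact hK2F _ ⟨m, ⟨hK21 hx, hxU⟩, rfl⟩ hx
  | coe k => exact hS1 m k ⟨hK21 hx, hxU⟩


theorem jp_not_sober [WellFoundedLT W] [Nonempty W] [NoMaxOrder W] (t : TopologicalSpace (JP W))
    (hcl : ∀ x : JP W, @closure _ t {x} = Set.Iic x) (hs : @QuasiSober _ t) : False := by
  letI := t
  have hup : ∀ U : Set (JP W), IsOpen U → IsUpperSet U := by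
    intro U hU a b hab ha
    have h1 : a ∈ closure ({b} : Set (JP W)) := by
      rw [hcl]
      exact hab
    obtain ⟨c, hc1, hc2⟩ := mem_closure_iff.mp h1 U hU ha
    rw [Set.mem_singleton_iff] at hc2
    exact hc2 ▸ hc1
  have hscott : ∀ (d : Set (JP W)), d.Nonempty → DirectedOn (· ≤ ·) d → ∀ x, IsLUB d x →
      ∀ U : Set (JP W), IsOpen U → x ∈ U → ∃ y ∈ d, y ∈ U := by
    intro d hne hd x hx U hU hxU
    have hirr : IsIrreducible d := by
      refine ⟨hne, ?_⟩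
      rintro u v hu hv ⟨a, ha, hau⟩ ⟨b, hb, hbv⟩
      obtain ⟨c, hc, hac, hbc⟩ := hd a ha b hb
      exact ⟨c, hc, hup u hu hac hau, hup v hv hbc hbv⟩
    obtain ⟨y, hy⟩ := hs.sober hirr.closure isClosed_closure
    have hy' : closure ({y} : Set (JP W)) = closure d := hy
    rw [hcl] at hy'
    have h1 : ∀ z ∈ d, z ≤ y := by
      intro z hz
      have : z ∈ Set.Iic y := by
        rw [hy']
        exact subset_closure hz
      exact this
    have h2 : x ≤ y := hx.2 h1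
    have h3 : y ∈ closure d := by
      rw [← hy']
      exact le_refl y
    have h4 : closure d ⊆ Set.Iic x := by
      rw [← hcl x]
      apply closure_minimal
      · rw [hcl x]
        exact hx.1
      · exact isClosed_closure
    have h5 : y ≤ x := h4 h3
    have h6 : x = y := le_antisymm h2 h5
    rw [← h6] at h3
    obtain ⟨z, hz1, hz2⟩ := mem_closure_iff.mp h3 U hU hxU
    exact ⟨z, hz2, hz1⟩
  have hmeet : ∀ U : Set (JP W), IsOpen U → U.Nonempty →
      ∃ k : W, ∀ m : W, k ≤ m → (⟨m, ⊤⟩ : JP W) ∈ U := by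
    rintro U hU ⟨⟨m, n⟩, hmn⟩
    have h1 : (⟨m, ⊤⟩ : JP W) ∈ U :=
      hup U hU (show (⟨m, n⟩ : JP W) ≤ ⟨m, ⊤⟩ from Or.inl ⟨rfl, le_top⟩) hmn
    have h2 : IsLUB {x : JP W | x.col = m ∧ x.ht ∈ Set.range (fun w : W => (w : WithTop W))}
        ⟨m, ⊤⟩ := by
      refine column_lub m _ (Set.range_nonempty _) ⊤ ⟨fun _ _ => le_top, ?_⟩
      intro b hb
      induction b using WithTop.recTopCoe with
      | top => exact le_rfl
      | coe b =>
        obtain ⟨c, hc⟩ := exists_gt b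
        have := hb ⟨c, rfl⟩
        exact absurd (WithTop.coe_le_coe.mp this) (not_le.mpr hc)
    obtain ⟨y, ⟨hy1, ⟨k, hk⟩⟩, hy3⟩ := hscott
      {x : JP W | x.col = m ∧ x.ht ∈ Set.range (fun w : W => (w : WithTop W))}
      ⟨⟨m, (m : WithTop W)⟩, rfl, ⟨m, rfl⟩⟩ (by
      rintro a ⟨ha1, ⟨a', ha'⟩⟩ b ⟨hb1, ⟨b', hb'⟩⟩
      rcases le_total a' b' with h | h
      · refine ⟨b, ⟨hb1, ⟨b', hb'⟩⟩, Or.inl ⟨ha1.trans hb1.symm, ?_⟩, le_refl b⟩
        rw [← ha', ← hb']
        exact WithTop.coe_le_coe.mpr h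
      · refine ⟨a, ⟨ha1, ⟨a', ha'⟩⟩, le_refl a, Or.inl ⟨hb1.trans ha1.symm, ?_⟩⟩
        rw [← ha', ← hb']
        exact WithTop.coe_le_coe.mpr h) _ h2 U hU h1
    refine ⟨k, fun m' hm' => hup U hU (Or.inr ⟨rfl, ?_⟩) hy3⟩
    rw [← hk]
    exact WithTop.coe_le_coe.mpr hm'
  have hirr : IsIrreducible (Set.univ : Set (JP W)) := by
    obtain ⟨w⟩ := (inferInstance : Nonempty W)
    refine ⟨⟨⟨w, ⊤⟩, trivial⟩, ?_⟩
    rintro u v hu hv ⟨a, _, hau⟩ ⟨b, _, hbv⟩
    obtain ⟨k, hk⟩ := hmeet u hu ⟨a, hau⟩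
    obtain ⟨l, hl⟩ := hmeet v hv ⟨b, hbv⟩
    exact ⟨⟨max k l, ⊤⟩, trivial, hk _ (le_max_left _ _), hl _ (le_max_right _ _)⟩
  obtain ⟨x, hx⟩ := hs.sober hirr isClosed_univ
  have hx' : closure ({x} : Set (JP W)) = Set.univ := hx
  rw [hcl] at hx'
  have htop : ∀ m : W, x.col = m := by
    intro m
    have : (⟨m, ⊤⟩ : JP W) ∈ Set.Iic x := by
      rw [hx']
      trivial
    rcases this with ⟨h1, _⟩ | ⟨_, h2⟩
    · exact h1.symm
    · exact absurd h2 (not_top_le_coe _)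
  obtain ⟨c, hc⟩ := exists_gt x.col
  exact absurd (htop c) hc.ne

theorem exists_W : ∃ (W : Type) (_ : LinearOrder W), WellFoundedLT W ∧ Nonempty W ∧
    NoMaxOrder W ∧ ∀ s : Set W, s.Countable → BddAbove s := by
  refine ⟨(Cardinal.aleph 1).ord.ToType, inferInstance, inferInstance, ?_, ?_, ?_⟩
  · rw [Ordinal.nonempty_toType_iff]
    intro h
    rw [Cardinal.ord_eq_zero] at h
    exact (Cardinal.aleph_pos 1).ne' h
  · exact Cardinal.noMaxOrder (Cardinal.aleph0_le_aleph 1)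
  · intro s hs
    by_contra hcon
    have hcov : (Set.univ : Set (Cardinal.aleph 1).ord.ToType) ⊆ ⋃ y ∈ s, Set.Iio y := by
      intro x _
      by_contra hx
      apply hcon
      refine ⟨x, fun y hy => ?_⟩
      by_contra hyx
      exact hx (Set.mem_biUnion hy (not_le.mp hyx))
    have hc : (Set.univ : Set (Cardinal.aleph 1).ord.ToType).Countable := by
      refine Set.Countable.mono hcov (hs.biUnion fun y _ => ?_)
      have := Cardinal.mk_Iio_toType_ord_lt y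
      rw [← Cardinal.le_aleph0_iff_set_countable]
      have h1 : Cardinal.aleph 1 = Order.succ Cardinal.aleph0 := by
        rw [← Cardinal.aleph_zero, ← Cardinal.aleph_succ]
        simp
      exact Order.lt_succ_iff.mp (lt_of_lt_of_eq this h1)
    have h2 : Cardinal.mk (Cardinal.aleph 1).ord.ToType ≤ Cardinal.aleph0 := by
      rw [← Cardinal.mk_univ]
      exact Cardinal.le_aleph0_iff_set_countable.mpr hc
    rw [Cardinal.mk_toType, Cardinal.card_ord] at h2
    have h3 : Cardinal.aleph0 < Cardinal.aleph 1 := by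
      rw [← Cardinal.aleph_zero]
      exact Cardinal.aleph_lt_aleph.mpr zero_lt_one
    exact absurd h2 (not_le.mpr h3)

/-- There is a dcpo with a well-filtered T0 topology whose point closures are the principal down-sets, while no sober topology on it has point closures equal to the principal down-sets. -/
theorem result :
    ∃ (P : Type) (_ : PartialOrder P),
      (∀ d : Set P, d.Nonempty → DirectedOn (· ≤ ·) d → ∃ x : P, IsLUB d x) ∧
      (∃ t : TopologicalSpace P,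
        (∀ x : P, @closure P t {x} = Set.Iic x) ∧ @T0Space P t ∧
        (∀ 𝒦 : Set (Set P), 𝒦.Nonempty → DirectedOn (· ⊇ ·) 𝒦 →
          (∀ K ∈ 𝒦, @IsCompact P t K ∧ IsUpperSet K) →
          ∀ U : Set P, @IsOpen P t U → ⋂₀ 𝒦 ⊆ U → ∃ K ∈ 𝒦, K ⊆ U)) ∧
      ¬ ∃ t : TopologicalSpace P,
        (∀ x : P, @closure P t {x} = Set.Iic x) ∧ @T0Space P t ∧ @QuasiSober P t := by
  obtain ⟨W, hlin, hwf, hne, hnm, hb⟩ := exists_W
  refine ⟨JP W, inferInstance, jp_dcpo, ⟨jpTop W, jp_closure, ?_, ?_⟩, ?_⟩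
  · letI := jpTop W
    constructor
    intro x y hxy
    have h1 := inseparable_iff_closure_eq.mp hxy
    rw [jp_closure, jp_closure] at h1
    exact Set.Iic_injective h1
  · intro 𝒦 h1 h2 h3 U hU hsub
    exact jp_wf hb 𝒦 h1 h2 h3 U hU hsub
  · rintro ⟨t, ht, _, hs⟩
    exact jp_not_sober t ht hs

end Pool.Agent.S09509
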