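import Pool.Statements.S09517
-- import your own Pool.Agent.* helpers here

set_option autoImplicit false
open Pool Pool.MP_c36963_gt

namespace Pool.Agent.S09517

/-- There exists r : ℂ → ℂ mapping the closed unit disk into the unit circle, fixing the circle, with connected fibers in the disk, such that only finitely many circle points y fail: for all circle sequences s_n → y, every point of the Kuratowski lim sup of the fibers r⁻¹(s_n) lies in r⁻¹(y). -/
theorem result :
    ∃ r : ℂ → ℂ,
      (∀ z ∈ Metric.closedBall (0:ℂ) 1, r z ∈ Metric.sphere (0:ℂ) 1) ∧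
      (∀ y ∈ Metric.sphere (0:ℂ) 1, r y = y) ∧
      (∀ y ∈ Metric.sphere (0:ℂ) 1,
        IsConnected {z : ℂ | z ∈ Metric.closedBall (0:ℂ) 1 ∧ r z = y}) ∧
      Set.Finite {y : ℂ | y ∈ Metric.sphere (0:ℂ) 1 ∧
        ¬ (∀ s : ℕ → ℂ, (∀ n, s n ∈ Metric.sphere (0:ℂ) 1) →
            Filter.Tendsto s Filter.atTop (nhds y) →
            ∀ x : ℂ, (∀ ε : ℝ, ε > 0 → ∀ N : ℕ, ∃ n : ℕ, n ≥ N ∧
                ∃ z : ℂ, z ∈ Metric.closedBall (0:ℂ) 1 ∧ r z = s n ∧ dist z x < ε) →
              r x = y)} := by
  classical
  refine ⟨fun z => if z ∈ Metric.sphere (0:ℂ) 1 then z else 1, ?_, ?_, ?_, ?_⟩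
  · intro z _
    by_cases h : z ∈ Metric.sphere (0:ℂ) 1
    · simp only [h, if_true]
    · simp only [h, if_false]
      simp
  · intro y hy
    simp only [hy, if_true]
  · intro y hy
    by_cases h1 : y = 1
    · subst h1
      have hset : {z : ℂ | z ∈ Metric.closedBall (0:ℂ) 1 ∧
          (if z ∈ Metric.sphere (0:ℂ) 1 then z else 1) = 1} =
          Metric.ball (0:ℂ) 1 ∪ {1} := by
        ext z
        simp only [Set.mem_setOf_eq, Set.mem_union, Set.mem_singleton_iff,
          Metric.mem_closedBall, Metric.mem_sphere, Metric.mem_ball]
        constructor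
        · rintro ⟨hz, he⟩
          by_cases h : dist z 0 = 1
          · rw [if_pos h] at he
            exact Or.inr he
          · exact Or.inl (lt_of_le_of_ne hz h)
        · rintro (hz | hz)
          · exact ⟨hz.le, by rw [if_neg hz.ne]⟩
          · subst hz
            refine ⟨by simp, ?_⟩
            split_ifs <;> rfl
      rw [hset]
      have hconv : IsPreconnected (Metric.ball (0:ℂ) 1) :=
        (convex_ball (0:ℂ) 1).isPreconnected
      have hb : IsConnected (Metric.ball (0:ℂ) 1) :=
        ⟨⟨0, by simp⟩, hconv⟩
      refine hb.subset_closure Set.subset_union_left ?_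
      rw [closure_ball (0:ℂ) one_ne_zero]
      intro z hz
      rcases hz with hz | hz
      · exact Metric.ball_subset_closedBall hz
      · rw [Set.mem_singleton_iff] at hz
        subst hz
        simp
    · have hset : {z : ℂ | z ∈ Metric.closedBall (0:ℂ) 1 ∧
          (if z ∈ Metric.sphere (0:ℂ) 1 then z else 1) = y} = {y} := by
        ext z
        simp only [Set.mem_setOf_eq, Set.mem_singleton_iff]
        constructor
        · rintro ⟨_, he⟩
          by_cases h : z ∈ Metric.sphere (0:ℂ) 1
          · rw [if_pos h] at he
            exact he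
          · rw [if_neg h] at he
            exact absurd he.symm h1
        · intro hz
          subst hz
          exact ⟨Metric.sphere_subset_closedBall hy, by rw [if_pos hy]⟩
      rw [hset]
      exact isConnected_singleton
  · refine Set.Finite.subset (Set.finite_singleton (1:ℂ)) ?_
    rintro y ⟨hy, hbad⟩
    rw [Set.mem_singleton_iff]
    by_contra h1
    apply hbad
    intro s hs hlim x hx
    have hxy : x = y := by
      by_contra hne
      have hpos : 0 < dist x y := dist_pos.mpr hne
      have hy1 : 0 < dist y 1 := dist_pos.mpr h1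
      have hev := (Metric.tendsto_atTop.mp hlim) (min (dist x y / 2) (dist y 1))
        (lt_min (by linarith) hy1)
      obtain ⟨N, hN⟩ := hev
      obtain ⟨n, hn, z, _, hrz, hd⟩ := hx (dist x y / 2) (by linarith) N
      have hsn := hN n hn
      have hsn1 : s n ≠ 1 := by
        intro h
        rw [h] at hsn
        have := lt_of_lt_of_le hsn (min_le_right _ _)
        rw [dist_comm] at this
        exact lt_irrefl _ this
      have hz : z = s n := by
        by_cases h : z ∈ Metric.sphere (0:ℂ) 1
        · simp only [h, if_true] at hrz
          exact hrz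
        · simp only [h, if_false] at hrz
          exact absurd hrz.symm hsn1
      subst hz
      have h2 := lt_of_lt_of_le hsn (min_le_left _ _)
      have h3 : dist x y ≤ dist (s n) x + dist (s n) y := dist_triangle_left x y (s n)
      linarith
    subst hxy
    simp only [hy, if_true]

end Pool.Agent.S09517
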