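import Pool.Statements.S09550
import Pool.Agent.Bl20.Hex2

set_option autoImplicit false
open Pool Pool.MP_c7fc41_gt
open Pointwise

namespace Pool.Agent.S09550

open MeasureTheory Pool.Agent.Bl20

abbrev E4 : Type := EuclideanSpace ℝ (Fin 4)

noncomputable def lphi : E4 ≃ₗ[ℝ] V4 where
  toFun x := ((x 0, x 1), (x 2, x 3))
  map_add' _ _ := rfl
  map_smul' _ _ := rfl
  invFun v := !₂[v.1.1, v.1.2, v.2.1, v.2.2]
  left_inv x := by ext i; fin_cases i <;> rfl
  right_inv v := rfl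

noncomputable def phi : E4 ≃L[ℝ] V4 := lphi.toContinuousLinearEquiv

lemma vol_phi : ∃ c : ℝ, ∀ S : Set V4, MeasurableSet S →
    (volume (phi ⁻¹' S)).toReal = c * volume.real S := by
  have hh : (Measure.map phi (volume : Measure E4)).IsAddHaarMeasure :=
    phi.isAddHaarMeasure_map volume
  have hv : (volume : Measure V4).IsAddHaarMeasure := by
    rw [Measure.volume_eq_prod]
    infer_instance
  have h := Measure.isAddLeftInvariant_eq_smul (Measure.map phi (volume : Measure E4))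
    (volume : Measure V4)
  refine ⟨((Measure.addHaarScalarFactor (Measure.map phi (volume : Measure E4))
    (volume : Measure V4) : NNReal) : ℝ), fun S hS => ?_⟩
  have h2 : (Measure.map phi (volume : Measure E4)) S =
      (Measure.addHaarScalarFactor (Measure.map phi (volume : Measure E4))
        (volume : Measure V4) • (volume : Measure V4)) S := congrArg (fun μ : Measure V4 => μ S) h
  rw [← Measure.map_apply phi.continuous.measurable hS, h2]
  simp [Measure.real]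

lemma pre_add (P : Set V4) (L : Set E4) (ε : ℝ) :
    phi ⁻¹' P + ε • L = phi ⁻¹' (P + ε • (phi '' L)) := by
  ext x
  constructor
  · rintro ⟨a, ha, _, ⟨l, hl, rfl⟩, rfl⟩
    refine ⟨phi a, ha, _, ⟨_, ⟨l, hl, rfl⟩, rfl⟩, ?_⟩
    simp
  · rintro ⟨p, hp, _, ⟨_, ⟨l, hl, rfl⟩, rfl⟩, hx⟩
    refine ⟨phi.symm p, by simpa using hp, _, ⟨l, hl, rfl⟩, ?_⟩
    apply phi.injective
    simpa using hx

lemma pol_convex {J : Type} (f : J → R2 →ₗ[ℝ] ℝ) (c : J → ℝ) : Convex ℝ (Pol f c) := by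
  intro x hx y hy a b ha hb hab j
  rw [map_add, map_smul, map_smul, smul_eq_mul, smul_eq_mul]
  have h1 := mul_le_mul_of_nonneg_left (hx j) ha
  have h2 := mul_le_mul_of_nonneg_left (hy j) hb
  have : a * c j + b * c j = c j := by rw [← add_mul, hab, one_mul]
  linarith

lemma tt_convex : Convex ℝ TT := by rw [tt_pol]; exact pol_convex _ _

lemma hex_pol (ρ : ℝ) : Hex ρ = Pol ff (fun _ => ρ) := by rw [pol_hab]; rfl

lemma hex_convex (ρ : ℝ) : Convex ℝ (Hex ρ) := by rw [hex_pol]; exact pol_convex _ _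

lemma norm_half (z : R2) (h : ‖z‖ ≤ 1 / 2) :
    -(1/2) ≤ z.1 ∧ z.1 ≤ 1/2 ∧ -(1/2) ≤ z.2 ∧ z.2 ≤ 1/2 := by
  have h1 := (norm_fst_le z).trans h
  have h2 := (norm_snd_le z).trans h
  rw [Real.norm_eq_abs, abs_le] at h1 h2
  exact ⟨h1.1, h1.2, h2.1, h2.2⟩

lemma tt_ball (z : R2) (h : ‖z‖ ≤ 1 / 2) : z ∈ TT := by
  obtain ⟨h1, h2, h3, h4⟩ := norm_half z h
  refine ⟨?_, ?_, ?_⟩ <;> linarith

lemma ntt_ball (z : R2) (h : ‖z‖ ≤ 1 / 2) : z ∈ -TT := by
  apply tt_ball
  rwa [norm_neg]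

lemma hex_ball (ρ : ℝ) (hρ : 1 ≤ ρ) (z : R2) (h : ‖z‖ ≤ 1 / 2) : z ∈ Hex ρ := by
  obtain ⟨h1, h2, h3, h4⟩ := norm_half z h
  obtain ⟨x, y⟩ := z
  rw [Hex, Hab_mem]
  simp only at h1 h2 h3 h4
  refine ⟨⟨?_, ?_⟩, ⟨?_, ?_⟩, ?_, ?_⟩ <;> linarith

lemma hex_real (ρ : ℝ) (hρ : 0 < ρ) : volume.real (Hex ρ) = 2 / 3 * ρ ^ 2 * pp := by
  rw [Hex, Hab_area _ _ (by linarith) (by linarith) (by linarith) (by linarith) (by linarith)
    (by linarith) (by linarith) (fun i => by linarith)]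
  ring

lemma hexA (ρ : ℝ) (hρ : 0 < ρ) (t t' : R2) (ht : t ∈ TT) (ht' : t' ∈ TT) :
    (ρ / 3) • (t - t') ∈ Hex ρ := by
  obtain ⟨x, y⟩ := t
  obtain ⟨x', y'⟩ := t'
  obtain ⟨h1, h2, h3⟩ := ht
  obtain ⟨k1, k2, k3⟩ := ht'
  simp only at h1 h2 h3 k1 k2 k3
  have e : (ρ / 3) • (((x, y) : R2) - (x', y')) = (ρ / 3 * (x - x'), ρ / 3 * (y - y')) := rfl
  rw [e, Hex, Hab_mem]
  have hp : 0 < ρ / 3 := by linarith
  refine ⟨⟨?_, ?_⟩, ⟨?_, ?_⟩, ?_, ?_⟩
  · have := mul_le_mul_of_nonneg_left (show x - x' ≤ 3 by linarith) hp.le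
    linarith
  · have := mul_le_mul_of_nonneg_left (show -3 ≤ x - x' by linarith) hp.le
    linarith
  · have := mul_le_mul_of_nonneg_left (show y - y' ≤ 3 by linarith) hp.le
    linarith
  · have := mul_le_mul_of_nonneg_left (show -3 ≤ y - y' by linarith) hp.le
    linarith
  · have := mul_le_mul_of_nonneg_left (show -3 ≤ (x - x') + (y - y') by linarith) hp.le
    linarith
  · have := mul_le_mul_of_nonneg_left (show (x - x') + (y - y') ≤ 3 by linarith) hp.le
    linarith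

lemma hexB (ρ : ℝ) (hρ : 0 < ρ) (z : R2) (hz : z ∈ Hex ρ) :
    ∃ t ∈ TT, ∃ t' ∈ TT, z = (ρ / 3) • (t - t') := by
  obtain ⟨x, y⟩ := z
  rw [Hex, Hab_mem] at hz
  obtain ⟨⟨h1, h2⟩, ⟨h3, h4⟩, h5, h6⟩ := hz
  have hp : 0 < ρ / 3 := by linarith
  -- rescaled point
  set u := x / (ρ / 3) with hu
  set v := y / (ρ / 3) with hv
  have hux : x = ρ / 3 * u := by rw [hu]; field_simp
  have hvy : y = ρ / 3 * v := by rw [hv]; field_simp
  have b1 : u ≤ 3 := by rw [hu, div_le_iff₀ hp]; linarith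
  have b2 : -3 ≤ u := by rw [hu, le_div_iff₀ hp]; linarith
  have b3 : v ≤ 3 := by rw [hv, div_le_iff₀ hp]; linarith
  have b4 : -3 ≤ v := by rw [hv, le_div_iff₀ hp]; linarith
  have b5 : u + v ≤ 3 := by rw [hu, hv, ← add_div, div_le_iff₀ hp]; linarith
  have b6 : -3 ≤ u + v := by rw [hu, hv, ← add_div, le_div_iff₀ hp]; linarith
  -- choose t
  have key : ∃ a b : ℝ, -1 ≤ a ∧ -1 ≤ b ∧ a + b ≤ 1 ∧ -1 ≤ a - u ∧ -1 ≤ b - v ∧
      (a - u) + (b - v) ≤ 1 := by
    refine ⟨max (-1) (u - 1), max (-1) (v - 1), le_max_left _ _, le_max_left _ _, ?_, ?_, ?_, ?_⟩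
    · rcases max_cases (-1) (u - 1) with h | h <;> rcases max_cases (-1) (v - 1) with h' | h' <;>
        linarith [h.1, h.2, h'.1, h'.2]
    · linarith [le_max_right (-1) (u - 1)]
    · linarith [le_max_right (-1) (v - 1)]
    · rcases max_cases (-1) (u - 1) with h | h <;> rcases max_cases (-1) (v - 1) with h' | h' <;>
        linarith [h.1, h.2, h'.1, h'.2]
  obtain ⟨a, b, k1, k2, k3, k4, k5, k6⟩ := key
  refine ⟨(a, b), ⟨k1, k2, k3⟩, (a - u, b - v), ⟨k4, k5, k6⟩, ?_⟩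
  have e : (ρ / 3) • (((a, b) : R2) - (a - u, b - v)) =
    (ρ / 3 * (a - (a - u)), ρ / 3 * (b - (b - v))) := rfl
  rw [e, Prod.mk.injEq]
  constructor
  · rw [hux]; ring_nf
  · rw [hvy]; ring_nf

/-- The negation of the preceding statement: Take n ≥ 3 and a convex body K in n-space. If its Blaschke body (the symmetric body whose surface area measure is the average of those of K and −K) is homothetic to ½(K−K), then K is centrally symmetric. -/
theorem result :
    ¬ (∀ n : ℕ, 3 ≤ n → ∀ K B : Set (EuclideanSpace ℝ (Fin n)),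
      IsCompact K → Convex ℝ K → (interior K).Nonempty →
      IsCompact B → Convex ℝ B → (interior B).Nonempty → -B = B →
      (∀ L : Set (EuclideanSpace ℝ (Fin n)), IsCompact L → Convex ℝ L → L.Nonempty →
        HasDerivWithinAt
          (fun ε : ℝ => (MeasureTheory.volume (B + ε • L)).toReal
            - ((MeasureTheory.volume (K + ε • L)).toReal
                + (MeasureTheory.volume (-K + ε • L)).toReal) / 2)
          0 (Set.Ici 0) 0) →
      (∃ r : ℝ, 0 < r ∧ ∃ x : EuclideanSpace ℝ (Fin n),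
        B = x +ᵥ (r • ((1 / 2 : ℝ) • (K + -K)))) →
      ∃ c : EuclideanSpace ℝ (Fin n), ∀ y : EuclideanSpace ℝ (Fin n),
        y ∈ K ↔ (2 : ℝ) • c - y ∈ K) := by
  intro hall
  -- the scale
  obtain ⟨ρ, hρ0, hρ3⟩ : ∃ ρ : ℝ, 0 < ρ ∧ ρ ^ 3 = 9 / 4 := by
    refine ⟨(9 / 4 : ℝ) ^ ((1 : ℝ) / 3), by positivity, ?_⟩
    rw [← Real.rpow_natCast, ← Real.rpow_mul (by norm_num)]
    norm_num
  have hρ1 : 1 ≤ ρ := by
    by_contra h
    push Not at h
    have : ρ ^ 3 < 1 := pow_lt_one₀ hρ0.le h (by norm_num)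
    rw [hρ3] at this
    norm_num at this
  have cT : IsCompact TT := tri_compact _ _ _
  have cN : IsCompact (-TT) := cT.neg
  have cH : IsCompact (Hex ρ) := Hab_compact _ _
  have hKneg : -(phi ⁻¹' (TT ×ˢ TT)) = phi ⁻¹' ((-TT) ×ˢ (-TT)) := by
    ext x
    simp only [Set.mem_neg, Set.mem_preimage, map_neg, Set.mem_prod]
    rfl
  have hcomp : ∀ S : Set V4, IsCompact S → IsCompact (phi ⁻¹' S) := fun S hS =>
    phi.toHomeomorph.isCompact_preimage.2 hS
  have hconv : ∀ S : Set V4, Convex ℝ S → Convex ℝ (phi ⁻¹' S) := by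
    intro S hS x hx y hy a b ha hb hab
    change phi (a • x + b • y) ∈ S
    rw [map_add, map_smul, map_smul]
    exact hS hx hy ha hb hab
  have hint : ∀ P : Set R2, (∀ z : R2, ‖z‖ ≤ 1 / 2 → z ∈ P) →
      (interior (phi ⁻¹' (P ×ˢ P))).Nonempty := by
    intro P hP
    refine ⟨0, mem_interior.2 ⟨phi ⁻¹' (Metric.ball 0 (1 / 2)), ?_,
      Metric.isOpen_ball.preimage phi.continuous, by simp⟩⟩
    intro x hx
    have h1 : ‖phi x‖ < 1 / 2 := by simpa using hx
    exact ⟨hP _ ((norm_fst_le _).trans h1.le), hP _ ((norm_snd_le _).trans h1.le)⟩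
  have := hall 4 (by norm_num) (phi ⁻¹' (TT ×ˢ TT)) (phi ⁻¹' (Hex ρ ×ˢ Hex ρ))
    (hcomp _ (cT.prod cT)) (hconv _ (tt_convex.prod tt_convex)) (hint _ tt_ball)
    (hcomp _ (cH.prod cH)) (hconv _ ((hex_convex ρ).prod (hex_convex ρ)))
    (hint _ (hex_ball ρ hρ1)) ?_ ?_ ?_
  · obtain ⟨c, hc⟩ := this
    have hc' : ∀ t : R2, t ∈ TT → (2 : ℝ) • (phi c).1 - t ∈ TT := by
      intro t ht
      have h0 : (0 : R2) ∈ TT := tt_ball 0 (by simp)
      have h1 : phi.symm (t, 0) ∈ phi ⁻¹' (TT ×ˢ TT) := by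
        change phi (phi.symm (t, 0)) ∈ TT ×ˢ TT
        rw [phi.apply_symm_apply]
        exact ⟨ht, h0⟩
      have h2 := (hc _).1 h1
      change phi ((2 : ℝ) • c - phi.symm (t, 0)) ∈ TT ×ˢ TT at h2
      rw [map_sub, map_smul, phi.apply_symm_apply] at h2
      exact h2.1
    set d := (phi c).1 with hd
    obtain ⟨a1, a2, a3⟩ := hc' (2, -1) ⟨by norm_num, by norm_num, by norm_num⟩
    obtain ⟨b1, b2, b3⟩ := hc' (-1, 2) ⟨by norm_num, by norm_num, by norm_num⟩
    obtain ⟨e1, e2, e3⟩ := hc' (-1, -1) ⟨by norm_num, by norm_num, by norm_num⟩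
    simp at a1 a2 a3 b1 b2 b3 e1 e2 e3
    linarith
  · ext x
    simp only [Set.mem_neg, Set.mem_preimage, map_neg, Set.mem_prod]
    have hs : ∀ z : R2, -z ∈ Hex ρ ↔ z ∈ Hex ρ := by
      intro z
      constructor
      · intro h i
        have := h i
        rw [map_neg] at this
        exact ⟨by linarith [this.2], by linarith [this.1]⟩
      · intro h i
        have := h i
        rw [map_neg]
        exact ⟨by linarith [this.2], by linarith [this.1]⟩
    exact and_congr (hs _) (hs _)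
  · intro L hL _ hLne
    obtain ⟨c, hc⟩ := vol_phi
    have hN : IsCompact (phi '' L) := hL.image phi.continuous
    have hNne : (phi '' L).Nonempty := hLne.image _
    have hN1 : IsCompact (Prod.fst '' (phi '' L)) := hN.image continuous_fst
    have hN2 : IsCompact (Prod.snd '' (phi '' L)) := hN.image continuous_snd
    have n1 : (Prod.fst '' (phi '' L)).Nonempty := hNne.image _
    have n2 : (Prod.snd '' (phi '' L)).Nonempty := hNne.image _
    have dK := prod_deriv TT TT cT cT tt_convex tt_convex tt_ball tt_ball _ hN hNne _ _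
      (T_deriv _ hN1 n1) (T_deriv _ hN2 n2)
    have dM := prod_deriv (-TT) (-TT) cN cN tt_convex.neg tt_convex.neg ntt_ball ntt_ball _ hN hNne
      _ _ (negT_deriv _ hN1 n1) (negT_deriv _ hN2 n2)
    have dB := prod_deriv (Hex ρ) (Hex ρ) cH cH (hex_convex ρ) (hex_convex ρ)
      (hex_ball ρ hρ1) (hex_ball ρ hρ1) _ hN hNne
      _ _ (H_deriv ρ hρ0 _ hN1 n1) (H_deriv ρ hρ0 _ hN2 n2)
    have vT : volume.real TT = pp := rfl
    have vN : volume.real (-TT) = pp := by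
      rw [Measure.real, Measure.measure_neg]; rfl
    rw [vT] at dK
    rw [vN] at dM
    rw [hex_real ρ hρ0] at dB
    have hall2 := ((dB.sub ((dK.add dM).div_const 2)).const_mul c)
    have hval : c * (2 / 9 * pp * ρ * (sP (Prod.fst '' (phi '' L)) + sM (Prod.fst '' (phi '' L))) *
        (2 / 3 * ρ ^ 2 * pp) + 2 / 3 * ρ ^ 2 * pp *
        (2 / 9 * pp * ρ * (sP (Prod.snd '' (phi '' L)) + sM (Prod.snd '' (phi '' L)))) -
        (2 / 3 * pp * sP (Prod.fst '' (phi '' L)) * pp +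
        pp * (2 / 3 * pp * sP (Prod.snd '' (phi '' L))) +
        (2 / 3 * pp * sM (Prod.fst '' (phi '' L)) * pp +
        pp * (2 / 3 * pp * sM (Prod.snd '' (phi '' L))))) / 2) = 0 := by
      have h3 : ρ * ρ ^ 2 = 9 / 4 := by rw [← hρ3]; ring
      have : ∀ A B : ℝ, 2 / 9 * pp * ρ * A * (2 / 3 * ρ ^ 2 * pp) + 2 / 3 * ρ ^ 2 * pp *
        (2 / 9 * pp * ρ * B) = 4 / 27 * (ρ * ρ ^ 2) * pp ^ 2 * (A + B) := by
        intro A B; ring
      rw [this, h3]
      ring
    rw [hval] at hall2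
    have hfun : ∀ ε : ℝ, (volume (phi ⁻¹' (Hex ρ ×ˢ Hex ρ) + ε • L)).toReal
        - ((volume (phi ⁻¹' (TT ×ˢ TT) + ε • L)).toReal
          + (volume (-(phi ⁻¹' (TT ×ˢ TT)) + ε • L)).toReal) / 2 =
        c * (volume.real (Hex ρ ×ˢ Hex ρ + ε • (phi '' L)) -
          (volume.real (TT ×ˢ TT + ε • (phi '' L)) +
            volume.real ((-TT) ×ˢ (-TT) + ε • (phi '' L))) / 2) := by
      intro ε
      rw [hKneg, pre_add, pre_add, pre_add, hc _ ((cH.prod cH).add (hN.smul ε)).isClosed.measurableSet,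
        hc _ ((cT.prod cT).add (hN.smul ε)).isClosed.measurableSet,
        hc _ ((cN.prod cN).add (hN.smul ε)).isClosed.measurableSet]
      ring
    exact hall2.congr_of_eventuallyEq (Filter.Eventually.of_forall hfun) (hfun 0)
  · refine ⟨2 * ρ / 3, by positivity, 0, ?_⟩
    rw [zero_vadd]
    ext y
    constructor
    · rintro ⟨h1, h2⟩
      obtain ⟨t1, ht1, t1', ht1', e1⟩ := hexB ρ hρ0 _ h1
      obtain ⟨t2, ht2, t2', ht2', e2⟩ := hexB ρ hρ0 _ h2
      refine ⟨(1 / 2 : ℝ) • (phi.symm (t1, t2) + -phi.symm (t1', t2')),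
        ⟨_, ⟨phi.symm (t1, t2), ?_, -phi.symm (t1', t2'), ?_, rfl⟩, rfl⟩, ?_⟩
      · change phi (phi.symm (t1, t2)) ∈ TT ×ˢ TT
        rw [phi.apply_symm_apply]
        exact ⟨ht1, ht2⟩
      · rw [Set.mem_neg, neg_neg]
        change phi (phi.symm (t1', t2')) ∈ TT ×ˢ TT
        rw [phi.apply_symm_apply]
        exact ⟨ht1', ht2'⟩
      · apply phi.injective
        simp only [map_smul, map_add, map_neg, phi.apply_symm_apply]
        apply Prod.ext
        · rw [e1]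
          simp only [Prod.smul_fst, Prod.fst_add, Prod.fst_neg, smul_smul]
          rw [← sub_eq_add_neg]
          congr 1
          ring
        · rw [e2]
          simp only [Prod.smul_snd, Prod.snd_add, Prod.snd_neg, smul_smul]
          rw [← sub_eq_add_neg]
          congr 1
          ring
    · rintro ⟨_, ⟨_, ⟨a, ha, b, hb, rfl⟩, rfl⟩, rfl⟩
      have hb' : phi (-b) ∈ TT ×ˢ TT := hb
      have ha' : phi a ∈ TT ×ˢ TT := ha
      rw [map_neg] at hb'
      change phi ((2 * ρ / 3) • ((1 / 2 : ℝ) • (a + b))) ∈ Hex ρ ×ˢ Hex ρ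
      have e : phi ((2 * ρ / 3) • ((1 / 2 : ℝ) • (a + b))) =
          ((ρ / 3) • ((phi a).1 - (-phi b).1), (ρ / 3) • ((phi a).2 - (-phi b).2)) := by
        rw [map_smul, map_smul, map_add, smul_smul]
        have e2 : (2 * ρ / 3) * (1 / 2) = ρ / 3 := by ring
        rw [e2]
        apply Prod.ext
        · simp
        · simp
      rw [e]
      exact ⟨hexA ρ hρ0 _ _ ha'.1 hb'.1, hexA ρ hρ0 _ _ ha'.2 hb'.2⟩

end Pool.Agent.S09550
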