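import Pool.Statements.S09566

set_option autoImplicit false
open Pool Pool.MP_cc19c9_gt

namespace Pool.Agent.S09566

open Cardinal Set Topology

/-- discrete space of size continuum -/
structure D where
  r : ℝ

instance : TopologicalSpace D := ⊥
instance : DiscreteTopology D := ⟨rfl⟩

def eqD : D ≃ ℝ := ⟨fun d => d.r, fun r => ⟨r⟩, fun _ => rfl, fun _ => rfl⟩

theorem mkD : #D = 𝔠 := by
  rw [← mk_real]
  exact mk_congr eqD

abbrev XX := OnePoint D

theorem supp_countable (f : XX → ℝ) (hf : Continuous f) :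
    {x : D | f (x : XX) ≠ f (OnePoint.infty)}.Countable := by
  have h : ∀ n : ℕ, {x : D | 1 / ((n : ℝ) + 1) ≤ |f (x : XX) - f (OnePoint.infty)|}.Finite := by
    intro n
    have ho : IsOpen {z : XX | |f z - f (OnePoint.infty)| < 1 / ((n : ℝ) + 1)} :=
      isOpen_lt (hf.sub continuous_const).abs continuous_const
    have hm : (OnePoint.infty : XX) ∈ {z : XX | |f z - f (OnePoint.infty)| < 1 / ((n : ℝ) + 1)} := by
      show |f OnePoint.infty - f OnePoint.infty| < 1 / ((n : ℝ) + 1)
      rw [sub_self, abs_zero]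
      positivity
    have hc := ((OnePoint.isOpen_iff_of_mem hm).1 ho).2
    refine (isCompact_iff_finite.1 hc).subset ?_
    intro x hx hx'
    exact absurd (show |f (x : XX) - f (OnePoint.infty)| < 1 / ((n : ℝ) + 1) from hx') (not_lt.2 hx)
  refine (Set.countable_iUnion (fun n => (h n).countable)).mono ?_
  intro x hx
  rw [Set.mem_iUnion]
  have hpos : 0 < |f (x : XX) - f (OnePoint.infty)| := abs_pos.2 (sub_ne_zero.2 hx)
  obtain ⟨n, hn⟩ := exists_nat_one_div_lt hpos
  exact ⟨n, hn.le⟩

open Classical in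
noncomputable def Phi (t : (ℕ → D) × (ℕ → ℝ) × ℝ) : XX → ℝ := fun z =>
  if h : ∃ n, ((t.1 n : D) : XX) = z then t.2.1 (Classical.choose h) else t.2.2

theorem card_le : #{f : XX → ℝ // Continuous f} ≤ 𝔠 := by
  classical
  have hsub : {f : XX → ℝ | Continuous f} ⊆ Set.range Phi := by
    intro f hf
    obtain ⟨s, hs⟩ := ((supp_countable f hf).insert (⟨0⟩ : D)).exists_eq_range ⟨_, Set.mem_insert _ _⟩
    refine ⟨(s, fun n => f (s n : XX), f OnePoint.infty), ?_⟩
    funext z
    by_cases h : ∃ n, ((s n : D) : XX) = z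
    · show (if h : ∃ n, ((s n : D) : XX) = z then f (s (Classical.choose h) : XX) else f OnePoint.infty) = f z
      rw [dif_pos h, Classical.choose_spec h]
    · show (if h : ∃ n, ((s n : D) : XX) = z then f (s (Classical.choose h) : XX) else f OnePoint.infty) = f z
      rw [dif_neg h]
      by_contra hne
      induction z using OnePoint.rec with
      | infty => exact hne rfl
      | coe x =>
        have hx : x ∈ insert (⟨0⟩ : D) {x : D | f (x : XX) ≠ f (OnePoint.infty)} :=
          Or.inr (fun e => hne e.symm)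
        rw [hs] at hx
        obtain ⟨n, hn⟩ := hx
        exact h ⟨n, by rw [hn]⟩
  have h1 : #{f : XX → ℝ // Continuous f} ≤ #(Set.range Phi) := mk_le_mk_of_subset hsub
  refine h1.trans (mk_range_le.trans ?_)
  have e1 : #(ℕ → D) = 𝔠 := by
    rw [← power_def, mkD]
    simp
  have e2 : #(ℕ → ℝ) = 𝔠 := by
    rw [← power_def, mk_real]
    simp
  rw [mk_prod, mk_prod]
  simp only [lift_id, e1, e2, mk_real]
  simp

/-- the subgroup of rationals -/
noncomputable def H : AddSubgroup ℝ := (Rat.castHom ℝ).toAddMonoidHom.range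

theorem card_quot : 𝔠 ≤ #(ℝ ⧸ H) := by
  have h1 : #ℝ = #(ℝ ⧸ H) * #H := by
    have := mk_congr (AddSubgroup.addGroupEquivQuotientProdAddSubgroup (s := H))
    rw [this]
    simp
  have h2 : #H ≤ ℵ₀ := by
    have : (Set.range (Rat.castHom ℝ).toAddMonoidHom).Countable := Set.countable_range _
    exact this.le_aleph0
  by_contra hlt
  push Not at hlt
  have : #(ℝ ⧸ H) * #H < 𝔠 := mul_lt_of_lt aleph0_le_continuum hlt (h2.trans_lt aleph0_lt_continuum)
  rw [← h1, mk_real] at this
  exact lt_irrefl _ this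

theorem exists_r : ∃ r : {f : XX → ℝ // Continuous f} × ℕ → ℝ, Function.Injective r ∧
    ∀ k, |r k - k.1.1 OnePoint.infty| < 1 / ((k.2 : ℝ) + 1) := by
  have hcard : #({f : XX → ℝ // Continuous f} × ℕ) ≤ #(ℝ ⧸ H) := by
    refine le_trans ?_ card_quot
    rw [mk_prod]
    simp only [lift_id, mk_nat]
    exact (mul_le_mul' card_le aleph0_le_continuum).trans (by simp)
  obtain ⟨⟨j, hj⟩⟩ := hcard
  have hq : ∀ k : {f : XX → ℝ // Continuous f} × ℕ, ∃ q : ℚ,
      |(Quotient.out (j k) : ℝ) + q - k.1.1 OnePoint.infty| < 1 / ((k.2 : ℝ) + 1) := by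
    intro k
    have hpos : (0 : ℝ) < 1 / ((k.2 : ℝ) + 1) := by positivity
    obtain ⟨q, hq1, hq2⟩ := exists_rat_btwn
      (show k.1.1 OnePoint.infty - (Quotient.out (j k) : ℝ) <
        k.1.1 OnePoint.infty - (Quotient.out (j k) : ℝ) + 1 / ((k.2 : ℝ) + 1) by linarith)
    refine ⟨q, ?_⟩
    rw [abs_lt]
    constructor <;> linarith
  choose q hq using hq
  refine ⟨fun k => (Quotient.out (j k) : ℝ) + q k, ?_, hq⟩
  intro k k' hkk
  have h1 : (Quotient.out (j k) : ℝ) + q k = (Quotient.out (j k') : ℝ) + q k' := hkk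
  apply hj
  rw [← Quotient.out_eq (j k), ← Quotient.out_eq (j k')]
  apply (QuotientAddGroup.eq (s := H)).2
  refine ⟨q k - q k', ?_⟩
  show ((q k - q k' : ℚ) : ℝ) = _
  push_cast
  linarith

theorem not_main (h : (XX → ℝ) → (ℕ → ℝ)) (hc : ContinuousOn h {f : XX → ℝ | Continuous f})
    (hi : Set.InjOn h {f : XX → ℝ | Continuous f}) : False := by
  classical
  have h0 : (fun _ => 0 : XX → ℝ) ∈ {f : XX → ℝ | Continuous f} := continuous_const
  have hw : ContinuousWithinAt h {f : XX → ℝ | Continuous f} (fun _ => 0) := hc _ h0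
  have hF : ∀ m n : ℕ, ∃ F : Finset XX, ∀ f : XX → ℝ, Continuous f → (∀ x ∈ F, f x = 0) →
      |h f m - h (fun _ => 0) m| < 1 / ((n : ℝ) + 1) := by
    intro m n
    have hO : {v : ℕ → ℝ | |v m - h (fun _ => 0) m| < 1 / ((n : ℝ) + 1)} ∈ 𝓝 (h (fun _ => 0)) := by
      apply IsOpen.mem_nhds
      · exact isOpen_lt (((continuous_apply m).sub continuous_const).abs) continuous_const
      · show |h (fun _ => 0) m - h (fun _ => 0) m| < 1 / ((n : ℝ) + 1)
        rw [sub_self, abs_zero]
        positivity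
    obtain ⟨u, hu, h0u, hsub⟩ := mem_nhdsWithin.1 (hw hO)
    obtain ⟨F, w, hw', hFs⟩ := isOpen_pi_iff.1 hu _ h0u
    refine ⟨F, fun f hf hz => ?_⟩
    have hfu : f ∈ u := by
      apply hFs
      intro x hx
      rw [hz x hx]
      exact (hw' x hx).2
    exact hsub ⟨hfu, hf⟩
  choose F hF using hF
  have hcount : (⋃ m : ℕ, ⋃ n : ℕ, {x : D | (x : XX) ∈ F m n}).Countable := by
    refine Set.countable_iUnion (fun m => Set.countable_iUnion (fun n => Set.Finite.countable ?_))
    exact Set.Finite.preimage (OnePoint.coe_injective.injOn) (Finset.finite_toSet (F m n))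
  have hne : (⋃ m : ℕ, ⋃ n : ℕ, {x : D | (x : XX) ∈ F m n}) ≠ Set.univ := by
    intro e
    rw [e] at hcount
    have : #D ≤ ℵ₀ := by
      rw [← mk_univ]
      exact hcount.le_aleph0
    rw [mkD] at this
    exact absurd aleph0_lt_continuum (not_lt.2 this)
  obtain ⟨x, hx⟩ := (Set.ne_univ_iff_exists_notMem _).1 hne
  have hxF : ∀ m n, (x : XX) ∉ F m n := by
    intro m n hm
    apply hx
    rw [Set.mem_iUnion]
    refine ⟨m, ?_⟩
    rw [Set.mem_iUnion]
    exact ⟨n, hm⟩
  let f : XX → ℝ := Set.indicator {(x : XX)} (fun _ => 1)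
  have hcl : IsClopen ({(x : XX)} : Set XX) := by
    refine ⟨isClosed_singleton, ?_⟩
    have := OnePoint.isOpenEmbedding_coe.isOpenMap _ (isOpen_discrete ({x} : Set D))
    rwa [Set.image_singleton] at this
  have hf : Continuous f := by
    apply Continuous.indicator
    · intro a ha
      rw [hcl.frontier_eq] at ha
      exact absurd ha (Set.notMem_empty a)
    · exact continuous_const
  have hfz : h f = h (fun _ => 0) := by
    funext m
    by_contra hne'
    have hpos : 0 < |h f m - h (fun _ => 0) m| := abs_pos.2 (sub_ne_zero.2 hne')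
    obtain ⟨n, hn⟩ := exists_nat_one_div_lt hpos
    have := hF m n f hf (by
      intro y hy
      apply Set.indicator_of_notMem
      rintro (rfl : y = _)
      exact hxF m n hy)
    linarith
  have := hi hf h0 hfz
  have h1 := congrFun this (x : XX)
  have h2 : f (x : XX) = 1 := Set.indicator_of_mem (Set.mem_singleton _) _
  rw [h2] at h1
  exact one_ne_zero h1

/-- The negation of the preceding statement: For every Tychonoff X: if some uniformly dense subset Y of C_p(X) continuously injects into ℝ^ℕ (iw(Y) ≤ ω), then C_p(X) itself continuously injects into ℝ^ℕ (iw(C_p(X)) ≤ ω). -/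
theorem result :
    ¬ (∀ (X : Type) [TopologicalSpace X] [T35Space X] (Y : Set (X → ℝ)),
      Y ⊆ {f : X → ℝ | Continuous f} →
      (∀ f : X → ℝ, Continuous f → ∀ ε : ℝ, 0 < ε → ∃ g ∈ Y, ∀ x : X, |f x - g x| < ε) →
      (∃ h : (X → ℝ) → (ℕ → ℝ), ContinuousOn h Y ∧ Set.InjOn h Y) →
      ∃ h : (X → ℝ) → (ℕ → ℝ),
        ContinuousOn h {f : X → ℝ | Continuous f} ∧ Set.InjOn h {f : X → ℝ | Continuous f}) := by
  intro H0
  obtain ⟨r, hr, hrb⟩ := exists_r
  obtain ⟨h, h1, h2⟩ := H0 XX
    (Set.range (fun k : {f : XX → ℝ // Continuous f} × ℕ =>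
      (fun x : XX => k.1.1 x + (r k - k.1.1 OnePoint.infty)))) (by
      rintro _ ⟨k, rfl⟩
      exact k.1.2.add continuous_const) (by
      intro f hf ε hε
      obtain ⟨n, hn⟩ := exists_nat_one_div_lt hε
      refine ⟨_, ⟨(⟨f, hf⟩, n), rfl⟩, fun x => ?_⟩
      have := hrb (⟨f, hf⟩, n)
      show |f x - (f x + (r (⟨f, hf⟩, n) - f OnePoint.infty))| < ε
      rw [sub_add_cancel_left, abs_neg]
      exact this.trans hn) (by
      refine ⟨fun g _ => g OnePoint.infty, ?_, ?_⟩
      · exact (continuous_pi (fun _ => continuous_apply _)).continuousOn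
      · rintro _ ⟨k, rfl⟩ _ ⟨k', rfl⟩ hkk
        have h3 := congrFun hkk 0
        have h4 : r k = r k' := by
          have h5 : k.1.1 OnePoint.infty + (r k - k.1.1 OnePoint.infty) =
            k'.1.1 OnePoint.infty + (r k' - k'.1.1 OnePoint.infty) := h3
          linarith
        rw [hr h4])
  exact not_main h h1 h2

end Pool.Agent.S09566
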