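import Pool.Statements.S09696
-- import your own Pool.Agent.* helpers here

set_option autoImplicit false
open Pool Pool.MP_e230d6_gt

namespace Pool.Agent.S09696


open Topology

/-- The space: branches and nodes of the binary tree. -/
inductive XX : Type where
  | br (x : ℕ → Bool) : XX
  | nd (n : ℕ) (t : Fin n → Bool) : XX

/-- Restriction of a branch to level `n`. -/
def rs (x : ℕ → Bool) (n : ℕ) : Fin n → Bool := fun i => x i

/-- Basic neighbourhoods of a branch: the nodes off the branch that extend `x | m`. -/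
def BB (x : ℕ → Bool) (m : ℕ) : Set XX :=
  {z | (∃ y, z = XX.br y ∧ ∀ i < m, y i = x i) ∨
    ∃ n t, z = XX.nd n t ∧ m ≤ n ∧ (∀ i : Fin n, i.1 < m → t i = x i) ∧ t ≠ rs x n}

theorem br_mem (x y : ℕ → Bool) (m : ℕ) : XX.br y ∈ BB x m ↔ ∀ i < m, y i = x i := by
  constructor
  · rintro (⟨y', h, h2⟩ | ⟨n, t, h, _⟩)
    · cases h
      exact h2
    · cases h
  · intro h
    exact Or.inl ⟨y, rfl, h⟩

theorem nd_mem (x : ℕ → Bool) (m n : ℕ) (t : Fin n → Bool) : XX.nd n t ∈ BB x m ↔
    m ≤ n ∧ (∀ i : Fin n, i.1 < m → t i = x i) ∧ t ≠ rs x n := by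
  constructor
  · rintro (⟨y', h, h2⟩ | ⟨n', t', h, h2⟩)
    · cases h
    · cases h
      exact h2
  · intro h
    exact Or.inr ⟨n, t, rfl, h⟩

theorem BB_anti (x : ℕ → Bool) {m m' : ℕ} (h : m ≤ m') : BB x m' ⊆ BB x m := by
  rintro z hz
  cases z with
  | br y =>
    rw [br_mem] at hz ⊢
    exact fun i hi => hz i (lt_of_lt_of_le hi h)
  | nd n t =>
    rw [nd_mem] at hz ⊢
    exact ⟨h.trans hz.1, fun i hi => hz.2.1 i (lt_of_lt_of_le hi h), hz.2.2⟩

instance : TopologicalSpace XX where
  IsOpen U := ∀ x, XX.br x ∈ U → ∃ m, BB x m ⊆ U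
  isOpen_univ := fun x _ => ⟨0, Set.subset_univ _⟩
  isOpen_inter U V hU hV x hx := by
    obtain ⟨m, hm⟩ := hU x hx.1
    obtain ⟨k, hk⟩ := hV x hx.2
    exact ⟨max m k, fun z hz => ⟨hm (BB_anti x (le_max_left _ _) hz),
      hk (BB_anti x (le_max_right _ _) hz)⟩⟩
  isOpen_sUnion S hS x hx := by
    obtain ⟨U, hU, hxU⟩ := hx
    obtain ⟨m, hm⟩ := hS U hU x hxU
    exact ⟨m, fun z hz => ⟨U, hU, hm hz⟩⟩

theorem open_iff (U : Set XX) : IsOpen U ↔ ∀ x, XX.br x ∈ U → ∃ m, BB x m ⊆ U := Iff.rfl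

theorem first_diff (x y : ℕ → Bool) (h : x ≠ y) : ∃ k, x k ≠ y k ∧ ∀ i < k, x i = y i := by
  have hex : ∃ k, x k ≠ y k := by
    by_contra hcon
    push Not at hcon
    exact h (funext hcon)
  classical
  refine ⟨Nat.find hex, Nat.find_spec hex, fun i hi => ?_⟩
  have := Nat.find_min hex hi
  exact not_not.mp this

theorem BB_open (x : ℕ → Bool) (m : ℕ) : IsOpen (BB x m) := by
  rw [open_iff]
  intro y hy
  rw [br_mem] at hy
  by_cases hxy : x = y
  · subst hxy
    exact ⟨m, subset_rfl⟩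
  · obtain ⟨k, hk, _⟩ := first_diff x y hxy
    refine ⟨max m (k + 1), ?_⟩
    intro z hz
    cases z with
    | br w =>
      rw [br_mem] at hz ⊢
      intro i hi
      rw [hz i (lt_of_lt_of_le hi (le_max_left _ _))]
      exact hy i hi
    | nd n t =>
      rw [nd_mem] at hz ⊢
      refine ⟨(le_max_left _ _).trans hz.1, ?_, ?_⟩
      · intro i hi
        rw [hz.2.1 i (lt_of_lt_of_le hi (le_max_left _ _))]
        exact hy i hi
      · intro ht
        have hkn : k < n := lt_of_lt_of_le (Nat.lt_succ_self k)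
          ((le_max_right m (k + 1)).trans hz.1)
        have h1 := hz.2.1 ⟨k, hkn⟩ (lt_of_lt_of_le (Nat.lt_succ_self k) (le_max_right _ _))
        rw [ht] at h1
        exact hk h1

theorem nd_open (n : ℕ) (t : Fin n → Bool) : IsOpen ({XX.nd n t} : Set XX) := by
  rw [open_iff]
  intro x hx
  cases hx

theorem t2 : T2Space XX := by
  constructor
  intro a b hab
  have hbn : ∀ (x : ℕ → Bool) (n : ℕ) (t : Fin n → Bool),
      Disjoint (BB x (n + 1)) {XX.nd n t} := by
    intro x n t
    rw [Set.disjoint_singleton_right, nd_mem]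
    rintro ⟨h, _⟩
    omega
  cases a with
  | br x =>
    cases b with
    | br y =>
      have hxy : x ≠ y := fun h => hab (by rw [h])
      obtain ⟨k, hk, _⟩ := first_diff x y hxy
      refine ⟨BB x (k + 1), BB y (k + 1), BB_open _ _, BB_open _ _,
        (br_mem _ _ _).mpr fun i _ => rfl, (br_mem _ _ _).mpr fun i _ => rfl, ?_⟩
      rw [Set.disjoint_left]
      intro z hz1 hz2
      cases z with
      | br w =>
        rw [br_mem] at hz1 hz2
        exact hk ((hz1 k (Nat.lt_succ_self k)).symm.trans (hz2 k (Nat.lt_succ_self k)))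
      | nd n t =>
        rw [nd_mem] at hz1 hz2
        have hkn : k < n := hz1.1
        have h1 := hz1.2.1 ⟨k, hkn⟩ (Nat.lt_succ_self k)
        have h2 := hz2.2.1 ⟨k, hkn⟩ (Nat.lt_succ_self k)
        exact hk (h1.symm.trans h2)
    | nd n t =>
      exact ⟨BB x (n + 1), {XX.nd n t}, BB_open _ _, nd_open _ _,
        (br_mem _ _ _).mpr fun i _ => rfl, rfl, hbn x n t⟩
  | nd n t =>
    cases b with
    | br y =>
      exact ⟨{XX.nd n t}, BB y (n + 1), nd_open _ _, BB_open _ _, rfl,
        (br_mem _ _ _).mpr fun i _ => rfl, (hbn y n t).symm⟩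
    | nd n' t' =>
      refine ⟨{XX.nd n t}, {XX.nd n' t'}, nd_open _ _, nd_open _ _, rfl, rfl, ?_⟩
      rw [Set.disjoint_singleton]
      exact hab

theorem first_countable : FirstCountableTopology XX := by
  constructor
  intro a
  cases a with
  | br x =>
    have hb : (𝓝 (XX.br x)).HasBasis (fun _ : ℕ => True) (fun m => BB x m) := by
      constructor
      intro s
      rw [mem_nhds_iff]
      constructor
      · rintro ⟨U, hUs, hU, hx⟩
        obtain ⟨m, hm⟩ := hU x hx
        exact ⟨m, trivial, hm.trans hUs⟩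
      · rintro ⟨m, _, hm⟩
        exact ⟨BB x m, hm, BB_open x m, (br_mem _ _ _).mpr fun i _ => rfl⟩
    exact hb.isCountablyGenerated
  | nd n t =>
    have hb : (𝓝 (XX.nd n t)).HasBasis (fun _ : ℕ => True) (fun _ => {XX.nd n t}) := by
      constructor
      intro s
      rw [mem_nhds_iff]
      constructor
      · rintro ⟨U, hUs, hU, hx⟩
        refine ⟨0, trivial, ?_⟩
        rw [Set.singleton_subset_iff]
        exact hUs hx
      · rintro ⟨m, _, hm⟩
        exact ⟨{XX.nd n t}, hm, nd_open n t, rfl⟩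
    exact hb.isCountablyGenerated

/-- The nodes of level `n` missing from `K`. -/
noncomputable def missing (K : Set XX) (n : ℕ) : Finset (Fin n → Bool) := by
  classical
  exact Finset.univ.filter fun t => XX.nd n t ∉ K

theorem mem_missing (K : Set XX) (n : ℕ) (t : Fin n → Bool) :
    t ∈ missing K n ↔ XX.nd n t ∉ K := by
  classical
  unfold missing
  rw [Finset.mem_filter]
  exact ⟨fun h => h.2, fun h => ⟨Finset.mem_univ _, h⟩⟩

theorem missing_mono {K L : Set XX} (h : L ⊆ K) (n : ℕ) :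
    (missing K n).card ≤ (missing L n).card := by
  apply Finset.card_le_card
  intro t ht
  rw [mem_missing] at ht ⊢
  exact fun h' => ht (h h')

theorem two_mul_lt_two_pow (d : ℕ) (h : 3 ≤ d) : 2 * d < 2 ^ d := by
  induction d, h using Nat.le_induction with
  | base => norm_num
  | succ k hk ih =>
    rw [pow_succ]
    omega

/-- A cylinder contains, at a high level, a node not missing. -/
theorem exists_ext (K : Set XX) (x : ℕ → Bool) (l d : ℕ) (hd : l + 3 ≤ d)
    (hbad : (missing K (l + d)).card ≤ l + d) :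
    ∃ y : ℕ → Bool, (∀ i < l, y i = x i) ∧ rs y (l + d) ∉ missing K (l + d) := by
  classical
  by_contra hcon
  push Not at hcon
  let Y : (Fin d → Bool) → ℕ → Bool := fun w i =>
    if i < l then x i else if h : i - l < d then w ⟨i - l, h⟩ else false
  have hY : ∀ w, rs (Y w) (l + d) ∈ missing K (l + d) := by
    intro w
    apply hcon
    intro i hi
    simp only [Y, if_pos hi]
  have hinj : Function.Injective fun w : Fin d → Bool => rs (Y w) (l + d) := by
    intro w w' h
    funext j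
    have h1 := congrFun h ⟨l + j.1, by omega⟩
    simp only [rs, Y] at h1
    have h2 : ¬ (l + j.1 < l) := by omega
    have h3 : l + j.1 - l = j.1 := by omega
    simp only [if_neg h2, h3, j.2, dif_pos] at h1
    exact h1
  have hcard : (Finset.univ.image fun w : Fin d → Bool => rs (Y w) (l + d)).card = 2 ^ d := by
    rw [Finset.card_image_of_injective _ hinj]
    simp
  have hsub : (Finset.univ.image fun w : Fin d → Bool => rs (Y w) (l + d)) ⊆
      missing K (l + d) := by
    intro t ht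
    rw [Finset.mem_image] at ht
    obtain ⟨w, _, rfl⟩ := ht
    exact hY w
  have h4 := Finset.card_le_card hsub
  rw [hcard] at h4
  have h5 := two_mul_lt_two_pow d (by omega)
  omega

theorem cyl_open (x : ℕ → Bool) (m : ℕ) : IsOpen {y : ℕ → Bool | ∀ i < m, y i = x i} := by
  have : {y : ℕ → Bool | ∀ i < m, y i = x i} = ⋂ i ∈ Finset.range m, {y | y i = x i} := by
    ext y
    simp
  rw [this]
  apply isOpen_biInter_finset
  intro i _
  have hc : Continuous fun y : ℕ → Bool => y i := continuous_apply i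
  exact hc.isOpen_preimage {x i} (isOpen_discrete _)

theorem exists_cyl (U : Set (ℕ → Bool)) (hU : IsOpen U) (x : ℕ → Bool) (hx : x ∈ U) :
    ∃ l, {y : ℕ → Bool | ∀ i < l, y i = x i} ⊆ U := by
  rw [isOpen_pi_iff] at hU
  obtain ⟨I, u, hu, hsub⟩ := hU x hx
  refine ⟨I.sup id + 1, ?_⟩
  intro y hy
  apply hsub
  rw [Set.mem_pi]
  intro i hi
  have : i ≤ I.sup id := Finset.le_sup (f := id) hi
  rw [hy i (by omega)]
  exact (hu i hi).2

/-- The key lemma: a compact set almost fills only finitely many levels. -/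
theorem key (C : Set XX) (hC : IsCompact C) : {n | (missing C n).card ≤ n}.Finite := by
  by_contra hinf
  have hinf' : {n | (missing C n).card ≤ n}.Infinite := hinf
  let G : ℕ → Set (ℕ → Bool) := fun k =>
    ⋃ n ∈ {n | (missing C n).card ≤ n ∧ k ≤ n}, {x | rs x n ∉ missing C n}
  have hGo : ∀ k, IsOpen (G k) := by
    intro k
    apply isOpen_biUnion
    intro n _
    have hc : Continuous fun x : ℕ → Bool => rs x n := by
      apply continuous_pi
      intro i
      exact continuous_apply i.1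
    exact hc.isOpen_preimage {t | t ∉ missing C n} (isOpen_discrete _)
  have hGd : ∀ k, Dense (G k) := by
    intro k
    rw [dense_iff_inter_open]
    rintro U hU ⟨x, hx⟩
    obtain ⟨l, hl⟩ := exists_cyl U hU x hx
    obtain ⟨n, hn, hnl⟩ := hinf'.exists_gt (max k (2 * l + 3))
    have hk1 : k ≤ n := ((le_max_left _ _).trans hnl.le)
    have hk2 : 2 * l + 3 ≤ n := ((le_max_right _ _).trans hnl.le)
    obtain ⟨d, rfl⟩ : ∃ d, n = l + d := ⟨n - l, by omega⟩
    obtain ⟨y, hy1, hy2⟩ := exists_ext C x l d (by omega) hn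
    exact ⟨y, hl hy1, Set.mem_biUnion (show l + d ∈ {n | (missing C n).card ≤ n ∧ k ≤ n} from
      ⟨hn, hk1⟩) hy2⟩
  obtain ⟨x, hx⟩ := (dense_iInter_of_isOpen_nat hGo hGd).nonempty
  rw [Set.mem_iInter] at hx
  have hmany : ∀ k, ∃ n, k ≤ n ∧ XX.nd n (rs x n) ∈ C := by
    intro k
    have := hx k
    simp only [G, Set.mem_iUnion] at this
    obtain ⟨n, hn, h⟩ := this
    refine ⟨n, hn.2, ?_⟩
    by_contra hcon
    exact h ((mem_missing C n _).mpr hcon)
  -- the branch nodes are closed and discrete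
  let V : Option ℕ → Set XX := fun o => match o with
    | none => {z | ∀ n, z ≠ XX.nd n (rs x n)}
    | some n => {XX.nd n (rs x n)}
  have hVo : ∀ o, IsOpen (V o) := by
    intro o
    cases o with
    | none =>
      rw [open_iff]
      intro y _
      by_cases hxy : x = y
      · subst hxy
        refine ⟨0, ?_⟩
        intro z hz n hzn
        rw [hzn, nd_mem] at hz
        exact hz.2.2 rfl
      · obtain ⟨k, hk, _⟩ := first_diff x y hxy
        refine ⟨k + 1, ?_⟩
        intro z hz n hzn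
        rw [hzn, nd_mem] at hz
        exact hk (hz.2.1 ⟨k, hz.1⟩ (Nat.lt_succ_self k))
    | some n => exact nd_open _ _
  have hcov : C ⊆ ⋃ o, V o := by
    intro z _
    rw [Set.mem_iUnion]
    by_cases h : ∃ n, z = XX.nd n (rs x n)
    · obtain ⟨n, hn⟩ := h
      exact ⟨some n, hn⟩
    · push Not at h
      exact ⟨none, h⟩
  obtain ⟨T, hT⟩ := hC.elim_finite_subcover V hVo hcov
  obtain ⟨n, hn, hnC⟩ := hmany (T.sup (fun o => o.getD 0) + 1)
  have h1 := hT hnC
  rw [Set.mem_iUnion₂] at h1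
  obtain ⟨o, ho, h2⟩ := h1
  cases o with
  | none => exact h2 n rfl
  | some m =>
    have h3 : XX.nd n (rs x n) = XX.nd m (rs x m) := h2
    have h4 : n = m := by
      injection h3
    have h5 : (some m : Option ℕ).getD 0 ≤ T.sup (fun o => o.getD 0) :=
      Finset.le_sup (f := fun o : Option ℕ => o.getD 0) ho
    have h6 : (some m : Option ℕ).getD 0 = m := rfl
    rw [h6] at h5
    omega

theorem sat (K : Set XX) : ⋂₀ {U : Set XX | IsOpen U ∧ K ⊆ U} ⊆ K := by
  have := t2
  intro z hz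
  by_contra hzK
  have : z ∈ ({z}ᶜ : Set XX) := by
    apply hz
    refine ⟨isOpen_compl_singleton, ?_⟩
    intro w hw hwz
    rw [Set.mem_singleton_iff] at hwz
    exact hzK (hwz ▸ hw)
  exact this rfl

theorem brs_compact : IsCompact (Set.range XX.br) := by
  have : Continuous XX.br := by
    rw [continuous_def]
    intro U hU
    rw [isOpen_iff_forall_mem_open]
    intro x hx
    obtain ⟨m, hm⟩ := hU x hx
    refine ⟨{y | ∀ i < m, y i = x i}, ?_, cyl_open x m, fun i _ => rfl⟩
    intro y hy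
    exact hm ((br_mem _ _ _).mpr hy)
  exact isCompact_range this

/-- Every neighbourhood of the set of branches contains an almost full level. -/
theorem nbhd_level (U : Set XX) (hU : IsOpen U) (h : Set.range XX.br ⊆ U) :
    ∃ n, (missing U n).card ≤ n := by
  have hch : ∀ x, ∃ m, BB x m ⊆ U := fun x => hU x (h ⟨x, rfl⟩)
  choose m hm using hch
  obtain ⟨F, hF⟩ := isCompact_univ.elim_finite_subcover
    (fun x : ℕ → Bool => {y : ℕ → Bool | ∀ i < m x, y i = x i}) (fun x => cyl_open x (m x))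
    (fun y _ => Set.mem_iUnion.mpr ⟨y, fun i _ => rfl⟩)
  classical
  refine ⟨max (F.sup m) F.card, ?_⟩
  set n := max (F.sup m) F.card with hn
  have hsub : missing U n ⊆ F.image (fun x => rs x n) := by
    intro t ht
    rw [mem_missing] at ht
    by_contra hcon
    apply ht
    let y : ℕ → Bool := fun i => if h : i < n then t ⟨i, h⟩ else false
    have hy := hF (Set.mem_univ y)
    rw [Set.mem_iUnion₂] at hy
    obtain ⟨x, hx, hyx⟩ := hy
    have hmx : m x ≤ n := (Finset.le_sup (f := m) hx).trans (le_max_left _ _)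
    apply hm x
    rw [nd_mem]
    refine ⟨hmx, ?_, ?_⟩
    · intro i hi
      have := hyx i.1 hi
      simp only [y, i.2, dif_pos] at this
      exact this
    · intro h'
      exact hcon (Finset.mem_image.mpr ⟨x, hx, h'.symm⟩)
  exact (Finset.card_le_card hsub).trans (Finset.card_image_le.trans (le_max_right _ _))

/-- The negation of the preceding statement: For every first-countable well-filtered T0 space X, on the nonempty compact saturated subsets ordered by reverse inclusion, a family is open in the upper Vietoris topology exactly when it is Scott open. -/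
theorem result :
    ¬ (∀ (X : Type) [TopologicalSpace X], T0Space X → FirstCountableTopology X →
    (∀ 𝒦 : Set (Set X), 𝒦.Nonempty →
      (∀ K ∈ 𝒦, IsCompact K ∧ ⋂₀ {U : Set X | IsOpen U ∧ K ⊆ U} ⊆ K) →
      DirectedOn (fun A B : Set X => B ⊆ A) 𝒦 →
      ∀ U : Set X, IsOpen U → ⋂₀ 𝒦 ⊆ U → ∃ K ∈ 𝒦, K ⊆ U) →
    ∀ 𝒮 : Set {K : Set X // K.Nonempty ∧ IsCompact K ∧ ⋂₀ {U : Set X | IsOpen U ∧ K ⊆ U} ⊆ K},
      (@IsOpen {K : Set X // K.Nonempty ∧ IsCompact K ∧ ⋂₀ {U : Set X | IsOpen U ∧ K ⊆ U} ⊆ K}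
        (TopologicalSpace.generateFrom
          {𝒱 : Set {K : Set X // K.Nonempty ∧ IsCompact K ∧ ⋂₀ {U : Set X | IsOpen U ∧ K ⊆ U} ⊆ K} |
            ∃ U : Set X, IsOpen U ∧
              𝒱 = {K : {K : Set X // K.Nonempty ∧ IsCompact K ∧ ⋂₀ {U : Set X | IsOpen U ∧ K ⊆ U} ⊆ K} |
                K.1 ⊆ U}}) 𝒮 ↔
      ((∀ K ∈ 𝒮, ∀ L : {K : Set X // K.Nonempty ∧ IsCompact K ∧ ⋂₀ {U : Set X | IsOpen U ∧ K ⊆ U} ⊆ K},
          L.1 ⊆ K.1 → L ∈ 𝒮) ∧
       ∀ 𝒟 : Set {K : Set X // K.Nonempty ∧ IsCompact K ∧ ⋂₀ {U : Set X | IsOpen U ∧ K ⊆ U} ⊆ K},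
        𝒟.Nonempty →
        DirectedOn (fun A B : {K : Set X // K.Nonempty ∧ IsCompact K ∧ ⋂₀ {U : Set X | IsOpen U ∧ K ⊆ U} ⊆ K} =>
          B.1 ⊆ A.1) 𝒟 →
        ∀ L : {K : Set X // K.Nonempty ∧ IsCompact K ∧ ⋂₀ {U : Set X | IsOpen U ∧ K ⊆ U} ⊆ K},
          (∀ K ∈ 𝒟, L.1 ⊆ K.1) →
          (∀ M : {K : Set X // K.Nonempty ∧ IsCompact K ∧ ⋂₀ {U : Set X | IsOpen U ∧ K ⊆ U} ⊆ K},
            (∀ K ∈ 𝒟, M.1 ⊆ K.1) → M.1 ⊆ L.1) →
          L ∈ 𝒮 → ∃ K ∈ 𝒟, K ∈ 𝒮))) := by
  intro H
  have ht2 := t2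
  let KK := {K : Set XX // K.Nonempty ∧ IsCompact K ∧ ⋂₀ {U : Set XX | IsOpen U ∧ K ⊆ U} ⊆ K}
  let S : Set KK := {K : KK | ∀ n, n < (missing K.1 n).card}
  have hwf : ∀ 𝒦 : Set (Set XX), 𝒦.Nonempty →
      (∀ K ∈ 𝒦, IsCompact K ∧ ⋂₀ {U : Set XX | IsOpen U ∧ K ⊆ U} ⊆ K) →
      DirectedOn (fun A B : Set XX => B ⊆ A) 𝒦 →
      ∀ U : Set XX, IsOpen U → ⋂₀ 𝒦 ⊆ U → ∃ K ∈ 𝒦, K ⊆ U := by
    intro 𝒦 hne hK hdir U hU hsub
    have : Nonempty 𝒦 := hne.to_subtype
    obtain ⟨⟨K, hK1⟩, hK2⟩ := exists_subset_nhds_of_isCompact' (X := XX) (ι := 𝒦)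
      (V := fun K => K.1) (by
        rintro ⟨A, hA⟩ ⟨B, hB⟩
        obtain ⟨C, hC, h1, h2⟩ := hdir A hA B hB
        exact ⟨⟨C, hC⟩, h1, h2⟩) (fun K => (hK K.1 K.2).1)
      (fun K => (hK K.1 K.2).1.isClosed) (U := U) (by
        intro x hx
        apply hU.mem_nhds
        apply hsub
        rw [Set.mem_sInter]
        intro K hK
        exact Set.mem_iInter.mp hx ⟨K, hK⟩)
    exact ⟨K, hK1, hK2⟩
  have h := (H XX inferInstance first_countable hwf S).mpr (by
    constructor
    · intro K hK L hLK n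
      exact lt_of_lt_of_le (hK n) (missing_mono hLK n)
    · intro 𝒟 hne hdir L hL1 hL2 hLS
      by_contra hcon
      push Not at hcon
      have hbad : ∀ K ∈ 𝒟, ∃ n, (missing K.1 n).card ≤ n := by
        intro K hK
        have := hcon K hK
        by_contra h'
        push Not at h'
        exact this h'
      obtain ⟨K0, hK0⟩ := hne
      have hfin := key K0.1 K0.2.2.1
      -- directedness over finite index sets
      have hdf : ∀ (P : ℕ → Prop) (N : Set ℕ), N.Finite → ∀ g : ℕ → KK,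
          (∀ n ∈ N, g n ∈ 𝒟) → ∃ K ∈ 𝒟, K.1 ⊆ K0.1 ∧ ∀ n ∈ N, K.1 ⊆ (g n).1 := by
        intro _ N hN g hg
        induction N, hN using Set.Finite.induction_on with
        | empty => exact ⟨K0, hK0, subset_rfl, fun n hn => absurd hn (Set.notMem_empty n)⟩
        | @insert a s _ _ ih =>
          obtain ⟨K1, hK1, h1, h2⟩ := ih fun n hn => hg n (Set.mem_insert_of_mem a hn)
          obtain ⟨K2, hK2, h3, h4⟩ := hdir K1 hK1 (g a) (hg a (Set.mem_insert a s))
          refine ⟨K2, hK2, h3.trans h1, ?_⟩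
          intro n hn
          rcases hn with hn | hn
          · subst hn
            exact h4
          · exact h3.trans (h2 n hn)
      obtain ⟨n, hn⟩ : ∃ n, ∀ K ∈ 𝒟, (missing K.1 n).card ≤ n := by
        by_contra hc
        push Not at hc
        choose g hg1 hg2 using hc
        obtain ⟨K, hK, h1, h2⟩ := hdf (fun _ => True) _ hfin g (fun n _ => hg1 n)
        obtain ⟨n, hnb⟩ := hbad K hK
        have h3 : (missing K0.1 n).card ≤ n := (missing_mono h1 n).trans hnb
        have h4 := missing_mono (h2 n h3) n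
        have h5 := hg2 n
        omega
      -- at level n, the greatest lower bound misses no more than some member
      have hsel : ∀ t ∈ missing L.1 n, ∃ K ∈ 𝒟, XX.nd n t ∉ K.1 := by
        intro t ht
        by_contra hc
        push Not at hc
        rw [mem_missing] at ht
        apply ht
        have hM := hL2 ⟨{XX.nd n t}, Set.singleton_nonempty _, isCompact_singleton, sat _⟩ (by
          intro K hK
          rw [Set.singleton_subset_iff]
          exact hc K hK)
        exact hM rfl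
      have hdf2 : ∀ T : Finset (Fin n → Bool), T ⊆ missing L.1 n →
          ∃ K ∈ 𝒟, ∀ t ∈ T, XX.nd n t ∉ K.1 := by
        classical
        intro T
        induction T using Finset.induction_on with
        | empty => intro _; exact ⟨K0, hK0, fun t ht => absurd ht (Finset.notMem_empty t)⟩
        | @insert a s _ ih =>
          intro hs
          obtain ⟨K1, hK1, h1⟩ := ih ((Finset.subset_insert a s).trans hs)
          obtain ⟨K2, hK2, h2⟩ := hsel a (hs (Finset.mem_insert_self a s))
          obtain ⟨K3, hK3, h3, h4⟩ := hdir K1 hK1 K2 hK2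
          refine ⟨K3, hK3, ?_⟩
          intro t ht
          rcases Finset.mem_insert.mp ht with ht | ht
          · subst ht
            exact fun h' => h2 (h4 h')
          · exact fun h' => h1 t ht (h3 h')
      obtain ⟨K, hK, hKt⟩ := hdf2 _ subset_rfl
      have h6 : missing L.1 n ⊆ missing K.1 n := by
        intro t ht
        rw [mem_missing]
        exact hKt t ht
      have h7 := Finset.card_le_card h6
      have h8 := hn K hK
      have h9 : n < (missing L.1 n).card := hLS n
      omega)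
  have hbase : ∀ 𝒱 : Set KK, TopologicalSpace.GenerateOpen
      {𝒱 : Set KK | ∃ U : Set XX, IsOpen U ∧ 𝒱 = {K : KK | K.1 ⊆ U}} 𝒱 →
      ∀ K ∈ 𝒱, ∃ U : Set XX, IsOpen U ∧ K.1 ⊆ U ∧ ∀ L : KK, L.1 ⊆ U → L ∈ 𝒱 := by
    intro 𝒱 h𝒱
    induction h𝒱 with
    | basic 𝒱 h𝒱 =>
      obtain ⟨U, hU, rfl⟩ := h𝒱
      intro K hK
      exact ⟨U, hU, hK, fun L hL => hL⟩
    | univ =>
      intro K _
      exact ⟨Set.univ, isOpen_univ, Set.subset_univ _, fun L _ => trivial⟩
    | inter s t _ _ ihs iht =>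
      intro K hK
      obtain ⟨U, hU, h1, h2⟩ := ihs K hK.1
      obtain ⟨V, hV, h3, h4⟩ := iht K hK.2
      exact ⟨U ∩ V, hU.inter hV, Set.subset_inter h1 h3, fun L hL =>
        ⟨h2 L (hL.trans Set.inter_subset_left), h4 L (hL.trans Set.inter_subset_right)⟩⟩
    | sUnion 𝒯 _ ih =>
      rintro K ⟨s, hs, hK⟩
      obtain ⟨U, hU, h1, h2⟩ := ih s hs K hK
      exact ⟨U, hU, h1, fun L hL => ⟨s, hs, h2 L hL⟩⟩
  let KB : KK := ⟨Set.range XX.br, ⟨XX.br fun _ => false, _, rfl⟩, brs_compact, sat _⟩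
  have hKB : KB ∈ S := by
    intro n
    have : missing KB.1 n = Finset.univ := by
      rw [Finset.eq_univ_iff_forall]
      intro t
      rw [mem_missing]
      rintro ⟨x, hx⟩
      cases hx
    rw [this, Finset.card_univ]
    simp only [Fintype.card_pi, Fintype.card_bool, Finset.prod_const, Finset.card_univ,
      Fintype.card_fin]
    exact Nat.lt_two_pow_self
  obtain ⟨U, hU, h1, h2⟩ := hbase S h KB hKB
  obtain ⟨n, hn⟩ := nbhd_level U hU h1
  classical
  let R : Set XX := (fun t => XX.nd n t) '' {t | t ∉ missing U n}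
  have hRfin : R.Finite := Set.Finite.image _ (Set.toFinite _)
  have hRU : R ⊆ U := by
    rintro _ ⟨t, ht, rfl⟩
    by_contra hcon
    exact ht ((mem_missing U n t).mpr hcon)
  have hmis : missing R n ⊆ missing U n := by
    intro t ht
    rw [mem_missing] at ht
    by_contra hcon
    exact ht ⟨t, hcon, rfl⟩
  have hRne : R.Nonempty := by
    by_contra hcon
    rw [Set.not_nonempty_iff_eq_empty] at hcon
    have h3 : ∀ t, t ∈ missing U n := by
      intro t
      by_contra ht
      have : XX.nd n t ∈ R := ⟨t, ht, rfl⟩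
      rw [hcon] at this
      exact this
    have h4 : missing U n = Finset.univ := Finset.eq_univ_iff_forall.mpr h3
    rw [h4, Finset.card_univ] at hn
    simp only [Fintype.card_pi, Fintype.card_bool, Finset.prod_const, Finset.card_univ,
      Fintype.card_fin] at hn
    exact absurd hn (not_le.mpr Nat.lt_two_pow_self)
  have h5 := h2 ⟨R, hRne, hRfin.isCompact, sat _⟩ hRU
  have h6 : n < (missing R n).card := h5 n
  have h7 := Finset.card_le_card hmis
  omega

end Pool.Agent.S09696
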