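import Pool.Statements.S09740

set_option autoImplicit false
open Topology Pointwise
open Pool Pool.MP_ede847_gt

namespace Pool.Agent.S09740

/-- the natural numbers inside the reals -/
def A : Set ℝ := Set.range ((↑) : ℕ → ℝ)

/-- equality up to finite sets -/
def E (B C : Set ℝ) : Prop := (B \ C).Finite ∧ (C \ B).Finite

theorem E_refl (B : Set ℝ) : E B B := by
  unfold E
  simp

theorem E_symm {B C : Set ℝ} (h : E B C) : E C B := ⟨h.2, h.1⟩

theorem diff_aux (B C D : Set ℝ) : B \ D ⊆ (B \ C) ∪ (C \ D) := by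
  intro x hx
  by_cases h : x ∈ C
  · exact Or.inr ⟨h, hx.2⟩
  · exact Or.inl ⟨hx.1, h⟩

theorem E_trans {B C D : Set ℝ} (h : E B C) (h' : E C D) : E B D :=
  ⟨(h.1.union h'.1).subset (diff_aux B C D), (h'.2.union h.2).subset (diff_aux D C B)⟩

theorem E_image (g : Equiv.Perm ℝ) (B C : Set ℝ) : E (g '' B) (g '' C) ↔ E B C := by
  unfold E
  rw [← Set.image_sdiff g.injective, ← Set.image_sdiff g.injective,
    Set.finite_image_iff g.injective.injOn, Set.finite_image_iff g.injective.injOn]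

/-- the group of permutations preserving the commensurability class of the naturals -/
def Gs : Subgroup (Equiv.Perm ℝ) where
  carrier := {g | ∀ B, E (g '' B) A ↔ E B A}
  mul_mem' := by
    intro a b ha hb B
    have : ((a * b : Equiv.Perm ℝ) : ℝ → ℝ) '' B = a '' (b '' B) := by
      rw [Equiv.Perm.coe_mul, Set.image_comp]
    rw [this, ha, hb]
  one_mem' := by
    intro B
    simp
  inv_mem' := by
    intro a ha B
    have h := ha ((a⁻¹ : Equiv.Perm ℝ) '' B)
    have : a '' ((a⁻¹ : Equiv.Perm ℝ) '' B) = B := by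
      rw [← Set.image_comp, ← Equiv.Perm.coe_mul]
      simp
    rw [this] at h
    exact h.symm

theorem mem_Gs (c : Equiv.Perm ℝ) (B : Set ℝ) (h : E B A) (h' : E (c '' B) A) : c ∈ Gs := by
  intro C
  constructor
  · intro hC
    have h1 : E (c '' C) (c '' B) := E_trans hC (E_symm h')
    rw [E_image] at h1
    exact E_trans h1 h
  · intro hC
    have h1 : E C B := E_trans hC (E_symm h)
    rw [← E_image c] at h1
    exact E_trans h1 h'

/-- the group as a type -/
def G : Type := ↥Gs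

instance : Group G := inferInstanceAs (Group ↥Gs)

/-- action on sets -/
def act (g : G) (B : Set ℝ) : Set ℝ := (g.1 : ℝ → ℝ) '' B

theorem act_mul (g h : G) (B : Set ℝ) : act (g * h) B = act g (act h B) := by
  show (((g.1 * h.1 : Equiv.Perm ℝ)) : ℝ → ℝ) '' B = g.1 '' (h.1 '' B)
  rw [Equiv.Perm.coe_mul, Set.image_comp]

theorem act_one (B : Set ℝ) : act 1 B = B := by
  show (((1 : Equiv.Perm ℝ)) : ℝ → ℝ) '' B = B
  simp

theorem act_E (g : G) (B : Set ℝ) : E (act g B) A ↔ E B A := g.2 B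

theorem act_mono (g : G) {B C : Set ℝ} (h : B ⊆ C) : act g B ⊆ act g C := Set.image_mono h

/-- subbasic open sets -/
def O (B C : Set ℝ) : Set G := {g | act g B ⊆ C}

instance : TopologicalSpace G :=
  TopologicalSpace.generateFrom {U | ∃ B C, E B A ∧ E C A ∧ U = O B C}

theorem O_open (B C : Set ℝ) (hB : E B A) (hC : E C A) : IsOpen (O B C) :=
  TopologicalSpace.isOpen_generateFrom_of_mem ⟨B, C, hB, hC, rfl⟩

instance : ContinuousMul G := by
  constructor
  apply continuous_generateFrom_iff.mpr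
  rintro U ⟨B, C, hB, hC, rfl⟩
  have : (fun p : G × G => p.1 * p.2) ⁻¹' (O B C) =
      ⋃ D : {D : Set ℝ // E D A}, (O D.1 C) ×ˢ (O B D.1) := by
    ext p
    rw [Set.mem_preimage, Set.mem_iUnion]
    constructor
    · intro h
      have h2 : act (p.1 * p.2) B ⊆ C := h
      rw [act_mul] at h2
      refine ⟨⟨act p.2 B, (act_E _ _).mpr hB⟩, h2, ?_⟩
      show act p.2 B ⊆ act p.2 B
      exact Set.Subset.rfl
    · rintro ⟨D, h1, h2⟩
      show act (p.1 * p.2) B ⊆ C
      rw [act_mul]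
      exact (act_mono p.1 h2).trans h1
  rw [this]
  apply isOpen_iUnion
  intro D
  exact (O_open _ _ D.2 hC).prod (O_open _ _ hB D.2)

theorem E_union {B C : Set ℝ} (h : E B A) (h' : E C A) : E (B ∪ C) A := by
  refine ⟨(h.1.union h'.1).subset ?_, h.2.subset ?_⟩
  · rintro x ⟨hx | hx, hxA⟩
    · exact Or.inl ⟨hx, hxA⟩
    · exact Or.inr ⟨hx, hxA⟩
  · rintro x ⟨hx, hxn⟩
    exact ⟨hx, fun h => hxn (Or.inl h)⟩

theorem E_inter {B C : Set ℝ} (h : E B A) (h' : E C A) : E (B ∩ C) A := by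
  refine ⟨h.1.subset ?_, (h.2.union h'.2).subset ?_⟩
  · rintro x ⟨hx, hxA⟩
    exact ⟨hx.1, hxA⟩
  · rintro x ⟨hx, hxn⟩
    by_cases h1 : x ∈ B
    · exact Or.inr ⟨hx, fun h2 => hxn ⟨h1, h2⟩⟩
    · exact Or.inl ⟨hx, h1⟩

theorem open_contains (U : Set G) (hU : IsOpen U) (hne : U.Nonempty) :
    ∃ B C, E B A ∧ E C A ∧ O B C ⊆ U := by
  have key : ∀ U : Set G, TopologicalSpace.GenerateOpen
      {U | ∃ B C, E B A ∧ E C A ∧ U = O B C} U → U.Nonempty →
      ∃ B C, E B A ∧ E C A ∧ O B C ⊆ U := by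
    intro U h
    induction h with
    | basic s hs =>
      intro _
      obtain ⟨B, C, hB, hC, rfl⟩ := hs
      exact ⟨B, C, hB, hC, subset_rfl⟩
    | univ =>
      intro _
      exact ⟨A, A, E_refl A, E_refl A, Set.subset_univ _⟩
    | inter s t _ _ ihs iht =>
      rintro ⟨g, hgs, hgt⟩
      obtain ⟨B, C, hB, hC, h1⟩ := ihs ⟨g, hgs⟩
      obtain ⟨B', C', hB', hC', h2⟩ := iht ⟨g, hgt⟩
      refine ⟨B ∪ B', C ∩ C', E_union hB hB', E_inter hC hC', ?_⟩
      intro u hu
      have hu' : act u (B ∪ B') ⊆ C ∩ C' := hu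
      constructor
      · exact h1 (show act u B ⊆ C from
          ((act_mono u Set.subset_union_left).trans hu').trans Set.inter_subset_left)
      · exact h2 (show act u B' ⊆ C' from
          ((act_mono u Set.subset_union_right).trans hu').trans Set.inter_subset_right)
    | sUnion S _ ih =>
      rintro ⟨g, s, hs, hg⟩
      obtain ⟨B, C, hB, hC, h1⟩ := ih s hs ⟨g, hg⟩
      exact ⟨B, C, hB, hC, h1.trans (Set.subset_sUnion_of_mem hs)⟩
  exact key U hU hne

/-- tails -/
def T (k : ℕ) : Set ℝ := (↑) '' {n : ℕ | k ≤ n}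

theorem T_E (k : ℕ) : E (T k) A := by
  constructor
  · have : T k \ A = ∅ := by
      rw [Set.sdiff_eq_empty]
      rintro _ ⟨n, _, rfl⟩
      exact ⟨n, rfl⟩
    rw [this]
    exact Set.finite_empty
  · apply ((Set.finite_lt_nat k).image ((↑) : ℕ → ℝ)).subset
    rintro x ⟨⟨n, rfl⟩, hn⟩
    refine ⟨n, ?_, rfl⟩
    by_contra h
    exact hn ⟨n, (not_lt.mp h : k ≤ n), rfl⟩

theorem T_sub (C : Set ℝ) (hC : E C A) : ∃ k, T k ⊆ C := by
  have h1 : {n : ℕ | (n : ℝ) ∉ C}.Finite := by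
    apply Set.Finite.of_finite_image (f := ((↑) : ℕ → ℝ))
    · apply hC.2.subset
      rintro _ ⟨n, hn, rfl⟩
      exact ⟨⟨n, rfl⟩, hn⟩
    · exact fun a _ b _ h => Nat.cast_injective h
  obtain ⟨k, hk⟩ := h1.bddAbove
  refine ⟨k + 1, ?_⟩
  rintro _ ⟨n, hn, rfl⟩
  by_contra h
  have h2 := hk h
  have h3 : k + 1 ≤ n := hn
  omega

theorem E_countable (B : Set ℝ) (hB : E B A) : B.Countable := by
  have : B ⊆ (B \ A) ∪ A := by
    intro x hx
    by_cases h : x ∈ A
    · exact Or.inr h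
    · exact Or.inl ⟨hx, h⟩
  exact (hB.1.countable.union (Set.countable_range _)).mono this

theorem A_infinite : A.Infinite := Set.infinite_range_of_injective Nat.cast_injective

theorem E_infinite (B : Set ℝ) (hB : E B A) : B.Infinite := by
  intro hf
  apply A_infinite
  apply (hf.union hB.2).subset
  intro x hx
  by_cases h : x ∈ B
  · exact Or.inl h
  · exact Or.inr ⟨hx, h⟩

theorem exists_move (B C : Set ℝ) (hB : E B A) (hC : E C A) : ∃ g : G, act g B = C := by
  have eqv : ∀ B : Set ℝ, E B A → Nonempty (B ≃ ℕ) ∧ Nonempty ((Bᶜ : Set ℝ) ≃ ℝ) := by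
    intro B hB
    constructor
    · have h1 : Countable B := (E_countable B hB).to_subtype
      have h2 : Infinite B := (E_infinite B hB).to_subtype
      exact nonempty_equiv_of_countable
    · have h1 : Cardinal.mk B < Cardinal.mk ℝ := by
        have h2 : Cardinal.mk B ≤ Cardinal.aleph0 :=
          Cardinal.le_aleph0_iff_set_countable.mpr (E_countable B hB)
        exact lt_of_le_of_lt h2 (by rw [Cardinal.mk_real]; exact Cardinal.aleph0_lt_continuum)
      exact Cardinal.eq.mp (Cardinal.mk_compl_of_infinite B h1)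
  obtain ⟨⟨e1⟩, ⟨e2⟩⟩ := eqv B hB
  obtain ⟨⟨f1⟩, ⟨f2⟩⟩ := eqv C hC
  classical
  let p : Equiv.Perm ℝ := (Equiv.Set.sumCompl B).symm.trans
    ((Equiv.sumCongr (e1.trans f1.symm) (e2.trans f2.symm)).trans (Equiv.Set.sumCompl C))
  have hp : ∀ x (hx : x ∈ B), p x = (e1.trans f1.symm) ⟨x, hx⟩ := by
    intro x hx
    show (Equiv.Set.sumCompl C) ((Equiv.sumCongr (e1.trans f1.symm) (e2.trans f2.symm))
      ((Equiv.Set.sumCompl B).symm x)) = _
    rw [Equiv.Set.sumCompl_symm_apply_of_mem hx]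
    simp
  have himg : p '' B = C := by
    ext y
    constructor
    · rintro ⟨x, hx, rfl⟩
      rw [hp x hx]
      exact ((e1.trans f1.symm) ⟨x, hx⟩).2
    · intro hy
      refine ⟨((e1.trans f1.symm).symm ⟨y, hy⟩).1, ((e1.trans f1.symm).symm ⟨y, hy⟩).2, ?_⟩
      rw [hp _ ((e1.trans f1.symm).symm ⟨y, hy⟩).2]
      simp
  refine ⟨⟨p, mem_Gs p B hB (by rw [himg]; exact hC)⟩, himg⟩

/-- The negation of the preceding statement: In every group with a topology making multiplication continuous, if each neighbourhood U of the identity admits a countable F with U·F = G, then each such U also admits a countable F with F·U = G. -/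
theorem result :
    ¬ (∀ (G : Type) [Group G] [TopologicalSpace G] [ContinuousMul G],
      (∀ U ∈ 𝓝 (1 : G), ∃ F : Set G, F.Countable ∧ U * F = Set.univ) →
      (∀ U ∈ 𝓝 (1 : G), ∃ F : Set G, F.Countable ∧ F * U = Set.univ)) := by
  intro H
  have hR : ∀ U ∈ 𝓝 (1 : G), ∃ F : Set G, F.Countable ∧ U * F = Set.univ := by
    intro U hU
    obtain ⟨V, hVU, hVo, hV1⟩ := mem_nhds_iff.mp hU
    obtain ⟨B, C, hB, hC, hBC⟩ := open_contains V hVo ⟨1, hV1⟩
    choose c hc using fun k : ℕ => exists_move B (T k) hB (T_E k)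
    refine ⟨Set.range fun k => (c k)⁻¹, Set.countable_range _, ?_⟩
    rw [Set.eq_univ_iff_forall]
    intro g
    obtain ⟨k, hk⟩ := T_sub (act g⁻¹ C) ((act_E _ _).mpr hC)
    refine Set.mem_mul.mpr ⟨g * c k, ?_, (c k)⁻¹, ⟨k, rfl⟩, by group⟩
    apply hVU
    apply hBC
    show act (g * c k) B ⊆ C
    rw [act_mul, hc k]
    have h1 := act_mono g hk
    rwa [← act_mul, mul_inv_cancel, act_one] at h1
  have hV : O A A ∈ 𝓝 (1 : G) := by
    apply (O_open A A (E_refl A) (E_refl A)).mem_nhds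
    show act 1 A ⊆ A
    rw [act_one]
  obtain ⟨F, hF, hFV⟩ := H G hR (O A A) hV
  have hcount : (⋃ c ∈ F, act c A).Countable :=
    hF.biUnion fun c _ => (E_countable A (E_refl A)).image _
  obtain ⟨ξ, hξ⟩ : ∃ ξ : ℝ, ξ ∉ ⋃ c ∈ F, act c A := by
    by_contra hcon
    push Not at hcon
    exact Cardinal.not_countable_real (hcount.mono fun x _ => hcon x)
  have hsw : Equiv.swap (0 : ℝ) ξ ∈ Gs := by
    apply mem_Gs _ A (E_refl A)
    constructor
    · apply (Set.toFinite ({0, ξ} : Set ℝ)).subset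
      rintro x ⟨⟨a, ha, rfl⟩, hx⟩
      by_cases h0 : a = 0
      · subst h0
        simp
      · by_cases h1 : a = ξ
        · subst h1
          simp
        · rw [Equiv.swap_apply_of_ne_of_ne h0 h1] at hx
          exact absurd ha hx
    · apply (Set.toFinite ({0, ξ} : Set ℝ)).subset
      rintro x ⟨hx, hxn⟩
      by_contra hcon
      have h0 : x ≠ 0 := fun h => hcon (Or.inl h)
      have h1 : x ≠ ξ := fun h => hcon (Or.inr h)
      exact hxn ⟨x, hx, Equiv.swap_apply_of_ne_of_ne h0 h1⟩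
  let g : G := ⟨Equiv.swap 0 ξ, hsw⟩
  have hg : g ∈ F * O A A := by
    rw [hFV]
    exact Set.mem_univ g
  obtain ⟨c, hc, v, hv, hcv⟩ := Set.mem_mul.mp hg
  have h1 : ξ ∈ act g A := ⟨0, ⟨0, by simp⟩, Equiv.swap_apply_left 0 ξ⟩
  rw [← hcv, act_mul] at h1
  exact hξ (Set.mem_biUnion hc (act_mono c hv h1))

end Pool.Agent.S09740
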