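import Pool.Statements.S09777

set_option autoImplicit false
open Pool Pool.MP_f5ae99_gt

namespace Pool.Agent.S09777

open Set Topology BoundedContinuousFunction

theorem interp {X : Type} [TopologicalSpace X] [T35Space X] (E : Finset X) (t : X → ℝ) :
    ∃ f : X → ℝ, Continuous f ∧ ∀ x ∈ E, f x = t x := by
  classical
  have h : ∀ x : X, ∃ g : X → ℝ, Continuous g ∧ g x = 1 ∧ ∀ y ∈ E, y ≠ x → g y = 0 := by
    intro x
    obtain ⟨f, hf, h0, h1⟩ := CompletelyRegularSpace.completely_regular x ((E.erase x : Finset X) : Set X)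
      (Finset.finite_toSet _).isClosed (by simp)
    refine ⟨fun y => 1 - (f y : ℝ), continuous_const.sub (continuous_subtype_val.comp hf), ?_, ?_⟩
    · simp [h0]
    · intro y hy hyx
      have := h1 (Finset.mem_coe.2 (Finset.mem_erase.2 ⟨hyx, hy⟩))
      simp [this]
  choose g hg h1 h0 using h
  refine ⟨fun y => ∑ x ∈ E, t x * g x y, continuous_finsetSum _ (fun x _ => continuous_const.mul (hg x)), ?_⟩
  intro y hy
  show ∑ x ∈ E, t x * g x y = t y
  rw [Finset.sum_eq_single_of_mem y hy]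
  · rw [h1, mul_one]
  · intro x hx hxy
    rw [h0 x y hy (Ne.symm hxy), mul_zero]

theorem clampl (r s t : ℝ) (ht : |t| ≤ r) : |max (-r) (min r s) - t| ≤ |s - t| := by
  obtain ⟨h1, h2⟩ := abs_le.1 ht
  rcases le_total r s with h | h
  · rw [min_eq_left h, max_eq_right (by linarith), abs_of_nonneg (by linarith), abs_of_nonneg (by linarith)]
    linarith
  · rw [min_eq_right h]
    rcases le_total (-r) s with h' | h'
    · rw [max_eq_right h']
    · rw [max_eq_left h', abs_of_nonpos (by linarith), abs_of_nonpos (by linarith)]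
      linarith

theorem clampb (r s : ℝ) (hr : 0 ≤ r) : |max (-r) (min r s)| ≤ r := by
  rw [abs_le]
  constructor
  · exact le_max_left _ _
  · exact max_le (by linarith) (min_le_left _ _)

theorem clamp_small (s c : ℝ) (hc : c ≤ 1) (h : |max (-1) (min 1 s)| < c) : |s| < c := by
  rw [abs_lt] at h ⊢
  obtain ⟨h1, h2⟩ := h
  rcases le_total 1 s with h | h
  · rw [min_eq_left h, max_eq_right (by norm_num)] at h2
    linarith
  · rw [min_eq_right h] at h1 h2
    rcases le_total (-1) s with h' | h'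
    · rw [max_eq_right h'] at h1 h2
      exact ⟨h1, h2⟩
    · rw [max_eq_left h'] at h1
      linarith

abbrev KK := ℕ → Set.Icc (-2 : ℝ) 2

noncomputable def sq (t : ℝ) : Set.Icc (-2 : ℝ) 2 :=
  ⟨Real.arctan t, by
    have h1 := Real.neg_pi_div_two_lt_arctan t
    have h2 := Real.arctan_lt_pi_div_two t
    have h3 := Real.pi_le_four
    constructor <;> linarith⟩

theorem sq_cont : Continuous sq := Real.continuous_arctan.subtype_mk _

theorem sq_inj : Function.Injective sq := by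
  intro a b h
  have h' : ((sq a : Set.Icc (-2 : ℝ) 2) : ℝ) = ((sq b : Set.Icc (-2 : ℝ) 2) : ℝ) := by rw [h]
  exact Real.arctan_injective h'

variable {X : Type} [TopologicalSpace X]

/-- bounded functions factoring through `φ` -/
def SS (φ : X → KK) : Set (X →ᵇ ℝ) := {g | ∀ x x', φ x = φ x' → g x = g x'}

theorem SS_closed (φ : X → KK) : IsClosed (SS φ) := by
  have : SS φ = ⋂ x : X, ⋂ x' : X, ⋂ _ : φ x = φ x', {g : X →ᵇ ℝ | g x = g x'} := by
    ext g
    simp only [SS, Set.mem_iInter, Set.mem_ofPred_eq]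
  rw [this]
  exact isClosed_iInter fun x => isClosed_iInter fun x' => isClosed_iInter fun _ =>
    isClosed_eq (continuous_eval_const x) (continuous_eval_const x')

theorem mkS (φ : X → KK) (g0 : SS φ) (u : X → ℝ) (hu : Continuous u)
    (hinv : ∀ x x', φ x = φ x' → u x = u x') (c : ℝ) (hc : 0 ≤ c) (hb : ∀ x, |u x| ≤ c) :
    ∃ g : SS φ, (∀ x, g.1 x = g0.1 x + u x) ∧ dist g g0 ≤ c := by
  let w : X →ᵇ ℝ := BoundedContinuousFunction.ofNormedAddCommGroup u hu c (fun x => by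
    rw [Real.norm_eq_abs]; exact hb x)
  have hw : ∀ x, w x = u x := fun x => rfl
  refine ⟨⟨g0.1 + w, ?_⟩, fun x => rfl, ?_⟩
  · intro x x' h
    show g0.1 x + w x = g0.1 x' + w x'
    rw [g0.2 x x' h, hw, hw, hinv x x' h]
  · rw [Subtype.dist_eq, BoundedContinuousFunction.dist_le hc]
    intro x
    show dist (g0.1 x + w x) (g0.1 x) ≤ c
    rw [Real.dist_eq, add_sub_cancel_left, hw]
    exact hb x

theorem abs_le_dist (φ : X → KK) (g h : SS φ) (x : X) : |g.1 x - h.1 x| ≤ dist g h := by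
  rw [← Real.dist_eq, Subtype.dist_eq]
  exact BoundedContinuousFunction.dist_coe_le_dist x

/-- For every Tychonoff X, if C_p(X) is a countable union of ω-monolithic subspaces (every countable subset has closure of countable network weight), then C_p(X) itself is ω-monolithic. -/
theorem result :
  ∀ (X : Type) [TopologicalSpace X] [T35Space X] (Y : ℕ → Set (X → ℝ)),
    (⋃ n, Y n) = {f : X → ℝ | Continuous f} →
    (∀ n, ∀ A : Set (X → ℝ), A ⊆ Y n → A.Countable →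
      ∃ 𝒩 : Set (Set (X → ℝ)), 𝒩.Countable ∧
        ∀ x ∈ closure A ∩ Y n, ∀ U : Set (X → ℝ), IsOpen U → x ∈ U →
          ∃ N ∈ 𝒩, x ∈ N ∧ N ⊆ U) →
    ∀ A : Set (X → ℝ), A ⊆ {f : X → ℝ | Continuous f} → A.Countable →
      ∃ 𝒩 : Set (Set (X → ℝ)), 𝒩.Countable ∧
        ∀ x ∈ closure A ∩ {f : X → ℝ | Continuous f}, ∀ U : Set (X → ℝ), IsOpen U → x ∈ U →
          ∃ N ∈ 𝒩, x ∈ N ∧ N ⊆ U := by
  intro X _ _ Y hY hmono A hA hAc
  classical
  rcases A.eq_empty_or_nonempty with rfl | hne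
  · refine ⟨∅, Set.countable_empty, ?_⟩
    intro x hx
    rw [closure_empty] at hx
    exact absurd hx.1 (Set.notMem_empty x)
  obtain ⟨a, rfl⟩ := hAc.exists_eq_range hne
  have hac : ∀ i, Continuous (a i) := fun i => hA ⟨i, rfl⟩
  let φ : X → KK := fun x i => sq (a i x)
  have hφ : Continuous φ := continuous_pi (fun i => sq_cont.comp (hac i))
  have hcomp : CompleteSpace (SS φ) := (SS_closed φ).completeSpace_coe
  have hnes : Nonempty (SS φ) := ⟨⟨0, fun x x' _ => rfl⟩⟩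
  have hU : (⋃ n, closure {g : SS φ | (⇑g.1 : X → ℝ) ∈ Y n}) = Set.univ := by
    ext g
    refine ⟨fun _ => trivial, fun _ => ?_⟩
    have : (⇑g.1 : X → ℝ) ∈ ⋃ n, Y n := by
      rw [hY]
      exact g.1.continuous
    obtain ⟨n, hn⟩ := Set.mem_iUnion.1 this
    exact Set.mem_iUnion.2 ⟨n, subset_closure hn⟩
  obtain ⟨n, g0, hg0⟩ := nonempty_interior_of_iUnion_of_closed (fun n => isClosed_closure) hU
  obtain ⟨ε, hε, hball⟩ := Metric.isOpen_iff.1 isOpen_interior g0 hg0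
  have key : ∀ g : SS φ, dist g g0 < ε → ∀ δ : ℝ, 0 < δ →
      ∃ y : SS φ, (⇑y.1 : X → ℝ) ∈ Y n ∧ dist y g < δ := by
    intro g hg δ hδ
    have h1 : g ∈ closure {g : SS φ | (⇑g.1 : X → ℝ) ∈ Y n} := interior_subset (hball hg)
    obtain ⟨y, hy, hyd⟩ := Metric.mem_closure_iff.1 h1 δ hδ
    rw [dist_comm] at hyd
    exact ⟨y, hy, hyd⟩
  obtain ⟨r, hr, hrε⟩ : ∃ r : ℝ, 0 < r ∧ r < ε := ⟨ε / 2, by linarith, by linarith⟩
  -- countable dense family
  let p : ℕ → C(KK, ℝ) := TopologicalSpace.denseSeq C(KK, ℝ)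
  have hq : ∀ k : ℕ, ∃ g : SS φ, (∀ x, g.1 x = g0.1 x + max (-r) (min r (p k (φ x)))) ∧ dist g g0 ≤ r := by
    intro k
    apply mkS φ g0 (fun x => max (-r) (min r (p k (φ x)))) _ _ r hr.le _
    · exact continuous_const.max (continuous_const.min ((p k).continuous.comp hφ))
    · intro x x' h
      show max (-r) (min r (p k (φ x))) = max (-r) (min r (p k (φ x')))
      rw [h]
    · intro x
      exact clampb _ _ hr.le
  choose q hq1 hq2 using hq
  have hy : ∀ km : ℕ × ℕ, ∃ y : SS φ, (⇑y.1 : X → ℝ) ∈ Y n ∧ dist y (q km.1) < 1 / ((km.2 : ℝ) + 1) :=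
    fun km => key (q km.1) (lt_of_le_of_lt (hq2 _) hrε) _ (by positivity)
  choose y hy1 hy2 using hy
  obtain ⟨N0, hN0c, hN0⟩ := hmono n (Set.range (fun km => (⇑(y km).1 : X → ℝ))) (by
    rintro _ ⟨km, rfl⟩
    exact hy1 km) (Set.countable_range _)
  have hcl : ∀ g : SS φ, dist g g0 ≤ r → (⇑g.1 : X → ℝ) ∈ closure (Set.range (fun km => (⇑(y km).1 : X → ℝ))) := by
    intro g hg
    rw [mem_closure_iff]
    intro o ho hgo
    obtain ⟨F, u, hu, hsub⟩ := isOpen_pi_iff.1 ho _ hgo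
    have h2 : ∀ x : X, ∃ δ : ℝ, 0 < δ ∧ (x ∈ F → ∀ s : ℝ, |s - g.1 x| < δ → s ∈ u x) := by
      intro x
      by_cases hx : x ∈ F
      · obtain ⟨δ, hδ, hb⟩ := Metric.isOpen_iff.1 (hu x hx).1 _ (hu x hx).2
        refine ⟨δ, hδ, fun _ s hs => hb ?_⟩
        rw [Metric.mem_ball, Real.dist_eq]
        exact hs
      · exact ⟨1, one_pos, fun h => absurd h hx⟩
    choose δ' hδ' hδu using h2
    obtain ⟨δ, hδ, hle⟩ : ∃ δ : ℝ, 0 < δ ∧ ∀ x ∈ F, δ ≤ δ' x := by
      by_cases hF : F.Nonempty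
      · refine ⟨F.inf' hF δ', ?_, fun x hx => Finset.inf'_le _ hx⟩
        rw [Finset.lt_inf'_iff]
        exact fun x _ => hδ' x
      · refine ⟨1, one_pos, fun x hx => ?_⟩
        exact absurd ⟨x, hx⟩ hF
    let v : KK → ℝ := fun z => if h : ∃ x, φ x = z then g.1 (Classical.choose h) - g0.1 (Classical.choose h) else 0
    have hv : ∀ x, v (φ x) = g.1 x - g0.1 x := by
      intro x
      have h : ∃ x', φ x' = φ x := ⟨x, rfl⟩
      have h1 : v (φ x) = g.1 (Classical.choose h) - g0.1 (Classical.choose h) := dif_pos h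
      rw [h1, g.2 _ _ (Classical.choose_spec h), g0.2 _ _ (Classical.choose_spec h)]
    obtain ⟨f, hf, hfv⟩ := interp (F.image φ) v
    have hopen : IsOpen {P : C(KK, ℝ) | ∀ x ∈ F, |P (φ x) - (g.1 x - g0.1 x)| < δ / 2} := by
      have : {P : C(KK, ℝ) | ∀ x ∈ F, |P (φ x) - (g.1 x - g0.1 x)| < δ / 2} =
          ⋂ x ∈ F, {P : C(KK, ℝ) | |P (φ x) - (g.1 x - g0.1 x)| < δ / 2} := by
        ext P
        simp only [Set.mem_iInter, Set.mem_ofPred_eq]
      rw [this]
      exact isOpen_biInter_finset (fun x _ => isOpen_lt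
        (((continuous_eval_const (φ x)).sub continuous_const).abs) continuous_const)
    obtain ⟨k, hk⟩ := (TopologicalSpace.denseRange_denseSeq C(KK, ℝ)).exists_mem_open hopen (by
      refine ⟨⟨f, hf⟩, fun x hx => ?_⟩
      show |f (φ x) - (g.1 x - g0.1 x)| < δ / 2
      rw [hfv _ (Finset.mem_image_of_mem φ hx), hv, sub_self, abs_zero]
      linarith)
    obtain ⟨m, hm⟩ := exists_nat_one_div_lt (show (0 : ℝ) < δ / 2 by linarith)
    refine ⟨(⇑(y (k, m)).1 : X → ℝ), hsub ?_, ⟨(k, m), rfl⟩⟩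
    intro x hx
    apply hδu x hx
    refine lt_of_lt_of_le ?_ (hle x hx)
    have e1 : |(y (k, m)).1 x - (q k).1 x| < δ / 2 :=
      lt_of_le_of_lt (abs_le_dist φ _ _ x) ((hy2 (k, m)).trans hm)
    have e2 : |(q k).1 x - g.1 x| < δ / 2 := by
      rw [hq1]
      have e3 := clampl r (p k (φ x)) (g.1 x - g0.1 x) ((abs_le_dist φ g g0 x).trans hg)
      have e4 : g0.1 x + max (-r) (min r (p k (φ x))) - g.1 x =
        max (-r) (min r (p k (φ x))) - (g.1 x - g0.1 x) := by ring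
      rw [e4]
      exact lt_of_le_of_lt e3 (hk x hx)
    have e5 := abs_sub_le ((y (k, m)).1 x) ((q k).1 x) (g.1 x)
    linarith
  -- uniform density inside the ball of radius r
  have hud : ∀ g : SS φ, dist g g0 < r → ∀ δ : ℝ, 0 < δ →
      ∃ y : SS φ, (⇑y.1 : X → ℝ) ∈ Y n ∧ dist y g < δ ∧ dist y g0 ≤ r := by
    intro g hg δ hδ
    obtain ⟨z, hz1, hz2⟩ := key g (hg.trans hrε) (min δ (r - dist g g0)) (lt_min hδ (by linarith))
    refine ⟨z, hz1, lt_of_lt_of_le hz2 (min_le_left _ _), ?_⟩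
    have h1 := lt_of_lt_of_le hz2 (min_le_right _ _)
    have h2 := dist_triangle z g g0
    linarith
  let W : Set (X → ℝ) → ℚ → ℚ → Set X := fun N s t => {x' | ∀ h ∈ N, (s : ℝ) < h x' ∧ h x' < t}
  have hW : ∀ z : SS φ, (⇑z.1 : X → ℝ) ∈ Y n → dist z g0 ≤ r → ∀ x : X, ∀ δ : ℝ, 0 < δ →
      ∃ N ∈ N0, ∃ s t : ℚ, x ∈ W N s t ∧ ∀ x' ∈ W N s t, |z.1 x' - z.1 x| < δ := by
    intro z hz1 hz2 x δ hδ
    obtain ⟨s, hs1, hs2⟩ := exists_rat_btwn (show z.1 x - δ < z.1 x by linarith)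
    obtain ⟨t, ht1, ht2⟩ := exists_rat_btwn (show z.1 x < z.1 x + δ by linarith)
    have hUo : IsOpen {h : X → ℝ | (s : ℝ) < h x ∧ h x < t} :=
      (isOpen_lt continuous_const (continuous_apply x)).inter (isOpen_lt (continuous_apply x) continuous_const)
    obtain ⟨N, hN1, hN2, hN3⟩ := hN0 (⇑z.1) ⟨hcl z hz2, hz1⟩ _ hUo ⟨hs2, ht1⟩
    refine ⟨N, hN1, s, t, fun h hh => hN3 hh, fun x' hx' => ?_⟩
    obtain ⟨h1, h2⟩ := hx' _ hN2
    rw [abs_lt]
    constructor <;> linarith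
  -- control of all functions factoring through φ
  have hctl : ∀ f : X → ℝ, Continuous f → (∀ x x', φ x = φ x' → f x = f x') → ∀ x : X, ∀ η : ℝ, 0 < η →
      ∃ N ∈ N0, ∃ s t : ℚ, ∃ N' ∈ N0, ∃ s' t' : ℚ, x ∈ W N s t ∧ x ∈ W N' s' t' ∧
        ∀ x' ∈ W N s t, x' ∈ W N' s' t' → |f x' - f x| < η := by
    intro f hf hfi x η hη
    obtain ⟨g, hg1, hg2⟩ := mkS φ g0 (fun x' => r / 2 * max (-1) (min 1 (f x' - f x)))
      (continuous_const.mul (continuous_const.max (continuous_const.min (hf.sub continuous_const))))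
      (by
        intro x1 x2 h
        show r / 2 * max (-1) (min 1 (f x1 - f x)) = r / 2 * max (-1) (min 1 (f x2 - f x))
        rw [hfi x1 x2 h]) (r / 2) (by linarith) (by
        intro x'
        show |r / 2 * max (-1) (min 1 (f x' - f x))| ≤ r / 2
        rw [abs_mul, abs_of_pos (show (0 : ℝ) < r / 2 by linarith)]
        have := clampb 1 (f x' - f x) zero_le_one
        nlinarith)
    have hc0 : 0 < min η 1 := lt_min hη one_pos
    have hδ : 0 < r * min η 1 / 12 := by positivity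
    obtain ⟨z, hz1, hz2, hz3⟩ := hud g (by linarith) _ hδ
    obtain ⟨z', hz1', hz2', hz3'⟩ := hud g0 (by rw [dist_self]; exact hr) _ hδ
    obtain ⟨N, hN, s, t, hx, hxx⟩ := hW z hz1 hz3 x _ hδ
    obtain ⟨N', hN', s', t', hx', hxx'⟩ := hW z' hz1' hz3' x _ hδ
    refine ⟨N, hN, s, t, N', hN', s', t', hx, hx', ?_⟩
    intro x' h1 h2
    have b1 := abs_lt.1 (hxx x' h1)
    have b2 := abs_lt.1 (hxx' x' h2)
    have c1 := abs_lt.1 (lt_of_le_of_lt (abs_le_dist φ z g x) hz2)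
    have c2 := abs_lt.1 (lt_of_le_of_lt (abs_le_dist φ z g x') hz2)
    have c3 := abs_lt.1 (lt_of_le_of_lt (abs_le_dist φ z' g0 x) hz2')
    have c4 := abs_lt.1 (lt_of_le_of_lt (abs_le_dist φ z' g0 x') hz2')
    have d1 := hg1 x
    have d2 := hg1 x'
    have d0 : max (-1) (min 1 (f x - f x)) = 0 := by
      rw [sub_self, min_eq_right zero_le_one, max_eq_right (by norm_num)]
    rw [d0, mul_zero, add_zero] at d1
    have habs : |r / 2 * max (-1) (min 1 (f x' - f x))| < 6 * (r * min η 1 / 12) := by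
      rw [abs_lt]
      constructor <;> linarith
    rw [abs_mul, abs_of_pos (show (0 : ℝ) < r / 2 by linarith)] at habs
    have h3 : |max (-1) (min 1 (f x' - f x))| < min η 1 := by
      have h4 : r / 2 * |max (-1) (min 1 (f x' - f x))| < r / 2 * min η 1 := by linarith
      exact lt_of_mul_lt_mul_left h4 (by linarith)
    exact lt_of_lt_of_le (clamp_small _ _ (min_le_right _ _) h3) (min_le_left _ _)
  have hcount : Countable N0 := hN0c.to_subtype
  let Net : Finset ((N0 × ℚ × ℚ) × (N0 × ℚ × ℚ) × (ℚ × ℚ)) → Set (X → ℝ) := fun T =>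
    {h | ∀ i ∈ T, ∀ x', x' ∈ W i.1.1.1 i.1.2.1 i.1.2.2 → x' ∈ W i.2.1.1.1 i.2.1.2.1 i.2.1.2.2 →
      (i.2.2.1 : ℝ) < h x' ∧ h x' < i.2.2.2}
  refine ⟨Set.range Net, Set.countable_range _, ?_⟩
  intro f hf U hUo hfU
  have hfi : ∀ x x', φ x = φ x' → f x = f x' := by
    intro x x' h
    have hclo : IsClosed {h : X → ℝ | h x = h x'} := isClosed_eq (continuous_apply x) (continuous_apply x')
    have hsub : closure (Set.range a) ⊆ {h : X → ℝ | h x = h x'} := by
      apply closure_minimal _ hclo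
      rintro _ ⟨i, rfl⟩
      exact sq_inj (congrFun h i)
    exact hsub hf.1
  have hfc : Continuous f := hf.2
  obtain ⟨F, u, hu, hsub⟩ := isOpen_pi_iff.1 hUo _ hfU
  have hsel : ∀ x : X, ∃ i : (N0 × ℚ × ℚ) × (N0 × ℚ × ℚ) × (ℚ × ℚ), x ∈ F →
      (x ∈ W i.1.1.1 i.1.2.1 i.1.2.2 ∧ x ∈ W i.2.1.1.1 i.2.1.2.1 i.2.1.2.2 ∧
      (∀ x', x' ∈ W i.1.1.1 i.1.2.1 i.1.2.2 → x' ∈ W i.2.1.1.1 i.2.1.2.1 i.2.1.2.2 →
        (i.2.2.1 : ℝ) < f x' ∧ f x' < i.2.2.2) ∧ ∀ c : ℝ, (i.2.2.1 : ℝ) < c → c < i.2.2.2 → c ∈ u x) := by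
    intro x
    by_cases hx : x ∈ F
    · obtain ⟨δ, hδ, hb⟩ := Metric.isOpen_iff.1 (hu x hx).1 _ (hu x hx).2
      obtain ⟨s0, hs1, hs2⟩ := exists_rat_btwn (show f x - δ < f x by linarith)
      obtain ⟨t0, ht1, ht2⟩ := exists_rat_btwn (show f x < f x + δ by linarith)
      obtain ⟨N, hN, s, t, N', hN', s', t', h1, h2, h3⟩ := hctl f hfc hfi x
        (min (f x - s0) (t0 - f x)) (lt_min (by linarith) (by linarith))
      refine ⟨((⟨N, hN⟩, s, t), (⟨N', hN'⟩, s', t'), (s0, t0)), fun _ => ⟨h1, h2, ?_, ?_⟩⟩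
      · intro x' hx1 hx2
        have h4 := h3 x' hx1 hx2
        have h5 := abs_lt.1 (lt_of_lt_of_le h4 (min_le_left _ _))
        have h6 := abs_lt.1 (lt_of_lt_of_le h4 (min_le_right _ _))
        constructor
        · show (s0 : ℝ) < f x'
          linarith
        · show f x' < (t0 : ℝ)
          linarith
      · intro c hc1 hc2
        have hc1' : (s0 : ℝ) < c := hc1
        have hc2' : c < (t0 : ℝ) := hc2
        apply hb
        rw [Metric.mem_ball, Real.dist_eq, abs_lt]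
        constructor <;> linarith
    · have hN0ne : Nonempty N0 := by
        obtain ⟨N, hN, _⟩ := hctl f hfc hfi x 1 one_pos
        exact ⟨⟨N, hN⟩⟩
      exact ⟨((hN0ne.some, 0, 0), (hN0ne.some, 0, 0), (0, 0)), fun h => absurd h hx⟩
  choose i hi using hsel
  refine ⟨Net (F.image i), ⟨F.image i, rfl⟩, ?_, ?_⟩
  · intro j hj x' hx1 hx2
    obtain ⟨x, hx, rfl⟩ := Finset.mem_image.1 hj
    exact (hi x hx).2.2.1 x' hx1 hx2
  · intro h hh
    apply hsub
    intro x hx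
    have h1 := hh (i x) (Finset.mem_image_of_mem i hx) x (hi x hx).1 (hi x hx).2.1
    exact (hi x hx).2.2.2 (h x) h1.1 h1.2

end Pool.Agent.S09777
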