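import Pool.Statements.S09816

set_option autoImplicit false
open Pool Pool.MP_fc9318_gt

namespace Pool.Agent.S09816

open Cardinal Set Topology

instance sumCR {X Y : Type} [TopologicalSpace X] [TopologicalSpace Y] [CompletelyRegularSpace X]
    [CompletelyRegularSpace Y] : CompletelyRegularSpace (X ⊕ Y) := by
  constructor
  intro x K hK hx
  rcases x with x | x
  · obtain ⟨f, hf, hfx, hfK⟩ := CompletelyRegularSpace.completely_regular x (Sum.inl ⁻¹' K)
      (hK.preimage continuous_inl) hx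
    refine ⟨Sum.elim f (fun _ => 1), hf.sumElim continuous_const, hfx, ?_⟩
    intro y hy
    rcases y with y | y
    · exact hfK hy
    · rfl
  · obtain ⟨f, hf, hfx, hfK⟩ := CompletelyRegularSpace.completely_regular x (Sum.inr ⁻¹' K)
      (hK.preimage continuous_inr) hx
    refine ⟨Sum.elim (fun _ => 1) f, continuous_const.sumElim hf, hfx, ?_⟩
    intro y hy
    rcases y with y | y
    · rfl
    · exact hfK hy

instance sumT35 {X Y : Type} [TopologicalSpace X] [TopologicalSpace Y] [T35Space X]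
    [T35Space Y] : T35Space (X ⊕ Y) where

/-- discrete real line -/
structure R1 where
  r : ℝ

instance : TopologicalSpace R1 := ⊥
instance : DiscreteTopology R1 := ⟨rfl⟩

/-- discrete space of size `2 ^ 𝔠` -/
structure D where
  r : Set ℝ

instance : TopologicalSpace D := ⊥
instance : DiscreteTopology D := ⟨rfl⟩

def eqD : D ≃ Set ℝ := ⟨fun d => d.r, fun r => ⟨r⟩, fun _ => rfl, fun _ => rfl⟩
def eqR : R1 ≃ ℝ := ⟨fun d => d.r, fun r => ⟨r⟩, fun _ => rfl, fun _ => rfl⟩

theorem mkD : #D = 2 ^ 𝔠 := by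
  rw [mk_congr eqD, mk_set, mk_real]

theorem mkR : #R1 = 𝔠 := by
  rw [mk_congr eqR, mk_real]

abbrev XX := R1 ⊕ OnePoint D

theorem supp_countable (f : OnePoint D → ℝ) (hf : Continuous f) :
    {x : D | f (x : OnePoint D) ≠ f (OnePoint.infty)}.Countable := by
  have h : ∀ n : ℕ, {x : D | 1 / ((n : ℝ) + 1) ≤ |f (x : OnePoint D) - f (OnePoint.infty)|}.Finite := by
    intro n
    have ho : IsOpen {z : OnePoint D | |f z - f (OnePoint.infty)| < 1 / ((n : ℝ) + 1)} :=
      isOpen_lt (hf.sub continuous_const).abs continuous_const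
    have hm : (OnePoint.infty : OnePoint D) ∈
        {z : OnePoint D | |f z - f (OnePoint.infty)| < 1 / ((n : ℝ) + 1)} := by
      show |f OnePoint.infty - f OnePoint.infty| < 1 / ((n : ℝ) + 1)
      rw [sub_self, abs_zero]
      positivity
    have hc := ((OnePoint.isOpen_iff_of_mem hm).1 ho).2
    refine (isCompact_iff_finite.1 hc).subset ?_
    intro x hx hx'
    exact absurd (show |f (x : OnePoint D) - f (OnePoint.infty)| < 1 / ((n : ℝ) + 1) from hx') (not_lt.2 hx)
  refine (Set.countable_iUnion (fun n => (h n).countable)).mono ?_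
  intro x hx
  rw [Set.mem_iUnion]
  have hpos : 0 < |f (x : OnePoint D) - f (OnePoint.infty)| := abs_pos.2 (sub_ne_zero.2 hx)
  obtain ⟨n, hn⟩ := exists_nat_one_div_lt hpos
  exact ⟨n, hn.le⟩

open Classical in
noncomputable def Phi (t : (R1 → ℝ) × (ℕ → D) × (ℕ → ℝ) × ℝ) : XX → ℝ :=
  Sum.elim t.1 (fun z => if h : ∃ n, ((t.2.1 n : D) : OnePoint D) = z then
    t.2.2.1 (Classical.choose h) else t.2.2.2)

theorem card_le : #{f : XX → ℝ // Continuous f} ≤ #D := by
  classical
  have hsub : {f : XX → ℝ | Continuous f} ⊆ Set.range Phi := by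
    intro g hg
    let f : OnePoint D → ℝ := fun z => g (Sum.inr z)
    have hf : Continuous f := hg.comp continuous_inr
    obtain ⟨s, hs⟩ := ((supp_countable f hf).insert (⟨∅⟩ : D)).exists_eq_range ⟨_, Set.mem_insert _ _⟩
    refine ⟨(fun x => g (Sum.inl x), s, fun n => f (s n : OnePoint D), f OnePoint.infty), ?_⟩
    funext w
    rcases w with w | z
    · rfl
    by_cases h : ∃ n, ((s n : D) : OnePoint D) = z
    · show (if h : ∃ n, ((s n : D) : OnePoint D) = z then f (s (Classical.choose h) : OnePoint D)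
        else f OnePoint.infty) = f z
      rw [dif_pos h, Classical.choose_spec h]
    · show (if h : ∃ n, ((s n : D) : OnePoint D) = z then f (s (Classical.choose h) : OnePoint D)
        else f OnePoint.infty) = f z
      rw [dif_neg h]
      by_contra hne
      induction z using OnePoint.rec with
      | infty => exact hne rfl
      | coe x =>
        have hx : x ∈ insert (⟨∅⟩ : D) {x : D | f (x : OnePoint D) ≠ f (OnePoint.infty)} :=
          Or.inr (fun e => hne e.symm)
        rw [hs] at hx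
        obtain ⟨n, hn⟩ := hx
        exact h ⟨n, by rw [hn]⟩
  have h1 : #{f : XX → ℝ // Continuous f} ≤ #(Set.range Phi) := mk_le_mk_of_subset hsub
  refine h1.trans (mk_range_le.trans ?_)
  have hω : ℵ₀ ≤ (2 : Cardinal.{0}) ^ 𝔠 := aleph0_le_continuum.trans (cantor 𝔠).le
  have e0 : #(R1 → ℝ) = 2 ^ 𝔠 := by
    rw [← power_def, mkR, mk_real]
    exact power_self_eq aleph0_le_continuum
  have e1 : #(ℕ → D) = 2 ^ 𝔠 := by
    rw [← power_def, mkD, ← power_mul]
    simp
  have e2 : #(ℕ → ℝ) = 𝔠 := by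
    rw [← power_def, mk_real]
    simp
  rw [mk_prod, mk_prod, mk_prod]
  simp only [lift_id, e0, e1, e2, mk_real, mkD]
  have h3 : (𝔠 : Cardinal.{0}) ≤ 2 ^ 𝔠 := (cantor 𝔠).le
  calc (2 : Cardinal.{0}) ^ 𝔠 * (2 ^ 𝔠 * (𝔠 * 𝔠)) ≤ 2 ^ 𝔠 * (2 ^ 𝔠 * (2 ^ 𝔠 * 2 ^ 𝔠)) := by gcongr
    _ = 2 ^ 𝔠 := by rw [mul_eq_self hω, mul_eq_self hω, mul_eq_self hω]

theorem exists_j : ∃ j : {f : XX → ℝ // Continuous f} × ℕ → D, Function.Injective j := by
  have hω : ℵ₀ ≤ #D := by
    rw [mkD]
    exact aleph0_le_continuum.trans (cantor 𝔠).le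
  have : #({f : XX → ℝ // Continuous f} × ℕ) ≤ #D := by
    rw [mk_prod]
    simp only [lift_id, mk_nat]
    calc #{f : XX → ℝ // Continuous f} * ℵ₀ ≤ #D * #D := mul_le_mul' card_le hω
      _ = #D := mul_eq_self hω
  obtain ⟨⟨j, hj⟩⟩ := this
  exact ⟨j, hj⟩

/-- characteristic function of an isolated point of the second part -/
noncomputable def chi (d : D) : XX → ℝ := Set.indicator {(Sum.inr (d : OnePoint D) : XX)} (fun _ => 1)

theorem chi_cont (d : D) : Continuous (chi d) := by
  have hcl : IsClopen ({(Sum.inr (d : OnePoint D) : XX)} : Set XX) := by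
    refine ⟨isClosed_singleton, ?_⟩
    have h1 := OnePoint.isOpenEmbedding_coe.isOpenMap _ (isOpen_discrete ({d} : Set D))
    have h2 : IsOpen ((Sum.inr : OnePoint D → XX) '' ((fun x : D => (x : OnePoint D)) '' {d})) :=
      IsOpenEmbedding.inr.isOpenMap _ h1
    rwa [Set.image_singleton, Set.image_singleton] at h2
  apply Continuous.indicator
  · intro a ha
    rw [hcl.frontier_eq] at ha
    exact absurd ha (Set.notMem_empty a)
  · exact continuous_const

theorem chi_self (d : D) : chi d (Sum.inr (d : OnePoint D)) = 1 :=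
  Set.indicator_of_mem (Set.mem_singleton _) _

theorem chi_inf (d : D) : chi d (Sum.inr OnePoint.infty) = 0 := by
  apply Set.indicator_of_notMem
  intro h
  have := Sum.inr_injective (Set.mem_singleton_iff.1 h)
  exact OnePoint.infty_ne_coe d this

theorem chi_abs (d : D) (x : XX) : |chi d x| ≤ 1 := by
  by_cases h : x ∈ ({(Sum.inr (d : OnePoint D) : XX)} : Set XX)
  · rw [chi, Set.indicator_of_mem h, abs_one]
  · rw [chi, Set.indicator_of_notMem h, abs_zero]
    exact zero_le_one

open Classical in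
noncomputable def cc (j : {f : XX → ℝ // Continuous f} × ℕ → D) (k : {f : XX → ℝ // Continuous f} × ℕ) : ℝ :=
  if k.1.1 (Sum.inr (j k : OnePoint D)) = k.1.1 (Sum.inr OnePoint.infty) then 1 / ((k.2 : ℝ) + 1) else 0

noncomputable def yy (j : {f : XX → ℝ // Continuous f} × ℕ → D) (k : {f : XX → ℝ // Continuous f} × ℕ) :
    XX → ℝ := fun x => k.1.1 x + cc j k * chi (j k) x

theorem yy_ne (j : {f : XX → ℝ // Continuous f} × ℕ → D) (k : {f : XX → ℝ // Continuous f} × ℕ) :
    yy j k (Sum.inr (j k : OnePoint D)) ≠ yy j k (Sum.inr OnePoint.infty) := by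
  classical
  unfold yy
  rw [chi_self, chi_inf, mul_one, mul_zero, add_zero]
  by_cases h : k.1.1 (Sum.inr (j k : OnePoint D)) = k.1.1 (Sum.inr OnePoint.infty)
  · have : cc j k = 1 / ((k.2 : ℝ) + 1) := if_pos h
    rw [this, h]
    have hpos : (0 : ℝ) < 1 / ((k.2 : ℝ) + 1) := by positivity
    intro e
    linarith
  · have : cc j k = 0 := if_neg h
    rw [this, add_zero]
    exact h

theorem cc_abs (j : {f : XX → ℝ // Continuous f} × ℕ → D) (k : {f : XX → ℝ // Continuous f} × ℕ) :
    |cc j k| ≤ 1 / ((k.2 : ℝ) + 1) := by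
  classical
  have hpos : (0 : ℝ) < 1 / ((k.2 : ℝ) + 1) := by positivity
  by_cases h : k.1.1 (Sum.inr (j k : OnePoint D)) = k.1.1 (Sum.inr OnePoint.infty)
  · have : cc j k = 1 / ((k.2 : ℝ) + 1) := if_pos h
    rw [this, abs_of_pos hpos]
  · have : cc j k = 0 := if_neg h
    rw [this, abs_zero]
    exact hpos.le

/-- characteristic functions of rational intervals in the discrete line -/
noncomputable def iv (p q : ℝ) : XX → ℝ :=
  Sum.elim (fun x : R1 => Set.indicator (Set.Ioo p q) (fun _ => (1 : ℝ)) x.r) (fun _ => 0)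

noncomputable def pt (x : R1) : XX → ℝ :=
  Sum.elim (fun y : R1 => Set.indicator {x.r} (fun _ => (1 : ℝ)) y.r) (fun _ => 0)

theorem pt_mem (x : R1) : pt x ∈ closure (Set.range (fun pq : ℚ × ℚ => iv pq.1 pq.2)) := by
  classical
  rw [mem_closure_iff]
  intro o ho hxo
  obtain ⟨F, u, hu, hsub⟩ := isOpen_pi_iff.1 ho _ hxo
  have hfin : {y : ℝ | y ≠ x.r ∧ (Sum.inl ⟨y⟩ : XX) ∈ F}.Finite := by
    have h1 : Function.Injective (fun y : ℝ => (Sum.inl ⟨y⟩ : XX)) := by
      intro a b hab
      have h2 := Sum.inl_injective hab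
      exact congrArg R1.r h2
    exact (Set.Finite.preimage h1.injOn (Finset.finite_toSet F)).subset (fun y hy => hy.2)
  have hopen : IsOpen ({y : ℝ | y ≠ x.r ∧ (Sum.inl ⟨y⟩ : XX) ∈ F}ᶜ) := hfin.isClosed.isOpen_compl
  have hxm : x.r ∈ ({y : ℝ | y ≠ x.r ∧ (Sum.inl ⟨y⟩ : XX) ∈ F}ᶜ) := fun h => h.1 rfl
  obtain ⟨ε, hε, hb⟩ := Metric.isOpen_iff.1 hopen _ hxm
  obtain ⟨p, hp1, hp2⟩ := exists_rat_btwn (show x.r - ε < x.r by linarith)
  obtain ⟨q, hq1, hq2⟩ := exists_rat_btwn (show x.r < x.r + ε by linarith)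
  refine ⟨iv p q, ?_, ⟨(p, q), rfl⟩⟩
  apply hsub
  intro z hz
  have heq : iv p q z = pt x z := by
    rcases z with z | z
    · show Set.indicator (Set.Ioo (p : ℝ) q) (fun _ => (1 : ℝ)) z.r =
        Set.indicator {x.r} (fun _ => (1 : ℝ)) z.r
      by_cases hzx : z.r = x.r
      · rw [Set.indicator_of_mem, Set.indicator_of_mem]
        · exact hzx
        · rw [hzx]; exact ⟨hp2, hq1⟩
      · rw [Set.indicator_of_notMem, Set.indicator_of_notMem]
        · exact hzx
        · intro hmem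
          have hball : z.r ∈ Metric.ball x.r ε := by
            rw [Metric.mem_ball, Real.dist_eq, abs_lt]
            constructor
            · linarith [hmem.1]
            · linarith [hmem.2]
          exact hb hball ⟨hzx, hz⟩
    · rfl
  rw [heq]
  exact (hu z hz).2

theorem cont_of_inl (g : R1 → ℝ) : Continuous (Sum.elim g (fun _ => 0) : XX → ℝ) :=
  (continuous_of_discreteTopology).sumElim continuous_const

/-- The negation of the preceding statement: For every Tychonoff X, if C_p(X) (pointwise topology) has a uniformly dense subspace in which closures of countable sets have countable networks, then closures of countable subsets of C_p(X) have countable networks. -/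
theorem result :
    ¬ (∀ (X : Type) [TopologicalSpace X] [T35Space X] (Y : Set (X → ℝ)),
      Y ⊆ {f : X → ℝ | Continuous f} →
      (∀ f : X → ℝ, Continuous f → ∀ ε : ℝ, ε > 0 → ∃ g ∈ Y, ∀ x : X, |f x - g x| < ε) →
      (∀ A : Set (X → ℝ), A ⊆ Y → A.Countable →
        ∃ 𝒩 : Set (Set (X → ℝ)), 𝒩.Countable ∧
          ∀ h ∈ closure A ∩ Y, ∀ U : Set (X → ℝ), IsOpen U → h ∈ U →
            ∃ N ∈ 𝒩, h ∈ N ∧ N ⊆ U ∩ (closure A ∩ Y)) →
      (∀ A : Set (X → ℝ), A ⊆ {f : X → ℝ | Continuous f} → A.Countable →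
        ∃ 𝒩 : Set (Set (X → ℝ)), 𝒩.Countable ∧
          ∀ h ∈ closure A ∩ {f : X → ℝ | Continuous f}, ∀ U : Set (X → ℝ), IsOpen U → h ∈ U →
            ∃ N ∈ 𝒩, h ∈ N ∧ N ⊆ U ∩ (closure A ∩ {f : X → ℝ | Continuous f}))) := by
  intro H0
  obtain ⟨j, hj⟩ := exists_j
  obtain ⟨𝒩, hN, hN2⟩ := H0 XX (Set.range (yy j)) (by
      rintro _ ⟨k, rfl⟩
      exact k.1.2.add (continuous_const.mul (chi_cont _))) (by
      intro f hf ε hε
      obtain ⟨n, hn⟩ := exists_nat_one_div_lt hε
      refine ⟨_, ⟨(⟨f, hf⟩, n), rfl⟩, fun x => ?_⟩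
      show |f x - (f x + cc j (⟨f, hf⟩, n) * chi (j (⟨f, hf⟩, n)) x)| < ε
      rw [sub_add_cancel_left, abs_neg, abs_mul]
      have h1 := cc_abs j (⟨f, hf⟩, n)
      have h2 := chi_abs (j (⟨f, hf⟩, n)) x
      have h3 : |cc j (⟨f, hf⟩, n)| * |chi (j (⟨f, hf⟩, n)) x| ≤ 1 / ((n : ℝ) + 1) * 1 :=
        mul_le_mul h1 h2 (abs_nonneg _) (by positivity)
      rw [mul_one] at h3
      exact lt_of_le_of_lt h3 hn) (by
      intro A hA hAc
      let C : Set D := ⋃ a ∈ A, {d : D | a (Sum.inr (d : OnePoint D)) ≠ a (Sum.inr OnePoint.infty)}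
      have hC : C.Countable := by
        refine hAc.biUnion (fun a ha => ?_)
        obtain ⟨k, rfl⟩ := hA ha
        exact supp_countable (fun z => yy j k (Sum.inr z))
          ((k.1.2.add (continuous_const.mul (chi_cont _))).comp continuous_inr)
      have hcl : IsClosed {g : XX → ℝ | ∀ d : D, d ∉ C →
          g (Sum.inr (d : OnePoint D)) = g (Sum.inr OnePoint.infty)} := by
        have : {g : XX → ℝ | ∀ d : D, d ∉ C →
          g (Sum.inr (d : OnePoint D)) = g (Sum.inr OnePoint.infty)} = ⋂ d : D, ⋂ _ : d ∉ C,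
            {g : XX → ℝ | g (Sum.inr (d : OnePoint D)) = g (Sum.inr OnePoint.infty)} := by
          ext g
          simp only [Set.mem_iInter, Set.mem_ofPred_eq]
        rw [this]
        exact isClosed_iInter (fun d => isClosed_iInter (fun _ =>
          isClosed_eq (continuous_apply _) (continuous_apply _)))
      have hsub : closure A ⊆ {g : XX → ℝ | ∀ d : D, d ∉ C →
          g (Sum.inr (d : OnePoint D)) = g (Sum.inr OnePoint.infty)} := by
        apply closure_minimal _ hcl
        intro a ha d hd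
        by_contra hne
        apply hd
        show d ∈ ⋃ a ∈ A, {d : D | a (Sum.inr (d : OnePoint D)) ≠ a (Sum.inr OnePoint.infty)}
        rw [Set.mem_iUnion₂]
        exact ⟨a, ha, hne⟩
      have hcount : (closure A ∩ Set.range (yy j)).Countable := by
        refine ((hC.preimage_of_injOn (f := j) hj.injOn).image (yy j)).mono ?_
        rintro _ ⟨h1, ⟨k, rfl⟩⟩
        refine ⟨k, ?_, rfl⟩
        by_contra hd
        exact yy_ne j k (hsub h1 (j k) hd)
      refine ⟨(fun h => ({h} : Set (XX → ℝ))) '' (closure A ∩ Set.range (yy j)), hcount.image _, ?_⟩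
      intro h hh U hU hhU
      refine ⟨{h}, ⟨h, hh, rfl⟩, Set.mem_singleton h, ?_⟩
      rw [Set.singleton_subset_iff]
      exact ⟨hhU, hh⟩) (Set.range (fun pq : ℚ × ℚ => iv pq.1 pq.2)) (by
      rintro _ ⟨pq, rfl⟩
      exact cont_of_inl _) (Set.countable_range _)
  have hsel : ∀ x : R1, ∃ N ∈ 𝒩, pt x ∈ N ∧ N ⊆ {g : XX → ℝ | 1 / 2 < g (Sum.inl x)} := by
    intro x
    have hU : IsOpen {g : XX → ℝ | 1 / 2 < g (Sum.inl x)} :=
      isOpen_lt continuous_const (continuous_apply _)
    obtain ⟨N, h1, h2, h3⟩ := hN2 (pt x) ⟨pt_mem x, cont_of_inl _⟩ _ hU (by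
      show 1 / 2 < Set.indicator {x.r} (fun _ => (1 : ℝ)) x.r
      rw [Set.indicator_of_mem (Set.mem_singleton _)]
      norm_num)
    exact ⟨N, h1, h2, fun g hg => (h3 hg).1⟩
  choose N hN1 hN2' hN3 using hsel
  have hinj : Function.Injective N := by
    intro x y hxy
    have h1 : pt y ∈ N x := by
      rw [hxy]
      exact hN2' y
    have h2 : 1 / 2 < Set.indicator {y.r} (fun _ => (1 : ℝ)) x.r := hN3 x h1
    by_contra hne
    rw [Set.indicator_of_notMem] at h2
    · norm_num at h2
    · intro h3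
      have h4 : x.r = y.r := h3
      exact hne (eqR.injective h4)
  have hc : (Set.univ : Set R1).Countable := by
    have : (N ⁻¹' 𝒩) = Set.univ := by
      ext x
      exact ⟨fun _ => trivial, fun _ => hN1 x⟩
    rw [← this]
    exact hN.preimage_of_injOn hinj.injOn
  have h5 : #R1 ≤ ℵ₀ := by
    rw [← mk_univ]
    exact hc.le_aleph0
  rw [mkR] at h5
  exact absurd aleph0_lt_continuum (not_lt.2 h5)

end Pool.Agent.S09816
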