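import Pool.Statements.S09901

set_option autoImplicit false
open scoped NNReal ENNReal
open Pool Pool.MP_173f50_lc

namespace Pool.Agent.S09901

open MeasureTheory Filter Topology Set

/-! ### Real numbers from digit sequences -/

/-- The `k`-th term of the ternary expansion attached to `z`. -/
noncomputable def tm (z : ℕ → Bool) (k : ℕ) : ℝ := if z k then (1/3 : ℝ) ^ k else 0

/-- The real number with (scaled) ternary digits `z`. -/
noncomputable def rr (z : ℕ → Bool) : ℝ := ∑' k, tm z k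

lemma tm_nonneg (z : ℕ → Bool) (k : ℕ) : 0 ≤ tm z k := by
  unfold tm; split_ifs <;> positivity

lemma tm_le (z : ℕ → Bool) (k : ℕ) : tm z k ≤ (1/3 : ℝ) ^ k := by
  unfold tm; split_ifs
  · exact le_rfl
  · positivity

lemma geo_summable : Summable (fun k : ℕ => (1/3 : ℝ) ^ k) :=
  summable_geometric_of_lt_one (by norm_num) (by norm_num)

lemma tm_summable (z : ℕ → Bool) : Summable (tm z) :=
  Summable.of_nonneg_of_le (tm_nonneg z) (tm_le z) geo_summable

lemma geo_tail (n : ℕ) : ∑' k, (1/3 : ℝ) ^ (k + n) = 3/2 * (1/3 : ℝ) ^ n := by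
  have h : ∀ k : ℕ, (1/3 : ℝ) ^ (k + n) = (1/3 : ℝ) ^ k * (1/3 : ℝ) ^ n := fun k => pow_add _ _ _
  simp_rw [h]
  rw [tsum_mul_right, tsum_geometric_of_lt_one (by norm_num) (by norm_num)]
  norm_num

lemma tail_nonneg (z : ℕ → Bool) (n : ℕ) : 0 ≤ ∑' k, tm z (k + n) :=
  tsum_nonneg fun k => tm_nonneg z (k + n)

lemma tail_le (z : ℕ → Bool) (n : ℕ) : ∑' k, tm z (k + n) ≤ 3/2 * (1/3 : ℝ) ^ n := by
  rw [← geo_tail n]
  refine Summable.tsum_le_tsum (fun k => tm_le z (k + n)) ?_ ?_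
  · exact (summable_nat_add_iff n).2 (tm_summable z)
  · exact (summable_nat_add_iff n).2 geo_summable

lemma rr_split (z : ℕ → Bool) (n : ℕ) :
    rr z = (∑ k ∈ Finset.range n, tm z k) + ∑' k, tm z (k + n) :=
  ((tm_summable z).sum_add_tsum_nat_add n).symm

lemma sum_congr_agree {z w : ℕ → Bool} {n : ℕ} (h : ∀ k < n, z k = w k) :
    (∑ k ∈ Finset.range n, tm z k) = ∑ k ∈ Finset.range n, tm w k := by
  refine Finset.sum_congr rfl fun k hk => ?_
  unfold tm; rw [h k (Finset.mem_range.1 hk)]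

/-- agreement on the first `n` digits forces closeness. -/
lemma rr_close {z w : ℕ → Bool} {n : ℕ} (h : ∀ k < n, z k = w k) :
    |rr z - rr w| ≤ 3/2 * (1/3 : ℝ) ^ n := by
  rw [rr_split z n, rr_split w n, sum_congr_agree h, abs_le]
  have h1 := tail_nonneg z n
  have h2 := tail_nonneg w n
  have h3 := tail_le z n
  have h4 := tail_le w n
  constructor <;> linarith

lemma rr_far_aux {z w : ℕ → Bool} {m : ℕ} (h : ∀ k < m, z k = w k) (hz : z m = true)
    (hw : w m = false) : 1/2 * (1/3 : ℝ) ^ m ≤ rr z - rr w := by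
  rw [rr_split z (m+1), rr_split w (m+1), Finset.sum_range_succ, Finset.sum_range_succ,
    sum_congr_agree h]
  have h1 := tail_nonneg z (m+1)
  have h4 := tail_le w (m+1)
  have h5 : tm z m = (1/3 : ℝ) ^ m := by simp [tm, hz]
  have h6 : tm w m = 0 := by simp [tm, hw]
  rw [h5, h6]
  rw [pow_succ] at h4
  linarith

lemma rr_far {z w : ℕ → Bool} {m : ℕ} (h : ∀ k < m, z k = w k) (hne : z m ≠ w m) :
    1/2 * (1/3 : ℝ) ^ m ≤ |rr z - rr w| := by
  rcases hz : z m with _ | _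
  · have hw : w m = true := by
      rcases hw : w m with _ | _
      · exact absurd (hz.trans hw.symm) hne
      · rfl
    rw [abs_sub_comm]
    exact (rr_far_aux (fun k hk => (h k hk).symm) hw hz).trans (le_abs_self _)
  · have hw : w m = false := by
      rcases hw : w m with _ | _
      · rfl
      · exact absurd (hz.trans hw.symm) hne
    exact (rr_far_aux h hz hw).trans (le_abs_self _)

/-- closeness forces agreement on the first `n` digits. -/
lemma rr_agree {z w : ℕ → Bool} {n : ℕ} (h : |rr z - rr w| < (1/3 : ℝ) ^ n) :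
    ∀ k < n, z k = w k := by
  by_contra hcon
  push Not at hcon
  classical
  let m := Nat.find hcon
  have hm : m < n ∧ z m ≠ w m := Nat.find_spec hcon
  have hmin : ∀ k < m, z k = w k := by
    intro k hk
    by_contra hk'
    exact Nat.find_min hcon hk ⟨hk.trans hm.1, hk'⟩
  have h1 := rr_far hmin hm.2
  have h2 : (1/3 : ℝ) ^ n ≤ (1/3 : ℝ) ^ (m + 1) :=
    pow_le_pow_of_le_one (by norm_num) (by norm_num) hm.1
  rw [pow_succ] at h2
  have h3 : (0:ℝ) < (1/3 : ℝ) ^ m := by positivity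
  linarith

/-! ### The almost disjoint family of blocks -/

/-- code of the `j`-th initial piece of `x`. -/
noncomputable def E (x : ℕ → Bool) (j : ℕ) : ℕ := Encodable.encode ((List.range j).map x)

lemma E_inj (x : ℕ → Bool) : Function.Injective (E x) := by
  intro a b h
  have := congrArg List.length (Encodable.encode_injective h)
  simpa using this

lemma E_agree {x y : ℕ → Bool} {j l : ℕ} (h : E x j = E y l) {m : ℕ} (hm : m < j) :
    x m = y m := by
  have h1 := Encodable.encode_injective h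
  have hl := congrArg List.length h1
  simp only [List.length_map, List.length_range] at hl
  subst hl
  have := congrArg (fun L : List Bool => L[m]?) h1
  simpa [hm] using this

/-- the set of free digit positions of `x`. -/
def S (x : ℕ → Bool) : Set ℕ := {k | ∃ j, Nat.log 3 k = E x j}

/-- number of free positions below `n`. -/
noncomputable def c (x : ℕ → Bool) (n : ℕ) : ℕ := by
  classical
  exact ((Finset.range n).filter (· ∈ S x)).card

lemma c_mono (x : ℕ → Bool) : Monotone (c x) := by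
  classical
  intro a b hab
  unfold c
  refine Finset.card_le_card ?_
  intro k hk
  simp only [Finset.mem_filter, Finset.mem_range] at hk ⊢
  exact ⟨hk.1.trans_le hab, hk.2⟩

lemma block_mem {x : ℕ → Bool} {j k : ℕ} (h1 : 3 ^ (E x j) ≤ k) (h2 : k < 3 ^ (E x j + 1)) :
    k ∈ S x := by
  refine ⟨j, ?_⟩
  exact Nat.log_eq_of_pow_le_of_lt_pow h1 h2

lemma c_block (x : ℕ → Bool) (j : ℕ) : 2 * 3 ^ (E x j) - 1 ≤ c x (3 ^ (E x j + 1) - 1) := by
  classical
  set L := 3 ^ (E x j) with hL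
  have hN : 3 ^ (E x j + 1) = 3 * L := by rw [pow_succ]; ring
  have hLpos : 0 < L := by positivity
  have : Finset.Ico L (3 * L - 1) ⊆ (Finset.range (3 ^ (E x j + 1) - 1)).filter (· ∈ S x) := by
    intro k hk
    simp only [Finset.mem_Ico] at hk
    simp only [Finset.mem_filter, Finset.mem_range]
    rw [hN]
    refine ⟨hk.2, block_mem hk.1 ?_⟩
    rw [hN]; omega
  have h2 := Finset.card_le_card this
  rw [Nat.card_Ico] at h2
  unfold c
  convert! (le_trans _ h2) using 1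
  omega

lemma E_tendsto (x : ℕ → Bool) : Tendsto (E x) atTop atTop :=
  (E_inj x).nat_tendsto_atTop

lemma lt_three_pow (K : ℕ) : K < 3 ^ K := Nat.lt_pow_self (by norm_num)

lemma c_unbounded (x : ℕ → Bool) (K : ℕ) : ∃ n, K ≤ c x n := by
  obtain ⟨j, hj⟩ := ((E_tendsto x).eventually (eventually_ge_atTop K)).exists
  refine ⟨_, le_trans ?_ (c_block x j)⟩
  have h1 : K < 3 ^ K := lt_three_pow K
  have h2 : 3 ^ K ≤ 3 ^ (E x j) := Nat.pow_le_pow_right (by norm_num) hj
  omega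

/-- the gauge attached to `x`. -/
noncomputable def f (x : ℕ → Bool) (t : ℝ≥0) : ℝ≥0 :=
  ⨅ n : ℕ, if t < (1/3 : ℝ≥0) ^ n then (1/2 : ℝ≥0) ^ (c x n) else 1

lemma half_pow_le_one (k : ℕ) : (1/2 : ℝ≥0) ^ k ≤ 1 := by
  apply pow_le_one₀
  · positivity
  · rw [div_le_one (by norm_num)]; norm_num

lemma f_le (x : ℕ → Bool) (t : ℝ≥0) (n : ℕ) :
    f x t ≤ if t < (1/3 : ℝ≥0) ^ n then (1/2 : ℝ≥0) ^ (c x n) else 1 :=
  ciInf_le (OrderBot.bddBelow _) n

lemma f_le_one (x : ℕ → Bool) (t : ℝ≥0) : f x t ≤ 1 := by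
  refine (f_le x t 0).trans ?_
  split_ifs
  · exact half_pow_le_one _
  · exact le_rfl

lemma f_le_pow (x : ℕ → Bool) {t : ℝ≥0} {n : ℕ} (h : t < (1/3 : ℝ≥0) ^ n) :
    f x t ≤ (1/2 : ℝ≥0) ^ (c x n) := by
  have := f_le x t n
  rwa [if_pos h] at this

lemma f_mono (x : ℕ → Bool) : Monotone (f x) := by
  intro s t hst
  refine le_ciInf fun n => ?_
  split_ifs with h
  · exact f_le_pow x (hst.trans_lt h)
  · exact f_le_one x s

lemma f_zero (x : ℕ → Bool) : f x 0 = 0 := by
  refine le_antisymm ?_ zero_le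
  refine le_of_forall_pos_le_add fun ε hε => ?_
  rw [zero_add]
  obtain ⟨K, hK⟩ := exists_pow_lt_of_lt_one hε (show (1/2 : ℝ≥0) < 1 by
    rw [div_lt_one (by norm_num)]; norm_num)
  obtain ⟨n, hn⟩ := c_unbounded x K
  refine (f_le_pow x (n := n) (by positivity)).trans (le_trans ?_ hK.le)
  refine pow_le_pow_of_le_one (by positivity) ?_ hn
  rw [div_le_one (by norm_num)]; norm_num

lemma f_pos (x : ℕ → Bool) {t : ℝ≥0} (ht : 0 < t) : 0 < f x t := by
  obtain ⟨N, hN⟩ := exists_pow_lt_of_lt_one ht (show (1/3 : ℝ≥0) < 1 by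
    rw [div_lt_one (by norm_num)]; norm_num)
  refine lt_of_lt_of_le (show (0 : ℝ≥0) < (1/2 : ℝ≥0) ^ (c x N) by positivity) ?_
  refine le_ciInf fun n => ?_
  split_ifs with h
  · refine pow_le_pow_of_le_one (by positivity) ?_ ?_
    · rw [div_le_one (by norm_num)]; norm_num
    · apply c_mono x
      by_contra hn
      push Not at hn
      have : (1/3 : ℝ≥0) ^ n ≤ (1/3 : ℝ≥0) ^ N := by
        refine pow_le_pow_of_le_one (by positivity) ?_ hn.le
        rw [div_le_one (by norm_num)]; norm_num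
      exact absurd (h.trans_le this) (not_lt.2 hN.le)
  · exact half_pow_le_one _

lemma f_cont (x : ℕ → Bool) (t : ℝ≥0) : ContinuousWithinAt (f x) (Set.Ici t) t := by
  unfold ContinuousWithinAt
  rw [tendsto_order]
  constructor
  · intro a ha
    filter_upwards [self_mem_nhdsWithin] with s hs
    exact ha.trans_le (f_mono x hs)
  · intro b hb
    obtain ⟨n, hn⟩ := exists_lt_of_ciInf_lt hb
    split_ifs at hn with h
    · have : ∀ᶠ s in 𝓝[Set.Ici t] t, s < (1/3 : ℝ≥0) ^ n :=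
        nhdsWithin_le_nhds (gt_mem_nhds h)
      filter_upwards [this] with s hs
      exact (f_le_pow x hs).trans_lt hn
    · exact Eventually.of_forall fun s => (f_le_one x s).trans_lt hn

/-! ### The sets -/

/-- The set attached to the branch `x`. -/
def A (x : ℕ → Bool) : Set ℝ := {a | ∃ z : ℕ → Bool, (∀ k, k ∉ S x → z k = false) ∧ rr z = a}

/-- The metric outer measure of the gauge of `x`. -/
noncomputable def H (x : ℕ → Bool) : OuterMeasure ℝ :=
  OuterMeasure.mkMetric (fun r : ℝ≥0∞ => ((f x r.toNNReal : ℝ≥0) : ℝ≥0∞))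

/-- fair coin tossing. -/
noncomputable def coin : Measure Bool :=
  (1/2 : ℝ≥0∞) • Measure.dirac true + (1/2 : ℝ≥0∞) • Measure.dirac false

instance : IsProbabilityMeasure coin := by
  constructor
  simp [coin, ENNReal.inv_two_add_inv_two]

lemma coin_singleton (b : Bool) : coin {b} = 1/2 := by
  cases b <;> simp [coin]

/-- infinitely many fair coins. -/
noncomputable def μ : Measure (ℕ → Bool) := Measure.infinitePi (fun _ => coin)

instance : IsProbabilityMeasure μ := by unfold μ; infer_instance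

/-- restrict digits to the free positions. -/
noncomputable def res (x : ℕ → Bool) (z : ℕ → Bool) : ℕ → Bool := by
  classical
  exact fun k => if k ∈ S x then z k else false

lemma res_mem (x z : ℕ → Bool) : rr (res x z) ∈ A x := by
  refine ⟨res x z, fun k hk => ?_, rfl⟩
  simp [res, hk]

lemma mu_cyl (n : ℕ) (x z0 : ℕ → Bool) (T : Set (ℕ → Bool))
    (hT : ∀ z ∈ T, ∀ k < n, k ∈ S x → z k = z0 k) : μ T ≤ ((1/2 : ℝ≥0) ^ (c x n) : ℝ≥0) := by
  classical
  have hsub : T ⊆ Set.pi ((Finset.range n).filter (· ∈ S x) : Finset ℕ) (fun k => {z0 k}) := by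
    intro z hz k hk
    simp only [Finset.coe_filter, Finset.mem_range, Set.mem_ofPred_eq] at hk
    exact hT z hz k hk.1 hk.2
  refine (measure_mono hsub).trans ?_
  unfold μ
  rw [Measure.infinitePi_pi _ (fun i _ => measurableSet_singleton _)]
  simp only [coin_singleton, Finset.prod_const]
  unfold c
  rw [ENNReal.coe_pow]
  simp

lemma mu_le (x : ℕ → Bool) (s : Set ℝ) (hs : Metric.ediam s ≤ 1) :
    μ ((fun z => rr (res x z)) ⁻¹' s) ≤ ((f x (Metric.ediam s).toNNReal : ℝ≥0) : ℝ≥0∞) := by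
  classical
  have hfin : Metric.ediam s ≠ ⊤ := ne_top_of_le_ne_top ENNReal.one_ne_top hs
  have hμfin : μ ((fun z => rr (res x z)) ⁻¹' s) ≠ ⊤ := measure_ne_top _ _
  rw [← ENNReal.coe_toNNReal hμfin, ENNReal.coe_le_coe]
  refine le_ciInf fun n => ?_
  rw [← ENNReal.coe_le_coe, ENNReal.coe_toNNReal hμfin]
  split_ifs with h
  · rcases ((fun z => rr (res x z)) ⁻¹' s).eq_empty_or_nonempty with he | ⟨z0, hz0⟩
    · rw [he]; simp
    · refine mu_cyl n x z0 _ fun z hz k hk hkS => ?_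
      have h1 : edist (rr (res x z)) (rr (res x z0)) ≤ Metric.ediam s :=
        Metric.edist_le_ediam_of_mem hz hz0
      have h2 : Metric.ediam s < (((1/3 : ℝ≥0) ^ n : ℝ≥0) : ℝ≥0∞) := by
        rw [← ENNReal.coe_toNNReal hfin, ENNReal.coe_lt_coe]
        exact h
      have h3 : |rr (res x z) - rr (res x z0)| < (1/3 : ℝ) ^ n := by
        have h4 := h1.trans_lt h2
        rw [edist_nndist, ENNReal.coe_lt_coe] at h4
        rw [← Real.dist_eq]
        have h5 : ((nndist (rr (res x z)) (rr (res x z0)) : ℝ≥0) : ℝ) < (((1/3 : ℝ≥0) ^ n : ℝ≥0) : ℝ) :=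
          NNReal.coe_lt_coe.2 h4
        rw [coe_nndist] at h5
        simpa using h5
      have h6 := rr_agree h3 k hk
      simpa [res, hkS] using h6
  · rw [ENNReal.coe_one]
    exact prob_le_one

lemma H_pos (x : ℕ → Bool) : 0 < H x (A x) := by
  have h : (OuterMeasure.map (fun z => rr (res x z)) μ.toOuterMeasure) ≤ H x := by
    refine OuterMeasure.le_mkMetric _ _ 1 one_pos fun s hs => ?_
    rw [OuterMeasure.map_apply]
    exact mu_le x s hs
  have h1 := h (A x)
  rw [OuterMeasure.map_apply] at h1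
  have h2 : ((fun z => rr (res x z)) ⁻¹' A x) = univ := by
    ext z; simp [res_mem]
  rw [h2, Measure.coe_toOuterMeasure, measure_univ] at h1
  exact lt_of_lt_of_le one_pos h1


/-- The set of numbers whose digits are carried by some branch `y` with `y m ≠ x m`. -/
def B (x : ℕ → Bool) (m : ℕ) : Set ℝ :=
  {a | ∃ y z : ℕ → Bool, y m ≠ x m ∧ (∀ k, k ∉ S y → z k = false) ∧ rr z = a}

/-- The covering sets. -/
def cov (L N : ℕ) (w : Fin L → Bool) : Set ℝ :=
  {a | ∃ z : ℕ → Bool, (∀ k : Fin L, z k = w k) ∧ (∀ k, L ≤ k → k < N → z k = false) ∧ rr z = a}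

lemma cov_diam (L N : ℕ) (w : Fin L → Bool) :
    Metric.ediam (cov L N w) ≤ ENNReal.ofReal (3/2 * (1/3 : ℝ) ^ N) := by
  refine Metric.ediam_le ?_
  rintro a ⟨z, hz1, hz2, rfl⟩ b ⟨z', hz1', hz2', rfl⟩
  rw [edist_dist, Real.dist_eq]
  refine ENNReal.ofReal_le_ofReal (rr_close fun k hk => ?_)
  by_cases hkL : k < L
  · exact (hz1 ⟨k, hkL⟩).trans (hz1' ⟨k, hkL⟩).symm
  · push Not at hkL
    rw [hz2 k hkL hk, hz2' k hkL hk]

lemma B_sub (x : ℕ → Bool) (m j : ℕ) (hj : m < j) :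
    B x m ⊆ ⋃ w : Fin (3 ^ E x j) → Bool, cov (3 ^ E x j) (3 ^ (E x j + 1)) w := by
  rintro a ⟨y, z, hy, hz, rfl⟩
  rw [Set.mem_iUnion]
  refine ⟨fun k => z k, z, fun k => rfl, fun k hk1 hk2 => hz k ?_, rfl⟩
  rintro ⟨l, hl⟩
  have h1 : Nat.log 3 k = E x j := Nat.log_eq_of_pow_le_of_lt_pow hk1 hk2
  exact hy (E_agree (h1.symm.trans hl) hj).symm

lemma f_cov (x : ℕ → Bool) (j : ℕ) (w : Fin (3 ^ E x j) → Bool) :
    f x (Metric.ediam (cov (3 ^ E x j) (3 ^ (E x j + 1)) w)).toNNReal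
      ≤ (1/2 : ℝ≥0) ^ (2 * 3 ^ (E x j) - 1) := by
  have h1 := cov_diam (3 ^ E x j) (3 ^ (E x j + 1)) w
  have h2 : (Metric.ediam (cov (3 ^ E x j) (3 ^ (E x j + 1)) w)).toNNReal
      < (1/3 : ℝ≥0) ^ (3 ^ (E x j + 1) - 1) := by
    have hN : 1 ≤ 3 ^ (E x j + 1) := Nat.one_le_pow _ _ (by norm_num)
    obtain ⟨M, hM⟩ : ∃ M, 3 ^ (E x j + 1) = M + 1 := ⟨_, (Nat.succ_pred_eq_of_pos hN).symm⟩
    rw [hM, Nat.add_sub_cancel]
    rw [hM] at h1
    apply ENNReal.toNNReal_lt_of_lt_coe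
    refine h1.trans_lt ?_
    have h3 : (3/2 * (1/3 : ℝ) ^ (M + 1)) < (((1/3 : ℝ≥0) ^ M : ℝ≥0) : ℝ) := by
      push_cast
      rw [pow_succ]
      have : (0:ℝ) < (1/3 : ℝ) ^ M := by positivity
      linarith
    rw [← ENNReal.ofReal_coe_nnreal]
    exact (ENNReal.ofReal_lt_ofReal_iff (by positivity)).2 h3
  refine (f_le_pow x h2).trans ?_
  refine pow_le_pow_of_le_one (by positivity) ?_ (c_block x j)
  rw [div_le_one (by norm_num)]; norm_num

lemma H_B (x : ℕ → Bool) (m : ℕ) : H x (B x m) = 0 := by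
  classical
  unfold H
  rw [OuterMeasure.coe_mkMetric]
  refine le_antisymm ?_ zero_le
  refine (Measure.mkMetric_le_liminf_sum (ι := fun j => (Fin (3 ^ E x j) → Bool)) (B x m) (l := atTop)
    (fun j => ENNReal.ofReal (3/2 * (1/3 : ℝ) ^ (3 ^ (E x j + 1)))) ?_
    (fun j w => cov (3 ^ E x j) (3 ^ (E x j + 1)) w) ?_ ?_ _).trans ?_
  · have h1 : Tendsto (fun j => 3 ^ (E x j + 1)) atTop atTop := by
      refine tendsto_atTop_mono (fun j => ?_) (E_tendsto x)
      exact (Nat.le_succ _).trans (lt_three_pow _).le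
    have h2 : Tendsto (fun k : ℕ => 3/2 * (1/3 : ℝ) ^ k) atTop (𝓝 (3/2 * 0)) :=
      (tendsto_pow_atTop_nhds_zero_of_lt_one (by norm_num) (by norm_num)).const_mul _
    rw [mul_zero] at h2
    have h3 := ENNReal.tendsto_ofReal (h2.comp h1)
    rw [ENNReal.ofReal_zero] at h3
    exact h3
  · exact Eventually.of_forall fun j w => cov_diam _ _ w
  · filter_upwards [eventually_gt_atTop m] with j hj
    exact B_sub x m j hj
  · have hb : ∀ j, (∑ w : Fin (3 ^ E x j) → Bool,
        ((f x (Metric.ediam (cov (3 ^ E x j) (3 ^ (E x j + 1)) w)).toNNReal : ℝ≥0) : ℝ≥0∞))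
        ≤ ((2 * (1/2 : ℝ≥0) ^ (3 ^ E x j) : ℝ≥0) : ℝ≥0∞) := by
      intro j
      refine (Finset.sum_le_card_nsmul _ _ (((1/2 : ℝ≥0) ^ (2 * 3 ^ (E x j) - 1) : ℝ≥0) : ℝ≥0∞)
        (fun w _ => ENNReal.coe_le_coe.2 (f_cov x j w))).trans ?_
      rw [Finset.card_univ, Fintype.card_fun, Fintype.card_bool, Fintype.card_fin, nsmul_eq_mul]
      obtain ⟨M, hM⟩ : ∃ M, 3 ^ (E x j) = M + 1 :=
        ⟨_, (Nat.succ_pred_eq_of_pos (show 0 < 3 ^ (E x j) by positivity)).symm⟩
      rw [hM]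
      have : 2 * (M + 1) - 1 = M + (M + 1) := by omega
      rw [this]
      have h4 : (((2 ^ (M + 1) : ℕ) : ℝ≥0∞)) = (((2:ℝ≥0) ^ (M+1) : ℝ≥0) : ℝ≥0∞) := by
        push_cast; rfl
      rw [h4, ← ENNReal.coe_mul, ENNReal.coe_le_coe]
      apply le_of_eq
      have h5 : (2:ℝ≥0) ^ M * (1/2) ^ M = 1 := by
        rw [← mul_pow]; norm_num
      calc (2:ℝ≥0) ^ (M+1) * (1/2) ^ (M + (M+1))
          = ((2:ℝ≥0) ^ M * (1/2) ^ M) * (2 * (1/2) ^ (M+1)) := by ring
        _ = 2 * (1/2) ^ (M+1) := by rw [h5, one_mul]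
    refine (liminf_le_liminf (Eventually.of_forall hb)).trans ?_
    apply le_of_eq
    apply Tendsto.liminf_eq
    have h1 : Tendsto (fun j => 3 ^ (E x j)) atTop atTop := by
      refine tendsto_atTop_mono (fun j => ?_) (E_tendsto x)
      exact (lt_three_pow _).le
    have h2 : Tendsto (fun k : ℕ => 2 * (1/2 : ℝ≥0) ^ k) atTop (𝓝 (2 * 0)) := by
      refine Tendsto.const_mul _ (NNReal.tendsto_pow_atTop_nhds_zero_of_lt_one ?_)
      rw [div_lt_one (by norm_num)]; norm_num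
    rw [mul_zero] at h2
    have h3 := ENNReal.tendsto_coe.2 (h2.comp h1)
    rw [ENNReal.coe_zero] at h3
    exact h3

lemma H_other (x : ℕ → Bool) (T : Set (ℕ → Bool)) (hx : x ∉ T) : H x (⋃ y ∈ T, A y) = 0 := by
  have hsub : (⋃ y ∈ T, A y) ⊆ ⋃ m, B x m := by
    intro a ha
    simp only [Set.mem_iUnion] at ha
    obtain ⟨y, hy, z, hz, rfl⟩ := ha
    have hne : y ≠ x := fun h => hx (h ▸ hy)
    obtain ⟨m, hm⟩ := Function.ne_iff.1 hne
    exact Set.mem_iUnion.2 ⟨m, y, z, hm, hz, rfl⟩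
  refine measure_mono_null hsub ?_
  exact measure_iUnion_null fun m => H_B x m

theorem key_inj : Function.Injective (fun T : Set (ℕ → Bool) =>
    {f : ℝ≥0 → ℝ≥0 |
          Monotone f ∧ f 0 = 0 ∧ (∀ r : ℝ≥0, 0 < r → 0 < f r) ∧
          (∀ x : ℝ≥0, ContinuousWithinAt f (Set.Ici x) x) ∧
          0 < (MeasureTheory.OuterMeasure.mkMetric
                (fun r : ℝ≥0∞ => ((f r.toNNReal : ℝ≥0) : ℝ≥0∞)) :
                MeasureTheory.OuterMeasure ℝ) (⋃ y ∈ T, A y)}) := by
  have hmem : ∀ (T : Set (ℕ → Bool)) (x : ℕ → Bool), x ∈ T ↔ f x ∈ {f : ℝ≥0 → ℝ≥0 |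
          Monotone f ∧ f 0 = 0 ∧ (∀ r : ℝ≥0, 0 < r → 0 < f r) ∧
          (∀ x : ℝ≥0, ContinuousWithinAt f (Set.Ici x) x) ∧
          0 < (MeasureTheory.OuterMeasure.mkMetric
                (fun r : ℝ≥0∞ => ((f r.toNNReal : ℝ≥0) : ℝ≥0∞)) :
                MeasureTheory.OuterMeasure ℝ) (⋃ y ∈ T, A y)} := by
    intro T x
    constructor
    · intro hx
      refine ⟨f_mono x, f_zero x, fun r hr => f_pos x hr, f_cont x, ?_⟩
      refine lt_of_lt_of_le (H_pos x) ?_
      exact measure_mono (Set.subset_biUnion_of_mem hx)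
    · rintro ⟨-, -, -, -, h⟩
      by_contra hx
      exact h.ne' (H_other x T hx)
  intro T T' h
  ext x
  rw [hmem T x, hmem T' x]
  exact iff_of_eq (congrArg (fun W => f x ∈ W) h)

/-- The family of sets {gauge functions f (nondecreasing, right-continuous, f(0)=0, positive off 0) with positive f-Hausdorff measure on A}, as A ranges over subsets of the reals, has cardinality 2 to the continuum. -/
theorem result :
    Cardinal.mk
      (Set.range (fun A : Set ℝ =>
        {f : ℝ≥0 → ℝ≥0 |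
          Monotone f ∧ f 0 = 0 ∧ (∀ r : ℝ≥0, 0 < r → 0 < f r) ∧
          (∀ x : ℝ≥0, ContinuousWithinAt f (Set.Ici x) x) ∧
          0 < (MeasureTheory.OuterMeasure.mkMetric
                (fun r : ℝ≥0∞ => ((f r.toNNReal : ℝ≥0) : ℝ≥0∞)) :
                MeasureTheory.OuterMeasure ℝ) A}))
      = 2 ^ Cardinal.continuum := by
  apply le_antisymm
  · refine Cardinal.mk_range_le.trans ?_
    rw [Cardinal.mk_set, Cardinal.mk_real]
  · have h1 : (2 : Cardinal) ^ Cardinal.continuum = Cardinal.mk (Set (ℕ → Bool)) := by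
      rw [Cardinal.mk_set]; simp
    rw [h1]
    refine Cardinal.mk_le_of_injective (f := fun T : Set (ℕ → Bool) =>
      (⟨_, ⟨⋃ y ∈ T, A y, rfl⟩⟩ : Set.range (fun A : Set ℝ =>
        {f : ℝ≥0 → ℝ≥0 |
          Monotone f ∧ f 0 = 0 ∧ (∀ r : ℝ≥0, 0 < r → 0 < f r) ∧
          (∀ x : ℝ≥0, ContinuousWithinAt f (Set.Ici x) x) ∧
          0 < (MeasureTheory.OuterMeasure.mkMetric
                (fun r : ℝ≥0∞ => ((f r.toNNReal : ℝ≥0) : ℝ≥0∞)) :
                MeasureTheory.OuterMeasure ℝ) A}))) ?_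
    intro T T' h
    exact key_inj (congrArg Subtype.val h)

end Pool.Agent.S09901
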