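import Pool.Statements.S09958
import Pool.Agent.H21.TM1

set_option autoImplicit false
open Pool Pool.MP_25e2f4_lc

namespace Pool.Agent.S09958

/-- The negation of the preceding statement: For every context-free language L over a finite alphabet: L is regular iff for some k ≥ 1, whenever uv is nonempty and x uⁿ y vⁿ z ∈ L for all n ≥ 1, then x u^{kn} y v^{km} z ∈ L for all n, m ≥ 1. -/
theorem result :
    ¬ (∀ (α : Type) [Fintype α] (L : Language α), L.IsContextFree →
      (L.IsRegular ↔
        ∃ k : ℕ, 1 ≤ k ∧
          ∀ x u y v z : List α, u ++ v ≠ [] →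
            (∀ n : ℕ, 1 ≤ n →
              x ++ (List.replicate n u).flatten ++ y ++ (List.replicate n v).flatten ++ z ∈ L) →
            ∀ n m : ℕ, 1 ≤ n → 1 ≤ m →
              x ++ (List.replicate (k * n) u).flatten ++ y ++ (List.replicate (k * m) v).flatten ++ z ∈ L)) := by
  intro H
  apply Pool.Agent.H21.TM.L_not_regular
  refine (H Bool Pool.Agent.H21.TM.L Pool.Agent.H21.TM.L_cf).2 ⟨6, by norm_num, ?_⟩
  intro x u y v z huv _ n m hn hm
  have hrep : ∀ (t : List Bool) (k : ℕ), 1 ≤ k →
      (List.replicate (6 * k) t).flatten =
        (List.replicate 6 t).flatten ++ (List.replicate (6 * k - 6) t).flatten := by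
    intro t k hk
    rw [← List.flatten_append, List.replicate_append_replicate]
    congr 2
    omega
  by_cases hu : u = []
  · have hv : v ≠ [] := by
      intro h
      exact huv (by rw [hu, h]; rfl)
    rw [hrep v m hm]
    have h := Pool.Agent.H21.TM.pow_mem
      (a := x ++ (List.replicate (6 * n) u).flatten ++ y) (u := v)
      (b := (List.replicate (6 * m - 6) v).flatten ++ z) hv
    simpa only [List.append_assoc] using h
  · rw [hrep u n hn]
    have h := Pool.Agent.H21.TM.pow_mem (a := x) (u := u)
      (b := (List.replicate (6 * n - 6) u).flatten ++ (y ++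
        ((List.replicate (6 * m) v).flatten ++ z))) hu
    simpa only [List.append_assoc] using h

end Pool.Agent.S09958
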