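import Pool.Statements.S09960
import Pool.Agent.H21.STS3

set_option autoImplicit false
open Filter Asymptotics
open Pool Pool.MP_2674cb_lc

namespace Pool.Agent.S09960

open Pool.Agent.H21.STS

/-- The negation of the preceding statement: There is a finite nonempty terminating semi-Thue system with length-preserving rules whose longest-derivation function on words of length at most n is o(n log n) but not Θ(n). -/
theorem result :
    ¬ (∃ (k : ℕ) (S : Finset (List (Fin k) × List (Fin k))),
    S.Nonempty ∧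
    (∀ p ∈ S, p.1.length = p.2.length) ∧
    (¬ ∃ f : ℕ → List (Fin k), ∀ i : ℕ, ∃ x y : List (Fin k), ∃ p ∈ S,
        f i = x ++ p.1 ++ y ∧ f (i + 1) = x ++ p.2 ++ y) ∧
    (fun n : ℕ => ((sSup {m : ℕ | ∃ f : ℕ → List (Fin k), (f 0).length ≤ n ∧
        ∀ i < m, ∃ x y : List (Fin k), ∃ p ∈ S,
          f i = x ++ p.1 ++ y ∧ f (i + 1) = x ++ p.2 ++ y} : ℕ) : ℝ))
      =o[atTop] (fun n : ℕ => (n : ℝ) * Real.log (n : ℝ)) ∧
    ¬ ((fun n : ℕ => ((sSup {m : ℕ | ∃ f : ℕ → List (Fin k), (f 0).length ≤ n ∧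
        ∀ i < m, ∃ x y : List (Fin k), ∃ p ∈ S,
          f i = x ++ p.1 ++ y ∧ f (i + 1) = x ++ p.2 ++ y} : ℕ) : ℝ))
      =Θ[atTop] (fun n : ℕ => (n : ℝ)))) := by
  rintro ⟨k, S, hne, hlp, hterm, ho, hth⟩
  have hLP : LP S := hlp
  have hT : Term S := hterm
  obtain ⟨L, hL⟩ : ∃ L : ℕ, ∀ p ∈ S, p.1.length ≤ L :=
    ⟨S.sup (fun p => p.1.length), fun p hp => Finset.le_sup (f := fun p => p.1.length) hp⟩
  set D : ℕ → ℕ := fun n => sSup {m : ℕ | ∃ f : ℕ → List (Fin k), (f 0).length ≤ n ∧
        ∀ i < m, ∃ x y : List (Fin k), ∃ p ∈ S,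
          f i = x ++ p.1 ++ y ∧ f (i + 1) = x ++ p.2 ++ y} with hD
  have hne0 : ∀ n, {m : ℕ | ∃ f : ℕ → List (Fin k), (f 0).length ≤ n ∧
        ∀ i < m, ∃ x y : List (Fin k), ∃ p ∈ S,
          f i = x ++ p.1 ++ y ∧ f (i + 1) = x ++ p.2 ++ y}.Nonempty :=
    fun n => ⟨0, fun _ => [], by simp, fun i hi => absurd hi (Nat.not_lt_zero i)⟩
  have hup : ∀ n M, (∀ w st, Valid S w st → w.length ≤ n → st.length ≤ M) → D n ≤ M := by
    intro n M h
    apply csSup_le (hne0 n)
    rintro m ⟨f, hf0, hf⟩
    obtain ⟨st, h1, h2⟩ := chain_to_list S m f hf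
    rw [← h2]
    exact h (f 0) st h1 hf0
  have hbdd : ∀ n, BddAbove {m : ℕ | ∃ f : ℕ → List (Fin k), (f 0).length ≤ n ∧
        ∀ i < m, ∃ x y : List (Fin k), ∃ p ∈ S,
          f i = x ++ p.1 ++ y ∧ f (i + 1) = x ++ p.2 ++ y} := by
    intro n
    obtain ⟨B, hB⟩ := bdd S hLP hT n
    refine ⟨B, ?_⟩
    rintro m ⟨f, hf0, hf⟩
    obtain ⟨st, h1, h2⟩ := chain_to_list S m f hf
    rw [← h2]
    exact hB (f 0) st h1 hf0
  have hlow : ∀ n w st, Valid S w st → w.length ≤ n → st.length ≤ D n := by
    intro n w st hv hw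
    obtain ⟨f, h0, hf⟩ := list_to_chain S hv
    exact le_csSup (hbdd n) ⟨f, by rw [h0]; exact hw, hf⟩
  apply hth
  refine ⟨?_, ?_⟩
  · -- upper bound
    by_cases hunb : ∀ K : ℕ, ∃ (w : List (Fin k)) (st : List (ℕ × Rule (Fin k))) (p : ℕ),
      Valid S w st ∧ K ≤ (cs p st).length
    · exfalso
      set Q : ℕ := (S ×ˢ Finset.range (L + 1)).card + 1 with hQ
      have hQ2 : 2 ≤ Q := by
        have : 0 < (S ×ˢ Finset.range (L + 1)).card := by
          rw [Finset.card_pos]
          exact hne.product ⟨0, by simp⟩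
        omega
      have hlogQ : 0 < Real.log Q := Real.log_pos (by exact_mod_cast hQ2)
      set c : ℝ := 1 / (32 * (L + 1) * Real.log Q) with hc
      have hLp : (0 : ℝ) < (L : ℝ) + 1 := by positivity
      have hcpos : 0 < c := by positivity
      have hev := ho.def hcpos
      obtain ⟨N0, hN0⟩ := eventually_atTop.mp hev
      obtain ⟨w, st, hv, hn, hcount⟩ := unb S hLP hT L hL hunb (max N0 64)
      set n := w.length with hndef
      have hn64 : 64 ≤ n := le_trans (le_max_right _ _) hn
      have hnN : N0 ≤ n := le_trans (le_max_left _ _) hn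
      have h1 := hN0 n hnN
      have h2 := hcount (Nat.log Q (n / 4))
      set l := Nat.log Q (n / 4) with hl
      have hpow1 : Q ^ l ≤ n / 4 := Nat.pow_log_le_self Q (by omega)
      have hpow2 : n / 4 < Q ^ (l + 1) := Nat.lt_pow_succ_log_self (by omega) _
      have h3 : (n / 4) * (l + 1) ≤ L * D n := by
        calc (n / 4) * (l + 1) ≤ (n / 2 - Q ^ l) * (l + 1) :=
              Nat.mul_le_mul_right _ (by omega)
          _ ≤ L * st.length := h2
          _ ≤ L * D n := Nat.mul_le_mul_left _ (hlow n w st hv (le_refl _))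
      have h4 : n ≤ Q ^ (2 * (l + 1)) := by
        have h5 : 4 ≤ Q ^ (l + 1) := by omega
        have h6 : n ≤ 4 * Q ^ (l + 1) := by omega
        calc n ≤ 4 * Q ^ (l + 1) := h6
          _ ≤ Q ^ (l + 1) * Q ^ (l + 1) := Nat.mul_le_mul_right _ h5
          _ = Q ^ (2 * (l + 1)) := by rw [← pow_add]; congr 1; ring
      have hnpos : (0 : ℝ) < n := by exact_mod_cast (by omega : 0 < n)
      have h5 : Real.log n ≤ 2 * (l + 1) * Real.log Q := by
        have : Real.log n ≤ Real.log ((Q : ℝ) ^ (2 * (l + 1))) := by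
          apply Real.log_le_log hnpos
          exact_mod_cast h4
        rw [Real.log_pow] at this
        push_cast at this
        linarith
      have h6 : (n : ℝ) / 8 ≤ ((n / 4 : ℕ) : ℝ) := by
        have : n ≤ 8 * (n / 4) := by omega
        have h7 : (n : ℝ) ≤ 8 * ((n / 4 : ℕ) : ℝ) := by exact_mod_cast this
        linarith
      have h7 : ((n / 4 : ℕ) : ℝ) * ((l : ℝ) + 1) ≤ (L : ℝ) * (D n : ℝ) := by exact_mod_cast h3
      have hDn : (0 : ℝ) ≤ (D n : ℝ) := Nat.cast_nonneg _
      have h8 : (n : ℝ) / 8 * ((l : ℝ) + 1) ≤ ((L : ℝ) + 1) * (D n : ℝ) := by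
        have h9 : (n : ℝ) / 8 * ((l : ℝ) + 1) ≤ ((n / 4 : ℕ) : ℝ) * ((l : ℝ) + 1) :=
          mul_le_mul_of_nonneg_right h6 (by positivity)
        nlinarith
      have hlogn : 0 < Real.log n := Real.log_pos (by exact_mod_cast (by omega : 1 < n))
      have h1' : (D n : ℝ) ≤ c * ((n : ℝ) * Real.log n) := by
        have := h1
        rw [Real.norm_of_nonneg hDn, Real.norm_of_nonneg (by positivity)] at this
        exact this
      -- n * log n ≤ n * 2 (l+1) log Q
      have h10 : (n : ℝ) * Real.log n ≤ 16 * ((L : ℝ) + 1) * Real.log Q * (D n : ℝ) := by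
        calc (n : ℝ) * Real.log n ≤ n * (2 * (l + 1) * Real.log Q) :=
              mul_le_mul_of_nonneg_left h5 hnpos.le
          _ = 16 * Real.log Q * ((n : ℝ) / 8 * ((l : ℝ) + 1)) := by ring
          _ ≤ 16 * Real.log Q * (((L : ℝ) + 1) * (D n : ℝ)) :=
              mul_le_mul_of_nonneg_left h8 (by positivity)
          _ = _ := by ring
      have h11 : 16 * ((L : ℝ) + 1) * Real.log Q * (D n : ℝ)
          ≤ 16 * ((L : ℝ) + 1) * Real.log Q * (c * ((n : ℝ) * Real.log n)) :=
        mul_le_mul_of_nonneg_left h1' (by positivity)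
      have h12 : 16 * ((L : ℝ) + 1) * Real.log Q * (c * ((n : ℝ) * Real.log n))
          = (n : ℝ) * Real.log n / 2 := by
        rw [hc]; field_simp; ring
      have h13 : 0 < (n : ℝ) * Real.log n := by positivity
      linarith
    · push Not at hunb
      obtain ⟨K0, hK0⟩ := hunb
      obtain ⟨C, hC⟩ := length_le S hLP hT L hL
      have hbound : ∀ n, D n ≤ (C + C * K0) * n := by
        intro n
        apply hup
        intro w st hv hw
        have h1 := hC w st hv
        have h2 : ∑ b ∈ Finset.range w.length, (cs b st).length ≤ w.length * K0 := by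
          calc ∑ b ∈ Finset.range w.length, (cs b st).length
              ≤ ∑ _b ∈ Finset.range w.length, K0 :=
                Finset.sum_le_sum (fun b _ => (hK0 w st b hv).le)
            _ = w.length * K0 := by rw [Finset.sum_const, Finset.card_range, smul_eq_mul]
        calc st.length ≤ C * w.length + C * ∑ b ∈ Finset.range w.length, (cs b st).length := h1
          _ ≤ C * w.length + C * (w.length * K0) :=
            Nat.add_le_add_left (Nat.mul_le_mul_left _ h2) _
          _ = (C + C * K0) * w.length := by ring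
          _ ≤ (C + C * K0) * n := Nat.mul_le_mul_left _ hw
      apply IsBigO.of_bound ((C + C * K0 : ℕ) : ℝ)
      refine Eventually.of_forall (fun n => ?_)
      rw [Real.norm_of_nonneg (Nat.cast_nonneg _), Real.norm_of_nonneg (Nat.cast_nonneg _)]
      exact_mod_cast hbound n
  · -- lower bound
    obtain ⟨p, hp⟩ := hne
    have hpne : p.1 ≠ [] := by
      intro h0
      apply hT
      refine ⟨fun _ => [], fun i => ⟨[], [], p, hp, by simp [h0], ?_⟩⟩
      have := hLP p hp
      rw [h0] at this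
      have h2 : p.2 = [] := List.length_eq_zero_iff.mp this.symm
      simp [h2]
    have hpos : 0 < p.1.length := List.length_pos_of_ne_nil hpne
    apply IsBigO.of_bound ((2 * p.1.length : ℕ) : ℝ)
    refine eventually_atTop.mpr ⟨p.1.length, fun n hn => ?_⟩
    rw [Real.norm_of_nonneg (Nat.cast_nonneg _), Real.norm_of_nonneg (Nat.cast_nonneg _)]
    have h1 : n / p.1.length ≤ D n := by
      obtain ⟨st, h1, h2⟩ := power_chain S p hp (n / p.1.length) []
      rw [← h2]
      apply hlow n _ st h1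
      rw [List.nil_append, List.length_flatten, List.map_replicate, List.sum_replicate,
        smul_eq_mul]
      exact Nat.div_mul_le_self n _
    have h2 : 1 ≤ n / p.1.length := (Nat.one_le_div_iff hpos).mpr hn
    have h3 : n < p.1.length * (n / p.1.length + 1) := Nat.lt_mul_div_succ n hpos
    have h4 : n ≤ (2 * p.1.length) * D n := by
      calc n ≤ p.1.length * (n / p.1.length + 1) := h3.le
        _ ≤ p.1.length * (2 * (n / p.1.length)) := Nat.mul_le_mul_left _ (by omega)
        _ = 2 * p.1.length * (n / p.1.length) := by ring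
        _ ≤ _ := Nat.mul_le_mul_left _ h1
    exact_mod_cast h4

end Pool.Agent.S09960
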