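import Pool.Statements.S10038
import Pool.Agent.H21.Stat2

set_option autoImplicit false
open Pool Pool.MP_40e9ab_lc

namespace Pool.Agent.S10038

/-- The negation of the preceding statement: Any sigma-algebra on [0,1] that contains all subintervals and contains a one-point-per-part selector for every partition of [0,1] into parts of size at least two must consist of all subsets of [0,1]. -/
theorem result :
    ¬ (∀ N : Set (Set (Set.Icc (0:ℝ) 1)),
      (∀ a b : ℝ,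
        (Subtype.val : Set.Icc (0:ℝ) 1 → ℝ) ⁻¹' Set.Icc a b ∈ N ∧
        (Subtype.val : Set.Icc (0:ℝ) 1 → ℝ) ⁻¹' Set.Ico a b ∈ N ∧
        (Subtype.val : Set.Icc (0:ℝ) 1 → ℝ) ⁻¹' Set.Ioc a b ∈ N ∧
        (Subtype.val : Set.Icc (0:ℝ) 1 → ℝ) ⁻¹' Set.Ioo a b ∈ N) →
      (∀ s ∈ N, sᶜ ∈ N) →
      (∀ f : ℕ → Set (Set.Icc (0:ℝ) 1), (∀ n, f n ∈ N) → (⋃ n, f n) ∈ N) →
      (∀ P : Set (Set (Set.Icc (0:ℝ) 1)),
        P.PairwiseDisjoint id →
        ⋃₀ P = Set.univ →
        (∀ p ∈ P, ∃ x ∈ p, ∃ y ∈ p, x ≠ y) →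
        ∃ S ∈ N, ∀ p ∈ P, ∃! x, x ∈ p ∧ x ∈ S) →
      N = Set.univ) := by
  intro H
  obtain ⟨e, he⟩ := Pool.Agent.H21.Stat.exists_emb
  refine Pool.Agent.H21.Stat.NN_ne e he (H (Pool.Agent.H21.Stat.NN e) ?_
    (Pool.Agent.H21.Stat.NN_compl e) (Pool.Agent.H21.Stat.NN_union e) ?_)
  · intro a b
    exact ⟨Pool.Agent.H21.Stat.NN_meas e (measurable_subtype_coe measurableSet_Icc),
      Pool.Agent.H21.Stat.NN_meas e (measurable_subtype_coe measurableSet_Ico),
      Pool.Agent.H21.Stat.NN_meas e (measurable_subtype_coe measurableSet_Ioc),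
      Pool.Agent.H21.Stat.NN_meas e (measurable_subtype_coe measurableSet_Ioo)⟩
  · intro P hP _ h2
    exact Pool.Agent.H21.Stat.NN_selector e he P hP h2

end Pool.Agent.S10038
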