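import Pool.Statements.S10080
import Pool.Agent.Helper22.CFFinal

set_option autoImplicit false
open Pool Pool.MP_519233_lc

namespace Pool.Agent.S10080

open Pool.Agent.Helper22.CF

theorem not_cf (g : ContextFreeGrammar (Fin 4)) (hg : g.language = LL) : False := by
  classical
  have hL : ∀ w, Gen g [Symbol.nonterminal g.initial] w ↔
      InS (w.count 0) (w.count 1) (w.count 2) (w.count 3) := by
    intro w
    rw [← mem_language_iff_gen, hg, mem_LL]
  obtain ⟨R, hR2, hR⟩ : ∃ R : ℕ, 2 ≤ R ∧ ∀ r ∈ g.rules, r.output.length ≤ R :=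
    ⟨max 2 (g.rules.sup (fun r => r.output.length)), le_max_left _ _, fun r hr =>
      (Finset.le_sup (f := fun r => r.output.length) hr).trans (le_max_right _ _)⟩
  obtain ⟨V, hV⟩ : ∃ V : Finset g.NT, ∀ r ∈ g.rules, r.input ∈ V :=
    ⟨g.rules.image (fun r => r.input), fun r hr => Finset.mem_image_of_mem _ hr⟩
  obtain ⟨N, hNdef⟩ : ∃ N : ℕ, N = R ^ V.card + 1 := ⟨_, rfl⟩
  obtain ⟨n, hn⟩ : ∃ n : ℕ, n = V.card * (R * N) + (R * N + N) := ⟨_, rfl⟩
  have hN1 : 1 ≤ N := by omega
  have H : Std g R N n V :=
    { out := hR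
      inp := hV
      pump := fun ℓ A h hd hc => pump_lemma g R hR2 hR V hV ℓ A h hd (by rw [← hNdef]; exact hc)
      N1 := hN1
      n1 := by rw [hn]; exact Nat.le_add_left _ _ }
  have hnpos : 1 ≤ n := by
    rw [hn]
    omega
  have c0 : (List.replicate (8 * n) (0 : Fin 4) ++ (List.replicate n 1 ++
      (List.replicate (3 * n) 2 ++ List.replicate (3 * n - 1) 3)) ++ 3 :: List.replicate n 1).count 0
      = 8 * n := by
    simp [List.count_append, List.count_replicate]
  have c1 : (List.replicate (8 * n) (0 : Fin 4) ++ (List.replicate n 1 ++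
      (List.replicate (3 * n) 2 ++ List.replicate (3 * n - 1) 3)) ++ 3 :: List.replicate n 1).count 1
      = 2 * n := by
    simp [List.count_append, List.count_replicate]
    omega
  have c2 : (List.replicate (8 * n) (0 : Fin 4) ++ (List.replicate n 1 ++
      (List.replicate (3 * n) 2 ++ List.replicate (3 * n - 1) 3)) ++ 3 :: List.replicate n 1).count 2
      = 3 * n := by
    simp [List.count_append, List.count_replicate]
  have c3 : (List.replicate (8 * n) (0 : Fin 4) ++ (List.replicate n 1 ++
      (List.replicate (3 * n) 2 ++ List.replicate (3 * n - 1) 3)) ++ 3 :: List.replicate n 1).count 3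
      = 3 * n := by
    simp [List.count_append, List.count_replicate]
    omega
  have hmem : Gen g [Symbol.nonterminal g.initial]
      (List.replicate (8 * n) 0 ++ (List.replicate n 1 ++
      (List.replicate (3 * n) 2 ++ List.replicate (3 * n - 1) 3)) ++ 3 :: List.replicate n 1) := by
    rw [hL, c0, c1, c2, c3]
    unfold InS
    omega
  obtain ⟨m, hm⟩ := hmem
  refine spine H m g.initial (fun _ => 0) (8 * n) n ∅ hm ?_ ?_ (by omega) (Finset.empty_subset _)
    ?_ ?_
  · intro u hu
    simpa using (hL u).1 hu
  · refine ⟨?_, ?_, ?_, ?_⟩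
    · rw [c0]; rfl
    · rw [c1]; rfl
    · rw [c2]; rfl
    · rw [c3]; rfl
  · rw [Finset.card_empty, Nat.sub_zero, ← hn]
  · intro C hC
    simp at hC

/-- The negation of the preceding statement: For every k and every permutation-closed language L over k letters: L is context-free iff for each letter ordering σ, the words of L of the form a_σ(0)* a_σ(1)* ... a_σ(k-1)* form a context-free language. -/
theorem result :
    ¬ (∀ k : ℕ, ∀ L : Language (Fin k),
      (∀ w v : List (Fin k), w.Perm v → w ∈ L → v ∈ L) →
        ((∃ g : ContextFreeGrammar (Fin k), g.language = L) ↔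
          ∀ σ : Equiv.Perm (Fin k),
            ∃ g : ContextFreeGrammar (Fin k),
              ∀ w : List (Fin k),
                w ∈ g.language ↔
                  (w ∈ L ∧ List.Pairwise (fun x y => σ.symm x ≤ σ.symm y) w))) := by
  intro h
  have h4 := h 4 LL (by
    intro w v hp hw
    rw [mem_LL] at hw ⊢
    rw [← hp.count_eq, ← hp.count_eq, ← hp.count_eq, ← hp.count_eq]
    exact hw)
  obtain ⟨g, hg⟩ := h4.2 sorted_cf
  exact not_cf g hg

end Pool.Agent.S10080
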