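import Pool.Statements.S10106

set_option autoImplicit false
open Pool Pool.MP_5708a2_lc

namespace Pool.Agent.S10106

/-- Sets that are, piecewise on a finite rectangular partition, Boolean combinations of members
of `G`. -/
def Cl (G : Set (Set (ℝ × ℝ))) : Set (Set (ℝ × ℝ)) :=
  {S | ∃ (α β : Type) (_ : Finite α) (_ : Finite β) (f : ℝ → α) (g : ℝ → β)
    (φ : α → β → (G → Prop) → Prop), ∀ x y : ℝ, (x, y) ∈ S ↔
      φ (f x) (g y) (fun T => (x, y) ∈ T.1)}

theorem exists_code : ∃ c : ℝ → (ℕ → Set ℕ), Function.Surjective c := by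
  have h : Cardinal.mk (ℕ → Set ℕ) = Cardinal.mk ℝ := by
    rw [Cardinal.mk_real]
    simp
  obtain ⟨e⟩ := Cardinal.eq.1 h
  exact ⟨e.symm, e.symm.surjective⟩

/-- The negation of the preceding statement: For every countable family of subsets of the real plane there is a finite family of plane sets such that every class containing it and closed under complement, union, projections onto the axes and products of axis sets contains the whole countable family. -/
theorem result :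
    ¬ (∀ F : Set (Set (ℝ × ℝ)), F.Countable →
      ∃ G : Set (Set (ℝ × ℝ)), G.Finite ∧
        ∀ S ∈ F, ∀ C : Set (Set (ℝ × ℝ)),
          (∀ T ∈ C, Tᶜ ∈ C) →
          (∀ T ∈ C, ∀ U ∈ C, T ∪ U ∈ C) →
          (∀ T ∈ C, {p : ℝ × ℝ | p.2 = 0 ∧ ∃ y : ℝ, (p.1, y) ∈ T} ∈ C) →
          (∀ T ∈ C, {p : ℝ × ℝ | p.1 = 0 ∧ ∃ x : ℝ, (x, p.2) ∈ T} ∈ C) →
          (∀ A ∈ C, ∀ B ∈ C, A ⊆ {p : ℝ × ℝ | p.2 = 0} → B ⊆ {p : ℝ × ℝ | p.1 = 0} →
            {p : ℝ × ℝ | ((p.1, (0:ℝ)) ∈ A) ∧ (((0:ℝ), p.2) ∈ B)} ∈ C) →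
          G ⊆ C → S ∈ C) := by
  intro hall
  obtain ⟨c, hc⟩ := exists_code
  let R : ℕ → Set (ℝ × ℝ) := fun n => {p | ∃ k : ℕ, p.1 = (k : ℝ) ∧ k ∈ c p.2 n}
  obtain ⟨G, hG, hgen⟩ := hall (Set.range R) (Set.countable_range R)
  have : Finite G := hG.to_subtype
  have hmem : ∀ n, R n ∈ Cl G := by
    intro n
    refine hgen (R n) ⟨n, rfl⟩ (Cl G) ?_ ?_ ?_ ?_ ?_ ?_
    · rintro T ⟨α, β, hα, hβ, f, g, φ, h⟩
      refine ⟨α, β, hα, hβ, f, g, fun a b p => ¬ φ a b p, fun x y => ?_⟩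
      rw [Set.mem_compl_iff, h]
    · rintro T ⟨α, β, hα, hβ, f, g, φ, h⟩ U ⟨α', β', hα', hβ', f', g', φ', h'⟩
      refine ⟨α × α', β × β', inferInstance, inferInstance, fun x => (f x, f' x),
        fun y => (g y, g' y), fun a b p => φ a.1 b.1 p ∨ φ' a.2 b.2 p, fun x y => ?_⟩
      rw [Set.mem_union, h, h']
    · intro T _
      refine ⟨Prop, Prop, inferInstance, inferInstance, fun x => ∃ y, (x, y) ∈ T,
        fun y => y = 0, fun a b _ => b ∧ a, fun x y => ?_⟩
      exact Iff.rfl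
    · intro T _
      refine ⟨Prop, Prop, inferInstance, inferInstance, fun x => x = 0,
        fun y => ∃ x, (x, y) ∈ T, fun a b _ => a ∧ b, fun x y => ?_⟩
      exact Iff.rfl
    · intro A _ B _ _ _
      refine ⟨Prop, Prop, inferInstance, inferInstance, fun x => (x, (0:ℝ)) ∈ A,
        fun y => ((0:ℝ), y) ∈ B, fun a b _ => a ∧ b, fun x y => ?_⟩
      exact Iff.rfl
    · intro T hT
      exact ⟨Unit, Unit, inferInstance, inferInstance, fun _ => (), fun _ => (),
        fun _ _ p => p ⟨T, hT⟩, fun x y => Iff.rfl⟩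
  choose α β hα hβ f g φ hφ using hmem
  let M := Nat.card ((G → Prop) → Prop)
  have hFin : ∀ n : Fin (M + 1), Finite (α n) := fun n => hα n
  obtain ⟨a, ha⟩ := Finite.exists_infinite_fiber
    (fun k : ℕ => fun n : Fin (M + 1) => f n (k : ℝ))
  have hA : ((fun k : ℕ => fun n : Fin (M + 1) => f n (k : ℝ)) ⁻¹' {a}).Infinite :=
    Set.infinite_coe_iff.1 ha
  let e := hA.natEmbedding
  obtain ⟨y, hy⟩ := hc (fun n => {(e n : ℕ)})
  have hnot : ¬ Function.Injective
      (fun n : Fin (M + 1) => φ n (a n) (g n y)) := by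
    intro hinj
    have := Nat.card_le_card_of_injective _ hinj
    simp only [Nat.card_eq_fintype_card, Fintype.card_fin] at this
    omega
  rw [Function.not_injective_iff] at hnot
  obtain ⟨n, m, hnm, hne⟩ := hnot
  have key : ∀ l : Fin (M + 1), (((e n : ℕ) : ℝ), y) ∈ R l ↔
      φ l (a l) (g l y) (fun T => (((e n : ℕ) : ℝ), y) ∈ T.1) := by
    intro l
    rw [hφ]
    have h1 : (fun k : ℕ => fun n : Fin (M + 1) => f n (k : ℝ)) (e n : ℕ) = a := (e n).2
    have h2 : f l ((e n : ℕ) : ℝ) = a l := congrFun h1 l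
    rw [h2]
  have kR : ∀ l : ℕ, (((e n : ℕ) : ℝ), y) ∈ R l ↔ (e n : ℕ) = (e l : ℕ) := by
    intro l
    constructor
    · rintro ⟨k, hk, hk'⟩
      have hk0 : ((e n : ℕ) : ℝ) = (k : ℝ) := hk
      have hk1 : (e n : ℕ) = k := Nat.cast_injective hk0
      have hk2 : k ∈ c y l := hk'
      rw [hy] at hk2
      rw [hk1]
      exact hk2
    · intro h
      refine ⟨(e n : ℕ), rfl, ?_⟩
      change (e n : ℕ) ∈ c y l
      rw [hy]
      exact h
  have kn := (key n).1 ((kR n).2 rfl)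
  have hnm' : φ n (a n) (g n y) = φ m (a m) (g m y) := hnm
  rw [hnm'] at kn
  have km := (kR m).1 ((key m).2 kn)
  have : e (n : ℕ) = e (m : ℕ) := Subtype.ext km
  exact hne (Fin.ext (e.injective this))

end Pool.Agent.S10106
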