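import Pool.Statements.S10122
import Pool.Agent.Helper22.OFMain

set_option autoImplicit false
open Pool Pool.MP_5ae901_lc

namespace Pool.Agent.S10122

/-- The negation of the preceding statement: Every formally real field that has a computable presentation on ℕ also has some computable presentation on ℕ in which some field ordering (given by its positive cone) is computable. -/
theorem result :
    ¬ (∀ (F : Type) [Field F],
      (∀ (n : ℕ) (c : Fin n → F), ∑ i, c i ^ 2 = 0 → ∀ i, c i = 0) →
      (∃ e : ℕ ≃ F,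
        Computable₂ (fun a b : ℕ => e.symm (e a + e b)) ∧
        Computable₂ (fun a b : ℕ => e.symm (e a * e b)) ∧
        Computable (fun a : ℕ => e.symm (-(e a))) ∧
        Computable (fun a : ℕ => e.symm ((e a)⁻¹))) →
      ∃ e : ℕ ≃ F,
        Computable₂ (fun a b : ℕ => e.symm (e a + e b)) ∧
        Computable₂ (fun a b : ℕ => e.symm (e a * e b)) ∧
        Computable (fun a : ℕ => e.symm (-(e a))) ∧
        Computable (fun a : ℕ => e.symm ((e a)⁻¹)) ∧
        ∃ P : Set F,
          ComputablePred (fun a : ℕ => e a ∈ P) ∧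
          (0 : F) ∉ P ∧
          (∀ x y : F, x ∈ P → y ∈ P → x + y ∈ P) ∧
          (∀ x y : F, x ∈ P → y ∈ P → x * y ∈ P) ∧
          (∀ x : F, x ≠ 0 → x ∈ P ∨ -x ∈ P)) := by
  intro h
  obtain ⟨e, hadd, hmul, -, -, P, hP, h0, h1, h2, h3⟩ :=
    h (Helper22.OF.FF Helper22.OF.ev0) (by
      intro n c hc i
      have h4 : ∑ i, ((c i : Helper22.OF.FF Helper22.OF.ev0) : ℝ) ^ 2 = 0 := by
        have := congrArg (fun z : Helper22.OF.FF Helper22.OF.ev0 => (z : ℝ)) hc
        simpa using this
      have h5 := (Finset.sum_eq_zero_iff_of_nonneg (fun i _ => sq_nonneg _)).1 h4 i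
        (Finset.mem_univ i)
      apply Subtype.ext
      exact (pow_eq_zero_iff two_ne_zero).1 h5)
      (Helper22.OF.FF_pres Helper22.OF.ev0 Helper22.OF.ev0_ok Helper22.OF.prim_ev0)
  exact Helper22.OF.main e hadd hmul P hP h0 h1 h2 h3

end Pool.Agent.S10122
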