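import Pool.Statements.S10165
import Pool.Agent.Helper22.CardThm

set_option autoImplicit false
open Pool Pool.MP_655bfb_lc

namespace Pool.Agent.S10165

open Pool.Agent.Helper22.Auto Pool.Agent.Helper22.CardThm in
/-- From the device to the excluded-value function. -/
theorem run_eq_foldl {α : Type} {n k : ℕ} (step : Fin k → (Fin n → Option α) → Fin k)
    (start : Fin k) (δ : Fin k → (Fin n → Option α) → Fin k)
    (h1 : ∀ q g, (∃ j, g j ≠ none) → δ q g = step q g)
    (h2 : ∀ q g, (∀ j, g j = none) → δ q g = q)
    (w : Fin n → List α) (N : ℕ) (hN : ∀ j, (w j).length ≤ N) :
    run δ start w N = List.foldl step start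
      ((List.range (Finset.univ.sup fun j => (w j).length)).map fun i j => (w j)[i]?) := by
  set L := Finset.univ.sup fun j => (w j).length with hL
  have hLN : L ≤ N := Finset.sup_le (fun j _ => hN j)
  have hle : ∀ j, (w j).length ≤ L := fun j =>
    Finset.le_sup (f := fun j => (w j).length) (Finset.mem_univ j)
  have key1 : ∀ M, M ≤ L → run δ start w M =
      List.foldl step start ((List.range M).map fun i j => (w j)[i]?) := by
    intro M
    induction M with
    | zero => intro _; simp [run]
    | succ M ih =>
      intro hM
      rw [List.range_succ, List.map_append, List.foldl_append]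
      simp only [run, List.map_cons, List.map_nil, List.foldl_cons, List.foldl_nil]
      rw [← ih (by omega)]
      apply h1
      have hML : M < L := hM
      rw [hL, Finset.lt_sup_iff] at hML
      obtain ⟨j, -, hj⟩ := hML
      refine ⟨j, ?_⟩
      simp only [col]
      rw [List.getElem?_eq_getElem hj]
      simp
  have key2 : ∀ M, run δ start w (L + M) = run δ start w L := by
    intro M
    induction M with
    | zero => rfl
    | succ M ih =>
      rw [← Nat.add_assoc]
      simp only [run]
      rw [ih]
      apply h2
      intro j
      simp only [col]
      exact List.getElem?_eq_none ((hle j).trans (Nat.le_add_right _ _))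
  obtain ⟨M, rfl⟩ := Nat.exists_eq_add_of_le hLN
  rw [key2, key1 L le_rfl]

open Pool.Agent.Helper22.Auto Pool.Agent.Helper22.CardThm in
/-- For any finite alphabet, language A and n ≥ 1: if some finite automaton reading n words synchronously (blank-padded) always outputs a set of at most n numbers containing how many distinct input words lie in A, then A is regular. -/
theorem result :
    ∀ (α : Type) [Fintype α] (A : Language α) (n : ℕ), 1 ≤ n →
      (∃ (k : ℕ) (step : Fin k → (Fin n → Option α) → Fin k) (start : Fin k)
          (out : Fin k → Finset ℕ),
        (∀ q, (out q).card ≤ n) ∧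
        ∀ w : Fin n → List α,
          ({x : List α | ∃ j, w j = x ∧ x ∈ A}).ncard ∈
            out (List.foldl step start
              ((List.range (Finset.univ.sup fun j => (w j).length)).map
                fun i j => (w j)[i]?))) →
      ∃ (k : ℕ) (M : DFA α (Fin k)), M.accepts = A := by
  classical
  intro α _ A n _ hdev
  obtain ⟨k, step, start, out, hcard, hmem⟩ := hdev
  -- an excluded value for every state
  have hex : ∀ q, ∃ c, c ≤ n ∧ c ∉ out q := by
    intro q
    by_contra hcon
    push Not at hcon
    have hsub : Finset.range (n + 1) ⊆ out q := by
      intro c hc
      exact hcon c (by simpa [Nat.lt_succ_iff] using hc)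
    have := Finset.card_le_card hsub
    rw [Finset.card_range] at this
    exact absurd (this.trans (hcard q)) (by omega)
  choose ex hexn hexo using hex
  let e : (Fin n → List α) → ℕ := fun w => ex (List.foldl step start
      ((List.range (Finset.univ.sup fun j => (w j).length)).map fun i j => (w j)[i]?))
  apply Auto.toDFA
  refine main_auto (A := A) (e := e) (fun w => hexn _) ?_ ?_
  · intro w heq
    have h := hmem w
    have heq' : ({x : List α | ∃ j, w j = x ∧ x ∈ A}).ncard = e w := heq
    rw [heq'] at h
    exact hexo _ h
  · intro c
    refine ⟨Fin k, inferInstance,
      fun q g => if ∀ j, g j = none then q else step q g, start, {q | ex q = c}, ?_⟩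
    intro w N hN
    have h := run_eq_foldl step start (fun q g => if ∀ j, g j = none then q else step q g)
      (fun q g hg => by
        have : ¬ ∀ j, g j = none := by
          push Not
          exact hg
        simp only [this, if_false])
      (fun q g hg => by simp only [hg, implies_true, if_true]) w N hN
    simp only [Set.mem_ofPred_eq]
    rw [h]

end Pool.Agent.S10165
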