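import Pool.Statements.S10235
import Pool.Agent.Helper22.SMinPair

set_option autoImplicit false
open Pool Pool.MP_73efbe_lc

namespace Pool.Agent.S10235

open Pool.Agent.Helper22.SMinPair

/-- There are non-c.e. sets A, B of the same enumeration degree such that every set s-reducible to both A and B is c.e. -/
theorem result :
    ∃ A B : Set ℕ,
      (∃ W : Set (ℕ × List ℕ),
        (∃ f : ℕ × List ℕ →. ℕ, Partrec f ∧ ∀ p : ℕ × List ℕ, (f p).Dom ↔ p ∈ W) ∧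
        ∀ x : ℕ, x ∈ A ↔ ∃ l : List ℕ, (x, l) ∈ W ∧ ∀ y ∈ l, y ∈ B) ∧
      (∃ W : Set (ℕ × List ℕ),
        (∃ f : ℕ × List ℕ →. ℕ, Partrec f ∧ ∀ p : ℕ × List ℕ, (f p).Dom ↔ p ∈ W) ∧
        ∀ x : ℕ, x ∈ B ↔ ∃ l : List ℕ, (x, l) ∈ W ∧ ∀ y ∈ l, y ∈ A) ∧
      (¬ ∃ f : ℕ →. ℕ, Partrec f ∧ ∀ n : ℕ, (f n).Dom ↔ n ∈ A) ∧
      (¬ ∃ f : ℕ →. ℕ, Partrec f ∧ ∀ n : ℕ, (f n).Dom ↔ n ∈ B) ∧
      ∀ C : Set ℕ,
        (∃ W : Set (ℕ × ℕ),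
          (∃ f : ℕ × ℕ →. ℕ, Partrec f ∧ ∀ p : ℕ × ℕ, (f p).Dom ↔ p ∈ W) ∧
          ∀ x : ℕ, x ∈ C ↔ ∃ y ∈ A, (x, y) ∈ W) →
        (∃ W : Set (ℕ × ℕ),
          (∃ f : ℕ × ℕ →. ℕ, Partrec f ∧ ∀ p : ℕ × ℕ, (f p).Dom ↔ p ∈ W) ∧
          ∀ x : ℕ, x ∈ C ↔ ∃ y ∈ B, (x, y) ∈ W) →
        ∃ f : ℕ →. ℕ, Partrec f ∧ ∀ n : ℕ, (f n).Dom ↔ n ∈ C := by
  classical
  let U : Nat.Partrec.Code → ℕ → Set ℕ := fun c n => {y | (c.eval (Nat.pair n y)).Dom}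
  let R0 : Nat.Partrec.Code ⊕ (Nat.Partrec.Code × ℕ) ⊕ ℕ → Set ℕ := fun j =>
    match j with
    | Sum.inl c => {y | (c.eval y).Dom}
    | Sum.inr (Sum.inl (c, n)) => U c n
    | Sum.inr (Sum.inr k) => Set.Ici k
  let ι := {j : Nat.Partrec.Code ⊕ (Nat.Partrec.Code × ℕ) ⊕ ℕ // (R0 j).Infinite}
  have hι : Countable ι := inferInstance
  obtain ⟨A, h1, h2, h3, h4⟩ := generic sys (ι := ι) (fun j => R0 j.1) (fun j => j.2) U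
  have hre : ∀ b, ¬ ∃ f : ℕ →. ℕ, Partrec f ∧ ∀ n : ℕ, (f n).Dom ↔ n ∈ A b := by
    rintro b ⟨f, hf, hfA⟩
    obtain ⟨c, hc⟩ := code_of_partrec hf
    have hc' : ∀ n, (c.eval n).Dom ↔ n ∈ A b := fun n => (hc n).trans (hfA n)
    have hinf : (A b).Infinite := by
      rw [Set.infinite_iff_exists_gt]
      intro k
      obtain ⟨a, ha, haA⟩ := h2 ⟨Sum.inr (Sum.inr (k + 1)), Set.Ici_infinite (k + 1)⟩ b
      exact ⟨a, haA, ha⟩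
    have heq : R0 (Sum.inl c) = A b := by
      ext n; exact hc' n
    obtain ⟨a, ha, haA⟩ := h3 ⟨Sum.inl c, by rw [heq]; exact hinf⟩ b
    apply haA
    rw [← heq]; exact ha
  refine ⟨A false, A true, ?_, ?_, hre false, hre true, ?_⟩
  · obtain ⟨W, hW, hW2⟩ := axioms_re false
    exact ⟨W, hW, fun x => (h1 false x).trans (hW2 (A true) x)⟩
  · obtain ⟨W, hW, hW2⟩ := axioms_re true
    exact ⟨W, hW, fun x => (h1 true x).trans (hW2 (A false) x)⟩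
  · rintro C ⟨W, ⟨f, hf, hfW⟩, hCA⟩ ⟨V, ⟨g, hg, hgV⟩, hCB⟩
    obtain ⟨c, hc⟩ := code_of_partrec hf
    obtain ⟨d, hd⟩ := code_of_partrec hg
    have hcW : ∀ x y, y ∈ U c x ↔ (x, y) ∈ W := fun x y => (hc (x, y)).trans (hfW (x, y))
    have hdV : ∀ x y, y ∈ U d x ↔ (x, y) ∈ V := fun x y => (hd (x, y)).trans (hgV (x, y))
    have eA : ∀ n, n ∈ C ↔ ∃ a ∈ U c n, a ∈ A false := by
      intro n
      rw [hCA]
      constructor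
      · rintro ⟨y, hy, h⟩; exact ⟨y, (hcW n y).2 h, hy⟩
      · rintro ⟨y, hy, h⟩; exact ⟨y, h, (hcW n y).1 hy⟩
    have eB : ∀ n, n ∈ C ↔ ∃ a ∈ U d n, a ∈ A true := by
      intro n
      rw [hCB]
      constructor
      · rintro ⟨y, hy, h⟩; exact ⟨y, (hdV n y).2 h, hy⟩
      · rintro ⟨y, hy, h⟩; exact ⟨y, h, (hdV n y).1 hy⟩
    obtain ⟨G, hG, hGC⟩ := h4 c d (fun n => (eA n).symm.trans (eB n))
      (fun n hn => h2 ⟨Sum.inr (Sum.inl (d, n)), hn⟩ true)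
    obtain ⟨k, hk, hkdom⟩ := proj_re c hG.toFinset
    refine ⟨k, hk, fun n => ?_⟩
    rw [hkdom, eA, hGC]
    constructor
    · rintro ⟨y, hy, h⟩
      exact ⟨y, hy, fun hyG => h (hG.mem_toFinset.2 hyG)⟩
    · rintro ⟨y, hy, h⟩
      exact ⟨y, hy, fun hyG => h (hG.mem_toFinset.1 hyG)⟩

end Pool.Agent.S10235
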