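import Pool.Statements.S10262
import Pool.Agent.Helper22.FreeProdFinal

set_option autoImplicit false
open Pool Pool.MP_7acc36_lc

namespace Pool.Agent.S10262

/-- The negation of the preceding statement: If groups G and H are each isomorphic to the group of computable automorphisms of some computable structure, then their free product is also isomorphic to the group of computable automorphisms of some computable structure. -/
theorem result :
    ¬ (∀ (G H : Type) [Group G] [Group H],
      (∃ (d : ℕ → Bool) (r : ℕ → List ℕ → Bool), Computable d ∧ Computable₂ r ∧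
        ∃ φ : G →* Equiv.Perm ℕ, Function.Injective φ ∧
          ∀ σ : Equiv.Perm ℕ, σ ∈ φ.range ↔
            (Computable (σ : ℕ → ℕ) ∧ (∀ n, d n = false → σ n = n) ∧
              (∀ n, d n = true → d (σ n) = true) ∧
              ∀ (i : ℕ) (l : List ℕ), (∀ x ∈ l, d x = true) → r i (l.map σ) = r i l)) →
      (∃ (d : ℕ → Bool) (r : ℕ → List ℕ → Bool), Computable d ∧ Computable₂ r ∧
        ∃ φ : H →* Equiv.Perm ℕ, Function.Injective φ ∧
          ∀ σ : Equiv.Perm ℕ, σ ∈ φ.range ↔
            (Computable (σ : ℕ → ℕ) ∧ (∀ n, d n = false → σ n = n) ∧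
              (∀ n, d n = true → d (σ n) = true) ∧
              ∀ (i : ℕ) (l : List ℕ), (∀ x ∈ l, d x = true) → r i (l.map σ) = r i l)) →
      (∃ (d : ℕ → Bool) (r : ℕ → List ℕ → Bool), Computable d ∧ Computable₂ r ∧
        ∃ φ : Monoid.Coprod G H →* Equiv.Perm ℕ, Function.Injective φ ∧
          ∀ σ : Equiv.Perm ℕ, σ ∈ φ.range ↔
            (Computable (σ : ℕ → ℕ) ∧ (∀ n, d n = false → σ n = n) ∧
              (∀ n, d n = true → d (σ n) = true) ∧
              ∀ (i : ℕ) (l : List ℕ), (∀ x ∈ l, d x = true) → r i (l.map σ) = r i l))) := by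
  intro hall
  obtain ⟨d, r, -, -, φ, hinj, hran⟩ := hall Pool.Agent.Helper22.FreeProd.GP
    Pool.Agent.Helper22.FreeProd.HZ
    (Pool.Agent.Helper22.FreeProd.autc_spec _ _ _ _
      Pool.Agent.Helper22.FreeProd.primrec_DP.to_comp)
    (Pool.Agent.Helper22.FreeProd.autc_spec _ _ _ _
      Pool.Agent.Helper22.FreeProd.primrec_DZ.to_comp)
  have hund : ¬ ComputablePred fun m => Pool.Agent.Helper22.FreeProd.wG
      (Monoid.Coprod.inl Pool.Agent.Helper22.FreeProd.aG :
        Monoid.Coprod Pool.Agent.Helper22.FreeProd.GP Pool.Agent.Helper22.FreeProd.HZ)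
      (Monoid.Coprod.inl Pool.Agent.Helper22.FreeProd.bG) m = 1 := by
    intro h
    apply Pool.Agent.Helper22.FreeProd.undecidable
    refine h.of_eq fun m => ?_
    rw [Pool.Agent.Helper22.FreeProd.map_wG, ← map_one
      (Monoid.Coprod.inl : _ →* Monoid.Coprod Pool.Agent.Helper22.FreeProd.GP
        Pool.Agent.Helper22.FreeProd.HZ)]
    exact Monoid.Coprod.inl_injective.eq_iff
  obtain ⟨m, y, hm, hy⟩ := Pool.Agent.Helper22.FreeProd.exists_limit (φ := φ)
    (Monoid.Coprod.inl Pool.Agent.Helper22.FreeProd.aG)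
    (Monoid.Coprod.inl Pool.Agent.Helper22.FreeProd.bG)
    (Monoid.Coprod.inr Pool.Agent.Helper22.FreeProd.tZ) d r hinj hran hund
  have hm' : ∀ n, Pool.Agent.Helper22.FreeProd.wG Pool.Agent.Helper22.FreeProd.aG
      Pool.Agent.Helper22.FreeProd.bG (m n) ≠ 1 := by
    intro n h
    apply hm n
    rw [Pool.Agent.Helper22.FreeProd.map_wG, h, map_one]
  refine Pool.Agent.Helper22.FreeProd.no_sequence
    (Pool.Agent.Helper22.FreeProd.HZ).subtype
    (fun h i => Pool.Agent.Helper22.FreeProd.HZ_spec h i) Pool.Agent.Helper22.FreeProd.tZ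
    (by change (0 : ℤ) + 1 = 1; rfl) Pool.Agent.Helper22.FreeProd.no_torsion
    (fun n => Pool.Agent.Helper22.FreeProd.wG Pool.Agent.Helper22.FreeProd.aG
      Pool.Agent.Helper22.FreeProd.bG (m n))
    (fun n => Pool.Agent.Helper22.FreeProd.not_square (m n) (hm' n)) y ?_
  intro n
  rw [hy n, Pool.Agent.Helper22.FreeProd.map_wG]

end Pool.Agent.S10262
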