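import Pool.Statements.S10277
import Pool.Agent.Helper22.SInfinite

set_option autoImplicit false
open Pool Pool.MP_7fd859_lc

namespace Pool.Agent.S10277

/-- For every non-c.e. set A there are sets f 0, f 1, ..., each enumeration-equivalent to A, such that any two distinct ones are not singleton-enumeration-equivalent. -/
theorem result :
    ∀ A : Set ℕ, ¬ REPred (fun x : ℕ => x ∈ A) →
      ∃ f : ℕ → Set ℕ,
        (∀ i : ℕ,
          (∃ W : ℕ × List ℕ → Prop, REPred W ∧
            ∀ x : ℕ, x ∈ f i ↔ ∃ D : List ℕ, W (x, D) ∧ ∀ y ∈ D, y ∈ A) ∧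
          (∃ W : ℕ × List ℕ → Prop, REPred W ∧
            ∀ x : ℕ, x ∈ A ↔ ∃ D : List ℕ, W (x, D) ∧ ∀ y ∈ D, y ∈ f i)) ∧
        ∀ i j : ℕ, i ≠ j →
          ¬ ((∃ W : ℕ × Option ℕ → Prop, REPred W ∧
                ∀ x : ℕ, x ∈ f i ↔ ∃ o : Option ℕ, W (x, o) ∧ ∀ y ∈ o, y ∈ f j) ∧
             (∃ W : ℕ × Option ℕ → Prop, REPred W ∧
                ∀ x : ℕ, x ∈ f j ↔ ∃ o : Option ℕ, W (x, o) ∧ ∀ y ∈ o, y ∈ f i)) := by
  intro A hA
  refine ⟨Pool.Agent.Helper22.SInf.Bit A, fun i => ⟨?_, ?_⟩, fun i j hij => ?_⟩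
  · obtain ⟨W, hW, hWA⟩ := Pool.Agent.Helper22.SInf.exists_W i
    refine ⟨fun a => W (a.1, a.2.head?) ∧ a.2.length ≤ 1, ?_, fun x => ?_⟩
    · apply Pool.Agent.Helper22.REH.RE'.toRE
      refine (hW.comp (Primrec.pair Primrec.fst (Primrec.list_head?.comp Primrec.snd))).and
        (Pool.Agent.Helper22.REH.RE'.of_prim ?_)
      exact Primrec.nat_le.comp (Primrec.list_length.comp Primrec.snd) (Primrec.const 1)
    · rw [hWA A x]
      constructor
      · rintro ⟨o, ho, ho'⟩
        cases o with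
        | none => exact ⟨[], ⟨ho, by simp⟩, by simp⟩
        | some b =>
          refine ⟨[b], ⟨ho, by simp⟩, ?_⟩
          intro y hy
          rw [List.mem_singleton] at hy
          subst hy
          exact ho' y rfl
      · rintro ⟨D, ⟨hD, hD1⟩, hD2⟩
        refine ⟨D.head?, hD, ?_⟩
        intro y hy
        exact hD2 y (List.mem_of_mem_head? hy)
  · refine ⟨fun a => a.2 = Pool.Agent.Helper22.SInf.gl i a.1, ?_, fun x => ?_⟩
    · apply Pool.Agent.Helper22.REH.RE'.toRE
      apply Pool.Agent.Helper22.REH.RE'.of_prim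
      exact Primrec.eq.comp Primrec.snd
        ((Pool.Agent.Helper22.SInf.primrec_gl i).comp Primrec.fst)
    · rw [Pool.Agent.Helper22.SInf.gl_spec A i x]
      constructor
      · intro h
        exact ⟨_, rfl, h⟩
      · rintro ⟨D, hD, h⟩
        have hD' : D = Pool.Agent.Helper22.SInf.gl i x := hD
        rw [← hD']
        exact h
  · rintro ⟨h1, h2⟩
    rcases lt_or_gt_of_ne hij with h | h
    · exact Pool.Agent.Helper22.SInf.Bit_not_SRed A hA i j h h1
    · exact Pool.Agent.Helper22.SInf.Bit_not_SRed A hA j i h h2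

end Pool.Agent.S10277
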