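import Pool.Statements.S10340

set_option autoImplicit false
open Pool Pool.MP_908db9_lc

namespace Pool.Agent.S10340

open Filter Topology NNReal

/-- The exponential, as a map to nonnegative reals. -/
noncomputable def ex (r : ℝ) : ℝ≥0 := ⟨Real.exp r, (Real.exp_pos r).le⟩

theorem ex_cont : Continuous ex := by
  unfold ex
  exact Continuous.subtype_mk Real.continuous_exp _

theorem ex_coe (r : ℝ) : ((ex r : ℝ≥0) : ℝ) = Real.exp r := rfl

theorem ex_add (r s : ℝ) : ex (r + s) = ex r * ex s := by
  apply NNReal.eq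
  rw [NNReal.coe_mul, ex_coe, ex_coe, ex_coe, Real.exp_add]

theorem ex_zero : ex 0 = 1 := by
  apply NNReal.eq
  rw [ex_coe, Real.exp_zero, NNReal.coe_one]

abbrev G := Multiplicative (ℕ → ℝ)

noncomputable def act (g : G) (y : ℕ → ℝ≥0) : ℕ → ℝ≥0 := fun n => ex (Multiplicative.toAdd g n) * y n

abbrev X := {y : ℕ → ℝ≥0 // y ≠ 1}

def A : Set X := {x | ∃ n, x.1 n = 0}

theorem act_zero (g : G) (y : ℕ → ℝ≥0) (n : ℕ) (h : y n = 0) : act g y n = 0 := by
  simp [act, h]

theorem ne_one_of_zero (y : ℕ → ℝ≥0) (h : ∃ n, y n = 0) : y ≠ 1 := by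
  rintro rfl
  obtain ⟨n, hn⟩ := h
  simp at hn

noncomputable def a (g : G) (x : A) : A :=
  ⟨⟨act g x.1.1, ne_one_of_zero _ (by obtain ⟨n, hn⟩ := x.2; exact ⟨n, act_zero _ _ _ hn⟩)⟩,
    by obtain ⟨n, hn⟩ := x.2; exact ⟨n, act_zero _ _ _ hn⟩⟩

theorem act_cont : Continuous (fun p : G × (ℕ → ℝ≥0) => act p.1 p.2) := by
  unfold act
  apply continuous_pi
  intro n
  apply Continuous.mul
  · apply ex_cont.comp
    exact (continuous_apply n).comp (continuous_toAdd.comp continuous_fst)
  · exact (continuous_apply n).comp continuous_snd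

instance polG : PolishSpace G := inferInstanceAs (PolishSpace (ℕ → ℝ))

instance polX : PolishSpace X := by
  have : IsOpen {y : ℕ → ℝ≥0 | y ≠ 1} := isOpen_ne
  exact this.polishSpace

/-- set coordinate `k` to zero -/
noncomputable def app (x : X) (k : ℕ) : X :=
  ⟨Function.update x.1 k 0, ne_one_of_zero _ ⟨k, by simp⟩⟩

theorem app_mem (x : X) (k : ℕ) : app x k ∈ A := ⟨k, by simp [app]⟩

theorem app_tendsto (x : X) : Tendsto (app x) atTop (𝓝 x) := by
  rw [tendsto_subtype_rng, tendsto_pi_nhds]
  intro n
  apply tendsto_const_nhds.congr'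
  filter_upwards [eventually_gt_atTop n] with k hk
  simp [app, Function.update_of_ne (ne_of_lt hk)]

/-- replace zero coordinates by small numbers -/
noncomputable def app2 (x : X) (k : ℕ) : X :=
  ⟨fun n => if x.1 n = 0 then 1 / ((k : ℝ≥0) + 2) else x.1 n, by
    intro h
    by_cases hx : ∃ n, x.1 n = 0
    · obtain ⟨n, hn⟩ := hx
      have := congrFun h n
      simp [hn] at this
      have h2 : ((k : ℝ≥0) + 2) = 1 := by
        exact this
      have h3 : (1 : ℝ≥0) < (k : ℝ≥0) + 2 := by
        calc (1 : ℝ≥0) < 2 := by norm_num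
          _ ≤ (k : ℝ≥0) + 2 := by simp
      exact absurd h2 (ne_of_gt h3)
    · push Not at hx
      apply x.2
      have h2 : (fun n => if x.1 n = 0 then 1 / ((k : ℝ≥0) + 2) else x.1 n) = x.1 := by
        funext n
        simp [hx n]
      exact h2.symm.trans h⟩

theorem app2_mem (x : X) (k : ℕ) (n : ℕ) : (app2 x k).1 n ≠ 0 := by
  simp only [app2]
  split_ifs with h
  · positivity
  · exact h

theorem app2_tendsto (x : X) : Tendsto (app2 x) atTop (𝓝 x) := by
  rw [tendsto_subtype_rng, tendsto_pi_nhds]
  intro n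
  by_cases h : x.1 n = 0
  · have : (fun k => (app2 x k).1 n) = fun k : ℕ => 1 / ((k : ℝ≥0) + 2) := by
      funext k
      simp [app2, h]
    rw [this, h]
    rw [← NNReal.tendsto_coe]
    push_cast
    have h1 : Tendsto (fun k : ℕ => (k : ℝ) + 2) atTop atTop :=
      tendsto_atTop_add_const_right _ _ tendsto_natCast_atTop_atTop
    have h2 := h1.inv_tendsto_atTop
    simp only [one_div]
    exact h2
  · have : (fun k => (app2 x k).1 n) = fun k : ℕ => x.1 n := by
      funext k
      simp [app2, h]
    rw [this]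
    exact tendsto_const_nhds

theorem result :
    ¬ (∀ (G : Type) [TopologicalSpace G] [Group G] [IsTopologicalGroup G] [PolishSpace G]
      (X : Type) [TopologicalSpace X] [PolishSpace X]
      (A : Set X) (a : G → A → A),
      Continuous (fun p : G × A => a p.1 p.2) →
      (∀ x : A, a 1 x = x) →
      (∀ (g h : G) (x : A), a g (a h x) = a (g * h) x) →
      ∃ B : Set X, IsGδ B ∧ A ⊆ B ∧
        ∃ b : G → B → B,
          Continuous (fun p : G × B => b p.1 p.2) ∧
          (∀ x : B, b 1 x = x) ∧
          (∀ (g h : G) (x : B), b g (b h x) = b (g * h) x) ∧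
          (∀ (g : G) (x : B) (hx : (x : X) ∈ A),
            ((b g x : B) : X) = ((a g ⟨(x : X), hx⟩ : A) : X))) := by
  intro H
  obtain ⟨B, hB, hAB, b, bc, b1, bm, bext⟩ := H G X A a
    (by
      apply Continuous.subtype_mk
      apply Continuous.subtype_mk
      exact act_cont.comp (continuous_fst.prodMk
        (continuous_subtype_val.comp (continuous_subtype_val.comp continuous_snd))))
    (by
      intro x
      apply Subtype.ext
      apply Subtype.ext
      funext n
      simp [a, act, ex_zero])
    (by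
      intro g h x
      apply Subtype.ext
      apply Subtype.ext
      funext n
      simp [a, act, ex_add, mul_assoc])
  -- the extension is given by the formula
  have key : ∀ (g : G) (x : B), ((b g x : B) : X).1 = act g x.1.1 := by
    intro g x
    let s : ℕ → B := fun k => ⟨app x.1 k, hAB (app_mem _ _)⟩
    have hs : Tendsto s atTop (𝓝 x) := by
      rw [tendsto_subtype_rng]
      exact app_tendsto x.1
    have h1 : Tendsto (fun k => ((b g (s k) : B) : X).1) atTop (𝓝 ((b g x : B) : X).1) := by
      have hc : Continuous (fun y : B => ((b g y : B) : X).1) :=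
        continuous_subtype_val.comp (continuous_subtype_val.comp
          (bc.comp (Continuous.prodMk_right g)))
      exact (hc.tendsto x).comp hs
    have h2 : Tendsto (fun k => act g (app x.1 k).1) atTop (𝓝 (act g x.1.1)) := by
      have hc : Continuous (fun y : X => act g y.1) :=
        act_cont.comp (continuous_const.prodMk continuous_subtype_val)
      exact (hc.tendsto x.1).comp (app_tendsto x.1)
    have h3 : (fun k => ((b g (s k) : B) : X).1) = fun k => act g (app x.1 k).1 := by
      funext k
      have := bext g (s k) (app_mem _ _)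
      rw [this]
      rfl
    rw [h3] at h1
    exact tendsto_nhds_unique h1 h2
  have hBA : B ⊆ A := by
    intro x hx
    by_contra hcon
    have hne : ∀ n, x.1 n ≠ 0 := by
      intro n hn
      exact hcon ⟨n, hn⟩
    let g : G := Multiplicative.ofAdd (fun n => - Real.log (x.1 n))
    have h1 := key g ⟨x, hx⟩
    have h2 : act g x.1 = 1 := by
      funext n
      apply NNReal.eq
      have hpos : (0 : ℝ) < x.1 n := by
        have := (hne n)
        exact_mod_cast pos_iff_ne_zero.mpr this
      show ((ex (- Real.log (x.1 n)) * x.1 n : ℝ≥0) : ℝ) = ((1 : ℝ≥0) : ℝ)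
      rw [NNReal.coe_mul, ex_coe, Real.exp_neg, Real.exp_log hpos, NNReal.coe_one]
      exact inv_mul_cancel₀ hpos.ne'
    exact ((b g ⟨x, hx⟩ : B) : X).2 (h1.trans h2)
  have hEq : B = A := Set.Subset.antisymm hBA hAB
  rw [hEq] at hB
  have hAd : Dense A := by
    intro x
    rw [mem_closure_iff_seq_limit]
    exact ⟨app x, app_mem x, app_tendsto x⟩
  let C : Set X := ⋂ n : ℕ, {x : X | x.1 n ≠ 0}
  have hC : IsGδ C := by
    apply IsGδ.iInter_of_isOpen
    intro n
    exact isOpen_ne_fun ((continuous_apply n).comp continuous_subtype_val) continuous_const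
  have hCd : Dense C := by
    intro x
    rw [mem_closure_iff_seq_limit]
    exact ⟨app2 x, fun k => Set.mem_iInter.mpr (fun n => app2_mem x k n), app2_tendsto x⟩
  have hd := Dense.inter_of_Gδ hB hC hAd hCd
  have hne : (A ∩ C).Nonempty := by
    have : Nonempty X := ⟨⟨0, by intro h; have := congrFun h 0; simp at this⟩⟩
    exact hd.nonempty
  obtain ⟨x, ⟨n, hn⟩, hx⟩ := hne
  exact (Set.mem_iInter.mp hx n) hn

end Pool.Agent.S10340
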