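import Pool.Statements.S10539
import Pool.Agent.H24.PZ

set_option autoImplicit false
open Pool Pool.MP_c39e9e_lc

namespace Pool.Agent.S10539

/-- There is a family of ideals on the subsets of ℤ, indexed by a set of size 2^continuum, such that for distinct indices the quotient Boolean algebras P(ℤ)/I are not isomorphic. -/
theorem result :
    ∃ F : Set (Set ℕ) → Order.Ideal (Set ℤ),
      ∀ a b : Set (Set ℕ), a ≠ b →
        ¬ ∃ f : Set ℤ → Set ℤ,
          (∀ A B : Set ℤ, symmDiff A B ∈ F a ↔ symmDiff (f A) (f B) ∈ F b) ∧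
          (∀ C : Set ℤ, ∃ A : Set ℤ, symmDiff (f A) C ∈ F b) ∧
          (∀ A B : Set ℤ, symmDiff (f (A ∩ B)) (f A ∩ f B) ∈ F b) ∧
          (∀ A : Set ℤ, symmDiff (f Aᶜ) (f A)ᶜ ∈ F b) := by
  exact Pool.Agent.H24.PZ.main

end Pool.Agent.S10539
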