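import Pool.Statements.S10674
import Pool.Agent.H24.TreeB

set_option autoImplicit false
open Pool Pool.MP_e29ee7_lc

namespace Pool.Agent.S10674

/-- The negation of the preceding statement: Let T be a tree that is a countable union of chains. Order its maximal chains by order-embeddability. Then every maximal linearly ordered family of such chains has a countable cofinal subfamily: every member embeds into one of countably many members. -/
theorem result :
    ¬ (∀ (T : Type) [PartialOrder T],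
      (∀ x : T, IsChain (· ≤ ·) {y : T | y < x}) →
      (∃ f : ℕ → Set T, (∀ n, IsChain (· ≤ ·) (f n)) ∧ (⋃ n, f n) = Set.univ) →
      ∀ S : Set (Set T),
        (∀ c ∈ S, IsMaxChain (· ≤ ·) c) →
        IsChain (fun c d : Set T => Nonempty (↥c ↪o ↥d)) S →
        (∀ U : Set (Set T), (∀ c ∈ U, IsMaxChain (· ≤ ·) c) →
            IsChain (fun c d : Set T => Nonempty (↥c ↪o ↥d)) U → S ⊆ U → U = S) →
        ∃ D : Set (Set T), D ⊆ S ∧ D.Countable ∧
          ∀ c ∈ S, ∃ d ∈ D, Nonempty (↥c ↪o ↥d)) := by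
  classical
  intro H
  obtain ⟨R, hR, hR2⟩ := Pool.Agent.H24.TreeChains.exists_R
  -- the tree
  have hT1 : ∀ x : Pool.Agent.H24.TreeChains.T R, IsChain (· ≤ ·)
      {y : Pool.Agent.H24.TreeChains.T R | y < x} := by
    intro x p hp q hq _
    have hp' : p ≤ x := le_of_lt hp
    have hq' : q ≤ x := le_of_lt hq
    exact Pool.Agent.H24.TreeChains.cmp' (List.suffix_or_suffix_of_suffix hp'.1 hq'.1)
  have hT2 : ∃ f : ℕ → Set (Pool.Agent.H24.TreeChains.T R), (∀ n, IsChain (· ≤ ·) (f n)) ∧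
      (⋃ n, f n) = Set.univ := by
    refine ⟨fun n => {p | Encodable.encode p.s = n}, ?_, ?_⟩
    · intro n p hp q hq _
      have h1 : Encodable.encode p.s = Encodable.encode q.s := Eq.trans hp (Eq.symm hq)
      have h2 : p.s = q.s := Encodable.encode_injective h1
      exact Pool.Agent.H24.TreeChains.cmp' (Or.inl (h2 ▸ List.suffix_refl _))
    · ext p
      simp
  -- the maximal chain of branches
  let C := {c : Set (Pool.Agent.H24.TreeChains.T R) // IsMaxChain (· ≤ ·) c}
  obtain ⟨M, hM, -⟩ := (IsChain.empty (r := fun c d : C => Nonempty (↥c.1 ↪o ↥d.1))).exists_maxChain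
  obtain ⟨D, hDS, hDc, hDcof⟩ := H (Pool.Agent.H24.TreeChains.T R) hT1 hT2 (Subtype.val '' M)
    (by
      rintro c ⟨c', hc', rfl⟩
      exact c'.2)
    (by
      rintro c ⟨c', hc', rfl⟩ d ⟨d', hd', rfl⟩ hne
      exact hM.1 hc' hd' (fun h => hne (by rw [h])))
    (by
      intro U hU1 hU2 hU3
      have hchain : IsChain (fun c d : C => Nonempty (↥c.1 ↪o ↥d.1)) {c : C | c.1 ∈ U} := by
        intro c hc d hd hne
        exact hU2 hc hd (fun h => hne (Subtype.ext h))
      have hsub : M ⊆ {c : C | c.1 ∈ U} := fun c hc => hU3 ⟨c, hc, rfl⟩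
      have heq := hM.2 hchain hsub
      apply Set.Subset.antisymm
      · intro c hc
        have h1 : (⟨c, hU1 c hc⟩ : C) ∈ {c : C | c.1 ∈ U} := hc
        rw [← heq] at h1
        exact ⟨_, h1, rfl⟩
      · exact hU3)
  -- the family is nonempty
  have hMne : M.Nonempty := by
    by_contra hc
    rw [Set.not_nonempty_iff_eq_empty] at hc
    have h1 : IsChain (fun c d : C => Nonempty (↥c.1 ↪o ↥d.1))
        ({⟨Pool.Agent.H24.TreeChains.B (fun _ => 0),
          Pool.Agent.H24.TreeChains.B_max hR (fun _ => 0)⟩} : Set C) := by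
      intro c hc d hd hne
      rw [Set.mem_singleton_iff] at hc hd
      exact absurd (hc.trans hd.symm) hne
    have h2 := hM.2 h1 (by rw [hc]; exact Set.empty_subset _)
    rw [hc] at h2
    exact Set.singleton_ne_empty _ h2.symm
  have hDne : D.Nonempty := by
    obtain ⟨c, hc⟩ := hMne
    obtain ⟨d, hd, -⟩ := hDcof c.1 ⟨c, hc, rfl⟩
    exact ⟨d, hd⟩
  obtain ⟨d, hd⟩ := hDc.exists_eq_range hDne
  have hdm : ∀ i, IsMaxChain (· ≤ ·) (d i) := by
    intro i
    have h1 : d i ∈ D := by rw [hd]; exact ⟨i, rfl⟩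
    obtain ⟨c, -, hc2⟩ := hDS h1
    rw [← hc2]
    exact c.2
  choose f hf using fun i => Pool.Agent.H24.TreeChains.max_eq hR (d i) (hdm i)
  -- a dominating function
  obtain ⟨g, hg⟩ : ∃ g : ℕ → ℕ, ∀ i n, i ≤ n → f i n < g n := by
    refine ⟨fun n => 1 + ∑ i ∈ Finset.range (n+1), f i n, fun i n hin => ?_⟩
    have h1 : f i n ≤ ∑ i ∈ Finset.range (n+1), f i n :=
      Finset.single_le_sum (f := fun i => f i n) (fun i _ => Nat.zero_le _)
        (Finset.mem_range.2 (by omega))
    change f i n < 1 + ∑ i ∈ Finset.range (n+1), f i n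
    omega
  have hB := Pool.Agent.H24.TreeChains.B_max hR g
  have hup : ∀ i, Nonempty (↥(d i) ↪o
      ↥(Pool.Agent.H24.TreeChains.B g : Set (Pool.Agent.H24.TreeChains.T R))) := by
    intro i
    rw [hf i]
    exact Pool.Agent.H24.TreeChains.emb (f i) g i (fun n hn => (hg i n hn).le)
  have hdown : ∀ i, ¬ Nonempty (
      ↥(Pool.Agent.H24.TreeChains.B g : Set (Pool.Agent.H24.TreeChains.T R)) ↪o ↥(d i)) := by
    intro i
    rw [hf i]
    rintro ⟨φ⟩
    exact Pool.Agent.H24.TreeChains.no_emb hR hR2 (f i) g i (fun n hn => hg i n hn) φ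
  -- adding the new branch
  have hall : ∀ c ∈ M, Nonempty (↥c.1 ↪o
      ↥(Pool.Agent.H24.TreeChains.B g : Set (Pool.Agent.H24.TreeChains.T R))) := by
    intro c hc
    obtain ⟨e, he, ⟨φ⟩⟩ := hDcof c.1 ⟨c, hc, rfl⟩
    rw [hd] at he
    obtain ⟨i, rfl⟩ := he
    obtain ⟨ψ⟩ := hup i
    exact ⟨φ.trans ψ⟩
  have hch : IsChain (fun c d : C => Nonempty (↥c.1 ↪o ↥d.1))
      (insert (⟨Pool.Agent.H24.TreeChains.B g, hB⟩ : C) M) := by
    apply hM.1.insert
    intro c hc _
    right
    exact hall c hc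
  have heq := hM.2 hch (Set.subset_insert _ _)
  have hmem : (⟨Pool.Agent.H24.TreeChains.B g, hB⟩ : C) ∈ M := by
    rw [heq]
    exact Set.mem_insert _ _
  obtain ⟨e, he, hφ⟩ := hDcof _ ⟨_, hmem, rfl⟩
  rw [hd] at he
  obtain ⟨i, rfl⟩ := he
  exact hdown i hφ

end Pool.Agent.S10674
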