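import Pool.Statements.S10961
-- import your own Pool.Agent.* helpers here

set_option autoImplicit false
open Filter
open Pool Pool.MP_0c8f06_nt

namespace Pool.Agent.S10961

lemma s3 : (1.7 : ℝ) < Real.sqrt 3 ∧ Real.sqrt 3 < 2 := by
  constructor
  · rw [Real.lt_sqrt (by norm_num)]; norm_num
  · rw [Real.sqrt_lt' (by norm_num)]; norm_num

lemma s33 : Real.sqrt 3 * Real.sqrt 3 = 3 := Real.mul_self_sqrt (by norm_num)

section
variable (f : ℕ → ℕ) (hf : ∀ n : ℕ, f n = if n % 3 = 0 then n / 3 else ⌊(n : ℝ) * Real.sqrt 3⌋₊)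
include hf

lemma f_div {n : ℕ} (h : n % 3 = 0) : f n = n / 3 := by rw [hf, if_pos h]

lemma f_floor {n : ℕ} (h : n % 3 ≠ 0) :
    (f n : ℝ) ≤ n * Real.sqrt 3 ∧ (n : ℝ) * Real.sqrt 3 < f n + 1 := by
  rw [hf, if_neg h]
  exact ⟨Nat.floor_le (by positivity), Nat.lt_floor_add_one _⟩

lemma step {x : ℕ} (h2 : 2 ≤ x) (h3 : x % 3 ≠ 0) (h4 : (f x) % 3 ≠ 0) :
    x < f x ∧ (f (f x)) % 3 ≠ 0 := by
  obtain ⟨a1, a2⟩ := f_floor f hf h3
  obtain ⟨b1, b2⟩ := f_floor f hf h4
  obtain ⟨s1, s2⟩ := s3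
  have s4 := s33
  have hx : (2 : ℝ) ≤ x := by exact_mod_cast h2
  constructor
  · have : (x : ℝ) < f x + 0.0001 + 0.0 := by nlinarith
    have h5 : (x : ℝ) + 1.4 < f x + 1 := by nlinarith
    have h6 : (x : ℝ) < f x := by linarith
    exact_mod_cast h6
  · set m := f x
    -- m sqrt 3 < 3x
    have hm : (m : ℝ) * Real.sqrt 3 < 3 * x := by
      rcases lt_or_eq_of_le a1 with h | h
      · nlinarith
      · exfalso
        have h5 : (m : ℝ) * m = 3 * (x * x) := by
          rw [h]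
          linear_combination ((x : ℝ) * x) * s4
        have h6 : m * m = 3 * (x * x) := by exact_mod_cast h5
        have h7 : 3 ∣ m := by
          have : 3 ∣ m * m := ⟨x * x, h6⟩
          rcases (Nat.Prime.dvd_mul Nat.prime_three).1 this with h | h <;> exact h
        omega
    have hm2 : (3 : ℝ) * x - 2 < m * Real.sqrt 3 := by
      nlinarith
    have h5 : (f m : ℝ) < 3 * x := by linarith
    have h6 : (3 : ℝ) * x < f m + 3 := by linarith
    have h5' : f m < 3 * x := by exact_mod_cast h5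
    have h6' : 3 * x < f m + 3 := by exact_mod_cast h6
    omega

lemma diverges {n : ℕ} (h2 : 2 ≤ n) (h3 : n % 3 ≠ 0) (h4 : (f n) % 3 ≠ 0) :
    Tendsto (fun k : ℕ => f^[k] n) atTop atTop := by
  have inv : ∀ k : ℕ, 2 ≤ f^[k] n ∧ (f^[k] n) % 3 ≠ 0 ∧ (f (f^[k] n)) % 3 ≠ 0 := by
    intro k
    induction k with
    | zero => exact ⟨h2, h3, h4⟩
    | succ k ih =>
      rw [Function.iterate_succ_apply']
      obtain ⟨i1, i2, i3⟩ := ih
      have := step f hf i1 i2 i3
      exact ⟨by omega, i3, this.2⟩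
  apply StrictMono.tendsto_atTop
  apply strictMono_nat_of_lt_succ
  intro k
  rw [Function.iterate_succ_apply']
  obtain ⟨i1, i2, i3⟩ := inv k
  exact (step f hf i1 i2 i3).1

omit hf in
lemma back {n : ℕ} (h : Tendsto (fun k : ℕ => f^[k] (f n)) atTop atTop) :
    Tendsto (fun k : ℕ => f^[k] n) atTop atTop := by
  rw [← tendsto_add_atTop_iff_nat 1]
  simpa [Function.iterate_succ_apply] using h

open Classical in
/-- nondivergent points up to real x -/
noncomputable def E (x : ℝ) : Finset ℕ :=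
  (Finset.Icc 1 ⌊x⌋₊).filter (fun n => ¬ Tendsto (fun k : ℕ => f^[k] n) atTop atTop)

omit hf in
lemma mem_E {x : ℝ} (hx : 0 ≤ x) {n : ℕ} : n ∈ E f x ↔ 1 ≤ n ∧ (n : ℝ) ≤ x ∧
    ¬ Tendsto (fun k : ℕ => f^[k] n) atTop atTop := by
  classical
  unfold E
  rw [Finset.mem_filter, Finset.mem_Icc, Nat.le_floor_iff hx, and_assoc]

lemma E_rec (x : ℝ) (hx : 0 ≤ x) :
    (E f x).card ≤ 1 + (E f (x / Real.sqrt 3)).card + (E f (x / 3)).card := by
  classical
  obtain ⟨s1, s2⟩ := s3
  have s4 := s33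
  have hs0 : 0 < Real.sqrt 3 := by linarith
  have hsub : E f x ⊆ ({1} ∪ (E f x).filter (fun n => n % 3 ≠ 0 ∧ 2 ≤ n)) ∪ (E f x).filter (fun n => n % 3 = 0) := by
    intro n hn
    have h1 := (mem_E f hx).1 hn
    rw [Finset.mem_union, Finset.mem_union, Finset.mem_filter, Finset.mem_filter, Finset.mem_singleton]
    by_cases h : n % 3 = 0
    · exact Or.inr ⟨hn, h⟩
    · left
      by_cases h2 : n = 1
      · exact Or.inl h2
      · exact Or.inr ⟨hn, h, by omega⟩
  have c1 : ((E f x).filter (fun n => n % 3 ≠ 0 ∧ 2 ≤ n)).card ≤ (E f (x / Real.sqrt 3)).card := by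
    apply Finset.card_le_card_of_injOn (fun n => f n / 3)
    · intro n hn
      rw [Finset.mem_coe, Finset.mem_filter] at hn
      obtain ⟨h1, h2, h3⟩ := hn
      obtain ⟨h4, h5, h6⟩ := (mem_E f hx).1 h1
      rw [Finset.mem_coe, mem_E f (by positivity)]
      have h7 : (f n) % 3 = 0 := by
        by_contra h
        exact h6 (diverges f hf h3 h2 h)
      obtain ⟨a1, a2⟩ := f_floor f hf h2
      have hn2 : (2 : ℝ) ≤ n := by exact_mod_cast h3
      have h8 : (1 : ℝ) < f n := by nlinarith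
      have h8' : 1 < f n := by exact_mod_cast h8
      beta_reduce
      refine ⟨by omega, ?_, ?_⟩
      · have h9 : 3 * (f n / 3) = f n := by omega
        have h10 : (3 : ℝ) * ((f n / 3 : ℕ) : ℝ) = f n := by exact_mod_cast h9
        rw [le_div_iff₀ hs0]
        nlinarith
      · intro h
        apply h6
        apply back f
        apply back f
        rw [f_div f hf h7]
        exact h
    · intro n hn m hm hnm
      rw [Finset.mem_coe, Finset.mem_filter] at hn hm
      obtain ⟨h1, h2, h3⟩ := hn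
      obtain ⟨h4, h5, h6⟩ := (mem_E f hx).1 h1
      obtain ⟨k1, k2, k3⟩ := hm
      obtain ⟨k4, k5, k6⟩ := (mem_E f hx).1 k1
      have h7 : (f n) % 3 = 0 := by
        by_contra h
        exact h6 (diverges f hf h3 h2 h)
      have k7 : (f m) % 3 = 0 := by
        by_contra h
        exact k6 (diverges f hf k3 k2 h)
      beta_reduce at hnm
      have h8 : f n = f m := by omega
      obtain ⟨a1, a2⟩ := f_floor f hf h2
      obtain ⟨b1, b2⟩ := f_floor f hf k2
      rw [← h8] at b1 b2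
      rcases lt_trichotomy n m with h | h | h
      · exfalso
        have : (n : ℝ) + 1 ≤ m := by exact_mod_cast h
        nlinarith
      · exact h
      · exfalso
        have : (m : ℝ) + 1 ≤ n := by exact_mod_cast h
        nlinarith
  have c2 : ((E f x).filter (fun n => n % 3 = 0)).card ≤ (E f (x / 3)).card := by
    apply Finset.card_le_card_of_injOn (fun n => n / 3)
    · intro n hn
      rw [Finset.mem_coe, Finset.mem_filter] at hn
      obtain ⟨h1, h2⟩ := hn
      obtain ⟨h4, h5, h6⟩ := (mem_E f hx).1 h1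
      rw [Finset.mem_coe, mem_E f (by positivity)]
      beta_reduce
      refine ⟨by omega, ?_, ?_⟩
      · have h9 : 3 * (n / 3) = n := by omega
        have h10 : (3 : ℝ) * ((n / 3 : ℕ) : ℝ) = n := by exact_mod_cast h9
        rw [le_div_iff₀ (by norm_num)]
        linarith
      · intro h
        apply h6
        apply back f
        rw [f_div f hf h2]
        exact h
    · intro n hn m hm hnm
      rw [Finset.mem_coe, Finset.mem_filter] at hn hm
      beta_reduce at hnm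
      omega
  calc (E f x).card ≤ _ := Finset.card_le_card hsub
    _ ≤ _ := Finset.card_union_le _ _
    _ ≤ (({1} : Finset ℕ).card + ((E f x).filter (fun n => n % 3 ≠ 0 ∧ 2 ≤ n)).card) +
        ((E f x).filter (fun n => n % 3 = 0)).card :=
        Nat.add_le_add_right (Finset.card_union_le _ _) _
    _ ≤ _ := by rw [Finset.card_singleton]; omega

lemma a_bound (k : ℕ) : ((E f (Real.sqrt 3 ^ k)).card : ℝ) + 1 ≤ 2 * (5 / 3 : ℝ) ^ k ∧
    ((E f (Real.sqrt 3 ^ (k + 1))).card : ℝ) + 1 ≤ 2 * (5 / 3 : ℝ) ^ (k + 1) := by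
  obtain ⟨s1, s2⟩ := s3
  have s4 := s33
  have hs0 : 0 < Real.sqrt 3 := by linarith
  have small : ∀ x : ℝ, 0 ≤ x → x < 2 → ((E f x).card : ℝ) ≤ 1 := by
    intro x hx0 hx
    have : E f x ⊆ {1} := by
      intro n hn
      have h1 := (mem_E f hx0).1 hn
      rw [Finset.mem_singleton]
      have : (n : ℝ) < 2 := by linarith [h1.2.1]
      have : n < 2 := by exact_mod_cast this
      omega
    have := Finset.card_le_card this
    rw [Finset.card_singleton] at this
    exact_mod_cast this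
  induction k with
  | zero =>
    constructor
    · have := small (Real.sqrt 3 ^ 0) (by positivity) (by norm_num)
      rw [pow_zero (5 / 3 : ℝ)]
      linarith
    · have := small (Real.sqrt 3 ^ (0 + 1)) (by positivity) (by simpa using s2)
      have e : (5 / 3 : ℝ) ^ (0 + 1) = 5 / 3 := by norm_num
      rw [e]
      linarith
  | succ k ih =>
    refine ⟨ih.2, ?_⟩
    have h := E_rec f hf (Real.sqrt 3 ^ (k + 1 + 1)) (by positivity)
    have e1 : Real.sqrt 3 ^ (k + 1 + 1) / Real.sqrt 3 = Real.sqrt 3 ^ (k + 1) := by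
      rw [pow_succ]; field_simp
    have e2 : Real.sqrt 3 ^ (k + 1 + 1) / 3 = Real.sqrt 3 ^ k := by
      rw [pow_succ, pow_succ, mul_assoc, s4]; field_simp
    rw [e1, e2] at h
    have h' : ((E f (Real.sqrt 3 ^ (k + 1 + 1))).card : ℝ) ≤
        1 + ((E f (Real.sqrt 3 ^ (k + 1))).card : ℝ) + ((E f (Real.sqrt 3 ^ k)).card : ℝ) := by
      exact_mod_cast h
    have h5 : (0 : ℝ) < (5 / 3 : ℝ) ^ k := by positivity
    have e3 : (5 / 3 : ℝ) ^ (k + 1 + 1) = (25 / 9) * (5 / 3 : ℝ) ^ k := by ring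
    have e4 : (5 / 3 : ℝ) ^ (k + 1) = (5 / 3) * (5 / 3 : ℝ) ^ k := by ring
    rw [e3]
    rw [e4] at ih
    linarith [ih.1, ih.2]

lemma E_mono {x y : ℝ} (hx : 0 ≤ x) (h : x ≤ y) : (E f x).card ≤ (E f y).card := by
  apply Finset.card_le_card
  intro n hn
  rw [mem_E f hx] at hn
  rw [mem_E f (hx.trans h)]
  exact ⟨hn.1, hn.2.1.trans h, hn.2.2⟩

lemma E_small (ε : ℝ) (hε : 0 < ε) : ∃ N0 : ℕ, ∀ N : ℕ, N0 ≤ N → ((E f N).card : ℝ) ≤ ε * N := by
  obtain ⟨s1, s2⟩ := s3
  have s4 := s33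
  have hs0 : 0 < Real.sqrt 3 := by linarith
  have hr : (5 / 3) / Real.sqrt 3 < 1 := by
    rw [div_lt_one hs0]; linarith
  obtain ⟨k0, hk0⟩ := exists_pow_lt_of_lt_one (show (0 : ℝ) < ε * (3 / 10) by positivity) hr
  refine ⟨⌈Real.sqrt 3 ^ (k0 + 1)⌉₊, fun N hN => ?_⟩
  have hN1 : Real.sqrt 3 ^ (k0 + 1) ≤ N := Nat.ceil_le.1 hN
  have hN2 : (1 : ℝ) ≤ N := by
    have : (1 : ℝ) ≤ Real.sqrt 3 ^ (k0 + 1) := one_le_pow₀ (by linarith)
    linarith
  obtain ⟨k, hk1, hk2⟩ := exists_nat_pow_near hN2 (show 1 < Real.sqrt 3 by linarith)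
  have hk : k0 ≤ k := by
    by_contra h
    push Not at h
    have : Real.sqrt 3 ^ (k + 1) ≤ Real.sqrt 3 ^ (k0 + 1) :=
      pow_le_pow_right₀ (by linarith) (by omega)
    linarith
  have h1 : ((E f N).card : ℝ) ≤ (E f (Real.sqrt 3 ^ (k + 1))).card := by
    exact_mod_cast E_mono f hf (by positivity) hk2.le
  have h2 := (a_bound f hf k).2
  have h3 : (0 : ℝ) < Real.sqrt 3 ^ k := by positivity
  have h4 : (5 / 3 : ℝ) ^ k = ((5 / 3) / Real.sqrt 3) ^ k * Real.sqrt 3 ^ k := by
    rw [← mul_pow]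
    congr 1
    field_simp
  have h5 : ((5 / 3) / Real.sqrt 3) ^ k ≤ ((5 / 3) / Real.sqrt 3) ^ k0 :=
    pow_le_pow_of_le_one (by positivity) hr.le hk
  have h6 : (5 / 3 : ℝ) ^ k ≤ (ε * (3 / 10)) * N := by
    rw [h4]
    calc ((5 / 3) / Real.sqrt 3) ^ k * Real.sqrt 3 ^ k ≤ (ε * (3 / 10)) * Real.sqrt 3 ^ k := by
          apply mul_le_mul_of_nonneg_right _ h3.le
          linarith
      _ ≤ _ := by
          apply mul_le_mul_of_nonneg_left hk1 (by positivity)
  have e4 : (5 / 3 : ℝ) ^ (k + 1) = (5 / 3) * (5 / 3 : ℝ) ^ k := by ring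
  rw [e4] at h2
  linarith

end

/-- For f(n)=n/3 if 3 divides n and f(n)=floor(n·√3) otherwise, the set of positive integers whose orbit under f tends to infinity has natural density 1. -/
theorem result :
    ∀ f : ℕ → ℕ,
      (∀ n : ℕ, f n = if n % 3 = 0 then n / 3 else ⌊(n : ℝ) * Real.sqrt 3⌋₊) →
      Tendsto
        (fun N : ℕ =>
          (({n : ℕ | 1 ≤ n ∧ n ≤ N ∧
              Tendsto (fun k : ℕ => f^[k] n) atTop atTop}.ncard : ℕ) : ℝ) / (N : ℝ))
        atTop (nhds 1) := by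
  intro f hf
  classical
  have hcount : ∀ N : ℕ, ((({n : ℕ | 1 ≤ n ∧ n ≤ N ∧
              Tendsto (fun k : ℕ => f^[k] n) atTop atTop}.ncard : ℕ) : ℝ)) = N - (E f N).card := by
    intro N
    have h1 : {n : ℕ | 1 ≤ n ∧ n ≤ N ∧ Tendsto (fun k : ℕ => f^[k] n) atTop atTop} =
        (((Finset.Icc 1 N).filter (fun n => Tendsto (fun k : ℕ => f^[k] n) atTop atTop) : Finset ℕ) : Set ℕ) := by
      ext n
      simp [and_assoc]
    rw [h1, Set.ncard_coe_finset]
    have h2 := Finset.card_filter_add_card_filter_not (s := Finset.Icc 1 N) (fun n => Tendsto (fun k : ℕ => f^[k] n) atTop atTop)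
    rw [Nat.card_Icc] at h2
    have h3 : (E f N) = (Finset.Icc 1 N).filter (fun n => ¬ Tendsto (fun k : ℕ => f^[k] n) atTop atTop) := by
      unfold E
      rw [Nat.floor_natCast]
    rw [h3]
    have h4 : ((((Finset.Icc 1 N).filter (fun n => Tendsto (fun k : ℕ => f^[k] n) atTop atTop)).card : ℕ) : ℝ) +
      ((((Finset.Icc 1 N).filter (fun n => ¬ Tendsto (fun k : ℕ => f^[k] n) atTop atTop)).card : ℕ) : ℝ) = N := by
      have : N + 1 - 1 = N := by omega
      rw [this] at h2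
      exact_mod_cast h2
    linarith
  rw [Metric.tendsto_atTop]
  intro ε hε
  obtain ⟨N0, hN0⟩ := E_small f hf (ε / 2) (by positivity)
  refine ⟨N0 + 1, fun N hN => ?_⟩
  have h := hN0 N (by omega)
  have hNpos : (0 : ℝ) < N := by exact_mod_cast (by omega : 0 < N)
  rw [hcount, Real.dist_eq]
  have h2 : ((N : ℝ) - (E f N).card) / N - 1 = -((E f N).card / N) := by
    field_simp
    ring
  rw [h2, abs_neg, abs_of_nonneg (by positivity)]
  rw [div_lt_iff₀ hNpos]
  nlinarith

end Pool.Agent.S10961
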