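import Pool.Statements.S10984

set_option autoImplicit false
open Pool Pool.MP_0e0d5f_nt

namespace Pool.Agent.S10984

/-- the `n`-th prime -/
noncomputable def p (n : ℕ) : ℕ := Nat.nth Nat.Prime n

theorem p_prime (n : ℕ) : (p n).Prime := Nat.prime_nth_prime n

theorem p_inj : Function.Injective p := Nat.nth_injective Nat.infinite_setOfPred_prime

theorem p_mono : Monotone p := (Nat.nth_strictMono Nat.infinite_setOfPred_prime).monotone

/-- the element of the family with index set `T` -/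
noncomputable def v (k : ℕ) (T : Finset ℕ) : ℕ :=
  ∏ i ∈ Finset.range k, (if i ∈ T then p (2 * i) else p (2 * i + 1))

theorem dvd_even {k : ℕ} {T : Finset ℕ} {i : ℕ} (hi : i < k) : p (2 * i) ∣ v k T ↔ i ∈ T := by
  constructor
  · intro h
    unfold v at h
    rw [Prime.dvd_finsetProd_iff (p_prime _).prime] at h
    obtain ⟨j, _, hj⟩ := h
    by_cases hjT : j ∈ T
    · rw [if_pos hjT, Nat.prime_dvd_prime_iff_eq (p_prime _) (p_prime _)] at hj
      have := p_inj hj
      have : i = j := by omega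
      rw [this]; exact hjT
    · rw [if_neg hjT, Nat.prime_dvd_prime_iff_eq (p_prime _) (p_prime _)] at hj
      have := p_inj hj
      omega
  · intro h
    unfold v
    have := Finset.dvd_prod_of_mem (fun i => if i ∈ T then p (2 * i) else p (2 * i + 1))
      (Finset.mem_range.2 hi)
    simpa [h] using this

theorem dvd_odd {k : ℕ} {T : Finset ℕ} {i : ℕ} (hi : i < k) : p (2 * i + 1) ∣ v k T ↔ i ∉ T := by
  constructor
  · intro h
    unfold v at h
    rw [Prime.dvd_finsetProd_iff (p_prime _).prime] at h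
    obtain ⟨j, _, hj⟩ := h
    by_cases hjT : j ∈ T
    · rw [if_pos hjT, Nat.prime_dvd_prime_iff_eq (p_prime _) (p_prime _)] at hj
      have := p_inj hj
      omega
    · rw [if_neg hjT, Nat.prime_dvd_prime_iff_eq (p_prime _) (p_prime _)] at hj
      have := p_inj hj
      have : i = j := by omega
      rw [this]; exact hjT
  · intro h
    unfold v
    have := Finset.dvd_prod_of_mem (fun i => if i ∈ T then p (2 * i) else p (2 * i + 1))
      (Finset.mem_range.2 hi)
    simpa [h] using this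

theorem v_inj (k : ℕ) : Set.InjOn (v k) (Finset.powerset (Finset.range k) : Set (Finset ℕ)) := by
  intro T hT T' hT' h
  rw [Finset.mem_coe, Finset.mem_powerset] at hT hT'
  ext i
  by_cases hi : i < k
  · rw [← dvd_even (T := T) hi, ← dvd_even (T := T') hi, h]
  · constructor
    · intro h'; exact absurd (Finset.mem_range.1 (hT h')) hi
    · intro h'; exact absurd (Finset.mem_range.1 (hT' h')) hi

theorem no_triple {k : ℕ} {T₁ T₂ T₃ : Finset ℕ} (h₁ : T₁ ⊆ Finset.range k)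
    (h₂ : T₂ ⊆ Finset.range k) (hne : v k T₁ ≠ v k T₂)
    (hg : Nat.gcd (v k T₁) (v k T₂) = Nat.gcd (v k T₂) (v k T₃))
    (hg' : Nat.gcd (v k T₁) (v k T₂) = Nat.gcd (v k T₁) (v k T₃)) : False := by
  apply hne
  have : T₁ = T₂ := by
    ext i
    by_cases hi : i < k
    · by_contra hcon
      by_cases h1 : i ∈ T₁ <;> by_cases h2 : i ∈ T₂
      · exact hcon (by simp [h1, h2])
      · by_cases h3 : i ∈ T₃
        · have : p (2 * i) ∣ Nat.gcd (v k T₁) (v k T₃) :=
            Nat.dvd_gcd ((dvd_even hi).2 h1) ((dvd_even hi).2 h3)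
          rw [← hg'] at this
          exact h2 ((dvd_even hi).1 (this.trans (Nat.gcd_dvd_right _ _)))
        · have : p (2 * i + 1) ∣ Nat.gcd (v k T₂) (v k T₃) :=
            Nat.dvd_gcd ((dvd_odd hi).2 h2) ((dvd_odd hi).2 h3)
          rw [← hg] at this
          exact (dvd_odd hi).1 (this.trans (Nat.gcd_dvd_left _ _)) h1
      · by_cases h3 : i ∈ T₃
        · have : p (2 * i) ∣ Nat.gcd (v k T₂) (v k T₃) :=
            Nat.dvd_gcd ((dvd_even hi).2 h2) ((dvd_even hi).2 h3)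
          rw [← hg] at this
          exact h1 ((dvd_even hi).1 (this.trans (Nat.gcd_dvd_left _ _)))
        · have : p (2 * i + 1) ∣ Nat.gcd (v k T₁) (v k T₃) :=
            Nat.dvd_gcd ((dvd_odd hi).2 h1) ((dvd_odd hi).2 h3)
          rw [← hg'] at this
          exact (dvd_odd hi).1 (this.trans (Nat.gcd_dvd_right _ _)) h2
      · exact hcon (by simp [h1, h2])
    · constructor
      · intro h'; exact absurd (Finset.mem_range.1 (h₁ h')) hi
      · intro h'; exact absurd (Finset.mem_range.1 (h₂ h')) hi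
  rw [this]

theorem often (n₀ : ℕ) : ∃ n, n₀ ≤ n ∧ p n < (n + 1) ^ 2 := by
  by_contra hcon
  push Not at hcon
  apply Nat.Primes.not_summable_one_div
  have hs : Summable (fun n : ℕ => (1 / (p n : ℝ))) := by
    rw [← summable_nat_add_iff n₀]
    have h2 : Summable (fun n : ℕ => 1 / ((n : ℝ)) ^ 2) :=
      Real.summable_one_div_nat_pow.2 (by norm_num)
    have h3 := (summable_nat_add_iff (n₀ + 1)).2 h2
    refine Summable.of_nonneg_of_le (fun n => by positivity) (fun n => ?_) h3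
    have h4 := hcon (n + n₀) (by omega)
    have h5 : (((n + (n₀ + 1) : ℕ) : ℝ)) ^ 2 ≤ (p (n + n₀) : ℝ) := by
      have : (n + (n₀ + 1)) ^ 2 ≤ p (n + n₀) := by
        have e : n + (n₀ + 1) = n + n₀ + 1 := by ring
        rw [e]; exact h4
      exact_mod_cast this
    apply one_div_le_one_div_of_le _ h5
    positivity
  have hinj : Function.Injective (fun q : Nat.Primes => Nat.count Nat.Prime (q : ℕ)) := by
    intro a b h
    apply Subtype.ext
    exact Nat.count_injective a.2 b.2 h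
  have := hs.comp_injective hinj
  refine this.congr (fun q => ?_)
  simp only [Function.comp, p]
  rw [Nat.nth_count q.2]

theorem lower {k n N : ℕ} (hn : 2 * k ≤ n) (hn' : n ≤ 2 * k + 1) (hp : p n < (n + 1) ^ 2)
    (hN : N = ((2 * k + 2) ^ 2) ^ k) :
    2 ^ k < sInf {n : ℕ | ∀ A : Finset ℕ, A ⊆ Finset.Icc 1 N → A.card = n →
            ∃ a ∈ A, ∃ b ∈ A, ∃ c ∈ A, a ≠ b ∧ b ≠ c ∧ a ≠ c ∧
              Nat.gcd a b = Nat.gcd b c ∧ Nat.gcd a b = Nat.gcd a c} := by
  classical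
  set X : Set ℕ := {n : ℕ | ∀ A : Finset ℕ, A ⊆ Finset.Icc 1 N → A.card = n →
            ∃ a ∈ A, ∃ b ∈ A, ∃ c ∈ A, a ≠ b ∧ b ≠ c ∧ a ≠ c ∧
              Nat.gcd a b = Nat.gcd b c ∧ Nat.gcd a b = Nat.gcd a c} with hX
  have hne : X.Nonempty := by
    refine ⟨N + 1, ?_⟩
    intro A hA hc
    have := Finset.card_le_card hA
    rw [hc, Nat.card_Icc] at this
    omega
  have hmem : sInf X ∈ X := Nat.sInf_mem hne
  by_contra hcon
  push Not at hcon
  set F : Finset ℕ := (Finset.powerset (Finset.range k)).image (v k) with hF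
  have hcard : F.card = 2 ^ k := by
    rw [hF, Finset.card_image_of_injOn (v_inj k), Finset.card_powerset, Finset.card_range]
  obtain ⟨A, hAF, hAc⟩ := Finset.exists_subset_card_eq (s := F) (n := sInf X)
    (by rw [hcard]; exact hcon)
  have hFN : F ⊆ Finset.Icc 1 N := by
    intro x hx
    rw [hF, Finset.mem_image] at hx
    obtain ⟨T, _, rfl⟩ := hx
    rw [Finset.mem_Icc]
    constructor
    · apply Nat.succ_le_of_lt
      apply Finset.prod_pos
      intro i _
      split_ifs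
      · exact (p_prime _).pos
      · exact (p_prime _).pos
    · rw [hN]
      have : v k T ≤ ((2 * k + 2) ^ 2) ^ (Finset.range k).card := by
        apply Finset.prod_le_pow_card
        intro i hi
        rw [Finset.mem_range] at hi
        have h1 : p n ≤ (2 * k + 2) ^ 2 := by
          refine hp.le.trans ?_
          exact Nat.pow_le_pow_left (by omega) 2
        split_ifs
        · exact (p_mono (by omega)).trans h1
        · exact (p_mono (by omega)).trans h1
      rwa [Finset.card_range] at this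
  obtain ⟨a, ha, b, hb, c, hc, hab, _, _, hg, hg'⟩ := hmem A (hAF.trans hFN) hAc
  have ha' := hAF ha
  have hb' := hAF hb
  have hc' := hAF hc
  rw [hF, Finset.mem_image] at ha' hb' hc'
  obtain ⟨T₁, h₁, rfl⟩ := ha'
  obtain ⟨T₂, h₂, rfl⟩ := hb'
  obtain ⟨T₃, _, rfl⟩ := hc'
  exact no_triple (Finset.mem_powerset.1 h₁) (Finset.mem_powerset.1 h₂) hab hg hg'

theorem growth (c : ℝ) (hc : 0 < c) : ∃ K : ℕ, ∀ k : ℕ, K ≤ k →
    2 * c ^ 2 * Real.log (2 * (k : ℝ) + 2) ≤ k * (Real.log 2) ^ 2 := by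
  have hl2 : 0 < Real.log 2 := Real.log_pos (by norm_num)
  have hε : 0 < (Real.log 2) ^ 2 / (8 * c ^ 2) := by positivity
  have h1 := Real.isLittleO_log_id_atTop.def hε
  rw [Filter.eventually_atTop] at h1
  obtain ⟨x₀, hx₀⟩ := h1
  refine ⟨⌈x₀⌉₊ + 1, fun k hk => ?_⟩
  have hk1 : (1 : ℝ) ≤ k := by
    have : 1 ≤ k := by omega
    exact_mod_cast this
  have hkx : x₀ ≤ 2 * (k : ℝ) + 2 := by
    have h2 : x₀ ≤ ⌈x₀⌉₊ := Nat.le_ceil x₀
    have h3 : ((⌈x₀⌉₊ + 1 : ℕ) : ℝ) ≤ k := by exact_mod_cast hk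
    push_cast at h3
    linarith
  have h4 := hx₀ _ hkx
  have h5 : 0 ≤ Real.log (2 * (k : ℝ) + 2) := Real.log_nonneg (by linarith)
  rw [Real.norm_of_nonneg h5, id, Real.norm_of_nonneg (by linarith : (0 : ℝ) ≤ 2 * (k : ℝ) + 2)] at h4
  calc 2 * c ^ 2 * Real.log (2 * (k : ℝ) + 2)
      ≤ 2 * c ^ 2 * ((Real.log 2) ^ 2 / (8 * c ^ 2) * (2 * (k : ℝ) + 2)) :=
        mul_le_mul_of_nonneg_left h4 (by positivity)
    _ = (Real.log 2) ^ 2 / 4 * (2 * (k : ℝ) + 2) := by field_simp; ring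
    _ ≤ (Real.log 2) ^ 2 / 4 * (4 * (k : ℝ)) :=
        mul_le_mul_of_nonneg_left (by linarith) (by positivity)
    _ = k * (Real.log 2) ^ 2 := by ring

/-- The negation of the preceding statement: There are constants c1, c2 > 0 such that for all large N, the least n with every n-element subset of {1..N} containing three distinct numbers with equal pairwise gcds lies strictly between exp(c1 sqrt(ln N)) and exp(c2 sqrt(ln N)). -/
theorem result :
    ¬ (∃ c₁ c₂ : ℝ, 0 < c₁ ∧ 0 < c₂ ∧ ∃ N₀ : ℕ, ∀ N : ℕ, N₀ ≤ N →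
      Real.exp (c₁ * Real.sqrt (Real.log (N : ℝ))) <
        ((sInf {n : ℕ | ∀ A : Finset ℕ, A ⊆ Finset.Icc 1 N → A.card = n →
            ∃ a ∈ A, ∃ b ∈ A, ∃ c ∈ A, a ≠ b ∧ b ≠ c ∧ a ≠ c ∧
              Nat.gcd a b = Nat.gcd b c ∧ Nat.gcd a b = Nat.gcd a c} : ℕ) : ℝ) ∧
      ((sInf {n : ℕ | ∀ A : Finset ℕ, A ⊆ Finset.Icc 1 N → A.card = n →
            ∃ a ∈ A, ∃ b ∈ A, ∃ c ∈ A, a ≠ b ∧ b ≠ c ∧ a ≠ c ∧
              Nat.gcd a b = Nat.gcd b c ∧ Nat.gcd a b = Nat.gcd a c} : ℕ) : ℝ) <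
        Real.exp (c₂ * Real.sqrt (Real.log (N : ℝ)))) := by
  rintro ⟨c₁, c₂, _, hc₂, N₀, H⟩
  obtain ⟨K, hK⟩ := growth c₂ hc₂
  obtain ⟨n, hn, hp⟩ := often (2 * (K + N₀ + 1))
  have hk : K + N₀ + 1 ≤ n / 2 := by omega
  set k := n / 2 with hkdef
  have h1 := lower (k := k) (n := n) (N := ((2 * k + 2) ^ 2) ^ k) (by omega) (by omega) hp rfl
  have hNN : N₀ ≤ ((2 * k + 2) ^ 2) ^ k := by
    have h2 : (2 * k + 2) ^ 2 ≤ ((2 * k + 2) ^ 2) ^ k :=
      Nat.le_self_pow (by omega) _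
    have h3 : 2 * k + 2 ≤ (2 * k + 2) ^ 2 := Nat.le_self_pow (by norm_num) _
    omega
  obtain ⟨_, h2⟩ := H _ hNN
  have hlog : Real.log ((((2 * k + 2) ^ 2) ^ k : ℕ) : ℝ) = k * (2 * Real.log (2 * (k : ℝ) + 2)) := by
    push_cast
    rw [Real.log_pow, Real.log_pow]
    push_cast
    ring
  have h3 := hK k (by omega)
  have hl2 : 0 < Real.log 2 := Real.log_pos (by norm_num)
  have hk0 : (0 : ℝ) ≤ k := Nat.cast_nonneg k
  have hL : 0 ≤ Real.log (2 * (k : ℝ) + 2) := Real.log_nonneg (by linarith)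
  have h4 : c₂ * Real.sqrt (Real.log ((((2 * k + 2) ^ 2) ^ k : ℕ) : ℝ)) ≤ k * Real.log 2 := by
    rw [hlog]
    apply (sq_le_sq₀ (by positivity) (by positivity)).1
    rw [mul_pow, Real.sq_sqrt (by positivity)]
    nlinarith [mul_le_mul_of_nonneg_left h3 hk0]
  have h5 : Real.exp (c₂ * Real.sqrt (Real.log ((((2 * k + 2) ^ 2) ^ k : ℕ) : ℝ))) ≤ 2 ^ k := by
    calc Real.exp (c₂ * Real.sqrt (Real.log ((((2 * k + 2) ^ 2) ^ k : ℕ) : ℝ)))
        ≤ Real.exp (k * Real.log 2) := Real.exp_le_exp.2 h4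
      _ = 2 ^ k := by
        rw [Real.exp_nat_mul, Real.exp_log (by norm_num)]
  have h6 : ((2 ^ k : ℕ) : ℝ) < ((sInf {n : ℕ | ∀ A : Finset ℕ,
            A ⊆ Finset.Icc 1 (((2 * k + 2) ^ 2) ^ k) → A.card = n →
            ∃ a ∈ A, ∃ b ∈ A, ∃ c ∈ A, a ≠ b ∧ b ≠ c ∧ a ≠ c ∧
              Nat.gcd a b = Nat.gcd b c ∧ Nat.gcd a b = Nat.gcd a c} : ℕ) : ℝ) := by
    exact_mod_cast h1
  push_cast at h6
  push_cast at h2 h5
  linarith

end Pool.Agent.S10984
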