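import Pool.Statements.S11087
-- import your own Pool.Agent.* helpers here

set_option autoImplicit false
open Filter Topology
open Pool Pool.MP_184037_nt

namespace Pool.Agent.S11087

open Finset

/-- truncated abundancy -/
noncomputable def hy (y n : ℕ) : ℝ := ∑ d ∈ (Icc 1 y).filter (fun d => d ∣ n), (1 : ℝ) / d

lemma sigma_eq (n : ℕ) (hn : 0 < n) :
    ((ArithmeticFunction.sigma 1 n : ℕ) : ℝ) = n * ∑ d ∈ n.divisors, (1 : ℝ) / d := by
  rw [ArithmeticFunction.sigma_one_apply]
  have h : ∑ d ∈ n.divisors, d = ∑ d ∈ n.divisors, n / d := (Nat.sum_div_divisors n (fun d => d)).symm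
  rw [h]
  push_cast
  rw [mul_sum]
  apply sum_congr rfl
  intro d hd
  have hdn := Nat.dvd_of_mem_divisors hd
  rw [Nat.cast_div_charZero hdn]
  ring

lemma hy_le_h (y n : ℕ) (hn : 0 < n) : hy y n ≤ ∑ d ∈ n.divisors, (1 : ℝ) / d := by
  unfold hy
  apply sum_le_sum_of_subset_of_nonneg
  · intro d hd
    rw [mem_filter] at hd
    exact Nat.mem_divisors.2 ⟨hd.2, hn.ne'⟩
  · intro _ _ _; positivity

lemma h_le_hy (y x n : ℕ) (hn : 0 < n) (hnx : n ≤ x) :
    ∑ d ∈ n.divisors, (1 : ℝ) / d ≤ hy y n + ∑ d ∈ Ioc y x, (if d ∣ n then (1 : ℝ) / d else 0) := by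
  unfold hy
  rw [← sum_filter]
  have hdisj : Disjoint ((Icc 1 y).filter (fun d => d ∣ n)) ((Ioc y x).filter (fun d => d ∣ n)) := by
    rw [disjoint_left]
    intro d h1 h2
    rw [mem_filter, mem_Icc] at h1
    rw [mem_filter, mem_Ioc] at h2
    omega
  rw [← sum_union hdisj]
  apply sum_le_sum_of_subset_of_nonneg
  · intro d hd
    rw [Nat.mem_divisors] at hd
    rw [mem_union, mem_filter, mem_filter, mem_Icc, mem_Ioc]
    have h1 := Nat.le_of_dvd hn hd.1
    have h2 := Nat.pos_of_dvd_of_pos hd.1 hn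
    by_cases h : d ≤ y
    · exact Or.inl ⟨⟨h2, h⟩, hd.1⟩
    · exact Or.inr ⟨⟨by omega, by omega⟩, hd.1⟩
  · intro _ _ _; positivity

lemma tail_sum (y x : ℕ) (hy : 0 < y) :
    ∑ n ∈ Icc 1 x, ∑ d ∈ Ioc y x, (if d ∣ n then (1 : ℝ) / d else 0) ≤ x / y := by
  rw [sum_comm]
  have h1 : ∀ d ∈ Ioc y x, ∑ n ∈ Icc 1 x, (if d ∣ n then (1 : ℝ) / d else 0) ≤ x * ((d : ℝ) ^ 2)⁻¹ := by
    intro d hd
    rw [mem_Ioc] at hd
    have hd0 : (0 : ℝ) < d := by exact_mod_cast (by omega : 0 < d)
    have h2 : ∑ n ∈ Icc 1 x, (if d ∣ n then (1 : ℝ) / d else 0) = ((Icc 1 x).filter (fun n => d ∣ n)).card * ((1 : ℝ) / d) := by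
      rw [← sum_filter, sum_const, nsmul_eq_mul]
    have h3 : ((Icc 1 x).filter (fun m => d ∣ m)).card = x / d := by
      have := Nat.Ioc_filter_dvd_card_eq_div x d
      have e : Icc 1 x = Ioc 0 x := by ext x; simp [Nat.succ_le_iff]
      rw [e, this]
    rw [h2, h3]
    have h4 : ((x / d : ℕ) : ℝ) ≤ x / d := Nat.cast_div_le
    calc ((x / d : ℕ) : ℝ) * (1 / d) ≤ (x / d) * (1 / d) := mul_le_mul_of_nonneg_right h4 (by positivity)
      _ = x * ((d : ℝ) ^ 2)⁻¹ := by field_simp
  refine (sum_le_sum h1).trans ?_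
  rw [← mul_sum]
  rcases le_total y x with h | h
  · have h2 := sum_Ioc_inv_sq_le_sub (α := ℝ) hy.ne' h
    have h3 : (0 : ℝ) ≤ (x : ℝ)⁻¹ := by positivity
    rw [div_eq_mul_inv]
    apply mul_le_mul_of_nonneg_left _ (by positivity)
    linarith
  · rw [Ioc_eq_empty (by omega), sum_empty, mul_zero]
    positivity

lemma card_interval (S : Finset ℕ) (u v : ℝ) (huv : u ≤ v) (h : ∀ t ∈ S, u < t ∧ (t : ℝ) < v) :
    (S.card : ℝ) ≤ v - u + 1 := by
  rcases S.eq_empty_or_nonempty with h0 | h0
  · rw [h0, card_empty, Nat.cast_zero]; linarith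
  · have h1 : S ⊆ Icc (S.min' h0) (S.max' h0) := by
      intro t ht
      exact mem_Icc.2 ⟨min'_le _ _ ht, le_max' _ _ ht⟩
    have h2 := card_le_card h1
    rw [Nat.card_Icc] at h2
    have h3 := h _ (min'_mem S h0)
    have h4 := h _ (max'_mem S h0)
    have h5 : S.min' h0 ≤ S.max' h0 := min'_le_max' S h0
    have h6 : (S.card : ℝ) + S.min' h0 ≤ S.max' h0 + 1 := by
      have : S.card + S.min' h0 ≤ S.max' h0 + 1 := by omega
      exact_mod_cast this
    linarith

/-- the main count -/
lemma main_count (j : ℕ) (hj : 1 ≤ j) : ∃ X0 : ℕ, ∀ x : ℕ, X0 ≤ x →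
    (Nat.card {n : ℕ // (x : ℝ) < (n : ℝ) + ((ArithmeticFunction.sigma 1 n : ℕ) : ℝ) ∧
          (n : ℝ) + ((ArithmeticFunction.sigma 1 n : ℕ) : ℝ) < (x : ℝ) + x / j} : ℝ) ≤ 4 * (x / j) := by
  classical
  set y := j ^ 2 with hyd
  set K := y.factorial with hK
  have hKpos : 0 < K := Nat.factorial_pos _
  have hjR : (1 : ℝ) ≤ j := by exact_mod_cast hj
  refine ⟨K * j + 1, fun x hx => ?_⟩
  have hxpos : (0 : ℝ) < x := by exact_mod_cast (by omega : 0 < x)
  set δ : ℝ := 1 / j with hδ
  have hδpos : 0 < δ := by positivity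
  have hδ1 : δ ≤ 1 := by rw [hδ, div_le_one (by linarith)]; exact hjR
  have hxj : (x : ℝ) / j = δ * x := by rw [hδ]; ring
  rw [hxj]
  -- the finset
  set B : Finset ℕ := (Icc 1 x).filter (fun n => (x : ℝ) < (n : ℝ) + ((ArithmeticFunction.sigma 1 n : ℕ) : ℝ) ∧
          (n : ℝ) + ((ArithmeticFunction.sigma 1 n : ℕ) : ℝ) < (x : ℝ) + δ * x) with hB
  have hcardB : Nat.card {n : ℕ // (x : ℝ) < (n : ℝ) + ((ArithmeticFunction.sigma 1 n : ℕ) : ℝ) ∧
          (n : ℝ) + ((ArithmeticFunction.sigma 1 n : ℕ) : ℝ) < (x : ℝ) + δ * x} = B.card := by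
    have hset : {n : ℕ | (x : ℝ) < (n : ℝ) + ((ArithmeticFunction.sigma 1 n : ℕ) : ℝ) ∧
          (n : ℝ) + ((ArithmeticFunction.sigma 1 n : ℕ) : ℝ) < (x : ℝ) + δ * x} = (B : Set ℕ) := by
      ext n
      rw [hB, mem_coe, mem_filter, mem_Icc, Set.mem_ofPred_eq]
      constructor
      · rintro ⟨h1, h2⟩
        have hn : 0 < n := by
          rcases Nat.eq_zero_or_pos n with h0 | h0
          · subst h0
            simp at h1
            linarith
          · exact h0
        refine ⟨⟨hn, ?_⟩, h1, h2⟩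
        have h3 : n ≤ ArithmeticFunction.sigma 1 n := by
          rw [ArithmeticFunction.sigma_one_apply]
          exact single_le_sum (f := fun d => d) (fun _ _ => Nat.zero_le _) (Nat.mem_divisors_self n hn.ne')
        have h3' : (n : ℝ) ≤ ((ArithmeticFunction.sigma 1 n : ℕ) : ℝ) := by exact_mod_cast h3
        have h4 : (n : ℝ) < x + 1 := by nlinarith
        have : n < x + 1 := by exact_mod_cast h4
        omega
      · rintro ⟨_, h1, h2⟩
        exact ⟨h1, h2⟩
    have := Set.ncard_coe_finset B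
    rw [← hset] at this
    rw [← this]
    rfl
  rw [hcardB]
  -- split
  set E := (Icc 1 x).filter (fun n => δ < ∑ d ∈ Ioc y x, (if d ∣ n then (1 : ℝ) / d else 0)) with hE
  have hy0 : 0 < y := by positivity
  have hEcard : (E.card : ℝ) ≤ δ * x := by
    have h1 : (E.card : ℝ) * δ ≤ x / y := by
      calc (E.card : ℝ) * δ = ∑ n ∈ E, δ := by rw [sum_const, nsmul_eq_mul]
        _ ≤ ∑ n ∈ E, ∑ d ∈ Ioc y x, (if d ∣ n then (1 : ℝ) / d else 0) := by
            apply sum_le_sum
            intro n hn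
            rw [hE, mem_filter] at hn
            exact hn.2.le
        _ ≤ ∑ n ∈ Icc 1 x, ∑ d ∈ Ioc y x, (if d ∣ n then (1 : ℝ) / d else 0) := by
            apply sum_le_sum_of_subset_of_nonneg (filter_subset _ _)
            intro n _ _
            apply sum_nonneg
            intro d _
            split_ifs <;> positivity
        _ ≤ x / y := tail_sum y x hy0
    have h2 : (x : ℝ) / y = (δ * x) * δ := by
      rw [hyd, hδ]
      push_cast
      field_simp
    rw [h2] at h1
    exact le_of_mul_le_mul_right h1 hδpos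
  set G := (Icc 1 x).filter (fun n => (1 - δ) * x < n * (1 + hy y n) ∧ n * (1 + hy y n) < (1 + δ) * x) with hG
  have hBsub : B ⊆ E ∪ G := by
    intro n hn
    rw [hB, mem_filter] at hn
    obtain ⟨hn1, hn2, hn3⟩ := hn
    rw [mem_union, hE, hG, mem_filter, mem_filter]
    by_cases h : δ < ∑ d ∈ Ioc y x, (if d ∣ n then (1 : ℝ) / d else 0)
    · exact Or.inl ⟨hn1, h⟩
    · right
      rw [mem_Icc] at hn1
      have hnpos : (0 : ℝ) < n := by exact_mod_cast (by omega : 0 < n)
      have hnx : (n : ℝ) ≤ x := by exact_mod_cast hn1.2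
      push Not at h
      rw [sigma_eq n (by omega)] at hn2 hn3
      have h1 := hy_le_h y n (by omega)
      have h2 := h_le_hy y x n (by omega) hn1.2
      refine ⟨mem_Icc.2 hn1, ?_, ?_⟩
      · have h3 : (n : ℝ) * ∑ d ∈ n.divisors, (1 : ℝ) / d ≤ n * (hy y n + δ) :=
          mul_le_mul_of_nonneg_left (by linarith) hnpos.le
        nlinarith
      · have h3 : (n : ℝ) * hy y n ≤ n * ∑ d ∈ n.divisors, (1 : ℝ) / d :=
          mul_le_mul_of_nonneg_left h1 hnpos.le
        nlinarith
  have hGcard : (G.card : ℝ) ≤ 2 * δ * x + K := by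
    have hmap : ∀ n ∈ G, n % K ∈ range K := fun n _ => mem_range.2 (Nat.mod_lt _ hKpos)
    rw [card_eq_sum_card_fiberwise hmap]
    push_cast
    have h1 : ∀ r ∈ range K, ((G.filter (fun n => n % K = r)).card : ℝ) ≤ 2 * δ * x / K + 1 := by
      intro r hr
      rw [mem_range] at hr
      have hKR : (0 : ℝ) < K := by exact_mod_cast hKpos
      have hc0 : 0 ≤ hy y r := by unfold hy; positivity
      have hhy : ∀ n, n % K = r → hy y n = hy y r := by
        intro n hn
        unfold hy
        congr 1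
        apply filter_congr
        intro d hd
        rw [mem_Icc] at hd
        have hdK : d ∣ K := Nat.dvd_factorial hd.1 hd.2
        rw [← hn]
        exact (Nat.dvd_mod_iff hdK).symm
      have h2 : (G.filter (fun n => n % K = r)).card = ((G.filter (fun n => n % K = r)).image (fun n => n / K)).card := by
        rw [card_image_of_injOn]
        intro a ha b hb hab
        rw [mem_coe, mem_filter] at ha hb
        beta_reduce at hab
        rw [← Nat.div_add_mod a K, ← Nat.div_add_mod b K, hab, ha.2, hb.2]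
      rw [h2]
      have h3 := card_interval ((G.filter (fun n => n % K = r)).image (fun n => n / K))
        (((1 - δ) * x / (1 + hy y r) - r) / K) (((1 + δ) * x / (1 + hy y r) - r) / K) (by
          apply div_le_div_of_nonneg_right _ hKR.le
          apply sub_le_sub_right
          apply div_le_div_of_nonneg_right _ (by linarith)
          nlinarith) (by
          intro t ht
          rw [mem_image] at ht
          obtain ⟨n, hn, rfl⟩ := ht
          rw [mem_filter, hG, mem_filter] at hn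
          obtain ⟨⟨_, h4, h5⟩, h6⟩ := hn
          rw [hhy n h6] at h4 h5
          have h7 : (n : ℝ) = K * (n / K : ℕ) + r := by
            have := Nat.div_add_mod n K
            rw [h6] at this
            exact_mod_cast this.symm
          have hc1 : 0 < 1 + hy y r := by linarith
          constructor
          · rw [div_lt_iff₀ hKR, sub_lt_iff_lt_add, div_lt_iff₀ hc1]
            have : ((n / K : ℕ) : ℝ) * K + r = n := by rw [h7]; ring
            rw [this]; exact h4
          · rw [lt_div_iff₀ hKR, lt_sub_iff_add_lt, lt_div_iff₀ hc1]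
            have : ((n / K : ℕ) : ℝ) * K + r = n := by rw [h7]; ring
            rw [this]; exact h5)
      refine h3.trans ?_
      apply add_le_add_left
      rw [← sub_div]
      apply div_le_div_of_nonneg_right _ hKR.le
      have h8 : ((1 + δ) * x / (1 + hy y r) - r) - ((1 - δ) * x / (1 + hy y r) - r) = 2 * δ * x / (1 + hy y r) := by
        field_simp
        ring
      rw [h8]
      apply div_le_self (by positivity)
      linarith
    have h2 := sum_le_sum h1
    rw [sum_const, card_range, nsmul_eq_mul] at h2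
    refine h2.trans (le_of_eq ?_)
    have hKR : (K : ℝ) ≠ 0 := by exact_mod_cast hKpos.ne'
    field_simp
  have h1 : (B.card : ℝ) ≤ E.card + G.card := by
    exact_mod_cast (card_le_card hBsub).trans (card_union_le _ _)
  have h2 : (K : ℝ) ≤ δ * x := by
    rw [hδ, one_div, inv_mul_eq_div, le_div_iff₀ (by linarith)]
    have : K * j ≤ x := by omega
    exact_mod_cast this
  linarith

/-- It is not true that for every F tending to infinity with F(n)/σ(n) → 0 off a density-zero set, every constant C is beaten by #{n : x < n+σ(n) < x+F(x)} / F(x) for infinitely many x. -/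
theorem result :
    ¬ ∀ F : ℕ → ℝ, Tendsto F atTop atTop →
      (∀ ε : ℝ, 0 < ε →
        Tendsto (fun N : ℕ =>
          (((Finset.range N).filter
            (fun n => ε ≤ |F n / ((ArithmeticFunction.sigma 1 n : ℕ) : ℝ)|)).card : ℝ) / (N : ℝ))
          atTop (𝓝 0)) →
      ∀ C : ℝ, ∀ N : ℕ, ∃ x : ℕ, N < x ∧
        C * F x < (Nat.card {n : ℕ //
          (x : ℝ) < (n : ℝ) + ((ArithmeticFunction.sigma 1 n : ℕ) : ℝ) ∧
          (n : ℝ) + ((ArithmeticFunction.sigma 1 n : ℕ) : ℝ) < (x : ℝ) + F x} : ℝ) := by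
  classical
  intro H
  have hX : ∀ j : ℕ, ∃ X0 : ℕ, 1 ≤ j → ∀ x : ℕ, X0 ≤ x →
    (Nat.card {n : ℕ // (x : ℝ) < (n : ℝ) + ((ArithmeticFunction.sigma 1 n : ℕ) : ℝ) ∧
          (n : ℝ) + ((ArithmeticFunction.sigma 1 n : ℕ) : ℝ) < (x : ℝ) + x / j} : ℝ) ≤ 4 * (x / j) := by
    intro j
    by_cases hj : 1 ≤ j
    · obtain ⟨X0, h⟩ := main_count j hj
      exact ⟨X0, fun _ => h⟩
    · exact ⟨0, fun h => absurd h hj⟩
  choose X0 hX0 using hX
  set P : ℕ → ℕ → Prop := fun x j => j ^ 2 ≤ x ∧ X0 j ≤ x with hP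
  set jj : ℕ → ℕ := fun x => Nat.findGreatest (P x) x with hjj
  have hjge : ∀ J : ℕ, 1 ≤ J → ∀ x : ℕ, J ^ 2 + X0 J ≤ x → J ≤ jj x ∧ P x (jj x) := by
    intro J hJ x hx
    have h1 : P x J := ⟨by omega, by omega⟩
    have h2 : J ≤ x := by nlinarith
    refine ⟨Nat.le_findGreatest h2 h1, ?_⟩
    exact Nat.findGreatest_spec h2 h1
  set F : ℕ → ℝ := fun x => x / jj x with hF
  have hFge : ∀ J : ℕ, 1 ≤ J → ∀ x : ℕ, J ^ 2 + X0 J ≤ x → (J : ℝ) ≤ F x ∧
      |F x / ((ArithmeticFunction.sigma 1 x : ℕ) : ℝ)| ≤ 1 / J := by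
    intro J hJ x hx
    obtain ⟨h1, h2, h3⟩ := hjge J hJ x hx
    have hJR : (1 : ℝ) ≤ J := by exact_mod_cast hJ
    have h1R : (J : ℝ) ≤ jj x := by exact_mod_cast h1
    have h2R : ((jj x : ℝ)) ^ 2 ≤ x := by exact_mod_cast h2
    have hjpos : (0 : ℝ) < jj x := by linarith
    have hxpos : 0 < x := by nlinarith
    have hxR : (0 : ℝ) < x := by exact_mod_cast hxpos
    constructor
    · rw [hF]
      beta_reduce
      rw [le_div_iff₀ hjpos]
      nlinarith
    · have h4 : x ≤ ArithmeticFunction.sigma 1 x := by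
        rw [ArithmeticFunction.sigma_one_apply]
        exact single_le_sum (f := fun d => d) (fun _ _ => Nat.zero_le _) (Nat.mem_divisors_self x hxpos.ne')
      have h4R : (x : ℝ) ≤ ((ArithmeticFunction.sigma 1 x : ℕ) : ℝ) := by exact_mod_cast h4
      have hs : (0 : ℝ) < ((ArithmeticFunction.sigma 1 x : ℕ) : ℝ) := by linarith
      rw [abs_of_nonneg (by rw [hF]; positivity), hF]
      beta_reduce
      rw [div_div, div_le_div_iff₀ (by positivity) (by linarith)]
      rw [one_mul, mul_comm (jj x : ℝ)]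
      exact mul_le_mul h4R h1R (by linarith) hs.le
  have hlimF : Tendsto F atTop atTop := by
    rw [tendsto_atTop]
    intro b
    obtain ⟨J, hJ⟩ := exists_nat_ge (max b 1)
    have hJ1 : 1 ≤ J := by
      have : (1 : ℝ) ≤ J := (le_max_right _ _).trans hJ
      exact_mod_cast this
    rw [eventually_atTop]
    refine ⟨J ^ 2 + X0 J, fun x hx => ?_⟩
    exact (le_max_left _ _).trans (hJ.trans (hFge J hJ1 x hx).1)
  have hsmall : ∀ ε : ℝ, 0 < ε →
        Tendsto (fun N : ℕ =>
          (((Finset.range N).filter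
            (fun n => ε ≤ |F n / ((ArithmeticFunction.sigma 1 n : ℕ) : ℝ)|)).card : ℝ) / (N : ℝ))
          atTop (𝓝 0) := by
    intro ε hε
    obtain ⟨J, hJ⟩ := exists_nat_gt (max (1 / ε) 1)
    have hJ1 : 1 ≤ J := by
      have : (1 : ℝ) < J := lt_of_le_of_lt (le_max_right _ _) hJ
      have : 1 < J := by exact_mod_cast this
      omega
    have hJε : (1 : ℝ) / J < ε := by
      have h1 : 1 / ε < J := lt_of_le_of_lt (le_max_left _ _) hJ
      have hJpos : (0 : ℝ) < J := by exact_mod_cast (by omega : 0 < J)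
      rw [div_lt_iff₀ hε] at h1
      rw [div_lt_iff₀ hJpos]
      linarith
    set M := J ^ 2 + X0 J with hM
    have hb : ∀ N : ℕ, (((Finset.range N).filter
            (fun n => ε ≤ |F n / ((ArithmeticFunction.sigma 1 n : ℕ) : ℝ)|)).card : ℝ) ≤ M := by
      intro N
      have : (Finset.range N).filter
            (fun n => ε ≤ |F n / ((ArithmeticFunction.sigma 1 n : ℕ) : ℝ)|) ⊆ range M := by
        intro n hn
        rw [mem_filter] at hn
        rw [mem_range]
        by_contra h
        push Not at h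
        have := (hFge J hJ1 n h).2
        linarith [hn.2]
      have := card_le_card this
      rw [card_range] at this
      exact_mod_cast this
    have hlim0 : Tendsto (fun N : ℕ => (M : ℝ) / (N : ℝ)) atTop (𝓝 0) :=
      tendsto_const_div_atTop_nhds_zero_nat _
    refine squeeze_zero (fun N => by positivity) (fun N => ?_) hlim0
    exact div_le_div_of_nonneg_right (hb N) (by positivity)
  obtain ⟨x, hx, hlt⟩ := H F hlimF hsmall 4 (1 ^ 2 + X0 1)
  obtain ⟨h1, h2, h3⟩ := hjge 1 le_rfl x hx.le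
  have := hX0 (jj x) h1 x h3
  rw [hF] at hlt
  beta_reduce at hlt
  linarith

end Pool.Agent.S11087
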