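import Pool.Statements.S11089
-- import your own Pool.Agent.* helpers here
import Pool.Agent.H25.KBound
import Pool.Agent.H25.DivBound

set_option autoImplicit false
open N97cf5353
open Filter
open Pool Pool.MP_18694c_nt

namespace Pool.Agent.S11089

lemma K_le (n : ℕ) (hn : 2 ≤ n) (hL : 2 ≤ Real.log n) :
    (K n : ℝ) ≤ Real.exp (30 * n.divisors.card * Real.log n ^ 2) := by
  set L := Real.log n with hLdef
  set d := n.divisors.card with hd
  have hd1 : 1 ≤ d := Finset.card_pos.2 ⟨1, Nat.one_mem_divisors.2 (by omega)⟩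
  have hdR : (1 : ℝ) ≤ d := by exact_mod_cast hd1
  have hnR : (0 : ℝ) < n := by exact_mod_cast (by omega : 0 < n)
  set S : ℝ := d * (2 + L) with hS
  have hS0 : 0 ≤ S := by positivity
  set r : ℕ := 2 * ⌈(5 * S + 1) / 2⌉₊ + 1 with hr
  have hr1 : 5 * S + 1 ≤ r := by
    have := Nat.le_ceil ((5 * S + 1) / 2)
    rw [hr]
    push_cast
    linarith
  have hr2 : (r : ℝ) ≤ 5 * S + 4 := by
    have := Nat.ceil_lt_add_one (show (0 : ℝ) ≤ (5 * S + 1) / 2 by positivity)
    rw [hr]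
    push_cast
    linarith
  set X : ℕ := ⌈2 * Real.exp (2 * S) * (3 * ((n : ℝ) ^ 2) ^ r + 2)⌉₊ with hX
  obtain ⟨k, hk2, hkc, hkle⟩ := Pool.Agent.H25.KBound.K_bound n hn S hS r ⟨_, hr⟩ hr1 X (Nat.le_ceil _)
  have hKk : K n ≤ k := Nat.sInf_le ⟨hk2, hkc⟩
  have hKR : (K n : ℝ) ≤ ((n : ℝ) + 1) ^ d * X := by
    have : (K n : ℝ) ≤ (((n + 1) ^ d * X : ℕ) : ℝ) := by exact_mod_cast hKk.trans hkle
    push_cast at this
    exact this
  have hn2 : ((n : ℝ) ^ 2) ^ r = Real.exp (2 * r * L) := by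
    have e1 : (n : ℝ) = Real.exp L := (Real.exp_log hnR).symm
    rw [e1, ← Real.exp_nat_mul, ← Real.exp_nat_mul]
    congr 1
    push_cast
    ring
  have hXle : (X : ℝ) ≤ Real.exp (3 + 2 * S + 2 * r * L) := by
    have h1 := Nat.ceil_lt_add_one (show (0 : ℝ) ≤ 2 * Real.exp (2 * S) * (3 * ((n : ℝ) ^ 2) ^ r + 2) by positivity)
    rw [← hX] at h1
    rw [hn2] at h1
    have h2 : (1 : ℝ) ≤ Real.exp (2 * S) := Real.one_le_exp (by positivity)
    have h3 : (1 : ℝ) ≤ Real.exp (2 * r * L) := Real.one_le_exp (by positivity)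
    have h4 : (12 : ℝ) ≤ Real.exp 3 := by
      have e1 := Real.exp_one_gt_d9
      have e2 : Real.exp 3 = Real.exp 1 * Real.exp 1 * Real.exp 1 := by
        rw [← Real.exp_add, ← Real.exp_add]; norm_num
      rw [e2]
      have e3 : (7 : ℝ) ≤ Real.exp 1 * Real.exp 1 := by nlinarith
      nlinarith
    rw [Real.exp_add, Real.exp_add]
    set A := Real.exp (2 * S)
    set B := Real.exp (2 * r * L)
    have h5 : (1 : ℝ) ≤ A * B := by nlinarith
    have h6 : A * 1 ≤ A * B := mul_le_mul_of_nonneg_left h3 (by linarith)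
    calc (X : ℝ) ≤ 2 * A * (3 * B + 2) + 1 := h1.le
      _ ≤ 12 * (A * B) := by nlinarith
      _ ≤ Real.exp 3 * (A * B) := mul_le_mul_of_nonneg_right h4 (by linarith)
      _ = _ := by ring
  have hnd : ((n : ℝ) + 1) ^ d ≤ Real.exp (d * (L + 1)) := by
    have h1 : (n : ℝ) + 1 ≤ Real.exp (L + 1) := by
      rw [Real.exp_add, Real.exp_log hnR]
      have := Real.exp_one_gt_d9
      have h1n : (1 : ℝ) ≤ n := by exact_mod_cast (by omega : 1 ≤ n)
      nlinarith
    calc ((n : ℝ) + 1) ^ d ≤ (Real.exp (L + 1)) ^ d := pow_le_pow_left₀ (by positivity) h1 d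
      _ = _ := by rw [← Real.exp_nat_mul]
  have hfin : (K n : ℝ) ≤ Real.exp (d * (L + 1) + (3 + 2 * S + 2 * r * L)) := by
    rw [Real.exp_add]
    exact hKR.trans (mul_le_mul hnd hXle (by positivity) (Real.exp_pos _).le)
  refine hfin.trans (Real.exp_le_exp.2 ?_)
  -- d(L+1) + 3 + 2S + 2rL ≤ 30 d L^2
  have hdL : (2 : ℝ) ≤ d * L := by nlinarith
  have h1 : S ≤ 2 * (d * L) := by rw [hS]; nlinarith
  have h2 : (r : ℝ) ≤ 12 * (d * L) := by linarith
  have h3 : 2 * (r : ℝ) * L ≤ 24 * (d * L) * L := by nlinarith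
  have h4 : (d : ℝ) * (L + 1) ≤ 2 * (d * L) := by nlinarith
  have h5 : (d * L) * 2 ≤ (d * L) * L := mul_le_mul_of_nonneg_left hL (by linarith)
  have e : 30 * (d : ℝ) * L ^ 2 = 30 * ((d * L) * L) := by ring
  rw [e]
  nlinarith

/-- ∃ c>0, ∀ ε>0, for all sufficiently large n, (least k≥2 with gcd(k^n−1, 2^n−1)=1) < exp(n^((c+ε)/log log n)) (natural log). -/
theorem result :
    ∃ c > (0 : ℝ), ∀ ε > (0 : ℝ), ∀ᶠ n : ℕ in atTop, (K n : ℝ) < Real.exp ((n : ℝ) ^ ((c + ε) / Real.log (Real.log (n : ℝ)))) := by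
  refine ⟨4, by norm_num, fun ε hε => ?_⟩
  have hlog : Tendsto (fun n : ℕ => Real.log n) atTop atTop :=
    Real.tendsto_log_atTop.comp tendsto_natCast_atTop_atTop
  have hA : ∀ᶠ L : ℝ in atTop, 30 * L ^ 2 < Real.exp (L / Real.log L) := by
    have h1 : Tendsto (fun L : ℝ => Real.log L ^ 2 / L) atTop (nhds 0) := by
      have := (isLittleO_log_rpow_rpow_atTop (s := 1) 2 (by norm_num)).tendsto_div_nhds_zero
      refine this.congr (fun x => ?_)
      norm_num
    have h2 : ∀ᶠ L : ℝ in atTop, Real.log L ^ 2 / L < 1 / 10 := h1.eventually_lt_const (by norm_num)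
    filter_upwards [h2, eventually_ge_atTop 30, eventually_gt_atTop (Real.exp 1)] with L h3 h4 h5
    have hL0 : 0 < L := by linarith
    have hlog1 : 1 < Real.log L := by
      rw [← Real.log_exp 1]
      exact Real.log_lt_log (Real.exp_pos 1) h5
    rw [div_lt_iff₀ hL0] at h3
    have h6 : Real.log (30 * L ^ 2) < L / Real.log L := by
      rw [lt_div_iff₀ (by linarith), Real.log_mul (by norm_num) (by positivity), Real.log_pow]
      have : Real.log 30 ≤ Real.log L := Real.log_le_log (by norm_num) h4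
      push_cast
      nlinarith
    rw [← Real.exp_log (show (0 : ℝ) < 30 * L ^ 2 by positivity)]
    exact Real.exp_lt_exp.2 h6
  filter_upwards [hlog.eventually hA, hlog.eventually (eventually_ge_atTop (2 : ℝ)),
    hlog.eventually (eventually_gt_atTop (Real.exp 1)), eventually_ge_atTop 2,
    Pool.Agent.H25.DivBound.div_bound] with n h1 h2 h3 h4 h5
  refine lt_of_le_of_lt (K_le n h4 h2) (Real.exp_lt_exp.2 ?_)
  set L := Real.log n with hL
  have hnR : (0 : ℝ) < n := by exact_mod_cast (by omega : 0 < n)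
  have hL0 : 0 < L := by linarith
  have hlog1 : 1 < Real.log L := by
    rw [← Real.log_exp 1]
    exact Real.log_lt_log (Real.exp_pos 1) h3
  have e1 : (n : ℝ) ^ ((4 + ε) / Real.log L) = Real.exp ((4 + ε) * (L / Real.log L)) := by
    rw [Real.rpow_def_of_pos hnR, ← hL]
    congr 1
    ring
  rw [e1]
  have hq : 0 < L / Real.log L := by positivity
  calc 30 * (n.divisors.card : ℝ) * L ^ 2 = (n.divisors.card : ℝ) * (30 * L ^ 2) := by ring
    _ ≤ Real.exp (3 * (L / Real.log L)) * (30 * L ^ 2) := mul_le_mul_of_nonneg_right h5 (by positivity)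
    _ < Real.exp (3 * (L / Real.log L)) * Real.exp (L / Real.log L) :=
        mul_lt_mul_of_pos_left h1 (Real.exp_pos _)
    _ = Real.exp (4 * (L / Real.log L)) := by rw [← Real.exp_add]; congr 1; ring
    _ ≤ _ := Real.exp_le_exp.2 (by nlinarith)

end Pool.Agent.S11089
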