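import Pool.Statements.S11118
-- import your own Pool.Agent.* helpers here

set_option autoImplicit false
open Pool Pool.MP_1bbd34_nt

namespace Pool.Agent.S11118

/-- The negation of the preceding statement: For every n with consecutive primes p < n ≤ q, some prime dividing n(n+1) exceeds min(n − p, q − n); equivalently, the largest prime factor of n(n+1) exceeds that minimum. -/
theorem result :
    ¬ (∀ n p q : ℕ, p.Prime → q.Prime → p < n → n ≤ q →
      (∀ r : ℕ, r.Prime → p < r → r < q → False) →
      ∃ r : ℕ, r.Prime ∧ r ∣ n * (n + 1) ∧ min (n - p) (q - n) < r) := by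
  intro H
  obtain ⟨r, hr, hdvd, hlt⟩ := H 11859210 11859187 11859233 (by norm_num) (by norm_num) (by norm_num)
    (by norm_num) (by
      intro r hr h1 h2
      interval_cases r <;> revert hr <;> norm_num)
  have h23 : 23 < r := by simpa using hlt
  have e : 11859210 * (11859210 + 1) = 2 * 3 ^ 4 * 5 * 11 ^ 4 * 7 * 13 * 19 ^ 4 := by norm_num
  rw [e] at hdvd
  have key : ∀ s : ℕ, s.Prime → s ≤ 19 → ∀ k : ℕ, ¬ r ∣ s ^ k := by
    intro s hs hs19 k h
    have h1 := hr.dvd_of_dvd_pow h
    have h2 := Nat.le_of_dvd hs.pos h1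
    omega
  have key1 : ∀ s : ℕ, s.Prime → s ≤ 19 → ¬ r ∣ s := by
    intro s hs hs19 h
    have := key s hs hs19 1
    rw [pow_one] at this
    exact this h
  simp only [hr.dvd_mul] at hdvd
  rcases hdvd with (((((h | h) | h) | h) | h) | h) | h
  · exact key1 2 (by norm_num) (by norm_num) h
  · exact key 3 (by norm_num) (by norm_num) 4 h
  · exact key1 5 (by norm_num) (by norm_num) h
  · exact key 11 (by norm_num) (by norm_num) 4 h
  · exact key1 7 (by norm_num) (by norm_num) h
  · exact key1 13 (by norm_num) (by norm_num) h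
  · exact key 19 (by norm_num) (by norm_num) 4 h

end Pool.Agent.S11118
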