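import Pool.Statements.S11133
-- import your own Pool.Agent.* helpers here

set_option autoImplicit false
open N41f07a28
open Asymptotics Filter
open Pool Pool.MP_1d29c3_nt

namespace Pool.Agent.S11133

open Finset

/-- weight -/
noncomputable def w (p : ℕ) : ℝ := 1 / Real.sqrt p

lemma w_nonneg (p : ℕ) : 0 ≤ w p := by unfold w; positivity

/-- forced primes -/
def FF (n t : ℕ) : Finset ℕ := (Icc 1 n).biUnion (fun a => (1 + t / a).primeFactors)

lemma tail_step (k : ℕ) (hk : 1 ≤ k) :
    w (k + 1) / ((k : ℝ) + 1) ≤ 2 * (w k - w (k + 1)) := by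
  unfold w
  push_cast
  have hk0 : (0 : ℝ) < k := by exact_mod_cast hk
  set a := Real.sqrt k with ha
  set b := Real.sqrt ((k : ℝ) + 1) with hb
  have ha0 : 0 < a := Real.sqrt_pos.2 hk0
  have hb0 : 0 < b := Real.sqrt_pos.2 (by linarith)
  have ha2 : a * a = k := Real.mul_self_sqrt hk0.le
  have hb2 : b * b = k + 1 := Real.mul_self_sqrt (by linarith)
  have hab : a ≤ b := Real.sqrt_le_sqrt (by linarith)
  rw [div_sub_div _ _ ha0.ne' hb0.ne', ← hb2]
  rw [one_mul, mul_one, div_div, mul_div_assoc']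
  rw [div_le_div_iff₀ (by positivity) (by positivity)]
  -- 1 * (a*b) ≤ 2*(b-a) * (b*(b*b))
  have h1 : (b - a) * (b + a) = 1 := by nlinarith
  have h2 : 1 ≤ (b - a) * (2 * b) := by nlinarith
  have h3 : a * b ≤ b * b := mul_le_mul_of_nonneg_right hab hb0.le
  have h4 : 0 ≤ b * b := by positivity
  calc 1 * (a * b) ≤ b * b := by linarith
    _ ≤ ((b - a) * (2 * b)) * (b * b) := le_mul_of_one_le_left h4 h2
    _ = _ := by ring

lemma tail (M Y : ℕ) (hM : 1 ≤ M) (hMY : M ≤ Y) :
    ∑ p ∈ Ioc M Y, w p / p ≤ 2 * (w M - w Y) := by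
  induction Y, hMY using Nat.le_induction with
  | base => simp
  | succ Y hY ih =>
    rw [sum_Ioc_succ_top (by omega)]
    have := tail_step Y (by omega)
    push_cast
    linarith

lemma count_m (p c Y : ℕ) (hp : p.Prime) (hpY : p ≤ Y) :
    (((Icc 1 Y).filter (fun m => p ∣ 1 + m * c)).card : ℝ) ≤ 2 * Y / p := by
  have hp0 : (0 : ℝ) < p := by exact_mod_cast hp.pos
  have h1 : ((Icc 1 Y).filter (fun m => p ∣ 1 + m * c)).card ≤ Y / p + 1 := by
    have : ((Icc 1 Y).filter (fun m => p ∣ 1 + m * c)).card ≤ (range (Y / p + 1)).card := by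
      apply card_le_card_of_injOn (fun m => m / p)
      · intro m hm
        rw [mem_coe, mem_filter, mem_Icc] at hm
        rw [mem_coe, mem_range]
        beta_reduce
        exact Nat.lt_succ_of_le (Nat.div_le_div_right hm.1.2)
      · intro m hm m' hm' he
        rw [mem_coe, mem_filter] at hm hm'
        beta_reduce at he
        have h2 : m ≡ m' [MOD p] := by
          have h3 : 1 + m * c ≡ 1 + m' * c [MOD p] :=
            ((Nat.modEq_zero_iff_dvd).2 hm.2).trans ((Nat.modEq_zero_iff_dvd).2 hm'.2).symm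
          have h4 : m * c ≡ m' * c [MOD p] := Nat.ModEq.add_left_cancel' 1 h3
          apply Nat.ModEq.cancel_right_of_coprime _ h4
          refine (Nat.Prime.coprime_iff_not_dvd hp).2 ?_
          intro h5
          have h6 : p ∣ m * c := h5.mul_left m
          have h7 : p ∣ 1 := (Nat.dvd_add_left h6).1 hm.2
          exact hp.one_lt.ne' (Nat.dvd_one.1 h7)
        have h5 : m % p = m' % p := h2
        rw [← Nat.div_add_mod m p, ← Nat.div_add_mod m' p, he, h5]
    rwa [card_range] at this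
  have h2 : (((Icc 1 Y).filter (fun m => p ∣ 1 + m * c)).card : ℝ) ≤ (Y / p : ℕ) + 1 := by
    exact_mod_cast h1
  have h3 : ((Y / p : ℕ) : ℝ) ≤ Y / p := Nat.cast_div_le
  have h4 : (1 : ℝ) ≤ Y / p := by
    rw [le_div_iff₀ hp0, one_mul]
    exact_mod_cast hpY
  have h5 : (2 : ℝ) * Y / p = Y / p + Y / p := by ring
  rw [h5]
  linarith

/-- number of large prime factors -/
lemma large_primes (z M k : ℕ) (hM : 3 ≤ M) (hz : z ≤ 2 * M ^ (4 + 2 * M)) (hz0 : 0 < z)
    (S : Finset ℕ) (hS : S ⊆ z.primeFactors) (hSY : ∀ p ∈ S, M ^ 4 ≤ p) (hk : S.card = k) : k ≤ M := by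
  have h1 : (M ^ 4) ^ k ≤ ∏ p ∈ S, p := by
    rw [← hk, ← prod_const]
    exact prod_le_prod' hSY
  have h2 : ∏ p ∈ S, p ≤ z := by
    have h3 : ∏ p ∈ S, p ≤ ∏ p ∈ z.primeFactors, p := by
      apply prod_le_prod_of_subset_of_one_le' hS
      intro p hp _
      exact (Nat.prime_of_mem_primeFactors hp).one_le
    exact h3.trans (Nat.le_of_dvd hz0 (Nat.prod_primeFactors_dvd z))
  have h3 : M ^ (4 * k) < M ^ (5 + 2 * M) := by
    calc M ^ (4 * k) = (M ^ 4) ^ k := by rw [pow_mul]
      _ ≤ 2 * M ^ (4 + 2 * M) := (h1.trans h2).trans hz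
      _ < M * M ^ (4 + 2 * M) := by
          apply Nat.mul_lt_mul_of_pos_right (by omega)
          positivity
      _ = M ^ (5 + 2 * M) := by rw [← pow_succ']; congr 1; omega
  have h4 := (Nat.pow_lt_pow_iff_right (by omega : 1 < M)).1 h3
  omega

lemma core (n : ℕ) (ε : ℝ) (hε : 0 < ε) : ∃ t : ℕ, 1 ≤ t ∧ (∀ a, 1 ≤ a → a ≤ n → a ∣ t) ∧
    ∑ p ∈ FF n t, w p ≤ ε := by
  classical
  obtain ⟨s, hs⟩ := exists_nat_ge (5 * n / ε + n + 3)
  have hsn : (n : ℝ) + 3 ≤ s := by
    have : (0 : ℝ) ≤ 5 * n / ε := by positivity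
    linarith
  have hsn' : n + 3 ≤ s := by exact_mod_cast hsn
  have hs5 : 5 * n / ε ≤ s := by
    have : (0 : ℝ) ≤ n := by positivity
    linarith
  set M := s ^ 2 with hM
  have hMs : s ≤ M := by nlinarith
  set Y := M ^ 4 with hY
  have hMY : M ≤ Y := by
    calc M = M ^ 1 := (pow_one M).symm
      _ ≤ M ^ 4 := Nat.pow_le_pow_right (by omega) (by norm_num)
  have hs0 : (0 : ℝ) < s := by linarith [show (0 : ℝ) ≤ n by positivity]
  have hwM : w M = 1 / s := by
    unfold w
    rw [hM]
    push_cast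
    rw [Real.sqrt_sq hs0.le]
  have hwY : ∀ p : ℕ, Y ≤ p → w p ≤ 1 / (M : ℝ) ^ 2 := by
    intro p hp
    unfold w
    have hM0 : (0 : ℝ) < M := by exact_mod_cast (by omega : 0 < M)
    apply one_div_le_one_div_of_le (by positivity)
    apply Real.le_sqrt_of_sq_le
    have : ((M : ℝ) ^ 2) ^ 2 = (Y : ℝ) := by rw [hY]; push_cast; ring
    rw [this]
    exact_mod_cast hp
  set T := M.factorial * M.factorial with hT
  have hdiv : ∀ m a, 1 ≤ a → a ≤ n → m * T / a = m * (M.factorial * (M.factorial / a)) := by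
    intro m a ha han
    have h1 : a ∣ M.factorial := Nat.dvd_factorial ha (by omega)
    rw [hT]
    rw [Nat.mul_div_assoc _ (h1.mul_left _), Nat.mul_div_assoc _ h1]
  -- averaging
  have havg : ∑ m ∈ Icc 1 Y, ∑ a ∈ Icc 1 n, ∑ p ∈ Ioc M Y,
      (if p.Prime ∧ p ∣ 1 + m * (M.factorial * (M.factorial / a)) then w p else 0) ≤
      ∑ m ∈ Icc 1 Y, (4 * n / s : ℝ) := by
    have e1 : ∑ m ∈ Icc 1 Y, (4 * n / s : ℝ) = Y * (4 * n / s) := by simp
    rw [e1, sum_comm]
    have h1 : ∀ a ∈ Icc 1 n, ∑ m ∈ Icc 1 Y, ∑ p ∈ Ioc M Y,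
      (if p.Prime ∧ p ∣ 1 + m * (M.factorial * (M.factorial / a)) then w p else 0) ≤ Y * (4 / s) := by
      intro a _
      rw [sum_comm]
      have h2 : ∀ p ∈ Ioc M Y, ∑ m ∈ Icc 1 Y,
        (if p.Prime ∧ p ∣ 1 + m * (M.factorial * (M.factorial / a)) then w p else 0) ≤
          2 * Y * (w p / p) := by
        intro p hp
        rw [mem_Ioc] at hp
        by_cases hpp : p.Prime
        · have h3 : ∑ m ∈ Icc 1 Y,
            (if p.Prime ∧ p ∣ 1 + m * (M.factorial * (M.factorial / a)) then w p else 0) =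
            ((Icc 1 Y).filter (fun m => p ∣ 1 + m * (M.factorial * (M.factorial / a)))).card * w p := by
            rw [← sum_filter, sum_const, nsmul_eq_mul]
            congr 2
            congr 1
            apply filter_congr
            intro m _
            simp [hpp]
          rw [h3]
          have h4 := count_m p (M.factorial * (M.factorial / a)) Y hpp hp.2
          calc _ ≤ (2 * Y / p) * w p := mul_le_mul_of_nonneg_right h4 (w_nonneg p)
            _ = _ := by ring
        · rw [sum_eq_zero]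
          · have := w_nonneg p
            positivity
          · intro m _
            rw [if_neg (fun h => hpp h.1)]
      refine (sum_le_sum h2).trans ?_
      rw [← mul_sum]
      have h3 := tail M Y (by omega) hMY
      have h4 := w_nonneg Y
      rw [hwM] at h3
      have h5 : (0 : ℝ) ≤ 2 * Y := by positivity
      calc 2 * (Y : ℝ) * ∑ p ∈ Ioc M Y, w p / p ≤ 2 * Y * (2 * (1 / s)) := by
            apply mul_le_mul_of_nonneg_left _ h5
            linarith
        _ = _ := by ring
    refine (sum_le_sum h1).trans (le_of_eq ?_)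
    rw [sum_const, Nat.card_Icc, nsmul_eq_mul, Nat.add_sub_cancel]
    ring
  obtain ⟨m, hm, hmle⟩ := exists_le_of_sum_le (⟨1, mem_Icc.2 ⟨le_rfl, by omega⟩⟩ : (Icc 1 Y).Nonempty) havg
  rw [mem_Icc] at hm
  have hT0 : 0 < T := Nat.mul_pos (Nat.factorial_pos _) (Nat.factorial_pos _)
  refine ⟨m * T, Nat.mul_pos hm.1 hT0, ?_, ?_⟩
  · intro a ha han
    exact ((Nat.dvd_factorial ha (by omega : a ≤ M)).mul_left _).mul_left _
  -- bound the weight
  have hsub : FF n (m * T) ⊆
      ((Icc 1 n).biUnion (fun a => (Ioc M Y).filter (fun p => p.Prime ∧ p ∣ 1 + m * (M.factorial * (M.factorial / a))))) ∪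
      ((Icc 1 n).biUnion (fun a => ((1 + m * (M.factorial * (M.factorial / a))).primeFactors).filter (fun p => Y ≤ p))) := by
    intro p hp
    unfold FF at hp
    rw [mem_biUnion] at hp
    obtain ⟨a, ha, hp⟩ := hp
    rw [mem_Icc] at ha
    rw [hdiv m a ha.1 ha.2] at hp
    have hpp := Nat.prime_of_mem_primeFactors hp
    have hpd := Nat.dvd_of_mem_primeFactors hp
    rw [mem_union, mem_biUnion, mem_biUnion]
    by_cases hpY : Y ≤ p
    · right
      exact ⟨a, mem_Icc.2 ha, mem_filter.2 ⟨hp, hpY⟩⟩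
    · left
      refine ⟨a, mem_Icc.2 ha, mem_filter.2 ⟨mem_Ioc.2 ⟨?_, by omega⟩, hpp, hpd⟩⟩
      by_contra h
      push Not at h
      have h1 : p ∣ M.factorial := Nat.dvd_factorial hpp.pos h
      have h2 : p ∣ m * (M.factorial * (M.factorial / a)) := (h1.mul_right _).mul_left _
      have h3 : p ∣ 1 := (Nat.dvd_add_left h2).1 hpd
      exact hpp.one_lt.ne' (Nat.dvd_one.1 h3)
  have hbi : ∀ (G : ℕ → Finset ℕ), ∑ p ∈ (Icc 1 n).biUnion G, w p ≤ ∑ a ∈ Icc 1 n, ∑ p ∈ G a, w p := by
    intro G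
    induction (Icc 1 n) using Finset.induction_on with
    | empty => simp
    | insert a S ha ih =>
      rw [biUnion_insert, sum_insert ha]
      have h1 := sum_union_inter (s₁ := G a) (s₂ := S.biUnion G) (f := w)
      have h2 : 0 ≤ ∑ p ∈ G a ∩ S.biUnion G, w p := sum_nonneg (fun _ _ => w_nonneg _)
      linarith
  have hA : ∑ p ∈ ((Icc 1 n).biUnion (fun a => (Ioc M Y).filter (fun p => p.Prime ∧ p ∣ 1 + m * (M.factorial * (M.factorial / a))))), w p ≤ 4 * n / s := by
    refine (hbi _).trans ?_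
    refine le_trans (le_of_eq ?_) hmle
    apply sum_congr rfl
    intro a _
    rw [sum_filter]
  have hB : ∑ p ∈ ((Icc 1 n).biUnion (fun a => ((1 + m * (M.factorial * (M.factorial / a))).primeFactors).filter (fun p => Y ≤ p))), w p ≤ n / s := by
    refine (hbi _).trans ?_
    have h1 : ∀ a ∈ Icc 1 n, ∑ p ∈ ((1 + m * (M.factorial * (M.factorial / a))).primeFactors).filter (fun p => Y ≤ p), w p ≤ 1 / s := by
      intro a ha
      set z := 1 + m * (M.factorial * (M.factorial / a)) with hz
      have hzle : z ≤ 2 * M ^ (4 + 2 * M) := by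
        have h2 : M.factorial ≤ M ^ M := Nat.factorial_le_pow M
        have h3 : m * (M.factorial * (M.factorial / a)) ≤ M ^ 4 * (M ^ M * M ^ M) := by
          apply Nat.mul_le_mul hm.2
          apply Nat.mul_le_mul h2
          exact (Nat.div_le_self _ _).trans h2
        have h4 : M ^ 4 * (M ^ M * M ^ M) = M ^ (4 + 2 * M) := by
          rw [← pow_add, ← pow_add]; congr 1; omega
        have h5 : 1 ≤ M ^ (4 + 2 * M) := Nat.one_le_pow _ _ (by omega)
        rw [h4] at h3
        omega
      have h2 := large_primes z M _ (by omega) hzle (by omega)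
        ((z.primeFactors).filter (fun p => Y ≤ p)) (filter_subset _ _)
        (fun p hp => (mem_filter.1 hp).2) rfl
      have h2' : (((z.primeFactors).filter (fun p => Y ≤ p)).card : ℝ) ≤ M := by exact_mod_cast h2
      calc ∑ p ∈ (z.primeFactors).filter (fun p => Y ≤ p), w p
          ≤ ∑ p ∈ (z.primeFactors).filter (fun p => Y ≤ p), (1 / (M : ℝ) ^ 2) := by
            apply sum_le_sum
            intro p hp
            exact hwY p (mem_filter.1 hp).2
        _ = ((z.primeFactors).filter (fun p => Y ≤ p)).card * (1 / (M : ℝ) ^ 2) := by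
            rw [sum_const, nsmul_eq_mul]
        _ ≤ M * (1 / (M : ℝ) ^ 2) := mul_le_mul_of_nonneg_right h2' (by positivity)
        _ = 1 / M := by
            have hM0 : (M : ℝ) ≠ 0 := by exact_mod_cast (by omega : M ≠ 0)
            field_simp
        _ ≤ 1 / s := by
            apply one_div_le_one_div_of_le hs0
            exact_mod_cast hMs
    refine (sum_le_sum h1).trans (le_of_eq ?_)
    rw [sum_const, Nat.card_Icc, nsmul_eq_mul, Nat.add_sub_cancel]
    ring
  have h1 : ∑ p ∈ FF n (m * T), w p ≤ 4 * n / s + n / s := by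
    refine (sum_le_sum_of_subset_of_nonneg hsub (fun _ _ _ => w_nonneg _)).trans ?_
    have h1 := sum_union_inter (s₁ := ((Icc 1 n).biUnion (fun a => (Ioc M Y).filter (fun p => p.Prime ∧ p ∣ 1 + m * (M.factorial * (M.factorial / a)))))) (s₂ := ((Icc 1 n).biUnion (fun a => ((1 + m * (M.factorial * (M.factorial / a))).primeFactors).filter (fun p => Y ≤ p)))) (f := w)
    have h2 : 0 ≤ ∑ p ∈ (((Icc 1 n).biUnion (fun a => (Ioc M Y).filter (fun p => p.Prime ∧ p ∣ 1 + m * (M.factorial * (M.factorial / a))))) ∩ ((Icc 1 n).biUnion (fun a => ((1 + m * (M.factorial * (M.factorial / a))).primeFactors).filter (fun p => Y ≤ p)))), w p := sum_nonneg (fun _ _ => w_nonneg _)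
    linarith
  refine h1.trans ?_
  rw [← add_div, div_le_iff₀ hs0]
  rw [div_le_iff₀ hε] at hs5
  linarith

lemma parity_count (x r : ℕ) (hr : r ≤ 1) :
    Nat.count Nat.Prime (x + 1) / 2 ≤
      ((Icc 1 x).filter (fun p => p.Prime ∧ Nat.count Nat.Prime p % 2 = r)).card := by
  classical
  have hinf : (Set.ofPred Nat.Prime).Infinite := Nat.infinite_setOfPred_prime
  have : (range (Nat.count Nat.Prime (x + 1) / 2)).card ≤
      ((Icc 1 x).filter (fun p => p.Prime ∧ Nat.count Nat.Prime p % 2 = r)).card := by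
    apply card_le_card_of_injOn (fun i => Nat.nth Nat.Prime (2 * i + r))
    · intro i hi
      rw [mem_coe, mem_range] at hi
      rw [mem_coe, mem_filter, mem_Icc]
      beta_reduce
      have h1 : 2 * i + r < Nat.count Nat.Prime (x + 1) := by omega
      have h2 := Nat.nth_lt_of_lt_count h1
      have h3 : (Nat.nth Nat.Prime (2 * i + r)).Prime := Nat.prime_nth_prime _
      refine ⟨⟨h3.one_le, by omega⟩, h3, ?_⟩
      rw [Nat.count_nth_of_infinite hinf]
      omega
    · intro i _ j _ hij
      beta_reduce at hij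
      have := Nat.nth_injective hinf hij
      omega
  rwa [card_range] at this

/-- There exists a set P of primes with both P and its complement in the primes having ≫ x/log x elements up to x, such that the set of positive integers with all prime factors in P has the translation property. -/
theorem result :
    ∃ P : Set ℕ, P ⊆ {p : ℕ | p.Prime} ∧ (fun x : ℕ ↦ (x : ℝ) / Real.log x) =O[atTop] (fun x ↦ ((P ∩ Set.Iic x).ncard : ℝ)) ∧ (fun x : ℕ ↦ (x : ℝ) / Real.log x) =O[atTop] (fun x ↦ ((({p : ℕ | p.Prime} \ P) ∩ Set.Iic x).ncard : ℝ)) ∧ HasTranslationProperty (composedOf P) := by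
  classical
  have hcore := fun n : ℕ => core n ((1 / 2) ^ (n + 1)) (by positivity)
  choose t ht1 ht2 ht3 using hcore
  set P : Set ℕ := {p | p.Prime ∧ (Nat.count Nat.Prime p % 2 = 0 ∨ ∃ n, p ∈ FF n (t n))} with hP
  -- forced primes are few
  have hfew : ∀ x : ℕ, (((Icc 1 x).filter (fun p => ∃ n, p ∈ FF n (t n))).card : ℝ) ≤ Real.sqrt x := by
    intro x
    set Fx := (Icc 1 x).filter (fun p => ∃ n, p ∈ FF n (t n)) with hFx
    rcases Nat.eq_zero_or_pos x with h0 | h0
    · subst h0
      rw [hFx]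
      simp
    have hx0 : (0 : ℝ) < x := by exact_mod_cast h0
    have hex : ∀ p ∈ Fx, ∃ n, p ∈ FF n (t n) := fun p hp => (mem_filter.1 hp).2
    choose! g hg using hex
    set R := Fx.sup g + 1 with hR
    have hsub : Fx ⊆ (range R).biUnion (fun n => FF n (t n)) := by
      intro p hp
      rw [mem_biUnion]
      refine ⟨g p, ?_, hg p hp⟩
      rw [mem_range, hR]
      exact Nat.lt_succ_of_le (le_sup (f := g) hp)
    have hbi : ∀ R : ℕ, ∑ p ∈ (range R).biUnion (fun n => FF n (t n)), w p ≤ 1 - (1 / 2) ^ R := by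
      intro R
      induction R with
      | zero => simp
      | succ R ih =>
        rw [range_add_one, biUnion_insert]
        have h1 := sum_union_inter (s₁ := FF R (t R)) (s₂ := (range R).biUnion (fun n => FF n (t n))) (f := w)
        have h2 : 0 ≤ ∑ p ∈ FF R (t R) ∩ (range R).biUnion (fun n => FF n (t n)), w p :=
          sum_nonneg (fun _ _ => w_nonneg _)
        have h3 := ht3 R
        have h4 : ((1 : ℝ) / 2) ^ (R + 1) = (1 / 2) ^ R / 2 := by rw [pow_succ]; ring
        rw [h4] at h3 ⊢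
        linarith
    have h1 : ∑ p ∈ Fx, w p ≤ 1 := by
      refine (sum_le_sum_of_subset_of_nonneg hsub (fun _ _ _ => w_nonneg _)).trans ?_
      have h2 := hbi R
      have h3 : (0 : ℝ) < (1 / 2) ^ R := by positivity
      linarith
    have h2 : Fx.card * (1 / Real.sqrt x) ≤ ∑ p ∈ Fx, w p := by
      rw [← nsmul_eq_mul, ← sum_const]
      apply sum_le_sum
      intro p hp
      rw [hFx, mem_filter, mem_Icc] at hp
      unfold w
      apply one_div_le_one_div_of_le
      · exact Real.sqrt_pos.2 (by exact_mod_cast (by omega : 0 < p))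
      · exact Real.sqrt_le_sqrt (by exact_mod_cast hp.1.2)
    have h3 := h2.trans h1
    have hs : 0 < Real.sqrt x := Real.sqrt_pos.2 hx0
    rw [mul_one_div, div_le_one hs] at h3
    exact h3
  -- counts
  have hPc : ∀ x : ℕ, (Nat.primeCounting x : ℝ) / 2 - 1 - Real.sqrt x ≤ ((P ∩ Set.Iic x).ncard : ℝ) := by
    intro x
    have h1 := parity_count x 0 (by norm_num)
    have h2 : (P ∩ Set.Iic x) = (((Icc 1 x).filter (fun p => p ∈ P) : Finset ℕ) : Set ℕ) := by
      ext p
      rw [Set.mem_inter_iff, Set.mem_Iic, mem_coe, mem_filter, mem_Icc]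
      constructor
      · rintro ⟨h1, h2⟩
        exact ⟨⟨h1.1.one_le, h2⟩, h1⟩
      · rintro ⟨⟨_, h2⟩, h1⟩
        exact ⟨h1, h2⟩
    rw [h2, Set.ncard_coe_finset]
    have h3 : ((Icc 1 x).filter (fun p => p.Prime ∧ Nat.count Nat.Prime p % 2 = 0)).card ≤
        ((Icc 1 x).filter (fun p => p ∈ P)).card := by
      apply card_le_card
      intro p hp
      rw [mem_filter] at hp ⊢
      exact ⟨hp.1, hp.2.1, Or.inl hp.2.2⟩
    have h4 : Nat.primeCounting x ≤ 2 * (((Icc 1 x).filter (fun p => p ∈ P)).card) + 1 := by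
      have : Nat.primeCounting x = Nat.count Nat.Prime (x + 1) := rfl
      omega
    have h5 : (Nat.primeCounting x : ℝ) ≤ 2 * (((Icc 1 x).filter (fun p => p ∈ P)).card) + 1 := by
      exact_mod_cast h4
    have h6 := Real.sqrt_nonneg x
    linarith
  have hQc : ∀ x : ℕ, (Nat.primeCounting x : ℝ) / 2 - 1 - Real.sqrt x ≤ ((({p : ℕ | p.Prime} \ P) ∩ Set.Iic x).ncard : ℝ) := by
    intro x
    have h1 := parity_count x 1 (by norm_num)
    have h2 : (({p : ℕ | p.Prime} \ P) ∩ Set.Iic x) = (((Icc 1 x).filter (fun p => p.Prime ∧ p ∉ P) : Finset ℕ) : Set ℕ) := by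
      ext p
      rw [Set.mem_inter_iff, Set.mem_Iic, mem_coe, mem_filter, mem_Icc, Set.mem_sdiff, Set.mem_ofPred_eq]
      constructor
      · rintro ⟨h1, h2⟩
        exact ⟨⟨h1.1.one_le, h2⟩, h1⟩
      · rintro ⟨⟨_, h2⟩, h1⟩
        exact ⟨h1, h2⟩
    rw [h2, Set.ncard_coe_finset]
    have h3 : ((Icc 1 x).filter (fun p => p.Prime ∧ Nat.count Nat.Prime p % 2 = 1)).card ≤
        ((Icc 1 x).filter (fun p => p.Prime ∧ p ∉ P)).card + ((Icc 1 x).filter (fun p => ∃ n, p ∈ FF n (t n))).card := by
      refine (card_le_card ?_).trans (card_union_le _ _)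
      intro p hp
      rw [mem_filter] at hp
      rw [mem_union, mem_filter, mem_filter]
      by_cases h : ∃ n, p ∈ FF n (t n)
      · exact Or.inr ⟨hp.1, h⟩
      · left
        refine ⟨hp.1, hp.2.1, ?_⟩
        rintro ⟨_, h1 | h1⟩
        · omega
        · exact h h1
    have h4 : Nat.primeCounting x ≤ 2 * (((Icc 1 x).filter (fun p => p.Prime ∧ p ∉ P)).card + ((Icc 1 x).filter (fun p => ∃ n, p ∈ FF n (t n))).card) + 1 := by
      have : Nat.primeCounting x = Nat.count Nat.Prime (x + 1) := rfl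
      omega
    have h5 : (Nat.primeCounting x : ℝ) ≤ 2 * (((Icc 1 x).filter (fun p => p.Prime ∧ p ∉ P)).card + ((Icc 1 x).filter (fun p => ∃ n, p ∈ FF n (t n))).card) + 1 := by
      exact_mod_cast h4
    have h6 := hfew x
    linarith
  -- analysis
  have hmain : ∀ᶠ x : ℕ in atTop, (x : ℝ) / Real.log x ≤ 8 * ((Nat.primeCounting x : ℝ) / 2 - 1 - Real.sqrt x) := by
    have hlo : Tendsto (fun x : ℝ => Real.log x / Real.sqrt x) atTop (nhds 0) := by
      have := isLittleO_log_rpow_atTop (show (0 : ℝ) < 1 / 2 by norm_num)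
      have h2 := this.tendsto_div_nhds_zero
      refine h2.congr (fun x => ?_)
      rw [Real.sqrt_eq_rpow]
    have hlo2 : Tendsto (fun x : ℕ => Real.log x / Real.sqrt x) atTop (nhds 0) :=
      hlo.comp tendsto_natCast_atTop_atTop
    have h1 : ∀ᶠ x : ℕ in atTop, Real.log x / Real.sqrt x < 1 / 100 :=
      hlo2.eventually_lt_const (by norm_num)
    filter_upwards [h1, eventually_ge_atTop 10000] with x hx hx4
    have hx4' : (10000 : ℝ) ≤ x := by exact_mod_cast hx4
    have hx0 : (0 : ℝ) < x := by linarith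
    set s := Real.sqrt x with hs
    have hs0 : 0 < s := Real.sqrt_pos.2 hx0
    have hss : s * s = x := Real.mul_self_sqrt hx0.le
    have hs100 : 100 ≤ s := Real.le_sqrt_of_sq_le (by linarith)
    rw [div_lt_iff₀ hs0] at hx
    have hlog : 0 < Real.log x := Real.log_pos (by linarith)
    have hpi := Chebyshev.pi_ge x
    have hlog1 : Real.log ((x : ℝ) + 1) ≤ Real.log x + 1 := by
      have : Real.log ((x : ℝ) + 1) ≤ Real.log (x * Real.exp 1) := by
        apply Real.log_le_log (by linarith)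
        have := Real.exp_one_gt_d9
        nlinarith
      rw [Real.log_mul hx0.ne' (Real.exp_pos 1).ne', Real.log_exp] at this
      exact this
    have hl2 := Real.log_two_gt_d9
    have h2 : (6 / 10 : ℝ) * x / Real.log x ≤ Nat.primeCounting x := by
      refine le_trans ?_ hpi
      apply div_le_div_of_nonneg_right _ hlog.le
      nlinarith
    -- s ≤ x/(100 log x)
    have h3 : s ≤ (1 / 100) * (x / Real.log x) := by
      rw [mul_div_assoc', le_div_iff₀ hlog]
      nlinarith
    have h4 : (6 / 10 : ℝ) * x / Real.log x = (6 / 10) * (x / Real.log x) := by ring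
    rw [h4] at h2
    linarith
  refine ⟨P, fun p hp => hp.1, ?_, ?_, ?_⟩
  · apply IsBigO.of_bound 8
    filter_upwards [hmain, eventually_ge_atTop 2] with x hx hx2
    rw [Real.norm_of_nonneg (by have := Real.log_natCast_nonneg x; positivity), Real.norm_of_nonneg (by positivity)]
    have := hPc x
    linarith
  · apply IsBigO.of_bound 8
    filter_upwards [hmain, eventually_ge_atTop 2] with x hx hx2
    rw [Real.norm_of_nonneg (by have := Real.log_natCast_nonneg x; positivity), Real.norm_of_nonneg (by positivity)]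
    have := hQc x
    linarith
  · intro n
    refine ⟨t n, ht1 n, fun a ha han => ?_⟩
    have hat := ht2 n a ha han
    have hfac : a + t n = a * (1 + t n / a) := by
      rw [mul_add, mul_one, Nat.mul_div_cancel' hat]
    constructor
    · rintro ⟨_, h2⟩
      refine ⟨by omega, fun p hp hpd => ?_⟩
      rw [hfac, hp.dvd_mul] at hpd
      rcases hpd with h | h
      · exact h2 p hp h
      · refine ⟨hp, Or.inr ⟨n, ?_⟩⟩
        unfold FF
        rw [mem_biUnion]
        exact ⟨a, mem_Icc.2 ⟨ha, han⟩, Nat.mem_primeFactors.2 ⟨hp, h, by positivity⟩⟩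
    · rintro ⟨_, h2⟩
      refine ⟨ha, fun p hp hpd => h2 p hp ?_⟩
      rw [hfac]
      exact hpd.mul_right _

end Pool.Agent.S11133
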