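import Pool.Statements.S11405
-- import your own Pool.Agent.* helpers here
import Pool.Agent.H25.PairBound

set_option autoImplicit false
open Pool Pool.MP_3aed06_nt

namespace Pool.Agent.S11405

open Finset Pool.Agent.H25.PairBound

/-- distance of two naturals -/
def D (p q : ℕ) : ℕ := (p - q) + (q - p)

lemma D_comm (p q : ℕ) : D p q = D q p := by unfold D; omega

noncomputable def F (s : Finset ℕ) (u q : ℕ) : ℝ :=
  ∑ p ∈ s.filter (fun p => D p q ≤ 2 ^ u), 1 / (D p q : ℝ)

lemma F_mono (s : Finset ℕ) {u v : ℕ} (h : u ≤ v) (q : ℕ) : F s u q ≤ F s v q := by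
  unfold F
  apply sum_le_sum_of_subset_of_nonneg
  · intro p hp
    rw [mem_filter] at hp ⊢
    exact ⟨hp.1, hp.2.trans (Nat.pow_le_pow_right (by norm_num) h)⟩
  · intro _ _ _; positivity

/-- pointwise bound for F -/
lemma F_le (s : Finset ℕ) (hs : ∀ p ∈ s, p.Prime) (v p : ℕ) :
    F s v p ≤ ∑ d ∈ Icc (1 : ℕ) (2 ^ v),
      ((if (p + d).Prime then (1 : ℝ) else 0) / d + (if d ≤ p ∧ (p - d).Prime then (1 : ℝ) else 0) / d) := by
  unfold F
  calc ∑ r ∈ s.filter (fun r => D r p ≤ 2 ^ v), 1 / (D r p : ℝ)
      ≤ ∑ r ∈ s.filter (fun r => D r p ≤ 2 ^ v), ∑ d ∈ Icc (1 : ℕ) (2 ^ v),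
          (if D r p = d then (1 : ℝ) / d else 0) := by
        apply sum_le_sum
        intro r hr
        rw [mem_filter] at hr
        by_cases h0 : D r p = 0
        · rw [h0]
          simp only [Nat.cast_zero, div_zero]
          apply sum_nonneg
          intro d _
          split_ifs <;> positivity
        · rw [sum_ite_eq, if_pos (mem_Icc.2 ⟨by omega, hr.2⟩)]
    _ ≤ ∑ r ∈ s, ∑ d ∈ Icc (1 : ℕ) (2 ^ v), (if D r p = d then (1 : ℝ) / d else 0) := by
        apply sum_le_sum_of_subset_of_nonneg (filter_subset _ _)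
        intro r _ _
        apply sum_nonneg
        intro d _
        split_ifs <;> positivity
    _ = ∑ d ∈ Icc (1 : ℕ) (2 ^ v), ∑ r ∈ s, (if D r p = d then (1 : ℝ) / d else 0) := sum_comm
    _ ≤ _ := by
        apply sum_le_sum
        intro d hd
        rw [mem_Icc] at hd
        have hd0 : (0 : ℝ) < d := by exact_mod_cast (by omega : 0 < d)
        calc ∑ r ∈ s, (if D r p = d then (1 : ℝ) / d else 0)
            ≤ ∑ r ∈ s, ((if p + d = r then (1 : ℝ) / d else 0) +
                (if p - d = r then (if d ≤ p then (1 : ℝ) / d else 0) else 0)) := by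
              apply sum_le_sum
              intro r _
              by_cases h : D r p = d
              · rw [if_pos h]
                unfold D at h
                by_cases h2 : p + d = r
                · rw [if_pos h2]
                  have : (0 : ℝ) ≤ (if p - d = r then (if d ≤ p then (1 : ℝ) / d else 0) else 0) := by
                    split_ifs <;> positivity
                  linarith
                · rw [if_neg h2, if_pos (by omega), if_pos (by omega)]
                  simp
              · rw [if_neg h]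
                have h1 : (0 : ℝ) ≤ (if p - d = r then (if d ≤ p then (1 : ℝ) / d else 0) else 0) := by
                  split_ifs <;> positivity
                have h2 : (0 : ℝ) ≤ (if p + d = r then (1 : ℝ) / d else 0) := by
                  split_ifs <;> positivity
                linarith
          _ = (if p + d ∈ s then (1 : ℝ) / d else 0) +
                (if p - d ∈ s then (if d ≤ p then (1 : ℝ) / d else 0) else 0) := by
              rw [sum_add_distrib, sum_ite_eq, sum_ite_eq]
          _ ≤ _ := by
              apply add_le_add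
              · by_cases h : p + d ∈ s
                · rw [if_pos h, if_pos (hs _ h)]
                · rw [if_neg h]
                  split_ifs <;> positivity
              · by_cases h : p - d ∈ s
                · rw [if_pos h]
                  by_cases h2 : d ≤ p
                  · rw [if_pos h2, if_pos ⟨h2, hs _ h⟩]
                  · rw [if_neg h2]
                    split_ifs <;> positivity
                · rw [if_neg h]
                  split_ifs <;> positivity

lemma F_sum (s : Finset ℕ) (hs : ∀ p ∈ s, p.Prime) (q U v : ℕ) :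
    ∑ p ∈ s.filter (fun p => D p q ≤ 2 ^ U), F s v p ≤
      300000 * ((v : ℝ) + 1) * (2 ^ U / ((U : ℝ) + 1) ^ 2) := by
  set W := s.filter (fun p => D p q ≤ 2 ^ U) with hW
  have hU : 2 ^ (U + 2) = 4 * 2 ^ U := by ring
  have hU0 : 0 < 2 ^ U := by positivity
  have h1 : ∀ d ∈ Icc (1 : ℕ) (2 ^ v), ∑ p ∈ W, (if (p + d).Prime then (1 : ℝ) else 0) ≤
      N (q - 2 ^ U) (2 ^ (U + 2)) d := by
    intro d _
    rw [sum_boole]
    norm_cast
    unfold N
    apply card_le_card
    intro p hp
    rw [mem_filter, hW, mem_filter] at hp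
    rw [mem_filter, mem_Ico]
    obtain ⟨⟨hps, hpD⟩, hpd⟩ := hp
    unfold D at hpD
    refine ⟨⟨by omega, by omega⟩, hs p hps, hpd⟩
  have h2 : ∀ d ∈ Icc (1 : ℕ) (2 ^ v), ∑ p ∈ W, (if d ≤ p ∧ (p - d).Prime then (1 : ℝ) else 0) ≤
      N (q - 2 ^ U - d) (2 ^ (U + 2)) d := by
    intro d _
    rw [sum_boole]
    norm_cast
    unfold N
    apply card_le_card_of_injOn (fun p => p - d)
    · intro p hp
      rw [mem_coe, mem_filter, hW, mem_filter] at hp
      rw [mem_coe, mem_filter, mem_Ico]
      obtain ⟨⟨hps, hpD⟩, hdp, hpd⟩ := hp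
      unfold D at hpD
      beta_reduce
      refine ⟨⟨by omega, by omega⟩, hpd, ?_⟩
      have : p - d + d = p := by omega
      rw [this]
      exact hs p hps
    · intro p hp r hr hpr
      rw [mem_coe, mem_filter] at hp hr
      simp only at hpr
      omega
  calc ∑ p ∈ W, F s v p
      ≤ ∑ p ∈ W, ∑ d ∈ Icc (1 : ℕ) (2 ^ v),
      ((if (p + d).Prime then (1 : ℝ) else 0) / d + (if d ≤ p ∧ (p - d).Prime then (1 : ℝ) else 0) / d) :=
        sum_le_sum (fun p _ => F_le s hs v p)
    _ = ∑ d ∈ Icc (1 : ℕ) (2 ^ v), ∑ p ∈ W,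
      ((if (p + d).Prime then (1 : ℝ) else 0) / d + (if d ≤ p ∧ (p - d).Prime then (1 : ℝ) else 0) / d) :=
        sum_comm
    _ = ∑ d ∈ Icc (1 : ℕ) (2 ^ v), ((∑ p ∈ W, (if (p + d).Prime then (1 : ℝ) else 0)) / d +
          (∑ p ∈ W, (if d ≤ p ∧ (p - d).Prime then (1 : ℝ) else 0)) / d) := by
        apply sum_congr rfl
        intro d _
        rw [sum_add_distrib, sum_div, sum_div]
    _ ≤ ∑ d ∈ Icc (1 : ℕ) (2 ^ v), ((N (q - 2 ^ U) (2 ^ (U + 2)) d : ℝ) / d +
          (N (q - 2 ^ U - d) (2 ^ (U + 2)) d : ℝ) / d) := by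
        apply sum_le_sum
        intro d hd
        apply add_le_add
        · exact div_le_div_of_nonneg_right (h1 d hd) (by positivity)
        · exact div_le_div_of_nonneg_right (h2 d hd) (by positivity)
    _ ≤ _ := by
        rw [sum_add_distrib]
        have h3 := total U v (fun _ => q - 2 ^ U)
        have h4 := total U v (fun d => q - 2 ^ U - d)
        linarith

open Classical in
/-- least scale at which F reaches 1 (or M) -/
noncomputable def vv (s : Finset ℕ) (M q : ℕ) : ℕ :=
  Nat.find (p := fun u => 1 ≤ F s u q ∨ u = M) ⟨M, Or.inr rfl⟩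

lemma vv_le (s : Finset ℕ) (M q : ℕ) : vv s M q ≤ M := by
  classical
  unfold vv
  exact Nat.find_min' _ (Or.inr rfl)

lemma vv_spec (s : Finset ℕ) (M q : ℕ) (h : vv s M q < M) : 1 ≤ F s (vv s M q) q := by
  classical
  have h1 := Nat.find_spec (p := fun u => 1 ≤ F s u q ∨ u = M) ⟨M, Or.inr rfl⟩
  rcases h1 with h1 | h1
  · exact h1
  · unfold vv at h
    omega

lemma vv_min (s : Finset ℕ) (M q u : ℕ) (h : u < vv s M q) : F s u q < 1 := by
  classical
  have h1 := Nat.find_min (p := fun u => 1 ≤ F s u q ∨ u = M) ⟨M, Or.inr rfl⟩ h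
  push Not at h1
  exact h1.1

lemma inv_sq_sum (v n : ℕ) :
    ∑ U ∈ Ico v (v + n), 1 / ((U : ℝ) + 1) ^ 2 ≤ 2 / ((v : ℝ) + 1) - 2 / ((v : ℝ) + n + 1) := by
  induction n with
  | zero => simp
  | succ n ih =>
    rw [← add_assoc, sum_Ico_succ_top (by omega)]
    push_cast
    have hv : (0 : ℝ) < (v : ℝ) + n + 1 := by positivity
    have h1 : 1 / ((v : ℝ) + n + 1) ^ 2 ≤ 2 / ((v : ℝ) + n + 1) - 2 / ((v : ℝ) + (n + 1) + 1) := by
      rw [div_sub_div _ _ (by positivity) (by positivity),
        div_le_div_iff₀ (by positivity) (by positivity)]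
      set t := (v : ℝ) + n + 1
      have : (v : ℝ) + (n + 1) + 1 = t + 1 := by ring
      rw [this]
      have h1 : (1 : ℝ) ≤ t := by
        have : (0 : ℝ) ≤ (v : ℝ) + n := by positivity
        linarith
      nlinarith [mul_nonneg hv.le hv.le]
    linarith

/-- the set of partners assigned to q -/
lemma G_bound (s : Finset ℕ) (hs : ∀ p ∈ s, p.Prime) (M : ℕ)
    (hM : ∀ p ∈ s, ∀ q ∈ s, 2 * D p q ≤ 2 ^ M) (q : ℕ) (hq : q ∈ s) :
    ∑ p ∈ s.filter (fun p => vv s M p ≤ vv s M q), 1 / (D p q : ℝ) ≤ 1 + 1200000 := by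
  classical
  set v := vv s M q with hv
  have hvM : v ≤ M := vv_le s M q
  have hC : ∀ U ∈ Ico v M, (((s.filter (fun p => vv s M p ≤ v)).filter (fun p => D p q ≤ 2 ^ U)).card : ℝ) ≤
      300000 * ((v : ℝ) + 1) * (2 ^ U / ((U : ℝ) + 1) ^ 2) := by
    intro U hU
    rw [mem_Ico] at hU
    calc (((s.filter (fun p => vv s M p ≤ v)).filter (fun p => D p q ≤ 2 ^ U)).card : ℝ)
        = ∑ p ∈ (s.filter (fun p => vv s M p ≤ v)).filter (fun p => D p q ≤ 2 ^ U), (1 : ℝ) := by simp
      _ ≤ ∑ p ∈ (s.filter (fun p => vv s M p ≤ v)).filter (fun p => D p q ≤ 2 ^ U), F s v p := by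
          apply sum_le_sum
          intro p hp
          rw [mem_filter, mem_filter] at hp
          exact (vv_spec s M p (by omega)).trans (F_mono s hp.1.2 p)
      _ ≤ ∑ p ∈ s.filter (fun p => D p q ≤ 2 ^ U), F s v p := by
          apply sum_le_sum_of_subset_of_nonneg
          · intro p hp
            rw [mem_filter, mem_filter] at hp
            exact mem_filter.2 ⟨hp.1.1, hp.2⟩
          · intro p _ _
            unfold F
            positivity
      _ ≤ _ := F_sum s hs q U v
  -- near part
  have hnear : ∑ p ∈ (s.filter (fun p => vv s M p ≤ v)).filter (fun p => 2 * D p q ≤ 2 ^ v), 1 / (D p q : ℝ) ≤ 1 := by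
    by_cases hv0 : v = 0
    · rw [hv0]
      rw [sum_eq_zero]
      · exact zero_le_one
      · intro p hp
        rw [mem_filter] at hp
        have : D p q = 0 := by
          have := hp.2
          simp at this
          omega
        rw [this]
        simp
    · have h1 := vv_min s M q (v - 1) (by omega)
      have h2 : 2 ^ v = 2 * 2 ^ (v - 1) := by
        rw [← pow_succ']
        congr 1
        omega
      have h3 : ∑ p ∈ (s.filter (fun p => vv s M p ≤ v)).filter (fun p => 2 * D p q ≤ 2 ^ v), 1 / (D p q : ℝ) ≤ F s (v - 1) q := by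
        unfold F
        apply sum_le_sum_of_subset_of_nonneg
        · intro p hp
          rw [mem_filter, mem_filter] at hp
          rw [mem_filter]
          refine ⟨hp.1.1, ?_⟩
          have := hp.2
          omega
        · intro _ _ _; positivity
      linarith
  -- shells
  have hshell : ∑ p ∈ (s.filter (fun p => vv s M p ≤ v)).filter (fun p => ¬ 2 * D p q ≤ 2 ^ v), 1 / (D p q : ℝ) ≤
      ∑ U ∈ Ico v M, 600000 * ((v : ℝ) + 1) * (1 / ((U : ℝ) + 1) ^ 2) := by
    have hmap : ∀ p ∈ (s.filter (fun p => vv s M p ≤ v)).filter (fun p => ¬ 2 * D p q ≤ 2 ^ v),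
        Nat.clog 2 (D p q) ∈ Ico v M := by
      intro p hp
      rw [mem_filter, mem_filter] at hp
      have h1 := hM p hp.1.1 q hq
      have h2 := hp.2
      rw [mem_Ico]
      have hM0 : M ≠ 0 := by
        rintro rfl
        have : v = 0 := by omega
        rw [this] at h2
        exact h2 h1
      constructor
      · by_contra h3
        push Not at h3
        have h4 : D p q ≤ 2 ^ (v - 1) := by
          rw [← Nat.clog_le_iff_le_pow (by norm_num)]
          omega
        have h5 : 2 ^ v = 2 * 2 ^ (v - 1) := by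
          rw [← pow_succ']
          congr 1
          omega
        omega
      · have h5 : 2 ^ M = 2 * 2 ^ (M - 1) := by
          rw [← pow_succ']
          congr 1
          omega
        have h6 : Nat.clog 2 (D p q) ≤ M - 1 := by
          rw [Nat.clog_le_iff_le_pow (by norm_num)]
          omega
        omega
    rw [← sum_fiberwise_of_maps_to hmap]
    apply sum_le_sum
    intro U hU
    have h1 := hC U hU
    have h2U : (0 : ℝ) < 2 ^ U := by positivity
    calc ∑ p ∈ ((s.filter (fun p => vv s M p ≤ v)).filter (fun p => ¬ 2 * D p q ≤ 2 ^ v)).filter (fun p => Nat.clog 2 (D p q) = U), 1 / (D p q : ℝ)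
        ≤ ∑ p ∈ ((s.filter (fun p => vv s M p ≤ v)).filter (fun p => ¬ 2 * D p q ≤ 2 ^ v)).filter (fun p => Nat.clog 2 (D p q) = U), (2 : ℝ) / 2 ^ U := by
          apply sum_le_sum
          intro p hp
          rw [mem_filter, mem_filter] at hp
          have h3 := hp.2
          by_cases h0 : D p q = 0
          · rw [h0]
            simp only [Nat.cast_zero, div_zero]
            positivity
          · have hDpos : (0 : ℝ) < (D p q : ℝ) := by exact_mod_cast Nat.pos_of_ne_zero h0
            rw [div_le_div_iff₀ hDpos h2U, one_mul]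
            have h4 : 2 ^ U ≤ 2 * D p q := by
              by_cases hU0 : U = 0
              · rw [hU0]; omega
              · have h5 : 2 ^ U = 2 * 2 ^ (U - 1) := by
                  rw [← pow_succ']
                  congr 1
                  omega
                have h6 : 2 ^ (U - 1) < D p q := by
                  by_contra h7
                  push Not at h7
                  rw [← Nat.clog_le_iff_le_pow (by norm_num)] at h7
                  omega
                omega
            exact_mod_cast h4
      _ = (((s.filter (fun p => vv s M p ≤ v)).filter (fun p => ¬ 2 * D p q ≤ 2 ^ v)).filter (fun p => Nat.clog 2 (D p q) = U)).card * ((2 : ℝ) / 2 ^ U) := by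
          rw [sum_const, nsmul_eq_mul]
      _ ≤ ((s.filter (fun p => vv s M p ≤ v)).filter (fun p => D p q ≤ 2 ^ U)).card * ((2 : ℝ) / 2 ^ U) := by
          apply mul_le_mul_of_nonneg_right _ (by positivity)
          have : ((s.filter (fun p => vv s M p ≤ v)).filter (fun p => ¬ 2 * D p q ≤ 2 ^ v)).filter (fun p => Nat.clog 2 (D p q) = U) ⊆
            (s.filter (fun p => vv s M p ≤ v)).filter (fun p => D p q ≤ 2 ^ U) := by
            intro p hp
            rw [mem_filter, mem_filter] at hp
            rw [mem_filter]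
            refine ⟨hp.1.1, ?_⟩
            rw [← Nat.clog_le_iff_le_pow (by norm_num)]
            exact hp.2.le
          exact_mod_cast card_le_card this
      _ ≤ (300000 * ((v : ℝ) + 1) * (2 ^ U / ((U : ℝ) + 1) ^ 2)) * ((2 : ℝ) / 2 ^ U) := by
          apply mul_le_mul_of_nonneg_right h1 (by positivity)
      _ = _ := by
          field_simp
          ring
  rw [← sum_filter_add_sum_filter_not (s.filter (fun p => vv s M p ≤ v)) (fun p => 2 * D p q ≤ 2 ^ v)]
  have h5 : ∑ U ∈ Ico v M, 600000 * ((v : ℝ) + 1) * (1 / ((U : ℝ) + 1) ^ 2) ≤ 1200000 := by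
    rw [← mul_sum]
    have h6 := inv_sq_sum v (M - v)
    have h7 : v + (M - v) = M := by omega
    rw [h7] at h6
    have hv1 : (0 : ℝ) < (v : ℝ) + 1 := by positivity
    have h8 : ∑ U ∈ Ico v M, 1 / ((U : ℝ) + 1) ^ 2 ≤ 2 / ((v : ℝ) + 1) := by
      have : (0 : ℝ) ≤ 2 / ((v : ℝ) + (M - v : ℕ) + 1) := by positivity
      linarith
    calc 600000 * ((v : ℝ) + 1) * ∑ U ∈ Ico v M, 1 / ((U : ℝ) + 1) ^ 2
        ≤ 600000 * ((v : ℝ) + 1) * (2 / ((v : ℝ) + 1)) := by
          apply mul_le_mul_of_nonneg_left h8 (by positivity)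
      _ = 1200000 := by field_simp; norm_num
  linarith

/-- There is a real constant c such that for every nonempty finite set of primes, the sum over all pairs p<q in the set of 1/(q−p) is less than c times the number of primes in the set. -/
theorem result :
    ∃ c : ℝ, ∀ s : Finset ℕ, s.Nonempty → (∀ p ∈ s, Nat.Prime p) →
      (∑ p ∈ s, ∑ q ∈ s.filter (fun q => p < q), (1 : ℝ) / ((q : ℝ) - (p : ℝ)))
        < c * (s.card : ℝ) := by
  classical
  refine ⟨1200002, fun s hne hs => ?_⟩
  set M := s.sup id + 1 with hMdef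
  have hM : ∀ p ∈ s, ∀ q ∈ s, 2 * D p q ≤ 2 ^ M := by
    intro p hp q hq
    have h1 : p ≤ s.sup id := le_sup (f := id) hp
    have h2 : q ≤ s.sup id := le_sup (f := id) hq
    have h3 : s.sup id < 2 ^ (s.sup id) := Nat.lt_two_pow_self
    rw [hMdef, pow_succ]
    unfold D
    omega
  have hcard : (0 : ℝ) < s.card := by exact_mod_cast card_pos.2 hne
  have key : (∑ p ∈ s, ∑ q ∈ s.filter (fun q => p < q), (1 : ℝ) / ((q : ℝ) - (p : ℝ))) ≤
      ∑ q ∈ s, ∑ p ∈ s.filter (fun p => vv s M p ≤ vv s M q), 1 / (D p q : ℝ) := by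
    have e1 : ∀ p q : ℕ, p < q → (1 : ℝ) / ((q : ℝ) - (p : ℝ)) = 1 / (D p q : ℝ) := by
      intro p q h
      have : D p q = q - p := by unfold D; omega
      rw [this, Nat.cast_sub h.le]
    calc (∑ p ∈ s, ∑ q ∈ s.filter (fun q => p < q), (1 : ℝ) / ((q : ℝ) - (p : ℝ)))
        = ∑ p ∈ s, ∑ q ∈ s, (if p < q then 1 / (D p q : ℝ) else 0) := by
          apply sum_congr rfl
          intro p _
          rw [sum_filter]
          apply sum_congr rfl
          intro q _
          by_cases h : p < q
          · rw [if_pos h, if_pos h, e1 p q h]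
          · rw [if_neg h, if_neg h]
      _ ≤ ∑ p ∈ s, ∑ q ∈ s, ((if p < q ∧ vv s M p ≤ vv s M q then 1 / (D p q : ℝ) else 0) +
            (if p < q ∧ vv s M q ≤ vv s M p then 1 / (D p q : ℝ) else 0)) := by
          apply sum_le_sum
          intro p _
          apply sum_le_sum
          intro q _
          by_cases h : p < q
          · rw [if_pos h]
            rcases le_total (vv s M p) (vv s M q) with h1 | h1
            · rw [if_pos ⟨h, h1⟩]
              have : (0 : ℝ) ≤ (if p < q ∧ vv s M q ≤ vv s M p then 1 / (D p q : ℝ) else 0) := by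
                split_ifs <;> positivity
              linarith
            · rw [if_pos (⟨h, h1⟩ : p < q ∧ vv s M q ≤ vv s M p)]
              have : (0 : ℝ) ≤ (if p < q ∧ vv s M p ≤ vv s M q then 1 / (D p q : ℝ) else 0) := by
                split_ifs <;> positivity
              linarith
          · rw [if_neg h, if_neg (fun h1 => h h1.1), if_neg (fun h1 => h h1.1)]
            simp
      _ = (∑ p ∈ s, ∑ q ∈ s, (if p < q ∧ vv s M p ≤ vv s M q then 1 / (D p q : ℝ) else 0)) +
            ∑ p ∈ s, ∑ q ∈ s, (if p < q ∧ vv s M q ≤ vv s M p then 1 / (D p q : ℝ) else 0) := by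
          rw [← sum_add_distrib]
          apply sum_congr rfl
          intro p _
          rw [← sum_add_distrib]
      _ = (∑ q ∈ s, ∑ p ∈ s, (if p < q ∧ vv s M p ≤ vv s M q then 1 / (D p q : ℝ) else 0)) +
            ∑ q ∈ s, ∑ p ∈ s, (if q < p ∧ vv s M p ≤ vv s M q then 1 / (D p q : ℝ) else 0) := by
          congr 1
          · exact sum_comm
          · apply sum_congr rfl
            intro p _
            apply sum_congr rfl
            intro q _
            rw [D_comm p q]
      _ = ∑ q ∈ s, ∑ p ∈ s, ((if p < q ∧ vv s M p ≤ vv s M q then 1 / (D p q : ℝ) else 0) +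
            (if q < p ∧ vv s M p ≤ vv s M q then 1 / (D p q : ℝ) else 0)) := by
          rw [← sum_add_distrib]
          apply sum_congr rfl
          intro p _
          rw [← sum_add_distrib]
      _ ≤ ∑ q ∈ s, ∑ p ∈ s, (if vv s M p ≤ vv s M q then 1 / (D p q : ℝ) else 0) := by
          apply sum_le_sum
          intro q _
          apply sum_le_sum
          intro p _
          by_cases h1 : vv s M p ≤ vv s M q
          · rw [if_pos h1]
            by_cases h2 : p < q
            · rw [if_pos ⟨h2, h1⟩, if_neg (fun h3 => by omega)]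
              simp
            · rw [if_neg (fun h3 => h2 h3.1)]
              split_ifs
              · simp
              · simp
          · rw [if_neg (fun h3 => h1 h3.2), if_neg (fun h3 => h1 h3.2), if_neg h1]
            simp
      _ = _ := by
          apply sum_congr rfl
          intro q _
          rw [sum_filter]
  calc _ ≤ _ := key
    _ ≤ ∑ q ∈ s, ((1 : ℝ) + 1200000) := sum_le_sum (fun q hq => G_bound s hs M hM q hq)
    _ = 1200001 * s.card := by
        rw [sum_const, nsmul_eq_mul]
        ring
    _ < 1200002 * s.card := by linarith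

end Pool.Agent.S11405
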