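import Pool.Statements.S11417
import Pool.Agent.H28Bases

set_option autoImplicit false
open Pool Pool.MP_3bec75_nt

namespace Pool.Agent.S11417

section Helpers

open Pool.Agent.H28Bases

open Classical in
/-- At stage `i` the critical set is `{i}` if `i` is an element, and everything otherwise. -/
noncomputable def pickF : Pick :=
  ⟨fun i F => if i ∈ F then {i} else F, fun i F => by
    dsimp only
    split_ifs with h
    · exact Finset.singleton_subset_iff.2 h
    · exact Finset.Subset.refl _⟩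

lemma SS_eq (g i : ℕ) (hi : i ∈ FF pickF g 1 i) : SS pickF g 1 i = {i} := by
  classical
  unfold SS
  show (if i ∈ FF pickF g 1 i then {i} else FF pickF g 1 i) = {i}
  rw [if_pos hi]

lemma SS_eq' (g i : ℕ) (hi : i ∉ FF pickF g 1 i) : SS pickF g 1 i = FF pickF g 1 i := by
  classical
  unfold SS
  show (if i ∈ FF pickF g 1 i then {i} else FF pickF g 1 i) = FF pickF g 1 i
  rw [if_neg hi]

/-- For every bound `b` and every stage `i` with `b < i` and `b < Kst (i-1)` there is a critical element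
beyond `b`. -/
lemma SS_large (g b i : ℕ) (hi : b < i) : ∃ s ∈ SS pickF g 1 i, b < s := by
  by_cases h : i ∈ FF pickF g 1 i
  · exact ⟨i, by rw [SS_eq g i h]; simp, hi⟩
  · rw [SS_eq' g i h]
    obtain ⟨j, rfl⟩ : ∃ j, i = j + 1 := ⟨i - 1, by omega⟩
    -- the element `LL (Kst j) 0` of stage `j`
    have hnew : New g (Kst g 1 j) (SS pickF g 1 j) (LL g (Kst g 1 j) 0) :=
      Or.inl ⟨0, Nat.zero_le _, kk_le_LL _ _ _, le_rfl⟩
    refine ⟨LL g (Kst g 1 j) 0, ?_, ?_⟩
    · simp only [FF, Finset.mem_union, Finset.mem_filter, Finset.mem_range]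
      right
      exact ⟨Nat.lt_succ_of_le (New_le hnew), hnew⟩
    · have h1 : LL g (Kst g 1 j) 0 = (g + 2) * Kst g 1 j + 1 := rfl
      have h2 := le_Kst g 1 j
      have h3 : Kst g 1 j ≤ (g + 2) * Kst g 1 j := by nlinarith [Nat.zero_le (g * Kst g 1 j)]
      omega

lemma isBasis_iff (k : ℕ) (A : Set ℕ) :
    (∃ N : ℕ, ∀ n : ℕ, N ≤ n → ∃ f : Fin k → ℕ, (∀ i, f i ∈ A) ∧ ∑ i, f i = n) ↔
    (∃ N : ℕ, ∀ n : ℕ, N ≤ n →
      ∃ M : Multiset ℕ, Multiset.card M = k ∧ (∀ x ∈ M, x ∈ A) ∧ M.sum = n) := by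
  simp only [conv]

lemma main (g : ℕ) (S : Set ℕ) (hSA : S ⊆ AA pickF g 1) :
    (∃ N : ℕ, ∀ n : ℕ, N ≤ n → ∃ M : Multiset ℕ, Multiset.card M = g + 2 ∧
      (∀ x ∈ M, x ∈ AA pickF g 1 \ S) ∧ M.sum = n) ↔ S.Finite := by
  constructor
  · rintro ⟨N, hN⟩
    by_contra hinf
    obtain ⟨a, haS, haN⟩ := (Set.not_finite.1 hinf : S.Infinite).exists_gt N
    -- the critical number of stage `a`
    have haF : a ∈ FF pickF g 1 a := by
      obtain ⟨j, hj⟩ := hSA haS
      refine mem_FF_of_lt g 1 j a hj a ?_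
      have : ∀ i, i < Kst g 1 i := by
        intro i
        induction i with
        | zero => show 0 < 1 + 1; omega
        | succ i ih => have := Kst_lt g 1 i; omega
      exact this a
    have hSS := SS_eq g a haF
    have hbig : N ≤ NN g (Kst g 1 a) := by
      have h1 := le_Kst g 1 a
      have h2 := K_le_kk g (Kst g 1 a) g
      have h3 := kk_le_kq g (Kst g 1 a)
      have h4 := kq_le_NN g (Kst g 1 a)
      omega
    obtain ⟨M, hc, hM, hs⟩ := hN _ hbig
    obtain ⟨s, hs1, hs2⟩ := avoid g 1 a M hc (fun x hx => (hM x hx).1) hs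
    rw [hSS, Finset.mem_singleton] at hs1
    rw [hs1] at hs2
    exact (hM a hs2).2 haS
  · intro hfin
    obtain ⟨b, hb⟩ := hfin.bddAbove
    refine ⟨(g + 2) * Kst g 1 (b + 1), fun n hn => ?_⟩
    obtain ⟨i, hi, h1, h2⟩ := exists_stage g 1 (b + 1) n hn
    have hKi := (Kst_strictMono g 1).monotone hi
    have hbK := le_Kst g 1 (b + 1)
    by_cases hcrit : n = NN g (Kst g 1 i)
    · obtain ⟨s, hs, hbs⟩ := SS_large g b i (by omega)
      obtain ⟨M, hc, hM, hsum⟩ := critical g 1 i s hs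
      refine ⟨s ::ₘ M, ?_, ?_, ?_⟩
      · rw [Multiset.card_cons, hc]
      · intro x hx
        rcases Multiset.mem_cons.1 hx with hx | hx
        · rw [hx]
          refine ⟨SS_mem g 1 i s hs, fun hsS => ?_⟩
          have := hb hsS
          omega
        · refine ⟨(hM x hx).1, fun hxS => ?_⟩
          have := hb hxS
          have := (hM x hx).2
          omega
      · rw [Multiset.sum_cons, hsum, hcrit]
    · obtain ⟨M, hc, hM, hsum⟩ := coverAll (pick := pickF) g 1 i n h1 h2 hcrit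
      refine ⟨M, hc, fun x hx => ⟨(hM x hx).1, fun hxS => ?_⟩, hsum⟩
      have := hb hxS
      have := (hM x hx).2
      omega

end Helpers

/-- For every h ≥ 3 there is a set A of naturals such that all large n are sums of h elements of A, and for every subset S of A, removing S keeps this property exactly when S is finite. -/
theorem result :
    ∀ h : ℕ, 3 ≤ h →
      ∃ A : Set ℕ,
        (∃ N : ℕ, ∀ n : ℕ, N ≤ n →
          ∃ f : Fin h → ℕ, (∀ i, f i ∈ A) ∧ ∑ i, f i = n) ∧
        ∀ S : Set ℕ, S ⊆ A →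
          ((∃ N : ℕ, ∀ n : ℕ, N ≤ n →
              ∃ f : Fin h → ℕ, (∀ i, f i ∈ A \ S) ∧ ∑ i, f i = n) ↔ S.Finite) := by
  intro h hh
  obtain ⟨g, rfl⟩ : ∃ g, h = g + 2 := ⟨h - 2, by omega⟩
  refine ⟨Pool.Agent.H28Bases.AA pickF g 1, ?_, ?_⟩
  · have h1 := (main g ∅ (Set.empty_subset _)).2 Set.finite_empty
    rw [isBasis_iff]
    simpa using h1
  · intro S hS
    rw [isBasis_iff]
    exact main g S hS

end Pool.Agent.S11417
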