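import Pool.Statements.S11447
import Pool.Agent.H26.TorusFixed
import Pool.Agent.H26.Symp
-- import your own Pool.Agent.* helpers here

set_option autoImplicit false
open Pool Pool.MP_3e7cbe_nt

namespace Pool.Agent.S11447

open Pool.Agent.H26.Symp in
theorem tor_mult {p : ℕ} [Fact (Nat.Prime p)] {m : ℕ} (a : Padic p) :
    Mult a (Matrix.diagonal (Sum.elim (fun _ : Fin m => (1 : Padic p)) (fun _ : Fin m => a))) := by
  unfold Mult Matrix.J
  rw [← Matrix.fromBlocks_diagonal, Matrix.fromBlocks_transpose, Matrix.fromBlocks_multiply,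
    Matrix.fromBlocks_multiply, Matrix.fromBlocks_smul]
  congr 1
  · simp
  · ext i j
    by_cases h : i = j
    · subst h; simp
    · simp [h]
  · ext i j
    by_cases h : i = j
    · subst h; simp
    · simp [h]
  · simp

/-- For every prime p and rank m ≥ 1, each irreducible admissible infinite-dimensional complex representation of GSp_2m(Q_p) has a nonzero vector fixed by all g in GSp congruent mod p^n to diag(1,…,1,a,…,a), for some level n and unit a. -/
theorem result :
  ∀ (p : ℕ) [Fact (Nat.Prime p)] (m : ℕ), 1 ≤ m →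
  ∀ (V : Type) [AddCommGroup V] [Module ℂ V]
    (ρ : Matrix (Fin m ⊕ Fin m) (Fin m ⊕ Fin m) (Padic p) → (V →ₗ[ℂ] V)),
    ρ 1 = LinearMap.id →
    (∀ g h : Matrix (Fin m ⊕ Fin m) (Fin m ⊕ Fin m) (Padic p),
      (∃ c : Padic p, c ≠ 0 ∧
        Matrix.transpose g * Matrix.J (Fin m) (Padic p) * g = c • Matrix.J (Fin m) (Padic p)) →
      (∃ c : Padic p, c ≠ 0 ∧
        Matrix.transpose h * Matrix.J (Fin m) (Padic p) * h = c • Matrix.J (Fin m) (Padic p)) →
      ρ (g * h) = ρ g ∘ₗ ρ h) →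
    (∀ v : V, ∃ k : ℕ, ∀ g : Matrix (Fin m ⊕ Fin m) (Fin m ⊕ Fin m) (Padic p),
      (∃ c : Padic p, c ≠ 0 ∧
        Matrix.transpose g * Matrix.J (Fin m) (Padic p) * g = c • Matrix.J (Fin m) (Padic p)) →
      (∀ i j, ‖(g - 1) i j‖ ≤ (p : ℝ) ^ (-(k : ℤ))) → ρ g v = v) →
    (∀ k : ℕ, ∃ s : Finset V, ∀ v : V,
      (∀ g : Matrix (Fin m ⊕ Fin m) (Fin m ⊕ Fin m) (Padic p),
        (∃ c : Padic p, c ≠ 0 ∧
          Matrix.transpose g * Matrix.J (Fin m) (Padic p) * g = c • Matrix.J (Fin m) (Padic p)) →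
        (∀ i j, ‖(g - 1) i j‖ ≤ (p : ℝ) ^ (-(k : ℤ))) → ρ g v = v) →
      v ∈ Submodule.span ℂ (s : Set V)) →
    Nontrivial V →
    (∀ W : Submodule ℂ V,
      (∀ g : Matrix (Fin m ⊕ Fin m) (Fin m ⊕ Fin m) (Padic p),
        (∃ c : Padic p, c ≠ 0 ∧
          Matrix.transpose g * Matrix.J (Fin m) (Padic p) * g = c • Matrix.J (Fin m) (Padic p)) →
        ∀ w ∈ W, ρ g w ∈ W) →
      W = ⊥ ∨ W = ⊤) →
    ¬ Module.Finite ℂ V →
    ∃ n : ℕ, ∃ v : V, v ≠ 0 ∧
      ∀ g : Matrix (Fin m ⊕ Fin m) (Fin m ⊕ Fin m) (Padic p),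
        (∃ c : Padic p, c ≠ 0 ∧
          Matrix.transpose g * Matrix.J (Fin m) (Padic p) * g = c • Matrix.J (Fin m) (Padic p)) →
        (∃ a : Padic p, ‖a‖ = 1 ∧ ∀ i j,
          ‖(g - Matrix.diagonal (Sum.elim (fun _ : Fin m => (1 : Padic p)) (fun _ : Fin m => a))) i j‖
            ≤ (p : ℝ) ^ (-(n : ℤ))) →
        ρ g v = v := by
  classical
  intro p _ m hm V _ _ ρ h1 hmul hsm hadm hnt hirr hinf
  have hp : p.Prime := Fact.out
  have hp1 : (1:ℝ) < p := by exact_mod_cast hp.one_lt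
  by_cases hN : ∀ X : Matrix (Fin m) (Fin m) (Padic p), X.transpose = X →
      ρ (Pool.Agent.H26.Symp.nU X) = LinearMap.id
  · exfalso
    have hJm : Pool.Agent.H26.Symp.Mult (1 : Padic p) (Matrix.J (Fin m) (Padic p)) := by
      unfold Pool.Agent.H26.Symp.Mult
      rw [Matrix.J_transpose, Matrix.neg_mul, Matrix.J_squared]; simp
    have hJm' : Pool.Agent.H26.Symp.Mult (1 : Padic p) (-Matrix.J (Fin m) (Padic p)) := by
      unfold Pool.Agent.H26.Symp.Mult
      rw [Matrix.transpose_neg, Matrix.J_transpose, Matrix.mul_neg, neg_neg, Matrix.J_squared]; simp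
    have hSp : ∀ g : Matrix (Fin m ⊕ Fin m) (Fin m ⊕ Fin m) (Padic p),
        Pool.Agent.H26.Symp.Mult (1 : Padic p) g → ρ g = LinearMap.id := by
      apply Pool.Agent.H26.Symp.H_all
      · intro g h hg hh h2 h3
        rw [hmul g h ⟨1, one_ne_zero, hg⟩ ⟨1, one_ne_zero, hh⟩, h2, h3]; rfl
      · exact hN
      · intro X hX
        have hX' : (-X).transpose = -X := by rw [Matrix.transpose_neg, hX]
        have e : Pool.Agent.H26.Symp.nL X = Matrix.J (Fin m) (Padic p) *
            (Pool.Agent.H26.Symp.nU (-X) * (-Matrix.J (Fin m) (Padic p))) := by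
          unfold Pool.Agent.H26.Symp.nL Pool.Agent.H26.Symp.nU Matrix.J
          rw [Matrix.fromBlocks_neg, Matrix.fromBlocks_multiply, Matrix.fromBlocks_multiply]
          simp
        have mu := Pool.Agent.H26.Symp.mult_nU (-X) hX'
        have mu2 := mu.mul hJm'
        rw [_root_.mul_one] at mu2
        rw [e, hmul _ _ ⟨1, one_ne_zero, hJm⟩ ⟨1, one_ne_zero, mu2⟩,
          hmul _ _ ⟨1, one_ne_zero, mu⟩ ⟨1, one_ne_zero, hJm'⟩, hN _ hX', LinearMap.id_comp,
          ← hmul _ _ ⟨1, one_ne_zero, hJm⟩ ⟨1, one_ne_zero, hJm'⟩, Matrix.mul_neg,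
          Matrix.J_squared, neg_neg, h1]
    obtain ⟨v0, hv0⟩ := exists_ne (0 : V)
    obtain ⟨k, hk⟩ := hsm v0
    let W : Submodule ℂ V :=
      { carrier := {v | ∀ g : Matrix (Fin m ⊕ Fin m) (Fin m ⊕ Fin m) (Padic p),
          (∃ c : Padic p, c ≠ 0 ∧
            Matrix.transpose g * Matrix.J (Fin m) (Padic p) * g = c • Matrix.J (Fin m) (Padic p)) →
          (∀ i j, ‖(g - 1) i j‖ ≤ (p : ℝ) ^ (-(k : ℤ))) → ρ g v = v}
        add_mem' := by
          intro a b ha hb g hg hg'
          rw [map_add, ha g hg hg', hb g hg hg']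
        zero_mem' := by intro g hg hg'; rw [map_zero]
        smul_mem' := by
          intro c x hx g hg hg'
          rw [map_smul, hx g hg hg'] }
    have hW : W = ⊥ ∨ W = ⊤ := by
      apply hirr
      intro g hg w hw x hx hx'
      obtain ⟨c, hc0, hc⟩ := hg
      obtain ⟨d, hd0, hd⟩ := hx
      have hgm : Pool.Agent.H26.Symp.Mult c g := hc
      have hxm : Pool.Agent.H26.Symp.Mult d x := hd
      obtain ⟨hgd, hgi⟩ := hgm.inv hc0
      obtain ⟨hxd, hxi⟩ := hxm.inv hd0
      -- x g = g x c'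
      have hcm : Pool.Agent.H26.Symp.Mult (1 : Padic p) ((x⁻¹ * g⁻¹) * (x * g)) := by
        have := (hxi.mul hgi).mul (hxm.mul hgm)
        have e1 : d⁻¹ * c⁻¹ * (d * c) = 1 := by field_simp
        rw [e1] at this
        exact this
      have e : x * g = (g * x) * ((x⁻¹ * g⁻¹) * (x * g)) := by
        rw [Matrix.mul_assoc g x, ← Matrix.mul_assoc x (x⁻¹ * g⁻¹), ← Matrix.mul_assoc x x⁻¹,
          Matrix.mul_nonsing_inv _ hxd, Matrix.one_mul, ← Matrix.mul_assoc g g⁻¹,
          Matrix.mul_nonsing_inv _ hgd, Matrix.one_mul]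
      have e2 : ρ x (ρ g w) = ρ (x * g) w := by
        rw [hmul x g ⟨d, hd0, hd⟩ ⟨c, hc0, hc⟩]; rfl
      have hgx : Pool.Agent.H26.Symp.Mult (c * d) (g * x) := hgm.mul hxm
      rw [e2, e, hmul _ _ ⟨c * d, mul_ne_zero hc0 hd0, hgx⟩ ⟨1, one_ne_zero, hcm⟩, hSp _ hcm,
        LinearMap.comp_id, hmul _ _ ⟨c, hc0, hc⟩ ⟨d, hd0, hd⟩, LinearMap.comp_apply,
        hw x ⟨d, hd0, hd⟩ hx']
    rcases hW with hW | hW
    · have : v0 ∈ W := hk
      rw [hW, Submodule.mem_bot] at this
      exact hv0 this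
    · obtain ⟨s, hs⟩ := hadm k
      apply hinf
      refine ⟨⟨s, ?_⟩⟩
      rw [eq_top_iff]
      intro v _
      have hv : v ∈ W := by rw [hW]; trivial
      exact hs v hv
  · push Not at hN
    obtain ⟨X0, hX0, hne⟩ := hN
    obtain ⟨v, hv⟩ : ∃ v, ρ (Pool.Agent.H26.Symp.nU X0) v ≠ v := by
      by_contra hcon
      push Not at hcon
      exact hne (LinearMap.ext hcon)
    let tt : Padic p → Matrix (Fin m ⊕ Fin m) (Fin m ⊕ Fin m) (Padic p) := fun a =>
      Matrix.diagonal (Sum.elim (fun _ : Fin m => (1 : Padic p)) (fun _ : Fin m => a))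
    have htt : ∀ a : Padic p, ‖a‖ = 1 → ∃ c : Padic p, c ≠ 0 ∧
        Matrix.transpose (tt a) * Matrix.J (Fin m) (Padic p) * (tt a) = c • Matrix.J (Fin m) (Padic p) := by
      intro a ha
      exact ⟨a, by intro h; rw [h] at ha; simp at ha, tor_mult a⟩
    have hXs : ∀ x : Padic p, (x • X0).transpose = x • X0 := by
      intro x; rw [Matrix.transpose_smul, hX0]
    have hnn : ∀ x : Padic p, ∃ c : Padic p, c ≠ 0 ∧
        Matrix.transpose (Pool.Agent.H26.Symp.nU (x • X0)) * Matrix.J (Fin m) (Padic p) *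
          (Pool.Agent.H26.Symp.nU (x • X0)) = c • Matrix.J (Fin m) (Padic p) := by
      intro x
      exact ⟨1, one_ne_zero, Pool.Agent.H26.Symp.mult_nU _ (hXs x)⟩
    obtain ⟨k, hk⟩ := hsm v
    obtain ⟨s, hs⟩ : ∃ s : ℕ, ∀ i j, ‖X0 i j‖ ≤ (p:ℝ) ^ s := by
      obtain ⟨s, hs⟩ := pow_unbounded_of_one_lt (∑ i, ∑ j, ‖X0 i j‖) hp1
      refine ⟨s, fun i j => le_trans ?_ hs.le⟩
      calc ‖X0 i j‖ ≤ ∑ j, ‖X0 i j‖ :=
            Finset.single_le_sum (f := fun j => ‖X0 i j‖) (fun _ _ => norm_nonneg _) (Finset.mem_univ j)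
        _ ≤ ∑ i, ∑ j, ‖X0 i j‖ :=
            Finset.single_le_sum (f := fun i => ∑ j, ‖X0 i j‖)
              (fun _ _ => Finset.sum_nonneg (fun _ _ => norm_nonneg _)) (Finset.mem_univ i)
    obtain ⟨w, hw0, hw⟩ := Pool.Agent.H26.TorusFixed.torus_fixed p
      (fun x => ρ (Pool.Agent.H26.Symp.nU (x • X0))) (fun a => ρ (tt a))
      (by
        show ρ (Pool.Agent.H26.Symp.nU ((0 : Padic p) • X0)) = LinearMap.id
        have : Pool.Agent.H26.Symp.nU ((0 : Padic p) • X0) = 1 := by
          unfold Pool.Agent.H26.Symp.nU; simp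
        rw [this, h1])
      (by
        intro x y
        show ρ (Pool.Agent.H26.Symp.nU ((x + y) • X0)) = _
        rw [← hmul _ _ (hnn x) (hnn y)]
        congr 1
        unfold Pool.Agent.H26.Symp.nU
        rw [Matrix.fromBlocks_multiply, add_smul]
        simp [add_comm])
      (by
        show ρ (tt 1) = LinearMap.id
        have : tt 1 = 1 := by
          show Matrix.diagonal _ = 1
          rw [← Matrix.fromBlocks_diagonal]; simp
        rw [this, h1])
      (by
        intro a b ha hb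
        show ρ (tt (a * b)) = _
        rw [← hmul _ _ (htt a ha) (htt b hb)]
        congr 1
        show Matrix.diagonal _ = Matrix.diagonal _ * Matrix.diagonal _
        rw [Matrix.diagonal_mul_diagonal]
        congr 1
        funext i
        rcases i with i | i <;> simp)
      (by
        intro a x ha
        show ρ (Pool.Agent.H26.Symp.nU (x • X0)) ∘ₗ ρ (tt a) =
          ρ (tt a) ∘ₗ ρ (Pool.Agent.H26.Symp.nU ((a * x) • X0))
        rw [← hmul _ _ (hnn x) (htt a ha), ← hmul _ _ (htt a ha) (hnn (a * x))]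
        congr 1
        simp only [tt]
        rw [← Matrix.fromBlocks_diagonal]
        unfold Pool.Agent.H26.Symp.nU
        rw [Matrix.fromBlocks_multiply, Matrix.fromBlocks_multiply]
        congr 1
        · simp
        · ext i j
          simp [Matrix.mul_diagonal]
          ring
        · simp
        · simp)
      v (k + s)
      (by
        intro x hx
        apply hk _ (hnn x)
        intro i j
        have hpk : (0:ℝ) ≤ (p : ℝ) ^ (-(k : ℤ)) := by positivity
        rcases i with i | i <;> rcases j with j | j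
        · simp only [Pool.Agent.H26.Symp.nU, Matrix.sub_apply, Matrix.fromBlocks_apply₁₁]
          rw [← Matrix.fromBlocks_one, Matrix.fromBlocks_apply₁₁, sub_self, norm_zero]; exact hpk
        · simp only [Pool.Agent.H26.Symp.nU, Matrix.sub_apply, Matrix.fromBlocks_apply₁₂]
          rw [← Matrix.fromBlocks_one, Matrix.fromBlocks_apply₁₂, Matrix.zero_apply, sub_zero,
            Matrix.smul_apply, smul_eq_mul, norm_mul]
          calc ‖x‖ * ‖X0 i j‖ ≤ (p:ℝ) ^ (-((k + s : ℕ):ℤ)) * (p:ℝ) ^ s :=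
                mul_le_mul hx (hs i j) (norm_nonneg _) (by positivity)
            _ = (p : ℝ) ^ (-(k : ℤ)) := by
                rw [← zpow_natCast, ← zpow_add₀ (by positivity)]
                congr 1; push_cast; ring
        · simp only [Pool.Agent.H26.Symp.nU, Matrix.sub_apply, Matrix.fromBlocks_apply₂₁]
          rw [← Matrix.fromBlocks_one, Matrix.fromBlocks_apply₂₁, sub_self, norm_zero]; exact hpk
        · simp only [Pool.Agent.H26.Symp.nU, Matrix.sub_apply, Matrix.fromBlocks_apply₂₂]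
          rw [← Matrix.fromBlocks_one, Matrix.fromBlocks_apply₂₂, sub_self, norm_zero]; exact hpk)
      (by
        intro a ha ha1
        apply hk _ (htt a ha)
        intro i j
        have hpk : (0:ℝ) ≤ (p : ℝ) ^ (-(k : ℤ)) := by positivity
        simp only [tt]
        rw [← Matrix.diagonal_one, Matrix.diagonal_sub]
        by_cases hij : i = j
        · subst hij
          rw [Matrix.diagonal_apply_eq]
          rcases i with i | i
          · simp only [Sum.elim_inl, sub_self, norm_zero]; exact hpk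
          · simp only [Sum.elim_inr]
            refine ha1.trans ?_
            apply zpow_le_zpow_right₀ hp1.le
            push_cast; omega
        · rw [Matrix.diagonal_apply_ne _ hij, norm_zero]; exact hpk)
      1 (by
        show ρ (Pool.Agent.H26.Symp.nU ((1 : Padic p) • X0)) v ≠ v
        rw [one_smul]; exact hv)
    obtain ⟨k', hk'⟩ := hsm w
    refine ⟨k', w, hw0, ?_⟩
    intro g hg hga
    obtain ⟨a, ha, hga⟩ := hga
    have hane : a ≠ 0 := by intro h; rw [h] at ha; simp at ha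
    have hai : ‖a⁻¹‖ = 1 := by rw [norm_inv, ha, inv_one]
    have htinv : tt a * tt a⁻¹ = 1 := by
      show Matrix.diagonal _ * Matrix.diagonal _ = 1
      rw [Matrix.diagonal_mul_diagonal, ← Matrix.diagonal_one]
      congr 1
      funext i
      rcases i with i | i <;> simp [hane]
    have htinv' : tt a⁻¹ * tt a = 1 := by
      show Matrix.diagonal _ * Matrix.diagonal _ = 1
      rw [Matrix.diagonal_mul_diagonal, ← Matrix.diagonal_one]
      congr 1
      funext i
      rcases i with i | i <;> simp [hane]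
    have hge : g = tt a * (tt a⁻¹ * g) := by
      rw [← Matrix.mul_assoc, htinv, Matrix.one_mul]
    have hG : ∃ c : Padic p, c ≠ 0 ∧
        Matrix.transpose (tt a⁻¹ * g) * Matrix.J (Fin m) (Padic p) * (tt a⁻¹ * g) =
          c • Matrix.J (Fin m) (Padic p) := by
      obtain ⟨c, hc0, hc⟩ := hg
      exact ⟨a⁻¹ * c, mul_ne_zero (inv_ne_zero hane) hc0,
        Pool.Agent.H26.Symp.Mult.mul (tor_mult (m := m) a⁻¹) (show Pool.Agent.H26.Symp.Mult c g from hc)⟩
    have h2 : ρ (tt a⁻¹ * g) w = w := by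
      apply hk' _ hG
      intro i j
      have e : tt a⁻¹ * g - 1 = tt a⁻¹ * (g - tt a) := by
        rw [Matrix.mul_sub, htinv']
      rw [e]
      have e4 : (tt a⁻¹ * (g - tt a)) i j =
          (Sum.elim (fun _ : Fin m => (1 : Padic p)) (fun _ : Fin m => a⁻¹)) i * (g - tt a) i j :=
        Matrix.diagonal_mul _ _ _ _
      rw [e4, norm_mul]
      have h3 : ‖(Sum.elim (fun _ : Fin m => (1 : Padic p)) (fun _ : Fin m => a⁻¹)) i‖ = 1 := by
        rcases i with i | i
        · simp
        · simpa using ha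
      rw [h3, one_mul]
      exact hga i j
    rw [hge, hmul _ _ (htt a ha) hG, LinearMap.comp_apply, h2]
    exact hw a ha

end Pool.Agent.S11447
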