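import Pool.Statements.S11495
-- import your own Pool.Agent.* helpers here

set_option autoImplicit false
open Pool Pool.MP_444361_nt

namespace Pool.Agent.S11495

lemma tot_step (a b : ℕ) (x : ℕ) (hb : b.Prime) (hab : Nat.Coprime a b) (ha : Nat.totient a = x) :
    Nat.totient (a * b) = x * (b - 1) := by
  rw [Nat.totient_mul hab, ha, Nat.totient_prime hb]

lemma div_step (a b : ℕ) (x : ℕ) (hb : b.Prime) (hab : Nat.Coprime a b) (ha : a.divisors.card = x) :
    (a * b).divisors.card = x * 2 := by
  rw [Nat.Coprime.card_divisors_mul hab, ha, hb.divisors, Finset.card_pair hb.one_lt.ne]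


/-- There exists a composite natural number n, with n ≠ 4, such that n divides φ(n) times the number of divisors of n, plus 2. -/
theorem result :
    ∃ n : ℕ, 1 < n ∧ ¬ n.Prime ∧ n ≠ 4 ∧
      n ∣ Nat.totient n * n.divisors.card + 2 := by
  have p1 : Nat.Prime 2 := by norm_num
  have p2 : Nat.Prime 61 := by norm_num
  have p3 : Nat.Prime 67 := by norm_num
  have p4 : Nat.Prime 6803 := by norm_num
  have p5 : Nat.Prime 29027 := by norm_num
  have p6 : Nat.Prime 15887233 := by norm_num
  have t1 : Nat.totient 2 = 1 := by decide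
  have d1 : (Nat.divisors 2).card = 2 := by decide
  have c2 : Nat.Coprime 2 61 := by norm_num
  have c3 : Nat.Coprime (2 * 61) 67 := by norm_num
  have c4 : Nat.Coprime (2 * 61 * 67) 6803 := by norm_num
  have c5 : Nat.Coprime (2 * 61 * 67 * 6803) 29027 := by norm_num
  have c6 : Nat.Coprime (2 * 61 * 67 * 6803 * 29027) 15887233 := by norm_num
  have t := tot_step _ _ _ p6 c6 (tot_step _ _ _ p5 c5 (tot_step _ _ _ p4 c4
    (tot_step _ _ _ p3 c3 (tot_step _ _ _ p2 c2 t1))))
  have d := div_step _ _ _ p6 c6 (div_step _ _ _ p5 c5 (div_step _ _ _ p4 c4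
    (div_step _ _ _ p3 c3 (div_step _ _ _ p2 c2 d1))))
  refine ⟨2 * 61 * 67 * 6803 * 29027 * 15887233, by norm_num, ?_, by norm_num, ?_⟩
  · exact Nat.not_prime_mul (by norm_num) (by norm_num)
  · rw [t, d]
    norm_num

end Pool.Agent.S11495
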