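import Pool.Statements.S12120
-- import your own Pool.Agent.* helpers here

set_option autoImplicit false
open Pool Pool.MP_7fe555_nt

namespace Pool.Agent.S12120

section Helpers

open Finset

lemma gcd_le_sub {a b : ℕ} (hab : a < b) : Nat.gcd a b ≤ b - a := by
  apply Nat.le_of_dvd (by omega)
  exact Nat.dvd_sub (Nat.gcd_dvd_right a b) (Nat.gcd_dvd_left a b)

lemma lcm_bound {a b c : ℕ} (hab : a < b) (hbc : b < c) :
    a ^ 3 ≤ Nat.lcm (Nat.lcm a b) c * (c - a) ^ 3 := by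
  have h1 : Nat.gcd a b * Nat.lcm a b = a * b := Nat.gcd_mul_lcm a b
  have h2 : Nat.gcd (Nat.lcm a b) c * Nat.lcm (Nat.lcm a b) c = Nat.lcm a b * c :=
    Nat.gcd_mul_lcm _ _
  have h3 : Nat.gcd a b ≤ c - a := (gcd_le_sub hab).trans (by omega)
  have h4 : Nat.gcd (Nat.lcm a b) c ≤ (c - a) * (c - a) := by
    have hpos : 0 < Nat.gcd c a * Nat.gcd c b :=
      Nat.mul_pos (Nat.gcd_pos_of_pos_left _ (by omega)) (Nat.gcd_pos_of_pos_left _ (by omega))
    have hd : Nat.gcd (Nat.lcm a b) c ∣ Nat.gcd c a * Nat.gcd c b := by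
      have e1 : Nat.gcd (Nat.lcm a b) c ∣ Nat.gcd c (a * b) := by
        apply Nat.dvd_gcd (Nat.gcd_dvd_right _ _)
        exact (Nat.gcd_dvd_left _ _).trans (Nat.lcm_dvd_mul a b)
      exact e1.trans (Nat.gcd_mul_right_dvd_mul_gcd c a b)
    refine (Nat.le_of_dvd hpos hd).trans ?_
    apply Nat.mul_le_mul
    · rw [Nat.gcd_comm]; exact gcd_le_sub (by omega)
    · rw [Nat.gcd_comm]; exact (gcd_le_sub hbc).trans (by omega)
  have h5 : a ^ 3 ≤ a * b * c := by
    have : a ^ 3 = a * a * a := by ring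
    rw [this]
    exact Nat.mul_le_mul (Nat.mul_le_mul le_rfl hab.le) (by omega)
  calc a ^ 3 ≤ a * b * c := h5
    _ = Nat.gcd a b * (Nat.lcm a b * c) := by rw [← h1]; ring
    _ = Nat.gcd a b * (Nat.gcd (Nat.lcm a b) c * Nat.lcm (Nat.lcm a b) c) := by rw [h2]
    _ ≤ (c - a) * (((c - a) * (c - a)) * Nat.lcm (Nat.lcm a b) c) := by gcongr
    _ = Nat.lcm (Nat.lcm a b) c * (c - a) ^ 3 := by ring

/-- inner sum bound -/
lemma inner_bound (s : ℝ) (hs : 0 < s) (lam : ℝ) (hl : 1 ≤ lam * s ^ 3) (N : ℕ) :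
    ∑ J ∈ range N, (if lam < (8 : ℝ) ^ J then ((1 : ℝ) / 2) ^ J else 0)
      ≤ 4 * Real.log (1 + s) := by
  rw [← Finset.sum_filter]
  have hlog : min s 1 ≤ 2 * Real.log (1 + s) := by
    rcases le_total s 1 with h | h
    · rw [min_eq_left h]
      have h1 := Real.one_sub_inv_le_log_of_pos (show (0 : ℝ) < 1 + s by linarith)
      have h2 : s / 2 ≤ 1 - (1 + s)⁻¹ := by
        have hne : (1 + s) ≠ 0 := by linarith
        have : 1 - (1 + s)⁻¹ = s / (1 + s) := by field_simp; ring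
        rw [this]
        apply div_le_div_of_nonneg_left hs.le (by linarith) (by linarith)
      linarith
    · rw [min_eq_right h]
      have h1 : Real.log 2 ≤ Real.log (1 + s) := Real.log_le_log (by norm_num) (by linarith)
      have h2 := Real.log_two_gt_d9
      linarith
  have hmain : ∑ J ∈ (range N).filter (fun J => lam < (8 : ℝ) ^ J), ((1 : ℝ) / 2) ^ J
      ≤ 2 * min s 1 := by
    rcases ((range N).filter (fun J => lam < (8 : ℝ) ^ J)).eq_empty_or_nonempty with he | hne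
    · rw [he, Finset.sum_empty]
      have : 0 ≤ min s 1 := le_min hs.le zero_le_one
      linarith
    · set S := (range N).filter (fun J => lam < (8 : ℝ) ^ J) with hS
      have hJ0 : S.min' hne ∈ S := Finset.min'_mem S hne
      set J0 := S.min' hne with hJ0def
      have hlt : lam < (8 : ℝ) ^ J0 := (Finset.mem_filter.mp hJ0).2
      have hsub : S ⊆ Ico J0 N := by
        intro J hJ
        rw [Finset.mem_Ico]
        exact ⟨Finset.min'_le S J hJ, Finset.mem_range.mp (Finset.mem_filter.mp hJ).1⟩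
      have hsum : ∑ J ∈ S, ((1 : ℝ) / 2) ^ J ≤ ∑ J ∈ Ico J0 N, ((1 : ℝ) / 2) ^ J :=
        Finset.sum_le_sum_of_subset_of_nonneg hsub (fun _ _ _ => by positivity)
      have hgeo : ∑ J ∈ Ico J0 N, ((1 : ℝ) / 2) ^ J ≤ ((1 : ℝ) / 2) ^ J0 / (1 - 1 / 2) :=
        geom_sum_Ico_le_of_lt_one (by norm_num) (by norm_num)
      have hp1 : ((1 : ℝ) / 2) ^ J0 ≤ 1 := pow_le_one₀ (by norm_num) (by norm_num)
      have hp2 : ((1 : ℝ) / 2) ^ J0 ≤ s := by
        by_contra hcon
        push Not at hcon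
        have hs3 : s ^ 3 < (((1 : ℝ) / 2) ^ J0) ^ 3 := by gcongr
        have h8 : (((1 : ℝ) / 2) ^ J0) ^ 3 = ((8 : ℝ) ^ J0)⁻¹ := by
          rw [← pow_mul, mul_comm, pow_mul, ← inv_pow]; norm_num
        have hs3' : 0 < s ^ 3 := by positivity
        have : lam * s ^ 3 < (8 : ℝ) ^ J0 * s ^ 3 := by
          exact mul_lt_mul_of_pos_right hlt hs3'
        have h9 : (8 : ℝ) ^ J0 * s ^ 3 < (8 : ℝ) ^ J0 * ((8 : ℝ) ^ J0)⁻¹ := by
          rw [← h8]; exact mul_lt_mul_of_pos_left hs3 (by positivity)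
        rw [mul_inv_cancel₀ (by positivity)] at h9
        linarith
      have hp3 : ((1 : ℝ) / 2) ^ J0 ≤ min s 1 := le_min hp2 hp1
      have : ((1 : ℝ) / 2) ^ J0 / (1 - 1 / 2) = 2 * ((1 : ℝ) / 2) ^ J0 := by
        norm_num; ring
      linarith
  linarith

lemma telescope (f : ℕ → ℝ) (m : ℕ) :
    ∑ i ∈ range m, (f (i + 3) - f (i + 1)) = f (m + 2) + f (m + 1) - f 2 - f 1 := by
  induction m with
  | zero => simp
  | succ n ih => rw [Finset.sum_range_succ, ih]; ring

/-- the averaged upper bound -/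
lemma upper (a : ℕ → ℕ) (ha : StrictMono a) (hpos : ∀ n, 0 < a n) (N : ℕ) :
    ∑ J ∈ range N, ((1 : ℝ) / 2) ^ J *
      (({i : ℕ | ((Nat.lcm (Nat.lcm (a (i + 1)) (a (i + 2))) (a (i + 3)) : ℕ) : ℝ)
        < (8 : ℝ) ^ J}.ncard : ℕ) : ℝ) ≤ 8 * (N * Real.log 8) := by
  classical
  have hex : ∃ i, ¬ (a (i + 3) < 8 ^ N) := by
    refine ⟨8 ^ N, ?_⟩
    have := ha.id_le (8 ^ N + 3)
    simp only [id] at this
    omega
  obtain ⟨m, hm1, hm2⟩ : ∃ m, (¬ a (m + 3) < 8 ^ N) ∧ ∀ i < m, a (i + 3) < 8 ^ N :=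
    ⟨Nat.find hex, Nat.find_spec hex, fun i hi => not_not.mp (Nat.find_min hex hi)⟩
  set lam : ℕ → ℕ := fun i => Nat.lcm (Nat.lcm (a (i + 1)) (a (i + 2))) (a (i + 3)) with hlam
  have hcard : ∀ J ∈ range N,
      (({i : ℕ | ((lam i : ℕ) : ℝ) < (8 : ℝ) ^ J}.ncard : ℕ) : ℝ)
        = ∑ i ∈ range m, (if ((lam i : ℕ) : ℝ) < (8 : ℝ) ^ J then (1 : ℝ) else 0) := by
    intro J hJ
    have hset : {i : ℕ | ((lam i : ℕ) : ℝ) < (8 : ℝ) ^ J}
        = ↑((range m).filter (fun i => ((lam i : ℕ) : ℝ) < (8 : ℝ) ^ J)) := by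
      ext i
      simp only [Set.mem_ofPred_eq, Finset.coe_filter, Finset.mem_range]
      constructor
      · intro h
        refine ⟨?_, h⟩
        by_contra hc
        push Not at hc
        have h1 : a (m + 3) ≤ a (i + 3) := ha.monotone (by omega)
        have h2 : a (i + 3) ≤ lam i := by
          apply Nat.le_of_dvd
          · exact Nat.lcm_pos (Nat.lcm_pos (hpos _) (hpos _)) (hpos _)
          · exact Nat.dvd_lcm_right _ _
        have h3 : lam i < 8 ^ J := by exact_mod_cast h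
        have h4 : (8 : ℕ) ^ J ≤ 8 ^ N := Nat.pow_le_pow_right (by norm_num)
          (Finset.mem_range.mp hJ).le
        omega
      · exact fun h => h.2
    rw [hset, Set.ncard_coe_finset, Finset.card_filter]
    push_cast
    rfl
  have hcomm : ∑ J ∈ range N, ((1 : ℝ) / 2) ^ J *
      (({i : ℕ | ((lam i : ℕ) : ℝ) < (8 : ℝ) ^ J}.ncard : ℕ) : ℝ)
      = ∑ i ∈ range m, ∑ J ∈ range N,
        (if ((lam i : ℕ) : ℝ) < (8 : ℝ) ^ J then ((1 : ℝ) / 2) ^ J else 0) := by
    rw [Finset.sum_comm]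
    apply Finset.sum_congr rfl
    intro J hJ
    rw [hcard J hJ, Finset.mul_sum]
    apply Finset.sum_congr rfl
    intro i _
    split_ifs <;> simp
  rw [hcomm]
  have hterm : ∀ i ∈ range m, ∑ J ∈ range N,
        (if ((lam i : ℕ) : ℝ) < (8 : ℝ) ^ J then ((1 : ℝ) / 2) ^ J else 0)
        ≤ 4 * (Real.log (a (i + 3)) - Real.log (a (i + 1))) := by
    intro i _
    have h1 : a (i + 1) < a (i + 2) := ha (by omega)
    have h2 : a (i + 2) < a (i + 3) := ha (by omega)
    have hb := lcm_bound h1 h2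
    have hap : (0 : ℝ) < a (i + 1) := by exact_mod_cast hpos _
    have hsub : ((a (i + 3) - a (i + 1) : ℕ) : ℝ) = (a (i + 3) : ℝ) - a (i + 1) := by
      rw [Nat.cast_sub (by omega)]
    have hlt : (a (i + 1) : ℝ) < a (i + 3) := by exact_mod_cast h1.trans h2
    have hs : 0 < ((a (i + 3) : ℝ) - a (i + 1)) / a (i + 1) := div_pos (by linarith) hap
    have hb' : ((a (i + 1) : ℝ)) ^ 3 ≤ (lam i : ℝ) * ((a (i + 3) : ℝ) - a (i + 1)) ^ 3 := by
      rw [← hsub]
      exact_mod_cast hb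
    have hl : 1 ≤ (lam i : ℝ) * (((a (i + 3) : ℝ) - a (i + 1)) / a (i + 1)) ^ 3 := by
      rw [div_pow, ← mul_div_assoc, le_div_iff₀ (by positivity)]
      linarith
    refine (inner_bound _ hs _ hl N).trans (le_of_eq ?_)
    congr 1
    rw [← Real.log_div (by linarith) (by linarith)]
    congr 1
    field_simp
    ring
  refine (Finset.sum_le_sum hterm).trans ?_
  rw [← Finset.mul_sum]
  have htel := telescope (fun n => Real.log (a n)) m
  rw [htel]
  have hl1 : 0 ≤ Real.log (a 1) := Real.log_natCast_nonneg _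
  have hl2 : 0 ≤ Real.log (a 2) := Real.log_natCast_nonneg _
  have hN : 0 ≤ (N : ℝ) * Real.log 8 := by
    have := Real.log_nonneg (show (1 : ℝ) ≤ 8 by norm_num)
    positivity
  rcases Nat.eq_zero_or_pos m with h0 | h0
  · subst h0
    simp only [Nat.zero_add]
    linarith
  · have hq := hm2 (m - 1) (by omega)
    have e : m - 1 + 3 = m + 2 := by omega
    rw [e] at hq
    have hbound : ∀ n, n ≤ m + 2 → Real.log (a n) ≤ N * Real.log 8 := by
      intro n hn
      have h1 : a n ≤ a (m + 2) := ha.monotone hn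
      have h2 : (a n : ℝ) ≤ (8 : ℝ) ^ N := by
        have : a n ≤ 8 ^ N := by omega
        exact_mod_cast this
      calc Real.log (a n) ≤ Real.log ((8 : ℝ) ^ N) :=
            Real.log_le_log (by exact_mod_cast hpos n) h2
        _ = N * Real.log 8 := by rw [Real.log_pow]
    have hb1 := hbound (m + 2) le_rfl
    have hb2 := hbound (m + 1) (by omega)
    linarith

end Helpers

/-- The negation of the preceding statement: There is a strictly increasing sequence of positive integers and a constant c>0 such that, for all large x, the number of i with lcm of three consecutive terms a(i+1),a(i+2),a(i+3) below x exceeds c·x^(1/3)·ln x. -/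
theorem result :
    ¬ (∃ a : ℕ → ℕ, StrictMono a ∧ (∀ n, 0 < a n) ∧
      ∃ c : ℝ, 0 < c ∧ ∃ X : ℝ, ∀ x : ℝ, X ≤ x →
        c * x ^ ((1 : ℝ) / 3) * Real.log x <
          (({i : ℕ | ((Nat.lcm (Nat.lcm (a (i + 1)) (a (i + 2))) (a (i + 3)) : ℕ) : ℝ) < x}.ncard : ℕ) : ℝ)) := by
  rintro ⟨a, ha, hpos, c, hc, X, hX⟩
  obtain ⟨J0, hJ0⟩ := pow_unbounded_of_one_lt X (show (1 : ℝ) < 8 by norm_num)
  obtain ⟨M0, hM0⟩ := exists_nat_gt (16 / c)
  set M := max (max J0 M0) 1 with hM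
  have hMJ : J0 ≤ M := le_trans (le_max_left _ _) (le_max_left _ _)
  have hM0' : M0 ≤ M := le_trans (le_max_right _ _) (le_max_left _ _)
  have hM1 : 1 ≤ M := le_max_right _ _
  have hMr : (16 / c) < (M : ℝ) := lt_of_lt_of_le hM0 (by exact_mod_cast hM0')
  have hup := upper a ha hpos (2 * M)
  have hlog8 : 0 < Real.log 8 := Real.log_pos (by norm_num)
  have hterm : ∀ J ∈ Finset.Ico M (2 * M), c * M * Real.log 8 ≤ ((1 : ℝ) / 2) ^ J *
      (({i : ℕ | ((Nat.lcm (Nat.lcm (a (i + 1)) (a (i + 2))) (a (i + 3)) : ℕ) : ℝ)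
        < (8 : ℝ) ^ J}.ncard : ℕ) : ℝ) := by
    intro J hJ
    have hJ' := Finset.mem_Ico.mp hJ
    have hXJ : X ≤ (8 : ℝ) ^ J := by
      have : (8 : ℝ) ^ J0 ≤ (8 : ℝ) ^ J := pow_le_pow_right₀ (by norm_num) (by omega)
      linarith
    have h := hX _ hXJ
    have hr : ((8 : ℝ) ^ J) ^ ((1 : ℝ) / 3) = (2 : ℝ) ^ J := by
      have h8 : (8 : ℝ) ^ J = ((2 : ℝ) ^ J) ^ 3 := by
        rw [← pow_mul, mul_comm, pow_mul]; norm_num
      have h3 : (1 : ℝ) / 3 = ((3 : ℕ) : ℝ)⁻¹ := by norm_num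
      rw [h8, h3]
      exact Real.pow_rpow_inv_natCast (by positivity) (by norm_num)
    rw [hr, Real.log_pow] at h
    have hp : (0 : ℝ) < ((1 : ℝ) / 2) ^ J := by positivity
    have h2 := mul_le_mul_of_nonneg_left h.le hp.le
    have h3 : ((1 : ℝ) / 2) ^ J * (c * (2 : ℝ) ^ J * (J * Real.log 8))
        = c * J * Real.log 8 := by
      have : ((1 : ℝ) / 2) ^ J * (2 : ℝ) ^ J = 1 := by
        rw [← mul_pow]; norm_num
      calc ((1 : ℝ) / 2) ^ J * (c * (2 : ℝ) ^ J * (J * Real.log 8))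
          = (((1 : ℝ) / 2) ^ J * (2 : ℝ) ^ J) * (c * J * Real.log 8) := by ring
        _ = c * J * Real.log 8 := by rw [this, one_mul]
    rw [h3] at h2
    refine le_trans ?_ h2
    have : (M : ℝ) ≤ J := by exact_mod_cast hJ'.1
    gcongr
  have hsub : Finset.Ico M (2 * M) ⊆ Finset.range (2 * M) := by
    intro J hJ
    exact Finset.mem_range.mpr (Finset.mem_Ico.mp hJ).2
  have h1 : ∑ _J ∈ Finset.Ico M (2 * M), c * M * Real.log 8
      ≤ 8 * (((2 * M : ℕ) : ℝ) * Real.log 8) := by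
    refine (Finset.sum_le_sum hterm).trans (le_trans ?_ hup)
    apply Finset.sum_le_sum_of_subset_of_nonneg hsub
    intro J _ _
    positivity
  rw [Finset.sum_const, Nat.card_Ico, nsmul_eq_mul] at h1
  have h2 : (2 * M - M : ℕ) = M := by omega
  rw [h2] at h1
  push_cast at h1
  have hMpos : (0 : ℝ) < M := by exact_mod_cast hM1
  have h3 : (M : ℝ) * (c * M * Real.log 8) = (c * M) * (M * Real.log 8) := by ring
  have h4 : 8 * (2 * (M : ℝ) * Real.log 8) = 16 * (M * Real.log 8) := by ring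
  rw [h3, h4] at h1
  have h5 : c * M ≤ 16 := le_of_mul_le_mul_right h1 (by positivity)
  rw [div_lt_iff₀ hc] at hMr
  linarith [mul_comm c (M : ℝ)]

end Pool.Agent.S12120
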