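import Pool.Statements.S12353
-- import your own Pool.Agent.* helpers here

set_option autoImplicit false
open Filter Topology
open Pool Pool.MP_9d1108_nt

namespace Pool.Agent.S12353

noncomputable def T (y n : ℕ) : ℝ := ∑ p ∈ n.primeFactors.filter (fun p => y < p), (1:ℝ)/p

noncomputable def sy (y n : ℕ) : ℝ :=
  ∏ p ∈ (Finset.range (y+1)).filter (fun p => p.Prime ∧ p ∣ n), (1 - (1:ℝ)/p)

lemma fac_mem (p : ℕ) (hp : 1 ≤ p) : 0 ≤ 1 - (1:ℝ)/p ∧ 1 - (1:ℝ)/p ≤ 1 := by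
  have h1 : (1:ℝ) ≤ p := by exact_mod_cast hp
  have h2 : (1:ℝ)/p ≤ 1 := by
    rw [div_le_one (by linarith)]; exact h1
  have h3 : (0:ℝ) ≤ 1/p := by positivity
  constructor <;> linarith

lemma prod_mem (S : Finset ℕ) (hS : ∀ p ∈ S, 1 ≤ p) :
    0 ≤ ∏ p ∈ S, (1 - (1:ℝ)/p) ∧ ∏ p ∈ S, (1 - (1:ℝ)/p) ≤ 1 := by
  constructor
  · exact Finset.prod_nonneg fun p hp => (fac_mem p (hS p hp)).1
  · exact Finset.prod_le_one (fun p hp => (fac_mem p (hS p hp)).1)
      (fun p hp => (fac_mem p (hS p hp)).2)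

lemma prod_ge (S : Finset ℕ) (hS : ∀ p ∈ S, 1 ≤ p) :
    1 - ∑ p ∈ S, (1:ℝ)/p ≤ ∏ p ∈ S, (1 - (1:ℝ)/p) := by
  induction S using Finset.induction_on with
  | empty => simp
  | insert a S ha ih =>
    have hS' : ∀ p ∈ S, 1 ≤ p := fun p hp => hS p (Finset.mem_insert_of_mem hp)
    have ih' := ih hS'
    have hm := prod_mem S hS'
    rw [Finset.sum_insert ha, Finset.prod_insert ha]
    have h3 : (0:ℝ) ≤ 1/a := by positivity
    nlinarith [mul_nonneg h3 (sub_nonneg.2 hm.2)]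

lemma T_nonneg (y n : ℕ) : 0 ≤ T y n := by
  unfold T
  exact Finset.sum_nonneg fun p _ => by positivity

lemma T_anti (y z n : ℕ) (h : y ≤ z) : T z n ≤ T y n := by
  unfold T
  apply Finset.sum_le_sum_of_subset_of_nonneg
  · intro p hp
    rw [Finset.mem_filter] at hp ⊢
    exact ⟨hp.1, lt_of_le_of_lt h hp.2⟩
  · intro p _ _; positivity

lemma sy_mem (y n : ℕ) : 0 ≤ sy y n ∧ sy y n ≤ 1 := by
  unfold sy
  apply prod_mem
  intro p hp
  exact (Finset.mem_filter.1 hp).2.1.one_le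

lemma sy_ge (y n : ℕ) : (1/2:ℝ)^(y+1) ≤ sy y n := by
  unfold sy
  set S := (Finset.range (y+1)).filter (fun p => p.Prime ∧ p ∣ n) with hS
  have h1 : ∏ p ∈ S, (1/2:ℝ) ≤ ∏ p ∈ S, (1 - (1:ℝ)/p) := by
    apply Finset.prod_le_prod
    · intro p _; norm_num
    · intro p hp
      have h2 : 2 ≤ p := (Finset.mem_filter.1 hp).2.1.two_le
      have h3 : (2:ℝ) ≤ p := by exact_mod_cast h2
      have h4 : (1:ℝ)/p ≤ 1/2 := by
        apply one_div_le_one_div_of_le <;> linarith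
      linarith
  rw [Finset.prod_const] at h1
  refine le_trans ?_ h1
  apply pow_le_pow_of_le_one (by norm_num) (by norm_num)
  calc S.card ≤ (Finset.range (y+1)).card := Finset.card_filter_le _ _
    _ = y+1 := by simp

lemma tot (y n : ℕ) (hn : n ≠ 0) : (Nat.totient n : ℝ) =
    n * (sy y n * ∏ p ∈ n.primeFactors.filter (fun p => y < p), (1 - (1:ℝ)/p)) := by
  have h := Nat.totient_eq_mul_prod_factors n
  have h' : (Nat.totient n : ℝ) = n * ∏ p ∈ n.primeFactors, (1 - (1:ℝ)/p) := by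
    have h2 : (((Nat.totient n : ℚ)) : ℝ) = ((n * ∏ p ∈ n.primeFactors, (1 - (p:ℚ)⁻¹) : ℚ) : ℝ) := by
      rw [h]
    push_cast at h2
    rw [h2]
    congr 1
    apply Finset.prod_congr rfl
    intro p _
    rw [one_div]
  rw [h']
  congr 1
  rw [← Finset.prod_filter_mul_prod_filter_not n.primeFactors (fun p => p ≤ y)]
  congr 1
  · unfold sy
    apply Finset.prod_congr _ (fun _ _ => rfl)
    ext p
    simp only [Finset.mem_filter, Nat.mem_primeFactors, Finset.mem_range]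
    constructor
    · rintro ⟨⟨a, b, c⟩, d⟩
      exact ⟨by omega, a, b⟩
    · rintro ⟨a, b, c⟩
      exact ⟨⟨b, c, hn⟩, by omega⟩
  · apply Finset.prod_congr _ (fun _ _ => rfl)
    ext p
    simp only [Finset.mem_filter, not_le]

lemma tot_le (y n : ℕ) (hn : n ≠ 0) : (Nat.totient n : ℝ) ≤ n * sy y n := by
  rw [tot y n hn]
  have h := prod_mem (n.primeFactors.filter (fun p => y < p)) (by
    intro p hp
    exact (Nat.prime_of_mem_primeFactors (Finset.mem_filter.1 hp).1).one_le)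
  have h2 := sy_mem y n
  have h3 : sy y n * ∏ p ∈ n.primeFactors.filter (fun p => y < p), (1 - (1:ℝ)/p) ≤ sy y n * 1 :=
    mul_le_mul_of_nonneg_left h.2 h2.1
  have h4 : (0:ℝ) ≤ n := Nat.cast_nonneg n
  calc _ ≤ (n:ℝ) * (sy y n * 1) := mul_le_mul_of_nonneg_left h3 h4
    _ = _ := by ring

lemma tot_ge (y n : ℕ) (hn : n ≠ 0) : n * (sy y n * (1 - T y n)) ≤ (Nat.totient n : ℝ) := by
  rw [tot y n hn]
  have h := prod_ge (n.primeFactors.filter (fun p => y < p)) (by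
    intro p hp
    exact (Nat.prime_of_mem_primeFactors (Finset.mem_filter.1 hp).1).one_le)
  have h2 := sy_mem y n
  have h4 : (0:ℝ) ≤ n := Nat.cast_nonneg n
  apply mul_le_mul_of_nonneg_left _ h4
  exact mul_le_mul_of_nonneg_left h h2.1

lemma sy_mod (y n M : ℕ) (hM : ∀ p, p.Prime → p ≤ y → p ∣ M) : sy y (n % M) = sy y n := by
  unfold sy
  apply Finset.prod_congr _ (fun _ _ => rfl)
  ext p
  simp only [Finset.mem_filter, Finset.mem_range]
  constructor
  · rintro ⟨a, b, c⟩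
    exact ⟨a, b, (Nat.dvd_mod_iff (hM p b (by omega))).1 c⟩
  · rintro ⟨a, b, c⟩
    exact ⟨a, b, (Nat.dvd_mod_iff (hM p b (by omega))).2 c⟩

lemma sum_T (y N : ℕ) (hy : 1 ≤ y) : ∑ n ∈ Finset.Ioc 0 N, T y n ≤ (N:ℝ) / y := by
  have h1 : ∀ n ∈ Finset.Ioc 0 N, T y n ≤ ∑ p ∈ Finset.Ioc y N, if p ∣ n then (1:ℝ)/p else 0 := by
    intro n hn
    rw [Finset.mem_Ioc] at hn
    unfold T
    rw [← Finset.sum_filter]
    apply Finset.sum_le_sum_of_subset_of_nonneg
    · intro p hp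
      simp only [Finset.mem_filter, Nat.mem_primeFactors, Finset.mem_Ioc] at hp ⊢
      refine ⟨⟨hp.2, ?_⟩, hp.1.2.1⟩
      exact le_trans (Nat.le_of_dvd (by omega) hp.1.2.1) hn.2
    · intro p _ _; positivity
  by_cases hyN : y ≤ N
  · calc ∑ n ∈ Finset.Ioc 0 N, T y n
      ≤ ∑ n ∈ Finset.Ioc 0 N, ∑ p ∈ Finset.Ioc y N, (if p ∣ n then (1:ℝ)/p else 0) :=
        Finset.sum_le_sum h1
    _ = ∑ p ∈ Finset.Ioc y N, ∑ n ∈ Finset.Ioc 0 N, (if p ∣ n then (1:ℝ)/p else 0) :=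
        Finset.sum_comm
    _ = ∑ p ∈ Finset.Ioc y N, ((N / p : ℕ) : ℝ) * (1/p) := by
        apply Finset.sum_congr rfl
        intro p _
        rw [← Finset.sum_filter, Finset.sum_const, Nat.Ioc_filter_dvd_card_eq_div, nsmul_eq_mul]
    _ ≤ ∑ p ∈ Finset.Ioc y N, (N:ℝ) * ((p:ℝ)^2)⁻¹ := by
        apply Finset.sum_le_sum
        intro p hp
        rw [Finset.mem_Ioc] at hp
        have hp0 : (0:ℝ) < p := by exact_mod_cast (by omega : 0 < p)
        have h2 : ((N / p : ℕ) : ℝ) ≤ (N:ℝ)/p := Nat.cast_div_le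
        calc ((N / p : ℕ) : ℝ) * (1/p) ≤ (N:ℝ)/p * (1/p) :=
              mul_le_mul_of_nonneg_right h2 (by positivity)
          _ = (N:ℝ) * ((p:ℝ)^2)⁻¹ := by field_simp
    _ = (N:ℝ) * ∑ p ∈ Finset.Ioc y N, ((p:ℝ)^2)⁻¹ := by rw [Finset.mul_sum]
    _ ≤ (N:ℝ) * ((y:ℝ)⁻¹ - (N:ℝ)⁻¹) := by
        apply mul_le_mul_of_nonneg_left _ (Nat.cast_nonneg N)
        exact sum_Ioc_inv_sq_le_sub (by omega) hyN
    _ ≤ (N:ℝ) / y := by
        rw [div_eq_mul_inv]
        apply mul_le_mul_of_nonneg_left _ (Nat.cast_nonneg N)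
        have : (0:ℝ) ≤ (N:ℝ)⁻¹ := by positivity
        linarith
  · have h2 : ∑ n ∈ Finset.Ioc 0 N, T y n ≤ 0 := by
      apply Finset.sum_nonpos
      intro n hn
      refine le_trans (h1 n hn) ?_
      rw [Finset.Ioc_eq_empty (by omega)]
      simp
    refine le_trans h2 (by positivity)

lemma card_T (y N : ℕ) (hy : 1 ≤ y) (t : ℝ) (ht : 0 < t) :
    (((Finset.Ioc 0 N).filter (fun n => t < T y n)).card : ℝ) ≤ (N:ℝ) / y / t := by
  rw [le_div_iff₀ ht]
  calc (((Finset.Ioc 0 N).filter (fun n => t < T y n)).card : ℝ) * t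
      = ∑ n ∈ (Finset.Ioc 0 N).filter (fun n => t < T y n), t := by
        rw [Finset.sum_const, nsmul_eq_mul]
    _ ≤ ∑ n ∈ (Finset.Ioc 0 N).filter (fun n => t < T y n), T y n := by
        apply Finset.sum_le_sum
        intro n hn
        exact (Finset.mem_filter.1 hn).2.le
    _ ≤ ∑ n ∈ Finset.Ioc 0 N, T y n := by
        apply Finset.sum_le_sum_of_subset_of_nonneg (Finset.filter_subset _ _)
        intro n _ _
        exact T_nonneg y n
    _ ≤ _ := sum_T y N hy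

/-- main counting claim -/
lemma claimA (K x : ℕ) (hK : 1 ≤ K) (hx : K * (K^2).factorial ≤ x) :
    (Set.ncard {n : ℕ | (x : ℝ) < (n : ℝ) + (Nat.totient n : ℝ) ∧
              (n : ℝ) + (Nat.totient n : ℝ) < (x : ℝ) + (x:ℝ)/K} : ℝ) ≤ 6 * ((x:ℝ)/K) := by
  classical
  set M := (K^2).factorial with hMdef
  have hM : ∀ p, p.Prime → p ≤ K^2 → p ∣ M := fun p hp hle => Nat.dvd_factorial hp.pos hle
  have hMpos : 0 < M := Nat.factorial_pos _
  have hK0 : (1:ℝ) ≤ K := by exact_mod_cast hK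
  have hKp : (0:ℝ) < K := by linarith
  set H : ℝ := (x:ℝ)/K with hH
  have hxR : (K:ℝ) * M ≤ x := by exact_mod_cast hx
  have hMH : (M:ℝ) ≤ H := by
    rw [hH, le_div_iff₀ hKp]; linarith
  have hH0 : 0 ≤ H := by rw [hH]; positivity
  have hHx : H ≤ x := by
    rw [hH, div_le_iff₀ hKp]
    have : (0:ℝ) ≤ x := Nat.cast_nonneg x
    nlinarith
  let s : ℕ → ℝ := fun a => sy (K^2) a
  let u : ℕ → ℝ := fun a => ((x:ℝ)/(1+s a) - a)/M
  let v : ℕ → ℝ := fun a => (((x:ℝ)+3*H)/(1+s a) - a)/M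
  let G : Finset ℕ := (Finset.range M).biUnion
    (fun a => (Finset.Ico ⌈u a⌉₊ ⌈v a⌉₊).image (fun q => a + M*q))
  let B : Finset ℕ := (Finset.Ioc 0 (2*x)).filter (fun n => (1:ℝ)/K < T (K^2) n)
  have hsub : {n : ℕ | (x : ℝ) < (n : ℝ) + (Nat.totient n : ℝ) ∧
              (n : ℝ) + (Nat.totient n : ℝ) < (x : ℝ) + H} ⊆ ((G ∪ B : Finset ℕ) : Set ℕ) := by
    intro n hn
    obtain ⟨h1, h2⟩ := hn
    have hx0 : (0:ℝ) ≤ x := Nat.cast_nonneg x
    have hn0 : n ≠ 0 := by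
      rintro rfl
      simp at h1
      linarith
    have hφ0 : (0:ℝ) ≤ Nat.totient n := Nat.cast_nonneg _
    have hn2x : (n:ℝ) < 2*x := by linarith
    have hn2x' : n ≤ 2*x := by
      have : (n:ℝ) < ((2*x : ℕ):ℝ) := by push_cast; exact hn2x
      exact_mod_cast this.le
    rw [Finset.coe_union]
    by_cases hT : (1:ℝ)/K < T (K^2) n
    · right
      simp only [B, Finset.coe_filter, Finset.mem_Ioc, Set.mem_ofPred_eq]
      exact ⟨⟨by omega, hn2x'⟩, hT⟩
    · left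
      rw [not_lt] at hT
      have h3 := tot_le (K^2) n hn0
      have h4 := tot_ge (K^2) n hn0
      have hs := sy_mem (K^2) n
      have hnpos : (0:ℝ) < n := by exact_mod_cast Nat.pos_of_ne_zero hn0
      -- n (1+s) bounds
      have h5 : (x:ℝ) < n * (1 + sy (K^2) n) := by nlinarith
      have h6 : (n:ℝ) * (1 + sy (K^2) n) < x + 3*H := by
        have h7 : (n:ℝ) * (sy (K^2) n * T (K^2) n) ≤ n * (1/K) := by
          apply mul_le_mul_of_nonneg_left _ hnpos.le
          calc sy (K^2) n * T (K^2) n ≤ 1 * T (K^2) n :=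
                mul_le_mul_of_nonneg_right hs.2 (T_nonneg _ _)
            _ ≤ 1/K := by linarith
        have h8 : (n:ℝ) * (1/K) < 2*H := by
          rw [hH, mul_one_div, ← mul_div_assoc]
          exact div_lt_div_of_pos_right hn2x hKp
        nlinarith
      have hmodlt : n % M < M := Nat.mod_lt _ hMpos
      have hsmod : s (n % M) = sy (K^2) n := sy_mod (K^2) n M hM
      simp only [G, Finset.coe_biUnion, Set.mem_iUnion, Finset.coe_image, Set.mem_image,
        Finset.mem_coe, Finset.mem_range, Finset.mem_Ico]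
      refine ⟨n % M, hmodlt, n / M, ⟨?_, ?_⟩, Nat.mod_add_div n M⟩
      · apply Nat.ceil_le.2
        have hMR : (0:ℝ) < M := by exact_mod_cast hMpos
        have hdecomp : (n:ℝ) = ((n % M : ℕ):ℝ) + M * ((n / M : ℕ) : ℝ) := by
          exact_mod_cast (Nat.mod_add_div n M).symm
        simp only [u]
        rw [hsmod, div_le_iff₀ hMR]
        have hpos : 0 < 1 + sy (K^2) n := by linarith
        have : (x:ℝ)/(1 + sy (K^2) n) ≤ n := by
          rw [div_le_iff₀ hpos]; linarith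
        linarith
      · apply Nat.lt_ceil.2
        have hMR : (0:ℝ) < M := by exact_mod_cast hMpos
        have hdecomp : (n:ℝ) = ((n % M : ℕ):ℝ) + M * ((n / M : ℕ) : ℝ) := by
          exact_mod_cast (Nat.mod_add_div n M).symm
        simp only [v]
        rw [hsmod, lt_div_iff₀ hMR]
        have hpos : 0 < 1 + sy (K^2) n := by linarith
        have : (n:ℝ) < (x + 3*H)/(1 + sy (K^2) n) := by
          rw [lt_div_iff₀ hpos]; linarith
        linarith
  have hcard1 : Set.ncard {n : ℕ | (x : ℝ) < (n : ℝ) + (Nat.totient n : ℝ) ∧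
              (n : ℝ) + (Nat.totient n : ℝ) < (x : ℝ) + H} ≤ (G ∪ B).card := by
    rw [← Set.ncard_coe_finset]
    exact Set.ncard_le_ncard hsub (Finset.finite_toSet _)
  have hB : (B.card : ℝ) ≤ 2*H := by
    have := card_T (K^2) (2*x) (Nat.one_le_pow _ _ hK) ((1:ℝ)/K) (by positivity)
    refine le_trans this (le_of_eq ?_)
    rw [hH]
    push_cast
    field_simp
  have hG : (G.card : ℝ) ≤ 4*H := by
    have h1 : G.card ≤ ∑ a ∈ Finset.range M, (⌈v a⌉₊ - ⌈u a⌉₊) := by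
      refine le_trans Finset.card_biUnion_le ?_
      apply Finset.sum_le_sum
      intro a _
      refine le_trans Finset.card_image_le ?_
      rw [Nat.card_Ico]
    have hMR : (0:ℝ) < M := by exact_mod_cast hMpos
    have h2 : ∀ a ∈ Finset.range M, ((⌈v a⌉₊ - ⌈u a⌉₊ : ℕ) : ℝ) ≤ 3*H/M + 1 := by
      intro a ha
      have hs := sy_mem (K^2) a
      have huv : v a - u a ≤ 3*H/M := by
        simp only [u, v, s]
        rw [← sub_div]
        apply div_le_div_of_nonneg_right _ hMR.le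
        have hpos : 0 < 1 + sy (K^2) a := by linarith
        have : (x + 3*H)/(1 + sy (K^2) a) - x/(1 + sy (K^2) a) = 3*H/(1 + sy (K^2) a) := by
          rw [← sub_div]; ring_nf
        have h9 : 3*H/(1 + sy (K^2) a) ≤ 3*H := by
          apply div_le_self (by linarith) (by linarith)
        linarith
      have h3H : 0 ≤ 3*H/M := by positivity
      rcases le_or_gt (⌈v a⌉₊) (⌈u a⌉₊) with hle | hlt
      · rw [Nat.sub_eq_zero_of_le hle]
        push_cast
        linarith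
      · rw [Nat.cast_sub hlt.le]
        have hv0 : 0 < v a := by
          by_contra hcon
          rw [not_lt] at hcon
          have : ⌈v a⌉₊ = 0 := Nat.ceil_eq_zero.2 hcon
          omega
        have e1 : (⌈v a⌉₊ : ℝ) < v a + 1 := Nat.ceil_lt_add_one hv0.le
        have e2 : u a ≤ ⌈u a⌉₊ := Nat.le_ceil _
        linarith
    calc (G.card : ℝ) ≤ ((∑ a ∈ Finset.range M, (⌈v a⌉₊ - ⌈u a⌉₊) : ℕ) : ℝ) := by
          exact_mod_cast h1
      _ = ∑ a ∈ Finset.range M, ((⌈v a⌉₊ - ⌈u a⌉₊ : ℕ) : ℝ) := by push_cast; rfl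
      _ ≤ ∑ a ∈ Finset.range M, (3*H/M + 1) := Finset.sum_le_sum h2
      _ = M * (3*H/M + 1) := by rw [Finset.sum_const, Finset.card_range, nsmul_eq_mul]
      _ = 3*H + M := by field_simp
      _ ≤ 4*H := by linarith
  have hfin : ((G ∪ B).card : ℝ) ≤ 6*H := by
    have : ((G ∪ B).card : ℝ) ≤ G.card + B.card := by exact_mod_cast Finset.card_union_le G B
    linarith
  calc _ ≤ ((G ∪ B).card : ℝ) := by exact_mod_cast hcard1
    _ ≤ 6*H := hfin


/-- threshold sequence -/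
def X (k : ℕ) : ℕ := 4^k * ((4^k)^2).factorial

def κ (x : ℕ) : ℕ := Nat.findGreatest (fun k => X k ≤ x) x

lemma X_κ (x : ℕ) (hx : 1 ≤ x) : X (κ x) ≤ x := by
  unfold κ
  have h0 : (fun k => X k ≤ x) 0 := by
    simp [X]; exact hx
  exact Nat.findGreatest_spec (P := fun k => X k ≤ x) (Nat.zero_le x) h0

lemma κ_mono {a b : ℕ} (h : a ≤ b) : κ a ≤ κ b := by
  unfold κ
  exact Nat.findGreatest_mono (fun k hk => le_trans hk h) h

lemma κ_ge (k x : ℕ) (h1 : k ≤ x) (h2 : X k ≤ x) : k ≤ κ x := by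
  unfold κ
  exact Nat.le_findGreatest h1 h2

lemma κ_tendsto : Tendsto κ atTop atTop := by
  rw [tendsto_atTop]
  intro k
  filter_upwards [eventually_ge_atTop (k + X k)] with x hx
  exact κ_ge k x (by omega) (by omega)

noncomputable def F (x : ℕ) : ℝ := (x:ℝ) / 4^(κ x)

lemma F_ge (x : ℕ) (hx : 1 ≤ x) : (κ x : ℝ) ≤ F x := by
  have h := X_κ x hx
  unfold X at h
  have h1 : (4^(κ x))^2 ≤ ((4^(κ x))^2).factorial := Nat.self_le_factorial _
  have h2 : 4^(κ x) * (4^(κ x))^2 ≤ x := le_trans (Nat.mul_le_mul_left _ h1) h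
  have h3 : κ x ≤ 4^(κ x) := (Nat.lt_pow_self (by norm_num)).le
  have h4 : 1 ≤ 4^(κ x) := Nat.one_le_pow _ _ (by norm_num)
  have h5 : κ x * 4^(κ x) ≤ x := by
    calc κ x * 4^(κ x) ≤ 4^(κ x) * 4^(κ x) := Nat.mul_le_mul_right _ h3
      _ ≤ 4^(κ x) * (4^(κ x))^2 := by
          apply Nat.mul_le_mul_left
          nlinarith
      _ ≤ x := h2
  unfold F
  rw [le_div_iff₀ (by positivity)]
  exact_mod_cast h5

/-- the density one set -/
def A : Set ℕ := {n : ℕ | n ≠ 0 ∧ T (κ n + 1) n ≤ 1/2}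

lemma A_ratio (n : ℕ) (hn : n ∈ A) : F n / (Nat.totient n : ℝ) ≤ 8 * (1/2:ℝ)^(κ n) := by
  obtain ⟨hn0, hT⟩ := hn
  have h1 := tot_ge (κ n + 1) n hn0
  have h2 := sy_ge (κ n + 1) n
  have hnpos : (0:ℝ) < n := by exact_mod_cast Nat.pos_of_ne_zero hn0
  have hφ : (0:ℝ) < Nat.totient n := by exact_mod_cast Nat.totient_pos.2 (Nat.pos_of_ne_zero hn0)
  have hs := sy_mem (κ n + 1) n
  have h3 : (1/2:ℝ)^(κ n + 1 + 1) * (1/2) ≤ sy (κ n + 1) n * (1 - T (κ n + 1) n) := by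
    apply mul_le_mul h2 (by linarith) (by norm_num) hs.1
  have h4 : (n:ℝ) * ((1/2:ℝ)^(κ n + 1 + 1) * (1/2)) ≤ Nat.totient n :=
    le_trans (mul_le_mul_of_nonneg_left h3 hnpos.le) h1
  rw [div_le_iff₀ hφ]
  unfold F
  calc (n:ℝ)/4^(κ n) = 8 * (1/2:ℝ)^(κ n) * ((n:ℝ) * ((1/2:ℝ)^(κ n + 1 + 1) * (1/2))) := by
        have : (4:ℝ)^(κ n) = 2^(κ n) * 2^(κ n) := by
          rw [← mul_pow]; norm_num
        rw [this]
        simp only [one_div, inv_pow, pow_succ]
        field_simp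
        norm_num
    _ ≤ 8 * (1/2:ℝ)^(κ n) * Nat.totient n := by
        apply mul_le_mul_of_nonneg_left h4 (by positivity)

lemma A_count (k N : ℕ) : ((Set.Iio N \ A).ncard : ℝ) ≤ (k + X k + 1 : ℕ) + 2 * N / ((k:ℝ) + 1) := by
  classical
  have hsub : (Set.Iio N \ A) ⊆
      ((Finset.range (k + X k + 1) ∪ (Finset.Ioc 0 N).filter (fun n => (1/2:ℝ) < T (k+1) n) : Finset ℕ) : Set ℕ) := by
    intro n hn
    obtain ⟨h1, h2⟩ := hn
    rw [Set.mem_Iio] at h1
    rw [Finset.coe_union]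
    by_cases h : n < k + X k + 1
    · left
      simp [h]
    · right
      rw [not_lt] at h
      have hn0 : n ≠ 0 := by omega
      simp only [Finset.coe_filter, Finset.mem_Ioc, Set.mem_ofPred_eq]
      refine ⟨⟨by omega, by omega⟩, ?_⟩
      have h3 : ¬ (T (κ n + 1) n ≤ 1/2) := fun hc => h2 ⟨hn0, hc⟩
      rw [not_le] at h3
      have hk : k ≤ κ n := κ_ge k n (by omega) (by omega)
      exact lt_of_lt_of_le h3 (T_anti (k+1) (κ n + 1) n (by omega))
  have hc : (Set.Iio N \ A).ncard ≤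
      (Finset.range (k + X k + 1) ∪ (Finset.Ioc 0 N).filter (fun n => (1/2:ℝ) < T (k+1) n)).card := by
    rw [← Set.ncard_coe_finset]
    exact Set.ncard_le_ncard hsub (Finset.finite_toSet _)
  have hc2 := le_trans hc (Finset.card_union_le _ _)
  have hc3 : ((Set.Iio N \ A).ncard : ℝ) ≤ ((Finset.range (k + X k + 1)).card : ℝ) +
      (((Finset.Ioc 0 N).filter (fun n => (1/2:ℝ) < T (k+1) n)).card : ℝ) := by
    exact_mod_cast hc2
  have h5 := card_T (k+1) N (by omega) (1/2) (by norm_num)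
  rw [Finset.card_range] at hc3
  have h6 : (N:ℝ) / ((k+1 : ℕ) : ℝ) / (1/2) = 2 * N / ((k:ℝ)+1) := by
    push_cast
    field_simp
  rw [h6] at h5
  linarith

lemma A_density : Tendsto (fun N : ℕ => ((A ∩ Set.Iio N).ncard : ℝ) / (N : ℝ)) atTop (𝓝 1) := by
  rw [Metric.tendsto_atTop]
  intro ε hε
  obtain ⟨k, hk⟩ := exists_nat_gt (4/ε)
  obtain ⟨N0, hN0⟩ := exists_nat_gt ((2 * ((k + X k + 1 : ℕ) : ℝ)) / ε)
  refine ⟨N0 + 1, fun N hN => ?_⟩
  have hNpos : (0:ℝ) < N := by exact_mod_cast (by omega : 0 < N)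
  have hNN0 : (N0:ℝ) ≤ N := by exact_mod_cast (by omega : N0 ≤ N)
  have hfinI : (Set.Iio N).Finite := Set.finite_Iio N
  have hsplit : (A ∩ Set.Iio N).ncard + (Set.Iio N \ A).ncard = N := by
    have h1 := Set.ncard_inter_add_ncard_diff_eq_ncard (Set.Iio N) A hfinI
    rw [Set.inter_comm] at h1
    rw [h1]
    rw [← Finset.coe_Iio, Set.ncard_coe_finset, Nat.card_Iio]
  have hs : ((A ∩ Set.Iio N).ncard : ℝ) + ((Set.Iio N \ A).ncard : ℝ) = N := by
    exact_mod_cast hsplit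
  have hc := A_count k N
  have h0 : (0:ℝ) ≤ ((Set.Iio N \ A).ncard : ℝ) := Nat.cast_nonneg _
  rw [Real.dist_eq]
  have hval : ((A ∩ Set.Iio N).ncard : ℝ) / N - 1 = - (((Set.Iio N \ A).ncard : ℝ) / N) := by
    field_simp
    linarith
  rw [hval, abs_neg, abs_of_nonneg (by positivity)]
  rw [div_lt_iff₀ hNpos]
  have e1 : ((k + X k + 1 : ℕ) : ℝ) < ε/2 * N := by
    rw [div_lt_iff₀ hε] at hN0
    nlinarith
  have e2 : 2 * N / ((k:ℝ) + 1) < ε/2 * N := by
    rw [div_lt_iff₀ (by positivity)]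
    rw [div_lt_iff₀ hε] at hk
    nlinarith
  linarith


/-- There is F with F(x)→∞ and F(n)/φ(n)→0 along a density-one set, such that for some C only finitely many x have more than C·F(x) integers n with n+φ(n) in the open interval (x, x+F(x)). -/
theorem result :
    ∃ F : ℕ → ℝ, Tendsto F atTop atTop ∧
      (∃ A : Set ℕ,
        Tendsto (fun N : ℕ => ((A ∩ Set.Iio N).ncard : ℝ) / (N : ℝ)) atTop (𝓝 1) ∧
        Tendsto (fun n : ℕ => F n / (Nat.totient n : ℝ)) (atTop ⊓ 𝓟 A) (𝓝 0)) ∧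
      ¬ (∀ C : ℝ, Set.Infinite {x : ℕ |
          ((Set.ncard {n : ℕ | (x : ℝ) < (n : ℝ) + (Nat.totient n : ℝ) ∧
              (n : ℝ) + (Nat.totient n : ℝ) < (x : ℝ) + F x} : ℕ) : ℝ) > C * F x}) := by
  refine ⟨F, ?_, ⟨A, A_density, ?_⟩, ?_⟩
  · have h1 : Tendsto (fun x : ℕ => ((κ x : ℕ) : ℝ)) atTop atTop :=
      tendsto_natCast_atTop_atTop.comp κ_tendsto
    apply tendsto_atTop_mono' atTop _ h1
    filter_upwards [eventually_ge_atTop 1] with x hx
    exact F_ge x hx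
  · have h1 : Tendsto (fun n : ℕ => 8 * (1/2:ℝ)^(κ n)) atTop (𝓝 0) := by
      have h2 : Tendsto (fun n : ℕ => (1/2:ℝ)^(κ n)) atTop (𝓝 0) :=
        (tendsto_pow_atTop_nhds_zero_of_lt_one (by norm_num) (by norm_num)).comp κ_tendsto
      simpa using h2.const_mul 8
    have h3 : Tendsto (fun n : ℕ => 8 * (1/2:ℝ)^(κ n)) (atTop ⊓ 𝓟 A) (𝓝 0) :=
      h1.mono_left inf_le_left
    apply squeeze_zero' _ _ h3
    · apply Eventually.of_forall
      intro n
      unfold F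
      positivity
    · have : ∀ᶠ n in (atTop ⊓ 𝓟 A), n ∈ A := by
        have h4 : ∀ᶠ n in 𝓟 A, n ∈ A := by simp
        exact h4.filter_mono inf_le_right
      filter_upwards [this] with n hn
      exact A_ratio n hn
  · intro hC
    have h6 := hC 6
    apply h6
    have : {x : ℕ |
          ((Set.ncard {n : ℕ | (x : ℝ) < (n : ℝ) + (Nat.totient n : ℝ) ∧
              (n : ℝ) + (Nat.totient n : ℝ) < (x : ℝ) + F x} : ℕ) : ℝ) > 6 * F x} ⊆ {0} := by
      intro x hx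
      rw [Set.mem_singleton_iff]
      by_contra hx0
      have hx1 : 1 ≤ x := by omega
      have hX := X_κ x hx1
      unfold X at hX
      have := claimA (4^(κ x)) x (Nat.one_le_pow _ _ (by norm_num)) hX
      simp only [Set.mem_ofPred_eq, F] at hx
      push_cast at this hx
      linarith
    exact (Set.finite_singleton 0).subset this

end Pool.Agent.S12353
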