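import Pool.Statements.S12359
-- import your own Pool.Agent.* helpers here

set_option autoImplicit false
open Pool Pool.MP_9da210_nt

namespace Pool.Agent.S12359

section Fourier
open Finset
variable {M : ℕ} [NeZero M]

noncomputable def ft (f : ZMod M → ℂ) (r : ZMod M) : ℂ := ∑ x, f x * ZMod.stdAddChar (r * x)

lemma norm_psi (a : ZMod M) : ‖ZMod.stdAddChar a‖ = 1 := by
  rw [ZMod.stdAddChar_apply]
  exact Circle.norm_coe _

lemma parseval (f : ZMod M → ℂ) : ∑ r, ‖ft f r‖^2 = M * ∑ x, ‖f x‖^2 := by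
  have h : ∑ r, ((‖ft f r‖^2 : ℝ) : ℂ) = (M : ℂ) * ∑ x, ((‖f x‖^2 : ℝ) : ℂ) := by
    have e1 : ∀ r : ZMod M, ((‖ft f r‖^2 : ℝ) : ℂ) =
        ∑ x, ∑ y, f x * (starRingEnd ℂ) (f y) * ZMod.stdAddChar (r * (x - y)) := by
      intro r
      rw [Complex.ofReal_pow, ← Complex.mul_conj', ft, map_sum, Finset.sum_mul_sum]
      apply Finset.sum_congr rfl; intro x _
      apply Finset.sum_congr rfl; intro y _
      rw [map_mul (starRingEnd ℂ), ← AddChar.map_neg_eq_conj, mul_sub, sub_eq_add_neg, AddChar.map_add_eq_mul]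
      ring
    calc ∑ r, ((‖ft f r‖^2 : ℝ) : ℂ)
        = ∑ r, ∑ x, ∑ y, f x * (starRingEnd ℂ) (f y) * ZMod.stdAddChar (r * (x - y)) :=
          Finset.sum_congr rfl (fun r _ => e1 r)
      _ = ∑ x, ∑ y, ∑ r, f x * (starRingEnd ℂ) (f y) * ZMod.stdAddChar (r * (x - y)) := by
          rw [Finset.sum_comm]
          apply Finset.sum_congr rfl; intro x _
          rw [Finset.sum_comm]
      _ = ∑ x, ∑ y, f x * (starRingEnd ℂ) (f y) * (if x - y = 0 then (M:ℂ) else 0) := by
          apply Finset.sum_congr rfl; intro x _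
          apply Finset.sum_congr rfl; intro y _
          rw [← Finset.mul_sum, AddChar.sum_mulShift (x - y) (ZMod.isPrimitive_stdAddChar M)]
          congr 1
          rw [ZMod.card]
          split_ifs <;> simp
      _ = ∑ x, f x * (starRingEnd ℂ) (f x) * M := by
          apply Finset.sum_congr rfl; intro x _
          rw [Finset.sum_eq_single x]
          · simp
          · intro y _ hy
            rw [if_neg]
            · simp
            · intro h; exact hy (sub_eq_zero.1 h).symm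
          · intro h; exact absurd (Finset.mem_univ x) h
      _ = (M : ℂ) * ∑ x, ((‖f x‖^2 : ℝ) : ℂ) := by
          rw [Finset.mul_sum]
          apply Finset.sum_congr rfl; intro x _
          rw [Complex.ofReal_pow, ← Complex.mul_conj']
          ring
  exact_mod_cast h

lemma ft_corr (f g : ZMod M → ℂ) (r : ZMod M) :
    ft (fun x => ∑ y, g y * f (x + y)) r = ft f r * ft g (-r) := by
  unfold ft
  simp_rw [Finset.sum_mul]
  rw [Finset.sum_comm]
  have : ∀ y : ZMod M, ∑ x, g y * f (x + y) * ZMod.stdAddChar (r * x) =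
      ∑ z, g y * f z * ZMod.stdAddChar (r * (z - y)) := by
    intro y
    apply Fintype.sum_equiv (Equiv.addRight y)
    intro x
    simp
  simp_rw [this]
  rw [Finset.sum_comm]
  apply Finset.sum_congr rfl; intro z _
  rw [Finset.mul_sum]
  apply Finset.sum_congr rfl; intro y _
  rw [mul_sub, sub_eq_add_neg, AddChar.map_add_eq_mul]
  ring_nf

lemma ft_shift (h : ZMod M → ℂ) (t r : ZMod M) :
    ft (fun x => h (x + t) - h x) r = (ZMod.stdAddChar (-(r * t)) - 1) * ft h r := by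
  unfold ft
  have : ∑ x, h (x + t) * ZMod.stdAddChar (r * x) =
      ∑ z, h z * ZMod.stdAddChar (r * (z - t)) := by
    apply Fintype.sum_equiv (Equiv.addRight t)
    intro x
    simp
  simp_rw [sub_mul, Finset.sum_sub_distrib, this, one_mul, Finset.mul_sum]
  congr 1
  apply Finset.sum_congr rfl; intro z _
  rw [mul_sub, sub_eq_add_neg, AddChar.map_add_eq_mul]
  ring

lemma l2_bound (f g : ZMod M → ℂ) (t : ZMod M) (κ : ℝ)
    (H : ∀ r, ‖ZMod.stdAddChar (r * t) - 1‖ * ‖ft f r‖ ≤ κ * M) :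
    ∑ x, ‖(∑ y, g y * f (x + t + y)) - ∑ y, g y * f (x + y)‖^2 ≤ κ^2 * M^2 * ∑ x, ‖g x‖^2 := by
  have hM : (0:ℝ) < M := by exact_mod_cast Nat.pos_of_ne_zero (NeZero.ne M)
  set h : ZMod M → ℂ := fun x => ∑ y, g y * f (x + y) with hh
  have h1 := parseval (fun x => h (x + t) - h x)
  have h2 : ∀ r, ‖ft (fun x => h (x + t) - h x) r‖^2 ≤ κ^2 * M^2 * ‖ft g (-r)‖^2 := by
    intro r
    rw [ft_shift, ft_corr, norm_mul, norm_mul]
    have e : ‖ZMod.stdAddChar (-(r * t)) - 1‖ = ‖ZMod.stdAddChar (r * t) - 1‖ := by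
      rw [AddChar.map_neg_eq_conj, ← Complex.norm_conj (ZMod.stdAddChar (r * t) - 1)]
      simp
    rw [e]
    have e3 := H r
    have e4 : 0 ≤ ‖ZMod.stdAddChar (r * t) - 1‖ * ‖ft f r‖ := by positivity
    calc (‖ZMod.stdAddChar (r * t) - 1‖ * (‖ft f r‖ * ‖ft g (-r)‖))^2
        = (‖ZMod.stdAddChar (r * t) - 1‖ * ‖ft f r‖)^2 * ‖ft g (-r)‖^2 := by ring
      _ ≤ (κ * M)^2 * ‖ft g (-r)‖^2 := by
          apply mul_le_mul_of_nonneg_right _ (by positivity)
          exact pow_le_pow_left₀ e4 e3 2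
      _ = _ := by ring
  have h3 : ∑ r, ‖ft (fun x => h (x + t) - h x) r‖^2 ≤ κ^2 * M^2 * (M * ∑ x, ‖g x‖^2) := by
    calc _ ≤ ∑ r, κ^2 * M^2 * ‖ft g (-r)‖^2 := Finset.sum_le_sum (fun r _ => h2 r)
      _ = κ^2 * M^2 * ∑ r, ‖ft g (-r)‖^2 := by rw [Finset.mul_sum]
      _ = κ^2 * M^2 * ∑ r, ‖ft g r‖^2 := by
          congr 1
          exact Fintype.sum_equiv (Equiv.neg _) _ _ (fun r => by simp)
      _ = _ := by rw [parseval]
  rw [h1] at h3
  have h4 : (M:ℝ) * ∑ x, ‖h (x + t) - h x‖^2 ≤ M * (κ^2 * M^2 * ∑ x, ‖g x‖^2) := by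
    linarith
  exact le_of_mul_le_mul_left h4 hM

lemma psi_close (a b : ZMod M) (K : ℕ) (hK : 0 < K) (h : a.val * K / M = b.val * K / M) :
    ‖ZMod.stdAddChar (b - a) - 1‖ ≤ 2 * Real.pi / K := by
  have hM : 0 < M := Nat.pos_of_ne_zero (NeZero.ne M)
  have hMR : (0:ℝ) < M := by exact_mod_cast hM
  have hKR : (0:ℝ) < K := by exact_mod_cast hK
  have e : (b - a) = (((b.val : ℤ) - (a.val : ℤ) : ℤ) : ZMod M) := by
    push_cast
    rw [ZMod.natCast_zmod_val, ZMod.natCast_zmod_val]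
  rw [e, ZMod.stdAddChar_coe]
  have hd : |((b.val:ℝ) - a.val) * K| ≤ M := by
    have h1 := Nat.div_add_mod (a.val * K) M
    have h2 := Nat.div_add_mod (b.val * K) M
    have h3 := Nat.mod_lt (a.val * K) hM
    have h4 := Nat.mod_lt (b.val * K) hM
    rw [h] at h1
    have h5 : ((b.val:ℝ) - a.val) * K = ((b.val * K % M : ℕ) : ℝ) - ((a.val * K % M : ℕ) : ℝ) := by
      have e1 : ((M * (b.val * K / M) + a.val * K % M : ℕ) : ℝ) = ((a.val * K : ℕ) : ℝ) := by rw [h1]
      have e2 : ((M * (b.val * K / M) + b.val * K % M : ℕ) : ℝ) = ((b.val * K : ℕ) : ℝ) := by rw [h2]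
      push_cast at e1 e2 ⊢
      linarith
    rw [h5, abs_le]
    have h6 : ((b.val * K % M : ℕ) : ℝ) ≤ M := by exact_mod_cast h4.le
    have h7 : ((a.val * K % M : ℕ) : ℝ) ≤ M := by exact_mod_cast h3.le
    have h8 : (0:ℝ) ≤ ((b.val * K % M : ℕ) : ℝ) := Nat.cast_nonneg _
    have h9 : (0:ℝ) ≤ ((a.val * K % M : ℕ) : ℝ) := Nat.cast_nonneg _
    constructor <;> linarith
  set θ : ℝ := 2 * Real.pi * ((b.val:ℝ) - a.val) / M with hθ
  have e2 : (2 * Real.pi * Complex.I * (((b.val : ℤ) - (a.val : ℤ) : ℤ) : ℂ) / M : ℂ) =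
      Complex.I * (θ : ℂ) := by
    rw [hθ]; push_cast; ring
  rw [e2]
  refine le_trans Real.norm_exp_I_mul_ofReal_sub_one_le ?_
  rw [Real.norm_eq_abs, hθ, abs_div, abs_mul, abs_of_pos hMR,
    abs_of_pos (by positivity : (0:ℝ) < 2 * Real.pi)]
  rw [div_le_div_iff₀ hMR hKR]
  rw [abs_mul, abs_of_pos hKR] at hd
  have : 0 < 2 * Real.pi := by positivity
  nlinarith

lemma psi_pow (a : ZMod M) (u : ℕ) :
    ‖ZMod.stdAddChar ((u : ZMod M) * a) - 1‖ ≤ u * ‖ZMod.stdAddChar a - 1‖ := by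
  induction u with
  | zero => simp
  | succ n ih =>
    have e : ((n + 1 : ℕ) : ZMod M) * a = (n : ZMod M) * a + a := by push_cast; ring
    rw [e, AddChar.map_add_eq_mul]
    have e2 : ZMod.stdAddChar ((n : ZMod M) * a) * ZMod.stdAddChar a - 1 =
        ZMod.stdAddChar ((n : ZMod M) * a) * (ZMod.stdAddChar a - 1) +
        (ZMod.stdAddChar ((n : ZMod M) * a) - 1) := by ring
    rw [e2]
    refine le_trans (norm_add_le _ _) ?_
    rw [norm_mul, norm_psi]
    push_cast
    linarith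

/-- simultaneous Dirichlet -/
lemma dirichlet (Θ : Finset (ZMod M)) (K R : ℕ) (hK : 0 < K) (hR : Θ.card ≤ R) :
    ∃ q : ℕ, 1 ≤ q ∧ q ≤ K^R ∧ ∀ r ∈ Θ, ‖ZMod.stdAddChar (r * (q : ZMod M)) - 1‖ ≤ 2 * Real.pi / K := by
  have hM : 0 < M := Nat.pos_of_ne_zero (NeZero.ne M)
  let F : Fin (K^R + 1) → (Θ → Fin K) := fun n r =>
    ⟨(r.1 * ((n : ℕ) : ZMod M)).val * K / M, by
      rw [Nat.div_lt_iff_lt_mul hM, mul_comm]
      exact Nat.mul_lt_mul_of_pos_left (ZMod.val_lt _) hK⟩
  have hcard : Fintype.card (Θ → Fin K) < Fintype.card (Fin (K^R + 1)) := by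
    rw [Fintype.card_fun, Fintype.card_fin, Fintype.card_fin, Fintype.card_coe]
    exact Nat.lt_succ_of_le (Nat.pow_le_pow_right hK hR)
  obtain ⟨n, n', hne, hF⟩ := Fintype.exists_ne_map_eq_of_card_lt F hcard
  have key : ∀ (n n' : Fin (K^R + 1)), (n : ℕ) < n' → F n = F n' →
      ∃ q : ℕ, 1 ≤ q ∧ q ≤ K^R ∧ ∀ r ∈ Θ, ‖ZMod.stdAddChar (r * (q : ZMod M)) - 1‖ ≤ 2 * Real.pi / K := by
    intro n n' hlt hF
    refine ⟨n' - n, by omega, by have := n'.2; omega, ?_⟩
    intro r hr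
    have h1 := congrFun hF ⟨r, hr⟩
    simp only [F, Fin.mk.injEq] at h1
    have h2 := psi_close _ _ K hK h1
    have e : r * (((n' : ℕ) - (n : ℕ) : ℕ) : ZMod M) = r * ((n' : ℕ) : ZMod M) - r * ((n : ℕ) : ZMod M) := by
      rw [Nat.cast_sub hlt.le]; ring
    rw [e]
    exact h2
  rcases lt_or_gt_of_ne (fun h => hne (Fin.ext h) : (n : ℕ) ≠ n') with h | h
  · exact key n n' h hF
  · exact key n' n h hF.symm

/-- the almost periodicity lemma -/
lemma almost_period (f : ZMod M → ℂ) (hf : ∀ x, ‖f x‖ ≤ 1) (k ℓ : ℕ) (hk : 1 ≤ k) (hℓ : 1 ≤ ℓ) :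
    ∃ q : ℕ, 1 ≤ q ∧ q ≤ (1300 * k * ℓ)^(160000 * k^2) ∧
      ∀ (g : ZMod M → ℂ) (u : ℕ), u < ℓ →
        ∑ x, ‖(∑ y, g y * f (x + ((q * u : ℕ) : ZMod M) + y)) - ∑ y, g y * f (x + y)‖^2 ≤
          (1 / (200 * (k:ℝ)))^2 * M^2 * ∑ x, ‖g x‖^2 := by
  classical
  have hM : 0 < M := Nat.pos_of_ne_zero (NeZero.ne M)
  have hMR : (0:ℝ) < M := by exact_mod_cast hM
  have hkR : (1:ℝ) ≤ k := by exact_mod_cast hk
  have hℓR : (1:ℝ) ≤ ℓ := by exact_mod_cast hℓ
  let Θ : Finset (ZMod M) := Finset.univ.filter (fun r => (1/(400*(k:ℝ))) * M < ‖ft f r‖)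
  have hΘ : Θ.card ≤ 160000 * k^2 := by
    have h1 : ∑ r, ‖ft f r‖^2 ≤ M * M := by
      rw [parseval]
      apply mul_le_mul_of_nonneg_left _ hMR.le
      calc ∑ x, ‖f x‖^2 ≤ ∑ x : ZMod M, (1:ℝ) := by
            apply Finset.sum_le_sum
            intro x _
            exact pow_le_one₀ (norm_nonneg _) (hf x)
        _ = M := by simp [ZMod.card]
    have h2 : (Θ.card : ℝ) * ((1/(400*(k:ℝ))) * M)^2 ≤ ∑ r, ‖ft f r‖^2 := by
      calc (Θ.card : ℝ) * ((1/(400*(k:ℝ))) * M)^2 = ∑ r ∈ Θ, ((1/(400*(k:ℝ))) * M)^2 := by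
            rw [Finset.sum_const, nsmul_eq_mul]
        _ ≤ ∑ r ∈ Θ, ‖ft f r‖^2 := by
            apply Finset.sum_le_sum
            intro r hr
            exact pow_le_pow_left₀ (by positivity) (Finset.mem_filter.1 hr).2.le 2
        _ ≤ ∑ r, ‖ft f r‖^2 := by
            apply Finset.sum_le_sum_of_subset_of_nonneg (Finset.subset_univ _)
            intro r _ _; positivity
    have h3 := le_trans h2 h1
    have h4 : (Θ.card : ℝ) ≤ 160000 * k^2 := by
      have h5 : (Θ.card : ℝ) * ((1/(400*(k:ℝ))) * M)^2 = (Θ.card : ℝ) / (160000 * k^2) * (M * M) := by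
        field_simp; norm_num
      rw [h5] at h3
      have h6 : (Θ.card : ℝ) / (160000 * k^2) ≤ 1 := by
        by_contra hcon
        rw [not_le] at hcon
        have : 1 * ((M:ℝ) * M) < (Θ.card : ℝ) / (160000 * k^2) * (M * M) :=
          mul_lt_mul_of_pos_right hcon (by positivity)
        linarith
      rwa [div_le_one (by positivity)] at h6
    exact_mod_cast h4
  obtain ⟨q, hq1, hq2, hq3⟩ := dirichlet Θ (1300 * k * ℓ) (160000 * k^2) (by positivity) hΘ
  refine ⟨q, hq1, hq2, ?_⟩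
  intro g u hu
  apply l2_bound f g ((q * u : ℕ) : ZMod M) (1 / (200 * (k:ℝ)))
  intro r
  have hft : ‖ft f r‖ ≤ M := by
    unfold ft
    refine le_trans (norm_sum_le _ _) ?_
    calc ∑ x, ‖f x * ZMod.stdAddChar (r * x)‖ ≤ ∑ x : ZMod M, (1:ℝ) := by
          apply Finset.sum_le_sum
          intro x _
          rw [norm_mul, norm_psi, mul_one]
          exact hf x
      _ = M := by simp [ZMod.card]
  by_cases hr : r ∈ Θ
  · have h1 := hq3 r hr
    have h2 := psi_pow (r * (q : ZMod M)) u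
    have e : (u : ZMod M) * (r * (q : ZMod M)) = r * ((q * u : ℕ) : ZMod M) := by
      push_cast; ring
    rw [e] at h2
    have hpi : Real.pi < 3.15 := Real.pi_lt_d2
    have huR : (u:ℝ) ≤ ℓ := by exact_mod_cast hu.le
    have h3 : ‖ZMod.stdAddChar (r * ((q * u : ℕ) : ZMod M)) - 1‖ ≤ 1 / (200 * (k:ℝ)) := by
      calc _ ≤ u * ‖ZMod.stdAddChar (r * (q : ZMod M)) - 1‖ := h2
        _ ≤ ℓ * (2 * Real.pi / ((1300 * k * ℓ : ℕ) : ℝ)) := by
            apply mul_le_mul huR h1 (norm_nonneg _) (by positivity)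
        _ = 2 * Real.pi / (1300 * k) := by push_cast; field_simp
        _ ≤ 1 / (200 * (k:ℝ)) := by
            rw [div_le_div_iff₀ (by positivity) (by positivity)]
            nlinarith
    calc ‖ZMod.stdAddChar (r * ((q * u : ℕ) : ZMod M)) - 1‖ * ‖ft f r‖
        ≤ 1 / (200 * (k:ℝ)) * M := mul_le_mul h3 hft (norm_nonneg _) (by positivity)
      _ = _ := rfl
  · have h1 : ‖ft f r‖ ≤ (1/(400*(k:ℝ))) * M := by
      by_contra hcon
      rw [not_le] at hcon
      exact hr (Finset.mem_filter.2 ⟨Finset.mem_univ _, hcon⟩)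
    have h2 : ‖ZMod.stdAddChar (r * ((q * u : ℕ) : ZMod M)) - 1‖ ≤ 2 := by
      refine le_trans (norm_sub_le _ _) ?_
      rw [norm_psi, norm_one]; norm_num
    calc ‖ZMod.stdAddChar (r * ((q * u : ℕ) : ZMod M)) - 1‖ * ‖ft f r‖
        ≤ 2 * ((1/(400*(k:ℝ))) * M) := mul_le_mul h2 h1 (norm_nonneg _) (by norm_num)
      _ = 1 / (200 * (k:ℝ)) * M := by field_simp; norm_num

end Fourier

section Nat
open Finset

/-- number of y in A with x + y in D -/
noncomputable def G (D A : Finset ℕ) (x : ℕ) : ℝ := ((A.filter (fun y => x + y ∈ D)).card : ℝ)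

lemma sum_zmod_ind {M : ℕ} [NeZero M] (A : Finset ℕ) (hA : ∀ y ∈ A, y < M) (F : ZMod M → ℂ) :
    ∑ z : ZMod M, (if z.val ∈ A then (1:ℂ) else 0) * F z = ∑ y ∈ A, F (y : ZMod M) := by
  simp_rw [ite_mul, one_mul, zero_mul]
  rw [← Finset.sum_filter]
  apply Finset.sum_nbij' (i := fun z : ZMod M => z.val) (j := fun y : ℕ => (y : ZMod M))
  · intro z hz; exact (Finset.mem_filter.1 hz).2
  · intro y hy
    rw [Finset.mem_filter]
    refine ⟨Finset.mem_univ _, ?_⟩
    rw [ZMod.val_natCast, Nat.mod_eq_of_lt (hA y hy)]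
    exact hy
  · intro z _; exact ZMod.natCast_zmod_val z
  · intro y hy
    rw [ZMod.val_natCast, Nat.mod_eq_of_lt (hA y hy)]
  · intro z _
    rw [ZMod.natCast_zmod_val]

lemma corr_eq (L : ℕ) [NeZero (2*L)] (D A : Finset ℕ) (hA : ∀ y ∈ A, y < L) (x : ℕ) (hx : x < L) :
    ∑ y : ZMod (2*L), (if y.val ∈ A then (1:ℂ) else 0) *
      (if ((x : ZMod (2*L)) + y).val ∈ D then (1:ℂ) else 0) = ((G D A x : ℝ) : ℂ) := by
  have h1 := sum_zmod_ind (M := 2*L) A (fun y hy => by have := hA y hy; omega)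
    (fun y => if ((x : ZMod (2*L)) + y).val ∈ D then (1:ℂ) else 0)
  rw [h1]
  unfold G
  rw [Finset.card_filter]
  push_cast
  apply Finset.sum_congr rfl
  intro y hy
  have : ((x : ZMod (2*L)) + (y : ZMod (2*L))).val = x + y := by
    rw [← Nat.cast_add, ZMod.val_natCast, Nat.mod_eq_of_lt]
    have := hA y hy; omega
  rw [this]
  split_ifs <;> simp

lemma nat_ap (L : ℕ) (hL : 1 ≤ L) (D : Finset ℕ) (k ℓ : ℕ) (hk : 1 ≤ k) (hℓ : 1 ≤ ℓ) :
    ∃ q : ℕ, 1 ≤ q ∧ q ≤ (1300 * k * ℓ)^(160000 * k^2) ∧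
      ∀ (A : Finset ℕ), (∀ y ∈ A, y < L) → ∀ u : ℕ, u < ℓ →
        ∑ x ∈ (Finset.range L).filter (fun x => x + q * u < L), (G D A (x + q * u) - G D A x)^2 ≤
          ((L:ℝ) / (100 * k))^2 * A.card := by
  have : NeZero (2*L) := ⟨by omega⟩
  obtain ⟨q, h1, h2, h3⟩ := almost_period (M := 2*L)
    (fun z => if z.val ∈ D then (1:ℂ) else 0) (by intro x; split_ifs <;> simp) k ℓ hk hℓ
  refine ⟨q, h1, h2, ?_⟩
  intro A hA u hu
  have h4 := h3 (fun z => if z.val ∈ A then (1:ℂ) else 0) u hu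
  have hkR : (1:ℝ) ≤ k := by exact_mod_cast hk
  have e1 : ∑ x : ZMod (2*L), ‖(if x.val ∈ A then (1:ℂ) else 0)‖^2 = A.card := by
    have := sum_zmod_ind (M := 2*L) A (fun y hy => by have := hA y hy; omega) (fun _ => 1)
    have h5 : ∑ x : ZMod (2*L), ‖(if x.val ∈ A then (1:ℂ) else 0)‖^2 =
        ∑ x : ZMod (2*L), (if x.val ∈ A then (1:ℝ) else 0) := by
      apply Finset.sum_congr rfl; intro x _
      split_ifs <;> simp
    rw [h5]
    have h6 : ((∑ x : ZMod (2*L), (if x.val ∈ A then (1:ℝ) else 0) : ℝ) : ℂ) = ((A.card : ℝ) : ℂ) := by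
      push_cast
      simp only [mul_one] at this
      rw [Finset.sum_const, nsmul_eq_mul, mul_one] at this
      rw [← this]
      apply Finset.sum_congr rfl; intro x _
      split_ifs <;> simp
    exact_mod_cast h6
  rw [e1] at h4
  have e2 : (1 / (200 * (k:ℝ)))^2 * ((2 * L : ℕ) : ℝ)^2 * A.card = ((L:ℝ) / (100 * k))^2 * A.card := by
    push_cast; field_simp; ring
  rw [e2] at h4
  refine le_trans ?_ h4
  set φ : ZMod (2*L) → ℝ := fun x => ‖(∑ y : ZMod (2*L), (if y.val ∈ A then (1:ℂ) else 0) *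
      (if (x + ((q * u : ℕ) : ZMod (2*L)) + y).val ∈ D then (1:ℂ) else 0)) -
      ∑ y : ZMod (2*L), (if y.val ∈ A then (1:ℂ) else 0) * (if (x + y).val ∈ D then (1:ℂ) else 0)‖^2 with hφ
  have e3 : ∀ x ∈ (Finset.range L).filter (fun x => x + q * u < L),
      (G D A (x + q * u) - G D A x)^2 = φ (x : ZMod (2*L)) := by
    intro x hx
    rw [Finset.mem_filter, Finset.mem_range] at hx
    simp only [hφ]
    rw [← Nat.cast_add, corr_eq L D A hA (x + q*u) hx.2, corr_eq L D A hA x hx.1]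
    rw [← Complex.ofReal_sub, Complex.norm_real, Real.norm_eq_abs, sq_abs]
  rw [Finset.sum_congr rfl e3]
  have hinj : Set.InjOn (fun x : ℕ => (x : ZMod (2*L))) ((Finset.range L).filter (fun x => x + q * u < L) : Finset ℕ) := by
    intro x hx y hy hxy
    simp only [Finset.coe_filter, Finset.mem_range, Set.mem_ofPred_eq] at hx hy
    have h7 := congrArg ZMod.val hxy
    simp only at h7
    rw [ZMod.val_natCast, ZMod.val_natCast, Nat.mod_eq_of_lt (by omega), Nat.mod_eq_of_lt (by omega)] at h7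
    exact h7
  rw [← Finset.sum_image (f := φ) hinj]
  apply Finset.sum_le_sum_of_subset_of_nonneg (Finset.subset_univ _)
  intro x _ _
  simp only [hφ]; positivity

lemma cellsum (q ℓ : ℕ) (φ : ℕ → ℝ) (B : ℕ) :
    ∑ x ∈ Finset.range (q * ℓ * B), φ x =
      ∑ b ∈ Finset.range B, ∑ ρ ∈ Finset.range q, ∑ j ∈ Finset.range ℓ, φ (ρ + q * ℓ * b + q * j) := by
  have h1 : ∀ (φ : ℕ → ℝ) (ℓ : ℕ), ∑ x ∈ Finset.range (q * ℓ), φ x =
      ∑ j ∈ Finset.range ℓ, ∑ ρ ∈ Finset.range q, φ (ρ + q * j) := by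
    intro φ ℓ
    induction ℓ with
    | zero => simp
    | succ n ih =>
      rw [Nat.mul_succ, Finset.sum_range_add, ih, Finset.sum_range_succ]
      congr 1
      apply Finset.sum_congr rfl; intro x _
      rw [add_comm]
  induction B with
  | zero => simp
  | succ n ih =>
    rw [Nat.mul_succ, Finset.sum_range_add, ih, Finset.sum_range_succ, h1]
    congr 1
    rw [Finset.sum_comm]
    apply Finset.sum_congr rfl; intro x _
    apply Finset.sum_congr rfl; intro y _
    congr 1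
    ring

/-- for fixed j, a sum over j' splits according to the difference -/
lemma pair_split (ℓ j : ℕ) (hj : j < ℓ) (w : ℕ → ℝ) (hw : ∀ i, 0 ≤ w i) :
    ∑ i ∈ Finset.range ℓ, w i ≤ ∑ u ∈ Finset.range ℓ,
      ((if j + u < ℓ then w (j + u) else 0) + (if u ≤ j then w (j - u) else 0)) := by
  rw [Finset.sum_add_distrib]
  have h1 : ∑ i ∈ Finset.range ℓ, w i = ∑ i ∈ Finset.range (ℓ - j), w (j + i) + ∑ i ∈ Finset.range j, w i := by
    have : ℓ = j + (ℓ - j) := by omega
    conv_lhs => rw [this]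
    rw [Finset.sum_range_add, add_comm]
  rw [h1]
  apply add_le_add
  · rw [← Finset.sum_filter]
    apply Finset.sum_le_sum_of_subset_of_nonneg
    · intro i hi
      rw [Finset.mem_range] at hi
      rw [Finset.mem_filter, Finset.mem_range]
      omega
    · intro i _ _; exact hw _
  · rw [← Finset.sum_range_reflect, ← Finset.sum_filter]
    have h2 : ∑ i ∈ Finset.range j, w (j - 1 - i) = ∑ u ∈ Finset.Ico 1 (j+1), w (j - u) := by
      rw [Finset.sum_Ico_eq_sum_range]
      apply Finset.sum_congr (by simp)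
      intro x _
      congr 1
      omega
    rw [h2]
    apply Finset.sum_le_sum_of_subset_of_nonneg
    · intro i hi
      rw [Finset.mem_Ico] at hi
      rw [Finset.mem_filter, Finset.mem_range]
      omega
    · intro i _ _; exact hw _

end Nat

section Core
open Finset
variable {k : ℕ}

def cls (c : ℕ → Fin k) (L : ℕ) (i : Fin k) : Finset ℕ := (Finset.range L).filter (fun j => c j = i)

def Mid (c : ℕ → Fin k) (Z : ℕ → Prop) (L : ℕ) : Prop :=
  ∀ x y, x < L → y < L → x ≠ y → c x = c y → x % 2 = y % 2 → Z ((x+y)/2)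

open Classical in
noncomputable def Dset (Z : ℕ → Prop) (L : ℕ) : Finset ℕ :=
  ((Finset.range L).filter Z).image (fun z => 2*z)

open Classical in
noncomputable def zc (Z : ℕ → Prop) (L : ℕ) : ℕ := ((Finset.range L).filter Z).card

lemma mem_cls {c : ℕ → Fin k} {L : ℕ} {i : Fin k} {x : ℕ} : x ∈ cls c L i ↔ x < L ∧ c x = i := by
  unfold cls; rw [Finset.mem_filter, Finset.mem_range]

lemma G_nonneg (D A : Finset ℕ) (x : ℕ) : 0 ≤ G D A x := Nat.cast_nonneg _

lemma G_le (D A : Finset ℕ) (x : ℕ) : G D A x ≤ A.card := by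
  unfold G; exact_mod_cast Finset.card_filter_le _ _

lemma cls_sum (c : ℕ → Fin k) (Z : ℕ → Prop) (L : ℕ) (hM : Mid c Z L) (i : Fin k) :
    ((cls c L i).card : ℝ)^2/2 - (cls c L i).card ≤ ∑ x ∈ cls c L i, G (Dset Z L) (cls c L i) x := by
  classical
  set A := cls c L i with hA
  have h1 : ∀ x ∈ A, ((A.filter (fun y => y % 2 = x % 2)).card : ℝ) - 1 ≤ G (Dset Z L) A x := by
    intro x hx
    have hx' := mem_cls.1 hx
    have hsub : A.filter (fun y => y % 2 = x % 2) ⊆ insert x (A.filter (fun y => x + y ∈ Dset Z L)) := by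
      intro y hy
      rw [Finset.mem_filter] at hy
      have hy' := mem_cls.1 hy.1
      rw [Finset.mem_insert, Finset.mem_filter]
      by_cases hxy : y = x
      · left; exact hxy
      · right
        refine ⟨hy.1, ?_⟩
        unfold Dset
        rw [Finset.mem_image]
        refine ⟨(x+y)/2, ?_, ?_⟩
        · rw [Finset.mem_filter, Finset.mem_range]
          refine ⟨by omega, hM x y hx'.1 hy'.1 (fun h => hxy h.symm) (by rw [hx'.2, hy'.2]) hy.2.symm⟩
        · have := hy.2; omega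
    have h2 := Finset.card_le_card hsub
    have h3 := Finset.card_insert_le x (A.filter (fun y => x + y ∈ Dset Z L))
    have h4 : (A.filter (fun y => y % 2 = x % 2)).card ≤ (A.filter (fun y => x + y ∈ Dset Z L)).card + 1 :=
      le_trans h2 h3
    unfold G
    have h5 : ((A.filter (fun y => y % 2 = x % 2)).card : ℝ) ≤ ((A.filter (fun y => x + y ∈ Dset Z L)).card : ℝ) + 1 := by
      exact_mod_cast h4
    linarith
  have h6 : ∑ x ∈ A, (((A.filter (fun y => y % 2 = x % 2)).card : ℝ) - 1) ≤ ∑ x ∈ A, G (Dset Z L) A x :=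
    Finset.sum_le_sum h1
  refine le_trans ?_ h6
  rw [Finset.sum_sub_distrib, Finset.sum_const, nsmul_eq_mul, mul_one]
  set e : ℝ := ((A.filter (fun y => y % 2 = 0)).card : ℝ) with he
  set o : ℝ := ((A.filter (fun y => ¬ (y % 2 = 0))).card : ℝ) with ho
  have h7 : e + o = A.card := by
    rw [he, ho]; exact_mod_cast Finset.card_filter_add_card_filter_not (s := A) (fun y => y % 2 = 0)
  have h8 : ∑ x ∈ A, ((A.filter (fun y => y % 2 = x % 2)).card : ℝ) = e * e + o * o := by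
    rw [← Finset.sum_filter_add_sum_filter_not A (fun y => y % 2 = 0)]
    congr 1
    · rw [Finset.sum_congr rfl (g := fun _ => e)]
      · rw [Finset.sum_const, nsmul_eq_mul]
      · intro x hx
        rw [Finset.mem_filter] at hx
        rw [he, hx.2]
    · rw [Finset.sum_congr rfl (g := fun _ => o)]
      · rw [Finset.sum_const, nsmul_eq_mul]
      · intro x hx
        rw [Finset.mem_filter] at hx
        rw [ho]
        congr 2
        ext y
        simp only [Finset.mem_filter]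
        have := hx.2
        constructor
        · rintro ⟨a, b⟩; exact ⟨a, by omega⟩
        · rintro ⟨a, b⟩; exact ⟨a, by omega⟩
  rw [h8]
  nlinarith [sq_nonneg (e - o)]

lemma G_total (c : ℕ → Fin k) (Z : ℕ → Prop) (L x : ℕ) :
    ∑ i, G (Dset Z L) (cls c L i) x ≤ zc Z L := by
  classical
  have h1 : ∑ i, G (Dset Z L) (cls c L i) x =
      (((Finset.range L).filter (fun y => x + y ∈ Dset Z L)).card : ℝ) := by
    unfold G
    rw [← Nat.cast_sum]
    congr 1
    rw [Finset.card_eq_sum_card_fiberwise (f := c) (t := Finset.univ) (fun _ _ => Finset.mem_coe.2 (Finset.mem_univ _))]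
    apply Finset.sum_congr rfl
    intro i _
    congr 1
    ext y
    simp only [Finset.mem_filter, mem_cls, Finset.mem_range]
    tauto
  rw [h1]
  have h2 : ((Finset.range L).filter (fun y => x + y ∈ Dset Z L)).card ≤ (Dset Z L).card := by
    apply Finset.card_le_card_of_injOn (fun y => x + y)
    · intro y hy
      exact (Finset.mem_filter.1 hy).2
    · intro y _ z _ h
      simpa using h
  have h3 : (Dset Z L).card ≤ zc Z L := by
    unfold Dset zc
    exact Finset.card_image_le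
  exact_mod_cast le_trans h2 h3

lemma sum_cls_card (c : ℕ → Fin k) (L : ℕ) : ∑ i, ((cls c L i).card : ℝ) = L := by
  have : ∑ i, (cls c L i).card = L := by
    have h := Finset.card_eq_sum_card_fiberwise (f := c) (s := Finset.range L) (t := Finset.univ)
      (fun _ _ => Finset.mem_coe.2 (Finset.mem_univ _))
    rw [Finset.card_range] at h
    exact h.symm
  exact_mod_cast this

/-- hypothesis on q coming from almost periodicity -/
def APq (D : Finset ℕ) (L k ℓ q : ℕ) : Prop :=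
  ∀ (A : Finset ℕ), (∀ y ∈ A, y < L) → ∀ u : ℕ, u < ℓ →
        ∑ x ∈ (Finset.range L).filter (fun x => x + q * u < L), (G D A (x + q * u) - G D A x)^2 ≤
          ((L:ℝ) / (100 * k))^2 * A.card

lemma cs_bound (S : Finset ℕ) (d : ℕ → ℝ) (t a : ℝ) (ht : 0 ≤ t) (ha : 0 ≤ a) (hS : (S.card : ℝ) ≤ a)
    (h : ∑ x ∈ S, (d x)^2 ≤ t^2 * a) : ∑ x ∈ S, |d x| ≤ t * a := by
  have h1 : (∑ x ∈ S, |d x|)^2 ≤ S.card * ∑ x ∈ S, |d x|^2 := sq_sum_le_card_mul_sum_sq
  simp_rw [sq_abs] at h1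
  have h2 : (∑ x ∈ S, |d x|)^2 ≤ (t*a)^2 := by
    calc _ ≤ S.card * ∑ x ∈ S, (d x)^2 := h1
      _ ≤ a * (t^2 * a) := by
          apply mul_le_mul hS h (Finset.sum_nonneg fun _ _ => by positivity) ha
      _ = _ := by ring
  exact le_of_sq_le_sq h2 (by positivity)

lemma plus_bound (D : Finset ℕ) (L ℓ q : ℕ) (hAP : APq D L k ℓ q) (A : Finset ℕ)
    (hA : ∀ y ∈ A, y < L) (u : ℕ) (hu : u < ℓ) :
    ∑ x ∈ Finset.range L, (if x ∈ A ∧ x + q * u < L then |G D A x - G D A (x + q*u)| else 0) ≤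
      (L:ℝ) / (100 * k) * A.card := by
  classical
  rw [← Finset.sum_filter]
  have h := hAP A hA u hu
  have h1 := cs_bound ((Finset.range L).filter (fun x => x ∈ A ∧ x + q * u < L))
    (fun x => G D A x - G D A (x + q*u)) ((L:ℝ) / (100 * k)) A.card (by positivity) (by positivity)
    (by
      have : ((Finset.range L).filter (fun x => x ∈ A ∧ x + q * u < L)) ⊆ A := by
        intro x hx; exact (Finset.mem_filter.1 hx).2.1
      exact_mod_cast Finset.card_le_card this)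
    (by
      refine le_trans ?_ h
      have : ∑ x ∈ (Finset.range L).filter (fun x => x ∈ A ∧ x + q * u < L), (G D A x - G D A (x + q*u))^2
          = ∑ x ∈ (Finset.range L).filter (fun x => x ∈ A ∧ x + q * u < L), (G D A (x + q*u) - G D A x)^2 := by
        apply Finset.sum_congr rfl; intro x _; ring
      rw [this]
      apply Finset.sum_le_sum_of_subset_of_nonneg
      · intro x hx
        rw [Finset.mem_filter] at hx ⊢
        exact ⟨hx.1, hx.2.2⟩
      · intro x _ _; positivity)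
  exact h1

lemma minus_bound (D : Finset ℕ) (L ℓ q : ℕ) (hAP : APq D L k ℓ q) (A : Finset ℕ)
    (hA : ∀ y ∈ A, y < L) (u : ℕ) (hu : u < ℓ) :
    ∑ x ∈ Finset.range L, (if x ∈ A ∧ q * u ≤ x then |G D A x - G D A (x - q*u)| else 0) ≤
      (L:ℝ) / (100 * k) * A.card := by
  classical
  rw [← Finset.sum_filter]
  have h := hAP A hA u hu
  have h1 := cs_bound ((Finset.range L).filter (fun x => x ∈ A ∧ q * u ≤ x))
    (fun x => G D A x - G D A (x - q*u)) ((L:ℝ) / (100 * k)) A.card (by positivity) (by positivity)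
    (by
      have : ((Finset.range L).filter (fun x => x ∈ A ∧ q * u ≤ x)) ⊆ A := by
        intro x hx; exact (Finset.mem_filter.1 hx).2.1
      exact_mod_cast Finset.card_le_card this)
    (by
      refine le_trans ?_ h
      have hinj : Set.InjOn (fun x => x - q*u) ((Finset.range L).filter (fun x => x ∈ A ∧ q * u ≤ x) : Finset ℕ) := by
        intro x hx y hy hxy
        simp only [Finset.coe_filter, Finset.mem_range, Set.mem_ofPred_eq] at hx hy hxy
        omega
      have : ∑ x ∈ (Finset.range L).filter (fun x => x ∈ A ∧ q * u ≤ x), (G D A x - G D A (x - q*u))^2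
          = ∑ z ∈ ((Finset.range L).filter (fun x => x ∈ A ∧ q * u ≤ x)).image (fun x => x - q*u),
              (G D A (z + q*u) - G D A z)^2 := by
        rw [Finset.sum_image hinj]
        apply Finset.sum_congr rfl; intro x hx
        rw [Finset.mem_filter] at hx
        rw [Nat.sub_add_cancel hx.2.2]
      rw [this]
      apply Finset.sum_le_sum_of_subset_of_nonneg
      · intro x hx
        rw [Finset.mem_image] at hx
        obtain ⟨y, hy, rfl⟩ := hx
        rw [Finset.mem_filter, Finset.mem_range] at hy ⊢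
        omega
      · intro x _ _; positivity)
  exact h1

/-- average of G over the cell with start a -/
noncomputable def Gb (D A : Finset ℕ) (q ℓ a : ℕ) : ℝ := (∑ j ∈ Finset.range ℓ, G D A (a + q * j)) / ℓ

lemma cell_lt (q ℓ B L b ρ j : ℕ) (hB : q * ℓ * B ≤ L) (hb : b < B) (hρ : ρ < q) (hj : j < ℓ) :
    ρ + q * ℓ * b + q * j < L := by
  have h1 : q * ℓ * (b+1) ≤ q * ℓ * B := Nat.mul_le_mul_left _ hb
  have h2 : q * (j+1) ≤ q * ℓ := Nat.mul_le_mul_left _ hj
  have h3 : q * ℓ * (b+1) = q * ℓ * b + q * ℓ := by ring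
  have h4 : q * (j+1) = q * j + q := by ring
  omega

lemma err_bound (D : Finset ℕ) (L ℓ q B : ℕ) (hℓ : 1 ≤ ℓ) (hB : q * ℓ * B ≤ L)
    (hAP : APq D L k ℓ q) (A : Finset ℕ) (hA : ∀ y ∈ A, y < L) :
    ∑ b ∈ Finset.range B, ∑ ρ ∈ Finset.range q, ∑ j ∈ Finset.range ℓ,
      (if ρ + q * ℓ * b + q * j ∈ A then
        |G D A (ρ + q * ℓ * b + q * j) - Gb D A q ℓ (ρ + q * ℓ * b)| else 0) ≤
      (L:ℝ) / (50 * k) * A.card := by
  classical
  have hℓR : (0:ℝ) < ℓ := by exact_mod_cast hℓ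
  let φ : ℕ → ℕ → ℝ := fun u x =>
    (if x ∈ A ∧ x + q * u < L then |G D A x - G D A (x + q*u)| else 0) +
    (if x ∈ A ∧ q * u ≤ x then |G D A x - G D A (x - q*u)| else 0)
  have hφ0 : ∀ u x, 0 ≤ φ u x := by
    intro u x; simp only [φ]; positivity
  have h1 : ∀ b ∈ Finset.range B, ∀ ρ ∈ Finset.range q, ∀ j ∈ Finset.range ℓ,
      (if ρ + q * ℓ * b + q * j ∈ A then
        |G D A (ρ + q * ℓ * b + q * j) - Gb D A q ℓ (ρ + q * ℓ * b)| else 0) ≤
      (∑ u ∈ Finset.range ℓ, φ u (ρ + q * ℓ * b + q * j)) / ℓ := by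
    intro b hb ρ hρ j hj
    rw [Finset.mem_range] at hb hρ hj
    set a := ρ + q * ℓ * b with ha
    split_ifs with hmem
    · have e1 : G D A (a + q * j) - Gb D A q ℓ a =
          (∑ i ∈ Finset.range ℓ, (G D A (a + q*j) - G D A (a + q * i))) / ℓ := by
        unfold Gb
        rw [Finset.sum_sub_distrib, Finset.sum_const, Finset.card_range, nsmul_eq_mul]
        field_simp
      rw [e1, abs_div, abs_of_pos hℓR]
      apply div_le_div_of_nonneg_right _ hℓR.le
      refine le_trans (Finset.abs_sum_le_sum_abs _ _) ?_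
      refine le_trans (pair_split ℓ j hj (fun i => |G D A (a + q*j) - G D A (a + q * i)|)
        (fun i => abs_nonneg _)) ?_
      apply Finset.sum_le_sum
      intro u hu
      simp only [φ]
      apply add_le_add
      · split_ifs with h2 h3 h3
        · apply le_of_eq
          congr 2
          ring_nf
        · exfalso
          apply h3
          refine ⟨hmem, ?_⟩
          have := cell_lt q ℓ B L b ρ (j+u) hB hb hρ h2
          rw [← ha] at this
          have e : q * (j + u) = q * j + q * u := by ring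
          omega
        · positivity
        · exact le_refl _
      · split_ifs with h2 h3 h3
        · apply le_of_eq
          have e : q * j = q * (j - u) + q * u := by
            rw [← mul_add]; congr 1; omega
          have e2 : a + q * j - q * u = a + q * (j - u) := by omega
          rw [e2]
        · exfalso
          apply h3
          refine ⟨hmem, ?_⟩
          have : q * u ≤ q * j := Nat.mul_le_mul_left _ h2
          omega
        · positivity
        · exact le_refl _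
    · apply div_nonneg _ hℓR.le
      exact Finset.sum_nonneg (fun u _ => hφ0 u _)
  calc _ ≤ ∑ b ∈ Finset.range B, ∑ ρ ∈ Finset.range q, ∑ j ∈ Finset.range ℓ,
        (∑ u ∈ Finset.range ℓ, φ u (ρ + q * ℓ * b + q * j)) / ℓ := by
        apply Finset.sum_le_sum; intro b hb
        apply Finset.sum_le_sum; intro ρ hρ
        apply Finset.sum_le_sum; intro j hj
        exact h1 b hb ρ hρ j hj
    _ = ∑ x ∈ Finset.range (q * ℓ * B), (∑ u ∈ Finset.range ℓ, φ u x) / ℓ := by
        rw [cellsum q ℓ (fun x => (∑ u ∈ Finset.range ℓ, φ u x) / ℓ) B]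
    _ ≤ ∑ x ∈ Finset.range L, (∑ u ∈ Finset.range ℓ, φ u x) / ℓ := by
        apply Finset.sum_le_sum_of_subset_of_nonneg
        · intro x hx
          rw [Finset.mem_range] at hx ⊢; omega
        · intro x _ _
          apply div_nonneg _ hℓR.le
          exact Finset.sum_nonneg (fun u _ => hφ0 u _)
    _ = (∑ u ∈ Finset.range ℓ, ∑ x ∈ Finset.range L, φ u x) / ℓ := by
        rw [← Finset.sum_div, Finset.sum_comm]
    _ ≤ (∑ u ∈ Finset.range ℓ, (L:ℝ) / (50 * k) * A.card) / ℓ := by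
        apply div_le_div_of_nonneg_right _ hℓR.le
        apply Finset.sum_le_sum
        intro u hu
        rw [Finset.mem_range] at hu
        simp only [φ]
        rw [Finset.sum_add_distrib]
        have e1 := plus_bound D L ℓ q hAP A hA u hu
        have e2 := minus_bound D L ℓ q hAP A hA u hu
        have e3 : (L:ℝ) / (50 * k) * A.card = (L:ℝ) / (100 * k) * A.card + (L:ℝ) / (100 * k) * A.card := by
          by_cases hk : (k:ℝ) = 0
          · rw [hk]; simp
          · field_simp; ring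
        linarith
    _ = _ := by
        rw [Finset.sum_const, Finset.card_range, nsmul_eq_mul]
        field_simp

end Core

section Main
open Finset
variable {k : ℕ}

noncomputable def nc (c : ℕ → Fin k) (q ℓ a : ℕ) (i : Fin k) : ℝ :=
  ((cls (fun j => c (a + q*j)) ℓ i).card : ℝ)

noncomputable def Fb (c : ℕ → Fin k) (Z : ℕ → Prop) (L q ℓ a : ℕ) (i : Fin k) : ℝ :=
  Gb (Dset Z L) (cls c L i) q ℓ a / (cls c L i).card

lemma Gb_mem (D A : Finset ℕ) (q ℓ a : ℕ) (hℓ : 1 ≤ ℓ) : 0 ≤ Gb D A q ℓ a ∧ Gb D A q ℓ a ≤ A.card := by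
  have hℓR : (0:ℝ) < ℓ := by exact_mod_cast hℓ
  unfold Gb
  constructor
  · apply div_nonneg _ hℓR.le
    exact Finset.sum_nonneg fun _ _ => G_nonneg _ _ _
  · rw [div_le_iff₀ hℓR]
    calc ∑ j ∈ Finset.range ℓ, G D A (a + q*j) ≤ ∑ j ∈ Finset.range ℓ, (A.card : ℝ) :=
          Finset.sum_le_sum fun _ _ => G_le _ _ _
      _ = _ := by rw [Finset.sum_const, Finset.card_range, nsmul_eq_mul]; ring

lemma Fb_mem (c : ℕ → Fin k) (Z : ℕ → Prop) (L q ℓ a : ℕ) (i : Fin k) (hℓ : 1 ≤ ℓ) :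
    0 ≤ Fb c Z L q ℓ a i ∧ Fb c Z L q ℓ a i ≤ 1 := by
  unfold Fb
  have h := Gb_mem (Dset Z L) (cls c L i) q ℓ a hℓ
  constructor
  · exact div_nonneg h.1 (Nat.cast_nonneg _)
  · exact div_le_one_of_le₀ h.2 (Nat.cast_nonneg _)

lemma class_ineq (c : ℕ → Fin k) (Z : ℕ → Prop) (L ℓ q B : ℕ) (hℓ : 1 ≤ ℓ)
    (hB : q * ℓ * B ≤ L) (hAP : APq (Dset Z L) L k ℓ q) (hM : Mid c Z L) (i : Fin k) :
    ((cls c L i).card : ℝ)/2 - 1 ≤
      ∑ b ∈ Finset.range B, ∑ ρ ∈ Finset.range q,
        nc c q ℓ (ρ + q * ℓ * b) i * Fb c Z L q ℓ (ρ + q * ℓ * b) i +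
      (L:ℝ) / (50 * k) + (((Finset.Ico (q*ℓ*B) L).filter (fun x => c x = i)).card : ℝ) := by
  classical
  set A := cls c L i with hA
  set D := Dset Z L with hD
  have hAL : ∀ y ∈ A, y < L := fun y hy => (mem_cls.1 hy).1
  rcases Nat.eq_zero_or_pos A.card with h0 | hpos
  · rw [h0]
    have e1 : 0 ≤ ∑ b ∈ Finset.range B, ∑ ρ ∈ Finset.range q,
        nc c q ℓ (ρ + q * ℓ * b) i * Fb c Z L q ℓ (ρ + q * ℓ * b) i := by
      apply Finset.sum_nonneg; intro b _
      apply Finset.sum_nonneg; intro ρ _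
      exact mul_nonneg (Nat.cast_nonneg _) (Fb_mem c Z L q ℓ _ i hℓ).1
    have e2 : (0:ℝ) ≤ (L:ℝ) / (50 * k) := by positivity
    have e3 : (0:ℝ) ≤ (((Finset.Ico (q*ℓ*B) L).filter (fun x => c x = i)).card : ℝ) := Nat.cast_nonneg _
    push_cast
    linarith
  · have ha : (0:ℝ) < A.card := by exact_mod_cast hpos
    have h1 := cls_sum c Z L hM i
    rw [← hA, ← hD] at h1
    have h2 : ∑ x ∈ A, G D A x = ∑ x ∈ Finset.range (q*ℓ*B), (if x ∈ A then G D A x else 0) +
        ∑ x ∈ Finset.Ico (q*ℓ*B) L, (if x ∈ A then G D A x else 0) := by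
      rw [Finset.sum_range_add_sum_Ico _ hB, ← Finset.sum_filter]
      apply Finset.sum_congr _ (fun _ _ => rfl)
      ext x
      rw [Finset.mem_filter, Finset.mem_range]
      constructor
      · intro hx; exact ⟨hAL x hx, hx⟩
      · intro hx; exact hx.2
    have h3 : ∑ x ∈ Finset.Ico (q*ℓ*B) L, (if x ∈ A then G D A x else 0) ≤
        (((Finset.Ico (q*ℓ*B) L).filter (fun x => c x = i)).card : ℝ) * A.card := by
      rw [← Finset.sum_filter]
      have hs : (Finset.Ico (q*ℓ*B) L).filter (fun x => x ∈ A) = (Finset.Ico (q*ℓ*B) L).filter (fun x => c x = i) := by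
        ext x
        simp only [Finset.mem_filter, Finset.mem_Ico, hA, mem_cls]
        tauto
      rw [hs]
      calc _ ≤ ∑ x ∈ (Finset.Ico (q*ℓ*B) L).filter (fun x => c x = i), (A.card : ℝ) :=
            Finset.sum_le_sum fun _ _ => G_le _ _ _
        _ = _ := by rw [Finset.sum_const, nsmul_eq_mul]
    have h4 : ∑ x ∈ Finset.range (q*ℓ*B), (if x ∈ A then G D A x else 0) ≤
        ∑ b ∈ Finset.range B, ∑ ρ ∈ Finset.range q,
          nc c q ℓ (ρ + q * ℓ * b) i * Gb D A q ℓ (ρ + q * ℓ * b) + (L:ℝ) / (50 * k) * A.card := by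
      have h5 := err_bound (k := k) D L ℓ q B hℓ hB hAP A hAL
      rw [cellsum q ℓ (fun x => if x ∈ A then G D A x else 0) B]
      have h6 : ∀ b ∈ Finset.range B, ∀ ρ ∈ Finset.range q,
          ∑ j ∈ Finset.range ℓ, (if ρ + q * ℓ * b + q * j ∈ A then G D A (ρ + q * ℓ * b + q * j) else 0) ≤
          nc c q ℓ (ρ + q * ℓ * b) i * Gb D A q ℓ (ρ + q * ℓ * b) +
          ∑ j ∈ Finset.range ℓ, (if ρ + q * ℓ * b + q * j ∈ A then
            |G D A (ρ + q * ℓ * b + q * j) - Gb D A q ℓ (ρ + q * ℓ * b)| else 0) := by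
        intro b hb ρ hρ
        rw [Finset.mem_range] at hb hρ
        have h7 : nc c q ℓ (ρ + q * ℓ * b) i * Gb D A q ℓ (ρ + q * ℓ * b) =
            ∑ j ∈ Finset.range ℓ, (if ρ + q * ℓ * b + q * j ∈ A then Gb D A q ℓ (ρ + q * ℓ * b) else 0) := by
          rw [← Finset.sum_filter, Finset.sum_const, nsmul_eq_mul]
          congr 1
          unfold nc cls
          congr 2
          ext j
          simp only [Finset.mem_filter, Finset.mem_range, hA, mem_cls]
          constructor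
          · rintro ⟨a1, a2⟩
            exact ⟨a1, cell_lt q ℓ B L b ρ j hB hb hρ a1, a2⟩
          · rintro ⟨a1, _, a2⟩
            exact ⟨a1, a2⟩
        rw [h7, ← Finset.sum_add_distrib]
        apply Finset.sum_le_sum
        intro j _
        split_ifs with hm
        · have := le_abs_self (G D A (ρ + q * ℓ * b + q * j) - Gb D A q ℓ (ρ + q * ℓ * b))
          linarith
        · simp
      calc _ ≤ ∑ b ∈ Finset.range B, ∑ ρ ∈ Finset.range q,
            (nc c q ℓ (ρ + q * ℓ * b) i * Gb D A q ℓ (ρ + q * ℓ * b) +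
            ∑ j ∈ Finset.range ℓ, (if ρ + q * ℓ * b + q * j ∈ A then
              |G D A (ρ + q * ℓ * b + q * j) - Gb D A q ℓ (ρ + q * ℓ * b)| else 0)) := by
            apply Finset.sum_le_sum; intro b hb
            apply Finset.sum_le_sum; intro ρ hρ
            exact h6 b hb ρ hρ
        _ = ∑ b ∈ Finset.range B, ∑ ρ ∈ Finset.range q,
            nc c q ℓ (ρ + q * ℓ * b) i * Gb D A q ℓ (ρ + q * ℓ * b) +
            ∑ b ∈ Finset.range B, ∑ ρ ∈ Finset.range q, ∑ j ∈ Finset.range ℓ,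
              (if ρ + q * ℓ * b + q * j ∈ A then
              |G D A (ρ + q * ℓ * b + q * j) - Gb D A q ℓ (ρ + q * ℓ * b)| else 0) := by
            simp_rw [Finset.sum_add_distrib]
        _ ≤ _ := by linarith
    -- rewrite Gb = card * Fb
    have h8 : ∑ b ∈ Finset.range B, ∑ ρ ∈ Finset.range q,
          nc c q ℓ (ρ + q * ℓ * b) i * Gb D A q ℓ (ρ + q * ℓ * b) =
        A.card * ∑ b ∈ Finset.range B, ∑ ρ ∈ Finset.range q,
          nc c q ℓ (ρ + q * ℓ * b) i * Fb c Z L q ℓ (ρ + q * ℓ * b) i := by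
      rw [Finset.mul_sum]
      apply Finset.sum_congr rfl; intro b _
      rw [Finset.mul_sum]
      apply Finset.sum_congr rfl; intro ρ _
      unfold Fb
      rw [← hA, ← hD]
      field_simp
    rw [h8] at h4
    set T := ∑ b ∈ Finset.range B, ∑ ρ ∈ Finset.range q,
          nc c q ℓ (ρ + q * ℓ * b) i * Fb c Z L q ℓ (ρ + q * ℓ * b) i
    set lam : ℝ := (((Finset.Ico (q*ℓ*B) L).filter (fun x => c x = i)).card : ℝ)
    have h9 : (A.card:ℝ)^2/2 - A.card ≤ A.card * (T + (L:ℝ)/(50*k) + lam) := by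
      rw [h2] at h1
      nlinarith
    have h10 : (A.card:ℝ) * ((A.card:ℝ)/2 - 1) ≤ A.card * (T + (L:ℝ)/(50*k) + lam) := by
      nlinarith
    exact le_of_mul_le_mul_left h10 ha

lemma sum_nc (c : ℕ → Fin k) (q ℓ a : ℕ) : ∑ i, nc c q ℓ a i = ℓ := by
  unfold nc
  exact sum_cls_card (fun j => c (a + q*j)) ℓ

lemma X_bound (hk : 1 ≤ k) (c : ℕ → Fin k) (Z : ℕ → Prop) (L ℓ q B : ℕ) (hℓ : 1 ≤ ℓ) (hL : 1 ≤ L)
    (hB : q * ℓ * B ≤ L) (hAP : APq (Dset Z L) L k ℓ q) (hM : Mid c Z L)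
    (hkL : (k:ℝ) ≤ L/100) (hleft : (L:ℝ) - q*ℓ*B ≤ L/100) (hz : (zc Z L : ℝ) ≤ L/5) :
    (L:ℝ)/4 ≤ ∑ b ∈ Finset.range B, ∑ ρ ∈ Finset.range q, ∑ i,
      (nc c q ℓ (ρ + q * ℓ * b) i - ℓ * ((cls c L i).card / L)) * Fb c Z L q ℓ (ρ + q * ℓ * b) i := by
  classical
  have hkR : (1:ℝ) ≤ k := by exact_mod_cast hk
  have hLR : (0:ℝ) < L := by exact_mod_cast hL
  have hℓR : (0:ℝ) < ℓ := by exact_mod_cast hℓ
  have h1 : ∑ i : Fin k, (((cls c L i).card : ℝ)/2 - 1) ≤ ∑ i : Fin k,
      (∑ b ∈ Finset.range B, ∑ ρ ∈ Finset.range q,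
        nc c q ℓ (ρ + q * ℓ * b) i * Fb c Z L q ℓ (ρ + q * ℓ * b) i +
      (L:ℝ) / (50 * k) + (((Finset.Ico (q*ℓ*B) L).filter (fun x => c x = i)).card : ℝ)) :=
    Finset.sum_le_sum fun i _ => class_ineq c Z L ℓ q B hℓ hB hAP hM i
  rw [Finset.sum_sub_distrib, ← Finset.sum_div, sum_cls_card, Finset.sum_const, Finset.card_univ,
    Fintype.card_fin, nsmul_eq_mul, mul_one] at h1
  rw [Finset.sum_add_distrib, Finset.sum_add_distrib, Finset.sum_const, Finset.card_univ,
    Fintype.card_fin, nsmul_eq_mul] at h1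
  have h2 : ∑ i : Fin k, (((Finset.Ico (q*ℓ*B) L).filter (fun x => c x = i)).card : ℝ) = L - q*ℓ*B := by
    have h := Finset.card_eq_sum_card_fiberwise (f := c) (s := Finset.Ico (q*ℓ*B) L) (t := Finset.univ)
      (fun _ _ => Finset.mem_coe.2 (Finset.mem_univ _))
    rw [Nat.card_Ico] at h
    have h' : ((L - q*ℓ*B : ℕ) : ℝ) = ∑ i : Fin k, (((Finset.Ico (q*ℓ*B) L).filter (fun x => c x = i)).card : ℝ) := by
      exact_mod_cast h
    rw [← h', Nat.cast_sub hB]
    push_cast; ring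
  rw [h2] at h1
  have h3 : (k:ℝ) * ((L:ℝ)/(50*k)) = L/50 := by field_simp
  rw [h3] at h1
  have h4 : ∑ i : Fin k, ∑ b ∈ Finset.range B, ∑ ρ ∈ Finset.range q,
        nc c q ℓ (ρ + q * ℓ * b) i * Fb c Z L q ℓ (ρ + q * ℓ * b) i =
      ∑ b ∈ Finset.range B, ∑ ρ ∈ Finset.range q, ∑ i,
        nc c q ℓ (ρ + q * ℓ * b) i * Fb c Z L q ℓ (ρ + q * ℓ * b) i := by
    rw [Finset.sum_comm]
    apply Finset.sum_congr rfl; intro b _
    rw [Finset.sum_comm]
  rw [h4] at h1
  -- the flat term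
  have h5 : ∑ b ∈ Finset.range B, ∑ ρ ∈ Finset.range q, ∑ i,
      (ℓ * ((cls c L i).card / L : ℝ)) * Fb c Z L q ℓ (ρ + q * ℓ * b) i ≤ zc Z L := by
    have e1 : ∀ b ∈ Finset.range B, ∀ ρ ∈ Finset.range q, ∑ i,
      (ℓ * ((cls c L i).card / L : ℝ)) * Fb c Z L q ℓ (ρ + q * ℓ * b) i ≤
        ∑ j ∈ Finset.range ℓ, (∑ i, G (Dset Z L) (cls c L i) (ρ + q * ℓ * b + q * j)) / L := by
      intro b _ ρ _
      have e2 : ∑ j ∈ Finset.range ℓ, (∑ i, G (Dset Z L) (cls c L i) (ρ + q * ℓ * b + q * j)) / L =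
          ∑ i, (∑ j ∈ Finset.range ℓ, G (Dset Z L) (cls c L i) (ρ + q * ℓ * b + q * j)) / L := by
        rw [← Finset.sum_div, Finset.sum_comm, Finset.sum_div]
      rw [e2]
      apply Finset.sum_le_sum
      intro i _
      unfold Fb Gb
      rcases Nat.eq_zero_or_pos (cls c L i).card with h0 | hpos
      · rw [h0]
        simp only [CharP.cast_eq_zero, zero_div, mul_zero, div_zero]
        apply div_nonneg _ hLR.le
        exact Finset.sum_nonneg fun _ _ => G_nonneg _ _ _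
      · have ha : (0:ℝ) < (cls c L i).card := by exact_mod_cast hpos
        apply le_of_eq
        field_simp
    calc _ ≤ ∑ b ∈ Finset.range B, ∑ ρ ∈ Finset.range q, ∑ j ∈ Finset.range ℓ,
          (∑ i, G (Dset Z L) (cls c L i) (ρ + q * ℓ * b + q * j)) / L := by
          apply Finset.sum_le_sum; intro b hb
          apply Finset.sum_le_sum; intro ρ hρ
          exact e1 b hb ρ hρ
      _ = ∑ x ∈ Finset.range (q*ℓ*B), (∑ i, G (Dset Z L) (cls c L i) x) / L := by
          rw [cellsum q ℓ (fun x => (∑ i, G (Dset Z L) (cls c L i) x) / L) B]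
      _ ≤ ∑ x ∈ Finset.range L, (∑ i, G (Dset Z L) (cls c L i) x) / L := by
          apply Finset.sum_le_sum_of_subset_of_nonneg
          · intro x hx
            rw [Finset.mem_range] at hx ⊢; omega
          · intro x _ _
            apply div_nonneg _ hLR.le
            exact Finset.sum_nonneg fun _ _ => G_nonneg _ _ _
      _ ≤ ∑ x ∈ Finset.range L, (zc Z L : ℝ) / L := by
          apply Finset.sum_le_sum
          intro x _
          apply div_le_div_of_nonneg_right (G_total c Z L x) hLR.le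
      _ = zc Z L := by
          rw [Finset.sum_const, Finset.card_range, nsmul_eq_mul]
          field_simp
  have h6 : ∑ b ∈ Finset.range B, ∑ ρ ∈ Finset.range q, ∑ i,
      (nc c q ℓ (ρ + q * ℓ * b) i - ℓ * ((cls c L i).card / L)) * Fb c Z L q ℓ (ρ + q * ℓ * b) i =
      ∑ b ∈ Finset.range B, ∑ ρ ∈ Finset.range q, ∑ i,
        nc c q ℓ (ρ + q * ℓ * b) i * Fb c Z L q ℓ (ρ + q * ℓ * b) i -
      ∑ b ∈ Finset.range B, ∑ ρ ∈ Finset.range q, ∑ i,
      (ℓ * ((cls c L i).card / L : ℝ)) * Fb c Z L q ℓ (ρ + q * ℓ * b) i := by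
    simp_rw [sub_mul, Finset.sum_sub_distrib]
  rw [h6]
  linarith

noncomputable def H (c : ℕ → Fin k) (L : ℕ) : ℝ := ∑ i, Real.negMulLog ((cls c L i).card / L)

lemma card_cls_le (c : ℕ → Fin k) (L : ℕ) (i : Fin k) : (cls c L i).card ≤ L := by
  unfold cls
  calc _ ≤ (Finset.range L).card := Finset.card_filter_le _ _
    _ = L := Finset.card_range L

lemma H_nonneg (c : ℕ → Fin k) (L : ℕ) : 0 ≤ H c L := by
  unfold H
  apply Finset.sum_nonneg
  intro i _
  apply Real.negMulLog_nonneg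
  · positivity
  · apply div_le_one_of_le₀ _ (Nat.cast_nonneg _)
    exact_mod_cast card_cls_le c L i

lemma star (p r z : ℝ) (hp : 0 ≤ p) (hr : 0 < r) :
    Real.negMulLog p + p + p * z - r * Real.exp z ≤ p * (- Real.log r) := by
  rcases eq_or_lt_of_le hp with h0 | hpos
  · rw [← h0]
    simp only [Real.negMulLog_zero, zero_mul]
    have := mul_pos hr (Real.exp_pos z)
    linarith
  · unfold Real.negMulLog
    have hw : 0 < r * Real.exp z / p := by positivity
    have h1 := Real.log_le_sub_one_of_pos hw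
    rw [Real.log_div (by positivity) hpos.ne', Real.log_mul hr.ne' (Real.exp_pos z).ne', Real.log_exp] at h1
    have h2 : p * (Real.log r + z - Real.log p) ≤ p * (r * Real.exp z / p - 1) :=
      mul_le_mul_of_nonneg_left h1 hpos.le
    have h3 : p * (r * Real.exp z / p - 1) = r * Real.exp z - p := by field_simp
    rw [h3] at h2
    linarith

lemma entropy_gain (c : ℕ → Fin k) (Z : ℕ → Prop) (L ℓ q B : ℕ) (hℓ : 1 ≤ ℓ) (hL : 1 ≤ L)
    (hB : q * ℓ * B ≤ L)
    (hX : (L:ℝ)/4 ≤ ∑ b ∈ Finset.range B, ∑ ρ ∈ Finset.range q, ∑ i,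
      (nc c q ℓ (ρ + q * ℓ * b) i - ℓ * ((cls c L i).card / L)) * Fb c Z L q ℓ (ρ + q * ℓ * b) i) :
    ∑ b ∈ Finset.range B, ∑ ρ ∈ Finset.range q,
      (ℓ:ℝ)/L * H (fun j => c (ρ + q * ℓ * b + q * j)) ℓ + 1/64 ≤ H c L := by
  classical
  have hLR : (0:ℝ) < L := by exact_mod_cast hL
  have hℓR : (0:ℝ) < ℓ := by exact_mod_cast hℓ
  -- per class inequality
  have h1 : ∀ i : Fin k, ∑ b ∈ Finset.range B, ∑ ρ ∈ Finset.range q,
      (ℓ:ℝ)/L * (Real.negMulLog (nc c q ℓ (ρ + q * ℓ * b) i / ℓ) + nc c q ℓ (ρ + q * ℓ * b) i / ℓ +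
        nc c q ℓ (ρ + q * ℓ * b) i / ℓ * (Fb c Z L q ℓ (ρ + q * ℓ * b) i / 8) -
        (cls c L i).card / L * Real.exp (Fb c Z L q ℓ (ρ + q * ℓ * b) i / 8)) ≤
      Real.negMulLog ((cls c L i).card / L) := by
    intro i
    have hsum : ∑ b ∈ Finset.range B, ∑ ρ ∈ Finset.range q, nc c q ℓ (ρ + q * ℓ * b) i ≤ (cls c L i).card := by
      have e1 : ∀ b ρ, nc c q ℓ (ρ + q * ℓ * b) i =
          ∑ j ∈ Finset.range ℓ, (if c (ρ + q * ℓ * b + q * j) = i then (1:ℝ) else 0) := by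
        intro b ρ
        unfold nc cls
        rw [Finset.card_filter]
        push_cast; rfl
      simp_rw [e1]
      rw [← cellsum q ℓ (fun x => if c x = i then (1:ℝ) else 0) B]
      have e2 : ((cls c L i).card : ℝ) = ∑ x ∈ Finset.range L, (if c x = i then (1:ℝ) else 0) := by
        unfold cls
        rw [Finset.card_filter]
        push_cast; rfl
      rw [e2]
      apply Finset.sum_le_sum_of_subset_of_nonneg
      · intro x hx
        rw [Finset.mem_range] at hx ⊢; omega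
      · intro x _ _; positivity
    rcases Nat.eq_zero_or_pos (cls c L i).card with h0 | hpos
    · rw [h0] at hsum ⊢
      have hz : ∀ b ∈ Finset.range B, ∀ ρ ∈ Finset.range q, nc c q ℓ (ρ + q * ℓ * b) i = 0 := by
        have h5 : ∑ b ∈ Finset.range B, ∑ ρ ∈ Finset.range q, nc c q ℓ (ρ + q * ℓ * b) i = 0 := by
          apply le_antisymm (by simpa using hsum)
          apply Finset.sum_nonneg; intro b _
          apply Finset.sum_nonneg; intro ρ _
          exact Nat.cast_nonneg _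
        intro b hb ρ hρ
        rw [Finset.sum_eq_zero_iff_of_nonneg] at h5
        · have h6 := h5 b hb
          rw [Finset.sum_eq_zero_iff_of_nonneg] at h6
          · exact h6 ρ hρ
          · intro ρ _; exact Nat.cast_nonneg _
        · intro b _
          apply Finset.sum_nonneg; intro ρ _
          exact Nat.cast_nonneg _
      apply le_of_eq
      rw [Finset.sum_eq_zero]
      · simp
      · intro b hb
        apply Finset.sum_eq_zero
        intro ρ hρ
        rw [hz b hb ρ hρ]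
        simp
    · have ha : (0:ℝ) < (cls c L i).card := by exact_mod_cast hpos
      set α : ℝ := (cls c L i).card / L with hα
      have hαpos : 0 < α := by positivity
      have hα1 : α ≤ 1 := by
        rw [hα]
        apply div_le_one_of_le₀ _ hLR.le
        exact_mod_cast card_cls_le c L i
      have hlog : 0 ≤ - Real.log α := by
        have := Real.log_nonpos hαpos.le hα1
        linarith
      calc _ ≤ ∑ b ∈ Finset.range B, ∑ ρ ∈ Finset.range q,
            (ℓ:ℝ)/L * (nc c q ℓ (ρ + q * ℓ * b) i / ℓ * (- Real.log α)) := by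
            apply Finset.sum_le_sum; intro b _
            apply Finset.sum_le_sum; intro ρ _
            apply mul_le_mul_of_nonneg_left _ (by positivity)
            exact star _ α _ (div_nonneg (Nat.cast_nonneg _) hℓR.le) hαpos
        _ = (∑ b ∈ Finset.range B, ∑ ρ ∈ Finset.range q, nc c q ℓ (ρ + q * ℓ * b) i) / L * (- Real.log α) := by
            rw [Finset.sum_div, Finset.sum_mul]
            apply Finset.sum_congr rfl; intro b _
            rw [Finset.sum_div, Finset.sum_mul]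
            apply Finset.sum_congr rfl; intro ρ _
            field_simp
        _ ≤ (cls c L i).card / L * (- Real.log α) := by
            apply mul_le_mul_of_nonneg_right _ hlog
            apply div_le_div_of_nonneg_right hsum hLR.le
        _ = Real.negMulLog α := by
            unfold Real.negMulLog
            rw [← hα]; ring
  have h2 : ∑ i : Fin k, ∑ b ∈ Finset.range B, ∑ ρ ∈ Finset.range q,
      (ℓ:ℝ)/L * (Real.negMulLog (nc c q ℓ (ρ + q * ℓ * b) i / ℓ) + nc c q ℓ (ρ + q * ℓ * b) i / ℓ +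
        nc c q ℓ (ρ + q * ℓ * b) i / ℓ * (Fb c Z L q ℓ (ρ + q * ℓ * b) i / 8) -
        (cls c L i).card / L * Real.exp (Fb c Z L q ℓ (ρ + q * ℓ * b) i / 8)) ≤ H c L := by
    unfold H
    exact Finset.sum_le_sum fun i _ => h1 i
  refine le_trans ?_ h2
  have h3 : ∑ i : Fin k, ∑ b ∈ Finset.range B, ∑ ρ ∈ Finset.range q,
      (ℓ:ℝ)/L * (Real.negMulLog (nc c q ℓ (ρ + q * ℓ * b) i / ℓ) + nc c q ℓ (ρ + q * ℓ * b) i / ℓ +
        nc c q ℓ (ρ + q * ℓ * b) i / ℓ * (Fb c Z L q ℓ (ρ + q * ℓ * b) i / 8) -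
        (cls c L i).card / L * Real.exp (Fb c Z L q ℓ (ρ + q * ℓ * b) i / 8)) =
      ∑ b ∈ Finset.range B, ∑ ρ ∈ Finset.range q, ∑ i : Fin k,
      (ℓ:ℝ)/L * (Real.negMulLog (nc c q ℓ (ρ + q * ℓ * b) i / ℓ) + nc c q ℓ (ρ + q * ℓ * b) i / ℓ +
        nc c q ℓ (ρ + q * ℓ * b) i / ℓ * (Fb c Z L q ℓ (ρ + q * ℓ * b) i / 8) -
        (cls c L i).card / L * Real.exp (Fb c Z L q ℓ (ρ + q * ℓ * b) i / 8)) := by
    rw [Finset.sum_comm]
    apply Finset.sum_congr rfl; intro b _
    rw [Finset.sum_comm]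
  rw [h3]
  have h4 : ∀ b ∈ Finset.range B, ∀ ρ ∈ Finset.range q,
      (ℓ:ℝ)/L * H (fun j => c (ρ + q * ℓ * b + q * j)) ℓ +
        (1/(8*L) * ∑ i, (nc c q ℓ (ρ + q * ℓ * b) i - ℓ * ((cls c L i).card / L)) *
          Fb c Z L q ℓ (ρ + q * ℓ * b) i - (ℓ:ℝ)/L * (1/64)) ≤
      ∑ i : Fin k,
      (ℓ:ℝ)/L * (Real.negMulLog (nc c q ℓ (ρ + q * ℓ * b) i / ℓ) + nc c q ℓ (ρ + q * ℓ * b) i / ℓ +
        nc c q ℓ (ρ + q * ℓ * b) i / ℓ * (Fb c Z L q ℓ (ρ + q * ℓ * b) i / 8) -
        (cls c L i).card / L * Real.exp (Fb c Z L q ℓ (ρ + q * ℓ * b) i / 8)) := by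
    intro b _ ρ _
    set a := ρ + q * ℓ * b with ha
    have e0 : ∀ i : Fin k, (cls c L i).card / (L:ℝ) * Real.exp (Fb c Z L q ℓ a i / 8) ≤
        (cls c L i).card / (L:ℝ) * (1 + Fb c Z L q ℓ a i / 8 + 1/64) := by
      intro i
      apply mul_le_mul_of_nonneg_left _ (by positivity)
      have hF := Fb_mem c Z L q ℓ a i hℓ
      have h5 := Real.abs_exp_sub_one_sub_id_le (x := Fb c Z L q ℓ a i / 8) (by
        rw [abs_of_nonneg (by linarith)]; linarith)
      have h6 := (abs_le.1 h5).2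
      nlinarith
    have e1 : ∑ i : Fin k,
        (ℓ:ℝ)/L * (Real.negMulLog (nc c q ℓ a i / ℓ) + nc c q ℓ a i / ℓ +
        nc c q ℓ a i / ℓ * (Fb c Z L q ℓ a i / 8) -
        (cls c L i).card / L * (1 + Fb c Z L q ℓ a i / 8 + 1/64)) ≤
        ∑ i : Fin k,
        (ℓ:ℝ)/L * (Real.negMulLog (nc c q ℓ a i / ℓ) + nc c q ℓ a i / ℓ +
        nc c q ℓ a i / ℓ * (Fb c Z L q ℓ a i / 8) -
        (cls c L i).card / L * Real.exp (Fb c Z L q ℓ a i / 8)) := by
      apply Finset.sum_le_sum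
      intro i _
      apply mul_le_mul_of_nonneg_left _ (by positivity)
      have := e0 i
      linarith
    refine le_trans (le_of_eq ?_) e1
    have e2 : ∑ i : Fin k, (ℓ:ℝ)/L * (nc c q ℓ a i / ℓ) = ℓ/L := by
      rw [← Finset.mul_sum, ← Finset.sum_div, sum_nc]
      field_simp
    have e3 : ∑ i : Fin k, (ℓ:ℝ)/L * ((cls c L i).card / L * (1 + 1/64)) = ℓ/L * (1 + 1/64) := by
      rw [← Finset.mul_sum, ← Finset.sum_mul, ← Finset.sum_div, sum_cls_card]
      field_simp
    have e4 : H (fun j => c (a + q * j)) ℓ = ∑ i : Fin k, Real.negMulLog (nc c q ℓ a i / ℓ) := rfl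
    rw [e4, Finset.mul_sum, Finset.mul_sum]
    have e5 : ∀ i : Fin k, (ℓ:ℝ)/L * (Real.negMulLog (nc c q ℓ a i / ℓ) + nc c q ℓ a i / ℓ +
        nc c q ℓ a i / ℓ * (Fb c Z L q ℓ a i / 8) -
        (cls c L i).card / L * (1 + Fb c Z L q ℓ a i / 8 + 1/64)) =
        (ℓ:ℝ)/L * Real.negMulLog (nc c q ℓ a i / ℓ) + (ℓ:ℝ)/L * (nc c q ℓ a i / ℓ) +
        1/(8*L) * ((nc c q ℓ a i - ℓ * ((cls c L i).card / L)) * Fb c Z L q ℓ a i) -
        (ℓ:ℝ)/L * ((cls c L i).card / L * (1 + 1/64)) := by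
      intro i
      field_simp
      ring
    simp_rw [e5]
    rw [Finset.sum_sub_distrib, Finset.sum_add_distrib, Finset.sum_add_distrib, e2, e3]
    ring
  have h5 : ∑ b ∈ Finset.range B, ∑ ρ ∈ Finset.range q,
      ((ℓ:ℝ)/L * H (fun j => c (ρ + q * ℓ * b + q * j)) ℓ +
        (1/(8*L) * ∑ i, (nc c q ℓ (ρ + q * ℓ * b) i - ℓ * ((cls c L i).card / L)) *
          Fb c Z L q ℓ (ρ + q * ℓ * b) i - (ℓ:ℝ)/L * (1/64))) ≤
      ∑ b ∈ Finset.range B, ∑ ρ ∈ Finset.range q, ∑ i : Fin k,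
      (ℓ:ℝ)/L * (Real.negMulLog (nc c q ℓ (ρ + q * ℓ * b) i / ℓ) + nc c q ℓ (ρ + q * ℓ * b) i / ℓ +
        nc c q ℓ (ρ + q * ℓ * b) i / ℓ * (Fb c Z L q ℓ (ρ + q * ℓ * b) i / 8) -
        (cls c L i).card / L * Real.exp (Fb c Z L q ℓ (ρ + q * ℓ * b) i / 8)) := by
    apply Finset.sum_le_sum; intro b hb
    apply Finset.sum_le_sum; intro ρ hρ
    exact h4 b hb ρ hρ
  refine le_trans ?_ h5
  have h6 : ∑ b ∈ Finset.range B, ∑ ρ ∈ Finset.range q,
      ((ℓ:ℝ)/L * H (fun j => c (ρ + q * ℓ * b + q * j)) ℓ +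
        (1/(8*L) * ∑ i, (nc c q ℓ (ρ + q * ℓ * b) i - ℓ * ((cls c L i).card / L)) *
          Fb c Z L q ℓ (ρ + q * ℓ * b) i - (ℓ:ℝ)/L * (1/64))) =
      ∑ b ∈ Finset.range B, ∑ ρ ∈ Finset.range q,
        (ℓ:ℝ)/L * H (fun j => c (ρ + q * ℓ * b + q * j)) ℓ +
      (1/(8*L) * ∑ b ∈ Finset.range B, ∑ ρ ∈ Finset.range q, ∑ i,
        (nc c q ℓ (ρ + q * ℓ * b) i - ℓ * ((cls c L i).card / L)) *
          Fb c Z L q ℓ (ρ + q * ℓ * b) i - B * (q * ((ℓ:ℝ)/L * (1/64)))) := by
    simp_rw [Finset.sum_add_distrib, Finset.sum_sub_distrib, Finset.sum_const, Finset.card_range,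
      nsmul_eq_mul, ← Finset.mul_sum]
  rw [h6]
  have h7 : 1/(8*(L:ℝ)) * (L/4) ≤ 1/(8*(L:ℝ)) * ∑ b ∈ Finset.range B, ∑ ρ ∈ Finset.range q, ∑ i,
        (nc c q ℓ (ρ + q * ℓ * b) i - ℓ * ((cls c L i).card / L)) *
          Fb c Z L q ℓ (ρ + q * ℓ * b) i := mul_le_mul_of_nonneg_left hX (by positivity)
  have h8 : 1/(8*(L:ℝ)) * (L/4) = 1/32 := by field_simp; norm_num
  have h9 : (B:ℝ) * (q * ((ℓ:ℝ)/L * (1/64))) ≤ 1/64 := by
    have : (q:ℝ) * ℓ * B ≤ L := by exact_mod_cast hB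
    have e : (B:ℝ) * (q * ((ℓ:ℝ)/L * (1/64))) = (q * ℓ * B)/L * (1/64) := by field_simp
    rw [e]
    have : ((q:ℝ) * ℓ * B)/L ≤ 1 := by rw [div_le_one hLR]; exact this
    linarith
  linarith

end Main

section Iter
open Finset

def len (k : ℕ) : ℕ → ℕ
  | 0 => 1
  | (i+1) => (1300 * k * len k i)^(160000 * k^2 + 2)

def mm (k : ℕ) : ℕ := 200 * (Nat.log 2 k + 1)

lemma len_pos (k : ℕ) (hk : 1 ≤ k) (i : ℕ) : 1 ≤ len k i := by
  induction i with
  | zero => exact le_refl _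
  | succ n ih =>
    unfold len
    apply Nat.one_le_pow
    positivity

lemma zc_sum (Z : ℕ → Prop) (L ℓ q B : ℕ) (hB : q * ℓ * B ≤ L) :
    ∑ b ∈ Finset.range B, ∑ ρ ∈ Finset.range q, (zc (fun j => Z (ρ + q * ℓ * b + q * j)) ℓ : ℝ) ≤ zc Z L := by
  classical
  have e1 : ∀ b ρ, (zc (fun j => Z (ρ + q * ℓ * b + q * j)) ℓ : ℝ) =
      ∑ j ∈ Finset.range ℓ, (if Z (ρ + q * ℓ * b + q * j) then (1:ℝ) else 0) := by
    intro b ρ
    unfold zc
    rw [Finset.card_filter]
    push_cast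
    apply Finset.sum_congr rfl
    intro j _
    congr
  simp_rw [e1]
  rw [← cellsum q ℓ (fun x => if Z x then (1:ℝ) else 0) B]
  have e2 : (zc Z L : ℝ) = ∑ x ∈ Finset.range L, (if Z x then (1:ℝ) else 0) := by
    unfold zc
    rw [Finset.card_filter]
    push_cast
    apply Finset.sum_congr rfl
    intro j _
    congr
  rw [e2]
  apply Finset.sum_le_sum_of_subset_of_nonneg
  · intro x hx
    rw [Finset.mem_range] at hx ⊢; omega
  · intro x _ _; positivity

lemma Mid_sub {k : ℕ} (c : ℕ → Fin k) (Z : ℕ → Prop) (L ℓ q a : ℕ) (hM : Mid c Z L) (hq : 1 ≤ q)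
    (ha : ∀ j < ℓ, a + q * j < L) :
    Mid (fun j => c (a + q*j)) (fun j => Z (a + q*j)) ℓ := by
  intro x y hx hy hxy hc hpar
  have h1 : a + q * x ≠ a + q * y := by
    intro h
    have h2 : q * x = q * y := by omega
    exact hxy (Nat.eq_of_mul_eq_mul_left hq h2)
  have hpar2 : (a + q*x) % 2 = (a + q*y) % 2 := by
    rw [Nat.add_mod, Nat.mul_mod, hpar, ← Nat.mul_mod, ← Nat.add_mod]
  have h3 := hM (a + q*x) (a + q*y) (ha x hx) (ha y hy) h1 hc hpar2
  have h4 : (a + q*x + (a + q*y))/2 = a + q * ((x+y)/2) := by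
    obtain ⟨m, hm⟩ : ∃ m, x + y = 2 * m := ⟨(x+y)/2, by omega⟩
    have h5 : a + q*x + (a + q*y) = 2 * (a + q*m) := by
      have : q * x + q * y = q * (2*m) := by rw [← mul_add, hm]
      have e : q * (2*m) = 2 * (q*m) := by ring
      omega
    have h6 : (x+y)/2 = m := by omega
    rw [h5, h6]; omega
  rw [h4] at h3
  exact h3

theorem iter {k : ℕ} (hk : 1 ≤ k) (i : ℕ) (hi : i ≤ mm k) : ∀ (c : ℕ → Fin k) (Z : ℕ → Prop),
    Mid c Z (len k i) → (i:ℝ)/128 * (1 - 5 * (zc Z (len k i) / (len k i : ℝ))) ≤ H c (len k i) := by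
  induction i with
  | zero =>
    intro c Z _
    have := H_nonneg c (len k 0)
    simpa using this
  | succ i ih =>
    intro c Z hM
    have ih' := ih (by omega)
    set ℓ := len k i with hℓdef
    have hℓ : 1 ≤ ℓ := len_pos k hk i
    set L := len k (i+1) with hLdef
    have hL : 1 ≤ L := len_pos k hk (i+1)
    have hLK0 : L = (1300 * k * ℓ)^(160000 * k^2 + 2) := rfl
    clear_value L
    have hLR : (0:ℝ) < L := by exact_mod_cast hL
    have hℓR : (0:ℝ) < ℓ := by exact_mod_cast hℓ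
    have hkR : (1:ℝ) ≤ k := by exact_mod_cast hk
    set ζ : ℝ := (zc Z L : ℝ) / L with hζ
    have hζ0 : 0 ≤ ζ := by positivity
    rcases lt_or_ge ((1:ℝ)/5) ζ with hbig | hsmall
    · have h1 : ((i+1 : ℕ):ℝ)/128 * (1 - 5 * ζ) ≤ 0 := by
        apply mul_nonpos_of_nonneg_of_nonpos (by positivity) (by linarith)
      exact le_trans h1 (H_nonneg c L)
    · obtain ⟨q, hq1, hq2, hAP⟩ := nat_ap L hL (Dset Z L) k ℓ hk hℓ
      set K := 1300 * k * ℓ with hK
      have hK1 : 1 ≤ K := by rw [hK]; exact Nat.mul_pos (Nat.mul_pos (by norm_num) hk) hℓ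
      have hLK : L = K^(160000*k^2) * K^2 := by
        rw [hLK0, hK, ← pow_add]
      set B := L / (q * ℓ) with hBdef
      have hB : q * ℓ * B ≤ L := Nat.mul_div_le _ _
      have hqℓpos : 0 < q * ℓ := Nat.mul_pos hq1 hℓ
      have hleft : L < q * ℓ * B + q * ℓ := by
        have h1 := Nat.div_add_mod L (q*ℓ)
        have h2 := Nat.mod_lt L hqℓpos
        rw [← hBdef] at h1
        omega
      -- 100 * m * q * ℓ ≤ L
      have hlogk : Nat.log 2 k + 1 ≤ k := Nat.log_lt_self 2 (by omega)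
      have hsmallq : 100 * mm k * (q * ℓ) ≤ L := by
        rw [hLK]
        calc 100 * mm k * (q * ℓ) = q * (20000 * (Nat.log 2 k + 1) * ℓ) := by unfold mm; ring
          _ ≤ K^(160000*k^2) * (20000 * k * ℓ) := by
              apply Nat.mul_le_mul hq2
              apply Nat.mul_le_mul_right
              exact Nat.mul_le_mul_left _ hlogk
          _ ≤ K^(160000*k^2) * K^2 := by
              apply Nat.mul_le_mul_left
              rw [hK]
              have : 1 ≤ k * ℓ := Nat.mul_pos hk hℓ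
              nlinarith
      have hkL : (k:ℝ) ≤ L/100 := by
        have h1 : 100 * k ≤ L := by
          rw [hLK]
          calc 100 * k ≤ 1 * K^2 := by
                rw [hK, one_mul]
                have h2 : k ≤ k * ℓ := Nat.le_mul_of_pos_right _ hℓ
                have h3 : 1 ≤ k * ℓ := Nat.mul_pos hk hℓ
                nlinarith
            _ ≤ K^(160000*k^2) * K^2 := by
                apply Nat.mul_le_mul_right
                exact Nat.one_le_pow _ _ hK1
        have h2 : (100:ℝ) * k ≤ L := by exact_mod_cast h1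
        linarith
      have hm1 : 1 ≤ mm k := by unfold mm; omega
      have hmR : (1:ℝ) ≤ mm k := by exact_mod_cast hm1
      have hqR : (100:ℝ) * mm k * (q * ℓ) ≤ L := by exact_mod_cast hsmallq
      have hleftR : (L:ℝ) < q * ℓ * B + q * ℓ := by exact_mod_cast hleft
      have hqℓR : (0:ℝ) < (q:ℝ) * ℓ := by exact_mod_cast hqℓpos
      have hq100 : (100:ℝ) * (q * ℓ) ≤ L := by nlinarith
      have hX := X_bound hk c Z L ℓ q B hℓ hL hB hAP hM hkL (by linarith) (by
        rw [hζ, div_le_iff₀ hLR] at hsmall; linarith)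
      have hgain := entropy_gain c Z L ℓ q B hℓ hL hB hX
      refine le_trans ?_ hgain
      -- lower bound the sum by ih
      have h1 : ∑ b ∈ Finset.range B, ∑ ρ ∈ Finset.range q,
          (ℓ:ℝ)/L * ((i:ℝ)/128 * (1 - 5 * (zc (fun j => Z (ρ + q * ℓ * b + q * j)) ℓ / (ℓ : ℝ)))) ≤
          ∑ b ∈ Finset.range B, ∑ ρ ∈ Finset.range q,
          (ℓ:ℝ)/L * H (fun j => c (ρ + q * ℓ * b + q * j)) ℓ := by
        apply Finset.sum_le_sum; intro b hb
        apply Finset.sum_le_sum; intro ρ hρ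
        rw [Finset.mem_range] at hb hρ
        apply mul_le_mul_of_nonneg_left _ (by positivity)
        apply ih' (fun j => c (ρ + q * ℓ * b + q * j)) (fun j => Z (ρ + q * ℓ * b + q * j))
        exact Mid_sub c Z L ℓ q (ρ + q * ℓ * b) hM hq1
          (fun j hj => cell_lt q ℓ B L b ρ j hB hb hρ hj)
      have h2 : ∑ b ∈ Finset.range B, ∑ ρ ∈ Finset.range q,
          (ℓ:ℝ)/L * ((i:ℝ)/128 * (1 - 5 * (zc (fun j => Z (ρ + q * ℓ * b + q * j)) ℓ / (ℓ : ℝ)))) =
          (i:ℝ)/128 * ((q * ℓ * B)/L - 5 * ((∑ b ∈ Finset.range B, ∑ ρ ∈ Finset.range q,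
            (zc (fun j => Z (ρ + q * ℓ * b + q * j)) ℓ : ℝ)) / L)) := by
        have e : ∀ b ρ : ℕ, (ℓ:ℝ)/L * ((i:ℝ)/128 * (1 - 5 * (zc (fun j => Z (ρ + q * ℓ * b + q * j)) ℓ / (ℓ : ℝ)))) =
            (ℓ:ℝ)/L * ((i:ℝ)/128) - ((i:ℝ)/128 * 5 / L) * (zc (fun j => Z (ρ + q * ℓ * b + q * j)) ℓ : ℝ) := by
          intro b ρ
          field_simp
        simp_rw [e, Finset.sum_sub_distrib, Finset.sum_const, Finset.card_range, nsmul_eq_mul,
          ← Finset.mul_sum]
        field_simp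
      rw [h2] at h1
      have h3 := zc_sum Z L ℓ q B hB
      have h4 : (∑ b ∈ Finset.range B, ∑ ρ ∈ Finset.range q,
            (zc (fun j => Z (ρ + q * ℓ * b + q * j)) ℓ : ℝ)) / L ≤ ζ := by
        rw [hζ]; exact div_le_div_of_nonneg_right h3 hLR.le
      have h5 : 1 - 1/(100 * (mm k : ℝ)) ≤ ((q:ℝ) * ℓ * B)/L := by
        rw [le_div_iff₀ hLR]
        have e1 : (q:ℝ) * ℓ ≤ L / (100 * mm k) := by
          rw [le_div_iff₀ (by positivity)]; linarith
        have e2 : (1 - 1/(100 * (mm k : ℝ))) * L = L - L/(100 * mm k) := by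
          field_simp
        linarith
      have hiR : (i:ℝ) ≤ mm k := by exact_mod_cast (by omega : i ≤ mm k)
      have h6 : (i:ℝ)/128 * (1 - 1/(100 * (mm k : ℝ)) - 5 * ζ) ≤
          (i:ℝ)/128 * ((q * ℓ * B)/L - 5 * ((∑ b ∈ Finset.range B, ∑ ρ ∈ Finset.range q,
            (zc (fun j => Z (ρ + q * ℓ * b + q * j)) ℓ : ℝ)) / L)) := by
        apply mul_le_mul_of_nonneg_left _ (by positivity)
        linarith
      have h7 : (i:ℝ) * (1/(100 * (mm k : ℝ))) ≤ 1/100 := by
        rw [mul_one_div, div_le_div_iff₀ (by positivity) (by norm_num)]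
        linarith
      have h8 : ((i+1 : ℕ):ℝ)/128 * (1 - 5 * ζ) ≤ (i:ℝ)/128 * (1 - 1/(100 * (mm k : ℝ)) - 5 * ζ) + 1/64 := by
        push_cast
        nlinarith
      linarith

lemma H_le_log {k : ℕ} (hk : 1 ≤ k) (c : ℕ → Fin k) (L : ℕ) (hL : 1 ≤ L) : H c L ≤ Real.log k := by
  have hkR : (0:ℝ) < k := by exact_mod_cast hk
  have hLR : (0:ℝ) < L := by exact_mod_cast hL
  unfold H
  have h1 : ∀ i : Fin k, Real.negMulLog ((cls c L i).card / L) ≤
      (cls c L i).card / L * Real.log k + 1/k - (cls c L i).card / L := by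
    intro i
    have h := star ((cls c L i).card / L) (1/k) 0 (by positivity) (by positivity)
    rw [Real.exp_zero, Real.log_div one_ne_zero hkR.ne', Real.log_one] at h
    simp only [mul_zero, mul_one, zero_sub, neg_neg, add_zero] at h
    linarith
  calc _ ≤ ∑ i : Fin k, ((cls c L i).card / L * Real.log k + 1/k - (cls c L i).card / (L:ℝ)) :=
        Finset.sum_le_sum fun i _ => h1 i
    _ = Real.log k := by
        rw [Finset.sum_sub_distrib, Finset.sum_add_distrib, ← Finset.sum_mul, ← Finset.sum_div,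
          sum_cls_card, Finset.sum_const, Finset.card_univ, Fintype.card_fin, nsmul_eq_mul]
        field_simp
        ring

lemma mm_big (k : ℕ) (hk : 1 ≤ k) : Real.log k < (mm k : ℝ)/128 * (4/9) := by
  have h1 : k < 2^(Nat.log 2 k + 1) := Nat.lt_pow_succ_log_self (by norm_num) k
  have hkR : (0:ℝ) < k := by exact_mod_cast hk
  have h2 : Real.log k < (Nat.log 2 k + 1 : ℕ) * Real.log 2 := by
    rw [← Real.log_pow]
    apply Real.log_lt_log hkR
    exact_mod_cast h1
  have h3 : Real.log 2 < 0.6931471808 := Real.log_two_lt_d9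
  unfold mm
  push_cast at h2 ⊢
  have h4 : (0:ℝ) ≤ (Nat.log 2 k : ℝ) := Nat.cast_nonneg _
  nlinarith

lemma arith1 (s B L N : ℝ) (hB : 10 ≤ B) (hL : 0 < L) (hN : N < L*B+L) (hs : s < N/10) :
    s / B ≤ 1/9*L := by
  rw [div_le_iff₀ (by linarith)]
  nlinarith

lemma arith2 (m z l : ℝ) (hm : 0 ≤ m) (hz : z ≤ 1/9) (h1 : m/128 * (1 - 5*z) ≤ l) :
    m/128 * (4/9) ≤ l := by
  have : m/128 * (4/9) ≤ m/128 * (1 - 5*z) := by
    apply mul_le_mul_of_nonneg_left (by linarith) (by positivity)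
  linarith

theorem main_bound {k : ℕ} (hk : 1 ≤ k) (N : ℕ) (hN : 10 * len k (mm k) ≤ N) (c : ℕ → Fin k) :
    (N : ℝ) / 10 ≤
          ((Set.ncard {s : ℕ | ∃ a b : ℕ, 1 ≤ a ∧ a ≤ N ∧ 1 ≤ b ∧ b ≤ N ∧
              a ≠ b ∧ c a = c b ∧ a + b = s} : ℕ) : ℝ) := by
  classical
  by_contra hcon
  rw [not_le] at hcon
  set S : Set ℕ := {s : ℕ | ∃ a b : ℕ, 1 ≤ a ∧ a ≤ N ∧ 1 ≤ b ∧ b ≤ N ∧
              a ≠ b ∧ c a = c b ∧ a + b = s} with hS
  have hSfin : S.Finite := by
    apply (Set.finite_Iic (2*N)).subset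
    rintro s ⟨a, b, _, h2, _, h4, _, _, h7⟩
    rw [Set.mem_Iic]; omega
  set L := len k (mm k) with hLdef
  have hL : 1 ≤ L := len_pos k hk _
  clear_value L
  have hLR : (0:ℝ) < L := by exact_mod_cast hL
  set B := N / L with hBdef
  have hB10 : 10 ≤ B := by
    rw [hBdef, Nat.le_div_iff_mul_le hL]; exact hN
  have hBL : L * B ≤ N := Nat.mul_div_le _ _
  have hNB : N < L * B + L := by
    have h1 := Nat.div_add_mod N L
    have h2 := Nat.mod_lt N hL
    rw [← hBdef] at h1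
    omega
  let Z : ℕ → Prop := fun z => 2 * z ∈ S
  -- blocks: start 1 + L*b
  have hsum : ∑ b ∈ Finset.range B, zc (fun j => Z (1 + L * b + j)) L ≤ S.ncard := by
    have e1 : ∑ b ∈ Finset.range B, zc (fun j => Z (1 + L * b + j)) L =
        ((Finset.range (L * B)).filter (fun x => Z (1 + x))).card := by
      have h := cellsum 1 L (fun x => if Z (1 + x) then (1:ℝ) else 0) B
      have e2 : ∀ b, (zc (fun j => Z (1 + L * b + j)) L : ℝ) =
          ∑ j ∈ Finset.range L, (if Z (1 + (0 + 1 * L * b + 1 * j)) then (1:ℝ) else 0) := by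
        intro b
        unfold zc
        rw [Finset.card_filter]
        push_cast
        apply Finset.sum_congr rfl
        intro j _
        have : 1 + (0 + 1 * L * b + 1 * j) = 1 + L * b + j := by ring
        rw [this]
      have e3 : (((Finset.range (L * B)).filter (fun x => Z (1 + x))).card : ℝ) =
          ∑ b ∈ Finset.range B, (zc (fun j => Z (1 + L * b + j)) L : ℝ) := by
        rw [Finset.card_filter]
        push_cast
        rw [one_mul] at h
        rw [h]
        apply Finset.sum_congr rfl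
        intro b _
        rw [Finset.sum_range_one, e2]
        simp only [one_mul]
      exact_mod_cast e3.symm
    rw [e1]
    rw [← Set.ncard_coe_finset]
    apply Set.ncard_le_ncard_of_injOn (fun x => 2 * (1 + x)) _ _ hSfin
    · intro x hx
      simp only [Finset.coe_filter, Finset.mem_range, Set.mem_ofPred_eq] at hx
      exact hx.2
    · intro x _ y _ hxy
      simp only at hxy
      omega
  -- pick a good block
  obtain ⟨b, hb, hbz⟩ : ∃ b ∈ Finset.range B, (zc (fun j => Z (1 + L * b + j)) L : ℝ) ≤ S.ncard / B := by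
    by_contra hno
    push Not at hno
    have hBR : (0:ℝ) < B := by exact_mod_cast (by omega : 0 < B)
    have h1 : ∑ b ∈ Finset.range B, ((S.ncard : ℝ) / B) < ∑ b ∈ Finset.range B, (zc (fun j => Z (1 + L * b + j)) L : ℝ) := by
      apply Finset.sum_lt_sum_of_nonempty
      · exact ⟨0, Finset.mem_range.2 (by omega)⟩
      · intro b hb; exact hno b hb
    rw [Finset.sum_const, Finset.card_range, nsmul_eq_mul] at h1
    have h2 : (B:ℝ) * ((S.ncard : ℝ) / B) = S.ncard := by field_simp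
    rw [h2] at h1
    have h3 : (∑ b ∈ Finset.range B, (zc (fun j => Z (1 + L * b + j)) L : ℝ)) ≤ S.ncard := by exact_mod_cast hsum
    linarith
  rw [Finset.mem_range] at hb
  have hbL : L * (b+1) ≤ L * B := Nat.mul_le_mul_left _ hb
  have hbL2 : L * (b+1) = L * b + L := by ring
  have hMid : Mid (fun j => c (1 + L * b + j)) (fun j => Z (1 + L * b + j)) L := by
    intro x y hx hy hxy hc hpar
    show 2 * (1 + L * b + (x+y)/2) ∈ S
    refine ⟨1 + L*b + x, 1 + L*b + y, by omega, by omega, by omega, by omega, by omega, hc, by omega⟩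
  have hit := iter hk (mm k) le_rfl (fun j => c (1 + L * b + j)) (fun j => Z (1 + L * b + j))
    (by rw [← hLdef]; exact hMid)
  have hlog := H_le_log hk (fun j => c (1 + L * b + j)) L hL
  have hmm := mm_big k hk
  have hBR : (10:ℝ) ≤ B := by exact_mod_cast hB10
  have hNR : (N:ℝ) < L * B + L := by exact_mod_cast hNB
  have hζ : (zc (fun j => Z (1 + L * b + j)) L : ℝ) / L ≤ 1/9 := by
    rw [div_le_iff₀ hLR]
    exact le_trans hbz (arith1 _ _ _ _ hBR hLR hNR hcon)
  rw [← hLdef] at hit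
  have h5 := arith2 _ _ _ (Nat.cast_nonneg (mm k)) hζ hit
  exact absurd (lt_of_lt_of_le hmm h5) (not_lt.2 hlog)

end Iter

section Final
open Filter Asymptotics

def W (k : ℕ) : ℕ := (160000*k^2+2)*(1300*k+1)

lemma len_le (k : ℕ) (i : ℕ) : len k i ≤ 2^((W k)^i) := by
  induction i with
  | zero => simp [len]
  | succ n ih =>
    have hW : 1 ≤ (W k)^n := by
      apply Nat.one_le_pow
      unfold W
      exact Nat.mul_pos (by omega) (by omega)
    have h1 : 1300 * k ≤ 2^(1300*k) := (Nat.lt_pow_self (by norm_num)).le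
    calc len k (n+1) = (1300 * k * len k n)^(160000 * k^2 + 2) := rfl
      _ ≤ (2^(1300*k) * 2^((W k)^n))^(160000 * k^2 + 2) :=
          Nat.pow_le_pow_left (Nat.mul_le_mul h1 ih) _
      _ = 2^((1300*k + (W k)^n) * (160000 * k^2 + 2)) := by rw [← pow_add, ← pow_mul]
      _ ≤ 2^((W k)^(n+1)) := by
          apply Nat.pow_le_pow_right (by norm_num)
          rw [pow_succ]
          calc (1300*k + (W k)^n) * (160000 * k^2 + 2)
              ≤ (1300*k*(W k)^n + (W k)^n) * (160000 * k^2 + 2) := by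
                apply Nat.mul_le_mul_right
                apply Nat.add_le_add_right
                exact Nat.le_mul_of_pos_right _ hW
            _ = (W k)^n * W k := by
                unfold W; ring

lemma W_le (k : ℕ) (hk : 1 ≤ k) : W k ≤ 2^(31 * (Nat.log 2 k + 1)) := by
  set l := Nat.log 2 k + 1 with hl
  have h1 : k ≤ 2^l := (Nat.lt_pow_succ_log_self (by norm_num) k).le
  have h2 : k^3 ≤ 2^(3*l) := by
    calc k^3 ≤ (2^l)^3 := Nat.pow_le_pow_left h1 3
      _ = 2^(3*l) := by rw [← pow_mul, mul_comm]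
  have hl1 : 1 ≤ l := by omega
  calc W k ≤ 2^28 * k^3 := by
        unfold W
        have a1 : 1 ≤ k^2 := Nat.one_le_pow _ _ hk
        have a2 : 160000*k^2+2 ≤ 160002*k^2 := by omega
        have a3 : 1300*k+1 ≤ 1301*k := by omega
        calc (160000*k^2+2)*(1300*k+1) ≤ (160002*k^2)*(1301*k) := Nat.mul_le_mul a2 a3
          _ = 208162602*k^3 := by ring
          _ ≤ 2^28 * k^3 := by
              apply Nat.mul_le_mul_right; norm_num
    _ ≤ 2^28 * 2^(3*l) := Nat.mul_le_mul_left _ h2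
    _ = 2^(28 + 3*l) := by rw [← pow_add]
    _ ≤ 2^(31*l) := by
        apply Nat.pow_le_pow_right (by norm_num); omega

lemma ten_len (k : ℕ) (hk : 1 ≤ k) : 10 * len k (mm k) ≤ 2^(2^(6201 * (Nat.log 2 k + 1)^2)) := by
  set l := Nat.log 2 k + 1 with hl
  have hl1 : 1 ≤ l := by omega
  have h1 : (W k)^(mm k) ≤ 2^(6200 * l^2) := by
    calc (W k)^(mm k) ≤ (2^(31*l))^(mm k) := Nat.pow_le_pow_left (W_le k hk) _
      _ = 2^(6200 * l^2) := by
          rw [← pow_mul]; congr 1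
          unfold mm; rw [← hl]; ring
  have hl2 : 1 ≤ l^2 := Nat.one_le_pow _ _ hl1
  have h3 : 4 ≤ 2^(6200 * l^2) := by
    calc 4 = 2^2 := by norm_num
      _ ≤ 2^(6200*l^2) := Nat.pow_le_pow_right (by norm_num) (by omega)
  calc 10 * len k (mm k) ≤ 2^4 * 2^(2^(6200*l^2)) := by
        apply Nat.mul_le_mul (by norm_num)
        exact le_trans (len_le k (mm k)) (Nat.pow_le_pow_right (by norm_num) h1)
    _ = 2^(4 + 2^(6200*l^2)) := by rw [← pow_add]
    _ ≤ 2^(2^(6201*l^2)) := by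
        apply Nat.pow_le_pow_right (by norm_num)
        calc 4 + 2^(6200*l^2) ≤ 2^(6200*l^2) + 2^(6200*l^2) := Nat.add_le_add_right h3 _
          _ = 2^(6200*l^2+1) := by rw [pow_succ 2 (6200*l^2), Nat.mul_two]
          _ ≤ 2^(6201*l^2) := Nat.pow_le_pow_right (by norm_num) (by omega)

lemma tower_le (N n : ℕ) (hN : 3 ≤ N) (h : (n:ℝ) ≤ Real.log (Real.log N)) : 2^(2^n) ≤ N := by
  have hNR : (0:ℝ) < N := by positivity
  have hN3 : (3:ℝ) ≤ N := by exact_mod_cast hN
  have hlogpos : 0 < Real.log N := Real.log_pos (by linarith)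
  have h1 : Real.exp n ≤ Real.log N := by
    rw [← Real.exp_log hlogpos]
    exact Real.exp_le_exp.2 h
  have h2 : (2:ℝ)^n ≤ Real.exp n := by
    have h3 : (2:ℝ) ≤ Real.exp 1 := by
      have := Real.add_one_le_exp (1:ℝ); linarith
    calc (2:ℝ)^n ≤ (Real.exp 1)^n := pow_le_pow_left₀ (by norm_num) h3 n
      _ = Real.exp n := by rw [← Real.exp_nat_mul]; simp
  have h4 : Real.log ((2:ℝ)^(2^n)) ≤ Real.log N := by
    rw [Real.log_pow]
    have h5 : Real.log 2 ≤ 1 := by
      have := Real.log_two_lt_d9; linarith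
    have h6 : (0:ℝ) ≤ 2^n := by positivity
    calc ((2^n : ℕ) : ℝ) * Real.log 2 ≤ ((2^n : ℕ):ℝ) * 1 := by
          apply mul_le_mul_of_nonneg_left h5 (Nat.cast_nonneg _)
      _ = (2:ℝ)^n := by push_cast; ring
      _ ≤ Real.log N := le_trans h2 h1
  have h7 : (2:ℝ)^(2^n) ≤ N := (Real.log_le_log_iff (by positivity) hNR).1 h4
  exact_mod_cast h7

lemma loglog_tendsto : Tendsto (fun N : ℕ => Real.log (Real.log (N : ℝ))) atTop atTop :=
  Real.tendsto_log_atTop.comp (Real.tendsto_log_atTop.comp tendsto_natCast_atTop_atTop)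

lemma log_bound (C : ℝ) : ∀ᶠ y : ℝ in atTop,
    6201 * (2 * Real.log C + 4 * Real.log y + 1)^2 ≤ y := by
  have h1 := (Real.isLittleO_pow_log_id_atTop (n := 2)).def (show (0:ℝ) < 1/(2*6201*32) by norm_num)
  have h2 := eventually_ge_atTop (2 * 6201 * (2 * (2 * Real.log C + 1)^2))
  filter_upwards [h1, h2, eventually_ge_atTop 1] with y h1 h2 h3
  have hlog : 0 ≤ Real.log y := Real.log_nonneg h3
  simp only [id, norm_pow, Real.norm_eq_abs, sq_abs] at h1
  rw [abs_of_nonneg (by linarith : (0:ℝ) ≤ y)] at h1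
  nlinarith [sq_nonneg (2 * Real.log C + 1 - 4 * Real.log y)]

theorem result_aux : ∃ g : ℕ → ℝ,
    (fun N : ℕ => Real.log (Real.log (N : ℝ))) =o[Filter.atTop] g ∧
    (∀ᶠ N : ℕ in Filter.atTop, 1 ≤ g N ∧ g N ≤ (N : ℝ)) ∧
    ∀ k : ℕ → ℕ, (∀ N : ℕ, 1 ≤ N → 1 ≤ k N ∧ k N ≤ N) →
      (fun N : ℕ => (k N : ℝ)) =O[Filter.atTop] g →
      ∀ᶠ N : ℕ in Filter.atTop, ∀ c : ℕ → Fin (k N),
        (N : ℝ) / 10 ≤
          ((Set.ncard {s : ℕ | ∃ a b : ℕ, 1 ≤ a ∧ a ≤ N ∧ 1 ≤ b ∧ b ≤ N ∧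
              a ≠ b ∧ c a = c b ∧ a + b = s} : ℕ) : ℝ) := by
  refine ⟨fun N => (Real.log (Real.log (N : ℝ)))^2, ?_, ?_, ?_⟩
  · have h := (isLittleO_pow_pow_atTop_of_lt (𝕜 := ℝ) (show 1 < 2 by norm_num)).comp_tendsto loglog_tendsto
    simpa [Function.comp_def] using h
  · have h1 := loglog_tendsto.eventually_ge_atTop 1
    have h2 := tendsto_natCast_atTop_atTop.eventually
      ((Real.isLittleO_pow_log_id_atTop (n := 2)).def (show (0:ℝ) < 1 by norm_num))
    filter_upwards [h1, h2, eventually_ge_atTop 3] with N h1 h2 h3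
    have hN3 : (3:ℝ) ≤ N := by exact_mod_cast h3
    have hlogpos : 0 < Real.log N := Real.log_pos (by linarith)
    simp only [id, norm_pow, Real.norm_eq_abs, sq_abs, one_mul] at h2
    rw [abs_of_nonneg (by linarith : (0:ℝ) ≤ N)] at h2
    have h4 : Real.log (Real.log N) ≤ Real.log N := by
      have := Real.log_le_sub_one_of_pos hlogpos
      linarith
    constructor
    · nlinarith
    · nlinarith
  · intro k hk hO
    obtain ⟨C0, hC0⟩ := hO.bound
    set C : ℝ := max C0 1 with hCdef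
    have hC1 : 1 ≤ C := le_max_right _ _
    have h1 := loglog_tendsto.eventually (log_bound C)
    have h2 := loglog_tendsto.eventually_ge_atTop 1
    filter_upwards [hC0, h1, h2, eventually_ge_atTop 3] with N hN h1 h2 h3 c
    have hk1 : 1 ≤ k N := (hk N (by omega)).1
    have hkR : (1:ℝ) ≤ k N := by exact_mod_cast hk1
    apply main_bound hk1 N _ c
    refine le_trans (ten_len (k N) hk1) ?_
    apply tower_le N _ h3
    set y := Real.log (Real.log (N:ℝ)) with hy
    have hkC : (k N : ℝ) ≤ C * y^2 := by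
      rw [Real.norm_of_nonneg (Nat.cast_nonneg _), Real.norm_of_nonneg (by positivity)] at hN
      refine le_trans hN ?_
      apply mul_le_mul_of_nonneg_right (le_max_left _ _) (by positivity)
    have hlogk : Real.log (k N) ≤ Real.log C + 2 * Real.log y := by
      have hy0 : (0:ℝ) < y := by linarith
      calc Real.log (k N) ≤ Real.log (C * y^2) := Real.log_le_log (by linarith) hkC
        _ = Real.log C + 2 * Real.log y := by
            rw [Real.log_mul (by linarith) (by positivity), Real.log_pow]; push_cast; ring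
    have hlam : (Nat.log 2 (k N) : ℝ) ≤ 2 * Real.log (k N) := by
      have e1 : 2^(Nat.log 2 (k N)) ≤ k N := Nat.pow_log_le_self 2 (by omega)
      have e2 : (2:ℝ)^(Nat.log 2 (k N)) ≤ k N := by exact_mod_cast e1
      have e3 : Real.log ((2:ℝ)^(Nat.log 2 (k N))) ≤ Real.log (k N) := Real.log_le_log (by positivity) e2
      rw [Real.log_pow] at e3
      have e4 : (1/2:ℝ) ≤ Real.log 2 := by
        have := Real.log_two_gt_d9; linarith
      have e5 : (0:ℝ) ≤ (Nat.log 2 (k N) : ℝ) := Nat.cast_nonneg _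
      nlinarith
    have hlam0 : (0:ℝ) ≤ (Nat.log 2 (k N) : ℝ) := Nat.cast_nonneg _
    push_cast
    have hb : (Nat.log 2 (k N) : ℝ) + 1 ≤ 2 * Real.log C + 4 * Real.log y + 1 := by linarith
    have hb2 : ((Nat.log 2 (k N) : ℝ) + 1)^2 ≤ (2 * Real.log C + 4 * Real.log y + 1)^2 :=
      pow_le_pow_left₀ (by linarith) hb 2
    linarith

end Final


/-- There is g with log log N = o(g) and 1 ≤ g(N) ≤ N eventually, such that for every k with 1 ≤ k(N) ≤ N and k = O(g), for all large N every k(N)-colouring of {1..N} has at least N/10 sums a+b with a ≠ b of the same colour. -/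
theorem result : ∃ g : ℕ → ℝ,
    (fun N : ℕ => Real.log (Real.log (N : ℝ))) =o[Filter.atTop] g ∧
    (∀ᶠ N : ℕ in Filter.atTop, 1 ≤ g N ∧ g N ≤ (N : ℝ)) ∧
    ∀ k : ℕ → ℕ, (∀ N : ℕ, 1 ≤ N → 1 ≤ k N ∧ k N ≤ N) →
      (fun N : ℕ => (k N : ℝ)) =O[Filter.atTop] g →
      ∀ᶠ N : ℕ in Filter.atTop, ∀ c : ℕ → Fin (k N),
        (N : ℝ) / 10 ≤
          ((Set.ncard {s : ℕ | ∃ a b : ℕ, 1 ≤ a ∧ a ≤ N ∧ 1 ≤ b ∧ b ≤ N ∧
              a ≠ b ∧ c a = c b ∧ a + b = s} : ℕ) : ℝ) := by
  exact result_aux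

end Pool.Agent.S12359
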