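import Pool.Statements.S12880

set_option autoImplicit false
open Pool Pool.MP_db34dc_nt

namespace Pool.Agent.S12880

section Helpers

open Finset Filter Topology

/-! ### The divisor bound -/

theorem pow_le_two_pow (k : ℕ) : ∃ c : ℝ, 1 ≤ c ∧ ∀ e : ℕ, ((e : ℝ) + 1) ^ k ≤ c * 2 ^ e := by
  have h := tendsto_pow_const_div_const_pow_of_one_lt k (r := (2 : ℝ)) (by norm_num)
  obtain ⟨b, hb⟩ := h.bddAbove_range
  refine ⟨max 1 (2 * b), le_max_left _ _, ?_⟩
  intro e
  have h1 : ((e + 1 : ℕ) : ℝ) ^ k / 2 ^ (e + 1) ≤ b := hb ⟨e + 1, rfl⟩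
  rw [div_le_iff₀ (by positivity)] at h1
  push_cast at h1
  calc ((e : ℝ) + 1) ^ k ≤ b * 2 ^ (e + 1) := h1
    _ = (2 * b) * 2 ^ e := by ring
    _ ≤ _ := by gcongr; exact le_max_right _ _

theorem divisor_bound (δ : ℝ) (hδ : 0 < δ) : ∃ C : ℝ, 0 < C ∧ ∀ n : ℕ, n ≠ 0 →
    (n.divisors.card : ℝ) ≤ C * (n : ℝ) ^ δ := by
  obtain ⟨k, hk⟩ := exists_nat_ge (max 1 (1 / δ))
  have hk1 : (1 : ℝ) ≤ k := (le_max_left _ _).trans hk
  have hkδ : 1 / δ ≤ (k : ℝ) := (le_max_right _ _).trans hk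
  have hk0 : k ≠ 0 := by
    rintro rfl
    norm_num at hk1
  have hk0' : (0 : ℝ) < k := by linarith
  obtain ⟨c, hc1, hc⟩ := pow_le_two_pow k
  refine ⟨(c ^ (2 ^ k)) ^ ((k : ℝ)⁻¹), by positivity, ?_⟩
  intro n hn
  have key : ((n.divisors.card : ℝ)) ^ k ≤ c ^ (2 ^ k) * n := by
    have e1 : (n.divisors.card : ℝ) = ∏ p ∈ n.primeFactors, ((n.factorization p : ℝ) + 1) := by
      rw [Nat.card_divisors hn]
      push_cast
      rfl
    have e2 : (n : ℝ) = ∏ p ∈ n.primeFactors, (p : ℝ) ^ (n.factorization p) := by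
      conv_lhs => rw [← Nat.prod_factorization_pow_eq_self hn]
      rw [Finsupp.prod, Nat.support_factorization]
      push_cast
      rfl
    have h1 : ∀ p ∈ n.primeFactors, ((n.factorization p : ℝ) + 1) ^ k ≤
        (if p < 2 ^ k then c else 1) * (p : ℝ) ^ (n.factorization p) := by
      intro p hp
      have hp2 : (2 : ℝ) ≤ p := by exact_mod_cast (Nat.prime_of_mem_primeFactors hp).two_le
      split_ifs with h
      · calc _ ≤ c * 2 ^ (n.factorization p) := hc _
          _ ≤ _ := by gcongr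
      · rw [one_mul]
        push Not at h
        have h2 : ((n.factorization p : ℝ) + 1) ≤ 2 ^ (n.factorization p) := by
          have := Nat.lt_two_pow_self (n := n.factorization p)
          exact_mod_cast this
        calc ((n.factorization p : ℝ) + 1) ^ k ≤ (2 ^ (n.factorization p)) ^ k := by gcongr
          _ = ((2 : ℝ) ^ k) ^ (n.factorization p) := by rw [← pow_mul, ← pow_mul, mul_comm]
          _ ≤ _ := by
            gcongr
            exact_mod_cast h
    calc ((n.divisors.card : ℝ)) ^ k = ∏ p ∈ n.primeFactors, ((n.factorization p : ℝ) + 1) ^ k := by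
          rw [e1, Finset.prod_pow]
      _ ≤ ∏ p ∈ n.primeFactors, ((if p < 2 ^ k then c else 1) * (p : ℝ) ^ (n.factorization p)) :=
          Finset.prod_le_prod (fun p _ => by positivity) h1
      _ = (∏ p ∈ n.primeFactors, (if p < 2 ^ k then c else 1)) * n := by
          rw [Finset.prod_mul_distrib, ← e2]
      _ ≤ _ := by
          gcongr
          rw [Finset.prod_ite, Finset.prod_const_one, mul_one, Finset.prod_const]
          apply pow_le_pow_right₀ hc1
          calc (n.primeFactors.filter (fun p => p < 2 ^ k)).card ≤ (range (2 ^ k)).card := by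
                apply Finset.card_le_card
                intro p hp
                rw [mem_filter] at hp
                exact mem_range.2 hp.2
            _ = 2 ^ k := card_range _
  have hn1 : (1 : ℝ) ≤ n := by exact_mod_cast Nat.one_le_iff_ne_zero.2 hn
  calc (n.divisors.card : ℝ) = ((n.divisors.card : ℝ) ^ k) ^ ((k : ℝ)⁻¹) := by
        rw [Real.pow_rpow_inv_natCast (by positivity) hk0]
    _ ≤ (c ^ (2 ^ k) * n) ^ ((k : ℝ)⁻¹) := by gcongr
    _ = (c ^ (2 ^ k)) ^ ((k : ℝ)⁻¹) * (n : ℝ) ^ ((k : ℝ)⁻¹) := by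
        rw [Real.mul_rpow (by positivity) (by positivity)]
    _ ≤ _ := by
        gcongr
        rw [inv_le_comm₀ hk0' hδ, ← one_div]
        exact hkδ

/-! ### Sums over multisets of integers `≥ 2` -/

theorem multiset_sum_aux (σ : ℝ) (hσ : 1 < σ) (d : ℕ) : ∀ m : ℕ, 2 ≤ m → ∀ r : ℕ,
    ∀ F : Finset (Multiset ℕ), (∀ s ∈ F, s.card ≤ r ∧ ∀ x ∈ s, m ≤ x ∧ x < m + d) →
    ∑ s ∈ F, ((s.prod : ℕ) : ℝ) ^ (-σ) ≤ ∏ j ∈ Ico m (m + d), (1 - (j : ℝ) ^ (-σ))⁻¹ := by
  have hlt : ∀ j : ℕ, 2 ≤ j → (j : ℝ) ^ (-σ) ≤ 1 / 2 := by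
    intro j hj
    have hj' : (2 : ℝ) ≤ j := by exact_mod_cast hj
    calc (j : ℝ) ^ (-σ) ≤ (j : ℝ) ^ (-1 : ℝ) := by
          apply Real.rpow_le_rpow_of_exponent_le <;> linarith
      _ = 1 / j := by rw [Real.rpow_neg_one, one_div]
      _ ≤ 1 / 2 := by gcongr
  have hpos : ∀ j : ℕ, 0 ≤ (j : ℝ) ^ (-σ) := fun j => by positivity
  have hone : ∀ j : ℕ, 2 ≤ j → 1 ≤ (1 - (j : ℝ) ^ (-σ))⁻¹ := by
    intro j hj
    have h1 := hlt j hj
    have h2 := hpos j
    rw [one_le_inv₀ (by linarith)]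
    linarith
  have hzero : ∀ F : Finset (Multiset ℕ), (∀ s ∈ F, s = 0) →
      ∑ s ∈ F, ((s.prod : ℕ) : ℝ) ^ (-σ) ≤ 1 := by
    intro F hF
    calc ∑ s ∈ F, ((s.prod : ℕ) : ℝ) ^ (-σ) ≤ ∑ s ∈ ({0} : Finset (Multiset ℕ)),
          ((s.prod : ℕ) : ℝ) ^ (-σ) := by
          apply Finset.sum_le_sum_of_subset_of_nonneg
          · intro s hs
            rw [mem_singleton]
            exact hF s hs
          · intro i _ _
            positivity
      _ = 1 := by simp
  induction d with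
  | zero =>
    intro m hm r F hF
    simp only [add_zero, Ico_self, prod_empty]
    apply hzero
    intro s hs
    apply Multiset.eq_zero_of_forall_notMem
    intro x hx
    have := (hF s hs).2 x hx
    omega
  | succ d ih =>
    intro m hm r
    have hprod1 : 1 ≤ ∏ j ∈ Ico m (m + (d + 1)), (1 - (j : ℝ) ^ (-σ))⁻¹ := by
      have : ∏ j ∈ Ico m (m + (d + 1)), (1 : ℝ) ≤
          ∏ j ∈ Ico m (m + (d + 1)), (1 - (j : ℝ) ^ (-σ))⁻¹ := by
        apply Finset.prod_le_prod
        · intro i _; norm_num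
        · intro i hi
          rw [mem_Ico] at hi
          exact hone i (by omega)
      simpa using this
    have hsplit : ∏ j ∈ Ico m (m + (d + 1)), (1 - (j : ℝ) ^ (-σ))⁻¹ =
        (1 - (m : ℝ) ^ (-σ))⁻¹ * ∏ j ∈ Ico (m + 1) (m + 1 + d), (1 - (j : ℝ) ^ (-σ))⁻¹ := by
      rw [Finset.prod_eq_prod_Ico_succ_bot (by omega)]
      congr 2
      congr 1
      omega
    induction r with
    | zero =>
      intro F hF
      refine (hzero F ?_).trans hprod1
      intro s hs
      have := (hF s hs).1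
      exact Multiset.card_eq_zero.1 (by omega)
    | succ r ihr =>
      intro F hF
      rw [← Finset.sum_filter_add_sum_filter_not F (fun s => m ∈ s)]
      have h0 : ∑ s ∈ F.filter (fun s => ¬ m ∈ s), ((s.prod : ℕ) : ℝ) ^ (-σ) ≤
          ∏ j ∈ Ico (m + 1) (m + 1 + d), (1 - (j : ℝ) ^ (-σ))⁻¹ := by
        apply ih (m + 1) (by omega) (r + 1)
        intro s hs
        rw [mem_filter] at hs
        refine ⟨(hF s hs.1).1, ?_⟩
        intro x hx
        have h1 := (hF s hs.1).2 x hx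
        have h2 : x ≠ m := by
          rintro rfl
          exact hs.2 hx
        omega
      have h1 : ∑ s ∈ F.filter (fun s => m ∈ s), ((s.prod : ℕ) : ℝ) ^ (-σ) =
          (m : ℝ) ^ (-σ) * ∑ s ∈ (F.filter (fun s => m ∈ s)).image (fun s => s.erase m),
            ((s.prod : ℕ) : ℝ) ^ (-σ) := by
        rw [Finset.sum_image, Finset.mul_sum]
        · apply Finset.sum_congr rfl
          intro s hs
          rw [mem_filter] at hs
          conv_lhs => rw [← Multiset.cons_erase hs.2]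
          rw [Multiset.prod_cons, Nat.cast_mul, Real.mul_rpow (by positivity) (by positivity)]
        · intro s hs t ht hst
          rw [Finset.mem_coe, mem_filter] at hs ht
          simp only at hst
          rw [← Multiset.cons_erase hs.2, ← Multiset.cons_erase ht.2, hst]
      have h2 : ∑ s ∈ (F.filter (fun s => m ∈ s)).image (fun s => s.erase m),
            ((s.prod : ℕ) : ℝ) ^ (-σ) ≤ ∏ j ∈ Ico m (m + (d + 1)), (1 - (j : ℝ) ^ (-σ))⁻¹ := by
        apply ihr
        intro s hs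
        rw [mem_image] at hs
        obtain ⟨t, ht, rfl⟩ := hs
        rw [mem_filter] at ht
        constructor
        · have h3 := (hF t ht.1).1
          have h4 := Multiset.card_erase_of_mem ht.2
          rw [h4, Nat.pred_eq_sub_one]
          omega
        · intro x hx
          exact (hF t ht.1).2 x (Multiset.mem_of_mem_erase hx)
      rw [h1]
      have hm1 := hlt m hm
      have hm2 := hpos m
      have hm3 : (1 : ℝ) - (m : ℝ) ^ (-σ) ≠ 0 := by linarith
      set K := ∏ j ∈ Ico m (m + (d + 1)), (1 - (j : ℝ) ^ (-σ))⁻¹ with hK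
      have h3 : ∏ j ∈ Ico (m + 1) (m + 1 + d), (1 - (j : ℝ) ^ (-σ))⁻¹ =
          (1 - (m : ℝ) ^ (-σ)) * K := by
        rw [hsplit, ← mul_assoc, mul_inv_cancel₀ hm3, one_mul]
      rw [h3] at h0
      calc _ ≤ (m : ℝ) ^ (-σ) * K + (1 - (m : ℝ) ^ (-σ)) * K := by gcongr
        _ = K := by ring

theorem multiset_sum (σ : ℝ) (hσ : 1 < σ) : ∃ K : ℝ, 0 < K ∧ ∀ F : Finset (Multiset ℕ),
    (∀ s ∈ F, ∀ x ∈ s, 2 ≤ x) → ∑ s ∈ F, ((s.prod : ℕ) : ℝ) ^ (-σ) ≤ K := by
  have hsum : Summable (fun n : ℕ => (n : ℝ) ^ (-σ)) := Real.summable_nat_rpow.2 (by linarith)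
  refine ⟨Real.exp (2 * ∑' n : ℕ, (n : ℝ) ^ (-σ)), by positivity, ?_⟩
  intro F hF
  -- a common bound for the elements and cardinalities
  obtain ⟨r, hr⟩ : ∃ r : ℕ, ∀ s ∈ F, s.card ≤ r :=
    ⟨F.sup Multiset.card, fun s hs => Finset.le_sup (f := Multiset.card) hs⟩
  obtain ⟨d, hd⟩ : ∃ d : ℕ, ∀ s ∈ F, ∀ x ∈ s, x ≤ d := by
    refine ⟨F.sup Multiset.sum, fun s hs x hx => ?_⟩
    exact (Multiset.le_sum_of_mem hx).trans (Finset.le_sup (f := Multiset.sum) hs)
  refine (multiset_sum_aux σ hσ d 2 le_rfl r F ?_).trans ?_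
  · intro s hs
    refine ⟨hr s hs, fun x hx => ⟨hF s hs x hx, ?_⟩⟩
    have := hd s hs x hx
    omega
  · calc ∏ j ∈ Ico 2 (2 + d), (1 - (j : ℝ) ^ (-σ))⁻¹ ≤
        ∏ j ∈ Ico 2 (2 + d), Real.exp (2 * (j : ℝ) ^ (-σ)) := by
          apply Finset.prod_le_prod
          · intro j hj
            rw [mem_Ico] at hj
            have hj' : (2 : ℝ) ≤ j := by exact_mod_cast hj.1
            have h1 : (j : ℝ) ^ (-σ) ≤ (j : ℝ) ^ (-1 : ℝ) := by
              apply Real.rpow_le_rpow_of_exponent_le <;> linarith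
            have h2 : (j : ℝ) ^ (-1 : ℝ) ≤ 1 / 2 := by
              rw [Real.rpow_neg_one, ← one_div]; gcongr
            rw [inv_nonneg]
            linarith
          · intro j hj
            rw [mem_Ico] at hj
            have hj' : (2 : ℝ) ≤ j := by exact_mod_cast hj.1
            have h1 : (j : ℝ) ^ (-σ) ≤ (j : ℝ) ^ (-1 : ℝ) := by
              apply Real.rpow_le_rpow_of_exponent_le <;> linarith
            have h2 : (j : ℝ) ^ (-1 : ℝ) ≤ 1 / 2 := by
              rw [Real.rpow_neg_one, ← one_div]; gcongr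
            have h3 : 0 ≤ (j : ℝ) ^ (-σ) := by positivity
            have h4 := Real.add_one_le_exp (2 * (j : ℝ) ^ (-σ))
            refine le_trans ?_ h4
            rw [inv_le_iff_one_le_mul₀ (by linarith)]
            nlinarith
      _ = Real.exp (∑ j ∈ Ico 2 (2 + d), 2 * (j : ℝ) ^ (-σ)) := by rw [Real.exp_sum]
      _ ≤ _ := by
          apply Real.exp_le_exp.2
          rw [← Finset.mul_sum]
          have := hsum.sum_le_tsum (Ico 2 (2 + d)) (fun i _ => by positivity)
          linarith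

/-! ### The solutions -/

/-- `∑ (x - 1)` over the multiset. -/
def w (s : Multiset ℕ) : ℕ := (s.map (fun x => x - 1)).sum

theorem w_cons (z : ℕ) (s : Multiset ℕ) : w (z ::ₘ s) = (z - 1) + w s := by
  simp [w]

theorem prod_pos' (s : Multiset ℕ) (hs : ∀ x ∈ s, 2 ≤ x) : 1 ≤ s.prod := by
  induction s using Multiset.induction_on with
  | empty => simp
  | cons z s ih =>
    rw [Multiset.prod_cons]
    have h1 := hs z (Multiset.mem_cons_self _ _)
    have h2 := ih fun x hx => hs x (Multiset.mem_cons_of_mem hx)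
    nlinarith

theorem w_lt (s : Multiset ℕ) (hs : ∀ x ∈ s, 2 ≤ x) : w s + 1 ≤ s.prod := by
  induction s using Multiset.induction_on with
  | empty => simp [w]
  | cons z s ih =>
    rw [Multiset.prod_cons, w_cons]
    have h1 := hs z (Multiset.mem_cons_self _ _)
    have h2 := ih fun x hx => hs x (Multiset.mem_cons_of_mem hx)
    obtain ⟨y, rfl⟩ := Nat.exists_eq_add_of_le h1
    have h3 : 2 + y - 1 = y + 1 := by omega
    rw [h3]
    nlinarith

theorem w_half (s : Multiset ℕ) (hs : ∀ x ∈ s, 2 ≤ x) :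
    s = 0 ∨ (∃ z, s = {z}) ∨ 2 * w s ≤ s.prod := by
  induction s using Multiset.induction_on with
  | empty => left; rfl
  | cons z s ih =>
    right
    have h1 := hs z (Multiset.mem_cons_self _ _)
    have hs' : ∀ x ∈ s, 2 ≤ x := fun x hx => hs x (Multiset.mem_cons_of_mem hx)
    obtain ⟨y, rfl⟩ := Nat.exists_eq_add_of_le h1
    have h3 : 2 + y - 1 = y + 1 := by omega
    rcases ih hs' with h | ⟨t, rfl⟩ | h
    · left; exact ⟨2 + y, by rw [h]; rfl⟩
    · right
      have h4 := hs' t (Multiset.mem_singleton_self t)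
      obtain ⟨u, rfl⟩ := Nat.exists_eq_add_of_le h4
      have h5 : w ({2 + u} : Multiset ℕ) = u + 1 := by
        simp [w]; omega
      rw [w_cons, h3, h5, Multiset.prod_cons, Multiset.prod_singleton]
      nlinarith
    · rcases Multiset.empty_or_exists_mem s with h0 | ⟨x, hx⟩
      · left; exact ⟨2 + y, by rw [h0]; rfl⟩
      · right
        rw [Multiset.prod_cons, w_cons, h3]
        have h6 := w_lt s hs'
        have h7 : 2 ≤ s.prod := by
          obtain ⟨t, rfl⟩ := Multiset.exists_cons_of_mem hx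
          rw [Multiset.prod_cons]
          have := hs' x (Multiset.mem_cons_self _ _)
          have := prod_pos' t fun y hy => hs' y (Multiset.mem_cons_of_mem hy)
          nlinarith
        nlinarith

/-- The number of which `a + 1` must be a divisor. -/
def W (s : Multiset ℕ) : ℕ := s.prod - 1 + w s

theorem key_facts (n : ℕ) (hn : 2 ≤ n) (s : Multiset ℕ) (hs : ∀ x ∈ s, 2 ≤ x) (a : ℕ) (ha : 1 ≤ a)
    (h : a * s.prod + 1 = n * (a + 1) + w s) :
    W s ≠ 0 ∧ (a + 1) ∣ W s ∧ n = s.prod - W s / (a + 1) ∧ s.prod ≤ 4 * n := by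
  have hQ := prod_pos' s hs
  have h1 : (a + 1) * s.prod = (a + 1) * n + W s := by
    have h2 : (a + 1) * s.prod = a * s.prod + 1 + (s.prod - 1) := by
      rw [add_mul, one_mul]; omega
    rw [h2, h, W]; ring
  have hdvd : (a + 1) ∣ W s := by
    have h2 : (a + 1) ∣ (a + 1) * n + W s := ⟨s.prod, h1.symm⟩
    exact (Nat.dvd_add_right ⟨n, rfl⟩).1 h2
  obtain ⟨c, hc⟩ := hdvd
  have h3 : s.prod = n + c := by
    rw [hc, ← mul_add] at h1
    exact Nat.eq_of_mul_eq_mul_left (by omega) h1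
  have h4 : W s / (a + 1) = c := by
    rw [hc, Nat.mul_div_cancel_left _ (by omega)]
  refine ⟨?_, ⟨c, hc⟩, by rw [h4]; omega, ?_⟩
  · intro h0
    have h5 : s.prod = 1 := by
      unfold W at h0; omega
    omega
  · rcases w_half s hs with h5 | ⟨z, h5⟩ | h5
    · rw [h5] at h3
      simp at h3
      omega
    · have hz : s.prod = z := by rw [h5]; simp
      have hwz : w s = z - 1 := by rw [h5]; simp [w]
      have hz2 : 2 ≤ z := hs z (by rw [h5]; exact Multiset.mem_singleton_self z)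
      rw [hz, hwz] at h
      rw [hz]
      obtain ⟨b, rfl⟩ := Nat.exists_eq_add_of_le ha
      rcases Nat.eq_zero_or_pos b with h0 | h0
      · subst h0
        omega
      · obtain ⟨y, rfl⟩ := Nat.exists_eq_add_of_le hz2
        have h6 : 2 + y - 1 = y + 1 := by omega
        rw [h6] at h
        nlinarith
    · nlinarith

theorem monotone_ext (n : ℕ) (x y : Fin n → ℕ) (hx : Monotone x) (hy : Monotone y)
    (h : (Finset.univ : Finset (Fin n)).val.map x = (Finset.univ : Finset (Fin n)).val.map y) :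
    x = y := by
  rw [Fin.univ_val_map, Fin.univ_val_map, Multiset.coe_eq_coe] at h
  exact List.ofFn_injective (h.eq_of_sortedLE hx.sortedLE_ofFn hy.sortedLE_ofFn)

theorem rest_eq (m : Multiset ℕ) (hm : ∀ y ∈ m, 0 < y) :
    m = m.filter (fun y => 2 ≤ y) + Multiset.replicate (m.card - (m.filter (fun y => 2 ≤ y)).card) 1 := by
  have h1 := Multiset.filter_add_not (fun y => 2 ≤ y) m
  have h2 : m.filter (fun y => ¬ 2 ≤ y) =
      Multiset.replicate (m.filter (fun y => ¬ 2 ≤ y)).card 1 := by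
    rw [Multiset.eq_replicate]
    refine ⟨rfl, ?_⟩
    intro b hb
    rw [Multiset.mem_filter] at hb
    have := hm b hb.1
    omega
  have h3 : m.card = (m.filter (fun y => 2 ≤ y)).card + (m.filter (fun y => ¬ 2 ≤ y)).card := by
    conv_lhs => rw [← h1]
    rw [Multiset.card_add]
  have h4 : m.card - (m.filter (fun y => 2 ≤ y)).card = (m.filter (fun y => ¬ 2 ≤ y)).card := by
    omega
  rw [h4, ← h2, h1]

theorem sum_eq_w (s : Multiset ℕ) (hs : ∀ x ∈ s, 2 ≤ x) : s.sum = w s + s.card := by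
  induction s using Multiset.induction_on with
  | empty => simp [w]
  | cons z s ih =>
    have h1 := hs z (Multiset.mem_cons_self _ _)
    have h2 := ih fun x hx => hs x (Multiset.mem_cons_of_mem hx)
    rw [Multiset.sum_cons, w_cons, Multiset.card_cons, h2]
    omega

/-- The set of solutions counted by `f(n)`. -/
def Sol (n : ℕ) : Set (Fin n → ℕ) :=
  {x : Fin n → ℕ | Monotone x ∧ (∀ i, 0 < x i) ∧ (∏ i, x i) = n * ∑ i, x i}

theorem sol_data (n : ℕ) (hn : n.Prime) (x : Fin n → ℕ) (hx : x ∈ Sol n) :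
    ∃ (s : Multiset ℕ) (a : ℕ), (∀ y ∈ s, 2 ≤ y) ∧ 1 ≤ a ∧
      a * s.prod + 1 = n * (a + 1) + w s ∧
      (Finset.univ : Finset (Fin n)).val.map x =
        (n * a) ::ₘ (s + Multiset.replicate (n - 1 - s.card) 1) := by
  obtain ⟨_, hpos, heq⟩ := hx
  have hdvd : n ∣ ∏ i, x i := ⟨_, heq⟩
  obtain ⟨j, _, a, hj⟩ := (Nat.Prime.prime hn).exists_mem_finset_dvd hdvd
  set m := (Finset.univ : Finset (Fin n)).val.map x with hm
  have hmem : x j ∈ m := Multiset.mem_map_of_mem x (Finset.mem_univ j)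
  obtain ⟨rest, hrest⟩ := Multiset.exists_cons_of_mem hmem
  have hcard : rest.card = n - 1 := by
    have h1 : m.card = n := by rw [hm, Multiset.card_map]; simp
    rw [hrest, Multiset.card_cons] at h1
    omega
  have hposm : ∀ y ∈ m, 0 < y := by
    intro y hy
    rw [hm, Multiset.mem_map] at hy
    obtain ⟨i, _, rfl⟩ := hy
    exact hpos i
  have hposr : ∀ y ∈ rest, 0 < y := fun y hy => hposm y (by rw [hrest]; exact Multiset.mem_cons_of_mem hy)
  set s := rest.filter (fun y => 2 ≤ y) with hs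
  have hs2 : ∀ y ∈ s, 2 ≤ y := fun y hy => (Multiset.mem_filter.1 hy).2
  have hr := rest_eq rest hposr
  rw [← hs, hcard] at hr
  have hscard : s.card ≤ n - 1 := by
    rw [← hcard]
    exact Multiset.card_le_card (Multiset.filter_le _ _)
  have hn2 := hn.two_le
  have ha : 1 ≤ a := by
    rcases Nat.eq_zero_or_pos a with h | h
    · have := hpos j
      rw [hj, h] at this
      omega
    · exact h
  refine ⟨s, a, hs2, ha, ?_, ?_⟩
  · have hprod : (∏ i, x i) = m.prod := rfl
    have hsum : (∑ i, x i) = m.sum := rfl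
    rw [hprod, hsum, hrest, Multiset.prod_cons, Multiset.sum_cons, hr, Multiset.prod_add,
      Multiset.sum_add, Multiset.prod_replicate, Multiset.sum_replicate, one_pow, mul_one,
      smul_eq_mul, mul_one, sum_eq_w s hs2, hj] at heq
    have h1 : n * a * s.prod = n * (n * a + (w s + (n - 1))) := by
      rw [heq]
      congr 2
      omega
    have h2 : a * s.prod = n * a + (w s + (n - 1)) := by
      rw [mul_assoc] at h1
      exact Nat.eq_of_mul_eq_mul_left hn.pos h1
    rw [h2, mul_add, mul_one]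
    omega
  · rw [hrest, hj]
    congr 1

/-- The bound for finite sums of `1/n` over primes `n ≥ N`. -/
theorem sum_primes_bound (ε : ℝ) (hε : 0 < ε) (N : ℕ)
    (h : ∀ n : ℕ, N ≤ n → (n : ℝ) ^ ε < ((Sol n).ncard : ℝ)) :
    ∃ B : ℝ, ∀ P : Finset ℕ, (∀ n ∈ P, n.Prime ∧ N ≤ n) → ∑ n ∈ P, (1 : ℝ) / n ≤ B := by
  classical
  obtain ⟨C, hC0, hC⟩ := divisor_bound (ε / 2) (by positivity)
  obtain ⟨K, hK0, hK⟩ := multiset_sum (1 + ε / 2) (by linarith)
  refine ⟨4 ^ (1 + ε) * (C * 2 ^ (ε / 2) * K), ?_⟩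
  intro P hP
  -- choose the data
  have hdata : ∀ (n : ℕ) (x : Fin n → ℕ), ∃ (s : Multiset ℕ) (a : ℕ), n.Prime → x ∈ Sol n →
      (∀ y ∈ s, 2 ≤ y) ∧ 1 ≤ a ∧ a * s.prod + 1 = n * (a + 1) + w s ∧
      (Finset.univ : Finset (Fin n)).val.map x =
        (n * a) ::ₘ (s + Multiset.replicate (n - 1 - s.card) 1) := by
    intro n x
    by_cases h1 : n.Prime ∧ x ∈ Sol n
    · obtain ⟨s, a, h2⟩ := sol_data n h1.1 x h1.2
      exact ⟨s, a, fun _ _ => h2⟩
    · exact ⟨0, 0, fun h2 h3 => absurd ⟨h2, h3⟩ h1⟩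
  choose S A hSA using hdata
  have hfin : ∀ n ∈ P, (Sol n).Finite := by
    intro n hn
    by_contra hinf
    have h1 := h n (hP n hn).2
    rw [Set.Infinite.ncard hinf] at h1
    have h2 : (0 : ℝ) ≤ (n : ℝ) ^ ε := by positivity
    push_cast at h1
    linarith
  -- the images
  let Φ : (n : ℕ) → (Fin n → ℕ) → (Σ _ : Multiset ℕ, ℕ) := fun n x => ⟨S n x, A n x + 1⟩
  let T : ℕ → Finset (Σ _ : Multiset ℕ, ℕ) := fun n =>
    if hn : n ∈ P then (hfin n hn).toFinset.image (Φ n) else ∅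
  have hT : ∀ n ∈ P, ∀ t ∈ T n, (∀ y ∈ t.1, 2 ≤ y) ∧ W t.1 ≠ 0 ∧ t.2 ∣ W t.1 ∧
      n = t.1.prod - W t.1 / t.2 ∧ t.1.prod ≤ 4 * n := by
    intro n hn t ht
    simp only [T, dif_pos hn, mem_image, Set.Finite.mem_toFinset] at ht
    obtain ⟨x, hx, rfl⟩ := ht
    obtain ⟨h1, h2, h3, _⟩ := hSA n x (hP n hn).1 hx
    obtain ⟨h4, h5, h6, h7⟩ := key_facts n (hP n hn).1.two_le (S n x) h1 (A n x) h2 h3
    exact ⟨h1, h4, h5, h6, h7⟩
  have hcard : ∀ n ∈ P, (Sol n).ncard = (T n).card := by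
    intro n hn
    simp only [T, dif_pos hn]
    rw [Finset.card_image_of_injOn, Set.ncard_eq_toFinset_card _ (hfin n hn)]
    intro x hx y hy hxy
    rw [Finset.mem_coe, Set.Finite.mem_toFinset] at hx hy
    simp only [Φ, Sigma.mk.injEq] at hxy
    obtain ⟨_, _, _, h4⟩ := hSA n x (hP n hn).1 hx
    obtain ⟨_, _, _, h5⟩ := hSA n y (hP n hn).1 hy
    have e1 : S n x = S n y := hxy.1
    have e2 : A n x = A n y := by
      have := eq_of_heq hxy.2
      omega
    apply monotone_ext n x y hx.1 hy.1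
    rw [h4, h5, e1, e2]
  have hdisj : (P : Set ℕ).PairwiseDisjoint T := by
    intro n hn k hk hnk
    rw [Function.onFun, Finset.disjoint_left]
    intro t ht ht'
    have h1 := (hT n hn t ht).2.2.2.1
    have h2 := (hT k hk t ht').2.2.2.1
    exact hnk (h1.trans h2.symm)
  set G := P.biUnion T with hG
  have hGmem : ∀ t ∈ G, (∀ y ∈ t.1, 2 ≤ y) ∧ W t.1 ≠ 0 ∧ t.2 ∣ W t.1 := by
    intro t ht
    rw [hG, mem_biUnion] at ht
    obtain ⟨n, hn, ht⟩ := ht
    obtain ⟨h1, h2, h3, _⟩ := hT n hn t ht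
    exact ⟨h1, h2, h3⟩
  set F := G.image Sigma.fst with hF
  have hFmem : ∀ s ∈ F, ∀ y ∈ s, 2 ≤ y := by
    intro s hs
    rw [hF, mem_image] at hs
    obtain ⟨t, ht, rfl⟩ := hs
    exact (hGmem t ht).1
  have hsub : G ⊆ F.sigma (fun s => (W s).divisors) := by
    intro t ht
    rw [mem_sigma]
    refine ⟨mem_image_of_mem _ ht, ?_⟩
    rw [Nat.mem_divisors]
    exact ⟨(hGmem t ht).2.2, (hGmem t ht).2.1⟩
  calc ∑ n ∈ P, (1 : ℝ) / n ≤ ∑ n ∈ P, ∑ t ∈ T n, 4 ^ (1 + ε) * ((t.1.prod : ℕ) : ℝ) ^ (-(1 + ε)) := by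
        refine Finset.sum_le_sum fun n hn => ?_
        have hnp : (0 : ℝ) < n := by exact_mod_cast (hP n hn).1.pos
        have h1 : (1 : ℝ) / n ≤ ((T n).card : ℝ) * (n : ℝ) ^ (-(1 + ε)) := by
          have h2 := (h n (hP n hn).2).le
          rw [hcard n hn] at h2
          calc (1 : ℝ) / n = (n : ℝ) ^ ε * (n : ℝ) ^ (-(1 + ε)) := by
                rw [← Real.rpow_add hnp]
                have : ε + -(1 + ε) = -1 := by ring
                rw [this, Real.rpow_neg_one, one_div]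
            _ ≤ _ := by gcongr
        refine h1.trans ?_
        rw [← nsmul_eq_mul, ← Finset.sum_const]
        refine Finset.sum_le_sum fun t ht => ?_
        have h3 := (hT n hn t ht).2.2.2.2
        have h4 : 0 < t.1.prod := prod_pos' t.1 (hT n hn t ht).1
        have h3' : ((t.1.prod : ℕ) : ℝ) ≤ 4 * n := by exact_mod_cast h3
        have h4' : (0 : ℝ) < ((t.1.prod : ℕ) : ℝ) := by exact_mod_cast h4
        calc (n : ℝ) ^ (-(1 + ε)) = 4 ^ (1 + ε) * (4 * n : ℝ) ^ (-(1 + ε)) := by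
              rw [Real.mul_rpow (by norm_num) hnp.le, ← mul_assoc, ← Real.rpow_add (by norm_num)]
              simp
          _ ≤ _ := by
              gcongr 4 ^ (1 + ε) * ?_
              apply Real.rpow_le_rpow_of_nonpos h4' h3'
              linarith
    _ = ∑ t ∈ G, 4 ^ (1 + ε) * ((t.1.prod : ℕ) : ℝ) ^ (-(1 + ε)) := by
        rw [hG, Finset.sum_biUnion hdisj]
    _ ≤ ∑ t ∈ F.sigma (fun s => (W s).divisors), 4 ^ (1 + ε) * ((t.1.prod : ℕ) : ℝ) ^ (-(1 + ε)) := by
        apply Finset.sum_le_sum_of_subset_of_nonneg hsub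
        intro i _ _
        positivity
    _ = ∑ s ∈ F, ((W s).divisors.card : ℝ) * (4 ^ (1 + ε) * ((s.prod : ℕ) : ℝ) ^ (-(1 + ε))) := by
        rw [Finset.sum_sigma]
        refine Finset.sum_congr rfl fun s _ => ?_
        simp only [Finset.sum_const, nsmul_eq_mul]
    _ ≤ ∑ s ∈ F, 4 ^ (1 + ε) * (C * 2 ^ (ε / 2) * ((s.prod : ℕ) : ℝ) ^ (-(1 + ε / 2))) := by
        refine Finset.sum_le_sum fun s hs => ?_
        have hs2 := hFmem s hs
        have h4 : 0 < s.prod := prod_pos' s hs2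
        have h4' : (0 : ℝ) < ((s.prod : ℕ) : ℝ) := by exact_mod_cast h4
        have hW0 : W s ≠ 0 := by
          rw [hF, mem_image] at hs
          obtain ⟨t, ht, rfl⟩ := hs
          exact (hGmem t ht).2.1
        have hW : (W s : ℝ) ≤ 2 * ((s.prod : ℕ) : ℝ) := by
          have h5 : W s ≤ 2 * s.prod := by
            unfold W
            have := w_lt s hs2
            omega
          exact_mod_cast h5
        have h5 : ((W s).divisors.card : ℝ) ≤ C * (2 ^ (ε / 2) * ((s.prod : ℕ) : ℝ) ^ (ε / 2)) := by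
          calc _ ≤ C * (W s : ℝ) ^ (ε / 2) := hC _ hW0
            _ ≤ C * (2 * ((s.prod : ℕ) : ℝ)) ^ (ε / 2) := by gcongr
            _ = _ := by rw [Real.mul_rpow (by norm_num) h4'.le]
        calc _ ≤ (C * (2 ^ (ε / 2) * ((s.prod : ℕ) : ℝ) ^ (ε / 2))) *
              (4 ^ (1 + ε) * ((s.prod : ℕ) : ℝ) ^ (-(1 + ε))) := by gcongr
          _ = 4 ^ (1 + ε) * (C * 2 ^ (ε / 2) *
              (((s.prod : ℕ) : ℝ) ^ (ε / 2) * ((s.prod : ℕ) : ℝ) ^ (-(1 + ε)))) := by ring
          _ = _ := by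
              rw [← Real.rpow_add h4']
              congr 4
              ring
    _ = 4 ^ (1 + ε) * (C * 2 ^ (ε / 2) * ∑ s ∈ F, ((s.prod : ℕ) : ℝ) ^ (-(1 + ε / 2))) := by
        simp only [Finset.mul_sum]
    _ ≤ _ := by
        have := hK F hFmem
        gcongr

end Helpers

/-- The negation of the preceding statement: There is ε > 0 such that for all large n, the number of nondecreasing n-tuples of positive integers whose product equals n times their sum exceeds n^ε. -/
theorem result :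
    ¬ (∃ ε : ℝ, 0 < ε ∧ ∃ N : ℕ, ∀ n : ℕ, N ≤ n →
      (n : ℝ) ^ ε <
        ((Set.ncard {x : Fin n → ℕ | Monotone x ∧ (∀ i, 0 < x i) ∧
            (∏ i, x i) = n * ∑ i, x i} : ℕ) : ℝ)) := by
  rintro ⟨ε, hε, N, h⟩
  obtain ⟨B, hB⟩ := sum_primes_bound ε hε N h
  apply not_summable_one_div_on_primes
  apply summable_of_sum_le (c := (N : ℝ) + B)
  · intro n
    apply Set.indicator_nonneg
    intro x _
    positivity
  · intro u
    have h1 : ∑ x ∈ u, Set.indicator {p : ℕ | p.Prime} (fun n : ℕ => (1 : ℝ) / n) x =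
        ∑ x ∈ u.filter Nat.Prime, (1 : ℝ) / x := by
      rw [Finset.sum_filter]
      apply Finset.sum_congr rfl
      intro i _
      rw [Set.indicator_apply]
      rfl
    rw [h1, ← Finset.sum_filter_add_sum_filter_not (u.filter Nat.Prime) (fun x => x < N)]
    apply add_le_add
    · calc ∑ x ∈ (u.filter Nat.Prime).filter (fun x => x < N), (1 : ℝ) / x ≤
          ∑ x ∈ (u.filter Nat.Prime).filter (fun x => x < N), (1 : ℝ) := by
            refine Finset.sum_le_sum fun x hx => ?_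
            rw [Finset.mem_filter, Finset.mem_filter] at hx
            have h2 : (1 : ℝ) ≤ x := by exact_mod_cast hx.1.2.one_le
            rw [div_le_one (by linarith)]
            exact h2
        _ = (((u.filter Nat.Prime).filter (fun x => x < N)).card : ℝ) := by simp
        _ ≤ ((Finset.range N).card : ℝ) := by
            have h3 : (u.filter Nat.Prime).filter (fun x => x < N) ⊆ Finset.range N := by
              intro x hx
              rw [Finset.mem_filter] at hx
              exact Finset.mem_range.2 hx.2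
            exact_mod_cast Finset.card_le_card h3
        _ = N := by simp
    · apply hB
      intro n hn
      rw [Finset.mem_filter, Finset.mem_filter] at hn
      exact ⟨hn.1.2, not_lt.1 hn.2⟩

end Pool.Agent.S12880
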