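import Pool.Statements.S12889

set_option autoImplicit false
open Pool Pool.MP_dd2121_nt

namespace Pool.Agent.S12889

section Helpers

open Filter Topology

/-! ### The Markov chain

A state `(u, c)` encodes a pair of integers `(Q, P)` with `P = 3 ^ u * Q + c`. -/

/-- Successor state when the driving integer `Q` is even. -/
def s0 (s : ℕ × ℤ) : ℕ × ℤ :=
  if s.2 % 2 = 0 then (s.1, s.2 / 2) else (s.1 + 1, (3 * s.2 + 1) / 2)

/-- Successor state when the driving integer `Q` is odd. -/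
def s1 (s : ℕ × ℤ) : ℕ × ℤ :=
  if s.2 % 2 = 0 then (s.1, (3 * s.2 + 1 - 3 ^ s.1) / 2)
  else if s.1 = 0 then (1, (1 - 3 * s.2) / 2) else (s.1 - 1, (s.2 - 3 ^ (s.1 - 1)) / 2)

theorem three_pow_odd (u : ℕ) : ∃ m : ℤ, (3 : ℤ) ^ u = 2 * m + 1 := by
  have h : Odd ((3 : ℤ) ^ u) := Odd.pow (by decide)
  obtain ⟨m, hm⟩ := h
  exact ⟨m, hm⟩

theorem s0_even (u : ℕ) (k : ℤ) : s0 (u, 2 * k) = (u, k) := by
  unfold s0
  rw [if_pos (by simp)]
  simp

theorem s0_odd (u : ℕ) (k : ℤ) : s0 (u, 2 * k + 1) = (u + 1, 3 * k + 2) := by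
  unfold s0
  rw [if_neg (by simp only; omega)]
  simp only [Prod.mk.injEq, true_and]
  omega

theorem s1_even (u : ℕ) (k m : ℤ) (hm : (3 : ℤ) ^ u = 2 * m + 1) :
    s1 (u, 2 * k) = (u, 3 * k - m) := by
  unfold s1
  rw [if_pos (by simp)]
  simp only [Prod.mk.injEq, true_and]
  rw [hm]
  omega

theorem s1_odd_zero (k : ℤ) : s1 (0, 2 * k + 1) = (1, -3 * k - 1) := by
  unfold s1
  rw [if_neg (by simp only; omega), if_pos rfl]
  simp only [Prod.mk.injEq, true_and]
  omega

theorem s1_odd_succ (u : ℕ) (k m : ℤ) (hm : (3 : ℤ) ^ u = 2 * m + 1) :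
    s1 (u + 1, 2 * k + 1) = (u, k - m) := by
  unfold s1
  rw [if_neg (by simp only; omega), if_neg (by simp)]
  simp only [Nat.add_sub_cancel, Prod.mk.injEq, true_and]
  rw [hm]
  omega

/-- Probability of not being at `(0, 0)` after `b` steps. -/
noncomputable def qb : ℕ → ℕ × ℤ → ℝ
  | 0, s => if s = (0, 0) then 0 else 1
  | (b + 1), s => (qb b (s0 s) + qb b (s1 s)) / 2

theorem qb_succ (b : ℕ) (s : ℕ × ℤ) : qb (b + 1) s = (qb b (s0 s) + qb b (s1 s)) / 2 := rfl

theorem s0_zero : s0 (0, 0) = (0, 0) := by decide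
theorem s1_zero : s1 (0, 0) = (0, 0) := by decide

theorem qb_zero (b : ℕ) : qb b (0, 0) = 0 := by
  induction b with
  | zero => simp [qb]
  | succ b ih => rw [qb, s0_zero, s1_zero, ih]; simp

theorem qb_nonneg (b : ℕ) : ∀ s, 0 ≤ qb b s := by
  induction b with
  | zero => intro s; rw [qb]; split_ifs <;> norm_num
  | succ b ih => intro s; rw [qb]; have := ih (s0 s); have := ih (s1 s); linarith

theorem qb_le_one (b : ℕ) : ∀ s, qb b s ≤ 1 := by
  induction b with
  | zero => intro s; rw [qb]; split_ifs <;> norm_num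
  | succ b ih => intro s; rw [qb]; have := ih (s0 s); have := ih (s1 s); linarith

theorem qb_succ_le (b : ℕ) : ∀ s, qb (b + 1) s ≤ qb b s := by
  induction b with
  | zero =>
    intro s
    by_cases h : s = (0, 0)
    · rw [h, qb_zero, qb_zero]
    · have h1 : qb 0 s = 1 := by rw [qb, if_neg h]
      rw [h1]
      exact qb_le_one _ _
  | succ b ih =>
    intro s
    rw [qb_succ (b + 1) s, qb_succ b s]
    have := ih (s0 s)
    have := ih (s1 s)
    linarith

/-- The limit. -/
noncomputable def q (s : ℕ × ℤ) : ℝ := ⨅ b, qb b s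

theorem tendsto_qb (s : ℕ × ℤ) : Tendsto (fun b => qb b s) atTop (𝓝 (q s)) := by
  apply tendsto_atTop_ciInf
  · exact antitone_nat_of_succ_le fun b => qb_succ_le b s
  · exact ⟨0, by rintro _ ⟨b, rfl⟩; exact qb_nonneg b s⟩

theorem q_nonneg (s : ℕ × ℤ) : 0 ≤ q s := ge_of_tendsto' (tendsto_qb s) fun b => qb_nonneg b s
theorem q_le_one (s : ℕ × ℤ) : q s ≤ 1 := le_of_tendsto' (tendsto_qb s) fun b => qb_le_one b s

theorem q_zero : q (0, 0) = 0 := by
  apply le_antisymm _ (q_nonneg _)
  exact le_of_tendsto' (tendsto_qb _) fun b => (qb_zero b).le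

theorem q_harm (s : ℕ × ℤ) : q s = (q (s0 s) + q (s1 s)) / 2 := by
  have h1 : Tendsto (fun b => qb (b + 1) s) atTop (𝓝 (q s)) := (tendsto_qb s).comp (tendsto_add_atTop_nat 1)
  have h2 : Tendsto (fun b => qb (b + 1) s) atTop (𝓝 ((q (s0 s) + q (s1 s)) / 2)) :=
    ((tendsto_qb (s0 s)).add (tendsto_qb (s1 s))).div_const 2
  exact tendsto_nhds_unique h1 h2

/-! ### Reachability of `(0, 0)` -/

inductive Reach : ℕ × ℤ → Prop
  | base : Reach (0, 0)
  | step0 (s : ℕ × ℤ) : Reach (s0 s) → Reach s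
  | step1 (s : ℕ × ℤ) : Reach (s1 s) → Reach s

theorem reach_one (B : ℤ) (hB : ∀ c : ℤ, 0 ≤ c → c < B → Reach (0, c)) :
    ∀ (N : ℕ) (d : ℤ), d.toNat ≤ N → 1 ≤ d → d ≤ 2 * B → Reach (1, d) := by
  intro N
  induction N with
  | zero => intro d h1 h2 _; omega
  | succ N ih =>
    intro d h1 h2 h3
    rcases Int.even_or_odd' d with ⟨k, hk | hk⟩
    · apply Reach.step0
      rw [hk, s0_even]
      apply ih k <;> omega
    · apply Reach.step1
      rw [hk]
      have := s1_odd_succ 0 k 0 (by norm_num)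
      rw [zero_add] at this
      rw [this, sub_zero]
      apply hB <;> omega

theorem reach_zero : ∀ (N : ℕ) (c : ℤ), c.natAbs ≤ N → Reach (0, c) := by
  intro N
  induction N with
  | zero =>
    intro c hc
    have : c = 0 := by omega
    rw [this]
    exact Reach.base
  | succ N ih =>
    intro c hc
    by_cases hc0 : c = 0
    · rw [hc0]; exact Reach.base
    rcases Int.even_or_odd' c with ⟨k, hk | hk⟩
    · apply Reach.step0
      rw [hk, s0_even]
      apply ih
      omega
    · have hB : ∀ c' : ℤ, 0 ≤ c' → c' < c.natAbs → Reach (0, c') := by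
        intro c' h1 h2
        apply ih
        omega
      rcases lt_or_gt_of_ne hc0 with h | h
      · apply Reach.step1
        rw [hk, s1_odd_zero]
        apply reach_one (c.natAbs : ℤ) hB (-3 * k - 1).toNat _ le_rfl <;> omega
      · apply Reach.step0
        rw [hk, s0_odd]
        apply reach_one (c.natAbs : ℤ) hB (3 * k + 2).toNat _ le_rfl <;> omega

theorem reach_all : ∀ (u : ℕ) (c : ℤ), Reach (u, c) := by
  intro u
  induction u with
  | zero => intro c; exact reach_zero c.natAbs c le_rfl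
  | succ u ih =>
    have h1 : ∀ (N : ℕ) (c : ℤ), c.natAbs ≤ N → c ≠ 0 → Reach (u + 1, c) := by
      intro N
      induction N with
      | zero => intro c h1 h2; omega
      | succ N ihN =>
        intro c hc hc0
        rcases Int.even_or_odd' c with ⟨k, hk | hk⟩
        · apply Reach.step0
          rw [hk, s0_even]
          apply ihN <;> omega
        · obtain ⟨m, hm⟩ := three_pow_odd u
          apply Reach.step1
          rw [hk, s1_odd_succ u k m hm]
          exact ih _
    intro c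
    by_cases hc : c = 0
    · obtain ⟨m, hm⟩ := three_pow_odd (u + 1)
      apply Reach.step1
      have h2 := s1_even (u + 1) 0 m hm
      rw [mul_zero] at h2
      rw [hc, h2]
      apply h1 _ _ le_rfl
      have h3 : (3 : ℤ) ^ (u + 1) ≥ 3 := by
        have : (1 : ℤ) ≤ 3 ^ u := one_le_pow₀ (by norm_num)
        rw [pow_succ]; linarith
      omega
    · exact h1 c.natAbs c le_rfl hc

/-! ### The waiting time function -/

/-- `om v c = v + 1` if `2 ^ v ∣ c` and the `2`-adic valuation of `c` otherwise. -/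
def om : ℕ → ℤ → ℕ
  | 0, _ => 1
  | (v + 1), c => if c % 2 = 0 then 1 + om v (c / 2) else 0

theorem om_le (v : ℕ) : ∀ c, om v c ≤ v + 1 := by
  induction v with
  | zero => intro c; simp [om]
  | succ v ih =>
    intro c
    rw [om]
    split_ifs
    · have := ih (c / 2); omega
    · omega

theorem om_even (v : ℕ) (k : ℤ) : om (v + 1) (2 * k) = 1 + om v k := by
  rw [om, if_pos (by omega)]
  congr 2
  omega

theorem om_odd (v : ℕ) (k : ℤ) : om (v + 1) (2 * k + 1) = 0 := by
  rw [om, if_neg (by omega)]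

theorem om_rec (v : ℕ) : ∀ (c k w : ℤ), Odd k → Odd w →
    om (v + 1) c + om (v + 1) (k * c + 2 ^ v * w) = 2 * om v c := by
  induction v with
  | zero =>
    intro c k w hk hw
    obtain ⟨k', rfl⟩ := hk
    obtain ⟨w', rfl⟩ := hw
    rcases Int.even_or_odd' c with ⟨e, he | he⟩
    · have h1 : (2 * k' + 1) * c + 2 ^ 0 * (2 * w' + 1) = 2 * ((2 * k' + 1) * e + w') + 1 := by
        rw [he]; ring
      rw [h1, om_odd, he, om_even]
      simp [om]
    · have h1 : (2 * k' + 1) * c + 2 ^ 0 * (2 * w' + 1) = 2 * ((2 * k' + 1) * e + k' + w' + 1) := by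
        rw [he]; ring
      rw [h1, om_even, he, om_odd]
      simp [om]
  | succ v ih =>
    intro c k w hk hw
    rcases Int.even_or_odd' c with ⟨e, he | he⟩
    · have h1 : k * c + 2 ^ (v + 1) * w = 2 * (k * e + 2 ^ v * w) := by
        rw [he]; ring
      rw [h1, he, om_even, om_even, om_even]
      have := ih e k w hk hw
      omega
    · obtain ⟨k', rfl⟩ := hk
      have h1 : (2 * k' + 1) * c + 2 ^ (v + 1) * w =
          2 * ((2 * k' + 1) * e + k' + 2 ^ v * w) + 1 := by
        rw [he]; ring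
      rw [h1, he, om_odd, om_odd, om_odd]

theorem exists_v (u : ℕ) : ∃ v : ℕ, 1 ≤ u → 1 ≤ v ∧ v + 1 ≤ 2 * u ∧
    ∃ w : ℤ, Odd w ∧ (3 : ℤ) ^ u - 1 = 2 ^ v * w := by
  by_cases hu : 1 ≤ u
  · have h3 : 1 < 3 ^ u := Nat.one_lt_pow (by omega) (by norm_num)
    have hne : 3 ^ u - 1 ≠ 0 := by omega
    obtain ⟨v, w, hw, hvw⟩ := Nat.exists_eq_two_pow_mul_odd hne
    refine ⟨v, fun _ => ⟨?_, ?_, (w : ℤ), ?_, ?_⟩⟩
    · rcases Nat.eq_zero_or_pos v with h | h
      · exfalso
        rw [h, pow_zero, one_mul] at hvw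
        have h4 : Odd (3 ^ u) := Odd.pow (by decide)
        rw [← hvw] at hw
        obtain ⟨a, ha⟩ := hw
        obtain ⟨b, hb⟩ := h4
        omega
      · exact h
    · have h4 : 2 ^ v ≤ 3 ^ u - 1 := by
        rw [hvw]
        exact Nat.le_mul_of_pos_right _ hw.pos
      have h5 : 3 ^ u < 2 ^ (2 * u) := by
        rw [pow_mul]
        exact Nat.pow_lt_pow_left (by norm_num) (by omega)
      have h6 : 2 ^ v < 2 ^ (2 * u) := by omega
      have := (Nat.pow_lt_pow_iff_right (by norm_num : 1 < 2)).1 h6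
      omega
    · exact_mod_cast hw
    · have h4 : ((3 ^ u - 1 : ℕ) : ℤ) = ((2 ^ v * w : ℕ) : ℤ) := by rw [hvw]
      rw [Nat.cast_sub h3.le] at h4
      push_cast at h4
      exact h4
  · exact ⟨0, fun h => absurd h hu⟩

noncomputable def vf (u : ℕ) : ℕ := Classical.choose (exists_v u)

theorem vf_spec (u : ℕ) (hu : 1 ≤ u) : 1 ≤ vf u ∧ vf u + 1 ≤ 2 * u ∧
    ∃ w : ℤ, Odd w ∧ (3 : ℤ) ^ u - 1 = 2 ^ (vf u) * w := Classical.choose_spec (exists_v u) hu

/-- The waiting-time correction. -/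
noncomputable def Om (u : ℕ) (c : ℤ) : ℕ := if u = 0 then 0 else om (vf u) c

theorem Om_le (u : ℕ) (c : ℤ) : Om u c ≤ 2 * u := by
  unfold Om
  split_ifs with h
  · omega
  · exact (om_le _ _).trans (vf_spec u (by omega)).2.1

theorem Om_even (u : ℕ) (hu : 1 ≤ u) (k m : ℤ) (hm : (3 : ℤ) ^ u = 2 * m + 1) :
    Om u k + Om u (3 * k - m) + 2 = 2 * Om u (2 * k) := by
  obtain ⟨hv, _, w, hw, hw'⟩ := vf_spec u hu
  unfold Om
  rw [if_neg (by omega), if_neg (by omega), if_neg (by omega)]
  obtain ⟨v, hv'⟩ := Nat.exists_eq_add_of_le hv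
  rw [hv', add_comm 1 v] at hw' ⊢
  rw [om_even]
  have h1 : 3 * k - m = 3 * k + 2 ^ v * (-w) := by
    have : 2 * m = 2 * (2 ^ v * w) := by
      rw [hm] at hw'
      rw [pow_succ] at hw'
      linarith
    linarith
  rw [h1]
  have := om_rec v k 3 (-w) (by decide) hw.neg
  omega

/-! ### The Lyapunov function -/

theorem sqrt_add_le' (a b : ℝ) (ha : 0 ≤ a) (hb : 0 ≤ b) : √(a + b) ≤ √a + √b := by
  rw [Real.sqrt_le_left (by positivity)]
  have h1 := Real.sq_sqrt ha
  have h2 := Real.sq_sqrt hb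
  have h3 : 0 ≤ √a * √b := by positivity
  nlinarith

/-- `√(|c| / 3 ^ u)` -/
noncomputable def Qf (u : ℕ) (c : ℤ) : ℝ := √(|(c : ℝ)| / 3 ^ u)

theorem Qf_nonneg (u : ℕ) (c : ℤ) : 0 ≤ Qf u c := Real.sqrt_nonneg _

theorem sqrt_half : √(1 / 2 : ℝ) ≤ 0.7072 := by
  rw [Real.sqrt_le_left (by norm_num)]; norm_num

theorem sqrt_32 : √(3 / 2 : ℝ) ≤ 1.2248 := by
  rw [Real.sqrt_le_left (by norm_num)]; norm_num

theorem sqrt_16 : √(1 / 6 : ℝ) ≤ 0.4083 := by
  rw [Real.sqrt_le_left (by norm_num)]; norm_num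

theorem Qf_bound (u : ℕ) (c : ℤ) (x α β A B : ℝ) (hα : 0 ≤ α) (hβ : 0 ≤ β)
    (h : x ≤ α * (|(c : ℝ)| / 3 ^ u) + β) (hA : √α ≤ A) (hB : √β ≤ B) :
    √x ≤ A * Qf u c + B := by
  have h0 : 0 ≤ |(c : ℝ)| / 3 ^ u := by positivity
  calc √x ≤ √(α * (|(c : ℝ)| / 3 ^ u) + β) := Real.sqrt_le_sqrt h
    _ ≤ √(α * (|(c : ℝ)| / 3 ^ u)) + √β := sqrt_add_le' _ _ (by positivity) hβ
    _ = √α * Qf u c + √β := by rw [Real.sqrt_mul hα, Qf]
    _ ≤ _ := by
        have := Qf_nonneg u c
        gcongr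

/-- Harmonic numbers. -/
noncomputable def H (u : ℕ) : ℝ := ∑ i ∈ Finset.range u, 1 / ((i : ℝ) + 1)

noncomputable def g (u : ℕ) : ℝ := 1 / ((u : ℝ) + 100) ^ 3

theorem g_pos (u : ℕ) : 0 < g u := by unfold g; positivity

theorem g_anti (u : ℕ) : g (u + 1) ≤ g u := by
  unfold g
  push_cast
  gcongr
  linarith

theorem g_ratio (u : ℕ) : g u ≤ 1.0304 * g (u + 1) := by
  unfold g
  push_cast
  rw [← mul_div_assoc, mul_one, div_le_div_iff₀ (by positivity) (by positivity)]
  have hu : (0 : ℝ) ≤ u := by positivity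
  nlinarith [mul_nonneg hu hu, mul_nonneg (mul_nonneg hu hu) hu]

/-- The Lyapunov function. -/
noncomputable def Psi (s : ℕ × ℤ) : ℝ := 6 * H s.1 + g s.1 * (Qf s.1 s.2 + Om s.1 s.2)

theorem H_nonneg (u : ℕ) : 0 ≤ H u := by
  unfold H
  exact Finset.sum_nonneg fun i _ => by positivity

theorem Psi_nonneg (s : ℕ × ℤ) : 0 ≤ Psi s := by
  unfold Psi
  have h1 := H_nonneg s.1
  have h2 := Qf_nonneg s.1 s.2
  have h3 := (g_pos s.1).le
  positivity

theorem abs_cast_even (c k : ℤ) (h : c = 2 * k) (u : ℕ) :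
    |(k : ℝ)| / 3 ^ u ≤ 1 / 2 * (|(c : ℝ)| / 3 ^ u) + 0 := by
  rw [h]
  push_cast
  rw [abs_mul, abs_of_pos (by norm_num : (0 : ℝ) < 2)]
  apply le_of_eq
  ring

/-- The exceptional finite set. -/
def Exc (s : ℕ × ℤ) : Prop := s.1 = 0 ∧ |s.2| ≤ 10 ^ 15

theorem super (s : ℕ × ℤ) (hs : ¬ Exc s) : (Psi (s0 s) + Psi (s1 s)) / 2 ≤ Psi s := by
  obtain ⟨u, c⟩ := s
  have hr := Qf_nonneg u c
  rcases Int.even_or_odd' c with ⟨k, hk | hk⟩
  · -- `c` even
    have b0 : Qf u k ≤ 0.7072 * Qf u c + 0 :=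
      Qf_bound u c _ (1 / 2) 0 0.7072 0 (by norm_num) le_rfl (abs_cast_even c k hk u) sqrt_half
        (by simp)
    rcases Nat.eq_zero_or_pos u with hu | hu
    · subst hu
      have e1 : s1 (0, c) = (0, 3 * k) := by
        rw [hk]
        have := s1_even 0 k 0 (by norm_num)
        rw [this, sub_zero]
      have e0 : s0 (0, c) = (0, k) := by rw [hk, s0_even]
      rw [e0, e1]
      have b1 : Qf 0 (3 * k) ≤ 1.2248 * Qf 0 c + 0 := by
        apply Qf_bound 0 c _ (3 / 2) 0 1.2248 0 (by norm_num) le_rfl _ sqrt_32 (by simp)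
        rw [hk]
        push_cast
        rw [abs_mul, abs_mul, abs_of_pos (by norm_num : (0 : ℝ) < 2),
          abs_of_pos (by norm_num : (0 : ℝ) < 3)]
        apply le_of_eq
        ring
      unfold Psi Om
      simp only [if_true]
      have hg := g_pos 0
      push_cast
      have h3 : Qf 0 k + Qf 0 (3 * k) ≤ 2 * Qf 0 c := by linarith
      have h4 : g 0 * (Qf 0 k + Qf 0 (3 * k)) ≤ g 0 * (2 * Qf 0 c) := by gcongr
      linarith
    · obtain ⟨m, hm⟩ := three_pow_odd u
      have e1 : s1 (u, c) = (u, 3 * k - m) := by rw [hk, s1_even u k m hm]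
      have e0 : s0 (u, c) = (u, k) := by rw [hk, s0_even]
      rw [e0, e1]
      have b1 : Qf u (3 * k - m) ≤ 1.2248 * Qf u c + 0.7072 := by
        apply Qf_bound u c _ (3 / 2) (1 / 2) 1.2248 0.7072 (by norm_num) (by norm_num) _ sqrt_32
          sqrt_half
        have h3 : (0 : ℝ) < 3 ^ u := by positivity
        rw [div_le_iff₀ h3]
        have h4 : ((3 * k - m : ℤ) : ℝ) = 3 / 2 * c - ((3 : ℝ) ^ u - 1) / 2 := by
          have h5 : ((3 : ℝ) ^ u) = 2 * m + 1 := by exact_mod_cast hm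
          rw [h5, hk]
          push_cast
          ring
        have h6 : (1 : ℝ) ≤ 3 ^ u := one_le_pow₀ (by norm_num)
        have h7 : (3 / 2 * (|(c : ℝ)| / 3 ^ u) + 1 / 2) * 3 ^ u = 3 / 2 * |(c : ℝ)| + 3 ^ u / 2 := by
          field_simp
        rw [h4, h7]
        have h8 := abs_sub (3 / 2 * (c : ℝ)) (((3 : ℝ) ^ u - 1) / 2)
        rw [abs_mul, abs_of_pos (by norm_num : (0 : ℝ) < 3 / 2),
          abs_of_nonneg (by linarith : (0 : ℝ) ≤ ((3 : ℝ) ^ u - 1) / 2)] at h8
        linarith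
      have hOm := Om_even u hu k m hm
      have hOm' : (Om u k : ℝ) + Om u (3 * k - m) + 2 = 2 * Om u c := by
        rw [hk]
        exact_mod_cast hOm
      unfold Psi
      simp only
      have hg := g_pos u
      have h3 : (Qf u k + Om u k) + (Qf u (3 * k - m) + Om u (3 * k - m)) ≤
          2 * (Qf u c + Om u c) := by linarith
      have h4 : g u * ((Qf u k + Om u k) + (Qf u (3 * k - m) + Om u (3 * k - m))) ≤
          g u * (2 * (Qf u c + Om u c)) := by gcongr
      linarith
  · -- `c` odd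
    rcases Nat.eq_zero_or_pos u with hu | hu
    · subst hu
      have hbig : (10 : ℤ) ^ 15 < |c| := by
        by_contra hcon
        exact hs ⟨rfl, not_lt.1 hcon⟩
      have hbig' : (10 : ℝ) ^ 15 < |(c : ℝ)| := by exact_mod_cast hbig
      have e0 : s0 (0, c) = (1, 3 * k + 2) := by rw [hk, s0_odd]
      have e1 : s1 (0, c) = (1, -3 * k - 1) := by rw [hk, s1_odd_zero]
      rw [e0, e1]
      have b0 : Qf 1 (3 * k + 2) ≤ 0.7072 * Qf 0 c + 0.4083 := by
        apply Qf_bound 0 c _ (1 / 2) (1 / 6) 0.7072 0.4083 (by norm_num) (by norm_num) _ sqrt_half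
          sqrt_16
        have h4 : ((3 * k + 2 : ℤ) : ℝ) = 3 / 2 * c + 1 / 2 := by
          rw [hk]; push_cast; ring
        rw [h4]
        have h8 := abs_add_le (3 / 2 * (c : ℝ)) (1 / 2)
        rw [abs_mul, abs_of_pos (by norm_num : (0 : ℝ) < 3 / 2),
          abs_of_pos (by norm_num : (0 : ℝ) < 1 / 2)] at h8
        rw [pow_one, pow_zero, div_one]
        linarith
      have b1 : Qf 1 (-3 * k - 1) ≤ 0.7072 * Qf 0 c + 0.4083 := by
        apply Qf_bound 0 c _ (1 / 2) (1 / 6) 0.7072 0.4083 (by norm_num) (by norm_num) _ sqrt_half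
          sqrt_16
        have h4 : ((-3 * k - 1 : ℤ) : ℝ) = -(3 / 2) * c + 1 / 2 := by
          rw [hk]; push_cast; ring
        rw [h4]
        have h8 := abs_add_le (-(3 / 2) * (c : ℝ)) (1 / 2)
        rw [abs_mul, abs_neg, abs_of_pos (by norm_num : (0 : ℝ) < 3 / 2),
          abs_of_pos (by norm_num : (0 : ℝ) < 1 / 2)] at h8
        rw [pow_one, pow_zero, div_one]
        linarith
      have hQ : (31000000 : ℝ) ≤ Qf 0 c := by
        unfold Qf
        apply Real.le_sqrt_of_sq_le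
        rw [pow_zero, div_one]
        linarith
      have o0 : (Om 1 (3 * k + 2) : ℝ) ≤ 2 := by exact_mod_cast Om_le 1 _
      have o1 : (Om 1 (-3 * k - 1) : ℝ) ≤ 2 := by exact_mod_cast Om_le 1 _
      have hg1 : g 1 ≤ g 0 := g_anti 0
      have hg1p := g_pos 1
      have hg0 : g 0 = 1 / 1000000 := by unfold g; norm_num
      have hH1 : H 1 = 1 := by unfold H; simp
      have hH0 : H 0 = 0 := by unfold H; simp
      have hO0 : Om 0 c = 0 := by unfold Om; simp
      unfold Psi
      simp only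
      rw [hH1, hH0, hO0, hg0]
      have h5 : 0 ≤ Qf 1 (3 * k + 2) + Om 1 (3 * k + 2) := by
        have := Qf_nonneg 1 (3 * k + 2); positivity
      have h6 : 0 ≤ Qf 1 (-3 * k - 1) + Om 1 (-3 * k - 1) := by
        have := Qf_nonneg 1 (-3 * k - 1); positivity
      have h7 : g 1 * (Qf 1 (3 * k + 2) + Om 1 (3 * k + 2)) ≤
          1 / 1000000 * (0.7072 * Qf 0 c + 0.4083 + 2) := by
        rw [← hg0]
        gcongr
      have h8 : g 1 * (Qf 1 (-3 * k - 1) + Om 1 (-3 * k - 1)) ≤
          1 / 1000000 * (0.7072 * Qf 0 c + 0.4083 + 2) := by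
        rw [← hg0]
        gcongr
      push_cast
      linarith
    · obtain ⟨u', rfl⟩ := Nat.exists_eq_add_of_le' hu
      obtain ⟨m, hm⟩ := three_pow_odd u'
      have e0 : s0 (u' + 1, c) = (u' + 2, 3 * k + 2) := by rw [hk, s0_odd]
      have e1 : s1 (u' + 1, c) = (u', k - m) := by rw [hk, s1_odd_succ u' k m hm]
      rw [e0, e1]
      set r := Qf (u' + 1) c with hr'
      have hp : (0 : ℝ) < 3 ^ (u' + 1) := by positivity
      have hp' : (0 : ℝ) < 3 ^ u' := by positivity
      have hp1 : (1 : ℝ) ≤ 3 ^ u' := one_le_pow₀ (by norm_num)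
      have b0 : Qf (u' + 2) (3 * k + 2) ≤ 0.7072 * r + 0.4083 := by
        apply Qf_bound (u' + 1) c _ (1 / 2) (1 / 6) 0.7072 0.4083 (by norm_num) (by norm_num) _
          sqrt_half sqrt_16
        have h4 : ((3 * k + 2 : ℤ) : ℝ) = 3 / 2 * c + 1 / 2 := by
          rw [hk]; push_cast; ring
        rw [h4]
        have h8 := abs_add_le (3 / 2 * (c : ℝ)) (1 / 2)
        rw [abs_mul, abs_of_pos (by norm_num : (0 : ℝ) < 3 / 2),
          abs_of_pos (by norm_num : (0 : ℝ) < 1 / 2)] at h8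
        have h9 : (3 : ℝ) ^ (u' + 2) = 3 * 3 ^ (u' + 1) := by ring
        rw [h9, div_le_iff₀ (by positivity)]
        have h7 : (1 / 2 * (|(c : ℝ)| / 3 ^ (u' + 1)) + 1 / 6) * (3 * 3 ^ (u' + 1)) =
            3 / 2 * |(c : ℝ)| + 3 ^ (u' + 1) / 2 := by
          field_simp
          ring
        rw [h7]
        have h10 : (1 : ℝ) ≤ 3 ^ (u' + 1) := one_le_pow₀ (by norm_num)
        linarith
      have b1 : Qf u' (k - m) ≤ 1.2248 * r + 0.7072 := by
        apply Qf_bound (u' + 1) c _ (3 / 2) (1 / 2) 1.2248 0.7072 (by norm_num) (by norm_num) _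
          sqrt_32 sqrt_half
        have h4 : ((k - m : ℤ) : ℝ) = c / 2 - 3 ^ u' / 2 := by
          have h5 : ((3 : ℝ) ^ u') = 2 * m + 1 := by exact_mod_cast hm
          rw [h5, hk]; push_cast; ring
        rw [h4]
        have h8 := abs_sub ((c : ℝ) / 2) (3 ^ u' / 2)
        rw [abs_div, abs_of_pos (by norm_num : (0 : ℝ) < 2),
          abs_of_pos (by positivity : (0 : ℝ) < 3 ^ u' / 2)] at h8
        rw [div_le_iff₀ hp']
        have h7 : (3 / 2 * (|(c : ℝ)| / 3 ^ (u' + 1)) + 1 / 2) * 3 ^ u' =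
            |(c : ℝ)| / 2 + 3 ^ u' / 2 := by
          rw [pow_succ]
          field_simp
        rw [h7]
        exact h8
      have o0 : (Om (u' + 2) (3 * k + 2) : ℝ) ≤ 2 * u' + 4 := by
        have := Om_le (u' + 2) (3 * k + 2)
        have h5 : ((Om (u' + 2) (3 * k + 2) : ℕ) : ℝ) ≤ ((2 * (u' + 2) : ℕ) : ℝ) := by
          exact_mod_cast this
        push_cast at h5
        linarith
      have o1 : (Om u' (k - m) : ℝ) ≤ 2 * u' := by exact_mod_cast Om_le u' _
      have hg1 := g_anti (u' + 1)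
      have hg2 := g_ratio u'
      have hgp0 := g_pos u'
      have hgp1 := g_pos (u' + 1)
      have hgp2 := g_pos (u' + 1 + 1)
      have q0 := Qf_nonneg (u' + 2) (3 * k + 2)
      have q1 := Qf_nonneg u' (k - m)
      have hH1 : H (u' + 1) = H u' + 1 / ((u' : ℝ) + 1) := by
        unfold H; rw [Finset.sum_range_succ]
      have hH2 : H (u' + 2) = H u' + 1 / ((u' : ℝ) + 1) + 1 / ((u' : ℝ) + 2) := by
        have : H (u' + 2) = H (u' + 1) + 1 / (((u' + 1 : ℕ) : ℝ) + 1) := by
          unfold H; rw [Finset.sum_range_succ]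
        rw [this, hH1]
        push_cast
        ring
      unfold Psi
      simp only
      rw [hH2, hH1, ← hr']
      have h5 : g (u' + 2) * (Qf (u' + 2) (3 * k + 2) + Om (u' + 2) (3 * k + 2)) ≤
          g (u' + 1) * (0.7072 * r + 0.4083 + (2 * u' + 4)) := by
        gcongr
      have h6 : g u' * (Qf u' (k - m) + Om u' (k - m)) ≤
          (1.0304 * g (u' + 1)) * (1.2248 * r + 0.7072 + 2 * u') := by
        gcongr
      have h7 : g (u' + 1) * (2.6 * (u' + 1)) ≤ 3 / ((u' + 1) * (u' + 2)) := by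
        unfold g
        rw [div_mul_eq_mul_div, one_mul, div_le_div_iff₀ (by positivity) (by positivity)]
        push_cast
        have hu0 : (0 : ℝ) ≤ u' := by positivity
        nlinarith [mul_nonneg hu0 hu0, mul_nonneg (mul_nonneg hu0 hu0) hu0]
      have h8 : 1 / ((u' : ℝ) + 1) - 1 / ((u' : ℝ) + 2) = 1 / ((u' + 1) * (u' + 2)) := by
        have e1 : ((u' : ℝ) + 1) ≠ 0 := by positivity
        have e2 : ((u' : ℝ) + 2) ≠ 0 := by positivity
        rw [div_sub_div _ _ e1 e2]
        congr 1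
        ring
      have h9 : (3 : ℝ) / ((u' + 1) * (u' + 2)) = 3 * (1 / ((u' + 1) * (u' + 2))) := by ring
      rw [h9, ← h8] at h7
      have h10 : 0 ≤ g (u' + 1) * (Om (u' + 1) c : ℝ) := by positivity
      have h11 : g (u' + 1) * (0.7072 * r + 0.4083 + (2 * u' + 4)) +
          (1.0304 * g (u' + 1)) * (1.2248 * r + 0.7072 + 2 * u') ≤
          2 * (g (u' + 1) * r) + 2 * (g (u' + 1) * (2.6 * (u' + 1))) := by
        have hu0 : (0 : ℝ) ≤ u' := by positivity
        have : (0.7072 * r + 0.4083 + (2 * u' + 4)) + 1.0304 * (1.2248 * r + 0.7072 + 2 * u') ≤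
            2 * r + 2 * (2.6 * (u' + 1)) := by nlinarith
        nlinarith
      nlinarith

/-! ### The maximum principle -/

theorem H_mono (u v : ℕ) (h : u ≤ v) : H u ≤ H v := by
  unfold H
  apply Finset.sum_le_sum_of_subset_of_nonneg
  · exact Finset.range_subset_range.2 h
  · intro i _ _; positivity

theorem g_anti' (u v : ℕ) (h : u ≤ v) : g v ≤ g u := by
  induction v, h using Nat.le_induction with
  | base => exact le_rfl
  | succ n _ ih => exact (g_anti n).trans ih

theorem sublevel_finite (R : ℝ) : {s : ℕ × ℤ | Psi s ≤ R}.Finite := by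
  have hH : Tendsto H atTop atTop := by
    have := Real.tendsto_sum_range_one_div_nat_succ_atTop
    exact this
  obtain ⟨U, hU⟩ := (hH.eventually_gt_atTop (R / 6)).exists
  obtain ⟨B, hB⟩ := exists_nat_ge (3 ^ U * (R / g U) ^ 2)
  apply Set.Finite.subset ((Set.finite_Iio U).prod (Set.finite_Icc (-(B : ℤ)) B))
  rintro ⟨u, c⟩ hs
  rw [Set.mem_ofPred_eq] at hs
  unfold Psi at hs
  simp only at hs
  have hg := g_pos u
  have hQ := Qf_nonneg u c
  have hH0 := H_nonneg u
  have h1 : 0 ≤ g u * (Qf u c + Om u c) := by positivity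
  have hu : u < U := by
    by_contra hcon
    have := H_mono U u (not_lt.1 hcon)
    linarith
  have h2 : g u * Qf u c ≤ R := by
    have : 0 ≤ g u * (Om u c : ℝ) := by positivity
    nlinarith
  have hgU := g_pos U
  have hR : 0 ≤ R := le_trans (by positivity) h2
  have h3 : Qf u c ≤ R / g U := by
    rw [le_div_iff₀ hgU]
    calc Qf u c * g U ≤ Qf u c * g u := by
          have := g_anti' u U hu.le
          gcongr
      _ = g u * Qf u c := mul_comm _ _
      _ ≤ R := h2
  have h4 : |(c : ℝ)| / 3 ^ u ≤ (R / g U) ^ 2 := by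
    unfold Qf at h3
    rwa [Real.sqrt_le_left (by positivity)] at h3
  have h5 : |(c : ℝ)| ≤ B := by
    rw [div_le_iff₀ (by positivity)] at h4
    calc |(c : ℝ)| ≤ (R / g U) ^ 2 * 3 ^ u := h4
      _ ≤ (R / g U) ^ 2 * 3 ^ U := by
          gcongr
          · norm_num
      _ = 3 ^ U * (R / g U) ^ 2 := mul_comm _ _
      _ ≤ B := hB
  have h6 : |c| ≤ (B : ℤ) := by exact_mod_cast h5
  rw [Set.mem_prod, Set.mem_Iio, Set.mem_Icc]
  exact ⟨hu, abs_le.1 h6⟩

theorem exc_finite : {s : ℕ × ℤ | Exc s}.Finite := by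
  apply Set.Finite.subset ((Set.finite_singleton 0).prod (Set.finite_Icc (-(10 ^ 15 : ℤ)) (10 ^ 15)))
  rintro ⟨u, c⟩ ⟨h1, h2⟩
  exact ⟨h1, abs_le.1 h2⟩

theorem q_le_of_exc (m : ℝ) (hm0 : 0 ≤ m) (hm : ∀ s, Exc s → q s ≤ m) (s : ℕ × ℤ) : q s ≤ m := by
  have key : ∀ R : ℝ, 0 < R → ∀ s, q s - m - Psi s / R ≤ 0 := by
    intro R hR
    by_contra hcon
    push Not at hcon
    obtain ⟨t, ht⟩ := hcon
    set h : ℕ × ℤ → ℝ := fun s => q s - m - Psi s / R with hh
    have hfin : {s | 0 < h s}.Finite := by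
      apply (sublevel_finite R).subset
      intro s hs
      rw [Set.mem_ofPred_eq] at hs ⊢
      have h1 := q_le_one s
      have h2 : Psi s / R ≤ 1 := by
        simp only [hh] at hs
        linarith
      rwa [div_le_one hR] at h2
    obtain ⟨z, hz, hzmax⟩ := Set.exists_max_image {s | 0 < h s} h hfin ⟨t, ht⟩
    rw [Set.mem_ofPred_eq] at hz
    have hmax : ∀ s, h s ≤ h z := by
      intro s
      rcases le_or_gt (h s) 0 with h1 | h1
      · linarith
      · exact hzmax s h1
    have hprop : ∀ s, Reach s → h s = h z → False := by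
      intro s hs
      have hexc : ∀ s, h s = h z → ¬ Exc s := by
        intro s hs1 hs2
        have h1 := hm s hs2
        have h2 : 0 ≤ Psi s / R := div_nonneg (Psi_nonneg s) hR.le
        rw [← hs1] at hz
        simp only [hh] at hz
        linarith
      have hsucc : ∀ s, h s = h z → h (s0 s) = h z ∧ h (s1 s) = h z := by
        intro s hs1
        have h1 := super s (hexc s hs1)
        have h2 := q_harm s
        have h3 := hmax (s0 s)
        have h4 := hmax (s1 s)
        have h5 : (h (s0 s) + h (s1 s)) / 2 ≥ h s := by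
          simp only [hh]
          have h6 : (Psi (s0 s) + Psi (s1 s)) / 2 / R ≤ Psi s / R := by gcongr
          have h7 : (Psi (s0 s) + Psi (s1 s)) / 2 / R = (Psi (s0 s) / R + Psi (s1 s) / R) / 2 := by
            ring
          rw [h7] at h6
          linarith
        constructor <;> linarith
      induction hs with
      | base =>
        intro h1
        exact hexc _ h1 ⟨rfl, by norm_num⟩
      | step0 s _ ih => intro h1; exact ih (hsucc s h1).1
      | step1 s _ ih => intro h1; exact ih (hsucc s h1).2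
    exact hprop z (reach_all z.1 z.2) rfl
  by_contra hcon
  rw [not_le] at hcon
  -- let `R → ∞`
  have hd : 0 < q s - m := by linarith
  have h1 := key ((Psi s + 1) / (q s - m) + 1) (by have := Psi_nonneg s; positivity) s
  have hP := Psi_nonneg s
  have h2 : Psi s / ((Psi s + 1) / (q s - m) + 1) < q s - m := by
    rw [div_lt_iff₀ (by positivity)]
    have h3 : (q s - m) * ((Psi s + 1) / (q s - m) + 1) = (Psi s + 1) + (q s - m) := by
      field_simp
    rw [h3]
    linarith
  linarith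

theorem q_eq_zero (s : ℕ × ℤ) : q s = 0 := by
  obtain ⟨z, hz, hzmax⟩ := Set.exists_max_image {s : ℕ × ℤ | Exc s} q exc_finite
    ⟨(0, 0), rfl, by norm_num⟩
  have hall : ∀ s, q s ≤ q z := q_le_of_exc (q z) (q_nonneg z) fun s hs => hzmax s hs
  have hprop : ∀ s, Reach s → q s = q z → q z = 0 := by
    intro s hs
    have hsucc : ∀ s, q s = q z → q (s0 s) = q z ∧ q (s1 s) = q z := by
      intro s hs1
      have h2 := q_harm s
      have h3 := hall (s0 s)
      have h4 := hall (s1 s)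
      constructor <;> linarith
    induction hs with
    | base => intro h1; rw [← h1, q_zero]
    | step0 s _ ih => intro h1; exact ih (hsucc s h1).1
    | step1 s _ ih => intro h1; exact ih (hsucc s h1).2
  have hz0 := hprop z (reach_all z.1 z.2) rfl
  have := hall s
  have := q_nonneg s
  linarith

/-! ### Counting -/

/-- New driving integer. -/
def nQ (s : ℕ × ℤ) (Q : ℤ) : ℤ :=
  if Q % 2 = 0 then Q / 2 else if s.2 % 2 ≠ 0 ∧ s.1 = 0 then (Q + s.2) / 2 else (3 * Q + 1) / 2

/-- New state. -/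
def nS (s : ℕ × ℤ) (Q : ℤ) : ℕ × ℤ := if Q % 2 = 0 then s0 s else s1 s

/-- State after `b` steps. -/
def run : ℕ → ℕ × ℤ → ℤ → ℕ × ℤ
  | 0, s, _ => s
  | (b + 1), s, Q => run b (nS s Q) (nQ s Q)

theorem card_split (b : ℕ) (p : ℕ → Prop) [DecidablePred p] :
    ((Finset.range (2 ^ (b + 1))).filter p).card =
      ((Finset.range (2 ^ b)).filter (fun t => p (2 * t))).card +
      ((Finset.range (2 ^ b)).filter (fun t => p (2 * t + 1))).card := by
  classical
  have h1 : (Finset.range (2 ^ (b + 1))).filter p =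
      (((Finset.range (2 ^ b)).filter (fun t => p (2 * t))).image (fun t => 2 * t)) ∪
      (((Finset.range (2 ^ b)).filter (fun t => p (2 * t + 1))).image (fun t => 2 * t + 1)) := by
    ext x
    simp only [Finset.mem_filter, Finset.mem_range, Finset.mem_union, Finset.mem_image]
    constructor
    · rintro ⟨h2, h3⟩
      rw [pow_succ] at h2
      rcases Nat.even_or_odd' x with ⟨k, hk | hk⟩
      · left; exact ⟨k, ⟨by omega, by rw [← hk]; exact h3⟩, hk.symm⟩
      · right; exact ⟨k, ⟨by omega, by rw [← hk]; exact h3⟩, hk.symm⟩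
    · rintro (⟨k, ⟨h2, h3⟩, rfl⟩ | ⟨k, ⟨h2, h3⟩, rfl⟩)
      · exact ⟨by rw [pow_succ]; omega, h3⟩
      · exact ⟨by rw [pow_succ]; omega, h3⟩
  rw [h1, Finset.card_union_of_disjoint, Finset.card_image_of_injective, Finset.card_image_of_injective]
  · intro x y h; simp only at h; omega
  · intro x y h; simp only at h; omega
  · rw [Finset.disjoint_left]
    intro x h2 h3
    rw [Finset.mem_image] at h2 h3
    obtain ⟨k, _, hk⟩ := h2
    obtain ⟨l, _, hl⟩ := h3
    omega

theorem count_run (b : ℕ) : ∀ (s : ℕ × ℤ) (M D : ℤ), Odd D →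
    (((Finset.range (2 ^ b)).filter (fun t : ℕ => run b s (M + D * t) ≠ (0, 0))).card : ℝ) =
      2 ^ b * qb b s := by
  induction b with
  | zero =>
    intro s M D hD
    simp only [pow_zero, Finset.range_one, run, one_mul]
    rw [qb]
    split_ifs with h
    · simp [h]
    · simp [h]
  | succ b ih =>
    intro s M D hD
    obtain ⟨D', hD'⟩ := hD
    rw [card_split, Nat.cast_add]
    -- a general description for the even driver
    have hev : ∀ K : ℤ, (((Finset.range (2 ^ b)).filter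
        (fun t : ℕ => run (b + 1) s (2 * (K + D * t)) ≠ (0, 0))).card : ℝ) = 2 ^ b * qb b (s0 s) := by
      intro K
      rw [← ih (s0 s) K D ⟨D', hD'⟩]
      congr 3
      ext t
      have h1 : nS s (2 * (K + D * t)) = s0 s := by unfold nS; rw [if_pos (by omega)]
      have h2 : nQ s (2 * (K + D * t)) = K + D * t := by unfold nQ; rw [if_pos (by omega)]; omega
      rw [run, h1, h2]
    have hod : ∀ K : ℤ, (((Finset.range (2 ^ b)).filter
        (fun t : ℕ => run (b + 1) s (2 * (K + D * t) + 1) ≠ (0, 0))).card : ℝ) =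
          2 ^ b * qb b (s1 s) := by
      intro K
      by_cases hc : s.2 % 2 ≠ 0 ∧ s.1 = 0
      · obtain ⟨k, hk | hk⟩ := Int.even_or_odd' s.2
        · exfalso; apply hc.1; omega
        rw [← ih (s1 s) (K + k + 1) D ⟨D', hD'⟩]
        congr 3
        ext t
        have h1 : nS s (2 * (K + D * t) + 1) = s1 s := by unfold nS; rw [if_neg (by omega)]
        have h2 : nQ s (2 * (K + D * t) + 1) = K + k + 1 + D * t := by
          unfold nQ
          rw [if_neg (by omega), if_pos hc, hk]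
          omega
        rw [run, h1, h2]
      · rw [← ih (s1 s) (3 * K + 2) (3 * D) ⟨3 * D' + 1, by rw [hD']; ring⟩]
        congr 3
        ext t
        have h1 : nS s (2 * (K + D * t) + 1) = s1 s := by unfold nS; rw [if_neg (by omega)]
        have h2 : nQ s (2 * (K + D * t) + 1) = 3 * K + 2 + 3 * D * t := by
          unfold nQ
          rw [if_neg (by omega), if_neg hc]
          have : 3 * (2 * (K + D * t) + 1) + 1 = 2 * (3 * K + 2 + 3 * D * t) := by ring
          rw [this]
          omega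
        rw [run, h1, h2]
    have hgoal : (2 : ℝ) ^ (b + 1) * qb (b + 1) s = 2 ^ b * qb b (s0 s) + 2 ^ b * qb b (s1 s) := by
      rw [qb_succ]; ring
    rw [hgoal]
    rcases Int.even_or_odd' M with ⟨K, hK | hK⟩
    · have e1 : ∀ t : ℕ, M + D * ((2 * t : ℕ) : ℤ) = 2 * (K + D * t) := by
        intro t; rw [hK]; push_cast; ring
      have e2 : ∀ t : ℕ, M + D * ((2 * t + 1 : ℕ) : ℤ) = 2 * ((K + D') + D * t) + 1 := by
        intro t; rw [hK, hD']; push_cast; ring
      simp only [e1, e2]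
      rw [hev, hod]
    · have e1 : ∀ t : ℕ, M + D * ((2 * t : ℕ) : ℤ) = 2 * (K + D * t) + 1 := by
        intro t; rw [hK]; push_cast; ring
      have e2 : ∀ t : ℕ, M + D * ((2 * t + 1 : ℕ) : ℤ) = 2 * ((K + D' + 1) + D * t) := by
        intro t; rw [hK, hD']; push_cast; ring
      simp only [e1, e2]
      rw [hev, hod, add_comm]

/-! ### Semantics -/

/-- The Collatz map. -/
def C (m : ℕ) : ℕ := if m % 2 = 0 then m / 2 else 3 * m + 1

/-- One accelerated step, with the number of `C`-steps used. -/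
def F (X : ℕ × ℕ) : ℕ × ℕ :=
  if X.1 % 2 = 0 then (X.1 / 2, X.2 + 1) else ((3 * X.1 + 1) / 2, X.2 + 2)

def Rel (X Y : ℕ × ℕ) (s : ℕ × ℤ) (Q : ℤ) : Prop :=
  (X.1 : ℤ) = Q ∧ (Y.1 : ℤ) = 3 ^ s.1 * Q + s.2 ∧ Y.2 = X.2 + s.1

theorem rel_step (X Y : ℕ × ℕ) (s : ℕ × ℤ) (Q : ℤ) (h : Rel X Y s Q) :
    Rel (F X) (F Y) (nS s Q) (nQ s Q) ∨ Rel (F Y) (F X) (nS s Q) (nQ s Q) := by
  obtain ⟨x, kx⟩ := X
  obtain ⟨y, ky⟩ := Y
  obtain ⟨u, c⟩ := s
  obtain ⟨h1, h2, h3⟩ := h
  simp only at h1 h2 h3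
  obtain ⟨m, hm⟩ := three_pow_odd u
  rcases Int.even_or_odd' Q with ⟨K, hK | hK⟩
  · rcases Int.even_or_odd' c with ⟨k, hk | hk⟩
    · -- Q even, c even
      left
      have hS : nS (u, c) Q = (u, k) := by
        unfold nS; rw [if_pos (by omega), hk, s0_even]
      have hQ : nQ (u, c) Q = K := by unfold nQ; rw [if_pos (by omega)]; omega
      have hy : (y : ℤ) = 2 * (3 ^ u * K + k) := by rw [h2, hK, hk]; ring
      have hFx : F (x, kx) = (x / 2, kx + 1) := by unfold F; rw [if_pos (by simp only; omega)]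
      have hFy : F (y, ky) = (y / 2, ky + 1) := by unfold F; rw [if_pos (by simp only; omega)]
      rw [hS, hQ, hFx, hFy]
      refine ⟨?_, ?_, ?_⟩
      · simp only; omega
      · simp only; omega
      · simp only; omega
    · -- Q even, c odd
      left
      have hS : nS (u, c) Q = (u + 1, 3 * k + 2) := by
        unfold nS; rw [if_pos (by omega), hk, s0_odd]
      have hQ : nQ (u, c) Q = K := by unfold nQ; rw [if_pos (by omega)]; omega
      have hy : (y : ℤ) = 2 * (3 ^ u * K + k) + 1 := by rw [h2, hK, hk]; ring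
      have hFx : F (x, kx) = (x / 2, kx + 1) := by unfold F; rw [if_pos (by simp only; omega)]
      have hFy : F (y, ky) = ((3 * y + 1) / 2, ky + 2) := by
        unfold F; rw [if_neg (by simp only; omega)]
      rw [hS, hQ, hFx, hFy]
      refine ⟨?_, ?_, ?_⟩
      · simp only; omega
      · simp only
        rw [pow_succ]
        have : (3 : ℤ) ^ u * 3 * K + (3 * k + 2) = 3 * (3 ^ u * K + k) + 2 := by ring
        rw [this]
        omega
      · simp only; omega
  · rcases Int.even_or_odd' c with ⟨k, hk | hk⟩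
    · -- Q odd, c even
      left
      have hS : nS (u, c) Q = (u, 3 * k - m) := by
        unfold nS; rw [if_neg (by omega), hk, s1_even u k m hm]
      have hQ : nQ (u, c) Q = 3 * K + 2 := by
        unfold nQ
        rw [if_neg (by omega), if_neg (by simp only; omega)]
        omega
      have hy : (y : ℤ) = 2 * (3 ^ u * K + m + k) + 1 := by
        rw [h2, hK, hk]
        have : (3 : ℤ) ^ u * (2 * K + 1) + 2 * k = 2 * (3 ^ u * K) + 3 ^ u + 2 * k := by ring
        rw [this, hm]
        ring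
      have hFx : F (x, kx) = ((3 * x + 1) / 2, kx + 2) := by
        unfold F; rw [if_neg (by simp only; omega)]
      have hFy : F (y, ky) = ((3 * y + 1) / 2, ky + 2) := by
        unfold F; rw [if_neg (by simp only; omega)]
      rw [hS, hQ, hFx, hFy]
      refine ⟨?_, ?_, ?_⟩
      · simp only; omega
      · simp only
        have : (3 : ℤ) ^ u * (3 * K + 2) + (3 * k - m) = 3 * (3 ^ u * K) + 2 * 3 ^ u + (3 * k - m) := by
          ring
        rw [this, hm]
        have h4 : (2 * m + 1) * K = 3 ^ u * K := by rw [hm]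
        rw [h4]
        omega
      · simp only; omega
    · -- Q odd, c odd
      have hy : (y : ℤ) = 2 * (3 ^ u * K + m + k + 1) := by
        rw [h2, hK, hk]
        have : (3 : ℤ) ^ u * (2 * K + 1) + (2 * k + 1) = 2 * (3 ^ u * K) + 3 ^ u + (2 * k + 1) := by
          ring
        rw [this, hm]
        ring
      have hFx : F (x, kx) = ((3 * x + 1) / 2, kx + 2) := by
        unfold F; rw [if_neg (by simp only; omega)]
      have hFy : F (y, ky) = (y / 2, ky + 1) := by unfold F; rw [if_pos (by simp only; omega)]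
      rcases u with _ | u
      · right
        have hS : nS (0, c) Q = (1, -3 * k - 1) := by
          unfold nS; rw [if_neg (by omega), hk, s1_odd_zero]
        have hQ : nQ (0, c) Q = K + k + 1 := by
          unfold nQ
          rw [if_neg (by omega), if_pos ⟨by simp only; omega, rfl⟩]
          simp only
          omega
        have hm0 : m = 0 := by simp at hm; omega
        rw [hS, hQ, hFx, hFy]
        refine ⟨?_, ?_, ?_⟩
        · simp only
          simp only [pow_zero, one_mul] at hy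
          omega
        · simp only [pow_one]
          omega
        · simp only; omega
      · left
        obtain ⟨m', hm'⟩ := three_pow_odd u
        have hS : nS (u + 1, c) Q = (u, k - m') := by
          unfold nS; rw [if_neg (by omega), hk, s1_odd_succ u k m' hm']
        have hQ : nQ (u + 1, c) Q = 3 * K + 2 := by
          unfold nQ
          rw [if_neg (by omega), if_neg (by simp)]
          omega
        rw [hS, hQ, hFx, hFy]
        refine ⟨?_, ?_, ?_⟩
        · simp only; omega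
        · simp only
          have h5 : (3 : ℤ) ^ (u + 1) = 3 * 3 ^ u := by rw [pow_succ]; ring
          have : (3 : ℤ) ^ u * (3 * K + 2) + (k - m') = 3 ^ (u + 1) * K + 2 * 3 ^ u + (k - m') := by
            rw [h5]; ring
          rw [this]
          rw [h5, hm'] at hm
          rw [hm']
          omega
        · simp only; omega

theorem rel_run (b : ℕ) : ∀ (X Y : ℕ × ℕ) (s : ℕ × ℤ) (Q : ℤ), Rel X Y s Q ∨ Rel Y X s Q →
    run b s Q = (0, 0) → F^[b] X = F^[b] Y := by
  induction b with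
  | zero =>
    intro X Y s Q h hr
    rw [run] at hr
    rw [hr] at h
    simp only [Function.iterate_zero, id]
    unfold Rel at h
    simp only [pow_zero, one_mul, add_zero] at h
    apply Prod.ext
    · omega
    · omega
  | succ b ih =>
    intro X Y s Q h hr
    rw [Function.iterate_succ_apply, Function.iterate_succ_apply]
    rw [run] at hr
    apply ih _ _ _ _ _ hr
    rcases h with h | h
    · exact rel_step X Y s Q h
    · exact (rel_step Y X s Q h).symm

theorem F_spec (n : ℕ) : ∀ b, ∃ k ≤ 2 * b, F^[b] (n, 0) = (C^[k] n, k) := by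
  intro b
  induction b with
  | zero => exact ⟨0, le_rfl, rfl⟩
  | succ b ih =>
    obtain ⟨k, hk, h⟩ := ih
    rw [Function.iterate_succ_apply', h]
    by_cases hp : (C^[k] n) % 2 = 0
    · refine ⟨k + 1, by omega, ?_⟩
      rw [Function.iterate_succ_apply']
      unfold F
      simp only
      rw [if_pos hp]
      congr 1
      conv_rhs => rw [C]
      rw [if_pos hp]
    · refine ⟨k + 2, by omega, ?_⟩
      rw [Function.iterate_succ_apply', Function.iterate_succ_apply']
      unfold F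
      simp only
      rw [if_neg hp]
      congr 1
      set z := C^[k] n with hz
      have h1 : C z = 3 * z + 1 := by unfold C; rw [if_neg hp]
      rw [h1]
      unfold C
      rw [if_pos (by omega)]

theorem good_of_run (b n : ℕ) (hn : 4 ^ b ≤ n) (hr : run b (0, 1) (n : ℤ) = (0, 0)) :
    ∃ k ≤ Nat.log 2 n, C^[k] n = C^[k] (n + 1) := by
  have h1 : Rel (n, 0) (n + 1, 0) (0, 1) (n : ℤ) := by
    refine ⟨rfl, ?_, rfl⟩
    simp
  have h2 := rel_run b (n, 0) (n + 1, 0) (0, 1) n (Or.inl h1) hr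
  obtain ⟨k, hk, h3⟩ := F_spec n b
  obtain ⟨k', hk', h4⟩ := F_spec (n + 1) b
  rw [h3, h4, Prod.mk.injEq] at h2
  refine ⟨k, ?_, ?_⟩
  · have h5 : 2 ^ (2 * b) ≤ n := by rw [pow_mul]; exact hn
    have h6 : 2 * b ≤ Nat.log 2 n := Nat.le_log_of_pow_le (by norm_num) h5
    omega
  · rw [h2.1, h2.2]

theorem count_blocks (b m : ℕ) :
    (((Finset.range (2 ^ b * m)).filter (fun n : ℕ => run b (0, 1) (n : ℤ) ≠ (0, 0))).card : ℝ) =
      m * (2 ^ b * qb b (0, 1)) := by
  induction m with
  | zero => simp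
  | succ m ih =>
    rw [Finset.card_filter] at ih ⊢
    rw [mul_add, mul_one, Finset.sum_range_add, Nat.cast_add, ih]
    have h1 := count_run b (0, 1) ((2 ^ b * m : ℕ) : ℤ) 1 odd_one
    rw [Finset.card_filter] at h1
    have h2 : (∑ x ∈ Finset.range (2 ^ b),
        if run b (0, 1) (((2 ^ b * m + x : ℕ)) : ℤ) ≠ (0, 0) then 1 else 0) =
        ∑ t ∈ Finset.range (2 ^ b),
          if run b (0, 1) (((2 ^ b * m : ℕ) : ℤ) + 1 * (t : ℤ)) ≠ (0, 0) then 1 else 0 := by
      apply Finset.sum_congr rfl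
      intro t _
      rw [Nat.cast_add, one_mul]
    rw [h2, h1]
    push_cast
    ring

theorem count_all (b N : ℕ) :
    (((Finset.range N).filter (fun n : ℕ => run b (0, 1) (n : ℤ) ≠ (0, 0))).card : ℝ) ≤
      N * qb b (0, 1) + 2 ^ b := by
  have h1 : N ≤ 2 ^ b * (N / 2 ^ b + 1) := by
    have := Nat.lt_mul_div_succ N (pow_pos (by norm_num : 0 < 2) b)
    exact this.le
  have h2 : ((Finset.range N).filter (fun n : ℕ => run b (0, 1) (n : ℤ) ≠ (0, 0))).card ≤
      ((Finset.range (2 ^ b * (N / 2 ^ b + 1))).filter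
        (fun n : ℕ => run b (0, 1) (n : ℤ) ≠ (0, 0))).card := by
    apply Finset.card_le_card
    apply Finset.filter_subset_filter
    exact Finset.range_subset_range.2 h1
  have h3 : (((Finset.range N).filter (fun n : ℕ => run b (0, 1) (n : ℤ) ≠ (0, 0))).card : ℝ) ≤
      ((N / 2 ^ b + 1 : ℕ) : ℝ) * (2 ^ b * qb b (0, 1)) := by
    rw [← count_blocks]
    exact_mod_cast h2
  have h4 : ((N / 2 ^ b + 1 : ℕ) : ℝ) ≤ (N : ℝ) / 2 ^ b + 1 := by
    have := @Nat.cast_div_le ℝ _ _ _ N (2 ^ b)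
    push_cast at this ⊢
    linarith
  have h5 := qb_nonneg b (0, 1)
  have h6 := qb_le_one b (0, 1)
  have h7 : (0 : ℝ) < 2 ^ b := by positivity
  calc _ ≤ ((N / 2 ^ b + 1 : ℕ) : ℝ) * (2 ^ b * qb b (0, 1)) := h3
    _ ≤ ((N : ℝ) / 2 ^ b + 1) * (2 ^ b * qb b (0, 1)) := by gcongr
    _ = N * qb b (0, 1) + 2 ^ b * qb b (0, 1) := by field_simp
    _ ≤ N * qb b (0, 1) + 2 ^ b := by nlinarith

theorem main_bound (b N : ℕ) :
    (N : ℝ) - (N * qb b (0, 1) + 2 ^ b + 4 ^ b) ≤
      (({n : ℕ | n < N ∧ ∃ k : ℕ, k ≤ Nat.log 2 n ∧ C^[k] n = C^[k] (n + 1)}).ncard : ℝ) := by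
  classical
  have h1 : Finset.range N ⊆ (Finset.range (4 ^ b)) ∪
      ((Finset.range N).filter (fun n : ℕ => run b (0, 1) (n : ℤ) ≠ (0, 0))) ∪
      ((Finset.range N).filter (fun n : ℕ => ∃ k : ℕ, k ≤ Nat.log 2 n ∧ C^[k] n = C^[k] (n + 1))) := by
    intro n hn
    rw [Finset.mem_union, Finset.mem_union]
    by_cases h4 : n < 4 ^ b
    · left; left; exact Finset.mem_range.2 h4
    · by_cases hr : run b (0, 1) (n : ℤ) = (0, 0)
      · right
        rw [Finset.mem_filter]
        exact ⟨hn, good_of_run b n (not_lt.1 h4) hr⟩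
      · left; right
        rw [Finset.mem_filter]
        exact ⟨hn, hr⟩
  have h2 := (Finset.card_le_card h1).trans ((Finset.card_union_le _ _).trans
    (Nat.add_le_add_right (Finset.card_union_le _ _) _))
  rw [Finset.card_range, Finset.card_range] at h2
  have h3 : ({n : ℕ | n < N ∧ ∃ k : ℕ, k ≤ Nat.log 2 n ∧ C^[k] n = C^[k] (n + 1)}) =
      (((Finset.range N).filter (fun n : ℕ => ∃ k : ℕ, k ≤ Nat.log 2 n ∧ C^[k] n = C^[k] (n + 1)) :
        Finset ℕ) : Set ℕ) := by
    ext n
    simp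
  rw [h3, Set.ncard_coe_finset]
  have h4 : (N : ℝ) ≤ 4 ^ b +
      ((Finset.range N).filter (fun n : ℕ => run b (0, 1) (n : ℤ) ≠ (0, 0))).card +
      ((Finset.range N).filter
        (fun n : ℕ => ∃ k : ℕ, k ≤ Nat.log 2 n ∧ C^[k] n = C^[k] (n + 1))).card := by
    exact_mod_cast h2
  have h5 := count_all b N
  linarith

theorem upper_bound (N : ℕ) :
    (({n : ℕ | n < N ∧ ∃ k : ℕ, k ≤ Nat.log 2 n ∧ C^[k] n = C^[k] (n + 1)}).ncard : ℝ) ≤ N := by
  have h1 : ({n : ℕ | n < N ∧ ∃ k : ℕ, k ≤ Nat.log 2 n ∧ C^[k] n = C^[k] (n + 1)}).ncard ≤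
      ((Finset.range N : Finset ℕ) : Set ℕ).ncard := by
    apply Set.ncard_le_ncard
    · intro n hn
      rw [Finset.mem_coe, Finset.mem_range]
      exact hn.1
    · exact Finset.finite_toSet _
  rw [Set.ncard_coe_finset, Finset.card_range] at h1
  exact_mod_cast h1

theorem main_tendsto :
    Filter.Tendsto
      (fun N : ℕ =>
        ((({n : ℕ | n < N ∧ ∃ k : ℕ, k ≤ Nat.log 2 n ∧ C^[k] n = C^[k] (n + 1)}).ncard : ℝ)
          / (N : ℝ)))
      Filter.atTop (nhds 1) := by
  rw [Metric.tendsto_atTop]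
  intro ε hε
  have h1 := tendsto_qb (0, 1)
  rw [q_eq_zero] at h1
  obtain ⟨b, hb⟩ := (h1.eventually_lt_const (half_pos hε)).exists
  obtain ⟨N0, hN0⟩ := exists_nat_gt ((2 ^ b + 4 ^ b) / (ε / 2))
  refine ⟨N0 + 1, fun N hN => ?_⟩
  have hNp : (0 : ℝ) < N := by
    have : 0 < N := by omega
    exact_mod_cast this
  have hNN : (N0 : ℝ) ≤ N := by
    have : N0 ≤ N := by omega
    exact_mod_cast this
  have h2 := main_bound b N
  have h3 := upper_bound N
  rw [Real.dist_eq, abs_lt]
  have h4 : (2 ^ b + 4 ^ b : ℝ) < N * (ε / 2) := by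
    rw [div_lt_iff₀ (by positivity)] at hN0
    have : (N0 : ℝ) * (ε / 2) ≤ N * (ε / 2) := by gcongr
    linarith
  constructor
  · rw [lt_sub_iff_add_lt, lt_div_iff₀ hNp]
    have h5 : (N : ℝ) * qb b (0, 1) ≤ N * (ε / 2) := by gcongr
    nlinarith
  · rw [sub_lt_iff_lt_add, div_lt_iff₀ hNp]
    nlinarith

end Helpers

/-- With C(m)=m/2 for even m and 3m+1 for odd m, the set of n such that the k-th iterates of C at n and at n+1 agree for some k at most log base 2 of n has natural density one. -/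
theorem result :
    Filter.Tendsto
      (fun N : ℕ =>
        ((({n : ℕ | n < N ∧ ∃ k : ℕ, k ≤ Nat.log 2 n ∧
            (fun m : ℕ => if m % 2 = 0 then m / 2 else 3 * m + 1)^[k] n =
            (fun m : ℕ => if m % 2 = 0 then m / 2 else 3 * m + 1)^[k] (n + 1)}).ncard : ℝ)
          / (N : ℝ)))
      Filter.atTop (nhds 1) := by
  exact main_tendsto

end Pool.Agent.S12889

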