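import Pool.Statements.S12995
import Pool.Agent.H28Sieve

set_option autoImplicit false
open Pool Pool.MP_e7cd8d_nt

namespace Pool.Agent.S12995

section Helpers

open Finset

theorem pow_aux (x : ℕ) (hx : 16 ≤ x) : 416 * x ≤ 2 * 2 ^ x := by
  induction x, hx using Nat.le_induction with
  | base => norm_num
  | succ n hn ih => rw [pow_succ]; omega

theorem pow_aux2 (x : ℕ) (hx : 8 ≤ x) : 16 * (x + 2) ≤ 2 ^ x := by
  induction x, hx using Nat.le_induction with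
  | base => norm_num
  | succ n hn ih => rw [pow_succ]; omega

/-- The analytic heart: a long interval is not covered by few numbers' prime factors. -/
theorem cover (N K' m k : ℕ) (A : Finset ℕ) (hK : 48 * (N + 1) ≤ K')
    (hk1 : (2 ^ 2 ^ K') ^ 208 ≤ k) (hk2 : k < (2 ^ 2 ^ K') ^ 416) (hm : m < 2 ^ (2 * 2 ^ 2 ^ K'))
    (hA : A ⊆ Ioc m (m + k))
    (hcov : ∀ n ∈ Ioc m (m + k), n ∉ A → ∃ a ∈ A, ¬ Nat.Coprime a n) : N ≤ A.card := by
  classical
  by_contra hcon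
  push Not at hcon
  set u : ℕ := 2 ^ 2 ^ K' with hu
  have hK8 : 8 ≤ K' := by omega
  have hxK : K' < 2 ^ K' := Nat.lt_two_pow_self
  have hux : 2 ^ K' < u := Nat.lt_two_pow_self
  have huN : 48 * (N + 1) ≤ u := by omega
  have hu0 : 0 < u := by omega
  obtain ⟨R, hRsub, hRrough, hRcard⟩ := Pool.Agent.H28Sieve.sieve_final (K' + 2) m k
  -- size of `R`
  have hexp : Real.exp (8 * ((K' : ℝ) + 2)) ≤ u := by
    have h1 : (8 : ℝ) * ((K' : ℝ) + 2) ≤ 2 ^ K' * Real.log 2 := by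
      have h2 := pow_aux2 K' hK8
      have h3 : ((16 * (K' + 2) : ℕ) : ℝ) ≤ ((2 ^ K' : ℕ) : ℝ) := by exact_mod_cast h2
      push_cast at h3
      have h4 := Real.log_two_gt_d9
      have h5 : (0 : ℝ) < 2 ^ K' := by positivity
      nlinarith
    calc Real.exp (8 * ((K' : ℝ) + 2)) ≤ Real.exp (2 ^ K' * Real.log 2) := Real.exp_le_exp.2 h1
      _ = (u : ℝ) := by
        rw [hu]
        push_cast
        rw [mul_comm, Real.exp_mul, Real.exp_log (by norm_num)]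
        have : ((2 : ℝ) ^ ((2 : ℝ) ^ K')) = (2 : ℝ) ^ (((2 ^ K' : ℕ) : ℕ) : ℝ) := by
          push_cast; rfl
        rw [this, Real.rpow_natCast]
  have huR : (0 : ℝ) < u := by exact_mod_cast hu0
  have hu48 : (48 : ℝ) * (N + 1) ≤ u := by exact_mod_cast huN
  have hkR : (u : ℝ) ^ 208 ≤ k := by exact_mod_cast hk1
  have hu1 : (1 : ℝ) ≤ u := by exact_mod_cast hu0
  have hsize : (k : ℝ) / (4 * u) ≤ R.card := by
    refine le_trans ?_ hRcard
    have h1 : (1 : ℝ) / u ≤ Real.exp (-(8 * ((K' + 2 : ℕ) : ℝ))) := by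
      rw [Real.exp_neg, one_div]
      push_cast
      exact inv_anti₀ (Real.exp_pos _) hexp
    have h2 : ((2 : ℝ) ^ (50 * 2 ^ (K' + 2))) = (u : ℝ) ^ 200 := by
      rw [hu]
      push_cast
      rw [← pow_mul, pow_add]
      congr 1
      ring
    rw [h2]
    have h3 : (((K' + 2 : ℕ) : ℝ) + 1) ≤ u := by
      have : K' + 2 + 1 ≤ u := by
        have h5 := pow_aux2 K' hK8
        omega
      exact_mod_cast this
    have h4 : (((K' + 2 : ℕ) : ℝ) + 1) * (u : ℝ) ^ 200 ≤ (u : ℝ) ^ 201 := by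
      calc _ ≤ (u : ℝ) * (u : ℝ) ^ 200 := by gcongr
        _ = (u : ℝ) ^ 201 := by ring
    have h5 : (u : ℝ) ^ 201 ≤ (k : ℝ) / (4 * u) := by
      rw [le_div_iff₀ (by positivity)]
      have h6 : (4 : ℝ) ≤ (u : ℝ) ^ 6 := by
        have : (48 : ℝ) ≤ u := by
          have : (0 : ℝ) ≤ N := Nat.cast_nonneg N
          linarith
        calc (4 : ℝ) ≤ u := by linarith
          _ = (u : ℝ) ^ 1 := (pow_one _).symm
          _ ≤ (u : ℝ) ^ 6 := pow_le_pow_right₀ hu1 (by norm_num)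
      calc (u : ℝ) ^ 201 * (4 * u) = 4 * (u : ℝ) ^ 202 := by ring
        _ ≤ (u : ℝ) ^ 6 * (u : ℝ) ^ 202 := by gcongr
        _ = (u : ℝ) ^ 208 := by ring
        _ ≤ k := hkR
    have h7 : (k : ℝ) / u ≤ (k : ℝ) * Real.exp (-(8 * ((K' + 2 : ℕ) : ℝ))) := by
      rw [← mul_one_div]
      exact mul_le_mul_of_nonneg_left h1 (Nat.cast_nonneg k)
    have h8 : (k : ℝ) / (4 * u) = (k : ℝ) / u / 4 := by
      field_simp
    rw [h8] at h5 ⊢
    linarith
  -- covering of `R`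
  have hRcov : R ⊆ A ∪ A.biUnion (fun a => (a.primeFactors.filter (fun p => u ^ 4 ≤ p)).biUnion
      (fun p => (Ioc m (m + k)).filter (fun n => p ∣ n))) := by
    intro n hn
    rw [Finset.mem_union]
    by_cases hnA : n ∈ A
    · left; exact hnA
    · right
      obtain ⟨a, ha, hna⟩ := hcov n (hRsub hn) hnA
      obtain ⟨p, hp, hpa, hpn⟩ := Nat.Prime.not_coprime_iff_dvd.1 hna
      have ha0 : a ≠ 0 := by
        have := hA ha
        rw [Finset.mem_Ioc] at this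
        omega
      rw [Finset.mem_biUnion]
      refine ⟨a, ha, ?_⟩
      rw [Finset.mem_biUnion]
      refine ⟨p, ?_, ?_⟩
      · rw [Finset.mem_filter]
        refine ⟨Nat.mem_primeFactors.2 ⟨hp, hpa, ha0⟩, ?_⟩
        by_contra hlt
        push Not at hlt
        apply hRrough n hn p hp _ hpn
        have h1 : u ^ 4 = 2 ^ 2 ^ (K' + 2) := by
          rw [hu, ← pow_mul]
          congr 1
          rw [pow_add]
          norm_num
        rwa [← h1]
      · rw [Finset.mem_filter]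
        exact ⟨hRsub hn, hpn⟩
  have hmul : ∀ p, u ^ 4 ≤ p → (((Ioc m (m + k)).filter (fun n => p ∣ n)).card : ℝ) ≤
      (k : ℝ) / u ^ 4 + 1 := by
    intro p hp
    have hp0 : 0 < p := lt_of_lt_of_le (by positivity) hp
    have h1 := (abs_le.1 (Pool.Agent.H28Sieve.count_mult m k p hp0)).2
    have h2 : (k : ℝ) / p ≤ (k : ℝ) / u ^ 4 := by
      apply div_le_div_of_nonneg_left (Nat.cast_nonneg k) (by positivity)
      exact_mod_cast hp
    linarith
  have hom : ∀ a ∈ A, ((a.primeFactors.filter (fun p => u ^ 4 ≤ p)).card : ℝ) ≤ 2 * u := by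
    intro a ha
    have ha' := hA ha
    rw [Finset.mem_Ioc] at ha'
    have h1 : 2 ^ a.primeFactors.card ≤ a := by
      have h2 : ∏ p ∈ a.primeFactors, p ≤ a := Nat.le_of_dvd (by omega) (Nat.prod_primeFactors_dvd a)
      refine le_trans ?_ h2
      rw [← Finset.prod_const]
      apply Finset.prod_le_prod'
      intro p hp
      exact (Nat.prime_of_mem_primeFactors hp).two_le
    have h2 : k < 2 ^ (2 * u) := by
      refine lt_of_lt_of_le hk2 ?_
      rw [← pow_mul]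
      apply Nat.pow_le_pow_right (by norm_num)
      have := pow_aux (2 ^ K') (by omega)
      rw [← hu] at this
      omega
    have h3 : a < 2 ^ (2 * u + 1) := by
      rw [pow_succ]
      have : m < 2 ^ (2 * u) := hm
      omega
    have h4 : 2 ^ a.primeFactors.card < 2 ^ (2 * u + 1) := lt_of_le_of_lt h1 h3
    rw [Nat.pow_lt_pow_iff_right (by norm_num)] at h4
    have h5 : (a.primeFactors.filter (fun p => u ^ 4 ≤ p)).card ≤ a.primeFactors.card :=
      Finset.card_filter_le _ _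
    have h6 : (a.primeFactors.filter (fun p => u ^ 4 ≤ p)).card ≤ 2 * u := by omega
    exact_mod_cast h6
  have hRle : (R.card : ℝ) ≤ N + N * (2 * u * ((k : ℝ) / u ^ 4 + 1)) := by
    have h1 : R.card ≤ A.card + ∑ a ∈ A, ∑ p ∈ a.primeFactors.filter (fun p => u ^ 4 ≤ p),
        ((Ioc m (m + k)).filter (fun n => p ∣ n)).card := by
      refine (Finset.card_le_card hRcov).trans ((Finset.card_union_le _ _).trans ?_)
      apply Nat.add_le_add_left
      refine Finset.card_biUnion_le.trans ?_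
      apply Finset.sum_le_sum
      intro a _
      exact Finset.card_biUnion_le
    have h2 : (R.card : ℝ) ≤ A.card + ∑ a ∈ A,
        ∑ p ∈ a.primeFactors.filter (fun p => u ^ 4 ≤ p),
          (((Ioc m (m + k)).filter (fun n => p ∣ n)).card : ℝ) := by exact_mod_cast h1
    have hpos : (0 : ℝ) ≤ (k : ℝ) / u ^ 4 + 1 := by positivity
    have h3 : ∑ a ∈ A, ∑ p ∈ a.primeFactors.filter (fun p => u ^ 4 ≤ p),
          (((Ioc m (m + k)).filter (fun n => p ∣ n)).card : ℝ) ≤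
        ∑ a ∈ A, 2 * (u : ℝ) * ((k : ℝ) / u ^ 4 + 1) := by
      apply Finset.sum_le_sum
      intro a ha
      calc _ ≤ ∑ p ∈ a.primeFactors.filter (fun p => u ^ 4 ≤ p), ((k : ℝ) / u ^ 4 + 1) := by
            apply Finset.sum_le_sum
            intro p hp
            exact hmul p (Finset.mem_filter.1 hp).2
        _ = ((a.primeFactors.filter (fun p => u ^ 4 ≤ p)).card : ℝ) * ((k : ℝ) / u ^ 4 + 1) := by
            rw [Finset.sum_const, nsmul_eq_mul]
        _ ≤ _ := mul_le_mul_of_nonneg_right (hom a ha) hpos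
    rw [Finset.sum_const, nsmul_eq_mul] at h3
    have h4 : (A.card : ℝ) ≤ N := by exact_mod_cast hcon.le
    have h5 : (A.card : ℝ) * (2 * (u : ℝ) * ((k : ℝ) / u ^ 4 + 1)) ≤
        N * (2 * u * ((k : ℝ) / u ^ 4 + 1)) := by gcongr
    linarith
  -- final numerical contradiction
  have h1 : (k : ℝ) / (4 * u) ≤ N + N * (2 * u * ((k : ℝ) / u ^ 4 + 1)) := hsize.trans hRle
  rw [div_le_iff₀ (by positivity)] at h1
  have hN0 : (0 : ℝ) ≤ N := Nat.cast_nonneg N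
  have hk0 : (0 : ℝ) ≤ k := Nat.cast_nonneg k
  have e1 : ((N : ℝ) + N * (2 * u * ((k : ℝ) / u ^ 4 + 1))) * (4 * u) =
      4 * N * u + 8 * N * (k / u ^ 2) + 8 * N * u ^ 2 := by
    field_simp
    ring
  rw [e1] at h1
  have hk4 : (u : ℝ) ^ 4 ≤ k := (pow_le_pow_right₀ hu1 (by norm_num)).trans hkR
  have e2 : 8 * (N : ℝ) * (k / u ^ 2) ≤ k / 4 := by
    have h5 : 32 * (N : ℝ) ≤ (u : ℝ) ^ 2 := by nlinarith
    have h6 : (k : ℝ) / (u : ℝ) ^ 2 * (32 * (N : ℝ)) ≤ (k : ℝ) := by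
      calc (k : ℝ) / (u : ℝ) ^ 2 * (32 * (N : ℝ)) ≤ (k : ℝ) / (u : ℝ) ^ 2 * (u : ℝ) ^ 2 :=
            mul_le_mul_of_nonneg_left h5 (by positivity)
        _ = (k : ℝ) := by field_simp
    linarith
  have e3 : 4 * (N : ℝ) * u ≤ (u : ℝ) ^ 2 := by nlinarith
  have e4 : 8 * (N : ℝ) * u ^ 2 ≤ (u : ℝ) ^ 3 := by
    have : 8 * (N : ℝ) ≤ u := by linarith
    calc 8 * (N : ℝ) * u ^ 2 ≤ u * u ^ 2 := by gcongr
      _ = (u : ℝ) ^ 3 := by ring
  have hu48' : (48 : ℝ) ≤ u := by linarith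
  have e5 : (u : ℝ) ^ 2 ≤ (u : ℝ) ^ 3 := pow_le_pow_right₀ hu1 (by norm_num)
  have e6 : 48 * (u : ℝ) ^ 3 ≤ (u : ℝ) ^ 4 := by
    calc 48 * (u : ℝ) ^ 3 ≤ u * u ^ 3 := by gcongr
      _ = (u : ℝ) ^ 4 := by ring
  have e7 : (0 : ℝ) < (u : ℝ) ^ 3 := by positivity
  linarith

end Helpers

/-- There is c0 such that for every c at least c0: every maximal pairwise coprime set of integers in (m, m + floor((log m)^c)] has size tending to infinity as m grows. -/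
theorem result :
    ∃ c₀ : ℝ, ∀ c : ℝ, c₀ ≤ c → ∀ N : ℕ, ∃ M : ℕ, ∀ m : ℕ, M ≤ m →
      ∀ A : Finset ℕ,
        A ⊆ Finset.Ioc m (m + ⌊(Real.log (m : ℝ)) ^ c⌋₊) →
        (A : Set ℕ).Pairwise Nat.Coprime →
        (∀ n ∈ Finset.Ioc m (m + ⌊(Real.log (m : ℝ)) ^ c⌋₊),
            n ∉ A → ∃ a ∈ A, ¬ Nat.Coprime a n) →
        N ≤ A.card := by
  refine ⟨417, fun c hc N => ?_⟩
  set K1 : ℕ := 48 * (N + 1) with hK1
  set Z : ℕ := 2 ^ (208 * 2 ^ K1) + 1 with hZ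
  refine ⟨⌈Real.exp Z⌉₊, fun m hm A hA _ hcov => ?_⟩
  set L : ℝ := Real.log m with hL
  set k : ℕ := ⌊L ^ c⌋₊ with hk
  have hmexp : Real.exp Z ≤ m := (Nat.le_ceil _).trans (by exact_mod_cast hm)
  have hLZ : (Z : ℝ) ≤ L := by
    rw [hL, Real.le_log_iff_exp_le (lt_of_lt_of_le (Real.exp_pos _) hmexp)]
    exact hmexp
  have hZpos : 0 < Z := Nat.succ_pos _
  have hZ1 : (1 : ℝ) ≤ Z := by
    have : 1 ≤ Z := hZpos
    exact_mod_cast this
  have hL1 : 1 ≤ L := hZ1.trans hLZ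
  have hLc : L ^ (417 : ℝ) ≤ L ^ c := Real.rpow_le_rpow_of_exponent_le hL1 hc
  have hLc' : L ^ (417 : ℕ) ≤ L ^ c := by
    have : L ^ (417 : ℝ) = L ^ (417 : ℕ) := by
      have := Real.rpow_natCast L 417
      rw [← this]; norm_num
    rwa [this] at hLc
  have hLle : L ≤ L ^ c := by
    calc L = L ^ 1 := (pow_one L).symm
      _ ≤ L ^ 417 := pow_le_pow_right₀ hL1 (by norm_num)
      _ ≤ L ^ c := hLc'
  have hkZ : Z ≤ k := Nat.le_floor (hLZ.trans hLle)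
  have hk0 : k ≠ 0 := (lt_of_lt_of_le hZpos hkZ).ne'
  -- choice of `K'`
  set K' : ℕ := Nat.log 2 (Nat.log 2 k / 208) with hK'
  have hlogk : 208 * 2 ^ K1 ≤ Nat.log 2 k := by
    apply Nat.le_log_of_pow_le (by norm_num)
    exact (Nat.le_succ _).trans hkZ
  have hdiv : 2 ^ K1 ≤ Nat.log 2 k / 208 := by
    rw [Nat.le_div_iff_mul_le (by norm_num)]
    omega
  have hdiv0 : Nat.log 2 k / 208 ≠ 0 := by
    have : 0 < 2 ^ K1 := by positivity
    omega
  have hKK : K1 ≤ K' := Nat.le_log_of_pow_le (by norm_num) hdiv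
  have f1 : 2 ^ K' ≤ Nat.log 2 k / 208 := Nat.pow_log_le_self 2 hdiv0
  have f2 : Nat.log 2 k / 208 < 2 ^ (K' + 1) := Nat.lt_pow_succ_log_self (by norm_num) _
  have f3 : 208 * 2 ^ K' ≤ Nat.log 2 k := by
    have := (Nat.le_div_iff_mul_le (by norm_num : 0 < 208)).1 f1
    omega
  have f4 : Nat.log 2 k < 416 * 2 ^ K' := by
    have := (Nat.div_lt_iff_lt_mul (by norm_num : 0 < 208)).1 f2
    rw [pow_succ] at this
    omega
  have hk1 : (2 ^ 2 ^ K') ^ 208 ≤ k := by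
    rw [← pow_mul]
    calc 2 ^ (2 ^ K' * 208) ≤ 2 ^ Nat.log 2 k := Nat.pow_le_pow_right (by norm_num) (by omega)
      _ ≤ k := Nat.pow_log_le_self 2 hk0
  have hk2 : k < (2 ^ 2 ^ K') ^ 416 := by
    rw [← pow_mul]
    calc k < 2 ^ (Nat.log 2 k + 1) := Nat.lt_pow_succ_log_self (by norm_num) k
      _ ≤ 2 ^ (2 ^ K' * 416) := Nat.pow_le_pow_right (by norm_num) (by omega)
  have hLu : L < ((2 ^ 2 ^ K' : ℕ) : ℝ) := by
    have g1 : L ^ c < (k : ℝ) + 1 := Nat.lt_floor_add_one _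
    have g2 : (k : ℝ) + 1 ≤ ((2 ^ 2 ^ K' : ℕ) : ℝ) ^ 416 := by exact_mod_cast hk2
    have g3 : (1 : ℝ) ≤ ((2 ^ 2 ^ K' : ℕ) : ℝ) := by
      have : 1 ≤ 2 ^ 2 ^ K' := Nat.one_le_two_pow
      exact_mod_cast this
    have g4 : ((2 ^ 2 ^ K' : ℕ) : ℝ) ^ 416 ≤ ((2 ^ 2 ^ K' : ℕ) : ℝ) ^ 417 :=
      pow_le_pow_right₀ g3 (by norm_num)
    have g5 : L ^ 417 < ((2 ^ 2 ^ K' : ℕ) : ℝ) ^ 417 :=
      lt_of_le_of_lt hLc' (lt_of_lt_of_le g1 (g2.trans g4))
    exact lt_of_pow_lt_pow_left₀ 417 (by positivity) g5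
  have hm2 : m < 2 ^ (2 * 2 ^ 2 ^ K') := by
    have hmpos : (0 : ℝ) < m := lt_of_lt_of_le (Real.exp_pos _) hmexp
    have g1 : (m : ℝ) < Real.exp ((2 ^ 2 ^ K' : ℕ) : ℝ) := by
      rw [← Real.log_lt_iff_lt_exp hmpos]
      exact hLu
    have g2 : Real.exp ((2 ^ 2 ^ K' : ℕ) : ℝ) ≤ (4 : ℝ) ^ (2 ^ 2 ^ K' : ℕ) := by
      have : Real.exp ((2 ^ 2 ^ K' : ℕ) : ℝ) = Real.exp 1 ^ (2 ^ 2 ^ K' : ℕ) := by
        rw [← Real.exp_nat_mul, mul_one]
      rw [this]
      apply pow_le_pow_left₀ (Real.exp_pos 1).le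
      exact (Real.exp_one_lt_three.le).trans (by norm_num)
    have g3 : (m : ℝ) < (4 : ℝ) ^ (2 ^ 2 ^ K' : ℕ) := lt_of_lt_of_le g1 g2
    have g4 : m < 4 ^ (2 ^ 2 ^ K') := by exact_mod_cast g3
    rw [pow_mul]
    exact g4
  exact cover N K' m k A hKK hk1 hk2 hm2 hA hcov

end Pool.Agent.S12995
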