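import Pool.Statements.S13030

set_option autoImplicit false
open Pool Pool.MP_eca08d_nt

namespace Pool.Agent.S13030

section Helpers

/-- the counterexample -/
def n0 : ℕ := 401730101875729959488965569965326622444189466052453500734446577351862525300386357877485654776098941594254135766568684813263774887303988767828798004415329990093702490198535263553413328025801926876262936729639775274056751516368102108289202524789024025422554623613612809421854075905593938767925861727

/-- the primes congruent to 3 mod 4 used -/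
def P : List ℕ := [3, 7, 11, 19, 23, 31, 43, 47, 59, 67, 71, 79, 83, 103, 107, 127, 131, 139, 151, 163, 167, 179, 191, 199, 211, 223, 227, 239, 251, 263, 271, 283, 307, 311, 331, 347, 359, 367, 379, 383, 419, 431, 439, 443, 463, 467, 479, 487, 491, 499, 503, 523, 547, 563, 571, 587, 599, 607, 619, 631, 643, 647, 659, 683]

/-- `m` is visibly not a sum of two squares -/
def killed (m : ℕ) : Bool :=
  Nat.beq (m % 8) 3 || Nat.beq (m % 8) 6 || Nat.beq (m % 8) 7 || Nat.beq (m % 16) 12 ||
    P.any (fun p => Nat.beq (m % p) 0 && !(Nat.beq (m % (p * p)) 0))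

/-- list of central binomial coefficients -/
def cbs : ℕ → ℕ → ℕ → List ℕ
  | 0, _, _ => []
  | f + 1, k, c => c :: cbs f (k + 1) (c * (2 * (2 * k + 1)) / (k + 1))

/-- the finite check -/
def check : Bool :=
  (cbs 500 0 1).all (fun a => Nat.beq (a % 4) 0 ||
    (cbs 500 0 1).all (fun b => Nat.blt n0 (a + b) || killed (n0 - a - b)))

theorem check_true : check = true := by decide +kernel

theorem P_prime : ∀ p ∈ P, Nat.Prime p ∧ p % 4 = 3 := by
  unfold P
  simp only [List.forall_mem_cons, List.not_mem_nil, false_implies, implies_true, and_true]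
  norm_num

theorem mod_sq (a b : ℕ) : (a ^ 2 + b ^ 2) % 8 ≠ 3 ∧ (a ^ 2 + b ^ 2) % 8 ≠ 6 ∧
    (a ^ 2 + b ^ 2) % 8 ≠ 7 ∧ (a ^ 2 + b ^ 2) % 16 ≠ 12 := by
  have h8 : (a ^ 2 + b ^ 2) % 8 = ((a ^ 2 + b ^ 2) % 16) % 8 := by
    rw [Nat.mod_mod_of_dvd]; norm_num
  have key : ∀ x < 16, ∀ y < 16, ((x ^ 2 + y ^ 2) % 16) % 8 ≠ 3 ∧
      ((x ^ 2 + y ^ 2) % 16) % 8 ≠ 6 ∧ ((x ^ 2 + y ^ 2) % 16) % 8 ≠ 7 ∧
      (x ^ 2 + y ^ 2) % 16 ≠ 12 := by decide
  have h := key (a % 16) (Nat.mod_lt _ (by norm_num)) (b % 16) (Nat.mod_lt _ (by norm_num))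
  have e : ((a % 16) ^ 2 + (b % 16) ^ 2) % 16 = (a ^ 2 + b ^ 2) % 16 := by
    rw [Nat.add_mod, ← Nat.pow_mod, ← Nat.pow_mod, ← Nat.add_mod]
  rw [e] at h
  rw [h8]
  exact h

theorem dvd_of_dvd_sq_add_sq {p : ℕ} (hp : p.Prime) (h4 : p % 4 = 3) (a b : ℕ)
    (h : p ∣ a ^ 2 + b ^ 2) : p ∣ b := by
  have : Fact p.Prime := ⟨hp⟩
  by_contra hb
  have hb0 : (b : ZMod p) ≠ 0 := by
    intro h0
    exact hb ((ZMod.natCast_eq_zero_iff b p).1 h0)
  have h1 : ((a : ZMod p)) ^ 2 + (b : ZMod p) ^ 2 = 0 := by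
    have := (ZMod.natCast_eq_zero_iff (a ^ 2 + b ^ 2) p).2 h
    push_cast at this
    exact this
  have h2 : IsSquare (-1 : ZMod p) := by
    refine ⟨(a : ZMod p) / b, ?_⟩
    field_simp
    linear_combination -h1
  rw [ZMod.exists_sq_eq_neg_one_iff] at h2
  exact h2 h4

theorem not_two_squares {m : ℕ} (hm : killed m = true) (a b : ℕ) : m ≠ a ^ 2 + b ^ 2 := by
  intro h
  obtain ⟨h3, h6, h7, h12⟩ := mod_sq a b
  rw [← h] at h3 h6 h7 h12
  unfold killed at hm
  rw [Bool.or_eq_true, Bool.or_eq_true, Bool.or_eq_true, Bool.or_eq_true] at hm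
  rcases hm with (((hm | hm) | hm) | hm) | hm
  · exact h3 (Nat.eq_of_beq_eq_true hm)
  · exact h6 (Nat.eq_of_beq_eq_true hm)
  · exact h7 (Nat.eq_of_beq_eq_true hm)
  · exact h12 (Nat.eq_of_beq_eq_true hm)
  · rw [List.any_eq_true] at hm
    obtain ⟨p, hpP, hp⟩ := hm
    rw [Bool.and_eq_true] at hp
    obtain ⟨hp1, hp2⟩ := hp
    have hdiv : p ∣ m := Nat.dvd_of_mod_eq_zero (Nat.eq_of_beq_eq_true hp1)
    obtain ⟨hprime, h4⟩ := P_prime p hpP
    rw [h] at hdiv
    have hb := dvd_of_dvd_sq_add_sq hprime h4 a b hdiv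
    have ha := dvd_of_dvd_sq_add_sq hprime h4 b a (by rwa [add_comm])
    have hsq : p * p ∣ m := by
      rw [h, sq, sq]
      exact dvd_add (mul_dvd_mul ha ha) (mul_dvd_mul hb hb)
    have h0 : m % (p * p) = 0 := Nat.mod_eq_zero_of_dvd hsq
    rw [h0] at hp2
    exact absurd hp2 (by decide)

theorem cb_succ (k : ℕ) :
    Nat.centralBinom k * (2 * (2 * k + 1)) / (k + 1) = Nat.centralBinom (k + 1) := by
  have h := Nat.succ_mul_centralBinom_succ k
  apply Nat.div_eq_of_eq_mul_right (Nat.succ_pos k)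
  rw [h]; ring

theorem mem_cbs (f : ℕ) : ∀ k i : ℕ, i < f → Nat.centralBinom (k + i) ∈
    cbs f k (Nat.centralBinom k) := by
  induction f with
  | zero => intro k i hi; omega
  | succ f ih =>
    intro k i hi
    unfold cbs
    rcases Nat.eq_zero_or_pos i with h | h
    · subst h; simp
    · obtain ⟨i', rfl⟩ : ∃ i', i = i' + 1 := ⟨i - 1, by omega⟩
      rw [cb_succ]
      have := ih (k + 1) i' (by omega)
      rw [show k + 1 + i' = k + (i' + 1) by ring] at this
      exact List.mem_cons_of_mem _ this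

theorem cb_mono : Monotone Nat.centralBinom := by
  apply monotone_nat_of_le_succ
  intro k
  have h := Nat.succ_mul_centralBinom_succ k
  have h1 : (k + 1) * Nat.centralBinom k ≤ (k + 1) * Nat.centralBinom (k + 1) := by
    rw [h]
    apply Nat.mul_le_mul_right
    omega
  exact Nat.le_of_mul_le_mul_left h1 (Nat.succ_pos k)

theorem n0_lt : n0 * 500 < 4 ^ 500 := by decide +kernel

theorem n0_mod : n0 % 4 = 3 := by decide +kernel

theorem one_lt_n0 : 1 < n0 := by decide +kernel

theorem big (k : ℕ) (hk : 500 ≤ k) : n0 < Nat.centralBinom k := by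
  refine lt_of_lt_of_le ?_ (cb_mono hk)
  have h := Nat.four_pow_lt_mul_centralBinom 500 (by norm_num)
  have h2 := n0_lt
  have h3 : n0 * 500 < 500 * Nat.centralBinom 500 := lt_trans h2 h
  rw [mul_comm] at h3
  exact Nat.lt_of_mul_lt_mul_left h3

theorem key (a b c d : ℕ) (hc : Nat.centralBinom c % 4 ≠ 0) :
    n0 ≠ a ^ 2 + b ^ 2 + Nat.centralBinom c + Nat.centralBinom d := by
  intro h
  have hc5 : c < 500 := by
    by_contra hcc
    have := big c (by omega)
    omega
  have hd5 : d < 500 := by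
    by_contra hcc
    have := big d (by omega)
    omega
  have h1 := check_true
  unfold check at h1
  rw [List.all_eq_true] at h1
  have mc := mem_cbs 500 0 c hc5
  have md := mem_cbs 500 0 d hd5
  rw [zero_add, Nat.centralBinom_zero] at mc md
  have h2 := h1 _ mc
  rw [Bool.or_eq_true] at h2
  rcases h2 with h2 | h2
  · exact hc (Nat.eq_of_beq_eq_true h2)
  · rw [List.all_eq_true] at h2
    have h3 := h2 _ md
    rw [Bool.or_eq_true] at h3
    rcases h3 with h3 | h3
    · rw [Nat.blt_eq] at h3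
      omega
    · exact not_two_squares h3 a b (by omega)

end Helpers

/-- The negation of the preceding statement: Every natural number n greater than 1 equals a^2 + b^2 + C(2c,c) + C(2d,d) for some natural numbers a, b, c, d (zero allowed). -/
theorem result :
    ¬ (∀ n : ℕ, 1 < n →
      ∃ a b c d : ℕ, n = a ^ 2 + b ^ 2 + Nat.centralBinom c + Nat.centralBinom d) := by
  intro hall
  obtain ⟨a, b, c, d, h⟩ := hall n0 one_lt_n0
  by_cases hc : Nat.centralBinom c % 4 = 0
  · by_cases hd : Nat.centralBinom d % 4 = 0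
    · have h4 := n0_mod
      have hsq : (a ^ 2 + b ^ 2) % 4 = 3 := by omega
      obtain ⟨h3, _, h7, _⟩ := mod_sq a b
      omega
    · exact key a b d c hd (by rw [h]; ring)
  · exact key a b c d hc h

end Pool.Agent.S13030
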