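import Pool.Statements.S13357
import Pool.Agent.P897d6b

set_option autoImplicit false
open Pool Pool.MP_897d6b_pr

namespace Pool.Agent.S13357

/-- For every log-concave probability density f on the reals, the entropy power of the density of X−Y (X, Y i.i.d. with density f) is at most 4 times the entropy power of f, where N = exp(2h)/(2πe). -/
theorem result :
    ∀ f : ℝ → ℝ, (∀ x, 0 ≤ f x) → MeasureTheory.Integrable f → (∫ x, f x) = 1 →
      (∀ x y t : ℝ, 0 ≤ t → t ≤ 1 →
        f x ^ t * f y ^ (1 - t) ≤ f (t * x + (1 - t) * y)) →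
      Real.exp (2 * ∫ z, Real.negMulLog (∫ y, f (z + y) * f y)) /
          (2 * Real.pi * Real.exp 1)
        ≤ 4 * (Real.exp (2 * ∫ x, Real.negMulLog (f x)) / (2 * Real.pi * Real.exp 1)) := by
  intro f hf0 hint h1 hlc
  obtain ⟨M, hM1, hM⟩ := Pool.Agent.P897d6b.exists_bound hf0 hint h1 hlc
  have h := Pool.Agent.P897d6b.main_ineq hf0 hint h1 hlc hM1 hM
  have hc : 0 < 2 * Real.pi * Real.exp 1 := by positivity
  rw [← mul_div_assoc]
  apply div_le_div_of_nonneg_right _ hc.le
  have h4 : (4 : ℝ) = Real.exp (2 * Real.log 2) := by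
    rw [two_mul, Real.exp_add, Real.exp_log (by norm_num)]
    norm_num
  rw [h4, ← Real.exp_add]
  apply Real.exp_le_exp.2
  linarith

end Pool.Agent.S13357
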