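import Pool.Statements.S13362
import Pool.Agent.PakE

set_option autoImplicit false
open Filter Topology
open Pool Pool.MP_8aef71_pr

namespace Pool.Agent.S13362

/-- size of the coordinate group -/
def hh (n : ℕ) : ℕ := 20 * 2 ^ n

instance (n : ℕ) : NeZero (hh n) := ⟨by unfold hh; positivity⟩

/-- the coordinate group -/
abbrev CC (n : ℕ) : Type := Multiplicative (ZMod (hh n))

instance (n : ℕ) : Fintype (CC n) := inferInstanceAs (Fintype (ZMod (hh n)))

lemma card_CC (n : ℕ) : Fintype.card (CC n) = hh n := ZMod.card (hh n)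

noncomputable def del (n : ℕ) : ℝ := 1 / ((n : ℝ) + 1)

lemma del_pos (n : ℕ) : 0 < del n := by unfold del; positivity

lemma del_le (n : ℕ) : del n ≤ 1 := by
  unfold del
  rw [div_le_one (by positivity)]
  have : (0 : ℝ) ≤ n := by positivity
  linarith

/-- distance to uniform of the example -/
noncomputable def dd (n k : ℕ) : ℝ :=
  (1 / 2) * ∑ g : Fin (2 ^ n) → CC n, |PakE.W (PakE.pp (del n)) k g -
    1 / (Fintype.card (Fin (2 ^ n) → CC n) : ℝ)|

lemma dd_upper1 (n k : ℕ) : dd n k ≤ (1 - del n) ^ k := by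
  have h := PakE.dist_upper (C := CC n) (ι := Fin (2 ^ n)) (del_pos n).le (del_le n) k
  refine h.trans ?_
  have hθ1 : (1 / 2 : ℝ) ^ k ≤ 1 := pow_le_one₀ (by norm_num) (by norm_num)
  have hu : 0 ≤ (1 - del n) ^ k := pow_nonneg (by linarith [del_le n]) k
  have hp : 0 ≤ (1 - (1 / 2 : ℝ) ^ k) ^ Fintype.card (Fin (2 ^ n)) := pow_nonneg (by linarith) _
  nlinarith

lemma dd_upper2 (n : ℕ) : dd n (2 * n) ≤ (1 / 2) ^ n := by
  have h := PakE.dist_upper (C := CC n) (ι := Fin (2 ^ n)) (del_pos n).le (del_le n) (2 * n)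
  refine h.trans ?_
  have hθ1 : (1 / 2 : ℝ) ^ (2 * n) ≤ 1 := pow_le_one₀ (by norm_num) (by norm_num)
  have hθ0 : (0 : ℝ) ≤ (1 / 2) ^ (2 * n) := by positivity
  have hu1 : (1 - del n) ^ (2 * n) ≤ 1 :=
    pow_le_one₀ (by linarith [del_le n]) (by linarith [del_pos n])
  have hb := one_add_mul_le_pow (show (-2 : ℝ) ≤ -(1 / 2) ^ (2 * n) by linarith) (2 ^ n)
  rw [← sub_eq_add_neg] at hb
  rw [Fintype.card_fin]
  have e : ((2 ^ n : ℕ) : ℝ) * (1 / 2) ^ (2 * n) = (1 / 2) ^ n := by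
    push_cast
    rw [two_mul, pow_add, ← mul_assoc, ← mul_pow]
    norm_num
  have h3 : 1 - (1 - (1 / 2 : ℝ) ^ (2 * n)) ^ (2 ^ n) ≤ (1 / 2) ^ n := by
    rw [← e]; linarith
  have h4 : 0 ≤ 1 - (1 - (1 / 2 : ℝ) ^ (2 * n)) ^ (2 ^ n) := by
    have : (1 - (1 / 2 : ℝ) ^ (2 * n)) ^ (2 ^ n) ≤ 1 := pow_le_one₀ (by linarith) (by linarith)
    linarith
  calc (1 - del n) ^ (2 * n) * (1 - (1 - (1 / 2 : ℝ) ^ (2 * n)) ^ (2 ^ n))
      ≤ 1 * (1 - (1 - (1 / 2 : ℝ) ^ (2 * n)) ^ (2 ^ n)) := mul_le_mul_of_nonneg_right hu1 h4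
    _ ≤ _ := by rw [one_mul]; exact h3

lemma dd_lower (n k : ℕ) (hn : 10 ≤ n) (hk : 2 * k ≤ n) : 9 / 20 ≤ dd n k := by
  have h := PakE.dist_lower (C := CC n) (ι := Fin (2 ^ n)) (del_pos n).le (del_le n) k
  refine le_trans ?_ h
  rw [Fintype.card_fin, card_CC]
  have hk' : 2 * (k : ℝ) ≤ n := by exact_mod_cast hk
  -- first factor
  have h1 : 1 / 2 ≤ (1 - del n) ^ k := by
    have hb := one_add_mul_le_pow (show (-2 : ℝ) ≤ -del n by linarith [del_le n]) k
    rw [← sub_eq_add_neg] at hb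
    have h2 : (k : ℝ) * del n ≤ 1 / 2 := by
      unfold del
      rw [mul_one_div, div_le_iff₀ (by positivity)]
      linarith
    linarith
  -- uniform part
  have h2 : 19 / 20 ≤ (1 - 1 / ((hh n : ℕ) : ℝ)) ^ (2 ^ n) := by
    have hpos : (0 : ℝ) < 2 ^ n := by positivity
    have h1n : (1 : ℝ) ≤ 2 ^ n := one_le_pow₀ (by norm_num)
    have hb := one_add_mul_le_pow (show (-2 : ℝ) ≤ -(1 / ((hh n : ℕ) : ℝ)) by
      unfold hh
      push_cast
      have : 1 / (20 * (2 : ℝ) ^ n) ≤ 1 := by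
        rw [div_le_one (by positivity)]
        linarith
      linarith) (2 ^ n)
    rw [← sub_eq_add_neg] at hb
    refine le_trans ?_ hb
    unfold hh
    push_cast
    have e : (2 : ℝ) ^ n * -(1 / (20 * 2 ^ n)) = -(1 / 20) := by field_simp
    rw [e]
    norm_num
  -- unmixed part
  have h3 : (1 - (1 / 2 : ℝ) ^ k) ^ (2 ^ n) ≤ 1 / 20 := by
    have e2 : (0 : ℝ) ≤ 1 - (1 / 2) ^ k := by
      have := pow_le_one₀ (n := k) (show (0 : ℝ) ≤ 1 / 2 by norm_num) (by norm_num)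
      linarith
    have e3 : 1 - (1 / 2 : ℝ) ^ k ≤ Real.exp (-(1 / 2) ^ k) := by
      have := Real.add_one_le_exp (-(1 / 2 : ℝ) ^ k)
      linarith
    have hkn : k ≤ n := by omega
    calc (1 - (1 / 2 : ℝ) ^ k) ^ (2 ^ n) ≤ (Real.exp (-(1 / 2) ^ k)) ^ (2 ^ n) :=
          pow_le_pow_left₀ e2 e3 _
      _ = Real.exp (-(2 ^ (n - k))) := by
          rw [← Real.exp_nat_mul]
          congr 1
          push_cast
          rw [mul_neg]
          congr 1
          have : (2 : ℝ) ^ n = 2 ^ (n - k) * 2 ^ k := by rw [← pow_add]; congr 1; omega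
          rw [this, mul_assoc, ← mul_pow]
          norm_num
      _ ≤ 1 / 20 := by
          rw [Real.exp_neg, ← one_div]
          apply one_div_le_one_div_of_le (by norm_num)
          have e4 : (32 : ℝ) ≤ 2 ^ (n - k) := by
            calc (32 : ℝ) = 2 ^ 5 := by norm_num
              _ ≤ 2 ^ (n - k) := pow_le_pow_right₀ (by norm_num) (by omega)
          have := Real.add_one_le_exp ((2 : ℝ) ^ (n - k))
          linarith
  calc (9 : ℝ) / 20 = 1 / 2 * (9 / 10) := by norm_num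
    _ ≤ _ := mul_le_mul h1 (by linarith) (by norm_num) (by linarith)

/-- The negation of the preceding statement: Every sequence of random walks on finite groups with a precut-off (distance to uniform →0 at b·tₙ but eventually ≥ε at a·tₙ, tₙ→∞) has a cut-off: some sₙ→∞ with distance →0 at (1+ε)sₙ and →1 at (1−ε)sₙ for all ε in (0,1). -/
theorem result :
    ¬ (∀ (G : ℕ → Type) [∀ n, Group (G n)] [∀ n, Fintype (G n)] [∀ n, DecidableEq (G n)]
    (p : ∀ n, G n → ℝ) (d : ℕ → ℕ → ℝ),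
    (∀ n g, 0 ≤ p n g) → (∀ n, ∑ g, p n g = 1) →
    (∀ n k, d n k = (1 / 2 : ℝ) * ∑ g : G n,
        |(∑ f ∈ (Finset.univ : Finset (Fin k → G n)).filter (fun f => (List.ofFn f).prod = g),
            ∏ i, p n (f i)) - 1 / (Fintype.card (G n) : ℝ)|) →
    (∃ t : ℕ → ℝ, Tendsto t atTop atTop ∧ ∃ a b : ℝ, 0 < a ∧ a < b ∧
        Tendsto (fun n => d n ⌊b * t n⌋₊) atTop (𝓝 0) ∧
        ∃ ε : ℝ, 0 < ε ∧ ∀ᶠ n in atTop, ε ≤ d n ⌊a * t n⌋₊) →
    ∃ s : ℕ → ℝ, Tendsto s atTop atTop ∧ ∀ ε : ℝ, 0 < ε → ε < 1 →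
        Tendsto (fun n => d n ⌊(1 + ε) * s n⌋₊) atTop (𝓝 0) ∧
        Tendsto (fun n => d n ⌊(1 - ε) * s n⌋₊) atTop (𝓝 1)) := by
  intro H
  have hsum : ∀ n, ∑ g : Fin (2 ^ n) → CC n, PakE.pp (del n) g = 1 := by
    intro n
    have h := PakE.W_pp_sum (C := CC n) (ι := Fin (2 ^ n)) (del n) 1
    have h2 : ∀ g : Fin (2 ^ n) → CC n, PakE.W (PakE.pp (del n)) 1 g = PakE.pp (del n) g := by
      intro g
      rw [PakE.W_pp]
      unfold PakE.pp
      simp
    simpa [h2] using h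
  have hnn : ∀ n (g : Fin (2 ^ n) → CC n), 0 ≤ PakE.pp (del n) g := by
    intro n g
    unfold PakE.pp
    have h1 : 0 ≤ PakE.ν (1 / 2) g := by
      unfold PakE.ν
      apply Finset.prod_nonneg
      intro i _
      unfold PakE.q
      have : (0 : ℝ) ≤ (Fintype.card (CC n) : ℝ) := by positivity
      split_ifs <;> positivity
    have h2 := del_le n
    have h3 := (del_pos n).le
    have h4 : 0 ≤ 1 - del n := by linarith
    positivity
  obtain ⟨s, hs, hcut⟩ := H (fun n => Fin (2 ^ n) → CC n) (fun n => PakE.pp (del n)) dd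
    hnn hsum (fun n k => rfl)
    ⟨fun n => (n : ℝ), tendsto_natCast_atTop_atTop, 1 / 2, 2, by norm_num, by norm_num, by
      have h1 : ∀ n : ℕ, ⌊(2 : ℝ) * n⌋₊ = 2 * n := by
        intro n
        rw [show (2 : ℝ) * n = ((2 * n : ℕ) : ℝ) by push_cast; ring, Nat.floor_natCast]
      simp_rw [h1]
      have h2 : Tendsto (fun n : ℕ => (1 / 2 : ℝ) ^ n) atTop (𝓝 0) :=
        tendsto_pow_atTop_nhds_zero_of_lt_one (by norm_num) (by norm_num)
      refine squeeze_zero (fun n => ?_) dd_upper2 h2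
      unfold dd
      positivity, 9 / 20, by norm_num, by
      filter_upwards [eventually_ge_atTop 10] with n hn
      apply dd_lower n _ hn
      have h1 : ((⌊(1 / 2 : ℝ) * n⌋₊ : ℕ) : ℝ) ≤ (1 / 2 : ℝ) * n := Nat.floor_le (by positivity)
      have h2 : 2 * ((⌊(1 / 2 : ℝ) * n⌋₊ : ℕ) : ℝ) ≤ n := by linarith
      exact_mod_cast h2⟩
  obtain ⟨h0, h1⟩ := hcut (1 / 2) (by norm_num) (by norm_num)
  have e1 : ∀ᶠ n in atTop, dd n ⌊(1 + 1 / 2) * s n⌋₊ < 9 / 20 :=
    h0.eventually_lt_const (by norm_num)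
  have e2 : ∀ᶠ n in atTop, 19 / 20 < dd n ⌊(1 - 1 / 2) * s n⌋₊ :=
    h1.eventually_const_lt (by norm_num)
  have e3 : ∀ᶠ n in atTop, 0 ≤ s n := hs.eventually_ge_atTop 0
  obtain ⟨n, hn⟩ := (e1.and (e2.and (e3.and (eventually_ge_atTop 100)))).exists
  obtain ⟨a1, a2, a3, a4⟩ := hn
  have hn' : (100 : ℝ) ≤ n := by exact_mod_cast a4
  -- s n is at least of order n
  have b1 : n < 2 * ⌊(1 + 1 / 2) * s n⌋₊ := by
    by_contra hcon
    have := dd_lower n _ (by omega) (not_lt.1 hcon)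
    linarith
  have b2 : ((⌊(1 + 1 / 2) * s n⌋₊ : ℕ) : ℝ) ≤ (1 + 1 / 2) * s n := Nat.floor_le (by positivity)
  have b3 : (n : ℝ) < 2 * ((⌊(1 + 1 / 2) * s n⌋₊ : ℕ) : ℝ) := by exact_mod_cast b1
  have b4 : (n : ℝ) ≤ 3 * s n := by linarith
  have b5 : (1 - 1 / 2) * s n < ((⌊(1 - 1 / 2) * s n⌋₊ : ℕ) : ℝ) + 1 := Nat.lt_floor_add_one _
  set k := ⌊(1 - 1 / 2) * s n⌋₊ with hk
  have b6 : (n : ℝ) / 6 - 1 ≤ (k : ℝ) := by linarith
  have b7 := dd_upper1 n k
  have b8 : (1 - del n) ^ k ≤ Real.exp (-(1 / 10)) := by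
    calc (1 - del n) ^ k ≤ (Real.exp (-del n)) ^ k := by
          apply pow_le_pow_left₀ (by linarith [del_le n])
          have := Real.add_one_le_exp (-del n)
          linarith
      _ = Real.exp (-(del n * k)) := by
          rw [← Real.exp_nat_mul]; congr 1; ring
      _ ≤ Real.exp (-(1 / 10)) := by
          apply Real.exp_le_exp.2
          apply neg_le_neg
          unfold del
          rw [one_div_mul_eq_div, le_div_iff₀ (by positivity)]
          linarith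
  have b9 : Real.exp (-(1 / 10)) ≤ 10 / 11 := by
    rw [Real.exp_neg, inv_le_comm₀ (Real.exp_pos _) (by norm_num)]
    have := Real.add_one_le_exp (1 / 10 : ℝ)
    norm_num at this ⊢
    linarith
  linarith

end Pool.Agent.S13362
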