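import Pool.Statements.S13398
import Pool.Agent.Pa5e374c

set_option autoImplicit false
open MeasureTheory Pointwise
open Pool Pool.MP_a5e374_pr

namespace Pool.Agent.S13398

/-- The negation of the preceding statement: For every κ ≤ 1/2 and every symmetric κ-concave law of (U,V) in the plane with densities for U, V, U+V: the square-root Rényi entropy power of U+V is at most that of U plus that of V, for all p>1 and for p=1 when entropies are finite. -/
theorem result :
    ¬ (∀ κ : EReal, κ ≤ ((1/2 : ℝ) : EReal) →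
  ∀ μ : Measure (ℝ × ℝ), IsProbabilityMeasure μ →
    μ.map (fun x => -x) = μ →
    (∀ A B : Set (ℝ × ℝ), IsCompact A → IsCompact B → 0 < μ A → 0 < μ B →
      ∀ t : ℝ, 0 < t → t < 1 →
        (if κ = ⊥ then min (μ A).toReal (μ B).toReal
         else if κ = 0 then (μ A).toReal ^ t * (μ B).toReal ^ (1 - t)
         else (t * (μ A).toReal ^ κ.toReal + (1 - t) * (μ B).toReal ^ κ.toReal) ^ (1 / κ.toReal))
        ≤ (μ (t • A + (1 - t) • B)).toReal) →
  ∀ fU fV fW : ℝ → ℝ, Measurable fU → Measurable fV → Measurable fW →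
    (∀ x, 0 ≤ fU x) → (∀ x, 0 ≤ fV x) → (∀ x, 0 ≤ fW x) →
    μ.map Prod.fst = volume.withDensity (fun x => ENNReal.ofReal (fU x)) →
    μ.map Prod.snd = volume.withDensity (fun x => ENNReal.ofReal (fV x)) →
    μ.map (fun x => x.1 + x.2) = volume.withDensity (fun x => ENNReal.ofReal (fW x)) →
    (∀ p : ENNReal, 1 < p →
      eLpNorm fW p volume ^ (-((1 - p⁻¹)⁻¹).toReal) ≤
        eLpNorm fU p volume ^ (-((1 - p⁻¹)⁻¹).toReal)
          + eLpNorm fV p volume ^ (-((1 - p⁻¹)⁻¹).toReal)) ∧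
    (Integrable (fun x => Real.negMulLog (fU x)) →
      Integrable (fun x => Real.negMulLog (fV x)) →
      Integrable (fun x => Real.negMulLog (fW x)) →
      Real.exp (∫ x, Real.negMulLog (fW x)) ≤
        Real.exp (∫ x, Real.negMulLog (fU x)) + Real.exp (∫ x, Real.negMulLog (fV x)))) := by
  intro H
  have h1 := H ⊥ bot_le Pa5e374.mu Pa5e374.mu_prob Pa5e374.mu_neg
    (by
      intro A B hA hB hpA hpB t h0 h1
      rw [if_pos rfl]
      exact Pa5e374.mu_qc hA hB hpA hpB h0 h1)
    Pa5e374.fU (Pa5e374.dens 1) (Pa5e374.dens 2) Pa5e374.fU_meas (Pa5e374.dens_meas 1)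
    (Pa5e374.dens_meas 2) Pa5e374.fU_nonneg (Pa5e374.dens_nonneg one_pos)
    (Pa5e374.dens_nonneg two_pos) Pa5e374.mu_fst Pa5e374.mu_snd Pa5e374.mu_sum
  have h2 := h1.1 2 (by norm_num)
  have j1 := Pa5e374.J1_lb
  have j2 := Pa5e374.J2_ub
  have j1p : 0 < Pa5e374.J 1 := by linarith
  have hJ2 : 0 < Pa5e374.J 2 := by
    unfold Pa5e374.J
    have l5 : Real.log 5 < 2.33 := by
      have h : (3 : ℝ) * Real.log 5 < 7 * Real.log 2 := by
        rw [← Real.log_rpow (by norm_num), ← Real.log_rpow (by norm_num)]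
        apply Real.log_lt_log (by positivity)
        norm_num
      have := Real.log_two_lt_d9
      linarith
    norm_num
    linarith
  rw [Pa5e374.eLp_two (Pa5e374.dens_nonneg two_pos) hJ2 (Pa5e374.L2_dens two_pos),
    Pa5e374.eLp_two Pa5e374.fU_nonneg (by norm_num) Pa5e374.L2_fU,
    Pa5e374.eLp_two (Pa5e374.dens_nonneg one_pos) j1p (Pa5e374.L2_dens one_pos),
    ← ENNReal.ofReal_add (by positivity) (by positivity),
    ENNReal.ofReal_le_ofReal_iff (by positivity)] at h2
  have e1 : 1 / Pa5e374.J 1 < 7.5833 := by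
    rw [div_lt_iff₀ j1p]
    linarith
  have e2 : 9.709 < 1 / Pa5e374.J 2 := by
    rw [lt_div_iff₀ hJ2]
    linarith
  norm_num at h2 e1 e2
  linarith

end Pool.Agent.S13398
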