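import Pool.Statements.S13402
-- import your own Pool.Agent.* helpers here

set_option autoImplicit false
open MeasureTheory ProbabilityTheory
open Pool Pool.MP_aa6114_pr

namespace Pool.Agent.S13402

/-- value tables: variable `0` is `X₁`, `1` is `X₂`, `2` is `X₃`, `3` is `X₄`, `4` is `X₅`. -/
def val (i : Fin 5) (b : Bool) : ℕ :=
  match i, b with
  | 0, false => 2
  | 0, true => 4
  | 1, false => 1
  | 1, true => 6
  | 2, _ => 3
  | 3, false => 3
  | 3, true => 7
  | 4, false => 0
  | 4, true => 5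

noncomputable def coin : Measure Bool := (PMF.uniformOfFintype Bool).toMeasure

instance : IsProbabilityMeasure coin := by unfold coin; infer_instance

lemma coin_singleton (b : Bool) : coin {b} = (2 : ENNReal)⁻¹ := by
  unfold coin
  rw [PMF.toMeasure_apply_singleton _ _ (measurableSet_singleton b)]
  simp

noncomputable def mu : Measure (Fin 5 → Bool) := Measure.pi (fun _ => coin)

instance : IsProbabilityMeasure mu := by unfold mu; infer_instance

lemma mu_singleton (w : Fin 5 → Bool) : mu {w} = (32 : ENNReal)⁻¹ := by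
  unfold mu
  rw [Measure.pi_singleton]
  simp only [coin_singleton, Finset.prod_const, Finset.card_univ, Fintype.card_fin]
  rw [← ENNReal.inv_pow]
  norm_num

lemma mu_apply (s : Finset (Fin 5 → Bool)) : mu (s : Set (Fin 5 → Bool)) = s.card * (32 : ENNReal)⁻¹ := by
  rw [← MeasureTheory.sum_measure_singleton]
  simp only [mu_singleton, Finset.sum_const, nsmul_eq_mul]

noncomputable def X (i : Fin 5) (w : Fin 5 → Bool) : ℝ := ((val i (w i) : ℕ) : ℝ)

lemma X_meas (i : Fin 5) : Measurable (X i) := by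
  unfold X
  exact measurable_of_finite _

lemma X_indep : iIndepFun X mu := by
  have h := iIndepFun_pi (μ := fun _ : Fin 5 => coin) (X := fun i (b : Bool) => ((val i b : ℕ) : ℝ))
    (fun i => (measurable_of_finite _).aemeasurable)
  exact h

def PS : Finset (Fin 5 × Fin 5) := {(0, 3), (4, 3), (4, 1)}

lemma P_eq : {w : Fin 5 → Bool | (∀ p ∈ PS, X p.1 w < X p.2 w) ∧ (∀ p ∈ (∅ : Finset (Fin 5 × Fin 5)), X p.1 w ≤ X p.2 w)}
    = ((Finset.univ.filter (fun w : Fin 5 → Bool => ∀ p ∈ PS, val p.1 (w p.1) < val p.2 (w p.2)) : Finset (Fin 5 → Bool)) : Set (Fin 5 → Bool)) := by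
  ext w
  simp [X]

lemma B_eq (a b : Fin 5) : {w : Fin 5 → Bool | X a w < X b w}
    = ((Finset.univ.filter (fun w : Fin 5 → Bool => val a (w a) < val b (w b)) : Finset (Fin 5 → Bool)) : Set (Fin 5 → Bool)) := by
  ext w
  simp [X]

theorem result :
    ¬ (∀ (Ω : Type) [MeasurableSpace Ω] (μ : Measure Ω) [IsProbabilityMeasure μ]
      (n : ℕ) (X : Fin n → Ω → ℝ),
      (∀ i, Measurable (X i)) →
      iIndepFun X μ →
      ∀ (a b c : Fin n), a ≠ b → a ≠ c → b ≠ c →
      ∀ (S W : Finset (Fin n × Fin n)),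
        μ ({ω | (∀ p ∈ S, X p.1 ω < X p.2 ω) ∧ (∀ p ∈ W, X p.1 ω ≤ X p.2 ω)}
            ∩ {ω | X a ω < X c ω}) ≠ 0 →
        ProbabilityTheory.cond μ
            {ω | (∀ p ∈ S, X p.1 ω < X p.2 ω) ∧ (∀ p ∈ W, X p.1 ω ≤ X p.2 ω)}
            {ω | X a ω < X b ω}
          ≤ ProbabilityTheory.cond μ
            ({ω | (∀ p ∈ S, X p.1 ω < X p.2 ω) ∧ (∀ p ∈ W, X p.1 ω ≤ X p.2 ω)}
              ∩ {ω | X a ω < X c ω})
            {ω | X a ω < X b ω}) := by
  intro h
  have h1 := h (Fin 5 → Bool) mu 5 X X_meas X_indep 0 1 2 (by decide) (by decide) (by decide) PS ∅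
  rw [ProbabilityTheory.cond_apply (Set.toFinite _).measurableSet,
    ProbabilityTheory.cond_apply (Set.toFinite _).measurableSet, P_eq, B_eq 0 1, B_eq 0 2] at h1
  simp only [← Finset.coe_inter] at h1
  rw [mu_apply, mu_apply, mu_apply, mu_apply] at h1
  have c1 : (Finset.univ.filter (fun w : Fin 5 → Bool => ∀ p ∈ PS, val p.1 (w p.1) < val p.2 (w p.2))).card = 16 := by
    decide +kernel
  have c2 : ((Finset.univ.filter (fun w : Fin 5 → Bool => ∀ p ∈ PS, val p.1 (w p.1) < val p.2 (w p.2))) ∩ (Finset.univ.filter (fun w : Fin 5 → Bool => val 0 (w 0) < val 1 (w 1)))).card = 10 := by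
    decide +kernel
  have c3 : ((Finset.univ.filter (fun w : Fin 5 → Bool => ∀ p ∈ PS, val p.1 (w p.1) < val p.2 (w p.2))) ∩ (Finset.univ.filter (fun w : Fin 5 → Bool => val 0 (w 0) < val 2 (w 2)))).card = 10 := by
    decide +kernel
  have c4 : (((Finset.univ.filter (fun w : Fin 5 → Bool => ∀ p ∈ PS, val p.1 (w p.1) < val p.2 (w p.2))) ∩ (Finset.univ.filter (fun w : Fin 5 → Bool => val 0 (w 0) < val 2 (w 2)))) ∩ (Finset.univ.filter (fun w : Fin 5 → Bool => val 0 (w 0) < val 1 (w 1)))).card = 6 := by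
    decide +kernel
  rw [c1, c2, c3, c4] at h1
  have h2 := h1 (by simp)
  have h3 := ENNReal.toReal_mono (by
    apply ENNReal.mul_ne_top
    · rw [ENNReal.inv_ne_top]
      simp
    · apply ENNReal.mul_ne_top
      · simp
      · simp) h2
  simp only [ENNReal.toReal_mul, ENNReal.toReal_inv, ENNReal.toReal_natCast, ENNReal.toReal_ofNat] at h3
  norm_num at h3

end Pool.Agent.S13402
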